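import Mathlib

section

set_option backward.isDefEq.respectTransparency false

open CategoryTheory Limits Abelian Opposite

namespace Pool.Agent.MP_855f4c_ag.E

universe w w' v v' u u' t t'

section Cmp
variable {C : Type u} [Category.{v} C] [Abelian C] {D : Type u'} [Category.{v'} D] [Abelian D]
  (F : C ⥤ D) [F.Additive] [PreservesFiniteLimits F] [PreservesFiniteColimits F]
  [HasExt.{w} C] [HasExt.{w'} D]

/-- `Ext(A,Y) → Ext(FA,FY) → Ext(B,FY)`. -/
noncomputable def cmp {A : C} {B : D} (a : B ⟶ F.obj A) (Y : C) (n : ℕ) :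
    Ext A Y n →+ Ext B (F.obj Y) n :=
  ((Ext.mk₀ a).precomp (F.obj Y) (zero_add n)).comp (F.mapExtAddHom A Y n)

lemma cmp_apply {A : C} {B : D} (a : B ⟶ F.obj A) {Y : C} {n : ℕ} (x : Ext A Y n) :
    cmp F a Y n x = (Ext.mk₀ a).comp (x.mapExactFunctor F) (zero_add n) := rfl

lemma cmp_mk₀ {A : C} {B : D} (a : B ⟶ F.obj A) {Y : C} (f : A ⟶ Y) :
    cmp F a Y 0 (Ext.mk₀ f) = Ext.mk₀ (a ≫ F.map f) := by
  rw [cmp_apply, Ext.mapExactFunctor_mk₀, Ext.mk₀_comp_mk₀]

lemma cmp_comp {A : C} {B : D} (a : B ⟶ F.obj A) {Y Z : C} {n m k : ℕ} (x : Ext A Y n)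
    (y : Ext Y Z m) (h : n + m = k) :
    cmp F a Z k (x.comp y h) = (cmp F a Y n x).comp (y.mapExactFunctor F) h := by
  rw [cmp_apply, cmp_apply, Ext.mapExactFunctor_comp, Ext.comp_assoc _ _ _ (zero_add n) h (by omega)]

lemma cmp_pre {A A' : C} {B : D} (a : B ⟶ F.obj A') (g : A' ⟶ A) {Y : C} {n : ℕ} (x : Ext A Y n) :
    cmp F a Y n ((Ext.mk₀ g).comp x (zero_add n)) = cmp F (a ≫ F.map g) Y n x := by
  rw [cmp_apply, cmp_apply, Ext.mapExactFunctor_comp, Ext.mapExactFunctor_mk₀,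
    Ext.mk₀_comp_mk₀_assoc]

/-- Comparison for a pro-object `A` : `colim_i Ext(A i, Y) = Ext(B, F Y)`, elementwise. -/
theorem cmp_pro [EnoughInjectives C] {I : Type t} [Category.{t'} I] [IsCofiltered I] (A : I ⥤ C)
    {B : D} (a : ∀ i, B ⟶ F.obj (A.obj i))
    (ha : ∀ {i j} (f : i ⟶ j), a i ≫ F.map (A.map f) = a j)
    (hs : ∀ (Y : C) (y : B ⟶ F.obj Y), ∃ i, ∃ x : A.obj i ⟶ Y, a i ≫ F.map x = y)
    (hi : ∀ (Y : C) (i) (x : A.obj i ⟶ Y), a i ≫ F.map x = 0 → ∃ j, ∃ f : j ⟶ i, A.map f ≫ x = 0)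
    (h1 : ∀ (J : C) [Injective J] (n : ℕ) (y : Ext B (F.obj J) (n + 1)), y = 0) (n : ℕ) (Y : C) :
    (∀ y : Ext B (F.obj Y) n, ∃ i x, cmp F (a i) Y n x = y) ∧
    (∀ i (x : Ext (A.obj i) Y n), cmp F (a i) Y n x = 0 →
      ∃ j, ∃ f : j ⟶ i, (Ext.mk₀ (A.map f)).comp x (zero_add n) = 0) := by
  induction n generalizing Y with
  | zero =>
    constructor
    · intro y
      obtain ⟨y, rfl⟩ := (Ext.mk₀_bijective _ _).2 y
      obtain ⟨i, x, rfl⟩ := hs Y y
      exact ⟨i, Ext.mk₀ x, cmp_mk₀ F _ _⟩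
    · intro i x hx
      obtain ⟨x, rfl⟩ := (Ext.mk₀_bijective _ _).2 x
      rw [cmp_mk₀, Ext.mk₀_eq_zero_iff] at hx
      obtain ⟨j, f, hf⟩ := hi Y i x hx
      exact ⟨j, f, by rw [Ext.mk₀_comp_mk₀, hf, Ext.mk₀_zero]⟩
  | succ n ih =>
    let P : InjectivePresentation Y := Classical.arbitrary _
    let S := ShortComplex.mk _ _ (cokernel.condition P.f)
    have hS : S.ShortExact := { exact := ShortComplex.exact_cokernel P.f }
    have := P.injective
    constructor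
    · intro y
      obtain ⟨y', rfl⟩ := Ext.covariant_sequence_exact₁ B (hS.map_of_exact F) y (h1 P.J n _) rfl
      obtain ⟨i, x, rfl⟩ := (ih S.X₃).1 y'
      exact ⟨i, x.comp hS.extClass rfl, by rw [cmp_comp, Ext.mapExactFunctor_extClass]⟩
    · intro i x hx
      obtain ⟨x', rfl⟩ := Ext.covariant_sequence_exact₁ (A.obj i) hS x
        (Ext.eq_zero_of_injective _) rfl
      rw [cmp_comp, Ext.mapExactFunctor_extClass] at hx
      obtain ⟨y, hy⟩ := Ext.covariant_sequence_exact₃ B (hS.map_of_exact F) _ rfl hx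
      obtain ⟨j, z, rfl⟩ := (ih S.X₂).1 y
      let k := IsCofiltered.min i j
      obtain ⟨l, f, hf⟩ := (ih S.X₃).2 k
        ((Ext.mk₀ (A.map (IsCofiltered.minToLeft i j))).comp x' (zero_add n) -
          ((Ext.mk₀ (A.map (IsCofiltered.minToRight i j))).comp z (zero_add n)).comp
            (Ext.mk₀ S.g) (add_zero n)) (by
          rw [map_sub, cmp_pre, cmp_comp, cmp_pre, ha, ha, Ext.mapExactFunctor_mk₀, ← hy]
          exact sub_self _)
      refine ⟨l, f ≫ IsCofiltered.minToLeft i j, ?_⟩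
      rw [sub_eq_add_neg, Ext.comp_add, Ext.comp_neg, add_neg_eq_zero,
        Ext.mk₀_comp_mk₀_assoc] at hf
      rw [← Ext.comp_assoc _ _ _ (zero_add n) rfl (by omega), A.map_comp, hf,
        Ext.comp_assoc _ _ _ (zero_add n) rfl (by omega),
        Ext.comp_assoc _ _ _ (add_zero n) (zero_add 1) (by omega)]
      simp

theorem cmp_bij [EnoughInjectives C] {A : C} {B : D} (a : B ⟶ F.obj A)
    (h0 : ∀ Y : C, Function.Bijective fun x : A ⟶ Y => a ≫ F.map x)
    (h1 : ∀ (J : C) [Injective J] (n : ℕ) (y : Ext B (F.obj J) (n + 1)), y = 0) (n : ℕ) (Y : C) :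
    Function.Bijective (cmp F a Y n) := by
  obtain ⟨hs, hi⟩ := cmp_pro F (I := Discrete PUnit.{1}) ((Functor.const _).obj A) (fun _ => a)
    (by intro i j f; simp) (fun Y y => by obtain ⟨x, hx⟩ := (h0 Y).2 y; exact ⟨⟨⟨⟩⟩, x, hx⟩)
    (fun Y i x hx => ⟨i, 𝟙 _, by
      have : x = 0 := (h0 Y).1 (by simpa using hx)
      simp [this]⟩) h1 n Y
  refine ⟨(injective_iff_map_eq_zero _).2 fun x hx => ?_, fun y => ?_⟩
  · obtain ⟨j, f, hf⟩ := hi ⟨⟨⟩⟩ x hx
    simpa using hf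
  · obtain ⟨i, x, hx⟩ := hs y
    exact ⟨x, hx⟩
end Cmp

section Cartan
variable {C : Type u} [Category.{v} C] [Abelian C] [HasExt.{w} C]

lemma ext_zero_of_retract {X G F : C} (r : Retract X G) {n : ℕ} (h : ∀ y : Ext G F n, y = 0)
    (x : Ext X F n) : x = 0 := by
  have := h ((Ext.mk₀ r.r).comp x (zero_add n))
  have h2 : (Ext.mk₀ r.i).comp ((Ext.mk₀ r.r).comp x (zero_add n)) (zero_add n) = x := by
    rw [Ext.mk₀_comp_mk₀_assoc, r.retract, Ext.mk₀_id_comp]
  rw [← h2, this, Ext.comp_zero]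

/-- Abstract Cartan criterion. -/
theorem cartan (𝒮 : Set (ShortComplex C)) (𝒢 : Set C) (F : C)
    (h1 : ∀ S ∈ 𝒮, S.ShortExact) (h2 : ∀ S ∈ 𝒮, ∃ S' ∈ 𝒮, Nonempty (S'.X₃ ≅ S.X₁))
    (h3 : ∀ S ∈ 𝒮, S.X₂ ∈ 𝒢)
    (h4 : ∀ G ∈ 𝒢, ∀ (q : ℕ) (x : Ext G F (q + 1)), ∃ S ∈ 𝒮, ∃ e : S.X₃ ≅ G,
      (Ext.mk₀ (S.g ≫ e.hom)).comp x (zero_add _) = 0)
    (hF : ∀ S ∈ 𝒮, ∀ f : S.X₁ ⟶ F, ∃ g : S.X₂ ⟶ F, S.f ≫ g = f) (q : ℕ) :
    (∀ G ∈ 𝒢, ∀ x : Ext G F (q + 1), x = 0) ∧ ∀ S ∈ 𝒮, ∀ x : Ext S.X₃ F (q + 1), x = 0 := by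
  have key : ∀ q, (∀ S ∈ 𝒮, ∀ y : Ext S.X₁ F q, ∀ hS : S.ShortExact,
      hS.extClass.comp y (add_comm 1 q) = 0) →
      (∀ G ∈ 𝒢, ∀ x : Ext G F (q + 1), x = 0) ∧ ∀ S ∈ 𝒮, ∀ x : Ext S.X₃ F (q + 1), x = 0 := by
    intro q hq
    have a : ∀ S ∈ 𝒮, ∀ x : Ext S.X₃ F (q + 1),
        (Ext.mk₀ S.g).comp x (zero_add _) = 0 → x = 0 := by
      intro S hS x hx
      obtain ⟨y, rfl⟩ := Ext.contravariant_sequence_exact₃ (h1 S hS) F x hx (add_comm 1 q)
      exact hq S hS y _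
    have b : ∀ G ∈ 𝒢, ∀ x : Ext G F (q + 1), x = 0 := by
      intro G hG x
      obtain ⟨S, hS, e, he⟩ := h4 G hG q x
      have := a S hS ((Ext.mk₀ e.hom).comp x (zero_add _)) (by rwa [Ext.mk₀_comp_mk₀_assoc])
      have h2 : (Ext.mk₀ e.inv).comp ((Ext.mk₀ e.hom).comp x (zero_add _)) (zero_add _) = x := by
        rw [Ext.mk₀_comp_mk₀_assoc, e.inv_hom_id, Ext.mk₀_id_comp]
      rw [← h2, this, Ext.comp_zero]
    exact ⟨b, fun S hS x => a S hS x (b _ (h3 S hS) _)⟩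
  induction q with
  | zero =>
    refine key 0 fun S hS y h => ?_
    obtain ⟨y, rfl⟩ := (Ext.mk₀_bijective _ _).2 y
    obtain ⟨g, rfl⟩ := hF S hS y
    rw [← Ext.mk₀_comp_mk₀, ← Ext.comp_assoc _ _ _ (add_zero 1) (add_zero 0) (by omega)]
    simp
  | succ q ih =>
    refine key (q + 1) fun S hS y h => ?_
    obtain ⟨S', hS', ⟨e⟩⟩ := h2 S hS
    rw [ext_zero_of_retract (Retract.ofIso e.symm) (ih.2 S' hS') y, Ext.comp_zero]
end Cartan

section Colim
variable {C : Type u} [Category.{v} C] [Abelian C] [IsGrothendieckAbelian.{w} C] [HasExt.{w'} C]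


omit [HasExt.{w'} C] in
lemma exists_inj_functor : ∃ (E : C ⥤ C) (η : 𝟭 C ⟶ E), ∀ X, Mono (η.app X) ∧ Injective (E.obj X) := by
  let d := MorphismProperty.functorialFactorizationData (MorphismProperty.monomorphisms C)
    (MorphismProperty.monomorphisms C).rlp
  let T : C ⥤ Arrow C :=
    { obj X := Arrow.mk (0 : X ⟶ (⊤_ C))
      map f := Arrow.homMk f (𝟙 _) (by simp) }
  refine ⟨T ⋙ d.Z, ⟨fun X => d.i.app (T.obj X), fun X Y f => d.i.naturality (T.map f)⟩,
    fun X => ⟨d.hi _, ?_⟩⟩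
  have h := d.hp (T.obj X)
  refine ⟨fun {A B} g f _ => ?_⟩
  have := h f (show Mono f from inferInstance)
  have sq : CommSq g f (d.p.app (T.obj X)) (terminal.from B) := ⟨terminalIsTerminal.hom_ext _ _⟩
  exact ⟨sq.lift, sq.fac_left⟩

/-- `Ext(K, -)` commutes with filtered colimits, elementwise. -/
theorem ext_colim {D : Type w} [SmallCategory D] [IsFiltered D] (K : C) [IsFinitelyPresentable.{w} K]
    (hK : ∀ (G : D ⥤ C), (∀ d, Injective (G.obj d)) → ∀ (n : ℕ) (x : Ext K (colimit G) (n + 1)),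
      x = 0) (n : ℕ) (G : D ⥤ C) (c : Cocone G) (hc : IsColimit c) :
    (∀ y : Ext K c.pt n, ∃ d, ∃ x : Ext K (G.obj d) n, x.comp (Ext.mk₀ (c.ι.app d)) (add_zero n) = y) ∧
    (∀ d (x : Ext K (G.obj d) n), x.comp (Ext.mk₀ (c.ι.app d)) (add_zero n) = 0 →
      ∃ e, ∃ f : d ⟶ e, x.comp (Ext.mk₀ (G.map f)) (add_zero n) = 0) := by
  induction n generalizing G with
  | zero =>
    constructor
    · intro y
      obtain ⟨y, rfl⟩ := (Ext.mk₀_bijective _ _).2 y
      obtain ⟨d, x, rfl⟩ := IsFinitelyPresentable.exists_hom_of_isColimit hc y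
      exact ⟨d, Ext.mk₀ x, Ext.mk₀_comp_mk₀ _ _⟩
    · intro d x hx
      obtain ⟨x, rfl⟩ := (Ext.mk₀_bijective _ _).2 x
      rw [Ext.mk₀_comp_mk₀, Ext.mk₀_eq_zero_iff] at hx
      obtain ⟨e, f, g, h⟩ := IsFinitelyPresentable.exists_eq_of_isColimit hc x (0 : K ⟶ G.obj d)
        (by simpa using hx)
      exact ⟨e, f, by rw [Ext.mk₀_comp_mk₀, h]; simp⟩
  | succ n ih =>
    obtain ⟨E, η, hE⟩ := exists_inj_functor (C := C)
    let φ : G ⟶ G ⋙ E := Functor.whiskerLeft G η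
    have (d : D) : Mono (φ.app d) := (hE _).1
    have : Mono φ := NatTrans.mono_of_mono_app φ
    let S := ShortComplex.mk _ _ (cokernel.condition φ)
    have hS : S.ShortExact := { exact := ShortComplex.exact_cokernel φ }
    have hd (d : D) := hS.map_of_exact ((evaluation D C).obj d)
    let f : c.pt ⟶ colimit S.X₂ := hc.desc ⟨_, φ ≫ (colimit.cocone S.X₂).ι⟩
    have hf (d : D) : c.ι.app d ≫ f = S.f.app d ≫ (colimit.cocone S.X₂).ι.app d := hc.fac _ d
    have hg (d : D) : (colimit.cocone S.X₂).ι.app d ≫ colimMap S.g =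
      S.g.app d ≫ (colimit.cocone S.X₃).ι.app d := ι_colimMap _ _
    let T := colim.mapShortComplex S hc (colimit.cocone S.X₂) (colimit.cocone S.X₃) f
      (colimMap S.g) hf hg
    have hT : T.ShortExact :=
      { exact := colim.exact_mapShortComplex hS.exact hc (colimit.isColimit _)
          (colimit.isColimit _) f _ hf hg
        mono_f := colim.map_mono' φ hc (colimit.isColimit _) f hf
        epi_g := by
          have := hS.epi_g
          exact colim.map_epi' S.g _ (colimit.isColimit _) _ hg }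
    have nat (d : D) : (hd d).extClass.comp (Ext.mk₀ (c.ι.app d)) (add_zero 1) =
        (Ext.mk₀ (colimit.ι S.X₃ d)).comp hT.extClass (zero_add 1) :=
      ShortComplex.ShortExact.extClass_naturality (hd d) hT
        ⟨c.ι.app d, colimit.ι S.X₂ d, colimit.ι S.X₃ d, hf d, hg d⟩
    have nat' {d e : D} (a : d ⟶ e) : (hd d).extClass.comp (Ext.mk₀ (G.map a)) (add_zero 1) =
        (Ext.mk₀ (S.X₃.map a)).comp (hd e).extClass (zero_add 1) :=
      ShortComplex.ShortExact.extClass_naturality (hd d) (hd e)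
        ⟨G.map a, S.X₂.map a, S.X₃.map a, S.f.naturality a, S.g.naturality a⟩
    constructor
    · intro y
      obtain ⟨y', rfl⟩ := Ext.covariant_sequence_exact₁ K hT y
        (hK (G ⋙ E) (fun d => (hE _).2) n _) rfl
      obtain ⟨d, x, rfl⟩ := (ih S.X₃ _ (colimit.isColimit _)).1 y'
      refine ⟨d, x.comp (hd d).extClass rfl, ?_⟩
      rw [Ext.comp_assoc _ _ _ rfl (add_zero 1) (by omega), nat,
        Ext.comp_assoc _ _ _ (add_zero n) (zero_add 1) (by omega)]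
      rfl
    · intro d x hx
      have := (hE (G.obj d)).2
      obtain ⟨x', rfl⟩ := Ext.covariant_sequence_exact₁ K (hd d) x
        (Ext.eq_zero_of_injective (I := E.obj (G.obj d)) _) rfl
      rw [Ext.comp_assoc _ _ _ rfl (add_zero 1) (by omega), nat,
        ← Ext.comp_assoc _ _ _ (add_zero n) (zero_add 1) (by omega)] at hx
      obtain ⟨y, hy⟩ := Ext.covariant_sequence_exact₃ K hT _ rfl hx
      obtain ⟨e, z, rfl⟩ := (ih S.X₂ _ (colimit.isColimit _)).1 y
      obtain ⟨l, a, ha⟩ := (ih S.X₃ _ (colimit.isColimit _)).2 (IsFiltered.max d e)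
        (x'.comp (Ext.mk₀ (S.X₃.map (IsFiltered.leftToMax d e))) (add_zero n) +
          -(z.comp (Ext.mk₀ (S.g.app e ≫ S.X₃.map (IsFiltered.rightToMax d e))) (add_zero n))) (by
          rw [Ext.add_comp, Ext.neg_comp, add_neg_eq_zero]
          simp only [Ext.comp_assoc_of_second_deg_zero, Ext.mk₀_comp_mk₀, Category.assoc] at hy ⊢
          erw [colimit.w, colimit.w, ← hy, ← hg]
          rfl)
      refine ⟨l, IsFiltered.leftToMax d e ≫ a, ?_⟩
      rw [Ext.add_comp, Ext.neg_comp, add_neg_eq_zero] at ha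
      simp only [Ext.comp_assoc_of_second_deg_zero, Ext.mk₀_comp_mk₀, Category.assoc] at ha
      rw [Ext.comp_assoc _ _ _ rfl (add_zero 1) (by omega), nat',
        ← Ext.comp_assoc _ _ _ (add_zero n) (zero_add 1) (by omega), Functor.map_comp]
      erw [ha]
      rw [← S.X₃.map_comp, ← S.g.naturality, ← Ext.mk₀_comp_mk₀,
        Ext.comp_assoc _ _ _ (add_zero n) (zero_add 1) (by omega),
        Ext.comp_assoc _ _ _ (add_zero 0) (zero_add 1) (by omega)]
      erw [(hd l).comp_extClass]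
      simp
end Colim

end Pool.Agent.MP_855f4c_ag.E

end

section

set_option backward.isDefEq.respectTransparency false

open CategoryTheory Limits Abelian Opposite

namespace Pool.Agent.MP_855f4c_ag.E

universe w v u

variable {C : Type u} [Category.{v} C]

/-- A model of the iterated fibre powers of `p : V ⟶ U`. -/
structure Cech {V U : C} (p : V ⟶ U) where
  X : ℕ → C
  b : ∀ n, X n ⟶ U
  π : ∀ n, Fin n → (X n ⟶ V)
  w : ∀ n j, π n j ≫ p = b n
  ex : ∀ n {T : C} (u : T ⟶ U) (a : Fin n → (T ⟶ V)), (∀ j, a j ≫ p = u) →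
    ∃ x : T ⟶ X n, x ≫ b n = u ∧ ∀ j, x ≫ π n j = a j
  ext : ∀ n {T : C} (x y : T ⟶ X n), x ≫ b n = y ≫ b n → (∀ j, x ≫ π n j = y ≫ π n j) → x = y

namespace Cech
variable {V U : C} {p : V ⟶ U} (N : Cech p)

noncomputable def lift (n) {T : C} (u : T ⟶ U) (a : Fin n → (T ⟶ V)) (h : ∀ j, a j ≫ p = u) :
    T ⟶ N.X n := (N.ex n u a h).choose
@[reassoc (attr := simp)] lemma lift_b (n) {T : C} (u : T ⟶ U) (a : Fin n → (T ⟶ V)) (h) :
    N.lift n u a h ≫ N.b n = u := (N.ex n u a h).choose_spec.1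
@[reassoc (attr := simp)] lemma lift_π (n) {T : C} (u : T ⟶ U) (a : Fin n → (T ⟶ V)) (h) (j) :
    N.lift n u a h ≫ N.π n j = a j := (N.ex n u a h).choose_spec.2 j

noncomputable def face (n) (i : Fin (n + 1)) : N.X (n + 1) ⟶ N.X n :=
  N.lift n (N.b _) (fun j => N.π _ (i.succAbove j)) (fun _ => N.w _ _)
@[reassoc (attr := simp)] lemma face_b (n i) : N.face n i ≫ N.b n = N.b _ := N.lift_b ..
@[reassoc (attr := simp)] lemma face_π (n i j) : N.face n i ≫ N.π n j = N.π _ (i.succAbove j) :=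
  N.lift_π ..

noncomputable def cons {n} {T : C} (a : T ⟶ V) (x : T ⟶ N.X n) (h : a ≫ p = x ≫ N.b n) :
    T ⟶ N.X (n + 1) :=
  N.lift _ (x ≫ N.b n) (Fin.cons a fun j => x ≫ N.π n j)
    (fun j => by induction j using Fin.cases <;> simp [h, N.w])

lemma cons_face0 {n} {T : C} (a : T ⟶ V) (x : T ⟶ N.X n) (h) :
    N.cons a x h ≫ N.face n 0 = x := N.ext _ _ _ (by simp [cons]) (by simp [cons])

lemma cons_face {n} {T : C} (a : T ⟶ V) (x : T ⟶ N.X (n + 1)) (h) (i : Fin (n + 1)) :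
    N.cons a x h ≫ N.face (n + 1) i.succ = N.cons a (x ≫ N.face n i) (by simpa using h) :=
  N.ext _ _ _ (by simp [cons]) (fun j => by induction j using Fin.cases <;> simp [cons])

lemma cons_self {n} {T : C} (y : T ⟶ N.X (n + 1)) :
    N.cons (y ≫ N.π _ 0) (y ≫ N.face n 0) (by simp [N.w]) = y :=
  N.ext _ _ _ (by simp [cons]) (fun j => by induction j using Fin.cases <;> simp [cons])

instance : IsIso (N.b 0) :=
  ⟨N.lift 0 (𝟙 _) Fin.elim0 (fun j => j.elim0), N.ext _ _ _ (by simp) (fun j => j.elim0), by simp⟩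

noncomputable def ofWide [HasFiniteWidePullbacks C] (p : V ⟶ U) : Cech p where
  X n := widePullback U (fun _ : Fin n => V) (fun _ => p)
  b n := WidePullback.base _
  π n j := WidePullback.π (fun _ : Fin n => p) j
  w n j := by simp
  ex n T u a h := ⟨WidePullback.lift u a h, by simp, by simp⟩
  ext n T x y h h' := WidePullback.hom_ext _ _ _ h' h

variable (R : Type) [CommRing R] (T : C)

noncomputable def δ (n : ℕ) : (ULift.{u} (T ⟶ N.X (n + 1)) →₀ R) →ₗ[R] (ULift.{u} (T ⟶ N.X n) →₀ R) :=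
  ∑ i : Fin (n + 1), (-1 : ℤ) ^ (i : ℕ) • Finsupp.lmapDomain R R fun x => ⟨x.down ≫ N.face n i⟩

open Classical in
noncomputable def c (σ : (T ⟶ U) → (T ⟶ V)) (n : ℕ) :
    (ULift.{u} (T ⟶ N.X n) →₀ R) →ₗ[R] (ULift.{u} (T ⟶ N.X (n + 1)) →₀ R) :=
  Finsupp.linearCombination R fun x =>
    if h : σ (x.down ≫ N.b n) ≫ p = x.down ≫ N.b n then Finsupp.single ⟨N.cons _ _ h⟩ 1 else 0

variable {T}
lemma δ_single (n) (x : T ⟶ N.X (n + 1)) : N.δ R T n (Finsupp.single ⟨x⟩ 1) =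
    ∑ i : Fin (n + 1), (-1 : ℤ) ^ (i : ℕ) • Finsupp.single ⟨x ≫ N.face n i⟩ 1 := by
  simp [δ, LinearMap.sum_apply]

lemma c_single (σ : (T ⟶ U) → (T ⟶ V)) (n) (x : T ⟶ N.X n)
    (h : σ (x ≫ N.b n) ≫ p = x ≫ N.b n) :
    N.c R T σ n (Finsupp.single ⟨x⟩ 1) = Finsupp.single ⟨N.cons _ _ h⟩ 1 := by
  simp [c, h]

lemma δ_c0 (σ : (T ⟶ U) → (T ⟶ V)) (x : T ⟶ N.X 0) (h : σ (x ≫ N.b 0) ≫ p = x ≫ N.b 0) :
    N.δ R T 0 (N.c R T σ 0 (Finsupp.single ⟨x⟩ 1)) = Finsupp.single ⟨x⟩ 1 := by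
  rw [N.c_single R σ 0 x h, δ_single]; simp [cons_face0]

lemma δ_c (σ : (T ⟶ U) → (T ⟶ V)) (n) (x : T ⟶ N.X (n + 1))
    (h : σ (x ≫ N.b _) ≫ p = x ≫ N.b _) :
    N.δ R T (n + 1) (N.c R T σ (n + 1) (Finsupp.single ⟨x⟩ 1)) =
      Finsupp.single ⟨x⟩ 1 - N.c R T σ n (N.δ R T n (Finsupp.single ⟨x⟩ 1)) := by
  rw [N.c_single R σ _ x h, δ_single, δ_single, Fin.sum_univ_succ, map_sum, sub_eq_add_neg,
    ← Finset.sum_neg_distrib, cons_face0]
  congr 1
  · simp
  · refine Finset.sum_congr rfl fun i _ => ?_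
    rw [map_zsmul, N.c_single R σ n _ (by simpa using h), cons_face]
    simp [pow_succ]

lemma δδ (n) (y : T ⟶ N.X (n + 2)) :
    N.δ R T n (N.δ R T (n + 1) (Finsupp.single ⟨y⟩ 1)) = 0 := by
  have h0 {m} (y : T ⟶ N.X (m + 1)) : (Finsupp.single ⟨y⟩ 1 : ULift.{u} _ →₀ R) =
      N.c R T (fun _ => y ≫ N.π _ 0) m (Finsupp.single ⟨y ≫ N.face m 0⟩ 1) := by
    rw [N.c_single R _ _ _ (by simp [N.w]), cons_self]
  induction n with
  | zero =>
    rw [h0, δ_c _ _ _ _ _ (by simp [N.w]), map_sub, δ_single, map_sum, map_sum,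
      ← Finset.sum_sub_distrib]
    refine Finset.sum_eq_zero fun i _ => ?_
    rw [map_zsmul, map_zsmul, δ_c0 _ _ _ _ (by simp [N.w]), sub_self]
  | succ n ih =>
    rw [h0, δ_c _ _ _ _ _ (by simp [N.w]), map_sub, sub_eq_zero]
    have := congrArg (N.c R T (fun _ => y ≫ N.π _ 0) n) (ih (y ≫ N.face _ 0))
    rw [δ_single _ _ (n + 1), map_sum, map_sum, map_zero] at this
    rw [δ_single, map_sum, map_sum, ← sub_zero (∑ i : Fin (n + 1 + 1), (-1 : ℤ) ^ (i : ℕ) • _),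
      ← this, ← Finset.sum_sub_distrib]
    refine Finset.sum_congr rfl fun i _ => ?_
    rw [map_zsmul, map_zsmul, map_zsmul, map_zsmul, δ_c _ _ _ _ _ (by simp [N.w]), smul_sub]

lemma δ_exact (n) (y) (hy : N.δ R T n y = 0) : ∃ z, N.δ R T (n + 1) z = y := by
  classical
  by_cases hV : Nonempty (T ⟶ V)
  · let σ : (T ⟶ U) → (T ⟶ V) := fun u => Classical.epsilon fun a => a ≫ p = u
    have : (N.δ R T (n + 1)) ∘ₗ (N.c R T σ (n + 1)) =
        LinearMap.id - (N.c R T σ n) ∘ₗ (N.δ R T n) := by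
      refine Finsupp.lhom_ext' fun x => LinearMap.ext_ring ?_
      exact N.δ_c R σ n x.down (Classical.epsilon_spec (p := fun a => a ≫ p = x.down ≫ N.b _)
        ⟨x.down ≫ N.π _ 0, by simp [N.w]⟩)
    exact ⟨N.c R T σ _ y, by simpa [hy] using LinearMap.congr_fun this y⟩
  · refine ⟨0, ?_⟩
    ext x
    exact (hV ⟨x.down ≫ N.π _ 0⟩).elim

end Cech

end Pool.Agent.MP_855f4c_ag.E

end

section

set_option backward.isDefEq.respectTransparency false

open CategoryTheory Limits Abelian Opposite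

namespace Pool.Agent.MP_855f4c_ag.E

universe v u

variable {C : Type u} [Category.{v} C] (J : GrothendieckTopology C)

abbrev Sh := Sheaf J Ab.{max u v}

/-! Shortcut instances (they make kernel checks and unification much faster). -/
instance hasSheafifyAb : HasSheafify J Ab.{max u v} := inferInstance
instance hasWeakSheafifyAb : HasWeakSheafify J Ab.{max u v} := inferInstance
instance wEqAb : J.WEqualsLocallyBijective Ab.{max u v} := inferInstance
noncomputable instance abSh : Abelian (Sh J) := sheafIsAbelian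
noncomputable instance preaddSh : Preadditive (Sh J) := (abSh J).toPreadditive
noncomputable instance zeroSh : HasZeroMorphisms (Sh J) := Preadditive.preadditiveHasZeroMorphisms
instance : (presheafToSheaf J Ab.{max u v}).Additive := presheafToSheaf_additive
instance : (sheafToPresheaf J Ab.{max u v}).Additive := ⟨rfl⟩
instance : PreservesFiniteLimits (presheafToSheaf J Ab.{max u v}) := inferInstance
instance : PreservesColimitsOfSize.{max u v, max u v} (presheafToSheaf J Ab.{max u v}) :=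
  (sheafificationAdjunction J _).leftAdjoint_preservesColimits
instance : PreservesFiniteColimits (presheafToSheaf J Ab.{max u v}) :=
  have := (sheafificationAdjunction J Ab.{max u v}).leftAdjoint_preservesColimits.{0, 0}
  inferInstance

instance grothSh : IsGrothendieckAbelian.{max u v} (Sh J) := by
  have : EssentiallySmall.{max u v} C := inferInstance
  exact Sheaf.isGrothendieckAbelian_of_essentiallySmall J Ab.{max u v}

/-- `HasExt (Sh J)`; the wrapper only makes kernel checks faster. -/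
@[reducible] def HasExtSh : Prop := HasExt.{max u v} (Sh J)

instance hasExtSh : HasExtSh J := IsGrothendieckAbelian.hasExt _
instance : EnoughInjectives (Sh J) := inferInstance
instance : HasColimitsOfSize.{max u v, max u v} (Sh J) := IsGrothendieckAbelian.hasColimits _
instance : HasLimitsOfSize.{max u v, max u v} (Sh J) := IsGrothendieckAbelian.hasLimits _
instance : HasColimitsOfSize.{0, 0} (Sh J) := hasColimitsOfSizeShrink.{0, 0, max u v, max u v} _
instance : HasLimitsOfSize.{0, 0} (Sh J) := hasLimitsOfSizeShrink.{0, 0, max u v, max u v} _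
instance : HasFiniteLimits (Sh J) := inferInstance
instance : HasFiniteColimits (Sh J) := inferInstance
instance : HasZeroObject (Sh J) := inferInstance
instance : HasBinaryBiproducts (Sh J) := inferInstance
instance : HasFiniteBiproducts (Sh J) := Abelian.hasFiniteBiproducts

/-- The presheaf `T ↦ ℤ[Hom(T,X)]`. -/
@[reducible] noncomputable def frO (X : C) : Cᵒᵖ ⥤ Ab.{max u v} where
  obj T := AddCommGrpCat.of (ULift.{u} (T.unop ⟶ X) →₀ ℤ)
  map g := AddCommGrpCat.ofHom (Finsupp.mapDomain.addMonoidHom fun x => ⟨g.unop ≫ x.down⟩)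
  map_id T := by ext; simp
  map_comp f g := by ext; simp

/-- Its functoriality in `X`. -/
@[reducible] noncomputable def frM {X Y : C} (f : X ⟶ Y) : frO X ⟶ frO Y where
  app T := AddCommGrpCat.ofHom (Finsupp.mapDomain.addMonoidHom fun x => ⟨x.down ≫ f⟩)
  naturality T T' g := by ext; simp

/-- The functor `X ↦ (T ↦ ℤ[Hom(T,X)])`. -/
noncomputable def frP : C ⥤ (Cᵒᵖ ⥤ Ab.{max u v}) where
  obj := frO
  map := frM
  map_id X := by ext; simp
  map_comp f g := by ext; simp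

/-- The basis element attached to `x : T ⟶ X`. -/
noncomputable def bas {T X : C} (x : T ⟶ X) : (frP.obj X).obj (op T) :=
  (Finsupp.single ⟨x⟩ 1 : ULift.{u} (T ⟶ X) →₀ ℤ)

lemma map_bas {T T' X : C} (g : T' ⟶ T) (x : T ⟶ X) :
    (frP.obj X).map g.op (bas x) = bas (g ≫ x) := Finsupp.mapDomain_single

lemma app_bas {T X Y : C} (x : T ⟶ X) (f : X ⟶ Y) :
    (frP.map f).app (op T) (bas x) = bas (x ≫ f) := Finsupp.mapDomain_single

lemma bas_ext {T X : C} {M : Type*} [AddCommGroup M] {a b : (frP.obj X).obj (op T) →+ M}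
    (h : ∀ x, a (bas x) = b (bas x)) : a = b :=
  Finsupp.addHom_ext' fun x => AddMonoidHom.ext_int (h x.down)

noncomputable def lft {X : C} (P : Cᵒᵖ ⥤ Ab.{max u v}) (s : P.obj (op X)) (T : C) :
    (frP.obj X).obj (op T) →+ P.obj (op T) :=
  (Finsupp.liftAddHom fun x => zmultiplesHom _ (P.map x.down.op s) :
    (ULift.{u} (T ⟶ X) →₀ ℤ) →+ _)

lemma lft_bas {X T : C} (P : Cᵒᵖ ⥤ Ab.{max u v}) (s : P.obj (op X)) (x : T ⟶ X) :
    lft P s T (bas x) = P.map x.op s :=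
  (Finsupp.liftAddHom_apply_single _ _ _).trans (by simp)

noncomputable def frPEquiv (X : C) (P : Cᵒᵖ ⥤ Ab.{max u v}) :
    (frP.obj X ⟶ P) ≃+ P.obj (op X) where
  toFun a := a.app (op X) (bas (𝟙 X))
  invFun s :=
    { app T := AddCommGrpCat.ofHom (lft P s T.unop)
      naturality T T' g := AddCommGrpCat.hom_ext (bas_ext fun x => by
        change lft P s _ ((frP.obj X).map g.unop.op (bas x)) = P.map g (lft P s _ (bas x))
        rw [map_bas, lft_bas, lft_bas]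
        simp) }
  left_inv a := by
    refine NatTrans.ext (funext fun T => AddCommGrpCat.hom_ext (bas_ext fun x => ?_))
    have := ConcreteCategory.congr_hom (a.naturality x.op) (bas (𝟙 X))
    simp only [ConcreteCategory.comp_apply, map_bas, Category.comp_id] at this
    exact (lft_bas _ _ _).trans this.symm
  right_inv s := (lft_bas _ _ _).trans (by simp)
  map_add' a b := rfl

/-- The free abelian sheaf `ℤ[X]`. -/
noncomputable def fr : C ⥤ Sh J := frP ⋙ presheafToSheaf J Ab.{max u v}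

variable {J}

/-- `Hom(ℤ[X], F) = F(X)`. -/
noncomputable def frEquiv (X : C) (F : Sh J) : ((fr J).obj X ⟶ F) ≃+ F.obj.obj (op X) :=
  ((sheafificationAdjunction J Ab.{max u v}).homAddEquiv _ F).trans (frPEquiv X F.obj)

lemma frEquiv_apply {X : C} {F : Sh J} (a : (fr J).obj X ⟶ F) :
    frEquiv X F a = a.hom.app (op X) ((toSheafify J (frP.obj X)).app (op X) (bas (𝟙 X))) := rfl

lemma frEquiv_post {X : C} {F G : Sh J} (a : (fr J).obj X ⟶ F) (φ : F ⟶ G) :
    frEquiv X G (a ≫ φ) = φ.hom.app (op X) (frEquiv X F a) := rfl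

lemma frEquiv_pre {X Y : C} {F : Sh J} (f : X ⟶ Y) (a : (fr J).obj Y ⟶ F) :
    frEquiv X F ((fr J).map f ≫ a) = F.obj.map f.op (frEquiv Y F a) := by
  have h1 := ConcreteCategory.congr_hom
    (congr_app (toSheafify_naturality J (frP.map f)) (op X)) (bas (𝟙 X))
  have h2 := ConcreteCategory.congr_hom ((toSheafify J (frP.obj Y) ≫ a.hom).naturality f.op)
    (bas (𝟙 Y))
  simp only [NatTrans.comp_app, ConcreteCategory.comp_apply, app_bas, map_bas, Category.id_comp,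
    Category.comp_id] at h1 h2
  exact (congrArg (a.hom.app (op X)) h1.symm).trans h2

/-- The single arrow `p` is a covering. -/
def Cov (J : GrothendieckTopology C) {V U : C} (p : V ⟶ U) : Prop :=
  Sieve.generate (Presieve.singleton p) ∈ J U

lemma sep (F : Sh J) {U : C} {S : Sieve U} (hS : S ∈ J U) {s t : F.obj.obj (op U)}
    (h : ∀ ⦃W⦄ (g : W ⟶ U), S g → F.obj.map g.op s = F.obj.map g.op t) : s = t :=
  (((isSheaf_iff_isSheaf_of_type J _).1 ((sheafCompose J (forget Ab.{max u v})).obj F).property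
    S hS).isSeparatedFor.ext fun _ g hg => h g hg)

lemma Cov.inj {V U : C} {p : V ⟶ U} (h : Cov J p) (F : Sh J) :
    Function.Injective (F.obj.map p.op) := fun s t hst => by
  refine sep F h ?_
  rintro W _ ⟨_, g, _, ⟨⟩, rfl⟩
  simp only [op_comp, Functor.map_comp, ConcreteCategory.comp_apply, hst]

lemma Cov.epi {V U : C} {p : V ⟶ U} (h : Cov J p) : Epi ((fr J).map p) :=
  ⟨fun {F} a b hab => (frEquiv U F).injective (h.inj F (by rw [← frEquiv_pre, ← frEquiv_pre, hab]))⟩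

lemma exact_psh (S : ShortComplex (Cᵒᵖ ⥤ Ab.{max u v}))
    (h : ∀ T (y : S.X₂.obj T), S.g.app T y = 0 → ∃ x, S.f.app T x = y) : S.Exact := by
  rw [ShortComplex.exact_iff_isZero_homology]
  refine Functor.isZero _ fun T => ?_
  exact IsZero.of_iso ((ShortComplex.exact_iff_isZero_homology _).1
    (((S.map ((evaluation _ _).obj T)).ab_exact_iff).2 (h T)))
    (S.mapHomologyIso ((evaluation _ _).obj T)).symm

/-- Evaluation of morphisms of presheaves at a section. -/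
def evA {P : Cᵒᵖ ⥤ Ab.{max u v}} (Q : Cᵒᵖ ⥤ Ab.{max u v}) (T) (x : P.obj T) :
    (P ⟶ Q) →+ Q.obj T := AddMonoidHom.mk' (fun a => a.app T x) fun _ _ => rfl

namespace Cech
variable {V U : C} {p : V ⟶ U} (N : Cech p)

noncomputable def dP (n : ℕ) : frP.obj (N.X (n + 1)) ⟶ frP.obj (N.X n) :=
  ∑ i : Fin (n + 1), (-1 : ℤ) ^ (i : ℕ) • frP.map (N.face n i)

lemma dP_app (n T) (y) : (N.dP n).app (op T) y = N.δ ℤ T n y := by
  have : ((N.dP n).app (op T)).hom = (N.δ ℤ T n).toAddMonoidHom := bas_ext fun x => by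
    refine Eq.trans ?_ (N.δ_single ℤ n x).symm
    refine (map_sum (evA _ (op T) (bas x)) _ _).trans (Finset.sum_congr rfl fun i _ => ?_)
    exact (map_zsmul _ _ _).trans (congrArg _ (app_bas _ _))
  exact DFunLike.congr_fun this y

lemma dP_dP (n) : N.dP (n + 1) ≫ N.dP n = 0 :=
  NatTrans.ext (funext fun T => AddCommGrpCat.hom_ext (bas_ext fun x => by
    change (N.dP n).app (op T.unop) ((N.dP (n + 1)).app (op T.unop) (bas x)) = 0
    rw [dP_app, dP_app]
    exact N.δδ ℤ n x))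

variable (J)
/-- Differential of the Čech resolution `ℤ[X (n+1)] → ℤ[X n]`. -/
noncomputable def d (n : ℕ) : (fr J).obj (N.X (n + 1)) ⟶ (fr J).obj (N.X n) :=
  (presheafToSheaf J Ab.{max u v}).map (N.dP n)

lemma d_eq (n) : N.d J n = ∑ i : Fin (n + 1), (-1 : ℤ) ^ (i : ℕ) • (fr J).map (N.face n i) := by
  rw [d, dP, Functor.map_sum]
  exact Finset.sum_congr rfl fun i _ => Functor.map_zsmul _

lemma d_d (n) : N.d J (n + 1) ≫ N.d J n = 0 := by
  rw [d, d, ← Functor.map_comp, dP_dP, Functor.map_zero]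

lemma d_exact (n) : (ShortComplex.mk _ _ (N.d_d J n)).Exact :=
  (exact_psh (ShortComplex.mk _ _ (N.dP_dP n)) fun T y hy => by
    obtain ⟨z, hz⟩ := N.δ_exact ℤ n y ((N.dP_app n T.unop y).symm.trans hy)
    exact ⟨z, (N.dP_app (n + 1) T.unop z).trans hz⟩).map (presheafToSheaf J Ab.{max u v})

variable {J}
/-- Čech differential on sections. -/
noncomputable def cd (P : Cᵒᵖ ⥤ Ab.{max u v}) (n : ℕ) (s : P.obj (op (N.X n))) :
    P.obj (op (N.X (n + 1))) :=
  ∑ i : Fin (n + 1), (-1 : ℤ) ^ (i : ℕ) • P.map (N.face n i).op s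

lemma frEquiv_d (F : Sh J) (n) (a : (fr J).obj (N.X n) ⟶ F) :
    frEquiv _ F (N.d J n ≫ a) = N.cd F.obj n (frEquiv _ F a) := by
  simp only [d_eq, cd, Preadditive.sum_comp, map_sum, Preadditive.zsmul_comp, map_zsmul,
    frEquiv_pre]

/-- Čech-exactness in positive degrees. -/
def Acy (P : Cᵒᵖ ⥤ Ab.{max u v}) : Prop :=
  ∀ n (s : P.obj (op (N.X (n + 2)))), N.cd P (n + 2) s = 0 → ∃ t, N.cd P (n + 1) t = s

variable (J)
noncomputable def e (n) : (fr J).obj (N.X (n + 2)) ⟶ kernel (N.d J n) :=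
  kernel.lift _ (N.d J (n + 1)) (N.d_d J n)

instance (n) : Epi (N.e J n) :=
  (ShortComplex.mk _ _ (N.d_d J n)).exact_iff_epi_kernel_lift.1 (N.d_exact J n)

@[reassoc] lemma e_ι (n) : N.e J n ≫ kernel.ι _ = N.d J (n + 1) := kernel.lift_ι _ _ _

lemma d_e (n) : N.d J (n + 2) ≫ N.e J n = 0 := by
  rw [← cancel_mono (kernel.ι _), Category.assoc, e_ι, d_d, zero_comp]

lemma ι_e (n) : kernel.ι (N.d J (n + 1)) ≫ N.e J n = 0 := by
  rw [← cancel_mono (kernel.ι _), Category.assoc, e_ι, kernel.condition, zero_comp]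

lemma d_e_exact (n) : (ShortComplex.mk _ _ (N.d_e J n)).Exact :=
  (ShortComplex.exact_iff_of_epi_of_isIso_of_mono
    (S₂ := ShortComplex.mk _ _ (N.d_d J (n + 1))) (S₁ := ShortComplex.mk _ _ (N.d_e J n))
    ⟨𝟙 _, 𝟙 _, kernel.ι _, by simp, by simp [e_ι]⟩).2 (N.d_exact J (n + 1))

noncomputable def S0 : ShortComplex (Sh J) := ShortComplex.mk _ _ (kernel.condition (N.d J 0))
noncomputable def Sn (n : ℕ) : ShortComplex (Sh J) := ShortComplex.mk _ _ (N.ι_e J n)

lemma Sn_exact (n) : (N.Sn J n).ShortExact where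
  exact := (ShortComplex.exact_iff_of_epi_of_isIso_of_mono
    (S₂ := ShortComplex.mk _ _ (kernel.condition (N.d J (n + 1))))
    (S₁ := N.Sn J n) ⟨𝟙 _, 𝟙 _, kernel.ι _, by simp [Sn], by simp [Sn, e_ι]⟩).2
      (ShortComplex.exact_kernel _)
  mono_f := inferInstanceAs (Mono (kernel.ι _))
  epi_g := inferInstanceAs (Epi (N.e J n))

lemma d0 : N.d J 0 ≫ (fr J).map (N.b 0) = (fr J).map (N.π 1 0) ≫ (fr J).map p := by
  simp [d_eq, ← Functor.map_comp, N.w]

instance : IsIso (N.π 1 0) :=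
  ⟨N.lift 1 p (fun _ => 𝟙 _) (by simp), N.ext _ _ _ (by simp [N.w]) (fun j => by
    simp [Subsingleton.elim j 0]), by simp⟩

variable {J}
lemma S0_exact (h : Cov J p) : (N.S0 J).ShortExact where
  exact := ShortComplex.exact_kernel _
  mono_f := inferInstanceAs (Mono (kernel.ι _))
  epi_g := by
    have := h.epi
    have : Epi (N.d J 0 ≫ (fr J).map (N.b 0)) := by rw [d0]; infer_instance
    exact (epi_comp_iff_of_isIso _ _).1 this

lemma acy_iff (F : Sh J) : N.Acy F.obj ↔ ∀ n (f : kernel (N.d J n) ⟶ F),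
    ∃ g, kernel.ι (N.d J n) ≫ g = f := by
  constructor
  · intro h n f
    obtain ⟨t, ht⟩ := h n (frEquiv _ F (N.e J n ≫ f)) (by
      rw [← frEquiv_d, ← Category.assoc, d_e, zero_comp, map_zero])
    obtain ⟨g, rfl⟩ := (frEquiv _ F).surjective t
    rw [← frEquiv_d, (frEquiv _ F).injective.eq_iff, ← e_ι, Category.assoc, cancel_epi] at ht
    exact ⟨g, ht⟩
  · intro h n s hs
    obtain ⟨a, rfl⟩ := (frEquiv _ F).surjective s
    rw [← frEquiv_d, map_eq_zero_iff _ (frEquiv _ F).injective] at hs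
    obtain ⟨f, hf⟩ := (N.d_e_exact J n).desc' a hs
    obtain ⟨g, rfl⟩ := h n f
    exact ⟨frEquiv _ F g, by rw [← frEquiv_d, ← hf, ← e_ι, Category.assoc]⟩

lemma acy_inj (I : Sh J) [Injective I] : N.Acy I.obj :=
  (N.acy_iff I).2 fun _ f => ⟨Injective.factorThru f _, Injective.comp_factorThru _ _⟩

end Cech

instance fr_torsionFree (X : C) (m : ℤ) [NeZero m] : Mono (m • 𝟙 ((fr J).obj X)) := by
  have : Mono (m • 𝟙 (frP.obj X)) := by
    have (T : Cᵒᵖ) : Mono ((m • 𝟙 (frP.obj X)).app T) := by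
      rw [AddCommGrpCat.mono_iff_injective]
      exact smul_right_injective (ULift.{u} (T.unop ⟶ X) →₀ ℤ) (NeZero.ne m)
    exact NatTrans.mono_of_mono_app _
  have h : m • 𝟙 ((fr J).obj X) = (presheafToSheaf J Ab.{max u v}).map (m • 𝟙 (frP.obj X)) := by
    simp [fr]
  rw [h]; infer_instance

section
variable {A : Type*} [Category* A] [Abelian A]
/-- Maps into `I[m]` extend along a mono with `m`-torsion-free cokernel. -/
lemma ext_tors {S : ShortComplex A} (hS : S.ShortExact) (m : ℤ) [Mono (m • 𝟙 S.X₃)] (I : A)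
    [Injective I] (f : S.X₁ ⟶ kernel (m • 𝟙 I)) : ∃ g, S.f ≫ g = f := by
  have := hS.mono_f
  have := hS.epi_g
  obtain ⟨g, hg⟩ := Injective.factors (f ≫ kernel.ι _) S.f
  have hf : m • (f ≫ kernel.ι (m • 𝟙 I)) = 0 := by
    have := kernel.condition (m • 𝟙 I)
    rw [Preadditive.comp_zsmul, Category.comp_id] at this
    rw [← Preadditive.comp_zsmul, this, comp_zero]
  obtain ⟨h, hh⟩ := hS.exact.desc' (m • g) (by rw [Preadditive.comp_zsmul, hg, hf])
  obtain ⟨h', hh'⟩ := Injective.factors h (m • 𝟙 S.X₃)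
  refine ⟨kernel.lift _ (g - S.g ≫ h') ?_, ?_⟩
  · rw [Preadditive.zsmul_comp, Category.id_comp] at hh'
    rw [Preadditive.comp_zsmul, Category.comp_id, smul_sub, ← hh, ← Preadditive.comp_zsmul, hh',
      sub_self]
  · rw [← cancel_mono (kernel.ι _), Category.assoc, kernel.lift_ι, Preadditive.comp_sub, hg,
      S.zero_assoc, zero_comp, sub_zero]

lemma mono_smul_of_mono {X Y : A} (i : X ⟶ Y) [Mono i] (m : ℤ) [Mono (m • 𝟙 Y)] :
    Mono (m • 𝟙 X) := by
  have : Mono ((m • 𝟙 X) ≫ i) := by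
    rw [show (m • 𝟙 X) ≫ i = i ≫ (m • 𝟙 Y) by simp]; infer_instance
  exact mono_of_mono _ i
end

lemma Cech.acy_tors {V U : C} {p : V ⟶ U} (N : Cech p) (I : Sh J) [Injective I] (m : ℤ)
    [NeZero m] : N.Acy (kernel (m • 𝟙 I)).obj := by
  refine (N.acy_iff _).2 fun n f => ?_
  let S := ShortComplex.mk (kernel.ι (N.d J n)) (Abelian.factorThruImage (N.d J n)) (by
    rw [← cancel_mono (Abelian.image.ι _)]; simp)
  have hS : S.ShortExact :=
    { exact := (ShortComplex.exact_iff_of_epi_of_isIso_of_mono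
        (S₂ := ShortComplex.mk _ _ (kernel.condition (N.d J n)))
        (S₁ := S) ⟨𝟙 _, 𝟙 _, Abelian.image.ι _, by simp [S], by simp [S]⟩).2
          (ShortComplex.exact_kernel _) }
  have : Mono (m • 𝟙 S.X₃) := mono_smul_of_mono (Abelian.image.ι (N.d J n)) m
  exact ext_tors hS m I f

/-- Data for Cartan's criterion: a class `B` of objects, and a class `c` of covering arrows with
fibre powers in `B`, such that sections lift through epimorphisms after a `c`-arrow. -/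
structure CartanData (J : GrothendieckTopology C) where
  B : C → Prop
  c : ∀ ⦃V U : C⦄, (V ⟶ U) → Prop
  cov : ∀ ⦃V U⦄ (p : V ⟶ U), c p → Cov J p
  N : ∀ ⦃V U⦄ (p : V ⟶ U), c p → Cech p
  mem : ∀ ⦃V U⦄ (p : V ⟶ U) (h : c p) (n), B ((N p h).X (n + 1))
  lifts : ∀ ⦃U⦄, B U → ∀ ⦃G G' : Sh J⦄ (φ : G ⟶ G') [Epi φ] (s : G'.obj.obj (op U)),
    ∃ (V : C) (p : V ⟶ U), c p ∧ ∃ t, φ.hom.app (op V) t = G'.obj.map p.op s

/-- Cohomology `H^q(T,F)`. -/
abbrev H (T : C) (F : Sh J) (q : ℕ) := Ext.{max u v} ((fr J).obj T) F q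

/-- Restriction in cohomology. -/
noncomputable abbrev res {T' T : C} (g : T' ⟶ T) (F : Sh J) (q : ℕ) : H T F q →+ H T' F q :=
  (Ext.mk₀ ((fr J).map g)).precomp F (zero_add q)

/-- Local vanishing, for any system of arrows after which sections lift. -/
lemma loc_van {U : C} {ι : Type*} {V : ι → C} (p : ∀ i, V i ⟶ U)
    (h : ∀ ⦃G G' : Sh J⦄ (φ : G ⟶ G') [Epi φ] (s : G'.obj.obj (op U)),
      ∃ i t, φ.hom.app (op (V i)) t = G'.obj.map (p i).op s) (q : ℕ) (F : Sh J)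
    (x : H U F (q + 1)) : ∃ i, res (p i) F _ x = 0 := by
  induction q generalizing F with
  | zero =>
    let P : InjectivePresentation F := Classical.arbitrary _
    let S := ShortComplex.mk _ _ (cokernel.condition P.f)
    have hS : S.ShortExact := { exact := ShortComplex.exact_cokernel P.f }
    have := P.injective
    obtain ⟨y, rfl⟩ := Ext.covariant_sequence_exact₁ _ hS x (Ext.eq_zero_of_injective _) rfl
    obtain ⟨y, rfl⟩ := (Ext.mk₀_bijective _ _).2 y
    obtain ⟨i, t, ht⟩ := h (cokernel.π P.f) (frEquiv _ _ y)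
    obtain ⟨t, rfl⟩ := (frEquiv _ _).surjective t
    rw [← frEquiv_post, ← frEquiv_pre, (frEquiv _ _).injective.eq_iff] at ht
    refine ⟨i, ?_⟩
    change (Ext.mk₀ _).comp _ (zero_add _) = 0
    rw [← Ext.comp_assoc _ _ _ (zero_add 0) (zero_add 1) (by omega), Ext.mk₀_comp_mk₀, ← ht,
      ← Ext.mk₀_comp_mk₀, Ext.comp_assoc _ _ _ (zero_add 0) (zero_add 1) (by omega)]
    erw [hS.comp_extClass]
    simp
  | succ q ih =>
    let P : InjectivePresentation F := Classical.arbitrary _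
    let S := ShortComplex.mk _ _ (cokernel.condition P.f)
    have hS : S.ShortExact := { exact := ShortComplex.exact_cokernel P.f }
    have := P.injective
    obtain ⟨y, rfl⟩ := Ext.covariant_sequence_exact₁ _ hS x (Ext.eq_zero_of_injective _) rfl
    obtain ⟨i, hi⟩ := ih _ y
    refine ⟨i, ?_⟩
    change (Ext.mk₀ _).comp _ (zero_add _) = 0 at hi ⊢
    rw [← Ext.comp_assoc _ _ _ (zero_add _) rfl (by omega), hi, Ext.zero_comp]

/-- **CARTAN**. -/
theorem CartanData.vanish (D : CartanData J) (F : Sh J)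
    (hF : ∀ ⦃V U⦄ (p : V ⟶ U) (h : D.c p), (D.N p h).Acy F.obj) {T : C} (hT : D.B T) (q : ℕ)
    (x : H T F (q + 1)) : x = 0 := by
  refine (cartan {S | ∃ (V U : C) (p : V ⟶ U) (h : D.c p),
      S = (D.N p h).S0 J ∨ ∃ n, S = (D.N p h).Sn J n} {G | ∃ T, D.B T ∧ G = (fr J).obj T} F
      ?_ ?_ ?_ ?_ ?_ q).1 _ ⟨T, hT, rfl⟩ x
  · rintro _ ⟨V, U, p, h, rfl | ⟨n, rfl⟩⟩
    exacts [Cech.S0_exact _ (D.cov p h), Cech.Sn_exact _ _ _]
  · rintro _ ⟨V, U, p, h, rfl | ⟨n, rfl⟩⟩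
    exacts [⟨_, ⟨V, U, p, h, .inr ⟨0, rfl⟩⟩, ⟨Iso.refl _⟩⟩,
      ⟨_, ⟨V, U, p, h, .inr ⟨n + 1, rfl⟩⟩, ⟨Iso.refl _⟩⟩]
  · rintro _ ⟨V, U, p, h, rfl | ⟨n, rfl⟩⟩
    exacts [⟨_, D.mem p h 0, rfl⟩, ⟨_, D.mem p h (n + 1), rfl⟩]
  · rintro _ ⟨U, hU, rfl⟩ q x
    obtain ⟨⟨V, p, h⟩, hx⟩ := loc_van (ι := Σ' (V : C) (p : V ⟶ U), D.c p) (fun i => i.2.1)
      (fun G G' φ _ s => by
        obtain ⟨V, p, h, t, ht⟩ := D.lifts hU φ s
        exact ⟨⟨V, p, h⟩, t, ht⟩) q F x
    refine ⟨_, ⟨V, U, p, h, .inl rfl⟩, (fr J).mapIso (asIso ((D.N p h).b 0)), ?_⟩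
    change (Ext.mk₀ ((D.N p h).d J 0 ≫ (fr J).map ((D.N p h).b 0))).comp x _ = 0
    rw [Cech.d0, ← Ext.mk₀_comp_mk₀_assoc]
    change (Ext.mk₀ _).comp (res p F _ x) _ = 0
    rw [hx, Ext.comp_zero]
  · rintro _ ⟨V, U, p, h, rfl | ⟨n, rfl⟩⟩
    exacts [(Cech.acy_iff _ F).1 (hF p h) 0, (Cech.acy_iff _ F).1 (hF p h) (n + 1)]

end Pool.Agent.MP_855f4c_ag.E

end

section

namespace Pool.Agent.MP_855f4c_ag.E

universe u

variable (l : ℕ) [Fact l.Prime]

/-- `l`-primary torsion with finite `l`-torsion. -/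
def Cof (l : ℕ) (M : Type u) [AddCommGroup M] : Prop :=
  (∀ m : M, ∃ n : ℕ, l ^ n • m = 0) ∧ {m : M | l • m = 0}.Finite

/-- Additive maps `ℚ_l → M`. -/
def VA (M : Type u) [AddCommGroup M] : Type u := ℚ_[l] →+ M

variable {M N : Type u} [AddCommGroup M] [AddCommGroup N]

noncomputable instance : AddCommGroup (VA l M) := inferInstanceAs (AddCommGroup (ℚ_[l] →+ M))

instance : FunLike (VA l M) ℚ_[l] M := inferInstanceAs (FunLike (ℚ_[l] →+ M) _ _)

instance : AddMonoidHomClass (VA l M) ℚ_[l] M :=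
  inferInstanceAs (AddMonoidHomClass (ℚ_[l] →+ M) _ _)

noncomputable instance : Module ℚ_[l] (VA l M) where
  smul c f := AddMonoidHom.comp (f : ℚ_[l] →+ M) (AddMonoidHom.mulRight c)
  one_smul f := AddMonoidHom.ext fun x => congrArg f (mul_one x)
  mul_smul a b f := AddMonoidHom.ext fun x => congrArg f (mul_assoc x a b).symm
  smul_zero _ := rfl
  smul_add _ _ _ := rfl
  add_smul a b f := AddMonoidHom.ext fun x => (congrArg f (mul_add x a b)).trans (map_add f _ _)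
  zero_smul f := AddMonoidHom.ext fun x => (congrArg f (mul_zero x)).trans (map_zero f)

lemma VA.smul_apply (c : ℚ_[l]) (f : VA l M) (x : ℚ_[l]) : (c • f) x = f (x * c) := rfl

/-- The rational Tate module: additive maps `ℚ_l → M` that vanish near `0`. -/
noncomputable def V (M : Type u) [AddCommGroup M] : Submodule ℚ_[l] (VA l M) where
  carrier := {f | ∃ r : ℝ, 0 < r ∧ ∀ x : ℚ_[l], ‖x‖ < r → f x = 0}
  zero_mem' := ⟨1, one_pos, fun _ _ => rfl⟩
  add_mem' := by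
    rintro f g ⟨r, hr, hf⟩ ⟨s, hs, hg⟩
    refine ⟨min r s, lt_min hr hs, fun x hx => ?_⟩
    change f x + g x = 0
    rw [hf x (hx.trans_le (min_le_left _ _)), hg x (hx.trans_le (min_le_right _ _)), add_zero]
  smul_mem' := by
    rintro c f ⟨r, hr, hf⟩
    refine ⟨r / (‖c‖ + 1), by positivity, fun x hx => hf _ ?_⟩
    rw [lt_div_iff₀ (by positivity)] at hx
    change ‖x * c‖ < r
    rw [norm_mul]
    nlinarith [norm_nonneg x]

/-- Functoriality of `V`. -/
noncomputable def Vm (φ : M →+ N) : V l M →ₗ[ℚ_[l]] V l N where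
  toFun f := ⟨φ.comp (f.1 : ℚ_[l] →+ M), by
    obtain ⟨r, hr, hf⟩ := f.2
    exact ⟨r, hr, fun x hx => (congrArg φ (hf x hx)).trans (map_zero φ)⟩⟩
  map_add' f g := Subtype.ext (AddMonoidHom.ext fun x => map_add φ _ _)
  map_smul' _ _ := rfl

/-- The trace on `V M`. -/
noncomputable def tr (φ : M →+ M) : ℚ_[l] := LinearMap.trace ℚ_[l] (V l M) (Vm l φ)

variable {l} in
/-- All eigenvalues `z` of `φ` on `V M`, seen through `j`, have `‖z‖ ^ 2` in `S`. -/
def Ev (j : ℚ_[l] →+* ℂ) (S : Set ℝ) (φ : M →+ M) : Prop :=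
  ∃ P : Polynomial ℚ_[l], P ≠ 0 ∧ Polynomial.aeval (Vm l φ) P = 0 ∧
    ∀ z : ℂ, P.eval₂ j z = 0 → ‖z‖ ^ 2 ∈ S

/-- `ℚ_l / ℤ_l`. -/
abbrev QZ : Type := ℚ_[l] ⧸ (PadicInt.subring l).toAddSubgroup

end Pool.Agent.MP_855f4c_ag.E

end

section

namespace Pool.Agent.MP_855f4c_ag.E.NoCancel

open Finset Filter

/-- A finite exponential sum bounded by `K r^n` has no term of modulus `> r`. -/
theorem coeff_zero (r : ℝ) (hr : 0 ≤ r) (z0 : ℂ) (hz0 : r < ‖z0‖) (Z : Finset ℂ) :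
    ∀ (m : ℂ → ℂ) (K : ℝ), z0 ∉ Z →
      (∀ n, 1 ≤ n → ‖m z0 * z0 ^ n + ∑ z ∈ Z, m z * z ^ n‖ ≤ K * r ^ n) → m z0 = 0 := by
  induction Z using Finset.induction_on with
  | empty =>
    intro m K _ h
    have hpos : 0 < ‖z0‖ := lt_of_le_of_lt hr hz0
    have h1 : Tendsto (fun n : ℕ => K * (r / ‖z0‖) ^ n) atTop (nhds (K * 0)) :=
      (tendsto_pow_atTop_nhds_zero_of_lt_one (div_nonneg hr hpos.le)
        ((div_lt_one hpos).2 hz0)).const_mul K
    rw [mul_zero] at h1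
    have h2 : ‖m z0‖ ≤ 0 := by
      refine ge_of_tendsto h1 ?_
      filter_upwards [eventually_ge_atTop 1] with n hn
      have h3 := h n hn
      rw [Finset.sum_empty, add_zero, norm_mul, norm_pow] at h3
      rw [div_pow, ← mul_div_assoc, le_div_iff₀ (pow_pos hpos n)]
      exact h3
    exact norm_le_zero_iff.1 h2
  | insert z1 Z hz1 ih =>
    intro m K hnot h
    rw [Finset.mem_insert, not_or] at hnot
    have key := ih (fun z => m z * (z - z1)) (K * r + ‖z1‖ * K) hnot.2 (by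
      intro n hn
      have e : m z0 * (z0 - z1) * z0 ^ n + ∑ z ∈ Z, m z * (z - z1) * z ^ n
          = (m z0 * z0 ^ (n + 1) + ∑ z ∈ insert z1 Z, m z * z ^ (n + 1))
            - z1 * (m z0 * z0 ^ n + ∑ z ∈ insert z1 Z, m z * z ^ n) := by
        rw [Finset.sum_insert hz1, Finset.sum_insert hz1]
        have : ∑ z ∈ Z, m z * (z - z1) * z ^ n
            = ∑ z ∈ Z, m z * z ^ (n + 1) - z1 * ∑ z ∈ Z, m z * z ^ n := by
          rw [Finset.mul_sum, ← Finset.sum_sub_distrib]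
          exact Finset.sum_congr rfl fun z _ => by ring
        rw [this]; ring
      rw [e]
      refine (norm_sub_le _ _).trans ?_
      rw [norm_mul]
      have a1 := h (n + 1) (by omega)
      have a2 := mul_le_mul_of_nonneg_left (h n hn) (norm_nonneg z1)
      calc _ ≤ K * r ^ (n + 1) + ‖z1‖ * (K * r ^ n) := add_le_add a1 a2
        _ = (K * r + ‖z1‖ * K) * r ^ n := by ring)
    exact (mul_eq_zero.1 key).resolve_right (sub_ne_zero.2 hnot.1)

/-- Simultaneous recurrence: some positive power of all nonzero members has positive real part. -/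
theorem exists_pow_re_pos (Z : Finset ℂ) :
    ∃ n, 1 ≤ n ∧ ∀ z ∈ Z, z ≠ 0 → 0 < (z ^ n).re := by
  let x : Z → Circle := fun z => Circle.exp (Complex.arg z)
  have hU : {g : Z → Circle | ∀ z, 0 < ((g z : Circle) : ℂ).re} ∈ nhds (1 : Z → Circle) := by
    have : {g : Z → Circle | ∀ z, 0 < ((g z : Circle) : ℂ).re}
        = ⋂ z, {g : Z → Circle | 0 < ((g z : Circle) : ℂ).re} := by
      ext g; simp
    rw [this]
    refine (isOpen_iInter_of_finite fun z => ?_).mem_nhds (by simp)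
    exact isOpen_lt continuous_const (by fun_prop)
  have h := (mapClusterPt_one_atTop_pow x).frequently hU
  obtain ⟨n, hn, hn1⟩ := (h.and_eventually (eventually_ge_atTop 1)).exists
  refine ⟨n, hn1, fun z hz h0 => ?_⟩
  have h1 := hn ⟨z, hz⟩
  have e : z ^ n = ((‖z‖ ^ n : ℝ) : ℂ) * (((x ^ n) ⟨z, hz⟩ : Circle) : ℂ) := by
    have e1 : (((x ^ n) ⟨z, hz⟩ : Circle) : ℂ) = Complex.exp (Complex.arg z * Complex.I) ^ n := by
      simp [x, Circle.coe_exp]
    rw [e1, Complex.ofReal_pow, ← mul_pow, Complex.norm_mul_exp_arg_mul_I]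
  rw [e, Complex.re_ofReal_mul]
  exact mul_pos (pow_pos (norm_pos_iff.2 h0) n) h1

/-- No cancellation.  If `s n = sum c^n - sum a^n` is real, nonnegative and `O(r^n)` while all
`c` have modulus `> r`, then `s` vanishes. -/
theorem nocancel (C A : Multiset ℂ) (r K : ℝ) (hr : 0 ≤ r) (hC : ∀ c ∈ C, r < ‖c‖)
    (s : ℕ → ℝ)
    (hs : ∀ n, 1 ≤ n → (s n : ℂ) = (C.map (· ^ n)).sum - (A.map (· ^ n)).sum)
    (h0 : ∀ n, 1 ≤ n → 0 ≤ s n) (hK : ∀ n, 1 ≤ n → s n ≤ K * r ^ n) :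
    ∀ n, 1 ≤ n → s n = 0 := by
  classical
  set Z : Finset ℂ := C.toFinset ∪ A.toFinset with hZ
  let m : ℂ → ℝ := fun z => (C.count z : ℝ) - (A.count z : ℝ)
  have hsum : ∀ (B : Multiset ℂ), B.toFinset ⊆ Z → ∀ n : ℕ,
      (B.map (· ^ n)).sum = ∑ z ∈ Z, (B.count z : ℂ) * z ^ n := by
    intro B hB n
    rw [Finset.sum_multiset_map_count]
    simp only [nsmul_eq_mul]
    refine Finset.sum_subset hB fun z _ hz => ?_
    rw [Multiset.count_eq_zero_of_notMem (by simpa using hz)]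
    simp
  have hs' : ∀ n, 1 ≤ n → (s n : ℂ) = ∑ z ∈ Z, (m z : ℂ) * z ^ n := by
    intro n hn
    rw [hs n hn, hsum C Finset.subset_union_left, hsum A Finset.subset_union_right,
      ← Finset.sum_sub_distrib]
    refine Finset.sum_congr rfl fun z _ => ?_
    simp only [m]; push_cast; ring
  have hle : ∀ z ∈ Z, m z ≤ 0 := by
    intro z hz
    by_cases hc : z ∈ C
    · have := coeff_zero r hr z (hC z hc) (Z.erase z) (fun z => (m z : ℂ)) K
        (Finset.notMem_erase z Z) (by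
          intro n hn
          rw [Finset.add_sum_erase Z (fun z => (m z : ℂ) * z ^ n) hz, ← hs' n hn,
            Complex.norm_real, Real.norm_of_nonneg (h0 n hn)]
          exact hK n hn)
      exact (Complex.ofReal_eq_zero.1 this).le
    · simp only [m, Multiset.count_eq_zero_of_notMem hc]
      simp
  obtain ⟨N, hN, hpos⟩ := exists_pow_re_pos Z
  have hre : s N = ∑ z ∈ Z, m z * (z ^ N).re := by
    have := congrArg Complex.re (hs' N hN)
    rw [Complex.ofReal_re, Complex.re_sum] at this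
    rw [this]
    exact Finset.sum_congr rfl fun z _ => Complex.re_ofReal_mul _ _
  have hterm : ∀ z ∈ Z, m z * (z ^ N).re ≤ 0 := by
    intro z hz
    by_cases h : z = 0
    · rw [h, zero_pow (by omega)]; simp
    · exact mul_nonpos_of_nonpos_of_nonneg (hle z hz) (hpos z hz h).le
  have hz0 : ∑ z ∈ Z, m z * (z ^ N).re = 0 :=
    le_antisymm (Finset.sum_nonpos hterm) (hre ▸ h0 N hN)
  have hall := (Finset.sum_eq_zero_iff_of_nonpos hterm).1 hz0
  intro n hn
  have : (s n : ℂ) = 0 := by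
    rw [hs' n hn]
    refine Finset.sum_eq_zero fun z hz => ?_
    by_cases h : z = 0
    · rw [h, zero_pow (by omega)]; simp
    · rcases mul_eq_zero.1 (hall z hz) with h1 | h1
      · rw [h1]; simp
      · exact absurd h1 (hpos z hz h).ne'
  exact Complex.ofReal_eq_zero.1 this

/-- Cesaro means of the powers of `w`, `‖w‖ ≤ 1`. -/
theorem cesaro (w : ℂ) (hw : ‖w‖ ≤ 1) :
    Tendsto (fun N : ℕ => ((N : ℂ))⁻¹ * ∑ n ∈ range N, w ^ (n + 1)) atTop
      (nhds (if w = 1 then 1 else 0)) := by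
  split_ifs with h
  · refine tendsto_const_nhds.congr' ?_
    filter_upwards [eventually_ge_atTop 1] with N hN
    have : (N : ℂ) ≠ 0 := Nat.cast_ne_zero.2 (by omega)
    simp [h, this]
  · rw [tendsto_zero_iff_norm_tendsto_zero]
    have hb : ∀ N : ℕ, ‖∑ n ∈ range N, w ^ (n + 1)‖ ≤ 2 / ‖w - 1‖ := by
      intro N
      have e : ∑ n ∈ range N, w ^ (n + 1) = w * ((w ^ N - 1) / (w - 1)) := by
        rw [← geom_sum_eq h, Finset.mul_sum]
        exact Finset.sum_congr rfl fun n _ => by ring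
      rw [e, norm_mul, norm_div]
      have h1 : ‖w ^ N - 1‖ ≤ 2 := by
        refine (norm_sub_le _ _).trans ?_
        rw [norm_pow, norm_one]
        linarith [pow_le_one₀ (n := N) (norm_nonneg w) hw]
      calc _ ≤ 1 * (2 / ‖w - 1‖) := by gcongr
        _ = _ := one_mul _
    have h2 : Tendsto (fun N : ℕ => (N : ℝ)⁻¹ * (2 / ‖w - 1‖)) atTop (nhds (0 * (2 / ‖w - 1‖))) :=
      tendsto_inv_atTop_nhds_zero_nat.mul_const _
    rw [zero_mul] at h2
    refine squeeze_zero (fun _ => norm_nonneg _) (fun N => ?_) h2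
    rw [norm_mul, norm_inv, Complex.norm_natCast]
    exact mul_le_mul_of_nonneg_left (hb N) (by positivity)

/-- Cesaro extraction of the coefficient of a term of top modulus. -/
theorem cesaro_coeff (Z : Finset ℂ) (m : ℂ → ℂ) (hm : ∀ z, z ∉ Z → m z = 0) (z0 : ℂ)
    (hz0 : z0 ≠ 0) (hZ : ∀ z ∈ Z, m z ≠ 0 → ‖z‖ ≤ ‖z0‖) :
    Tendsto (fun N : ℕ => ((N : ℂ))⁻¹ *
      ∑ n ∈ range N, (∑ z ∈ Z, m z * z ^ (n + 1)) / z0 ^ (n + 1)) atTop (nhds (m z0)) := by
  classical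
  have hpos : 0 < ‖z0‖ := norm_pos_iff.2 hz0
  have e : ∀ N : ℕ, ((N : ℂ))⁻¹ * ∑ n ∈ range N, (∑ z ∈ Z, m z * z ^ (n + 1)) / z0 ^ (n + 1)
      = ∑ z ∈ Z, m z * (((N : ℂ))⁻¹ * ∑ n ∈ range N, (z / z0) ^ (n + 1)) := by
    intro N
    simp only [Finset.sum_div, Finset.mul_sum]
    rw [Finset.sum_comm]
    refine Finset.sum_congr rfl fun z _ => Finset.sum_congr rfl fun n _ => ?_
    rw [div_pow]; ring
  have e2 : m z0 = ∑ z ∈ Z, m z * (if z / z0 = 1 then 1 else 0) := by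
    simp only [div_eq_one_iff_eq hz0, mul_ite, mul_one, mul_zero, Finset.sum_ite_eq']
    split_ifs with h
    · rfl
    · exact hm z0 h
  rw [e2]
  simp only [e]
  refine tendsto_finsetSum _ fun z hz => ?_
  by_cases h : m z = 0
  · simp [h]
  · refine (cesaro _ ?_).const_mul _
    rw [norm_div, div_le_one hpos]
    exact hZ z hz h

/-- Pringsheim for finite exponential sums, strong form: if `s n = sum m z * z^n` is real and
nonnegative, the coefficient of the positive real number `‖z0‖` dominates the coefficient of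
every term `z0` of top modulus. -/
theorem pring_le (Z : Finset ℂ) (m : ℂ → ℂ) (hm : ∀ z, z ∉ Z → m z = 0) (s : ℕ → ℝ)
    (hs : ∀ n, 1 ≤ n → (s n : ℂ) = ∑ z ∈ Z, m z * z ^ n) (h0 : ∀ n, 1 ≤ n → 0 ≤ s n)
    (z0 : ℂ) (hz0 : z0 ≠ 0) (hZ : ∀ z ∈ Z, m z ≠ 0 → ‖z‖ ≤ ‖z0‖) :
    ‖m z0‖ ≤ (m (‖z0‖ : ℝ)).re := by
  have hpos : 0 < ‖z0‖ := norm_pos_iff.2 hz0
  have hR : ‖((‖z0‖ : ℝ) : ℂ)‖ = ‖z0‖ := by simp
  have t1 := (cesaro_coeff Z m hm z0 hz0 hZ).norm
  have t2 := (Complex.continuous_re.tendsto _).comp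
    (cesaro_coeff Z m hm ((‖z0‖ : ℝ) : ℂ) (Complex.ofReal_ne_zero.2 hpos.ne')
      (by rw [hR]; exact hZ))
  refine le_of_tendsto_of_tendsto' t1 t2 fun N => ?_
  have e : ∀ n, ∑ z ∈ Z, m z * z ^ (n + 1) = (s (n + 1) : ℂ) := fun n => (hs _ (by omega)).symm
  simp only [Function.comp, e]
  have e3 : ((N : ℂ))⁻¹ * ∑ n ∈ range N, (s (n + 1) : ℂ) / ((‖z0‖ : ℝ) : ℂ) ^ (n + 1)
      = (((N : ℝ)⁻¹ * ∑ n ∈ range N, s (n + 1) / ‖z0‖ ^ (n + 1) : ℝ) : ℂ) := by
    push_cast; rfl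
  rw [e3, Complex.ofReal_re, norm_mul, norm_inv, Complex.norm_natCast]
  refine mul_le_mul_of_nonneg_left ((norm_sum_le _ _).trans (le_of_eq ?_)) (by positivity)
  refine Finset.sum_congr rfl fun n _ => ?_
  rw [norm_div, norm_pow, Complex.norm_real, Real.norm_of_nonneg (h0 _ (by omega))]

/-- PRING, finitely supported integer multiplicities. -/
theorem pring (m : ℂ →₀ ℤ) (s : ℕ → ℝ)
    (hs : ∀ n, 1 ≤ n → (s n : ℂ) = m.sum fun z k => (k : ℂ) * z ^ n)
    (h0 : ∀ n, 1 ≤ n → 0 ≤ s n) (z0 : ℂ) (hz0 : z0 ≠ 0) (hm0 : m z0 ≠ 0)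
    (hZ : ∀ z, m z ≠ 0 → ‖z‖ ≤ ‖z0‖) : 0 < m ((‖z0‖ : ℝ) : ℂ) := by
  have h := pring_le m.support (fun z => (m z : ℂ))
    (fun z hz => by simp [Finsupp.notMem_support_iff.1 hz]) s hs h0 z0 hz0
    (fun z hz _ => hZ z (Finsupp.mem_support_iff.1 hz))
  have h1 : 0 < ‖((m z0 : ℤ) : ℂ)‖ := norm_pos_iff.2 (Int.cast_ne_zero.2 hm0)
  have h2 := h1.trans_le h
  simpa using h2

/-- PRING, two multisets: the real number `‖z0‖` occurs more often in `C` than in `A`. -/
theorem pring_multiset (C A : Multiset ℂ) (s : ℕ → ℝ)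
    (hs : ∀ n, 1 ≤ n → (s n : ℂ) = (C.map (· ^ n)).sum - (A.map (· ^ n)).sum)
    (h0 : ∀ n, 1 ≤ n → 0 ≤ s n) (z0 : ℂ) (hz0 : z0 ≠ 0) (hm0 : C.count z0 ≠ A.count z0)
    (hZ : ∀ z, C.count z ≠ A.count z → ‖z‖ ≤ ‖z0‖) :
    A.count ((‖z0‖ : ℝ) : ℂ) < C.count ((‖z0‖ : ℝ) : ℂ) := by
  classical
  set Z : Finset ℂ := C.toFinset ∪ A.toFinset with hZdef
  have hsum : ∀ (B : Multiset ℂ), B.toFinset ⊆ Z → ∀ n : ℕ,
      (B.map (· ^ n)).sum = ∑ z ∈ Z, (B.count z : ℂ) * z ^ n := by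
    intro B hB n
    rw [Finset.sum_multiset_map_count]
    simp only [nsmul_eq_mul]
    refine Finset.sum_subset hB fun z _ hz => ?_
    rw [Multiset.count_eq_zero_of_notMem (by simpa using hz)]
    simp
  have hne : ∀ z, (C.count z : ℂ) - (A.count z : ℂ) ≠ 0 ↔ C.count z ≠ A.count z := by
    intro z; rw [sub_ne_zero]; exact Nat.cast_injective.ne_iff
  have h := pring_le Z (fun z => (C.count z : ℂ) - (A.count z : ℂ))
    (fun z hz => by
      rw [hZdef, Finset.mem_union, not_or, Multiset.mem_toFinset, Multiset.mem_toFinset] at hz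
      simp [Multiset.count_eq_zero_of_notMem hz.1, Multiset.count_eq_zero_of_notMem hz.2])
    s (fun n hn => by
      rw [hs n hn, hsum C Finset.subset_union_left, hsum A Finset.subset_union_right,
        ← Finset.sum_sub_distrib]
      exact Finset.sum_congr rfl fun z _ => by ring)
    h0 z0 hz0 (fun z _ hz => hZ z ((hne z).1 hz))
  have h2 := (norm_pos_iff.2 ((hne z0).2 hm0)).trans_le h
  simp only [Complex.sub_re, Complex.natCast_re, sub_pos] at h2
  exact_mod_cast h2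

end Pool.Agent.MP_855f4c_ag.E.NoCancel

end
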