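import Pool.Agent.MP_855f4c_ag.EC.F2a
import Pool.Agent.MP_855f4c_ag.WD.A
import Pool.Agent.MP_855f4c_ag.EC.F1a

section

set_option backward.isDefEq.respectTransparency false

open CategoryTheory Limits Opposite AlgebraicGeometry Abelian

namespace Pool.Agent.MP_855f4c_ag.E

namespace F2Hom

universe u v

variable {K : Type u} {R : K → K → Type v}

/-- A directed system of abelian groups with a target. -/
structure Sys (cp : ∀ {a b c}, R a b → R b c → R a c) where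
  M : K → Ab.{1}
  N : Ab.{1}
  t : ∀ {a b}, R a b → M a →+ M b
  ι : ∀ a, M a →+ N
  tt : ∀ {a b c} (f : R a b) (g : R b c) (x), t (cp f g) x = t g (t f x)
  ιt : ∀ {a b} (f : R a b) (x), ι b (t f x) = ι a x

variable {cp : ∀ {a b c}, R a b → R b c → R a c}

/-- Every element of the target comes from a stage. -/
def Sys.Sur (S : Sys (R := R) cp) : Prop := ∀ y, ∃ a x, S.ι a x = y

/-- An element that dies in the target dies at a stage. -/
def Sys.Inj (S : Sys (R := R) cp) : Prop :=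
  ∀ a x, S.ι a x = 0 → ∃ (b : K) (f : R a b), S.t f x = 0

/-- Morphisms of systems. -/
structure Mor (S T : Sys (R := R) cp) where
  m : ∀ a, S.M a →+ T.M a
  n : S.N →+ T.N
  mt : ∀ {a b} (f : R a b) (x), m b (S.t f x) = T.t f (m a x)
  mι : ∀ a x, n (S.ι a x) = T.ι a (m a x)

variable {S₁ S₂ S₃ S₄ S₅ : Sys (R := R) cp}

lemma sur3 (dir : ∀ a b, ∃ c, Nonempty (R a c) ∧ Nonempty (R b c)) (u : Mor S₃ S₄) (w : Mor S₄ S₅)
    (hk : ∀ y, u.n y = 0 → ∃ a x, S₃.ι a x = y) (h0 : ∀ y, w.n (u.n y) = 0)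
    (he : ∀ a x, w.m a x = 0 → ∃ y, u.m a y = x) (h4 : S₄.Sur) (h5 : S₅.Inj) : S₃.Sur := by
  intro y
  obtain ⟨a, x, hx⟩ := h4 (u.n y)
  obtain ⟨b, f, hf⟩ := h5 a (w.m a x) (by rw [← w.mι, hx, h0])
  obtain ⟨z, hz⟩ := he b (S₄.t f x) (by rw [w.mt, hf])
  obtain ⟨c, z', hz'⟩ := hk (y - S₃.ι b z) (by rw [map_sub, u.mι, hz, S₄.ιt, hx, sub_self])
  obtain ⟨d, ⟨g⟩, ⟨g'⟩⟩ := dir b c
  exact ⟨d, S₃.t g z + S₃.t g' z', by rw [map_add, S₃.ιt, S₃.ιt, hz', add_sub_cancel]⟩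

lemma inj3 (u : Mor S₃ S₄)
    (hk : ∀ a x, u.m a x = 0 → S₃.ι a x = 0 → ∃ (b : K) (f : R a b), S₃.t f x = 0)
    (h4 : S₄.Inj) : S₃.Inj := by
  intro a x hx
  obtain ⟨b, f, hf⟩ := h4 a (u.m a x) (by rw [← u.mι, hx, map_zero])
  obtain ⟨c, g, hg⟩ := hk b (S₃.t f x) (by rw [u.mt, hf]) (by rw [S₃.ιt, hx])
  exact ⟨c, cp f g, by rw [S₃.tt, hg]⟩

lemma inj_im (dir : ∀ a b, ∃ c, Nonempty (R a c) ∧ Nonempty (R b c)) (u : Mor S₁ S₂)
    (w : Mor S₂ S₃) (h0 : ∀ a y, w.m a (u.m a y) = 0) (he : ∀ x, w.n x = 0 → ∃ y, u.n y = x)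
    (h1 : S₁.Sur) (h2 : S₂.Inj) (a : K) (x : S₂.M a) (hx : S₃.ι a (w.m a x) = 0) :
    ∃ (b : K) (f : R a b), S₃.t f (w.m a x) = 0 := by
  obtain ⟨y, hy⟩ := he (S₂.ι a x) (by rw [w.mι, hx])
  obtain ⟨c, z, rfl⟩ := h1 y
  obtain ⟨d, ⟨g⟩, ⟨g'⟩⟩ := dir a c
  obtain ⟨e, k, hk⟩ := h2 d (S₂.t g x - u.m d (S₁.t g' z))
    (by rw [map_sub, S₂.ιt, ← u.mι, S₁.ιt, hy, sub_self])
  refine ⟨e, cp g k, ?_⟩
  rw [map_sub, sub_eq_zero, ← u.mt] at hk
  rw [← w.mt, S₂.tt, hk, h0]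

lemma sur_im (w : Mor S₂ S₃) (h2 : S₂.Sur) (y : S₂.N) : ∃ a x, S₃.ι a x = w.n y := by
  obtain ⟨a, x, rfl⟩ := h2 y
  exact ⟨a, w.m a x, (w.mι a x).symm⟩

variable {𝒜 : Type 2} [Category.{1} 𝒜] [Abelian 𝒜] [HasExt.{1} 𝒜]

lemma pre_pre {X Y Z F : 𝒜} (f : X ⟶ Y) (g : Y ⟶ Z) {q : ℕ} (x : Ext Z F q) :
    (Ext.mk₀ f).comp ((Ext.mk₀ g).comp x (zero_add q)) (zero_add q) =
      (Ext.mk₀ (f ≫ g)).comp x (zero_add q) := Ext.mk₀_comp_mk₀_assoc _ _ _

lemma post_post {X Y Z F : 𝒜} (f : X ⟶ Y) (g : Y ⟶ Z) {q : ℕ} (x : Ext F X q) :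
    (x.comp (Ext.mk₀ f) (add_zero q)).comp (Ext.mk₀ g) (add_zero q) =
      x.comp (Ext.mk₀ (f ≫ g)) (add_zero q) := by
  rw [Ext.comp_assoc_of_second_deg_zero, Ext.mk₀_comp_mk₀]

section lim
variable {I : Type} [SmallCategory I] {A B : I ⥤ 𝒜}

/-- `Ext^q(-,F)` on a cone. -/
noncomputable def sL (a : Cone A) (F : 𝒜) (q : ℕ) :
    Sys (R := fun i j : I => j ⟶ i) fun f g => g ≫ f where
  M i := .of (Ext (A.obj i) F q)
  N := .of (Ext a.pt F q)
  t f := (Ext.mk₀ (A.map f)).precomp F (zero_add q)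
  ι i := (Ext.mk₀ (pr a i)).precomp F (zero_add q)
  tt f g x := by rw [A.map_comp]; exact (pre_pre _ _ _).symm
  ιt f x := (pre_pre _ _ _).trans (by rw [pr_w]; rfl)

/-- Composition with a class in the second variable. -/
noncomputable def mR (a : Cone A) {F G : 𝒜} {n q r : ℕ} (e : Ext F G n) (h : q + n = r) :
    Mor (sL a F q) (sL a G r) where
  m i := e.postcomp (A.obj i) h
  n := e.postcomp a.pt h
  mt f x := Ext.comp_assoc _ _ _ (zero_add q) h (by omega)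
  mι i x := Ext.comp_assoc _ _ _ (zero_add q) h (by omega)

/-- Composition with a compatible family of classes in the first variable. -/
noncomputable def mL (a : Cone A) (b : Cone B) (F : 𝒜) {n q r : ℕ}
    (e : ∀ i, Ext (B.obj i) (A.obj i) n) (e' : Ext b.pt a.pt n) (h : n + q = r)
    (h1 : ∀ {i j} (f : j ⟶ i), (e j).comp (Ext.mk₀ (A.map f)) (add_zero n) =
      (Ext.mk₀ (B.map f)).comp (e i) (zero_add n))
    (h2 : ∀ i, e'.comp (Ext.mk₀ (pr a i)) (add_zero n) =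
      (Ext.mk₀ (pr b i)).comp (e i) (zero_add n)) : Mor (sL a F q) (sL b F r) where
  m i := (e i).precomp F h
  n := e'.precomp F h
  mt f x := (Ext.comp_assoc _ _ _ (add_zero n) (zero_add q) (by omega)).symm.trans
    (by rw [h1]; exact Ext.comp_assoc _ _ _ (zero_add n) h (by omega))
  mι i x := (Ext.comp_assoc _ _ _ (add_zero n) (zero_add q) (by omega)).symm.trans
    (by rw [h2]; exact Ext.comp_assoc _ _ _ (zero_add n) h (by omega))

lemma dirL [IsCofiltered I] (i j : I) : ∃ k : I, Nonempty (k ⟶ i) ∧ Nonempty (k ⟶ j) :=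
  ⟨_, ⟨IsCofiltered.minToLeft i j⟩, ⟨IsCofiltered.minToRight i j⟩⟩

end lim

section colim
variable {D : Type 1} [SmallCategory D] {G : D ⥤ 𝒜}

/-- `Ext^q(X,-)` on a cocone. -/
noncomputable def sC (c : Cocone G) (X : 𝒜) (q : ℕ) :
    Sys (R := fun i j : D => i ⟶ j) fun f g => f ≫ g where
  M i := .of (Ext X (G.obj i) q)
  N := .of (Ext X c.pt q)
  t f := (Ext.mk₀ (G.map f)).postcomp X (add_zero q)
  ι i := (Ext.mk₀ (c.ι.app i)).postcomp X (add_zero q)
  tt f g x := by rw [G.map_comp]; exact (post_post _ _ _).symm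
  ιt f x := (post_post _ _ _).trans (by rw [c.w f]; rfl)

/-- Composition with a class in the first variable. -/
noncomputable def mC (c : Cocone G) {X Y : 𝒜} {n q r : ℕ} (e : Ext Y X n) (h : n + q = r) :
    Mor (sC c X q) (sC c Y r) where
  m i := e.precomp (G.obj i) h
  n := e.precomp c.pt h
  mt f x := (Ext.comp_assoc _ _ _ h (add_zero q) (by omega)).symm
  mι i x := (Ext.comp_assoc _ _ _ h (add_zero q) (by omega)).symm

lemma dirC [IsFiltered D] (i j : D) : ∃ k : D, Nonempty (i ⟶ k) ∧ Nonempty (j ⟶ k) :=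
  ⟨_, ⟨IsFiltered.leftToMax i j⟩, ⟨IsFiltered.rightToMax i j⟩⟩

end colim

lemma gf {S : ShortComplex 𝒜} {F : 𝒜} {q : ℕ} (y : Ext S.X₃ F q) :
    (Ext.mk₀ S.f).comp ((Ext.mk₀ S.g).comp y (zero_add q)) (zero_add q) = 0 := by
  rw [pre_pre, S.zero, Ext.mk₀_zero, Ext.zero_comp]

lemma inj0 {S : ShortComplex 𝒜} (hS : S.ShortExact) {F : 𝒜} (y : Ext S.X₃ F 0)
    (h : (Ext.mk₀ S.g).comp y (zero_add 0) = 0) : y = 0 :=
  have := hS.epi_g
  (injective_iff_map_eq_zero _).1 (Ext.precomp_mk₀_injective_of_epi F S.g) y h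

end F2Hom

open F2Hom

variable {𝒜 : Type 2} [Category.{1} 𝒜] [Abelian 𝒜] [HasExt.{1} 𝒜]
  {I : Type} [SmallCategory I] [IsCofiltered I]

/-- `Ext^q(-, F)` -/
noncomputable abbrev EP (F : 𝒜) (q : ℕ) : 𝒜ᵒᵖ ⥤ Ab.{1} := (extFunctor q).flip.obj F

omit [IsCofiltered I] in
lemma F2Hom.colimAt_iff {A : I ⥤ 𝒜} (a : Cone A) (F : 𝒜) (q : ℕ) :
    ColimAt (EP F q) a ↔ (sL a F q).Sur ∧ (sL a F q).Inj := Iff.rfl

theorem lim_class (K : 𝒜 → Prop) {A : I ⥤ 𝒜} (a : Cone A)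
    (h0 : ∀ F, K F → ColimAt (EP F 0) a)
    (h1 : ∀ F, K F → ∃ S : ShortComplex 𝒜, S.ShortExact ∧ Nonempty (S.X₁ ≅ F) ∧ K S.X₃ ∧ K S.X₂ ∧
      (∀ q (x : Ext a.pt S.X₂ (q + 1)), x = 0) ∧ ∀ i q (x : Ext (A.obj i) S.X₂ (q + 1)), x = 0)
    (q : ℕ) (F : 𝒜) (hF : K F) : ColimAt (EP F q) a := by
  induction q generalizing F with
  | zero => exact h0 F hF
  | succ q ih =>
    obtain ⟨S, hS, ⟨e⟩, h3, h2, hp, hi⟩ := h1 F hF
    have H3 := (colimAt_iff a _ q).1 (ih _ h3)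
    have H2 := (colimAt_iff a _ q).1 (ih _ h2)
    have hb : ∀ (X : 𝒜) (x : Ext X F (q + 1)), (x.comp (Ext.mk₀ e.inv) (add_zero _)).comp
        (Ext.mk₀ e.hom) (add_zero _) = x := fun X x => by rw [post_post]; simp
    rw [colimAt_iff]
    constructor
    · intro y
      obtain ⟨y', hy⟩ := Ext.covariant_sequence_exact₁ a.pt hS
        (Ext.comp y (Ext.mk₀ e.inv) (add_zero _)) (hp q _) rfl
      obtain ⟨i, x, hx⟩ := sur_im (mR a hS.extClass (rfl : q + 1 = _)) H3.1 y'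
      refine ⟨i, (mR a (Ext.mk₀ e.hom) (add_zero _)).m i x, ?_⟩
      rw [← Mor.mι, hx]
      exact (congrArg (fun z => Ext.comp z (Ext.mk₀ e.hom) (add_zero _)) hy).trans (hb _ y)
    · refine inj3 (mR a (Ext.mk₀ e.inv) (add_zero _)) (fun i x hx _ => ⟨i, 𝟙 i, ?_⟩) ?_
      · have hx0 : x = 0 := (hb _ x).symm.trans
          ((congrArg (fun z => Ext.comp z (Ext.mk₀ e.hom) (add_zero _)) hx).trans
            (Ext.zero_comp _ _ _ _ _))
        rw [hx0, map_zero]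
      · intro i x hx
        obtain ⟨x', rfl⟩ := Ext.covariant_sequence_exact₁ (A.obj i) hS x (hi i q _) rfl
        refine inj_im dirL (mR a (Ext.mk₀ S.g) (add_zero q)) (mR a hS.extClass rfl)
          (fun j y => ?_) (fun z hz => Ext.covariant_sequence_exact₃ a.pt hS z rfl hz)
          H2.1 H3.2 i x' hx
        exact (Ext.comp_assoc _ _ _ (add_zero q) (zero_add 1) (by omega)).trans
          (by rw [hS.comp_extClass, Ext.comp_zero])

/-- two out of three for a system of short exact sequences -/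
theorem lim_23 {A₁ A₂ A₃ : I ⥤ 𝒜} (f : A₁ ⟶ A₂) (g : A₂ ⟶ A₃) (w : ∀ i, f.app i ≫ g.app i = 0)
    (hS : ∀ i, (ShortComplex.mk _ _ (w i)).ShortExact)
    (a₁ : Cone A₁) (a₂ : Cone A₂) (a₃ : Cone A₃) (f' : a₁.pt ⟶ a₂.pt) (g' : a₂.pt ⟶ a₃.pt)
    (w' : f' ≫ g' = 0) (hS' : (ShortComplex.mk _ _ w').ShortExact)
    (hf : ∀ i, f' ≫ pr a₂ i = pr a₁ i ≫ f.app i) (hg : ∀ i, g' ≫ pr a₃ i = pr a₂ i ≫ g.app i)
    (F : 𝒜) (h₁ : ∀ q, ColimAt (EP F q) a₁) (h₂ : ∀ q, ColimAt (EP F q) a₂) (q : ℕ) :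
    ColimAt (EP F q) a₃ := by
  let mf (q : ℕ) : Mor (sL a₂ F q) (sL a₁ F q) :=
    mL a₂ a₁ F (fun i => Ext.mk₀ (f.app i)) (Ext.mk₀ f') (zero_add q)
      (fun k => by rw [Ext.mk₀_comp_mk₀, Ext.mk₀_comp_mk₀, f.naturality])
      (fun i => by rw [Ext.mk₀_comp_mk₀, Ext.mk₀_comp_mk₀, hf])
  let mg (q : ℕ) : Mor (sL a₃ F q) (sL a₂ F q) :=
    mL a₃ a₂ F (fun i => Ext.mk₀ (g.app i)) (Ext.mk₀ g') (zero_add q)
      (fun k => by rw [Ext.mk₀_comp_mk₀, Ext.mk₀_comp_mk₀, g.naturality])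
      (fun i => by rw [Ext.mk₀_comp_mk₀, Ext.mk₀_comp_mk₀, hg])
  let mδ (q : ℕ) : Mor (sL a₁ F q) (sL a₃ F (q + 1)) :=
    mL a₁ a₃ F (fun i => (hS i).extClass) hS'.extClass (add_comm 1 q)
      (fun {i j} k => (hS j).extClass_naturality (hS i)
        ⟨A₁.map k, A₂.map k, A₃.map k, f.naturality k, g.naturality k⟩)
      (fun i => hS'.extClass_naturality (hS i)
        ⟨pr a₁ i, pr a₂ i, pr a₃ i, (hf i).symm, (hg i).symm⟩)
  have H1 := fun q => (colimAt_iff a₁ F q).1 (h₁ q)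
  have H2 := fun q => (colimAt_iff a₂ F q).1 (h₂ q)
  rw [colimAt_iff]
  constructor
  · refine sur3 dirL (mg q) (mf q) (fun y hy => ?_)
      (fun y => gf (S := ShortComplex.mk _ _ w') y)
      (fun i x hx => Ext.contravariant_sequence_exact₂ (hS i) F x hx) (H2 q).1 (H1 q).2
    cases q with
    | zero =>
      obtain ⟨i⟩ := IsCofiltered.nonempty (C := I)
      exact ⟨i, 0, (map_zero _).trans (inj0 hS' y hy).symm⟩
    | succ q =>
      obtain ⟨z, rfl⟩ := Ext.contravariant_sequence_exact₃ hS' F y hy (add_comm 1 q)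
      exact sur_im (mδ q) (H1 q).1 z
  · refine inj3 (mg q) (fun i x hx hx' => ?_) (H2 q).2
    cases q with
    | zero => exact ⟨i, 𝟙 i, by rw [show x = 0 from inj0 (hS i) x hx, map_zero]⟩
    | succ q =>
      obtain ⟨z, rfl⟩ := Ext.contravariant_sequence_exact₃ (hS i) F x hx (add_comm 1 q)
      exact inj_im dirL (mf q) (mδ q) (fun j y => (hS j).extClass_comp_assoc y (h := add_comm 1 q))
        (fun z hz => Ext.contravariant_sequence_exact₁ hS' F z (add_comm 1 q) hz)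
        (H2 q).1 (H1 q).2 i z hx'

/-- `Ext^q(K,-)` commutes with the filtered colimit `c` -/
def ExtColim (K : 𝒜) {D : Type 1} [SmallCategory D] {G : D ⥤ 𝒜} (c : Cocone G) (n : ℕ) : Prop :=
  (∀ y : Ext K c.pt n, ∃ d, ∃ x : Ext K (G.obj d) n,
    x.comp (Ext.mk₀ (c.ι.app d)) (add_zero n) = y) ∧
  ∀ d (x : Ext K (G.obj d) n), x.comp (Ext.mk₀ (c.ι.app d)) (add_zero n) = 0 →
    ∃ (d' : D) (f : d ⟶ d'), x.comp (Ext.mk₀ (G.map f)) (add_zero n) = 0

theorem colim_23 {S : ShortComplex 𝒜} (hS : S.ShortExact) {D : Type 1} [SmallCategory D]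
    [IsFiltered D] {G : D ⥤ 𝒜} (c : Cocone G) (h₁ : ∀ n, ExtColim S.X₁ c n)
    (h₂ : ∀ n, ExtColim S.X₂ c n) (n : ℕ) : ExtColim S.X₃ c n := by
  have H1 : ∀ n, (sC c S.X₁ n).Sur ∧ (sC c S.X₁ n).Inj := h₁
  have H2 : ∀ n, (sC c S.X₂ n).Sur ∧ (sC c S.X₂ n).Inj := h₂
  show (sC c S.X₃ n).Sur ∧ (sC c S.X₃ n).Inj
  constructor
  · refine sur3 dirC (mC c (Ext.mk₀ S.g) (zero_add n)) (mC c (Ext.mk₀ S.f) (zero_add n))
      (fun y hy => ?_) (fun y => gf y)
      (fun i x hx => Ext.contravariant_sequence_exact₂ hS _ x hx) (H2 n).1 (H1 n).2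
    cases n with
    | zero =>
      obtain ⟨i⟩ := IsFiltered.nonempty (C := D)
      exact ⟨i, 0, (map_zero _).trans (inj0 hS y hy).symm⟩
    | succ q =>
      obtain ⟨z, rfl⟩ := Ext.contravariant_sequence_exact₃ hS _ y hy (add_comm 1 q)
      exact sur_im (mC c hS.extClass (add_comm 1 q)) (H1 q).1 z
  · refine inj3 (mC c (Ext.mk₀ S.g) (zero_add n)) (fun i x hx hx' => ?_) (H2 n).2
    cases n with
    | zero => exact ⟨i, 𝟙 i, by rw [show x = 0 from inj0 hS x hx, map_zero]⟩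
    | succ q =>
      obtain ⟨z, rfl⟩ := Ext.contravariant_sequence_exact₃ hS _ x hx (add_comm 1 q)
      exact inj_im dirC (mC c (Ext.mk₀ S.f) (zero_add q)) (mC c hS.extClass (add_comm 1 q))
        (fun j y => hS.extClass_comp_assoc y (h := add_comm 1 q))
        (fun z hz => Ext.contravariant_sequence_exact₁ hS _ z (add_comm 1 q) hz)
        (H2 q).1 (H1 q).2 i z hx'

end Pool.Agent.MP_855f4c_ag.E

end

section

set_option backward.isDefEq.respectTransparency false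
set_option linter.unusedSectionVars false
set_option linter.unusedVariables false

open CategoryTheory Limits Opposite AlgebraicGeometry Abelian

namespace Pool.Agent.MP_855f4c_ag.E

variable {C : Type 1} [Category.{0} C] [HasPullbacks C] {J : GrothendieckTopology C}
  {A B : ObjectProperty C}

/-- `B` contains a terminal object, is stable under pullbacks and its objects are covered by
objects of `B`. -/
structure LanOK (J : GrothendieckTopology C) (B : ObjectProperty C) : Prop where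
  term : ∃ U, B U ∧ Nonempty (IsTerminal U)
  pb : ∀ {V T T' : C} (f : V ⟶ T) (g : T' ⟶ T), B V → B T → B T' → B (pullback f g)
  cov : ∀ {U : C}, B U → ∀ S ∈ J U, ∃ S' ∈ J U, ∀ ⦃Y⦄ (y : Y ⟶ U), S' y →
    ∃ (V : C) (v : V ⟶ U) (a : Y ⟶ V), B V ∧ S v ∧ a ≫ v = y

/-- the unit at an object of `B` -/
noncomputable def lanη (P : Cᵒᵖ ⥤ Ab.{1}) {U : C} (hU : B U) :
    P.obj (op U) ⟶ ((LanP B).obj P).obj (op U) :=
  (B.ι.op.lanUnit.app (B.ι.op ⋙ P)).app (op ⟨U, hU⟩)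

theorem lanη_res (P : Cᵒᵖ ⥤ Ab.{1}) {U U' : C} (hU : B U) (hU' : B U') (h : U' ⟶ U)
    (s : P.obj (op U)) :
    ((LanP B).obj P).map h.op (lanη P hU s) = lanη P hU' (P.map h.op s) :=
  (ConcreteCategory.congr_hom ((B.ι.op.lanUnit.app (B.ι.op ⋙ P)).naturality
    (ObjectProperty.homMk h : (⟨U', hU'⟩ : B.FullSubcategory) ⟶ ⟨U, hU⟩).op) s).symm
theorem lanη_map {P Q : Cᵒᵖ ⥤ Ab.{1}} (φ : P ⟶ Q) {U : C} (hU : B U) (s : P.obj (op U)) :
    ((LanP B).map φ).app _ (lanη P hU s) = lanη Q hU (φ.app _ s) :=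
  (ConcreteCategory.congr_hom (congr_app (B.ι.op.lanUnit.naturality
    (Functor.whiskerLeft B.ι.op φ)) (op ⟨U, hU⟩)) s).symm
theorem lanη_ε (P : Cᵒᵖ ⥤ Ab.{1}) {U : C} (hU : B U) (s : P.obj (op U)) :
    ((LanPε B).app P).app _ (lanη P hU s) = s :=
  ConcreteCategory.congr_hom
    (B.ι.op.lanUnit_app_app_lanAdjunction_counit_app_app P (op ⟨U, hU⟩)) s

namespace Lan

/-- An arrow to an object of `B`, as an object of the index category. -/
def ob {T U : C} (hU : B U) (g : T ⟶ U) : CostructuredArrow B.ι.op (op T) :=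
  CostructuredArrow.mk (Y := op (⟨U, hU⟩ : B.FullSubcategory)) (show _ from g.op)

/-- A morphism of the index category. -/
def hm {T U U' : C} {hU : B U} {hU' : B U'} {g : T ⟶ U} {g' : T ⟶ U'} (u : U' ⟶ U)
    (h : g' ≫ u = g) : ob hU g ⟶ ob hU' g' :=
  CostructuredArrow.homMk
    (ObjectProperty.homMk u : (⟨U', hU'⟩ : B.FullSubcategory) ⟶ ⟨U, hU⟩).op (congrArg Quiver.Hom.op h)

lemma prod (hB : LanOK J B) {U V : C} (hU : B U) (hV : B V) :
    ∃ (W : C) (p : W ⟶ U) (q : W ⟶ V), B W ∧ (∀ {T} (a : T ⟶ U) (b : T ⟶ V),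
      ∃ c, c ≫ p = a ∧ c ≫ q = b) ∧ ∀ {T} (c d : T ⟶ W), c ≫ p = d ≫ p → c ≫ q = d ≫ q → c = d := by
  obtain ⟨Z, hZ, ⟨t⟩⟩ := hB.term
  exact ⟨_, pullback.fst (t.from U) (t.from V), pullback.snd _ _, hB.pb _ _ hU hZ hV,
    fun a b => ⟨pullback.lift a b (t.hom_ext _ _), pullback.lift_fst _ _ _, pullback.lift_snd _ _ _⟩,
    fun _ _ => pullback.hom_ext⟩

lemma eqz (hB : LanOK J B) {U V : C} (hU : B U) (hV : B V) (a b : V ⟶ U) :
    ∃ (E : C) (e : E ⟶ V), B E ∧ e ≫ a = e ≫ b ∧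
      ∀ {T} (g : T ⟶ V), g ≫ a = g ≫ b → ∃ c, c ≫ e = g := by
  obtain ⟨W, p, q, hW, h1, h2⟩ := prod hB hU hU
  obtain ⟨c, c1, c2⟩ := h1 a b
  obtain ⟨d, d1, d2⟩ := h1 (𝟙 U) (𝟙 U)
  refine ⟨pullback c d, pullback.fst _ _, hB.pb _ _ hV hW hU, ?_, fun g hg =>
    ⟨pullback.lift g (g ≫ a) (h2 _ _ ?_ ?_), pullback.lift_fst _ _ _⟩⟩
  · rw [← c1, ← c2, pullback.condition_assoc, pullback.condition_assoc, d1, d2]
  · simp only [Category.assoc, c1, d1, Category.comp_id]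
  · simp only [Category.assoc, c2, d2, Category.comp_id, hg]

lemma filt (hB : LanOK J B) (T : C) : IsFiltered (CostructuredArrow B.ι.op (op T)) where
  nonempty := by
    obtain ⟨Z, hZ, ⟨t⟩⟩ := hB.term
    exact ⟨ob hZ (t.from T)⟩
  cocone_objs x y := by
    obtain ⟨W, p, q, hW, h1, -⟩ := prod hB x.left.unop.property y.left.unop.property
    obtain ⟨c, c1, c2⟩ := h1 x.hom.unop y.hom.unop
    exact ⟨ob hW c, hm (hU := x.left.unop.property) p c1, hm (hU := y.left.unop.property) q c2,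
      trivial⟩
  cocone_maps x y f g := by
    obtain ⟨E, e, hE, h1, h2⟩ := eqz hB x.left.unop.property y.left.unop.property
      f.left.unop.hom g.left.unop.hom
    obtain ⟨c, hc⟩ := h2 y.hom.unop ((congrArg Quiver.Hom.unop (CostructuredArrow.w f)).trans
      (congrArg Quiver.Hom.unop (CostructuredArrow.w g)).symm)
    exact ⟨ob hE c, hm (hU := y.left.unop.property) e hc, CostructuredArrow.hom_ext _ _
      (Quiver.Hom.unop_inj (ObjectProperty.hom_ext _ h1))⟩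

instance : PreservesFilteredColimitsOfSize.{0, 1} (forget Ab.{1}) :=
  preservesFilteredColimitsOfSize_of_univLE.{1, 1, 0, 1} _

lemma sec_inj {F G : Sh J} (φ : F ⟶ G) [Mono φ] (T : C) : Function.Injective (φ.hom.app (op T)) :=
  fun x y h => by
    obtain ⟨x, rfl⟩ := (frEquiv T _).surjective x
    obtain ⟨y, rfl⟩ := (frEquiv T _).surjective y
    rw [← frEquiv_post, ← frEquiv_post, (frEquiv T _).injective.eq_iff, cancel_mono] at h
    rw [h]

lemma sec_ex {S : ShortComplex (Sh J)} (hS : S.Exact) [Mono S.f] (T : C) (y)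
    (h : S.g.hom.app (op T) y = 0) : ∃ x, S.f.hom.app (op T) x = y := by
  obtain ⟨y, rfl⟩ := (frEquiv T _).surjective y
  rw [← frEquiv_post, map_eq_zero_iff _ (frEquiv T _).injective] at h
  obtain ⟨x, rfl⟩ := hS.lift' y h
  exact ⟨frEquiv T _ x, (frEquiv_post _ _).symm⟩

end Lan

open Lan

theorem lan_surj (hB : LanOK J B) (P : Cᵒᵖ ⥤ Ab.{1}) {T : C} (x : ((LanP B).obj P).obj (op T)) :
    ∃ (U : C) (hU : B U) (g : T ⟶ U) (s : P.obj (op U)),
      ((LanP B).obj P).map g.op (lanη P hU s) = x := by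
  have := filt hB T
  obtain ⟨j, y, h⟩ := Concrete.isColimit_exists_rep _
    (B.ι.op.isPointwiseLeftKanExtensionLeftKanExtensionUnit (B.ι.op ⋙ P) (op T)) x
  exact ⟨_, j.left.unop.property, j.hom.unop, y, h⟩
theorem lan_zero (hB : LanOK J B) (P : Cᵒᵖ ⥤ Ab.{1}) {T U : C} (hU : B U) (g : T ⟶ U)
    (s : P.obj (op U)) (h : ((LanP B).obj P).map g.op (lanη P hU s) = 0) :
    ∃ (U' : C) (_ : B U') (g' : T ⟶ U') (u : U' ⟶ U), g' ≫ u = g ∧ P.map u.op s = 0 := by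
  have := filt hB T
  obtain ⟨k, f, f', h⟩ := Concrete.isColimit_exists_of_rep_eq _
    (B.ι.op.isPointwiseLeftKanExtensionLeftKanExtensionUnit (B.ι.op ⋙ P) (op T))
    (i := ob hU g) (j := ob hU g) s 0 (h.trans (map_zero _).symm)
  exact ⟨_, k.left.unop.property, k.hom.unop, f.left.unop.hom,
    congrArg Quiver.Hom.unop (CostructuredArrow.w f), h.trans (map_zero _)⟩

lemma Lan.shrink (P : Cᵒᵖ ⥤ Ab.{1}) {T U U' : C} (hU : B U) (hU' : B U') (g' : T ⟶ U') (u : U' ⟶ U)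
    (s : P.obj (op U)) : ((LanP B).obj P).map (g' ≫ u).op (lanη P hU s) =
      ((LanP B).obj P).map g'.op (lanη P hU' (P.map u.op s)) := by
  rw [← res_res, lanη_res]

lemma Lan.push {P Q : Cᵒᵖ ⥤ Ab.{1}} (φ : P ⟶ Q) {T U : C} (hU : B U) (g : T ⟶ U)
    (s : P.obj (op U)) : ((LanP B).map φ).app _ (((LanP B).obj P).map g.op (lanη P hU s)) =
      ((LanP B).obj Q).map g.op (lanη Q hU (φ.app _ s)) := by
  rw [nat, lanη_map]

theorem lan_lfp (hB : LanOK J B)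
    (h1 : ∀ (I : Type) [SmallCategory I] [IsCofiltered I] (D : I ⥤ C) (c : Cone D),
      (∀ i, A (D.obj i)) → IsLimit c → ∀ U, B U → (∀ g : c.pt ⟶ U, ∃ i g', pr c i ≫ g' = g) ∧
        ∀ i (a b : D.obj i ⟶ U), pr c i ≫ a = pr c i ≫ b →
          ∃ (j : I) (f : j ⟶ i), D.map f ≫ a = D.map f ≫ b)
    (P : Cᵒᵖ ⥤ Ab.{1}) : LFPg A ((LanP B).obj P) := by
  intro I _ _ D c hD hc
  refine ⟨fun x => ?_, fun i t ht => ?_⟩
  · obtain ⟨U, hU, g, s, rfl⟩ := lan_surj hB P x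
    obtain ⟨i, g', rfl⟩ := (h1 I D c hD hc U hU).1 g
    exact ⟨i, _, res_res _ _ _ _⟩
  · obtain ⟨U, hU, g, s, rfl⟩ := lan_surj hB P t
    rw [res_res] at ht
    obtain ⟨U', hU', g', u, e, hs⟩ := lan_zero hB P hU _ s ht
    obtain ⟨j, g'', rfl⟩ := (h1 I D c hD hc U' hU').1 g'
    obtain ⟨m, f, hf⟩ := (h1 I D c hD hc U hU).2 (IsCofiltered.min i j)
      (D.map (IsCofiltered.minToLeft i j) ≫ g) (D.map (IsCofiltered.minToRight i j) ≫ g'' ≫ u)
      (by rw [pr_w_assoc, pr_w_assoc, ← e, Category.assoc])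
    refine ⟨m, f ≫ IsCofiltered.minToLeft i j, ?_⟩
    rw [res_res, D.map_comp, Category.assoc, hf, ← Category.assoc, ← Category.assoc,
      shrink P hU hU', hs, map_zero, map_zero]

lemma Lan.θ_ε (F : Sh J) (T : C) (q : ((LanP B).obj F.obj).obj (op T)) :
    ((Lcε J B).app F).hom.app (op T) ((toSheafify J ((LanP B).obj F.obj)).app _ q) =
      ((LanPε B).app F.obj).app _ q := by
  have h : toSheafify J ((LanP B).obj F.obj) ≫ ((Lcε J B).app F).hom = (LanPε B).app F.obj := by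
    have h1 := toSheafify_naturality J ((LanPε B).app F.obj)
    have h2 := (sheafificationAdjunction J Ab.{1}).right_triangle_components F
    refine (Category.assoc _ _ _).symm.trans ?_
    exact (congrArg (· ≫ _) h1.symm).trans ((Category.assoc _ _ _).trans
      ((congrArg (_ ≫ ·) h2).trans (Category.comp_id _)))
  exact congr(($h).app (op T) q)

theorem Lcε_bij (hB : LanOK J B) (F : Sh J) {U : C} (hU : B U) :
    Function.Bijective (((Lcε J B).app F).hom.app (op U)) := by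
  refine ⟨(injective_iff_map_eq_zero _).2 fun x hx => ?_, fun s =>
    ⟨_, (θ_ε F U (lanη F.obj hU s)).trans (lanη_ε _ hU s)⟩⟩
  obtain ⟨S, hS, h⟩ := hB.cov hU _
    (Presheaf.imageSieve_mem J (toSheafify J ((LanP B).obj F.obj)) x)
  refine sepP ((Lc J B).obj F).property x S hS fun Y y hy => ?_
  obtain ⟨V, v, a, hV, ⟨q, hq⟩, rfl⟩ := h y hy
  obtain ⟨W, hW, g, s, rfl⟩ := lan_surj hB _ q
  rw [lanη_res _ hW hV] at hq
  have h0 := (θ_ε F V (lanη F.obj hV (F.obj.map g.op s))).symm.trans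
    ((congrArg _ hq).trans ((nat ((Lcε J B).app F).hom v x).trans (by rw [hx, map_zero])))
  rw [lanη_ε] at h0
  rw [h0, map_zero, map_zero] at hq
  rw [← res_res]
  exact (congrArg _ hq.symm).trans (map_zero _)

instance : (LanP B).Additive :=
  have : ((Functor.whiskeringLeft _ _ Ab.{1}).obj B.ι.op).Additive := ⟨rfl⟩
  have : (B.ι.op.lan (H := Ab.{1})).Additive := (B.ι.op.lanAdjunction Ab.{1}).left_adjoint_additive
  inferInstanceAs (_ ⋙ _ : (Cᵒᵖ ⥤ Ab.{1}) ⥤ (Cᵒᵖ ⥤ Ab.{1})).Additive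

instance : (Lc J B).Additive := inferInstanceAs (_ ⋙ _ ⋙ _ : Sh J ⥤ Sh J).Additive

theorem Lc_mono (hB : LanOK J B) {F G : Sh J} (φ : F ⟶ G)
    (h : ∀ U, B U → Function.Injective (φ.hom.app (op U))) : Mono ((Lc J B).map φ) := by
  have (T : Cᵒᵖ) : Mono (((LanP B).map φ.hom).app T) := by
    refine (AddCommGrpCat.mono_iff_injective _).2 ((injective_iff_map_eq_zero _).2 fun x hx => ?_)
    obtain ⟨U, hU, g, s, rfl⟩ := lan_surj hB _ (T := T.unop) x
    obtain ⟨U', hU', g', u, rfl, hs⟩ := lan_zero hB _ hU g _ ((push φ.hom hU g s).symm.trans hx)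
    rw [← nat] at hs
    rw [shrink _ hU hU', h U' hU' (hs.trans (map_zero _).symm), map_zero, map_zero]
  have : Mono ((LanP B).map φ.hom) := NatTrans.mono_of_mono_app _
  exact inferInstanceAs (Mono ((presheafToSheaf J Ab.{1}).map ((LanP B).map φ.hom)))

theorem Lc_shortExact (hB : LanOK J B) {S : ShortComplex (Sh J)} (hS : S.ShortExact) :
    (S.map (Lc J B)).ShortExact where
  mono_f := have := hS.mono_f; Lc_mono hB S.f fun U _ => sec_inj _ U
  epi_g := by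
    have := hS.epi_g
    have : Presheaf.IsLocallySurjective J S.g.hom :=
      (Sheaf.isLocallySurjective_iff_epi' Ab.{1} S.g).2 inferInstance
    have : Presheaf.IsLocallySurjective J ((LanP B).map S.g.hom) := ⟨fun {T} x => by
      obtain ⟨U, hU, g, s, rfl⟩ := lan_surj hB _ x
      obtain ⟨S', hS', h⟩ := hB.cov hU _ (Presheaf.imageSieve_mem J S.g.hom s)
      refine J.superset_covering (fun Y y hy => ?_) (J.pullback_stable g hS')
      obtain ⟨V, v, a, hV, ⟨t, ht⟩, e⟩ := h _ hy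
      exact ⟨_, (push S.g.hom hV a t).trans (by rw [res_res, ← e, shrink _ hU hV, ht])⟩⟩
    exact (Sheaf.isLocallySurjective_iff_epi' Ab.{1} _).1
      ((Presheaf.isLocallySurjective_presheafToSheaf_map_iff J ((LanP B).map S.g.hom)).2 this)
  exact := by
    have := hS.mono_f
    refine (exact_psh (S.map (sheafToPresheaf J _ ⋙ LanP B)) fun T x hx => ?_).map
      (presheafToSheaf J Ab.{1})
    obtain ⟨U, hU, g, s, rfl⟩ := lan_surj hB S.X₂.obj (T := T.unop) x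
    obtain ⟨U', hU', g', u, rfl, hs⟩ := lan_zero hB _ hU g _ ((push S.g.hom hU g s).symm.trans hx)
    rw [← nat] at hs
    obtain ⟨t, ht⟩ := sec_ex hS.exact U' _ hs
    exact ⟨_, (push S.f.hom hU' g' t).trans (by rw [ht]; exact (shrink _ hU hU' _ _ _).symm)⟩

theorem Lc_isIso (hB : LanOK J B) {F G : Sh J} (φ : F ⟶ G)
    (h : ∀ U, B U → Function.Bijective (φ.hom.app (op U))) : IsIso ((Lc J B).map φ) := by
  have (U : B.FullSubcategoryᵒᵖ) : IsIso ((Functor.whiskerLeft B.ι.op φ.hom).app U) :=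
    (ConcreteCategory.isIso_iff_bijective _).2 (h _ U.unop.property)
  have : IsIso (Functor.whiskerLeft B.ι.op φ.hom) := NatIso.isIso_of_isIso_app _
  exact inferInstanceAs (IsIso ((presheafToSheaf J Ab.{1}).map
    (B.ι.op.lan.map (Functor.whiskerLeft B.ι.op φ.hom))))

end Pool.Agent.MP_855f4c_ag.E

end

section

set_option backward.isDefEq.respectTransparency false

open CategoryTheory Limits Opposite

namespace Pool.Agent.MP_855f4c_ag.E

variable {C : Type 1} [Category.{0} C] {J : GrothendieckTopology C}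

namespace Cech
variable {V U V' U' : C} {p : V ⟶ U} {p' : V' ⟶ U'} (N : Cech p) (N' : Cech p')

/-- The map of nerves induced by a commutative square. -/
noncomputable def mp (v : V' ⟶ V) (u : U' ⟶ U) (h : v ≫ p = p' ≫ u) (n : ℕ) : N'.X n ⟶ N.X n :=
  N.lift n (N'.b n ≫ u) (fun j => N'.π n j ≫ v) fun j => by
    rw [Category.assoc, h, ← Category.assoc, N'.w]

variable {v : V' ⟶ V} {u : U' ⟶ U} (h : v ≫ p = p' ≫ u)

@[reassoc (attr := simp)] lemma mp_b (n) : N.mp N' v u h n ≫ N.b n = N'.b n ≫ u := N.lift_b ..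
@[reassoc (attr := simp)] lemma mp_π (n j) : N.mp N' v u h n ≫ N.π n j = N'.π n j ≫ v :=
  N.lift_π ..

lemma mp_face (n i) : N.mp N' v u h (n + 1) ≫ N.face n i = N'.face n i ≫ N.mp N' v u h n :=
  N.ext _ _ _ (by simp) (by simp)

lemma mp_cd (P : Cᵒᵖ ⥤ Ab.{1}) (n) (s : P.obj (op (N.X n))) :
    P.map (N.mp N' v u h (n + 1)).op (N.cd P n s) =
      N'.cd P n (P.map (N.mp N' v u h n).op s) := by
  simp only [cd, map_sum, map_zsmul, res_res, mp_face]

lemma mp_mp {V'' U'' : C} {p'' : V'' ⟶ U''} (N'' : Cech p'') {v' : V'' ⟶ V'} {u' : U'' ⟶ U'}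
    (h' : v' ≫ p' = p'' ≫ u') (n) :
    N'.mp N'' v' u' h' n ≫ N.mp N' v u h n =
      N.mp N'' (v' ≫ v) (u' ≫ u) (by rw [Category.assoc, h, reassoc_of% h']) n :=
  N.ext _ _ _ (by simp) (by simp)

lemma mp_isPullback (h : IsPullback v p' p u) (n) :
    IsPullback (N'.b n) (N.mp N' v u h.w n) u (N.b n) := by
  refine ⟨⟨by simp⟩, ⟨PullbackCone.IsLimit.mk _
    (fun s => N'.lift n s.fst (fun j => h.lift (s.snd ≫ N.π n j) s.fst (by
      rw [Category.assoc, N.w, s.condition])) (by simp))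
    (fun s => by simp) (fun s => N.ext _ _ _ (by simp [s.condition]) (by simp))
    fun s m h1 h2 => N'.ext _ _ _ (by simpa using h1) fun j => h.hom_ext ?_ ?_⟩⟩
  · simp [← h2]
  · simp [N'.w, h1]

end Cech

variable [HasPullbacks C] [HasFiniteWidePullbacks C] {A : ObjectProperty C}

/-- Cech exactness passes to the limit. -/
theorem acy_lim (hA : FinSite J A) {I : Type} [SmallCategory I] [IsCofiltered I] {D : I ⥤ C}
    {c : Cone D} (hD : ∀ i, A (D.obj i)) (hc : IsLimit c) {P : Cᵒᵖ ⥤ Ab.{1}} (hP : LFPg A P)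
    {i : I} {V₀ V : C} (v₀ : V₀ ⟶ D.obj i) {v : V ⟶ c.pt} {m : V ⟶ V₀}
    (h : IsPullback m v v₀ (pr c i))
    (hN : ∀ (j : I) (f : j ⟶ i) (N : Cech (pullback.snd v₀ (D.map f))),
      (∀ n, A (N.X n)) ∧ N.Acy P) (N : Cech v) : N.Acy P := by
  intro n s hs
  let M (j : I) (f : j ⟶ i) : Cech (pullback.snd v₀ (D.map f)) := Cech.ofWide _
  let m' (j : I) (f : j ⟶ i) : V ⟶ pullback v₀ (D.map f) :=
    pullback.lift m (v ≫ pr c j) (by simp [h.w])
  have hm (j : I) (f : j ⟶ i) : IsPullback (m' j f) v (pullback.snd v₀ (D.map f)) (pr c j) :=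
    IsPullback.of_right (h₁₂ := pullback.fst _ _) (h₂₂ := D.map f) (v₁₃ := v₀)
      (by simpa [m'] using h) (by simp [m']) (IsPullback.of_hasPullback _ _)
  let t {j k : I} (f : j ⟶ i) (g : k ⟶ j) : pullback v₀ (D.map (g ≫ f)) ⟶ pullback v₀ (D.map f) :=
    pullback.lift (pullback.fst _ _) (pullback.snd _ _ ≫ D.map g) (by simp [pullback.condition])
  have ht {j k : I} (f : j ⟶ i) (g : k ⟶ j) : IsPullback (t f g) (pullback.snd v₀ (D.map (g ≫ f)))
      (pullback.snd v₀ (D.map f)) (D.map g) :=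
    IsPullback.of_right (h₁₂ := pullback.fst _ _) (h₂₂ := D.map f) (v₁₃ := v₀)
      (by simpa [t] using IsPullback.of_hasPullback v₀ (D.map (g ≫ f))) (by simp [t])
      (IsPullback.of_hasPullback _ _)
  have hmt {j k : I} (f : j ⟶ i) (g : k ⟶ j) : m' k (g ≫ f) ≫ t f g = m' j f := by
    apply pullback.hom_ext <;> simp [m', t]
  have key {j k : I} (f : j ⟶ i) (g : k ⟶ j) (n) :
      (M k (g ≫ f)).mp N _ _ (hm k (g ≫ f)).w n ≫ (M j f).mp (M k (g ≫ f)) _ _ (ht f g).w n =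
        (M j f).mp N _ _ (hm j f).w n :=
    (M j f).ext _ _ _ (by simp) (by simp [hmt])
  have h0 := (M i (𝟙 i)).mp_isPullback N (hm i (𝟙 i)) (n + 2)
  obtain ⟨j, f, x, hx⟩ := lift1 hA hD hc hP ((M i (𝟙 i)).b (n + 2)) ((hN _ _ _).1 _)
    (P.map h0.isoPullback.inv.op s)
  have h1 := (M i (𝟙 i)).mp_isPullback (M j (f ≫ 𝟙 i)) (ht (𝟙 i) f) (n + 2)
  let s' := P.map h1.isoPullback.hom.op x
  have hs' : P.map ((M j (f ≫ 𝟙 i)).mp N _ _ (hm j (f ≫ 𝟙 i)).w (n + 2)).op s' = s := by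
    rw [res_res, hx _ h0.isoPullback.hom (by simp) (by simp [key]), res_res, Iso.hom_inv_id,
      res_id]
  obtain ⟨k, g, hk⟩ := kill hA hD hc (P := P) (fun _ s => s = 0)
    (fun _ _ g s h => by rw [h, map_zero]) (fun I _ _ D c hD hc => (hP I D c hD hc).2)
    ((M j (f ≫ 𝟙 i)).b (n + 3)) ((hN _ _ _).1 _) ((M j (f ≫ 𝟙 i)).cd P (n + 2) s')
    (fun Y a b e => by
      have h2 := (M j (f ≫ 𝟙 i)).mp_isPullback N (hm j (f ≫ 𝟙 i)) (n + 3)
      rw [← h2.lift_snd b a e.symm, ← res_res, Cech.mp_cd, hs', hs, map_zero])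
  obtain ⟨y, hy⟩ := (hN k (g ≫ f ≫ 𝟙 i) (M _ _)).2 n
    (P.map ((M j (f ≫ 𝟙 i)).mp (M k (g ≫ f ≫ 𝟙 i)) _ _ (ht _ g).w (n + 2)).op s') (by
      rw [← Cech.mp_cd]
      exact hk _ ((M k _).b _) (by simp))
  refine ⟨P.map ((M k (g ≫ f ≫ 𝟙 i)).mp N _ _ (hm k _).w (n + 1)).op y, ?_⟩
  rw [← Cech.mp_cd, hy, res_res, key, hs']

end Pool.Agent.MP_855f4c_ag.E

end

section

/-! h86e section C: transcendence degree at most one. -/

namespace Pool.Agent.MP_855f4c_ag.E.C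

open scoped IntermediateField

/-- Transcendence degree at most one. -/
def TD1 (k K : Type) [Field k] [Field K] [Algebra k K] : Prop :=
  ∃ t : K, Algebra.IsAlgebraic k⟮t⟯ K

variable {k K Ω : Type} [Field k] [Field K] [Field Ω] [Algebra K Ω]

lemma TD1.ext [Algebra k K] [Algebra k Ω] [IsScalarTower k K Ω] [Algebra.IsAlgebraic K Ω]
    (h : TD1 k K) : ∃ t : K, Algebra.IsAlgebraic k⟮algebraMap K Ω t⟯ Ω := by
  obtain ⟨t, ht⟩ := h
  have h1 : Algebra.IsAlgebraic k⟮t⟯ Ω := .trans k⟮t⟯ K Ω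
  let e := WD.PL.eqv (IsScalarTower.toAlgHom k K Ω) t
  exact ⟨t, Algebra.IsAlgebraic.ringHom_of_comp_eq (R := k⟮t⟯) (A := Ω) e.toRingEquiv
    (RingEquiv.refl Ω) e.injective (RingEquiv.refl Ω).surjective (by ext x; rfl)⟩

lemma TD1.of_alg [Algebra k K] [Algebra k Ω] [IsScalarTower k K Ω] [Algebra.IsAlgebraic K Ω]
    (h : TD1 k K) : TD1 k Ω := h.ext.elim fun _ ht => ⟨_, ht⟩

lemma TD1.of_FF [Algebra k K] [h : WD.FF k K] : TD1 k K := by
  obtain ⟨t, -, ht⟩ := h.ex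
  exact ⟨t, Algebra.IsAlgebraic.of_finite _ _⟩

end Pool.Agent.MP_855f4c_ag.E.C

end

section

/-! Cofinite groups and their rational Tate modules. -/

set_option autoImplicit false

namespace Pool.Agent.MP_855f4c_ag.E

universe u

variable {l : ℕ} [Fact l.Prime] {M N K : Type u} [AddCommGroup M] [AddCommGroup N]
  [AddCommGroup K]

lemma V.ext {f g : V l M} (h : ∀ x, f.1 x = g.1 x) : f = g := Subtype.ext (DFunLike.ext _ _ h)

@[simp] lemma Vm_apply (φ : M →+ N) (f : V l M) (x : ℚ_[l]) : (Vm l φ f).1 x = φ (f.1 x) := rfl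

lemma V.smul_apply (c : ℚ_[l]) (f : V l M) (x : ℚ_[l]) : (c • f).1 x = f.1 (x * c) := rfl

lemma V.add_apply (f g : V l M) (x : ℚ_[l]) : (f + g).1 x = f.1 x + g.1 x := rfl

lemma V.sub_apply (f g : V l M) (x : ℚ_[l]) : (f - g).1 x = f.1 x - g.1 x := rfl

lemma V.zero_apply (x : ℚ_[l]) : (0 : V l M).1 x = 0 := rfl

lemma Vm_id : Vm l (AddMonoidHom.id M) = LinearMap.id := rfl

lemma Vm_comp (ψ : N →+ K) (φ : M →+ N) : Vm l (ψ.comp φ) = (Vm l ψ).comp (Vm l φ) := rfl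

lemma Vm_add (φ ψ : M →+ N) : Vm l (φ + ψ) = Vm l φ + Vm l ψ := rfl

lemma Vm_sub (φ ψ : M →+ N) : Vm l (φ - ψ) = Vm l φ - Vm l ψ := rfl

lemma Vm_zero : Vm l (0 : M →+ N) = 0 := rfl

variable (l M) in
/-- `V` on endomorphism rings. -/
noncomputable def VEnd : AddMonoid.End M →+* Module.End ℚ_[l] (V l M) where
  toFun φ := Vm l φ
  map_one' := rfl
  map_mul' _ _ := rfl
  map_zero' := rfl
  map_add' _ _ := rfl

variable (l) in
/-- `V` on isomorphisms. -/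
noncomputable def Ve (e : M ≃+ N) : V l M ≃ₗ[ℚ_[l]] V l N :=
  LinearEquiv.ofLinearMap (Vm l e.toAddMonoidHom) (Vm l e.symm.toAddMonoidHom)
    (LinearMap.ext fun _ => V.ext fun _ => e.apply_symm_apply _)
    (LinearMap.ext fun _ => V.ext fun _ => e.symm_apply_apply _)

@[simp] lemma Ve_apply (e : M ≃+ N) (f : V l M) (x : ℚ_[l]) : (Ve l e f).1 x = e (f.1 x) := rfl

variable (l M) in
/-- Evaluation at `1`. -/
noncomputable def ev : V l M →+ M := AddMonoidHom.mk' (fun f => f.1 1) fun _ _ => rfl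

lemma ev_apply (f : V l M) : ev l M f = f.1 1 := rfl

lemma l_ne : (l : ℚ_[l]) ≠ 0 := Nat.cast_ne_zero.2 (Fact.out : l.Prime).ne_zero

lemma l_gt : (1 : ℝ) < l := Nat.one_lt_cast.2 (Fact.out : l.Prime).one_lt

/-- Approximation by `a / l ^ n`. -/
lemma q_appr (x : ℚ_[l]) {r : ℝ} (hr : 0 < r) :
    ∃ (n : ℕ) (a : ℤ), ‖x - a * ((l : ℚ_[l]) ^ n)⁻¹‖ < r ∧ (‖x‖ ≤ 1 → n = 0) := by
  have key : ∀ y : ℚ_[l], ‖y‖ ≤ 1 → ∀ s : ℝ, 0 < s → ∃ a : ℤ, ‖y - a‖ < s := fun y hy s hs => by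
    obtain ⟨z, rfl⟩ : ∃ z : ℤ_[l], (z : ℚ_[l]) = y := ⟨⟨y, hy⟩, rfl⟩
    obtain ⟨a, ha⟩ := (PadicInt.denseRange_intCast (p := l)).exists_dist_lt z hs
    refine ⟨a, ?_⟩
    rw [dist_eq_norm, PadicInt.norm_def] at ha
    simpa using ha
  by_cases hx : ‖x‖ ≤ 1
  · obtain ⟨a, ha⟩ := key x hx r hr
    exact ⟨0, a, by simpa using ha, fun _ => rfl⟩
  · obtain ⟨n, hn⟩ := pow_unbounded_of_one_lt ‖x‖ (l_gt (l := l))
    have h0 : (0 : ℝ) < (l : ℝ) ^ n := pow_pos (zero_lt_one.trans l_gt) n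
    have h1 : ‖(l : ℚ_[l]) ^ n‖ = ((l : ℝ) ^ n)⁻¹ := by rw [norm_pow, Padic.norm_p, inv_pow]
    obtain ⟨a, ha⟩ := key (x * l ^ n) (by
      rw [norm_mul, h1, ← div_eq_mul_inv, div_le_one h0]; exact hn.le) (r / l ^ n) (by positivity)
    refine ⟨n, a, ?_, fun h => (hx h).elim⟩
    have : x - a * ((l : ℚ_[l]) ^ n)⁻¹ = (x * l ^ n - a) * ((l : ℚ_[l]) ^ n)⁻¹ := by
      field_simp [l_ne (l := l)]
    rwa [this, norm_mul, norm_inv, h1, inv_inv, ← lt_div_iff₀ h0]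

lemma V.ev_zero {f : V l M} (h : f.1 1 = 0) {x : ℚ_[l]} (hx : ‖x‖ ≤ 1) : f.1 x = 0 := by
  obtain ⟨r, hr, hf⟩ := f.2
  obtain ⟨n, a, h1, h2⟩ := q_appr x hr
  obtain rfl := h2 hx
  have := hf _ h1
  rw [pow_zero, inv_one, ← zsmul_eq_mul, map_sub, map_zsmul, h, smul_zero, sub_zero] at this
  exact this

/-- Elements of `V` are determined by their values at the `l ^ (-n)`. -/
lemma V.ext_pow {f g : V l M}
    (h : ∀ n : ℕ, f.1 ((l : ℚ_[l]) ^ n)⁻¹ = g.1 ((l : ℚ_[l]) ^ n)⁻¹) : f = g := by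
  refine sub_eq_zero.1 (V.ext fun x => ?_)
  obtain ⟨r, hr, hf⟩ := (f - g).2
  obtain ⟨n, a, h1, -⟩ := q_appr x hr
  have := hf _ h1
  rw [← zsmul_eq_mul, map_sub, map_zsmul, V.sub_apply _ _ (_⁻¹), h, sub_self, smul_zero,
    sub_zero] at this
  exact this

lemma V.pow_smul (f : V l M) (n : ℕ) (x : ℚ_[l]) :
    l ^ n • f.1 (x * ((l : ℚ_[l]) ^ n)⁻¹) = f.1 x := by
  rw [← map_nsmul, nsmul_eq_mul, Nat.cast_pow, mul_comm, mul_assoc,
    inv_mul_cancel₀ (pow_ne_zero n l_ne), mul_one]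

lemma V.exists_pow (f : V l M) : ∃ n : ℕ, f.1 ((l : ℚ_[l]) ^ n) = 0 := by
  obtain ⟨r, hr, hf⟩ := f.2
  obtain ⟨n, hn⟩ := exists_pow_lt_of_lt_one hr (Padic.norm_p_lt_one (p := l))
  exact ⟨n, hf _ (by rwa [norm_pow])⟩

/-- A compatible system of `l`-power division points gives an element of `V`. -/
lemma exists_V (y : ℕ → M) (hy : ∀ n, l • y (n + 1) = y n) (k : ℕ) (h0 : l ^ k • y 0 = 0) :
    ∃ f : V l M, ∀ n : ℕ, f.1 ((l : ℚ_[l]) ^ n)⁻¹ = y n := by
  have hl : (0 : ℝ) < l := zero_lt_one.trans l_gt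
  have h1 : ∀ j n, l ^ j • y (n + j) = y n := fun j n => by
    induction j with
    | zero => simp
    | succ j ih => rw [pow_succ, mul_smul, ← add_assoc, hy, ih]
  let R : ℚ_[l] → M → Prop := fun x m =>
    ∃ (n : ℕ) (a : ℤ), ‖x - a * ((l : ℚ_[l]) ^ n)⁻¹‖ ≤ (l : ℝ) ^ (-k : ℤ) ∧ m = a • y n
  have hadd : ∀ x x' m m', R x m → R x' m' → R (x - x') (m - m') := by
    rintro x x' _ _ ⟨n, a, e, rfl⟩ ⟨n', a', e', rfl⟩
    refine ⟨n + n', a * l ^ n' - a' * l ^ n, ?_, ?_⟩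
    · have : x - x' - ((a * l ^ n' - a' * l ^ n : ℤ) : ℚ_[l]) * ((l : ℚ_[l]) ^ (n + n'))⁻¹ =
          (x - a * ((l : ℚ_[l]) ^ n)⁻¹) + -(x' - a' * ((l : ℚ_[l]) ^ n')⁻¹) := by
        push_cast
        field_simp [l_ne (l := l)]
        ring
      rw [this]
      exact (IsUltrametricDist.norm_add_le_max _ _).trans (max_le e (by rwa [norm_neg]))
    · rw [sub_smul, mul_smul, mul_smul, ← Nat.cast_pow, ← Nat.cast_pow, natCast_zsmul,
        natCast_zsmul, h1, add_comm n n', h1]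
  have hz : ∀ x m, ‖x‖ ≤ (l : ℝ) ^ (-k : ℤ) → R x m → m = 0 := by
    rintro x _ hx ⟨n, a, e, rfl⟩
    have h2 : ‖(a : ℚ_[l]) * ((l : ℚ_[l]) ^ n)⁻¹‖ ≤ (l : ℝ) ^ (-k : ℤ) := by
      have := (IsUltrametricDist.norm_add_le_max _ _).trans (max_le hx (by
        rwa [← norm_neg] at e))
      simpa using this
    have h3 : ‖(a : ℚ_[l])‖ ≤ (l : ℝ) ^ (-(k + n : ℕ) : ℤ) := by
      rw [norm_mul, norm_inv, Padic.norm_p_pow, ← div_eq_mul_inv, div_le_iff₀ (zpow_pos hl _),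
        ← zpow_add₀ hl.ne', ← neg_add, ← Nat.cast_add] at h2
      exact h2
    obtain ⟨b, rfl⟩ := (Padic.norm_int_le_pow_iff_dvd a (k + n)).1 h3
    rw [mul_comm, mul_smul, ← Nat.cast_pow, natCast_zsmul, pow_add, mul_smul]
    have := h1 n 0
    rw [zero_add] at this
    rw [this, h0, smul_zero]
  have hex : ∀ x, ∃ m, R x m := fun x => by
    obtain ⟨n, a, e, -⟩ := q_appr x (zpow_pos hl (-k : ℤ))
    exact ⟨_, n, a, e.le, rfl⟩
  choose F hF using hex
  have hu : ∀ x m, R x m → F x = m := fun x m h =>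
    sub_eq_zero.1 (hz _ _ (by rw [sub_self, norm_zero]; positivity) (hadd _ _ _ _ (hF x) h))
  refine ⟨⟨AddMonoidHom.ofMapSub F fun x x' => hu _ _ (hadd _ _ _ _ (hF x) (hF x')),
    _, zpow_pos hl (-k : ℤ), fun x hx => hz x _ hx.le (hF x)⟩, fun n => hu _ _ ⟨n, 1, ?_, ?_⟩⟩
  · simp only [Int.cast_one, one_mul, sub_self, norm_zero]; positivity
  · rw [one_smul]

omit [Fact l.Prime] in
/-- FIN -/
lemma Cof.fin (h : Cof l M) (n : ℕ) : {m : M | l ^ n • m = 0}.Finite := by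
  induction n with
  | zero => simp
  | succ n ih =>
    refine Set.Finite.of_finite_fibers (fun m => l • m) (ih.subset ?_) ?_
    · rintro _ ⟨m, hm, rfl⟩
      exact (mul_smul _ _ _).symm.trans hm
    · rintro _ ⟨m, -, rfl⟩
      refine (h.2.image fun x => x + m).subset fun x hx => ⟨x - m, ?_, sub_add_cancel _ _⟩
      change l • (x - m) = 0
      rw [smul_sub, sub_eq_zero]
      exact hx.2

omit [Fact l.Prime] in
/-- DIV -/
lemma Cof.div (h : Cof l M) : ∃ c : ℕ, ∀ (n : ℕ) (m : M), ∃ m', l ^ c • m = l ^ n • m' := by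
  let S : ℕ → Set M := fun n => {y | l • y = 0 ∧ ∃ w, y = l ^ n • w}
  have hS : ∀ n, S (n + 1) ⊆ S n := by
    rintro n _ ⟨h1, w, rfl⟩
    exact ⟨h1, l • w, mul_smul _ _ _⟩
  have hf : ∀ n, (S n).Finite := fun n => h.2.subset fun _ h => h.1
  obtain ⟨c, hc⟩ : ∃ c, ∀ n, c ≤ n → S n ⊆ S (n + 1) := by
    obtain ⟨c, -, hc⟩ := Set.Finite.exists_minimalFor' (fun n => (S n).ncard) Set.univ
      ((Set.finite_Iic (S 0).ncard).subset (by
        rintro _ ⟨n, -, rfl⟩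
        exact Set.ncard_le_ncard (antitone_nat_of_succ_le hS (Nat.zero_le n)) (hf 0)))
      ⟨0, trivial⟩
    refine ⟨c, fun n hn => (Set.eq_of_subset_of_ncard_le (hS n) ?_ (hf n)).ge⟩
    have e1 := Set.ncard_le_ncard (antitone_nat_of_succ_le hS hn) (hf c)
    exact e1.trans (hc trivial ((Set.ncard_le_ncard (hS n) (hf n)).trans e1))
  have key : ∀ k n, c ≤ n → ∀ w : M, l ^ k • l ^ n • w = 0 → ∃ w', l ^ n • w = l ^ (n + 1) • w' := by
    intro k
    induction k with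
    | zero => intro n _ w hw; exact ⟨0, by simpa using hw⟩
    | succ k ih =>
      intro n hn w hw
      obtain ⟨w', e⟩ := ih (n + 1) (by omega) w (by
        rw [← hw, smul_smul, smul_smul]; congr 1; ring)
      obtain ⟨-, v, hv⟩ := hc n hn (a := l ^ n • (w - l • w')) ⟨by
        rw [smul_smul, ← pow_succ', smul_sub, e, smul_smul, ← pow_succ, sub_self], _, rfl⟩
      exact ⟨v + w', by rw [smul_add, ← hv, smul_sub, smul_smul, ← pow_succ, sub_add_cancel]⟩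
  have h2 : ∀ j (m : M), ∃ m', l ^ c • m = l ^ (c + j) • m' := fun j m => by
    induction j with
    | zero => exact ⟨m, rfl⟩
    | succ j ih =>
      obtain ⟨w, e⟩ := ih
      obtain ⟨k, hk⟩ := h.1 (l ^ (c + j) • w)
      obtain ⟨w', e'⟩ := key k (c + j) (by omega) w hk
      exact ⟨w', e.trans e'⟩
  refine ⟨c, fun n m => ?_⟩
  obtain ⟨w, e⟩ := h2 n m
  exact ⟨l ^ c • w, by rw [e, smul_smul, ← pow_add, add_comm]⟩

/-- The image of `ev` is the divisible part. -/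
lemma Cof.range_ev (h : Cof l M) : ∃ c : ℕ, ∀ y : M, (∃ f, ev l M f = y) ↔ ∃ m, y = l ^ c • m := by
  obtain ⟨c, hc⟩ := h.div
  refine ⟨c, fun y => ⟨?_, ?_⟩⟩
  · rintro ⟨f, rfl⟩
    exact ⟨_, (V.pow_smul f c 1).symm⟩
  · rintro ⟨m, rfl⟩
    choose s hs using hc (c + 1)
    obtain ⟨k, hk⟩ := h.1 (l ^ c • m)
    obtain ⟨f, hf⟩ := exists_V (l := l) (fun n => l ^ c • s^[n] m) (fun n => by
      rw [Function.iterate_succ_apply', smul_smul, ← pow_succ', ← hs]) k hk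
    exact ⟨f, by simpa [ev_apply] using hf 0⟩

/-- A separated lattice with finite reduction is the standard lattice in some basis. -/
lemma lattice {W : Type u} [AddCommGroup W] [Module ℚ_[l] W] (L : AddSubgroup W)
    (h0 : ∀ c : ℚ_[l], ‖c‖ ≤ 1 → ∀ w ∈ L, c • w ∈ L)
    (h1 : ∀ w, ∃ n : ℕ, (l : ℚ_[l]) ^ n • w ∈ L)
    (h2 : ∀ w, (∀ n : ℕ, ((l : ℚ_[l]) ^ n)⁻¹ • w ∈ L) → w = 0)
    (s : Set W) (hs : s.Finite) (hL : ∀ t ∈ s, t ∈ L)
    (h3 : ∀ w ∈ L, ∃ t ∈ s, (l : ℚ_[l])⁻¹ • (w - t) ∈ L) :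
    ∃ (d : ℕ) (E : (Fin d → ℚ_[l]) ≃ₗ[ℚ_[l]] W), ∀ x, E x ∈ L ↔ ∀ i, ‖x i‖ ≤ 1 := by
  let _ : Module ℤ_[l] W := Module.compHom W (algebraMap ℤ_[l] ℚ_[l])
  have hsm : ∀ (c : ℤ_[l]) (w : W), c • w = (c : ℚ_[l]) • w := fun _ _ => rfl
  have : IsScalarTower ℤ_[l] ℚ_[l] W := ⟨fun a b w => by
    rw [hsm, Algebra.smul_def, mul_smul]; rfl⟩
  let T : Submodule ℤ_[l] W :=
    { L with smul_mem' := fun c w hw => h0 c c.2 w hw }
  have hT : ∀ w, w ∈ T ↔ w ∈ L := fun _ => Iff.rfl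
  let I := IsLocalRing.maximalIdeal ℤ_[l]
  have hI : ∀ (n : ℕ) (t : T), t ∈ (I ^ n • ⊤ : Submodule ℤ_[l] T) ↔
      ((l : ℚ_[l]) ^ n)⁻¹ • (t : W) ∈ L := fun n t => by
    rw [show I = Ideal.span {(l : ℤ_[l])} from PadicInt.maximalIdeal_eq_span_p,
      Ideal.span_singleton_pow, Submodule.ideal_span_singleton_smul,
      Submodule.mem_smul_pointwise_iff_exists]
    have e : ∀ w : W, (l : ℤ_[l]) ^ n • w = (l : ℚ_[l]) ^ n • w := fun w => by
      rw [hsm]; simp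
    constructor
    · rintro ⟨u, -, rfl⟩
      rw [Submodule.coe_smul, e, inv_smul_smul₀ (pow_ne_zero n l_ne)]
      exact u.2
    · intro h
      exact ⟨⟨_, h⟩, trivial, Subtype.ext
        ((e _).trans (smul_inv_smul₀ (pow_ne_zero n l_ne) _))⟩
  have : IsHausdorff I T := ⟨fun t ht => Subtype.ext (h2 _ fun n =>
    (hI n t).1 (by simpa [SModEq.zero] using ht n))⟩
  obtain ⟨n, g, hg⟩ := hs.fin_param
  have : IsPrecomplete I (Fin n → ℤ_[l]) := AdicCompletion.of_surjective_iff.1 fun y => by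
    choose x hx using fun i =>
      AdicCompletion.of_surjective I ℤ_[l] (AdicCompletion.piEquivFin I n y i)
    refine ⟨x, (AdicCompletion.piEquivFin I n).injective (funext fun i => ?_)⟩
    rw [← hx i, AdicCompletion.piEquivFin_apply]
    rfl
  let g' : Fin n → T := fun i => ⟨g i, hL _ (hg.2 ▸ Set.mem_range_self i)⟩
  have hsur := surjective_of_mkQ_comp_surjective (I := I)
    (f := Fintype.linearCombination ℤ_[l] g') fun y => by
      obtain ⟨w, rfl⟩ := Submodule.mkQ_surjective _ y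
      obtain ⟨t, ht, e⟩ := h3 w w.2
      rw [← hg.2] at ht
      obtain ⟨i, rfl⟩ := ht
      refine ⟨Pi.single i 1, ?_⟩
      rw [LinearMap.comp_apply, Fintype.linearCombination_apply_single, one_smul, eq_comm,
        Submodule.mkQ_apply, Submodule.mkQ_apply, Submodule.Quotient.eq, ← pow_one I, hI, pow_one]
      exact e
  have : Module.Finite ℤ_[l] T := Module.Finite.of_surjective _ hsur
  have : Module.IsTorsionFree ℤ_[l] W := Module.IsTorsionFree.of_smul_eq_zero fun c w h => by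
    rw [hsm, smul_eq_zero] at h
    exact h.imp_left fun h => Subtype.ext h
  have : IsLocalizedModule (nonZeroDivisors ℤ_[l]) T.subtype := by
    refine ⟨fun c => ?_, fun w => ?_, fun {a b} h => ⟨1, by rw [Subtype.ext h]⟩⟩
    · have hc : ((c : ℤ_[l]) : ℚ_[l]) ≠ 0 := fun h =>
        nonZeroDivisors.ne_zero c.2 (Subtype.ext h)
      exact (Module.End.isUnit_iff _).2 ⟨fun a b h => smul_right_injective W hc h,
        fun w => ⟨((c : ℤ_[l]) : ℚ_[l])⁻¹ • w, smul_inv_smul₀ hc w⟩⟩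
    · obtain ⟨k, hk⟩ := h1 w
      refine ⟨(⟨_, hk⟩, ⟨l ^ k, mem_nonZeroDivisors_of_ne_zero (pow_ne_zero k
        (Nat.cast_ne_zero.2 (Fact.out : l.Prime).ne_zero))⟩), ?_⟩
      change (l : ℤ_[l]) ^ k • w = (l : ℚ_[l]) ^ k • w
      rw [hsm]; simp
  let b := Module.finBasis ℤ_[l] T
  let B := b.ofIsLocalizedModule ℚ_[l] (nonZeroDivisors ℤ_[l]) T.subtype
  refine ⟨_, B.equivFun.symm, fun x => ⟨fun h => fun i => ?_, fun h => ?_⟩⟩
  · have := b.ofIsLocalizedModule_repr_apply ℚ_[l] (nonZeroDivisors ℤ_[l]) T.subtype ⟨_, h⟩ i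
    rw [Submodule.subtype_apply, ← Module.Basis.equivFun_apply, LinearEquiv.apply_symm_apply]
      at this
    rw [this]
    exact PadicInt.norm_le_one _
  · rw [Module.Basis.equivFun_symm_apply]
    refine L.sum_mem fun i _ => h0 _ (h i) _ ?_
    rw [Module.Basis.ofIsLocalizedModule_apply]
    exact (b i).2

lemma norm_inv_pow (n : ℕ) {x : ℚ_[l]} (hx : ‖x * ((l : ℚ_[l]) ^ n)⁻¹‖ ≤ 1) :
    ∃ z : ℤ_[l], x = (l : ℚ_[l]) ^ n * z :=
  ⟨⟨_, hx⟩, by
    change x = _ * (x * _)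
    rw [mul_comm x, mul_inv_cancel_left₀ (pow_ne_zero n l_ne)]⟩

/-- The kernel of `ev` is a lattice. -/
theorem Cof.basis (h : Cof l M) : ∃ (d : ℕ) (E : (Fin d → ℚ_[l]) ≃ₗ[ℚ_[l]] V l M),
    ∀ x, ev l M (E x) = 0 ↔ ∀ i, ‖x i‖ ≤ 1 := by
  classical
  have hs : ∀ (c : ℚ_[l]) (f : V l M), ev l M (c • f) = f.1 c := fun c f =>
    congrArg f.1 (one_mul c)
  let σ : M → V l M := fun m =>
    if h : ∃ f : V l M, ev l M f = 0 ∧ f.1 (l : ℚ_[l])⁻¹ = m then h.choose else 0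
  have hσ : ∀ m, ev l M (σ m) = 0 := fun m => by
    simp only [σ]
    split_ifs with h
    · exact h.choose_spec.1
    · exact map_zero _
  refine lattice (ev l M).ker (fun c hc w hw => (hs c w).trans (V.ev_zero hw hc))
    (fun w => (V.exists_pow w).imp fun n hn => (hs _ w).trans hn)
    (fun w hw => V.ext_pow fun n => (hs _ w).symm.trans (hw n))
    (σ '' {m | l • m = 0}) (h.2.image _) (by rintro _ ⟨m, -, rfl⟩; exact hσ m) fun w hw =>
      ⟨_, ⟨w.1 (l : ℚ_[l])⁻¹, ?_, rfl⟩, (hs _ _).trans ?_⟩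
  · have := V.pow_smul w 1 1
    rw [pow_one, pow_one, one_mul] at this
    exact this.trans hw
  · have h1 : ∃ f : V l M, ev l M f = 0 ∧ f.1 (l : ℚ_[l])⁻¹ = w.1 (l : ℚ_[l])⁻¹ := ⟨w, hw, rfl⟩
    rw [V.sub_apply, sub_eq_zero]
    simp only [σ, dif_pos h1]
    exact h1.choose_spec.2.symm

theorem Cof.finiteDimensional (h : Cof l M) : FiniteDimensional ℚ_[l] (V l M) := by
  obtain ⟨d, E, -⟩ := h.basis
  exact E.finiteDimensional

/-- LAT -/
theorem Cof.lat (h : Cof l M) : ∃ (d : ℕ) (E : (Fin d → ℚ_[l]) ≃ₗ[ℚ_[l]] V l M)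
    (mat : AddMonoid.End M →+* Matrix (Fin d) (Fin d) ℤ_[l]),
    (∀ x, ev l M (E x) = 0 ↔ ∀ i, ‖x i‖ ≤ 1) ∧
    (∀ (g : AddMonoid.End M) v,
      E (Matrix.toLin' ((mat g).map (algebraMap ℤ_[l] ℚ_[l])) v) = Vm l g (E v)) ∧
    ∀ (g : AddMonoid.End M) (n : ℕ), (∀ m, l ^ n • m = 0 → g m = 0) →
      ∀ a b, (l : ℤ_[l]) ^ n ∣ mat g a b := by
  obtain ⟨d, E, hE⟩ := h.basis
  let A : AddMonoid.End M →+* Matrix (Fin d) (Fin d) ℚ_[l] :=
    ((LinearMap.toMatrixAlgEquiv' (R := ℚ_[l]) (n := Fin d)).toRingEquiv.toRingHom.comp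
      (E.symm.conjRingEquiv).toRingHom).comp (VEnd l M)
  have hA : ∀ g a b, A g a b = E.symm (Vm l g (E (Pi.single b 1))) a := fun g a b => by
    simp [A, VEnd]
  have hb : ∀ b, ev l M (E (Pi.single b 1)) = 0 := fun b => (hE _).2 fun i => by
    rw [Pi.single_apply]
    split_ifs <;> simp
  have h1 : ∀ g a b, ‖A g a b‖ ≤ 1 := fun g a b => by
    rw [hA]
    refine (hE _).1 ?_ a
    rw [E.apply_symm_apply]
    exact (congrArg g (hb b)).trans (map_zero g)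
  have inj : Function.Injective (algebraMap ℤ_[l] ℚ_[l]).mapMatrix.toFun :=
    Matrix.map_injective (m := Fin d) (n := Fin d) Subtype.val_injective
  let B : AddMonoid.End M → Matrix (Fin d) (Fin d) ℤ_[l] := fun g a b => ⟨A g a b, h1 g a b⟩
  have hB : ∀ g, (algebraMap ℤ_[l] ℚ_[l]).mapMatrix (B g) = A g := fun _ => rfl
  refine ⟨d, E, ⟨⟨⟨B, inj ?_⟩, fun x y => inj ?_⟩, inj ?_, fun x y => inj ?_⟩, hE,
    fun g v => ?_, fun g n hg a b => ?_⟩
  · exact (hB 1).trans ((map_one A).trans (map_one (algebraMap ℤ_[l] ℚ_[l]).mapMatrix).symm)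
  · exact (hB _).trans ((map_mul A x y).trans (map_mul (algebraMap ℤ_[l] ℚ_[l]).mapMatrix
      (B x) (B y)).symm)
  · exact (hB 0).trans ((map_zero A).trans (map_zero (algebraMap ℤ_[l] ℚ_[l]).mapMatrix).symm)
  · exact (hB _).trans ((map_add A x y).trans (map_add (algebraMap ℤ_[l] ℚ_[l]).mapMatrix
      (B x) (B y)).symm)
  · change E (Matrix.toLin' (LinearMap.toMatrix' (E.symm.conjRingEquiv (Vm l g))) v) = _
    rw [Matrix.toLin'_toMatrix']
    simp
  · obtain ⟨z, hz⟩ := norm_inv_pow (l := l) n (x := A g a b) (by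
      have := (hE (((l : ℚ_[l]) ^ n)⁻¹ • E.symm (Vm l g (E (Pi.single b 1))))).1 (by
        rw [map_smul, E.apply_symm_apply]
        exact hg _ ((V.pow_smul _ n 1).trans (hb b))) a
      rwa [Pi.smul_apply, smul_eq_mul, mul_comm, ← hA] at this)
    exact ⟨z, Subtype.ext (by simpa using hz)⟩

end Pool.Agent.MP_855f4c_ag.E

end

section

namespace Pool.Agent.MP_855f4c_ag.E

set_option linter.unusedSectionVars false

universe u

variable {l : ℕ} [Fact l.Prime] {M N R : Type u} [AddCommGroup M] [AddCommGroup N] [AddCommGroup R]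

lemma fin_fib {A : Type u} {B : Type u} [AddCommGroup A] [AddCommGroup B] (φ : A →+ B) {S : Set A}
    (hS : ∀ a ∈ S, ∀ b ∈ S, a - b ∈ S) (h1 : (φ '' S).Finite) (h2 : {a ∈ S | φ a = 0}.Finite) :
    S.Finite := by
  refine Set.Finite.of_finite_fibers φ h1 fun b hb => ?_
  obtain ⟨a, ha, rfl⟩ := hb
  refine (h2.image (· + a)).subset fun x hx => ⟨x - a, ⟨hS x hx.1 a ha, ?_⟩, sub_add_cancel x a⟩
  rw [map_sub, show φ x = φ a from hx.2, sub_self]

omit [Fact l.Prime] in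
lemma Cof.sub (h : Cof l N) (φ : M →+ N)
    (hφ : Function.Injective φ) : Cof l M :=
  ⟨fun m => (h.1 (φ m)).imp fun n hn => hφ (by rw [map_nsmul, hn, map_zero]),
    (h.2.preimage hφ.injOn).subset fun m hm => by
      change l • φ m = 0
      rw [← map_nsmul, show l • m = 0 from hm, map_zero]⟩

omit [Fact l.Prime] in
lemma Cof.subgroup (h : Cof l N) (S : AddSubgroup N) : Cof l S :=
  h.sub S.subtype Subtype.val_injective

lemma Cof.quo (h : Cof l M) (φ : M →+ N)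
    (hφ : Function.Surjective φ) : Cof l N := by
  refine ⟨fun n => ?_, ?_⟩
  · obtain ⟨m, rfl⟩ := hφ n
    exact (h.1 m).imp fun k hk => by rw [← map_nsmul, hk, map_zero]
  · obtain ⟨c, hc⟩ := (h.subgroup φ.ker).div
    refine ((h.fin (c + 1)).image φ).subset fun n hn => ?_
    obtain ⟨m, rfl⟩ := hφ n
    obtain ⟨y, hy⟩ := hc (c + 1) ⟨l • m, by rw [AddMonoidHom.mem_ker, map_nsmul]; exact hn⟩
    refine ⟨m - y, ?_, by rw [map_sub, show φ y = 0 from y.2, sub_zero]⟩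
    change l ^ (c + 1) • (m - y) = 0
    rw [smul_sub, pow_succ, mul_smul, sub_eq_zero, ← pow_succ]
    exact congrArg Subtype.val hy

lemma Cof.range (h : Cof l M) (φ : M →+ N) : Cof l φ.range :=
  h.quo φ.rangeRestrict φ.rangeRestrict_surjective

/-- The middle term of an exact sequence. -/
lemma Cof.ext (h1 : Cof l M) (h3 : Cof l R) {φ : M →+ N}
    {ψ : N →+ R} (he : Function.Exact φ ψ) : Cof l N := by
  refine ⟨fun n => ?_, fin_fib ψ (fun a ha b hb => ?_) (h3.2.subset ?_) ?_⟩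
  · obtain ⟨a, ha⟩ := h3.1 (ψ n)
    obtain ⟨m, hm⟩ := (he (l ^ a • n)).1 (by rw [map_nsmul, ha])
    obtain ⟨b, hb⟩ := h1.1 m
    exact ⟨b + a, by rw [pow_add, mul_smul, ← hm, ← map_nsmul, hb, map_zero]⟩
  · change l • (a - b) = 0
    rw [smul_sub, show l • a = 0 from ha, show l • b = 0 from hb, sub_self]
  · rintro _ ⟨a, ha, rfl⟩
    change l • ψ a = 0
    rw [← map_nsmul, show l • a = 0 from ha, map_zero]
  · exact ((h1.range φ).2.image Subtype.val).subset fun a ha =>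
      ⟨⟨a, (he a).1 ha.2⟩, Subtype.ext ha.1, rfl⟩

omit [Fact l.Prime] in
lemma cof_pi {ι : Type} [Finite ι] {A : ι → Type u} [∀ i, AddCommGroup (A i)]
    (h : ∀ i, Cof l (A i)) : Cof l (∀ i, A i) := by
  refine ⟨fun m => ?_, (Set.Finite.pi' fun i => (h i).2).subset fun m hm i => congrFun hm i⟩
  choose n hn using fun i => (h i).1 (m i)
  obtain ⟨b, hb⟩ := (Set.finite_range n).bddAbove
  refine ⟨b, funext fun i => ?_⟩
  obtain ⟨d, hd⟩ := Nat.exists_eq_add_of_le' (hb ⟨i, rfl⟩)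
  change l ^ b • m i = 0
  rw [hd, pow_add, mul_smul, hn, smul_zero]

lemma cof_prod (h1 : Cof l M) (h2 : Cof l N) : Cof l (M × N) :=
  h1.ext h2 (φ := AddMonoidHom.inl M N) (ψ := AddMonoidHom.snd M N) fun x =>
    ⟨fun h => ⟨x.1, Prod.ext rfl (Eq.symm h)⟩, by rintro ⟨a, rfl⟩; rfl⟩

omit [Fact l.Prime] in
lemma cof_fin [Finite M] (h : ∀ m : M, ∃ n : ℕ, l ^ n • m = 0) : Cof l M := ⟨h, Set.toFinite _⟩

lemma V_div (f : V l M) (n : ℕ) (x : ℚ_[l]) : f.1 x = l ^ n • f.1 (x * ((l : ℚ_[l]) ^ n)⁻¹) :=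
  (V.pow_smul f n x).symm

/-- Lifting along `φ`. -/
lemma V_lift (h : Cof l M) (φ : M →+ N) (f : V l N) (hf : ∀ x, f.1 x ∈ φ.range) :
    ∃ g : V l M, Vm l φ g = f := by
  obtain ⟨c, hc⟩ := (h.subgroup φ.ker).div
  choose p hp using fun k : ℕ => hf ((l : ℚ_[l]) ^ k)⁻¹
  have h1 : ∀ k d : ℕ, l ^ d • f.1 ((l : ℚ_[l]) ^ (k + d))⁻¹ = f.1 ((l : ℚ_[l]) ^ k)⁻¹ :=
    fun k d => by rw [V_div f d ((l : ℚ_[l]) ^ k)⁻¹, ← mul_inv, ← pow_add]
  let δ : ℕ → φ.ker := fun k => ⟨l • p (k + 1) - p k, by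
    rw [AddMonoidHom.mem_ker, map_sub, map_nsmul, hp, hp, ← h1 k 1, pow_one, sub_self]⟩
  choose s hs using hc (c + 1)
  let e : ℕ → φ.ker := fun k => Nat.rec 0 (fun k y => s (y - δ (k + c))) k
  obtain ⟨a, ha⟩ := h.1 (l ^ c • (p (0 + c) + (e 0).1))
  obtain ⟨g, hg⟩ := exists_V (l := l) (fun k => l ^ c • (p (k + c) + (e k).1)) (fun k => by
    have h2 := congrArg Subtype.val (hs (e k - δ (k + c)))
    change l ^ c • ((e k : M) - (l • p (k + c + 1) - p (k + c))) = l ^ (c + 1) • (e (k + 1) : M) at h2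
    rw [smul_smul, ← pow_succ', smul_add, ← h2, add_right_comm k 1 c, pow_succ, mul_smul, ← smul_add]
    congr 1
    abel) a ha
  refine ⟨g, V.ext_pow fun k => ?_⟩
  rw [Vm_apply, hg, map_nsmul, map_add, show φ (e k).1 = 0 from (e k).2, add_zero, hp, h1]

/-- EX: `V` is exact. -/
theorem V_exact (h : Cof l M) {φ : M →+ N} {ψ : N →+ R} (he : Function.Exact φ ψ) :
    Function.Exact (Vm l φ) (Vm l ψ) := fun f =>
  ⟨fun hf => V_lift h φ f fun x => (he _).1 (congrArg (fun g : V l R => g.1 x) hf), by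
    rintro ⟨g, rfl⟩
    exact V.ext fun x => (he _).2 ⟨_, rfl⟩⟩

/-- Exactness up to bounded torsion is enough. -/
theorem V_exact' (h : Cof l M) {φ : M →+ N} {ψ : N →+ R} (a b : ℕ) (h1 : ∀ m, l ^ a • ψ (φ m) = 0)
    (h2 : ∀ n, ψ n = 0 → l ^ b • n ∈ φ.range) : Function.Exact (Vm l φ) (Vm l ψ) := fun f =>
  ⟨fun hf => V_lift h φ f fun x => by
    rw [V_div f b]; exact h2 _ (congrArg (fun g : V l R => g.1 _) hf), by
    rintro ⟨g, rfl⟩
    refine V.ext fun x => ?_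
    rw [V_div _ a]
    exact h1 _⟩

theorem V_inj {φ : M →+ N} (n : ℕ) (h : ∀ m, φ m = 0 → l ^ n • m = 0) :
    Function.Injective (Vm l φ) :=
  (injective_iff_map_eq_zero _).2 fun f hf => V.ext fun x => by
    rw [V_div f n]; exact h _ (congrArg (fun g : V l N => g.1 _) hf)

theorem V_surj (h : Cof l M) {φ : M →+ N} (n : ℕ) (hn : ∀ y, l ^ n • y ∈ φ.range) :
    Function.Surjective (Vm l φ) := fun f => V_lift h φ f fun x => by rw [V_div f n]; exact hn _

theorem V_zero (n : ℕ) (h : ∀ m : M, l ^ n • m = 0) (f : V l M) : f = 0 :=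
  V.ext fun x => by rw [V_div f n]; exact h _

theorem Vm_eq_zero {φ : M →+ N} (n : ℕ) (h : ∀ m : M, l ^ n • φ m = 0) : Vm l φ = 0 :=
  LinearMap.ext fun f => V.ext fun x => by rw [V_div _ n]; exact h _

/-- `V` commutes with finite products. -/
noncomputable def Vpi (l : ℕ) [Fact l.Prime] {ι : Type} [Finite ι] (A : ι → Type u)
    [∀ i, AddCommGroup (A i)] : V l (∀ i, A i) ≃ₗ[ℚ_[l]] ∀ i, V l (A i) :=
  LinearEquiv.ofBijective (LinearMap.pi fun i => Vm l (Pi.evalAddMonoidHom A i))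
    ⟨fun f g h => V.ext fun x => funext fun i => congrArg (fun v : V l (A i) => v.1 x) (congrFun h i),
    fun f => by
      choose r hr h0 using fun i => (f i).2
      obtain ⟨s, hs, h1⟩ : ∃ s : ℝ, 0 < s ∧ ∀ i, s ≤ r i := by
        cases isEmpty_or_nonempty ι
        · exact ⟨1, one_pos, isEmptyElim⟩
        · obtain ⟨i, hi⟩ := Finite.exists_min r
          exact ⟨r i, hr i, hi⟩
      exact ⟨⟨AddMonoidHom.pi fun i => ((f i).1 : ℚ_[l] →+ A i), s, hs,
        fun x hx => funext fun i => h0 i x (hx.trans_le (h1 i))⟩, rfl⟩⟩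

lemma Vpi_apply {ι : Type} [Finite ι] (A : ι → Type u) [∀ i, AddCommGroup (A i)]
    (f : V l (∀ i, A i)) (i : ι) : Vpi l A f i = Vm l (Pi.evalAddMonoidHom A i) f := rfl

/-! ### Duality -/

lemma QZ.mk_zero {x : ℚ_[l]} : (QuotientAddGroup.mk x : QZ l) = 0 ↔ ‖x‖ ≤ 1 :=
  QuotientAddGroup.eq_zero_iff x

lemma QZ.mk_eq {x y : ℚ_[l]} : (QuotientAddGroup.mk x : QZ l) = QuotientAddGroup.mk y ↔ ‖x - y‖ ≤ 1 := by
  rw [← sub_eq_zero, ← QuotientAddGroup.mk_sub, QZ.mk_zero]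

variable (l) in
/-- `a ↦ (x ↦ [x a])`. -/
noncomputable def eps0 : ℚ_[l] →ₗ[ℚ_[l]] V l (QZ l) :=
  LinearMap.toSpanSingleton ℚ_[l] _ ⟨QuotientAddGroup.mk' _, 1, one_pos,
    fun _ hx => QZ.mk_zero.2 hx.le⟩

lemma eps0_apply (a x : ℚ_[l]) : (eps0 l a).1 x = QuotientAddGroup.mk (x * a) := rfl

lemma eps0_inj : Function.Injective (eps0 l) :=
  (injective_iff_map_eq_zero _).2 fun a ha => by
    by_contra h
    have h1 : (eps0 l a).1 ((l : ℚ_[l])⁻¹ * a⁻¹) = 0 := by rw [ha]; rfl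
    rw [eps0_apply, QZ.mk_zero, mul_assoc, inv_mul_cancel₀ h, mul_one, norm_inv] at h1
    exact absurd h1 (not_le.2 ((one_lt_inv₀ (norm_pos_iff.2 l_ne)).2 Padic.norm_p_lt_one))

lemma eps0_surj : Function.Surjective (eps0 l) := fun f => by
  choose b hb using fun k : ℕ => QuotientAddGroup.mk_surjective (f.1 ((l : ℚ_[l]) ^ k)⁻¹)
  have h0 := norm_nonneg (l : ℚ_[l])
  have h1 := Padic.norm_p_lt_one (p := l)
  have h2 : ∀ k d : ℕ, ‖(l : ℚ_[l]) ^ (k + d) * b (k + d) - l ^ k * b k‖ ≤ ‖(l : ℚ_[l])‖ ^ k :=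
    fun k d => by
      have h3 : ‖(l : ℚ_[l]) ^ d * b (k + d) - b k‖ ≤ 1 := by
        rw [← QZ.mk_eq, hb, V_div f d, ← mul_inv, ← pow_add, ← hb, ← QuotientAddGroup.mk_nsmul,
          nsmul_eq_mul, Nat.cast_pow]
      rw [pow_add, mul_assoc, ← mul_sub, norm_mul, norm_pow]
      exact mul_le_of_le_one_right (by positivity) h3
  have h3 : CauchySeq fun k : ℕ => (l : ℚ_[l]) ^ k * b k :=
    cauchySeq_of_le_geometric _ 1 h1 fun k => by
      rw [dist_comm, dist_eq_norm, one_mul]; exact h2 k 1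
  obtain ⟨a, ha⟩ := cauchySeq_tendsto_of_complete h3
  refine ⟨a, V.ext_pow fun k => ?_⟩
  have h4 : ‖a - l ^ k * b k‖ ≤ ‖(l : ℚ_[l])‖ ^ k :=
    le_of_tendsto ((ha.sub_const _).norm) (Filter.eventually_atTop.2 ⟨k, fun n hn => by
      obtain ⟨d, rfl⟩ := Nat.exists_eq_add_of_le hn
      exact h2 k d⟩)
  have h5 : ((l : ℚ_[l]) ^ k)⁻¹ * a - b k = ((l : ℚ_[l]) ^ k)⁻¹ * (a - l ^ k * b k) := by
    rw [mul_sub, inv_mul_cancel_left₀ (pow_ne_zero k l_ne)]
  rw [eps0_apply, ← hb, QZ.mk_eq, h5, norm_mul, norm_inv, norm_pow]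
  exact inv_mul_le_one_of_le₀ h4 (by positivity)

variable (l) in
/-- `V (ℚ_l / ℤ_l) = ℚ_l`. -/
noncomputable def eps : ℚ_[l] ≃ₗ[ℚ_[l]] V l (QZ l) :=
  LinearEquiv.ofBijective (eps0 l) ⟨eps0_inj, eps0_surj⟩

lemma cof_QZ : Cof l (QZ l) := by
  refine ⟨fun m => ?_, ((Set.finite_range fun i : Fin l =>
    (QuotientAddGroup.mk (((i : ℕ) : ℚ_[l]) * (l : ℚ_[l])⁻¹) : QZ l))).subset fun m hm => ?_⟩
  · obtain ⟨x, rfl⟩ := QuotientAddGroup.mk_surjective m
    obtain ⟨n, hn⟩ := V.exists_pow (eps0 l x)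
    exact ⟨n, by rw [← QuotientAddGroup.mk_nsmul, nsmul_eq_mul, Nat.cast_pow]; exact hn⟩
  · obtain ⟨x, rfl⟩ := QuotientAddGroup.mk_surjective m
    have h1 : ‖(l : ℚ_[l]) * x‖ ≤ 1 := by
      rw [← QZ.mk_zero, ← nsmul_eq_mul, QuotientAddGroup.mk_nsmul]; exact hm
    obtain ⟨y, hy⟩ := Ideal.mem_span_singleton.1 (PadicInt.appr_spec 1 ⟨_, h1⟩)
    have h2 : (l : ℚ_[l]) * x - (PadicInt.appr ⟨_, h1⟩ 1 : ℕ) = l * (y : ℚ_[l]) := by
      have := congrArg (fun z : ℤ_[l] => (z : ℚ_[l])) hy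
      simp only [PadicInt.coe_natCast, PadicInt.coe_mul, pow_one] at this
      exact this
    refine ⟨⟨PadicInt.appr ⟨_, h1⟩ 1, by simpa using PadicInt.appr_lt ⟨_, h1⟩ 1⟩, ?_⟩
    have h3 : ((PadicInt.appr ⟨_, h1⟩ 1 : ℕ) : ℚ_[l]) * (l : ℚ_[l])⁻¹ - x = -y := by
      have := l_ne (l := l)
      field_simp
      linear_combination -h2
    rw [QZ.mk_eq, h3, norm_neg]
    exact y.2

/-- `V` of a map into `ℚ_l / ℤ_l` (the universes may differ). -/
noncomputable def VQ (f : M →+ QZ l) : V l M →ₗ[ℚ_[l]] V l (QZ l) where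
  toFun v := ⟨f.comp (v.1 : ℚ_[l] →+ M), by
    obtain ⟨r, hr, hv⟩ := v.2
    exact ⟨r, hr, fun x hx => (congrArg f (hv x hx)).trans (map_zero f)⟩⟩
  map_add' v w := Subtype.ext (AddMonoidHom.ext fun x => map_add f _ _)
  map_smul' _ _ := rfl

variable (l M) in
/-- The functional on `V M` attached to a character of `M`. -/
noncomputable def kap : (M →+ QZ l) →+ Module.Dual ℚ_[l] (V l M) :=
  AddMonoidHom.mk' (fun f => (eps l).symm.toLinearMap ∘ₗ VQ f) fun f g =>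
    LinearMap.ext fun v => by
      change (eps l).symm (VQ f v + VQ g v) = _
      rw [map_add]; rfl

lemma kap_spec (f : M →+ QZ l) (v : V l M) (x : ℚ_[l]) :
    f (v.1 x) = QuotientAddGroup.mk (x * kap l M f v) :=
  congrArg (fun w : V l (QZ l) => w.1 x) ((eps l).apply_symm_apply (VQ f v)).symm

lemma kap_eq_iff {f : M →+ QZ l} {v : V l M} {a : ℚ_[l]} :
    kap l M f v = a ↔ ∀ x, f (v.1 x) = QuotientAddGroup.mk (x * a) :=
  ⟨fun h x => h ▸ kap_spec f v x, fun h => eps0_inj (V.ext fun x => (kap_spec f v x).symm.trans (h x))⟩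

lemma kap_ev (f : M →+ QZ l) (v : V l M) : f (ev l M v) = QuotientAddGroup.mk (kap l M f v) :=
  (kap_spec f v 1).trans (by rw [one_mul])

/-- naturality -/
lemma kap_comp (f : N →+ QZ l) (φ : M →+ N) : kap l M (f.comp φ) = kap l N f ∘ₗ Vm l φ := rfl

variable (l) in
/-- Multiplication by an `l`-adic integer on `ℚ_l / ℤ_l`. -/
noncomputable def QZ.mul (c : ℤ_[l]) : QZ l →+ QZ l :=
  QuotientAddGroup.map _ _ (AddMonoidHom.mulLeft (c : ℚ_[l])) fun _ hx => Subring.mul_mem _ c.2 hx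

lemma QZ.mul_mk (c : ℤ_[l]) (x : ℚ_[l]) :
    QZ.mul l c (QuotientAddGroup.mk x) = QuotientAddGroup.mk ((c : ℚ_[l]) * x) := rfl

lemma kap_mul (c : ℤ_[l]) (f : M →+ QZ l) :
    kap l M ((QZ.mul l c).comp f) = (c : ℚ_[l]) • kap l M f :=
  LinearMap.ext fun v => kap_eq_iff.2 fun x => by
    rw [AddMonoidHom.comp_apply, kap_spec, QZ.mul_mk, LinearMap.smul_apply, smul_eq_mul,
      mul_left_comm]

lemma kap_zero_iff {f : M →+ QZ l} : kap l M f = 0 ↔ ∀ v, f (ev l M v) = 0 :=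
  ⟨fun h v => by rw [kap_ev, h]; rfl, fun h => LinearMap.ext fun v => kap_eq_iff.2 fun x => by
    have := h (x • v)
    rw [ev_apply, V.smul_apply, one_mul] at this
    rw [this, LinearMap.zero_apply, mul_zero]; rfl⟩

/-- The kernel of `kap` is killed by a power of `l`. -/
theorem Cof.kap_ker (h : Cof l M) : ∃ c : ℕ, ∀ f : M →+ QZ l, kap l M f = 0 → l ^ c • f = 0 := by
  obtain ⟨c, hc⟩ := h.range_ev
  refine ⟨c, fun f hf => AddMonoidHom.ext fun m => ?_⟩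
  obtain ⟨v, hv⟩ := (hc _).2 ⟨m, rfl⟩
  change l ^ c • f m = 0
  rw [← map_nsmul, ← hv]
  exact kap_zero_iff.1 hf v

/-- Characters extend from subgroups. -/
lemma QZ.extend (φ : M →+ N) (hφ : Function.Injective φ) (f : M →+ QZ l) :
    ∃ g : N →+ QZ l, g.comp φ = f := by
  let _ : DivisibleBy (QZ l) ℤ := divisibleByOfSMulRightSurj _ _ fun {n} hn m => by
    obtain ⟨x, rfl⟩ := QuotientAddGroup.mk_surjective m
    exact ⟨QuotientAddGroup.mk (x / n), by
      change n • _ = _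
      rw [← QuotientAddGroup.mk_zsmul, zsmul_eq_mul, mul_div_cancel₀ _ (Int.cast_ne_zero.2 hn)]⟩
  exact (Module.Baer.of_divisible (QZ l)).extension_property_addMonoidHom φ hφ f

/-- The range of `kap`: the functionals that are integral on the lattice. -/
theorem kap_range (lam : Module.Dual ℚ_[l] (V l M)) :
    (∃ f, kap l M f = lam) ↔ ∀ v, ev l M v = 0 → ‖lam v‖ ≤ 1 := by
  refine ⟨?_, fun h => ?_⟩
  · rintro ⟨f, rfl⟩ v hv
    rw [← QZ.mk_zero, ← kap_ev, hv, map_zero]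
  · obtain ⟨f, hf⟩ := QZ.extend (QuotientAddGroup.kerLift (ev l M))
      (QuotientAddGroup.kerLift_injective _) (QuotientAddGroup.lift _
        ((QuotientAddGroup.mk' _).comp lam.toAddMonoidHom) fun v hv => QZ.mk_zero.2 (h v hv))
    refine ⟨f, LinearMap.ext fun v => kap_eq_iff.2 fun x => ?_⟩
    have h1 : f (ev l M (x • v)) = QuotientAddGroup.mk (lam (x • v)) :=
      DFunLike.congr_fun hf (QuotientAddGroup.mk (x • v))
    rwa [ev_apply, V.smul_apply, one_mul, map_smul, smul_eq_mul] at h1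

/-- Every functional is a character up to a power of `l`. -/
theorem Cof.kap_surj (h : Cof l M) (lam : Module.Dual ℚ_[l] (V l M)) :
    ∃ (n : ℕ) (f : M →+ QZ l), kap l M f = (l : ℚ_[l]) ^ n • lam := by
  classical
  obtain ⟨d, E, hE⟩ := h.basis
  obtain ⟨B, hB⟩ := (Set.finite_range fun i => ‖lam (E (Pi.single i 1))‖).bddAbove
  obtain ⟨n, hn⟩ := exists_pow_lt_of_lt_one (inv_pos.2 (by positivity : 0 < |B| + 1))
    (Padic.norm_p_lt_one (p := l))
  refine ⟨n, (kap_range _).2 fun v hv => ?_⟩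
  obtain ⟨x, rfl⟩ := E.surjective v
  have e : x = ∑ i, x i • Pi.single i (1 : ℚ_[l]) := pi_eq_sum_univ' x
  rw [e, map_sum, map_sum]
  refine IsUltrametricDist.norm_sum_le_of_forall_le_of_nonneg zero_le_one fun i _ => ?_
  rw [map_smul, map_smul, LinearMap.smul_apply, smul_eq_mul, smul_eq_mul, norm_mul, norm_mul,
    norm_pow]
  have h1 : ‖lam (E (Pi.single i 1))‖ ≤ |B| + 1 :=
    (hB ⟨i, rfl⟩).trans ((le_abs_self B).trans (le_add_of_nonneg_right zero_le_one))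
  refine mul_le_one₀ ((hE x).1 hv i) (by positivity) ?_
  exact (mul_le_mul hn.le h1 (norm_nonneg _) (by positivity)).trans
    (inv_mul_cancel₀ (by positivity)).le

end Pool.Agent.MP_855f4c_ag.E

end

section

namespace Pool.Agent.MP_855f4c_ag.E

open Polynomial Module

universe u

section Lin

variable {K : Type} [Field K] {A B D : Type*} [AddCommGroup A] [Module K A] [AddCommGroup B]
  [Module K B] [AddCommGroup D] [Module K D]

/-- `g` is killed by a polynomial all of whose complex roots have `‖z‖ ^ 2` in `S`. -/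
def EvL (j : K →+* ℂ) (S : Set ℝ) (g : End K A) : Prop :=
  ∃ P : K[X], P ≠ 0 ∧ aeval g P = 0 ∧ ∀ z : ℂ, P.eval₂ j z = 0 → ‖z‖ ^ 2 ∈ S

variable {j : K →+* ℂ} {S : Set ℝ}

lemma aeval_inter (i : A →ₗ[K] B) {a : End K A} {b : End K B} (h : b ∘ₗ i = i ∘ₗ a) (P : K[X])
    (v : A) : aeval b P (i v) = i (aeval a P v) := by
  have h1 : ∀ (n : ℕ) v, (b ^ n) (i v) = i ((a ^ n) v) := fun n => by
    induction n with
    | zero => exact fun _ => rfl
    | succ n ih =>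
      intro v
      rw [pow_succ, pow_succ, End.mul_apply, End.mul_apply, ← ih]
      exact congrArg _ (LinearMap.congr_fun h v)
  induction P using Polynomial.induction_on' with
  | add p q hp hq => rw [map_add, map_add, LinearMap.add_apply, LinearMap.add_apply, hp, hq, map_add]
  | monomial n c =>
    rw [aeval_monomial, aeval_monomial, End.mul_apply, End.mul_apply, h1,
      Module.algebraMap_end_apply, Module.algebraMap_end_apply, map_smul]

lemma EvL.mono {S' : Set ℝ} {g : End K A} (h : EvL j S g) (hS : S ⊆ S') : EvL j S' g :=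
  h.imp fun _ h => ⟨h.1, h.2.1, fun z hz => hS (h.2.2 z hz)⟩

lemma EvL.sub {a : End K A} {b : End K B} (h : EvL j S b) (i : A →ₗ[K] B)
    (hi : Function.Injective i) (hc : b ∘ₗ i = i ∘ₗ a) : EvL j S a :=
  h.imp fun P h => ⟨h.1, LinearMap.ext fun v => hi (by
    rw [← aeval_inter i hc, h.2.1, LinearMap.zero_apply, LinearMap.zero_apply, map_zero]), h.2.2⟩

lemma EvL.quo {a : End K A} {b : End K B} (h : EvL j S a) (p : A →ₗ[K] B)
    (hp : Function.Surjective p) (hc : b ∘ₗ p = p ∘ₗ a) : EvL j S b :=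
  h.imp fun P h => ⟨h.1, LinearMap.ext fun v => by
    obtain ⟨v, rfl⟩ := hp v
    rw [aeval_inter p hc, h.2.1, LinearMap.zero_apply, LinearMap.zero_apply, map_zero], h.2.2⟩

lemma EvL.ext {a : End K A} {b : End K B} {d : End K D} (ha : EvL j S a) (hd : EvL j S d)
    {i : A →ₗ[K] B} {p : B →ₗ[K] D} (he : Function.Exact i p) (hi : b ∘ₗ i = i ∘ₗ a)
    (hp : d ∘ₗ p = p ∘ₗ b) : EvL j S b := by
  obtain ⟨P, h1, h2, h3⟩ := ha
  obtain ⟨Q, h4, h5, h6⟩ := hd
  refine ⟨P * Q, mul_ne_zero h1 h4, LinearMap.ext fun v => ?_, fun z hz => ?_⟩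
  · obtain ⟨w, hw⟩ := (he (aeval b Q v)).1 (by rw [← aeval_inter p hp, h5, LinearMap.zero_apply])
    rw [map_mul, End.mul_apply, ← hw, aeval_inter i hi, h2, LinearMap.zero_apply, map_zero,
      LinearMap.zero_apply]
  · rw [eval₂_mul] at hz
    exact (mul_eq_zero.1 hz).elim (h3 z) (h6 z)

lemma evL_of_subsingleton [Subsingleton A] (g : End K A) : EvL j S g :=
  ⟨1, one_ne_zero, Subsingleton.elim _ _, fun z hz => by simp at hz⟩

lemma evL_iff [FiniteDimensional K A] {g : End K A} :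
    EvL j S g ↔ ∀ z : ℂ, (g.charpoly.map j).IsRoot z → ‖z‖ ^ 2 ∈ S := by
  refine ⟨fun ⟨P, _, h2, h3⟩ z hz => h3 z ?_, fun h => ⟨g.charpoly, g.charpoly_monic.ne_zero,
    g.aeval_self_charpoly, fun z hz => h z (by rw [IsRoot, eval_map]; exact hz)⟩⟩
  let b := Module.finBasis K A
  let _ : Algebra K ℂ := j.toAlgebra
  rw [← LinearMap.charpoly_toMatrix g b, ← Matrix.charpoly_map, ← Matrix.charpoly_toLin',
    ← End.hasEigenvalue_iff_isRoot_charpoly] at hz
  obtain ⟨v, hv⟩ := hz.exists_hasEigenvector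
  have h4 := End.aeval_apply_of_hasEigenvector (p := P.map j) hv
  let J : End K A →ₐ[K] End ℂ (Fin (finrank K A) → ℂ) :=
    ((Matrix.toLinAlgEquiv' : Matrix _ _ ℂ ≃ₐ[ℂ] _).toAlgHom.restrictScalars K).comp
      ((Algebra.ofId K ℂ).mapMatrix.comp (LinearMap.toMatrixAlgEquiv b).toAlgHom)
  have h5 : aeval (J g) P = 0 := by rw [aeval_algHom_apply, h2, map_zero]
  have h6 : aeval (Matrix.toLin' ((LinearMap.toMatrix b b g).map j)) (P.map j) = 0 :=
    (aeval_map_algebraMap ℂ (J g) P).trans h5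
  rw [h6, eval_map] at h4
  exact (smul_eq_zero.1 h4.symm).resolve_right hv.2

lemma EvL.dual {g : End K A} (h : EvL j S g) : EvL j S (g.dualMap : End K (Dual K A)) :=
  h.imp fun P h => ⟨h.1, by
    have h1 : ∀ (Q : K[X]) (f : Dual K A) v, aeval (g.dualMap : End K (Dual K A)) Q f v =
        f (aeval g Q v) := fun Q => by
      induction Q using Polynomial.induction_on with
      | C c => intro f v; simp [Module.algebraMap_end_apply]
      | add p q hp hq => intro f v; simp [hp, hq]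
      | monomial n c ih =>
        intro f v
        rw [pow_succ, ← mul_assoc, map_mul, aeval_X, End.mul_apply, ih, mul_comm _ X,
          map_mul _ X, aeval_X, End.mul_apply, LinearMap.dualMap_apply]
    exact LinearMap.ext fun f => LinearMap.ext fun v => by
      rw [h1, h.2.1, LinearMap.zero_apply, map_zero, LinearMap.zero_apply, LinearMap.zero_apply],
    h.2.2⟩

lemma EvL.of_dual [FiniteDimensional K A] {g : End K A}
    (h : EvL j S (g.dualMap : End K (Dual K A))) : EvL j S g :=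
  h.dual.sub (Module.Dual.eval K A) (Module.eval_apply_injective K) (LinearMap.ext fun _ => rfl)

lemma trace_ses [FiniteDimensional K B] {a : End K A} {b : End K B} {d : End K D} {i : A →ₗ[K] B}
    {p : B →ₗ[K] D} (hi : Function.Injective i) (he : Function.Exact i p)
    (hp : Function.Surjective p) (h1 : b ∘ₗ i = i ∘ₗ a) (h2 : d ∘ₗ p = p ∘ₗ b) :
    LinearMap.trace K B b = LinearMap.trace K A a + LinearMap.trace K D d := by
  have := Module.Finite.of_injective i hi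
  have := Module.Finite.of_surjective p hp
  obtain ⟨s, hs⟩ := p.exists_rightInverse_of_surjective (LinearMap.range_eq_top.2 hp)
  obtain ⟨r0, hr⟩ := i.exists_leftInverse_of_injective (LinearMap.ker_eq_bot.2 hi)
  let r := r0 ∘ₗ (LinearMap.id - s ∘ₗ p)
  have h3 : ∀ v, i (r v) + s (p v) = v := fun v => by
    obtain ⟨w, hw⟩ := (he (v - s (p v))).1 (by
      rw [map_sub, show p (s (p v)) = p v from LinearMap.congr_fun hs _, sub_self])
    change i (r0 (v - s (p v))) + _ = _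
    rw [← hw, show r0 (i w) = w from LinearMap.congr_fun hr w, hw, sub_add_cancel]
  have h4 : ∀ w, r (i w) = w := fun w => hi (by
    have := h3 (i w)
    rwa [(he _).2 ⟨w, rfl⟩, map_zero, add_zero] at this)
  have e : b = (b ∘ₗ i) ∘ₗ r + (b ∘ₗ s) ∘ₗ p := LinearMap.ext fun v => by
    change b v = b (i (r v)) + b (s (p v))
    rw [← map_add, h3]
  rw [e, map_add, LinearMap.trace_comp_comm', LinearMap.trace_comp_comm' p]
  congr 2
  · exact LinearMap.ext fun w => (congrArg r (LinearMap.congr_fun h1 w)).trans (h4 _)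
  · exact LinearMap.ext fun w => (LinearMap.congr_fun h2 (s w)).symm.trans
      (congrArg d (LinearMap.congr_fun hs w))

/-- The trace on the image of an intertwiner. -/
noncomputable def trIm (i : A →ₗ[K] B) (b : End K B) {a : End K A} (h : b ∘ₗ i = i ∘ₗ a) : K :=
  LinearMap.trace K _ (b.restrict (p := LinearMap.range i) (q := LinearMap.range i) (by
    rintro _ ⟨v, rfl⟩; exact ⟨a v, (LinearMap.congr_fun h v).symm⟩))

lemma trace_exact [FiniteDimensional K B] {a : End K A} {b : End K B} {d : End K D}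
    {i : A →ₗ[K] B} {p : B →ₗ[K] D} (he : Function.Exact i p) (h1 : b ∘ₗ i = i ∘ₗ a)
    (h2 : d ∘ₗ p = p ∘ₗ b) : LinearMap.trace K B b = trIm i b h1 + trIm p d h2 :=
  trace_ses (i := (LinearMap.range i).subtype) (p := p.rangeRestrict) Subtype.val_injective
    (fun v => ⟨fun h => ⟨⟨v, (he v).1 (congrArg Subtype.val h)⟩, rfl⟩, by
      rintro ⟨⟨_, w, rfl⟩, rfl⟩; exact Subtype.ext ((he _).2 ⟨w, rfl⟩)⟩)
    p.surjective_rangeRestrict (LinearMap.ext fun _ => rfl)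
    (LinearMap.ext fun v => Subtype.ext (LinearMap.congr_fun h2 v))

lemma trIm_inj [FiniteDimensional K A] {a : End K A} {b : End K B} {i : A →ₗ[K] B}
    (hi : Function.Injective i) (h : b ∘ₗ i = i ∘ₗ a) : trIm i b h = LinearMap.trace K A a := by
  rw [← LinearMap.trace_conj' a (LinearEquiv.ofInjective i hi), trIm]
  congr 1
  refine LinearMap.ext fun v => Subtype.ext ?_
  obtain ⟨w, rfl⟩ := (LinearEquiv.ofInjective i hi).surjective v
  rw [LinearEquiv.conj_apply_apply, LinearEquiv.symm_apply_apply]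
  exact LinearMap.congr_fun h w

lemma trIm_surj [FiniteDimensional K B] {a : End K A} {b : End K B} {i : A →ₗ[K] B}
    (hi : Function.Surjective i) (h : b ∘ₗ i = i ∘ₗ a) : trIm i b h = LinearMap.trace K B b := by
  rw [← LinearMap.trace_conj' b (LinearEquiv.ofTop _ (LinearMap.range_eq_top.2 hi)).symm, trIm]
  congr 1

lemma trIm_zero {a : End K A} {b : End K B} {i : A →ₗ[K] B} (hi : i = 0) (h : b ∘ₗ i = i ∘ₗ a) :
    trIm i b h = 0 := by
  subst hi
  have : Subsingleton (LinearMap.range (0 : A →ₗ[K] B)) := by rw [LinearMap.range_zero]; infer_instance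
  rw [trIm, Subsingleton.elim (LinearMap.restrict _ _) 0, map_zero]

end Lin

variable {l : ℕ} [Fact l.Prime] {M N R : Type u} [AddCommGroup M] [AddCommGroup N] [AddCommGroup R]
  {j : ℚ_[l] →+* ℂ} {S : Set ℝ}

lemma ev_def {φ : M →+ M} : Ev j S φ ↔ EvL j S (Vm l φ) := Iff.rfl

lemma Vm_inter {a : M →+ M} {b : N →+ N} {i : M →+ N} (h : ∀ m, b (i m) = i (a m)) :
    Vm l b ∘ₗ Vm l i = Vm l i ∘ₗ Vm l a := LinearMap.ext fun _ => V.ext fun _ => h _

lemma Cof.ev_iff (h : Cof l M) {φ : M →+ M} : have := h.finiteDimensional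
    (Ev j S φ ↔ ∀ z : ℂ, ((Vm l φ).charpoly.map j).IsRoot z → ‖z‖ ^ 2 ∈ S) :=
  have := h.finiteDimensional
  evL_iff

lemma Ev.mono {S' : Set ℝ} {φ : M →+ M} (h : Ev j S φ) (hS : S ⊆ S') : Ev j S' φ := EvL.mono h hS

/-- Subobjects, up to bounded torsion. -/
lemma Ev.sub' {a : M →+ M} {b : N →+ N} (h : Ev j S b) (i : M →+ N) (n : ℕ)
    (hi : ∀ m, i m = 0 → l ^ n • m = 0) (hc : ∀ m, b (i m) = i (a m)) : Ev j S a :=
  EvL.sub h (Vm l i) (V_inj n hi) (Vm_inter hc)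

lemma Ev.sub {a : M →+ M} {b : N →+ N} (h : Ev j S b) (i : M →+ N) (hi : Function.Injective i)
    (hc : ∀ m, b (i m) = i (a m)) : Ev j S a :=
  h.sub' i 0 (fun m hm => by rw [hi (hm.trans i.map_zero.symm), smul_zero]) hc

/-- Quotients, up to bounded torsion. -/
lemma Ev.quo' {a : M →+ M} {b : N →+ N} (h : Ev j S a) (hM : Cof l M) (p : M →+ N) (n : ℕ)
    (hp : ∀ y, l ^ n • y ∈ p.range) (hc : ∀ m, b (p m) = p (a m)) : Ev j S b :=
  EvL.quo h (Vm l p) (V_surj hM n hp) (Vm_inter hc)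

lemma Ev.quo {a : M →+ M} {b : N →+ N} (h : Ev j S a) (hM : Cof l M) (p : M →+ N)
    (hp : Function.Surjective p) (hc : ∀ m, b (p m) = p (a m)) : Ev j S b :=
  h.quo' hM p 0 (fun _ => hp _) hc

/-- The middle term of an exact sequence. -/
lemma Ev.ext {a : M →+ M} {b : N →+ N} {d : R →+ R} (ha : Ev j S a) (hd : Ev j S d) (hM : Cof l M)
    {i : M →+ N} {p : N →+ R} (he : Function.Exact i p) (hi : ∀ m, b (i m) = i (a m))
    (hp : ∀ n, d (p n) = p (b n)) : Ev j S b :=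
  EvL.ext ha hd (V_exact hM he) (Vm_inter hi) (Vm_inter hp)

lemma ev_of_bdd (n : ℕ) (h : ∀ m : M, l ^ n • m = 0) (φ : M →+ M) : Ev j S φ :=
  have : Subsingleton (V l M) := ⟨fun f g => (V_zero n h f).trans (V_zero n h g).symm⟩
  evL_of_subsingleton _

lemma tr_of_bdd (n : ℕ) (h : ∀ m : M, l ^ n • m = 0) (φ : M →+ M) : tr l φ = 0 := by
  have : Subsingleton (V l M) := ⟨fun f g => (V_zero n h f).trans (V_zero n h g).symm⟩
  rw [tr, Subsingleton.elim (Vm l φ) 0, map_zero]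

lemma tr_equiv (e : M ≃+ N) {a : M →+ M} {b : N →+ N} (h : ∀ m, b (e m) = e (a m)) :
    tr l b = tr l a := by
  rw [tr, tr, ← LinearMap.trace_conj' (Vm l a) (Ve l e)]
  congr 1
  refine LinearMap.ext fun f => V.ext fun x => ?_
  change b (f.1 x) = e (a (e.symm (f.1 x)))
  rw [← h, AddEquiv.apply_symm_apply]

/-- An isogeny preserves traces. -/
lemma tr_isog (hM : Cof l M) {i : M →+ N} (n : ℕ) (h1 : ∀ m, i m = 0 → l ^ n • m = 0)
    (h2 : ∀ y, l ^ n • y ∈ i.range) {a : M →+ M} {b : N →+ N} (h : ∀ m, b (i m) = i (a m)) :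
    tr l b = tr l a :=
  have := hM.finiteDimensional
  have := Module.Finite.of_surjective _ (V_surj hM n h2)
  (trIm_surj (V_surj hM n h2) (Vm_inter h)).symm.trans (trIm_inj (V_inj n h1) (Vm_inter h))

lemma tr_ses (hN : Cof l N) {a : M →+ M} {b : N →+ N} {d : R →+ R} {i : M →+ N} {p : N →+ R}
    (hi : Function.Injective i) (he : Function.Exact i p) (hp : Function.Surjective p)
    (h1 : ∀ m, b (i m) = i (a m)) (h2 : ∀ n, d (p n) = p (b n)) : tr l b = tr l a + tr l d :=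
  have := hN.finiteDimensional
  trace_ses (V_inj 0 fun m hm => by rw [hi (hm.trans i.map_zero.symm), smul_zero])
    (V_exact (hN.sub i hi) he) (V_surj hN 0 fun _ => hp _) (Vm_inter h1) (Vm_inter h2)

/-- Six terms `0 → A₀ → ... → A₅ → 0`. -/
lemma tr_six {A₀ A₁ A₂ A₃ A₄ A₅ : Type u} [AddCommGroup A₀] [AddCommGroup A₁] [AddCommGroup A₂]
    [AddCommGroup A₃] [AddCommGroup A₄] [AddCommGroup A₅] (c0 : Cof l A₀) (c1 : Cof l A₁)
    (c2 : Cof l A₂) (c3 : Cof l A₃) (c4 : Cof l A₄) (c5 : Cof l A₅) {f0 : A₀ →+ A₁} {f1 : A₁ →+ A₂}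
    {f2 : A₂ →+ A₃} {f3 : A₃ →+ A₄} {f4 : A₄ →+ A₅} (e0 : Function.Injective f0)
    (e1 : Function.Exact f0 f1) (e2 : Function.Exact f1 f2) (e3 : Function.Exact f2 f3)
    (e4 : Function.Exact f3 f4) (e5 : Function.Surjective f4) {g0 : A₀ →+ A₀} {g1 : A₁ →+ A₁}
    {g2 : A₂ →+ A₂} {g3 : A₃ →+ A₃} {g4 : A₄ →+ A₄} {g5 : A₅ →+ A₅}
    (h0 : ∀ m, g1 (f0 m) = f0 (g0 m)) (h1 : ∀ m, g2 (f1 m) = f1 (g1 m))
    (h2 : ∀ m, g3 (f2 m) = f2 (g2 m)) (h3 : ∀ m, g4 (f3 m) = f3 (g3 m))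
    (h4 : ∀ m, g5 (f4 m) = f4 (g4 m)) :
    tr l g0 + tr l g2 + tr l g4 = tr l g1 + tr l g3 + tr l g5 := by
  have := c0.finiteDimensional
  have := c1.finiteDimensional
  have := c2.finiteDimensional
  have := c3.finiteDimensional
  have := c4.finiteDimensional
  have := c5.finiteDimensional
  have t0 := trIm_inj (V_inj (l := l) 0 fun m hm => by
    rw [e0 (hm.trans f0.map_zero.symm), smul_zero]) (Vm_inter h0)
  have t1 := trace_exact (V_exact c0 e1) (Vm_inter h0) (Vm_inter h1)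
  have t2 := trace_exact (V_exact c1 e2) (Vm_inter h1) (Vm_inter h2)
  have t3 := trace_exact (V_exact c2 e3) (Vm_inter h2) (Vm_inter h3)
  have t4 := trace_exact (V_exact c3 e4) (Vm_inter h3) (Vm_inter h4)
  have t5 := trIm_surj (V_surj c4 0 fun _ => e5 _) (Vm_inter h4)
  simp only [tr]
  linear_combination -t0 - t1 + t2 - t3 + t4 + t5

lemma Vm_pow (φ : AddMonoid.End M) (n : ℕ) : Vm l (φ ^ n : AddMonoid.End M) = Vm l φ ^ n :=
  map_pow (VEnd l M) φ n

lemma tr_pi {ι : Type} [Fintype ι] {A : ι → Type u} [∀ i, AddCommGroup (A i)] (h : ∀ i, Cof l (A i))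
    (g : ∀ i, A i →+ A i) {G : (∀ i, A i) →+ ∀ i, A i} (hG : ∀ m i, G m i = g i (m i)) :
    tr l G = ∑ i, tr l (g i) := by
  classical
  have := fun i => (h i).finiteDimensional
  have e : (Vpi l A).conj (Vm l G) = ∑ i, LinearMap.single ℚ_[l] (fun i => V l (A i)) i ∘ₗ
      (Vm l (g i) ∘ₗ LinearMap.proj i) := by
    refine LinearMap.ext fun v => funext fun i => ?_
    obtain ⟨w, rfl⟩ := (Vpi l A).surjective v
    rw [LinearEquiv.conj_apply_apply, LinearEquiv.symm_apply_apply, LinearMap.sum_apply,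
      Finset.sum_apply, Finset.sum_eq_single i (fun b _ hb => Pi.single_eq_of_ne hb.symm _)
        fun hi => (hi (Finset.mem_univ i)).elim]
    rw [LinearMap.comp_apply, LinearMap.single_apply, Pi.single_eq_same]
    exact V.ext fun x => hG _ i
  rw [tr, ← LinearMap.trace_conj' _ (Vpi l A), e, map_sum]
  refine Finset.sum_congr rfl fun i _ => ?_
  rw [LinearMap.trace_comp_comm', tr]
  congr 1
  exact LinearMap.ext fun v => by simp

/-- Eigenvalues of a power. -/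
lemma Ev.of_pow {φ : AddMonoid.End M} {n : ℕ} (hn : n ≠ 0) {B : ℝ} (hB : 0 ≤ B)
    (h : Ev j (Set.Iic (B ^ n)) (φ ^ n : AddMonoid.End M)) : Ev j (Set.Iic B) φ := by
  obtain ⟨P, h1, h2, h3⟩ := h
  refine ⟨expand _ n P, fun e => h1 (expand_injective (Nat.pos_of_ne_zero hn)
    (e.trans (map_zero _).symm)), by rw [expand_aeval, ← Vm_pow]; exact h2, fun z hz => ?_⟩
  have h4 := h3 (z ^ n) (by rw [← hz, expand_eq_comp_X_pow, eval₂_comp, eval₂_X_pow])
  rw [Set.mem_Iic, norm_pow, ← pow_mul, mul_comm, pow_mul] at h4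
  exact (pow_le_pow_iff_left₀ (by positivity) hB hn).1 h4

/-- A ring map with `ψ z ^ Q = z` is the inverse of a power of Frobenius. -/
theorem frq {k : Type} [Field k] [Infinite k] {Q : ℕ} (hQ : 1 < Q) (ψ : k →+* k)
    (h : ∀ z, ψ z ^ Q = z) :
    ∃ p e : ℕ, p.Prime ∧ CharP k p ∧ e ≠ 0 ∧ Q = p ^ e ∧ Function.Bijective ψ := by
  have h1 : ((X + 1) ^ Q - (X ^ Q + 1) : k[X]) = 0 :=
    eq_zero_of_infinite_isRoot _ ((Set.infinite_range_of_injective ψ.injective).mono (by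
      rintro _ ⟨z, rfl⟩
      have := h (z + 1)
      rw [map_add, map_one] at this
      simp [h, this]))
  have h2 : ∀ i, 0 < i → i < Q → (Q.choose i : k) = 0 := fun i h0 hi => by
    have := congrArg (coeff · i) (sub_eq_zero.1 h1)
    simpa [coeff_X_add_one_pow, coeff_X_pow, coeff_one, hi.ne, h0.ne'] using this
  obtain ⟨p, hp⟩ := CharP.exists k
  have hpQ : p ∣ Q := (CharP.cast_eq_zero_iff k p Q).1 (by simpa using h2 1 one_pos hQ)
  have hpp : p.Prime := (CharP.char_is_prime_or_zero k p).resolve_right fun e => by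
    rw [e, zero_dvd_iff] at hpQ; omega
  have := Fact.mk hpp
  obtain ⟨e, m, hm, rfl⟩ := Nat.exists_eq_pow_mul_and_not_dvd (by omega : Q ≠ 0) p hpp.ne_one
  have h3 : ((X + 1) ^ m - (X ^ m + 1) : k[X]) = 0 := by
    have : (expand k (p ^ e)) ((X + 1) ^ m - (X ^ m + 1) : k[X]) = 0 := by
      rw [← h1, pow_mul, pow_mul, add_pow_char_pow]; simp
    exact expand_injective (pow_pos hpp.pos e) (this.trans (map_zero _).symm)
  have hm1 : m = 1 := by
    by_contra h4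
    have h5 : m ≠ 0 := fun e => hm (e ▸ dvd_zero p)
    have := congrArg (coeff · 1) (sub_eq_zero.1 h3)
    simp only [coeff_X_add_one_pow, Nat.choose_one_right, coeff_add, coeff_X_pow, coeff_one,
      if_neg (Ne.symm h4), if_neg one_ne_zero, add_zero] at this
    exact hm ((CharP.cast_eq_zero_iff k p m).1 this)
  subst hm1
  rw [mul_one] at h hQ ⊢
  refine ⟨p, e, hpp, hp, fun e0 => by simp [e0] at hQ, rfl, ψ.injective, fun z => ⟨z ^ p ^ e, ?_⟩⟩
  rw [map_pow, h]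

end Pool.Agent.MP_855f4c_ag.E

end

section

namespace Pool.Agent.MP_855f4c_ag.E

open Polynomial Module

universe u v

section Lin

variable {K : Type} [Field K] {A : Type*} [AddCommGroup A] [Module K A] {j : K →+* ℂ} {S : Set ℝ}

lemma EvL.smul {g : End K A} (h : EvL j S g) {c : K} (hc : c ≠ 0) {S' : Set ℝ}
    (hS : ∀ s ∈ S, ‖j c‖ ^ 2 * s ∈ S') : EvL j S' (c • g) := by
  obtain ⟨P, h1, h2, h3⟩ := h
  have hj : j c ≠ 0 := (map_ne_zero j).2 hc
  refine ⟨P.comp (C c⁻¹ * X), fun e => h1 ?_, ?_, fun z hz => ?_⟩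
  · have := congrArg (·.comp (C c * X)) e
    simp only [comp_assoc, mul_comp, C_comp, X_comp, zero_comp] at this
    rwa [← mul_assoc, ← C_mul, inv_mul_cancel₀ hc, C_1, one_mul, comp_X] at this
  · rw [aeval_comp, map_mul, aeval_C, aeval_X, ← Algebra.smul_def, inv_smul_smul₀ hc, h2]
  · rw [eval₂_comp, eval₂_mul, eval₂_C, eval₂_X] at hz
    have := hS _ (h3 _ hz)
    rwa [← mul_pow, ← norm_mul, map_inv₀, mul_inv_cancel_left₀ hj] at this

lemma evL_pi {I : Type} [Finite I] {B : I → Type*} [∀ i, AddCommGroup (B i)] [∀ i, Module K (B i)]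
    {g : End K A} {b : ∀ i, End K (B i)} (p : ∀ i, A →ₗ[K] B i) (hp : ∀ v, (∀ i, p i v = 0) → v = 0)
    (hc : ∀ i, b i ∘ₗ p i = p i ∘ₗ g) (h : ∀ i, EvL j S (b i)) : EvL j S g := by
  classical
  have := Fintype.ofFinite I
  choose P h1 h2 h3 using h
  refine ⟨∏ i, P i, Finset.prod_ne_zero_iff.2 fun i _ => h1 i,
    LinearMap.ext fun v => hp _ fun i => ?_, fun z hz => ?_⟩
  · rw [← aeval_inter (p i) (hc i), ← Finset.mul_prod_erase _ _ (Finset.mem_univ i), map_mul, h2,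
      zero_mul, LinearMap.zero_apply]
  · rw [eval₂_finsetProd, Finset.prod_eq_zero_iff] at hz
    obtain ⟨i, -, hi⟩ := hz
    exact h3 i z hi

lemma trace_dualMap [FiniteDimensional K A] (g : End K A) :
    LinearMap.trace K (Dual K A) g.dualMap = LinearMap.trace K A g := LinearMap.trace_transpose' g

end Lin

variable {l : ℕ} [Fact l.Prime] {M : Type u} {N : Type v} [AddCommGroup M] [AddCommGroup N]

lemma QZ.mul_eq (c : ℤ_[l]) (n : ℕ) : ∃ (a : ℕ) (d : ℤ_[l]), ∀ y : QZ l,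
    QZ.mul l c y = a • y + l ^ n • QZ.mul l d y := by
  obtain ⟨d, hd⟩ := Ideal.mem_span_singleton.1 (PadicInt.appr_spec n c)
  refine ⟨c.appr n, d, fun y => ?_⟩
  obtain ⟨x, rfl⟩ := QuotientAddGroup.mk_surjective y
  rw [QZ.mul_mk, QZ.mul_mk, ← QuotientAddGroup.mk_nsmul, ← QuotientAddGroup.mk_nsmul,
    ← QuotientAddGroup.mk_add]
  have h1 := congrArg (fun z : ℤ_[l] => (z : ℚ_[l])) (sub_eq_iff_eq_add.1 hd)
  congr 1
  simp only [nsmul_eq_mul]
  push_cast at h1 ⊢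
  linear_combination x * h1

/-- Additive maps between character groups are `ℤ_l`-linear. -/
lemma char_lin (hN : ∀ m : N, ∃ n : ℕ, l ^ n • m = 0) (e : (M →+ QZ l) →+ N →+ QZ l) (c : ℤ_[l])
    (f : M →+ QZ l) : e ((QZ.mul l c).comp f) = (QZ.mul l c).comp (e f) := by
  refine AddMonoidHom.ext fun m => ?_
  obtain ⟨n, hn⟩ := hN m
  obtain ⟨a, d, h⟩ := QZ.mul_eq c n
  have e1 : (QZ.mul l c).comp f = a • f + l ^ n • (QZ.mul l d).comp f :=
    AddMonoidHom.ext fun x => h _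
  have e2 : ∀ g : N →+ QZ l, l ^ n • g m = 0 := fun g => by rw [← map_nsmul, hn, map_zero]
  rw [e1, map_add, e.map_nsmul, e.map_nsmul, AddMonoidHom.comp_apply, h]
  change a • e f m + l ^ n • e _ m = _
  rw [e2]
  exact congrArg _ (e2 ((QZ.mul l d).comp (e f))).symm

lemma kap_ext (hM : Cof l M) {Y : Type*} [AddCommGroup Y] [Module ℚ_[l] Y]
    {a b : Dual ℚ_[l] (V l M) →ₗ[ℚ_[l]] Y} (h : ∀ f, a (kap l M f) = b (kap l M f)) : a = b :=
  LinearMap.ext fun lam => by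
    obtain ⟨n, f, hf⟩ := hM.kap_surj lam
    have := h f
    rw [hf, map_smul, map_smul] at this
    exact smul_right_injective Y (pow_ne_zero n l_ne) this

/-- The linear map induced by an additive map between character groups. -/
lemma kap_lift (hM : Cof l M) (hN : ∀ m : N, ∃ n : ℕ, l ^ n • m = 0)
    (e : (M →+ QZ l) →+ N →+ QZ l) : ∃ E : Dual ℚ_[l] (V l M) →ₗ[ℚ_[l]] Dual ℚ_[l] (V l N),
      ∀ f, E (kap l M f) = kap l N (e f) := by
  have := hM.finiteDimensional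
  obtain ⟨c, hc⟩ := hM.kap_ker
  have h0 : ∀ f, kap l M f = 0 → kap l N (e f) = 0 := fun f hf => by
    have h1 : l ^ c • kap l N (e f) = 0 := by rw [← map_nsmul, ← map_nsmul, hc f hf, map_zero, map_zero]
    rw [← Nat.cast_smul_eq_nsmul ℚ_[l], Nat.cast_pow] at h1
    exact (smul_eq_zero.1 h1).resolve_left (pow_ne_zero c l_ne)
  let b := Module.finBasis ℚ_[l] (Dual ℚ_[l] (V l M))
  choose n g hg using fun i => hM.kap_surj (b i)
  let E := b.constr ℚ_[l] fun i => ((l : ℚ_[l]) ^ n i)⁻¹ • kap l N (e (g i))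
  have hE : ∀ i, E (kap l M (g i)) = kap l N (e (g i)) := fun i => by
    rw [hg, map_smul, Basis.constr_basis, smul_inv_smul₀ (pow_ne_zero _ l_ne)]
  refine ⟨E, fun f => ?_⟩
  let a : Fin _ → ℚ_[l] := fun i => b.repr (kap l M f) i * ((l : ℚ_[l]) ^ n i)⁻¹
  have ha : kap l M f = ∑ i, a i • kap l M (g i) := by
    conv_lhs => rw [← b.sum_repr (kap l M f)]
    refine Finset.sum_congr rfl fun i _ => ?_
    rw [hg, mul_smul, inv_smul_smul₀ (pow_ne_zero _ l_ne)]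
  obtain ⟨B, hB⟩ := (Set.finite_range fun i => ‖a i‖).bddAbove
  obtain ⟨k, hk⟩ := exists_pow_lt_of_lt_one (inv_pos.2 (by positivity : 0 < |B| + 1))
    (Padic.norm_p_lt_one (p := l))
  have h1 : ∀ i, ‖(l : ℚ_[l]) ^ k * a i‖ ≤ 1 := fun i => by
    rw [norm_mul, norm_pow]
    exact (mul_le_mul hk.le ((hB ⟨i, rfl⟩).trans ((le_abs_self B).trans
      (le_add_of_nonneg_right zero_le_one))) (norm_nonneg _) (by positivity)).trans
      (inv_mul_cancel₀ (by positivity)).le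
  obtain ⟨z, hz⟩ : ∃ z : Fin _ → ℤ_[l], ∀ i, (z i : ℚ_[l]) = l ^ k * a i :=
    ⟨fun i => ⟨_, h1 i⟩, fun _ => rfl⟩
  have h2 := h0 (l ^ k • f - ∑ i, (QZ.mul l (z i)).comp (g i)) (by
    rw [AddMonoidHom.map_sub, AddMonoidHom.map_nsmul, map_sum (kap l M),
      ← Nat.cast_smul_eq_nsmul ℚ_[l], Nat.cast_pow, ha,
      Finset.smul_sum, sub_eq_zero]
    exact Finset.sum_congr rfl fun i _ => by rw [kap_mul, smul_smul, hz])
  change ((kap l N).comp e) _ = 0 at h2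
  rw [AddMonoidHom.map_sub, AddMonoidHom.map_nsmul, map_sum ((kap l N).comp e), sub_eq_zero,
    ← Nat.cast_smul_eq_nsmul ℚ_[l], Nat.cast_pow] at h2
  refine smul_right_injective _ (pow_ne_zero k (l_ne (l := l))) ?_
  refine Eq.trans ?_ h2.symm
  change _ • _ = _
  rw [ha, map_sum, Finset.smul_sum]
  exact Finset.sum_congr rfl fun i _ => by
    rw [AddMonoidHom.comp_apply, char_lin hN, kap_mul, map_smul, hE, smul_smul, hz]

/-- An isomorphism of character groups gives an isomorphism of the duals of `V`. -/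
lemma kap_equiv (hM : Cof l M) (hN : Cof l N) (e : (M →+ QZ l) ≃+ (N →+ QZ l)) :
    ∃ E : Dual ℚ_[l] (V l M) ≃ₗ[ℚ_[l]] Dual ℚ_[l] (V l N), ∀ f, E (kap l M f) = kap l N (e f) := by
  obtain ⟨E, hE⟩ := kap_lift hM hN.1 e.toAddMonoidHom
  obtain ⟨E', hE'⟩ := kap_lift hN hM.1 e.symm.toAddMonoidHom
  exact ⟨LinearEquiv.ofLinearMap E E' (kap_ext hN fun f => by
      rw [LinearMap.comp_apply, hE', hE]; exact congrArg _ (e.apply_symm_apply f))
    (kap_ext hM fun f => by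
      rw [LinearMap.comp_apply, hE, hE']; exact congrArg _ (e.symm_apply_apply f)), hE⟩

/-- The roots of unity of `l`-power order of an algebraically closed field. -/
theorem mu_equiv (l : ℕ) [Fact l.Prime] (Ω : Type) [Field Ω] [IsAlgClosed Ω] (hl : (l : Ω) ≠ 0) :
    Nonempty (QZ l ≃+ Additive (CommGroup.primaryComponent Ωˣ l)) := by
  have hp : l.Prime := Fact.out
  have : NeZero (l : Ω) := ⟨hl⟩
  have : NeZero l := ⟨hp.ne_zero⟩
  obtain ⟨ζ, hζ⟩ := HasEnoughRootsOfUnity.exists_primitiveRoot Ω l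
  choose r hr using fun x : Ω => IsAlgClosed.exists_pow_nat_eq x hp.pos
  let z : ℕ → Ω := fun n => r^[n] ζ
  have hz : ∀ n, z (n + 1) ^ l = z n := fun n => by
    simp only [z, Function.iterate_succ_apply', hr]
  have h1 : ∀ n, z n ^ l ^ n = ζ := fun n => by
    induction n with
    | zero => simp [z]
    | succ n ih => rw [pow_succ', pow_mul, hz, ih]
  have h2 : ∀ n, IsPrimitiveRoot (z n) (l ^ (n + 1)) := fun n => by
    rw [IsPrimitiveRoot.iff_orderOf]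
    exact orderOf_eq_prime_pow (by rw [h1]; exact hζ.ne_one hp.one_lt)
      (by rw [pow_succ, pow_mul, h1, hζ.pow_eq_one])
  let w : ℕ → Additive (CommGroup.primaryComponent Ωˣ l) := fun n => Additive.ofMul
    ⟨((h2 n).isUnit (pow_ne_zero _ hp.ne_zero)).unit, n + 1, Units.ext (h2 n).pow_eq_one⟩
  have hw : ∀ (a n : ℕ) (y : Additive (CommGroup.primaryComponent Ωˣ l)),
      a • w n = y ↔ z n ^ a = (y.toMul.1 : Ω) := fun a n y =>
    ⟨fun h => h ▸ rfl, fun h => Additive.toMul.injective (Subtype.ext (Units.ext h))⟩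
  obtain ⟨f, hf⟩ := exists_V (l := l) (fun n => l • w n)
    (fun n => congrArg (l • ·) ((hw _ _ _).2 (hz n))) 0 (by
      rw [pow_zero, one_smul]; exact (hw _ _ _).2 hζ.pow_eq_one)
  have h3 : f.1 1 = 0 := by
    have := hf 0
    rw [pow_zero, inv_one] at this
    exact this.trans ((hw _ _ _).2 hζ.pow_eq_one)
  have h4 : ∀ n : ℕ, f.1 ((l : ℚ_[l]) ^ (n + 1))⁻¹ = w n := fun n =>
    (hf (n + 1)).trans ((hw _ _ _).2 (hz n))
  refine ⟨AddEquiv.ofBijective (QuotientAddGroup.lift _ (f.1 : ℚ_[l] →+ _)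
    fun x hx => V.ev_zero h3 hx) ⟨(injective_iff_map_eq_zero _).2 fun y hy => ?_, fun y => ?_⟩⟩
  · obtain ⟨x, rfl⟩ := QuotientAddGroup.mk_surjective y
    obtain ⟨n, a, h5, -⟩ := q_appr x one_pos
    have h6 : f.1 (a * ((l : ℚ_[l]) ^ n)⁻¹) = 0 := by
      have := V.ev_zero h3 h5.le
      rwa [map_sub, show f.1 x = 0 from hy, zero_sub, neg_eq_zero] at this
    have h7 : ((a * l : ℤ) : ℚ_[l]) * ((l : ℚ_[l]) ^ (n + 1))⁻¹ = a * ((l : ℚ_[l]) ^ n)⁻¹ := by
      have := l_ne (l := l)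
      push_cast; field_simp; ring
    rw [← h7, ← zsmul_eq_mul, map_zsmul, h4] at h6
    have h8 : z n ^ (a * l : ℤ) = 1 := by
      have := congrArg (fun y => ((Additive.toMul y).1 : Ω)) h6
      simpa [w] using this
    obtain ⟨d, hd⟩ := ((h2 n).zpow_eq_one_iff_dvd _).1 h8
    have h9 : ‖(a : ℚ_[l]) * ((l : ℚ_[l]) ^ n)⁻¹‖ ≤ 1 := by
      rw [← h7, hd, Int.cast_mul, Int.cast_natCast, Nat.cast_pow, mul_comm,
        inv_mul_cancel_left₀ (pow_ne_zero _ l_ne)]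
      exact Padic.norm_int_le_one d
    rw [QZ.mk_zero, ← sub_add_cancel x (a * ((l : ℚ_[l]) ^ n)⁻¹)]
    exact (IsUltrametricDist.norm_add_le_max _ _).trans (max_le h5.le h9)
  · obtain ⟨n, hn⟩ := y.toMul.2
    obtain ⟨i, -, hi⟩ := (h2 n).eq_pow_of_pow_eq_one (ξ := (y.toMul.1 : Ω)) (by
      rw [pow_succ, pow_mul, ← Units.val_pow_eq_pow_val, hn, Units.val_one, one_pow])
    refine ⟨QuotientAddGroup.mk (i • ((l : ℚ_[l]) ^ (n + 1))⁻¹), ?_⟩
    change f.1 _ = y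
    rw [map_nsmul, h4]
    exact (hw _ _ _).2 hi

end Pool.Agent.MP_855f4c_ag.E

end
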