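import Mathlib

section

set_option autoImplicit false

namespace Pool.Agent.MP_855f4c_ag.E3

open IsLocalRing

/-- Strictly henselian local rings: every etale algebra with a prime over the maximal ideal has a
retraction through that prime. -/
class SHL (A : Type) [CommRing A] : Prop extends IsLocalRing A where
  sec : ∀ (S : Type) [CommRing S] [Algebra A S] [Algebra.Etale A S] (q : Ideal S), q.IsPrime →
    q.comap (algebraMap A S) = maximalIdeal A → ∃ s : S →ₐ[A] A, (maximalIdeal A).comap s = q

/-- Every monic polynomial of positive degree has a root. -/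
def Aic (A : Type) [CommRing A] : Prop :=
  ∀ p : Polynomial A, p.Monic → p.natDegree ≠ 0 → ∃ a, p.eval a = 0

/-- Every map from a finitely presented algebra factors through an etale algebra. -/
def IndEt (R C : Type) [CommRing R] [CommRing C] [Algebra R C] : Prop :=
  ∀ (P : Type) [CommRing P] [Algebra R P] [Algebra.FinitePresentation R P] (f : P →ₐ[R] C),
    ∃ (E : Type) (_ : CommRing E) (_ : Algebra R E) (_ : Algebra.Etale R E)
      (g : P →ₐ[R] E) (h : E →ₐ[R] C), h.comp g = f

/-- Every etale algebra that is surjective on spectra has a retraction. -/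
def Wc (A : Type) [CommRing A] : Prop :=
  ∀ (S : Type) [CommRing S] [Algebra A S] [Algebra.Etale A S],
    Function.Surjective (PrimeSpectrum.comap (algebraMap A S)) → Nonempty (S →ₐ[A] A)

end Pool.Agent.MP_855f4c_ag.E3

end

section

set_option autoImplicit false

namespace Pool.Agent.MP_855f4c_ag.E3

open IsLocalRing TensorProduct

section
variable {R C : Type} [CommRing R] [CommRing C] [Algebra R C]

theorem IndEt.of_etale [Algebra.Etale R C] : IndEt R C :=
  fun _ _ _ _ f => ⟨C, inferInstance, inferInstance, inferInstance, f, AlgHom.id R C, by ext; rfl⟩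

theorem IndEt.of_equiv {C' : Type} [CommRing C'] [Algebra R C'] (H : IndEt R C)
    (e : C ≃ₐ[R] C') : IndEt R C' := by
  intro P _ _ _ f
  obtain ⟨E, _, _, _, g, h, hh⟩ := H P (e.symm.toAlgHom.comp f)
  refine ⟨E, inferInstance, inferInstance, inferInstance, g, e.toAlgHom.comp h, ?_⟩
  rw [AlgHom.comp_assoc, hh]
  ext x
  simp

/-- Solutions in `C` of a finite system over a finitely presented stage come from an etale stage. -/
theorem IndEt.solve (H : IndEt R C) {P : Type} [CommRing P] [Algebra R P]
    [Algebra.FinitePresentation R P] (f : P →ₐ[R] C) {σ τ : Type} [Finite σ] [Finite τ]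
    (x : σ → C) (F : τ → MvPolynomial σ P)
    (hF : ∀ j, MvPolynomial.eval₂ (f : P →+* C) x (F j) = 0) :
    ∃ (E : Type) (_ : CommRing E) (_ : Algebra R E) (_ : Algebra.Etale R E)
      (g : P →ₐ[R] E) (h : E →ₐ[R] C) (y : σ → E), h.comp g = f ∧ (∀ i, h (y i) = x i) ∧
      ∀ j, MvPolynomial.eval₂ (g : P →+* E) y (F j) = 0 := by
  let I : Ideal (MvPolynomial σ P) := Ideal.span (Set.range F)
  have hI : I.FG := Submodule.fg_span (Set.finite_range F)
  have : Algebra.FinitePresentation R (MvPolynomial σ P ⧸ I) :=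
    Algebra.FinitePresentation.quotient hI
  let φ : MvPolynomial σ P →ₐ[R] C := MvPolynomial.aevalTower f x
  have hφ : ∀ a ∈ I, φ a = 0 := by
    intro a ha
    refine (Ideal.span_le (I := RingHom.ker φ)).2 ?_ ha
    rintro _ ⟨j, rfl⟩
    exact hF j
  obtain ⟨E, _, _, _, g, h, hh⟩ := H _ (Ideal.Quotient.liftₐ I φ hφ)
  let ψ : MvPolynomial σ P →ₐ[R] E := g.comp (Ideal.Quotient.mkₐ R I)
  have hψ : ∀ a, h (ψ a) = φ a := fun a => congr($hh (Ideal.Quotient.mk I a))
  refine ⟨E, inferInstance, inferInstance, inferInstance,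
    ψ.comp (IsScalarTower.toAlgHom R P _), h, fun i => ψ (MvPolynomial.X i), ?_, ?_, ?_⟩
  · ext a
    simp [hψ, φ]
  · intro i
    simp [hψ, φ]
  · intro j
    have h1 : ∀ a : MvPolynomial σ P, MvPolynomial.eval₂
        ((ψ.comp (IsScalarTower.toAlgHom R P _) : P →ₐ[R] E) : P →+* E)
        (fun i => ψ (MvPolynomial.X i)) a = ψ a := by
      intro a
      induction a using MvPolynomial.induction_on with
      | C a => simp
      | add p q hp hq => rw [MvPolynomial.eval₂_add, hp, hq, map_add]
      | mul_X p i hp => rw [MvPolynomial.eval₂_mul, hp, MvPolynomial.eval₂_X, map_mul]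
    rw [h1]
    change g (Ideal.Quotient.mk I (F j)) = 0
    rw [Ideal.Quotient.eq_zero_iff_mem.2 (Ideal.subset_span (Set.mem_range_self j)), map_zero]

/-- Finitely many elements come from an etale stage above a given stage. -/
theorem IndEt.lift (H : IndEt R C) {P : Type} [CommRing P] [Algebra R P]
    [Algebra.FinitePresentation R P] (f : P →ₐ[R] C) {σ : Type} [Finite σ] (x : σ → C) :
    ∃ (E : Type) (_ : CommRing E) (_ : Algebra R E) (_ : Algebra.Etale R E)
      (g : P →ₐ[R] E) (h : E →ₐ[R] C) (y : σ → E), h.comp g = f ∧ ∀ i, h (y i) = x i := by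
  obtain ⟨E, _, _, _, g, h, y, h1, h2, -⟩ := H.solve f x (τ := Empty) Empty.elim (fun j => j.elim)
  exact ⟨E, inferInstance, inferInstance, inferInstance, g, h, y, h1, h2⟩

/-- Finitely many elements of a stage that die in `C` die in a later etale stage. -/
theorem IndEt.kill (H : IndEt R C) {P : Type} [CommRing P] [Algebra R P]
    [Algebra.FinitePresentation R P] (f : P →ₐ[R] C) {τ : Type} [Finite τ] (a : τ → P)
    (ha : ∀ j, f (a j) = 0) :
    ∃ (E : Type) (_ : CommRing E) (_ : Algebra R E) (_ : Algebra.Etale R E)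
      (g : P →ₐ[R] E) (h : E →ₐ[R] C), h.comp g = f ∧ ∀ j, g (a j) = 0 := by
  obtain ⟨E, _, _, _, g, h, y, h1, -, h3⟩ := H.solve f (σ := Empty) Empty.elim
    (fun j => MvPolynomial.C (a j)) (fun j => by simpa using ha j)
  exact ⟨E, inferInstance, inferInstance, inferInstance, g, h, h1, fun j => by simpa using h3 j⟩

/-- Criterion by solutions of finite polynomial systems. -/
theorem IndEt.of_solve
    (H : ∀ (n m : ℕ) (x : Fin n → C) (F : Fin m → MvPolynomial (Fin n) R),
      (∀ j, MvPolynomial.aeval x (F j) = 0) →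
      ∃ (E : Type) (_ : CommRing E) (_ : Algebra R E) (_ : Algebra.Etale R E)
        (h : E →ₐ[R] C) (y : Fin n → E), (∀ i, h (y i) = x i) ∧
        ∀ j, MvPolynomial.aeval y (F j) = 0) : IndEt R C := by
  intro P _ _ _ f
  obtain ⟨n, π, hπ, hk⟩ := Algebra.FinitePresentation.out (R := R) (A := P)
  obtain ⟨m, F, hF⟩ := Submodule.fg_iff_exists_fin_generating_family.1 hk
  have h0 : ∀ j, π (F j) = 0 := fun j => by
    have : F j ∈ RingHom.ker π.toRingHom := hF ▸ Submodule.subset_span (Set.mem_range_self j)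
    exact this
  have h1 : ∀ a, MvPolynomial.aeval (fun i => f (π (MvPolynomial.X i))) a = f (π a) := by
    intro a
    have : MvPolynomial.aeval (fun i => f (π (MvPolynomial.X i))) = f.comp π := by
      ext i; simp
    rw [this]; rfl
  obtain ⟨E, _, _, _, h, y, hy, hy'⟩ := H n m (fun i => f (π (MvPolynomial.X i))) F
    (fun j => by rw [h1, h0, map_zero])
  have hle : RingHom.ker π.toRingHom ≤ RingHom.ker (MvPolynomial.aeval y).toRingHom := by
    rw [← hF]
    refine Submodule.span_le.2 ?_
    rintro _ ⟨j, rfl⟩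
    exact hy' j
  let g : P →ₐ[R] E := AlgHom.liftOfSurjective π hπ (MvPolynomial.aeval y) hle
  have hg : ∀ a, g (π a) = MvPolynomial.aeval y a := fun a =>
    AlgHom.liftOfSurjective_apply π hπ _ hle a
  refine ⟨E, inferInstance, inferInstance, inferInstance, g, h, ?_⟩
  ext a
  obtain ⟨b, rfl⟩ := hπ a
  rw [AlgHom.comp_apply, hg, ← h1]
  have : h.comp (MvPolynomial.aeval y) = MvPolynomial.aeval (fun i => f (π (MvPolynomial.X i))) := by
    ext i; simp [hy]
  exact congr($this b)

/-- A tensor that dies over `C` dies over a later etale stage. -/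
theorem IndEt.kill_tensor (H : IndEt R C) {P : Type} [CommRing P] [Algebra R P]
    [Algebra.FinitePresentation R P] (f : P →ₐ[R] C) {N : Type} [AddCommGroup N] [Module R N]
    (t : N ⊗[R] P) (ht : LinearMap.lTensor N f.toLinearMap t = 0) :
    ∃ (E : Type) (_ : CommRing E) (_ : Algebra R E) (_ : Algebra.Etale R E)
      (g : P →ₐ[R] E) (h : E →ₐ[R] C), h.comp g = f ∧ LinearMap.lTensor N g.toLinearMap t = 0 := by
  obtain ⟨N₁, hN₁, t₁, rfl⟩ := TensorProduct.exists_of_fg t
  have h1 : LinearMap.rTensor C N₁.subtype (LinearMap.lTensor N₁ f.toLinearMap t₁) = 0 := by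
    rw [← ht, ← LinearMap.comp_apply, ← LinearMap.comp_apply, LinearMap.rTensor_comp_lTensor,
      LinearMap.lTensor_comp_rTensor]
  obtain ⟨N₂, h12, hN₂, h2⟩ := TensorProduct.eq_zero_of_fg_of_subtype_eq_zero hN₁ h1
  have : Module.Finite R N₂ := Module.Finite.iff_fg.2 hN₂
  obtain ⟨k, m, hm⟩ := Module.Finite.exists_fin (R := R) (M := N₂)
  let t₂ : N₂ ⊗[R] P := LinearMap.rTensor P (Submodule.inclusion h12) t₁
  have h3 : LinearMap.lTensor N₂ f.toLinearMap t₂ = 0 := by
    rw [← h2, ← LinearMap.comp_apply, ← LinearMap.comp_apply, LinearMap.rTensor_comp_lTensor,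
      LinearMap.lTensor_comp_rTensor]
  have h4 : ∀ u : N₂ ⊗[R] P, ∃ e : Fin k → P, u = ∑ i, m i ⊗ₜ e i := by
    intro u
    induction u using TensorProduct.induction_on with
    | zero => exact ⟨0, by simp⟩
    | tmul a b =>
      have ha : a ∈ Submodule.span R (Set.range m) := hm ▸ Submodule.mem_top
      obtain ⟨c, rfl⟩ := (Submodule.mem_span_range_iff_exists_fun R).1 ha
      exact ⟨fun i => c i • b, by simp [TensorProduct.sum_tmul, TensorProduct.smul_tmul]⟩
    | add a b ha hb =>
      obtain ⟨e, rfl⟩ := ha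
      obtain ⟨e', rfl⟩ := hb
      exact ⟨e + e', by simp [TensorProduct.tmul_add, Finset.sum_add_distrib]⟩
  obtain ⟨e, he⟩ := h4 t₂
  have h5 : ∑ i, m i ⊗ₜ[R] f (e i) = 0 := by
    rw [← h3, he, map_sum]
    simp
  obtain ⟨k', a, y, hy, ha⟩ := TensorProduct.vanishesTrivially_of_sum_tmul_eq_zero R hm h5
  obtain ⟨E, _, _, _, g, h, y', hh, -, hy'⟩ := H.solve f y
    (fun i => MvPolynomial.C (e i) - ∑ j, a i j • MvPolynomial.X j) (fun i => by
      rw [MvPolynomial.eval₂_sub, MvPolynomial.eval₂_C, MvPolynomial.eval₂_sum, sub_eq_zero]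
      refine (hy i).trans (Finset.sum_congr rfl fun j _ => ?_)
      rw [Algebra.smul_def, Algebra.smul_def, MvPolynomial.eval₂_mul, MvPolynomial.eval₂_X,
        MvPolynomial.algebraMap_apply, MvPolynomial.eval₂_C]
      simp)
  refine ⟨E, inferInstance, inferInstance, inferInstance, g, h, hh, ?_⟩
  have h6 : ∀ i, g (e i) = ∑ j, a i j • y' j := by
    intro i
    have := hy' i
    rw [MvPolynomial.eval₂_sub, MvPolynomial.eval₂_C, MvPolynomial.eval₂_sum, sub_eq_zero] at this
    refine this.trans (Finset.sum_congr rfl fun j _ => ?_)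
    rw [Algebra.smul_def, Algebra.smul_def, MvPolynomial.eval₂_mul, MvPolynomial.eval₂_X,
      MvPolynomial.algebraMap_apply, MvPolynomial.eval₂_C]
    simp
  have h7 : LinearMap.lTensor N₂ g.toLinearMap t₂ = 0 := by
    rw [he, map_sum]
    exact TensorProduct.sum_tmul_eq_zero_of_vanishesTrivially R (m := m) (n := fun i => g (e i))
      ⟨k', a, y', h6, ha⟩
  have h8 : LinearMap.rTensor P N₁.subtype t₁ = LinearMap.rTensor P N₂.subtype t₂ := by
    rw [← LinearMap.comp_apply, ← LinearMap.rTensor_comp]
    rfl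
  rw [h8, ← LinearMap.comp_apply, LinearMap.lTensor_comp_rTensor, ← LinearMap.rTensor_comp_lTensor,
    LinearMap.comp_apply, h7, map_zero]

end

end Pool.Agent.MP_855f4c_ag.E3

end

section

set_option autoImplicit false

namespace Pool.Agent.MP_855f4c_ag.E3

open IsLocalRing TensorProduct

section
variable {R C : Type} [CommRing R] [CommRing C] [Algebra R C]

/-- Finitely many tensors that die over `C` die over a later etale stage. -/
theorem IndEt.kill_tensors (H : IndEt R C) {P : Type} [CommRing P] [Algebra R P]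
    [Algebra.FinitePresentation R P] (f : P →ₐ[R] C) {N : Type} [AddCommGroup N] [Module R N]
    {τ : Type} [Finite τ] (t : τ → N ⊗[R] P)
    (ht : ∀ j, LinearMap.lTensor N f.toLinearMap (t j) = 0) :
    ∃ (E : Type) (_ : CommRing E) (_ : Algebra R E) (_ : Algebra.Etale R E)
      (g : P →ₐ[R] E) (h : E →ₐ[R] C), h.comp g = f ∧
      ∀ j, LinearMap.lTensor N g.toLinearMap (t j) = 0 := by
  classical
  have := Fintype.ofFinite τ
  let T : (τ → N) ⊗[R] P := ∑ j, LinearMap.rTensor P (LinearMap.single R (fun _ => N) j) (t j)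
  have key : ∀ {Q : Type} [AddCommGroup Q] [Module R Q] (φ : P →ₗ[R] Q),
      LinearMap.lTensor (τ → N) φ T = ∑ j, LinearMap.rTensor Q (LinearMap.single R (fun _ => N) j)
        (LinearMap.lTensor N φ (t j)) := by
    intro Q _ _ φ
    rw [map_sum]
    refine Finset.sum_congr rfl fun j _ => ?_
    rw [← LinearMap.comp_apply, ← LinearMap.comp_apply, LinearMap.rTensor_comp_lTensor,
      LinearMap.lTensor_comp_rTensor]
  obtain ⟨E, _, _, _, g, h, hh, hT⟩ := H.kill_tensor f T (by rw [key]; simp [ht])
  refine ⟨E, inferInstance, inferInstance, inferInstance, g, h, hh, fun j => ?_⟩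
  rw [key] at hT
  have h1 := congrArg (LinearMap.rTensor E (LinearMap.proj (R := R) (φ := fun _ : τ => N) j)) hT
  rw [map_sum, map_zero, Finset.sum_eq_single j] at h1
  · rw [← LinearMap.comp_apply, ← LinearMap.rTensor_comp, LinearMap.proj_comp_single_same,
      LinearMap.rTensor_id] at h1
    exact h1
  · intro i _ hij
    rw [← LinearMap.comp_apply, ← LinearMap.rTensor_comp,
      LinearMap.proj_comp_single_ne R _ j i hij.symm, LinearMap.rTensor_zero, LinearMap.zero_apply]
  · simp

/-- Finitely many tensors come from an etale stage. -/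
theorem IndEt.lift_tensors (H : IndEt R C) {P : Type} [CommRing P] [Algebra R P]
    [Algebra.FinitePresentation R P] (f : P →ₐ[R] C) {N : Type} [AddCommGroup N] [Module R N]
    {σ : Type} [Finite σ] (x : σ → N ⊗[R] C) :
    ∃ (E : Type) (_ : CommRing E) (_ : Algebra R E) (_ : Algebra.Etale R E)
      (g : P →ₐ[R] E) (h : E →ₐ[R] C) (y : σ → N ⊗[R] E), h.comp g = f ∧
      ∀ i, LinearMap.lTensor N h.toLinearMap (y i) = x i := by
  choose k m c hx using fun i => TensorProduct.exists_sum_tmul_eq (x i)
  obtain ⟨E, _, _, _, g, h, y, hh, hy⟩ := H.lift f (σ := Σ i, Fin (k i)) (fun a => c a.1 a.2)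
  refine ⟨E, inferInstance, inferInstance, inferInstance, g, h,
    fun i => ∑ j, m i j ⊗ₜ y ⟨i, j⟩, hh, fun i => ?_⟩
  rw [hx i, map_sum]
  refine Finset.sum_congr rfl fun j _ => ?_
  simp [hy]

/-- Finitely many polynomials come from an etale stage. -/
theorem IndEt.lift_mv (H : IndEt R C) {P : Type} [CommRing P] [Algebra R P]
    [Algebra.FinitePresentation R P] (f : P →ₐ[R] C) {σ τ : Type} [Finite τ]
    (F : τ → MvPolynomial σ C) :
    ∃ (E : Type) (_ : CommRing E) (_ : Algebra R E) (_ : Algebra.Etale R E)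
      (g : P →ₐ[R] E) (h : E →ₐ[R] C) (G : τ → MvPolynomial σ E), h.comp g = f ∧
      ∀ j, MvPolynomial.map (h : E →+* C) (G j) = F j := by
  obtain ⟨E, _, _, _, g, h, y, hh, hy⟩ := H.lift f (σ := Σ j, (F j).support)
    (fun a => (F a.1).coeff a.2)
  refine ⟨E, inferInstance, inferInstance, inferInstance, g, h,
    fun j => ∑ m : (F j).support, MvPolynomial.monomial m (y ⟨j, m⟩), hh, fun j => ?_⟩
  rw [map_sum]
  conv_rhs => rw [(F j).as_sum, ← Finset.sum_coe_sort]
  refine Finset.sum_congr rfl fun m _ => ?_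
  simp [hy]

theorem IndEt.baseChange (H : IndEt R C) (R' : Type) [CommRing R'] [Algebra R R'] :
    IndEt R' (R' ⊗[R] C) := by
  refine IndEt.of_solve fun n m x F hF => ?_
  obtain ⟨E, _, _, _, -, h, y, -, hy⟩ := H.lift_tensors (Algebra.ofId R C) x
  have hm : ∀ {A B : Type} [CommRing A] [CommRing B] [Algebra R A] [Algebra R B] (φ : A →ₐ[R] B)
      (u : R' ⊗[R] A), Algebra.TensorProduct.map (AlgHom.id R' R') φ u
        = LinearMap.lTensor R' φ.toLinearMap u := by
    intro A B _ _ _ _ φ u
    induction u using TensorProduct.induction_on with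
    | zero => simp
    | tmul a b => simp
    | add a b ha hb => rw [map_add, map_add, ha, hb]
  have hev : ∀ {A B : Type} [CommRing A] [CommRing B] [Algebra R' A] [Algebra R' B]
      (φ : A →ₐ[R'] B) (u : Fin n → A) (G : MvPolynomial (Fin n) R'),
      φ (MvPolynomial.aeval u G) = MvPolynomial.aeval (fun i => φ (u i)) G := by
    intro A B _ _ _ _ φ u G
    rw [← AlgHom.comp_apply, MvPolynomial.comp_aeval]
  obtain ⟨E', _, _, _, g, h', hh, hk⟩ := H.kill_tensors h
    (fun j => MvPolynomial.aeval y (F j)) (fun j => by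
      rw [← hm, hev, ← hF j]
      simp only [hm, hy])
  refine ⟨R' ⊗[R] E', inferInstance, inferInstance, inferInstance,
    Algebra.TensorProduct.map (AlgHom.id R' R') h',
    fun i => Algebra.TensorProduct.map (AlgHom.id R' R') g (y i), fun i => ?_, fun j => ?_⟩
  · beta_reduce
    rw [hm, hm, ← LinearMap.comp_apply, ← LinearMap.lTensor_comp, ← hy, ← hh]
    rfl
  · rw [← hev, hm, hk]

theorem IndEt.of_isPushout (H : IndEt R C) (R' C' : Type) [CommRing R'] [CommRing C']
    [Algebra R R'] [Algebra R C'] [Algebra R' C'] [Algebra C C'] [IsScalarTower R R' C']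
    [IsScalarTower R C C'] [Algebra.IsPushout R R' C C'] : IndEt R' C' :=
  (H.baseChange R').of_equiv (Algebra.IsPushout.equiv R R' C C')

/-- Cancellation over an etale stage. -/
theorem IndEt.cancel_etale (H : IndEt R C) (E : Type) [CommRing E] [Algebra R E] [Algebra E C]
    [IsScalarTower R E C] [Algebra.Etale R E] : IndEt E C := by
  intro P _ _ _ f
  let : Algebra R P := ((algebraMap E P).comp (algebraMap R E)).toAlgebra
  have : IsScalarTower R E P := IsScalarTower.of_algebraMap_eq fun _ => rfl
  have : Algebra.FinitePresentation R P := .trans R E P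
  obtain ⟨E', _, _, _, g, h, hh⟩ := H P (f.restrictScalars R)
  let : Algebra E E' := ((g : P →+* E').comp (algebraMap E P)).toAlgebra
  have : IsScalarTower R E E' := IsScalarTower.of_algebraMap_eq fun r => (g.commutes r).symm
  have : Algebra.Etale E E' := .of_restrictScalars R E E'
  refine ⟨E', inferInstance, inferInstance, inferInstance,
    { (g : P →+* E') with commutes' := fun _ => rfl },
    { (h : E' →+* C) with commutes' := fun e => ?_ }, ?_⟩
  · exact (congr($hh (algebraMap E P e)) : _ = f _).trans (f.commutes e)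
  · ext a
    exact congr($hh a)

/-- An etale map followed by an ind-etale map. -/
theorem IndEt.etale_comp (E : Type) [CommRing E] [Algebra R E] [Algebra E C]
    [IsScalarTower R E C] [Algebra.Etale R E] (H : IndEt E C) : IndEt R C := by
  intro P _ _ _ f
  obtain ⟨E', _, _, _, g, h, hh⟩ := H (E ⊗[R] P)
    (Algebra.TensorProduct.lift (Algebra.ofId E C) f fun _ _ => Commute.all _ _)
  let : Algebra R E' := ((algebraMap E E').comp (algebraMap R E)).toAlgebra
  have : IsScalarTower R E E' := IsScalarTower.of_algebraMap_eq fun _ => rfl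
  have : Algebra.Etale R E' := .comp R E E'
  refine ⟨E', inferInstance, inferInstance, inferInstance,
    (g.restrictScalars R).comp Algebra.TensorProduct.includeRight, h.restrictScalars R, ?_⟩
  ext a
  have := congr($hh (1 ⊗ₜ a))
  simpa using this

/-- An etale algebra over `C` comes from an etale stage. -/
theorem IndEt.spread (H : IndEt R C) (S : Type) [CommRing S] [Algebra C S] [Algebra.Etale C S] :
    ∃ (E : Type) (_ : CommRing E) (_ : Algebra R E) (_ : Algebra.Etale R E) (_ : Algebra E C)
      (_ : IsScalarTower R E C) (S₀ : Type) (_ : CommRing S₀) (_ : Algebra E S₀)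
      (_ : Algebra.Etale E S₀), Nonempty (S ≃ₐ[C] C ⊗[E] S₀) := by
  obtain ⟨A₀, B₀, _, _, hfg, _, ⟨e⟩⟩ := Algebra.Etale.exists_subalgebra_fg ℤ C S
  have : Algebra.FiniteType ℤ A₀ := ⟨A₀.fg_top.mpr hfg⟩
  have : Algebra.FinitePresentation ℤ A₀ := Algebra.FinitePresentation.of_finiteType.1 this
  obtain ⟨E, _, _, _, g, h, hh⟩ := H (R ⊗[ℤ] A₀)
    (Algebra.TensorProduct.lift (Algebra.ofId R C) A₀.val fun _ _ => Commute.all _ _)
  let : Algebra E C := (h : E →+* C).toAlgebra
  have : IsScalarTower R E C := IsScalarTower.of_algebraMap_eq fun r => (h.commutes r).symm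
  let : Algebra A₀ E := ((g : R ⊗[ℤ] A₀ →+* E).comp
    (Algebra.TensorProduct.includeRight (R := ℤ) (A := R) (B := A₀) : A₀ →+* _)).toAlgebra
  have : IsScalarTower A₀ E C := IsScalarTower.of_algebraMap_eq fun a => by
    have h1 := congr($hh (1 ⊗ₜ a))
    have h2 : h (g (1 ⊗ₜ a)) = (a : C) := by simpa using h1
    exact h2.symm
  exact ⟨E, inferInstance, inferInstance, inferInstance, inferInstance, inferInstance,
    E ⊗[A₀] B₀, inferInstance, inferInstance, inferInstance,
    ⟨e.trans (Algebra.TensorProduct.cancelBaseChange A₀ E C C B₀).symm⟩⟩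

/-- An ind-etale map followed by an etale map. -/
theorem IndEt.comp_etale (H : IndEt R C) (S : Type) [CommRing S] [Algebra C S] [Algebra R S]
    [IsScalarTower R C S] [Algebra.Etale C S] : IndEt R S := by
  obtain ⟨E, _, _, _, _, _, S₀, _, _, _, ⟨e⟩⟩ := H.spread S
  let : Algebra R S₀ := ((algebraMap E S₀).comp (algebraMap R E)).toAlgebra
  have : IsScalarTower R E S₀ := IsScalarTower.of_algebraMap_eq fun _ => rfl
  have : Algebra.Etale R S₀ := .comp R E S₀
  have h1 : IndEt R (S₀ ⊗[E] C) := IndEt.etale_comp S₀ ((H.cancel_etale E).baseChange S₀)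
  exact h1.of_equiv (((Algebra.TensorProduct.comm E S₀ C).restrictScalars R).trans
    (e.symm.restrictScalars R))

theorem IndEt.comp {B : Type} [CommRing B] [Algebra C B] [Algebra R B] [IsScalarTower R C B]
    (H : IndEt R C) (H' : IndEt C B) : IndEt R B := by
  intro P _ _ _ f
  obtain ⟨S, _, _, _, g, h, hh⟩ := H' (C ⊗[R] P)
    (Algebra.TensorProduct.lift (Algebra.ofId C B) f fun _ _ => Commute.all _ _)
  let : Algebra R S := ((algebraMap C S).comp (algebraMap R C)).toAlgebra
  have : IsScalarTower R C S := IsScalarTower.of_algebraMap_eq fun _ => rfl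
  obtain ⟨E, _, _, _, g', h', hh'⟩ := H.comp_etale S P
    ((g.restrictScalars R).comp Algebra.TensorProduct.includeRight)
  refine ⟨E, inferInstance, inferInstance, inferInstance, g', (h.restrictScalars R).comp h', ?_⟩
  rw [AlgHom.comp_assoc, hh']
  ext a
  have := congr($hh (1 ⊗ₜ a))
  simpa using this

/-- Cancellation. -/
theorem IndEt.cancel {B : Type} [CommRing B] [Algebra C B] [Algebra R B] [IsScalarTower R C B]
    (H : IndEt R C) (H' : IndEt R B) : IndEt C B := by
  refine IndEt.of_solve fun n m x F hF => ?_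
  obtain ⟨E, _, _, _, -, h, G, -, hG⟩ := H.lift_mv (Algebra.ofId R C) F
  let : Algebra E C := (h : E →+* C).toAlgebra
  have : IsScalarTower R E C := IsScalarTower.of_algebraMap_eq fun r => (h.commutes r).symm
  let : Algebra E B := ((algebraMap C B).comp (algebraMap E C)).toAlgebra
  have : IsScalarTower E C B := IsScalarTower.of_algebraMap_eq fun _ => rfl
  have : IsScalarTower R E B := IsScalarTower.of_algebraMap_eq fun r => by
    rw [IsScalarTower.algebraMap_apply R C B, IsScalarTower.algebraMap_apply R E C]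
    rfl
  obtain ⟨E', _, _, _, g', h', y, -, hy, hy'⟩ := (H'.cancel_etale E).solve (Algebra.ofId E B) x G
    (fun j => by
      rw [← hF j, ← hG j]
      exact (MvPolynomial.aeval_map_algebraMap C x (G j)).symm)
  have hg' : g' = Algebra.ofId E E' := Subsingleton.elim _ _
  subst hg'
  refine ⟨C ⊗[E] E', inferInstance, inferInstance, inferInstance,
    Algebra.TensorProduct.lift (Algebra.ofId C B) h' fun _ _ => Commute.all _ _,
    fun i => 1 ⊗ₜ y i, fun i => by simp [hy], fun j => ?_⟩
  rw [← hG j]
  refine (MvPolynomial.aeval_map_algebraMap C _ (G j)).trans ?_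
  have h1 : MvPolynomial.aeval y (G j) = 0 := hy' j
  have h2 := congrArg (Algebra.TensorProduct.includeRight (R := E) (A := C) (B := E')) h1
  rw [← AlgHom.comp_apply, MvPolynomial.comp_aeval, map_zero] at h2
  exact h2

theorem IndEt.of_isLocalization (M : Submonoid R) [IsLocalization M C] : IndEt R C := by
  classical
  refine IndEt.of_solve fun n m x F hF => ?_
  obtain ⟨s, hs⟩ := IsLocalization.exist_integer_multiples_of_finite M x
  choose a ha using hs
  let E := Localization.Away (s : R)
  let h : E →ₐ[R] C := IsLocalization.Away.liftAlgHom (s : R) (f := Algebra.ofId R C)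
    (IsLocalization.map_units C s)
  let y : Fin n → E := fun i => algebraMap R E (a i) * IsLocalization.Away.invSelf (s : R)
  have hy : ∀ i, h (y i) = x i := by
    intro i
    apply (IsLocalization.map_units C s).mul_left_cancel
    rw [← h.commutes, ← map_mul, mul_left_comm, IsLocalization.Away.mul_invSelf, mul_one,
      h.commutes, h.commutes, ha, Algebra.smul_def]
  have hz : ∀ j, ∃ t : M, algebraMap R E t * MvPolynomial.aeval y (F j) = 0 := by
    intro j
    have h0 : h (MvPolynomial.aeval y (F j)) = 0 := by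
      rw [← AlgHom.comp_apply, MvPolynomial.comp_aeval, ← hF j]
      simp only [hy]
    obtain ⟨⟨b, c⟩, hb⟩ := IsLocalization.surj (Submonoid.powers (s : R))
      (MvPolynomial.aeval y (F j))
    have h1 : algebraMap R C b = 0 := by
      rw [← h.commutes, ← hb, map_mul, h0, zero_mul]
    obtain ⟨t, ht⟩ := (IsLocalization.map_eq_zero_iff M C b).1 h1
    refine ⟨t, (IsLocalization.map_units E c).mul_right_cancel ?_⟩
    rw [mul_assoc, hb, ← map_mul, ht, map_zero, zero_mul]
  choose t ht using hz
  let T : M := ∏ j, t j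
  let E' := Localization.Away (algebraMap R E T)
  have hu : IsUnit (h (algebraMap R E T)) := by
    rw [h.commutes]
    exact IsLocalization.map_units C T
  refine ⟨E', inferInstance, inferInstance, inferInstance,
    IsLocalization.Away.liftAlgHom (algebraMap R E T) hu, fun i => algebraMap E E' (y i),
    fun i => (IsLocalization.Away.lift_eq _ hu _).trans (hy i), fun j => ?_⟩
  have h2 : MvPolynomial.aeval (fun i => algebraMap E E' (y i)) (F j)
      = algebraMap E E' (MvPolynomial.aeval y (F j)) := by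
    have := MvPolynomial.comp_aeval y (IsScalarTower.toAlgHom R E E')
    exact congr($this.symm (F j))
  rw [h2]
  apply (IsLocalization.Away.algebraMap_isUnit (S := E') (algebraMap R E T)).mul_left_cancel
  obtain ⟨c, hc⟩ : (t j : R) ∣ (T : R) := by
    simp only [T, SubmonoidClass.coe_finsetProd]
    exact Finset.dvd_prod_of_mem _ (Finset.mem_univ j)
  have h3 : algebraMap R E T * MvPolynomial.aeval y (F j) = 0 := by
    rw [hc, map_mul, mul_right_comm, ht, zero_mul]
  rw [mul_zero, ← map_mul, h3, map_zero]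

theorem IndEt.flat (H : IndEt R C) : Module.Flat R C := by
  rw [Module.Flat.iff_rTensor_injective']
  intro I
  rw [injective_iff_map_eq_zero]
  intro t ht
  obtain ⟨E, _, _, _, -, h, y, -, hy⟩ := H.lift_tensors (Algebra.ofId R C) (σ := Unit) fun _ => t
  obtain ⟨E', _, _, _, g, h', hh, hk⟩ := H.kill_tensor h
    (LinearMap.rTensor E I.subtype (y ())) (by
      rw [← LinearMap.comp_apply, LinearMap.lTensor_comp_rTensor, ← LinearMap.rTensor_comp_lTensor,
        LinearMap.comp_apply, hy, ht])
  rw [← LinearMap.comp_apply, LinearMap.lTensor_comp_rTensor, ← LinearMap.rTensor_comp_lTensor,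
    LinearMap.comp_apply] at hk
  have h1 := (injective_iff_map_eq_zero _).1
    (Module.Flat.rTensor_preserves_injective_linearMap (M := E') I.subtype I.injective_subtype) _ hk
  have h2 : h.toLinearMap = h'.toLinearMap ∘ₗ g.toLinearMap := by rw [← hh]; rfl
  rw [← hy (), h2, LinearMap.lTensor_comp, LinearMap.comp_apply, h1, map_zero]

end

end Pool.Agent.MP_855f4c_ag.E3

end

section

set_option autoImplicit false

namespace Pool.Agent.MP_855f4c_ag.E3

open IsLocalRing TensorProduct

section
variable {R : Type} [CommRing R]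

/-- Maps from an unramified algebra that agree at a point of a local ring agree. -/
theorem unr_ext {E B K : Type} [CommRing E] [Algebra R E] [Algebra.FormallyUnramified R E]
    [Algebra.EssFiniteType R E] [CommRing B] [Algebra R B] [CommRing K] (r : B →+* K)
    [IsLocalHom r] {g₁ g₂ : E →ₐ[R] B} (h : ∀ x, r (g₁ x) = r (g₂ x)) : g₁ = g₂ := by
  let φ : E ⊗[R] E →ₐ[R] B := Algebra.TensorProduct.lift g₁ g₂ fun _ _ => Commute.all _ _
  have h1 : ∀ t, r (φ t) = r (g₁ (Algebra.TensorProduct.lmul' R t)) := by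
    intro t
    induction t using TensorProduct.induction_on with
    | zero => simp
    | tmul a b => simp [φ, h]
    | add a b ha hb => simp only [map_add, ha, hb]
  have h2 : IsUnit (φ (Algebra.FormallyUnramified.elem R E)) := by
    apply isUnit_of_map_unit r
    rw [h1, Algebra.FormallyUnramified.lmul_elem, map_one, map_one]
    exact isUnit_one
  ext s
  have h3 := congrArg φ (Algebra.FormallyUnramified.one_tmul_sub_tmul_one_mul_elem (R := R) s)
  rw [map_mul, map_zero, h2.mul_left_eq_zero, map_sub, sub_eq_zero] at h3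
  simpa [φ] using h3.symm

theorem IndEt.ext {C B K : Type} [CommRing C] [Algebra R C] (H : IndEt R C) [CommRing B]
    [Algebra R B] [CommRing K] (r : B →+* K) [IsLocalHom r] {g₁ g₂ : C →ₐ[R] B}
    (h : ∀ x, r (g₁ x) = r (g₂ x)) : g₁ = g₂ := by
  ext x
  obtain ⟨E, _, _, _, -, k, y, -, hy⟩ := H.lift (Algebra.ofId R C) (σ := Unit) fun _ => x
  rw [← hy ()]
  exact congr($(unr_ext r (g₁ := g₁.comp k) (g₂ := g₂.comp k) fun z => h (k z)) (y ()))

/-- A prime of an unramified algebra is the kernel of a point in a separably closed field. -/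
theorem exists_point {S : Type} [CommRing S] [Algebra R S] [Algebra.FormallyUnramified R S]
    [Algebra.EssFiniteType R S] (K : Type) [Field K] [IsSepClosed K] [Algebra R K] (q : Ideal S)
    [q.IsPrime] (hq : q.comap (algebraMap R S) = RingHom.ker (algebraMap R K)) :
    ∃ φ : S →ₐ[R] K, RingHom.ker φ = q := by
  let p := q.under R
  let := Localization.AtPrime.algebraOfLiesOver p q
  let ι : p.ResidueField →ₐ[R] K := Ideal.ResidueField.liftₐ p (Algebra.ofId R K) hq.le
    (fun a ha => isUnit_iff_ne_zero.2 fun h => ha (hq.ge h))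
  let : Algebra p.ResidueField K := ι.toRingHom.toAlgebra
  have : IsScalarTower R p.ResidueField K :=
    IsScalarTower.of_algebraMap_eq fun a => (ι.commutes a).symm
  let ψ : q.ResidueField →ₐ[p.ResidueField] K := IsSepClosed.lift
  refine ⟨(ψ.restrictScalars R).comp (IsScalarTower.toAlgHom R S _), ?_⟩
  ext x
  rw [RingHom.mem_ker, ← Ideal.algebraMap_residueField_eq_zero]
  exact map_eq_zero_iff ψ ψ.toRingHom.injective

theorem ker_eq_max {A K : Type} [CommRing A] [IsLocalRing A] [Field K] (r : A →+* K)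
    [IsLocalHom r] : RingHom.ker r = maximalIdeal A := by
  ext a
  rw [RingHom.mem_ker, mem_maximalIdeal, mem_nonunits_iff, ← isUnit_map_iff r, isUnit_iff_ne_zero,
    not_not]

/-- Point form of the sections. -/
theorem SHL.sec_pt {A : Type} [CommRing A] [SHL A] {K S : Type} [Field K] [Algebra A K]
    [IsLocalHom (algebraMap A K)] [CommRing S] [Algebra A S] [Algebra.Etale A S]
    (φ : S →ₐ[A] K) : ∃ s : S →ₐ[A] A, ∀ x, algebraMap A K (s x) = φ x := by
  obtain ⟨s, hs⟩ := SHL.sec S (RingHom.ker φ) (RingHom.ker_isPrime φ) (by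
    rw [← ker_eq_max (algebraMap A K)]
    ext a
    simp [RingHom.mem_ker])
  refine ⟨s, fun x => ?_⟩
  have h1 : x - algebraMap A S (s x) ∈ RingHom.ker φ := by
    rw [← hs, Ideal.mem_comap]
    simp
  rw [RingHom.mem_ker, map_sub, sub_eq_zero, φ.commutes] at h1
  exact h1.symm

/-- Points of etale algebras lift to strictly henselian rings. -/
theorem SHL.lift_etale {B : Type} [CommRing B] [SHL B] [Algebra R B] {K E : Type} [Field K]
    [Algebra R K] (r : B →ₐ[R] K) [IsLocalHom r] [CommRing E] [Algebra R E] [Algebra.Etale R E]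
    (φ : E →ₐ[R] K) : ∃ s : E →ₐ[R] B, r.comp s = φ := by
  let : Algebra B K := r.toRingHom.toAlgebra
  have : IsScalarTower R B K := IsScalarTower.of_algebraMap_eq fun a => (r.commutes a).symm
  have : IsLocalHom (algebraMap B K) := ⟨fun a ha => isUnit_of_map_unit r a ha⟩
  obtain ⟨s, hs⟩ := SHL.sec_pt (S := B ⊗[R] E)
    (Algebra.TensorProduct.lift (Algebra.ofId B K) φ fun _ _ => Commute.all _ _)
  refine ⟨(s.restrictScalars R).comp Algebra.TensorProduct.includeRight, ?_⟩
  ext x
  have h1 : algebraMap B K (s (1 ⊗ₜ x)) = φ x := by simpa using hs (1 ⊗ₜ x)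
  exact h1

/-- Criterion by points in one separably closed field. -/
theorem SHL.of_point {A : Type} [CommRing A] (K : Type) [Field K] [IsSepClosed K] [Algebra A K]
    [IsLocalHom (algebraMap A K)]
    (h : ∀ (S : Type) [CommRing S] [Algebra A S] [Algebra.Etale A S] (φ : S →ₐ[A] K),
      ∃ s : S →ₐ[A] A, ∀ x, algebraMap A K (s x) = φ x) : SHL A :=
  have := (algebraMap A K).domain_isLocalRing
  { sec := fun S _ _ _ q _ hq => by
      obtain ⟨φ, hφ⟩ := exists_point K q (hq.trans (ker_eq_max _).symm)
      obtain ⟨s, hs⟩ := h S φ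
      refine ⟨s, ?_⟩
      ext x
      rw [Ideal.mem_comap, ← ker_eq_max (algebraMap A K), RingHom.mem_ker, hs, ← hφ,
        RingHom.mem_ker] }

/-- Lifting of points of etale algebras follows from lifting of simple roots. -/
theorem lift_of_root {B K : Type} [CommRing B] [Algebra R B] [Field K] [Algebra R K]
    (r : B →ₐ[R] K)
    (h : ∀ (P : StandardEtalePair R) (x : K), P.HasMap x → ∃ a : B, P.HasMap a ∧ r a = x)
    {E : Type} [CommRing E] [Algebra R E] [Algebra.Etale R E] (φ : E →ₐ[R] K) :
    ∃ s : E →ₐ[R] B, r.comp s = φ := by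
  have : (RingHom.ker φ).IsPrime := RingHom.ker_isPrime φ
  obtain ⟨f, hf, hS⟩ := Algebra.IsEtaleAt.exists_isStandardEtale (R := R) (RingHom.ker φ)
  obtain ⟨P⟩ := hS.nonempty_standardEtalePresentation
  have hu : IsUnit (φ f) := isUnit_iff_ne_zero.2 hf
  let φ' : Localization.Away f →ₐ[R] K := IsLocalization.Away.liftAlgHom f hu
  obtain ⟨a, h2, hax⟩ := h P.P _ (P.hasMap.map φ')
  let s' : Localization.Away f →ₐ[R] B := (P.P.lift a h2).comp P.equivRing.toAlgHom
  have h3 : r.comp s' = φ' := P.hom_ext (by simpa [s'] using hax)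
  refine ⟨s'.comp (IsScalarTower.toAlgHom R E _), ?_⟩
  ext x
  have h4 : r (s' (algebraMap E _ x)) = φ' (algebraMap E _ x) := congr($h3 _)
  exact h4.trans (IsLocalization.Away.lift_eq f hu x)

/-- Root criterion. -/
theorem SHL.of_root {A : Type} [CommRing A] (K : Type) [Field K] [IsSepClosed K] [Algebra A K]
    [IsLocalHom (algebraMap A K)]
    (h : ∀ (P : StandardEtalePair A) (x : K), P.HasMap x →
      ∃ a : A, P.HasMap a ∧ algebraMap A K a = x) : SHL A :=
  SHL.of_point K fun _ _ _ _ φ => by
    obtain ⟨s, hs⟩ := lift_of_root (Algebra.ofId A K) h φ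
    exact ⟨s, fun x => congr($hs x)⟩

/-- An ind-etale ring to which all points of etale algebras lift is strictly henselian. -/
theorem SHL.of_lift {A K : Type} [CommRing A] [Algebra R A] (H : IndEt R A) [Field K]
    [IsSepClosed K] [Algebra R K] (r : A →ₐ[R] K) [IsLocalHom r]
    (h : ∀ (E : Type) [CommRing E] [Algebra R E] [Algebra.Etale R E] (φ : E →ₐ[R] K),
      ∃ s : E →ₐ[R] A, r.comp s = φ) : SHL A := by
  let : Algebra A K := r.toRingHom.toAlgebra
  have : IsScalarTower R A K := IsScalarTower.of_algebraMap_eq fun a => (r.commutes a).symm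
  have : IsLocalHom (algebraMap A K) := ⟨fun a ha => isUnit_of_map_unit r a ha⟩
  refine SHL.of_point K fun S _ _ _ φ => ?_
  obtain ⟨E, _, _, _, _, _, S₀, _, _, _, ⟨e⟩⟩ := H.spread S
  let : Algebra R S₀ := ((algebraMap E S₀).comp (algebraMap R E)).toAlgebra
  have : IsScalarTower R E S₀ := IsScalarTower.of_algebraMap_eq fun _ => rfl
  have : Algebra.Etale R S₀ := .comp R E S₀
  let φ' : A ⊗[E] S₀ →ₐ[A] K := φ.comp e.symm.toAlgHom
  let ψ : S₀ →ₐ[R] K := (φ'.restrictScalars R).comp
    ((Algebra.TensorProduct.includeRight (R := E) (A := A) (B := S₀)).restrictScalars R)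
  obtain ⟨s₀, hs₀⟩ := h S₀ ψ
  have h1 : s₀.comp (IsScalarTower.toAlgHom R E S₀) = IsScalarTower.toAlgHom R E A := by
    refine unr_ext (algebraMap A K) fun x => ?_
    have h2 : r (s₀ (algebraMap E S₀ x)) = φ' (1 ⊗ₜ algebraMap E S₀ x) := congr($hs₀ _)
    rw [← Algebra.TensorProduct.includeRight_apply, AlgHom.commutes,
      IsScalarTower.algebraMap_apply E A (A ⊗[E] S₀), φ'.commutes] at h2
    exact h2
  let s₁ : S₀ →ₐ[E] A := { (s₀ : S₀ →+* A) with commutes' := fun x => congr($h1 x) }
  let s : A ⊗[E] S₀ →ₐ[A] A :=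
    Algebra.TensorProduct.lift (AlgHom.id A A) s₁ fun _ _ => Commute.all _ _
  have h3 : ∀ t, algebraMap A K (s t) = φ' t := by
    intro t
    induction t using TensorProduct.induction_on with
    | zero => simp
    | tmul a b =>
      have h4 : algebraMap A K (s₁ b) = φ' (1 ⊗ₜ b) := congr($hs₀ b)
      have h5 : (a ⊗ₜ[E] b : A ⊗[E] S₀) = algebraMap A _ a * 1 ⊗ₜ b := by simp
      rw [h5, map_mul φ', φ'.commutes, ← h4, ← map_mul]
      simp [s]
    | add a b ha hb => simp only [map_add, ha, hb]
  refine ⟨s.comp e.toAlgHom, fun x => ?_⟩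
  rw [AlgHom.comp_apply, h3]
  simp [φ']

/-- Universal property: points of ind-etale algebras lift to strictly henselian rings. -/
theorem SHL.lift {C B K : Type} [CommRing C] [Algebra R C] (H : IndEt R C) [CommRing B] [SHL B]
    [Algebra R B] [Field K] [Algebra R K] (r : B →ₐ[R] K) [IsLocalHom r] (φ : C →ₐ[R] K) :
    ∃ ψ : C →ₐ[R] B, r.comp ψ = φ := by
  have : IsLocalHom (r : B →+* K) := ⟨fun a ha => isUnit_of_map_unit r a ha⟩
  have ex : ∀ x : C, ∃ b : B, ∀ (E : Type) [CommRing E] [Algebra R E] [Algebra.Etale R E]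
      (h : E →ₐ[R] C) (s : E →ₐ[R] B) (y : E), r.comp s = φ.comp h → h y = x → s y = b := by
    intro x
    obtain ⟨E₁, _, _, _, -, h₁, y₁, -, hy₁⟩ := H.lift (Algebra.ofId R C) (σ := Unit) fun _ => x
    obtain ⟨s₁, hs₁⟩ := SHL.lift_etale r (φ.comp h₁)
    refine ⟨s₁ (y₁ ()), fun E₂ _ _ _ h₂ s₂ y₂ hs₂ hy₂ => ?_⟩
    have : Algebra.Etale R (E₁ ⊗[R] E₂) := .comp R E₁ _
    obtain ⟨E, _, _, _, g, h, hh, hk⟩ := H.kill
      (Algebra.TensorProduct.lift h₁ h₂ fun _ _ => Commute.all _ _) (τ := Unit)
      (fun _ => y₁ () ⊗ₜ 1 - 1 ⊗ₜ y₂) (fun _ => by simp [hy₁, hy₂])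
    obtain ⟨s, hs⟩ := SHL.lift_etale r (φ.comp h)
    have e₁ : (s.comp g).comp Algebra.TensorProduct.includeLeft = s₁ :=
      unr_ext (r : B →+* K) fun z => by
        have a1 : r (s (g (z ⊗ₜ 1))) = φ (h (g (z ⊗ₜ 1))) := congr($hs _)
        have a2 : h (g (z ⊗ₜ 1)) = h₁ z := by simpa using congr($hh (z ⊗ₜ 1))
        have a3 : r (s₁ z) = φ (h₁ z) := congr($hs₁ _)
        exact a1.trans (a2 ▸ a3.symm)
    have e₂ : (s.comp g).comp Algebra.TensorProduct.includeRight = s₂ :=
      unr_ext (r : B →+* K) fun z => by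
        have a1 : r (s (g (1 ⊗ₜ z))) = φ (h (g (1 ⊗ₜ z))) := congr($hs _)
        have a2 : h (g (1 ⊗ₜ z)) = h₂ z := by simpa using congr($hh (1 ⊗ₜ z))
        have a3 : r (s₂ z) = φ (h₂ z) := congr($hs₂ _)
        exact a1.trans (a2 ▸ a3.symm)
    have h3 := hk ()
    rw [map_sub, sub_eq_zero] at h3
    rw [← e₁, ← e₂]
    exact (congrArg s h3).symm
  choose f hf using ex
  have two : ∀ x x' : C, ∃ (E : Type) (_ : CommRing E) (_ : Algebra R E) (h : E →ₐ[R] C)
      (s : E →ₐ[R] B) (y y' : E), h y = x ∧ h y' = x' ∧ r.comp s = φ.comp h ∧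
      ∀ z, f (h z) = s z := by
    intro x x'
    obtain ⟨E, _, _, _, -, h, y, -, hy⟩ := H.lift (Algebra.ofId R C) ![x, x']
    obtain ⟨s, hs⟩ := SHL.lift_etale r (φ.comp h)
    exact ⟨E, inferInstance, inferInstance, h, s, y 0, y 1, hy 0, hy 1, hs,
      fun z => (hf _ E h s z hs rfl).symm⟩
  have hc : ∀ a : R, f (algebraMap R C a) = algebraMap R B a := by
    intro a
    obtain ⟨E, _, _, h, s, -, -, -, -, -, hz⟩ := two 0 0
    rw [← h.commutes, hz, s.commutes]
  refine ⟨⟨⟨⟨⟨f, ?_⟩, ?_⟩, ?_, ?_⟩, hc⟩, ?_⟩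
  · simpa using hc 1
  · intro x x'
    obtain ⟨E, _, _, h, s, y, y', rfl, rfl, -, hz⟩ := two x x'
    change f (_ * _) = f _ * f _
    rw [← map_mul, hz, hz, hz, map_mul]
  · simpa using hc 0
  · intro x x'
    obtain ⟨E, _, _, h, s, y, y', rfl, rfl, -, hz⟩ := two x x'
    change f (_ + _) = f _ + f _
    rw [← map_add, hz, hz, hz, map_add]
  · ext x
    obtain ⟨E, _, _, h, s, y, -, rfl, -, hs, hz⟩ := two x x
    change r (f (h y)) = _
    rw [hz]
    exact congr($hs y)

/-- A weakly universal etale algebra for finitely many standard pairs. -/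
theorem exists_univ_etale {ι : Type} (P : ι → StandardEtalePair R) (J : Finset ι) :
    ∃ (E : Type) (_ : CommRing E) (_ : Algebra R E) (_ : Algebra.Etale R E) (x : ι → E),
      (∀ i ∈ J, (P i).HasMap (x i)) ∧ ∀ (B : Type) [CommRing B] [Algebra R B] (b : ι → B),
        (∀ i ∈ J, (P i).HasMap (b i)) → ∃ h : E →ₐ[R] B, ∀ i ∈ J, h (x i) = b i := by
  classical
  induction J using Finset.induction_on with
  | empty => exact ⟨R, inferInstance, inferInstance, inferInstance, 0, by simp,
      fun B _ _ _ _ => ⟨Algebra.ofId R B, by simp⟩⟩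
  | insert a J ha ih =>
    obtain ⟨E, _, _, _, x, hx, hE⟩ := ih
    have : Algebra.Etale R (E ⊗[R] (P a).Ring) := .comp R E _
    refine ⟨E ⊗[R] (P a).Ring, inferInstance, inferInstance, inferInstance,
      fun i => if i = a then 1 ⊗ₜ (P a).X else x i ⊗ₜ 1, fun i hi => ?_, fun B _ _ b hb => ?_⟩
    · by_cases hia : i = a
      · subst hia
        simp only [if_true]
        exact StandardEtalePair.hasMap_X.map
          (Algebra.TensorProduct.includeRight (R := R) (A := E) (B := (P i).Ring))
      · simp only [if_neg hia]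
        exact (hx i ((Finset.mem_insert.1 hi).resolve_left hia)).map
          (Algebra.TensorProduct.includeLeft (R := R) (S := R) (A := E) (B := (P a).Ring))
    · obtain ⟨h, hh⟩ := hE B b fun i hi => hb i (Finset.mem_insert_of_mem hi)
      refine ⟨Algebra.TensorProduct.lift h ((P a).lift (b a) (hb a (Finset.mem_insert_self _ _)))
        fun _ _ => Commute.all _ _, fun i hi => ?_⟩
      by_cases hia : i = a
      · subst hia
        simp
      · simp [hia, hh i ((Finset.mem_insert.1 hi).resolve_left hia)]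

/-- A weakly universal ind-etale algebra for a family of standard pairs. -/
theorem exists_univ_indEt {ι : Type} (P : ι → StandardEtalePair R) :
    ∃ (T : Type) (_ : CommRing T) (_ : Algebra R T) (_ : IndEt R T) (x : ι → T),
      (∀ i, (P i).HasMap (x i)) ∧ ∀ (B : Type) [CommRing B] [Algebra R B] (b : ι → B),
        (∀ i, (P i).HasMap (b i)) → ∃ h : T →ₐ[R] B, ∀ i, h (x i) = b i := by
  classical
  let rel : ι ⊕ ι → MvPolynomial (ι ⊕ ι) R := Sum.elim
    (fun i => Polynomial.aeval (MvPolynomial.X (.inl i)) (P i).f)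
    (fun i => Polynomial.aeval (MvPolynomial.X (.inl i)) (P i).g * MvPolynomial.X (.inr i) - 1)
  let I : Ideal (MvPolynomial (ι ⊕ ι) R) := Ideal.span (Set.range rel)
  let π : MvPolynomial (ι ⊕ ι) R →ₐ[R] MvPolynomial (ι ⊕ ι) R ⧸ I := Ideal.Quotient.mkₐ R I
  have hrel : ∀ a, π (rel a) = 0 := fun a =>
    Ideal.Quotient.eq_zero_iff_mem.2 (Ideal.subset_span (Set.mem_range_self a))
  have hinv : ∀ i, Polynomial.aeval (π (MvPolynomial.X (.inl i))) (P i).g
      * π (MvPolynomial.X (.inr i)) = 1 := by
    intro i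
    have := hrel (.inr i)
    simp only [rel, Sum.elim_inr, map_sub, map_mul, map_one, sub_eq_zero] at this
    rwa [Polynomial.aeval_algHom_apply]
  have hx : ∀ i, (P i).HasMap (π (MvPolynomial.X (.inl i))) := fun i =>
    ⟨by rw [Polynomial.aeval_algHom_apply]; exact hrel (.inl i), IsUnit.of_mul_eq_one _ (hinv i)⟩
  have ev : ∀ (B : Type) [CommRing B] [Algebra R B] (b : ι → B) (a : ι ⊕ ι),
      (P (a.elim id id)).HasMap (b (a.elim id id)) →
      MvPolynomial.aeval (Sum.elim b fun i => Ring.inverse (Polynomial.aeval (b i) (P i).g))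
        (rel a) = 0 := by
    intro B _ _ b a hb
    cases a with
    | inl i =>
      simp only [rel, Sum.elim_inl]
      rw [← Polynomial.aeval_algHom_apply, MvPolynomial.aeval_X]
      exact hb.1
    | inr i =>
      simp only [rel, Sum.elim_inr, map_sub, map_mul, map_one]
      rw [← Polynomial.aeval_algHom_apply, MvPolynomial.aeval_X, MvPolynomial.aeval_X, sub_eq_zero]
      exact Ring.mul_inverse_cancel _ hb.2
  refine ⟨_, inferInstance, inferInstance, ?_, _, hx, fun B _ _ b hb => ?_⟩
  · refine IndEt.of_solve fun n m x F hF => ?_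
    choose p hp using fun k => Ideal.Quotient.mkₐ_surjective R I (x k)
    have h1 : ∀ j, ∃ c : ι ⊕ ι →₀ MvPolynomial (ι ⊕ ι) R,
        c.sum (fun a r => r • rel a) = MvPolynomial.aeval p (F j) := by
      intro j
      refine Finsupp.mem_span_range_iff_exists_finsupp.1 (Ideal.Quotient.eq_zero_iff_mem.1 ?_)
      change π _ = 0
      rw [← AlgHom.comp_apply, MvPolynomial.comp_aeval, ← hF j]
      simp only [π, hp]
    choose c hc using h1
    let J : Finset ι := ((Finset.univ.biUnion fun j => (c j).support) ∪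
      Finset.univ.biUnion fun k => (p k).vars).image (Sum.elim id id)
    obtain ⟨E, _, _, _, y, hy, hE⟩ := exists_univ_etale P J
    obtain ⟨h, hh⟩ := hE _ _ fun i _ => hx i
    let ψ : MvPolynomial (ι ⊕ ι) R →ₐ[R] E :=
      MvPolynomial.aeval (Sum.elim y fun i => Ring.inverse (Polynomial.aeval (y i) (P i).g))
    refine ⟨E, inferInstance, inferInstance, inferInstance, h, fun k => ψ (p k), fun k => ?_,
      fun j => ?_⟩
    · rw [← hp k]
      refine MvPolynomial.hom_congr_vars (f₁ := (h.comp ψ).toRingHom) (f₂ := π.toRingHom)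
        (RingHom.ext fun r => ((h.comp ψ).commutes r).trans (π.commutes r).symm) (fun a ha _ => ?_)
        rfl
      have hJ : a.elim id id ∈ J := Finset.mem_image_of_mem _ (Finset.mem_union_right _
        (Finset.mem_biUnion.2 ⟨k, Finset.mem_univ _, ha⟩))
      change h (ψ _) = π _
      cases a with
      | inl i => simpa [ψ] using hh i hJ
      | inr i =>
        have h2 := congrArg h (Ring.mul_inverse_cancel _ (hy i hJ).2)
        rw [map_mul, map_one, ← Polynomial.aeval_algHom_apply, hh i hJ, ← hinv i] at h2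
        simpa [ψ] using (hx i).2.mul_left_cancel h2
    · rw [← MvPolynomial.comp_aeval, AlgHom.comp_apply, ← hc, Finsupp.sum, map_sum]
      refine Finset.sum_eq_zero fun a ha => ?_
      have hJ : a.elim id id ∈ J := Finset.mem_image_of_mem _ (Finset.mem_union_left _
        (Finset.mem_biUnion.2 ⟨j, Finset.mem_univ _, ha⟩))
      rw [smul_eq_mul, map_mul, ev E y a (hy _ hJ), mul_zero]
  · refine ⟨Ideal.Quotient.liftₐ I
      (MvPolynomial.aeval (Sum.elim b fun i => Ring.inverse (Polynomial.aeval (b i) (P i).g)))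
      (fun a ha => ?_), fun i => ?_⟩
    · refine (Ideal.span_le (I := RingHom.ker _)).2 ?_ ha
      rintro _ ⟨a, rfl⟩
      exact ev B b a (hb _)
    · exact (Ideal.Quotient.lift_mk _ _ _).trans (MvPolynomial.aeval_X _ _)

/-- Existence of the strict henselisation at a point in a separably closed field. -/
theorem exists_SH (R K : Type) [CommRing R] [Field K] [IsSepClosed K] [Algebra R K] :
    ∃ (A : Type) (_ : CommRing A) (_ : Algebra R A) (_ : Algebra A K) (_ : IsScalarTower R A K)
      (_ : SHL A), IndEt R A ∧ IsLocalHom (algebraMap A K) := by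
  obtain ⟨T, _, _, hT, x, hx, hU⟩ := exists_univ_indEt
    (fun i : {a : StandardEtalePair R × K // a.1.HasMap a.2} => i.1.1)
  obtain ⟨φ, hφ⟩ := hU K (fun i => i.1.2) fun i => i.2
  have : (RingHom.ker φ).IsPrime := RingHom.ker_isPrime φ
  let A := Localization.AtPrime (RingHom.ker φ)
  let r : A →ₐ[R] K := IsLocalization.liftAlgHom (M := (RingHom.ker φ).primeCompl) (f := φ)
    fun y => isUnit_iff_ne_zero.2 y.2
  have hr : ∀ t, r (algebraMap T A t) = φ t := fun t => IsLocalization.lift_eq _ t
  have : IsLocalHom r := ⟨fun a ha => by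
    obtain ⟨⟨b, c⟩, hb⟩ := IsLocalization.surj (RingHom.ker φ).primeCompl a
    have h1 : φ b ≠ 0 := by
      rw [← hr, ← hb, map_mul, hr]
      exact mul_ne_zero ha.ne_zero c.2
    exact isUnit_of_mul_isUnit_left
      (hb ▸ IsLocalization.map_units A (⟨b, h1⟩ : (RingHom.ker φ).primeCompl))⟩
  have H : IndEt R A := hT.comp (IndEt.of_isLocalization (RingHom.ker φ).primeCompl)
  let : Algebra A K := r.toRingHom.toAlgebra
  refine ⟨A, inferInstance, inferInstance, inferInstance,
    IsScalarTower.of_algebraMap_eq fun a => (r.commutes a).symm,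
    SHL.of_lift H r fun E _ _ _ ψ => lift_of_root r (fun P z hz => ?_) ψ, H,
    ⟨fun a ha => isUnit_of_map_unit r a ha⟩⟩
  exact ⟨algebraMap T A (x ⟨(P, z), hz⟩), (hx _).map (IsScalarTower.toAlgHom R T A),
    (hr _).trans (hφ _)⟩

end

section
open Polynomial
variable {A : Type} [CommRing A]

theorem Aic.root_lift (hA : Aic A) {K : Type} [CommRing K] [IsDomain K] [Algebra A K] (x : K)
    (p : A[X]) (hp : p.Monic) (hx : aeval x p = 0) :
    ∃ a, p.eval a = 0 ∧ algebraMap A K a = x := by
  have : Nontrivial A := (algebraMap A K).domain_nontrivial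
  induction hd : p.natDegree generalizing p with
  | zero =>
    rw [hp.natDegree_eq_zero.1 hd, map_one] at hx
    exact absurd hx one_ne_zero
  | succ d ih =>
    obtain ⟨a, ha⟩ := hA p hp (by omega)
    obtain ⟨q, rfl⟩ := dvd_iff_isRoot.2 ha
    have hq : q.Monic := (monic_X_sub_C a).of_mul_monic_left hp
    rw [(monic_X_sub_C a).natDegree_mul hq, natDegree_X_sub_C] at hd
    rw [map_mul, mul_eq_zero] at hx
    rcases hx with hx | hx
    · refine ⟨a, ha, ?_⟩
      rw [map_sub, aeval_X, aeval_C, sub_eq_zero] at hx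
      exact hx.symm
    · obtain ⟨b, hb, hbx⟩ := ih q hq hx (by omega)
      exact ⟨b, by rw [eval_mul, hb, mul_zero], hbx⟩

/-- Absolutely integrally closed local rings are strictly henselian. -/
theorem Aic.shl (hA : Aic A) [IsLocalRing A] : SHL A := by
  let K := AlgebraicClosure (ResidueField A)
  have : IsLocalHom (algebraMap A K) := by
    refine ⟨fun a ha => ?_⟩
    rw [IsScalarTower.algebraMap_apply A (ResidueField A) K, isUnit_iff_ne_zero,
      map_ne_zero_iff _ (algebraMap (ResidueField A) K).injective] at ha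
    exact isUnit_of_map_unit (residue A) a (isUnit_iff_ne_zero.2 ha)
  refine SHL.of_root K fun P x hx => ?_
  obtain ⟨a, ha, rfl⟩ := hA.root_lift x P.f P.monic_f hx.1
  refine ⟨a, ⟨by simpa using ha, isUnit_of_map_unit (algebraMap A K) _ ?_⟩, rfl⟩
  have := hx.2
  rwa [aeval_algebraMap_apply] at this

end

end Pool.Agent.MP_855f4c_ag.E3

end

section

set_option autoImplicit false

namespace Pool.Agent.MP_855f4c_ag.E3

open IsLocalRing TensorProduct

section
variable {R C : Type} [CommRing R] [CommRing C] [Algebra R C]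

theorem unr_prime [Algebra.FormallyUnramified R C] [Algebra.EssFiniteType R C] (Q : Ideal C)
    [Q.IsPrime] {x : C} (hx : x ∈ Q) :
    ∃ s ∉ Q, s * x ∈ (Q.comap (algebraMap R C)).map (algebraMap R C) := by
  let p := Q.under R
  let := Localization.AtPrime.algebraOfLiesOver p Q
  have h1 := ((Algebra.isUnramifiedAt_iff_map_eq R p Q).1 inferInstance).2
  have h2 : algebraMap C (Localization.AtPrime Q) x ∈
      (p.map (algebraMap R C)).map (algebraMap C (Localization.AtPrime Q)) := by
    rw [Ideal.map_map, ← IsScalarTower.algebraMap_eq, h1]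
    exact (IsLocalization.AtPrime.to_map_mem_maximal_iff _ Q x).2 hx
  obtain ⟨⟨i, s⟩, hs⟩ := (IsLocalization.mem_map_algebraMap_iff Q.primeCompl _).1 h2
  rw [← map_mul] at hs
  obtain ⟨c, hc⟩ := (IsLocalization.eq_iff_exists Q.primeCompl _).1 hs
  refine ⟨c * s, (c * s).2, ?_⟩
  rw [mul_assoc, mul_comm (s : C) x, hc]
  exact Ideal.mul_mem_left _ _ i.2

/-- Primes of an ind-etale algebra are locally generated by the prime below. -/
theorem IndEt.prime (H : IndEt R C) (Q : Ideal C) [Q.IsPrime] {x : C} (hx : x ∈ Q) :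
    ∃ s ∉ Q, s * x ∈ (Q.comap (algebraMap R C)).map (algebraMap R C) := by
  obtain ⟨E, _, _, _, -, h, y, -, hy⟩ := H.lift (Algebra.ofId R C) (σ := Unit) fun _ => x
  obtain ⟨s, hs, hsy⟩ := unr_prime (R := R) (Q.comap h) (x := y ()) (by
    rw [Ideal.mem_comap, hy]; exact hx)
  refine ⟨h s, hs, ?_⟩
  have h1 := Ideal.mem_map_of_mem (h : E →+* C) hsy
  rw [Ideal.map_map, h.comp_algebraMap] at h1
  have h2 : (Q.comap h).comap (algebraMap R E) = Q.comap (algebraMap R C) := by
    ext a
    simp [Ideal.mem_comap]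
  rw [h2] at h1
  simpa [hy] using h1

theorem IndEt.map_maximalIdeal (H : IndEt R C) [IsLocalRing C] :
    ((maximalIdeal C).comap (algebraMap R C)).map (algebraMap R C) = maximalIdeal C := by
  refine le_antisymm Ideal.map_comap_le fun x hx => ?_
  obtain ⟨s, hs, hsx⟩ := H.prime (maximalIdeal C) hx
  exact (Ideal.unit_mul_mem_iff_mem _ (notMem_maximalIdeal.1 hs)).1 hsx

theorem IndEt.map_maximalIdeal' (H : IndEt R C) [IsLocalRing R] [IsLocalRing C]
    [IsLocalHom (algebraMap R C)] : (maximalIdeal R).map (algebraMap R C) = maximalIdeal C := by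
  rw [← H.map_maximalIdeal, maximalIdeal_comap]

/-- Points of ind-etale algebras have separable coordinates. -/
theorem IndEt.isSeparable (H : IndEt R C) (k : Type) {K : Type} [Field k] [Field K] [Algebra R k]
    [Algebra R K] [Algebra k K] [IsScalarTower R k K] (φ : C →ₐ[R] K) (x : C) :
    IsSeparable k (φ x) := by
  obtain ⟨E, _, _, _, -, h, y, -, hy⟩ := H.lift (Algebra.ofId R C) (σ := Unit) fun _ => x
  let ψ : k ⊗[R] E →ₐ[k] K :=
    Algebra.TensorProduct.lift (Algebra.ofId k K) (φ.comp h) fun _ _ => Commute.all _ _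
  have : (RingHom.ker ψ).IsPrime := RingHom.ker_isPrime ψ
  have : Module.Finite k (k ⊗[R] E) := Algebra.FormallyUnramified.finite_of_free _ _
  have : IsArtinianRing (k ⊗[R] E) := IsArtinianRing.of_finite k _
  let := Ideal.Quotient.field (RingHom.ker ψ)
  have := Algebra.FormallyUnramified.isSeparable k ((k ⊗[R] E) ⧸ RingHom.ker ψ)
  have h1 := (Algebra.IsSeparable.isSeparable k (Ideal.Quotient.mk (RingHom.ker ψ) (1 ⊗ₜ y ()))).map
    (Ideal.kerLiftAlg ψ) (Ideal.kerLiftAlg_injective ψ)
  rw [Ideal.kerLiftAlg_mk] at h1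
  simpa [ψ, hy] using h1

theorem IndEt.injective (H : IndEt R C) [IsDomain R] [Nontrivial C] :
    Function.Injective (algebraMap R C) := by
  have := H.flat
  exact FaithfulSMul.algebraMap_injective R C

/-- Etale algebras over a normal domain: the support idempotent of an element. -/
theorem etale_reg [IsDomain R] [IsIntegrallyClosed R] [Algebra.Etale R C] (b : C) :
    ∃ e : C, IsIdempotentElem e ∧ e * b = b ∧ (∀ y, b * y = 0 → e * y = 0) ∧
      ∀ (n : ℕ) (a : C) (c : Fin n → C), a ^ n + ∑ i, c i * a ^ (i : ℕ) * b ^ (n - i) = 0 →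
        ∃ w, b * w = e * a := by
  let K := FractionRing R
  let ι : C →+* C ⊗[R] K := algebraMap C (C ⊗[R] K)
  have hι : Function.Injective ι :=
    Algebra.TensorProduct.includeLeft_injective (S := C) (IsFractionRing.injective R K)
  have ic : ∀ w : C ⊗[R] K, IsIntegral C w → ∃ v, ι v = w := by
    intro w hw
    obtain ⟨t, ht⟩ := (TensorProduct.toIntegralClosure_bijective_of_smooth
      (R := R) (S := C) (B := K)).2 ⟨w, hw⟩
    have h1 : Algebra.TensorProduct.map (.id C C) (integralClosure R K).val t = w :=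
      congrArg Subtype.val ht
    rw [← h1]
    clear h1 ht
    induction t using TensorProduct.induction_on with
    | zero => exact ⟨0, by simp⟩
    | tmul a z =>
      obtain ⟨r, hr⟩ := (isIntegrallyClosed_iff K).1 inferInstance z.2
      refine ⟨r • a, ?_⟩
      change (r • a) ⊗ₜ[R] (1 : K) = a ⊗ₜ[R] (z : K)
      rw [← hr, Algebra.algebraMap_eq_smul_one, TensorProduct.smul_tmul]
    | add a z ha hz =>
      obtain ⟨v, hv⟩ := ha
      obtain ⟨v', hv'⟩ := hz
      exact ⟨v + v', by rw [map_add, map_add, hv, hv']⟩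
  obtain ⟨u, hu⟩ : ∃ u, ι b * (ι b * u) = ι b := by
    have : Module.Finite K (K ⊗[R] C) := Algebra.FormallyUnramified.finite_of_free _ _
    have : IsArtinianRing (K ⊗[R] C) := IsArtinianRing.of_finite K _
    have : IsReduced (K ⊗[R] C) := Algebra.FormallyUnramified.isReduced_of_field K _
    let x : K ⊗[R] C := 1 ⊗ₜ b
    obtain ⟨n, u, hu⟩ := IsArtinian.exists_pow_succ_smul_dvd x (1 : K ⊗[R] C)
    rw [smul_eq_mul, smul_eq_mul, mul_one] at hu
    have h1 : x * (x * u) - x = 0 := by
      refine IsNilpotent.eq_zero ⟨n + 1, ?_⟩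
      have h2 : x ^ n * (x * u - 1) = 0 := by
        rw [mul_sub, mul_one, ← mul_assoc, ← pow_succ, sub_eq_zero]
        exact hu
      calc (x * (x * u) - x) ^ (n + 1)
          = (x ^ n * (x * u - 1)) * (x * (x * u - 1) ^ n) := by
            rw [show x * (x * u) - x = x * (x * u - 1) by ring, mul_pow]; ring
        _ = 0 := by rw [h2, zero_mul]
    refine ⟨Algebra.TensorProduct.comm R K C u, ?_⟩
    have h3 := congrArg (Algebra.TensorProduct.comm R K C) (sub_eq_zero.1 h1)
    rw [map_mul, map_mul] at h3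
    exact h3
  have hid : IsIdempotentElem (ι b * u) := by
    change _ * _ = _
    rw [mul_right_comm, hu]
  obtain ⟨e, he⟩ := ic (ι b * u) ⟨Polynomial.X ^ 2 - Polynomial.X,
    Polynomial.monic_X_pow_sub (Polynomial.degree_X_le.trans_lt (by decide)), by
      rw [Polynomial.eval₂_sub, Polynomial.eval₂_X_pow, Polynomial.eval₂_X, pow_two, hid.eq,
        sub_self]⟩
  refine ⟨e, hι (by rw [map_mul, he, hid.eq]), hι (by rw [map_mul, he, mul_comm, hu]),
    fun y hy => hι ?_, fun n a c h => ?_⟩
  · rw [map_mul, he, mul_right_comm, ← map_mul, hy, map_zero, zero_mul]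
  · obtain ⟨w, hw⟩ := ic (ι a * u) ⟨Polynomial.X ^ n +
        ∑ i : Fin n, Polynomial.C (c i * e ^ (n - i)) * Polynomial.X ^ (i : ℕ),
      Polynomial.monic_X_pow_add (Polynomial.degree_sum_fin_lt _), by
        have h1 := congrArg (fun t => ι t * u ^ n) h
        simp only [map_add, map_sum, map_mul, map_pow, map_zero, zero_mul, add_mul,
          Finset.sum_mul] at h1
        rw [← h1, Polynomial.eval₂_add, Polynomial.eval₂_X_pow, Polynomial.eval₂_finsetSum,
          mul_pow]
        congr 1
        refine Finset.sum_congr rfl fun i _ => ?_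
        rw [Polynomial.eval₂_mul, Polynomial.eval₂_C, Polynomial.eval₂_X_pow]
        change ι _ * _ = _
        have h2 : u ^ n = u ^ (i : ℕ) * u ^ (n - i) := by
          rw [← pow_add, Nat.add_sub_cancel' i.2.le]
        rw [map_mul, map_pow, he, h2, mul_pow, mul_pow]
        ring⟩
    exact ⟨w, hι (by rw [map_mul, map_mul, hw, he]; ring)⟩

theorem IndEt.isDomain (H : IndEt R C) [IsDomain R] [IsIntegrallyClosed R] [IsLocalRing C] :
    IsDomain C := by
  have : NoZeroDivisors C := ⟨fun {x y} hxy => by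
    obtain ⟨E₀, _, _, _, -, h₀, z, -, hz⟩ := H.lift (Algebra.ofId R C) ![x, y]
    obtain ⟨E, _, _, _, g, h, hh, hk⟩ := H.kill h₀ (τ := Unit) (fun _ => z 0 * z 1)
      (fun _ => by rw [map_mul, hz, hz]; exact hxy)
    have hx : h (g (z 0)) = x := (congr($hh (z 0)) : _ = h₀ _).trans (hz 0)
    have hy : h (g (z 1)) = y := (congr($hh (z 1)) : _ = h₀ _).trans (hz 1)
    obtain ⟨e, -, he, he', -⟩ := etale_reg (R := R) (g (z 0))
    rcases isUnit_or_isUnit_one_sub_self (h e) with hu | hu
    · right
      have := congrArg h (he' (g (z 1)) (by rw [← map_mul, hk ()]))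
      rwa [map_mul, hy, map_zero, hu.mul_right_eq_zero] at this
    · left
      have := congrArg h he
      rw [map_mul, hx] at this
      rw [← hu.mul_right_eq_zero, sub_mul, one_mul, this, sub_self]⟩
  exact NoZeroDivisors.to_isDomain C

theorem IndEt.isIntegrallyClosed (H : IndEt R C) [IsDomain R] [IsIntegrallyClosed R] [IsDomain C] :
    IsIntegrallyClosed C := by
  refine (isIntegrallyClosed_iff (FractionRing C)).2 fun {z} ⟨p, hp, hz⟩ => ?_
  obtain ⟨a, b, hb, rfl⟩ := IsFractionRing.div_surjective (A := C) z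
  have hb0 : b ≠ 0 := nonZeroDivisors.ne_zero hb
  have hb1 : algebraMap C (FractionRing C) b ≠ 0 :=
    (map_ne_zero_iff _ (IsFractionRing.injective C _)).2 hb0
  set n := p.natDegree
  have h1 : a ^ n + ∑ i : Fin n, p.coeff i * a ^ (i : ℕ) * b ^ (n - i) = 0 := by
    apply IsFractionRing.injective C (FractionRing C)
    rw [hp.as_sum, Polynomial.eval₂_add, Polynomial.eval₂_X_pow, Polynomial.eval₂_finsetSum,
      Finset.sum_range] at hz
    have h2 := congrArg (· * algebraMap C (FractionRing C) b ^ n) hz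
    simp only [add_mul, Finset.sum_mul, zero_mul] at h2
    rw [map_zero, ← h2, map_add, map_pow, map_sum, div_pow, div_mul_cancel₀ _ (pow_ne_zero _ hb1)]
    congr 1
    refine Finset.sum_congr rfl fun i _ => ?_
    have h3 : algebraMap C (FractionRing C) b ^ n = algebraMap C (FractionRing C) b ^ (i : ℕ) *
        algebraMap C (FractionRing C) b ^ (n - i) := by
      rw [← pow_add, Nat.add_sub_cancel' i.2.le]
    rw [Polynomial.eval₂_mul, Polynomial.eval₂_C, Polynomial.eval₂_X_pow, h3, map_mul, map_mul,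
      map_pow, map_pow, div_pow]
    field_simp
  obtain ⟨E₀, _, _, _, -, h₀, y, -, hy⟩ := H.lift (Algebra.ofId R C)
    (Sum.elim ![a, b] fun i : Fin n => p.coeff i)
  obtain ⟨E, _, _, _, g, h, hh, hk⟩ := H.kill h₀ (τ := Unit) (fun _ => y (.inl 0) ^ n +
      ∑ i : Fin n, y (.inr i) * y (.inl 0) ^ (i : ℕ) * y (.inl 1) ^ (n - i))
    (fun _ => by simpa [hy] using h1)
  have ha' : h (g (y (.inl 0))) = a := (congr($hh _) : _ = h₀ _).trans (hy _)
  have hb' : h (g (y (.inl 1))) = b := (congr($hh _) : _ = h₀ _).trans (hy _)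
  obtain ⟨e, -, he, -, he'⟩ := etale_reg (R := R) (g (y (.inl 1)))
  obtain ⟨w, hw⟩ := he' n (g (y (.inl 0))) (fun i => g (y (.inr i))) (by simpa using hk ())
  have h4 := congrArg h he
  rw [map_mul, hb', mul_left_eq_self₀] at h4
  have h5 := congrArg h hw
  rw [map_mul, map_mul, hb', ha', h4.resolve_right hb0, one_mul] at h5
  exact ⟨h w, by rw [eq_div_iff hb1, ← map_mul, mul_comm, h5]⟩

theorem exists_pow_mul_unit {A : Type} [CommRing A] [IsLocalRing A] [IsNoetherianRing A] {π : A}
    (hπ : maximalIdeal A ≤ Ideal.span {π}) (h1 : ¬ IsUnit π) {x : A} (hx : x ≠ 0) :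
    ∃ (n : ℕ) (u : A), IsUnit u ∧ x = π ^ n * u := by
  classical
  have h2 : ∃ n : ℕ, ¬ π ^ (n + 1) ∣ x := by
    by_contra! h
    apply hx
    rw [← Ideal.mem_bot, ← Ideal.iInf_pow_eq_bot_of_isLocalRing (Ideal.span {π})
      (Ideal.span_singleton_ne_top h1), Ideal.mem_iInf]
    intro i
    rw [Ideal.span_singleton_pow, Ideal.mem_span_singleton]
    exact (pow_dvd_pow π i.le_succ).trans (h i)
  have h3 : π ^ Nat.find h2 ∣ x := by
    rcases h : Nat.find h2 with _ | m
    · simp
    · exact not_not.1 (Nat.find_min h2 (by omega))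
  obtain ⟨u, hu⟩ := h3
  refine ⟨_, u, ?_, hu⟩
  by_contra h
  obtain ⟨c, rfl⟩ := Ideal.mem_span_singleton.1 (hπ h)
  exact Nat.find_spec h2 ⟨c, by rw [pow_succ, mul_assoc]; exact hu⟩

/-- A local ind-etale algebra over a noetherian ring at a principal prime. -/
theorem IndEt.pow_mul_unit (H : IndEt R C) [IsNoetherianRing R] [IsLocalRing C] {π : R}
    (hπ : (maximalIdeal C).comap (algebraMap R C) = Ideal.span {π}) {x : C} (hx : x ≠ 0) :
    ∃ (n : ℕ) (u : C), IsUnit u ∧ x = algebraMap R C π ^ n * u := by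
  obtain ⟨E, _, _, _, -, h, y, -, hy⟩ := H.lift (Algebra.ofId R C) (σ := Unit) fun _ => x
  have : IsNoetherianRing E := Algebra.FiniteType.isNoetherianRing R E
  let q := (maximalIdeal C).comap h
  let A := Localization.AtPrime q
  let r : A →ₐ[R] C := IsLocalization.liftAlgHom (M := q.primeCompl) (f := h)
    fun y => notMem_maximalIdeal.1 y.2
  have hr : ∀ t, r (algebraMap E A t) = h t := fun t => IsLocalization.lift_eq _ t
  have hA : IndEt R A := IndEt.of_etale.comp (IndEt.of_isLocalization q.primeCompl)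
  have h1 : (maximalIdeal A).comap (algebraMap R A) = Ideal.span {π} := by
    rw [← hπ]
    ext a
    rw [Ideal.mem_comap, IsScalarTower.algebraMap_apply R E A,
      IsLocalization.AtPrime.to_map_mem_maximal_iff A q]
    simp [q, Ideal.mem_comap]
  have h2 := hA.map_maximalIdeal
  rw [h1, Ideal.map_span, Set.image_singleton] at h2
  obtain ⟨n, u, hu, hyu⟩ := exists_pow_mul_unit (x := algebraMap E A (y ())) h2.ge
    (fun hπ' => notMem_maximalIdeal.2 hπ' (h2 ▸ Ideal.mem_span_singleton_self _))
    (fun h0 => hx (by rw [← hy (), ← hr, h0, map_zero]))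
  exact ⟨n, r u, hu.map r, by rw [← hy (), ← hr, hyu, map_mul, map_pow, r.commutes]⟩

/-- A local ind-etale algebra over a discrete valuation ring. -/
theorem IndEt.dvr (H : IndEt R C) [IsDomain R] [IsDiscreteValuationRing R] [IsLocalRing C]
    [IsLocalHom (algebraMap R C)] [IsDomain C] :
    IsDiscreteValuationRing C ∧ ∀ π : R, Irreducible π → Irreducible (algebraMap R C π) := by
  have key : ∀ π : R, Irreducible π → Irreducible (algebraMap R C π) := by
    intro π hπ
    have h1 := H.map_maximalIdeal'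
    rw [hπ.maximalIdeal_eq, Ideal.map_span, Set.image_singleton] at h1
    have h0 : algebraMap R C π ≠ 0 := (map_ne_zero_iff _ H.injective).2 hπ.ne_zero
    exact ((Ideal.span_singleton_prime h0).1 (h1 ▸ inferInstance)).irreducible
  refine ⟨?_, key⟩
  obtain ⟨π, hπ⟩ := IsDiscreteValuationRing.exists_irreducible R
  refine IsDiscreteValuationRing.ofHasUnitMulPowIrreducibleFactorization
    ⟨_, key π hπ, fun {x} hx => ?_⟩
  obtain ⟨n, u, hu, rfl⟩ := H.pow_mul_unit (π := π)
    (by rw [maximalIdeal_comap, hπ.maximalIdeal_eq]) hx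
  exact ⟨n, associated_mul_unit_right _ _ hu⟩

end

end Pool.Agent.MP_855f4c_ag.E3

end

section

set_option autoImplicit false

namespace Pool.Agent.MP_855f4c_ag.E3

open IsLocalRing TensorProduct Polynomial

section Basic

variable {A : Type} [CommRing A] [SHL A]

theorem SHL.sec_sub (S : Type) [CommRing S] [Algebra A S] [Algebra.Etale A S] (q : Ideal S)
    (hq : q.IsPrime) (h : q.comap (algebraMap A S) = maximalIdeal A) :
    ∃ s : S →ₐ[A] A, ∀ x, x - algebraMap A S (s x) ∈ q := by
  obtain ⟨s, hs⟩ := SHL.sec S q hq h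
  exact ⟨s, fun x => by rw [← hs, Ideal.mem_comap]; simp⟩

theorem SHL.sec_pt2 {K S : Type} [Field K] [Algebra A K] [CommRing S] [Algebra A S]
    [Algebra.Etale A S] (hK : RingHom.ker (algebraMap A K) = maximalIdeal A) (φ : S →ₐ[A] K) :
    ∃ s : S →ₐ[A] A, ∀ x, algebraMap A K (s x) = φ x := by
  obtain ⟨s, hs⟩ := SHL.sec_sub (A := A) S (RingHom.ker φ) (RingHom.ker_isPrime φ) (by
    rw [← hK]; ext a; simp [RingHom.mem_ker])
  refine ⟨s, fun x => ?_⟩
  have := hs x
  rw [RingHom.mem_ker, map_sub, AlgHom.commutes, sub_eq_zero] at this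
  exact this.symm

theorem SHL.root {K : Type} [Field K] [Algebra A K]
    (hK : RingHom.ker (algebraMap A K) = maximalIdeal A) (p : A[X]) (hp : p.Monic) (x : K)
    (hx : aeval x p = 0) (hx' : aeval x (derivative p) ≠ 0) :
    ∃ a, p.eval a = 0 ∧ algebraMap A K a = x := by
  let P : StandardEtalePair A := ⟨p, hp, derivative p, 1, 0, 1, by simp⟩
  have h : P.HasMap x := ⟨hx, isUnit_iff_ne_zero.2 hx'⟩
  obtain ⟨s, hs⟩ := SHL.sec_pt2 hK (P.lift x h)
  exact ⟨s P.X, by simpa using (P.hasMap_X.map s).1, by rw [hs, P.lift_X]⟩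

theorem SHL.isSepClosed : IsSepClosed (ResidueField A) := by
  refine IsSepClosed.of_exists_root _ fun p hp hi hs => ?_
  obtain ⟨q, hq, -, hq'⟩ := lifts_and_natDegree_eq_and_monic
    (map_surjective (residue A) residue_surjective p) hp
  have : Fact (Irreducible p) := ⟨hi⟩
  have h0 : ∀ r : A[X], aeval (AdjoinRoot.root p) r = aeval (AdjoinRoot.root p) (r.map (residue A)) :=
    fun r => (aeval_map_algebraMap (ResidueField A) _ r).symm
  obtain ⟨a, ha, -⟩ := SHL.root (K := AdjoinRoot p) (by
    rw [IsScalarTower.algebraMap_eq A (ResidueField A), RingHom.ker_comp_of_injective _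
      (algebraMap (ResidueField A) (AdjoinRoot p)).injective]
    exact ker_residue) q hq' (AdjoinRoot.root p) (by rw [h0, hq]; simp) (by
      rw [h0, ← derivative_map, hq]
      exact hs.aeval_derivative_ne_zero (by simp))
  exact ⟨residue A a, by rw [← hq, eval_map, eval₂_at_apply, ha, map_zero]⟩

/-- Hensel's lemma for square systems. -/
theorem SHL.hensel_square {K σ : Type} [Field K] [Algebra A K] [Fintype σ] [DecidableEq σ]
    (hK : RingHom.ker (algebraMap A K) = maximalIdeal A) (F : σ → MvPolynomial σ A)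
    (x : σ → K) (h0 : ∀ i, MvPolynomial.aeval x (F i) = 0)
    (hJ : (Matrix.of fun i j => MvPolynomial.aeval x (MvPolynomial.pderiv i (F j))).det ≠ 0) :
    ∃ z : σ → A, (∀ i, algebraMap A K (z i) = x i) ∧ ∀ i, MvPolynomial.eval z (F i) = 0 := by
  let S0 := MvPolynomial σ A ⧸ Ideal.span (Set.range F)
  let P : Algebra.PreSubmersivePresentation A S0 σ σ :=
    Algebra.PreSubmersivePresentation.naive (v := F) id Function.injective_id
  let S := Localization.Away P.jacobian
  let Q : Algebra.SubmersivePresentation A S (Unit ⊕ σ) (Unit ⊕ σ) :=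
    { toPreSubmersivePresentation :=
        (Algebra.PreSubmersivePresentation.localizationAway S P.jacobian).comp P
      jacobian_isUnit := by
        rw [Algebra.PreSubmersivePresentation.comp_jacobian_eq_jacobian_smul_jacobian,
          Algebra.PreSubmersivePresentation.localizationAway_jacobian, Algebra.smul_def]
        exact (IsLocalization.Away.algebraMap_isUnit _).mul
          (IsLocalization.Away.algebraMap_isUnit _) }
  have : Algebra.IsStandardSmoothOfRelativeDimension 0 A S :=
    Q.isStandardSmoothOfRelativeDimension (Nat.sub_self _)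
  have : Algebra.Etale A S := Algebra.Etale.iff_isStandardSmoothOfRelativeDimension_zero.2 this
  let φ0 : S0 →ₐ[A] K := Ideal.Quotient.liftₐ _ (MvPolynomial.aeval x) (by
    intro a ha
    refine (Ideal.span_le (I := RingHom.ker (MvPolynomial.aeval x)).2 ?_) ha
    rintro _ ⟨i, rfl⟩
    exact h0 i)
  have hu : IsUnit (φ0 P.jacobian) := by
    rw [isUnit_iff_ne_zero, P.jacobian_eq_jacobiMatrix_det]
    have : φ0 (algebraMap P.Ring S0 P.jacobiMatrix.det) =
        MvPolynomial.aeval x P.jacobiMatrix.det := by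
      have e : ∀ p : MvPolynomial σ A, algebraMap P.Ring S0 p = Ideal.Quotient.mk _ p := by
        intro p
        rw [Algebra.Generators.algebraMap_apply]
        induction p using MvPolynomial.induction_on with
        | C a => rw [MvPolynomial.aeval_C]; rfl
        | add p q hp hq => rw [map_add, map_add, hp, hq]
        | mul_X p i hp => rw [map_mul, map_mul, hp, MvPolynomial.aeval_X]; rfl
      rw [e]; rfl
    rw [this, AlgHom.map_det]
    convert hJ
    ext i j
    exact congrArg (MvPolynomial.aeval x) (P.jacobiMatrix_apply i j)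
  obtain ⟨s, hs⟩ := SHL.sec_pt2 hK (IsLocalization.Away.liftAlgHom (S := S) P.jacobian hu)
  let ψ : MvPolynomial σ A →ₐ[A] A :=
    (s.comp (IsScalarTower.toAlgHom A S0 S)).comp (Ideal.Quotient.mkₐ A _)
  refine ⟨fun i => ψ (MvPolynomial.X i), fun i => ?_, fun i => ?_⟩
  · refine (hs _).trans ((IsLocalization.Away.lift_eq P.jacobian hu _).trans ?_)
    exact MvPolynomial.aeval_X _ _
  · have h1 : MvPolynomial.aeval (fun i => ψ (MvPolynomial.X i)) = ψ :=
      MvPolynomial.algHom_ext fun i => MvPolynomial.aeval_X _ _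
    rw [← MvPolynomial.coe_aeval_eq_eval]
    change MvPolynomial.aeval (fun i => ψ (MvPolynomial.X i)) (F i) = 0
    rw [h1]
    change s (algebraMap S0 S (Ideal.Quotient.mk _ (F i))) = 0
    rw [Ideal.Quotient.eq_zero_iff_mem.2 (Ideal.subset_span (Set.mem_range_self i)), map_zero,
      map_zero]

/-- A quasi-finite point over the closed point splits off as a finite local factor. -/
theorem SHL.split (S : Type) [CommRing S] [Algebra A S] [Algebra.FiniteType A S] (q : Ideal S)
    [q.IsPrime] [q.LiesOver (maximalIdeal A)] [Algebra.QuasiFiniteAt A q] :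
    ∃ e : S, IsIdempotentElem e ∧ e ∉ q ∧ Module.Finite A (Localization.Away e) ∧
      ∀ q' : Ideal S, q'.IsPrime → q'.LiesOver (maximalIdeal A) → e ∉ q' → q' = q := by
  obtain ⟨R', _, _, _, P, hP, _, e, he, P', _, _, h1, h2, h3, h4, h5⟩ :=
    Algebra.exists_etale_isIdempotentElem_forall_liesOver_eq (maximalIdeal A) q
  obtain ⟨s, hs⟩ := SHL.sec R' P hP (P.over_def (maximalIdeal A)).symm
  let π : R' ⊗[A] S →ₐ[A] S :=
    Algebra.TensorProduct.lift ((Algebra.ofId A S).comp s) (AlgHom.id A S) fun _ _ => .all _ _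
  have hπ : ∀ x, π (1 ⊗ₜ x) = x := fun x => by simp [π]
  have k1 : ∀ q' : Ideal S, q'.LiesOver (maximalIdeal A) → (q'.comap π).LiesOver P := fun q' _ =>
    ⟨by
      rw [← hs, q'.over_def (maximalIdeal A)]
      ext r
      simp [π, Ideal.mem_comap]⟩
  have k2 : ∀ q' : Ideal S, (q'.comap π).comap Algebra.TensorProduct.includeRight.toRingHom = q' :=
    fun q' => by ext x; simp [Ideal.mem_comap, hπ]
  have k3 : q.comap π = P' := by
    have := k1 q inferInstance
    exact Ideal.eq_of_comap_eq_comap_of_bijective_residueFieldMap h3 _ _ ((k2 q).trans h1.symm)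
  refine ⟨π e, he.map π, fun h => h2 (k3 ▸ h), ?_, fun q' _ h h' => ?_⟩
  · let f : Localization.Away e →ₐ[A] Localization.Away (π e) := IsLocalization.Away.mapₐ _ _ π e
    have hf : Function.Surjective f :=
      IsLocalization.Away.mapₐ_surjective_of_surjective e fun x => ⟨_, hπ x⟩
    have : RingHomSurjective (s : R' →+* A) := ⟨fun a => ⟨algebraMap A R' a, by simp⟩⟩
    let g : Localization.Away e →ₛₗ[(s : R' →+* A)] Localization.Away (π e) :=
      { toFun := f
        map_add' := map_add f
        map_smul' := fun r x => by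
          rw [Algebra.smul_def, Algebra.smul_def, map_mul,
            IsScalarTower.algebraMap_apply R' (R' ⊗[A] S) (Localization.Away e),
            IsScalarTower.algebraMap_apply A S (Localization.Away (π e))]
          congr 1
          simp [f, π, IsLocalization.Away.map] }
    exact Module.Finite.of_surjective g hf
  · rw [← k2 q', h5 _ inferInstance (k1 q' h) h', h1]

end Basic

/-- An algebra integral over a local ring with one prime over the closed point is local. -/
theorem isLocalRing_of_integral {A T : Type} [CommRing A] [IsLocalRing A] [CommRing T] [Algebra A T]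
    [Algebra.IsIntegral A T] [Nontrivial T]
    (h : ∀ q q' : Ideal T, q.IsMaximal → q'.IsMaximal → q.LiesOver (maximalIdeal A) →
      q'.LiesOver (maximalIdeal A) → q = q') : IsLocalRing T := by
  have k : ∀ q : Ideal T, q.IsMaximal → q.LiesOver (maximalIdeal A) := fun q _ =>
    ⟨(eq_maximalIdeal (Ideal.isMaximal_comap_of_isIntegral_of_isMaximal q)).symm⟩
  obtain ⟨q, hq⟩ := Ideal.exists_maximal T
  exact IsLocalRing.of_unique_max_ideal ⟨q, hq, fun q' hq' => h _ _ hq' hq (k _ hq') (k _ hq)⟩

theorem liesOver_of_integral {A T : Type} [CommRing A] [IsLocalRing A] [CommRing T] [Algebra A T]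
    [Algebra.IsIntegral A T] (q : Ideal T) [q.IsMaximal] : q.LiesOver (maximalIdeal A) :=
  ⟨(eq_maximalIdeal (Ideal.isMaximal_comap_of_isIntegral_of_isMaximal q)).symm⟩

theorem away_local {A S : Type} [CommRing A] [IsLocalRing A] [CommRing S] [Algebra A S]
    (q : Ideal S) [q.IsPrime] (e : S) (he : e ∉ q) [Module.Finite A (Localization.Away e)]
    (h : ∀ q' : Ideal S, q'.IsPrime → q'.LiesOver (maximalIdeal A) → e ∉ q' → q' = q) :
    IsLocalRing (Localization.Away e) := by
  have : Nontrivial (Localization.Away e) := by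
    by_contra hn
    rw [not_nontrivial_iff_subsingleton] at hn
    obtain ⟨n, hn⟩ := IsLocalization.Away.exists_of_eq e
      (Subsingleton.elim (algebraMap S (Localization.Away e) 1) (algebraMap S _ 0))
    rw [mul_one, mul_zero] at hn
    exact he (‹q.IsPrime›.mem_of_pow_mem n (hn ▸ q.zero_mem))
  have k : ∀ M : Ideal (Localization.Away e), M.IsMaximal → M.LiesOver (maximalIdeal A) →
      M.comap (algebraMap S _) = q := fun M hM hM' =>
    h _ inferInstance ⟨by
      rw [M.over_def (maximalIdeal A), Ideal.under, Ideal.under, Ideal.comap_comap,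
        ← IsScalarTower.algebraMap_eq]⟩
      fun h => hM.ne_top (M.eq_top_of_isUnit_mem h (IsLocalization.Away.algebraMap_isUnit e))
  refine isLocalRing_of_integral (A := A) fun M M' hM hM' h1 h2 => ?_
  rw [← IsLocalization.map_under (.powers e) _ M, ← IsLocalization.map_under (.powers e) _ M']
  exact congrArg _ ((k M hM h1).trans (k M' hM' h2).symm)

/-- A finite etale local algebra over a local ring with separably closed residue field. -/
theorem bijective_of_finite_etale {B T : Type} [CommRing B] [IsLocalRing B] [CommRing T]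
    [IsLocalRing T] [Algebra B T] [Module.Finite B T] [Algebra.Etale B T]
    [IsSepClosed (ResidueField B)] : Function.Bijective (algebraMap B T) := by
  have : IsLocalHom (algebraMap B T) := by
    refine ((local_hom_TFAE (algebraMap B T)).out 4 0).1 ?_
    exact (liesOver_of_integral (A := B) (maximalIdeal T)).over.symm
  have := Module.FaithfullyFlat.of_flat_of_isLocalHom (A := B) (B := T)
  refine ⟨FaithfulSMul.algebraMap_injective B T, ?_⟩
  have h1 : (⊤ : Submodule B T) ≤ LinearMap.range (Algebra.linearMap B T) := by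
    refine Submodule.le_of_le_smul_of_le_jacobson_bot Module.Finite.fg_top
      (maximalIdeal_le_jacobson ⊥) fun x _ => ?_
    obtain ⟨y, hy⟩ := IsSepClosed.algebraMap_surjective (ResidueField B) (ResidueField T)
      (residue T x)
    obtain ⟨b, rfl⟩ := residue_surjective y
    have h2 : x - algebraMap B T b ∈ maximalIdeal T := by
      rw [← residue_eq_zero_iff, map_sub, ← hy, sub_eq_zero]; rfl
    rw [← Algebra.FormallyUnramified.map_maximalIdeal (R := B)] at h2
    rw [← add_sub_cancel (algebraMap B T b) x]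
    refine add_mem (Submodule.mem_sup_left ⟨b, rfl⟩) (Submodule.mem_sup_right ?_)
    rw [Ideal.smul_top_eq_map]
    exact h2
  exact fun x => h1 Submodule.mem_top

theorem shl_of_sub (B : Type) [CommRing B] [IsLocalRing B]
    (h : ∀ (S : Type) [CommRing S] [Algebra B S] [Algebra.Etale B S] (q : Ideal S), q.IsPrime →
      q.comap (algebraMap B S) = maximalIdeal B →
        ∃ s : S →ₐ[B] B, ∀ x, x - algebraMap B S (s x) ∈ q) : SHL B where
  sec S _ _ _ q hq h' := by
    obtain ⟨s, hs⟩ := h S q hq h'
    refine ⟨s, ?_⟩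
    ext x
    rw [Ideal.mem_comap, ← h', Ideal.mem_comap]
    exact ⟨fun h => by simpa using add_mem (hs x) h, fun h => by simpa using sub_mem h (hs x)⟩

theorem isSepClosed_residue_of_integral (A B : Type) [CommRing A] [SHL A] [CommRing B]
    [IsLocalRing B] [Algebra A B] [Algebra.IsIntegral A B] : IsSepClosed (ResidueField B) := by
  have : IsLocalHom (algebraMap A B) := by
    refine ((local_hom_TFAE (algebraMap A B)).out 4 0).1 ?_
    exact (liesOver_of_integral (A := A) (maximalIdeal B)).over.symm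
  have := SHL.isSepClosed (A := A)
  have : Algebra.IsIntegral A (ResidueField B) := .trans B
  have : Algebra.IsIntegral (ResidueField A) (ResidueField B) := .tower_top A
  exact Algebra.IsAlgebraic.isSepClosed (F := ResidueField A)

theorem SHL.of_finite (A B : Type) [CommRing A] [SHL A] [CommRing B] [IsLocalRing B] [Algebra A B]
    [Module.Finite A B] : SHL B := by
  refine shl_of_sub B fun S _ _ _ q hq h => ?_
  algebraize [(algebraMap B S).comp (algebraMap A B)]
  have : Algebra.FiniteType A S := .trans (S := B) inferInstance inferInstance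
  have : Algebra.QuasiFinite A S := .trans A B S
  have : q.LiesOver (maximalIdeal B) := ⟨h.symm⟩
  have := liesOver_of_integral (A := A) (maximalIdeal B)
  have : q.LiesOver (maximalIdeal A) := .trans q (maximalIdeal B) _
  obtain ⟨e, -, he, hf, hu⟩ := SHL.split (A := A) S q
  have := away_local q e he hu
  have : Module.Finite B (Localization.Away e) := .of_restrictScalars_finite A _ _
  have := isSepClosed_residue_of_integral A B
  let i := AlgEquiv.ofBijective (Algebra.ofId B (Localization.Away e)) bijective_of_finite_etale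
  refine ⟨i.symm.toAlgHom.comp (IsScalarTower.toAlgHom B S _), fun x => ?_⟩
  have h1 : algebraMap S (Localization.Away e) x =
      algebraMap S _ (algebraMap B S (i.symm (algebraMap S _ x))) := by
    rw [← IsScalarTower.algebraMap_apply]; exact (i.apply_symm_apply _).symm
  obtain ⟨n, hn⟩ := IsLocalization.Away.exists_of_eq e h1
  rw [← sub_eq_zero, ← mul_sub] at hn
  exact (hq.mem_or_mem (hn ▸ q.zero_mem)).resolve_left fun h => he (hq.mem_of_pow_mem n h)

/-- An integral local algebra over a strictly henselian local ring is strictly henselian. -/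
theorem SHL.of_integral (A B : Type) [CommRing A] [SHL A] [CommRing B] [IsLocalRing B]
    [Algebra A B] [Algebra.IsIntegral A B] : SHL B := by
  refine shl_of_sub B fun S _ _ _ q hq h => ?_
  obtain ⟨B0, S0, _, _, hfg, _, ⟨i⟩⟩ := Algebra.Etale.exists_subalgebra_fg A B S
  have : Algebra.FiniteType A B0 := ⟨B0.fg_top.2 hfg⟩
  have : Algebra.IsIntegral A B0 := ⟨fun x => (isIntegral_algHom_iff B0.val
    Subtype.val_injective).1 (Algebra.IsIntegral.isIntegral x.1)⟩
  have : Module.Finite A B0 := Algebra.IsIntegral.finite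
  have : Algebra.IsIntegral B0 B := .tower_top A
  have k : ∀ M : Ideal B0, M.IsMaximal → M = (maximalIdeal B).comap (algebraMap B0 B) := by
    intro M hM
    obtain ⟨Q, hQ, rfl⟩ := Ideal.exists_ideal_over_maximal_of_isIntegral (S := B) M (by
      rw [(RingHom.injective_iff_ker_eq_bot _).1 Subtype.val_injective]; exact bot_le)
    rw [eq_maximalIdeal hQ]
  have : IsLocalRing B0 := isLocalRing_of_integral (A := A) fun M M' hM hM' _ _ =>
    (k M hM).trans (k M' hM').symm
  have := SHL.of_finite A B0
  let j : S0 →+* S := (i.symm : B ⊗[B0] S0 →+* S).comp Algebra.TensorProduct.includeRight.toRingHom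
  have hj : ∀ b : B0, j (algebraMap B0 S0 b) = algebraMap B S b := fun b => by
    rw [← i.symm.commutes]
    exact congrArg i.symm (Algebra.TensorProduct.includeRight.commutes b)
  obtain ⟨s, hs⟩ := SHL.sec_sub (A := B0) S0 (q.comap j) inferInstance (by
    rw [k (maximalIdeal B0) inferInstance, ← h]
    ext b
    simp only [Ideal.mem_comap, hj]; rfl)
  let s' : B ⊗[B0] S0 →ₐ[B] B :=
    Algebra.TensorProduct.lift (AlgHom.id B B) ((Algebra.ofId B0 B).comp s) fun _ _ => .all _ _
  refine ⟨s'.comp i.toAlgHom, fun x => ?_⟩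
  obtain ⟨x, rfl⟩ := i.symm.surjective x
  simp only [AlgHom.comp_apply, AlgEquiv.coe_toAlgHom, AlgEquiv.apply_symm_apply]
  induction x using TensorProduct.induction_on with
  | zero => simp
  | add x y hx hy => simpa [add_sub_add_comm] using add_mem hx hy
  | tmul b y =>
    have h1 := hs y
    rw [Ideal.mem_comap, map_sub, hj] at h1
    have h2 : i.symm (b ⊗ₜ y) = algebraMap B S b * j y := by
      rw [← i.symm.commutes]
      change _ = i.symm _ * i.symm _
      rw [← map_mul]; simp
    have h3 : s' (b ⊗ₜ y) = b * s y := by simp [s']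
    rw [h2, h3, map_mul, ← mul_sub]
    exact q.mul_mem_left _ h1

theorem finite_of_fg {A B : Type} [CommRing A] [CommRing B] [Algebra A B] [Algebra.IsIntegral A B]
    (B0 : Subalgebra A B) (h : B0.FG) : Module.Finite A B0 :=
  have : Algebra.FiniteType A B0 := ⟨B0.fg_top.2 h⟩
  have : Algebra.IsIntegral A B0 := ⟨fun x => (isIntegral_algHom_iff B0.val
    Subtype.val_injective).1 (Algebra.IsIntegral.isIntegral x.1)⟩
  Algebra.IsIntegral.finite

/-- In a finite algebra every set of maximal ideals is cut out by an idempotent. -/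
theorem SHL.exists_idem_finite (A B : Type) [CommRing A] [SHL A] [CommRing B] [Algebra A B]
    [Module.Finite A B] (U : Set (Ideal B)) :
    ∃ e : B, IsIdempotentElem e ∧ ∀ q : Ideal B, q.IsMaximal → (e ∈ q ↔ q ∈ U) := by
  classical
  have hfin : ((maximalIdeal A).primesOver B).Finite := Algebra.QuasiFinite.finite_primesOver _
  have h1 : ∀ q : (maximalIdeal A).primesOver B, ∃ e : B, IsIdempotentElem e ∧ e ∉ q.1 ∧
      ∀ q' : Ideal B, q'.IsPrime → q'.LiesOver (maximalIdeal A) → e ∉ q' → q' = q.1 := by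
    rintro ⟨q, _, _⟩
    obtain ⟨e, h1, h2, -, h3⟩ := SHL.split (A := A) B q
    exact ⟨e, h1, h2, h3⟩
  choose e he h2 h3 using h1
  have := hfin.fintype
  refine ⟨∏ q : (maximalIdeal A).primesOver B with q.1 ∈ U, (1 - e q), ?_, fun q hq => ?_⟩
  · exact Finset.prod_induction _ _ (fun _ _ => IsIdempotentElem.mul) .one fun q _ => (he q).one_sub
  · have hq' := liesOver_of_integral (A := A) q
    rw [Ideal.IsPrime.prod_mem_iff]
    constructor
    · rintro ⟨q', hq1, hq2⟩
      rw [h3 q' q inferInstance hq' fun h => hq.ne_top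
        ((Ideal.eq_top_iff_one _).2 (by simpa using add_mem hq2 h))]
      simpa using hq1
    · intro h
      refine ⟨⟨q, inferInstance, hq'⟩, by simpa using h, ?_⟩
      exact (hq.isPrime.mem_or_mem (x := e ⟨q, inferInstance, hq'⟩) (by
        rw [(he _).mul_one_sub_self]; exact q.zero_mem)).resolve_left (h2 ⟨q, inferInstance, hq'⟩)

theorem idem_eq_of_forall_maximal {B : Type} [CommRing B] {e e' : B} (he : IsIdempotentElem e)
    (he' : IsIdempotentElem e') (h : ∀ q : Ideal B, q.IsMaximal → (e ∈ q ↔ e' ∈ q)) : e = e' := by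
  have k : ∀ {f : B}, IsIdempotentElem f → (∀ q : Ideal B, q.IsMaximal → f ∈ q) → f = 0 := by
    intro f hf h
    have : IsUnit (1 - f) := by
      by_contra hu
      obtain ⟨q, hq, h1⟩ := exists_max_ideal_of_mem_nonunits hu
      exact hq.ne_top ((Ideal.eq_top_iff_one _).2 (by simpa using add_mem h1 (h q hq)))
    exact this.mul_left_eq_zero.1 hf.mul_one_sub_self
  have k2 : ∀ {e e' : B}, IsIdempotentElem e → IsIdempotentElem e' →
      (∀ q : Ideal B, q.IsMaximal → e' ∈ q → e ∈ q) → e * (1 - e') = 0 := fun {e e'} he he' h =>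
    k (he.mul he'.one_sub) fun q hq => by
      rcases hq.isPrime.mem_or_mem (x := e') (y := 1 - e') (by
        rw [he'.mul_one_sub_self]; exact q.zero_mem) with h1 | h1
      · exact q.mul_mem_right _ (h q hq h1)
      · exact q.mul_mem_left _ h1
  linear_combination k2 he he' (fun q hq => (h q hq).2) - k2 he' he fun q hq => (h q hq).1

/-- A finite algebra is a finite product of strictly henselian local rings. -/
theorem SHL.finite_pi (A B : Type) [CommRing A] [SHL A] [CommRing B] [Algebra A B]
    [Module.Finite A B] : ∃ (_ : Fintype (MaximalSpectrum B)) (e : MaximalSpectrum B → B),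
      CompleteOrthogonalIdempotents e ∧ (∀ q q' : MaximalSpectrum B, e q ∈ q'.asIdeal ↔ q' ≠ q) ∧
      ∀ q, SHL (B ⧸ Ideal.span {1 - e q}) := by
  classical
  have hfin : ((maximalIdeal A).primesOver B).Finite := Algebra.QuasiFinite.finite_primesOver _
  have := hfin.fintype
  have : Finite (MaximalSpectrum B) := Finite.of_injective
    (fun q : MaximalSpectrum B => (⟨q.asIdeal, inferInstance, liesOver_of_integral _⟩ :
      (maximalIdeal A).primesOver B)) fun q q' h => MaximalSpectrum.ext congr(($h).1)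
  have := Fintype.ofFinite (MaximalSpectrum B)
  choose e he h using fun q : MaximalSpectrum B => SHL.exists_idem_finite A B {q.asIdeal}ᶜ
  have h' : ∀ q q' : MaximalSpectrum B, e q ∈ q'.asIdeal ↔ q' ≠ q := fun q q' => by
    rw [h q _ q'.isMaximal]; simp [MaximalSpectrum.ext_iff]
  have ho : OrthogonalIdempotents e := ⟨he, fun q q' hq =>
    idem_eq_of_forall_maximal ((he q).mul (he q')) .zero fun M hM => by
      simp only [zero_mem, iff_true]
      by_cases h1 : (⟨M, hM⟩ : MaximalSpectrum B) = q
      · exact M.mul_mem_left _ ((h' q' ⟨M, hM⟩).2 (h1 ▸ hq))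
      · exact M.mul_mem_right _ ((h' q ⟨M, hM⟩).2 h1)⟩
  refine ⟨this, e, ⟨ho, idem_eq_of_forall_maximal ho.isIdempotentElem_sum .one fun M hM => ?_⟩, h',
    fun q => ?_⟩
  · refine iff_of_false (fun h1 => ?_) fun h1 => hM.ne_top ((Ideal.eq_top_iff_one _).2 h1)
    rw [← Finset.add_sum_erase _ _ (Finset.mem_univ ⟨M, hM⟩)] at h1
    refine (h' ⟨M, hM⟩ ⟨M, hM⟩).1 ((Ideal.add_mem_iff_left _ ?_).1 h1) rfl
    exact sum_mem fun q hq => (h' q ⟨M, hM⟩).2 (Finset.ne_of_mem_erase hq).symm
  · have k : ∀ M : Ideal B, M.IsMaximal → 1 - e q ∈ M → M = q.asIdeal := fun M hM h1 => by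
      by_contra h2
      have := (h' q ⟨M, hM⟩).2 fun h3 => h2 congr(($h3).asIdeal)
      exact hM.ne_top ((Ideal.eq_top_iff_one _).2 (by simpa using add_mem h1 this))
    have h1 : 1 - e q ∈ q.asIdeal := (q.isMaximal.isPrime.mem_or_mem (x := e q) (by
      rw [(he _).mul_one_sub_self]; exact zero_mem _)).resolve_left fun h => (h' q q).1 h rfl
    have : Nontrivial (B ⧸ Ideal.span {1 - e q}) := Ideal.Quotient.nontrivial_iff.2 fun h =>
      q.isMaximal.ne_top (top_le_iff.1 (h ▸ (Ideal.span_singleton_le_iff_mem _).2 h1))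
    have k2 : ∀ M : Ideal (B ⧸ Ideal.span {1 - e q}), M.IsMaximal →
        M.comap (Ideal.Quotient.mk _) = q.asIdeal := fun M hM =>
      k _ (Ideal.comap_isMaximal_of_surjective _ Ideal.Quotient.mk_surjective) (by
        rw [Ideal.mem_comap, Ideal.Quotient.eq_zero_iff_mem.2 (Ideal.mem_span_singleton_self _)]
        exact zero_mem _)
    have : IsLocalRing (B ⧸ Ideal.span {1 - e q}) :=
      isLocalRing_of_integral (A := A) fun M M' hM hM' _ _ =>
        Ideal.comap_injective_of_surjective _ Ideal.Quotient.mk_surjective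
          ((k2 M hM).trans (k2 M' hM').symm)
    exact SHL.of_finite A _

/-- Idempotents of an integral algebra lift modulo any ideal. -/
theorem SHL.idem_lift (A B : Type) [CommRing A] [SHL A] [CommRing B] [Algebra A B]
    [Algebra.IsIntegral A B] (J : Ideal B) (x : B) (hx : x * x - x ∈ J) :
    ∃ e : B, IsIdempotentElem e ∧ e - x ∈ J := by
  have := finite_of_fg _ (Subalgebra.fg_def.2 ⟨{x}, Set.finite_singleton x, rfl⟩ :
    (Algebra.adjoin A {x}).FG)
  let x0 : Algebra.adjoin A {x} := ⟨x, Algebra.self_mem_adjoin_singleton _ _⟩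
  obtain ⟨e, he, h⟩ := SHL.exists_idem_finite A (Algebra.adjoin A {x}) {q | x0 ∈ q}
  refine ⟨e, he.map (Algebra.adjoin A {x}).val, ?_⟩
  rw [← Ideal.Quotient.eq]
  have hx' : IsIdempotentElem (Ideal.Quotient.mk J x) := by
    rw [IsIdempotentElem, ← map_mul, Ideal.Quotient.eq]
    exact hx
  refine idem_eq_of_forall_maximal ((he.map (Algebra.adjoin A {x}).val).map _) hx' fun M hM => ?_
  let f : Algebra.adjoin A {x} →+* B ⧸ J := (Ideal.Quotient.mk J).comp (Algebra.adjoin A {x}).val
  have : (M.comap f).IsMaximal := by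
    have : (M.comap (Ideal.Quotient.mk J)).IsMaximal :=
      Ideal.comap_isMaximal_of_surjective _ Ideal.Quotient.mk_surjective
    have : Algebra.IsIntegral (Algebra.adjoin A {x}) B := .tower_top A
    exact Ideal.isMaximal_comap_of_isIntegral_of_isMaximal (R := Algebra.adjoin A {x})
      (M.comap (Ideal.Quotient.mk J))
  exact h _ this

theorem idem_unique {A B : Type} [CommRing A] [IsLocalRing A] [CommRing B] [Algebra A B]
    [Algebra.IsIntegral A B] {e e' : B} (he : IsIdempotentElem e) (he' : IsIdempotentElem e')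
    (h : e - e' ∈ ((maximalIdeal A).map (algebraMap A B)).radical) : e = e' :=
  idem_eq_of_forall_maximal he he' fun q hq => by
    have h1 : e - e' ∈ q := (hq.isPrime.radical_le_iff.2 (Ideal.map_le_iff_le_comap.2
      (liesOver_of_integral (A := A) q).over.le)) h
    exact ⟨fun h => by simpa using sub_mem h h1, fun h => by simpa using add_mem h1 h⟩

theorem SHL.wc (A : Type) [CommRing A] [SHL A] : Wc A := fun S _ _ _ h => by
  obtain ⟨q, hq⟩ := h (closedPoint A)
  obtain ⟨s, -⟩ := SHL.sec (A := A) S q.asIdeal q.isPrime congr(($hq).asIdeal)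
  exact ⟨s⟩

theorem Wc.quotient_sec {B S : Type} [CommRing B] [CommRing S] [Algebra B S] [Algebra.Etale B S]
    (h : Function.Surjective (PrimeSpectrum.comap (algebraMap B S))) (C : Type) [CommRing C]
    [Algebra B C] (hC : Wc C) : Nonempty (S →ₐ[B] C) := by
  have := Module.FaithfullyFlat.of_comap_surjective h
  obtain ⟨s⟩ := hC (C ⊗[B] S) PrimeSpectrum.comap_surjective_of_faithfullyFlat
  exact ⟨(s.restrictScalars B).comp Algebra.TensorProduct.includeRight⟩

theorem SHL.wc_of_finite (A B : Type) [CommRing A] [SHL A] [CommRing B] [Algebra A B]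
    [Module.Finite A B] : Wc B := fun S _ _ _ h => by
  obtain ⟨_, e, he, -, h1⟩ := SHL.finite_pi A B
  have s := fun q => (Wc.quotient_sec h (B ⧸ Ideal.span {1 - e q}) (SHL.wc _)).some
  let i : B ≃ₐ[B] ∀ q, B ⧸ Ideal.span {1 - e q} :=
    AlgEquiv.ofBijective (Algebra.ofId _ _) he.bijective_pi
  exact ⟨i.symm.toAlgHom.comp (AlgHom.pi s)⟩

/-- Integral algebras over strictly henselian local rings are weakly contractible. -/
theorem SHL.wc_of_integral (A B : Type) [CommRing A] [SHL A] [CommRing B] [Algebra A B]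
    [Algebra.IsIntegral A B] : Wc B := fun S _ _ _ h => by
  obtain ⟨B0, S0, _, _, hfg, _, ⟨i⟩⟩ := Algebra.Etale.exists_subalgebra_fg A B S
  have := finite_of_fg B0 hfg
  have : Algebra.IsIntegral B0 B := .tower_top A
  let j : S0 →+* S := (i.symm : B ⊗[B0] S0 →+* S).comp Algebra.TensorProduct.includeRight.toRingHom
  have hj : j.comp (algebraMap B0 S0) = (algebraMap B S).comp (algebraMap B0 B) := by
    ext b
    change _ = algebraMap B S b
    rw [← i.symm.commutes]
    exact congrArg i.symm (Algebra.TensorProduct.includeRight.commutes b)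
  obtain ⟨s⟩ := SHL.wc_of_finite A B0 S0 fun p => by
    obtain ⟨p1, rfl⟩ := Algebra.IsIntegral.comap_surjective B0 B p
    obtain ⟨p2, rfl⟩ := h p1
    exact ⟨PrimeSpectrum.comap j p2, by
      rw [← PrimeSpectrum.comap_comp_apply, ← PrimeSpectrum.comap_comp_apply, hj]⟩
  exact ⟨(Algebra.TensorProduct.lift (AlgHom.id B B) ((Algebra.ofId B0 B).comp s)
    fun _ _ => .all _ _).comp i.toAlgHom⟩

/-- An unramified domain of finite type above a normal domain is etale. -/
theorem etale_of_unramified (B C : Type) [CommRing B] [IsDomain B] [IsIntegrallyClosed B]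
    [CommRing C] [IsDomain C] [Algebra B C] [FaithfulSMul B C] [Algebra.Unramified B C] :
    Algebra.Etale B C := by
  have key : ∀ Q : PrimeSpectrum C, ∃ f ∉ Q.asIdeal, Algebra.Etale B (Localization.Away f) := by
    intro Q
    obtain ⟨f, hf, P, φ, hφ⟩ :=
      Algebra.IsUnramifiedAt.exists_hasStandardEtaleSurjectionOn (R := B) Q.asIdeal
    refine ⟨f, hf, ?_⟩
    have hf0 : f ≠ 0 := fun h => hf (h ▸ zero_mem _)
    have := Localization.Away.isDomain hf0
    have : FaithfulSMul B (Localization.Away f) := by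
      rw [faithfulSMul_iff_algebraMap_injective, IsScalarTower.algebraMap_eq B C]
      exact (IsLocalization.injective _ (powers_le_nonZeroDivisors_of_noZeroDivisors hf0)).comp
        (FaithfulSMul.algebraMap_injective B C)
    have hx := P.hasMap_X.map φ
    set x := φ P.X
    have hi : IsIntegral B x := ⟨P.f, P.monic_f, hx.1⟩
    obtain ⟨ν, hν⟩ := minpoly.isIntegrallyClosed_dvd hi hx.1
    obtain ⟨p1, p2, n, hp⟩ := P.cond
    let P' : StandardEtalePair B := ⟨minpoly B x, minpoly.monic hi, P.g, ν * p1,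
      derivative ν * p1 + ν * p2, n, by rw [← hp, hν, derivative_mul]; ring⟩
    have h1 : P'.HasMap x := ⟨minpoly.aeval B x, hx.2⟩
    have h2 : P.HasMap P'.X := ⟨by
      rw [hν, map_mul, show aeval P'.X (minpoly B x) = 0 from P'.hasMap_X.1, zero_mul],
      P'.hasMap_X.2⟩
    have h3 : (P'.lift x h1).comp (P.lift _ h2) = φ := P.hom_ext (by simp [x])
    have h4 : Function.Surjective (P'.lift x h1) := .of_comp (g := P.lift _ h2) (by
      rw [← h3] at hφ; exact hφ)
    let Q' : StandardEtalePresentation B P'.Ring :=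
      ⟨P', P'.X, P'.hasMap_X, by simpa [StandardEtalePair.lift_X_left] using Function.bijective_id⟩
    refine .of_equiv (AlgEquiv.ofBijective (P'.lift x h1) ⟨?_, h4⟩)
    rw [injective_iff_map_eq_zero]
    intro y hy
    obtain ⟨r, m, hr⟩ := Q'.exists_mul_aeval_x_g_pow_eq_aeval_x y
    have h5 := congrArg (P'.lift x h1) hr
    rw [map_mul, hy, zero_mul, ← aeval_algHom_apply] at h5
    erw [P'.lift_X] at h5
    obtain ⟨r', rfl⟩ := minpoly.isIntegrallyClosed_dvd hi h5.symm
    rw [map_mul, show aeval Q'.x (minpoly B x) = 0 from P'.hasMap_X.1, zero_mul] at hr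
    exact (P'.hasMap_X.2.pow m).mul_left_eq_zero.1 hr
  choose f hf h using key
  have hs : Ideal.span (Set.range f) = ⊤ := by
    by_contra hn
    obtain ⟨M, hM, h1⟩ := Ideal.exists_le_maximal _ hn
    exact hf ⟨M, hM.isPrime⟩ (h1 (Ideal.subset_span ⟨_, rfl⟩))
  have : Algebra.FinitePresentation B C :=
    Algebra.FinitePresentation.of_span_eq_top_target _ hs (by
      rintro _ ⟨Q, rfl⟩; have := h Q; infer_instance)
  rw [← Algebra.etaleLocus_eq_univ_iff_etale, Set.eq_univ_iff_forall]
  intro Q
  exact (Algebra.basicOpen_subset_etaleLocus_iff_etale.2 (h Q)) (hf Q)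

end Pool.Agent.MP_855f4c_ag.E3

end

section

set_option autoImplicit false

namespace Pool.Agent.MP_855f4c_ag.E3

open IsLocalRing TensorProduct

/-- The union of the images of all etale algebras. -/
def shSub (R C : Type) [CommRing R] [CommRing C] [Algebra R C] : Subalgebra R C where
  carrier := {x | ∃ (E : Type) (_ : CommRing E) (_ : Algebra R E) (_ : Algebra.Etale R E)
    (φ : E →ₐ[R] C) (y : E), φ y = x}
  mul_mem' := by
    rintro _ _ ⟨E, _, _, _, φ, y, rfl⟩ ⟨E', _, _, _, φ', y', rfl⟩
    exact ⟨E ⊗[R] E', inferInstance, inferInstance, .comp R E _,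
      Algebra.TensorProduct.lift φ φ' fun _ _ => Commute.all _ _, y ⊗ₜ y', by simp⟩
  add_mem' := by
    rintro _ _ ⟨E, _, _, _, φ, y, rfl⟩ ⟨E', _, _, _, φ', y', rfl⟩
    exact ⟨E ⊗[R] E', inferInstance, inferInstance, .comp R E _,
      Algebra.TensorProduct.lift φ φ' fun _ _ => Commute.all _ _, y ⊗ₜ 1 + 1 ⊗ₜ y', by simp⟩
  algebraMap_mem' r := ⟨R, inferInstance, inferInstance, inferInstance, Algebra.ofId R C, r, rfl⟩

section
variable {R C : Type} [CommRing R] [CommRing C] [Algebra R C]

theorem mem_shSub {E : Type} [CommRing E] [Algebra R E] [Algebra.Etale R E] (φ : E →ₐ[R] C)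
    (y : E) : φ y ∈ shSub R C :=
  ⟨E, inferInstance, inferInstance, inferInstance, φ, y, rfl⟩

theorem IndEt.mem_shSub {A : Type} [CommRing A] [Algebra R A] (H : IndEt R A) (φ : A →ₐ[R] C)
    (x : A) : φ x ∈ shSub R C := by
  obtain ⟨E, _, _, _, -, h, y, -, hy⟩ := H.lift (Algebra.ofId R A) (σ := Unit) fun _ => x
  rw [← hy ()]
  exact E3.mem_shSub (φ.comp h) _

theorem IndEt.isAlgebraic (H : IndEt R C) [IsDomain R] [IsDomain C] : Algebra.IsAlgebraic R C := by
  have : FaithfulSMul R C := (faithfulSMul_iff_algebraMap_injective R C).2 H.injective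
  let := FractionRing.liftAlgebra R (FractionRing C)
  refine ⟨fun x => ?_⟩
  have h1 := (H.isSeparable (FractionRing R) (IsScalarTower.toAlgHom R C (FractionRing C))
    x).isIntegral.isAlgebraic
  exact (isAlgebraic_algebraMap_iff (IsFractionRing.injective C _)).1
    ((IsFractionRing.isAlgebraic_iff R (FractionRing R) _).2 h1)

/-- Maps out of an ind-etale domain are injective if they are injective on the base. -/
theorem IndEt.hom_injective {A : Type} [CommRing A] [Algebra R A] (H : IndEt R A) [IsDomain R]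
    [IsDomain A] (hC : Function.Injective (algebraMap R C)) (ψ : A →ₐ[R] C) :
    Function.Injective ψ := by
  have := H.isAlgebraic
  rw [injective_iff_map_eq_zero]
  intro x hx
  by_contra h0
  obtain ⟨r, hr, c, hc⟩ := (Algebra.IsAlgebraic.isAlgebraic (R := R) x).exists_nonzero_dvd
    (mem_nonZeroDivisors_of_ne_zero h0)
  refine hr (hC ?_)
  rw [← ψ.commutes, hc, map_mul, hx, zero_mul, map_zero]

/-- The strict henselisation of a normal domain inside a strictly henselian ring. -/
theorem shSub_spec [IsDomain R] [IsIntegrallyClosed R] [SHL C]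
    (hC : Function.Injective (algebraMap R C)) :
    IndEt R (shSub R C) ∧ SHL (shSub R C) ∧ IsLocalHom (algebraMap (shSub R C) C) := by
  have := SHL.isSepClosed (A := C)
  obtain ⟨A, _, _, _, _, _, H, _⟩ := exists_SH R (ResidueField C)
  let r : C →ₐ[R] ResidueField C := IsScalarTower.toAlgHom R C _
  have : IsLocalHom r := ⟨fun a ha => isUnit_of_map_unit (residue C) a ha⟩
  let rA : A →ₐ[R] ResidueField C := IsScalarTower.toAlgHom R A _
  have : IsLocalHom rA := ⟨fun a ha => isUnit_of_map_unit (algebraMap A (ResidueField C)) a ha⟩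
  obtain ⟨ψ, hψ⟩ := SHL.lift H r rA
  have := H.isDomain
  have hr : ψ.range = shSub R C := by
    refine le_antisymm ?_ ?_
    · rintro _ ⟨x, rfl⟩
      exact H.mem_shSub ψ x
    · rintro _ ⟨E, _, _, _, φ, y, rfl⟩
      obtain ⟨s, hs⟩ := SHL.lift_etale rA (r.comp φ)
      have h1 : ψ.comp s = φ := unr_ext (residue C) fun z =>
        (congr($hψ (s z)) : _ = rA _).trans congr($hs z)
      exact ⟨s y, congr($h1 y)⟩
  let e : A ≃ₐ[R] shSub R C :=
    (AlgEquiv.ofInjective ψ (H.hom_injective hC ψ)).trans (Subalgebra.equivOfEq _ _ hr)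
  have hl : IsLocalHom (algebraMap (shSub R C) C) := ⟨fun x hx => by
    obtain ⟨a, rfl⟩ := e.surjective x
    have h1 : IsUnit (rA a) := by
      rw [← hψ]
      exact hx.map r
    exact (isUnit_of_map_unit rA a h1).map e⟩
  refine ⟨H.of_equiv e, ?_, hl⟩
  have : IsLocalHom (r.comp (shSub R C).val) :=
    ⟨fun x hx => isUnit_of_map_unit (algebraMap (shSub R C) C) x (isUnit_of_map_unit r _ hx)⟩
  refine SHL.of_lift (H.of_equiv e) (r.comp (shSub R C).val) fun E _ _ _ φ => ?_
  obtain ⟨s, hs⟩ := SHL.lift_etale r φ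
  exact ⟨s.codRestrict _ (mem_shSub s), hs⟩

end

section
variable (A : Type) {C : Type} [CommRing A] [SHL A] [CommRing C] [Algebra A C]

/-- A domain that is integral over a strictly henselian ring is local. -/
theorem SHL.isLocalRing_of_isDomain [IsDomain C] [Algebra.IsIntegral A C] : IsLocalRing C := by
  obtain ⟨q, hq⟩ := Ideal.exists_maximal C
  refine .of_unique_max_ideal ⟨q, hq, fun q' hq' => ?_⟩
  by_contra hne
  obtain ⟨x, hx, y, hy, hxy⟩ := Submodule.mem_sup.1
    ((hq'.coprime_of_ne hq hne).ge (Submodule.mem_top (x := 1)))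
  obtain ⟨e, he, h⟩ := SHL.idem_lift A C (q' ⊓ q) x (by
    have : x * x - x = -(x * y) := by linear_combination x * hxy
    rw [this]
    exact neg_mem ⟨q'.mul_mem_right _ hx, q.mul_mem_left _ hy⟩)
  rcases IsIdempotentElem.iff_eq_zero_or_one.1 he with rfl | rfl
  · refine hq.ne_top ((Ideal.eq_top_iff_one _).2 ?_)
    have := sub_mem hy h.2
    rwa [zero_sub, sub_neg_eq_add, add_comm, hxy] at this
  · refine hq'.ne_top ((Ideal.eq_top_iff_one _).2 ?_)
    simpa using add_mem h.1 hx

/-- The integral closure of a strictly henselian ring in a local domain is dominated by it. -/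
theorem SHL.isLocalHom_integralClosure [IsDomain C] [IsLocalRing C] [IsLocalHom (algebraMap A C)] :
    IsLocalHom (algebraMap (integralClosure A C) C) := by
  have := SHL.isLocalRing_of_isDomain A (C := integralClosure A C)
  have h1 : ((maximalIdeal C).comap (algebraMap (integralClosure A C) C)).IsMaximal := by
    refine Ideal.isMaximal_of_isIntegral_of_isMaximal_comap (R := A) _ ?_
    rw [Ideal.comap_comap, ← IsScalarTower.algebraMap_eq, maximalIdeal_comap]
    infer_instance
  exact ((local_hom_TFAE _).out 4 0).1 (eq_maximalIdeal h1)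

/-- Points of an integral local extension are determined on the strictly henselian base. -/
theorem SHL.point_ext [IsLocalRing C] [Algebra.IsIntegral A C] {k : Type} [Field k]
    (b₁ b₂ : C →+* k) [IsLocalHom b₁]
    (h : ∀ a, b₁ (algebraMap A C a) = b₂ (algebraMap A C a)) : b₁ = b₂ := by
  have : IsLocalHom (algebraMap A C) :=
    ((local_hom_TFAE (algebraMap A C)).out 4 0).1
      (liesOver_of_integral (A := A) (maximalIdeal C)).over.symm
  have : (RingHom.ker b₂).IsPrime := RingHom.ker_isPrime b₂
  have h1 : (RingHom.ker b₂).IsMaximal := by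
    refine Ideal.isMaximal_of_isIntegral_of_isMaximal_comap (R := A) _ ?_
    have : (RingHom.ker b₂).comap (algebraMap A C) = (RingHom.ker b₁).comap (algebraMap A C) := by
      ext a
      simp [RingHom.mem_ker, h]
    rw [this, ker_eq_max, maximalIdeal_comap]
    infer_instance
  have : IsLocalHom b₂ := ⟨fun x hx => notMem_maximalIdeal.1 fun hm =>
    hx.ne_zero ((eq_maximalIdeal h1).ge hm)⟩
  have := SHL.isSepClosed (A := A)
  have : Algebra.IsIntegral A (ResidueField C) := .trans C
  have : Algebra.IsIntegral (ResidueField A) (ResidueField C) := .tower_top A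
  have h2 : ResidueField.lift b₁ = ResidueField.lift b₂ := by
    refine IsPurelyInseparable.injective_comp_algebraMap (ResidueField A) (ResidueField C) k ?_
    ext x
    obtain ⟨a, rfl⟩ := residue_surjective x
    exact h a
  ext x
  exact congr($h2 (residue C x))

end

section
variable {B P Ω : Type} [CommRing B] [CommRing P] [Field Ω] [Algebra B P] [Algebra B Ω]
  [Algebra P Ω] [IsScalarTower B P Ω] [IsIntegralClosure P B Ω]
  (M : Submonoid P) (C : Type) [CommRing C] [Algebra P C] [IsLocalization M C] [Algebra C Ω]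
  [IsScalarTower P C Ω]

include B M in
omit [Algebra B P] [IsScalarTower B P Ω] in
theorem loc_injective : Function.Injective (algebraMap C Ω) := by
  rw [injective_iff_map_eq_zero]
  intro x hx
  obtain ⟨⟨z, s⟩, hz⟩ := IsLocalization.surj M x
  have h1 : algebraMap P Ω z = 0 := by
    rw [IsScalarTower.algebraMap_apply P C Ω, ← hz, map_mul, hx, zero_mul]
  rw [map_eq_zero_iff _ (IsIntegralClosure.algebraMap_injective P B Ω)] at h1
  rw [← (IsLocalization.map_units C s).mul_left_eq_zero, hz, h1, map_zero]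

include B M in
/-- Localisations of the integral closure in an algebraically closed field are aic. -/
theorem loc_aic [IsAlgClosed Ω] : Aic C := by
  intro p hp hd
  have : Nontrivial C := (algebraMap C Ω).domain_nontrivial
  have inj := loc_injective (B := B) (Ω := Ω) M C
  have := IsIntegralClosure.isIntegral_algebra B Ω (A := P)
  obtain ⟨x, hx⟩ := IsAlgClosed.exists_aeval_eq_zero_of_injective Ω inj p
    (fun h => hd (Polynomial.natDegree_eq_zero_iff_degree_le_zero.2 h.le))
  obtain ⟨m, hm⟩ := IsIntegral.exists_multiple_integral_of_isLocalization M x ⟨p, hp, hx⟩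
  obtain ⟨z, hz⟩ := (IsIntegralClosure.isIntegral_iff (A := P)).1 (isIntegral_trans (R := B) _ hm)
  have h1 : algebraMap C Ω (IsLocalization.mk' C z m) = x := by
    apply ((IsLocalization.map_units C m).map (algebraMap C Ω)).mul_left_cancel
    rw [← map_mul, IsLocalization.mk'_spec', ← IsScalarTower.algebraMap_apply,
      ← IsScalarTower.algebraMap_apply, hz, Submonoid.smul_def, Algebra.smul_def]
  refine ⟨IsLocalization.mk' C z m, inj ?_⟩
  rw [map_zero, ← hx, ← h1, Polynomial.aeval_algebraMap_apply, Polynomial.coe_aeval_eq_eval]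

end

section
variable {B P Ω : Type} [CommRing B] [IsDomain B] [IsIntegrallyClosed B] [CommRing P] [Field Ω]
  [IsAlgClosed Ω] [Algebra B P] [Algebra B Ω] [FaithfulSMul B Ω] [Algebra P Ω]
  [IsScalarTower B P Ω] [IsIntegralClosure P B Ω] (a : Ideal P) [a.IsPrime]
  (C : Type) [CommRing C] [Algebra P C] [IsLocalization.AtPrime C a] [Algebra C Ω]
  [IsScalarTower P C Ω] [Algebra B C] [IsScalarTower B P C]

include a Ω in
/-- The strict henselisation inside the localised integral closure. -/
theorem shSub_loc : IndEt B (shSub B C) ∧ SHL (shSub B C) ∧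
    IsLocalHom (algebraMap (shSub B C) C) ∧ Algebra.IsIntegral (shSub B C) C := by
  have inj := loc_injective (B := B) (Ω := Ω) a.primeCompl C
  have := inj.isDomain _
  have := IsLocalization.AtPrime.isLocalRing C a
  have := (loc_aic (B := B) (Ω := Ω) a.primeCompl C).shl
  have : IsScalarTower B C Ω := .to₁₃₄ B P C Ω
  obtain ⟨h1, h2, h3⟩ := shSub_spec (R := B) (C := C) (by
    have := FaithfulSMul.algebraMap_injective B Ω
    rw [IsScalarTower.algebraMap_eq B C Ω] at this
    exact Function.Injective.of_comp this)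
  refine ⟨h1, h2, h3, ⟨fun x => ?_⟩⟩
  have := SHL.isLocalHom_integralClosure (shSub B C) (C := C)
  have := IsIntegralClosure.isIntegral_algebra B Ω (A := P)
  have h4 : ∀ z : P, algebraMap P C z ∈ integralClosure (shSub B C) C := fun z =>
    ((Algebra.IsIntegral.isIntegral (R := B) z).map (IsScalarTower.toAlgHom B P C)).tower_top
  obtain ⟨⟨z, s⟩, hz⟩ := IsLocalization.surj a.primeCompl x
  obtain ⟨t, ht⟩ := (isUnit_of_map_unit (algebraMap (integralClosure (shSub B C) C) C)
    ⟨_, h4 s⟩ (IsLocalization.map_units C s)).exists_right_inv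
  have h5 : algebraMap P C s * t.1 = 1 := congrArg Subtype.val ht
  have h6 : x = algebraMap P C z * t.1 := by rw [← hz, mul_assoc, h5, mul_one]
  rw [h6]
  exact (h4 z).mul t.2

/-- The automorphisms over the strict henselisation form the inertia group. -/
theorem shSub_fix_iff (g : Ω ≃ₐ[B] Ω) :
    (∀ x ∈ shSub B C, g (algebraMap C Ω x) = algebraMap C Ω x) ↔
      ∀ z w : P, algebraMap P Ω w = g (algebraMap P Ω z) → w - z ∈ a := by
  have inj := loc_injective (B := B) (Ω := Ω) a.primeCompl C
  have injP := IsIntegralClosure.algebraMap_injective P B Ω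
  have := IsLocalization.AtPrime.isLocalRing C a
  have hC := loc_aic (B := B) (Ω := Ω) a.primeCompl C
  have : IsScalarTower B C Ω := .to₁₃₄ B P C Ω
  obtain ⟨h1, h2, h3, h4⟩ := shSub_loc (B := B) (Ω := Ω) a C
  let j : C →ₐ[B] Ω := IsScalarTower.toAlgHom B C Ω
  have res : (∀ x : C, g (j x) ∈ j.range) → ∃ γ : C →ₐ[B] C, ∀ x, j (γ x) = g (j x) := fun h =>
    ⟨(AlgEquiv.ofInjective j inj).symm.toAlgHom.comp ((g.toAlgHom.comp j).codRestrict _ h),
      fun x => congrArg Subtype.val ((AlgEquiv.ofInjective j inj).apply_symm_apply ⟨_, h x⟩)⟩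
  have hj : ∀ z : P, j (algebraMap P C z) = algebraMap P Ω z := fun z =>
    (IsScalarTower.algebraMap_apply P C Ω z).symm
  constructor
  · intro h z w hw
    obtain ⟨γ, hγ⟩ := res fun x => by
      obtain ⟨p, hp, hx⟩ := Algebra.IsIntegral.isIntegral (R := shSub B C) x
      obtain ⟨c, -, hc⟩ := hC.root_lift (g (j x)) (p.map (algebraMap _ C)) (hp.map _) (by
        have e : (g.toAlgHom.comp j).toRingHom.comp (algebraMap (shSub B C) C)
            = (algebraMap C Ω).comp (algebraMap (shSub B C) C) := RingHom.ext fun y => h y.1 y.2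
        have := congrArg (g.toAlgHom.comp j).toRingHom hx
        rw [Polynomial.hom_eval₂, e, map_zero] at this
        rw [Polynomial.aeval_def, Polynomial.eval₂_map]
        exact this)
      exact ⟨c, hc⟩
    have h5 := SHL.point_ext (shSub B C) (residue C) ((residue C).comp γ.toRingHom) fun y =>
      congrArg (residue C) (inj ((hγ y.1).trans (h y.1 y.2))).symm
    have h6 : γ (algebraMap P C z) = algebraMap P C w := inj ((hγ _).trans (by
      rw [hj, ← hw]; exact (hj w).symm))
    have h7 : residue C (algebraMap P C z) = residue C (γ (algebraMap P C z)) := congr($h5 _)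
    rw [← IsLocalization.AtPrime.to_map_mem_maximal_iff C a, map_sub, ← residue_eq_zero_iff,
      map_sub, ← h6, ← h7, sub_self]
  · intro h x hx
    have := IsIntegralClosure.isIntegral_algebra B Ω (A := P)
    have ex : ∀ z : P, ∃ w : P, algebraMap P Ω w = g (algebraMap P Ω z) := fun z =>
      (IsIntegralClosure.isIntegral_iff (A := P)).1
        (((Algebra.IsIntegral.isIntegral (R := B) z).map (IsScalarTower.toAlgHom B P Ω)).map
          g.toAlgHom)
    have key : ∀ x : C, ∃ y : C, j y = g (j x) ∧ residue C y = residue C x := by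
      intro x
      obtain ⟨⟨z, s⟩, hz⟩ := IsLocalization.surj a.primeCompl x
      obtain ⟨w, hw⟩ := ex z
      obtain ⟨t, ht⟩ := ex s
      have hts := h _ _ ht
      have ht' : t ∈ a.primeCompl := fun h' => s.2 (by simpa using sub_mem h' hts)
      have hu := IsLocalization.map_units C (⟨t, ht'⟩ : a.primeCompl)
      have e0 := IsLocalization.mk'_spec C w (⟨t, ht'⟩ : a.primeCompl)
      have er : ∀ u v : P, u - v ∈ a →
          residue C (algebraMap P C u) = residue C (algebraMap P C v) := fun u v huv => by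
        rw [← sub_eq_zero, ← map_sub, ← map_sub, residue_eq_zero_iff,
          IsLocalization.AtPrime.to_map_mem_maximal_iff C a]
        exact huv
      refine ⟨IsLocalization.mk' C w ⟨t, ht'⟩, (hu.map j).mul_right_cancel ?_,
        (hu.map (residue C)).mul_right_cancel ?_⟩
      · rw [← map_mul, e0, hj, hj, hw, ht, ← map_mul, ← hj, ← hj, ← map_mul, hz]
      · rw [← map_mul, e0, er _ _ hts, ← map_mul, hz, er _ _ (h _ _ hw)]
    obtain ⟨γ, hγ⟩ := res fun x => (key x).imp fun _ h => h.1
    have h5 : γ.comp (shSub B C).val = (shSub B C).val := h1.ext (residue C) fun y => by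
      obtain ⟨y', e1, e2⟩ := key y.1
      have : γ y.1 = y' := inj ((hγ _).trans e1.symm)
      exact (congrArg (residue C) this).trans e2
    exact (hγ x).symm.trans (congrArg j congr($h5 ⟨x, hx⟩))

end

end Pool.Agent.MP_855f4c_ag.E3

end

section

set_option autoImplicit false

noncomputable section

namespace Pool.Agent.MP_855f4c_ag.E3

open CategoryTheory Limits TensorProduct

/-- A finitely presented algebra with property `Q` and a map to `C`. -/
structure Stage (R C : Type) [CommRing R] [CommRing C] [Algebra R C]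
    (Q : ∀ (E : Type) [CommRing E] [Algebra R E], Prop) : Type where
  n : ℕ
  I : Ideal (MvPolynomial (Fin n) R)
  fg : I.FG
  prop : Q (MvPolynomial (Fin n) R ⧸ I)
  φ : (MvPolynomial (Fin n) R ⧸ I) →ₐ[R] C

namespace Stage

variable {R C : Type} [CommRing R] [CommRing C] [Algebra R C]
  {Q : ∀ (E : Type) [CommRing E] [Algebra R E], Prop}

/-- The ring of a stage. -/
abbrev E (a : Stage R C Q) : Type := MvPolynomial (Fin a.n) R ⧸ a.I

instance (a : Stage R C Q) : Algebra.FinitePresentation R a.E :=
  Algebra.FinitePresentation.quotient a.fg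

instance : SmallCategory (Stage R C Q) where
  Hom a b := {f : a.E →ₐ[R] b.E // b.φ.comp f = a.φ}
  id a := ⟨AlgHom.id R _, rfl⟩
  comp f g := ⟨g.1.comp f.1, by rw [← AlgHom.comp_assoc, g.2, f.2]⟩

/-- The diagram of stages. -/
def diag (R C : Type) [CommRing R] [CommRing C] [Algebra R C]
    (Q : ∀ (E : Type) [CommRing E] [Algebra R E], Prop) : Stage R C Q ⥤ CommRingCat.{0} where
  obj a := .of a.E
  map f := CommRingCat.ofHom f.1.toRingHom

/-- The cocone to `C`. -/
def cocone (R C : Type) [CommRing R] [CommRing C] [Algebra R C]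
    (Q : ∀ (E : Type) [CommRing E] [Algebra R E], Prop) : Cocone (diag R C Q) where
  pt := .of C
  ι := { app a := CommRingCat.ofHom a.φ.toRingHom
         naturality a b f := by ext x : 2; exact congr($(f.2) x) }

/-- The structure maps. -/
def str (R C : Type) [CommRing R] [CommRing C] [Algebra R C]
    (Q : ∀ (E : Type) [CommRing E] [Algebra R E], Prop) :
    (Functor.const _).obj (CommRingCat.of R) ⟶ diag R C Q where
  app a := CommRingCat.ofHom (algebraMap R a.E)
  naturality a b f := by ext x : 2; exact (f.1.commutes x).symm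

/-- Every map from a finitely presented algebra factors through a stage. -/
def Fac (R C : Type) [CommRing R] [CommRing C] [Algebra R C]
    (Q : ∀ (E : Type) [CommRing E] [Algebra R E], Prop) : Prop :=
  ∀ (P : Type) [CommRing P] [Algebra R P] [Algebra.FinitePresentation R P] (f : P →ₐ[R] C),
    ∃ (a : Stage R C Q) (g : P →ₐ[R] a.E), a.φ.comp g = f

theorem exists_equiv (P : Type) [CommRing P] [Algebra R P] [Algebra.FinitePresentation R P] :
    ∃ (n : ℕ) (I : Ideal (MvPolynomial (Fin n) R)), I.FG ∧
      Nonempty ((MvPolynomial (Fin n) R ⧸ I) ≃ₐ[R] P) := by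
  obtain ⟨n, π, hπ, hk⟩ := Algebra.FinitePresentation.out (R := R) (A := P)
  exact ⟨n, _, hk, ⟨Ideal.quotientKerAlgEquivOfSurjective hπ⟩⟩

theorem fac_fp : Fac R C fun _ _ _ => True := fun P _ _ _ f => by
  obtain ⟨n, I, hI, ⟨e⟩⟩ := exists_equiv (R := R) P
  exact ⟨⟨n, I, hI, trivial, f.comp e.toAlgHom⟩, e.symm.toAlgHom, by ext; simp⟩

theorem fac_etale (H : IndEt R C) : Fac R C fun E _ _ => Algebra.Etale R E := fun P _ _ _ f => by
  obtain ⟨E, _, _, _, g, h, hh⟩ := H P f
  obtain ⟨n, I, hI, ⟨e⟩⟩ := exists_equiv (R := R) E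
  exact ⟨⟨n, I, hI, .of_equiv e.symm, h.comp e.toAlgHom⟩, e.symm.toAlgHom.comp g, by
    rw [← hh]; ext; simp⟩

theorem Fac.kill (H : Fac R C Q) (a : Stage R C Q) (S : Set a.E) (hS : S.Finite)
    (h : ∀ x ∈ S, a.φ x = 0) : ∃ (b : Stage R C Q) (f : a ⟶ b), ∀ x ∈ S, f.1 x = 0 := by
  have : Algebra.FinitePresentation R (a.E ⧸ Ideal.span S) :=
    Algebra.FinitePresentation.quotient (Submodule.fg_span hS)
  obtain ⟨b, g, hg⟩ := H (a.E ⧸ Ideal.span S) (Ideal.Quotient.liftₐ _ a.φ fun x hx =>
    (Ideal.span_le (I := RingHom.ker a.φ)).2 h hx)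
  refine ⟨b, ⟨g.comp (Ideal.Quotient.mkₐ R _), by rw [← AlgHom.comp_assoc, hg]; rfl⟩, fun x hx => ?_⟩
  change g (Ideal.Quotient.mk _ x) = 0
  rw [Ideal.Quotient.eq_zero_iff_mem.2 (Ideal.subset_span hx), map_zero]

theorem Fac.isFiltered (H : Fac R C Q) : IsFiltered (Stage R C Q) where
  nonempty := ⟨(H R (Algebra.ofId R C)).choose⟩
  cocone_objs a b := by
    have : Algebra.FinitePresentation R (a.E ⊗[R] b.E) := .trans R a.E (a.E ⊗[R] b.E)
    obtain ⟨c, g, hg⟩ := H (a.E ⊗[R] b.E) (Algebra.TensorProduct.lift a.φ b.φ fun _ _ => .all _ _)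
    exact ⟨c, ⟨g.comp Algebra.TensorProduct.includeLeft, by
      rw [← AlgHom.comp_assoc, hg]; ext; simp⟩, ⟨g.comp Algebra.TensorProduct.includeRight, by
      rw [← AlgHom.comp_assoc, hg]; ext; simp⟩, trivial⟩
  cocone_maps a b f g := by
    obtain ⟨c, h, hh⟩ := H.kill b (Set.range fun i : Fin a.n =>
      f.1 (Ideal.Quotient.mk _ (MvPolynomial.X i)) - g.1 (Ideal.Quotient.mk _ (MvPolynomial.X i)))
      (Set.finite_range _) (by
        rintro _ ⟨i, rfl⟩
        rw [map_sub, sub_eq_zero]
        exact (congr($(f.2) _)).trans (congr($(g.2) _)).symm)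
    refine ⟨c, h, Subtype.ext (Ideal.Quotient.algHom_ext _ (MvPolynomial.algHom_ext fun i => ?_))⟩
    have := hh _ ⟨i, rfl⟩
    rwa [map_sub, sub_eq_zero] at this

theorem Fac.isColimit (H : Fac R C Q) : Nonempty (IsColimit (cocone R C Q)) := by
  have := H.isFiltered
  have : ReflectsColimit (diag R C Q) (forget CommRingCat) :=
    reflectsColimit_of_reflectsIsomorphisms _ _
  refine ⟨isColimitOfReflects (forget CommRingCat) (Types.FilteredColimit.isColimitOf' _ _ ?_ ?_)⟩
  · intro x
    obtain ⟨a, g, hg⟩ := H (Polynomial R) (Polynomial.aeval (R := R) (A := C) x)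
    exact ⟨a, g Polynomial.X, ((congr($hg Polynomial.X)).trans (Polynomial.aeval_X _)).symm⟩
  · intro a (x : a.E) (y : a.E) h
    obtain ⟨b, f, hf⟩ := H.kill a {x - y} (Set.finite_singleton _) (by
      rintro _ rfl
      rw [map_sub, sub_eq_zero]; exact h)
    have := hf _ rfl
    rw [map_sub, sub_eq_zero] at this
    exact ⟨b, f, this⟩

end Stage

/-- Colimit presentation of an ind-etale algebra. -/
theorem IndEt.ind {R C : Type} [CommRing R] [CommRing C] [Algebra R C] (H : IndEt R C) :
    MorphismProperty.ind.{0} (RingHom.toMorphismProperty RingHom.Etale)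
      (CommRingCat.ofHom (algebraMap R C)) :=
  ⟨_, _, (Stage.fac_etale H).isFiltered, Stage.diag R C _, Stage.str R C _,
    (Stage.cocone R C _).ι, (Stage.fac_etale H).isColimit.some, fun a =>
      ⟨RingHom.etale_algebraMap.2 a.prop, by ext x : 2; exact a.φ.commutes x⟩⟩

/-- Every algebra is a filtered colimit of finitely presented algebras. -/
theorem ind_fp (R C : Type) [CommRing R] [CommRing C] [Algebra R C] :
    MorphismProperty.ind.{0} (RingHom.toMorphismProperty RingHom.FinitePresentation)
      (CommRingCat.ofHom (algebraMap R C)) :=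
  ⟨_, _, Stage.fac_fp.isFiltered, Stage.diag R C _, Stage.str R C _,
    (Stage.cocone R C _).ι, Stage.fac_fp.isColimit.some, fun a =>
      ⟨(RingHom.finitePresentation_algebraMap (A := R) (B := a.E)).2 inferInstance,
        by ext x : 2; exact a.φ.commutes x⟩⟩

/-- Converse: a filtered colimit of etale algebras is ind-etale. -/
theorem IndEt.of_ind {R C : Type} [CommRing R] [CommRing C] [Algebra R C]
    (H : MorphismProperty.ind.{0} (RingHom.toMorphismProperty RingHom.Etale)
      (CommRingCat.ofHom (algebraMap R C))) : IndEt R C := by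
  intro P _ _ _ f
  obtain ⟨J, _, _, D, t, s, hs, h⟩ := H
  obtain ⟨j, q, h1, h2⟩ := MorphismProperty.exists_hom_of_isFinitelyPresentable hs
    (CommRingCat.isFinitelyPresentable_hom (CommRingCat.ofHom (algebraMap R P))
      (RingHom.finitePresentation_algebraMap.2 inferInstance)) t (CommRingCat.ofHom f.toRingHom)
    fun j => (h j).2.trans (by ext x : 2; exact (f.commutes x).symm)
  let this : Algebra R (D.obj j) := (t.app j).hom.toAlgebra
  exact ⟨D.obj j, inferInstance, this, (h j).1, ⟨q.hom, fun x => congr($h1 x)⟩,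
    ⟨(s.app j).hom, fun x => congr($((h j).2) x)⟩, by ext x; exact congr($h2 x)⟩

end Pool.Agent.MP_855f4c_ag.E3

end
end
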