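import Pool.Agent.MP_855f4c_ag.EC.F1a
import Pool.Agent.MP_855f4c_ag.EC.E3a

section

set_option backward.isDefEq.respectTransparency false

open CategoryTheory Limits Opposite

namespace Pool.Agent.MP_855f4c_ag.E

variable {C : Type 1} [Category.{0} C] {J : GrothendieckTopology C}

/-- The projections of a cone. -/
def pr {C : Type*} [Category* C] {I : Type} [SmallCategory I] {D : I ⥤ C} (c : Cone D) (i : I) :
    c.pt ⟶ D.obj i := c.π.app i

@[reassoc (attr := simp)]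
lemma pr_w {C : Type*} [Category* C] {I : Type} [SmallCategory I] {D : I ⥤ C} (c : Cone D)
    {i j : I} (f : j ⟶ i) :
    pr c j ≫ D.map f = pr c i := c.w f

/-- Elementwise: `P` turns the cone `c` into a filtered colimit. -/
def ColimAt {C : Type*} [Category* C] (P : Cᵒᵖ ⥤ Ab.{1}) {I : Type} [SmallCategory I] {D : I ⥤ C}
    (c : Cone D) : Prop :=
  (∀ s : P.obj (op c.pt), ∃ (i : I) (t : P.obj (op (D.obj i))), P.map (pr c i).op t = s) ∧
  ∀ (i : I) (t : P.obj (op (D.obj i))), P.map (pr c i).op t = 0 →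
    ∃ (j : I) (f : j ⟶ i), P.map (D.map f).op t = 0

lemma res_res {C : Type*} [Category* C] (P : Cᵒᵖ ⥤ Ab.{1}) {Z Y T : C} (g : Z ⟶ Y) (f : Y ⟶ T) (s : P.obj (op T)) :
    P.map g.op (P.map f.op s) = P.map (g ≫ f).op s := by
  rw [op_comp, P.map_comp]; rfl

lemma res_id {C : Type*} [Category* C] (P : Cᵒᵖ ⥤ Ab.{1}) {T : C} (s : P.obj (op T)) : P.map (𝟙 T).op s = s := by
  rw [op_id, P.map_id]; rfl

lemma nat {C : Type*} [Category* C] {P Q : Cᵒᵖ ⥤ Ab.{1}} (φ : P ⟶ Q) {Y T : C} (f : Y ⟶ T) (s : P.obj (op T)) :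
    φ.app (op Y) (P.map f.op s) = Q.map f.op (φ.app (op T) s) :=
  congr($(φ.naturality f.op) s)

lemma isSheaf_type {F : Cᵒᵖ ⥤ Ab.{1}} (hF : Presheaf.IsSheaf J F) :
    Presieve.IsSheaf J (F ⋙ forget Ab) :=
  (isSheaf_iff_isSheaf_of_type _ _).1 ((Presheaf.isSheaf_iff_isSheaf_forget J F (forget Ab)).1 hF)

lemma isSheaf_of_type {F : Cᵒᵖ ⥤ Ab.{1}} (hF : Presieve.IsSheaf J (F ⋙ forget Ab)) :
    Presheaf.IsSheaf J F :=
  (Presheaf.isSheaf_iff_isSheaf_forget J F (forget Ab)).2 ((isSheaf_iff_isSheaf_of_type _ _).2 hF)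

lemma sepP' {F : Cᵒᵖ ⥤ Ab.{1}} (hF : Presheaf.IsSheaf J F) {U : C} (s t : F.obj (op U))
    (S : Sieve U) (hS : S ∈ J U) (h : ∀ ⦃Y⦄ (y : Y ⟶ U), S y → F.map y.op s = F.map y.op t) :
    s = t :=
  (isSheaf_type hF S hS).isSeparatedFor.ext h

lemma sepP {F : Cᵒᵖ ⥤ Ab.{1}} (hF : Presheaf.IsSheaf J F) {U : C} (s : F.obj (op U))
    (S : Sieve U) (hS : S ∈ J U) (h : ∀ ⦃Y⦄ (y : Y ⟶ U), S y → F.map y.op s = 0) : s = 0 :=
  sepP' hF s 0 S hS fun _ y hy => (h y hy).trans (map_zero _).symm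

lemma glue {F : Cᵒᵖ ⥤ Ab.{1}} (hF : Presheaf.IsSheaf J F) {U : C}
    (R : ∀ ⦃Y : C⦄, (Y ⟶ U) → F.obj (op Y) → Prop) (S : Sieve U) (hS : S ∈ J U)
    (h1 : ∀ ⦃Y⦄ (y : Y ⟶ U), S y → ∃ x, R y x)
    (h2 : ∀ ⦃Z Y⦄ (g : Z ⟶ Y) (y : Y ⟶ U) x, R y x → R (g ≫ y) (F.map g.op x))
    (h3 : ∀ ⦃Y⦄ (y : Y ⟶ U) x x', R y x → R y x' → x = x') :
    ∃ t : F.obj (op U), ∀ ⦃Y⦄ (y : Y ⟶ U) x, R y x → F.map y.op t = x := by
  choose x hx using h1
  obtain ⟨t, ht, -⟩ := isSheaf_type hF S hS (fun Y y hy => x y hy) (by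
    intro Y₁ Y₂ Z g₁ g₂ f₁ f₂ h₁ h₂ e
    exact h3 (g₁ ≫ f₁) _ _ (h2 g₁ _ _ (hx f₁ h₁)) (e ▸ h2 g₂ _ _ (hx f₂ h₂)))
  refine ⟨t, fun Y y z hz => sepP' hF _ _ _ (J.pullback_stable y hS) fun Z g hg => ?_⟩
  rw [res_res]
  exact (ht _ hg).trans (h3 _ _ _ (hx _ hg) (h2 g y z hz))

lemma common {I : Type} [SmallCategory I] [IsCofiltered I] {ι : Type} [Finite ι] (i : I)
    (Q : ι → ∀ j, (j ⟶ i) → Prop)
    (hQ : ∀ l j k (f : j ⟶ i) (g : k ⟶ j), Q l j f → Q l k (g ≫ f))
    (h : ∀ l, ∃ j f, Q l j f) : ∃ j f, ∀ l, Q l j f := by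
  classical
  choose j f hf using h
  have := Fintype.ofFinite ι
  obtain ⟨S, hS⟩ := IsCofiltered.inf_objs_exists
    (Finset.univ.image fun l => (Over.mk (f l) : Over i))
  refine ⟨S.left, S.hom, fun l => ?_⟩
  obtain ⟨g⟩ := hS (Finset.mem_image_of_mem _ (Finset.mem_univ l))
  exact Over.w g ▸ hQ l _ _ _ g.left (hf l)

section bc
variable [HasPullbacks C] {I : Type} [SmallCategory I] {D : I ⥤ C}

/-- Base change of a system along `V ⟶ D i`. -/
noncomputable def bcD (D : I ⥤ C) (i : I) {V : C} (v : V ⟶ D.obj i) : Over i ⥤ C :=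
  Over.post D ⋙ Over.pullback v ⋙ Over.forget V

/-- Base change of a cone. -/
noncomputable def bcC (c : Cone D) (i : I) {V : C} (v : V ⟶ D.obj i) : Cone (bcD D i v) :=
  (Over.pullback v ⋙ Over.forget _).mapCone ((Over.conePost D i).obj c)

attribute [local instance] IsCofiltered.isConnected in
/-- Base change of a limit cone. -/
noncomputable def bcL [IsCofiltered I] {c : Cone D} (hc : IsLimit c) (i : I) {V : C}
    (v : V ⟶ D.obj i) : IsLimit (bcC c i v) :=
  isLimitOfPreserves (Over.pullback v ⋙ Over.forget _) (Over.isLimitConePost _ hc)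

/-- Projections of the base changed cone. -/
noncomputable def bcP (c : Cone D) (i : I) {V : C} (v : V ⟶ D.obj i) (j : Over i) :
    pullback (pr c i) v ⟶ pullback (D.map j.hom) v := pr (bcC c i v) j

/-- Transition maps of the base changed system. -/
noncomputable def bcM (D : I ⥤ C) (i : I) {V : C} (v : V ⟶ D.obj i) {j k : Over i} (g : k ⟶ j) :
    pullback (D.map k.hom) v ⟶ pullback (D.map j.hom) v := (bcD D i v).map g

@[reassoc]
lemma bcP_fst (c : Cone D) (i : I) {V : C} (v : V ⟶ D.obj i) (j : Over i) :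
    bcP c i v j ≫ pullback.fst _ _ = pullback.fst _ _ ≫ pr c j.left := pullback.lift_fst _ _ _

@[reassoc]
lemma bcP_snd (c : Cone D) (i : I) {V : C} (v : V ⟶ D.obj i) (j : Over i) :
    bcP c i v j ≫ pullback.snd _ _ = pullback.snd _ _ := pullback.lift_snd _ _ _

@[reassoc]
lemma bcM_fst (i : I) {V : C} (v : V ⟶ D.obj i) {j k : Over i} (g : k ⟶ j) :
    bcM D i v g ≫ pullback.fst _ _ = pullback.fst _ _ ≫ D.map g.left := pullback.lift_fst _ _ _

@[reassoc]
lemma bcM_snd (i : I) {V : C} (v : V ⟶ D.obj i) {j k : Over i} (g : k ⟶ j) :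
    bcM D i v g ≫ pullback.snd _ _ = pullback.snd _ _ := pullback.lift_snd _ _ _

end bc

/-- `P` sends cofiltered limits of `A`-objects to colimits. -/
def LFPg (A : ObjectProperty C) (P : Cᵒᵖ ⥤ Ab.{1}) : Prop :=
  ∀ (I : Type) [SmallCategory I] [IsCofiltered I] (D : I ⥤ C) (c : Cone D),
    (∀ i, A (D.obj i)) → IsLimit c → ColimAt P c

/-- Finiteness axioms for the class of affine objects of a site. -/
structure FinSite [HasPullbacks C] (J : GrothendieckTopology C) (A : ObjectProperty C) : Prop where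
  pb : ∀ {V T T' : C} (f : V ⟶ T) (g : T' ⟶ T), A V → A T → A T' → A (pullback f g)
  fin : ∀ {T : C}, A T → ∀ S ∈ J T, ∃ (ι : Type) (_ : Finite ι) (V : ι → C) (v : ∀ l, V l ⟶ T),
    (∀ l, A (V l)) ∧ Sieve.ofArrows V v ∈ J T ∧ ∀ l, S (v l)
  desc : ∀ (I : Type) [SmallCategory I] [IsCofiltered I] (D : I ⥤ C) (c : Cone D),
    (∀ i, A (D.obj i)) → IsLimit c → ∀ S ∈ J c.pt,
    ∃ (i : I) (ι : Type) (_ : Finite ι) (V : ι → C) (v : ∀ l, V l ⟶ D.obj i),
      (∀ l, A (V l)) ∧ Sieve.ofArrows V v ∈ J _ ∧ ∀ l, S (pullback.fst (pr c i) (v l))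

variable [HasPullbacks C] {A : ObjectProperty C} (hA : FinSite J A)
  {I : Type} [SmallCategory I] [IsCofiltered I] {D : I ⥤ C} {c : Cone D}
  (hD : ∀ i, A (D.obj i)) (hc : IsLimit c)

include hA hD hc

lemma kill {P : Cᵒᵖ ⥤ Ab.{1}} (N : ∀ ⦃T : C⦄, P.obj (op T) → Prop)
    (hN : ∀ ⦃Y T : C⦄ (g : Y ⟶ T) s, N s → N (P.map g.op s))
    (H : ∀ (I : Type) [SmallCategory I] [IsCofiltered I] (D : I ⥤ C) (c : Cone D),
      (∀ i, A (D.obj i)) → IsLimit c → ∀ i (s : P.obj (op (D.obj i))),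
        N (P.map (pr c i).op s) → ∃ (j : I) (f : j ⟶ i), N (P.map (D.map f).op s))
    {i : I} {V : C} (v : V ⟶ D.obj i) (hV : A V) (p : P.obj (op V))
    (hp : ∀ ⦃Y⦄ (a : Y ⟶ V) (b : Y ⟶ c.pt), a ≫ v = b ≫ pr c i → N (P.map a.op p)) :
    ∃ (j : I) (f : j ⟶ i), ∀ ⦃Y⦄ (a : Y ⟶ V) (b : Y ⟶ D.obj j), a ≫ v = b ≫ D.map f →
      N (P.map a.op p) := by
  obtain ⟨j, f, h⟩ := H _ (bcD D i v) (bcC c i v) (fun j => hA.pb _ _ (hD _) (hD _) hV)
    (bcL hc i v) (Over.mk (𝟙 i)) (P.map (pullback.snd (D.map (𝟙 i)) v).op p) (by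
      change N (P.map (bcP c i v (Over.mk (𝟙 i))).op
        (P.map (pullback.snd (D.map (Over.mk (𝟙 i)).hom) v).op p))
      rw [res_res, bcP_snd]
      exact hp _ (pullback.fst _ _) pullback.condition.symm)
  refine ⟨j.left, j.hom, fun Y a b e => ?_⟩
  have h' : N (P.map (bcM D i v f).op
    (P.map (pullback.snd (D.map (Over.mk (𝟙 i)).hom) v).op p)) := h
  have := hN (pullback.lift b a e.symm) _ h'
  rwa [res_res, res_res, Category.assoc, bcM_snd, pullback.lift_snd] at this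

lemma killF {P : Cᵒᵖ ⥤ Ab.{1}} (N : ∀ ⦃T : C⦄, P.obj (op T) → Prop)
    (hN : ∀ ⦃Y T : C⦄ (g : Y ⟶ T) s, N s → N (P.map g.op s))
    (H : ∀ (I : Type) [SmallCategory I] [IsCofiltered I] (D : I ⥤ C) (c : Cone D),
      (∀ i, A (D.obj i)) → IsLimit c → ∀ i (s : P.obj (op (D.obj i))),
        N (P.map (pr c i).op s) → ∃ (j : I) (f : j ⟶ i), N (P.map (D.map f).op s))
    {i : I} {ι : Type} [Finite ι] {V : ι → C} (v : ∀ l, V l ⟶ D.obj i) (hV : ∀ l, A (V l))
    (p : ∀ l, P.obj (op (V l)))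
    (hp : ∀ l ⦃Y⦄ (a : Y ⟶ V l) (b : Y ⟶ c.pt), a ≫ v l = b ≫ pr c i → N (P.map a.op (p l))) :
    ∃ (j : I) (f : j ⟶ i), ∀ l ⦃Y⦄ (a : Y ⟶ V l) (b : Y ⟶ D.obj j), a ≫ v l = b ≫ D.map f →
      N (P.map a.op (p l)) :=
  common i _ (fun l j k f g h Y a b e => h a (b ≫ D.map g) (by simpa using e))
    fun l => kill hA hD hc N hN H (v l) (hV l) (p l) (hp l)

lemma lift1 {K : Cᵒᵖ ⥤ Ab.{1}} (hK : LFPg A K) {i : I} {V : C} (v : V ⟶ D.obj i) (hV : A V)
    (x : K.obj (op (pullback (pr c i) v))) :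
    ∃ (j : I) (f : j ⟶ i) (x' : K.obj (op (pullback (D.map f) v))),
      ∀ ⦃Y⦄ (a : Y ⟶ pullback (D.map f) v) (z : Y ⟶ pullback (pr c i) v),
        a ≫ pullback.fst _ _ = z ≫ pullback.fst _ _ ≫ pr c j →
        a ≫ pullback.snd _ _ = z ≫ pullback.snd _ _ → K.map a.op x' = K.map z.op x := by
  obtain ⟨j, x', h⟩ := (hK _ (bcD D i v) (bcC c i v) (fun j => hA.pb _ _ (hD _) (hD _) hV)
    (bcL hc i v)).1 x
  refine ⟨j.left, j.hom, x', fun Y a z e1 e2 => ?_⟩
  have : a = z ≫ bcP c i v j := by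
    apply pullback.hom_ext
    · rw [e1, Category.assoc, bcP_fst]
    · rw [e2, Category.assoc, bcP_snd]
  have h' : K.map (bcP c i v j).op x' = x := h
  rw [← h', this, res_res]

omit hc in
lemma assemble {K : Cᵒᵖ ⥤ Ab.{1}} (R : ∀ ⦃Y : C⦄, (Y ⟶ c.pt) → K.obj (op Y) → Prop)
    {i : I} {ι : Type} [Finite ι] {V : ι → C} (v : ∀ l, V l ⟶ D.obj i) (hV : ∀ l, A (V l))
    (hv : Sieve.ofArrows V v ∈ J _)
    (h : ∀ l, ∃ (j : I) (f : j ⟶ i) (x : K.obj (op (pullback (D.map f) (v l)))),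
      ∀ ⦃Y⦄ (a : Y ⟶ pullback (D.map f) (v l)) (b : Y ⟶ c.pt),
        a ≫ pullback.fst _ _ = b ≫ pr c j → R b (K.map a.op x)) :
    ∃ (j : I) (V' : ι → C) (v' : ∀ l, V' l ⟶ D.obj j) (x : ∀ l, K.obj (op (V' l))),
      (∀ l, A (V' l)) ∧ Sieve.ofArrows V' v' ∈ J _ ∧
      ∀ l ⦃Y⦄ (a : Y ⟶ V' l) (b : Y ⟶ c.pt), a ≫ v' l = b ≫ pr c j → R b (K.map a.op (x l)) := by
  obtain ⟨j, f, h⟩ := common i _ (fun l j k f g ⟨x, hx⟩ =>
    ⟨K.map (pullback.map _ _ _ _ (D.map g) (𝟙 _) (𝟙 _) (by simp) (by simp)).op x,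
      fun Y a b e => by
        rw [res_res]
        exact hx _ _ (by simp [reassoc_of% e])⟩) h
  choose x hx using h
  refine ⟨j, _, fun l => pullback.fst _ _, x, fun l => hA.pb _ _ (hD _) (hD _) (hV l), ?_, hx⟩
  refine J.superset_covering ?_ (J.pullback_stable (D.map f) hv)
  rintro Y y ⟨_, a, _, ⟨l⟩, e⟩
  exact ⟨_, pullback.lift y a e.symm, _, ⟨l⟩, by simp⟩

lemma surj_of_good {F : Cᵒᵖ ⥤ Ab.{1}} (hF : Presheaf.IsSheaf J F)
    (H : ∀ (I : Type) [SmallCategory I] [IsCofiltered I] (D : I ⥤ C) (c : Cone D),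
      (∀ i, A (D.obj i)) → IsLimit c → ∀ i (s : F.obj (op (D.obj i))),
        F.map (pr c i).op s = 0 → ∃ (j : I) (f : j ⟶ i), F.map (D.map f).op s = 0)
    (s : F.obj (op c.pt)) {i : I} {ι : Type} [Finite ι] {V : ι → C} (v : ∀ l, V l ⟶ D.obj i)
    (hV : ∀ l, A (V l)) (hv : Sieve.ofArrows V v ∈ J _) (t : ∀ l, F.obj (op (V l)))
    (ht : ∀ l ⦃Y⦄ (a : Y ⟶ V l) (b : Y ⟶ c.pt), a ≫ v l = b ≫ pr c i →
      F.map a.op (t l) = F.map b.op s) :
    ∃ (k : I) (t : F.obj (op (D.obj k))), F.map (pr c k).op t = s := by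
  obtain ⟨k, g, h⟩ := killF hA hD hc (P := F) (fun _ s => s = 0)
    (fun _ _ g s h => by rw [h, map_zero]) H (ι := ι × ι)
    (fun l => pullback.fst (v l.1) (v l.2) ≫ v l.1) (fun l => hA.pb _ _ (hV _) (hD _) (hV _))
    (fun l => F.map (pullback.fst (v l.1) (v l.2)).op (t l.1) -
      F.map (pullback.snd (v l.1) (v l.2)).op (t l.2)) (fun l Y a b e => by
      rw [map_sub, res_res, res_res, ht _ _ b (by simpa using e),
        ht _ _ b (by simpa [← pullback.condition] using e), sub_self])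
  obtain ⟨u, hu⟩ := glue hF (fun Y (y : Y ⟶ D.obj k) x =>
      ∃ l, ∃ a : Y ⟶ V l, a ≫ v l = y ≫ D.map g ∧ x = F.map a.op (t l)) _
    (J.pullback_stable (D.map g) hv) (by
      rintro Y y ⟨_, a, _, ⟨l⟩, e⟩
      exact ⟨_, l, a, e, rfl⟩) (by
      rintro Z Y z y _ ⟨l, a, e, rfl⟩
      exact ⟨l, z ≫ a, by simp [e], res_res ..⟩) (by
      rintro Y y _ _ ⟨l, a, e, rfl⟩ ⟨m, a', e', rfl⟩
      have := h (l, m) (pullback.lift a a' (e.trans e'.symm)) y (by simpa using e)
      rwa [map_sub, res_res, res_res, pullback.lift_fst, pullback.lift_snd, sub_eq_zero] at this)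
  refine ⟨k, u, sepP' hF _ _ _ (J.pullback_stable (pr c i) hv) ?_⟩
  rintro Y y ⟨_, a, _, ⟨l⟩, e⟩
  rw [res_res, hu _ _ ⟨l, a, by simpa using e, rfl⟩, ht _ _ _ e]

omit hD hc in
/-- The sheafification of an LFP presheaf is LFP. -/
theorem LFPg.of_locBij {P F : Cᵒᵖ ⥤ Ab.{1}} (hF : Presheaf.IsSheaf J F) (η : P ⟶ F)
    [Presheaf.IsLocallyInjective J η] [Presheaf.IsLocallySurjective J η] (hP : LFPg A P) :
    LFPg A F := by
  have Z : ∀ (I : Type) [SmallCategory I] [IsCofiltered I] (D : I ⥤ C) (c : Cone D),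
      (∀ i, A (D.obj i)) → IsLimit c → ∀ i (s : P.obj (op (D.obj i))),
        η.app _ (P.map (pr c i).op s) = 0 →
          ∃ (j : I) (f : j ⟶ i), η.app _ (P.map (D.map f).op s) = 0 := by
    intro I _ _ D c hD hc i p hp
    obtain ⟨j, ι, _, V, v, hV, hv, hS⟩ := hA.desc I D c hD hc _
      (Presheaf.equalizerSieve_mem J η (P.map (pr c i).op p) 0 (hp.trans (map_zero _).symm))
    let m := IsCofiltered.min i j
    obtain ⟨k, g, h⟩ := killF hA hD hc (P := P) (fun _ s => s = 0)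
      (fun _ _ g s h => by rw [h, map_zero]) (fun I _ _ D c hD hc => (hP I D c hD hc).2)
      (fun l => pullback.fst (D.map (IsCofiltered.minToRight i j)) (v l))
      (fun l => hA.pb _ _ (hD _) (hD _) (hV l))
      (fun l => P.map (pullback.fst _ _ ≫ D.map (IsCofiltered.minToLeft i j)).op p)
      (fun l Y a b e => by
        have h0 : P.map _ (P.map _ p) = P.map _ 0 := hS l
        have := congrArg (P.map (pullback.lift b (a ≫ pullback.snd _ _) (by
          rw [Category.assoc, ← pullback.condition, reassoc_of% e, pr_w]) :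
            Y ⟶ pullback (pr c j) (v l)).op) h0
        rw [res_res, res_res, pullback.lift_fst, map_zero, map_zero] at this
        rw [res_res, reassoc_of% e, pr_w, this])
    refine ⟨k, g ≫ IsCofiltered.minToLeft i j, sepP hF _ _
      (J.pullback_stable (D.map (g ≫ IsCofiltered.minToRight i j)) hv) ?_⟩
    rintro Y y ⟨_, a, _, ⟨l⟩, e⟩
    have := h l (pullback.lift (y ≫ D.map g) a (by simpa using e.symm)) y (by simp)
    rw [res_res, pullback.lift_fst_assoc] at this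
    rw [← nat, res_res, D.map_comp, ← Category.assoc, this, map_zero]
  have inj : ∀ (I : Type) [SmallCategory I] [IsCofiltered I] (D : I ⥤ C) (c : Cone D),
      (∀ i, A (D.obj i)) → IsLimit c → ∀ i (s : F.obj (op (D.obj i))),
        F.map (pr c i).op s = 0 → ∃ (j : I) (f : j ⟶ i), F.map (D.map f).op s = 0 := by
    intro I _ _ D c hD hc i s hs
    obtain ⟨ι, _, V, v, hV, hv, hS⟩ := hA.fin (hD i) _ (Presheaf.imageSieve_mem J η s)
    choose p hp using hS
    obtain ⟨j, f, h⟩ := killF hA hD hc (P := P) (fun _ s => η.app _ s = 0)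
      (fun _ _ g s h => by rw [nat, h, map_zero]) Z v hV p (fun l Y a b e => by
        rw [nat, hp, res_res, e, ← res_res, hs, map_zero])
    refine ⟨j, f, sepP hF _ _ (J.pullback_stable (D.map f) hv) ?_⟩
    rintro Y y ⟨_, a, _, ⟨l⟩, e⟩
    rw [res_res, ← e, ← res_res, ← hp, ← nat, h l a y e]
  intro I _ _ D c hD hc
  refine ⟨fun s => ?_, inj I D c hD hc⟩
  obtain ⟨i, ι, _, V, v, hV, hv, hS⟩ := hA.desc I D c hD hc _ (Presheaf.imageSieve_mem J η s)
  choose p hp using hS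
  obtain ⟨j, V', v', x, hV', hv', h⟩ := assemble hA hD (K := P)
    (fun Y y x => η.app _ x = F.map y.op s) v hV hv fun l => by
      obtain ⟨j, f, x, hx⟩ := lift1 hA hD hc hP (v l) (hV l) (p l)
      refine ⟨j, f, x, fun Y a b e => ?_⟩
      rw [hx a (pullback.lift b (a ≫ pullback.snd _ _) (by
        rw [Category.assoc, ← pullback.condition, reassoc_of% e, pr_w])) (by simpa using e)
        (by simp), nat, hp, res_res, pullback.lift_fst]
  exact surj_of_good hA hD hc hF inj s v' hV' hv' (fun l => η.app _ (x l))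
    fun l Y a b e => by rw [← nat, h l a b e]

omit hD hc in
/-- Extensions of LFP sheaves are LFP. -/
theorem LFPg.ext {F G H : Cᵒᵖ ⥤ Ab.{1}} (hG : Presheaf.IsSheaf J G) (φ : F ⟶ G) (ψ : G ⟶ H)
    (h0 : ∀ T (x : F.obj T), φ.app T x = 0 → x = 0)
    (h1 : ∀ T (x : G.obj T), ψ.app T x = 0 ↔ ∃ y, φ.app T y = x)
    [Presheaf.IsLocallySurjective J ψ] (hF : LFPg A F) (hH : LFPg A H) : LFPg A G := by
  have inj : ∀ (I : Type) [SmallCategory I] [IsCofiltered I] (D : I ⥤ C) (c : Cone D),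
      (∀ i, A (D.obj i)) → IsLimit c → ∀ i (s : G.obj (op (D.obj i))),
        G.map (pr c i).op s = 0 → ∃ (j : I) (f : j ⟶ i), G.map (D.map f).op s = 0 := by
    intro I _ _ D c hD hc i s hs
    obtain ⟨j, f, h⟩ := (hH I D c hD hc).2 i (ψ.app _ s) (by rw [← nat, hs, map_zero])
    obtain ⟨y, hy⟩ := (h1 _ _).1 ((nat ψ _ s).trans h)
    obtain ⟨k, g, h⟩ := (hF I D c hD hc).2 j y (h0 _ _ (by rw [nat, hy, res_res, pr_w, hs]))
    exact ⟨k, g ≫ f, by rw [D.map_comp, ← res_res, ← hy, ← nat, h, map_zero]⟩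
  intro I _ _ D c hD hc
  refine ⟨fun s => ?_, inj I D c hD hc⟩
  obtain ⟨i, t, ht⟩ := (hH I D c hD hc).1 (ψ.app _ s)
  obtain ⟨ι, _, V, v, hV, hv, hS⟩ := hA.fin (hD i) _ (Presheaf.imageSieve_mem J ψ t)
  choose p hp using hS
  obtain ⟨j, V', v', x, hV', hv', h⟩ := assemble hA hD (K := G)
    (fun Y y x => x = G.map y.op s) v hV hv fun l => by
      obtain ⟨y, hy⟩ := (h1 _ (G.map (pullback.fst (pr c i) (v l)).op s -
          G.map (pullback.snd (pr c i) (v l)).op (p l))).1 (by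
        rw [map_sub, nat, nat, hp, ← ht, res_res, res_res, pullback.condition, sub_self])
      obtain ⟨j, f, x, hx⟩ := lift1 hA hD hc hF (v l) (hV l) y
      refine ⟨j, f, φ.app _ x + G.map (pullback.snd _ _).op (p l), fun Y a b e => ?_⟩
      rw [map_add, ← nat, hx a (pullback.lift b (a ≫ pullback.snd _ _) (by
        rw [Category.assoc, ← pullback.condition, reassoc_of% e, pr_w])) (by simpa using e)
        (by simp), nat, hy, map_sub, res_res, res_res, res_res, pullback.lift_fst,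
        pullback.lift_snd, sub_add_cancel]
  exact surj_of_good hA hD hc hG inj s v' hV' hv' x h

end Pool.Agent.MP_855f4c_ag.E

end

section

set_option backward.isDefEq.respectTransparency false

open CategoryTheory Limits Opposite AlgebraicGeometry

namespace Pool.Agent.MP_855f4c_ag.E

open E3

section generic
variable {C : Type 1} [Category.{0} C] (J : GrothendieckTopology C)

/-- A class of objects stable under passing to the source of an arrow. -/
structure Down (C : Type 1) [Category.{0} C] where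
  mem : C → Prop
  down : ∀ ⦃Y T : C⦄, (Y ⟶ T) → mem T → mem Y

variable (U : Down C)

/-- Arrows that kill `s` or have their source in `U`. -/
def ezSieve (P : Cᵒᵖ ⥤ Ab.{1}) {T : C} (s : P.obj (op T)) : Sieve T where
  arrows Y y := P.map y.op s = 0 ∨ U.mem Y
  downward_closed {Y Z y} h g := h.imp
    (fun h => by rw [← res_res, h, map_zero]) (U.down g)

/-- Sections that locally vanish or live on an object of `U`. -/
def ezSub (P : Cᵒᵖ ⥤ Ab.{1}) (T : C) : AddSubgroup (P.obj (op T)) where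
  carrier := {s | ezSieve U P s ∈ J T}
  zero_mem' := J.superset_covering (fun _ _ _ => .inl (map_zero _)) (J.top_mem T)
  add_mem' {a b} ha hb := J.superset_covering (S := ezSieve U P a ⊓ ezSieve U P b)
    (fun _ y h => h.1.elim
      (fun h1 => h.2.imp_left fun h2 => by rw [map_add, h1, h2, add_zero]) .inr)
    (J.intersection_covering ha hb)
  neg_mem' {a} ha := J.superset_covering (S := ezSieve U P a)
    (fun _ y h => h.imp_left fun h1 => by rw [map_neg, h1, neg_zero]) ha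

variable {J U} in
lemma ezSub_res {P : Cᵒᵖ ⥤ Ab.{1}} {Y T : C} (g : Y ⟶ T) {s : P.obj (op T)}
    (h : s ∈ ezSub J U P T) : P.map g.op s ∈ ezSub J U P Y :=
  J.superset_covering (S := (ezSieve U P s).pullback g)
    (fun _ y h => h.imp_left fun h1 => (res_res P y g s).trans h1) (J.pullback_stable g h)

variable {J U} in
lemma ezSub_app {P Q : Cᵒᵖ ⥤ Ab.{1}} (φ : P ⟶ Q) {T : C} {s : P.obj (op T)}
    (h : s ∈ ezSub J U P T) : φ.app (op T) s ∈ ezSub J U Q T :=
  J.superset_covering (S := ezSieve U P s)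
    (fun _ y h => h.imp_left fun h1 => by rw [← nat, h1, map_zero]) h

/-- The subpresheaf of such sections. -/
def ezP (P : Cᵒᵖ ⥤ Ab.{1}) : Cᵒᵖ ⥤ Ab.{1} where
  obj T := AddCommGrpCat.of (ezSub J U P T.unop)
  map g := AddCommGrpCat.ofHom (((P.map g).hom.comp (AddSubgroup.subtype _)).codRestrict _
    fun s => ezSub_res g.unop s.2)
  map_id T := by ext s; exact res_id P s.1
  map_comp f g := by ext s; exact (res_res P g.unop f.unop s.1).symm

lemma ezP_isSheaf {P : Cᵒᵖ ⥤ Ab.{1}} (hP : Presheaf.IsSheaf J P) :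
    Presheaf.IsSheaf J (ezP J U P) := by
  refine isSheaf_of_type fun T S hS x hx => ?_
  obtain ⟨t, ht, ht'⟩ := isSheaf_type hP S hS (fun Y y hy => (x y hy).1)
    (fun Y₁ Y₂ Z g₁ g₂ f₁ f₂ h₁ h₂ e => congrArg Subtype.val (hx g₁ g₂ h₁ h₂ e))
  refine ⟨⟨t, J.transitive hS _ fun Y y hy => J.superset_covering (S := ezSieve U P (x y hy).1)
    (fun Z z h => h.imp_left fun h1 => ?_) (x y hy).2⟩, fun Y y hy => Subtype.ext (ht y hy), fun u hu =>
      Subtype.ext (ht' _ fun Y y hy => congrArg Subtype.val (hu y hy))⟩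
  rw [← res_res, ← h1]
  exact congrArg _ (ht y hy)

/-- Extension by zero `F ↦ F_U`. -/
def ezg : Sh J ⥤ Sh J where
  obj F := ⟨ezP J U F.obj, ezP_isSheaf J U F.property⟩
  map φ := ⟨{ app T := AddCommGrpCat.ofHom
                (((φ.hom.app T).hom.comp (AddSubgroup.subtype _)).codRestrict _
                  fun s => ezSub_app φ.hom s.2)
              naturality T T' g := by ext s; exact Subtype.ext (nat φ.hom g.unop s.1) }⟩

/-- The inclusion `F_U ⟶ F`. -/
def ezgι : ezg J U ⟶ 𝟭 (Sh J) where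
  app F := ⟨{ app T := AddCommGrpCat.ofHom (AddSubgroup.subtype _) }⟩

variable (B : ObjectProperty C)

/-- Restriction to the full subcategory `B` followed by left Kan extension. -/
noncomputable def LanP : (Cᵒᵖ ⥤ Ab.{1}) ⥤ (Cᵒᵖ ⥤ Ab.{1}) :=
  (Functor.whiskeringLeft _ _ _).obj B.ι.op ⋙ B.ι.op.lan

/-- The counit. -/
noncomputable def LanPε : LanP B ⟶ 𝟭 _ := (B.ι.op.lanAdjunction Ab.{1}).counit

/-- The sheafified left Kan extension of the restriction to `B`. -/
noncomputable def Lc : Sh J ⥤ Sh J := sheafToPresheaf J _ ⋙ LanP B ⋙ presheafToSheaf J _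

/-- The counit `Lc F ⟶ F`. -/
noncomputable def Lcε : Lc J B ⟶ 𝟭 (Sh J) :=
  Functor.whiskerLeft (sheafToPresheaf J _) (Functor.whiskerRight (LanPε B) (presheafToSheaf J _)) ≫
    (sheafificationAdjunction J Ab.{1}).counit

end generic

/-- The big etale site of `X`. -/
abbrev Jov (X : Scheme.{0}) : GrothendieckTopology (Over X) := Scheme.etaleTopology.over X

/-- Abelian presheaves on schemes over `X`. -/
abbrev PSh (X : Scheme.{0}) := (Over X)ᵒᵖ ⥤ Ab.{1}

variable {X : Scheme.{0}}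

/-- Affine schemes over `X`. -/
def Aff (X : Scheme.{0}) : ObjectProperty (Over X) := fun T => IsAffine T.left

/-- Locally of finite presentation. -/
def LFP (P : PSh X) : Prop := LFPg (Aff X) P

/-- `Spec φ` as a morphism over `X`. -/
noncomputable def sph {A B : Type} [CommRing A] [CommRing B] (φ : A →+* B)
    {a : Spec (.of A) ⟶ X} {b : Spec (.of B) ⟶ X} (h : Spec.map (CommRingCat.ofHom φ) ≫ a = b) :
    Over.mk b ⟶ Over.mk a := Over.homMk (Spec.map (CommRingCat.ofHom φ)) h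

/-- Rigidity. -/
def Rig (l : ℕ) (P : PSh X) : Prop :=
  ∀ (A k : Type) [CommRing A] [SHL A] [Field k] [IsAlgClosed k] (φ : A →+* k) [IsLocalHom φ]
    (a : Spec (.of A) ⟶ X) (b : Spec (.of k) ⟶ X) (h : Spec.map (CommRingCat.ofHom φ) ≫ a = b),
    IsUnit (l : A) → Function.Bijective (P.map (sph φ h).op)

/-- Sections over affines are killed by a power of `l`. -/
def Tor (l : ℕ) (P : PSh X) : Prop :=
  ∀ T : Over X, IsAffine T.left → ∀ s : P.obj (op T), ∃ n : ℕ, l ^ n • s = 0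

/-- LFP and rigid. -/
def Cc (l : ℕ) (F : Sh (Scheme.etaleTopology.over X)) : Prop := LFP F.obj ∧ Rig l F.obj

/-- LFP, rigid and `l`-primary torsion. -/
def Tc (l : ℕ) (F : Sh (Scheme.etaleTopology.over X)) : Prop := Cc l F ∧ Tor l F.obj

/-- Schemes over `X` that map into the open `U`. -/
def ovU (U : X.Opens) : Down (Over X) where
  mem T := ∀ t : T.left, T.hom t ∈ U
  down Y T g h t := by rw [← Over.w g]; exact h (g.left t)

/-- Extension by zero `F ↦ F_U`. -/
noncomputable def ez (U : X.Opens) : Sh (Scheme.etaleTopology.over X) ⥤ Sh (Scheme.etaleTopology.over X) := ezg (Scheme.etaleTopology.over X) (ovU U)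

/-- The inclusion `F_U ⟶ F`. -/
noncomputable def ezι (U : X.Opens) : ez U ⟶ 𝟭 _ := ezgι (Scheme.etaleTopology.over X) (ovU U)

/-- Etale schemes over `X`. -/
def Et (X : Scheme.{0}) : ObjectProperty (Over X) := fun T => Etale T.hom

/-- The sheaf on the big site attached to the small part. -/
noncomputable def cart (X : Scheme.{0}) : Sh (Scheme.etaleTopology.over X) ⥤ Sh (Scheme.etaleTopology.over X) := Lc (Scheme.etaleTopology.over X) (Et X)

/-- The counit `cart F ⟶ F`. -/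
noncomputable def cartε (X : Scheme.{0}) : cart X ⟶ 𝟭 _ := Lcε (Scheme.etaleTopology.over X) (Et X)

/-- The constant sheaf. -/
noncomputable abbrev cst (X : Scheme.{0}) : Ab.{1} ⥤ Sh (Scheme.etaleTopology.over X) := constantSheaf (Scheme.etaleTopology.over X) Ab.{1}

/-- The presheaf `T ↦ H^q(T,F)`. -/
noncomputable def HP {C : Type 1} [Category.{0} C] {J : GrothendieckTopology C} (F : Sh J) (q : ℕ) :
    Cᵒᵖ ⥤ Ab.{1} :=
  (fr J).op ⋙ (Abelian.extFunctor q).flip.obj F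

end Pool.Agent.MP_855f4c_ag.E

end

section

set_option backward.isDefEq.respectTransparency false

open CategoryTheory Limits Opposite AlgebraicGeometry

namespace Pool.Agent.MP_855f4c_ag.E

variable {X : Scheme.{0}}

instance hasColimits_Sh {C : Type 1} [Category.{0} C] (J : GrothendieckTopology C) :
    HasColimitsOfSize.{1, 1} (Sh J) := IsGrothendieckAbelian.hasColimits.{1} _

instance hasCoproduct_Sh {C : Type 1} [Category.{0} C] {J : GrothendieckTopology C} {ι : Type 1}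
    (F : ι → Sh J) : HasCoproduct F :=
  (HasColimitsOfSize.has_colimits_of_shape.{1, 1} (C := Sh J) (Discrete ι)).has_colimit _

/-- `l` is invertible on `X`. -/
def Linv (l : ℕ) (X : Scheme.{0}) : Prop :=
  ∀ (k : Type) [Field k] (_ : Spec (.of k) ⟶ X), (l : k) ≠ 0

lemma Linv.of_hom {l : ℕ} {Y : Scheme.{0}} (h : Linv l X) (f : Y ⟶ X) : Linv l Y :=
  fun k _ x => h k (x ≫ f)

lemma Linv.spec {l : ℕ} {A : Type} [CommRing A] (h : IsUnit (l : A)) : Linv l (Spec (.of A)) := by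
  intro k _ x
  obtain ⟨φ, rfl⟩ := Spec.map_surjective x
  simpa using (h.map φ.hom).ne_zero

lemma Linv.isUnit {l : ℕ} (h : Linv l X) {A : Type} [CommRing A] (a : Spec (.of A) ⟶ X) :
    IsUnit (l : A) := by
  by_contra hl
  obtain ⟨m, hm, hlm⟩ := exists_max_ideal_of_mem_nonunits hl
  let := Ideal.Quotient.field m
  refine h (A ⧸ m) (Spec.map (CommRingCat.ofHom (Ideal.Quotient.mk m)) ≫ a) ?_
  rw [← map_natCast (Ideal.Quotient.mk m), Ideal.Quotient.eq_zero_iff_mem]
  exact hlm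

lemma mem_Jov_of {T : Over X} (S : Sieve T)
    (h : ∀ t : T.left, ∃ (V : Over X) (v : V ⟶ T), Etale v.left ∧ S v ∧ t ∈ Set.range v.left) :
    S ∈ Scheme.etaleTopology.over X T := by
  choose V v h1 h2 z hz using h
  rw [GrothendieckTopology.mem_over_iff, Scheme.mem_grothendieckTopology_iff]
  refine ⟨Scheme.Cover.mkOfCovers T.left (fun t => (V t).left) (fun t => (v t).left)
    (fun t => ⟨_, _, hz t⟩) h1, ?_⟩
  rintro _ _ ⟨t⟩
  exact ⟨_, v t, 𝟙 _, h2 t, (Category.id_comp _).symm⟩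

lemma exists_of_mem_Jov {T : Over X} {S : Sieve T} (hS : S ∈ Scheme.etaleTopology.over X T) (t : T.left) :
    ∃ (V : Over X) (v : V ⟶ T), IsAffine V.left ∧ Etale v.left ∧ S v ∧ t ∈ Set.range v.left := by
  rw [GrothendieckTopology.mem_over_iff, Scheme.mem_grothendieckTopology_iff] at hS
  obtain ⟨𝒰, hle⟩ := hS
  obtain ⟨i, y, rfl⟩ := 𝒰.exists_eq t
  obtain ⟨R, j, _, ⟨z, rfl⟩, -⟩ := Scheme.exists_affine_mem_range_and_range_subset
    (x := y) (U := ⊤) (by simp)
  refine ⟨Over.mk ((j ≫ 𝒰.f i) ≫ T.hom), Over.homMk (j ≫ 𝒰.f i),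
    inferInstanceAs (IsAffine (Spec _)), (inferInstance : Etale (j ≫ 𝒰.f i)), ?_, z, by simp⟩
  exact (Sieve.overEquiv_iff S _).1 ((Sieve.overEquiv T S).downward_closed (hle _ _ ⟨i⟩) j)

/-- An open subscheme as an object over `X`. -/
noncomputable abbrev opn (T : Over X) (W : T.left.Opens) : Over X := Over.mk (W.ι ≫ T.hom)

/-- The inclusion of an open subscheme. -/
noncomputable def opι (T : Over X) (W : T.left.Opens) : opn T W ⟶ T := Over.homMk W.ι

section sys
variable {I : Type} [SmallCategory I] [IsCofiltered I] {D : I ⥤ Over X} {c : Cone D}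

attribute [local instance] IsCofiltered.isConnected in
/-- A cofiltered limit over `X` is a limit of schemes. -/
noncomputable def limForget (hc : IsLimit c) : IsLimit ((Over.forget X).mapCone c) :=
  isLimitOfPreserves _ hc

/-- A limit of the underlying schemes is a limit over `X`. -/
noncomputable def limOfForget (hc : IsLimit ((Over.forget X).mapCone c)) : IsLimit c :=
  haveI := IsCofiltered.isConnected I
  isLimitOfReflects _ hc

/-- The structure maps of a system. -/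
def strM (D : I ⥤ Over X) : D ⋙ Over.forget X ⟶ (Functor.const I).obj X where
  app i := (D.obj i).hom

lemma hom_surj (hD : ∀ i, IsAffine (D.obj i).left) (hc : IsLimit c) (U : Over X)
    [LocallyOfFinitePresentation U.hom] (g : c.pt ⟶ U) :
    ∃ (i : I) (g' : D.obj i ⟶ U), pr c i ≫ g' = g := by
  have (i : I) : IsAffine ((D ⋙ Over.forget X).obj i) := hD i
  obtain ⟨i, g', h1, h2⟩ := Scheme.exists_π_app_comp_eq_of_locallyOfFinitePresentation
    (D ⋙ Over.forget X) (strM D) U.hom _ (limForget hc) g.left (by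
      ext i
      exact (Over.w (pr c i)).trans (Over.w g).symm)
  exact ⟨i, Over.homMk g' h2, Over.OverMorphism.ext h1⟩

lemma hom_inj (hD : ∀ i, IsAffine (D.obj i).left) (hc : IsLimit c) (U : Over X)
    [LocallyOfFiniteType U.hom] (i : I) (a b : D.obj i ⟶ U) (h : pr c i ≫ a = pr c i ≫ b) :
    ∃ (j : I) (f : j ⟶ i), D.map f ≫ a = D.map f ≫ b := by
  have (i : I) : IsAffine ((D ⋙ Over.forget X).obj i) := hD i
  obtain ⟨j, f, h⟩ := Scheme.exists_hom_comp_eq_comp_of_locallyOfFiniteType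
    (D ⋙ Over.forget X) (strM D) U.hom _ (limForget hc) a.left b.left (Over.w a).symm
    (Over.w b).symm (congrArg (·.left) h)
  exact ⟨j, f, Over.OverMorphism.ext h⟩

lemma open_desc (hD : ∀ {i j : I} (f : i ⟶ j), IsAffineHom (D.map f).left)
    (hq : ∀ i, CompactSpace (D.obj i).left) (hc : IsLimit c) (i : I)
    (W : (D.obj i).left.Opens) (h : ∀ t : c.pt.left, (pr c i).left t ∈ W) :
    ∃ (j : I) (f : j ⟶ i), ∀ t : (D.obj j).left, (D.map f).left t ∈ W := by
  have {i j : I} (f : i ⟶ j) : IsAffineHom ((D ⋙ Over.forget X).map f) := hD f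
  have (i : I) : CompactSpace ((D ⋙ Over.forget X).obj i) := hq i
  obtain ⟨j, f, hf⟩ := exists_map_eq_top (D ⋙ Over.forget X) _ (limForget hc) W
    (eq_top_iff.2 fun t _ => h t)
  exact ⟨j, f, fun t => hf.ge (Set.mem_univ t)⟩

lemma isAffine_lim (hD : ∀ i, IsAffine (D.obj i).left) (hc : IsLimit c) : IsAffine c.pt.left := by
  have (i : I) : IsAffine ((D ⋙ Over.forget X).obj i) := hD i
  exact Scheme.isAffine_of_isLimit _ (limForget hc)

end sys

lemma isPullback_left {P A B T : Over X} {a : P ⟶ A} {b : P ⟶ B} {f : A ⟶ T} {g : B ⟶ T}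
    (h : IsPullback a b f g) : IsPullback a.left b.left f.left g.left :=
  h.map (Over.forget X)

lemma aff_pb {V T T' : Over X} (f : V ⟶ T) (g : T' ⟶ T) (h1 : Aff X V) (h2 : Aff X T)
    (h3 : Aff X T') : Aff X (pullback f g) := by
  have : IsAffine V.left := h1
  have : IsAffine T.left := h2
  have : IsAffine T'.left := h3
  exact .of_isIso (isPullback_left (IsPullback.of_hasPullback f g)).isoPullback.hom

end Pool.Agent.MP_855f4c_ag.E

end
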