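import Mathlib

section

namespace Pool.Agent.MP_855f4c_ag.AicG

variable {R : Type*} [CommRing R]

section

variable (f g : R) (Rg T : Type*) [CommRing Rg] [CommRing T] [Algebra R Rg] [Algebra R T]
  [Algebra Rg T] [IsScalarTower R Rg T] [IsLocalization.Away g Rg] [IsLocalization.Away (f * g) T]

include g in
lemma surj' (u : T) : ∃ (N : ℕ) (x : Rg), algebraMap Rg T x = u * algebraMap R T f ^ N := by
  obtain ⟨N, a, h⟩ := IsLocalization.Away.surj (f * g) u
  obtain ⟨w, hw⟩ := (IsLocalization.Away.algebraMap_pow_isUnit (S := Rg) g N).exists_right_inv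
  refine ⟨N, algebraMap R Rg a * w, ?_⟩
  have h1 := congrArg (algebraMap Rg T) hw
  rw [map_mul, map_pow, map_one, ← IsScalarTower.algebraMap_apply] at h1
  rw [map_mul, ← IsScalarTower.algebraMap_apply, ← h, map_mul, mul_pow]
  linear_combination u * algebraMap R T f ^ N * h1

include g in
lemma ker' (x : Rg) (hx : algebraMap Rg T x = 0) : ∃ M : ℕ, algebraMap R Rg f ^ M * x = 0 := by
  obtain ⟨k, a, h⟩ := IsLocalization.Away.surj g x
  have h1 : algebraMap R T a = algebraMap R T 0 := by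
    rw [IsScalarTower.algebraMap_apply R Rg T, ← h, map_mul, hx, zero_mul, map_zero]
  obtain ⟨M, hM⟩ := IsLocalization.Away.exists_of_eq (f * g) h1
  refine ⟨M, ?_⟩
  have h2 := congrArg (algebraMap R Rg) hM
  rw [mul_zero, map_zero, map_mul, map_pow, map_mul, ← h, mul_pow] at h2
  have hu := IsLocalization.Away.algebraMap_pow_isUnit (S := Rg) g (M + k)
  rw [← hu.mul_right_eq_zero, pow_add]
  linear_combination h2

include g in
lemma root' (n : ℕ) (hn : 0 < n) (u : T) (hu : u ^ n = 1) : ∃ (N : ℕ) (x : Rg),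
    algebraMap Rg T x = u * algebraMap R T f ^ N ∧ x ^ n = algebraMap R Rg f ^ (N * n) := by
  obtain ⟨N, x, hx⟩ := surj' f g Rg T u
  obtain ⟨M, hM⟩ := ker' f g Rg T (x ^ n - algebraMap R Rg f ^ (N * n)) (by
    rw [map_sub, map_pow, map_pow, hx, mul_pow, hu, one_mul, ← pow_mul,
      ← IsScalarTower.algebraMap_apply, sub_self])
  refine ⟨N + M, x * algebraMap R Rg f ^ M, ?_, ?_⟩
  · rw [map_mul, hx, map_pow, ← IsScalarTower.algebraMap_apply, pow_add, mul_assoc]
  · obtain ⟨m, rfl⟩ : ∃ m, n = m + 1 := ⟨n - 1, by omega⟩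
    rw [mul_pow, ← pow_mul, add_mul, pow_add _ (N * (m + 1)), mul_add M, mul_one, pow_add _ (M * m)]
    linear_combination algebraMap R Rg f ^ (M * m) * hM

end

variable (f g : R) (Rf Rg T : Type*) [CommRing Rf] [CommRing Rg] [CommRing T] [Algebra R Rf]
  [Algebra R Rg] [Algebra R T] [Algebra Rf T] [Algebra Rg T] [IsScalarTower R Rf T]
  [IsScalarTower R Rg T] [IsLocalization.Away f Rf] [IsLocalization.Away g Rg]
  [IsLocalization.Away (f * g) T]

lemma glue (hfg : IsCoprime f g) (y : Rf) (x : Rg) (h : algebraMap Rf T y = algebraMap Rg T x) :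
    ∃ e : R, algebraMap R Rf e = y ∧ algebraMap R Rg e = x := by
  obtain ⟨k, a, ha⟩ := IsLocalization.Away.surj g x
  obtain ⟨l, b, hb⟩ := IsLocalization.Away.surj f y
  have h1 : algebraMap R T (a * f ^ l) = algebraMap R T (b * g ^ k) := by
    rw [map_mul, map_mul, IsScalarTower.algebraMap_apply R Rg T a,
      IsScalarTower.algebraMap_apply R Rf T b, ← ha, ← hb, map_mul, map_mul, h, map_pow, map_pow,
      map_pow, map_pow, ← IsScalarTower.algebraMap_apply, ← IsScalarTower.algebraMap_apply]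
    ring
  obtain ⟨M, hM⟩ := IsLocalization.Away.exists_of_eq (f * g) h1
  obtain ⟨α, β, hαβ⟩ : IsCoprime (f ^ (l + M)) (g ^ (k + M)) := hfg.pow
  refine ⟨α * (b * f ^ M) + β * (a * g ^ M), ?_, ?_⟩
  · refine (IsLocalization.Away.algebraMap_pow_isUnit (S := Rf) f (l + M)).mul_right_cancel ?_
    have : (α * (b * f ^ M) + β * (a * g ^ M)) * f ^ (l + M) = b * f ^ M := by
      rw [mul_pow] at hM
      rw [pow_add, pow_add] at hαβ
      rw [pow_add]
      linear_combination β * hM + b * f ^ M * hαβ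
    rw [← map_pow, ← map_mul, this, map_mul, ← hb, map_pow, map_pow, pow_add, mul_assoc]
  · refine (IsLocalization.Away.algebraMap_pow_isUnit (S := Rg) g (k + M)).mul_right_cancel ?_
    have : (α * (b * f ^ M) + β * (a * g ^ M)) * g ^ (k + M) = a * g ^ M := by
      rw [mul_pow] at hM
      rw [pow_add, pow_add] at hαβ
      rw [pow_add]
      linear_combination -α * hM + a * g ^ M * hαβ
    rw [← map_pow, ← map_mul, this, map_mul, ← ha, map_pow, map_pow, pow_add, mul_assoc]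

/-- If every element of `R` has an `n`-th root, then `μ_n(R_f) × μ_n(R_g) → μ_n(R_fg)` is onto. -/
theorem split_mu (n : ℕ) (hn : 0 < n) (hroot : ∀ a : R, ∃ r, r ^ n = a) (hfg : IsCoprime f g)
    (u : T) (hu : u ^ n = 1) :
    ∃ (c1 : Rf) (c0 : Rg), c1 ^ n = 1 ∧ c0 ^ n = 1 ∧
      algebraMap Rg T c0 = u * algebraMap Rf T c1 := by
  have : IsLocalization.Away (g * f) T := by rwa [mul_comm]
  obtain ⟨m, rfl⟩ : ∃ m, n = m + 1 := ⟨n - 1, by omega⟩
  have hv : u * u ^ m = 1 := by rw [← pow_succ', hu]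
  obtain ⟨N, x0, hx1, hx2⟩ := root' f g Rg T _ hn u hu
  obtain ⟨N', y0, hy1, hy2⟩ := root' g f Rf T _ hn (u ^ m) (by
    rw [← pow_mul, mul_comm, pow_mul, hu, one_pow])
  obtain ⟨a, b, hab⟩ : IsCoprime (f ^ N) (g ^ (N' * (m + 1))) := hfg.pow
  obtain ⟨w0, hw0⟩ := hroot (-b * ∑ i ∈ Finset.range (m + 1), (a * f ^ N) ^ i)
  have hw : (a * f ^ N) ^ (m + 1) - w0 ^ (m + 1) * g ^ (N' * (m + 1)) = 1 := by
    have := geom_sum_mul (a * f ^ N) (m + 1)
    rw [hw0]
    linear_combination -this + (∑ i ∈ Finset.range (m + 1), (a * f ^ N) ^ i) * hab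
  set s0 : Rg := algebraMap R Rg a * x0 - algebraMap R Rg (w0 * g ^ N') with hs0
  set s1 : Rf := algebraMap R Rf (a * f ^ N) - algebraMap R Rf w0 * y0 with hs1
  have u0 : IsUnit s0 := by
    refine isUnit_of_dvd_one ((sub_dvd_pow_sub_pow _ _ (m + 1)).trans (dvd_of_eq ?_))
    have := congrArg (algebraMap R Rg) hw
    simp only [map_sub, map_mul, map_pow, map_one, mul_pow, ← pow_mul] at this ⊢
    rw [hx2]; exact this
  have u1 : IsUnit s1 := by
    refine isUnit_of_dvd_one ((sub_dvd_pow_sub_pow _ _ (m + 1)).trans (dvd_of_eq ?_))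
    have := congrArg (algebraMap R Rf) hw
    simp only [map_sub, map_mul, map_pow, map_one, mul_pow, ← pow_mul] at this ⊢
    rw [hy2]; exact this
  have h01 : algebraMap Rg T s0 = u * algebraMap Rf T s1 := by
    simp only [hs0, hs1, map_sub, map_mul, map_pow, hx1, hy1, ← IsScalarTower.algebraMap_apply]
    linear_combination algebraMap R T w0 * algebraMap R T g ^ N' * hv
  obtain ⟨e, he1, he0⟩ := glue f g Rf Rg T hfg (s1 ^ (m + 1)) (s0 ^ (m + 1)) (by
    rw [map_pow, map_pow, h01, mul_pow, hu, one_mul])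
  obtain ⟨ρ, rfl⟩ := hroot e
  rw [map_pow] at he1 he0
  have v1 : IsUnit (algebraMap R Rf ρ) := (isUnit_pow_iff hn.ne').1 (he1 ▸ u1.pow _)
  have v0 : IsUnit (algebraMap R Rg ρ) := (isUnit_pow_iff hn.ne').1 (he0 ▸ u0.pow _)
  obtain ⟨r1, hr1⟩ := v1.exists_right_inv
  obtain ⟨r0, hr0⟩ := v0.exists_right_inv
  refine ⟨s1 * r1, s0 * r0, ?_, ?_, ?_⟩
  · rw [mul_pow, ← he1, ← mul_pow, hr1, one_pow]
  · rw [mul_pow, ← he0, ← mul_pow, hr0, one_pow]
  · have h1 := congrArg (algebraMap Rf T) hr1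
    have h0 := congrArg (algebraMap Rg T) hr0
    rw [map_mul, map_one, ← IsScalarTower.algebraMap_apply] at h1 h0
    have : algebraMap Rg T r0 = algebraMap Rf T r1 := by
      linear_combination algebraMap Rf T r1 * h0 - algebraMap Rg T r0 * h1
    rw [map_mul, map_mul, h01, this, mul_assoc]

end Pool.Agent.MP_855f4c_ag.AicG

end

section

namespace Pool.Agent.MP_855f4c_ag.AicSec

open Polynomial

/-- Every monic polynomial of positive degree has a root. -/
def Aic (A : Type*) [CommRing A] : Prop :=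
  ∀ p : A[X], p.Monic → p.natDegree ≠ 0 → ∃ a, p.eval a = 0

variable {A : Type*} [CommRing A]

lemma Aic.root_lift (hA : Aic A) {K : Type*} [CommRing K] [IsDomain K] [Algebra A K] (x : K)
    (p : A[X]) (hp : p.Monic) (hx : aeval x p = 0) :
    ∃ a, p.eval a = 0 ∧ algebraMap A K a = x := by
  have : Nontrivial A := (algebraMap A K).domain_nontrivial
  induction hd : p.natDegree generalizing p with
  | zero =>
    rw [hp.natDegree_eq_zero.1 hd, map_one] at hx
    exact absurd hx one_ne_zero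
  | succ d ih =>
    obtain ⟨a, ha⟩ := hA p hp (by omega)
    obtain ⟨q, rfl⟩ := dvd_iff_isRoot.2 ha
    have hq : q.Monic := (monic_X_sub_C a).of_mul_monic_left hp
    rw [(monic_X_sub_C a).natDegree_mul hq, natDegree_X_sub_C] at hd
    rw [map_mul, mul_eq_zero] at hx
    rcases hx with hx | hx
    · refine ⟨a, ha, ?_⟩
      rw [map_sub, aeval_X, aeval_C, sub_eq_zero] at hx
      exact hx.symm
    · obtain ⟨b, hb, hbx⟩ := ih q hq hx (by omega)
      exact ⟨b, by rw [eval_mul, hb, mul_zero], hbx⟩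

/-- Over an aic local ring, a point of an etale algebra above the closed point lifts to a
section. -/
theorem Aic.section_of_etale (hA : Aic A) {K S : Type*} [Field K] [Algebra A K] [CommRing S]
    [Algebra A S] [Algebra.Etale A S] (hK : ∀ a, algebraMap A K a ≠ 0 → IsUnit a)
    (φ : S →ₐ[A] K) : ∃ s : S →ₐ[A] A, ∀ x, algebraMap A K (s x) = φ x := by
  have : (RingHom.ker φ).IsPrime := RingHom.ker_isPrime φ
  obtain ⟨f, hf, hS⟩ := Algebra.IsEtaleAt.exists_isStandardEtale (R := A) (RingHom.ker φ)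
  obtain ⟨P⟩ := hS.nonempty_standardEtalePresentation
  have hu : IsUnit (φ f) := isUnit_iff_ne_zero.2 hf
  let φ' : Localization.Away f →ₐ[A] K := IsLocalization.Away.liftAlgHom f hu
  have h1 := P.hasMap.map φ'
  obtain ⟨a, ha, hax⟩ := hA.root_lift (φ' P.x) P.f P.monic_f h1.1
  have h2 : P.P.HasMap a := by
    refine ⟨by simpa using ha, hK _ ?_⟩
    have := h1.2.ne_zero
    rwa [← hax, aeval_algebraMap_apply] at this
  let s' : Localization.Away f →ₐ[A] A := (P.P.lift a h2).comp P.equivRing.toAlgHom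
  have h3 : (Algebra.ofId A K).comp s' = φ' := P.hom_ext (by simpa [s'] using hax)
  refine ⟨s'.comp (IsScalarTower.toAlgHom A S _), fun x => ?_⟩
  have h4 : algebraMap A K (s' (algebraMap S _ x)) = φ' (algebraMap S _ x) := congr($h3 _)
  exact h4.trans (IsLocalization.Away.lift_eq f hu x)

/-- Hensel's lemma for square systems over an aic local ring. -/
theorem Aic.hensel_square (hA : Aic A) {K σ : Type*} [Field K] [Algebra A K] [Fintype σ]
    [DecidableEq σ] (hK : ∀ a, algebraMap A K a ≠ 0 → IsUnit a) (F : σ → MvPolynomial σ A)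
    (x : σ → K) (h0 : ∀ i, MvPolynomial.aeval x (F i) = 0)
    (hJ : (Matrix.of fun i j => MvPolynomial.aeval x (MvPolynomial.pderiv i (F j))).det ≠ 0) :
    ∃ z : σ → A, (∀ i, algebraMap A K (z i) = x i) ∧ ∀ i, MvPolynomial.eval z (F i) = 0 := by
  let S0 := MvPolynomial σ A ⧸ Ideal.span (Set.range F)
  let P : Algebra.PreSubmersivePresentation A S0 σ σ :=
    Algebra.PreSubmersivePresentation.naive (v := F) id Function.injective_id
  let S := Localization.Away P.jacobian
  let Q : Algebra.SubmersivePresentation A S (Unit ⊕ σ) (Unit ⊕ σ) :=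
    { toPreSubmersivePresentation :=
        (Algebra.PreSubmersivePresentation.localizationAway S P.jacobian).comp P
      jacobian_isUnit := by
        rw [Algebra.PreSubmersivePresentation.comp_jacobian_eq_jacobian_smul_jacobian,
          Algebra.PreSubmersivePresentation.localizationAway_jacobian, Algebra.smul_def]
        exact (IsLocalization.Away.algebraMap_isUnit _).mul
          (IsLocalization.Away.algebraMap_isUnit _) }
  have : Algebra.IsStandardSmoothOfRelativeDimension 0 A S :=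
    Q.isStandardSmoothOfRelativeDimension (Nat.sub_self _)
  have : Algebra.Etale A S := Algebra.Etale.iff_isStandardSmoothOfRelativeDimension_zero.2 this
  let φ0 : S0 →ₐ[A] K := Ideal.Quotient.liftₐ _ (MvPolynomial.aeval x) (by
    intro a ha
    refine (Ideal.span_le (I := RingHom.ker (MvPolynomial.aeval x)).2 ?_) ha
    rintro _ ⟨i, rfl⟩
    exact h0 i)
  have hu : IsUnit (φ0 P.jacobian) := by
    rw [isUnit_iff_ne_zero, P.jacobian_eq_jacobiMatrix_det]
    have : φ0 (algebraMap P.Ring S0 P.jacobiMatrix.det) =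
        MvPolynomial.aeval x P.jacobiMatrix.det := by
      have e : ∀ p : MvPolynomial σ A, algebraMap P.Ring S0 p = Ideal.Quotient.mk _ p := by
        intro p
        rw [Algebra.Generators.algebraMap_apply]
        induction p using MvPolynomial.induction_on with
        | C a => rw [MvPolynomial.aeval_C]; rfl
        | add p q hp hq => rw [map_add, map_add, hp, hq]
        | mul_X p i hp => rw [map_mul, map_mul, hp, MvPolynomial.aeval_X]; rfl
      rw [e]; rfl
    rw [this, AlgHom.map_det]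
    convert hJ
    ext i j
    exact congrArg (MvPolynomial.aeval x) (P.jacobiMatrix_apply i j)
  obtain ⟨s, hs⟩ := hA.section_of_etale hK (IsLocalization.Away.liftAlgHom (S := S) P.jacobian hu)
  let ψ : MvPolynomial σ A →ₐ[A] A :=
    (s.comp (IsScalarTower.toAlgHom A S0 S)).comp (Ideal.Quotient.mkₐ A _)
  refine ⟨fun i => ψ (MvPolynomial.X i), fun i => ?_, fun i => ?_⟩
  · refine (hs _).trans ((IsLocalization.Away.lift_eq P.jacobian hu _).trans ?_)
    exact MvPolynomial.aeval_X _ _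
  · have h1 : MvPolynomial.aeval (fun i => ψ (MvPolynomial.X i)) = ψ :=
      MvPolynomial.algHom_ext fun i => MvPolynomial.aeval_X _ _
    rw [← MvPolynomial.coe_aeval_eq_eval]
    change MvPolynomial.aeval (fun i => ψ (MvPolynomial.X i)) (F i) = 0
    rw [h1]
    change s (algebraMap S0 S (Ideal.Quotient.mk _ (F i))) = 0
    rw [Ideal.Quotient.eq_zero_iff_mem.2 (Ideal.subset_span (Set.mem_range_self i)), map_zero,
      map_zero]

end Pool.Agent.MP_855f4c_ag.AicSec

end

section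

namespace Pool.Agent.MP_855f4c_ag.AicH1

open IsLocalRing AicSec Filter

variable {A Ω : Type*} [CommRing A] [CommRing Ω] [Algebra A Ω]

lemma exists_sum_of_mem_smul {σ : Type*} [Fintype σ] (I : Ideal A) (g : σ → Ω) {x : Ω}
    (hx : x ∈ I • Submodule.span A (Set.range g)) :
    ∃ v : σ → A, (∀ s, v s ∈ I) ∧ ∑ s, v s • g s = x := by
  obtain ⟨a, ha, h⟩ := (Submodule.mem_ideal_smul_span_iff_exists_sum I g x).1 hx
  exact ⟨a, ha, by rw [← h, Finsupp.sum_fintype]; simp⟩

open MvPolynomial in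
/-- Hensel's lemma for one equation with coefficients in a finitely generated module. -/
theorem hensel_module [IsLocalRing A] (hA : Aic A) {σ : Type*} [Fintype σ] (g : σ → Ω)
    (Φ : MvPolynomial σ Ω) (hΦ : Φ ∈ coeffsIn σ (Submodule.span A (Set.range g)))
    (h0 : constantCoeff Φ ∈ maximalIdeal A • Submodule.span A (Set.range g))
    (h1 : ∀ s, ∃ u : A, IsUnit u ∧ constantCoeff (pderiv s Φ) - u • g s ∈
      maximalIdeal A • Submodule.span A (Set.range g)) :
    ∃ z : σ → A, (∀ s, z s ∈ maximalIdeal A) ∧ eval (fun s => algebraMap A Ω (z s)) Φ = 0 := by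
  classical
  choose u hu h1 using h1
  have hv : ∀ d : σ →₀ ℕ, ∃ v : σ → A, ∑ s, v s • g s = coeff d Φ ∧
      (d = 0 → ∀ s, v s ∈ maximalIdeal A) ∧
      ∀ i, d = Finsupp.single i 1 → ∀ s, v s - (if i = s then u i else 0) ∈ maximalIdeal A := by
    intro d
    by_cases hd : d = 0
    · obtain ⟨v, hv, e⟩ := exists_sum_of_mem_smul _ g h0
      refine ⟨v, by rw [e, hd]; rfl, fun _ => hv, fun i hi => ?_⟩
      rw [hd, eq_comm, Finsupp.single_eq_zero] at hi
      exact absurd hi one_ne_zero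
    by_cases hd' : ∃ i, d = Finsupp.single i 1
    · obtain ⟨i, rfl⟩ := hd'
      obtain ⟨v, hv, e⟩ := exists_sum_of_mem_smul _ g (h1 i)
      refine ⟨fun s => v s + if i = s then u i else 0, ?_, fun h => absurd h hd, fun j hj s => ?_⟩
      · simp only [add_smul, Finset.sum_add_distrib, e, ite_smul, zero_smul, Finset.sum_ite_eq,
          Finset.mem_univ, if_true, sub_add_cancel]
        rw [constantCoeff_eq, coeff_pderiv]
        simp
      · obtain rfl := Finsupp.single_left_injective one_ne_zero hj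
        simpa using hv s
    · obtain ⟨v, e⟩ := (Submodule.mem_span_range_iff_exists_fun A).1 (hΦ d)
      exact ⟨v, e, fun h => absurd h hd, fun i hi => absurd ⟨i, hi⟩ hd'⟩
  choose v hv hv0 hv1 using hv
  let D : Finset (σ →₀ ℕ) :=
    insert 0 (Φ.support ∪ Finset.univ.image fun i : σ => Finsupp.single i 1)
  let F : σ → MvPolynomial σ A := fun s => ∑ d ∈ D, monomial d (v d s)
  have hF : ∀ s d, d ∈ D → coeff d (F s) = v d s := fun s d hd => by
    simp [F, coeff_sum, coeff_monomial, hd]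
  obtain ⟨z, hz, hz0⟩ := hA.hensel_square (K := ResidueField A)
    (fun a ha => by
      by_contra h
      exact ha ((residue_eq_zero_iff a).2 h)) F 0
    (fun i => by
      rw [aeval_zero, constantCoeff_eq, hF _ _ (Finset.mem_insert_self _ _)]
      exact (residue_eq_zero_iff _).2 (hv0 0 rfl i))
    (by
      have : (Matrix.of fun i j => aeval (0 : σ → ResidueField A) (pderiv i (F j))) =
          Matrix.diagonal fun i => residue A (u i) := by
        ext i j
        rw [Matrix.of_apply, aeval_zero, constantCoeff_eq, coeff_pderiv, zero_add,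
          hF _ _ (by simp [D]), Matrix.diagonal_apply]
        have := (residue_eq_zero_iff _).2 (hv1 _ i rfl j)
        rw [map_sub, sub_eq_zero, apply_ite (residue A), map_zero] at this
        simpa using this
      rw [this, Matrix.det_diagonal, Finset.prod_ne_zero_iff]
      exact fun i _ => ((hu i).map (residue A)).ne_zero)
  refine ⟨z, fun s => (residue_eq_zero_iff _).1 (hz s), ?_⟩
  have e : Φ = ∑ d ∈ D, monomial d (coeff d Φ) := by
    conv_lhs => rw [Φ.as_sum]
    refine Finset.sum_subset (fun d hd => by simp [D, hd]) fun d _ hd => ?_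
    rw [notMem_support_iff.1 hd, monomial_zero]
  have e2 : ∑ s, eval z (F s) • g s = 0 := by simp [hz0]
  rw [e, ← e2]
  simp only [F, map_sum, eval_monomial, Finset.sum_smul]
  rw [Finset.sum_comm]
  refine Finset.sum_congr rfl fun d _ => ?_
  rw [← hv, Finset.sum_mul]
  refine Finset.sum_congr rfl fun s _ => ?_
  rw [mul_comm (v d s), mul_smul, mul_comm, Algebra.smul_def (d.prod _), map_finsuppProd]
  simp only [map_pow]

open MvPolynomial in
/-- The square system `(T + φ) (1 + α) = (x + σ) ^ n`. -/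
theorem solve [IsLocalRing A] (hA : Aic A) {σ : Type*} [Fintype σ] (g p q w : σ → Ω) (T x : Ω)
    (n : ℕ) (W : Submodule A Ω) (hx : x ∈ W) (hw : ∀ s, w s ∈ W)
    (hW : W ^ n ≤ Submodule.span A (Set.range g)) (hT : T ∈ Submodule.span A (Set.range g))
    (hp : ∀ s, p s ∈ Submodule.span A (Set.range g))
    (hq : ∀ s, T * q s ∈ Submodule.span A (Set.range g))
    (hpq : ∀ s s', p s * q s' ∈ Submodule.span A (Set.range g))
    (h0 : T - x ^ n ∈ maximalIdeal A • Submodule.span A (Set.range g))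
    (h1 : ∀ s, ∃ u : A, IsUnit u ∧ p s + T * q s - n * x ^ (n - 1) * w s - u • g s ∈
      maximalIdeal A • Submodule.span A (Set.range g)) :
    ∃ z : σ → A, (∀ s, z s ∈ maximalIdeal A) ∧
      (T + ∑ s, z s • p s) * (1 + ∑ s, z s • q s) = (x + ∑ s, z s • w s) ^ n := by
  classical
  suffices H : ∃ z : σ → A, (∀ s, z s ∈ maximalIdeal A) ∧ eval (fun s => algebraMap A Ω (z s))
      ((C T + ∑ s, C (p s) * X s) * (1 + ∑ s, C (q s) * X s) -
        (C x + ∑ s, C (w s) * X s) ^ n) = 0 by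
    obtain ⟨z, hz, h⟩ := H
    refine ⟨z, hz, ?_⟩
    simp only [map_sub, map_mul, map_add, map_sum, map_pow, eval_C, eval_X, map_one,
      sub_eq_zero] at h
    simpa only [Algebra.smul_def, mul_comm (algebraMap A Ω _)] using h
  refine hensel_module hA g _ ?_ (by simpa using h0) (fun s => ?_)
  · refine sub_mem ?_ ?_
    · rw [add_mul, mul_add, mul_add, mul_one, mul_one, Finset.mul_sum, Finset.sum_mul_sum]
      refine add_mem (add_mem (C_mem_coeffsIn.2 hT) (sum_mem fun s _ => ?_))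
        (add_mem (sum_mem fun s _ => ?_) (sum_mem fun s _ => sum_mem fun s' _ => ?_))
      · rw [← mul_assoc, ← map_mul, mul_X_mem_coeffsIn, C_mem_coeffsIn]; exact hq s
      · rw [mul_X_mem_coeffsIn, C_mem_coeffsIn]; exact hp s
      · rw [mul_mul_mul_comm, ← map_mul, ← mul_assoc, mul_X_mem_coeffsIn, mul_X_mem_coeffsIn,
          C_mem_coeffsIn]
        exact hpq s s'
    · intro d
      refine hW (le_coeffsIn_pow (Submodule.pow_mem_pow (coeffsIn σ W) ?_ n) d)
      refine add_mem (C_mem_coeffsIn.2 hx) (sum_mem fun s _ => ?_)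
      rw [mul_X_mem_coeffsIn, C_mem_coeffsIn]; exact hw s
  · obtain ⟨u, hu, h⟩ := h1 s
    refine ⟨u, hu, ?_⟩
    convert h using 2
    simp [Derivation.leibniz_pow, pderiv_X, Pi.single_apply, apply_ite, mul_assoc]
    ring

/-- The filtration by degree in `t`. -/
def G (A : Type*) [CommRing A] [Algebra A Ω] {ι : Type*} (t : Ω) (b : ι → Ω) (e : ℕ) :
    Submodule A Ω :=
  Submodule.span A (Set.range fun s : Fin (e + 1) × ι => t ^ (s.1 : ℕ) * b s.2)

variable {ι : Type*} {t : Ω} {b : ι → Ω}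

lemma mem_G {j e : ℕ} (h : j ≤ e) (i : ι) : t ^ j * b i ∈ G A t b e :=
  Submodule.subset_span ⟨(⟨j, Nat.lt_succ_of_le h⟩, i), rfl⟩

lemma shift_G {k e e' : ℕ} (h : k + e ≤ e') {x : Ω} (hx : x ∈ G A t b e) :
    t ^ k * x ∈ G A t b e' := by
  induction hx using Submodule.span_induction with
  | mem x hx =>
    obtain ⟨⟨j, i⟩, rfl⟩ := hx
    rw [← mul_assoc, ← pow_add]
    exact mem_G (by have := j.2; omega) i
  | zero => simp
  | add x y _ _ hx hy => rw [mul_add]; exact add_mem hx hy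
  | smul a x _ hx => rw [mul_smul_comm]; exact Submodule.smul_mem _ a hx

lemma G_mono {e e' : ℕ} (h : e ≤ e') : G A t b e ≤ G A t b e' := fun x hx => by
  simpa using shift_G (k := 0) (by simpa using h) hx

/-- A finite set of elements integral over `A[t]` lies in a ring exhausted by the `G e`. -/
lemma exists_gen (t : Ω) (S : Set Ω) (hS : S.Finite)
    (hi : ∀ x ∈ S, IsIntegral (Algebra.adjoin A {t}) x) :
    ∃ (r : ℕ) (b : Fin r → Ω), (∀ i, b i ∈ Algebra.adjoin A (insert t S)) ∧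
      ∀ x ∈ Algebra.adjoin A (insert t S), ∀ᶠ e in atTop, x ∈ G A t b e := by
  have h1 := fg_adjoin_of_finite hS hi
  obtain ⟨r, b, hb⟩ := Submodule.fg_iff_exists_fin_generating_family.1 h1
  have h2 : ∀ x, x ∈ Algebra.adjoin A (insert t S) ↔
      x ∈ Algebra.adjoin (Algebra.adjoin A {t}) S := fun x => by
    rw [Set.insert_eq, Algebra.adjoin_union_eq_adjoin_adjoin]; rfl
  refine ⟨r, b, fun i => (h2 _).2 ?_, fun x hx => ?_⟩
  · exact hb.le (Submodule.subset_span ⟨i, rfl⟩)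
  · have hx' : x ∈ Submodule.span (Algebra.adjoin A {t}) (Set.range b) := by
      rw [hb]; exact (h2 x).1 hx
    clear hx
    induction hx' using Submodule.span_induction with
    | mem x hx =>
      obtain ⟨i, rfl⟩ := hx
      exact .of_forall fun e => by simpa using mem_G (A := A) (t := t) (b := b) (Nat.zero_le e) i
    | zero => exact .of_forall fun e => zero_mem _
    | add x y _ _ hx hy => exact (hx.and hy).mono fun e h => add_mem h.1 h.2
    | smul a x _ hx =>
      obtain ⟨a, ha⟩ := a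
      obtain ⟨e, he⟩ := hx.exists
      rw [Algebra.adjoin_singleton_eq_range_aeval] at ha
      obtain ⟨p, rfl⟩ := ha
      refine (eventually_ge_atTop (p.natDegree + e)).mono fun e' he' => ?_
      change Polynomial.aeval (R := A) t p * x ∈ _
      rw [Polynomial.aeval_eq_sum_range, Finset.sum_mul]
      refine sum_mem fun j hj => ?_
      rw [smul_mul_assoc]
      exact Submodule.smul_mem _ _ (shift_G (by have := Finset.mem_range.1 hj; omega) he)

lemma ev_smul (I : Ideal A) (R : Submodule A Ω) (h : ∀ x ∈ R, ∀ᶠ e in atTop, x ∈ G A t b e)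
    {x : Ω} (hx : x ∈ I • R) : ∀ᶠ e in atTop, x ∈ I • G A t b e := by
  refine Submodule.smul_induction_on hx (fun a ha x hx => ?_) fun x y hx hy => ?_
  · exact (h x hx).mono fun e he => Submodule.smul_mem_smul ha he
  · exact (hx.and hy).mono fun e h => add_mem h.1 h.2

lemma ev_fg (W : Submodule A Ω) (hW : W.FG) (h : ∀ x ∈ W, ∀ᶠ e in atTop, x ∈ G A t b e) :
    ∀ᶠ e in atTop, W ≤ G A t b e := by
  obtain ⟨S, rfl⟩ := hW
  simp only [Submodule.span_le]
  exact (eventually_all_finset S).2 fun x hx => h x (Submodule.subset_span hx)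

lemma mul_mem_smul (I : Ideal A) (R : Subalgebra A Ω) {x y : Ω} (hx : x ∈ R)
    (hy : y ∈ I • R.toSubmodule) : x * y ∈ I • R.toSubmodule := by
  refine Submodule.smul_induction_on hy (fun a ha y hy => ?_) fun y z hy hz => ?_
  · rw [mul_smul_comm]; exact Submodule.smul_mem_smul ha (R.mul_mem hx hy)
  · rw [mul_add]; exact add_mem hy hz

/-- An element of `I • R` has finitely many witnesses. -/
lemma exists_finite_witness (I : Ideal A) (R : Submodule A Ω) {y : Ω} (hy : y ∈ I • R) :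
    ∃ S : Set Ω, S.Finite ∧ S ⊆ R ∧ y ∈ I • Submodule.span A S := by
  refine Submodule.smul_induction_on hy (fun a ha y hy => ?_) fun y z hy hz => ?_
  · exact ⟨{y}, Set.finite_singleton y, Set.singleton_subset_iff.2 hy,
      Submodule.smul_mem_smul ha (Submodule.mem_span_singleton_self y)⟩
  · obtain ⟨S, hS, h1, h2⟩ := hy
    obtain ⟨S', hS', h1', h2'⟩ := hz
    exact ⟨S ∪ S', hS.union hS', Set.union_subset h1 h1', add_mem
      (Submodule.smul_mono le_rfl (Submodule.span_mono Set.subset_union_left) h2)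
      (Submodule.smul_mono le_rfl (Submodule.span_mono Set.subset_union_right) h2')⟩

lemma clear (I : Ideal A) {B C : Subalgebra A Ω} (htB : t ∈ B) (hCB : ∀ x ∈ C, ∃ k, x * t ^ k ∈ B)
    {y : Ω} (hy : y ∈ I • C.toSubmodule) : ∃ l, y * t ^ l ∈ I • B.toSubmodule := by
  refine Submodule.smul_induction_on hy (fun a ha y hy => ?_) fun y z hy hz => ?_
  · obtain ⟨k, hk⟩ := hCB y hy
    exact ⟨k, by rw [smul_mul_assoc]; exact Submodule.smul_mem_smul ha hk⟩
  · obtain ⟨k, hk⟩ := hy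
    obtain ⟨l, hl⟩ := hz
    refine ⟨k + l, ?_⟩
    have : (y + z) * t ^ (k + l) = t ^ l * (y * t ^ k) + t ^ k * (z * t ^ l) := by ring
    rw [this]
    exact add_mem (mul_mem_smul I B (pow_mem htB l) hk) (mul_mem_smul I B (pow_mem htB k) hl)

lemma pow_sub_one_mem (I : Ideal A) (R : Subalgebra A Ω) {x : Ω} (hx : x ∈ R)
    (h : x - 1 ∈ I • R.toSubmodule) (k : ℕ) : x ^ k - 1 ∈ I • R.toSubmodule := by
  rw [← geom_sum_mul]
  exact mul_mem_smul I R (sum_mem fun i _ => pow_mem hx i) h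

lemma smul_le (I : Ideal A) (R : Subalgebra A Ω) {x : Ω} (h : x ∈ I • R.toSubmodule) : x ∈ R :=
  Submodule.smul_le_right h

lemma sum_mem_smul {σ : Type*} [Fintype σ] (I : Ideal A) (R : Submodule A Ω) {z : σ → A}
    (hz : ∀ s, z s ∈ I) {q : σ → Ω} (hq : ∀ s, q s ∈ R) : ∑ s, z s • q s ∈ I • R :=
  sum_mem fun s _ => Submodule.smul_mem_smul (hz s) (hq s)

/-- Core of H1: the solution of the square system. -/
lemma core [IsLocalRing A] (hA : Aic A) (n : ℕ) (hn : IsUnit ((n + 1 : ℕ) : A)) (t : Ω)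
    (B : Subalgebra A Ω) (htB : t ∈ B) (hint : ∀ x ∈ B, IsIntegral (Algebra.adjoin A {t}) x)
    (P : ℕ → Submodule A Ω) (hP : ∀ x ∈ B, ∀ᶠ a in atTop, ∀ j L, j + a ≤ L → t ^ j * x ∈ P L)
    (N0 : ℕ) (x0 : Ω) (hx0 : x0 ∈ B)
    (hy : x0 ^ (n + 1) - t ^ ((n + 1) * N0) ∈ maximalIdeal A • B.toSubmodule) :
    ∃ (D : ℕ) (φ α σ : Ω), φ ∈ maximalIdeal A • P ((n + 1) * (N0 + D)) ∧
      α ∈ maximalIdeal A • B.toSubmodule ∧ σ ∈ maximalIdeal A • B.toSubmodule ∧
      (t ^ ((n + 1) * (N0 + D)) + φ) * (1 + α) = (t ^ D * x0 + σ) ^ (n + 1) := by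
  classical
  obtain ⟨S, hS, hSB, hyS⟩ := exists_finite_witness _ _ hy
  obtain ⟨r, b, hb, hG⟩ := exists_gen t (insert x0 S) (hS.insert x0) (by
    rintro x (rfl | hx)
    · exact hint _ hx0
    · exact hint _ (hSB hx))
  set R := Algebra.adjoin A (insert t (insert x0 S)) with hR
  have hRB : R ≤ B := Algebra.adjoin_le (Set.insert_subset htB (Set.insert_subset hx0 hSB))
  have htR : t ∈ R := Algebra.subset_adjoin (Set.mem_insert _ _)
  have hxR : x0 ∈ R := Algebra.subset_adjoin (Set.mem_insert_of_mem _ (Set.mem_insert _ _))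
  have hyR : x0 ^ (n + 1) - t ^ ((n + 1) * N0) ∈ maximalIdeal A • R.toSubmodule :=
    Submodule.smul_mono le_rfl (Submodule.span_le.2 fun x hx => Algebra.subset_adjoin
      (Set.mem_insert_of_mem _ (Set.mem_insert_of_mem _ hx))) hyS
  obtain ⟨D, hc, ha⟩ := ((eventually_all.2 fun p : Fin r × Fin r =>
    hG _ (mul_mem (hb p.1) (hb p.2))).and (eventually_all.2 fun i => hP _ (hRB (hb i)))).exists
  let K := n * D + (n + 1) * N0
  have hK : (n + 1) * (N0 + D) = K + D := by simp only [K]; ring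
  let W : Submodule A Ω := Submodule.span A (insert (t ^ D * x0)
    (Set.range fun s : Fin D × Fin r => x0 * (t ^ (s.1 : ℕ) * b s.2)))
  have hWR : W ≤ R.toSubmodule := Submodule.span_le.2 (Set.insert_subset
    (R.mul_mem (pow_mem htR _) hxR) (by
      rintro _ ⟨s, rfl⟩; exact R.mul_mem hxR (R.mul_mem (pow_mem htR _) (hb _))))
  have hWn : W ^ (n + 1) ≤ R.toSubmodule := by
    refine (pow_le_pow_left' hWR _).trans fun x hx => ?_
    refine Submodule.pow_induction_on_left _ (C := fun x => x ∈ R) (fun a => algebraMap_mem _ a)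
      (fun x y => add_mem) (fun m hm x hx => mul_mem hm hx) hx
  obtain ⟨E, ⟨hE1, hE2⟩, hE3, hE4⟩ := (((hG _ (pow_mem htR (K + D))).and
    (ev_fg _ ((Submodule.fg_span ((Set.finite_range _).insert _)).pow (n + 1))
      fun x hx => hG x (hWn hx))).and
    ((ev_smul _ _ hG (mul_mem_smul _ R (pow_mem htR ((n + 1) * D)) hyR)).and
      (eventually_all.2 fun s : Fin D × Fin r => ev_smul _ _ hG
        (mul_mem_smul _ R (mul_mem (pow_mem htR (n * D + s.1)) (hb s.2)) hyR)))).exists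
  let p : Fin (E + 1) × Fin r → Ω := fun s => if (s.1 : ℕ) < K then t ^ (s.1 : ℕ) * b s.2 else 0
  let q : Fin (E + 1) × Fin r → Ω := fun s =>
    if K + D ≤ (s.1 : ℕ) then t ^ (s.1 - (K + D) : ℕ) * b s.2 else 0
  let w : Fin (E + 1) × Fin r → Ω := fun s =>
    if K ≤ (s.1 : ℕ) ∧ (s.1 : ℕ) < K + D then x0 * (t ^ (s.1 - K : ℕ) * b s.2) else 0
  obtain ⟨z, hz, h⟩ := solve hA (fun s : Fin (E + 1) × Fin r => t ^ (s.1 : ℕ) * b s.2) p q w
    (t ^ (K + D)) (t ^ D * x0) (n + 1) W (Submodule.subset_span (Set.mem_insert _ _))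
    (fun s => by
      simp only [w]
      split_ifs with h
      · exact Submodule.subset_span (Set.mem_insert_of_mem _ ⟨(⟨s.1 - K, by omega⟩, s.2), rfl⟩)
      · exact zero_mem _) hE2 hE1
    (fun s => by
      simp only [p]
      split_ifs with h
      · exact Submodule.subset_span ⟨s, rfl⟩
      · exact zero_mem _)
    (fun s => by
      simp only [q]
      split_ifs with h
      · rw [← mul_assoc, ← pow_add, Nat.add_sub_cancel' h]
        exact Submodule.subset_span ⟨s, rfl⟩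
      · simp)
    (fun s s' => by
      simp only [p, q]
      split_ifs with h h'
      · rw [mul_mul_mul_comm, ← pow_add]
        exact shift_G (by have := s'.1.2; omega) (hc (s.2, s'.2))
      all_goals simp)
    (by
      have : t ^ (K + D) - (t ^ D * x0) ^ (n + 1) =
          -(t ^ ((n + 1) * D) * (x0 ^ (n + 1) - t ^ ((n + 1) * N0))) := by
        rw [← hK]; ring
      rw [this]; exact neg_mem hE3)
    (fun s => by
      simp only [p, q, w]
      by_cases h1 : (s.1 : ℕ) < K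
      · refine ⟨1, isUnit_one, ?_⟩
        rw [if_pos h1, if_neg (by omega), if_neg (by omega)]
        simp
      by_cases h2 : K + D ≤ (s.1 : ℕ)
      · refine ⟨1, isUnit_one, ?_⟩
        rw [if_neg h1, if_pos h2, if_neg (by omega), ← mul_assoc, ← pow_add, Nat.add_sub_cancel' h2]
        simp
      · refine ⟨-((n + 1 : ℕ) : A), hn.neg, ?_⟩
        rw [if_neg h1, if_neg h2, if_pos (by omega)]
        obtain ⟨j, hj⟩ : ∃ j, (s.1 : ℕ) = K + j := ⟨s.1 - K, by omega⟩
        have h3 := Submodule.smul_mem _ (-((n + 1 : ℕ) : A)) (hE4 (⟨j, by omega⟩, s.2))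
        refine (congrArg (· ∈ maximalIdeal A • G A t b E) ?_).mp h3
        rw [hj, Nat.add_sub_cancel_left, Nat.add_sub_cancel, Algebra.smul_def, Algebra.smul_def,
          map_neg, map_natCast]
        simp only [K]
        ring)
  refine ⟨D, ∑ s, z s • p s, ∑ s, z s • q s, ∑ s, z s • w s, ?_, ?_, ?_, by rw [hK]; exact h⟩
  · refine sum_mem_smul _ _ hz fun s => ?_
    simp only [p]
    split_ifs with h
    · exact ha _ _ _ (by omega)
    · exact zero_mem _
  · refine sum_mem_smul _ _ hz fun s => ?_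
    simp only [q]
    split_ifs with h
    · exact B.mul_mem (pow_mem htB _) (hRB (hb _))
    · exact zero_mem _
  · refine sum_mem_smul _ _ hz fun s => ?_
    simp only [w]
    split_ifs with h
    · exact B.mul_mem hx0 (B.mul_mem (pow_mem htB _) (hRB (hb _)))
    · exact zero_mem _

/-- H1: `μ_n(B/m) × μ_n(B'/m) → μ_n(C/m)` is onto. -/
theorem h1 {A Ω : Type*} [CommRing A] [IsLocalRing A] [Field Ω] [Algebra A Ω] (hA : Aic A)
    (n : ℕ) (hn : IsUnit (n : A)) (hΩ : ∀ x : Ω, ∃ y, y ^ n = x) (t : Ω) (ht : t ≠ 0)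
    (B B' C : Subalgebra A Ω) (htB : t ∈ B) (htB' : t⁻¹ ∈ B') (hBC : B ≤ C) (hB'C : B' ≤ C)
    (hint : ∀ x ∈ B, IsIntegral (Algebra.adjoin A {t}) x)
    (hB : ∀ x, x ^ n ∈ B → x ∈ B) (hB' : ∀ x, x ^ n ∈ B' → x ∈ B')
    (hCB : ∀ x ∈ C, ∃ k, x * t ^ k ∈ B) (hCB' : ∀ x ∈ C, ∃ k, x * t⁻¹ ^ k ∈ B')
    (u : Ω) (huC : u ∈ C) (hu : u ^ n - 1 ∈ maximalIdeal A • C.toSubmodule) :
    ∃ c ∈ B, ∃ c' ∈ B', c ^ n - 1 ∈ maximalIdeal A • B.toSubmodule ∧
      c' ^ n - 1 ∈ maximalIdeal A • B'.toSubmodule ∧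
      c' - c * u ∈ maximalIdeal A • C.toSubmodule := by
  obtain _ | n := n
  · simp at hn
  obtain ⟨k, hk⟩ := hCB u huC
  obtain ⟨l, hl⟩ := clear _ htB hCB hu
  obtain ⟨D, φ, α, σ, hφ, hα, hσ, h⟩ := core hA n hn t B htB hint
    (fun L => B'.toSubmodule.comap (LinearMap.mulRight A (t⁻¹ ^ L)))
    (fun x hx => by
      obtain ⟨a, ha⟩ := hCB' x (hBC hx)
      refine (eventually_ge_atTop a).mono fun a' ha' j L hL => ?_
      obtain ⟨d, rfl⟩ : ∃ d, L = j + (a + d) := ⟨L - j - a, by omega⟩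
      change t ^ j * x * t⁻¹ ^ (j + (a + d)) ∈ B'
      have : t ^ j * x * t⁻¹ ^ (j + (a + d)) = x * t⁻¹ ^ a * t⁻¹ ^ d := by
        simp only [pow_add, inv_pow]; field_simp
      rw [this]; exact mul_mem ha (pow_mem htB' d))
    (k + l) (u * t ^ (k + l)) (by rw [pow_add, ← mul_assoc]; exact mul_mem hk (pow_mem htB l))
    (by
      have : (u * t ^ (k + l)) ^ (n + 1) - t ^ ((n + 1) * (k + l)) =
          t ^ ((n + 1) * k + n * l) * ((u ^ (n + 1) - 1) * t ^ l) := by ring
      rw [this]; exact mul_mem_smul _ B (pow_mem htB _) hl)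
  set N := k + l + D with hN
  have hφ' : φ * t⁻¹ ^ ((n + 1) * N) ∈ maximalIdeal A • B'.toSubmodule := by
    have := Submodule.mem_map_of_mem (f := LinearMap.mulRight A (t⁻¹ ^ ((n + 1) * N))) hφ
    rw [Submodule.map_smul''] at this
    exact Submodule.smul_mono le_rfl (Submodule.map_comap_le _ _) this
  have hmC : maximalIdeal A • B.toSubmodule ≤ maximalIdeal A • C.toSubmodule :=
    Submodule.smul_mono le_rfl hBC
  have hx : t ^ D * (u * t ^ (k + l)) = u * t ^ N := by rw [hN]; ring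
  rw [hx] at h
  have htN : t⁻¹ ^ N ∈ C := pow_mem (hB'C htB') N
  by_cases hx0 : u * t ^ N + σ = 0
  · have h1 : (1 : Ω) ∈ maximalIdeal A • C.toSubmodule := by
      have : (1 : Ω) = -(u ^ (n + 1) - 1) - (u ^ n * t⁻¹ ^ N) * σ := by
        rw [eq_neg_of_add_eq_zero_right hx0, inv_pow]; field_simp; ring
      rw [this]
      exact sub_mem (neg_mem hu) (mul_mem_smul _ C (mul_mem (pow_mem huC n) htN) (hmC hσ))
    refine ⟨1, one_mem _, 1, one_mem _, by simp, by simp, ?_⟩
    simpa using mul_mem_smul _ C (x := 1 - u) (sub_mem (one_mem _) huC) h1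
  obtain ⟨ρ, hρ⟩ := hΩ (t ^ ((n + 1) * N) + φ)
  have hαB : 1 + α ∈ B := add_mem (one_mem _) (smul_le _ _ hα)
  have e1 : (ρ * (1 + α) / (u * t ^ N + σ)) ^ (n + 1) = (1 + α) ^ n := by
    rw [div_pow, div_eq_iff (pow_ne_zero _ hx0), mul_pow, hρ, ← h]; ring
  have e2 : (ρ * t⁻¹ ^ N) ^ (n + 1) = 1 + φ * t⁻¹ ^ ((n + 1) * N) := by
    rw [mul_pow, hρ, ← pow_mul, mul_comm N, inv_pow]; field_simp
  have hc : ρ * (1 + α) / (u * t ^ N + σ) ∈ B := hB _ (e1 ▸ pow_mem hαB n)
  have hc' : ρ * t⁻¹ ^ N ∈ B' := hB' _ (e2 ▸ add_mem (one_mem _) (smul_le _ _ hφ'))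
  refine ⟨_, hc, _, hc', ?_, ?_, ?_⟩
  · rw [e1]; exact pow_sub_one_mem _ B hαB (by simpa using hα) n
  · rw [e2]; simpa using hφ'
  · have : ρ * t⁻¹ ^ N - ρ * (1 + α) / (u * t ^ N + σ) * u =
        ρ * (1 + α) / (u * t ^ N + σ) * t⁻¹ ^ N * σ - ρ * t⁻¹ ^ N * α := by
      have i1 : t ^ N * t⁻¹ ^ N = 1 := by rw [← mul_pow, mul_inv_cancel₀ ht, one_pow]
      have i2 := div_mul_cancel₀ (ρ * (1 + α)) hx0
      linear_combination (ρ * (1 + α) / (u * t ^ N + σ) * u) * i1 - t⁻¹ ^ N * i2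
    rw [this]
    exact sub_mem (mul_mem_smul _ C (mul_mem (hBC hc) htN) (hmC hσ))
      (mul_mem_smul _ C (hB'C hc') (hmC hα))

end Pool.Agent.MP_855f4c_ag.AicH1

end

section

namespace Pool.Agent.MP_855f4c_ag.AicH0

open IsLocalRing AicH1 Filter

variable {A Ω : Type*} [CommRing A] [CommRing Ω] [Algebra A Ω]

lemma mul_mem_mul_smul (I J : Ideal A) (R : Subalgebra A Ω) {x y : Ω} (hx : x ∈ I • R.toSubmodule)
    (hy : y ∈ J • R.toSubmodule) : x * y ∈ (I * J) • R.toSubmodule := by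
  refine Submodule.smul_induction_on hx (fun a ha x hx => ?_) fun x z hx hz => ?_
  · rw [smul_mul_assoc, Submodule.mul_smul]
    exact Submodule.smul_mem_smul ha (mul_mem_smul J R hx hy)
  · rw [add_mul]; exact add_mem hx hz

lemma newton (I : Ideal A) (R : Subalgebra A Ω) {x : Ω} (hx : x ∈ R)
    (h : x ^ 2 - x ∈ I • R.toSubmodule) : 3 * x ^ 2 - 2 * x ^ 3 ∈ R ∧
      3 * x ^ 2 - 2 * x ^ 3 - x ∈ I • R.toSubmodule ∧
      (3 * x ^ 2 - 2 * x ^ 3) ^ 2 - (3 * x ^ 2 - 2 * x ^ 3) ∈ I • R.toSubmodule := by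
  refine ⟨sub_mem (mul_mem (ofNat_mem R 3) (pow_mem hx 2)) (mul_mem (ofNat_mem R 2) (pow_mem hx 3)),
    ?_, ?_⟩
  · rw [show 3 * x ^ 2 - 2 * x ^ 3 - x = (1 - 2 * x) * (x ^ 2 - x) by ring]
    exact mul_mem_smul I R (sub_mem (one_mem _) (mul_mem (ofNat_mem R 2) hx)) h
  · rw [show (3 * x ^ 2 - 2 * x ^ 3) ^ 2 - (3 * x ^ 2 - 2 * x ^ 3) =
      ((4 * (x ^ 2 - x) - 3) * (x ^ 2 - x)) * (x ^ 2 - x) by ring]
    have := smul_le I R h
    exact mul_mem_smul I R (mul_mem (sub_mem (mul_mem (ofNat_mem R 4) this) (ofNat_mem R 3)) this) h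

/-- Noetherian form, by Artin-Rees. -/
lemma noeth [IsNoetherianRing A] (I : Ideal A) (B B' C : Subalgebra A Ω) (Γ : Submodule A Ω)
    (hΓ : Γ.FG) (hC : C.toSubmodule ≤ B.toSubmodule ⊔ B'.toSubmodule ⊔ Γ) {e e' : Ω}
    (he : e ∈ B) (he' : e' ∈ B') (heC : e ∈ C) (heC' : e' ∈ C)
    (h1 : e ^ 2 - e ∈ I • B.toSubmodule) (h1' : e' ^ 2 - e' ∈ I • B'.toSubmodule)
    (h2 : e ^ 2 - e ∈ I • C.toSubmodule) (h2' : e' ^ 2 - e' ∈ I • C.toSubmodule)
    (h3 : e - e' ∈ I • C.toSubmodule) : e - e' ∈ I • B.toSubmodule ⊔ I • B'.toSubmodule := by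
  have key : ∀ s : ℕ, ∃ x x' : Ω, (x ∈ B ∧ x - e ∈ I • B.toSubmodule ∧ x ^ 2 - x ∈ I • B.toSubmodule) ∧
      (x' ∈ B' ∧ x' - e' ∈ I • B'.toSubmodule ∧ x' ^ 2 - x' ∈ I • B'.toSubmodule) ∧
      (x ∈ C ∧ x ^ 2 - x ∈ I • C.toSubmodule) ∧ (x' ∈ C ∧ x' ^ 2 - x' ∈ I • C.toSubmodule) ∧
      x - x' ∈ I ^ (s + 1) • C.toSubmodule := by
    intro s
    induction s with
    | zero => exact ⟨e, e', ⟨he, by simp, h1⟩, ⟨he', by simp, h1'⟩, ⟨heC, h2⟩, ⟨heC', h2'⟩,
        by simpa using h3⟩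
    | succ s ih =>
      obtain ⟨x, x', ⟨a1, a2, a3⟩, ⟨b1, b2, b3⟩, ⟨c1, c2⟩, ⟨d1, d2⟩, h⟩ := ih
      obtain ⟨a4, a5, a6⟩ := newton I B a1 a3
      obtain ⟨b4, b5, b6⟩ := newton I B' b1 b3
      obtain ⟨c4, -, c6⟩ := newton I C c1 c2
      obtain ⟨d4, -, d6⟩ := newton I C d1 d2
      refine ⟨_, _, ⟨a4, by simpa using add_mem a5 a2, a6⟩, ⟨b4, by simpa using add_mem b5 b2, b6⟩,
        ⟨c4, c6⟩, ⟨d4, d6⟩, ?_⟩
      rw [show 3 * x ^ 2 - 2 * x ^ 3 - (3 * x' ^ 2 - 2 * x' ^ 3) =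
        (x - x') * ((x - x') * (x - x') - 3 * (x ^ 2 - x) - 3 * (x' ^ 2 - x')) by ring, pow_succ]
      refine mul_mem_mul_smul _ _ C h (sub_mem (sub_mem (mul_mem_smul I C (sub_mem c1 d1) ?_)
        (mul_mem_smul I C (ofNat_mem C 3) c2)) (mul_mem_smul I C (ofNat_mem C 3) d2))
      exact Submodule.smul_mono_left (Ideal.pow_le_self s.succ_ne_zero) h
  have : Module.Finite A Γ := Module.Finite.iff_fg.2 hΓ
  obtain ⟨k, hk⟩ := I.exists_pow_inf_eq_pow_smul
    ((B.toSubmodule ⊔ B'.toSubmodule).comap Γ.subtype)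
  obtain ⟨x, x', ⟨a1, a2, -⟩, ⟨b1, b2, -⟩, -, -, h⟩ := key k
  have h4 := Submodule.smul_mono le_rfl hC h
  rw [Submodule.smul_sup, Submodule.smul_sup] at h4
  obtain ⟨β, hβ, γ, hγ, e1⟩ := Submodule.mem_sup.1 h4
  have hI : I ^ (k + 1) ≤ I := Ideal.pow_le_self k.succ_ne_zero
  have hβ' : β ∈ I • B.toSubmodule ⊔ I • B'.toSubmodule :=
    (sup_le_sup (Submodule.smul_mono_left hI) (Submodule.smul_mono_left hI) :
      I ^ (k + 1) • B.toSubmodule ⊔ I ^ (k + 1) • B'.toSubmodule ≤ _) hβ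
  have h5 : (⟨γ, Submodule.smul_le_right hγ⟩ : Γ) ∈ I ^ (k + 1) • ⊤ ⊓
      (B.toSubmodule ⊔ B'.toSubmodule).comap Γ.subtype := by
    refine ⟨(Submodule.mem_smul_top_iff _ _ _).2 hγ, ?_⟩
    change γ ∈ B.toSubmodule ⊔ B'.toSubmodule
    rw [eq_sub_of_add_eq' e1]
    exact sub_mem (sub_mem (Submodule.mem_sup_left a1) (Submodule.mem_sup_right b1))
      ((sup_le_sup Submodule.smul_le_right Submodule.smul_le_right :
        I • B.toSubmodule ⊔ I • B'.toSubmodule ≤ _) hβ')
  rw [hk (k + 1) k.le_succ, Nat.add_sub_cancel_left, pow_one] at h5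
  have h6 := Submodule.mem_map_of_mem (f := Γ.subtype) (Submodule.smul_mono le_rfl inf_le_right h5)
  rw [Submodule.map_smul''] at h6
  have h7 : γ ∈ I • (B.toSubmodule ⊔ B'.toSubmodule) :=
    Submodule.smul_mono le_rfl (Submodule.map_comap_le _ _) h6
  rw [Submodule.smul_sup] at h7
  rw [show e - e' = β + γ - (x - e) + (x' - e') by rw [e1]; ring]
  exact add_mem (sub_mem (add_mem hβ' h7) (Submodule.mem_sup_left a2)) (Submodule.mem_sup_right b2)

lemma descend_smul (I : Ideal A) (R : Submodule A Ω) {y : Ω} (hy : y ∈ I • R) :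
    ∃ (T : Set A) (S : Set Ω), T.Finite ∧ S.Finite ∧ S ⊆ R ∧ ∀ A1 : Subring A, T ⊆ A1 →
      ∀ R1 : Submodule A1 Ω, S ⊆ R1 → y ∈ I.comap A1.subtype • R1 := by
  refine Submodule.smul_induction_on hy (fun a ha y hy => ?_) fun y z hy hz => ?_
  · exact ⟨{a}, {y}, Set.finite_singleton a, Set.finite_singleton y, Set.singleton_subset_iff.2 hy,
      fun A1 h1 R1 h2 => Submodule.smul_mem_smul (r := (⟨a, h1 rfl⟩ : A1)) ha (h2 rfl)⟩
  · obtain ⟨T, S, hT, hS, h1, h2⟩ := hy
    obtain ⟨T', S', hT', hS', h1', h2'⟩ := hz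
    exact ⟨T ∪ T', S ∪ S', hT.union hT', hS.union hS', Set.union_subset h1 h1',
      fun A1 hA R1 hR => add_mem
        (h2 A1 (Set.subset_union_left.trans hA) R1 (Set.subset_union_left.trans hR))
        (h2' A1 (Set.subset_union_right.trans hA) R1 (Set.subset_union_right.trans hR))⟩

lemma descend_int (t : Ω) {x : Ω} (hx : IsIntegral (Algebra.adjoin A {t}) x) :
    ∃ T : Set A, T.Finite ∧ ∀ A1 : Subring A, T ⊆ A1 → IsIntegral (Algebra.adjoin A1 {t}) x := by
  have key : ∀ c : Algebra.adjoin A {t}, ∃ T : Set A, T.Finite ∧ ∀ A1 : Subring A, T ⊆ A1 →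
      (c : Ω) ∈ Algebra.adjoin A1 {t} := by
    rintro ⟨c, hc⟩
    rw [Algebra.adjoin_singleton_eq_range_aeval] at hc
    obtain ⟨q, rfl⟩ := hc
    refine ⟨q.coeffs, q.coeffs.finite_toSet, fun A1 h => ?_⟩
    change Polynomial.aeval (R := A) t q ∈ _
    rw [Polynomial.aeval_def, Polynomial.eval₂_eq_sum, Polynomial.sum_def]
    refine sum_mem fun i hi => mul_mem ?_ (pow_mem (Algebra.self_mem_adjoin_singleton _ _) _)
    exact algebraMap_mem _ (⟨q.coeff i, h (Polynomial.coeff_mem_coeffs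
      (Polynomial.mem_support_iff.1 hi))⟩ : A1)
  choose T hT h using key
  obtain ⟨p, hp, hpx⟩ := hx
  refine ⟨⋃ i ∈ p.support, T (p.coeff i), p.support.finite_toSet.biUnion fun i _ => hT _,
    fun A1 hA => ?_⟩
  have h1 : p.map (algebraMap _ Ω) ∈ Polynomial.lifts (algebraMap (Algebra.adjoin A1 {t}) Ω) := by
    rw [Polynomial.lifts_iff_coeff_lifts]
    intro i
    rw [Polynomial.coeff_map]
    by_cases hi : i ∈ p.support
    · exact ⟨⟨_, h _ A1 ((Set.subset_biUnion_of_mem (u := fun i => T (p.coeff i)) hi).trans hA)⟩, rfl⟩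
    · rw [Polynomial.notMem_support_iff.1 hi, map_zero]; exact ⟨0, map_zero _⟩
  obtain ⟨q, hq, -, hq'⟩ := Polynomial.lifts_and_natDegree_eq_and_monic h1 (hp.map _)
  exact ⟨q, hq', by rw [Polynomial.eval₂_eq_eval_map, hq, ← Polynomial.eval₂_eq_eval_map, hpx]⟩

/-- Elements that some power of `t` moves into `R`. -/
def away (R : Subalgebra A Ω) (t : Ω) (ht : t ∈ R) : Subalgebra A Ω where
  carrier := {x | ∃ k, x * t ^ k ∈ R}
  mul_mem' := by
    rintro x y ⟨k, hk⟩ ⟨l, hl⟩
    exact ⟨k + l, by rw [pow_add, mul_mul_mul_comm]; exact mul_mem hk hl⟩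
  add_mem' := by
    rintro x y ⟨k, hk⟩ ⟨l, hl⟩
    refine ⟨k + l, ?_⟩
    rw [show (x + y) * t ^ (k + l) = x * t ^ k * t ^ l + y * t ^ l * t ^ k by ring]
    exact add_mem (mul_mem hk (pow_mem ht l)) (mul_mem hl (pow_mem ht k))
  algebraMap_mem' a := ⟨0, by simp⟩

lemma smul_ascend (I : Ideal A) (A1 : Subring A) (R : Subalgebra A Ω) {y : Ω}
    (hy : y ∈ I.comap A1.subtype • (R.restrictScalars A1).toSubmodule) : y ∈ I • R.toSubmodule :=
  Submodule.smul_induction_on hy (fun a ha _ hy => Submodule.smul_mem_smul (r := (a : A)) ha hy)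
    fun _ _ => add_mem

/-- Compatible idempotents modulo `I` lift to a common element. -/
theorem lift_idem {A Ω : Type*} [CommRing A] [Field Ω] [Algebra A Ω] (I : Ideal A) (t : Ω)
    (ht : t ≠ 0) (B B' C : Subalgebra A Ω) (htB : t ∈ B) (htB' : t⁻¹ ∈ B') (hBC : B ≤ C)
    (hB'C : B' ≤ C) (hint : ∀ x ∈ B, IsIntegral (Algebra.adjoin A {t}) x)
    (hCB : ∀ x ∈ C, ∃ k, x * t ^ k ∈ B) (hCB' : ∀ x ∈ C, ∃ k, x * t⁻¹ ^ k ∈ B')
    {e e' : Ω} (he : e ∈ B) (he' : e' ∈ B') (h1 : e ^ 2 - e ∈ I • B.toSubmodule)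
    (h1' : e' ^ 2 - e' ∈ I • B'.toSubmodule) (h3 : e - e' ∈ I • C.toSubmodule) :
    e - e' ∈ I • B.toSubmodule ⊔ I • B'.toSubmodule := by
  classical
  obtain ⟨T1, S1, hT1, hS1, a1, b1⟩ := descend_smul I _ h1
  obtain ⟨T2, S2, hT2, hS2, a2, b2⟩ := descend_smul I _ h1'
  obtain ⟨T3, S3, hT3, hS3, a3, b3⟩ := descend_smul I _ h3
  let W : Set Ω := insert e (insert e' (S1 ∪ S2 ∪ S3))
  have hW : W.Finite := (((hS1.union hS2).union hS3).insert _).insert _
  have hWC : W ⊆ C := Set.insert_subset (hBC he) (Set.insert_subset (hB'C he')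
    (Set.union_subset (Set.union_subset (a1.trans hBC) (a2.trans hB'C)) a3))
  choose! k hk using hCB
  choose! T hT hTi using fun x (hx : x ∈ C) => descend_int t (hint _ (hk x hx))
  let T0 : Set A := T1 ∪ T2 ∪ T3 ∪ ⋃ x ∈ W, T x
  have hT0 : T0.Finite := ((hT1.union hT2).union hT3).union (hW.biUnion fun x hx => hT x (hWC hx))
  let A1 : Subring A := Subring.closure T0
  have : IsNoetherianRing A1 := is_noetherian_subring_closure _ hT0
  have hA1 : T0 ⊆ A1 := Subring.subset_closure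
  obtain ⟨r, b, hb, hG⟩ := exists_gen (A := A1) t ((fun x => x * t ^ k x) '' W) (hW.image _) (by
    rintro _ ⟨x, hx, rfl⟩
    exact hTi x (hWC hx) A1 (((Set.subset_biUnion_of_mem (u := T) hx).trans
      Set.subset_union_right).trans hA1))
  set R := Algebra.adjoin A1 (insert t ((fun x => x * t ^ k x) '' W)) with hR
  have htR : t ∈ R := Algebra.subset_adjoin (Set.mem_insert _ _)
  have hRB : R ≤ B.restrictScalars A1 := Algebra.adjoin_le (Set.insert_subset htB (by
    rintro _ ⟨x, hx, rfl⟩; exact hk x (hWC hx)))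
  have hWR : W ⊆ away R t htR := fun x hx =>
    ⟨k x, Algebra.subset_adjoin (Set.mem_insert_of_mem _ ⟨x, hx, rfl⟩)⟩
  choose a ha using fun i => hCB' _ (hBC (hRB (hb i)))
  let Γ : Submodule A1 Ω := Submodule.span A1
    (Set.range fun s : Σ i, Fin (a i) => b s.1 * t⁻¹ ^ (s.2 : ℕ))
  have hs : ∀ {X : Set Ω}, X ⊆ S1 ∪ S2 ∪ S3 → X ⊆ away R t htR := fun h =>
    ((h.trans (Set.subset_insert _ _)).trans (Set.subset_insert _ _)).trans hWR
  have t1 : T1 ⊆ A1 :=
    ((Set.subset_union_left.trans Set.subset_union_left).trans Set.subset_union_left).trans hA1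
  have t2 : T2 ⊆ A1 :=
    ((Set.subset_union_right.trans Set.subset_union_left).trans Set.subset_union_left).trans hA1
  have t3 : T3 ⊆ A1 := (Set.subset_union_right.trans Set.subset_union_left).trans hA1
  have key := noeth (I.comap A1.subtype) (B.restrictScalars A1) (B'.restrictScalars A1)
    (away R t htR) Γ (Submodule.fg_span (Set.finite_range _)) ?_ he he'
    (hWR (Set.mem_insert _ _)) (hWR (Set.mem_insert_of_mem _ (Set.mem_insert _ _)))
    (b1 A1 t1 _ a1) (b2 A1 t2 _ a2)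
    (b1 A1 t1 _ (hs (Set.subset_union_left.trans Set.subset_union_left)))
    (b2 A1 t2 _ (hs (Set.subset_union_right.trans Set.subset_union_left)))
    (b3 A1 t3 _ (hs Set.subset_union_right))
  · obtain ⟨β, hβ, β', hβ', e1⟩ := Submodule.mem_sup.1 key
    rw [← e1]
    exact add_mem (Submodule.mem_sup_left (smul_ascend I A1 B hβ))
      (Submodule.mem_sup_right (smul_ascend I A1 B' hβ'))
  · rintro x ⟨l, hl⟩
    obtain ⟨E, hE⟩ := (hG _ hl).exists
    have hx : x = x * t ^ l * t⁻¹ ^ l := by rw [inv_pow]; field_simp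
    rw [hx]
    generalize x * t ^ l = y at hE
    induction hE using Submodule.span_induction with
    | mem y hy =>
      obtain ⟨⟨⟨j, -⟩, i⟩, rfl⟩ := hy
      dsimp only
      rcases le_total l j with h | h
      · obtain ⟨d, rfl⟩ := Nat.exists_eq_add_of_le h
        rw [show t ^ (l + d) * b i * t⁻¹ ^ l = t ^ d * b i by rw [inv_pow, pow_add]; field_simp]
        exact Submodule.mem_sup_left (Submodule.mem_sup_left (B.mul_mem (pow_mem htB d) (hRB (hb i))))
      · obtain ⟨d, rfl⟩ := Nat.exists_eq_add_of_le h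
        rw [show t ^ j * b i * t⁻¹ ^ (j + d) = b i * t⁻¹ ^ d by
          rw [inv_pow, inv_pow, pow_add]; field_simp]
        rcases lt_or_ge d (a i) with h' | h'
        · exact Submodule.mem_sup_right (Submodule.subset_span ⟨⟨i, ⟨d, h'⟩⟩, rfl⟩)
        · obtain ⟨d', rfl⟩ := Nat.exists_eq_add_of_le h'
          rw [pow_add, ← mul_assoc]
          exact Submodule.mem_sup_left (Submodule.mem_sup_right (B'.mul_mem (ha i) (pow_mem htB' d')))
    | zero => simp
    | add y z _ _ hy hz => rw [add_mul]; exact add_mem hy hz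
    | smul c y _ hy => rw [smul_mul_assoc]; exact Submodule.smul_mem _ c hy

lemma idem_aux [IsLocalRing A] (R : Subalgebra A Ω) {e : Ω} {a : A} (he : e ∈ R)
    (h1 : e ^ 2 - e ∈ maximalIdeal A • R.toSubmodule)
    (h2 : e - algebraMap A Ω a ∈ maximalIdeal A • R.toSubmodule) :
    (a ∈ maximalIdeal A → e ∈ maximalIdeal A • R.toSubmodule) ∧
      (IsUnit a → e - 1 ∈ maximalIdeal A • R.toSubmodule) := by
  refine ⟨fun ha => ?_, fun ha => ?_⟩
  · have := add_mem h2 (Submodule.smul_mem_smul ha (R.one_mem))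
    rwa [← Algebra.algebraMap_eq_smul_one, sub_add_cancel] at this
  · obtain ⟨c, hc⟩ := ha.exists_left_inv
    have h3 := congrArg (algebraMap A Ω) hc
    rw [map_mul, map_one] at h3
    rw [show e - 1 = algebraMap A Ω c * (e ^ 2 - e - (e - 1) * (e - algebraMap A Ω a)) by
      linear_combination (1 - e) * h3]
    exact mul_mem_smul _ R (algebraMap_mem _ c)
      (sub_mem h1 (mul_mem_smul _ R (sub_mem he (one_mem _)) h2))

/-- H0: the special fibre is connected. -/
theorem h0 {A Ω : Type*} [CommRing A] [IsLocalRing A] [Field Ω] [Algebra A Ω] (t : Ω)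
    (ht : t ≠ 0) (B B' C : Subalgebra A Ω) (htB : t ∈ B) (htB' : t⁻¹ ∈ B') (hBC : B ≤ C)
    (hB'C : B' ≤ C) (hint : ∀ x ∈ B, IsIntegral (Algebra.adjoin A {t}) x)
    (hCB : ∀ x ∈ C, ∃ k, x * t ^ k ∈ B) (hCB' : ∀ x ∈ C, ∃ k, x * t⁻¹ ^ k ∈ B')
    (hBB' : ∀ x ∈ B, x ∈ B' → ∃ a, algebraMap A Ω a = x)
    {e e' : Ω} (he : e ∈ B) (he' : e' ∈ B') (h1 : e ^ 2 - e ∈ maximalIdeal A • B.toSubmodule)
    (h1' : e' ^ 2 - e' ∈ maximalIdeal A • B'.toSubmodule)
    (h3 : e - e' ∈ maximalIdeal A • C.toSubmodule) :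
    (e ∈ maximalIdeal A • B.toSubmodule ∧ e' ∈ maximalIdeal A • B'.toSubmodule) ∨
      (e - 1 ∈ maximalIdeal A • B.toSubmodule ∧ e' - 1 ∈ maximalIdeal A • B'.toSubmodule) := by
  obtain ⟨β, hβ, β', hβ', e1⟩ := Submodule.mem_sup.1
    (lift_idem _ t ht B B' C htB htB' hBC hB'C hint hCB hCB' he he' h1 h1' h3)
  have e2 : e - β = e' + β' := by linear_combination -e1
  obtain ⟨a, ha⟩ := hBB' (e - β) (sub_mem he (smul_le _ _ hβ))
    (e2 ▸ add_mem he' (smul_le _ _ hβ'))
  have k1 := idem_aux B (a := a) he h1 (by rw [ha, sub_sub_cancel]; exact hβ)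
  have k2 := idem_aux B' (a := a) he' h1' (by rw [ha, e2, sub_add_cancel_left]; exact neg_mem hβ')
  by_cases hu : IsUnit a
  · exact Or.inr ⟨k1.2 hu, k2.2 hu⟩
  · exact Or.inl ⟨k1.1 hu, k2.1 hu⟩

end Pool.Agent.MP_855f4c_ag.AicH0

end

section

namespace Pool.Agent.MP_855f4c_ag.AicP1

open IsLocalRing AicSec AicH1 AicH0

/-- The integral closure of `A[S]` in `Ω`. -/
def icl (A : Type*) {Ω : Type*} [CommRing A] [CommRing Ω] [Algebra A Ω] (S : Set Ω) :
    Subalgebra A Ω :=
  (integralClosure (Algebra.adjoin A S) Ω).restrictScalars A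

variable {A Ω : Type*} [CommRing A] [Field Ω] [Algebra A Ω]

lemma mem_icl {S : Set Ω} {x : Ω} : x ∈ icl A S ↔ IsIntegral (Algebra.adjoin A S) x := Iff.rfl

lemma subset_icl {S : Set Ω} {x : Ω} (hx : x ∈ S) : x ∈ icl A S :=
  isIntegral_algebraMap (x := (⟨x, Algebra.subset_adjoin hx⟩ : Algebra.adjoin A S))

lemma icl_mono {S S' : Set Ω} (h : S ⊆ S') : icl A S ≤ icl A S' := fun _ hx =>
  IsIntegral.map_of_comp_eq (Subalgebra.inclusion (Algebra.adjoin_mono h)).toRingHom (RingHom.id Ω)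
    rfl hx

lemma icl_root {S : Set Ω} {n : ℕ} (hn : 0 < n) (x : Ω) (hx : x ^ n ∈ icl A S) : x ∈ icl A S :=
  IsIntegral.of_pow hn hx

lemma icl_clear {t : Ω} (ht : t ≠ 0) (x : Ω) (hx : x ∈ icl A {t, t⁻¹}) :
    ∃ k, x * t ^ k ∈ icl A {t} := by
  have htR : t ∈ Algebra.adjoin A {t} := Algebra.self_mem_adjoin_singleton _ _
  have h1 : Algebra.adjoin A {t, t⁻¹} ≤ away (Algebra.adjoin A {t}) t htR :=
    Algebra.adjoin_le (Set.pair_subset ⟨0, by simp⟩ ⟨1, by simp [ht]⟩)
  obtain ⟨p, hp, hpx⟩ := hx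
  choose k hk using fun i => h1 (p.coeff i).2
  let N := p.support.sup k
  have h2 : Polynomial.C (t ^ N) * p.map (algebraMap _ Ω) ∈
      Polynomial.lifts (algebraMap (Algebra.adjoin A {t}) Ω) := by
    rw [Polynomial.lifts_iff_coeff_lifts]
    intro i
    rw [Polynomial.coeff_C_mul, Polynomial.coeff_map]
    by_cases hi : i ∈ p.support
    · obtain ⟨d, hd⟩ := Nat.exists_eq_add_of_le (Finset.le_sup (f := k) hi)
      refine ⟨⟨_, mul_mem (hk i) (pow_mem htR d)⟩, ?_⟩
      change (p.coeff i : Ω) * t ^ k i * t ^ d = t ^ p.support.sup k * (p.coeff i : Ω)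
      rw [hd]; ring
    · rw [Polynomial.notMem_support_iff.1 hi, map_zero, mul_zero]; exact ⟨0, map_zero _⟩
  obtain ⟨q, hq⟩ := (Polynomial.mem_lifts _).1 h2
  have h3 : Polynomial.aeval x q = 0 := by
    rw [Polynomial.aeval_def, Polynomial.eval₂_eq_eval_map, hq, Polynomial.eval_mul,
      ← Polynomial.eval₂_eq_eval_map, hpx, mul_zero]
  have h4 := isIntegral_leadingCoeff_smul q x h3
  have h5 : algebraMap _ Ω q.leadingCoeff = t ^ N := by
    rw [← Polynomial.leadingCoeff_map_of_injective (f := algebraMap (Algebra.adjoin A {t}) Ω)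
      Subtype.val_injective, hq, Polynomial.leadingCoeff_mul, Polynomial.leadingCoeff_C,
      (hp.map _).leadingCoeff, mul_one]
  rw [Algebra.smul_def, h5, mul_comm] at h4
  exact ⟨N, h4⟩

lemma icl_clear' {t : Ω} (ht : t ≠ 0) (x : Ω) (hx : x ∈ icl A {t, t⁻¹}) :
    ∃ k, x * t⁻¹ ^ k ∈ icl A {t⁻¹} :=
  icl_clear (inv_ne_zero ht) x (by rwa [inv_inv, Set.pair_comm])

lemma icl_le_val (V : ValuationSubring Ω) (hV : ∀ a, algebraMap A Ω a ∈ V) {S : Set Ω}
    (hS : S ⊆ V) {x : Ω} (hx : x ∈ icl A S) : x ∈ V := by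
  let V' : Subalgebra A Ω := { V.toSubring with algebraMap_mem' := hV }
  have h1 : Algebra.adjoin A S ≤ V' := Algebra.adjoin_le hS
  have h2 : IsIntegral V x :=
    IsIntegral.map_of_comp_eq (R := Algebra.adjoin A S) (T := V)
      (Subalgebra.inclusion h1).toRingHom (RingHom.id Ω) rfl hx
  obtain ⟨y, rfl⟩ := (IsIntegrallyClosed.isIntegral_iff (R := V) (K := Ω)).1 h2
  exact y.2

lemma icl_inter {t x : Ω} (h : x ∈ icl A {t}) (h' : x ∈ icl A {t⁻¹}) : IsIntegral A x := by
  have h1 : x ∈ (integralClosure (Subring.closure (Set.range (algebraMap A Ω))) Ω).toSubring := by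
    rw [← iInf_valuationSubring_superset, Subring.mem_iInf]
    rintro ⟨V, hV⟩
    rcases V.mem_or_inv_mem t with ht | ht
    · exact icl_le_val V (fun a => hV ⟨a, rfl⟩) (Set.singleton_subset_iff.2 ht) h
    · exact icl_le_val V (fun a => hV ⟨a, rfl⟩) (Set.singleton_subset_iff.2 ht) h'
  have e : Subring.closure (Set.range (algebraMap A Ω)) = (algebraMap A Ω).range :=
    Subring.closure_eq (algebraMap A Ω).range
  rw [e] at h1
  obtain ⟨p, hp, hpx⟩ := h1
  obtain ⟨q, hq, -, hq'⟩ := Polynomial.lifts_and_natDegree_eq_and_monic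
    (f := (algebraMap A Ω).rangeRestrict) (p := p)
    (Polynomial.map_surjective _ (algebraMap A Ω).rangeRestrict_surjective p) hp
  refine ⟨q, hq', ?_⟩
  rw [← hq, Polynomial.eval₂_map] at hpx
  exact hpx

variable [IsLocalRing A]

/-- The special fibre is not empty. -/
theorem nonempty (t : Ω) : ¬ ((1 : Ω) ∈ maximalIdeal A • (icl A {t}).toSubmodule ∧
    (1 : Ω) ∈ maximalIdeal A • (icl A {t⁻¹}).toSubmodule) := by
  obtain ⟨V, hV, hl⟩ := IsLocalRing.exists_factor_valuationRing (algebraMap A Ω)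
  have key : ∀ s ∈ V, ∀ y ∈ maximalIdeal A • (icl A {s}).toSubmodule, V.valuation y < 1 := by
    intro s hs y hy
    refine Submodule.smul_induction_on hy (fun a ha y hy => ?_) fun y z hy hz => ?_
    · rw [Algebra.smul_def, map_mul]
      have h1 : V.valuation (algebraMap A Ω a) < 1 :=
        (V.valuation_lt_one_iff ⟨_, hV a⟩).1 fun h => ha (hl.1 a h)
      have h2 : V.valuation y ≤ 1 :=
        (V.valuation_le_one_iff y).2 (icl_le_val V hV (Set.singleton_subset_iff.2 hs) hy)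
      exact mul_lt_one_of_nonneg_of_lt_one_left zero_le h1 h2
    · exact Valuation.map_add_lt _ hy hz
  rintro ⟨h, h'⟩
  rcases V.mem_or_inv_mem t with ht | ht
  · simpa using key _ ht _ h
  · simpa using key _ ht _ h'

/-- The special fibre is connected. -/
theorem connected (hA : ∀ x : Ω, IsIntegral A x → ∃ a, algebraMap A Ω a = x) {t : Ω} (ht : t ≠ 0)
    {e e' : Ω} (he : e ∈ icl A {t}) (he' : e' ∈ icl A {t⁻¹})
    (h1 : e ^ 2 - e ∈ maximalIdeal A • (icl A {t}).toSubmodule)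
    (h1' : e' ^ 2 - e' ∈ maximalIdeal A • (icl A {t⁻¹}).toSubmodule)
    (h3 : e - e' ∈ maximalIdeal A • (icl A {t, t⁻¹}).toSubmodule) :
    (e ∈ maximalIdeal A • (icl A {t}).toSubmodule ∧
        e' ∈ maximalIdeal A • (icl A {t⁻¹}).toSubmodule) ∨
      (e - 1 ∈ maximalIdeal A • (icl A {t}).toSubmodule ∧
        e' - 1 ∈ maximalIdeal A • (icl A {t⁻¹}).toSubmodule) :=
  h0 t ht (icl A {t}) (icl A {t⁻¹}) (icl A {t, t⁻¹})
    (subset_icl (Set.mem_singleton _)) (subset_icl (Set.mem_singleton _)) (icl_mono (by simp)) (icl_mono (by simp))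
    (fun _ h => h) (icl_clear ht) (icl_clear' ht) (fun x h h' => hA x (icl_inter h h')) he he' h1
    h1' h3

/-- `μ_n(B/m) × μ_n(B'/m) → μ_n(C/m)` is onto. -/
theorem mu_onto [IsAlgClosed Ω] (hA : Aic A) (n : ℕ) (hn : IsUnit (n : A)) {t : Ω} (ht : t ≠ 0)
    (u : Ω) (huC : u ∈ icl A {t, t⁻¹})
    (hu : u ^ n - 1 ∈ maximalIdeal A • (icl A {t, t⁻¹}).toSubmodule) :
    ∃ c ∈ icl A {t}, ∃ c' ∈ icl A {t⁻¹}, c ^ n - 1 ∈ maximalIdeal A • (icl A {t}).toSubmodule ∧
      c' ^ n - 1 ∈ maximalIdeal A • (icl A {t⁻¹}).toSubmodule ∧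
      c' - c * u ∈ maximalIdeal A • (icl A {t, t⁻¹}).toSubmodule := by
  have h0 : 0 < n := Nat.pos_of_ne_zero (by rintro rfl; simp at hn)
  exact h1 hA n hn (fun x => IsAlgClosed.exists_pow_nat_eq x h0) t ht (icl A {t}) (icl A {t⁻¹})
    (icl A {t, t⁻¹})
    (subset_icl (Set.mem_singleton _)) (subset_icl (Set.mem_singleton _)) (icl_mono (by simp)) (icl_mono (by simp)) (fun _ h => h) (icl_root h0)
    (icl_root h0) (icl_clear ht) (icl_clear' ht) u huC hu

end Pool.Agent.MP_855f4c_ag.AicP1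

end

section

namespace Pool.Agent.MP_855f4c_ag.Cont

open PowerSeries

lemma pow_le {R : Type*} [CommRing R] (J : Ideal R) (τ : R) (hτ : τ ∈ J)
    (h2 : J ≤ Ideal.span {τ} ⊔ J ^ 2) (k : ℕ) : J ^ k ≤ Ideal.span {τ ^ k} ⊔ J ^ (k + 1) := by
  induction k with
  | zero => simp
  | succ k ih =>
    have h3 : Ideal.span {τ ^ k} ≤ J ^ k := by
      rw [Ideal.span_singleton_le_iff_mem]; exact Ideal.pow_mem_pow hτ k
    calc J ^ (k + 1) = J ^ k * J := pow_succ _ _
      _ ≤ (Ideal.span {τ ^ k} ⊔ J ^ (k + 1)) * J := Ideal.mul_mono_left ih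
      _ = Ideal.span {τ ^ k} * J ⊔ J ^ (k + 1 + 1) := by rw [Ideal.sup_mul, ← pow_succ]
      _ ≤ _ := by
        refine sup_le ?_ le_sup_right
        refine (Ideal.mul_mono_right h2).trans ?_
        rw [Ideal.mul_sup, Ideal.span_singleton_mul_span_singleton, ← pow_succ]
        refine sup_le_sup_left ?_ _
        refine (Ideal.mul_mono_left h3).trans ?_
        rw [← pow_add]

lemma approx {R : Type*} [CommRing R] (P : R → Prop) (J : Ideal R) (τ : R) (hτ : τ ∈ J)
    (h1 : ∀ z : R, ∃ a, P a ∧ z - a ∈ J) (h2 : J ≤ Ideal.span {τ} ⊔ J ^ 2) (h : R) (k : ℕ) :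
    ∃ a : ℕ → R, (∀ j, P (a j)) ∧ h - ∑ j ∈ Finset.range k, a j * τ ^ j ∈ J ^ k := by
  induction k with
  | zero =>
    obtain ⟨a, ha, -⟩ := h1 0
    exact ⟨fun _ => a, fun _ => ha, by simp⟩
  | succ k ih =>
    obtain ⟨a, ha, hk⟩ := ih
    obtain ⟨u, hu, w, hw, e⟩ := Submodule.mem_sup.1 (pow_le J τ hτ h2 k hk)
    obtain ⟨z, rfl⟩ := Ideal.mem_span_singleton'.1 hu
    obtain ⟨b, hb, hz⟩ := h1 z
    refine ⟨Function.update a k b, fun j => ?_, ?_⟩
    · by_cases hj : j = k
      · rw [hj, Function.update_self]; exact hb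
      · rw [Function.update_of_ne hj]; exact ha j
    · rw [Finset.sum_range_succ, Function.update_self,
        Finset.sum_congr rfl fun j hj => by
          rw [Function.update_of_ne (Finset.mem_range.1 hj).ne]]
      have : h - (∑ j ∈ Finset.range k, a j * τ ^ j + b * τ ^ k) = τ ^ k * (z - b) + w := by
        linear_combination -e
      rw [this]
      refine add_mem ?_ hw
      rw [pow_succ]
      exact Ideal.mul_mem_mul (Ideal.pow_mem_pow hτ k) hz

lemma exists_min {V ι : Type*} [CommRing V] [IsDomain V] [ValuationRing V] (c : ι → V)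
    (F : Finset ι) (hF : F.Nonempty) : ∃ i ∈ F, ∀ j ∈ F, c i ∣ c j := by
  induction hF using Finset.Nonempty.cons_induction with
  | singleton a => exact ⟨a, by simp, by simp⟩
  | cons a s ha hs ih =>
    obtain ⟨i, hi, h⟩ := ih
    rcases ValuationRing.dvd_total (c a) (c i) with h1 | h1
    · refine ⟨a, by simp, fun j hj => ?_⟩
      rcases Finset.mem_cons.1 hj with rfl | hj
      · exact dvd_rfl
      · exact h1.trans (h j hj)
    · refine ⟨i, Finset.mem_cons.2 (Or.inr hi), fun j hj => ?_⟩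
      rcases Finset.mem_cons.1 hj with rfl | hj
      · exact h1
      · exact h j hj

section

variable {V O : Type*} [CommRing V] [CommRing O] [Algebra V O]

lemma fin_coeff {ι : Type*} (y : ι → O) (hy : Algebra.adjoin V (Set.range y) = ⊤) (z : O) :
    ∃ T : Set V, T.Finite ∧ z ∈ Subring.closure (algebraMap V O '' T ∪ Set.range y) := by
  have hz : z ∈ Algebra.adjoin V (Set.range y) := hy ▸ Algebra.mem_top
  have mono : ∀ {T T' : Set V}, T ⊆ T' → Subring.closure (algebraMap V O '' T ∪ Set.range y) ≤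
      Subring.closure (algebraMap V O '' T' ∪ Set.range y) := fun h =>
    Subring.closure_mono (Set.union_subset_union_left _ (Set.image_mono h))
  induction hz using Algebra.adjoin_induction with
  | mem x hx => exact ⟨∅, Set.finite_empty, Subring.subset_closure (Or.inr hx)⟩
  | algebraMap c => exact ⟨{c}, Set.finite_singleton c, Subring.subset_closure (Or.inl ⟨c, rfl, rfl⟩)⟩
  | add x z _ _ hx hz =>
    obtain ⟨T, hT, hx⟩ := hx
    obtain ⟨T', hT', hz⟩ := hz
    exact ⟨T ∪ T', hT.union hT', add_mem (mono Set.subset_union_left hx)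
      (mono Set.subset_union_right hz)⟩
  | mul x z _ _ hx hz =>
    obtain ⟨T, hT, hx⟩ := hx
    obtain ⟨T', hT', hz⟩ := hz
    exact ⟨T ∪ T', hT.union hT', mul_mem (mono Set.subset_union_left hx)
      (mono Set.subset_union_right hz)⟩

lemma gens [Algebra.FiniteType V O] (s : O →ₐ[V] V) (t : O) (ht : s t = 0) :
    ∃ (m : ℕ) (y : Option (Fin m) → O), y none = t ∧ (∀ i, s (y i) = 0) ∧
      Algebra.adjoin V (Set.range y) = ⊤ ∧ RingHom.ker s = Ideal.span (Set.range y) := by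
  obtain ⟨S, hS⟩ := Algebra.FiniteType.out (R := V) (A := O)
  let x : Fin S.card → O := fun i => S.equivFin.symm i
  let y : Option (Fin S.card) → O := fun i => i.elim t fun i => x i - algebraMap V O (s (x i))
  have h0 : ∀ i, s (y i) = 0 := by
    rintro (_ | i)
    · exact ht
    · simp [y]
  have h1 : Algebra.adjoin V (Set.range y) = ⊤ := by
    rw [eq_top_iff, ← hS]
    refine Algebra.adjoin_le fun z hz => ?_
    have e : z = y (some (S.equivFin ⟨z, hz⟩)) + algebraMap V O (s z) := by simp [y, x]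
    rw [e]
    exact add_mem (Algebra.subset_adjoin ⟨_, rfl⟩) (Subalgebra.algebraMap_mem _ _)
  refine ⟨_, y, rfl, h0, h1, le_antisymm (fun z hz => ?_) ?_⟩
  · have key : ∀ z ∈ Algebra.adjoin V (Set.range y),
        z - algebraMap V O (s z) ∈ Ideal.span (Set.range y) := by
      intro z hz
      induction hz using Algebra.adjoin_induction with
      | mem x hx =>
        obtain ⟨i, rfl⟩ := hx
        rw [h0, map_zero, sub_zero]
        exact Ideal.subset_span ⟨i, rfl⟩
      | algebraMap c => simp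
      | add x z _ _ hx hz =>
        rw [map_add, map_add, add_sub_add_comm]
        exact add_mem hx hz
      | mul x z _ _ hx hz =>
        have : x * z - algebraMap V O (s (x * z)) = x * (z - algebraMap V O (s z)) +
            algebraMap V O (s z) * (x - algebraMap V O (s x)) := by
          rw [map_mul, map_mul]; ring
        rw [this]
        exact add_mem (Ideal.mul_mem_left _ _ hz) (Ideal.mul_mem_left _ _ hx)
    have := key z (h1 ▸ Algebra.mem_top)
    rwa [show s z = 0 from hz, map_zero, sub_zero] at this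
  · rw [Ideal.span_le]
    rintro _ ⟨i, rfl⟩
    exact h0 i

/-- Krull step: `(1 - i) h` lies in the ideal generated by finitely many Taylor coefficients. -/
lemma krull [Algebra.FiniteType V O] (s : O →ₐ[V] V) (t : O) (e : O →ₐ[V] V⟦X⟧) (het : e t = X)
    (hes : ∀ z, constantCoeff (e z) = s z)
    (hI : RingHom.ker s ≤ Ideal.span {t} ⊔ RingHom.ker s ^ 2) (h : O) :
    ∃ i, s i = 0 ∧ ∃ F : Finset ℕ,
      (1 - i) * h ∈ Ideal.span ((fun j => algebraMap V O (coeff j (e h))) '' F) := by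
  classical
  have ht : s t = 0 := by rw [← hes, het, constantCoeff_X]
  obtain ⟨m, y, hy0, hys, hy, hk⟩ := gens s t ht
  have hsq : RingHom.ker s ^ 2 = Ideal.span (Set.range fun p : Option (Fin m) × Option (Fin m) =>
      y p.1 * y p.2) := by
    rw [hk, sq, Ideal.span_mul_span']
    congr 1
    ext z
    constructor
    · rintro ⟨_, ⟨i, rfl⟩, _, ⟨j, rfl⟩, rfl⟩
      exact ⟨(i, j), rfl⟩
    · rintro ⟨p, rfl⟩
      exact ⟨_, ⟨p.1, rfl⟩, _, ⟨p.2, rfl⟩, rfl⟩
  have hrel : ∀ k, ∃ (a : O) (b : Option (Fin m) × Option (Fin m) → O),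
      a * t + ∑ p, b p * (y p.1 * y p.2) = y k := fun k => by
    obtain ⟨u, hu, w, hw, e⟩ := Submodule.mem_sup.1 (hI (show y k ∈ RingHom.ker s from hys k))
    obtain ⟨a, rfl⟩ := Ideal.mem_span_singleton'.1 hu
    rw [hsq] at hw
    obtain ⟨b, rfl⟩ := Ideal.mem_span_range_iff_exists_fun.1 hw
    exact ⟨a, b, e⟩
  choose a b hab using hrel
  choose T hT hz using fin_coeff y hy
  let T0 : Set V := T h ∪ (⋃ k, T (a k)) ∪ ⋃ k, ⋃ p, T (b k p)
  have hT0 : T0.Finite := ((hT h).union (Set.finite_iUnion fun k => hT _)).union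
    (Set.finite_iUnion fun k => Set.finite_iUnion fun p => hT _)
  let R : Subring O := Subring.closure (algebraMap V O '' T0 ∪ Set.range y)
  have hN : IsNoetherianRing R :=
    is_noetherian_subring_closure _ ((hT0.image _).union (Set.finite_range y))
  have mono : ∀ z, T z ⊆ T0 → z ∈ R := fun z h =>
    Subring.closure_mono (Set.union_subset_union_left _ (Set.image_mono h)) (hz z)
  have hh : h ∈ R := mono _ (Set.subset_union_left.trans Set.subset_union_left)
  have ha : ∀ k, a k ∈ R := fun k => mono _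
    (((Set.subset_iUnion (fun k => T (a k)) k).trans Set.subset_union_right).trans
      Set.subset_union_left)
  have hb : ∀ k p, b k p ∈ R := fun k p => mono _
    (((Set.subset_iUnion (fun p => T (b k p)) p).trans
      (Set.subset_iUnion (fun k => ⋃ p, T (b k p)) k)).trans Set.subset_union_right)
  let y0 : Option (Fin m) → R := fun i => ⟨y i, Subring.subset_closure (Or.inr ⟨i, rfl⟩)⟩
  let J : Ideal R := Ideal.span (Set.range y0)
  have hJ : ∀ i, y0 i ∈ J := fun i => Ideal.subset_span ⟨i, rfl⟩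
  let P : R → Prop := fun r => ∃ v, (r : O) = algebraMap V O v
  have h1 : ∀ z : R, ∃ a, P a ∧ z - a ∈ J := by
    rintro ⟨z, hz⟩
    induction hz using Subring.closure_induction with
    | mem x hx =>
      rcases hx with ⟨v, hv, rfl⟩ | ⟨i, rfl⟩
      · exact ⟨_, ⟨v, rfl⟩, by rw [sub_self]; exact zero_mem _⟩
      · exact ⟨0, ⟨0, by simp⟩, by rw [sub_zero]; exact hJ i⟩
    | zero => exact ⟨0, ⟨0, by simp⟩, by rw [sub_zero]; exact zero_mem _⟩
    | one => exact ⟨1, ⟨1, by simp⟩, by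
        rw [show (⟨1, _⟩ : R) = 1 from rfl, sub_self]; exact zero_mem _⟩
    | add x z hx hz ix iz =>
      obtain ⟨a, ⟨v, hv⟩, ix⟩ := ix
      obtain ⟨a', ⟨v', hv'⟩, iz⟩ := iz
      refine ⟨a + a', ⟨v + v', by rw [map_add, ← hv, ← hv']; rfl⟩, ?_⟩
      rw [show (⟨x + z, _⟩ : R) = ⟨x, hx⟩ + ⟨z, hz⟩ from rfl, add_sub_add_comm]
      exact add_mem ix iz
    | neg x hx ix =>
      obtain ⟨a, ⟨v, hv⟩, ix⟩ := ix
      refine ⟨-a, ⟨-v, by rw [map_neg, ← hv]; rfl⟩, ?_⟩
      rw [show (⟨-x, _⟩ : R) = -⟨x, hx⟩ from rfl, ← neg_sub', ]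
      exact neg_mem ix
    | mul x z hx hz ix iz =>
      obtain ⟨a, ⟨v, hv⟩, ix⟩ := ix
      obtain ⟨a', ⟨v', hv'⟩, iz⟩ := iz
      refine ⟨a * a', ⟨v * v', by rw [map_mul, ← hv, ← hv']; rfl⟩, ?_⟩
      have : (⟨x * z, mul_mem hx hz⟩ : R) - a * a' =
          ⟨x, hx⟩ * (⟨z, hz⟩ - a') + a' * (⟨x, hx⟩ - a) := by
        rw [show (⟨x * z, _⟩ : R) = ⟨x, hx⟩ * ⟨z, hz⟩ from rfl]; ring
      rw [this]
      exact add_mem (Ideal.mul_mem_left _ _ iz) (Ideal.mul_mem_left _ _ ix)
  have h2 : J ≤ Ideal.span {y0 none} ⊔ J ^ 2 := by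
    rw [Ideal.span_le]
    rintro _ ⟨k, rfl⟩
    have : y0 k = ⟨a k, ha k⟩ * y0 none + ∑ p, ⟨b k p, hb k p⟩ * (y0 p.1 * y0 p.2) := by
      apply Subtype.ext
      simp only [y0, Subring.coe_add, Subring.coe_mul, AddSubmonoidClass.coe_finsetSum, hy0]
      exact (hab k).symm
    rw [this]
    refine add_mem (Ideal.mem_sup_left (Ideal.mul_mem_left _ _ (Ideal.mem_span_singleton_self _)))
      (Ideal.mem_sup_right (Ideal.sum_mem _ fun p _ => Ideal.mul_mem_left _ _ ?_))
    rw [sq]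
    exact Ideal.mul_mem_mul (hJ _) (hJ _)
  let ψ : R →+* V⟦X⟧ := (e : O →+* V⟦X⟧).comp R.subtype
  have hψ : ∀ k, ∀ w ∈ J ^ k, (X : V⟦X⟧) ^ k ∣ ψ w := fun k w hw => by
    have h3 : J.map ψ ≤ Ideal.span {X} := by
      rw [Ideal.map_span, Ideal.span_le]
      rintro _ ⟨_, ⟨i, rfl⟩, rfl⟩
      refine Ideal.mem_span_singleton.2 (X_dvd_iff.2 ?_)
      exact (hes _).trans (hys i)
    have h4 := Ideal.mem_map_of_mem ψ hw
    rw [Ideal.map_pow] at h4
    have h5 := Ideal.pow_right_mono h3 k h4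
    rwa [Ideal.span_singleton_pow, Ideal.mem_span_singleton] at h5
  let S : Set R := {r | ∃ j, (r : O) = algebraMap V O (coeff j (e h))}
  let h0 : R := ⟨h, hh⟩
  have hx : Ideal.Quotient.mk (Ideal.span S) h0 ∈
      (⨅ k : ℕ, J ^ k • ⊤ : Submodule R (R ⧸ Ideal.span S)) := by
    refine Submodule.mem_iInf _ |>.2 fun k => ?_
    obtain ⟨c, hc, hk⟩ := approx P J (y0 none) (hJ _) h1 h2 h0 k
    choose v hv using hc
    have h6 : ∀ j ∈ Finset.range k, c j ∈ S := fun j hj => by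
      refine ⟨j, ?_⟩
      have h7 := X_pow_dvd_iff.1 (hψ k _ hk) j (Finset.mem_range.1 hj)
      have h8 : ψ (∑ j ∈ Finset.range k, c j * y0 none ^ j) =
          ∑ j ∈ Finset.range k, C (v j) * X ^ j := by
        rw [map_sum]
        refine Finset.sum_congr rfl fun j _ => ?_
        rw [map_mul, map_pow]
        congr 1
        · change e (c j : O) = _
          rw [hv, AlgHom.commutes]; rfl
        · change e (y none) ^ j = _
          rw [hy0, het]
      rw [map_sub, h8, map_sub, map_sum, Finset.sum_eq_single j, coeff_C_mul, coeff_X_pow_self,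
        mul_one, sub_eq_zero] at h7
      · rw [hv, ← h7]; rfl
      · intro i _ hi
        rw [coeff_C_mul, coeff_X_pow, if_neg hi.symm, mul_zero]
      · exact fun h => (h hj).elim
    have h9 : Ideal.Quotient.mk (Ideal.span S) h0 =
        (h0 - ∑ j ∈ Finset.range k, c j * y0 none ^ j) • (1 : R ⧸ Ideal.span S) := by
      rw [Algebra.smul_def, mul_one, Ideal.Quotient.algebraMap_eq, Ideal.Quotient.eq, sub_sub_cancel]
      exact Ideal.sum_mem _ fun j hj => Ideal.mul_mem_right _ _ (Ideal.subset_span (h6 j hj))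
    rw [h9]
    exact Submodule.smul_mem_smul hk Submodule.mem_top
  obtain ⟨r, hr⟩ := (J.mem_iInf_smul_pow_eq_bot_iff _).1 hx
  have h10 : (1 - (r : R)) * h0 ∈ Ideal.span S := by
    rw [← Ideal.Quotient.eq_zero_iff_mem, sub_mul, one_mul, map_sub, map_mul, sub_eq_zero]
    conv_lhs => rw [← hr]
    rfl
  obtain ⟨F, hF, h11⟩ := Submodule.mem_span_finite_of_mem_span h10
  choose! jj hjj using fun r (hr : r ∈ S) => hr
  refine ⟨((r : R) : O), ?_, F.image jj, ?_⟩
  · have := X_pow_dvd_iff.1 (hψ 1 r (by rw [pow_one]; exact r.2)) 0 one_pos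
    rw [← hes]
    simpa [ψ] using this
  · have h12 := Ideal.mem_map_of_mem R.subtype h11
    rw [show Submodule.span R (F : Set R) = Ideal.span (F : Set R) from rfl, Ideal.map_span] at h12
    refine Ideal.span_mono ?_ h12
    rintro _ ⟨w, hw, rfl⟩
    exact ⟨jj w, Finset.mem_coe.2 (Finset.mem_image_of_mem jj (Finset.mem_coe.1 hw)), (hjj w (hF hw)).symm⟩

/-- Content lemma over a valuation ring. -/
lemma content [IsDomain V] [ValuationRing V] [Algebra.FiniteType V O] (s : O →ₐ[V] V) (t : O)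
    (e : O →ₐ[V] V⟦X⟧) (het : e t = X) (hes : ∀ z, constantCoeff (e z) = s z)
    (hI : RingHom.ker s ≤ Ideal.span {t} ⊔ RingHom.ker s ^ 2) (h : O) :
    ∃ i, s i = 0 ∧ ∃ (c : V) (h' : O), (1 - i) * h = algebraMap V O c * h' ∧
      (c = 0 ∨ ∃ j, IsUnit (coeff j (e h'))) := by
  classical
  obtain ⟨i, hi, F, hF⟩ := krull s t e het hes hI h
  refine ⟨i, hi, ?_⟩
  rcases F.eq_empty_or_nonempty with rfl | hne
  · refine ⟨0, 0, ?_, Or.inl rfl⟩
    simpa using hF
  obtain ⟨j0, hj0, hmin⟩ := exists_min (fun j => coeff j (e h)) F hne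
  have h1 : (1 - i) * h ∈ Ideal.span {algebraMap V O (coeff j0 (e h))} := by
    refine Ideal.span_le.2 ?_ hF
    rintro _ ⟨j, hj, rfl⟩
    exact Ideal.mem_span_singleton.2 (map_dvd _ (hmin j hj))
  obtain ⟨h', hh'⟩ := Ideal.mem_span_singleton'.1 h1
  refine ⟨coeff j0 (e h), h', by rw [← hh', mul_comm], ?_⟩
  by_cases hc : coeff j0 (e h) = 0
  · exact Or.inl hc
  right
  by_contra hu
  push Not at hu
  -- `e (1 - i)` is a unit; `e h = c * (unit⁻¹ * e h')`
  have hunit : IsUnit (e (1 - i)) := by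
    rw [isUnit_iff_constantCoeff, hes, map_sub, map_one, hi, sub_zero]; exact isUnit_one
  obtain ⟨w, hw⟩ := hunit.exists_left_inv
  have h2 : e h = C (coeff j0 (e h)) * (w * e h') := by
    have h3 := congrArg e hh'
    rw [map_mul, map_mul, AlgHom.commutes] at h3
    have h4 : algebraMap V V⟦X⟧ (coeff j0 (e h)) = C (coeff j0 (e h)) := rfl
    rw [h4] at h3
    linear_combination -(e h) * hw - w * h3
  have h5 : coeff j0 (w * e h') ∈ IsLocalRing.maximalIdeal V := by
    rw [coeff_mul]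
    exact Ideal.sum_mem _ fun p _ => Ideal.mul_mem_left _ _ (hu _)
  have h6 := congrArg (coeff j0) h2
  rw [coeff_C_mul] at h6
  have h7 : coeff j0 (w * e h') = 1 := mul_left_cancel₀ hc (by rw [← h6, mul_one])
  rw [h7] at h5
  exact h5 isUnit_one

lemma mul_unit_coeff {V : Type*} [CommRing V] [IsLocalRing V] {f g : V⟦X⟧}
    (hf : ∃ j, IsUnit (coeff j f)) (hg : ∃ j, IsUnit (coeff j g)) :
    ∃ j, IsUnit (coeff j (f * g)) := by
  have key : ∀ f : V⟦X⟧, (∃ j, IsUnit (coeff j f)) ↔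
      PowerSeries.map (IsLocalRing.residue V) f ≠ 0 := fun f => by
    rw [Ne, PowerSeries.ext_iff, not_forall]
    refine exists_congr fun j => ?_
    rw [coeff_map, map_zero, IsLocalRing.residue_eq_zero_iff, IsLocalRing.mem_maximalIdeal,
      mem_nonunits_iff, not_not]
  rw [key] at hf hg ⊢
  rw [map_mul]
  exact mul_ne_zero hf hg

/-- The local ring at the closed point of the section is a domain. -/
lemma dom [IsDomain V] [ValuationRing V] [Algebra.FiniteType V O] (s : O →ₐ[V] V) (t : O)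
    (e : O →ₐ[V] V⟦X⟧) (het : e t = X) (hes : ∀ z, constantCoeff (e z) = s z)
    (hI : RingHom.ker s ≤ Ideal.span {t} ⊔ RingHom.ker s ^ 2) (f g : O) (hfg : f * g = 0) :
    ∃ i, s i = 0 ∧ ((1 - i) * f = 0 ∨ (1 - i) * g = 0) := by
  have key : ∀ f, e f = 0 → ∃ i, s i = 0 ∧ (1 - i) * f = 0 := fun f hf => by
    obtain ⟨i, hi, F, hF⟩ := krull s t e het hes hI f
    refine ⟨i, hi, ?_⟩
    rw [← Ideal.mem_bot]
    refine Ideal.span_le.2 ?_ hF
    rintro _ ⟨j, -, rfl⟩
    simp [hf]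
  have h1 : e f * e g = 0 := by rw [← map_mul, hfg, map_zero]
  rcases mul_eq_zero.1 h1 with h | h
  · obtain ⟨i, hi, h⟩ := key f h
    exact ⟨i, hi, Or.inl h⟩
  · obtain ⟨i, hi, h⟩ := key g h
    exact ⟨i, hi, Or.inr h⟩

/-- A divisor of a non-zero constant is, near the section, a constant times a unit. -/
lemma dvd_const [IsDomain V] [ValuationRing V] [Algebra.FiniteType V O] (s : O →ₐ[V] V) (t : O)
    (e : O →ₐ[V] V⟦X⟧) (het : e t = X) (hes : ∀ z, constantCoeff (e z) = s z)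
    (hI : RingHom.ker s ≤ Ideal.span {t} ⊔ RingHom.ker s ^ 2) (f g : O) (p : V) (hp : p ≠ 0)
    (hfg : f * g = algebraMap V O p) :
    ∃ i, s i = 0 ∧ ∃ (c : V) (f' : O), c ≠ 0 ∧ (1 - i) * f = algebraMap V O c * f' ∧
      IsUnit (s f') := by
  obtain ⟨i, hi, c, f', hf, hc⟩ := content s t e het hes hI f
  obtain ⟨i', hi', c', g', hg, hc'⟩ := content s t e het hes hI g
  have h1 : algebraMap V O (c * c') * (f' * g') = algebraMap V O p * ((1 - i) * (1 - i')) := by
    rw [map_mul]; linear_combination -(algebraMap V O c' * g') * hf - ((1 - i) * f) * hg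
      + (1 - i) * (1 - i') * hfg
  have h2 : c * c' * (s f' * s g') = p := by
    have := congrArg s h1
    simpa [hi, hi'] using this
  have hc0 : c ≠ 0 := by rintro rfl; exact hp (by rw [← h2]; ring)
  have hc0' : c' ≠ 0 := by rintro rfl; exact hp (by rw [← h2]; ring)
  obtain ⟨j, hj⟩ := mul_unit_coeff (hc.resolve_left hc0) (hc'.resolve_left hc0')
  have h3 := congrArg (fun z => coeff j (e z)) h1
  simp only [map_mul (f := e), AlgHom.commutes] at h3
  rw [show algebraMap V V⟦X⟧ (c * c') = C (c * c') from rfl,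
    show algebraMap V V⟦X⟧ p = C p from rfl, coeff_C_mul, coeff_C_mul, ← h2, mul_assoc (c * c')] at h3
  have h4 := mul_left_cancel₀ (mul_ne_zero hc0 hc0') h3
  rw [h4] at hj
  exact ⟨i, hi, c, f', hc0, hf, isUnit_of_mul_isUnit_left (isUnit_of_mul_isUnit_left hj)⟩

open Polynomial in
/-- Taylor expansion along a section of a formally étale `V[X]`-algebra. -/
lemma exists_exp [Algebra V[X] O] [IsScalarTower V V[X] O] [Algebra.FormallyEtale V[X] O]
    (s : O →ₐ[V] V) :
    ∃ (t : O) (e : O →ₐ[V] V⟦X⟧), e t = PowerSeries.X ∧ (∀ z, constantCoeff (e z) = s z) ∧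
      RingHom.ker s ≤ Ideal.span {t} ⊔ RingHom.ker s ^ 2 := by
  let a : V := s (algebraMap V[X] O Polynomial.X)
  let t : O := algebraMap V[X] O Polynomial.X - algebraMap V O a
  have hI : RingHom.ker s ≤ Ideal.span {t} ⊔ RingHom.ker s ^ 2 := by
    intro z hz
    let K : Ideal O := Ideal.span {t} ⊔ RingHom.ker s ^ 2
    let φ : O →ₐ[V] O ⧸ K := (Algebra.ofId V (O ⧸ K)).comp s
    have hφ : φ.comp (IsScalarTower.toAlgHom V V[X] O) = IsScalarTower.toAlgHom V V[X] (O ⧸ K) := by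
      refine Polynomial.algHom_ext ?_
      change Ideal.Quotient.mk K (algebraMap V O a) = Ideal.Quotient.mk K (algebraMap V[X] O _)
      rw [eq_comm, Ideal.Quotient.eq]
      exact Ideal.mem_sup_left (Ideal.mem_span_singleton_self t)
    let g2 : O →ₐ[V[X]] O ⧸ K :=
      { toRingHom := φ, commutes' := fun p => congr($hφ p) }
    have hn : IsNilpotent ((RingHom.ker s).map (Ideal.Quotient.mk K)) := by
      refine ⟨2, ?_⟩
      rw [← Ideal.map_pow, Ideal.zero_eq_bot, Ideal.map_eq_bot_iff_le_ker, Ideal.mk_ker]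
      exact le_sup_right
    have h1 : Ideal.Quotient.mkₐ V[X] K = g2 := by
      refine Algebra.FormallyUnramified.ext _ hn fun x => ?_
      rw [Ideal.Quotient.eq]
      change Ideal.Quotient.mk K x - Ideal.Quotient.mk K (algebraMap V O (s x)) ∈ _
      rw [← map_sub]
      refine Ideal.mem_map_of_mem _ ?_
      simp [RingHom.mem_ker]
    have h2 : Ideal.Quotient.mk K z = Ideal.Quotient.mk K (algebraMap V O (s z)) := congr($h1 z)
    rw [show s z = 0 from hz, map_zero, map_zero, Ideal.Quotient.eq_zero_iff_mem] at h2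
    exact h2
  let θ : V[X] →ₐ[V] V⟦X⟧ := Polynomial.aeval (PowerSeries.C a + PowerSeries.X)
  let _ : Algebra V[X] V⟦X⟧ := θ.toRingHom.toAlgebra
  let K : Ideal V⟦X⟧ := Ideal.span {PowerSeries.X}
  let φ : O →ₐ[V] V⟦X⟧ ⧸ K := (Algebra.ofId V (V⟦X⟧ ⧸ K)).comp s
  have hφ : φ.comp (IsScalarTower.toAlgHom V V[X] O) = (Ideal.Quotient.mkₐ V K).comp θ := by
    refine Polynomial.algHom_ext ?_
    change Ideal.Quotient.mk K (PowerSeries.C a) = Ideal.Quotient.mk K (θ Polynomial.X)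
    rw [eq_comm, Ideal.Quotient.eq]
    simp [θ, K]
  let f : O →ₐ[V[X]] V⟦X⟧ ⧸ K := { toRingHom := φ, commutes' := fun p => congr($hφ p) }
  obtain ⟨g, hg⟩ := Algebra.FormallySmooth.exists_mkₐ_comp_eq_of_isAdicComplete f
  have hg1 : ∀ p, g (algebraMap V[X] O p) = θ p := fun p => g.commutes p
  let e : O →ₐ[V] V⟦X⟧ :=
    { toRingHom := g
      commutes' := fun v => by
        change g (algebraMap V O v) = _
        rw [IsScalarTower.algebraMap_apply V V[X] O, hg1, θ.commutes] }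
  refine ⟨t, e, ?_, fun z => ?_, hI⟩
  · rw [map_sub, e.commutes]
    change g _ - PowerSeries.C a = _
    rw [hg1]
    simp [θ]
  · have h1 : Ideal.Quotient.mk K (e z) = Ideal.Quotient.mk K (PowerSeries.C (s z)) := congr($hg z)
    rw [Ideal.Quotient.eq, Ideal.mem_span_singleton, PowerSeries.X_dvd_iff, map_sub,
      constantCoeff_C, sub_eq_zero] at h1
    exact h1

end

end Pool.Agent.MP_855f4c_ag.Cont

end
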