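import Pool.Agent.MP_855f4c_ag.EC.F1a
import Pool.Agent.MP_855f4c_ag.EC.E3a
import Pool.Agent.MP_855f4c_ag.LP.Lisse
import Pool.Agent.MP_855f4c_ag.EC.F2a
import Pool.Agent.MP_855f4c_ag.LP.Alg
import Pool.Agent.MP_855f4c_ag.EC.E28a

section

open CategoryTheory Limits

namespace Pool.Agent.MP_855f4c_ag.E

universe v u

variable {C : Type u} [Category.{v} C] {J : GrothendieckTopology C} {X Y : C}

/-- `f^*` -/
abbrev pb (f : X ⟶ Y) : Sh (J.over Y) ⥤ Sh (J.over X) := J.overMapPullback Ab.{max u v} f

/-- `f_*` -/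
noncomputable abbrev pf [HasPullbacks C] (f : X ⟶ Y) : Sh (J.over X) ⥤ Sh (J.over Y) :=
  (Over.pullback f).sheafPushforwardContinuous Ab.{max u v} (J.over Y) (J.over X)

end Pool.Agent.MP_855f4c_ag.E

end

section

/-! Section S, pure algebra: strictly henselian germs of the affine line. -/

set_option autoImplicit false

namespace Pool.Agent.MP_855f4c_ag.E3

open IsLocalRing Polynomial

/-- `O` is the strict henselisation of `V[X]` at the origin of the special fibre. -/
structure Germ (V O : Type) [CommRing V] [IsLocalRing V] [CommRing O] [Algebra V[X] O] : Prop where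
  shl : SHL O
  ind : IndEt V[X] O
  loc : ∀ a ∈ maximalIdeal V, ¬ IsUnit (algebraMap V[X] O (C a))
  orig : ¬ IsUnit (algebraMap V[X] O X)

end Pool.Agent.MP_855f4c_ag.E3

end

section

/-! Section S, pure algebra: existence of germs, aic rings. -/

set_option autoImplicit false

namespace Pool.Agent.MP_855f4c_ag.E3

open IsLocalRing Polynomial TensorProduct

/-- G6: localisations of aic rings are aic. -/
theorem Aic.of_isLocalization {B S : Type} [CommRing B] [CommRing S] [Algebra B S] (hB : Aic B)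
    (M : Submonoid B) [IsLocalization M S] : Aic S := by
  intro p hp hd
  obtain ⟨q, hq, hqd, hqm⟩ := lifts_and_natDegree_eq_and_monic
    (IsLocalization.scaleRoots_commonDenom_mem_lifts M p (by rw [hp.leadingCoeff]; exact one_mem _))
    ((monic_scaleRoots_iff _).2 hp)
  rw [natDegree_scaleRoots] at hqd
  obtain ⟨b, hb⟩ := hB q hqm (by rwa [hqd])
  obtain ⟨u, hu⟩ := IsLocalization.map_units S (IsLocalization.commonDenom M p.support p.coeff)
  refine ⟨↑u⁻¹ * algebraMap B S b, ?_⟩
  have h1 := scaleRoots_eval_mul p (↑u⁻¹ * algebraMap B S b) (u : S)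
  rw [Units.mul_inv_cancel_left, hu, ← hq, eval_map_algebraMap, aeval_algebraMap_apply,
    coe_aeval_eq_eval, hb, map_zero, ← hu] at h1
  exact (u.isUnit.pow _).mul_right_eq_zero.1 h1.symm

/-- Quotients of aic rings are aic. -/
theorem Aic.of_surjective {B S : Type} [CommRing B] [CommRing S] (hB : Aic B) (f : B →+* S)
    (hf : Function.Surjective f) : Aic S := by
  intro p hp hd
  obtain ⟨q, hq, hqd, hqm⟩ := lifts_and_natDegree_eq_and_monic
    ((mem_lifts p).2 (map_surjective f hf p)) hp
  obtain ⟨b, hb⟩ := hB q hqm (by rwa [hqd])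
  exact ⟨f b, by rw [← hq, eval_map, eval₂_hom, hb, map_zero]⟩

theorem Aic.isAlgClosed_field {L : Type} [Field L] (hL : Aic L) : IsAlgClosed L :=
  IsAlgClosed.of_exists_root L fun p hp hi => hL p hp hi.natDegree_pos.ne'

theorem aic_of_isAlgClosed (L : Type) [Field L] [IsAlgClosed L] : Aic L := fun p _ hd =>
  IsAlgClosed.exists_root p fun h => hd (natDegree_eq_zero_iff_degree_le_zero.2 h.le)

/-- An aic domain is normal. -/
theorem Aic.isIntegrallyClosed {B : Type} [CommRing B] [IsDomain B] (hB : Aic B) :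
    IsIntegrallyClosed B := by
  rw [isIntegrallyClosed_iff (FractionRing B)]
  rintro x ⟨p, hp, hx⟩
  obtain ⟨a, -, ha⟩ := hB.root_lift x p hp hx
  exact ⟨a, ha⟩

/-- The fraction field of an aic domain is algebraically closed. -/
theorem Aic.isAlgClosed {B : Type} [CommRing B] [IsDomain B] (hB : Aic B) (L : Type) [Field L]
    [Algebra B L] [IsFractionRing B L] : IsAlgClosed L :=
  (hB.of_isLocalization (nonZeroDivisors B)).isAlgClosed_field

/-- Residue fields of aic rings are algebraically closed. -/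
theorem Aic.isAlgClosed_residue {B : Type} [CommRing B] [IsLocalRing B] (hB : Aic B) :
    IsAlgClosed (ResidueField B) :=
  (hB.of_surjective (residue B) residue_surjective).isAlgClosed_field

/-- The integral closure in an aic ring is aic. -/
theorem Aic.integralClosure {L : Type} [CommRing L] (hL : Aic L) (A : Type) [CommRing A]
    [Algebra A L] : Aic (integralClosure A L) := by
  intro p hp hd
  have hinj : Function.Injective (algebraMap (_root_.integralClosure A L) L) := Subtype.val_injective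
  obtain ⟨x, hx⟩ := hL (p.map (algebraMap _ L)) (hp.map _)
    (by rwa [natDegree_map_eq_of_injective hinj])
  rw [eval_map_algebraMap] at hx
  have hi : IsIntegral A x := isIntegral_trans (A := _root_.integralClosure A L) x ⟨p, hp, hx⟩
  refine ⟨⟨x, hi⟩, hinj ?_⟩
  rw [map_zero, ← hx, ← coe_aeval_eq_eval, ← aeval_algebraMap_apply]
  rfl

/-- A point of a finite type algebra with values in the residue field of the base. -/
theorem exists_closed_point {B R κ : Type} [CommRing B] [CommRing R] [Algebra B R]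
    [Algebra.FiniteType B R] [Field κ] [IsAlgClosed κ] [Algebra B κ] {K : Type} [CommRing K]
    [Nontrivial K] [Algebra B K] (i : κ →ₐ[B] K) (ψ : R →ₐ[B] K) :
    ∃ φ : R →ₐ[B] κ, ∀ z, ψ z = 0 → φ z = 0 := by
  let : Algebra κ K := i.toRingHom.toAlgebra
  have : IsScalarTower B κ K := IsScalarTower.of_algebraMap_eq fun b => (i.commutes b).symm
  let Ψ : κ ⊗[B] R →ₐ[κ] K :=
    Algebra.TensorProduct.lift (Algebra.ofId κ K) ψ fun _ _ => Commute.all _ _
  obtain ⟨n, hn, hle⟩ := Ideal.exists_le_maximal (RingHom.ker Ψ) (RingHom.ker_ne_top Ψ)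
  let := Ideal.Quotient.field n
  have : Module.Finite κ ((κ ⊗[B] R) ⧸ n) := finite_of_finite_type_of_isJacobsonRing _ _
  let lam : ((κ ⊗[B] R) ⧸ n) →ₐ[κ] κ := IsAlgClosed.lift
  refine ⟨((lam.comp (Ideal.Quotient.mkₐ κ n)).restrictScalars B).comp
    Algebra.TensorProduct.includeRight, fun z hz => ?_⟩
  have : (1 : κ) ⊗ₜ[B] z ∈ n := hle (by simp [RingHom.mem_ker, Ψ, hz])
  simp [Ideal.Quotient.eq_zero_iff_mem.2 this]

/-- Ind-etaleness over `B[X]` passes to `V[X]`, `V` a localisation, after a translation. -/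
theorem IndEt.poly_loc {B V O : Type} [CommRing B] [CommRing V] [CommRing O] [Algebra B V]
    (M : Submonoid B) [IsLocalization M V] [Algebra B[X] O] [Algebra V[X] O] (H : IndEt B[X] O)
    (a : V) (hC : ∀ b, algebraMap B[X] O (C b) = algebraMap V[X] O (C (algebraMap B V b)))
    (hX : algebraMap B[X] O X = algebraMap V[X] O (X + C a)) : IndEt V[X] O := by
  have h0 := Polynomial.isLocalization M V
  let e : V[X] ≃+* V[X] := (algEquivAevalXAddC a).toRingEquiv
  have h1 := (@IsLocalization.isLocalization_iff_of_ringEquiv B[X] _ (M.map C) V[X] _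
    (Polynomial.algebra B V) V[X] _ e).1 h0
  let : Algebra B[X] V[X] := (e.toRingHom.comp (mapRingHom (algebraMap B V))).toAlgebra
  have h2 : IsLocalization (M.map C) V[X] := h1
  have : IsScalarTower B[X] V[X] O := IsScalarTower.of_algebraMap_eq' (by
    refine Polynomial.ringHom_ext (fun b => ?_) ?_
    · rw [hC]
      simp [RingHom.algebraMap_toAlgebra, e]
    · rw [hX]
      simp [RingHom.algebraMap_toAlgebra, e])
  exact (IndEt.of_isLocalization (M.map C)).cancel H

/-- G5: a nonempty closed subset of an etale `B[X]`-scheme contains the centre of a germ over a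
localisation of `B` (a point closed in its fibre), after a translation `X ↦ X - a`. -/
theorem exists_germ {B R : Type} [CommRing B] [IsDomain B] (hB : Aic B) [CommRing R]
    [Algebra B[X] R] [Algebra B R] [IsScalarTower B B[X] R] [Algebra.Etale B[X] R]
    (I : Ideal R) (hI : I ≠ ⊤) :
    ∃ (P : Ideal B) (_ : P.IsPrime) (O : Type) (_ : CommRing O) (_ : Algebra R O)
      (_ : Algebra (Localization.AtPrime P) O) (_ : Algebra (Localization.AtPrime P)[X] O)
      (_ : IsScalarTower (Localization.AtPrime P) (Localization.AtPrime P)[X] O)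
      (a : Localization.AtPrime P), Germ (Localization.AtPrime P) O ∧ IndEt R O ∧
      (∀ z ∈ I, ¬ IsUnit (algebraMap R O z)) ∧
      (∀ b : B, algebraMap R O (algebraMap B R b) =
        algebraMap (Localization.AtPrime P) O (algebraMap B _ b)) ∧
      algebraMap R O (algebraMap B[X] R X) =
        algebraMap (Localization.AtPrime P)[X] O (X + C a) := by
  obtain ⟨q, hq, hIq⟩ := Ideal.exists_le_maximal I hI
  let P : Ideal B := q.under B
  let V := Localization.AtPrime P
  let κ := P.ResidueField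
  have : IsAlgClosed κ := (hB.of_isLocalization (S := V) P.primeCompl).isAlgClosed_residue
  have : Algebra.FiniteType B R := .trans (S := B[X]) inferInstance inferInstance
  obtain ⟨φ, hφ⟩ := exists_closed_point (κ := κ) (K := q.ResidueField)
    (Ideal.ResidueField.mapₐ P q (Algebra.ofId B R) rfl) (IsScalarTower.toAlgHom B R q.ResidueField)
  let : Algebra R κ := φ.toRingHom.toAlgebra
  obtain ⟨O, _, _, _, _, hO, hind, hloc⟩ := exists_SH R κ
  have hev : ∀ z : R, algebraMap O κ (algebraMap R O z) = φ z := fun z =>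
    (IsScalarTower.algebraMap_apply R O κ z).symm
  have hnu : ∀ y : O, algebraMap O κ y = 0 → ¬ IsUnit y := fun y hy hu =>
    (hu.map (algebraMap O κ)).ne_zero hy
  have hun : ∀ b : P.primeCompl, IsUnit (((algebraMap R O).comp (algebraMap B R)) b) := fun b => by
    refine isUnit_of_map_unit (algebraMap O κ) _ (isUnit_iff_ne_zero.2 ?_)
    rw [RingHom.comp_apply, hev, φ.commutes, Ne, Ideal.algebraMap_residueField_eq_zero]
    exact b.2
  let σ : V →+* O := IsLocalization.lift hun
  have hσ : ∀ b : B, σ (algebraMap B V b) = algebraMap R O (algebraMap B R b) := fun b =>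
    IsLocalization.lift_eq hun b
  have hres : (algebraMap O κ).comp σ = residue V := by
    refine IsLocalization.ringHom_ext P.primeCompl (RingHom.ext fun b => ?_)
    rw [RingHom.comp_apply, RingHom.comp_apply, hσ, hev, φ.commutes]
    rfl
  have hres' : ∀ v : V, algebraMap O κ (σ v) = residue V v := fun v => congr($hres v)
  obtain ⟨a, ha⟩ := residue_surjective (R := V) (φ (algebraMap B[X] R X))
  let x : O := algebraMap R O (algebraMap B[X] R X)
  let : Algebra V O := σ.toAlgebra
  let : Algebra V[X] O := (eval₂RingHom σ (x - σ a)).toAlgebra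
  have hC : ∀ v : V, algebraMap V[X] O (C v) = σ v := fun v => eval₂_C _ _
  have hX : algebraMap V[X] O X = x - σ a := eval₂_X _ _
  have hXa : x = algebraMap V[X] O (X + C a) := by rw [map_add, hX, hC, sub_add_cancel]
  let : Algebra B[X] O := ((algebraMap R O).comp (algebraMap B[X] R)).toAlgebra
  have : IsScalarTower B[X] R O := IsScalarTower.of_algebraMap_eq fun _ => rfl
  refine ⟨P, inferInstance, O, inferInstance, inferInstance, inferInstance, inferInstance,
    IsScalarTower.of_algebraMap_eq fun v => (hC v).symm, a, ⟨hO, ?_, fun v hv => ?_, ?_⟩, hind,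
    fun z hz => hnu _ ?_, fun b => (hσ b).symm, hXa⟩
  · refine (IndEt.etale_comp R hind).poly_loc P.primeCompl a (fun b => ?_) hXa
    rw [hC, hσ, IsScalarTower.algebraMap_apply B B[X] R]
    rfl
  · refine hnu _ ?_
    rw [hC, hres', residue_eq_zero_iff]
    exact hv
  · refine hnu _ ?_
    rw [hX, map_sub, hres', ha, hev, sub_self]
  · rw [hev]
    exact hφ z (Ideal.algebraMap_residueField_eq_zero.2 (hIq hz))

end Pool.Agent.MP_855f4c_ag.E3

end

section

namespace Pool.Agent.MP_855f4c_ag.E

open CategoryTheory Abelian AlgebraicGeometry TensorProduct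

variable {X : Scheme.{0}}

/-- Change of coefficients. -/
noncomputable def Hmap {F G : Sh (Scheme.etaleTopology.over X)} (u : F ⟶ G) (T : Over X) (q : ℕ) : H T F q →+ H T G q :=
  (Ext.mk₀ u).postcomp _ (add_zero q)

/-- Constant sheaves with values in a small group. -/
noncomputable def con (X : Scheme.{0}) : Ab.{0} ⥤ Sh (Scheme.etaleTopology.over X) :=
  AddCommGrpCat.uliftFunctor.{1} ⋙ cst X

/-- The constant sheaf `ℤ/l^n`. -/
noncomputable def Zl (X : Scheme.{0}) (l n : ℕ) : Sh (Scheme.etaleTopology.over X) := (con X).obj (.of (ZMod (l ^ n)))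

/-- The reduction `ℤ/l^(n+1) → ℤ/l^n`. -/
noncomputable def Zr (X : Scheme.{0}) (l n : ℕ) : Zl X l (n + 1) ⟶ Zl X l n :=
  (con X).map (AddCommGrpCat.ofHom
    (ZMod.castHom (pow_dvd_pow l n.le_succ) (ZMod (l ^ n))).toAddMonoidHom)

/-- The limit of a tower of abelian groups. -/
def tlim {A : ℕ → Type 1} [∀ n, AddCommGroup (A n)] (r : ∀ n, A (n + 1) →+ A n) :
    AddSubgroup (∀ n, A n) where
  carrier := {x | ∀ n, r n (x (n + 1)) = x n}
  add_mem' ha hb n := by rw [Pi.add_apply, map_add, ha n, hb n, Pi.add_apply]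
  zero_mem' n := map_zero _
  neg_mem' ha n := by rw [Pi.neg_apply, map_neg, ha n, Pi.neg_apply]

/-- Maps of towers induce maps of limits. -/
def tmap {A B : ℕ → Type 1} [∀ n, AddCommGroup (A n)] [∀ n, AddCommGroup (B n)]
    {r : ∀ n, A (n + 1) →+ A n} {s : ∀ n, B (n + 1) →+ B n} (g : ∀ n, A n →+ B n)
    (h : ∀ n x, s n (g (n + 1) x) = g n (r n x)) : tlim r →+ tlim s where
  toFun x := ⟨fun n => g n (x.1 n), fun n => by rw [h, x.2 n]⟩
  map_zero' := Subtype.ext (funext fun _ => map_zero _)
  map_add' _ _ := Subtype.ext (funext fun _ => map_add _ _ _)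

lemma Hmap_res {T' T : Over X} (g : T' ⟶ T) {F G : Sh (Scheme.etaleTopology.over X)} (u : F ⟶ G) (q : ℕ) (x : H T F q) :
    Hmap u T' q (res g F q x) = res g G q (Hmap u T q x) :=
  Ext.comp_assoc _ _ _ (zero_add q) (add_zero q) (by omega)

/-- `H^i(T, ℚ_l) = ℚ ⊗ lim_n H^i(T, ℤ/l^n)`. -/
abbrev Hl (l i : ℕ) (T : Over X) : Type 1 :=
  ℚ ⊗[ℤ] tlim (A := fun n => H T (Zl X l n) i) fun n => Hmap (Zr X l n) T i

/-- Pull-back on `H^i(-, ℚ_l)`. -/
noncomputable def Hl.res (l i : ℕ) {T' T : Over X} (g : T' ⟶ T) : Hl l i T →ₗ[ℚ] Hl l i T' :=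
  (tmap (fun n => E.res g (Zl X l n) i) fun _ => Hmap_res g _ i).toIntLinearMap.baseChange ℚ

/-- The Galois action on the `l`-adic cohomology of the fibre of `f` at `R → Ω`. -/
noncomputable def gal {R Ω : Type} [CommRing R] [Field Ω] [Algebra R Ω] (f : X ⟶ Spec (.of R))
    (l i : ℕ) (σ : Ω ≃ₐ[R] Ω) : Module.End ℚ (Hl l i ((Over.pullback f).obj
      (Over.mk (Spec.map (CommRingCat.ofHom (algebraMap R Ω)))))) :=
  Hl.res l i ((Over.pullback f).map (sph (σ : Ω →+* Ω) (by
    rw [← Spec.map_comp, ← CommRingCat.ofHom_comp]; congr 2; exact RingHom.ext σ.commutes)))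

/-- For some `m > 0` the monodromy filtration of `u ^ m - 1` exists, is `φ`-stable, and its `a`-th
graded piece is pure of weight `a + i` for `φ` relative to `q`. -/
def Mw {W : Type 1} [AddCommGroup W] [Module ℚ W] (q : ℕ) (i : ℤ) (φ u : Module.End ℚ W) : Prop :=
  ∃ m > 0, ∃ M : ℤ → Submodule ℚ W, Monotone M ∧ (∃ a, M a = ⊥) ∧ (∃ a, M a = ⊤) ∧
    (∀ a, ∀ v ∈ M a, (u ^ m - 1) v ∈ M (a - 2)) ∧
    (∀ r : ℕ, (∀ v ∈ M r, ((u ^ m - 1) ^ r) v ∈ M (-r - 1) → v ∈ M (r - 1)) ∧
      ∀ w ∈ M (-r), ∃ v ∈ M r, w - ((u ^ m - 1) ^ r) v ∈ M (-r - 1)) ∧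
    ∀ a, (∀ v ∈ M a, φ v ∈ M a) ∧ ∃ P : Polynomial ℚ, P ≠ 0 ∧
      (∀ z : ℂ, Polynomial.aeval z P = 0 → ‖z‖ ^ 2 = (q : ℝ) ^ (a + i)) ∧
        ∀ v ∈ M a, Polynomial.aeval φ P v ∈ M (a - 1)

end Pool.Agent.MP_855f4c_ag.E

end

section

set_option autoImplicit false

namespace Pool.Agent.MP_855f4c_ag.E65

open Polynomial

attribute [local instance] MvPolynomial.algebraMvPolynomial in
/-- Polynomial rings in any set of variables over a normal domain are normal. -/
theorem mv_normal (σ R : Type) [CommRing R] [IsDomain R] [IsIntegrallyClosed R] :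
    IsIntegrallyClosed (MvPolynomial σ R) := by
  let K := FractionRing R
  have : IsIntegrallyClosed (MvPolynomial σ K) := UniqueFactorizationMonoid.instIsIntegrallyClosed
  suffices IsIntegrallyClosedIn (MvPolynomial σ R) (MvPolynomial σ K) from
    .of_isIntegrallyClosed_of_isIntegrallyClosedIn _ (MvPolynomial σ K)
  refine isIntegrallyClosedIn_iff.mpr
    ⟨MvPolynomial.map_injective _ (IsFractionRing.injective _ _), fun {p} hp => ?_⟩
  have h : ∀ n, p.coeff n ∈ (algebraMap R K).range := fun n =>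
    IsIntegrallyClosed.isIntegral_iff.mp (MvPolynomial.isIntegral_iff_isIntegral_coeff.1 hp n)
  have : p ∈ Set.range (MvPolynomial.map (σ := σ) (algebraMap R K)) := by
    rw [MvPolynomial.mem_range_map_iff_coeffs_subset]
    intro c hc
    obtain ⟨n, -, rfl⟩ := MvPolynomial.mem_coeffs_iff.1 hc
    exact h n
  exact this

section

variable {B P Ω : Type} [CommRing B] [CommRing P] [Field Ω] [Algebra B Ω] [Algebra B P]
  [Algebra P Ω] [IsScalarTower B P Ω] [IsIntegralClosure P B Ω]

include B in
/-- Monic polynomials split in the integral closure in an algebraically closed field. -/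
theorem ic_splits [IsAlgClosed Ω] (q : P[X]) (hq : q.Monic) : q.Splits := by
  have := IsIntegralClosure.isIntegral_algebra B Ω (A := P)
  refine Splits.of_splits_map_of_injective (i := algebraMap P Ω)
    (IsIntegralClosure.algebraMap_injective P B Ω) (IsAlgClosed.splits _) fun z hz => ?_
  have h1 : IsIntegral P z := ⟨q, hq, by rw [← eval_map]; exact (mem_roots'.1 hz).2⟩
  exact IsIntegralClosure.isIntegral_iff.1 (isIntegral_trans (R := B) z h1)

/-- An algebra endomorphism of the integral closure extends to an automorphism of `Ω`. -/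
theorem ic_extend [IsDomain B] [FaithfulSMul B Ω] [Algebra.IsAlgebraic B Ω] (g : P →ₐ[B] P) :
    ∃ γ : Ω ≃ₐ[B] Ω, ∀ z : P, γ (algebraMap P Ω z) = algebraMap P Ω (g z) := by
  have inj := IsIntegralClosure.algebraMap_injective P B Ω
  have := IsIntegralClosure.isIntegral_algebra B Ω (A := P)
  have : IsDomain P := inj.isDomain _
  have hB : Function.Injective (algebraMap B P) := by
    have := FaithfulSMul.algebraMap_injective B Ω
    rw [IsScalarTower.algebraMap_eq B P Ω] at this
    exact Function.Injective.of_comp this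
  have hg : Function.Injective g := by
    rw [injective_iff_map_eq_zero]
    have : RingHom.ker g.toRingHom = ⊥ := by
      refine Ideal.eq_bot_of_comap_eq_bot (R := B) ?_
      refine eq_bot_iff.2 fun r hr => ?_
      have h1 : g (algebraMap B P r) = 0 := hr
      rw [g.commutes] at h1
      exact (injective_iff_map_eq_zero _).1 hB r h1
    intro a ha
    have h2 : a ∈ RingHom.ker g.toRingHom := ha
    rwa [this] at h2
  have : IsFractionRing P Ω := IsIntegralClosure.isFractionRing_of_algebraic B P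
    ((injective_iff_map_eq_zero _).1 (FaithfulSMul.algebraMap_injective B Ω))
  let j : P →+* Ω := (algebraMap P Ω).comp g.toRingHom
  have hj : Function.Injective j := inj.comp hg
  let γ : Ω →ₐ[B] Ω :=
    { IsFractionRing.lift hj with
      commutes' := fun r => by
        change IsFractionRing.lift hj (algebraMap B Ω r) = _
        rw [IsScalarTower.algebraMap_apply B P Ω, IsFractionRing.lift_algebraMap]
        change algebraMap P Ω (g _) = _
        rw [g.commutes] }
  refine ⟨AlgEquiv.ofBijective γ (Algebra.IsAlgebraic.algHom_bijective γ), fun z => ?_⟩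
  exact IsFractionRing.lift_algebraMap hj z

attribute [local instance] MvPolynomial.algebraMvPolynomial in
/-- TRANS: two points of the absolute integral closure of a normal domain that agree on the base
differ by an automorphism. -/
theorem trans [IsDomain B] [IsIntegrallyClosed B] [IsAlgClosed Ω] [FaithfulSMul B Ω]
    [Algebra.IsAlgebraic B Ω] {k : Type} [CommRing k] [IsDomain k] (b₁ b₂ : P →+* k)
    (h : ∀ r : B, b₁ (algebraMap B P r) = b₂ (algebraMap B P r)) :
    ∃ g : Ω ≃ₐ[B] Ω, ∀ z w : P, algebraMap P Ω w = g (algebraMap P Ω z) → b₁ w = b₂ z := by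
  have inj := IsIntegralClosure.algebraMap_injective P B Ω
  have := IsIntegralClosure.isIntegral_algebra B Ω (A := P)
  have : IsDomain P := inj.isDomain _
  have hB : Function.Injective (algebraMap B P) := by
    have := FaithfulSMul.algebraMap_injective B Ω
    rw [IsScalarTower.algebraMap_eq B P Ω] at this
    exact Function.Injective.of_comp this
  have := mv_normal P B
  have : FaithfulSMul (MvPolynomial P B) (MvPolynomial P P) :=
    (faithfulSMul_iff_algebraMap_injective _ _).2 (MvPolynomial.map_injective _ hB)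
  have : Algebra.IsIntegral (MvPolynomial P B) (MvPolynomial P P) :=
    ⟨fun f => MvPolynomial.isIntegral_iff_isIntegral_coeff.2 fun _ =>
      Algebra.IsIntegral.isIntegral _⟩
  let π : MvPolynomial P B →+* P := MvPolynomial.eval₂Hom (algebraMap B P) id
  have hπ : Function.Surjective π := fun c => ⟨MvPolynomial.X c, by simp [π]⟩
  let m : MvPolynomial P P →+* k := MvPolynomial.eval₂Hom b₂ b₁
  have hm : m.comp (algebraMap (MvPolynomial P B) (MvPolynomial P P)) = b₁.comp π := by
    refine MvPolynomial.ringHom_ext (fun r => ?_) fun c => ?_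
    · simp [m, π, h]
    · simp [m, π]
  have : (RingHom.ker m).IsPrime := RingHom.ker_isPrime _
  have : (RingHom.ker π).IsPrime := RingHom.ker_isPrime _
  obtain ⟨Q, hQ, hp, hl⟩ := Ideal.exists_ideal_le_liesOver_of_le (R := MvPolynomial P B)
    (p := RingHom.ker π) (q := (RingHom.ker m).under (MvPolynomial P B)) (RingHom.ker m)
    (fun f hf => by
      change m (algebraMap _ _ f) = 0
      rw [← RingHom.comp_apply, hm, RingHom.comp_apply, (RingHom.mem_ker).1 hf, map_zero])
  let q : MvPolynomial P B →+* MvPolynomial P P ⧸ Q :=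
    (Ideal.Quotient.mk Q).comp (algebraMap _ _)
  have hq : RingHom.ker π = RingHom.ker q := by
    rw [hl.over]
    ext f
    exact (Ideal.Quotient.eq_zero_iff_mem (I := Q)).symm
  let ι : P →+* MvPolynomial P P ⧸ Q := π.liftOfSurjective hπ ⟨q, hq.le⟩
  have hι : ∀ f, ι (π f) = q f := fun f => π.liftOfRightInverse_comp_apply _ _ ⟨q, hq.le⟩ f
  have hιi : Function.Injective ι := by
    rw [injective_iff_map_eq_zero]
    intro c hc
    obtain ⟨f, rfl⟩ := hπ c
    rw [hι] at hc
    have : f ∈ RingHom.ker π := hq ▸ hc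
    exact this
  have hιs : Function.Surjective ι := by
    let _ : Algebra P (MvPolynomial P P ⧸ Q) := ι.toAlgebra
    intro z
    refine LP.ba_surj (C := P) (ic_splits (B := B) (Ω := Ω)) z ?_
    obtain ⟨y, rfl⟩ := Ideal.Quotient.mk_surjective z
    obtain ⟨f, hf, h0⟩ := Algebra.IsIntegral.isIntegral (R := MvPolynomial P B) y
    refine ⟨f.map π, hf.map π, ?_⟩
    have e : (algebraMap P (MvPolynomial P P ⧸ Q)).comp π = q := RingHom.ext hι
    rw [eval₂_map, e]
    have := congrArg (Ideal.Quotient.mk Q) h0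
    rwa [hom_eval₂, map_zero] at this
  let e := RingEquiv.ofBijective ι ⟨hιi, hιs⟩
  let g : P →ₐ[B] P :=
    { (e.symm : _ →+* P).comp ((Ideal.Quotient.mk Q).comp MvPolynomial.C) with
      commutes' := fun r => by
        change e.symm (Ideal.Quotient.mk Q (MvPolynomial.C (algebraMap B P r))) = _
        rw [RingEquiv.symm_apply_eq]
        have := hι (MvPolynomial.C r)
        simp only [π, q, MvPolynomial.eval₂Hom_C, RingHom.comp_apply] at this
        change _ = ι _
        rw [this]
        simp }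
  obtain ⟨γ, hγ⟩ := ic_extend (Ω := Ω) g
  refine ⟨γ, fun z w hw => ?_⟩
  rw [hγ] at hw
  have h1 : w = e.symm (Ideal.Quotient.mk Q (MvPolynomial.C z)) := inj hw
  have h2 : ι w = Ideal.Quotient.mk Q (MvPolynomial.C z) := by
    rw [h1]; exact e.apply_symm_apply _
  have h3 := hι (MvPolynomial.X w)
  simp only [π, q, MvPolynomial.eval₂Hom_X', RingHom.comp_apply, id] at h3
  rw [h3] at h2
  have h4 : m _ = 0 := hQ (Ideal.Quotient.eq.1 h2)
  simpa [m, sub_eq_zero] using h4

end

end Pool.Agent.MP_855f4c_ag.E65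

end

section

set_option autoImplicit false

namespace Pool.Agent.MP_855f4c_ag.E3

open IsLocalRing Polynomial TensorProduct

/-- The Kummer cover `y ^ e = x` of a `V[X]`-algebra, with `y` as its coordinate. -/
def Kum (V O : Type) [CommRing V] [CommRing O] [Algebra V[X] O] (e : ℕ) : Type :=
  AdjoinRoot (X ^ e - C (algebraMap V[X] O X) : O[X])

namespace Kum

variable (V O : Type) [CommRing V] [CommRing O] [Algebra V[X] O] (e : ℕ)

noncomputable instance : CommRing (Kum V O e) := inferInstanceAs (CommRing (AdjoinRoot _))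

noncomputable instance : Algebra O (Kum V O e) := inferInstanceAs (Algebra O (AdjoinRoot _))

/-- The new coordinate. -/
noncomputable def rt : Kum V O e := AdjoinRoot.root _

noncomputable instance : Algebra V[X] (Kum V O e) :=
  (eval₂RingHom ((algebraMap O (Kum V O e)).comp ((algebraMap V[X] O).comp C))
    (rt V O e)).toAlgebra

theorem alg_X : algebraMap V[X] (Kum V O e) X = rt V O e := eval₂_X _ _

theorem alg_C (a : V) :
    algebraMap V[X] (Kum V O e) (C a) = algebraMap O _ (algebraMap V[X] O (C a)) := eval₂_C _ _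

theorem rt_pow : rt V O e ^ e = algebraMap O _ (algebraMap V[X] O X) := by
  have := AdjoinRoot.eval₂_root (X ^ e - C (algebraMap V[X] O X) : O[X])
  rw [eval₂_sub, eval₂_X_pow, eval₂_C, sub_eq_zero] at this
  exact this

variable {V O e}

/-- Maps out of the Kummer cover. -/
noncomputable def lift {T : Type} [CommRing T] (i : O →+* T) (y : T)
    (h : y ^ e = i (algebraMap V[X] O X)) : Kum V O e →+* T :=
  AdjoinRoot.lift i y (by rw [eval₂_sub, eval₂_X_pow, eval₂_C, h, sub_self])

theorem lift_alg {T : Type} [CommRing T] (i : O →+* T) (y : T)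
    (h : y ^ e = i (algebraMap V[X] O X)) (a : O) : lift i y h (algebraMap O _ a) = i a :=
  AdjoinRoot.lift_of _

theorem lift_rt {T : Type} [CommRing T] (i : O →+* T) (y : T)
    (h : y ^ e = i (algebraMap V[X] O X)) : lift i y h (rt V O e) = y :=
  AdjoinRoot.lift_root _

theorem hom_ext {T : Type} [CommRing T] {f g : Kum V O e →+* T}
    (h1 : ∀ a : O, f (algebraMap O _ a) = g (algebraMap O _ a))
    (h2 : f (rt V O e) = g (rt V O e)) : f = g :=
  AdjoinRoot.ringHom_ext (RingHom.ext h1) h2

theorem exists_aeval (z : Kum V O e) : ∃ g : O[X], aeval (rt V O e) g = z := by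
  obtain ⟨g, rfl⟩ := AdjoinRoot.mk_surjective z
  exact ⟨g, AdjoinRoot.aeval_eq g⟩

theorem aeval_eq_zero {g : O[X]} :
    aeval (rt V O e) g = 0 ↔ (X ^ e - C (algebraMap V[X] O X) : O[X]) ∣ g :=
  (iff_of_eq (congrArg (· = 0) (AdjoinRoot.aeval_eq g))).trans AdjoinRoot.mk_eq_zero

theorem dec (z : Kum V O e) : ∃ (a : O) (w : Kum V O e), z = algebraMap O _ a + rt V O e * w := by
  obtain ⟨g, rfl⟩ := exists_aeval z
  refine ⟨g.coeff 0, aeval (rt V O e) g.divX, ?_⟩
  conv_lhs => rw [← X_mul_divX_add g]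
  rw [map_add, map_mul, aeval_X, aeval_C, add_comm]

theorem finite (he : e ≠ 0) : Module.Finite O (Kum V O e) :=
  (monic_X_pow_sub_C _ he).finite_adjoinRoot

theorem injective (he : e ≠ 0) : Function.Injective (algebraMap O (Kum V O e)) := by
  nontriviality O
  rw [injective_iff_map_eq_zero]
  intro a ha
  have h : (X ^ e - C (algebraMap V[X] O X) : O[X]) ∣ C a := aeval_eq_zero.1 (by simpa using ha)
  by_contra h0
  exact (monic_X_pow_sub_C _ he).not_dvd_of_natDegree_lt (C_ne_zero.2 h0)
    (by rw [natDegree_C, natDegree_X_pow_sub_C]; omega) h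

/-- A copy of the polynomial ring, mapping to `V[X]` by `X ↦ X ^ e`. -/
def Sy (V : Type) [CommRing V] : Type := V[X]

noncomputable instance : CommRing (Sy V) := inferInstanceAs (CommRing V[X])

theorem ind (H : IndEt V[X] O) : IndEt V[X] (Kum V O e) := by
  let _ : Algebra (Sy V) O := ‹Algebra V[X] O›
  let _ : Algebra (Sy V) V[X] := RingHom.toAlgebra (R := Sy V) (expand V e).toRingHom
  have H' : IndEt (Sy V) O := H
  have hc : ∀ r : V[X], algebraMap V[X] (Kum V O e) (expand V e r) =
      algebraMap O (Kum V O e) (algebraMap V[X] O r) := by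
    intro r
    have : (algebraMap V[X] (Kum V O e)).comp (expand V e).toRingHom =
        (algebraMap O (Kum V O e)).comp (algebraMap V[X] O) := by
      refine Polynomial.ringHom_ext (fun a => ?_) ?_
      · simp [alg_C]
      · simp [alg_X, rt_pow]
    exact congrArg (fun f => f r) this
  let _ : Algebra (Sy V) (Kum V O e) :=
    ((algebraMap O (Kum V O e)).comp (algebraMap (Sy V) O)).toAlgebra
  have : IsScalarTower (Sy V) O (Kum V O e) := .of_algebraMap_eq fun _ => rfl
  have : IsScalarTower (Sy V) V[X] (Kum V O e) := .of_algebraMap_eq fun r => (hc r).symm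
  let F : V[X] ⊗[Sy V] O →ₐ[V[X]] Kum V O e := Algebra.TensorProduct.lift (Algebra.ofId _ _)
    (IsScalarTower.toAlgHom _ _ _) fun _ _ => Commute.all _ _
  have hr : ∀ r : V[X], ((expand V e r) ⊗ₜ 1 : V[X] ⊗[Sy V] O) = 1 ⊗ₜ algebraMap V[X] O r :=
    fun r => (Algebra.TensorProduct.algebraMap_apply (R := Sy V) (S := Sy V) r).symm.trans
      (Algebra.TensorProduct.algebraMap_apply' (R := Sy V) r)
  let G : Kum V O e →+* V[X] ⊗[Sy V] O :=
    lift Algebra.TensorProduct.includeRight.toRingHom (X ⊗ₜ 1) (by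
      rw [Algebra.TensorProduct.tmul_pow, one_pow, ← expand_X]
      exact hr X)
  have hG : ∀ r : V[X], G (algebraMap V[X] _ r) = r ⊗ₜ 1 := by
    intro r
    have : G.comp (algebraMap V[X] _) = Algebra.TensorProduct.includeLeftRingHom := by
      refine Polynomial.ringHom_ext (fun a => ?_) ?_
      · rw [RingHom.comp_apply, alg_C, lift_alg]
        exact (hr (C a)).symm.trans (by rw [expand_C]; rfl)
      · rw [RingHom.comp_apply, alg_X, lift_rt]; rfl
    exact congrArg (fun f => f r) this
  refine (H'.baseChange V[X]).of_equiv (AlgEquiv.ofBijective F ⟨?_, fun z => ?_⟩)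
  · refine Function.LeftInverse.injective (g := G) fun t => ?_
    induction t using TensorProduct.induction_on with
    | zero => simp
    | add a b ha hb => rw [map_add, map_add, ha, hb]
    | tmul r o =>
      change G (algebraMap V[X] _ r * algebraMap O _ o) = _
      rw [map_mul, hG, lift_alg]
      simp
  · have : F.toRingHom.comp G = RingHom.id _ := hom_ext (fun a => by
      rw [RingHom.comp_apply, lift_alg]; simp [F]) (by
      rw [RingHom.comp_apply, lift_rt]; simp [F, alg_X])
    exact ⟨G z, congrArg (fun f => f z) this⟩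

/-- The Kummer cover of a local ring at a point with `x = 0` is local. -/
theorem isLocalRing [IsLocalRing O] (hx : ¬ IsUnit (algebraMap V[X] O X)) (he : e ≠ 0) :
    IsLocalRing (Kum V O e) ∧ ¬ IsUnit (rt V O e) ∧ IsLocalHom (algebraMap O (Kum V O e)) := by
  have := finite (V := V) (O := O) he
  let φ : Kum V O e →+* ResidueField O := lift (residue O) 0 (by
    rw [zero_pow he]; exact ((residue_eq_zero_iff _).2 hx).symm)
  have hφ : IsLocalHom φ := ⟨fun z hz => by
    by_contra hu
    obtain ⟨q, hq, hzq⟩ := exists_max_ideal_of_mem_nonunits hu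
    have h1 : q.comap (algebraMap O _) = maximalIdeal O :=
      eq_maximalIdeal (Ideal.isMaximal_comap_of_isIntegral_of_isMaximal q)
    have h2 : rt V O e ∈ q := hq.isPrime.mem_of_pow_mem e (by
      rw [rt_pow, ← Ideal.mem_comap, h1]; exact hx)
    obtain ⟨a, w, rfl⟩ := dec z
    have h3 : a ∈ maximalIdeal O := by
      rw [← h1, Ideal.mem_comap]
      exact (Ideal.add_mem_iff_left _ (q.mul_mem_right _ h2)).1 hzq
    rw [map_add, map_mul, lift_alg, lift_rt, (residue_eq_zero_iff _).2 h3] at hz
    simp at hz⟩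
  refine ⟨φ.domain_isLocalRing, fun h => ?_, ⟨fun a ha => ?_⟩⟩
  · have := h.map φ
    rw [lift_rt] at this
    exact not_isUnit_zero this
  · have := ha.map φ
    rw [lift_alg] at this
    exact isUnit_of_map_unit _ _ this

/-- GERM_e. -/
theorem germ [IsLocalRing V] (h : Germ V O) (he : e ≠ 0) : Germ V (Kum V O e) := by
  have := h.shl
  obtain ⟨_, h1, h2⟩ := isLocalRing h.orig he
  have := finite (V := V) (O := O) he
  exact ⟨SHL.of_finite O _, ind h.ind, fun a ha hu => h.loc a ha
    (isUnit_of_map_unit _ _ (alg_C V O e a ▸ hu)), by rwa [alg_X]⟩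

theorem isDomain [IsDomain V] [IsIntegrallyClosed V] [IsLocalRing O] (H : IndEt V[X] O)
    (hx : ¬ IsUnit (algebraMap V[X] O X)) (he : e ≠ 0) : IsDomain (Kum V O e) :=
  have := (isLocalRing hx he).1
  (ind H).isDomain

/-- Every map to a ring that is injective on `O` is injective. -/
theorem lift_injective [IsDomain (Kum V O e)] (he : e ≠ 0) {T : Type} [CommRing T]
    (f : Kum V O e →+* T) (hf : Function.Injective (f.comp (algebraMap O _))) :
    Function.Injective f := by
  have := finite (V := V) (O := O) he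
  have : Nontrivial O := (algebraMap O (Kum V O e)).domain_nontrivial
  rw [RingHom.injective_iff_ker_eq_bot] at hf ⊢
  exact Ideal.eq_bot_of_comap_eq_bot (R := O) hf

end Kum

/-- The fibre `x = 0` of an ind-etale `V[X]`-algebra. -/
theorem IndEt.fibre {V O : Type} [CommRing V] [CommRing O] [Algebra V[X] O]
    (H : IndEt V[X] O) [Algebra V (O ⧸ Ideal.span {algebraMap V[X] O X})]
    (h : ∀ a : V, algebraMap V (O ⧸ Ideal.span {algebraMap V[X] O X}) a =
      Ideal.Quotient.mk _ (algebraMap V[X] O (C a))) :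
    IndEt V (O ⧸ Ideal.span {algebraMap V[X] O X}) := by
  let _ : Algebra (Kum.Sy V) O := ‹Algebra V[X] O›
  let _ : Algebra (Kum.Sy V) V := RingHom.toAlgebra (R := Kum.Sy V) (evalRingHom 0)
  have H' : IndEt (Kum.Sy V) O := H
  have : IsScalarTower (Kum.Sy V) V (O ⧸ Ideal.span {algebraMap V[X] O X}) :=
    .of_algebraMap_eq fun r : V[X] => by
      change Ideal.Quotient.mk _ (algebraMap V[X] O r) = algebraMap V _ (eval 0 r)
      rw [h, Ideal.Quotient.eq, ← map_sub, Ideal.mem_span_singleton, ← coeff_zero_eq_eval_zero]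
      exact map_dvd _ X_dvd_sub_C
  let F : V ⊗[Kum.Sy V] O →ₐ[V] O ⧸ Ideal.span {algebraMap V[X] O X} :=
    Algebra.TensorProduct.lift (Algebra.ofId _ _) (Ideal.Quotient.mkₐ _ _)
      fun _ _ => Commute.all _ _
  have hr : ∀ r : V[X], ((eval 0 r) ⊗ₜ 1 : V ⊗[Kum.Sy V] O) = 1 ⊗ₜ algebraMap V[X] O r :=
    fun r => (Algebra.TensorProduct.algebraMap_apply (R := Kum.Sy V) (S := Kum.Sy V) r).symm.trans
      (Algebra.TensorProduct.algebraMap_apply' (R := Kum.Sy V) r)
  let G : O ⧸ Ideal.span {algebraMap V[X] O X} →+* V ⊗[Kum.Sy V] O :=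
    Ideal.Quotient.lift _ Algebra.TensorProduct.includeRight.toRingHom fun a ha => by
      obtain ⟨c, rfl⟩ := Ideal.mem_span_singleton.1 ha
      rw [map_mul]
      refine mul_eq_zero_of_left ((hr X).symm.trans ?_) _
      simp
  refine (H'.baseChange V).of_equiv (AlgEquiv.ofBijective F ⟨?_, fun z => ?_⟩)
  · refine Function.LeftInverse.injective (g := G) fun t => ?_
    induction t using TensorProduct.induction_on with
    | zero => simp
    | add a b ha hb => rw [map_add, map_add, ha, hb]
    | tmul r o =>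
      change G (algebraMap V _ r * Ideal.Quotient.mk _ o) = _
      rw [h, map_mul]
      change (1 ⊗ₜ algebraMap V[X] O (C r)) * (1 ⊗ₜ o) = _
      rw [← hr]
      simp
  · obtain ⟨o, rfl⟩ := Ideal.Quotient.mk_surjective z
    exact ⟨1 ⊗ₜ o, by simp [F]⟩

end Pool.Agent.MP_855f4c_ag.E3

end

section

set_option autoImplicit false

namespace Pool.Agent.MP_855f4c_ag.E3

open IsLocalRing Polynomial TensorProduct

/-- `V` is a directed union of discrete valuation rings that it dominates. -/
def Trait (V : Type) [CommRing V] [IsDomain V] : Prop :=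
  ∀ s : Finset V, ∃ W : Subring V, (∀ a ∈ s, a ∈ W) ∧ IsDiscreteValuationRing W ∧
    IsLocalHom W.subtype

/-- A trait has only two primes. -/
theorem Trait.prime {V : Type} [CommRing V] [IsDomain V] [IsLocalRing V] (h : Trait V)
    (P : Ideal V) [hP : P.IsPrime] : P = ⊥ ∨ P = maximalIdeal V := by
  classical
  refine or_iff_not_imp_left.2 fun h0 => le_antisymm (le_maximalIdeal hP.ne_top) fun b hb => ?_
  obtain ⟨a, ha, a0⟩ := P.ne_bot_iff.1 h0
  obtain ⟨W, hW, _, _⟩ := h {a, b}
  have h1 : P.comap W.subtype ≠ ⊥ := fun e => by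
    have : (⟨a, hW a (by simp)⟩ : W) ∈ P.comap W.subtype := ha
    rw [e] at this
    exact a0 (congrArg Subtype.val this)
  have h2 := eq_maximalIdeal (Ring.DimensionLEOne.maximalOfPrime h1 inferInstance)
  have h3 : (⟨b, hW b (by simp)⟩ : W) ∈ P.comap W.subtype := by
    rw [h2]; exact fun hu => hb (hu.map W.subtype)
  exact h3

theorem Trait.ne_bot {V : Type} [CommRing V] [IsDomain V] [IsLocalRing V] (h : Trait V) :
    maximalIdeal V ≠ ⊥ := by
  obtain ⟨W, -, _, _⟩ := h ∅
  obtain ⟨π, hπ⟩ := IsDiscreteValuationRing.exists_irreducible W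
  exact (Submodule.ne_bot_iff _).2 ⟨π, fun hu => hπ.not_isUnit (isUnit_of_map_unit W.subtype π hu),
    fun e => hπ.ne_zero (Subtype.ext e)⟩

theorem adjoin_fin {R E : Type} [CommRing R] [CommRing E] [Algebra R E] (T : Set E) {y : E}
    (hy : y ∈ Algebra.adjoin R T) : ∃ Y : Finset R, ∀ (R₀ : Type) [CommRing R₀] [Algebra R₀ R]
      [Algebra R₀ E] [IsScalarTower R₀ R E], (∀ r ∈ Y, r ∈ (algebraMap R₀ R).range) →
      y ∈ Algebra.adjoin R₀ T := by
  classical
  induction hy using Algebra.adjoin_induction with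
  | mem x hx => exact ⟨∅, fun _ _ _ _ _ _ => Algebra.subset_adjoin hx⟩
  | algebraMap r =>
    refine ⟨{r}, fun R₀ _ _ _ _ h => ?_⟩
    obtain ⟨a, rfl⟩ := h r (by simp)
    rw [← IsScalarTower.algebraMap_apply]
    exact Subalgebra.algebraMap_mem _ a
  | add x y _ _ hx hy =>
    obtain ⟨Y, hY⟩ := hx
    obtain ⟨Y', hY'⟩ := hy
    exact ⟨Y ∪ Y', fun R₀ _ _ _ _ h => add_mem (hY R₀ fun r hr => h r (by simp [hr]))
      (hY' R₀ fun r hr => h r (by simp [hr]))⟩
  | mul x y _ _ hx hy =>
    obtain ⟨Y, hY⟩ := hx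
    obtain ⟨Y', hY'⟩ := hy
    exact ⟨Y ∪ Y', fun R₀ _ _ _ _ h => mul_mem (hY R₀ fun r hr => h r (by simp [hr]))
      (hY' R₀ fun r hr => h r (by simp [hr]))⟩

theorem range_lift {A B E : Type} [CommRing A] [CommRing B] [CommRing E] [Algebra A B]
    [Algebra A E] [DecidableEq E] (β : B →ₐ[A] E) (T : Finset B)
    (hT : Algebra.adjoin A (T : Set B) = ⊤) (R₀ : Type) [CommRing R₀] [Algebra R₀ E] [Algebra A R₀]
    [IsScalarTower A R₀ E] :
    (Algebra.TensorProduct.lift (Algebra.ofId R₀ E) β fun _ _ => Commute.all _ _).range =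
      Algebra.adjoin R₀ (T.image β : Set E) := by
  apply le_antisymm
  · rintro _ ⟨x, rfl⟩
    induction x using TensorProduct.induction_on with
    | zero => rw [map_zero]; exact zero_mem _
    | tmul r b =>
      refine mul_mem (Subalgebra.algebraMap_mem _ r) ?_
      have : β b ∈ Algebra.adjoin A (T.image β : Set E) := by
        rw [Finset.coe_image, ← AlgHom.map_adjoin, hT]
        exact ⟨b, trivial, rfl⟩
      have h1 : Algebra.adjoin A (T.image β : Set E) ≤
          (Algebra.adjoin R₀ (T.image β : Set E)).restrictScalars A :=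
        Algebra.adjoin_le fun _ hx => Algebra.subset_adjoin (R := R₀) hx
      exact (Subalgebra.mem_restrictScalars A).1 (h1 this)
    | add x y hx hy => rw [map_add]; exact add_mem hx hy
  · refine Algebra.adjoin_le fun x hx => ?_
    obtain ⟨b, -, rfl⟩ := Finset.mem_image.1 hx
    exact ⟨1 ⊗ₜ b, by simp⟩

/-- Etale algebras descend to every subring that contains finitely many given elements. -/
theorem etale_desc (R E : Type) [CommRing R] [CommRing E] [Algebra R E] [Algebra.Etale R E] :
    ∃ (T : Finset E) (Y : Finset R), Algebra.adjoin R (T : Set E) = ⊤ ∧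
      ∀ (R₀ : Type) [CommRing R₀] [Algebra R₀ R] [Algebra R₀ E] [IsScalarTower R₀ R E],
        Function.Injective (algebraMap R₀ R) → (∀ r ∈ Y, r ∈ (algebraMap R₀ R).range) →
        ∃ (E₀ : Type) (_ : CommRing E₀) (_ : Algebra R₀ E₀) (_ : Algebra.Etale R₀ E₀)
          (g : E₀ →ₐ[R₀] E), g.range = Algebra.adjoin R₀ (T : Set E) := by
  classical
  obtain ⟨A, B, _, _, ⟨Y, hY⟩, _, ⟨i⟩⟩ := Algebra.Etale.exists_subalgebra_fg ℤ R E
  obtain ⟨T, hT⟩ := (Algebra.FiniteType.out : (⊤ : Subalgebra A B).FG)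
  let β : B →ₐ[A] E := (i.symm.toAlgHom.restrictScalars A).comp Algebra.TensorProduct.includeRight
  refine ⟨T.image β, Y, ?_, fun R₀ _ _ _ _ hi hr => ?_⟩
  · rw [← range_lift β T hT R, eq_top_iff]
    intro x _
    refine ⟨i x, ?_⟩
    have : (Algebra.TensorProduct.lift (Algebra.ofId R E) β fun _ _ => Commute.all _ _) =
        i.symm.toAlgHom := by
      ext b
      simp only [β]
      simp
      rfl
    rw [this]
    simp
  · have hA : ∀ a : A, ∃ r, algebraMap R₀ R r = a := fun a =>
      (hY ▸ Algebra.adjoin_le (S := subalgebraOfSubring (algebraMap R₀ R).range) hr : A ≤ _) a.2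
    choose ψ hψ using hA
    let _ : Algebra A R₀ := RingHom.toAlgebra
      { toFun := ψ
        map_one' := hi (by simp [hψ])
        map_mul' := fun a b => hi (by simp [hψ])
        map_zero' := hi (by simp [hψ])
        map_add' := fun a b => hi (by simp [hψ]) }
    have : IsScalarTower A R₀ E := .of_algebraMap_eq fun a => by
      rw [IsScalarTower.algebraMap_apply R₀ R E]
      exact congrArg _ (hψ a).symm
    exact ⟨R₀ ⊗[A] B, inferInstance, inferInstance, inferInstance, _, range_lift β T hT R₀⟩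

/-- Points of a finite etale algebra in a domain over a strictly henselian ring are rational. -/
theorem SHL.range_le {A T Ω : Type} [CommRing A] [SHL A] [CommRing T] [Algebra A T]
    [Module.Finite A T] [Algebra.Etale A T] [CommRing Ω] [IsDomain Ω] [Algebra A Ω]
    (m : T →ₐ[A] Ω) (t : T) : m t ∈ (algebraMap A Ω).range := by
  have : Module.Finite A m.range :=
    .of_surjective m.rangeRestrict.toLinearMap m.rangeRestrict_surjective
  obtain ⟨n, hn⟩ := Ideal.exists_maximal m.range
  let _ := Ideal.Quotient.field n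
  obtain ⟨s, hs⟩ := SHL.sec_pt2 (A := A) (K := m.range ⧸ n) (by
    rw [IsScalarTower.algebraMap_eq A m.range (m.range ⧸ n), ← RingHom.comap_ker,
      Ideal.Quotient.algebraMap_eq, Ideal.mk_ker]
    exact eq_maximalIdeal (Ideal.isMaximal_comap_of_isIntegral_of_isMaximal n))
    ((Ideal.Quotient.mkₐ A n).comp m.rangeRestrict)
  have := LP.uq ((Algebra.ofId A m.range).comp s) m.rangeRestrict (Ideal.Quotient.mk n) hs
  exact ⟨s t, congrArg (fun f => (f t : Ω)) this⟩

/-- Finitely many elements of a germ over a trait come from a noetherian germ. -/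
theorem exists_stage {V O : Type} [CommRing V] [IsDomain V] [CommRing O] [IsLocalRing O]
    [IsDomain O] [Algebra V[X] O] (hV : Trait V) (H : IndEt V[X] O) (Z : Finset O) :
    ∃ (V₀ : Subring V) (_ : IsDiscreteValuationRing V₀) (_ : IsLocalHom V₀.subtype) (W : Type)
      (_ : CommRing W) (_ : Algebra V₀[X] W) (_ : IsLocalRing W) (_ : IsNoetherianRing W)
      (_ : IsDomain W) (ρ : W →+* O), IndEt V₀[X] W ∧ IsLocalHom ρ ∧ Function.Injective ρ ∧
        (∀ r, ρ (algebraMap V₀[X] W r) = algebraMap V[X] O (r.map V₀.subtype)) ∧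
        ∀ z ∈ Z, z ∈ ρ.range := by
  classical
  obtain ⟨E, _, _, _, -, h, y, -, hy⟩ := H.lift (Algebra.ofId V[X] O) (σ := Z) Subtype.val
  obtain ⟨T, Y, hT, hE⟩ := etale_desc V[X] E
  choose Y' hY' using fun z : Z => adjoin_fin (R := V[X]) (T : Set E) (y := y z) (hT ▸ trivial)
  obtain ⟨V₀, hV₀, _, _⟩ := hV ((Y ∪ Finset.univ.biUnion Y').biUnion Polynomial.coeffs)
  let _ : Algebra V₀[X] V[X] := (mapRingHom V₀.subtype).toAlgebra
  let _ : Algebra V₀[X] E := ((algebraMap V[X] E).comp (algebraMap V₀[X] V[X])).toAlgebra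
  let _ : Algebra V₀[X] O := ((algebraMap V[X] O).comp (algebraMap V₀[X] V[X])).toAlgebra
  have : IsScalarTower V₀[X] V[X] E := .of_algebraMap_eq fun _ => rfl
  have : IsScalarTower V₀[X] V[X] O := .of_algebraMap_eq fun _ => rfl
  have hi : Function.Injective (algebraMap V₀[X] V[X]) := map_injective _ Subtype.val_injective
  have hr : ∀ r ∈ Y ∪ Finset.univ.biUnion Y', r ∈ (algebraMap V₀[X] V[X]).range := fun r hr =>
    ⟨r.toSubring V₀ fun c hc => hV₀ c (Finset.mem_biUnion.2 ⟨r, hr, hc⟩), map_toSubring _ _ _⟩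
  obtain ⟨E₀, _, _, _, g, hg⟩ := hE V₀[X] hi fun r h => hr r (by simp [h])
  let h₀ : E₀ →ₐ[V₀[X]] O := (h.restrictScalars _).comp g
  let q := (maximalIdeal O).comap h₀
  let W := Localization.AtPrime q
  let ρ : W →ₐ[V₀[X]] O := IsLocalization.liftAlgHom (M := q.primeCompl) (f := h₀)
    fun s => notMem_maximalIdeal.1 s.2
  have hρ : ∀ a, ρ (algebraMap E₀ W a) = h₀ a := fun a => IsLocalization.lift_eq _ a
  have hW : IndEt V₀[X] W := (IndEt.of_etale (C := E₀)).comp (IndEt.of_isLocalization q.primeCompl)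
  have := hW.isDomain
  have : IsNoetherianRing E₀ := Algebra.FiniteType.isNoetherianRing V₀[X] E₀
  refine ⟨V₀, ‹_›, ‹_›, W, inferInstance, inferInstance, inferInstance, inferInstance, ‹_›, ρ, hW,
    ⟨fun w hw => ?_⟩, ?_, fun r => ρ.commutes r, fun z hz => ?_⟩
  · obtain ⟨a, s, rfl⟩ := IsLocalization.exists_mk'_eq q.primeCompl w
    refine (IsLocalization.AtPrime.isUnit_mk'_iff W q a s).2 fun ha => ?_
    have h1 : h₀ a = ρ (IsLocalization.mk' W a s) * h₀ s := by
      rw [← hρ, ← hρ, ← map_mul, IsLocalization.mk'_spec]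
    exact ha (h1 ▸ IsUnit.mul hw (notMem_maximalIdeal.1 s.2))
  · rw [injective_iff_map_eq_zero]
    intro w hw
    have : (RingHom.ker (ρ : W →+* O)).IsPrime := RingHom.ker_isPrime _
    obtain ⟨s, hs, hsw⟩ := hW.prime (RingHom.ker (ρ : W →+* O)) hw
    have h1 : (RingHom.ker (ρ : W →+* O)).comap (algebraMap V₀[X] W) = ⊥ := by
      rw [RingHom.comap_ker, ← RingHom.injective_iff_ker_eq_bot, ρ.comp_algebraMap]
      exact H.injective.comp hi
    rw [h1, Ideal.map_bot, Ideal.mem_bot, mul_eq_zero] at hsw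
    exact hsw.resolve_left fun e => hs (e ▸ zero_mem _)
  · obtain ⟨a, ha⟩ : y ⟨z, hz⟩ ∈ g.range := hg ▸ hY' ⟨z, hz⟩ V₀[X] fun r h =>
      hr r (Finset.mem_union_right _ (Finset.mem_biUnion.2 ⟨_, Finset.mem_univ _, h⟩))
    exact ⟨algebraMap E₀ W a, (hρ a).trans ((congrArg h ha).trans (hy _))⟩

end Pool.Agent.MP_855f4c_ag.E3

end

section

/-! Section S, pure algebra: germs of the affine line (G1-G4). -/

set_option autoImplicit false

namespace Pool.Agent.MP_855f4c_ag.E3

open IsLocalRing Polynomial TensorProduct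

theorem aic_normal {B : Type} [CommRing B] [IsDomain B] (hB : Aic B) : IsIntegrallyClosed B :=
  (isIntegrallyClosed_iff (FractionRing B)).2 fun ⟨p, hp, hx⟩ =>
    (hB.root_lift _ p hp hx).imp fun _ h => h.2

theorem aic_algClosed {B : Type} [CommRing B] [IsDomain B] (hB : Aic B) (L : Type) [Field L]
    [Algebra B L] [IsFractionRing B L] : IsAlgClosed L := by
  refine IsAlgClosed.of_exists_root _ fun p hp hi => ?_
  obtain ⟨x, hx⟩ := IsAlgClosed.exists_aeval_eq_zero (AlgebraicClosure L) p
    (degree_pos_of_irreducible hi).ne'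
  have h1 : IsAlgebraic B x := (IsFractionRing.isAlgebraic_iff B L _).2 ⟨p, hp.ne_zero, hx⟩
  obtain ⟨c, hc, q, hq, h2⟩ := h1.exists_integral_multiple
  obtain ⟨a, -, ha⟩ := hB.root_lift _ q hq h2
  have hc' : algebraMap B L c ≠ 0 := by simpa using hc
  refine ⟨algebraMap B L a / algebraMap B L c, (algebraMap L (AlgebraicClosure L)).injective ?_⟩
  rw [map_zero, ← hx, ← aeval_algebraMap_apply_eq_algebraMap_eval, map_div₀,
    ← IsScalarTower.algebraMap_apply, ha, Algebra.smul_def, IsScalarTower.algebraMap_apply B L,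
    mul_div_cancel_left₀ _ (by simpa using hc)]

theorem IndEt.isAlg {R C : Type} [CommRing R] [IsDomain R] [CommRing C] [IsDomain C]
    [Algebra R C] (H : IndEt R C) (hi : Function.Injective (algebraMap R C)) (z : C) :
    IsAlgebraic R z := by
  obtain ⟨E, _, _, _, -, h, y, -, hy⟩ := H.lift (Algebra.ofId R C) (σ := Unit) fun _ => z
  have : FaithfulSMul R C := (faithfulSMul_iff_algebraMap_injective R C).2 hi
  let K := FractionRing R
  let F := FractionRing C
  let _ : Algebra K F := FractionRing.liftAlgebra R F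
  have : Module.Finite K (K ⊗[R] E) := Algebra.FormallyUnramified.finite_of_free _ _
  let φ : K ⊗[R] E →ₐ[K] F := Algebra.TensorProduct.lift (Algebra.ofId K F)
    ((IsScalarTower.toAlgHom R C F).comp h) fun _ _ => .all _ _
  have h1 : IsIntegral K (φ (1 ⊗ₜ y ())) := (Algebra.IsIntegral.isIntegral _).map φ
  have h2 : φ (1 ⊗ₜ y ()) = algebraMap C F z := by simp [φ, hy]
  rw [h2] at h1
  exact (isAlgebraic_algebraMap_iff (IsFractionRing.injective C F)).1
    ((IsFractionRing.isAlgebraic_iff R K F).2 h1.isAlgebraic)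

section
variable {V O : Type} [CommRing V] [IsDomain V] [IsLocalRing V] [CommRing O] [Algebra V[X] O]
  [Algebra V O] [IsScalarTower V V[X] O]

omit [IsDomain V] in
theorem Germ.isLocalHom (h : Germ V O) : IsLocalHom (algebraMap V O) :=
  ⟨fun a ha => by
    by_contra hn
    exact h.loc a hn (by rwa [IsScalarTower.algebraMap_apply V V[X] O] at ha)⟩

omit [IsDomain V] in
/-- The section `X = a`. -/
theorem Germ.exists_sec (hV : Aic V) (h : Germ V O) {a : V} (ha : a ∈ maximalIdeal V) :
    ∃ ψ : O →ₐ[V] V, RingHom.ker ψ = Ideal.span {algebraMap V[X] O (X - C a)} := by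
  have := h.shl
  have := hV.shl
  have := h.isLocalHom
  let I : Ideal O := Ideal.span {algebraMap V[X] O (X - C a)}
  have hI : I ≤ maximalIdeal O := by
    rw [Ideal.span_singleton_le_iff_mem, map_sub]
    exact sub_mem h.orig (h.loc a ha)
  let _ : Algebra V[X] V := (evalRingHom a).toAlgebra
  let K := ResidueField O
  have e1 : ∀ {T : Type} [CommRing T] (f : O →+* T), f (algebraMap V[X] O (X - C a)) = 0 →
      ∀ p : V[X], f (algebraMap V O (p.eval a)) = f (algebraMap V[X] O p) := by
    intro T _ f hf p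
    obtain ⟨q, hq⟩ := X_sub_C_dvd_sub_C_eval (p := p) (a := a)
    rw [IsScalarTower.algebraMap_apply V V[X] O, eq_comm, ← sub_eq_zero, ← map_sub, ← map_sub]
    erw [hq]
    rw [map_mul, map_mul, hf, zero_mul]
  let r : V →ₐ[V[X]] K :=
    { toRingHom := (residue O).comp (algebraMap V O)
      commutes' := e1 (residue O) ((residue_eq_zero_iff _).2 (hI (Ideal.mem_span_singleton_self _))) }
  have : IsLocalHom r := ⟨fun x hx => isUnit_of_map_unit ((residue O).comp (algebraMap V O)) x hx⟩
  obtain ⟨ψ, hψ⟩ := SHL.lift h.ind r (IsScalarTower.toAlgHom V[X] O K)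
  let g : O →ₐ[V[X]] O ⧸ I :=
    AlgHom.comp
      { toRingHom := (Ideal.Quotient.mk I).comp (algebraMap V O)
        commutes' := e1 (Ideal.Quotient.mk I)
          (Ideal.Quotient.eq_zero_iff_mem.2 (Ideal.mem_span_singleton_self _)) } ψ
  let ρ : O ⧸ I →+* K := Ideal.Quotient.lift I (residue O) fun x hx =>
    (residue_eq_zero_iff _).2 (hI hx)
  have : IsLocalHom ρ := ⟨fun x hx => by
    obtain ⟨x, rfl⟩ := Ideal.Quotient.mk_surjective x
    exact (isUnit_of_map_unit (residue O) x hx).map _⟩
  have h1 : g = Ideal.Quotient.mkₐ V[X] I := h.ind.ext ρ fun x => congr($hψ x)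
  refine ⟨⟨ψ.toRingHom, fun v => ?_⟩, le_antisymm (fun x hx => ?_) ?_⟩
  · rw [IsScalarTower.algebraMap_apply V V[X] O]
    exact (ψ.commutes _).trans eval_C
  · have h2 : Ideal.Quotient.mk I (algebraMap V O (ψ x)) = Ideal.Quotient.mk I x := congr($h1 x)
    rw [show ψ x = 0 from hx, map_zero, map_zero, eq_comm, Ideal.Quotient.eq_zero_iff_mem] at h2
    exact h2
  · rw [Ideal.span_singleton_le_iff_mem]
    exact (ψ.commutes _).trans (by change eval a (X - C a) = 0; simp)

omit [IsDomain V] in
/-- G2. -/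
theorem Germ.sec (hV : Aic V) (h : Germ V O) {a : V} (ha : a ∈ maximalIdeal V) :
    Function.Bijective (algebraMap V (O ⧸ Ideal.span {algebraMap V[X] O (X - C a)})) := by
  obtain ⟨ψ, hψ⟩ := h.exists_sec hV ha
  rw [← hψ]
  refine ⟨(injective_iff_map_eq_zero _).2 fun v hv => ?_, fun x => ?_⟩
  · have : ψ (algebraMap V O v) = 0 := Ideal.Quotient.eq_zero_iff_mem.1 hv
    simpa using this
  · obtain ⟨x, rfl⟩ := Ideal.Quotient.mk_surjective x
    exact ⟨ψ x, Ideal.Quotient.eq.2 (by simp [RingHom.mem_ker])⟩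

omit [IsDomain V] [IsScalarTower V V[X] O] in
theorem Germ.isUnit_of_sec (h : Germ V O) (ψ : O →ₐ[V] V) {z : O} (hz : IsUnit (ψ z)) :
    IsUnit z := by
  have := h.shl
  have : IsLocalHom ψ.toRingHom := .of_surjective _ fun v => ⟨algebraMap V O v, ψ.commutes v⟩
  exact isUnit_of_map_unit ψ.toRingHom z hz

omit [IsDomain V] [IsScalarTower V V[X] O] in
theorem Germ.root_unit (h : Germ V O) {n : ℕ} (hn : IsUnit (n : V)) {z : O} (hz : IsUnit z) :
    ∃ w : O, w ^ n = z := by
  have := h.shl
  have hn0 : n ≠ 0 := by rintro rfl; simp at hn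
  have hn1 : (n : ResidueField O) ≠ 0 := by
    simpa using ((hn.map (algebraMap V O)).map (residue O)).ne_zero
  have := SHL.isSepClosed (A := O)
  have : NeZero (n : ResidueField O) := ⟨hn1⟩
  obtain ⟨x, hx⟩ := IsSepClosed.exists_pow_nat_eq (residue O z) n
  have hx0 : x ≠ 0 := by
    rintro rfl
    rw [zero_pow hn0] at hx
    exact (hz.map (residue O)).ne_zero hx.symm
  obtain ⟨w, hw, -⟩ := SHL.root (K := ResidueField O) ker_residue (X ^ n - C z)
    (monic_X_pow_sub_C z hn0) x (by simp [hx]) (by simp [derivative_X_pow, hn1, hx0])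
  exact ⟨w, by simpa [sub_eq_zero] using hw⟩

omit [Algebra V O] [IsScalarTower V V[X] O] in
/-- G1. -/
theorem Germ.dom (hV : Aic V) (h : Germ V O) :
    IsDomain O ∧ IsIntegrallyClosed O ∧ Function.Injective (algebraMap V[X] O) := by
  have := h.shl
  have := aic_normal hV
  have := h.ind.isDomain
  exact ⟨this, h.ind.isIntegrallyClosed, h.ind.injective⟩

variable (L OL : Type) [Field L] [Algebra V L] [IsFractionRing V L] [CommRing OL] [Algebra O OL]
  [Algebra V OL] [IsScalarTower V O OL] [Algebra L OL] [IsScalarTower V L OL]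
  [IsLocalization (Algebra.algebraMapSubmonoid O (nonZeroDivisors V)) OL]

/-- G3: the generic fibre is a principal ideal domain, algebraic over `L[x]`, with residue
fields `L`. -/
theorem Germ.pid [ValuationRing V] (hV : Aic V) (h : Germ V O) :
    IsDomain OL ∧ IsPrincipalIdealRing OL ∧
      (∀ z : OL, IsAlgebraic (Algebra.adjoin L {algebraMap O OL (algebraMap V[X] O X)}) z) ∧
      ∀ n : Ideal OL, n.IsMaximal → n ≠ ⊥ → Function.Bijective (algebraMap L (OL ⧸ n)) := by
  obtain ⟨_, -, hinj⟩ := h.dom hV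
  have := h.shl
  have := aic_algClosed hV L
  let M := Algebra.algebraMapSubmonoid O (nonZeroDivisors V)
  have hM : M ≤ nonZeroDivisors O := by
    rintro _ ⟨v, hv, rfl⟩
    refine mem_nonZeroDivisors_of_ne_zero fun h0 => nonZeroDivisors.ne_zero hv ?_
    rw [IsScalarTower.algebraMap_apply V V[X] O, map_eq_zero_iff _ hinj] at h0
    exact C_eq_zero.1 h0
  have hd : IsDomain OL := IsLocalization.isDomain_of_le_nonZeroDivisors OL hM
  have hi2 : Function.Injective (algebraMap O OL) := IsLocalization.injective OL hM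
  set x := algebraMap O OL (algebraMap V[X] O X) with hx
  have hev : ∀ p : V[X], algebraMap O OL (algebraMap V[X] O p) = aeval x p := fun p =>
    congr($(show (IsScalarTower.toAlgHom V O OL).comp (IsScalarTower.toAlgHom V V[X] O) = aeval x
      from Polynomial.algHom_ext (by simp [hx])) p)
  have hVL : ∀ v : V, algebraMap O OL (algebraMap V O v) = algebraMap L OL (algebraMap V L v) :=
    fun v => by rw [← IsScalarTower.algebraMap_apply, ← IsScalarTower.algebraMap_apply]
  have hz : ∀ z : OL, ∃ (y : O) (c : L), z = algebraMap L OL c * algebraMap O OL y := fun z => by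
    obtain ⟨⟨y, _, v, hv, rfl⟩, e⟩ := IsLocalization.surj M z
    have hv' : algebraMap V L v ≠ 0 := by simpa using nonZeroDivisors.ne_zero hv
    refine ⟨y, (algebraMap V L v)⁻¹, ?_⟩
    rw [← e, hVL, mul_left_comm, ← map_mul, inv_mul_cancel₀ hv', map_one, mul_one]
  have key : ∀ n : Ideal OL, n.IsPrime → n ≠ ⊥ → ∃ a : L, n = Ideal.span {x - algebraMap L OL a} ∧
      ∀ z : OL, ∃ c, z - algebraMap L OL c ∈ n := by
    intro n hn hn0
    obtain ⟨z, hzn, hz0⟩ := Submodule.exists_mem_ne_zero_of_ne_bot hn0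
    obtain ⟨y, c, rfl⟩ := hz z
    have hy : algebraMap O OL y ∈ n := (hn.mem_or_mem hzn).resolve_left fun h1 =>
      hn.ne_top (n.eq_top_of_isUnit_mem h1 ((isUnit_iff_ne_zero.2 (by
        rintro rfl; simp at hz0)).map _))
    obtain ⟨p, hp, hp0⟩ := Submodule.exists_mem_ne_zero_of_ne_bot
      (Ideal.comap_ne_bot_of_algebraic_mem (I := n.comap (algebraMap O OL))
        (by rintro rfl; simp at hz0) hy (h.ind.isAlg hinj y))
    rw [Ideal.mem_comap, Ideal.mem_comap, hev] at hp
    have h1 : IsAlgebraic V (Ideal.Quotient.mkₐ V n x) :=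
      ⟨p, hp0, by rw [aeval_algHom_apply]; exact Ideal.Quotient.eq_zero_iff_mem.2 hp⟩
    have h2 : IsIntegral L (Ideal.Quotient.mk n x) :=
      (h1.extendScalars (IsFractionRing.injective V L)).isIntegral
    obtain ⟨a, ha⟩ := minpoly.mem_range_of_degree_eq_one L _
      (IsAlgClosed.degree_eq_one_of_irreducible L (minpoly.irreducible h2))
    have h3 : x - algebraMap L OL a ∈ n := Ideal.Quotient.eq.1 ha.symm
    have hnu : ∀ w : O, algebraMap O OL w ∈ n → w ∈ maximalIdeal O := fun w hw hu =>
      hn.ne_top (n.eq_top_of_isUnit_mem hw (hu.map _))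
    obtain ⟨a0, ha0, rfl⟩ : ∃ a0 ∈ maximalIdeal V, algebraMap V L a0 = a := by
      have k : ∀ a0, algebraMap V L a0 = a → a0 ∈ maximalIdeal V := fun a0 e hu => by
        have h4 := hnu (algebraMap V[X] O X - algebraMap V O a0) (by rwa [map_sub, hVL, e])
        have h5 := sub_mem (show algebraMap V[X] O X ∈ maximalIdeal O from h.orig) h4
        rw [sub_sub_cancel] at h5
        exact h5 (hu.map _)
      rcases ValuationRing.isInteger_or_isInteger V a with ⟨a0, e⟩ | ⟨b, e⟩
      · exact ⟨a0, k a0 e, e⟩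
      by_cases h0 : a = 0
      · exact ⟨0, zero_mem _, by simp [h0]⟩
      have h4 := hnu (algebraMap V O b * algebraMap V[X] O X - 1) (by
        have := n.mul_mem_left (algebraMap L OL a⁻¹) h3
        rwa [mul_sub, ← map_mul, inv_mul_cancel₀ h0, map_one, ← e, ← hVL, hx, ← map_mul,
          ← map_one (algebraMap O OL), ← map_sub] at this)
      have h5 := sub_mem (Ideal.mul_mem_left _ (algebraMap V O b)
        (show algebraMap V[X] O X ∈ maximalIdeal O from h.orig)) h4
      rw [sub_sub_cancel] at h5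
      exact absurd isUnit_one h5
    obtain ⟨ψ, hψ⟩ := h.exists_sec hV ha0
    have k2 : ∀ z : OL, ∃ c, z - algebraMap L OL c ∈
        Ideal.span {x - algebraMap L OL (algebraMap V L a0)} := fun z => by
      obtain ⟨y, c, rfl⟩ := hz z
      refine ⟨c * algebraMap V L (ψ y), ?_⟩
      have h4 : y - algebraMap V O (ψ y) ∈ RingHom.ker ψ := by simp [RingHom.mem_ker]
      rw [hψ, Ideal.mem_span_singleton] at h4
      rw [map_mul, ← mul_sub, ← hVL (ψ y), ← map_sub, Ideal.mem_span_singleton]
      refine Dvd.dvd.mul_left ?_ _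
      have h5 := map_dvd (algebraMap O OL) h4
      rwa [hev, map_sub, aeval_X, aeval_C, IsScalarTower.algebraMap_apply V L OL] at h5
    have k3 := (Ideal.span_singleton_le_iff_mem _).2 h3
    refine ⟨_, le_antisymm (fun z hz => ?_) k3, fun z => (k2 z).imp fun c hc => k3 hc⟩
    obtain ⟨c, hc⟩ := k2 z
    by_cases h0 : c = 0
    · simpa [h0] using hc
    have h4 := sub_mem hz (k3 hc)
    rw [sub_sub_cancel] at h4
    exact absurd (n.eq_top_of_isUnit_mem h4 ((isUnit_iff_ne_zero.2 h0).map _)) hn.ne_top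
  refine ⟨hd, IsPrincipalIdealRing.of_prime_ne_bot fun n hn hn0 => ?_, fun z => ?_,
    fun n hn hn0 => ⟨(algebraMap L (OL ⧸ n)).injective, fun z => ?_⟩⟩
  · obtain ⟨a, ha, -⟩ := key n hn hn0
    exact ⟨_, ha⟩
  · obtain ⟨y, c, rfl⟩ := hz z
    let x0 : Algebra.adjoin L {x} := ⟨x, Algebra.self_mem_adjoin_singleton _ _⟩
    have e : (algebraMap (Algebra.adjoin L {x}) OL).comp (aeval x0 : V[X] →ₐ[V] _).toRingHom =
        (algebraMap O OL).comp (algebraMap V[X] O) := RingHom.ext fun p =>
      (aeval_algebraMap_apply OL x0 p).symm.trans (hev p).symm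
    refine IsAlgebraic.mul (isAlgebraic_algebraMap (algebraMap L (Algebra.adjoin L {x}) c))
      ((h.ind.isAlg hinj y).ringHom_of_comp_eq (aeval x0 : V[X] →ₐ[V] _).toRingHom
        (algebraMap O OL) ?_ e)
    refine Function.Injective.of_comp (f := algebraMap (Algebra.adjoin L {x}) OL) ?_
    rw [← RingHom.coe_comp, e]
    exact hi2.comp hinj
  · obtain ⟨z, rfl⟩ := Ideal.Quotient.mk_surjective z
    obtain ⟨-, -, h1⟩ := key n hn.isPrime hn0
    obtain ⟨c, hc⟩ := h1 z
    exact ⟨c, (Ideal.Quotient.eq.2 hc).symm⟩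

/-- G4: units of the generic fibre are divisible (content lemma, h86e Cont). -/
theorem Germ.units [ValuationRing V] (hV : Aic V) (h : Germ V O) {n : ℕ} (hn : IsUnit (n : V))
    (u : OL) (hu : IsUnit u) : ∃ w : OL, w ^ n = u := by
  have hn0 : n ≠ 0 := by rintro rfl; simp at hn
  have hr : ∀ c : V, ∃ d : V, d ^ n = c := fun c => by
    obtain ⟨d, hd⟩ := hV (X ^ n - C c) (monic_X_pow_sub_C c hn0) (by rwa [natDegree_X_pow_sub_C])
    exact ⟨d, by simpa [sub_eq_zero] using hd⟩
  let M := Algebra.algebraMapSubmonoid O (nonZeroDivisors V)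
  obtain ⟨u', hu'⟩ := hu.exists_right_inv
  obtain ⟨⟨f, _, v, hv, rfl⟩, e⟩ := IsLocalization.surj M u
  obtain ⟨⟨g, _, v', hv', rfl⟩, e'⟩ := IsLocalization.surj M u'
  dsimp only at e e'
  obtain ⟨⟨_, v'', hv'', rfl⟩, e''⟩ := (IsLocalization.eq_iff_exists M OL).1
    (show algebraMap O OL (f * g) = algebraMap O OL (algebraMap V O (v * v')) by
      rw [map_mul, map_mul, map_mul, ← e, ← e']; linear_combination
        (algebraMap O OL (algebraMap V O v) * algebraMap O OL (algebraMap V O v')) * hu')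
  dsimp only at e''
  obtain ⟨E, _, _, _, j, k, y, hk, hy, hF⟩ := h.ind.solve (Algebra.ofId V[X] O) (τ := Unit)
    ![f, algebraMap V O v'' * g]
    (fun _ => MvPolynomial.X 0 * MvPolynomial.X 1 - MvPolynomial.C (C (v'' * (v * v')))) (fun _ => by
      have : algebraMap V[X] O (C (v'' * (v * v'))) = algebraMap V O (v'' * (v * v')) :=
        (IsScalarTower.algebraMap_apply V V[X] O _).symm
      simp only [MvPolynomial.eval₂_sub, MvPolynomial.eval₂_mul, MvPolynomial.eval₂_X,
        MvPolynomial.eval₂_C, RingHom.coe_coe, Algebra.ofId_apply, this]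
      rw [map_mul, ← e'']
      simp only [Matrix.cons_val_zero, Matrix.cons_val_one]
      ring)
  algebraize [(algebraMap V[X] E).comp (algebraMap V V[X])]
  have : Algebra.FiniteType V E := .trans (S := V[X]) inferInstance inferInstance
  obtain ⟨ψ, -⟩ := h.exists_sec hV (zero_mem _)
  let s : E →ₐ[V] V := ψ.comp (k.restrictScalars V)
  obtain ⟨t, ε, h1, h2, h3⟩ := Cont.exists_exp s
  obtain ⟨i, hi, c, f', -, h4, h5⟩ := Cont.dvd_const s t ε h1 h2 h3 (y 0) (y 1) (v'' * (v * v'))
    (mul_ne_zero (nonZeroDivisors.ne_zero hv'')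
      (mul_ne_zero (nonZeroDivisors.ne_zero hv) (nonZeroDivisors.ne_zero hv'))) (by
      have := hF ()
      simp only [MvPolynomial.eval₂_sub, MvPolynomial.eval₂_mul, MvPolynomial.eval₂_X,
        MvPolynomial.eval₂_C, RingHom.coe_coe, sub_eq_zero] at this
      exact this.trans (j.commutes _))
  have h6 : (1 - k i) * f = algebraMap V O c * k f' := by
    have := congrArg (k.restrictScalars V) h4
    rw [map_mul, map_mul, AlgHom.commutes, map_sub, map_one] at this
    exact (congrArg _ (hy 0).symm).trans this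
  obtain ⟨w1, hw1⟩ := h.root_unit hn (h.isUnit_of_sec ψ (z := k f') h5)
  have hu2 : IsUnit (1 - k i) := h.isUnit_of_sec ψ (by
    rw [map_sub, map_one, show ψ (k i) = 0 from hi, sub_zero]; exact isUnit_one)
  obtain ⟨w2, hw2⟩ := h.root_unit hn hu2
  obtain ⟨d1, rfl⟩ := hr c
  obtain ⟨d2, rfl⟩ := hr v
  have hu3 : IsUnit (algebraMap O OL (w2 * algebraMap V O d2)) := by
    rw [← isUnit_pow_iff hn0, ← map_pow, mul_pow, hw2, map_mul, ← map_pow]
    exact (hu2.map _).mul (IsLocalization.map_units OL (⟨_, _, hv, rfl⟩ : M))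
  obtain ⟨z, hz⟩ := hu3.exists_right_inv
  refine ⟨algebraMap O OL (algebraMap V O d1 * w1) * z, ?_⟩
  have h7 := congrArg (· ^ n) hz
  simp only [mul_pow, one_pow, ← map_pow, hw2] at h7
  rw [mul_pow, ← map_pow, mul_pow, hw1, ← map_pow, ← h6, map_mul, ← e]
  rw [map_mul] at h7
  linear_combination u * h7

end

end Pool.Agent.MP_855f4c_ag.E3

end
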