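import Pool.Agent.MP_855f4c_ag.EC.F1b
import Pool.Agent.MP_855f4c_ag.EC.E3a
import Pool.Agent.MP_855f4c_ag.EC.F2a
import Pool.Agent.MP_855f4c_ag.EC.Sa

section

set_option backward.isDefEq.respectTransparency false

open CategoryTheory Limits Opposite AlgebraicGeometry Abelian

namespace Pool.Agent.MP_855f4c_ag.E

open E3

variable {X : Scheme.{0}} {l : ℕ}

lemma shl_alg {A : Type} [CommRing A] {R : CommRingCat.{0}} (g : Spec R ⟶ Spec (.of A)) [Etale g] :
    ∃ (_ : Algebra A R), Algebra.Etale A R ∧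
      Spec.map (CommRingCat.ofHom (algebraMap A R)) = g := by
  obtain ⟨ψ, rfl⟩ := Spec.map_surjective g
  have : ψ.hom.Etale := (HasRingHomProperty.Spec_iff (P := @Etale)).1 ‹_›
  exact ⟨ψ.hom.toAlgebra, this, rfl⟩

lemma shl_retr {A R : Type} [CommRing A] [CommRing R] [Algebra A R] (s : R →ₐ[A] A) :
    Spec.map (CommRingCat.ofHom (s : R →+* A)) ≫
      Spec.map (CommRingCat.ofHom (algebraMap A R)) = 𝟙 _ := by
  rw [← Spec.map_comp, ← CommRingCat.ofHom_comp, AlgHom.comp_algebraMap]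
  exact Spec.map_id _

theorem shl_lift {A k : Type} [CommRing A] [SHL A] [Field k] (φ : A →+* k) [IsLocalHom φ]
    {U Y : Scheme.{0}} (u : U ⟶ Y) [Etale u] (a : Spec (.of A) ⟶ Y) (y : Spec (.of k) ⟶ U)
    (h : y ≫ u = Spec.map (CommRingCat.ofHom φ) ≫ a) :
    ∃ a' : Spec (.of A) ⟶ U, a' ≫ u = a ∧ Spec.map (CommRingCat.ofHom φ) ≫ a' = y := by
  let z : Spec (.of k) ⟶ pullback a u := pullback.lift _ y h.symm
  obtain ⟨R, j, _, hj, -⟩ := Scheme.exists_affine_mem_range_and_range_subset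
    (x := z default) (U := ⊤) (by simp)
  obtain ⟨χ, hχ⟩ := Spec.map_surjective (IsOpenImmersion.lift j z (by
    rintro _ ⟨t, rfl⟩
    rwa [Subsingleton.elim t default]))
  have hz : Spec.map χ ≫ j = z := by rw [hχ, IsOpenImmersion.lift_fac]
  obtain ⟨_, _, hg⟩ := shl_alg (j ≫ pullback.fst a u)
  let _ : Algebra A k := φ.toAlgebra
  have : IsLocalHom (algebraMap A k) := ‹IsLocalHom φ›
  have e : CommRingCat.ofHom (algebraMap A R) ≫ χ = CommRingCat.ofHom φ := by
    apply Spec.map_injective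
    rw [Spec.map_comp]
    erw [hg]
    rw [reassoc_of% hz, pullback.lift_fst]
  obtain ⟨s, hs⟩ := SHL.sec_pt (A := A) (K := k) (S := R)
    ⟨χ.hom, fun x => congrArg (fun f => f.hom x) e⟩
  refine ⟨Spec.map (CommRingCat.ofHom (s : R →+* A)) ≫ j ≫ pullback.snd a u, ?_, ?_⟩
  · rw [Category.assoc, Category.assoc, ← pullback.condition, ← Category.assoc j, ← hg,
      reassoc_of% shl_retr s]
  · have e2 : CommRingCat.ofHom (s : R →+* A) ≫ CommRingCat.ofHom φ = χ :=
      CommRingCat.hom_ext (RingHom.ext hs)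
    rw [← Spec.map_comp_assoc, e2, reassoc_of% hz, pullback.lift_snd]

instance shl_field (k : Type) [Field k] [IsSepClosed k] : SHL k :=
  have : IsLocalHom (algebraMap k k) := ⟨fun _ h => h⟩
  SHL.of_point k fun _ _ _ _ φ => ⟨φ, fun _ => rfl⟩

theorem shl_sieve {A : Type} [CommRing A] [SHL A] {a : Spec (.of A) ⟶ X} {S : Sieve (Over.mk a)}
    (hS : S ∈ Scheme.etaleTopology.over X _) : S = ⊤ := by
  obtain ⟨V, v, _, _, hv, z, hz⟩ := exists_of_mem_Jov hS (IsLocalRing.closedPoint A)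
  obtain ⟨_, _, hg⟩ := shl_alg (A := A) (V.left.isoSpec.inv ≫ v.left)
  obtain ⟨s, -⟩ := SHL.sec (A := A) Γ(V.left, ⊤) (V.left.isoSpec.hom z).asIdeal
    (PrimeSpectrum.isPrime _) (by
      have : Spec.map (CommRingCat.ofHom (algebraMap A Γ(V.left, ⊤))) (V.left.isoSpec.hom z) =
          IsLocalRing.closedPoint A := by
        rw [hg]
        exact (Scheme.Hom.comp_apply _ _ z).symm.trans
          ((congrArg (fun f : V.left ⟶ _ => f z) (V.left.isoSpec.hom_inv_id_assoc v.left)).trans hz)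
      exact congrArg PrimeSpectrum.asIdeal this)
  have e : (Spec.map (CommRingCat.ofHom (s : _ →+* A)) ≫ V.left.isoSpec.inv) ≫ v.left = 𝟙 _ := by
    rw [Category.assoc, ← hg]; exact shl_retr s
  let σ : Over.mk a ⟶ V := Over.homMk (Spec.map (CommRingCat.ofHom (s : _ →+* A)) ≫
    V.left.isoSpec.inv) (by rw [← Over.w v, ← Category.assoc, e]; exact Category.id_comp _)
  have e' : σ ≫ v = 𝟙 _ := Over.OverMorphism.ext e
  exact Sieve.id_mem_iff_eq_top.1 (e' ▸ S.downward_closed hv σ)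

theorem shl_inj {A : Type} [CommRing A] [SHL A] (a : Spec (.of A) ⟶ X) {P Q : PSh X} (η : P ⟶ Q)
    [Presheaf.IsLocallyInjective (Scheme.etaleTopology.over X) η] : Function.Injective (η.app (op (Over.mk a))) := by
  intro s t h
  have := Sieve.id_mem_iff_eq_top.2 (shl_sieve (Presheaf.equalizerSieve_mem (Scheme.etaleTopology.over X) η s t h))
  exact (res_id P s).symm.trans (Eq.trans this (res_id P t))

theorem shl_surj {A : Type} [CommRing A] [SHL A] (a : Spec (.of A) ⟶ X) {P Q : PSh X} (η : P ⟶ Q)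
    [Presheaf.IsLocallySurjective (Scheme.etaleTopology.over X) η] : Function.Surjective (η.app (op (Over.mk a))) := by
  intro s
  obtain ⟨t, ht⟩ := Sieve.id_mem_iff_eq_top.2 (shl_sieve (Presheaf.imageSieve_mem (Scheme.etaleTopology.over X) η s))
  exact ⟨t, ht.trans (res_id Q s)⟩

theorem Rig.of_locBij {P Q : PSh X} (η : P ⟶ Q) [Presheaf.IsLocallyInjective (Scheme.etaleTopology.over X) η]
    [Presheaf.IsLocallySurjective (Scheme.etaleTopology.over X) η] : Rig l P ↔ Rig l Q := by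
  have key : ∀ (A k : Type) [CommRing A] [SHL A] [Field k] [IsAlgClosed k] (φ : A →+* k)
      (a : Spec (.of A) ⟶ X) (b : Spec (.of k) ⟶ X)
      (h : Spec.map (CommRingCat.ofHom φ) ≫ a = b),
      Function.Bijective (P.map (sph φ h).op) ↔ Function.Bijective (Q.map (sph φ h).op) := by
    intro A k _ _ _ _ φ a b h
    have ha : Function.Bijective (η.app (op (Over.mk a))) := ⟨shl_inj a η, shl_surj a η⟩
    have hb : Function.Bijective (η.app (op (Over.mk b))) := ⟨shl_inj b η, shl_surj b η⟩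
    rw [← hb.of_comp_iff', ← Function.Bijective.of_comp_iff _ ha]
    exact (congrArg Function.Bijective (funext (nat η (sph φ h)))).to_iff
  exact ⟨fun H A k _ _ _ _ φ _ a b h hl => (key A k φ a b h).1 (H A k φ a b h hl),
    fun H A k _ _ _ _ φ _ a b h hl => (key A k φ a b h).2 (H A k φ a b h hl)⟩

theorem wc_surj {A : Type} [CommRing A] (hA : Wc A) (a : Spec (.of A) ⟶ X) {F G : Sh (Scheme.etaleTopology.over X)}
    (φ : F ⟶ G) [Epi φ] : Function.Surjective (φ.hom.app (op (Over.mk a))) := by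
  intro x
  have : IsAffine (Over.mk a).left := inferInstanceAs (IsAffine (Spec _))
  obtain ⟨V, v, _, _, _, t, ht⟩ := lifts_aff (Over.mk a) φ x
  obtain ⟨_, _, hg⟩ := shl_alg (A := A) (V.left.isoSpec.inv ≫ v.left)
  obtain ⟨s⟩ := hA Γ(V.left, ⊤) (by
    have : Surjective (Spec.map (CommRingCat.ofHom (algebraMap A Γ(V.left, ⊤)))) := by
      rw [hg]; infer_instance
    exact this.1)
  have e : (Spec.map (CommRingCat.ofHom (s : _ →+* A)) ≫ V.left.isoSpec.inv) ≫ v.left = 𝟙 _ := by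
    rw [Category.assoc, ← hg]; exact shl_retr s
  let σ : Over.mk a ⟶ V := Over.homMk (Spec.map (CommRingCat.ofHom (s : _ →+* A)) ≫
    V.left.isoSpec.inv) (by rw [← Over.w v, ← Category.assoc, e]; exact Category.id_comp _)
  have e' : σ ≫ v = 𝟙 _ := Over.OverMorphism.ext e
  exact ⟨F.obj.map σ.op t, by rw [nat, ht, res_res, e', res_id]⟩

theorem wc_projective {A : Type} [CommRing A] (hA : Wc A) (a : Spec (.of A) ⟶ X) :
    Projective ((fr (Scheme.etaleTopology.over X)).obj (Over.mk a)) := ⟨fun {E G} f e _ => by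
  obtain ⟨t, ht⟩ := wc_surj hA a e (frEquiv _ _ f)
  obtain ⟨t, rfl⟩ := (frEquiv _ _).surjective t
  exact ⟨t, (frEquiv _ _).injective ((frEquiv_post t e).trans ht)⟩⟩

theorem wc_H {A : Type} [CommRing A] (hA : Wc A) (a : Spec (.of A) ⟶ X) (F : Sh (Scheme.etaleTopology.over X)) (q : ℕ)
    (x : H (Over.mk a) F (q + 1)) : x = 0 :=
  have := wc_projective hA a
  Ext.eq_zero_of_projective x

end Pool.Agent.MP_855f4c_ag.E

end

section

set_option backward.isDefEq.respectTransparency false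

open CategoryTheory Limits Opposite AlgebraicGeometry Abelian

namespace Pool.Agent.MP_855f4c_ag.E

open E3

variable {X : Scheme.{0}} {l : ℕ}

variable {I : Type} [SmallCategory I] [IsCofiltered I] {D : I ⥤ Over X} {c : Cone D}

namespace FIN

lemma et_model {V T : Scheme.{0}} [IsAffine V] [IsAffine T] (v : V ⟶ T) [Etale v] :
    ∃ (V₀ : Scheme.{0}) (A₀ : Type) (_ : CommRing A₀) (v₀ : V₀ ⟶ Spec (.of A₀))
      (t : T ⟶ Spec (.of A₀)) (m : V ⟶ V₀), IsAffine V₀ ∧ Etale v₀ ∧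
      Algebra.FinitePresentation ℤ A₀ ∧ IsPullback v m t v₀ := by
  obtain ⟨φ, hφ⟩ := Spec.map_surjective (V.isoSpec.inv ≫ v ≫ T.isoSpec.hom)
  let _ : Algebra Γ(T, ⊤) Γ(V, ⊤) := φ.hom.toAlgebra
  have : Algebra.Etale Γ(T, ⊤) Γ(V, ⊤) := by
    have : Etale (Spec.map φ) := by rw [hφ]; infer_instance
    exact (HasRingHomProperty.Spec_iff (P := @Etale)).1 this
  obtain ⟨A₀, B₀, _, _, hfg, _, ⟨e⟩⟩ := Algebra.Etale.exists_subalgebra_fg ℤ Γ(T, ⊤) Γ(V, ⊤)
  have : Algebra.FiniteType ℤ A₀ := ⟨A₀.fg_top.mpr hfg⟩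
  have H := isPullback_SpecMap_of_isPushout _ _ _ _
    (CommRingCat.isPushout_tensorProduct A₀ Γ(T, ⊤) B₀)
  let ε : V ≅ Spec (.of (TensorProduct A₀ Γ(T, ⊤) B₀)) :=
    V.isoSpec ≪≫ Scheme.Spec.mapIso e.symm.toRingEquiv.toCommRingCatIso.op
  refine ⟨Spec (.of B₀), A₀, inferInstance, Spec.map (CommRingCat.ofHom (algebraMap A₀ B₀)),
    T.isoSpec.hom ≫ Spec.map (CommRingCat.ofHom (algebraMap A₀ Γ(T, ⊤))),
    ε.hom ≫ Spec.map (CommRingCat.ofHom Algebra.TensorProduct.includeRight.toRingHom),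
    inferInstance, (HasRingHomProperty.Spec_iff (P := @Etale)).2
      (RingHom.etale_algebraMap.2 inferInstance),
    Algebra.FinitePresentation.of_finiteType.1 this, ?_⟩
  refine H.of_iso' ε T.isoSpec (Iso.refl _) (Iso.refl _) ?_ (Category.comp_id _).symm
    (Category.comp_id _).symm ((Category.id_comp _).trans (Category.comp_id _).symm)
  have h1 : V.isoSpec.hom ≫ Spec.map φ = v ≫ T.isoSpec.hom := by rw [hφ, Iso.hom_inv_id_assoc]
  rw [← h1]
  refine (Category.assoc _ _ _).trans (congrArg (V.isoSpec.hom ≫ ·) ?_)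
  exact (Spec.map_comp _ _).symm.trans
    (congrArg Spec.map (CommRingCat.hom_ext (RingHom.ext fun x => e.symm.commutes x)))

lemma isPullback_of_left {P A B T : Over X} {a : P ⟶ A} {b : P ⟶ B} {f : A ⟶ T} {g : B ⟶ T}
    (h : IsPullback a.left b.left f.left g.left) : IsPullback a b f g :=
  IsPullback.of_map_of_faithful (Over.forget X) h

/-- `v` comes from level `i`. -/
def Desc (c : Cone D) {V : Over X} (v : V ⟶ c.pt) (i : I) {V₀ : Over X} (v₀ : V₀ ⟶ D.obj i) :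
    Prop :=
  Aff X V₀ ∧ Etale v₀.left ∧ ∃ m : V ⟶ V₀, IsPullback v m (pr c i) v₀

omit [IsCofiltered I] in
lemma Desc.up (hD : ∀ i, Aff X (D.obj i)) {V : Over X} {v : V ⟶ c.pt} {i j : I} {V₀ : Over X}
    {v₀ : V₀ ⟶ D.obj i} (h : Desc c v i v₀) (f : j ⟶ i) :
    Desc c v j (pullback.fst (D.map f) v₀) := by
  obtain ⟨h1, h2, m, H⟩ := h
  have Q := IsPullback.of_hasPullback (D.map f) v₀
  have w : (v ≫ pr c j) ≫ D.map f = m ≫ v₀ := by rw [Category.assoc, pr_w, H.w]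
  refine ⟨aff_pb _ _ (hD _) (hD _) h1,
    MorphismProperty.of_isPullback (isPullback_left Q).flip h2, pullback.lift _ _ w, ?_⟩
  refine IsPullback.of_bot ?_ (pullback.lift_fst _ _ w).symm Q
  rwa [pullback.lift_snd, pr_w]

end FIN

open FIN

theorem desc_etale (hD : ∀ i, Aff X (D.obj i)) (hc : IsLimit c) {V : Over X} (hV : Aff X V)
    (v : V ⟶ c.pt) [Etale v.left] : ∃ (i : I) (V₀ : Over X) (v₀ : V₀ ⟶ D.obj i) (m : V ⟶ V₀),
      Aff X V₀ ∧ Etale v₀.left ∧ IsPullback v m (pr c i) v₀ := by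
  have : IsAffine V.left := hV
  have := isAffine_lim hD hc
  have (i : I) : IsAffine ((D ⋙ Over.forget X).obj i) := hD i
  obtain ⟨V₀, A₀, _, v₀, t, m, _, _, _, H⟩ := et_model v.left
  have : LocallyOfFinitePresentation (Spec.map (CommRingCat.ofHom (algebraMap ℤ A₀))) :=
    (HasRingHomProperty.Spec_iff (P := @LocallyOfFinitePresentation)).2
      (RingHom.finitePresentation_algebraMap.2 inferInstance)
  obtain ⟨i, g, hg, -⟩ := Scheme.exists_π_app_comp_eq_of_locallyOfFinitePresentation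
    (D ⋙ Over.forget X) ⟨fun i => specZIsTerminal.from _, fun _ _ _ => specZIsTerminal.hom_ext _ _⟩
    (Spec.map (CommRingCat.ofHom (algebraMap ℤ A₀))) _ (limForget hc) t
    (NatTrans.ext (funext fun _ => specZIsTerminal.hom_ext _ _))
  have hg' : (pr c i).left ≫ g = t := hg
  have : IsAffine (D.obj i).left := hD i
  have w : (v.left ≫ (pr c i).left) ≫ g = m ≫ v₀ := by rw [Category.assoc, hg', H.w]
  refine ⟨i, Over.mk (pullback.fst g v₀ ≫ (D.obj i).hom), Over.homMk (pullback.fst g v₀),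
    Over.homMk (pullback.lift _ _ w) ?_, inferInstanceAs (IsAffine (pullback g v₀)),
    (inferInstance : Etale (pullback.fst g v₀)), isPullback_of_left ?_⟩
  · exact (pullback.lift_fst_assoc _ _ w _).trans (Over.w (v ≫ pr c i))
  · refine IsPullback.of_bot ?_ (pullback.lift_fst _ _ w).symm (IsPullback.of_hasPullback g v₀)
    have e : pullback.lift _ _ w ≫ pullback.snd g v₀ = m := pullback.lift_snd _ _ _
    exact e.symm ▸ hg'.symm ▸ H

theorem FIN.desc_fam (hD : ∀ i, Aff X (D.obj i)) (hc : IsLimit c) {ι : Type} [Finite ι]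
    {V : ι → Over X} (v : ∀ l, V l ⟶ c.pt) (hV : ∀ l, Aff X (V l)) (he : ∀ l, Etale (v l).left)
    (hs : ∀ t : c.pt.left, ∃ l, t ∈ Set.range (v l).left) :
    ∃ (i : I) (V₀ : ι → Over X) (v₀ : ∀ l, V₀ l ⟶ D.obj i), (∀ l, Desc c (v l) i (v₀ l)) ∧
      ∀ t : (D.obj i).left, ∃ l, t ∈ Set.range (v₀ l).left := by
  obtain ⟨i₀⟩ := IsCofiltered.nonempty (C := I)
  obtain ⟨i, -, h⟩ := common i₀ (fun l j _ => ∃ (V₀ : Over X) (v₀ : V₀ ⟶ D.obj j), Desc c (v l) j v₀)
    (fun l j k _ g ⟨_, _, h⟩ => ⟨_, _, h.up hD g⟩) fun l => by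
      obtain ⟨i, V₀, v₀, m, h1, h2, h3⟩ := desc_etale hD hc (hV l) (v l)
      exact ⟨_, IsCofiltered.minToLeft i₀ i, _, _,
        Desc.up hD ⟨h1, h2, m, h3⟩ (IsCofiltered.minToRight i₀ i)⟩
  choose V₀ v₀ h using h
  have (i : I) : IsAffine (D.obj i).left := hD i
  obtain ⟨j, f, hf⟩ := open_desc (fun f => inferInstance) (fun i => inferInstance) hc i
    ⟨⋃ l, Set.range (v₀ l).left, isOpen_iUnion fun l =>
      have := (h l).2.1; (v₀ l).left.isOpenMap.isOpen_range⟩ fun t => by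
      obtain ⟨l, x, rfl⟩ := hs t
      obtain ⟨m, H⟩ := (h l).2.2
      exact Set.mem_iUnion.2 ⟨l, m.left x, by
        rw [← Scheme.Hom.comp_apply, ← Scheme.Hom.comp_apply, (isPullback_left H).w]⟩
  refine ⟨j, _, _, fun l => (h l).up hD f, fun t => ?_⟩
  obtain ⟨l, x, hx⟩ := Set.mem_iUnion.1 (hf t)
  obtain ⟨z, hz, -⟩ := Scheme.exists_preimage_of_isPullback
    (isPullback_left (IsPullback.of_hasPullback (D.map f) (v₀ l))) t x hx.symm
  exact ⟨l, z, hz⟩

theorem FIN.fin_cov {T : Over X} [CompactSpace T.left] {S : Sieve T} (hS : S ∈ Scheme.etaleTopology.over X T) :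
    ∃ (ι : Type) (_ : Finite ι) (V : ι → Over X) (v : ∀ l, V l ⟶ T), (∀ l, Aff X (V l)) ∧
      (∀ l, Etale (v l).left) ∧ (∀ l, S (v l)) ∧ ∀ t : T.left, ∃ l, t ∈ Set.range (v l).left := by
  choose V v h1 h2 h3 h4 using exists_of_mem_Jov hS
  obtain ⟨s, hs⟩ := isCompact_univ.elim_finite_subcover (fun t => Set.range (v t).left)
    (fun t => (v t).left.isOpenMap.isOpen_range) fun t _ => Set.mem_iUnion.2 ⟨t, h4 t⟩
  refine ⟨s, inferInstance, fun t => V t, fun t => v t, fun t => h1 t, fun t => h2 t,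
    fun t => h3 t, fun t => ?_⟩
  obtain ⟨x, hx, h⟩ := Set.mem_iUnion₂.1 (hs (Set.mem_univ t))
  exact ⟨⟨x, hx⟩, h⟩

theorem FIN.ofArrows_mem {T : Over X} {ι : Type} {V : ι → Over X} (v : ∀ l, V l ⟶ T)
    (he : ∀ l, Etale (v l).left) (hs : ∀ t : T.left, ∃ l, t ∈ Set.range (v l).left) :
    Sieve.ofArrows V v ∈ Scheme.etaleTopology.over X T :=
  mem_Jov_of _ fun t => let ⟨l, h⟩ := hs t; ⟨_, v l, he l, Sieve.ofArrows_mk V v l, h⟩

theorem finSite (X : Scheme.{0}) : FinSite (Scheme.etaleTopology.over X) (Aff X) where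
  pb := aff_pb
  fin {T} hT S hS := by
    have : IsAffine T.left := hT
    obtain ⟨ι, _, V, v, h1, h2, h3, h4⟩ := fin_cov hS
    exact ⟨ι, inferInstance, V, v, h1, ofArrows_mem v h2 h4, h3⟩
  desc I _ _ D c hD hc S hS := by
    have := isAffine_lim hD hc
    obtain ⟨ι, _, V, v, h1, h2, h3, h4⟩ := fin_cov hS
    obtain ⟨i, V₀, v₀, h, hs⟩ := desc_fam hD hc v h1 h2 h4
    refine ⟨i, ι, inferInstance, V₀, v₀, fun l => (h l).1,
      ofArrows_mem v₀ (fun l => (h l).2.1) hs, fun l => ?_⟩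
    obtain ⟨m, H⟩ := (h l).2.2
    rw [← H.lift_fst (pullback.fst (pr c i) (v₀ l)) (pullback.snd _ _) pullback.condition]
    exact S.downward_closed (h3 l) _

/-- surjective version used for Cech complexes -/
theorem desc_etale_surj (hD : ∀ i, Aff X (D.obj i)) (hc : IsLimit c) {V : Over X} (hV : Aff X V)
    (v : V ⟶ c.pt) [Etale v.left] [Surjective v.left] :
    ∃ (i : I) (V₀ : Over X) (v₀ : V₀ ⟶ D.obj i) (m : V ⟶ V₀),
      Aff X V₀ ∧ Etale v₀.left ∧ Surjective v₀.left ∧ IsPullback v m (pr c i) v₀ := by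
  obtain ⟨i, V₀, v₀, h, hs⟩ := desc_fam hD hc (ι := Unit) (V := fun _ => V) (fun _ => v)
    (fun _ => hV) (fun _ => inferInstance) fun t => ⟨(), v.left.surjective t⟩
  obtain ⟨h1, h2, m, H⟩ := h ()
  exact ⟨i, V₀ (), v₀ (), m, h1, h2, ⟨fun t => (hs t).choose_spec⟩, H⟩

section sys
variable {K : Type} [SmallCategory K] (G : K ⥤ CommRingCat.{0}) (a : ∀ k, Spec (G.obj k) ⟶ X)
  (ha : ∀ {k k'} (f : k ⟶ k'), Spec.map (G.map f) ≫ a k = a k')

/-- The system of affine schemes. -/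
noncomputable def FIN.sysD : Kᵒᵖ ⥤ Over X where
  obj k := Over.mk (a k.unop)
  map f := Over.homMk (Spec.map (G.map f.unop)) (ha f.unop)
  map_id _ := Over.OverMorphism.ext ((congrArg Spec.map (G.map_id _)).trans (Spec.map_id _))
  map_comp _ _ :=
    Over.OverMorphism.ext ((congrArg Spec.map (G.map_comp _ _)).trans (Spec.map_comp _ _))

variable (s : Cocone G) (b : Spec s.pt ⟶ X) (hb : ∀ k, Spec.map (s.ι.app k) ≫ a k = b)

/-- Its cone. -/
noncomputable def FIN.sysC : Cone (sysD G a ha) where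
  pt := Over.mk b
  π := { app k := Over.homMk (Spec.map (s.ι.app k.unop)) (hb k.unop)
         naturality _ _ f := Over.OverMorphism.ext ((Category.id_comp _).trans
           ((congrArg Spec.map (s.w f.unop).symm).trans (Spec.map_comp _ _))) }

/-- It is a limit. -/
noncomputable def FIN.sysL [IsFiltered K] (hs : IsColimit s) : IsLimit (sysC G a ha s b hb) :=
  limOfForget (IsLimit.equivOfNatIsoOfIso
    (show G.op ⋙ Scheme.Spec ≅ sysD G a ha ⋙ Over.forget X from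
      NatIso.ofComponents (fun _ => Iso.refl _) fun _ =>
        (Category.comp_id _).trans (Category.id_comp _).symm) _ _
    (Cone.ext (Iso.refl _) fun _ => (Category.comp_id _).trans (Category.id_comp _).symm)
    (isLimitOfPreserves Scheme.Spec hs.op))

end sys

/-- A filtered system of rings over `X`, as a system of affine schemes. -/
theorem exists_sys {K : Type} [SmallCategory K] [IsFiltered K] (G : K ⥤ CommRingCat.{0})
    (s : Cocone G) (hs : IsColimit s) (a : ∀ k, Spec (G.obj k) ⟶ X)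
    (ha : ∀ {k k'} (f : k ⟶ k'), Spec.map (G.map f) ≫ a k = a k') (b : Spec s.pt ⟶ X)
    (hb : ∀ k, Spec.map (s.ι.app k) ≫ a k = b) {P : PSh X} (hP : LFP P) :
    (∀ x : P.obj (op (Over.mk b)), ∃ k, ∃ t : P.obj (op (Over.mk (a k))),
      P.map (Over.homMk (Spec.map (s.ι.app k)) (hb k) : Over.mk b ⟶ Over.mk (a k)).op t = x) ∧
    ∀ k (t : P.obj (op (Over.mk (a k)))),
      P.map (Over.homMk (Spec.map (s.ι.app k)) (hb k) : Over.mk b ⟶ Over.mk (a k)).op t = 0 →
      ∃ (k' : K) (f : k ⟶ k'), P.map (Over.homMk (Spec.map (G.map f)) (ha f) :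
        Over.mk (a k') ⟶ Over.mk (a k)).op t = 0 := by
  obtain ⟨h1, h2⟩ := hP _ (sysD G a ha) (sysC G a ha s b hb)
    (fun _ => inferInstanceAs (IsAffine (Spec _))) (sysL G a ha s b hb hs)
  refine ⟨fun x => ?_, fun k t ht => ?_⟩
  · obtain ⟨i, t, ht⟩ := h1 x
    exact ⟨i.unop, t, ht⟩
  · obtain ⟨j, f, hf⟩ := h2 (op k) t ht
    exact ⟨j.unop, f.unop, hf⟩

lemma FIN.alg_tri {R E F : Type} [CommRing R] [CommRing E] [CommRing F] [Algebra R E]
    [Algebra R F] (g : E →ₐ[R] F) (a : Spec (.of R) ⟶ X) :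
    Spec.map (CommRingCat.ofHom (g : E →+* F)) ≫
      Spec.map (CommRingCat.ofHom (algebraMap R E)) ≫ a =
      Spec.map (CommRingCat.ofHom (algebraMap R F)) ≫ a := by
  rw [← Category.assoc, ← Spec.map_comp, ← CommRingCat.ofHom_comp, g.comp_algebraMap]

lemma FIN.pres_ring (R C : Type) [CommRing R] [CommRing C] [Algebra R C] (a : Spec (.of R) ⟶ X)
    [IsIso a] : ∃ (I : Type) (_ : SmallCategory I) (_ : IsCofiltered I) (D : I ⥤ Over X)
      (c : Cone D) (_ : IsLimit c)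
      (_ : c.pt ≅ Over.mk (Spec.map (CommRingCat.ofHom (algebraMap R C)) ≫ a)),
      ∀ i, Aff X (D.obj i) ∧ LocallyOfFinitePresentation (D.obj i).hom := by
  have H := Stage.fac_fp (R := R) (C := C)
  have := H.isFiltered
  refine ⟨_, _, inferInstance, _, _, sysL (Stage.diag R C _)
    (fun k => Spec.map (CommRingCat.ofHom (algebraMap R k.E)) ≫ a)
    (fun f => alg_tri f.1 _) (Stage.cocone R C _) _
    (fun k => alg_tri k.φ _) H.isColimit.some, Iso.refl _, fun k =>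
      ⟨inferInstanceAs (IsAffine (Spec _)), ?_⟩⟩
  have : LocallyOfFinitePresentation (Spec.map (CommRingCat.ofHom (algebraMap R k.unop.E))) :=
    (HasRingHomProperty.Spec_iff (P := @LocallyOfFinitePresentation)).2
      (RingHom.finitePresentation_algebraMap.2 inferInstance)
  exact (inferInstance : LocallyOfFinitePresentation
    (Spec.map (CommRingCat.ofHom (algebraMap R k.unop.E)) ≫ a))

/-- every affine over an affine base is a limit of finitely presented affines -/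
theorem pres_fp [IsAffine X] (T : Over X) (hT : Aff X T) :
    ∃ (I : Type) (_ : SmallCategory I) (_ : IsCofiltered I) (D : I ⥤ Over X) (c : Cone D)
      (_ : IsLimit c) (_ : c.pt ≅ T),
      ∀ i, Aff X (D.obj i) ∧ LocallyOfFinitePresentation (D.obj i).hom := by
  have : IsAffine T.left := hT
  obtain ⟨φ, hφ⟩ := Spec.map_surjective (T.left.isoSpec.inv ≫ T.hom ≫ X.isoSpec.hom)
  let _ : Algebra Γ(X, ⊤) Γ(T.left, ⊤) := φ.hom.toAlgebra
  obtain ⟨I, _, _, D, c, hc, e, h⟩ := pres_ring Γ(X, ⊤) Γ(T.left, ⊤) X.isoSpec.inv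
  refine ⟨I, _, inferInstance, D, c, hc, e ≪≫ Over.isoMk T.left.isoSpec.symm ?_, h⟩
  change T.left.isoSpec.inv ≫ T.hom = Spec.map φ ≫ X.isoSpec.inv
  rw [hφ, Category.assoc, Category.assoc, Iso.hom_inv_id, Category.comp_id]

variable {P : PSh X} {R C : Type} [CommRing R] [CommRing C] [Algebra R C]
  {Q : ∀ (E : Type) [CommRing E] [Algebra R E], Prop}
  {a : Spec (.of R) ⟶ X} {b : Spec (.of C) ⟶ X}

lemma FIN.sph_sph {A B E : Type} [CommRing A] [CommRing B] [CommRing E] {φ : A →+* B}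
    {ψ : B →+* E} {χ : A →+* E} (e : ψ.comp φ = χ) {x : Spec (.of A) ⟶ X} {y : Spec (.of B) ⟶ X}
    {z : Spec (.of E) ⟶ X} (h1 : Spec.map (CommRingCat.ofHom φ) ≫ x = y)
    (h2 : Spec.map (CommRingCat.ofHom ψ) ≫ y = z) (h3 : Spec.map (CommRingCat.ofHom χ) ≫ x = z)
    (s : P.obj (op (Over.mk x))) :
    P.map (sph ψ h2).op (P.map (sph φ h1).op s) = P.map (sph χ h3).op s := by
  subst e
  rw [res_res]
  exact congrArg (fun g : Over.mk z ⟶ Over.mk x => P.map g.op s)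
    (Over.OverMorphism.ext (Spec.map_comp _ _).symm)

theorem LFP.fac_surj (hP : LFP P) (H : Stage.Fac R C Q)
    (h : Spec.map (CommRingCat.ofHom (algebraMap R C)) ≫ a = b) (s : P.obj (op (Over.mk b))) :
    ∃ (E : Type) (_ : CommRing E) (_ : Algebra R E) (_ : Algebra.FinitePresentation R E)
      (_ : Q E) (g : E →ₐ[R] C) (e : Spec (.of E) ⟶ X)
      (_ : Spec.map (CommRingCat.ofHom (algebraMap R E)) ≫ a = e)
      (hg : Spec.map (CommRingCat.ofHom (g : E →+* C)) ≫ e = b) (t : P.obj (op (Over.mk e))),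
      P.map (sph _ hg).op t = s := by
  have := H.isFiltered
  obtain ⟨k, t, ht⟩ := (exists_sys (Stage.diag R C Q) (Stage.cocone R C Q) H.isColimit.some
    (fun k => Spec.map (CommRingCat.ofHom (algebraMap R k.E)) ≫ a) (fun f => alg_tri f.1 _) b
    (fun k => (alg_tri k.φ _).trans h) hP).1 s
  exact ⟨k.E, _, _, inferInstance, k.prop, k.φ, _, rfl, (alg_tri k.φ _).trans h, t, ht⟩

theorem LFP.fac_zero (hP : LFP P) (H : Stage.Fac R C Q)
    (h : Spec.map (CommRingCat.ofHom (algebraMap R C)) ≫ a = b) (s : P.obj (op (Over.mk a)))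
    (hs : P.map (sph _ h).op s = 0) :
    ∃ (E : Type) (_ : CommRing E) (_ : Algebra R E) (_ : Algebra.FinitePresentation R E)
      (_ : Q E) (_ : E →ₐ[R] C) (e : Spec (.of E) ⟶ X)
      (he : Spec.map (CommRingCat.ofHom (algebraMap R E)) ≫ a = e),
      P.map (sph _ he).op s = 0 := by
  have := H.isFiltered
  obtain ⟨k⟩ := IsFiltered.nonempty (C := Stage R C Q)
  obtain ⟨k', f, hf⟩ := (exists_sys (Stage.diag R C Q) (Stage.cocone R C Q) H.isColimit.some
    (fun k => Spec.map (CommRingCat.ofHom (algebraMap R k.E)) ≫ a) (fun f => alg_tri f.1 _) b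
    (fun k => (alg_tri k.φ _).trans h) hP).2 k (P.map (sph (algebraMap R k.E) rfl).op s)
    ((sph_sph k.φ.comp_algebraMap rfl ((alg_tri k.φ _).trans h) h s).trans hs)
  exact ⟨k'.E, _, _, inferInstance, k'.prop, k'.φ, _, rfl,
    (sph_sph f.1.comp_algebraMap rfl (alg_tri f.1 _) rfl s).symm.trans hf⟩

lemma FIN.into_union {ι : Type*} [Nonempty ι] (S : ι → Subalgebra R C)
    (hS : Directed (· ≤ ·) S) (hU : ∀ x, ∃ i, x ∈ S i) {E : Type} [CommRing E] [Algebra R E]
    [Algebra.FiniteType R E] (g : E →ₐ[R] C) : ∃ i, ∀ x, g x ∈ S i := by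
  obtain ⟨s, hs⟩ := Algebra.FiniteType.out (R := R) (A := E)
  choose j hj using hU
  obtain ⟨i, hi⟩ := hS.finite_le fun x : s => j (g x)
  exact ⟨i, fun x => (hs.ge.trans (Algebra.adjoin_le (S := (S i).comap g)
    fun y hy => hi ⟨y, hy⟩ (hj _))) Algebra.mem_top⟩

/-- directed unions of subalgebras -/
theorem LFP.union_surj (hP : LFP P) {ι : Type*} [Nonempty ι] (S : ι → Subalgebra R C)
    (hS : Directed (· ≤ ·) S) (hU : ∀ x, ∃ i, x ∈ S i)
    (h : Spec.map (CommRingCat.ofHom (algebraMap R C)) ≫ a = b) (s : P.obj (op (Over.mk b))) :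
    ∃ (i : ι) (e : Spec (.of (S i)) ⟶ X)
      (_ : Spec.map (CommRingCat.ofHom (algebraMap R (S i))) ≫ a = e)
      (hg : Spec.map (CommRingCat.ofHom (algebraMap (S i) C)) ≫ e = b)
      (t : P.obj (op (Over.mk e))), P.map (sph _ hg).op t = s := by
  obtain ⟨E, _, _, _, -, g, _, rfl, hg, t, rfl⟩ := hP.fac_surj Stage.fac_fp h s
  obtain ⟨i, hi⟩ := into_union S hS hU g
  have h2 : Spec.map (CommRingCat.ofHom (algebraMap (S i) C)) ≫
      Spec.map (CommRingCat.ofHom (algebraMap R (S i))) ≫ a = b := (alg_tri (S i).val a).trans h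
  exact ⟨i, _, rfl, h2, _,
    sph_sph (RingHom.ext fun _ => rfl) (alg_tri (g.codRestrict (S i) hi) a) h2 hg t⟩

theorem LFP.union_zero (hP : LFP P) {ι : Type*} [Nonempty ι] (S : ι → Subalgebra R C)
    (hS : Directed (· ≤ ·) S) (hU : ∀ x, ∃ i, x ∈ S i)
    (h : Spec.map (CommRingCat.ofHom (algebraMap R C)) ≫ a = b) (s : P.obj (op (Over.mk a)))
    (hs : P.map (sph _ h).op s = 0) :
    ∃ (i : ι) (e : Spec (.of (S i)) ⟶ X)
      (he : Spec.map (CommRingCat.ofHom (algebraMap R (S i))) ≫ a = e),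
      P.map (sph _ he).op s = 0 := by
  obtain ⟨E, _, _, _, -, g, _, rfl, ht⟩ := hP.fac_zero Stage.fac_fp h s hs
  obtain ⟨i, hi⟩ := into_union S hS hU g
  refine ⟨i, _, rfl, ?_⟩
  rw [← sph_sph (g.codRestrict (S i) hi).comp_algebraMap rfl
    (alg_tri (g.codRestrict (S i) hi) a) rfl s, ht, map_zero]

/-- converse: the ring form implies `LFP` -/
theorem LFP.restrict {Y : Scheme.{0}} (f : Y ⟶ X) (hP : LFP P) : LFP ((Over.map f).op ⋙ P) :=
  fun I _ _ D c hD hc => hP I (D ⋙ Over.map f) ((Over.map f).mapCone c) hD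
    (limOfForget (limForget hc :))

theorem LFP.push {Y : Scheme.{0}} (f : Y ⟶ X) [IsAffineHom f] {P : PSh Y} (hP : LFP P) :
    LFP ((Over.pullback f).op ⋙ P) :=
  fun I _ _ D c hD hc => hP I (D ⋙ Over.pullback f) ((Over.pullback f).mapCone c)
    (fun i => have : IsAffine (D.obj i).left := hD i
      have : IsAffineHom (pullback.fst (D.obj i).hom f) :=
        MorphismProperty.pullback_fst _ _ inferInstance
      isAffine_of_isAffineHom (pullback.fst (D.obj i).hom f))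
    (isLimitOfPreserves _ hc)

theorem Rig.restrict {Y : Scheme.{0}} (f : Y ⟶ X) (hP : Rig l P) :
    Rig l ((Over.map f).op ⋙ P) :=
  fun A k _ _ _ _ φ _ a b h hl =>
    hP A k φ (a ≫ f) (b ≫ f) (by rw [← Category.assoc, h]) hl

theorem Tor.restrict {Y : Scheme.{0}} (f : Y ⟶ X) (hP : Tor l P) :
    Tor l ((Over.map f).op ⋙ P) :=
  fun T hT s => hP ((Over.map f).obj T) hT s

end Pool.Agent.MP_855f4c_ag.E

end

section

set_option backward.isDefEq.respectTransparency false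

open CategoryTheory Limits Opposite AlgebraicGeometry Abelian

namespace Pool.Agent.MP_855f4c_ag.E

open E3

section generic
variable {C : Type 1} [Category.{0} C] {I : Type} [SmallCategory I] [IsCofiltered I] {D : I ⥤ C}

lemma colimAt_iff (P : Cᵒᵖ ⥤ Ab.{1}) (c : Cone D) :
    ColimAt P c ↔ Nonempty (IsColimit (P.mapCocone c.op)) := by
  have : PreservesFilteredColimitsOfSize.{0, 0} (forget Ab.{1}) :=
    preservesFilteredColimitsOfSize_shrink.{0, 1, 0, 1} _
  constructor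
  · rintro ⟨h1, h2⟩
    have : ReflectsColimit (D.op ⋙ P) (forget Ab.{1}) := reflectsColimit_of_reflectsIsomorphisms _ _
    refine ⟨isColimitOfReflects (forget Ab.{1}) (Types.FilteredColimit.isColimitOf' _ _
      (fun x => ?_) fun i x y h => ?_)⟩
    · obtain ⟨i, t, ht⟩ := h1 x
      exact ⟨op i, t, ht.symm⟩
    · obtain ⟨j, f, hf⟩ := h2 i.unop ((x : P.obj (op (D.obj i.unop))) - y)
        ((map_sub _ _ _).trans (sub_eq_zero.2 h))
      rw [map_sub] at hf
      exact ⟨op j, f.op, sub_eq_zero.1 hf⟩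
  · rintro ⟨h⟩
    refine ⟨fun s => ?_, fun i t ht => ?_⟩
    · obtain ⟨i, t, ht⟩ := Concrete.isColimit_exists_rep _ h s
      exact ⟨i.unop, t, ht⟩
    · obtain ⟨j, f, g, e⟩ := Concrete.isColimit_exists_of_rep_eq _ h (i := op i) (j := op i) t 0
        (ht.trans (map_zero _).symm)
      exact ⟨j.unop, f.unop, e.trans (map_zero _)⟩

variable {K : Type*} [Category* K] [HasColimitsOfShape K Ab.{1}] (G : K ⥤ Cᵒᵖ ⥤ Ab.{1})

lemma ColimAt.colim (c : Cone D) (h : ∀ k, ColimAt (G.obj k) c) : ColimAt (colimit G) c := by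
  have := (colimConstAdj (J := K) (C := Ab.{1})).isLeftAdjoint
  have h1 : IsColimit (G.flip.mapCocone c.op) :=
    evaluationJointlyReflectsColimits _ fun k => ((colimAt_iff _ c).1 (h k)).some
  exact (colimAt_iff _ c).2 ⟨IsColimit.mapCoconeEquiv (colimitIsoFlipCompColim G).symm
    (isColimitOfPreserves Limits.colim h1)⟩

lemma bij_colim {T T' : Cᵒᵖ} (g : T ⟶ T') (h : ∀ k, Function.Bijective ((G.obj k).map g)) :
    Function.Bijective ((colimit G).map g) := by
  have (k : K) : IsIso ((G.flip.map g).app k) := (ConcreteCategory.isIso_iff_bijective _).2 (h k)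
  have : IsIso (G.flip.map g) := NatIso.isIso_of_isIso_app _
  have : IsIso ((G.flip ⋙ Limits.colim).map g) := inferInstanceAs (IsIso (Limits.colim.map _))
  exact (ConcreteCategory.isIso_iff_bijective _).1
    ((NatIso.isIso_map_iff (colimitIsoFlipCompColim G) g).2 this)

lemma mem_colim {T : Cᵒᵖ} (N : AddSubgroup ((colimit G).obj T))
    (h : ∀ k x, (colimit.ι G k).app T x ∈ N) (x) : x ∈ N := by
  have : AddCommGrpCat.ofHom (QuotientAddGroup.mk' N) = 0 :=
    (isColimitOfPreserves ((evaluation _ _).obj T) (colimit.isColimit G)).hom_ext fun k =>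
      (AddCommGrpCat.ext fun x => (QuotientAddGroup.eq_zero_iff _).2 (h k x)).trans comp_zero.symm
  exact (QuotientAddGroup.eq_zero_iff x).1 (ConcreteCategory.congr_hom this x)

end generic

/-- Elements killed by a power of `l`. -/
def torS (l : ℕ) (M : Type*) [AddCommGroup M] : AddSubgroup M where
  carrier := {x | ∃ n : ℕ, l ^ n • x = 0}
  zero_mem' := ⟨0, smul_zero _⟩
  add_mem' := by
    rintro a b ⟨n, hn⟩ ⟨m, hm⟩
    exact ⟨n + m, by rw [smul_add, pow_add, mul_smul _ _ b, mul_comm, mul_smul, hn, hm]; simp⟩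
  neg_mem' := fun ⟨n, hn⟩ => ⟨n, by rw [smul_neg, hn, neg_zero]⟩

variable {X : Scheme.{0}} {l : ℕ}

theorem Tor.of_locSurj {P : PSh X} {F : Sh (Scheme.etaleTopology.over X)} (η : P ⟶ F.obj)
    [Presheaf.IsLocallySurjective (Scheme.etaleTopology.over X) η] (h : Tor l P) : Tor l F.obj := by
  intro T hT s
  obtain ⟨ι, _, V, v, hV, hv, hS⟩ := (finSite X).fin hT _ (Presheaf.imageSieve_mem (Scheme.etaleTopology.over X) η s)
  choose p hp using hS
  choose n hn using fun i => h (V i) (hV i) (p i)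
  obtain ⟨N, hN⟩ := (Set.finite_range n).bddAbove
  refine ⟨N, sepP F.property _ _ hv ?_⟩
  rintro Y y ⟨_, a, _, ⟨i⟩, rfl⟩
  obtain ⟨m, hm⟩ := Nat.exists_eq_add_of_le' (hN ⟨i, rfl⟩)
  rw [← res_res, map_nsmul, ← hp, ← map_nsmul, hm, pow_add, mul_smul, hn, smul_zero, map_zero,
    map_zero]

theorem LFP.of_locBij {P : PSh X} {F : Sh (Scheme.etaleTopology.over X)} (η : P ⟶ F.obj)
    [Presheaf.IsLocallyInjective (Scheme.etaleTopology.over X) η] [Presheaf.IsLocallySurjective (Scheme.etaleTopology.over X) η] (h : LFP P) :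
    LFP F.obj := LFPg.of_locBij (finSite X) F.property η h

instance locSurj_of_epi {F G : Sh (Scheme.etaleTopology.over X)} (φ : F ⟶ G) [Epi φ] :
    Presheaf.IsLocallySurjective (Scheme.etaleTopology.over X) φ.hom :=
  (Sheaf.isLocallySurjective_iff_epi' _ φ).2 inferInstance

/-- exactness of sections: sheaf short complexes, elementwise -/
theorem exact_sec {S : ShortComplex (Sh (Scheme.etaleTopology.over X))} (hS : S.Exact) [Mono S.f] (T : Over X) :
    Function.Injective (S.f.hom.app (op T)) ∧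
      ∀ x, S.g.hom.app (op T) x = 0 ↔ ∃ y, S.f.hom.app (op T) y = x := by
  refine ⟨fun x y h => ?_, fun y => ⟨fun h => ?_, ?_⟩⟩
  · obtain ⟨x, rfl⟩ := (frEquiv T _).surjective x
    obtain ⟨y, rfl⟩ := (frEquiv T _).surjective y
    rw [← frEquiv_post, ← frEquiv_post, (frEquiv T _).injective.eq_iff, cancel_mono] at h
    rw [h]
  · obtain ⟨y, rfl⟩ := (frEquiv T _).surjective y
    rw [← frEquiv_post, map_eq_zero_iff _ (frEquiv T _).injective] at h
    obtain ⟨x, rfl⟩ := hS.lift' y h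
    exact ⟨frEquiv T _ x, (frEquiv_post _ _).symm⟩
  · rintro ⟨x, rfl⟩
    obtain ⟨x, rfl⟩ := (frEquiv T _).surjective x
    rw [← frEquiv_post, ← frEquiv_post, Category.assoc, S.zero, comp_zero, map_zero]

theorem mono_sec {F G : Sh (Scheme.etaleTopology.over X)} (φ : F ⟶ G) [Mono φ] (T : Over X) :
    Function.Injective (φ.hom.app (op T)) :=
  (exact_sec (ShortComplex.exact_cokernel φ) T).1

variable {K : Type*} [Category* K] [HasColimitsOfShape K Ab.{1}] {G : K ⥤ Sh (Scheme.etaleTopology.over X)}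
  {c : Cocone G}

/-- the presheaf colimit maps locally bijectively to the sheaf colimit -/
theorem colim_locBij (hc : IsColimit c) :
    Presheaf.IsLocallyInjective (Scheme.etaleTopology.over X) (colimit.desc (G ⋙ sheafToPresheaf _ _)
      ((sheafToPresheaf _ _).mapCocone c)) ∧
    Presheaf.IsLocallySurjective (Scheme.etaleTopology.over X) (colimit.desc (G ⋙ sheafToPresheaf _ _)
      ((sheafToPresheaf _ _).mapCocone c)) := by
  rw [← GrothendieckTopology.W_iff_isLocallyBijective, GrothendieckTopology.W_iff]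
  let adj := sheafificationAdjunction (Scheme.etaleTopology.over X) Ab.{1}
  have := adj.isLeftAdjoint
  have hc' := isColimitOfPreserves (presheafToSheaf (Scheme.etaleTopology.over X) Ab.{1})
    (colimit.isColimit (G ⋙ sheafToPresheaf _ _))
  let w : (G ⋙ sheafToPresheaf _ _) ⋙ presheafToSheaf (Scheme.etaleTopology.over X) Ab.{1} ≅ G :=
    Functor.isoWhiskerLeft G (asIso adj.counit)
  have : (presheafToSheaf (Scheme.etaleTopology.over X) Ab.{1}).map (colimit.desc (G ⋙ sheafToPresheaf _ _)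
      ((sheafToPresheaf _ _).mapCocone c)) ≫ adj.counit.app c.pt =
      (hc'.coconePointsIsoOfNatIso hc w).hom := hc'.hom_ext fun k => by
    rw [IsColimit.comp_coconePointsIsoOfNatIso_hom]
    change (presheafToSheaf _ _).map _ ≫ _ = _
    rw [← Functor.map_comp_assoc]
    erw [colimit.ι_desc]
    exact adj.counit.naturality (c.ι.app k)
  exact IsIso.of_isIso_fac_right this

theorem LFP.colim (hc : IsColimit c) (h : ∀ k, LFP (G.obj k).obj) : LFP c.pt.obj :=
  have := (colim_locBij hc).1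
  have := (colim_locBij hc).2
  LFP.of_locBij (colimit.desc (G ⋙ sheafToPresheaf _ _) ((sheafToPresheaf _ _).mapCocone c))
    fun I _ _ D c hD hc => ColimAt.colim _ c fun k => h k I D c hD hc

theorem Rig.colim (hc : IsColimit c) (h : ∀ k, Rig l (G.obj k).obj) : Rig l c.pt.obj :=
  have := (colim_locBij hc).1
  have := (colim_locBij hc).2
  (Rig.of_locBij (colimit.desc (G ⋙ sheafToPresheaf _ _) ((sheafToPresheaf _ _).mapCocone c))).1
    fun A k _ _ _ _ φ _ a b e hl => bij_colim _ _ fun i => h i A k φ a b e hl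

theorem Tor.colim (hc : IsColimit c) (h : ∀ k, Tor l (G.obj k).obj) : Tor l c.pt.obj :=
  have := (colim_locBij hc).2
  Tor.of_locSurj (colimit.desc (G ⋙ sheafToPresheaf _ _) ((sheafToPresheaf _ _).mapCocone c))
    fun T hT => mem_colim _ (torS l _) fun k x => (h k T hT x).imp fun n hn => by
      rw [← map_nsmul]
      exact (congrArg _ hn).trans (map_zero _)

theorem Cc.colim (hc : IsColimit c) (h : ∀ k, Cc l (G.obj k)) : Cc l c.pt :=
  ⟨LFP.colim hc fun k => (h k).1, Rig.colim hc fun k => (h k).2⟩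
theorem Tc.colim (hc : IsColimit c) (h : ∀ k, Tc l (G.obj k)) : Tc l c.pt :=
  ⟨Cc.colim hc fun k => (h k).1, Tor.colim hc fun k => (h k).2⟩

theorem Tor.of_mono {F G : Sh (Scheme.etaleTopology.over X)} (φ : F ⟶ G) [Mono φ] (h : Tor l G.obj) : Tor l F.obj :=
  fun T hT s => (h T hT (φ.hom.app _ s)).imp fun n hn =>
    mono_sec φ T (by rw [map_nsmul, hn, map_zero])
theorem Tor.of_epi {F G : Sh (Scheme.etaleTopology.over X)} (φ : F ⟶ G) [Epi φ] (h : Tor l F.obj) : Tor l G.obj :=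
  Tor.of_locSurj φ.hom h

theorem Cc.of_iso {F G : Sh (Scheme.etaleTopology.over X)} (e : F ≅ G) (h : Cc l F) : Cc l G :=
  have : IsIso e.hom.hom := inferInstanceAs (IsIso ((sheafToPresheaf _ _).map e.hom))
  ⟨LFP.of_locBij e.hom.hom h.1, (Rig.of_locBij e.hom.hom).1 h.2⟩
theorem Tc.of_iso {F G : Sh (Scheme.etaleTopology.over X)} (e : F ≅ G) (h : Tc l F) : Tc l G :=
  ⟨h.1.of_iso e, h.2.of_epi e.hom⟩

section
variable {S : ShortComplex (Sh (Scheme.etaleTopology.over X))}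

theorem LFP.X₁ (hS : S.Exact) [Mono S.f] (h2 : LFP S.X₂.obj)
    (h3 : LFP S.X₃.obj) : LFP S.X₁.obj := by
  intro I _ _ D c hD hc
  refine ⟨fun s => ?_, fun i t ht => ?_⟩
  · obtain ⟨i, t, ht⟩ := (h2 I D c hD hc).1 (S.f.hom.app _ s)
    obtain ⟨j, f, hf⟩ := (h3 I D c hD hc).2 i (S.g.hom.app _ t) (by
      rw [← nat, ht]
      exact ((exact_sec hS _).2 _).2 ⟨s, rfl⟩)
    obtain ⟨y, hy⟩ := ((exact_sec hS _).2 _).1 ((nat S.g.hom _ t).trans hf)
    exact ⟨j, y, (exact_sec hS _).1 (by rw [nat, hy, res_res, pr_w, ht])⟩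
  · obtain ⟨j, f, hf⟩ := (h2 I D c hD hc).2 i (S.f.hom.app _ t) (by rw [← nat, ht, map_zero])
    exact ⟨j, f, (exact_sec hS _).1 (by rw [nat, hf, map_zero])⟩

theorem LFP.X₂ (hS : S.ShortExact) (h1 : LFP S.X₁.obj)
    (h3 : LFP S.X₃.obj) : LFP S.X₂.obj :=
  have := hS.mono_f
  have := hS.epi_g
  LFPg.ext (finSite X) S.X₂.property S.f.hom S.g.hom
    (fun T _ h => (exact_sec hS.exact T.unop).1 (h.trans (map_zero _).symm))
    (fun T => (exact_sec hS.exact T.unop).2) h1 h3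

theorem LFP.X₃ (hS : S.Exact) [Epi S.g] (h1 : LFP S.X₁.obj)
    (h2 : LFP S.X₂.obj) : LFP S.X₃.obj :=
  LFP.colim hS.gIsCokernel (by rintro (_ | _) <;> assumption)

theorem Rig.X₁ (hS : S.Exact) [Mono S.f] (h2 : Rig l S.X₂.obj) (h3 : Rig l S.X₃.obj) :
    Rig l S.X₁.obj := by
  intro A k _ _ _ _ φ _ a b e hl
  refine ⟨fun x y h => (exact_sec hS _).1 ((h2 A k φ a b e hl).1 (by rw [← nat, ← nat, h])),
    fun y => ?_⟩
  obtain ⟨t, ht⟩ := (h2 A k φ a b e hl).2 (S.f.hom.app _ y)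
  obtain ⟨x, rfl⟩ := ((exact_sec hS _).2 t).1 ((h3 A k φ a b e hl).1 (by
    rw [← nat, ht, map_zero]
    exact ((exact_sec hS _).2 _).2 ⟨y, rfl⟩))
  exact ⟨x, (exact_sec hS _).1 (by rw [nat, ht])⟩

theorem Rig.X₂ (hS : S.ShortExact) (h1 : Rig l S.X₁.obj) (h3 : Rig l S.X₃.obj) :
    Rig l S.X₂.obj := by
  have := hS.mono_f
  have := hS.epi_g
  intro A k _ _ _ _ φ _ a b e hl
  refine ⟨(injective_iff_map_eq_zero _).2 fun x h => ?_, fun y => ?_⟩
  · obtain ⟨x, rfl⟩ := ((exact_sec hS.exact _).2 x).1 ((h3 A k φ a b e hl).1 (by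
      rw [← nat, map_zero]
      exact (congrArg _ h).trans (map_zero _)))
    have : x = 0 := (h1 A k φ a b e hl).1 ((exact_sec hS.exact _).1 (by
      rw [nat, map_zero, map_zero]; exact h))
    rw [this, map_zero]
  · obtain ⟨t, ht⟩ := (h3 A k φ a b e hl).2 (S.g.hom.app _ y)
    obtain ⟨t, rfl⟩ := shl_surj a S.g.hom t
    obtain ⟨x, hx⟩ := ((exact_sec hS.exact _).2 (y - S.X₂.obj.map (sph φ e).op t)).1 (by
      rw [map_sub, nat, ht, sub_self])
    obtain ⟨x, rfl⟩ := (h1 A k φ a b e hl).2 x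
    exact ⟨S.f.hom.app _ x + t, by rw [map_add, ← nat, hx, sub_add_cancel]⟩

theorem Rig.X₃ (hS : S.Exact) [Epi S.g] (h1 : Rig l S.X₁.obj) (h2 : Rig l S.X₂.obj) :
    Rig l S.X₃.obj :=
  Rig.colim hS.gIsCokernel (by rintro (_ | _) <;> assumption)

theorem Cc.X₁ (hS : S.Exact) [Mono S.f] (h2 : Cc l S.X₂)
    (h3 : Cc l S.X₃) : Cc l S.X₁ := ⟨LFP.X₁ hS h2.1 h3.1, Rig.X₁ hS h2.2 h3.2⟩
theorem Cc.X₂ (hS : S.ShortExact) (h1 : Cc l S.X₁)
    (h3 : Cc l S.X₃) : Cc l S.X₂ := ⟨LFP.X₂ hS h1.1 h3.1, Rig.X₂ hS h1.2 h3.2⟩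
theorem Cc.X₃ (hS : S.Exact) [Epi S.g] (h1 : Cc l S.X₁)
    (h2 : Cc l S.X₂) : Cc l S.X₃ := ⟨LFP.X₃ hS h1.1 h2.1, Rig.X₃ hS h1.2 h2.2⟩

theorem Tor.X₂ (hS : S.Exact) (h1 : Tor l S.X₁.obj)
    (h3 : Tor l S.X₃.obj) : Tor l S.X₂.obj := by
  intro T hT s
  have := S.exact_iff_epi_kernel_lift.1 hS
  obtain ⟨n, hn⟩ := h3 T hT (S.g.hom.app _ s)
  obtain ⟨y, hy⟩ := ((exact_sec (ShortComplex.exact_kernel S.g) T).2 (l ^ n • s)).1
    ((map_nsmul _ _ _).trans hn)
  obtain ⟨m, hm⟩ := h1.of_epi (kernel.lift S.g S.f S.zero) T hT y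
  exact ⟨m + n, by rw [pow_add, mul_smul, ← hy, ← map_nsmul, hm, map_zero]⟩

theorem Tc.X₂ (hS : S.ShortExact) (h1 : Tc l S.X₁)
    (h3 : Tc l S.X₃) : Tc l S.X₂ := ⟨Cc.X₂ hS h1.1 h3.1, Tor.X₂ hS.exact h1.2 h3.2⟩

end

theorem Cc.ker {F G : Sh (Scheme.etaleTopology.over X)} (φ : F ⟶ G) (hF : Cc l F) (hG : Cc l G) : Cc l (kernel φ) :=
  Cc.X₁ (ShortComplex.exact_kernel φ) hF hG
theorem Cc.coker {F G : Sh (Scheme.etaleTopology.over X)} (φ : F ⟶ G) (hF : Cc l F) (hG : Cc l G) :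
    Cc l (cokernel φ) := Cc.X₃ (ShortComplex.exact_cokernel φ) hF hG
theorem Tc.ker {F G : Sh (Scheme.etaleTopology.over X)} (φ : F ⟶ G) (hF : Tc l F) (hG : Cc l G) : Tc l (kernel φ) :=
  ⟨Cc.ker φ hF.1 hG, hF.2.of_mono (kernel.ι φ)⟩
theorem Tc.coker {F G : Sh (Scheme.etaleTopology.over X)} (φ : F ⟶ G) (hF : Cc l F) (hG : Tc l G) :
    Tc l (cokernel φ) := ⟨Cc.coker φ hF hG.1, hG.2.of_epi (cokernel.π φ)⟩
theorem Cc.image {F G : Sh (Scheme.etaleTopology.over X)} (φ : F ⟶ G) (hF : Cc l F) (hG : Cc l G) :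
    Cc l (Abelian.image φ) := Cc.ker _ hG (Cc.coker φ hF hG)
theorem Tc.image {F G : Sh (Scheme.etaleTopology.over X)} (φ : F ⟶ G) (hF : Tc l F) (hG : Cc l G) :
    Tc l (Abelian.image φ) := ⟨Cc.image φ hF.1 hG, hF.2.of_epi (Abelian.factorThruImage φ)⟩
theorem Cc.biprod {F G : Sh (Scheme.etaleTopology.over X)} (hF : Cc l F) (hG : Cc l G) : Cc l (F ⊞ G) :=
  Cc.colim (BinaryBiproduct.isColimit F G) (by rintro ⟨_ | _⟩ <;> assumption)
theorem Tc.biprod {F G : Sh (Scheme.etaleTopology.over X)} (hF : Tc l F) (hG : Tc l G) : Tc l (F ⊞ G) :=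
  Tc.colim (BinaryBiproduct.isColimit F G) (by rintro ⟨_ | _⟩ <;> assumption)
theorem Tc.sigma {ι : Type 1} (F : ι → Sh (Scheme.etaleTopology.over X)) (h : ∀ i, Tc l (F i)) : Tc l (∐ F) :=
  Tc.colim (colimit.isColimit (Discrete.functor F)) fun i => h i.as

theorem Cc.pb {Y : Scheme.{0}} (f : Y ⟶ X) {F : Sh (Scheme.etaleTopology.over X)} (h : Cc l F) :
    Cc l ((pb (J := Scheme.etaleTopology) f).obj F) := ⟨h.1.restrict f, h.2.restrict f⟩
theorem Tc.pb {Y : Scheme.{0}} (f : Y ⟶ X) {F : Sh (Scheme.etaleTopology.over X)} (h : Tc l F) :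
    Tc l ((pb (J := Scheme.etaleTopology) f).obj F) := ⟨h.1.pb f, h.2.restrict f⟩

end Pool.Agent.MP_855f4c_ag.E

end

section

set_option backward.isDefEq.respectTransparency false

open CategoryTheory Limits Opposite AlgebraicGeometry Abelian

namespace Pool.Agent.MP_855f4c_ag.E

open E3

variable {X : Scheme.{0}} {l : ℕ}

/-- A map from the spectrum of a local ring factors through a small affine open. -/
lemma stk_loc {A : Type} [CommRing A] [IsLocalRing A] {Y : Scheme.{0}} (w : Spec (.of A) ⟶ Y)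
    (U : Y.Opens) (hU : w (IsLocalRing.closedPoint A) ∈ U) :
    ∃ (R : Type) (_ : CommRing R) (j : Spec (.of R) ⟶ Y) (φ : R →+* A), IsOpenImmersion j ∧
      Set.range j ⊆ U ∧ Spec.map (CommRingCat.ofHom φ) ≫ j = w := by
  obtain ⟨R, j, _, h1, h2⟩ := Scheme.exists_affine_mem_range_and_range_subset hU
  have h3 : Set.range w ⊆ Set.range j := by
    rintro _ ⟨z, rfl⟩
    exact ((IsLocalRing.specializes_closedPoint z).map w.continuous).mem_open
      j.isOpenEmbedding.isOpen_range h1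
  obtain ⟨φ, hφ⟩ := Spec.map_surjective (IsOpenImmersion.lift j w h3)
  exact ⟨R, inferInstance, j, φ.hom, ‹_›, h2,
    (congrArg (· ≫ j) hφ).trans (IsOpenImmersion.lift_fac j w h3)⟩

/-- `w` is ind-etale over an affine open. -/
def StkInd {A : Type} [CommRing A] {a : Spec (.of A) ⟶ X} {T : Over X} (w : Over.mk a ⟶ T) :
    Prop :=
  ∃ (R : Type) (_ : CommRing R) (_ : Algebra R A) (r : Spec (.of R) ⟶ X)
    (h : Spec.map (CommRingCat.ofHom (algebraMap R A)) ≫ r = a) (j : Over.mk r ⟶ T),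
    IsOpenImmersion j.left ∧ IndEt R A ∧ sph _ h ≫ j = w

section ind
variable {A : Type} [CommRing A] {a : Spec (.of A) ⟶ X} {T : Over X} {w : Over.mk a ⟶ T}

lemma stk_sph {A B C : Type} [CommRing A] [CommRing B] [CommRing C] (φ : A →+* B) (ψ : B →+* C)
    (χ : A →+* C) (e : ψ.comp φ = χ) {a : Spec (.of A) ⟶ X} {b : Spec (.of B) ⟶ X}
    {c : Spec (.of C) ⟶ X} (h1 : Spec.map (CommRingCat.ofHom φ) ≫ a = b)
    (h2 : Spec.map (CommRingCat.ofHom ψ) ≫ b = c) (h3 : Spec.map (CommRingCat.ofHom χ) ≫ a = c) :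
    sph ψ h2 ≫ sph φ h1 = sph χ h3 := by
  subst e
  exact Over.OverMorphism.ext (Spec.map_comp (CommRingCat.ofHom φ) (CommRingCat.ofHom ψ)).symm

lemma stk_etale {R E : Type} [CommRing R] [CommRing E] [Algebra R E] (h : Algebra.Etale R E)
    {r : Spec (.of R) ⟶ X} {e : Spec (.of E) ⟶ X}
    (he : Spec.map (CommRingCat.ofHom (algebraMap R E)) ≫ r = e) {T : Over X}
    (j : Over.mk r ⟶ T) [IsOpenImmersion j.left] : Etale (sph _ he ≫ j).left := by
  have : Etale (sph _ he).left :=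
    (HasRingHomProperty.Spec_iff (P := @Etale)).2 (RingHom.etale_algebraMap.2 h)
  rw [Over.comp_left]
  infer_instance

lemma StkInd.etale [IsLocalRing A] (H : StkInd w) {V : Over X} (v : V ⟶ T) [Etale v.left]
    (w' : Over.mk a ⟶ V) (e : w' ≫ v = w) : StkInd w' := by
  obtain ⟨R, _, _, r, h, j, _, H, hw⟩ := H
  have e1 : w'.left ≫ v.left = Spec.map (CommRingCat.ofHom (algebraMap R A)) ≫ j.left :=
    congrArg (·.left) (e.trans hw.symm)
  obtain ⟨E, _, j', χ, _, h2, h3⟩ := stk_loc w'.left (v.left ⁻¹ᵁ j.left.opensRange) (by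
    change v.left (w'.left _) ∈ j.left.opensRange
    rw [← Scheme.Hom.comp_apply, e1, Scheme.Hom.comp_apply]
    exact ⟨_, rfl⟩)
  have h4 : Set.range (j' ≫ v.left) ⊆ Set.range j.left := by
    rintro _ ⟨z, rfl⟩
    rw [Scheme.Hom.comp_apply]
    exact h2 ⟨z, rfl⟩
  obtain ⟨ψ, hψ⟩ := Spec.map_surjective (IsOpenImmersion.lift j.left _ h4)
  have h5 : Spec.map ψ ≫ j.left = j' ≫ v.left := by rw [hψ, IsOpenImmersion.lift_fac]
  have h6 : Etale (Spec.map ψ) := by
    have : Etale (Spec.map ψ ≫ j.left) := by rw [h5]; infer_instance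
    exact Etale.of_comp _ j.left
  let _ : Algebra R E := ψ.hom.toAlgebra
  let _ : Algebra E A := χ.toAlgebra
  have : Algebra.Etale R E := (HasRingHomProperty.Spec_iff (P := @Etale)).1 h6
  have : IsScalarTower R E A := by
    have : CommRingCat.ofHom (algebraMap R A) = ψ ≫ CommRingCat.ofHom χ := by
      apply Spec.map_injective
      rw [← cancel_mono j.left, Spec.map_comp, Category.assoc, h5, reassoc_of% h3, e1]
    exact IsScalarTower.of_algebraMap_eq fun x => congr($this x)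
  exact ⟨E, inferInstance, inferInstance, j' ≫ V.hom,
    (Category.assoc _ _ _).symm.trans ((congrArg (· ≫ V.hom) h3).trans (Over.w w')),
    Over.homMk j', ‹_›, H.cancel_etale E, Over.OverMorphism.ext h3⟩

lemma StkInd.surj (H : StkInd w) {P : PSh X} (hP : LFP P) (s : P.obj (op (Over.mk a))) :
    ∃ (V : Over X) (v : V ⟶ T) (w' : Over.mk a ⟶ V)
      (t : P.obj (op V)), Aff X V ∧ Etale v.left ∧ w' ≫ v = w ∧ P.map w'.op t = s := by
  obtain ⟨R, _, _, r, h, j, _, H, rfl⟩ := H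
  obtain ⟨E, _, _, _, hE, g, e, he, hg, t, ht⟩ := hP.fac_surj (Stage.fac_etale H) h s
  exact ⟨_, sph _ he ≫ j, sph _ hg, t, inferInstanceAs (IsAffine (Spec _)), stk_etale hE he j,
    by rw [← Category.assoc, stk_sph _ _ _ g.comp_algebraMap he hg h], ht⟩

lemma StkInd.zero (H : StkInd w) {P : PSh X} (hP : LFP P) (t : P.obj (op T))
    (ht : P.map w.op t = 0) : ∃ (V : Over X) (v : V ⟶ T) (w' : Over.mk a ⟶ V),
      Aff X V ∧ Etale v.left ∧ w' ≫ v = w ∧ P.map v.op t = 0 := by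
  obtain ⟨R, _, _, r, h, j, _, H, rfl⟩ := H
  obtain ⟨E, _, _, _, hE, g, e, he, h0⟩ := hP.fac_zero (Stage.fac_etale H) h (P.map j.op t)
    (by rw [res_res, ht])
  have hg : Spec.map (CommRingCat.ofHom (g : E →+* A)) ≫ e = a := by
    rw [← he, ← h, ← Spec.map_comp_assoc, ← CommRingCat.ofHom_comp, g.comp_algebraMap]
  exact ⟨_, sph _ he ≫ j, sph _ hg, inferInstanceAs (IsAffine (Spec _)), stk_etale hE he j,
    by rw [← Category.assoc, stk_sph _ _ _ g.comp_algebraMap he hg h], by rw [← res_res, h0]⟩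

end ind

variable {k : Type} [Field k] [IsAlgClosed k] {x : Spec (.of k) ⟶ X}

/-- the strict henselisation of `T` at a geometric point; LFP presheaves see it as a colimit -/
theorem exists_sh {T : Over X} (y : Over.mk x ⟶ T) :
    ∃ (A : Type) (_ : CommRing A) (_ : SHL A) (φ : A →+* k) (_ : IsLocalHom φ)
      (a : Spec (.of A) ⟶ X) (h : Spec.map (CommRingCat.ofHom φ) ≫ a = x) (w : Over.mk a ⟶ T),
      sph φ h ≫ w = y ∧ ∀ P : PSh X, LFP P →
        (∀ s : P.obj (op (Over.mk a)), ∃ (V : Over X) (v : V ⟶ T) (w' : Over.mk a ⟶ V)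
          (t : P.obj (op V)), Aff X V ∧ Etale v.left ∧ w' ≫ v = w ∧ P.map w'.op t = s) ∧
        ∀ (V : Over X) (v : V ⟶ T) (w' : Over.mk a ⟶ V) (t : P.obj (op V)), Etale v.left →
          w' ≫ v = w → P.map w'.op t = 0 → ∃ (V' : Over X) (v' : V' ⟶ V) (w'' : Over.mk a ⟶ V'),
            Aff X V' ∧ Etale v'.left ∧ w'' ≫ v' = w' ∧ P.map v'.op t = 0 := by
  obtain ⟨R, _, j, χ, _, -, h⟩ := stk_loc y.left ⊤ trivial
  let _ : Algebra R k := χ.toAlgebra
  obtain ⟨A, _, _, _, _, _, H, hl⟩ := exists_SH R k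
  have e : Spec.map (CommRingCat.ofHom (algebraMap A k)) ≫
      Spec.map (CommRingCat.ofHom (algebraMap R A)) ≫ j = y.left := by
    rw [← Spec.map_comp_assoc, ← CommRingCat.ofHom_comp, ← IsScalarTower.algebraMap_eq]
    exact h
  let j' : Over.mk (j ≫ T.hom) ⟶ T := Over.homMk j
  have H' : StkInd (sph (algebraMap R A) rfl ≫ j') :=
    ⟨R, inferInstance, inferInstance, _, rfl, j', ‹_›, H, rfl⟩
  refine ⟨A, inferInstance, inferInstance, algebraMap A k, hl, _, ?_,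
    sph (algebraMap R A) rfl ≫ j', Over.OverMorphism.ext e, fun P hP => ⟨H'.surj hP, fun V v w' t _ hv ht =>
      (H'.etale v w' hv).zero hP t ht⟩⟩
  rw [reassoc_of% e]
  exact Over.w y

omit [IsAlgClosed k] in
lemma stk_unit {A : Type} [CommRing A] (φ : A →+* k) [IsLocalHom φ] (hl : (l : k) ≠ 0) :
    IsUnit (l : A) :=
  isUnit_of_map_unit φ _ (by rw [map_natCast]; exact hl.isUnit)

theorem stalk_surj {P : PSh X} (h1 : LFP P) (h2 : Rig l P) (hl : (l : k) ≠ 0) {T : Over X}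
    (y : Over.mk x ⟶ T) (s : P.obj (op (Over.mk x))) :
    ∃ (V : Over X) (v : V ⟶ T) (y' : Over.mk x ⟶ V) (t : P.obj (op V)),
      Aff X V ∧ Etale v.left ∧ y' ≫ v = y ∧ P.map y'.op t = s := by
  obtain ⟨A, _, _, φ, _, a, h, w, rfl, H⟩ := exists_sh y
  obtain ⟨s, rfl⟩ := (h2 A k φ a x h (stk_unit φ hl)).2 s
  obtain ⟨V, v, w', t, h3, h4, rfl, rfl⟩ := (H P h1).1 s
  exact ⟨V, v, sph φ h ≫ w', t, h3, h4, Category.assoc _ _ _, (res_res _ _ _ _).symm⟩

theorem stalk_zero {P : PSh X} (h1 : LFP P) (h2 : Rig l P) (hl : (l : k) ≠ 0) {T : Over X}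
    (y : Over.mk x ⟶ T) (s : P.obj (op T)) (hs : P.map y.op s = 0) :
    ∃ (V : Over X) (v : V ⟶ T) (y' : Over.mk x ⟶ V),
      Aff X V ∧ Etale v.left ∧ y' ≫ v = y ∧ P.map v.op s = 0 := by
  obtain ⟨A, _, _, φ, _, a, h, w, rfl, H⟩ := exists_sh y
  obtain ⟨V, v, w', h3, h4, rfl, h5⟩ := (H P h1).2 T (𝟙 T) w s
    (inferInstanceAs (Etale (𝟙 T.left))) (Category.comp_id _)
    ((h2 A k φ a x h (stk_unit φ hl)).1 (by rw [res_res, hs, map_zero]))
  exact ⟨V, v, sph φ h ≫ w', h3, h4, Category.assoc _ _ _, h5⟩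

lemma stk_geom (Y : Scheme.{0}) (t : Y) : ∃ (k : Type) (_ : Field k) (_ : IsAlgClosed k)
    (y : Spec (.of k) ⟶ Y), ∀ z, y z = t :=
  ⟨AlgebraicClosure (Y.residueField t), inferInstance, inferInstance,
    Spec.map (CommRingCat.ofHom (algebraMap (Y.residueField t) _)) ≫ Y.fromSpecResidueField t,
    fun _ => (Scheme.Hom.comp_apply _ _ _).trans (Scheme.fromSpecResidueField_apply _ _)⟩

theorem exists_geom (T : Over X) (t : T.left) : ∃ (k : Type) (_ : Field k) (_ : IsAlgClosed k)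
    (x : Spec (.of k) ⟶ X) (y : Over.mk x ⟶ T), t ∈ Set.range y.left := by
  obtain ⟨k, _, _, y, h⟩ := stk_geom T.left t
  exact ⟨k, inferInstance, inferInstance, y ≫ T.hom, Over.homMk y, IsLocalRing.closedPoint k, h _⟩

lemma stk_range {Z V T : Over X} (y : Z ⟶ V) (v : V ⟶ T) {t : T.left}
    (h : t ∈ Set.range (y ≫ v).left) : t ∈ Set.range v.left := by
  obtain ⟨z, rfl⟩ := h
  exact ⟨y.left z, (Scheme.Hom.comp_apply _ _ _).symm⟩

lemma stk_mem_closed {T : Over X} [JacobsonSpace T.left] (S : Sieve T)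
    (h : ∀ t : T.left, IsClosed {t} →
      ∃ (V : Over X) (v : V ⟶ T), Etale v.left ∧ S v ∧ t ∈ Set.range v.left) :
    S ∈ Scheme.etaleTopology.over X T := by
  refine mem_Jov_of S fun t => by_contra fun ht => ?_
  have ho : IsOpen {t : T.left | ∃ (V : Over X) (v : V ⟶ T),
      Etale v.left ∧ S v ∧ t ∈ Set.range v.left} :=
    isOpen_iff_forall_mem_open.2 fun t ⟨V, v, h1, h2, h3⟩ =>
      ⟨_, fun _ h => ⟨V, v, h1, h2, h⟩, v.left.isOpenMap.isOpen_range, h3⟩
  obtain ⟨z, h1, h2⟩ := nonempty_inter_closedPoints ⟨t, ht⟩ ho.isClosed_compl.isLocallyClosed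
  exact h1 (h z h2)

/-- Arrows that kill a section. -/
def stkSieve (P : PSh X) {T : Over X} (s : P.obj (op T)) : Sieve T :=
  ⟨fun _ y => P.map y.op s = 0, fun h g => by rw [← res_res, h, map_zero]⟩

lemma stk_kill {F : Sh (Scheme.etaleTopology.over X)} (hF : Cc l F) {T : Over X} (s : F.obj.obj (op T)) {t : T.left}
    (h : ∃ (k : Type) (_ : Field k) (_ : IsAlgClosed k) (x : Spec (.of k) ⟶ X)
      (y : Over.mk x ⟶ T), (l : k) ≠ 0 ∧ t ∈ Set.range y.left ∧ F.obj.map y.op s = 0) :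
    ∃ (V : Over X) (v : V ⟶ T), Etale v.left ∧ stkSieve F.obj s v ∧ t ∈ Set.range v.left := by
  obtain ⟨k, _, _, x, y, h1, h2, h3⟩ := h
  obtain ⟨V, v, y', -, h4, rfl, h5⟩ := stalk_zero hF.1 hF.2 h1 y s h3
  exact ⟨V, v, h4, h5, stk_range y' v h2⟩

/-- PT for sections -/
theorem pt_sec {F : Sh (Scheme.etaleTopology.over X)} (hF : Cc l F) {T : Over X} (s : F.obj.obj (op T))
    (h : ∀ t : T.left, ∃ (k : Type) (_ : Field k) (_ : IsAlgClosed k) (x : Spec (.of k) ⟶ X)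
      (y : Over.mk x ⟶ T), (l : k) ≠ 0 ∧ t ∈ Set.range y.left ∧ F.obj.map y.op s = 0) : s = 0 :=
  sepP F.property s _ (mem_Jov_of _ fun t => stk_kill hF s (h t)) fun _ _ h => h

theorem pt_sec_closed {F : Sh (Scheme.etaleTopology.over X)} (hF : Cc l F) {T : Over X} [JacobsonSpace T.left]
    (s : F.obj.obj (op T))
    (h : ∀ t : T.left, IsClosed {t} → ∃ (k : Type) (_ : Field k) (_ : IsAlgClosed k)
      (x : Spec (.of k) ⟶ X) (y : Over.mk x ⟶ T),
      (l : k) ≠ 0 ∧ t ∈ Set.range y.left ∧ F.obj.map y.op s = 0) : s = 0 :=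
  sepP F.property s _ (stk_mem_closed _ fun t ht => stk_kill hF s (h t ht)) fun _ _ h => h

/-- LFP sheaves are tested on strictly henselian rings -/
theorem lfp_mono {F G : Sh (Scheme.etaleTopology.over X)} (hF : LFP F.obj) (φ : F ⟶ G)
    (h : ∀ (A : Type) [CommRing A] [SHL A] (a : Spec (.of A) ⟶ X),
      Function.Injective (φ.hom.app (op (Over.mk a)))) : Mono φ := by
  refine Sheaf.mono_of_injective φ fun ⟨T⟩ => (injective_iff_map_eq_zero _).2 fun s hs => ?_
  refine sepP F.property s (stkSieve F.obj s) (mem_Jov_of _ fun t => ?_) fun _ _ h => h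
  obtain ⟨k, _, _, x, y, ht⟩ := exists_geom T t
  obtain ⟨A, _, _, ψ, _, a, e, w, rfl, H⟩ := exists_sh y
  obtain ⟨V, v, w', -, h4, rfl, h5⟩ := (H _ hF).2 T (𝟙 T) w s
    (inferInstanceAs (Etale (𝟙 T.left))) (Category.comp_id _)
    (h A a (by rw [nat, hs, map_zero, map_zero]))
  exact ⟨V, v, h4, h5, stk_range w' v (stk_range _ _ ht)⟩

theorem lfp_epi {F G : Sh (Scheme.etaleTopology.over X)} (hF : LFP F.obj) (hG : LFP G.obj) (φ : F ⟶ G)
    (h : ∀ (A : Type) [CommRing A] [SHL A] (a : Spec (.of A) ⟶ X),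
      Function.Surjective (φ.hom.app (op (Over.mk a)))) : Epi φ := by
  refine (Sheaf.isLocallySurjective_iff_epi' _ φ).1 ⟨fun {T} s => mem_Jov_of _ fun t => ?_⟩
  obtain ⟨k, _, _, x, y, ht⟩ := exists_geom T t
  obtain ⟨A, _, _, ψ, _, a, e, w, rfl, H⟩ := exists_sh y
  obtain ⟨u, hu⟩ := h A a (G.obj.map w.op s)
  obtain ⟨V, v, w', u, -, h4, rfl, rfl⟩ := (H _ hF).1 u
  obtain ⟨V', v', w'', -, h5, rfl, h6⟩ := (H _ hG).2 V v w' (φ.hom.app _ u - G.obj.map v.op s) h4
    rfl (by rw [map_sub, ← nat, hu, res_res, sub_self])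
  rw [map_sub, ← nat, res_res, sub_eq_zero] at h6
  refine ⟨V', v' ≫ v, by rw [Over.comp_left]; infer_instance, ⟨_, h6⟩, stk_range w'' _ ?_⟩
  rw [← Category.assoc]
  exact stk_range _ _ ht

theorem lfp_isZero {F : Sh (Scheme.etaleTopology.over X)} (hF : LFP F.obj)
    (h : ∀ (A : Type) [CommRing A] [SHL A] (a : Spec (.of A) ⟶ X)
      (s : F.obj.obj (op (Over.mk a))), s = 0) : IsZero F :=
  have := lfp_mono hF (0 : F ⟶ F) fun A _ _ a s t _ => (h A a s).trans (h A a t).symm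
  IsZero.of_mono_eq_zero (0 : F ⟶ F) rfl

/-- A rigid presheaf has the same value at a strictly henselian ring and at any geometric point
over the image of its closed point. -/
lemma stk_cmp (hl : Linv l X) {A : Type} [CommRing A] [SHL A] (a : Spec (.of A) ⟶ X)
    (h : a (IsLocalRing.closedPoint A) ∈ Set.range x) :
    ∃ (Z : Over X) (p : Z ⟶ Over.mk a) (q : Z ⟶ Over.mk x), ∀ P : PSh X, Rig l P →
      Function.Bijective (P.map p.op) ∧ Function.Bijective (P.map q.op) := by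
  obtain ⟨z', h⟩ := h
  obtain ⟨z, h1, -⟩ := Scheme.Pullback.exists_preimage_pullback (f := a) (g := x) _ _ h.symm
  obtain ⟨K, _, _, y, hy⟩ := stk_geom _ z
  obtain ⟨φ, hφ⟩ := Spec.map_surjective (y ≫ pullback.fst a x)
  obtain ⟨ψ, hψ⟩ := Spec.map_surjective (y ≫ pullback.snd a x)
  have : IsLocalHom φ.hom := (IsLocalRing.isLocalHom_iff_comap_closedPoint φ.hom).2 (by
    change Spec.map φ (IsLocalRing.closedPoint K) = _
    rw [hφ, Scheme.Hom.comp_apply, hy, h1])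
  have e : Spec.map (CommRingCat.ofHom ψ.hom) ≫ x = Spec.map (CommRingCat.ofHom φ.hom) ≫ a := by
    change Spec.map ψ ≫ x = Spec.map φ ≫ a
    rw [hφ, hψ, Category.assoc, Category.assoc, pullback.condition]
  exact ⟨_, sph φ.hom rfl, sph ψ.hom e, fun P hP =>
    ⟨hP A K φ.hom a _ rfl (hl.isUnit a), hP k K ψ.hom x _ e (hl.isUnit x)⟩⟩

section cmp
variable {F G : Sh (Scheme.etaleTopology.over X)} (hl : Linv l X) (hF : Cc l F) (hG : Cc l G) (φ : F ⟶ G)
  {A : Type} [CommRing A] [SHL A] (a : Spec (.of A) ⟶ X)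
  (h : a (IsLocalRing.closedPoint A) ∈ Set.range x)
include hl hF hG h

lemma stk_inj (H : Function.Injective (φ.hom.app (op (Over.mk x)))) :
    Function.Injective (φ.hom.app (op (Over.mk a))) := by
  obtain ⟨Z, p, q, hZ⟩ := stk_cmp hl a h
  refine (injective_iff_map_eq_zero _).2 fun s hs => ?_
  obtain ⟨u, hu⟩ := (hZ _ hF.2).2.2 (F.obj.map p.op s)
  have : u = 0 := H ((hZ _ hG.2).2.1 (by rw [← nat, hu, nat, hs, map_zero, map_zero, map_zero]))
  exact (hZ _ hF.2).1.1 (by rw [← hu, this, map_zero, map_zero])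

lemma stk_surj (H : Function.Surjective (φ.hom.app (op (Over.mk x)))) :
    Function.Surjective (φ.hom.app (op (Over.mk a))) := fun s => by
  obtain ⟨Z, p, q, hZ⟩ := stk_cmp hl a h
  obtain ⟨u, hu⟩ := (hZ _ hG.2).2.2 (G.obj.map p.op s)
  obtain ⟨u, rfl⟩ := H u
  obtain ⟨t, ht⟩ := (hZ _ hF.2).1.2 (F.obj.map q.op u)
  exact ⟨t, (hZ _ hG.2).1.1 (by rw [← nat, ht, nat, hu])⟩

end cmp

/-- PT for maps; one geometric point over each point of `X` is enough -/
theorem pt_mono (hl : Linv l X) {F G : Sh (Scheme.etaleTopology.over X)} (hF : Cc l F) (hG : Cc l G) (φ : F ⟶ G)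
    (h : ∀ t : X, ∃ (k : Type) (_ : Field k) (_ : IsAlgClosed k) (x : Spec (.of k) ⟶ X),
      t ∈ Set.range x ∧ Function.Injective (φ.hom.app (op (Over.mk x)))) : Mono φ :=
  lfp_mono hF.1 φ fun A _ _ a => by
    obtain ⟨k, _, _, x, h1, h2⟩ := h (a (IsLocalRing.closedPoint A))
    exact stk_inj hl hF hG φ a h1 h2

theorem pt_epi (hl : Linv l X) {F G : Sh (Scheme.etaleTopology.over X)} (hF : Cc l F) (hG : Cc l G) (φ : F ⟶ G)
    (h : ∀ t : X, ∃ (k : Type) (_ : Field k) (_ : IsAlgClosed k) (x : Spec (.of k) ⟶ X),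
      t ∈ Set.range x ∧ Function.Surjective (φ.hom.app (op (Over.mk x)))) : Epi φ :=
  lfp_epi hF.1 hG.1 φ fun A _ _ a => by
    obtain ⟨k, _, _, x, h1, h2⟩ := h (a (IsLocalRing.closedPoint A))
    exact stk_surj hl hF hG φ a h1 h2

theorem pt_iso (hl : Linv l X) {F G : Sh (Scheme.etaleTopology.over X)} (hF : Cc l F) (hG : Cc l G) (φ : F ⟶ G)
    (h : ∀ t : X, ∃ (k : Type) (_ : Field k) (_ : IsAlgClosed k) (x : Spec (.of k) ⟶ X),
      t ∈ Set.range x ∧ Function.Bijective (φ.hom.app (op (Over.mk x)))) : IsIso φ :=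
  have := pt_mono hl hF hG φ fun t => by
    obtain ⟨k, _, _, x, h1, h2⟩ := h t
    exact ⟨k, _, ‹_›, x, h1, h2.1⟩
  have := pt_epi hl hF hG φ fun t => by
    obtain ⟨k, _, _, x, h1, h2⟩ := h t
    exact ⟨k, _, ‹_›, x, h1, h2.2⟩
  isIso_of_mono_of_epi φ

theorem pt_isZero (hl : Linv l X) {F : Sh (Scheme.etaleTopology.over X)} (hF : Cc l F)
    (h : ∀ t : X, ∃ (k : Type) (_ : Field k) (_ : IsAlgClosed k) (x : Spec (.of k) ⟶ X),
      t ∈ Set.range x ∧ ∀ s : F.obj.obj (op (Over.mk x)), s = 0) : IsZero F :=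
  have := pt_mono hl hF hF (0 : F ⟶ F) fun t => by
    obtain ⟨k, _, _, x, h1, h2⟩ := h t
    exact ⟨k, _, ‹_›, x, h1, fun s t _ => (h2 s).trans (h2 t).symm⟩
  IsZero.of_mono_eq_zero (0 : F ⟶ F) rfl

lemma stk_pt {T : Over X} (y : Over.mk x ⟶ T) {t : T.left} (h : t ∈ Set.range y.left) :
    x (IsLocalRing.closedPoint k) = T.hom t := by
  obtain ⟨z, rfl⟩ := h
  rw [← Scheme.Hom.comp_apply, Over.w y]
  exact congrArg x (Subsingleton.elim (α := PrimeSpectrum k) _ _)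

/-- A section lifts near a geometric point where the map is surjective. -/
lemma stk_lift {F G : Sh (Scheme.etaleTopology.over X)} (hF : Cc l F) (hG : Cc l G) (φ : F ⟶ G) (hl : (l : k) ≠ 0)
    (h : Function.Surjective (φ.hom.app (op (Over.mk x)))) {T : Over X} (y : Over.mk x ⟶ T)
    (s : G.obj.obj (op T)) : ∃ (V : Over X) (v : V ⟶ T) (y' : Over.mk x ⟶ V),
      Etale v.left ∧ y' ≫ v = y ∧ Presheaf.imageSieve φ.hom s v := by
  obtain ⟨u, hu⟩ := h (G.obj.map y.op s)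
  obtain ⟨V, v, y', u, -, _, rfl, rfl⟩ := stalk_surj hF.1 hF.2 hl y u
  obtain ⟨V', v', y'', -, _, rfl, h6⟩ := stalk_zero hG.1 hG.2 hl y'
    (φ.hom.app _ u - G.obj.map v.op s) (by rw [map_sub, ← nat, hu, res_res, sub_self])
  rw [map_sub, ← nat, res_res, sub_eq_zero] at h6
  exact ⟨V', v' ≫ v, y'', by rw [Over.comp_left]; infer_instance, (Category.assoc _ _ _).symm,
    _, h6⟩

theorem pt_iso_closed (hl : Linv l X) [JacobsonSpace X] {F G : Sh (Scheme.etaleTopology.over X)} (hF : Cc l F)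
    (hG : Cc l G) (φ : F ⟶ G)
    (h : ∀ t : X, IsClosed {t} → ∃ (k : Type) (_ : Field k) (_ : IsAlgClosed k)
      (x : Spec (.of k) ⟶ X), t ∈ Set.range x ∧
        Function.Bijective (φ.hom.app (op (Over.mk x)))) : IsIso φ := by
  have hA (V : Over X) (_ : Etale V.hom) (z : V.left) (hz : IsClosed {z}) :
      ∃ (k : Type) (_ : Field k) (_ : IsAlgClosed k) (x : Spec (.of k) ⟶ X) (y : Over.mk x ⟶ V),
        z ∈ Set.range y.left ∧ Function.Bijective (φ.hom.app (op (Over.mk x))) := by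
    obtain ⟨k, _, _, x, h1, h2⟩ := h _ (V.hom.closePoints_subset_preimage_closedPoints hz)
    obtain ⟨k', _, _, x', y, h3⟩ := exists_geom V z
    rw [← stk_pt y h3] at h1
    exact ⟨k', _, ‹_›, x', y, h3, stk_inj hl hF hG φ x' h1 h2.1, stk_surj hl hF hG φ x' h1 h2.2⟩
  have hB (V : Over X) (hV : Etale V.hom) (s : F.obj.obj (op V)) (hs : φ.hom.app _ s = 0) :
      s = 0 := by
    have := LocallyOfFiniteType.jacobsonSpace V.hom
    refine pt_sec_closed hF s fun z hz => ?_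
    obtain ⟨k, _, _, x, y, h1, h2⟩ := hA V hV z hz
    exact ⟨k, _, ‹_›, x, y, hl k x, h1, h2.1 (by rw [nat, hs, map_zero, map_zero])⟩
  have hC (V : Over X) (hV : Etale V.hom) (s : G.obj.obj (op V)) :
      Presheaf.imageSieve φ.hom s ∈ Scheme.etaleTopology.over X V := by
    have := LocallyOfFiniteType.jacobsonSpace V.hom
    refine stk_mem_closed _ fun z hz => ?_
    obtain ⟨k, _, _, x, y, h1, h2⟩ := hA V hV z hz
    obtain ⟨V', v, y', h3, rfl, h4⟩ := stk_lift hF hG φ (hl k x) h2.2 y s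
    exact ⟨V', v, h3, h4, stk_range _ _ h1⟩
  have hE {V W : Over X} (v : V ⟶ W) (_ : Etale v.left) (_ : Etale W.hom) : Etale V.hom := by
    rw [← Over.w v]; infer_instance
  have h1 : Etale (Over.mk (𝟙 X)).hom := inferInstanceAs (Etale (𝟙 X))
  refine pt_iso hl hF hG φ fun t => ?_
  obtain ⟨k, _, _, x, hx⟩ := stk_geom X t
  let y : Over.mk x ⟶ Over.mk (𝟙 X) := Over.homMk x
  refine ⟨k, _, ‹_›, x, ⟨IsLocalRing.closedPoint k, hx _⟩,
    (injective_iff_map_eq_zero _).2 fun s hs => ?_, fun s => ?_⟩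
  · obtain ⟨V, v, y', u, -, h2, -, rfl⟩ := stalk_surj hF.1 hF.2 (hl k x) y s
    obtain ⟨V', v', y'', -, h3, rfl, h4⟩ := stalk_zero hG.1 hG.2 (hl k x) y' (φ.hom.app _ u)
      (by rw [← nat]; exact hs)
    rw [← res_res, hB V' (hE v' h3 (hE v h2 h1)) _ ((nat _ _ _).trans h4), map_zero]
  · obtain ⟨V, v, y', u, -, h2, -, rfl⟩ := stalk_surj hG.1 hG.2 (hl k x) y s
    have := shl_sieve ((Scheme.etaleTopology.over X).pullback_stable y' (hC V (hE v h2 h1) u))
    exact (Sieve.mem_iff_pullback_eq_top _).2 this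

theorem pt_hom_ext (hl : Linv l X) {F G : Sh (Scheme.etaleTopology.over X)} (hF : Cc l F) (hG : Cc l G) (φ ψ : F ⟶ G)
    (h : ∀ t : X, ∃ (k : Type) (_ : Field k) (_ : IsAlgClosed k) (x : Spec (.of k) ⟶ X),
      t ∈ Set.range x ∧ φ.hom.app (op (Over.mk x)) = ψ.hom.app (op (Over.mk x))) : φ = ψ := by
  ext ⟨T⟩ s
  refine sub_eq_zero.1 (pt_sec hG (T := T) _ fun t => ?_)
  obtain ⟨k', _, _, x', y, h3⟩ := exists_geom T t
  obtain ⟨k, _, _, x, h1, h2⟩ := h (x' (IsLocalRing.closedPoint k'))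
  obtain ⟨Z, p, q, hZ⟩ := stk_cmp hl x' h1
  obtain ⟨u, hu⟩ := (hZ _ hF.2).2.2 (F.obj.map p.op (F.obj.map y.op s))
  refine ⟨k', _, ‹_›, x', y, hl k' x', h3, (hZ _ hG.2).1.1 ?_⟩
  rw [map_sub, map_sub, map_zero, sub_eq_zero]
  change G.obj.map p.op (G.obj.map y.op (φ.hom.app (op T) s)) =
    G.obj.map p.op (G.obj.map y.op (ψ.hom.app (op T) s))
  rw [← nat, ← nat, ← nat, ← nat, ← hu, nat, nat, h2]

end Pool.Agent.MP_855f4c_ag.E

end
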