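import Pool.Agent.MP_855f4c_ag.EC.E3a
import Pool.Agent.MP_855f4c_ag.EC.F2a

section

set_option autoImplicit false

namespace Pool.Agent.MP_855f4c_ag.E4

open IsLocalRing TensorProduct Polynomial E3

/-- two points of an unramified algebra in a local ring that agree on the residue field agree -/
theorem unram_ext {B E C : Type} [CommRing B] [CommRing E] [CommRing C] [Algebra B E]
    [Algebra B C] [Algebra.FormallyUnramified B E] [Algebra.EssFiniteType B E] [IsLocalRing C]
    (φ ψ : E →ₐ[B] C) (h : ∀ x, φ x - ψ x ∈ maximalIdeal C) : φ = ψ := by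
  obtain ⟨t, ht, ht1⟩ := (Algebra.FormallyUnramified.iff_exists_tensorProduct (R := B) (S := E)).mp
    inferInstance
  let m : E ⊗[B] E →ₐ[B] C := Algebra.TensorProduct.lift φ ψ fun _ _ => Commute.all _ _
  have h1 : ∀ u : E ⊗[B] E, φ (Algebra.TensorProduct.lmul' B u) - m u ∈ maximalIdeal C := by
    intro u
    induction u with
    | zero => simp
    | add x y hx hy =>
      have := add_mem hx hy
      simp only [map_add]
      convert this using 1
      ring
    | tmul x y =>
      have := (maximalIdeal C).mul_mem_left (φ x) (h y)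
      simp only [Algebra.TensorProduct.lmul'_apply_tmul, map_mul, m,
        Algebra.TensorProduct.lift_tmul]
      convert this using 1
      ring
  have h2 : IsUnit (m t) := by
    by_contra hu
    have h3 := add_mem (h1 t) ((mem_maximalIdeal _).mpr hu)
    rw [ht1, map_one, sub_add_cancel] at h3
    exact (maximalIdeal.isMaximal C).ne_top ((Ideal.eq_top_iff_one _).mpr h3)
  ext s
  have h4 := congrArg m (ht s)
  rw [map_mul, map_zero, h2.mul_left_eq_zero, map_sub, sub_eq_zero] at h4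
  simpa [m] using h4.symm

/-- extension of ring maps to an algebraically closed field along an algebraic extension -/
theorem exists_ext {R S M : Type} [CommRing R] [CommRing S] [IsDomain S] [Field M] [IsAlgClosed M]
    (i : R →+* S) (j : R →+* M) (hi : Function.Injective i) (hj : Function.Injective j)
    (ha : ∀ x : S, ∃ p : R[X], p ≠ 0 ∧ p.eval₂ i x = 0) : ∃ g : S →+* M, g.comp i = j := by
  let := i.toAlgebra
  have : Algebra.IsAlgebraic R S := ⟨ha⟩
  let := j.toAlgebra
  have : IsDomain R := hi.isDomain _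
  have : FaithfulSMul R S := (faithfulSMul_iff_algebraMap_injective R S).mpr hi
  have : FaithfulSMul R M := (faithfulSMul_iff_algebraMap_injective R M).mpr hj
  exact ⟨(IsAlgClosed.lift : S →ₐ[R] M), RingHom.ext fun r => (IsAlgClosed.lift : S →ₐ[R] M).commutes r⟩

/-- points of an integral algebra over a given geometric point -/
theorem exists_point {R D M : Type} [CommRing R] [CommRing D] [Algebra R D]
    [Algebra.IsIntegral R D] [Field M] [IsAlgClosed M] [Algebra R M] (P : Ideal D) [P.IsPrime]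
    (hP : P.comap (algebraMap R D) = RingHom.ker (algebraMap R M)) :
    ∃ τ : D →ₐ[R] M, RingHom.ker τ = P := by
  let p := P.comap (algebraMap R D)
  let j : R ⧸ p →+* M := Ideal.Quotient.lift p (algebraMap R M) fun a ha => by
    rw [show p = _ from hP] at ha; exact ha
  have hj : Function.Injective j := RingHom.lift_injective_of_ker_le_ideal _ _ hP.ge
  have : P.LiesOver p := ⟨rfl⟩
  obtain ⟨g, hg⟩ := exists_ext (algebraMap (R ⧸ p) (D ⧸ P)) j
    (FaithfulSMul.algebraMap_injective _ _) hj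
    (Algebra.IsIntegral.isAlgebraic (R := R ⧸ p) (A := D ⧸ P)).isAlgebraic
  have hgi : Function.Injective g := by
    rw [RingHom.injective_iff_ker_eq_bot]
    have : (RingHom.ker g).IsPrime := RingHom.ker_isPrime g
    refine Ideal.eq_bot_of_comap_eq_bot (R := R ⧸ p) ?_
    rw [RingHom.comap_ker, hg]
    exact (RingHom.injective_iff_ker_eq_bot j).mp hj
  refine ⟨⟨g.comp (Ideal.Quotient.mk P), fun r => RingHom.congr_fun hg (Ideal.Quotient.mk p r)⟩, ?_⟩
  ext x
  simp only [RingHom.mem_ker]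
  exact (map_eq_zero_iff g hgi).trans Ideal.Quotient.eq_zero_iff_mem

theorem aic_root {A K : Type} [CommRing A] (hA : Aic A) [CommRing K] [IsDomain K] [Algebra A K]
    (x : K) (hx : IsIntegral A x) : ∃ a, algebraMap A K a = x := by
  obtain ⟨p, hp, hx⟩ := hx
  have : Nontrivial A := (algebraMap A K).domain_nontrivial
  induction hd : p.natDegree generalizing p with
  | zero =>
    rw [hp.natDegree_eq_zero.mp hd] at hx
    simp at hx
  | succ n ih =>
    obtain ⟨a, ha⟩ := hA p hp (by omega)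
    obtain ⟨q, rfl⟩ := dvd_iff_isRoot.mpr ha
    have hq : q.Monic := (monic_X_sub_C a).of_mul_monic_left hp
    rw [eval₂_mul, mul_eq_zero] at hx
    rcases hx with hx | hx
    · exact ⟨a, (sub_eq_zero.mp (by simpa using hx)).symm⟩
    · refine ih q hq hx ?_
      rw [(monic_X_sub_C a).natDegree_mul hq, natDegree_X_sub_C] at hd
      omega

theorem aic_frac {A : Type} [CommRing A] [IsDomain A] (hA : Aic A) (K : Type) [Field K]
    [Algebra A K] [IsFractionRing A K] : IsAlgClosed K := by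
  refine IsAlgClosed.of_exists_root K fun p hp hirr => ?_
  have : Algebra.IsAlgebraic A K := IsLocalization.isAlgebraic K (nonZeroDivisors A)
  let L := AlgebraicClosure K
  obtain ⟨x, hx⟩ := IsAlgClosed.exists_aeval_eq_zero L p (degree_pos_of_irreducible hirr).ne'
  have : Algebra.IsAlgebraic A L := Algebra.IsAlgebraic.trans A K L
  obtain ⟨c, hc, hi⟩ := (Algebra.IsAlgebraic.isAlgebraic (R := A) x).exists_integral_multiple
  obtain ⟨a, ha⟩ := aic_root hA _ hi
  have hc' : algebraMap A K c ≠ 0 := by simpa using hc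
  refine ⟨algebraMap A K a / algebraMap A K c, (algebraMap K L).injective ?_⟩
  have : algebraMap K L (algebraMap A K a / algebraMap A K c) = x := by
    rw [map_div₀, ← IsScalarTower.algebraMap_apply, ha, div_eq_iff (by simpa using hc'),
      Algebra.smul_def, IsScalarTower.algebraMap_apply A K L, mul_comm]
  rw [map_zero, ← aeval_algebraMap_apply_eq_algebraMap_eval, this, hx]

/-- GA4: points of an integral algebra with values in an aic domain -/
theorem exists_lift {R D C : Type} [CommRing R] [CommRing D] [Algebra R D]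
    [Algebra.IsIntegral R D] [CommRing C] [IsDomain C] [Algebra R C] (hC : Aic C) (P : Ideal D)
    [P.IsPrime] (hP : P.comap (algebraMap R D) = RingHom.ker (algebraMap R C)) :
    ∃ b : D →ₐ[R] C, RingHom.ker b = P := by
  let K := FractionRing C
  have := aic_frac hC K
  have hinj := IsFractionRing.injective C K
  obtain ⟨τ, hτ⟩ := exists_point (M := K) P (by
    rw [hP, IsScalarTower.algebraMap_eq R C K, ← RingHom.comap_ker,
      (RingHom.injective_iff_ker_eq_bot _).mp hinj]
    rfl)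
  choose b hb using fun d : D => aic_root hC (τ d)
    (((Algebra.IsIntegral.isIntegral (R := R) d).map τ).tower_top)
  refine ⟨{ toFun := b
            map_one' := hinj (by simp [hb])
            map_mul' := fun x y => hinj (by simp [hb])
            map_zero' := hinj (by simp [hb])
            map_add' := fun x y => hinj (by simp [hb])
            commutes' := fun r => hinj (by
              rw [hb, τ.commutes, IsScalarTower.algebraMap_apply R C K]) }, ?_⟩
  ext x
  rw [← hτ, RingHom.mem_ker, RingHom.mem_ker, ← map_eq_zero_iff _ hinj]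
  exact Iff.of_eq (congrArg (· = 0) (hb x))

/-- two points of an algebra in `Ω` with the same kernel are conjugate -/
theorem conj_of_ker {B E Ω : Type} [CommRing B] [CommRing E] [Algebra B E] [Field Ω]
    [IsAlgClosed Ω] [Algebra B Ω] [FaithfulSMul B Ω] [Algebra.IsAlgebraic B Ω] (e₀ e₁ : E →ₐ[B] Ω)
    (h : RingHom.ker e₀ = RingHom.ker e₁) : ∃ g : Ω ≃ₐ[B] Ω, ∀ x, g (e₀ x) = e₁ x := by
  have : IsDomain B := (FaithfulSMul.algebraMap_injective B Ω).isDomain _
  let i : E ⧸ RingHom.ker e₀ →ₐ[B] Ω := Ideal.kerLiftAlg e₀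
  let j : E ⧸ RingHom.ker e₀ →+* Ω := Ideal.Quotient.lift _ (e₁ : E →+* Ω) fun a ha => by
    rw [h] at ha; exact ha
  have hi : Function.Injective i := Ideal.kerLiftAlg_injective e₀
  have hj : Function.Injective j := RingHom.lift_injective_of_ker_le_ideal _ _ h.ge
  obtain ⟨g, hg⟩ := exists_ext i.toRingHom j hi hj (by
    let := i.toRingHom.toAlgebra
    have : IsScalarTower B (E ⧸ RingHom.ker e₀) Ω :=
      IsScalarTower.of_algebraMap_eq fun r => (i.commutes r).symm
    have : FaithfulSMul B (E ⧸ RingHom.ker e₀) := FaithfulSMul.tower_bot B _ Ω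
    exact (Algebra.IsAlgebraic.extendScalars (FaithfulSMul.algebraMap_injective B _)).isAlgebraic)
  have hg' : ∀ x, g (e₀ x) = e₁ x := fun x => RingHom.congr_fun hg (Ideal.Quotient.mk _ x)
  let g' : Ω →ₐ[B] Ω := ⟨g, fun r => by
    have := hg' (algebraMap B E r)
    rwa [e₀.commutes, e₁.commutes] at this⟩
  exact ⟨AlgEquiv.ofBijective g' (Algebra.IsAlgebraic.algHom_bijective g'), hg'⟩

/-- GA2: the connected component of a generic point of an etale algebra over a normal domain -/
theorem exists_component {B E Ω : Type} [CommRing B] [IsDomain B] [IsIntegrallyClosed B]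
    [CommRing E] [Algebra B E] [Algebra.Etale B E] [Field Ω] [Algebra B Ω] [FaithfulSMul B Ω]
    (e₀ : E →ₐ[B] Ω) : ∃ ε : E, e₀ ε = 1 ∧ ∀ e₁ : E →ₐ[B] Ω, e₁ ε ≠ 0 →
      RingHom.ker e₀ = RingHom.ker e₁ := by
  let K := FractionRing B
  let : Algebra K Ω := FractionRing.liftAlgebra B Ω
  have := FractionRing.isScalarTower_liftAlgebra B Ω
  let ext : (E →ₐ[B] Ω) → (E ⊗[B] K →ₐ[B] Ω) := fun e =>
    Algebra.TensorProduct.lift e (IsScalarTower.toAlgHom B K Ω) fun _ _ => Commute.all _ _
  have hext : ∀ e x, ext e (x ⊗ₜ 1) = e x := fun e x => by simp [ext]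
  have hA : IsArtinianRing (E ⊗[B] K) := by
    have : Module.Finite K (K ⊗[B] E) := Algebra.FormallyUnramified.finite_of_free K _
    have : IsArtinianRing (K ⊗[B] E) := IsArtinianRing.of_finite K _
    exact (Algebra.TensorProduct.comm B K E).toRingEquiv.isArtinianRing
  let p : (E →ₐ[B] Ω) → PrimeSpectrum (E ⊗[B] K) := fun e =>
    ⟨RingHom.ker (ext e), RingHom.ker_isPrime _⟩
  obtain ⟨t, ht, hp⟩ := PrimeSpectrum.exists_idempotent_basicOpen_eq_of_isClopen
    (s := {p e₀}) (isClopen_discrete _)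
  have : Nontrivial E := e₀.toRingHom.domain_nontrivial
  obtain ⟨u, hu⟩ := (TensorProduct.toIntegralClosure_bijective_of_smooth (R := B) (S := E)
    (B := K)).2 ⟨t, X ^ 2 - X, (monic_X_pow 2).sub_of_left (by rw [degree_X, degree_X_pow]; decide), by
      simp [pow_two, ht.eq]⟩
  have hr : ∀ u : E ⊗[B] integralClosure B K, ∃ ε : E,
      (TensorProduct.toIntegralClosure B E K u : E ⊗[B] K) = ε ⊗ₜ 1 := by
    intro u
    induction u with
    | zero => exact ⟨0, by simp⟩
    | add x y hx hy =>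
      obtain ⟨a, ha⟩ := hx
      obtain ⟨b, hb⟩ := hy
      exact ⟨a + b, by rw [map_add, Subalgebra.coe_add, ha, hb, add_tmul]⟩
    | tmul x y =>
      obtain ⟨b, hb⟩ := IsIntegrallyClosed.isIntegral_iff.mp y.2
      refine ⟨b • x, ?_⟩
      change x ⊗ₜ[B] (y : K) = _
      rw [← hb, smul_tmul, Algebra.algebraMap_eq_smul_one]
  obtain ⟨ε, hε⟩ := hr u
  rw [hu] at hε
  obtain rfl : t = ε ⊗ₜ 1 := hε
  have key : ∀ e, e ε ≠ 0 ↔ p e = p e₀ := fun e => by
    have : p e ∈ ({p e₀} : Set _) ↔ p e ∈ (PrimeSpectrum.basicOpen (ε ⊗ₜ[B] (1 : K)) : Set _) := by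
      rw [hp]
    rw [← hext]
    exact this.symm
  refine ⟨ε, ?_, fun e₁ h => ?_⟩
  · have h1 := IsIdempotentElem.iff_eq_zero_or_one.mp (ht.map (ext e₀))
    rw [hext] at h1
    exact h1.resolve_left ((key e₀).mpr rfl)
  · have h2 := congrArg PrimeSpectrum.asIdeal ((key e₁).mp h)
    ext x
    rw [RingHom.mem_ker, RingHom.mem_ker, ← hext, ← hext]
    exact (Ideal.ext_iff.mp h2 _).symm

/-- Hensel: a simple root in a field below the maximal ideal lifts -/
theorem shl_root {A k : Type} [CommRing A] [SHL A] [Field k] [Algebra A k]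
    (hk : RingHom.ker (algebraMap A k) = maximalIdeal A) (f : A[X]) (hf : f.Monic) (ω : k)
    (h0 : aeval ω f = 0) (h1 : aeval ω f.derivative ≠ 0) :
    ∃ ζ : A, f.eval ζ = 0 ∧ algebraMap A k ζ = ω := by
  let P : StandardEtalePair A := ⟨f, hf, f.derivative, 1, 0, 1, by simp⟩
  let e : P.Ring →ₐ[A] k := P.lift ω ⟨h0, h1.isUnit⟩
  obtain ⟨s, hs⟩ := SHL.sec (A := A) P.Ring (RingHom.ker e) (RingHom.ker_isPrime _) (by
    rw [← hk]; ext x; simp [RingHom.mem_ker])
  refine ⟨s P.X, by simpa using (P.hasMap_X.map s).1, ?_⟩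
  have : P.X - algebraMap A _ (s P.X) ∈ RingHom.ker e := by
    rw [← hs, Ideal.mem_comap]; simp
  rw [RingHom.mem_ker, map_sub, P.lift_X, e.commutes, sub_eq_zero] at this
  exact this.symm

/-- GA6: roots of unity are rigid -/
theorem mu_rigid {A k : Type} [CommRing A] [SHL A] [Field k] [Algebra A k]
    (hk : RingHom.ker (algebraMap A k) = maximalIdeal A) (n : ℕ) (hn : IsUnit (n : A)) :
    (∀ ζ : A, ζ ^ n = 1 → algebraMap A k ζ = 1 → ζ = 1) ∧
      ∀ ω : k, ω ^ n = 1 → ∃ ζ : A, ζ ^ n = 1 ∧ algebraMap A k ζ = ω := by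
  have hn' : (n : k) ≠ 0 := by simpa using (hn.map (algebraMap A k)).ne_zero
  have hn0 : n ≠ 0 := by rintro rfl; simp at hn'
  refine ⟨fun ζ h1 h2 => ?_, fun ω h => ?_⟩
  · have h3 := mul_geom_sum ζ n
    have h4 : IsUnit (∑ i ∈ Finset.range n, ζ ^ i) := by
      by_contra hu
      have := hk ▸ (mem_maximalIdeal _).mpr hu
      rw [RingHom.mem_ker] at this
      simp [h2, hn'] at this
    rwa [h1, sub_self, h4.mul_left_eq_zero, sub_eq_zero] at h3
  · have hω : ω ≠ 0 := by rintro rfl; simp [hn0] at h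
    obtain ⟨ζ, h1, h2⟩ := shl_root hk (X ^ n - C 1) (monic_X_pow_sub_C 1 hn0) ω (by simp [h])
      (by simp [derivative_X_pow, hn', hω])
    exact ⟨ζ, by simpa [sub_eq_zero] using h1, h2⟩

/-- Kummer cover -/
theorem kummer_cover {R : Type} [CommRing R] (n : ℕ) (hn : IsUnit (n : R)) (u : Rˣ) :
    ∃ (S : Type) (_ : CommRing S) (_ : Algebra R S) (_ : Algebra.Etale R S) (v : Sˣ),
      Function.Surjective (PrimeSpectrum.comap (algebraMap R S)) ∧
      (v : S) ^ n = algebraMap R S u := by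
  rcases subsingleton_or_nontrivial R with hR | hR
  · exact ⟨R, inferInstance, inferInstance, inferInstance, 1, fun p => ⟨p, rfl⟩,
      Subsingleton.elim _ _⟩
  have hn0 : n ≠ 0 := by rintro rfl; simp at hn
  obtain ⟨m, rfl⟩ := Nat.exists_eq_succ_of_ne_zero hn0
  obtain ⟨w, hw⟩ := hn.exists_right_inv
  let P : StandardEtalePair R := ⟨X ^ (m + 1) - C (u : R), monic_X_pow_sub_C _ hn0, 1,
    X * C (w * ((u⁻¹ : Rˣ) : R)), - C ((u⁻¹ : Rˣ) : R), 0, by
      have h1 : (C ((m : R) + 1) * C w : R[X]) = 1 := by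
        rw [← C_mul]; push_cast at hw; rw [hw, C_1]
      have h2 : (C (u : R) * C ((u⁻¹ : Rˣ) : R) : R[X]) = 1 := by rw [← C_mul]; simp
      simp only [derivative_sub, derivative_X_pow_succ, derivative_C, sub_zero, C_mul, pow_zero]
      linear_combination (X ^ (m + 1) * C ((u⁻¹ : Rˣ) : R)) * h1 + h2⟩
  have hX : P.X ^ (m + 1) = algebraMap R _ u := by simpa [P, sub_eq_zero] using P.hasMap_X.1
  have hU : IsUnit P.X := (isUnit_pow_iff hn0).mp (hX ▸ u.isUnit.map _)
  refine ⟨P.Ring, inferInstance, inferInstance, inferInstance, hU.unit, fun p => ?_, hX⟩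
  let k := AlgebraicClosure p.asIdeal.ResidueField
  obtain ⟨ω, hω⟩ := IsAlgClosed.exists_pow_nat_eq (algebraMap R k u) (Nat.pos_of_ne_zero hn0)
  let e : P.Ring →ₐ[R] k := P.lift ω ⟨by simp [P, hω], by simp [P]⟩
  refine ⟨⟨RingHom.ker e, RingHom.ker_isPrime _⟩, PrimeSpectrum.ext ?_⟩
  ext x
  simp only [PrimeSpectrum.comap_asIdeal, Ideal.mem_comap, RingHom.mem_ker, AlgHom.commutes]
  rw [IsScalarTower.algebraMap_apply R p.asIdeal.ResidueField k, map_eq_zero,
    Ideal.algebraMap_residueField_eq_zero]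

/-- a prime over the closed point of a finite algebra is cut out by an idempotent -/
theorem idem_finite {A D : Type} [CommRing A] [SHL A] [CommRing D] [Algebra A D]
    [Module.Finite A D] (q : Ideal D) [q.IsPrime] [q.LiesOver (maximalIdeal A)] :
    ∃ e : D, IsIdempotentElem e ∧ e ∉ q ∧ ∀ q' : Ideal D, q'.IsPrime →
      q'.LiesOver (maximalIdeal A) → e ∉ q' → q' = q := by
  obtain ⟨R', _, _, _, P, _, _, e, he, P', _, _, h1, h2, h3, -, h5⟩ :=
    Algebra.exists_etale_isIdempotentElem_forall_liesOver_eq (maximalIdeal A) q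
  obtain ⟨s, hs⟩ := SHL.sec (A := A) R' P inferInstance (P.over_def (maximalIdeal A)).symm
  let σ : R' ⊗[A] D →ₐ[A] D :=
    Algebra.TensorProduct.lift ((Algebra.ofId A D).comp s) (AlgHom.id A D) fun _ _ => Commute.all _ _
  have hσ : ∀ q' : Ideal D, (q'.comap σ).comap Algebra.TensorProduct.includeRight.toRingHom = q' :=
    fun q' => by ext x; simp [σ]
  have hl : ∀ q' : Ideal D, q'.LiesOver (maximalIdeal A) → (q'.comap σ).LiesOver P := fun q' h => ⟨by
    rw [← hs, q'.over_def (maximalIdeal A)]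
    ext x
    simp [σ, Algebra.ofId_apply]⟩
  have := hl q inferInstance
  have h6 : q.comap σ = P' :=
    Ideal.eq_of_comap_eq_comap_of_bijective_residueFieldMap h3 _ _ ((hσ q).trans h1.symm)
  refine ⟨σ e, he.map σ, fun h => h2 (h6 ▸ h), fun q' _ hq' h => ?_⟩
  rw [← hσ q', h5 (q'.comap σ) inferInstance (hl q' hq') h, h1]

/-- two geometric points of an integral algebra with the same kernel agree -/
theorem point_ext {A D k : Type} [CommRing A] [SHL A] [CommRing D] [Algebra A D]
    [Algebra.IsIntegral A D] [Field k] [Algebra A k]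
    (hk : RingHom.ker (algebraMap A k) = maximalIdeal A) (τ τ' : D →ₐ[A] k)
    (h : RingHom.ker τ = RingHom.ker τ') : τ = τ' := by
  have := SHL.isSepClosed (A := A)
  let : Algebra (ResidueField A) k := (Ideal.Quotient.lift _ (algebraMap A k) fun a ha => by
    rw [← hk] at ha; exact ha).toAlgebra
  have : IsScalarTower A (ResidueField A) k := IsScalarTower.of_algebraMap_eq fun _ => rfl
  obtain ⟨q, _⟩ := ExpChar.exists (ResidueField A)
  have := expChar_of_injective_algebraMap (algebraMap (ResidueField A) k).injective q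
  ext a
  have hi : IsIntegral (ResidueField A) (τ a) :=
    ((Algebra.IsIntegral.isIntegral (R := A) a).map τ).tower_top
  let L := IntermediateField.adjoin (ResidueField A) {τ a}
  have : FiniteDimensional (ResidueField A) L := IntermediateField.adjoin.finiteDimensional hi
  have : IsPurelyInseparable (ResidueField A) L := Algebra.IsAlgebraic.isPurelyInseparable_of_isSepClosed
  obtain ⟨n, c, hc⟩ := IsPurelyInseparable.pow_mem (ResidueField A) q
    (⟨τ a, IntermediateField.mem_adjoin_simple_self _ _⟩ : L)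
  obtain ⟨c, rfl⟩ := residue_surjective c
  have h1 : algebraMap A k c = τ a ^ q ^ n := congrArg Subtype.val hc
  have h2 : a ^ q ^ n - algebraMap A D c ∈ RingHom.ker τ := by simp [RingHom.mem_ker, h1]
  rw [h, RingHom.mem_ker, map_sub, map_pow, τ'.commutes, h1, ← sub_pow_expChar_pow] at h2
  exact (sub_eq_zero.mp (pow_eq_zero_iff (pow_ne_zero n (expChar_ne_zero k q)) |>.mp h2)).symm

/-- IDEM -/
theorem idem {A D k : Type} [CommRing A] [SHL A] [CommRing D] [Algebra A D]
    [Algebra.IsIntegral A D] [Field k] [Algebra A k]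
    (hk : RingHom.ker (algebraMap A k) = maximalIdeal A) (s : Finset D) (τ : D →ₐ[A] k) :
    ∃ e : D, IsIdempotentElem e ∧ τ e = 1 ∧ ∀ τ' : D →ₐ[A] k, τ' e ≠ 0 → ∀ a ∈ s, τ' a = τ a := by
  let D₀ := Algebra.adjoin A (s : Set D)
  have : Module.Finite A D₀ := Algebra.finite_adjoin_of_finite_of_isIntegral s.finite_toSet
    fun x _ => Algebra.IsIntegral.isIntegral x
  have hl : ∀ τ : D →ₐ[A] k, (RingHom.ker (τ.comp D₀.val)).LiesOver (maximalIdeal A) := fun τ =>
    ⟨by rw [← hk]; ext x; simp [RingHom.mem_ker]⟩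
  have := hl τ
  have : (RingHom.ker (τ.comp D₀.val)).IsPrime := RingHom.ker_isPrime _
  obtain ⟨e, he, h1, h2⟩ := idem_finite (A := A) (RingHom.ker (τ.comp D₀.val))
  refine ⟨e, he.map D₀.val, ?_, fun τ' h a ha => ?_⟩
  · exact (IsIdempotentElem.iff_eq_zero_or_one.mp (he.map (τ.comp D₀.val))).resolve_left h1
  · exact AlgHom.congr_fun (point_ext hk _ _ (h2 _ (RingHom.ker_isPrime (τ'.comp D₀.val)) (hl τ') h))
      ⟨a, Algebra.subset_adjoin ha⟩

end Pool.Agent.MP_855f4c_ag.E4

end

section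

set_option autoImplicit false
set_option backward.isDefEq.respectTransparency false

open CategoryTheory Limits Opposite AlgebraicGeometry IsLocalRing

namespace Pool.Agent.MP_855f4c_ag.E4

open E E3

variable {X : Scheme.{0}} {R : Type} [CommRing R] (u : Spec (.of R) ⟶ X)

/-- an `R`-algebra as a scheme over `X` -/
noncomputable abbrev ob (A : Type) [CommRing A] [Algebra R A] : Over X :=
  Over.mk (Spec.map (CommRingCat.ofHom (algebraMap R A)) ≫ u)

variable {A B C : Type} [CommRing A] [Algebra R A] [CommRing B] [Algebra R B] [CommRing C]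
  [Algebra R C]

noncomputable def hm (φ : A →ₐ[R] B) : ob u B ⟶ ob u A :=
  Over.homMk (Spec.map (CommRingCat.ofHom (φ : A →+* B))) (by
    simp only [Over.mk_hom]
    rw [← Category.assoc, ← Spec.map_comp, ← CommRingCat.ofHom_comp, AlgHom.comp_algebraMap])

@[simp] lemma hm_left (φ : A →ₐ[R] B) :
    (hm u φ).left = Spec.map (CommRingCat.ofHom (φ : A →+* B)) := rfl

lemma hm_comp (φ : A →ₐ[R] B) (ψ : B →ₐ[R] C) : hm u (ψ.comp φ) = hm u ψ ≫ hm u φ := by
  ext; simp only [hm_left, Over.comp_left]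
  rw [← Spec.map_comp, ← CommRingCat.ofHom_comp]; rfl

lemma hm_id : hm u (AlgHom.id R A) = 𝟙 _ := by
  ext; simp

/-- restriction of sections along an algebra map -/
noncomputable def rs (P : PSh X) (φ : A →ₐ[R] B) : P.obj (op (ob u A)) →+ P.obj (op (ob u B)) :=
  (P.map (hm u φ).op).hom

lemma rs_apply (P : PSh X) (φ : A →ₐ[R] B) (s) : rs u P φ s = P.map (hm u φ).op s := rfl

lemma rs_rs (P : PSh X) (φ : A →ₐ[R] B) (ψ : B →ₐ[R] C) (s) :
    rs u P ψ (rs u P φ s) = rs u P (ψ.comp φ) s := by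
  simp only [rs_apply, hm_comp, op_comp, Functor.map_comp, ConcreteCategory.comp_apply]

lemma rs_id (P : PSh X) (s) : rs u P (AlgHom.id R A) s = s := by
  simp [rs_apply, hm_id]

lemma rs_congr (P : PSh X) {φ ψ : A →ₐ[R] B} (h : φ = ψ) (s) : rs u P φ s = rs u P ψ s := by
  rw [h]

lemma rs_equiv (P : PSh X) (e : A ≃ₐ[R] B) : Function.Bijective (rs u P (e : A →ₐ[R] B)) :=
  Function.bijective_iff_has_inverse.2 ⟨rs u P (e.symm : B →ₐ[R] A),
    fun s => by rw [rs_rs, AlgEquiv.symm_comp, rs_id],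
    fun s => by rw [rs_rs, AlgEquiv.comp_symm, rs_id]⟩

lemma map_nat {P Q : PSh X} (α : P ⟶ Q) {T T' : Over X} (g : T' ⟶ T) (s) :
    α.app (op T') (P.map g.op s) = Q.map g.op (α.app (op T) s) :=
  ConcreteCategory.congr_hom (α.naturality g.op) s

lemma rs_nat {P Q : PSh X} (α : P ⟶ Q) (φ : A →ₐ[R] B) (s) :
    α.app _ (rs u P φ s) = rs u Q φ (α.app _ s) := map_nat α _ s

/-- bijectivity of a restriction map only depends on the underlying map up to isomorphism -/
lemma bij_of_sq (P : PSh X) {T₁ T₂ S₁ S₂ : Over X} (f : T₁ ⟶ T₂) (g : S₁ ⟶ S₂) (a : T₁ ⟶ S₁)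
    (b : T₂ ⟶ S₂) [IsIso a] [IsIso b] (h : a ≫ g = f ≫ b) :
    Function.Bijective (P.map f.op) ↔ Function.Bijective (P.map g.op) := by
  have h1 : (P.map a.op) ∘ (P.map g.op) = (P.map f.op) ∘ (P.map b.op) := by
    funext s
    simp only [Function.comp, ← ConcreteCategory.comp_apply, ← Functor.map_comp, ← op_comp, h]
  rw [← Function.Bijective.of_comp_iff _ (ConcreteCategory.bijective_of_isIso (P.map b.op)), ← h1,
    Function.Bijective.of_comp_iff' (ConcreteCategory.bijective_of_isIso (P.map a.op))]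

lemma isIso_homMk {T S : Over X} (f : T ⟶ S) (h : IsIso f.left) : IsIso f :=
  have : IsIso ((Over.forget X).map f) := h
  isIso_of_reflects_iso f (Over.forget X)

lemma rig {l : ℕ} {P : PSh X} (hP : Rig l P) [SHL A] {k : Type} [Field k] [IsAlgClosed k]
    [Algebra R k] (φ : A →ₐ[R] k) (hφ : RingHom.ker φ = maximalIdeal A) (hl : IsUnit (l : A)) :
    Function.Bijective (rs u P φ) := by
  have : IsLocalHom (φ : A →+* k) := ⟨fun a ha => by
    by_contra h
    have : a ∈ RingHom.ker φ := hφ ▸ (mem_maximalIdeal _).mpr h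
    exact ha.ne_zero this⟩
  exact hP A k (φ : A →+* k) (ob u A).hom (ob u k).hom (Over.w (hm u φ)) hl

end Pool.Agent.MP_855f4c_ag.E4

end

section

set_option autoImplicit false
set_option backward.isDefEq.respectTransparency false

open CategoryTheory Limits Abelian Opposite AlgebraicGeometry

namespace Pool.Agent.MP_855f4c_ag.E4

open E E3

variable {X : Scheme.{0}}

/-- Lisse on `T`: sections over an aic local domain over `T` are the sections over its fraction
field. -/
def Lis (l : ℕ) (P : PSh X) (T : Over X) : Prop :=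
  ∀ (C K : Type) [CommRing C] [IsDomain C] [IsLocalRing C] [Field K] [Algebra C K]
    [IsFractionRing C K] (a : Spec (.of C) ⟶ X) (b : Spec (.of K) ⟶ X)
    (h : Spec.map (CommRingCat.ofHom (algebraMap C K)) ≫ a = b),
    Nonempty (Over.mk a ⟶ T) → Aic C → IsUnit (l : C) →
      Function.Bijective (P.map (sph (algebraMap C K) h).op)

section coc
variable {C : Type 1} [Category.{0} C] {J : GrothendieckTopology C}

/-- The function `c` is a cocycle attached to the class `ξ`. -/
def Coc {F : Sh J} {T W : C} (ω : W ⟶ T) {G : Type} (a : G → (W ⟶ W)) (ξ : H T F 1)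
    (c : G → F.obj.obj (op W)) : Prop :=
  ∃ (E Q : Sh J) (i : F ⟶ E) (p : E ⟶ Q) (w : i ≫ p = 0)
    (hS : (ShortComplex.mk i p w).ShortExact) (z : (fr J).obj T ⟶ Q) (y : E.obj.obj (op W)),
    p.hom.app _ y = Q.obj.map ω.op (frEquiv T Q z) ∧ (Ext.mk₀ z).comp hS.extClass rfl = ξ ∧
    ∀ g, i.hom.app _ (c g) = E.obj.map (a g).op y - y

end coc

section gal
variable {B : Type} [CommRing B] (u : Spec (.of B) ⟶ X) (Ω : Type) [Field Ω] [Algebra B Ω]

/-- The point `Spec Ω ⟶ Spec B`. -/
noncomputable abbrev pt : ob u Ω ⟶ ob u B := hm u (Algebra.ofId B Ω)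

/-- The action of `Aut_B(Ω)` on the point. -/
noncomputable abbrev act (g : Ω ≃ₐ[B] Ω) : ob u Ω ⟶ ob u Ω := hm u (g : Ω →ₐ[B] Ω)

/-- The Galois action on `P(Ω)`. -/
noncomputable def gal (P : PSh X) : (Ω ≃ₐ[B] Ω) →* AddMonoid.End (P.obj (op (ob u Ω))) where
  toFun g := rs u P (g : Ω →ₐ[B] Ω)
  map_one' := AddMonoidHom.ext fun s => rs_id u P s
  map_mul' g h := AddMonoidHom.ext fun s =>
    (rs_rs u P (h : Ω →ₐ[B] Ω) (g : Ω →ₐ[B] Ω) s).symm

variable {Ω}

/-- `g` lies in the inertia group of `a`. -/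
def Ine (a : Ideal (integralClosure B Ω)) (g : Ω ≃ₐ[B] Ω) : Prop :=
  ∀ z w : integralClosure B Ω, (w : Ω) = g z → w - z ∈ a

/-- The property holds on an open subgroup. -/
def Opn (p : (Ω ≃ₐ[B] Ω) → Prop) : Prop :=
  ∃ E : Finset Ω, ∀ g : Ω ≃ₐ[B] Ω, (∀ e ∈ E, g e = e) → p g

/-- The property holds on all inertia groups. -/
def Unr (p : (Ω ≃ₐ[B] Ω) → Prop) : Prop :=
  ∀ (a : Ideal (integralClosure B Ω)) [a.IsPrime] (g : Ω ≃ₐ[B] Ω), Ine a g → p g

end gal

section lc
variable (X) (M : Type 1) [AddCommGroup M]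

/-- The continuous map of a morphism over `X`. -/
def cm {X : Scheme.{0}} {T T' : Over X} (g : T' ⟶ T) : C(T'.left, T.left) :=
  ⟨g.left, g.left.continuous⟩

/-- Locally constant functions. -/
noncomputable def lcP : PSh X where
  obj T := AddCommGrpCat.of (LocallyConstant T.unop.left M)
  map g := AddCommGrpCat.ofHom (LocallyConstant.comapAddMonoidHom (cm g.unop))
  map_id T := by ext f x; simp [cm]
  map_comp f g := by ext f x; simp [cm]

variable {X M} (Y : Over X) {G : Type} (a : G → (Y ⟶ Y)) (ρ : G → M →+ M)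

/-- Equivariant locally constant functions on `T ⨯ Y`. -/
def gshSub (T : Over X) : AddSubgroup (LocallyConstant (T ⨯ Y).left M) where
  carrier := {f | ∀ g x, ρ g (f ((prod.map (𝟙 T) (a g)).left x)) = f x}
  zero_mem' g x := map_zero _
  add_mem' {f f'} h h' g x := by simp [h g x, h' g x]
  neg_mem' {f} h g x := by simp [h g x]

lemma gshSub_res {T T' : Over X} (t : T' ⟶ T) {f} (h : f ∈ gshSub Y a ρ T) :
    f.comap (cm (prod.map t (𝟙 Y))) ∈ gshSub Y a ρ T' := fun g x => by
  have e : prod.map (𝟙 T') (a g) ≫ prod.map t (𝟙 Y) =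
      prod.map t (𝟙 Y) ≫ prod.map (𝟙 T) (a g) := by simp
  have := h g ((prod.map t (𝟙 Y)).left x)
  rw [← Scheme.Hom.comp_apply, ← Over.comp_left, ← e] at this
  exact this

/-- The presheaf of equivariant locally constant functions. -/
noncomputable def gshP : PSh X where
  obj T := AddCommGrpCat.of (gshSub Y a ρ T.unop)
  map t := AddCommGrpCat.ofHom (((LocallyConstant.comapAddMonoidHom
    (cm (prod.map t.unop (𝟙 Y)))).comp (AddSubgroup.subtype _)).codRestrict _
      fun f => gshSub_res Y a ρ t.unop f.2)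
  map_id T := by ext f x; simp [cm]
  map_comp f g := by
    ext f x
    simp [cm, ← Scheme.Hom.comp_apply, ← Over.comp_left]

end lc

/-- Units of global sections. -/
noncomputable def GmP (X : Scheme.{0}) : PSh X where
  obj T := AddCommGrpCat.of (ULift.{1} (Additive Γ(T.unop.left, ⊤)ˣ))
  map g := AddCommGrpCat.ofHom (AddEquiv.ulift.symm.toAddMonoidHom.comp
    ((Units.map (g.unop.left.appTop.hom : _ →* _)).toAdditive.comp AddEquiv.ulift.toAddMonoidHom))
  map_id T := by ext f; simp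
  map_comp f g := by ext f; simp; rfl

end Pool.Agent.MP_855f4c_ag.E4

end

section

set_option autoImplicit false
set_option backward.isDefEq.respectTransparency false

open CategoryTheory Limits Opposite AlgebraicGeometry IsLocalRing

namespace Pool.Agent.MP_855f4c_ag.E4

open E E3

variable {X : Scheme.{0}} {R : Type} [CommRing R] (u : Spec (.of R) ⟶ X)
  {A C : Type} [CommRing A] [Algebra R A] [CommRing C] [Algebra R C]

/-- The structure map of a tower. -/
abbrev up (R A E : Type) [CommRing R] [CommRing A] [CommRing E] [Algebra R A] [Algebra A E]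
    [Algebra R E] [IsScalarTower R A E] : A →ₐ[R] E := IsScalarTower.toAlgHom R A E

/-- An etale `A`-algebra. -/
structure EtA (R A : Type) [CommRing R] [CommRing A] [Algebra R A] where
  E : Type
  [cr : CommRing E]
  [aA : Algebra A E]
  [aR : Algebra R E]
  [tw : IsScalarTower R A E]
  [et : Algebra.Etale A E]

attribute [instance] EtA.cr EtA.aA EtA.aR EtA.tw EtA.et

/-- The structure map. -/
abbrev EtA.ι (E : EtA R A) : A →ₐ[R] E.E := up R A E.E

/-- The prime `p` is in the image. -/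
def EtA.Hits (E : EtA R A) (p : Ideal A) : Prop :=
  ∃ q : Ideal E.E, q.IsPrime ∧ q.comap (algebraMap A E.E) = p

section
variable [Algebra A C] [IsScalarTower R A C]

theorem lfp_fac {P : PSh X} (hP : LFP P) {Q : ∀ (E : Type) [CommRing E] [Algebra A E], Prop}
    (H : Stage.Fac A C Q) :
    (∀ s : P.obj (op (ob u C)), ∃ (a : Stage A C Q) (t : P.obj (op (ob u a.E))),
      rs u P (a.φ.restrictScalars R) t = s) ∧
    ∀ (a : Stage A C Q) (t : P.obj (op (ob u a.E))), rs u P (a.φ.restrictScalars R) t = 0 →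
      ∃ (b : Stage A C Q) (f : a ⟶ b), rs u P (f.1.restrictScalars R) t = 0 := by
  have := H.isFiltered
  let D : (Stage A C Q)ᵒᵖ ⥤ Over X :=
    { obj a := ob u a.unop.E
      map f := hm u (f.unop.1.restrictScalars R)
      map_id a := hm_id u
      map_comp f g := hm_comp u (g.unop.1.restrictScalars R) (f.unop.1.restrictScalars R) }
  let c : Cone D :=
    { pt := ob u C
      π := { app a := hm u (a.unop.φ.restrictScalars R)
             naturality a b f := by
              refine (Category.id_comp _).trans ?_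
              have : b.unop.φ.restrictScalars R =
                  (a.unop.φ.restrictScalars R).comp (f.unop.1.restrictScalars R) :=
                AlgHom.ext fun x => (congr($(f.unop.2) x)).symm
              exact (congrArg (hm u) this).trans (hm_comp u _ _) } }
  let e : (Stage.diag A C Q).op ⋙ Scheme.Spec ≅ D ⋙ Over.forget X :=
    NatIso.ofComponents (fun _ => Iso.refl _) fun f =>
      (Category.comp_id _).trans (Category.id_comp _).symm
  have hc : IsLimit c := limOfForget (IsLimit.equivOfNatIsoOfIso e _ _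
    (Cone.ext (Iso.refl _) fun _ => (Category.comp_id _).trans (Category.id_comp _).symm)
    (isLimitOfPreserves Scheme.Spec H.isColimit.some.op))
  obtain ⟨h1, h2⟩ := hP _ D c (fun _ => inferInstanceAs (IsAffine (Spec _))) hc
  refine ⟨fun s => ?_, fun a t ht => ?_⟩
  · obtain ⟨i, t, ht⟩ := h1 s
    exact ⟨i.unop, t, ht⟩
  · obtain ⟨j, f, hf⟩ := h2 (op a) t ht
    exact ⟨j.unop, f.unop, hf⟩

theorem ind_surj {P : PSh X} (hP : LFP P) (H : IndEt A C) (s : P.obj (op (ob u C))) :
    ∃ (E : EtA R A) (h : E.E →ₐ[A] C) (t : P.obj (op (ob u E.E))),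
      rs u P (h.restrictScalars R) t = s := by
  obtain ⟨a, t, ht⟩ := (lfp_fac u hP (Stage.fac_etale H)).1 s
  have := a.prop
  exact ⟨⟨a.E⟩, a.φ, t, ht⟩

theorem ind_zero {P : PSh X} (hP : LFP P) (H : IndEt A C) (t : P.obj (op (ob u A)))
    (ht : rs u P (up R A C) t = 0) :
    ∃ (E : EtA R A) (_ : E.E →ₐ[A] C), rs u P E.ι t = 0 := by
  obtain ⟨a, -⟩ := Stage.fac_etale H A (Algebra.ofId A C)
  obtain ⟨b, f, hf⟩ := (lfp_fac u hP (Stage.fac_etale H)).2 a (rs u P (up R A a.E) t) (by
    rw [rs_rs, ← ht]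
    exact rs_congr u P (AlgHom.ext fun x => a.φ.commutes x) t)
  have := b.prop
  refine ⟨⟨b.E⟩, b.φ, ?_⟩
  rw [rs_rs] at hf
  rw [← hf]
  exact rs_congr u P (AlgHom.ext fun x => (f.1.commutes x).symm) t
end

instance (E : EtA R A) : Etale (hm u E.ι).left :=
  (HasRingHomProperty.Spec_iff (P := @Etale)).2 (RingHom.etale_algebraMap.2 E.et)

theorem mem_cov (S : Sieve (ob u A))
    (h : ∀ m : Ideal A, m.IsMaximal → ∃ E : EtA R A, E.Hits m ∧ S (hm u E.ι)) :
    S ∈ Scheme.etaleTopology.over X (ob u A) := by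
  refine mem_Jov_of S fun (t : PrimeSpectrum A) => ?_
  obtain ⟨m, hm', htm⟩ := t.asIdeal.exists_le_maximal t.isPrime.ne_top
  obtain ⟨E, ⟨q, hq, hqm⟩, hS⟩ := h m hm'
  refine ⟨_, hm u E.ι, inferInstance, hS, ?_⟩
  have ho : IsOpen (Set.range (hm u E.ι).left) := (hm u E.ι).left.isOpenMap.isOpen_range
  refine (show t ⤳ (⟨m, hm'.isPrime⟩ : PrimeSpectrum A) from
    (PrimeSpectrum.le_iff_specializes _ _).1 htm).mem_open ho ⟨⟨q, hq⟩, PrimeSpectrum.ext hqm⟩

theorem of_mem_cov {S : Sieve (ob u A)} (hS : S ∈ Scheme.etaleTopology.over X (ob u A)) (p : Ideal A) [p.IsPrime] :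
    ∃ E : EtA R A, E.Hits p ∧ S (hm u E.ι) := by
  obtain ⟨V, v, _, _, hv, z, hz⟩ := exists_of_mem_Jov hS (⟨p, inferInstance⟩ : PrimeSpectrum A)
  obtain ⟨φ, hφ⟩ := Spec.map_surjective (V.left.isoSpec.inv ≫ v.left)
  let _ : Algebra A Γ(V.left, ⊤) := φ.hom.toAlgebra
  let _ : Algebra R Γ(V.left, ⊤) := (φ.hom.comp (algebraMap R A)).toAlgebra
  have : IsScalarTower R A Γ(V.left, ⊤) := IsScalarTower.of_algebraMap_eq fun _ => rfl
  have : Algebra.Etale A Γ(V.left, ⊤) := by
    have : Etale (Spec.map φ) := by rw [hφ]; infer_instance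
    exact (HasRingHomProperty.Spec_iff (P := @Etale)).1 this
  let E : EtA R A := ⟨Γ(V.left, ⊤)⟩
  have e : (hm u E.ι).left = V.left.isoSpec.inv ≫ v.left := hφ
  refine ⟨E, ⟨(V.left.isoSpec.hom z).asIdeal, PrimeSpectrum.isPrime _, ?_⟩, ?_⟩
  · have : (hm u E.ι).left (V.left.isoSpec.hom z) = v.left z := by
      rw [e]
      exact (Scheme.Hom.comp_apply _ _ _).symm.trans (by rw [Iso.hom_inv_id_assoc])
    exact congrArg PrimeSpectrum.asIdeal (this.trans hz)
  · let w : ob u E.E ⟶ V := Over.homMk V.left.isoSpec.inv (by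
      rw [← Over.w v, ← Category.assoc, ← e]; exact Over.w _)
    have : hm u E.ι = w ≫ v := Over.OverMorphism.ext e
    rw [this]
    exact S.downward_closed hv w

theorem sep_ring (F : Sh (Scheme.etaleTopology.over X)) (s : F.obj.obj (op (ob u A)))
    (h : ∀ m : Ideal A, m.IsMaximal → ∃ E : EtA R A, E.Hits m ∧ rs u F.obj E.ι s = 0) :
    s = 0 :=
  sepP F.property s
    ⟨fun _ y => F.obj.map y.op s = 0, fun h g => by rw [← res_res, h, map_zero]⟩
    (mem_cov u _ h) fun _ _ hy => hy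

/-- Sections lift through an epimorphism on an etale neighbourhood. -/
theorem loc_lift {G G' : Sh (Scheme.etaleTopology.over X)} (φ : G ⟶ G') [Epi φ] (s : G'.obj.obj (op (ob u A)))
    (p : Ideal A) [p.IsPrime] :
    ∃ E : EtA R A, E.Hits p ∧ ∃ t, φ.hom.app _ t = rs u G'.obj E.ι s := by
  have : Sheaf.IsLocallySurjective φ := (Sheaf.isLocallySurjective_iff_epi' _ φ).2 inferInstance
  exact of_mem_cov u (Presheaf.imageSieve_mem (Scheme.etaleTopology.over X) φ.hom s) p

theorem EtA.sec [SHL A] (E : EtA R A) (h : E.Hits (maximalIdeal A)) :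
    ∃ σ : E.E →ₐ[R] A, σ.comp E.ι = AlgHom.id R A := by
  obtain ⟨q, hq, h⟩ := h
  obtain ⟨s, -⟩ := SHL.sec (A := A) E.E q hq h
  exact ⟨s.restrictScalars R, AlgHom.ext fun x => s.commutes x⟩

theorem shl_lift [SHL A] {G G' : Sh (Scheme.etaleTopology.over X)} (φ : G ⟶ G') [Epi φ] :
    Function.Surjective (φ.hom.app (op (ob u A))) := fun s => by
  obtain ⟨E, h, t, ht⟩ := loc_lift u φ s (maximalIdeal A)
  obtain ⟨σ, hσ⟩ := E.sec h
  exact ⟨rs u G.obj σ t, by rw [rs_nat, ht, rs_rs, hσ, rs_id]⟩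

/-- An affine scheme over `X` is the spectrum of a ring. -/
theorem exists_ob (T : Over X) [IsAffine T.left] :
    ∃ (R : Type) (_ : CommRing R) (u : Spec (.of R) ⟶ X), Nonempty (ob u R ≅ T) :=
  ⟨Γ(T.left, ⊤), inferInstance, T.left.isoSpec.inv ≫ T.hom,
    ⟨Over.isoMk T.left.isoSpec.symm (by simp)⟩⟩

/-- A sieve is covering as soon as this is so on affines. -/
theorem mem_of_aff {T : Over X} (S : Sieve T)
    (h : ∀ (R : Type) [CommRing R] (u : Spec (.of R) ⟶ X) (v : ob u R ⟶ T),
      S.pullback v ∈ Scheme.etaleTopology.over X (ob u R)) : S ∈ Scheme.etaleTopology.over X T := by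
  let S₀ : Sieve T := ⟨fun V v => S.pullback v ∈ Scheme.etaleTopology.over X V, fun {V W v} h g => by
    rw [Sieve.pullback_comp]; exact (Scheme.etaleTopology.over X).pullback_stable g h⟩
  refine (Scheme.etaleTopology.over X).transitive (S := S₀) (mem_Jov_of _ fun t => ?_) _ fun _ _ h => h
  obtain ⟨V, v, _, _, -, ht⟩ := exists_of_mem_Jov ((Scheme.etaleTopology.over X).top_mem T) t
  obtain ⟨R, _, u, ⟨e⟩⟩ := exists_ob V
  refine ⟨V, v, inferInstance, ?_, ht⟩
  have := (Scheme.etaleTopology.over X).pullback_stable e.inv (h R u (e.hom ≫ v))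
  rwa [← Sieve.pullback_comp, Iso.inv_hom_id_assoc] at this

/-- Local lifting on affines gives an epimorphism. -/
theorem epi_of_loc {G G' : Sh (Scheme.etaleTopology.over X)} (φ : G ⟶ G')
    (h : ∀ (R : Type) [CommRing R] (u : Spec (.of R) ⟶ X) (s : G'.obj.obj (op (ob u R)))
      (m : Ideal R), m.IsMaximal →
      ∃ E : EtA R R, E.Hits m ∧ ∃ t, φ.hom.app _ t = rs u G'.obj E.ι s) : Epi φ := by
  refine (Sheaf.isLocallySurjective_iff_epi' _ φ).1 ⟨fun {T} s => ?_⟩
  refine mem_of_aff _ fun R _ u v => mem_cov u _ fun m hm' => ?_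
  obtain ⟨E, h1, t, ht⟩ := h R u (G'.obj.map v.op s) m hm'
  exact ⟨E, h1, t, ht.trans (res_res _ _ _ _)⟩

section germ
variable {l : ℕ} {F : Sh (Scheme.etaleTopology.over X)} (hF : Cc l F) (hl : IsUnit (l : A))
  {k : Type} [Field k] [IsAlgClosed k] [Algebra R k] (τ : A →ₐ[R] k)

omit hF hl in
theorem exists_sh : ∃ (S : Type) (_ : CommRing S) (_ : Algebra A S) (_ : Algebra R S)
    (_ : IsScalarTower R A S) (_ : SHL S) (σ : S →ₐ[R] k), IndEt A S ∧
      RingHom.ker σ = maximalIdeal S ∧ σ.comp (up R A S) = τ := by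
  let _ : Algebra A k := (τ : A →+* k).toAlgebra
  obtain ⟨S, _, _, _, _, _, h1, h2⟩ := exists_SH A k
  let _ : Algebra R S := ((algebraMap A S).comp (algebraMap R A)).toAlgebra
  have : IsScalarTower R A S := IsScalarTower.of_algebraMap_eq fun _ => rfl
  have e (a : A) : algebraMap S k (algebraMap A S a) = τ a :=
    (IsScalarTower.algebraMap_apply A S k a).symm
  exact ⟨S, _, _, _, this, inferInstance,
    ⟨algebraMap S k, fun r => (e _).trans (τ.commutes r)⟩, h1, ker_eq_max (algebraMap S k),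
    AlgHom.ext e⟩

include hF hl

theorem germ_surj (s : F.obj.obj (op (ob u k))) :
    ∃ (E : EtA R A) (σ : E.E →ₐ[R] k) (t : F.obj.obj (op (ob u E.E))),
      σ.comp E.ι = τ ∧ rs u F.obj σ t = s := by
  obtain ⟨S, _, _, _, _, _, σ, h1, h2, h3⟩ := exists_sh τ
  obtain ⟨s, rfl⟩ := (rig u hF.2 σ h2 (by simpa using hl.map (algebraMap A S))).2 s
  obtain ⟨E, h, t, rfl⟩ := ind_surj u hF.1 h1 s
  exact ⟨E, σ.comp (h.restrictScalars R), t, by
    rw [← h3]; exact AlgHom.ext fun x => congrArg σ (h.commutes x), (rs_rs _ _ _ _ _).symm⟩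

theorem germ_zero (t : F.obj.obj (op (ob u A))) (ht : rs u F.obj τ t = 0) :
    ∃ (E : EtA R A) (σ : E.E →ₐ[R] k), σ.comp E.ι = τ ∧ rs u F.obj E.ι t = 0 := by
  obtain ⟨S, _, _, _, _, _, σ, h1, h2, h3⟩ := exists_sh τ
  obtain ⟨E, h, hE⟩ := ind_zero u hF.1 h1 t
    ((rig u hF.2 σ h2 (by simpa using hl.map (algebraMap A S))).1 (by
      rw [rs_rs, h3, ht, map_zero]))
  exact ⟨E, σ.comp (h.restrictScalars R), by
    rw [← h3]; exact AlgHom.ext fun x => congrArg σ (h.commutes x), hE⟩
end germ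

theorem EtA.hits_ker (E : EtA R A) {k : Type} [CommRing k] [IsDomain k] [Algebra R k]
    {τ : A →ₐ[R] k} (σ : E.E →ₐ[R] k) (h : σ.comp E.ι = τ) : E.Hits (RingHom.ker τ) :=
  ⟨RingHom.ker σ, RingHom.ker_isPrime _, by rw [← h]; rfl⟩

/-- A section that vanishes at one geometric point over every maximal ideal is zero. -/
theorem pt_ring {l : ℕ} {F : Sh (Scheme.etaleTopology.over X)} (hF : Cc l F) (hl : IsUnit (l : A))
    (s : F.obj.obj (op (ob u A)))
    (h : ∀ m : Ideal A, m.IsMaximal → ∃ (k : Type) (_ : Field k) (_ : IsAlgClosed k)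
      (_ : Algebra R k) (τ : A →ₐ[R] k), RingHom.ker τ = m ∧ rs u F.obj τ s = 0) : s = 0 := by
  refine sep_ring u F s fun m hm' => ?_
  obtain ⟨k, _, _, _, τ, rfl, h0⟩ := h m hm'
  obtain ⟨E, σ, h1, h2⟩ := germ_zero u hF hl τ s h0
  exact ⟨E, E.hits_ker σ h1, h2⟩

theorem zero_of_subsingleton [Subsingleton A] (F : Sh (Scheme.etaleTopology.over X)) (s : F.obj.obj (op (ob u A))) :
    s = 0 :=
  sep_ring u F s fun _ hm' => (hm'.ne_top (Subsingleton.elim _ _)).elim

theorem zero_of_isEmpty (F : Sh (Scheme.etaleTopology.over X)) (T : Over X) [IsEmpty T.left] (s : F.obj.obj (op T)) :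
    s = 0 :=
  sepP F.property s ⊥ (mem_Jov_of _ fun t => isEmptyElim t) fun _ _ h => h.elim

/-- Sections over a finite product of rings. -/
theorem pi_bij (F : Sh (Scheme.etaleTopology.over X)) {ι : Type} [Finite ι] (D : ι → Type) [∀ i, CommRing (D i)]
    [∀ i, Algebra R (D i)] :
    Function.Bijective fun (s : F.obj.obj (op (ob u (∀ i, D i)))) (i : ι) =>
      rs u F.obj (Pi.evalAlgHom R D i) s := by
  classical
  have ho (i) : IsOpenImmersion (hm u (Pi.evalAlgHom R D i)).left :=
    inferInstanceAs (IsOpenImmersion (Spec.map (CommRingCat.ofHom (Pi.evalRingHom D i))))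
  have hc : Sieve.ofArrows _ (fun i => hm u (Pi.evalAlgHom R D i)) ∈ Scheme.etaleTopology.over X _ :=
    mem_Jov_of _ fun t => by
      obtain ⟨i, q, hq⟩ := PrimeSpectrum.exists_comap_evalRingHom_eq t
      exact ⟨_, hm u (Pi.evalAlgHom R D i), inferInstance, Sieve.ofArrows_mk _ _ i, q, hq⟩
  refine ⟨fun s t h => sepP' F.property s t _ hc ?_, fun s => ?_⟩
  · rintro Y _ ⟨_, a, _, ⟨i⟩, rfl⟩
    rw [← res_res, ← res_res]
    exact congrArg _ (congrFun h i)
  · obtain ⟨t, ht⟩ := glue F.property (fun Y y x => ∃ (i : ι) (a : Y ⟶ ob u (D i)),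
      a ≫ hm u (Pi.evalAlgHom R D i) = y ∧ x = F.obj.map a.op (s i)) _ hc (by
        rintro Y _ ⟨_, a, _, ⟨i⟩, rfl⟩
        exact ⟨_, i, a, rfl, rfl⟩) (by
        rintro Z Y g _ _ ⟨i, a, rfl, rfl⟩
        exact ⟨i, g ≫ a, Category.assoc _ _ _, res_res _ _ _ _⟩) (by
        rintro Y _ _ _ ⟨i, a, rfl, rfl⟩ ⟨j, b, e, rfl⟩
        by_cases hij : j = i
        · subst hij
          have : Mono (hm u (Pi.evalAlgHom R D j)) := Over.mono_of_mono_left _
          rw [(cancel_mono _).1 e]
        · have : IsEmpty Y.left := ⟨fun y => by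
            have e1 : (hm u (Pi.evalAlgHom R D j)).left (b.left y) =
                (hm u (Pi.evalAlgHom R D i)).left (a.left y) := by
              rw [← Scheme.Hom.comp_apply, ← Scheme.Hom.comp_apply, ← Over.comp_left, e,
                Over.comp_left]
            have e2 : Pi.single j 1 ∈ ((hm u (Pi.evalAlgHom R D i)).left (a.left y)).asIdeal := by
              change (Pi.single j 1 : ∀ i, D i) i ∈ (a.left y).asIdeal
              rw [Pi.single_eq_of_ne' hij]; exact zero_mem _
            rw [← e1] at e2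
            change (Pi.single j 1 : ∀ i, D i) j ∈ (b.left y).asIdeal at e2
            rw [Pi.single_eq_same] at e2
            exact (b.left y).isPrime.ne_top ((Ideal.eq_top_iff_one _).2 e2)⟩
          rw [zero_of_isEmpty F Y (F.obj.map a.op _), zero_of_isEmpty F Y (F.obj.map b.op _)])
    exact ⟨t, funext fun i => ht _ _ ⟨i, 𝟙 _, Category.id_comp _, (res_id _ _).symm⟩⟩

/-- Left exactness on sections. -/
theorem sec_exact {S : ShortComplex (Sh (Scheme.etaleTopology.over X))} (hS : S.Exact) [Mono S.f] (T : Over X) :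
    Function.Injective (S.f.hom.app (op T)) ∧
      ∀ y, S.g.hom.app (op T) y = 0 ↔ ∃ x, S.f.hom.app (op T) x = y := by
  refine ⟨fun x y h => ?_, fun y => ⟨fun h => ?_, ?_⟩⟩
  · obtain ⟨x, rfl⟩ := (frEquiv T _).surjective x
    obtain ⟨y, rfl⟩ := (frEquiv T _).surjective y
    rw [← frEquiv_post, ← frEquiv_post, (frEquiv T _).injective.eq_iff, cancel_mono] at h
    rw [h]
  · obtain ⟨y, rfl⟩ := (frEquiv T _).surjective y
    rw [← frEquiv_post, map_eq_zero_iff _ (frEquiv T _).injective] at h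
    obtain ⟨x, rfl⟩ := hS.lift' y h
    exact ⟨frEquiv T _ x, (frEquiv_post _ _).symm⟩
  · rintro ⟨x, rfl⟩
    obtain ⟨x, rfl⟩ := (frEquiv T _).surjective x
    rw [← frEquiv_post, ← frEquiv_post, Category.assoc, S.zero, comp_zero, map_zero]

end Pool.Agent.MP_855f4c_ag.E4

end

section

set_option autoImplicit false
set_option backward.isDefEq.respectTransparency false

open CategoryTheory Limits Opposite AlgebraicGeometry IsLocalRing TensorProduct

namespace Pool.Agent.MP_855f4c_ag.E4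

open E E3

theorem locfin (A : Type) {D E k : Type} [CommRing A] [SHL A] [CommRing D] [Algebra A D]
    [Module.Finite A D] [CommRing E] [Algebra D E] [Algebra.Etale D E] [Field k] [Algebra D k]
    (σ : E →ₐ[D] k) (h : maximalIdeal A ≤ (RingHom.ker (algebraMap D k)).comap (algebraMap A D)) :
    ∃ e : D, IsIdempotentElem e ∧ ∃ (ψ : E →ₐ[D] D ⧸ Ideal.span {1 - e})
      (τ : (D ⧸ Ideal.span {1 - e}) →ₐ[D] k), τ.comp ψ = σ := by
  obtain ⟨_, e, he, h1, h2⟩ := SHL.finite_pi A D
  have hq : (RingHom.ker (algebraMap D k)).IsMaximal := by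
    have := RingHom.ker_isPrime (algebraMap D k)
    refine Ideal.isMaximal_of_isIntegral_of_isMaximal_comap (R := A) _ ?_
    rw [← (maximalIdeal.isMaximal A).eq_of_le (Ideal.IsPrime.ne_top inferInstance) h]
    infer_instance
  let q : MaximalSpectrum D := ⟨_, hq⟩
  have hq1 : algebraMap D k (e q) = 1 :=
    (IsIdempotentElem.iff_eq_zero_or_one.1 ((he.idem q).map (algebraMap D k))).resolve_left
      fun h => (h1 q q).1 h rfl
  have := h2 q
  let r : (D ⧸ Ideal.span {1 - e q}) →ₐ[D] k := Ideal.Quotient.liftₐ _ (Algebra.ofId _ _)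
    fun a ha => by
      obtain ⟨c, rfl⟩ := Ideal.mem_span_singleton.1 ha
      simp [Algebra.ofId_apply, hq1]
  have : IsLocalHom r := ⟨fun a ha => by
    have := RingHom.ker_isPrime r
    have h3 : (RingHom.ker r).IsMaximal :=
      Ideal.isMaximal_of_isIntegral_of_isMaximal_comap (R := D) _ (by
        have h : (RingHom.ker r).comap (algebraMap D _) = RingHom.ker (algebraMap D k) :=
          Ideal.ext fun x => by rw [Ideal.mem_comap, RingHom.mem_ker, r.commutes, RingHom.mem_ker]
        rw [h]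
        exact hq)
    by_contra h
    have h4 : a ∈ RingHom.ker r := eq_maximalIdeal h3 ▸ (mem_maximalIdeal _).2 h
    exact ha.ne_zero h4⟩
  obtain ⟨s, hs⟩ := SHL.lift_etale r σ
  exact ⟨e q, he.idem q, s, r, hs⟩

lemma mk_idem {D : Type} [CommRing D] (e : D) : Ideal.Quotient.mk (Ideal.span {1 - e}) e = 1 := by
  rw [eq_comm, ← map_one (Ideal.Quotient.mk (Ideal.span {1 - e})), Ideal.Quotient.eq]
  exact Ideal.subset_span rfl

theorem locbc (A : Type) {D0 D S0 E k : Type} [CommRing A] [SHL A] [CommRing D0] [Algebra A D0]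
    [Module.Finite A D0] [CommRing D] [Algebra D0 D] [CommRing S0] [Algebra D0 S0]
    [Algebra.Etale D0 S0] [CommRing E] [Algebra D E] (i : D ⊗[D0] S0 ≃ₐ[D] E) [Field k]
    (σ : E →+* k) (hσ : ∀ a ∈ maximalIdeal A,
      σ (algebraMap D E (algebraMap D0 D (algebraMap A D0 a))) = 0) :
    ∃ e : D, IsIdempotentElem e ∧ ∃ (ψ : E →ₐ[D] D ⧸ Ideal.span {1 - e})
      (τ : D ⧸ Ideal.span {1 - e} →+* k), ∀ x, τ (ψ x) = σ x := by
  let : Algebra D0 k := (σ.comp ((algebraMap D E).comp (algebraMap D0 D))).toAlgebra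
  let j : S0 →+* E := (i : D ⊗[D0] S0 →+* E).comp Algebra.TensorProduct.includeRight.toRingHom
  obtain ⟨e, he, s, r, hs⟩ := locfin A (⟨σ.comp j, fun x => congrArg σ ((congrArg i
    (Algebra.TensorProduct.includeRight.commutes x)).trans (i.commutes _))⟩ : S0 →ₐ[D0] k) hσ
  have h1 : algebraMap D0 k e = 1 := by
    rw [← r.commutes, Ideal.Quotient.algebraMap_eq, mk_idem, map_one]
  let c : (D0 ⧸ Ideal.span {1 - e}) →ₐ[D0] D ⧸ Ideal.span {1 - algebraMap D0 D e} :=
    Ideal.Quotient.liftₐ _ (Algebra.ofId _ _) fun a ha => by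
      obtain ⟨c, rfl⟩ := Ideal.mem_span_singleton.1 ha
      rw [map_mul, map_sub, map_one]
      exact mul_eq_zero_of_left (sub_eq_zero.2 (mk_idem _).symm) _
  let τ : D ⧸ Ideal.span {1 - algebraMap D0 D e} →+* k :=
    Ideal.Quotient.lift _ (σ.comp (algebraMap D E)) fun a ha => by
      obtain ⟨c, rfl⟩ := Ideal.mem_span_singleton.1 ha
      rw [map_mul, map_sub, map_one]
      exact mul_eq_zero_of_left (sub_eq_zero.2 h1.symm) _
  have hτ : ∀ y, τ (c y) = r y := fun y => by
    obtain ⟨y, rfl⟩ := Ideal.Quotient.mk_surjective y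
    exact (r.commutes y).symm
  refine ⟨_, he.map (algebraMap D0 D), (Algebra.TensorProduct.lift (Algebra.ofId _ _) (c.comp s)
    fun _ _ => .all _ _).comp i.symm.toAlgHom, τ, fun x => ?_⟩
  obtain ⟨x, rfl⟩ := i.surjective x
  simp only [AlgHom.comp_apply, AlgEquiv.coe_toAlgHom, AlgEquiv.symm_apply_apply]
  induction x using TensorProduct.induction_on with
  | zero => simp
  | add x y hx hy => rw [map_add, map_add, hx, hy, map_add, map_add]
  | tmul b y =>
    have h3 : i (b ⊗ₜ y) = algebraMap D E b * j y := by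
      rw [← i.commutes]
      change _ = i _ * i _
      rw [← map_mul]; simp
    rw [h3, Algebra.TensorProduct.lift_tmul, map_mul, map_mul, AlgHom.comp_apply, hτ]
    exact congrArg₂ (· * ·) rfl congr($hs y)

/-- An etale neighbourhood of a closed point of a ring that is integral over a strictly henselian
ring has a section over a closed and open neighbourhood. -/
theorem locsec (A : Type) {D E k : Type} [CommRing A] [SHL A] [CommRing D] [Algebra A D]
    [Algebra.IsIntegral A D] [CommRing E] [Algebra D E] [Algebra.Etale D E] [Field k]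
    (σ : E →+* k) (hσ : ∀ a ∈ maximalIdeal A, σ (algebraMap D E (algebraMap A D a)) = 0) :
    ∃ e : D, IsIdempotentElem e ∧ ∃ (ψ : E →ₐ[D] D ⧸ Ideal.span {1 - e})
      (τ : D ⧸ Ideal.span {1 - e} →+* k), ∀ x, τ (ψ x) = σ x := by
  obtain ⟨D0, S0, _, _, hfg, _, ⟨i⟩⟩ := Algebra.Etale.exists_subalgebra_fg A D E
  have := finite_of_fg D0 hfg
  exact locbc A i.symm σ hσ

variable {X : Scheme.{0}} {R : Type} [CommRing R] (u : Spec (.of R) ⟶ X)
  {D : Type} [CommRing D] [Algebra R D]

/-- Sections over a decomposition by idempotents. -/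
theorem coi_bij (F : Sh (Scheme.etaleTopology.over X)) {ι : Type} [Fintype ι] {e : ι → D}
    (he : CompleteOrthogonalIdempotents e) :
    Function.Bijective fun (s : F.obj.obj (op (ob u D))) (i : ι) =>
      rs u F.obj (Ideal.Quotient.mkₐ R (Ideal.span {1 - e i})) s := by
  obtain ⟨ε, hε⟩ : ∃ ε : D ≃ₐ[R] ∀ i, D ⧸ Ideal.span {1 - e i}, ∀ i,
      (Pi.evalAlgHom R (fun i => D ⧸ Ideal.span {1 - e i}) i).comp
        (ε : D →ₐ[R] ∀ i, D ⧸ Ideal.span {1 - e i}) = Ideal.Quotient.mkₐ R _ :=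
    ⟨AlgEquiv.ofBijective (AlgHom.pi fun i => Ideal.Quotient.mkₐ R _) he.bijective_pi,
      fun _ => rfl⟩
  have h1 := pi_bij u F fun i => D ⧸ Ideal.span {1 - e i}
  have h2 := rs_equiv u F.obj ε
  constructor
  · intro s t h
    refine h2.1 (h1.1 (funext fun i => ?_))
    beta_reduce
    rw [rs_rs, rs_rs, hε]
    exact congrFun h i
  · intro s
    obtain ⟨t, rfl⟩ := h1.2 s
    obtain ⟨t, rfl⟩ := h2.2 t
    exact ⟨t, funext fun i => by beta_reduce; rw [rs_rs, hε]⟩

lemma rs_quot (P : PSh X) {B : Type} [CommRing B] [Algebra R B] (φ : D →ₐ[R] B) {e : D}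
    (h : φ e = 1) {s t : P.obj (op (ob u D))}
    (hst : rs u P (Ideal.Quotient.mkₐ R (Ideal.span {1 - e})) s =
      rs u P (Ideal.Quotient.mkₐ R (Ideal.span {1 - e})) t) : rs u P φ s = rs u P φ t := by
  let φ' : (D ⧸ Ideal.span {1 - e}) →ₐ[R] B := Ideal.Quotient.liftₐ _ φ fun a ha => by
    obtain ⟨c, rfl⟩ := Ideal.mem_span_singleton.1 ha
    simp [h]
  have : φ = φ'.comp (Ideal.Quotient.mkₐ R _) := rfl
  rw [this, ← rs_rs, ← rs_rs, hst]

lemma coi_two {e : D} (he : IsIdempotentElem e) :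
    CompleteOrthogonalIdempotents fun b : Bool => cond b e (1 - e) where
  idem b := by cases b; exacts [he.one_sub, he]
  ortho a b h := by
    cases a <;> cases b <;> simp_all [he.one_sub_mul_self, he.mul_one_sub_self]
  complete := by simp

theorem quot_surj (F : Sh (Scheme.etaleTopology.over X)) {e : D} (he : IsIdempotentElem e) :
    Function.Surjective (rs u F.obj (Ideal.Quotient.mkₐ R (Ideal.span {1 - e}))) := fun s => by
  obtain ⟨t, ht⟩ := (coi_bij u F (coi_two he)).2 fun b => by cases b; exacts [0, s]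
  exact ⟨t, congrFun ht true⟩

/-- Two sections are mixed along an idempotent. -/
theorem mix (F : Sh (Scheme.etaleTopology.over X)) {e : D} (he : IsIdempotentElem e) (t₁ t₂ : F.obj.obj (op (ob u D))) :
    ∃ t, ∀ (B : Type) [CommRing B] [Algebra R B] (φ : D →ₐ[R] B),
      (φ e = 1 → rs u F.obj φ t = rs u F.obj φ t₁) ∧ (φ e = 0 → rs u F.obj φ t = rs u F.obj φ t₂) := by
  obtain ⟨t, ht⟩ := (coi_bij u F (coi_two he)).2 fun b => rs u F.obj (Ideal.Quotient.mkₐ R _)
    (cond b t₁ t₂)
  exact ⟨t, fun B _ _ φ => ⟨fun h => rs_quot u _ φ h (congrFun ht true), fun h =>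
    rs_quot u _ φ (e := 1 - e) (by simp [h]) (congrFun ht false)⟩⟩

section pt
variable {l : ℕ} {F : Sh (Scheme.etaleTopology.over X)} (hF : Cc l F) (A : Type) [CommRing A] [SHL A] [Algebra A D]
  [Algebra.IsIntegral A D] (hl : IsUnit (l : D)) {k : Type} [Field k] [IsAlgClosed k] [Algebra R k]
  (τ : D →ₐ[R] k) (hτ : ∀ a ∈ maximalIdeal A, τ (algebraMap A D a) = 0)
include hF hl hτ

/-- Values at a closed point are attained. -/
theorem pt_surj : Function.Surjective (rs u F.obj τ) := fun s => by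
  obtain ⟨E, σ, t, h1, rfl⟩ := germ_surj u hF hl τ s
  obtain ⟨e, he, ψ, τ', h⟩ := locsec A (D := D) (σ : E.E →+* k) fun a ha => by
    rw [← hτ a ha, ← h1]; rfl
  let τ₁ : (D ⧸ Ideal.span {1 - e}) →ₐ[R] k := ⟨τ', fun r => by
    rw [← σ.commutes, ← (ψ.restrictScalars R).commutes]; exact h _⟩
  obtain ⟨t', ht'⟩ := quot_surj u F he (rs u F.obj (ψ.restrictScalars R) t)
  have h2 : τ = τ₁.comp (Ideal.Quotient.mkₐ R _) := AlgHom.ext fun d => by
    rw [← h1]
    exact (h (algebraMap D _ d)).symm.trans (congrArg τ' (ψ.commutes d))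
  refine ⟨t', ?_⟩
  rw [h2, ← rs_rs, ht', rs_rs]
  exact rs_congr u _ (AlgHom.ext h) t

/-- A section that vanishes at a closed point vanishes on a closed and open neighbourhood. -/
theorem pt_zero (t : F.obj.obj (op (ob u D))) (ht : rs u F.obj τ t = 0) :
    ∃ e : D, IsIdempotentElem e ∧ τ e = 1 ∧ ∀ (B : Type) [CommRing B] [Algebra R B]
      (φ : D →ₐ[R] B), φ e = 1 → rs u F.obj φ t = 0 := by
  obtain ⟨E, σ, h1, h0⟩ := germ_zero u hF hl τ t ht
  obtain ⟨e, he, ψ, τ', h⟩ := locsec A (D := D) (σ : E.E →+* k) fun a ha => by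
    rw [← hτ a ha, ← h1]; rfl
  refine ⟨e, he, ?_, fun B _ _ φ hφ => (rs_quot u _ φ hφ ?_).trans (map_zero _)⟩
  · have h3 := h (algebraMap D _ e)
    rw [ψ.commutes, Ideal.Quotient.algebraMap_eq, mk_idem, map_one] at h3
    rw [← h1]
    exact h3.symm
  · have : Ideal.Quotient.mkₐ R (Ideal.span {1 - e}) = (ψ.restrictScalars R).comp E.ι :=
      AlgHom.ext fun d => (ψ.commutes d).symm
    rw [map_zero, this, ← rs_rs, h0, map_zero]

end pt

/-- A property of idempotents that is stable under joins and holds near every point holds for `1`. -/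
lemma idem_ind {p : D → Prop} (h0 : p 0) (hj : ∀ e f, IsIdempotentElem e → IsIdempotentElem f →
    p e → p f → p (e + f - e * f))
    (h : ∀ q : Ideal D, q.IsMaximal → ∃ e, IsIdempotentElem e ∧ p e ∧ e ∉ q) : p 1 := by
  have key : ∀ x ∈ Ideal.span {e | IsIdempotentElem e ∧ p e},
      ∃ e, IsIdempotentElem e ∧ p e ∧ e * x = x := fun x hx => by
    induction hx using Submodule.span_induction with
    | mem x hx => exact ⟨x, hx.1, hx.2, hx.1⟩
    | zero => exact ⟨0, .zero, h0, mul_zero _⟩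
    | add x y _ _ hx hy =>
      obtain ⟨e, he, pe, ex⟩ := hx
      obtain ⟨f, hf, pf, fy⟩ := hy
      refine ⟨_, he.add_sub_mul hf, hj e f he hf pe pf, ?_⟩
      linear_combination (1 - f) * ex + (1 - e) * fy
    | smul a x _ hx =>
      obtain ⟨e, he, pe, ex⟩ := hx
      exact ⟨e, he, pe, by rw [smul_eq_mul, mul_left_comm, ex]⟩
  obtain ⟨e, -, pe, h1⟩ := key 1 (by
    by_contra hne
    obtain ⟨q, hq, hle⟩ := Ideal.exists_le_maximal _ ((Ideal.ne_top_iff_one _).2 hne)
    obtain ⟨e, he, pe, hn⟩ := h q hq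
    exact hn (hle (Ideal.subset_span ⟨he, pe⟩)))
  rw [mul_one] at h1
  rwa [h1] at pe

instance shl_field (k : Type) [Field k] [IsAlgClosed k] : SHL k :=
  Aic.shl fun p _ hd =>
    IsAlgClosed.exists_root p fun h => hd (Polynomial.natDegree_eq_zero_iff_degree_le_zero.2 h.le)

/-- A section over an integral algebra over an algebraically closed field that vanishes at all
rational points is zero. -/
theorem pt_alg {l : ℕ} {F : Sh (Scheme.etaleTopology.over X)} (hF : Cc l F) (k : Type) [Field k] [IsAlgClosed k]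
    [Algebra k D] [Algebra.IsIntegral k D] (hl : IsUnit (l : D)) (s : F.obj.obj (op (ob u D)))
    (h : ∀ (_ : Algebra R k) (φ : D →ₐ[R] k), (∀ c, φ (algebraMap k D c) = c) →
      rs u F.obj φ s = 0) : s = 0 := by
  refine pt_ring u hF hl s fun m hm => ?_
  obtain ⟨τ, hτ⟩ := exists_point (R := k) (M := k) m (by
    rw [(Ideal.eq_bot_or_top (m.comap (algebraMap k D))).resolve_right
      (Ideal.IsPrime.ne_top inferInstance)]
    exact ((RingHom.injective_iff_ker_eq_bot _).1 (algebraMap k k).injective).symm)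
  let : Algebra R k := ((τ : D →+* k).comp (algebraMap R D)).toAlgebra
  exact ⟨k, inferInstance, inferInstance, this, ⟨τ, fun _ => rfl⟩, hτ, h _ _ τ.commutes⟩

/-- Rigidity for rings that are integral over a strictly henselian ring. -/
theorem rig_int {l : ℕ} {F : Sh (Scheme.etaleTopology.over X)} (hF : Cc l F) (A D k D' : Type) [CommRing A] [SHL A]
    [CommRing D] [Algebra R D] [Algebra A D] [Algebra.IsIntegral A D] [Field k] [IsAlgClosed k]
    [Algebra A k] [CommRing D'] [Algebra R D'] [Algebra A D'] [Algebra k D'] [Algebra D D']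
    [IsScalarTower A k D'] [IsScalarTower A D D'] [IsScalarTower R D D']
    [Algebra.IsPushout A k D D'] (hk : RingHom.ker (algebraMap A k) = maximalIdeal A)
    (hl : IsUnit (l : A)) : Function.Bijective (rs u F.obj (up R D D')) := by
  have hD : IsUnit (l : D) := by simpa using hl.map (algebraMap A D)
  have hD' : IsUnit (l : D') := by simpa using hl.map (algebraMap A D')
  have : Algebra.IsIntegral k D' := Algebra.IsPushout.isIntegral' A k D D'
  have pts : ∀ q : Ideal D, q.IsMaximal → ∃ (_ : Algebra R k) (φ : D' →ₐ[R] k),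
      (∀ c, φ (algebraMap k D' c) = c) ∧ RingHom.ker (φ.comp (up R D D')) = q := fun q hq => by
    obtain ⟨τ, hτ⟩ := exists_point (R := A) (M := k) q
      ((liesOver_of_integral (A := A) q).over.symm.trans hk.symm)
    let ω := Algebra.pushoutDesc D' (AlgHom.id A k) τ fun _ _ => mul_comm _ _
    let : Algebra R k := ((ω : D' →+* k).comp (algebraMap R D')).toAlgebra
    refine ⟨this, ⟨ω, fun _ => rfl⟩, Algebra.pushoutDesc_left D' (AlgHom.id A k) τ
      fun _ _ => mul_comm _ _, ?_⟩
    rw [← hτ]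
    ext d
    exact (Algebra.pushoutDesc_right D' (AlgHom.id A k) τ (fun _ _ => mul_comm _ _) d).congr_left
  have hm : ∀ φ : D' →+* k, (∀ c, φ (algebraMap k D' c) = c) → ∀ a,
      φ (algebraMap D D' (algebraMap A D a)) = algebraMap A k a := fun φ h a => by
    rw [← IsScalarTower.algebraMap_apply, IsScalarTower.algebraMap_apply A k D', h]
  refine ⟨(injective_iff_map_eq_zero _).2 fun s hs => pt_ring u hF hD s fun q hq => ?_, fun s => ?_⟩
  · obtain ⟨_, φ, -, h⟩ := pts q hq
    exact ⟨k, inferInstance, inferInstance, inferInstance, _, h, by rw [← rs_rs, hs, map_zero]⟩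
  have fin : ∀ x : D', ∃ S : Finset D, ∀ φ ψ : D' →+* k, (∀ c, φ (algebraMap k D' c) = c) →
      (∀ c, ψ (algebraMap k D' c) = c) →
      (∀ d ∈ S, φ (algebraMap D D' d) = ψ (algebraMap D D' d)) → φ x = ψ x := fun x => by
    classical
    refine (Algebra.IsPushout.out (R := A) (S := k) (R' := D) (S' := D')).inductionOn x _
      ⟨∅, by simp⟩ (fun d => ⟨{d}, fun φ ψ _ _ h => h d (by simp)⟩) ?_ ?_
    · rintro c x ⟨S, h⟩
      exact ⟨S, fun φ ψ h1 h2 h3 => by
        rw [Algebra.smul_def, map_mul, map_mul, h1, h2, h φ ψ h1 h2 h3]⟩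
    · rintro x y ⟨S, h⟩ ⟨S', h'⟩
      exact ⟨S ∪ S', fun φ ψ h1 h2 h3 => by
        rw [map_add, map_add, h φ ψ h1 h2 fun d hd => h3 d (Finset.mem_union_left _ hd),
          h' φ ψ h1 h2 fun d hd => h3 d (Finset.mem_union_right _ hd)]⟩
  obtain ⟨t, ht⟩ := idem_ind (D := D) (p := fun e => ∃ t, ∀ (_ : Algebra R k) (φ : D' →ₐ[R] k),
      (∀ c, φ (algebraMap k D' c) = c) → φ (algebraMap D D' e) = 1 →
      rs u F.obj (φ.comp (up R D D')) t = rs u F.obj φ s) ⟨0, fun _ φ _ h => by simp at h⟩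
    (fun e f he _ ⟨t₁, h₁⟩ ⟨t₂, h₂⟩ => by
      obtain ⟨t, ht⟩ := mix u F he t₁ t₂
      refine ⟨t, fun _ φ h h' => ?_⟩
      rcases IsIdempotentElem.iff_eq_zero_or_one.1 (he.map (φ.comp (up R D D'))) with h0 | h0
      · rw [(ht k _).2 h0]
        have h3 : φ (algebraMap D D' e) = 0 := h0
        exact h₂ _ φ h (by simpa [h3] using h')
      · rw [(ht k _).1 h0]
        exact h₁ _ φ h h0)
    fun q hq => by
      obtain ⟨_, φ, hφ, rfl⟩ := pts q hq
      obtain ⟨t, ht⟩ := pt_surj u hF A hD (φ.comp (up R D D'))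
        (fun a ha => (hm φ hφ a).trans (hk.ge ha)) (rs u F.obj φ s)
      obtain ⟨e', -, h1, h2⟩ := pt_zero u hF k hD' φ (fun c hc => by
        rw [hφ]; rwa [maximalIdeal_eq_bot, Ideal.mem_bot] at hc) (rs u F.obj (up R D D') t - s)
        (by rw [map_sub, rs_rs, ht, sub_self])
      obtain ⟨S, hS⟩ := fin e'
      obtain ⟨e, he, h3, h4⟩ := idem hk S
        (⟨(φ : D' →+* k).comp (algebraMap D D'), hm φ hφ⟩ : D →ₐ[A] k)
      refine ⟨e, he, ⟨t, fun _ ψ hψ h5 => ?_⟩, fun h => one_ne_zero (h3.symm.trans h)⟩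
      have := h2 k ψ ((hS ψ φ hψ hφ (h4 ⟨(ψ : D' →+* k).comp (algebraMap D D'), hm ψ hψ⟩
        (h5.trans_ne one_ne_zero))).trans h1)
      rwa [map_sub, rs_rs, sub_eq_zero] at this
  refine ⟨t, sub_eq_zero.1 (pt_alg u hF k hD' _ fun _ φ h => ?_)⟩
  rw [map_sub, rs_rs, ht _ φ h (by simp), sub_self]

end Pool.Agent.MP_855f4c_ag.E4

end
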