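import Pool.Agent.MP_855f4c_ag.EC.E4a
import Pool.Agent.MP_855f4c_ag.EC.Sa

section

set_option autoImplicit false
set_option backward.isDefEq.respectTransparency false

open CategoryTheory Limits Opposite AlgebraicGeometry

namespace Pool.Agent.MP_855f4c_ag.E4

open E E3

variable (X : Scheme.{0}) (M : Type 1) [AddCommGroup M]

variable {X} in
lemma exists_pt {T Y V : Over X} (y : Y ⟶ T) (v : V ⟶ T) (p : Y.left) (z : V.left)
    (h : y.left p = v.left z) : ∃ (W : Over X) (a : W ⟶ Y) (b : W ⟶ V) (w : W.left),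
      a ≫ y = b ≫ v ∧ a.left w = p ∧ b.left w = z := by
  obtain ⟨w, h1, h2⟩ := Scheme.Pullback.exists_preimage_pullback p z h
  refine ⟨Over.mk (pullback.fst y.left v.left ≫ Y.hom), Over.homMk (pullback.fst y.left v.left),
    Over.homMk (pullback.snd y.left v.left) ?_, w, Over.OverMorphism.ext pullback.condition, h1, h2⟩
  rw [← Over.w v, ← pullback.condition_assoc, Over.w y]
  rfl

theorem lc_isSheaf : Presheaf.IsSheaf (Scheme.etaleTopology.over X) (lcP X M) := by
  refine isSheaf_of_type fun T S hS x hx => ?_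
  choose V v _ he hv z hz using exists_of_mem_Jov hS
  let x' : ∀ {Y : Over X} (y : Y ⟶ T), S y → LocallyConstant Y.left M := fun y hy => x y hy
  have key : ∀ {Y : Over X} (y : Y ⟶ T) (hy : S y) (p : Y.left),
      x' (v (y.left p)) (hv _) (z _) = x' y hy p := by
    intro Y y hy p
    obtain ⟨W, a, b, w, e, h1, h2⟩ := exists_pt y (v (y.left p)) p (z _) (hz _).symm
    have := LocallyConstant.congr_fun (hx a b hy (hv _) e) w
    rw [← h2]
    conv_rhs => rw [← h1]
    exact this.symm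
  refine ⟨⟨fun t => x' (v t) (hv t) (z t), (IsLocallyConstant.iff_exists_open _).2 fun t => ?_⟩,
    fun Y y hy => LocallyConstant.ext (key y hy), fun f hf => LocallyConstant.ext fun t => ?_⟩
  · have := he t
    refine ⟨(v t).left '' {w | x' (v t) (hv t) w = x' (v t) (hv t) (z t)},
      (v t).left.isOpenMap _ ((x' (v t) (hv t)).isLocallyConstant.isOpen_fiber _),
      ⟨z t, rfl, hz t⟩, ?_⟩
    rintro _ ⟨w, hw, rfl⟩
    exact (key _ (hv t) w).trans hw
  · have := LocallyConstant.congr_fun (hf (v t) (hv t)) (z t)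
    conv_lhs => rw [← hz t]
    exact this

/-- The sheaf of locally constant functions. -/
noncomputable def lc : Sh (Scheme.etaleTopology.over X) := ⟨lcP X M, lc_isSheaf X M⟩

variable {M} {M' : Type 1} [AddCommGroup M']

/-- Postcomposition of locally constant functions with an additive map. -/
def lcPost (Z : Type) [TopologicalSpace Z] (φ : M →+ M') :
    LocallyConstant Z M →+ LocallyConstant Z M' where
  toFun := LocallyConstant.map φ
  map_zero' := by ext; simp
  map_add' f g := by ext; simp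

/-- Functoriality in the group. -/
noncomputable def lcMap (φ : M →+ M') : lc X M ⟶ lc X M' :=
  ⟨{ app T := AddCommGrpCat.ofHom (lcPost T.unop.left φ) }⟩

lemma lcMap_app (φ : M →+ M') (T : Over X) (f : LocallyConstant T.left M) (x : T.left) :
    (show LocallyConstant T.left M' from (lcMap X φ).hom.app (op T) f) x = φ (f x) := rfl

/-- The functor `M ↦ lc X M`. -/
noncomputable def lcF : Ab.{1} ⥤ Sh (Scheme.etaleTopology.over X) where
  obj M := lc X M
  map φ := lcMap X φ.hom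

variable (M)

section lim
variable {X} {I : Type} [SmallCategory I] [IsCofiltered I] {D : I ⥤ Over X} {c : Cone D}

lemma clopen_desc (hD : ∀ i, IsAffine (D.obj i).left) (hc : IsLimit c) (U : Set c.pt.left)
    (hU : IsClopen U) : ∃ (i : I) (V : Set (D.obj i).left), IsClopen V ∧ (pr c i).left ⁻¹' V = U := by
  have (i : I) : IsAffine ((D ⋙ Over.forget X).obj i) := hD i
  have := isAffine_lim hD hc
  obtain ⟨i, V, hV, e⟩ := exists_preimage_eq (D ⋙ Over.forget X) _ (limForget hc) ⟨U, hU.2⟩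
    hU.1.isCompact
  obtain ⟨j, W, hW, e'⟩ := exists_preimage_eq (D ⋙ Over.forget X) _ (limForget hc)
    ⟨Uᶜ, hU.compl.2⟩ hU.compl.1.isCompact
  have h1 : ∀ t : c.pt.left, (pr c i).left t ∈ V ↔ t ∈ U := fun t => SetLike.ext_iff.1 e t
  have h2 : ∀ t : c.pt.left, (pr c j).left t ∈ W ↔ t ∉ U := fun t => SetLike.ext_iff.1 e' t
  let k := IsCofiltered.min i j
  let a := (D.map (IsCofiltered.minToLeft i j)).left
  let b := (D.map (IsCofiltered.minToRight i j)).left
  have ha : ∀ t, a ((pr c k).left t) = (pr c i).left t := fun t => by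
    rw [← Scheme.Hom.comp_apply, ← Over.comp_left, pr_w]
  have hb : ∀ t, b ((pr c k).left t) = (pr c j).left t := fun t => by
    rw [← Scheme.Hom.comp_apply, ← Over.comp_left, pr_w]
  have := hD i; have := hD j; have := hD k
  obtain ⟨m, f, hf⟩ := exists_map_preimage_le_map_preimage (D ⋙ Over.forget X) _ (limForget hc)
    (i := k) (U := a ⁻¹ᵁ V ⊓ b ⁻¹ᵁ W) (V := ⊥)
    ((QuasiCompact.isCompact_preimage (f := a) _ V.2 hV).inter_of_isOpen
      (QuasiCompact.isCompact_preimage (f := b) _ W.2 hW) (a ⁻¹ᵁ V).2 (b ⁻¹ᵁ W).2)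
    (fun t ht => by
      have h3 : a ((pr c k).left t) ∈ V := ht.1
      have h4 : b ((pr c k).left t) ∈ W := ht.2
      exact ((h2 t).1 (hb t ▸ h4) ((h1 t).1 (ha t ▸ h3))).elim)
  obtain ⟨n, g, hg⟩ := open_desc (fun {i j} f => by have := hD i; have := hD j; infer_instance)
    (fun i => by have := hD i; infer_instance) hc m ((D.map f).left ⁻¹ᵁ (a ⁻¹ᵁ V ⊔ b ⁻¹ᵁ W))
    (fun t => by
      change (D.map f).left ((pr c m).left t) ∈ a ⁻¹ᵁ V ⊔ b ⁻¹ᵁ W
      rw [← Scheme.Hom.comp_apply, ← Over.comp_left, pr_w]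
      by_cases h : t ∈ U
      · exact .inl (show a _ ∈ V from (ha t).symm ▸ (h1 t).2 h)
      · exact .inr (show b _ ∈ W from (hb t).symm ▸ (h2 t).2 h))
  refine ⟨n, ((D.map g).left ⁻¹ᵁ (D.map f).left ⁻¹ᵁ a ⁻¹ᵁ V :), ⟨⟨?_⟩, TopologicalSpace.Opens.isOpen _⟩, ?_⟩
  · convert ((D.map g).left ⁻¹ᵁ (D.map f).left ⁻¹ᵁ b ⁻¹ᵁ W).isOpen using 1
    ext t
    exact ⟨fun h => (hg t).resolve_left h, fun h h' => hf (x := (D.map g).left t) ⟨h', h⟩⟩
  · ext t
    change a ((D.map f).left ((D.map g).left ((pr c n).left t))) ∈ V ↔ _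
    rw [← Scheme.Hom.comp_apply (pr c n).left, ← Over.comp_left, pr_w,
      ← Scheme.Hom.comp_apply (pr c m).left, ← Over.comp_left, pr_w, ha, h1]

end lim

variable {M} in
/-- Induction on locally constant functions on a compact space. -/
lemma lc_ind {Z : Type} [TopologicalSpace Z] [CompactSpace Z] (f : LocallyConstant Z M)
    (Q : LocallyConstant Z M → Prop) (h0 : Q 0) (ha : ∀ a b, Q a → Q b → Q (a + b))
    (hi : ∀ z, Q ((LocallyConstant.const Z (f z)).indicator
      (f.isLocallyConstant.isClopen_fiber (f z)))) : Q f := by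
  classical
  have e : f = ∑ m ∈ f.range_finite.toFinset, (LocallyConstant.const Z m).indicator
      (f.isLocallyConstant.isClopen_fiber m) := by
    ext z
    refine Eq.trans ?_ (map_sum (LocallyConstant.evalAddMonoidHom (Y := M) z) _ _).symm
    rw [Finset.sum_eq_single (f z)]
    · exact (Set.indicator_of_mem (s := {x | f x = f z}) rfl fun _ => f z).symm
    · exact fun m _ h => Set.indicator_of_notMem (s := {x | f x = m}) h.symm _
    · simp
  rw [e]
  refine Finset.sum_induction _ Q ha h0 fun m hm => ?_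
  obtain ⟨z, rfl⟩ := f.range_finite.mem_toFinset.1 hm
  exact hi z

theorem lc_lfp : LFP (lcP X M) := by
  intro I _ _ D c hD hc
  have := isAffine_lim hD hc
  refine ⟨fun s => lc_ind (Z := c.pt.left) s
    (fun s => ∃ (i : I) (t : (lcP X M).obj (op (D.obj i))), (lcP X M).map (pr c i).op t = s)
    ⟨(IsCofiltered.nonempty (C := I)).some, 0, map_zero _⟩ ?_ fun z => ?_, fun i t ht => ?_⟩
  · rintro _ _ ⟨i, t, rfl⟩ ⟨j, t', rfl⟩
    exact ⟨IsCofiltered.min i j, (lcP X M).map (D.map (IsCofiltered.minToLeft i j)).op t +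
      (lcP X M).map (D.map (IsCofiltered.minToRight i j)).op t', by
        rw [map_add, res_res, res_res, pr_w, pr_w]⟩
  · let s' : LocallyConstant c.pt.left M := s
    obtain ⟨i, V, hV, e⟩ := clopen_desc hD hc _ (s'.isLocallyConstant.isClopen_fiber (s' z))
    refine ⟨i, (LocallyConstant.const _ (s' z)).indicator hV, LocallyConstant.ext fun t => ?_⟩
    have h : (pr c i).left t ∈ V ↔ s' t = s' z := Set.ext_iff.1 e t
    by_cases h' : s' t = s' z
    · exact (Set.indicator_of_mem (h.2 h') _).trans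
        (Set.indicator_of_mem (s := {x | s' x = s' z}) h' fun _ => s' z).symm
    · exact (Set.indicator_of_notMem (mt h.1 h') _).trans
        (Set.indicator_of_notMem (s := {x | s' x = s' z}) h' _).symm
  · let t' : LocallyConstant (D.obj i).left M := t
    have hD' : ∀ i, IsAffine (D.obj i).left := hD
    obtain ⟨j, f, hf⟩ := open_desc (fun {i j} f => by have := hD' i; have := hD' j; infer_instance)
      (fun i => by have := hD' i; infer_instance) hc i ⟨_, t'.isLocallyConstant.isOpen_fiber 0⟩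
      fun z => LocallyConstant.congr_fun ht z
    exact ⟨j, f, LocallyConstant.ext hf⟩

lemma lc_spec {Z : Type} {M : Type 1} [TopologicalSpace Z] (f : LocallyConstant Z M) {x y : Z} (h : x ⤳ y) :
    f x = f y := h.mem_open (f.isLocallyConstant.isOpen_fiber (f y)) rfl

variable {X} in
lemma lc_loc {A A' : Type} [CommRing A] [IsLocalRing A] [CommRing A'] [IsLocalRing A']
    {a : Spec (.of A) ⟶ X} {b : Spec (.of A') ⟶ X} (g : Over.mk b ⟶ Over.mk a) :
    Function.Bijective ((lcP X M).map g.op) := by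
  refine ⟨(injective_iff_map_eq_zero _).2 fun f h => LocallyConstant.ext fun x => ?_, fun f =>
    ⟨LocallyConstant.const _ ((show LocallyConstant (PrimeSpectrum A') M from f)
      (IsLocalRing.closedPoint A')), LocallyConstant.ext fun x =>
        (lc_spec (Z := PrimeSpectrum A') f (IsLocalRing.specializes_closedPoint x)).symm⟩⟩
  exact ((lc_spec (Z := PrimeSpectrum A) f (IsLocalRing.specializes_closedPoint x)).trans
    (lc_spec (Z := PrimeSpectrum A) f (IsLocalRing.specializes_closedPoint _)).symm).trans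
      (LocallyConstant.congr_fun h (IsLocalRing.closedPoint A'))

theorem lc_cc (l : ℕ) : Cc l (lc X M) := ⟨lc_lfp X M, fun _ _ _ _ _ _ _ _ _ _ _ _ => lc_loc M _⟩

variable {M} in
lemma lc_tors {Z : Type} [TopologicalSpace Z] [CompactSpace Z] {l : ℕ}
    (h : ∀ m : M, ∃ n : ℕ, l ^ n • m = 0) (f : LocallyConstant Z M) : ∃ n : ℕ, l ^ n • f = 0 := by
  refine lc_ind f (fun f => ∃ n : ℕ, l ^ n • f = 0) ⟨0, smul_zero _⟩ ?_ fun z => ?_
  · rintro a b ⟨n, hn⟩ ⟨m, hm⟩
    exact ⟨n + m, by rw [smul_add, pow_add, mul_smul, mul_smul, hm, smul_zero, add_zero,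
      smul_comm, hn, smul_zero]⟩
  · obtain ⟨n, hn⟩ := h (f z)
    refine ⟨n, LocallyConstant.ext fun t => ?_⟩
    by_cases h' : f t = f z
    · exact (congrArg (l ^ n • ·)
        (Set.indicator_of_mem (s := {x | f x = f z}) h' fun _ => f z)).trans hn
    · exact (congrArg (l ^ n • ·)
        (Set.indicator_of_notMem (s := {x | f x = f z}) h' fun _ => f z)).trans (smul_zero _)

theorem lc_tor (l : ℕ) (h : ∀ m : M, ∃ n : ℕ, l ^ n • m = 0) : Tor l (lc X M).obj :=
  fun T _ s => lc_tors (Z := T.left) h s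

theorem lc_lis (l : ℕ) (T : Over X) : Lis l (lc X M).obj T :=
  fun _ _ _ _ _ _ _ _ _ _ _ _ _ _ => lc_loc M _

/-- Constant functions. -/
noncomputable def cstη (M : Ab.{1}) : (Functor.const (Over X)ᵒᵖ).obj M ⟶ lcP X M where
  app T := AddCommGrpCat.ofHom (LocallyConstant.constAddMonoidHom)
  naturality _ _ _ := by ext; rfl

instance (M : Ab.{1}) : Presheaf.IsLocallyInjective (Scheme.etaleTopology.over X) (cstη X M) where
  equalizerSieve_mem {T} x y h := mem_Jov_of _ fun t =>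
    ⟨T.unop, 𝟙 _, by rw [Over.id_left]; infer_instance,
      (LocallyConstant.congr_fun h t :), t, by simp⟩

instance (M : Ab.{1}) : Presheaf.IsLocallySurjective (Scheme.etaleTopology.over X) (cstη X M) where
  imageSieve_mem {T} s := mem_Jov_of _ fun t =>
    let s' : LocallyConstant T.left M := s
    ⟨_, opι T ⟨_, s'.isLocallyConstant.isOpen_fiber (s' t)⟩,
      (inferInstance : Etale (Scheme.Opens.ι _)),
      ⟨s' t, LocallyConstant.ext fun w => w.2.symm⟩, ⟨t, rfl⟩, rfl⟩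

/-- The comparison map. -/
noncomputable def cstHom : cst X ⟶ lcF X where
  app M := ((sheafificationAdjunction (Scheme.etaleTopology.over X) Ab.{1}).homEquiv _ ((lcF X).obj M)).symm (cstη X M)
  naturality M N φ := (sheafificationAdjunction (Scheme.etaleTopology.over X) Ab.{1}).homEquiv_naturality_right_square
    ((Functor.const _).map φ) (Y' := (lcF X).obj N) (cstη X N) (Y := (lcF X).obj M) (cstη X M)
    ((lcF X).map φ) rfl

instance (M : Ab.{1}) : IsIso ((cstHom X).app M) := by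
  have h : (Scheme.etaleTopology.over X).W (cstη X M) := GrothendieckTopology.W_of_isLocallyBijective _ _
  rw [GrothendieckTopology.W_iff] at h
  change IsIso (((sheafificationAdjunction (Scheme.etaleTopology.over X) Ab.{1}).homEquiv _ _).symm _)
  rw [Adjunction.homEquiv_counit]
  infer_instance

/-- Constant sheaves are sheaves of locally constant functions. -/
noncomputable def cstIso : cst X ≅ lcF X :=
  have := NatIso.isIso_of_isIso_app (cstHom X)
  asIso (cstHom X)

lemma cstIso_app (M : Ab.{1}) (T : Over X) (m : M) :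
    ((cstIso X).hom.app M).hom.app (op T)
      ((toSheafify (Scheme.etaleTopology.over X) ((Functor.const (Over X)ᵒᵖ).obj M)).app (op T) m) =
      LocallyConstant.const T.left m := by
  have h := ((sheafificationAdjunction (Scheme.etaleTopology.over X) Ab.{1}).homEquiv _ ((lcF X).obj M)).apply_symm_apply
    (cstη X M)
  rw [Adjunction.homEquiv_unit] at h
  exact congr($(h).app (op T) m)

end Pool.Agent.MP_855f4c_ag.E4

end

section

set_option autoImplicit false
set_option backward.isDefEq.respectTransparency false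

open CategoryTheory Limits Abelian Opposite AlgebraicGeometry IsLocalRing

namespace Pool.Agent.MP_855f4c_ag.E4

open E E3

variable {X Y : Scheme.{0}}

/-- Global functions. -/
noncomputable def OP (X : Scheme.{0}) : (Over X)ᵒᵖ ⥤ Type :=
  (Over.forget X).op ⋙ Scheme.Γ ⋙ forget CommRingCat

lemma OP_isSheaf (X : Scheme.{0}) : Presieve.IsSheaf (Scheme.etaleTopology.over X) (OP X) := by
  have : Scheme.etaleTopology.{0}.Subcanonical :=
    .of_le Scheme.etaleTopology_le_proetaleTopology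
  have h := (Over.forget X).op_comp_isSheaf_of_isSheaf_type (Scheme.etaleTopology.over X)
    (GrothendieckTopology.Subcanonical.isSheaf_of_isRepresentable (J := Scheme.etaleTopology)
      (yoneda.obj (Spec (.of (MvPolynomial PUnit.{1} (ULift.{0} ℤ))))))
  refine Presieve.isSheaf_iso _ (NatIso.ofComponents (fun T => Equiv.toIso
    ((AffineSpace.toSpecMvPolyIntEquiv PUnit.{1}).trans (Equiv.funUnique _ _))) ?_) h
  intro T T' g
  rfl

theorem Gm_isSheaf (X : Scheme.{0}) : Presheaf.IsSheaf (Scheme.etaleTopology.over X) (GmP X) := by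
  refine isSheaf_of_type fun T S hS x hx => ?_
  have H := OP_isSheaf X S hS
  obtain ⟨a, ha, ha'⟩ := H (fun Y y hy => (x y hy).down.toMul.val)
    fun Y₁ Y₂ Z g₁ g₂ f₁ f₂ h₁ h₂ e => congrArg (·.down.toMul.val) (hx g₁ g₂ h₁ h₂ e)
  obtain ⟨b, hb, -⟩ := H (fun Y y hy => (x y hy).down.toMul.inv)
    fun Y₁ Y₂ Z g₁ g₂ f₁ f₂ h₁ h₂ e => congrArg (·.down.toMul.inv) (hx g₁ g₂ h₁ h₂ e)
  change Γ(T.left, ⊤) at a b
  have hab : (a * b : Γ(T.left, ⊤)) = 1 := H.isSeparatedFor.ext fun Y y hy => by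
    change y.left.appTop (a * b : Γ(T.left, ⊤)) = y.left.appTop (1 : Γ(T.left, ⊤))
    rw [map_mul, map_one]
    exact (congrArg₂ (· * · : Γ(Y.left, ⊤) → _) (ha y hy) (hb y hy)).trans
      (x y hy).down.toMul.val_inv
  refine ⟨ULift.up (Additive.ofMul ⟨a, b, hab, (mul_comm _ _).trans hab⟩),
    fun Y y hy => ULift.ext _ _ (Additive.toMul.injective (Units.ext (ha y hy))), fun t ht => ?_⟩
  exact ULift.ext _ _ (Additive.toMul.injective (Units.ext
    (ha' _ fun Y y hy => congrArg (·.down.toMul.val) (ht y hy))))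

/-- The multiplicative group. -/
noncomputable def Gm (X : Scheme.{0}) : Sh (Scheme.etaleTopology.over X) := ⟨GmP X, Gm_isSheaf X⟩

/-- Sections of `Gm` are units of global sections. -/
def GmTop (T : Over X) : (Gm X).obj.obj (op T) ≃+ Additive Γ(T.left, ⊤)ˣ := AddEquiv.ulift

lemma GmTop_res {T T' : Over X} (g : T' ⟶ T) (s : (Gm X).obj.obj (op T)) :
    ((GmTop T' ((Gm X).obj.map g.op s)).toMul : Γ(T'.left, ⊤)) =
      g.left.appTop ((GmTop T s).toMul : Γ(T.left, ⊤)) := rfl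

section ring
variable {A B : Type} [CommRing A] [CommRing B]

/-- Sections of `Gm` over an affine scheme. -/
noncomputable def GmEquiv (a : Spec (.of A) ⟶ X) :
    (Gm X).obj.obj (op (Over.mk a)) ≃+ Additive Aˣ :=
  (GmTop (Over.mk a)).trans (MulEquiv.toAdditive
    (Units.mapEquiv (Scheme.ΓSpecIso (.of A)).commRingCatIsoToRingEquiv.toMulEquiv))

lemma GmEquiv_val (a : Spec (.of A) ⟶ X) (s : (Gm X).obj.obj (op (Over.mk a))) :
    ((GmEquiv a s).toMul : A) =
      (Scheme.ΓSpecIso (.of A)).hom ((GmTop (Over.mk a) s).toMul : Γ((Over.mk a).left, ⊤)) := rfl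

lemma GmEquiv_sph (φ : A →+* B) {a : Spec (.of A) ⟶ X} {b : Spec (.of B) ⟶ X}
    (h : Spec.map (CommRingCat.ofHom φ) ≫ a = b) (s : (Gm X).obj.obj (op (Over.mk a))) :
    ((GmEquiv b ((Gm X).obj.map (sph φ h).op s)).toMul : B) = φ ((GmEquiv a s).toMul : A) :=
  ConcreteCategory.congr_hom (Scheme.ΓSpecIso_naturality (CommRingCat.ofHom φ)) _

lemma GmEquiv_rs {R : Type} [CommRing R] (u : Spec (.of R) ⟶ X) [Algebra R A] [Algebra R B]
    (φ : A →ₐ[R] B) (s : (Gm X).obj.obj (op (ob u A))) :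
    ((GmEquiv _ (rs u (Gm X).obj φ s)).toMul : B) = φ ((GmEquiv _ s).toMul : A) :=
  GmEquiv_sph (φ : A →+* B) (Over.w (hm u φ)) s

end ring

lemma Gm_ext {T : Over X} {s t : (Gm X).obj.obj (op T)}
    (h : ((GmTop T s).toMul : Γ(T.left, ⊤)) = (GmTop T t).toMul) : s = t :=
  (GmTop T).injective (Additive.toMul.injective (Units.ext h))

theorem Gm_lfp (X : Scheme.{0}) : LFP (Gm X).obj := by
  intro I _ _ D c hD hc
  have (i : I) : IsAffine ((D ⋙ Over.forget X).obj i) := hD i
  have h1 : ∀ s : Γ(c.pt.left, ⊤), ∃ (i : I) (t : Γ((D.obj i).left, ⊤)),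
      (pr c i).left.appTop t = s := exists_appTop_π_eq_of_isAffine_of_isLimit _ _ (limForget hc)
  have h2 : ∀ (i : I) (s : Γ((D.obj i).left, ⊤)), (pr c i).left.appTop s = 1 →
      ∃ (j : I) (f : j ⟶ i), (D.map f).left.appTop s = 1 := fun i s hs => by
    obtain ⟨j, f, h⟩ := exists_appTop_map_eq_zero_of_isAffine_of_isLimit _ _
      (limForget hc) i (s - 1 : Γ((D.obj i).left, ⊤)) (by
        change (pr c i).left.appTop (s - 1) = 0
        rw [map_sub, hs, map_one, sub_self])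
    change (D.map f).left.appTop (s - 1) = 0 at h
    exact ⟨j, f, by rwa [map_sub, map_one, sub_eq_zero] at h⟩
  have h3 : ∀ {i j : I} (f : j ⟶ i) (s : Γ((D.obj i).left, ⊤)),
      (pr c j).left.appTop ((D.map f).left.appTop s) = (pr c i).left.appTop s := fun f s => by
    rw [← pr_w c f, Over.comp_left, Scheme.Hom.comp_appTop]; rfl
  refine ⟨fun s => ?_, fun i t ht => ?_⟩
  · obtain ⟨i, a, ha⟩ := h1 (GmTop _ s).toMul.val
    obtain ⟨j, b, hb⟩ := h1 (GmTop _ s).toMul.inv
    obtain ⟨k, f, h⟩ := h2 (IsCofiltered.min i j)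
      ((D.map (IsCofiltered.minToLeft i j)).left.appTop a *
        (D.map (IsCofiltered.minToRight i j)).left.appTop b) (by
      rw [map_mul, h3, h3]
      exact (congrArg₂ (· * ·) ha hb).trans (GmTop _ s).toMul.val_inv)
    rw [map_mul] at h
    exact ⟨k, (GmTop _).symm (Additive.ofMul (Units.mkOfMulEqOne _ _ h)),
      Gm_ext ((h3 f _).trans ((h3 _ _).trans ha))⟩
  · obtain ⟨j, f, h⟩ := h2 i (GmTop _ t).toMul.val
      (congrArg (fun s => ((GmTop _ s).toMul : Γ(c.pt.left, ⊤))) ht)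
    exact ⟨j, f, Gm_ext h⟩

/-- The `n`-th roots of unity. -/
noncomputable def mu (X : Scheme.{0}) (n : ℕ) : Sh (Scheme.etaleTopology.over X) := kernel ((n : ℤ) • 𝟙 (Gm X))

/-- The inclusion of `mu` into `Gm`. -/
noncomputable def muι (X : Scheme.{0}) (n : ℕ) : mu X n ⟶ Gm X := kernel.ι _

instance (n : ℕ) : Mono (muι X n) := inferInstanceAs (Mono (kernel.ι _))

/-- The Kummer sequence. -/
noncomputable def kumS (X : Scheme.{0}) (n : ℕ) : ShortComplex (Sh (Scheme.etaleTopology.over X)) :=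
  ShortComplex.mk (muι X n) ((n : ℤ) • 𝟙 (Gm X)) (kernel.condition _)

lemma muι_inj (n : ℕ) (T : Over X) : Function.Injective ((muι X n).hom.app (op T)) :=
  (sec_exact (ShortComplex.exact_kernel ((n : ℤ) • 𝟙 (Gm X))) T).1

lemma muι_range (n : ℕ) (T : Over X) (s : (Gm X).obj.obj (op T)) :
    n • s = 0 ↔ ∃ t, (muι X n).hom.app (op T) t = s := by
  rw [← natCast_zsmul]
  exact (sec_exact (ShortComplex.exact_kernel ((n : ℤ) • 𝟙 (Gm X))) T).2 s

lemma mu_smul (n : ℕ) (T : Over X) (s : (mu X n).obj.obj (op T)) : n • s = 0 :=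
  muι_inj n T (by rw [map_nsmul, map_zero]; exact (muι_range n T _).2 ⟨s, rfl⟩)

section ring
variable {A B : Type} [CommRing A] [CommRing B] (n : ℕ)

lemma mu_pow (a : Spec (.of A) ⟶ X) (s : (Gm X).obj.obj (op (Over.mk a))) :
    (GmEquiv a s).toMul ^ n = 1 ↔ n • s = 0 := by
  rw [← toMul_nsmul, ← map_nsmul, ← map_eq_zero_iff _ (GmEquiv a).injective]
  rfl

/-- Sections of `mu` over an affine scheme. -/
noncomputable def muEquiv (a : Spec (.of A) ⟶ X) :
    (mu X n).obj.obj (op (Over.mk a)) ≃+ Additive (rootsOfUnity n A) :=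
  AddEquiv.ofBijective (MonoidHom.toAdditiveRight
    (((GmEquiv a).toAddMonoidHom.comp ((muι X n).hom.app _).hom).toMultiplicativeLeft.codRestrict
      (rootsOfUnity n A) fun _ => (mu_pow n a _).2 ((muι_range n _ _).2 ⟨_, rfl⟩)))
    ⟨fun _ _ h => muι_inj n _ ((GmEquiv a).injective
      (congrArg (fun z => Additive.ofMul (z.toMul : Aˣ)) h)), fun z => by
      obtain ⟨s, hs⟩ := (GmEquiv a).surjective (Additive.ofMul (z.toMul : Aˣ))
      obtain ⟨t, rfl⟩ := (muι_range n _ s).1 ((mu_pow n a s).1 (hs ▸ z.toMul.2))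
      exact ⟨t, Additive.toMul.injective (Subtype.ext (congrArg Additive.toMul hs))⟩⟩

lemma muEquiv_ι (a : Spec (.of A) ⟶ X) (s : (mu X n).obj.obj (op (Over.mk a))) :
    ((muEquiv n a s).toMul : Aˣ) = (GmEquiv a ((muι X n).hom.app _ s)).toMul := rfl

lemma muEquiv_sph (φ : A →+* B) {a : Spec (.of A) ⟶ X} {b : Spec (.of B) ⟶ X}
    (h : Spec.map (CommRingCat.ofHom φ) ≫ a = b) (s : (mu X n).obj.obj (op (Over.mk a))) :
    (((muEquiv n b ((mu X n).obj.map (sph φ h).op s)).toMul : Bˣ) : B) =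
      φ (((muEquiv n a s).toMul : Aˣ) : A) := by
  rw [muEquiv_ι, muEquiv_ι, map_nat, GmEquiv_sph]

lemma muEquiv_rs {R : Type} [CommRing R] (u : Spec (.of R) ⟶ X) [Algebra R A] [Algebra R B]
    (φ : A →ₐ[R] B) (s : (mu X n).obj.obj (op (ob u A))) :
    (((muEquiv n _ (rs u (mu X n).obj φ s)).toMul : Bˣ) : B) =
      φ (((muEquiv n _ s).toMul : Aˣ) : A) :=
  muEquiv_sph n (φ : A →+* B) (Over.w (hm u φ)) s

lemma mu_ext {a : Spec (.of A) ⟶ X} {s t : (mu X n).obj.obj (op (Over.mk a))}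
    (h : (((muEquiv n a s).toMul : Aˣ) : A) = ((muEquiv n a t).toMul : Aˣ)) : s = t :=
  (muEquiv n a).injective (Additive.toMul.injective (Subtype.ext (Units.ext h)))

lemma mu_val_pow (a : Spec (.of A) ⟶ X) (s : (mu X n).obj.obj (op (Over.mk a))) :
    (((muEquiv n a s).toMul : Aˣ) : A) ^ n = 1 :=
  (mem_rootsOfUnity' _ _).1 (muEquiv n a s).toMul.2

lemma mu_bij (hn : n ≠ 0) (φ : A →+* B) {a : Spec (.of A) ⟶ X} {b : Spec (.of B) ⟶ X}
    (h : Spec.map (CommRingCat.ofHom φ) ≫ a = b) (h1 : ∀ ζ : A, ζ ^ n = 1 → φ ζ = 1 → ζ = 1)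
    (h2 : ∀ ω : B, ω ^ n = 1 → ∃ ζ : A, ζ ^ n = 1 ∧ φ ζ = ω) :
    Function.Bijective ((mu X n).obj.map (sph φ h).op) := by
  have : NeZero n := ⟨hn⟩
  refine ⟨(injective_iff_map_eq_zero _).2 fun s hs => mu_ext n ?_, fun t => ?_⟩
  · rw [map_zero]
    exact h1 _ (mu_val_pow n a s) (by rw [← muEquiv_sph n φ h, hs, map_zero]; rfl)
  · obtain ⟨ζ, e1, e2⟩ := h2 _ (mu_val_pow n b t)
    obtain ⟨s, hs⟩ := (muEquiv n a).surjective (Additive.ofMul (rootsOfUnity.mkOfPowEq ζ e1))
    exact ⟨s, mu_ext n (by rw [muEquiv_sph, hs]; exact e2)⟩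

end ring

theorem kummer {n : ℕ} (hn : Linv n X) : (kumS X n).ShortExact where
  exact := ShortComplex.exact_kernel _
  mono_f := inferInstanceAs (Mono (muι X n))
  epi_g := epi_of_loc _ fun R _ u s m hm => by
    obtain ⟨S, _, _, _, v, h1, h2⟩ := kummer_cover n (hn.isUnit u) (GmEquiv _ s).toMul
    obtain ⟨q, hq⟩ := h1 ⟨m, hm.isPrime⟩
    obtain ⟨t, ht⟩ := (GmEquiv (ob u S).hom).surjective (Additive.ofMul v)
    refine ⟨{ E := S }, ⟨q.asIdeal, q.2, congrArg PrimeSpectrum.asIdeal hq⟩, t,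
      (GmEquiv _).injective (Additive.toMul.injective (Units.ext ?_))⟩
    refine Eq.trans ?_ (h2.trans (GmEquiv_rs u (up R R S) s).symm)
    change ((GmEquiv (ob u S).hom ((n : ℤ) • t)).toMul : S) = _
    rw [natCast_zsmul, map_nsmul, ht]
    rfl

theorem mu_lfp (X : Scheme.{0}) (n : ℕ) : LFP (mu X n).obj := by
  intro I _ _ D c hD hc
  obtain ⟨h1, h2⟩ := Gm_lfp X I D c hD hc
  refine ⟨fun s => ?_, fun i t ht => ?_⟩
  · obtain ⟨i, t, ht⟩ := h1 ((muι X n).hom.app _ s)
    obtain ⟨j, f, h⟩ := h2 i (n • t) (by rw [map_nsmul, ht, ← map_nsmul, mu_smul, map_zero])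
    obtain ⟨r, hr⟩ := (muι_range n _ _).1 ((map_nsmul _ _ _).symm.trans h)
    exact ⟨j, r, muι_inj n _ (by rw [map_nat, hr, res_res, pr_w, ht])⟩
  · obtain ⟨j, f, h⟩ := h2 i ((muι X n).hom.app _ t) (by rw [← map_nat, ht, map_zero])
    exact ⟨j, f, muι_inj n _ (by rw [map_nat, h, map_zero])⟩

theorem mu_rig {l n m : ℕ} (h : n ∣ l ^ m) : Rig l (mu X n).obj := by
  intro A k _ _ _ _ φ _ a b e hl
  have hn : IsUnit (n : A) := isUnit_of_dvd_unit (Nat.cast_dvd_cast h) (by simpa using hl.pow m)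
  let := φ.toAlgebra
  obtain ⟨h1, h2⟩ := mu_rigid (A := A) (k := k) (by
    ext x
    rw [RingHom.mem_ker, mem_maximalIdeal, mem_nonunits_iff, ← isUnit_map_iff φ, isUnit_iff_ne_zero,
      not_not]
    rfl) n hn
  exact mu_bij n (by rintro rfl; simp at hn) φ e h1 h2

theorem mu_tc' {l n m : ℕ} (h : n ∣ l ^ m) : Tc l (mu X n) :=
  ⟨⟨mu_lfp X n, mu_rig h⟩, fun T _ s => ⟨m, by
    obtain ⟨k, hk⟩ := h
    rw [hk, mul_comm, mul_smul, mu_smul, smul_zero]⟩⟩

theorem mu_tc (l m : ℕ) : Tc l (mu X (l ^ m)) := mu_tc' dvd_rfl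

theorem mu_lis (l : ℕ) {n : ℕ} (hn : n ≠ 0) (T : Over X) : Lis l (mu X n).obj T := by
  intro C K _ _ _ _ _ _ a b e _ hC _
  have hi := IsFractionRing.injective C K
  refine mu_bij n hn _ e (fun ζ _ h => hi (h.trans (map_one _).symm)) fun ω h => ?_
  obtain ⟨ζ, rfl⟩ := aic_root hC ω (IsIntegral.of_pow hn.bot_lt (h ▸ isIntegral_one))
  exact ⟨ζ, hi (by rw [map_pow, h, map_one]), rfl⟩

section kappa
variable {n : ℕ} (hn : Linv n X)

/-- The Kummer class. -/
noncomputable def kappa (T : Over X) : (Gm X).obj.obj (op T) →+ H T (mu X n) 1 :=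
  ((kummer hn).extClass.postcomp _ (zero_add 1)).comp
    (Ext.addEquiv₀.symm.toAddMonoidHom.comp (frEquiv T (Gm X)).symm.toAddMonoidHom)

lemma kappa_apply (T : Over X) (s : (Gm X).obj.obj (op T)) : kappa hn T s =
    (Ext.mk₀ ((frEquiv T (Gm X)).symm s)).comp (kummer hn).extClass (zero_add 1) := rfl

lemma kappa_fr (T : Over X) (z : (fr (Scheme.etaleTopology.over X)).obj T ⟶ Gm X) : kappa hn T (frEquiv T _ z) =
    (Ext.mk₀ z).comp (kummer hn).extClass (zero_add 1) := by
  rw [kappa_apply, AddEquiv.symm_apply_apply]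

lemma kappa_res {T T' : Over X} (g : T' ⟶ T) (s : (Gm X).obj.obj (op T)) :
    res g (mu X n) 1 (kappa hn T s) = kappa hn T' ((Gm X).obj.map g.op s) := by
  obtain ⟨z, rfl⟩ := (frEquiv T _).surjective s
  rw [← frEquiv_pre, kappa_fr, kappa_fr, ← Ext.mk₀_comp_mk₀_assoc]
  rfl

theorem kappa_eq_zero (T : Over X) (s : (Gm X).obj.obj (op T)) :
    kappa hn T s = 0 ↔ ∃ t, n • t = s := by
  constructor
  · obtain ⟨z, rfl⟩ := (frEquiv T _).surjective s
    intro h
    obtain ⟨y, hy⟩ := Ext.covariant_sequence_exact₃ _ (kummer hn) _ _ ((kappa_fr hn T z).symm.trans h)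
    obtain ⟨y, rfl⟩ := (Ext.mk₀_bijective _ _).2 y
    rw [Ext.mk₀_comp_mk₀, (Ext.mk₀_bijective _ _).1.eq_iff] at hy
    exact ⟨frEquiv T _ y, by rw [← hy, ← natCast_zsmul]; rfl⟩
  · rintro ⟨t, rfl⟩
    obtain ⟨z, rfl⟩ := (frEquiv T _).surjective t
    rw [← natCast_zsmul]
    refine (kappa_fr hn T (z ≫ (kumS X n).g)).trans ?_
    rw [← Ext.mk₀_comp_mk₀_assoc]
    erw [(kummer hn).comp_extClass]
    exact Ext.comp_zero _ _ _ _ _

theorem kappa_range (T : Over X) (ξ : H T (mu X n) 1) :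
    ξ.comp (Ext.mk₀ (muι X n)) (add_zero 1) = 0 ↔ ∃ s, kappa hn T s = ξ := by
  constructor
  · intro h
    obtain ⟨y, hy⟩ := Ext.covariant_sequence_exact₁ _ (kummer hn) ξ h (zero_add 1)
    obtain ⟨y, rfl⟩ := (Ext.mk₀_bijective _ _).2 y
    exact ⟨frEquiv T _ y, (kappa_fr hn T y).trans hy⟩
  · rintro ⟨s, rfl⟩
    rw [kappa_apply, Ext.comp_assoc _ _ _ (zero_add 1) (add_zero 1) (by omega)]
    erw [(kummer hn).extClass_comp]
    exact Ext.comp_zero _ _ _ _ _

end kappa

/-- The inclusion `mu m ⟶ mu (n m)`. -/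
noncomputable def muInc (X : Scheme.{0}) (n m : ℕ) : mu X m ⟶ mu X (n * m) :=
  kernel.lift _ (muι X m) (by
    rw [Nat.cast_mul, mul_smul, Preadditive.comp_zsmul]
    exact (congrArg _ (kernel.condition _)).trans (smul_zero _))

/-- The `m`-th power `mu (n m) ⟶ mu n`. -/
noncomputable def muPow (X : Scheme.{0}) (n m : ℕ) : mu X (n * m) ⟶ mu X n :=
  kernel.lift _ ((m : ℤ) • muι X (n * m)) (by
    rw [Preadditive.zsmul_comp, ← Preadditive.comp_zsmul, smul_smul, mul_comm, ← Nat.cast_mul]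
    exact kernel.condition _)

@[reassoc]
lemma muInc_ι (n m : ℕ) : muInc X n m ≫ muι X (n * m) = muι X m := kernel.lift_ι _ _ _

@[reassoc]
lemma muPow_ι (n m : ℕ) : muPow X n m ≫ muι X n = (m : ℤ) • muι X (n * m) := kernel.lift_ι _ _ _

lemma muInc_muPow (n m : ℕ) : muInc X n m ≫ muPow X n m = 0 := by
  rw [← cancel_mono (muι X n), Category.assoc, muPow_ι, Preadditive.comp_zsmul, muInc_ι, zero_comp]
  simpa [muι] using kernel.condition ((m : ℤ) • 𝟙 (Gm X))

theorem mu_shortExact (n : ℕ) {m : ℕ} (hm : Linv m X) :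
    (ShortComplex.mk _ _ (muInc_muPow (X := X) n m)).ShortExact := by
  have : Mono (muInc X n m) := mono_of_mono_fac (muInc_ι n m)
  have := (kummer hm).epi_g
  refine ShortComplex.ShortExact.mk' (ShortComplex.exact_of_f_is_kernel _
    (KernelFork.IsLimit.ofι' _ _ fun k hk => ⟨kernel.lift _ (k ≫ muι X _) ?_, ?_⟩)) ‹_›
    (epi_of_loc _ fun R _ u s p hp => ?_)
  · simpa [muPow_ι] using hk =≫ muι X n
  · rw [← cancel_mono (muι X _), Category.assoc, muInc_ι]
    exact kernel.lift_ι _ _ _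
  · have := hp.isPrime
    obtain ⟨E, h1, t, ht⟩ := loc_lift u (kumS X m).g ((muι X n).hom.app _ s) p
    replace ht : (m : ℤ) • t = (muι X n).hom.app _ (rs u (mu X n).obj E.ι s) :=
      ht.trans (rs_nat u _ _ _).symm
    obtain ⟨r, rfl⟩ := (muι_range (n * m) _ t).1 (by
      rw [mul_smul, ← natCast_zsmul _ m, ht, ← map_nsmul, mu_smul, map_zero])
    exact ⟨E, h1, r, muι_inj n _ (Eq.trans (congr(($(muPow_ι n m)).hom.app _ r)) ht)⟩

/-- The Kummer class and the power map. -/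
lemma kappa_muPow {n m : ℕ} (hn : Linv n X) (h : Linv (n * m) X) (T : Over X)
    (s : (Gm X).obj.obj (op T)) :
    (kappa h T s).comp (Ext.mk₀ (muPow X n m)) (add_zero 1) = kappa hn T s := by
  have e := ShortComplex.ShortExact.extClass_naturality (kummer h) (kummer hn)
    ⟨muPow X n m, (m : ℤ) • 𝟙 (Gm X), 𝟙 (Gm X), by simp [kumS, muPow_ι],
      by simp [kumS, smul_smul, -natCast_zsmul]⟩
  rw [kappa_apply, Ext.comp_assoc _ _ _ (zero_add 1) (add_zero 1) (by omega), kappa_apply]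
  exact congrArg (Ext.comp _ · _) (e.trans (Ext.mk₀_id_comp _))

/-- The Kummer class and the inclusion. -/
lemma kappa_muInc {n m : ℕ} (hm : Linv m X) (h : Linv (n * m) X) (T : Over X)
    (s : (Gm X).obj.obj (op T)) :
    (kappa hm T s).comp (Ext.mk₀ (muInc X n m)) (add_zero 1) = n • kappa h T s := by
  have e := ShortComplex.ShortExact.extClass_naturality (kummer hm) (kummer h)
    ⟨muInc X n m, 𝟙 (Gm X), (n : ℤ) • 𝟙 (Gm X), by simp [kumS, muInc_ι],
      by simp [kumS, smul_smul, -natCast_zsmul]⟩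
  obtain ⟨z, rfl⟩ := (frEquiv T _).surjective s
  rw [kappa_fr, Ext.comp_assoc _ _ _ (zero_add 1) (add_zero 1) (by omega), ← map_nsmul,
    ← natCast_zsmul]
  erw [e, Ext.mk₀_comp_mk₀_assoc]
  exact (kappa_fr h T _).symm

/-- Pull-back of `Gm`. -/
noncomputable def pbGm (f : Y ⟶ X) : (pb (J := Scheme.etaleTopology) f).obj (Gm X) ≅ Gm Y :=
  ObjectProperty.isoMk _ (NatIso.ofComponents (fun _ => Iso.refl _) fun _ => rfl)

lemma pbGm_app (f : Y ⟶ X) (T : Over Y) (s : (Gm X).obj.obj (op ((Over.map f).obj T))) :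
    GmTop T ((pbGm f).hom.hom.app (op T) s) = GmTop ((Over.map f).obj T) s := rfl

/-- The comparison map for the pull-back of `mu`. -/
noncomputable def pbMuH (f : Y ⟶ X) (n : ℕ) :
    (pb (J := Scheme.etaleTopology) f).obj (mu X n) ⟶ mu Y n :=
  kernel.lift _ ((pb (J := Scheme.etaleTopology) f).map (muι X n) ≫ (pbGm f).hom) (by
    ext T s
    exact (natCast_zsmul _ _).trans ((muι_range n ((Over.map f).obj T.unop) _).2 ⟨s, rfl⟩))

lemma pbMuH_app (f : Y ⟶ X) (n : ℕ) (T : Over Y) (s) :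
    (muι Y n).hom.app (op T) ((pbMuH f n).hom.app (op T) s) =
      (muι X n).hom.app (op ((Over.map f).obj T)) s :=
  congr(($(kernel.lift_ι ((n : ℤ) • 𝟙 (Gm Y))
    ((pb (J := Scheme.etaleTopology) f).map (muι X n) ≫ (pbGm f).hom) _)).hom.app (op T) s)

instance (f : Y ⟶ X) (n : ℕ) : IsIso (pbMuH f n) := by
  have (T : (Over Y)ᵒᵖ) : IsIso ((pbMuH f n).hom.app T) := by
    refine (ConcreteCategory.isIso_iff_bijective _).2 ⟨fun a b h => muι_inj n _ ?_, fun t => ?_⟩
    · rw [← pbMuH_app, ← pbMuH_app]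
      exact congrArg _ h
    · obtain ⟨s, hs⟩ := (muι_range n ((Over.map f).obj T.unop) _).1
        ((muι_range n T.unop _).2 ⟨t, rfl⟩)
      exact ⟨s, muι_inj n _ ((pbMuH_app f n _ s).trans hs)⟩
  have : IsIso ((sheafToPresheaf _ _).map (pbMuH f n)) :=
    NatIso.isIso_of_isIso_app (pbMuH f n).hom
  exact isIso_of_reflects_iso _ (sheafToPresheaf _ _)

/-- Pull-back of `mu`. -/
noncomputable def pbMu (f : Y ⟶ X) (n : ℕ) :
    (pb (J := Scheme.etaleTopology) f).obj (mu X n) ≅ mu Y n :=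
  asIso (pbMuH f n)

lemma pbMu_ι (f : Y ⟶ X) (n : ℕ) : (pbMu f n).hom ≫ muι Y n =
    (pb (J := Scheme.etaleTopology) f).map (muι X n) ≫ (pbGm f).hom := kernel.lift_ι _ _ _

lemma spec_top {A B : Type} [CommRing A] [CommRing B] (φ : A →+* B) (a : Spec (.of A) ⟶ X)
    (ζ : Γ(X, ⊤)) : (Scheme.ΓSpecIso (.of B)).hom ((Spec.map (CommRingCat.ofHom φ) ≫ a).appTop ζ) =
      φ ((Scheme.ΓSpecIso (.of A)).hom (a.appTop ζ)) :=
  ConcreteCategory.congr_hom (Scheme.ΓSpecIso_naturality (CommRingCat.ofHom φ)) _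

/-- A root of unity is locally a power of a primitive one. -/
lemma root_loc {R : Type} [CommRing R] {n : ℕ} [NeZero n] {ζ σ : R} (h1 : ζ ^ n = 1)
    (h2 : σ ^ n = 1) (m : Ideal R) [m.IsMaximal]
    (h : IsPrimitiveRoot (Ideal.Quotient.mk m ζ) n) :
    ∃ (i : ℕ) (E : EtA R R), i < n ∧ E.Hits m ∧ E.ι ζ ^ i = E.ι σ := by
  let := Ideal.Quotient.field m
  obtain ⟨i, hi, e⟩ := h.eq_pow_of_pow_eq_one (ξ := Ideal.Quotient.mk m σ)
    (by rw [← map_pow, h2, map_one])
  let g := ∑ j ∈ Finset.range n, (ζ ^ i) ^ j * σ ^ (n - 1 - j)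
  have hg : IsUnit (Ideal.Quotient.mk m g) := by
    have := h.neZero'
    simp only [g, map_sum, map_mul, map_pow, ← e, geom_sum₂_self]
    exact (NeZero.ne _).isUnit.mul (((h.isUnit (NeZero.ne n)).pow i).pow _)
  refine ⟨i, { E := Localization.Away g }, hi, ⟨RingHom.ker (IsLocalization.Away.lift g hg),
    RingHom.ker_isPrime _, ?_⟩, ?_⟩
  · rw [RingHom.comap_ker, IsLocalization.Away.lift_comp, Ideal.mk_ker]
  · have h3 := congrArg (algebraMap R (Localization.Away g)) (geom_sum₂_mul (ζ ^ i) σ n)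
    rw [← pow_mul, mul_comm i, pow_mul, h1, h2, one_pow, sub_self, map_zero, map_mul,
      (IsLocalization.Away.algebraMap_isUnit g).mul_right_eq_zero, map_sub, sub_eq_zero,
      map_pow] at h3
    exact h3

/-- A global primitive root of unity trivialises `mu`. -/
theorem cst_mu {n : ℕ} [NeZero n] (ζ : Γ(X, ⊤)) (h1 : ζ ^ n = 1)
    (hζ : ∀ (k : Type) [Field k] (x : Spec (.of k) ⟶ X),
      IsPrimitiveRoot ((Scheme.ΓSpecIso (.of k)).hom (x.appTop ζ)) n) :
    ∃ e : (cst X).obj (AddCommGrpCat.of (ULift.{1} (ZMod n))) ≅ mu X n,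
      ∀ (T : Over X) (c : ZMod n),
        ((GmTop T ((muι X n).hom.app (op T) (e.hom.hom.app (op T)
          ((toSheafify (Scheme.etaleTopology.over X) ((Functor.const _).obj (AddCommGrpCat.of (ULift.{1} (ZMod n))))).app
            (op T) (ULift.up c))))).toMul : Γ(T.left, ⊤)) = T.hom.appTop ζ ^ c.val := by
  obtain ⟨g, hg⟩ := (GmTop (Over.mk (𝟙 X))).surjective
    (Additive.ofMul (Units.ofPowEqOne ζ n h1 (NeZero.ne n)))
  obtain ⟨z, rfl⟩ := (muι_range n _ g).1 (Gm_ext (by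
    rw [map_nsmul, hg, map_zero]
    exact (Units.val_pow_eq_pow_val _ _).trans h1))
  let ψ : ZMod n →+ (mu X n).obj.obj (op (Over.mk (𝟙 X))) :=
    ZMod.lift n ⟨zmultiplesHom _ z, (natCast_zsmul _ _).trans (mu_smul n _ z)⟩
  have hψ (c : ZMod n) : ψ c = c.val • z := by
    rw [← natCast_zsmul]
    exact (congrArg ψ (by simp)).trans (ZMod.lift_coe n _ (c.val : ℤ))
  let φ : (Functor.const _).obj (AddCommGrpCat.of (ULift.{1} (ZMod n))) ⟶ (mu X n).obj :=
    { app T := AddCommGrpCat.ofHom (ψ.comp AddEquiv.ulift.toAddMonoidHom) ≫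
        (mu X n).obj.map (Over.homMk T.unop.hom : T.unop ⟶ Over.mk (𝟙 X)).op
      naturality T T' f := by
        rw [Category.assoc, ← Functor.map_comp]
        refine (Category.id_comp _).trans ?_
        congr 2
        exact Quiver.Hom.unop_inj (Over.OverMorphism.ext (Over.w f.unop).symm) }
  have hφ (T : Over X) (c : ZMod n) : ((GmTop T ((muι X n).hom.app (op T)
      (φ.app (op T) (ULift.up c)))).toMul : Γ(T.left, ⊤)) = T.hom.appTop ζ ^ c.val := by
    change ((GmTop T ((muι X n).hom.app (op T) ((mu X n).obj.map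
      (Over.homMk T.hom : T ⟶ Over.mk (𝟙 X)).op (ψ c)))).toMul : Γ(T.left, ⊤)) = _
    rw [map_nat, GmTop_res, hψ, map_nsmul, map_nsmul, hg, ← map_pow]
    exact congrArg _ (Units.val_pow_eq_pow_val _ _)
  let e : (cst X).obj (AddCommGrpCat.of (ULift.{1} (ZMod n))) ⟶ mu X n :=
    ⟨sheafifyLift _ φ (mu X n).property⟩
  have he : toSheafify (Scheme.etaleTopology.over X) _ ≫ e.hom = φ := toSheafify_sheafifyLift _ _ _
  have key (T : Over X) (c : ZMod n) : ((GmTop T ((muι X n).hom.app (op T) (e.hom.app (op T)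
      ((toSheafify (Scheme.etaleTopology.over X) ((Functor.const _).obj (AddCommGrpCat.of (ULift.{1} (ZMod n))))).app
        (op T) (ULift.up c))))).toMul : Γ(T.left, ⊤)) = T.hom.appTop ζ ^ c.val := by
    rw [← hφ, ← he]
    rfl
  have : Presheaf.IsLocallyInjective (Scheme.etaleTopology.over X) φ := ⟨fun {T} a b h => mem_Jov_of _ fun t => by
    obtain rfl : a = b := by
      have h2 := (hφ _ a.down).symm.trans
        ((congrArg (fun s => ((GmTop _ ((muι X n).hom.app T s)).toMul : Γ(T.unop.left, ⊤))) h).trans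
          (hφ _ b.down))
      have h3 := congrArg (fun s => (Scheme.ΓSpecIso (T.unop.left.residueField t)).hom
        ((T.unop.left.fromSpecResidueField t).appTop s)) h2
      simp only [map_pow] at h3
      exact ULift.ext _ _ (ZMod.val_injective n
        ((hζ _ (T.unop.left.fromSpecResidueField t ≫ T.unop.hom)).pow_inj (ZMod.val_lt _)
          (ZMod.val_lt _) h3))
    exact ⟨_, 𝟙 _, (inferInstance : Etale (𝟙 _)), rfl, t, by simp⟩⟩
  have : Sheaf.IsLocallyInjective e :=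
    Presheaf.isLocallyInjective_of_isLocallyInjective_of_isLocallySurjective_fac _ φ he
  have := Sheaf.mono_of_isLocallyInjective e
  have : Epi e := epi_of_loc _ fun R _ u s m hm => by
    let := Ideal.Quotient.field m
    obtain ⟨i, E, hi, h2, h3⟩ := root_loc (ζ := (Scheme.ΓSpecIso (.of R)).hom (u.appTop ζ))
      (by rw [← map_pow, ← map_pow, h1, map_one, map_one]) (mu_val_pow n _ s) m
      (spec_top (Ideal.Quotient.mk m) u ζ ▸ hζ _ _)
    refine ⟨E, h2, (toSheafify (Scheme.etaleTopology.over X) ((Functor.const _).obj (AddCommGrpCat.of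
      (ULift.{1} (ZMod n))))).app (op (ob u E.E)) (ULift.up (i : ZMod n)), mu_ext n ?_⟩
    rw [muEquiv_rs, ← h3, muEquiv_ι, GmEquiv_val, key, map_pow, ZMod.val_cast_of_lt hi]
    exact congrArg (· ^ i) ((spec_top _ u ζ).trans (E.ι.commutes _).symm)
  have := isIso_of_mono_of_epi e
  exact ⟨asIso e, key⟩

end Pool.Agent.MP_855f4c_ag.E4

end
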