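import Pool.Agent.MP_855f4c_ag.EC.F2c
import Pool.Agent.MP_855f4c_ag.EC.Sa
import Pool.Agent.MP_855f4c_ag.EC.E4a
import Pool.Agent.MP_855f4c_ag.EC.E4b

section

set_option backward.isDefEq.respectTransparency false

open CategoryTheory Limits Opposite AlgebraicGeometry Abelian

namespace Pool.Agent.MP_855f4c_ag.E

open E3

variable {X : Scheme.{0}} {l : ℕ}

namespace Cst

open IsLocalRing E4

variable {R : Type} [CommRing R] (u : Spec (.of R) ⟶ X) {P : PSh X}

/-- An etale neighbourhood of a point contains its generisations. -/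
lemma gen {E E' S k K : Type} [CommRing E] [CommRing E'] [CommRing S] [Field k] [Field K]
    [IsAlgClosed K] [Algebra E E'] [Algebra.Etale E E'] [Algebra E S] (h : E' →ₐ[E] S)
    (σ : S →+* k) (ψ : E →+* K) (hk : ∀ z, ψ z = 0 → σ (algebraMap E S z) = 0) :
    ∃ τ : E' →+* K, τ.comp (algebraMap E E') = ψ := by
  let _ := ψ.toAlgebra
  let Q : Ideal E' := RingHom.ker (σ.comp (h : E' →+* S))
  have : Q.IsPrime := RingHom.ker_isPrime _
  have : (RingHom.ker ψ).IsPrime := RingHom.ker_isPrime _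
  have : Q.LiesOver (Q.under E) := ⟨rfl⟩
  obtain ⟨q, -, _, hq⟩ := Q.exists_ideal_le_liesOver_of_le (p := RingHom.ker ψ) (q := Q.under E)
    fun z hz => by
      change σ (h (algebraMap E E' z)) = 0
      rw [h.commutes]
      exact hk z hz
  obtain ⟨τ, -⟩ := E3.exists_point (R := E) K q hq.over.symm
  exact ⟨τ, τ.comp_algebraMap⟩

/-- Extension of algebraically closed fields. -/
theorem field (hP : LFP P) {k K : Type} [Field k] [IsAlgClosed k] [Field K] [IsAlgClosed K]
    [Algebra R k] [Algebra R K] [Algebra k K] [IsScalarTower R k K]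
    (h : ∀ (S : Type) [CommRing S] [Algebra R S] [SHL S] (σ : S →ₐ[R] k),
      RingHom.ker σ = maximalIdeal S → Function.Surjective σ →
      Function.Injective (rs u P σ)) :
    Function.Bijective (rs u P (up R k K)) := by
  obtain ⟨h1, h2⟩ := lfp_fac u hP (Stage.fac_fp (R := k) (C := K))
  have pt : ∀ a : Stage k K fun _ _ _ => True, ∃ x : a.E →ₐ[k] k, (∀ z, a.φ z = 0 → x z = 0) ∧
      (x.restrictScalars R).comp (up R k a.E) = AlgHom.id R k := fun a => by
    obtain ⟨x, hx⟩ := exists_closed_point (Algebra.ofId k K) a.φ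
    exact ⟨x, hx, AlgHom.ext x.commutes⟩
  have e : ∀ a : Stage k K fun _ _ _ => True,
      (a.φ.restrictScalars R).comp (up R k a.E) = up R k K := fun a => AlgHom.ext a.φ.commutes
  refine ⟨(injective_iff_map_eq_zero _).2 fun t ht => ?_, fun s => ?_⟩
  · obtain ⟨a, -⟩ := Stage.fac_fp (R := k) (C := K) k (Algebra.ofId k K)
    obtain ⟨b, f, hf⟩ := h2 a (rs u P (up R k a.E) t) (by rw [rs_rs, e, ht])
    obtain ⟨x, -, hx⟩ := pt b
    have e' : (f.1.restrictScalars R).comp (up R k a.E) = up R k b.E := AlgHom.ext f.1.commutes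
    rw [rs_rs, e'] at hf
    rw [← rs_id u P t, ← hx, ← rs_rs, hf, map_zero]
  · obtain ⟨a, t, rfl⟩ := h1 s
    obtain ⟨x, hx, hx'⟩ := pt a
    refine ⟨rs u P (x.restrictScalars R) t, ?_⟩
    obtain ⟨S, _, _, _, _, _, σ, k1, k2, k3⟩ := E4.exists_sh (x.restrictScalars R)
    have hσ : ∀ z, σ (algebraMap a.E S z) = x z := fun z => congr($k3 z)
    obtain ⟨E, g, hE⟩ := ind_zero u hP k1
      (rs u P (up R k a.E) (rs u P (x.restrictScalars R) t) - t)
      (h S σ k2 (fun c => ⟨_, (hσ _).trans (x.commutes c)⟩) (by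
        rw [rs_rs, k3, map_sub, rs_rs u P (up R k a.E), hx', rs_id, sub_self, map_zero]))
    obtain ⟨τ, hτ⟩ := gen g (σ : S →+* k) (a.φ : a.E →+* K) fun z hz => (hσ z).trans (hx z hz)
    have hτ' : ∀ z, τ (algebraMap a.E E.E z) = a.φ z := fun z => congr($hτ z)
    let τ' : E.E →ₐ[R] K := ⟨τ, fun r => by
      rw [IsScalarTower.algebraMap_apply R a.E E.E]
      exact (hτ' _).trans ((a.φ.restrictScalars R).commutes r)⟩
    have := congrArg (rs u P τ') hE
    rwa [rs_rs, show τ'.comp E.ι = a.φ.restrictScalars R from AlgHom.ext hτ', map_zero, map_sub,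
      rs_rs, e, sub_eq_zero] at this

lemma sph_sph {A B C : Type} [CommRing A] [CommRing B] [CommRing C] (φ : A →+* B) (ψ : B →+* C)
    {a : Spec (.of A) ⟶ X} {b : Spec (.of B) ⟶ X} {c : Spec (.of C) ⟶ X}
    (h : Spec.map (CommRingCat.ofHom φ) ≫ a = b) (h' : Spec.map (CommRingCat.ofHom ψ) ≫ b = c)
    (χ : A →+* C) (e : ψ.comp φ = χ) :
    ∃ h'' : Spec.map (CommRingCat.ofHom χ) ≫ a = c, sph ψ h' ≫ sph φ h = sph χ h'' := by
  subst e
  have : Spec.map (CommRingCat.ofHom ψ) ≫ Spec.map (CommRingCat.ofHom φ) =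
      Spec.map (CommRingCat.ofHom (ψ.comp φ)) := by rw [← Spec.map_comp]; rfl
  exact ⟨by rw [← this, Category.assoc, h, h'], Over.OverMorphism.ext this⟩

/-- An algebraic extension of the residue field embeds into every geometric point. -/
lemma emb {A k K : Type} [CommRing A] [IsLocalRing A] [Field k] [Field K] [IsAlgClosed K]
    (φ : A →+* k) (ψ : A →+* K) [IsLocalHom φ] [IsLocalHom ψ] (h : φ.IsIntegral) :
    ∃ ι : k →+* K, ι.comp φ = ψ := by
  let _ := φ.toAlgebra
  let _ := ψ.toAlgebra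
  have : Algebra.IsIntegral A k := ⟨h⟩
  obtain ⟨τ, -⟩ := E4.exists_point (R := A) (D := k) (M := K) ⊥
    ((ker_eq_max φ).trans (ker_eq_max ψ).symm)
  exact ⟨τ, τ.comp_algebraMap⟩

/-- Maps from a local scheme to an unramified scheme are determined at the closed point. -/
lemma unr_ext {A k : Type} [CommRing A] [IsLocalRing A] [Field k] (φ : A →+* k) [IsLocalHom φ]
    {U Y : Scheme.{0}} (v : U ⟶ Y) [Etale v] (a b : Spec (.of A) ⟶ U) (h : a ≫ v = b ≫ v)
    (e : Spec.map (CommRingCat.ofHom φ) ≫ a = Spec.map (CommRingCat.ofHom φ) ≫ b) : a = b := by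
  have h1 : Spec.map (CommRingCat.ofHom φ) ≫ pullback.lift a b h =
      (Spec.map (CommRingCat.ofHom φ) ≫ a) ≫ pullback.diagonal v := by
    refine pullback.hom_ext ?_ ?_ <;> simp [e]
  have h2 : Set.range (pullback.lift a b h) ⊆ Set.range (pullback.diagonal v) := by
    rintro _ ⟨t, rfl⟩
    refine ((IsLocalRing.specializes_closedPoint t).map (pullback.lift a b h).continuous).mem_open
      (pullback.diagonal v).isOpenEmbedding.isOpen_range ?_
    refine ⟨(Spec.map (CommRingCat.ofHom φ) ≫ a) (closedPoint k), ?_⟩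
    rw [← Scheme.Hom.comp_apply, ← h1, Scheme.Hom.comp_apply]
    exact congrArg _ (comap_closedPoint φ)
  have h3 := IsOpenImmersion.lift_fac (pullback.diagonal v) _ h2
  have h4 := h3 =≫ pullback.fst _ _
  have h5 := h3 =≫ pullback.snd _ _
  simp only [Category.assoc, pullback.diagonal_fst, pullback.diagonal_snd, Category.comp_id,
    pullback.lift_fst, pullback.lift_snd] at h4 h5
  exact h4.symm.trans h5

lemma md_zero {α β γ : Type*} (t : α →₀ ℤ) (g : α → β) (h : α → γ)
    (H : ∀ a ∈ t.support, ∀ b ∈ t.support, g a = g b → h a = h b) (ht : t.mapDomain g = 0) :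
    t.mapDomain h = 0 := by
  rcases eq_or_ne t 0 with rfl | h0
  · exact Finsupp.mapDomain_zero
  obtain ⟨a₀, -⟩ := Finsupp.support_nonempty_iff.2 h0
  have hf : Function.FactorsThrough (fun a : t.support => h a) fun a : t.support => g a :=
    fun a b e => H _ a.2 _ b.2 e
  rw [Finsupp.mapDomain_congr (g := Function.extend (fun a : t.support => g a)
      (fun a : t.support => h a) (fun _ => h a₀) ∘ g) fun a ha => (hf.extend_apply _ ⟨a, ha⟩).symm,
    Finsupp.mapDomain_comp, ht, Finsupp.mapDomain_zero]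

lemma frP_lfp (V : Over X) [LocallyOfFinitePresentation V.hom] : LFP (frP.obj V) := by
  intro I _ _ D c hD hc
  refine ⟨fun s => ?_, fun i t ht => ?_⟩
  · induction s using Finsupp.induction_linear with
    | zero => exact ⟨(IsCofiltered.nonempty (C := I)).some, 0, map_zero _⟩
    | add a b ha hb =>
      obtain ⟨i, t, rfl⟩ := ha
      obtain ⟨j, t', rfl⟩ := hb
      exact ⟨IsCofiltered.min i j, (frP.obj V).map (D.map (IsCofiltered.minToLeft i j)).op t +
        (frP.obj V).map (D.map (IsCofiltered.minToRight i j)).op t', by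
          rw [map_add, res_res, res_res, pr_w, pr_w]⟩
    | single g n =>
      obtain ⟨i, g', e⟩ := hom_surj hD hc V g.down
      exact ⟨i, Finsupp.single ⟨g'⟩ n, Finsupp.mapDomain_single.trans
        (congrArg (Finsupp.single · n) (congrArg ULift.up e))⟩
  · let t' : ULift.{1} (D.obj i ⟶ V) →₀ ℤ := t
    let e := (Finite.equivFin (t'.support × t'.support)).symm
    obtain ⟨j, f, hf⟩ := common i (fun n j f => pr c i ≫ (e n).1.1.down = pr c i ≫ (e n).2.1.down →
      D.map f ≫ (e n).1.1.down = D.map f ≫ (e n).2.1.down)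
      (fun n j k f g h h' => by rw [D.map_comp, Category.assoc, Category.assoc, h h'])
      fun n => by
        by_cases h : pr c i ≫ (e n).1.1.down = pr c i ≫ (e n).2.1.down
        · obtain ⟨j, f, hf⟩ := hom_inj hD hc V i _ _ h
          exact ⟨j, f, fun _ => hf⟩
        · exact ⟨i, 𝟙 i, fun h' => (h h').elim⟩
    refine ⟨j, f, md_zero t' _ _ (fun a ha b hb hab => ?_) ht⟩
    have := hf (e.symm (⟨a, ha⟩, ⟨b, hb⟩))
    rw [e.apply_symm_apply] at this
    exact congrArg ULift.up (this (congrArg ULift.down hab))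

lemma frP_rig (V : Over X) [Etale V.hom] : Rig l (frP.obj V) := by
  intro A k _ _ _ _ φ _ a b h _
  refine ⟨Finsupp.mapDomain_injective fun x y e => ULift.ext _ _ (Over.OverMorphism.ext ?_),
    Finsupp.mapDomain_surjective fun y => ?_⟩
  · exact unr_ext φ V.hom _ _ ((Over.w x.down).trans (Over.w y.down).symm)
      (congrArg (fun z => z.down.left) e)
  · obtain ⟨a', h3, h4⟩ := E.shl_lift φ V.hom a y.down.left ((Over.w y.down).trans h.symm)
    exact ⟨⟨Over.homMk a' h3⟩, ULift.ext _ _ (Over.OverMorphism.ext h4)⟩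

end Cst

variable {k : Type} [Field k] [IsAlgClosed k]

theorem rig2 {P : PSh X} (hP : LFP P)
    (h : ∀ (A : Type) [CommRing A] [SHL A] (a : Spec (.of A) ⟶ X), IsUnit (l : A) →
      ∃ (k : Type) (_ : Field k) (_ : IsAlgClosed k) (φ : A →+* k) (_ : IsLocalHom φ),
        φ.IsIntegral ∧ Function.Bijective (P.map (sph φ (a := a) rfl).op)) : Rig l P := by
  intro A K _ _ _ _ ψ _ a b hb hl
  subst hb
  obtain ⟨k, _, _, φ, _, hi, h1⟩ := h A a hl
  obtain ⟨ι, rfl⟩ := Cst.emb φ ψ hi
  let _ := φ.toAlgebra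
  let _ := ι.toAlgebra
  let _ := (ι.comp φ).toAlgebra
  have : IsScalarTower A k K := .of_algebraMap_eq fun _ => rfl
  have hk : IsUnit (l : k) := by simpa using hl.map φ
  have h2 := Cst.field a hP (k := k) (K := K) fun S _ _ _ σ k1 k2 => by
    have : IsLocalHom (σ : S →+* k) := ⟨fun x hx => by
      by_contra hn
      have : x ∈ RingHom.ker σ := k1 ▸ (IsLocalRing.mem_maximalIdeal _).mpr hn
      exact hx.ne_zero this⟩
    obtain ⟨k', _, _, σ', _, -, h3⟩ := h S (E4.ob a S).hom
      (isUnit_of_map_unit (σ : S →+* k) _ (by rwa [map_natCast]))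
    obtain ⟨j, hj⟩ := Cst.emb (σ : S →+* k) σ' (RingHom.isIntegral_of_surjective _ k2)
    obtain ⟨e1, -⟩ := Cst.sph_sph (σ : S →+* k) j (Over.w (E4.hm a σ)) rfl σ' hj
    obtain ⟨e2, e⟩ := Cst.sph_sph (σ : S →+* k) j (Over.w (E4.hm a σ)) e1.symm σ' hj
    intro x y hxy
    refine h3.1 ?_
    rw [← e, ← res_res, ← res_res]
    exact congrArg _ hxy
  have e : sph (ι.comp φ) (a := a) rfl = E4.hm a (E4.up A k K) ≫ sph φ (a := a) rfl :=
    Over.OverMorphism.ext (by
      change _ = Spec.map _ ≫ Spec.map _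
      rw [← Spec.map_comp]
      rfl)
  rw [e, op_comp, P.map_comp]
  exact h2.comp h1

theorem cst_Cc (l : ℕ) (M : Ab.{1}) : Cc l ((cst X).obj M) :=
  Cc.of_iso ((E4.cstIso X).app M).symm (E4.lc_cc X M l)
theorem cst_Tc (M : Ab.{1}) (h : ∀ m : M, ∃ n : ℕ, l ^ n • m = 0) : Tc l ((cst X).obj M) :=
  Tc.of_iso ((E4.cstIso X).app M).symm ⟨E4.lc_cc X M l, E4.lc_tor X M l h⟩
/-- the constant section -/
noncomputable def cstι (M : Ab.{1}) (T : Over X) : M ⟶ ((cst X).obj M).obj.obj (op T) :=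
  (toSheafify (Scheme.etaleTopology.over X) ((Functor.const _).obj M)).app (op T)
theorem cstι_res (M : Ab.{1}) {T' T : Over X} (g : T' ⟶ T) (m : M) :
    ((cst X).obj M).obj.map g.op (cstι M T m) = cstι M T' m :=
  (nat (toSheafify (Scheme.etaleTopology.over X) ((Functor.const _).obj M)) g m).symm
theorem cstι_shl (M : Ab.{1}) {A : Type} [CommRing A] [SHL A] (a : Spec (.of A) ⟶ X) :
    Function.Bijective (cstι M (Over.mk a)) :=
  ⟨shl_inj a (toSheafify (Scheme.etaleTopology.over X) ((Functor.const _).obj M)),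
    shl_surj a (toSheafify (Scheme.etaleTopology.over X) ((Functor.const _).obj M))⟩
theorem cstι_connected (M : Ab.{1}) (T : Over X) [ConnectedSpace T.left] :
    Function.Bijective (cstι M T) := by
  have h1 : Function.Bijective (((E4.cstIso X).hom.app M).hom.app (op T)) :=
    ConcreteCategory.bijective_of_isIso
      (((sheafToPresheaf _ _).map ((E4.cstIso X).hom.app M)).app (op T))
  refine (Function.Bijective.of_comp_iff' h1 _).1 ?_
  obtain ⟨t⟩ : Nonempty T.left := inferInstance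
  exact ⟨fun x y e => LocallyConstant.congr_fun
      (((E4.cstIso_app X M T x).symm.trans e).trans (E4.cstIso_app X M T y)) t,
    fun f : LocallyConstant T.left M =>
      ⟨f t, (E4.cstIso_app X M T _).trans (LocallyConstant.eq_const f t).symm⟩⟩
theorem Cc.const_of_algClosed (hl : (l : k) ≠ 0) {F : Sh (Scheme.etaleTopology.over (Spec (.of k)))} (hF : Cc l F) :
    IsIso ((constantSheafAdj (Scheme.etaleTopology.over (Spec (.of k))) Ab.{1} Over.mkIdTerminal).counit.app F) := by
  refine pt_iso (Linv.spec (isUnit_iff_ne_zero.2 hl)) (cst_Cc l _) hF _ fun t =>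
    ⟨k, inferInstance, inferInstance, 𝟙 _, ⟨t, rfl⟩, ?_⟩
  refine (Function.Bijective.of_comp_iff _
    (cstι_shl (F.obj.obj (op (Over.mk (𝟙 _)))) (𝟙 (Spec (.of k))))).1 ?_
  have e := fun s => congr($((constantSheafAdj (Scheme.etaleTopology.over (Spec (.of k))) Ab.{1}
    Over.mkIdTerminal).right_triangle_components F) s)
  exact ⟨fun x y h => ((e x).symm.trans h).trans (e y), fun y => ⟨y, e y⟩⟩
theorem fr_LFP (V : Over X) [LocallyOfFinitePresentation V.hom] : LFP ((fr (Scheme.etaleTopology.over X)).obj V).obj :=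
  LFP.of_locBij (toSheafify (Scheme.etaleTopology.over X) (frP.obj V)) (Cst.frP_lfp V)
theorem fr_Cc (l : ℕ) (V : Over X) [Etale V.hom] : Cc l ((fr (Scheme.etaleTopology.over X)).obj V) :=
  ⟨fr_LFP V, (Rig.of_locBij (toSheafify (Scheme.etaleTopology.over X) (frP.obj V))).1 (Cst.frP_rig V)⟩

end Pool.Agent.MP_855f4c_ag.E

end
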