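import Pool.Agent.MP_855f4c_ag.EC.E3a
import Pool.Agent.MP_855f4c_ag.EC.E28a

section

set_option autoImplicit false

open CategoryTheory Limits Abelian TopologicalSpace IsLocalRing

namespace Pool.Agent.MP_855f4c_ag.E.PB

open E3

universe w v u

/-- An abelian category with a class `C` of objects that is controlled by stalks `P w ⟶ -`
at the points of a space `S`. -/
structure Dev (𝒜 : Type u) [Category.{v} 𝒜] [Abelian 𝒜] (S : Type) [TopologicalSpace S] where
  C : 𝒜 → Prop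
  P : S → 𝒜
  fV : Opens S ⥤ 𝒜
  B : Set (Opens S)
  e : ∀ (V : Opens S) (w : S), w ∈ V → (P w ⟶ fV.obj V)
  basis : Opens.IsBasis B
  proj : ∀ w, Projective (P w)
  e_map : ∀ {V V' : Opens S} (i : V ⟶ V') (w : S) (h : w ∈ V) (h' : w ∈ V'),
    e V w h ≫ fV.map i = e V' w h'
  gen : ∀ (V : Opens S) (w : S) (x : P w ⟶ fV.obj V), x = 0 ∨ ∃ (h : w ∈ V) (n : ℤ), x = n • e V w h
  C_fV : ∀ V ∈ B, C (fV.obj V)
  C_iso : ∀ {X Y : 𝒜}, (X ≅ Y) → C X → C Y
  C_ker : ∀ {X Y : 𝒜} (f : X ⟶ Y), C X → C Y → C (kernel f)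
  C_coker : ∀ {X Y : 𝒜} (f : X ⟶ Y), C X → C Y → C (cokernel f)
  pt : ∀ X, C X → (∀ w (x : P w ⟶ X), x = 0) → IsZero X
  germ : ∀ G, C G → ∀ w (x : P w ⟶ G), ∃ V ∈ B, ∃ (h : w ∈ V) (s : fV.obj V ⟶ G), e V w h ≫ s = x
  germ0 : ∀ G, C G → ∀ V ∈ B, ∀ (s : fV.obj V ⟶ G) (w : S) (h : w ∈ V), e V w h ≫ s = 0 →
    ∃ V' : Opens S, w ∈ V' ∧ ∀ (w' : S) (h' : w' ∈ V), w' ∈ V' → e V w' h' ≫ s = 0

/-- Objects of `C` with `l`-primary torsion stalks. -/
def Dev.T {𝒜 : Type u} [Category.{v} 𝒜] [Abelian 𝒜] {S : Type} [TopologicalSpace S]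
    (D : Dev 𝒜 S) (l : ℕ) (G : 𝒜) : Prop :=
  D.C G ∧ ∀ w (x : D.P w ⟶ G), ∃ n : ℕ, ((l : ℤ) ^ n) • x = 0

/-- Dévissage to irreducible closed subsets. -/
def DEVZ_s : Prop :=
  ∀ (𝒜 : Type u) [Category.{v} 𝒜] [Abelian 𝒜] [HasExt.{w} 𝒜] (S : Type) [TopologicalSpace S]
    (D : Dev 𝒜 S) (l : ℕ), l.Prime → ∀ A : 𝒜,
    (∀ G, D.C G → ∀ c : Set (Subobject G), c.Nonempty → IsChain (· ≤ ·) c →
      (∀ K ∈ c, D.C (K : 𝒜)) → ∃ K : Subobject G, D.C (K : 𝒜) ∧ (∀ K' ∈ c, K' ≤ K) ∧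
        ∀ (q : ℕ) (x : Ext.{w} A (K : 𝒜) q), ∃ K' ∈ c, ∃ x' : Ext.{w} A (K' : 𝒜) q,
          x'.comp (Ext.mk₀ K'.arrow) (add_zero q) = x.comp (Ext.mk₀ K.arrow) (add_zero q)) →
    (∀ Z : Set S, IsIrreducible Z → IsClosed Z → ∃ L : 𝒜, D.T l L ∧
      (∀ (q : ℕ) (x : Ext.{w} A L q), x = 0) ∧
      ∀ V ∈ D.B, ∃ u : D.fV.obj V ⟶ L, ∀ (w : S) (h : w ∈ V), (w ∉ Z → D.e V w h ≫ u = 0) ∧
        (w ∈ Z → ∀ n : ℤ, n • (D.e V w h ≫ u) = 0 ↔ (l : ℤ) ∣ n)) →
    ∀ (q : ℕ) (G : 𝒜), D.T l G → ∀ x : Ext.{w} A G q, x = 0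

/-- `c` is locally constant on the subset `S`. -/
def LC {Y M : Type*} [TopologicalSpace Y] (S : Set Y) (c : Y → M) : Prop :=
  IsLocallyConstant (S.domRestrict c)

/-- Locally constant functions on `S ∩ U₁ ∩ U₂` are differences. -/
def Split (M : Type*) [AddCommGroup M] {Y : Type*} [TopologicalSpace Y] (S U₁ U₂ : Set Y) : Prop :=
  ∀ c : Y → M, LC (S ∩ U₁ ∩ U₂) c → ∃ c₁ c₂ : Y → M, LC (S ∩ U₁) c₁ ∧ LC (S ∩ U₂) c₂ ∧
    ∀ y ∈ S ∩ U₁ ∩ U₂, c y = c₁ y - c₂ y

open PrimeSpectrum in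
/-- Roots of unity, idempotents and locally constant functions. -/
def MU_s : Prop :=
  ∀ (R : Type) [CommRing R] (I : Ideal R),
    (∀ c : PrimeSpectrum R → Bool, LC (zeroLocus I) c →
      ∃ e : R, e ^ 2 - e ∈ I ∧ ∀ x ∈ zeroLocus (I : Set R), c x = true ↔ e ∉ x.asIdeal) ∧
    ∀ (l : ℕ) [Fact l.Prime], IsUnit (l : R) → ∀ ζ : R, ∑ i ∈ Finset.range l, ζ ^ i = 0 →
      (∀ c : PrimeSpectrum R → ZMod l, LC (zeroLocus I) c →
        ∃ u : R, u ^ l - 1 ∈ I ∧ ∀ x ∈ zeroLocus (I : Set R), u - ζ ^ (c x).val ∈ x.asIdeal) ∧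
      (∀ u : R, (∀ x ∈ zeroLocus (I : Set R), u ^ l - 1 ∈ x.asIdeal) →
        ∃ c : PrimeSpectrum R → ZMod l, LC (zeroLocus I) c ∧
          ∀ x ∈ zeroLocus (I : Set R), u - ζ ^ (c x).val ∈ x.asIdeal) ∧
      ∀ (x : PrimeSpectrum R) (a b c : ZMod l),
        ζ ^ a.val - ζ ^ b.val * ζ ^ c.val ∈ x.asIdeal → a = b + c

open PrimeSpectrum in
/-- Splitting on a closed subset of the spectrum of an aic ring. -/
def SPL_s : Prop :=
  ∀ (R : Type) [CommRing R], Aic R → ∀ (l : ℕ) [Fact l.Prime], IsUnit (l : R) →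
    ∀ Z : Set (PrimeSpectrum R), IsClosed Z → ∀ f g : R, IsCoprime f g →
      Split (ZMod l) Z (basicOpen f) (basicOpen g)

/-- Two aic charts, integral over `A[t]` and `A[s]`, glued along `t s = 1`. -/
structure Charts (A B₁ B₂ C : Type) [CommRing A] [CommRing B₁] [CommRing B₂] [CommRing C]
    [Algebra A B₁] [Algebra A B₂] [Algebra B₁ C] [Algebra B₂ C] (t : B₁) (s : B₂) : Prop where
  comm : ∀ a : A, algebraMap B₁ C (algebraMap A B₁ a) = algebraMap B₂ C (algebraMap A B₂ a)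
  loc₁ : IsLocalization.Away t C
  loc₂ : IsLocalization.Away s C
  ts : algebraMap B₁ C t * algebraMap B₂ C s = 1
  aic₁ : Aic B₁
  aic₂ : Aic B₂
  int₁ : ∀ b : B₁, IsIntegral (Algebra.adjoin A {t}) b
  int₂ : ∀ b : B₂, IsIntegral (Algebra.adjoin A {s}) b

/-- The primes above `p` and the maximal ideal of `A`. -/
def fib {A B : Type} [CommRing A] [IsLocalRing A] [CommRing B] (φ : A →+* B)
    (p : PrimeSpectrum B) : Set (PrimeSpectrum B) :=
  PrimeSpectrum.zeroLocus ((p.asIdeal ⊔ (maximalIdeal A).map φ : Ideal B) : Set B)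

open PrimeSpectrum in
/-- The special fibre of an irreducible closed set that meets the overlap of the charts. -/
def KEYA_s : Prop :=
  ∀ (A B₁ B₂ C : Type) [CommRing A] [SHL A] [CommRing B₁] [CommRing B₂] [CommRing C]
    [Algebra A B₁] [Algebra A B₂] [Algebra B₁ C] [Algebra B₂ C] (t : B₁) (s : B₂),
    Charts A B₁ B₂ C t s → ∀ (l : ℕ) [Fact l.Prime], IsUnit (l : A) → ∀ p : PrimeSpectrum C,
      let Z₁ := fib (algebraMap A B₁) (comap (algebraMap B₁ C) p)
      let Z₂ := fib (algebraMap A B₂) (comap (algebraMap B₂ C) p)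
      let Z := fib ((algebraMap B₁ C).comp (algebraMap A B₁)) p
      (Z₁.Nonempty ∨ Z₂.Nonempty) ∧
      (∀ (c₁ : PrimeSpectrum B₁ → Bool) (c₂ : PrimeSpectrum B₂ → Bool), LC Z₁ c₁ → LC Z₂ c₂ →
        (∀ x ∈ Z, c₁ (comap (algebraMap B₁ C) x) = c₂ (comap (algebraMap B₂ C) x)) →
        ∃ b, (∀ x ∈ Z₁, c₁ x = b) ∧ ∀ x ∈ Z₂, c₂ x = b) ∧
      ∀ c : PrimeSpectrum C → ZMod l, LC Z c →
        ∃ (c₁ : PrimeSpectrum B₁ → ZMod l) (c₂ : PrimeSpectrum B₂ → ZMod l), LC Z₁ c₁ ∧ LC Z₂ c₂ ∧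
          ∀ x ∈ Z, c x = c₁ (comap (algebraMap B₁ C) x) - c₂ (comap (algebraMap B₂ C) x)

/-- An irreducible closed set inside `t = 0` has exactly one point over the maximal ideal. -/
def KEYB_s : Prop :=
  ∀ (A B : Type) [CommRing A] [SHL A] [CommRing B] [Algebra A B] (t : B),
    (∀ b : B, IsIntegral (Algebra.adjoin A {t}) b) → ∀ p : PrimeSpectrum B, t ∈ p.asIdeal →
      ∃ x, fib (algebraMap A B) p = {x}

open PrimeSpectrum in
/-- The glued form. -/
def KEY_s : Prop :=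
  ∀ (A B₁ B₂ C : Type) [CommRing A] [SHL A] [CommRing B₁] [CommRing B₂] [CommRing C]
    [Algebra A B₁] [Algebra A B₂] [Algebra B₁ C] [Algebra B₂ C] (t : B₁) (s : B₂),
    Charts A B₁ B₂ C t s → ∀ (l : ℕ) [Fact l.Prime], IsUnit (l : A) →
    ∀ (W : Type) [TopologicalSpace W] (ι₁ : PrimeSpectrum B₁ → W) (ι₂ : PrimeSpectrum B₂ → W),
      Topology.IsOpenEmbedding ι₁ → Topology.IsOpenEmbedding ι₂ →
      Set.range ι₁ ∪ Set.range ι₂ = Set.univ →
      (∀ x : PrimeSpectrum C, ι₁ (comap (algebraMap B₁ C) x) = ι₂ (comap (algebraMap B₂ C) x)) →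
      (∀ x y, ι₁ x = ι₂ y → t ∉ x.asIdeal) →
      ∀ W₀ : Set W, ι₁ ⁻¹' W₀ = zeroLocus ((maximalIdeal A).map (algebraMap A B₁)) →
        ι₂ ⁻¹' W₀ = zeroLocus ((maximalIdeal A).map (algebraMap A B₂)) →
        ∀ Z : Set W, IsIrreducible Z → IsClosed Z →
          IsConnected (Z ∩ W₀) ∧ Split (ZMod l) (Z ∩ W₀) (Set.range ι₁) (Set.range ι₂)

open AlgebraicGeometry in
/-- Over an aic ring an etale map has sections over basic open neighbourhoods. -/
def ZSEC_s : Prop :=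
  ∀ (R : CommRingCat.{0}), Aic R → ∀ (V : Scheme.{0}) (g : V ⟶ Spec R) [Etale g] (v : V),
    ∃ f : R, f ∉ (g v).asIdeal ∧ ∃ σ : Spec (.of (Localization.Away f)) ⟶ V,
      σ ≫ g = Spec.map (CommRingCat.ofHom (algebraMap R (Localization.Away f)))

open AlgebraicGeometry in
/-- An integral surjective cover that is aic over affine opens. -/
def WEX_s : Prop :=
  ∀ (X : Scheme.{0}) [X.IsSeparated] (U : X.Opens), IsAffineOpen U → Dense (U : Set X) →
    ∃ (W : Scheme.{0}) (ρ : W ⟶ X), IsIntegralHom ρ ∧ Surjective ρ ∧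
      ∀ V : X.Opens, IsAffineOpen V → (∃ t : Γ(X, U), X.basicOpen t = U ⊓ V) →
        Aic Γ(W, ρ ⁻¹ᵁ V)

end Pool.Agent.MP_855f4c_ag.E.PB

end

section

set_option autoImplicit false

open CategoryTheory Limits Abelian TopologicalSpace

namespace Pool.Agent.MP_855f4c_ag.E.PB

universe w v u

namespace DEVZ

variable {𝒜 : Type u} [Category.{v} 𝒜] [Abelian 𝒜]

section ext
variable [HasExt.{w} 𝒜] {A X Y Z : 𝒜} {q : ℕ}

/-- postcomposition -/
noncomputable def po (x : Ext.{w} A X q) (f : X ⟶ Y) : Ext.{w} A Y q :=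
  x.comp (Ext.mk₀ f) (add_zero q)

lemma po_po (x : Ext.{w} A X q) (f : X ⟶ Y) (g : Y ⟶ Z) : po (po x f) g = po x (f ≫ g) := by
  unfold po
  rw [Ext.comp_assoc_of_third_deg_zero, Ext.mk₀_comp_mk₀]

lemma po_zero (x : Ext.{w} A X q) : po x (0 : X ⟶ Y) = 0 := by
  unfold po
  rw [Ext.mk₀_zero, Ext.comp_zero]

lemma zero_po (f : X ⟶ Y) : po (0 : Ext.{w} A X q) f = 0 := Ext.zero_comp _ _ _ _ _

omit [HasExt.{w} 𝒜] in
lemma se (i : X ⟶ Y) [Mono i] :
    (ShortComplex.mk i (cokernel.π i) (cokernel.condition i)).ShortExact where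
  exact := ShortComplex.exact_cokernel i

lemma po_ex (i : X ⟶ Y) [Mono i] (x : Ext.{w} A Y q) (h : po x (cokernel.π i) = 0) :
    ∃ y : Ext.{w} A X q, po y i = x :=
  Ext.covariant_sequence_exact₂ A (se i) x h

lemma po_inj_zero (i : X ⟶ Y) [Mono i] (x : Ext.{w} A X 0) (h : po x i = 0) : x = 0 := by
  obtain ⟨f, rfl⟩ := (Ext.mk₀_bijective A X).2 x
  unfold po at h
  rw [Ext.mk₀_comp_mk₀, ← Ext.mk₀_zero] at h
  have h1 := (Ext.mk₀_bijective A Y).1 h
  rw [zero_of_comp_mono i h1, Ext.mk₀_zero]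

lemma po_inj_succ (i : X ⟶ Y) [Mono i] (hz : ∀ y : Ext.{w} A (cokernel i) q, y = 0)
    (x : Ext.{w} A X (q + 1)) (h : po x i = 0) : x = 0 := by
  obtain ⟨y, rfl⟩ := Ext.covariant_sequence_exact₁ A (se i) x h (n₀ := q) rfl
  rw [hz y, Ext.zero_comp]

end ext

variable {S : Type} [TopologicalSpace S] (D : Dev 𝒜 S) {l : ℕ}

lemma lift {X Y : 𝒜} (p : X ⟶ Y) [Epi p] {w : S} (y : D.P w ⟶ Y) : ∃ x, x ≫ p = y :=
  have := D.proj w
  ⟨Projective.factorThru y p, Projective.factorThru_comp y p⟩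

lemma C_coim {X Y : 𝒜} (f : X ⟶ Y) (hX : D.C X) (hY : D.C Y) : D.C (Abelian.coimage f) :=
  D.C_coker _ (D.C_ker f hX hY) hX

lemma zero_of {X Y : 𝒜} (f : X ⟶ Y) (hX : D.C X) (hY : D.C Y)
    (h : ∀ w (x : D.P w ⟶ X), x ≫ f = 0) : f = 0 := by
  have hz : IsZero (Abelian.coimage f) := D.pt _ (C_coim D f hX hY) fun w y => by
    obtain ⟨x, rfl⟩ := lift D (Abelian.coimage.π f) y
    refine zero_of_comp_mono (Abelian.factorThruCoimage f) ?_
    rw [Category.assoc, Abelian.coimage.fac, h]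
  rw [← Abelian.coimage.fac f, hz.eq_of_tgt (Abelian.coimage.π f) 0, zero_comp]

lemma mono_of {X Y : 𝒜} (f : X ⟶ Y) (hX : D.C X) (hY : D.C Y)
    (h : ∀ w (x : D.P w ⟶ X), x ≫ f = 0 → x = 0) : Mono f := by
  have hz : IsZero (kernel f) := D.pt _ (D.C_ker f hX hY) fun w y =>
    zero_of_comp_mono (kernel.ι f) (h w _ (by rw [Category.assoc, kernel.condition, comp_zero]))
  exact Abelian.mono_of_kernel_ι_eq_zero f (hz.eq_of_src _ _)

lemma T_sub {X Y : 𝒜} (i : X ⟶ Y) [Mono i] (hX : D.C X) (hY : D.T l Y) : D.T l X :=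
  ⟨hX, fun w x => by
    obtain ⟨n, hn⟩ := hY.2 w (x ≫ i)
    exact ⟨n, zero_of_comp_mono i (by rw [Preadditive.zsmul_comp, hn])⟩⟩

lemma T_coker {X Y : 𝒜} (i : X ⟶ Y) (hX : D.C X) (hY : D.T l Y) : D.T l (cokernel i) :=
  ⟨D.C_coker i hX hY.1, fun w y => by
    obtain ⟨x, rfl⟩ := lift D (cokernel.π i) y
    obtain ⟨n, hn⟩ := hY.2 w x
    exact ⟨n, by rw [← Preadditive.zsmul_comp, hn, zero_comp]⟩⟩

/-- germs of the image of a section -/
lemma germ_coim {V : Opens S} {G : 𝒜} (s : D.fV.obj V ⟶ G) {w : S}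
    (y : D.P w ⟶ Abelian.coimage s) :
    y = 0 ∨ ∃ (h : w ∈ V) (n : ℤ), y = n • (D.e V w h ≫ Abelian.coimage.π s) := by
  obtain ⟨x, rfl⟩ := lift D (Abelian.coimage.π s) y
  rcases D.gen V w x with rfl | ⟨h, n, rfl⟩
  · exact Or.inl zero_comp
  · exact Or.inr ⟨h, n, Preadditive.zsmul_comp _ _ _⟩

lemma smul_fac {V : Opens S} {G : 𝒜} (s : D.fV.obj V ⟶ G) {w : S} (h : w ∈ V) (n : ℤ) :
    (n • (D.e V w h ≫ Abelian.coimage.π s)) ≫ Abelian.factorThruCoimage s =
      n • (D.e V w h ≫ s) := by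
  rw [Preadditive.zsmul_comp, Category.assoc, Abelian.coimage.fac]

lemma dvd_of {M : Type*} [AddCommGroup M] (hl : l.Prime) {a : M} (ha : a ≠ 0)
    (h1 : (l : ℤ) • a = 0) {n : ℤ} (hn : n • a = 0) : (l : ℤ) ∣ n := by
  by_contra hd
  obtain ⟨c, d, hcd⟩ := ((Nat.prime_iff_prime_int.1 hl).irreducible.coprime_iff_not_dvd).2 hd
  apply ha
  rw [← one_zsmul a, ← hcd, add_zsmul, mul_zsmul, mul_zsmul, h1, hn, zsmul_zero, zsmul_zero,
    add_zero]

lemma exists_tors {M : Type*} [AddCommGroup M] (n : ℕ) : ∀ a : M, a ≠ 0 → ((l : ℤ) ^ n) • a = 0 →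
    ∃ b : M, b ≠ 0 ∧ (l : ℤ) • b = 0 := by
  induction n with
  | zero => intro a ha h; rw [pow_zero, one_zsmul] at h; exact absurd h ha
  | succ n ih =>
    intro a ha h
    by_cases h1 : (l : ℤ) • a = 0
    · exact ⟨a, ha, h1⟩
    · exact ih _ h1 (by rw [← mul_zsmul, ← pow_succ, h])

/-- a section with a nonzero germ, all germs killed by `l` -/
lemma exists_sec {G : 𝒜} (hG : D.T l G) (h0 : ¬ IsZero G) :
    ∃ V ∈ D.B, ∃ s : D.fV.obj V ⟶ G, (∃ w h, D.e V w h ≫ s ≠ 0) ∧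
      ∀ w h, (l : ℤ) • (D.e V w h ≫ s) = 0 := by
  have : ∃ (w : S) (y : D.P w ⟶ G), y ≠ 0 := by
    by_contra hc
    push Not at hc
    exact h0 (D.pt G hG.1 hc)
  obtain ⟨w, y, hy⟩ := this
  obtain ⟨n, hn⟩ := hG.2 w y
  obtain ⟨b, hb, hlb⟩ := exists_tors n y hy hn
  obtain ⟨V₀, hV₀, hw, s₀, rfl⟩ := D.germ G hG.1 w b
  obtain ⟨V', hw', hV'⟩ := D.germ0 G hG.1 V₀ hV₀ ((l : ℤ) • s₀) w hw
    (by rw [Preadditive.comp_zsmul, hlb])
  obtain ⟨V, hV, hwV, hle⟩ := Opens.isBasis_iff_nbhd.1 D.basis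
    (show w ∈ V₀ ⊓ V' from ⟨hw, hw'⟩)
  refine ⟨V, hV, D.fV.map (homOfLE (hle.trans inf_le_left)) ≫ s₀, ⟨w, hwV, ?_⟩, fun w₁ h₁ => ?_⟩
  · rwa [← Category.assoc, D.e_map _ w hwV hw]
  · rw [← Category.assoc, D.e_map _ w₁ h₁ (hle h₁).1, ← Preadditive.comp_zsmul]
    exact hV' w₁ _ (hle h₁).2

variable [HasExt.{w} 𝒜] {A : 𝒜} {q : ℕ}

/-- the Zorn step -/
lemma zorn_step
    (hch : ∀ G, D.C G → ∀ c : Set (Subobject G), c.Nonempty → IsChain (· ≤ ·) c →
      (∀ K ∈ c, D.C (K : 𝒜)) → ∃ K : Subobject G, D.C (K : 𝒜) ∧ (∀ K' ∈ c, K' ≤ K) ∧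
        ∀ (q : ℕ) (x : Ext.{w} A (K : 𝒜) q), ∃ K' ∈ c, ∃ x' : Ext.{w} A (K' : 𝒜) q,
          x'.comp (Ext.mk₀ K'.arrow) (add_zero q) = x.comp (Ext.mk₀ K.arrow) (add_zero q))
    {G : 𝒜} (hG : D.T l G) (x : Ext.{w} A G q) (hx : x ≠ 0) :
    ∃ (Gb : 𝒜) (xb : Ext.{w} A Gb q), D.T l Gb ∧ xb ≠ 0 ∧
      ∀ (M : 𝒜) (m : M ⟶ Gb) [Mono m], D.C M → ¬ IsZero M → ∃ μ : Ext.{w} A M q, po μ m = xb := by
  have hbot : (⊥ : Subobject G) ∈
      {K : Subobject G | D.C (K : 𝒜) ∧ ¬ ∃ y : Ext.{w} A (K : 𝒜) q, po y K.arrow = x} := by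
    refine ⟨?_, ?_⟩
    · have h1 : IsZero (kernel (𝟙 G)) := isZero_kernel_of_mono _
      have h2 : IsZero ((⊥ : Subobject G) : 𝒜) := (isZero_zero 𝒜).of_iso Subobject.botCoeIsoZero
      exact D.C_iso (h1.iso h2) (D.C_ker _ hG.1 hG.1)
    · rintro ⟨y, hy⟩
      rw [Subobject.bot_arrow, po_zero] at hy
      exact hx hy.symm
  obtain ⟨K, -, hK⟩ := zorn_le_nonempty₀
    {K : Subobject G | D.C (K : 𝒜) ∧ ¬ ∃ y : Ext.{w} A (K : 𝒜) q, po y K.arrow = x} (by
      intro c hc hcc y hy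
      obtain ⟨K, hKC, hle, hK⟩ := hch G hG.1 c ⟨y, hy⟩ hcc fun K h => (hc h).1
      refine ⟨K, ⟨hKC, ?_⟩, hle⟩
      rintro ⟨z, hz⟩
      obtain ⟨K', hK', x', hx'⟩ := hK q z
      exact (hc hK').2 ⟨x', hx'.trans hz⟩) ⊥ hbot
  refine ⟨cokernel K.arrow, po x (cokernel.π _), T_coker D _ hK.1.1 hG,
    fun h => hK.1.2 (po_ex _ x h), fun M m _ hM hM0 => ?_⟩
  have hQ : D.C (cokernel m) := D.C_coker m hM (D.C_coker _ hK.1.1 hG.1)
  set g := cokernel.π K.arrow ≫ cokernel.π m with hg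
  have hK' : D.C (kernelSubobject g : 𝒜) :=
    D.C_iso (kernelSubobjectIso g).symm (D.C_ker g hG.1 hQ)
  have hle : K ≤ kernelSubobject g :=
    le_kernelSubobject _ _ (by rw [hg, ← Category.assoc, cokernel.condition, zero_comp])
  have hcome : ∃ y : Ext.{w} A (kernelSubobject g : 𝒜) q, po y (kernelSubobject g).arrow = x := by
    by_contra hc
    have hge : kernelSubobject g ≤ K := hK.2 ⟨hK', hc⟩ hle
    refine hM0 (D.pt M hM fun w y => zero_of_comp_mono m ?_)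
    obtain ⟨z, hz⟩ := lift D (cokernel.π K.arrow) (y ≫ m)
    have h1 : z ≫ g = 0 := by
      rw [hg, ← Category.assoc, hz, Category.assoc, cokernel.condition, comp_zero]
    rw [← hz, ← factorThruKernelSubobject_comp_arrow g z h1, ← Subobject.ofLE_arrow hge]
    simp only [Category.assoc, cokernel.condition, comp_zero]
  obtain ⟨y, rfl⟩ := hcome
  have h2 : ((kernelSubobject g).arrow ≫ cokernel.π K.arrow) ≫ cokernel.π m = 0 := by
    rw [Category.assoc, ← hg, kernelSubobject_arrow_comp]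
  refine ⟨po y (Abelian.monoLift m _ h2), ?_⟩
  rw [po_po, po_po, Abelian.monoLift_comp]

lemma step (hl : l.Prime)
    (hch : ∀ G, D.C G → ∀ c : Set (Subobject G), c.Nonempty → IsChain (· ≤ ·) c →
      (∀ K ∈ c, D.C (K : 𝒜)) → ∃ K : Subobject G, D.C (K : 𝒜) ∧ (∀ K' ∈ c, K' ≤ K) ∧
        ∀ (q : ℕ) (x : Ext.{w} A (K : 𝒜) q), ∃ K' ∈ c, ∃ x' : Ext.{w} A (K' : 𝒜) q,
          x'.comp (Ext.mk₀ K'.arrow) (add_zero q) = x.comp (Ext.mk₀ K.arrow) (add_zero q))
    (hirr : ∀ Z : Set S, IsIrreducible Z → IsClosed Z → ∃ L : 𝒜, D.T l L ∧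
      (∀ (q : ℕ) (x : Ext.{w} A L q), x = 0) ∧
      ∀ V ∈ D.B, ∃ u : D.fV.obj V ⟶ L, ∀ (w : S) (h : w ∈ V), (w ∉ Z → D.e V w h ≫ u = 0) ∧
        (w ∈ Z → ∀ n : ℤ, n • (D.e V w h ≫ u) = 0 ↔ (l : ℤ) ∣ n))
    (hinj : ∀ (M N : 𝒜) (i : M ⟶ N) [Mono i], D.T l M → D.T l N → ∀ x : Ext.{w} A M q,
      po x i = 0 → x = 0)
    (G : 𝒜) (hG : D.T l G) (x : Ext.{w} A G q) : x = 0 := by
  by_contra hx
  obtain ⟨Gb, xb, hGb, hxb, hcome⟩ := zorn_step D hch hG x hx
  have h0 : ¬ IsZero Gb := fun h => hxb (by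
    have e : xb = po xb (𝟙 Gb) := (Ext.comp_mk₀_id xb).symm
    rw [e, h.eq_of_src (𝟙 Gb) 0, po_zero])
  obtain ⟨V, hV, s, ⟨w₀, hw₀, hs₀⟩, hls⟩ := exists_sec D hGb h0
  -- the class comes from the image of every section with a nonzero germ
  have himg : ∀ V' ∈ D.B, ∀ t : D.fV.obj V' ⟶ Gb, ∀ w h, D.e V' w h ≫ t ≠ 0 →
      ∃ μ : Ext.{w} A (Abelian.coimage t) q, po μ (Abelian.factorThruCoimage t) = xb := by
    intro V' hV' t w h ht
    refine hcome _ _ (C_coim D t (D.C_fV V' hV') hGb.1) fun hz => ht ?_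
    rw [← Abelian.coimage.fac t, hz.eq_of_tgt (Abelian.coimage.π t) 0, zero_comp, comp_zero]
  have hT : ∀ V' ∈ D.B, ∀ t : D.fV.obj V' ⟶ Gb, D.T l (Abelian.coimage t) := fun V' hV' t =>
    T_sub D (Abelian.factorThruCoimage t) (C_coim D t (D.C_fV V' hV') hGb.1) hGb
  set Y : Set S := {w | ∃ h : w ∈ V, D.e V w h ≫ s ≠ 0} with hY
  by_cases hpre : IsPreirreducible Y
  · obtain ⟨L, hL, hL0, hu⟩ := hirr (closure Y) (IsIrreducible.closure ⟨⟨w₀, hw₀, hs₀⟩, hpre⟩)
      isClosed_closure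
    obtain ⟨u, hu⟩ := hu V hV
    have hZY : ∀ (w : S) (h : w ∈ V), w ∈ closure Y → D.e V w h ≫ s ≠ 0 := by
      intro w h hw hz
      obtain ⟨V', hw', hV'⟩ := D.germ0 Gb hGb.1 V hV s w h hz
      obtain ⟨w', h1, h2, h3⟩ := mem_closure_iff.1 hw V' V'.isOpen hw'
      exact h3 (hV' w' h2 h1)
    have hker : kernel.ι s ≫ u = 0 := by
      refine zero_of D _ (D.C_ker s (D.C_fV V hV) hGb.1) hL.1 fun w y => ?_
      have hy : (y ≫ kernel.ι s) ≫ s = 0 := by rw [Category.assoc, kernel.condition, comp_zero]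
      rw [← Category.assoc]
      rcases D.gen V w (y ≫ kernel.ι s) with h | ⟨h, n, hn⟩
      · rw [h, zero_comp]
      · rw [hn, Preadditive.zsmul_comp] at hy ⊢
        by_cases hw : w ∈ closure Y
        · exact ((hu w h).2 hw n).2 (dvd_of hl (hZY w h hw) (hls w h) hy)
        · rw [(hu w h).1 hw, zsmul_zero]
    have hmono : Mono (cokernel.desc (kernel.ι s) u hker : Abelian.coimage s ⟶ L) := by
      refine mono_of D _ (hT V hV s).1 hL.1 fun w y hy => ?_
      rcases germ_coim D s y with h | ⟨h, n, rfl⟩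
      · exact h
      refine zero_of_comp_mono (Abelian.factorThruCoimage s) ?_
      rw [smul_fac]
      rw [Preadditive.zsmul_comp, Category.assoc, cokernel.π_desc] at hy
      by_cases hw : w ∈ closure Y
      · obtain ⟨c, rfl⟩ := ((hu w h).2 hw n).1 hy
        rw [mul_comm, mul_zsmul, hls, zsmul_zero]
      · have hz : D.e V w h ≫ s = 0 := by
          by_contra hc
          exact hw (subset_closure ⟨h, hc⟩)
        rw [hz, zsmul_zero]
    obtain ⟨μ, hμ⟩ := himg V hV s w₀ hw₀ hs₀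
    apply hxb
    rw [← hμ, hinj _ _ (cokernel.desc (kernel.ι s) u hker) (hT V hV s) hL μ (hL0 q _), zero_po]
  · unfold IsPreirreducible at hpre
    push Not at hpre
    obtain ⟨U₁, U₂, hU₁, hU₂, ⟨w₁, ⟨hw₁, hs₁⟩, hw₁'⟩, ⟨w₂, ⟨hw₂, hs₂⟩, hw₂'⟩, hemp⟩ := hpre
    obtain ⟨V₁, hV₁, hwV₁, hle₁⟩ := Opens.isBasis_iff_nbhd.1 D.basis
      (show w₁ ∈ V ⊓ ⟨U₁, hU₁⟩ from ⟨hw₁, hw₁'⟩)
    obtain ⟨V₂, hV₂, hwV₂, hle₂⟩ := Opens.isBasis_iff_nbhd.1 D.basis
      (show w₂ ∈ V ⊓ ⟨U₂, hU₂⟩ from ⟨hw₂, hw₂'⟩)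
    set s₁ := D.fV.map (homOfLE (hle₁.trans inf_le_left)) ≫ s with hs₁d
    set s₂ := D.fV.map (homOfLE (hle₂.trans inf_le_left)) ≫ s with hs₂d
    have e₁ : ∀ w (h : w ∈ V₁), D.e V₁ w h ≫ s₁ = D.e V w (hle₁ h).1 ≫ s := fun w h => by
      rw [hs₁d, ← Category.assoc, D.e_map _ w h (hle₁ h).1]
    have e₂ : ∀ w (h : w ∈ V₂), D.e V₂ w h ≫ s₂ = D.e V w (hle₂ h).1 ≫ s := fun w h => by
      rw [hs₂d, ← Category.assoc, D.e_map _ w h (hle₂ h).1]
    obtain ⟨μ₁, hμ₁⟩ := himg V₁ hV₁ s₁ w₁ hwV₁ (by rw [e₁]; exact hs₁)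
    obtain ⟨μ₂, hμ₂⟩ := himg V₂ hV₂ s₂ w₂ hwV₂ (by rw [e₂]; exact hs₂)
    have hQ : D.T l (cokernel (Abelian.factorThruCoimage s₂)) := T_coker D _ (hT V₂ hV₂ s₂).1 hGb
    have hmono : Mono (Abelian.factorThruCoimage s₁ ≫ cokernel.π (Abelian.factorThruCoimage s₂)) := by
      refine mono_of D _ (hT V₁ hV₁ s₁).1 hQ.1 fun w y hy => ?_
      rcases germ_coim D s₁ y with h | ⟨h, n, hn⟩
      · exact h
      refine zero_of_comp_mono (Abelian.factorThruCoimage s₁) ?_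
      by_cases hz : D.e V w (hle₁ h).1 ≫ s = 0
      · rw [hn, smul_fac, e₁, hz, zsmul_zero]
      rw [← Category.assoc] at hy
      rw [← Abelian.monoLift_comp _ _ hy]
      rcases germ_coim D s₂ (Abelian.monoLift _ _ hy) with h' | ⟨h', -, -⟩
      · rw [h', zero_comp]
      · have hmem : w ∈ Y ∩ (U₁ ∩ U₂) := ⟨⟨_, hz⟩, (hle₁ h).2, (hle₂ h').2⟩
        rw [hemp] at hmem
        exact hmem.elim
    apply hxb
    rw [← hμ₁, hinj _ _ (Abelian.factorThruCoimage s₁ ≫ cokernel.π (Abelian.factorThruCoimage s₂))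
      (hT V₁ hV₁ s₁) hQ μ₁ (by rw [← po_po, hμ₁, ← hμ₂, po_po, cokernel.condition, po_zero]),
      zero_po]

end DEVZ

theorem devz : DEVZ_s.{w, v, u} := by
  intro 𝒜 _ _ _ S _ D l hl A hch hirr q
  induction q with
  | zero =>
    exact DEVZ.step D hl hch hirr fun M N i _ _ _ x hx => DEVZ.po_inj_zero i x hx
  | succ q ih =>
    exact DEVZ.step D hl hch hirr fun M N i _ hM hN x hx =>
      DEVZ.po_inj_succ i (ih _ (DEVZ.T_coker D i hM.1 hN)) x hx

end Pool.Agent.MP_855f4c_ag.E.PB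

end

section

set_option autoImplicit false

open PrimeSpectrum

namespace Pool.Agent.MP_855f4c_ag.E.PB

namespace MU

lemma mem_zl {R : Type} [CommRing R] (I : Ideal R) (y : PrimeSpectrum (R ⧸ I)) :
    comap (Ideal.Quotient.mk I) y ∈ zeroLocus (I : Set R) := by
  intro a ha
  change Ideal.Quotient.mk I a ∈ y.asIdeal
  rw [Ideal.Quotient.eq_zero_iff_mem.2 ha]
  exact zero_mem _

lemma lift_pt {R : Type} [CommRing R] (I : Ideal R) {x : PrimeSpectrum R}
    (hx : x ∈ zeroLocus (I : Set R)) : ∃ y, comap (Ideal.Quotient.mk I) y = x := by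
  have h := range_comap_of_surjective (R ⧸ I) (Ideal.Quotient.mk I) Ideal.Quotient.mk_surjective
  rw [Ideal.mk_ker] at h
  have : x ∈ Set.range (comap (Ideal.Quotient.mk I)) := h ▸ hx
  exact this

lemma lc_quot {R M : Type} [CommRing R] (I : Ideal R) {c : PrimeSpectrum R → M}
    (hc : LC (zeroLocus (I : Set R)) c) :
    IsLocallyConstant fun y : PrimeSpectrum (R ⧸ I) => c (comap (Ideal.Quotient.mk I) y) := by
  have h : Continuous fun y : PrimeSpectrum (R ⧸ I) =>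
      (⟨comap (Ideal.Quotient.mk I) y, mem_zl I y⟩ : zeroLocus (I : Set R)) :=
    (continuous_comap _).subtype_mk _
  have h2 : IsLocallyConstant ((zeroLocus (I : Set R)).domRestrict c) := hc
  exact h2.comp_continuous h

lemma idem {S M : Type} [CommRing S] {c : PrimeSpectrum S → M} (hc : IsLocallyConstant c) (a : M) :
    ∃ e : S, IsIdempotentElem e ∧ ∀ y, c y = a ↔ e ∉ y.asIdeal := by
  obtain ⟨e, he, h⟩ := exists_idempotent_basicOpen_eq_of_isClopen (hc.isClopen_fiber a)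
  refine ⟨e, he, fun y => ?_⟩
  have : y ∈ {x | c x = a} ↔ y ∈ (basicOpen e : Set (PrimeSpectrum S)) := by rw [h]
  simpa using this

lemma pow_one {R : Type} [CommRing R] {l : ℕ} {ζ : R} (h : ∑ i ∈ Finset.range l, ζ ^ i = 0) :
    ζ ^ l = 1 := by
  have := geom_sum_mul ζ l
  rw [h, zero_mul] at this
  exact (sub_eq_zero.1 this.symm)

lemma prim {R : Type} [CommRing R] {l : ℕ} [hl : Fact l.Prime] (hu : IsUnit (l : R)) {ζ : R}
    (h : ∑ i ∈ Finset.range l, ζ ^ i = 0) (x : PrimeSpectrum R) :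
    IsPrimitiveRoot (Ideal.Quotient.mk x.asIdeal ζ) l := by
  have h1 : (Ideal.Quotient.mk x.asIdeal ζ) ^ l = 1 := by rw [← map_pow, pow_one h, map_one]
  have h2 : Ideal.Quotient.mk x.asIdeal ζ ≠ 1 := by
    intro h2
    have h3 := congrArg (Ideal.Quotient.mk x.asIdeal) h
    simp only [map_sum, map_pow, h2, one_pow, Finset.sum_const, Finset.card_range, nsmul_eq_mul,
      mul_one, map_zero] at h3
    have h4 := hu.map (Ideal.Quotient.mk x.asIdeal)
    rw [map_natCast, h3] at h4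
    exact not_isUnit_zero h4
  have h3 := orderOf_eq_prime h1 h2
  have h4 := IsPrimitiveRoot.orderOf (Ideal.Quotient.mk x.asIdeal ζ)
  rwa [h3] at h4

lemma inj {R : Type} [CommRing R] {l : ℕ} [hl : Fact l.Prime] (hu : IsUnit (l : R)) {ζ : R}
    (h : ∑ i ∈ Finset.range l, ζ ^ i = 0) (x : PrimeSpectrum R) {m n : ℕ}
    (hx : ζ ^ m - ζ ^ n ∈ x.asIdeal) : (m : ZMod l) = n := by
  have hp := prim hu h x
  have h1 : (Ideal.Quotient.mk x.asIdeal ζ) ^ m = (Ideal.Quotient.mk x.asIdeal ζ) ^ n := by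
    rw [← map_pow, ← map_pow]; exact Ideal.Quotient.eq.2 hx
  have h2 : IsOfFinOrder (Ideal.Quotient.mk x.asIdeal ζ) :=
    isOfFinOrder_iff_pow_eq_one.2 ⟨l, hl.out.pos, hp.pow_eq_one⟩
  have h3 := h2.pow_eq_pow_iff_modEq.1 h1
  rw [← hp.eq_orderOf] at h3
  exact (ZMod.natCast_eq_natCast_iff m n l).2 h3

lemma root {S : Type} [CommRing S] {l : ℕ} [NeZero l] {ζ : S} (hζ : ζ ^ l = 1)
    {c : PrimeSpectrum S → ZMod l} (hc : IsLocallyConstant c) :
    ∃ u : S, u ^ l = 1 ∧ ∀ y, u - ζ ^ (c y).val ∈ y.asIdeal := by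
  choose e he hy using idem hc
  have hin : ∀ y a, a ≠ c y → e a ∈ y.asIdeal := fun y a h => by
    by_contra h'
    exact h ((hy a y).2 h').symm
  have hone : ∀ y, e (c y) - 1 ∈ y.asIdeal := fun y => by
    have h0 : e (c y) * (e (c y) - 1) ∈ y.asIdeal := by
      rw [mul_sub, mul_one, (he _).eq, sub_self]; exact zero_mem _
    exact (y.isPrime.mem_or_mem h0).resolve_left ((hy _ y).1 rfl)
  have horth : ∀ a b, a ≠ b → e a * e b = 0 := fun a b hab => by
    have h1 : IsNilpotent (e a * e b) := by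
      rw [nilpotent_iff_mem_prime]
      intro J hJ
      by_cases h : a = c ⟨J, hJ⟩
      · exact J.mul_mem_left _ (hin ⟨J, hJ⟩ b fun h' => hab (h.trans h'.symm))
      · exact J.mul_mem_right _ (hin ⟨J, hJ⟩ a h)
    obtain ⟨n, hn⟩ := h1
    have h2 := ((he a).mul (he b)).pow_succ_eq n
    rw [pow_succ, hn, zero_mul] at h2
    exact h2.symm
  have key : ∀ (f : ZMod l → S) (y : PrimeSpectrum S),
      ∑ a, f a * e a - f (c y) ∈ y.asIdeal := fun f y => by
    rw [← Finset.add_sum_erase _ _ (Finset.mem_univ (c y))]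
    have : f (c y) * e (c y) + ∑ a ∈ Finset.univ.erase (c y), f a * e a - f (c y)
        = f (c y) * (e (c y) - 1) + ∑ a ∈ Finset.univ.erase (c y), f a * e a := by ring
    rw [this]
    exact add_mem (Ideal.mul_mem_left _ _ (hone y)) (Ideal.sum_mem _ fun a ha =>
      Ideal.mul_mem_left _ _ (hin y a (Finset.ne_of_mem_erase ha)))
  refine ⟨∑ a, ζ ^ a.val * e a, ?_, key fun a => ζ ^ a.val⟩
  set u := ∑ a : ZMod l, ζ ^ a.val * e a with hu
  have h1 : ∀ b, e b * u = ζ ^ b.val * e b := fun b => by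
    rw [hu, Finset.mul_sum, Finset.sum_eq_single b]
    · rw [mul_left_comm, (he b).eq]
    · intro a _ hab
      rw [mul_left_comm, horth b a hab.symm, mul_zero]
    · intro h; exact absurd (Finset.mem_univ b) h
  have h2 : ∀ b n, e b * u ^ n = (ζ ^ b.val) ^ n * e b := fun b n => by
    induction n with
    | zero => simp
    | succ n ih => rw [pow_succ', ← mul_assoc, h1, mul_assoc, ih]; ring
  have h3 : (∑ a, 1 * e a) * (u ^ l - 1) = 0 := by
    rw [Finset.sum_mul]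
    refine Finset.sum_eq_zero fun b _ => ?_
    rw [one_mul, mul_sub, h2, ← pow_mul, mul_comm b.val, pow_mul, hζ, one_pow, one_mul, mul_one,
      sub_self]
  have h4 : IsUnit (∑ a, 1 * e a) := by
    by_contra h
    obtain ⟨J, hJ, hm⟩ := exists_max_ideal_of_mem_nonunits (mem_nonunits_iff.2 h)
    have h5 := key (fun _ => 1) ⟨J, hJ.isPrime⟩
    have h6 : (1 : S) ∈ J := by simpa using J.sub_mem hm h5
    exact hJ.ne_top ((Ideal.eq_top_iff_one J).2 h6)
  exact sub_eq_zero.1 ((h4.mul_right_eq_zero).1 h3)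

end MU

theorem mu : MU_s := by
  intro R _ I
  refine ⟨fun c hc => ?_, fun l hl hu ζ hζ => ⟨fun c hc => ?_, fun u hx => ?_, fun x a b c h => ?_⟩⟩
  · obtain ⟨e', he, hy⟩ := MU.idem (MU.lc_quot I hc) true
    obtain ⟨e, rfl⟩ := Ideal.Quotient.mk_surjective e'
    refine ⟨e, ?_, fun x hx => ?_⟩
    · rw [← Ideal.Quotient.eq_zero_iff_mem, map_sub, map_pow, sq, he.eq, sub_self]
    · obtain ⟨y, rfl⟩ := MU.lift_pt I hx
      exact hy y
  · have : NeZero l := ⟨hl.out.ne_zero⟩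
    have h1 : (Ideal.Quotient.mk I ζ) ^ l = 1 := by rw [← map_pow, MU.pow_one hζ, map_one]
    obtain ⟨u', hu', hy⟩ := MU.root h1 (MU.lc_quot I hc)
    obtain ⟨u, rfl⟩ := Ideal.Quotient.mk_surjective u'
    refine ⟨u, ?_, fun x hx => ?_⟩
    · rw [← Ideal.Quotient.eq_zero_iff_mem, map_sub, map_pow, hu', map_one, sub_self]
    · obtain ⟨y, rfl⟩ := MU.lift_pt I hx
      have := hy y
      rw [← map_pow, ← map_sub] at this
      exact this
  · have : NeZero l := ⟨hl.out.ne_zero⟩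
    have hex : ∀ x : PrimeSpectrum R, ∃ a : ZMod l,
        x ∈ zeroLocus (I : Set R) → u - ζ ^ a.val ∈ x.asIdeal := fun x => by
      by_cases h : x ∈ zeroLocus (I : Set R)
      · have h1 : (Ideal.Quotient.mk x.asIdeal u) ^ l = 1 := by
          rw [← map_pow, ← map_one (Ideal.Quotient.mk x.asIdeal)]
          exact Ideal.Quotient.eq.2 (hx x h)
        obtain ⟨i, hi, h2⟩ := (MU.prim hu hζ x).eq_pow_of_pow_eq_one h1
        refine ⟨(i : ZMod l), fun _ => ?_⟩
        rw [ZMod.val_cast_of_lt hi]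
        rw [← map_pow] at h2
        exact Ideal.Quotient.eq.1 h2.symm
      · exact ⟨0, fun h' => absurd h' h⟩
    choose c hc using hex
    refine ⟨c, ?_, hc⟩
    have hcl : ∀ a : ZMod l,
        IsClosed {x : zeroLocus (I : Set R) | (zeroLocus (I : Set R)).domRestrict c x = a} := by
      intro a
      have : {x : zeroLocus (I : Set R) | (zeroLocus (I : Set R)).domRestrict c x = a}
          = Subtype.val ⁻¹' zeroLocus {u - ζ ^ a.val} := by
        ext x
        simp only [Set.mem_ofPred_eq, Set.mem_preimage, mem_zeroLocus, Set.singleton_subset_iff,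
          SetLike.mem_coe, Set.domRestrict]
        refine ⟨fun h => h ▸ hc x x.2, fun h => ?_⟩
        have h1 : ζ ^ (c x).val - ζ ^ a.val ∈ x.1.asIdeal := by
          have := x.1.asIdeal.sub_mem h (hc x x.2)
          rwa [sub_sub_sub_cancel_left] at this
        simpa using MU.inj hu hζ x.1 h1
      rw [this]
      exact (isClosed_zeroLocus _).preimage continuous_subtype_val
    refine IsLocallyConstant.iff_isOpen_fiber.2 fun a => ?_
    have : (zeroLocus (I : Set R)).domRestrict c ⁻¹' {a} = (⋃ b ∈ ({a}ᶜ : Set (ZMod l)),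
        {x : zeroLocus (I : Set R) | (zeroLocus (I : Set R)).domRestrict c x = b})ᶜ := by
      ext x
      simp only [Set.mem_preimage, Set.mem_singleton_iff, Set.mem_compl_iff, Set.mem_iUnion,
        Set.mem_ofPred_eq, not_exists]
      exact ⟨fun h b hb h' => hb (h' ▸ h), fun h => by_contra fun h' => h _ h' rfl⟩
    rw [this]
    exact (Set.Finite.isClosed_biUnion (Set.toFinite _) fun b _ => hcl b).isOpen_compl
  · have : NeZero l := ⟨hl.out.ne_zero⟩
    rw [← pow_add] at h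
    simpa using MU.inj hu hζ x h

end Pool.Agent.MP_855f4c_ag.E.PB

end

section

set_option autoImplicit false

namespace Pool.Agent.MP_855f4c_ag.E.PB

open E3 PrimeSpectrum Polynomial

namespace SPL

lemma pull {Y Y' M : Type*} [TopologicalSpace Y] [TopologicalSpace Y'] {S : Set Y} {c : Y → M}
    (h : LC S c) {ι : Y' → Y} (hι : Continuous ι) (hS : ∀ y, ι y ∈ S) :
    IsLocallyConstant (c ∘ ι) :=
  IsLocallyConstant.comp_continuous (f := fun y => (⟨ι y, hS y⟩ : S)) (g := S.domRestrict c) h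
    (hι.subtype_mk hS)

lemma push {Y Y' M : Type*} [TopologicalSpace Y] [TopologicalSpace Y'] [Zero M] {S : Set Y}
    {ι : Y' → Y} (hι : Topology.IsEmbedding ι) (hS : Set.range ι = S) {c : Y' → M}
    (h : IsLocallyConstant c) : ∃ d : Y → M, LC S d ∧ ∀ y, d (ι y) = c y := by
  subst hS
  refine ⟨Function.extend ι c 0, ?_, hι.injective.extend_apply _ _⟩
  have : (Set.range ι).domRestrict (Function.extend ι c 0) = c ∘ hι.toHomeomorph.symm := by
    ext y
    obtain ⟨y, rfl⟩ := hι.toHomeomorph.surjective y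
    rw [Function.comp_apply, Homeomorph.symm_apply_apply]
    exact hι.injective.extend_apply _ _ _
  rw [LC, this]
  exact h.comp_continuous hι.toHomeomorph.symm.continuous

lemma core (h : MU_s) {R : Type} [CommRing R] (l : ℕ) [Fact l.Prime] (hl : IsUnit (l : R))
    (hroot : ∀ a : R, ∃ r, r ^ l = a) (ζ : R) (hζ : ∑ i ∈ Finset.range l, ζ ^ i = 0) {f g : R}
    (hfg : IsCoprime f g) (Rf Rg T : Type) [CommRing Rf] [CommRing Rg] [CommRing T] [Algebra R Rf]
    [Algebra R Rg] [Algebra R T] [Algebra Rf T] [Algebra Rg T] [IsScalarTower R Rf T]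
    [IsScalarTower R Rg T] [IsLocalization.Away f Rf] [IsLocalization.Away g Rg]
    [IsLocalization.Away (f * g) T] (c : PrimeSpectrum T → ZMod l) (hc : IsLocallyConstant c) :
    ∃ (a : PrimeSpectrum Rf → ZMod l) (b : PrimeSpectrum Rg → ZMod l), IsLocallyConstant a ∧
      IsLocallyConstant b ∧
      ∀ x, c x = a (comap (algebraMap Rf T) x) - b (comap (algebraMap Rg T) x) := by
  have hu : ∀ (S : Type) [CommRing S] [Algebra R S], IsUnit (l : S) := fun S _ _ => by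
    simpa using hl.map (algebraMap R S)
  have hz : ∀ (S : Type) [CommRing S] [Algebra R S],
      ∑ i ∈ Finset.range l, algebraMap R S ζ ^ i = 0 := fun S _ _ => by
    simpa using congrArg (algebraMap R S) hζ
  have hb : ∀ (S : Type) [CommRing S] (x : PrimeSpectrum S),
      x ∈ zeroLocus ((⊥ : Ideal S) : Set S) := fun S _ x => by simp
  obtain ⟨m1, -, m3⟩ := (h T ⊥).2 l (hu T) _ (hz T)
  obtain ⟨u, u1, u2⟩ := m1 c (hc.comp_continuous continuous_subtype_val)
  obtain ⟨v, w, v1, w1, e⟩ := AicG.split_mu f g Rf Rg T l (Fact.out : l.Prime).pos hroot hfg u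
    (sub_eq_zero.1 u1)
  obtain ⟨a, a1, a2⟩ := ((h Rf ⊥).2 l (hu Rf) _ (hz Rf)).2.1 v fun x _ => by
    rw [v1, sub_self]; exact zero_mem _
  obtain ⟨b, b1, b2⟩ := ((h Rg ⊥).2 l (hu Rg) _ (hz Rg)).2.1 w fun x _ => by
    rw [w1, sub_self]; exact zero_mem _
  refine ⟨fun x => -a x, fun x => -b x, (pull a1 continuous_id (hb _)).neg,
    (pull b1 continuous_id (hb _)).neg, fun x => ?_⟩
  have h1 : algebraMap Rf T _ ∈ x.asIdeal := a2 (comap (algebraMap Rf T) x) (hb _ _)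
  have h2 : algebraMap Rg T _ ∈ x.asIdeal := b2 (comap (algebraMap Rg T) x) (hb _ _)
  rw [map_sub, map_pow, ← IsScalarTower.algebraMap_apply] at h1 h2
  have h3 := m3 x (b (comap (algebraMap Rg T) x)) (c x) (a (comap (algebraMap Rf T) x)) (by
    have := x.asIdeal.sub_mem (x.asIdeal.add_mem (x.asIdeal.mul_mem_left u h1)
      (x.asIdeal.mul_mem_right (algebraMap R T ζ ^ (a (comap (algebraMap Rf T) x)).val)
        (u2 x (hb _ _)))) h2
    rw [e] at this
    convert this using 1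
    ring)
  simp only [h3]
  ring

lemma emb {R : Type} [CommRing R] (I : Ideal R) (r : R) (S : Type) [CommRing S] [Algebra (R ⧸ I) S]
    [IsLocalization.Away (Ideal.Quotient.mk I r) S] :
    Topology.IsEmbedding (comap (Ideal.Quotient.mk I) ∘ comap (algebraMap (R ⧸ I) S)) ∧
      Set.range (comap (Ideal.Quotient.mk I) ∘ comap (algebraMap (R ⧸ I) S)) =
        zeroLocus (I : Set R) ∩ basicOpen r := by
  have h1 := isClosedEmbedding_comap_of_surjective _ _ (Ideal.Quotient.mk_surjective (I := I))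
  refine ⟨h1.isEmbedding.comp (localization_away_isOpenEmbedding S
    (Ideal.Quotient.mk I r)).isEmbedding, ?_⟩
  rw [Set.range_comp, localization_away_comap_range S (Ideal.Quotient.mk I r), ← comap_basicOpen]
  change _ '' (comap (Ideal.Quotient.mk I) ⁻¹' (basicOpen r : Set (PrimeSpectrum R))) = _
  rw [Set.image_preimage_eq_range_inter, range_comap_of_surjective _ _ Ideal.Quotient.mk_surjective,
    Ideal.mk_ker]

end SPL

open SPL in
theorem spl (h : MU_s) : SPL_s := by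
  intro R _ hR l _ hl Z hZ f g hfg c hc
  obtain ⟨I, rfl⟩ := (isClosed_iff_zeroLocus_ideal Z).1 hZ
  have hl2 : 2 ≤ l := (Fact.out : l.Prime).two_le
  rcases subsingleton_or_nontrivial R with _ | _
  · exact ⟨c, c, IsLocallyConstant.of_discrete _, IsLocallyConstant.of_discrete _,
      fun y _ => isEmptyElim y⟩
  obtain ⟨ζ, hζ⟩ : ∃ ζ : R, ∑ i ∈ Finset.range l, ζ ^ i = 0 := by
    obtain ⟨ζ, hζ⟩ := hR (∑ i ∈ Finset.range l, X ^ i) (monic_geom_sum_X (by omega)) (by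
      have := (monic_geom_sum_X (R := R) (n := l) (by omega)).natDegree_mul
        (monic_X_sub_C (1 : R))
      rw [C_1, geom_sum_mul, ← C_1, natDegree_X_pow_sub_C, natDegree_X_sub_C] at this
      omega)
    exact ⟨ζ, by simpa [eval_finsetSum] using hζ⟩
  have hroot : ∀ a : R ⧸ I, ∃ r, r ^ l = a := fun a => by
    obtain ⟨a, rfl⟩ := Ideal.Quotient.mk_surjective a
    obtain ⟨r, hr⟩ := hR (X ^ l - C a) (monic_X_pow_sub_C a (by omega)) (by
      rw [natDegree_X_pow_sub_C]; omega)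
    refine ⟨Ideal.Quotient.mk I r, ?_⟩
    rw [← map_pow]
    congr 1
    simpa [sub_eq_zero] using hr
  let π := Ideal.Quotient.mk I
  let Rf := Localization.Away (π f)
  let Rg := Localization.Away (π g)
  let T := Localization.Away (π f * π g)
  have hT : IsUnit (algebraMap (R ⧸ I) T (π f) * algebraMap (R ⧸ I) T (π g)) :=
    map_mul (algebraMap (R ⧸ I) T) _ _ ▸ IsLocalization.Away.algebraMap_isUnit (π f * π g)
  let _ : Algebra Rf T := (IsLocalization.Away.lift (π f) (isUnit_of_mul_isUnit_left hT)).toAlgebra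
  let _ : Algebra Rg T := (IsLocalization.Away.lift (π g) (isUnit_of_mul_isUnit_right hT)).toAlgebra
  have : IsScalarTower (R ⧸ I) Rf T :=
    IsScalarTower.of_algebraMap_eq fun x => (IsLocalization.Away.lift_eq _ _ x).symm
  have : IsScalarTower (R ⧸ I) Rg T :=
    IsScalarTower.of_algebraMap_eq fun x => (IsLocalization.Away.lift_eq _ _ x).symm
  have : IsLocalization.Away (π (f * g)) T := by rw [map_mul]; infer_instance
  obtain ⟨e1, r1⟩ := emb I f Rf
  obtain ⟨e2, r2⟩ := emb I g Rg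
  obtain ⟨e3, r3⟩ := emb I (f * g) T
  have r4 : zeroLocus (I : Set R) ∩ basicOpen f ∩ basicOpen g =
      zeroLocus (I : Set R) ∩ basicOpen (f * g) := by
    rw [basicOpen_mul, Set.inter_assoc]; rfl
  rw [r4, ← r3] at hc
  obtain ⟨a, b, a1, b1, e⟩ := core h l (by simpa using hl.map π) hroot (π ζ)
    (by simpa using congrArg π hζ) (hfg.map π) Rf Rg T _
    (pull hc e3.continuous Set.mem_range_self)
  obtain ⟨c₁, p1, p2⟩ := push e1 r1 a1
  obtain ⟨c₂, q1, q2⟩ := push e2 r2 b1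
  refine ⟨c₁, c₂, p1, q1, fun y hy => ?_⟩
  rw [r4, ← r3] at hy
  obtain ⟨x, rfl⟩ := hy
  have := e x
  rw [← p2, ← q2] at this
  simp only [Function.comp_apply, ← comap_comp_apply, ← IsScalarTower.algebraMap_eq] at this ⊢
  exact this

end Pool.Agent.MP_855f4c_ag.E.PB

end

section

set_option autoImplicit false

open IsLocalRing Polynomial

namespace Pool.Agent.MP_855f4c_ag.E.PB

open E3 AicP1

namespace KEYA

variable {A B Ω : Type} [CommRing A] [CommRing B] [Field Ω] [Algebra A Ω]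

lemma range_of_int (hB : Aic B) (ψ : B →+* Ω) {S : Type} [CommRing S] [Algebra S Ω]
    (hS : ∀ y : S, algebraMap S Ω y ∈ ψ.range) {x : Ω} (hx : IsIntegral S x) : x ∈ ψ.range := by
  obtain ⟨p, hp, hpx⟩ := hx
  obtain ⟨q, hq, -, hq'⟩ := lifts_and_natDegree_eq_and_monic (f := ψ) (p := p.map (algebraMap S Ω))
    ((lifts_iff_coeff_lifts _).2 fun i => by rw [coeff_map]; exact hS _) (hp.map _)
  let _ := ψ.toAlgebra
  obtain ⟨a, -, ha⟩ := hB.root_lift x q hq' (by
    rw [aeval_def, eval₂_eq_eval_map]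
    exact (congrArg (eval x) hq).trans ((eval₂_eq_eval_map _).symm.trans hpx))
  exact ⟨a, ha⟩

lemma icl_le_range [Algebra A B] (hB : Aic B) (ψ : B →ₐ[A] Ω) (t : B) {x : Ω}
    (hx : x ∈ icl (integralClosure A Ω) {ψ t}) : ∃ b, ψ b = x := by
  let R : Subalgebra (integralClosure A Ω) Ω :=
    { (ψ : B →+* Ω).range with
      algebraMap_mem' := fun a => range_of_int hB ψ (S := A)
        (fun y => ⟨algebraMap A B y, ψ.commutes y⟩) a.2 }
  have h : Algebra.adjoin (integralClosure A Ω) {ψ t} ≤ R :=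
    Algebra.adjoin_le (Set.singleton_subset_iff.2 ⟨t, rfl⟩)
  exact range_of_int hB ψ (fun y => h y.2) hx

lemma mem_icl_of_int [Algebra A B] (ψ : B →ₐ[A] Ω) {t b : B}
    (h : IsIntegral (Algebra.adjoin A {t}) b) : ψ b ∈ icl (integralClosure A Ω) {ψ t} := by
  have h1 : Algebra.adjoin A {t} ≤
      ((Algebra.adjoin (integralClosure A Ω) {ψ t}).restrictScalars A).comap ψ :=
    Algebra.adjoin_le (Set.singleton_subset_iff.2 (Algebra.self_mem_adjoin_singleton _ (ψ t)))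
  exact IsIntegral.map_of_comp_eq (T := Algebra.adjoin (integralClosure A Ω) {ψ t})
    (((ψ : B →+* Ω).comp (Algebra.adjoin A {t}).val.toRingHom).codRestrict
      (Algebra.adjoin (integralClosure A Ω) {ψ t}) fun y => h1 y.2) (ψ : B →+* Ω) rfl h

variable [IsLocalRing A] [IsLocalRing (integralClosure A Ω)] [Algebra A B] (ψ : B →ₐ[A] Ω)
  (R : Subalgebra (integralClosure A Ω) Ω)

lemma smul_of_mem (h : ∀ b, ψ b ∈ R) {b : B}
    (hb : b ∈ RingHom.ker ψ ⊔ (maximalIdeal A).map (algebraMap A B)) :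
    ψ b ∈ maximalIdeal (integralClosure A Ω) • R.toSubmodule := by
  obtain ⟨y, hy, z, hz, rfl⟩ := Submodule.mem_sup.1 hb
  rw [map_add, show ψ y = 0 from hy, zero_add]
  have hz' : z ∈ maximalIdeal A • (⊤ : Submodule A B) := by rwa [Ideal.smul_top_eq_map]
  refine Submodule.smul_induction_on (p := fun z => ψ z ∈ _) hz' (fun a ha z _ => ?_)
    fun y z hy hz => by rw [map_add]; exact add_mem hy hz
  rw [map_smul, ← algebraMap_smul (integralClosure A Ω) a]
  refine Submodule.smul_mem_smul ?_ (h z)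
  exact (liesOver_of_integral (A := A) (maximalIdeal (integralClosure A Ω))).over.le ha

lemma mem_of_smul (h : ∀ y ∈ R, ∃ b, ψ b = y) (x : Ideal B) [x.IsPrime]
    (hx : RingHom.ker ψ ⊔ (maximalIdeal A).map (algebraMap A B) ≤ x) {b : B}
    (hb : ψ b ∈ maximalIdeal (integralClosure A Ω) • R.toSubmodule) : b ∈ x := by
  have hk : RingHom.ker ψ.rangeRestrict ≤ x := fun y hy => hx (Ideal.mem_sup_left congr(($hy).1))
  let x' := x.map ψ.rangeRestrict
  have : x'.IsPrime := Ideal.map_isPrime_of_surjective ψ.rangeRestrict_surjective hk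
  have e : ∀ b, ψ.rangeRestrict b ∈ x' → b ∈ x := fun b hb => by
    have := Ideal.comap_map_of_surjective ψ.rangeRestrict ψ.rangeRestrict_surjective x
    rw [sup_eq_left.2 (show Ideal.comap ψ.rangeRestrict ⊥ ≤ x from hk)] at this
    exact this.le hb
  let ρ : integralClosure A Ω →+* ψ.range :=
    (algebraMap (integralClosure A Ω) Ω).codRestrict ψ.range fun a => h _ (algebraMap_mem R a)
  have h1 : (x'.comap ρ).IsMaximal := by
    refine Ideal.isMaximal_of_isIntegral_of_isMaximal_comap (R := A) _ ?_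
    rw [← (maximalIdeal.isMaximal A).eq_of_le (J := (x'.comap ρ).comap (algebraMap A _))
      (Ideal.IsPrime.ne_top inferInstance) fun a ha => ?_]
    · infer_instance
    · have := Ideal.mem_map_of_mem ψ.rangeRestrict
        (hx (Ideal.mem_sup_right (Ideal.mem_map_of_mem _ ha)))
      rwa [AlgHom.commutes] at this
  have h2 : ∀ y ∈ maximalIdeal (integralClosure A Ω) • R.toSubmodule,
      ∃ hy : y ∈ ψ.range, ⟨y, hy⟩ ∈ x' := fun y hy => by
    refine Submodule.smul_induction_on hy (fun a ha y hy => ?_) fun y z ⟨h1, h2⟩ ⟨h3, h4⟩ =>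
      ⟨add_mem h1 h3, add_mem h2 h4⟩
    rw [← eq_maximalIdeal h1] at ha
    exact ⟨mul_mem (ρ a).2 (h y hy), x'.mul_mem_right ⟨y, h y hy⟩ ha⟩
  exact e b (h2 _ hb).2

end KEYA

open KEYA PrimeSpectrum in
theorem keya (hmu : MU_s) : KEYA_s := by
  intro A B₁ B₂ C _ _ _ _ _ _ _ _ _ t s H l _ hl p Z₁ Z₂ Z
  algebraize [(algebraMap B₁ C).comp (algebraMap A B₁)]
  have : IsScalarTower A B₂ C := .of_algebraMap_eq H.comm
  have := H.loc₁
  let Ω := AlgebraicClosure p.asIdeal.ResidueField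
  let φ : C →ₐ[A] Ω := IsScalarTower.toAlgHom A C Ω
  have hφ : RingHom.ker φ = p.asIdeal := by
    ext c
    rw [RingHom.mem_ker, ← Ideal.algebraMap_residueField_eq_zero,
      ← map_eq_zero_iff _ (algebraMap p.asIdeal.ResidueField Ω).injective]
    rfl
  let φ₁ : B₁ →ₐ[A] Ω := φ.comp (IsScalarTower.toAlgHom A B₁ C)
  let φ₂ : B₂ →ₐ[A] Ω := φ.comp (IsScalarTower.toAlgHom A B₂ C)
  have e₁ : ∀ b, φ (algebraMap B₁ C b) = φ₁ b := fun _ => rfl
  have e₂ : ∀ b, φ (algebraMap B₂ C b) = φ₂ b := fun _ => rfl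
  have hts : φ₁ t * φ₂ s = 1 := by rw [← e₁, ← e₂, ← map_mul, H.ts, map_one]
  have ht : φ₁ t ≠ 0 := left_ne_zero_of_mul_eq_one hts
  have hs : φ₂ s = (φ₁ t)⁻¹ := eq_inv_of_mul_eq_one_right hts
  have : IsLocalRing (integralClosure A Ω) := SHL.isLocalRing_of_isDomain A
  let m := maximalIdeal (integralClosure A Ω)
  have a₁ : ∀ b, φ₁ b ∈ icl (integralClosure A Ω) {φ₁ t} := fun b => mem_icl_of_int φ₁ (H.int₁ b)
  have a₂ : ∀ b, φ₂ b ∈ icl (integralClosure A Ω) {(φ₁ t)⁻¹} := fun b =>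
    hs ▸ mem_icl_of_int φ₂ (H.int₂ b)
  have a₃ : ∀ c, φ c ∈ icl (integralClosure A Ω) {φ₁ t, (φ₁ t)⁻¹} := fun c => by
    obtain ⟨k, b, hb⟩ := IsLocalization.Away.surj t c
    have h1 := congrArg φ hb
    rw [map_mul, map_pow, e₁, e₁] at h1
    rw [show φ c = φ₁ b * (φ₁ t)⁻¹ ^ k by rw [← h1, inv_pow, mul_inv_cancel_right₀ (pow_ne_zero k ht)]]
    exact mul_mem (icl_mono (by simp) (a₁ b)) (pow_mem (subset_icl (by simp)) k)
  have b₁ : ∀ y ∈ icl (integralClosure A Ω) {φ₁ t}, ∃ b, φ₁ b = y := fun y hy =>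
    icl_le_range H.aic₁ φ₁ t hy
  have b₂ : ∀ y ∈ icl (integralClosure A Ω) {(φ₁ t)⁻¹}, ∃ b, φ₂ b = y := fun y hy =>
    icl_le_range H.aic₂ φ₂ s (hs ▸ hy)
  have b₃ : ∀ y ∈ icl (integralClosure A Ω) {φ₁ t, (φ₁ t)⁻¹}, ∃ c, φ c = y := fun y hy => by
    obtain ⟨k, hk⟩ := icl_clear ht y hy
    obtain ⟨b, hb⟩ := b₁ _ hk
    refine ⟨algebraMap B₁ C b * algebraMap B₂ C s ^ k, ?_⟩
    rw [map_mul, map_pow, e₁, e₂, hb, hs, inv_pow, mul_inv_cancel_right₀ (pow_ne_zero k ht)]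
  let I₁ := RingHom.ker φ₁ ⊔ (maximalIdeal A).map (algebraMap A B₁)
  let I₂ := RingHom.ker φ₂ ⊔ (maximalIdeal A).map (algebraMap A B₂)
  let I := RingHom.ker φ ⊔ (maximalIdeal A).map (algebraMap A C)
  have z₁ : Z₁ = zeroLocus (I₁ : Set B₁) := by
    simp only [Z₁, fib, comap_asIdeal, ← hφ]; rfl
  have z₂ : Z₂ = zeroLocus (I₂ : Set B₂) := by
    simp only [Z₂, fib, comap_asIdeal, ← hφ]; rfl
  have z₃ : Z = zeroLocus (I : Set C) := by
    simp only [Z, fib, ← hφ]; rfl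
  have i₁ : ∀ b ∈ I₁, algebraMap B₁ C b ∈ I := fun b hb =>
    (sup_le (fun _ h => Ideal.mem_sup_left h) (Ideal.map_le_iff_le_comap.2 fun a ha =>
      Ideal.mem_sup_right (Ideal.mem_map_of_mem (algebraMap A C) ha)) :
        I₁ ≤ I.comap (algebraMap B₁ C)) hb
  have i₂ : ∀ b ∈ I₂, algebraMap B₂ C b ∈ I := fun b hb =>
    (sup_le (fun _ h => Ideal.mem_sup_left h) (Ideal.map_le_iff_le_comap.2 fun a ha => by
      rw [Ideal.mem_comap, Ideal.mem_comap, ← IsScalarTower.algebraMap_apply]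
      exact Ideal.mem_sup_right (Ideal.mem_map_of_mem (algebraMap A C) ha)) :
        I₂ ≤ I.comap (algebraMap B₂ C)) hb
  have j₁ : ∀ x ∈ zeroLocus (I : Set C), comap (algebraMap B₁ C) x ∈ zeroLocus (I₁ : Set B₁) :=
    fun x hx b hb => hx (i₁ b hb)
  have j₂ : ∀ x ∈ zeroLocus (I : Set C), comap (algebraMap B₂ C) x ∈ zeroLocus (I₂ : Set B₂) :=
    fun x hx b hb => hx (i₂ b hb)
  rw [z₁, z₂, z₃]
  refine ⟨?_, fun c₁ c₂ h₁ h₂ h => ?_, fun c hc => ?_⟩
  · by_contra hn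
    simp only [not_or, Set.not_nonempty_iff_eq_empty, zeroLocus_empty_iff_eq_top] at hn
    refine nonempty (A := integralClosure A Ω) (φ₁ t) ⟨?_, ?_⟩
    · simpa using smul_of_mem φ₁ _ a₁ ((Ideal.eq_top_iff_one _).1 hn.1)
    · simpa using smul_of_mem φ₂ _ a₂ ((Ideal.eq_top_iff_one _).1 hn.2)
  · obtain ⟨x, hx, kx⟩ := (hmu B₁ I₁).1 c₁ h₁
    obtain ⟨y, hy, ky⟩ := (hmu B₂ I₂).1 c₂ h₂
    have idem : ∀ z : C, z ^ 2 - z ∈ I → IsIdempotentElem (Ideal.Quotient.mk I z) := fun z hz => by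
      rw [IsIdempotentElem, ← map_mul, Ideal.Quotient.eq, ← sq]; exact hz
    have hxy : algebraMap B₁ C x - algebraMap B₂ C y ∈ I := by
      rw [← Ideal.Quotient.eq]
      refine idem_eq_of_forall_maximal (idem _ (by simpa using i₁ _ hx))
        (idem _ (by simpa using i₂ _ hy)) fun M hM => ?_
      let q : PrimeSpectrum C := ⟨M.comap (Ideal.Quotient.mk I), inferInstance⟩
      have hq : q ∈ zeroLocus (I : Set C) := fun z hz => by
        change Ideal.Quotient.mk I z ∈ M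
        rw [Ideal.Quotient.eq_zero_iff_mem.2 hz]; exact zero_mem _
      have h1 := (kx _ (j₁ q hq)).symm.trans (Iff.trans (by rw [h q hq]) (ky _ (j₂ q hq)))
      exact not_iff_not.1 h1
    rcases connected (A := integralClosure A Ω)
      (fun z hz => ⟨⟨z, isIntegral_trans z hz⟩, rfl⟩) ht (a₁ x) (a₂ y)
      (by simpa using smul_of_mem φ₁ _ a₁ hx) (by simpa using smul_of_mem φ₂ _ a₂ hy)
      (by simpa only [map_sub, e₁, e₂] using smul_of_mem φ _ a₃ hxy) with ⟨p1, p2⟩ | ⟨p1, p2⟩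
    · refine ⟨false, fun q hq => ?_, fun q hq => ?_⟩
      · exact Bool.eq_false_iff.2 fun e => (kx q hq).1 e (mem_of_smul φ₁ _ b₁ _ hq p1)
      · exact Bool.eq_false_iff.2 fun e => (ky q hq).1 e (mem_of_smul φ₂ _ b₂ _ hq p2)
    · refine ⟨true, fun q hq => (kx q hq).2 fun e => ?_, fun q hq => (ky q hq).2 fun e => ?_⟩
      · have := mem_of_smul φ₁ _ b₁ _ hq (b := x - 1) (by simpa using p1)
        exact q.isPrime.one_notMem (by simpa using sub_mem e this)
      · have := mem_of_smul φ₂ _ b₂ _ hq (b := y - 1) (by simpa using p2)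
        exact q.isPrime.one_notMem (by simpa using sub_mem e this)
  · have hl1 : 1 < l := (Fact.out : l.Prime).one_lt
    have hP : ∀ (S : Type) [CommRing S] [Nontrivial S], (∑ i ∈ Finset.range l, (X : S[X]) ^ i).Monic :=
      fun S _ _ => monic_geom_sum_X (by omega)
    have : Nontrivial B₁ := φ₁.toRingHom.domain_nontrivial
    have : Nontrivial B₂ := φ₂.toRingHom.domain_nontrivial
    obtain ⟨ζ₁, hζ₁⟩ := H.aic₁ _ (hP B₁) (fun h0 => by
      have h1 := congrArg (coeff · 1) ((hP B₁).natDegree_eq_zero.1 h0)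
      simp [coeff_X_pow, coeff_one, hl1] at h1)
    have hζ₁' : ∑ i ∈ Finset.range l, ζ₁ ^ i = 0 := by simpa [eval_finsetSum] using hζ₁
    obtain ⟨ζ₂, hζ₂, hζ⟩ : ∃ ζ₂ : B₂, ∑ i ∈ Finset.range l, ζ₂ ^ i = 0 ∧ φ₂ ζ₂ = φ₁ ζ₁ := by
      let _ := φ₂.toRingHom.toAlgebra
      obtain ⟨a, h1, h2⟩ := H.aic₂.root_lift (φ₁ ζ₁) _ (hP B₂) (by
        simpa using congrArg φ₁ hζ₁')
      exact ⟨a, by simpa [eval_finsetSum] using h1, h2⟩
    obtain ⟨m1, -, m3⟩ := (hmu C I).2 l (by simpa using hl.map (algebraMap A C))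
      (algebraMap B₁ C ζ₁) (by simpa using congrArg (algebraMap B₁ C) hζ₁')
    obtain ⟨u, hu, ku⟩ := m1 c hc
    obtain ⟨x, hx, y, hy, p1, p2, p3⟩ := mu_onto (A := integralClosure A Ω) (fun q hq hd => by
        obtain ⟨z, hz⟩ := IsAlgClosed.exists_aeval_eq_zero_of_injective Ω Subtype.val_injective q
          (fun h0 => hd (natDegree_eq_zero_iff_degree_le_zero.2 h0.le))
        exact ⟨⟨z, isIntegral_trans z ⟨q, hq, hz⟩⟩, Subtype.val_injective
          ((aeval_algebraMap_apply_eq_algebraMap_eval _ q).symm.trans hz)⟩)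
      l (by simpa using hl.map (algebraMap A (integralClosure A Ω))) ht (φ u) (a₃ u)
      (by simpa using smul_of_mem φ _ a₃ hu)
    obtain ⟨x, rfl⟩ := b₁ x hx
    obtain ⟨y, rfl⟩ := b₂ y hy
    obtain ⟨c₁, l₁, k₁⟩ := ((hmu B₁ I₁).2 l (by simpa using hl.map (algebraMap A B₁)) ζ₁ hζ₁').2.1 x
      fun q hq => mem_of_smul φ₁ _ b₁ _ hq (by simpa using p1)
    obtain ⟨c₂, l₂, k₂⟩ := ((hmu B₂ I₂).2 l (by simpa using hl.map (algebraMap A B₂)) ζ₂ hζ₂).2.1 y
      fun q hq => mem_of_smul φ₂ _ b₂ _ hq (by simpa using p2)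
    refine ⟨-c₁, -c₂, l₁.comp Neg.neg, l₂.comp Neg.neg, fun q hq => ?_⟩
    rw [Pi.neg_apply, Pi.neg_apply, neg_sub_neg, eq_sub_iff_add_eq', eq_comm]
    refine m3 q _ _ _ ?_
    rw [← Ideal.Quotient.eq]
    have r1 := Ideal.mem_comap.1 (k₁ _ (j₁ q hq))
    have r2 := Ideal.mem_comap.1 (k₂ _ (j₂ q hq))
    have r3 := mem_of_smul φ _ b₃ _ hq (b := algebraMap B₂ C y - algebraMap B₁ C x * u)
      (by simpa only [map_sub, map_mul, e₁, e₂] using p3)
    have r4 : algebraMap B₂ C ζ₂ - algebraMap B₁ C ζ₁ ∈ q.asIdeal := hq (Ideal.mem_sup_left (by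
      rw [RingHom.mem_ker, map_sub, e₁, e₂, hζ, sub_self]))
    have r5 := ku q hq
    rw [map_sub, map_pow] at r1 r2
    rw [← Ideal.Quotient.eq] at r1 r2 r3 r4 r5
    rw [map_pow] at r1 r2 r5
    rw [map_mul, map_pow, map_pow, map_pow, ← r1, ← r5, ← r4, ← r2, r3, map_mul]

end Pool.Agent.MP_855f4c_ag.E.PB

end

section

set_option autoImplicit false

open IsLocalRing Topology PrimeSpectrum

namespace Pool.Agent.MP_855f4c_ag.E.PB

open E3

namespace KEY

variable {X W M : Type*} [TopologicalSpace X] [TopologicalSpace W]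

lemma lc_iff (S : Set X) (c : X → M) : LC S c ↔ ∀ x ∈ S, ∀ᶠ y in 𝓝[S] x, c y = c x := by
  rw [LC, IsLocallyConstant.iff_eventually_eq, Subtype.forall]
  refine forall₂_congr fun x hx => ?_
  rw [nhdsWithin_eq_map_subtype_coe hx, Filter.eventually_map]
  rfl

lemma lc_comp {ι : X → W} (hι : Continuous ι) {S : Set W} {c : W → M} (h : LC S c) {S' : Set X}
    (hS : S' ⊆ ι ⁻¹' S) : LC S' (c ∘ ι) :=
  (lc_iff _ _).2 fun _ hx =>
    (hι.continuousWithinAt.tendsto_nhdsWithin hS).eventually ((lc_iff _ _).1 h _ (hS hx))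

lemma lc_ext [Zero M] {ι : X → W} (hι : IsEmbedding ι) {S : Set W} {c : X → M}
    (h : LC (ι ⁻¹' S) c) : ∃ c' : W → M, LC (S ∩ Set.range ι) c' ∧ ∀ x, c' (ι x) = c x := by
  refine ⟨Function.extend ι c 0, (lc_iff _ _).2 ?_, hι.injective.extend_apply _ _⟩
  rintro _ ⟨hx, x, rfl⟩
  rw [← Set.image_preimage_eq_inter_range, ← hι.isInducing.map_nhdsWithin_eq,
    Filter.eventually_map]
  simpa only [hι.injective.extend_apply] using (lc_iff _ _).1 h x hx

lemma mem_fib {A B : Type} [CommRing A] [IsLocalRing A] [CommRing B] (φ : A →+* B)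
    (p x : PrimeSpectrum B) :
    x ∈ fib φ p ↔ p.asIdeal ≤ x.asIdeal ∧ maximalIdeal A ≤ x.asIdeal.comap φ := by
  simp [fib, mem_zeroLocus, Ideal.map_le_iff_le_comap]

lemma pre {A B : Type} [CommRing A] [IsLocalRing A] [CommRing B] (φ : A →+* B)
    {ι : PrimeSpectrum B → W} (hι : IsInducing ι) {W₀ : Set W}
    (h : ι ⁻¹' W₀ = zeroLocus ((maximalIdeal A).map φ)) (p : PrimeSpectrum B) :
    ι ⁻¹' (closure {ι p} ∩ W₀) = fib φ p := by
  rw [Set.preimage_inter, h, ← Set.image_singleton, ← hι.closure_eq_preimage_closure_image,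
    PrimeSpectrum.closure_singleton, fib, zeroLocus_sup]

lemma gen {B : Type} [CommRing B] {ι : PrimeSpectrum B → W} (hι : IsOpenEmbedding ι) {Z : Set W}
    (hZ : IsIrreducible Z) (hc : IsClosed Z) (h : (Z ∩ Set.range ι).Nonempty) :
    ∃ p, Z = closure {ι p} := by
  obtain ⟨p, hp⟩ := QuasiSober.sober (hZ.preimage hι h) (hc.preimage hι.continuous)
  refine ⟨p, subset_antisymm ?_ (closure_minimal (by simpa using hp.mem) hc)⟩
  refine (subset_closure_inter_of_isPreirreducible_of_isOpen hZ.2 hι.isOpen_range h).trans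
    (closure_minimal ?_ isClosed_closure)
  rintro _ ⟨hx, x, rfl⟩
  have : x ∈ closure {p} := hp.def ▸ hx
  simpa using image_closure_subset_closure_image hι.continuous ⟨x, this, rfl⟩

lemma one {A B : Type} [CommRing A] [IsLocalRing A] [CommRing B] (φ : A →+* B)
    {ι : PrimeSpectrum B → W} (hι : IsInducing ι) {W₀ U : Set W} (hU : IsOpen U)
    (hc : Set.range ι ∪ U = Set.univ)
    (h : ι ⁻¹' W₀ = zeroLocus ((maximalIdeal A).map φ)) (p : PrimeSpectrum B) (hp : ι p ∉ U)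
    (hx : ∃ x, fib φ p = {x}) :
    IsConnected (closure {ι p} ∩ W₀) ∧ ∀ y ∈ closure {ι p}, y ∉ U := by
  have h1 : ∀ y ∈ closure {ι p}, y ∉ U := fun y hy =>
    closure_minimal (t := Uᶜ) (by simpa using hp) hU.isClosed_compl hy
  obtain ⟨x, hx⟩ := hx
  refine ⟨?_, h1⟩
  have : closure {ι p} ∩ W₀ ⊆ Set.range ι := fun y hy =>
    (hc.ge (Set.mem_univ y)).resolve_right (h1 y hy.1)
  rw [← Set.image_preimage_eq_of_subset this, pre φ hι h, hx, Set.image_singleton]
  exact isConnected_singleton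

end KEY

open KEY

theorem keyb : KEYB_s := by
  intro A B _ _ _ _ t h p ht
  have hD : Algebra.IsIntegral A (B ⧸ p.asIdeal) := ⟨fun z => by
    obtain ⟨b, rfl⟩ := Ideal.Quotient.mk_surjective z
    have hle : Algebra.adjoin A {t} ≤
        (integralClosure A (B ⧸ p.asIdeal)).comap (Ideal.Quotient.mkₐ A p.asIdeal) := by
      rw [Algebra.adjoin_le_iff]
      rintro _ rfl
      change IsIntegral A (Ideal.Quotient.mk _ _)
      rw [Ideal.Quotient.eq_zero_iff_mem.2 ht]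
      exact isIntegral_zero
    let f : Algebra.adjoin A {t} →+* integralClosure A (B ⧸ p.asIdeal) :=
      ((Ideal.Quotient.mk p.asIdeal).comp (Algebra.adjoin A {t}).val.toRingHom).codRestrict _
        fun x => hle x.2
    exact isIntegral_trans (A := integralClosure A (B ⧸ p.asIdeal)) _
      (IsIntegral.map_of_comp_eq f (Ideal.Quotient.mk p.asIdeal) rfl (h b))⟩
  have : IsLocalRing (B ⧸ p.asIdeal) := SHL.isLocalRing_of_isDomain (A := A)
  refine ⟨comap (Ideal.Quotient.mk _) (closedPoint (B ⧸ p.asIdeal)), Set.ext fun y => ?_⟩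
  rw [mem_fib, Set.mem_singleton_iff]
  constructor
  · rintro ⟨h1, h2⟩
    obtain ⟨y, rfl⟩ : y ∈ Set.range (comap (Ideal.Quotient.mk p.asIdeal)) := by
      rw [range_comap_of_surjective _ _ Ideal.Quotient.mk_surjective, Ideal.mk_ker]
      exact h1
    have : (y.asIdeal.comap (algebraMap A (B ⧸ p.asIdeal))).IsMaximal :=
      (maximalIdeal.isMaximal A).eq_of_le (Ideal.IsPrime.ne_top inferInstance) h2 ▸ inferInstance
    exact congrArg _ (PrimeSpectrum.ext
      (eq_maximalIdeal (Ideal.isMaximal_of_isIntegral_of_isMaximal_comap _ this)))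
  · rintro rfl
    exact ⟨fun x hx => by simp [Ideal.Quotient.eq_zero_iff_mem.2 hx],
      (liesOver_of_integral (A := A) (maximalIdeal (B ⧸ p.asIdeal))).over.le⟩

theorem key (h1 : KEYA_s) (h2 : KEYB_s) : KEY_s := by
  intro A B₁ B₂ C _ _ _ _ _ _ _ _ _ t s H l _ hl W _ ι₁ ι₂ e₁ e₂ hc hj ht W₀ w₁ w₂ Z hZ hZ'
  have := H.loc₁
  have := H.loc₂
  have r₁ : ∀ x : PrimeSpectrum B₁, t ∉ x.asIdeal → ∃ z, comap (algebraMap B₁ C) z = x :=
    fun x hx => (localization_away_comap_range C t).ge hx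
  have r₂ : ∀ x : PrimeSpectrum B₂, s ∉ x.asIdeal → ∃ z, comap (algebraMap B₂ C) z = x :=
    fun x hx => (localization_away_comap_range C s).ge hx
  obtain ⟨η, rfl, hη⟩ : ∃ η, Z = closure {η} ∧ (η ∈ Set.range ι₁ ∨ η ∈ Set.range ι₂) := by
    obtain ⟨z, hz⟩ := hZ.1
    rcases hc.ge (Set.mem_univ z) with h | h
    · obtain ⟨p, hp⟩ := gen e₁ hZ hZ' ⟨z, hz, h⟩
      exact ⟨_, hp, .inl ⟨p, rfl⟩⟩
    · obtain ⟨p, hp⟩ := gen e₂ hZ hZ' ⟨z, hz, h⟩
      exact ⟨_, hp, .inr ⟨p, rfl⟩⟩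
  have triv : ∀ S : Set W, (∀ y ∈ S, y ∈ Set.range ι₁ → y ∉ Set.range ι₂) →
      Split (ZMod l) S (Set.range ι₁) (Set.range ι₂) := fun S h c _ =>
    ⟨0, 0, IsLocallyConstant.const 0, IsLocallyConstant.const 0,
      fun y hy => (h y hy.1.1 hy.1.2 hy.2).elim⟩
  by_cases k₂ : η ∈ Set.range ι₂
  swap
  · obtain ⟨p, rfl⟩ := hη.resolve_right k₂
    obtain ⟨a, b⟩ := one _ e₁.isInducing e₂.isOpen_range hc w₁ p k₂ (h2 A B₁ t H.int₁ p (by
      by_contra h
      obtain ⟨z, rfl⟩ := r₁ p h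
      exact k₂ ⟨_, (hj z).symm⟩))
    exact ⟨a, triv _ fun y hy _ => b y hy.1⟩
  by_cases k₁ : η ∈ Set.range ι₁
  swap
  · obtain ⟨p, rfl⟩ := k₂
    obtain ⟨a, b⟩ := one _ e₂.isInducing e₁.isOpen_range (Set.union_comm _ _ ▸ hc) w₂ p k₁
      (h2 A B₂ s H.int₂ p (by
        by_contra h
        obtain ⟨z, rfl⟩ := r₂ p h
        exact k₁ ⟨_, hj z⟩))
    exact ⟨a, triv _ fun y hy h => (b y hy.1 h).elim⟩
  have r : ∀ y ∈ Set.range ι₁, y ∈ Set.range ι₂ → ∃ z, ι₁ (comap (algebraMap B₁ C) z) = y := by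
    rintro _ ⟨x, rfl⟩ ⟨y, h⟩
    obtain ⟨z, rfl⟩ := r₁ x (ht x y h.symm)
    exact ⟨z, rfl⟩
  obtain ⟨p, rfl⟩ := r η k₁ k₂
  obtain ⟨a, b, c⟩ := h1 A B₁ B₂ C t s H l hl p
  have p₁ := pre _ e₁.isInducing w₁ (comap (algebraMap B₁ C) p)
  have p₂ := pre _ e₂.isInducing w₂ (comap (algebraMap B₂ C) p)
  have p₃ := pre ((algebraMap B₁ C).comp (algebraMap A B₁)) (W₀ := W₀)
    (e₁.isInducing.comp (localization_away_isOpenEmbedding C t).isInducing) (by
      rw [Set.preimage_comp, w₁]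
      ext x
      exact Ideal.map_le_iff_le_comap.trans (Ideal.map_le_iff_le_comap
        (f := (algebraMap B₁ C).comp (algebraMap A B₁)) (K := x.asIdeal)).symm) p
  rw [← hj] at p₂
  rw [Function.comp_apply] at p₃
  rw [← p₁, ← p₂] at a b c
  rw [← p₃] at c
  generalize closure {ι₁ (comap (algebraMap B₁ C) p)} ∩ W₀ = S at a b c
  refine ⟨⟨a.elim (fun ⟨x, hx⟩ => ⟨_, hx⟩) fun ⟨x, hx⟩ => ⟨_, hx⟩,
    isPreconnected_of_forall_constant fun f hf => ?_⟩, fun d hd => ?_⟩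
  · have hf' : LC S f := (IsLocallyConstant.iff_continuous _).2 hf.domRestrict
    obtain ⟨v, v₁, v₂⟩ := b _ _ (lc_comp e₁.continuous hf' subset_rfl)
      (lc_comp e₂.continuous hf' subset_rfl) fun x _ => congrArg f (hj x)
    have : ∀ y ∈ S, f y = v := fun y hy => by
      rcases hc.ge (Set.mem_univ y) with ⟨x, rfl⟩ | ⟨x, rfl⟩
      exacts [v₁ x hy, v₂ x hy]
    exact fun x hx y hy => (this x hx).trans (this y hy).symm
  · obtain ⟨c₁, c₂, l₁, l₂, h⟩ := c _ (lc_comp (e₁.continuous.comp (continuous_comap _)) hd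
      fun x hx => ⟨⟨hx, _, rfl⟩, _, (hj x).symm⟩)
    obtain ⟨d₁, m₁, n₁⟩ := lc_ext e₁.isEmbedding l₁
    obtain ⟨d₂, m₂, n₂⟩ := lc_ext e₂.isEmbedding l₂
    refine ⟨d₁, d₂, m₁, m₂, fun y hy => ?_⟩
    obtain ⟨z, rfl⟩ := r y hy.1.2 hy.2
    rw [n₁, hj, n₂, ← hj]
    exact h z hy.1.1

end Pool.Agent.MP_855f4c_ag.E.PB

end

section

set_option autoImplicit false

open CategoryTheory AlgebraicGeometry Polynomial

namespace Pool.Agent.MP_855f4c_ag.E.PB

open E3

/-- Ring form: an etale algebra over an aic ring has a retraction near each of its primes. -/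
lemma ZSEC.ring {R S : Type} [CommRing R] [CommRing S] [Algebra R S] [Algebra.Etale R S]
    (hR : Aic R) (q : Ideal S) [hq : q.IsPrime] :
    ∃ f : R, algebraMap R S f ∉ q ∧ Nonempty (S →ₐ[R] Localization.Away f) := by
  obtain ⟨h, hh, hs⟩ := Algebra.IsEtaleAt.exists_isStandardEtale (R := R) q
  obtain ⟨P⟩ := hs.nonempty_standardEtalePresentation
  let K := q.ResidueField
  have hu : IsUnit (IsScalarTower.toAlgHom R S K h) :=
    isUnit_iff_ne_zero.2 fun e => hh (Ideal.algebraMap_residueField_eq_zero.1 e)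
  let φ : Localization.Away h →ₐ[R] K :=
    IsLocalization.liftAlgHom (M := Submonoid.powers h) (f := IsScalarTower.toAlgHom R S K)
      (by rintro ⟨_, n, rfl⟩; exact (map_pow (IsScalarTower.toAlgHom R S K) h n).symm ▸ hu.pow n)
  have hx := P.hasMap.map φ
  obtain ⟨a, ha, hax⟩ := hR.root_lift (φ P.x) P.f P.monic_f hx.1
  have hg := hx.2
  rw [← hax, aeval_algebraMap_apply, coe_aeval_eq_eval] at hg
  refine ⟨P.g.eval a, fun e => hg.ne_zero ?_, ⟨?_⟩⟩
  · rw [IsScalarTower.algebraMap_apply R S K]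
    exact Ideal.algebraMap_residueField_eq_zero.2 e
  · have hm : P.P.HasMap (algebraMap R (Localization.Away (P.g.eval a)) a) := by
      constructor
      · rw [aeval_algebraMap_apply, coe_aeval_eq_eval, ha, map_zero]
      · rw [aeval_algebraMap_apply, coe_aeval_eq_eval]
        exact IsLocalization.Away.algebraMap_isUnit _
    exact ((P.P.lift _ hm).comp P.equivRing.toAlgHom).comp (IsScalarTower.toAlgHom R S _)

theorem zsec : ZSEC_s := by
  intro R hR V g _ v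
  obtain ⟨S, j, _, y, rfl⟩ := V.exists_Spec_apply_eq v
  obtain ⟨φ, hφ⟩ := Spec.map_surjective (j ≫ g)
  have he : φ.hom.Etale := by
    rw [← HasRingHomProperty.Spec_iff (P := @Etale), hφ]
    infer_instance
  let _ := φ.hom.toAlgebra
  have : Algebra.Etale R S := he
  have := y.isPrime
  obtain ⟨f, hf, ⟨s⟩⟩ := ZSEC.ring (R := R) (S := S) hR y.asIdeal
  refine ⟨f, ?_, Spec.map (CommRingCat.ofHom s.toRingHom) ≫ j, ?_⟩
  · have : g (j y) = Spec.map φ y := by rw [hφ]; rfl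
    intro h
    exact hf (by rw [this] at h; exact h)
  · rw [Category.assoc, ← hφ, ← Spec.map_comp]
    congr 1
    ext r
    exact s.commutes r

end Pool.Agent.MP_855f4c_ag.E.PB

end

section

set_option autoImplicit false

open CategoryTheory Limits AlgebraicGeometry Polynomial

namespace Pool.Agent.MP_855f4c_ag.E.PB

open E3

namespace WEX

theorem loc {B S : Type} [CommRing B] [CommRing S] [Algebra B S] (hB : Aic B)
    (M : Submonoid B) [IsLocalization M S] : Aic S := by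
  intro p hp hd
  obtain ⟨q, hq, hqd, hqm⟩ := lifts_and_natDegree_eq_and_monic
    (IsLocalization.scaleRoots_commonDenom_mem_lifts M p (by rw [hp.leadingCoeff]; exact one_mem _))
    ((monic_scaleRoots_iff _).2 hp)
  rw [natDegree_scaleRoots] at hqd
  obtain ⟨b, hb⟩ := hB q hqm (by rwa [hqd])
  obtain ⟨u, hu⟩ := IsLocalization.map_units S (IsLocalization.commonDenom M p.support p.coeff)
  refine ⟨↑u⁻¹ * algebraMap B S b, ?_⟩
  have h1 := scaleRoots_eval_mul p (↑u⁻¹ * algebraMap B S b) (u : S)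
  rw [Units.mul_inv_cancel_left, hu, ← hq, eval_map_algebraMap, aeval_algebraMap_apply,
    coe_aeval_eq_eval, hb, map_zero, ← hu] at h1
  exact (u.isUnit.pow _).mul_right_eq_zero.1 h1.symm

theorem surj {B S : Type} [CommRing B] [CommRing S] (hB : Aic B) (f : B →+* S)
    (hf : Function.Surjective f) : Aic S := by
  intro p hp hd
  obtain ⟨q, hq, hqd, hqm⟩ := lifts_and_natDegree_eq_and_monic
    ((mem_lifts p).2 (map_surjective f hf p)) hp
  obtain ⟨b, hb⟩ := hB q hqm (by rwa [hqd])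
  exact ⟨f b, by rw [← hq, Polynomial.eval_map, eval₂_hom, hb, map_zero]⟩

theorem icl {L : Type} [CommRing L] (hL : Aic L) (A : Type) [CommRing A]
    [Algebra A L] : Aic (integralClosure A L) := by
  intro p hp hd
  have hinj : Function.Injective (algebraMap (integralClosure A L) L) := Subtype.val_injective
  obtain ⟨x, hx⟩ := hL (p.map (algebraMap _ L)) (hp.map _)
    (by rwa [natDegree_map_eq_of_injective hinj])
  rw [eval_map_algebraMap] at hx
  have hi : IsIntegral A x := isIntegral_trans (A := integralClosure A L) x ⟨p, hp, hx⟩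
  refine ⟨⟨x, hi⟩, hinj ?_⟩
  rw [map_zero, ← hx, ← coe_aeval_eq_eval, ← aeval_algebraMap_apply]
  rfl

theorem pi {ι : Type} (K : ι → Type) [∀ i, Field (K i)] [∀ i, IsAlgClosed (K i)] :
    Aic (∀ i, K i) := by
  intro p hp hd
  have h : ∀ i, ∃ a : K i, (p.map (Pi.evalRingHom K i)).IsRoot a := fun i =>
    IsAlgClosed.exists_root _ fun h => hd (by
      rw [← hp.natDegree_map (Pi.evalRingHom K i)]
      exact natDegree_eq_zero_iff_degree_le_zero.2 h.le)
  choose a ha using h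
  refine ⟨a, funext fun i => ?_⟩
  have := ha i
  rw [IsRoot.def, Polynomial.eval_map] at this
  exact (eval₂_hom (Pi.evalRingHom K i) a).symm.trans this

theorem cover (A : Type) [CommRing A] : ∃ (R : Type) (_ : CommRing R) (φ : A →+* R), Aic R ∧
    Function.Surjective (PrimeSpectrum.comap φ) := by
  let K : PrimeSpectrum A → Type := fun p => AlgebraicClosure p.asIdeal.ResidueField
  let ψ : ∀ p, A →+* K p := fun p => (algebraMap p.asIdeal.ResidueField (K p)).comp (algebraMap _ _)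
  refine ⟨∀ p, K p, inferInstance, RingHom.pi ψ, pi K, fun p =>
    ⟨⟨RingHom.ker (Pi.evalRingHom K p), RingHom.ker_isPrime _⟩, PrimeSpectrum.ext ?_⟩⟩
  ext a
  change algebraMap p.asIdeal.ResidueField (K p) (algebraMap _ _ a) = 0 ↔ _
  rw [map_eq_zero, Ideal.algebraMap_residueField_eq_zero]

end WEX

theorem wex : WEX_s := by
  intro X _ U hU hd
  obtain ⟨R, _, φ, hR, hφ⟩ := WEX.cover Γ(X, U)
  let g : Spec (.of R) ⟶ Spec Γ(X, U) := Spec.map (CommRingCat.ofHom φ)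
  let f : Spec (.of R) ⟶ X := g ≫ hU.fromSpec
  have : IsAffineHom (f ≫ terminal.from X) := inferInstance
  have : IsAffineHom f := IsAffineHom.of_comp f (terminal.from X)
  have hf : f ⁻¹ᵁ U = ⊤ := by
    rw [Scheme.Hom.comp_preimage, hU.fromSpec_preimage_self]; rfl
  refine ⟨f.normalization, f.fromNormalization, inferInstance, ⟨?_⟩, ?_⟩
  · rw [← Set.range_eq_univ, ← Set.univ_subset_iff, ← hd.closure_eq]
    refine closure_minimal (fun x hx => ?_) f.fromNormalization.isClosedMap.isClosed_range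
    rw [← hU.range_fromSpec] at hx
    obtain ⟨y, rfl⟩ := hx
    obtain ⟨z, rfl⟩ := hφ y
    exact ⟨f.toNormalization z, congr($(f.toNormalization_fromNormalization) z)⟩
  · rintro V hV ⟨t, ht⟩
    let := (f.app V).hom.toAlgebra
    refine WEX.surj (WEX.icl ?_ Γ(X, V)) (f.normalizationObjIso hV).inv.hom
      (f.normalizationObjIso hV).symm.commRingCatIsoToRingEquiv.surjective
    have e : f ⁻¹ᵁ V = (Spec (.of R)).basicOpen (f.app U t) := by
      rw [← f.preimage_basicOpen, ht, Scheme.Hom.preimage_inf, hf, top_inf_eq]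
    rw [e]
    have hA : Aic Γ(Spec (.of R), f ⁻¹ᵁ U) := by
      rw [hf]
      exact WEX.surj hR (Scheme.ΓSpecIso (.of R)).inv.hom
        (Scheme.ΓSpecIso (.of R)).symm.commRingCatIsoToRingEquiv.surjective
    have := (hU.preimage f).isLocalization_basicOpen (f.app U t)
    exact WEX.loc hA (Submonoid.powers (f.app U t))

end Pool.Agent.MP_855f4c_ag.E.PB

end

section

open CategoryTheory Limits AlgebraicGeometry Polynomial

namespace Pool.Agent.MP_855f4c_ag.E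

/-- A projective line over `ℤ` with its two charts. -/
structure P1Data where
  P : Scheme.{0}
  ι₁ : Spec (.of ℤ[X]) ⟶ P
  ι₂ : Spec (.of ℤ[X]) ⟶ P
  o₁ : IsOpenImmersion ι₁
  o₂ : IsOpenImmersion ι₂
  cov : ∀ z : P, z ∈ Set.range ι₁ ∨ z ∈ Set.range ι₂
  glue : IsPullback (Spec.map (CommRingCat.ofHom (toLaurent : ℤ[X] →+* LaurentPolynomial ℤ)))
    (Spec.map (CommRingCat.ofHom
      ((LaurentPolynomial.invert (R := ℤ)).toRingEquiv.toRingHom.comp toLaurent))) ι₁ ι₂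
  prop : IsProper (terminal.from P)

namespace P1x

open HomogeneousLocalization

attribute [local instance] MvPolynomial.gradedAlgebra

abbrev B := MvPolynomial (Fin 2) ℤ
abbrev G : ℕ → Submodule ℤ B := MvPolynomial.homogeneousSubmodule (Fin 2) ℤ

theorem xm (i : Fin 2) : (MvPolynomial.X i : B) ∈ G 1 := MvPolynomial.isHomogeneous_X _ _

/-- Evaluation of degree zero fractions. -/
noncomputable def ev {C : Type} [CommRing C] (f : B) (c : Fin 2 → C)
    (h : IsUnit (MvPolynomial.eval₂Hom (Int.castRingHom C) c f)) : Away G f →+* C :=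
  (Localization.awayLift (MvPolynomial.eval₂Hom (Int.castRingHom C) c) f h).comp
    (algebraMap (Away G f) (Localization.Away f))

theorem ev_mk {C : Type} [CommRing C] (f : B) (c : Fin 2 → C)
    (h : IsUnit (MvPolynomial.eval₂Hom (Int.castRingHom C) c f)) {d : ℕ} (hf : f ∈ G d) (n : ℕ)
    (a : B) (ha : a ∈ G (n • d)) :
    ev f c h (Away.mk G hf n a ha) * MvPolynomial.eval₂Hom (Int.castRingHom C) c f ^ n =
      MvPolynomial.eval₂Hom (Int.castRingHom C) c a := by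
  simp only [ev, RingHom.comp_apply, HomogeneousLocalization.algebraMap_apply, Away.val_mk, Localization.awayLift]
  rw [Localization.mk_eq_mk', ← map_pow]
  have := IsLocalization.mk'_spec (Localization.Away f) a (⟨f ^ n, n, rfl⟩ : Submonoid.powers f)
  have h2 := congrArg (IsLocalization.Away.lift (S := Localization.Away f) f h) this
  rw [map_mul, IsLocalization.Away.lift_eq, IsLocalization.Away.lift_eq] at h2
  exact h2

theorem hom_scale {C : Type} [CommRing C] (c : Fin 2 → C) (u : C) {n : ℕ} {a : B} (ha : a ∈ G n) :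
    MvPolynomial.eval₂Hom (Int.castRingHom C) (fun k => c k * u) a =
      MvPolynomial.eval₂Hom (Int.castRingHom C) c a * u ^ n := by
  have ha' : a.IsHomogeneous n := ha
  conv_lhs => rw [a.as_sum]
  conv_rhs => rw [a.as_sum]
  rw [map_sum, map_sum, Finset.sum_mul]
  refine Finset.sum_congr rfl fun s hs => ?_
  rw [MvPolynomial.eval₂Hom_monomial, MvPolynomial.eval₂Hom_monomial, ha'.degree_eq_sum_deg_support hs]
  simp only [Finsupp.prod, mul_pow, Finset.prod_mul_distrib, Finset.prod_pow_eq_pow_sum, mul_assoc]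

/-- The coordinates `X i ↦ 1`, `X j ↦ X`. -/
noncomputable def co (i : Fin 2) : Fin 2 → ℤ[X] := fun k => if k = i then 1 else X

theorem co_unit (i : Fin 2) :
    IsUnit (MvPolynomial.eval₂Hom (Int.castRingHom ℤ[X]) (co i) (MvPolynomial.X i)) := by
  simp [co]

/-- Dehomogenisation. -/
noncomputable def ψ (i : Fin 2) : Away G (MvPolynomial.X i : B) →+* ℤ[X] := ev _ (co i) (co_unit i)

theorem ψ_mk (i : Fin 2) (n : ℕ) (a : B) (ha : a ∈ G (n • 1)) :
    ψ i (Away.mk G (xm i) n a ha) = MvPolynomial.eval₂Hom (Int.castRingHom ℤ[X]) (co i) a := by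
  have := ev_mk _ (co i) (co_unit i) (xm i) n a ha
  simpa [co, ψ] using this

/-- The fraction `X j / X i`. -/
noncomputable def fr (i j : Fin 2) : Away G (MvPolynomial.X i : B) :=
  Away.mk G (xm i) 1 (MvPolynomial.X j) (by simpa using xm j)

theorem ψ_fr (i j : Fin 2) (h : j ≠ i) : ψ i (fr i j) = X := by
  rw [fr, ψ_mk]; simp [co, h]

/-- Homogenisation. -/
noncomputable def φ (i j : Fin 2) : ℤ[X] →+* Away G (MvPolynomial.X i : B) :=
  eval₂RingHom (Int.castRingHom _) (fr i j)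

theorem ψφ (i j : Fin 2) (h : j ≠ i) : (ψ i).comp (φ i j) = RingHom.id _ := by
  refine Polynomial.ringHom_ext (fun a => ?_) ?_
  · simp [φ]
  · simp [φ, ψ_fr i j h]

theorem φψ (i j : Fin 2) (h : j ≠ i) (z : Away G (MvPolynomial.X i : B)) : φ i j (ψ i z) = z := by
  obtain ⟨n, a, ha, rfl⟩ := Away.mk_surjective G (xm i) z
  rw [ψ_mk]
  apply val_injective
  let L := Localization.Away (MvPolynomial.X i : B)
  let u : L := IsLocalization.Away.invSelf (MvPolynomial.X i : B)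
  have hu : algebraMap B L (MvPolynomial.X i) * u = 1 := IsLocalization.Away.mul_invSelf _
  have e0 : MvPolynomial.eval₂Hom (Int.castRingHom L) (fun k => algebraMap B L (MvPolynomial.X k)) =
      algebraMap B L := by
    refine MvPolynomial.ringHom_ext (fun r => ?_) (fun k => ?_)
    · simp
    · simp
  have mk_eq : ∀ (m : ℕ) (b : B), (Localization.mk b ⟨MvPolynomial.X i ^ m, m, rfl⟩ : L) =
      algebraMap B L b * u ^ m := by
    intro m b
    have h1 := IsLocalization.mk'_spec L b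
      (⟨MvPolynomial.X i ^ m, m, rfl⟩ : Submonoid.powers (MvPolynomial.X i : B))
    rw [Localization.mk_eq_mk', ← h1, mul_assoc]
    simp only [map_pow]
    rw [← mul_pow, hu, one_pow, mul_one]
  have e1 : ((algebraMap (Away G (MvPolynomial.X i : B)) L).comp (φ i j)).comp
      (MvPolynomial.eval₂Hom (Int.castRingHom ℤ[X]) (co i)) =
      MvPolynomial.eval₂Hom (Int.castRingHom L) (fun k => algebraMap B L (MvPolynomial.X k) * u) := by
    refine MvPolynomial.ringHom_ext (fun r => ?_) (fun k => ?_)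
    · simp
    · by_cases hk : k = i
      · subst hk; simp [co, hu]
      · have : k = j := by omega
        subst this
        simp only [RingHom.comp_apply, MvPolynomial.eval₂Hom_X', co, hk, if_false, φ,
          coe_eval₂RingHom, eval₂_X, fr]
        exact (mk_eq 1 (MvPolynomial.X k)).trans (congrArg _ (pow_one u))
  refine (DFunLike.congr_fun e1 a).trans ?_
  rw [hom_scale _ _ ha, e0, Away.val_mk, mk_eq]
  simp

theorem ψ_bij (i j : Fin 2) (h : j ≠ i) : Function.Bijective (ψ i) :=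
  ⟨Function.LeftInverse.injective (φψ i j h),
    Function.RightInverse.surjective (g := φ i j) fun p => congrArg (fun f => f p) (ψφ i j h)⟩

theorem ψ_iso (i : Fin 2) : IsIso (CommRingCat.ofHom (ψ i)) := by
  have : ∃ j, j ≠ i := exists_ne i
  obtain ⟨j, hj⟩ := this
  exact (ConcreteCategory.isIso_iff_bijective _).mpr (ψ_bij i j hj)

/-- The charts. -/
noncomputable def ι (i : Fin 2) : Spec (.of ℤ[X]) ⟶ Proj G :=
  Spec.map (CommRingCat.ofHom (ψ i)) ≫ Proj.awayι G _ (xm i) one_pos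

instance (i : Fin 2) : IsOpenImmersion (ι i) := by
  have := ψ_iso i
  unfold ι; infer_instance

theorem ι_range (i : Fin 2) : (ι i).opensRange = Proj.basicOpen G (MvPolynomial.X i) := by
  have := ψ_iso i
  exact (Scheme.Hom.opensRange_comp_of_isIso _ _).trans (Proj.opensRange_awayι _ _ _ _)

theorem adj : Algebra.adjoin (G 0) (Set.range (MvPolynomial.X : Fin 2 → B)) = ⊤ := by
  rw [eq_top_iff]
  rintro x -
  induction x using MvPolynomial.induction_on with
  | C a => exact Subalgebra.algebraMap_mem _ (⟨MvPolynomial.C a, MvPolynomial.isHomogeneous_C _ _⟩ : G 0)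
  | add p q hp hq => exact add_mem hp hq
  | mul_X p n hp => exact mul_mem hp (Algebra.subset_adjoin ⟨n, rfl⟩)

theorem cov (z : Proj G) : z ∈ Set.range (ι 0) ∨ z ∈ Set.range (ι 1) := by
  have := Proj.iSup_basicOpen_eq_top' G (MvPolynomial.X : Fin 2 → B) (fun i => ⟨1, xm i⟩) adj
  obtain ⟨i, hi⟩ := TopologicalSpace.Opens.mem_iSup.mp (this.ge (Set.mem_univ z))
  rw [← ι_range] at hi
  fin_cases i
  · exact Or.inl hi
  · exact Or.inr hi

theorem prop : IsProper (terminal.from (Proj G)) := by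
  have : Algebra.FiniteType (G 0) B :=
    ⟨⟨Finset.univ.image MvPolynomial.X, by simpa using adj⟩⟩
  have hs : Function.Surjective (Int.castRingHom (G 0)) := by
    rintro ⟨x, hx⟩
    rw [G, MvPolynomial.homogeneousSubmodule_zero, Submodule.mem_one] at hx
    obtain ⟨r, rfl⟩ := hx
    exact ⟨r, Subtype.ext ((map_intCast (algebraMap (G 0) B) r).trans (by simp))⟩
  have h1 : IsClosedImmersion (Spec.map (CommRingCat.ofHom (Int.castRingHom (G 0)))) :=
    IsClosedImmersion.spec_of_surjective _ hs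
  have h2 : IsIso (terminal.from (Spec (.of ℤ))) := isIso_of_isTerminal specZIsTerminal terminalIsTerminal _
  rw [terminal.hom_ext (terminal.from (Proj G)) (Proj.toSpecZero G ≫
    Spec.map (CommRingCat.ofHom (Int.castRingHom (G 0))) ≫ terminal.from _)]
  infer_instance

open LaurentPolynomial in
theorem glue : IsPullback (Spec.map (CommRingCat.ofHom (toLaurent : ℤ[X] →+* LaurentPolynomial ℤ)))
    (Spec.map (CommRingCat.ofHom
      ((LaurentPolynomial.invert (R := ℤ)).toRingEquiv.toRingHom.comp toLaurent))) (ι 0) (ι 1) := by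
  have o : IsOpenImmersion (Spec.map (CommRingCat.ofHom (toLaurent : ℤ[X] →+* LaurentPolynomial ℤ))) :=
    IsOpenImmersion.of_isLocalization (S := LaurentPolynomial ℤ) (X : ℤ[X])
  let c : Fin 2 → LaurentPolynomial ℤ := fun k => if k = 0 then 1 else T 1
  have hc : IsUnit (MvPolynomial.eval₂Hom (Int.castRingHom _) c
      (MvPolynomial.X 0 * MvPolynomial.X 1 : B)) := by
    simpa [c] using isUnit_T 1
  let χ := ev (MvPolynomial.X 0 * MvPolynomial.X 1 : B) c hc
  have e0 : toLaurent.comp (ψ 0) = χ.comp (awayMap G (xm 1) rfl) := by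
    have : (toLaurent.comp (ψ 0)).comp (φ 0 1) = (χ.comp (awayMap G (xm 1) rfl)).comp (φ 0 1) := by
      refine Polynomial.ringHom_ext (fun a => ?_) ?_
      · simp
      · simp only [RingHom.comp_apply, φ, coe_eval₂RingHom, eval₂_X, ψ_fr 0 1 (by decide)]
        rw [fr, awayMap_mk]
        refine hc.mul_right_cancel ?_
        rw [← pow_one (MvPolynomial.eval₂Hom _ _ _), ev_mk]
        simp [c]
    ext1 z
    rw [← φψ 0 1 (by decide) z]
    exact congrArg (fun f => f (ψ 0 z)) this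
  have e1 : ((LaurentPolynomial.invert (R := ℤ)).toRingEquiv.toRingHom.comp toLaurent).comp (ψ 1) =
      χ.comp (awayMap G (xm 0) (mul_comm _ _)) := by
    have : (((LaurentPolynomial.invert (R := ℤ)).toRingEquiv.toRingHom.comp toLaurent).comp
        (ψ 1)).comp (φ 1 0) = (χ.comp (awayMap G (xm 0) (mul_comm _ _))).comp (φ 1 0) := by
      refine Polynomial.ringHom_ext (fun a => ?_) ?_
      · simp
      · simp only [RingHom.comp_apply, φ, coe_eval₂RingHom, eval₂_X, ψ_fr 1 0 (by decide)]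
        rw [fr, awayMap_mk]
        refine hc.mul_right_cancel ?_
        rw [← pow_one (MvPolynomial.eval₂Hom _ _ _), ev_mk]
        have hT : (T (-1) : LaurentPolynomial ℤ) * T 1 = 1 := by rw [← T_add]; rfl
        have hi : (LaurentPolynomial.invert (R := ℤ)).toRingEquiv.toRingHom (toLaurent X) = T (-1) := by
          rw [toLaurent_X]; exact invert_T 1
        rw [hi]
        simp only [map_mul, pow_one, MvPolynomial.eval₂Hom_X', c, if_true, one_ne_zero, if_false,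
          one_mul]
        exact hT
    ext1 z
    rw [← φψ 1 0 (by decide) z]
    exact congrArg (fun f => f (ψ 1 z)) this
  refine (IsOpenImmersion.isPullback _ _ _ _ ?_ ?_).flip
  · rw [ι, ι, ← Spec.map_comp_assoc, ← Spec.map_comp_assoc, ← CommRingCat.ofHom_comp,
      ← CommRingCat.ofHom_comp, e0, e1, CommRingCat.ofHom_comp, CommRingCat.ofHom_comp,
      Spec.map_comp_assoc, Spec.map_comp_assoc, Proj.SpecMap_awayMap_awayι,
      Proj.SpecMap_awayMap_awayι]
  · rw [ι_range, ι, Scheme.Hom.comp_preimage, Proj.awayι_preimage_basicOpen G (xm 0) one_pos (xm 1) one_pos]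
    ext1
    have : ψ 0 (Away.isLocalizationElem (xm 0) (xm 1)) = X := by
      rw [Away.isLocalizationElem, ψ_mk]; simp [co]
    refine Eq.trans ?_ (PrimeSpectrum.localization_away_comap_range (LaurentPolynomial ℤ) (X : ℤ[X])).symm
    rw [← this]
    rfl

end P1x

theorem exP1 : Nonempty P1Data :=
  ⟨⟨_, P1x.ι 0, P1x.ι 1, inferInstance, inferInstance, P1x.cov, P1x.glue, P1x.prop⟩⟩

/-- The chosen model. -/
noncomputable def P1D : P1Data := Classical.choice exP1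

/-- The projective line. -/
noncomputable abbrev P1 : Scheme.{0} := P1D.P

/-- The point `x = a`. -/
noncomputable def pt1 {C : Type} [CommRing C] (a : C) : Spec (.of C) ⟶ P1 :=
  Spec.map (CommRingCat.ofHom (eval₂RingHom (Int.castRingHom C) a)) ≫ P1D.ι₁

/-- The point `1/x = b`. -/
noncomputable def pt2 {C : Type} [CommRing C] (b : C) : Spec (.of C) ⟶ P1 :=
  Spec.map (CommRingCat.ofHom (eval₂RingHom (Int.castRingHom C) b)) ≫ P1D.ι₂

/-- A projective line over `S`. -/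
structure PL (S : Scheme.{0}) where
  P : Scheme.{0}
  π : P ⟶ S
  q : P ⟶ P1
  sq : IsPullback q π (terminal.from _) (terminal.from _)

namespace PL

variable {S : Scheme.{0}} (L : PL S)

/-- The standard model. -/
noncomputable def std (S : Scheme.{0}) : PL S :=
  ⟨_, pullback.snd _ _, pullback.fst _ _, IsPullback.of_hasPullback _ _⟩

/-- Base change; its total space is `((Over.pullback L.π).obj T).left`. -/
noncomputable def bc (T : Over S) : PL T.left where
  P := pullback T.hom L.π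
  π := pullback.fst _ _
  q := pullback.snd _ _ ≫ L.q
  sq := by
    have := (IsPullback.of_hasPullback T.hom L.π).flip.paste_horiz L.sq
    rwa [terminal.comp_from] at this

/-- The point of `L.P` with image `t` in `S` and `z` in the projective line. -/
noncomputable def pnt {T : Scheme.{0}} (t : T ⟶ S) (z : T ⟶ P1) : T ⟶ L.P :=
  L.sq.lift z t (terminal.hom_ext _ _)

/-- The open part `h ≠ 0` of the affine line. -/
noncomputable def u {A : Type} [CommRing A] (L : PL (Spec (.of A))) (h : A[X]) :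
    Spec (.of (Localization.Away h)) ⟶ L.P :=
  L.pnt (Spec.map (CommRingCat.ofHom ((algebraMap A[X] _).comp C))) (pt1 (algebraMap A[X] _ X))

end PL

end Pool.Agent.MP_855f4c_ag.E

end

section

/-! Points, charts and sections of the projective line. -/

set_option autoImplicit false

open CategoryTheory Limits AlgebraicGeometry Polynomial

namespace Pool.Agent.MP_855f4c_ag.E

instance : IsOpenImmersion P1D.ι₁ := P1D.o₁

instance : IsOpenImmersion P1D.ι₂ := P1D.o₂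

/-- The image of a pull-back is the preimage of the image. -/
lemma pb_mem_range {P X Y Z : Scheme.{0}} {a : P ⟶ X} {b : P ⟶ Y} {f : X ⟶ Z} {g : Y ⟶ Z}
    (h : IsPullback a b f g) (y : Y) : y ∈ Set.range b ↔ g y ∈ Set.range f := by
  constructor
  · rintro ⟨p, rfl⟩
    exact ⟨a p, by rw [← Scheme.Hom.comp_apply, h.w, Scheme.Hom.comp_apply]⟩
  · rintro ⟨x, hx⟩
    obtain ⟨p, -, hp⟩ := Scheme.exists_preimage_of_isPullback h x y hx
    exact ⟨p, hp⟩

lemma mem_range_away {R S : Type} [CommRing R] [CommRing S] [Algebra R S] (h : R)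
    [IsLocalization.Away h S] (x : Spec (.of R)) :
    x ∈ Set.range (Spec.map (CommRingCat.ofHom (algebraMap R S))) ↔ h ∉ x.asIdeal :=
  Set.ext_iff.1 (PrimeSpectrum.localization_away_comap_range S h) x

lemma isUnit_iff_forall {C : Type} [CommRing C] (a : C) :
    IsUnit a ↔ ∀ x : Spec (.of C), a ∉ x.asIdeal := by
  refine ⟨fun h x hx => x.isPrime.ne_top (Ideal.eq_top_of_isUnit_mem _ hx h), fun h => ?_⟩
  by_contra ha
  obtain ⟨m, hm, hx⟩ := exists_max_ideal_of_mem_nonunits ha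
  exact h ⟨m, hm.isPrime⟩ hx

section points

variable {C D : Type} [CommRing C] [CommRing D]

lemma evZ_eq (φ : ℤ[X] →+* C) : eval₂RingHom (Int.castRingHom C) (φ X) = φ :=
  Polynomial.ringHom_ext' (Subsingleton.elim _ _) (by simp)

lemma spec_ι₁ (φ : ℤ[X] →+* C) : Spec.map (CommRingCat.ofHom φ) ≫ P1D.ι₁ = pt1 (φ X) := by
  rw [pt1, evZ_eq]

lemma spec_ι₂ (φ : ℤ[X] →+* C) : Spec.map (CommRingCat.ofHom φ) ≫ P1D.ι₂ = pt2 (φ X) := by
  rw [pt2, evZ_eq]

@[reassoc]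
lemma map_pt1 (φ : C →+* D) (a : C) : Spec.map (CommRingCat.ofHom φ) ≫ pt1 a = pt1 (φ a) := by
  rw [pt1, ← Spec.map_comp_assoc, ← CommRingCat.ofHom_comp, spec_ι₁]
  simp

@[reassoc]
lemma map_pt2 (φ : C →+* D) (a : C) : Spec.map (CommRingCat.ofHom φ) ≫ pt2 a = pt2 (φ a) := by
  rw [pt2, ← Spec.map_comp_assoc, ← CommRingCat.ofHom_comp, spec_ι₂]
  simp

lemma evZ_inj {a b : C} (h : Spec.map (CommRingCat.ofHom (eval₂RingHom (Int.castRingHom C) a)) =
    Spec.map (CommRingCat.ofHom (eval₂RingHom (Int.castRingHom C) b))) : a = b := by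
  simpa using congr(($(Spec.map_injective h)).hom X)

lemma pt1_inj {a b : C} : pt1 a = pt1 b ↔ a = b :=
  ⟨fun h => evZ_inj ((cancel_mono P1D.ι₁).1 h), fun h => h ▸ rfl⟩

lemma pt2_inj {a b : C} : pt2 a = pt2 b ↔ a = b :=
  ⟨fun h => evZ_inj ((cancel_mono P1D.ι₂).1 h), fun h => h ▸ rfl⟩

lemma pt1_T : pt1 (LaurentPolynomial.T 1 : LaurentPolynomial ℤ) =
    pt2 (LaurentPolynomial.T (-1) : LaurentPolynomial ℤ) := by
  have := P1D.glue.w
  rw [spec_ι₁, spec_ι₂] at this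
  simpa using this

lemma pt1_eq_pt2 {a b : C} : pt1 a = pt2 b ↔ a * b = 1 := by
  constructor
  · intro h
    obtain ⟨ψ, hψ⟩ := Spec.map_surjective (P1D.glue.lift _ _ h)
    have h1 := P1D.glue.lift_fst _ _ h
    have h2 := P1D.glue.lift_snd _ _ h
    rw [← hψ, ← Spec.map_comp] at h1 h2
    have h3 : ψ.hom (LaurentPolynomial.T 1) = a := by
      simpa using congr(($(Spec.map_injective h1)).hom X)
    have h4 : ψ.hom (LaurentPolynomial.T (-1)) = b := by
      simpa using congr(($(Spec.map_injective h2)).hom X)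
    rw [← h3, ← h4, ← map_mul, ← LaurentPolynomial.T_add]
    simp
  · intro h
    let u : Cˣ := ⟨a, b, h, (mul_comm _ _).trans h⟩
    have := congrArg (Spec.map (CommRingCat.ofHom
      (LaurentPolynomial.eval₂ (Int.castRingHom C) u)) ≫ ·) pt1_T
    simp only [map_pt1, map_pt2, LaurentPolynomial.eval₂_T, zpow_one, zpow_neg] at this
    exact this

lemma pt1_mem₁ (a : C) (x : Spec (.of C)) : pt1 a x ∈ Set.range P1D.ι₁ :=
  ⟨_, (Scheme.Hom.comp_apply _ _ x).symm⟩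

lemma pt2_mem₂ (b : C) (x : Spec (.of C)) : pt2 b x ∈ Set.range P1D.ι₂ :=
  ⟨_, (Scheme.Hom.comp_apply _ _ x).symm⟩

lemma pt1_mem₂ (a : C) (x : Spec (.of C)) : pt1 a x ∈ Set.range P1D.ι₂ ↔ a ∉ x.asIdeal := by
  rw [pt1, Scheme.Hom.comp_apply, ← pb_mem_range P1D.glue.flip]
  refine (mem_range_away (S := LaurentPolynomial ℤ) (X : ℤ[X]) _).trans (not_congr ?_)
  change eval₂RingHom (Int.castRingHom C) a X ∈ x.asIdeal ↔ _
  simp

lemma pt2_mem₁ (b : C) (x : Spec (.of C)) : pt2 b x ∈ Set.range P1D.ι₁ ↔ b ∉ x.asIdeal := by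
  constructor
  · rw [pt2, Scheme.Hom.comp_apply, ← pb_mem_range P1D.glue]
    rintro ⟨y, hy⟩ hb
    have h1 : X ∈ (Spec.map (CommRingCat.ofHom (eval₂RingHom (Int.castRingHom C) b)) x).asIdeal := by
      change eval₂RingHom (Int.castRingHom C) b X ∈ x.asIdeal
      simpa using hb
    rw [← hy] at h1
    have h2 : (LaurentPolynomial.invert (R := ℤ)) (toLaurent X) ∈ y.asIdeal := h1
    rw [toLaurent_X, LaurentPolynomial.invert_T] at h2
    exact y.isPrime.ne_top (Ideal.eq_top_of_isUnit_mem _ h2 (LaurentPolynomial.isUnit_T _))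
  · intro hb
    obtain ⟨y, rfl⟩ := (mem_range_away (S := Localization.Away b) b x).2 hb
    rw [← Scheme.Hom.comp_apply, map_pt2,
      ← pt1_eq_pt2.2 ((mul_comm _ _).trans (IsLocalization.Away.mul_invSelf b))]
    exact pt1_mem₁ _ _

lemma exists_pt1 (z : Spec (.of C) ⟶ P1) (h : ∀ x, z x ∈ Set.range P1D.ι₁) : ∃ a, z = pt1 a := by
  have H : Set.range z ⊆ Set.range P1D.ι₁ := Set.range_subset_iff.2 h
  obtain ⟨ψ, hψ⟩ := Spec.map_surjective (IsOpenImmersion.lift _ _ H)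
  exact ⟨ψ.hom X, by rw [← IsOpenImmersion.lift_fac _ _ H, ← hψ, ← spec_ι₁]; rfl⟩

lemma exists_pt2 (z : Spec (.of C) ⟶ P1) (h : ∀ x, z x ∈ Set.range P1D.ι₂) : ∃ b, z = pt2 b := by
  have H : Set.range z ⊆ Set.range P1D.ι₂ := Set.range_subset_iff.2 h
  obtain ⟨ψ, hψ⟩ := Spec.map_surjective (IsOpenImmersion.lift _ _ H)
  exact ⟨ψ.hom X, by rw [← IsOpenImmersion.lift_fac _ _ H, ← hψ, ← spec_ι₂]; rfl⟩

/-- Points with values in a local ring lie in a chart. -/
lemma pt_local [IsLocalRing C] (z : Spec (.of C) ⟶ P1) :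
    (∃ a, z = pt1 a) ∨ ∃ b ∈ IsLocalRing.maximalIdeal C, z = pt2 b := by
  have key : ∀ {U : Scheme.{0}} (ι : U ⟶ P1) [IsOpenImmersion ι],
      z (IsLocalRing.closedPoint C) ∈ Set.range ι → ∀ x, z x ∈ Set.range ι := fun ι _ h x =>
    ((IsLocalRing.specializes_closedPoint x).map z.continuous).mem_open
      ι.isOpenEmbedding.isOpen_range h
  by_cases h : z (IsLocalRing.closedPoint C) ∈ Set.range P1D.ι₁
  · exact .inl (exists_pt1 z (key _ h))
  · obtain ⟨b, rfl⟩ := exists_pt2 z (key _ ((P1D.cov _).resolve_left h))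
    exact .inr ⟨b, by_contra fun hb => h ((pt2_mem₁ b _).2 hb), rfl⟩

lemma pt_field {k : Type} [Field k] (z : Spec (.of k) ⟶ P1) :
    (∃ a, z = pt1 a) ∨ z = pt2 (0 : k) :=
  (pt_local z).imp_right fun ⟨b, hb, h⟩ => by
    rw [IsLocalRing.maximalIdeal_eq_bot, Ideal.mem_bot] at hb
    rwa [hb] at h

lemma pt1_ne_pt2_zero [Nontrivial C] (a : C) : pt1 a ≠ pt2 (0 : C) := fun h => by
  simpa using pt1_eq_pt2.1 h

/-- The affine line is the product of the base and the affine line over `ℤ`. -/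
lemma isPullback_line (A : Type) [CommRing A] :
    IsPullback (Spec.map (CommRingCat.ofHom (eval₂RingHom (Int.castRingHom A[X]) X)))
      (Spec.map (CommRingCat.ofHom (Polynomial.C : A →+* A[X])))
      (terminal.from _) (terminal.from _) := by
  have h : IsPushout (CommRingCat.ofHom (Int.castRingHom ℤ[X]))
      (CommRingCat.ofHom (Int.castRingHom A))
      (CommRingCat.ofHom (eval₂RingHom (Int.castRingHom A[X]) X))
      (CommRingCat.ofHom (Polynomial.C : A →+* A[X])) :=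
    ⟨⟨CommRingCat.hom_ext (Subsingleton.elim _ _)⟩, ⟨PushoutCocone.IsColimit.mk _
      (fun s => CommRingCat.ofHom (eval₂RingHom s.inr.hom (s.inl.hom X)))
      (fun s => CommRingCat.hom_ext (Polynomial.ringHom_ext' (Subsingleton.elim _ _) (by simp)))
      (fun s => CommRingCat.hom_ext (RingHom.ext fun a => by simp))
      fun s m h1 h2 => CommRingCat.hom_ext (Polynomial.ringHom_ext
        (fun a => by simp [← h2]) (by simp [← h1]))⟩⟩
  have h := isPullback_SpecMap_of_isPushout _ _ _ _ h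
  exact ⟨⟨terminal.hom_ext _ _⟩, ⟨PullbackCone.IsLimit.mk _
    (fun s => h.lift s.fst s.snd (specZIsTerminal.hom_ext _ _)) (fun s => h.lift_fst _ _ _)
    (fun s => h.lift_snd _ _ _) fun s m h1 h2 =>
      h.hom_ext (by rw [h1, h.lift_fst]) (by rw [h2, h.lift_snd])⟩⟩

end points

namespace PL

section general

variable {S : Scheme.{0}} (L : PL S) {T T' : Scheme.{0}}

@[reassoc (attr := simp)]
lemma pnt_π (t : T ⟶ S) (z : T ⟶ P1) : L.pnt t z ≫ L.π = t := L.sq.lift_snd _ _ _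

@[reassoc (attr := simp)]
lemma pnt_q (t : T ⟶ S) (z : T ⟶ P1) : L.pnt t z ≫ L.q = z := L.sq.lift_fst _ _ _

lemma pnt_ext {x y : T ⟶ L.P} (h : x ≫ L.π = y ≫ L.π) (h' : x ≫ L.q = y ≫ L.q) : x = y :=
  L.sq.hom_ext h' h

lemma pnt_eta (x : T ⟶ L.P) : L.pnt (x ≫ L.π) (x ≫ L.q) = x := L.pnt_ext (by simp) (by simp)

@[reassoc]
lemma comp_pnt (g : T' ⟶ T) (t : T ⟶ S) (z : T ⟶ P1) :
    g ≫ L.pnt t z = L.pnt (g ≫ t) (g ≫ z) := L.pnt_ext (by simp) (by simp)

lemma pnt_inj {t t' : T ⟶ S} {z z' : T ⟶ P1} : L.pnt t z = L.pnt t' z' ↔ t = t' ∧ z = z' :=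
  ⟨fun h => ⟨by simpa using h =≫ L.π, by simpa using h =≫ L.q⟩, fun h => h.1 ▸ h.2 ▸ rfl⟩

lemma q_pnt (t : T ⟶ S) (z : T ⟶ P1) (x : T) : L.q (L.pnt t z x) = z x := by
  rw [← Scheme.Hom.comp_apply, pnt_q]

lemma π_pnt (t : T ⟶ S) (z : T ⟶ P1) (x : T) : L.π (L.pnt t z x) = t x := by
  rw [← Scheme.Hom.comp_apply, pnt_π]

instance : IsProper L.π := MorphismProperty.of_isPullback L.sq P1D.prop

/-- Sections are closed immersions. -/
instance (z : S ⟶ P1) : IsClosedImmersion (L.pnt (𝟙 S) z) :=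
  have : IsClosedImmersion (L.pnt (𝟙 S) z ≫ L.π) := by rw [pnt_π]; infer_instance
  .of_comp _ L.π

lemma pnt_local {C : Type} [CommRing C] [IsLocalRing C] (x : Spec (.of C) ⟶ L.P) :
    (∃ a, x = L.pnt (x ≫ L.π) (pt1 a)) ∨
      ∃ b ∈ IsLocalRing.maximalIdeal C, x = L.pnt (x ≫ L.π) (pt2 b) :=
  (pt_local (x ≫ L.q)).imp (fun ⟨a, h⟩ => ⟨a, by rw [← h, pnt_eta]⟩)
    fun ⟨b, hb, h⟩ => ⟨b, hb, by rw [← h, pnt_eta]⟩

lemma pnt_field {k : Type} [Field k] (x : Spec (.of k) ⟶ L.P) :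
    (∃ a, x = L.pnt (x ≫ L.π) (pt1 a)) ∨ x = L.pnt (x ≫ L.π) (pt2 (0 : k)) :=
  (pt_field (x ≫ L.q)).imp (fun ⟨a, h⟩ => ⟨a, by rw [← h, pnt_eta]⟩) fun h => by
    rw [← h, pnt_eta]

/-- The projection from the base change. -/
noncomputable abbrev bcp (U : Over S) : (L.bc U).P ⟶ L.P := pullback.snd U.hom L.π

lemma bc_isPullback (U : Over S) : IsPullback (L.bc U).π (L.bcp U) U.hom L.π :=
  IsPullback.of_hasPullback _ _

@[reassoc]
lemma bcp_q (U : Over S) : L.bcp U ≫ L.q = (L.bc U).q := rfl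

@[reassoc]
lemma bc_pnt (U : Over S) (t : T ⟶ U.left) (z : T ⟶ P1) :
    (L.bc U).pnt t z ≫ L.bcp U = L.pnt (t ≫ U.hom) z :=
  L.pnt_ext (by rw [Category.assoc, ← (L.bc_isPullback U).w, pnt_π, pnt_π_assoc])
    (by rw [Category.assoc, pnt_q, bcp_q, pnt_q])

end general

section charts

variable {A : Type} [CommRing A] (L : PL (Spec (.of A))) {C : Type} [CommRing C]

/-- The chart with coordinate `x`. -/
noncomputable abbrev c₁ : Spec (.of A[X]) ⟶ L.P :=
  L.pnt (Spec.map (CommRingCat.ofHom Polynomial.C)) (pt1 X)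

/-- The chart with coordinate `1/x`. -/
noncomputable abbrev c₂ : Spec (.of A[X]) ⟶ L.P :=
  L.pnt (Spec.map (CommRingCat.ofHom Polynomial.C)) (pt2 X)

lemma isPullback_c₁ : IsPullback
    (Spec.map (CommRingCat.ofHom (eval₂RingHom (Int.castRingHom A[X]) X))) L.c₁ P1D.ι₁ L.q := by
  refine IsPullback.of_bot ?_ (L.pnt_q _ _).symm L.sq
  rw [pnt_π, terminal.comp_from]
  exact isPullback_line A

lemma isPullback_c₂ : IsPullback
    (Spec.map (CommRingCat.ofHom (eval₂RingHom (Int.castRingHom A[X]) X))) L.c₂ P1D.ι₂ L.q := by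
  refine IsPullback.of_bot ?_ (L.pnt_q _ _).symm L.sq
  rw [pnt_π, terminal.comp_from]
  exact isPullback_line A

instance : IsOpenImmersion L.c₁ := MorphismProperty.of_isPullback L.isPullback_c₁ P1D.o₁

instance : IsOpenImmersion L.c₂ := MorphismProperty.of_isPullback L.isPullback_c₂ P1D.o₂

lemma mem_c₁ (y : L.P) : y ∈ Set.range L.c₁ ↔ L.q y ∈ Set.range P1D.ι₁ :=
  pb_mem_range L.isPullback_c₁ y

lemma mem_c₂ (y : L.P) : y ∈ Set.range L.c₂ ↔ L.q y ∈ Set.range P1D.ι₂ :=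
  pb_mem_range L.isPullback_c₂ y

lemma cover (y : L.P) : y ∈ Set.range L.c₁ ∨ y ∈ Set.range L.c₂ :=
  (P1D.cov (L.q y)).imp (L.mem_c₁ y).2 (L.mem_c₂ y).2

lemma c₁_mem_c₂ (x : Spec (.of A[X])) : L.c₁ x ∈ Set.range L.c₂ ↔ X ∉ x.asIdeal := by
  rw [mem_c₂, q_pnt, pt1_mem₂]

lemma c₂_mem_c₁ (x : Spec (.of A[X])) : L.c₂ x ∈ Set.range L.c₁ ↔ X ∉ x.asIdeal := by
  rw [mem_c₁, q_pnt, pt2_mem₁]

@[reassoc]
lemma map_c₁ (ψ : A[X] →+* C) : Spec.map (CommRingCat.ofHom ψ) ≫ L.c₁ =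
    L.pnt (Spec.map (CommRingCat.ofHom (ψ.comp Polynomial.C))) (pt1 (ψ X)) := by
  rw [comp_pnt, map_pt1, ← Spec.map_comp, ← CommRingCat.ofHom_comp]

@[reassoc]
lemma map_c₂ (ψ : A[X] →+* C) : Spec.map (CommRingCat.ofHom ψ) ≫ L.c₂ =
    L.pnt (Spec.map (CommRingCat.ofHom (ψ.comp Polynomial.C))) (pt2 (ψ X)) := by
  rw [comp_pnt, map_pt2, ← Spec.map_comp, ← CommRingCat.ofHom_comp]

lemma pnt_pt1 (φ : A →+* C) (a : C) : L.pnt (Spec.map (CommRingCat.ofHom φ)) (pt1 a) =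
    Spec.map (CommRingCat.ofHom (eval₂RingHom φ a)) ≫ L.c₁ := by
  rw [map_c₁, eval₂RingHom_comp_C, coe_eval₂RingHom, eval₂_X]

lemma pnt_pt2 (φ : A →+* C) (b : C) : L.pnt (Spec.map (CommRingCat.ofHom φ)) (pt2 b) =
    Spec.map (CommRingCat.ofHom (eval₂RingHom φ b)) ≫ L.c₂ := by
  rw [map_c₂, eval₂RingHom_comp_C, coe_eval₂RingHom, eval₂_X]

/-- The overlap of the charts, for any localisation `R` of `A[X]` away from `X`. -/
lemma isPullback_away {R : Type} [CommRing R] [Algebra A[X] R] [IsLocalization.Away (X : A[X]) R]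
    (ψ : A[X] →+* R) (h : ψ.comp Polynomial.C = (algebraMap A[X] R).comp Polynomial.C)
    (h' : algebraMap A[X] R X * ψ X = 1) :
    IsPullback (Spec.map (CommRingCat.ofHom (algebraMap A[X] R))) (Spec.map (CommRingCat.ofHom ψ))
      L.c₁ L.c₂ := by
  have := IsOpenImmersion.of_isLocalization (S := R) (X : A[X])
  refine (IsOpenImmersion.isPullback _ _ _ _ ?_ (TopologicalSpace.Opens.ext (Set.ext fun x =>
    (L.c₁_mem_c₂ x).trans (mem_range_away X x).symm))).flip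
  rw [map_c₁, map_c₂, h, pt1_eq_pt2.2 h']

/-- The overlap of the charts is the spectrum of the Laurent ring. -/
lemma isPullback_laurent :
    IsPullback (Spec.map (CommRingCat.ofHom (toLaurent : A[X] →+* LaurentPolynomial A)))
      (Spec.map (CommRingCat.ofHom
        ((LaurentPolynomial.invert (R := A)).toRingEquiv.toRingHom.comp toLaurent))) L.c₁ L.c₂ :=
  L.isPullback_away (R := LaurentPolynomial A) _ (RingHom.ext fun a => by simp)
    (by
      change toLaurent X * LaurentPolynomial.invert (toLaurent X) = 1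
      rw [toLaurent_X, LaurentPolynomial.invert_T, ← LaurentPolynomial.T_add, add_neg_cancel,
        LaurentPolynomial.T_zero])

lemma u_eq (h : A[X]) :
    L.u h = Spec.map (CommRingCat.ofHom (algebraMap A[X] (Localization.Away h))) ≫ L.c₁ :=
  (L.map_c₁ _).symm

instance (h : A[X]) : IsOpenImmersion (L.u h) := by rw [u_eq]; infer_instance

@[reassoc]
lemma u_π (h : A[X]) : L.u h ≫ L.π =
    Spec.map (CommRingCat.ofHom ((algebraMap A[X] (Localization.Away h)).comp Polynomial.C)) :=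
  L.pnt_π _ _

lemma range_u_subset (h : A[X]) : Set.range (L.u h) ⊆ Set.range L.c₁ := by
  rintro _ ⟨y, rfl⟩
  exact ⟨_, by rw [u_eq, Scheme.Hom.comp_apply]⟩

lemma c₁_mem_u (h : A[X]) (x : Spec (.of A[X])) :
    L.c₁ x ∈ Set.range (L.u h) ↔ h ∉ x.asIdeal := by
  rw [← mem_range_away (S := Localization.Away h), u_eq]
  exact exists_congr fun y => by
    rw [Scheme.Hom.comp_apply, L.c₁.isOpenEmbedding.injective.eq_iff]

lemma pt1_mem_u (h : A[X]) (φ : A →+* C) (a : C) (x : Spec (.of C)) :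
    L.pnt (Spec.map (CommRingCat.ofHom φ)) (pt1 a) x ∈ Set.range (L.u h) ↔
      eval₂ φ a h ∉ x.asIdeal := by
  rw [pnt_pt1, Scheme.Hom.comp_apply, c₁_mem_u]
  rfl

lemma pt1_range_u (h : A[X]) (φ : A →+* C) (a : C) :
    Set.range (L.pnt (Spec.map (CommRingCat.ofHom φ)) (pt1 a)) ⊆ Set.range (L.u h) ↔
      IsUnit (eval₂ φ a h) := by
  rw [isUnit_iff_forall, Set.range_subset_iff]
  exact forall_congr' (L.pt1_mem_u h φ a)

lemma pt2_mem_c₁ (t : Spec (.of C) ⟶ Spec (.of A)) (b : C) (x : Spec (.of C)) :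
    L.pnt t (pt2 b) x ∈ Set.range L.c₁ ↔ b ∉ x.asIdeal := by
  rw [mem_c₁, q_pnt, pt2_mem₁]

lemma pt1_mem_c₂ (t : Spec (.of C) ⟶ Spec (.of A)) (a : C) (x : Spec (.of C)) :
    L.pnt t (pt1 a) x ∈ Set.range L.c₂ ↔ a ∉ x.asIdeal := by
  rw [mem_c₂, q_pnt, pt1_mem₂]

lemma pt2_zero_notMem_u (h : A[X]) (t : Spec (.of C) ⟶ Spec (.of A)) (x : Spec (.of C)) :
    L.pnt t (pt2 (0 : C)) x ∉ Set.range (L.u h) := fun hx =>
  (L.pt2_mem_c₁ t 0 x).1 (L.range_u_subset h hx) (zero_mem _)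

end charts

end PL

end Pool.Agent.MP_855f4c_ag.E

end

section

namespace Pool.Agent.MP_855f4c_ag.E.Planch

open Finset

variable {k : Type*} [Field k] [Fintype k] [DecidableEq k]

/-- Orthogonality of the translates of a nontrivial multiplicative character. -/
theorem orth (χ : MulChar k ℂ) (hχ : χ ≠ 1) (x y : k) :
    ∑ t, χ (t - x) * (starRingEnd ℂ) (χ (t - y))
      = (if x = y then (Fintype.card k : ℂ) else 0) - 1 := by
  have hc : ∀ a : k, (starRingEnd ℂ) (χ a) = χ⁻¹ a := fun a => MulChar.star_apply' χ a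
  simp only [hc]
  split_ifs with h
  · subst h
    have e : ∀ t : k, χ (t - x) * χ⁻¹ (t - x) = (1 : MulChar k ℂ) (t - x) := by
      intro t; rw [← MulChar.mul_apply, mul_inv_cancel]
    simp only [e]
    rw [← Equiv.sum_comp (Equiv.addRight x)]
    simp only [Equiv.coe_addRight, add_sub_cancel_right]
    rw [MulChar.sum_one_eq_card_units, Fintype.card_units]
    rw [Nat.cast_sub Fintype.card_pos, Nat.cast_one]
  · have hd : x - y ≠ 0 := sub_ne_zero.2 h
    rw [← Equiv.sum_comp ((Equiv.mulLeft₀ (x - y) hd).trans (Equiv.addRight y))]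
    have e : ∀ u : k, χ ((x - y) * u + y - x) * χ⁻¹ ((x - y) * u + y - y)
        = χ (-1) * (χ⁻¹ u * χ (1 - u)) := by
      intro u
      have e1 : (x - y) * u + y - x = (x - y) * (-1 * (1 - u)) := by ring
      have e2 : χ (x - y) * χ⁻¹ (x - y) = 1 := by
        rw [← MulChar.mul_apply, mul_inv_cancel, MulChar.one_apply (IsUnit.mk0 _ hd)]
      rw [e1, add_sub_cancel_right, map_mul, map_mul, map_mul]
      linear_combination (χ (-1) * (χ⁻¹ u * χ (1 - u))) * e2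
    simp only [Equiv.trans_apply, Equiv.mulLeft₀_apply, Equiv.coe_addRight, e]
    rw [← Finset.mul_sum]
    have hj := jacobiSum_nontrivial_inv hχ
    rw [jacobiSum_comm, jacobiSum] at hj
    rw [hj, mul_neg, ← map_mul]
    simp

/-- Plancherel identity for the convolution with `χ`. -/
theorem planch (χ : MulChar k ℂ) (hχ : χ ≠ 1) (f : k → ℂ) :
    ∑ t, ‖∑ x, f x * χ (t - x)‖ ^ 2
      = Fintype.card k * ∑ x, ‖f x‖ ^ 2 - ‖∑ x, f x‖ ^ 2 := by
  have hn : ∀ z : ℂ, ((‖z‖ ^ 2 : ℝ) : ℂ) = z * (starRingEnd ℂ) z := by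
    intro z; rw [Complex.mul_conj, Complex.normSq_eq_norm_sq]
  apply Complex.ofReal_injective
  rw [Complex.ofReal_sub, Complex.ofReal_mul, Complex.ofReal_sum, Complex.ofReal_sum, hn]
  simp only [hn, map_sum, map_mul, Finset.sum_mul_sum]
  rw [Finset.sum_comm, Finset.mul_sum, ← Finset.sum_sub_distrib]
  refine Finset.sum_congr rfl fun x _ => ?_
  rw [Finset.sum_comm]
  have e : ∀ y, ∑ t, f x * χ (t - x) * ((starRingEnd ℂ) (f y) * (starRingEnd ℂ) (χ (t - y)))
      = (if x = y then (Fintype.card k : ℂ) * (f x * (starRingEnd ℂ) (f y)) else 0)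
        - f x * (starRingEnd ℂ) (f y) := by
    intro y
    have : ∀ t, f x * χ (t - x) * ((starRingEnd ℂ) (f y) * (starRingEnd ℂ) (χ (t - y)))
        = f x * (starRingEnd ℂ) (f y) * (χ (t - x) * (starRingEnd ℂ) (χ (t - y))) :=
      fun t => by ring
    simp only [this]
    rw [← Finset.mul_sum, orth χ hχ]
    split_ifs <;> ring
  simp only [e]
  rw [Finset.sum_sub_distrib, Finset.sum_ite_eq]
  simp

/-- L2 bound for the kernel `χ (1 - s x)` over any set of nonzero parameters `s`. -/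
theorem planch_le (χ : MulChar k ℂ) (hχ : χ ≠ 1) (f : k → ℂ) (W : Finset k) (hW : 0 ∉ W) :
    ∑ s ∈ W, ‖∑ x, f x * χ (1 - s * x)‖ ^ 2 ≤ Fintype.card k * ∑ x, ‖f x‖ ^ 2 := by
  have e : ∀ s ∈ W, ‖∑ x, f x * χ (1 - s * x)‖ ^ 2 = ‖∑ x, f x * χ (s⁻¹ - x)‖ ^ 2 := by
    intro s hs
    have hs0 : s ≠ 0 := fun h => hW (h ▸ hs)
    have e1 : ∑ x, f x * χ (1 - s * x) = χ s * ∑ x, f x * χ (s⁻¹ - x) := by
      rw [Finset.mul_sum]
      refine Finset.sum_congr rfl fun x _ => ?_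
      have : 1 - s * x = s * (s⁻¹ - x) := by field_simp
      rw [this, map_mul]; ring
    have e2 : ‖χ s‖ = 1 := by
      have h1 : χ s ^ (Fintype.card k - 1) = 1 := by
        rw [← map_pow, FiniteField.pow_card_sub_one_eq_one s hs0, map_one]
      exact Complex.norm_eq_one_of_pow_eq_one h1 (Nat.sub_ne_zero_of_lt Fintype.one_lt_card)
    rw [e1, norm_mul, e2, one_mul]
  rw [Finset.sum_congr rfl e]
  calc ∑ s ∈ W, ‖∑ x, f x * χ (s⁻¹ - x)‖ ^ 2
      ≤ ∑ s, ‖∑ x, f x * χ (s⁻¹ - x)‖ ^ 2 :=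
        Finset.sum_le_sum_of_subset_of_nonneg (Finset.subset_univ _) fun _ _ _ => by positivity
    _ = ∑ t, ‖∑ x, f x * χ (t - x)‖ ^ 2 :=
        Equiv.sum_comp (Equiv.inv k) fun t => ‖∑ x, f x * χ (t - x)‖ ^ 2
    _ ≤ _ := by rw [planch χ hχ]; exact sub_le_self _ (by positivity)

end Pool.Agent.MP_855f4c_ag.E.Planch

end
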