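import Pool.Agent.MP_855f4c_ag.EC.Sa
import Pool.Agent.MP_855f4c_ag.EC.Pa
import Pool.Agent.MP_855f4c_ag.EC.F1a
import Pool.Agent.MP_855f4c_ag.EC.E4a
import Pool.Agent.MP_855f4c_ag.EC.F2b

section

set_option backward.isDefEq.respectTransparency false

open CategoryTheory Limits Abelian Opposite AlgebraicGeometry Polynomial

namespace Pool.Agent.MP_855f4c_ag.E

open E3 E4

variable {X Y S : Scheme.{0}}

/-- Sections. -/
abbrev sec (F : Sh (Scheme.etaleTopology.over X)) (T : Over X) : Type 1 := F.obj.obj (op T)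

/-- Restriction of sections. -/
abbrev rsec {T' T : Over X} (g : T' ⟶ T) (F : Sh (Scheme.etaleTopology.over X)) : sec F T →+ sec F T' :=
  (F.obj.map g.op).hom

/-- `X` over itself. -/
abbrev top (X : Scheme.{0}) : Over X := Over.mk (𝟙 X)

/-- `F ↦ (T ↦ H^q(T,F))`; `(HPF q).obj F` is `HP F q`. -/
noncomputable def HPF (q : ℕ) : Sh (Scheme.etaleTopology.over X) ⥤ PSh X :=
  (extFunctor q).flip ⋙ (Functor.whiskeringLeft _ _ _).obj (fr (Scheme.etaleTopology.over X)).op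

/-- `R^q f_*`. -/
noncomputable def Rq (f : X ⟶ Y) (q : ℕ) : Sh (Scheme.etaleTopology.over X) ⥤ Sh (Scheme.etaleTopology.over Y) :=
  HPF q ⋙ (Functor.whiskeringLeft _ _ _).obj (Over.pullback f).op ⋙
    presheafToSheaf (Scheme.etaleTopology.over Y) Ab.{1}

/-- The fibre `X_t` as an object over `X`. -/
noncomputable abbrev fbr (f : X ⟶ Y) {T : Scheme.{0}} (t : T ⟶ Y) : Over X :=
  (Over.pullback f).obj (Over.mk t)

/-- The action of `ψ` on the cohomology of the fibre. -/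
noncomputable abbrev Hact (f : X ⟶ Y) (F : Sh (Scheme.etaleTopology.over X)) (q : ℕ) {k : Type} [CommRing k]
    {t : Spec (.of k) ⟶ Y} (ψ : k →+* k) (h : Spec.map (CommRingCat.ofHom ψ) ≫ t = t) :
    H (fbr f t) F q →+ H (fbr f t) F q := res ((Over.pullback f).map (sph ψ h)) F q

/-- `F` vanishes at the geometric points outside `U`. -/
def Van (l : ℕ) (U : Set X) (F : Sh (Scheme.etaleTopology.over X)) : Prop :=
  ∀ (k : Type) [Field k] [IsAlgClosed k] (x : Spec (.of k) ⟶ X), (l : k) ≠ 0 → (∀ z, x z ∉ U) →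
    ∀ s : sec F (Over.mk x), s = 0

/-- Cofinite stalks. -/
def CofS (l : ℕ) (F : Sh (Scheme.etaleTopology.over X)) : Prop :=
  ∀ (k : Type) [Field k] [IsAlgClosed k] (x : Spec (.of k) ⟶ X), (l : k) ≠ 0 →
    Cof l (sec F (Over.mk x))

/-- Lisse with cofinite stalks. -/
def Lcf (l : ℕ) (F : Sh (Scheme.etaleTopology.over X)) : Prop := Tc l F ∧ Lis l F.obj (top X) ∧ CofS l F

/-- Extension by zero of a lisse cofinite sheaf on `h ≠ 0` to the projective line. -/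
def Gd (l : ℕ) {A : Type} [CommRing A] (L : PL (Spec (.of A))) (h : A[X]) (F : Sh (Scheme.etaleTopology.over L.P)) :
    Prop :=
  Tc l F ∧ CofS l F ∧ Lis l F.obj (Over.mk (L.u h)) ∧ Van l (Set.range (L.u h)) F

/-- `ψ` is a geometric Frobenius of the point `x`, relative to `Q`. -/
structure Fr (l : ℕ) {k : Type} [Field k] (x : Spec (.of k) ⟶ X) (Q : ℕ) (ψ : k →+* k) : Prop where
  ne : (l : k) ≠ 0
  lt : 1 < Q
  pow : ∀ z, ψ z ^ Q = z
  alg : ∀ z : k, ∃ n, 0 < n ∧ z ^ Q ^ n = z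
  fix : Spec.map (CommRingCat.ofHom ψ) ≫ x = x

section
variable (l : ℕ) [Fact l.Prime]

/-- Rational Frobenius traces. -/
def RatT (F : Sh (Scheme.etaleTopology.over X)) : Prop :=
  ∀ (k : Type) [Field k] [IsAlgClosed k] (x : Spec (.of k) ⟶ X) (Q : ℕ) (ψ : k →+* k)
    (h : Fr l x Q ψ), ∃ r : ℚ, tr l (rsec (sph ψ h.fix) F) = r

/-- Lisse, cofinite, with rational Frobenius traces. -/
def RatS (F : Sh (Scheme.etaleTopology.over X)) : Prop := Lcf l F ∧ RatT l F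

/-- The class generated by `RatS` under subobjects, quotients and extensions. -/
inductive Cl : Sh (Scheme.etaleTopology.over X) → Prop
  | rat {F} : RatS l F → Cl F
  | ext (S : ShortComplex (Sh (Scheme.etaleTopology.over X))) : S.Exact → Cl S.X₁ → Cl S.X₃ → Lcf l S.X₂ → Cl S.X₂

/-- Weights at most `w`. -/
def Wt (w : ℕ) (F : Sh (Scheme.etaleTopology.over X)) : Prop :=
  ∀ (k : Type) [Field k] [IsAlgClosed k] (x : Spec (.of k) ⟶ X) (Q : ℕ) (ψ : k →+* k)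
    (h : Fr l x Q ψ) (j : ℚ_[l] →+* ℂ), Ev j (Set.Iic ((Q : ℝ) ^ w)) (rsec (sph ψ h.fix) F)

/-- The constant sheaf `ℚ_l / ℤ_l`. -/
noncomputable def Linf (X : Scheme.{0}) : Sh (Scheme.etaleTopology.over X) := (con X).obj (.of (QZ l))

/-- Roots of unity of `l`-power order. -/
abbrev MuI (k : Type) [Field k] : Type := Additive (CommGroup.primaryComponent kˣ l)

/-- The action of a field map on them. -/
noncomputable def MuI.map {k k' : Type} [Field k] [Field k'] (g : k →+* k') : MuI l k →+ MuI l k' :=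
  MonoidHom.toAdditive (((Units.map (g : k →* k')).comp (Subgroup.subtype _)).codRestrict _
    fun x => x.2.imp fun n hn => by
      rw [MonoidHom.comp_apply, ← map_pow]
      exact (congrArg _ hn).trans (map_one _))

end

/-- Generically, uniformly in `l ∈ LL`, in the class `Cl` with weights at most `w`. -/
def Good (LL : Set ℕ) (w : ℕ) (F : ∀ (l : ℕ) [Fact l.Prime], Sh (Scheme.etaleTopology.over X)) : Prop :=
  (∀ (l : ℕ) [Fact l.Prime], l ∈ LL → Tc l (F l)) ∧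
  ∀ (A₀ Ω : Type) [CommRing A₀] [Algebra.FiniteType ℤ A₀] [Field Ω] [IsAlgClosed Ω] [CharZero Ω]
    [Algebra A₀ Ω] (a : Spec (.of A₀) ⟶ X), ∃ A : Subalgebra A₀ Ω, A.FG ∧
      ∀ (l : ℕ) [Fact l.Prime], l ∈ LL → ∀ (B : Type) [CommRing B] (β : A →+* B), IsUnit (l : B) →
        Cl l ((pb (Spec.map (CommRingCat.ofHom (β.comp (algebraMap A₀ A))) ≫ a)).obj (F l)) ∧
        Wt l w ((pb (Spec.map (CommRingCat.ofHom (β.comp (algebraMap A₀ A))) ≫ a)).obj (F l))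

end Pool.Agent.MP_855f4c_ag.E

end

section

set_option backward.isDefEq.respectTransparency false

open CategoryTheory Limits Abelian Opposite AlgebraicGeometry Polynomial

namespace Pool.Agent.MP_855f4c_ag.E

open E3 E4

/-- `Spec` of a ring map. -/
noncomputable abbrev spc {A B : Type} [CommRing A] [CommRing B] (φ : A →+* B) :
    Spec (.of B) ⟶ Spec (.of A) := Spec.map (CommRingCat.ofHom φ)

/-- Normal, finitely generated and integral over an affine space over `ℤ[1/N]`. -/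
structure Nice (A : Type) [CommRing A] : Prop where
  dom : IsDomain A
  nor : IsIntegrallyClosed A
  ft : Algebra.FiniteType ℤ A
  int : ∃ (n N : ℕ) (φ : MvPolynomial (Fin n) (Localization.Away (N : ℤ)) →+* A),
    N ≠ 0 ∧ Function.Injective φ ∧
      RingHom.IsIntegral (R := MvPolynomial (Fin n) (Localization.Away (N : ℤ))) φ

/-- The open part `h ≠ 0` of the fibre of the projective line at `τ`. -/
noncomputable abbrev uk {A k : Type} [CommRing A] [CommRing k] (L : PL (Spec (.of A)))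
    (τ : A →+* k) (B : Type) [CommRing B] [Algebra k[X] B] : Spec (.of B) ⟶ L.P :=
  L.pnt (spc ((algebraMap k[X] B).comp (C.comp τ))) (pt1 (algebraMap k[X] B X))

/-- Continuous unramified cocycles with values in `Hom(M, μ)`. -/
def Z1 (l : ℕ) [Fact l.Prime] {B Ω : Type} [CommRing B] [Field Ω] [Algebra B Ω] {M : Type 1}
    [AddCommGroup M] (ρ : (Ω ≃ₐ[B] Ω) →* AddMonoid.End M) :
    AddSubgroup ((Ω ≃ₐ[B] Ω) → M →+ MuI l Ω) where
  carrier := {c | (∀ σ τ m, c (σ * τ) m = c σ m + c τ (ρ σ⁻¹ m)) ∧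
    ∀ m, (Opn fun σ => c σ m = 0) ∧ Unr fun σ => c σ m = 0}
  zero_mem' := ⟨fun _ _ _ => (add_zero _).symm, fun _ => ⟨⟨∅, fun _ _ => rfl⟩, fun _ _ _ _ => rfl⟩⟩
  add_mem' := by
    classical
    rintro a b ⟨ha, ha'⟩ ⟨hb, hb'⟩
    refine ⟨fun σ τ m => ?_, fun m => ⟨?_, fun p _ g hg => ?_⟩⟩
    · simp only [Pi.add_apply, AddMonoidHom.add_apply, ha, hb]; abel
    · obtain ⟨E, hE⟩ := (ha' m).1
      obtain ⟨E', hE'⟩ := (hb' m).1
      refine ⟨E ∪ E', fun g hg => ?_⟩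
      simp only [Pi.add_apply, AddMonoidHom.add_apply,
        hE g fun e he => hg e (Finset.mem_union_left _ he),
        hE' g fun e he => hg e (Finset.mem_union_right _ he), add_zero]
    · simp only [Pi.add_apply, AddMonoidHom.add_apply, (ha' m).2 p g hg, (hb' m).2 p g hg, add_zero]
  neg_mem' := by
    rintro a ⟨ha, ha'⟩
    refine ⟨fun σ τ m => ?_, fun m => ⟨(ha' m).1.imp fun E hE g hg => ?_, fun p _ g hg => ?_⟩⟩
    · simp only [Pi.neg_apply, AddMonoidHom.neg_apply, ha]; abel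
    · simp only [Pi.neg_apply, AddMonoidHom.neg_apply, hE g hg, neg_zero]
    · simp only [Pi.neg_apply, AddMonoidHom.neg_apply, (ha' m).2 p g hg, neg_zero]

/-! Section P (36). -/

def PBC_s : Prop := ∀ (l : ℕ) [Fact l.Prime] (S : Scheme.{0}) (L : PL S) (F : Sh (Scheme.etaleTopology.over L.P)) (q : ℕ),
  Tc l F → Tc l ((Rq L.π q).obj F)

def AFFV_s : Prop := ∀ (l : ℕ) [Fact l.Prime] (X : Scheme.{0}) (R : Type) [CommRing R]
  (t : Spec (.of R) ⟶ X), Aic R → IsUnit (l : R) →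
    ∀ (q : ℕ) (x : H (Over.mk t) ((con X).obj (.of (ZMod l))) (q + 1)), x = 0

/-! Section C (21); the statements with `mu` are in the file of section C. -/

def CD3_s : Prop := ∀ (l : ℕ) [Fact l.Prime] (S : Scheme.{0}) (L : PL S) (F : Sh (Scheme.etaleTopology.over L.P)),
  Tc l F → ∀ (k : Type) [Field k] [IsAlgClosed k] (t : Spec (.of k) ⟶ S), (l : k) ≠ 0 →
    ∀ (q : ℕ) (x : H (fbr L.π t) F (q + 3)), x = 0

def GZ_s : Prop := ∀ (l : ℕ) [Fact l.Prime] (S : Scheme.{0}) (L : PL S) (F : Sh (Scheme.etaleTopology.over L.P)),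
  Tc l F → ∀ (k : Type) [Field k] [IsAlgClosed k] (t : Spec (.of k) ⟶ S), (l : k) ≠ 0 →
    (∀ (Ω : Type) [Field Ω] [IsAlgClosed Ω] [Algebra k Ω] (x : Ω), Transcendental k x →
      ∀ s : sec F (Over.mk (L.pnt (spc (algebraMap k Ω) ≫ t) (pt1 x))), s = 0) →
    ∀ (q : ℕ) (x : H (fbr L.π t) F (q + 1)), x = 0

def GdCof_s : Prop := ∀ (l : ℕ) [Fact l.Prime] (A : Type) [CommRing A] (L : PL (Spec (.of A)))
  (h : A[X]) (F : Sh (Scheme.etaleTopology.over L.P)), IsUnit h.leadingCoeff → Gd l L h F →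
    ∀ (k : Type) [Field k] [IsAlgClosed k] (t : Spec (.of k) ⟶ Spec (.of A)), (l : k) ≠ 0 →
      (∀ x : H (fbr L.π t) F 0, x = 0) ∧ ∀ b, Cof l (H (fbr L.π t) F b)

/-! Section S (12). -/

def LA_s : Prop := ∀ (l : ℕ) [Fact l.Prime] (X : Scheme.{0}) (C O O' : Type) [CommRing C]
  [IsDomain C] [CommRing O] [CommRing O'] [Algebra C O] [Algebra C[X] O] [IsScalarTower C C[X] O]
  [Algebra O O'] [IsLocalization (Algebra.algebraMapSubmonoid O (nonZeroDivisors C)) O']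
  (t : Spec (.of O) ⟶ X) (M : Ab.{1}), Aic C → IsUnit (l : C) → IndEt C[X] O →
    (∀ m : M, ∃ n : ℕ, l ^ n • m = 0) → ∀ q,
      Function.Bijective (res (sph (algebraMap O O') (a := t) rfl) ((cst X).obj M) q)

def DEG_s : Prop := ∀ (l : ℕ) [Fact l.Prime] (A : Type) [CommRing A] (L : PL (Spec (.of A)))
  (h : A[X]) (F : Sh (Scheme.etaleTopology.over L.P)), IsUnit h.leadingCoeff → Gd l L h F →
    ∀ (C K : Type) [CommRing C] [IsDomain C] [IsLocalRing C] [Field K] [Algebra C K]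
      [IsFractionRing C K] (a : Spec (.of C) ⟶ Spec (.of A)) (b : Spec (.of K) ⟶ Spec (.of A))
      (e : spc (algebraMap C K) ≫ a = b), Aic C → IsUnit (l : C) →
      Function.Injective (res ((Over.pullback L.π).map (sph (algebraMap C K) e)) F 1)

def GL_s : Prop := ∀ (l : ℕ) [Fact l.Prime] (A : Type) [CommRing A] (L : PL (Spec (.of A)))
  (m : ℕ) (a : Fin m → A) (F : Sh (Scheme.etaleTopology.over L.P)), Nice A → IsUnit (l : A) →
    (∀ i j, i ≠ j → IsUnit (a i - a j)) → Gd l L (∏ i, (X - C (a i))) F →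
    ∀ b, Lis l ((Rq L.π b).obj F).obj (top _)

/-! Section D (13). -/

def DU2_s : Prop := ∀ (l : ℕ) [Fact l.Prime] (A : Type) [CommRing A] (L : PL (Spec (.of A)))
  (h : A[X]) (F : Sh (Scheme.etaleTopology.over L.P)), IsUnit h.leadingCoeff → Gd l L h F →
    ∀ (k B Ω : Type) [Field k] [IsAlgClosed k] (τ : A →+* k) [CommRing B] [Algebra k[X] B]
      [IsLocalization.Away (h.map τ) B] [Field Ω] [IsAlgClosed Ω] [Algebra B Ω] [FaithfulSMul B Ω]
      [Algebra.IsAlgebraic B Ω], (l : k) ≠ 0 →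
      ∃ e : (H (fbr L.π (spc τ)) F 2 →+ QZ l) →+ sec F (ob (uk L τ B) Ω) →+ MuI l Ω,
        Function.Injective e ∧
        (∀ a, a ∈ e.range ↔ ∀ σ m, a (E4.gal (uk L τ B) Ω F.obj σ m) = a m) ∧
        ∀ (g : Ω ≃+* Ω) (hg : spc (g : Ω →+* Ω) ≫ (ob (uk L τ B) Ω).hom = (ob (uk L τ B) Ω).hom)
          (ψ : k →+* k) (hψ : spc ψ ≫ spc τ = spc τ), Function.Bijective ψ →
          (∀ c, g (algebraMap B Ω (algebraMap k[X] B (C c))) =
            algebraMap B Ω (algebraMap k[X] B (C (ψ c)))) →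
          ∀ f m, MuI.map l (g : Ω →+* Ω) (e (f.comp (Hact L.π F 2 ψ hψ)) m) =
            e f (rsec (sph (g : Ω →+* Ω) hg) F m)

def DU1_s : Prop := ∀ (l : ℕ) [Fact l.Prime] (A : Type) [CommRing A] (L : PL (Spec (.of A)))
  (h : A[X]) (F : Sh (Scheme.etaleTopology.over L.P)), IsUnit h.leadingCoeff → Gd l L h F →
    ∀ (k B Ω : Type) [Field k] [IsAlgClosed k] (τ : A →+* k) [CommRing B] [Algebra k[X] B]
      [IsLocalization.Away (h.map τ) B] [Field Ω] [IsAlgClosed Ω] [Algebra B Ω] [FaithfulSMul B Ω]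
      [Algebra.IsAlgebraic B Ω], (l : k) ≠ 0 →
      ∃ e : Z1 l (E4.gal (uk L τ B) Ω F.obj) →+ H (fbr L.π (spc τ)) F 1 →+ QZ l,
        Function.Surjective e ∧
        (∀ c, e c = 0 ↔ ∃ a : sec F (ob (uk L τ B) Ω) →+ MuI l Ω,
          ∀ σ m, c.1 σ m = a (E4.gal (uk L τ B) Ω F.obj σ⁻¹ m) - a m) ∧
        ∀ (g : Ω ≃+* Ω) (hg : spc (g : Ω →+* Ω) ≫ (ob (uk L τ B) Ω).hom = (ob (uk L τ B) Ω).hom)
          (ψ : k →+* k) (hψ : spc ψ ≫ spc τ = spc τ), Function.Bijective ψ →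
          (∀ c, g (algebraMap B Ω (algebraMap k[X] B (C c))) =
            algebraMap B Ω (algebraMap k[X] B (C (ψ c)))) →
          ∀ c c', (∀ σ σ' : Ω ≃ₐ[B] Ω, (∀ z, σ' (g z) = g (σ z)) → ∀ m,
              MuI.map l (g : Ω →+* Ω) (c'.1 σ m) = c.1 σ' (rsec (sph (g : Ω →+* Ω) hg) F m)) →
            e c' = (e c).comp (Hact L.π F 1 ψ hψ)

def DW_s : Prop := ∀ (R Ω : Type) [CommRing R] [Algebra.FiniteType ℤ R] [Field Ω] [IsAlgClosed Ω]
  [CharZero Ω] (τ : R →+* Ω) (X : Scheme.{0}) (f : X ⟶ Spec (.of R)) [Smooth f] [IsProper f],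
    ∃ E : Finset Ω, ∀ (l : ℕ) [Fact l.Prime] (ψ : Ω ≃+* Ω)
      (hψ : spc (ψ : Ω →+* Ω) ≫ spc τ = spc τ) (Q : ℕ) (j : ℚ_[l] →+* ℂ), (∀ e ∈ E, ψ e = e) →
      0 < Q → (∀ (ζ : Ω) (n : ℕ), ζ ^ l ^ n = 1 → ψ ζ ^ Q = ζ) →
      (∀ i, Cof l (H (fbr f (spc τ)) (Linf l X) i)) →
      (∀ i, Ev j (Set.Iic ((Q : ℝ) ^ i)) (Hact f (Linf l X) i (ψ : Ω →+* Ω) hψ)) →
      ∀ i, Ev j {(Q : ℝ) ^ i} (Hact f (Linf l X) i (ψ : Ω →+* Ω) hψ)

/-! Section W (2). -/

def TF_s : Prop := ∀ (l : ℕ) [Fact l.Prime] (A : Type) [CommRing A] (L : PL (Spec (.of A)))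
  (h : A[X]) (a : A) (F : Sh (Scheme.etaleTopology.over L.P)), IsUnit h.leadingCoeff → h.eval a = 0 → Gd l L h F →
    ∀ (k : Type) [Field k] [IsAlgClosed k] (t : Spec (.of k) ⟶ Spec (.of A)) (Q : ℕ) (ψ : k →+* k)
      (hψ : Fr l t Q ψ),
      ∑ᶠ x : {x : Spec (.of k) ⟶ L.P // x ≫ L.π = t ∧ spc ψ ≫ x = x},
        tr l (rsec (sph ψ x.2.2) F) = tr l (Hact L.π F 2 ψ hψ.fix) - tr l (Hact L.π F 1 ψ hψ.fix)

def CT_s : Prop := ∀ (l : ℕ) [Fact l.Prime] (A : Type) [CommRing A] (L : PL (Spec (.of A)))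
  (h : A[X]) (a : A) (F F₁ F' : Sh (Scheme.etaleTopology.over L.P)) (i : F₁ ⟶ F') (p : F₁ ⟶ F) [Mono i] [Epi p] (w : ℕ),
    IsUnit h.leadingCoeff → h.eval a = 0 → Gd l L h F → Gd l L h F₁ → Gd l L h F' → RatT l F' →
    Wt l w F → ∀ (k : Type) [Field k] [IsAlgClosed k] (t : Spec (.of k) ⟶ Spec (.of A)) (Q : ℕ)
      (ψ : k →+* k) (hψ : Fr l t Q ψ) (j : ℚ_[l] →+* ℂ),
      Ev j (Set.Iic ((Q : ℝ) ^ (w + 1))) (Hact L.π F 1 ψ hψ.fix)

/-! Section U (69). -/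

def PBCX_s : Prop := ∀ (l : ℕ) [Fact l.Prime] (R : Type) [CommRing R] [IsNoetherianRing R]
  (X₀ X T : Scheme.{0}) (f₀ : X₀ ⟶ Spec (.of R)) [IsProper f₀] (f : X ⟶ T) (a : X ⟶ X₀)
  (b : T ⟶ Spec (.of R)), IsPullback a f f₀ b → ∀ (F : Sh (Scheme.etaleTopology.over X)) (q : ℕ), Tc l F →
    Tc l ((Rq f q).obj F)

def GX_s : Prop := ∀ (LL : Set ℕ) (R : Type) [CommRing R] [Algebra.FiniteType ℤ R] (X : Scheme.{0})
  (f : X ⟶ Spec (.of R)) [IsProper f] (w n : ℕ) (F : ∀ (l : ℕ) [Fact l.Prime], Sh (Scheme.etaleTopology.over X)),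
    Good LL w F → Good LL (w + n) fun l _ => (Rq f n).obj (F l)

def CDX_s : Prop := ∀ (R : Type) [CommRing R] [IsNoetherianRing R] (X : Scheme.{0})
  (f : X ⟶ Spec (.of R)) [IsProper f], ∃ N : ℕ, ∀ (l : ℕ) [Fact l.Prime] (F : Sh (Scheme.etaleTopology.over X)),
    Tc l F → ∀ (k : Type) [Field k] [IsAlgClosed k] (t : Spec (.of k) ⟶ Spec (.of R)),
      (l : k) ≠ 0 → ∀ q, N ≤ q → ∀ x : H (fbr f t) F q, x = 0

def G0_s : Prop := ∀ (LL : Set ℕ) (X : Scheme.{0}), Good LL 0 fun l _ => Linf l X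

/-! Section Z (50). -/

open LP in
def Main_s : Prop := ∀ (R : Type) [CommRing R] [Algebra.FiniteType ℤ R] (X : Scheme.{0})
  (f : X ⟶ Spec (.of R)) [Smooth f] [IsProper f],
    ∃ M : ℕ, M ≠ 0 ∧ ∀ (p l : ℕ) [Fact p.Prime] [Fact l.Prime], ¬ p ∣ M → l ≠ p →
      ∀ [Algebra R (PadicAlgCl p)] (i : ℕ) (φ u : PadicAlgCl p ≃ₐ[R] PadicAlgCl p) (Q : ℕ), 1 < Q →
        Frob ℤ_[p] Q φ → Frob ℤ_[p] 1 u →
        (∃ (n : ℕ) (r : PadicAlgCl p) (o : ℤ_[p]), r ^ l ^ n = algebraMap _ _ o ∧ u r ≠ r) →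
        Mw Q i (E.gal f l i φ) (E.gal f l i u)

end Pool.Agent.MP_855f4c_ag.E

end

section

namespace Pool.Agent.MP_855f4c_ag.E

variable {l : ℕ} [Fact l.Prime]

/-- The roots of unity of `l`-power order of an algebraically closed field. -/
theorem exMu (Ω : Type) [Field Ω] [IsAlgClosed Ω] (hl : (l : Ω) ≠ 0) :
    Nonempty (Additive (CommGroup.primaryComponent Ωˣ l) ≃+ QZ l) := by
  have hp : l.Prime := Fact.out
  have : NeZero (l : Ω) := ⟨hl⟩
  obtain ⟨ζ, hζ⟩ := HasEnoughRootsOfUnity.exists_primitiveRoot Ω l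
  choose r hr using fun z : Ω => IsAlgClosed.exists_pow_nat_eq z hp.pos
  let z : ℕ → Ω := fun n => Nat.casesOn n 1 fun n => r^[n] ζ
  have h1 : ∀ n, z (n + 1) ^ l = z n := by
    rintro (_ | n)
    · exact hζ.pow_eq_one
    · show r^[n + 1] ζ ^ l = r^[n] ζ
      rw [Function.iterate_succ_apply', hr]
  have h2 : ∀ n, r^[n] ζ ^ l ^ n = ζ := fun n => by
    induction n with
    | zero => simp
    | succ n ih => rw [Function.iterate_succ_apply', pow_succ', pow_mul, hr, ih]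
  have h3 : ∀ n, IsPrimitiveRoot (z n) (l ^ n) := by
    rintro (_ | n)
    · exact IsPrimitiveRoot.one
    · have := orderOf_eq_prime_pow (x := r^[n] ζ) (p := l) (n := n)
        (by rw [h2]; exact hζ.ne_one hp.one_lt) (by rw [pow_succ, pow_mul, h2, hζ.pow_eq_one])
      exact this ▸ IsPrimitiveRoot.orderOf _
  have h4 : ∀ n, IsUnit (z n) := fun n => (h3 n).isUnit (pow_ne_zero n hp.ne_zero)
  have h5 : ∀ n, IsPrimitiveRoot (h4 n).unit (l ^ n) := fun n =>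
    IsPrimitiveRoot.coe_units_iff.1 (h3 n)
  let y : ℕ → Additive (CommGroup.primaryComponent Ωˣ l) := fun n =>
    Additive.ofMul ⟨(h4 n).unit, n, (h5 n).pow_eq_one⟩
  obtain ⟨f, hf⟩ := exists_V (l := l) y (fun n => Subtype.ext (Units.ext (h1 n))) 0
    (Subtype.ext (Units.ext (pow_one _)))
  have h6 : f.1 1 = 0 := by
    have := hf 0
    rw [pow_zero, inv_one] at this
    exact this.trans (Subtype.ext (Units.ext rfl))
  have h7 : ∀ (a : ℤ) (n : ℕ), f.1 (a * ((l : ℚ_[l]) ^ n)⁻¹) = a • y n := fun a n => by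
    rw [← zsmul_eq_mul, map_zsmul, hf]
  let g : QZ l →+ Additive (CommGroup.primaryComponent Ωˣ l) :=
    QuotientAddGroup.lift _ (f.1 : ℚ_[l] →+ _) fun x hx => V.ev_zero h6 hx
  refine ⟨(AddEquiv.ofBijective g ⟨(injective_iff_map_eq_zero _).2 fun x hx => ?_, fun w => ?_⟩).symm⟩
  · obtain ⟨x, rfl⟩ := QuotientAddGroup.mk_surjective x
    obtain ⟨n, a, h8, -⟩ := q_appr x one_pos
    have h9 := QZ.mk_eq.2 h8.le
    rw [h9] at hx ⊢
    obtain ⟨b, rfl⟩ := ((h5 n).zpow_eq_one_iff_dvd a).1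
      (congrArg Subtype.val ((h7 a n).symm.trans hx))
    rw [QZ.mk_zero]
    push_cast
    rw [mul_comm, inv_mul_cancel_left₀ (pow_ne_zero n l_ne)]
    exact Padic.norm_int_le_one b
  · obtain ⟨n, hn⟩ := (Additive.toMul w).2
    have : NeZero (l ^ n) := ⟨pow_ne_zero n hp.ne_zero⟩
    obtain ⟨i, -, hi⟩ := (h3 n).eq_pow_of_pow_eq_one (ξ := ((Additive.toMul w).1 : Ω))
      (by rw [← Units.val_pow_eq_pow_val, hn, Units.val_one])
    refine ⟨QuotientAddGroup.mk (((i : ℤ) : ℚ_[l]) * ((l : ℚ_[l]) ^ n)⁻¹), (h7 i n).trans ?_⟩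
    rw [natCast_zsmul]
    exact Subtype.ext (Units.ext hi)

end Pool.Agent.MP_855f4c_ag.E

end
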