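import Pool.Agent.MP_855f4c_ag.EC.F2b
import Pool.Agent.MP_855f4c_ag.EC.Sa
import Pool.Agent.MP_855f4c_ag.LP.Alg
import Pool.Agent.MP_855f4c_ag.EC.Xa
import Pool.Agent.MP_855f4c_ag.WD.H
import Pool.Agent.MP_855f4c_ag.LP.Transfer

section

/-! Section Z: towers and the rational Tate module; transfer of mw purity. -/

set_option autoImplicit false

namespace Pool.Agent.MP_855f4c_ag.EZ

open E TensorProduct Polynomial

variable {l : ℕ} [Fact l.Prime]

/-- `ℚ ⊗ lim A n` is the rational Tate module. -/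
theorem tate {A : ℕ → Type 1} [∀ n, AddCommGroup (A n)] (r : ∀ n, A (n + 1) →+ A n)
    {M : Type 1} [AddCommGroup M] (ι : ∀ n, A n →+ M)
    (h0 : ∀ a, ι 0 a = 0) (h1 : ∀ n a, ι n (r n a) = l • ι (n + 1) a)
    (h2 : ∀ n m, l ^ n • m = 0 → ∃ a, ι n a = m)
    (h3 : ∀ n a, ι n a = 0 → ∃ a', ι (n + 1) a' = 0 ∧ r n a' = a)
    (c : ℕ) (h4 : ∀ n a, ι n a = 0 → l ^ c • a = 0) :
    ∃ Θ : ℚ ⊗[ℤ] tlim r ≃+ V l M, ∀ (g : ∀ n, A n →+ A n)
      (h : ∀ n x, r n (g (n + 1) x) = g n (r n x)) (γ : M →+ M),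
      (∀ n a, ι n (g n a) = γ (ι n a)) →
      ∀ y, Θ ((tmap g h).toIntLinearMap.baseChange ℚ y) = Vm l γ (Θ y) := by
  have hex : ∀ x : tlim r, ∃ f : V l M, ∀ n : ℕ, f.1 ((l : ℚ_[l]) ^ n)⁻¹ = ι n (x.1 n) :=
    fun x => exists_V _ (fun n => by rw [← h1, x.2 n]) 0 (by rw [h0, smul_zero])
  choose θ hθ using hex
  let θ' : tlim r →+ V l M := AddMonoidHom.mk' θ fun x y => V.ext_pow fun n => by
    rw [V.add_apply, hθ, hθ, hθ, ← map_add]; rfl
  let _ : Module ℚ (V l M) := Module.compHom _ (algebraMap ℚ ℚ_[l])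
  have hl : l ≠ 0 := (Fact.out : l.Prime).ne_zero
  have hsur : ∀ f : V l M, f.1 1 = 0 → ∃ x, θ x = f := fun f hf => by
    have step : ∀ n (a : {a : A n // ι n a = f.1 ((l : ℚ_[l]) ^ n)⁻¹}),
        ∃ b : {b : A (n + 1) // ι (n + 1) b = f.1 ((l : ℚ_[l]) ^ (n + 1))⁻¹}, r n b = a := by
      rintro n ⟨a, ha⟩
      obtain ⟨b, hb⟩ := h2 (n + 1) (f.1 ((l : ℚ_[l]) ^ (n + 1))⁻¹) (by
        have := V.pow_smul f (n + 1) 1
        rwa [one_mul, hf] at this)
      obtain ⟨b', e1, e2⟩ := h3 n (a - r n b) (by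
        have := V.pow_smul f 1 ((l : ℚ_[l]) ^ n)⁻¹
        rw [← mul_inv, ← pow_add, pow_one] at this
        rw [map_sub, h1, ha, hb, this, sub_self])
      exact ⟨⟨b + b', by rw [map_add, hb, e1, add_zero]⟩, by
        rw [map_add, e2, add_sub_cancel]⟩
    choose s hs using step
    let x : ∀ n, {a : A n // ι n a = f.1 ((l : ℚ_[l]) ^ n)⁻¹} := fun n =>
      Nat.rec ⟨0, by rw [map_zero, pow_zero, inv_one, hf]⟩ s n
    exact ⟨⟨fun n => (x n).1, fun n => hs n (x n)⟩, V.ext_pow fun n => (hθ _ n).trans (x n).2⟩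
  have : IsLocalizedModule (nonZeroDivisors ℤ) θ'.toIntLinearMap := by
    refine ⟨fun c => ?_, fun w => ?_, fun {a b} h => ?_⟩
    · have hc : ((c : ℤ) : ℚ_[l]) ≠ 0 := Int.cast_ne_zero.2 (nonZeroDivisors.ne_zero c.2)
      have e : ∀ w : V l M, algebraMap ℤ (Module.End ℤ (V l M)) c w = ((c : ℤ) : ℚ_[l]) • w :=
        fun w => (Int.cast_smul_eq_zsmul ℚ_[l] _ w).symm
      exact (Module.End.isUnit_iff _).2 ⟨fun a b h => smul_right_injective _ hc
        ((e a).symm.trans (h.trans (e b))),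
        fun w => ⟨((c : ℤ) : ℚ_[l])⁻¹ • w, (e _).trans (smul_inv_smul₀ hc w)⟩⟩
    · obtain ⟨k, hk⟩ := V.exists_pow w
      obtain ⟨x, hx⟩ := hsur ((l : ℚ_[l]) ^ k • w) (by rwa [V.smul_apply, one_mul])
      refine ⟨(x, ⟨l ^ k, mem_nonZeroDivisors_of_ne_zero (by positivity)⟩), ?_⟩
      change ((l : ℤ) ^ k) • w = θ x
      rw [hx, ← Int.cast_smul_eq_zsmul ℚ_[l]]
      simp
    · refine ⟨⟨l ^ c, mem_nonZeroDivisors_of_ne_zero (by positivity)⟩, ?_⟩
      change ((l : ℤ) ^ c) • a = ((l : ℤ) ^ c) • b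
      rw [← sub_eq_zero, ← smul_sub, ← Nat.cast_pow, natCast_zsmul]
      refine Subtype.ext (funext fun n => h4 n _ ?_)
      have e : θ a = θ b := h
      change ι n (a.1 n - b.1 n) = 0
      rw [map_sub, ← hθ, ← hθ, e, sub_self]
  let Θ := (IsLocalizedModule.isBaseChange (nonZeroDivisors ℤ) ℚ θ'.toIntLinearMap).equiv
  have hΘ : ∀ (q : ℚ) x, Θ (q ⊗ₜ x) = (q : ℚ_[l]) • θ x := fun q x =>
    IsBaseChange.equiv_tmul _ q x
  refine ⟨Θ.toAddEquiv, fun g h γ e y => ?_⟩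
  change Θ _ = Vm l γ (Θ y)
  induction y using TensorProduct.induction_on with
  | zero => simp
  | add x y hx hy => simp only [map_add, hx, hy]
  | tmul q x =>
    rw [LinearMap.baseChange_tmul, hΘ, hΘ, map_smul]
    congr 1
    exact V.ext_pow fun n => by rw [Vm_apply, hθ, hθ, ← e]; rfl

/-- Transfer of mw purity to a rational vector space in the next universe. -/
theorem mw_tr {W : Type 1} [AddCommGroup W] [Module ℚ W] {H : Type} [AddCommGroup H]
    [Module ℚ_[l] H] (E : W ≃+ H) {φ u : Module.End ℚ W} {φ' u' : Module.End ℚ_[l] H}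
    (h1 : ∀ v, E (φ v) = φ' (E v)) (h2 : ∀ v, E (u v) = u' (E v)) {q : ℕ} {i : ℤ}
    (h : LP.MwPure q i φ' u') : Mw q i φ u := by
  let _ : Module ℚ H := Module.compHom _ (algebraMap ℚ ℚ_[l])
  have hq : ∀ (c : ℚ) (v : W), E (c • v) = (c : ℚ_[l]) • E v := fun c v =>
    E.toAddMonoidHom.toRatLinearMap.map_smul c v
  have hp : ∀ {f : Module.End ℚ W} {f' : Module.End ℚ_[l] H}, (∀ v, E (f v) = f' (E v)) →
      ∀ (n : ℕ) v, E ((f ^ n) v) = (f' ^ n) (E v) := fun {f f'} h n => by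
    induction n with
    | zero => exact fun _ => rfl
    | succ n ih => exact fun v => by rw [pow_succ, pow_succ, Module.End.mul_apply, ih, h]; rfl
  have ha : ∀ (P : ℚ[X]) v, E (aeval φ P v) = aeval φ' (P.map (algebraMap ℚ ℚ_[l])) (E v) :=
    fun P v => by
      induction P using Polynomial.induction_on' with
      | add P Q hP hQ => simp only [map_add, Polynomial.map_add, LinearMap.add_apply, hP, hQ]
      | monomial n a =>
        rw [Polynomial.map_monomial, aeval_monomial, aeval_monomial, Module.End.mul_apply,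
          Module.End.mul_apply, Module.algebraMap_end_apply, Module.algebraMap_end_apply, hq,
          hp h1]
        rfl
  obtain ⟨m, hm, M, a1, ⟨b, a2⟩, ⟨c, a3⟩, a4, a5, a6⟩ := h
  have hN : ∀ v, E ((u ^ m - 1) v) = (u' ^ m - 1) (E v) := fun v => by
    rw [LinearMap.sub_apply, map_sub, hp h2]; rfl
  let M' : ℤ → Submodule ℚ W := fun a =>
    { (M a).toAddSubgroup.comap E.toAddMonoidHom with
      smul_mem' := fun c v hv => by
        change E (c • v) ∈ M a
        rw [hq]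
        exact (M a).smul_mem _ hv }
  have hM : ∀ a v, v ∈ M' a ↔ E v ∈ M a := fun _ _ => Iff.rfl
  refine ⟨m, hm, M', fun _ _ h _ hv => a1 h hv, ⟨b, eq_bot_iff.2 fun v hv => ?_⟩,
    ⟨c, eq_top_iff.2 fun v _ => by rw [hM, a3]; trivial⟩, fun a v hv => ?_,
    fun r => ⟨fun v hv h => ?_, fun w hw => ?_⟩, fun a => ⟨fun v hv => ?_, ?_⟩⟩
  · rw [hM, a2, Submodule.mem_bot, E.map_eq_zero_iff] at hv
    exact hv
  · rw [hM, hN]
    exact a4 a _ hv
  · rw [hM, hp hN] at h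
    exact (a5 r).1 (E v) hv h
  · obtain ⟨v, h1, h2⟩ := (a5 r).2 (E w) hw
    obtain ⟨v, rfl⟩ := E.surjective v
    exact ⟨v, h1, by rwa [hM, map_sub, hp hN]⟩
  · rw [hM, h1]
    exact (a6 a).1 _ hv
  · obtain ⟨P, p1, p2, p3⟩ := (a6 a).2
    exact ⟨P, p1, p2, fun v hv => by rw [hM, ha]; exact p3 _ hv⟩

end Pool.Agent.MP_855f4c_ag.EZ

end

section

/-! Section Z: `H^i(T, ℚ_l)` is the rational Tate module of `H^i(T, ℚ_l / ℤ_l)`. -/

set_option autoImplicit false
set_option backward.isDefEq.respectTransparency false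

namespace Pool.Agent.MP_855f4c_ag.EZ

open E CategoryTheory Limits Abelian AlgebraicGeometry

variable (l : ℕ) [Fact l.Prime]

lemma qz_zero (x : ℚ_[l]) : (x : QZ l) = 0 ↔ ‖x‖ ≤ 1 := QuotientAddGroup.eq_zero_iff x

/-- The class of `l ^ (-n)`. -/
noncomputable def qe (n : ℕ) : QZ l := (((l : ℚ_[l]) ^ n)⁻¹ : ℚ_[l])

lemma qe_smul (n : ℕ) (a : ℤ) : a • qe l n = 0 ↔ ((l ^ n : ℕ) : ℤ) ∣ a := by
  have hl : (0 : ℝ) < l := zero_lt_one.trans l_gt
  rw [qe, ← QuotientAddGroup.mk_zsmul, qz_zero, zsmul_eq_mul, norm_mul, norm_inv,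
    Padic.norm_p_pow, ← div_eq_mul_inv, div_le_one (zpow_pos hl _), Padic.norm_int_le_pow_iff_dvd,
    Nat.cast_pow]

lemma qe_succ (n : ℕ) : l • qe l (n + 1) = qe l n := by
  rw [qe, ← QuotientAddGroup.mk_nsmul, nsmul_eq_mul, pow_succ, mul_inv, mul_comm, mul_assoc,
    inv_mul_cancel₀ l_ne, mul_one, qe]

/-- The inclusion `ℤ / l ^ n → ℚ_l / ℤ_l`. -/
noncomputable def qj (n : ℕ) : ZMod (l ^ n) →+ QZ l :=
  ZMod.lift (l ^ n) ⟨zmultiplesHom _ (qe l n), (qe_smul l n _).2 dvd_rfl⟩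

lemma qj_int (n : ℕ) (a : ℤ) : qj l n a = a • qe l n := ZMod.lift_coe _ _ a

lemma qj_inj (n : ℕ) : Function.Injective (qj l n) :=
  (injective_iff_map_eq_zero _).2 fun x hx => by
    obtain ⟨a, rfl⟩ := ZMod.intCast_surjective x
    rw [qj_int, qe_smul] at hx
    exact (ZMod.intCast_zmod_eq_zero_iff_dvd _ _).2 hx

lemma qj_ex (n : ℕ) (y : QZ l) : l ^ n • y = 0 ↔ ∃ x, qj l n x = y := by
  constructor
  · intro h
    obtain ⟨y, rfl⟩ := QuotientAddGroup.mk_surjective y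
    rw [← QuotientAddGroup.mk_nsmul, qz_zero] at h
    have h0 : ‖(l : ℚ_[l]) ^ n‖ ≠ 0 := norm_ne_zero_iff.2 (pow_ne_zero n l_ne)
    obtain ⟨k, a, h1, h2⟩ := q_appr (l ^ n • y) (lt_of_le_of_ne (norm_nonneg _) h0.symm)
    obtain rfl := h2 h
    refine ⟨a, ?_⟩
    rw [qj_int, qe, ← QuotientAddGroup.mk_zsmul, eq_comm, ← sub_eq_zero,
      ← QuotientAddGroup.mk_sub, qz_zero]
    have : y - a • ((l : ℚ_[l]) ^ n)⁻¹ =
        (l ^ n • y - a * ((l : ℚ_[l]) ^ 0)⁻¹) / (l : ℚ_[l]) ^ n := by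
      rw [nsmul_eq_mul, zsmul_eq_mul]
      push_cast
      field_simp [l_ne (l := l)]
    rw [this, norm_div]
    exact div_le_one_of_le₀ h1.le (norm_nonneg _)
  · rintro ⟨x, rfl⟩
    rw [← map_nsmul, nsmul_eq_mul, ZMod.natCast_self, zero_mul, map_zero]

lemma qz_div (n : ℕ) (y : QZ l) : ∃ x, l ^ n • x = y := by
  obtain ⟨y, rfl⟩ := QuotientAddGroup.mk_surjective y
  refine ⟨(y / l ^ n : ℚ_[l]), ?_⟩
  rw [← QuotientAddGroup.mk_nsmul, nsmul_eq_mul, Nat.cast_pow,
    mul_div_cancel₀ _ (pow_ne_zero n l_ne)]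

variable (X : Scheme.{0})

instance con_add : (con X).Additive := by
  unfold con cst constantSheaf
  infer_instance

instance con_lim : PreservesFiniteLimits (con X) := by
  unfold con cst constantSheaf
  infer_instance

instance con_colim : PreservesFiniteColimits (con X) := by
  unfold con cst constantSheaf
  infer_instance

/-- The inclusion of sheaves. -/
noncomputable def Zj (n : ℕ) : Zl X l n ⟶ Linf l X :=
  (con X).map (AddCommGrpCat.ofHom (qj l n))

lemma Zj_w (n : ℕ) : Zj l X n ≫ (l ^ n • 𝟙 (Linf l X)) = 0 := by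
  rw [Preadditive.comp_nsmul, Category.comp_id, Zj, ← Functor.map_nsmul, ← (con X).map_zero]
  congr 1
  ext x
  exact (qj_ex l n _).2 ⟨x, rfl⟩

lemma Zj_exact (n : ℕ) : (ShortComplex.mk _ _ (Zj_w l X n)).ShortExact := by
  let S : ShortComplex Ab.{0} := ShortComplex.mk (AddCommGrpCat.ofHom (qj l n))
    (l ^ n • 𝟙 (AddCommGrpCat.of (QZ l))) (by ext x; exact (qj_ex l n _).2 ⟨x, rfl⟩)
  have hS : S.ShortExact :=
    { exact := S.ab_exact_iff.2 fun y hy => (qj_ex l n y).1 hy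
      mono_f := (AddCommGrpCat.mono_iff_injective _).2 (qj_inj l n)
      epi_g := (AddCommGrpCat.epi_iff_surjective _).2 (qz_div l n) }
  refine ShortComplex.shortExact_of_iso ?_ (hS.map_of_exact (con X))
  refine ShortComplex.isoMk (Iso.refl _) (Iso.refl _) (Iso.refl _) ?_ ?_
  · simp [S, Zj]
  · simp [S, Linf]
    rfl

lemma Zr_j (n : ℕ) : Zr X l n ≫ Zj l X n = Zj l X (n + 1) ≫ (l • 𝟙 (Linf l X)) := by
  rw [Preadditive.comp_nsmul, Category.comp_id, Zj, Zj, ← Functor.map_nsmul, Zr,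
    ← Functor.map_comp]
  congr 1
  ext x
  obtain ⟨a, rfl⟩ := ZMod.intCast_surjective x
  change qj l n (ZMod.castHom (pow_dvd_pow l n.le_succ) (ZMod (l ^ n)) (a : ZMod (l ^ (n + 1)))) = l • qj l (n + 1) a
  rw [map_intCast, qj_int, qj_int, smul_comm, qe_succ]

variable {X}

lemma Hmap_nsmul (F : Sh (Scheme.etaleTopology.over X)) (T : Over X) (q m : ℕ) (x : H T F q) :
    Hmap (m • 𝟙 F) T q x = m • x := by
  change x.comp (Ext.mk₀ (m • 𝟙 F)) (add_zero q) = _
  induction m with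
  | zero => simp
  | succ m ih => rw [succ_nsmul, succ_nsmul, Ext.mk₀_add, Ext.comp_add, ih, Ext.comp_mk₀_id]

lemma Hmap_comp {F G K : Sh (Scheme.etaleTopology.over X)} (a : F ⟶ G) (b : G ⟶ K) (T : Over X) (q : ℕ) (x : H T F q) :
    Hmap (a ≫ b) T q x = Hmap b T q (Hmap a T q x) := by
  change x.comp (Ext.mk₀ (a ≫ b)) (add_zero q) =
    (x.comp (Ext.mk₀ a) (add_zero q)).comp (Ext.mk₀ b) (add_zero q)
  rw [Ext.comp_assoc_of_second_deg_zero, Ext.mk₀_comp_mk₀]

section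
variable {𝒜 : Type 2} [Category.{1} 𝒜] [Abelian 𝒜] [HasExt.{1} 𝒜]

lemma ext_les {S S' : ShortComplex 𝒜} (hS : S.ShortExact) (hS' : S'.ShortExact) (τ : S' ⟶ S)
    (K : 𝒜) (j : ℕ) (a : Ext K S.X₁ (j + 1)) (ha : a.comp (Ext.mk₀ S.f) (add_zero _) = 0) :
    ∃ m : Ext K S.X₃ j, (∀ m' : Ext K S'.X₃ j, m'.comp (Ext.mk₀ τ.τ₃) (add_zero _) = m →
      ∃ a' : Ext K S'.X₁ (j + 1), a'.comp (Ext.mk₀ S'.f) (add_zero _) = 0 ∧
        a'.comp (Ext.mk₀ τ.τ₁) (add_zero _) = a) ∧
      ∀ (c : ℕ) (m' : Ext K S.X₂ j), c • m = m'.comp (Ext.mk₀ S.g) (add_zero _) → c • a = 0 := by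
  obtain ⟨m, rfl⟩ := Ext.covariant_sequence_exact₁ _ hS a ha rfl
  refine ⟨m, ?_, fun c m' e => ?_⟩
  · rintro m' rfl
    refine ⟨m'.comp hS'.extClass rfl, ?_, ?_⟩
    · rw [Ext.comp_assoc_of_third_deg_zero, hS'.extClass_comp, Ext.comp_zero]
    · rw [Ext.comp_assoc_of_third_deg_zero, hS'.extClass_naturality hS τ,
        Ext.comp_assoc_of_second_deg_zero]
  · refine (map_nsmul (hS.extClass.postcomp K (rfl : j + 1 = j + 1)) c m).symm.trans ?_
    rw [e]
    change (m'.comp (Ext.mk₀ S.g) (add_zero j)).comp hS.extClass rfl = 0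
    rw [Ext.comp_assoc_of_second_deg_zero, hS.comp_extClass, Ext.comp_zero]

end

lemma Hmap_id (F : Sh (Scheme.etaleTopology.over X)) (T : Over X) (q : ℕ) (x : H T F q) : Hmap (𝟙 F) T q x = x :=
  Ext.comp_mk₀_id x

lemma hl_ker (T : Over X) (i : ℕ) (hc : ∀ j, j + 1 = i → Cof l (H T (Linf l X) j)) :
    ∃ c : ℕ, ∀ n a, Hmap (Zj l X n) T i a = 0 →
      (∃ a', Hmap (Zj l X (n + 1)) T i a' = 0 ∧ Hmap (Zr X l n) T i a' = a) ∧ l ^ c • a = 0 := by
  cases i with
  | zero =>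
    refine ⟨0, fun n a ha => ?_⟩
    have := (Zj_exact l X n).mono_f
    obtain rfl : a = 0 :=
      Ext.postcomp_mk₀_injective_of_mono _ (Zj l X n) (ha.trans (map_zero _).symm)
    exact ⟨⟨0, map_zero _, map_zero _⟩, smul_zero _⟩
  | succ j =>
    obtain ⟨c, hc⟩ := (hc j rfl).div
    refine ⟨c, fun n a ha => ?_⟩
    obtain ⟨m, h1, h2⟩ := ext_les (Zj_exact l X n) (Zj_exact l X (n + 1))
      ⟨Zr X l n, l • 𝟙 _, 𝟙 _, Zr_j l X n, by
        simp [smul_smul, pow_succ]⟩ _ j a ha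
    obtain ⟨m', e⟩ := hc n m
    exact ⟨h1 m (Hmap_id _ T j m), h2 _ m' (e.trans (Hmap_nsmul _ T j _ m').symm)⟩

/-- ZV -/
theorem hl_V (T : Over X) (i : ℕ) (hc : ∀ j, j + 1 = i → Cof l (H T (Linf l X) j)) :
    ∃ Θ : Hl l i T ≃+ V l (H T (Linf l X) i), ∀ (g : T ⟶ T) (y : Hl l i T),
      Θ (Hl.res l i g y) = Vm l (res g (Linf l X) i) (Θ y) := by
  have h0 : ∀ a, Hmap (Zj l X 0) T i a = 0 := fun a => by
    have := Hmap_comp (Zj l X 0) (l ^ 0 • 𝟙 _) T i a
    rw [Zj_w, Hmap_nsmul, pow_zero, one_smul] at this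
    rw [← this]
    change a.comp (Ext.mk₀ 0) (add_zero i) = 0
    rw [Ext.mk₀_zero, Ext.comp_zero]
  have h1 : ∀ n a, Hmap (Zj l X n) T i (Hmap (Zr X l n) T i a) =
      l • Hmap (Zj l X (n + 1)) T i a := fun n a => by
    rw [← Hmap_comp, Zr_j, Hmap_comp, Hmap_nsmul]
  have h2 : ∀ n (m : H T (Linf l X) i), l ^ n • m = 0 → ∃ a, Hmap (Zj l X n) T i a = m :=
    fun n m hm => Ext.covariant_sequence_exact₂ _ (Zj_exact l X n) m
      ((Hmap_nsmul _ T i _ m).trans hm)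
  obtain ⟨c, h34⟩ := hl_ker l T i hc
  obtain ⟨Θ, hΘ⟩ := tate (l := l) (A := fun n => H T (Zl X l n) i)
    (fun n => Hmap (Zr X l n) T i) (fun n => Hmap (Zj l X n) T i) h0 h1 h2
    (fun n a ha => (h34 n a ha).1) c (fun n a ha => (h34 n a ha).2)
  exact ⟨Θ, fun g y => hΘ _ _ _ (fun n a => Hmap_res g _ i a) y⟩

end Pool.Agent.MP_855f4c_ag.EZ

end

section

/-! Section Z, pure algebra: noetherian induction and lifting of points. -/

set_option autoImplicit false

namespace Pool.Agent.MP_855f4c_ag.EZ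

open Polynomial CategoryTheory CommAlgCat LP

/-- ROW Z5a. Noetherian induction. -/
theorem zind (R : Type) [CommRing R] [IsNoetherianRing R]
    (T : ∀ (p : ℕ) [Fact p.Prime], (R →+* PadicAlgCl p) → Prop)
    (h : ∀ J : Ideal R, J.IsPrime → (∀ n : ℕ, (n : R) ∈ J → n = 0) →
      ∃ a ∉ J, ∃ M : ℕ, M ≠ 0 ∧ ∀ (p : ℕ) [Fact p.Prime], ¬ p ∣ M → ∀ x : R →+* PadicAlgCl p,
        (∀ r ∈ J, x r = 0) → x a ≠ 0 → T p x) :
    ∃ M : ℕ, M ≠ 0 ∧ ∀ (p : ℕ) [Fact p.Prime], ¬ p ∣ M → ∀ x : R →+* PadicAlgCl p, T p x := by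
  suffices H : ∀ I : Ideal R, ∃ M : ℕ, M ≠ 0 ∧ ∀ (p : ℕ) [Fact p.Prime], ¬ p ∣ M →
      ∀ x : R →+* PadicAlgCl p, (∀ r ∈ I, x r = 0) → T p x by
    obtain ⟨M, hM, H⟩ := H ⊥
    exact ⟨M, hM, fun p _ hp x => H p hp x fun r hr => by rw [Ideal.mem_bot.1 hr, map_zero]⟩
  intro I
  induction I using IsNoetherian.induction with
  | hgt I ih =>
  have step : ∀ a ∉ I, ∃ M : ℕ, M ≠ 0 ∧ ∀ (p : ℕ) [Fact p.Prime], ¬ p ∣ M →
      ∀ x : R →+* PadicAlgCl p, (∀ r ∈ I, x r = 0) → x a = 0 → T p x := fun a ha => by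
    obtain ⟨M, hM, H⟩ := ih (I ⊔ Ideal.span {a}) (lt_of_le_of_ne le_sup_left fun e =>
      ha (e ▸ Ideal.mem_sup_right (Ideal.mem_span_singleton_self a)))
    refine ⟨M, hM, fun p _ hp x hx hxa => H p hp x fun r hr => ?_⟩
    have : I ⊔ Ideal.span {a} ≤ RingHom.ker x :=
      sup_le hx ((Ideal.span_singleton_le_iff_mem _).2 hxa)
    exact this hr
  by_cases hT : I = ⊤
  · exact ⟨1, one_ne_zero, fun p _ _ x hx =>
      absurd ((map_one x).symm.trans (hx 1 (hT ▸ Submodule.mem_top))) one_ne_zero⟩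
  by_cases hP : Ideal.IsPrime I
  · by_cases hn : ∀ n : ℕ, (n : R) ∈ I → n = 0
    · obtain ⟨a, ha, M, hM, H⟩ := h I hP hn
      obtain ⟨N, hN, H'⟩ := step a ha
      refine ⟨M * N, mul_ne_zero hM hN, fun p _ hp x hx => ?_⟩
      by_cases hxa : x a = 0
      · exact H' p (fun hd => hp (hd.mul_left M)) x hx hxa
      · exact H p (fun hd => hp (hd.mul_right N)) x hx hxa
    · push Not at hn
      obtain ⟨n, hn, hn0⟩ := hn
      refine ⟨1, one_ne_zero, fun p _ _ x hx => absurd (hx _ hn) ?_⟩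
      rw [map_natCast]
      exact Nat.cast_ne_zero.2 hn0
  · obtain ⟨a, ha, b, hb, hab⟩ := (Ideal.not_isPrime_iff.1 hP).resolve_left hT
    obtain ⟨M, hM, H⟩ := step a ha
    obtain ⟨N, hN, H'⟩ := step b hb
    refine ⟨M * N, mul_ne_zero hM hN, fun p _ hp x hx => ?_⟩
    rcases mul_eq_zero.1 ((map_mul x a b).symm.trans (hx _ hab)) with h0 | h0
    · exact H p (fun hd => hp (hd.mul_right N)) x hx h0
    · exact H' p (fun hd => hp (hd.mul_left M)) x hx h0

/-- Points of an open subset lift to a generically finite algebra. -/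
theorem zext0 (R A Ω : Type) [CommRing R] [CommRing A] [Field Ω] [Algebra R A] [Algebra A Ω]
    [Algebra R Ω] [IsScalarTower R A Ω] [Algebra.FiniteType R A]
    [Algebra.IsAlgebraic (algebraMap R Ω).range Ω] :
    ∃ a : R, algebraMap R Ω a ≠ 0 ∧ ∀ (k : Type) [Field k] [IsAlgClosed k] (x : R →+* k),
      (∀ r, algebraMap R Ω r = 0 → x r = 0) → x a ≠ 0 →
      ∃ b : A →+* k, ∀ r, b (algebraMap R A r) = x r := by
  classical
  obtain ⟨t, ht⟩ := Algebra.FiniteType.out (R := R) (A := A)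
  obtain ⟨⟨_, a, rfl⟩, ha, hint⟩ := Algebra.IsAlgebraic.exists_integral_multiples
    (algebraMap R Ω).range (t.image (algebraMap A Ω))
  have ha0 : algebraMap R Ω a ≠ 0 := fun e => ha (Subtype.ext e)
  let : Algebra R (algebraMap R Ω).range := (algebraMap R Ω).rangeRestrict.toAlgebra
  have : IsScalarTower R (algebraMap R Ω).range Ω := IsScalarTower.of_algebraMap_eq fun _ => rfl
  have : Algebra.IsIntegral R (algebraMap R Ω).range :=
    Algebra.isIntegral_of_surjective (algebraMap R Ω).rangeRestrict_surjective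
  have hint' : ∀ z ∈ t, IsIntegral R (algebraMap R Ω a * algebraMap A Ω z) := fun z hz =>
    isIntegral_trans (A := (algebraMap R Ω).range) _ (hint _ (Finset.mem_image_of_mem _ hz))
  refine ⟨a, ha0, fun k _ _ x hx hxa => ?_⟩
  let C := integralClosure R Ω
  obtain ⟨y, hy⟩ := ext_int (algebraMap R C) (Algebra.IsIntegral.isIntegral (R := R)) x
    fun r hr => hx r (congrArg Subtype.val hr)
  let S := Localization.Away (algebraMap R C a)
  have hu : ∀ s : Submonoid.powers (algebraMap R C a), IsUnit (C.val s) := by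
    rintro ⟨_, n, rfl⟩
    rw [map_pow]
    exact (isUnit_iff_ne_zero.2 ha0).pow n
  let f : S →ₐ[R] Ω := IsLocalization.liftAlgHom hu
  have hf : ∀ c : C, f (algebraMap C S c) = c := fun c => IsLocalization.lift_eq hu c
  have hfi : Function.Injective f :=
    (IsLocalization.lift_injective_iff hu).2 fun u v =>
      ⟨fun e => by rw [← IsLocalization.lift_eq (S := S) hu, e, IsLocalization.lift_eq],
        fun e => congrArg _ (Subtype.ext e)⟩
  have hr : ∀ z : A, IsScalarTower.toAlgHom R A Ω z ∈ f.range := fun z => by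
    have : Algebra.adjoin R (t : Set A) ≤ f.range.comap (IsScalarTower.toAlgHom R A Ω) := by
      refine Algebra.adjoin_le fun w hw => ?_
      obtain ⟨u, hu'⟩ := IsLocalization.Away.algebraMap_isUnit (S := S) (algebraMap R C a)
      refine ⟨↑u⁻¹ * algebraMap C S ⟨_, hint' w hw⟩, mul_left_cancel₀ ha0 ?_⟩
      have h1 : f u = algebraMap R Ω a := by rw [hu', hf]; rfl
      have h2 : ∀ c : C, algebraMap R Ω a * f (↑u⁻¹ * algebraMap C S c) = c := fun c => by
        rw [← h1, ← map_mul, Units.mul_inv_cancel_left, hf]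
      exact h2 _
    exact this (ht ▸ Algebra.mem_top)
  let g : A →ₐ[R] S := (AlgEquiv.ofInjective f hfi).symm.toAlgHom.comp
    ((IsScalarTower.toAlgHom R A Ω).codRestrict _ hr)
  have hya : IsUnit (y (algebraMap R C a)) := by rw [hy]; exact isUnit_iff_ne_zero.2 hxa
  refine ⟨(IsLocalization.Away.lift (S := S) _ hya).comp g.toRingHom, fun r => ?_⟩
  change IsLocalization.Away.lift (S := S) _ hya (g (algebraMap R A r)) = _
  rw [g.commutes, IsScalarTower.algebraMap_apply R C S, IsLocalization.Away.lift_eq, hy]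

/-- ROW Z5b. Points of an open subset lift to a generically finite algebra, and
then to the integral closure of a localisation. -/
theorem zext (R A Ω : Type) [CommRing R] [CommRing A] [Field Ω] [Algebra R A] [Algebra A Ω]
    [Algebra R Ω] [IsScalarTower R A Ω] [FaithfulSMul A Ω] [Algebra.FiniteType R A]
    [Algebra.IsAlgebraic (algebraMap R Ω).range Ω] :
    ∃ a : R, algebraMap R Ω a ≠ 0 ∧ ∀ (k : Type) [Field k] [IsAlgClosed k] (x : R →+* k),
      (∀ r, algebraMap R Ω r = 0 → x r = 0) → x a ≠ 0 →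
      ∀ (n : ℕ), (n : k) ≠ 0 → ∀ (B P : Type) [CommRing B] [CommRing P] [Algebra A B]
        [IsLocalization.Away (n : A) B] [Algebra B P] [FaithfulSMul B P] [Algebra.IsIntegral B P],
        ∃ b : P →+* k, ∀ r, b (algebraMap B P (algebraMap A B (algebraMap R A r))) = x r := by
  obtain ⟨a, ha, H⟩ := zext0 R A Ω
  refine ⟨a, ha, fun k _ _ x hx hxa n hn B P _ _ _ _ _ _ _ => ?_⟩
  obtain ⟨b, hb⟩ := H k x hx hxa
  have hu : IsUnit (b (n : A)) := by rw [map_natCast]; exact isUnit_iff_ne_zero.2 hn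
  obtain ⟨y, hy⟩ := ext_int (algebraMap B P) (Algebra.IsIntegral.isIntegral (R := B))
    (IsLocalization.Away.lift (S := B) _ hu) (by
      rw [(RingHom.injective_iff_ker_eq_bot _).1 (FaithfulSMul.algebraMap_injective B P)]
      exact bot_le)
  exact ⟨y, fun r => by rw [hy, IsLocalization.Away.lift_eq, hb]⟩

end Pool.Agent.MP_855f4c_ag.EZ

end

section

namespace Pool.Agent.MP_855f4c_ag.EZ

open Algebra

/-- A finite subset of a finite separable extension `L` of the fraction field of a normal domain `P`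
of finite type lies in a normal subring of finite type of `L`. -/
lemma nnz_core (P F L : Type) [CommRing P] [IsDomain P] [IsIntegrallyClosed P] [FiniteType ℤ P]
    [Field F] [Algebra P F] [IsFractionRing P F] [Field L] [Algebra F L] [Algebra P L]
    [IsScalarTower P F L] [FiniteDimensional F L] [Algebra.IsSeparable F L] (s : Finset L) :
    ∃ C : Subring L, (s : Set L) ⊆ C ∧ FiniteType ℤ C ∧ IsIntegrallyClosed C := by
  have : Algebra.IsAlgebraic P L := (IsFractionRing.comap_isAlgebraic_iff (K := F)).mpr inferInstance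
  obtain ⟨c, hc, hs⟩ := Algebra.IsAlgebraic.exists_integral_multiples P s
  have hS : Submonoid.powers c ≤ nonZeroDivisors P := powers_le_nonZeroDivisors_of_noZeroDivisors hc
  let Q : Subalgebra P F := Localization.subalgebra F (Submonoid.powers c) hS
  have : IsIntegrallyClosed Q := isIntegrallyClosed_of_isLocalization Q _ hS
  have : FiniteType P Q := IsLocalization.finiteType_of_monoid_fg (Submonoid.powers c) Q
  have : FiniteType ℤ Q := .trans (S := P) inferInstance inferInstance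
  have : IsNoetherianRing Q := FiniteType.isNoetherianRing ℤ Q
  have : Module.Finite Q (integralClosure Q L) := IsIntegralClosure.finite Q F L _
  refine ⟨(integralClosure Q L).toSubring, fun x hx => ?_,
    (.trans (S := Q) inferInstance inferInstance : FiniteType ℤ (integralClosure Q L)),
    integralClosure.isIntegrallyClosedOfFiniteExtension F⟩
  obtain ⟨u, hu⟩ := IsLocalization.map_units Q (⟨c, Submonoid.mem_powers c⟩ : Submonoid.powers c)
  have h := ((hs x hx).tower_top (A := Q)).smul (↑u⁻¹ : Q)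
  rwa [← algebraMap_smul Q c x, ← hu, smul_smul, Units.inv_mul, one_smul] at h

/-- A finite subset of a field of characteristic zero lies in a normal subring of finite type. -/
lemma nnz_fin (Ω : Type) [Field Ω] [CharZero Ω] (s : Finset Ω) :
    ∃ C : Subring Ω, (s : Set Ω) ⊆ C ∧ FiniteType ℤ C ∧ IsIntegrallyClosed C := by
  classical
  obtain ⟨t, ht⟩ := (AlgebraicIndependent.matroid ℤ Ω).exists_isBasis (s : Set Ω)
  obtain ⟨hi, hts, ha⟩ := AlgebraicIndependent.matroid_isBasis_iff.mp ht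
  have hf : t.Finite := s.finite_toSet.subset hts
  let P : Subalgebra ℤ Ω := adjoin ℤ t
  have e : MvPolynomial t ℤ ≃ₐ[ℤ] P := (AlgebraicIndependent.aevalEquiv hi).trans
    (Subalgebra.equivOfEq _ _ (by simp [P]))
  have : IsIntegrallyClosed P := .of_equiv e.toRingEquiv
  have : FiniteType ℤ P := (Subalgebra.fg_iff_finiteType P).mp (Subalgebra.fg_def.mpr ⟨t, hf, rfl⟩)
  let := FractionRing.liftAlgebra P Ω
  let L := IntermediateField.adjoin (FractionRing P) (s : Set Ω)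
  have : FiniteDimensional (FractionRing P) L := IntermediateField.finiteDimensional_adjoin
    fun x hx => ((ha x hx).extendScalars (FaithfulSMul.algebraMap_injective P _)).isIntegral
  have : CharZero (FractionRing P) := (algebraMap (FractionRing P) Ω).charZero
  obtain ⟨C, h1, h2, h3⟩ := nnz_core P (FractionRing P) L
    (s.attach.image fun x : s => (⟨x.1, IntermediateField.subset_adjoin _ _ x.2⟩ : L))
  let e' := C.equivMapOfInjective (algebraMap L Ω) (algebraMap L Ω).injective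
  refine ⟨C.map (algebraMap L Ω), fun x hx => ⟨⟨x, IntermediateField.subset_adjoin _ _ hx⟩,
    h1 (Finset.mem_image_of_mem _ (Finset.mem_attach _ ⟨x, hx⟩)), rfl⟩,
    h2.of_surjective e'.toRingHom.toIntAlgHom e'.surjective, .of_equiv e'⟩

theorem nnz (R Ω : Type) [CommRing R] [Algebra.FiniteType ℤ R] [Field Ω] [CharZero Ω] [Algebra R Ω]
    (A : Subalgebra R Ω) (hA : A.FG) :
    ∃ A' : Subalgebra R Ω, A ≤ A' ∧ A'.FG ∧ IsIntegrallyClosed A' := by
  classical
  have : FiniteType R A := (Subalgebra.fg_iff_finiteType A).mp hA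
  obtain ⟨s, hs⟩ := (FiniteType.trans (S := R) inferInstance inferInstance : FiniteType ℤ A).out
  obtain ⟨C, h1, h2, h3⟩ := nnz_fin Ω (s.image Subtype.val)
  have key : ∀ x : A, x.1 ∈ C := fun x => by
    have hx : x ∈ adjoin ℤ (s : Set A) := hs ▸ Algebra.mem_top
    rw [adjoin_int] at hx
    exact (Subring.closure_le (t := C.comap A.val.toRingHom)).mpr
      (fun y hy => h1 (Finset.mem_image_of_mem _ hy)) hx
  let A' : Subalgebra R Ω :=
    { C.toSubsemiring with algebraMap_mem' := fun r => key (algebraMap R A r) }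
  have : FiniteType ℤ A' := h2
  exact ⟨A', fun x hx => key ⟨x, hx⟩,
    (Subalgebra.fg_iff_finiteType A').mpr (.of_restrictScalars_finiteType ℤ R A'), h3⟩

end Pool.Agent.MP_855f4c_ag.EZ

end

section

/-! From `ℤ_p` to an arbitrary discrete valuation ring: statements. -/

open CategoryTheory Limits AlgebraicGeometry

namespace Pool.Agent.MP_855f4c_ag.E

open LP

def Main3_s : Prop := ∀ (R : Type) [CommRing R] [Algebra.FiniteType ℤ R] (X : Scheme.{0})
  (f : X ⟶ Spec (.of R)) [IsProper f],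
    ∃ M : ℕ, M ≠ 0 ∧ ∀ (O Ω : Type) [CommRing O] [IsDomain O] [IsDiscreteValuationRing O]
      [Finite (IsLocalRing.ResidueField O)] [Field Ω] [CharZero Ω] [IsAlgClosed Ω] [Algebra O Ω]
      [FaithfulSMul O Ω] [Algebra.IsAlgebraic O Ω] [Algebra R Ω] (l : ℕ) [Fact l.Prime],
      IsUnit (M : O) → IsUnit (l : O) →
      Smooth (pullback.fst (Spec.map (CommRingCat.ofHom (algebraMap R Ω))) f) →
      ∀ (i : ℕ) (φ u : Ω ≃ₐ[R] Ω) (Q : ℕ), 1 < Q → Frob O Q φ → Frob O 1 u →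
        (∃ (n : ℕ) (r : Ω) (o : O), r ^ l ^ n = algebraMap O Ω o ∧ u r ≠ r) →
        Mw Q i (E.gal f l i φ) (E.gal f l i u)

namespace M3

/-- A discrete valuation ring of mixed characteristic with finite residue field embeds. -/
def EMB_s : Prop := ∀ (p : ℕ) [Fact p.Prime] (O : Type) [CommRing O] [IsDomain O]
  [IsDiscreteValuationRing O] [Finite (IsLocalRing.ResidueField O)] [CharZero O],
    ¬ IsUnit (p : O) → ∃ χ : O →+* PadicAlgCl p, Function.Injective χ ∧ ∀ o, ‖χ o‖ ≤ 1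

/-- Frobenius and inertia elements are isometries. -/
def ISO_s : Prop := ∀ (p : ℕ) [Fact p.Prime] (O Ω : Type) [CommRing O] [IsDomain O]
  [IsDiscreteValuationRing O] [Field Ω] [Algebra O Ω] [FaithfulSMul O Ω] [Algebra.IsAlgebraic O Ω]
  (ι : Ω →+* PadicAlgCl p), ¬ IsUnit (p : O) → (∀ o, ‖ι (algebraMap O Ω o)‖ ≤ 1) →
    ∀ (Q : ℕ) (g : Ω ≃+* Ω), 0 < Q → Frob O Q g →
      (∀ z, ‖ι (g z)‖ = ‖ι z‖) ∧ ∀ z, ‖ι z‖ ≤ 1 → ‖ι (g z) ^ Q - ι z‖ < 1

/-- Isometries extend. -/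
def EXT_s : Prop := ∀ (p : ℕ) [Fact p.Prime] (Ω : Type) [Field Ω] [IsAlgClosed Ω]
  (ι : Ω →+* PadicAlgCl p), DenseRange ι ∧ ∀ g : Ω ≃+* Ω, (∀ z, ‖ι (g z)‖ = ‖ι z‖) →
    ∃ g' : PadicAlgCl p ≃ₐ[ℚ_[p]] PadicAlgCl p, ∀ z, g' (ι z) = ι (g z)

/-- The `p`-adic conditions in terms of the norm. -/
def FRB_s : Prop := ∀ (p : ℕ) [Fact p.Prime] (g : PadicAlgCl p ≃ₐ[ℚ_[p]] PadicAlgCl p),
  (∀ (Q : ℕ) (S : Set (PadicAlgCl p)), Dense S → (∀ z ∈ S, ‖z‖ ≤ 1 → ‖g z ^ Q - z‖ < 1) →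
    Frob ℤ_[p] Q g) ∧
  ∀ (l : ℕ) [Fact l.Prime], l ≠ p → Frob ℤ_[p] 1 g → ∀ (n : ℕ) (r : PadicAlgCl p),
    g (r ^ l ^ n) = r ^ l ^ n → g r ≠ r →
      ∃ (n : ℕ) (r : PadicAlgCl p) (o : ℤ_[p]), r ^ l ^ n = algebraMap _ _ o ∧ g r ≠ r

end M3

end Pool.Agent.MP_855f4c_ag.E

end

section

/-! A discrete valuation ring of mixed characteristic with finite residue field embeds into the
algebraic closure of `ℚ_p`. -/

namespace Pool.Agent.MP_855f4c_ag.E.M3

namespace EMB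

lemma mem_pi {R ι : Type} [CommRing R] [Fintype ι] (J : Ideal R) (x : ι → R) :
    x ∈ (J • ⊤ : Submodule R (ι → R)) ↔ ∀ i, x i ∈ J := by
  classical
  constructor
  · intro h
    induction h using Submodule.smul_induction_on' with
    | smul r hr y _ => exact fun i => J.mul_mem_right _ hr
    | add a _ b _ ha hb => exact fun i => J.add_mem (ha i) (hb i)
  · intro h
    rw [pi_eq_sum_univ x]
    exact Submodule.sum_mem _ fun i _ => Submodule.smul_mem_smul (h i) Submodule.mem_top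

lemma prec_pi {R ι : Type} [CommRing R] [Fintype ι] (I : Ideal R) [h : IsPrecomplete I R] :
    IsPrecomplete I (ι → R) := by
  refine ⟨fun f hf => ?_⟩
  have key : ∀ i, ∃ L : R, ∀ n, f n i ≡ L [SMOD (I ^ n • ⊤ : Submodule R R)] := by
    intro i
    refine h.prec (f := fun n => f n i) fun {m n} hmn => ?_
    have := (mem_pi _ _).1 (SModEq.sub_mem.1 (hf hmn)) i
    rw [SModEq.sub_mem, smul_eq_mul, Ideal.mul_top]
    exact this
  choose L hL using key
  refine ⟨L, fun n => SModEq.sub_mem.2 ((mem_pi _ _).2 fun i => ?_)⟩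
  have := SModEq.sub_mem.1 (hL i n)
  rwa [smul_eq_mul, Ideal.mul_top] at this

/-- A `p`-adically complete ring is a `ℤ_p`-algebra. -/
lemma exists_hom (p : ℕ) [Fact p.Prime] (S : Type) [CommRing S]
    [IsAdicComplete (Ideal.span {(p : S)}) S] : Nonempty (ℤ_[p] →+* S) := by
  have h0 : ∀ n : ℕ, ringChar (S ⧸ Ideal.span {(p : S)} ^ n) ∣ p ^ n := by
    intro n
    apply ringChar.dvd
    rw [← map_natCast (Ideal.Quotient.mk (Ideal.span {(p : S)} ^ n)), Ideal.Quotient.eq_zero_iff_mem,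
      Nat.cast_pow]
    exact Ideal.pow_mem_pow (Ideal.mem_span_singleton_self _) n
  refine ⟨IsAdicComplete.liftRingHom (Ideal.span {(p : S)})
    (fun n => (ZMod.castHom (h0 n) _).comp (PadicInt.toZModPow n)) fun {m n} hle => ?_⟩
  rw [← PadicInt.zmod_cast_comp_toZModPow m n hle, ← RingHom.comp_assoc, ← RingHom.comp_assoc]
  congr 1
  exact RingHom.ext_zmod _ _

/-- Complete Nakayama. -/
lemma exists_gen (p : ℕ) [Fact p.Prime] (S : Type) [CommRing S]
    [IsHausdorff (Ideal.span {(p : S)}) S] [Finite (S ⧸ Ideal.span {(p : S)})]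
    (j : ℤ_[p] →+* S) : ∃ (n : ℕ) (s : Fin n → S), ∀ z : S, ∃ a : Fin n → ℤ_[p],
      z = ∑ i, j (a i) * s i := by
  classical
  let _ : Algebra ℤ_[p] S := j.toAlgebra
  obtain ⟨n, ⟨e⟩⟩ := Finite.exists_equiv_fin (S ⧸ Ideal.span {(p : S)})
  choose s hs using fun i : Fin n => Ideal.Quotient.mk_surjective (e.symm i)
  have hm : (IsLocalRing.maximalIdeal ℤ_[p]).map (algebraMap ℤ_[p] S) = Ideal.span {(p : S)} := by
    rw [PadicInt.maximalIdeal_eq_span_p, Ideal.map_span, Set.image_singleton, map_natCast]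
  have : IsHausdorff (IsLocalRing.maximalIdeal ℤ_[p]) S :=
    (IsHausdorff.map_algebraMap_iff (S := S)).1 (by rw [hm]; infer_instance)
  have := prec_pi (ι := Fin n) (IsLocalRing.maximalIdeal ℤ_[p])
  have hsurj : Function.Surjective (Fintype.linearCombination ℤ_[p] s) := by
    apply surjective_of_mkQ_comp_surjective (I := IsLocalRing.maximalIdeal ℤ_[p])
    intro y
    obtain ⟨y, rfl⟩ := Submodule.mkQ_surjective _ y
    refine ⟨Pi.single (e (Ideal.Quotient.mk _ y)) 1, ?_⟩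
    rw [LinearMap.comp_apply, Fintype.linearCombination_apply_single, one_smul, Submodule.mkQ_apply,
      Submodule.mkQ_apply, Submodule.Quotient.eq, Ideal.smul_top_eq_map, hm,
      Submodule.restrictScalars_mem, ← Ideal.Quotient.eq, hs, Equiv.symm_apply_apply]
  refine ⟨n, s, fun z => ?_⟩
  obtain ⟨a, ha⟩ := hsurj z
  exact ⟨a, by rw [← ha, Fintype.linearCombination_apply]; rfl⟩

end EMB

open EMB in
theorem emb : EMB_s := by
  intro p _ O _ _ _ _ _ hp
  have hp0 : (p : O) ≠ 0 := Nat.cast_ne_zero.2 (Fact.out : p.Prime).ne_zero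
  have hpm : (p : O) ∈ IsLocalRing.maximalIdeal O := hp
  set I : Ideal O := Ideal.span {(p : O)} with hI
  have hfg : I.FG := IsNoetherian.noetherian _
  have hIt : I ≠ ⊤ := fun h => hp (Ideal.span_singleton_eq_top.1 h)
  have hfin : Finite (O ⧸ I) := by
    obtain ⟨ϖ, hϖ⟩ := IsDiscreteValuationRing.exists_irreducible O
    obtain ⟨n, hn⟩ := IsDiscreteValuationRing.ideal_eq_span_pow_irreducible
      (s := I) (by simpa [hI] using hp0) hϖ
    have : Finite (O ⧸ IsLocalRing.maximalIdeal O) := ‹Finite (IsLocalRing.ResidueField O)›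
    rw [hn, ← Ideal.span_singleton_pow, ← hϖ.maximalIdeal_eq]
    exact Ideal.finite_quotient_pow (IsNoetherian.noetherian _) n
  have hmap : I.map (algebraMap O (AdicCompletion I O)) =
      Ideal.span {(p : AdicCompletion I O)} := by
    rw [hI, Ideal.map_span, Set.image_singleton, map_natCast]
  have hc : IsAdicComplete (Ideal.span {(p : AdicCompletion I O)}) (AdicCompletion I O) :=
    hmap ▸ AdicCompletion.isAdicComplete_self I hfg
  have hfin' : Finite (AdicCompletion I O ⧸ Ideal.span {(p : AdicCompletion I O)}) := by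
    rw [← hmap, ← AdicCompletion.ker_evalOneₐ_eq_map I hfg]
    exact Finite.of_equiv _ (RingHom.quotientKerEquivOfSurjective
      (f := (AdicCompletion.evalOneₐ I).toRingHom)
      (AdicCompletion.evalOneₐ_surjective I)).symm.toEquiv
  have hinj : Function.Injective (algebraMap O (AdicCompletion I O)) := by
    have := IsHausdorff.of_isDomain I hIt
    exact AdicCompletion.of_injective I O
  obtain ⟨j⟩ := exists_hom p (AdicCompletion I O)
  obtain ⟨n, s, hs⟩ := exists_gen p (AdicCompletion I O) j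
  have hint : j.IsIntegral := by
    apply RingHom.Finite.to_isIntegral
    let _ : Algebra ℤ_[p] (AdicCompletion I O) := j.toAlgebra
    refine Module.Finite.of_surjective (Fintype.linearCombination ℤ_[p] s) fun z => ?_
    obtain ⟨a, ha⟩ := hs z
    exact ⟨a, by rw [ha, Fintype.linearCombination_apply]; rfl⟩
  let x : ℤ_[p] →+* PadicAlgCl p := (algebraMap ℚ_[p] (PadicAlgCl p)).comp PadicInt.Coe.ringHom
  have hx : ∀ a, ‖x a‖ ≤ 1 := fun a => (PadicAlgCl.norm_extends p _).trans_le a.2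
  have hker : RingHom.ker j ≤ RingHom.ker x := by
    intro a ha
    by_contra h0
    have ha0 : a ≠ 0 := fun h => h0 (h ▸ Ideal.zero_mem _)
    have h1 : j ((p : ℤ_[p]) ^ a.valuation) = 0 := by
      have h2 := congrArg j (PadicInt.unitCoeff_spec ha0)
      rw [RingHom.mem_ker.1 ha, map_mul] at h2
      exact (((PadicInt.unitCoeff ha0).isUnit.map j).mul_right_eq_zero).1 h2.symm
    rw [map_pow, map_natCast, ← map_natCast (algebraMap O (AdicCompletion I O)), ← map_pow,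
      map_eq_zero_iff _ hinj] at h1
    exact pow_ne_zero _ hp0 h1
  obtain ⟨y, hy⟩ := LP.ext_int j hint x hker
  have hb : ∀ z, ‖y z‖ ≤ ∑ i, ‖y (s i)‖ := by
    intro z
    obtain ⟨a, rfl⟩ := hs z
    rw [map_sum]
    refine (norm_sum_le _ _).trans (Finset.sum_le_sum fun i _ => ?_)
    rw [map_mul, norm_mul, hy]
    exact mul_le_of_le_one_left (norm_nonneg _) (hx _)
  refine ⟨y.comp (algebraMap O _), ?_, fun o => ?_⟩
  · rw [RingHom.injective_iff_ker_eq_bot]
    by_contra h0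
    have hpr := RingHom.ker_isPrime (y.comp (algebraMap O (AdicCompletion I O)))
    have h1 := IsLocalRing.eq_maximalIdeal (hpr.isMaximal h0)
    rw [← h1, RingHom.mem_ker, map_natCast] at hpm
    exact (Nat.cast_ne_zero.2 (Fact.out : p.Prime).ne_zero) hpm
  · by_contra h
    obtain ⟨m, hm⟩ := pow_unbounded_of_one_lt (∑ i, ‖y (s i)‖) (not_le.1 h)
    rw [← norm_pow, ← map_pow] at hm
    exact absurd (hb _) (not_le.2 hm)

end Pool.Agent.MP_855f4c_ag.E.M3

end

section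

namespace Pool.Agent.MP_855f4c_ag.E.M3

open LP H7

namespace ISO

variable {p : ℕ} [Fact p.Prime] {Ω : Type} [Field Ω]

/-- The absolute value along `ι`. -/
noncomputable def av (ι : Ω →+* PadicAlgCl p) : AbsoluteValue Ω ℝ where
  toFun z := ‖ι z‖
  map_mul' a b := by rw [map_mul, norm_mul]
  nonneg' _ := norm_nonneg _
  eq_zero' _ := by rw [norm_eq_zero, map_eq_zero]
  add_le' a b := by rw [map_add]; exact norm_add_le _ _

/-- The unit ball along `ι`. -/
noncomputable def vv (ι : Ω →+* PadicAlgCl p) : ValuationSubring Ω :=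
  ((PadicAlgCl.valued p).v.comap ι).valuationSubring

lemma mem_vv (ι : Ω →+* PadicAlgCl p) (z : Ω) : z ∈ vv ι ↔ ‖ι z‖ ≤ 1 := Iff.rfl

lemma nu_vv (ι : Ω →+* PadicAlgCl p) (z : Ω) : z ∈ (vv ι).nonunits ↔ ‖ι z‖ < 1 := by
  rw [ValuationSubring.mem_nonunits_iff_or, mem_vv, map_inv₀, norm_inv, not_le]
  rcases eq_or_ne z 0 with rfl | h
  · simp
  · rw [one_lt_inv₀ (norm_pos_iff.2 ((map_ne_zero ι).2 h)), or_iff_right h]

lemma norm_p : ‖(p : PadicAlgCl p)‖ < 1 := by
  rw [← map_natCast (algebraMap ℚ_[p] (PadicAlgCl p))]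
  exact (PadicAlgCl.norm_extends p _).trans_lt Padic.norm_p_lt_one

end ISO

open ISO in
theorem iso : ISO_s := by
  intro p _ O Ω _ _ _ _ _ _ _ ι _ hO Q g hQ ⟨h1, h2⟩
  have inj := FaithfulSMul.algebraMap_injective O Ω
  have hp : (p : Ω) ∈ (vv ι).nonunits := (nu_vv ι _).2 (map_natCast ι p ▸ norm_p)
  have p0 : (p : PadicAlgCl p) ≠ 0 := Nat.cast_ne_zero.2 (Fact.out : p.Prime).ne_zero
  have hm : ∀ o, ¬ IsUnit o → algebraMap O Ω o ∈ (vv ι).nonunits := fun o ho => by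
    have := cen_prime (algebraMap O Ω) (vv ι) hO
    have h3 : (cen (algebraMap O Ω) (vv ι) hO).IsMaximal := IsPrime.to_maximal_ideal fun e => by
      have h4 : (p : O) ∈ cen (algebraMap O Ω) (vv ι) hO := by
        change algebraMap O Ω p ∈ (vv ι).nonunits
        rwa [map_natCast]
      rw [e, Ideal.mem_bot] at h4
      exact p0 (by rw [← map_natCast (ι.comp (algebraMap O Ω)), h4, map_zero])
    exact (IsLocalRing.eq_maximalIdeal h3).ge ho
  have h3 : ∀ z, IsIntegral O z → g z ^ Q - z ∈ (vv ι).nonunits := fun z hz => by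
    obtain ⟨n, o, c, a1, a2, a3⟩ := h2 z hz
    exact nu_pow (a3 ▸ nu_mul (hm o a1) (val_int _ hO a2))
  have hO' : ∀ o, algebraMap O Ω o ∈ (vv ι).comap (g : Ω →+* Ω) := fun o => by
    change g _ ∈ vv ι
    rw [h1]; exact hO o
  have h4 : ∀ z, IsIntegral O z → g z ∈ vv ι := fun z hz => val_int _ hO' hz
  have h5 : ∀ z, IsIntegral O z → (g z ∈ (vv ι).nonunits ↔ z ∈ (vv ι).nonunits) := fun z hz => by
    obtain ⟨Q, rfl⟩ := Nat.exists_eq_succ_of_ne_zero hQ.ne'
    refine ⟨fun h => ?_, fun h => nu_pow (n := Q + 1) (by simpa using nu_add (h3 z hz) h)⟩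
    have := nu_sub (pow_succ' (g z) Q ▸ nu_mul h (pow_mem (h4 z hz) Q)) (h3 z hz)
    simpa using this
  have e : (vv ι).comap (g : Ω →+* Ω) = vv ι := val_eq inj _ _ hO' hO fun c hc => by
    rw [← nu_map (V := vv ι) (g : Ω →+* Ω) (fun _ => Iff.rfl)]; exact h5 c hc
  have h6 : ∀ z, g z ∈ vv ι ↔ z ∈ vv ι := fun z => SetLike.ext_iff.1 e z
  refine ⟨fun z => ?_, fun z hz => ?_⟩
  · obtain ⟨c, -, hc⟩ := AbsoluteValue.isEquiv_iff_exists_rpow_eq.1
      ((AbsoluteValue.isEquiv_iff_lt_one_iff (v := av ι) (w := av (ι.comp (g : Ω →+* Ω)))).2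
        fun x => ((nu_vv ι _).symm.trans ((nu_map (g : Ω →+* Ω) h6 x).symm.trans (nu_vv ι _))))
    have h7 : ‖ι p‖ ^ c = ‖ι (g p)‖ := congrFun hc p
    rw [map_natCast g, map_natCast ι] at h7
    obtain rfl : c = 1 := (Real.rpow_right_inj (norm_pos_iff.2 p0) norm_p.ne).1
      (h7.trans (Real.rpow_one _).symm)
    exact ((Real.rpow_one _).symm.trans (congrFun hc z)).symm
  · obtain ⟨f, h0, i, hi⟩ := val_prim inj (Algebra.IsAlgebraic.isAlgebraic (R := O) z) _
      (cen_prime _ (vv ι) hO).ne_top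
    obtain ⟨c, hc, d, hd, a1, a2⟩ := val_uu (integralClosure O Ω).toSubring
      (fun w hw => isIntegral_trans (A := integralClosure O Ω) w hw) (vv ι) z _
      (f.map (algebraMap O (integralClosure O Ω))) le_rfl
      ((Polynomial.aeval_map_algebraMap (integralClosure O Ω) z f).trans h0)
      ⟨i, by rw [Polynomial.coeff_map]; exact hi⟩
    obtain ⟨a, b, ha, hb, b1, rfl⟩ : ∃ a b, IsIntegral O a ∧ IsIntegral O b ∧
        b ∉ (vv ι).nonunits ∧ z = a * b⁻¹ := by
      rcases a2 with a2 | a2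
      · exact ⟨c, d, hc, hd, a1, by rw [← a2, mul_inv_cancel_right₀ (nu_inv a1).1]⟩
      · have a3 : c ∉ (vv ι).nonunits := fun h => a1 (a2 ▸ nu_mul h hz)
        exact ⟨d, c, hd, hc, a3, by rw [a2, mul_comm c, mul_inv_cancel_right₀ (nu_inv a3).1]⟩
    have b2 := nu_inv b1
    have b3 := nu_inv (mt (h5 b hb).1 b1)
    have := nu_sub (nu_mul (h3 a ha) (pow_mem b3.2 Q))
      (nu_mul (h3 b hb) (mul_mem (mul_mem (val_int _ hO ha) b2.2) (pow_mem b3.2 Q)))
    rw [← map_pow, ← map_sub, ← nu_vv]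
    convert this using 1
    have := b2.1
    have := b3.1
    rw [map_mul, map_inv₀, mul_pow, inv_pow]
    field_simp
    ring

end Pool.Agent.MP_855f4c_ag.E.M3

end

section

/-! Isometries of a dense algebraically closed subfield extend. -/

open Polynomial

namespace Pool.Agent.MP_855f4c_ag.E.M3

variable {p : ℕ} [Fact p.Prime] {Ω : Type} [Field Ω] (ι : Ω →+* PadicAlgCl p)

theorem ext_dense [IsAlgClosed Ω] : DenseRange ι := by
  have : CharZero Ω := ι.charZero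
  refine Metric.denseRange_iff.2 fun a δ hδ => ?_
  have hi : IsIntegral ℚ_[p] a := Algebra.IsIntegral.isIntegral a
  have fm := minpoly.monic hi
  have f0 : (minpoly ℚ_[p] a).natDegree ≠ 0 := (minpoly.natDegree_pos hi).ne'
  have hε : (δ / max ‖a‖ 1) ^ (minpoly ℚ_[p] a).natDegree / ((minpoly ℚ_[p] a).natDegree + 1) > 0 := by
    positivity
  obtain ⟨g, gm, gd, gc⟩ := exists_monic_and_natDegree_eq_and_norm_map_algebraMap_coeff_sub_lt
    (K := ℚ) (Padic.denseRange_ratCast p) fm hε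
  have e : (g.map (algebraMap ℚ ℚ_[p])).map (algebraMap ℚ_[p] (PadicAlgCl p)) =
      (g.map (algebraMap ℚ Ω)).map ι := by
    rw [Polynomial.map_map, Polynomial.map_map]
    exact congrArg (g.map ·) (RingHom.ext_rat _ _)
  obtain ⟨b, hb, hab⟩ := exists_aroots_norm_sub_lt_of_norm_coeff_sub_lt hε (minpoly.aeval _ a) fm
    (gm.map _) (gd ▸ g.natDegree_map _) gc (IsAlgClosed.splits _)
  rw [← Real.rpow_natCast, ← mul_comm_div, div_self (by positivity), one_mul,
    ← Real.rpow_mul (by positivity), mul_inv_cancel₀ (by simpa using f0), Real.rpow_one,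
    div_mul_cancel₀ _ (by positivity)] at hab
  rw [aroots_def, e, (IsAlgClosed.splits _).roots_map, Multiset.mem_map] at hb
  obtain ⟨c, -, rfl⟩ := hb
  exact ⟨c, by rwa [dist_eq_norm]⟩

theorem ext_hom (hd : DenseRange ι) (g : Ω ≃+* Ω) (hg : ∀ z, ‖ι (g z)‖ = ‖ι z‖) :
    ∃ G : PadicAlgCl p →ₐ[ℚ_[p]] PadicComplex p,
      ∀ z, G (ι z) = algebraMap (PadicAlgCl p) _ (ι (g z)) := by
  let : NormedField Ω := NormedField.induced Ω (PadicAlgCl p) ι ι.injective
  have h1 : Isometry ι := AddMonoidHomClass.isometry_of_norm ι fun _ => rfl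
  let f : Ω →+* PadicComplex p := (algebraMap (PadicAlgCl p) _).comp (ι.comp g)
  have h2 : Isometry f := AddMonoidHomClass.isometry_of_norm f fun z =>
    (PadicComplex.norm_extends p _).trans (hg z)
  let G := IsDenseInducing.extendRingHom h1.isUniformInducing hd h2.uniformContinuous
  have hc : Continuous G :=
    (uniformContinuous_uniformly_extend h1.isUniformInducing hd h2.uniformContinuous).continuous
  have h3 : ∀ x : ℚ_[p], G (algebraMap _ _ x) = algebraMap _ _ x := fun x =>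
    (Padic.denseRange_ratCast p).induction_on x
      (isClosed_eq (hc.comp (continuous_algebraMap _ _)) (continuous_algebraMap _ _))
      fun q => by simp only [map_ratCast]
  exact ⟨⟨G, h3⟩, fun z => (h1.isUniformInducing.isDenseInducing hd).extend_eq h2.continuous z⟩

theorem ext : EXT_s := fun p _ Ω _ _ ι => ⟨ext_dense ι, fun g hg => by
  obtain ⟨G, hG⟩ := ext_hom ι (ext_dense ι) g hg
  refine ⟨G.restrictNormal' (PadicAlgCl p), fun z =>
    (algebraMap (PadicAlgCl p) (PadicComplex p)).injective ?_⟩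
  exact (G.restrictNormal_commutes (PadicAlgCl p) (ι z)).trans (hG z)⟩

end Pool.Agent.MP_855f4c_ag.E.M3

end

section

/-! The `p`-adic Frobenius and inertia conditions in terms of the norm. -/

namespace Pool.Agent.MP_855f4c_ag.E.M3

open LP

variable {p : ℕ} [Fact p.Prime]

lemma frb_norm_p : ‖algebraMap ℤ_[p] (PadicAlgCl p) (p : ℤ_[p])‖ < 1 := by
  rw [f0_norm_alg]
  exact PadicInt.norm_natCast_lt_one_iff.2 dvd_rfl

lemma frb_p_ne : (p : ℤ_[p]) ≠ 0 := Nat.cast_ne_zero.2 (Fact.out : p.Prime).ne_zero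

lemma frb_p_ne' : algebraMap ℤ_[p] (PadicAlgCl p) (p : ℤ_[p]) ≠ 0 := by
  rw [map_natCast]
  exact Nat.cast_ne_zero.2 (Fact.out : p.Prime).ne_zero

lemma frb_small (w : PadicAlgCl p) (hw : ‖w‖ < 1) : Small ℤ_[p] w := by
  have h0 : 0 < ‖algebraMap ℤ_[p] (PadicAlgCl p) (p : ℤ_[p])‖ := norm_pos_iff.2 frb_p_ne'
  obtain ⟨n, hn⟩ := exists_pow_lt_of_lt_one h0 hw
  refine ⟨n, p, w ^ n / algebraMap ℤ_[p] (PadicAlgCl p) (p : ℤ_[p]), ?_, ?_, ?_⟩
  · exact PadicInt.not_isUnit_iff.2 (PadicInt.norm_natCast_lt_one_iff.2 dvd_rfl)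
  · rw [← norm_le_iff, norm_div, norm_pow, div_le_one h0]
    exact hn.le
  · rw [mul_div_cancel₀ _ frb_p_ne']

lemma frb_fix (g : PadicAlgCl p ≃ₐ[ℚ_[p]] PadicAlgCl p) (o : ℤ_[p]) :
    g (algebraMap ℤ_[p] (PadicAlgCl p) o) = algebraMap ℤ_[p] (PadicAlgCl p) o := by
  rw [IsScalarTower.algebraMap_apply ℤ_[p] ℚ_[p] (PadicAlgCl p)]
  exact g.commutes _

lemma frb_one (g : PadicAlgCl p ≃ₐ[ℚ_[p]] PadicAlgCl p) (Q : ℕ) (S : Set (PadicAlgCl p))
    (hS : Dense S) (h : ∀ z ∈ S, ‖z‖ ≤ 1 → ‖g z ^ Q - z‖ < 1) : Frob ℤ_[p] Q g := by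
  have hn : ∀ z, ‖g z‖ = ‖z‖ :=
    norm_map (g : PadicAlgCl p →+* PadicAlgCl p) (frb_fix g)
  refine ⟨frb_fix g, fun z hz => frb_small _ ?_⟩
  have hz1 := (norm_le_iff z).2 hz
  obtain ⟨s, hs, hsS⟩ := Metric.dense_iff.1 hS z 1 one_pos
  rw [mem_ball_iff_norm] at hs
  have hs1 : ‖s‖ ≤ 1 := by
    have e : s = (s - z) + z := by ring
    rw [e]
    exact (IsUltrametricDist.norm_add_le_max _ _).trans (max_le hs.le hz1)
  have h1 : ‖g z - g s‖ < 1 := by
    rw [← map_sub, hn, norm_sub_rev]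
    exact hs
  have e : g z ^ Q - z = (g z ^ Q - g s ^ Q) + (g s ^ Q - s) + (s - z) := by ring
  rw [e]
  exact f0_add (f0_add (f0_pow ((hn z).le.trans hz1) ((hn s).le.trans hs1) h1 Q)
    (h s hsS hs1)) hs

lemma frb_two (g : PadicAlgCl p →+* PadicAlgCl p)
    (hg : ∀ o : ℤ_[p], g (algebraMap _ _ o) = algebraMap _ _ o) (hu : Fr0 1 g) (l : ℕ)
    (hl : l.Prime) (hlp : l ≠ p)
    (hcon : ∀ (n : ℕ) (r : PadicAlgCl p) (o : ℤ_[p]), r ^ l ^ n = algebraMap _ _ o → g r = r)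
    (n : ℕ) (r : PadicAlgCl p) (hr0 : r ≠ 0) (hr : g (r ^ l ^ n) = r ^ l ^ n)
    (h1 : ‖r ^ l ^ n‖ < 1) : g r = r := by
  have hcop : ∀ k : ℕ, p.Coprime (l ^ k) := fun k =>
    Nat.Coprime.pow_right k ((Nat.coprime_primes Fact.out hl).2 (Ne.symm hlp))
  have hl0 : ∀ k : ℕ, l ^ k ≠ 0 := fun k => pow_ne_zero k hl.ne_zero
  have hx0 : r ^ l ^ n ≠ 0 := pow_ne_zero _ hr0
  obtain ⟨a, b, ha, hab⟩ := mv_norm_rel (r ^ l ^ n) hx0 h1 (p : ℤ_[p]) frb_p_ne
  have hb : b ≠ 0 := by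
    rintro rfl
    rw [pow_zero] at hab
    exact absurd hab (pow_lt_one₀ (norm_nonneg _) frb_norm_p ha).ne
  obtain ⟨c, b', hb', hbc⟩ := Nat.exists_eq_pow_mul_and_not_dvd hb l hl.ne_one
  obtain ⟨r1, hr1⟩ := IsAlgClosed.exists_pow_nat_eq r (Nat.pos_of_ne_zero (hl0 c))
  obtain ⟨s, hs⟩ := IsAlgClosed.exists_pow_nat_eq
    (algebraMap ℤ_[p] (PadicAlgCl p) (p : ℤ_[p])) (Nat.pos_of_ne_zero (hl0 (c + n)))
  have hs0 : s ≠ 0 := by
    rintro rfl
    rw [zero_pow (hl0 _)] at hs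
    exact frb_p_ne' hs.symm
  have hro : r1 ^ l ^ (c + n) = r ^ l ^ n := by
    rw [pow_add, pow_mul, hr1]
  have hq : (r1 ^ b / s ^ a) ^ l ^ (c + n) =
      (r ^ l ^ n) ^ b / algebraMap ℤ_[p] (PadicAlgCl p) (p : ℤ_[p]) ^ a := by
    rw [div_pow, ← pow_mul r1, ← pow_mul s, mul_comm a, mul_comm b, pow_mul r1, pow_mul s, hro, hs]
  have hfix : g (r1 ^ b / s ^ a) = r1 ^ b / s ^ a := by
    apply mv_fix _ (hcop (c + n)) (hl0 _) _ hu
    · rw [hq, norm_div, norm_pow _ b, norm_pow _ a, hab,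
        div_self (pow_ne_zero _ (norm_ne_zero_iff.2 hx0))]
    · rw [hq, map_div₀, map_pow g _ b, map_pow g _ a, hr, hg]
  rw [map_div₀, map_pow g s, hcon _ _ _ hs, div_left_inj' (pow_ne_zero _ hs0), hbc, pow_mul,
    hr1, map_pow] at hfix
  have e1 : (g r / r) ^ b' = 1 := by
    rw [div_pow, hfix, div_self (pow_ne_zero _ hr0)]
  have e2 : (g r / r) ^ l ^ n = 1 := by
    rw [div_pow, ← map_pow, hr, div_self hx0]
  have e3 : (g r / r) ^ Nat.gcd (l ^ n) b' = 1 := pow_gcd_eq_one.2 ⟨e2, e1⟩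
  rw [Nat.Coprime.pow_left n ((Nat.Prime.coprime_iff_not_dvd hl).2 hb'), pow_one] at e3
  exact (div_eq_one_iff_eq hr0).1 e3

theorem frb : FRB_s := by
  intro p _ g
  refine ⟨frb_one g, fun l hl hlp hF n r hr hgr => ?_⟩
  by_contra hcon
  push Not at hcon
  have hu : Fr0 1 (g : PadicAlgCl p →+* PadicAlgCl p) := hF.fr0
  have hr0 : r ≠ 0 := by
    rintro rfl
    exact hgr (map_zero g)
  apply hgr
  rcases lt_trichotomy ‖r ^ l ^ n‖ 1 with h | h | h
  · exact frb_two (g : PadicAlgCl p →+* PadicAlgCl p) (frb_fix g) hu l hl.out hlp hcon n r hr0 hr h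
  · exact mv_fix (l ^ n)
      (Nat.Coprime.pow_right n ((Nat.coprime_primes Fact.out hl.out).2 (Ne.symm hlp)))
      (pow_ne_zero n hl.out.ne_zero) (g : PadicAlgCl p →+* PadicAlgCl p) hu r h hr
  · have := frb_two (g : PadicAlgCl p →+* PadicAlgCl p) (frb_fix g) hu l hl.out hlp hcon n r⁻¹
      (inv_ne_zero hr0) (by rw [inv_pow, map_inv₀]; exact congrArg _ hr)
      (by rw [inv_pow, norm_inv]; exact inv_lt_one_of_one_lt₀ h)
    rw [map_inv₀, inv_inj] at this
    exact this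

end Pool.Agent.MP_855f4c_ag.E.M3

end
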