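import Pool.Agent.MP_855f4c_ag.EC.F1a
import Pool.Agent.MP_855f4c_ag.EC.F2a

section

set_option backward.isDefEq.respectTransparency false

open CategoryTheory Limits Abelian Opposite Function

namespace Pool.Agent.MP_855f4c_ag.E

universe w w' v v' u u'

section LES
variable {X₁ X₂ X₃ Y₁ Y₂ Y₃ : ℕ → Type*} [∀ q, AddCommGroup (X₁ q)] [∀ q, AddCommGroup (X₂ q)]
  [∀ q, AddCommGroup (X₃ q)] [∀ q, AddCommGroup (Y₁ q)] [∀ q, AddCommGroup (Y₂ q)]
  [∀ q, AddCommGroup (Y₃ q)]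

/-- A long exact sequence `0 → X₁ 0 → X₂ 0 → X₃ 0 → X₁ 1 → ⋯`. -/
structure IsLES (f : ∀ q, X₁ q →+ X₂ q) (g : ∀ q, X₂ q →+ X₃ q) (d : ∀ q, X₃ q →+ X₁ (q + 1)) :
    Prop where
  inj : Injective (f 0)
  e₁ : ∀ q, Exact (d q) (f (q + 1))
  e₂ : ∀ q, Exact (f q) (g q)
  e₃ : ∀ q, Exact (g q) (d q)

variable {f : ∀ q, X₁ q →+ X₂ q} {g : ∀ q, X₂ q →+ X₃ q} {d : ∀ q, X₃ q →+ X₁ (q + 1)}
  {f' : ∀ q, Y₁ q →+ Y₂ q} {g' : ∀ q, Y₂ q →+ Y₃ q} {d' : ∀ q, Y₃ q →+ Y₁ (q + 1)}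
  (h : IsLES f g d) (h' : IsLES f' g' d')
  (a : ∀ q, X₁ q →+ Y₁ q) (b : ∀ q, X₂ q →+ Y₂ q) (c : ∀ q, X₃ q →+ Y₃ q)
  (hf : ∀ q x, f' q (a q x) = b q (f q x)) (hg : ∀ q x, g' q (b q x) = c q (g q x))
  (hd : ∀ q x, d' q (c q x) = a (q + 1) (d q x))
include h h' hf hg hd

lemma IsLES.inj₁_succ (q) (hb : Surjective (b q)) (hc : Injective (c q))
    (hb' : Injective (b (q + 1))) : Injective (a (q + 1)) :=
  AddMonoidHom.injective_of_surjective_of_injective_of_injective (g q) (d q) (f (q + 1))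
    (g' q) (d' q) (f' (q + 1)) (b q) (c q) (a (q + 1)) (b (q + 1)) (AddMonoidHom.ext (hg q))
    (AddMonoidHom.ext (hd q)) (AddMonoidHom.ext (hf _)) (h.e₃ q) (h.e₁ q) (h'.e₃ q) hb hc hb'

lemma IsLES.surj₁_succ (q) (hc : Surjective (c q)) (hb : Surjective (b (q + 1)))
    (hc' : Injective (c (q + 1))) : Surjective (a (q + 1)) :=
  AddMonoidHom.surjective_of_surjective_of_surjective_of_injective (d q) (f (q + 1)) (g (q + 1))
    (d' q) (f' (q + 1)) (g' (q + 1)) (c q) (a (q + 1)) (b (q + 1)) (c (q + 1))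
    (AddMonoidHom.ext (hd q)) (AddMonoidHom.ext (hf _)) (AddMonoidHom.ext (hg _))
    (h.e₂ _) (h'.e₁ q) (h'.e₂ _) hc hb hc'

omit h' hg hd in
lemma IsLES.inj₁_zero (hb : Injective (b 0)) : Injective (a 0) := fun x y e =>
  h.inj (hb (by rw [← hf, ← hf, e]))

omit hd in
lemma IsLES.surj₁_zero (hb : Surjective (b 0)) (hc : Injective (c 0)) : Surjective (a 0) := by
  intro y
  obtain ⟨x, hx⟩ := hb (f' 0 y)
  obtain ⟨z, rfl⟩ := (h.e₂ 0 x).1 (hc (by rw [← hg, hx, map_zero, (h'.e₂ 0).apply_apply_eq_zero]))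
  exact ⟨z, h'.inj (by rw [hf, hx])⟩

lemma IsLES.bij₁ (hb : ∀ q, Bijective (b q)) (hc : ∀ q, Bijective (c q)) (q) :
    Bijective (a q) := by
  cases q with
  | zero => exact ⟨h.inj₁_zero a b hf (hb 0).1, h.surj₁_zero h' a b c hf hg (hb 0).2 (hc 0).1⟩
  | succ q =>
    exact ⟨h.inj₁_succ h' a b c hf hg hd q (hb _).2 (hc _).1 (hb _).1,
      h.surj₁_succ h' a b c hf hg hd q (hc _).2 (hb _).2 (hc _).1⟩

lemma IsLES.surj₂ (q) (ha : Surjective (a q)) (hc : Surjective (c q))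
    (ha' : Injective (a (q + 1))) : Surjective (b q) :=
  AddMonoidHom.surjective_of_surjective_of_surjective_of_injective (f q) (g q) (d q)
    (f' q) (g' q) (d' q) (a q) (b q) (c q) (a (q + 1))
    (AddMonoidHom.ext (hf q)) (AddMonoidHom.ext (hg _)) (AddMonoidHom.ext (hd _))
    (h.e₃ _) (h'.e₂ q) (h'.e₃ _) ha hc ha'

lemma IsLES.inj₂_succ (q) (hc : Surjective (c q)) (ha : Injective (a (q + 1)))
    (hc' : Injective (c (q + 1))) : Injective (b (q + 1)) :=
  AddMonoidHom.injective_of_surjective_of_injective_of_injective (d q) (f (q + 1)) (g (q + 1))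
    (d' q) (f' (q + 1)) (g' (q + 1)) (c q) (a (q + 1)) (b (q + 1)) (c (q + 1))
    (AddMonoidHom.ext (hd q)) (AddMonoidHom.ext (hf _)) (AddMonoidHom.ext (hg _))
    (h.e₁ q) (h.e₂ _) (h'.e₁ q) hc ha hc'

omit hd in
lemma IsLES.inj₂_zero (ha : Injective (a 0)) (hc : Injective (c 0)) : Injective (b 0) := by
  refine (injective_iff_map_eq_zero _).2 fun x hx => ?_
  obtain ⟨z, rfl⟩ := (h.e₂ 0 x).1 (hc (by rw [← hg, hx, map_zero, map_zero]))
  rw [ha (h'.inj (by rw [hf, hx, map_zero, map_zero]) : a 0 z = a 0 0), map_zero]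

lemma IsLES.bij₂ (ha : ∀ q, Bijective (a q)) (hc : ∀ q, Bijective (c q)) (q) :
    Bijective (b q) := by
  refine ⟨?_, h.surj₂ h' a b c hf hg hd q (ha _).2 (hc _).2 (ha _).1⟩
  cases q with
  | zero => exact h.inj₂_zero h' a b c hf hg (ha _).1 (hc _).1
  | succ q => exact h.inj₂_succ h' a b c hf hg hd q (hc _).2 (ha _).1 (hc _).1

lemma IsLES.inj₃ (q) (ha : Surjective (a q)) (hb : Injective (b q))
    (ha' : Injective (a (q + 1))) : Injective (c q) := by
  refine (injective_iff_map_eq_zero _).2 fun x hx => ?_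
  obtain ⟨y, rfl⟩ := (h.e₃ q x).1 (ha' (by rw [← hd, hx, map_zero, map_zero]))
  obtain ⟨z, hz⟩ := (h'.e₂ q (b q y)).1 (by rw [hg, hx])
  obtain ⟨z, rfl⟩ := ha z
  rw [hf] at hz
  rw [← hb hz, (h.e₂ q).apply_apply_eq_zero]

lemma IsLES.surj₃ (q) (hb : Surjective (b q)) (ha : Surjective (a (q + 1)))
    (hb' : Injective (b (q + 1))) : Surjective (c q) :=
  AddMonoidHom.surjective_of_surjective_of_surjective_of_injective (g q) (d q) (f (q + 1))
    (g' q) (d' q) (f' (q + 1)) (b q) (c q) (a (q + 1)) (b (q + 1))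
    (AddMonoidHom.ext (hg q)) (AddMonoidHom.ext (hd _)) (AddMonoidHom.ext (hf _))
    (h.e₁ _) (h'.e₃ q) (h'.e₁ _) hb ha hb'

lemma IsLES.bij₃ (ha : ∀ q, Bijective (a q)) (hb : ∀ q, Bijective (b q)) (q) :
    Bijective (c q) :=
  ⟨h.inj₃ h' a b c hf hg hd q (ha _).2 (hb _).1 (ha _).1,
    h.surj₃ h' a b c hf hg hd q (hb _).2 (ha _).2 (hb _).1⟩
end LES

section Ext
variable {C : Type u} [Category.{v} C] [Abelian C] [HasExt.{w} C]

/-- Contravariant functoriality of `Ext`. -/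
noncomputable abbrev pre {A' A : C} (a : A' ⟶ A) (F : C) (q : ℕ) : Ext A F q →+ Ext A' F q :=
  (Ext.mk₀ a).precomp F (zero_add q)
/-- Covariant functoriality of `Ext`. -/
noncomputable abbrev post (A : C) {F G : C} (φ : F ⟶ G) (q : ℕ) : Ext A F q →+ Ext A G q :=
  (Ext.mk₀ φ).postcomp A (add_zero q)
/-- Connecting map in the coefficient variable. -/
noncomputable abbrev dl (A : C) {S : ShortComplex C} (hS : S.ShortExact) (q : ℕ) :
    Ext A S.X₃ q →+ Ext A S.X₁ (q + 1) := hS.extClass.postcomp A rfl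
/-- Connecting map in the source variable. -/
noncomputable abbrev dr {S : ShortComplex C} (hS : S.ShortExact) (F : C) (q : ℕ) :
    Ext S.X₁ F q →+ Ext S.X₃ F (q + 1) := hS.extClass.precomp F (add_comm 1 q)

lemma pre_apply {A' A F : C} (a : A' ⟶ A) {q} (x : Ext A F q) :
    pre a F q x = (Ext.mk₀ a).comp x (zero_add q) := rfl
lemma post_apply {A F G : C} (φ : F ⟶ G) {q} (x : Ext A F q) :
    post A φ q x = x.comp (Ext.mk₀ φ) (add_zero q) := rfl
lemma dl_apply {A : C} {S : ShortComplex C} (hS : S.ShortExact) {q} (x : Ext A S.X₃ q) :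
    dl A hS q x = x.comp hS.extClass rfl := rfl
lemma dr_apply {F : C} {S : ShortComplex C} (hS : S.ShortExact) {q} (x : Ext S.X₁ F q) :
    dr hS F q x = hS.extClass.comp x (add_comm 1 q) := rfl

lemma pre_pre {A'' A' A F : C} (b : A'' ⟶ A') (a : A' ⟶ A) {q} (x : Ext A F q) :
    pre b F q (pre a F q x) = pre (b ≫ a) F q x := Ext.mk₀_comp_mk₀_assoc _ _ _
lemma pre_id {A F : C} {q} (x : Ext A F q) : pre (𝟙 A) F q x = x := Ext.mk₀_id_comp _
lemma post_post {A F G K : C} (φ : F ⟶ G) (ψ : G ⟶ K) {q} (x : Ext A F q) :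
    post A ψ q (post A φ q x) = post A (φ ≫ ψ) q x := by
  simp only [post_apply, Ext.comp_assoc_of_second_deg_zero, Ext.mk₀_comp_mk₀]
lemma post_id {A F : C} {q} (x : Ext A F q) : post A (𝟙 F) q x = x := Ext.comp_mk₀_id _
lemma pre_post {A' A F G : C} (a : A' ⟶ A) (φ : F ⟶ G) {q} (x : Ext A F q) :
    pre a G q (post A φ q x) = post A' φ q (pre a F q x) :=
  (Ext.comp_assoc _ _ _ (zero_add q) (add_zero q) (by omega)).symm
lemma pre_dl {A' A : C} (a : A' ⟶ A) {S : ShortComplex C} (hS : S.ShortExact) {q}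
    (x : Ext A S.X₃ q) : pre a _ _ (dl A hS q x) = dl A' hS q (pre a _ q x) :=
  (Ext.comp_assoc _ _ _ (zero_add q) rfl (by omega)).symm
lemma post_dr {F G : C} (φ : F ⟶ G) {S : ShortComplex C} (hS : S.ShortExact) {q}
    (x : Ext S.X₁ F q) : post _ φ _ (dr hS F q x) = dr hS G q (post _ φ q x) :=
  Ext.comp_assoc _ _ _ (add_comm 1 q) (add_zero q) (by omega)
lemma post_dl {A : C} {S T : ShortComplex C} (hS : S.ShortExact) (hT : T.ShortExact) (φ : S ⟶ T)
    {q} (x : Ext A S.X₃ q) : post A φ.τ₁ _ (dl A hS q x) = dl A hT q (post A φ.τ₃ q x) := by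
  rw [post_apply, post_apply, dl_apply, dl_apply,
    Ext.comp_assoc _ _ _ rfl (add_zero 1) (by omega), hS.extClass_naturality hT φ,
    Ext.comp_assoc _ _ _ (add_zero q) (zero_add 1) (by omega)]
lemma pre_dr {F : C} {S T : ShortComplex C} (hS : S.ShortExact) (hT : T.ShortExact) (φ : S ⟶ T)
    {q} (x : Ext T.X₁ F q) : pre φ.τ₃ F _ (dr hT F q x) = dr hS F q (pre φ.τ₁ F q x) := by
  rw [pre_apply, pre_apply, dr_apply, dr_apply,
    ← Ext.comp_assoc _ _ _ (zero_add 1) (add_comm 1 q) (by omega), ← hS.extClass_naturality hT φ,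
    Ext.comp_assoc _ _ _ (add_zero 1) (zero_add q) (by omega)]

lemma pre_bij {A' A : C} (a : A' ⟶ A) [IsIso a] (F : C) (q) : Bijective (pre a F q) :=
  bijective_iff_has_inverse.2 ⟨pre (inv a) F q, fun x => by rw [pre_pre, IsIso.inv_hom_id, pre_id],
    fun x => by rw [pre_pre, IsIso.hom_inv_id, pre_id]⟩
lemma post_bij (A : C) {F G : C} (φ : F ⟶ G) [IsIso φ] (q) : Bijective (post A φ q) :=
  bijective_iff_has_inverse.2 ⟨post A (inv φ) q,
    fun x => by rw [post_post, IsIso.hom_inv_id, post_id],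
    fun x => by rw [post_post, IsIso.inv_hom_id, post_id]⟩

lemma cov_les (A : C) {S : ShortComplex C} (hS : S.ShortExact) :
    IsLES (post A S.f) (post A S.g) (dl A hS) where
  inj := have := hS.mono_f; Ext.postcomp_mk₀_injective_of_mono A S.f
  e₁ q := (ShortComplex.ab_exact_iff_function_exact _).1
    (Ext.covariant_sequence_exact₁' A hS q (q + 1) rfl)
  e₂ q := (ShortComplex.ab_exact_iff_function_exact _).1 (Ext.covariant_sequence_exact₂' A hS q)
  e₃ q := (ShortComplex.ab_exact_iff_function_exact _).1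
    (Ext.covariant_sequence_exact₃' A hS q (q + 1) rfl)

lemma con_les {S : ShortComplex C} (hS : S.ShortExact) (F : C) :
    IsLES (pre S.g F) (pre S.f F) (dr hS F) where
  inj := have := hS.epi_g; Ext.precomp_mk₀_injective_of_epi F S.g
  e₁ q := (ShortComplex.ab_exact_iff_function_exact _).1
    (Ext.contravariant_sequence_exact₃' hS F q (q + 1) (add_comm 1 q))
  e₂ q := (ShortComplex.ab_exact_iff_function_exact _).1
    (Ext.contravariant_sequence_exact₂' hS F q)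
  e₃ q := (ShortComplex.ab_exact_iff_function_exact _).1
    (Ext.contravariant_sequence_exact₁' hS F q (q + 1) (add_comm 1 q))

/-- `a : A' ⟶ A` induces bijections on all `Ext^q(-, F)`. -/
def ExtBij {A' A : C} (a : A' ⟶ A) (F : C) : Prop := ∀ q, Bijective (pre.{w} a F q)

section
variable {A' A : C} {a : A' ⟶ A} {S : ShortComplex C} (hS : S.ShortExact)
include hS
lemma ExtBij.X₁ (h₂ : ExtBij.{w} a S.X₂) (h₃ : ExtBij.{w} a S.X₃) : ExtBij.{w} a S.X₁ :=
  (cov_les A hS).bij₁ (cov_les A' hS) _ _ _ (fun _ x => (pre_post a _ x).symm)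
    (fun _ x => (pre_post a _ x).symm) (fun _ x => (pre_dl a hS x).symm) h₂ h₃
/-- **DEV** (five lemma in the coefficients). -/
lemma ExtBij.X₂ (h₁ : ExtBij.{w} a S.X₁) (h₃ : ExtBij.{w} a S.X₃) : ExtBij.{w} a S.X₂ :=
  (cov_les A hS).bij₂ (cov_les A' hS) _ _ _ (fun _ x => (pre_post a _ x).symm)
    (fun _ x => (pre_post a _ x).symm) (fun _ x => (pre_dl a hS x).symm) h₁ h₃
lemma ExtBij.X₃ (h₁ : ExtBij.{w} a S.X₁) (h₂ : ExtBij.{w} a S.X₂) : ExtBij.{w} a S.X₃ :=
  (cov_les A hS).bij₃ (cov_les A' hS) _ _ _ (fun _ x => (pre_post a _ x).symm)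
    (fun _ x => (pre_post a _ x).symm) (fun _ x => (pre_dl a hS x).symm) h₁ h₂
end

lemma ExtBij.of_iso {A' A F G : C} {a : A' ⟶ A} (h : ExtBij.{w} a F) (e : F ≅ G) :
    ExtBij.{w} a G := fun q => by
  have h1 : (pre a G q) ∘ (post A e.hom q) = (post A' e.hom q) ∘ (pre a F q) :=
    funext fun x => pre_post a e.hom x
  exact (Bijective.of_comp_iff _ (post_bij A e.hom q)).1
    (h1 ▸ (post_bij A' e.hom q).comp (h q))

section
variable {S T : ShortComplex C} (hS : S.ShortExact) (hT : T.ShortExact) (φ : S ⟶ T) {F : C}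
include hS hT
lemma ExtBij.τ₁ (h₂ : ExtBij.{w} φ.τ₂ F) (h₃ : ExtBij.{w} φ.τ₃ F) : ExtBij.{w} φ.τ₁ F :=
  (con_les hT F).bij₃ (con_les hS F) (pre φ.τ₃ F) (pre φ.τ₂ F) (pre φ.τ₁ F)
    (fun _ x => by rw [pre_pre, pre_pre, φ.comm₂₃]) (fun _ x => by rw [pre_pre, pre_pre, φ.comm₁₂])
    (fun _ x => (pre_dr hS hT φ x).symm) h₃ h₂
lemma ExtBij.τ₂ (h₁ : ExtBij.{w} φ.τ₁ F) (h₃ : ExtBij.{w} φ.τ₃ F) : ExtBij.{w} φ.τ₂ F :=
  (con_les hT F).bij₂ (con_les hS F) (pre φ.τ₃ F) (pre φ.τ₂ F) (pre φ.τ₁ F)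
    (fun _ x => by rw [pre_pre, pre_pre, φ.comm₂₃]) (fun _ x => by rw [pre_pre, pre_pre, φ.comm₁₂])
    (fun _ x => (pre_dr hS hT φ x).symm) h₃ h₁
lemma ExtBij.τ₃ (h₁ : ExtBij.{w} φ.τ₁ F) (h₂ : ExtBij.{w} φ.τ₂ F) : ExtBij.{w} φ.τ₃ F :=
  (con_les hT F).bij₁ (con_les hS F) (pre φ.τ₃ F) (pre φ.τ₂ F) (pre φ.τ₁ F)
    (fun _ x => by rw [pre_pre, pre_pre, φ.comm₂₃]) (fun _ x => by rw [pre_pre, pre_pre, φ.comm₁₂])
    (fun _ x => (pre_dr hS hT φ x).symm) h₂ h₁
end

/-- **EMB**. -/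
theorem emb {A' A : C} (a : A' ⟶ A) (𝒞 : C → Prop)
    (h : ∀ F, 𝒞 F → ∃ S : ShortComplex C, S.ShortExact ∧ Nonempty (S.X₁ ≅ F) ∧
      ExtBij.{w} a S.X₂ ∧ 𝒞 S.X₃) (F : C) (hF : 𝒞 F) : ExtBij.{w} a F := by
  have tr : ∀ {F G : C} (e : F ≅ G) (q),
      (pre.{w} a G q) ∘ (post A e.hom q) = (post A' e.hom q) ∘ (pre a F q) :=
    fun e q => funext fun x => pre_post a e.hom x
  have hi : ∀ q F, 𝒞 F → Injective (pre.{w} a F q) := by
    intro q
    induction q with
    | zero =>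
      intro F hF
      obtain ⟨S, hS, ⟨e⟩, h₂, -⟩ := h F hF
      refine Injective.of_comp_right ?_ (post_bij A e.hom 0).2
      rw [tr]
      exact (post_bij A' e.hom 0).1.comp ((cov_les A hS).inj₁_zero (pre a _) (pre a _)
        (fun _ x => (pre_post a _ x).symm) (h₂ 0).1)
    | succ q ih =>
      intro F hF
      obtain ⟨S, hS, ⟨e⟩, h₂, h₃⟩ := h F hF
      refine Injective.of_comp_right ?_ (post_bij A e.hom _).2
      rw [tr]
      exact (post_bij A' e.hom _).1.comp ((cov_les A hS).inj₁_succ (cov_les A' hS) (pre a _)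
        (pre a _) (pre a _) (fun _ x => (pre_post a _ x).symm) (fun _ x => (pre_post a _ x).symm)
        (fun _ x => (pre_dl a hS x).symm) q (h₂ _).2 (ih _ h₃) (h₂ _).1)
  have hs : ∀ q F, 𝒞 F → Surjective (pre.{w} a F q) := by
    intro q
    induction q with
    | zero =>
      intro F hF
      obtain ⟨S, hS, ⟨e⟩, h₂, h₃⟩ := h F hF
      refine Surjective.of_comp (g := post A e.hom 0) ?_
      rw [tr]
      exact (post_bij A' e.hom 0).2.comp ((cov_les A hS).surj₁_zero (cov_les A' hS) (pre a _)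
        (pre a _) (pre a _) (fun _ x => (pre_post a _ x).symm) (fun _ x => (pre_post a _ x).symm)
        (h₂ 0).2 (hi _ _ h₃))
    | succ q ih =>
      intro F hF
      obtain ⟨S, hS, ⟨e⟩, h₂, h₃⟩ := h F hF
      refine Surjective.of_comp (g := post A e.hom _) ?_
      rw [tr]
      exact (post_bij A' e.hom _).2.comp ((cov_les A hS).surj₁_succ (cov_les A' hS) (pre a _)
        (pre a _) (pre a _) (fun _ x => (pre_post a _ x).symm) (fun _ x => (pre_post a _ x).symm)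
        (fun _ x => (pre_dl a hS x).symm) q (ih _ h₃) (h₂ _).2 (hi _ _ h₃))
  exact fun q => ⟨hi q F hF, hs q F hF⟩

end Ext

end Pool.Agent.MP_855f4c_ag.E

end

section

set_option backward.isDefEq.respectTransparency false

open CategoryTheory Limits Abelian Opposite AlgebraicGeometry

namespace Pool.Agent.MP_855f4c_ag.E

universe v u

section
variable {C : Type u} [Category.{v} C] (J : GrothendieckTopology C)

instance fr_mono {U T : C} (i : U ⟶ T) [Mono i] : Mono ((fr J).map i) := by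
  have h : ∀ Y, Mono ((frP.map i).app Y) := fun Y =>
    (AddCommGrpCat.mono_iff_injective _).2 (Finsupp.mapDomain_injective
      (f := fun x : ULift.{u} (Y.unop ⟶ U) => (⟨x.down ≫ i⟩ : ULift.{u} (Y.unop ⟶ T)))
      fun x y e => ULift.ext _ _ ((cancel_mono i).1 (congrArg ULift.down e)))
  have : Mono (frP.map i) := NatTrans.mono_of_mono_app _
  exact inferInstanceAs (Mono ((presheafToSheaf J Ab.{max u v}).map (frP.map i)))

/-- `ℤ[U] → ℤ[T] → ℤ[T]/ℤ[U]`. -/
noncomputable def pairS {U T : C} (i : U ⟶ T) : ShortComplex (Sh J) :=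
  ShortComplex.mk _ _ (cokernel.condition ((fr J).map i))

lemma pair_exact {U T : C} (i : U ⟶ T) [Mono i] : (pairS J i).ShortExact where
  exact := ShortComplex.exact_cokernel _
  mono_f := fr_mono J i
  epi_g := inferInstanceAs (Epi (cokernel.π _))

/-- A map of pairs. -/
noncomputable def pairMap {U T U' T' : C} {i : U ⟶ T} {i' : U' ⟶ T'} (a : U' ⟶ U) (b : T' ⟶ T)
    (h : i' ≫ b = a ≫ i) : pairS J i' ⟶ pairS J i :=
  ⟨(fr J).map a, (fr J).map b, cokernel.map _ _ ((fr J).map a) ((fr J).map b)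
    (by rw [← Functor.map_comp, ← Functor.map_comp, h]),
    by
      change (fr J).map a ≫ (fr J).map i = (fr J).map i' ≫ (fr J).map b
      rw [← Functor.map_comp, ← Functor.map_comp, h],
    (cokernel.π_desc _ _ _).symm⟩

variable {W U₁ U₂ T : C} {a₁ : W ⟶ U₁} {a₂ : W ⟶ U₂} {i₁ : U₁ ⟶ T} {i₂ : U₂ ⟶ T}

/-- `ℤ[W] → ℤ[U₁] ⊞ ℤ[U₂] → ℤ[T]`. -/
noncomputable def mvS (h : a₁ ≫ i₁ = a₂ ≫ i₂) : ShortComplex (Sh J) :=
  ShortComplex.mk (biprod.lift ((fr J).map a₁) (-(fr J).map a₂))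
    (biprod.desc ((fr J).map i₁) ((fr J).map i₂)) (by
      rw [biprod.lift_desc, Preadditive.neg_comp, ← Functor.map_comp, ← Functor.map_comp, h,
        add_neg_cancel])

variable {J} in
lemma F1M.rr (F : Sh J) {Z Y X : C} (g : Z ⟶ Y) (f : Y ⟶ X) (s : F.obj.obj (op X)) :
    F.obj.map g.op (F.obj.map f.op s) = F.obj.map (g ≫ f).op s := by
  simp only [op_comp, Functor.map_comp, ConcreteCategory.comp_apply]

variable {J} in
lemma F1M.glueS (F : Sh J) {U : C}
    (R : ∀ ⦃Y : C⦄, (Y ⟶ U) → F.obj.obj (op Y) → Prop) (S : Sieve U) (hS : S ∈ J U)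
    (h1 : ∀ ⦃Y⦄ (y : Y ⟶ U), S y → ∃ x, R y x)
    (h2 : ∀ ⦃Z Y⦄ (g : Z ⟶ Y) (y : Y ⟶ U) x, R y x → R (g ≫ y) (F.obj.map g.op x))
    (h3 : ∀ ⦃Y⦄ (y : Y ⟶ U) x x', R y x → R y x' → x = x') :
    ∃ t : F.obj.obj (op U), ∀ ⦃Y⦄ (y : Y ⟶ U) x, R y x → F.obj.map y.op t = x := by
  choose x hx using h1
  obtain ⟨t, ht, -⟩ := (isSheaf_iff_isSheaf_of_type J _).1
    ((sheafCompose J (forget Ab.{max u v})).obj F).property S hS (fun Y y hy => x y hy) (by
    intro Y₁ Y₂ Z g₁ g₂ f₁ f₂ h₁ h₂ e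
    exact h3 (g₁ ≫ f₁) _ _ (h2 g₁ _ _ (hx f₁ h₁)) (e ▸ h2 g₂ _ _ (hx f₂ h₂)))
  refine ⟨t, fun Y y z hz => sep F (J.pullback_stable y hS) fun Z g hg => ?_⟩
  rw [F1M.rr]
  exact (ht _ hg).trans (h3 _ _ _ (hx _ hg) (h2 g y z hz))

theorem mv_exact (h : IsPullback a₁ a₂ i₁ i₂) [Mono i₁] [Mono i₂]
    (hc : ∃ S ∈ J T, ∀ ⦃Y⦄ (y : Y ⟶ T), S y → (∃ z, z ≫ i₁ = y) ∨ ∃ z, z ≫ i₂ = y) :
    (mvS J h.w).ShortExact := by
  obtain ⟨S, hS, hc⟩ := hc
  have hm : Mono a₁ := ⟨fun x y e => h.hom_ext e ((cancel_mono i₂).1 (by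
    rw [Category.assoc, Category.assoc, ← h.w, reassoc_of% e]))⟩
  have he : Epi (mvS J h.w).g := by
    refine ⟨fun {F} a b hab => (frEquiv T F).injective (sep F hS fun Y y hy => ?_)⟩
    have e1 : (fr J).map i₁ ≫ a = (fr J).map i₁ ≫ b := by
      simpa [mvS] using biprod.inl ≫= hab
    have e2 : (fr J).map i₂ ≫ a = (fr J).map i₂ ≫ b := by
      simpa [mvS] using biprod.inr ≫= hab
    rcases hc y hy with ⟨z, rfl⟩ | ⟨z, rfl⟩
    · rw [← F1M.rr, ← F1M.rr, ← frEquiv_pre i₁, ← frEquiv_pre i₁, e1]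
    · rw [← F1M.rr, ← F1M.rr, ← frEquiv_pre i₂, ← frEquiv_pre i₂, e2]
  have hf : Mono (mvS J h.w).f :=
    mono_of_mono_fac (biprod.lift_fst ((fr J).map a₁) (-(fr J).map a₂))
  refine ⟨ShortComplex.exact_of_g_is_cokernel _
    (CokernelCofork.IsColimit.ofπ' _ _ fun {F} k hk => ?_)⟩
  have e0 : (fr J).map a₁ ≫ biprod.inl ≫ k = (fr J).map a₂ ≫ biprod.inr ≫ k := by
    have h1 : biprod.lift ((fr J).map a₁) (-(fr J).map a₂) ≫
        biprod.desc (biprod.inl ≫ k) (biprod.inr ≫ k) = 0 := by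
      rw [← hk]
      congr 1
      refine biprod.hom_ext' _ _ ?_ ?_ <;> simp
    rw [biprod.lift_desc, Preadditive.neg_comp] at h1
    exact add_neg_eq_zero.1 h1
  have e1 := congrArg (frEquiv W F) e0
  rw [frEquiv_pre, frEquiv_pre] at e1
  have key : ∀ ⦃Y⦄ (z : Y ⟶ U₁) (z' : Y ⟶ U₂), z ≫ i₁ = z' ≫ i₂ →
      F.obj.map z.op (frEquiv U₁ F (biprod.inl ≫ k)) =
        F.obj.map z'.op (frEquiv U₂ F (biprod.inr ≫ k)) := by
    intro Y z z' e
    rw [← h.lift_fst z z' e, ← F1M.rr, e1, F1M.rr, h.lift_snd]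
  have ex := F1M.glueS F (U := T) (fun Y y x =>
    (∃ z, z ≫ i₁ = y ∧ x = F.obj.map z.op (frEquiv U₁ F (biprod.inl ≫ k))) ∨
      ∃ z, z ≫ i₂ = y ∧ x = F.obj.map z.op (frEquiv U₂ F (biprod.inr ≫ k))) S hS
    (fun Y y hy => (hc y hy).elim (fun ⟨z, e⟩ => ⟨_, .inl ⟨z, e, rfl⟩⟩)
      fun ⟨z, e⟩ => ⟨_, .inr ⟨z, e, rfl⟩⟩)
    (by
      rintro Z Y g _ _ (⟨z, rfl, rfl⟩ | ⟨z, rfl, rfl⟩)
      exacts [.inl ⟨g ≫ z, Category.assoc _ _ _, F1M.rr F _ _ _⟩,
        .inr ⟨g ≫ z, Category.assoc _ _ _, F1M.rr F _ _ _⟩])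
    (by
      rintro Y _ _ _ (⟨z, rfl, rfl⟩ | ⟨z, rfl, rfl⟩) (⟨z', e, rfl⟩ | ⟨z', e, rfl⟩)
      · rw [(cancel_mono i₁).1 e]
      · exact key _ _ e.symm
      · exact (key _ _ e).symm
      · rw [(cancel_mono i₂).1 e])
  refine ⟨(frEquiv T F).symm ex.choose, biprod.hom_ext' _ _ ?_ ?_⟩
  · refine (frEquiv U₁ F).injective ?_
    rw [show biprod.inl ≫ (mvS J h.w).g ≫ (frEquiv T F).symm ex.choose =
      (fr J).map i₁ ≫ (frEquiv T F).symm ex.choose from biprod.inl_desc_assoc _ _ _,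
      frEquiv_pre, AddEquiv.apply_symm_apply]
    exact ex.choose_spec i₁ _ (.inl ⟨𝟙 _, Category.id_comp _, by simp⟩)
  · refine (frEquiv U₂ F).injective ?_
    rw [show biprod.inr ≫ (mvS J h.w).g ≫ (frEquiv T F).symm ex.choose =
      (fr J).map i₂ ≫ (frEquiv T F).symm ex.choose from biprod.inr_desc_assoc _ _ _,
      frEquiv_pre, AddEquiv.apply_symm_apply]
    exact ex.choose_spec i₂ _ (.inr ⟨𝟙 _, Category.id_comp _, by simp⟩)

/-- A map of squares. -/
noncomputable def mvMap {W' U₁' U₂' T' : C} {a₁' : W' ⟶ U₁'} {a₂' : W' ⟶ U₂'} {i₁' : U₁' ⟶ T'}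
    {i₂' : U₂' ⟶ T'} (h : a₁ ≫ i₁ = a₂ ≫ i₂) (h' : a₁' ≫ i₁' = a₂' ≫ i₂') (w : W' ⟶ W)
    (u₁ : U₁' ⟶ U₁) (u₂ : U₂' ⟶ U₂) (t : T' ⟶ T) (e₁ : a₁' ≫ u₁ = w ≫ a₁) (e₂ : a₂' ≫ u₂ = w ≫ a₂)
    (e₃ : i₁' ≫ t = u₁ ≫ i₁) (e₄ : i₂' ≫ t = u₂ ≫ i₂) : mvS J h' ⟶ mvS J h :=
  ⟨(fr J).map w, biprod.map ((fr J).map u₁) ((fr J).map u₂), (fr J).map t,
    by
      refine biprod.hom_ext _ _ ?_ ?_ <;> simp [mvS, ← Functor.map_comp, e₁, e₂],
    by
      refine biprod.hom_ext' _ _ ?_ ?_ <;> simp [mvS, ← Functor.map_comp, e₃, e₄]⟩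

variable {J}
/-- The Mayer-Vietoris sequence with elements. -/
theorem mv_les {h : a₁ ≫ i₁ = a₂ ≫ i₂} (hS : (mvS J h).ShortExact) (F : Sh J) :
    IsLES (X₂ := fun q => H U₁ F q × H U₂ F q) (fun q => (res i₁ F q).prod (res i₂ F q))
      (fun q => (res a₁ F q).coprod (-res a₂ F q)) (dr hS F) := by
  have L := con_les hS F
  have hf : ∀ q (x : H T F q), (res i₁ F q).prod (res i₂ F q) x =
      Ext.biprodAddEquiv (pre (mvS J h).g F q x) := fun q x => by
    refine Prod.ext ?_ ?_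
    · change pre _ F q x = pre biprod.inl F q (pre _ F q x)
      rw [pre_pre]
      exact congrArg (fun φ => pre φ F q x) (biprod.inl_desc _ _).symm
    · change pre _ F q x = pre biprod.inr F q (pre _ F q x)
      rw [pre_pre]
      exact congrArg (fun φ => pre φ F q x) (biprod.inr_desc _ _).symm
  have hg : ∀ q (y : Ext ((fr J).obj U₁ ⊞ (fr J).obj U₂) F q),
      (res a₁ F q).coprod (-res a₂ F q) (Ext.biprodAddEquiv y) = pre (mvS J h).f F q y := by
    intro q y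
    change pre _ F q (pre biprod.inl F q y) + -pre _ F q (pre biprod.inr F q y) =
      pre (biprod.lift _ _) F q y
    rw [pre_pre, pre_pre, biprod.lift_eq, pre_apply, pre_apply, pre_apply, Ext.mk₀_add,
      Ext.add_comp, Preadditive.neg_comp, Ext.mk₀_neg, Ext.neg_comp]
  refine ⟨fun x y e => L.inj (Ext.biprodAddEquiv.injective (by rw [← hf, ← hf]; exact e)),
    fun q x => ?_, fun q y => ?_, fun q x => ?_⟩
  · rw [hf, AddEquiv.map_eq_zero_iff]
    exact L.e₁ q x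
  · obtain ⟨y, rfl⟩ := Ext.biprodAddEquiv.surjective y
    rw [hg]
    refine (L.e₂ q y).trans ⟨?_, ?_⟩
    · rintro ⟨x, rfl⟩
      exact ⟨x, hf q x⟩
    · rintro ⟨x, hx⟩
      exact ⟨x, Ext.biprodAddEquiv.injective ((hf q x).symm.trans hx)⟩
  · refine (L.e₃ q x).trans ⟨?_, ?_⟩
    · rintro ⟨y, rfl⟩
      exact ⟨_, hg q y⟩
    · rintro ⟨y, rfl⟩
      obtain ⟨y, rfl⟩ := Ext.biprodAddEquiv.surjective y
      exact ⟨y, (hg q y).symm⟩

lemma ExtBij.biprod {A : Type*} [Category* A] [Abelian A] [HasExt.{v} A] {P P' Q Q' F : A}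
    {a : P' ⟶ P} {b : Q' ⟶ Q} (ha : ExtBij.{v} a F) (hb : ExtBij.{v} b F) :
    ExtBij.{v} (biprod.map a b) F := fun q => by
  have e : Ext.biprodAddEquiv ∘ pre (Limits.biprod.map a b) F q =
      Prod.map (pre a F q) (pre b F q) ∘ Ext.biprodAddEquiv := funext fun x => by
    refine Prod.ext ?_ ?_
    · change pre Limits.biprod.inl F q (pre _ F q x) = pre a F q (pre Limits.biprod.inl F q x)
      rw [pre_pre, pre_pre, Limits.biprod.inl_map]
    · change pre Limits.biprod.inr F q (pre _ F q x) = pre b F q (pre Limits.biprod.inr F q x)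
      rw [pre_pre, pre_pre, Limits.biprod.inr_map]
  exact (Function.Bijective.of_comp_iff' Ext.biprodAddEquiv.bijective _).1
    (e ▸ ((ha q).prodMap (hb q)).comp Ext.biprodAddEquiv.bijective)
end

theorem mv_open {X : Scheme.{0}} {W U₁ U₂ T : Over X} {a₁ : W ⟶ U₁} {a₂ : W ⟶ U₂} {i₁ : U₁ ⟶ T}
    {i₂ : U₂ ⟶ T} (h : IsPullback a₁ a₂ i₁ i₂) [IsOpenImmersion i₁.left] [IsOpenImmersion i₂.left]
    (hc : ∀ t : T.left, t ∈ Set.range i₁.left ∨ t ∈ Set.range i₂.left) :
    (mvS (Scheme.etaleTopology.over X) h.w).ShortExact := by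
  have m1 : Mono i₁ := Over.mono_of_mono_left _
  have m2 : Mono i₂ := Over.mono_of_mono_left _
  let 𝒰 : T.left.Cover (Scheme.precoverage @Etale) :=
    Scheme.Cover.mkOfCovers Bool (fun b => cond b U₁.left U₂.left)
      (fun b => match b with | true => i₁.left | false => i₂.left)
      (fun t => (hc t).elim (fun ⟨y, e⟩ => ⟨true, y, e⟩) fun ⟨y, e⟩ => ⟨false, y, e⟩)
      (fun b => match b with
        | true => inferInstanceAs (Etale i₁.left)
        | false => inferInstanceAs (Etale i₂.left))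
  refine mv_exact _ h ⟨_, GrothendieckTopology.overEquiv_symm_mem_over _ T _
    𝒰.mem_grothendieckTopology, fun Y y hy => ?_⟩
  obtain ⟨_, z, _, ⟨b⟩, e⟩ := (Sieve.overEquiv_symm_iff _ y).1 hy
  cases b
  · exact .inr ⟨Over.homMk z (by rw [← Over.w i₂, ← Over.w y, ← e, Category.assoc]; rfl),
      Over.OverMorphism.ext e⟩
  · exact .inl ⟨Over.homMk z (by rw [← Over.w i₁, ← Over.w y, ← e, Category.assoc]; rfl),
      Over.OverMorphism.ext e⟩

end Pool.Agent.MP_855f4c_ag.E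

end

section

set_option backward.isDefEq.respectTransparency false

open CategoryTheory Limits Abelian Opposite AlgebraicGeometry

namespace Pool.Agent.MP_855f4c_ag.E

variable {X : Scheme.{0}}

lemma cov_et {V U : Over X} (p : V ⟶ U) [Etale p.left] [Surjective p.left] : Cov (Scheme.etaleTopology.over X) p :=
  mem_Jov_of _ fun t => ⟨V, p, inferInstance, ⟨V, 𝟙 _, p, ⟨⟩, Category.id_comp _⟩,
    p.left.surjective t⟩

/-- fibre powers: `X (n+1) = V ×_U X n` (any category). -/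
lemma Cech.isPullback {C : Type*} [Category* C] {V U : C} {p : V ⟶ U} (N : Cech p) (n : ℕ) :
    IsPullback (N.π (n + 1) 0) (N.face n 0) p (N.b n) := by
  refine ⟨⟨by simp [N.w]⟩, ⟨PullbackCone.IsLimit.mk _ (fun s => N.cons s.fst s.snd s.condition)
    (fun s => by simp [Cech.cons]) (fun s => N.cons_face0 _ _ _) (fun s m h1 h2 => ?_)⟩⟩
  rw [← N.cons_self m]
  congr 1

lemma Cech.etale_b {V U : Over X} {p : V ⟶ U} (N : Cech p) [Etale p.left] (n : ℕ) :
    Etale (N.b n).left := by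
  induction n with
  | zero =>
    have : IsIso (N.b 0).left := inferInstanceAs (IsIso ((Over.forget X).map (N.b 0)))
    infer_instance
  | succ n ih =>
    have h : Etale (N.face n 0).left :=
      MorphismProperty.of_isPullback (P := @Etale) (isPullback_left (N.isPullback n)) ‹_›
    rw [← N.face_b n 0, Over.comp_left]
    infer_instance

lemma Cech.isAffine {V U : Over X} {p : V ⟶ U} (N : Cech p) [IsAffine V.left] [IsAffine U.left]
    (n : ℕ) : IsAffine (N.X n).left := by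
  induction n with
  | zero =>
    have : IsIso (N.b 0).left := inferInstanceAs (IsIso ((Over.forget X).map (N.b 0)))
    exact .of_isIso (N.b 0).left
  | succ n ih => exact .of_isIso (isPullback_left (N.isPullback n)).isoPullback.hom

section sig
variable {ι : Type} (V : ι → Over X)

/-- The disjoint union of a family of schemes over `X`. -/
noncomputable def sgm : Over X := Over.mk (Sigma.desc fun i => (V i).hom)

/-- The inclusion of a member. -/
noncomputable def sgmι (i : ι) : V i ⟶ sgm V :=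
  Over.homMk (Sigma.ι (fun i => (V i).left) i) (Sigma.ι_desc _ _)

/-- The map out of the disjoint union. -/
noncomputable def sgmDesc {U : Over X} (v : ∀ i, V i ⟶ U) : sgm V ⟶ U :=
  Over.homMk (Sigma.desc fun i => (v i).left) (Sigma.hom_ext _ _ fun i => by simp [sgm])

lemma sgmι_desc {U : Over X} (v : ∀ i, V i ⟶ U) (i : ι) : sgmι V i ≫ sgmDesc V v = v i :=
  Over.OverMorphism.ext (Sigma.ι_desc _ _)

lemma sgm_mem (S : Sieve (sgm V)) (h : ∀ i, S (sgmι V i)) : S ∈ Scheme.etaleTopology.over X (sgm V) :=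
  mem_Jov_of _ fun t => by
    obtain ⟨i, y, hy⟩ := (sigmaOpenCover fun i => (V i).left).exists_eq t
    exact ⟨V i, sgmι V i,
      inferInstanceAs (Etale (Sigma.ι (fun i => (V i).left) i)), h i, y, hy⟩

lemma sec_empty (G : Sh (Scheme.etaleTopology.over X)) {Y : Over X} [IsEmpty Y.left] (a b : G.obj.obj (op Y)) : a = b :=
  sep G (S := ⊥) (mem_Jov_of _ fun t => isEmptyElim t) fun _ _ h => h.elim

lemma sgm_ext (G : Sh (Scheme.etaleTopology.over X)) {a b : G.obj.obj (op (sgm V))}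
    (h : ∀ i, G.obj.map (sgmι V i).op a = G.obj.map (sgmι V i).op b) : a = b := by
  refine sep G (S := Sieve.ofArrows V (sgmι V)) (sgm_mem V _ fun i => Sieve.ofArrows_mk _ _ i) ?_
  rintro W _ ⟨_, g, _, ⟨i⟩, rfl⟩
  rw [← res_res, ← res_res, h]

lemma sgm_glue (G : Sh (Scheme.etaleTopology.over X)) (t : ∀ i, G.obj.obj (op (V i))) :
    ∃ τ : G.obj.obj (op (sgm V)), ∀ i, G.obj.map (sgmι V i).op τ = t i := by
  obtain ⟨τ, hτ⟩ := glue G.property
    (fun Y (y : Y ⟶ sgm V) x => ∃ (i : ι) (g : Y ⟶ V i), g ≫ sgmι V i = y ∧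
      G.obj.map g.op (t i) = x)
    (Sieve.ofArrows V (sgmι V)) (sgm_mem V _ fun i => Sieve.ofArrows_mk _ _ i)
    (by rintro W _ ⟨_, g, _, ⟨i⟩, rfl⟩; exact ⟨_, i, g, rfl, rfl⟩)
    (by rintro Z Y g _ _ ⟨i, a, rfl, rfl⟩
        exact ⟨i, g ≫ a, Category.assoc .., (res_res ..).symm⟩)
    (by rintro Y _ _ _ ⟨i, a, rfl, rfl⟩ ⟨j, b, h, rfl⟩
        have h' : b.left ≫ Sigma.ι (fun i => (V i).left) j =
          a.left ≫ Sigma.ι (fun i => (V i).left) i := congrArg (·.left) h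
        obtain rfl | hij := eq_or_ne j i
        · obtain rfl : b = a := Over.OverMorphism.ext ((cancel_mono _).1 h')
          rfl
        · have := isEmpty_of_commSq_sigmaι_of_ne (g := fun i => (V i).left) ⟨h'⟩ hij
          exact sec_empty G _ _)
  exact ⟨τ, fun i => hτ _ _ ⟨i, 𝟙 _, Category.id_comp _, res_id ..⟩⟩

lemma sgmDesc_etale {U : Over X} (v : ∀ i, V i ⟶ U) (h : ∀ i, Etale (v i).left) :
    Etale (sgmDesc V v).left :=
  IsZariskiLocalAtSource.sigmaDesc (P := @Etale) h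

lemma sgmDesc_surj {U : Over X} (v : ∀ i, V i ⟶ U)
    (h : ∀ t : U.left, ∃ i, t ∈ Set.range (v i).left) : Surjective (sgmDesc V v).left :=
  ⟨fun t => by
    obtain ⟨i, y, rfl⟩ := h t
    exact ⟨(sgmι V i).left y, by rw [← Scheme.Hom.comp_apply, ← Over.comp_left, sgmι_desc]⟩⟩

lemma sgm_lift {U : Over X} (v : ∀ i, V i ⟶ U) {G G' : Sh (Scheme.etaleTopology.over X)} (φ : G ⟶ G')
    (s : G'.obj.obj (op U)) (h : ∀ i, ∃ t, φ.hom.app (op (V i)) t = G'.obj.map (v i).op s) :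
    ∃ t, φ.hom.app (op (sgm V)) t = G'.obj.map (sgmDesc V v).op s := by
  choose t ht using h
  obtain ⟨τ, hτ⟩ := sgm_glue V G t
  exact ⟨τ, sgm_ext V G' fun i => by rw [← nat, hτ, res_res, sgmι_desc, ht]⟩

end sig

lemma lifts_pt (U : Over X) {G G' : Sh (Scheme.etaleTopology.over X)} (φ : G ⟶ G') [Epi φ] (s : G'.obj.obj (op U))
    (u : U.left) : ∃ (V : Over X) (v : V ⟶ U), IsAffine V.left ∧ Etale v.left ∧
      (∃ t, φ.hom.app (op V) t = G'.obj.map v.op s) ∧ u ∈ Set.range v.left := by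
  have : Sheaf.IsLocallySurjective φ := (Sheaf.isLocallySurjective_iff_epi' Ab.{1} φ).2 ‹_›
  exact exists_of_mem_Jov (Presheaf.imageSieve_mem (Scheme.etaleTopology.over X) φ.hom s) u

/-- Sections lift through an epimorphism after ONE surjective etale arrow (coproduct of a cover). -/
theorem lifts_et (U : Over X) {G G' : Sh (Scheme.etaleTopology.over X)} (φ : G ⟶ G') [Epi φ] (s : G'.obj.obj (op U)) :
    ∃ (V : Over X) (p : V ⟶ U), Etale p.left ∧ Surjective p.left ∧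
      ∃ t, φ.hom.app (op V) t = G'.obj.map p.op s := by
  choose V v _ h2 h3 h4 using lifts_pt U φ s
  exact ⟨sgm V, sgmDesc V v, sgmDesc_etale V v h2, sgmDesc_surj V v fun t => ⟨t, h4 t⟩,
    sgm_lift V v φ s h3⟩

theorem lifts_aff (U : Over X) [IsAffine U.left] {G G' : Sh (Scheme.etaleTopology.over X)} (φ : G ⟶ G') [Epi φ]
    (s : G'.obj.obj (op U)) :
    ∃ (V : Over X) (p : V ⟶ U), IsAffine V.left ∧ Etale p.left ∧ Surjective p.left ∧
      ∃ t, φ.hom.app (op V) t = G'.obj.map p.op s := by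
  choose V v h1 h2 h3 h4 using lifts_pt U φ s
  obtain ⟨T, hT⟩ := isCompact_univ.elim_finite_subcover (fun u => Set.range (v u).left)
    (fun u => (v u).left.isOpenMap.isOpen_range) fun u _ => Set.mem_iUnion.2 ⟨u, h4 u⟩
  refine ⟨sgm fun i : T => V i, sgmDesc _ fun i : T => v i,
    inferInstanceAs (IsAffine (∐ fun i : T => (V i).left)), sgmDesc_etale _ _ fun i => h2 i,
    sgmDesc_surj _ _ fun t => ?_, sgm_lift _ _ φ s fun i => h3 i⟩
  obtain ⟨i, hi, h⟩ := Set.mem_iUnion₂.1 (hT (Set.mem_univ t))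
  exact ⟨⟨i, hi⟩, h⟩

/-- CARTAN for a class closed under etale maps. -/
theorem cartan_et (B : Over X → Prop) (hB : ∀ ⦃V U : Over X⦄ (p : V ⟶ U), Etale p.left → B U → B V)
    (F : Sh (Scheme.etaleTopology.over X)) (hF : ∀ ⦃V U : Over X⦄ (p : V ⟶ U), B U → Etale p.left → Surjective p.left →
      ∀ N : Cech p, N.Acy F.obj) {T : Over X} (hT : B T) (q : ℕ) (x : H T F (q + 1)) : x = 0 :=
  CartanData.vanish
    { B := B
      c := fun V U (p : V ⟶ U) => B U ∧ Etale p.left ∧ Surjective p.left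
      cov := fun _ _ p ⟨_, _, _⟩ => cov_et p
      N := fun _ _ p _ => Cech.ofWide p
      mem := fun _ _ p ⟨h, _, _⟩ n => hB _ (Cech.etale_b _ _) h
      lifts := fun U hU _ _ φ _ s => by
        obtain ⟨V, p, h1, h2, h⟩ := lifts_et U φ s
        exact ⟨V, p, ⟨hU, h1, h2⟩, h⟩ } F (fun _ _ p h => hF p h.1 h.2.1 h.2.2 _) hT q x

/-- CARTAN for the affine part of such a class. -/
theorem cartan_aff (B : Over X → Prop) (hB : ∀ ⦃V U : Over X⦄ (p : V ⟶ U), Etale p.left → B U → B V)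
    (F : Sh (Scheme.etaleTopology.over X)) (hF : ∀ ⦃V U : Over X⦄ (p : V ⟶ U), B U → IsAffine U.left → IsAffine V.left →
      Etale p.left → Surjective p.left → ∀ N : Cech p, N.Acy F.obj) {T : Over X} (hT : B T)
    [IsAffine T.left] (q : ℕ) (x : H T F (q + 1)) : x = 0 :=
  CartanData.vanish
    { B := fun U => B U ∧ IsAffine U.left
      c := fun V U (p : V ⟶ U) =>
        B U ∧ IsAffine U.left ∧ IsAffine V.left ∧ Etale p.left ∧ Surjective p.left
      cov := fun _ _ p ⟨_, _, _, _, _⟩ => cov_et p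
      N := fun _ _ p _ => Cech.ofWide p
      mem := fun _ _ p ⟨h, _, _, _, _⟩ n => ⟨hB _ (Cech.etale_b _ _) h, Cech.isAffine _ _⟩
      lifts := fun U ⟨hU, _⟩ _ _ φ _ s => by
        obtain ⟨V, p, h0, h1, h2, h⟩ := lifts_aff U φ s
        exact ⟨V, p, ⟨hU, ‹_›, h0, h1, h2⟩, h⟩ } F
    (fun _ _ p h => hF p h.1 h.2.1 h.2.2.1 h.2.2.2.1 h.2.2.2.2 _) ⟨hT, ‹_›⟩ q x

end Pool.Agent.MP_855f4c_ag.E

end

section

set_option backward.isDefEq.respectTransparency false

open CategoryTheory Limits Abelian Opposite Function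

namespace Pool.Agent.MP_855f4c_ag.E

universe w v v' u u'

section
variable {B : Type u} [Category.{v} B] [Abelian B] [HasExt.{w} B]

/-- The functor `Ext^i(-, M)`. -/
noncomputable abbrev ExtF (M : B) (i : ℕ) : Bᵒᵖ ⥤ Ab.{w} := (extFunctor i).flip.obj M

noncomputable def postF {M N : B} (φ : M ⟶ N) (i : ℕ) : ExtF.{w} M i ⟶ ExtF N i where
  app A := AddCommGrpCat.ofHom (post A.unop φ i)
  naturality _ _ _ := AddCommGrpCat.hom_ext (AddMonoidHom.ext fun x => (pre_post _ _ x).symm)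

noncomputable def dlF {S : ShortComplex B} (hS : S.ShortExact) (i : ℕ) :
    ExtF.{w} S.X₃ i ⟶ ExtF S.X₁ (i + 1) where
  app A := AddCommGrpCat.ofHom (dl A.unop hS i)
  naturality _ _ _ := AddCommGrpCat.hom_ext (AddMonoidHom.ext fun x => (pre_dl _ _ x).symm)
end

lemma dl_bij {C : Type u} [Category.{v} C] [Abelian C] [HasExt.{w} C] (X : C) {S : ShortComplex C}
    (hS : S.ShortExact) [Injective S.X₂] (q) : Bijective (dl.{w} X hS (q + 1)) :=
  ⟨(injective_iff_map_eq_zero _).2 fun x hx => by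
    obtain ⟨z, rfl⟩ := ((cov_les X hS).e₃ _ x).1 hx
    rw [Ext.eq_zero_of_injective z, map_zero],
  fun y => ((cov_les X hS).e₁ _ y).1 (Ext.eq_zero_of_injective _)⟩

/-- A graded class of `Ab`-valued functors that is closed under five-term exact sequences. -/
structure FiveClass {D : Type*} [Category* D] (P : ℕ → (D ⥤ Ab.{w}) → Prop) : Prop where
  zero : ∀ n M, IsZero M → P n M
  five : ∀ n {M₀ M₁ M M₂ M₃ : D ⥤ Ab.{w}} (a : M₀ ⟶ M₁) (b : M₁ ⟶ M) (c : M ⟶ M₂) (d : M₂ ⟶ M₃),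
    (∀ A, Exact (a.app A) (b.app A)) → (∀ A, Exact (b.app A) (c.app A)) →
    (∀ A, Exact (c.app A) (d.app A)) → (∃ m, P m M₀) → P n M₁ → P n M₂ → (∃ m, P m M₃) → P n M

open ZeroObject in
lemma FiveClass.of_bij {D : Type*} [Category* D] {P : ℕ → (D ⥤ Ab.{w}) → Prop} (h : FiveClass P)
    {n} {M M' : D ⥤ Ab.{w}} (e : M ⟶ M') (he : ∀ A, Bijective (e.app A)) : P n M ↔ P n M' := by
  have z (A : D) : Subsingleton ((0 : D ⥤ Ab.{w}).obj A) :=
    AddCommGrpCat.subsingleton_of_isZero ((isZero_zero _).obj A)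
  have key : ∀ {M M' : D ⥤ Ab.{w}} (e : M ⟶ M'), (∀ A, Bijective (e.app A)) → P n M' → P n M :=
    fun e he hM => h.five n (0 : (0 : D ⥤ Ab.{w}) ⟶ 0) (0 : (0 : D ⥤ Ab.{w}) ⟶ _) e
      (0 : _ ⟶ (0 : D ⥤ Ab.{w}))
      (fun A y => ⟨fun _ => ⟨0, Subsingleton.elim _ _⟩, fun _ => rfl⟩)
      (fun A y => ⟨fun hy => ⟨0, ((he A).1 (hy.trans (map_zero _).symm)).symm⟩,
        by rintro ⟨x, rfl⟩; exact map_zero _⟩)
      (fun A y => ⟨fun _ => (he A).2 y, fun _ => rfl⟩)
      ⟨0, h.zero _ _ (isZero_zero _)⟩ (h.zero _ _ (isZero_zero _)) hM ⟨0, h.zero _ _ (isZero_zero _)⟩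
  refine ⟨?_, key e he⟩
  have (A : D) : IsIso (e.app A) := (ConcreteCategory.isIso_iff_bijective _).2 (he A)
  have := NatIso.isIso_of_isIso_app e
  exact key (inv e) fun A => (ConcreteCategory.isIso_iff_bijective _).1 inferInstance

lemma FiveClass.comp {D E : Type*} [Category* D] [Category* E] {P : ℕ → (D ⥤ Ab.{w}) → Prop}
    (h : FiveClass P) (G : D ⥤ E) : FiveClass fun n (M : E ⥤ Ab.{w}) => P n (G ⋙ M) where
  zero n M hM := h.zero n _ (Functor.isZero _ fun _ => hM.obj _)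
  five n _ _ _ _ _ a b c d h1 h2 h3 := h.five n (Functor.whiskerLeft G a) (Functor.whiskerLeft G b)
    (Functor.whiskerLeft G c) (Functor.whiskerLeft G d) (fun _ => h1 _) (fun _ => h2 _)
    (fun _ => h3 _)

section Leray
variable {A : Type u'} [Category.{v'} A] [Abelian A] [HasExt.{w} A] [EnoughInjectives A]
  {B : Type u} [Category.{v} B] [Abelian B] [HasExt.{w} B]
  {L : B ⥤ A} {P : A ⥤ B} (adj : L ⊣ P) [L.Additive] [PreservesFiniteLimits L]
  [PreservesFiniteColimits L] [P.Additive]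

section
omit [EnoughInjectives A]
variable (L)
lemma map_pre {X' X M : B} (a : X' ⟶ X) {n} (x : Ext.{w} X M n) :
    (pre a M n x).mapExactFunctor L = pre.{w} (L.map a) _ n (x.mapExactFunctor L) := by
  rw [pre_apply, Ext.mapExactFunctor_comp, Ext.mapExactFunctor_mk₀]; rfl
lemma map_post {X M N : B} (φ : M ⟶ N) {n} (x : Ext.{w} X M n) :
    (post X φ n x).mapExactFunctor L = post.{w} _ (L.map φ) n (x.mapExactFunctor L) := by
  rw [post_apply, Ext.mapExactFunctor_comp, Ext.mapExactFunctor_mk₀]; rfl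
lemma map_dl {X : B} {S : ShortComplex B} (hS : S.ShortExact) {n} (x : Ext.{w} X S.X₃ n) :
    (dl X hS n x).mapExactFunctor L = dl.{w} _ (hS.map_of_exact L) n (x.mapExactFunctor L) := by
  rw [dl_apply, Ext.mapExactFunctor_comp, Ext.mapExactFunctor_extClass]; rfl
lemma map_dr {M : B} {S : ShortComplex B} (hS : S.ShortExact) {n} (x : Ext.{w} S.X₁ M n) :
    (dr hS M n x).mapExactFunctor L = dr.{w} (hS.map_of_exact L) _ n (x.mapExactFunctor L) := by
  rw [dr_apply, Ext.mapExactFunctor_comp, Ext.mapExactFunctor_extClass]; rfl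
end

/-- The counit, with reduced types. -/
def cou (F : A) : L.obj (P.obj F) ⟶ F := adj.counit.app F

omit [Abelian A] [HasExt A] [EnoughInjectives A] [Abelian B] [HasExt B] [L.Additive]
  [PreservesFiniteLimits L] [PreservesFiniteColimits L] [P.Additive] in
lemma cou_nat {F G : A} (φ : F ⟶ G) : L.map (P.map φ) ≫ cou adj G = cou adj F ≫ φ :=
  adj.counit_naturality φ

/-- The edge map `Ext^n(X, f_* F) → Ext^n(f^* X, F)`. -/
noncomputable def edge (X : B) (F : A) (n : ℕ) : Ext X (P.obj F) n →+ Ext (L.obj X) F n :=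
  (post _ (cou adj F) n).comp (L.mapExtAddHom X _ n)

omit [EnoughInjectives A] [P.Additive] in
lemma edge_apply {X : B} {F : A} {n} (x : Ext X (P.obj F) n) :
    edge adj X F n x = post _ (cou adj F) n (x.mapExactFunctor L) := rfl

omit [EnoughInjectives A] [P.Additive] in
lemma edge_pre {X' X : B} (a : X' ⟶ X) {F : A} {n} (x : Ext X (P.obj F) n) :
    edge adj X' F n (pre a _ n x) = pre (L.map a) F n (edge adj X F n x) := by
  rw [edge_apply, edge_apply, pre_post, map_pre]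

omit [EnoughInjectives A] [P.Additive] in
lemma edge_post {X : B} {F G : A} (φ : F ⟶ G) {n} (x : Ext X (P.obj F) n) :
    edge adj X G n (post X (P.map φ) n x) = post _ φ n (edge adj X F n x) := by
  rw [edge_apply, edge_apply, post_post, map_post, post_post, cou_nat]

omit [EnoughInjectives A] [P.Additive] in
lemma edge_mk₀ {X : B} {F : A} (x : X ⟶ P.obj F) :
    edge adj X F 0 (Ext.mk₀ x) = Ext.mk₀ ((adj.homEquiv X F).symm x) := by
  rw [edge_apply, Ext.mapExactFunctor_mk₀, post_apply, Ext.mk₀_comp_mk₀, Adjunction.homEquiv_counit]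
  rfl

omit [EnoughInjectives A] [P.Additive] in
lemma edge_zero_bij (X : B) (F : A) : Bijective (edge adj X F 0) := by
  refine (Bijective.of_comp_iff _ (Ext.mk₀_bijective _ _)).1 ?_
  have : edge adj X F 0 ∘ Ext.mk₀ = Ext.mk₀ ∘ (adj.homEquiv X F).symm := funext (edge_mk₀ adj)
  rw [this]
  exact (Ext.mk₀_bijective _ _).comp (adj.homEquiv X F).symm.bijective

noncomputable def edgeF (F : A) (n : ℕ) : ExtF.{w} (P.obj F) n ⟶ L.op ⋙ ExtF F n where
  app X := AddCommGrpCat.ofHom (edge adj X.unop F n)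
  naturality _ _ _ := AddCommGrpCat.hom_ext (AddMonoidHom.ext fun x => edge_pre adj _ x)

/-- `R b F` is the `(b+1)`-st derived functor of `P`, as far as dimension shifting sees it. -/
def IsDer (P : A ⥤ B) [P.Additive] (R : ℕ → A → B) : Prop :=
  ∀ S : ShortComplex A, S.ShortExact → Injective S.X₂ →
    (∃ (π : P.obj S.X₃ ⟶ R 0 S.X₁) (h : P.map S.g ≫ π = 0), Epi π ∧ (ShortComplex.mk _ _ h).Exact) ∧
    ∀ b, Nonempty (R b S.X₃ ≅ R (b + 1) S.X₁)

include adj in
/-- The two short exact sequences `0 → PF → PI → Z → 0`, `0 → Z → PF' → R¹F → 0`. -/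
lemma IsDer.step {R : ℕ → A → B} (hR : IsDer P R) (F : A) :
    ∃ (S : ShortComplex A) (_ : S.X₁ = F) (hS : S.ShortExact) (Z : B) (g : P.obj S.X₂ ⟶ Z)
      (i : Z ⟶ P.obj S.X₃) (π : P.obj S.X₃ ⟶ R 0 S.X₁) (h₁ : P.map S.f ≫ g = 0) (h₂ : i ≫ π = 0)
      (hT : (ShortComplex.mk _ _ h₁).ShortExact),
      Injective S.X₂ ∧ Injective (P.obj S.X₂) ∧ (ShortComplex.mk _ _ h₂).ShortExact ∧
      g ≫ i = P.map S.g ∧
      (∀ b, Nonempty (R b S.X₃ ≅ R (b + 1) S.X₁)) ∧
      ∀ X q (x : Ext X Z q), edge adj X _ _ (dl X hT q x) =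
        dl _ hS q (edge adj X _ q (post X i q x)) := by
  let Q : InjectivePresentation F := Classical.arbitrary _
  let S := ShortComplex.mk _ _ (cokernel.condition Q.f)
  have hS : S.ShortExact := { exact := ShortComplex.exact_cokernel Q.f }
  have := Q.injective
  obtain ⟨⟨π, h, hπ, he⟩, hb⟩ := hR S hS this
  have := adj.rightAdjoint_preservesLimits.{0, 0}
  have hP : (S.map P).Exact := by
    have := hS.mono_f
    exact ShortComplex.exact_of_f_is_kernel _ (KernelFork.mapIsLimit _ hS.exact.fIsKernel P)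
  have h₁ : P.map S.f ≫ Abelian.factorThruImage (P.map S.g) = 0 := by
    rw [← cancel_mono (Abelian.image.ι _), Category.assoc, Abelian.image.fac, ← P.map_comp,
      S.zero, P.map_zero, zero_comp]
  have h₂ : Abelian.image.ι (P.map S.g) ≫ π = 0 := by
    rw [← cancel_epi (Abelian.factorThruImage _), ← Category.assoc, Abelian.image.fac, h, comp_zero]
  have hT : (ShortComplex.mk _ _ h₁).ShortExact :=
    { exact := (ShortComplex.exact_iff_of_epi_of_isIso_of_mono (S₁ := ShortComplex.mk _ _ h₁)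
        (S₂ := S.map P) ⟨𝟙 _, 𝟙 _, Abelian.image.ι _, by simp, by simp⟩).2 hP
      mono_f := by have := hS.mono_f; exact inferInstanceAs (Mono (P.map S.f)) }
  refine ⟨S, rfl, hS, _, _, _, π, h₁, h₂, hT, Q.injective, adj.map_injective _ Q.injective,
    { exact := (ShortComplex.exact_iff_of_epi_of_isIso_of_mono (S₂ := ShortComplex.mk _ _ h₂)
        (S₁ := ShortComplex.mk _ _ h) ⟨Abelian.factorThruImage _, 𝟙 _, 𝟙 _, by simp, by simp⟩).1 he },
    Abelian.image.fac _, hb, fun X q x => ?_⟩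
  rw [edge_apply, edge_apply, map_dl, map_post, post_post]
  exact post_dl (hT.map_of_exact L) hS ⟨cou adj _, cou adj _,
    L.map (Abelian.image.ι _) ≫ cou adj _, (cou_nat adj _).symm, by
      change cou adj _ ≫ S.g = L.map (Abelian.factorThruImage _) ≫ L.map _ ≫ cou adj _
      rw [← L.map_comp_assoc, Abelian.image.fac, cou_nat]⟩ _

/-- **LER0**, truncated. -/
theorem ler0N {R : ℕ → A → B} (hR : IsDer P R) (X : B) (n N : ℕ) (F : A)
    (h : ∀ b, b + 1 < N → ∀ i (x : Ext.{w} X (R b F) i), x = 0) :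
    (n ≤ N → Injective (edge.{w} adj X F n)) ∧ (n < N → Surjective (edge.{w} adj X F n)) := by
  induction n generalizing F N with
  | zero => exact ⟨fun _ => (edge_zero_bij adj X F).1, fun _ => (edge_zero_bij adj X F).2⟩
  | succ n ih =>
    obtain ⟨S, rfl, hS, Z, g, i, π, h₁, h₂, hT, hI, hI', hU, hg, hb, hd⟩ := hR.step adj F
    have h3 := ih (N - 1) S.X₃ fun b hb' i x => by
      obtain ⟨e⟩ := hb b
      exact (post_bij X e.hom i).1
        (by rw [h _ (by omega) _ (post X e.hom i x), map_zero])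
    refine ⟨fun hn => (injective_iff_map_eq_zero _).2 fun x hx => ?_, fun hn y => ?_⟩
    · obtain ⟨x, rfl⟩ := ((cov_les X hT).e₁ n x).1 (Ext.eq_zero_of_injective _)
      rw [hd] at hx
      obtain ⟨z, hz⟩ := ((cov_les _ hS).e₃ n _).1 hx
      cases n with
      | zero =>
        obtain ⟨z, rfl⟩ := (edge_zero_bij adj X S.X₂).2 z
        rw [← edge_post, ← hg, ← post_post] at hz
        rw [← (cov_les X hU).inj ((edge_zero_bij adj X _).1 hz)]
        exact ((cov_les X hT).e₃ 0).apply_apply_eq_zero z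
      | succ n =>
        rw [Ext.eq_zero_of_injective z, map_zero] at hz
        obtain ⟨y, rfl⟩ := ((cov_les X hU).e₁ n x).1
          (h3.1 (by omega) (hz.symm.trans (map_zero _).symm))
        rw [h 0 (by omega) _ y, map_zero, map_zero]
    · obtain ⟨y, rfl⟩ := ((cov_les _ hS).e₁ n y).1 (Ext.eq_zero_of_injective _)
      obtain ⟨x, rfl⟩ := h3.2 (by omega) y
      obtain ⟨x, rfl⟩ := ((cov_les X hU).e₂ n x).1 (h 0 (by omega) _ _)
      exact ⟨_, hd X n x⟩

/-- **LER0**. -/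
theorem ler0 {R : ℕ → A → B} (hR : IsDer P R) (X : B) (n : ℕ) (F : A)
    (h : ∀ b i (x : Ext.{w} X (R b F) i), x = 0) : Bijective (edge.{w} adj X F n) :=
  have := ler0N adj hR X n (n + 1) F fun b _ => h b
  ⟨this.1 (by omega), this.2 (by omega)⟩

open ZeroObject in
include adj in
/-- **LER** for classes: the abutment lies in any five-term closed class containing the `E₂` terms. -/
theorem ler_class {R : ℕ → A → B} (hR : IsDer P R) {Pc : ℕ → (Bᵒᵖ ⥤ Ab.{w}) → Prop}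
    (hPc : FiveClass Pc) (n s : ℕ) (F : A) (h₀ : ∀ i, Pc (s + (i + 1)) (ExtF (P.obj F) (i + 1)))
    (h : ∀ b i, Pc (s + (b + 1 + i)) (ExtF (R b F) i)) :
    Pc (s + (n + 1)) (L.op ⋙ ExtF F (n + 1)) := by
  induction n generalizing F s with
  | zero =>
    obtain ⟨S, rfl, hS, Z, g, i, π, h₁, h₂, hT, hI, hI', hU, hg, hb, hd⟩ := hR.step adj F
    have sj (X : Bᵒᵖ) (y : Ext.{w} (L.obj X.unop) S.X₁ 1) :
        ∃ x, dl _ hS 0 (edge adj X.unop S.X₃ 0 x) = y := by
      obtain ⟨y, rfl⟩ := ((cov_les _ hS).e₁ 0 y).1 (Ext.eq_zero_of_injective _)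
      obtain ⟨x, rfl⟩ := (edge_zero_bij adj X.unop S.X₃).2 y
      exact ⟨x, rfl⟩
    have ke (X : Bᵒᵖ) (x) (hx : dl.{w} _ hS 0 (edge adj X.unop S.X₃ 0 x) = 0) :
        ∃ z, post X.unop i 0 (post X.unop g 0 z) = x := by
      obtain ⟨z, hz⟩ := ((cov_les _ hS).e₃ 0 _).1 hx
      obtain ⟨z, rfl⟩ := (edge_zero_bij adj X.unop S.X₂).2 z
      rw [← edge_post, ← hg, ← post_post] at hz
      exact ⟨z, (edge_zero_bij adj _ _).1 hz⟩
    let δ : ExtF.{w} (P.obj S.X₃) 0 ⟶ L.op ⋙ ExtF S.X₁ 1 :=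
      edgeF adj S.X₃ 0 ≫ Functor.whiskerLeft L.op (dlF hS 0)
    have hδ (X : Bᵒᵖ) (x : Ext.{w} X.unop (P.obj S.X₃) 0) :
        δ.app X x = dl.{w} (L.obj X.unop) hS 0 (edge adj X.unop S.X₃ 0 x) := rfl
    have : Epi δ := by
      have (X : Bᵒᵖ) : Epi (δ.app X) := (AddCommGrpCat.epi_iff_surjective _).2 fun y =>
        (sj X y).imp fun x hx => (hδ X x).trans hx
      exact NatTrans.epi_of_epi_app _
    clear_value δ
    obtain ⟨c, hc⟩ : ∃ c, δ ≫ c = postF π 0 := by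
      refine ⟨Abelian.epiDesc δ _ ?_, Abelian.comp_epiDesc _ _ _⟩
      ext X x
      obtain ⟨z, hz⟩ := ke X ((kernel.ι δ).app X x)
        ((hδ X _).symm.trans (ConcreteCategory.congr_hom (congr_app (kernel.condition δ) X) x))
      change post X.unop π 0 ((kernel.ι δ).app X x) = 0
      rw [← hz]
      exact ((cov_les _ hU).e₂ 0).apply_apply_eq_zero _
    have hc' (X : Bᵒᵖ) (x : Ext.{w} X.unop (P.obj S.X₃) 0) :
        c.app X (dl.{w} (L.obj X.unop) hS 0 (edge adj X.unop S.X₃ 0 x)) = post.{w} X.unop π 0 x :=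
      by
        have := ConcreteCategory.congr_hom (congr_app hc X) x
        rw [NatTrans.comp_app, ConcreteCategory.comp_apply] at this
        exact (congrArg (c.app X) (hδ X x).symm).trans this
    refine hPc.five _ (0 : (0 : Bᵒᵖ ⥤ Ab.{w}) ⟶ _) (edgeF adj S.X₁ 1) c (dlF hU 0 ≫ dlF hT 1)
      (fun X y => ⟨fun hy => ⟨0, ?_⟩, by rintro ⟨x, rfl⟩; exact map_zero _⟩)
      (fun X y => ⟨fun hy => ?_, ?_⟩) (fun X y => ⟨fun hy => ?_, ?_⟩)
      ⟨0, hPc.zero _ _ (isZero_zero _)⟩ (h₀ 0) (h 0 0) ⟨_, h₀ 1⟩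
    · obtain ⟨y, rfl⟩ := ((cov_les X.unop hT).e₁ 0 y).1 (Ext.eq_zero_of_injective _)
      obtain ⟨z, hz⟩ := ke X _ ((hd _ _ y).symm.trans hy)
      rw [← (cov_les _ hU).inj hz]
      exact (((cov_les _ hT).e₃ 0).apply_apply_eq_zero z).symm
    · obtain ⟨x, rfl⟩ := sj X y
      obtain ⟨z, rfl⟩ := ((cov_les _ hU).e₂ 0 x).1 ((hc' X x).symm.trans hy)
      exact ⟨dl _ hT 0 z, hd _ _ z⟩
    · rintro ⟨y, rfl⟩
      obtain ⟨y, rfl⟩ := ((cov_les X.unop hT).e₁ 0 y).1 (Ext.eq_zero_of_injective _)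
      exact (congrArg (c.app X) (hd _ _ y)).trans
        ((hc' X _).trans (((cov_les _ hU).e₂ 0).apply_apply_eq_zero _))
    · obtain ⟨z, hz⟩ := ((cov_les X.unop hT).e₃ 1 _).1 hy
      rw [Ext.eq_zero_of_injective z, map_zero] at hz
      obtain ⟨x, rfl⟩ := ((cov_les X.unop hU).e₃ 0 y).1 hz.symm
      exact ⟨_, hc' X x⟩
    · rintro ⟨y, rfl⟩
      obtain ⟨x, rfl⟩ := sj X y
      change dl _ hT 1 (dl _ hU 0 (c.app X _)) = 0
      rw [hc', ((cov_les _ hU).e₃ 0).apply_apply_eq_zero, map_zero]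
  | succ n ih =>
    obtain ⟨S, rfl, hS, Z, g, i, π, h₁, h₂, hT, hI, hI', hU, hg, hb, hd⟩ := hR.step adj F
    have hZ (j) : Pc (s + 1 + (j + 1)) (ExtF Z (j + 1)) :=
      (hPc.of_bij (dlF hT (j + 1)) fun X => dl_bij X.unop hT j).2
        (show s + (j + 1 + 1) = s + 1 + (j + 1) by omega ▸ h₀ (j + 1))
    refine (hPc.of_bij (Functor.whiskerLeft L.op (dlF hS (n + 1))) fun X => dl_bij _ hS n).1
      (show s + 1 + (n + 1) = s + (n + 1 + 1) by omega ▸ ih (s + 1) S.X₃ (fun j => ?_) fun b j => ?_)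
    · exact hPc.five _ (dlF hU j) (postF i _) (postF π _) (dlF hU (j + 1))
        (fun X => (cov_les X.unop hU).e₁ j) (fun X => (cov_les X.unop hU).e₂ _)
        (fun X => (cov_les X.unop hU).e₃ _) ⟨_, h 0 j⟩ (hZ j)
        (show s + (0 + 1 + (j + 1)) = s + 1 + (j + 1) by omega ▸ h 0 (j + 1)) ⟨_, hZ (j + 1)⟩
    · obtain ⟨e⟩ := hb b
      exact (hPc.of_bij (postF e.hom j) fun X => post_bij X.unop e.hom j).2
        (show s + (b + 1 + 1 + j) = s + 1 + (b + 1 + j) by omega ▸ h (b + 1) j)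

include adj in
/-- **LER** for classes, all degrees. -/
theorem ler {R : ℕ → A → B} (hR : IsDer P R) {Pc : ℕ → (Bᵒᵖ ⥤ Ab.{w}) → Prop}
    (hPc : FiveClass Pc) (F : A) (h₀ : ∀ i, Pc i (ExtF (P.obj F) i))
    (h : ∀ b i, Pc (b + 1 + i) (ExtF (R b F) i)) (n : ℕ) : Pc n (L.op ⋙ ExtF F n) := by
  cases n with
  | zero => exact (hPc.of_bij (edgeF adj F 0) fun X => edge_zero_bij adj X.unop F).1 (h₀ 0)
  | succ n =>
    simpa using ler_class adj hR hPc n 0 F (fun i => by simpa using h₀ (i + 1))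
      (fun b i => by simpa using h b i)

include adj in
/-- **LER-iso**. -/
theorem ler_iso {R : ℕ → A → B} (hR : IsDer P R) {X' X : B} (a : X' ⟶ X) (F : A)
    (h₀ : ExtBij.{w} a (P.obj F)) (h : ∀ b, ExtBij.{w} a (R b F)) : ExtBij.{w} (L.map a) F := by
  refine ler adj hR (Pc := fun _ M => Bijective (M.map a.op)) ⟨fun _ M hM => ?_, ?_⟩ F h₀
    (fun b i => h b i)
  · have (Y : Bᵒᵖ) : Subsingleton (M.obj Y) := AddCommGrpCat.subsingleton_of_isZero (hM.obj Y)
    exact ⟨fun _ _ _ => Subsingleton.elim _ _, fun _ => ⟨0, Subsingleton.elim _ _⟩⟩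
  · rintro n M₀ M₁ M M₂ M₃ f g k l h1 h2 h3 ⟨_, b0⟩ b1 b2 ⟨_, b3⟩
    exact AddMonoidHom.bijective_of_surjective_of_bijective_of_bijective_of_injective
      (f.app _).hom (g.app _).hom (k.app _).hom (l.app _).hom (f.app _).hom (g.app _).hom
      (k.app _).hom (l.app _).hom (M₀.map a.op).hom (M₁.map a.op).hom (M.map a.op).hom
      (M₂.map a.op).hom (M₃.map a.op).hom
      (congrArg AddCommGrpCat.Hom.hom (f.naturality a.op))
      (congrArg AddCommGrpCat.Hom.hom (g.naturality a.op))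
      (congrArg AddCommGrpCat.Hom.hom (k.naturality a.op))
      (congrArg AddCommGrpCat.Hom.hom (l.naturality a.op))
      (h1 _) (h2 _) (h3 _) (h1 _) (h2 _) (h3 _) b0.2 b1 b2 b3.1

end Leray

end Pool.Agent.MP_855f4c_ag.E

end

section

set_option backward.isDefEq.respectTransparency false

open CategoryTheory Limits Abelian Opposite Function

namespace Pool.Agent.MP_855f4c_ag.E

universe v u

attribute [local irreducible] Ext.comp Ext.mk₀ Ext.mapExactFunctor ShortComplex.ShortExact.extClass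

section
universe w v' u'
variable {A : Type u'} [Category.{v'} A] [Abelian A] [HasExt.{w} A]

lemma ExtBij.of_sq {P' P Q' Q F : A} {a : P' ⟶ P} {b : Q' ⟶ Q} (h : ExtBij.{w} a F) (e : Q ⟶ P)
    (e' : Q' ⟶ P') [IsIso e] [IsIso e'] (hs : b ≫ e = e' ≫ a) : ExtBij.{w} b F := fun q => by
  have h2 : pre.{w} b F q ∘ pre e F q = pre e' F q ∘ pre a F q :=
    funext fun x => by simp only [comp_apply, pre_pre, hs]
  exact (Bijective.of_comp_iff _ (pre_bij e F q)).1 (h2 ▸ (pre_bij e' F q).comp (h q))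

/-- Composition with a class of degree one. -/
noncomputable def pcE (T : A) {X Z : A} (e : Ext.{w} Z X 1) (q : ℕ) :
    Ext.{w} T Z q →+ Ext.{w} T X (q + 1) := e.postcomp T rfl

lemma cov_les' (T : A) {X Y Z : A} {f : X ⟶ Y} {g : Y ⟶ Z} {w : f ≫ g = 0}
    (hS : (ShortComplex.mk f g w).ShortExact) {e : Ext.{w} Z X 1} (he : e = hS.extClass) :
    IsLES (post T f) (post T g) (pcE T e) :=
  he ▸ cov_les T hS

lemma pcE_bij {T X Y Z : A} {f : X ⟶ Y} {g : Y ⟶ Z} {e : Ext.{w} Z X 1}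
    (h : IsLES (post T f) (post T g) (pcE T e)) [Injective Y] (q : ℕ) :
    Surjective (pcE T e q) ∧ Injective (pcE T e (q + 1)) :=
  ⟨fun y => (h.e₁ _ y).1 (Ext.eq_zero_of_injective _),
    (injective_iff_map_eq_zero _).2 fun x hx => by
      obtain ⟨z, rfl⟩ := (h.e₃ _ x).1 hx
      rw [Ext.eq_zero_of_injective z, map_zero]⟩

lemma post_add' {T X Y : A} (f g : X ⟶ Y) {q : ℕ} (x : Ext.{w} T X q) :
    post T (f + g) q x = post T f q x + post T g q x := by
  simp [Ext.mk₀_add]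

lemma ab_sq {M N N' P : Ab.{w}} {f : M ⟶ N} {g : N ⟶ P} {f' : M ⟶ N'} {g' : N' ⟶ P}
    (h : ∀ x, g (f x) = g' (f' x)) : f ≫ g = f' ≫ g' := by
  ext x; exact h x

variable {B : Type u} [Category.{v} B] [Abelian B] [HasExt.{w} B] {L : B ⥤ A} {P : A ⥤ B}
  (adj : L ⊣ P)

omit [Abelian A] [HasExt.{w} A] [HasExt.{w} B] in
lemma isDer_ex {R : A ⥤ B} (e : R ≅ P) {Y Z : A} {g : Y ⟶ Z} {W : B} {d : R.obj Z ⟶ W}
    (h : ∃ h, (ShortComplex.mk (R.map g) d h).Exact) (hd : Epi d) :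
    ∃ (π : P.obj Z ⟶ W) (h : P.map g ≫ π = 0), Epi π ∧ (ShortComplex.mk _ _ h).Exact := by
  obtain ⟨h, he⟩ := h
  have h' : P.map g ≫ e.inv.app _ ≫ d = 0 := by rw [e.inv.naturality_assoc, h, comp_zero]
  exact ⟨_, h', epi_comp _ _, ShortComplex.exact_of_iso (ShortComplex.isoMk
    (S₁ := ShortComplex.mk _ _ h) (S₂ := ShortComplex.mk _ _ h')
    (e.app _) (e.app _) (Iso.refl _) (e.hom.naturality _).symm
    ((e.hom_inv_id_app_assoc _ _).trans (Category.comp_id _).symm)) he⟩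

/-- The unit, with reduced types. -/
def uni (F : B) : F ⟶ P.obj (L.obj F) := adj.unit.app F

lemma edge_unit [L.Additive] [PreservesFiniteLimits L] [PreservesFiniteColimits L] {X F : B} {n}
    (x : Ext.{w} X F n) : edge.{w} adj X _ n (post X (uni adj F) n x) = x.mapExactFunctor L := by
  have h : L.map (uni adj F) ≫ cou adj _ = 𝟙 _ := adj.left_triangle_components F
  rw [edge_apply, map_post, post_post, h, post_id]
end

variable {C D : Type u} [Category.{v} C] [Category.{v} D] (J : GrothendieckTopology C)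
  (K : GrothendieckTopology D)

section push
variable (G : D ⥤ C) [G.IsContinuous K J]

/-- Precomposition with a continuous functor. -/
abbrev push : Sh J ⥤ Sh K := G.sheafPushforwardContinuous Ab.{max u v} K J

instance : (push J K G).Additive := ⟨rfl⟩

instance : PreservesLimitsOfSize.{0, 0} (push J K G) :=
  have : PreservesLimitsOfSize.{0, 0} (push J K G ⋙ sheafToPresheaf K _) :=
    inferInstanceAs (PreservesLimitsOfSize.{0, 0}
      (sheafToPresheaf J _ ⋙ (Functor.whiskeringLeft _ _ _).obj G.op))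
  preservesLimits_of_reflects_of_preserves _ (sheafToPresheaf K _)

instance : PreservesFiniteLimits (push J K G) := inferInstance

omit [G.IsContinuous K J] in
/-- The presheaves `T ↦ H^b(G T, F)`. -/
noncomputable def HPG (b : ℕ) : Sh J ⥤ (Dᵒᵖ ⥤ Ab.{max u v}) :=
  ((extFunctor b).flip ⋙ (Functor.whiskeringLeft _ _ _).obj (fr J).op) ⋙
    (Functor.whiskeringLeft _ _ _).obj G.op

omit [G.IsContinuous K J] in
/-- Higher direct images: the sheafification of `T ↦ H^b(G T, F)`. -/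
noncomputable def Rb (b : ℕ) : Sh J ⥤ Sh K := HPG J G b ⋙ presheafToSheaf K Ab.{max u v}

variable {J}
section
omit [G.IsContinuous K J]
/-- Composition with a class of degree one. -/
noncomputable def HPe {X Y : Sh J} (e : Ext.{max u v} X Y 1) (b : ℕ) :
    (HPG J G b).obj X ⟶ (HPG J G (b + 1)).obj Y where
  app T := AddCommGrpCat.ofHom (pcE ((fr J).obj (G.obj T.unop)) e b)
  naturality _ _ _ := AddCommGrpCat.hom_ext (AddMonoidHom.ext fun x =>
    Ext.comp_assoc _ x e (zero_add b) rfl (by omega))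

noncomputable def HPδ {S : ShortComplex (Sh J)} (hS : S.ShortExact) (b : ℕ) :
    (HPG J G b).obj S.X₃ ⟶ (HPG J G (b + 1)).obj S.X₁ :=
  HPe G (X := S.X₃) (Y := S.X₁) hS.extClass b

lemma HPG_map_app {F F' : Sh J} (φ : F ⟶ F') (q : ℕ) (T : Dᵒᵖ) (x) :
    ((HPG J G q).map φ).app T x = post ((fr J).obj (G.obj T.unop)) φ q x := rfl

lemma HPG_obj_map (F : Sh J) (q : ℕ) {T T' : Dᵒᵖ} (g : T ⟶ T') (x) :
    ((HPG J G q).obj F).map g x = res (G.map g.unop) F q x := rfl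

lemma les_sh {S : ShortComplex (Sh J)} (hS : S.ShortExact) (A : Sh J) :
    IsLES (post A S.f) (post A S.g) (pcE A (X := S.X₁) (Z := S.X₃) hS.extClass) :=
  cov_les' A (X := S.X₁) (Y := S.X₂) (Z := S.X₃) (w := S.zero) hS rfl

variable {X Y Z : Sh J} {f : X ⟶ Y} {g : Y ⟶ Z} {e : Ext.{max u v} Z X 1}
  (h : ∀ A, IsLES (post A f) (post A g) (pcE A e)) (b : ℕ) (T : Dᵒᵖ)
include h
lemma HP_ex₁ : Exact ((HPe G e b).app T) (((HPG J G (b + 1)).map f).app T) := (h _).e₁ b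
lemma HP_ex₂ : Exact (((HPG J G b).map f).app T) (((HPG J G b).map g).app T) := (h _).e₂ b
lemma HP_ex₃ : Exact (((HPG J G b).map g).app T) ((HPe G e b).app T) := (h _).e₃ b
omit T
lemma HPe_epi [Injective Y] : Epi (HPe G e b) :=
  have (T : Dᵒᵖ) : Epi ((HPe G e b).app T) :=
    (AddCommGrpCat.epi_iff_surjective _).2 (pcE_bij (h _) b).1
  NatTrans.epi_of_epi_app _
lemma HPe_iso [Injective Y] : IsIso (HPe G e (b + 1)) :=
  have (T : Dᵒᵖ) : IsIso ((HPe G e (b + 1)).app T) :=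
    (ConcreteCategory.isIso_iff_bijective _).2 ⟨(pcE_bij (h _) b).2, (pcE_bij (h _) _).1⟩
  NatIso.isIso_of_isIso_app _
end

omit [G.IsContinuous K J] in
/-- Connecting maps. -/
noncomputable def Rδ {S : ShortComplex (Sh J)} (hS : S.ShortExact) (b : ℕ) :
    (Rb J K G b).obj S.X₃ ⟶ (Rb J K G (b + 1)).obj S.X₁ :=
  (presheafToSheaf K _).map (HPδ G hS b)

omit [G.IsContinuous K J] in
lemma shf_exact {P Q R : Dᵒᵖ ⥤ Ab.{max u v}} (f : P ⟶ Q) (g : Q ⟶ R)
    (h : ∀ T, Exact (f.app T) (g.app T)) :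
    ∃ h, (ShortComplex.mk ((presheafToSheaf K _).map f) ((presheafToSheaf K _).map g) h).Exact := by
  have h0 : f ≫ g = 0 := by
    ext T x
    exact (h T).apply_apply_eq_zero x
  exact ⟨_, (exact_psh (ShortComplex.mk f g h0) fun T y hy => (h T y).1 hy).map
    (presheafToSheaf K _)⟩

section
omit [G.IsContinuous K J]
variable {S : ShortComplex (Sh J)} (hS : S.ShortExact) (b : ℕ)
lemma Rb_exact₁ : ∃ h, (ShortComplex.mk (Rδ K G hS b) ((Rb J K G (b + 1)).map S.f) h).Exact :=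
  shf_exact K _ _ (HP_ex₁ G (les_sh hS) b)
include hS in
lemma Rb_exact₂ : ∃ h, (ShortComplex.mk ((Rb J K G b).map S.f) ((Rb J K G b).map S.g) h).Exact :=
  shf_exact K _ _ (HP_ex₂ G (les_sh hS) b)
lemma Rb_exact₃ : ∃ h, (ShortComplex.mk ((Rb J K G b).map S.g) (Rδ K G hS b) h).Exact :=
  shf_exact K _ _ (HP_ex₃ G (les_sh hS) b)

lemma Rδ_nat {T : ShortComplex (Sh J)} (hT : T.ShortExact) (φ : S ⟶ T) :
    Rδ K G hS b ≫ (Rb J K G (b + 1)).map φ.τ₁ = (Rb J K G b).map φ.τ₃ ≫ Rδ K G hT b := by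
  have : HPδ G hS b ≫ (HPG J G (b + 1)).map φ.τ₁ = (HPG J G b).map φ.τ₃ ≫ HPδ G hT b := by
    ext T x
    exact post_dl hS hT φ x
  exact ((presheafToSheaf K _).map_comp _ _).symm.trans
    ((congrArg _ this).trans ((presheafToSheaf K _).map_comp _ _))

instance : (HPG J G b).Additive := ⟨by
  intro F F' f g
  refine NatTrans.ext (funext fun T => AddCommGrpCat.hom_ext (AddMonoidHom.ext fun x => ?_))
  exact (HPG_map_app G (f + g) b T x).trans ((post_add' f g x).trans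
    (congrArg₂ (· + ·) (HPG_map_app G f b T x).symm (HPG_map_app G g b T x).symm))⟩

instance : (Rb J K G b).Additive :=
  ⟨(congrArg (presheafToSheaf K Ab.{max u v}).map (HPG J G b).map_add).trans
    (presheafToSheaf K Ab.{max u v}).map_add⟩
end

/-- `F(T) = H^0(T,F)`. -/
noncomputable def h0 (T : C) (F : Sh J) : F.obj.obj (op T) ≃+ H T F 0 :=
  (frEquiv T F).symm.trans Ext.addEquiv₀.symm

lemma h0_frEquiv {T : C} {F : Sh J} (a : (fr J).obj T ⟶ F) : h0 T F (frEquiv T F a) = Ext.mk₀ a := by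
  simp [h0]

lemma h0_res {T' T : C} (g : T' ⟶ T) {F : Sh J} (s : F.obj.obj (op T)) :
    h0 T' F (F.obj.map g.op s) = res g F 0 (h0 T F s) := by
  obtain ⟨a, rfl⟩ := (frEquiv T F).surjective s
  rw [← frEquiv_pre, h0_frEquiv, h0_frEquiv]
  exact (Ext.mk₀_comp_mk₀ _ _).symm

lemma h0_post {T : C} {F F' : Sh J} (φ : F ⟶ F') (s : F.obj.obj (op T)) :
    h0 T F' (φ.hom.app (op T) s) = post _ φ 0 (h0 T F s) := by
  obtain ⟨a, rfl⟩ := (frEquiv T F).surjective s
  rw [← frEquiv_post, h0_frEquiv, h0_frEquiv]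
  exact (Ext.mk₀_comp_mk₀ _ _).symm

/-- `h0` as an isomorphism. -/
noncomputable def h0I (F : Sh J) (T : Dᵒᵖ) :
    ((push J K G ⋙ sheafToPresheaf K _).obj F).obj T ≅ ((HPG J G 0).obj F).obj T :=
  (h0 (G.obj T.unop) F).toAddCommGrpIso

lemma h0I_hom (F : Sh J) (T : Dᵒᵖ) (s) : (h0I K G F T).hom s = h0 (G.obj T.unop) F s := rfl

variable (J) in
noncomputable def HP0 : push J K G ⋙ sheafToPresheaf K _ ≅ HPG J G 0 :=
  NatIso.ofComponents (fun F => NatIso.ofComponents (h0I K G F) fun g => ab_sq fun s =>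
    (h0I_hom K G F _ _).trans ((h0_res (G.map g.unop) s).trans
      ((congrArg _ (h0I_hom K G F _ s).symm).trans (HPG_obj_map G F 0 g _).symm)))
    fun φ => NatTrans.ext (funext fun T => ab_sq fun s =>
      (h0I_hom K G _ _ _).trans ((h0_post φ s).trans
        ((congrArg _ (h0I_hom K G _ T s).symm).trans (HPG_map_app G φ 0 T _).symm)))

variable (J) in
/-- `R^0 = f_*`. -/
noncomputable def R0 : Rb J K G 0 ≅ push J K G :=
  Functor.isoWhiskerRight (HP0 J K G).symm _ ≪≫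
    Functor.isoWhiskerLeft (push J K G) (asIso (sheafificationAdjunction K Ab.{max u v}).counit)

lemma isDer_aux {X Y Z : Sh J} {f : X ⟶ Y} {g : Y ⟶ Z} {e : Ext.{max u v} Z X 1}
    (h : ∀ A, IsLES (post A f) (post A g) (pcE A e)) [Injective Y] :
    (∃ (π : (push J K G).obj Z ⟶ (Rb J K G (0 + 1)).obj X) (h : (push J K G).map g ≫ π = 0),
      Epi π ∧ (ShortComplex.mk _ _ h).Exact) ∧
    ∀ b, Nonempty ((Rb J K G (b + 1)).obj Z ≅ (Rb J K G (b + 1 + 1)).obj X) :=
  ⟨isDer_ex (R0 J K G) (d := (presheafToSheaf K _).map (HPe G e 0)) (shf_exact K _ _ (HP_ex₃ G h 0))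
    (have := HPe_epi G h 0
    (presheafToSheaf K Ab.{max u v}).map_epi (HPe G e 0)), fun b =>
    have := HPe_iso G h b
    ⟨(presheafToSheaf K _).mapIso (asIso (HPe G e (b + 1)))⟩⟩

theorem isDer_Rb : IsDer (push J K G) fun b F => (Rb J K G (b + 1)).obj F := fun _ hS _ =>
  isDer_aux K G fun A => cov_les' A hS rfl

variable (J) in
/-- The tautological map `ℤ[T] → G_* ℤ[G T]`. -/
noncomputable def taut (T : D) : (fr K).obj T ⟶ (push J K G).obj ((fr J).obj (G.obj T)) :=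
  (frEquiv T _).symm (frEquiv (G.obj T) _ (𝟙 _))

lemma frEquiv_taut {T : D} {F : Sh J} (x : (fr J).obj (G.obj T) ⟶ F) :
    frEquiv T _ (taut J K G T ≫ (push J K G).map x) = frEquiv (G.obj T) F x := by
  rw [frEquiv_post, taut, AddEquiv.apply_symm_apply]
  exact (frEquiv_post (𝟙 _) x).symm.trans (congrArg _ (Category.id_comp x))

lemma taut_nat {T' T : D} (g : T' ⟶ T) : (fr K).map g ≫ taut J K G T =
    taut J K G T' ≫ (push J K G).map ((fr J).map (G.map g)) := by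
  refine (frEquiv T' _).injective ?_
  rw [frEquiv_taut, frEquiv_pre, taut, AddEquiv.apply_symm_apply]
  exact (frEquiv_pre (G.map g) (𝟙 _)).symm.trans (congrArg _ (Category.comp_id _))

variable [PreservesFiniteColimits (push J K G)]

/-- **UNIV**: `H^q(G T, F) → H^q(T, G_* F)`. -/
noncomputable def univ (T : D) (F : Sh J) (q : ℕ) :
    H (G.obj T) F q →+ H T ((push J K G).obj F) q := cmp (push J K G) (taut J K G T) F q

lemma univ_apply {T : D} {F : Sh J} {q} (x : H (G.obj T) F q) :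
    univ K G T F q x = pre (taut J K G T) _ q (x.mapExactFunctor (push J K G)) := rfl

lemma univ_res {T' T : D} (g : T' ⟶ T) {F : Sh J} {q} (x : H (G.obj T) F q) :
    univ K G T' F q (res (G.map g) F q x) = res g _ q (univ K G T F q x) := by
  rw [univ_apply, univ_apply, map_pre, pre_pre, pre_pre, taut_nat]

lemma univ_post {T : D} {F F' : Sh J} (φ : F ⟶ F') {q} (x : H (G.obj T) F q) :
    univ K G T F' q (post _ φ q x) = post _ ((push J K G).map φ) q (univ K G T F q x) := by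
  rw [univ_apply, univ_apply, map_post, pre_post]

lemma univ_dl {T : D} {S : ShortComplex (Sh J)} (hS : S.ShortExact) {q} (x : H (G.obj T) S.X₃ q) :
    univ K G T _ _ (dl _ hS q x) = dl _ (hS.map_of_exact (push J K G)) q (univ K G T _ q x) := by
  exact (congrArg (pre (taut J K G T) _ _) (map_dl (push J K G) hS x)).trans
    (pre_dl (taut J K G T) (hS.map_of_exact (push J K G)) (x.mapExactFunctor (push J K G)))

lemma univ_h0 {T : D} {F : Sh J} (s : F.obj.obj (op (G.obj T))) :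
    univ K G T F 0 (h0 _ F s) = h0 T ((push J K G).obj F) s := by
  obtain ⟨a, rfl⟩ := (frEquiv _ F).surjective s
  exact (congrArg (univ K G T F 0) (h0_frEquiv a)).trans
    ((cmp_mk₀ (push J K G) (taut J K G T) a).trans
    ((h0_frEquiv (taut J K G T ≫ (push J K G).map a)).symm.trans
      (congrArg (h0 T _) (frEquiv_taut K G a))))

theorem univ_bij (T : D) (h : ∀ (I : Sh J) [Injective I] (n : ℕ)
    (y : H T ((push J K G).obj I) (n + 1)), y = 0) (F : Sh J) (q : ℕ) :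
    Bijective (univ K G T F q) :=
  cmp_bij _ _ (fun Y => (Bijective.of_comp_iff' (frEquiv T _).bijective _).1
    (by
      have e : (frEquiv T _ ∘ fun x => taut J K G T ≫ (push J K G).map x) = frEquiv (G.obj T) Y :=
        funext (frEquiv_taut K G)
      exact e ▸ (frEquiv _ Y).bijective)) h q F

end push

section adj
variable {L : C ⥤ D} {G : D ⥤ C} (adj : L ⊣ G) [L.IsContinuous J K] [G.IsContinuous K J]

/-- `f^* ⊣ f_*`. -/
def padj : push K J L ⊣ push J K G := adj.sheafPushforwardContinuous J K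

include adj in
lemma push_colim : PreservesFiniteColimits (push K J L) :=
  have := (padj J K adj).leftAdjoint_preservesColimits.{0, 0}
  inferInstance

/-- `ℤ[X_U] → f^* ℤ[U]`. -/
noncomputable def frPb (U : D) : (fr J).obj (G.obj U) ⟶ (push K J L).obj ((fr K).obj U) :=
  taut K J L (G.obj U) ≫ (push K J L).map ((fr K).map (adj.counit.app U))

lemma frEquiv_frPb {U : D} {F : Sh J} (y : (push K J L).obj ((fr K).obj U) ⟶ F) :
    frEquiv _ F (frPb J K adj U ≫ y) = frEquiv U _ ((padj J K adj).homEquiv _ _ y) := by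
  rw [frEquiv_post, frPb, frEquiv_taut, ← Category.comp_id ((fr K).map _), frEquiv_pre]
  rfl

instance (U : D) : IsIso (frPb J K adj U) :=
  isIso_of_coyoneda_map_bijective _ fun F =>
    (Bijective.of_comp_iff' (frEquiv _ F).bijective _).1 (by
      have e : (frEquiv _ F ∘ fun x => frPb J K adj U ≫ x) =
        frEquiv U _ ∘ (padj J K adj).homEquiv _ _ := funext (frEquiv_frPb J K adj)
      exact e ▸ (frEquiv U _).bijective.comp (Equiv.bijective _))

omit [G.IsContinuous K J] in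
lemma frPb_nat {U' U : D} (g : U' ⟶ U) : (fr J).map (G.map g) ≫ frPb J K adj U =
    frPb J K adj U' ≫ (push K J L).map ((fr K).map g) := by
  rw [frPb, frPb, ← Category.assoc, taut_nat, Category.assoc, Category.assoc, ← Functor.map_comp,
    ← Functor.map_comp, ← Functor.map_comp, ← Functor.map_comp, adj.counit_naturality]

variable [PreservesFiniteColimits (push K J L)] {J}

/-- The edge map `H^n(U, f_* F) → H^n(X_U, F)`. -/
noncomputable def edgeH (U : D) (F : Sh J) (n : ℕ) :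
    H U ((push J K G).obj F) n →+ H (G.obj U) F n :=
  (pre (frPb J K adj U) F n).comp (edge (padj J K adj) _ F n)

lemma edgeH_apply {U : D} {F : Sh J} {n} (x : H U ((push J K G).obj F) n) :
    edgeH K adj U F n x = pre (frPb J K adj U) F n (edge (padj J K adj) _ F n x) := rfl

lemma edgeH_res {U' U : D} (g : U' ⟶ U) {F : Sh J} {n} (x : H U ((push J K G).obj F) n) :
    edgeH K adj U' F n (res g _ n x) = res (G.map g) F n (edgeH K adj U F n x) := by
  rw [edgeH_apply, edgeH_apply, edge_pre, pre_pre, pre_pre, frPb_nat]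

lemma edgeH_post {U : D} {F F' : Sh J} (φ : F ⟶ F') {n} (x : H U ((push J K G).obj F) n) :
    edgeH K adj U F' n (post _ ((push J K G).map φ) n x) = post _ φ n (edgeH K adj U F n x) := by
  rw [edgeH_apply, edgeH_apply, edge_post, pre_post]

/-- The edge map after the unit is restriction. -/
lemma edgeH_unit {U : D} {F : Sh K} {n} (x : H U F n) :
    edgeH K adj U _ n (post _ (uni (padj J K adj) F) n x) =
      univ J L (G.obj U) F n (res (adj.counit.app U) F n x) := by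
  refine (congrArg (pre (frPb J K adj U) _ n) (edge_unit (padj J K adj) x)).trans ?_
  exact ((congrArg (pre (taut K J L (G.obj U)) _ n) (map_pre (push K J L) _ x)).trans
    (pre_pre _ _ _)).symm

theorem edgeH_trunc (U : D) (F : Sh J) (n N : ℕ)
    (h : ∀ b, b + 1 < N → ∀ i (x : H U ((Rb J K G (b + 1)).obj F) i), x = 0) :
    (n ≤ N → Injective (edgeH K adj U F n)) ∧ (n < N → Surjective (edgeH K adj U F n)) :=
  have := ler0N (padj J K adj) (isDer_Rb K G) _ n N F h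
  ⟨fun hn => (pre_bij _ F n).1.comp (this.1 hn), fun hn => (pre_bij _ F n).2.comp (this.2 hn)⟩

/-- **LER0**. -/
theorem edgeH_bij (U : D) (F : Sh J) (h : ∀ b i (x : H U ((Rb J K G (b + 1)).obj F) i), x = 0)
    (n : ℕ) : Bijective (edgeH K adj U F n) :=
  (pre_bij _ F n).comp (ler0 (padj J K adj) (isDer_Rb K G) _ n F h)

/-- The comparison of `Ext(f^* ℤ[U], F)` with `H(X_U, F)`. -/
noncomputable def frPbF (F : Sh J) (n : ℕ) :
    (fr K).op ⋙ (push K J L).op ⋙ ExtF F n ⟶ (HPG J G n).obj F where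
  app T := AddCommGrpCat.ofHom (pre (frPb J K adj T.unop) F n)
  naturality _ _ g := AddCommGrpCat.hom_ext (AddMonoidHom.ext fun x => (pre_pre _ _ x).trans
    ((congrArg (pre · F n x) (frPb_nat J K adj g.unop).symm).trans (pre_pre _ _ x).symm))

include adj in
/-- **LER** for classes of presheaves. -/
theorem ler_H {P : ℕ → (Dᵒᵖ ⥤ Ab.{max u v}) → Prop} (hP : FiveClass P) (F : Sh J)
    (h : ∀ b i, P (b + i) ((fr K).op ⋙ ExtF ((Rb J K G b).obj F) i)) (n : ℕ) :
    P n ((HPG J G n).obj F) := by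
  have h0 (i) : P i ((fr K).op ⋙ ExtF ((push J K G).obj F) i) :=
    (hP.of_bij (Functor.whiskerLeft (fr K).op (postF ((R0 J K G).app F).hom i))
      fun T => post_bij _ _ _).1 (by simpa using h 0 i)
  exact (hP.of_bij (frPbF K adj F n) fun T => pre_bij (frPb J K adj T.unop) F n).1
    (ler (padj J K adj) (isDer_Rb K G) (hP.comp (fr K).op) F h0 (fun b i => h (b + 1) i) n)

include adj in
/-- **LER-iso** for restriction along `a : U' ⟶ U`. -/
theorem ler_res {U' U : D} (a : U' ⟶ U) (F : Sh J)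
    (h : ∀ b, ExtBij.{max u v} ((fr K).map a) ((Rb J K G b).obj F)) :
    ExtBij.{max u v} ((fr J).map (G.map a)) F :=
  (ler_iso (padj J K adj) (isDer_Rb K G) ((fr K).map a) F
    ((h 0).of_iso ((R0 J K G).app F)) fun b => h (b + 1)).of_sq _ _ (frPb_nat J K adj a)

end adj

end Pool.Agent.MP_855f4c_ag.E

end
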