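import Pool.Agent.MP_855f4c_ag.EC.E4a
import Pool.Agent.MP_855f4c_ag.EC.Sa
import Pool.Agent.MP_855f4c_ag.EC.F1b

section

set_option autoImplicit false
set_option backward.isDefEq.respectTransparency false

open CategoryTheory Limits Abelian Opposite AlgebraicGeometry IsLocalRing

namespace Pool.Agent.MP_855f4c_ag.E4

open E E3

section nat
variable {C D : Type 2} [Category.{1} C] [Abelian C] [Category.{1} D] [Abelian D] [HasExt.{1} C]
  [HasExt.{1} D] [EnoughInjectives C] (L : C ⥤ D) (Q : D ⥤ C) [L.Additive] [Q.Additive]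
  [PreservesFiniteLimits L] [PreservesFiniteColimits L] [PreservesFiniteLimits Q]
  [PreservesFiniteColimits Q]

/-- A natural transformation to a composite of exact functors commutes with `Ext` classes. -/
lemma ext_unit_nat (η : ∀ A : C, A ⟶ Q.obj (L.obj A))
    (hη : ∀ {A B : C} (f : A ⟶ B), η A ≫ Q.map (L.map f) = f ≫ η B) {A : C} (n : ℕ) (F : C)
    (x : Ext A F n) :
    (Ext.mk₀ (η A)).comp ((x.mapExactFunctor L).mapExactFunctor Q) (zero_add n) =
      x.comp (Ext.mk₀ (η F)) (add_zero n) := by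
  induction n generalizing F with
  | zero =>
    obtain ⟨x, rfl⟩ := (Ext.mk₀_bijective _ _).2 x
    rw [Ext.mapExactFunctor_mk₀, Ext.mapExactFunctor_mk₀, Ext.mk₀_comp_mk₀, Ext.mk₀_comp_mk₀, hη]
  | succ n ih =>
    let P : InjectivePresentation F := Classical.arbitrary _
    let S := ShortComplex.mk _ _ (cokernel.condition P.f)
    have hS : S.ShortExact := { exact := ShortComplex.exact_cokernel P.f }
    have := P.injective
    obtain ⟨y, rfl⟩ := Ext.covariant_sequence_exact₁ _ hS x (Ext.eq_zero_of_injective _) rfl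
    have h := hS.extClass_naturality ((hS.map_of_exact L).map_of_exact Q)
      ⟨η _, η _, η _, hη _, hη _⟩
    rw [Ext.mapExactFunctor_comp, Ext.mapExactFunctor_comp, Ext.mapExactFunctor_extClass,
      Ext.mapExactFunctor_extClass, ← Ext.comp_assoc _ _ _ (zero_add n) rfl (by omega), ih,
      Ext.comp_assoc _ _ _ (add_zero n) (zero_add 1) (by omega),
      Ext.comp_assoc _ _ _ rfl (add_zero 1) (by omega)]
    exact congrArg (y.comp · rfl) h.symm

end nat

section push
variable {C D : Type 1} [Category.{0} C] [Category.{0} D] (Φ : C ⥤ D) (J : GrothendieckTopology C)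
  (K : GrothendieckTopology D) [Φ.IsContinuous J K]

/-- Precomposition with a continuous functor. -/
abbrev psh : Sh K ⥤ Sh J := Φ.sheafPushforwardContinuous Ab.{1} J K

lemma psh_lim : PreservesFiniteLimits (psh Φ J K) := ⟨fun I _ _ => ⟨fun {F} => by
  have : PreservesLimit F (psh Φ J K ⋙ sheafToPresheaf J Ab.{1}) :=
    inferInstanceAs (PreservesLimit F
      (sheafToPresheaf K Ab.{1} ⋙ (Functor.whiskeringLeft _ _ _).obj Φ.op))
  exact preservesLimit_of_reflects_of_preserves _ (sheafToPresheaf J Ab.{1})⟩⟩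

/-- The tautological map `ℤ[T] → Φ_* ℤ[Φ T]`. -/
noncomputable def frPs (T : C) : (fr J).obj T ⟶ (psh Φ J K).obj ((fr K).obj (Φ.obj T)) :=
  (frEquiv T _).symm (frEquiv (Φ.obj T) _ (𝟙 _))

lemma frEquiv_frPs (T : C) {G : Sh K} (a : (fr K).obj (Φ.obj T) ⟶ G) :
    frEquiv T _ (frPs Φ J K T ≫ (psh Φ J K).map a) = frEquiv (Φ.obj T) G a := by
  rw [frEquiv_post, frPs, AddEquiv.apply_symm_apply]
  exact (frEquiv_post (𝟙 _) a).symm.trans (by rw [Category.id_comp])

lemma frPs_nat {S T : C} (g : S ⟶ T) : (fr J).map g ≫ frPs Φ J K T =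
    frPs Φ J K S ≫ (psh Φ J K).map ((fr K).map (Φ.map g)) := by
  refine (frEquiv S _).injective ?_
  rw [frEquiv_frPs, frEquiv_pre, frPs, AddEquiv.apply_symm_apply]
  exact (frEquiv_pre (Φ.map g) (𝟙 _)).symm.trans (by rw [Category.comp_id])

lemma frPs_bij (T : C) (G : Sh K) : Function.Bijective
    fun a : (fr K).obj (Φ.obj T) ⟶ G => frPs Φ J K T ≫ (psh Φ J K).map a := by
  rw [← (frEquiv T _).bijective.of_comp_iff']
  exact (congrArg Function.Bijective (funext fun a => frEquiv_frPs Φ J K T a)).mpr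
    (frEquiv (Φ.obj T) G).bijective

variable [(psh Φ J K).Additive] [PreservesFiniteLimits (psh Φ J K)]
  [PreservesFiniteColimits (psh Φ J K)]

lemma cmp_res {S T : C} (g : S ⟶ T) (G : Sh K) (q : ℕ) (x : H (Φ.obj T) G q) :
    cmp (psh Φ J K) (frPs Φ J K S) G q (res (Φ.map g) G q x) =
      res g _ q (cmp (psh Φ J K) (frPs Φ J K T) G q x) := by
  refine (cmp_pre _ _ _ x).trans ?_
  rw [← frPs_nat, cmp_apply, cmp_apply, ← Ext.mk₀_comp_mk₀_assoc]
  rfl

end push

variable {X X' : Scheme.{0}} (ρ : X' ⟶ X)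

/-- `f^* ⊣ f_*`. -/
noncomputable def pbpf : pb (J := Scheme.etaleTopology) ρ ⊣ pf ρ :=
  (Over.mapPullbackAdj ρ).sheafPushforwardContinuous _ _

instance pf_add : (pf (J := Scheme.etaleTopology) ρ).Additive := ⟨rfl⟩

instance pf_lim : PreservesFiniteLimits (pf (J := Scheme.etaleTopology) ρ) := psh_lim _ _ _

instance pb_add : (pb (J := Scheme.etaleTopology) ρ).Additive := ⟨rfl⟩

instance pb_lim : PreservesFiniteLimits (pb (J := Scheme.etaleTopology) ρ) := psh_lim _ _ _

instance pb_colim : PreservesFiniteColimits (pb (J := Scheme.etaleTopology) ρ) :=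
  have := (pbpf ρ).leftAdjoint_preservesColimits.{0, 0}
  inferInstance

instance pf_injective (I : Sh (Scheme.etaleTopology.over X')) [Injective I] : Injective ((pf ρ).obj I) :=
  Injective.injective_of_adjoint (pbpf ρ) I

/-- The image of a Cech nerve in a bigger slice. -/
def cechMap {V U : Over X'} {p : V ⟶ U} (N : Cech p) : Cech ((Over.map ρ).map p) where
  X n := (Over.map ρ).obj (N.X n)
  b n := (Over.map ρ).map (N.b n)
  π n j := (Over.map ρ).map (N.π n j)
  w n j := by rw [← Functor.map_comp, N.w]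
  ex n T u a h := by
    obtain ⟨x, h1, h2⟩ := N.ex n (T := Over.mk (u.left ≫ U.hom)) (Over.homMk u.left)
      (fun j => Over.homMk (a j).left (by
        rw [← Over.w p, ← h j]; exact (Category.assoc _ _ _).symm))
      fun j => Over.OverMorphism.ext congr(($(h j)).left)
    exact ⟨Over.homMk x.left ((Category.assoc _ _ _).symm.trans ((congrArg (· ≫ ρ) (Over.w x)).trans
      ((Category.assoc _ _ _).trans (Over.w u)))), Over.OverMorphism.ext congr(($h1).left),
      fun j => Over.OverMorphism.ext congr(($(h2 j)).left)⟩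
  ext n T x y h h' := by
    have e : y.left ≫ (N.X n).hom = x.left ≫ (N.X n).hom := by
      rw [← Over.w (N.b n), ← Category.assoc, ← Category.assoc]
      exact congrArg (· ≫ U.hom) congr(($h).left).symm
    have := N.ext n (T := Over.mk (x.left ≫ (N.X n).hom)) (Over.homMk x.left) (Over.homMk y.left e)
      (Over.OverMorphism.ext congr(($h).left)) fun j => Over.OverMorphism.ext congr(($(h' j)).left)
    exact Over.OverMorphism.ext congr(($this).left)

lemma cechMap_cd {V U : Over X'} {p : V ⟶ U} (N : Cech p) (I : Sh (Scheme.etaleTopology.over X)) (n : ℕ) (s) :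
    N.cd ((pb ρ).obj I).obj n s = (cechMap ρ N).cd I.obj n s := by
  refine Finset.sum_congr rfl fun i _ => ?_
  have : (cechMap ρ N).face n i = (Over.map ρ).map (N.face n i) :=
    (cechMap ρ N).ext _ _ _ (by
      rw [Cech.face_b]
      exact ((Over.map ρ).congr_map (N.face_b n i).symm).trans ((Over.map ρ).map_comp _ _))
      fun j => by
        rw [Cech.face_π]
        exact ((Over.map ρ).congr_map (N.face_π n i j).symm).trans ((Over.map ρ).map_comp _ _)
  rw [this]
  rfl

/-- `H^q(U, F) → H^q(U, ρ^* F)` for `U` over `X'`. -/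
noncomputable def slH (U : Over X') (F : Sh (Scheme.etaleTopology.over X)) (q : ℕ) :
    H ((Over.map ρ).obj U) F q →+ H U ((pb ρ).obj F) q :=
  cmp (pb ρ) (frPs (Over.map ρ) _ _ U) F q

theorem slH_bij (U : Over X') (F : Sh (Scheme.etaleTopology.over X)) (q : ℕ) : Function.Bijective (slH ρ U F q) :=
  cmp_bij _ _ (frPs_bij _ _ _ U) (fun I _ n y => cartan_et (fun _ => True) (fun _ _ _ _ _ => trivial)
    _ (fun V U p _ _ _ N n s hs => by
      obtain ⟨t, ht⟩ := (cechMap ρ N).acy_inj I n s ((cechMap_cd ρ N I _ s).symm.trans hs)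
      exact ⟨t, (cechMap_cd ρ N I _ t).trans ht⟩) trivial n y) q F

theorem slH_res {U V : Over X'} (g : V ⟶ U) (F : Sh (Scheme.etaleTopology.over X)) (q : ℕ)
    (x : H ((Over.map ρ).obj U) F q) :
    slH ρ V F q (res ((Over.map ρ).map g) F q x) = res g _ q (slH ρ U F q x) :=
  cmp_res _ _ _ g F q x

theorem res_map_bij {U V : Over X'} (g : V ⟶ U) (F : Sh (Scheme.etaleTopology.over X)) (q : ℕ) :
    Function.Bijective (res ((Over.map ρ).map g) F q) ↔
      Function.Bijective (res g ((pb ρ).obj F) q) := by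
  rw [← (slH_bij ρ V F q).of_comp_iff', ← Function.Bijective.of_comp_iff _ (slH_bij ρ U F q)]
  exact (congrArg Function.Bijective (funext (slH_res ρ g F q))).to_iff

attribute [local instance] IsCofiltered.isConnected in
theorem pb_lfp {F : Sh (Scheme.etaleTopology.over X)} (h : LFP F.obj) : LFP ((pb ρ).obj F).obj :=
  fun I _ _ D c hD hc => h I (D ⋙ Over.map ρ) ((Over.map ρ).mapCone c) hD
    (limOfForget (c := (Over.map ρ).mapCone c) (limForget (c := c) hc :))

theorem pb_cc {l : ℕ} {F : Sh (Scheme.etaleTopology.over X)} (h : Cc l F) : Cc l ((pb ρ).obj F) :=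
  ⟨pb_lfp ρ h.1, fun A k _ _ _ _ φ _ a b e hl =>
    h.2 A k φ (a ≫ ρ) (b ≫ ρ) (by rw [← e, Category.assoc]) hl⟩

theorem pb_tc {l : ℕ} {F : Sh (Scheme.etaleTopology.over X)} (h : Tc l F) : Tc l ((pb ρ).obj F) :=
  ⟨pb_cc ρ h.1, fun T hT s => h.2 ((Over.map ρ).obj T) hT s⟩

section pts
variable {l : ℕ} {F G : Sh (Scheme.etaleTopology.over X)}

lemma exists_geom {R : Type} [CommRing R] (m : Ideal R) [m.IsPrime] :
    ∃ (k : Type) (_ : Field k) (_ : IsAlgClosed k) (_ : Algebra R k),
      RingHom.ker (Algebra.ofId R k) = m := by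
  refine ⟨AlgebraicClosure m.ResidueField, inferInstance, inferInstance, inferInstance, ?_⟩
  ext a
  rw [RingHom.mem_ker, Algebra.ofId_apply, IsScalarTower.algebraMap_apply R m.ResidueField,
    map_eq_zero, Ideal.algebraMap_residueField_eq_zero]

/-- A section that vanishes at all geometric points is zero. -/
theorem pt_sec (hF : Cc l F) {T : Over X} (hl : Linv l T.left) (s : F.obj.obj (op T))
    (h : ∀ (k : Type) [Field k] [IsAlgClosed k] (x : Spec (.of k) ⟶ X) (v : Over.mk x ⟶ T),
      F.obj.map v.op s = 0) : s = 0 := by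
  refine sepP F.property s ⟨fun V v => F.obj.map v.op s = 0, fun {V W v} h g => by
    rw [← res_res, h, map_zero]⟩ (mem_of_aff _ fun R _ u v => ?_) fun _ _ h => h
  have : F.obj.map v.op s = 0 := pt_ring u hF (hl.isUnit v.left) _ fun m _ => by
    obtain ⟨k, _, _, _, hk⟩ := exists_geom m
    exact ⟨k, inferInstance, inferInstance, inferInstance, _, hk,
      (res_res _ _ _ s).trans (h k _ _)⟩
  refine (Scheme.etaleTopology.over X).superset_covering (fun W w _ => ?_) ((Scheme.etaleTopology.over X).top_mem _)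
  change F.obj.map (w ≫ v).op s = 0
  rw [← res_res, this, map_zero]

theorem mono_of_pts (φ : F ⟶ G) (hF : Cc l F) (hl : Linv l X)
    (h : ∀ (k : Type) [Field k] [IsAlgClosed k] (x : Spec (.of k) ⟶ X),
      Function.Injective (φ.hom.app (op (Over.mk x)))) : Mono φ := by
  have (T : (Over X)ᵒᵖ) : Mono (φ.hom.app T) := (AddCommGrpCat.mono_iff_injective _).2
    ((injective_iff_map_eq_zero (φ.hom.app T).hom).2 fun s hs =>
      pt_sec hF (hl.of_hom T.unop.hom) s fun k _ _ x v => h k x (by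
        rw [map_zero, map_nat]
        exact (congrArg _ hs).trans (map_zero _)))
  have : Mono φ.hom := NatTrans.mono_of_mono_app _
  exact (sheafToPresheaf _ _).mono_of_mono_map this

/-- Composition of etale algebras. -/
def EtA.comp {R A : Type} [CommRing R] [CommRing A] [Algebra R A] (E : EtA R A)
    (E' : EtA R E.E) : EtA R A :=
  letI : Algebra A E'.E := ((algebraMap E.E E'.E).comp (algebraMap A E.E)).toAlgebra
  haveI : IsScalarTower A E.E E'.E := .of_algebraMap_eq fun _ => rfl
  { E := E'.E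
    tw := .of_algebraMap_eq fun r => ((E'.ι.comp E.ι).commutes r).symm
    et := .comp A E.E E'.E }

theorem epi_of_pts (φ : F ⟶ G) (hF : Cc l F) (hG : Cc l G) (hl : Linv l X)
    (h : ∀ (k : Type) [Field k] [IsAlgClosed k] (x : Spec (.of k) ⟶ X),
      Function.Surjective (φ.hom.app (op (Over.mk x)))) : Epi φ := by
  refine epi_of_loc φ fun R _ u s m _ => ?_
  obtain ⟨k, _, _, _, hk⟩ := exists_geom m
  obtain ⟨a, ha⟩ := h k _ (rs u G.obj (Algebra.ofId R k) s)
  obtain ⟨E, σ, t, h1, rfl⟩ := germ_surj u hF (hl.isUnit u) (Algebra.ofId R k) a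
  obtain ⟨E', σ', h2, h3⟩ := germ_zero u hG (hl.isUnit (ob u E.E).hom) σ
    (φ.hom.app _ t - rs u G.obj E.ι s) (by rw [map_sub, rs_rs, h1, ← rs_nat, ha, sub_self])
  refine ⟨E.comp E', hk ▸ (E.comp E').hits_ker σ' (AlgHom.ext fun x => ?_), rs u F.obj E'.ι t, ?_⟩
  · exact (congr($h2 (E.ι x))).trans congr($h1 x)
  · rw [map_sub, sub_eq_zero, rs_rs, ← rs_nat] at h3
    exact h3

end pts

end Pool.Agent.MP_855f4c_ag.E4

end

section

set_option autoImplicit false
set_option backward.isDefEq.respectTransparency false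

open CategoryTheory Limits Abelian Opposite AlgebraicGeometry IsLocalRing TensorProduct

namespace Pool.Agent.MP_855f4c_ag.E4

open E E3

/-- A map from a finitely presented algebra to a base change comes from an etale stage. -/
theorem fac_tensor {R C : Type} [CommRing R] [CommRing C] [Algebra R C] (H : IndEt R C)
    (R' : Type) [CommRing R'] [Algebra R R'] {P : Type} [CommRing P] [Algebra R' P]
    [Algebra.FinitePresentation R' P] (f : P →ₐ[R'] R' ⊗[R] C) :
    ∃ (E : Type) (_ : CommRing E) (_ : Algebra R E) (_ : Algebra.Etale R E) (_ : E →ₐ[R] C),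
      Nonempty (P →ₐ[R'] R' ⊗[R] E) := by
  obtain ⟨n, π, hπ, hk⟩ := Algebra.FinitePresentation.out (R := R') (A := P)
  obtain ⟨m, F, hF⟩ := Submodule.fg_iff_exists_fin_generating_family.1 hk
  obtain ⟨E, _, _, _, -, h, y, -, hy⟩ := H.lift_tensors (Algebra.ofId R C)
    fun i => f (π (MvPolynomial.X i))
  have hm : ∀ {A B : Type} [CommRing A] [CommRing B] [Algebra R A] [Algebra R B] (φ : A →ₐ[R] B)
      (u : R' ⊗[R] A), Algebra.TensorProduct.map (AlgHom.id R' R') φ u
        = LinearMap.lTensor R' φ.toLinearMap u := by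
    intro A B _ _ _ _ φ u
    induction u using TensorProduct.induction_on with
    | zero => simp
    | tmul a b => simp
    | add a b ha hb => rw [map_add, map_add, ha, hb]
  have hev : ∀ {A B : Type} [CommRing A] [CommRing B] [Algebra R' A] [Algebra R' B]
      (φ : A →ₐ[R'] B) (u : Fin n → A) (G : MvPolynomial (Fin n) R'),
      φ (MvPolynomial.aeval u G) = MvPolynomial.aeval (fun i => φ (u i)) G := by
    intro A B _ _ _ _ φ u G
    rw [← AlgHom.comp_apply, MvPolynomial.comp_aeval]
  obtain ⟨E', _, _, _, g, h', -, hk⟩ := H.kill_tensors h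
    (fun j => MvPolynomial.aeval y (F j)) (fun j => by
      have h0 : F j ∈ RingHom.ker π.toRingHom := hF ▸ Submodule.subset_span (Set.mem_range_self j)
      have h1 : (f.comp π) (F j) = 0 := (congrArg f h0).trans (map_zero f)
      rw [← hm, hev, ← h1, MvPolynomial.aeval_unique (f.comp π)]
      simp only [hm, hy]
      rfl)
  refine ⟨E', inferInstance, inferInstance, inferInstance, h', ⟨(Ideal.Quotient.liftₐ _
    (MvPolynomial.aeval fun i => Algebra.TensorProduct.map (AlgHom.id R' R') g (y i))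
      fun a ha => ?_).comp (Ideal.quotientKerAlgEquivOfSurjective hπ).symm.toAlgHom⟩⟩
  have : RingHom.ker π ≤ RingHom.ker (MvPolynomial.aeval (R := R')
      fun i => Algebra.TensorProduct.map (AlgHom.id R' R') g (y i)) := by
    refine (show RingHom.ker π = _ from hF.symm).le.trans (Submodule.span_le.2 ?_)
    rintro _ ⟨j, rfl⟩
    exact (hev _ _ _).symm.trans ((hm _ _).trans (hk j))
  exact this ha

variable {X X' : Scheme.{0}} (ρ : X' ⟶ X)

/-- The map to the fibre product. -/
noncomputable def toPb {T : Over X} {T' : Over X'} (p : T'.left ⟶ T.left)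
    (w : p ≫ T.hom = T'.hom ≫ ρ) : T' ⟶ (Over.pullback ρ).obj T :=
  Over.homMk (pullback.lift p T'.hom w) (pullback.lift_snd _ _ _)

lemma toPb_fst {T : Over X} {T' : Over X'} (p : T'.left ⟶ T.left) (w : p ≫ T.hom = T'.hom ≫ ρ) :
    (toPb ρ p w).left ≫ pullback.fst T.hom ρ = p := pullback.lift_fst _ _ _

lemma pb_ext {T : Over X} {T' : Over X'} {a b : T' ⟶ (Over.pullback ρ).obj T}
    (h : a.left ≫ pullback.fst T.hom ρ = b.left ≫ pullback.fst T.hom ρ) : a = b :=
  Over.OverMorphism.ext (pullback.hom_ext h ((Over.w a).trans (Over.w b).symm))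

lemma isIso_toPb {T : Over X} {T' : Over X'} {p : T'.left ⟶ T.left}
    (h : IsPullback p T'.hom T.hom ρ) : IsIso (toPb ρ p h.w) :=
  isIso_homMk _ (by
    have : (toPb ρ p h.w).left = h.isoPullback.hom :=
      pullback.hom_ext ((toPb_fst ρ p h.w).trans h.isoPullback_hom_fst.symm)
        ((Over.w (toPb ρ p h.w)).trans h.isoPullback_hom_snd.symm)
    rw [this]; infer_instance)

lemma toPb_nat {T S : Over X} {T' S' : Over X'} {p : T'.left ⟶ T.left}
    (w : p ≫ T.hom = T'.hom ≫ ρ) {p' : S'.left ⟶ S.left} (w' : p' ≫ S.hom = S'.hom ≫ ρ)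
    (g : S ⟶ T) (g' : S' ⟶ T') (h : g'.left ≫ p = p' ≫ g.left) :
    g' ≫ toPb ρ p w = toPb ρ p' w' ≫ (Over.pullback ρ).map g :=
  pb_ext ρ (by
    have e : ((Over.pullback ρ).map g).left ≫ pullback.fst T.hom ρ =
      pullback.fst S.hom ρ ≫ g.left := pullback.lift_fst _ _ _
    rw [Over.comp_left, Over.comp_left, Category.assoc, Category.assoc, toPb_fst, h, e,
      ← Category.assoc, toPb_fst])

lemma aff_fib [IsAffineHom ρ] (T : Over X) (h : IsAffine T.left) :
    IsAffine ((Over.pullback ρ).obj T).left :=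
  have : IsAffineHom (pullback.fst T.hom ρ) := MorphismProperty.pullback_fst _ _ ‹_›
  isAffine_of_isAffineHom (pullback.fst T.hom ρ)

/-- The ring of a fibre product with an affine morphism. -/
lemma exists_fib [IsAffineHom ρ] {R : Type} [CommRing R] (u : Spec (.of R) ⟶ X) :
    ∃ (D : Type) (_ : CommRing D) (_ : Algebra R D) (u' : Spec (.of D) ⟶ X'),
      IsPullback (Spec.map (CommRingCat.ofHom (algebraMap R D))) u' u ρ := by
  have : IsAffine (pullback u ρ) := aff_fib ρ (Over.mk u) (inferInstanceAs (IsAffine (Spec _)))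
  obtain ⟨φ, hφ⟩ := Spec.map_surjective ((pullback u ρ).isoSpec.inv ≫ pullback.fst u ρ)
  refine ⟨Γ(pullback u ρ, ⊤), inferInstance, φ.hom.toAlgebra,
    (pullback u ρ).isoSpec.inv ≫ pullback.snd u ρ, ?_⟩
  change IsPullback (Spec.map φ) _ _ _
  rw [hφ]
  exact .of_iso_pullback ⟨by simp [pullback.condition]⟩ (pullback u ρ).isoSpec.symm rfl rfl

section fib
variable {ρ} {R D : Type} [CommRing R] [CommRing D] [Algebra R D] {u : Spec (.of R) ⟶ X}
  {u' : Spec (.of D) ⟶ X'}
  (h : IsPullback (Spec.map (CommRingCat.ofHom (algebraMap R D))) u' u ρ)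
include h

lemma fib_integral [IsIntegralHom ρ] : Algebra.IsIntegral R D :=
  algebraMap_isIntegral_iff.1 (IsIntegralHom.SpecMap_iff.1
    (MorphismProperty.of_isPullback (P := @IsIntegralHom) h.flip ‹_›))

lemma fib_finite [IsFinite ρ] : Module.Finite R D :=
  RingHom.finite_algebraMap.1 ((IsFinite.SpecMap_iff _).1
    (MorphismProperty.of_isPullback (P := @IsFinite) h.flip ‹_›))

lemma fib_etale [Etale ρ] : Algebra.Etale R D :=
  RingHom.etale_algebraMap.1 ((HasRingHomProperty.Spec_iff (P := @Etale)).1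
    (MorphismProperty.of_isPullback (P := @Etale) h.flip ‹_›))

lemma isPullback_ob (A D' : Type) [CommRing A] [CommRing D'] [Algebra R A] [Algebra A D']
    [Algebra D D'] [Algebra R D'] [IsScalarTower R A D'] [IsScalarTower R D D']
    [Algebra.IsPushout R A D D'] :
    IsPullback (Spec.map (CommRingCat.ofHom (algebraMap A D'))) (ob u' D').hom (ob u A).hom ρ :=
  (isPullback_SpecMap_of_isPushout _ _ _ _
    (CommRingCat.isPushout_of_isPushout R A D D')).paste_vert h

/-- The comparison with the fibre product. -/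
noncomputable def fb (A D' : Type) [CommRing A] [CommRing D'] [Algebra R A] [Algebra A D']
    [Algebra D D'] [Algebra R D'] [IsScalarTower R A D'] [IsScalarTower R D D']
    [Algebra.IsPushout R A D D'] : ob u' D' ⟶ (Over.pullback ρ).obj (ob u A) :=
  toPb ρ (T := ob u A) (T' := ob u' D') _ (isPullback_ob h A D').w

instance (A D' : Type) [CommRing A] [CommRing D'] [Algebra R A] [Algebra A D']
    [Algebra D D'] [Algebra R D'] [IsScalarTower R A D'] [IsScalarTower R D D']
    [Algebra.IsPushout R A D D'] : IsIso (fb h A D') :=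
  isIso_toPb ρ (T := ob u A) (T' := ob u' D') (isPullback_ob h A D')

lemma isPullback_mk :
    IsPullback (Spec.map (CommRingCat.ofHom (algebraMap R D))) (ob u' D).hom (Over.mk u).hom ρ := by
  simpa using h

/-- The comparison with the fibre product. -/
noncomputable def fb0 : ob u' D ⟶ (Over.pullback ρ).obj (Over.mk u) :=
  toPb ρ (T := Over.mk u) (T' := ob u' D) _ (isPullback_mk h).w

instance : IsIso (fb0 h) := isIso_toPb ρ (T := Over.mk u) (T' := ob u' D) (isPullback_mk h)

end fib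

theorem pf_lfp [IsAffineHom ρ] {G : Sh (Scheme.etaleTopology.over X')} (h : LFP G.obj) : LFP ((pf ρ).obj G).obj :=
  fun I _ _ D c hD hc => h I (D ⋙ Over.pullback ρ) ((Over.pullback ρ).mapCone c) 
    (fun i => aff_fib ρ _ (hD i)) (isLimitOfPreserves _ hc)

theorem pf_tor [IsAffineHom ρ] {l : ℕ} {G : Sh (Scheme.etaleTopology.over X')} (h : Tor l G.obj) :
    Tor l ((pf ρ).obj G).obj := fun T hT s =>
  h ((Over.pullback ρ).obj T) (aff_fib ρ T hT) s

attribute [local instance] Algebra.TensorProduct.rightAlgebra in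
theorem pf_cc [IsIntegralHom ρ] {l : ℕ} {G : Sh (Scheme.etaleTopology.over X')} (h : Cc l G) : Cc l ((pf ρ).obj G) := by
  refine ⟨pf_lfp ρ h.1, fun A k _ _ _ _ φ _ a b e hl => ?_⟩
  subst e
  obtain ⟨D, _, _, u', H⟩ := exists_fib ρ a
  have := fib_integral H
  let := φ.toAlgebra
  exact (bij_of_sq G.obj (hm u' (up D D (k ⊗[A] D))) ((Over.pullback ρ).map (sph φ rfl))
    (fb H k _) (fb0 H) (toPb_nat ρ _ _ _ _ (by
      rw [hm_left, ← Spec.map_comp]
      exact (congrArg Spec.map (CommRingCat.hom_ext ((IsScalarTower.algebraMap_eq A D _).symm.trans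
        (IsScalarTower.algebraMap_eq A k _)))).trans (Spec.map_comp _ _))).symm).1
    (rig_int u' h A D k (k ⊗[A] D) (ker_eq_max φ) hl)

theorem pf_tc [IsIntegralHom ρ] {l : ℕ} {G : Sh (Scheme.etaleTopology.over X')} (h : Tc l G) : Tc l ((pf ρ).obj G) :=
  ⟨pf_cc ρ h.1, pf_tor ρ h.2⟩

lemma exists_alg {D : Type} [CommRing D] (u' : Spec (.of D) ⟶ X') {V : Over X'} [IsAffine V.left]
    (p : V ⟶ ob u' D) : ∃ (S : Type) (_ : CommRing S) (_ : Algebra D S) (e : ob u' S ⟶ V),
      IsIso e.left ∧ e.left ≫ p.left = Spec.map (CommRingCat.ofHom (algebraMap D S)) := by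
  obtain ⟨φ, hφ⟩ := Spec.map_surjective (V.left.isoSpec.inv ≫ p.left)
  refine ⟨Γ(V.left, ⊤), inferInstance, φ.hom.toAlgebra, Over.homMk V.left.isoSpec.inv ?_,
    (inferInstance : IsIso V.left.isoSpec.inv), hφ.symm⟩
  change _ = Spec.map φ ≫ u'
  rw [hφ, ← Over.w p]
  simp

attribute [local instance] Algebra.TensorProduct.rightAlgebra in
instance pf_epi [IsIntegralHom ρ] {G G' : Sh (Scheme.etaleTopology.over X')} (φ : G ⟶ G') [Epi φ] :
    Epi ((pf ρ).map φ) := by
  refine epi_of_loc _ fun R _ u s m _ => ?_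
  obtain ⟨D, _, _, u', H⟩ := exists_fib ρ u
  have := fib_integral H
  have : IsAffine (ob u' D).left := inferInstanceAs (IsAffine (Spec _))
  obtain ⟨V, p, _, _, _, t, ht⟩ := lifts_aff (ob u' D) φ (G'.obj.map (fb H R D).op s)
  obtain ⟨S, _, _, e, _, he⟩ := exists_alg u' p
  have h1 : Etale (e.left ≫ p.left) := inferInstance
  have hs : Surjective (e.left ≫ p.left) := inferInstance
  rw [he] at h1 hs
  have : Algebra.Etale D S := RingHom.etale_algebraMap.1
    ((HasRingHomProperty.Spec_iff (P := @Etale)).1 h1)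
  obtain ⟨k, _, _, _, hk⟩ := exists_geom m
  obtain ⟨A, _, _, _, _, _, hA, _⟩ := exists_SH R k
  have : Algebra.IsIntegral A (D ⊗[R] A) := Algebra.IsPushout.isIntegral' R A D _
  obtain ⟨σ⟩ := Wc.quotient_sec (B := D) (S := S) hs.1 (D ⊗[R] A) (SHL.wc_of_integral A _)
  obtain ⟨E, _, _, _, h, ⟨g⟩⟩ := fac_tensor hA D σ
  refine ⟨⟨E⟩, ⟨(maximalIdeal A).comap h, inferInstance, ?_⟩,
    G.obj.map (inv (fb H E (D ⊗[R] E)) ≫ hm u' g ≫ e).op t, ?_⟩
  · rw [← hk, ← ker_eq_max (algebraMap A k)]
    ext r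
    change algebraMap A k (h (algebraMap R E r)) = 0 ↔ algebraMap R k r = 0
    rw [h.commutes, ← IsScalarTower.algebraMap_apply]
  · refine (map_nat φ.hom _ t).trans ?_
    rw [ht, res_res, res_res]
    refine congrArg (fun a => G'.obj.map (Quiver.Hom.op a) s) ?_
    simp only [Category.assoc]
    rw [IsIso.inv_comp_eq, ← Category.assoc, ← Category.assoc]
    refine toPb_nat ρ _ _ _ _ ?_
    rw [Over.comp_left, Over.comp_left, Category.assoc _ e.left, he, hm_left,
      ← Spec.map_comp, ← Spec.map_comp]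
    refine (congrArg Spec.map (CommRingCat.hom_ext (RingHom.ext fun r => ?_))).trans
      (Spec.map_comp (CommRingCat.ofHom (algebraMap R E)) _)
    exact (g.commutes _).trans ((IsScalarTower.algebraMap_apply R D _ r).symm.trans
      (IsScalarTower.algebraMap_apply R E _ r))

instance pf_colim [IsIntegralHom ρ] :
    PreservesFiniteColimits (pf (J := Scheme.etaleTopology) ρ) :=
  have : (pf (J := Scheme.etaleTopology) ρ).PreservesEpimorphisms := ⟨fun φ _ => pf_epi ρ φ⟩
  have := Functor.preservesHomology_of_preservesEpis_and_kernels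
    (pf (J := Scheme.etaleTopology) ρ)
  Functor.preservesFiniteColimits_of_preservesHomology _

/-- The tautological map `ℤ[T] → ρ_* ℤ[T × X']`. -/
noncomputable def frPf (T : Over X) :
    (fr (Scheme.etaleTopology.over X)).obj T ⟶ (pf ρ).obj ((fr (Scheme.etaleTopology.over X')).obj ((Over.pullback ρ).obj T)) :=
  frPs (Over.pullback ρ) _ _ T

section int
variable [IsIntegralHom ρ]

/-- `H^q(T × X', G) → H^q(T, ρ_* G)`. -/
noncomputable def intH (T : Over X) (G : Sh (Scheme.etaleTopology.over X')) (q : ℕ) :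
    H ((Over.pullback ρ).obj T) G q →+ H T ((pf ρ).obj G) q := cmp (pf ρ) (frPf ρ T) G q

/-- INT. -/
theorem intH_bij (T : Over X) (G : Sh (Scheme.etaleTopology.over X')) (q : ℕ) : Function.Bijective (intH ρ T G q) :=
  cmp_bij _ _ (frPs_bij _ _ _ T) (fun _ _ _ y => Ext.eq_zero_of_injective y) q G

theorem intH_res {T S : Over X} (g : S ⟶ T) (G : Sh (Scheme.etaleTopology.over X')) (q : ℕ)
    (x : H ((Over.pullback ρ).obj T) G q) :
    intH ρ S G q (res ((Over.pullback ρ).map g) G q x) = res g _ q (intH ρ T G q x) :=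
  cmp_res _ _ _ g G q x

theorem res_pf_bij {T S : Over X} (g : S ⟶ T) (G : Sh (Scheme.etaleTopology.over X')) (q : ℕ) :
    Function.Bijective (res ((Over.pullback ρ).map g) G q) ↔
      Function.Bijective (res g ((pf ρ).obj G) q) := by
  rw [← (intH_bij ρ S G q).of_comp_iff', ← Function.Bijective.of_comp_iff _ (intH_bij ρ T G q)]
  exact (congrArg Function.Bijective (funext (intH_res ρ g G q))).to_iff

theorem intH_comp (T : Over X) {G G' : Sh (Scheme.etaleTopology.over X')} {q m n : ℕ}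
    (x : H ((Over.pullback ρ).obj T) G q) (y : Ext G G' m) (h : q + m = n) :
    intH ρ T G' n (x.comp y h) = (intH ρ T G q x).comp (y.mapExactFunctor (pf ρ)) h :=
  cmp_comp _ _ x y h

theorem intH_map (T : Over X) {G G' : Sh (Scheme.etaleTopology.over X')} (φ : G ⟶ G') {q : ℕ}
    (x : H ((Over.pullback ρ).obj T) G q) :
    intH ρ T G' q (x.comp (Ext.mk₀ φ) (add_zero q)) =
      (intH ρ T G q x).comp (Ext.mk₀ ((pf ρ).map φ)) (add_zero q) := by
  rw [intH_comp, Ext.mapExactFunctor_mk₀]

theorem intH_mk₀ (T : Over X) {G : Sh (Scheme.etaleTopology.over X')}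
    (a : (fr (Scheme.etaleTopology.over X')).obj ((Over.pullback ρ).obj T) ⟶ G) :
    intH ρ T G 0 (Ext.mk₀ a) = Ext.mk₀ ((frEquiv T _).symm (frEquiv _ G a)) :=
  (cmp_mk₀ _ _ a).trans (congrArg _ ((AddEquiv.eq_symm_apply _).2 (frEquiv_frPs _ _ _ T a)))

end int

end Pool.Agent.MP_855f4c_ag.E4

end

section

set_option autoImplicit false
set_option backward.isDefEq.respectTransparency false

open CategoryTheory Limits Abelian Opposite AlgebraicGeometry IsLocalRing

namespace Pool.Agent.MP_855f4c_ag.E4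

open E E3

variable {X X' : Scheme.{0}} (ρ : X' ⟶ X)

/-- The value of a section of `ρ_* G` over `T` at a lift `y` of `T`. -/
noncomputable def atLift (G : Sh (Scheme.etaleTopology.over X')) {T : Over X} (y : T ⟶ Over.mk ρ) :
    ((pf ρ).obj G).obj.obj (op T) →+ G.obj.obj (op (Over.mk y.left)) :=
  (G.obj.map (toPb ρ (T := T) (T' := Over.mk y.left) (𝟙 _)
    ((Category.id_comp _).trans (Over.w y).symm)).op).hom

section lf
variable {ρ} {k D : Type} [CommRing k] [CommRing D] [Algebra k D] {x : Spec (.of k) ⟶ X}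
  {u' : Spec (.of D) ⟶ X'}
  (h : IsPullback (Spec.map (CommRingCat.ofHom (algebraMap k D))) u' x ρ)

lemma spec_sec (τ : D →ₐ[k] k) : Spec.map (CommRingCat.ofHom (τ : D →+* k)) ≫
    Spec.map (CommRingCat.ofHom (algebraMap k D)) = 𝟙 _ := by
  rw [← Spec.map_comp, ← CommRingCat.ofHom_comp, AlgHom.comp_algebraMap]
  exact Spec.map_id _

/-- The lift attached to a point of the fibre ring. -/
noncomputable def lf (τ : D →ₐ[k] k) : Over.mk x ⟶ Over.mk ρ :=
  Over.homMk (Spec.map (CommRingCat.ofHom (τ : D →+* k)) ≫ u') (by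
    change (_ ≫ u') ≫ ρ = x
    rw [Category.assoc, ← h.w, ← Category.assoc, spec_sec, Category.id_comp])

lemma lf_surj : Function.Surjective (lf h) := fun y => by
  have w : 𝟙 _ ≫ x = y.left ≫ ρ := (Category.id_comp _).trans (Over.w y).symm
  obtain ⟨τ, hτ⟩ := Spec.map_surjective (h.lift _ _ w)
  have h1 := h.lift_fst _ _ w
  rw [← hτ, ← Spec.map_comp, ← Spec.map_id] at h1
  refine ⟨⟨τ.hom, fun c => congr(($(Spec.map_injective h1)).hom c)⟩, Over.OverMorphism.ext ?_⟩
  exact (congrArg (· ≫ u') hτ).trans (h.lift_snd _ _ w)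

lemma atLift_lf' (G : Sh (Scheme.etaleTopology.over X')) [Algebra D k] (hc : ∀ c, algebraMap D k (algebraMap k D c) = c)
    (s : ((pf ρ).obj G).obj.obj (op (Over.mk x))) :
    atLift ρ G (lf h ⟨algebraMap D k, hc⟩) s =
      rs u' G.obj (Algebra.ofId D k) (G.obj.map (fb0 h).op s) := by
  refine Eq.trans (congrArg (fun a => G.obj.map (Quiver.Hom.op a) s) (pb_ext ρ ?_))
    (res_res G.obj (hm u' (Algebra.ofId D k)) (fb0 h) s).symm
  rw [toPb_fst, Over.comp_left, Category.assoc, fb0, toPb_fst]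
  exact (spec_sec ⟨algebraMap D k, hc⟩).symm

lemma atLift_lf (G : Sh (Scheme.etaleTopology.over X')) (τ : D →ₐ[k] k) (s : ((pf ρ).obj G).obj.obj (op (Over.mk x))) :
    letI : Algebra D k := (τ : D →+* k).toAlgebra
    atLift ρ G (lf h τ) s = rs u' G.obj (Algebra.ofId D k) (G.obj.map (fb0 h).op s) :=
  letI : Algebra D k := (τ : D →+* k).toAlgebra
  atLift_lf' h G τ.commutes s

end lf

section stalk
variable {l : ℕ} {G : Sh (Scheme.etaleTopology.over X')} (hG : Cc l G) {k : Type} [Field k] [IsAlgClosed k]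
  (hl : (l : k) ≠ 0) (x : Spec (.of k) ⟶ X)
include hG hl

theorem stalk_inj [IsIntegralHom ρ] : Function.Injective
    fun (s : ((pf ρ).obj G).obj.obj (op (Over.mk x))) (y : Over.mk x ⟶ Over.mk ρ) =>
      atLift ρ G y s := fun s t e => by
  obtain ⟨D, _, _, u', h⟩ := exists_fib ρ x
  have := fib_integral h
  refine sub_eq_zero.1 ((ConcreteCategory.bijective_of_isIso (G.obj.map (fb0 h).op)).1 ?_)
  rw [map_zero]
  refine pt_alg u' hG k (by simpa using hl.isUnit.map (algebraMap k D)) _ fun i φ hφ => ?_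
  obtain rfl : φ = Algebra.ofId D k := AlgHom.ext φ.commutes
  rw [← atLift_lf' h G hφ, map_sub, sub_eq_zero]
  exact congrFun e _

/-- Every value at one lift is attained. -/
theorem atLift_surj [IsIntegralHom ρ] (y : Over.mk x ⟶ Over.mk ρ) :
    Function.Surjective (atLift ρ G y) := fun a => by
  obtain ⟨D, _, _, u', h⟩ := exists_fib ρ x
  have := fib_integral h
  obtain ⟨τ, rfl⟩ := lf_surj h y
  let : Algebra D k := (τ : D →+* k).toAlgebra
  obtain ⟨t, rfl⟩ := pt_surj u' hG k (by simpa using hl.isUnit.map (algebraMap k D))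
    (Algebra.ofId D k) (fun c hc => (τ.commutes c).trans (by
      rwa [maximalIdeal_eq_bot, Ideal.mem_bot] at hc)) a
  obtain ⟨s, rfl⟩ := (ConcreteCategory.bijective_of_isIso (G.obj.map (fb0 h).op)).2 t
  exact ⟨s, atLift_lf h G τ s⟩

theorem stalk_bij [IsFinite ρ] : Function.Bijective
    fun (s : ((pf ρ).obj G).obj.obj (op (Over.mk x))) (y : Over.mk x ⟶ Over.mk ρ) =>
      atLift ρ G y s := by
  refine ⟨stalk_inj ρ hG hl x, fun a => ?_⟩
  obtain ⟨D, _, _, u', h⟩ := exists_fib ρ x
  have := fib_finite h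
  obtain ⟨S, hS⟩ := Algebra.FiniteType.out (R := k) (A := D)
  have hk : RingHom.ker (algebraMap k k) = maximalIdeal k := ker_eq_max _
  obtain ⟨s, hs⟩ := idem_ind (D := D) (p := fun e => ∃ s, ∀ τ : D →ₐ[k] k, τ e = 1 →
      atLift ρ G (lf h τ) s = a (lf h τ)) ⟨0, fun τ h => by simp at h⟩
    (fun e f he _ ⟨s₁, h₁⟩ ⟨s₂, h₂⟩ => by
      obtain ⟨t, ht⟩ := mix u' (R := D) G he (G.obj.map (fb0 h).op s₁) (G.obj.map (fb0 h).op s₂)
      obtain ⟨s, rfl⟩ := (ConcreteCategory.bijective_of_isIso (G.obj.map (fb0 h).op)).2 t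
      refine ⟨s, fun τ h' => ?_⟩
      let : Algebra D k := (τ : D →+* k).toAlgebra
      rcases IsIdempotentElem.iff_eq_zero_or_one.1 (he.map τ) with h0 | h0
      · rw [← h₂ τ (by simpa [h0] using h'), atLift_lf, atLift_lf]
        exact (ht k _).2 h0
      · rw [← h₁ τ h0, atLift_lf, atLift_lf]
        exact (ht k _).1 h0)
    fun q hq => by
      obtain ⟨τ, rfl⟩ := exists_point (R := k) (M := k) q
        ((liesOver_of_integral (A := k) q).over.symm.trans hk.symm)
      obtain ⟨e, he, h1, h2⟩ := idem hk S τ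
      obtain ⟨s, hs⟩ := atLift_surj ρ hG hl x _ (a (lf h τ))
      refine ⟨e, he, ⟨s, fun τ' h3 => ?_⟩, fun h => one_ne_zero (h1.symm.trans h)⟩
      obtain rfl : τ' = τ := AlgHom.ext_of_adjoin_eq_top hS (h2 τ' (h3.trans_ne one_ne_zero))
      exact hs
  refine ⟨s, funext fun y => ?_⟩
  obtain ⟨τ, rfl⟩ := lf_surj h y
  exact hs τ (map_one τ)

end stalk

theorem finite_lifts [IsFinite ρ] {k : Type} [Field k] (x : Spec (.of k) ⟶ X) :
    Finite (Over.mk x ⟶ Over.mk ρ) := by
  obtain ⟨D, _, _, u', h⟩ := exists_fib ρ x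
  have := fib_finite h
  exact .of_surjective _ (lf_surj h)

/-- Every geometric point has a lift. -/
def GSurj : Prop :=
  ∀ (k : Type) [Field k] [IsAlgClosed k] (x : Spec (.of k) ⟶ X), ∃ y, y ≫ ρ = x

/-- Every geometric point has exactly one lift. -/
def GBij : Prop :=
  ∀ (k : Type) [Field k] [IsAlgClosed k] (x : Spec (.of k) ⟶ X), ∃! y, y ≫ ρ = x

theorem gsurj_of_surjective [IsIntegralHom ρ] [Surjective ρ] : GSurj ρ := fun k _ _ x => by
  obtain ⟨D, _, _, u', h⟩ := exists_fib ρ x
  have := fib_integral h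
  obtain ⟨p, -⟩ := (MorphismProperty.of_isPullback (P := @Surjective) h.flip ‹_›).1 (closedPoint k)
  obtain ⟨q, hq, -⟩ := Ideal.exists_le_maximal _ p.isPrime.ne_top
  obtain ⟨τ, -⟩ := exists_point (R := k) (M := k) q
    ((liesOver_of_integral (A := k) q).over.symm.trans (ker_eq_max _).symm)
  exact ⟨_, Over.w (lf h τ)⟩

lemma unit_app (F : Sh (Scheme.etaleTopology.over X)) (T : Over X) (s : F.obj.obj (op T)) :
    ((pbpf ρ).unit.app F).hom.app (op T) s =
      F.obj.map ((Over.mapPullbackAdj ρ).counit.app T).op s := rfl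

lemma atLift_unit (F : Sh (Scheme.etaleTopology.over X)) {T : Over X} (y : T ⟶ Over.mk ρ) : Function.Bijective
    fun s => atLift ρ ((pb ρ).obj F) y (((pbpf ρ).unit.app F).hom.app (op T) s) := by
  let a := (Over.map ρ).map (toPb ρ (T := T) (T' := Over.mk y.left) (𝟙 _)
    ((Category.id_comp _).trans (Over.w y).symm)) ≫ (Over.mapPullbackAdj ρ).counit.app T
  have : IsIso a := isIso_homMk _ (by
    have : a.left = 𝟙 _ := by simp [a, toPb]
    rw [this]; infer_instance)
  exact (congrArg Function.Bijective (funext fun s => res_res F.obj _ _ s)).mpr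
    (ConcreteCategory.bijective_of_isIso (F.obj.map a.op))

theorem unit_mono {l : ℕ} {F : Sh (Scheme.etaleTopology.over X)} (hF : Cc l F) (hl : Linv l X) (h : GSurj ρ) :
    Mono ((pbpf ρ).unit.app F) :=
  mono_of_pts _ hF hl fun k _ _ x => by
    obtain ⟨y, hy⟩ := h k x
    exact .of_comp (atLift_unit ρ F (Over.homMk y hy : Over.mk x ⟶ Over.mk ρ)).1

/-- UH for sheaves. -/
theorem unit_iso [IsIntegralHom ρ] {l : ℕ} {F : Sh (Scheme.etaleTopology.over X)} (hF : Cc l F) (hl : Linv l X)
    (h : GBij ρ) : IsIso ((pbpf ρ).unit.app F) := by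
  have := unit_mono ρ hF hl fun k _ _ x => (h k x).exists
  have := epi_of_pts ((pbpf ρ).unit.app F) hF (pf_cc ρ (pb_cc ρ hF)) hl fun k _ _ x s => by
    obtain ⟨y, hy, hu⟩ := h k x
    obtain ⟨a, ha⟩ := (atLift_unit ρ F (Over.homMk y hy : Over.mk x ⟶ Over.mk ρ)).2
      (atLift ρ _ _ s)
    refine ⟨a, stalk_inj ρ (pb_cc ρ hF) (hl k x) x (funext fun y' => ?_)⟩
    obtain rfl : y' = Over.homMk y hy := Over.OverMorphism.ext (hu _ (Over.w y'))
    exact ha
  exact isIso_of_mono_of_epi _

theorem intH_slH [IsIntegralHom ρ] (T : Over X) (F : Sh (Scheme.etaleTopology.over X)) (q : ℕ) (x : H T F q) :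
    intH ρ T _ q (slH ρ _ F q (res ((Over.mapPullbackAdj ρ).counit.app T) F q x)) =
      post _ ((pbpf ρ).unit.app F) q x := by
  refine Eq.trans ?_ (ext_unit_nat (pb ρ) (pf ρ) (pbpf ρ).unit.app
    (fun f => ((pbpf ρ).unit.naturality f).symm) q F x)
  have e : frPf ρ T ≫ (pf ρ).map (frPs (Over.map ρ) _ _ _ ≫ (pb ρ).map
      ((fr (Scheme.etaleTopology.over X)).map ((Over.mapPullbackAdj ρ).counit.app T))) =
      (pbpf ρ).unit.app ((fr (Scheme.etaleTopology.over X)).obj T) := by
    refine (frEquiv T _).injective ((frEquiv_frPs _ _ _ _ _).trans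
      ((frEquiv_frPs _ _ _ _ _).trans ?_))
    rw [← Category.comp_id ((fr (Scheme.etaleTopology.over X)).map _), frEquiv_pre,
      ← Category.id_comp ((pbpf ρ).unit.app _), frEquiv_post]
    rfl
  rw [← e]
  refine (congrArg (intH ρ T _ q) (cmp_pre _ _ _ x)).trans ?_
  exact cmp_pre _ _ _ _

theorem res_counit_bij [IsIntegralHom ρ] {l : ℕ} {F : Sh (Scheme.etaleTopology.over X)} (hF : Cc l F) (hl : Linv l X)
    (h : GBij ρ) (T : Over X) (q : ℕ) :
    Function.Bijective (res ((Over.mapPullbackAdj ρ).counit.app T) F q) := by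
  have := unit_iso ρ hF hl h
  rw [← (slH_bij ρ _ F q).of_comp_iff', ← (intH_bij ρ T _ q).of_comp_iff']
  exact (congrArg Function.Bijective (funext (intH_slH ρ T F q))).mpr (post_bij _ _ q)

lemma res_res' {T T' T'' : Over X} (a : T'' ⟶ T') (b : T' ⟶ T) (F : Sh (Scheme.etaleTopology.over X)) (q : ℕ)
    (x : H T F q) : res a F q (res b F q x) = res (a ≫ b) F q x :=
  (pre_pre _ _ x).trans (congrArg (fun a => pre a F q x) (Functor.map_comp _ _ _).symm)

/-- UH for cohomology. -/
theorem uh {T T' : Over X} (g : T' ⟶ T) [IsIntegralHom g.left] (h : GBij g.left) {l : ℕ}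
    {F : Sh (Scheme.etaleTopology.over X)} (hF : Cc l F) (hl : Linv l T.left) (q : ℕ) :
    Function.Bijective (res g F q) := by
  have h1 := (res_map_bij T.hom _ F q).2
    (res_counit_bij g.left (pb_cc T.hom hF) hl h (Over.mk (𝟙 _)) q)
  let a : T' ⟶ (Over.map T.hom).obj ((Over.map g.left).obj
      ((Over.pullback g.left).obj (Over.mk (𝟙 _)))) :=
    Over.homMk (pullback.lift g.left (𝟙 _) (by simp)) (by
      simp only [Over.map_obj_hom, Over.pullback_obj_hom, Category.assoc, Over.w]
      exact (pullback.lift_snd_assoc _ _ _ _).trans (Category.id_comp _))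
  let b : (Over.map T.hom).obj (Over.mk (𝟙 _)) ⟶ T := Over.homMk (𝟙 _)
  have : IsIso a := isIso_homMk _ (by
    have : IsIso (a.left ≫ pullback.snd (𝟙 _) g.left) := by simp [a]; infer_instance
    exact IsIso.of_isIso_comp_right _ (pullback.snd (𝟙 _) g.left))
  have : IsIso b := isIso_homMk _ (inferInstanceAs (IsIso (𝟙 _)))
  have e : g = a ≫ (Over.map T.hom).map ((Over.mapPullbackAdj g.left).counit.app _) ≫ b := by
    ext; simp [a, b]
  have h2 := ((pre_bij ((fr (Scheme.etaleTopology.over X)).map a) F q).comp h1).comp (pre_bij ((fr (Scheme.etaleTopology.over X)).map b) F q)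
  refine (congrArg Function.Bijective (funext fun x => ?_)).mp h2
  refine Eq.trans ?_ (congrArg (fun g => res g F q x) e.symm)
  exact (res_res' _ _ _ _ _).trans ((res_res' _ _ _ _ _).trans (by rw [Category.assoc]))

/-- A copy of `B` for each index. -/
def Cp (B : Type) {ι : Type} (_ : ι) : Type := B

instance (B : Type) [CommRing B] {ι : Type} (i : ι) : CommRing (Cp B i) := ‹_›

instance (A B : Type) [CommRing A] [CommRing B] [Algebra A B] {ι : Type} (i : ι) :
    Algebra A (Cp B i) := ‹_›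

lemma split_etale (C D : Type) [CommRing C] [SHL C] [CommRing D] [Algebra C D] [Module.Finite C D]
    [Algebra.Etale C D] : ∃ (ι : Type) (_ : Finite ι), Nonempty (D ≃ₐ[C] (ι → C)) := by
  obtain ⟨_, e, he, -, h⟩ := SHL.finite_pi C D
  have := SHL.isSepClosed (A := C)
  refine ⟨MaximalSpectrum D, inferInstance, ⟨(AlgEquiv.ofBijective
    (AlgHom.pi fun i => Ideal.Quotient.mkₐ C _) he.bijective_pi).trans
      (AlgEquiv.piCongrRight fun q => ?_)⟩⟩
  have := h q
  have := IsLocalization.Away.quotient_of_isIdempotentElem (he.idem q)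
  have : Algebra.Etale D (D ⧸ Ideal.span {1 - e q}) := .of_isLocalizationAway (e q)
  have : Algebra.Etale C (D ⧸ Ideal.span {1 - e q}) := .comp C D _
  exact (AlgEquiv.ofBijective (Algebra.ofId C _) bijective_of_finite_etale).symm

theorem pf_lis [IsFinite ρ] [Etale ρ] {l : ℕ} {G : Sh (Scheme.etaleTopology.over X')} {T : Over X}
    (h : Lis l G.obj ((Over.pullback ρ).obj T)) : Lis l ((pf ρ).obj G).obj T := by
  rintro C K _ _ _ _ _ _ a _ rfl ⟨v⟩ hC hl
  obtain ⟨D, _, _, u', H⟩ := exists_fib ρ a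
  have := fib_finite H
  have := fib_etale H
  have := hC.shl
  obtain ⟨ι, _, ⟨ε⟩⟩ := split_etale C D
  let σ : ι → D →ₐ[C] C := fun i => (Pi.evalAlgHom C (fun _ => C) i).comp ε
  let : ∀ i : ι, Algebra D (Cp C i) := fun i => (σ i : D →+* C).toAlgebra
  let : ∀ i : ι, Algebra D (Cp K i) := fun i => ((algebraMap C K).comp (σ i : D →+* C)).toAlgebra
  let c : ∀ i : ι, Cp C i →ₐ[D] Cp K i := fun i => ⟨algebraMap C K, fun _ => rfl⟩
  have : IsScalarTower C K (∀ i : ι, Cp K i) := .of_algebraMap_eq fun _ => rfl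
  have : IsScalarTower C D (∀ i : ι, Cp K i) := .of_algebraMap_eq fun r => funext fun i =>
    (congrArg (algebraMap C K) ((σ i).commutes r)).symm
  have : Algebra.IsPushout C K D (∀ i : ι, Cp K i) :=
    ⟨((IsBaseChange.linearMap C K).finitePow ι).comp_equiv ε.toLinearEquiv⟩
  have hc : ∀ i, Function.Bijective (rs u' G.obj (c i)) := fun i =>
    h C K (ob u' (Cp C i)).hom (ob u' (Cp K i)).hom (Over.w (hm u' (c i)))
      ⟨hm u' (Algebra.ofId D (Cp C i)) ≫ fb0 H ≫ (Over.pullback ρ).map v⟩ hC hl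
  let ε' : D ≃ₐ[D] ∀ i : ι, Cp C i := AlgEquiv.ofRingEquiv (f := ε.toRingEquiv) fun _ => rfl
  have h1 := (pi_bij u' G fun i : ι => Cp C i).comp (rs_equiv u' G.obj ε')
  have h2 := pi_bij u' G fun i : ι => Cp K i
  have h3 : Function.Bijective (rs u' G.obj (up D D (∀ i : ι, Cp K i))) := by
    rw [← h2.of_comp_iff']
    refine (congrArg Function.Bijective (funext fun s => funext fun i => ?_)).mp
      ((Function.Bijective.piMap hc).comp h1)
    exact ((congrArg _ (rs_rs u' _ _ _ s)).trans (rs_rs u' _ _ _ s)).trans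
      ((rs_congr u' _ (AlgHom.ext fun _ => rfl) s).trans
        (rs_rs u' _ (up D D (∀ i : ι, Cp K i)) (Pi.evalAlgHom D _ i) s).symm)
  exact (bij_of_sq G.obj (hm u' (up D D (∀ i : ι, Cp K i)))
    ((Over.pullback ρ).map (sph (algebraMap C K) rfl)) (fb H K _) (fb0 H) (toPb_nat ρ _ _ _ _ (by
      rw [hm_left, ← Spec.map_comp]
      exact (congrArg Spec.map (CommRingCat.hom_ext ((IsScalarTower.algebraMap_eq C D _).symm.trans
        (IsScalarTower.algebraMap_eq C K _)))).trans (Spec.map_comp _ _))).symm).1 h3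

end Pool.Agent.MP_855f4c_ag.E4

end
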