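import Pool.Agent.MP_855f4c_ag.EC.Ua
import Pool.Agent.MP_855f4c_ag.EC.Xa
import Pool.Agent.MP_855f4c_ag.EC.E4d

section

set_option autoImplicit false
set_option backward.isDefEq.respectTransparency false

open CategoryTheory Limits Abelian Opposite AlgebraicGeometry Function

namespace Pool.Agent.MP_855f4c_ag.E

open E3 E4

attribute [local irreducible] Ext.comp Ext.mk₀ Ext.mapExactFunctor ShortComplex.ShortExact.extClass

section
variable {X Y : Scheme.{0}} {P : Sh (Scheme.etaleTopology.over X) ⥤ Sh (Scheme.etaleTopology.over Y)} {R : ℕ → Sh (Scheme.etaleTopology.over X) ⥤ Sh (Scheme.etaleTopology.over Y)}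
  (D : NDF P R) {S T : ShortComplex (Sh (Scheme.etaleTopology.over X))} (hS : S.ShortExact)

/-- The connecting map, with the instances of sheaf categories. -/
noncomputable def NDF.δ' (q : ℕ) : (R q).obj S.X₃ ⟶ (R (q + 1)).obj S.X₁ := D.δ hS q

lemma NDF.nat' (hT : T.ShortExact) (φ : S ⟶ T) (q : ℕ) :
    D.δ' hS q ≫ (R (q + 1)).map φ.τ₁ = (R q).map φ.τ₃ ≫ D.δ' hT q := D.nat hS hT φ q
lemma NDF.ex₁' (q : ℕ) : U.Ex (D.δ' hS q) ((R (q + 1)).map S.f) := D.ex₁ hS q
include D hS in
lemma NDF.ex₂' (q : ℕ) : U.Ex ((R q).map S.f) ((R q).map S.g) := D.ex₂ hS q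
lemma NDF.ex₃' (q : ℕ) : U.Ex ((R q).map S.g) (D.δ' hS q) := D.ex₃ hS q
end

variable {X Y : Scheme.{0}} (f : X ⟶ Y)

lemma Rq_eq (q : ℕ) : Rq f q = Rb (Scheme.etaleTopology.over X) (Scheme.etaleTopology.over Y) (Over.pullback f) q := rfl

instance Rq_add (q : ℕ) : (Rq f q).Additive :=
  inferInstanceAs (Rb (Scheme.etaleTopology.over X) (Scheme.etaleTopology.over Y) (Over.pullback f) q).Additive

/-- The natural cohomological functor. -/
noncomputable def rqNDF : NDF (pf (J := Scheme.etaleTopology) f) (Rq f) :=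
  rbNDF (Scheme.etaleTopology.over X) (Scheme.etaleTopology.over Y) (Over.pullback f)

/-- The connecting map. -/
noncomputable def rqd {S : ShortComplex (Sh (Scheme.etaleTopology.over X))} (hS : S.ShortExact) (q : ℕ) :
    (Rq f q).obj S.X₃ ⟶ (Rq f (q + 1)).obj S.X₁ := (rqNDF f).δ' hS q

lemma rqd_eq {S : ShortComplex (Sh (Scheme.etaleTopology.over X))} (hS : S.ShortExact) (q : ℕ) :
    rqd f hS q = Rδ (Scheme.etaleTopology.over Y) (Over.pullback f) hS q := rfl

theorem rqd_nat {S T : ShortComplex (Sh (Scheme.etaleTopology.over X))} (hS : S.ShortExact) (hT : T.ShortExact)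
    (φ : S ⟶ T) (q : ℕ) :
    rqd f hS q ≫ (Rq f (q + 1)).map φ.τ₁ = (Rq f q).map φ.τ₃ ≫ rqd f hT q :=
  (rqNDF f).nat' hS hT φ q

section
variable {S : ShortComplex (Sh (Scheme.etaleTopology.over X))} (hS : S.ShortExact) (q : ℕ)
include hS

theorem rq_ex₁ : U.Ex (rqd f hS q) ((Rq f (q + 1)).map S.f) := (rqNDF f).ex₁' hS q
theorem rq_ex₂ : U.Ex ((Rq f q).map S.f) ((Rq f q).map S.g) := (rqNDF f).ex₂' hS q
theorem rq_ex₃ : U.Ex ((Rq f q).map S.g) (rqd f hS q) := (rqNDF f).ex₃' hS q
end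

theorem rq_isZero {F : Sh (Scheme.etaleTopology.over X)} {q : ℕ}
    (h : ∀ (T : Over Y) (x : H ((Over.pullback f).obj T) F q), x = 0) :
    IsZero ((Rq f q).obj F) := Rb_isZero (Scheme.etaleTopology.over Y) (Over.pullback f) h

theorem rq_inj (I : Sh (Scheme.etaleTopology.over X)) [Injective I] (q : ℕ) : IsZero ((Rq f (q + 1)).obj I) :=
  rq_isZero f fun _ x => Ext.eq_zero_of_injective x

theorem rq_df : U.DF (Rq f) := (rqNDF f).df

/-- `f_* ≅ R^0 f_*`. -/
noncomputable def rq0 : pf (J := Scheme.etaleTopology) f ≅ Rq f 0 :=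
  (R0 (Scheme.etaleTopology.over X) (Scheme.etaleTopology.over Y) (Over.pullback f)).symm

/-- `H^q(X_T, F) → (R^q f_* F)(T)`. -/
noncomputable def toRq (F : Sh (Scheme.etaleTopology.over X)) (q : ℕ) (T : Over Y) :
    H ((Over.pullback f).obj T) F q →+ sec ((Rq f q).obj F) T :=
  toRb (Scheme.etaleTopology.over Y) (Over.pullback f) F q T

lemma toRq_eq (F : Sh (Scheme.etaleTopology.over X)) (q : ℕ) (T : Over Y) : toRq f F q T =
    ((toSheafify (Scheme.etaleTopology.over Y) ((Over.pullback f).op ⋙ (HPF q).obj F)).app (op T)).hom := rfl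

theorem toRq_res {F : Sh (Scheme.etaleTopology.over X)} {q : ℕ} {T' T : Over Y} (g : T' ⟶ T)
    (x : H ((Over.pullback f).obj T) F q) :
    toRq f F q T' (res ((Over.pullback f).map g) F q x) = rsec g _ (toRq f F q T x) :=
  toRb_res (Scheme.etaleTopology.over Y) (Over.pullback f) g x

theorem toRq_map {F G : Sh (Scheme.etaleTopology.over X)} (u : F ⟶ G) {q : ℕ} {T : Over Y}
    (x : H ((Over.pullback f).obj T) F q) :
    toRq f G q T (Hmap u _ q x) = ((Rq f q).map u).hom.app (op T) (toRq f F q T x) :=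
  toRb_post (Scheme.etaleTopology.over Y) (Over.pullback f) u x

theorem toRq_d {S : ShortComplex (Sh (Scheme.etaleTopology.over X))} (hS : S.ShortExact) {q : ℕ} {T : Over Y}
    (x : H ((Over.pullback f).obj T) S.X₃ q) :
    toRq f S.X₁ (q + 1) T (dl _ hS q x) = (rqd f hS q).hom.app (op T) (toRq f S.X₃ q T x) :=
  toRb_dl (Scheme.etaleTopology.over Y) (Over.pullback f) hS x

theorem rq0_toRq {F : Sh (Scheme.etaleTopology.over X)} {T : Over Y} (s : sec F ((Over.pullback f).obj T)) :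
    ((rq0 f).inv.app F).hom.app (op T) (toRq f F 0 T (h0 _ F s)) = s :=
  R0_toRb (Scheme.etaleTopology.over Y) (Over.pullback f) s

lemma shl_top {A : Type} [CommRing A] [SHL A] (a : Spec (.of A) ⟶ Y) (S : Sieve (Over.mk a))
    (hS : S ∈ Scheme.etaleTopology.over Y _) : S (𝟙 _) := by
  let e : ob a A ≅ Over.mk a := Over.isoMk (Iso.refl _) (by simp)
  obtain ⟨E, hE, h⟩ := of_mem_cov a ((Scheme.etaleTopology.over Y).pullback_stable e.hom hS) (IsLocalRing.maximalIdeal A)
  obtain ⟨σ, hσ⟩ := E.sec hE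
  have := S.downward_closed h (e.inv ≫ hm a σ)
  rwa [Category.assoc, ← Category.assoc (hm a σ), ← hm_comp, hσ, hm_id, Category.id_comp,
    e.inv_hom_id] at this

theorem toRq_bij (F : Sh (Scheme.etaleTopology.over X)) (q : ℕ) {A : Type} [CommRing A] [SHL A] (a : Spec (.of A) ⟶ Y) :
    Bijective (toRq f F q (Over.mk a)) := toSheafify_bij _ _ (shl_top a)

/-! ### The Leray filtration -/

/-- `ℤ[X_T] ⟶ f^* ℤ[T]`. -/
noncomputable abbrev fpb (T : Over Y) : (fr (Scheme.etaleTopology.over X)).obj ((Over.pullback f).obj T) ⟶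
    (pb (J := Scheme.etaleTopology) f).obj ((fr (Scheme.etaleTopology.over Y)).obj T) :=
  frPb (Scheme.etaleTopology.over X) (Scheme.etaleTopology.over Y) (Over.mapPullbackAdj f) T

/-- The edge map `H^q(T, f_* F) → H^q(X_T, F)`. -/
noncomputable def ledge (T : Over Y) (F : Sh (Scheme.etaleTopology.over X)) (q : ℕ) :
    H (J := Scheme.etaleTopology.over Y) T ((pf f).obj F) q →+ H ((Over.pullback f).obj T) F q :=
  edgeH (Scheme.etaleTopology.over Y) (Over.mapPullbackAdj f) T F q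

lemma ledge_apply {T : Over Y} {F : Sh (Scheme.etaleTopology.over X)} {q : ℕ} (y : H (J := Scheme.etaleTopology.over Y) T ((pf f).obj F) q) :
    ledge f T F q y = pre (fpb f T) F q ((y.mapExactFunctor (pb f)).comp
      (Ext.mk₀ ((pbpf f).counit.app F)) (add_zero q)) := rfl

lemma ledge_res {T' T : Over Y} (g : T' ⟶ T) {F : Sh (Scheme.etaleTopology.over X)} {q : ℕ} (y : H (J := Scheme.etaleTopology.over Y) T ((pf f).obj F) q) :
    ledge f T' F q (res (J := Scheme.etaleTopology.over Y) g _ q y) = res ((Over.pullback f).map g) F q (ledge f T F q y) :=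
  edgeH_res (Scheme.etaleTopology.over Y) (Over.mapPullbackAdj f) g y

lemma ledge_map {T : Over Y} {F G : Sh (Scheme.etaleTopology.over X)} (u : F ⟶ G) {q : ℕ} (y : H (J := Scheme.etaleTopology.over Y) T ((pf f).obj F) q) :
    ledge f T G q (Hmap ((pf f).map u) T q y) = Hmap u _ q (ledge f T F q y) :=
  edgeH_post (Scheme.etaleTopology.over Y) (Over.mapPullbackAdj f) u y

theorem ledge_inj (T : Over Y) (F : Sh (Scheme.etaleTopology.over X)) (n : ℕ)
    (h : ∀ a b, a + (b + 1) + 1 = n → ∀ y : H T ((Rq f (b + 1)).obj F) a, y = 0) :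
    Injective (ledge f T F n) := edgeH_inj (Scheme.etaleTopology.over Y) (Over.mapPullbackAdj f) T F n h

theorem ledge_surj (T : Over Y) (F : Sh (Scheme.etaleTopology.over X)) (n : ℕ)
    (h : ∀ a b, a + (b + 1) = n → ∀ y : H T ((Rq f (b + 1)).obj F) a, y = 0) :
    Surjective (ledge f T F n) := edgeH_surj (Scheme.etaleTopology.over Y) (Over.mapPullbackAdj f) T F n h

/-- **LER0**. -/
theorem ledge_bij (T : Over Y) (F : Sh (Scheme.etaleTopology.over X))
    (h : ∀ a b (y : H T ((Rq f (b + 1)).obj F) a), y = 0) (n : ℕ) : Bijective (ledge f T F n) :=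
  ⟨ledge_inj f T F n fun a b _ => h a b, ledge_surj f T F n fun a b _ => h a b⟩

/-- The Leray filtration on `H^n(X_T, F)`. -/
noncomputable def Fil (T : Over Y) (F : Sh (Scheme.etaleTopology.over X)) (n b : ℕ) :
    AddSubgroup (H ((Over.pullback f).obj T) F n) := filH (Scheme.etaleTopology.over Y) (Over.mapPullbackAdj f) T F n b

theorem Fil_zero (T : Over Y) (F : Sh (Scheme.etaleTopology.over X)) (n : ℕ) : Fil f T F n 0 = ⊥ :=
  filH_zero (Scheme.etaleTopology.over Y) (Over.mapPullbackAdj f) T F n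

theorem Fil_one (T : Over Y) (F : Sh (Scheme.etaleTopology.over X)) (n : ℕ) : Fil f T F n 1 = (ledge f T F n).range :=
  filH_one (Scheme.etaleTopology.over Y) (Over.mapPullbackAdj f) T F n

theorem Fil_top (T : Over Y) (F : Sh (Scheme.etaleTopology.over X)) {n b : ℕ} (h : n < b) : Fil f T F n b = ⊤ :=
  filH_top (Scheme.etaleTopology.over Y) (Over.mapPullbackAdj f) T F h

theorem Fil_mono (T : Over Y) (F : Sh (Scheme.etaleTopology.over X)) (n b : ℕ) : Fil f T F n b ≤ Fil f T F n (b + 1) :=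
  filH_mono (Scheme.etaleTopology.over Y) (Over.mapPullbackAdj f) T F n b

theorem Fil_map {T : Over Y} {F G : Sh (Scheme.etaleTopology.over X)} (u : F ⟶ G) {n b : ℕ}
    {x : H ((Over.pullback f).obj T) F n} (hx : x ∈ Fil f T F n b) :
    Hmap u _ n x ∈ Fil f T G n b := filH_post (Scheme.etaleTopology.over Y) (Over.mapPullbackAdj f) u hx

theorem Fil_res {T' T : Over Y} (g : T' ⟶ T) {F : Sh (Scheme.etaleTopology.over X)} {n b : ℕ}
    {x : H ((Over.pullback f).obj T) F n} (hx : x ∈ Fil f T F n b) :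
    res ((Over.pullback f).map g) F n x ∈ Fil f T' F n b :=
  filH_res (Scheme.etaleTopology.over Y) (Over.mapPullbackAdj f) g hx

/-- Both variables at once. -/
theorem Fil_step {T' T : Over Y} (g : T' ⟶ T) {F G : Sh (Scheme.etaleTopology.over X)} (u : F ⟶ G) {a b n : ℕ}
    (hn : a + b = n)
    (h : ∀ y : H T ((Rq f b).obj F) a, res g _ a (Hmap ((Rq f b).map u) T a y) = 0)
    {x : H ((Over.pullback f).obj T) F n} (hx : x ∈ Fil f T F n (b + 1)) :
    res ((Over.pullback f).map g) G n (Hmap u _ n x) ∈ Fil f T' G n b :=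
  filH_step (Scheme.etaleTopology.over Y) (Over.mapPullbackAdj f) g u hn h hx

theorem Fil_gF {T : Over Y} {F G : Sh (Scheme.etaleTopology.over X)} (u : F ⟶ G) {a b n : ℕ} (hn : a + b = n)
    (h : ∀ y : H T ((Rq f b).obj F) a, Hmap ((Rq f b).map u) T a y = 0)
    {x : H ((Over.pullback f).obj T) F n} (hx : x ∈ Fil f T F n (b + 1)) :
    Hmap u _ n x ∈ Fil f T G n b := filH_gF (Scheme.etaleTopology.over Y) (Over.mapPullbackAdj f) u hn h hx

theorem Fil_gT {T : Over Y} (g : T ⟶ T) (c : ℤ) {F : Sh (Scheme.etaleTopology.over X)} {a b n : ℕ} (hn : a + b = n)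
    (h : ∀ y : H T ((Rq f b).obj F) a, res g _ a y = c • y)
    {x : H ((Over.pullback f).obj T) F n} (hx : x ∈ Fil f T F n (b + 1)) :
    res ((Over.pullback f).map g) F n x - c • x ∈ Fil f T F n b :=
  filH_gT (Scheme.etaleTopology.over Y) (Over.mapPullbackAdj f) g c hn (Rq_eq f b ▸ h :) hx

/-- **EDGE**. -/
theorem leray_one (T : Over Y) (F : Sh (Scheme.etaleTopology.over X)) {a b₀ n : ℕ} (hn : a + b₀ = n)
    (h₁ : ∀ b a', b < b₀ → (a' + b = n ∨ a' + b = n + 1) → ∀ y : H T ((Rq f b).obj F) a', y = 0)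
    (h₂ : ∀ b a', b₀ < b → (a' + b = n ∨ a' + b + 1 = n) → ∀ y : H T ((Rq f b).obj F) a', y = 0) :
    Nonempty (H ((Over.pullback f).obj T) F n ≃+ H T ((Rq f b₀).obj F) a) :=
  leray_oneH (Scheme.etaleTopology.over Y) (Over.mapPullbackAdj f) T F hn h₁ h₂

/-! ### Base change -/

lemma univ_bij' {X' : Scheme.{0}} (a' : X' ⟶ X) (J : GrothendieckTopology (Over X))
    (K : GrothendieckTopology (Over X')) (hJ : J = Scheme.etaleTopology.over X)
    (hK : K = Scheme.etaleTopology.over X') [(Over.map a').IsContinuous K J]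
    [PreservesFiniteColimits (push J K (Over.map a'))] (T : Over X') (F : Sh J) (q : ℕ) :
    Bijective (univ K (Over.map a') T F q) := by
  subst hJ hK
  exact slH_bij a' T F q

lemma univ_bijJ {X' : Scheme.{0}} (a' : X' ⟶ X) (T : Over X') (F : Sh (Scheme.etaleTopology.over X)) (q : ℕ) :
    Bijective (univ (Scheme.etaleTopology.over X') (Over.map a') T F q) := univ_bij' a' (Scheme.etaleTopology.over X) (Scheme.etaleTopology.over X') rfl rfl T F q

section BC
variable {X' Y' : Scheme.{0}} {a' : X' ⟶ X} {f' : X' ⟶ Y'} {f} {a : Y' ⟶ Y}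
  (h : IsPullback a' f' f a)

/-- The two descriptions of the fibre product. -/
noncomputable def bcm (T : Over Y') :
    (Over.map a').obj ((Over.pullback f').obj T) ⟶ (Over.pullback f).obj ((Over.map a).obj T) :=
  Over.homMk (pullback.lift (pullback.fst T.hom f') (pullback.snd T.hom f' ≫ a') (by
    change _ ≫ T.hom ≫ a = _
    rw [pullback.condition_assoc, Category.assoc, h.w])) (pullback.lift_snd _ _ _)

instance (T : Over Y') : IsIso (bcm h T) := by
  have h1 : IsPullback (pullback.fst T.hom f') (pullback.snd T.hom f' ≫ a') (T.hom ≫ a) f :=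
    (IsPullback.of_hasPullback T.hom f').paste_vert h.flip
  have h2 : (bcm h T).left = h1.isoPullback.hom :=
    pullback.hom_ext ((pullback.lift_fst _ _ _).trans h1.isoPullback_hom_fst.symm)
      ((pullback.lift_snd _ _ _).trans h1.isoPullback_hom_snd.symm)
  have : IsIso ((Over.forget X).map (bcm h T)) := (h2 ▸ inferInstance : IsIso (bcm h T).left)
  exact isIso_of_reflects_iso _ (Over.forget X)

/-- The same as a natural isomorphism. -/
noncomputable def bcI : Over.pullback f' ⋙ Over.map a' ≅ Over.map a ⋙ Over.pullback f :=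
  NatIso.ofComponents (fun T => asIso (bcm h T)) fun g => by
    ext
    apply pullback.hom_ext <;> simp [bcm]

/-- `H^q(X_T, F) → H^q(X'_T, a'^* F)`. -/
noncomputable def bcH (T : Over Y') (F : Sh (Scheme.etaleTopology.over X)) (q : ℕ) :
    H ((Over.pullback f).obj ((Over.map a).obj T)) F q →+
      H (J := Scheme.etaleTopology.over X') ((Over.pullback f').obj T) ((pb a').obj F) q := bcU (Scheme.etaleTopology.over X') (bcI h) T F q

lemma bcH_apply (T : Over Y') {F : Sh (Scheme.etaleTopology.over X)} {q : ℕ}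
    (x : H ((Over.pullback f).obj ((Over.map a).obj T)) F q) :
    bcH h T F q x = slH a' _ F q (res (bcm h T) F q x) := rfl

theorem bcH_bij (T : Over Y') (F : Sh (Scheme.etaleTopology.over X)) (q : ℕ) : Bijective (bcH h T F q) :=
  bcU_bij (Scheme.etaleTopology.over X') (bcI h) (univ_bijJ a') T F q

theorem bcH_res {T' T : Over Y'} (g : T' ⟶ T) {F : Sh (Scheme.etaleTopology.over X)} {q : ℕ}
    (x : H ((Over.pullback f).obj ((Over.map a).obj T)) F q) :
    bcH h T' F q (res ((Over.pullback f).map ((Over.map a).map g)) F q x) =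
      res (J := Scheme.etaleTopology.over X') ((Over.pullback f').map g) _ q (bcH h T F q x) := bcU_res (Scheme.etaleTopology.over X') (bcI h) g x

theorem bcH_map (T : Over Y') {F G : Sh (Scheme.etaleTopology.over X)} (u : F ⟶ G) {q : ℕ}
    (x : H ((Over.pullback f).obj ((Over.map a).obj T)) F q) :
    bcH h T G q (Hmap u _ q x) = Hmap ((pb a').map u) _ q (bcH h T F q x) :=
  bcU_post (Scheme.etaleTopology.over X') (bcI h) u x

/-- **BC**. -/
noncomputable def rqBC (q : ℕ) : Rq f q ⋙ pb a ≅ pb (J := Scheme.etaleTopology) a' ⋙ Rq f' q :=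
  rbBC (Scheme.etaleTopology.over Y) (Scheme.etaleTopology.over X') (Scheme.etaleTopology.over Y') (bcI h) (univ_bijJ a') q

theorem rqBC_toRq {F : Sh (Scheme.etaleTopology.over X)} {q : ℕ} (T : Over Y')
    (x : H ((Over.pullback f).obj ((Over.map a).obj T)) F q) :
    ((rqBC h q).hom.app F).hom.app (op T) (toRq f F q _ x) = toRq f' _ q T (bcH h T F q x) :=
  rbBC_toRb (Scheme.etaleTopology.over Y) (Scheme.etaleTopology.over X') (Scheme.etaleTopology.over Y') (bcI h) (univ_bijJ a') T x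

end BC

end Pool.Agent.MP_855f4c_ag.E

end

section

set_option autoImplicit false
set_option backward.isDefEq.respectTransparency false

open CategoryTheory Limits Abelian Opposite AlgebraicGeometry Function

namespace Pool.Agent.MP_855f4c_ag.E

attribute [local irreducible] Fil Rq

variable {X Y : Scheme.{0}} (f : X ⟶ Y) {T : Over Y} {n : ℕ}

lemma Hmap_Hmap {V : Over X} {F G K : Sh (Scheme.etaleTopology.over X)} (u : F ⟶ G) (v : G ⟶ K) (x : H V F n) :
    Hmap v V n (Hmap u V n x) = Hmap (u ≫ v) V n x := post_post u v x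

lemma Hmap_one {V : Over X} {F : Sh (Scheme.etaleTopology.over X)} (x : H V F n) : Hmap (𝟙 F) V n x = x := post_id x

theorem Fil_down {F G : Sh (Scheme.etaleTopology.over X)} (u : F ⟶ G) {b : ℕ}
    (h : ∀ a, a + b = n → ∀ y : H T ((Rq f b).obj F) a, Hmap ((Rq f b).map u) T a y = 0)
    {x : H ((Over.pullback f).obj T) F n} (hx : x ∈ Fil f T F n (b + 1)) :
    Hmap u _ n x ∈ Fil f T G n b := by
  by_cases hb : n < b
  · rw [Fil_top f T G hb]; trivial
  · exact Fil_gF f u (a := n - b) (by omega) (h _ (by omega)) hx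

theorem Fil_succ_eq (F : Sh (Scheme.etaleTopology.over X)) {b : ℕ}
    (h : ∀ a, a + b = n → ∀ y : H T ((Rq f b).obj F) a, y = 0) :
    Fil f T F n (b + 1) = Fil f T F n b :=
  le_antisymm (fun x hx => Hmap_one x ▸ Fil_down f (𝟙 F)
    (fun a ha y => by rw [h a ha y, map_zero]) hx) (Fil_mono f T F n b)

theorem Fil_cd (F : Sh (Scheme.etaleTopology.over X)) (m : ℕ)
    (h : ∀ a b, m ≤ b → a + b = n → ∀ y : H T ((Rq f b).obj F) a, y = 0) :
    Fil f T F n m = ⊤ := by
  have key : ∀ k, Fil f T F n (m + k) = Fil f T F n m := fun k => by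
    induction k with
    | zero => rfl
    | succ k ih => exact (Fil_succ_eq f F (b := m + k) fun a => h a _ (by omega)).trans ih
  rw [← key (n + 1), Fil_top f T F (by omega)]

/-- If all `E₂` terms of total degree `n` vanish, the abutment vanishes. -/
theorem leray_zero (F : Sh (Scheme.etaleTopology.over X))
    (h : ∀ a b, a + b = n → ∀ y : H T ((Rq f b).obj F) a, y = 0)
    (x : H ((Over.pullback f).obj T) F n) : x = 0 := by
  have : x ∈ Fil f T F n 0 := by rw [Fil_cd f F 0 fun a b _ => h a b]; trivial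
  rwa [Fil_zero, AddSubgroup.mem_bot] at this

/-- **FIL3**. -/
theorem fil3 {F₃ F₂ F₁ F₀ : Sh (Scheme.etaleTopology.over X)} (u₂ : F₃ ⟶ F₂) (u₁ : F₂ ⟶ F₁) (u₀ : F₁ ⟶ F₀)
    (h₃ : ∀ a b, 3 ≤ b → a + b = n → ∀ y : H T ((Rq f b).obj F₃) a, y = 0)
    (h₂ : ∀ a, a + 2 = n → ∀ y : H T ((Rq f 2).obj F₃) a, Hmap ((Rq f 2).map u₂) T a y = 0)
    (h₁ : ∀ a, a + 1 = n → ∀ y : H T ((Rq f 1).obj F₂) a, Hmap ((Rq f 1).map u₁) T a y = 0)
    (h₀ : ∀ y : H T ((Rq f 0).obj F₁) n, Hmap ((Rq f 0).map u₀) T n y = 0)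
    (x : H ((Over.pullback f).obj T) F₃ n) : Hmap (u₂ ≫ u₁ ≫ u₀) _ n x = 0 := by
  have k₃ : x ∈ Fil f T F₃ n 3 := by rw [Fil_cd f F₃ 3 h₃]; trivial
  have k₀ := Fil_gF f u₀ (Nat.add_zero n) h₀ (Fil_down f u₁ h₁ (Fil_down f u₂ h₂ k₃))
  rwa [Fil_zero, AddSubgroup.mem_bot, Hmap_Hmap, Hmap_Hmap] at k₀

/-- The scalar form: one `E₂` term on which `g` acts as `c`. -/
theorem leray_scalar (F : Sh (Scheme.etaleTopology.over X)) (g : T ⟶ T) (c : ℤ) {a₀ b₀ : ℕ} (hn : a₀ + b₀ = n)
    (h : ∀ a b, b ≠ b₀ → a + b = n → ∀ y : H T ((Rq f b).obj F) a, y = 0)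
    (hg : ∀ y : H T ((Rq f b₀).obj F) a₀, res g _ a₀ y = c • y)
    (x : H ((Over.pullback f).obj T) F n) : res ((Over.pullback f).map g) F n x = c • x := by
  have k₁ : x ∈ Fil f T F n (b₀ + 1) := by
    rw [Fil_cd f F _ fun a b hb => h a b (by omega)]; trivial
  have key : ∀ k, k ≤ b₀ → Fil f T F n k = ⊥ := fun k hk => by
    induction k with
    | zero => exact Fil_zero f T F n
    | succ k ih => exact (Fil_succ_eq f F fun a => h a _ (by omega)).trans (ih (by omega))
  have := Fil_gT f g c hn hg k₁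
  rwa [key _ le_rfl, AddSubgroup.mem_bot, sub_eq_zero] at this

end Pool.Agent.MP_855f4c_ag.E

end
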