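import Pool.Agent.MP_855f4c_ag.EC.Sa

section

set_option autoImplicit false

namespace Pool.Agent.MP_855f4c_ag.E65

open Polynomial Pointwise

/-- One element separates an injective point from finitely many other points. -/
theorem sep_inj {R κ ι : Type} [CommRing R] [IsDomain R] [Field κ] (b : R →+* κ)
    (hb : Function.Injective b) (s : Finset ι) (β : ι → R →+* κ) (h : ∀ i ∈ s, β i ≠ b) :
    ∃ c, b c ≠ 0 ∧ ∀ i ∈ s, β i c ≠ b c := by
  classical
  cases finite_or_infinite R with
  | inl hf =>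
    obtain ⟨θ, hθ⟩ := IsCyclic.exists_monoid_generator (α := Rˣ)
    refine ⟨θ, (θ.isUnit.map b).ne_zero, fun i hi e => h i hi (RingHom.ext fun r => ?_)⟩
    by_cases hr : r = 0
    · simp [hr]
    · obtain ⟨u, rfl⟩ : IsUnit r := (Finite.isField_of_domain R).mul_inv_cancel hr |>.elim
        fun t ht => IsUnit.of_mul_eq_one t ht
      obtain ⟨n, rfl⟩ := hθ u
      simp [e]
  | inr hf =>
    by_contra hc
    push Not at hc
    let E : Option ι → AddSubgroup R := fun o =>
      o.elim ⊥ fun i => ((β i).eqLocus b).toAddSubgroup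
    have hcov : ⋃ o ∈ Finset.insertNone s, (0 : R) +ᵥ (E o : Set R) = Set.univ := by
      refine Set.eq_univ_of_forall fun c => ?_
      simp only [zero_vadd, Set.mem_iUnion]
      by_cases h0 : b c = 0
      · exact ⟨none, by simp, (injective_iff_map_eq_zero b).1 hb c h0⟩
      · obtain ⟨i, hi, e⟩ := hc c h0
        exact ⟨some i, by simpa using hi, e⟩
    obtain ⟨o, ho, hfin⟩ := AddSubgroup.exists_finiteIndex_of_leftCoset_cover hcov
    have hE : Finite (E o) := by
      cases o with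
      | none => exact inferInstanceAs (Finite (⊥ : AddSubgroup R))
      | some i =>
        obtain ⟨r, hr⟩ : ∃ r, β i r ≠ b r := by
          by_contra h'
          push Not at h'
          exact h i (by simpa using ho) (RingHom.ext h')
        refine Finite.of_injective
          (fun x : E (some i) => (QuotientAddGroup.mk (x.1 * r) : R ⧸ E (some i))) ?_
        intro x y e
        have h1 : β i (-(x.1 * r) + y.1 * r) = b (-(x.1 * r) + y.1 * r) := QuotientAddGroup.eq.1 e
        have hx : β i x.1 = b x.1 := x.2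
        have hy : β i y.1 = b y.1 := y.2
        simp only [map_add, map_neg, map_mul, hx, hy] at h1
        have h2 : (b y.1 - b x.1) * (β i r - b r) = 0 := by linear_combination h1
        exact Subtype.ext (hb (sub_eq_zero.1
          ((mul_eq_zero.1 h2).resolve_right (sub_ne_zero.2 hr)))).symm
    have : Finite R := (AddSubgroup.finite_iff_finite_and_finiteIndex _).2 ⟨hE, hfin⟩
    exact not_finite R

theorem sep {C κ ι : Type} [CommRing C] [Field κ] (b : C →+* κ) (s : Finset ι)
    (β : ι → C →+* κ) (h : ∀ i ∈ s, β i ≠ b) (hk : ∀ i ∈ s, ∀ c, b c = 0 → β i c = 0) :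
    ∃ c, b c ≠ 0 ∧ ∀ i ∈ s, β i c ≠ b c := by
  have : (RingHom.ker b).IsPrime := RingHom.ker_isPrime b
  obtain ⟨c, h0, hc⟩ := sep_inj (RingHom.kerLift b) (RingHom.kerLift_injective b) s.attach
    (fun i => Ideal.Quotient.lift _ (β i.1) (hk i.1 i.2)) fun i _ e =>
      h i.1 i.2 (RingHom.ext fun c => congrArg (fun f => f (Ideal.Quotient.mk _ c)) e)
  obtain ⟨c, rfl⟩ := Ideal.Quotient.mk_surjective c
  exact ⟨c, h0, fun i hi => hc ⟨i, hi⟩ (Finset.mem_attach _ _)⟩

theorem coeff_pow_char {κ : Type} [Field κ] (p k m : ℕ) [ExpChar κ p] (hm : m ≠ 0) (a : κ) :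
    ((X - C a) ^ (p ^ k * m)).coeff (p ^ k * (m - 1)) = -a ^ p ^ k * m := by
  have e : (X - C a : κ[X]) ^ (p ^ k * m) = expand κ (p ^ k) ((X + C (-a ^ p ^ k)) ^ m) := by
    rw [pow_mul, sub_pow_expChar_pow]
    simp [sub_eq_add_neg]
  rw [e, coeff_expand_mul' (expChar_pow_pos κ p k), coeff_X_add_C_pow]
  obtain ⟨n, rfl⟩ := Nat.exists_eq_succ_of_ne_zero hm
  simp

/-- For a finite group, an invariant of the inertia group separates the point from its other
conjugates. -/
theorem ram_fin {Γ C κ : Type} [Group Γ] [Finite Γ] [CommRing C] [MulSemiringAction Γ C]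
    [Field κ] (b : C →+* κ) :
    ∃ z : C, ∀ σ : Γ, ((∀ x, b (σ • x) = b x) → σ • z = z) ∧
      (b (σ • z) = b z → ∀ x, b (σ • x) = b x) := by
  classical
  have := Fintype.ofFinite Γ
  let D : Subgroup Γ :=
    { carrier := {σ | ∀ x, b (σ • x) = 0 ↔ b x = 0}
      one_mem' := fun x => by rw [one_smul]
      mul_mem' := fun {σ τ} hσ hτ x => by rw [mul_smul, hσ, hτ]
      inv_mem' := fun {σ} hσ x => by rw [← hσ, smul_inv_smul] }
  let I : Subgroup Γ :=
    { carrier := {σ | ∀ x, b (σ • x) = b x}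
      one_mem' := fun x => by rw [one_smul]
      mul_mem' := fun {σ τ} hσ hτ x => by rw [mul_smul, hσ, hτ]
      inv_mem' := fun {σ} hσ x => by rw [← hσ, smul_inv_smul] }
  have hID : I ≤ D := fun σ hσ x => by rw [hσ]
  have hu : ∀ σ : Γ, σ ∉ D → ∃ u, b (σ • u) = 0 ∧ b u ≠ 0 := by
    intro σ hσ
    by_contra hc
    push Not at hc
    refine hσ fun x => ⟨hc x, fun hx => ?_⟩
    have key : ∀ n : ℕ, b (σ ^ n • σ • x) = 0 → b (σ • x) = 0 := by
      intro n
      induction n with
      | zero => simp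
      | succ n ih => intro h; rw [pow_succ', mul_smul] at h; exact ih (hc _ h)
    refine key (orderOf σ - 1) ?_
    rwa [← mul_smul, ← pow_succ, Nat.sub_add_cancel (orderOf_pos σ), pow_orderOf_eq_one, one_smul]
  choose! u hu0 hu1 using hu
  let u₁ := ∏ σ ∈ Finset.univ.filter (· ∉ D), u σ
  have h1 : b u₁ ≠ 0 := by
    rw [map_prod]
    exact Finset.prod_ne_zero_iff.2 fun σ hσ => hu1 σ (by simpa using hσ)
  have h2 : ∀ σ, σ ∉ D → b (σ • u₁) = 0 := fun σ hσ => by
    rw [Finset.smul_prod', map_prod]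
    exact Finset.prod_eq_zero (i := σ) (by simpa using hσ) (hu0 σ hσ)
  let u₂ := ∏ δ : D, (δ : Γ) • u₁
  have h3 : b u₂ ≠ 0 := by
    rw [map_prod]
    exact Finset.prod_ne_zero_iff.2 fun δ _ h => h1 ((δ.2 _).1 h)
  have h4 : ∀ σ, σ ∉ D → b (σ • u₂) = 0 := fun σ hσ => by
    rw [Finset.smul_prod', map_prod]
    exact Finset.prod_eq_zero (Finset.mem_univ 1) (by simpa using h2 σ hσ)
  have h5 : ∀ σ ∈ D, σ • u₂ = u₂ := fun σ hσ => by
    rw [Finset.smul_prod']
    exact Fintype.prod_equiv (Equiv.mulLeft ⟨σ, hσ⟩) _ _ fun δ => by simp [mul_smul]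
  obtain ⟨c₁, hc0, hc1⟩ := sep b (Finset.univ.filter fun σ : Γ => σ ∈ D ∧ σ ∉ I)
    (fun σ => b.comp (MulSemiringAction.toRingHom Γ C σ))
    (fun σ hσ e => (Finset.mem_filter.1 hσ).2.2 fun x => congrArg (fun f => f x) e)
    (fun σ hσ x hx => ((Finset.mem_filter.1 hσ).2.1 x).2 hx)
  let c := c₁ * u₂
  have h6 : ∀ σ, σ ∉ I → b (σ • c) ≠ b c := fun σ hσ => by
    rw [smul_mul', map_mul, map_mul]
    by_cases hD : σ ∈ D
    · rw [h5 σ hD]
      exact fun e => hc1 σ (by simp [hD, hσ]) (mul_right_cancel₀ h3 e)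
    · rw [h4 σ hD, mul_zero]
      exact (mul_ne_zero hc0 h3).symm
  have h7 : ∀ (σ : Γ) (τ : I), b (σ • (τ : Γ) • c) = b (σ • c) := fun σ τ => by
    by_cases hD : σ ∈ D
    · rw [← sub_eq_zero, ← map_sub, ← smul_sub, hD, map_sub, τ.2, sub_self]
    · have hD' : σ * τ ∉ D := fun h => hD (by simpa using D.mul_mem h (D.inv_mem (hID τ.2)))
      rw [← mul_smul, smul_mul', smul_mul', map_mul, map_mul, h4 _ hD, h4 _ hD', mul_zero,
        mul_zero]
  obtain ⟨p, hp⟩ := ExpChar.exists κ
  obtain ⟨k, m, hm, he⟩ : ∃ k m : ℕ, (m : κ) ≠ 0 ∧ Fintype.card I = p ^ k * m := by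
    cases hp with
    | zero => exact ⟨0, Fintype.card I, Nat.cast_ne_zero.2 Fintype.card_ne_zero, by simp⟩
    | prime hpp =>
      obtain ⟨k, m, h, e⟩ := Nat.exists_eq_pow_mul_and_not_dvd
        (Fintype.card_ne_zero (α := I)) p hpp.ne_one
      exact ⟨k, m, fun h0 => h ((CharP.cast_eq_zero_iff κ p m).1 h0), e⟩
  let F : C[X] := ∏ τ : I, (X - Polynomial.C ((τ : Γ) • c))
  have hF : ∀ σ : Γ, F.map (MulSemiringAction.toRingHom Γ C σ) =
      ∏ τ : I, (X - Polynomial.C (σ • (τ : Γ) • c)) := fun σ => by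
    simp [F, Polynomial.map_prod]
  have h8 : ∀ σ : Γ, b (σ • F.coeff (p ^ k * (m - 1))) = -b (σ • c) ^ p ^ k * m := fun σ => by
    rw [← coeff_pow_char p k m (by rintro rfl; simp at hm), ← he]
    change b (MulSemiringAction.toRingHom Γ C σ _) = _
    rw [← coeff_map, ← coeff_map, hF, Polynomial.map_prod]
    simp [h7]
  refine ⟨F.coeff (p ^ k * (m - 1)), fun σ => ⟨fun hσ => ?_, fun e => ?_⟩⟩
  · change MulSemiringAction.toRingHom Γ C σ _ = _
    rw [← coeff_map, hF]
    congr 1
    exact Fintype.prod_equiv (Equiv.mulLeft ⟨σ, hσ⟩) _ _ fun δ => by simp [mul_smul]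
  · by_contra hσ
    have h9 := h8 1
    rw [one_smul, one_smul, ← e, h8] at h9
    have h10 : (b (σ • c) - b c) ^ p ^ k = 0 := by
      rw [sub_pow_expChar_pow, sub_eq_zero]
      exact neg_injective (mul_right_cancel₀ hm h9)
    exact h6 σ hσ (sub_eq_zero.1 (pow_eq_zero_iff (expChar_pow_pos κ p k).ne' |>.1 h10))

section

variable (B P Ω : Type) [CommRing B] [CommRing P] [Field Ω] [Algebra B Ω] [Algebra B P]
  [Algebra P Ω] [IsScalarTower B P Ω] [IsIntegralClosure P B Ω]

/-- The action of `Aut_B(Ω)` on the integral closure. -/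
@[reducible] noncomputable def icAct : MulSemiringAction (Ω ≃ₐ[B] Ω) P where
  smul g z := IsIntegralClosure.mk' P (g (algebraMap P Ω z))
    ((IsIntegralClosure.isIntegral_iff.2 ⟨z, rfl⟩ : IsIntegral B _).map g)
  one_smul z := IsIntegralClosure.algebraMap_injective P B Ω
    (IsIntegralClosure.algebraMap_mk' _ _ _)
  mul_smul g h z := IsIntegralClosure.algebraMap_injective P B Ω (by
    refine (IsIntegralClosure.algebraMap_mk' _ _ _).trans
      (Eq.trans ?_ (IsIntegralClosure.algebraMap_mk' _ _ _).symm)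
    exact congrArg g (IsIntegralClosure.algebraMap_mk' _ _ _).symm)
  smul_zero g := IsIntegralClosure.algebraMap_injective P B Ω
    ((IsIntegralClosure.algebraMap_mk' _ _ _).trans (by simp))
  smul_add g x y := IsIntegralClosure.algebraMap_injective P B Ω (by
    refine (IsIntegralClosure.algebraMap_mk' _ _ _).trans ?_
    rw [map_add, map_add, map_add]
    exact congrArg₂ _ (IsIntegralClosure.algebraMap_mk' _ _ _).symm
      (IsIntegralClosure.algebraMap_mk' _ _ _).symm)
  smul_one g := IsIntegralClosure.algebraMap_injective P B Ω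
    ((IsIntegralClosure.algebraMap_mk' _ _ _).trans (by simp))
  smul_mul g x y := IsIntegralClosure.algebraMap_injective P B Ω (by
    refine (IsIntegralClosure.algebraMap_mk' _ _ _).trans ?_
    rw [map_mul, map_mul, map_mul]
    exact congrArg₂ _ (IsIntegralClosure.algebraMap_mk' _ _ _).symm
      (IsIntegralClosure.algebraMap_mk' _ _ _).symm)

variable {B P Ω}

/-- A subalgebra of the integral closure cut out by automorphisms is normal. -/
theorem fix_normal (S : Set (Ω ≃ₐ[B] Ω)) (C : Subalgebra B P)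
    (hC : ∀ z : P, z ∈ C ↔ ∀ g ∈ S, g (algebraMap P Ω z) = algebraMap P Ω z) [IsDomain P] :
    IsIntegrallyClosed C := by
  have inj := IsIntegralClosure.algebraMap_injective P B Ω
  have := IsIntegralClosure.isIntegral_algebra B Ω (A := P)
  let j : C →+* Ω := (algebraMap P Ω).comp C.val.toRingHom
  have hj : Function.Injective j := inj.comp Subtype.val_injective
  refine (isIntegrallyClosed_iff (FractionRing C)).2 fun {x} hx => ?_
  let f : FractionRing C →+* Ω := IsFractionRing.lift hj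
  have hf : ∀ c, f (algebraMap C _ c) = j c := IsFractionRing.lift_algebraMap hj
  have h1 : IsIntegral P (f x) := by
    refine IsIntegral.map_of_comp_eq C.val.toRingHom f (RingHom.ext fun c => (hf c).symm) hx
  obtain ⟨w, hw⟩ := (IsIntegralClosure.isIntegral_iff (A := P)).1 (isIntegral_trans (R := B) _ h1)
  refine ⟨⟨w, (hC w).2 fun g hg => ?_⟩, f.injective ((hf _).trans hw)⟩
  obtain ⟨a, c, -, rfl⟩ := IsFractionRing.div_surjective (A := C) x
  rw [hw, map_div₀, hf, hf, map_div₀]
  exact congrArg₂ _ ((hC _).1 a.2 g hg) ((hC _).1 c.2 g hg)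

variable [IsDomain B] [IsIntegrallyClosed B] [IsAlgClosed Ω] [FaithfulSMul B Ω]
  [Algebra.IsAlgebraic B Ω]

omit [IsIntegrallyClosed B] in
/-- RAM, first half: an element whose conjugates are separated by the point. -/
theorem ram_sep {κ : Type} [Field κ] (b : P →+* κ) (H : Subgroup (Ω ≃ₐ[B] Ω))
    (ho : ∃ E : Finset Ω, ∀ g : Ω ≃ₐ[B] Ω, (∀ e ∈ E, g e = e) → g ∈ H)
    (hI : ∀ g : Ω ≃ₐ[B] Ω,
      (∀ z w : P, algebraMap P Ω w = g (algebraMap P Ω z) → b w = b z) → g ∈ H) :
    ∃ z : P, ∀ (g : Ω ≃ₐ[B] Ω) (w : P), algebraMap P Ω w = g (algebraMap P Ω z) →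
      b w = b z → w = z ∧ g ∈ H := by
  classical
  have inj := IsIntegralClosure.algebraMap_injective P B Ω
  have := IsIntegralClosure.isIntegral_algebra B Ω (A := P)
  have : IsDomain P := inj.isDomain _
  let _ := icAct B P Ω
  have hs : ∀ (g : Ω ≃ₐ[B] Ω) (z : P), algebraMap P Ω (g • z) = g (algebraMap P Ω z) :=
    fun g z => IsIntegralClosure.algebraMap_mk' _ _ _
  have : SMulCommClass (Ω ≃ₐ[B] Ω) B P := ⟨fun g r z => inj (by
    simp only [Algebra.smul_def, map_mul, hs, ← IsScalarTower.algebraMap_apply, AlgEquiv.commutes])⟩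
  obtain ⟨E, hE⟩ := ho
  obtain ⟨y, hy, hyE⟩ := Algebra.IsAlgebraic.exists_integral_multiples B E
  choose! ε hε using fun e he => (IsIntegralClosure.isIntegral_iff (A := P)).1 (hyE e he)
  let S := ⨅ e ∈ E, MulAction.stabilizer (Ω ≃ₐ[B] Ω) (ε e)
  have hS : ∀ g, g ∈ S ↔ ∀ e ∈ E, g • ε e = ε e := fun g => by simp [S, Subgroup.mem_iInf]
  have hSH : S ≤ H := fun g hg => hE g fun e he => by
    have h1 := congrArg (algebraMap P Ω) ((hS g).1 hg e he)
    rw [hs, hε e he, map_smul, Algebra.smul_def, Algebra.smul_def] at h1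
    exact mul_left_cancel₀
      ((map_ne_zero_iff _ (FaithfulSMul.algebraMap_injective B Ω)).2 hy) h1
  have : S.FiniteIndex := Subgroup.finiteIndex_iInf' _ fun e _ => ⟨by
    rw [MulAction.index_stabilizer]
    refine ((Set.ncard_pos ?_).2 ⟨ε e, MulAction.mem_orbit_self _⟩).ne'
    obtain ⟨f, hf, h0⟩ := Algebra.IsIntegral.isIntegral (R := B) (ε e)
    refine (f.rootSet_finite P).subset ?_
    rintro _ ⟨g, rfl⟩
    refine (hf.mem_rootSet).2 (inj ?_)
    have h1 : aeval (ε e) f = 0 := h0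
    rw [← aeval_algebraMap_apply, hs, aeval_algHom_apply, aeval_algebraMap_apply, h1]
    simp⟩
  let N := S.normalCore
  let C := FixedPoints.subalgebra B P N
  have hC : ∀ z : P, z ∈ C ↔ ∀ g ∈ (N : Set (Ω ≃ₐ[B] Ω)),
      g (algebraMap P Ω z) = algebraMap P Ω z := fun z =>
    ⟨fun h g hg => (hs g z).symm.trans (congrArg _ (h ⟨g, hg⟩)),
      fun h g => inj ((hs g z).trans (h g g.2))⟩
  have := fix_normal _ C hC
  obtain ⟨z, hz⟩ := ram_fin (Γ := (Ω ≃ₐ[B] Ω) ⧸ N) (b.comp C.val.toRingHom)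
  refine ⟨z, fun g w hw e => ?_⟩
  obtain rfl : w = g • (z : P) := inj (hw.trans (hs _ _).symm)
  have h1 := (hz (g : _ ⧸ N)).2 e
  refine ⟨congrArg Subtype.val ((hz (g : _ ⧸ N)).1 h1), ?_⟩
  have : IsScalarTower B C Ω := .of_algebraMap_eq fun r => IsScalarTower.algebraMap_apply B P Ω r
  have : FaithfulSMul C Ω :=
    (faithfulSMul_iff_algebraMap_injective _ _).2 (inj.comp Subtype.val_injective)
  have : Algebra.IsAlgebraic C Ω := Algebra.IsAlgebraic.extendScalars (R := B) (by
    have := FaithfulSMul.algebraMap_injective B Ω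
    rw [IsScalarTower.algebraMap_eq B C Ω, RingHom.coe_comp] at this
    exact this.of_comp)
  have : Algebra.IsIntegral B C := ⟨fun x => (isIntegral_algHom_iff C.val
    Subtype.val_injective).1 (Algebra.IsIntegral.isIntegral _)⟩
  have : IsIntegralClosure P C Ω := IsIntegralClosure.tower_top (R := B)
  obtain ⟨h, hh⟩ := trans (B := C) (Ω := Ω)
    (b.comp (MulSemiringAction.toRingHom (Ω ≃ₐ[B] Ω) P g)) b fun r => h1 r
  have h2 : h.restrictScalars B ∈ H := hSH ((hS _).2 fun e he => inj ((hs _ _).trans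
    (h.commutes ⟨ε e, fun n => (hS _).1 (S.normalCore_le n.2) e he⟩)))
  have h3 : g * h.restrictScalars B ∈ H := hI _ fun z w hw => by
    obtain rfl : w = g • h.restrictScalars B • z := inj (by rw [hw, hs, hs]; rfl)
    exact hh z _ (hs _ _)
  simpa using H.mul_mem h3 (H.inv_mem h2)

/-- RAM: an open subgroup that contains the inertia group of a point contains the stabiliser of
an integral element at which the minimal polynomial has a simple root modulo the point. -/
theorem ram {κ : Type} [Field κ] (b : P →+* κ) (H : Subgroup (Ω ≃ₐ[B] Ω))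
    (ho : ∃ E : Finset Ω, ∀ g : Ω ≃ₐ[B] Ω, (∀ e ∈ E, g e = e) → g ∈ H)
    (hI : ∀ g : Ω ≃ₐ[B] Ω,
      (∀ z w : P, algebraMap P Ω w = g (algebraMap P Ω z) → b w = b z) → g ∈ H) :
    ∃ z : P, (∀ g : Ω ≃ₐ[B] Ω, g (algebraMap P Ω z) = algebraMap P Ω z → g ∈ H) ∧
      b (aeval z (derivative (minpoly B z))) ≠ 0 := by
  classical
  have inj := IsIntegralClosure.algebraMap_injective P B Ω
  have := IsIntegralClosure.isIntegral_algebra B Ω (A := P)
  have : IsDomain P := inj.isDomain _
  obtain ⟨z, hz⟩ := ram_sep b H ho hI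
  let K := FractionRing B
  let _ : Algebra K Ω := FractionRing.liftAlgebra B Ω
  have : Algebra.IsAlgebraic K Ω :=
    Algebra.IsAlgebraic.extendScalars (R := B) (IsFractionRing.injective B K)
  obtain ⟨q, hq⟩ := ExpChar.exists Ω
  have : ExpChar (separableClosure K Ω) q := (algebraMap _ Ω).expChar (RingHom.injective _) q
  have : ExpChar P q := (algebraMap _ Ω).expChar inj q
  obtain ⟨n, t, ht⟩ := IsPurelyInseparable.pow_mem (separableClosure K Ω) q (algebraMap P Ω z)
  have hsep : IsSeparable K (algebraMap P Ω (z ^ q ^ n)) := by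
    rw [map_pow, ← ht]; exact t.2
  have hpos := (expChar_pow_pos Ω q n).ne'
  refine ⟨z ^ q ^ n, fun g hg => (hz g z ?_ rfl).2, ?_⟩
  · rw [map_pow, map_pow, ← sub_eq_zero, ← sub_pow_expChar_pow, pow_eq_zero_iff hpos] at hg
    exact (sub_eq_zero.1 hg).symm
  have hint : IsIntegral B (z ^ q ^ n) := Algebra.IsIntegral.isIntegral _
  have hm := (minpoly.monic hint).map (algebraMap B P)
  have hmin := minpoly.isIntegrallyClosed_eq_field_fractions K Ω hint
  have hroot : z ^ q ^ n ∈ ((minpoly B (z ^ q ^ n)).map (algebraMap B P)).roots :=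
    (mem_roots hm.ne_zero).2 (by rw [IsRoot, eval_map_algebraMap, minpoly.aeval])
  have hnd : ((minpoly B (z ^ q ^ n)).map (algebraMap B P)).roots.Nodup := by
    have h1 := nodup_roots (Polynomial.Separable.map (f := algebraMap K Ω) hsep)
    rw [hmin, Polynomial.map_map, ← IsScalarTower.algebraMap_eq, IsScalarTower.algebraMap_eq B P Ω,
      ← Polynomial.map_map] at h1
    exact (Multiset.nodup_of_le (map_roots_le_of_injective _ inj) h1).of_map _
  rw [← eval_map_algebraMap, ← derivative_map,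
    (ic_splits (B := B) (Ω := Ω) _ hm).eval_root_derivative hm hroot, map_multiset_prod]
  refine Multiset.prod_ne_zero fun h0 => ?_
  simp only [Multiset.map_map, Multiset.mem_map, Function.comp] at h0
  obtain ⟨r, hr, h0⟩ := h0
  obtain ⟨hne, hr⟩ := hnd.mem_erase_iff.1 hr
  have : IsAlgClosure K Ω := ⟨inferInstance, inferInstance⟩
  obtain ⟨σ, hσ⟩ := minpoly.exists_algEquiv_of_root' (K := K) (x := algebraMap P Ω r)
    (Algebra.IsAlgebraic.isAlgebraic (algebraMap P Ω (z ^ q ^ n))) (by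
      have h1 : eval r _ = 0 := (mem_roots hm.ne_zero).1 hr
      rw [hmin, aeval_map_algebraMap, aeval_algebraMap_apply, ← eval_map_algebraMap, h1, map_zero])
  obtain ⟨w, hw⟩ := (IsIntegralClosure.isIntegral_iff (A := P)).1
    ((IsIntegralClosure.isIntegral_iff.2 ⟨z, rfl⟩ : IsIntegral B (algebraMap P Ω z)).map
      (σ.restrictScalars B))
  have h2 : r = w ^ q ^ n := inj (by rw [← hσ, map_pow, map_pow, map_pow, hw]; rfl)
  rw [h2, ← sub_pow_expChar_pow, map_pow, pow_eq_zero_iff hpos, map_sub, sub_eq_zero] at h0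
  exact hne (by rw [h2, (hz _ w hw h0.symm).1])

/-- RAM for a prime ideal `a` of the integral closure. -/
theorem ram_ideal (a : Ideal P) [a.IsPrime] (H : Subgroup (Ω ≃ₐ[B] Ω))
    (ho : ∃ E : Finset Ω, ∀ g : Ω ≃ₐ[B] Ω, (∀ e ∈ E, g e = e) → g ∈ H)
    (hI : ∀ g : Ω ≃ₐ[B] Ω,
      (∀ z w : P, algebraMap P Ω w = g (algebraMap P Ω z) → w - z ∈ a) → g ∈ H) :
    ∃ z : P, (∀ g : Ω ≃ₐ[B] Ω, g (algebraMap P Ω z) = algebraMap P Ω z → g ∈ H) ∧
      aeval z (derivative (minpoly B z)) ∉ a := by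
  obtain ⟨z, h1, h2⟩ := ram (algebraMap P a.ResidueField) H ho fun g hg => hI g fun z w hw => by
    rw [← Ideal.algebraMap_residueField_eq_zero, map_sub, hg z w hw, sub_self]
  exact ⟨z, h1, fun h => h2 (Ideal.algebraMap_residueField_eq_zero.2 h)⟩

end

end Pool.Agent.MP_855f4c_ag.E65

end

section

set_option autoImplicit false

namespace Pool.Agent.MP_855f4c_ag.E3

open IsLocalRing Polynomial TensorProduct

/-- Abhyankar's lemma and purity at finite level. -/
theorem abh_fin {V W Λ D Ω : Type} [CommRing V] [IsDomain V] [IsDiscreteValuationRing V]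
    [CharZero V] [CommRing W] [IsDomain W] [IsLocalRing W] [IsNoetherianRing W] [Algebra V[X] W]
    (H : IndEt V[X] W) (h1 : ∀ a : V, IsUnit (algebraMap V[X] W (C a)) → IsUnit a)
    (h2 : ¬ IsUnit (algebraMap V[X] W X)) [CommRing Λ] [Algebra W Λ]
    [IsLocalization.Away (algebraMap V[X] W X) Λ] [CommRing D] [IsDomain D] [Algebra Λ D]
    [Module.Finite Λ D] [Algebra.FormallyUnramified Λ D] (hi : Function.Injective (algebraMap Λ D))
    [Field Ω] [IsAlgClosed Ω] (c : D →+* Ω) :
    ∃ (n : ℕ) (_ : n ≠ 0) (B : Type) (_ : CommRing B) (_ : Algebra (Kum V W n) B)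
      (_ : Module.Finite (Kum V W n) B) (_ : Algebra.Etale (Kum V W n) B) (β : B →+* Ω),
      (∀ w : W, β (algebraMap (Kum V W n) B (algebraMap W _ w)) =
        c (algebraMap Λ D (algebraMap W Λ w))) ∧
      ∀ z : D, ∃ (k : ℕ) (b : B), c z * β (algebraMap _ B (Kum.rt V W n)) ^ k = β b := by
  have hx0 : algebraMap V[X] W X ≠ 0 := (map_ne_zero_iff _ H.injective).2 X_ne_zero
  obtain ⟨n, hn, hp⟩ := LP.pur (algebraMap V[X] W X) hx0 hi
  obtain ⟨_, hu, _⟩ := Kum.isLocalRing h2 hn
  have := Kum.isDomain H h2 hn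
  have := Kum.finite (V := V) (O := W) hn
  have := (Kum.ind (e := n) H).isIntegrallyClosed
  have : IsNoetherianRing (Kum V W n) := IsNoetherianRing.of_finite W _
  have hσ := Kum.injective (V := V) (O := W) hn
  have hτ := Kum.alg_X V W n
  let Q := Kum V W n ⧸ Ideal.span {algebraMap V[X] (Kum V W n) X}
  let _ : Algebra V Q :=
    ((Ideal.Quotient.mk _).comp ((algebraMap V[X] (Kum V W n)).comp C)).toAlgebra
  have hQ : IndEt V Q := (Kum.ind H).fibre fun _ => rfl
  have : Nontrivial Q := Ideal.Quotient.nontrivial_iff.2 (by rwa [Ne, Ideal.span_singleton_eq_top, hτ])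
  have : IsLocalRing Q := .of_surjective' _ Ideal.Quotient.mk_surjective
  have := hQ.isDomain
  have : IsLocalHom (algebraMap V Q) := ⟨fun a ha => h1 a (by
    have := IsLocalHom.of_surjective (Ideal.Quotient.mk _ : _ →+* Q) Ideal.Quotient.mk_surjective
    have h3 := isUnit_of_map_unit (Ideal.Quotient.mk _ : _ →+* Q) _ ha
    rw [RingHom.comp_apply, Kum.alg_C] at h3
    exact isUnit_of_map_unit _ _ h3)⟩
  have := hQ.dvr.1
  have hpow : algebraMap W (Kum V W n) (algebraMap V[X] W X) = algebraMap V[X] _ X ^ n := by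
    rw [hτ, Kum.rt_pow]
  have ht0 : algebraMap V[X] (Kum V W n) X ≠ 0 := fun e => by
    rw [e, zero_pow hn] at hpow
    exact hx0 ((map_eq_zero_iff _ hσ).1 hpow)
  obtain ⟨B, _, _, _, _, _, j, hB, hj⟩ := hp (Kum V W n) (algebraMap W _) (algebraMap V[X] _ X) hσ
    ((Ideal.span_singleton_prime ht0).1 ((Ideal.Quotient.isDomain_iff_prime _).1 ‹IsDomain Q›))
    hpow (fun f => by
      obtain ⟨g, rfl⟩ := Kum.exists_aeval f
      rw [aeval_eq_sum_range, hτ]
      refine sum_mem fun i _ => ?_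
      rw [Algebra.smul_def]
      exact mul_mem (Subring.subset_closure (by simp))
        (Subring.pow_mem _ (Subring.subset_closure (by simp)) _))
    (fun f hf => by
      obtain ⟨f', e, h⟩ := (FiniteMultiplicity.of_not_isUnit h2 hf).exists_eq_pow_mul_and_not_dvd
      refine ⟨_, f', e, fun hd => h ?_⟩
      have := map_dvd (Kum.lift (e := n) (Ideal.Quotient.mk (Ideal.span {algebraMap V[X] W X})) 0
        (by rw [zero_pow hn, Ideal.Quotient.mk_singleton_self])) hd
      rwa [hτ, Kum.lift_rt, Kum.lift_alg, zero_dvd_iff, Ideal.Quotient.eq_zero_iff_mem,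
        Ideal.mem_span_singleton] at this)
    (fun k hk hd => by
      have h3 : (Ideal.Quotient.mk _ : _ →+* Q) (k : Kum V W n) = 0 :=
        Ideal.Quotient.eq_zero_iff_mem.2 (Ideal.mem_span_singleton.2 hd)
      rw [map_natCast, ← map_natCast (algebraMap V Q), map_eq_zero_iff _ hQ.injective] at h3
      exact hk (Nat.cast_eq_zero.1 h3))
    (inferInstanceAs (IsPrincipalIdealRing Q))
  let t := algebraMap (Kum V W n) B (algebraMap V[X] _ X)
  have hL : Function.Injective (algebraMap B (Localization.Away t)) :=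
    IsLocalization.injective _ (powers_le_nonZeroDivisors_of_noZeroDivisors
      ((map_ne_zero_iff _ hB).2 ht0))
  have hc : (j.comp (algebraMap Λ D)).comp (algebraMap W Λ) = (algebraMap B _).comp
      ((algebraMap (Kum V W n) B).comp (algebraMap W _)) := RingHom.ext hj
  have hint : j.IsIntegral := by
    refine RingHom.IsIntegral.tower_top (algebraMap Λ D) j fun z => ?_
    obtain ⟨k, b, e⟩ := IsLocalization.Away.surj t z
    have h3 : (j.comp (algebraMap Λ D)).IsIntegralElem (algebraMap B _ b) := by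
      refine RingHom.IsIntegralElem.of_comp (f := algebraMap W Λ) ?_
      rw [hc]
      exact RingHom.IsIntegralElem.map (RingHom.IsIntegral.trans _ _
        (Algebra.IsIntegral.isIntegral) (Algebra.IsIntegral.isIntegral) b) _
    obtain ⟨u, hu⟩ := (IsLocalization.Away.algebraMap_isUnit (S := Λ)
      (algebraMap V[X] W X)).exists_right_inv
    let _ := (j.comp (algebraMap Λ D)).toAlgebra
    have h4 : algebraMap B (Localization.Away t) t ^ n * algebraMap Λ _ u = 1 := by
      rw [← map_pow, ← map_pow, ← hpow, ← hj]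
      exact (map_mul (j.comp (algebraMap Λ D)) _ _).symm.trans (by rw [hu, map_one])
    have h5 : IsIntegral Λ (z ^ n) := by
      have : z ^ n = algebraMap B _ b ^ n * algebraMap Λ _ u ^ k := by
        rw [← e, mul_pow, mul_assoc, ← pow_mul, mul_comm k, pow_mul, ← mul_pow, h4]; simp
      rw [this]
      exact (IsIntegral.pow h3 _).mul (isIntegral_algebraMap.pow _)
    exact IsIntegral.of_pow (Nat.pos_of_ne_zero hn) h5
  have hker : RingHom.ker j = ⊥ := by
    have : IsDomain Λ := hi.isDomain _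
    refine Ideal.eq_bot_of_comap_eq_bot (R := Λ) ?_
    rw [RingHom.comap_ker, eq_bot_iff]
    intro z hz
    obtain ⟨k, a, e⟩ := IsLocalization.Away.surj (algebraMap V[X] W X) z
    have h3 := congrArg (j.comp (algebraMap Λ D)) e
    rw [map_mul, (RingHom.mem_ker).1 hz, zero_mul, RingHom.comp_apply, hj] at h3
    rw [(map_eq_zero_iff _ hσ).1 ((map_eq_zero_iff _ hB).1 ((map_eq_zero_iff _ hL).1 h3.symm)),
      map_zero] at e
    exact ((IsLocalization.Away.algebraMap_isUnit _).pow k).mul_left_eq_zero.1 e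
  obtain ⟨β, hβ⟩ := LP.ext_int j hint c (hker ▸ bot_le)
  refine ⟨n, hn, B, inferInstance, inferInstance, inferInstance, inferInstance,
    β.comp (algebraMap B _), fun w => ?_, fun z => ?_⟩
  · rw [RingHom.comp_apply, ← hj, hβ]
  · obtain ⟨k, b, e⟩ := IsLocalization.Away.surj t (j z)
    exact ⟨k, b, by rw [← hβ, ← hτ, RingHom.comp_apply, RingHom.comp_apply, ← e, map_mul, map_pow]⟩

section

variable {V O O₁ Ω S : Type} [CommRing V] [IsDomain V] [IsLocalRing V] [CommRing O]
  [Algebra V[X] O] [CommRing O₁] [Algebra O O₁] [IsLocalization.Away (algebraMap V[X] O X) O₁]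
  [Field Ω] [Algebra O Ω] [Algebra O₁ Ω] [IsScalarTower O O₁ Ω] [CommRing S] [Algebra O₁ S]
  [Algebra.Etale O₁ S]

/-- Finite etale covers of the punctured germ die on some Kummer cover. -/
theorem abh_all [CharZero V] [IsAlgClosed Ω] [Module.Finite O₁ S] (hV : Trait V) (h : Germ V O)
    (hi : Function.Injective (algebraMap O Ω)) (f : S →ₐ[O₁] Ω) :
    ∃ (n : ℕ) (y : Ω), n ≠ 0 ∧ y ^ n = algebraMap O Ω (algebraMap V[X] O X) ∧
      f.range ≤ Algebra.adjoin O₁ {y} := by
  classical
  have := h.shl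
  have := hi.isDomain
  have hi₁ : Function.Injective (algebraMap O O₁) := by
    rw [IsScalarTower.algebraMap_eq O O₁ Ω, RingHom.coe_comp] at hi
    exact hi.of_comp
  have hxu := IsLocalization.Away.algebraMap_isUnit (S := O₁) (algebraMap V[X] O X)
  have hi₂ : Function.Injective (algebraMap O₁ Ω) := by
    rw [injective_iff_map_eq_zero]
    intro z hz
    obtain ⟨k, a, e⟩ := IsLocalization.Away.surj (algebraMap V[X] O X) z
    have h3 := congrArg (algebraMap O₁ Ω) e
    rw [map_mul, hz, zero_mul, ← IsScalarTower.algebraMap_apply] at h3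
    rw [(map_eq_zero_iff _ hi).1 h3.symm, map_zero] at e
    exact (hxu.pow k).mul_left_eq_zero.1 e
  obtain ⟨T, Y, hT, hS⟩ := etale_desc O₁ S
  choose p hp hp0 using fun t : S => Algebra.IsIntegral.isIntegral (R := O₁) t
  choose k a ha using fun z : O₁ => IsLocalization.Away.surj (algebraMap V[X] O X) z
  obtain ⟨V₀, _, _, W, _, _, _, _, _, ρ, hW, _, hρ, hρa, hZ⟩ := exists_stage hV h.ind
    ((Y ∪ T.biUnion fun t => (p t).coeffs).image a)
  have hx : ρ (algebraMap V₀[X] W X) = algebraMap V[X] O X := by rw [hρa, map_X]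
  let Λ := Localization.Away (algebraMap V₀[X] W X)
  let μ : Λ →+* O₁ := IsLocalization.Away.lift (algebraMap V₀[X] W X)
    (g := (algebraMap O O₁).comp ρ) (by rwa [RingHom.comp_apply, hx])
  have hμ : ∀ w, μ (algebraMap W Λ w) = algebraMap O O₁ (ρ w) := IsLocalization.Away.lift_eq _ _
  have hμi : Function.Injective μ := (IsLocalization.lift_injective_iff _).2 fun u v =>
    ⟨fun e => (hμ u).symm.trans ((congrArg μ e).trans (hμ v)), fun e => congrArg _ (hρ (hi₁ e))⟩
  let _ : Algebra Λ O₁ := μ.toAlgebra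
  let _ : Algebra Λ S := ((algebraMap O₁ S).comp μ).toAlgebra
  let _ : Algebra Λ Ω := ((algebraMap O₁ Ω).comp μ).toAlgebra
  have : IsScalarTower Λ O₁ S := .of_algebraMap_eq fun _ => rfl
  have : IsScalarTower Λ O₁ Ω := .of_algebraMap_eq fun _ => rfl
  have hr : ∀ r ∈ Y ∪ T.biUnion fun t => (p t).coeffs, r ∈ (algebraMap Λ O₁).range := by
    intro r hr
    obtain ⟨w, hw⟩ := hZ _ (Finset.mem_image_of_mem a hr)
    obtain ⟨u, hu⟩ := (IsLocalization.Away.algebraMap_isUnit (S := Λ)
      (algebraMap V₀[X] W X)).exists_right_inv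
    refine ⟨algebraMap W Λ w * u ^ k r, (hxu.pow (k r)).mul_right_cancel ?_⟩
    change μ _ * _ = _
    rw [ha, ← hx, ← hμ, ← map_pow, ← map_mul, mul_assoc, ← mul_pow, mul_comm u, hu, one_pow,
      mul_one, hμ, hw]
  obtain ⟨E, _, _, _, g, hg⟩ := hS Λ hμi fun r h => hr r (by simp [h])
  let D := ((f.restrictScalars Λ).comp g).range
  have hD : D = Algebra.adjoin Λ (f '' T) := by
    rw [show D = _ from AlgHom.range_comp _ _, hg, AlgHom.map_adjoin]; rfl
  have : Algebra.FormallyUnramified Λ D :=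
    .of_surjective (AlgHom.rangeRestrict _) (AlgHom.rangeRestrict_surjective _)
  have : Module.Finite Λ D := by
    rw [hD]
    refine Algebra.finite_adjoin_of_finite_of_isIntegral (T.finite_toSet.image _) ?_
    rintro _ ⟨t, ht, rfl⟩
    obtain ⟨q, hq, -, hm⟩ := lifts_and_natDegree_eq_and_monic (f := algebraMap Λ O₁)
      ((lifts_iff_coeffs_subset_range _).2 fun c hc =>
        hr c (Finset.mem_union_right _ (Finset.mem_biUnion.2 ⟨t, ht, hc⟩))) (hp t)
    refine IsIntegral.map (f.restrictScalars Λ) ⟨q, hm, ?_⟩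
    rw [IsScalarTower.algebraMap_eq Λ O₁ S, ← eval₂_map, hq, hp0]
  obtain ⟨n, hn, B, _, _, _, _, β, hβ, hb⟩ := abh_fin (Λ := Λ) (D := D) hW
    (fun c hc => isUnit_of_map_unit V₀.subtype c (by
      by_contra hu
      refine h.loc _ hu ?_
      have := hc.map ρ
      rwa [hρa, map_C] at this))
    (fun hu => h.orig (hx ▸ hu.map ρ))
    (fun u v e => hμi (hi₂ (congrArg Subtype.val e))) D.val.toRingHom
  replace hβ : ∀ w : W, β (algebraMap (Kum V₀ W n) B (algebraMap W _ w)) =
      algebraMap O Ω (ρ w) := fun w => (hβ w).trans (by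
    rw [IsScalarTower.algebraMap_apply O O₁ Ω, ← hμ]; rfl)
  set y := β (algebraMap _ B (Kum.rt V₀ W n)) with hy
  have hyn : y ^ n = algebraMap O Ω (algebraMap V[X] O X) := by
    rw [← map_pow, ← map_pow, Kum.rt_pow, hβ, hx]
  refine ⟨n, y, hn, hyn, ?_⟩
  have := (Kum.germ h hn).shl
  let ι : Kum V O n →+* Ω := Kum.lift (algebraMap O Ω) y hyn
  let θ : Kum V₀ W n →+* Kum V O n := Kum.lift ((algebraMap O _).comp ρ) (Kum.rt V O n) (by
    rw [Kum.rt_pow, RingHom.comp_apply, hx])
  have hθ : β.comp (algebraMap _ B) = ι.comp θ := Kum.hom_ext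
    (fun w => by simp only [RingHom.comp_apply, hβ, θ, ι, Kum.lift_alg])
    (by simp only [RingHom.comp_apply, θ, ι, Kum.lift_rt, hy])
  have hB : ∀ b, β b ∈ Algebra.adjoin O₁ {y} := by
    intro b
    let _ := θ.toAlgebra
    let _ := ι.toAlgebra
    let _ := (ι.comp θ).toAlgebra
    have : IsScalarTower (Kum V₀ W n) (Kum V O n) Ω := .of_algebraMap_eq fun _ => rfl
    obtain ⟨z, hz⟩ := SHL.range_le (A := Kum V O n) (Algebra.TensorProduct.lift (Algebra.ofId _ Ω)
      ({ β with commutes' := fun r => congrArg (fun φ => φ r) hθ } : B →ₐ[Kum V₀ W n] Ω)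
      fun _ _ => Commute.all _ _) (1 ⊗ₜ b)
    rw [← show ι z = β b from hz.trans (by simp)]
    clear hz
    obtain ⟨q, rfl⟩ := Kum.exists_aeval z
    rw [aeval_eq_sum_range, map_sum]
    refine sum_mem fun i _ => ?_
    rw [Algebra.smul_def, map_mul, map_pow, Kum.lift_alg, Kum.lift_rt,
      IsScalarTower.algebraMap_apply O O₁ Ω]
    exact mul_mem (Subalgebra.algebraMap_mem _ _)
      (pow_mem (Algebra.self_mem_adjoin_singleton _ _) _)
  rw [← Algebra.map_top, ← hT, AlgHom.map_adjoin]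
  refine Algebra.adjoin_le fun z hz => ?_
  obtain ⟨m, b, e⟩ := hb ⟨z, hD ▸ Algebra.subset_adjoin hz⟩
  obtain ⟨u, hu⟩ := hxu.exists_right_inv
  have h3 : y * (y ^ (n - 1) * algebraMap O₁ Ω u) = 1 := by
    rw [← mul_assoc, ← pow_succ', Nat.sub_add_cancel (Nat.pos_of_ne_zero hn), hyn,
      IsScalarTower.algebraMap_apply O O₁ Ω, ← map_mul, hu, map_one]
  have h4 : z = β b * (y ^ (n - 1) * algebraMap O₁ Ω u) ^ m := by
    rw [← e, mul_assoc, ← mul_pow, h3, one_pow, mul_one]; rfl
  rw [h4]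
  exact mul_mem (hB b) (pow_mem (mul_mem (pow_mem (Algebra.self_mem_adjoin_singleton _ _) _)
    (Subalgebra.algebraMap_mem _ _)) _)

/-- Elements of a Kummer algebra that are fixed by a root of unity. -/
theorem kum_fix {R : Type} [CommRing R] [IsDomain R] {x ζ : R} {n m : ℕ} (hn : n ≠ 0)
    (hζ : IsPrimitiveRoot ζ m) (σ : AdjoinRoot (X ^ n - C x) →ₐ[R] AdjoinRoot (X ^ n - C x))
    (hσ : σ (AdjoinRoot.root _) = algebraMap R _ ζ * AdjoinRoot.root _) (z) (hz : σ z = z) :
    z ∈ Algebra.adjoin R {AdjoinRoot.root (X ^ n - C x) ^ m} := by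
  have hm := monic_X_pow_sub_C x hn
  obtain ⟨g₀, rfl⟩ := AdjoinRoot.mk_surjective z
  have e : AdjoinRoot.mk (X ^ n - C x) g₀ = aeval (AdjoinRoot.root _) (g₀ %ₘ (X ^ n - C x)) := by
    rw [AdjoinRoot.aeval_eq]; exact (AdjoinRoot.mk_leftInverse hm _).symm
  have hd := degree_modByMonic_lt g₀ hm
  generalize g₀ %ₘ (X ^ n - C x) = g at e hd
  rw [e] at hz ⊢
  have h1 : g.comp (C ζ * X) - g = 0 := by
    by_contra h0
    refine hm.not_dvd_of_degree_lt h0 ?_ ?_
    · rw [degree_eq_natDegree hm.ne_zero] at hd ⊢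
      refine (degree_lt_iff_coeff_zero _ _).2 fun i hi => ?_
      rw [coeff_sub, comp_C_mul_X_coeff, (degree_lt_iff_coeff_zero _ _).1 hd i hi]; simp
    · rw [← AdjoinRoot.mk_eq_zero, ← AdjoinRoot.aeval_eq, map_sub, aeval_comp, sub_eq_zero, ← hz,
        ← aeval_algHom_apply, hσ]
      simp
  rw [aeval_eq_sum_range]
  refine sum_mem fun i _ => ?_
  have h2 := congrArg (coeff · i) h1
  simp only [coeff_sub, comp_C_mul_X_coeff, coeff_zero] at h2
  by_cases hi : m ∣ i
  · obtain ⟨j, rfl⟩ := hi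
    rw [pow_mul]
    exact Subalgebra.smul_mem _ (pow_mem (Algebra.self_mem_adjoin_singleton _ _) _) _
  · rw [← mul_sub_one, mul_eq_zero, sub_eq_zero, hζ.pow_eq_one_iff_dvd] at h2
    rw [h2.resolve_right hi, zero_smul]
    exact zero_mem _

/-- ABH: finite etale covers of the punctured germ over a trait of characteristic zero die on a
tame Kummer cover. -/
theorem abh [CharZero V] [IsIntegrallyClosed V] [IsAlgClosed Ω] [Module.Finite O₁ S]
    (hA : Aic V) (hV : Trait V) (h : Germ V O) (hi : Function.Injective (algebraMap O Ω))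
    (f : S →ₐ[O₁] Ω) :
    ∃ (e : ℕ) (y : Ω), e ≠ 0 ∧ IsUnit (e : V) ∧ y ^ e = algebraMap O Ω (algebraMap V[X] O X) ∧
      f.range ≤ Algebra.adjoin O₁ {y} := by
  obtain ⟨n, y, hn, hy, hf⟩ := abh_all hV h hi f
  have := h.shl
  have := hi.isDomain
  have hi₁ : Function.Injective (algebraMap O O₁) := by
    rw [IsScalarTower.algebraMap_eq O O₁ Ω, RingHom.coe_comp] at hi
    exact hi.of_comp
  have hx0 : algebraMap V[X] O X ≠ 0 := (map_ne_zero_iff _ h.ind.injective).2 X_ne_zero
  have : IsDomain O₁ := IsLocalization.isDomain_of_le_nonZeroDivisors O₁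
    (powers_le_nonZeroDivisors_of_noZeroDivisors hx0)
  obtain ⟨p, hp⟩ := ExpChar.exists (ResidueField V)
  obtain ⟨k, e, he, rfl⟩ : ∃ k e : ℕ, (e : ResidueField V) ≠ 0 ∧ n = p ^ k * e := by
    cases hp with
    | zero => exact ⟨0, n, Nat.cast_ne_zero.2 hn, by simp⟩
    | prime hpp =>
      obtain ⟨k, m, h, e⟩ := Nat.exists_eq_pow_mul_and_not_dvd hn p hpp.ne_one
      exact ⟨k, m, fun h0 => h ((CharP.cast_eq_zero_iff _ p m).1 h0), e⟩
  have hpk := expChar_pow_pos (ResidueField V) p k
  refine ⟨e, y ^ p ^ k, right_ne_zero_of_mul hn, ?_, by rw [← pow_mul, hy], ?_⟩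
  · rw [← notMem_maximalIdeal, ← residue_eq_zero_iff, map_natCast]; exact he
  obtain ⟨ζ, hζ⟩ := hA (cyclotomic (p ^ k) V) (cyclotomic.monic _ _) (by
    rw [natDegree_cyclotomic]; exact (Nat.totient_pos.2 hpk).ne')
  have : NeZero ((p ^ k : ℕ) : V) := ⟨Nat.cast_ne_zero.2 hpk.ne'⟩
  replace hζ : IsPrimitiveRoot ζ (p ^ k) := isRoot_cyclotomic_iff.1 hζ
  have hζ1 : ζ - 1 ∈ maximalIdeal V := by
    rw [← residue_eq_zero_iff, ← pow_eq_zero_iff hpk.ne', map_sub, sub_pow_expChar_pow,
      ← map_pow, ← map_pow, hζ.pow_eq_one, one_pow, sub_self]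
  let c : V →+* O₁ := (algebraMap O O₁).comp ((algebraMap V[X] O).comp C)
  have hc : Function.Injective c := hi₁.comp (h.ind.injective.comp C_injective)
  let x := algebraMap O O₁ (algebraMap V[X] O X)
  let A := AdjoinRoot (X ^ (p ^ k * e) - C x)
  have hr : AdjoinRoot.root (X ^ (p ^ k * e) - C x) ^ (p ^ k * e) = algebraMap O₁ A x := by
    have := AdjoinRoot.eval₂_root (X ^ (p ^ k * e) - C x)
    rwa [eval₂_sub, eval₂_X_pow, eval₂_C, sub_eq_zero] at this
  let ι : A →ₐ[O₁] Ω := AdjoinRoot.liftAlgHom _ (Algebra.ofId _ _) y (by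
    rw [eval₂_sub, eval₂_X_pow, eval₂_C, hy, IsScalarTower.algebraMap_apply O O₁ Ω]
    exact sub_self _)
  have hι : ∀ g : O₁[X], ι (AdjoinRoot.mk _ g) = aeval y g := fun _ => rfl
  have hιi : Function.Injective ι := by
    rw [injective_iff_map_eq_zero]
    intro z hz
    obtain ⟨g, rfl⟩ := AdjoinRoot.mk_surjective z
    obtain ⟨g', b, hb, hg⟩ : ∃ g' : O[X], ∃ b ∈ Submonoid.powers (algebraMap V[X] O X),
        g'.map (algebraMap O O₁) = b • g := ⟨_, IsLocalization.integerNormalization_spec _ g⟩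
    have := Kum.isDomain h.ind h.orig hn
    have h1 := Kum.lift_injective hn (Kum.lift (algebraMap O Ω) y hy) (by
      convert hi; exact RingHom.ext (Kum.lift_alg _ _ hy))
    have h2 : Kum.lift (algebraMap O Ω) y hy (aeval (Kum.rt V O _) g') = 0 := by
      rw [aeval_def, hom_eval₂, Kum.lift_rt, RingHom.ext (f := RingHom.comp _ _)
        (Kum.lift_alg _ _ hy), ← aeval_def, ← aeval_map_algebraMap O₁, hg, ← algebraMap_smul O₁,
        map_smul, ← hι, hz, smul_zero]
    have h3 := Polynomial.map_dvd (algebraMap O O₁)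
      (Kum.aeval_eq_zero.1 ((map_eq_zero_iff _ h1).1 h2))
    rw [hg, ← algebraMap_smul O₁, smul_eq_C_mul,
      ((IsLocalization.map_units O₁ ⟨b, hb⟩).map C).dvd_mul_left] at h3
    exact AdjoinRoot.mk_eq_zero.2 (by simpa using h3)
  have := hιi.isDomain ι.toRingHom
  have hrange : f.range ≤ ι.range := hf.trans (Algebra.adjoin_le (by
    rintro _ rfl; exact ⟨AdjoinRoot.root _, AdjoinRoot.liftAlgHom_root _ _ _ _⟩))
  let f' : S →ₐ[O₁] A := (AlgEquiv.ofInjective ι hιi).symm.toAlgHom.comp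
    ((Subalgebra.inclusion hrange).comp f.rangeRestrict)
  have hf' : ∀ s, ι (f' s) = f s := fun s =>
    congrArg Subtype.val ((AlgEquiv.ofInjective ι hιi).apply_symm_apply _)
  let σ : A →ₐ[O₁] A := AdjoinRoot.liftAlgHom _ (Algebra.ofId _ _)
    (algebraMap O₁ A (c ζ) * AdjoinRoot.root _) (by
      rw [eval₂_sub, eval₂_X_pow, eval₂_C, mul_pow, hr, ← map_pow, ← map_pow,
        (hζ.pow_eq_one_iff_dvd _).2 (dvd_mul_right _ _)]
      simp)
  have := h.ind.flat
  have : ((maximalIdeal V).map (C : V →+* V[X])).IsPrime := Ideal.isPrime_map_C_of_isPrime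
  obtain ⟨Q, -, hQ, hl⟩ := Ideal.exists_ideal_le_liesOver_of_le (R := V[X])
    (p := (maximalIdeal V).map C) (q := (maximalIdeal O).under V[X]) (maximalIdeal O)
    (Ideal.map_le_iff_le_comap.2 h.loc)
  let K := AlgebraicClosure Q.ResidueField
  have hK : ∀ r : V[X], algebraMap O K (algebraMap V[X] O r) = 0 ↔ r ∈ (maximalIdeal V).map C :=
    fun r => by
      rw [IsScalarTower.algebraMap_apply O Q.ResidueField K, map_eq_zero,
        Ideal.algebraMap_residueField_eq_zero, hl.over, Ideal.mem_under]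
  let a₁ : O₁ →+* K := IsLocalization.Away.lift (algebraMap V[X] O X) (g := algebraMap O K)
    (isUnit_iff_ne_zero.2 fun h0 => (maximalIdeal.isMaximal V).ne_top ((Ideal.eq_top_iff_one _).2
      (by simpa using Ideal.mem_map_C_iff.1 ((hK _).1 h0) 1)))
  obtain ⟨y', hy'⟩ := IsAlgClosed.exists_pow_nat_eq (a₁ x) (Nat.pos_of_ne_zero hn)
  let a : A →+* K := AdjoinRoot.lift a₁ y' (by
    rw [eval₂_sub, eval₂_X_pow, eval₂_C, hy', sub_self])
  have ha : a.comp σ.toRingHom = a := AdjoinRoot.ringHom_ext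
    (RingHom.ext fun r => congrArg a (σ.commutes r)) (by
      have h1 : a (algebraMap O₁ A (c ζ)) = 1 := by
        have h2 := (hK _).2 (Ideal.mem_map_of_mem C hζ1)
        rw [map_sub, map_sub, map_sub, sub_eq_zero, map_one, map_one, map_one] at h2
        exact (AdjoinRoot.lift_of _).trans ((IsLocalization.Away.lift_eq _ _ _).trans h2)
      change a (σ _) = _
      rw [AdjoinRoot.liftAlgHom_root, map_mul, h1, one_mul])
  have hu := LP.uq (σ.comp f') f' a fun s => congrArg (fun φ => φ (f' s)) ha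
  rintro _ ⟨s, rfl⟩
  have h1 := kum_fix hn (hζ.map_of_injective hc) σ (AdjoinRoot.liftAlgHom_root _ _ _ _) (f' s)
    (congrArg (fun φ => φ s) hu)
  have h2 := Subalgebra.mem_map.2 ⟨_, h1, hf' s⟩
  rwa [AlgHom.map_adjoin, Set.image_singleton, map_pow, AdjoinRoot.liftAlgHom_root] at h2

end

end Pool.Agent.MP_855f4c_ag.E3

end

section

set_option autoImplicit false

namespace Pool.Agent.MP_855f4c_ag.E3

open IsLocalRing Polynomial

theorem val_pow {K Ω Γ : Type} [Field K] [Field Ω] [Algebra K Ω]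
    [LinearOrderedCommGroupWithZero Γ] (v : Valuation Ω Γ) {x : Ω} (hx : x ≠ 0) {p : K[X]}
    (p0 : p ≠ 0) (hp : aeval x p = 0) {n : ℕ} (hn : p.natDegree ≤ n) :
    ∃ c : K, c ≠ 0 ∧ v x ^ n.factorial = v (algebraMap K Ω c) := by
  classical
  let f : ℕ → Ω := fun i => algebraMap K Ω (p.coeff i) * x ^ i
  have key : ∀ i ∈ p.support, ∀ j ∈ p.support, i < j → v (f i) = v (f j) →
      ∃ c : K, c ≠ 0 ∧ v x ^ n.factorial = v (algebraMap K Ω c) := by
    intro i hi j hj hij e
    have i0 := mem_support_iff.1 hi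
    have j0 := mem_support_iff.1 hj
    obtain ⟨d, rfl⟩ := Nat.exists_eq_add_of_lt hij
    obtain ⟨m, hm⟩ : d + 1 ∣ n.factorial :=
      Nat.dvd_factorial d.succ_pos (by have := le_natDegree_of_mem_supp _ hj; omega)
    refine ⟨(p.coeff i / p.coeff (i + d + 1)) ^ m, pow_ne_zero _ (div_ne_zero i0 j0), ?_⟩
    rw [hm, pow_mul, map_pow, map_pow, map_div₀, map_div₀]
    congr 1
    have h1 : v (algebraMap K Ω (p.coeff (i + d + 1))) ≠ 0 := by simpa using j0
    have h2 : v x ^ i ≠ 0 := pow_ne_zero _ (by simpa using hx)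
    simp only [f, map_mul, map_pow] at e
    rw [eq_div_iff h1]
    apply mul_right_cancel₀ h2
    rw [e, add_assoc, pow_add (v x) i, mul_comm (v x ^ i), ← mul_assoc, mul_comm (v x ^ (d + 1))]
  obtain ⟨j, hj, hmax⟩ := p.support.exists_max_image (fun i => v (f i)) (support_nonempty.2 p0)
  by_contra hc
  have h1 := v.map_sum_eq_of_lt (f := f) hj fun i hi => by
    obtain ⟨hi, ne⟩ := Finset.mem_sdiff.1 hi
    refine lt_of_le_of_ne (hmax i hi) fun e => hc ?_
    rcases lt_or_gt_of_ne (Finset.notMem_singleton.1 ne) with h | h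
    · exact key i hi j hj h e
    · exact key j hj i hi h e.symm
  have h2 : ∑ i ∈ p.support, f i = 0 := by rw [← hp, aeval_def, eval₂_eq_sum, sum_def]
  rw [h2, map_zero] at h1
  have j0 := mem_support_iff.1 hj
  simp [f, j0, hx] at h1

theorem dvr_of_deg {W : Type} [CommRing W] [IsDomain W] (m : W → ℕ)
    (h1 : ∀ a b, a ≠ 0 → b ≠ 0 → m (a * b) = m a + m b)
    (h2 : ∀ a b, a ≠ 0 → b ≠ 0 → m a ≤ m b → a ∣ b) (h3 : ∃ a, a ≠ 0 ∧ m a ≠ 0) :
    IsDiscreteValuationRing W := by
  classical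
  have hu : ∀ a, a ≠ 0 → m a = 0 → IsUnit a := fun a a0 h =>
    isUnit_of_dvd_one (h2 a 1 a0 one_ne_zero (by omega))
  have h4 : ∃ n, ∃ a, a ≠ 0 ∧ m a ≠ 0 ∧ m a = n := let ⟨a, x, y⟩ := h3; ⟨_, a, x, y, rfl⟩
  obtain ⟨π, π0, πm, hπ⟩ := Nat.find_spec h4
  have hmin : ∀ a, a ≠ 0 → m a ≠ 0 → m π ≤ m a := fun a x y =>
    hπ ▸ Nat.find_min' h4 ⟨a, x, y, rfl⟩
  refine IsDiscreteValuationRing.ofHasUnitMulPowIrreducibleFactorization ⟨π, ⟨?_, ?_⟩, ?_⟩
  · intro h
    obtain ⟨c, hc⟩ := h.exists_right_inv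
    have e1 := h1 π c π0 (right_ne_zero_of_mul_eq_one hc)
    have e2 := h1 1 1 one_ne_zero one_ne_zero
    rw [hc] at e1
    rw [mul_one] at e2
    omega
  · intro a b hab
    have a0 : a ≠ 0 := left_ne_zero_of_mul (hab ▸ π0)
    have b0 : b ≠ 0 := right_ne_zero_of_mul (hab ▸ π0)
    have e := h1 a b a0 b0
    rw [← hab] at e
    by_cases ha : m a = 0
    · exact .inl (hu a a0 ha)
    · have := hmin a a0 ha
      exact .inr (hu b b0 (by omega))
  · intro x x0
    induction h : m x using Nat.strong_induction_on generalizing x with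
    | _ n ih =>
      by_cases hx : m x = 0
      · exact ⟨0, by simpa using (associated_one_iff_isUnit.2 (hu x x0 hx)).symm⟩
      · obtain ⟨y, rfl⟩ := h2 π x π0 x0 (hmin x x0 hx)
        have y0 := right_ne_zero_of_mul x0
        have e := h1 π y π0 y0
        obtain ⟨k, hk⟩ := ih (m y) (by omega) y0 rfl
        exact ⟨k + 1, by rw [pow_succ']; exact hk.mul_left π⟩

theorem aic_val {Ω : Type} [Field Ω] [IsAlgClosed Ω] (V : ValuationSubring Ω) : Aic V := by
  intro p hp h0
  obtain ⟨x, hx⟩ := IsAlgClosed.exists_aeval_eq_zero Ω p fun h => h0 (natDegree_eq_of_degree_eq_some h)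
  obtain ⟨a, rfl⟩ := IsIntegrallyClosed.isIntegral_iff.1 (⟨p, hp, hx⟩ : IsIntegral V x)
  refine ⟨a, IsFractionRing.injective V Ω ?_⟩
  rwa [aeval_algebraMap_apply, coe_aeval_eq_eval, ← map_zero (algebraMap V Ω)] at hx

section

variable {D : Type} (K : Type) {E : Type} [CommRing D] [IsDomain D] [IsDiscreteValuationRing D] [Field K]
  [Algebra D K] [IsFractionRing D K] [Field E] [Algebra K E] [Algebra D E] [IsScalarTower D K E]
  [Algebra.IsAlgebraic K E]
include K

/-- A point of a discrete valuation ring extends to a valuation ring of an algebraic extension. -/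
theorem val_ext {k : Type} [Field k] [IsAlgClosed k] (ε : D →+* k)
    (hε : ∀ d, ε d = 0 ↔ d ∈ maximalIdeal D) :
    ∃ (U : ValuationSubring E) (ρ : U →+* k) (h : ∀ d, algebraMap D E d ∈ U),
      (∀ x, ρ x = 0 ↔ x ∈ maximalIdeal U) ∧ ∀ d, ρ ⟨_, h d⟩ = ε d := by
  obtain ⟨U, h, hl⟩ := exists_factor_valuationRing (algebraMap D E)
  let f : D →+* U := (algebraMap D E).codRestrict U.toSubring h
  have : IsLocalHom f := hl
  let _ : Algebra D U := f.toAlgebra
  have : IsLocalHom (algebraMap D U) := hl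
  have : IsScalarTower D U E := .of_algebraMap_eq fun _ => rfl
  have inj : Function.Injective (algebraMap D E) := by
    rw [IsScalarTower.algebraMap_eq D K E]
    exact (algebraMap K E).injective.comp (IsFractionRing.injective D K)
  obtain ⟨π, hπ⟩ := IsDiscreteValuationRing.exists_irreducible D
  have hint : (algebraMap D (ResidueField U)).IsIntegral := by
    intro y
    obtain ⟨x, rfl⟩ := residue_surjective y
    obtain ⟨p, p0, hp⟩ := (IsFractionRing.isAlgebraic_iff D K E).2
      (Algebra.IsAlgebraic.isAlgebraic (x : E))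
    obtain ⟨n, q, hq, rfl⟩ := WfDvdMonoid.max_power_factor' p0 (x := C π)
      fun hu => hπ.not_isUnit (isUnit_C.1 hu)
    have h1 : aeval (x : E) q = 0 := by
      rw [map_mul, map_pow, aeval_C] at hp
      exact (mul_eq_zero.1 hp).resolve_left
        (pow_ne_zero _ ((map_ne_zero_iff _ inj).2 hπ.ne_zero))
    have h2 : aeval x q = 0 := by
      apply IsFractionRing.injective U E
      rw [← aeval_algebraMap_apply, map_zero]
      exact h1
    have h3 : IsAlgebraic (ResidueField D) (residue U x) := by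
      refine ⟨q.map (algebraMap D _), fun e => hq ((C_dvd_iff_dvd_coeff _ _).2 fun i => ?_), ?_⟩
      · have := congrArg (fun t => coeff t i) e
        simp only [coeff_map, coeff_zero] at this
        rw [← Ideal.mem_span_singleton, ← hπ.maximalIdeal_eq]
        exact (residue_eq_zero_iff _).1 this
      · rw [aeval_map_algebraMap]
        change aeval (algebraMap U (ResidueField U) x) q = 0
        rw [aeval_algebraMap_apply, h2, map_zero]
    exact isIntegral_trans (R := D) _ h3.isIntegral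
  obtain ⟨y, hy⟩ := LP.ext_int _ hint ε fun d hd => by
    rw [RingHom.mem_ker, hε]
    have : residue U (f d) = 0 := hd
    exact fun hu => (residue_eq_zero_iff _).1 this (hu.map f)
  refine ⟨U, y.comp (residue U), h, fun x => ?_, fun d => hy d⟩
  rw [RingHom.comp_apply, map_eq_zero_iff _ y.injective, residue_eq_zero_iff]

theorem trait_comap {Ω : Type} [Field Ω] (U : ValuationSubring E) (h : ∀ d, algebraMap D E d ∈ U)
    (hl : ∀ d ∈ maximalIdeal D, U.valuation (algebraMap D E d) < 1) (j : Ω →+* E) (b : Ω)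
    (b0 : b ≠ 0) (d : D) (hd : d ∈ maximalIdeal D) (hb : j b = algebraMap D E d) :
    Trait (U.comap j) := by
  classical
  intro s
  have inj : Function.Injective (algebraMap D E) := by
    rw [IsScalarTower.algebraMap_eq D K E]
    exact (algebraMap K E).injective.comp (IsFractionRing.injective D K)
  obtain ⟨π, hπ⟩ := IsDiscreteValuationRing.exists_irreducible D
  let v := U.valuation
  let γ := v (algebraMap D E π)
  have γ0 : 0 < γ := zero_lt_iff.2 (by simpa [γ] using (map_ne_zero_iff _ inj).2 hπ.ne_zero)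
  have γ1 : γ < 1 := hl π hπ.not_isUnit
  have hD : ∀ a : D, a ≠ 0 → ∃ m : ℕ, v (algebraMap D E a) = γ ^ m := fun a a0 => by
    obtain ⟨m, u, rfl⟩ := IsDiscreteValuationRing.eq_unit_mul_pow_irreducible a0 hπ
    have : v (algebraMap D E u) = 1 :=
      (U.valuation_eq_one_iff ⟨_, h u⟩).1 (u.isUnit.map ((algebraMap D E).codRestrict U.toSubring h))
    exact ⟨m, by rw [map_mul, map_mul, this, one_mul, map_pow, map_pow]⟩
  let L := IntermediateField.adjoin K ((s.image fun a : U.comap j => j a.1 : Finset E) : Set E)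
  have : FiniteDimensional K L := IntermediateField.finiteDimensional_adjoin fun x _ =>
    (Algebra.IsAlgebraic.isAlgebraic x).isIntegral
  let N := (Module.finrank K L).factorial
  have N0 : N ≠ 0 := Nat.factorial_ne_zero _
  have hL : ∀ x ∈ L, x ≠ 0 → v x ≤ 1 → ∃ m : ℕ, v x ^ N = γ ^ m := fun x hx x0 x1 => by
    have hi := (Algebra.IsAlgebraic.isAlgebraic (R := K) x).isIntegral
    obtain ⟨c, c0, hc⟩ := val_pow v x0 (minpoly.ne_zero hi) (minpoly.aeval K x)
      (n := Module.finrank K L) (by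
        have := minpoly.natDegree_le (A := K) (⟨x, hx⟩ : L)
        rwa [IntermediateField.minpoly_eq] at this)
    rcases ValuationRing.isInteger_or_isInteger D c with ⟨a, ha⟩ | ⟨a, ha⟩
    · subst ha
      rw [← IsScalarTower.algebraMap_apply] at hc
      rw [hc]
      exact hD a fun e => c0 (by rw [e, map_zero])
    · refine ⟨0, le_antisymm (by simpa using pow_le_one₀ zero_le x1) ?_⟩
      have h1 : v (algebraMap D E a) ≤ 1 := (U.valuation_le_one_iff _).2 (h a)
      rw [IsScalarTower.algebraMap_apply D K E, ha, map_inv₀, map_inv₀, ← hc,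
        inv_le_one₀ (pow_pos (zero_lt_iff.2 (by simpa using x0)) _)] at h1
      simpa using h1
  let W : Subring (U.comap j) := L.toSubring.comap (j.comp (U.comap j).subtype)
  have hW : ∀ x : W, ∃ m : ℕ, x ≠ 0 → v (j x.1.1) ^ N = γ ^ m := fun x => by
    by_cases x0 : x = 0
    · exact ⟨0, fun h => (h x0).elim⟩
    · obtain ⟨m, hm⟩ := hL _ x.2 ((map_ne_zero j).2 fun e => x0 (Subtype.ext (Subtype.ext e)))
        ((U.valuation_le_one_iff _).2 x.1.2)
      exact ⟨m, fun _ => hm⟩
  choose m hm using hW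
  have anti := pow_right_strictAnti₀ γ0 γ1
  have h2 : ∀ a c : W, a ≠ 0 → v (j c.1.1) ≤ v (j a.1.1) → a ∣ c := fun a c a0 hv => by
    have a1 : a.1.1 ≠ 0 := fun e => a0 (Subtype.ext (Subtype.ext e))
    refine ⟨⟨⟨c.1.1 / a.1.1, ?_⟩, ?_⟩, Subtype.ext (Subtype.ext (mul_div_cancel₀ _ a1).symm)⟩
    · rw [ValuationSubring.mem_comap, ← U.valuation_le_one_iff, map_div₀, map_div₀]
      exact div_le_one_of_le₀ hv zero_le
    · change j (c.1.1 / a.1.1) ∈ L
      rw [map_div₀]
      exact div_mem c.2 a.2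
  refine ⟨W, fun a ha => IntermediateField.subset_adjoin _ _
    (Finset.mem_coe.2 (Finset.mem_image_of_mem _ ha)), dvr_of_deg m ?_ ?_ ?_, ⟨fun a ha => ?_⟩⟩
  · intro a c a0 c0
    apply anti.injective
    have := hm _ (mul_ne_zero a0 c0)
    simp only [← this, pow_add, ← hm a a0, ← hm c c0, ← mul_pow, ← map_mul]
    rfl
  · intro a c a0 c0 hle
    refine h2 a c a0 ((pow_le_pow_iff_left₀ zero_le zero_le N0).1 ?_)
    rw [hm a a0, hm c c0]
    exact anti.antitone hle
  · let a : W := ⟨⟨b, by rw [ValuationSubring.mem_comap, hb]; exact h d⟩, by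
      change j b ∈ L
      rw [hb, IsScalarTower.algebraMap_apply D K E]
      exact L.algebraMap_mem _⟩
    have a0 : a ≠ 0 := fun e => b0 (congrArg (fun t : W => t.1.1) e)
    refine ⟨a, a0, fun e => ?_⟩
    have h1 := hm a a0
    rw [e, pow_zero] at h1
    have h3 : v (j b) < 1 := hb ▸ hl d hd
    exact (pow_lt_one₀ zero_le h3 N0).ne h1
  · obtain ⟨c, hc⟩ := ha.exists_right_inv
    have h1 : v (j a.1.1) * v (j c.1) = 1 := by
      rw [← map_mul, ← map_mul, show a.1.1 * c.1 = 1 from congrArg Subtype.val hc, map_one, map_one]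
    refine isUnit_of_dvd_one (h2 a 1 (fun e => ha.ne_zero (by rw [e, map_zero])) ?_)
    have h3 : v (j c.1) ≤ 1 := (U.valuation_le_one_iff _).2 c.2
    calc v (j 1) = v (j a.1.1) * v (j c.1) := by rw [h1, map_one, map_one]
      _ ≤ _ := mul_le_of_le_one_right' h3

end

/-- TRAIT, core: a point of `B⁺` whose restriction to `B` factors through a discrete valuation ring
is the centre of a trait. -/
theorem trait_core {B D P Ω k : Type} [CommRing B] [IsDomain B] [IsIntegrallyClosed B] [CommRing D]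
    [IsDomain D] [IsDiscreteValuationRing D] [Field Ω] [IsAlgClosed Ω] [Algebra B Ω]
    [FaithfulSMul B Ω] [Algebra.IsAlgebraic B Ω] [CommRing P] [Algebra B P] [Algebra P Ω]
    [IsScalarTower B P Ω] [IsIntegralClosure P B Ω] [Field k] [IsAlgClosed k] (φ : B →+* D)
    (hφ : Function.Injective φ) (ε : D →+* k) (hε : ∀ d, ε d = 0 ↔ d ∈ maximalIdeal D)
    (r : P →+* k) (hr : ∀ b, r (algebraMap B P b) = ε (φ b)) (b : B) (b0 : b ≠ 0)
    (hb : ε (φ b) = 0) :
    ∃ (V : ValuationSubring Ω) (ρ : V →+* k) (h : ∀ z : P, algebraMap P Ω z ∈ V),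
      Trait V ∧ Aic V ∧ (∀ x, ρ x = 0 ↔ x ∈ maximalIdeal V) ∧ ∀ z, ρ ⟨_, h z⟩ = r z := by
  let K := FractionRing D
  let E := AlgebraicClosure K
  obtain ⟨U, ρ, h, hρ, hd⟩ := val_ext K (E := E) ε hε
  let _ : Algebra B E := ((algebraMap D E).comp φ).toAlgebra
  have : FaithfulSMul B E := (faithfulSMul_iff_algebraMap_injective _ _).2
    (((algebraMap K E).injective.comp (IsFractionRing.injective D K)).comp hφ)
  have := IsIntegralClosure.isIntegral_algebra B Ω (A := P)
  have hU : ∀ (j : Ω →ₐ[B] E) (z : P), j (algebraMap P Ω z) ∈ U := fun j z => by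
    let _ : Algebra B U := (((algebraMap D E).codRestrict U.toSubring h).comp φ).toAlgebra
    have : IsScalarTower B U E := .of_algebraMap_eq fun _ => rfl
    obtain ⟨a, ha⟩ := IsIntegrallyClosed.isIntegral_iff.1
      ((((Algebra.IsIntegral.isIntegral (R := B) z).algebraMap (B := Ω)).map j).tower_top (A := U))
    exact ha ▸ a.2
  let j₀ : Ω →ₐ[B] E := IsAlgClosed.lift
  obtain ⟨g, hg⟩ := E65.trans (B := B) (Ω := Ω) r
    (ρ.comp ((j₀.toRingHom.comp (algebraMap P Ω)).codRestrict U.toSubring (hU j₀))) fun c => by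
      rw [hr, ← hd]
      refine congrArg ρ (Subtype.ext ?_)
      change _ = j₀ _
      rw [← IsScalarTower.algebraMap_apply, j₀.commutes]
      rfl
  let j := j₀.comp g.symm.toAlgHom
  let τ : U.comap j.toRingHom →+* U :=
    (j.toRingHom.comp (U.comap j.toRingHom).subtype).codRestrict U.toSubring fun x => x.2
  refine ⟨U.comap j.toRingHom, ρ.comp τ, hU j, trait_comap K U h (fun d hd' => ?_) _
    (algebraMap B Ω b) ((map_ne_zero_iff _ (FaithfulSMul.algebraMap_injective B Ω)).2 b0) (φ b)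
    ((hε _).1 hb) (j.commutes b), aic_val _, fun x => ?_, fun w => ?_⟩
  · exact (U.valuation_lt_one_iff ⟨_, h d⟩).1 ((hρ _).1 (by rw [hd, hε]; exact hd'))
  · rw [RingHom.comp_apply, hρ]
    refine ⟨fun hx hu => hx (hu.map τ), fun hx hu => hx ?_⟩
    obtain ⟨c, hc⟩ := hu.exists_right_inv
    have h1 : j x.1 * c.1 = 1 := congrArg Subtype.val hc
    have x0 : x.1 ≠ 0 := fun e => by simp [e] at h1
    refine .of_mul_eq_one ⟨x.1⁻¹, ?_⟩ (Subtype.ext (mul_inv_cancel₀ x0))
    change j x.1⁻¹ ∈ U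
    rw [map_inv₀, ← eq_inv_of_mul_eq_one_right h1]
    exact c.2
  · obtain ⟨z, hz⟩ := (IsIntegralClosure.isIntegral_iff (A := P)).1
      (((Algebra.IsIntegral.isIntegral (R := B) w).algebraMap (B := Ω)).map g.symm)
    rw [hg z w (by rw [hz, g.apply_symm_apply])]
    exact congrArg ρ (Subtype.ext (congrArg j₀ hz.symm))

theorem exists_indep {R D : Type} [CommRing R] [IsDomain R] [Countable R] [CommRing D] [IsDomain D]
    [Algebra R D] (hi : Function.Injective (algebraMap R D)) (ι : Type) [Finite ι] :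
    ∀ S : ι → Set D, (∀ i, ¬ (S i).Countable) →
      ∃ τ : ι → D, (∀ i, τ i ∈ S i) ∧ AlgebraicIndependent R τ := by
  induction ι using Finite.induction_empty_option with
  | of_equiv e ih =>
    intro S hS
    obtain ⟨τ, h1, h2⟩ := ih (S ∘ e) fun i => hS _
    exact ⟨τ ∘ e.symm, fun i => by simpa using h1 (e.symm i), h2.comp _ e.symm.injective⟩
  | h_empty => exact fun _ _ => ⟨PEmpty.elim, fun i => i.elim, algebraicIndependent_empty_type_iff.2 hi⟩
  | @h_option α _ ih =>
    intro S hS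
    obtain ⟨τ, h1, h2⟩ := ih (S ∘ some) fun i => hS _
    have : Countable (Algebra.adjoin R (Set.range τ)) := by
      have : Countable (MvPolynomial α R) := AddMonoidAlgebra.coeffEquiv.countable_iff.2 inferInstance
      exact h2.aevalEquiv.symm.injective.countable
    obtain ⟨a, ha, ht⟩ := Set.not_subset.1 fun h => hS none
      ((Algebraic.countable (Algebra.adjoin R (Set.range τ)) D).mono h)
    exact ⟨fun o => o.elim a τ, fun o => by cases o; exacts [ha, h1 _],
      (h2.option_iff_transcendental a).2 ht⟩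

/-- The polynomial ring `ℤ[1/N][t₁, …, t_d]`. -/
abbrev ZP (N d : ℕ) : Type := MvPolynomial (Fin d) (Localization.Away (N : ℤ))

theorem away_inj {N : ℕ} (hN : N ≠ 0) :
    Function.Injective (algebraMap ℤ (Localization.Away (N : ℤ))) :=
  IsLocalization.injective _ (powers_le_nonZeroDivisors_of_noZeroDivisors (Int.natCast_ne_zero.2 hN))

theorem zp_charZero {A : Type} [CommRing A] {N d : ℕ} (φ : ZP N d →+* A) (hN : N ≠ 0)
    (hφ : Function.Injective φ) : CharZero A :=
  charZero_of_injective_ringHom (f := (φ.comp MvPolynomial.C).comp (algebraMap ℤ _))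
    ((hφ.comp (MvPolynomial.C_injective _ _)).comp (away_inj hN))

theorem int_jac : IsJacobsonRing ℤ := by
  refine isJacobsonRing_iff_prime_eq.2 fun P hP => ?_
  by_cases h : P = ⊥
  · subst h
    refine eq_bot_iff.2 fun x hx => by_contra fun x0 => ?_
    obtain ⟨q, h1, h2⟩ := Nat.exists_infinite_primes (x.natAbs + 1)
    have h3 : x ∈ Ideal.span {(q : ℤ)} := Ideal.mem_sInf.1 hx ⟨bot_le,
      PrincipalIdealRing.isMaximal_of_irreducible (Nat.prime_iff_prime_int.1 h2).irreducible⟩
    have := Nat.le_of_dvd (Int.natAbs_pos.2 x0) (Int.natCast_dvd.1 (Ideal.mem_span_singleton.1 h3))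
    omega
  · have : P.IsMaximal := IsPrime.to_maximal_ideal h
    exact Ideal.jacobson_eq_self_of_isMaximal

theorem jac_of_ft (A : Type) [CommRing A] [Algebra.FiniteType ℤ A] : IsJacobsonRing A :=
  have := int_jac
  isJacobsonRing_of_finiteType (A := ℤ)

section

variable {A P Ω : Type} [CommRing A] [Field Ω] [IsAlgClosed Ω] [Algebra A Ω] [FaithfulSMul A Ω]
  [Algebra.IsAlgebraic A Ω] [CommRing P] [Algebra A P] [Algebra P Ω] [IsScalarTower A P Ω]
  [IsIntegralClosure P A Ω]

/-- TRAIT for a point of `A⁺` in characteristic `p`. -/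
theorem trait_zp {N d : ℕ} (φ : ZP N d →+* A) (hN : N ≠ 0) (hφ : Function.Injective φ)
    (hf : RingHom.IsIntegral (R := ZP N d) φ) {k : Type} [Field k] [IsAlgClosed k] (p : ℕ)
    [Fact p.Prime] [CharP k p] (r : P →+* k) :
    ∃ (V : ValuationSubring Ω) (ρ : V →+* k) (h : ∀ z : P, algebraMap P Ω z ∈ V),
      Trait V ∧ Aic V ∧ (∀ x, ρ x = 0 ↔ x ∈ maximalIdeal V) ∧ ∀ z, ρ ⟨_, h z⟩ = r z := by
  let R := Localization.Away (N : ℤ)
  let B := MvPolynomial (Fin d) R
  have hle := powers_le_nonZeroDivisors_of_noZeroDivisors (Int.natCast_ne_zero.2 hN)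
  have : IsDomain R := IsLocalization.isDomain_localization hle
  have : IsIntegrallyClosed R := isIntegrallyClosed_of_isLocalization _ _ hle
  have : IsIntegrallyClosed B := E65.mv_normal _ _
  have : CharZero R := charZero_of_injective_ringHom (away_inj hN)
  have : Countable R := (IsLocalization.mk'_surjective (Submonoid.powers (N : ℤ)) (S := R)).countable
  let _ : Algebra B A := φ.toAlgebra
  have : Algebra.IsIntegral B A := ⟨hf⟩
  have : IsDomain A := (FaithfulSMul.algebraMap_injective A Ω).isDomain _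
  let _ : Algebra B P := ((algebraMap A P).comp φ).toAlgebra
  let _ : Algebra B Ω := ((algebraMap A Ω).comp φ).toAlgebra
  have : IsScalarTower B A Ω := .of_algebraMap_eq fun _ => rfl
  have : IsScalarTower B P Ω := .of_algebraMap_eq fun _ => IsScalarTower.algebraMap_apply A P Ω _
  have : FaithfulSMul B Ω := (faithfulSMul_iff_algebraMap_injective _ _).2
    ((FaithfulSMul.algebraMap_injective A Ω).comp hφ)
  have : Algebra.IsAlgebraic B Ω := .trans B A Ω
  have : IsIntegralClosure P B Ω := ⟨IsIntegralClosure.algebraMap_injective P A Ω, fun {x} =>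
    (⟨fun h => h.tower_top, isIntegral_trans x⟩ : IsIntegral B x ↔ IsIntegral A x).trans
      IsIntegralClosure.isIntegral_iff⟩
  let r₀ : B →+* k := r.comp (algebraMap B P)
  have hu : IsUnit (algebraMap ℤ (WittVector p k) N) := by
    refine WittVector.isUnit_of_coeff_zero_ne_zero _ ?_
    have := ((IsLocalization.Away.algebraMap_isUnit (S := R) (N : ℤ)).map
      (r₀.comp MvPolynomial.C)).ne_zero
    change WittVector.constantCoeff _ ≠ 0
    simpa using this
  let _ : Algebra R (WittVector p k) := (IsLocalization.Away.lift (N : ℤ) hu).toAlgebra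
  have p0 : (p : WittVector p k) ≠ 0 := (WittVector.irreducible p).ne_zero
  have : CharZero (WittVector p k) := by
    obtain ⟨q, hq⟩ := CharP.exists (WittVector p k)
    rcases CharP.char_is_prime_or_zero (WittVector p k) q with h | rfl
    · have h1 : (q : k) = 0 := by
        rw [← map_natCast (WittVector.constantCoeff (p := p)), CharP.cast_eq_zero, map_zero]
      rw [CharP.cast_eq_zero_iff k p, Nat.prime_dvd_prime_iff_eq Fact.out h] at h1
      subst h1
      exact (p0 (CharP.cast_eq_zero (WittVector p k) p)).elim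
    · exact CharP.charP_to_charZero _
  obtain ⟨τ, h1, h2⟩ := exists_indep (R := R) (D := WittVector p k)
    ((IsLocalization.injective_iff_map_algebraMap_eq (Submonoid.powers (N : ℤ)) _).2 fun x y => by
      simp) (Fin d) (fun i => {x | x.coeff 0 = r₀ (MvPolynomial.X i)}) fun i hc => by
      obtain ⟨g, hg⟩ := hc.exists_eq_range ⟨WittVector.mk p fun _ => r₀ (MvPolynomial.X i), rfl⟩
      choose c hc using fun n => exists_ne ((g n).coeff (n + 1))
      obtain ⟨n, hn⟩ : WittVector.mk p (fun n => n.casesOn (r₀ (MvPolynomial.X i)) c) ∈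
        Set.range g := hg ▸ rfl
      exact hc n (congrArg (·.coeff (n + 1)) hn).symm
  refine trait_core (B := B) (MvPolynomial.aeval (R := R) τ).toRingHom
    (algebraicIndependent_iff_injective_aeval.1 h2) WittVector.constantCoeff
    (fun x => ⟨fun h hx => (hx.map WittVector.constantCoeff).ne_zero h, fun h =>
      by_contra fun e => h (WittVector.isUnit_of_coeff_zero_ne_zero _ e)⟩) r (fun b => ?_) p
    (Nat.cast_ne_zero.2 (Fact.out : p.Prime).ne_zero) (by simp)
  have : r₀ = WittVector.constantCoeff.comp (MvPolynomial.aeval (R := R) τ).toRingHom :=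
    MvPolynomial.ringHom_ext' (IsLocalization.ringHom_ext (Submonoid.powers (N : ℤ))
      (Subsingleton.elim _ _)) fun i => by simpa using (h1 i).symm
  exact RingHom.congr_fun this b

/-- TRAIT for a maximal ideal of `A⁺`. -/
theorem trait_zp_max [Algebra.FiniteType ℤ A] {N d : ℕ} (φ : ZP N d →+* A) (hN : N ≠ 0)
    (hφ : Function.Injective φ) (hf : RingHom.IsIntegral (R := ZP N d) φ) (m : Ideal P)
    [m.IsMaximal] :
    ∃ (V : ValuationSubring Ω) (h : ∀ z : P, algebraMap P Ω z ∈ V), Trait V ∧ Aic V ∧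
      (∀ z, z ∈ m ↔ (⟨_, h z⟩ : V) ∈ maximalIdeal V) ∧
      ∀ x : V, ∃ z, x - ⟨_, h z⟩ ∈ maximalIdeal V := by
  let _ := Ideal.Quotient.field m
  have := IsIntegralClosure.isIntegral_algebra A Ω (A := P)
  have : IsAlgClosed (P ⧸ m) := .of_exists_root _ fun q hq hi => by
    obtain ⟨q, rfl, -, hm⟩ := lifts_and_natDegree_eq_and_monic
      (mem_lifts_of_surjective Ideal.Quotient.mk_surjective q) hq
    exact ((E65.ic_splits (B := A) (Ω := Ω) q hm).map _).exists_eval_eq_zero hi.degree_pos.ne'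
  have := int_jac
  have : (m.comap (algebraMap A P)).IsMaximal := Ideal.isMaximal_comap_of_isIntegral_of_isMaximal m
  let _ := Ideal.Quotient.field (m.comap (algebraMap A P))
  have : Module.Finite ℤ (A ⧸ m.comap (algebraMap A P)) := finite_of_finite_type_of_isJacobsonRing _ _
  obtain ⟨p, hp⟩ := CharP.exists (A ⧸ m.comap (algebraMap A P))
  have : Fact p.Prime := ⟨(CharP.char_is_prime_or_zero (A ⧸ m.comap (algebraMap A P)) p).resolve_right
    fun e => by
    subst e
    have := CharP.charP_to_charZero (A ⧸ m.comap (algebraMap A P))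
    exact Int.not_isField (isField_of_isIntegral_of_isField
      (S := A ⧸ m.comap (algebraMap A P)) (RingHom.injective_int _) (Field.toIsField _))⟩
  have : CharP (P ⧸ m) p := charP_of_injective_ringHom
    (Ideal.quotientMap_injective (I := m) (f := algebraMap A P)) p
  obtain ⟨V, ρ, h, h1, h2, h3, h4⟩ := trait_zp (Ω := Ω) φ hN hφ hf p (Ideal.Quotient.mk m)
  refine ⟨V, h, h1, h2, fun z => by rw [← h3, h4, Ideal.Quotient.eq_zero_iff_mem], fun x => ?_⟩
  obtain ⟨z, hz⟩ := Ideal.Quotient.mk_surjective (ρ x)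
  exact ⟨z, by rw [← h3, map_sub, h4, hz, sub_self]⟩

/-- TRAIT over a Dedekind domain (curves). -/
theorem trait_dedekind [IsDedekindDomain A] {k : Type} [Field k] [IsAlgClosed k] (r : P →+* k)
    (b : A) (b0 : b ≠ 0) (hb : r (algebraMap A P b) = 0) :
    ∃ (V : ValuationSubring Ω) (ρ : V →+* k) (h : ∀ z : P, algebraMap P Ω z ∈ V),
      Trait V ∧ Aic V ∧ (∀ x, ρ x = 0 ↔ x ∈ maximalIdeal V) ∧ ∀ z, ρ ⟨_, h z⟩ = r z := by
  let q := RingHom.ker (r.comp (algebraMap A P))
  have : q.IsPrime := RingHom.ker_isPrime _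
  have := IsLocalization.AtPrime.isDiscreteValuationRing_of_dedekind_domain A
    ((Submodule.ne_bot_iff q).2 ⟨b, hb, b0⟩) (Localization.AtPrime q)
  have hu : ∀ y : q.primeCompl, IsUnit (r.comp (algebraMap A P) y) := fun y => Ne.isUnit y.2
  have he := IsLocalization.lift_eq (S := Localization.AtPrime q) hu
  refine trait_core (algebraMap A (Localization.AtPrime q))
    (IsLocalization.injective _ q.primeCompl_le_nonZeroDivisors) (IsLocalization.lift hu)
    (fun x => ?_) r (fun c => (he c).symm) b b0 ((he b).trans hb)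
  obtain ⟨⟨a, s⟩, rfl⟩ := IsLocalization.mk'_surjective q.primeCompl x
  rw [IsLocalization.AtPrime.mk'_mem_maximal_iff _ q, IsLocalization.lift_mk'_spec, mul_zero]
  rfl

end

end Pool.Agent.MP_855f4c_ag.E3

end
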