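import Pool.Agent.MP_855f4c_ag.EC.Xa
import Pool.Agent.MP_855f4c_ag.EC.E4a
import Pool.Agent.MP_855f4c_ag.EC.Sa
import Pool.Agent.MP_855f4c_ag.EC.Pa
import Pool.Agent.MP_855f4c_ag.EC.E65a

section

/-! Section S, the abstract Zorn argument (reduction of local acyclicity to valuation rings). -/

set_option autoImplicit false

namespace Pool.Agent.MP_855f4c_ag.E

universe v

variable {L : Type} [Field L]

/-- integral closure in `L` of the ring generated by `B` and `S` -/
def icl (B : Subring L) (S : Set L) : Subring L :=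
  (integralClosure (Subring.closure ((B : Set L) ∪ S)) L).toSubring

/-- subrings over `C` that are integrally closed in `L` -/
def ZGood (C B : Subring L) : Prop := C ≤ B ∧ ∀ x : L, IsIntegral B x → x ∈ B

lemma mem_icl {B : Subring L} {S : Set L} {x : L} :
    x ∈ icl B S ↔ IsIntegral (Subring.closure ((B : Set L) ∪ S)) x := Iff.rfl

lemma closure_le_icl (B : Subring L) (S : Set L) :
    Subring.closure ((B : Set L) ∪ S) ≤ icl B S := fun x hx =>
  mem_icl.2 (isIntegral_algebraMap (x := (⟨x, hx⟩ : Subring.closure ((B : Set L) ∪ S))))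

lemma isIntegral_of_le {R R' : Subring L} (h : R ≤ R') {x : L} (hx : IsIntegral R x) :
    IsIntegral R' x := by
  obtain ⟨p, hp, hx⟩ := hx
  refine ⟨p.map (Subring.inclusion h), hp.map _, ?_⟩
  rw [Polynomial.eval₂_map]
  exact hx

lemma le_icl (B : Subring L) (S : Set L) : B ≤ icl B S := fun _ hx =>
  closure_le_icl B S (Subring.subset_closure (Or.inl hx))

lemma subset_icl (B : Subring L) (S : Set L) : S ⊆ icl B S := fun _ hx =>
  closure_le_icl B S (Subring.subset_closure (Or.inr hx))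

lemma icl_mono (B : Subring L) {S S' : Set L} (h : S ⊆ S') : icl B S ≤ icl B S' :=
  fun _ hx => mem_icl.2 (isIntegral_of_le
    (Subring.closure_mono (Set.union_subset_union_right _ h)) (mem_icl.1 hx))

lemma icl_good {C B : Subring L} (h : C ≤ B) (S : Set L) : ZGood C (icl B S) := by
  refine ⟨h.trans (le_icl B S), fun x hx => mem_icl.2 ?_⟩
  have hx' : IsIntegral (integralClosure (Subring.closure ((B : Set L) ∪ S)) L) x := hx
  exact isIntegral_trans x hx'

lemma icl_l (B : Subring L) (t : L) : icl B {t} ≤ icl B {t, t⁻¹} := icl_mono B (by simp)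

lemma icl_r (B : Subring L) (t : L) : icl B {t⁻¹} ≤ icl B {t, t⁻¹} := icl_mono B (by simp)

lemma away_aux {R₀ R : Subring L} (hle : R₀ ≤ R) {t : L} (ht : t ≠ 0) (ht₀ : t ∈ R₀)
    (hti : t⁻¹ ∈ R) (key : ∀ y ∈ R, ∃ n : ℕ, t ^ n * y ∈ R₀) {z : L} (hz : IsIntegral R z) :
    ∃ n : ℕ, IsIntegral R₀ (t ^ n * z) := by
  let _ : Algebra R₀ R := (Subring.inclusion hle).toAlgebra
  have hal : ∀ x : R₀, ((algebraMap R₀ R x : R) : L) = x := fun _ => rfl
  have _ : IsScalarTower R₀ R L := IsScalarTower.of_algebraMap_eq fun x => (hal x).symm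
  have _ : IsLocalization (Submonoid.powers (⟨t, ht₀⟩ : R₀)) R := by
    refine ⟨?_, ?_, ?_⟩
    · rintro ⟨_, n, rfl⟩
      simp only [map_pow]
      refine IsUnit.pow n (IsUnit.of_mul_eq_one (⟨t⁻¹, hti⟩ : R) (Subtype.ext ?_))
      rw [Subring.coe_mul, hal]
      exact mul_inv_cancel₀ ht
    · rintro ⟨y, hy⟩
      obtain ⟨n, hn⟩ := key y hy
      refine ⟨(⟨_, hn⟩, ⟨⟨t, ht₀⟩ ^ n, n, rfl⟩), Subtype.ext ?_⟩
      rw [Subring.coe_mul, hal, hal, mul_comm, SubmonoidClass.coe_pow]
    · intro x y hxy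
      refine ⟨1, ?_⟩
      have h1 : (x : L) = y := by rw [← hal, ← hal, hxy]
      rw [Subtype.ext h1]
  obtain ⟨⟨_, n, rfl⟩, hm⟩ :=
    IsIntegral.exists_multiple_integral_of_isLocalization (Submonoid.powers (⟨t, ht₀⟩ : R₀))
      (Rₘ := R) z hz
  refine ⟨n, ?_⟩
  rw [Submonoid.smul_def, Algebra.smul_def, map_pow] at hm
  exact hm

/-- every element of the overlap ring is a fraction with denominator a power of `t` -/
lemma icl_away {B : Subring L} {t : L} (ht : t ≠ 0) {z : L} (hz : z ∈ icl B {t, t⁻¹}) :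
    ∃ n : ℕ, t ^ n * z ∈ icl B {t} := by
  have ht₀ : t ∈ Subring.closure ((B : Set L) ∪ {t}) := Subring.subset_closure (Or.inr rfl)
  have hB : ∀ x ∈ B, x ∈ Subring.closure ((B : Set L) ∪ {t}) := fun x hx =>
    Subring.subset_closure (Or.inl hx)
  refine away_aux (R := Subring.closure ((B : Set L) ∪ {t, t⁻¹}))
    (Subring.closure_mono (Set.union_subset_union_right _ (by simp))) ht ht₀
    (Subring.subset_closure (Or.inr (by simp))) ?_ (mem_icl.1 hz)
  generalize Subring.closure ((B : Set L) ∪ {t}) = R₀ at ht₀ hB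
  intro y hy
  induction hy using Subring.closure_induction with
  | mem x hx =>
    rcases hx with hx | hx | hx
    · exact ⟨0, by rw [pow_zero, one_mul]; exact hB x hx⟩
    · exact ⟨0, by rw [pow_zero, one_mul, hx]; exact ht₀⟩
    · refine ⟨1, ?_⟩
      rw [Set.mem_singleton_iff.1 hx, pow_one, mul_inv_cancel₀ ht]
      exact R₀.one_mem
  | zero => exact ⟨0, by simp⟩
  | one => exact ⟨0, by simp⟩
  | add x y _ _ hx hy =>
    obtain ⟨m, hm⟩ := hx
    obtain ⟨n, hn⟩ := hy
    refine ⟨m + n, ?_⟩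
    have e : t ^ (m + n) * (x + y) = t ^ n * (t ^ m * x) + t ^ m * (t ^ n * y) := by ring
    rw [e]
    exact R₀.add_mem (R₀.mul_mem (R₀.pow_mem ht₀ _) hm) (R₀.mul_mem (R₀.pow_mem ht₀ _) hn)
  | neg x _ hx =>
    obtain ⟨m, hm⟩ := hx
    exact ⟨m, by rw [mul_neg]; exact R₀.neg_mem hm⟩
  | mul x y _ _ hx hy =>
    obtain ⟨m, hm⟩ := hx
    obtain ⟨n, hn⟩ := hy
    refine ⟨m + n, ?_⟩
    have e : t ^ (m + n) * (x * y) = (t ^ m * x) * (t ^ n * y) := by ring
    rw [e]
    exact R₀.mul_mem hm hn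

lemma zgood_sSup {C : Subring L} {𝒮 : Set (Subring L)} (hne : 𝒮.Nonempty)
    (hd : DirectedOn (· ≤ ·) 𝒮) (hg : ∀ B ∈ 𝒮, ZGood C B) : ZGood C (sSup 𝒮) := by
  classical
  obtain ⟨B₀, hB₀⟩ := hne
  refine ⟨(hg B₀ hB₀).1.trans (le_sSup hB₀), fun x hx => ?_⟩
  obtain ⟨p, hp, hx⟩ := hx
  have fin : ∀ s : Finset L, (∀ a ∈ s, a ∈ sSup 𝒮) → ∃ B ∈ 𝒮, ∀ a ∈ s, a ∈ B := by
    intro s
    induction s using Finset.induction_on with
    | empty => exact fun _ => ⟨B₀, hB₀, by simp⟩
    | insert a s _ ih =>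
      intro h
      obtain ⟨B₁, hB₁, h₁⟩ := ih fun b hb => h b (Finset.mem_insert_of_mem hb)
      obtain ⟨B₂, hB₂, h₂⟩ := (Subring.mem_sSup_of_directedOn ⟨B₀, hB₀⟩ hd).1
        (h a (Finset.mem_insert_self _ _))
      obtain ⟨B₃, hB₃, h₁₃, h₂₃⟩ := hd B₁ hB₁ B₂ hB₂
      refine ⟨B₃, hB₃, fun b hb => ?_⟩
      rcases Finset.mem_insert.1 hb with rfl | hb
      · exact h₂₃ h₂
      · exact h₁₃ (h₁ b hb)
  set P : Polynomial L := p.map (sSup 𝒮).subtype with hP
  obtain ⟨B, hB, hc⟩ := fin (P.support.image P.coeff) (by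
    intro a ha
    obtain ⟨i, -, rfl⟩ := Finset.mem_image.1 ha
    rw [hP, Polynomial.coeff_map]
    exact (p.coeff i).2)
  have hPm : P.Monic := hp.map _
  have hl : P ∈ Polynomial.lifts B.subtype := by
    rw [Polynomial.lifts_iff_coeff_lifts]
    intro i
    by_cases hi : i ∈ P.support
    · exact ⟨⟨_, hc _ (Finset.mem_image_of_mem _ hi)⟩, rfl⟩
    · exact ⟨0, by rw [Polynomial.notMem_support_iff.1 hi]; rfl⟩
  obtain ⟨p', hp', -, hm'⟩ := Polynomial.lifts_and_degree_eq_and_monic hl hPm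
  refine le_sSup hB ((hg B hB).2 x ⟨p', hm', ?_⟩)
  have e : Polynomial.eval₂ (algebraMap B L) x p' = P.eval x := by
    rw [← hp', Polynomial.eval_map]
    rfl
  rw [e, hP, Polynomial.eval_map]
  exact hx

/-- Zorn: a property of good rings over `B` that passes to directed unions and to one of the two
charts of every blow-up holds for a valuation ring. -/
lemma zorn_val (C : Subring L) (Q : Subring L → Prop) (B : Subring L) (hB : ZGood C B) (hQ : Q B)
    (hlim : ∀ 𝒮 : Set (Subring L), 𝒮.Nonempty → DirectedOn (· ≤ ·) 𝒮 →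
      (∀ B' ∈ 𝒮, ZGood C B' ∧ Q B') → Q (sSup 𝒮))
    (hstep : ∀ M, ZGood C M → Q M → ∀ t : L, t ≠ 0 → Q (icl M {t}) ∨ Q (icl M {t⁻¹})) :
    ∃ V, ZGood C V ∧ Q V ∧ ∀ t : L, t ∈ V ∨ t⁻¹ ∈ V := by
  obtain ⟨M, -, hM⟩ := zorn_le_nonempty₀ {B' | ZGood C B' ∧ Q B'} (by
    intro c hc hch y hy
    refine ⟨sSup c, ⟨zgood_sSup ⟨y, hy⟩ hch.directedOn fun B' h => (hc h).1,
      hlim c ⟨y, hy⟩ hch.directedOn fun B' h => hc h⟩, fun z hz => le_sSup hz⟩) B ⟨hB, hQ⟩
  refine ⟨M, hM.1.1, hM.1.2, fun t => ?_⟩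
  by_cases ht : t = 0
  · exact Or.inl (ht ▸ M.zero_mem)
  rcases hstep M hM.1.1 hM.1.2 t ht with h | h
  · exact Or.inl (hM.2 ⟨icl_good hM.1.1.1 _, h⟩ (le_icl M _) (subset_icl M _ rfl))
  · exact Or.inr (hM.2 ⟨icl_good hM.1.1.1 _, h⟩ (le_icl M _) (subset_icl M _ rfl))

/-- Plan: induction on `q` for `P q`: bijective in degrees `< q`, injective in degree `q`, for all
good `B`. Surjectivity in degree `q`: Zorn on the good `B' ≥ B` over which `η` does not lift
(`lim1`); a maximal one contains `t` or `t⁻¹` (`mv1` and injectivity for `icl B' {t,t⁻¹}`), `val`.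
Injectivity in degree `q+1` (and `0`): Zorn on the good `B' ≥ B` on which `ξ` survives (`lim2`,
`mv2` with surjectivity for `icl B' {t}` and injectivity for `icl B' {t,t⁻¹}` in degree `q`). -/
theorem zorn_la (C : Subring L) (H : ℕ → Subring L → Type v) [∀ q B, AddCommGroup (H q B)]
    (r : ∀ (q : ℕ) {B B' : Subring L}, B ≤ B' → H q B →+ H q B')
    (r_comp : ∀ q {B B' B'' : Subring L} (h : B ≤ B') (h' : B' ≤ B'') (x : H q B),
      r q h' (r q h x) = r q (h.trans h') x)
    (lim1 : ∀ q (𝒮 : Set (Subring L)), 𝒮.Nonempty → DirectedOn (· ≤ ·) 𝒮 → (∀ B ∈ 𝒮, C ≤ B) →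
      ∀ y : H q (sSup 𝒮), ∃ (B : Subring L) (hB : B ∈ 𝒮) (x : H q B), r q (le_sSup hB) x = y)
    (lim2 : ∀ q (𝒮 : Set (Subring L)), DirectedOn (· ≤ ·) 𝒮 → (∀ B ∈ 𝒮, C ≤ B) →
      ∀ (B : Subring L) (hB : B ∈ 𝒮) (x : H q B), r q (le_sSup hB) x = 0 →
        ∃ B' ∈ 𝒮, ∃ h : B ≤ B', r q h x = 0)
    (mv0 : ∀ B, ZGood C B → ∀ t : L, t ≠ 0 → ∀ x : H 0 B, r 0 (le_icl B {t}) x = 0 →
      r 0 (le_icl B {t⁻¹}) x = 0 → x = 0)
    (mv1 : ∀ q B, ZGood C B → ∀ t : L, t ≠ 0 → ∀ (z₀ : H q (icl B {t})) (z₁ : H q (icl B {t⁻¹})),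
      r q (icl_l B t) z₀ = r q (icl_r B t) z₁ →
        ∃ z : H q B, r q (le_icl B {t}) z = z₀ ∧ r q (le_icl B {t⁻¹}) z = z₁)
    (mv2 : ∀ q B, ZGood C B → ∀ t : L, t ≠ 0 → Function.Surjective (r q (icl_l B t)) →
      ∀ x : H (q + 1) B, r (q + 1) (le_icl B {t}) x = 0 → r (q + 1) (le_icl B {t⁻¹}) x = 0 → x = 0)
    (val : ∀ q V, ZGood C V → (∀ t : L, t ∈ V ∨ t⁻¹ ∈ V) →
      Function.Bijective (r q (le_top : V ≤ ⊤)))
    (q : ℕ) (B : Subring L) (hB : ZGood C B) : Function.Bijective (r q (le_top : B ≤ ⊤)) := by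
  have surj : ∀ q, (∀ B, ZGood C B → Function.Injective (r q (le_top : B ≤ ⊤))) →
      ∀ B, ZGood C B → Function.Surjective (r q (le_top : B ≤ ⊤)) := by
    intro q hinj B hB η
    by_contra hη
    obtain ⟨V, hV, hQ, hval⟩ := zorn_val C (fun B' => ¬ ∃ x, r q (le_top : B' ≤ ⊤) x = η) B hB hη
      (by
        rintro 𝒮 hne hd hS ⟨y, hy⟩
        obtain ⟨B', hB', x, rfl⟩ := lim1 q 𝒮 hne hd (fun B' h => (hS B' h).1.1) y
        exact (hS B' hB').2 ⟨x, by rw [← hy, r_comp]⟩)
      (by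
        intro M hM hQ t ht
        by_contra hcon
        rw [not_or, not_not, not_not] at hcon
        obtain ⟨⟨z₀, h₀⟩, ⟨z₁, h₁⟩⟩ := hcon
        obtain ⟨z, hz, -⟩ := mv1 q M hM t ht z₀ z₁ (hinj _ (icl_good hM.1 _) (by
          rw [r_comp, r_comp]
          exact h₀.trans h₁.symm))
        exact hQ ⟨z, by rw [← h₀, ← hz, r_comp]⟩)
    exact hQ ((val q V hV hval).2 η)
  have inj : ∀ q, (∀ B, ZGood C B → ∀ t : L, t ≠ 0 → ∀ x : H q B, r q (le_icl B {t}) x = 0 →
      r q (le_icl B {t⁻¹}) x = 0 → x = 0) →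
      ∀ B, ZGood C B → Function.Injective (r q (le_top : B ≤ ⊤)) := by
    intro q hmv B hB
    rw [injective_iff_map_eq_zero]
    intro ξ hξ
    by_contra hne
    have h0 : r q (le_refl B) ξ ≠ 0 := fun h => hne (hmv B hB 1 one_ne_zero ξ
      (by rw [← r_comp q (le_refl B) (le_icl B _), h, map_zero])
      (by rw [← r_comp q (le_refl B) (le_icl B _), h, map_zero]))
    obtain ⟨V, hV, ⟨hBV, hQ⟩, hval⟩ := zorn_val C (fun B' => ∃ h : B ≤ B', r q h ξ ≠ 0) B hB
      ⟨le_refl B, h0⟩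
      (by
        rintro 𝒮 ⟨B₁, hB₁⟩ hd hS
        obtain ⟨h₁, -⟩ := (hS B₁ hB₁).2
        refine ⟨h₁.trans (le_sSup hB₁), fun h => ?_⟩
        obtain ⟨B', hB', h', hx⟩ := lim2 q 𝒮 hd (fun B' h => (hS B' h).1.1) B₁ hB₁ (r q h₁ ξ)
          (by rw [r_comp]; exact h)
        obtain ⟨h₂, hne₂⟩ := (hS B' hB').2
        rw [r_comp] at hx
        exact hne₂ hx)
      (by
        rintro M hM ⟨hBM, hQ⟩ t ht
        by_contra hcon
        rw [not_or] at hcon
        refine hQ (hmv M hM t ht _ ?_ ?_)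
        · rw [r_comp]
          by_contra h
          exact hcon.1 ⟨_, h⟩
        · rw [r_comp]
          by_contra h
          exact hcon.2 ⟨_, h⟩)
    refine hQ ((val q V hV hval).1 ?_)
    rw [r_comp, map_zero]
    exact hξ
  have main : ∀ q B, ZGood C B → Function.Injective (r q (le_top : B ≤ ⊤)) := by
    intro q
    induction q with
    | zero => exact inj 0 mv0
    | succ q ih =>
      refine inj (q + 1) fun B hB t ht => mv2 q B hB t ht fun y => ?_
      obtain ⟨z, hz⟩ := surj q ih _ (icl_good hB.1 {t}) (r q le_top y)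
      exact ⟨z, ih _ (icl_good hB.1 _) (by rw [r_comp]; exact hz)⟩
  exact ⟨main q B hB, surj q (main q) B hB⟩

end Pool.Agent.MP_855f4c_ag.E

end

section

/-! Section S (local acyclicity): definitions and row statements. -/

set_option autoImplicit false
set_option backward.isDefEq.respectTransparency false

open CategoryTheory Limits Abelian Opposite AlgebraicGeometry Polynomial IsLocalRing TensorProduct
open Function

namespace Pool.Agent.MP_855f4c_ag.E.SA

open E3 E4

section defs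
variable {X : Scheme.{0}}

/-- Restriction is bijective in degrees below `N` and injective in degree `N`. -/
def Con {T' T : Over X} (g : T' ⟶ T) (F : Sh (Scheme.etaleTopology.over X)) (N : ℕ) : Prop :=
  (∀ q < N, Bijective (res g F q)) ∧ Injective (res g F N)

/-- Restriction is bijective in all degrees. -/
def HB {T' T : Over X} (g : T' ⟶ T) (F : Sh (Scheme.etaleTopology.over X)) : Prop := ∀ q, Bijective (res g F q)

/-- `ℤ/l`. -/
abbrev ZM (l : ℕ) : Ab.{1} := AddCommGrpCat.uliftFunctor.{1}.obj (.of (ZMod l))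

/-- The structure arrow. -/
noncomputable def tp {T' T : Scheme.{0}} (g : T' ⟶ T) : Over.mk g ⟶ top T := Over.homMk g

/-- `g` induces bijections on cohomology with constant coefficients `M`. -/
def AB (M : Ab.{1}) {T' T : Scheme.{0}} (g : T' ⟶ T) : Prop := HB (tp g) ((cst T).obj M)

/-- `A'` is the generic fibre of the `C`-algebra `A`. -/
abbrev Gen (C A A' : Type) [CommRing C] [CommRing A] [CommRing A'] [Algebra C A] [Algebra A A'] :
    Prop := IsLocalization (Algebra.algebraMapSubmonoid A (nonZeroDivisors C)) A'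

/-- `O` is a germ of the affine line over `V` with coordinate `x`. -/
def GermAt (V : Type) {O : Type} [CommRing V] [IsLocalRing V] [CommRing O] [Algebra V O] (x : O) :
    Prop := @Germ V O _ _ _ (aeval x : V[X] →ₐ[V] O).toRingHom.toAlgebra

/-- `F` vanishes at the geometric points of `g = 0` and is lisse on `g ≠ 0`. -/
def Loc (l : ℕ) (F : Sh (Scheme.etaleTopology.over X)) {O : Type} [CommRing O] (u : Spec (.of O) ⟶ X) (g : O) : Prop :=
  Tc l F ∧ (∀ (k : Type) [Field k] [IsAlgClosed k] [Algebra O k], algebraMap O k g = 0 →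
    ∀ s : sec F (ob u k), s = 0) ∧ Lis l F.obj (ob u (Localization.Away g))

/-- A scheme with two affine charts. -/
def Two (B₁ B₂ C : Type) {B : Type} [CommRing B] [CommRing B₁] [CommRing B₂] [CommRing C]
    [Algebra B B₁] [Algebra B B₂] [Algebra B₁ C] [Algebra B₂ C] {Y : Scheme.{0}}
    (y : Y ⟶ Spec (.of B)) (ι₁ : Spec (.of B₁) ⟶ Y) (ι₂ : Spec (.of B₂) ⟶ Y) : Prop :=
  IsOpenImmersion ι₁ ∧ IsOpenImmersion ι₂ ∧ (∀ z : Y, z ∈ Set.range ι₁ ∨ z ∈ Set.range ι₂) ∧
    IsPullback (spc (algebraMap B₁ C)) (spc (algebraMap B₂ C)) ι₁ ι₂ ∧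
    ι₁ ≫ y = spc (algebraMap B B₁) ∧ ι₂ ≫ y = spc (algebraMap B B₂)

section
variable (C A : Type) {L : Type} [CommRing C] [CommRing A] [Algebra C A] [Field L] [Algebra C L]

/-- The algebra generated by a subring. -/
def sub (B : Subring L) : Subalgebra C L := Algebra.adjoin C (B : Set L)

/-- Base change of `A` to a subring. -/
abbrev TB (B : Subring L) : Type := A ⊗[C] sub C B

/-- The transition maps. -/
noncomputable def rB {B B' : Subring L} (h : B ≤ B') : TB C A B →ₐ[A] TB C A B' :=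
  Algebra.TensorProduct.map (AlgHom.id A A) (Subalgebra.inclusion (Algebra.adjoin_mono h))

/-- The transition maps on cohomology. -/
noncomputable abbrev rH (u : Spec (.of A) ⟶ X) (F : Sh (Scheme.etaleTopology.over X)) (q : ℕ) {B B' : Subring L}
    (h : B ≤ B') : H (ob u (TB C A B)) F q →+ H (ob u (TB C A B')) F q :=
  res (hm u (rB C A h)) F q
end

/-- Approximate roots lie near roots, over all aic local domains. -/
def Sec {C : Type} [CommRing C] (h : C[X]) : Prop :=
  ∀ (C' : Type) [CommRing C'] [IsDomain C'] [IsLocalRing C'] (φ : C →+* C'), Aic C' →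
    ∀ a : C', ¬ IsUnit (h.eval₂ φ a) → ∃ a', h.eval₂ φ a' = 0 ∧ ¬ IsUnit (a - a')

/-- Approximate roots lie near simple roots. -/
def Sec1 {V : Type} [CommRing V] (h : V[X]) : Prop :=
  ∀ a : V, ¬ IsUnit (h.eval a) →
    ∃ (a' : V) (g : V[X]), h = (Polynomial.X - C a') * g ∧ IsUnit (g.eval a') ∧ ¬ IsUnit (a - a')

/-- The first chart over `φ`. -/
noncomputable abbrev u₁ {A C : Type} [CommRing A] [CommRing C] (L : PL (Spec (.of A)))
    (φ : A →+* C) (D : Type) [CommRing D] [Algebra C[X] D] : Spec (.of D) ⟶ L.P :=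
  L.pnt (spc ((algebraMap C[X] D).comp (Polynomial.C.comp φ))) (pt1 (algebraMap C[X] D Polynomial.X))

/-- The second chart over `φ`. -/
noncomputable abbrev u₂ {A C : Type} [CommRing A] [CommRing C] (L : PL (Spec (.of A)))
    (φ : A →+* C) (D : Type) [CommRing D] [Algebra C[X] D] : Spec (.of D) ⟶ L.P :=
  L.pnt (spc ((algebraMap C[X] D).comp (Polynomial.C.comp φ))) (pt2 (algebraMap C[X] D Polynomial.X))

end defs

/-! ### Statements taken from other sections -/

/-- Section C: Kummer theory and `cd ≤ 1` for principal ideal domains over a curve. -/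
def PIDV_s : Prop := ∀ (l : ℕ) [Fact l.Prime] (X : Scheme.{0}) (L B : Type) [Field L]
  [IsAlgClosed L] [CommRing B] [IsDomain B] [IsPrincipalIdealRing B] [Algebra L B] [Algebra L[X] B]
  [IsScalarTower L L[X] B] [FaithfulSMul L[X] B] [Algebra.IsAlgebraic L[X] B]
  (t : Spec (.of B) ⟶ X), (l : L) ≠ 0 →
    (∀ n : Ideal B, n.IsMaximal → n ≠ ⊥ → Bijective (algebraMap L (B ⧸ n))) →
    (∀ v : B, IsUnit v → ∃ w : B, w ^ l = v) →
    ∀ (q : ℕ) (x : H (Over.mk t) ((cst X).obj (ZM l)) (q + 1)), x = 0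

/-- Section F3: traits through the closed points of a nice ring. -/
def TRT_s : Prop := ∀ (A Ω : Type) [CommRing A] [Field Ω] [IsAlgClosed Ω] [Algebra A Ω]
  [FaithfulSMul A Ω] [Algebra.IsAlgebraic A Ω], Nice A →
    ∀ P : Ideal (integralClosure A Ω), P.IsMaximal → ∃ V : ValuationSubring Ω, Trait V ∧
      ∃ h : ∀ z : integralClosure A Ω, (z : Ω) ∈ V, ∀ z, z ∈ P ↔ ¬ IsUnit (⟨z, h z⟩ : V)

/-! ### Rows -/

/-- Local to global. -/
def LTG_s : Prop := ∀ (X : Scheme.{0}) (F : Sh (Scheme.etaleTopology.over X)), LFP F.obj →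
  ∀ (A : Type) [CommRing A] (u : Spec (.of A) ⟶ X) (W : Over X) (p : W ⟶ ob u A),
    CompactSpace W.left → W.left.IsSeparated → ∀ N : ℕ,
    (∀ (E : Type) [CommRing E] [Algebra A E] [Algebra.Etale A E] (I : Ideal E), I ≠ ⊤ →
      ∃ (O : Type) (_ : CommRing O) (_ : Algebra A O) (_ : Algebra E O) (_ : IsScalarTower A E O),
        SHL O ∧ IndEt E O ∧ (∀ z ∈ I, ¬ IsUnit (algebraMap E O z)) ∧
        ∃ (W' : Over X) (w : W' ⟶ ob u O) (w' : W' ⟶ W),
          IsPullback w w' (hm u (Algebra.ofId A O)) p ∧ Con w F (N + 1)) →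
    Con p F (N + 1)

/-- Local to global, in terms of germs. -/
def GLT_s : Prop := ∀ (X : Scheme.{0}) (F : Sh (Scheme.etaleTopology.over X)), LFP F.obj →
  ∀ (C D D' : Type) [CommRing C] [IsDomain C] [CommRing D] [Algebra C D] [Algebra C[X] D]
    [IsScalarTower C C[X] D] [Algebra.Etale C[X] D] [CommRing D'] [Algebra D D'] [Gen C D D']
    (u : Spec (.of D) ⟶ X) (N : ℕ), Aic C →
    (∀ (P : Ideal C) [P.IsPrime] (O O' : Type) [CommRing O] [Algebra D O]
      [Algebra (Localization.AtPrime P) O] [CommRing O'] [Algebra O O']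
      [Gen (Localization.AtPrime P) O O'] (x : O) (a : Localization.AtPrime P),
      GermAt (Localization.AtPrime P) x →
      (∀ c : C, algebraMap D O (algebraMap C D c) =
        algebraMap (Localization.AtPrime P) O (algebraMap C _ c)) →
      algebraMap D O (algebraMap C[X] D Polynomial.X) =
        x + algebraMap (Localization.AtPrime P) O a →
      Con (hm (spc (algebraMap D O) ≫ u) (Algebra.ofId O O')) F (N + 1)) →
    Con (hm u (Algebra.ofId D D')) F (N + 1)

/-- Germs over valuation rings. -/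
def ACY_s : Prop := ∀ (l : ℕ) [Fact l.Prime] (V O O' : Type) [CommRing V] [IsDomain V]
  [ValuationRing V] [CommRing O] [Algebra V O] [CommRing O'] [Algebra O O'] [Gen V O O'] (x : O),
    Aic V → IsUnit (l : V) → GermAt V x → AB (ZM l) (spc (algebraMap O O'))

/-- Etale algebras over the affine line over a valuation ring. -/
def VAL_s : Prop := ∀ (l : ℕ) [Fact l.Prime] (V A A' : Type) [CommRing V] [IsDomain V]
  [ValuationRing V] [CommRing A] [Algebra V A] [Algebra V[X] A] [IsScalarTower V V[X] A]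
  [Algebra.Etale V[X] A] [CommRing A'] [Algebra A A'] [Gen V A A'],
    Aic V → IsUnit (l : V) → AB (ZM l) (spc (algebraMap A A'))

/-- Gluing two charts that are integral over the charts of the projective line. -/
def BLG_s : Prop := ∀ (B B₁ B₂ C : Type) [CommRing B] [CommRing B₁] [CommRing B₂] [CommRing C]
  [Algebra B B₁] [Algebra B B₂] [Algebra B₁ C] [Algebra B₂ C] (t : B₁) (s : B₂)
  [IsLocalization.Away t C] [IsLocalization.Away s C],
    (∀ b : B, algebraMap B₁ C (algebraMap B B₁ b) = algebraMap B₂ C (algebraMap B B₂ b)) →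
    algebraMap B₁ C t * algebraMap B₂ C s = 1 →
    (∀ b : B₁, IsIntegral (Algebra.adjoin B {t}) b) →
    (∀ b : B₂, IsIntegral (Algebra.adjoin B {s}) b) →
    ∀ L : PL (Spec (.of B)), ∃ (Y : Scheme.{0}) (ρ : Y ⟶ L.P) (ι₁ : Spec (.of B₁) ⟶ Y)
      (ι₂ : Spec (.of B₂) ⟶ Y), IsIntegralHom ρ ∧ Two B₁ B₂ C (ρ ≫ L.π) ι₁ ι₂

/-- The blow-up over a localisation of the base. -/
def BLP_s : Prop := ∀ (l : ℕ) [Fact l.Prime] (B B₁ B₂ C : Type) [CommRing B] [IsDomain B]
  [CommRing B₁] [IsDomain B₁] [CommRing B₂] [IsDomain B₂] [CommRing C] [IsDomain C]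
  [Algebra B B₁] [Algebra B B₂] [Algebra B₁ C] [Algebra B₂ C], Aic B → Aic B₁ → Aic B₂ → Aic C →
    IsUnit (l : B) → Injective ((algebraMap B₁ C).comp (algebraMap B B₁)) →
    ∀ (Y : Scheme.{0}) (y : Y ⟶ Spec (.of B)) (ι₁ : Spec (.of B₁) ⟶ Y) (ι₂ : Spec (.of B₂) ⟶ Y),
      Two B₁ B₂ C y ι₁ ι₂ → ∀ (P : Ideal B) [P.IsPrime] (W : Scheme.{0})
        (p : W ⟶ Spec (.of (Localization.AtPrime P))) (w : W ⟶ Y),
        IsPullback p w (spc (algebraMap B (Localization.AtPrime P))) y → AB (ZM l) p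

/-- The blow-up does not change cohomology. -/
def BL_s : Prop := ∀ (l : ℕ) [Fact l.Prime] (B : Type) [CommRing B], Aic B → IsUnit (l : B) →
  ∀ (L : PL (Spec (.of B))) (Y : Scheme.{0}) (ρ : Y ⟶ L.P), IsIntegralHom ρ →
    (∀ (P : Ideal B) [P.IsPrime] (W : Scheme.{0}) (p : W ⟶ Spec (.of (Localization.AtPrime P)))
      (w : W ⟶ Y), IsPullback p w (spc (algebraMap B (Localization.AtPrime P))) (ρ ≫ L.π) →
        AB (ZM l) p) →
    ∀ (A : Type) [CommRing A] [Algebra B A] (W : Scheme.{0}) (p : W ⟶ Spec (.of A)) (w : W ⟶ Y),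
      IsPullback p w (spc (algebraMap B A)) (ρ ≫ L.π) → AB (ZM l) p

/-- Directed unions of subrings. -/
def ZLIM_s : Prop := ∀ (X : Scheme.{0}) (F : Sh (Scheme.etaleTopology.over X)), LFP F.obj →
  ∀ (C A L : Type) [CommRing C] [CommRing A] [Algebra C A] [Field L] [Algebra C L]
    (u : Spec (.of A) ⟶ X) (q : ℕ) (𝒮 : Set (Subring L)), DirectedOn (· ≤ ·) 𝒮 →
    (𝒮.Nonempty → ∀ y : H (ob u (TB C A (sSup 𝒮))) F q,
      ∃ (B : Subring L) (hB : B ∈ 𝒮) (x : H (ob u (TB C A B)) F q),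
        rH C A u F q (le_sSup hB) x = y) ∧
    ∀ (B : Subring L) (hB : B ∈ 𝒮) (x : H (ob u (TB C A B)) F q),
      rH C A u F q (le_sSup hB) x = 0 → ∃ B' ∈ 𝒮, ∃ h : B ≤ B', rH C A u F q h x = 0

/-- The Mayer-Vietoris input of the Zorn argument. -/
def ZMV_s : Prop := ∀ (l : ℕ) [Fact l.Prime] (X : Scheme.{0}) (C A L : Type) [CommRing C]
  [CommRing A] [Algebra C A] [Field L] [IsAlgClosed L] [Algebra C L] (u : Spec (.of A) ⟶ X),
    IsUnit (l : C) → ∀ B : Subring L, ZGood (algebraMap C L).range B → ∀ t : L, t ≠ 0 →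
    (∀ x, rH C A u ((cst X).obj (ZM l)) 0 (le_icl B {t}) x = 0 →
      rH C A u ((cst X).obj (ZM l)) 0 (le_icl B {t⁻¹}) x = 0 → x = 0) ∧
    (∀ q z₀ z₁, rH C A u ((cst X).obj (ZM l)) q (icl_l B t) z₀ =
        rH C A u ((cst X).obj (ZM l)) q (icl_r B t) z₁ →
      ∃ z, rH C A u ((cst X).obj (ZM l)) q (le_icl B {t}) z = z₀ ∧
        rH C A u ((cst X).obj (ZM l)) q (le_icl B {t⁻¹}) z = z₁) ∧
    ∀ q, Surjective (rH C A u ((cst X).obj (ZM l)) q (icl_l B t)) →
      ∀ x, rH C A u ((cst X).obj (ZM l)) (q + 1) (le_icl B {t}) x = 0 →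
        rH C A u ((cst X).obj (ZM l)) (q + 1) (le_icl B {t⁻¹}) x = 0 → x = 0

/-- The valuation ring input of the Zorn argument. -/
def ZVAL_s : Prop := ∀ (l : ℕ) [Fact l.Prime] (X : Scheme.{0}) (C A L : Type) [CommRing C]
  [CommRing A] [Algebra C A] [Algebra C[X] A] [IsScalarTower C C[X] A] [Algebra.Etale C[X] A]
  [Field L] [IsAlgClosed L] [Algebra C L] (u : Spec (.of A) ⟶ X),
    IsUnit (l : C) → ∀ V : Subring L, ZGood (algebraMap C L).range V → (∀ t : L, t ∈ V ∨ t⁻¹ ∈ V) →
    ∀ q, Bijective (rH C A u ((cst X).obj (ZM l)) q (le_top : V ≤ ⊤))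

/-- Local acyclicity for etale algebras and coefficients `ℤ/l`. -/
def LA0_s : Prop := ∀ (l : ℕ) [Fact l.Prime] (C A A' : Type) [CommRing C] [IsDomain C]
  [CommRing A] [Algebra C A] [Algebra C[X] A] [IsScalarTower C C[X] A]
  [Algebra.Etale C[X] A] [CommRing A'] [Algebra A A'] [Gen C A A'],
    Aic C → IsUnit (l : C) → AB (ZM l) (spc (algebraMap A A'))

/-- Dévissage of torsion coefficients. -/
def TORS_s : Prop := ∀ (l : ℕ) [Fact l.Prime] (X : Scheme.{0}) (T' T : Over X) (p : T' ⟶ T),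
  IsAffine T'.left → IsAffine T.left →
    (HB p ((cst X).obj (ZM l)) → ∀ M : Ab.{1}, (∀ m : M, ∃ n : ℕ, l ^ n • m = 0) →
      HB p ((cst X).obj M)) ∧
    ∀ F : Sh (Scheme.etaleTopology.over X), Tor l F.obj → (∀ n : ℕ, HB p (kernel ((l ^ n) • 𝟙 F))) → HB p F

/-- Lisse sheaves whose generic sections extend are constant. -/
def CONST_s : Prop := ∀ (l : ℕ) (X : Scheme.{0}) (B Ω : Type) [CommRing B] [Field Ω]
  [IsAlgClosed Ω] [Algebra B Ω] [FaithfulSMul B Ω] [Algebra.IsAlgebraic B Ω]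
  (u : Spec (.of B) ⟶ X) (F : Sh (Scheme.etaleTopology.over X)), Cc l F → IsUnit (l : B) → Lis l F.obj (ob u B) →
    Surjective (rs u F.obj (Algebra.ofId B Ω)) →
    Nonempty ((pb (J := Scheme.etaleTopology) u).obj F ≅ (cst _).obj (F.obj.obj (op (ob u B))))

/-- Interior points. -/
def INTR_s : Prop := ∀ (l : ℕ) [Fact l.Prime] (X : Scheme.{0}) (C O O' : Type) [CommRing C]
  [IsDomain C] [IsLocalRing C] [CommRing O] [Algebra C O] [CommRing O'] [Algebra O O'] [Gen C O O']
  (x : O) (u : Spec (.of O) ⟶ X) (F : Sh (Scheme.etaleTopology.over X)), Aic C → IsUnit (l : C) → GermAt C x → Tc l F →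
    Lis l F.obj (ob u O) → HB (hm u (Algebra.ofId O O')) F

/-- Maps out of an extension by zero; exactness is tested at geometric points. -/
def EXT0_s : Prop := ∀ (l : ℕ) (X : Scheme.{0}), Linv l X →
  (∀ (Y : Scheme.{0}) (j : Y ⟶ X) [IsOpenImmersion j] (F G : Sh (Scheme.etaleTopology.over X)), Cc l F →
    Van l (Set.range j) F → ∀ φ : (pb (J := Scheme.etaleTopology) j).obj F ⟶ (pb j).obj G,
      ∃ ψ : F ⟶ G, (pb j).map ψ = φ) ∧
  ∀ S : ShortComplex (Sh (Scheme.etaleTopology.over X)), Cc l S.X₁ → Cc l S.X₂ → Cc l S.X₃ →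
    (∀ (k : Type) [Field k] [IsAlgClosed k] (x : Spec (.of k) ⟶ X),
      Injective (S.f.hom.app (op (Over.mk x))) ∧
      Exact (S.f.hom.app (op (Over.mk x))) (S.g.hom.app (op (Over.mk x))) ∧
      Surjective (S.g.hom.app (op (Over.mk x)))) → S.ShortExact

/-- Boundary points, trivial monodromy. -/
def BE_s : Prop := ∀ (l : ℕ) [Fact l.Prime] (X : Scheme.{0}) (C O O' Ω : Type) [CommRing C]
  [IsDomain C] [IsLocalRing C] [CommRing O] [Algebra C O] [CommRing O'] [Algebra O O'] [Gen C O O']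
  [Field Ω] [IsAlgClosed Ω] [Algebra O Ω] [FaithfulSMul O Ω] [Algebra.IsAlgebraic O Ω]
  (x : O) (u : Spec (.of O) ⟶ X) (F : Sh (Scheme.etaleTopology.over X)), Aic C → IsUnit (l : C) → GermAt C x →
    Loc l F u x → (∀ (g : Ω ≃ₐ[O] Ω) (m : sec F (ob u Ω)), E4.gal u Ω F.obj g m = m) →
    HB (hm u (Algebra.ofId O O')) F

/-- Boundary points, monodromy killed by a tame Kummer cover. -/
def BND1_s : Prop := ∀ (l : ℕ) [Fact l.Prime] (X : Scheme.{0}) (C O O' Ω : Type) [CommRing C]
  [IsDomain C] [IsLocalRing C] [CommRing O] [Algebra C O] [CommRing O'] [Algebra O O'] [Gen C O O']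
  [Field Ω] [IsAlgClosed Ω] [Algebra O Ω] [FaithfulSMul O Ω] [Algebra.IsAlgebraic O Ω]
  (x : O) (e : ℕ) (y : Ω) (u : Spec (.of O) ⟶ X) (F : Sh (Scheme.etaleTopology.over X)), Aic C → IsUnit (l : C) →
    GermAt C x → IsUnit (e : C) → y ^ e = algebraMap O Ω x → Loc l F u x →
    (∀ g : Ω ≃ₐ[O] Ω, g y = y → ∀ m : sec F (ob u Ω), E4.gal u Ω F.obj g m = m) →
    HB (hm u (Algebra.ofId O O')) F

/-- Boundary points over a trait of characteristic zero. -/
def BND_s : Prop := ∀ (l : ℕ) [Fact l.Prime] (X : Scheme.{0}) (V O O' : Type) [CommRing V]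
  [IsDomain V] [IsLocalRing V] [CharZero V] [CommRing O] [Algebra V O] [CommRing O'] [Algebra O O']
  [Gen V O O'] (x : O) (u : Spec (.of O) ⟶ X) (F : Sh (Scheme.etaleTopology.over X)), Aic V → Trait V → IsUnit (l : V) →
    GermAt V x → Loc l F u x → CofS l F → HB (hm u (Algebra.ofId O O')) F

/-- Boundary points, degree zero. -/
def DG_s : Prop := ∀ (l : ℕ) (X : Scheme.{0}) (C O O' : Type) [CommRing C]
  [IsDomain C] [IsLocalRing C] [CommRing O] [Algebra C O] [CommRing O'] [Algebra O O'] [Gen C O O']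
  (x g : O) (u : Spec (.of O) ⟶ X) (F : Sh (Scheme.etaleTopology.over X)), Aic C → IsUnit (l : C) → GermAt C x → x ∣ g →
    Loc l F u g → Con (hm u (Algebra.ofId O O')) F 1

/-- One chart, degrees zero and one. -/
def CHD_s : Prop := ∀ (l : ℕ) [Fact l.Prime] (X : Scheme.{0}) (C D D' : Type) [CommRing C]
  [IsDomain C] [CommRing D] [Algebra C D] [Algebra C[X] D] [IsScalarTower C C[X] D]
  [Algebra.Etale C[X] D] [CommRing D'] [Algebra D D'] [Gen C D D'] (h : C[X])
  (u : Spec (.of D) ⟶ X) (F : Sh (Scheme.etaleTopology.over X)), Aic C → IsUnit (l : C) → Sec h →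
    Loc l F u (algebraMap C[X] D h) → Con (hm u (Algebra.ofId D D')) F 1

/-- One chart over a trait. -/
def CHS_s : Prop := ∀ (l : ℕ) [Fact l.Prime] (X : Scheme.{0}) (V D D' : Type) [CommRing V]
  [IsDomain V] [IsLocalRing V] [CharZero V] [CommRing D] [Algebra V D] [Algebra V[X] D]
  [IsScalarTower V V[X] D] [Algebra.Etale V[X] D] [CommRing D'] [Algebra D D'] [Gen V D D']
  (h : V[X]) (u : Spec (.of D) ⟶ X) (F : Sh (Scheme.etaleTopology.over X)), Aic V → Trait V → IsUnit (l : V) → Sec1 h →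
    Loc l F u (algebraMap V[X] D h) → CofS l F → HB (hm u (Algebra.ofId D D')) F

/-- Polynomials. -/
def POL_s : Prop :=
  (∀ (C : Type) [CommRing C] (h : C[X]), IsUnit h.leadingCoeff → Sec h ∧ Sec (X * h.reverse)) ∧
  ∀ (V : Type) [CommRing V] [IsDomain V] [IsLocalRing V] (m : ℕ) (a : Fin m → V),
    (∀ i j, i ≠ j → IsUnit (a i - a j)) →
      Sec1 (∏ i, (X - C (a i))) ∧ Sec1 (X * (∏ i, (X - C (a i))).reverse)

/-- The local shape of a good sheaf on the two charts. -/
def LOC_s : Prop := ∀ (l : ℕ) (A : Type) [CommRing A] (L : PL (Spec (.of A))) (h : A[X])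
  (F : Sh (Scheme.etaleTopology.over L.P)), IsUnit h.leadingCoeff → Gd l L h F →
    ∀ (C D : Type) [CommRing C] [CommRing D] [Algebra C[X] D] (φ : A →+* C), IsUnit (l : C) →
      Loc l F (u₁ L φ D) (algebraMap C[X] D (h.map φ)) ∧
      Loc l F (u₂ L φ D) (algebraMap C[X] D (X * (h.map φ).reverse))

/-- From the charts to the projective line. -/
def P1C_s : Prop := ∀ (A : Type) [CommRing A] (L : PL (Spec (.of A))) (F : Sh (Scheme.etaleTopology.over L.P))
  (C K : Type) [CommRing C] [IsDomain C] [Field K] [Algebra C K] [IsFractionRing C K]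
  (φ : A →+* C) (b : Spec (.of K) ⟶ Spec (.of A)) (e : spc (algebraMap C K) ≫ spc φ = b) (N : ℕ),
    (∀ (D D' : Type) [CommRing D] [Algebra C D] [Algebra C[X] D] [IsScalarTower C C[X] D]
      [Algebra.Etale C[X] D] [CommRing D'] [Algebra D D'] [Gen C D D'],
      Con (hm (u₁ L φ D) (Algebra.ofId D D')) F N ∧ Con (hm (u₂ L φ D) (Algebra.ofId D D')) F N) →
    Con ((Over.pullback L.π).map (sph (algebraMap C K) e)) F N

/-- Base change along a trait. -/
def SBC_s : Prop := ∀ (l : ℕ) [Fact l.Prime] (A : Type) [CommRing A] (L : PL (Spec (.of A)))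
  (m : ℕ) (a : Fin m → A) (F : Sh (Scheme.etaleTopology.over L.P)), (∀ i j, i ≠ j → IsUnit (a i - a j)) →
    Gd l L (∏ i, (X - C (a i))) F →
    ∀ (V K : Type) [CommRing V] [IsDomain V] [IsLocalRing V] [CharZero V] [Field K] [Algebra V K]
      [IsFractionRing V K] (φ : A →+* V) (b : Spec (.of K) ⟶ Spec (.of A))
      (e : spc (algebraMap V K) ≫ spc φ = b), Aic V → Trait V → IsUnit (l : V) →
      HB ((Over.pullback L.π).map (sph (algebraMap V K) e)) F

end Pool.Agent.MP_855f4c_ag.E.SA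

end

section

/-! Section S, row BLG: gluing two charts over the projective line. -/

set_option backward.isDefEq.respectTransparency false

open CategoryTheory Limits AlgebraicGeometry Polynomial

namespace Pool.Agent.MP_855f4c_ag.E.SA

namespace BLG

lemma glue {U X Y : Scheme.{0}} (f : U ⟶ X) (g : U ⟶ Y) [IsOpenImmersion f] [IsOpenImmersion g] :
    IsOpenImmersion (pushout.inl f g) ∧ IsOpenImmersion (pushout.inr f g) ∧
      (∀ z : ↑(pushout f g), z ∈ Set.range (pushout.inl f g) ∨ z ∈ Set.range (pushout.inr f g)) ∧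
      IsPullback f g (pushout.inl f g) (pushout.inr f g) := by
  have h1 : IsOpenImmersion (pushout.inl f g) :=
    inferInstanceAs (IsOpenImmersion (colimit.ι (span f g) WalkingSpan.left))
  have h2 : IsOpenImmersion (pushout.inr f g) :=
    inferInstanceAs (IsOpenImmersion (colimit.ι (span f g) WalkingSpan.right))
  refine ⟨h1, h2, fun z => ?_, ?_⟩
  · obtain ⟨i, x, rfl⟩ := Scheme.IsLocallyDirected.ι_jointly_surjective (span f g) z
    rcases i with _ | _ | _
    · refine .inl ⟨f x, ?_⟩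
      rw [← Scheme.Hom.comp_apply]
      exact congrArg (fun φ : U ⟶ pushout f g => φ x) (colimit.w (span f g) WalkingSpan.Hom.fst)
    · exact .inl ⟨x, rfl⟩
    · exact .inr ⟨x, rfl⟩
  · refine IsOpenImmersion.isPullback _ _ _ _ pushout.condition.symm
      (TopologicalSpace.Opens.ext (Set.ext fun y => ⟨?_, ?_⟩))
    · rintro ⟨x, hx⟩
      obtain ⟨k, fi, fj, u, -, hu⟩ := (Scheme.IsLocallyDirected.ι_eq_ι_iff (span f g)
        (i := WalkingSpan.left) (j := WalkingSpan.right) (xi := x) (xj := y)).1 hx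
      rcases k with _ | _ | _
      · obtain rfl : fj = WalkingSpan.Hom.snd := Subsingleton.elim _ _
        exact ⟨u, hu⟩
      · exact nomatch (fj : WidePushoutShape.Hom (some WalkingPair.left) (some WalkingPair.right))
      · exact nomatch (fi : WidePushoutShape.Hom (some WalkingPair.right) (some WalkingPair.left))
    · rintro ⟨u, rfl⟩
      exact ⟨f u, by rw [← Scheme.Hom.comp_apply, pushout.condition, Scheme.Hom.comp_apply]⟩

lemma restr {Y P V W : Scheme.{0}} {ρ : Y ⟶ P} {c : V ⟶ P} [IsOpenImmersion c] {a : W ⟶ V}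
    {ι : W ⟶ Y} (h : IsPullback a ι c ρ) [IsIntegralHom a] : IsIntegralHom (ρ ∣_ c.opensRange) := by
  refine (MorphismProperty.arrow_mk_iso_iff @IsIntegralHom (morphismRestrictOpensRange ρ c)).2 ?_
  change IsIntegralHom (pullback.snd ρ c)
  rw [← h.flip.isoPullback_inv_snd]
  infer_instance

lemma int {B B₁ : Type} [CommRing B] [CommRing B₁] [Algebra B B₁] (t : B₁)
    (h : ∀ b : B₁, IsIntegral (Algebra.adjoin B {t}) b) :
    IsIntegralHom (spc (eval₂RingHom (algebraMap B B₁) t)) := by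
  rw [IsIntegralHom.SpecMap_iff]
  have e : eval₂RingHom (algebraMap B B₁) t = (algebraMap (Algebra.adjoin B {t}) B₁).comp
      (aeval (⟨t, Algebra.self_mem_adjoin_singleton B t⟩ : Algebra.adjoin B {t})).toRingHom :=
    Polynomial.ringHom_ext (fun a => by simp) (by simp)
  change (eval₂RingHom (algebraMap B B₁) t).IsIntegral
  rw [e]
  refine RingHom.IsIntegral.trans _ _ (RingHom.isIntegral_of_surjective _ ?_) h
  rintro ⟨z, hz⟩
  rw [Algebra.adjoin_singleton_eq_range_aeval] at hz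
  obtain ⟨p, rfl⟩ := hz
  exact ⟨p, Subtype.ext ((aeval_algHom_apply (Algebra.adjoin B {t}).val _ p).symm)⟩

end BLG

theorem blg : BLG_s := by
  intro B B₁ B₂ C _ _ _ _ _ _ _ _ t s _ _ hB hts h1 h2 L
  have := IsOpenImmersion.of_isLocalization (S := C) t
  have := IsOpenImmersion.of_isLocalization (S := C) s
  obtain ⟨o1, o2, cov, pb⟩ := BLG.glue (spc (algebraMap B₁ C)) (spc (algebraMap B₂ C))
  have w : spc (algebraMap B₁ C) ≫ spc (eval₂RingHom (algebraMap B B₁) t) ≫ L.c₁ =
      spc (algebraMap B₂ C) ≫ spc (eval₂RingHom (algebraMap B B₂) s) ≫ L.c₂ := by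
    rw [← L.pnt_pt1, ← L.pnt_pt2, L.comp_pnt, L.comp_pnt, map_pt1, map_pt2, pt1_eq_pt2.2 hts,
      ← Spec.map_comp, ← Spec.map_comp, ← CommRingCat.ofHom_comp, ← CommRingCat.ofHom_comp,
      show (algebraMap B₁ C).comp (algebraMap B B₁) = (algebraMap B₂ C).comp (algebraMap B B₂) from
        RingHom.ext hB]
  have e1 := pushout.inl_desc _ _ w
  have e2 := pushout.inr_desc _ _ w
  generalize pushout.desc _ _ w = ρ at e1 e2
  have a1 : ∀ x, ρ (pushout.inl (spc (algebraMap B₁ C)) (spc (algebraMap B₂ C)) x) =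
      L.c₁ (spc (eval₂RingHom (algebraMap B B₁) t) x) := fun x => by
    rw [← Scheme.Hom.comp_apply, e1, Scheme.Hom.comp_apply]
  have a2 : ∀ x, ρ (pushout.inr (spc (algebraMap B₁ C)) (spc (algebraMap B₂ C)) x) =
      L.c₂ (spc (eval₂RingHom (algebraMap B B₂) s) x) := fun x => by
    rw [← Scheme.Hom.comp_apply, e2, Scheme.Hom.comp_apply]
  have p1 := IsOpenImmersion.isPullback _ _ _ _ e1
    (TopologicalSpace.Opens.ext (Set.ext fun y => ⟨fun hy => by
      rcases cov y with h | ⟨x, rfl⟩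
      · exact h
      have h3 : ρ _ ∈ Set.range L.c₁ := hy
      rw [a2, L.c₂_mem_c₁] at h3
      refine (pb_mem_range pb x).1 ((mem_range_away s x).2 fun h4 => h3 ?_)
      change eval₂RingHom (algebraMap B B₂) s X ∈ x.asIdeal
      simpa using h4, by
      rintro ⟨x, rfl⟩
      exact ⟨_, (a1 x).symm⟩⟩))
  have p2 := IsOpenImmersion.isPullback _ _ _ _ e2
    (TopologicalSpace.Opens.ext (Set.ext fun y => ⟨fun hy => by
      rcases cov y with ⟨x, rfl⟩ | h
      swap
      · exact h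
      have h3 : ρ _ ∈ Set.range L.c₂ := hy
      rw [a1, L.c₁_mem_c₂] at h3
      refine (pb_mem_range pb.flip x).1 ((mem_range_away t x).2 fun h4 => h3 ?_)
      change eval₂RingHom (algebraMap B B₁) t X ∈ x.asIdeal
      simpa using h4, by
      rintro ⟨x, rfl⟩
      exact ⟨_, (a2 x).symm⟩⟩))
  have := BLG.int t h1
  have := BLG.int s h2
  refine ⟨_, ρ, _, _, ?_, o1, o2, cov, pb, ?_, ?_⟩
  · refine IsZariskiLocalAtTarget.of_iSup_eq_top (P := @IsIntegralHom)
      (fun b : Bool => b.rec L.c₁.opensRange L.c₂.opensRange) (top_le_iff.1 fun y _ => ?_) ?_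
    · rcases L.cover y with h | h
      exacts [TopologicalSpace.Opens.mem_iSup.2 ⟨false, h⟩,
        TopologicalSpace.Opens.mem_iSup.2 ⟨true, h⟩]
    · rintro (_ | _)
      exacts [BLG.restr p1, BLG.restr p2]
  · rw [← Category.assoc, e1, ← L.pnt_pt1, L.pnt_π]
  · rw [← Category.assoc, e2, ← L.pnt_pt2, L.pnt_π]

end Pool.Agent.MP_855f4c_ag.E.SA

end

section

set_option autoImplicit false
set_option backward.isDefEq.respectTransparency false

open Polynomial IsLocalRing

namespace Pool.Agent.MP_855f4c_ag.E.SA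

open E3 E4

lemma pol_root {C' : Type} [CommRing C'] [IsDomain C'] (hC : Aic C') (n : ℕ) :
    ∀ p : C'[X], p.natDegree = n → IsUnit p.leadingCoeff → ∀ a : C', ¬ IsUnit (p.eval a) →
      ∃ a', p.eval a' = 0 ∧ ¬ IsUnit (a - a') := by
  induction n with
  | zero =>
    intro p hp hu a ha
    refine absurd ?_ ha
    have h1 : p = C p.leadingCoeff := by
      rw [leadingCoeff, hp]; exact eq_C_of_natDegree_eq_zero hp
    rw [h1, eval_C]
    exact hu
  | succ n ih =>
    intro p hp hu a ha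
    obtain ⟨u, hu'⟩ := hu
    have hm : (C (↑u⁻¹ : C') * p).Monic := by
      rw [Monic, leadingCoeff_mul, leadingCoeff_C, ← hu', Units.inv_mul]
    obtain ⟨r, hr⟩ := hC _ hm (by rw [natDegree_C_mul (Units.ne_zero _), hp]; omega)
    rw [eval_mul, eval_C] at hr
    have hr' : p.eval r = 0 := (mul_eq_zero.1 hr).resolve_left (Units.ne_zero _)
    obtain ⟨q, hq⟩ := dvd_iff_isRoot.2 hr'
    have hl : q.leadingCoeff = p.leadingCoeff := by
      rw [hq, leadingCoeff_mul, leadingCoeff_X_sub_C, one_mul]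
    have hq0 : q ≠ 0 := fun h => Units.ne_zero u (by rw [hu', ← hl, h, leadingCoeff_zero])
    have hd : q.natDegree = n := by
      have h1 := natDegree_mul (X_sub_C_ne_zero r) hq0
      rw [← hq, hp, natDegree_X_sub_C] at h1
      omega
    by_cases h : IsUnit (a - r)
    · obtain ⟨a', h1, h2⟩ := ih q hd (by rw [hl, ← hu']; exact u.isUnit) a fun hqa => ha (by
        rw [hq, eval_mul, eval_sub, eval_X, eval_C]; exact h.mul hqa)
      exact ⟨a', by rw [hq, eval_mul, h1, mul_zero], h2⟩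
    · exact ⟨r, hr', h⟩

lemma pol_sec {A : Type} [CommRing A] (h : A[X]) (hu : IsUnit h.leadingCoeff) : Sec h := by
  intro C' _ _ _ φ hC a ha
  have h0 : φ h.leadingCoeff ≠ 0 := (hu.map φ).ne_zero
  rw [← eval_map] at ha
  obtain ⟨a', h1, h2⟩ := pol_root hC _ (h.map φ) rfl
    (by rw [leadingCoeff_map_of_leadingCoeff_ne_zero φ h0]; exact hu.map φ) a ha
  exact ⟨a', by rw [← eval_map, h1], h2⟩

lemma pol_rev {A : Type} [CommRing A] (h : A[X]) (hs : Sec h) : Sec (X * h.reverse) := by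
  intro C' _ _ _ φ hC a ha
  by_cases hau : IsUnit a
  · obtain ⟨u, rfl⟩ := hau
    rw [eval₂_mul, eval₂_X] at ha
    have h1 : ¬ IsUnit (h.eval₂ φ (↑u⁻¹ : C')) := fun hh => ha (u.isUnit.mul (by
      let _ : Invertible (↑u⁻¹ : C') := Units.invertible u⁻¹
      rw [← eval₂_reverse_mul_pow φ (↑u⁻¹ : C') h] at hh
      exact isUnit_of_mul_isUnit_left hh))
    obtain ⟨r, hr, hr'⟩ := hs C' φ hC _ h1
    have h2 : IsUnit r := by
      have h3 : IsUnit ((↑u⁻¹ - r) + r : C') := by rw [sub_add_cancel]; exact Units.isUnit _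
      exact (isUnit_or_isUnit_of_isUnit_add h3).resolve_left hr'
    obtain ⟨v, rfl⟩ := h2
    refine ⟨↑v⁻¹, ?_, fun hh => hr' ?_⟩
    · let _ : Invertible (v : C') := Units.invertible v
      have h4 := (eval₂_reverse_eq_zero_iff φ (v : C') h).2 hr
      rw [eval₂_mul]
      exact mul_eq_zero_of_right _ h4
    · have h5 : (↑u⁻¹ - ↑v : C') = -(↑u⁻¹ * ↑v) * (↑u - ↑v⁻¹) := by
        have e1 := u.inv_mul
        have e2 := v.mul_inv
        linear_combination (v : C') * e1 - (↑u⁻¹ : C') * e2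
      rw [h5]
      exact ((Units.isUnit _).mul v.isUnit).neg.mul hh
  · exact ⟨0, by rw [eval₂_mul, eval₂_X, zero_mul], by rwa [sub_zero]⟩

lemma pol_revprod {V : Type} [CommRing V] [IsDomain V] {I : Type} (s : Finset I) (a : I → V) :
    (∏ i ∈ s, (X - C (a i))).reverse = ∏ i ∈ s, (1 - C (a i) * X) := by
  classical
  induction s using Finset.induction_on with
  | empty => simpa using reverse_C (1 : V)
  | insert i s hi ih =>
    rw [Finset.prod_insert hi, Finset.prod_insert hi, reverse_mul_of_domain, ih]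
    congr 1
    have h1 : (X : V[X]).reverse = 1 := by simpa using (reverse_mul_X (C (1 : V))).trans (reverse_C 1)
    rw [sub_eq_add_neg, ← C_neg, reverse_add_C, h1, natDegree_X, pow_one, C_neg]
    ring

theorem pol : POL_s := by
  refine ⟨fun A _ h hu => ⟨pol_sec h hu, pol_rev h (pol_sec h hu)⟩, fun V _ _ _ m a hd => ⟨?_, ?_⟩⟩
  · intro x hx
    rw [eval_prod, IsUnit.prod_univ_iff, not_forall] at hx
    obtain ⟨i, hi⟩ := hx
    refine ⟨a i, ∏ j ∈ Finset.univ.erase i, (X - C (a j)),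
      (Finset.mul_prod_erase _ (fun j => X - C (a j)) (Finset.mem_univ i)).symm, ?_, by simpa using hi⟩
    rw [eval_prod, IsUnit.prod_iff]
    intro j hj
    simpa using hd i j (Finset.ne_of_mem_erase hj).symm
  · intro x hx
    rw [pol_revprod] at hx ⊢
    by_cases hxu : IsUnit x
    · rw [eval_mul, eval_X, eval_prod] at hx
      have h1 : ¬ ∀ i, IsUnit (eval x (1 - C (a i) * X)) := fun hh =>
        hx (hxu.mul (IsUnit.prod_univ_iff.2 hh))
      obtain ⟨i, hi⟩ := not_forall.1 h1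
      have hi' : ¬ IsUnit (1 - a i * x) := by simpa using hi
      have h2 : IsUnit (a i) := by
        have h3 : IsUnit ((1 - a i * x) + a i * x) := by rw [sub_add_cancel]; exact isUnit_one
        exact isUnit_of_mul_isUnit_left ((isUnit_or_isUnit_of_isUnit_add h3).resolve_left hi')
      obtain ⟨v, hv⟩ := h2
      have e1 : a i * ↑v⁻¹ = 1 := by rw [← hv, v.mul_inv]
      refine ⟨↑v⁻¹, X * C (-a i) * ∏ j ∈ Finset.univ.erase i, (1 - C (a j) * X), ?_, ?_,
        fun hh => hi' ?_⟩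
      · rw [← Finset.mul_prod_erase _ (fun j => 1 - C (a j) * X) (Finset.mem_univ i)]
        have e2 : (C (a i) * C (↑v⁻¹ : V) : V[X]) = 1 := by rw [← C_mul, e1, C_1]
        rw [C_neg]
        linear_combination (-(X * ∏ j ∈ Finset.univ.erase i, (1 - C (a j) * X))) * e2
      · rw [eval_mul, eval_mul, eval_X, eval_C, eval_prod]
        refine ((Units.isUnit _).mul (hv ▸ v.isUnit).neg).mul (IsUnit.prod_iff.2 fun j hj => ?_)
        have e3 : eval (↑v⁻¹ : V) (1 - C (a j) * X) = (a i - a j) * ↑v⁻¹ := by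
          rw [eval_sub, eval_one, eval_mul, eval_C, eval_X, sub_mul, e1]
        rw [e3]
        exact (hd i j (Finset.ne_of_mem_erase hj).symm).mul (Units.isUnit _)
      · have e4 : 1 - a i * x = -a i * (x - ↑v⁻¹) := by linear_combination -e1
        rw [e4]
        exact (hv ▸ v.isUnit).neg.mul hh
    · refine ⟨0, ∏ i, (1 - C (a i) * X), by rw [C_0, sub_zero], ?_, by rwa [sub_zero]⟩
      rw [eval_prod]
      simp

end Pool.Agent.MP_855f4c_ag.E.SA

end

section

set_option autoImplicit false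

namespace Pool.Agent.MP_855f4c_ag.E.SA

theorem trt : TRT_s := by
  intro A Ω _ _ _ _ _ _ hA P hP
  have := hA.ft
  obtain ⟨n, N, φ, hN, hφ, hf⟩ := hA.int
  obtain ⟨V, h, h1, -, h2, -⟩ := E3.trait_zp_max (Ω := Ω) φ hN hφ hf P
  exact ⟨V, h1, h, h2⟩

end Pool.Agent.MP_855f4c_ag.E.SA

end

section

set_option autoImplicit false
set_option backward.isDefEq.respectTransparency false

open CategoryTheory Limits AlgebraicGeometry TensorProduct MvPolynomial

namespace Pool.Agent.MP_855f4c_ag.E.Strat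

/-- Finitely many elements bound the leading monomials of an ideal from below. -/
lemma exists_lead {R σ : Type} [CommRing R] [Finite σ] (m : MonomialOrder σ)
    (J : Ideal (MvPolynomial σ R)) : ∃ (ι : Type) (_ : Fintype ι) (g : ι → MvPolynomial σ R),
      (∀ i, g i ∈ J ∧ g i ≠ 0) ∧ ∀ f ∈ J, f ≠ 0 → ∃ i, m.degree (g i) ≤ m.degree f := by
  let E : (σ →₀ ℕ) → Prop := fun d => ∃ f ∈ J, f ≠ 0 ∧ m.degree f = d
  have hfin : {d | Minimal E d}.Finite :=
    WellQuasiOrderedLE.finite_of_isAntichain (setOfPred_minimal_antichain E)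
  have (d : {d | Minimal E d}) : ∃ f ∈ J, f ≠ 0 ∧ m.degree f = d := d.2.prop
  choose g h1 h2 h3 using this
  refine ⟨_, hfin.fintype, g, fun i => ⟨h1 i, h2 i⟩, fun f hf h0 => ?_⟩
  obtain ⟨d, hd, hm⟩ := exists_minimal_le_of_wellFoundedLT E _ ⟨f, hf, h0, rfl⟩
  exact ⟨⟨d, hm⟩, (h3 _).trans_le hd⟩

lemma degree_map {R S σ : Type} [CommRing R] [CommRing S] (m : MonomialOrder σ) {φ : R →+* S}
    (h : Function.Injective φ) (f : MvPolynomial σ R) : m.degree (map φ f) = m.degree f := by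
  simp only [MonomialOrder.degree, support_map_of_injective _ h]

/-- Generic freeness. -/
theorem gen_free (R A : Type) [CommRing R] [IsDomain R] [CommRing A] [Algebra R A]
    [Algebra.FiniteType R A] :
    ∃ a : R, a ≠ 0 ∧ Module.Free (Localization.Away a) (Localization.Away a ⊗[R] A) := by
  classical
  obtain ⟨n, π, hπ⟩ := Algebra.FiniteType.iff_quotient_mvPolynomial''.1 ‹Algebra.FiniteType R A›
  let m : MonomialOrder (Fin n) := MonomialOrder.lex
  obtain ⟨ι, _, g, hg, hJ⟩ := exists_lead m (RingHom.ker π)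
  let a := ∏ i, m.leadingCoeff (g i)
  have ha : a ≠ 0 := Finset.prod_ne_zero_iff.2 fun i _ => m.leadingCoeff_ne_zero_iff.2 (hg i).2
  refine ⟨a, ha, ?_⟩
  let S := Localization.Away a
  have hi : Function.Injective (algebraMap R S) :=
    IsLocalization.injective S (powers_le_nonZeroDivisors_of_noZeroDivisors ha)
  let π' : MvPolynomial (Fin n) S →ₐ[S] S ⊗[R] A := aeval fun i => 1 ⊗ₜ π (X i)
  have hm (f : MvPolynomial (Fin n) R) : π' (map (algebraMap R S) f) = 1 ⊗ₜ π f := by
    have : (π'.restrictScalars R).comp (mapAlgHom (Algebra.ofId R S)) =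
        Algebra.TensorProduct.includeRight.comp π := by
      ext i
      simp [π']
    exact congr($this f)
  have hs : Function.Surjective π' := fun y => by
    induction y using TensorProduct.induction_on with
    | zero => exact ⟨0, map_zero _⟩
    | tmul s x =>
      obtain ⟨f, rfl⟩ := hπ x
      exact ⟨s • map (algebraMap R S) f, by rw [map_smul, hm, smul_tmul', smul_eq_mul, mul_one]⟩
    | add x y hx hy =>
      obtain ⟨x, rfl⟩ := hx
      obtain ⟨y, rfl⟩ := hy
      exact ⟨x + y, map_add _ _ _⟩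
  let T : Set (Fin n →₀ ℕ) := {c | ∀ i, ¬ m.degree (g i) ≤ c}
  have := Module.Free.of_basis (basisRestrictSupport S T)
  refine Module.Free.of_equiv (LinearEquiv.ofBijective
    (π'.toLinearMap ∘ₗ (restrictSupport S T).subtype)
      ⟨(injective_iff_map_eq_zero _).2 fun r hr => ?_, fun y => ?_⟩)
  · obtain ⟨b, hb⟩ := IsLocalization.exist_integer_multiples (Submonoid.powers a) r.1.support
      fun c => coeff c r.1
    have hb' : (b : R) • r.1 ∈ Set.range (map (σ := Fin n) (algebraMap R S)) := by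
      rw [mem_range_map_iff_coeffs_subset]
      intro c hc
      obtain ⟨d, hd, rfl⟩ := mem_coeffs_iff.1 hc
      exact hb d (support_smul hd)
    obtain ⟨r₀, hr₀⟩ := hb'
    have h0 : TensorProduct.mk R S A 1 (π r₀) = 0 := by
      refine (hm r₀).symm.trans ?_
      rw [hr₀, ← IsScalarTower.algebraMap_smul S, map_smul]
      exact (congrArg _ hr).trans (smul_zero _)
    obtain ⟨c, hc⟩ := (IsLocalizedModule.eq_zero_iff (Submonoid.powers a) _).1 h0
    have hu (c : Submonoid.powers a) : IsUnit (algebraMap R S c) := IsLocalization.map_units S c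
    have hz : (c : R) • r₀ = 0 := by
      by_contra hz
      obtain ⟨i, hi'⟩ := hJ _ (by rw [RingHom.mem_ker, map_smul]; exact hc) hz
      have h1 := support_smul (m.degree_mem_support hz)
      rw [← support_map_of_injective _ hi, hr₀] at h1
      exact r.2 (support_smul h1) i hi'
    have h2 := congrArg (map (algebraMap R S)) hz
    rw [map_zero, smul_eq_C_mul, map_mul, map_C, hr₀, ← smul_eq_C_mul,
      ← IsScalarTower.algebraMap_smul S (b : R), (hu c).smul_eq_zero, (hu b).smul_eq_zero] at h2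
    exact Subtype.ext h2
  · obtain ⟨f, rfl⟩ := hs y
    obtain ⟨q, r, h1, -, h3⟩ := m.div (b := fun i => map (algebraMap R S) (g i)) (fun i => by
      rw [MonomialOrder.leadingCoeff, degree_map m hi, coeff_map]
      exact isUnit_of_dvd_unit (map_dvd _ (Finset.dvd_prod_of_mem (fun i => m.leadingCoeff (g i))
        (Finset.mem_univ i)))
        (IsLocalization.Away.algebraMap_isUnit a)) f
    refine ⟨⟨r, fun c hc i => degree_map m hi (g i) ▸ h3 c hc i⟩, ?_⟩
    have : π' (Finsupp.linearCombination _ (fun i => map (algebraMap R S) (g i)) q) = 0 := by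
      rw [Finsupp.linearCombination_apply, Finsupp.sum, map_sum]
      refine Finset.sum_eq_zero fun i _ => ?_
      rw [smul_eq_mul, map_mul, hm, show π (g i) = 0 from (hg i).1, tmul_zero, mul_zero]
    rw [h1, map_add, this, zero_add]
    rfl

lemma fiber_smooth {R A k : Type} [CommRing R] [CommRing A] [Algebra R A] [Field k] [Algebra R k]
    (p : Ideal R) [p.IsPrime] (hp : RingHom.ker (algebraMap R k) = p)
    [Algebra.Smooth k (k ⊗[R] A)] : Algebra.Smooth p.ResidueField (p.ResidueField ⊗[R] A) := by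
  let ψ := Ideal.ResidueField.liftₐ p (Algebra.ofId R k) hp.ge fun x hx =>
    isUnit_iff_ne_zero.2 fun h => hx (hp.le h)
  let := ψ.toRingHom.toAlgebra
  have : IsScalarTower R p.ResidueField k := .of_algebraMap_eq fun r => (ψ.commutes r).symm
  have : Algebra.Smooth k (k ⊗[p.ResidueField] (p.ResidueField ⊗[R] A)) :=
    .of_equiv (Algebra.TensorProduct.cancelBaseChange R p.ResidueField k k A).symm
  exact .of_smooth_tensorProduct_of_faithfullyFlat k

lemma smoothAt {R A : Type} [CommRing R] [CommRing A] [Algebra R A]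
    [Algebra.FinitePresentation R A] (a : R)
    [Module.Free (Localization.Away a) (Localization.Away a ⊗[R] A)] (q : PrimeSpectrum A)
    (ha : algebraMap R A a ∉ q.asIdeal)
    [Algebra.Smooth (q.asIdeal.under R).ResidueField ((q.asIdeal.under R).ResidueField ⊗[R] A)] :
    q ∈ Algebra.smoothLocus R A := by
  let S := A ⊗[R] Localization.Away a
  have : IsLocalization.Away (algebraMap R A a) S := by
    have := IsLocalization.tensor (S := A) (Localization.Away a) (Submonoid.powers a)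
    rwa [Algebra.algebraMapSubmonoid_powers] at this
  have : Module.Flat R (Localization.Away a ⊗[R] A) := .trans R (Localization.Away a) _
  have : Module.Flat R S := .of_linearEquiv (TensorProduct.comm _ _ _)
  have : Algebra.FinitePresentation A S := IsLocalization.Away.finitePresentation (algebraMap R A a)
  have : Algebra.FinitePresentation R S := .trans R A S
  obtain ⟨q', rfl⟩ : q ∈ Set.range (PrimeSpectrum.comap (algebraMap A S)) := by
    rwa [PrimeSpectrum.localization_away_comap_range S (algebraMap R A a)]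
  let p := (PrimeSpectrum.comap (algebraMap A S) q').asIdeal.under R
  have : q'.asIdeal.LiesOver p := ⟨by
    ext x
    simp only [p, Ideal.mem_comap, PrimeSpectrum.comap_asIdeal, ← IsScalarTower.algebraMap_apply]⟩
  have : Algebra.FormallySmooth p.ResidueField
      ((p.ResidueField ⊗[R] A) ⊗[R] Localization.Away a) := .comp _ (p.ResidueField ⊗[R] A) _
  have : Algebra.FormallySmooth p.ResidueField (p.Fiber S) :=
    .of_equiv (Algebra.TensorProduct.assoc R R p.ResidueField p.ResidueField A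
      (Localization.Away a))
  have h : q' ∈ Algebra.smoothLocus R S := Algebra.IsSmoothAt.of_formallySmooth_fiber p q'.asIdeal
  rwa [← Algebra.smoothLocus_comap_of_isLocalization (algebraMap R A a)] at h

/-- Generically, an algebra is smooth or has no smooth fibre. -/
lemma dom (R A : Type) [CommRing R] [IsDomain R] [IsNoetherianRing R] [CommRing A] [Algebra R A]
    [Algebra.FiniteType R A] : ∃ c : R, c ≠ 0 ∧
      ((∀ (T : Type) [CommRing T] [Algebra R T], IsUnit (algebraMap R T c) →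
        Algebra.Smooth T (T ⊗[R] A)) ∨
      ∀ (k : Type) [Field k] [Algebra R k], algebraMap R k c ≠ 0 →
        ¬ Algebra.Smooth k (k ⊗[R] A)) := by
  have : Algebra.FinitePresentation R A := Algebra.FinitePresentation.of_finiteType.1 ‹_›
  let J := PrimeSpectrum.vanishingIdeal (Algebra.smoothLocus R A)ᶜ
  have hJ : PrimeSpectrum.zeroLocus (J : Set A) = (Algebra.smoothLocus R A)ᶜ := by
    rw [PrimeSpectrum.zeroLocus_vanishingIdeal_eq_closure,
      Algebra.isOpen_smoothLocus.isClosed_compl.closure_eq]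
  obtain ⟨a, ha, _⟩ := gen_free R A
  obtain ⟨b, hb, _⟩ := gen_free R (A ⧸ J)
  let S := Localization.Away b
  by_cases h : ∀ q : PrimeSpectrum A, algebraMap R A b ∉ q.asIdeal → q ∈ Algebra.smoothLocus R A
  · refine ⟨b, hb, .inl fun T _ _ hT => ?_⟩
    have h1 : Algebra.FormallySmooth R (Localization.Away (algebraMap R A b)) :=
      Algebra.basicOpen_subset_smoothLocus_iff.1 h
    let := Algebra.TensorProduct.rightAlgebra (R := R) (A := S) (B := A)
    have : IsLocalization.Away (algebraMap R A b) (S ⊗[R] A) := by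
      have := IsLocalization.tensorRight (S := A) S (Submonoid.powers b)
      rwa [Algebra.algebraMapSubmonoid_powers] at this
    have : Algebra.FormallySmooth R (S ⊗[R] A) := .of_equiv ((IsLocalization.algEquiv
      (Submonoid.powers (algebraMap R A b)) (Localization.Away (algebraMap R A b))
        (S ⊗[R] A)).restrictScalars R)
    have : Algebra.FormallyEtale R S := .of_isLocalization (Submonoid.powers b)
    have : Algebra.Smooth S (S ⊗[R] A) :=
      ⟨Algebra.FormallySmooth.iff_restrictScalars.1 ‹Algebra.FormallySmooth R _›, inferInstance⟩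
    let := (IsLocalization.Away.lift (S := S) b hT).toAlgebra
    have : IsScalarTower R S T := .of_algebraMap_eq fun r => (IsLocalization.Away.lift_eq b hT r).symm
    exact .of_equiv (Algebra.TensorProduct.cancelBaseChange R S T T A)
  · refine ⟨a * b, mul_ne_zero ha hb, .inr fun k _ _ hk hs => ?_⟩
    rw [map_mul, mul_ne_zero_iff] at hk
    push Not at h
    obtain ⟨q₀, hq₀, hq₀'⟩ := h
    have hq₀J : J ≤ q₀.asIdeal := show q₀ ∈ PrimeSpectrum.zeroLocus (J : Set A) from hJ ▸ hq₀'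
    let := Algebra.TensorProduct.rightAlgebra (R := R) (A := S) (B := A ⧸ J)
    have : Nontrivial (S ⊗[R] (A ⧸ J)) := by
      rw [← not_subsingleton_iff_nontrivial, IsLocalization.subsingleton_iff
        (M := Algebra.algebraMapSubmonoid (A ⧸ J) (Submonoid.powers b))]
      rintro ⟨_, ⟨n, rfl⟩, hn⟩
      rw [IsScalarTower.algebraMap_apply R A, Ideal.Quotient.algebraMap_eq,
        Ideal.Quotient.eq_zero_iff_mem, map_pow] at hn
      exact hq₀ (q₀.2.mem_of_pow_mem n (hq₀J hn))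
    let p : PrimeSpectrum R := ⟨RingHom.ker (algebraMap R k), RingHom.ker_isPrime _⟩
    obtain ⟨p', hp'⟩ : p ∈ Set.range (PrimeSpectrum.comap (algebraMap R S)) := by
      rw [PrimeSpectrum.localization_away_comap_range S b]
      exact hk.2
    obtain ⟨q', rfl⟩ := PrimeSpectrum.comap_surjective_of_faithfullyFlat (B := S ⊗[R] (A ⧸ J)) p'
    let q := PrimeSpectrum.comap
      ((algebraMap (A ⧸ J) (S ⊗[R] (A ⧸ J))).comp (Ideal.Quotient.mk J)) q'
    have hq : RingHom.ker (algebraMap R k) = q.asIdeal.under R := by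
      refine (congrArg PrimeSpectrum.asIdeal hp').symm.trans ?_
      ext x
      simp only [q, Ideal.mem_comap, PrimeSpectrum.comap_asIdeal, RingHom.comp_apply,
        ← Ideal.Quotient.algebraMap_eq, ← IsScalarTower.algebraMap_apply]
    have := fiber_smooth (A := A) _ hq
    have h1 : q ∈ Algebra.smoothLocus R A := smoothAt a q fun h => hk.1 (hq.ge h)
    have h2 : q ∈ PrimeSpectrum.zeroLocus (J : Set A) := fun x hx => by
      simp [q, Ideal.Quotient.eq_zero_iff_mem.2 hx]
    exact (hJ ▸ h2 : q ∈ (Algebra.smoothLocus R A)ᶜ) h1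

lemma prime {R : Type} [CommRing R] [IsNoetherianRing R] (I : Ideal R) [I.IsPrime] (A : Type)
    [CommRing A] [Algebra R A] [Algebra.FiniteType R A] : ∃ c : R, c ∉ I ∧
      ((∀ (T : Type) [CommRing T] [Algebra R T], I ≤ RingHom.ker (algebraMap R T) →
        IsUnit (algebraMap R T c) → Algebra.Smooth T (T ⊗[R] A)) ∨
      ∀ (k : Type) [Field k] [Algebra R k], I ≤ RingHom.ker (algebraMap R k) →
        algebraMap R k c ≠ 0 → ¬ Algebra.Smooth k (k ⊗[R] A)) := by
  obtain ⟨c, hc, h⟩ := dom (R ⧸ I) ((R ⧸ I) ⊗[R] A)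
  obtain ⟨c, rfl⟩ := Ideal.Quotient.mk_surjective c
  refine ⟨c, fun h => hc (Ideal.Quotient.eq_zero_iff_mem.2 h),
    h.imp (fun h T _ _ hI hT => ?_) fun h k _ _ hI hk hs => ?_⟩
  · let := (Ideal.Quotient.lift I (algebraMap R T) hI).toAlgebra
    have : IsScalarTower R (R ⧸ I) T := .of_algebraMap_eq fun _ => rfl
    have := h T hT
    exact .of_equiv (Algebra.TensorProduct.cancelBaseChange R (R ⧸ I) T T A)
  · let := (Ideal.Quotient.lift I (algebraMap R k) hI).toAlgebra
    have : IsScalarTower R (R ⧸ I) k := .of_algebraMap_eq fun _ => rfl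
    exact h k hk (.of_equiv (Algebra.TensorProduct.cancelBaseChange R (R ⧸ I) k k A).symm)

/-- The ring form of the stratification. -/
theorem strat_ring {R : Type} [CommRing R] [IsNoetherianRing R] {ι : Type} [Fintype ι]
    (A : ι → Type) [∀ j, CommRing (A j)] [∀ j, Algebra R (A j)] [∀ j, Algebra.FiniteType R (A j)]
    (I : Ideal R) : ∃ s : Set (Ideal R × R), s.Finite ∧
      (∀ x ∈ s, ∀ (T : Type) [CommRing T] [Algebra R T], x.1 ≤ RingHom.ker (algebraMap R T) →
        IsUnit (algebraMap R T x.2) → ∀ j, Algebra.Smooth T (T ⊗[R] A j)) ∧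
      ∀ (k : Type) [Field k] [Algebra R k], I ≤ RingHom.ker (algebraMap R k) →
        (∀ j, Algebra.Smooth k (k ⊗[R] A j)) →
        ∃ x ∈ s, x.1 ≤ RingHom.ker (algebraMap R k) ∧ algebraMap R k x.2 ≠ 0 := by
  induction I using IsNoetherian.induction with | hgt I ih => ?_
  have gt {c : R} (hc : c ∉ I) : I < I ⊔ Ideal.span {c} :=
    left_lt_sup.2 fun h => hc (h (Ideal.mem_span_singleton_self c))
  have le {c : R} {K : Ideal R} (h : I ≤ K) (hc : c ∈ K) : I ⊔ Ideal.span {c} ≤ K :=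
    sup_le h ((Ideal.span_singleton_le_iff_mem _).2 hc)
  by_cases hI : Ideal.IsPrime I
  · choose c hc h using fun j => prime I (A j)
    have hc' : ∏ j, c j ∉ I := fun h => by
      obtain ⟨j, -, hj⟩ := Ideal.IsPrime.prod_mem_iff.1 h
      exact hc j hj
    obtain ⟨s, s1, s2, s3⟩ := ih _ (gt hc')
    have dv (j) : c j ∣ ∏ j, c j := Finset.dvd_prod_of_mem _ (Finset.mem_univ j)
    by_cases H : ∀ j, ∀ (T : Type) [CommRing T] [Algebra R T], I ≤ RingHom.ker (algebraMap R T) →
        IsUnit (algebraMap R T (c j)) → Algebra.Smooth T (T ⊗[R] A j)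
    · refine ⟨insert (I, ∏ j, c j) s, s1.insert _, ?_, fun k _ _ hk hs => ?_⟩
      · rintro x (rfl | hx)
        · exact fun T _ _ h1 h2 j => H j T h1 (isUnit_of_dvd_unit (map_dvd _ (dv j)) h2)
        · exact s2 x hx
      · by_cases h0 : algebraMap R k (∏ j, c j) = 0
        · exact (s3 k (le hk h0) hs).imp fun x hx => ⟨.inr hx.1, hx.2⟩
        · exact ⟨_, .inl rfl, hk, h0⟩
    · obtain ⟨j, hj⟩ := not_forall.1 H
      refine ⟨s, s1, s2, fun k _ _ hk hs => s3 k (le hk ?_) hs⟩
      by_contra h0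
      exact (h j).resolve_left hj k hk (ne_zero_of_dvd_ne_zero h0 (map_dvd _ (dv j))) (hs j)
  · obtain rfl | ⟨a, ha, b, hb, hab⟩ := Ideal.not_isPrime_iff.1 hI
    · exact ⟨∅, Set.finite_empty, fun _ h => h.elim, fun k _ _ hk =>
        (RingHom.ker_ne_top _ (top_le_iff.1 hk)).elim⟩
    · obtain ⟨s, s1, s2, s3⟩ := ih _ (gt ha)
      obtain ⟨t, t1, t2, t3⟩ := ih _ (gt hb)
      refine ⟨s ∪ t, s1.union t1, fun x hx => hx.elim (s2 x) (t2 x), fun k _ _ hk hs => ?_⟩
      rcases (RingHom.ker_isPrime (algebraMap R k)).mem_or_mem (hk hab) with h | h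
      · exact (s3 k (le hk h) hs).imp fun x hx => ⟨.inl hx.1, hx.2⟩
      · exact (t3 k (le hk h) hs).imp fun x hx => ⟨.inr hx.1, hx.2⟩

lemma smooth_spec {R T A : Type} [CommRing R] [CommRing T] [CommRing A] [Algebra R T]
    [Algebra R A] : Smooth (pullback.fst (Spec.map (CommRingCat.ofHom (algebraMap R T)))
      (Spec.map (CommRingCat.ofHom (algebraMap R A)))) ↔ Algebra.Smooth T (T ⊗[R] A) := by
  rw [← MorphismProperty.cancel_left_of_respectsIso (P := @Smooth) (pullbackSpecIso R T A).inv,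
    pullbackSpecIso_inv_fst, HasRingHomProperty.Spec_iff (P := @Smooth)]
  exact RingHom.smooth_algebraMap

/-- **Stratification by smooth families.** -/
theorem strat {R : Type} [CommRing R] [IsNoetherianRing R] {X : Scheme.{0}}
    (f : X ⟶ Spec (.of R)) [LocallyOfFiniteType f] [QuasiCompact f] :
    ∃ s : Set (Ideal R × R), s.Finite ∧
      (∀ x ∈ s, ∀ (T : Type) [CommRing T] [Algebra R T], x.1 ≤ RingHom.ker (algebraMap R T) →
        IsUnit (algebraMap R T x.2) →
        Smooth (pullback.fst (Spec.map (CommRingCat.ofHom (algebraMap R T))) f)) ∧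
      ∀ (k : Type) [Field k] [Algebra R k],
        Smooth (pullback.fst (Spec.map (CommRingCat.ofHom (algebraMap R k))) f) →
        ∃ x ∈ s, x.1 ≤ RingHom.ker (algebraMap R k) ∧ algebraMap R k x.2 ≠ 0 := by
  have : CompactSpace X := QuasiCompact.compactSpace_of_compactSpace f
  let 𝒰 := X.affineCover.finiteSubcover
  have (j : 𝒰.I₀) : ∃ (A : Type) (_ : CommRing A) (_ : Algebra R A) (_ : Algebra.FiniteType R A)
      (e : Spec (.of A) ≅ 𝒰.X j),
      e.hom ≫ 𝒰.f j ≫ f = Spec.map (CommRingCat.ofHom (algebraMap R A)) := by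
    obtain ⟨φ, hφ⟩ := Spec.map_surjective ((𝒰.X j).isoSpec.inv ≫ 𝒰.f j ≫ f)
    have : LocallyOfFiniteType (Spec.map φ) := hφ ▸ inferInstance
    exact ⟨Γ(𝒰.X j, ⊤), _, φ.hom.toAlgebra,
      (HasRingHomProperty.Spec_iff (P := @LocallyOfFiniteType)).1 this, (𝒰.X j).isoSpec.symm,
      hφ.symm⟩
  choose A _ _ _ e he using this
  have key (T : Type) [CommRing T] [Algebra R T] :
      Smooth (pullback.fst (Spec.map (CommRingCat.ofHom (algebraMap R T))) f) ↔
        ∀ j, Algebra.Smooth T (T ⊗[R] A j) := by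
    rw [IsZariskiLocalAtSource.iff_of_openCover (P := @Smooth)
      (Scheme.Pullback.openCoverOfRight 𝒰 _ f)]
    refine forall_congr' fun j => ?_
    let t := Spec.map (CommRingCat.ofHom (algebraMap R T))
    let c := pullback.map t ((e j).hom ≫ 𝒰.f j ≫ f) t (𝒰.f j ≫ f) (𝟙 _) (e j).hom (𝟙 _)
      (by simp) (by simp)
    rw [← smooth_spec, ← he j, ← MorphismProperty.cancel_left_of_respectsIso (P := @Smooth) c]
    simp [c, t]
  obtain ⟨s, s1, s2, s3⟩ := strat_ring A (⊥ : Ideal R)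
  exact ⟨s, s1, fun x hx T _ _ h1 h2 => (key T).2 (s2 x hx T h1 h2),
    fun k _ _ hk => s3 k bot_le ((key k).1 hk)⟩

end Pool.Agent.MP_855f4c_ag.E.Strat

end
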