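import Pool.Agent.MP_855f4c_ag.EC.Xa
import Pool.Agent.MP_855f4c_ag.EC.Sb
import Pool.Agent.MP_855f4c_ag.EC.F1b
import Pool.Agent.MP_855f4c_ag.EC.E4d
import Pool.Agent.MP_855f4c_ag.EC.E4b
import Pool.Agent.MP_855f4c_ag.Et.Def
import Pool.Agent.MP_855f4c_ag.EC.Sa

section

set_option autoImplicit false
set_option backward.isDefEq.respectTransparency false

open CategoryTheory Limits Abelian Opposite AlgebraicGeometry Polynomial Function

namespace Pool.Agent.MP_855f4c_ag.E

open E3 E4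

open LP in
def Main2_s : Prop := ∀ (R : Type) [CommRing R] [Algebra.FiniteType ℤ R] (X : Scheme.{0})
  (f : X ⟶ Spec (.of R)) [IsProper f],
    ∃ M : ℕ, M ≠ 0 ∧ ∀ (p l : ℕ) [Fact p.Prime] [Fact l.Prime], ¬ p ∣ M → l ≠ p →
      ∀ [Algebra R (PadicAlgCl p)],
        Smooth (pullback.fst (Spec.map (CommRingCat.ofHom (algebraMap R (PadicAlgCl p)))) f) →
        ∀ (i : ℕ) (φ u : PadicAlgCl p ≃ₐ[R] PadicAlgCl p) (Q : ℕ), 1 < Q →
        Frob ℤ_[p] Q φ → Frob ℤ_[p] 1 u →
        (∃ (n : ℕ) (r : PadicAlgCl p) (o : ℤ_[p]), r ^ l ^ n = algebraMap _ _ o ∧ u r ≠ r) →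
        Mw Q i (E.gal f l i φ) (E.gal f l i u)

namespace M2

lemma mw_equiv {W W' : Type 1} [AddCommGroup W] [Module ℚ W] [AddCommGroup W'] [Module ℚ W']
    (E : W →ₗ[ℚ] W') (hE : Bijective E) {φ u : Module.End ℚ W} {φ' u' : Module.End ℚ W'}
    (h1 : ∀ v, E (φ v) = φ' (E v)) (h2 : ∀ v, E (u v) = u' (E v)) {q : ℕ} {i : ℤ}
    (h : Mw q i φ' u') : Mw q i φ u := by
  have hp : ∀ {f : Module.End ℚ W} {f' : Module.End ℚ W'}, (∀ v, E (f v) = f' (E v)) →
      ∀ (n : ℕ) v, E ((f ^ n) v) = (f' ^ n) (E v) := fun {f f'} h n => by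
    induction n with
    | zero => exact fun _ => rfl
    | succ n ih => exact fun v => by rw [pow_succ, pow_succ, Module.End.mul_apply, ih, h]; rfl
  have ha : ∀ (P : ℚ[X]) v, E (aeval φ P v) = aeval φ' P (E v) := fun P v => by
    induction P using Polynomial.induction_on' with
    | add P Q hP hQ => simp only [map_add, LinearMap.add_apply, hP, hQ]
    | monomial n a =>
      rw [aeval_monomial, aeval_monomial, Module.End.mul_apply, Module.End.mul_apply,
        Module.algebraMap_end_apply, Module.algebraMap_end_apply, map_smul, hp h1]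
  obtain ⟨m, hm, M, a1, ⟨b, a2⟩, ⟨c, a3⟩, a4, a5, a6⟩ := h
  have hN : ∀ v, E ((u ^ m - 1) v) = (u' ^ m - 1) (E v) := fun v => by
    rw [LinearMap.sub_apply, map_sub, hp h2]; rfl
  refine ⟨m, hm, fun a => (M a).comap E, fun _ _ h _ hv => a1 h hv,
    ⟨b, eq_bot_iff.2 fun v hv => ?_⟩, ⟨c, eq_top_iff.2 fun v _ => a3.ge trivial⟩, fun a v hv => ?_,
    fun r => ⟨fun v hv h => ?_, fun w hw => ?_⟩, fun a => ⟨fun v hv => ?_, ?_⟩⟩
  · rw [Submodule.mem_comap, a2, Submodule.mem_bot, map_eq_zero_iff _ hE.1] at hv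
    exact hv
  · rw [Submodule.mem_comap, hN]
    exact a4 a _ hv
  · rw [Submodule.mem_comap, hp hN] at h
    exact (a5 r).1 (E v) hv h
  · obtain ⟨v, h1, h2⟩ := (a5 r).2 (E w) hw
    obtain ⟨v, rfl⟩ := hE.2 v
    exact ⟨v, h1, by rwa [Submodule.mem_comap, map_sub, hp hN]⟩
  · rw [Submodule.mem_comap, h1]
    exact (a6 a).1 _ hv
  · obtain ⟨P, p1, p2, p3⟩ := (a6 a).2
    exact ⟨P, p1, p2, fun v hv => by rw [Submodule.mem_comap, ha]; exact p3 _ hv⟩

section tower
variable {A B : ℕ → Type 1} [∀ n, AddCommGroup (A n)] [∀ n, AddCommGroup (B n)]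
  {r : ∀ n, A (n + 1) →+ A n} {s : ∀ n, B (n + 1) →+ B n} (g : ∀ n, A n →+ B n)
  (h : ∀ n x, s n (g (n + 1) x) = g n (r n x))

lemma tmap_bij (hg : ∀ n, Bijective (g n)) : Bijective (tmap g h) := by
  refine ⟨fun x y e => Subtype.ext (funext fun n => (hg n).1 (congrFun (congrArg Subtype.val e) n)),
    fun y => ?_⟩
  choose x hx using fun n => (hg n).2 (y.1 n)
  exact ⟨⟨x, fun n => (hg n).1 (by rw [← h, hx, hx, y.2 n])⟩, Subtype.ext (funext hx)⟩

lemma bc_bij (hg : ∀ n, Bijective (g n)) :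
    Bijective ((tmap g h).toIntLinearMap.baseChange ℚ) :=
  ((LinearEquiv.ofBijective (tmap g h).toIntLinearMap (tmap_bij g h hg)).baseChange ℤ ℚ _ _).bijective

lemma bc_comm (u : ∀ n, A n →+ A n) (hu : ∀ n x, r n (u (n + 1) x) = u n (r n x))
    (v : ∀ n, B n →+ B n) (hv : ∀ n x, s n (v (n + 1) x) = v n (s n x))
    (e : ∀ n x, g n (u n x) = v n (g n x)) (z : TensorProduct ℤ ℚ (tlim r)) :
    (tmap g h).toIntLinearMap.baseChange ℚ ((tmap u hu).toIntLinearMap.baseChange ℚ z) =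
      (tmap v hv).toIntLinearMap.baseChange ℚ ((tmap g h).toIntLinearMap.baseChange ℚ z) := by
  induction z using TensorProduct.induction_on with
  | zero => simp only [map_zero]
  | add x y hx hy => simp only [map_add, hx, hy]
  | tmul c x => exact congrArg (c ⊗ₜ[ℤ] ·) (Subtype.ext (funext fun n => e n _))
end tower

variable {X Y : Scheme.{0}} (a : Y ⟶ X)

/-- Constant sheaves restrict to constant sheaves. -/
noncomputable def cstPb : cst X ⋙ pb (J := Scheme.etaleTopology) a ≅ cst Y :=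
  Functor.isoWhiskerRight (cstIso X) _ ≪≫
    (Iso.refl _ : lcF X ⋙ pb (J := Scheme.etaleTopology) a ≅ lcF Y) ≪≫ (cstIso Y).symm

lemma slH_post (U : Over Y) {F G : Sh (Scheme.etaleTopology.over X)} (φ : F ⟶ G) (q : ℕ)
    (x : H ((Over.map a).obj U) F q) :
    slH a U G q (post _ φ q x) = post _ ((pb (J := Scheme.etaleTopology) a).map φ) q (slH a U F q x) :=
  (cmp_comp _ _ x _ (add_zero q)).trans (by rw [Ext.mapExactFunctor_mk₀]; rfl)

/-- The comparison for `ℤ/l^n`. -/
noncomputable def cZ (l n : ℕ) : (pb (J := Scheme.etaleTopology) a).obj (Zl X l n) ⟶ Zl Y l n :=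
  (cstPb a).hom.app _

instance (l n : ℕ) : IsIso (cZ a l n) := ((cstPb a).app _).isIso_hom

lemma cZ_nat (l n : ℕ) : (pb (J := Scheme.etaleTopology) a).map (Zr X l n) ≫ cZ a l n =
    cZ a l (n + 1) ≫ Zr Y l n := (cstPb a).hom.naturality _

variable {U : Over Y} {V : Over X} (θ : (Over.map a).obj U ⟶ V) {F G : Sh (Scheme.etaleTopology.over X)}
  {F' G' : Sh (Scheme.etaleTopology.over Y)} (c : (pb (J := Scheme.etaleTopology) a).obj F ⟶ F')

/-- Comparison of cohomology. -/
noncomputable def cmpH (q : ℕ) : H V F q →+ H U F' q :=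
  (Hmap c U q).comp ((slH a U F q).comp (res θ F q))

lemma cmpH_apply (q : ℕ) (x : H V F q) :
    cmpH a θ c q x = post _ c q (slH a U F q (res θ F q x)) := rfl

lemma cmpH_bij [IsIso θ] [IsIso c] (q : ℕ) : Bijective (cmpH a θ c q) := by
  rw [show ⇑(cmpH a θ c q) = post _ c q ∘ slH a U F q ∘ res θ F q from funext (cmpH_apply a θ c q)]
  exact (post_bij _ _ q).comp ((slH_bij a U _ q).comp (pre_bij _ _ q))

lemma Hmap_eq {T : Over X} (φ : F ⟶ G) (q : ℕ) (x : H T F q) : Hmap φ T q x = post _ φ q x := rfl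

lemma cmpH_map {d : (pb (J := Scheme.etaleTopology) a).obj G ⟶ G'} {φ : F ⟶ G} {φ' : F' ⟶ G'}
    (h : (pb (J := Scheme.etaleTopology) a).map φ ≫ d = c ≫ φ') (q : ℕ) (x : H V F q) :
    Hmap φ' U q (cmpH a θ c q x) = cmpH a θ d q (Hmap φ V q x) := by
  rw [cmpH_apply, cmpH_apply, ← Hmap_res, Hmap_eq, Hmap_eq, slH_post]
  exact (post_post _ _ _).trans (h ▸ (post_post _ _ _).symm)

lemma cmpH_res {g : U ⟶ U} {g' : V ⟶ V} (h : (Over.map a).map g ≫ θ = θ ≫ g') (q : ℕ)
    (x : H V F q) : cmpH a θ c q (res g' _ q x) = res g _ q (cmpH a θ c q x) := by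
  have h1 : res θ _ q (res g' _ q x) = res ((Over.map a).map g) _ q (res θ _ q x) := by
    rw [pre_pre, pre_pre, ← Functor.map_comp, ← Functor.map_comp, h]
  rw [cmpH_apply, cmpH_apply, h1, slH_res]
  exact (pre_post _ _ _).symm

/-- Comparison of `l`-adic cohomology. -/
noncomputable def cmpL (l i : ℕ) : Hl l i V →ₗ[ℚ] Hl l i U :=
  (tmap (fun n => cmpH a θ (cZ a l n) i)
    fun n => cmpH_map a θ _ (cZ_nat a l n) i).toIntLinearMap.baseChange ℚ

lemma cmpL_bij [IsIso θ] (l i : ℕ) : Bijective (cmpL a θ l i) :=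
  bc_bij _ _ fun _ => cmpH_bij a θ _ i

lemma cmpL_res {g : U ⟶ U} {g' : V ⟶ V} (h : (Over.map a).map g ≫ θ = θ ≫ g') (l i : ℕ)
    (v : Hl l i V) : cmpL a θ l i (Hl.res l i g' v) = Hl.res l i g (cmpL a θ l i v) :=
  bc_comm _ _ _ _ _ _ (fun _ => cmpH_res a θ _ h i) v

lemma exists_theta {S S' T X' : Scheme.{0}} {f : X ⟶ S} {f' : X' ⟶ S'} {a : X' ⟶ X} {t : S' ⟶ S}
    (h : IsPullback f' a t f) (s' : T ⟶ S') (s : T ⟶ S) (hs : s' ≫ t = s) :
    ∃ θ : (Over.map a).obj (fbr f' s') ⟶ fbr f s, IsIso θ ∧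
      ∀ (g' : Over.mk s' ⟶ Over.mk s') (g : Over.mk s ⟶ Over.mk s), g'.left = g.left →
        (Over.map a).map ((Over.pullback f').map g') ≫ θ = θ ≫ (Over.pullback f).map g := by
  subst hs
  have hP : IsPullback (pullback.fst s' f') (pullback.snd s' f' ≫ a) (s' ≫ t) f :=
    (IsPullback.of_hasPullback s' f').paste_vert h
  let e : pullback s' f' ⟶ pullback (s' ≫ t) f := hP.isoPullback.hom
  have e1 : e ≫ pullback.fst _ _ = pullback.fst s' f' := hP.isoPullback_hom_fst
  have e2 : e ≫ pullback.snd _ _ = pullback.snd s' f' ≫ a := hP.isoPullback_hom_snd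
  have he : IsIso e := inferInstance
  clear_value e
  refine ⟨Over.homMk e e2, isIso_homMk _ he, fun g' g h => ?_⟩
  ext
  refine pullback.hom_ext ?_ ?_ <;> simp [h, e1, e2, reassoc_of% e1]

/-- Purity for a pair of endomorphisms of a scheme over `S`. -/
def MwT {S T : Scheme.{0}} (f : X ⟶ S) (l i Q : ℕ) {s : T ⟶ S} (g u : Over.mk s ⟶ Over.mk s) :
    Prop :=
  Mw Q i (Hl.res l i ((Over.pullback f).map g)) (Hl.res l i ((Over.pullback f).map u))

lemma MwT.bc {S S' T X' : Scheme.{0}} {f : X ⟶ S} {f' : X' ⟶ S'} {a : X' ⟶ X} {t : S' ⟶ S}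
    (h : IsPullback f' a t f) {s' : T ⟶ S'} {s : T ⟶ S} (hs : s' ≫ t = s) {l i Q : ℕ}
    {g u : Over.mk s ⟶ Over.mk s} {g' u' : Over.mk s' ⟶ Over.mk s'} (h1 : g'.left = g.left)
    (h2 : u'.left = u.left) (H : MwT f' l i Q g' u') : MwT f l i Q g u := by
  obtain ⟨θ, _, hθ⟩ := exists_theta h s' s hs
  exact mw_equiv _ (cmpL_bij a θ l i) (cmpL_res a θ (hθ _ _ h1) l i)
    (cmpL_res a θ (hθ _ _ h2) l i) H

/-- Purity for a pair of automorphisms. -/
def MwG {R Ω : Type} [CommRing R] [Field Ω] [Algebra R Ω] (f : X ⟶ Spec (.of R)) (l i Q : ℕ)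
    (φ u : Ω ≃ₐ[R] Ω) : Prop := Mw Q i (E.gal f l i φ) (E.gal f l i u)

/-- An automorphism as a morphism over the base. -/
noncomputable def gm {R Ω : Type} [CommRing R] [Field Ω] [Algebra R Ω] (σ : Ω ≃ₐ[R] Ω) :
    Over.mk (spc (algebraMap R Ω)) ⟶ Over.mk (spc (algebraMap R Ω)) :=
  sph (σ : Ω →+* Ω) (by
    rw [← Spec.map_comp, ← CommRingCat.ofHom_comp]; congr 2; exact RingHom.ext σ.commutes)

lemma mwG_iff {R Ω : Type} [CommRing R] [Field Ω] [Algebra R Ω] (f : X ⟶ Spec (.of R))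
    (l i Q : ℕ) (φ u : Ω ≃ₐ[R] Ω) : MwG f l i Q φ u ↔ MwT f l i Q (gm φ) (gm u) := Iff.rfl

open LP in
lemma mainG (h : Main_s) : ∀ (R : Type) [CommRing R] [Algebra.FiniteType ℤ R] (X : Scheme.{0})
  (f : X ⟶ Spec (.of R)) [Smooth f] [IsProper f],
    ∃ M : ℕ, M ≠ 0 ∧ ∀ (p l : ℕ) [Fact p.Prime] [Fact l.Prime], ¬ p ∣ M → l ≠ p →
      ∀ [Algebra R (PadicAlgCl p)] (i : ℕ) (φ u : PadicAlgCl p ≃ₐ[R] PadicAlgCl p) (Q : ℕ), 1 < Q →
        Frob ℤ_[p] Q φ → Frob ℤ_[p] 1 u →
        (∃ (n : ℕ) (r : PadicAlgCl p) (o : ℤ_[p]), r ^ l ^ n = algebraMap _ _ o ∧ u r ≠ r) →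
        MwG f l i Q φ u := h

open LP in
/-- One stratum. -/
lemma step (h : Main_s) {R : Type} [CommRing R] (T : Type) [CommRing T] [Algebra R T]
    [Algebra.FiniteType ℤ R] (hT : Algebra.FiniteType R T) (f : X ⟶ Spec (.of R)) [IsProper f]
    (sm : Smooth (pullback.fst (spc (algebraMap R T)) f))
    (ep : ∀ (Ω : Type) [Field Ω] (a b : T →+* Ω),
      (∀ r, a (algebraMap R T r) = b (algebraMap R T r)) → a = b) :
    ∃ M : ℕ, M ≠ 0 ∧ ∀ (p l : ℕ) [Fact p.Prime] [Fact l.Prime], ¬ p ∣ M → l ≠ p →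
      ∀ [Algebra R (PadicAlgCl p)] (ψ : T →+* PadicAlgCl p),
        (∀ r, ψ (algebraMap R T r) = algebraMap R _ r) →
        ∀ (i : ℕ) (φ u : PadicAlgCl p ≃ₐ[R] PadicAlgCl p) (Q : ℕ), 1 < Q →
        Frob ℤ_[p] Q φ → Frob ℤ_[p] 1 u →
        (∃ (n : ℕ) (r : PadicAlgCl p) (o : ℤ_[p]), r ^ l ^ n = algebraMap _ _ o ∧ u r ≠ r) →
        MwG f l i Q φ u := by
  have : Algebra.FiniteType ℤ T := .trans (S := R) inferInstance hT
  obtain ⟨M, M0, hM⟩ := mainG h T _ (pullback.fst (spc (algebraMap R T)) f)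
  refine ⟨M, M0, fun p l _ _ hp hl _ ψ hψ i φ u Q hQ hφ hu hr => ?_⟩
  let := ψ.toAlgebra
  have ext (σ : PadicAlgCl p ≃ₐ[R] PadicAlgCl p) :
      ∃ σ' : PadicAlgCl p ≃ₐ[T] PadicAlgCl p, ⇑σ' = σ :=
    ⟨{ σ with
      commutes' := fun z => congr($(ep _ ((σ : PadicAlgCl p →+* PadicAlgCl p).comp ψ) ψ fun r =>
        (congrArg σ (hψ r)).trans ((σ.commutes r).trans (hψ r).symm)) z) }, rfl⟩
  obtain ⟨φ', e1⟩ := ext φ
  obtain ⟨u', e2⟩ := ext u
  rw [← e1] at hφ
  rw [← e2] at hu hr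
  have H : MwG (pullback.fst (spc (algebraMap R T)) f) l i Q φ' u' :=
    hM p l hp hl i φ' u' Q hQ hφ hu hr
  rw [mwG_iff] at H ⊢
  refine H.bc (IsPullback.of_hasPullback _ f) ?_ (congrArg spc (RingHom.ext (congrFun e1)))
    (congrArg spc (RingHom.ext (congrFun e2)))
  rw [← Spec.map_comp, ← CommRingCat.ofHom_comp]
  exact congrArg spc (RingHom.ext hψ)

open LP in
lemma main2G (h : Main_s) : ∀ (R : Type) [CommRing R] [Algebra.FiniteType ℤ R] (X : Scheme.{0})
  (f : X ⟶ Spec (.of R)) [IsProper f],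
    ∃ M : ℕ, M ≠ 0 ∧ ∀ (p l : ℕ) [Fact p.Prime] [Fact l.Prime], ¬ p ∣ M → l ≠ p →
      ∀ [Algebra R (PadicAlgCl p)],
        Smooth (pullback.fst (Spec.map (CommRingCat.ofHom (algebraMap R (PadicAlgCl p)))) f) →
        ∀ (i : ℕ) (φ u : PadicAlgCl p ≃ₐ[R] PadicAlgCl p) (Q : ℕ), 1 < Q →
        Frob ℤ_[p] Q φ → Frob ℤ_[p] 1 u →
        (∃ (n : ℕ) (r : PadicAlgCl p) (o : ℤ_[p]), r ^ l ^ n = algebraMap _ _ o ∧ u r ≠ r) →
        MwG f l i Q φ u := by
  intro R _ _ X f _
  have : IsNoetherianRing R := Algebra.FiniteType.isNoetherianRing ℤ R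
  obtain ⟨s, s1, s2, s3⟩ := Strat.strat f
  choose M M0 hM using fun x : s => step h (Localization.Away (Ideal.Quotient.mk x.1.1 x.1.2))
    (have := IsLocalization.Away.finitePresentation (Ideal.Quotient.mk x.1.1 x.1.2)
      (S := Localization.Away (Ideal.Quotient.mk x.1.1 x.1.2))
    .trans (S := R ⧸ x.1.1) inferInstance inferInstance) f
    (s2 x.1 x.2 _ (fun r hr => by
      rw [RingHom.mem_ker, IsScalarTower.algebraMap_apply R (R ⧸ x.1.1),
        Ideal.Quotient.algebraMap_eq, Ideal.Quotient.eq_zero_iff_mem.2 hr, map_zero])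
      (IsLocalization.Away.algebraMap_isUnit (Ideal.Quotient.mk x.1.1 x.1.2)))
    fun Ω _ a b e => IsLocalization.ringHom_ext (Submonoid.powers (Ideal.Quotient.mk x.1.1 x.1.2))
      (Ideal.Quotient.ringHom_ext (RingHom.ext e))
  have := s1.fintype
  refine ⟨∏ x, M x, Finset.prod_ne_zero_iff.2 fun x _ => M0 x,
    fun p l _ _ hp hl _ hs i φ u Q hQ hφ hu hr => ?_⟩
  obtain ⟨x, hx, h1, h2⟩ := s3 _ hs
  exact hM ⟨x, hx⟩ p l
    (fun h => hp (h.trans (Finset.dvd_prod_of_mem _ (Finset.mem_univ _)))) hl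
    (IsLocalization.Away.lift (Ideal.Quotient.mk x.1 x.2)
      (g := Ideal.Quotient.lift x.1 (algebraMap R _) h1) (isUnit_iff_ne_zero.2 h2))
    (fun r => IsLocalization.Away.lift_eq (Ideal.Quotient.mk x.1 x.2) _ (Ideal.Quotient.mk x.1 r))
    i φ u Q hQ hφ hu hr

end M2

theorem main2 (h : Main_s) : Main2_s := M2.main2G h

end Pool.Agent.MP_855f4c_ag.E

end

section

/-! Cohomology on the absolute site and on a slice. -/

set_option autoImplicit false
set_option backward.isDefEq.respectTransparency false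

open CategoryTheory Limits Abelian Opposite AlgebraicGeometry

namespace Pool.Agent.MP_855f4c_ag.Et

open E E4

/-- The absolute etale site. -/
abbrev Je : GrothendieckTopology Scheme.{0} := Scheme.etaleTopology

/-- Two models of the free abelian presheaf. -/
noncomputable def frI : frP (C := Scheme.{0}) ≅
    uliftYoneda.{1} ⋙ (Functor.whiskeringRight _ _ _).obj AddCommGrpCat.free :=
  NatIso.ofComponents (fun X => NatIso.ofComponents
    (fun T => (FreeAbelianGroup.equivFinsupp (ULift.{1} (T.unop ⟶ X))).symm.toAddCommGrpIso)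
    fun g => AddCommGrpCat.hom_ext (Finsupp.addHom_ext fun x n => by
      change Finsupp.toFreeAbelianGroup (Finsupp.mapDomain _ (Finsupp.single x n)) =
        FreeAbelianGroup.map _ (Finsupp.toFreeAbelianGroup (Finsupp.single x n))
      rw [Finsupp.mapDomain_single, Finsupp.toFreeAbelianGroup_single,
        Finsupp.toFreeAbelianGroup_single, map_zsmul]
      rfl))
    fun f => NatTrans.ext (funext fun T => AddCommGrpCat.hom_ext (Finsupp.addHom_ext fun x n => by
      change Finsupp.toFreeAbelianGroup (Finsupp.mapDomain _ (Finsupp.single x n)) =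
        FreeAbelianGroup.map _ (Finsupp.toFreeAbelianGroup (Finsupp.single x n))
      rw [Finsupp.mapDomain_single, Finsupp.toFreeAbelianGroup_single,
        Finsupp.toFreeAbelianGroup_single, map_zsmul]
      rfl))

/-- The free abelian sheaf of the statement. -/
noncomputable abbrev frA : Scheme.{0} ⥤ Sh Je :=
  uliftYoneda.{1} ⋙ (Functor.whiskeringRight _ _ _).obj AddCommGrpCat.free ⋙ presheafToSheaf Je Ab.{1}

/-- Two models of the free abelian sheaf. -/
noncomputable def frJ : fr Je ≅ frA := Functor.isoWhiskerRight frI (presheafToSheaf Je Ab.{1})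

variable (X : Scheme.{0})

/-- Restriction to the slice. -/
abbrev rsX : Sh Je ⥤ Sh (Scheme.etaleTopology.over X) := psh (Over.forget X) (Scheme.etaleTopology.over X) Je

instance rsX_add : (rsX X).Additive := ⟨rfl⟩

instance rsX_lim : PreservesFiniteLimits (rsX X) := psh_lim _ _ _

instance rsX_colim : PreservesFiniteColimits (rsX X) :=
  have := ((Over.forgetAdjStar X).sheafPushforwardContinuous (E := Ab.{1}) (Scheme.etaleTopology.over X)
    Je).leftAdjoint_preservesColimits.{0, 0}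
  inferInstance

/-- Constant sheaves restrict to constant sheaves. -/
noncomputable def cstI : cst X ≅ constantSheaf Je Ab.{1} ⋙ rsX X :=
  Functor.isoWhiskerLeft (Functor.const _)
    ((Over.forget X).pushforwardContinuousSheafificationCompatibility Ab.{1} (Scheme.etaleTopology.over X) Je)

variable {X}

/-- The image of a Cech nerve in the absolute site. -/
def cechAbs {V U : Over X} {p : V ⟶ U} (N : Cech p) : Cech ((Over.forget X).map p) where
  X n := (N.X n).left
  b n := (N.b n).left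
  π n j := (N.π n j).left
  w n j := congr(($(N.w n j)).left)
  ex n T u a h := by
    obtain ⟨x, h1, h2⟩ := N.ex n (T := Over.mk (u ≫ U.hom)) (Over.homMk u)
      (fun j => Over.homMk (a j) (by
        rw [← Over.w p, ← h j]; exact (Category.assoc _ _ _).symm))
      fun j => Over.OverMorphism.ext (h j)
    exact ⟨x.left, congr(($h1).left), fun j => congr(($(h2 j)).left)⟩
  ext n T x y h h' := by
    have e : y ≫ (N.X n).hom = x ≫ (N.X n).hom := by
      rw [← Over.w (N.b n), ← Category.assoc, ← Category.assoc]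
      exact congrArg (· ≫ U.hom) h.symm
    have := N.ext n (T := Over.mk (x ≫ (N.X n).hom)) (Over.homMk x) (Over.homMk y e)
      (Over.OverMorphism.ext h) fun j => Over.OverMorphism.ext (h' j)
    exact congr(($this).left)

lemma cechAbs_cd {V U : Over X} {p : V ⟶ U} (N : Cech p) (I : Sh Je) (n : ℕ) (s) :
    N.cd ((rsX X).obj I).obj n s = (cechAbs N).cd I.obj n s := by
  refine Finset.sum_congr rfl fun i _ => ?_
  have : (cechAbs N).face n i = (N.face n i).left :=
    (cechAbs N).ext _ _ _ (by rw [Cech.face_b]; exact congr(($(N.face_b n i)).left).symm)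
      fun j => by rw [Cech.face_π]; exact congr(($(N.face_π n i j)).left).symm
  rw [this]
  rfl

/-- `H^q(T, F) → H^q(T, F|X)`. -/
noncomputable def absH (T : Over X) (F : Sh Je) (q : ℕ) :
    ((coh q).obj (op T.left)).obj F →+ H T ((rsX X).obj F) q :=
  (cmp (rsX X) (frPs (Over.forget X) _ _ T) F q).comp (pre (frJ.hom.app T.left) F q)

theorem absH_bij (T : Over X) (F : Sh Je) (q : ℕ) : Function.Bijective (absH T F q) :=
  (cmp_bij _ _ (frPs_bij _ _ _ T) (fun I _ n y => cartan_et (fun _ => True)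
    (fun _ _ _ _ _ => trivial) _ (fun V U p _ _ _ N n s hs => by
      obtain ⟨t, ht⟩ := (cechAbs N).acy_inj I n s ((cechAbs_cd N I _ s).symm.trans hs)
      exact ⟨t, (cechAbs_cd N I _ t).trans ht⟩) trivial n y) q F).comp (pre_bij _ F q)

theorem absH_res {T' T : Over X} (g : T' ⟶ T) (F : Sh Je) (q : ℕ)
    (x : ((coh q).obj (op T.left)).obj F) :
    absH T' F q (((coh q).map g.left.op).app F x) = res g _ q (absH T F q x) :=
  (congrArg (cmp (rsX X) (frPs (Over.forget X) _ _ T') F q)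
    ((pre_pre (frJ.hom.app T'.left) (frA.map g.left) x).trans
      ((congrArg (pre · F q x) (frJ.hom.naturality g.left).symm).trans
        (pre_pre _ _ x).symm))).trans (cmp_res _ _ _ g F q _)

theorem absH_map (T : Over X) {F G : Sh Je} (u : F ⟶ G) (q : ℕ)
    (x : ((coh q).obj (op T.left)).obj F) :
    absH T G q (((coh q).obj (op T.left)).map u x) = Hmap ((rsX X).map u) T q (absH T F q x) :=
  (congrArg (cmp (rsX X) (frPs (Over.forget X) _ _ T) G q)
    (pre_post (frJ.hom.app T.left) u x)).trans ((cmp_comp _ _ _ _ (add_zero q)).trans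
      (congrArg (Ext.comp _ · (add_zero q)) (Ext.mapExactFunctor_mk₀ _ _)))

/-- The comparison with coefficients `ℤ/l^n`. -/
noncomputable def absZ (T : Over X) (l n q : ℕ) :
    ((coh q).obj (op T.left)).obj ((tower l).obj (op n)) →+ H T (Zl X l n) q :=
  (Hmap ((cstI X).inv.app _) T q).comp (absH T _ q)

theorem absZ_bij (T : Over X) (l n q : ℕ) : Function.Bijective (absZ T l n q) :=
  (post_bij _ _ q).comp (absH_bij T _ q)

theorem absZ_res {T' T : Over X} (g : T' ⟶ T) (l n q : ℕ) (x) :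
    absZ T' l n q (((coh q).map g.left.op).app _ x) = res g _ q (absZ T l n q x) :=
  (congrArg _ (absH_res g _ q x)).trans (Hmap_res g _ q _)

theorem absZ_map (T : Over X) (l n q : ℕ) (x) :
    absZ T l n q (((coh q).obj (op T.left)).map
      ((tower l).map (homOfLE (n.le_add_right 1)).op) x) =
      Hmap (Zr X l n) T q (absZ T l (n + 1) q x) := by
  refine (congrArg _ (absH_map T _ q x)).trans ((post_post _ _ _).trans
    (Eq.trans (congrArg (post _ · q _) ?_) (post_post _ _ _).symm))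
  refine Eq.trans ?_ ((cstI X).inv.naturality _)
  congr 1
  exact congrArg (fun a => (rsX X).map ((constantSheaf Je Ab.{1}).map
    (AddCommGrpCat.uliftFunctor.{1}.map a))) (Functor.ofOpSequence_map_homOfLE_succ _ n)

end Pool.Agent.MP_855f4c_ag.Et

end

section

/-! From the working definitions to the definitions of the statement. -/

set_option autoImplicit false
set_option backward.isDefEq.respectTransparency false

open CategoryTheory Limits Opposite AlgebraicGeometry Function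

namespace Pool.Agent.MP_855f4c_ag.Et

open E

lemma lim_bij (D : ℕᵒᵖ ⥤ Ab.{1}) {B : ℕ → Type 1} [∀ n, AddCommGroup (B n)]
    (s : ∀ n, B (n + 1) →+ B n) (g : ∀ n, D.obj (op n) →+ B n) (hg : ∀ n, Bijective (g n))
    (h : ∀ n x, g n (D.map (homOfLE (n.le_add_right 1)).op x) = s n (g (n + 1) x)) :
    ∃ e : (limit D : Ab.{1}) →+ tlim s, Bijective e ∧
      ∀ x n, (e x).1 n = g n (limit.π D (op n) x) := by
  refine ⟨(AddMonoidHom.pi fun n => (g n).comp (limit.π D (op n)).hom).codRestrict _ fun x n =>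
    (h n _).symm.trans (congrArg (g n) congr($(limit.w D (homOfLE (n.le_add_right 1)).op) x)),
    ⟨fun x y e => Concrete.limit_ext D x y fun n => (hg n.unop).1 congr(($e).1 n.unop),
      fun y => ?_⟩, fun _ _ => rfl⟩
  let a (n : ℕ) := AddEquiv.ofBijective (g n) (hg n)
  let c : Cone D := ⟨.of (tlim s), NatTrans.ofOpSequence (fun n => AddCommGrpCat.ofHom
    ((a n).symm.toAddMonoidHom.comp ((Pi.evalAddMonoidHom B n).comp (tlim s).subtype))) fun n =>
      AddCommGrpCat.hom_ext (AddMonoidHom.ext fun z => (hg n).1 (((a n).apply_symm_apply _).trans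
        ((z.2 n).symm.trans ((congrArg (s n) ((a (n + 1)).apply_symm_apply _).symm).trans
          (h n _).symm))))⟩
  exact ⟨limit.lift D c y, Subtype.ext (funext fun n =>
    (congrArg (g n) congr($(limit.lift_π c (op n)) y)).trans ((a n).apply_symm_apply _))⟩

lemma hl_equiv {X : Scheme.{0}} (T : Over X) (l i : ℕ) :
    ∃ e : (Hl l i).obj (op T.left) →ₗ[ℚ] E.Hl l i T, Bijective e ∧
      ∀ (g : T ⟶ T) v, e (((Hl l i).map g.left.op).hom v) = E.Hl.res l i g (e v) := by
  obtain ⟨e, h1, h2⟩ := lim_bij (tower l ⋙ (coh i).obj (op T.left)) _ (fun n => absZ T l n i)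
    (fun n => absZ_bij T l n i) fun n => absZ_map T l n i
  refine ⟨e.toIntLinearMap.baseChange ℚ,
    ((LinearEquiv.ofBijective e.toIntLinearMap h1).baseChange ℤ ℚ _ _).bijective, fun g v => ?_⟩
  induction v using TensorProduct.induction_on with
  | zero => simp only [map_zero]
  | add x y hx hy => simp only [map_add, hx, hy]
  | tmul c x =>
    refine congrArg (c ⊗ₜ[ℤ] ·) (Subtype.ext (funext fun n => (h2 _ n).trans (Eq.trans ?_
      ((absZ_res g l n i _).trans (congrArg _ (h2 x n).symm)))))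
    exact congrArg _ congr($(limMap_π (Functor.whiskerLeft (tower l) ((coh i).map g.left.op))
      (op n)) x)

theorem mw_of {R Ω : Type} [CommRing R] [Field Ω] [Algebra R Ω] {X : Scheme.{0}}
    (f : X ⟶ Spec (.of R)) (l i Q : ℕ) (φ u : Ω ≃ₐ[R] Ω)
    (h : E.Mw Q i (E.gal f l i φ) (E.gal f l i u)) : Mw Q i (gal f l i φ) (gal f l i u) := by
  obtain ⟨e, h1, h2⟩ := hl_equiv (fbr f (Spec.map (CommRingCat.ofHom (algebraMap R Ω)))) l i
  have key (σ : Ω ≃ₐ[R] Ω) v : e (gal f l i σ v) = E.gal f l i σ (e v) := by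
    refine Eq.trans ?_ (h2 _ v)
    refine congrArg (fun a : _ ⟶ _ => e (((Hl l i).map a.op).hom v)) (pullback.hom_ext ?_ ?_)
    · exact (pullback.lift_fst _ _ _).trans (pullback.lift_fst _ _ _).symm
    · exact (pullback.lift_snd _ _ _).trans ((Category.comp_id _).trans (pullback.lift_snd _ _ _).symm)
  exact M2.mw_equiv e h1 (key φ) (key u) h

end Pool.Agent.MP_855f4c_ag.Et

end
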