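import Pool.Agent.MP_855f4c_ag.EC.Da
import Pool.Agent.MP_855f4c_ag.EC.F2b
import Pool.Agent.MP_855f4c_ag.EC.Xb
import Pool.Agent.MP_855f4c_ag.EC.M3a
import Pool.Agent.MP_855f4c_ag.EC.Ub
import Pool.Agent.MP_855f4c_ag.EC.F2e
import Pool.Agent.MP_855f4c_ag.EC.F2c

section

/-! h86e section D, row DALG: lower bounds for eigenvalues from pairings at finite level. -/

namespace Pool.Agent.MP_855f4c_ag.E.D

open Polynomial Module

namespace DALG

variable {l : ℕ} [Fact l.Prime] {M N : Type 1} [AddCommGroup M] [AddCommGroup N]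

variable (l) in
/-- `ℤ_l` in `ℚ_l`. -/
noncomputable def zs : Submodule ℤ_[l] ℚ_[l] :=
  { (PadicInt.subring l).toAddSubgroup with smul_mem' := fun c _ hx => Subring.mul_mem _ c.2 hx }

/-- `ℚ_l / ℤ_l` as a module over `ℤ_l`. -/
@[reducible] noncomputable def qm : Module ℤ_[l] (QZ l) :=
  inferInstanceAs (Module ℤ_[l] (ℚ_[l] ⧸ zs l))

attribute [local instance] qm

lemma smul_eq (c : ℤ_[l]) (y : QZ l) : c • y = QZ.mul l c y := by
  obtain ⟨x, rfl⟩ := QuotientAddGroup.mk_surjective y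
  rfl

/-- The transpose on characters. -/
noncomputable def tp (h : M →+ N) : (N →+ QZ l) →ₗ[ℤ_[l]] (M →+ QZ l) where
  toFun f := f.comp h
  map_add' _ _ := rfl
  map_smul' _ _ := rfl

lemma tp_pow (φ : M →+ M) (n : ℕ) (f : M →+ QZ l) (z : M) :
    ((tp φ : End ℤ_[l] _) ^ n) f z = f (φ^[n] z) := by
  induction n generalizing z with
  | zero => rfl
  | succ n ih => rw [pow_succ', End.mul_apply]; exact ih _

lemma inter {K A B : Type*} [CommRing K] [AddCommGroup A] [Module K A] [AddCommGroup B] [Module K B]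
    (i : A →ₗ[K] B) {a : End K A} {b : End K B} (h : ∀ v, b (i v) = i (a v)) (P : K[X]) (v : A) :
    aeval b P (i v) = i (aeval a P v) := by
  have h1 : ∀ (n : ℕ) v, (b ^ n) (i v) = i ((a ^ n) v) := fun n => by
    induction n with
    | zero => exact fun _ => rfl
    | succ n ih => intro v; rw [pow_succ, pow_succ, End.mul_apply, End.mul_apply, ← ih, h]
  rw [aeval_eq_sum_range, aeval_eq_sum_range, LinearMap.sum_apply, LinearMap.sum_apply, map_sum]
  exact Finset.sum_congr rfl fun n _ => by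
    rw [LinearMap.smul_apply, LinearMap.smul_apply, h1, map_smul]

lemma tp_inter (i : M →+ N) {a : M →+ M} {b : N →+ N} (h : ∀ y, i (a y) = b (i y)) (P : ℤ_[l][X])
    (g : N →+ QZ l) : aeval (tp a : End ℤ_[l] (M →+ QZ l)) P (tp i g) =
      tp i (aeval (tp b : End ℤ_[l] (N →+ QZ l)) P g) :=
  inter (K := ℤ_[l]) (A := N →+ QZ l) (B := M →+ QZ l) (tp i) (a := tp b) (b := tp a)
    (fun v => AddMonoidHom.ext fun y => congrArg v (h y)) P g

lemma kap_aeval (φ : M →+ M) (P : ℤ_[l][X]) (f : M →+ QZ l) : kap l M (aeval (tp φ) P f) =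
    aeval ((Vm l φ).dualMap : End ℚ_[l] _) (P.map (algebraMap _ ℚ_[l])) (kap l M f) := by
  have h1 : ∀ (n : ℕ) f, kap l M (((tp φ : End ℤ_[l] _) ^ n) f) =
      (((Vm l φ).dualMap : End ℚ_[l] _) ^ n) (kap l M f) := fun n => by
    induction n with
    | zero => exact fun _ => rfl
    | succ n ih => intro f; rw [pow_succ, pow_succ, End.mul_apply, End.mul_apply, ih]; rfl
  induction P using Polynomial.induction_on' with
  | add p q hp hq => simp only [Polynomial.map_add, map_add, LinearMap.add_apply, hp, hq]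
  | monomial n c =>
    rw [map_monomial, aeval_monomial, aeval_monomial, End.mul_apply, End.mul_apply,
      Module.algebraMap_end_apply, Module.algebraMap_end_apply, ← h1]
    exact (congrArg _ (AddMonoidHom.ext fun _ => smul_eq _ _)).trans (kap_mul _ _)

variable {j : ℚ_[l] →+* ℂ} {S : Set ℝ}

lemma of_ev (hM : Cof l M) {φ : M →+ M} (h : Ev j S φ) : ∃ P : ℤ_[l][X], P ≠ 0 ∧
    aeval (tp φ : End ℤ_[l] (M →+ QZ l)) P = 0 ∧
      ∀ z : ℂ, P.eval₂ (j.comp (algebraMap _ _)) z = 0 → ‖z‖ ^ 2 ∈ S := by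
  obtain ⟨P, h1, h2, h3⟩ := (ev_def.1 h).dual
  obtain ⟨c, hc⟩ := hM.kap_ker
  obtain ⟨b, b0, hb⟩ := IsLocalization.integerNormalization_spec (nonZeroDivisors ℤ_[l]) P
  have l0 : ((l ^ c : ℕ) : ℤ_[l]) ≠ 0 :=
    Nat.cast_ne_zero.2 (pow_ne_zero c (Fact.out : l.Prime).ne_zero)
  have hj : ∀ a : ℤ_[l], a ≠ 0 → j.comp (algebraMap _ _) a ≠ 0 := fun a ha =>
    (map_ne_zero j).2 (PadicInt.coe_ne_zero.2 ha)
  refine ⟨C ((l ^ c : ℕ) : ℤ_[l]) * IsLocalization.integerNormalization (nonZeroDivisors ℤ_[l]) P,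
    mul_ne_zero (C_ne_zero.2 l0) (mt IsFractionRing.integerNormalization_eq_zero_iff.1 h1),
    LinearMap.ext fun f => ?_, fun z hz => h3 z ?_⟩
  · rw [map_mul, aeval_C, End.mul_apply, Module.algebraMap_end_apply, Nat.cast_smul_eq_nsmul]
    refine hc _ ?_
    rw [kap_aeval, hb, ← algebraMap_smul ℚ_[l], map_smul, h2, smul_zero, LinearMap.zero_apply]
  · rw [eval₂_mul, eval₂_C, mul_eq_zero, or_iff_right (hj _ l0), ← eval₂_map, hb,
      ← algebraMap_smul ℚ_[l], eval₂_smul, mul_eq_zero] at hz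
    exact hz.resolve_left (hj b (nonZeroDivisors.ne_zero b0))

lemma to_ev (hM : Cof l M) {φ : M →+ M} {P : ℤ_[l][X]} (h1 : P ≠ 0)
    (h2 : aeval (tp φ : End ℤ_[l] (M →+ QZ l)) P = 0)
    (h3 : ∀ z : ℂ, P.eval₂ (j.comp (algebraMap _ _)) z = 0 → ‖z‖ ^ 2 ∈ S) : Ev j S φ :=
  have := hM.finiteDimensional
  ev_def.2 (EvL.of_dual ⟨P.map (algebraMap _ _),
    (Polynomial.map_ne_zero_iff (FaithfulSMul.algebraMap_injective _ _)).2 h1,
    kap_ext hM fun f => by
      rw [← kap_aeval, h2, LinearMap.zero_apply, map_zero, LinearMap.zero_apply],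
    fun z hz => h3 z (by rwa [eval₂_map] at hz)⟩)

lemma appr (c : ℤ_[l]) (m : ℕ) : ∃ a : ℕ, ∀ y : QZ l, l ^ m • y = 0 → c • y = a • y := by
  obtain ⟨a, d, h⟩ := QZ.mul_eq c m
  exact ⟨a, fun y hy => by rw [smul_eq, h, ← map_nsmul, hy, map_zero, add_zero]⟩

end DALG

open DALG in
attribute [local instance] qm in
theorem dalg : DALG_s := by
  intro l _ M N₁ N₂ _ _ _ φ φ₁ φ₂ j c B hc hM h₁ h₂ e₁ e₂ H
  obtain ⟨P₁, p1, q1, r1⟩ := of_ev h₁ e₁
  obtain ⟨P₂, p2, q2, r2⟩ := of_ev h₂ e₂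
  obtain ⟨P, hP⟩ : ∃ P, P = P₂ * P₁ := ⟨_, rfl⟩
  have P0 : P ≠ 0 := hP ▸ mul_ne_zero p2 p1
  let D := P.natDegree
  let R : ℤ_[l][X] := ∑ k ∈ Finset.range (D + 1), monomial (D - k) (P.coeff k * c ^ k)
  have hR : ∀ z : ℂ, R.eval₂ (j.comp (algebraMap _ _)) z = ∑ k ∈ Finset.range (D + 1),
      j.comp (algebraMap _ _) (P.coeff k) * c ^ k * z ^ (D - k) := fun z => by
    simp only [R, eval₂_finsetSum, eval₂_monomial, map_mul, map_pow, map_natCast]
  have c0 : (c : ℂ) ≠ 0 := Nat.cast_ne_zero.2 hc.ne'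
  have R0 : R.eval₂ (j.comp (algebraMap _ _)) 0 ≠ 0 := by
    rw [hR, Finset.sum_range_succ, Finset.sum_eq_zero fun k hk => by
      rw [zero_pow (Nat.sub_ne_zero_of_lt (Finset.mem_range.1 hk)), mul_zero], zero_add,
      Nat.sub_self, pow_zero, mul_one]
    exact mul_ne_zero ((map_ne_zero j).2 (PadicInt.coe_ne_zero.2 (leadingCoeff_ne_zero.2 P0)))
      (pow_ne_zero _ c0)
  refine to_ev hM (P := R) (fun e => R0 (by rw [e, eval₂_zero]))
    (LinearMap.ext fun f => AddMonoidHom.ext fun z => ?_) fun z hz => ?_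
  · obtain ⟨m, hm⟩ := hM.1 z
    obtain ⟨E, G, _, _, e, h, p, a₁, a₂, b, t1, t2, t3, t4, t5, t6, t7, t8, t9⟩ := H m
    obtain ⟨x, rfl⟩ := t2 z hm
    have hG : ∀ g, aeval (tp h : End ℤ_[l] (G →+ QZ l)) P g = 0 := fun g => by
      have h1 : ∀ y, a₂ y = 0 → aeval (tp h : End ℤ_[l] (G →+ QZ l)) P₁ g y = 0 := fun y hy => by
        obtain ⟨z, rfl⟩ := t6 y hy
        have := tp_inter a₁ t4 P₁ g
        rw [q1] at this
        exact (DFunLike.congr_fun this z).symm
      obtain ⟨g', hg'⟩ := QZ.extend (QuotientAddGroup.kerLift a₂)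
        (QuotientAddGroup.kerLift_injective _) (QuotientAddGroup.lift _ _ h1)
      have h2 : aeval (tp h : End ℤ_[l] (G →+ QZ l)) P₁ g = tp a₂ g' :=
        AddMonoidHom.ext fun y => (DFunLike.congr_fun hg' (QuotientAddGroup.mk y)).symm
      rw [hP, map_mul, End.mul_apply, h2, tp_inter a₂ t5, q2, LinearMap.zero_apply, map_zero]
    have h3 : ∀ (n : ℕ) y, b (e^[n] x) (h^[n] y) = c ^ n • b x y := fun n y => by
      induction n with
      | zero => rw [pow_zero, one_smul]; rfl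
      | succ n ih =>
        rw [Function.iterate_succ_apply', Function.iterate_succ_apply', t9, ih, pow_succ', mul_smul]
    choose n hn using fun k => appr (P.coeff k * (c : ℤ_[l]) ^ k) m
    have h4 : ∑ k ∈ Finset.range (D + 1), n k • e^[D - k] x = 0 := t8 _ fun y => by
      obtain ⟨y, rfl⟩ := t7.iterate D y
      have := congrArg (c ^ D • ·) (DFunLike.congr_fun (hG (b x)) y)
      simp only [aeval_eq_sum_range, LinearMap.sum_apply, AddMonoidHom.finsetSum_apply,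
        Finset.smul_sum, AddMonoidHom.zero_apply, smul_zero] at this
      rw [map_sum, AddMonoidHom.finsetSum_apply, ← this]
      refine Finset.sum_congr rfl fun k hk => ?_
      have hk := Nat.sub_add_cancel (Nat.le_of_lt_succ (Finset.mem_range.1 hk))
      rw [map_nsmul, AddMonoidHom.nsmul_apply, ← hn k _ (by rw [← map_nsmul, t1, map_zero]),
        LinearMap.smul_apply, AddMonoidHom.smul_apply, tp_pow]
      conv_lhs => rw [← congrArg (fun n => h^[n] y) hk, Function.iterate_add_apply, h3]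
      conv_rhs => rw [← congrArg (c ^ ·) hk]
      rw [← Nat.cast_smul_eq_nsmul ℤ_[l], ← Nat.cast_smul_eq_nsmul ℤ_[l], smul_smul, smul_smul]
      congr 1
      push_cast
      ring
    have h5 : ∀ n, φ^[n] (p x) = p (e^[n] x) := fun n =>
      (Function.Semiconj.iterate_right (f := p) t3 n x).symm
    have := congrArg (f.comp p) h4
    rw [map_sum, map_zero] at this
    simp only [R, map_sum, LinearMap.sum_apply, AddMonoidHom.finsetSum_apply]
    refine Eq.trans (Finset.sum_congr rfl fun k _ => ?_) this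
    rw [aeval_monomial, End.mul_apply, Module.algebraMap_end_apply, AddMonoidHom.smul_apply, hn k _
      (by rw [← map_nsmul, hm, map_zero]), tp_pow, h5, map_nsmul, AddMonoidHom.comp_apply]
  · have z0 : z ≠ 0 := fun e => R0 (e ▸ hz)
    have h1 : P.eval₂ (j.comp (algebraMap _ _)) (c / z) = 0 := by
      refine (mul_eq_zero.1 (Eq.trans ?_ ((hR z).symm.trans hz))).resolve_right (pow_ne_zero D z0)
      rw [eval₂_eq_sum_range, Finset.sum_mul]
      refine Finset.sum_congr rfl fun k hk => ?_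
      rw [pow_sub₀ _ z0 (Nat.le_of_lt_succ (Finset.mem_range.1 hk)), div_pow]
      ring
    rw [hP, eval₂_mul] at h1
    have h2 : ‖c / z‖ ^ 2 ≤ B := (mul_eq_zero.1 h1).elim (r2 _) (r1 _)
    rw [norm_div, div_pow, div_le_iff₀ (by positivity), Complex.norm_natCast, mul_comm] at h2
    exact h2

end Pool.Agent.MP_855f4c_ag.E.D

end

section

/-! h86e section D, row DW: purity from the geometrically irreducible case. -/

set_option backward.isDefEq.respectTransparency false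

open CategoryTheory Limits Abelian Opposite AlgebraicGeometry

namespace Pool.Agent.MP_855f4c_ag.E.D

namespace DW

open M2

variable {X Z : Scheme.{0}} (u : Z ⟶ X) (l : ℕ) [Fact l.Prime]

/-- Comparison with a part of the fibre. -/
lemma cmp {U : Over Z} {V : Over X} (c : (Over.map u).obj U ⟶ V) :
    ∃ (s : ∀ q, H ((Over.map u).obj U) (Linf l X) q →+ H U (Linf l Z) q),
      (∀ q, Function.Bijective (s q)) ∧ ∀ (g : U ⟶ U) (g' : V ⟶ V),
        (Over.map u).map g ≫ c = c ≫ g' → ∀ q x,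
          res g _ q (s q (res c _ q x)) = s q (res c _ q (res g' _ q x)) := by
  obtain ⟨e⟩ : Nonempty ((pb (J := Scheme.etaleTopology) u).obj (Linf l X) ≅ Linf l Z) :=
    ⟨(cstPb u).app _⟩
  refine ⟨fun q => (post _ e.hom q).comp (E4.slH u U _ q), fun q => ?_, fun g g' h q x => ?_⟩
  · rw [AddMonoidHom.coe_comp]
    exact (post_bij _ _ q).comp (E4.slH_bij _ _ _ q)
  · rw [AddMonoidHom.comp_apply, AddMonoidHom.comp_apply, ← cmpH_apply, ← cmpH_apply,
      cmpH_res u c _ h]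

end DW

theorem dw (h1 : COMP_s) (h2 : CHT_s) (h3 : CLOP_s) (h4 : DWK_s) : DW_s := by
  intro R Ω _ _ _ _ _ τ X f _ _
  obtain ⟨E, hE⟩ := h1 R Ω τ X f
  refine ⟨E, fun l _ ψ hψ Q j hψE hQ hζ hC hW i => ?_⟩
  have hτ : ∀ r, ψ (τ r) = τ r := fun r => by
    rw [← Spec.map_comp] at hψ
    exact congr(($(Spec.map_injective hψ)).hom r)
  let K : Subfield Ω := RingHom.eqLocusField (ψ : Ω →+* Ω) (RingHom.id Ω)
  obtain ⟨ι, _, Z, u, g, c, hZ, hc⟩ := hE K (τ.codRestrict K hτ) rfl hψE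
  have hK : spc (ψ : Ω →+* Ω) ≫ spc K.subtype = spc K.subtype := by
    rw [← Spec.map_comp, ← CommRingCat.ofHom_comp]
    exact congrArg spc (RingHom.ext fun x => x.2)
  choose s hb hs' using fun a => DW.cmp (u a) l (c a)
  obtain ⟨r, hr0⟩ : ∃ r : ∀ a q, H (fbr f (spc τ)) (Linf l X) q →+
      H (fbr (g a) (spc K.subtype)) (Linf l (Z a)) q, ∀ a q x, r a q x = s a q (res (c a) _ q x) :=
    ⟨fun a q => (s a q).comp (res (c a) _ q), fun _ _ _ => AddMonoidHom.comp_apply _ _ _⟩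
  have hs : ∀ a q, Function.Surjective (r a q) := fun a q y => by
    obtain ⟨y, rfl⟩ := (hb a q).2 y
    obtain ⟨x, rfl⟩ := (h3 X _ (Linf l X) q).1 _ (c a) (hZ a).2.2.2.2.1 (hZ a).2.2.2.2.2.1 y
    exact ⟨x, hr0 a q x⟩
  have hr : ∀ a q x, Hact (g a) (Linf l _) q (ψ : Ω →+* Ω) hK (r a q x) =
      r a q (Hact f (Linf l X) q (ψ : Ω →+* Ω) hψ x) := fun a q x => by
    rw [hr0, hr0]
    refine hs' a _ _ ?_ q x
    have e1 : (c a).left ≫ pullback.fst (spc τ) f = pullback.fst (spc K.subtype) (g a) :=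
      (hZ a).2.2.2.2.2.2
    have e2 : (c a).left ≫ pullback.snd (spc τ) f = pullback.snd (spc K.subtype) (g a) ≫ u a :=
      Over.w (c a)
    ext
    refine pullback.hom_ext ?_ ?_ <;> simp [sph, e1, e2, reassoc_of% e1]
  have hi : ∀ x, (∀ a, r a i x = 0) → x = 0 := fun x hx => (h3 X _ (Linf l X) i).2 ι _ c
    (fun a => ⟨(hZ a).2.2.2.2.1, (hZ a).2.2.2.2.2.1⟩) hc x fun a => (hb a i).1 (by
      rw [← hr0, hx, map_zero])
  refine evL_pi (fun a => Vm l (r a i))
    (fun v hv => V.ext fun x => hi _ fun a => congrArg (fun w : V l _ => w.1 x) (hv a))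
    (fun a => Vm_inter (hr a i)) fun a => ?_
  obtain ⟨_, _, _, hi, -⟩ := hZ a
  obtain ⟨d, hd⟩ := h2 K (Z a) (g a)
  exact h4 K Ω K.subtype (Z a) (g a) d hd hi l ψ hK Q j hQ hζ
    (fun q => (hC q).quo _ (hs a q)) (fun q => (hW q).quo (hC q) _ (hs a q) (hr a q)) i

end Pool.Agent.MP_855f4c_ag.E.D

end

section

/-! h86e section D, row T-GAM. -/

set_option autoImplicit false
set_option backward.isDefEq.respectTransparency false

open CategoryTheory Limits Abelian Opposite AlgebraicGeometry Function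

namespace Pool.Agent.MP_855f4c_ag.E.D

open E3 E4
open CV (Ln Lm)

namespace GA

variable {X : Scheme.{0}} {n : ℕ} {U U' : Over X}

/-- The function that underlies a section of `mu`. -/
noncomputable def mv (s : sec (mu X n) U) : Γ(U.left, ⊤) :=
  (GmTop U ((muι X n).hom.app (op U) s)).toMul

lemma mv_inj {s t : sec (mu X n) U} (h : mv s = mv t) : s = t := muι_inj n U (Gm_ext h)

lemma mv_res (g : U' ⟶ U) (s : sec (mu X n) U) : mv (rsec g _ s) = g.left.appTop (mv s) := by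
  unfold mv
  erw [map_nat]
  rfl

lemma mv_smul (c : ℕ) (s : sec (mu X n) U) : mv (c • s) = mv s ^ c := by
  unfold mv
  rw [map_nsmul, map_nsmul]
  exact Units.val_pow_eq_pow_val _ _

lemma mv_one {c : ℕ} {s : sec (mu X n) U} (h : c • s = 0) : mv s ^ c = 1 := by
  rw [← mv_smul, h, ← zero_smul ℕ s, mv_smul, pow_zero]

lemma mv_ex (hn : n ≠ 0) (u : Γ(U.left, ⊤)) (h : u ^ n = 1) : ∃ s : sec (mu X n) U, mv s = u := by
  obtain ⟨g, hg⟩ := (GmTop U).surjective (Additive.ofMul (Units.ofPowEqOne u n h hn))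
  obtain ⟨z, rfl⟩ := (muι_range n _ g).1 (Gm_ext (by
    rw [map_nsmul, hg, map_zero]
    exact (Units.val_pow_eq_pow_val _ _).trans h))
  exact ⟨z, congrArg (fun a => ((Additive.toMul a : Γ(U.left, ⊤)ˣ) : Γ(U.left, ⊤))) hg⟩

/-- `s` is a primitive root of unity at every point. -/
def Prim (s : sec (mu X n) U) : Prop := ∀ (k : Type) [Field k] (x : Spec (.of k) ⟶ U.left),
  IsPrimitiveRoot ((Scheme.ΓSpecIso (.of k)).hom (x.appTop (mv s))) n

lemma Prim.res {s : sec (mu X n) U} (h : Prim s) (g : U' ⟶ U) : Prim (rsec g _ s) :=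
  fun k _ x => by
    rw [mv_res]
    exact h k (x ≫ g.left)

variable {q : ℕ} (M : Smul X n q)

lemma m_bij {l : ℕ} [Fact l.Prime] (hn : Lp l n) (hl : Linv l U.left) {s : sec (mu X n) U}
    (h : Prim s) : Bijective (M.m U _ s (mu_smul n U s)) := by
  obtain ⟨e, he⟩ := id hn
  have : NeZero n := ⟨he ▸ pow_ne_zero _ (Fact.out : l.Prime).ne_zero⟩
  have H := M.bij l U (mu X n) Unit (fun _ => s) (fun _ => mu_smul n U s) hn
    (mu_tc' (he ▸ dvd_rfl : n ∣ l ^ e)) hl fun k _ _ x y => ?_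
  · simp only [Finset.univ_unique, Finset.sum_singleton] at H
    exact (Bijective.of_comp_iff _ (Equiv.funUnique Unit _).bijective).1 H
  simp only [Finset.univ_unique, Finset.sum_singleton]
  have h1 : IsPrimitiveRoot ((Scheme.ΓSpecIso (.of k)).hom (mv (rsec y _ s))) n :=
    mv_res y s ▸ h k y.left
  refine ⟨fun z => ?_, fun c hc _ => ?_⟩
  · obtain ⟨i, -, hi⟩ := h1.eq_pow_of_pow_eq_one (ξ := (Scheme.ΓSpecIso (.of k)).hom (mv z))
      (by rw [← map_pow, mv_one (mu_smul n _ z), map_one])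
    refine ⟨fun _ => i, mv_inj ((ConcreteCategory.bijective_of_isIso
      (Scheme.ΓSpecIso (.of k)).hom).1 ?_)⟩
    rw [natCast_zsmul, mv_smul, map_pow, hi]
  · refine (Int.natCast_dvd_natCast.2 (h1.dvd_of_pow_eq_one _ ?_)).trans
      (addOrderOf_dvd_iff_zsmul_eq_zero.2 hc)
    rw [← map_pow, mv_one (addOrderOf_nsmul_eq_zero _), map_one]

lemma m_smul {F : Sh (Scheme.etaleTopology.over X)} (c : ℕ) {s t : sec F U} (e : c • s = t) (hs ht x) :
    M.m U F t ht x = c • M.m U F s hs x := by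
  induction c generalizing t with
  | zero =>
    obtain rfl : t = 0 + 0 := by rw [← e, zero_smul, add_zero]
    have h := M.add U F 0 0 (smul_zero _) (smul_zero _) ht x
    rw [zero_smul]
    simp only [add_zero] at h ⊢
    exact left_eq_add.1 h
  | succ c ih =>
    obtain rfl : t = c • s + s := by rw [← e, succ_nsmul]
    rw [M.add U F _ _ (by rw [smul_comm, hs, smul_zero]) hs, ih rfl, succ_nsmul]

section
variable {Ω : Type} [Field Ω] {Y : Scheme.{0}}

/-- The constants. -/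
noncomputable def rh (a : Y ⟶ Spec (.of Ω)) : Ω →+* Γ(Y, ⊤) :=
  ((Scheme.ΓSpecIso (.of Ω)).inv ≫ a.appTop).hom

lemma rh_spc (a : Y ⟶ Spec (.of Ω)) (ψ : Ω →+* Ω) (ω : Ω) : rh (a ≫ spc ψ) ω = rh a (ψ ω) :=
  congrArg a.appTop (ConcreteCategory.congr_hom
    (Scheme.ΓSpecIso_inv_naturality (CommRingCat.ofHom ψ)) ω).symm

end

lemma res_tot (g : U' ⟶ U) (F : Sh (Scheme.etaleTopology.over X)) (x : H (top X) F q) :
    res g F q (res (tot U) F q x) = res (tot U') F q x :=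
  (pre_pre _ _ x).trans (congrArg (fun a => pre a F q x) ((Functor.map_comp _ _ _).symm.trans
    (congrArg _ (Over.mkIdTerminal.hom_ext _ _))))

end GA

open GA in
theorem gam (h1 : CV.P1MU_s) (h2 : SMUL_s) : GAM_s := by
  intro l _ n Ω _ _ S L T s hn hl hΩ
  obtain ⟨e, he⟩ := id hn
  have hn0 : n ≠ 0 := he ▸ pow_ne_zero _ (Fact.out : l.Prime).ne_zero
  have : NeZero (n : Ω) := ⟨by rw [he, Nat.cast_pow]; exact pow_ne_zero _ hΩ⟩
  obtain ⟨ζ, hζ⟩ := HasEnoughRootsOfUnity.exists_primitiveRoot Ω n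
  obtain ⟨M⟩ := h2 L.P n 2
  obtain ⟨γ₀, h0⟩ := h1 S L n fun k _ x => by
    rw [he, Nat.cast_pow]; exact pow_ne_zero _ (hl k (x ≫ L.π))
  let U := (Over.pullback L.π).obj T
  let a : U.left ⟶ Spec (.of Ω) := pullback.fst T.hom L.π ≫ s
  obtain ⟨z, hz⟩ := mv_ex (U := U) hn0 (rh a ζ) (by rw [← map_pow, hζ.pow_eq_one, map_one])
  have hp : Prim z := fun k _ x => by
    rw [hz]
    exact hζ.map_of_injective
      (f := ((Scheme.ΓSpecIso (.of k)).hom.hom.comp x.appTop.hom).comp (rh a)) (RingHom.injective _)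
  have hb (V : Over L.P) (g : V ⟶ U) := m_bij M hn (hl.of_hom (V.hom ≫ L.π)) (hp.res g)
  obtain ⟨γ, hγ⟩ := (m_bij M hn (hl.of_hom (U.hom ≫ L.π)) hp).2 (res (tot U) _ 2 γ₀)
  have hr (V : Over L.P) (g : V ⟶ U) :
      M.m V _ (rsec g _ z) (mu_smul n V _) (res g _ 2 γ) = res (tot V) _ 2 γ₀ := by
    rw [← M.res g _ z (mu_smul n U z), hγ, res_tot]
  refine ⟨γ, fun k _ _ x y => ?_, fun g ψ Q hg hQ => ?_⟩
  · obtain ⟨-, h3, h4⟩ := h0 l e (he ▸ dvd_rfl) k x (tot _) (hl k x)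
    refine ⟨fun w => ?_, fun c hc => (h4 c).1 ?_⟩
    · obtain ⟨j, hj⟩ := h3 (M.m _ _ _ (mu_smul n _ (rsec ((Over.pullback L.π).map y) _ z)) w)
      exact ⟨j, (hb _ _).1 (by rw [map_zsmul, hr]; exact hj)⟩
    · rw [← hr _ ((Over.pullback L.π).map y), ← map_zsmul, hc, map_zero]
  · refine (hb _ ((Over.pullback L.π).map g)).1 ?_
    rw [hr, map_nsmul, ← hγ]
    refine m_smul M Q (mv_inj ?_) _ _ _
    have e1 : ((Over.pullback L.π).map g).left ≫ a = a ≫ spc ψ := by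
      simp only [a, Over.pullback_map_left, pullback.lift_fst_assoc, Category.assoc, hg]
    have e2 : rh a ζ = rh (a ≫ spc ψ) ζ ^ Q := by rw [rh_spc, ← map_pow, hQ ζ hζ.pow_eq_one]
    rw [mv_smul, mv_res, hz]
    exact Eq.symm (e2.trans (by rw [← e1]; rfl))

end Pool.Agent.MP_855f4c_ag.E.D

end

section

set_option autoImplicit false
set_option backward.isDefEq.respectTransparency false

open CategoryTheory Limits Abelian Opposite AlgebraicGeometry Function

namespace Pool.Agent.MP_855f4c_ag.E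

open E3 E4 LP M2

namespace M3

variable {X S T T' : Scheme.{0}}

lemma res_bij (h : PBCX_s) {R : Type} [CommRing R] [IsNoetherianRing R] (f : X ⟶ Spec (.of R))
    [IsProper f] (l : ℕ) [Fact l.Prime] {k K : Type} [Field k] [IsAlgClosed k] [Field K]
    [IsAlgClosed K] (ι : k →+* K) {a : Spec (.of k) ⟶ Spec (.of R)}
    {b : Spec (.of K) ⟶ Spec (.of R)} (e : spc ι ≫ a = b) (hl : (l : k) ≠ 0) {F : Sh (Scheme.etaleTopology.over X)}
    (hF : Tc l F) (q : ℕ) : Bijective (res ((Over.pullback f).map (sph ι e)) F q) := by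
  have h1 : Bijective (rsec (sph ι e) ((Rq f q).obj F)) :=
    (h l R X X _ f f (𝟙 _) (𝟙 _) (IsPullback.of_horiz_isIso ⟨by simp⟩) F q hF).1.2 k K ι a b e
      (isUnit_iff_ne_zero.2 hl)
  have h2 : toRq f F q (Over.mk b) ∘ res ((Over.pullback f).map (sph ι e)) F q =
      rsec (sph ι e) _ ∘ toRq f F q (Over.mk a) := funext (toRq_res f _)
  exact (Bijective.of_comp_iff' (toRq_bij f F q b) _).1 (h2 ▸ h1.comp (toRq_bij f F q a))

lemma zl_tc (l n : ℕ) : Tc l (Zl X l n) :=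
  cst_Tc _ fun m => ⟨n, ULift.ext _ _ (by
    change l ^ n • m.down = 0
    rw [nsmul_eq_mul, ZMod.natCast_self, zero_mul])⟩

lemma hl_comm {U V : Over X} {j : U ⟶ V} {g : V ⟶ V} {g' : U ⟶ U} (h : j ≫ g = g' ≫ j) (l i : ℕ)
    (v : Hl l i V) : Hl.res l i j (Hl.res l i g v) = Hl.res l i g' (Hl.res l i j v) :=
  bc_comm _ _ _ _ _ _ (fun _ _ => by
    rw [pre_pre, pre_pre, ← Functor.map_comp, ← Functor.map_comp, h]) v

lemma mwT_ext {f : X ⟶ S} {s : T ⟶ S} {s' : T' ⟶ S} (j : Over.mk s' ⟶ Over.mk s) {l i Q : ℕ}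
    (hj : ∀ n, Bijective (res ((Over.pullback f).map j) (Zl X l n) i))
    {g u : Over.mk s ⟶ Over.mk s} {g' u' : Over.mk s' ⟶ Over.mk s'} (h1 : j ≫ g = g' ≫ j)
    (h2 : j ≫ u = u' ≫ j) (H : MwT f l i Q g' u') : MwT f l i Q g u :=
  mw_equiv (Hl.res l i ((Over.pullback f).map j)) (bc_bij _ _ hj)
    (hl_comm (by rw [← Functor.map_comp, h1, Functor.map_comp]) l i)
    (hl_comm (by rw [← Functor.map_comp, h2, Functor.map_comp]) l i) H

lemma smooth_bc (f : X ⟶ S) {s : T ⟶ S} (j : T' ⟶ T) {s' : T' ⟶ S} (e : j ≫ s = s')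
    (h : Smooth (pullback.fst s f)) : Smooth (pullback.fst s' f) := by
  subst e
  rw [← pullbackRightPullbackFstIso_inv_fst]
  infer_instance

lemma exists_iota {O Ω K : Type} [CommRing O] [IsDomain O] [Field Ω] [Algebra O Ω]
    [FaithfulSMul O Ω] [Algebra.IsAlgebraic O Ω] [Field K] [IsAlgClosed K] (χ : O →+* K)
    (h : Injective χ) : ∃ ι : Ω →+* K, ∀ o, ι (algebraMap O Ω o) = χ o := by
  let := χ.toAlgebra
  have : FaithfulSMul O K := (faithfulSMul_iff_algebraMap_injective O K).2 h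
  let j : Ω →ₐ[O] K := IsAlgClosed.lift
  exact ⟨j, j.commutes⟩

lemma mwG_ext (h : PBCX_s) {R : Type} [CommRing R] [IsNoetherianRing R] (f : X ⟶ Spec (.of R))
    [IsProper f] (l : ℕ) [Fact l.Prime] {k K : Type} [Field k] [IsAlgClosed k] [Field K]
    [IsAlgClosed K] [Algebra R k] [Algebra R K] (ι : k →+* K)
    (e : spc ι ≫ spc (algebraMap R k) = spc (algebraMap R K)) (hl : (l : k) ≠ 0) {i Q : ℕ}
    {φ u : k ≃ₐ[R] k} {φ' u' : K ≃ₐ[R] K} (h1 : ∀ z, φ' (ι z) = ι (φ z))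
    (h2 : ∀ z, u' (ι z) = ι (u z)) (H : MwG f l i Q φ' u') : MwG f l i Q φ u := by
  have key {g : k ≃ₐ[R] k} {g' : K ≃ₐ[R] K} (h : ∀ z, g' (ι z) = ι (g z)) :
      sph ι e ≫ gm g = gm g' ≫ sph ι e := by
    ext1
    change spc ι ≫ spc (g : k →+* k) = spc (g' : K →+* K) ≫ spc ι
    rw [← Spec.map_comp, ← Spec.map_comp, ← CommRingCat.ofHom_comp, ← CommRingCat.ofHom_comp]
    exact congrArg spc (RingHom.ext fun z => (h z).symm)
  rw [mwG_iff] at H ⊢
  exact mwT_ext (sph ι e) (fun n => res_bij h f l ι e hl (zl_tc l n) i) (key h1) (key h2) H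

end M3

open M3 in
theorem main3 (h2 : Main2_s) (hP : PBCX_s) (hE : EMB_s) (hI : ISO_s) (hX : EXT_s) (hF : FRB_s) :
    Main3_s := by
  intro R _ _ X f _
  have : IsNoetherianRing R := Algebra.FiniteType.isNoetherianRing ℤ R
  obtain ⟨M, M0, hM⟩ := h2 R X f
  refine ⟨M, M0, fun O Ω _ _ _ _ _ _ _ _ _ _ _ l _ uM ul sm i φ u Q hQ hφ hu ⟨n, r, o, hr, hur⟩ => ?_⟩
  obtain ⟨p, hp⟩ := CharP.exists (IsLocalRing.ResidueField O)
  have : Fact p.Prime := ⟨CharP.char_is_prime (IsLocalRing.ResidueField O) p⟩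
  have up : ¬ IsUnit (p : O) := fun h =>
    (h.map (IsLocalRing.residue O)).ne_zero (by rw [map_natCast, CharP.cast_eq_zero])
  have : CharZero O := (algebraMap O Ω).charZero
  obtain ⟨χ, c1, c2⟩ := hE p O up
  obtain ⟨ι, hι⟩ := exists_iota (Ω := Ω) χ c1
  let : Algebra R (PadicAlgCl p) := (ι.comp (algebraMap R Ω)).toAlgebra
  have ext (g : Ω ≃ₐ[R] Ω) (q : ℕ) (hq : 0 < q) (hg : Frob O q g) :
      ∃ (g' : PadicAlgCl p ≃ₐ[ℚ_[p]] PadicAlgCl p) (g'' : PadicAlgCl p ≃ₐ[R] PadicAlgCl p),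
        ⇑g' = g'' ∧ (∀ z, g'' (ι z) = ι (g z)) ∧ Frob ℤ_[p] q g' := by
    obtain ⟨a1, a2⟩ := hI p O Ω ι up (fun o => (hι o).symm ▸ c2 o) q g hq hg
    obtain ⟨g', hg'⟩ := (hX p Ω ι).2 g a1
    refine ⟨g', { g'.toRingEquiv with
      commutes' := fun r => (hg' _).trans (congrArg ι (g.commutes r)) }, rfl, hg',
      (hF p g').1 q _ (hX p Ω ι).1 ?_⟩
    rintro _ ⟨z, rfl⟩ hz
    rw [hg']
    exact a2 z hz
  obtain ⟨φ', φ'', a1, a2, a3⟩ := ext φ Q (by omega) hφ
  obtain ⟨u', u'', b1, b2, b3⟩ := ext u 1 one_pos hu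
  have hl : l ≠ p := fun e => up (e ▸ ul)
  have b4 := (hF p u').2 l hl b3 n (ι r) (by rw [← map_pow, hr, b1, b2, hu.1]) fun e =>
    hur (ι.injective (by rwa [b1, b2] at e))
  rw [a1] at a3
  rw [b1] at b3 b4
  have e : spc ι ≫ spc (algebraMap R Ω) = spc (algebraMap R (PadicAlgCl p)) := by
    rw [← Spec.map_comp, ← CommRingCat.ofHom_comp]; rfl
  have H : MwG f l i Q φ'' u'' := hM p l
    (fun h => up (isUnit_of_dvd_unit (Nat.cast_dvd_cast h) uM)) hl (smooth_bc f _ e sm) i φ'' u'' Q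
    hQ a3 b3 b4
  have H' : MwG f l i Q φ u :=
    mwG_ext hP f l ι e (Nat.cast_ne_zero.2 (Fact.out : l.Prime).ne_zero) a2 b2 H
  exact H'

end Pool.Agent.MP_855f4c_ag.E

end
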