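import Pool.Agent.MP_855f4c_ag.EC.Pa
import Pool.Agent.MP_855f4c_ag.EC.F1b

section

set_option autoImplicit false

open CategoryTheory Limits AlgebraicGeometry Polynomial

namespace Pool.Agent.MP_855f4c_ag.E.U

/-! ### Towers of projective lines -/

/-- Towers of projective lines. -/
inductive Tw : ∀ {Y S : Scheme.{0}}, (Y ⟶ S) → Prop
  | iso {Y S : Scheme.{0}} (g : Y ⟶ S) (h : IsIso g) : Tw g
  | step {Y S : Scheme.{0}} (L : PL Y) (g : Y ⟶ S) : Tw g → Tw (L.π ≫ g)

/-- A finite morphism followed by a tower. -/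
def FT {G S : Scheme.{0}} (p : G ⟶ S) : Prop :=
  ∃ (Y : Scheme.{0}) (c : G ⟶ Y) (t : Y ⟶ S), IsFinite c ∧ Tw t ∧ c ≫ t = p

/-- Chow data: a modification `p` with image in `Z` that changes nothing over `O ∩ Z`. -/
def Chow {X S : Scheme.{0}} (f : X ⟶ S) (O : X.Opens) (Z : Set X) : Prop :=
  ∃ (G : Scheme.{0}) (p : G ⟶ X), FT p ∧ FT (p ≫ f) ∧ (∀ y : G, p y ∈ Z) ∧
    ∀ (k : Type) [Field k] (x : Spec (.of k) ⟶ X), (∀ t, x t ∈ O ∧ x t ∈ Z) →
      IsIso (pullback.fst x p)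

/-- Row TW. -/
def TW_s : Prop :=
  (∀ {Y S : Scheme.{0}} (g : Y ⟶ S), Tw g → IsProper g) ∧
  (∀ {Y S Y' S' : Scheme.{0}} {g : Y ⟶ S} {g' : Y' ⟶ S'} {a : S' ⟶ S} {b : Y' ⟶ Y},
    IsPullback b g' g a → Tw g → Tw g') ∧
  (∀ {Z Y S : Scheme.{0}} (h : Z ⟶ Y) (g : Y ⟶ S), Tw h → Tw g → Tw (h ≫ g)) ∧
  (∀ {X S X' S' : Scheme.{0}} {f : X ⟶ S} {f' : X' ⟶ S'} {a : S' ⟶ S} {b : X' ⟶ X},
    IsPullback b f' f a → ∀ (O : X.Opens) (Z : Set X), Chow f O Z → Chow f' (b ⁻¹ᵁ O) (b ⁻¹' Z))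

/-- Row EMBT: an affine scheme of finite type is closed in an open part of a tower. -/
def EMBT_s : Prop :=
  ∀ (R C : Type) [CommRing R] [CommRing C] [Algebra R C] [Algebra.FiniteType R C],
    ∃ (P : Scheme.{0}) (g : P ⟶ Spec (.of R)) (V : P.Opens) (i : Spec (.of C) ⟶ V),
      Tw g ∧ IsClosedImmersion i ∧
        i ≫ V.ι ≫ g = Spec.map (CommRingCat.ofHom (algebraMap R C))

/-- Row CHOW (from TW and EMBT). -/
def CHOW_s : Prop :=
  ∀ (R : Type) [CommRing R] [IsNoetherianRing R] (X : Scheme.{0}) (f : X ⟶ Spec (.of R))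
    [IsProper f] (Z : Set X), IsClosed Z → Z.Nonempty →
    ∃ O : X.Opens, ((O : Set X) ∩ Z).Nonempty ∧ Chow f O Z

/-! ### Spreading out -/

/-- `P` holds over all algebras over some finitely generated subring of `Ω`. -/
def Evt {A₀ Ω : Type} [CommRing A₀] [Field Ω] (ι : A₀ →+* Ω)
    (P : ∀ (B : Type) [CommRing B], (A₀ →+* B) → Prop) : Prop :=
  ∃ (A : Subring Ω) (_ : Algebra.FiniteType ℤ A) (α : A₀ →+* A), A.subtype.comp α = ι ∧
    ∀ (B : Type) [CommRing B] (β : A →+* B), P B (β.comp α)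

/-- Row SPF: a finite algebra is generically a disjoint union of sections on points. -/
def SPF_s : Prop :=
  (∀ (Ω : Type) [Field Ω] (I : Type) [Finite I] (A : I → Subring Ω) (s : Finset Ω),
    (∀ i, Algebra.FiniteType ℤ (A i)) →
    ∃ A' : Subring Ω, Algebra.FiniteType ℤ A' ∧ (∀ i, A i ≤ A') ∧ ∀ x ∈ s, x ∈ A' ∧ x⁻¹ ∈ A') ∧
  ∀ (A₀ C Ω : Type) [CommRing A₀] [Algebra.FiniteType ℤ A₀] [CommRing C] [Algebra A₀ C]
    [Module.Finite A₀ C] [Field Ω] [IsAlgClosed Ω] (ι : A₀ →+* Ω),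
    ∃ (A : Subring Ω) (_ : Algebra.FiniteType ℤ A) (α : A₀ →+* A) (n : ℕ)
      (τ : Fin n → (C →+* A)), A.subtype.comp α = ι ∧
      (∀ i, (τ i).comp (algebraMap A₀ C) = α) ∧
      ∀ (k : Type) [Field k] (φ : C →+* k) (ψ : A →+* k),
        φ.comp (algebraMap A₀ C) = ψ.comp α → ∃! i, φ = ψ.comp (τ i)

/-- The polynomial with the roots `a i`. -/
noncomputable def hp {B : Type} [CommRing B] {r : ℕ} (a : Fin r → B) : B[X] := ∏ i, (X - C (a i))

/-- Row SPG: the generic point of the affine line. -/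
def SPG_s : Prop :=
  ∀ (A₀ K K' : Type) [CommRing A₀] [Algebra.FiniteType ℤ A₀] [Field K] [IsAlgClosed K] [CharZero K]
    (ι : A₀ →+* K) [Field K'] [Algebra K[X] K'] [FaithfulSMul K[X] K']
    [Algebra.IsAlgebraic K[X] K'] (A' : Subring K') [Algebra.FiniteType ℤ A']
    (α' : A₀[X] →+* A'), A'.subtype.comp α' = (algebraMap K[X] K').comp (mapRingHom ι) →
    ∃ (A : Subring K) (_ : Algebra.FiniteType ℤ A) (α : A₀ →+* A) (r : ℕ) (a : Fin (r + 1) → A)
      (a₁ : A), A.subtype.comp α = ι ∧ (∀ i j, i ≠ j → IsUnit (a i - a j)) ∧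
      (∀ i, IsUnit (a₁ - a i)) ∧
      ∀ (B : Type) [CommRing B] (β : A →+* B),
        ∃ (D : Type) (_ : CommRing D) (_ : Algebra (Localization.Away (hp fun i => β (a i))) D),
          Module.Finite (Localization.Away (hp fun i => β (a i))) D ∧
          Algebra.Etale (Localization.Away (hp fun i => β (a i))) D ∧
          Function.Surjective
            (PrimeSpectrum.comap (algebraMap (Localization.Away (hp fun i => β (a i))) D)) ∧
          ∃ β' : A' →+* D, β'.comp α' =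
            ((algebraMap (Localization.Away (hp fun i => β (a i))) D).comp
              (algebraMap B[X] _)).comp (mapRingHom (β.comp α))

/-- Row SPO: a point of an open set, or of its complement, spreads out. -/
def SPO_s : Prop :=
  ∀ (A₀ Ω : Type) [CommRing A₀] [Algebra.FiniteType ℤ A₀] [Field Ω] (ι : A₀ →+* Ω)
    (X : Scheme.{0}) (a₀ : Spec (.of A₀) ⟶ X) (O : X.Opens),
    Evt ι (fun _ _ γ => ∀ t, (Spec.map (CommRingCat.ofHom γ) ≫ a₀) t ∈ O) ∨
    Evt ι (fun _ _ γ => ∀ t, (Spec.map (CommRingCat.ofHom γ) ≫ a₀) t ∉ O)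

/-! ### Abelian categories -/

section ab
universe v u v' u' v'' u''
variable {𝒜 : Type u} [Category.{v} 𝒜] [Abelian 𝒜]

/-- The pair `f, g` is exact. -/
def Ex {X Y Z : 𝒜} (f : X ⟶ Y) (g : Y ⟶ Z) : Prop :=
  ∃ w : f ≫ g = 0, (ShortComplex.mk f g w).Exact

/-- There is an exact sequence with these five terms. -/
def Ex5 (X₁ X₂ X₃ X₄ X₅ : 𝒜) : Prop :=
  ∃ (a : X₁ ⟶ X₂) (b : X₂ ⟶ X₃) (c : X₃ ⟶ X₄) (d : X₄ ⟶ X₅), Ex a b ∧ Ex b c ∧ Ex c d

/-- A class of objects that is closed under kernels, cokernels and extensions. -/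
structure Thick (L : 𝒜 → Prop) : Prop where
  zero : ∀ X, IsZero X → L X
  iso : ∀ {X Y : 𝒜}, (X ≅ Y) → L X → L Y
  ker : ∀ {X Y : 𝒜} (f : X ⟶ Y), L X → L Y → L (kernel f)
  coker : ∀ {X Y : 𝒜} (f : X ⟶ Y), L X → L Y → L (cokernel f)
  ext : ∀ S : ShortComplex 𝒜, S.ShortExact → L S.X₁ → L S.X₃ → L S.X₂

/-- The objects of `L` that are built from subquotients of objects of `R`. -/
inductive ClG (L R : 𝒜 → Prop) : 𝒜 → Prop
  | base (X : 𝒜) : R X → ClG L R X
  | mid {X Y Z : 𝒜} (f : X ⟶ Y) (g : Y ⟶ Z) : Ex f g → ClG L R X → ClG L R Z → L Y → ClG L R Y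

/-- A cohomological functor that vanishes on injectives. -/
structure DF {ℬ : Type u'} [Category.{v'} ℬ] [Abelian ℬ] (T : ℕ → 𝒜 ⥤ ℬ) : Prop where
  add : ∀ n, (T n).Additive
  les : ∀ S : ShortComplex 𝒜, S.ShortExact → Mono ((T 0).map S.f) ∧ ∀ n,
    Ex ((T n).map S.f) ((T n).map S.g) ∧ ∃ δ : (T n).obj S.X₃ ⟶ (T (n + 1)).obj S.X₁,
      Ex ((T n).map S.g) δ ∧ Ex δ ((T (n + 1)).map S.f)
  inj : ∀ (I : 𝒜) (n : ℕ), Injective I → IsZero ((T (n + 1)).obj I)

end ab

universe v u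

/-- Row SQ. -/
def SQ_s : Prop :=
  ∀ (𝒜 : Type u) [Category.{v} 𝒜] [Abelian 𝒜] (L : 𝒜 → Prop), Thick L →
    (∀ X₁ X₂ X₃ X₄ X₅ : 𝒜, Ex5 X₁ X₂ X₃ X₄ X₅ → L X₁ → L X₂ → L X₄ → L X₅ → L X₃) ∧
    (∀ X Y : 𝒜, L X → L Y → L (X ⊞ Y)) ∧
    ∀ R W Φ : 𝒜 → Prop, (∀ X, R X → L X) →
      (∀ {X Y : 𝒜} (f : X ⟶ Y), Mono f → L X → L Y → W Y → W X) →
      (∀ {X Y : 𝒜} (f : X ⟶ Y), Epi f → L X → L Y → W X → W Y) →
      (∀ {S X X' : 𝒜} (i : S ⟶ X') (p : S ⟶ X), Mono i → Epi p → R X' → L S → L X → W X → Φ X) →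
      (∀ S : ShortComplex 𝒜, S.ShortExact → L S.X₁ → L S.X₂ → L S.X₃ → Φ S.X₁ → Φ S.X₃ →
        Φ S.X₂) →
      ∀ X, ClG L R X → W X → Φ X

/-- Row LERA: the Leray filtration of a composite. -/
def LERA_s : Prop :=
  ∀ (𝒜 ℬ 𝒞 : Type u) [Category.{v} 𝒜] [Abelian 𝒜] [EnoughInjectives 𝒜] [Category.{v} ℬ]
    [Abelian ℬ] [Category.{v} 𝒞] [Abelian 𝒞] (T : ℕ → 𝒜 ⥤ ℬ) (G : ℕ → ℬ ⥤ 𝒞) (K : ℕ → 𝒜 ⥤ 𝒞),
    DF T → DF G → DF K → Nonempty (T 0 ⋙ G 0 ≅ K 0) →
    (∀ I : 𝒜, Injective I → Injective ((T 0).obj I)) → ∀ F : 𝒜, ∃ D : ℕ → ℕ → 𝒞,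
      (∀ a, Nonempty (D 0 a ≅ (G a).obj ((T 0).obj F))) ∧
      (∀ n, Nonempty (D n 0 ≅ (K n).obj F)) ∧
      (∀ b (Z : 𝒞), IsZero Z →
        Ex5 Z (D b 1) (D (b + 1) 0) ((G 0).obj ((T (b + 1)).obj F)) (D b 2)) ∧
      ∀ b a, Ex5 ((G a).obj ((T (b + 1)).obj F)) (D b (a + 2)) (D (b + 1) (a + 1))
        ((G (a + 1)).obj ((T (b + 1)).obj F)) (D b (a + 3))

end Pool.Agent.MP_855f4c_ag.E.U

end

section

set_option autoImplicit false

open CategoryTheory Limits AlgebraicGeometry Polynomial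

namespace Pool.Agent.MP_855f4c_ag.E.U

lemma pl_proper {S : Scheme.{0}} (L : PL S) : IsProper L.π :=
  MorphismProperty.of_isPullback (P := @IsProper) L.sq P1D.prop

lemma tw_proper {Y S : Scheme.{0}} (g : Y ⟶ S) (h : Tw g) : IsProper g := by
  induction h with
  | iso g h => infer_instance
  | step L g _ ih =>
    have := pl_proper L
    infer_instance

lemma tw_bc {Y S : Scheme.{0}} {g : Y ⟶ S} (h : Tw g) :
    ∀ {Y' S' : Scheme.{0}} {g' : Y' ⟶ S'} {a : S' ⟶ S} {b : Y' ⟶ Y},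
      IsPullback b g' g a → Tw g' := by
  induction h with
  | iso g h =>
    intro Y' S' g' a b sq
    exact .iso _ (MorphismProperty.of_isPullback (P := MorphismProperty.isomorphisms _) sq h)
  | step L g _ ih =>
    intro Y' S' g' a b sq
    let m : Y' ⟶ pullback g a := pullback.lift (b ≫ L.π) g' (by rw [Category.assoc, sq.w])
    have e : m ≫ pullback.snd g a = g' := pullback.lift_snd _ _ _
    have top : IsPullback b m L.π (pullback.fst g a) :=
      IsPullback.of_bot (by rw [e]; exact sq) (pullback.lift_fst _ _ _).symm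
        (IsPullback.of_hasPullback g a)
    let L' : PL (pullback g a) := ⟨Y', m, b ≫ L.q, by
      have := top.paste_horiz L.sq
      rwa [terminal.comp_from] at this⟩
    rw [← e]
    exact .step L' _ (ih (IsPullback.of_hasPullback g a))

lemma tw_comp {Z Y : Scheme.{0}} {h : Z ⟶ Y} (hh : Tw h) :
    ∀ {S : Scheme.{0}} (g : Y ⟶ S), Tw g → Tw (h ≫ g) := by
  induction hh with
  | iso h hi =>
    intro S g hg
    exact tw_bc hg (a := 𝟙 S) (b := h) (IsPullback.of_horiz_isIso ⟨by simp⟩)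
  | step L h _ ih =>
    intro S g hg
    rw [Category.assoc]
    exact .step L _ (ih g hg)

lemma ft_bc {G S G' S' : Scheme.{0}} {p : G ⟶ S} {p' : G' ⟶ S'} {a : S' ⟶ S} {r : G' ⟶ G}
    (sq : IsPullback r p' p a) (h : FT p) : FT p' := by
  obtain ⟨Y, c, t, hc, ht, rfl⟩ := h
  let m : G' ⟶ pullback t a := pullback.lift (r ≫ c) p' (by rw [Category.assoc, sq.w])
  have e : m ≫ pullback.snd t a = p' := pullback.lift_snd _ _ _
  have top : IsPullback r m c (pullback.fst t a) :=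
    IsPullback.of_bot (by rw [e]; exact sq) (pullback.lift_fst _ _ _).symm
      (IsPullback.of_hasPullback t a)
  exact ⟨_, m, _, MorphismProperty.of_isPullback (P := @IsFinite) top hc,
    tw_bc ht (IsPullback.of_hasPullback t a), e⟩

lemma chow_bc {X S X' S' : Scheme.{0}} {f : X ⟶ S} {f' : X' ⟶ S'} {a : S' ⟶ S} {b : X' ⟶ X}
    (sq : IsPullback b f' f a) (O : X.Opens) (Z : Set X) (h : Chow f O Z) :
    Chow f' (b ⁻¹ᵁ O) (b ⁻¹' Z) := by
  obtain ⟨G, p, h1, h2, h3, h4⟩ := h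
  have s := IsPullback.of_hasPullback p b
  refine ⟨pullback p b, pullback.snd p b, ft_bc s h1, ft_bc (s.paste_vert sq) h2, fun y => ?_,
    fun k _ x hx => ?_⟩
  · have : b (pullback.snd p b y) = p (pullback.fst p b y) := by
      rw [← Scheme.Hom.comp_apply, ← Scheme.Hom.comp_apply, s.w]
    rw [Set.mem_preimage, this]
    exact h3 _
  · have := h4 k (x ≫ b) fun t => by
      rw [Scheme.Hom.comp_apply]
      exact hx t
    have s2 := (IsPullback.of_hasPullback x (pullback.snd p b)).paste_vert s.flip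
    rw [← s2.isoPullback_hom_fst]
    infer_instance

theorem tw : TW_s :=
  ⟨tw_proper, fun sq h => tw_bc h sq, fun _ g h hg => tw_comp h g hg, chow_bc⟩

attribute [local instance] Polynomial.algebra in
lemma aff_sq (A : Type) [CommRing A] :
    IsPullback (Spec.map (CommRingCat.ofHom (eval₂RingHom (Int.castRingHom A[X]) X)))
      (Spec.map (CommRingCat.ofHom (C : A →+* A[X]))) (terminal.from _) (terminal.from _) := by
  have h := isPullback_SpecMap_of_isPushout _ _ _ _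
    (CommRingCat.isPushout_of_isPushout ℤ A ℤ[X] A[X])
  have e : algebraMap ℤ[X] A[X] = eval₂RingHom (Int.castRingHom A[X]) X :=
    Polynomial.ringHom_ext' (RingHom.ext_int _ _) (by simp [Polynomial.algebraMap_def])
  rw [e] at h
  exact h.flip.of_iso (Iso.refl _) (Iso.refl _) (Iso.refl _)
    (specZIsTerminal.uniqueUpToIso terminalIsTerminal) (by simp) (by simp)
    (terminal.hom_ext _ _) (terminal.hom_ext _ _)

lemma aff_open {A : Type} [CommRing A] {P : Scheme.{0}} (j : Spec (.of A) ⟶ P)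
    [hj : IsOpenImmersion j] : ∃ j' : Spec (.of A[X]) ⟶ (PL.std P).P, IsOpenImmersion j' ∧
      j' ≫ (PL.std P).π = Spec.map (CommRingCat.ofHom (C : A →+* A[X])) ≫ j := by
  have h : IsOpenImmersion (pullback.map (terminal.from _) (terminal.from _) (terminal.from P1)
      (terminal.from P) P1D.ι₁ j (𝟙 _) (terminal.hom_ext _ _) (terminal.hom_ext _ _)) :=
    MorphismProperty.pullbackMap (P := @IsOpenImmersion) P1D.o₁ hj (terminal.hom_ext _ _)
      (terminal.hom_ext _ _)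
  refine ⟨(aff_sq A).isoPullback.hom ≫ pullback.map (terminal.from _) (terminal.from _)
    (terminal.from P1) (terminal.from P) P1D.ι₁ j (𝟙 _) (terminal.hom_ext _ _)
    (terminal.hom_ext _ _), @IsOpenImmersion.comp _ _ _ _ _ inferInstance h, ?_⟩
  change (_ ≫ _) ≫ pullback.snd _ _ = _
  rw [Category.assoc, pullback.lift_snd, IsPullback.isoPullback_hom_snd_assoc]

lemma emb_mv (R : Type) [CommRing R] (n : ℕ) :
    ∃ (A : Type) (_ : CommRing A) (_ : Algebra R A) (φ : A →ₐ[R] MvPolynomial (Fin n) R)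
      (P : Scheme.{0}) (g : P ⟶ Spec (.of R)) (j : Spec (.of A) ⟶ P), Function.Surjective φ ∧
      Tw g ∧ IsOpenImmersion j ∧ j ≫ g = Spec.map (CommRingCat.ofHom (algebraMap R A)) := by
  induction n with
  | zero =>
    refine ⟨R, _, inferInstance, (MvPolynomial.isEmptyAlgEquiv R (Fin 0)).symm, _, 𝟙 _, 𝟙 _,
      (MvPolynomial.isEmptyAlgEquiv R (Fin 0)).symm.surjective, .iso _ inferInstance,
      inferInstance, by simp⟩
  | succ n ih =>
    obtain ⟨A, _, _, φ, P, g, j, h1, h2, h3, h4⟩ := ih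
    obtain ⟨j', h5, h6⟩ := aff_open j
    refine ⟨A[X], _, inferInstance,
      (MvPolynomial.finSuccEquiv R n).symm.toAlgHom.comp (Polynomial.mapAlgHom φ), _, _, j',
      (MvPolynomial.finSuccEquiv R n).symm.surjective.comp (Polynomial.map_surjective _ h1),
      .step (PL.std P) g h2, h5, ?_⟩
    rw [← Category.assoc, h6, Category.assoc, h4, ← Spec.map_comp, ← CommRingCat.ofHom_comp]

theorem embt (_h : TW_s) : EMBT_s := by
  intro R C _ _ _ _
  obtain ⟨n, ψ, hψ⟩ := Algebra.FiniteType.iff_quotient_mvPolynomial''.1 ‹Algebra.FiniteType R C›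
  obtain ⟨A, _, _, φ, P, g, j, h1, h2, h3, h4⟩ := emb_mv R n
  have := IsClosedImmersion.spec_of_surjective (CommRingCat.ofHom (ψ.comp φ).toRingHom)
    (hψ.comp h1)
  refine ⟨P, g, j.opensRange, Spec.map (CommRingCat.ofHom (ψ.comp φ).toRingHom) ≫
    j.isoOpensRange.hom, h2, inferInstance, ?_⟩
  rw [Category.assoc, Scheme.Hom.isoOpensRange_hom_ι_assoc, h4, ← Spec.map_comp,
    ← CommRingCat.ofHom_comp]
  congr 2
  exact RingHom.ext (ψ.comp φ).commutes

end Pool.Agent.MP_855f4c_ag.E.U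

end

section

set_option autoImplicit false
set_option backward.isDefEq.respectTransparency false

open CategoryTheory Limits Abelian Opposite Function

namespace Pool.Agent.MP_855f4c_ag.E

universe w v v' u u'

variable {A : Type u'} [Category.{v'} A] [Abelian A] {B : Type u} [Category.{v} B] [Abelian B]

/-- A natural cohomological functor that vanishes on injectives, with `P` in degree zero. -/
structure NDF (P : A ⥤ B) (R : ℕ → A ⥤ B) where
  add : ∀ n, (R n).Additive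
  e : P ≅ R 0
  δ : ∀ {S : ShortComplex A}, S.ShortExact → ∀ n, (R n).obj S.X₃ ⟶ (R (n + 1)).obj S.X₁
  nat : ∀ {S T : ShortComplex A} (hS : S.ShortExact) (hT : T.ShortExact) (φ : S ⟶ T) (n : ℕ),
    δ hS n ≫ (R (n + 1)).map φ.τ₁ = (R n).map φ.τ₃ ≫ δ hT n
  ex₁ : ∀ {S : ShortComplex A} (hS : S.ShortExact) (n : ℕ), U.Ex (δ hS n) ((R (n + 1)).map S.f)
  ex₂ : ∀ {S : ShortComplex A} (_ : S.ShortExact) (n : ℕ), U.Ex ((R n).map S.f) ((R n).map S.g)
  ex₃ : ∀ {S : ShortComplex A} (hS : S.ShortExact) (n : ℕ), U.Ex ((R n).map S.g) (δ hS n)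
  mono : ∀ {S : ShortComplex A} (_ : S.ShortExact), Mono ((R 0).map S.f)
  inj : ∀ (I : A) (n : ℕ), Injective I → IsZero ((R (n + 1)).obj I)

namespace NDF

variable {P : A ⥤ B} {R : ℕ → A ⥤ B} (D : NDF P R)

include D in
theorem df : U.DF R :=
  ⟨D.add, fun _ hS => ⟨D.mono hS, fun n => ⟨D.ex₂ hS n, D.δ hS n, D.ex₃ hS n, D.ex₁ hS n⟩⟩, D.inj⟩

lemma δ_epi {S : ShortComplex A} (hS : S.ShortExact) (hI : Injective S.X₂) (n : ℕ) :
    Epi (D.δ hS n) :=
  ((ShortComplex.mk _ _ (D.ex₁ hS n).1).exact_iff_epi ((D.inj _ n hI).eq_of_tgt _ _)).1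
    (D.ex₁ hS n).2

lemma δ_iso {S : ShortComplex A} (hS : S.ShortExact) (hI : Injective S.X₂) (n : ℕ) :
    IsIso (D.δ hS (n + 1)) := by
  have := D.δ_epi hS hI (n + 1)
  have : Mono (D.δ hS (n + 1)) :=
    ((ShortComplex.mk _ _ (D.ex₃ hS (n + 1)).1).exact_iff_mono
      ((D.inj _ n hI).eq_of_src _ _)).1 (D.ex₃ hS _).2
  exact isIso_of_mono_of_epi _

/-- The map `P X₃ ⟶ R¹ X₁`. -/
def π {S : ShortComplex A} (hS : S.ShortExact) : P.obj S.X₃ ⟶ (R 1).obj S.X₁ :=
  D.e.hom.app _ ≫ D.δ hS 0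

lemma π_nat {S T : ShortComplex A} (hS : S.ShortExact) (hT : T.ShortExact) (φ : S ⟶ T) :
    D.π hS ≫ (R 1).map φ.τ₁ = P.map φ.τ₃ ≫ D.π hT := by
  rw [π, π, Category.assoc, D.nat, D.e.hom.naturality_assoc]

lemma g_π {S : ShortComplex A} (hS : S.ShortExact) : P.map S.g ≫ D.π hS = 0 := by
  rw [π, D.e.hom.naturality_assoc, (D.ex₃ hS 0).1, comp_zero]

lemma π_exact {S : ShortComplex A} (hS : S.ShortExact) :
    (ShortComplex.mk _ _ (D.g_π hS)).Exact :=
  (ShortComplex.exact_iff_of_epi_of_isIso_of_mono (S₁ := ShortComplex.mk _ _ (D.g_π hS))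
    (S₂ := ShortComplex.mk _ _ (D.ex₃ hS 0).1)
    ⟨D.e.hom.app _, D.e.hom.app _, 𝟙 _, (D.e.hom.naturality _).symm, (Category.comp_id _).symm⟩).2
    (D.ex₃ hS 0).2

include D in
theorem isDer [P.Additive] : IsDer P fun b F => (R (b + 1)).obj F := fun _ hS hI =>
  ⟨⟨D.π hS, D.g_π hS, have := D.δ_epi hS hI 0; epi_comp _ _, D.π_exact hS⟩,
    fun b => have := D.δ_iso hS hI b; ⟨asIso (D.δ hS (b + 1))⟩⟩

end NDF

section
variable [EnoughInjectives A]

/-- `0 → F → I → Σ F → 0`. -/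
noncomputable abbrev sus (F : A) : ShortComplex A :=
  ShortComplex.mk _ _ (cokernel.condition (Injective.ι F))

lemma sus_ex (F : A) : (sus F).ShortExact := { exact := ShortComplex.exact_cokernel _ }

instance (F : A) : Injective (sus F).X₂ := inferInstanceAs (Injective (Injective.under F))

lemma sus_lift {F G : A} (u : F ⟶ G) : ∃ φ : sus F ⟶ sus G, φ.τ₁ = u := by
  have h := Injective.comp_factorThru (u ≫ Injective.ι G) (Injective.ι F)
  exact ⟨⟨u, _, cokernel.map _ _ u _ h, h.symm, (cokernel.π_desc _ _ _).symm⟩, rfl⟩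
end

section Fil
variable [HasExt.{w} A] [EnoughInjectives A] [HasExt.{w} B] {L : B ⥤ A} {P : A ⥤ B} (adj : L ⊣ P)
  [L.Additive] [PreservesFiniteLimits L] [PreservesFiniteColimits L] [P.Additive]

/-- The Leray filtration. -/
noncomputable def fil (X : B) : ∀ (n : ℕ) (F : A) (_ : ℕ), AddSubgroup (Ext.{w} (L.obj X) F n)
  | _, _, 0 => ⊥
  | n, F, 1 => (edge adj X F n).range
  | 0, _, _ + 2 => ⊤
  | n + 1, F, b + 2 => (fil X n (sus F).X₃ (b + 1)).map (dl _ (sus_ex F) n)

omit [P.Additive] in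
lemma fil_zero (X : B) (n : ℕ) (F : A) : fil.{w} adj X n F 0 = ⊥ := by rw [fil]
omit [P.Additive] in
lemma fil_one (X : B) (n : ℕ) (F : A) : fil.{w} adj X n F 1 = (edge adj X F n).range := by
  rw [fil]
omit [P.Additive] in
lemma fil_zz (X : B) (F : A) (b : ℕ) : fil.{w} adj X 0 F (b + 2) = ⊤ := by rw [fil]
omit [P.Additive] in
lemma fil_succ (X : B) (n : ℕ) (F : A) (b : ℕ) : fil.{w} adj X (n + 1) F (b + 2) =
    (fil adj X n (sus F).X₃ (b + 1)).map (dl _ (sus_ex F) n) := by rw [fil]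

omit [EnoughInjectives A] in
lemma dl_surj (X : A) {S : ShortComplex A} (hS : S.ShortExact) [Injective S.X₂] (n : ℕ) :
    Surjective (dl.{w} X hS n) := fun x => ((cov_les X hS).e₁ n x).1 (Ext.eq_zero_of_injective _)

omit [P.Additive] in
theorem fil_top (X : B) {n b : ℕ} (h : n < b) (F : A) : fil.{w} adj X n F b = ⊤ := by
  induction n generalizing F b with
  | zero =>
    obtain _ | _ | b := b
    · omega
    · rw [fil_one]; exact AddMonoidHom.range_eq_top.2 (edge_zero_bij adj X F).2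
    · exact fil_zz adj X F b
  | succ n ih =>
    obtain _ | _ | b := b
    · omega
    · omega
    · rw [fil_succ, ih (by omega), ← AddMonoidHom.range_eq_map]
      exact AddMonoidHom.range_eq_top.2 (dl_surj _ _ n)

omit [P.Additive] in
theorem fil_nat {X' X : B} (a : X' ⟶ X) {n b : ℕ} {F G : A} (u : F ⟶ G)
    {x : Ext.{w} (L.obj X) F n} (hx : x ∈ fil adj X n F b) :
    pre (L.map a) G n (post _ u n x) ∈ fil adj X' n G b := by
  induction n generalizing F G b with
  | zero =>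
    obtain _ | b := b
    · rw [fil_zero, AddSubgroup.mem_bot] at hx ⊢
      rw [hx, map_zero, map_zero]
    · rw [fil_top adj X' (by omega)]; trivial
  | succ n ih =>
    obtain _ | _ | b := b
    · rw [fil_zero, AddSubgroup.mem_bot] at hx ⊢
      rw [hx, map_zero, map_zero]
    · rw [fil_one] at hx ⊢
      obtain ⟨y, rfl⟩ := hx
      exact ⟨_, by rw [edge_pre, edge_post]⟩
    · rw [fil_succ] at hx ⊢
      obtain ⟨y, hy, rfl⟩ := hx
      obtain ⟨φ, rfl⟩ := sus_lift u
      exact ⟨_, ih φ.τ₃ hy, by rw [← pre_dl, ← post_dl (sus_ex F) (sus_ex G) φ]⟩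

variable {R : ℕ → A ⥤ B} (D : NDF P R)

omit [EnoughInjectives A] in
include adj in
/-- The two short exact sequences `0 → P F → P I → Z → 0` and `0 → Z → P ΣF → R¹ F → 0`. -/
lemma NDF.step {S : ShortComplex A} (hS : S.ShortExact) [hI : Injective S.X₂] :
    ∃ (Z : B) (g : P.obj S.X₂ ⟶ Z) (i : Z ⟶ P.obj S.X₃) (h₁ : P.map S.f ≫ g = 0)
      (h₂ : i ≫ D.π hS = 0) (hT : (ShortComplex.mk _ _ h₁).ShortExact),
      Injective (P.obj S.X₂) ∧ (ShortComplex.mk _ _ h₂).ShortExact ∧ g ≫ i = P.map S.g ∧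
      ∀ X q (x : Ext.{w} X Z q), edge adj X _ _ (dl X hT q x) =
        dl _ hS q (edge adj X _ q (post X i q x)) := by
  have h := D.g_π hS
  have he := D.π_exact hS
  have : Epi (D.π hS) := have := D.δ_epi hS hI 0; epi_comp _ _
  have := adj.rightAdjoint_preservesLimits.{0, 0}
  have hP : (S.map P).Exact := by
    have := hS.mono_f
    exact ShortComplex.exact_of_f_is_kernel _ (KernelFork.mapIsLimit _ hS.exact.fIsKernel P)
  have h₁ : P.map S.f ≫ Abelian.factorThruImage (P.map S.g) = 0 := by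
    rw [← cancel_mono (Abelian.image.ι _), Category.assoc, Abelian.image.fac, ← P.map_comp,
      S.zero, P.map_zero, zero_comp]
  have h₂ : Abelian.image.ι (P.map S.g) ≫ D.π hS = 0 := by
    rw [← cancel_epi (Abelian.factorThruImage _), ← Category.assoc, Abelian.image.fac, h, comp_zero]
  have hT : (ShortComplex.mk _ _ h₁).ShortExact :=
    { exact := (ShortComplex.exact_iff_of_epi_of_isIso_of_mono (S₁ := ShortComplex.mk _ _ h₁)
        (S₂ := S.map P) ⟨𝟙 _, 𝟙 _, Abelian.image.ι _, by simp, by simp⟩).2 hP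
      mono_f := by have := hS.mono_f; exact inferInstanceAs (Mono (P.map S.f)) }
  refine ⟨_, _, _, h₁, h₂, hT, adj.map_injective _ hI,
    { exact := (ShortComplex.exact_iff_of_epi_of_isIso_of_mono (S₂ := ShortComplex.mk _ _ h₂)
        (S₁ := ShortComplex.mk _ _ h) ⟨Abelian.factorThruImage _, 𝟙 _, 𝟙 _, by simp, by simp⟩).1 he },
    Abelian.image.fac _, fun X q x => ?_⟩
  rw [edge_apply, edge_apply, map_dl, map_post, post_post]
  exact post_dl (hT.map_of_exact L) hS ⟨cou adj _, cou adj _,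
    L.map (Abelian.image.ι _) ≫ cou adj _, (cou_nat adj _).symm, by
      change cou adj _ ≫ S.g = L.map (Abelian.factorThruImage _) ≫ L.map _ ≫ cou adj _
      rw [← L.map_comp_assoc, Abelian.image.fac, cou_nat]⟩ _

include D in
theorem fil_mono (X : B) (n b : ℕ) (F : A) : fil.{w} adj X n F b ≤ fil adj X n F (b + 1) := by
  induction n generalizing F b with
  | zero => rw [fil_top adj X (Nat.succ_pos b)]; exact le_top
  | succ n ih =>
    obtain _ | _ | b := b
    · rw [fil_zero]; exact bot_le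
    · obtain ⟨Z, g, i, h₁, h₂, hT, hI, hU, hg, hd⟩ := D.step adj (sus_ex F)
      rw [fil_one, fil_succ, fil_one]
      rintro _ ⟨y, rfl⟩
      obtain ⟨z, rfl⟩ := ((cov_les X hT).e₁ n y).1 (Ext.eq_zero_of_injective _)
      exact ⟨_, ⟨_, rfl⟩, (hd X n z).symm⟩
    · rw [fil_succ, fil_succ]
      exact AddSubgroup.map_mono (ih _ _)

include D in
/-- The graded pieces are natural subquotients of the `E₂` terms. -/
theorem fil_step {X' X : B} (a : X' ⟶ X) {i b n : ℕ} (hn : i + b = n) {F G : A} (u : F ⟶ G)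
    (h : ∀ y : Ext.{w} X ((R b).obj F) i, pre a _ i (post X ((R b).map u) i y) = 0)
    {x : Ext.{w} (L.obj X) F n} (hx : x ∈ fil adj X n F (b + 1)) :
    pre (L.map a) G n (post _ u n x) ∈ fil adj X' n G b := by
  induction b generalizing F G n with
  | zero =>
    obtain rfl : i = n := hn
    rw [fil_one] at hx
    obtain ⟨y, rfl⟩ := hx
    have : pre a _ i (post X (P.map u) i y) = 0 := (post_bij X' (D.e.hom.app G) i).1 (by
      rw [← pre_post, post_post, D.e.hom.naturality, ← post_post, h, map_zero])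
    rw [fil_zero, AddSubgroup.mem_bot, ← edge_post, ← edge_pre, this, map_zero]
  | succ b ih =>
    obtain rfl : i + b + 1 = n := hn
    rw [fil_succ] at hx
    obtain ⟨y, hy, rfl⟩ := hx
    obtain ⟨φ, rfl⟩ := sus_lift u
    rw [post_dl (sus_ex F) (sus_ex G) φ, pre_dl _ (sus_ex G)]
    cases b with
    | zero =>
      obtain ⟨Z, g, j, h₁, h₂, hT, hI, hU, hg, hd⟩ := D.step adj (sus_ex G)
      rw [SetLike.mem_coe, fil_one] at hy
      obtain ⟨y, rfl⟩ := hy
      obtain ⟨z, hz⟩ := ((cov_les X' hU).e₂ i (pre a _ i (post X (P.map φ.τ₃) i y))).1 (by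
        change post X' (D.π (sus_ex G)) i _ = 0
        rw [← pre_post, post_post, ← D.π_nat (sus_ex F), ← post_post]
        exact h _)
      rw [fil_one, ← edge_post, ← edge_pre]
      exact ⟨_, (hd X' i z).trans (congrArg (fun t => dl _ _ i (edge adj X' _ i t)) hz)⟩
    | succ b =>
      rw [fil_succ]
      refine ⟨_, ih rfl φ.τ₃ (fun z => ?_) hy, rfl⟩
      have := D.δ_iso (sus_ex G) inferInstance b
      refine (post_bij X' (D.δ (sus_ex G) (b + 1)) i).1 ?_
      rw [← pre_post, post_post, ← D.nat (sus_ex F), ← post_post, map_zero]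
      exact h _

include D in
theorem fil_step_id (X : B) {i b n : ℕ} (hn : i + b = n) (F : A)
    (h : ∀ y : Ext.{w} X ((R b).obj F) i, y = 0) :
    fil.{w} adj X n F (b + 1) = fil adj X n F b :=
  le_antisymm (fun x hx => by
    have := fil_step adj D (𝟙 X) hn (𝟙 F) (fun y => by rw [h y, map_zero, map_zero]) hx
    rwa [L.map_id, pre_id, post_id] at this) (fil_mono adj D X n b F)

include D in
theorem edge_surj (X : B) (n : ℕ) (F : A)
    (h : ∀ i b, i + (b + 1) = n → ∀ y : Ext.{w} X ((R (b + 1)).obj F) i, y = 0) :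
    Surjective (edge.{w} adj X F n) := by
  have key : ∀ b, b ≤ n → fil.{w} adj X n F (b + 1) = fil adj X n F 1 := fun b hb => by
    induction b with
    | zero => rfl
    | succ b ih =>
      rw [fil_step_id adj D X (i := n - (b + 1)) (by omega) F (h _ _ (by omega)), ih (by omega)]
  rw [← AddMonoidHom.range_eq_top, ← fil_one, ← key n le_rfl, fil_top adj X n.lt_succ_self]

include D in
theorem edge_inj (X : B) (n : ℕ) (F : A)
    (h : ∀ i b, i + (b + 1) + 1 = n → ∀ y : Ext.{w} X ((R (b + 1)).obj F) i, y = 0) :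
    Injective (edge.{w} adj X F n) := by
  induction n generalizing F with
  | zero => exact (edge_zero_bij adj X F).1
  | succ n ih =>
    obtain ⟨Z, g, i, h₁, h₂, hT, hI, hU, hg, hd⟩ := D.step adj (sus_ex F)
    refine (injective_iff_map_eq_zero _).2 fun x hx => ?_
    obtain ⟨x, rfl⟩ := ((cov_les X hT).e₁ n x).1 (Ext.eq_zero_of_injective _)
    obtain ⟨z, hz⟩ := ((cov_les _ (sus_ex F)).e₃ n _).1 ((hd X n x).symm.trans hx)
    cases n with
    | zero =>
      obtain ⟨z, rfl⟩ := (edge_zero_bij adj X (sus F).X₂).2 z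
      rw [← edge_post, ← hg, ← post_post] at hz
      rw [← (cov_les X hU).inj ((edge_zero_bij adj X _).1 hz)]
      exact ((cov_les X hT).e₃ 0).apply_apply_eq_zero z
    | succ n =>
      rw [Ext.eq_zero_of_injective z, map_zero] at hz
      have h3 := ih (sus F).X₃ fun j b hj y => by
        have := D.δ_iso (sus_ex F) inferInstance b
        exact (post_bij X (D.δ (sus_ex F) (b + 1)) j).1
          ((h j (b + 1) (by omega) _).trans (map_zero _).symm)
      obtain ⟨y, rfl⟩ := ((cov_les X hU).e₁ n x).1 (h3 (hz.symm.trans (map_zero _).symm))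
      rw [h n 0 (by omega) y, map_zero, map_zero]

lemma equiv_of_ker {M N N' : Type*} [AddCommGroup M] [AddCommGroup N] [AddCommGroup N']
    (p : M →+ N) (q : M →+ N') (hp : Surjective p) (hq : Surjective q)
    (h : ∀ x, p x = 0 ↔ q x = 0) : Nonempty (N ≃+ N') :=
  ⟨(QuotientAddGroup.quotientKerEquivOfSurjective p hp).symm.trans
    ((QuotientAddGroup.quotientAddEquivOfEq (AddSubgroup.ext h)).trans
      (QuotientAddGroup.quotientKerEquivOfSurjective q hq))⟩

include D adj in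
/-- Only one `E₂` term contributes. -/
theorem edge_one (X : B) {a b₀ n : ℕ} (hn : a + b₀ = n) (F : A)
    (h₁ : ∀ b i, b < b₀ → (i + b = n ∨ i + b = n + 1) → ∀ y : Ext.{w} X ((R b).obj F) i, y = 0)
    (h₂ : ∀ b i, b₀ < b → (i + b = n ∨ i + b + 1 = n) → ∀ y : Ext.{w} X ((R b).obj F) i, y = 0) :
    Nonempty (Ext.{w} (L.obj X) F n ≃+ Ext.{w} X ((R b₀).obj F) a) := by
  induction b₀ generalizing F n with
  | zero =>
    obtain rfl : a = n := hn
    exact ⟨(AddEquiv.ofBijective _ ⟨edge_inj adj D X a F fun i b h => h₂ _ _ (by omega) (.inr h),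
      edge_surj adj D X a F fun i b h => h₂ _ _ (by omega) (.inl h)⟩).symm.trans
      (AddEquiv.ofBijective _ (post_bij X (D.e.hom.app F) a))⟩
  | succ b ih =>
    obtain rfl : a + b + 1 = n := hn
    obtain ⟨Z, g, j, k₁, k₂, hT, hI, hU, hg, hd⟩ := D.step adj (sus_ex F)
    have hP : ∀ i, (i = a + b + 1 ∨ i = a + b + 2) → ∀ y : Ext.{w} X (P.obj (sus F).X₁) i, y = 0 :=
      fun i hi y => (post_bij X (D.e.hom.app F) i).1
        ((h₁ 0 i (by omega) (by omega) _).trans (map_zero _).symm)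
    have hZ : ∀ i, (i + 1 = a + b ∨ i = a + b) → ∀ z : Ext.{w} X Z (i + 1), z = 0 :=
      fun i hi z => (dl_bij X hT i).1 ((hP _ (by omega) _).trans (map_zero _).symm)
    have hs : ∀ c i, (∀ y : Ext.{w} X ((R (c + 2)).obj F) i, y = 0) →
        ∀ y : Ext.{w} X ((R (c + 1)).obj (sus F).X₃) i, y = 0 := fun c i h y => by
      have := D.δ_iso (sus_ex F) inferInstance c
      exact (post_bij X (D.δ (sus_ex F) (c + 1)) i).1 ((h _).trans (map_zero _).symm)
    cases b with
    | zero =>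
      have e1 := edge_inj adj D X a (sus F).X₃ fun i c h =>
        hs c i (h₂ _ _ (by omega) (by omega))
      have e2 := edge_surj adj D X a (sus F).X₃ fun i c h =>
        hs c i (h₂ _ _ (by omega) (by omega))
      refine equiv_of_ker ((dl _ (sus_ex F) a).comp (edge adj X _ a)) (post X (D.π (sus_ex F)) a)
        ((dl_surj _ _ a).comp e2) (fun y => ((cov_les X hU).e₃ a y).1 (hZ a (by omega) _))
        fun y => ⟨fun hy => ?_, fun hy => ?_⟩
      · obtain ⟨z, hz⟩ := ((cov_les _ (sus_ex F)).e₃ a _).1 hy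
        cases a with
        | zero =>
          obtain ⟨z, rfl⟩ := (edge_zero_bij adj X (sus F).X₂).2 z
          rw [← edge_post] at hz
          rw [← e1 hz, post_post, D.g_π, post_apply, Ext.mk₀_zero, Ext.comp_zero]
        | succ a =>
          rw [Ext.eq_zero_of_injective z, map_zero] at hz
          rw [e1 (hz.symm.trans (map_zero _).symm), map_zero]
      · obtain ⟨z, rfl⟩ := ((cov_les X hU).e₂ a y).1 hy
        exact (hd X a z).symm.trans (by rw [hP _ (by omega) (dl X hT a z), map_zero])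
    | succ b =>
      have := D.δ_iso (sus_ex F) inferInstance b
      obtain ⟨e⟩ := ih (n := a + (b + 1)) rfl (sus F).X₃ (fun c i hc hi => by
        cases c with
        | zero =>
          intro y
          obtain ⟨y, rfl⟩ := (post_bij X (D.e.hom.app _) i).2 y
          obtain ⟨z, rfl⟩ := ((cov_les X hU).e₂ i y).1 (h₁ 1 i (by omega) (by omega) _)
          obtain ⟨i, rfl⟩ : ∃ k, i = k + 1 := ⟨i - 1, by omega⟩
          rw [hZ i (by omega) z, map_zero, map_zero]
        | succ c => exact hs c i (h₁ _ _ (by omega) (by omega))) (fun c i hc hi => by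
        obtain ⟨c, rfl⟩ : ∃ k, c = k + 1 := ⟨c - 1, by omega⟩
        exact hs c i (h₂ _ _ (by omega) (by omega)))
      exact ⟨((AddEquiv.ofBijective _ (dl_bij (L.obj X) (sus_ex F) (a + b))).symm.trans e).trans
        (AddEquiv.ofBijective _ (post_bij X (D.δ (sus_ex F) (b + 1)) a))⟩

end Fil

end Pool.Agent.MP_855f4c_ag.E

end

section

set_option autoImplicit false
set_option backward.isDefEq.respectTransparency false

open CategoryTheory Limits Abelian Opposite Function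

namespace Pool.Agent.MP_855f4c_ag.E

universe v u

attribute [local irreducible] Ext.comp Ext.mk₀ Ext.mapExactFunctor ShortComplex.ShortExact.extClass

variable {C D : Type u} [Category.{v} C] [Category.{v} D] {J : GrothendieckTopology C}
  (K : GrothendieckTopology D)

section push
variable (G : D ⥤ C)

lemma Rb_isZero {F : Sh J} {q : ℕ} (h : ∀ (T : D) (x : H (G.obj T) F q), x = 0) :
    IsZero ((Rb J K G q).obj F) :=
  (presheafToSheaf K Ab.{max u v}).map_isZero (X := (HPG J G q).obj F) (Functor.isZero _ fun T =>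
    have : Subsingleton (((HPG J G q).obj F).obj T) := ⟨fun x y => (h _ x).trans (h _ y).symm⟩
    AddCommGrpCat.isZero_of_subsingleton _)

/-- `H^q(G T, F) → (R^q F)(T)`. -/
noncomputable def toRb (F : Sh J) (q : ℕ) (T : D) :
    H (G.obj T) F q →+ ((Rb J K G q).obj F).obj.obj (op T) :=
  ((toSheafify K ((HPG J G q).obj F)).app (op T)).hom

lemma toRb_res {F : Sh J} {q : ℕ} {T' T : D} (g : T' ⟶ T) (x : H (G.obj T) F q) :
    toRb K G F q T' (res (G.map g) F q x) =
      ((Rb J K G q).obj F).obj.map g.op (toRb K G F q T x) :=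
  congr($((toSheafify K ((HPG J G q).obj F)).naturality g.op) x)

lemma shf_app {P Q : Dᵒᵖ ⥤ Ab.{max u v}} (a : P ⟶ Q) (T : D) (x : P.obj (op T)) :
    (toSheafify K Q).app (op T) (a.app (op T) x) =
      ((presheafToSheaf K _).map a).hom.app (op T) ((toSheafify K P).app (op T) x) :=
  congr(($(toSheafify_naturality K a)).app (op T) x)

lemma toRb_post {F F' : Sh J} (φ : F ⟶ F') {q : ℕ} {T : D} (x : H (G.obj T) F q) :
    toRb K G F' q T (post _ φ q x) = ((Rb J K G q).map φ).hom.app (op T) (toRb K G F q T x) :=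
  shf_app K ((HPG J G q).map φ) T x

lemma toRb_dl {S : ShortComplex (Sh J)} (hS : S.ShortExact) {q : ℕ} {T : D}
    (x : H (G.obj T) S.X₃ q) :
    toRb K G S.X₁ (q + 1) T (dl _ hS q x) = (Rδ K G hS q).hom.app (op T) (toRb K G S.X₃ q T x) :=
  shf_app K (HPδ G hS q) T x

lemma toSheafify_bij (P : Dᵒᵖ ⥤ Ab.{max u v}) {T : D} (h : ∀ S ∈ K T, S (𝟙 T)) :
    Bijective ((toSheafify K P).app (op T)) := by
  have e (Q : Dᵒᵖ ⥤ Ab.{max u v}) (s : Q.obj (op T)) : Q.map (𝟙 T).op s = s := by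
    rw [op_id, Q.map_id]; rfl
  refine ⟨fun x y h' => ?_, fun s => ?_⟩
  · exact (e P x).symm.trans ((h _ (Presheaf.equalizerSieve_mem K _ x y h')).trans (e P y))
  · obtain ⟨t, ht⟩ := h _ (Presheaf.imageSieve_mem K (toSheafify K P) s)
    exact ⟨t, ht.trans (e _ s)⟩

variable [G.IsContinuous K J]

lemma R0_toRb {F : Sh J} {T : D} (s : F.obj.obj (op (G.obj T))) :
    ((R0 J K G).hom.app F).hom.app (op T) (toRb K G F 0 T (h0 _ F s)) = s := by
  have h1 := shf_app K ((HP0 J K G).inv.app F) T (h0 _ F s)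
  have h2 : (((HP0 J K G).inv.app F).app (op T)) (h0 _ F s) = s := (h0 _ F).symm_apply_apply s
  have h3 := (sheafificationAdjunction K Ab.{max u v}).right_triangle_components
    ((push J K G).obj F)
  have h4 : ((sheafificationAdjunction K Ab.{max u v}).counit.app ((push J K G).obj F)).hom.app
      (op T) ((toSheafify K ((push J K G).obj F).obj).app (op T) s) = s :=
    congr(($h3).app (op T) s)
  rw [h2] at h1
  exact (congrArg _ h1.symm).trans h4

omit [G.IsContinuous K J] in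
/-- The constructor, with the instances of sheaf categories. -/
noncomputable def NDF.ofSh {P : Sh J ⥤ Sh K} {R : ℕ → Sh J ⥤ Sh K} (add : ∀ n, (R n).Additive)
    (e : P ≅ R 0)
    (δ : ∀ {S : ShortComplex (Sh J)}, S.ShortExact → ∀ n, (R n).obj S.X₃ ⟶ (R (n + 1)).obj S.X₁)
    (nat : ∀ {S : ShortComplex (Sh J)} (hS : S.ShortExact) (n : ℕ) {T : ShortComplex (Sh J)}
      (hT : T.ShortExact) (φ : S ⟶ T),
      δ hS n ≫ (R (n + 1)).map φ.τ₁ = (R n).map φ.τ₃ ≫ δ hT n)
    (ex₁ : ∀ {S : ShortComplex (Sh J)} (hS : S.ShortExact) (n : ℕ),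
      ∃ h, (ShortComplex.mk (δ hS n) ((R (n + 1)).map S.f) h).Exact)
    (ex₂ : ∀ {S : ShortComplex (Sh J)} (_ : S.ShortExact) (n : ℕ),
      ∃ h, (ShortComplex.mk ((R n).map S.f) ((R n).map S.g) h).Exact)
    (ex₃ : ∀ {S : ShortComplex (Sh J)} (hS : S.ShortExact) (n : ℕ),
      ∃ h, (ShortComplex.mk ((R n).map S.g) (δ hS n) h).Exact)
    [P.PreservesMonomorphisms]
    (inj : ∀ (I : Sh J) (n : ℕ), Injective I → IsZero ((R (n + 1)).obj I)) : NDF P R where
  add := add
  e := e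
  δ := δ
  nat hS hT φ n := nat hS n hT φ
  ex₁ := ex₁
  ex₂ := ex₂
  ex₃ := ex₃
  mono {S} hS := by
    have := hS.mono_f
    rw [← NatIso.naturality_1 e S.f]
    infer_instance
  inj := inj

variable (J) in
/-- The higher direct images as a natural cohomological functor. -/
noncomputable def rbNDF : NDF (push J K G) (Rb J K G) :=
  NDF.ofSh K (fun _ => inferInstance) (R0 J K G).symm (Rδ K G) (Rδ_nat K G) (Rb_exact₁ K G)
    (Rb_exact₂ K G) (Rb_exact₃ K G) fun _ _ _ => Rb_isZero K G fun _ x => Ext.eq_zero_of_injective x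

end push

lemma pre_sub_smul {A : Type*} [Category* A] [Abelian A] [HasExt.{u} A] {X F : A} (a : X ⟶ X)
    (c : ℤ) {n : ℕ} (x : Ext.{u} X F n) : pre (a - c • 𝟙 X) F n x = pre a F n x - c • x := by
  let φ : (X ⟶ X) →+ Ext.{u} X F n := AddMonoidHom.mk' (fun a => pre a F n x) fun a b => by
    rw [pre_apply, Ext.mk₀_add, Ext.add_comp]; rfl
  exact (map_sub φ _ _).trans (by rw [map_zsmul]; exact congrArg (_ - c • ·) (pre_id x))

section adj
variable {L : C ⥤ D} {G : D ⥤ C} (adj : L ⊣ G) [L.IsContinuous J K] [G.IsContinuous K J]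
  [PreservesFiniteColimits (push K J L)]

theorem edgeH_inj (U : D) (F : Sh J) (n : ℕ)
    (h : ∀ a b, a + (b + 1) + 1 = n → ∀ y : H U ((Rb J K G (b + 1)).obj F) a, y = 0) :
    Injective (edgeH K adj U F n) :=
  (pre_bij _ F n).1.comp (edge_inj (padj J K adj) (rbNDF J K G) _ n F h)

theorem edgeH_surj (U : D) (F : Sh J) (n : ℕ)
    (h : ∀ a b, a + (b + 1) = n → ∀ y : H U ((Rb J K G (b + 1)).obj F) a, y = 0) :
    Surjective (edgeH K adj U F n) :=
  (pre_bij _ F n).2.comp (edge_surj (padj J K adj) (rbNDF J K G) _ n F h)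

/-- The Leray filtration on `H^n(G U, F)`. -/
noncomputable def filH (U : D) (F : Sh J) (n b : ℕ) : AddSubgroup (H (G.obj U) F n) :=
  (fil (padj J K adj) ((fr K).obj U) n F b).map (pre (frPb J K adj U) F n)

theorem filH_zero (U : D) (F : Sh J) (n : ℕ) : filH K adj U F n 0 = ⊥ := by
  rw [filH, fil_zero, AddSubgroup.map_bot]

theorem filH_one (U : D) (F : Sh J) (n : ℕ) : filH K adj U F n 1 = (edgeH K adj U F n).range := by
  rw [filH, fil_one, AddMonoidHom.map_range, edgeH]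

theorem filH_top (U : D) (F : Sh J) {n b : ℕ} (h : n < b) : filH K adj U F n b = ⊤ := by
  rw [filH, fil_top _ _ h, ← AddMonoidHom.range_eq_map]
  exact AddMonoidHom.range_eq_top.2 (pre_bij _ F n).2

theorem filH_mono (U : D) (F : Sh J) (n b : ℕ) : filH K adj U F n b ≤ filH K adj U F n (b + 1) :=
  AddSubgroup.map_mono (fil_mono (padj J K adj) (rbNDF J K G) _ n b F)

omit [G.IsContinuous K J] [PreservesFiniteColimits (push K J L)] in
lemma frPb_res {U' U : D} (g : U' ⟶ U) {F F' : Sh J} (φ : F ⟶ F') {n : ℕ}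
    (x : Ext ((push K J L).obj ((fr K).obj U)) F n) :
    pre (frPb J K adj U') F' n (pre ((push K J L).map ((fr K).map g)) F' n (post _ φ n x)) =
      res (G.map g) F' n (post _ φ n (pre (frPb J K adj U) F n x)) := by
  rw [← pre_post, pre_pre, pre_pre, frPb_nat]

theorem filH_nat {U' U : D} (g : U' ⟶ U) {F F' : Sh J} (φ : F ⟶ F') {n b : ℕ}
    {x : H (G.obj U) F n} (hx : x ∈ filH K adj U F n b) :
    res (G.map g) F' n (post _ φ n x) ∈ filH K adj U' F' n b := by
  obtain ⟨x, hx, rfl⟩ := hx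
  exact ⟨_, fil_nat (padj J K adj) ((fr K).map g) φ hx, frPb_res K adj g φ x⟩

omit [L.IsContinuous J K] [G.IsContinuous K J] [PreservesFiniteColimits (push K J L)] in
lemma res_map_id {U : D} {F : Sh J} {n : ℕ} (x : H (G.obj U) F n) :
    res (G.map (𝟙 U)) F n x = x := by
  rw [G.map_id]
  exact (congrArg (pre · F n x) ((fr J).map_id _)).trans (pre_id x)

theorem filH_post {U : D} {F F' : Sh J} (φ : F ⟶ F') {n b : ℕ} {x : H (G.obj U) F n}
    (hx : x ∈ filH K adj U F n b) : post _ φ n x ∈ filH K adj U F' n b :=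
  res_map_id (post _ φ n x) ▸ filH_nat K adj (𝟙 U) φ hx

theorem filH_res {U' U : D} (g : U' ⟶ U) {F : Sh J} {n b : ℕ} {x : H (G.obj U) F n}
    (hx : x ∈ filH K adj U F n b) : res (G.map g) F n x ∈ filH K adj U' F n b := by
  have := filH_nat K adj g (𝟙 F) hx
  rwa [post_id] at this

theorem filH_step {U' U : D} (g : U' ⟶ U) {F F' : Sh J} (φ : F ⟶ F') {a b n : ℕ} (hn : a + b = n)
    (h : ∀ y : H U ((Rb J K G b).obj F) a, res g _ a (post _ ((Rb J K G b).map φ) a y) = 0)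
    {x : H (G.obj U) F n} (hx : x ∈ filH K adj U F n (b + 1)) :
    res (G.map g) F' n (post _ φ n x) ∈ filH K adj U' F' n b := by
  obtain ⟨x, hx, rfl⟩ := hx
  exact ⟨_, fil_step (padj J K adj) (rbNDF J K G) ((fr K).map g) hn φ h hx, frPb_res K adj g φ x⟩

theorem filH_gF {U : D} {F F' : Sh J} (φ : F ⟶ F') {a b n : ℕ} (hn : a + b = n)
    (h : ∀ y : H U ((Rb J K G b).obj F) a, post _ ((Rb J K G b).map φ) a y = 0)
    {x : H (G.obj U) F n} (hx : x ∈ filH K adj U F n (b + 1)) :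
    post _ φ n x ∈ filH K adj U F' n b :=
  res_map_id (post _ φ n x) ▸ filH_step K adj (𝟙 U) φ hn (fun y => by rw [h, map_zero]) hx

theorem filH_gT {U : D} (g : U ⟶ U) (c : ℤ) {F : Sh J} {a b n : ℕ} (hn : a + b = n)
    (h : ∀ y : H U ((Rb J K G b).obj F) a, res g _ a y = c • y)
    {x : H (G.obj U) F n} (hx : x ∈ filH K adj U F n (b + 1)) :
    res (G.map g) F n x - c • x ∈ filH K adj U F n b := by
  obtain ⟨x, hx, rfl⟩ := hx
  refine ⟨_, fil_step (padj J K adj) (rbNDF J K G) ((fr K).map g - c • 𝟙 _) hn (𝟙 F) (fun y => by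
    rw [(Rb J K G b).map_id, post_id, pre_sub_smul]
    exact sub_eq_zero.2 (h y)) hx, ?_⟩
  rw [Functor.map_sub, Functor.map_zsmul, (push K J L).map_id, pre_sub_smul, map_sub, map_zsmul,
    frPb_res, post_id, post_id]

include adj in
/-- Only one `E₂` term contributes. -/
theorem leray_oneH (U : D) (F : Sh J) {a b₀ n : ℕ} (hn : a + b₀ = n)
    (h₁ : ∀ b a', b < b₀ → (a' + b = n ∨ a' + b = n + 1) →
      ∀ y : H U ((Rb J K G b).obj F) a', y = 0)
    (h₂ : ∀ b a', b₀ < b → (a' + b = n ∨ a' + b + 1 = n) →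
      ∀ y : H U ((Rb J K G b).obj F) a', y = 0) :
    Nonempty (H (G.obj U) F n ≃+ H U ((Rb J K G b₀).obj F) a) :=
  (edge_one (padj J K adj) (rbNDF J K G) _ hn F h₁ h₂).map fun e =>
    (AddEquiv.ofBijective _ (pre_bij (frPb J K adj U) F n)).symm.trans e

end adj

section BC
variable {C' D' : Type u} [Category.{v} C'] [Category.{v} D'] (J' : GrothendieckTopology C')
  (K' : GrothendieckTopology D') {G : D ⥤ C} {G' : D' ⥤ C'} {a : D' ⥤ D} {a' : C' ⥤ C}
  (e : G' ⋙ a' ≅ a ⋙ G) [a'.IsContinuous J' J] [PreservesFiniteColimits (push J J' a')]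

/-- The comparison of the cohomology groups in a base change square. -/
noncomputable def bcU (T : D') (F : Sh J) (q : ℕ) :
    H (G.obj (a.obj T)) F q →+ H (G'.obj T) ((push J J' a').obj F) q :=
  (univ J' a' (G'.obj T) F q).comp (res (e.hom.app T) F q)

lemma bcU_apply {T : D'} {F : Sh J} {q : ℕ} (x : H (G.obj (a.obj T)) F q) :
    bcU J' e T F q x = univ J' a' (G'.obj T) F q (res (e.hom.app T) F q x) := rfl

lemma bcU_res {T' T : D'} (g : T' ⟶ T) {F : Sh J} {q : ℕ} (x : H (G.obj (a.obj T)) F q) :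
    bcU J' e T' F q (res (G.map (a.map g)) F q x) = res (G'.map g) _ q (bcU J' e T F q x) := by
  have h : (fr J).map (e.hom.app T') ≫ (fr J).map (G.map (a.map g)) =
      (fr J).map (a'.map (G'.map g)) ≫ (fr J).map (e.hom.app T) :=
    ((fr J).map_comp _ _).symm.trans ((congrArg (fr J).map (e.hom.naturality g).symm).trans
      ((fr J).map_comp _ _))
  refine (congrArg (univ J' a' _ F q) ?_).trans (univ_res J' a' (G'.map g) _)
  exact (pre_pre _ _ x).trans ((congrArg (pre · F q x) h).trans (pre_pre _ _ x).symm)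

lemma bcU_post {T : D'} {F F' : Sh J} (φ : F ⟶ F') {q : ℕ} (x : H (G.obj (a.obj T)) F q) :
    bcU J' e T F' q (post _ φ q x) = post _ ((push J J' a').map φ) q (bcU J' e T F q x) :=
  (congrArg (univ J' a' _ _ _) (pre_post _ φ x)).trans (univ_post J' a' φ _)

lemma bcU_dl {T : D'} {S : ShortComplex (Sh J)} (hS : S.ShortExact) {q : ℕ}
    (x : H (G.obj (a.obj T)) S.X₃ q) :
    bcU J' e T _ _ (dl _ hS q x) = dl _ (hS.map_of_exact (push J J' a')) q (bcU J' e T _ q x) :=
  (congrArg (univ J' a' _ _ _) (pre_dl _ hS x)).trans (univ_dl J' a' hS _)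

variable (hb : ∀ (T : C') (F : Sh J) (q : ℕ), Bijective (univ J' a' T F q))

include hb in
lemma bcU_bij (T : D') (F : Sh J) (q : ℕ) : Bijective (bcU J' e T F q) :=
  (hb _ F q).comp (pre_bij _ F q)

omit [a'.IsContinuous J' J] [PreservesFiniteColimits (push J J' a')] in
lemma HPG_res {T' T : D} (g : T' ⟶ T) {F : Sh J} {q : ℕ} (x : H (G.obj T) F q) :
    ((HPG J G q).obj F).map g.op x = res (G.map g) F q x := rfl

omit [a'.IsContinuous J' J] [PreservesFiniteColimits (push J J' a')] in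
lemma HPG_post {T : D} {F F' : Sh J} (φ : F ⟶ F') {q : ℕ} (x : H (G.obj T) F q) :
    ((HPG J G q).map φ).app (op T) x = post _ φ q x := rfl

/-- The presheaf level. -/
noncomputable def bcHh (q : ℕ) (F : Sh J) :
    a.op ⋙ (HPG J G q).obj F ⟶ (HPG J' G' q).obj ((push J J' a').obj F) where
  app T := AddCommGrpCat.ofHom (bcU J' e T.unop F q)
  naturality _ _ g := AddCommGrpCat.hom_ext (AddMonoidHom.ext fun x =>
    (congrArg (bcU J' e _ F q) (HPG_res (a.map g.unop) x)).trans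
      ((bcU_res J' e g.unop x).trans (HPG_res g.unop _).symm))

lemma bcHh_nat (q : ℕ) {F F' : Sh J} (φ : F ⟶ F') :
    Functor.whiskerLeft a.op ((HPG J G q).map φ) ≫ bcHh J' e q F' =
      bcHh J' e q F ≫ (HPG J' G' q).map ((push J J' a').map φ) :=
  NatTrans.ext (funext fun T => AddCommGrpCat.hom_ext (AddMonoidHom.ext fun x =>
    (congrArg (bcU J' e T.unop F' q) (HPG_post φ x)).trans
      ((bcU_post J' e φ x).trans (HPG_post _ _).symm)))

include hb in
lemma bcHh_iso (q : ℕ) (F : Sh J) : IsIso (bcHh J' e q F) :=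
  have (T : D'ᵒᵖ) : IsIso ((bcHh J' e q F).app T) :=
    (ConcreteCategory.isIso_iff_bijective _).2 (bcU_bij J' e hb T.unop F q)
  NatIso.isIso_of_isIso_app _

/-- The presheaf level, as a natural isomorphism. -/
noncomputable def bcHP (q : ℕ) : HPG J G q ⋙ (Functor.whiskeringLeft _ _ _).obj a.op ≅
    push J J' a' ⋙ HPG J' G' q :=
  NatIso.ofComponents (fun F => @asIso _ _ _ _ (bcHh J' e q F) (bcHh_iso J' e hb q F))
    (bcHh_nat J' e q)

variable [a.IsContinuous K' K] [a.IsCocontinuous K' K]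

variable (a) in
/-- Restriction commutes with sheafification. -/
noncomputable def pushShf : (Functor.whiskeringLeft _ _ Ab.{max u v}).obj a.op ⋙
    presheafToSheaf K' Ab.{max u v} ≅ presheafToSheaf K Ab.{max u v} ⋙ push K K' a :=
  a.pushforwardContinuousSheafificationCompatibility Ab.{max u v} K' K

lemma pushShf_app (P : Dᵒᵖ ⥤ Ab.{max u v}) (T : D') (x : P.obj (op (a.obj T))) :
    ((pushShf K K' a).inv.app P).hom.app (op T) ((toSheafify K P).app (op (a.obj T)) x) =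
      (toSheafify K' (a.op ⋙ P)).app (op T) x := by
  have h1 : ((pushShf K K' a).hom.app P).hom.app (op T) ((toSheafify K' (a.op ⋙ P)).app (op T) x) =
      (toSheafify K P).app (op (a.obj T)) x :=
    congr(($(a.toSheafify_pullbackSheafificationCompatibility Ab.{max u v} K' K P)).app (op T) x)
  rw [← h1]
  exact congr(($((pushShf K K' a).hom_inv_id_app P)).hom.app (op T) _)

/-- Base change for higher direct images. -/
noncomputable def rbBC (q : ℕ) : Rb J K G q ⋙ push K K' a ≅ push J J' a' ⋙ Rb J' K' G' q :=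
  Functor.isoWhiskerLeft (HPG J G q) (pushShf K K' a).symm ≪≫
    Functor.isoWhiskerRight (bcHP J' e hb q) (presheafToSheaf K' Ab.{max u v})

lemma rbBC_toRb {F : Sh J} {q : ℕ} (T : D') (x : H (G.obj (a.obj T)) F q) :
    ((rbBC K J' K' e hb q).hom.app F).hom.app (op T) (toRb K G F q _ x) =
      toRb K' G' _ q T (bcU J' e T F q x) :=
  (congrArg _ (pushShf_app K K' ((HPG J G q).obj F) T x)).trans
    (shf_app K' ((bcHP J' e hb q).hom.app F) T x).symm

end BC

end Pool.Agent.MP_855f4c_ag.E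

end

section

set_option autoImplicit false

open Polynomial

namespace Pool.Agent.MP_855f4c_ag.E.U

namespace Spg

lemma etale_adjoinRoot {R : Type} [CommRing R] {f : R[X]} (hf : f.Monic) (hs : f.Separable) :
    Algebra.Etale R (AdjoinRoot f) := by
  obtain ⟨u, v, h⟩ := hs
  let P : StandardEtalePair R := ⟨f, hf, 1, v, u, 0, by rw [pow_zero, ← h]; ring⟩
  have hu : IsUnit (AdjoinRoot.mk P.f P.g) := by
    change IsUnit (AdjoinRoot.mk f 1)
    rw [map_one]; exact isUnit_one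
  let e := IsLocalization.atUnit (AdjoinRoot f) (Localization.Away (AdjoinRoot.mk P.f P.g)) _ hu
  exact Algebra.Etale.of_equiv (P.equivAwayAdjoinRoot.trans (e.symm.restrictScalars R))

lemma of_inj {R : Type} [CommRing R] {f : R[X]} (hf : f.Monic)
    (hd : Nontrivial R → f.natDegree ≠ 0) : Function.Injective (AdjoinRoot.of f) := by
  rw [injective_iff_map_eq_zero]
  intro r hr
  by_contra h
  have : Nontrivial R := ⟨r, 0, h⟩
  have h1 : f ∣ C r := AdjoinRoot.mk_eq_zero.1 hr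
  have h2 := hf.not_dvd_of_natDegree_lt (C_ne_zero.2 h) (by
    rw [natDegree_C]; exact Nat.pos_of_ne_zero (hd this))
  exact h2 h1

/-- True for all subrings that contain some finite set. -/
def Lg {K : Type} [Field K] (P : Subring K → Prop) : Prop :=
  ∃ T : Set K, T.Finite ∧ ∀ A : Subring K, T ⊆ A → P A

section Lg
variable {K : Type} [Field K]

lemma Lg.and {P Q : Subring K → Prop} (h : Lg P) (k : Lg Q) : Lg fun A => P A ∧ Q A := by
  obtain ⟨T, hT, h⟩ := h
  obtain ⟨S, hS, k⟩ := k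
  exact ⟨T ∪ S, hT.union hS, fun A hA =>
    ⟨h A (Set.subset_union_left.trans hA), k A (Set.subset_union_right.trans hA)⟩⟩

lemma Lg.all {I : Type} [Finite I] {P : I → Subring K → Prop} (h : ∀ i, Lg (P i)) :
    Lg fun A => ∀ i, P i A := by
  choose T hT h using h
  exact ⟨⋃ i, T i, Set.finite_iUnion hT, fun A hA i => h i A ((Set.subset_iUnion T i).trans hA)⟩

lemma Lg.mono {P Q : Subring K → Prop} (h : Lg P) (k : ∀ A, P A → Q A) : Lg Q := by
  obtain ⟨T, hT, h⟩ := h
  exact ⟨T, hT, fun A hA => k A (h A hA)⟩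

lemma Lg.mem (x : K) : Lg fun A => x ∈ A :=
  ⟨{x}, Set.finite_singleton x, fun _ hA => hA rfl⟩

lemma Lg.poly (p : K[X]) : Lg fun A => p ∈ Set.range (mapRingHom A.subtype) := by
  refine (Lg.all (I := p.support) fun i => Lg.mem (p.coeff i)).mono fun A hA => ?_
  have : p ∈ lifts A.subtype := (lifts_iff_coeff_lifts p).2 fun n => by
    by_cases hn : n ∈ p.support
    · exact ⟨⟨_, hA ⟨n, hn⟩⟩, rfl⟩
    · exact ⟨0, by rw [notMem_support_iff.1 hn, map_zero]⟩
  exact this

lemma Lg.poly2 (p : K[X][X]) :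
    Lg fun A => ∃ q : A[X][X], q.map (mapRingHom A.subtype) = p := by
  refine (Lg.all (I := p.support) fun i => Lg.poly (p.coeff i)).mono fun A hA => ?_
  have : p ∈ lifts (mapRingHom A.subtype) := (lifts_iff_coeff_lifts p).2 fun n => by
    by_cases hn : n ∈ p.support
    · exact hA ⟨n, hn⟩
    · exact ⟨0, by rw [notMem_support_iff.1 hn, map_zero]⟩
  exact this

lemma Lg.ex {P : Subring K → Prop} (h : Lg P) :
    ∃ A : Subring K, Algebra.FiniteType ℤ A ∧ P A := by
  obtain ⟨T, hT, h⟩ := h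
  refine ⟨(Algebra.adjoin ℤ T).toSubring, ?_, h _ Algebra.subset_adjoin⟩
  exact (Algebra.FiniteType.adjoin_of_finite hT : Algebra.FiniteType ℤ (Algebra.adjoin ℤ T))

end Lg

lemma gens (A : Type) [CommRing A] [Algebra.FiniteType ℤ A] :
    ∃ s : Finset A, ∀ (L : Type) [CommRing L] (ι : A →+* L) (S : Subring L),
      (∀ x ∈ s, ι x ∈ S) → ∀ x, ι x ∈ S := by
  obtain ⟨s, hs⟩ := Algebra.FiniteType.out (R := ℤ) (A := A)
  refine ⟨s, fun L _ ι S h x => ?_⟩
  have hx : x ∈ Algebra.adjoin ℤ (s : Set A) := hs ▸ Algebra.mem_top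
  rw [Algebra.adjoin_int] at hx
  exact (Subring.closure_le (t := S.comap ι)).2 (fun y hy => h y hy) hx

lemma Lg.ft {K : Type} [Field K] {A₀ : Type} [CommRing A₀] [Algebra.FiniteType ℤ A₀]
    (ι : A₀ →+* K) : Lg fun A => ∀ x, ι x ∈ A := by
  obtain ⟨s, hs⟩ := gens A₀
  exact (Lg.all (I := s) fun i => Lg.mem (ι i)).mono fun A hA =>
    hs K ι A fun x hx => hA ⟨x, hx⟩

/-- The field theory: a primitive element with denominators. -/
lemma prim (R F : Type) {K' : Type} [CommRing R] [IsDomain R] [IsIntegrallyClosed R] [Field K']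
    [Field F] [CharZero F] [Algebra R F] [IsFractionRing R F] [Algebra R K'] [FaithfulSMul R K']
    [Algebra F K'] [IsScalarTower R F K'] [Algebra.IsAlgebraic R K']
    (S : Set K') (hS : S.Finite) :
    ∃ (θ : K') (m : R[X]), m.Monic ∧ m.natDegree ≠ 0 ∧ aeval θ m = 0 ∧
      (∀ g : F[X], aeval θ g = 0 → m.map (algebraMap R F) ∣ g) ∧
      (∃ d : R, d ≠ 0 ∧ ∃ u v : R[X], u * m + v * derivative m = C d) ∧
      ∀ x ∈ S, ∃ d : R, d ≠ 0 ∧ ∃ g : R[X], algebraMap R K' d * x = aeval θ g := by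
  have : Algebra.IsAlgebraic F K' := Algebra.IsAlgebraic.extendScalars (R := R)
    (FaithfulSMul.algebraMap_injective R F)
  have hint : ∀ x : K', IsIntegral F x := fun x => (Algebra.IsAlgebraic.isAlgebraic x).isIntegral
  have := hS.to_subtype
  let L := IntermediateField.adjoin F S
  have : FiniteDimensional F L := IntermediateField.finiteDimensional_adjoin fun x _ => hint x
  obtain ⟨θ₀, h₀⟩ := Field.exists_primitive_element F L
  obtain ⟨y, hy, hθ⟩ := (Algebra.IsAlgebraic.isAlgebraic (R := R) (θ₀ : K')).exists_integral_multiple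
  have hinj := FaithfulSMul.algebraMap_injective R F
  have hm := minpoly.isIntegrallyClosed_eq_field_fractions' F hθ
  refine ⟨y • (θ₀ : K'), minpoly R _, minpoly.monic hθ, (minpoly.natDegree_pos hθ).ne',
    minpoly.aeval _ _, fun g hg => hm ▸ minpoly.dvd F _ hg, ?_, fun x hx => ?_⟩
  · obtain ⟨u, v, h⟩ : (minpoly F (y • (θ₀ : K'))).Separable := Algebra.IsSeparable.isSeparable F _
    obtain ⟨b, hb, hu⟩ := IsLocalization.integerNormalization_spec (nonZeroDivisors R) u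
    obtain ⟨c, hc, hv⟩ := IsLocalization.integerNormalization_spec (nonZeroDivisors R) v
    refine ⟨b * c, mul_ne_zero (nonZeroDivisors.ne_zero hb) (nonZeroDivisors.ne_zero hc),
      C c * IsLocalization.integerNormalization (nonZeroDivisors R) u,
      C b * IsLocalization.integerNormalization (nonZeroDivisors R) v, map_injective _ hinj ?_⟩
    simp only [Polynomial.map_add, Polynomial.map_mul, hu, hv, map_C, ← derivative_map, ← hm]
    rw [Algebra.smul_def b, Algebra.smul_def c, Polynomial.algebraMap_apply,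
      Polynomial.algebraMap_apply, map_mul, map_mul]
    linear_combination (C (algebraMap R F b) * C (algebraMap R F c)) * h
  · have h1 : x ∈ IntermediateField.adjoin F {(θ₀ : K')} := by
      have h2 : (⟨x, IntermediateField.subset_adjoin F S hx⟩ : L) ∈
          IntermediateField.adjoin F {θ₀} := h₀ ▸ IntermediateField.mem_top
      have h3 := IntermediateField.adjoin_map F {θ₀} L.val
      rw [Set.image_singleton] at h3
      exact h3 ▸ ⟨_, h2, rfl⟩
    have h4 : x ∈ IntermediateField.adjoin F {y • (θ₀ : K')} := by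
      refine (IntermediateField.adjoin_simple_le_iff.2 ?_) h1
      have h5 := IntermediateField.smul_mem _
        (IntermediateField.mem_adjoin_simple_self F (y • (θ₀ : K'))) (x := (algebraMap R F y)⁻¹)
      rwa [← algebraMap_smul F y, smul_smul, inv_mul_cancel₀ ((map_ne_zero_iff _ hinj).2 hy),
        one_smul, algebraMap_smul] at h5
    have h6 : x ∈ Algebra.adjoin F {y • (θ₀ : K')} := by
      rw [← IntermediateField.adjoin_simple_toSubalgebra_of_isAlgebraic
        (Algebra.IsAlgebraic.isAlgebraic _)]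
      exact h4
    rw [Algebra.adjoin_singleton_eq_range_aeval] at h6
    obtain ⟨p, hp⟩ := h6
    obtain ⟨b, hb, hu⟩ := IsLocalization.integerNormalization_spec (nonZeroDivisors R) p
    refine ⟨b, nonZeroDivisors.ne_zero hb,
      IsLocalization.integerNormalization (nonZeroDivisors R) p, ?_⟩
    rw [← aeval_map_algebraMap F, hu, ← algebraMap_smul F b, map_smul, algebraMap_smul,
      Algebra.smul_def]
    exact congrArg _ hp.symm

/-- The roots of a polynomial. -/
lemma roots {K : Type} [Field K] [IsAlgClosed K] (δ : K[X]) (h : δ ≠ 0) :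
    ∃ (r : ℕ) (a : Fin (r + 1) → K) (a₁ : K), Function.Injective a ∧ (∀ i, a₁ ≠ a i) ∧
      δ ∣ hp a ^ δ.natDegree := by
  classical
  let Z := insert 0 δ.roots.toFinset
  obtain ⟨r, hr⟩ := Nat.exists_eq_succ_of_ne_zero (Finset.card_ne_zero.2
    (Finset.insert_nonempty 0 δ.roots.toFinset))
  let e : Fin (r + 1) ≃ Z := (Finset.equivFinOfCardEq hr).symm
  obtain ⟨a₁, h₁⟩ := Infinite.exists_notMem_finset Z
  refine ⟨r, fun i => e i, a₁, Subtype.val_injective.comp e.injective,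
    fun i hi => h₁ (hi ▸ (e i).2), ?_⟩
  have hs := (IsAlgClosed.splits δ)
  have hc : δ.roots.card = δ.natDegree := hs.natDegree_eq_card_roots.symm
  conv_lhs => rw [← C_leadingCoeff_mul_prod_multiset_X_sub_C hc]
  rw [C_mul_dvd (leadingCoeff_ne_zero.2 h), ← hc]
  have : ∀ s : Multiset K, (∀ x ∈ s, x ∈ Z) →
      (s.map fun a => X - C a).prod ∣ hp (fun i => (e i : K)) ^ s.card := by
    intro s
    induction s using Multiset.induction_on with
    | empty => simp
    | cons x s ih =>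
      intro hx
      rw [Multiset.map_cons, Multiset.prod_cons, Multiset.card_cons, pow_succ']
      refine mul_dvd_mul ?_ (ih fun y hy => hx y (Multiset.mem_cons_of_mem hy))
      have := Finset.dvd_prod_of_mem (fun i => X - C (e i : K))
        (Finset.mem_univ (e.symm ⟨x, hx x (Multiset.mem_cons_self x s)⟩))
      rwa [e.apply_symm_apply] at this
  exact this _ fun x hx => Finset.mem_insert_of_mem (Multiset.mem_toFinset.2 hx)

lemma hp_map {A B : Type} [CommRing A] [CommRing B] (β : A →+* B) {r : ℕ} (a : Fin r → A) :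
    (hp a).map β = hp fun i => β (a i) := by
  simp [hp, Polynomial.map_prod]

/-- The construction over the finitely generated ring. -/
lemma core {K K' : Type} [Field K] [Field K'] [Algebra K[X] K'] [FaithfulSMul K[X] K']
    (F : Type) [Field F] [Algebra K[X] F] [IsFractionRing K[X] F] [Algebra F K']
    [IsScalarTower K[X] F K'] (A : Subring K) (h : A[X]) (h0 : h ≠ 0) (θ : K') (m : A[X][X])
    (hm : m.Monic) (hθ : aeval θ (m.map (mapRingHom A.subtype)) = 0)
    (hd : ∀ g : F[X], aeval θ g = 0 → (m.map (mapRingHom A.subtype)).map (algebraMap K[X] F) ∣ g) :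
    ∃ φ : AdjoinRoot (m.map (algebraMap A[X] (Localization.Away h))) →+* K',
      Function.Injective φ ∧
      (∀ p : A[X], φ (AdjoinRoot.of _ (algebraMap A[X] (Localization.Away h) p)) =
        algebraMap K[X] K' (p.map A.subtype)) ∧
      ∀ (x : K') (N : ℕ) (g : A[X][X]), algebraMap K[X] K' (h.map A.subtype ^ N) * x =
        aeval θ (g.map (mapRingHom A.subtype)) → x ∈ φ.range := by
  have i1 : Function.Injective (mapRingHom A.subtype) := map_injective _ A.subtype_injective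
  let g₀ : A[X] →+* F := (algebraMap K[X] F).comp (mapRingHom A.subtype)
  have i2 : Function.Injective g₀ := (IsFractionRing.injective K[X] F).comp i1
  have hu : IsUnit (g₀ h) := ((map_ne_zero_iff _ i2).2 h0).isUnit
  let ψ : Localization.Away h →+* F := IsLocalization.Away.lift h hu
  have hψ : ψ.comp (algebraMap A[X] _) = g₀ := IsLocalization.Away.lift_comp h hu
  have i3 : Function.Injective ψ := by
    refine (IsLocalization.lift_injective_iff _).2 fun x y => ⟨fun e => ?_, fun e => by rw [i2 e]⟩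
    rw [← hψ]
    exact congrArg ψ e
  have ev : ∀ g : A[X][X], (g.map (algebraMap A[X] (Localization.Away h))).eval₂
      ((algebraMap F K').comp ψ) θ = aeval θ (g.map (mapRingHom A.subtype)) := fun g => by
    rw [eval₂_map, aeval_def, eval₂_map, RingHom.comp_assoc, hψ, ← RingHom.comp_assoc,
      ← IsScalarTower.algebraMap_eq]
  let φ := AdjoinRoot.lift ((algebraMap F K').comp ψ) θ ((ev m).trans hθ)
  have hφ : ∀ p : A[X], φ (AdjoinRoot.of _ (algebraMap A[X] (Localization.Away h) p)) =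
      algebraMap K[X] K' (p.map A.subtype) := fun p => by
    rw [AdjoinRoot.lift_of, IsScalarTower.algebraMap_apply K[X] F K']
    exact congrArg (algebraMap F K') (RingHom.congr_fun hψ p)
  refine ⟨φ, (injective_iff_map_eq_zero φ).2 fun y hy => ?_, hφ, fun x N g hx => ?_⟩
  · obtain ⟨g, rfl⟩ := AdjoinRoot.mk_surjective y
    rw [AdjoinRoot.lift_mk, ← eval₂_map, ← aeval_def] at hy
    have h1 := hd _ hy
    rw [Polynomial.map_map, show (algebraMap K[X] F).comp (mapRingHom A.subtype) = g₀ from rfl,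
      ← hψ, ← Polynomial.map_map] at h1
    exact AdjoinRoot.mk_eq_zero.2 ((map_dvd_map ψ i3 (hm.map _)).1 h1)
  · have h2 : algebraMap K[X] K' (h.map A.subtype ^ N) ≠ 0 :=
      (map_ne_zero_iff _ (FaithfulSMul.algebraMap_injective _ _)).2
        (pow_ne_zero _ ((map_ne_zero_iff _ i1).2 h0))
    refine ⟨AdjoinRoot.of _ (IsLocalization.Away.invSelf h) ^ N *
      AdjoinRoot.mk _ (g.map (algebraMap A[X] (Localization.Away h))), mul_left_cancel₀ h2 ?_⟩
    rw [hx, map_mul, AdjoinRoot.lift_mk, ev, ← mul_assoc, map_pow, map_pow, ← hφ, ← mul_pow,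
      ← map_mul, ← map_mul, IsLocalization.Away.mul_invSelf, map_one, map_one, one_pow, one_mul]

end Spg

open Spg in
theorem spg : SPG_s := by
  intro A₀ K K' _ _ _ _ _ ι _ _ _ _ A' _ α' hα'
  classical
  let F := FractionRing K[X]
  let : Algebra F K' := FractionRing.liftAlgebra K[X] K'
  have : IsScalarTower K[X] F K' := FractionRing.isScalarTower_liftAlgebra K[X] K'
  have : CharZero F := algebraRat.charZero F
  obtain ⟨s, hs⟩ := gens A'
  obtain ⟨θ, m, hm, hm0, hθ, hd, ⟨d, hd0, u, v, huv⟩, hx⟩ :=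
    prim K[X] F (A'.subtype '' s) (s.finite_toSet.image _)
  choose dx hdx gx hgx using fun x : s => hx x ⟨x, x.2, rfl⟩
  have hδ : d * ∏ x, dx x ≠ 0 := mul_ne_zero hd0 (Finset.prod_ne_zero_iff.2 fun x _ => hdx x)
  obtain ⟨r, a, a₁, ha, ha₁, hdiv⟩ := roots _ hδ
  generalize (d * ∏ x, dx x).natDegree = N at hdiv
  obtain ⟨e, he⟩ : d ∣ hp a ^ N := (dvd_mul_right _ _).trans hdiv
  choose ex hex using fun x : s => show dx x ∣ hp a ^ N from
    ((Finset.dvd_prod_of_mem dx (Finset.mem_univ x)).mul_left d).trans hdiv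
  obtain ⟨A, hA, ⟨⟨⟨⟨⟨⟨⟨⟨k1, k2⟩, k3⟩, k4⟩, k5⟩, mA, rfl⟩, uA, k7⟩, vA, k8⟩, k9⟩⟩ :=
    (((((((((Lg.ft ι).and (Lg.all fun i => Lg.mem (a i))).and (Lg.mem a₁)).and
      (Lg.all fun i => Lg.all fun j => Lg.mem (a i - a j)⁻¹)).and
      (Lg.all fun i => Lg.mem (a₁ - a i)⁻¹)).and (Lg.poly2 m)).and (Lg.poly2 (C e * u))).and
      (Lg.poly2 (C e * v))).and (Lg.all fun x : s => Lg.poly2 (C (ex x) * gx x))).ex
  let aA : Fin (r + 1) → A := fun i => ⟨a i, k2 i⟩
  have i1 : Function.Injective (mapRingHom A.subtype) := map_injective _ A.subtype_injective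
  have hh : (hp aA).map A.subtype = hp a := hp_map _ _
  have h0 : hp aA ≠ 0 := (monic_prod_of_monic _ _ fun i _ => monic_X_sub_C (aA i)).ne_zero
  have hmA : mA.Monic := monic_of_injective i1 hm
  obtain ⟨φ, hφ, hφ1, hφ2⟩ := core F A (hp aA) h0 θ mA hmA hθ hd
  have hr : ∀ x : A', A'.subtype x ∈ φ.range := hs K' A'.subtype φ.range fun x hx => by
    obtain ⟨g, hg⟩ := k9 ⟨x, hx⟩
    refine hφ2 _ N g ?_
    rw [hg, hh, hex ⟨x, hx⟩, map_mul, map_mul, aeval_C, ← hgx ⟨x, hx⟩, mul_comm (algebraMap _ _ _),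
      mul_assoc]
    rfl
  let E := RingEquiv.ofBijective φ.rangeRestrict
    ⟨fun x y e => hφ (congrArg Subtype.val e), φ.rangeRestrict_surjective⟩
  let βA : A' →+* _ := E.symm.toRingHom.comp (A'.subtype.codRestrict φ.range hr)
  have hβA : ∀ x, φ (βA x) = x := fun x => congrArg Subtype.val (E.apply_symm_apply ⟨x, hr x⟩)
  let α : A₀ →+* A := ι.codRestrict A k1
  have hsep : (mA.map (algebraMap A[X] (Localization.Away (hp aA)))).Separable := by
    have h1 : uA * mA + vA * derivative mA = C (hp aA ^ N) := by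
      apply map_injective _ i1
      rw [Polynomial.map_add, Polynomial.map_mul, Polynomial.map_mul, k7, k8, ← derivative_map,
        map_C, map_pow, coe_mapRingHom, hh, he, map_mul, ← huv]
      ring
    have h2 := congrArg (Polynomial.map (algebraMap A[X] (Localization.Away (hp aA)))) h1
    rw [Polynomial.map_add, Polynomial.map_mul, Polynomial.map_mul, ← derivative_map, map_C] at h2
    refine ⟨C (IsLocalization.Away.invSelf (hp aA) ^ N) * uA.map (algebraMap _ _),
      C (IsLocalization.Away.invSelf (hp aA) ^ N) * vA.map (algebraMap _ _), ?_⟩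
    rw [mul_assoc, mul_assoc, ← mul_add, h2, ← map_mul, map_pow, ← mul_pow, mul_comm,
      IsLocalization.Away.mul_invSelf, one_pow, map_one]
  refine ⟨A, hA, α, r, aA, ⟨a₁, k3⟩, rfl, fun i j hij => ?_, fun i => ?_, fun B _ β => ?_⟩
  · exact IsUnit.of_mul_eq_one ⟨_, k4 i j⟩
      (Subtype.ext (mul_inv_cancel₀ (sub_ne_zero.2 (ha.ne hij))))
  · exact IsUnit.of_mul_eq_one ⟨_, k5 i⟩ (Subtype.ext (mul_inv_cancel₀ (sub_ne_zero.2 (ha₁ i))))
  · let RB := Localization.Away (hp fun i => β (aA i))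
    let g₁ : A[X] →+* RB := (algebraMap B[X] RB).comp (mapRingHom β)
    have hu : IsUnit (g₁ (hp aA)) := by
      change IsUnit (algebraMap B[X] RB ((hp aA).map β))
      rw [hp_map]
      exact IsLocalization.Away.algebraMap_isUnit _
    let ρ : Localization.Away (hp aA) →+* RB := IsLocalization.Away.lift _ hu
    have hρ : ρ.comp (algebraMap A[X] _) = g₁ := IsLocalization.Away.lift_comp _ hu
    let mB := (mA.map (algebraMap A[X] (Localization.Away (hp aA)))).map ρ
    have hmB : mB.Monic := (hmA.map _).map _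
    have := hmB.finite_adjoinRoot
    refine ⟨AdjoinRoot mB, inferInstance, inferInstance, this, etale_adjoinRoot hmB hsep.map,
      RingHom.IsIntegral.comap_surjective (algebraMap_isIntegral_iff.2 inferInstance)
        (of_inj hmB fun _ => ?_), (AdjoinRoot.map ρ _ mB dvd_rfl).comp βA, ?_⟩
    · have h3 : mB = mA.map g₁ := by rw [← hρ, ← Polynomial.map_map]
      rw [h3, hmA.natDegree_map]
      rwa [hmA.natDegree_map] at hm0
    · refine RingHom.ext fun p => ?_
      have h4 : βA (α' p) = AdjoinRoot.of _ (algebraMap A[X] _ (p.map α)) := hφ (by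
        rw [hβA, hφ1, Polynomial.map_map]
        exact RingHom.congr_fun hα' p)
      change AdjoinRoot.map ρ _ mB dvd_rfl (βA (α' p)) =
        AdjoinRoot.of mB (algebraMap B[X] RB (p.map (β.comp α)))
      rw [h4, AdjoinRoot.map_of, ← Polynomial.map_map]
      exact congrArg _ (RingHom.congr_fun hρ _)

end Pool.Agent.MP_855f4c_ag.E.U

end

section

set_option autoImplicit false

open CategoryTheory Limits

namespace Pool.Agent.MP_855f4c_ag.E.U

universe v u v' u'

namespace USq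

section one
variable {𝒜 : Type u} [Category.{v} 𝒜] [Abelian 𝒜]

theorem ex_mk {X Y Z : 𝒜} {f : X ⟶ Y} {g : Y ⟶ Z} (w : f ≫ g = 0)
    (h : ∀ ⦃A : 𝒜⦄ (y : A ⟶ Y), y ≫ g = 0 →
      ∃ (A' : 𝒜) (π : A' ⟶ A) (_ : Epi π) (x : A' ⟶ X), π ≫ y = x ≫ f) : Ex f g :=
  ⟨w, (ShortComplex.exact_iff_exact_up_to_refinements _).2 h⟩

theorem ex_ref {X Y Z : 𝒜} {f : X ⟶ Y} {g : Y ⟶ Z} (h : Ex f g) {A : 𝒜} (y : A ⟶ Y)
    (hy : y ≫ g = 0) : ∃ (A' : 𝒜) (π : A' ⟶ A) (_ : Epi π) (x : A' ⟶ X), π ≫ y = x ≫ f :=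
  (ShortComplex.exact_iff_exact_up_to_refinements _).1 h.2 y hy

theorem ex_coker {X Y : 𝒜} (f : X ⟶ Y) : Ex f (cokernel.π f) :=
  ⟨cokernel.condition f, ShortComplex.exact_cokernel f⟩

theorem mono_of_zero {X Y Z : 𝒜} {f : X ⟶ Y} {g : Y ⟶ Z} (h : Ex f g) (hX : IsZero X) : Mono g :=
  ((ShortComplex.mk f g h.1).exact_iff_mono (hX.eq_of_src _ _)).1 h.2

theorem epi_of_zero {X Y Z : 𝒜} {f : X ⟶ Y} {g : Y ⟶ Z} (h : Ex f g) (hZ : IsZero Z) : Epi f :=
  ((ShortComplex.mk f g h.1).exact_iff_epi (hZ.eq_of_tgt _ _)).1 h.2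

theorem ex_iso {X Y Z X' Y' Z' : 𝒜} {f : X ⟶ Y} {g : Y ⟶ Z} (h : Ex f g) (a : X ≅ X') (b : Y ≅ Y')
    (c : Z ≅ Z') : Ex (a.inv ≫ f ≫ b.hom) (b.inv ≫ g ≫ c.hom) := by
  refine ex_mk (by simp [reassoc_of% h.1]) fun A y hy => ?_
  obtain ⟨A', π, _, x, hx⟩ := ex_ref h (y ≫ b.inv) (by
    rw [← cancel_mono c.hom]
    simpa using hy)
  exact ⟨A', π, inferInstance, x ≫ a.hom, by simp [← reassoc_of% hx]⟩

theorem ex5_iso {X₁ X₂ X₃ X₄ X₅ Y₁ Y₂ Y₃ Y₄ Y₅ : 𝒜} (h : Ex5 X₁ X₂ X₃ X₄ X₅) (e₁ : X₁ ≅ Y₁)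
    (e₂ : X₂ ≅ Y₂) (e₃ : X₃ ≅ Y₃) (e₄ : X₄ ≅ Y₄) (e₅ : X₅ ≅ Y₅) : Ex5 Y₁ Y₂ Y₃ Y₄ Y₅ := by
  obtain ⟨a, b, c, d, h1, h2, h3⟩ := h
  exact ⟨_, _, _, _, ex_iso h1 e₁ e₂ e₃, ex_iso h2 e₂ e₃ e₄, ex_iso h3 e₃ e₄ e₅⟩

theorem mono_desc {X Y Z : 𝒜} {f : X ⟶ Y} {g : Y ⟶ Z} (h : Ex f g) :
    Mono (cokernel.desc f g h.1) := by
  refine Preadditive.mono_of_cancel_zero _ fun x hx => ?_
  obtain ⟨A, π, _, q, hq⟩ := surjective_up_to_refinements_of_epi (cokernel.π f) x
  obtain ⟨A', π', _, p, hp⟩ := ex_ref h q (by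
    rw [← cokernel.π_desc f g h.1, ← reassoc_of% hq, hx, comp_zero])
  rw [← cancel_epi π, ← cancel_epi π', hq, reassoc_of% hp]
  simp

theorem ex_desc {X Y Z W : 𝒜} {f : X ⟶ Y} {g : Y ⟶ Z} {k : Z ⟶ W} (w : f ≫ g = 0) (h : Ex g k) :
    Ex (cokernel.desc f g w) k := by
  refine ex_mk ?_ fun A y hy => ?_
  · rw [← cancel_epi (cokernel.π f), cokernel.π_desc_assoc, h.1, comp_zero]
  · obtain ⟨A', π, _, x, hx⟩ := ex_ref h y hy
    exact ⟨A', π, inferInstance, x ≫ cokernel.π f, by simp [hx]⟩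

theorem five {L : 𝒜 → Prop} (hL : Thick L) {X₁ X₂ X₃ X₄ X₅ : 𝒜} (h : Ex5 X₁ X₂ X₃ X₄ X₅)
    (h1 : L X₁) (h2 : L X₂) (h4 : L X₄) (h5 : L X₅) : L X₃ := by
  obtain ⟨a, b, c, d, e1, e2, e3⟩ := h
  have m := mono_desc e1
  have e2' := ex_desc e1.1 e2
  have ep : Epi (kernel.lift d c e3.1) := by
    rw [epi_iff_surjective_up_to_refinements]
    intro A y
    obtain ⟨A', π, _, x, hx⟩ := ex_ref e3 (y ≫ kernel.ι d) (by simp)
    exact ⟨A', π, inferInstance, x, by rw [← cancel_mono (kernel.ι d)]; simpa using hx⟩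
  have e : Ex (cokernel.desc a b e1.1) (kernel.lift d c e3.1) := by
    refine ex_mk ?_ fun A y hy => ex_ref e2' y ?_
    · rw [← cancel_mono (kernel.ι d)]
      simpa using e2'.1
    · rw [← kernel.lift_ι d c e3.1, reassoc_of% hy, zero_comp]
  exact hL.ext (ShortComplex.mk _ _ e.1) { exact := e.2 } (hL.coker a h1 h2) (hL.ker d h4 h5)

theorem clg_L {L R : 𝒜 → Prop} (hR : ∀ X, R X → L X) {X : 𝒜} (h : ClG L R X) : L X := by
  cases h with
  | base _ h => exact hR _ h
  | mid _ _ _ _ _ h => exact h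

theorem low {P Q R C₁ C₂ V W : 𝒜} {u : P ⟶ Q} {m : Q ⟶ R} [Mono m] {c₁ : Q ⟶ C₁} [Epi c₁]
    {c₂ : R ⟶ C₂} [Epi c₂] {t : R ⟶ V} {w : V ⟶ W} (h1 : Ex u c₁) (h2 : Ex (u ≫ m) c₂)
    (h3 : Ex m t) (h4 : Ex t w) (Z : 𝒜) : Ex5 Z C₁ C₂ V W := by
  obtain ⟨α, hα⟩ : ∃ α : C₁ ⟶ C₂, c₁ ≫ α = m ≫ c₂ :=
    ⟨h1.2.desc (m ≫ c₂) (by simpa using h2.1), h1.2.g_desc _ _⟩
  obtain ⟨β, hβ⟩ : ∃ β : C₂ ⟶ V, c₂ ≫ β = t :=
    ⟨h2.2.desc t (by simp [h3.1]), h2.2.g_desc _ _⟩
  refine ⟨0, α, β, w, ex_mk zero_comp fun A x hx => ?_, ex_mk ?_ fun A y hy => ?_,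
    ex_mk ?_ fun A z hz => ?_⟩
  · obtain ⟨A₁, π, _, q, hq⟩ := surjective_up_to_refinements_of_epi c₁ x
    obtain ⟨A₂, π', _, p, hp⟩ := ex_ref h2 (q ≫ m) (by
      rw [Category.assoc, ← hα, ← reassoc_of% hq, hx, comp_zero])
    have hp' : π' ≫ q = p ≫ u := by
      rw [← cancel_mono m]
      simpa using hp
    exact ⟨A₂, π' ≫ π, inferInstance, 0, by
      rw [Category.assoc, hq, reassoc_of% hp', h1.1, comp_zero, comp_zero]⟩
  · rw [← cancel_epi c₁, reassoc_of% hα, hβ, h3.1, comp_zero]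
  · obtain ⟨A₁, π, _, r, hr⟩ := surjective_up_to_refinements_of_epi c₂ y
    obtain ⟨A₂, π', _, q, hq⟩ := ex_ref h3 r (by rw [← hβ, ← reassoc_of% hr, hy, comp_zero])
    exact ⟨A₂, π' ≫ π, inferInstance, q ≫ c₁, by
      rw [Category.assoc, hr, reassoc_of% hq, Category.assoc, hα]⟩
  · rw [← cancel_epi c₂, reassoc_of% hβ, h4.1, comp_zero]
  · obtain ⟨A₁, π, _, r, hr⟩ := ex_ref h4 z hz
    exact ⟨A₁, π, inferInstance, r ≫ c₂, by rw [hr, Category.assoc, hβ]⟩

end one

section two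
variable {𝒜 : Type u} [Category.{v} 𝒜] [Abelian 𝒜] {ℬ : Type u'} [Category.{v'} ℬ] [Abelian ℬ]

theorem shift {T : ℕ → 𝒜 ⥤ ℬ} (hT : DF T) {S : ShortComplex 𝒜} (hS : S.ShortExact)
    (hI : Injective S.X₂) (n : ℕ) :
    Nonempty ((T (n + 1)).obj S.X₃ ≅ (T (n + 2)).obj S.X₁) := by
  obtain ⟨-, δ, h1, h2⟩ := (hT.les S hS).2 (n + 1)
  have := mono_of_zero h1 (hT.inj _ n hI)
  have := epi_of_zero h2 (hT.inj _ (n + 1) hI)
  have := isIso_of_mono_of_epi δ
  exact ⟨asIso δ⟩

/-- Iterated cosyzygies. -/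
noncomputable def syz [EnoughInjectives 𝒜] (F : 𝒜) : ℕ → 𝒜
  | 0 => F
  | b + 1 => cokernel (Injective.ι (syz F b))

theorem ses [EnoughInjectives 𝒜] (F : 𝒜) :
    (ShortComplex.mk _ _ (cokernel.condition (Injective.ι F))).ShortExact :=
  { exact := ShortComplex.exact_cokernel _ }

theorem shift_syz [EnoughInjectives 𝒜] {T : ℕ → 𝒜 ⥤ ℬ} (hT : DF T) (F : 𝒜) (b n : ℕ) :
    Nonempty ((T (n + 1)).obj (syz F b) ≅ (T (n + b + 1)).obj F) := by
  induction b generalizing n with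
  | zero => exact ⟨Iso.refl _⟩
  | succ b ih =>
    obtain ⟨e⟩ := shift hT (ses (syz F b)) (Injective.injective_under _) n
    obtain ⟨e'⟩ := ih (n + 1)
    rw [show n + (b + 1) + 1 = n + 1 + b + 1 by omega]
    exact ⟨e ≪≫ e'⟩

end two

theorem core {𝒜 ℬ 𝒞 : Type u} [Category.{v} 𝒜] [Abelian 𝒜] [Category.{v} ℬ] [Abelian ℬ]
    [Category.{v} 𝒞] [Abelian 𝒞] {T : ℕ → 𝒜 ⥤ ℬ} {G : ℕ → ℬ ⥤ 𝒞} {K : ℕ → 𝒜 ⥤ 𝒞}
    (hT : DF T) (hG : DF G) (hK : DF K) (e : T 0 ⋙ G 0 ≅ K 0) {S : ShortComplex 𝒜}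
    (hS : S.ShortExact) (hI : Injective S.X₂) (hI' : Injective ((T 0).obj S.X₂)) :
    (∀ Z : 𝒞, Ex5 Z ((G 1).obj ((T 0).obj S.X₁)) ((K 1).obj S.X₁) ((G 0).obj ((T 1).obj S.X₁))
      ((G 2).obj ((T 0).obj S.X₁))) ∧
    ∀ a, Ex5 ((G a).obj ((T 1).obj S.X₁)) ((G (a + 2)).obj ((T 0).obj S.X₁))
      ((G (a + 1)).obj ((T 0).obj S.X₃)) ((G (a + 1)).obj ((T 1).obj S.X₁))
      ((G (a + 3)).obj ((T 0).obj S.X₁)) := by
  obtain ⟨hm, hl⟩ := hT.les S hS
  obtain ⟨t1, δ, t2, t3⟩ := hl 0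
  have hδ := epi_of_zero t3 (hT.inj _ 0 hI)
  have hj := mono_desc t1
  have t2' := ex_desc t1.1 t2
  let S₁ := ShortComplex.mk _ _ (cokernel.condition ((T 0).map S.f))
  have h₁ : S₁.ShortExact := { exact := ShortComplex.exact_cokernel _ }
  let S₂ := ShortComplex.mk _ _ t2'.1
  have h₂ : S₂.ShortExact := { exact := t2'.2 }
  have sh := fun n => shift hG h₁ hI' n
  obtain ⟨gm, gl⟩ := hG.les S₂ h₂
  refine ⟨fun Z => ?_, fun a => ?_⟩
  · obtain ⟨-, d₁, a1, a2⟩ := (hG.les S₁ h₁).2 0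
    have := epi_of_zero a2 (hG.inj _ 0 hI')
    obtain ⟨-, dK, k1, k2⟩ := (hK.les S hS).2 0
    have := epi_of_zero k2 (hK.inj _ 0 hI)
    obtain ⟨b1, d₂, b2, -⟩ := gl 0
    obtain ⟨s⟩ := sh 0
    have nat : (G 0).map S₁.g ≫ (G 0).map S₂.f =
        e.hom.app S.X₂ ≫ (K 0).map S.g ≫ e.inv.app S.X₃ := by
      have := e.hom.naturality S.g
      rw [← reassoc_of% this, ← (G 0).map_comp]
      simp [S₁, S₂]
    have c2 : Ex ((G 0).map S₁.g ≫ (G 0).map S₂.f) (e.hom.app S.X₃ ≫ dK) := by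
      rw [nat]
      simpa using ex_iso k1 (e.app S.X₂).symm (e.app S.X₃).symm (Iso.refl _)
    exact ex5_iso (low a1 c2 b1 b2 Z) (Iso.refl _) (Iso.refl _) (Iso.refl _) (Iso.refl _) s
  · obtain ⟨-, d, -, b1⟩ := gl a
    obtain ⟨b2, d', b3, -⟩ := gl (a + 1)
    obtain ⟨s⟩ := sh a
    obtain ⟨s'⟩ := sh (a + 1)
    exact ex5_iso ⟨_, _, _, _, b1, b2, b3⟩ (Iso.refl _) s (Iso.refl _) (Iso.refl _) s'

end USq

open USq

theorem sq : SQ_s.{v, u} := by
  intro 𝒜 _ _ L hL
  have hb : ∀ X Y : 𝒜, L X → L Y → L (X ⊞ Y) := fun X Y hX hY =>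
    hL.ext _ (ShortComplex.Splitting.ofHasBinaryBiproduct X Y).shortExact hX hY
  refine ⟨fun _ _ _ _ _ h => five hL h, hb, ?_⟩
  intro R W Φ hR hm he h0 hx
  have key : ∀ X', ClG L R X' → ∀ (S X : 𝒜) (i : S ⟶ X') (p : S ⟶ X), Mono i → Epi p → L S →
      L X → W X → Φ X := by
    intro X' h
    induction h with
    | base X' h => exact fun S X i p a b c d e => h0 i p a b h c d e
    | @mid X₁ Y Z f g ex c1 c3 hY ih1 ih3 =>
      intro S X i p _ _ hS hX hW
      have l1 := clg_L hR c1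
      have l3 := clg_L hR c3
      have lS₁ : L (kernel (i ≫ g)) := hL.ker _ hS l3
      let r := kernel.ι (i ≫ g) ≫ p
      have lG₃ : L (cokernel r) := hL.coker _ lS₁ hX
      have lG₁ : L (kernel (cokernel.π r)) := hL.ker _ hX lG₃
      refine hx (ShortComplex.mk _ _ (kernel.condition (cokernel.π r)))
        { exact := ShortComplex.exact_kernel _ } lG₁ hX lG₃ ?_ ?_
      · let φ := biprod.desc (kernel.ι (i ≫ g) ≫ i) (-f)
        have hφ : kernel.ι φ ≫ biprod.fst ≫ kernel.ι (i ≫ g) ≫ i = kernel.ι φ ≫ biprod.snd ≫ f := by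
          have h := kernel.condition φ
          rw [← sub_eq_zero, ← Preadditive.comp_sub, ← h]
          congr 1
          ext <;> simp [φ]
        have ep : Epi (kernel.ι φ ≫ biprod.fst) := by
          rw [epi_iff_surjective_up_to_refinements]
          intro A y
          obtain ⟨A', π, _, x, hx⟩ := ex_ref ex (y ≫ kernel.ι (i ≫ g) ≫ i) (by simp)
          exact ⟨A', π, inferInstance, kernel.lift φ (biprod.lift (π ≫ y) x) (by
            simp [φ, hx]), by simp⟩
        refine ih1 (kernel φ) _ (kernel.ι φ ≫ biprod.snd)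
          ((kernel.ι φ ≫ biprod.fst) ≫ Abelian.factorThruImage r) ?_ inferInstance
          (hL.ker _ (hb _ _ lS₁ l1) hY) lG₁ (hm (kernel.ι _) inferInstance lG₁ hX hW)
        refine Preadditive.mono_of_cancel_zero _ fun a ha => ?_
        have h1 : a ≫ kernel.ι φ ≫ biprod.fst = 0 := by
          rw [← cancel_mono (kernel.ι (i ≫ g) ≫ i)]
          simp only [Category.assoc, hφ, reassoc_of% ha, zero_comp]
        rw [← cancel_mono (kernel.ι φ), zero_comp]
        apply biprod.hom_ext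
        · simpa using h1
        · simpa using ha
      · have : Epi (cokernel.desc (kernel.ι (i ≫ g)) (p ≫ cokernel.π r) (by
            rw [← Category.assoc]
            exact cokernel.condition r)) := epi_of_epi_fac (cokernel.π_desc _ _ _)
        exact ih3 _ _ (Abelian.factorThruCoimage (i ≫ g)) _ inferInstance this
          (hL.coker _ lS₁ hS) lG₃ (he (cokernel.π r) inferInstance hX lG₃ hW)
  intro X h hW
  exact key X h X X (𝟙 X) (𝟙 X) inferInstance inferInstance (clg_L hR h) (clg_L hR h) hW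

theorem lera : LERA_s.{v, u} := by
  intro 𝒜 ℬ 𝒞 _ _ _ _ _ _ _ T G K hT hG hK ⟨e⟩ hinj F
  let D : ℕ → ℕ → 𝒞 := fun b a => match a, b with
    | a + 1, b => (G (a + 1)).obj ((T 0).obj (syz F b))
    | 0, 0 => (G 0).obj ((T 0).obj F)
    | 0, n + 1 => (K (n + 1)).obj F
  have c := fun b => core hT hG hK e (ses (syz F b)) (Injective.injective_under _)
    (hinj _ (Injective.injective_under _))
  have sT : ∀ b, Nonempty ((T 1).obj (syz F b) ≅ (T (b + 1)).obj F) := fun b => by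
    simpa using shift_syz hT F b 0
  have sK : ∀ b, Nonempty ((K 1).obj (syz F b) ≅ (K (b + 1)).obj F) := fun b => by
    simpa using shift_syz hK F b 0
  refine ⟨D, fun a => ?_, fun n => ?_, fun b Z _ => ?_, fun b a => ?_⟩
  · cases a <;> exact ⟨Iso.refl _⟩
  · cases n
    · exact ⟨e.app F⟩
    · exact ⟨Iso.refl _⟩
  · obtain ⟨s⟩ := sT b
    obtain ⟨k⟩ := sK b
    exact ex5_iso ((c b).1 Z) (Iso.refl _) (Iso.refl _) k ((G 0).mapIso s) (Iso.refl _)
  · obtain ⟨s⟩ := sT b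
    exact ex5_iso ((c b).2 a) ((G a).mapIso s) (Iso.refl _) (Iso.refl _) ((G (a + 1)).mapIso s)
      (Iso.refl _)

end Pool.Agent.MP_855f4c_ag.E.U

end
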