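import Pool.Agent.MP_855f4c_ag.EC.Da
import Pool.Agent.MP_855f4c_ag.EC.Pa
import Pool.Agent.MP_855f4c_ag.EC.Ua
import Pool.Agent.MP_855f4c_ag.EC.F1b
import Pool.Agent.MP_855f4c_ag.EC.F2c
import Pool.Agent.MP_855f4c_ag.EC.E4d

section

/-! h86e section D, row TWF: geometry of towers of projective lines. -/

set_option autoImplicit false

open CategoryTheory Limits AlgebraicGeometry Polynomial

namespace Pool.Agent.MP_855f4c_ag.E.D

namespace TWF

lemma smooth_line : Smooth (terminal.from (Spec (.of ℤ[X]))) := by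
  have h : Smooth (Spec.map (CommRingCat.ofHom (algebraMap ℤ ℤ[X]))) :=
    (HasRingHomProperty.Spec_iff (P := @Smooth)).2 (RingHom.smooth_algebraMap.2 ⟨inferInstance,
      inferInstance⟩)
  rw [terminal.hom_ext (terminal.from _) (Spec.map (CommRingCat.ofHom (algebraMap ℤ ℤ[X])) ≫
    (specZIsTerminal.uniqueUpToIso terminalIsTerminal).hom)]
  infer_instance

lemma smooth_open {U : Scheme.{0}} (i : U ⟶ P1) [IsOpenImmersion i]
    (h : Smooth (terminal.from U)) : Smooth (i.opensRange.ι ≫ terminal.from P1) := by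
  rw [terminal.hom_ext (i.opensRange.ι ≫ terminal.from P1) (i.isoOpensRange.inv ≫ terminal.from U)]
  infer_instance

lemma smooth_P1 : Smooth (terminal.from P1) := by
  refine IsZariskiLocalAtSource.of_iSup_eq_top (P := @Smooth)
    (fun b : Bool => cond b P1D.ι₁.opensRange P1D.ι₂.opensRange) ?_ ?_
  · refine eq_top_iff.2 fun z _ => TopologicalSpace.Opens.mem_iSup.2 ?_
    exact (P1D.cov z).elim (fun h => ⟨true, h⟩) fun h => ⟨false, h⟩
  · rintro (_ | _)
    · exact smooth_open P1D.ι₂ smooth_line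
    · exact smooth_open P1D.ι₁ smooth_line

lemma pl_smooth {S : Scheme.{0}} (L : PL S) : Smooth L.π :=
  MorphismProperty.of_isPullback (P := @Smooth) L.sq smooth_P1

lemma irr_field {k : Type} [Field k] (L : PL (Spec (.of k))) : IrreducibleSpace L.P := by
  have h1 : IsIrreducible (Set.range L.c₁) := by
    rw [← Set.image_univ]
    exact (IrreducibleSpace.isIrreducible_univ _).image _ L.c₁.continuous.continuousOn
  have h2 : Dense (L.c₂ ⁻¹' Set.range L.c₁) :=
    (L.c₁.isOpenEmbedding.isOpen_range.preimage L.c₂.continuous).dense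
      ⟨⟨⊥, Ideal.isPrime_bot⟩, (L.c₂_mem_c₁ _).2 fun h => X_ne_zero (Ideal.mem_bot.1 h)⟩
  have h3 : closure (Set.range L.c₁) = Set.univ := by
    refine Set.eq_univ_of_forall fun y => ?_
    rcases L.cover y with h | ⟨x, rfl⟩
    · exact subset_closure h
    · exact L.c₂.continuous.closure_preimage_subset _ (h2 x)
  exact (irreducibleSpace_def _).2 (by simpa [h3] using h1.closure)

lemma pl_irr {S : Scheme.{0}} (L : PL S) [IrreducibleSpace S] : IrreducibleSpace L.P := by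
  have := pl_smooth L
  have : GeometricallyIrreducible L.π := ⟨fun k _ y Z a b sq =>
    irr_field (k := k) ⟨Z, b, a ≫ L.q, by
      have := sq.paste_horiz L.sq
      rwa [terminal.comp_from] at this⟩⟩
  exact GeometricallyIrreducible.irreducibleSpace L.π L.π.isOpenMap

lemma geo {d : ℕ} {Y S : Scheme.{0}} {g : Y ⟶ S} (h : TwN d g) :
    IsProper g ∧ Smooth g ∧ (IrreducibleSpace S → IrreducibleSpace Y) := by
  induction h with
  | iso g h =>
    exact ⟨inferInstance, inferInstance, g.homeomorph.irreducibleSpace_iff.2⟩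
  | step L g _ ih =>
    obtain ⟨h1, h2, h3⟩ := ih
    have := pl_smooth L
    refine ⟨inferInstance, inferInstance, fun h => ?_⟩
    have := h3 h
    exact pl_irr L

lemma bc {d : ℕ} {Y S : Scheme.{0}} {g : Y ⟶ S} (h : TwN d g) :
    ∀ {Y' S' : Scheme.{0}} {g' : Y' ⟶ S'} {a : S' ⟶ S} {b : Y' ⟶ Y},
      IsPullback b g' g a → TwN d g' := by
  induction h with
  | iso g h =>
    intro Y' S' g' a b sq
    exact .iso _ (MorphismProperty.of_isPullback (P := MorphismProperty.isomorphisms _) sq h)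
  | step L g _ ih =>
    intro Y' S' g' a b sq
    let m : Y' ⟶ pullback g a := pullback.lift (b ≫ L.π) g' (by rw [Category.assoc, sq.w])
    have e : m ≫ pullback.snd g a = g' := pullback.lift_snd _ _ _
    have top : IsPullback b m L.π (pullback.fst g a) :=
      IsPullback.of_bot (by rw [e]; exact sq) (pullback.lift_fst _ _ _).symm
        (IsPullback.of_hasPullback g a)
    let L' : PL (pullback g a) := ⟨Y', m, b ≫ L.q, by
      have := top.paste_horiz L.sq
      rwa [terminal.comp_from] at this⟩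
    rw [← e]
    exact .step L' _ (ih (IsPullback.of_hasPullback g a))

instance spc_iso {A B : Type} [CommRing A] [CommRing B] (e : A ≃+* B) :
    IsIso (spc (e : A →+* B)) :=
  inferInstanceAs (IsIso (Spec.map e.toCommRingCatIso.hom))

lemma aff (K : Type) [CommRing K] (d : ℕ) : ∃ (P : Scheme.{0}) (g : P ⟶ Spec (.of K))
    (j : Spec (.of (MvPolynomial (Fin d) K)) ⟶ P), TwN d g ∧ IsOpenImmersion j ∧
      j ≫ g = spc (algebraMap K _) := by
  induction d with
  | zero =>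
    have : IsIso (spc (algebraMap K (MvPolynomial (Fin 0) K))) := by
      have e : algebraMap K (MvPolynomial (Fin 0) K) =
          ((MvPolynomial.isEmptyAlgEquiv K (Fin 0)).symm.toRingEquiv : K →+* _) :=
        RingHom.ext fun x => ((MvPolynomial.isEmptyAlgEquiv K (Fin 0)).symm.commutes x).symm
      rw [e]
      infer_instance
    exact ⟨_, 𝟙 _, spc (algebraMap K _), .iso _ inferInstance, inferInstance, Category.comp_id _⟩
  | succ n ih =>
    obtain ⟨P, g, j, h2, h3, h4⟩ := ih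
    obtain ⟨j', h5, h6⟩ := U.aff_open j
    refine ⟨_, _, spc ((MvPolynomial.finSuccEquiv K n).symm.toRingEquiv : _ →+* _) ≫ j',
      .step (PL.std P) g h2, inferInstance, ?_⟩
    rw [Category.assoc, reassoc_of% h6, h4, ← Spec.map_comp, ← Spec.map_comp,
      ← CommRingCat.ofHom_comp, ← CommRingCat.ofHom_comp]
    congr 2
    exact RingHom.ext (MvPolynomial.finSuccEquiv K n).symm.commutes

lemma chart_bc {d : ℕ} {X S X' S' : Scheme.{0}} {f : X ⟶ S} {f' : X' ⟶ S'} {a : S' ⟶ S}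
    {b : X' ⟶ X} (sq : IsPullback b f' f a) (ha : IsAffineHom a) (h : Chart d f) :
    Chart d f' := by
  intro x
  obtain ⟨W, P, u, g, v, h1, h2, h3, h4, h5, h6⟩ := h (b x)
  have hb : IsAffineHom b := MorphismProperty.of_isPullback (P := @IsAffineHom) sq.flip ha
  have s := IsPullback.of_hasPullback u b
  have s2 : IsPullback (pullback.fst u b) (pullback.snd u b ≫ f') (v ≫ g) a := by
    rw [← h5]
    exact s.paste_vert sq
  let m : pullback u b ⟶ pullback g a :=
    pullback.lift (pullback.fst u b ≫ v) (pullback.snd u b ≫ f') (by rw [Category.assoc, s2.w])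
  have e : m ≫ pullback.snd g a = pullback.snd u b ≫ f' := pullback.lift_snd _ _ _
  have top : IsPullback (pullback.fst u b) m v (pullback.fst g a) :=
    IsPullback.of_bot (by rw [e]; exact s2) (pullback.lift_fst _ _ _).symm
      (IsPullback.of_hasPullback g a)
  exact ⟨_, _, pullback.snd u b, pullback.snd g a, m, isAffine_of_isAffineHom (pullback.fst u b),
    inferInstance, bc h3 (IsPullback.of_hasPullback g a),
    MorphismProperty.of_isPullback (P := @Etale) top h4, e.symm, (pb_mem_range s x).2 h6⟩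

end TWF

theorem twf : TWF_s :=
  ⟨fun _ _ _ _ h => ⟨(TWF.geo h).1, (TWF.geo h).2.1, (TWF.geo h).2.2,
    fun _ _ _ _ _ sq => TWF.bc h sq⟩, fun d K _ => TWF.aff K d,
    fun _ _ _ _ _ _ _ _ _ => TWF.chart_bc⟩

end Pool.Agent.MP_855f4c_ag.E.D

end

section

/-! h86e section D, row COEF: higher `Ext (ℤ[W]/n, ℚ_l/ℤ_l)` is effaceable. -/

set_option autoImplicit false
set_option backward.isDefEq.respectTransparency false

open CategoryTheory Limits Abelian Opposite AlgebraicGeometry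

namespace Pool.Agent.MP_855f4c_ag.E.D

open E3 E4
open CV (Ln Lm)

variable {X : Scheme.{0}}

lemma Aet.of_etale {V W : Over X} (hW : Aet W) (p : V ⟶ W) (h1 : IsAffine V.left)
    (h2 : Etale p.left) : Aet V := by
  refine ⟨?_, h1⟩
  have := hW.1
  rw [← Over.w p]
  infer_instance

/-- Classes of positive degree die near every point. -/
lemma coef_loc (W : Over X) (hW : Aet W) (F : Sh (Scheme.etaleTopology.over X)) (q : ℕ) (x : H W F (q + 1))
    (w : W.left) : ∃ (W' : Over X) (h : W' ⟶ W), Aet W' ∧ w ∈ Set.range h.left ∧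
      res h F _ x = 0 := by
  obtain ⟨⟨V, p, h1, h2, h3⟩, hx⟩ := loc_van
    (ι := Σ' (V : Over X) (p : V ⟶ W), IsAffine V.left ∧ Etale p.left ∧ w ∈ Set.range p.left)
    (V := fun i => i.1) (fun i => i.2.1) (fun G G' φ _ s => by
      obtain ⟨V, v, a, b, ⟨t, ht⟩, c⟩ := lifts_pt W φ s w
      exact ⟨⟨V, v, a, b, c⟩, t, ht⟩) q F x
  exact ⟨V, p, hW.of_etale p h1 h2, h3, hx⟩

/-- The sequence `ℤ[W] → ℤ[W] → ℤ[W]/n`. -/
noncomputable def lnS (n : ℕ) (W : Over X) : ShortComplex (Sh (Scheme.etaleTopology.over X)) :=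
  ShortComplex.mk _ _ (cokernel.condition ((n : ℤ) • 𝟙 ((fr (Scheme.etaleTopology.over X)).obj W)))

lemma lnS_exact {n : ℕ} (hn : n ≠ 0) (W : Over X) : (lnS n W).ShortExact :=
  have : NeZero (n : ℤ) := ⟨Int.natCast_ne_zero.2 hn⟩
  { exact := ShortComplex.exact_cokernel _
    mono_f := fr_torsionFree _ _
    epi_g := inferInstanceAs (Epi (cokernel.π _)) }

/-- Its functoriality. -/
noncomputable def lnM (n : ℕ) {W' W : Over X} (h : W' ⟶ W) : lnS n W' ⟶ lnS n W where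
  τ₁ := (fr _).map h
  τ₂ := (fr _).map h
  τ₃ := Lm n h
  comm₁₂ := by simp [lnS]
  comm₂₃ := (cokernel.π_desc _ _ _).symm

lemma coef_Lm_comp (n : ℕ) {W'' W' W : Over X} (g : W'' ⟶ W') (h : W' ⟶ W) :
    Lm n (g ≫ h) = Lm n g ≫ Lm n h := by
  have e : ∀ {A B : Over X} (a : A ⟶ B), (lnS n A).g ≫ Lm n a = (fr _).map a ≫ (lnS n B).g :=
    fun a => (lnM n a).comm₂₃.symm
  have : Epi (lnS n W'').g := inferInstanceAs (Epi (cokernel.π _))
  rw [← cancel_epi (lnS n W'').g, e, ← Category.assoc, e, Category.assoc, e, Functor.map_comp,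
    Category.assoc]

lemma linf_epi (l : ℕ) [Fact l.Prime] (X : Scheme.{0}) {n : ℤ} (hn : n ≠ 0) :
    Epi (n • 𝟙 (Linf l X)) := by
  have h1 : (con X).Additive := by
    unfold con cst constantSheaf
    infer_instance
  have h2 : PreservesFiniteColimits (con X) := by
    unfold con cst constantSheaf
    infer_instance
  have h3 : Epi (n • 𝟙 (AddCommGrpCat.of (QZ l))) := by
    refine (AddCommGrpCat.epi_iff_surjective _).2 fun m => ?_
    obtain ⟨x, rfl⟩ := QuotientAddGroup.mk_surjective m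
    refine ⟨(QuotientAddGroup.mk (x / n) : QZ l), ?_⟩
    change n • (QuotientAddGroup.mk (x / n) : QZ l) = _
    rw [← QuotientAddGroup.mk_zsmul, zsmul_eq_mul, mul_div_cancel₀ _ (Int.cast_ne_zero.2 hn)]
  have h4 : Epi ((con X).map (n • 𝟙 (AddCommGrpCat.of (QZ l)))) := inferInstance
  rwa [Functor.map_zsmul, CategoryTheory.Functor.map_id] at h4

theorem coef : COEF_s := by
  intro l _ X n W hn hW i x w
  obtain ⟨W₁, h₁, a₁, ⟨w₁, rfl⟩, e₁⟩ :=
    coef_loc W hW (Linf l X) i (pre (lnS n W).g _ _ x) w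
  have e₂ : pre (lnS n W₁).g _ _ (pre (Lm n h₁) _ _ x) = 0 := by
    refine (pre_pre (lnS n W₁).g (lnM n h₁).τ₃ x).trans ?_
    rw [← (lnM n h₁).comm₂₃, ← pre_pre]
    exact e₁
  obtain ⟨y, hy⟩ := ((con_les (lnS_exact hn W₁) (Linf l X)).e₁ i _).1 e₂
  suffices h : ∃ (W₂ : Over X) (h₂ : W₂ ⟶ W₁), Aet W₂ ∧ w₁ ∈ Set.range h₂.left ∧
      dr (lnS_exact hn W₂) (Linf l X) i (pre (lnM n h₂).τ₁ _ _ y) = 0 by
    obtain ⟨W₂, h₂, a₂, ⟨w₂, rfl⟩, e₃⟩ := h
    refine ⟨W₂, h₂ ≫ h₁, a₂, ⟨w₂, by simp⟩, ?_⟩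
    rw [coef_Lm_comp, ← pre_pre, ← hy]
    exact (pre_dr (lnS_exact hn W₂) (lnS_exact hn W₁) (lnM n h₂) y).trans e₃
  cases i with
  | succ j =>
    obtain ⟨W₂, h₂, a₂, b₂, e₃⟩ := coef_loc W₁ a₁ (Linf l X) j y w₁
    exact ⟨W₂, h₂, a₂, b₂, (congrArg _ e₃).trans (map_zero _)⟩
  | zero =>
    obtain ⟨y, rfl⟩ := (Ext.mk₀_bijective _ _).2 y
    have := linf_epi l X (Int.natCast_ne_zero.2 hn)
    obtain ⟨V, v, a, b, ⟨t, ht⟩, c⟩ :=
      lifts_pt W₁ ((n : ℤ) • 𝟙 (Linf l X)) (frEquiv W₁ _ y) w₁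
    obtain ⟨t, rfl⟩ := (frEquiv _ _).surjective t
    rw [← frEquiv_post, ← frEquiv_pre, (frEquiv _ _).injective.eq_iff] at ht
    refine ⟨V, v, a₁.of_etale v a b, c,
      ((con_les (lnS_exact hn V) (Linf l X)).e₃ 0 _).2 ⟨Ext.mk₀ t, ?_⟩⟩
    rw [pre_apply, pre_apply, Ext.mk₀_comp_mk₀, Ext.mk₀_comp_mk₀]
    congr 1
    refine Eq.trans ?_ ht
    simp [lnS]

end Pool.Agent.MP_855f4c_ag.E.D

end

section

set_option autoImplicit false
set_option backward.isDefEq.respectTransparency false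

open CategoryTheory Limits Abelian Opposite AlgebraicGeometry

namespace Pool.Agent.MP_855f4c_ag.E.D

open E3 E4

variable {X : Scheme.{0}} {T : Over X}

/-- Shrinking of an arrow to the preimage of an open set. -/
theorem CLOP.shrink {V : Over X} (v : V ⟶ T) (U : Set T.left) (hU : IsOpen U) (z : V.left)
    (hz : v.left z ∈ U) : ∃ (W : Over X) (j : W ⟶ V), IsOpenImmersion j.left ∧
      z ∈ Set.range j.left ∧ ∀ w, (j ≫ v).left w ∈ U := by
  let O : V.left.Opens := v.left ⁻¹ᵁ ⟨U, hU⟩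
  refine ⟨Over.mk (O.ι ≫ V.hom), Over.homMk O.ι rfl, inferInstanceAs (IsOpenImmersion O.ι),
    ⟨⟨z, hz⟩, rfl⟩, fun w => w.2⟩

/-- Extension by zero of a section from a clopen part. -/
theorem CLOP.ext0 {T' : Over X} (c : T' ⟶ T) [IsOpenImmersion c.left]
    (hc : IsClosed (Set.range c.left)) (F : Sh (Scheme.etaleTopology.over X)) (s : sec F T') :
    ∃ t : sec F T, rsec c F t = s ∧
      ∀ (Z : Over X) (y : Z ⟶ T), (∀ z, y.left z ∉ Set.range c.left) → rsec y F t = 0 := by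
  have : Mono c := Over.mono_of_mono_left _
  let R : ∀ ⦃Y : Over X⦄, (Y ⟶ T) → sec F Y → Prop := fun Y y x =>
    (∃ z : Y ⟶ T', z ≫ c = y ∧ x = rsec z F s) ∨ ((∀ p, y.left p ∉ Set.range c.left) ∧ x = 0)
  have h2 : ∀ ⦃Z Y⦄ (g : Z ⟶ Y) (y : Y ⟶ T) x, R y x → R (g ≫ y) (F.obj.map g.op x) := by
    rintro Z Y g y x (⟨z, rfl, rfl⟩ | ⟨h, rfl⟩)
    · exact .inl ⟨g ≫ z, Category.assoc _ _ _, F1M.rr F g z s⟩
    · exact .inr ⟨fun p => h (g.left p), map_zero _⟩
  have he : ∀ ⦃Y : Over X⦄ (z : Y ⟶ T'), (∀ p, (z ≫ c).left p ∉ Set.range c.left) →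
      rsec z F s = 0 := fun Y z h =>
    have : IsEmpty Y.left := ⟨fun p => h p ⟨z.left p, rfl⟩⟩
    zero_of_isEmpty F Y _
  obtain ⟨t, ht⟩ := F1M.glueS F R ⟨fun _ y => ∃ x, R y x, fun ⟨x, h⟩ g => ⟨_, h2 g _ x h⟩⟩
    (mem_Jov_of _ fun p => by
      by_cases hp : p ∈ Set.range c.left
      · exact ⟨T', c, inferInstance, ⟨_, .inl ⟨𝟙 _, Category.id_comp _, rfl⟩⟩, hp⟩
      · obtain ⟨W, j, _, h1, h3⟩ := CLOP.shrink (𝟙 T) _ hc.isOpen_compl p hp
        exact ⟨W, j, inferInstance, ⟨0, .inr ⟨h3, rfl⟩⟩, h1⟩)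
    (fun _ _ h => h) h2 (by
      rintro Y y x x' (⟨z, rfl, rfl⟩ | ⟨h, rfl⟩) (⟨z', e, rfl⟩ | ⟨h', rfl⟩)
      · rw [(cancel_mono c).1 e]
      · exact he z h'
      · subst e; exact (he z' h).symm
      · rfl)
  exact ⟨t, (ht c _ (.inl ⟨𝟙 _, Category.id_comp _, rfl⟩)).trans (res_id _ _),
    fun Z y h => ht y 0 (.inr ⟨h, rfl⟩)⟩

/-- The splitting attached to a clopen part. -/
theorem CLOP.split {T' : Over X} (c : T' ⟶ T) [IsOpenImmersion c.left]
    (hc : IsClosed (Set.range c.left)) :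
    ∃ r : (fr (Scheme.etaleTopology.over X)).obj T ⟶ (fr (Scheme.etaleTopology.over X)).obj T', (fr (Scheme.etaleTopology.over X)).map c ≫ r = 𝟙 _ ∧
      ∀ (Z : Over X) (y : Z ⟶ T), (∀ z, y.left z ∉ Set.range c.left) →
        (fr (Scheme.etaleTopology.over X)).map y ≫ r = 0 := by
  obtain ⟨t, h1, h2⟩ := CLOP.ext0 c hc _ (frEquiv T' _ (𝟙 _))
  obtain ⟨r, rfl⟩ := (frEquiv T _).surjective t
  exact ⟨r, (frEquiv _ _).injective ((frEquiv_pre _ _).trans h1), fun Z y h =>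
    (frEquiv _ _).injective (((frEquiv_pre _ _).trans (h2 Z y h)).trans (map_zero _).symm)⟩

theorem CLOP.pre_sub {A' A F : Sh (Scheme.etaleTopology.over X)} (a b : A' ⟶ A) {q : ℕ} (x : Ext A F q) :
    pre (a - b) F q x = pre a F q x - pre b F q x := by
  rw [eq_sub_iff_add_eq, pre_apply, pre_apply, pre_apply, ← Ext.add_comp, ← Ext.mk₀_add,
    sub_add_cancel]

theorem clop : CLOP_s := by
  intro X T F q
  refine ⟨fun T' c _ hc y => ?_, fun ι _ T' c hc hz x hx => ?_⟩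
  · obtain ⟨r, h, -⟩ := CLOP.split c hc
    exact ⟨pre r F q y, by
      change pre _ F q _ = _
      rw [pre_pre, h, pre_id]⟩
  classical
  have key : ∀ s : Finset ι, ∃ φ : (fr (Scheme.etaleTopology.over X)).obj T ⟶ (fr (Scheme.etaleTopology.over X)).obj T, pre φ F q x = x ∧
      ∀ a ∈ s, ∀ t ∈ Set.range (c a).left, ∃ (V : Over X) (v : V ⟶ T), Etale v.left ∧
        (fr (Scheme.etaleTopology.over X)).map v ≫ φ = 0 ∧ t ∈ Set.range v.left := by
    intro s
    induction s using Finset.induction_on with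
    | empty => exact ⟨𝟙 _, pre_id _, fun a ha => absurd ha (Finset.notMem_empty a)⟩
    | insert a s _ ih =>
      obtain ⟨φ, h1, h2⟩ := ih
      have := (hc a).1
      obtain ⟨r, h3, h4⟩ := CLOP.split (c a) (hc a).2
      refine ⟨(𝟙 _ - r ≫ (fr (Scheme.etaleTopology.over X)).map (c a)) ≫ φ, ?_, fun b hb t ht => ?_⟩
      · rw [← pre_pre, h1, CLOP.pre_sub, pre_id, ← pre_pre]
        erw [hx a]
        rw [map_zero, sub_zero]
      · by_cases hp : t ∈ Set.range (c a).left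
        · exact ⟨_, c a, inferInstance, by
            rw [← Category.assoc, Preadditive.comp_sub, reassoc_of% h3, Category.comp_id,
              sub_self, zero_comp], hp⟩
        · obtain ⟨V, v, _, h5, z, rfl⟩ := h2 b ((Finset.mem_insert.1 hb).resolve_left
            fun e => hp (e ▸ ht)) t ht
          obtain ⟨W, j, _, ⟨w, rfl⟩, h7⟩ := CLOP.shrink v _ (hc a).2.isOpen_compl z hp
          refine ⟨W, j ≫ v, inferInstanceAs (Etale (j.left ≫ v.left)), ?_, w, rfl⟩
          rw [← Category.assoc, Preadditive.comp_sub, reassoc_of% (h4 W _ h7), zero_comp,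
            sub_zero, Category.comp_id, Functor.map_comp, Category.assoc, h5, comp_zero]
  have := Fintype.ofFinite ι
  obtain ⟨φ, h1, h2⟩ := key Finset.univ
  have h0 : φ = 0 := (frEquiv _ _).injective ((sepP ((fr (Scheme.etaleTopology.over X)).obj T).property (frEquiv T _ φ)
    ⟨fun _ y => (fr (Scheme.etaleTopology.over X)).map y ≫ φ = 0, fun h g => by
      rw [Functor.map_comp, Category.assoc, h, comp_zero]⟩
    (mem_Jov_of _ fun t => (hz t).elim fun a ha => h2 a (Finset.mem_univ a) t ha)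
    fun _ y hy => by
      rw [← frEquiv_pre, show (fr (Scheme.etaleTopology.over X)).map y ≫ φ = 0 from hy, map_zero]).trans
        (map_zero _).symm)
  rw [← h1, h0, pre_apply, Ext.mk₀_zero, Ext.zero_comp]

end Pool.Agent.MP_855f4c_ag.E.D

end

section

set_option autoImplicit false
set_option backward.isDefEq.respectTransparency false

open CategoryTheory Limits Abelian Opposite AlgebraicGeometry

namespace Pool.Agent.MP_855f4c_ag.E.D

open E3 E4
open CV (Ln Lm)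

variable {X : Scheme.{0}}

/-- A point of an irreducible etale scheme over a dense point lies in every nonempty open set. -/
lemma dense_mem {W : Scheme.{0}} (g : W ⟶ X) [Etale g] [IrreducibleSpace W] (w : W)
    (hw : Dense ({g w} : Set X)) {U : Set W} (hU : IsOpen U) (hne : U.Nonempty) : w ∈ U := by
  have : LocallyQuasiFinite g := ⟨fun {U} hU {V} hV e => by
    have h := g.etale_appLE hU hV e
    algebraize [(g.appLE U V e).hom]
    exact (inferInstance : Algebra.QuasiFinite Γ(X, U) Γ(W, V))⟩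
  have h1 : genericPoint W ⤳ w := genericPoint_specializes w
  have h2 : g (genericPoint W) = g w :=
    ((h1.map g.continuous).antisymm (specializes_iff_mem_closure.2 (hw _))).eq
  have := (g.isDiscrete_preimage_singleton (g w)).to_subtype
  have h3 : (⟨genericPoint W, h2⟩ : g ⁻¹' {g w}) ⤳ ⟨w, rfl⟩ :=
    (subtype_specializes_iff _ _).2 h1
  obtain ⟨u, hu⟩ := hne
  have h4 : genericPoint W = w := congrArg Subtype.val h3.eq
  exact h4 ▸ (genericPoint_specializes u).mem_open hU hu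

lemma dense_lift {W' W : Over X} (h : W' ⟶ W) [Etale h.left] {k : Type} [Field k] [IsAlgClosed k]
    {x : Spec (.of k) ⟶ X} (y : Over.mk x ⟶ W) (hy : ∀ z, y.left z ∈ Set.range h.left) :
    ∃ y' : Over.mk x ⟶ W', y' ≫ h = y := by
  let S : Sieve (Over.mk x) := ⟨fun V v => ∃ a : V ⟶ W', a ≫ h = v ≫ y,
    fun ⟨a, e⟩ g => ⟨g ≫ a, by rw [Category.assoc, e, Category.assoc]⟩⟩
  have hS : S = ⊤ := shl_sieve (mem_Jov_of S fun t => by
    have hp := isPullback_left (IsPullback.of_hasPullback y h)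
    obtain ⟨w, hw⟩ := hy t
    obtain ⟨z, hz, -⟩ := Scheme.exists_preimage_of_isPullback hp t w hw.symm
    exact ⟨pullback y h, pullback.fst y h, MorphismProperty.of_isPullback (P := @Etale) hp.flip ‹_›,
      ⟨pullback.snd y h, pullback.condition.symm⟩, z, hz⟩)
  have h1 : S.arrows (𝟙 _) := by rw [hS]; trivial
  exact h1.imp fun a e => e.trans (Category.id_comp _)

lemma dense_gz (hL : LNM_s) (n : ℕ) {W' W : Over X} (h : W' ⟶ W) [Etale W'.hom] [Etale W.hom]
    [IrreducibleSpace W.left] [Nonempty W'.left] : GZr (cokernel (Lm n h)) := by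
  intro k _ _ x hx s
  have : Etale (h.left ≫ W.hom) := by rw [Over.w]; infer_instance
  have : Etale h.left := Etale.of_comp _ W.hom
  obtain ⟨e, -, he⟩ := (hL X n).2.2.2.2 k x
  obtain ⟨t, rfl⟩ := wc_surj (SHL.wc k) x (cokernel.π (Lm n h)) s
  obtain ⟨u, hu⟩ := Finsupp.mapDomain_surjective (M := ZMod n)
    (f := fun y : Over.mk x ⟶ W' => y ≫ h) (fun y => dense_lift h y fun z =>
      dense_mem W.hom _ (by
        have := hx z
        rwa [← show y.left ≫ W.hom = x from Over.w y] at this)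
        h.left.isOpenMap.isOpen_range (Set.range_nonempty _)) (e W t)
  obtain ⟨u, rfl⟩ := (e W').surjective u
  obtain rfl := (e W).injective ((he W' W h u).trans hu)
  exact congrArg (fun a : Ln n W' ⟶ cokernel (Lm n h) => a.hom.app _ u) (cokernel.condition _)

theorem dense (hL : LNM_s) : DENSE_s := by
  intro l _ X N n hn h1 h2 W' W h _ _ _ _
  have t' := (hL X n).1 l W' hn ‹_›
  have t := (hL X n).1 l W hn ‹_›
  have z := h2 _ (Tc.coker (Lm n h) t'.1 t) (dense_gz hL n h)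
  refine ⟨fun x => ?_, fun hm => ?_⟩
  · have L1 := cov_les ((fr (Scheme.etaleTopology.over X)).obj (top X)) (ShortComplex.ShortExact.mk'
      (ShortComplex.exact_kernel (cokernel.π (Lm n h))) inferInstance inferInstance)
    have L2 := cov_les ((fr (Scheme.etaleTopology.over X)).obj (top X)) (ShortComplex.ShortExact.mk'
      (ShortComplex.exact_kernel (Abelian.factorThruImage (Lm n h))) inferInstance inferInstance)
    obtain ⟨y, rfl⟩ := (L1.e₂ N x).1 (z N (by omega) _)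
    obtain ⟨w, rfl⟩ := (L2.e₃ N y).1
      (h1 _ (Tc.ker _ t' (Tc.image _ t' t.1).1) (N + 1) (by omega) _)
    exact ⟨w, ((post_post _ _ w).trans
      (congrArg (fun a => post _ a N w) (Abelian.image.fac (Lm n h)))).symm⟩
  · have := (hL X n).2.2.2.1 W' W h hm
    have L := cov_les ((fr (Scheme.etaleTopology.over X)).obj (top X)) (ShortComplex.ShortExact.mk'
      (ShortComplex.exact_cokernel (Lm n h)) inferInstance inferInstance)
    refine ⟨?_, fun q hq x => (L.e₂ q x).1 (z q hq.ge _)⟩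
    cases N with
    | zero => exact L.inj
    | succ q =>
      refine (injective_iff_map_eq_zero _).2 fun x hx => ?_
      obtain ⟨y, rfl⟩ := (L.e₁ q x).1 hx
      rw [z q le_rfl y, map_zero]

end Pool.Agent.MP_855f4c_ag.E.D

end

section

set_option autoImplicit false
set_option backward.isDefEq.respectTransparency false

open CategoryTheory Limits Abelian Opposite AlgebraicGeometry

namespace Pool.Agent.MP_855f4c_ag.E.D

open E3 E4
open CV (Ln Lm)

namespace IND2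

variable {X : Scheme.{0}}

lemma Lm_comp (n : ℕ) {A B C : Over X} (f : A ⟶ B) (g : B ⟶ C) :
    Lm n f ≫ Lm n g = Lm n (f ≫ g) := coequalizer.hom_ext (by simp [Lm, Ln])

lemma Lm_id (n : ℕ) (A : Over X) : Lm n (𝟙 A) = 𝟙 _ := coequalizer.hom_ext (by simp [Lm, Ln])

instance (n : ℕ) {A B : Over X} (f : A ⟶ B) [IsIso f] : IsIso (Lm n f) :=
  ⟨Lm n (inv f), by rw [Lm_comp, IsIso.hom_inv_id, Lm_id], by rw [Lm_comp, IsIso.inv_hom_id, Lm_id]⟩

lemma Hmap_Lm (n q : ℕ) {A B C : Over X} (f : A ⟶ B) (g : B ⟶ C) (T : Over X)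
    (x : H T (Ln n A) q) : Hmap (Lm n g) T q (Hmap (Lm n f) T q x) = Hmap (Lm n (f ≫ g)) T q x := by
  rw [← Lm_comp]
  exact post_post _ _ x

lemma res_res' {A B C : Over X} (f : A ⟶ B) (g : B ⟶ C) (F : Sh (Scheme.etaleTopology.over X)) (q : ℕ) (x : H C F q) :
    res f F q (res g F q x) = res (f ≫ g) F q x := by
  rw [res, res, res, Functor.map_comp]
  exact pre_pre _ _ x

/-- Comparison with a modification of the compactification. -/
theorem half (h : IND_s) (l : ℕ) [Fact l.Prime] {Y S W₀ : Scheme.{0}} (j : W₀ ⟶ Y) [Etale j]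
    (p : Y ⟶ X) [IsProper p] [IsLocallyNoetherian X] (u : W₀ ⟶ X) [Etale u] (hu : j ≫ p = u)
    (f : X ⟶ S) (r : Y ⟶ S) (hr : p ≫ f = r) (n q : ℕ) (hn : Lp l n) (hl : Linv l X) :
    ∃ e : ∀ (W : Over W₀), Aet W → ∀ T : Over S,
        H ((Over.pullback f).obj T) (Ln n ((Over.map u).obj W)) q ≃+
          H ((Over.pullback r).obj T) (Ln n ((Over.map j).obj W)) q,
      (∀ (W' W : Over W₀) (h : W' ⟶ W) a' a T x,
        e W a T (Hmap (Lm _ ((Over.map u).map h)) _ q x) =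
          Hmap (Lm _ ((Over.map j).map h)) _ q (e W' a' T x)) ∧
      ∀ W a (T' T : Over S) (c : T' ⟶ T) x,
        e W a T' (res ((Over.pullback f).map c) _ q x) =
          res ((Over.pullback r).map c) _ q (e W a T x) := by
  subst hu hr
  obtain ⟨e, h1, h2⟩ := h l X Y p n q hn hl
  have ha : ∀ W : Over W₀, Aet W → Aet ((Over.map j).obj W) := fun W a =>
    have := a.1
    ⟨(inferInstance : Etale (W.hom ≫ j)), a.2⟩
  have hb : ∀ W : Over W₀, Aet W → Etale (((Over.map j).obj W).hom ≫ p) := fun W a => by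
    have := a.1
    change Etale ((W.hom ≫ j) ≫ p)
    rw [Category.assoc]
    infer_instance
  obtain ⟨α, hα, α1⟩ : ∃ α : ∀ W : Over W₀,
      (Over.map (j ≫ p)).obj W ⟶ (Over.map p).obj ((Over.map j).obj W), (∀ W, IsIso (α W)) ∧
      ∀ (W' W : Over W₀) (g : W' ⟶ W), (Over.map (j ≫ p)).map g ≫ α W =
        α W' ≫ (Over.map p).map ((Over.map j).map g) :=
    ⟨(Over.mapComp j p).hom.app, fun _ => inferInstance,
      fun _ _ g => (Over.mapComp j p).hom.naturality g⟩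
  obtain ⟨β, hβ, β1⟩ : ∃ β : ∀ T : Over S,
      (Over.pullback (p ≫ f)).obj T ⟶ (Over.pullback p).obj ((Over.pullback f).obj T),
      (∀ T, IsIso (β T)) ∧ ∀ (T' T : Over S) (c : T' ⟶ T), (Over.pullback (p ≫ f)).map c ≫ β T =
        β T' ≫ (Over.pullback p).map ((Over.pullback f).map c) :=
    ⟨(Over.pullbackComp p f).hom.app, fun _ => inferInstance,
      fun _ _ c => (Over.pullbackComp p f).hom.naturality c⟩
  refine ⟨fun W a T => ((AddEquiv.ofBijective (Hmap (Lm n (α W)) _ q)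
    (post_bij _ _ q)).trans (e _ (ha W a) (hb W a) _)).trans
      (AddEquiv.ofBijective (res (β T) _ q) (pre_bij _ _ q)),
    fun W' W g a' a T x => ?_, fun W a T' T c x => ?_⟩
  · simp only [AddEquiv.trans_apply, AddEquiv.ofBijective_apply]
    rw [Hmap_res, ← h1 _ _ ((Over.map j).map g) (ha W' a') (hb W' a') (ha W a) (hb W a),
      Hmap_Lm, Hmap_Lm, α1]
  · simp only [AddEquiv.trans_apply, AddEquiv.ofBijective_apply]
    rw [Hmap_res, h2, res_res', res_res', β1]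

end IND2

theorem ind2 (h : IND_s) : IND2_s := by
  intro l _ K _ X P W₀ f g _ _ _ u v _ _ n q hn hl w
  let γ : W₀ ⟶ pullback f g := pullback.lift u v w
  have e₁ : γ ≫ pullback.fst f g = u := pullback.lift_fst _ _ _
  have e₂ : γ ≫ pullback.snd f g = v := pullback.lift_snd _ _ _
  have : IsImmersion (γ ≫ pullback.fst f g) := by rw [e₁]; infer_instance
  have : IsImmersion γ := IsImmersion.of_comp γ (pullback.fst f g)
  have : IsAffineHom (γ ≫ pullback.fst f g ≫ f) := isAffineHom_of_isAffine _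
  have : QuasiCompact γ := QuasiCompact.of_comp γ (pullback.fst f g ≫ f)
  have : IsLocallyNoetherian X := LocallyOfFiniteType.isLocallyNoetherian f
  have : IsLocallyNoetherian P := LocallyOfFiniteType.isLocallyNoetherian g
  have hK : Linv l (Spec (.of K)) := Linv.spec (Ne.isUnit hl)
  obtain ⟨a, a1, a2⟩ := IND2.half h l γ.toImage (γ.imageι ≫ pullback.fst f g) u
    (by rw [γ.toImage_imageι_assoc, e₁]) f _ rfl n q hn (hK.of_hom f)
  obtain ⟨b, b1, b2⟩ := IND2.half h l γ.toImage (γ.imageι ≫ pullback.snd f g) v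
    (by rw [γ.toImage_imageι_assoc, e₂]) g ((γ.imageι ≫ pullback.fst f g) ≫ f)
    (by rw [Category.assoc, Category.assoc, pullback.condition]) n q hn (hK.of_hom g)
  refine ⟨fun W c T => (a W c T).trans (b W c T).symm, fun W' W k c' c T x => ?_,
    fun W c T' T k x => ?_⟩
  · rw [AddEquiv.trans_apply, AddEquiv.trans_apply, AddEquiv.symm_apply_eq, a1 _ _ _ c',
      b1 _ _ _ c', AddEquiv.apply_symm_apply]
  · rw [AddEquiv.trans_apply, AddEquiv.trans_apply, AddEquiv.symm_apply_eq, a2, b2,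
      AddEquiv.apply_symm_apply]

end Pool.Agent.MP_855f4c_ag.E.D

end

section

/-! h86e section D, rows REF and NIND. -/

set_option autoImplicit false
set_option backward.isDefEq.respectTransparency false

open CategoryTheory Limits Abelian Opposite AlgebraicGeometry TopologicalSpace

namespace Pool.Agent.MP_855f4c_ag.E.D

open E3 E4
open CV (Ln Lm)

namespace REF

variable {S : Scheme.{0}} {L : PL S} {W : Over L.P} {w : W.left}

/-- The map from `W'` to `V`. -/
noncomputable def rho (N : Nb W w) : N.W'.left ⟶ N.V.left :=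
  N.r.left ≫ pullback.fst N.V.hom L.π

lemma rho_w (N : Nb W w) : rho N ≫ N.V.hom = N.W'.hom ≫ L.π := by
  rw [rho, Category.assoc, pullback.condition, ← Over.w N.r, Category.assoc]
  rfl

lemma le_of {N' N : Nb W w} (a : N'.W' ⟶ N.W') (b : N'.V ⟶ N.V) (h1 : a ≫ N.h = N'.h)
    (h2 : a.left ≫ rho N = rho N' ≫ b.left) : N'.Le N := by
  refine ⟨a, b, h1, Over.OverMorphism.ext (pullback.hom_ext ?_ ?_)⟩
  · simpa [rho] using h2
  · exact (Over.w (a ≫ N.r)).trans (Over.w (N'.r ≫ (Over.pullback L.π).map b)).symm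

lemma etale {X : Scheme.{0}} {A B : Over X} (g : A ⟶ B) (hA : Etale A.hom) (hB : Etale B.hom) :
    Etale g.left := by
  have : Etale (g.left ≫ B.hom) := by rwa [Over.w g]
  exact Etale.of_comp _ B.hom

/-- A neighbourhood cut out by two affine opens. -/
lemma sub {W₀ : Over L.P} (e₁ : Etale W₀.hom) (h₀ : W₀ ⟶ W) (w₀ : W₀.left) (hw : h₀.left w₀ = w)
    {V₀ : Over S} (e₂ : Etale V₀.hom) (ρ : W₀.left ⟶ V₀.left) (hρ : ρ ≫ V₀.hom = W₀.hom ≫ L.π)
    (U : V₀.left.Opens) (U' : W₀.left.Opens) (hU : IsAffineOpen U) (hU' : IsAffineOpen U')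
    (hm : w₀ ∈ U') (hle : U' ≤ ρ ⁻¹ᵁ U) :
    ∃ (N : Nb W w) (a : N.W' ⟶ W₀) (b : N.V ⟶ V₀), a ≫ h₀ = N.h ∧
      a.left ≫ ρ = rho N ≫ b.left ∧
      ((∀ y ∈ U, ∃ x ∈ U', ρ x = y) → AlgebraicGeometry.Surjective (rho N)) := by
  let a : Over.mk (U'.ι ≫ W₀.hom) ⟶ W₀ := Over.homMk U'.ι rfl
  let N : Nb W w :=
    { V := Over.mk (U.ι ≫ V₀.hom), W' := Over.mk (U'.ι ≫ W₀.hom), h := a ≫ h₀
      r := Over.homMk (pullback.lift (ρ.resLE U U' hle) (U'.ι ≫ W₀.hom) (by
        change _ ≫ U.ι ≫ V₀.hom = _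
        rw [Scheme.Hom.resLE_comp_ι_assoc, hρ, Category.assoc])) (pullback.lift_snd _ _ _)
      aV := ⟨inferInstanceAs (Etale (U.ι ≫ V₀.hom)), hU⟩
      aW := ⟨inferInstanceAs (Etale (U'.ι ≫ W₀.hom)), hU'⟩
      mem := ⟨⟨w₀, hm⟩, (Scheme.Hom.comp_apply U'.ι h₀.left _).trans hw⟩ }
  have e : rho N = ρ.resLE U U' hle := pullback.lift_fst _ _ _
  refine ⟨N, a, Over.homMk U.ι rfl, rfl, ?_, fun h => ⟨fun y => ?_⟩⟩
  · rw [e]
    exact (ρ.resLE_comp_ι hle).symm
  · obtain ⟨x, hx, hy⟩ := h y.1 y.2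
    refine ⟨⟨x, hx⟩, U.ι.isOpenEmbedding.injective ?_⟩
    rw [e]
    exact (Scheme.Hom.comp_apply _ U.ι _).symm.trans
      (congr($(ρ.resLE_comp_ι hle) ⟨x, hx⟩).trans ((Scheme.Hom.comp_apply U'.ι ρ _).trans hy))

lemma core {W₀ : Over L.P} (e₁ : Etale W₀.hom) (h₀ : W₀ ⟶ W) (w₀ : W₀.left) (hw : h₀.left w₀ = w)
    {V₀ : Over S} (e₂ : Etale V₀.hom) (ρ : W₀.left ⟶ V₀.left) (hρ : ρ ≫ V₀.hom = W₀.hom ≫ L.π) :
    ∃ (N : Nb W w) (a : N.W' ⟶ W₀) (b : N.V ⟶ V₀), a ≫ h₀ = N.h ∧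
      a.left ≫ ρ = rho N ≫ b.left := by
  obtain ⟨U, hU, hm, -⟩ := exists_isAffineOpen_mem_and_subset (Opens.mem_top (ρ w₀))
  obtain ⟨U', hU', hm', hle⟩ := exists_isAffineOpen_mem_and_subset (show w₀ ∈ ρ ⁻¹ᵁ U from hm)
  obtain ⟨N, a, b, h1, h2, -⟩ := sub e₁ h₀ w₀ hw e₂ ρ hρ U U' hU hU' hm' hle
  exact ⟨N, a, b, h1, h2⟩

lemma two (hW : Etale W.hom) (N₁ N₂ : Nb W w) : ∃ N : Nb W w, N.Le N₁ ∧ N.Le N₂ := by
  obtain ⟨x₁, h₁⟩ := N₁.mem
  obtain ⟨x₂, h₂⟩ := N₂.mem
  obtain ⟨z, z₁, -⟩ := Scheme.Pullback.exists_preimage_pullback x₁ x₂ (h₁.trans h₂.symm)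
  have := etale N₂.h N₂.aW.1 hW
  have := N₁.aW.1
  have := N₁.aV.1
  have := N₂.aV.1
  have c : pullback.snd N₁.h.left N₂.h.left ≫ N₂.W'.hom = pullback.fst _ _ ≫ N₁.W'.hom := by
    rw [← Over.w N₂.h, ← Over.w N₁.h, pullback.condition_assoc]
  let p₁ : Over.mk (pullback.fst N₁.h.left N₂.h.left ≫ N₁.W'.hom) ⟶ N₁.W' :=
    Over.homMk (pullback.fst _ _) rfl
  let p₂ : Over.mk (pullback.fst N₁.h.left N₂.h.left ≫ N₁.W'.hom) ⟶ N₂.W' :=
    Over.homMk (pullback.snd _ _) c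
  let q₁ : Over.mk (pullback.fst N₁.V.hom N₂.V.hom ≫ N₁.V.hom) ⟶ N₁.V :=
    Over.homMk (pullback.fst _ _) rfl
  let q₂ : Over.mk (pullback.fst N₁.V.hom N₂.V.hom ≫ N₁.V.hom) ⟶ N₂.V :=
    Over.homMk (pullback.snd _ _) pullback.condition.symm
  let ρ : pullback N₁.h.left N₂.h.left ⟶ pullback N₁.V.hom N₂.V.hom :=
    pullback.lift (pullback.fst _ _ ≫ rho N₁) (pullback.snd _ _ ≫ rho N₂) (by
      rw [Category.assoc, Category.assoc, rho_w, rho_w, reassoc_of% c])
  obtain ⟨N, a, b, e₁, e₂⟩ := core (w := w)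
    (inferInstanceAs (Etale (pullback.fst N₁.h.left N₂.h.left ≫ N₁.W'.hom))) (p₁ ≫ N₁.h) z
    ((Scheme.Hom.comp_apply (pullback.fst N₁.h.left N₂.h.left) N₁.h.left z).trans (z₁ ▸ h₁))
    (V₀ := Over.mk (pullback.fst N₁.V.hom N₂.V.hom ≫ N₁.V.hom))
    (inferInstanceAs (Etale (pullback.fst N₁.V.hom N₂.V.hom ≫ N₁.V.hom))) ρ (by
      change ρ ≫ pullback.fst _ _ ≫ _ = (pullback.fst _ _ ≫ _) ≫ _
      rw [pullback.lift_fst_assoc, Category.assoc, rho_w, Category.assoc])
  have hp : p₂ ≫ N₂.h = p₁ ≫ N₁.h := Over.OverMorphism.ext pullback.condition.symm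
  refine ⟨N, le_of (a ≫ p₁) (b ≫ q₁) (by rw [Category.assoc, e₁]) ?_,
    le_of (a ≫ p₂) (b ≫ q₂) (by rw [Category.assoc, hp, e₁]) ?_⟩
  · rw [Over.comp_left, Over.comp_left, ← Category.assoc (rho N), ← e₂, Category.assoc,
      Category.assoc]
    exact congrArg _ (pullback.lift_fst _ _ _).symm
  · rw [Over.comp_left, Over.comp_left, ← Category.assoc (rho N), ← e₂, Category.assoc,
      Category.assoc]
    exact congrArg _ (pullback.lift_snd _ _ _).symm

lemma shrink (N : Nb W w) : ∃ N' : Nb W w, N'.Le N ∧ AlgebraicGeometry.Surjective (rho N') := by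
  obtain ⟨x, hx⟩ := N.mem
  have := N.aV.1
  have := N.aV.2
  have := N.aW.2
  have := TWF.pl_smooth L
  have := etale N.r N.aW.1 (inferInstanceAs (Etale (pullback.snd N.V.hom L.π)))
  have : UniversallyOpen (rho N) :=
    inferInstanceAs (UniversallyOpen (N.r.left ≫ pullback.fst N.V.hom L.π))
  obtain ⟨U, hU, hm, hle⟩ := exists_isAffineOpen_mem_and_subset
    (U := ⟨_, (rho N).isOpenMap.isOpen_range⟩) ⟨x, rfl⟩
  obtain ⟨N', a, b, h1, h2, h3⟩ := sub N.aW.1 N.h x hx N.aV.1 (rho N) (rho_w N) U _ hU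
    (hU.preimage (rho N)) hm le_rfl
  refine ⟨N', le_of a b h1 h2, h3 fun y hy => ?_⟩
  obtain ⟨z, rfl⟩ := hle hy
  exact ⟨z, hy, rfl⟩

end REF

open REF IND2 in
theorem ref : REF_s := by
  intro S L W w _ hW
  refine ⟨?_, two hW.1, ?_, ?_, shrink⟩
  · obtain ⟨N, -⟩ := core (w := w) hW.1 (𝟙 W) w rfl (V₀ := top S)
      (inferInstanceAs (Etale (𝟙 S))) (W.hom ≫ L.π) (Category.comp_id _)
    exact ⟨N⟩
  · rintro N₁ N₂ N₃ ⟨a, b, h1, h2⟩ ⟨c, d, h3, h4⟩
    exact ⟨a ≫ c, b ≫ d, by rw [Category.assoc, h3, h1],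
      by rw [Category.assoc, h4, reassoc_of% h2, Functor.map_comp]⟩
  · rintro N' N l T t ⟨a, b, h1, h2⟩ ⟨o1, o2⟩
    refine ⟨fun x => ?_, fun x hx => ?_⟩
    · rw [← h1, ← Hmap_Lm, o1]
    · rw [← h1, ← Hmap_Lm]
      refine o2 _ ?_
      rw [Hmap_Lm, h2, ← Hmap_Lm, hx, map_zero]

theorem nind : NIND_s := by
  intro Z _ _ _ I _ le ok h1 h2 h3
  suffices h : ∀ C : Closeds Z, ∃ a, ∀ z ∈ C, ok a z from (h ⊤).imp fun a ha z => ha z trivial
  intro C
  induction C using WellFoundedLT.induction with | ind C ih => ?_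
  rcases (C : Set Z).eq_empty_or_nonempty with hC | hC
  · exact ⟨Classical.arbitrary I, fun z hz => (hC.le hz).elim⟩
  by_cases hi : IsPreirreducible (C : Set Z)
  · obtain ⟨p, hp⟩ := QuasiSober.sober ⟨hC, hi⟩ C.isClosed
    obtain ⟨a, U, hU, hm, ha⟩ := h3 p
    obtain ⟨b, hb⟩ := ih ⟨C \ U, C.isClosed.sdiff hU⟩
      (lt_of_le_of_ne Set.sdiff_subset fun e => (e.ge hp.mem).2 hm)
    obtain ⟨c, c1, c2⟩ := h1 a b
    refine ⟨c, fun z hz => ?_⟩
    by_cases h : z ∈ U
    · exact h2 _ _ _ c1 (ha z h (hp.specializes hz))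
    · exact h2 _ _ _ c2 (hb z ⟨hz, h⟩)
  · rw [isPreirreducible_iff_isClosed_union_isClosed] at hi
    push Not at hi
    obtain ⟨A, B, hA, hB, hu, nA, nB⟩ := hi
    obtain ⟨a, ha⟩ := ih ⟨C ∩ A, C.isClosed.inter hA⟩
      (lt_of_le_of_ne Set.inter_subset_left fun e => nA fun z hz => (e.ge hz).2)
    obtain ⟨b, hb⟩ := ih ⟨C ∩ B, C.isClosed.inter hB⟩
      (lt_of_le_of_ne Set.inter_subset_left fun e => nB fun z hz => (e.ge hz).2)
    obtain ⟨c, c1, c2⟩ := h1 a b
    exact ⟨c, fun z hz => (hu hz).elim (fun h => h2 _ _ _ c1 (ha z ⟨hz, h⟩))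
      fun h => h2 _ _ _ c2 (hb z ⟨hz, h⟩)⟩

end Pool.Agent.MP_855f4c_ag.E.D

end

section

set_option autoImplicit false
set_option backward.isDefEq.respectTransparency false

open CategoryTheory Limits Abelian Opposite AlgebraicGeometry Polynomial

namespace Pool.Agent.MP_855f4c_ag.E.D

open E3 E4
open CV (Ln Lm)

namespace EPI2

variable {X : Scheme.{0}}

/-- A transcendental point of the line over a field lies in every nonempty open set. -/
lemma gen {k Ω : Type} [Field k] [Field Ω] [Algebra k Ω] (L : PL (Spec (.of k))) {x : Ω}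
    (hx : Transcendental k x) (z : Spec (.of Ω)) {U : Set L.P} (hU : IsOpen U) (hne : U.Nonempty) :
    L.pnt (spc (algebraMap k Ω)) (pt1 x) z ∈ U := by
  have h0 : ∀ u p : Spec (.of k[X]), p.asIdeal = ⊥ → p ⤳ u := fun u p hp =>
    (PrimeSpectrum.le_iff_specializes p u).1 (hp.le.trans bot_le)
  obtain ⟨u, hu⟩ : ∃ u, L.c₁ u ∈ U := by
    obtain ⟨u, hu⟩ := hne
    rcases L.cover u with ⟨u, rfl⟩ | ⟨u, rfl⟩
    · exact ⟨u, hu⟩
    · obtain ⟨v, hv⟩ := (L.c₂_mem_c₁ ⟨⊥, Ideal.isPrime_bot⟩).2 fun h =>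
        X_ne_zero (Ideal.mem_bot.1 h)
      exact ⟨v, hv ▸ ((h0 u _ rfl).map L.c₂.continuous).mem_open hU hu⟩
  rw [spc, L.pnt_pt1, Scheme.Hom.comp_apply]
  refine ((h0 u _ (eq_bot_iff.2 fun p hp => ?_)).map L.c₁.continuous).mem_open hU hu
  have h1 : aeval x p ∈ z.asIdeal := hp
  rw [Ideal.eq_bot_of_prime z.asIdeal (h := z.isPrime), Ideal.mem_bot] at h1
  exact transcendental_iff.1 hx p h1

lemma lift {W' W : Over X} (h : W' ⟶ W) [Etale h.left] {k : Type} [Field k] [IsAlgClosed k]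
    {x : Spec (.of k) ⟶ X} (y : Over.mk x ⟶ W) (hy : ∀ z, y.left z ∈ Set.range h.left) :
    ∃ y' : Over.mk x ⟶ W', y' ≫ h = y := by
  obtain ⟨a, e⟩ := Sieve.id_mem_iff_eq_top.2 (shl_sieve (S := ⟨fun V v => ∃ a : V ⟶ W',
    a ≫ h = v ≫ y, fun ⟨a, e⟩ g => ⟨g ≫ a, by rw [Category.assoc, e, Category.assoc]⟩⟩)
    (mem_Jov_of _ fun t => by
      have hp := isPullback_left (IsPullback.of_hasPullback y h)
      obtain ⟨w, hw⟩ := hy t
      obtain ⟨z, hz, -⟩ := Scheme.exists_preimage_of_isPullback hp t w hw.symm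
      exact ⟨pullback y h, pullback.fst y h,
        MorphismProperty.of_isPullback (P := @Etale) hp.flip ‹_›,
        ⟨pullback.snd y h, pullback.condition.symm⟩, z, hz⟩))
  exact ⟨a, e.trans (Category.id_comp _)⟩

lemma cok (hL : LNM_s) (n : ℕ) {W' W : Over X} (h : W' ⟶ W) [Etale h.left] {k : Type} [Field k]
    [IsAlgClosed k] (x : Spec (.of k) ⟶ X)
    (hx : ∀ (y : Over.mk x ⟶ W) z, y.left z ∈ Set.range h.left)
    (s : sec (cokernel (Lm n h)) (Over.mk x)) : s = 0 := by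
  obtain ⟨e, -, he⟩ := (hL X n).2.2.2.2 k x
  obtain ⟨t, rfl⟩ := wc_surj (SHL.wc k) x (cokernel.π (Lm n h)) s
  obtain ⟨u, hu⟩ := Finsupp.mapDomain_surjective (M := ZMod n)
    (f := fun y : Over.mk x ⟶ W' => y ≫ h)
    (fun y => lift h y (hx y)) (e W t)
  obtain ⟨u, rfl⟩ := (e W').surjective u
  obtain rfl := (e W).injective ((he W' W h u).trans hu)
  exact congrArg (fun a : Ln n W' ⟶ cokernel (Lm n h) => a.hom.app _ u) (cokernel.condition _)

lemma surj {A B : Sh (Scheme.etaleTopology.over X)} (φ : A ⟶ B) (T : Over X) (N : ℕ)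
    (h1 : ∀ x : H T (cokernel φ) N, x = 0)
    (h2 : ∀ x : H T (kernel (Abelian.factorThruImage φ)) (N + 1), x = 0) :
    Function.Surjective (Hmap φ T N) := fun x => by
  have L1 := cov_les ((fr (Scheme.etaleTopology.over X)).obj T) (ShortComplex.ShortExact.mk'
    (ShortComplex.exact_kernel (cokernel.π φ)) inferInstance inferInstance)
  have L2 := cov_les ((fr (Scheme.etaleTopology.over X)).obj T) (ShortComplex.ShortExact.mk'
    (ShortComplex.exact_kernel (Abelian.factorThruImage φ)) inferInstance inferInstance)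
  obtain ⟨y, rfl⟩ := (L1.e₂ N x).1 (h1 _)
  obtain ⟨w, rfl⟩ := (L2.e₃ N y).1 (h2 _)
  exact ⟨w, ((post_post _ _ w).trans
    (congrArg (fun a => post _ a N w) (Abelian.image.fac φ))).symm⟩

lemma mem {S : Scheme.{0}} (L : PL S) (V : Over S) [Etale V.hom] {U : Set (L.bc V).P}
    (hU : IsOpen U) (hs : ∀ v, ∃ u ∈ U, (L.bc V).π u = v) {k Ω : Type} [Field k] [IsAlgClosed k]
    [Field Ω] [Algebra k Ω] (t : Spec (.of k) ⟶ S) {x : Ω} (hx : Transcendental k x)
    (y : Spec (.of Ω) ⟶ (L.bc V).P)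
    (hy : y ≫ L.bcp V = L.pnt (spc (algebraMap k Ω) ≫ t) (pt1 x)) (z) : y z ∈ U := by
  obtain ⟨v, -, hv⟩ := E.shl_lift (algebraMap k Ω) V.hom t (y ≫ (L.bc V).π) (by
    rw [Category.assoc, (L.bc_isPullback V).w, ← Category.assoc, hy, PL.pnt_π])
  have e : y = ((L.bc V).bc (Over.mk v)).pnt (spc (algebraMap k Ω)) (pt1 x) ≫
      (L.bc V).bcp (Over.mk v) := by
    rw [PL.bc_pnt]
    refine (L.bc V).pnt_ext ?_ ?_
    · rw [PL.pnt_π]
      exact hv.symm
    · rw [PL.pnt_q, ← PL.bcp_q, ← Category.assoc, hy, PL.pnt_q]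
  rw [e, Scheme.Hom.comp_apply]
  obtain ⟨u, hu, h1⟩ := hs (v (IsLocalRing.closedPoint k))
  obtain ⟨w, rfl⟩ := (pb_mem_range ((L.bc V).bc_isPullback (Over.mk v)) u).2 ⟨_, h1.symm⟩
  exact gen ((L.bc V).bc (Over.mk v)) hx z
    (hU.preimage ((L.bc V).bcp (Over.mk v)).continuous) ⟨w, hu⟩

end EPI2

open EPI2

theorem epi2 (h1 : PBC_s) (h2 : CD3_s) (h3 : GZ_s) (hL : LNM_s) : EPI2_s := by
  intro l _ S L V W r hl _ _ hs
  have hn : Lp l l := ⟨1, (pow_one l).symm⟩
  have hV : Etale ((Over.pullback L.π).obj V).hom :=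
    inferInstanceAs (Etale (pullback.snd V.hom L.π))
  have : Etale (r.left ≫ ((Over.pullback L.π).obj V).hom) := by rw [Over.w]; infer_instance
  have : Etale r.left := Etale.of_comp _ ((Over.pullback L.π).obj V).hom
  have t' := (hL _ l).1 l W hn ‹_›
  have t := (hL _ l).1 l _ hn hV
  refine epi_of_pts _ (h1 l S L _ 2 t').1 (h1 l S L _ 2 t).1 hl fun k _ _ x s => ?_
  obtain ⟨a, rfl⟩ := shl_surj x (toSheafify (Scheme.etaleTopology.over S) ((Over.pullback L.π).op ⋙ (HPF 2).obj _)) s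
  obtain ⟨b, rfl⟩ := surj (Lm l r) (fbr L.π x) 2
    (h3 l S L _ (Tc.coker _ t'.1 t) k x (hl k x) (fun Ω _ _ _ ξ hξ => cok hL l r _ fun y z =>
      mem L V r.left.isOpenMap.isOpen_range
        (fun v => (hs.1 v).elim fun w hw => ⟨_, ⟨w, rfl⟩, hw⟩) x hξ y.left (Over.w y) z) 1)
    (h2 l S L _ (Tc.ker _ t' (Tc.image _ t' t.1).1) k x (hl k x) 0) a
  exact ⟨_, congr(($(toSheafify_naturality (Scheme.etaleTopology.over S) (Functor.whiskerLeft (Over.pullback L.π).op
    ((HPF 2).map (Lm l r))))).app (op (Over.mk x)) b).symm⟩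

end Pool.Agent.MP_855f4c_ag.E.D

end

section

set_option autoImplicit false
set_option backward.isDefEq.respectTransparency false

open CategoryTheory Limits Abelian Opposite AlgebraicGeometry

namespace Pool.Agent.MP_855f4c_ag.E.D

open E3 E4

variable {S : Scheme.{0}}

/-- The class `x` dies on an etale neighbourhood of `w`. -/
def Dies {X Y : Scheme.{0}} (J : GrothendieckTopology (Over Y)) (Φ : Over X ⥤ Over Y) (F : Sh J)
    (q : ℕ) (W : Over X) (w : W.left) : Prop :=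
  ∀ x : H (Φ.obj W) F q, ∃ (W' : Over X) (h : W' ⟶ W), Aet W' ∧ w ∈ Set.range h.left ∧
    res (Φ.map h) F q x = 0

lemma int_kill {X X' : Scheme.{0}} (a : X' ⟶ X) [IsIntegralHom a] (G : Sh (Scheme.etaleTopology.over X')) (W : Over X)
    (hW : Aet W) (q : ℕ) (w : W.left) : Dies (Scheme.etaleTopology.over X') (Over.pullback a) G (q + 1) W w := by
  have h1 : Dies (Scheme.etaleTopology.over X) (𝟭 _) ((pf a).obj G) (q + 1) W w := fun x => coef_loc W hW _ q x w
  have h2 : Dies (Scheme.etaleTopology.over X) (𝟭 _) ((pf a).obj G) (q + 1) W w := h1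
  exact fun z => (h2 (intH a W G (q + 1) z)).imp fun W' => Exists.imp fun h H =>
    ⟨H.1, H.2.1, (map_eq_zero_iff _ (intH_bij a W' G _).1).1 ((intH_res a h G _ z).trans H.2.2)⟩

lemma sl_kill {X X' : Scheme.{0}} (a : X' ⟶ X) [IsIntegralHom a] (F : Sh (Scheme.etaleTopology.over X)) (W : Over X)
    (hW : Aet W) (q : ℕ) (w : W.left) :
    Dies (Scheme.etaleTopology.over X) (Over.pullback a ⋙ Over.map a) F (q + 1) W w := by
  have h2 : Dies (Scheme.etaleTopology.over X') (Over.pullback a) ((pb a).obj F) (q + 1) W w :=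
    int_kill a _ W hW q w
  exact fun z => (h2 (slH a _ F (q + 1) z)).imp fun _ => Exists.imp fun _ H =>
    ⟨H.1, H.2.1, (map_eq_zero_iff _ (slH_bij a _ F _).1).1 ((slH_res a _ F _ z).trans H.2.2)⟩

lemma res_kill {C : Type 1} [Category.{0} C] {J : GrothendieckTopology C} {A B D E : C} (f : A ⟶ B)
    (g : B ⟶ D) (h : D ⟶ E) {k : A ⟶ E} (e : f ≫ g ≫ h = k) {F : Sh J} {q : ℕ} {y : H E F q}
    (hy : res g F q (res h F q y) = 0) : res k F q y = 0 := by
  have := congrArg (res f F q) hy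
  rwa [pre_pre, pre_pre, ← Functor.map_comp, ← Functor.map_comp, Category.assoc, e,
    map_zero] at this

theorem lock1 [IsAffine S] (L : PL S) (W : Over L.P) (w : W.left) (hW : Aet W) {T : Scheme.{0}}
    (ρ : T ⟶ S) [IsIntegralHom ρ] (F : Sh (Scheme.etaleTopology.over L.P)) (q : ℕ) (y : H (fb W ρ) F (q + 1)) :
    ∃ N : Nb W w, res (fbm N.h ρ) F (q + 1) y = 0 := by
  let a := pullback.snd ρ L.π
  let η : (Over.map a).obj ((Over.pullback a).obj W) ⟶ fb W ρ := Over.homMk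
    (pullback.lift (pullback.snd W.hom a ≫ pullback.fst ρ L.π) (pullback.fst W.hom a) (by
      rw [Category.assoc, pullback.condition, pullback.condition_assoc]))
    ((pullback.lift_snd_assoc _ _ _ _).trans pullback.condition)
  obtain ⟨W', h, aW, hw, hx⟩ := sl_kill a F W hW q w (res η F (q + 1) y)
  let ι : fb W' ρ ⟶ (Over.map a).obj ((Over.pullback a).obj W') := Over.homMk
    (pullback.lift (pullback.snd ρ (W'.hom ≫ L.π))
      (pullback.lift (pullback.fst _ _) (pullback.snd _ _ ≫ W'.hom)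
        (pullback.condition.trans (Category.assoc _ _ _).symm)) (pullback.lift_snd _ _ _).symm)
    ((pullback.lift_snd_assoc _ _ _ _).trans (pullback.lift_snd _ _ _))
  have e : ι ≫ (Over.map a).map ((Over.pullback a).map h) ≫ η = fbm h ρ := by
    ext1
    apply pullback.hom_ext <;> simp [ι, η, fbm, a]
  replace hx : res (fbm h ρ) F (q + 1) y = 0 :=
    res_kill ι ((Over.pullback a ⋙ Over.map a).map h) η e hx
  clear e ι
  obtain ⟨N, rfl, hN⟩ : ∃ (N : Nb W w) (e : N.W' = W'), HEq N.h h :=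
    ⟨⟨top S, W', h, toPb L.π (T := top S) (W'.hom ≫ L.π) (Category.comp_id _),
      ⟨inferInstanceAs (Etale (𝟙 S)), ‹IsAffine S›⟩, aW, hw⟩, rfl, HEq.rfl⟩
  exact ⟨N, eq_of_heq hN ▸ hx⟩

end Pool.Agent.MP_855f4c_ag.E.D

end
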