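import Pool.Agent.MP_855f4c_ag.EC.E4a
import Pool.Agent.MP_855f4c_ag.EC.E3a
import Pool.Agent.MP_855f4c_ag.EC.Sa

section

set_option autoImplicit false
set_option backward.isDefEq.respectTransparency false

open CategoryTheory Limits Opposite AlgebraicGeometry IsLocalRing TensorProduct

namespace Pool.Agent.MP_855f4c_ag.E4

open E E3

section tools
variable {X : Scheme.{0}} {R : Type} [CommRing R] (u : Spec (.of R) ⟶ X)
  {A : Type} [CommRing A] [Algebra R A]

theorem aic_field (k : Type) [Field k] [IsAlgClosed k] : Aic k := fun p _ hd =>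
  IsAlgClosed.exists_root p fun h => hd (Polynomial.natDegree_eq_of_degree_eq_some h)

instance shlField (k : Type) [Field k] [IsAlgClosed k] : SHL k := (aic_field k).shl

theorem field_rig {l : ℕ} {P : PSh X} (hP : Rig l P) {k k' : Type} [Field k] [IsAlgClosed k]
    [Algebra R k] [Field k'] [IsAlgClosed k'] [Algebra R k'] (ψ : k →ₐ[R] k')
    (hl : IsUnit (l : k)) : Function.Bijective (rs u P ψ) :=
  rig u hP ψ (((RingHom.injective_iff_ker_eq_bot _).1 ψ.injective).trans
    maximalIdeal_eq_bot.symm) hl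

theorem exists_res (R C : Type) [CommRing R] [CommRing C] [IsLocalRing C] [Algebra R C] :
    ∃ (k : Type) (_ : Field k) (_ : IsAlgClosed k) (_ : Algebra R k) (r : C →ₐ[R] k),
      RingHom.ker r = maximalIdeal C := by
  refine ⟨AlgebraicClosure (ResidueField C), inferInstance, inferInstance, inferInstance,
    IsScalarTower.toAlgHom R C _, ?_⟩
  ext x
  rw [RingHom.mem_ker, IsScalarTower.toAlgHom_apply,
    IsScalarTower.algebraMap_apply C (ResidueField C), map_eq_zero]
  exact residue_eq_zero_iff x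

theorem isLocalHom_of_ker {C k : Type} [CommRing C] [IsLocalRing C] [Algebra R C] [Field k]
    [Algebra R k] (r : C →ₐ[R] k) (h : RingHom.ker r = maximalIdeal C) : IsLocalHom r :=
  ⟨fun a ha => by
    by_contra h'
    have : a ∈ RingHom.ker r := h ▸ (mem_maximalIdeal _).mpr h'
    exact ha.ne_zero this⟩

/-- Composition of etale algebras. -/
def EtA.trans (E : EtA R A) (E' : EtA R E.E) : EtA R A :=
  letI : Algebra A E'.E := ((algebraMap E.E E'.E).comp (algebraMap A E.E)).toAlgebra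
  haveI : IsScalarTower A E.E E'.E := IsScalarTower.of_algebraMap_eq fun _ => rfl
  haveI : IsScalarTower R A E'.E := IsScalarTower.of_algebraMap_eq fun r =>
    (IsScalarTower.algebraMap_apply R E.E E'.E r).trans
      (congrArg _ (IsScalarTower.algebraMap_apply R A E.E r))
  haveI : Algebra.Etale A E'.E := Algebra.Etale.comp A E.E E'.E
  ⟨E'.E⟩

theorem EtA.trans_ι (E : EtA R A) (E' : EtA R E.E) : (E.trans E').ι = E'.ι.comp E.ι := rfl

/-- A basic open set. -/
noncomputable def EtA.away (R : Type) {A : Type} [CommRing R] [CommRing A] [Algebra R A] (f : A) :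
    EtA R A :=
  haveI : Algebra.Etale A (Localization.Away f) := .of_isLocalizationAway f
  ⟨Localization.Away f⟩

/-- The fibre product. -/
noncomputable def EtA.prod (E E' : EtA R A) : EtA R A :=
  haveI : Algebra.Etale A (E.E ⊗[A] E'.E) := Algebra.Etale.comp A E.E _
  ⟨E.E ⊗[A] E'.E⟩

/-- First inclusion. -/
noncomputable def EtA.inl (E E' : EtA R A) : E.E →ₐ[R] (E.prod E').E :=
  Algebra.TensorProduct.includeLeft (R := A) (S := R)

/-- Second inclusion. -/
noncomputable def EtA.inr (E E' : EtA R A) : E'.E →ₐ[R] (E.prod E').E :=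
  (Algebra.TensorProduct.includeRight (R := A) (A := E.E) (B := E'.E)).restrictScalars R

theorem EtA.inl_ι (E E' : EtA R A) : (E.inl E').comp E.ι = (E.prod E').ι := rfl

theorem EtA.inr_ι (E E' : EtA R A) : (E.inr E').comp E'.ι = (E.prod E').ι :=
  AlgHom.ext fun x => (Algebra.TensorProduct.includeRight (R := A) (A := E.E)).commutes x

theorem EtA.etale (E : EtA R A) [Algebra.Etale R A] : Algebra.Etale R E.E :=
  Algebra.Etale.comp R A E.E

theorem EtA.extend (E : EtA R A) {k : Type} [Field k] [IsAlgClosed k] [Algebra R k]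
    (τ : A →ₐ[R] k) (h : E.Hits (RingHom.ker τ)) : ∃ σ : E.E →ₐ[R] k, σ.comp E.ι = τ := by
  obtain ⟨q, _, hq⟩ := h
  let _ : Algebra A k := (τ : A →+* k).toAlgebra
  have : IsScalarTower R A k := IsScalarTower.of_algebraMap_eq fun r => (τ.commutes r).symm
  obtain ⟨σ, -⟩ := E3.exists_point (R := A) k q hq
  exact ⟨σ.restrictScalars R, AlgHom.ext fun x => σ.commutes x⟩

theorem EtA.exists_lift (E E' : EtA R A) {Y : Over X} (a : Y ⟶ ob u E.E) (b : Y ⟶ ob u E'.E)
    (h : a ≫ hm u E.ι = b ≫ hm u E'.ι) :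
    ∃ c : Y ⟶ ob u (E.prod E').E, c ≫ hm u (E.inl E') = a ∧ c ≫ hm u (E.inr E') = b := by
  have H := isPullback_SpecMap_of_isPushout _ _ _ _
    (CommRingCat.isPushout_tensorProduct A E.E E'.E)
  have h' : a.left ≫ (hm u E.ι).left = b.left ≫ (hm u E'.ι).left := congrArg (·.left) h
  have h1 : H.lift a.left b.left h' ≫ (hm u (E.inl E')).left = a.left := H.lift_fst _ _ _
  exact ⟨Over.homMk (H.lift a.left b.left h') (by
      rw [← Over.w (hm u (E.inl E')), ← Category.assoc, h1, Over.w]),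
    Over.OverMorphism.ext h1, Over.OverMorphism.ext (H.lift_snd _ _ _)⟩

theorem glue_ring (F : Sh (Scheme.etaleTopology.over X)) {ι : Type*} (E : ι → EtA R A)
    (hc : ∀ m : Ideal A, m.IsMaximal → ∃ i, (E i).Hits m)
    (x : ∀ i, F.obj.obj (op (ob u (E i).E)))
    (hx : ∀ i j, rs u F.obj ((E i).inl (E j)) (x i) = rs u F.obj ((E i).inr (E j)) (x j)) :
    ∃ s, ∀ i, rs u F.obj (E i).ι s = x i := by
  obtain ⟨t, ht⟩ := glue F.property (fun Y y s => ∃ (i : ι) (a : Y ⟶ ob u (E i).E),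
    a ≫ hm u (E i).ι = y ∧ s = F.obj.map a.op (x i))
    ⟨fun Y y => ∃ (i : ι) (a : Y ⟶ ob u (E i).E), a ≫ hm u (E i).ι = y, by
      rintro Y Z _ ⟨i, a, rfl⟩ g
      exact ⟨i, g ≫ a, Category.assoc _ _ _⟩⟩
    (mem_cov u _ fun m h => by
      obtain ⟨i, hi⟩ := hc m h
      exact ⟨E i, hi, i, 𝟙 _, Category.id_comp _⟩) (by
      rintro Y _ ⟨i, a, rfl⟩
      exact ⟨_, i, a, rfl, rfl⟩) (by
      rintro Z Y g _ _ ⟨i, a, rfl, rfl⟩
      exact ⟨i, g ≫ a, Category.assoc _ _ _, res_res _ _ _ _⟩) (by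
      rintro Y _ _ _ ⟨i, a, rfl, rfl⟩ ⟨j, b, e, rfl⟩
      obtain ⟨c, rfl, rfl⟩ := (E i).exists_lift u (E j) a b e.symm
      rw [← res_res, ← res_res]
      exact congrArg _ (hx i j))
  exact ⟨t, fun i => ht _ _ ⟨i, 𝟙 _, Category.id_comp _, (res_id _ _).symm⟩⟩

/-- Change of the base ring. -/
noncomputable def tw (A : Type) [CommRing A] [Algebra R A] (C : Type) [CommRing C] [Algebra A C]
    [Algebra R C] [IsScalarTower R A C] : ob (ob u A).hom C ≅ ob u C :=
  Over.isoMk (Iso.refl _) (by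
    simp only [Over.mk_hom, Iso.refl_hom, Category.id_comp]
    rw [← Category.assoc, ← Spec.map_comp, ← CommRingCat.ofHom_comp,
      ← IsScalarTower.algebraMap_eq])

theorem tw_hm {C C' : Type} [CommRing C] [Algebra A C] [Algebra R C] [IsScalarTower R A C]
    [CommRing C'] [Algebra A C'] [Algebra R C'] [IsScalarTower R A C'] (φ : C →ₐ[A] C') :
    (tw u A C').hom ≫ hm u (φ.restrictScalars R) = hm _ φ ≫ (tw u A C).hom :=
  Over.OverMorphism.ext ((Category.id_comp _).trans (Category.comp_id _).symm)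

theorem tw_rs (P : PSh X) {C C' : Type} [CommRing C] [Algebra A C] [Algebra R C]
    [IsScalarTower R A C] [CommRing C'] [Algebra A C'] [Algebra R C'] [IsScalarTower R A C']
    (φ : C →ₐ[A] C') (s : P.obj (op (ob u C))) :
    P.map (tw u A C').hom.op (rs u P (φ.restrictScalars R) s) =
      rs _ P φ (P.map (tw u A C).hom.op s) := by
  rw [rs_apply, rs_apply, res_res, res_res, tw_hm]

theorem bij_tw (P : PSh X) {C C' : Type} [CommRing C] [Algebra A C] [Algebra R C]
    [IsScalarTower R A C] [CommRing C'] [Algebra A C'] [Algebra R C'] [IsScalarTower R A C']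
    (φ : C →ₐ[A] C') : Function.Bijective (rs (ob u A).hom P φ) ↔
      Function.Bijective (rs u P (φ.restrictScalars R)) :=
  bij_of_sq P _ _ (tw u A C').hom (tw u A C).hom (tw_hm u φ)

end tools

variable {X : Scheme.{0}} {B : Type} [CommRing B] (u : Spec (.of B) ⟶ X) {l : ℕ}

theorem Lis.mono {P : PSh X} {T T' : Over X} (h : Lis l P T) (t : T' ⟶ T) : Lis l P T' :=
  fun C K _ _ _ _ _ _ a b e ⟨s⟩ => h C K a b e ⟨s ≫ t⟩

/-- Ring form: any injective map from a test ring to an algebraically closed field. -/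
theorem Lis.bij {F : Sh (Scheme.etaleTopology.over X)} (hF : Cc l F) (h : Lis l F.obj (ob u B)) {C K : Type}
    [CommRing C] [IsLocalRing C] [Algebra B C] [Field K] [IsAlgClosed K] [Algebra B K]
    (hC : Aic C) (hl : IsUnit (l : C)) (φ : C →ₐ[B] K) (hφ : Function.Injective φ) :
    Function.Bijective (rs u F.obj φ) := by
  have : IsDomain C := hφ.isDomain _
  have := aic_frac hC (FractionRing C)
  have h1 : Function.Bijective (rs u F.obj (up B C (FractionRing C))) :=
    h C (FractionRing C) (ob u C).hom (ob u (FractionRing C)).hom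
      (Over.w (hm u (up B C (FractionRing C)))) ⟨hm u (Algebra.ofId B C)⟩ hC hl
  let ψ : FractionRing C →ₐ[B] K := IsFractionRing.liftAlgHom hφ
  have h2 := (field_rig u hF.2 ψ (by simpa using hl.map (algebraMap C (FractionRing C)))).comp h1
  convert h2 using 1
  funext s
  rw [Function.comp_apply, rs_rs]
  exact rs_congr u _ (AlgHom.ext fun x => (IsFractionRing.lift_algebraMap hφ x).symm) s

/-- It is enough to test on `B`-algebras. -/
theorem Lis.of_ring {P : PSh X}
    (h : ∀ (C K : Type) [CommRing C] [IsDomain C] [IsLocalRing C] [Algebra B C] [Field K]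
      [Algebra B K] [Algebra C K] [IsScalarTower B C K] [IsFractionRing C K], Aic C →
      IsUnit (l : C) → Function.Bijective (rs u P (up B C K))) : Lis l P (ob u B) := by
  rintro C K _ _ _ _ _ _ a b e ⟨t⟩ hC hl
  obtain ⟨φ, hφ⟩ := Spec.map_surjective t.left
  let _ : Algebra B C := φ.hom.toAlgebra
  let _ : Algebra B K := ((algebraMap C K).comp φ.hom).toAlgebra
  have : IsScalarTower B C K := IsScalarTower.of_algebraMap_eq fun _ => rfl
  obtain rfl : (ob u C).hom = a := by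
    have := Over.w t
    rw [← hφ] at this
    exact (show Spec.map φ ≫ u = a by simpa using this)
  obtain rfl : (ob u K).hom = b := (Over.w (hm u (up B C K))).symm.trans e
  exact h C K hC hl

/-- Over a field every `Cc` sheaf is lisse. -/
theorem lis_field {K : Type} [Field K] (u : Spec (.of K) ⟶ X) {F : Sh (Scheme.etaleTopology.over X)} (hF : Cc l F) :
    Lis l F.obj (ob u K) := by
  refine Lis.of_ring u fun C L _ _ _ _ _ _ _ _ _ hC hl => ?_
  have := hC.shl
  have := aic_frac hC L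
  obtain ⟨b, -⟩ := E4.exists_lift (R := K) (D := AlgebraicClosure K) hC ⊥
    ((Ideal.comap_bot_of_injective _ (algebraMap K _).injective).trans
      ((RingHom.injective_iff_ker_eq_bot _).1 (algebraMap K C).injective).symm)
  obtain ⟨k, _, _, _, r, hr⟩ := exists_res K C
  have hl' : IsUnit (l : AlgebraicClosure K) := isUnit_iff_ne_zero.2 fun h =>
    hl.ne_zero (by simpa using congrArg b h)
  have h1 : Function.Bijective (rs u F.obj b) := by
    rw [← Function.Bijective.of_comp_iff' (rig u hF.2 r hr hl)]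
    convert field_rig u hF.2 (r.comp b) hl' using 1
    exact funext fun s => rs_rs _ _ _ _ s
  rw [← Function.Bijective.of_comp_iff _ h1]
  convert field_rig u hF.2 ((up K C L).comp b) hl' using 1
  exact funext fun s => rs_rs _ _ _ _ s

section normal
variable {Ω : Type} [Field Ω] [IsAlgClosed Ω] [Algebra B Ω] [FaithfulSMul B Ω]
  [Algebra.IsAlgebraic B Ω] {F : Sh (Scheme.etaleTopology.over X)}

omit [IsAlgClosed Ω] [FaithfulSMul B Ω] [Algebra.IsAlgebraic B Ω] in
theorem gal_rs (P : PSh X) (g : Ω ≃ₐ[B] Ω) (m) :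
    gal u Ω P g m = rs u P (g : Ω →ₐ[B] Ω) m := rfl

omit [IsAlgClosed Ω] [FaithfulSMul B Ω] [Algebra.IsAlgebraic B Ω] in
/-- Elements of `P(Ω)` have open stabilisers. -/
theorem gal_opn {P : PSh X} (hP : LFP P) (m : P.obj (op (ob u Ω))) :
    Opn fun g : Ω ≃ₐ[B] Ω => gal u Ω P g m = m := by
  classical
  obtain ⟨a, t, rfl⟩ := (lfp_fac u hP (Stage.fac_fp (R := B) (C := Ω))).1 m
  refine ⟨Finset.univ.image fun i : Fin a.n => a.φ (Ideal.Quotient.mk _ (MvPolynomial.X i)),
    fun g hg => ?_⟩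
  refine (rs_rs u P _ (g : Ω →ₐ[B] Ω) t).trans (rs_congr u P
    (Ideal.Quotient.algHom_ext _ (MvPolynomial.algHom_ext fun i => ?_)) t)
  exact hg _ (Finset.mem_image_of_mem _ (Finset.mem_univ i))

omit [FaithfulSMul B Ω] [Algebra.IsAlgebraic B Ω] in
/-- The localisation of `B⁺` at a prime. -/
theorem exists_loc (a : Ideal (integralClosure B Ω)) [a.IsPrime] :
    ∃ (C : Type) (_ : CommRing C) (_ : IsLocalRing C) (_ : Algebra B C)
      (j : integralClosure B Ω →ₐ[B] C) (φ : C →ₐ[B] Ω), Aic C ∧ Function.Injective φ ∧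
      φ.comp j = (integralClosure B Ω).val ∧ (maximalIdeal C).comap j = a ∧
      ∀ (k : Type) [Field k] [Algebra B k] (b : integralClosure B Ω →ₐ[B] k),
        RingHom.ker b = a → ∃ r : C →ₐ[B] k, r.comp j = b ∧ RingHom.ker r = maximalIdeal C := by
  let C := Localization.AtPrime a
  let φ : C →ₐ[B] Ω := IsLocalization.liftAlgHom (M := a.primeCompl)
    (f := (integralClosure B Ω).val) fun y => isUnit_iff_ne_zero.2 fun h =>
      y.2 (by rw [show y.1 = 0 from Subtype.ext h]; exact a.zero_mem)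
  have hφ (x : integralClosure B Ω) : φ (algebraMap _ C x) = x := IsLocalization.lift_eq _ _
  let _ : Algebra C Ω := (φ : C →+* Ω).toAlgebra
  have : IsScalarTower (integralClosure B Ω) C Ω :=
    IsScalarTower.of_algebraMap_eq fun x => (hφ x).symm
  refine ⟨C, inferInstance, inferInstance, inferInstance, up B _ C, φ,
    loc_aic (B := B) (Ω := Ω) a.primeCompl C, loc_injective (B := B) (Ω := Ω) a.primeCompl C,
    AlgHom.ext hφ, Localization.AtPrime.under_maximalIdeal, fun k _ _ b hb => ?_⟩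
  let r : C →ₐ[B] k := IsLocalization.liftAlgHom (M := a.primeCompl) (f := b)
    fun y => isUnit_iff_ne_zero.2 fun h => y.2 (hb.le h)
  have hr (x : integralClosure B Ω) : r (algebraMap _ C x) = b x := IsLocalization.lift_eq _ _
  refine ⟨r, AlgHom.ext hr, ((maximalIdeal.isMaximal C).eq_of_le (RingHom.ker_ne_top r) ?_).symm⟩
  rw [← Localization.AtPrime.map_eq_maximalIdeal, Ideal.map_le_iff_le_comap]
  intro x hx
  rw [← hb] at hx
  exact (hr x).trans hx

omit [Algebra.IsAlgebraic B Ω] in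
/-- A path from a prime of an etale algebra to a generic point. -/
theorem exists_path {D : Type} [CommRing D] [Algebra B D] [Algebra.Etale B D] (q : Ideal D)
    [q.IsPrime] : ∃ (C : Type) (_ : CommRing C) (_ : IsLocalRing C) (_ : Algebra B C)
      (φ : C →ₐ[B] Ω) (k : Type) (_ : Field k) (_ : IsAlgClosed k) (_ : Algebra B k)
      (r : C →ₐ[B] k) (σ : D →ₐ[B] C), Aic C ∧ Function.Injective φ ∧
      RingHom.ker r = maximalIdeal C ∧ RingHom.ker (r.comp σ) = q := by
  have : FaithfulSMul B (integralClosure B Ω) := (faithfulSMul_iff_algebraMap_injective _ _).2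
    fun x y h => FaithfulSMul.algebraMap_injective B Ω (congrArg Subtype.val h)
  obtain ⟨a, _, ha⟩ := Ideal.exists_ideal_over_prime_of_isIntegral (S := integralClosure B Ω)
    (q.comap (algebraMap B D)) ⊥ (by
      rw [Ideal.comap_bot_of_injective _ (FaithfulSMul.algebraMap_injective _ _)]; exact bot_le)
  obtain ⟨_, ha⟩ := ha
  obtain ⟨C, _, _, _, j, φ, h1, h2, -, h4, -⟩ := exists_loc a
  obtain ⟨k, _, _, _, r, hr⟩ := exists_res B C
  obtain ⟨τ, hτ⟩ := E3.exists_point (R := B) k q (by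
    rw [← ha, ← h4, ← hr]
    ext x
    simp [RingHom.mem_ker])
  have := h1.shl
  have := isLocalHom_of_ker r hr
  obtain ⟨σ, rfl⟩ := SHL.lift_etale r τ
  exact ⟨C, _, inferInstance, _, φ, k, _, inferInstance, _, r, σ, h1, h2, hr, hτ⟩

variable (hF : Cc l F) (hL : Lis l F.obj (ob u B)) (hl : IsUnit (l : B))
include hF hL hl

omit [Algebra.IsAlgebraic B Ω] in
/-- Sections over an etale algebra are determined by their values at the `Ω`-points. -/
theorem lis_inj {D : Type} [CommRing D] [Algebra B D] [Algebra.Etale B D]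
    (s : F.obj.obj (op (ob u D))) (h : ∀ τ : D →ₐ[B] Ω, rs u F.obj τ s = 0) : s = 0 := by
  refine pt_ring u hF (by simpa using hl.map (algebraMap B D)) s fun m _ => ?_
  obtain ⟨C, _, _, _, φ, k, _, _, _, r, σ, h1, h2, -, h4⟩ := exists_path (B := B) (Ω := Ω) m
  refine ⟨k, _, inferInstance, _, r.comp σ, h4, ?_⟩
  have := (hL.bij u hF h1 (by simpa using hl.map (algebraMap B C)) φ h2).1
    (a₁ := rs u F.obj σ s) (a₂ := 0) (by rw [rs_rs, h, map_zero])
  rw [← rs_rs, this, map_zero]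

theorem torsor_loc [IsIntegrallyClosed B] {E Q : Sh (Scheme.etaleTopology.over X)} {i : F ⟶ E} {p : E ⟶ Q} [Epi p]
    (ex : ∀ T y, p.hom.app (op T) y = 0 ↔ ∃ x, i.hom.app (op T) x = y) {D : Type} [CommRing D]
    [Algebra B D] [Algebra.Etale B D] (z : Q.obj.obj (op (ob u D)))
    (y : (D →ₐ[B] Ω) → E.obj.obj (op (ob u Ω)))
    (hy : ∀ τ, p.hom.app _ (y τ) = rs u Q.obj τ z)
    (hg : ∀ (g : Ω ≃ₐ[B] Ω) (τ : D →ₐ[B] Ω),
      y ((g : Ω →ₐ[B] Ω).comp τ) = gal u Ω E.obj g (y τ)) (m : Ideal D) [m.IsPrime] :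
    ∃ (V : EtA B D) (x : E.obj.obj (op (ob u V.E))), V.Hits m ∧
      p.hom.app _ x = rs u Q.obj V.ι z ∧ ∀ τ, rs u E.obj τ x = y (τ.comp V.ι) := by
  have : IsDomain B := (FaithfulSMul.algebraMap_injective B Ω).isDomain _
  obtain ⟨E₁, ⟨q, _, rfl⟩, t₁, ht₁⟩ := loc_lift u p z m
  have := E₁.etale
  obtain ⟨C, _, _, _, φ, k, _, _, _, r, σ₁, h1, h2, h3, rfl⟩ := exists_path (B := B) (Ω := Ω) q
  have := h1.shl
  have := isLocalHom_of_ker r h3
  have hlC : IsUnit (l : C) := by simpa using hl.map (algebraMap B C)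
  obtain ⟨δ₀, hδ₀⟩ := (ex _ (y ((φ.comp σ₁).comp E₁.ι) - rs u E.obj (φ.comp σ₁) t₁)).1 (by
    rw [map_sub, hy, rs_nat, ht₁, rs_rs, sub_self])
  obtain ⟨δ₁, rfl⟩ := (hL.bij u hF h1 hlC φ h2).2 δ₀
  obtain ⟨E₂, σ', t₂, h4, h5⟩ := germ_surj u hF (by simpa using hl.map (algebraMap B E₁.E))
    (r.comp σ₁) (rs u F.obj r δ₁)
  have := E₂.etale
  obtain ⟨σ₂, rfl⟩ := SHL.lift_etale r σ'
  obtain rfl : σ₂.comp E₂.ι = σ₁ := unram_ext _ _ fun x => by
    rw [← h3, RingHom.mem_ker, map_sub, sub_eq_zero]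
    exact congr($h4 x)
  obtain rfl : rs u F.obj σ₂ t₂ = δ₁ := (rig u hF.2 r h3 hlC).1 (by rw [rs_rs, h5])
  obtain ⟨x, hx1, hx2⟩ : ∃ x : E.obj.obj (op (ob u E₂.E)),
      p.hom.app _ x = rs u Q.obj (E₂.ι.comp E₁.ι) z ∧
      rs u E.obj (φ.comp σ₂) x = y ((φ.comp σ₂).comp (E₂.ι.comp E₁.ι)) := by
    refine ⟨rs u E.obj E₂.ι t₁ + i.hom.app _ t₂, (map_add _ _ _).trans ?_,
      (map_add _ _ _).trans ?_⟩
    · rw [(ex _ _).2 ⟨t₂, rfl⟩, add_zero, rs_nat, ht₁, rs_rs]
    · rw [← rs_nat, ← rs_rs u F.obj, hδ₀, rs_rs]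
      exact add_sub_cancel _ _
  obtain ⟨ε, hε, hε'⟩ := exists_component (φ.comp σ₂)
  have hε1 : σ₂ ε = 1 := h2 (hε.trans (map_one φ).symm)
  let V := (E₁.trans E₂).trans (EtA.away B ε)
  let j : E₂.E →ₐ[B] V.E := (EtA.away B ε).ι
  have hj : V.ι = j.comp (E₂.ι.comp E₁.ι) := rfl
  have hu : IsUnit (j ε) := IsLocalization.Away.algebraMap_isUnit (S := Localization.Away ε) ε
  refine ⟨V, rs u E.obj j x, ?_, ?_, fun τ => ?_⟩
  · have h0 : IsUnit ((r.comp σ₂) ε) := by simp [hε1]
    let σ₃ : Localization.Away ε →ₐ[B] k := IsLocalization.Away.liftAlgHom ε h0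
    refine V.hits_ker (τ := (r.comp (σ₂.comp E₂.ι)).comp E₁.ι) σ₃ (AlgHom.ext fun x => ?_)
    exact IsLocalization.Away.lift_eq (S := Localization.Away ε) (g := (r.comp σ₂ : _ →+* k)) ε h0
      (E₂.ι (E₁.ι x))
  · rw [rs_nat, hx1, rs_rs, hj]
  · obtain ⟨g, h⟩ := conj_of_ker (φ.comp σ₂) (τ.comp j) (hε' _ (hu.map τ).ne_zero)
    have h' : τ.comp j = (g : Ω →ₐ[B] Ω).comp (φ.comp σ₂) := AlgHom.ext fun x => (h x).symm
    rw [rs_rs, hj, ← AlgHom.comp_assoc, h', AlgHom.comp_assoc _ (φ.comp σ₂), hg, gal_rs,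
      ← rs_rs, hx2]

/-- Equivariant generic lifts glue. -/
theorem torsor [IsIntegrallyClosed B] {E Q : Sh (Scheme.etaleTopology.over X)} {i : F ⟶ E} {p : E ⟶ Q} {w : i ≫ p = 0}
    (hS : (ShortComplex.mk i p w).ShortExact) {D : Type} [CommRing D] [Algebra B D]
    [Algebra.Etale B D] (z : Q.obj.obj (op (ob u D)))
    (y : (D →ₐ[B] Ω) → E.obj.obj (op (ob u Ω)))
    (hy : ∀ τ, p.hom.app _ (y τ) = rs u Q.obj τ z)
    (hg : ∀ (g : Ω ≃ₐ[B] Ω) (τ : D →ₐ[B] Ω),
      y ((g : Ω →ₐ[B] Ω).comp τ) = gal u Ω E.obj g (y τ)) :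
    ∃ x : E.obj.obj (op (ob u D)), p.hom.app _ x = z ∧ ∀ τ, rs u E.obj τ x = y τ := by
  have : Mono (ShortComplex.mk i p w).f := hS.mono_f
  have : Epi p := hS.epi_g
  have ex (T : Over X) : Function.Injective (i.hom.app (op T)) ∧
      ∀ y, p.hom.app (op T) y = 0 ↔ ∃ x, i.hom.app (op T) x = y := sec_exact hS.exact T
  have loc := fun (m : PrimeSpectrum D) =>
    torsor_loc u hF hL hl (fun T => (ex T).2) z y hy hg m.asIdeal
  choose V x h1 h2 h3 using loc
  obtain ⟨s, hs⟩ := glue_ring u E V (fun m h => ⟨⟨m, h.isPrime⟩, h1 _⟩) x fun a b => by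
    obtain ⟨δ, hδ⟩ := ((ex _).2 (rs u E.obj ((V a).inl (V b)) (x a) -
      rs u E.obj ((V a).inr (V b)) (x b))).1 (by
        rw [map_sub, rs_nat, rs_nat, h2, h2, rs_rs, rs_rs, EtA.inl_ι, EtA.inr_ι, sub_self])
    have := ((V a).prod (V b)).etale
    have h0 : δ = 0 := lis_inj u (Ω := Ω) hF hL hl δ fun τ => (ex _).1 (by
      rw [rs_nat, hδ, map_sub, rs_rs, rs_rs, h3, h3, AlgHom.comp_assoc, AlgHom.comp_assoc,
        EtA.inl_ι, EtA.inr_ι, sub_self, map_zero])
    rw [← sub_eq_zero, ← hδ, h0, map_zero]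
  refine ⟨s, sub_eq_zero.1 (sep_ring u Q _ fun m h => ?_), fun τ => ?_⟩
  · exact ⟨_, h1 ⟨m, h.isPrime⟩, by rw [map_sub, ← rs_nat, hs, h2, sub_self]⟩
  · obtain ⟨σ, h⟩ := (V _).extend τ (h1 ⟨RingHom.ker τ, RingHom.ker_isPrime τ⟩)
    rw [← h, ← rs_rs, hs, h3]

theorem lis_surj [IsIntegrallyClosed B] {D : Type} [CommRing D] [Algebra B D] [Algebra.Etale B D]
    (y : (D →ₐ[B] Ω) → F.obj.obj (op (ob u Ω)))
    (hg : ∀ (g : Ω ≃ₐ[B] Ω) (τ : D →ₐ[B] Ω),
      y ((g : Ω →ₐ[B] Ω).comp τ) = gal u Ω F.obj g (y τ)) :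
    ∃ x : F.obj.obj (op (ob u D)), ∀ τ, rs u F.obj τ x = y τ := by
  open ZeroObject in
  obtain ⟨x, -, hx⟩ := torsor u hF hL hl (E := F) (Q := 0) (i := 𝟙 F) (p := 0) (w := comp_zero)
    { exact := (ShortComplex.exact_iff_epi _ rfl).2 inferInstance
      epi_g := (isZero_zero _).epi _ } 0 y (fun τ => (map_zero _).symm) hg
  exact ⟨x, hx⟩

/-- `F(B) = F(Ω)^G`. -/
theorem lis_inv [IsIntegrallyClosed B] (m : F.obj.obj (op (ob u Ω))) :
    (∃ x, rs u F.obj (Algebra.ofId B Ω) x = m) ↔ ∀ g : Ω ≃ₐ[B] Ω, gal u Ω F.obj g m = m := by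
  constructor
  · rintro ⟨x, rfl⟩ g
    rw [gal_rs, rs_rs]
    exact rs_congr u _ (Subsingleton.elim _ _) x
  · intro h
    obtain ⟨x, hx⟩ := lis_surj u hF hL hl (D := B) (fun _ => m) fun g _ => (h g).symm
    exact ⟨x, hx _⟩

omit [IsAlgClosed Ω] [FaithfulSMul B Ω] [Algebra.IsAlgebraic B Ω] hF hl in
theorem Lis.tw (A : Type) [CommRing A] [Algebra B A] :
    Lis l F.obj (ob (ob u A).hom A) := hL.mono ((E4.tw u A A).hom ≫ hm u (Algebra.ofId B A))

/-- Sections over a normal subring `A` of `Ω`. -/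
theorem sub_bij (A : Type) [CommRing A] [Algebra B A] [Algebra A Ω] [IsScalarTower B A Ω]
    [FaithfulSMul A Ω] [IsIntegrallyClosed A]
    (h : ∀ (g : Ω ≃ₐ[B] Ω), (∀ a, g (algebraMap A Ω a) = algebraMap A Ω a) →
      ∀ m, gal u Ω F.obj g m = m) : Function.Bijective (rs u F.obj (up B A Ω)) := by
  have : IsDomain A := (FaithfulSMul.algebraMap_injective A Ω).isDomain _
  have : Algebra.IsAlgebraic A Ω := .extendScalars (R := B) fun x y e =>
    FaithfulSMul.algebraMap_injective B Ω (by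
      rw [IsScalarTower.algebraMap_apply B A Ω, e, ← IsScalarTower.algebraMap_apply])
  have hl' : IsUnit (l : A) := by simpa using hl.map (algebraMap B A)
  refine (bij_tw u F.obj (Algebra.ofId A Ω)).1 ⟨(injective_iff_map_eq_zero _).2 fun s hs =>
    lis_inj _ (Ω := Ω) hF (hL.tw u A) hl' s fun τ => by rwa [Subsingleton.elim τ], fun m =>
      (lis_inv _ hF (hL.tw u A) hl' m).2 fun g => ?_⟩
  obtain ⟨m, rfl⟩ := (ConcreteCategory.bijective_of_isIso (F.obj.map (tw u A Ω).hom.op)).2 m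
  rw [gal_rs, ← tw_rs]
  exact congrArg _ (h (g.restrictScalars B) g.commutes m)

/-- Sections over the integral closure: `F(B⁺) = F(k)` for every geometric point. -/
theorem plus_bij {k : Type} [Field k] [IsAlgClosed k] [Algebra B k]
    (b : integralClosure B Ω →ₐ[B] k) : Function.Bijective (rs u F.obj b) := by
  have : IsDomain B := (FaithfulSMul.algebraMap_injective B Ω).isDomain _
  have : IsFractionRing (integralClosure B Ω) Ω := integralClosure.isFractionRing_of_algebraic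
    fun x hx => FaithfulSMul.algebraMap_injective B Ω (hx.trans (map_zero _).symm)
  have : IsIntegrallyClosed (integralClosure B Ω) :=
    (isIntegrallyClosed_iff_isIntegrallyClosedIn Ω).2 inferInstance
  have h0 := sub_bij u (Ω := Ω) hF hL hl (integralClosure B Ω) fun g hg m => by
    have : (g : Ω →ₐ[B] Ω) = AlgHom.id B Ω := AlgHom.coe_ringHom_injective
      (IsFractionRing.ringHom_ext (A := integralClosure B Ω) hg)
    rw [gal_rs, this, rs_id]
  have := RingHom.ker_isPrime b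
  obtain ⟨C, _, _, _, j, φ, h1, h2, h3, -, h5⟩ := exists_loc (RingHom.ker b)
  obtain ⟨r, h6, h7⟩ := h5 k b rfl
  have := h1.shl
  have hlC : IsUnit (l : C) := by simpa using hl.map (algebraMap B C)
  have h8 : Function.Bijective (rs u F.obj j) := by
    rw [← Function.Bijective.of_comp_iff' (hL.bij u hF h1 hlC φ h2)]
    convert h0 using 1
    exact funext fun s => (rs_rs _ _ _ _ s).trans (rs_congr _ _ h3 s)
  convert (rig u hF.2 r h7 hlC).comp h8 using 1
  exact funext fun s => ((rs_rs _ _ _ _ s).trans (rs_congr _ _ h6 s)).symm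

theorem gal_unr (m : F.obj.obj (op (ob u Ω))) :
    Unr fun g : Ω ≃ₐ[B] Ω => gal u Ω F.obj g m = m := by
  intro a _ g hg
  obtain ⟨s, rfl⟩ := (plus_bij u hF hL hl (integralClosure B Ω).val).2 m
  obtain ⟨C, _, _, _, j, -, -, -, -, h4, -⟩ := exists_loc a
  obtain ⟨k, _, _, _, r, hr⟩ := exists_res B C
  have e : (r.comp j).comp (g : Ω →ₐ[B] Ω).mapIntegralClosure = r.comp j := AlgHom.ext fun z => by
    have := hg z ((g : Ω →ₐ[B] Ω).mapIntegralClosure z) rfl
    rw [← h4, ← hr, Ideal.mem_comap, RingHom.mem_ker, map_sub, map_sub, sub_eq_zero] at this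
    exact this
  have := (plus_bij u hF hL hl (r.comp j)).1 ((rs_rs _ _ _ _ s).trans (rs_congr _ _ e s))
  conv_rhs => rw [← this]
  rw [gal_rs, rs_rs, rs_rs]
  rfl

/-- The specialisation isomorphism attached to `b`. -/
noncomputable def spec {k : Type} [Field k] [IsAlgClosed k] [Algebra B k]
    (b : integralClosure B Ω →ₐ[B] k) : F.obj.obj (op (ob u Ω)) ≃+ F.obj.obj (op (ob u k)) :=
  (AddEquiv.ofBijective _ (plus_bij u hF hL hl (integralClosure B Ω).val)).symm.trans
    (AddEquiv.ofBijective _ (plus_bij u hF hL hl b))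

theorem spec_rs {k : Type} [Field k] [IsAlgClosed k] [Algebra B k]
    (b : integralClosure B Ω →ₐ[B] k) (s : F.obj.obj (op (ob u (integralClosure B Ω)))) :
    spec u hF hL hl b (rs u F.obj (integralClosure B Ω).val s) = rs u F.obj b s :=
  congrArg (rs u F.obj b)
    ((AddEquiv.ofBijective _ (plus_bij u hF hL hl (integralClosure B Ω).val)).symm_apply_apply s)

theorem spec_gal {k k' : Type} [Field k] [IsAlgClosed k] [Algebra B k] [Field k'] [IsAlgClosed k']
    [Algebra B k'] (b : integralClosure B Ω →ₐ[B] k) (b' : integralClosure B Ω →ₐ[B] k')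
    (ψ : k →ₐ[B] k') (g : Ω ≃ₐ[B] Ω)
    (h : ∀ z w : integralClosure B Ω, (w : Ω) = g z → b' w = ψ (b z))
    (m : F.obj.obj (op (ob u Ω))) :
    spec u hF hL hl b' (gal u Ω F.obj g m) = rs u F.obj ψ (spec u hF hL hl b m) := by
  obtain ⟨s, rfl⟩ := (plus_bij u hF hL hl (integralClosure B Ω).val).2 m
  have e : gal u Ω F.obj g (rs u F.obj (integralClosure B Ω).val s) =
      rs u F.obj (integralClosure B Ω).val
        (rs u F.obj (g : Ω →ₐ[B] Ω).mapIntegralClosure s) := by
    rw [gal_rs, rs_rs, rs_rs]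
    rfl
  rw [e, spec_rs, spec_rs, rs_rs, rs_rs]
  exact rs_congr _ _ (AlgHom.ext fun z => h z _ rfl) s

/-- Every map of geometric points over `B` comes from a Galois element. -/
theorem exists_spec_gal [IsIntegrallyClosed B] {k k' : Type} [Field k] [IsAlgClosed k]
    [Algebra B k] [Field k'] [IsAlgClosed k'] [Algebra B k'] (b : integralClosure B Ω →ₐ[B] k)
    (b' : integralClosure B Ω →ₐ[B] k') (ψ : k →ₐ[B] k') :
    ∃ g : Ω ≃ₐ[B] Ω, (∀ z w : integralClosure B Ω, (w : Ω) = g z → b' w = ψ (b z)) ∧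
      ∀ m, spec u hF hL hl b' (gal u Ω F.obj g m) = rs u F.obj ψ (spec u hF hL hl b m) := by
  have : IsDomain B := (FaithfulSMul.algebraMap_injective B Ω).isDomain _
  obtain ⟨g, hg⟩ := E65.trans (B := B) (P := integralClosure B Ω) (Ω := Ω) (b' : _ →+* k')
    (ψ.comp b : _ →+* k') fun r => (b'.commutes r).trans ((ψ.comp b).commutes r).symm
  exact ⟨g, hg, spec_gal u hF hL hl b b' ψ g hg⟩

end normal

end Pool.Agent.MP_855f4c_ag.E4

end

section

set_option autoImplicit false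
set_option backward.isDefEq.respectTransparency false

open CategoryTheory Limits Opposite AlgebraicGeometry IsLocalRing

namespace Pool.Agent.MP_855f4c_ag.E4

open E E3

variable {X : Scheme.{0}} {B : Type} [CommRing B] (u : Spec (.of B) ⟶ X) {l : ℕ}

lemma rs_comp (P : PSh X) {A C D : Type} [CommRing A] [Algebra B A] [CommRing C] [Algebra B C]
    [CommRing D] [Algebra B D] (φ : A →ₐ[B] C) (ψ : C →ₐ[B] D) :
    rs u P ψ ∘ rs u P φ = rs u P (ψ.comp φ) := funext fun s => rs_rs u P φ ψ s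

/-- Local maps between strictly henselian rings induce bijections. -/
lemma loc_bij {F : Sh (Scheme.etaleTopology.over X)} (hF : Cc l F) {A C : Type} [CommRing A] [SHL A] [Algebra B A]
    [CommRing C] [SHL C] [Algebra B C] (β : A →ₐ[B] C)
    (hβ : (maximalIdeal C).comap β = maximalIdeal A) (hl : IsUnit (l : A)) :
    Function.Bijective (rs u F.obj β) := by
  let k := AlgebraicClosure (ResidueField C)
  let τ : C →ₐ[B] k := IsScalarTower.toAlgHom B C k
  have h1 : RingHom.ker τ = maximalIdeal C := by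
    ext x
    rw [RingHom.mem_ker, ← residue_eq_zero_iff]
    exact map_eq_zero (algebraMap (ResidueField C) k)
  have h2 := rig u hF.2 τ h1 (by simpa using hl.map β)
  have h3 := rig u hF.2 (τ.comp β) (by rw [← hβ, ← h1]; rfl) hl
  rwa [← Function.Bijective.of_comp_iff' h2, rs_comp]

/-- Extension of a map to the localisation at a prime. -/
noncomputable def lcl {A C : Type} [CommRing A] [Algebra B A] [CommRing C] [Algebra B C]
    (P : Ideal A) [P.IsPrime] (b : A →ₐ[B] C) (h : ∀ x ∉ P, IsUnit (b x)) :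
    Localization.AtPrime P →ₐ[B] C :=
  IsLocalization.liftAlgHom (M := P.primeCompl) (f := b) fun y => h y.1 y.2

section lcl
variable {A C : Type} [CommRing A] [Algebra B A] [CommRing C] [Algebra B C]
  (P : Ideal A) [P.IsPrime]

lemma lcl_alg (b : A →ₐ[B] C) (h : ∀ x ∉ P, IsUnit (b x)) (x : A) :
    lcl P b h (algebraMap A _ x) = b x := IsLocalization.lift_eq _ x

lemma lcl_ext {f g : Localization.AtPrime P →ₐ[B] C}
    (h : ∀ x : A, f (algebraMap A _ x) = g (algebraMap A _ x)) : f = g :=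
  AlgHom.coe_ringHom_injective (IsLocalization.ringHom_ext P.primeCompl (RingHom.ext h))

lemma lcl_max [IsLocalRing C] (b : A →ₐ[B] C) (h : ∀ x ∉ P, IsUnit (b x))
    (h' : ∀ x ∈ P, ¬ IsUnit (b x)) :
    (maximalIdeal C).comap (lcl P b h) = maximalIdeal (Localization.AtPrime P) := by
  refine ((maximalIdeal.isMaximal _).eq_of_le (Ideal.IsPrime.ne_top inferInstance) ?_).symm
  rw [← Localization.AtPrime.map_eq_maximalIdeal, Ideal.map_le_iff_le_comap]
  intro x hx
  rw [Ideal.mem_comap, Ideal.mem_comap, lcl_alg]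
  exact h' x hx

lemma lcl_pt {k : Type} [Field k] [Algebra A k] (h : ∀ x, algebraMap A k x = 0 ↔ x ∈ P) :
    ∃ r : Localization.AtPrime P →ₐ[A] k, IsLocalHom r := by
  have hu : ∀ x ∉ P, IsUnit (Algebra.ofId A k x) := fun x hx => IsUnit.mk0 _ (mt (h x).1 hx)
  refine ⟨lcl P (Algebra.ofId A k) hu, ⟨fun x hx => ?_⟩⟩
  by_contra hn
  have h5 := (mem_maximalIdeal _).2 hn
  rw [← lcl_max P _ hu fun x hx hx' => hx'.ne_zero ((h x).2 hx)] at h5
  exact (mem_maximalIdeal _).1 h5 hx

lemma unit_loc {l : ℕ} (h : (l : A) ∉ P) : IsUnit (l : Localization.AtPrime P) := by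
  simpa using (IsLocalization.map_units (M := P.primeCompl) (Localization.AtPrime P) ⟨l, h⟩)
end lcl

lemma away_lift {A C : Type} [CommRing A] [Algebra B A] [CommRing C] [Algebra B C]
    (f : A →ₐ[B] C) (r : A) (h : IsUnit (f r)) :
    ∃ g : Localization.Away r →ₐ[B] C, f = g.comp (up B A _) :=
  ⟨IsLocalization.liftAlgHom (M := Submonoid.powers r) (f := f) (by
    rintro ⟨_, n, rfl⟩
    simpa using h.pow n), AlgHom.ext fun x => (IsLocalization.lift_eq _ x).symm⟩

lemma exists_closed_pt {A D : Type} [CommRing A] [IsJacobsonRing A] [Algebra B A] [CommRing D]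
    [Algebra A D] [Algebra B D] [IsScalarTower B A D] [Algebra.FiniteType A D] (m : Ideal D)
    [m.IsMaximal] : ∃ (k : Type) (_ : Field k) (_ : IsAlgClosed k) (_ : Algebra A k)
      (_ : Algebra B k) (_ : IsScalarTower B A k) (τ : D →ₐ[A] k), RingHom.ker τ = m ∧
      ∃ Q : Ideal A, Q.IsMaximal ∧ ∀ x, algebraMap A k x = 0 ↔ x ∈ Q := by
  let _ := Ideal.Quotient.field m
  let k := AlgebraicClosure (D ⧸ m)
  let τ : D →ₐ[A] k := IsScalarTower.toAlgHom A D k
  have hτ : RingHom.ker τ = m := by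
    ext x
    rw [RingHom.mem_ker, ← Ideal.Quotient.eq_zero_iff_mem]
    exact map_eq_zero (algebraMap (D ⧸ m) k)
  refine ⟨k, _, inferInstance, _, inferInstance, inferInstance, τ, hτ, m.comap (algebraMap A D),
    ?_, fun x => by rw [← τ.commutes, ← RingHom.mem_ker, hτ]; rfl⟩
  have := finite_of_finite_type_of_isJacobsonRing A (D ⧸ m)
  have h4 := Ideal.isMaximal_comap_of_isIntegral_of_isMaximal (R := A) (⊥ : Ideal (D ⧸ m))
  rwa [IsScalarTower.algebraMap_eq A D (D ⧸ m), ← Ideal.comap_comap, ← RingHom.ker_eq_comap_bot,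
    Ideal.Quotient.algebraMap_eq, Ideal.mk_ker] at h4

section test
variable (Ω : Type) [Field Ω] [IsAlgClosed Ω] [Algebra B Ω] [FaithfulSMul B Ω]
  [Algebra.IsAlgebraic B Ω]

/-- The prime `P` of `B⁺` is the centre of a specialisation along which `F` is constant. -/
def Tst (F : Sh (Scheme.etaleTopology.over X)) (P : Ideal (integralClosure B Ω)) : Prop :=
  ∃ (V K : Type) (_ : CommRing V) (_ : SHL V) (_ : Algebra B V) (_ : Field K) (_ : IsAlgClosed K)
    (_ : Algebra B K) (b : integralClosure B Ω →ₐ[B] V) (φ : V →ₐ[B] K),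
    (maximalIdeal V).comap b = P ∧ Function.Injective (φ.comp b) ∧
      Function.Bijective (rs u F.obj φ)

section
variable {Ω} (P : Ideal (integralClosure B Ω)) [P.IsPrime]

/-- The generic point of the localised integral closure. -/
noncomputable def lgen : Localization.AtPrime P →ₐ[B] Ω :=
  lcl P (integralClosure B Ω).val fun x hx => IsUnit.mk0 _ fun h =>
    hx ((Subtype.ext h : x = 0) ▸ P.zero_mem)

omit [IsAlgClosed Ω] [FaithfulSMul B Ω] [Algebra.IsAlgebraic B Ω] in
lemma gen_alg (x : integralClosure B Ω) : lgen P (algebraMap _ _ x) = x := lcl_alg _ _ _ _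

omit [IsAlgClosed Ω] [FaithfulSMul B Ω] [Algebra.IsAlgebraic B Ω] in
lemma gen_inj : Function.Injective (lgen P) := by
  let _ := (lgen P : Localization.AtPrime P →+* Ω).toAlgebra
  have : IsScalarTower (integralClosure B Ω) (Localization.AtPrime P) Ω :=
    IsScalarTower.of_algebraMap_eq fun x => (gen_alg P x).symm
  exact loc_injective (B := B) (Ω := Ω) P.primeCompl (Localization.AtPrime P)

omit [FaithfulSMul B Ω] [Algebra.IsAlgebraic B Ω] in
lemma loc_shl : SHL (Localization.AtPrime P) := by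
  let _ := (lgen P : Localization.AtPrime P →+* Ω).toAlgebra
  have : IsScalarTower (integralClosure B Ω) (Localization.AtPrime P) Ω :=
    IsScalarTower.of_algebraMap_eq fun x => (gen_alg P x).symm
  exact (loc_aic (B := B) (Ω := Ω) P.primeCompl (Localization.AtPrime P)).shl

/-- The generisation map. -/
noncomputable def lgn {P Q : Ideal (integralClosure B Ω)} [P.IsPrime] [Q.IsPrime] (h : P ≤ Q) :
    Localization.AtPrime Q →ₐ[B] Localization.AtPrime P :=
  lcl Q (up B _ _) fun x hx =>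
    IsLocalization.map_units (M := P.primeCompl) _ ⟨x, fun hP => hx (h hP)⟩

omit [IsAlgClosed Ω] [FaithfulSMul B Ω] [Algebra.IsAlgebraic B Ω] in
lemma gen_gn {P Q : Ideal (integralClosure B Ω)} [P.IsPrime] [Q.IsPrime] (h : P ≤ Q) :
    (lgen P).comp (lgn h) = lgen Q :=
  lcl_ext Q fun x => by
    rw [AlgHom.comp_apply, lgn, lcl_alg, gen_alg]; exact gen_alg P x

lemma Tst.gen_bij {F : Sh (Scheme.etaleTopology.over X)} (hF : Cc l F) (hl : (l : integralClosure B Ω) ∉ P)
    (h : Tst u Ω F P) : Function.Bijective (rs u F.obj (lgen P)) := by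
  obtain ⟨V, K, _, _, _, _, _, _, b, φ, h1, h2, h3⟩ := h
  have := loc_shl P
  have hu : ∀ x ∉ P, IsUnit (b x) := fun x hx => by
    by_contra hn
    exact hx (h1 ▸ (mem_maximalIdeal _).2 hn)
  have h4 := loc_bij u hF (lcl P b hu) (lcl_max P b hu fun x hx => by
    rw [← h1] at hx; exact (mem_maximalIdeal _).1 hx) (unit_loc P hl)
  have hj : Function.Injective (φ.comp (lcl P b hu)) := by
    rw [injective_iff_map_eq_zero]
    intro x hx
    obtain ⟨⟨z, s⟩, hz⟩ := IsLocalization.surj P.primeCompl x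
    have : z = 0 := h2 (by
      rw [map_zero, AlgHom.comp_apply, ← lcl_alg P b hu, ← hz, ← AlgHom.comp_apply, map_mul, hx,
        zero_mul])
    rw [← (IsLocalization.map_units (Localization.AtPrime P) s).mul_left_eq_zero, hz, this,
      map_zero]
  obtain ⟨g, hg⟩ := exists_ext (lgen P).toRingHom (φ.comp (lcl P b hu)).toRingHom (gen_inj P) hj
    fun x => by
      obtain ⟨p, hp, hx⟩ := Algebra.IsAlgebraic.isAlgebraic (R := B) x
      have e : (lgen P).toRingHom.comp (algebraMap B _) = algebraMap B Ω := (lgen P).comp_algebraMap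
      refine ⟨p.map (algebraMap B _), (Polynomial.map_ne_zero_iff ?_).2 hp, ?_⟩
      · refine Function.Injective.of_comp (f := (lgen P).toRingHom) ?_
        rw [← RingHom.coe_comp, e]
        exact FaithfulSMul.algebraMap_injective B Ω
      · rw [Polynomial.eval₂_map, e]; exact hx
  have hg' (x) : g (lgen P x) = φ (lcl P b hu x) := RingHom.congr_fun hg x
  let g' : Ω →ₐ[B] K := ⟨g, fun r => by
    have := hg' (algebraMap B _ r)
    rwa [AlgHom.commutes, AlgHom.commutes, AlgHom.commutes] at this⟩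
  have := (aic_field Ω).shl
  have h5 := rig u hF.2 g' (by
    rw [maximalIdeal_eq_bot]; exact (RingHom.injective_iff_ker_eq_bot _).1 g.injective)
    (by simpa using (unit_loc P hl).map (lgen P))
  rw [← Function.Bijective.of_comp_iff' h5]
  have e : rs u F.obj g' ∘ rs u F.obj (lgen P) = rs u F.obj φ ∘ rs u F.obj (lcl P b hu) :=
    funext fun s => by
      simp only [Function.comp, rs_rs]
      exact rs_congr u _ (AlgHom.ext hg') s
  exact e ▸ h3.comp h4
end

omit [Algebra.IsAlgebraic B Ω] in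
theorem lis_of_gen {F : Sh (Scheme.etaleTopology.over X)} (hF : Cc l F)
    (h : ∀ (P : Ideal (integralClosure B Ω)) [P.IsPrime], (l : integralClosure B Ω) ∉ P →
      Function.Bijective (rs u F.obj (lgen P))) : Lis l F.obj (ob u B) := by
  refine Lis.of_ring u fun C K _ _ _ _ _ _ _ _ _ hC hl => ?_
  have := hC.shl
  have := aic_frac hC K
  have := (aic_field K).shl
  have : (RingHom.ker (algebraMap B C)).IsPrime := RingHom.ker_isPrime _
  obtain ⟨P', -, hP', h1⟩ := Ideal.exists_ideal_over_prime_of_isIntegral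
    (S := integralClosure B Ω) (RingHom.ker (algebraMap B C)) ⊥ (by
      intro x hx
      obtain rfl : x = 0 := FaithfulSMul.algebraMap_injective B Ω
        ((congrArg Subtype.val (Ideal.mem_bot.1 hx)).trans (map_zero _).symm)
      exact zero_mem _)
  obtain ⟨b, rfl⟩ := exists_lift hC P' h1
  let P := (maximalIdeal C).comap b
  have hP : P.IsPrime := Ideal.comap_isPrime _ _
  have hle : RingHom.ker b ≤ P := fun x hx => by
    rw [Ideal.mem_comap, (RingHom.mem_ker.1 hx : b x = 0)]; exact zero_mem _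
  have hlP : (l : integralClosure B Ω) ∉ P := fun h' => by
    rw [Ideal.mem_comap, map_natCast] at h'
    exact (mem_maximalIdeal _).1 h' hl
  have := loc_shl P
  have := loc_shl (RingHom.ker b)
  have hu : ∀ x ∉ P, IsUnit (b x) := fun x hx => by
    by_contra hn
    exact hx ((mem_maximalIdeal _).2 hn)
  have h2 := loc_bij u hF (lcl P b hu) (lcl_max P b hu fun x hx => (mem_maximalIdeal _).1 hx)
    (unit_loc P hlP)
  have hinj := IsFractionRing.injective C K
  have hv : ∀ x ∉ RingHom.ker b, IsUnit (((up B C K).comp b) x) := fun x hx =>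
    IsUnit.mk0 _ fun h0 => hx (hinj (h0.trans (map_zero _).symm))
  have h3 := loc_bij u hF (lcl _ _ hv) (lcl_max _ _ hv fun x hx => by
    rw [AlgHom.comp_apply, (RingHom.mem_ker.1 hx : b x = 0), map_zero]; exact not_isUnit_zero)
    (unit_loc _ fun h' => hlP (hle h'))
  have h4 : Function.Bijective (rs u F.obj (lgn hle)) := by
    rw [← Function.Bijective.of_comp_iff' (h _ fun h' => hlP (hle h')), rs_comp, gen_gn]
    exact h P hlP
  rw [← Function.Bijective.of_comp_iff _ h2]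
  have e : rs u F.obj (up B C K) ∘ rs u F.obj (lcl P b hu) =
      rs u F.obj (lcl _ _ hv) ∘ rs u F.obj (lgn hle) := funext fun s => by
    simp only [Function.comp, rs_rs]
    refine rs_congr u _ (lcl_ext P fun x => ?_) s
    rw [AlgHom.comp_apply, AlgHom.comp_apply, lcl_alg, lgn, lcl_alg]
    exact (lcl_alg _ _ hv x).symm
  exact e ▸ h3.comp h4

theorem lis_of_test {F : Sh (Scheme.etaleTopology.over X)} (hF : Cc l F)
    (h : ∀ P : Ideal (integralClosure B Ω), P.IsPrime → (l : integralClosure B Ω) ∉ P →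
      Tst u Ω F P) : Lis l F.obj (ob u B) :=
  lis_of_gen u Ω hF fun P hP hl => Tst.gen_bij u P hF hl (h P hP hl)

omit [FaithfulSMul B Ω] [Algebra.IsAlgebraic B Ω] in
lemma aic_plus : Aic (integralClosure B Ω) :=
  have := IsLocalization.self (R := integralClosure B Ω) (M := ⊥) bot_le
  loc_aic (B := B) (Ω := Ω) (⊥ : Submonoid (integralClosure B Ω)) _

/-- The generic point as a map of `B⁺`-algebras. -/
noncomputable def genA {Ω : Type} [Field Ω] [Algebra B Ω] (Q : Ideal (integralClosure B Ω))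
    [Q.IsPrime] : Localization.AtPrime Q →ₐ[integralClosure B Ω] Ω := ⟨lgen Q, gen_alg Q⟩

omit [FaithfulSMul B Ω] [Algebra.IsAlgebraic B Ω] in
variable {Ω} in
lemma gen_pt [IsJacobsonRing (integralClosure B Ω)] {F : Sh (Scheme.etaleTopology.over X)} (hF : Cc l F)
    (hm : ∀ (Q : Ideal (integralClosure B Ω)) [Q.IsMaximal], (l : integralClosure B Ω) ∉ Q →
      Function.Bijective (rs u F.obj (lgen Q)))
    (E : EtA B (integralClosure B Ω)) (hl : IsUnit (l : E.E)) (t : F.obj.obj (op (ob u E.E)))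
    (h0 : ∀ e : E.E →ₐ[integralClosure B Ω] Ω, rs u F.obj (e.restrictScalars B) t = 0) :
    t = 0 := by
  refine pt_ring u hF hl t fun m hm' => ?_
  obtain ⟨k, _, _, _, _, _, τ, hτ, Q, hQ, hk⟩ := exists_closed_pt (B := B)
    (A := integralClosure B Ω) m
  refine ⟨k, _, inferInstance, _, τ.restrictScalars B, hτ, ?_⟩
  have hlQ : (l : integralClosure B Ω) ∉ Q := fun h' => by
    have h1 := (hk _).2 h'
    rw [map_natCast, ← map_natCast τ] at h1
    exact (hl.map τ).ne_zero h1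
  have := loc_shl Q
  obtain ⟨r, hr⟩ := lcl_pt Q hk
  obtain ⟨σ, hσ⟩ := SHL.lift_etale r τ
  have h6 : rs u F.obj (σ.restrictScalars B) t = 0 := (hm Q hlQ).1 (by
    rw [map_zero, rs_rs]
    exact h0 ((genA Q).comp σ))
  have := congrArg (rs u F.obj (r.restrictScalars B)) h6
  rw [map_zero, rs_rs] at this
  rw [← this]
  exact rs_congr u _ (AlgHom.ext fun x => (AlgHom.congr_fun hσ x).symm) _

variable {Ω} in
lemma gen_zero [IsJacobsonRing (integralClosure B Ω)] {F : Sh (Scheme.etaleTopology.over X)} (hF : Cc l F)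
    (hm : ∀ (Q : Ideal (integralClosure B Ω)) [Q.IsMaximal], (l : integralClosure B Ω) ∉ Q →
      Function.Bijective (rs u F.obj (lgen Q)))
    (P : Ideal (integralClosure B Ω)) [P.IsPrime] (hl : (l : integralClosure B Ω) ∉ P)
    (E : EtA B (integralClosure B Ω)) (ψ : E.E →ₐ[integralClosure B Ω] Localization.AtPrime P)
    (t : F.obj.obj (op (ob u E.E)))
    (hs : rs u F.obj (lgen P) (rs u F.obj (ψ.restrictScalars B) t) = 0) :
    rs u F.obj (ψ.restrictScalars B) t = 0 := by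
  have : IsIntegrallyClosed (integralClosure B Ω) :=
    (isIntegrallyClosed_iff (FractionRing (integralClosure B Ω))).2 fun {x} hx =>
      aic_root (aic_plus Ω) x hx
  have : Algebra.IsAlgebraic (integralClosure B Ω) Ω :=
    Algebra.IsAlgebraic.extendScalars (R := B) (fun x y h =>
      FaithfulSMul.algebraMap_injective B Ω (congrArg Subtype.val h))
  obtain ⟨ε, h1, h2⟩ := exists_component ((genA P).comp ψ)
  have h3 : ψ ε = 1 := gen_inj P (h1.trans (map_one _).symm)
  let D := Localization.Away ((l : E.E) * ε)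
  have : Algebra.Etale E.E D := .of_isLocalizationAway ((l : E.E) * ε)
  have : Algebra.Etale (integralClosure B Ω) D := .comp _ E.E D
  have hU : IsUnit (algebraMap E.E D (l * ε)) := IsLocalization.Away.algebraMap_isUnit _
  rw [map_mul, IsUnit.mul_iff, map_natCast] at hU
  obtain ⟨ψ', e⟩ := away_lift (ψ.restrictScalars B) ((l : E.E) * ε) (by
    rw [map_mul, map_natCast, show ψ.restrictScalars B ε = 1 from h3, mul_one]
    exact unit_loc P hl)
  rw [e, ← rs_rs, gen_pt u hF hm ⟨D⟩ hU.1 (rs u F.obj (up B E.E D) t) fun e₁ => ?_, map_zero]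
  obtain ⟨g, hg⟩ := conj_of_ker _ (e₁.comp (IsScalarTower.toAlgHom _ E.E D))
    (h2 _ (hU.2.map e₁).ne_zero)
  have := congrArg (rs u F.obj ((g : Ω →ₐ[integralClosure B Ω] Ω).restrictScalars B)) hs
  rw [map_zero, rs_rs, rs_rs] at this
  rw [rs_rs, ← this]
  exact rs_congr u _ (AlgHom.ext fun x => (hg x).symm) t

theorem lis_of_test_max [IsJacobsonRing B] {F : Sh (Scheme.etaleTopology.over X)} (hF : Cc l F)
    (h : ∀ P : Ideal (integralClosure B Ω), P.IsMaximal → (l : integralClosure B Ω) ∉ P →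
      Tst u Ω F P) : Lis l F.obj (ob u B) := by
  have hJ : IsJacobsonRing (integralClosure B Ω) := isJacobsonRing_of_isIntegral (R := B)
  have hm (Q : Ideal (integralClosure B Ω)) [hQ : Q.IsMaximal] (hl : (l : integralClosure B Ω) ∉ Q) :=
    Tst.gen_bij u Q hF hl (h Q hQ hl)
  refine lis_of_gen u Ω hF fun P hP hl => ⟨?_, ?_⟩
  · rw [injective_iff_map_eq_zero]
    intro s hs
    obtain ⟨E, ψ, t, rfl⟩ := ind_surj u hF.1
      (IndEt.of_isLocalization (C := Localization.AtPrime P) P.primeCompl) s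
    exact gen_zero u hF hm P hl E ψ t hs
  · obtain ⟨Q, ⟨h1, h2⟩, h3⟩ : ∃ Q ∈ {J : Ideal (integralClosure B Ω) | P ≤ J ∧ J.IsMaximal},
        (l : integralClosure B Ω) ∉ Q := by
      by_contra hn
      push Not at hn
      exact hl (isJacobsonRing_iff_prime_eq.1 hJ P hP ▸ Ideal.mem_sInf.2 fun {J} hJ => hn J hJ)
    have := (hm Q h3).2
    rw [← gen_gn h1, ← rs_comp] at this
    exact this.of_comp
end test

/-- A ring over `X` as an algebra over itself. -/
noncomputable def l2Iso {A : Type} [CommRing A] (a : Spec (.of A) ⟶ X) : ob a A ≅ Over.mk a :=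
  Over.isoMk (Iso.refl _) (by simp)

lemma Lis.of_pt {P : PSh X} {T T' : Over X} (h : Lis l P T')
    (H : ∀ (C : Type) [CommRing C] [IsDomain C] [IsLocalRing C] (a : Spec (.of C) ⟶ X), Aic C →
      (Over.mk a ⟶ T) → Nonempty (Over.mk a ⟶ T')) : Lis l P T :=
  fun C K _ _ _ _ _ _ a b e ⟨s⟩ hC => h C K a b e (H C a hC s) hC

/-- Descent along integral surjections. -/
theorem Lis.desc {P : PSh X} {T T' : Over X} (t : T' ⟶ T) [IsIntegralHom t.left]
    [Surjective t.left] (h : Lis l P T') : Lis l P T := by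
  refine h.of_pt fun C _ _ _ a hC s => ?_
  let s₀ : Spec (.of C) ⟶ T.left := s.left
  let p := pullback.fst s₀ t.left
  have : IsAffine (pullback s₀ t.left) := isAffine_of_isAffineHom p
  obtain ⟨φ, hφ⟩ := Spec.map_surjective ((pullback s₀ t.left).isoSpec.inv ≫ p)
  have hi : φ.hom.IsIntegral := IsIntegralHom.SpecMap_iff.1 (by rw [hφ]; infer_instance)
  have hs : Surjective (Spec.map φ) := by rw [hφ]; infer_instance
  obtain ⟨z, hz⟩ := (Spec.map φ).surjective (⟨⊥, Ideal.isPrime_bot⟩ : PrimeSpectrum C)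
  let _ := φ.hom.toAlgebra
  have : Algebra.IsIntegral C Γ(pullback s₀ t.left, ⊤) := ⟨hi⟩
  have := z.isPrime
  obtain ⟨b, -⟩ := exists_lift (R := C) hC z.asIdeal (by
    rw [show RingHom.ker (algebraMap C C) = ⊥ from
      (RingHom.injective_iff_ker_eq_bot _).1 fun _ _ h => h]
    exact congrArg PrimeSpectrum.asIdeal hz)
  refine ⟨Over.homMk (Spec.map (CommRingCat.ofHom (b : _ →+* C)) ≫
    (pullback s₀ t.left).isoSpec.inv ≫ pullback.snd _ _) ?_⟩
  have e : φ ≫ CommRingCat.ofHom (b : _ →+* C) = 𝟙 _ := by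
    ext x; exact b.commutes x
  rw [← Over.w t]
  simp only [Category.assoc]
  rw [← pullback.condition_assoc, ← Category.assoc (Iso.inv _), hφ.symm, ← Category.assoc,
    ← Spec.map_comp, e, Spec.map_id]
  exact (Category.id_comp _).trans (Over.w s)

/-- Lisse-ness is local for the Zariski (and etale) topology. -/
theorem Lis.of_cover {P : PSh X} {T : Over X} {S : Sieve T} (hS : S ∈ Scheme.etaleTopology.over X T)
    (h : ∀ ⦃V⦄ (v : V ⟶ T), S v → Lis l P V) : Lis l P T := by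
  intro C K _ _ _ _ _ _ a b e ⟨s⟩ hC
  have := hC.shl
  obtain ⟨E, hE, hv⟩ := of_mem_cov a ((Scheme.etaleTopology.over X).pullback_stable ((l2Iso a).hom ≫ s) hS)
    (maximalIdeal C)
  obtain ⟨σ, -⟩ := E.sec hE
  exact h _ hv C K a b e ⟨(l2Iso a).inv ≫ hm a σ⟩ hC

lemma bij_of_app {P Q : PSh X} (α : P ⟶ Q) {T T' : Over X} (g : T' ⟶ T)
    (h : Function.Bijective (α.app (op T))) (h' : Function.Bijective (α.app (op T'))) :
    Function.Bijective (P.map g.op) ↔ Function.Bijective (Q.map g.op) := by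
  have e : (α.app (op T')) ∘ (P.map g.op) = (Q.map g.op) ∘ (α.app (op T)) :=
    funext fun s => map_nat α g s
  rw [← Function.Bijective.of_comp_iff' h', e, Function.Bijective.of_comp_iff _ h]

theorem Lis.of_iso {P Q : PSh X} (e : P ≅ Q) {T : Over X} (h : Lis l P T) : Lis l Q T :=
  fun C K _ _ _ _ _ _ a b w s hC hl =>
    (bij_of_app e.hom _ (ConcreteCategory.bijective_of_isIso _)
      (ConcreteCategory.bijective_of_isIso _)).1 (h C K a b w s hC hl)

/-- Pull-back along `f : Y ⟶ X`, on presheaves. -/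
theorem Lis.map_iff {Y : Scheme.{0}} (f : Y ⟶ X) (P : PSh X) (T : Over Y) :
    Lis l ((Over.map f).op ⋙ P) T ↔ Lis l P ((Over.map f).obj T) := by
  refine ⟨fun h C K _ _ _ _ _ _ a b w ⟨s⟩ hC hl => ?_, fun h C K _ _ _ _ _ _ a b w ⟨s⟩ hC hl => ?_⟩
  · obtain ⟨s₀, rfl⟩ : ∃ s₀ : Spec (.of C) ⟶ T.left, (s₀ ≫ T.hom) ≫ f = a :=
      ⟨s.left, (Category.assoc _ _ _).trans (Over.w s)⟩
    obtain rfl : (Spec.map (CommRingCat.ofHom (algebraMap C K)) ≫ s₀ ≫ T.hom) ≫ f = b :=
      (Category.assoc _ _ _).trans w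
    exact h C K (s₀ ≫ T.hom) _ rfl ⟨Over.homMk s₀⟩ hC hl
  · exact h C K (a ≫ f) (b ≫ f) (by rw [← w, Category.assoc]) ⟨(Over.map f).map s⟩ hC hl

/-- Sections over `T` preserve epimorphisms. -/
def ExPt (T : Over X) : Prop :=
  ∀ ⦃G G' : Sh (Scheme.etaleTopology.over X)⦄ (φ : G ⟶ G') [Epi φ], Function.Surjective (φ.hom.app (op T))

lemma pt_shl {A : Type} [CommRing A] [SHL A] (a : Spec (.of A) ⟶ X) : ExPt (Over.mk a) := by
  intro G G' φ _ s
  obtain ⟨t, ht⟩ := shl_lift a φ (G'.obj.map (l2Iso a).hom.op s)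
  exact ⟨G.obj.map (l2Iso a).inv.op t, by rw [map_nat, ht, res_res, Iso.inv_hom_id, res_id]⟩

lemma ExPt.exact {T : Over X} (h : ExPt T) {S : ShortComplex (Sh (Scheme.etaleTopology.over X))} (hS : S.Exact) :
    Function.Exact (S.f.hom.app (op T)).hom (S.g.hom.app (op T)).hom := by
  intro y
  have := hS.epi_kernelLift
  have h1 := (sec_exact (S := ShortComplex.mk _ _ (kernel.condition S.g))
    (ShortComplex.exact_of_f_is_kernel _ (kernelIsKernel _)) T).2 y
  have e (x) : (kernel.ι S.g).hom.app (op T) ((kernel.lift S.g S.f S.zero).hom.app (op T) x) =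
      S.f.hom.app (op T) x := by
    conv_rhs => rw [← kernel.lift_ι S.g S.f S.zero]
    rfl
  refine h1.trans ⟨?_, ?_⟩
  · rintro ⟨x, rfl⟩
    obtain ⟨x, rfl⟩ := h (kernel.lift S.g S.f S.zero) x
    exact ⟨x, (e x).symm⟩
  · rintro ⟨x, rfl⟩
    exact ⟨_, e x⟩

variable {T : Over X}

theorem Lis.zero {F : Sh (Scheme.etaleTopology.over X)} (hF : IsZero F) : Lis l F.obj T := by
  have z (W : Over X) (s : F.obj.obj (op W)) : s = 0 := by
    obtain ⟨s, rfl⟩ := (frEquiv W _).surjective s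
    rw [hF.eq_of_tgt s 0, map_zero]
  exact fun C K _ _ _ _ _ _ a b w s hC hl =>
    ⟨fun x y _ => (z _ x).trans (z _ y).symm, fun y => ⟨0, (z _ _).trans (z _ y).symm⟩⟩

theorem Lis.five' {F₁ F₂ F₃ F₄ F₅ : Sh (Scheme.etaleTopology.over X)} {a : F₁ ⟶ F₂} {b : F₂ ⟶ F₃} {c : F₃ ⟶ F₄}
    {d : F₄ ⟶ F₅} {w₁ : a ≫ b = 0} {w₂ : b ≫ c = 0} {w₃ : c ≫ d = 0}
    (e₁ : (ShortComplex.mk a b w₁).Exact) (e₂ : (ShortComplex.mk b c w₂).Exact)
    (e₃ : (ShortComplex.mk c d w₃).Exact) (h1 : Lis l F₁.obj T) (h2 : Lis l F₂.obj T)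
    (h4 : Lis l F₄.obj T) (h5 : Lis l F₅.obj T) : Lis l F₃.obj T := by
  intro C K _ _ _ _ _ _ x y w s hC hl
  have := hC.shl
  have := aic_frac hC K
  have := (aic_field K).shl
  have p := pt_shl x
  have q := pt_shl y
  have n {F G : Sh (Scheme.etaleTopology.over X)} (α : F ⟶ G) : (α.hom.app (op (Over.mk y))).hom.comp
      (F.obj.map (sph _ w).op).hom = (G.obj.map (sph _ w).op).hom.comp
        (α.hom.app (op (Over.mk x))).hom := AddMonoidHom.ext fun s => map_nat α.hom _ s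
  exact AddMonoidHom.bijective_of_surjective_of_bijective_of_bijective_of_injective
    _ _ _ _ _ _ _ _ _ _ _ _ _ (n a) (n b) (n c) (n d) (p.exact e₁) (p.exact e₂) (p.exact e₃)
    (q.exact e₁) (q.exact e₂) (q.exact e₃) (h1 C K x y w s hC hl).2 (h2 C K x y w s hC hl)
    (h4 C K x y w s hC hl) (h5 C K x y w s hC hl).1

open ZeroObject in
theorem Lis.left {S : ShortComplex (Sh (Scheme.etaleTopology.over X))} (hS : S.Exact) [Mono S.f] (h2 : Lis l S.X₂.obj T)
    (h3 : Lis l S.X₃.obj T) : Lis l S.X₁.obj T :=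
  Lis.five' (F₁ := 0) (F₂ := 0) (a := 0) (b := 0) (w₁ := zero_comp) (w₂ := zero_comp)
    (ShortComplex.exact_of_isZero_X₂ _ (isZero_zero _))
    ((ShortComplex.exact_iff_mono _ rfl).2 ‹_›) hS (Lis.zero (isZero_zero _))
    (Lis.zero (isZero_zero _)) h2 h3

open ZeroObject in
theorem Lis.right {S : ShortComplex (Sh (Scheme.etaleTopology.over X))} (hS : S.Exact) [Epi S.g] (h1 : Lis l S.X₁.obj T)
    (h2 : Lis l S.X₂.obj T) : Lis l S.X₃.obj T :=
  Lis.five' (F₄ := 0) (F₅ := 0) (c := 0) (d := 0) (w₂ := comp_zero) (w₃ := comp_zero) hS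
    ((ShortComplex.exact_iff_epi _ rfl).2 ‹_›)
    (ShortComplex.exact_of_isZero_X₂ _ (isZero_zero _)) h1 h2 (Lis.zero (isZero_zero _))
    (Lis.zero (isZero_zero _))

theorem Lis.kernel {F G : Sh (Scheme.etaleTopology.over X)} (φ : F ⟶ G) (hF : Lis l F.obj T) (hG : Lis l G.obj T) :
    Lis l (kernel φ).obj T :=
  Lis.left (S := ShortComplex.mk _ _ (kernel.condition φ))
    (ShortComplex.exact_of_f_is_kernel _ (kernelIsKernel _)) hF hG

theorem Lis.cokernel {F G : Sh (Scheme.etaleTopology.over X)} (φ : F ⟶ G) (hF : Lis l F.obj T) (hG : Lis l G.obj T) :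
    Lis l (cokernel φ).obj T :=
  Lis.right (S := ShortComplex.mk _ _ (cokernel.condition φ))
    (ShortComplex.exact_of_g_is_cokernel _ (cokernelIsCokernel _)) hF hG

theorem Lis.X₁ {S : ShortComplex (Sh (Scheme.etaleTopology.over X))} (hS : S.ShortExact) (h2 : Lis l S.X₂.obj T)
    (h3 : Lis l S.X₃.obj T) : Lis l S.X₁.obj T :=
  have := hS.mono_f
  Lis.left hS.exact h2 h3

open ZeroObject in
theorem Lis.X₂ {S : ShortComplex (Sh (Scheme.etaleTopology.over X))} (hS : S.ShortExact) (h1 : Lis l S.X₁.obj T)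
    (h3 : Lis l S.X₃.obj T) : Lis l S.X₂.obj T :=
  Lis.five' (F₁ := 0) (F₅ := 0) (a := 0) (d := 0) (w₁ := zero_comp) (w₃ := comp_zero)
    ((ShortComplex.exact_iff_mono _ rfl).2 hS.mono_f) hS.exact
    ((ShortComplex.exact_iff_epi _ rfl).2 hS.epi_g) (Lis.zero (isZero_zero _)) h1 h3
    (Lis.zero (isZero_zero _))

theorem Lis.X₃ {S : ShortComplex (Sh (Scheme.etaleTopology.over X))} (hS : S.ShortExact) (h1 : Lis l S.X₁.obj T)
    (h2 : Lis l S.X₂.obj T) : Lis l S.X₃.obj T :=
  have := hS.epi_g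
  Lis.right hS.exact h1 h2

/-- Five lemma form. -/
theorem Lis.five {F₁ F₂ F₃ F₄ F₅ : Sh (Scheme.etaleTopology.over X)} {a : F₁ ⟶ F₂} {b : F₂ ⟶ F₃} {c : F₃ ⟶ F₄}
    {d : F₄ ⟶ F₅} {w₁ : a ≫ b = 0} {w₂ : b ≫ c = 0} {w₃ : c ≫ d = 0}
    (e₁ : (ShortComplex.mk a b w₁).Exact) (e₂ : (ShortComplex.mk b c w₂).Exact)
    (e₃ : (ShortComplex.mk c d w₃).Exact) (h1 : Lis l F₁.obj T) (h2 : Lis l F₂.obj T)
    (h4 : Lis l F₄.obj T) (h5 : Lis l F₅.obj T) : Lis l F₃.obj T :=
  Lis.five' e₁ e₂ e₃ h1 h2 h4 h5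

theorem Lis.biprod {F G : Sh (Scheme.etaleTopology.over X)} (hF : Lis l F.obj T) (hG : Lis l G.obj T) :
    Lis l (F ⊞ G).obj T :=
  Lis.X₂ (ShortComplex.Splitting.ofHasBinaryBiproduct F G).shortExact hF hG

lemma l2_ez_bij (U : X.Opens) (F : Sh (Scheme.etaleTopology.over X)) {W : Over X} (hW : (ovU U).mem W) :
    Function.Bijective (((ezι U).app F).hom.app (op W)) :=
  ⟨Subtype.val_injective, fun s => ⟨⟨s, (Scheme.etaleTopology.over X).superset_covering
    (fun _ y _ => Or.inr ((ovU U).down y hW)) ((Scheme.etaleTopology.over X).top_mem W)⟩, rfl⟩⟩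

/-- On `U` the extension by zero is lisse when `F` is. -/
theorem Lis.ez (U : X.Opens) {F : Sh (Scheme.etaleTopology.over X)} (hT : (ovU U).mem T) :
    Lis l ((ez U).obj F).obj T ↔ Lis l F.obj T := by
  have k {W W' : Over X} (g : W' ⟶ W) (s : W ⟶ T) := bij_of_app ((ezι U).app F).hom g
    (l2_ez_bij U F ((ovU U).down s hT)) (l2_ez_bij U F ((ovU U).down (g ≫ s) hT))
  exact ⟨fun h C K _ _ _ _ _ _ a b w ⟨s⟩ hC hl => (k _ s).1 (h C K a b w ⟨s⟩ hC hl),
    fun h C K _ _ _ _ _ _ a b w ⟨s⟩ hC hl => (k _ s).2 (h C K a b w ⟨s⟩ hC hl)⟩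

end Pool.Agent.MP_855f4c_ag.E4

end
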