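import Pool.Agent.MP_855f4c_ag.EC.F2c
import Pool.Agent.MP_855f4c_ag.EC.F2b
import Pool.Agent.MP_855f4c_ag.EC.F1b
import Pool.Agent.MP_855f4c_ag.EC.Sa

section

set_option backward.isDefEq.respectTransparency false

open CategoryTheory Limits Opposite AlgebraicGeometry Abelian

namespace Pool.Agent.MP_855f4c_ag.E

open E3

variable {X : Scheme.{0}} {l : ℕ}

namespace CLM

lemma sec_ext (F : Sh (Scheme.etaleTopology.over X)) {T : Over X} {a b : F.obj.obj (op T)}
    (h : ∀ t : T.left, ∃ (V : Over X) (v : V ⟶ T), Etale v.left ∧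
      F.obj.map v.op a = F.obj.map v.op b ∧ t ∈ Set.range v.left) : a = b :=
  sep F (S := Presheaf.equalizerSieve (F := F.obj) (X := op T) a b) (mem_Jov_of _ h)
    fun _ _ h => h

lemma cov_fin (T : Over X) [CompactSpace T.left] (Q : ∀ V, (V ⟶ T) → Prop)
    (h : ∀ t : T.left, ∃ (V : Over X) (v : V ⟶ T), IsAffine V.left ∧ Etale v.left ∧ Q V v ∧
      t ∈ Set.range v.left) :
    ∃ (ι : Type) (_ : Finite ι) (V : ι → Over X) (v : ∀ i, V i ⟶ T),
      (∀ i, IsAffine (V i).left) ∧ (∀ i, Etale (v i).left) ∧ (∀ i, Q _ (v i)) ∧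
      ∀ t, ∃ i, t ∈ Set.range (v i).left := by
  choose V v h1 h2 h3 h4 using h
  obtain ⟨s, hs⟩ := isCompact_univ.elim_finite_subcover (fun u => Set.range (v u).left)
    (fun u => (v u).left.isOpenMap.isOpen_range) fun u _ => Set.mem_iUnion.2 ⟨u, h4 u⟩
  refine ⟨s, inferInstance, fun i => V i, fun i => v i, fun i => h1 i, fun i => h2 i,
    fun i => h3 i, fun t => ?_⟩
  obtain ⟨i, hi, h⟩ := Set.mem_iUnion₂.1 (hs (Set.mem_univ t))
  exact ⟨⟨i, hi⟩, h⟩

lemma desc1 (F : Sh (Scheme.etaleTopology.over X)) {V T : Over X} (p : V ⟶ T) (h : Cov (Scheme.etaleTopology.over X) p)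
    (τ : F.obj.obj (op V))
    (e : F.obj.map (pullback.fst p p).op τ = F.obj.map (pullback.snd p p).op τ) :
    ∃ σ, F.obj.map p.op σ = τ := by
  obtain ⟨σ, hσ⟩ := glue F.property
    (fun Y (y : Y ⟶ T) x => ∃ a : Y ⟶ V, a ≫ p = y ∧ F.obj.map a.op τ = x) _ h
    (by rintro W _ ⟨_, g, _, ⟨⟩, rfl⟩; exact ⟨_, g, rfl, rfl⟩)
    (by rintro Z Y g _ _ ⟨a, rfl, rfl⟩; exact ⟨g ≫ a, Category.assoc .., (res_res ..).symm⟩)
    (by
      rintro Y _ _ _ ⟨a, rfl, rfl⟩ ⟨b, h, rfl⟩
      have := congrArg (F.obj.map (pullback.lift a b h.symm).op) e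
      rwa [res_res, res_res, pullback.lift_fst, pullback.lift_snd] at this)
  exact ⟨σ, hσ _ _ ⟨𝟙 _, Category.id_comp _, res_id ..⟩⟩

lemma cd_nat {V U : Over X} {p : V ⟶ U} (N : Cech p) {P Q : PSh X} (φ : P ⟶ Q) (n : ℕ)
    (s : P.obj (op (N.X n))) : φ.app _ (N.cd P n s) = N.cd Q n (φ.app _ s) := by
  simp only [Cech.cd, map_sum, map_zsmul, nat]

section
variable {D : Type 1} [SmallCategory D] [IsFiltered D] {G : D ⥤ Sh (Scheme.etaleTopology.over X)} {c : Cocone G}

omit [IsFiltered D] in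
lemma up (c : Cocone G) {d e : D} (f : d ⟶ e) (T) (x : (G.obj d).obj.obj T) :
    (c.ι.app e).hom.app T ((G.map f).hom.app T x) = (c.ι.app d).hom.app T x :=
  congr(($(c.w f)).hom.app T x)

omit [IsFiltered D] in
lemma mapmap {d e k : D} (f : d ⟶ e) (g : e ⟶ k) (T) (x : (G.obj d).obj.obj T) :
    (G.map (f ≫ g)).hom.app T x = (G.map g).hom.app T ((G.map f).hom.app T x) := by
  rw [G.map_comp]; rfl

lemma bound {D : Type 1} [Category.{1} D] [IsFiltered D] {ι : Type} [Finite ι] (d : ι → D) :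
    ∃ e, ∀ i, Nonempty (d i ⟶ e) := by
  classical
  have := Fintype.ofFinite ι
  obtain ⟨e, he⟩ := IsFiltered.sup_objs_exists (Finset.univ.image d)
  exact ⟨e, fun i => he (Finset.mem_image_of_mem _ (Finset.mem_univ i))⟩

lemma secZero (hc : IsColimit c) (T : Over X) [CompactSpace T.left] (d : D)
    (x : (G.obj d).obj.obj (op T)) (hx : (c.ι.app d).hom.app _ x = 0) :
    ∃ (e : D) (f : d ⟶ e), (G.map f).hom.app _ x = 0 := by
  have := (colim_locBij hc).1
  obtain ⟨ι, _, V, v, -, h2, h3, h4⟩ := cov_fin T _ (exists_of_mem_Jov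
    (Presheaf.equalizerSieve_mem (Scheme.etaleTopology.over X) (colimit.desc (G ⋙ sheafToPresheaf _ _)
      ((sheafToPresheaf _ _).mapCocone c))
      ((colimit.ι (G ⋙ sheafToPresheaf _ _) d).app (op T) x) 0
      (congr(($(colimit.ι_desc ((sheafToPresheaf _ _).mapCocone c) d)).app (op T) x).trans
        (hx.trans (map_zero _).symm))))
  have h5 : ∀ i, ∃ (e : D) (f : d ⟶ e),
      (G.map f).hom.app _ ((G.obj d).obj.map (v i).op x) = 0 := fun i => by
    obtain ⟨e, f, g, h⟩ := (Concrete.isColimit_rep_eq_iff_exists _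
      (isColimitOfPreserves ((evaluation _ _).obj (op (V i)))
        (colimit.isColimit (G ⋙ sheafToPresheaf _ _))) (i := d) (j := d)
      ((G.obj d).obj.map (v i).op x) 0).1
      ((nat (colimit.ι (G ⋙ sheafToPresheaf _ _) d) (v i) x).trans
        ((h3 i).trans ((map_zero _).trans (map_zero _).symm)))
    exact ⟨e, f, h.trans (map_zero _)⟩
  choose e f hf using h5
  obtain ⟨k, hk⟩ := bound fun i => (Under.mk (f i) : Under d)
  refine ⟨k.right, k.hom, sec_ext _ fun t => ?_⟩
  obtain ⟨i, hi⟩ := h4 t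
  obtain ⟨g⟩ := hk i
  refine ⟨V i, v i, h2 i, ?_, hi⟩
  have hg : f i ≫ g.right = k.hom := Under.w g
  rw [← nat, ← hg, mapmap, hf, map_zero, map_zero]

lemma secSurj (hc : IsColimit c) (T : Over X) [IsAffine T.left] (y : c.pt.obj.obj (op T)) :
    ∃ (d : D) (x : (G.obj d).obj.obj (op T)), (c.ι.app d).hom.app _ x = y := by
  have := (colim_locBij hc).2
  obtain ⟨ι, _, V, v, h1, h2, h3, h4⟩ := cov_fin T _ (exists_of_mem_Jov
    (Presheaf.imageSieve_mem (Scheme.etaleTopology.over X) (colimit.desc (G ⋙ sheafToPresheaf _ _)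
      ((sheafToPresheaf _ _).mapCocone c)) y))
  have h5 : ∀ i, ∃ (d : D) (x : (G.obj d).obj.obj (op (V i))),
      (c.ι.app d).hom.app _ x = c.pt.obj.map (v i).op y := fun i => by
    obtain ⟨z, hz⟩ := h3 i
    obtain ⟨d, x, rfl⟩ := Concrete.isColimit_exists_rep _
      (isColimitOfPreserves ((evaluation _ _).obj (op (V i)))
        (colimit.isColimit (G ⋙ sheafToPresheaf _ _))) z
    exact ⟨d, x, congr(($(colimit.ι_desc ((sheafToPresheaf _ _).mapCocone c) d)).app
      (op (V i)) x).symm.trans hz⟩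
  choose d x hx using h5
  obtain ⟨e, he⟩ := bound d
  obtain ⟨τ, hτ⟩ := sgm_lift V v (c.ι.app e) y fun i =>
    ⟨(G.map (he i).some).hom.app _ (x i), (up c (he i).some _ _).trans (hx i)⟩
  have := sgmDesc_etale V v h2
  have := sgmDesc_surj V v h4
  have hV : Aff X (sgm V) := inferInstanceAs (IsAffine (∐ fun i => (V i).left))
  generalize sgmDesc V v = p at *
  have : IsAffine (pullback p p).left := aff_pb p p hV ‹_› hV
  obtain ⟨k, f, hf⟩ := secZero hc (pullback p p) e
    ((G.obj e).obj.map (pullback.fst p p).op τ - (G.obj e).obj.map (pullback.snd p p).op τ) (by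
      rw [map_sub, nat, nat, hτ, res_res, res_res, pullback.condition, sub_self])
  rw [map_sub, nat, nat, sub_eq_zero] at hf
  obtain ⟨σ, hσ⟩ := desc1 _ p (cov_et p) _ hf
  exact ⟨k, σ, (cov_et p).inj c.pt ((nat (c.ι.app k).hom p σ).symm.trans (by
    rw [hσ, up]; exact hτ))⟩

end

instance fp (T : Over X) [IsAffine T.left] : IsFinitelyPresentable.{1} ((fr (Scheme.etaleTopology.over X)).obj T) := by
  refine isFinitelyPresentable_iff_preservesFilteredColimitsOfSize.2
    ⟨fun D _ _ => ⟨fun {G} => ⟨fun {c} hc =>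
      ⟨Types.FilteredColimit.isColimitOf' _ _ (fun y => ?_) fun d a b h => ?_⟩⟩⟩⟩
  · obtain ⟨d, x, hx⟩ := secSurj hc T (frEquiv T c.pt y)
    obtain ⟨x, rfl⟩ := (frEquiv T _).surjective x
    exact ⟨d, x, (frEquiv T c.pt).injective hx.symm⟩
  · change (fr (Scheme.etaleTopology.over X)).obj T ⟶ G.obj d at a b
    have h' : a ≫ c.ι.app d = b ≫ c.ι.app d := h
    obtain ⟨e, f, hf⟩ := secZero hc T d (frEquiv T _ (a - b)) (by
      rw [← frEquiv_post, Preadditive.sub_comp, h', sub_self, map_zero])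
    rw [← frEquiv_post, map_eq_zero_iff _ (frEquiv T _).injective, Preadditive.sub_comp,
      sub_eq_zero] at hf
    exact ⟨e, f, hf⟩

variable {D : Type 1} [SmallCategory D] [IsFiltered D] {G : D ⥤ Sh (Scheme.etaleTopology.over X)}

lemma aff (T : Over X) [IsAffine T.left] (c : Cocone G) (hc : IsColimit c) (n : ℕ) :
    ExtColim ((fr (Scheme.etaleTopology.over X)).obj T) c n := by
  refine ext_colim _ (fun E hE q x => cartan_aff (fun _ => True) (fun _ _ _ _ _ => trivial) _
    (fun V U p _ _ _ _ _ N m s hs => ?_) trivial q x) n G c hc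
  have := N.isAffine
  obtain ⟨d, a, rfl⟩ := secSurj (colimit.isColimit E) _ s
  obtain ⟨e, f, hf⟩ := secZero (colimit.isColimit E) _ d (N.cd _ _ a) ((cd_nat ..).trans hs)
  obtain ⟨t, ht⟩ := N.acy_inj (E.obj e) m _ ((cd_nat ..).symm.trans hf)
  exact ⟨_, (cd_nat N ((colimit.cocone E).ι.app e).hom _ t).symm.trans (by rw [ht, up])⟩

lemma bip {A B : Sh (Scheme.etaleTopology.over X)} {c : Cocone G} {n : ℕ} (h₁ : ExtColim A c n) (h₂ : ExtColim B c n) :
    ExtColim (A ⊞ B) c n := by
  constructor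
  · intro y
    obtain ⟨d, x, hx⟩ := h₁.1 (pre biprod.inl _ n y)
    obtain ⟨d', x', hx'⟩ := h₂.1 (pre biprod.inr _ n y)
    obtain ⟨z, hz⟩ := Ext.biprodAddEquiv.surjective
      (post _ (G.map (IsFiltered.leftToMax d d')) n x,
        post _ (G.map (IsFiltered.rightToMax d d')) n x')
    refine ⟨_, z, Ext.biprod_ext ((pre_post _ _ z).trans ?_) ((pre_post _ _ z).trans ?_)⟩
    · exact (congrArg _ (congrArg Prod.fst hz)).trans ((post_post ..).trans (by
        rw [c.w]; exact hx))
    · exact (congrArg _ (congrArg Prod.snd hz)).trans ((post_post ..).trans (by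
        rw [c.w]; exact hx'))
  · intro d x hx
    obtain ⟨e, f, h⟩ := h₁.2 d (pre biprod.inl _ n x)
      ((pre_post _ _ x).symm.trans ((congrArg _ hx).trans (map_zero _)))
    obtain ⟨e', f', h'⟩ := h₂.2 d (pre biprod.inr _ n x)
      ((pre_post _ _ x).symm.trans ((congrArg _ hx).trans (map_zero _)))
    obtain ⟨k, g, g', w⟩ := IsFiltered.span f f'
    refine ⟨k, f ≫ g, Ext.biprod_ext ((pre_post _ _ x).trans ?_) ((pre_post _ _ x).trans ?_)⟩
    · rw [G.map_comp, ← post_post, post_apply (G.map f), h, map_zero, Ext.comp_zero]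
    · rw [w, G.map_comp, ← post_post, post_apply (G.map f'), h', map_zero, Ext.comp_zero]

/-- The statement for all models of an open subset. -/
def Pr (c : Cocone G) {Y : Scheme.{0}} (S : Y.Opens) : Prop :=
  ∀ (U : Over X) (i : U.left ⟶ Y) [IsOpenImmersion i], i.opensRange = S →
    ∀ n, ExtColim ((fr (Scheme.etaleTopology.over X)).obj U) c n

lemma Pr.aff {c : Cocone G} (hc : IsColimit c) {Y : Scheme.{0}} {S : Y.Opens}
    (h : IsAffineOpen S) : Pr c S := fun U i _ e n => by
  subst e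
  have : IsAffine i.opensRange := h
  have : IsAffine U.left := .of_isIso i.isoOpensRange.hom
  exact CLM.aff U c hc n

lemma Pr.sup {c : Cocone G} {Y : Scheme.{0}} {S S' : Y.Opens} (h₁ : Pr c S) (h₂ : Pr c S')
    (h₃ : Pr c (S ⊓ S')) : Pr c (S ⊔ S') := fun U i _ e n => by
  have r : ∀ W ≤ S ⊔ S', ((i ⁻¹ᵁ W).ι ≫ i).opensRange = W := fun W hW => by
    rw [Scheme.Hom.opensRange_comp, Scheme.Opens.opensRange_ι,
      Scheme.Hom.image_preimage_eq_opensRange_inf, e, inf_eq_right.2 hW]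
  have p := IsPullback.of_hasPullback (opι U (i ⁻¹ᵁ S)) (opι U (i ⁻¹ᵁ S'))
  have o₁ : IsOpenImmersion (opι U (i ⁻¹ᵁ S)).left :=
    inferInstanceAs (IsOpenImmersion (_ : U.left.Opens).ι)
  have o₂ : IsOpenImmersion (opι U (i ⁻¹ᵁ S')).left :=
    inferInstanceAs (IsOpenImmersion (_ : U.left.Opens).ι)
  have q := isPullback_left p
  have o₃ : IsOpenImmersion (pullback.fst (opι U (i ⁻¹ᵁ S)) (opι U (i ⁻¹ᵁ S'))).left :=
    MorphismProperty.of_isPullback q.flip o₂
  refine colim_23 (mv_open p fun t => ?_) c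
    (h₃ _ ((pullback.fst (opι U (i ⁻¹ᵁ S)) _).left ≫ (opι U (i ⁻¹ᵁ S)).left ≫ i) ?_)
    (fun m => bip (h₁ _ _ (r S le_sup_left) m) (h₂ _ _ (r S' le_sup_right) m)) n
  · have : i t ∈ S ⊔ S' := e ▸ ⟨t, rfl⟩
    exact this.imp (fun h => ⟨⟨t, h⟩, rfl⟩) fun h => ⟨⟨t, h⟩, rfl⟩
  · ext y
    constructor
    · rintro ⟨z, rfl⟩
      refine ⟨((pullback.fst (opι U (i ⁻¹ᵁ S)) _).left z).2, ?_⟩
      rw [q.w_assoc]
      exact ((pullback.snd (opι U (i ⁻¹ᵁ S)) _).left z).2
    · rintro ⟨h, h'⟩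
      obtain ⟨t, rfl⟩ : y ∈ i.opensRange := e ▸ (le_sup_left : S ≤ S ⊔ S') h
      obtain ⟨z, hz, -⟩ := Scheme.exists_preimage_of_isPullback q ⟨t, h⟩ ⟨t, h'⟩ rfl
      exact ⟨z, by rw [Scheme.Hom.comp_apply, hz]; rfl⟩

lemma smul_post {C : Type 2} [Category.{1} C] [Abelian C] [HasExt.{1} C] {A F G : C} (φ : F ⟶ G)
    (m n : ℕ) (y : Ext A F n) : m • post A φ n y = post A (m • φ) n y := by
  induction m with
  | zero => rw [zero_nsmul, zero_nsmul, post_apply, Ext.mk₀_zero, Ext.comp_zero]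
  | succ m ih =>
    rw [succ_nsmul, ih]
    simp only [succ_nsmul, post_apply, Ext.mk₀_add, Ext.comp_add]

lemma union_colim {C : Type 2} [Category.{1} C] [Abelian C] [IsGrothendieckAbelian.{1} C]
    {G : D ⥤ C} (c : Cocone G) [∀ i, Mono (c.ι.app i)]
    (h : ∀ W : Subobject c.pt, (∀ i, Subobject.mk (c.ι.app i) ≤ W) → W = ⊤) :
    Nonempty (IsColimit c) := by
  have : Mono c.ι := NatTrans.mono_of_mono_app _
  have := IsFiltered.isConnected D
  have : Mono (colimit.desc G c) := colim.map_mono' c.ι (colimit.isColimit G)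
    (isColimitConstCocone _ _) _ fun j => by simp
  have : IsIso ((colimit.isColimit G).desc c) := (Subobject.isIso_iff_mk_eq_top (colimit.desc G c)).2
    (h _ fun i => Subobject.mk_le_mk_of_comm (colimit.ι G i) (colimit.ι_desc c i))
  exact ⟨(colimit.isColimit G).ofPointIso (t := c)⟩

end CLM

/-- COLIM -/
theorem colim_qcs (T : Over X) [CompactSpace T.left] [T.left.IsSeparated] {D : Type 1}
    [SmallCategory D] [IsFiltered D] {G : D ⥤ Sh (Scheme.etaleTopology.over X)} (c : Cocone G) (hc : IsColimit c)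
    (n : ℕ) : ExtColim ((fr (Scheme.etaleTopology.over X)).obj T) c n := by
  have h1 : ∀ S : T.left.Opens, IsCompact (S : Set T.left) → ∀ V, IsAffineOpen V →
      CLM.Pr c (S ⊓ V) := fun S hS => compact_open_induction_on
    (P := fun S => ∀ V, IsAffineOpen V → CLM.Pr c (S ⊓ V)) S hS
    (fun V _ => by rw [bot_inf_eq]; exact .aff hc (isAffineOpen_bot _)) fun S _ U ih V hV => by
      rw [inf_sup_right]
      refine (ih V hV).sup (.aff hc (U.2.inf hV)) ?_
      rw [inf_inf_inf_comm, inf_idem, inf_assoc]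
      exact ih _ (U.2.inf hV)
  exact compact_open_induction_on (P := CLM.Pr c) ⊤ isCompact_univ (.aff hc (isAffineOpen_bot _))
    (fun S hS U ih => ih.sup (.aff hc U.2) (h1 S hS U U.2)) T (𝟙 _)
    (eq_top_iff.2 fun t _ => ⟨t, rfl⟩) n

/-- directed unions of subsheaves: vanishing -/
theorem union_van (T : Over X) [CompactSpace T.left] [T.left.IsSeparated] (F : Sh (Scheme.etaleTopology.over X))
    {ι : Type 1} [Nonempty ι] (S : ι → Subobject F) (hS : Directed (· ≤ ·) S)
    (hU : ∀ W : Subobject F, (∀ i, S i ≤ W) → W = ⊤) (n : ℕ) (x : H T F n) :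
    ∃ i, ∃ y : H T (S i : Sh (Scheme.etaleTopology.over X)) n, y.comp (Ext.mk₀ (S i).arrow) (add_zero n) = x := by
  let := Preorder.lift S
  have : IsDirectedOrder ι := ⟨hS⟩
  let G : ι ⥤ Sh (Scheme.etaleTopology.over X) := Monotone.functor (f := S) (fun _ _ h => h) ⋙ Subobject.underlying
  let c : Cocone G := ⟨F, { app i := (S i).arrow
                            naturality i j f := by simp [G] }⟩
  have (i : ι) : Mono (c.ι.app i) := inferInstanceAs (Mono (S i).arrow)
  obtain ⟨hc⟩ := CLM.union_colim c fun W h => hU W fun i => (S i).mk_arrow.ge.trans (h i)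
  exact (colim_qcs T c hc n).1 x

theorem sigma_van (T : Over X) [CompactSpace T.left] [T.left.IsSeparated] {ι : Type 1}
    (F : ι → Sh (Scheme.etaleTopology.over X)) (n : ℕ) (h : ∀ i (x : H T (F i) n), x = 0) (x : H T (∐ F) n) : x = 0 := by
  classical
  obtain ⟨s, y, rfl⟩ := (colim_qcs T _
    (CoproductsFromFiniteFiltered.isColimitFiniteSubproductsCocone F) n).1 x
  have e : post _ (biproduct.isoCoproduct fun j : s => F j.1.as).inv n y = 0 :=
    (Ext.addEquivBiproduct _ (biproduct.isBilimit _) n).injective (funext fun j =>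
      (h _ _).trans (h _ _).symm)
  rw [(post_bij _ _ n).1 (e.trans (map_zero _).symm), Ext.zero_comp]

theorem H_tor (T : Over X) [CompactSpace T.left] [T.left.IsSeparated] {F : Sh (Scheme.etaleTopology.over X)}
    (hF : Tor l F.obj) (n : ℕ) (x : H T F n) : ∃ m : ℕ, l ^ m • x = 0 := by
  have key : ∀ {A : Sh (Scheme.etaleTopology.over X)} (a : A ⟶ F) (m k : ℕ), a ≫ (l ^ m • 𝟙 F) = 0 →
      a ≫ (l ^ (k + m) • 𝟙 F) = 0 := fun a m k h => by
    rw [pow_add, mul_smul, Preadditive.comp_nsmul, h, smul_zero]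
  obtain ⟨m, y, rfl⟩ := union_van T F (fun m : ULift.{1} ℕ => kernelSubobject (l ^ m.down • 𝟙 F))
    (fun a b => ⟨⟨a.down + b.down⟩,
      le_kernelSubobject _ _ (add_comm a.down _ ▸ key _ _ _ (kernelSubobject_arrow_comp _)),
      le_kernelSubobject _ _ (key _ _ _ (kernelSubobject_arrow_comp _))⟩)
    (fun W hW => by
      have : Epi W.arrow := Abelian.epi_of_cokernel_π_eq_zero _ (by
        ext U s
        refine CLM.sec_ext _ fun t => ?_
        obtain ⟨V, v, h1, h2, -, h3⟩ := exists_of_mem_Jov ((Scheme.etaleTopology.over X).top_mem U.unop) t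
        refine ⟨V, v, h2, ?_, h3⟩
        obtain ⟨m, hm⟩ := hF V h1 (F.obj.map v.op s)
        obtain ⟨a, ha⟩ := (frEquiv V F).surjective (F.obj.map v.op s)
        rw [← ha, ← map_nsmul, map_eq_zero_iff _ (frEquiv V F).injective] at hm
        obtain ⟨b, rfl⟩ := (Subobject.factors_iff _ _).1 (Subobject.factors_of_le a (hW ⟨m⟩)
          (kernelSubobject_factors _ a (by rw [Preadditive.comp_nsmul, Category.comp_id, hm])))
        have e : b ≫ W.arrow ≫ cokernel.π W.arrow = 0 := by rw [cokernel.condition, comp_zero]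
        exact ((nat (cokernel.π W.arrow).hom v s).symm.trans ((congrArg _ ha.symm).trans
          ((congrArg (frEquiv V _) e).trans (map_zero _)))).trans (map_zero _).symm)
      have := isIso_of_mono_of_epi W.arrow
      exact Subobject.eq_top_of_isIso_arrow W) n x
  refine ⟨m.down, (CLM.smul_post ..).trans ?_⟩
  have := kernelSubobject_arrow_comp (l ^ m.down • 𝟙 F)
  rw [Preadditive.comp_nsmul, Category.comp_id] at this
  rw [this, post_apply, Ext.mk₀_zero, Ext.comp_zero]

end Pool.Agent.MP_855f4c_ag.E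

end

section

set_option backward.isDefEq.respectTransparency false

open CategoryTheory Limits Opposite AlgebraicGeometry Abelian

namespace Pool.Agent.MP_855f4c_ag.E

open E3

variable {X : Scheme.{0}} {l : ℕ}

namespace Cart

lemma inj0 {M N : Ab.{1}} (f : M ⟶ N) (h : ∀ x, f x = 0 → x = 0) : Function.Injective f :=
  (injective_iff_map_eq_zero f.hom).2 h

lemma et_left {V U : Over X} (v : V ⟶ U) (hV : Etale V.hom) (hU : Etale U.hom) : Etale v.left := by
  rw [← Over.w v] at hV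
  exact Etale.of_comp v.left U.hom

lemma et_comp {V U : Over X} (v : V ⟶ U) (hv : Etale v.left) (hU : Etale U.hom) : Etale V.hom := by
  rw [← Over.w v]
  infer_instance

/-- Arrows that factor through an affine etale member of `S`. -/
def afS {U : Over X} (S : Sieve U) : Sieve U where
  arrows Y y := ∃ (V : Over X) (v : V ⟶ U) (w : Y ⟶ V),
    IsAffine V.left ∧ Etale v.left ∧ S v ∧ w ≫ v = y
  downward_closed := by
    rintro Y Z _ ⟨V, v, w, h1, h2, h3, rfl⟩ g
    exact ⟨V, v, g ≫ w, h1, h2, h3, Category.assoc _ _ _⟩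

lemma afS_mem {U : Over X} {S : Sieve U} (hS : S ∈ Scheme.etaleTopology.over X U) : afS S ∈ Scheme.etaleTopology.over X U :=
  mem_Jov_of _ fun t => by
    obtain ⟨V, v, h1, h2, h3, h4⟩ := exists_of_mem_Jov hS t
    exact ⟨V, v, h2, ⟨V, v, 𝟙 _, h1, h2, h3, Category.id_comp _⟩, h4⟩

lemma lanOK (X : Scheme.{0}) : LanOK (Scheme.etaleTopology.over X) (Et X) where
  term := ⟨Over.mk (𝟙 X), inferInstanceAs (Etale (𝟙 X)), ⟨Over.mkIdTerminal⟩⟩
  pb f g h1 h2 h3 := et_comp (pullback.snd f g)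
    (MorphismProperty.of_isPullback (P := @Etale) (isPullback_left (IsPullback.of_hasPullback f g))
      (et_left f h1 h2)) h3
  cov hU S hS := ⟨_, afS_mem hS, by
    rintro Y _ ⟨V, v, w, -, h2, h3, rfl⟩
    exact ⟨V, v, w, et_comp v h2 hU, h3, rfl⟩⟩

lemma shl_aff {A : Type} [CommRing A] [SHL A] {a : Spec (.of A) ⟶ X} {U : Over X}
    (g : Over.mk a ⟶ U) : ∃ (V : Over X) (v : V ⟶ U) (w : Over.mk a ⟶ V),
      IsAffine V.left ∧ Etale v.left ∧ w ≫ v = g := by
  have h := shl_sieve ((Scheme.etaleTopology.over X).pullback_stable g (afS_mem ((Scheme.etaleTopology.over X).top_mem U)))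
  obtain ⟨V, v, w, h1, h2, -, h3⟩ : (afS ⊤).pullback g (𝟙 _) := by rw [h]; trivial
  exact ⟨V, v, w, h1, h2, h3.trans (Category.id_comp _)⟩

/-- The Kan extension before sheafification. -/
noncomputable abbrev LP (G : Sh (Scheme.etaleTopology.over X)) : PSh X := (LanP (Et X)).obj G.obj

/-- The map to the sheafification. -/
noncomputable def η (G : Sh (Scheme.etaleTopology.over X)) : LP G ⟶ ((cart X).obj G).obj := toSheafify (Scheme.etaleTopology.over X) (LP G)

instance (G : Sh (Scheme.etaleTopology.over X)) : Presheaf.IsLocallyInjective (Scheme.etaleTopology.over X) (η G) :=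
  inferInstanceAs (Presheaf.IsLocallyInjective (Scheme.etaleTopology.over X) (toSheafify (Scheme.etaleTopology.over X) (LP G)))

instance (G : Sh (Scheme.etaleTopology.over X)) : Presheaf.IsLocallySurjective (Scheme.etaleTopology.over X) (η G) :=
  inferInstanceAs (Presheaf.IsLocallySurjective (Scheme.etaleTopology.over X) (toSheafify (Scheme.etaleTopology.over X) (LP G)))

lemma η_ε (G : Sh (Scheme.etaleTopology.over X)) : η G ≫ ((cartε X).app G).hom = (LanPε (Et X)).app G.obj := by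
  change toSheafify _ _ ≫ sheafifyMap (Scheme.etaleTopology.over X) ((LanPε (Et X)).app G.obj) ≫
    ((sheafificationAdjunction (Scheme.etaleTopology.over X) Ab.{1}).counit.app G).hom = _
  rw [← Category.assoc, ← toSheafify_naturality, Category.assoc]
  exact (congrArg _ ((sheafificationAdjunction (Scheme.etaleTopology.over X) Ab.{1}).right_triangle_components G)).trans
    (Category.comp_id _)

lemma exists_η (G : Sh (Scheme.etaleTopology.over X)) {U : Over X} (hU : Et X U) (t : ((cart X).obj G).obj.obj (op U)) :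
    ∃ s, (η G).app _ (lanη G.obj hU s) = t :=
  ⟨((cartε X).app G).hom.app _ t, (Lcε_bij (lanOK X) G hU).1
    ((congr($(η_ε G).app (op U) _)).trans (lanη_ε _ hU _))⟩

lemma rig (G : Sh (Scheme.etaleTopology.over X)) : Rig l (LP G) := by
  intro A k _ _ _ _ φ _ a b h _
  refine ⟨inj0 _ fun x hx => ?_, fun x => ?_⟩
  · obtain ⟨U, hU, g, s, rfl⟩ := lan_surj (lanOK X) G.obj x
    rw [res_res] at hx
    obtain ⟨U', hU', g', u, h1, h2⟩ := lan_zero (lanOK X) G.obj hU _ s hx
    have := et_left u hU' hU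
    obtain ⟨a', h3, -⟩ := shl_lift φ u.left g.left g'.left (congrArg CommaMorphism.left h1)
    have e : (Over.homMk a' (by rw [← Over.w u, ← Category.assoc, h3]; exact Over.w g) :
      Over.mk a ⟶ U') ≫ u = g := Over.OverMorphism.ext h3
    rw [← e, ← res_res, lanη_res _ hU hU', h2, map_zero, map_zero]
  · obtain ⟨U, hU, g, s, rfl⟩ := lan_surj (lanOK X) G.obj x
    have : Etale U.hom := hU
    obtain ⟨a', h3, h4⟩ := shl_lift φ U.hom a g.left ((Over.w g).trans h.symm)
    have e : sph φ h ≫ (Over.homMk a' h3 : Over.mk a ⟶ U) = g := Over.OverMorphism.ext h4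
    exact ⟨_, by rw [← e, ← res_res]⟩

lemma lfp (G : Sh (Scheme.etaleTopology.over X)) : LFP ((cart X).obj G).obj :=
  LFPg.of_locBij (finSite X) ((cart X).obj G).property (η G) (lan_lfp (lanOK X)
    (fun _ _ _ _ _ hD hc U hU => have : Etale U.hom := hU
      ⟨hom_surj hD hc U, hom_inj hD hc U⟩) G.obj)

lemma tor_of_loc {F : Sh (Scheme.etaleTopology.over X)} (h : ∀ (T : Over X) (s : F.obj.obj (op T)), ∃ S ∈ Scheme.etaleTopology.over X T,
    ∀ ⦃Y⦄ (y : Y ⟶ T), S y → ∃ n : ℕ, l ^ n • F.obj.map y.op s = 0) : Tor l F.obj := by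
  intro T hT s
  obtain ⟨S, hS, h1⟩ := h T s
  obtain ⟨ι, _, V, v, -, h2, h3⟩ := (finSite X).fin hT S hS
  choose n hn using fun i => h1 _ (h3 i)
  obtain ⟨N, hN⟩ := (Set.finite_range n).bddAbove
  refine ⟨N, sepP F.property _ _ h2 ?_⟩
  rintro Y _ ⟨_, g, _, ⟨i⟩, rfl⟩
  obtain ⟨d, hd⟩ := Nat.exists_eq_add_of_le' (hN ⟨i, rfl⟩)
  rw [← res_res, map_nsmul, hd, pow_add, mul_smul, hn, smul_zero, map_zero]

lemma zero_et {F : Sh (Scheme.etaleTopology.over X)} (h : ∀ U : Over X, IsAffine U.left → Etale U.hom →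
    ∀ s : F.obj.obj (op U), s = 0) {U : Over X} (hU : Etale U.hom) (s : F.obj.obj (op U)) :
    s = 0 := by
  refine sepP F.property s _ (afS_mem ((Scheme.etaleTopology.over X).top_mem U)) ?_
  rintro Y _ ⟨V, v, w, h1, h2, -, rfl⟩
  rw [← res_res, h V h1 (et_comp v h2 hU) (F.obj.map v.op s), map_zero]

section
variable {C : Type*} [Category* C] [Abelian C] [HasExt.{1} C] {A : C} {S : ShortComplex C}
  (hS : S.ShortExact)
include hS

lemma post_g (h : ∀ q (x : Ext.{1} A S.X₁ q), x = 0) (q) : Function.Bijective (post.{1} A S.g q) :=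
  ⟨(injective_iff_map_eq_zero _).2 fun x hx => by
    obtain ⟨y, rfl⟩ := ((cov_les A hS).e₂ q x).1 hx
    rw [h _ y, map_zero], fun z => ((cov_les A hS).e₃ q z).1 (h _ _)⟩

lemma post_f (h : ∀ q (x : Ext.{1} A S.X₃ q), x = 0) (q) : Function.Bijective (post.{1} A S.f q) := by
  refine ⟨?_, fun z => ((cov_les A hS).e₂ q z).1 (h _ _)⟩
  cases q with
  | zero => exact (cov_les A hS).inj
  | succ q =>
    refine (injective_iff_map_eq_zero _).2 fun x hx => ?_
    obtain ⟨y, rfl⟩ := ((cov_les A hS).e₁ q x).1 hx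
    rw [h _ y, map_zero]
end

end Cart

open Cart

theorem cart_Cc (l : ℕ) (G : Sh (Scheme.etaleTopology.over X)) : Cc l ((cart X).obj G) :=
  ⟨lfp G, (Rig.of_locBij (η G)).1 (rig G)⟩

theorem cart_Tc {G : Sh (Scheme.etaleTopology.over X)} (h : ∀ U : Over X, IsAffine U.left → Etale U.hom →
    ∀ s : G.obj.obj (op U), ∃ n : ℕ, l ^ n • s = 0) : Tc l ((cart X).obj G) := by
  refine ⟨cart_Cc l G, tor_of_loc fun T s => ?_⟩
  let S : Sieve T := ⟨fun Y y => ∃ n : ℕ, l ^ n • ((cart X).obj G).obj.map y.op s = 0,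
    fun h g => h.imp fun n hn => by rw [← res_res, ← map_nsmul, hn, map_zero]⟩
  refine ⟨S, (Scheme.etaleTopology.over X).transitive (Presheaf.imageSieve_mem (Scheme.etaleTopology.over X) (η G) s) S ?_, fun _ _ h => h⟩
  rintro Y y ⟨x, hx⟩
  obtain ⟨U, hU, g, t, rfl⟩ := lan_surj (lanOK X) G.obj x
  refine (Scheme.etaleTopology.over X).superset_covering ?_ ((Scheme.etaleTopology.over X).pullback_stable g (afS_mem ((Scheme.etaleTopology.over X).top_mem U)))
  rintro Z z ⟨V, v, w, h1, h2, -, h3⟩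
  have hV := et_comp v h2 hU
  obtain ⟨n, hn⟩ := h V h1 hV (G.obj.map v.op t)
  refine ⟨n, ?_⟩
  rw [← res_res, ← hx, ← nat, res_res, ← h3, ← res_res, lanη_res _ hU hV, ← map_nsmul,
    ← map_nsmul, ← map_nsmul, hn, map_zero, map_zero, map_zero]

theorem cartε_bij (G : Sh (Scheme.etaleTopology.over X)) (U : Over X) [Etale U.hom] :
    Function.Bijective (((cartε X).app G).hom.app (op U)) := Lcε_bij (lanOK X) G ‹_›

instance : (cart X).Additive := inferInstanceAs (Lc (Scheme.etaleTopology.over X) (Et X)).Additive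

theorem cart_shortExact {S : ShortComplex (Sh (Scheme.etaleTopology.over X))} (hS : S.ShortExact) :
    (S.map (cart X)).ShortExact := Lc_shortExact (lanOK X) hS

theorem cart_surj (G : Sh (Scheme.etaleTopology.over X)) {A : Type} [CommRing A] [SHL A] (a : Spec (.of A) ⟶ X)
    (s : ((cart X).obj G).obj.obj (op (Over.mk a))) :
    ∃ (U : Over X) (g : Over.mk a ⟶ U) (t : ((cart X).obj G).obj.obj (op U)),
      IsAffine U.left ∧ Etale U.hom ∧ ((cart X).obj G).obj.map g.op t = s := by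
  obtain ⟨x, rfl⟩ := shl_surj a (η G) s
  obtain ⟨U, hU, g, t, rfl⟩ := lan_surj (lanOK X) G.obj x
  obtain ⟨V, v, w, h1, h2, rfl⟩ := shl_aff g
  exact ⟨V, w, (η G).app _ ((LP G).map v.op (lanη G.obj hU t)), h1, et_comp v h2 hU,
    by rw [← nat, res_res]⟩

theorem cart_zero (G : Sh (Scheme.etaleTopology.over X)) {A : Type} [CommRing A] [SHL A] (a : Spec (.of A) ⟶ X)
    {U : Over X} [Etale U.hom] (g : Over.mk a ⟶ U) (t : ((cart X).obj G).obj.obj (op U))
    (h : ((cart X).obj G).obj.map g.op t = 0) :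
    ∃ (U' : Over X) (g' : Over.mk a ⟶ U') (u : U' ⟶ U), IsAffine U'.left ∧ Etale U'.hom ∧
      g' ≫ u = g ∧ ((cart X).obj G).obj.map u.op t = 0 := by
  have hU : Et X U := ‹_›
  obtain ⟨s, rfl⟩ := exists_η G hU t
  rw [← nat, ← map_zero (ConcreteCategory.hom ((η G).app _))] at h
  obtain ⟨U', hU', g', u, rfl, h2⟩ := lan_zero (lanOK X) G.obj hU g s (shl_inj a (η G) h)
  obtain ⟨V, v, w, h3, h4, rfl⟩ := shl_aff g'
  refine ⟨V, w, v ≫ u, h3, et_comp v h4 hU', (Category.assoc _ _ _).symm, ?_⟩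
  rw [← res_res, ← nat, lanη_res _ hU hU', h2, map_zero, map_zero, map_zero]

theorem cart_iso (hl : Linv l X) {F : Sh (Scheme.etaleTopology.over X)} (hF : Cc l F) : IsIso ((cartε X).app F) := by
  refine pt_iso hl (cart_Cc l F) hF _ fun t => ?_
  obtain ⟨k, _, _, x, y, z, hz⟩ := exists_geom (Over.mk (𝟙 X)) t
  refine ⟨k, _, ‹_›, x, ⟨z, ?_⟩,
    inj0 _ fun s hs => ?_, fun s => ?_⟩
  · exact (congr($((Over.w y).symm.trans (Category.comp_id _)) z)).trans hz
  · obtain ⟨U, g, s', -, hU, rfl⟩ := cart_surj F x s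
    rw [nat] at hs
    obtain ⟨V, v, y', -, h2, rfl, h4⟩ := stalk_zero hF.1 hF.2 (hl k x) g _ hs
    have := et_comp v h2 hU
    rw [← nat, ← map_zero (ConcreteCategory.hom (((cartε X).app F).hom.app _))] at h4
    rw [← res_res, (cartε_bij F V).1 h4, map_zero]
  · obtain ⟨V, v, y', s', -, h2, -, rfl⟩ := stalk_surj hF.1 hF.2 (hl k x) y s
    have := et_comp v h2 (inferInstanceAs (Etale (𝟙 X)))
    obtain ⟨s'', rfl⟩ := (cartε_bij F V).2 s'
    exact ⟨_, nat _ _ _⟩

theorem cart_map_bij {F G : Sh (Scheme.etaleTopology.over X)} (φ : F ⟶ G) (U : Over X) [Etale U.hom]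
    (h : Function.Bijective (φ.hom.app (op U))) :
    Function.Bijective (((cart X).map φ).hom.app (op U)) := by
  have e : ((cartε X).app G).hom.app (op U) ∘ ((cart X).map φ).hom.app (op U) =
      φ.hom.app (op U) ∘ ((cartε X).app F).hom.app (op U) :=
    funext fun x => congr(($((cartε X).naturality φ)).hom.app (op U) x)
  exact (Function.Bijective.of_comp_iff' (cartε_bij G U) _).1 (e ▸ h.comp (cartε_bij F U))

theorem cart_map_isIso {F G : Sh (Scheme.etaleTopology.over X)} (φ : F ⟶ G) (h : ∀ U : Over X, IsAffine U.left →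
    Etale U.hom → Function.Bijective (φ.hom.app (op U))) : IsIso ((cart X).map φ) := by
  have : Mono ((cart X).map φ) := lfp_mono (lfp F) _ fun A _ _ a =>
    inj0 _ fun s hs => by
      obtain ⟨U, g, t, -, hU, rfl⟩ := cart_surj F a s
      rw [nat] at hs
      obtain ⟨V, w, v, h1, h2, rfl, h3⟩ := cart_zero G a g _ hs
      rw [← nat, ← map_zero (ConcreteCategory.hom (((cart X).map φ).hom.app _))] at h3
      rw [← res_res, (cart_map_bij φ V (h V h1 h2)).1 h3, map_zero]
  have : Epi ((cart X).map φ) := lfp_epi (lfp F) (lfp G) _ fun A _ _ a s => by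
    obtain ⟨U, g, t, h1, hU, rfl⟩ := cart_surj G a s
    obtain ⟨t, rfl⟩ := (cart_map_bij φ U (h U h1 hU)).2 t
    exact ⟨_, nat _ _ _⟩
  exact isIso_of_mono_of_epi _

/-- SM -/
theorem sm_zero {F : Sh (Scheme.etaleTopology.over X)} (h : ∀ U : Over X, IsAffine U.left → Etale U.hom →
    ∀ s : F.obj.obj (op U), s = 0) (U : Over X) [Etale U.hom] (q : ℕ) (x : H U F q) : x = 0 := by
  cases q with
  | zero =>
    obtain ⟨f, rfl⟩ := (Ext.mk₀_bijective _ _).2 x
    rw [(map_eq_zero_iff _ (frEquiv U F).injective).1 (zero_et h ‹_› (frEquiv U F f)),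
      Ext.mk₀_zero]
  | succ q =>
    refine cartan_et (fun U => Etale U.hom) (fun _ _ p => et_comp p) F
      (fun V U p hU _ _ N n s _ => ⟨0, ?_⟩) ‹_› q x
    exact (zero_et h (et_comp _ (N.etale_b _) hU) _).trans
      (zero_et h (et_comp _ (N.etale_b _) hU) _).symm

theorem sm {F G : Sh (Scheme.etaleTopology.over X)} (φ : F ⟶ G) (h : ∀ U : Over X, IsAffine U.left → Etale U.hom →
    Function.Bijective (φ.hom.app (op U))) (U : Over X) [Etale U.hom] (q : ℕ) :
    Function.Bijective fun x : H U F q => x.comp (Ext.mk₀ φ) (add_zero q) := by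
  let S₁ := ShortComplex.mk (kernel.ι φ) (Abelian.coimage.π φ) (cokernel.condition _)
  let S₂ := ShortComplex.mk (Abelian.factorThruCoimage φ) (cokernel.π φ) (by
    rw [← cancel_epi (Abelian.coimage.π φ), ← Category.assoc, Abelian.coimage.fac,
      cokernel.condition, comp_zero])
  have h₁ : S₁.ShortExact := { exact := ShortComplex.exact_cokernel _ }
  have h₂ : S₂.ShortExact :=
    { exact := (ShortComplex.exact_iff_of_epi_of_isIso_of_mono
        (S₁ := ShortComplex.mk _ _ (cokernel.condition φ)) (S₂ := S₂)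
        ⟨Abelian.coimage.π φ, 𝟙 _, 𝟙 _, by simp [S₂], by simp [S₂]⟩).1
          (ShortComplex.exact_cokernel φ) }
  have b₁ := post_g (A := (fr (Scheme.etaleTopology.over X)).obj U) h₁ (sm_zero (fun V h1 h2 s => by
    refine (exact_sec (ShortComplex.exact_kernel φ) V).1 ((h V h1 h2).1 ?_)
    rw [map_zero, map_zero]
    exact congr(($(kernel.condition φ)).hom.app (op V) s)) U) q
  have b₂ := post_f (A := (fr (Scheme.etaleTopology.over X)).obj U) h₂ (sm_zero (fun V _ h2 s => by
    have : Sheaf.IsLocallySurjective (cokernel.π φ) :=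
      (Sheaf.isLocallySurjective_iff_epi' Ab.{1} _).2 inferInstance
    refine sepP (cokernel φ).property s _
      (afS_mem (Presheaf.imageSieve_mem (Scheme.etaleTopology.over X) (cokernel.π φ).hom s)) ?_
    rintro Y _ ⟨W, v, w, h3, h4, ⟨t, ht⟩, rfl⟩
    obtain ⟨t, rfl⟩ := (h W h3 (et_comp v h4 h2)).2 t
    rw [← res_res, ← ht]
    exact (congrArg _ congr(($(cokernel.condition φ)).hom.app (op W) t)).trans (map_zero _)) U) q
  have e : (fun x : H U F q => x.comp (Ext.mk₀ φ) (add_zero q)) =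
      post _ S₂.f q ∘ post _ S₁.g q := funext fun x => by
    rw [Function.comp_apply, post_post]
    exact congrArg (fun f => x.comp (Ext.mk₀ f) (add_zero q)) (Abelian.coimage.fac φ).symm
  exact e ▸ b₂.comp b₁

end Pool.Agent.MP_855f4c_ag.E

end

section

set_option backward.isDefEq.respectTransparency false

open CategoryTheory Limits Opposite AlgebraicGeometry Abelian

namespace Pool.Agent.MP_855f4c_ag.E

open E3

namespace Ez

section generic
variable {C : Type 1} [Category.{0} C] {J : GrothendieckTopology C} (U : Down C)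

lemma isIso_of_bij {F G : Sh J} (φ : F ⟶ G) (h : ∀ T, Function.Bijective (φ.hom.app (op T))) :
    IsIso φ := by
  have (T : Cᵒᵖ) : IsIso (φ.hom.app T) := (ConcreteCategory.isIso_iff_bijective _).2 (h T.unop)
  have : IsIso ((sheafToPresheaf J _).map φ) := NatIso.isIso_of_isIso_app φ.hom
  exact isIso_of_reflects_iso φ (sheafToPresheaf J _)

lemma mono_of_inj {F G : Sh J} (φ : F ⟶ G) (h : ∀ T, Function.Injective (φ.hom.app (op T))) :
    Mono φ := by
  have (T : Cᵒᵖ) : Mono (φ.hom.app T) := (AddCommGrpCat.mono_iff_injective _).2 (h T.unop)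
  have : Mono ((sheafToPresheaf J _).map φ) := NatTrans.mono_of_mono_app φ.hom
  exact (sheafToPresheaf J _).mono_of_mono_map this

lemma sec_exact {S : ShortComplex (Sh J)} (hS : S.Exact) [Mono S.f] (T : C) :
    Function.Injective (S.f.hom.app (op T)) ∧
      ∀ x, S.g.hom.app (op T) x = 0 → ∃ y, S.f.hom.app (op T) y = x := by
  let Φ := sheafToPresheaf J Ab.{1} ⋙ (evaluation _ _).obj (op T)
  have : PreservesFiniteLimits Φ := comp_preservesFiniteLimits _ _
  have h1 : Mono (Φ.map S.f) := inferInstance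
  refine ⟨(AddCommGrpCat.mono_iff_injective _).1 h1, ?_⟩
  exact (S.map Φ).ab_exact_iff.1 (hS.map_of_mono_of_preservesKernel Φ inferInstance inferInstance)

lemma mem_of (P : Cᵒᵖ ⥤ Ab.{1}) {T : C} (s : P.obj (op T)) (h : s = 0 ∨ U.mem T) :
    s ∈ ezSub J U P T :=
  J.superset_covering (fun _ y _ => h.imp (fun h => by rw [h, map_zero]) (U.down y)) (J.top_mem T)

/-- Sections that vanish or live on an object of `U`. -/
def zSub (P : Cᵒᵖ ⥤ Ab.{1}) (T : C) : AddSubgroup (P.obj (op T)) where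
  carrier := {s | s = 0 ∨ U.mem T}
  zero_mem' := .inl rfl
  add_mem' ha hb := ha.elim (fun h1 => hb.imp_left fun h2 => by rw [h1, h2, add_zero]) .inr
  neg_mem' ha := ha.imp_left fun h => by rw [h, neg_zero]

/-- The presheaf extension by zero. -/
def zP (P : Cᵒᵖ ⥤ Ab.{1}) : Cᵒᵖ ⥤ Ab.{1} where
  obj T := AddCommGrpCat.of (zSub U P T.unop)
  map g := AddCommGrpCat.ofHom (((P.map g).hom.comp (AddSubgroup.subtype _)).codRestrict _
    fun s => s.2.imp (fun h => (congrArg (P.map g) h).trans (map_zero _)) (U.down g.unop))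
  map_id T := by ext s; exact res_id P s.1
  map_comp f g := by ext s; exact (res_res P g.unop f.unop s.1).symm

variable (J) in
/-- The map to the sheaf extension by zero. -/
def zη (P : Cᵒᵖ ⥤ Ab.{1}) : zP U P ⟶ ezP J U P where
  app T := AddCommGrpCat.ofHom ((AddSubgroup.subtype _).codRestrict _ fun s => mem_of U P s.1 s.2)

instance (P : Cᵒᵖ ⥤ Ab.{1}) : Presheaf.IsLocallyInjective J (zη J U P) :=
  Presheaf.isLocallyInjective_of_injective J _ fun T _ _ h =>
    Subtype.ext (congrArg (fun z : ezSub J U P T.unop => z.1) h)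

instance (P : Cᵒᵖ ⥤ Ab.{1}) : Presheaf.IsLocallySurjective J (zη J U P) where
  imageSieve_mem s := J.superset_covering (S := ezSieve U P s.1)
    (fun _ y h => ⟨⟨P.map y.op s.1, h⟩, rfl⟩) s.2

instance : (ezg J U).Additive := ⟨rfl⟩

lemma shortExact {S : ShortComplex (Sh J)} (hS : S.ShortExact) :
    (S.map (ezg J U)).ShortExact where
  mono_f := by
    have := hS.mono_f
    exact mono_of_inj _ fun T a b h =>
      Subtype.ext ((sec_exact hS.exact T).1 (congrArg Subtype.val h))
  epi_g := by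
    have := hS.epi_g
    have h : Presheaf.IsLocallySurjective J S.g.hom :=
      (Sheaf.isLocallySurjective_iff_epi' Ab.{1} S.g).2 inferInstance
    refine (Sheaf.isLocallySurjective_iff_epi' Ab.{1} _).1 ⟨fun {T} s => ?_⟩
    refine J.transitive s.2 _ fun Y y hy => ?_
    rcases hy with hy | hy
    · refine J.superset_covering (fun Z z _ => ⟨0, Subtype.ext ?_⟩) (J.top_mem Y)
      refine (map_zero (S.g.hom.app (op Z)).hom).trans ?_
      exact ((res_res _ z y s.1).symm.trans ((congrArg _ hy).trans (map_zero _))).symm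
    · refine J.superset_covering ?_ (Presheaf.imageSieve_mem J S.g.hom (S.X₃.obj.map y.op s.1))
      rintro Z z ⟨t, ht⟩
      exact ⟨⟨t, mem_of U _ t (.inr (U.down z hy))⟩, Subtype.ext (ht.trans (res_res _ z y s.1))⟩
  exact := by
    have := hS.mono_f
    refine (sheafToPresheaf J _).reflects_exact_of_faithful _ (exact_psh _ fun T x hx => ?_)
    obtain ⟨y, hy⟩ := (sec_exact hS.exact T.unop).2 x.1 (congrArg Subtype.val hx)
    refine ⟨⟨y, J.superset_covering (S := ezSieve U S.X₂.obj x.1) (fun Z z h => h.imp_left fun h =>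
      (sec_exact hS.exact Z).1 ?_) x.2⟩, Subtype.ext hy⟩
    rw [nat, hy, h, map_zero]

end generic

variable {X : Scheme.{0}} (U : X.Opens)

lemma mem_map (T : Over U.toScheme) : (ovU U).mem ((Over.map U.ι).obj T) := fun t => (T.hom t).2

lemma exists_lift {T : Over X} (h : (ovU U).mem T) :
    ∃ T' : Over U.toScheme, T = (Over.map U.ι).obj T' := by
  have h1 : Set.range T.hom ⊆ Set.range U.ι := by
    rintro _ ⟨t, rfl⟩
    exact ⟨⟨_, h t⟩, rfl⟩
  exact ⟨Over.mk (IsOpenImmersion.lift U.ι T.hom h1),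
    congrArg Over.mk (IsOpenImmersion.lift_fac U.ι T.hom h1).symm⟩

instance : (Over.map U.ι).Full where
  map_surjective {A B} g := ⟨Over.homMk g.left (by
    rw [← cancel_mono U.ι, Category.assoc]; exact Over.w g), rfl⟩

end Ez

open Ez

variable {X : Scheme.{0}} {l : ℕ}

variable (U : X.Opens)
instance : (ez U).Additive := inferInstanceAs (ezg _ _).Additive
instance (F : Sh (Scheme.etaleTopology.over X)) : Mono ((ezι U).app F) := mono_of_inj _ fun _ => Subtype.val_injective
theorem ez_shortExact {S : ShortComplex (Sh (Scheme.etaleTopology.over X))} (hS : S.ShortExact) :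
    (S.map (ez U)).ShortExact := shortExact _ hS
theorem ezι_bij (F : Sh (Scheme.etaleTopology.over X)) {T : Over X} (hT : (ovU U).mem T) :
    Function.Bijective (((ezι U).app F).hom.app (op T)) :=
  ⟨Subtype.val_injective, fun s => ⟨⟨s, mem_of _ _ s (.inr hT)⟩, rfl⟩⟩
theorem ez_shl_zero (F : Sh (Scheme.etaleTopology.over X)) {A : Type} [CommRing A] [SHL A] (a : Spec (.of A) ⟶ X)
    (h : a (IsLocalRing.closedPoint A) ∉ U) (s : ((ez U).obj F).obj.obj (op (Over.mk a))) :
    s = 0 := by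
  have h1 : ezSieve (ovU U) F.obj s.1 (𝟙 _) := by rw [shl_sieve s.2]; trivial
  exact Subtype.ext (h1.elim (fun h1 => (res_id _ _).symm.trans h1) fun h1 => (h (h1 _)).elim)
theorem mem_ezSub (F : Sh (Scheme.etaleTopology.over X)) (T : Over X) (s : F.obj.obj (op T)) :
    s ∈ ezSub (Scheme.etaleTopology.over X) (ovU U) F.obj T ↔ ∃ W : T.left.Opens,
      (∀ t, t ∈ W ∨ T.hom t ∈ U) ∧ F.obj.map (opι T W).op s = 0 := by
  constructor
  · intro hs
    let W : T.left.Opens := ⟨{t | ∃ (V : Over X) (v : V ⟶ T), Etale v.left ∧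
        F.obj.map v.op s = 0 ∧ t ∈ Set.range v.left}, isOpen_iff_forall_mem_open.2 (by
      rintro t ⟨V, v, h1, h2, h3⟩
      exact ⟨_, fun z hz => ⟨V, v, h1, h2, hz⟩, v.left.isOpenMap.isOpen_range, h3⟩)⟩
    refine ⟨W, fun t => ?_, ?_⟩
    · obtain ⟨V, v, -, h1, h2, z, rfl⟩ := exists_of_mem_Jov hs t
      refine h2.imp (fun h2 => ⟨V, v, h1, h2, z, rfl⟩) fun h2 => ?_
      have := h2 z
      rwa [← Over.w v] at this
    · refine sepP F.property _ ⟨fun Y y => F.obj.map y.op (F.obj.map (opι T W).op s) = 0,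
        fun {Y Z y} h g => by rw [← res_res, h, map_zero]⟩ (mem_Jov_of _ fun t => ?_)
        fun _ _ h => h
      obtain ⟨V, v, h1, h2, z, hz⟩ := t.2
      have h3 : Set.range v.left ⊆ Set.range W.ι := fun x hx => ⟨⟨x, V, v, h1, h2, hx⟩, rfl⟩
      have h4 := IsOpenImmersion.lift_fac W.ι v.left h3
      have h5 : Etale (IsOpenImmersion.lift W.ι v.left h3 ≫ W.ι) := h4.symm ▸ h1
      let v' : V ⟶ opn T W := Over.homMk (IsOpenImmersion.lift W.ι v.left h3)
        (((reassoc_of% h4) T.hom).trans (Over.w v))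
      have h6 : v' ≫ opι T W = v := Over.OverMorphism.ext h4
      refine ⟨V, v', Etale.of_comp (IsOpenImmersion.lift W.ι v.left h3) W.ι, ?_, z,
        W.ι.isOpenEmbedding.injective ?_⟩
      · exact (res_res _ _ _ _).trans (h6.symm ▸ h2)
      · exact (congr($h4 z)).trans hz
  · rintro ⟨W, h1, h2⟩
    refine mem_Jov_of _ fun t => (h1 t).elim (fun h => ?_) fun h => ?_
    · exact ⟨_, opι T W, inferInstanceAs (Etale W.ι), .inl h2, ⟨t, h⟩, rfl⟩
    · exact ⟨_, opι T (T.hom ⁻¹ᵁ U), inferInstanceAs (Etale (T.hom ⁻¹ᵁ U).ι), .inr fun z => z.2,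
        ⟨t, h⟩, rfl⟩
theorem ez_pb_isIso (F : Sh (Scheme.etaleTopology.over X)) :
    IsIso ((pb (J := Scheme.etaleTopology) U.ι).map ((ezι U).app F)) :=
  isIso_of_bij _ fun T => ezι_bij U F (mem_map U T)
theorem ez_hom_bij (F G : Sh (Scheme.etaleTopology.over X)) : Function.Bijective fun ψ : (ez U).obj F ⟶ G =>
    (pb (J := Scheme.etaleTopology) U.ι).map ψ := by
  classical
  have hW := (Scheme.etaleTopology.over X).W_of_isLocallyBijective (zη (Scheme.etaleTopology.over X) (ovU U) F.obj) G.obj G.property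
  constructor
  · intro ψ ψ' h
    refine Sheaf.hom_ext (hW.1 ?_)
    ext T s
    rcases s.2 with h0 | h0
    · rw [show s = 0 from Subtype.ext h0, map_zero, map_zero]
    · obtain ⟨T', hT⟩ := exists_lift U h0
      obtain rfl : T = op ((Over.map U.ι).obj T') := congrArg op hT
      exact congr(($h).hom.app (op T') ((zη (Scheme.etaleTopology.over X) (ovU U) F.obj).app _ s))
  · intro θ
    have key : ∀ T : Over X, ∃ t : (zP (ovU U) F.obj).obj (op T) ⟶ G.obj.obj (op T),
        ∀ (A : Over U.toScheme) (a : (Over.map U.ι).obj A ⟶ T) (s), G.obj.map a.op (t s) =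
          θ.hom.app (op A) ((zη (Scheme.etaleTopology.over X) (ovU U) F.obj).app _ ((zP (ovU U) F.obj).map a.op s)) := by
      intro T
      by_cases h : (ovU U).mem T
      · obtain ⟨T', rfl⟩ := exists_lift U h
        refine ⟨(zη (Scheme.etaleTopology.over X) (ovU U) F.obj).app _ ≫ θ.hom.app (op T'), fun A a s => ?_⟩
        obtain ⟨a, rfl⟩ := (Over.map U.ι).map_surjective a
        exact (nat θ.hom a _).symm
      · refine ⟨0, fun A a s => ?_⟩
        rw [show s = 0 from Subtype.ext (s.2.resolve_right h)]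
        simp only [map_zero]
    choose t ht using key
    have ht' : ∀ (A : Over U.toScheme) (s), t _ s =
        θ.hom.app (op A) ((zη (Scheme.etaleTopology.over X) (ovU U) F.obj).app _ s) := fun A s => by
      have := ht _ A (𝟙 _) s
      rwa [res_id, res_id] at this
    obtain ⟨ψ, hψ⟩ := hW.2 ⟨fun T => t T.unop, fun T T' g => by
      ext s
      by_cases h : (ovU U).mem T'.unop
      · obtain ⟨A, hA⟩ := exists_lift U h
        obtain rfl : T' = op ((Over.map U.ι).obj A) := congrArg op hA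
        exact (ht' A _).trans (ht _ A g.unop s).symm
      · rw [show s = 0 from Subtype.ext (s.2.resolve_right fun h' => h ((ovU U).down g.unop h')),
          map_zero, map_zero]⟩
    refine ⟨⟨ψ⟩, Sheaf.hom_ext ?_⟩
    ext A s
    exact (congr(($hψ).app (op ((Over.map U.ι).obj A.unop)) ⟨s.1, .inr (mem_map U _)⟩)).trans
      (ht' A.unop _)

/-- JU -/
theorem ez_iso {F G : Sh (Scheme.etaleTopology.over X)} (e : (pb (J := Scheme.etaleTopology) U.ι).obj F ≅
    (pb (J := Scheme.etaleTopology) U.ι).obj G) :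
    ∃ e' : (ez U).obj F ≅ (ez U).obj G,
      (pb (J := Scheme.etaleTopology) U.ι).map (e'.hom ≫ (ezι U).app G) =
        (pb (J := Scheme.etaleTopology) U.ι).map ((ezι U).app F) ≫ e.hom := by
  have := ez_pb_isIso U F
  have := ez_pb_isIso U G
  obtain ⟨a, ha⟩ := (ez_hom_bij U F ((ez U).obj G)).2
    ((pb (J := Scheme.etaleTopology) U.ι).map ((ezι U).app F) ≫ e.hom ≫
      inv ((pb (J := Scheme.etaleTopology) U.ι).map ((ezι U).app G)))
  obtain ⟨b, hb⟩ := (ez_hom_bij U G ((ez U).obj F)).2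
    ((pb (J := Scheme.etaleTopology) U.ι).map ((ezι U).app G) ≫ e.inv ≫
      inv ((pb (J := Scheme.etaleTopology) U.ι).map ((ezι U).app F)))
  dsimp only at ha hb
  refine ⟨⟨a, b, (ez_hom_bij U F _).1 ?_, (ez_hom_bij U G _).1 ?_⟩, ?_⟩
  · simp [ha, hb]
  · simp [ha, hb]
  · simp [ha]
theorem ez_map_isIso {F G : Sh (Scheme.etaleTopology.over X)} (φ : F ⟶ G)
    (h : ∀ T, (ovU U).mem T → Function.Bijective (φ.hom.app (op T))) : IsIso ((ez U).map φ) := by
  have : IsIso ((pb (J := Scheme.etaleTopology) U.ι).map φ) :=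
    isIso_of_bij _ fun T => h _ (mem_map U T)
  have := ez_pb_isIso U G
  obtain ⟨e, he⟩ := ez_iso U (asIso ((pb (J := Scheme.etaleTopology) U.ι).map φ))
  have h1 : (ez U).map φ = e.hom := by
    rw [← cancel_mono ((ezι U).app G)]
    refine (ez_hom_bij U F G).1 ?_
    dsimp only
    rw [he, (ezι U).naturality, Functor.map_comp]
    rfl
  rw [h1]
  infer_instance

lemma Ez.mem_pb {Y : Scheme.{0}} (f : Y ⟶ X) (F : Sh (Scheme.etaleTopology.over X)) (T : Over Y)
    (s : F.obj.obj (op ((Over.map f).obj T))) :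
    s ∈ ezSub (Scheme.etaleTopology.over X) (ovU U) F.obj ((Over.map f).obj T) ↔
      s ∈ ezSub (Scheme.etaleTopology.over Y) (ovU (f ⁻¹ᵁ U)) ((Over.map f).op ⋙ F.obj) T := by
  constructor
  · intro hs
    refine mem_Jov_of _ fun t => ?_
    obtain ⟨V, v, -, h1, h2, h3⟩ := exists_of_mem_Jov hs t
    let V' : Over Y := Over.mk (v.left ≫ T.hom)
    let v' : V' ⟶ T := Over.homMk v.left
    let g : (Over.map f).obj V' ⟶ V := Over.homMk (𝟙 _)
      ((Category.id_comp _).trans ((Over.w v).symm.trans (Category.assoc _ _ _).symm))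
    have h4 : g ≫ v = (Over.map f).map v' := Over.OverMorphism.ext (Category.id_comp _)
    have h5 := (ezSieve (ovU U) F.obj s).downward_closed h2 g
    rw [h4] at h5
    exact ⟨V', v', h1, h5, h3⟩
  · intro hs
    refine mem_Jov_of _ fun t => ?_
    obtain ⟨V, v, -, h1, h2, h3⟩ := exists_of_mem_Jov hs t
    exact ⟨_, (Over.map f).map v, h1, h2, h3⟩

theorem ez_pb {Y : Scheme.{0}} (f : Y ⟶ X) :
    ∃ e : ez U ⋙ pb (J := Scheme.etaleTopology) f ≅
      pb (J := Scheme.etaleTopology) f ⋙ ez (f ⁻¹ᵁ U), ∀ F,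
      e.hom.app F ≫ (ezι (f ⁻¹ᵁ U)).app _ =
        (pb (J := Scheme.etaleTopology) f).map ((ezι U).app F) := by
  let α : ez U ⋙ pb (J := Scheme.etaleTopology) f ⟶
      pb (J := Scheme.etaleTopology) f ⋙ ez (f ⁻¹ᵁ U) :=
    { app F := ⟨{ app T := AddCommGrpCat.ofHom ((AddSubgroup.subtype _).codRestrict _
                    fun s => (mem_pb U f F T.unop s.1).1 s.2)
                  naturality _ _ _ := rfl }⟩
      naturality _ _ _ := rfl }
  have (F : Sh (Scheme.etaleTopology.over X)) : IsIso (α.app F) := isIso_of_bij _ fun T =>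
    ⟨fun a b h => Subtype.ext (congrArg (fun z : ezSub (Scheme.etaleTopology.over Y) (ovU (f ⁻¹ᵁ U))
      ((Over.map f).op ⋙ F.obj) T => z.1) h),
      fun s => ⟨⟨s.1, (mem_pb U f F T s.1).2 s.2⟩, rfl⟩⟩
  have : IsIso α := NatIso.isIso_of_isIso_app α
  exact ⟨asIso α, fun F => rfl⟩

/-- An object that maps into `U`, as an object over `U`. -/
noncomputable def Ez.lf (T : Over X) (h : (ovU U).mem T) : Over U.toScheme :=
  Over.mk (IsOpenImmersion.lift U.ι T.hom (by rintro _ ⟨t, rfl⟩; exact ⟨⟨_, h t⟩, rfl⟩))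

lemma Ez.lf_w (T : Over X) (h : (ovU U).mem T) : (lf U T h).hom ≫ U.ι = T.hom :=
  IsOpenImmersion.lift_fac _ _ _

/-- The comparison isomorphism. -/
noncomputable def Ez.lfi (T : Over X) (h : (ovU U).mem T) : (Over.map U.ι).obj (lf U T h) ≅ T :=
  Over.isoMk (Iso.refl _) ((Category.id_comp _).trans (lf_w U T h).symm)

/-- Maps between lifted objects. -/
noncomputable def Ez.lfm {T T' : Over X} (g : T ⟶ T') (h : (ovU U).mem T) (h' : (ovU U).mem T') :
    lf U T h ⟶ lf U T' h' :=
  Over.homMk g.left (by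
    rw [← cancel_mono U.ι, Category.assoc, lf_w, lf_w]; exact Over.w g)

lemma Ez.lfm_w {T T' : Over X} (g : T ⟶ T') (h : (ovU U).mem T) (h' : (ovU U).mem T') :
    (Over.map U.ι).map (lfm U g h h') ≫ (lfi U T' h').hom = (lfi U T h).hom ≫ g :=
  Over.OverMorphism.ext ((Category.comp_id _).trans (Category.id_comp _).symm)

lemma Ez.slice {P : PSh X} (h : LFP ((Over.map U.ι).op ⋙ P)) {I : Type} [SmallCategory I]
    [IsCofiltered I] {D : I ⥤ Over X} {c : Cone D} (hD : ∀ i, Aff X (D.obj i)) (hc : IsLimit c)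
    (j : I) (hj : (ovU U).mem (D.obj j)) (hm : (ovU U).mem c.pt) :
    (∀ s : P.obj (op c.pt), ∃ (k : I) (_ : k ⟶ j) (t : P.obj (op (D.obj k))),
      P.map (pr c k).op t = s) ∧
    ∀ t : P.obj (op (D.obj j)), P.map (pr c j).op t = 0 →
      ∃ (k : I) (g : k ⟶ j), P.map (D.map g).op t = 0 := by
  have hk : ∀ k : Over j, (ovU U).mem (D.obj k.left) := fun k => (ovU U).down (D.map k.hom) hj
  let D' : Over j ⥤ Over U.toScheme :=
    { obj k := lf U (D.obj k.left) (hk k)
      map g := lfm U (D.map g.left) _ _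
      map_id k := Over.OverMorphism.ext (congrArg (·.left) (D.map_id k.left))
      map_comp f g := Over.OverMorphism.ext (congrArg (·.left) (D.map_comp f.left g.left)) }
  let c' : Cone D' :=
    { pt := lf U c.pt hm
      π := { app k := lfm U (pr c k.left) hm (hk k)
             naturality _ _ g := Over.OverMorphism.ext ((Category.id_comp _).trans
               (congrArg (·.left) (pr_w c g.left)).symm) } }
  have h0 : IsLimit ((Over.forget X).mapCone (c.whisker (Over.forget j))) :=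
    limForget ((Functor.Initial.isLimitWhiskerEquiv (Over.forget j) c).symm hc)
  have hc' : IsLimit c' := limOfForget h0
  obtain ⟨h1, h2⟩ := h _ D' c' (fun k => hD k.left) hc'
  refine ⟨fun s => ?_, fun t ht => ?_⟩
  · obtain ⟨k, t, ht⟩ := h1 (P.map (lfi U c.pt hm).hom.op s)
    refine ⟨k.left, k.hom, P.map (lfi U _ (hk k)).inv.op t, ?_⟩
    have e : pr c k.left ≫ (lfi U _ (hk k)).inv =
        (lfi U c.pt hm).inv ≫ (Over.map U.ι).map (lfm U (pr c k.left) hm (hk k)) := by
      rw [Iso.comp_inv_eq, Category.assoc, lfm_w, Iso.inv_hom_id_assoc]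
    rw [res_res, e, ← res_res]
    refine (congrArg _ ht).trans ?_
    rw [res_res, Iso.inv_hom_id, res_id]
  · obtain ⟨k, g, hg⟩ := h2 (Over.mk (𝟙 j)) (P.map (lfi U _ hj).hom.op t) (by
      refine (res_res P ((Over.map U.ι).map (lfm U (pr c j) hm hj)) _ t).trans ?_
      rw [lfm_w, ← res_res, ht, map_zero])
    refine ⟨k.left, g.left, ?_⟩
    have e := (res_res P ((Over.map U.ι).map (lfm U (D.map g.left) (hk k) hj)) _ t).symm.trans hg
    rw [lfm_w] at e
    rw [← (lfi U _ (hk k)).inv_hom_id_assoc (D.map g.left), ← res_res, e, map_zero]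

lemma Ez.zP_LFP {P : PSh X} (h : LFP ((Over.map U.ι).op ⋙ P)) : LFP (zP (ovU U) P) := by
  intro I _ _ D c hD hc
  by_cases hm : (ovU U).mem c.pt
  swap
  · refine ⟨fun s => ?_, fun i t _ => ⟨i, 𝟙 i, ?_⟩⟩
    · obtain ⟨i⟩ := IsCofiltered.nonempty (C := I)
      exact ⟨i, 0, (map_zero _).trans (Subtype.ext (s.2.resolve_right hm).symm)⟩
    · rw [show t = 0 from Subtype.ext (t.2.resolve_right fun h => hm ((ovU U).down (pr c i) h)),
        map_zero]
  have hj : ∀ i, ∃ (j : I) (_ : j ⟶ i), (ovU U).mem (D.obj j) := fun i => by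
    obtain ⟨j, f, hf⟩ := open_desc (fun {i j} f => by
        have : IsAffine (D.obj i).left := hD i
        have : IsAffine (D.obj j).left := hD j
        infer_instance) (fun i => by
        have : IsAffine (D.obj i).left := hD i
        infer_instance) hc i ((D.obj i).hom ⁻¹ᵁ U) fun t => by
      have := hm t
      rwa [← Over.w (pr c i)] at this
    refine ⟨j, f, fun t => ?_⟩
    rw [← Over.w (D.map f)]
    exact hf t
  refine ⟨fun s => ?_, fun i t ht => ?_⟩
  · obtain ⟨i⟩ := IsCofiltered.nonempty (C := I)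
    obtain ⟨j, -, hj⟩ := hj i
    obtain ⟨k, g, t, ht⟩ := (slice U h hD hc j hj hm).1 s.1
    exact ⟨k, ⟨t, .inr ((ovU U).down (D.map g) hj)⟩, Subtype.ext ht⟩
  · obtain ⟨j, f, hj⟩ := hj i
    obtain ⟨k, g, hg⟩ := (slice U h hD hc j hj hm).2 (P.map (D.map f).op t.1)
      (by rw [res_res, pr_w]; exact congrArg Subtype.val ht)
    refine ⟨k, g ≫ f, Subtype.ext (Eq.trans ?_ hg)⟩
    rw [res_res, ← D.map_comp]
    rfl

theorem ez_LFP {F : Sh (Scheme.etaleTopology.over X)} (h : LFP ((Over.map U.ι).op ⋙ F.obj)) : LFP ((ez U).obj F).obj :=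
  LFPg.of_locBij (finSite X) ((ez U).obj F).property (zη (Scheme.etaleTopology.over X) (ovU U) F.obj) (zP_LFP U h)
theorem ez_Rig {F : Sh (Scheme.etaleTopology.over X)} (h : Rig l ((Over.map U.ι).op ⋙ F.obj)) :
    Rig l ((ez U).obj F).obj := by
  refine (Rig.of_locBij (zη (Scheme.etaleTopology.over X) (ovU U) F.obj)).1 ?_
  intro A k _ _ _ _ φ _ a b hab hl
  by_cases hm : (ovU U).mem (Over.mk a)
  · have h1 : Set.range a ⊆ Set.range U.ι := by
      rintro _ ⟨t, rfl⟩
      exact ⟨⟨_, hm t⟩, rfl⟩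
    obtain ⟨a', rfl⟩ : ∃ a' : Spec (.of A) ⟶ U.toScheme, a = a' ≫ U.ι :=
      ⟨_, (IsOpenImmersion.lift_fac U.ι a h1).symm⟩
    obtain rfl : b = (Spec.map (CommRingCat.ofHom φ) ≫ a') ≫ U.ι := by rw [← hab, Category.assoc]
    have h2 := h A k φ a' _ rfl hl
    refine ⟨fun x y e => Subtype.ext (h2.1 (congrArg Subtype.val e)), fun y => ?_⟩
    obtain ⟨x, hx⟩ := h2.2 y.1
    exact ⟨⟨x, .inr hm⟩, Subtype.ext hx⟩
  · have hb : ¬ (ovU U).mem (Over.mk b) := fun hb => hm fun t => by
      have h1 : a (IsLocalRing.closedPoint A) ∈ U := by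
        have := hb (IsLocalRing.closedPoint k)
        rw [← hab] at this
        rw [← IsLocalRing.comap_closedPoint φ]
        exact this
      exact ((IsLocalRing.specializes_closedPoint t).map a.continuous).mem_open U.2 h1
    exact ⟨fun x y _ => Subtype.ext ((x.2.resolve_right hm).trans (y.2.resolve_right hm).symm),
      fun y => ⟨0, (map_zero _).trans (Subtype.ext (y.2.resolve_right hb).symm)⟩⟩
theorem ez_Tor {F : Sh (Scheme.etaleTopology.over X)} (h : Tor l ((Over.map U.ι).op ⋙ F.obj)) :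
    Tor l ((ez U).obj F).obj := by
  intro T hT s
  obtain ⟨ι, _, V, v, hV, hv, hS⟩ := (finSite X).fin hT _ s.2
  have h1 : ∀ j, ∃ n : ℕ, l ^ n • F.obj.map (v j).op s.1 = 0 := fun j => by
    rcases hS j with h0 | h0
    · exact ⟨0, by rw [h0, smul_zero]⟩
    · have h2 := hV j
      generalize F.obj.map (v j).op s.1 = x
      generalize V j = W at x h0 h2
      obtain ⟨W', rfl⟩ := exists_lift U h0
      exact h W' h2 x
  choose n hn using h1
  obtain ⟨N, hN⟩ := (Set.finite_range n).bddAbove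
  refine ⟨N, Subtype.ext (sepP F.property (l ^ N • s.1) _ hv ?_)⟩
  rintro Y _ ⟨_, g, _, ⟨j⟩, rfl⟩
  obtain ⟨m, hm⟩ := Nat.exists_eq_add_of_le' (hN ⟨j, rfl⟩)
  rw [← res_res, map_nsmul, hm, pow_add, mul_smul, hn, smul_zero, map_zero]
theorem ez_cst_fr : Nonempty ((ez U).obj ((cst X).obj (.of (ULift ℤ))) ≅
    (fr (Scheme.etaleTopology.over X)).obj (Over.mk U.ι)) := by
  let K : PSh X := (Functor.const _).obj (.of (ULift ℤ))
  let Z : Sh (Scheme.etaleTopology.over X) := (cst X).obj (.of (ULift ℤ))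
  let τ : K ⟶ Z.obj := toSheafify (Scheme.etaleTopology.over X) K
  have hU : (ovU U).mem (Over.mk U.ι) := fun t => t.2
  let η : frP.obj (Over.mk U.ι) ⟶ ((ez U).obj Z).obj := (frPEquiv _ _).symm
    ⟨τ.app _ (ULift.up 1), mem_of _ _ _ (.inr hU)⟩
  have hη : ∀ {T : Over X} (x : T ⟶ Over.mk U.ι) (n : ℤ),
      (η.app (op T) (n • bas x)).1 = τ.app (op T) (ULift.up n) := fun {T} x n => by
    have h1 : (η.app (op T) (bas x)).1 = τ.app (op T) (ULift.up 1) :=
      (congrArg Subtype.val (lft_bas _ _ x)).trans (nat τ x _).symm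
    rw [map_zsmul]
    refine (congrArg (n • ·) h1).trans ((map_zsmul _ _ _).symm.trans ?_)
    exact congrArg _ (ULift.ext _ _ (mul_one n))
  have hsub : ∀ {T : Over X} (x y : T ⟶ Over.mk U.ι), x = y := fun x y =>
    Over.OverMorphism.ext ((cancel_mono U.ι).1 ((Over.w x).trans (Over.w y).symm))
  have hgen : ∀ {T : Over X} (z : (frP.obj (Over.mk U.ι)).obj (op T)),
      z = 0 ∨ ∃ (x : T ⟶ Over.mk U.ι) (n : ℤ), z = n • bas x := fun {T} z => by
    by_cases h0 : z = 0
    · exact .inl h0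
    · obtain ⟨x, -⟩ := Finsupp.ne_iff.1 h0
      refine .inr ⟨x.down, (show ULift.{1} (T ⟶ Over.mk U.ι) →₀ ℤ from z) x,
        Finsupp.ext fun y => ?_⟩
      obtain rfl : y = x := ULift.ext _ _ (hsub _ _)
      change _ = (_ • Finsupp.single y (1 : ℤ)) y
      simp
  have : Presheaf.IsLocallyInjective (Scheme.etaleTopology.over X) η := ⟨fun {T} a b hab => by
    have h1 : η.app T (a - b) = 0 := by rw [map_sub, hab, sub_self]
    rcases hgen (a - b) with h0 | ⟨x, n, h0⟩
    · rw [sub_eq_zero.1 h0, Presheaf.equalizerSieve_self_eq_top]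
      exact (Scheme.etaleTopology.over X).top_mem _
    · have h2 : τ.app T (ULift.up n) = τ.app T 0 := by
        rw [← hη x n, ← h0, map_zero]
        exact congrArg Subtype.val h1
      refine (Scheme.etaleTopology.over X).superset_covering (fun Y y hy => ?_)
        (Presheaf.equalizerSieve_mem (Scheme.etaleTopology.over X) τ _ _ h2)
      obtain rfl : n = 0 := congrArg ULift.down hy
      rw [zero_smul, sub_eq_zero] at h0
      rw [h0]
      rfl⟩
  have : Presheaf.IsLocallySurjective (Scheme.etaleTopology.over X) η := ⟨fun {T} s => by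
    refine (Scheme.etaleTopology.over X).transitive s.2 _ fun Y y hy => ?_
    rcases hy with hy | hy
    · refine (Scheme.etaleTopology.over X).superset_covering (fun W z _ => ⟨0, (map_zero _).trans (Subtype.ext ?_)⟩)
        ((Scheme.etaleTopology.over X).top_mem Y)
      exact ((res_res _ z y s.1).symm.trans ((congrArg _ hy).trans (map_zero _))).symm
    · refine (Scheme.etaleTopology.over X).superset_covering ?_
        (Presheaf.imageSieve_mem (Scheme.etaleTopology.over X) τ (Z.obj.map y.op s.1))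
      rintro W z ⟨t, ht⟩
      obtain ⟨W', rfl⟩ := exists_lift U ((ovU U).down z hy)
      exact ⟨t.down • bas (Over.homMk W'.hom), Subtype.ext ((hη _ _).trans
        (ht.trans (res_res _ z y s.1)))⟩⟩
  have : IsIso ((presheafToSheaf (Scheme.etaleTopology.over X) Ab.{1}).map η) :=
    ((Scheme.etaleTopology.over X).W_iff η).1 ((Scheme.etaleTopology.over X).W_of_isLocallyBijective η)
  exact ⟨sheafificationIso _ ≪≫ (asIso ((presheafToSheaf (Scheme.etaleTopology.over X) Ab.{1}).map η)).symm⟩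

end Pool.Agent.MP_855f4c_ag.E

end
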