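import Pool.Agent.MP_855f4c_ag.EC.F2b
import Pool.Agent.MP_855f4c_ag.EC.F2c
import Pool.Agent.MP_855f4c_ag.EC.F1b
import Pool.Agent.MP_855f4c_ag.EC.E4d
import Pool.Agent.MP_855f4c_ag.EC.Xa
import Pool.Agent.MP_855f4c_ag.EC.F2d

section

set_option backward.isDefEq.respectTransparency false

open CategoryTheory Limits Opposite AlgebraicGeometry Abelian

namespace Pool.Agent.MP_855f4c_ag.E

open E3

section gen
variable {C : Type*} [Category* C] {C' : Type*} [Category* C'] {I : Type} [SmallCategory I]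

lemma ColimAt.transfer {P : Cᵒᵖ ⥤ Ab.{1}} {Q : C'ᵒᵖ ⥤ Ab.{1}} {D : I ⥤ C} {D' : I ⥤ C'}
    {c : Cone D} {c' : Cone D'} (h : ColimAt P c)
    (e : ∀ i, P.obj (op (D.obj i)) →+ Q.obj (op (D'.obj i))) (e' : P.obj (op c.pt) →+ Q.obj (op c'.pt))
    (he : ∀ i, Function.Surjective (e i)) (he' : Function.Bijective e')
    (h1 : ∀ i x, Q.map (pr c' i).op (e i x) = e' (P.map (pr c i).op x))
    (h2 : ∀ {i j} (f : j ⟶ i) x, Q.map (D'.map f).op (e i x) = e j (P.map (D.map f).op x)) :
    ColimAt Q c' := by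
  refine ⟨fun s => ?_, fun i t ht => ?_⟩
  · obtain ⟨s, rfl⟩ := he'.2 s
    obtain ⟨i, t, rfl⟩ := h.1 s
    exact ⟨i, e i t, h1 i t⟩
  · obtain ⟨t, rfl⟩ := he i t
    obtain ⟨j, f, hf⟩ := h.2 i t (he'.1 (by rw [← h1, ht, map_zero]))
    exact ⟨j, f, by rw [h2, hf, map_zero]⟩

lemma ColimAt.bij {P Q : Cᵒᵖ ⥤ Ab.{1}} (η : P ⟶ Q) {D : I ⥤ C} {c : Cone D} (hP : ColimAt P c)
    (hQ : ColimAt Q c) (h : ∀ i, Function.Bijective (η.app (op (D.obj i)))) :
    Function.Bijective (η.app (op c.pt)) := by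
  refine ⟨(injective_iff_map_eq_zero _).2 fun s hs => ?_, fun s => ?_⟩
  · obtain ⟨i, t, rfl⟩ := hP.1 s
    obtain ⟨j, f, hf⟩ := hQ.2 i (η.app _ t) (by rw [← nat, hs])
    rw [← pr_w c f, ← res_res, (h j).1 (((nat η _ t).trans hf).trans (map_zero _).symm), map_zero]
  · obtain ⟨i, t, rfl⟩ := hQ.1 s
    obtain ⟨t, rfl⟩ := (h i).2 t
    exact ⟨_, nat η _ t⟩

lemma ColimAt.of_over [IsCofiltered I] {P : Cᵒᵖ ⥤ Ab.{1}} {D : I ⥤ C} {c : Cone D} (i₀ : I)
    (h : ColimAt P (c.whisker (Over.forget i₀))) : ColimAt P c := by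
  refine ⟨fun s => ?_, fun i t ht => ?_⟩
  · obtain ⟨j, t, ht⟩ := h.1 s
    exact ⟨j.left, t, ht⟩
  · obtain ⟨j, f, hf⟩ := h.2 (Over.mk (IsCofiltered.minToRight i i₀))
      (P.map (D.map (IsCofiltered.minToLeft i i₀)).op t) (by
        change P.map (pr c (IsCofiltered.min i i₀)).op
          (P.map (D.map (IsCofiltered.minToLeft i i₀)).op t) = 0
        rw [res_res, pr_w, ht])
    refine ⟨j.left, f.left ≫ IsCofiltered.minToLeft i i₀, ?_⟩
    rw [D.map_comp, ← res_res]
    exact hf

end gen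

section bp
variable {𝒜 : Type 2} [Category.{1} 𝒜] [Abelian 𝒜] {I : Type} [SmallCategory I] {A B : I ⥤ 𝒜}

/-- Sum of two systems. -/
noncomputable def limBp (A B : I ⥤ 𝒜) : I ⥤ 𝒜 where
  obj i := A.obj i ⊞ B.obj i
  map f := biprod.map (A.map f) (B.map f)

/-- Sum of two cones. -/
noncomputable def limBpC (a : Cone A) (b : Cone B) : Cone (limBp A B) where
  pt := a.pt ⊞ b.pt
  π := { app i := biprod.map (pr a i) (pr b i)
         naturality i j f := by
           change 𝟙 _ ≫ biprod.map _ _ = biprod.map _ _ ≫ biprod.map (A.map f) (B.map f)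
           ext <;> simp }

instance [HasExt.{1} 𝒜] (F : 𝒜) (q : ℕ) : (EP F q).Additive where
  map_add {_ _ f g} := congr_app ((extFunctor q).map_add (f := f) (g := g)) F

lemma bp_total (P : 𝒜ᵒᵖ ⥤ Ab.{1}) [P.Additive] {M N : 𝒜} (x : P.obj (op (M ⊞ N))) :
    x = P.map (biprod.fst : M ⊞ N ⟶ M).op (P.map (biprod.inl : M ⟶ M ⊞ N).op x) +
      P.map (biprod.snd : M ⊞ N ⟶ N).op (P.map (biprod.inr : N ⟶ M ⊞ N).op x) := by
  rw [res_res, res_res]
  conv_lhs => rw [← res_id P x, ← biprod.total, op_add, P.map_add]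
  rfl

lemma ColimAt.bp [IsCofiltered I] {P : 𝒜ᵒᵖ ⥤ Ab.{1}} [P.Additive] {a : Cone A} {b : Cone B}
    (ha : ColimAt P a) (hb : ColimAt P b) : ColimAt P (limBpC a b) := by
  refine ⟨fun (s : P.obj (op (a.pt ⊞ b.pt))) => ?_,
    fun i (t : P.obj (op (A.obj i ⊞ B.obj i))) (ht : P.map (biprod.map (pr a i) (pr b i)).op t = 0)
      => ?_⟩
  · obtain ⟨i, x, hx⟩ := ha.1 (P.map (biprod.inl : _ ⟶ a.pt ⊞ b.pt).op s)
    obtain ⟨j, y, hy⟩ := hb.1 (P.map (biprod.inr : _ ⟶ a.pt ⊞ b.pt).op s)
    refine ⟨IsCofiltered.min i j,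
      P.map (biprod.fst ≫ A.map (IsCofiltered.minToLeft i j) : A.obj _ ⊞ B.obj _ ⟶ _).op x +
      P.map (biprod.snd ≫ B.map (IsCofiltered.minToRight i j) : A.obj _ ⊞ B.obj _ ⟶ _).op y, ?_⟩
    change P.map (biprod.map (pr a _) (pr b _)).op _ = s
    rw [map_add, res_res, res_res, biprod.map_fst_assoc, biprod.map_snd_assoc, pr_w, pr_w,
      ← res_res, ← res_res, hx, hy, ← bp_total]
  · obtain ⟨j, f, hf⟩ := ha.2 i (P.map (biprod.inl : _ ⟶ A.obj i ⊞ B.obj i).op t) (by
      rw [res_res, ← biprod.inl_map _ (pr b i), ← res_res, ht, map_zero])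
    obtain ⟨k, g, hg⟩ := hb.2 j (P.map (B.map f ≫ biprod.inr : _ ⟶ A.obj i ⊞ B.obj i).op t) (by
      rw [res_res, pr_w_assoc, ← biprod.inr_map (pr a i), ← res_res, ht, map_zero])
    refine ⟨k, g ≫ f, ?_⟩
    change P.map (biprod.map (A.map (g ≫ f)) (B.map (g ≫ f))).op t = 0
    rw [bp_total P (P.map _ t), res_res P biprod.inl, res_res P biprod.inr, biprod.inl_map,
      biprod.inr_map, A.map_comp, B.map_comp, Category.assoc, Category.assoc, ← res_res P (A.map g),
      ← res_res P (A.map f), hf, ← res_res P (B.map g), hg]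
    simp

end bp

lemma Cech.Acy.of_bij {C : Type 1} [Category.{0} C] {V U : C} {p : V ⟶ U} {N : Cech p}
    {P Q : Cᵒᵖ ⥤ Ab.{1}} (η : P ⟶ Q) (h : ∀ n, Function.Bijective (η.app (op (N.X n))))
    (hQ : N.Acy Q) : N.Acy P := by
  have e (n) (s : P.obj (op (N.X n))) : η.app _ (N.cd P n s) = N.cd Q n (η.app _ s) := by
    simp only [Cech.cd, map_sum, map_zsmul, nat]
  intro n s hs
  obtain ⟨t, ht⟩ := hQ n (η.app _ s) (by rw [← e, hs, map_zero])
  obtain ⟨t, rfl⟩ := (h _).2 t
  exact ⟨t, (h _).1 (by rw [e, ht])⟩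

variable {X : Scheme.{0}} {l : ℕ}

theorem lfp_sheafify {P : PSh X} (hP : LFP P) :
    LFP ((presheafToSheaf (Scheme.etaleTopology.over X) Ab.{1}).obj P).obj :=
  LFPg.of_locBij (finSite X) ((presheafToSheaf (Scheme.etaleTopology.over X) Ab.{1}).obj P).property
    (toSheafify (Scheme.etaleTopology.over X) P) hP

theorem isIso_of_aff {F G : Sh (Scheme.etaleTopology.over X)} (φ : F ⟶ G)
    (h : ∀ T, Aff X T → Function.Bijective (φ.hom.app (op T))) : IsIso φ := by
  have cov (T : Over X) (S : Sieve T) (hS : ∀ ⦃V⦄ (v : V ⟶ T), Aff X V → S v) : S ∈ Scheme.etaleTopology.over X T :=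
    mem_Jov_of _ fun t => by
      obtain ⟨V, v, h1, h2, -, h3⟩ := exists_of_mem_Jov ((Scheme.etaleTopology.over X).top_mem T) t
      exact ⟨V, v, h2, hS v h1, h3⟩
  have : Sheaf.IsLocallyInjective φ := ⟨fun {T} x y e => cov _ _ fun V v hV =>
    (h V hV).1 (by rw [nat, nat]; exact congrArg _ e)⟩
  have : Sheaf.IsLocallySurjective φ := ⟨fun {T} s => cov _ _ fun V v hV => (h V hV).2 _⟩
  exact (Sheaf.isLocallyBijective_iff_isIso φ).1 ⟨inferInstance, inferInstance⟩

/-- Affine schemes of finite presentation. -/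
def Afp (X : Scheme.{0}) : ObjectProperty (Over X) :=
  fun T => Aff X T ∧ LocallyOfFinitePresentation T.hom

lemma Afp.of_etale {V U : Over X} (v : V ⟶ U) [Etale v.left] (hV : Aff X V) (hU : Afp X U) :
    Afp X V := by
  have := hU.2
  exact ⟨hV, by rw [← Over.w v]; infer_instance⟩

lemma lanOK_afp [IsAffine X] : LanOK (Scheme.etaleTopology.over X) (Afp X) where
  term := ⟨Over.mk (𝟙 X), ⟨‹_›, (inferInstance : LocallyOfFinitePresentation (𝟙 X))⟩,
    ⟨Over.mkIdTerminal⟩⟩
  pb {V T T'} f g h1 h2 h3 := by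
    refine ⟨aff_pb f g h1.1 h2.1 h3.1, ?_⟩
    have : IsAffine T.left := h2.1
    have : IsAffine T'.left := h3.1
    have := h1.2
    have h2' := h2.2
    have h3' := h3.2
    have : LocallyOfFinitePresentation g.left := by
      have h2'' : LocallyOfFiniteType T.hom := inferInstance
      rw [← Over.w g] at h3'
      rw [HasRingHomProperty.iff_of_isAffine (P := @LocallyOfFinitePresentation)] at h3' ⊢
      rw [HasRingHomProperty.iff_of_isAffine (P := @LocallyOfFiniteType)] at h2''
      rw [Scheme.Hom.comp_appTop, CommRingCat.hom_comp] at h3'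
      exact RingHom.FinitePresentation.of_comp_finiteType _ h3' h2''
    have : LocallyOfFinitePresentation (pullback.fst f g).left :=
      MorphismProperty.of_isPullback (isPullback_left (IsPullback.of_hasPullback f g)).flip this
    rw [← Over.w (pullback.fst f g)]
    infer_instance
  cov {U} hU S hS := by
    choose V v h1 h2 h3 h4 using exists_of_mem_Jov hS
    refine ⟨Sieve.ofArrows V v, mem_Jov_of _ fun t =>
      ⟨V t, v t, h2 t, Sieve.ofArrows_mk _ _ t, h4 t⟩, ?_⟩
    rintro Y y ⟨_, a, _, ⟨t⟩, e⟩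
    have := h2 t
    exact ⟨V t, v t, a, .of_etale (v t) (h1 t) hU, h3 t, e⟩

lemma afp_lfp [IsAffine X] (G : Sh (Scheme.etaleTopology.over X)) : LFP ((Lc (Scheme.etaleTopology.over X) (Afp X)).obj G).obj :=
  lfp_sheafify (lan_lfp lanOK_afp (fun _ _ _ _ _ hD hc U hU =>
    have := hU.2
    ⟨hom_surj hD hc U, hom_inj hD hc U⟩) _)

lemma afp_iso [IsAffine X] {F : Sh (Scheme.etaleTopology.over X)} (hF : LFP F.obj) :
    IsIso ((Lcε (Scheme.etaleTopology.over X) (Afp X)).app F) := by
  refine isIso_of_aff _ fun T hT => ?_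
  obtain ⟨I, _, _, D, c, hc, e, hD⟩ := pres_fp T hT
  have hc' := IsLimit.extendIso e.inv hc
  exact ColimAt.bij (c := c.extend e.inv) _ (afp_lfp F I D _ (fun i => (hD i).1) hc')
    (hF I D _ (fun i => (hD i).1) hc') fun i => Lcε_bij lanOK_afp F (hD i)

lemma afp_acyclic [IsAffine X] (G : Sh (Scheme.etaleTopology.over X)) [Injective G] (T : Over X) (hT : Aff X T) (q : ℕ)
    (x : H T ((Lc (Scheme.etaleTopology.over X) (Afp X)).obj G) (q + 1)) : x = 0 := by
  have : IsAffine T.left := hT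
  refine cartan_aff (fun _ => True) (fun _ _ _ _ _ => trivial) _ ?_ trivial q x
  intro V U p _ hU hV _ _ N
  obtain ⟨I, _, _, D, c, hc, e, hD⟩ := pres_fp U hU
  have hc' := IsLimit.extendIso e.inv hc
  obtain ⟨i, V₀, v₀, m, h1, h2, h3, h4⟩ := desc_etale_surj (c := c.extend e.inv)
    (fun i => (hD i).1) hc' hV p
  refine acy_lim (finSite X) (c := c.extend e.inv) (fun i => (hD i).1) hc' (afp_lfp G) v₀ h4.flip
    (fun j f M => ?_) N
  have : IsAffine (pullback v₀ (D.map f)).left := aff_pb _ _ h1 (hD _).1 (hD _).1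
  have : IsAffine (D.obj j).left := (hD j).1
  have : Etale (pullback.snd v₀ (D.map f)).left :=
    MorphismProperty.of_isPullback (isPullback_left (IsPullback.of_hasPullback v₀ (D.map f))) h2
  refine ⟨M.isAffine, .of_bij ((Lcε (Scheme.etaleTopology.over X) (Afp X)).app G).hom (fun n => ?_) (M.acy_inj G)⟩
  have := M.etale_b n
  exact Lcε_bij lanOK_afp G (.of_etale (M.b n) (M.isAffine n) (hD j))

lemma colimAt_zero {F : Sh (Scheme.etaleTopology.over X)} {I : Type} [SmallCategory I] {D : I ⥤ Over X} {c : Cone D}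
    (h : ColimAt F.obj c) : ColimAt (HP F 0) c := by
  let e (T : Over X) : F.obj.obj (op T) ≃+ H T F 0 := (frEquiv T F).symm.trans Ext.addEquiv₀.symm
  have he {T' T : Over X} (g : T' ⟶ T) (x) : (HP F 0).map g.op (e T x) = e T' (F.obj.map g.op x) := by
    obtain ⟨x, rfl⟩ := (frEquiv T F).surjective x
    rw [← frEquiv_pre]
    simp only [e, AddEquiv.trans_apply, AddEquiv.symm_apply_apply]
    exact Ext.mk₀_comp_mk₀ _ _
  exact h.transfer (fun i => (e _).toAddMonoidHom) (e _).toAddMonoidHom (fun i => (e _).surjective)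
    (e _).bijective (fun i x => he _ x) fun f x => he _ x

theorem lim_aff0 [IsAffine X] {F : Sh (Scheme.etaleTopology.over X)} (hF : LFP F.obj) (q : ℕ) : LFP (HP F q) := by
  intro I _ _ D c hD hc
  refine lim_class (fun F : Sh (Scheme.etaleTopology.over X) => LFP F.obj) ((fr (Scheme.etaleTopology.over X)).mapCone c)
    (fun F hF => colimAt_zero (hF I D c hD hc)) (fun F hF => ?_) q F hF
  let P : InjectivePresentation F := Classical.arbitrary _
  have := P.injective
  have hS : (ShortComplex.mk _ _ (cokernel.condition P.f)).ShortExact :=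
    { exact := ShortComplex.exact_cokernel P.f }
  have := afp_iso hF
  exact ⟨_, Lc_shortExact lanOK_afp hS, ⟨asIso ((Lcε (Scheme.etaleTopology.over X) (Afp X)).app F)⟩, afp_lfp _, afp_lfp _,
    afp_acyclic P.J c.pt (isAffine_lim hD hc), fun i => afp_acyclic P.J _ (hD i)⟩

/-- `LFP` can be tested after restriction to affine schemes over `X`. -/
theorem LFP.of_restrict {P : PSh X}
    (h : ∀ T : Over X, Aff X T → LFP ((Over.map T.hom).op ⋙ P)) : LFP P := by
  intro I _ _ D c hD hc
  obtain ⟨i⟩ := IsCofiltered.nonempty (C := I)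
  refine ColimAt.of_over i ?_
  let T := D.obj i
  have h1 := h T (hD i) (Over i) (Over.post D ⋙ T.iteratedSliceForward)
    (T.iteratedSliceForward.mapCone ((Over.conePost D i).obj c)) (fun j => hD j.left)
    (isLimitOfPreserves T.iteratedSliceEquiv.functor (Over.isLimitConePost i hc))
  let ι {Y : Over X} (y : Y ⟶ T) : Y ≅ (Over.map T.hom).obj (Over.mk y.left) :=
    Over.isoMk (Iso.refl _) (by simp)
  have bij {Y : Over X} (y : Y ⟶ T) : Function.Bijective (P.map (ι y).hom.op) :=
    ConcreteCategory.bijective_of_isIso _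
  refine h1.transfer (fun j => (P.map (ι (D.map j.hom)).hom.op).hom) (P.map (ι (pr c i)).hom.op).hom
    (fun j => (bij _).2) (bij _) (fun j x => ?_) fun f x => ?_
  · refine (res_res P _ _ x).trans (Eq.trans ?_ (res_res P _ _ x).symm)
    congr 3
  · refine (res_res P _ _ x).trans (Eq.trans ?_ (res_res P _ _ x).symm)
    congr 3

lemma colimAt_HP_of {C C' : Type 1} [Category.{0} C] [Category.{0} C'] (J : GrothendieckTopology C)
    (J' : GrothendieckTopology C') (G : C' ⥤ C) (F : Sh J) (F' : Sh J') (q : ℕ)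
    (s : ∀ U : C', H (G.obj U) F q →+ H U F' q) (hs : ∀ U, Function.Bijective (s U))
    (hr : ∀ {U V : C'} (g : V ⟶ U) (x : H (G.obj U) F q),
      s V (res (G.map g) F q x) = res g F' q (s U x))
    {I : Type} [SmallCategory I] {D : I ⥤ C'} {c : Cone D} (h : ColimAt (HP F' q) c) :
    ColimAt (G.op ⋙ HP F q) c := by
  let e (U : C') := AddEquiv.ofBijective _ (hs U)
  have he {U V : C'} (g : V ⟶ U) (x) : (G.op ⋙ HP F q).map g.op
      ((e U).symm x) = (e V).symm ((HP F' q).map g.op x) := by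
    obtain ⟨x, rfl⟩ := (e U).surjective x
    rw [AddEquiv.symm_apply_apply]
    exact (e V).eq_symm_apply.2 (hr g x)
  exact h.transfer
    (fun i => (e _).symm.toAddMonoidHom) (e _).symm.toAddMonoidHom (fun i => (e _).symm.surjective)
    (e _).symm.bijective (fun i x => he _ x) fun f x => he _ x

theorem lim_aff {F : Sh (Scheme.etaleTopology.over X)} (hF : LFP F.obj) (q : ℕ) : LFP (HP F q) := by
  refine LFP.of_restrict fun T hT I _ _ D c hD hc => ?_
  have : IsAffine T.left := hT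
  exact colimAt_HP_of (Scheme.etaleTopology.over X) (Scheme.etaleTopology.over T.left) (Over.map T.hom) F ((pb T.hom).obj F) q
    (fun U => E4.slH T.hom U F q) (fun U => E4.slH_bij T.hom U F q)
    (fun g x => E4.slH_res T.hom g F q x)
    (lim_aff0 (F := (pb T.hom).obj F) (hF.restrict T.hom) q I D c hD hc)

section mv
variable {C : Type 1} [Category.{0} C] [HasPullbacks C] {T W U V Y : C}

/-- Base change of a morphism over `T`. -/
noncomputable def limPm (g : Y ⟶ T) {w : W ⟶ T} {u : U ⟶ T} (a : W ⟶ U) (h : a ≫ u = w) :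
    pullback g w ⟶ pullback g u :=
  pullback.lift (pullback.fst _ _) (pullback.snd _ _ ≫ a) (by simp [h, pullback.condition])

@[reassoc (attr := simp)]
lemma limPm_fst (g : Y ⟶ T) {w : W ⟶ T} {u : U ⟶ T} (a : W ⟶ U) (h : a ≫ u = w) :
    limPm g a h ≫ pullback.fst _ _ = pullback.fst _ _ := pullback.lift_fst _ _ _

@[reassoc (attr := simp)]
lemma limPm_snd (g : Y ⟶ T) {w : W ⟶ T} {u : U ⟶ T} (a : W ⟶ U) (h : a ≫ u = w) :
    limPm g a h ≫ pullback.snd _ _ = pullback.snd _ _ ≫ a := pullback.lift_snd _ _ _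

lemma limPm_isPullback (g : Y ⟶ T) {u : U ⟶ T} {v : V ⟶ T} {a₁ : W ⟶ U} {a₂ : W ⟶ V}
    (h : IsPullback a₁ a₂ u v) :
    IsPullback (limPm g a₁ rfl) (limPm g a₂ h.w.symm) (pullback.fst g u) (pullback.fst g v) := by
  refine ⟨⟨by simp⟩, ⟨PullbackCone.IsLimit.mk _
    (fun s => pullback.lift (s.fst ≫ pullback.fst _ _)
      (h.lift (s.fst ≫ pullback.snd _ _) (s.snd ≫ pullback.snd _ _) (by
        simp only [Category.assoc, ← pullback.condition, s.condition_assoc]))
      (by simp [pullback.condition])) (fun s => ?_) (fun s => ?_) fun s m h1 h2 => ?_⟩⟩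
  · apply pullback.hom_ext <;> simp
  · apply pullback.hom_ext <;> simp [s.condition]
  · apply pullback.hom_ext
    · simp [← h1]
    · refine h.hom_ext ?_ ?_
      · rw [pullback.lift_snd, h.lift_fst, ← h1]; simp
      · rw [pullback.lift_snd, h.lift_snd, ← h2]; simp

variable {I : Type} [SmallCategory I] {D : I ⥤ C}

lemma bcM_isPullback (i : I) {V : C} (v : V ⟶ D.obj i) {j k : Over i} (g : k ⟶ j) :
    IsPullback (bcM D i v g) (pullback.fst _ _) (pullback.fst _ _) (D.map g.left) :=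
  IsPullback.of_right (h₁₂ := pullback.snd _ _) (v₁₃ := v) (h₂₂ := D.map j.hom) (by
    rw [bcM_snd, ← D.map_comp, Over.w g]
    exact (IsPullback.of_hasPullback _ _).flip) (bcM_fst ..) (IsPullback.of_hasPullback _ _).flip

end mv

section qcs
variable {I : Type} [SmallCategory I] [IsCofiltered I] {D : I ⥤ Over X} {c : Cone D}

theorem lim_mv (F : Sh (Scheme.etaleTopology.over X)) (i : I) {W U V : Over X} {u : U ⟶ D.obj i} {v : V ⟶ D.obj i}
    {a₁ : W ⟶ U} {a₂ : W ⟶ V} (h : IsPullback a₁ a₂ u v) [IsOpenImmersion u.left]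
    [IsOpenImmersion v.left] (hc : ∀ t, t ∈ Set.range u.left ∨ t ∈ Set.range v.left)
    (hW : ∀ q, ColimAt (HP F q) (bcC c i (a₁ ≫ u))) (hU : ∀ q, ColimAt (HP F q) (bcC c i u))
    (hV : ∀ q, ColimAt (HP F q) (bcC c i v)) (q : ℕ) : ColimAt (HP F q) c := by
  have ex {Y : Over X} (g : Y ⟶ D.obj i) :
      (mvS (Scheme.etaleTopology.over X) (limPm_isPullback g h).w).ShortExact := by
    have p1 := isPullback_left (IsPullback.of_hasPullback g u)
    have p2 := isPullback_left (IsPullback.of_hasPullback g v)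
    have : IsOpenImmersion (pullback.fst g u).left := MorphismProperty.of_isPullback p1.flip ‹_›
    have : IsOpenImmersion (pullback.fst g v).left := MorphismProperty.of_isPullback p2.flip ‹_›
    refine mv_open (limPm_isPullback g h) fun t => (hc (g.left t)).imp ?_ ?_
    · rintro ⟨z, hz⟩
      obtain ⟨w, h1, -⟩ := Scheme.exists_preimage_of_isPullback p1 t z hz.symm
      exact ⟨w, h1⟩
    · rintro ⟨z, hz⟩
      obtain ⟨w, h1, -⟩ := Scheme.exists_preimage_of_isPullback p2 t z hz.symm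
      exact ⟨w, h1⟩
  refine ColimAt.of_over i (lim_23 (A₁ := bcD D i (a₁ ≫ u) ⋙ fr _)
    (A₂ := limBp (bcD D i u ⋙ fr _) (bcD D i v ⋙ fr _)) (A₃ := (Over.forget i ⋙ D) ⋙ fr _)
    { app j := (mvS (Scheme.etaleTopology.over X) (limPm_isPullback (D.map j.hom) h).w).f
      naturality j k g := (mvMap (Scheme.etaleTopology.over X) (limPm_isPullback (D.map k.hom) h).w
        (limPm_isPullback (D.map j.hom) h).w (bcM D i _ g) (bcM D i _ g) (bcM D i _ g)
        (D.map g.left) ?_ ?_ (bcM_fst ..).symm (bcM_fst ..).symm).comm₁₂ }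
    { app j := (mvS (Scheme.etaleTopology.over X) (limPm_isPullback (D.map j.hom) h).w).g
      naturality j k g := (mvMap (Scheme.etaleTopology.over X) (limPm_isPullback (D.map k.hom) h).w
        (limPm_isPullback (D.map j.hom) h).w (bcM D i _ g) (bcM D i _ g) (bcM D i _ g)
        (D.map g.left) ?_ ?_ (bcM_fst ..).symm (bcM_fst ..).symm).comm₂₃ }
    (fun j => (mvS (Scheme.etaleTopology.over X) (limPm_isPullback (D.map j.hom) h).w).zero) (fun j => ex _) ((fr _).mapCone (bcC c i (a₁ ≫ u)))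
    (limBpC ((fr _).mapCone (bcC c i u)) ((fr _).mapCone (bcC c i v)))
    ((fr _).mapCone (c.whisker (Over.forget i)))
    (mvS (Scheme.etaleTopology.over X) (limPm_isPullback (pr c i) h).w).f (mvS (Scheme.etaleTopology.over X) (limPm_isPullback (pr c i) h).w).g
    (mvS (Scheme.etaleTopology.over X) (limPm_isPullback (pr c i) h).w).zero (ex _)
    (fun j => (mvMap (Scheme.etaleTopology.over X) (limPm_isPullback (D.map j.hom) h).w (limPm_isPullback (pr c i) h).w
      (bcP c i _ j) (bcP c i _ j) (bcP c i _ j) (pr c j.left) ?_ ?_ (bcP_fst ..).symm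
      (bcP_fst ..).symm).comm₁₂.symm)
    (fun j => (mvMap (Scheme.etaleTopology.over X) (limPm_isPullback (D.map j.hom) h).w (limPm_isPullback (pr c i) h).w
      (bcP c i _ j) (bcP c i _ j) (bcP c i _ j) (pr c j.left) ?_ ?_ (bcP_fst ..).symm
      (bcP_fst ..).symm).comm₂₃.symm)
    F hW (fun q => ColimAt.bp (hU q) (hV q)) q)
  all_goals
    apply pullback.hom_ext <;>
      simp [bcM_fst, bcM_snd, bcP_fst, bcP_snd, bcM_snd_assoc, bcP_snd_assoc]

omit [IsCofiltered I] in
lemma bc_affine (hD : ∀ {i j : I} (f : i ⟶ j), IsAffineHom (D.map f).left) (i : I) {V : Over X}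
    (v : V ⟶ D.obj i) {j k : Over i} (g : k ⟶ j) : IsAffineHom ((bcD D i v).map g).left :=
  MorphismProperty.of_isPullback (isPullback_left (bcM_isPullback i v g)).flip (hD _)

lemma sep_of_hom {Y Z : Scheme.{0}} (f : Y ⟶ Z) [IsSeparated f] (h : Z.IsSeparated) :
    Y.IsSeparated := by
  have := h.1
  exact ⟨by rw [← terminal.comp_from f]; infer_instance⟩

omit [IsCofiltered I] in
lemma bc_sep (hs : ∀ i, (D.obj i).left.IsSeparated) (i : I) {V : Over X} (v : V ⟶ D.obj i)
    [IsSeparated v.left] (j : Over i) : ((bcD D i v).obj j).left.IsSeparated := by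
  have : IsSeparated (pullback.fst (D.map j.hom) v).left := MorphismProperty.of_isPullback
    (isPullback_left (IsPullback.of_hasPullback (D.map j.hom) v)).flip ‹_›
  exact sep_of_hom (pullback.fst (D.map j.hom) v).left (hs _)

theorem lim_qcs_aff {F : Sh (Scheme.etaleTopology.over X)} (hF : LFP F.obj)
    (hD : ∀ {i j : I} (f : i ⟶ j), IsAffineHom (D.map f).left) (hc : IsLimit c) (i : I)
    (hi : IsAffine (D.obj i).left) (q : ℕ) : ColimAt (HP F q) c :=
  .of_over i (lim_aff hF q _ _ _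
    (fun j => have := hD j.hom; isAffine_of_isAffineHom (D.map j.hom).left)
    ((Functor.Initial.isLimitWhiskerEquiv (Over.forget i) c).symm hc))

end qcs

theorem lim_qcs_fin {F : Sh (Scheme.etaleTopology.over X)} (hF : LFP F.obj) (n : ℕ) :
    ∀ (I : Type) [SmallCategory I] [IsCofiltered I] (D : I ⥤ Over X) (c : Cone D)
      (_ : ∀ {i j : I} (f : i ⟶ j), IsAffineHom (D.map f).left)
      (_ : ∀ i, (D.obj i).left.IsSeparated) (_ : IsLimit c) (i : I)
      (W : Fin n → (D.obj i).left.Opens) (_ : ∀ k, IsAffineOpen (W k)) (_ : ∀ t, ∃ k, t ∈ W k)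
      (q : ℕ), ColimAt (HP F q) c := by
  induction n with
  | zero =>
    intro I _ _ D c hD hs hc i W _ h q
    have : IsEmpty (D.obj i).left := ⟨fun t => (h t).choose.elim0⟩
    exact lim_qcs_aff hF hD hc i inferInstance q
  | succ n ih =>
    intro I _ _ D c hD hs hc i W hW h q
    have key {Y : Over X} (y : Y ⟶ D.obj i) [IsOpenImmersion y.left]
        (W' : Fin n → (D.obj i).left.Opens) (h1 : ∀ k, IsAffineOpen (W' k))
        (h2 : ∀ t, t ∈ Set.range y.left ↔ ∃ k, t ∈ W' k) (q) : ColimAt (HP F q) (bcC c i y) := by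
      have p1 := isPullback_left (IsPullback.of_hasPullback (D.map (𝟙 i)) y)
      have : IsIso (pullback.snd (D.map (𝟙 i)) y).left :=
        inferInstanceAs (IsIso ((Over.forget X).map (pullback.snd (D.map (𝟙 i)) y)))
      let e := (pullback.snd (D.map (𝟙 i)) y).left ≫ y.left
      refine ih _ _ _ (bc_affine hD i y) (bc_sep hs i y) (bcL hc i y) (Over.mk (𝟙 i))
        (fun k => e ⁻¹ᵁ W' k) (fun k => (h1 k).preimage_of_isOpenImmersion e fun t ht => ?_)
        (fun t => (h2 (e t)).1 ⟨_, (Scheme.Hom.comp_apply _ _ t).symm⟩) q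
      obtain ⟨z, rfl⟩ := (h2 t).2 ⟨k, ht⟩
      obtain ⟨w, rfl⟩ := (pullback.snd (D.map (𝟙 i)) y).left.surjective z
      exact ⟨w, Scheme.Hom.comp_apply _ _ w⟩
    let U := ⨆ k : Fin n, W k.succ
    have hu : IsOpenImmersion (opι (D.obj i) U).left := inferInstanceAs (IsOpenImmersion U.ι)
    have hv : IsOpenImmersion (opι (D.obj i) (W 0)).left :=
      inferInstanceAs (IsOpenImmersion (W 0).ι)
    have ru : Set.range (opι (D.obj i) U).left = U := U.range_ι
    have rv : Set.range (opι (D.obj i) (W 0)).left = W 0 := (W 0).range_ι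
    have p := IsPullback.of_hasPullback (opι (D.obj i) U) (opι (D.obj i) (W 0))
    have p1 := isPullback_left p
    have : IsOpenImmersion (pullback.fst (opι (D.obj i) U) (opι (D.obj i) (W 0))).left :=
      MorphismProperty.of_isPullback p1.flip hv
    have : IsOpenImmersion (pullback.fst (opι (D.obj i) U) (opι (D.obj i) (W 0)) ≫
      opι (D.obj i) U).left := by rw [Over.comp_left]; infer_instance
    have := hs i
    refine lim_mv F i p (fun t => ?_)
      (key _ (fun k => W k.succ ⊓ W 0) (fun k => (hW _).inf (hW _)) fun t => ⟨?_, ?_⟩)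
      (key _ (fun k => W k.succ) (fun k => hW _) fun t => by
        rw [ru]; exact TopologicalSpace.Opens.mem_iSup) (fun q => ?_) q
    · rw [ru, rv]
      obtain ⟨k, hk⟩ := h t
      induction k using Fin.cases with
      | zero => exact .inr hk
      | succ k => exact .inl (TopologicalSpace.Opens.mem_iSup.2 ⟨k, hk⟩)
    · rintro ⟨z, rfl⟩
      obtain ⟨k, hk⟩ := TopologicalSpace.Opens.mem_iSup.1 (ru.le ⟨(pullback.fst
        (opι (D.obj i) U) (opι (D.obj i) (W 0))).left z, rfl⟩)
      refine ⟨k, by simpa using hk, rv.le ⟨(pullback.snd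
        (opι (D.obj i) U) (opι (D.obj i) (W 0))).left z, ?_⟩⟩
      rw [← Scheme.Hom.comp_apply, ← Over.comp_left, pullback.condition]
    · rintro ⟨k, h1, h2⟩
      obtain ⟨a, ha⟩ := ru.ge (TopologicalSpace.Opens.mem_iSup.2 ⟨k, h1⟩)
      obtain ⟨b, hb⟩ := rv.ge h2
      obtain ⟨w, h3, -⟩ := Scheme.exists_preimage_of_isPullback p1 a b (ha.trans hb.symm)
      exact ⟨w, by rw [Over.comp_left, Scheme.Hom.comp_apply, h3, ha]⟩
    · have : IsAffine (opn (D.obj i) (W 0)).left := hW 0
      have : IsIso (pullback.snd (D.map (𝟙 i)) (opι (D.obj i) (W 0))).left :=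
        inferInstanceAs (IsIso ((Over.forget X).map (pullback.snd (D.map (𝟙 i)) _)))
      exact lim_qcs_aff hF (bc_affine hD i _) (bcL hc i _) (Over.mk (𝟙 i))
        (.of_isIso (pullback.snd (D.map (𝟙 i)) (opι (D.obj i) (W 0))).left) q

theorem lim_qcs {F : Sh (Scheme.etaleTopology.over X)} (hF : LFP F.obj) {I : Type} [SmallCategory I] [IsCofiltered I]
    {D : I ⥤ Over X} {c : Cone D} (hD : ∀ {i j : I} (f : i ⟶ j), IsAffineHom (D.map f).left)
    (hq : ∀ i, CompactSpace (D.obj i).left) (hs : ∀ i, (D.obj i).left.IsSeparated)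
    (hc : IsLimit c) (q : ℕ) : ColimAt (HP F q) c := by
  obtain ⟨i⟩ := IsCofiltered.nonempty (C := I)
  have := hq i
  obtain ⟨s, hs1, hs2⟩ := (isCompact_iff_finite_and_eq_biUnion_affineOpens
    (U := (⊤ : (D.obj i).left.Opens))).1 isCompact_univ
  obtain ⟨n, ⟨e⟩⟩ := @Finite.exists_equiv_fin s hs1
  refine lim_qcs_fin hF n I D c hD hs hc i (fun k => (e.symm k).1) (fun k => (e.symm k).1.2)
    (fun t => ?_) q
  have : t ∈ ⨆ i ∈ s, (i : (D.obj _).left.Opens) := hs2 ▸ trivial
  simp only [TopologicalSpace.Opens.mem_iSup] at this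
  obtain ⟨U, hU, ht⟩ := this
  exact ⟨e ⟨U, hU⟩, by simpa using ht⟩

lemma pullback_map_isPullback {Y : Scheme.{0}} (f : Y ⟶ X) {T' T : Over X} (g : T' ⟶ T) :
    IsPullback ((Over.pullback f).map g).left (pullback.fst T'.hom f) (pullback.fst T.hom f)
      g.left :=
  IsPullback.of_right (h₁₂ := pullback.snd _ _) (v₁₃ := f) (h₂₂ := T.hom) (by
    rw [Over.w g, show ((Over.pullback f).map g).left ≫ pullback.snd T.hom f =
      pullback.snd T'.hom f from pullback.lift_snd _ _ _]
    exact (IsPullback.of_hasPullback _ _).flip) (pullback.lift_fst _ _ _)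
    (IsPullback.of_hasPullback _ _).flip

lemma pullback_compact {Y : Scheme.{0}} (f : Y ⟶ X) [QuasiCompact f] (T : Over X)
    [CompactSpace T.left] : CompactSpace ((Over.pullback f).obj T).left :=
  QuasiCompact.compactSpace_of_compactSpace (pullback.fst T.hom f)

lemma pullback_sep {Y : Scheme.{0}} (f : Y ⟶ X) [IsSeparated f] (T : Over X)
    [h : T.left.IsSeparated] : ((Over.pullback f).obj T).left.IsSeparated :=
  sep_of_hom (pullback.fst T.hom f) h

theorem lim_pb {Y : Scheme.{0}} (f : Y ⟶ X) [QuasiCompact f] [IsSeparated f] {F : Sh (Scheme.etaleTopology.over Y)}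
    (hF : LFP F.obj) (q : ℕ) : LFP ((Over.pullback f).op ⋙ HP F q) := by
  intro I _ _ D c hD hc
  have (i : I) : IsAffine (D.obj i).left := hD i
  exact lim_qcs hF (c := (Over.pullback f).mapCone c)
    (fun g => MorphismProperty.of_isPullback (pullback_map_isPullback f (D.map g)).flip
      (inferInstance : IsAffineHom (D.map g).left))
    (fun i => pullback_compact f (D.obj i)) (fun i => pullback_sep f (D.obj i))
    (isLimitOfPreserves _ hc) q

end Pool.Agent.MP_855f4c_ag.E

end

section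

set_option backward.isDefEq.respectTransparency false

open CategoryTheory Limits Opposite AlgebraicGeometry Abelian

namespace Pool.Agent.MP_855f4c_ag.E

open E3

variable {X : Scheme.{0}} {l : ℕ}

variable {T T' W W' : Over X} {g : T' ⟶ T} {u : W ⟶ T} {u' : W' ⟶ T'} {g' : W' ⟶ W}

/-- `ℤ[T']/ℤ[W'] ⟶ ℤ[T]/ℤ[W]` -/
noncomputable def prM (h : u' ≫ g = g' ≫ u) :
    cokernel ((fr (Scheme.etaleTopology.over X)).map u') ⟶ cokernel ((fr (Scheme.etaleTopology.over X)).map u) :=
  cokernel.map _ _ ((fr _).map g') ((fr _).map g) (by rw [← Functor.map_comp, ← Functor.map_comp, h])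

/-- `g` is bijective on geometric points over the complement of `W`. -/
def GeomBij (g : T' ⟶ T) (u : W ⟶ T) : Prop :=
  ∀ (k : Type) [Field k] [IsAlgClosed k] (y : Spec (.of k) ⟶ T.left),
    (∀ z, y z ∉ Set.range u.left) → ∃! y' : Spec (.of k) ⟶ T'.left, y' ≫ g.left = y

@[reassoc]
lemma exc_π (h : u' ≫ g = g' ≫ u) :
    cokernel.π _ ≫ prM h = (fr (Scheme.etaleTopology.over X)).map g ≫ cokernel.π _ := cokernel.π_desc _ _ _

lemma exc_comp {T'' W'' : Over X} {u'' : W'' ⟶ T''} {a : T'' ⟶ T'} {a' : W'' ⟶ W'} {b : T'' ⟶ T}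
    {b' : W'' ⟶ W} (h1 : u'' ≫ a = a' ≫ u') (h2 : u' ≫ g = g' ≫ u) (h3 : u'' ≫ b = b' ≫ u)
    (e : a ≫ g = b) : prM h1 ≫ prM h2 = prM h3 := by
  rw [← cancel_epi (cokernel.π _), exc_π_assoc, exc_π, exc_π, ← Functor.map_comp_assoc, e]

lemma exc_geom (Y : Scheme.{0}) (t : Y) : ∃ (k : Type) (_ : Field k) (_ : IsAlgClosed k)
    (p : Spec (.of k) ⟶ Y) (_ : Spec (CommRingCat.of k)), ∀ z, p z = t := by
  let k := AlgebraicClosure (Y.residueField t)
  let φ : Y.residueField t ⟶ CommRingCat.of k :=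
    CommRingCat.ofHom (algebraMap (Y.residueField t) k)
  refine ⟨k, inferInstance, inferInstance, Spec.map φ ≫ Y.fromSpecResidueField t,
    IsLocalRing.closedPoint k, fun z => ?_⟩
  rw [Scheme.Hom.comp_apply, Scheme.fromSpecResidueField_apply]

/-- The open locus where two lifts agree. -/
lemma exc_eqL {Y A B : Scheme.{0}} (g : A ⟶ B) [Etale g] (a a' : Y ⟶ A) (e : a ≫ g = a' ≫ g) :
    ∃ O : Y.Opens, ∀ ⦃P : Scheme.{0}⦄ (p : P ⟶ Y), (∀ z, p z ∈ O) ↔ p ≫ a = p ≫ a' := by
  refine ⟨pullback.lift a a' e ⁻¹ᵁ (pullback.diagonal g).opensRange, fun P p => ⟨fun h => ?_,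
    fun h z => ⟨(p ≫ a) z, ?_⟩⟩⟩
  · have := IsOpenImmersion.lift_fac (pullback.diagonal g) (p ≫ pullback.lift a a' e)
      (by rintro _ ⟨z, rfl⟩; exact h z)
    have h1 := congr($this ≫ pullback.fst g g)
    have h2 := congr($this ≫ pullback.snd g g)
    simp only [Category.assoc, pullback.diagonal_fst, pullback.diagonal_snd, pullback.lift_fst,
      pullback.lift_snd] at h1 h2
    exact h1.symm.trans h2
  · have : (p ≫ a) ≫ pullback.diagonal g = p ≫ pullback.lift a a' e := by
      apply pullback.hom_ext <;> simp [h]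
    exact congr($this z)

lemma exc_mono (u : W ⟶ T) [IsOpenImmersion u.left] : Mono u :=
  ⟨fun _ _ h => Over.OverMorphism.ext ((cancel_mono u.left).1 (congrArg (·.left) h))⟩

lemma exc_fac (u : W ⟶ T) [IsOpenImmersion u.left] {Y : Over X} (y : Y ⟶ T)
    (h : ∀ z, y.left z ∈ Set.range u.left) : ∃ b : Y ⟶ W, b ≫ u = y := by
  obtain ⟨b, e⟩ : ∃ b, b ≫ u.left = y.left :=
    ⟨_, IsOpenImmersion.lift_fac u.left y.left (by rintro _ ⟨z, rfl⟩; exact h z)⟩
  exact ⟨Over.homMk b (by rw [← Over.w u, ← Category.assoc, e, Over.w]), Over.OverMorphism.ext e⟩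

lemma exc_opn {Y : Over X} (S : Sieve Y)
    (h : ∀ t : Y.left, ∃ O : Y.left.Opens, t ∈ O ∧ S (opι Y O)) : S ∈ Scheme.etaleTopology.over X Y :=
  mem_Jov_of S fun t => by
    obtain ⟨O, h1, h2⟩ := h t
    exact ⟨_, opι Y O, inferInstanceAs (Etale O.ι), h2, ⟨t, h1⟩, rfl⟩

/-- Arrows that factor through `g` or `u`. -/
def excS (g : T' ⟶ T) (u : W ⟶ T) : Sieve T where
  arrows Y y := (∃ a, a ≫ g = y) ∨ ∃ b, b ≫ u = y
  downward_closed {Y Z y} h z := h.imp (fun ⟨a, e⟩ => ⟨z ≫ a, by simp [e]⟩)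
    fun ⟨a, e⟩ => ⟨z ≫ a, by simp [e]⟩

lemma excS_mem [IsOpenImmersion u.left] [Etale g.left] (hg : GeomBij g u) :
    excS g u ∈ Scheme.etaleTopology.over X T := mem_Jov_of _ fun t => by
  by_cases ht : t ∈ Set.range u.left
  · exact ⟨W, u, inferInstance, .inr ⟨𝟙 _, by simp⟩, ht⟩
  · obtain ⟨k, _, _, p, z, hp⟩ := exc_geom _ t
    obtain ⟨y, hy, -⟩ := hg k p fun z => by rwa [hp]
    exact ⟨T', g, inferInstance, .inl ⟨𝟙 _, by simp⟩, y z, (congr($hy z)).trans (hp z)⟩

lemma exc_sec (h : IsPullback u' g' g u) [IsOpenImmersion u.left] [Etale g.left]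
    (hg : GeomBij g u) (F : Sh (Scheme.etaleTopology.over X)) (s : F.obj.obj (op T')) (hs : F.obj.map u'.op s = 0) :
    ∃ t : F.obj.obj (op T), F.obj.map g.op t = s ∧ F.obj.map u.op t = 0 := by
  have z0 : ∀ ⦃Y⦄ (a : Y ⟶ T') (b : Y ⟶ W), a ≫ g = b ≫ u → F.obj.map a.op s = 0 := by
    intro Y a b e
    rw [← h.lift_fst a b e, ← res_res, hs, map_zero]
  obtain ⟨t, ht⟩ := glue F.property (fun Y (y : Y ⟶ T) x =>
      (∃ a, a ≫ g = y ∧ x = F.obj.map a.op s) ∨ ((∃ b, b ≫ u = y) ∧ x = 0)) _ (excS_mem hg) (by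
      rintro Y y (⟨a, e⟩ | hb)
      exacts [⟨_, .inl ⟨a, e, rfl⟩⟩, ⟨_, .inr ⟨hb, rfl⟩⟩]) (by
      rintro Z Y z y _ (⟨a, e, rfl⟩ | ⟨⟨b, e⟩, rfl⟩)
      exacts [.inl ⟨z ≫ a, by simp [e], res_res ..⟩, .inr ⟨⟨z ≫ b, by simp [e]⟩, map_zero _⟩]) (by
      rintro Y y _ _ (⟨a, e, rfl⟩ | ⟨⟨b, e⟩, rfl⟩) (⟨a', e', rfl⟩ | ⟨⟨b', e'⟩, rfl⟩)
      · let S : Sieve Y :=
          { arrows := fun Z z => F.obj.map (z ≫ a).op s = F.obj.map (z ≫ a').op s
            downward_closed := fun {Z Z' z} h w => by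
              rw [Category.assoc, Category.assoc, ← res_res, ← res_res _ w, h] }
        refine sepP' F.property _ _ S (exc_opn S fun t => ?_) fun Z z hz => by
          rw [res_res, res_res]; exact hz
        by_cases ht : y.left t ∈ Set.range u.left
        · obtain ⟨b, hb⟩ := exc_fac u (opι Y (y.left ⁻¹ᵁ u.left.opensRange) ≫ y) fun z => z.2
          exact ⟨y.left ⁻¹ᵁ u.left.opensRange, ht, (z0 _ b (by simp [e, hb])).trans
            (z0 _ b (by simp [e', hb])).symm⟩
        · obtain ⟨O, hO⟩ := exc_eqL g.left a.left a'.left (congrArg (·.left) (e.trans e'.symm))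
          obtain ⟨k, _, _, p, z, hp⟩ := exc_geom _ t
          have := (hg k (p ≫ y.left) fun z => by simpa [hp] using ht).unique
            (y₁ := p ≫ a.left) (y₂ := p ≫ a'.left) (by simp [← e]) (by simp [← e'])
          refine ⟨O, hp z ▸ (hO p).2 this z, ?_⟩
          have e2 : opι Y O ≫ a = opι Y O ≫ a' := Over.OverMorphism.ext ((hO O.ι).1 fun z => z.2)
          change F.obj.map _ s = F.obj.map _ s
          rw [e2]
      · exact z0 a b' (e.trans e'.symm)
      · exact (z0 a' b (e'.trans e.symm)).symm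
      · rfl)
  exact ⟨t, (ht g s (.inl ⟨𝟙 _, by simp, (res_id _ _).symm⟩)), ht u 0 (.inr ⟨⟨𝟙 _, by simp⟩, rfl⟩)⟩

theorem exc0 (h : IsPullback u' g' g u) [IsOpenImmersion u.left] [Etale g.left]
    (hg : GeomBij g u) : IsIso (prM h.w) := by
  refine isIso_of_coyoneda_map_bijective _ fun F => ⟨fun x y e => ?_, fun x => ?_⟩
  · rw [← cancel_epi (cokernel.π _)]
    refine (frEquiv T F).injective (sepP' F.property _ _ _ (excS_mem hg) ?_)
    rintro Y _ (⟨a, rfl⟩ | ⟨b, rfl⟩)
    · have e' : prM h.w ≫ x = prM h.w ≫ y := e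
      rw [← frEquiv_pre, ← frEquiv_pre, Functor.map_comp, Category.assoc, Category.assoc,
        ← exc_π_assoc h.w, ← exc_π_assoc h.w, e']
    · rw [← frEquiv_pre, ← frEquiv_pre, Functor.map_comp, Category.assoc, Category.assoc,
        cokernel.condition_assoc, cokernel.condition_assoc, zero_comp, zero_comp]
  · obtain ⟨t, h1, h2⟩ := exc_sec h hg F (frEquiv T' F (cokernel.π _ ≫ x)) (by
      rw [← frEquiv_pre, cokernel.condition_assoc, zero_comp, map_zero])
    obtain ⟨t, rfl⟩ := (frEquiv T F).surjective t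
    rw [← frEquiv_pre, (frEquiv _ F).injective.eq_iff] at h1
    rw [← frEquiv_pre, map_eq_zero_iff _ (frEquiv _ F).injective] at h2
    refine ⟨cokernel.desc _ t h2, ?_⟩
    rw [← cancel_epi (cokernel.π _), exc_π_assoc, cokernel.π_desc, h1]

section sys
variable {I : Type} [SmallCategory I] [IsCofiltered I] {D : I ⥤ Over X} {c : Cone D}

lemma exc_pt {P A B S : Over X} {a : P ⟶ A} {b : P ⟶ B} {f : A ⟶ S} {g : B ⟶ S}
    (h : IsPullback a b f g) (x : A.left) (y : B.left) (e : f.left x = g.left y) :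
    ∃ z : P.left, a.left z = x ∧ b.left z = y :=
  Scheme.exists_preimage_of_isPullback (isPullback_left h) x y e

lemma exc_app {A B S : Over X} (a : A ⟶ B) (b : B ⟶ S) (x : A.left) :
    (a ≫ b).left x = b.left (a.left x) := rfl

lemma exc_desc (hD : ∀ i, Aff X (D.obj i)) (hc : IsLimit c) {i : I} {V : Over X} (hV : Aff X V)
    (v : V ⟶ D.obj i) (O : V.left.Opens)
    (h : ∀ z : V.left, v.left z ∈ Set.range (pr c i).left → z ∈ O) :
    ∃ (j : I) (f : j ⟶ i), ∀ z : V.left, v.left z ∈ Set.range (D.map f).left → z ∈ O := by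
  have hA (j : Over i) : IsAffine ((bcD D i v).obj j).left := aff_pb _ _ (hD _) (hD _) hV
  obtain ⟨j, f, hf⟩ := open_desc (D := bcD D i v) (fun _ => inferInstance)
    (fun _ => inferInstance) (bcL hc i v) (Over.mk (𝟙 i))
    ((pullback.snd (D.map (Over.mk (𝟙 i)).hom) v).left ⁻¹ᵁ O) (fun t => by
      change (bcP c i v (Over.mk (𝟙 i)) ≫ pullback.snd _ _).left t ∈ O
      rw [bcP_snd]
      exact h _ ⟨(pullback.fst (pr c i) v).left t, by
        rw [← exc_app, ← exc_app, pullback.condition]⟩)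
  refine ⟨j.left, j.hom, fun z ⟨w, hw⟩ => ?_⟩
  obtain ⟨t, -, rfl⟩ := exc_pt (IsPullback.of_hasPullback (D.map j.hom) v) w z hw
  have : (bcM D i v f ≫ pullback.snd _ _).left t ∈ O := hf t
  rwa [bcM_snd] at this

lemma exc_desc' (hD : ∀ i, Aff X (D.obj i)) (hc : IsLimit c) {i : I} {P Q S : Over X}
    (hP : Aff X P) (hQ : Aff X Q) (hS : Aff X S) (p : P ⟶ D.obj i) (s : P ⟶ S) (q : Q ⟶ S)
    (O : P.left.Opens) (h : ∀ z : P.left, p.left z ∈ Set.range (pr c i).left →
      s.left z ∈ Set.range q.left → z ∈ O) :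
    ∃ (j : I) (f : j ⟶ i), ∀ z : P.left, p.left z ∈ Set.range (D.map f).left →
      s.left z ∈ Set.range q.left → z ∈ O := by
  obtain ⟨j, f, hf⟩ := exc_desc hD hc (aff_pb s q hP hS hQ) (pullback.fst s q ≫ p)
    ((pullback.fst s q).left ⁻¹ᵁ O) fun z hz => h _ hz ⟨(pullback.snd s q).left z, by
      rw [← exc_app, ← exc_app, pullback.condition]⟩
  refine ⟨j, f, fun z h1 ⟨w, hw⟩ => ?_⟩
  obtain ⟨t, rfl, -⟩ := exc_pt (IsPullback.of_hasPullback s q) z w hw.symm
  exact hf t h1

lemma exc_V (hD : ∀ i, Aff X (D.obj i)) (hc : IsLimit c) (hT : Aff X T) (t : ∀ i, D.obj i ⟶ T)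
    (ht : ∀ {i j} (f : i ⟶ j), D.map f ≫ t j = t i) (he : ∀ i, Etale (t i).left) {g : c.pt ⟶ T}
    (hp : ∀ i, pr c i ≫ t i = g) [IsOpenImmersion u.left] (hg : GeomBij g u) (i : I) :
    ∃ (V : Over X) (ι : V ⟶ D.obj i) (r : c.pt ⟶ V),
      r ≫ ι = pr c i ∧ Etale (ι ≫ t i).left ∧ GeomBij (ι ≫ t i) u := by
  have H := IsPullback.of_hasPullback (t i) (t i)
  set p := pullback.fst (t i) (t i)
  set q := pullback.snd (t i) (t i)
  have hP := aff_pb (t i) (t i) (hD i) hT (hD i)
  obtain ⟨O, hO⟩ := exc_eqL (t i).left p.left q.left (congrArg (·.left) H.w)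
  obtain ⟨j, f, hf⟩ := exc_desc' hD hc hP (isAffine_lim hD hc) (hD i) p q (pr c i)
    (O ⊔ (p ≫ t i).left ⁻¹ᵁ u.left.opensRange) (by
      rintro z ⟨x, hx⟩ ⟨y, hy⟩
      by_cases hz : (p ≫ t i).left z ∈ Set.range u.left
      · exact .inr hz
      refine .inl ?_
      obtain ⟨Z, z2, m, n, n', rfl, e1, e2⟩ : ∃ (Z : Over X) (z2 : Z.left) (m : Z ⟶ _)
          (n n' : Z ⟶ c.pt), m.left z2 = z ∧ m ≫ p = n ≫ pr c i ∧ m ≫ q = n' ≫ pr c i := by
        obtain ⟨z1, rfl, -⟩ := exc_pt (IsPullback.of_hasPullback p (pr c i)) z x hx.symm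
        obtain ⟨z2, rfl, -⟩ := exc_pt
          (IsPullback.of_hasPullback (pullback.fst p (pr c i) ≫ q) (pr c i)) z1 y hy.symm
        exact ⟨_, z2, pullback.fst _ _ ≫ pullback.fst _ _, pullback.fst _ _ ≫ pullback.snd _ _,
          pullback.snd _ _, rfl, by simp [pullback.condition], by simpa using pullback.condition⟩
      obtain ⟨k, _, _, w, a, hw⟩ := exc_geom _ z2
      have := (hg k (w ≫ (m ≫ p ≫ t i).left) fun b => by
        rw [Scheme.Hom.comp_apply, hw]; exact hz).unique (y₁ := w ≫ n.left) (y₂ := w ≫ n'.left)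
        (by rw [reassoc_of% e1, hp, Category.assoc]; rfl)
        (by rw [H.w, reassoc_of% e2, hp, Category.assoc]; rfl)
      have := (hO (w ≫ m.left)).2 (by
        rw [Category.assoc, Category.assoc, ← Over.comp_left, ← Over.comp_left, e1, e2,
          Over.comp_left, Over.comp_left, reassoc_of% this]) a
      rwa [Scheme.Hom.comp_apply, hw] at this)
  obtain ⟨j', f', hf'⟩ := exc_desc' hD hc hP (hD j) (hD i) q p (D.map f) _ fun z a b => hf z b a
  obtain ⟨n, e, e', he'⟩ := IsCofiltered.cospan f f'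
  let φ : n ⟶ i := e ≫ f
  have : Etale ((D.map φ).left ≫ (t i).left) := by rw [← Over.comp_left, ht]; exact he n
  have : Etale (D.map φ).left := Etale.of_comp _ (t i).left
  let V : (D.obj i).left.Opens := ⟨Set.range (D.map φ).left, (D.map φ).left.isOpenMap.isOpen_range⟩
    ⊔ (t i).left ⁻¹ᵁ u.left.opensRange
  have : IsOpenImmersion (opι _ V).left := inferInstanceAs (IsOpenImmersion V.ι)
  obtain ⟨r, hr⟩ := exc_fac (opι _ V) (pr c i) fun z => ⟨⟨_, .inl ⟨(pr c n).left z, by
    rw [← exc_app, pr_w]; rfl⟩⟩, rfl⟩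
  refine ⟨_, opι _ V, r, hr, inferInstanceAs (Etale ((opι _ V).left ≫ (t i).left)),
    fun k _ _ y hy => ?_⟩
  obtain ⟨y', hy', -⟩ := hg k y hy
  refine existsUnique_of_exists_of_unique ⟨y' ≫ r.left, by
    rw [Category.assoc, ← Over.comp_left, reassoc_of% hr, hp, hy']⟩ fun a b ha hb => ?_
  rw [← cancel_mono (opι _ V).left]
  have key : ∀ a : Spec (.of k) ⟶ (opn _ V).left, a ≫ (opι _ V ≫ t i).left = y → ∀ z,
      (a ≫ (opι _ V).left) z ∈ Set.range (D.map φ).left := fun a ha z =>
    (a z).2.resolve_right (by subst ha; exact hy z)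
  let w := (isPullback_left H).lift (a ≫ (opι _ V).left) (b ≫ (opι _ V).left)
    (by simpa using ha.trans hb.symm)
  have w1 : w ≫ p.left = _ := IsPullback.lift_fst ..
  have w2 : w ≫ q.left = _ := IsPullback.lift_snd ..
  rw [← w1, ← w2]
  refine (hO w).1 fun z => (hf' (w z) ?_ ?_).resolve_right ?_
  · obtain ⟨x, hx⟩ := key b hb z
    refine ⟨(D.map e').left x, ?_⟩
    rw [← exc_app, ← D.map_comp, ← he', ← Scheme.Hom.comp_apply, w2]
    exact hx
  · obtain ⟨x, hx⟩ := key a ha z
    refine ⟨(D.map e).left x, ?_⟩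
    rw [← exc_app, ← D.map_comp, ← Scheme.Hom.comp_apply, w1]
    exact hx
  · have : w ≫ (p ≫ t i).left = y := by rw [Over.comp_left, reassoc_of% w1, ← ha]; rfl
    exact fun h => hy z (by rw [← this]; exact h)

variable (t : ∀ i, D.obj i ⟶ T) (ht : ∀ {i j} (f : i ⟶ j), D.map f ≫ t j = t i) (u : W ⟶ T)

/-- The system of the preimages of `W`. -/
noncomputable def excW : I ⥤ Over X where
  obj i := pullback (t i) u
  map f := pullback.lift (pullback.fst _ _ ≫ D.map f) (pullback.snd _ _)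
    (by rw [Category.assoc, ht, pullback.condition])
  map_id i := by apply pullback.hom_ext <;> simp
  map_comp f g := by apply pullback.hom_ext <;> simp

/-- The inclusions of the preimages. -/
noncomputable def excι : excW t ht u ⟶ D where
  app _ := pullback.fst _ _
  naturality _ _ _ := pullback.lift_fst _ _ _

/-- The system of the cokernels. -/
noncomputable def excM : I ⥤ Sh (Scheme.etaleTopology.over X) where
  obj i := cokernel ((fr (Scheme.etaleTopology.over X)).map ((excι t ht u).app i))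
  map f := prM ((excι t ht u).naturality f).symm
  map_id i := by rw [← cancel_epi (cokernel.π _), exc_π]; simp
  map_comp f g := (exc_comp _ _ _ (D.map_comp f g).symm).symm

variable {u} {g : c.pt ⟶ T} {u' : W' ⟶ c.pt} (hp : ∀ i, pr c i ≫ t i = g)
  (h : IsPullback u' g' g u)

/-- The cone of the preimages. -/
noncomputable def excC : Cone (excW t ht u) where
  pt := W'
  π := { app i := pullback.lift (u' ≫ pr c i) g' (by rw [Category.assoc, hp, h.w])
         naturality i j f := by apply pullback.hom_ext <;> simp [excW] }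

omit [IsCofiltered I] in
lemma excC_ι (i : I) : pr (excC t ht hp h) i ≫ (excι t ht u).app i = u' ≫ pr c i :=
  pullback.lift_fst _ _ _

/-- The cone of the cokernels. -/
noncomputable def excN : Cone (excM t ht u) where
  pt := cokernel ((fr (Scheme.etaleTopology.over X)).map u')
  π := { app i := prM (excC_ι t ht hp h i).symm
         naturality _ _ f := (Category.id_comp _).trans
           (exc_comp _ ((excι t ht u).naturality f).symm _ (pr_w c f)).symm }

lemma excL [Mono u] (hc : IsLimit c) : Nonempty (IsLimit (excC t ht hp h)) := by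
  have : Mono u' := (MorphismProperty.monomorphisms _).of_isPullback h.flip ‹Mono u›
  have (i : I) : Mono ((excι t ht u).app i) := inferInstanceAs (Mono (pullback.fst _ _))
  obtain ⟨i₀⟩ := IsCofiltered.nonempty (C := I)
  have fac (s : Cone (excW t ht u)) (i : I) :
      hc.lift ((Cone.postcompose (excι t ht u)).obj s) ≫ pr c i =
        pr s i ≫ (excι t ht u).app i := hc.fac _ i
  refine ⟨⟨fun s => h.lift (hc.lift ((Cone.postcompose (excι t ht u)).obj s))
    (pr s i₀ ≫ pullback.snd _ _) (by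
      rw [← hp i₀, reassoc_of% fac, Category.assoc, ← pullback.condition]; rfl),
    fun s i => ?_, fun s m hm => ?_⟩⟩
  · rw [← cancel_mono ((excι t ht u).app i), Category.assoc]
    exact (congrArg _ (excC_ι t ht hp h i)).trans (by rw [h.lift_fst_assoc]; exact fac s i)
  · rw [← cancel_mono u', h.lift_fst]
    refine hc.hom_ext fun i => Eq.trans ?_ (fac s i).symm
    rw [Category.assoc]
    exact (congrArg _ (excC_ι t ht hp h i).symm).trans
      ((Category.assoc ..).symm.trans (congrArg (· ≫ _) (hm i)))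

include ht hp in
theorem exc_gen (hD : ∀ i, Aff X (D.obj i)) (hc : IsLimit c) (hT : Aff X T)
    (he : ∀ i, Etale (t i).left) [IsOpenImmersion u.left] [CompactSpace W.left] (hg : GeomBij g u)
    {G : Sh (Scheme.etaleTopology.over X)} (hG : LFP G.obj) (q : ℕ) :
    Function.Bijective ((EP G q).map (prM h.w).op) := by
  have := exc_mono u
  have : Mono u' := (MorphismProperty.monomorphisms _).of_isPullback h.flip ‹Mono u›
  have (i : I) : Mono ((excι t ht u).app i) := inferInstanceAs (Mono (pullback.fst _ _))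
  have (i : I) : IsAffine (D.obj i).left := hD i
  have : IsAffine T.left := hT
  have H (i : I) := isPullback_left (IsPullback.of_hasPullback (t i) u)
  have hs (i : I) : IsAffineHom (pullback.snd (t i) u).left :=
    MorphismProperty.of_isPullback (H i) inferInstance
  have ho (i : I) : IsOpenImmersion (pullback.fst (t i) u).left :=
    MorphismProperty.of_isPullback (H i).flip inferInstance
  obtain ⟨hL⟩ := excL t ht hp h hc
  have L := lim_23 (Functor.whiskerRight (excι t ht u) (fr (Scheme.etaleTopology.over X))) (A₃ := excM t ht u)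
    { app i := cokernel.π _
      naturality i j f := (exc_π ((excι t ht u).naturality f).symm).symm }
    (fun i => cokernel.condition _)
    (fun i => pair_exact _ ((excι t ht u).app i)) ((fr _).mapCone (excC t ht hp h))
    ((fr _).mapCone c) (excN t ht hp h) ((fr _).map u') (cokernel.π _) (cokernel.condition _)
    (pair_exact _ u') (fun i => by
      change (fr _).map u' ≫ (fr _).map (pr c i) = (fr _).map (pr (excC t ht hp h) i) ≫
        (fr _).map ((excι t ht u).app i)
      rw [← Functor.map_comp, ← Functor.map_comp, excC_ι])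
    (fun i => exc_π (excC_ι t ht hp h i).symm) G
    (fun q => lim_qcs hG (fun {i j} f => by
        have : IsAffineHom (((excW t ht u).map f).left ≫ (pullback.snd (t j) u).left) := by
          rw [← Over.comp_left]
          exact (pullback.lift_snd _ _ _ : (excW t ht u).map f ≫ _ = _).symm ▸ hs i
        have := IsSeparated.of_isAffineHom (pullback.snd (t j) u).left
        exact IsAffineHom.of_comp _ (pullback.snd (t j) u).left)
      (fun i => QuasiCompact.compactSpace_of_compactSpace (pullback.snd (t i) u).left)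
      (fun i => ⟨by
        change IsSeparated (terminal.from (pullback (t i) u).left)
        rw [← terminal.comp_from (pullback.fst (t i) u).left]; infer_instance⟩) hL q)
    (fun q => lim_qcs hG (fun _ => inferInstance) (fun _ => inferInstance)
      (fun _ => inferInstance) hc q) q
  let τ (i : I) : (excM t ht u).obj i ⟶ cokernel ((fr (Scheme.etaleTopology.over X)).map u) :=
    prM (pullback.condition (f := t i) (g := u))
  have h1 (i : I) : pr (excN t ht hp h) i ≫ τ i = prM h.w :=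
    exc_comp (excC_ι t ht hp h i).symm pullback.condition h.w (hp i)
  have h2 {i j : I} (f : i ⟶ j) : (excM t ht u).map f ≫ τ j = τ i :=
    exc_comp ((excι t ht u).naturality f).symm pullback.condition pullback.condition (ht f)
  have h3 (i : I) : ∃ σ, σ ≫ τ i = 𝟙 _ ∧ prM h.w ≫ σ = pr (excN t ht hp h) i := by
    obtain ⟨V, ι, r, hr, _, hV⟩ := exc_V hD hc hT t ht he hp hg i
    have K := IsPullback.of_hasPullback (ι ≫ t i) u
    have := exc0 K hV
    obtain ⟨m, e1⟩ : ∃ m, pullback.fst (ι ≫ t i) u ≫ ι = m ≫ (excι t ht u).app i :=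
      ⟨_, (pullback.lift_fst _ _ ((Category.assoc ..).trans K.w)).symm⟩
    obtain ⟨n, e2⟩ : ∃ n, u' ≫ r = n ≫ pullback.fst (ι ≫ t i) u :=
      ⟨_, (pullback.lift_fst _ g' (by rw [Category.assoc, reassoc_of% hr, hp, h.w])).symm⟩
    have e3 : prM e1 ≫ τ i = prM K.w := exc_comp e1 pullback.condition K.w rfl
    refine ⟨inv (prM K.w) ≫ prM e1, by rw [Category.assoc, e3, IsIso.inv_hom_id], ?_⟩
    rw [← exc_comp e2 K.w h.w (by rw [reassoc_of% hr, hp]), Category.assoc,
      IsIso.hom_inv_id_assoc]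
    exact exc_comp e2 e1 (excC_ι t ht hp h i).symm hr
  refine ⟨(injective_iff_map_eq_zero _).2 fun x hx => ?_, fun y => ?_⟩
  · obtain ⟨i⟩ := IsCofiltered.nonempty (C := I)
    obtain ⟨j, f, hf⟩ := L.2 i ((EP G q).map (τ i).op x) (by rw [res_res, h1]; exact hx)
    obtain ⟨σ, e, -⟩ := h3 j
    rw [res_res, h2] at hf
    rw [← res_id _ x, ← e, ← res_res, hf, map_zero]
  · obtain ⟨i, x, rfl⟩ := L.1 y
    obtain ⟨σ, -, e⟩ := h3 i
    exact ⟨(EP G q).map σ.op x, by rw [res_res, e]; rfl⟩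

end sys

theorem exc {R C : Type} [CommRing R] [CommRing C] [Algebra R C] (H : IndEt R C)
    {a : Spec (.of R) ⟶ X} {b : Spec (.of C) ⟶ X}
    (hab : Spec.map (CommRingCat.ofHom (algebraMap R C)) ≫ a = b)
    {u : W ⟶ Over.mk a} {u' : W' ⟶ Over.mk b} (h : IsPullback u' g' (sph _ hab) u)
    [IsOpenImmersion u.left] [CompactSpace W.left] (hg : GeomBij (sph _ hab) u)
    {G : Sh (Scheme.etaleTopology.over X)} (hG : LFP G.obj) (q : ℕ) :
    Function.Bijective fun x : Ext (cokernel ((fr (Scheme.etaleTopology.over X)).map u)) G q =>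
      (Ext.mk₀ (prM h.w)).comp x (zero_add q) := by
  have F := Stage.fac_etale H
  have := F.isFiltered
  obtain ⟨hs⟩ := F.isColimit
  have e1 {i j : Stage R C fun E _ _ => Algebra.Etale R E} (f : i ⟶ j) :
      Spec.map ((Stage.diag R C _).map f) ≫ Spec.map ((Stage.str R C _).app i) =
        Spec.map ((Stage.str R C _).app j) := by
    rw [← Spec.map_comp, ← (Stage.str R C _).naturality f]; simp
  have e2 (i : Stage R C fun E _ _ => Algebra.Etale R E) :
      Spec.map ((Stage.cocone R C _).ι.app i) ≫ Spec.map ((Stage.str R C _).app i) =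
        Spec.map (CommRingCat.ofHom (algebraMap R C)) := by
    rw [← Spec.map_comp]
    congr 1
    ext x : 2
    exact i.φ.commutes x
  let D : (Stage R C fun E _ _ => Algebra.Etale R E)ᵒᵖ ⥤ Over X :=
    { obj i := Over.mk (Spec.map ((Stage.str R C _).app i.unop) ≫ a)
      map f := Over.homMk (Spec.map ((Stage.diag R C _).map f.unop))
        ((Category.assoc ..).symm.trans (congrArg (· ≫ a) (e1 f.unop)))
      map_id i := Over.OverMorphism.ext (by simp)
      map_comp f g := Over.OverMorphism.ext (by simp) }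
  let c : Cone D :=
    { pt := Over.mk b
      π := { app i := Over.homMk (Spec.map ((Stage.cocone R C _).ι.app i.unop))
               ((Category.assoc ..).symm.trans ((congrArg (· ≫ a) (e2 i.unop)).trans hab))
             naturality i j f := Over.OverMorphism.ext
               ((Scheme.Spec.mapCone (Stage.cocone R C _).op).π.naturality f) } }
  have hc : IsLimit c := limOfForget (isLimitOfPreserves Scheme.Spec hs.op)
  exact exc_gen (D := D) (c := c) (T := Over.mk a) (g := sph _ hab)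
    (fun i => Over.homMk (Spec.map ((Stage.str R C _).app i.unop)) rfl)
    (fun f => Over.OverMorphism.ext (e1 f.unop)) (fun i => Over.OverMorphism.ext (e2 i.unop)) h
    (fun i => inferInstanceAs (IsAffine (Spec _))) hc (inferInstanceAs (IsAffine (Spec _)))
    (fun i => (HasRingHomProperty.Spec_iff (P := @Etale) (φ := (Stage.str R C _).app i.unop)).2
      (RingHom.etale_algebraMap.2 i.unop.prop))
    hg hG q

end Pool.Agent.MP_855f4c_ag.E

end

section

set_option backward.isDefEq.respectTransparency false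

open CategoryTheory Limits Opposite AlgebraicGeometry Abelian

namespace Pool.Agent.MP_855f4c_ag.E

open E3

variable {X Y : Scheme.{0}} {l : ℕ} (f : X ⟶ Y)

/-- The presheaf `T ↦ H^q(X_T, F)`. -/
noncomputable abbrev RqP (F : Sh (Scheme.etaleTopology.over X)) (q : ℕ) : PSh Y := (Over.pullback f).op ⋙ HP F q

/-- The map `H^q(X_T, F) → R^q f_* F (T)`. -/
noncomputable def rqη (F : Sh (Scheme.etaleTopology.over X)) (q : ℕ) : RqP f F q ⟶ ((Rq f q).obj F).obj :=
  toSheafify (Scheme.etaleTopology.over Y) (RqP f F q)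

instance (F : Sh (Scheme.etaleTopology.over X)) (q : ℕ) : Presheaf.IsLocallyInjective (Scheme.etaleTopology.over Y) (rqη f F q) :=
  inferInstanceAs (Presheaf.IsLocallyInjective (Scheme.etaleTopology.over Y) (toSheafify (Scheme.etaleTopology.over Y) (RqP f F q)))

instance (F : Sh (Scheme.etaleTopology.over X)) (q : ℕ) : Presheaf.IsLocallySurjective (Scheme.etaleTopology.over Y) (rqη f F q) :=
  inferInstanceAs (Presheaf.IsLocallySurjective (Scheme.etaleTopology.over Y) (toSheafify (Scheme.etaleTopology.over Y) (RqP f F q)))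

lemma rqη_res (F : Sh (Scheme.etaleTopology.over X)) (q : ℕ) {T' T : Over Y} (g : T' ⟶ T)
    (x : H ((Over.pullback f).obj T) F q) :
    (rqη f F q).app (op T') (res ((Over.pullback f).map g) F q x) =
      ((Rq f q).obj F).obj.map g.op ((rqη f F q).app (op T) x) := nat (rqη f F q) g x

lemma rqη_post {F G : Sh (Scheme.etaleTopology.over X)} (φ : F ⟶ G) (q : ℕ) (T : Over Y)
    (x : H ((Over.pullback f).obj T) F q) :
    (rqη f G q).app (op T) (post _ φ q x) =
      ((Rq f q).map φ).hom.app (op T) ((rqη f F q).app (op T) x) := by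
  let η : RqP f F q ⟶ RqP f G q := Functor.whiskerLeft (Over.pullback f).op ((HPF q).map φ)
  have h : η ≫ rqη f G q = rqη f F q ≫ ((Rq f q).map φ).hom := toSheafify_naturality (Scheme.etaleTopology.over Y) η
  have h2 := ConcreteCategory.congr_hom (congr_app h (op T)) x
  rw [NatTrans.comp_app, NatTrans.comp_app, ConcreteCategory.comp_apply,
    ConcreteCategory.comp_apply] at h2
  exact h2

/-- **STK**: the value of `R^q f_* F` at a strictly henselian ring. -/
theorem rqη_bij (F : Sh (Scheme.etaleTopology.over X)) (q : ℕ) {A : Type} [CommRing A] [SHL A] (a : Spec (.of A) ⟶ Y) :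
    Function.Bijective ((rqη f F q).app (op (Over.mk a))) := ⟨shl_inj a _, shl_surj a _⟩

theorem Rq_Rig_iff (F : Sh (Scheme.etaleTopology.over X)) (q : ℕ) : Rig l ((Rq f q).obj F).obj ↔ Rig l (RqP f F q) :=
  (Rig.of_locBij (rqη f F q)).symm

variable [QuasiCompact f] [IsSeparated f]

theorem Rq_LFP {F : Sh (Scheme.etaleTopology.over X)} (hF : LFP F.obj) (q : ℕ) : LFP ((Rq f q).obj F).obj :=
  LFP.of_locBij (rqη f F q) (lim_pb f hF q)

theorem RqP_Tor {F : Sh (Scheme.etaleTopology.over X)} (hF : Tor l F.obj) (q : ℕ) : Tor l (RqP f F q) := fun T _ x =>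
  have := pullback_compact f T
  have := pullback_sep f T
  H_tor ((Over.pullback f).obj T) hF q x

theorem Rq_Tor {F : Sh (Scheme.etaleTopology.over X)} (hF : Tor l F.obj) (q : ℕ) : Tor l ((Rq f q).obj F).obj :=
  Tor.of_locSurj (rqη f F q) (RqP_Tor f hF q)

theorem Rq_Tc {F : Sh (Scheme.etaleTopology.over X)} (hF : LFP F.obj) (hT : Tor l F.obj) (q : ℕ)
    (h : Rig l (RqP f F q)) : Tc l ((Rq f q).obj F) :=
  ⟨⟨Rq_LFP f hF q, (Rq_Rig_iff f F q).2 h⟩, Rq_Tor f hT q⟩

/-- `R^q f_* F` vanishes if the cohomology over strictly henselian rings does. -/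
theorem Rq_isZero {F : Sh (Scheme.etaleTopology.over X)} (hF : LFP F.obj) (q : ℕ)
    (h : ∀ (A : Type) [CommRing A] [SHL A] (a : Spec (.of A) ⟶ Y) (x : H (fbr f a) F q), x = 0) :
    IsZero ((Rq f q).obj F) :=
  lfp_isZero (Rq_LFP f hF q) fun A _ _ a s => by
    obtain ⟨x, rfl⟩ := (rqη_bij f F q a).2 s
    rw [h A a x, map_zero]

end Pool.Agent.MP_855f4c_ag.E

end
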