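import Pool.Agent.MP_855f4c_ag.EC.Sb
import Pool.Agent.MP_855f4c_ag.EC.F1b
import Pool.Agent.MP_855f4c_ag.EC.F2e
import Pool.Agent.MP_855f4c_ag.EC.F2c
import Pool.Agent.MP_855f4c_ag.EC.Sa
import Pool.Agent.MP_855f4c_ag.EC.E4c
import Pool.Agent.MP_855f4c_ag.EC.E4d
import Pool.Agent.MP_855f4c_ag.EC.E4b

section

/-! Section S: small tools shared by the rows. -/

set_option autoImplicit false
set_option backward.isDefEq.respectTransparency false

open CategoryTheory Limits Abelian Opposite AlgebraicGeometry Polynomial IsLocalRing TensorProduct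
open Function

namespace Pool.Agent.MP_855f4c_ag.E.SA

open E3 E4

variable {X : Scheme.{0}} {T'' T' T S' S : Over X} {F : Sh (Scheme.etaleTopology.over X)} {N : ℕ}

lemma hb_iff_extBij {g : T' ⟶ T} : HB g F ↔ ExtBij.{1} ((fr (Scheme.etaleTopology.over X)).map g) F := Iff.rfl

lemma HB.con {g : T' ⟶ T} (h : HB g F) (N : ℕ) : Con g F N := ⟨fun q _ => h q, (h N).1⟩

lemma hb_of_con {g : T' ⟶ T} (h : ∀ N, Con g F (N + 1)) : HB g F :=
  fun q => (h q).1 q q.lt_succ_self

lemma res_comp (f : T'' ⟶ T') (g : T' ⟶ T) (q : ℕ) (x : H T F q) :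
    res f F q (res g F q x) = res (f ≫ g) F q x :=
  (pre_pre _ _ x).trans (congrArg (fun a => pre a F q x) ((fr (Scheme.etaleTopology.over X)).map_comp f g).symm)

lemma res_comp' (f : T'' ⟶ T') (g : T' ⟶ T) (q : ℕ) :
    ⇑(res (f ≫ g) F q) = res f F q ∘ res g F q := funext fun x => (res_comp f g q x).symm

lemma Con.inj {g : T' ⟶ T} (h : Con g F N) {q : ℕ} (hq : q ≤ N) : Injective (res g F q) :=
  hq.lt_or_eq.elim (fun hq => (h.1 q hq).1) fun e => e ▸ h.2

lemma Con.surj {g : T' ⟶ T} (h : Con g F N) {q : ℕ} (hq : q < N) : Surjective (res g F q) :=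
  (h.1 q hq).2

/-- Transport along compatible bijections. -/
lemma con_iff_of_bij {Y : Scheme.{0}} {U' U : Over Y} {G : Sh (Scheme.etaleTopology.over Y)} (f : T' ⟶ T) (g : U' ⟶ U)
    (a : ∀ q, H T F q → H U G q) (a' : ∀ q, H T' F q → H U' G q) (ha : ∀ q, Bijective (a q))
    (ha' : ∀ q, Bijective (a' q)) (h : ∀ q x, a' q (res f F q x) = res g G q (a q x)) :
    (∀ N, Con f F N ↔ Con g G N) ∧ (HB f F ↔ HB g G) := by
  have e : ∀ q, a' q ∘ res f F q = res g G q ∘ a q := fun q => funext (h q)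
  have b : ∀ q, Bijective (res f F q) ↔ Bijective (res g G q) := fun q => by
    rw [← (ha' q).of_comp_iff', e, Bijective.of_comp_iff _ (ha q)]
  have i : ∀ q, Injective (res f F q) ↔ Injective (res g G q) := fun q => by
    rw [← (ha' q).1.of_comp_iff, e, Injective.of_comp_iff' _ (ha q)]
  exact ⟨fun N => and_congr (forall_congr' fun q => imp_congr_right fun _ => b q) (i N),
    forall_congr' b⟩

lemma hb_of_isIso (g : T' ⟶ T) [IsIso g] (F : Sh (Scheme.etaleTopology.over X)) : HB g F := fun q => pre_bij _ F q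

lemma HB.comp {f : T'' ⟶ T'} {g : T' ⟶ T} (hf : HB f F) (hg : HB g F) : HB (f ≫ g) F :=
  fun q => by rw [res_comp']; exact (hf q).comp (hg q)

lemma HB.of_comp_left {f : T'' ⟶ T'} {g : T' ⟶ T} (h : HB (f ≫ g) F) (hf : HB f F) : HB g F :=
  fun q => ((hf q).of_comp_iff' _).1 (res_comp' f g q ▸ h q)

lemma HB.of_comp_right {f : T'' ⟶ T'} {g : T' ⟶ T} (h : HB (f ≫ g) F) (hg : HB g F) : HB f F :=
  fun q => (Bijective.of_comp_iff _ (hg q)).1 (res_comp' f g q ▸ h q)

lemma con_of_sq (f : T' ⟶ T) (g : S' ⟶ S) (a : T' ⟶ S') (b : T ⟶ S) [IsIso a] [IsIso b]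
    (h : a ≫ g = f ≫ b) : Con f F N ↔ Con g F N :=
  ((con_iff_of_bij g f (fun q => res b F q) (fun q => res a F q) (hb_of_isIso b F)
    (hb_of_isIso a F) fun q x => by rw [res_comp, res_comp, h]).1 N).symm

lemma hb_of_sq (f : T' ⟶ T) (g : S' ⟶ S) (a : T' ⟶ S') (b : T ⟶ S) [IsIso a] [IsIso b]
    (h : a ≫ g = f ≫ b) : HB f F ↔ HB g F :=
  (con_iff_of_bij g f (fun q => res b F q) (fun q => res a F q) (hb_of_isIso b F)
    (hb_of_isIso a F) fun q x => by rw [res_comp, res_comp, h]).2.symm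

lemma HB.of_iso {g : T' ⟶ T} {G : Sh (Scheme.etaleTopology.over X)} (h : HB g F) (e : F ≅ G) : HB g G :=
  hb_iff_extBij.2 ((hb_iff_extBij.1 h).of_iso e)

lemma Con.of_iso {g : T' ⟶ T} {G : Sh (Scheme.etaleTopology.over X)} (h : Con g F N) (e : F ≅ G) : Con g G N :=
  ((con_iff_of_bij g g (fun q => post _ e.hom q) (fun q => post _ e.hom q) (post_bij _ e.hom)
    (post_bij _ e.hom) fun _ x => (pre_post _ _ x).symm).1 N).1 h

/-- Sections as cohomology in degree zero. -/
noncomputable def sec0 (T : Over X) (F : Sh (Scheme.etaleTopology.over X)) : sec F T ≃+ H T F 0 :=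
  (frEquiv T F).symm.trans Ext.addEquiv₀.symm

lemma sec0_res (g : T' ⟶ T) (s : sec F T) : sec0 T' F (rsec g F s) = res g F 0 (sec0 T F s) := by
  obtain ⟨a, rfl⟩ := (frEquiv T F).surjective s
  have h : ∀ {T : Over X} (a : (fr (Scheme.etaleTopology.over X)).obj T ⟶ F), sec0 T F (frEquiv T F a) = Ext.mk₀ a :=
    fun a => by simp [sec0]
  refine (congrArg _ (frEquiv_pre g a).symm).trans ?_
  rw [h, h]
  exact (Ext.mk₀_comp_mk₀ _ _).symm

lemma res0_inj (g : T' ⟶ T) : Injective (res g F 0) ↔ Injective (rsec g F) := by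
  rw [← Injective.of_comp_iff' _ (sec0 T F).bijective, ← (sec0 T' F).injective.of_comp_iff]
  exact (congrArg Injective (funext (sec0_res g))).symm.to_iff

lemma res0_surj (g : T' ⟶ T) : Surjective (res g F 0) ↔ Surjective (rsec g F) := by
  rw [← Surjective.of_comp_iff _ (sec0 T F).surjective,
    ← Surjective.of_comp_iff' (sec0 T' F).bijective]
  exact (congrArg Function.Surjective (_root_.funext (sec0_res g))).symm.to_iff

lemma HP_map (g : T' ⟶ T) (q : ℕ) (x : H T F q) : (HP F q).map g.op x = res g F q x := rfl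

/-- Mayer-Vietoris comparison. -/
theorem mv_con {W U₁ U₂ W' U₁' U₂' : Over X} {a₁ : W ⟶ U₁} {a₂ : W ⟶ U₂} {i₁ : U₁ ⟶ T}
    {i₂ : U₂ ⟶ T} {a₁' : W' ⟶ U₁'} {a₂' : W' ⟶ U₂'} {i₁' : U₁' ⟶ T'} {i₂' : U₂' ⟶ T'}
    (h : IsPullback a₁ a₂ i₁ i₂) [IsOpenImmersion i₁.left] [IsOpenImmersion i₂.left]
    (hc : ∀ t : T.left, t ∈ Set.range i₁.left ∨ t ∈ Set.range i₂.left)
    (h' : IsPullback a₁' a₂' i₁' i₂') [IsOpenImmersion i₁'.left] [IsOpenImmersion i₂'.left]
    (hc' : ∀ t : T'.left, t ∈ Set.range i₁'.left ∨ t ∈ Set.range i₂'.left)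
    (w : W' ⟶ W) (v₁ : U₁' ⟶ U₁) (v₂ : U₂' ⟶ U₂) (t : T' ⟶ T) (e₁ : a₁' ≫ v₁ = w ≫ a₁)
    (e₂ : a₂' ≫ v₂ = w ≫ a₂) (e₃ : i₁' ≫ t = v₁ ≫ i₁) (e₄ : i₂' ≫ t = v₂ ≫ i₂)
    (hw : Con w F N) (h₁ : Con v₁ F N) (h₂ : Con v₂ F N) : Con t F N := by
  have L := mv_les (mv_open h hc) F
  have L' := mv_les (mv_open h' hc') F
  let b (q : ℕ) := (res v₁ F q).prodMap (res v₂ F q)
  have hf : ∀ q x, (res i₁' F q).prod (res i₂' F q) (res t F q x) =
      b q ((res i₁ F q).prod (res i₂ F q) x) := fun q x =>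
    Prod.ext ((res_comp _ _ q x).trans (e₃ ▸ (res_comp _ _ q x).symm))
      ((res_comp _ _ q x).trans (e₄ ▸ (res_comp _ _ q x).symm))
  have hg : ∀ q x, (res a₁' F q).coprod (-res a₂' F q) (b q x) =
      res w F q ((res a₁ F q).coprod (-res a₂ F q) x) := fun q x => by
    change res a₁' F q (res v₁ F q x.1) + -res a₂' F q (res v₂ F q x.2) =
      res w F q (res a₁ F q x.1 + -res a₂ F q x.2)
    rw [map_add, map_neg, res_comp, res_comp, res_comp, res_comp, e₁, e₂]
  have hd : ∀ q x, dr (mv_open h' hc') F q (res w F q x) =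
      res t F (q + 1) (dr (mv_open h hc) F q x) := fun q x =>
    (pre_dr (mv_open h' hc') (mv_open h hc)
      (mvMap (Scheme.etaleTopology.over X) h.w h'.w w v₁ v₂ t e₁ e₂ e₃ e₄) x).symm
  have bi : ∀ q ≤ N, Injective (b q) := fun q hq => (h₁.inj hq).prodMap (h₂.inj hq)
  have bs : ∀ q < N, Surjective (b q) := fun q hq => (h₁.surj hq).prodMap (h₂.surj hq)
  have inj : ∀ q ≤ N, Injective (res t F q) := fun q hq => by
    cases q with
    | zero => exact L.inj₁_zero (fun q => res t F q) b hf (bi 0 hq)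
    | succ q =>
      exact L.inj₁_succ L' (fun q => res t F q) b (fun q => res w F q) hf hg hd q (bs q hq)
        (hw.inj (Nat.le_of_succ_le hq)) (bi _ hq)
  refine ⟨fun q hq => ⟨inj q hq.le, ?_⟩, inj N le_rfl⟩
  cases q with
  | zero =>
    exact L.surj₁_zero L' (fun q => res t F q) b (fun q => res w F q) hf hg (bs 0 hq)
      (hw.inj hq.le)
  | succ q =>
    exact L.surj₁_succ L' (fun q => res t F q) b (fun q => res w F q) hf hg hd q
      (hw.surj (Nat.lt_of_succ_lt hq)) (bs _ hq) (hw.inj hq.le)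

/-- Passing to a slice. -/
theorem con_pb {Y : Scheme.{0}} (f : Y ⟶ X) {U' U : Over Y} (g : U' ⟶ U) :
    Con g ((pb (J := Scheme.etaleTopology) f).obj F) N ↔ Con ((Over.map f).map g) F N :=
  ((con_iff_of_bij _ g (fun q => slH f U F q) (fun q => slH f U' F q) (slH_bij f U F)
    (slH_bij f U' F) (slH_res f g F)).1 N).symm

theorem hb_pb {Y : Scheme.{0}} (f : Y ⟶ X) {U' U : Over Y} (g : U' ⟶ U) :
    HB g ((pb (J := Scheme.etaleTopology) f).obj F) ↔ HB ((Over.map f).map g) F :=
  (con_iff_of_bij _ g (fun q => slH f U F q) (fun q => slH f U' F q) (slH_bij f U F)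
    (slH_bij f U' F) (slH_res f g F)).2.symm

theorem pb_cst {Y : Scheme.{0}} (f : Y ⟶ X) (M : Ab.{1}) :
    Nonempty ((pb (J := Scheme.etaleTopology) f).obj ((cst X).obj M) ≅ (cst Y).obj M) :=
  ⟨(pb (J := Scheme.etaleTopology) f).mapIso ((cstIso X).app M) ≪≫
    (Iso.refl _ : (pb (J := Scheme.etaleTopology) f).obj (lc X M) ≅ lc Y M) ≪≫
      ((cstIso Y).app M).symm⟩

theorem hb_cst_iff (p : T' ⟶ T) (M : Ab.{1}) : HB p ((cst X).obj M) ↔ AB M p.left := by
  obtain ⟨e⟩ := pb_cst T.hom M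
  have h1 : AB M p.left ↔ HB ((Over.map T.hom).map (tp p.left)) ((cst X).obj M) :=
    Iff.trans ⟨fun h => h.of_iso e.symm, fun h => h.of_iso e⟩ (hb_pb T.hom (tp p.left))
  let a : T' ≅ (Over.map T.hom).obj (Over.mk p.left) :=
    Over.isoMk (Iso.refl _) ((Category.id_comp _).trans (Over.w p))
  let b : T ≅ (Over.map T.hom).obj (top T.left) :=
    Over.isoMk (Iso.refl _) ((Category.id_comp _).trans (Category.id_comp _))
  exact (hb_of_sq p _ a.hom b.hom (Over.OverMorphism.ext
    ((Category.id_comp _).trans (Category.comp_id _).symm))).trans h1.symm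

/-- Integral push-forward. -/
theorem hb_pf {Y : Scheme.{0}} (ρ : Y ⟶ X) [IsIntegralHom ρ] (G : Sh (Scheme.etaleTopology.over Y)) (g : T' ⟶ T) :
    HB g ((pf (J := Scheme.etaleTopology) ρ).obj G) ↔ HB ((Over.pullback ρ).map g) G :=
  (con_iff_of_bij _ g (fun q => intH ρ T G q) (fun q => intH ρ T' G q) (intH_bij ρ T G)
    (intH_bij ρ T' G) (intH_res ρ g G)).2.symm

theorem con_pf {Y : Scheme.{0}} (ρ : Y ⟶ X) [IsIntegralHom ρ] (G : Sh (Scheme.etaleTopology.over Y)) (g : T' ⟶ T) :
    Con g ((pf (J := Scheme.etaleTopology) ρ).obj G) N ↔ Con ((Over.pullback ρ).map g) G N :=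
  ((con_iff_of_bij _ g (fun q => intH ρ T G q) (fun q => intH ρ T' G q) (intH_bij ρ T G)
    (intH_bij ρ T' G) (intH_res ρ g G)).1 N).symm

theorem shl_H {A : Type} [CommRing A] [SHL A] (a : Spec (.of A) ⟶ X) (F : Sh (Scheme.etaleTopology.over X)) (q : ℕ)
    (x : H (Over.mk a) F (q + 1)) : x = 0 := wc_H (SHL.wc A) a F q x

theorem hb_of_van (M : Ab.{1}) (g : T' ⟶ T) (c : Bijective (cstι M T))
    (c' : Bijective (cstι M T')) (h : ∀ q (x : H T ((cst X).obj M) (q + 1)), x = 0)
    (h' : ∀ q (x : H T' ((cst X).obj M) (q + 1)), x = 0) : HB g ((cst X).obj M) := by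
  rintro (_ | q)
  · have e : Bijective (rsec g ((cst X).obj M)) := (Bijective.of_comp_iff _ c).1
      ((congrArg Bijective (funext (cstι_res M g))).mpr c')
    exact ⟨(res0_inj g).2 e.1, (res0_surj g).2 e.2⟩
  · exact ⟨fun x y _ => (h q x).trans (h q y).symm, fun y => ⟨0, (h' q _).trans (h' q y).symm⟩⟩

theorem ab_of_van (M : Ab.{1}) {Z' Z : Scheme.{0}} (g : Z' ⟶ Z) [ConnectedSpace Z']
    [ConnectedSpace Z] (h : ∀ q (x : H (top Z) ((cst Z).obj M) (q + 1)), x = 0)
    (h' : ∀ q (x : H (Over.mk g) ((cst Z).obj M) (q + 1)), x = 0) : AB M g :=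
  hb_of_van M (tp g) (@cstι_connected _ M (top Z) ‹_›) (@cstι_connected _ M (Over.mk g) ‹_›) h h'

theorem ab_shl (M : Ab.{1}) {A B : Type} [CommRing A] [CommRing B] [SHL A] [SHL B] (φ : A →+* B) :
    AB M (spc φ) :=
  hb_of_van M (tp (spc φ)) (cstι_shl M (𝟙 _)) (cstι_shl M (spc φ)) (shl_H (𝟙 _) _)
    (shl_H (spc φ) _)

theorem aicb (h : AFFV_s) (l : ℕ) [Fact l.Prime] {A B : Type} [CommRing A] [IsDomain A]
    [CommRing B] [IsDomain B] (φ : A →+* B) (hA : Aic A) (hB : Aic B) (hl : IsUnit (l : A)) :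
    AB (ZM l) (spc φ) :=
  ab_of_van _ _ (h l _ A (𝟙 _) hA hl) (h l _ B (spc φ) hB (by simpa using hl.map φ))

end Pool.Agent.MP_855f4c_ag.E.SA

end

section

/-! Section S: small tools shared by the rows. -/

set_option autoImplicit false
set_option backward.isDefEq.respectTransparency false

open CategoryTheory Limits Abelian Opposite AlgebraicGeometry Polynomial IsLocalRing TensorProduct
open Function

namespace Pool.Agent.MP_855f4c_ag.E.SA

open E3 E4

variable {X : Scheme.{0}} {T'' T' T S' S : Over X} {F : Sh (Scheme.etaleTopology.over X)} {N : ℕ}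

section ring
variable {R : Type} [CommRing R] (u : Spec (.of R) ⟶ X)

theorem isPullback_hm (A A' B B' : Type) [CommRing A] [CommRing A'] [CommRing B] [CommRing B']
    [Algebra R A] [Algebra R A'] [Algebra R B] [Algebra R B'] [Algebra A A'] [Algebra A B]
    [Algebra A B'] [Algebra A' B'] [Algebra B B'] [IsScalarTower R A A'] [IsScalarTower R A B]
    [IsScalarTower R A' B'] [IsScalarTower R B B'] [IsScalarTower A A' B'] [IsScalarTower A B B']
    [Algebra.IsPushout A A' B B'] :
    IsPullback (hm u (up R B B')) (hm u (up R A' B')) (hm u (up R A B)) (hm u (up R A A')) := by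
  refine IsPullback.of_map (Over.forget X) ?_
    (isPullback_SpecMap_of_isPushout _ _ _ _ (CommRingCat.isPushout_of_isPushout A A' B B').flip)
  rw [← hm_comp, ← hm_comp]
  congr 1
  ext a
  exact (IsScalarTower.algebraMap_apply A B B' a).symm.trans
    (IsScalarTower.algebraMap_apply A A' B' a)

lemma spc_tower (A D : Type) [CommRing A] [CommRing D] [Algebra R A] [Algebra A D]
    [Algebra R D] [IsScalarTower R A D] :
    spc (algebraMap R D) ≫ u = spc (algebraMap A D) ≫ spc (algebraMap R A) ≫ u := by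
  rw [← Category.assoc, ← Spec.map_comp, ← CommRingCat.ofHom_comp, ← IsScalarTower.algebraMap_eq]

lemma spc_tower' (A D : Type) [CommRing A] [CommRing D] [Algebra R A] [Algebra A D]
    [Algebra R D] [IsScalarTower R A D] : 𝟙 (Spec (.of D)) ≫ spc (algebraMap R D) ≫ u =
      spc (algebraMap A D) ≫ spc (algebraMap R A) ≫ u :=
  (Category.id_comp _).trans (spc_tower u A D)

/-- Change of the base ring in `ob`. -/
noncomputable def obIso (A D : Type) [CommRing A] [CommRing D] [Algebra R A] [Algebra A D]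
    [Algebra R D] [IsScalarTower R A D] : ob (spc (algebraMap R A) ≫ u) D ≅ ob u D :=
  Over.isoMk (Iso.refl (Spec (.of D))) (spc_tower' u A D)

/-- `ob` on the slice. -/
noncomputable def obMap (D : Type) [CommRing D] [Algebra R D] :
    (Over.map u).obj (ob (𝟙 _) D) ≅ ob u D := Over.isoMk (Iso.refl _) (by simp)

theorem con_hm_base (A D D' : Type) [CommRing A] [CommRing D] [CommRing D'] [Algebra R A]
    [Algebra A D] [Algebra R D] [IsScalarTower R A D] [Algebra A D'] [Algebra R D']
    [IsScalarTower R A D'] (φ : D →ₐ[A] D') :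
    Con (hm (spc (algebraMap R A) ≫ u) φ) F N ↔ Con (hm u (φ.restrictScalars R)) F N :=
  con_of_sq _ _ (obIso u A D').hom (obIso u A D).hom (Over.OverMorphism.ext
    ((Category.id_comp _).trans ((congrArg spc (RingHom.ext fun _ => rfl :
      (φ.restrictScalars R : D →+* D') = (φ : D →+* D'))).trans (Category.comp_id _).symm)))

theorem con_hm_pb {D D' : Type} [CommRing D] [CommRing D'] [Algebra R D] [Algebra R D']
    (φ : D →ₐ[R] D') :
    Con (hm (𝟙 _) φ) ((pb (J := Scheme.etaleTopology) u).obj F) N ↔ Con (hm u φ) F N :=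
  (con_pb u _).trans (con_of_sq _ _ (obMap u D').hom (obMap u D).hom (Over.OverMorphism.ext
    ((Category.id_comp _).trans (Category.comp_id _).symm)))

lemma sec_zero_of_iso (e : T' ≅ T) (h : ∀ s : sec F T, s = 0) (s : sec F T') : s = 0 := by
  rw [← res_id F.obj s, ← e.hom_inv_id, ← res_res, h (F.obj.map e.inv.op s), map_zero]

theorem Loc.lis {l : ℕ} {g : R} (h : Loc l F u g) (A : Type) [CommRing A] [Algebra R A]
    (hg : IsUnit (algebraMap R A g)) : Lis l F.obj (ob u A) :=
  h.2.2.mono (hm u (IsLocalization.Away.liftAlgHom (S := Localization.Away g) g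
    (f := Algebra.ofId R A) hg))

theorem Loc.base {l : ℕ} {g : R} (h : Loc l F u g) (A : Type) [CommRing A] [Algebra R A] :
    Loc l F (spc (algebraMap R A) ≫ u) (algebraMap R A g) := by
  refine ⟨h.1, fun k _ _ _ hk => ?_, ?_⟩
  · let : Algebra R k := ((algebraMap A k).comp (algebraMap R A)).toAlgebra
    have : IsScalarTower R A k := IsScalarTower.of_algebraMap_eq fun _ => rfl
    exact sec_zero_of_iso (obIso u A k) (h.2.1 k hk)
  · refine (h.lis u (Localization.Away (algebraMap R A g)) ?_).mono (obIso u A _).hom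
    rw [IsScalarTower.algebraMap_apply R A]
    exact IsLocalization.Away.algebraMap_isUnit (algebraMap R A g)

theorem Loc.pb {l : ℕ} {g : R} (h : Loc l F u g) :
    Loc l ((pb (J := Scheme.etaleTopology) u).obj F) (𝟙 _) g :=
  ⟨h.1.pb u, fun k _ _ _ hk s => sec_zero_of_iso (F := F) (obMap u k) (h.2.1 k hk) s,
    (Lis.map_iff u F.obj _).2 (h.2.2.mono (obMap u _).hom)⟩

theorem Loc.of_associated {l : ℕ} {g g' : R} (h : Loc l F u g) (e : Associated g g') :
    Loc l F u g' := by
  obtain ⟨v, rfl⟩ := e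
  refine ⟨h.1, fun k _ _ _ hk => h.2.1 k ?_, h.lis u _ ?_⟩
  · rw [map_mul] at hk
    exact (v.isUnit.map _).mul_left_eq_zero.1 hk
  · have := IsLocalization.Away.algebraMap_isUnit (S := Localization.Away (g * v)) (g * v)
    rw [map_mul] at this
    exact isUnit_of_mul_isUnit_left this
end ring

section germ
variable {V O : Type} [CommRing V] [IsLocalRing V] [CommRing O] [Algebra V O]

theorem germAt_iff [Algebra V[X] O] [IsScalarTower V V[X] O] :
    GermAt V (algebraMap V[X] O Polynomial.X) ↔ Germ V O := by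
  have e : (aeval (algebraMap V[X] O Polynomial.X) : V[X] →ₐ[V] O).toRingHom.toAlgebra =
      ‹Algebra V[X] O› := Algebra.algebra_ext _ _ fun p => by
    change aeval _ p = _
    rw [aeval_algebraMap_apply, aeval_X_left_apply]
  rw [GermAt, e]

theorem GermAt.exists {x : O} (h : GermAt V x) : ∃ (_ : Algebra V[X] O)
    (_ : IsScalarTower V V[X] O), Germ V O ∧ algebraMap V[X] O Polynomial.X = x :=
  letI := (aeval x : V[X] →ₐ[V] O).toRingHom.toAlgebra
  ⟨this, IsScalarTower.of_algebraMap_eq fun v => ((aeval x : V[X] →ₐ[V] O).commutes v).symm, h,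
    aeval_X x⟩

lemma indEt_of_bijective {R' R C : Type} [CommRing R'] [CommRing R] [CommRing C] [Algebra R C]
    (H : IndEt R C) (i : Algebra R' C) (e : R' →+* R) (he : Bijective e)
    (h : ∀ r, algebraMap R' C r = algebraMap R C (e r)) : IndEt R' C := by
  let : Algebra R' R := e.toAlgebra
  have : IsScalarTower R' R C := IsScalarTower.of_algebraMap_eq h
  have : Algebra.Etale R' R := .of_equiv (AlgEquiv.ofBijective (Algebra.ofId R' R) he)
  exact IndEt.etale_comp R H

theorem GermAt.shift {x : O} (h : GermAt V x) {a : V} (ha : ¬ IsUnit a) :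
    GermAt V (x + algebraMap V O a) := by
  obtain ⟨_, _, hG, rfl⟩ := h.exists
  have := hG.shl
  have hC : ∀ v : V, algebraMap V[X] O (C v) = algebraMap V O v := fun v =>
    (IsScalarTower.algebraMap_apply V V[X] O v).symm
  refine @Germ.mk V O _ _ _ (_) hG.shl
    (indEt_of_bijective hG.ind _ (algEquivAevalXAddC a : V[X] →+* V[X])
      (algEquivAevalXAddC a).bijective fun p => ?_) (fun v hv hu => hG.loc v hv ?_) fun hu => ?_
  · change aeval _ p = algebraMap V[X] O (aeval (Polynomial.X + C a) p)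
    rw [← aeval_algebraMap_apply, map_add, hC]
  · rw [hC]
    exact (aeval_C _ v : _ = algebraMap V O v) ▸ hu
  · have hu' : IsUnit (algebraMap V[X] O Polynomial.X + algebraMap V O a) :=
      (aeval_X (R := V) _ : _ = algebraMap V[X] O Polynomial.X + algebraMap V O a) ▸ hu
    rcases isUnit_or_isUnit_of_isUnit_add hu' with h1 | h1
    · exact hG.orig h1
    · exact hG.loc a ha (hC a ▸ h1)

theorem GermAt.of_bijective {x : O} (h : GermAt V x) (V₀ : Type) [CommRing V₀] [IsLocalRing V₀]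
    [Algebra V₀ V] [Algebra V₀ O] [IsScalarTower V₀ V O] (hb : Bijective (algebraMap V₀ V)) :
    GermAt V₀ x := by
  obtain ⟨_, _, hG, rfl⟩ := h.exists
  have hC : ∀ v : V, algebraMap V[X] O (C v) = algebraMap V O v := fun v =>
    (IsScalarTower.algebraMap_apply V V[X] O v).symm
  refine @Germ.mk V₀ O _ _ _ (_) hG.shl
    (indEt_of_bijective hG.ind _ (mapRingHom (algebraMap V₀ V))
      ⟨map_injective _ hb.1, map_surjective _ hb.2⟩ fun p => ?_)
    (fun v hv hu => hG.loc (algebraMap V₀ V v) (fun h1 => hv ?_) ?_) fun hu => hG.orig ?_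
  · change aeval _ p = algebraMap V[X] O (p.map (algebraMap V₀ V))
    rw [← aeval_map_algebraMap V, aeval_algebraMap_apply, aeval_X_left_apply]
  · exact (MulEquiv.isUnit_map (RingEquiv.ofBijective _ hb)).1 h1
  · rw [hC, ← IsScalarTower.algebraMap_apply]
    exact (aeval_C _ v : _ = algebraMap V₀ O v) ▸ hu
  · exact (aeval_X (R := V₀) _ : _ = algebraMap V[X] O Polynomial.X) ▸ hu
end germ

end Pool.Agent.MP_855f4c_ag.E.SA

end

section

/-! Section S, row GLT. -/

set_option autoImplicit false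
set_option backward.isDefEq.respectTransparency false

open CategoryTheory Limits Abelian Opposite AlgebraicGeometry Polynomial IsLocalRing TensorProduct
open Function

namespace Pool.Agent.MP_855f4c_ag.E.SA

open E3 E4

theorem glt_loc {C D V O O' : Type} [CommRing C] [IsDomain C] [CommRing D] [Algebra C D]
    [CommRing V] [Algebra C V] (P : Ideal C) [P.IsPrime] [IsLocalization.AtPrime V P]
    [CommRing O] [Algebra D O] [Algebra V O] [CommRing O'] [Algebra O O'] [h : Gen V O O']
    (hc : ∀ c : C, algebraMap D O (algebraMap C D c) = algebraMap V O (algebraMap C V c)) :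
    IsLocalization
      (Algebra.algebraMapSubmonoid O (Algebra.algebraMapSubmonoid D (nonZeroDivisors C))) O' := by
  have hP : P.primeCompl ≤ nonZeroDivisors C := P.primeCompl_le_nonZeroDivisors
  have : IsDomain V := IsLocalization.isDomain_of_le_nonZeroDivisors V hP
  have hi : Injective (algebraMap C V) := IsLocalization.injective V hP
  refine (IsLocalization.iff_of_le_of_exists_dvd _
    (Algebra.algebraMapSubmonoid O (nonZeroDivisors V)) ?_ ?_).mpr h
  · rintro _ ⟨_, ⟨c, hc0, rfl⟩, rfl⟩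
    refine ⟨algebraMap C V c, mem_nonZeroDivisors_of_ne_zero fun e => ?_, (hc c).symm⟩
    exact nonZeroDivisors.ne_zero hc0 (hi (e.trans (map_zero _).symm))
  · rintro _ ⟨v, hv, rfl⟩
    obtain ⟨⟨c, s⟩, e⟩ := IsLocalization.surj P.primeCompl v
    refine ⟨_, ⟨_, ⟨c, mem_nonZeroDivisors_of_ne_zero ?_, rfl⟩, rfl⟩, ?_⟩
    · rintro rfl
      rw [map_zero] at e
      exact nonZeroDivisors.ne_zero hv ((IsLocalization.map_units V s).mul_left_eq_zero.mp e)
    · rw [hc]
      exact map_dvd _ ⟨_, e.symm⟩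

theorem glt (h : LTG_s) : GLT_s := by
  intro X F hF C D D' _ _ _ _ _ _ _ _ _ _ u N hC H
  refine h X F hF D u (ob u D') _ (inferInstanceAs (CompactSpace (Spec (.of D'))))
    (inferInstanceAs (Spec (.of D')).IsSeparated) N fun E _ _ _ I hI => ?_
  let : Algebra C[X] E := ((algebraMap D E).comp (algebraMap C[X] D)).toAlgebra
  let : Algebra C E := ((algebraMap D E).comp (algebraMap C D)).toAlgebra
  have : IsScalarTower C[X] D E := .of_algebraMap_eq fun _ => rfl
  have : IsScalarTower C C[X] E := .of_algebraMap_eq fun c =>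
    congrArg (algebraMap D E) (IsScalarTower.algebraMap_apply C C[X] D c)
  have : Algebra.Etale C[X] E := .comp C[X] D E
  obtain ⟨P, _, O, _, _, _, _, _, a, hG, hind, hu, hb, hX⟩ := exists_germ hC I hI
  let : Algebra D O := ((algebraMap E O).comp (algebraMap D E)).toAlgebra
  have : IsScalarTower D E O := .of_algebraMap_eq fun _ => rfl
  let O' := Localization
    (Algebra.algebraMapSubmonoid O (nonZeroDivisors (Localization.AtPrime P)))
  have hl := glt_loc (D := D) (V := Localization.AtPrime P) (O := O) (O' := O') P hb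
  let : Algebra D' O' := (IsLocalization.map (M := Algebra.algebraMapSubmonoid D (nonZeroDivisors C))
    (T := Algebra.algebraMapSubmonoid O (Algebra.algebraMapSubmonoid D (nonZeroDivisors C))) O'
    (algebraMap D O) (Submonoid.le_comap_map _)).toAlgebra
  have : IsScalarTower D D' O' := .of_algebraMap_eq fun d =>
    (IsLocalization.map_eq (M := Algebra.algebraMapSubmonoid D (nonZeroDivisors C)) (S := D')
      (T := Algebra.algebraMapSubmonoid O (Algebra.algebraMapSubmonoid D (nonZeroDivisors C)))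
      (Q := O') (g := algebraMap D O) (Submonoid.le_comap_map _) d).symm
  have : Algebra.IsPushout D D' O O' :=
    (Algebra.isPushout_of_isLocalization (Algebra.algebraMapSubmonoid D (nonZeroDivisors C))
      D' O O').symm
  refine ⟨O, inferInstance, inferInstance, inferInstance, inferInstance, hG.shl, hind, hu,
    ob u O', hm u (up D O O'), hm u (up D D' O'), isPullback_hm u D D' O O', ?_⟩
  refine (con_hm_base u O O O' (Algebra.ofId O O')).mp
    (H P O O' _ a (germAt_iff.mpr hG) hb (hX.trans ?_))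
  rw [map_add, IsScalarTower.algebraMap_apply (Localization.AtPrime P) (Localization.AtPrime P)[X] O]
  rfl

end Pool.Agent.MP_855f4c_ag.E.SA

end

section

set_option autoImplicit false
set_option backward.isDefEq.respectTransparency false

open CategoryTheory Limits Abelian Opposite AlgebraicGeometry Polynomial IsLocalRing TensorProduct
open Function

namespace Pool.Agent.MP_855f4c_ag.E.SA

open E3 E4

theorem acy_valLoc {V : Type} [CommRing V] [IsDomain V] [ValuationRing V] (P : Ideal V)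
    [P.IsPrime] : ValuationRing (Localization.AtPrime P) := by
  have h : ∀ z : Localization.AtPrime P, ∃ x : V, Associated z (algebraMap V _ x) := fun z => by
    obtain ⟨⟨x, s⟩, h⟩ := IsLocalization.surj P.primeCompl z
    exact ⟨x, (IsLocalization.map_units _ s).unit, h⟩
  refine ValuationRing.iff_dvd_total.2 ⟨fun a b => ?_⟩
  obtain ⟨x, hx⟩ := h a
  obtain ⟨y, hy⟩ := h b
  exact (ValuationRing.dvd_total x y).imp
    (fun e => hx.dvd.trans ((_root_.map_dvd _ e).trans hy.symm.dvd))
    fun e => hy.dvd.trans ((_root_.map_dvd _ e).trans hx.symm.dvd)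

theorem acy (h : PIDV_s) (_h1 : GLT_s) : ACY_s := by
  intro l _ V O O' _ _ _ _ _ _ _ _ x hV hl hx
  obtain ⟨_, _, hG, rfl⟩ := hx.exists
  have := hG.shl
  obtain ⟨_, -, hi⟩ := hG.dom hV
  let L := FractionRing V
  have := hV.isAlgClosed L
  let : Algebra V O' := ((algebraMap O O').comp (algebraMap V O)).toAlgebra
  have : IsScalarTower V O O' := .of_algebraMap_eq' rfl
  have hu : ∀ y : nonZeroDivisors V, IsUnit (algebraMap V O' y) := fun y =>
    IsLocalization.map_units O' (⟨_, Algebra.mem_algebraMapSubmonoid_of_mem y⟩ :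
      Algebra.algebraMapSubmonoid O (nonZeroDivisors V))
  let : Algebra L O' := (IsLocalization.lift hu).toAlgebra
  have : IsScalarTower V L O' := .of_algebraMap_eq fun v => (IsLocalization.lift_eq hu v).symm
  obtain ⟨_, _, ha, hr⟩ := hG.pid L O' hV
  have hVO : Injective (algebraMap V O) := by
    rw [IsScalarTower.algebraMap_eq V V[X] O]
    exact hi.comp C_injective
  have hO : Injective (algebraMap O O') :=
    IsLocalization.injective O' (M := Algebra.algebraMapSubmonoid O (nonZeroDivisors V))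
      (map_le_nonZeroDivisors_of_injective _ hVO le_rfl)
  set t := algebraMap O O' (algebraMap V[X] O Polynomial.X) with ht
  have h0 : Transcendental V t := by
    rw [transcendental_iff_injective]
    have : (aeval t : V[X] →ₐ[V] O') =
        (IsScalarTower.toAlgHom V O O').comp (IsScalarTower.toAlgHom V V[X] O) :=
      Polynomial.algHom_ext (by simp [ht])
    rw [this]
    exact hO.comp hi
  have h1 : Transcendental L t := fun e => h0 ((IsFractionRing.isAlgebraic_iff V L O').2 e)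
  let : Algebra L[X] O' := (aeval t : L[X] →ₐ[L] O').toRingHom.toAlgebra
  have : IsScalarTower L L[X] O' := .of_algebraMap_eq fun c => ((aeval t).commutes c).symm
  have : FaithfulSMul L[X] O' :=
    (faithfulSMul_iff_algebraMap_injective _ _).2 (transcendental_iff_injective.1 h1)
  have : Algebra.IsAlgebraic L[X] O' := ⟨fun z => IsAlgebraic.of_ringHom_of_comp_eq
    (aeval (⟨t, Algebra.self_mem_adjoin_singleton L t⟩ : Algebra.adjoin L {t})).toRingHom
    (RingHom.id O') (ha z) (fun w => by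
      obtain ⟨p, hp⟩ := Algebra.adjoin_mem_exists_aeval L t w.2
      exact ⟨p, Subtype.ext ((aeval_subalgebra_coe ..).trans hp)⟩) injective_id
    (RingHom.ext fun p => aeval_subalgebra_coe ..)⟩
  exact ab_of_van _ _ (shl_H _ _) (h l _ L O' _ (by simpa using (hl.map (algebraMap V L)).ne_zero)
    hr (hG.units O' hV hl))

theorem acy_hm {X : Scheme.{0}} {R A : Type} [CommRing R] [CommRing A] [Algebra R A]
    (u : Spec (.of R) ⟶ X) (M : Ab.{1}) :
    HB (hm u (Algebra.ofId R A)) ((cst X).obj M) ↔ AB M (spc (algebraMap R A)) :=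
  hb_cst_iff (hm u (Algebra.ofId R A)) M

theorem val (h1 : GLT_s) (h2 : ACY_s) : VAL_s := by
  intro l _ V A A' _ _ _ _ _ _ _ _ _ _ _ hV hl
  refine (acy_hm (𝟙 _) _).1 (hb_of_con fun N => ?_)
  refine h1 _ _ (cst_Cc l (ZM l)).1 V A A' (𝟙 _) N hV ?_
  intro P _ O O' _ _ _ _ _ _ x a hx _ _
  have := acy_valLoc P
  exact ((acy_hm _ _).2 (h2 l (Localization.AtPrime P) O O' x
    (hV.of_isLocalization P.primeCompl)
    (by simpa using hl.map (algebraMap V (Localization.AtPrime P))) hx)).con _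

end Pool.Agent.MP_855f4c_ag.E.SA

end

section

/-! Section S: the valuation ring input of the Zorn argument. -/

set_option autoImplicit false
set_option backward.isDefEq.respectTransparency false

open CategoryTheory Limits Abelian Opposite AlgebraicGeometry Polynomial IsLocalRing TensorProduct
open Function

namespace Pool.Agent.MP_855f4c_ag.E.SA

open E3 E4

theorem zval_et (C A V D : Type) [CommRing C] [CommRing A] [CommRing V] [CommRing D]
    [Algebra C A] [Algebra C[X] A] [IsScalarTower C C[X] A] [Algebra.Etale C[X] A]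
    [Algebra C V] [Algebra A D] [Algebra V D] [Algebra C D] [IsScalarTower C A D]
    [IsScalarTower C V D] [Algebra.IsPushout C A V D] :
    ∃ (_ : Algebra V[X] D) (_ : IsScalarTower V V[X] D), Algebra.Etale V[X] D := by
  let φ : V[X] →ₐ[V] D := aeval (algebraMap A D (algebraMap C[X] A Polynomial.X))
  let : Algebra V[X] D := φ.toRingHom.toAlgebra
  have : IsScalarTower V V[X] D := .of_algebraMap_eq fun v => (φ.commutes v).symm
  let : Algebra C[X] V[X] := Polynomial.algebra C V
  let : Algebra C[X] D := ((algebraMap A D).comp (algebraMap C[X] A)).toAlgebra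
  have : IsScalarTower C[X] A D := .of_algebraMap_eq fun _ => rfl
  have : IsScalarTower C[X] V[X] D := .of_algebraMap_eq' (Polynomial.ringHom_ext (fun c => by
    change algebraMap A D (algebraMap C[X] A (algebraMap C C[X] c)) =
      φ ((Polynomial.C c).map (algebraMap C V))
    rw [map_C, ← IsScalarTower.algebraMap_apply C C[X] A, ← IsScalarTower.algebraMap_apply C A D,
      IsScalarTower.algebraMap_apply C V D]
    exact (φ.commutes _).symm) (by
    change algebraMap A D (algebraMap C[X] A Polynomial.X) = φ (Polynomial.X.map (algebraMap C V))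
    rw [map_X]
    exact (aeval_X _).symm))
  have : IsScalarTower C V[X] D := .of_algebraMap_eq fun c => by
    rw [IsScalarTower.algebraMap_apply C V D, IsScalarTower.algebraMap_apply C V V[X]]
    exact (φ.commutes _).symm
  have : Algebra.IsPushout C[X] A V[X] D :=
    (Algebra.IsPushout.comp_iff C C[X] V V[X] (T := A) (T' := D)).1 inferInstance
  exact ⟨_, inferInstance, RingHom.etale_algebraMap.1
    (RingHom.Etale.isStableUnderBaseChange C[X] A V[X] D (RingHom.etale_algebraMap.2 inferInstance))⟩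

theorem zval_loc (C A V K D D' : Type) [CommRing C] [CommRing A] [CommRing V] [CommRing K]
    [CommRing D] [CommRing D'] [Algebra C A] [Algebra C V] [Algebra C K] [Algebra V K]
    [IsScalarTower C V K] [IsLocalization (nonZeroDivisors V) K] [Algebra A D] [Algebra V D]
    [Algebra C D] [IsScalarTower C A D] [IsScalarTower C V D] [Algebra.IsPushout C A V D]
    [Algebra A D'] [Algebra K D'] [Algebra C D'] [IsScalarTower C A D'] [IsScalarTower C K D']
    [Algebra.IsPushout C A K D'] [Algebra D D'] [IsScalarTower A D D']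
    (h : ∀ v, algebraMap K D' (algebraMap V K v) = algebraMap D D' (algebraMap V D v)) :
    Gen V D D' := by
  let : Algebra V D' := ((algebraMap K D').comp (algebraMap V K)).toAlgebra
  have : IsScalarTower V K D' := .of_algebraMap_eq fun _ => rfl
  have : IsScalarTower V D D' := .of_algebraMap_eq h
  have : IsScalarTower C D D' := .of_algebraMap_eq fun c => by
    rw [IsScalarTower.algebraMap_apply C A D, ← IsScalarTower.algebraMap_apply A D D',
      ← IsScalarTower.algebraMap_apply]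
  have : Algebra.IsPushout C V A D := .symm inferInstance
  have : Algebra.IsPushout V K D D' :=
    (Algebra.IsPushout.comp_iff C V A D (T := K) (T' := D')).1 (.symm inferInstance)
  exact (Algebra.isLocalization_iff_isPushout (nonZeroDivisors V) K).2 this.symm

section
variable {C L : Type} [CommRing C] [Field L] [Algebra C L] {V : Subring L}

theorem zval_mem (h : (algebraMap C L).range ≤ V) {x : L} : x ∈ sub C V ↔ x ∈ V := by
  refine ⟨fun hx => ?_, fun hx => Algebra.subset_adjoin hx⟩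
  exact (Algebra.adjoin_le (S := { V.toSubsemiring with algebraMap_mem' := fun c => h ⟨c, rfl⟩ })
    le_rfl : sub C V ≤ _) hx

theorem zval_vr (h : (algebraMap C L).range ≤ V) (hv : ∀ t : L, t ∈ V ∨ t⁻¹ ∈ V) :
    ValuationRing (sub C V) := by
  refine { cond' := fun a b => ?_ }
  by_cases ha : (a : L) = 0
  · exact ⟨0, Or.inr (Subtype.ext (by simp [ha]))⟩
  by_cases hb : (b : L) = 0
  · exact ⟨0, Or.inl (Subtype.ext (by simp [hb]))⟩
  rcases hv ((b : L) / a) with h' | h'
  · exact ⟨⟨_, (zval_mem h).2 h'⟩, Or.inl (Subtype.ext (by simp [mul_div_cancel₀ _ ha]))⟩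
  · exact ⟨⟨_, (zval_mem h).2 h'⟩, Or.inr (Subtype.ext (by simp [mul_div_cancel₀ _ hb]))⟩

theorem zval_aic [IsAlgClosed L] (h : ZGood (algebraMap C L).range V) : Aic (sub C V) := by
  intro p hp hd
  obtain ⟨x, hx⟩ := IsAlgClosed.exists_aeval_eq_zero L p (by
    rw [degree_eq_natDegree hp.ne_zero]
    exact_mod_cast hd)
  have hi : IsIntegral V x := IsIntegral.map_of_comp_eq
    ((sub C V).val.toRingHom.codRestrict V fun z => (zval_mem h.1).1 z.2) (RingHom.id L) rfl
    ⟨p, hp, hx⟩
  refine ⟨⟨x, (zval_mem h.1).2 (h.2 x hi)⟩, Subtype.val_injective ?_⟩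
  exact (aeval_algebraMap_apply L (⟨x, (zval_mem h.1).2 (h.2 x hi)⟩ : sub C V) p).symm.trans hx

theorem zval_frac (h : (algebraMap C L).range ≤ V) (hv : ∀ t : L, t ∈ V ∨ t⁻¹ ∈ V)
    [Algebra (sub C V) (sub C (⊤ : Subring L))]
    (e : ∀ v, ((algebraMap (sub C V) (sub C (⊤ : Subring L)) v : sub C (⊤ : Subring L)) : L) = v) :
    IsLocalization (nonZeroDivisors (sub C V)) (sub C (⊤ : Subring L)) := by
  rw [isLocalization_iff]
  refine ⟨fun y => ?_, fun z => ?_, fun {x y} hxy => ⟨1, ?_⟩⟩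
  · have hy : ((y : sub C V) : L) ≠ 0 := fun h0 => nonZeroDivisors.coe_ne_zero y (Subtype.ext h0)
    exact .of_mul_eq_one ⟨((y : sub C V) : L)⁻¹, (zval_mem le_top).2 trivial⟩
      (Subtype.ext (by simp [e, hy]))
  · rcases hv z with h' | h'
    · exact ⟨(⟨_, (zval_mem h).2 h'⟩, 1), Subtype.ext (by simp [e])⟩
    · by_cases hz : (z : L) = 0
      · exact ⟨(0, 1), Subtype.ext (by simp [hz])⟩
      · exact ⟨(1, ⟨⟨_, (zval_mem h).2 h'⟩, mem_nonZeroDivisors_of_ne_zero fun h0 =>
          inv_ne_zero hz (congrArg Subtype.val h0)⟩), Subtype.ext (by simp [e, hz])⟩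
  · have := congrArg Subtype.val hxy
    rw [e, e] at this
    rw [Subtype.ext this]
end

theorem zval (h : VAL_s) : ZVAL_s := by
  intro l _ X C A L _ _ _ _ _ _ _ _ _ u hl V hV hv
  let : Algebra (sub C V) (TB C A V) := Algebra.TensorProduct.rightAlgebra
  let : Algebra (sub C (⊤ : Subring L)) (TB C A (⊤ : Subring L)) :=
    Algebra.TensorProduct.rightAlgebra
  obtain ⟨_, _, _⟩ := zval_et C A (sub C V) (TB C A V)
  let i : sub C V →ₐ[C] sub C (⊤ : Subring L) := Subalgebra.inclusion (Algebra.adjoin_mono le_top)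
  let : Algebra (sub C V) (sub C (⊤ : Subring L)) := i.toRingHom.toAlgebra
  have : IsScalarTower C (sub C V) (sub C (⊤ : Subring L)) := .of_algebraMap_eq fun c => rfl
  have := zval_frac hV.1 hv fun _ => rfl
  let : Algebra (TB C A V) (TB C A (⊤ : Subring L)) :=
    (rB C A (le_top : V ≤ ⊤) : TB C A V →+* _).toAlgebra
  have : IsScalarTower A (TB C A V) (TB C A (⊤ : Subring L)) :=
    .of_algebraMap_eq fun a => ((rB C A (le_top : V ≤ ⊤)).commutes a).symm
  have : Gen (sub C V) (TB C A V) (TB C A (⊤ : Subring L)) :=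
    zval_loc C A (sub C V) (sub C (⊤ : Subring L)) _ _ fun v => rfl
  have := zval_vr hV.1 hv
  have hl' : IsUnit (l : sub C V) := by simpa using hl.map (algebraMap C (sub C V))
  exact (hb_cst_iff (hm u (rB C A (le_top : V ≤ ⊤))) (ZM l)).2
    (h l (sub C V) (TB C A V) (TB C A (⊤ : Subring L)) (zval_aic hV) hl')

end Pool.Agent.MP_855f4c_ag.E.SA

end

section

/-! Section S, row LA: local acyclicity for etale algebras over the affine line. -/

set_option autoImplicit false
set_option backward.isDefEq.respectTransparency false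

open CategoryTheory Limits Abelian Opposite AlgebraicGeometry Polynomial IsLocalRing TensorProduct
open Function

namespace Pool.Agent.MP_855f4c_ag.E.SA

open E3 E4

theorem la_tm (C A : Type) {L : Type} [CommRing C] [CommRing A] [Algebra C A] [Field L]
    [Algebra C L] {B B' : Subring L} (h : B ≤ B') (a : A) (z : sub C B) :
    rB C A h (a ⊗ₜ z) = a ⊗ₜ ⟨z.1, Algebra.adjoin_mono h z.2⟩ :=
  Algebra.TensorProduct.map_tmul _ _ _ _

theorem la_rr (C A : Type) {L : Type} [CommRing C] [CommRing A] [Algebra C A] [Field L]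
    [Algebra C L] {B B' B'' : Subring L} (h : B ≤ B') (h' : B' ≤ B'') :
    (rB C A h').comp (rB C A h) = rB C A (h.trans h') := by
  refine AlgHom.ext fun x => ?_
  induction x using TensorProduct.induction_on with
  | zero => simp only [map_zero]
  | tmul a z => rw [AlgHom.comp_apply, la_tm, la_tm, la_tm]
  | add x y hx hy => simp only [map_add, hx, hy]

theorem la_hb {X : Scheme.{0}} {R A B : Type} [CommRing R] [CommRing A] [CommRing B] [Algebra R A]
    [Algebra R B] (u : Spec (.of R) ⟶ X) (F : Sh (Scheme.etaleTopology.over X)) (e : A ≃ₐ[R] B) :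
    HB (hm u (e : A →ₐ[R] B)) F :=
  have : IsIso (hm u (e : A →ₐ[R] B)) := ⟨hm u (e.symm : B →ₐ[R] A),
    by rw [← hm_comp, AlgEquiv.comp_symm, hm_id], by rw [← hm_comp, AlgEquiv.symm_comp, hm_id]⟩
  hb_of_isIso _ F

theorem la_good {C L : Type} [CommRing C] [IsDomain C] [IsIntegrallyClosed C] [Field L]
    [Algebra C L] [IsFractionRing C L] : ZGood (algebraMap C L).range (algebraMap C L).range := by
  refine ⟨le_rfl, fun x hx => ?_⟩
  let : Algebra C (algebraMap C L).range := (algebraMap C L).rangeRestrict.toAlgebra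
  have : IsScalarTower C (algebraMap C L).range L := .of_algebraMap_eq fun _ => rfl
  have : Algebra.IsIntegral C (algebraMap C L).range :=
    ⟨(algebraMap C L).rangeRestrict.isIntegral_of_surjective
      (algebraMap C L).rangeRestrict_surjective⟩
  exact IsIntegrallyClosed.isIntegral_iff.1 (isIntegral_trans x hx)

theorem la_bot (C A L : Type) [CommRing C] [CommRing A] [Algebra C A] [Field L] [Algebra C L]
    (h : Injective (algebraMap C L)) : Nonempty (A ≃ₐ[A] TB C A (algebraMap C L).range) := by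
  have hle : sub C (algebraMap C L).range ≤ ⊥ :=
    Algebra.adjoin_le fun _ hz => Algebra.mem_bot.2 hz
  have e : C ≃ₐ[C] sub C (algebraMap C L).range :=
    AlgEquiv.ofBijective (Algebra.ofId _ _) ⟨fun x y e => h (congrArg Subtype.val e), fun z =>
      (Algebra.mem_bot.1 (hle z.2)).imp fun c hc => Subtype.ext hc⟩
  exact ⟨(Algebra.TensorProduct.rid C A A).symm.trans
    (Algebra.TensorProduct.congr AlgEquiv.refl e)⟩

theorem la_top (C A A' L : Type) [CommRing C] [CommRing A] [Algebra C A] [Field L] [Algebra C L]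
    [IsFractionRing C L] [CommRing A'] [Algebra A A'] [Gen C A A'] :
    Nonempty (TB C A (⊤ : Subring L) ≃ₐ[A] A') := by
  have e : L ≃ₐ[C] sub C (⊤ : Subring L) :=
    (AlgEquiv.ofBijective (sub C (⊤ : Subring L)).val ⟨Subtype.val_injective,
      fun z => ⟨⟨z, Algebra.subset_adjoin (Subring.mem_top z)⟩, rfl⟩⟩).symm
  have := IsLocalization.isLocalization_of_algEquiv (nonZeroDivisors C) e
  exact ⟨IsLocalization.algEquiv (Algebra.algebraMapSubmonoid A (nonZeroDivisors C)) _ A'⟩

theorem la_zorn (h1 : ZLIM_s) (h2 : ZMV_s) (h3 : ZVAL_s) (l : ℕ) [Fact l.Prime] {X : Scheme.{0}}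
    (C A L : Type) [CommRing C] [CommRing A] [Algebra C A] [Algebra C[X] A]
    [IsScalarTower C C[X] A] [Algebra.Etale C[X] A] [Field L] [IsAlgClosed L] [Algebra C L]
    (u : Spec (.of A) ⟶ X) (hl : IsUnit (l : C)) (B : Subring L)
    (hB : ZGood (algebraMap C L).range B) (q : ℕ) :
    Bijective (rH C A u ((cst X).obj (ZM l)) q (le_top : B ≤ ⊤)) := by
  have hF : LFP ((cst X).obj (ZM l)).obj := (cst_Cc l (ZM l)).1
  refine zorn_la (algebraMap C L).range (fun q B => H (ob u (TB C A B)) ((cst X).obj (ZM l)) q)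
    (fun q _ _ h => rH C A u ((cst X).obj (ZM l)) q h) ?_ ?_ ?_ ?_ ?_ ?_ ?_ q B hB
  · intro q _ _ _ h h' x
    exact (res_comp _ _ q x).trans (by rw [← hm_comp, la_rr])
  · exact fun q 𝒮 hn hd _ => (h1 _ _ hF C A L u q 𝒮 hd).1 hn
  · exact fun q 𝒮 hd _ => (h1 _ _ hF C A L u q 𝒮 hd).2
  · exact fun B hB t ht => (h2 l _ C A L u hl B hB t ht).1
  · exact fun q B hB t ht => (h2 l _ C A L u hl B hB t ht).2.1 q
  · exact fun q B hB t ht => (h2 l _ C A L u hl B hB t ht).2.2 q
  · exact fun q V hV hv => h3 l _ C A L u hl V hV hv q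

theorem la_sq {X : Scheme.{0}} {A B B' A' : Type} [CommRing A] [CommRing B] [CommRing B']
    [CommRing A'] [Algebra A B] [Algebra A B'] [Algebra A A'] (u : Spec (.of A) ⟶ X) (M : Ab.{1})
    (e₁ : A ≃ₐ[A] B) (e₂ : B' ≃ₐ[A] A') (φ : B →ₐ[A] B') (h : HB (hm u φ) ((cst X).obj M)) :
    AB M (spc (algebraMap A A')) := by
  have k := (la_hb u _ e₂).comp (h.comp (la_hb u _ e₁))
  have e : hm u (e₂ : B' →ₐ[A] A') ≫ hm u φ ≫ hm u (e₁ : A →ₐ[A] B) = hm u (Algebra.ofId A A') := by
    rw [← hm_comp, ← hm_comp]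
    exact congrArg (hm u) (Subsingleton.elim _ _)
  exact (hb_cst_iff (hm u (Algebra.ofId A A')) M).1 (e ▸ k)

theorem la0 (h1 : ZLIM_s) (h2 : ZMV_s) (h3 : ZVAL_s) : LA0_s := by
  intro l _ C A A' _ _ _ _ _ _ _ _ _ _ hC hl
  have := hC.isAlgClosed (FractionRing C)
  have := hC.isIntegrallyClosed
  obtain ⟨e₁⟩ := la_bot C A (FractionRing C) (IsFractionRing.injective _ _)
  obtain ⟨e₂⟩ := la_top C A A' (FractionRing C)
  exact la_sq (𝟙 _) _ e₁ e₂ _ (la_zorn h1 h2 h3 l C A _ (𝟙 _) hl _ la_good)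

end Pool.Agent.MP_855f4c_ag.E.SA

end

section

/-! Section S: boundary points whose monodromy dies on a tame Kummer cover. -/

set_option autoImplicit false
set_option backward.isDefEq.respectTransparency false

open CategoryTheory Limits Abelian Opposite AlgebraicGeometry Polynomial IsLocalRing TensorProduct
open Function

namespace Pool.Agent.MP_855f4c_ag.E.SA

open E3 E4

section
variable {X X' : Scheme.{0}} (ρ : X' ⟶ X) {l : ℕ}

theorem b1_lis [IsFinite ρ] {G : Sh (Scheme.etaleTopology.over X')} {T : Over X} {W : Scheme.{0}} {p : W ⟶ T.left}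
    {q : W ⟶ X'} (P : IsPullback p q T.hom ρ) [Etale p]
    (h : Lis l G.obj ((Over.pullback ρ).obj T)) : Lis l ((pf ρ).obj G).obj T := by
  rintro C K _ _ _ _ _ _ a _ rfl ⟨v⟩ hC hl
  obtain ⟨D, _, _, u', H⟩ := exists_fib ρ a
  have := fib_finite H
  have := fib_etale (IsPullback.of_bot' ((Over.w v).symm ▸ H : IsPullback _ u' (v.left ≫ T.hom) ρ) P)
  have := hC.shl
  obtain ⟨ι, _, ⟨ε⟩⟩ := split_etale C D
  let σ : ι → D →ₐ[C] C := fun i => (Pi.evalAlgHom C (fun _ => C) i).comp ε
  let : ∀ i : ι, Algebra D (Cp C i) := fun i => (σ i : D →+* C).toAlgebra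
  let : ∀ i : ι, Algebra D (Cp K i) := fun i => ((algebraMap C K).comp (σ i : D →+* C)).toAlgebra
  let c : ∀ i : ι, Cp C i →ₐ[D] Cp K i := fun i => ⟨algebraMap C K, fun _ => rfl⟩
  have : IsScalarTower C K (∀ i : ι, Cp K i) := .of_algebraMap_eq fun _ => rfl
  have : IsScalarTower C D (∀ i : ι, Cp K i) := .of_algebraMap_eq fun r => funext fun i =>
    (congrArg (algebraMap C K) ((σ i).commutes r)).symm
  have : Algebra.IsPushout C K D (∀ i : ι, Cp K i) :=
    ⟨((IsBaseChange.linearMap C K).finitePow ι).comp_equiv ε.toLinearEquiv⟩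
  have hc : ∀ i, Function.Bijective (rs u' G.obj (c i)) := fun i =>
    h C K (ob u' (Cp C i)).hom (ob u' (Cp K i)).hom (Over.w (hm u' (c i)))
      ⟨hm u' (Algebra.ofId D (Cp C i)) ≫ fb0 H ≫ (Over.pullback ρ).map v⟩ hC hl
  let ε' : D ≃ₐ[D] ∀ i : ι, Cp C i := AlgEquiv.ofRingEquiv (f := ε.toRingEquiv) fun _ => rfl
  have h1 := (pi_bij u' G fun i : ι => Cp C i).comp (rs_equiv u' G.obj ε')
  have h2 := pi_bij u' G fun i : ι => Cp K i
  have h3 : Function.Bijective (rs u' G.obj (up D D (∀ i : ι, Cp K i))) := by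
    rw [← h2.of_comp_iff']
    refine (congrArg Function.Bijective (funext fun s => funext fun i => ?_)).mp
      ((Function.Bijective.piMap hc).comp h1)
    exact ((congrArg _ (rs_rs u' _ _ _ s)).trans (rs_rs u' _ _ _ s)).trans
      ((rs_congr u' _ (AlgHom.ext fun _ => rfl) s).trans
        (rs_rs u' _ (up D D (∀ i : ι, Cp K i)) (Pi.evalAlgHom D _ i) s).symm)
  exact (bij_of_sq G.obj (hm u' (up D D (∀ i : ι, Cp K i)))
    ((Over.pullback ρ).map (sph (algebraMap C K) rfl)) (fb H K _) (fb0 H) (toPb_nat ρ _ _ _ _ (by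
      rw [hm_left, ← Spec.map_comp]
      exact (congrArg Spec.map (CommRingCat.hom_ext ((IsScalarTower.algebraMap_eq C D _).symm.trans
        (IsScalarTower.algebraMap_eq C K _)))).trans (Spec.map_comp _ _))).symm).1 h3

/-- The section of the fibre product attached to a lift. -/
noncomputable def b1ev {T : Over X} (y : T ⟶ Over.mk ρ) :
    T ⟶ (Over.map ρ).obj ((Over.pullback ρ).obj T) :=
  Over.homMk (pullback.lift (𝟙 _) y.left ((Category.id_comp _).trans (Over.w y).symm))
    ((pullback.lift_snd_assoc _ _ _ _).trans (Over.w y))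

theorem b1_nat {T' T : Over X} (g : T' ⟶ T) (y : T ⟶ Over.mk ρ) :
    b1ev ρ (g ≫ y) ≫ (Over.map ρ).map ((Over.pullback ρ).map g) = g ≫ b1ev ρ y := by
  ext
  apply pullback.hom_ext <;> simp [b1ev]
  exact Category.id_comp _

theorem b1_ext [IsIntegralHom ρ] {G : Sh (Scheme.etaleTopology.over X)} (hG : Cc l G) {k : Type} [Field k]
    [IsAlgClosed k] (hl : (l : k) ≠ 0) {x : Spec (.of k) ⟶ X}
    (s : sec ((pf ρ).obj ((pb ρ).obj G)) (Over.mk x))
    (h : ∀ y : Over.mk x ⟶ Over.mk ρ, G.obj.map (b1ev ρ y).op s = 0) : s = 0 := by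
  refine stalk_inj ρ (pb_cc ρ hG) hl x (funext fun y => ?_)
  let a : Over.mk x ⟶ (Over.map ρ).obj (Over.mk y.left) :=
    Over.homMk (𝟙 _) ((Category.id_comp _).trans (Over.w y))
  have : IsIso a := isIso_homMk _ (inferInstanceAs (IsIso (𝟙 _)))
  refine ((ConcreteCategory.bijective_of_isIso (G.obj.map a.op)).1 ?_).trans (map_zero _).symm
  refine ((res_res G.obj _ _ s).trans ?_).trans (map_zero _).symm
  exact (congrArg (fun c => G.obj.map (Quiver.Hom.op c) s)
    (Over.OverMorphism.ext (Category.id_comp _))).trans (h y)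

theorem b1_conj (P : PSh X) {T S : Over X} (e : T ≅ S) (a : T ⟶ T) (b : S ⟶ S)
    (h : a ≫ e.hom = e.hom ≫ b) (hb : ∀ m, P.map b.op m = m) (m) : P.map a.op m = m := by
  obtain ⟨n, rfl⟩ := (ConcreteCategory.bijective_of_isIso (P.map e.hom.op)).2 m
  rw [res_res, h, ← res_res, hb]

end

theorem b1_etale (V O A : Type) [CommRing V] [CommRing O] [Algebra V[X] O] [CommRing A]
    [Algebra O A] {e : ℕ} (he : e ≠ 0) (h1 : IsUnit (e : A))
    (h2 : IsUnit (algebraMap O A (algebraMap V[X] O Polynomial.X))) :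
    Algebra.Etale A (A ⊗[O] Kum V O e) := by
  obtain ⟨w, hw⟩ := h2.map (algebraMap A (A ⊗[O] O))
  obtain ⟨u, v, h⟩ := separable_X_pow_sub_C_unit (n := e) w
    (by simpa using h1.map (algebraMap A (A ⊗[O] O)))
  let P : StandardEtalePair (A ⊗[O] O) :=
    ⟨_, monic_X_pow_sub_C (w : A ⊗[O] O) he, 1, v, u, 0, by rw [pow_zero, ← h]; ring⟩
  have hu : IsUnit (AdjoinRoot.mk P.f P.g) := (map_one (AdjoinRoot.mk P.f)).symm ▸ isUnit_one
  let i := IsLocalization.atUnit (AdjoinRoot P.f) (Localization.Away (AdjoinRoot.mk P.f P.g)) _ hu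
  have : Algebra.Etale (A ⊗[O] O) (AdjoinRoot P.f) :=
    .of_equiv (P.equivAwayAdjoinRoot.trans (i.symm.restrictScalars _))
  have : Algebra.Etale A (AdjoinRoot P.f) := .comp A (A ⊗[O] O) _
  refine .of_equiv (AdjoinRoot.tensorAlgEquiv _ P.f ?_).symm
  rw [Polynomial.map_sub, Polynomial.map_pow, map_X, map_C]
  refine congrArg (fun t => Polynomial.X ^ e - C t) (Eq.trans ?_ hw.symm)
  exact ((Algebra.TensorProduct.includeRight (R := O) (A := A)).commutes _).trans
    (IsScalarTower.algebraMap_apply O A _ _)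

theorem b1_fix {C O Ω : Type} [CommRing C] [CommRing O] [Algebra C[X] O] [Field Ω] [Algebra O Ω]
    (hC : Aic C) {e : ℕ} (he : e ≠ 0) {y : Ω}
    (hy : y ^ e = algebraMap O Ω (algebraMap C[X] O Polynomial.X)) (g : Ω →ₐ[O] Ω) (hg : g y = y)
    (τ : Kum C O e →ₐ[O] Ω) : g.comp τ = τ := by
  refine AlgHom.coe_ringHom_injective (Kum.hom_ext
    (fun a => ((g.comp τ).commutes a).trans (τ.commutes a).symm) ?_)
  change g (τ _) = τ _
  have h1 : τ (Kum.rt C O e) ^ e = y ^ e := by rw [← map_pow, Kum.rt_pow, τ.commutes, hy]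
  by_cases y0 : y = 0
  · rw [y0, zero_pow he, pow_eq_zero_iff he] at h1
    rw [h1, map_zero]
  let _ : Algebra C Ω := ((algebraMap O Ω).comp ((algebraMap C[X] O).comp Polynomial.C)).toAlgebra
  obtain ⟨a, -, ha⟩ := hC.root_lift (τ (Kum.rt C O e) / y) _ (monic_X_pow_sub_C 1 he) (by
    simp [div_pow, h1, y0])
  rw [← div_mul_cancel₀ (τ _) y0, ← ha, map_mul, hg]
  exact congrArg (· * y) (g.commutes _)

attribute [local instance] Algebra.TensorProduct.rightAlgebra in
theorem bnd1 (h : BE_s) : BND1_s := by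
  intro l _ X C O O' Ω _ _ _ _ _ _ _ _ _ _ _ _ _ x e y u F hC hl hx he hy hF hg
  obtain ⟨_, _, hG, rfl⟩ := hx.exists
  have e0 : e ≠ 0 := fun h0 => he.ne_zero (by rw [h0, Nat.cast_zero])
  let K := Kum C O e
  have := Kum.finite (V := C) (O := O) e0
  have := hG.shl
  have := hC.isIntegrallyClosed
  have : IsDomain K := Kum.isDomain hG.ind hG.orig e0
  let _ : Algebra C K := ((algebraMap O K).comp (algebraMap C O)).toAlgebra
  have : IsScalarTower C O K := .of_algebraMap_eq fun _ => rfl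
  have : IsScalarTower C C[X] K := .of_algebraMap_eq fun a =>
    ((Kum.alg_C C O e a).trans (congrArg _ (IsScalarTower.algebraMap_apply C C[X] O a).symm)).symm
  let _ : Algebra K Ω := (Kum.lift (algebraMap O Ω) y hy).toAlgebra
  have : IsScalarTower O K Ω := .of_algebraMap_eq fun a => (Kum.lift_alg _ _ _ a).symm
  have : FaithfulSMul K Ω := (faithfulSMul_iff_algebraMap_injective _ _).2 (Kum.lift_injective e0 _
    (IsScalarTower.algebraMap_eq O K Ω ▸ FaithfulSMul.algebraMap_injective O Ω))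
  have : Algebra.IsAlgebraic K Ω := .extendScalars (Kum.injective (V := C) (O := O) e0)
  have : Gen C K (K ⊗[O] O') := by
    have := (Algebra.isLocalization_iff_isPushout (T := K) (B := K ⊗[O] O')
      (Algebra.algebraMapSubmonoid O (nonZeroDivisors C)) O').2 inferInstance
    rwa [Algebra.algebraMapSubmonoid_map_map] at this
  have : Algebra.IsPushout O O K K := (Algebra.IsPushout.of_bijective_left O K bijective_id).symm
  have hO : IsUnit (l : O) := by simpa using hl.map (algebraMap C O)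
  have hk : ∀ (k : Type) [Field k] [Algebra O k], (l : k) ≠ 0 := fun k _ _ => by
    simpa using (hO.map (algebraMap O k)).ne_zero
  let ρ := spc (algebraMap O K) ≫ 𝟙 _
  have : IsFinite (spc (algebraMap O K)) :=
    (IsFinite.SpecMap_iff _).2 (RingHom.finite_algebraMap.2 inferInstance)
  have H : IsPullback (spc (algebraMap O K)) (𝟙 _) (𝟙 _) ρ :=
    .of_vert_isIso ⟨(Category.id_comp _).symm⟩
  have hs : GSurj ρ := fun k _ _ x => by
    obtain ⟨φ, rfl⟩ := Spec.map_surjective x
    obtain ⟨z, hz⟩ := IsAlgClosed.exists_pow_nat_eq (φ.hom (algebraMap C[X] O Polynomial.X))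
      (Nat.pos_of_ne_zero e0)
    refine ⟨spc (Kum.lift φ.hom z hz), ?_⟩
    rw [show ρ = _ from Category.comp_id _, ← Spec.map_comp]
    exact congrArg Spec.map (CommRingCat.hom_ext (RingHom.ext (Kum.lift_alg φ.hom z hz)))
  let O₁ := Localization.Away (algebraMap C[X] O Polynomial.X)
  have := b1_etale C O O₁ e0 (by simpa using he.map ((algebraMap O O₁).comp (algebraMap C O)))
    (IsLocalization.Away.algebraMap_isUnit _)
  have : Etale (spc (algebraMap O₁ (O₁ ⊗[O] K))) :=
    (HasRingHomProperty.Spec_iff (P := @Etale)).2 (RingHom.etale_algebraMap.2 ‹_›)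
  refine hb_of_con fun N => (con_hm_pb u _).1 (HB.con (emb _ (fun G => Loc l G (𝟙 _)
    (algebraMap C[X] O Polynomial.X) ∧ ∀ g : Ω ≃ₐ[O] Ω, g y = y → ∀ m : sec G (ob (𝟙 _) Ω),
      E4.gal (𝟙 _) Ω G.obj g m = m) (fun G ⟨hL, hA⟩ => ?_) _ ⟨hF.pb u, fun g gy => b1_conj F.obj
        (obMap u Ω) _ (act u Ω g) (Over.OverMorphism.ext
          ((Category.comp_id _).trans (Category.id_comp _).symm)) (hg g gy)⟩) _)
  let η := (pbpf ρ).unit.app G
  have := unit_mono ρ hL.1.1 (Linv.spec hO) hs
  refine ⟨ShortComplex.mk η (cokernel.π η) (cokernel.condition η),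
    { exact := ShortComplex.exact_cokernel η }, ⟨Iso.refl _⟩, (hb_pf ρ _ _).2 ((hb_of_sq
      (hm (𝟙 _) (Algebra.ofId K (K ⊗[O] O'))) _ (fb H O' _) (fb H O K) (toPb_nat ρ _ _ _ _ ?_).symm).1
      (h l _ C K _ Ω (Kum.rt C O e) _ _ hC hl (Kum.alg_X C O e ▸ germAt_iff.2 (Kum.germ hG e0))
        ?_ fun g => ?_)), ⟨Tc.coker η hL.1.1 (pf_tc ρ (pb_tc ρ hL.1)), fun k _ _ _ hx s => ?_,
      Lis.cokernel η hL.2.2 (b1_lis ρ (isPullback_ob H O₁ (O₁ ⊗[O] K)) ((Lis.map_iff ρ G.obj _).2
        (hL.2.2.mono ((Over.mapPullbackAdj ρ).counit.app _))))⟩, fun g gy s => ?_⟩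
  · rw [hm_left, hm_left, ← Spec.map_comp, ← Spec.map_comp]
    exact congrArg Spec.map (CommRingCat.hom_ext ((IsScalarTower.algebraMap_eq O K _).symm.trans
      (IsScalarTower.algebraMap_eq O O' _)))
  · have h1 := (hL.base _ K).pb
    rw [← Kum.rt_pow] at h1
    exact ⟨h1.1, fun k _ _ _ hx => h1.2.1 k (by rw [map_pow, hx, zero_pow e0]), h1.lis _ _ (by
      rw [map_pow]; exact (IsLocalization.Away.algebraMap_isUnit _).pow e)⟩
  · exact b1_conj G.obj (obMap ρ Ω ≪≫ obIso (𝟙 _) K Ω) _ (act _ Ω (g.restrictScalars O))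
      (Over.OverMorphism.ext (by simp [obMap, obIso]))
      (hA _ (Kum.lift_rt _ y hy ▸ g.commutes (Kum.rt C O e)))
  · obtain ⟨t, rfl⟩ := E4.shl_lift (𝟙 _) (cokernel.π η) s
    rw [b1_ext ρ hL.1.1 (hk k) t fun _ => hL.2.1 k hx _, map_zero]
  · obtain ⟨t, rfl⟩ := E4.shl_lift (𝟙 _) (cokernel.π η) s
    refine (rs_nat _ _ _ t).symm.trans (congrArg _ (sub_eq_zero.1 (b1_ext ρ hL.1.1 (hk Ω) _
      fun z => ?_)))
    obtain ⟨φ, hφ⟩ := Spec.map_surjective z.left
    have hw := Over.w z
    simp only [Over.mk_hom, ρ, Category.comp_id, ← hφ, ← Spec.map_comp] at hw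
    have hz : z = hm (𝟙 _) (⟨φ.hom, fun c => congr(($(Spec.map_injective hw)).hom c)⟩ : K →ₐ[O] Ω) :=
      Over.OverMorphism.ext hφ.symm
    have h2 : act (𝟙 _) Ω g ≫ z = z := by rw [hz, ← hm_comp, b1_fix hC e0 hy _ gy]
    rw [map_sub, sub_eq_zero]
    refine (res_res G.obj _ _ t).trans ?_
    rw [← hA g gy (G.obj.map (b1ev ρ z).op t)]
    refine Eq.trans ?_ (res_res G.obj _ _ t).symm
    rw [← b1_nat, h2]
    rfl

end Pool.Agent.MP_855f4c_ag.E.SA

end
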