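import Pool.Agent.MP_855f4c_ag.EC.Xa
import Pool.Agent.MP_855f4c_ag.EC.Ua
import Pool.Agent.MP_855f4c_ag.EC.F2a

section

set_option autoImplicit false
set_option backward.isDefEq.respectTransparency false

open CategoryTheory Limits Abelian Opposite AlgebraicGeometry Polynomial

namespace Pool.Agent.MP_855f4c_ag.E.U

open E3 E4 Function

variable {X Y : Scheme.{0}}

/-- `f^*`. -/
noncomputable abbrev PB (f : X ⟶ Y) : Sh (Scheme.etaleTopology.over Y) ⥤ Sh (Scheme.etaleTopology.over X) := pb (J := Scheme.etaleTopology) f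

/-- `f_*`. -/
noncomputable abbrev PF (f : X ⟶ Y) : Sh (Scheme.etaleTopology.over X) ⥤ Sh (Scheme.etaleTopology.over Y) := pf (J := Scheme.etaleTopology) f

/-- Families of sheaves, one for each prime. -/
abbrev Fam (X : Scheme.{0}) := ∀ (l : ℕ) [Fact l.Prime], Sh (Scheme.etaleTopology.over X)

/-- There is an isomorphism. -/
abbrev Is {𝒜 : Type*} [Category* 𝒜] (F G : 𝒜) : Prop := Nonempty (F ≅ G)

/-- An exact functor. -/
def Exa (T : Sh (Scheme.etaleTopology.over X) ⥤ Sh (Scheme.etaleTopology.over Y)) : Prop :=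
  T.Additive ∧ PreservesFiniteLimits T ∧ PreservesFiniteColimits T

/-- The map on sections. -/
abbrev app {F G : Sh (Scheme.etaleTopology.over X)} (φ : F ⟶ G) (T : Over X) : sec F T →+ sec G T :=
  (φ.hom.app (op T)).hom

/-- From the cohomology of the fibre to sections of the higher direct image. -/
noncomputable def stk (f : X ⟶ Y) (F : Sh (Scheme.etaleTopology.over X)) (q : ℕ) (T : Over Y) :
    H ((Over.pullback f).obj T) F q →+ sec ((Rq f q).obj F) T :=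
  ((toSheafify (Scheme.etaleTopology.over Y) ((Over.pullback f).op ⋙ (HPF q).obj F)).app (op T)).hom

lemma stk_res (f : X ⟶ Y) (F : Sh (Scheme.etaleTopology.over X)) (q : ℕ) {T' T : Over Y} (g : T' ⟶ T)
    (x : H ((Over.pullback f).obj T) F q) :
    stk f F q T' (res ((Over.pullback f).map g) F q x) = rsec g _ (stk f F q T x) :=
  nat (toSheafify (Scheme.etaleTopology.over Y) ((Over.pullback f).op ⋙ (HPF q).obj F)) g x

lemma pb_comp {Z : Scheme.{0}} (f : X ⟶ Y) (g : Y ⟶ Z) (F : Sh (Scheme.etaleTopology.over Z)) :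
    Is ((PB f).obj ((PB g).obj F)) ((PB (f ≫ g)).obj F) :=
  ⟨(Scheme.etaleTopology.overMapPullbackComp Ab.{1} f g).app F⟩

lemma pb_id (F : Sh (Scheme.etaleTopology.over X)) : Is ((PB (𝟙 X)).obj F) F :=
  ⟨(Scheme.etaleTopology.overMapPullbackId Ab.{1} X).app F⟩

section
variable (l : ℕ) [Fact l.Prime]

/-- The rank of a cofinite group. -/
noncomputable abbrev rk (M : Type 1) [AddCommGroup M] : ℕ := Module.finrank ℚ_[l] (V l M)

/-- In the class `Cl`, with weights at most `w`. -/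
def CW (w : ℕ) (F : Sh (Scheme.etaleTopology.over X)) : Prop := Cl l F ∧ Wt l w F

/-- Lisse with finite stalks. -/
def Nul (F : Sh (Scheme.etaleTopology.over X)) : Prop :=
  Lcf l F ∧ ∀ (k : Type) [Field k] [IsAlgClosed k] (x : Spec (.of k) ⟶ X), (l : k) ≠ 0 →
    rk l (sec F (Over.mk x)) = 0

variable {l} in
/-- The trace of Frobenius at a point. -/
noncomputable abbrev trF (F : Sh (Scheme.etaleTopology.over X)) {k : Type} [Field k] {x : Spec (.of k) ⟶ X} {Q : ℕ}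
    {ψ : k →+* k} (h : Fr l x Q ψ) : ℚ_[l] := tr l (rsec (sph ψ h.fix) F)

end

/-! ### Statements taken from sections F1, F2, F3, F4 -/

/-- Higher direct images. -/
structure NRQ_s : Prop where
  df : ∀ {X Y : Scheme.{0}} (f : X ⟶ Y), DF (Rq f)
  zero : ∀ {X Y : Scheme.{0}} (f : X ⟶ Y), Is (Rq f 0) (PF f)
  comp : ∀ {X Y Z : Scheme.{0}} (f : X ⟶ Y) (g : Y ⟶ Z), Is (PF f ⋙ PF g) (PF (f ≫ g))
  id : ∀ X : Scheme.{0}, Is (PF (𝟙 X)) (𝟭 _)
  inj : ∀ {X Y : Scheme.{0}} (f : X ⟶ Y) (I : Sh (Scheme.etaleTopology.over X)), Injective I → Injective ((PF f).obj I)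
  exa : ∀ {X Y : Scheme.{0}} (f : X ⟶ Y), Exa (PB f)
  bc : ∀ {X S X' S' : Scheme.{0}} {f : X ⟶ S} {f' : X' ⟶ S'} {a : S' ⟶ S} {b : X' ⟶ X},
    IsPullback b f' f a → ∀ (F : Sh (Scheme.etaleTopology.over X)) (n : ℕ),
      Is ((PB a).obj ((Rq f n).obj F)) ((Rq f' n).obj ((PB b).obj F))
  int : ∀ {X Y : Scheme.{0}} (ρ : X ⟶ Y), IsIntegralHom ρ → ∀ (G : Sh (Scheme.etaleTopology.over X)) (q : ℕ),
    IsZero ((Rq ρ (q + 1)).obj G)

/-- Stalks and the class `Tc`. -/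
structure NTC_s : Prop where
  stk : ∀ {X Y : Scheme.{0}} (f : X ⟶ Y) (F : Sh (Scheme.etaleTopology.over X)) (q : ℕ) (k : Type) [Field k]
    [IsAlgClosed k] (t : Spec (.of k) ⟶ Y), Bijective (stk f F q (Over.mk t))
  lfp : ∀ {X Y : Scheme.{0}} (f : X ⟶ Y) [QuasiCompact f] [IsSeparated f] (F : Sh (Scheme.etaleTopology.over X)) (q : ℕ),
    LFP F.obj → LFP ((Rq f q).obj F).obj
  tor : ∀ {X Y : Scheme.{0}} (f : X ⟶ Y) [QuasiCompact f] [IsSeparated f] (F : Sh (Scheme.etaleTopology.over X))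
    (q l : ℕ), Tor l F.obj → Tor l ((Rq f q).obj F).obj
  thick : ∀ (l : ℕ) (X : Scheme.{0}), Thick (Tc l : Sh (Scheme.etaleTopology.over X) → Prop)
  pb : ∀ (l : ℕ) {X Y : Scheme.{0}} (f : X ⟶ Y) (F : Sh (Scheme.etaleTopology.over Y)), Tc l F → Tc l ((PB f).obj F)
  ex : ∀ {X : Scheme.{0}} {F G K : Sh (Scheme.etaleTopology.over X)} (φ : F ⟶ G) (χ : G ⟶ K), Ex φ χ →
    ∀ (k : Type) [Field k] [IsAlgClosed k] (x : Spec (.of k) ⟶ X),
      Exact (app φ (Over.mk x)) (app χ (Over.mk x))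
  mono : ∀ {X : Scheme.{0}} {F G : Sh (Scheme.etaleTopology.over X)} (φ : F ⟶ G), Mono φ → ∀ T, Injective (app φ T)
  epi : ∀ {X : Scheme.{0}} {F G : Sh (Scheme.etaleTopology.over X)} (φ : F ⟶ G), Epi φ →
    ∀ (k : Type) [Field k] [IsAlgClosed k] (x : Spec (.of k) ⟶ X), Surjective (app φ (Over.mk x))
  ptz : ∀ (l : ℕ) {X : Scheme.{0}} (F : Sh (Scheme.etaleTopology.over X)), Linv l X → Tc l F →
    (∀ (k : Type) [Field k] [IsAlgClosed k] (x : Spec (.of k) ⟶ X) (s : sec F (Over.mk x)),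
      s = 0) → IsZero F
  ptm : ∀ (l : ℕ) {X : Scheme.{0}} {F G : Sh (Scheme.etaleTopology.over X)} (φ : F ⟶ G), Linv l X → Tc l F → Tc l G →
    (∀ (k : Type) [Field k] [IsAlgClosed k] (x : Spec (.of k) ⟶ X),
      Injective (app φ (Over.mk x))) → Mono φ
  pte : ∀ (l : ℕ) {X : Scheme.{0}} {F G : Sh (Scheme.etaleTopology.over X)} (φ : F ⟶ G), Linv l X → Tc l F → Tc l G →
    (∀ (k : Type) [Field k] [IsAlgClosed k] (x : Spec (.of k) ⟶ X),
      Surjective (app φ (Over.mk x))) → Epi φ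
  pti : ∀ (l : ℕ) {X : Scheme.{0}} {F G : Sh (Scheme.etaleTopology.over X)} (φ : F ⟶ G), Linv l X → Tc l F → Tc l G →
    (∀ (k : Type) [Field k] [IsAlgClosed k] (x : Spec (.of k) ⟶ X),
      Bijective (app φ (Over.mk x))) → IsIso φ
  ptx : ∀ (l : ℕ) {X : Scheme.{0}} {F G K : Sh (Scheme.etaleTopology.over X)} (φ : F ⟶ G) (χ : G ⟶ K), Linv l X →
    Tc l F → Tc l G → Tc l K → (∀ (k : Type) [Field k] [IsAlgClosed k] (x : Spec (.of k) ⟶ X),
      Exact (app φ (Over.mk x)) (app χ (Over.mk x))) → Ex φ χ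

/-- Extension by zero. -/
structure NEZ_s : Prop where
  lfp : ∀ {X : Scheme.{0}} (O : X.Opens) (F : Sh (Scheme.etaleTopology.over X)), LFP F.obj → LFP ((ez O).obj F).obj
  tor : ∀ (l : ℕ) {X : Scheme.{0}} (O : X.Opens) (F : Sh (Scheme.etaleTopology.over X)), Tor l F.obj →
    Tor l ((ez O).obj F).obj
  tc : ∀ (l : ℕ) {X : Scheme.{0}} (O : X.Opens) (F : Sh (Scheme.etaleTopology.over X)), Tc l F → Tc l ((ez O).obj F)
  mono : ∀ {X : Scheme.{0}} (O : X.Opens) (F : Sh (Scheme.etaleTopology.over X)), Mono ((ezι O).app F)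
  inn : ∀ {X : Scheme.{0}} (O : X.Opens) (F : Sh (Scheme.etaleTopology.over X)) (T : Over X), (∀ t, T.hom t ∈ O) →
    Bijective (app ((ezι O).app F) T)
  out : ∀ {X : Scheme.{0}} (O : X.Opens) (F : Sh (Scheme.etaleTopology.over X)) (A : Type) [CommRing A] [SHL A]
    (a : Spec (.of A) ⟶ X), (∃ t, a t ∉ O) → ∀ s : sec ((ez O).obj F) (Over.mk a), s = 0
  outk : ∀ {X : Scheme.{0}} (O : X.Opens) (F : Sh (Scheme.etaleTopology.over X)) (k : Type) [Field k] [IsAlgClosed k]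
    (x : Spec (.of k) ⟶ X), (∃ t, x t ∉ O) → ∀ s : sec ((ez O).obj F) (Over.mk x), s = 0
  pb : ∀ {X Y : Scheme.{0}} (g : Y ⟶ X) (O : X.Opens) (F : Sh (Scheme.etaleTopology.over X)),
    Is ((PB g).obj ((ez O).obj F)) ((ez (g ⁻¹ᵁ O)).obj ((PB g).obj F))
  pin : ∀ {X Y : Scheme.{0}} (g : Y ⟶ X) (O : X.Opens) (F : Sh (Scheme.etaleTopology.over X)), (∀ t, g t ∈ O) →
    Is ((PB g).obj ((ez O).obj F)) ((PB g).obj F)
  pout : ∀ {X Y : Scheme.{0}} (g : Y ⟶ X) (O : X.Opens) (F : Sh (Scheme.etaleTopology.over X)), (∀ t, g t ∉ O) →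
    IsZero ((PB g).obj ((ez O).obj F))

/-- Row NN: nice rings. -/
structure NN_s : Prop where
  ex : ∀ (Ω : Type) [Field Ω] [CharZero Ω] (A : Subring Ω), Algebra.FiniteType ℤ A →
    ∃ A' : Subring Ω, A ≤ A' ∧ Nice A'
  away : ∀ (A : Type) [CommRing A] (l : ℕ), l ≠ 0 → Nice A → Nice (Localization.Away (l : A))

/-- Row SUB: subsheaves and isomorphisms of lisse sheaves from the generic stalk. -/
structure SUB_s : Prop where
  sub : ∀ (l : ℕ) (B Ω : Type) [CommRing B] [IsDomain B] [IsIntegrallyClosed B] [Field Ω]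
    [IsAlgClosed Ω] [Algebra B Ω] [FaithfulSMul B Ω] [Algebra.IsAlgebraic B Ω]
    (F : Sh (Scheme.etaleTopology.over (Spec (.of B)))), IsUnit (l : B) → Lcf l F →
    ∀ N : AddSubgroup (sec F (ob (𝟙 _) Ω)),
      (∀ g : Ω ≃ₐ[B] Ω, ∀ m ∈ N, E4.gal (𝟙 _) Ω F.obj g m ∈ N) →
      ∃ (K : Sh (Scheme.etaleTopology.over (Spec (.of B)))) (i : K ⟶ F), Mono i ∧ Lcf l K ∧
        (app i (ob (𝟙 _) Ω)).range = N
  full : ∀ (l : ℕ) (B Ω : Type) [CommRing B] [IsDomain B] [IsIntegrallyClosed B] [Field Ω]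
    [IsAlgClosed Ω] [Algebra B Ω] [FaithfulSMul B Ω] [Algebra.IsAlgebraic B Ω]
    (F G : Sh (Scheme.etaleTopology.over (Spec (.of B)))), IsUnit (l : B) → Lcf l F → Lcf l G →
    ∀ e : sec F (ob (𝟙 _) Ω) ≃+ sec G (ob (𝟙 _) Ω),
      (∀ (g : Ω ≃ₐ[B] Ω) m, e (E4.gal (𝟙 _) Ω F.obj g m) = E4.gal (𝟙 _) Ω G.obj g (e m)) → Is F G
  nul : ∀ (l : ℕ) [Fact l.Prime] (B Ω : Type) [CommRing B] [IsDomain B] [Field Ω]
    [IsAlgClosed Ω] [Algebra B Ω] [FaithfulSMul B Ω] [Algebra.IsAlgebraic B Ω]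
    (F : Sh (Scheme.etaleTopology.over (Spec (.of B)))), IsUnit (l : B) → Lcf l F →
    rk l (sec F (ob (𝟙 _) Ω)) = 0 → Nul l F

/-! ### Algebra of cofinite groups -/

/-- Row ALG. -/
structure ALG_s : Prop where
  mid : ∀ (l : ℕ) [Fact l.Prime] {M₁ M₂ M₃ : Type 1} [AddCommGroup M₁] [AddCommGroup M₂]
    [AddCommGroup M₃] (f : M₁ →+ M₂) (g : M₂ →+ M₃) (φ₁ : M₁ →+ M₁) (φ₂ : M₂ →+ M₂)
    (φ₃ : M₃ →+ M₃), Exact f g → (∀ m, f (φ₁ m) = φ₂ (f m)) → (∀ m, g (φ₂ m) = φ₃ (g m)) →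
    Cof l M₁ → ∀ (j : ℚ_[l] →+* ℂ) (S : Set ℝ), Ev j S φ₁ → Ev j S φ₃ → Ev j S φ₂
  add : ∀ (l : ℕ) [Fact l.Prime] {M₁ M₂ M₃ : Type 1} [AddCommGroup M₁] [AddCommGroup M₂]
    [AddCommGroup M₃] (f : M₁ →+ M₂) (g : M₂ →+ M₃) (φ₁ : M₁ →+ M₁) (φ₂ : M₂ →+ M₂)
    (φ₃ : M₃ →+ M₃), Injective f → Exact f g → Surjective g → (∀ m, f (φ₁ m) = φ₂ (f m)) →
    (∀ m, g (φ₂ m) = φ₃ (g m)) → Cof l M₂ →
    tr l φ₂ = tr l φ₁ + tr l φ₃ ∧ rk l M₂ = rk l M₁ + rk l M₃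
  iso : ∀ (l : ℕ) [Fact l.Prime] {M N : Type 1} [AddCommGroup M] [AddCommGroup N] (e : M →+ N)
    (φ : M →+ M) (χ : N →+ N), Bijective e → (∀ m, e (φ m) = χ (e m)) →
    tr l φ = tr l χ ∧ rk l M = rk l N ∧ ∀ (j : ℚ_[l] →+* ℂ) (S : Set ℝ), Ev j S φ ↔ Ev j S χ
  nul : ∀ (l : ℕ) [Fact l.Prime] {M : Type 1} [AddCommGroup M] (φ : M →+ M), Cof l M →
    rk l M = 0 → tr l φ = 0 ∧ ∀ (j : ℚ_[l] →+* ℂ) (S : Set ℝ), Ev j S φ
  pow : ∀ (l : ℕ) [Fact l.Prime] {M : Type 1} [AddCommGroup M] (φ : AddMonoid.End M) (m : ℕ)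
    (B : ℝ) (j : ℚ_[l] →+* ℂ), 0 < m → 0 ≤ B →
    Ev j (Set.Iic (B ^ m)) ((φ ^ m : AddMonoid.End M) : M →+ M) → Ev j (Set.Iic B) (φ : M →+ M)
  pi : ∀ (l : ℕ) [Fact l.Prime] {I : Type} [Fintype I] [DecidableEq I] (M : I → Type 1)
    [∀ i, AddCommGroup (M i)] (Φ : (∀ i, M i) →+ ∀ i, M i), (∀ i, Cof l (M i)) →
    tr l Φ = ∑ i, tr l ((Pi.evalAddMonoidHom M i).comp (Φ.comp (AddMonoidHom.single M i)))
  piEv : ∀ (l : ℕ) [Fact l.Prime] {I : Type} [Finite I] (M : I → Type 1)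
    [∀ i, AddCommGroup (M i)] (Φ : (∀ i, M i) →+ ∀ i, M i) (φ : ∀ i, M i →+ M i),
    (∀ s i, Φ s i = φ i (s i)) → ∀ (j : ℚ_[l] →+* ℂ) (S : Set ℝ), (∀ i, Ev j S (φ i)) → Ev j S Φ
  dual : ∀ (l : ℕ) [Fact l.Prime] {M N : Type 1} [AddCommGroup M] [AddCommGroup N] (Ω : Type)
    [Field Ω] [IsAlgClosed Ω], (l : Ω) ≠ 0 → Cof l M → Cof l N →
    ∀ e : (M →+ QZ l) →+ N →+ MuI l Ω, Bijective e → rk l M = rk l N ∧
      ∀ (φ : M →+ M) (χ : N →+ N) (g : Ω →+* Ω) (Q : ℕ), 0 < Q →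
        (∀ (ζ : Ω) (n : ℕ), ζ ^ l ^ n = 1 → g ζ ^ Q = ζ) →
        (∀ f m, MuI.map l g (e (f.comp φ) m) = e f (χ m)) →
        tr l φ = Q * tr l χ ∧ ∀ (j : ℚ_[l] →+* ℂ) (B : ℝ),
          Ev j (Set.Iic B) χ → Ev j (Set.Iic ((Q : ℝ) ^ 2 * B)) φ

/-! ### The classes `Lcf`, `RatS`, `Cl`, `Wt` -/

/-- Row GE. -/
structure GE_s : Prop where
  thick : ∀ (l : ℕ) (X : Scheme.{0}), Thick (Lcf l : Sh (Scheme.etaleTopology.over X) → Prop)
  lcfPb : ∀ (l : ℕ) {X Y : Scheme.{0}} (g : Y ⟶ X) (F : Sh (Scheme.etaleTopology.over X)), Lcf l F →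
    Lcf l ((PB g).obj F)
  clG : ∀ (l : ℕ) [Fact l.Prime] {X : Scheme.{0}} (F : Sh (Scheme.etaleTopology.over X)),
    Cl l F ↔ ClG (Lcf l) (RatS l) F
  lcf : ∀ (l : ℕ) [Fact l.Prime] {X : Scheme.{0}} (F : Sh (Scheme.etaleTopology.over X)), Cl l F → Lcf l F
  clMid : ∀ (l : ℕ) [Fact l.Prime] {X : Scheme.{0}} {F G K : Sh (Scheme.etaleTopology.over X)} (φ : F ⟶ G) (χ : G ⟶ K),
    Ex φ χ → Cl l F → Cl l K → Lcf l G → Cl l G
  clSub : ∀ (l : ℕ) [Fact l.Prime] {X : Scheme.{0}} {F G : Sh (Scheme.etaleTopology.over X)} (φ : F ⟶ G), Mono φ →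
    Cl l G → Lcf l F → Cl l F
  clQuo : ∀ (l : ℕ) [Fact l.Prime] {X : Scheme.{0}} {F G : Sh (Scheme.etaleTopology.over X)} (φ : F ⟶ G), Epi φ →
    Cl l F → Lcf l G → Cl l G
  clPb : ∀ (l : ℕ) [Fact l.Prime] {X Y : Scheme.{0}} (g : Y ⟶ X) (F : Sh (Scheme.etaleTopology.over X)), Cl l F →
    Cl l ((PB g).obj F)
  ratIso : ∀ (l : ℕ) [Fact l.Prime] {X : Scheme.{0}} {F G : Sh (Scheme.etaleTopology.over X)}, Is F G → RatT l F →
    RatT l G
  ratPb : ∀ (l : ℕ) [Fact l.Prime] {X Y : Scheme.{0}} (g : Y ⟶ X) (F : Sh (Scheme.etaleTopology.over X)), RatT l F →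
    RatT l ((PB g).obj F)
  wtMid : ∀ (l : ℕ) [Fact l.Prime] (w : ℕ) {X : Scheme.{0}} {F G K : Sh (Scheme.etaleTopology.over X)} (φ : F ⟶ G)
    (χ : G ⟶ K), Ex φ χ → CofS l F → Wt l w F → Wt l w K → Wt l w G
  wtSub : ∀ (l : ℕ) [Fact l.Prime] (w : ℕ) {X : Scheme.{0}} {F G : Sh (Scheme.etaleTopology.over X)} (φ : F ⟶ G),
    Mono φ → Wt l w G → Wt l w F
  wtQuo : ∀ (l : ℕ) [Fact l.Prime] (w : ℕ) {X : Scheme.{0}} {F G : Sh (Scheme.etaleTopology.over X)} (φ : F ⟶ G),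
    Epi φ → CofS l F → Wt l w F → Wt l w G
  wtPb : ∀ (l : ℕ) [Fact l.Prime] (w : ℕ) {X Y : Scheme.{0}} (g : Y ⟶ X) (F : Sh (Scheme.etaleTopology.over X)),
    Wt l w F → Wt l w ((PB g).obj F)
  wtMono : ∀ (l : ℕ) [Fact l.Prime] {w w' : ℕ} {X : Scheme.{0}} (F : Sh (Scheme.etaleTopology.over X)), w ≤ w' →
    Wt l w F → Wt l w' F
  nul : ∀ (l : ℕ) [Fact l.Prime] (w : ℕ) {X : Scheme.{0}} (F : Sh (Scheme.etaleTopology.over X)), Nul l F →
    RatS l F ∧ CW l w F ∧ ∀ (k : Type) [Field k] [IsAlgClosed k] (x : Spec (.of k) ⟶ X) (Q : ℕ)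
      (ψ : k →+* k) (h : Fr l x Q ψ), trF F h = 0
  zero : ∀ (l : ℕ) [Fact l.Prime] {X : Scheme.{0}} (F : Sh (Scheme.etaleTopology.over X)), IsZero F → Nul l F
  add : ∀ (l : ℕ) [Fact l.Prime] {X : Scheme.{0}} {F G K : Sh (Scheme.etaleTopology.over X)} (φ : F ⟶ G) (χ : G ⟶ K),
    Mono φ → Ex φ χ → Epi χ → CofS l G →
    ∀ (k : Type) [Field k] [IsAlgClosed k] (x : Spec (.of k) ⟶ X),
      ((l : k) ≠ 0 → rk l (sec G (Over.mk x)) = rk l (sec F (Over.mk x)) + rk l (sec K (Over.mk x))) ∧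
      ∀ (Q : ℕ) (ψ : k →+* k) (h : Fr l x Q ψ), trF G h = trF F h + trF K h
  trIso : ∀ (l : ℕ) [Fact l.Prime] {X : Scheme.{0}} {F G : Sh (Scheme.etaleTopology.over X)}, Is F G →
    ∀ (k : Type) [Field k] (x : Spec (.of k) ⟶ X),
      rk l (sec F (Over.mk x)) = rk l (sec G (Over.mk x)) ∧
      ∀ (Q : ℕ) (ψ : k →+* k) (h : Fr l x Q ψ), trF F h = trF G h
  cwIso : ∀ (l : ℕ) [Fact l.Prime] (w : ℕ) {X : Scheme.{0}} {F G : Sh (Scheme.etaleTopology.over X)}, Is F G →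
    CW l w F → CW l w G
  cwFive : ∀ (l : ℕ) [Fact l.Prime] (w : ℕ) {X : Scheme.{0}} (F₁ F₂ F₃ F₄ F₅ : Sh (Scheme.etaleTopology.over X)),
    Ex5 F₁ F₂ F₃ F₄ F₅ → Lcf l F₁ → CW l w F₂ → CW l w F₄ → Lcf l F₅ → CW l w F₃
  cwSum : ∀ (l : ℕ) [Fact l.Prime] (w : ℕ) {X : Scheme.{0}} {I : Type} [Finite I]
    (G : I → Sh (Scheme.etaleTopology.over X)), (∀ i, CW l w (G i)) → CW l w (⨁ G)

/-- Row RATP: finite etale push-forward and descent. -/
structure RATP_s : Prop where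
  lcf : ∀ (l : ℕ) {X Y : Scheme.{0}} (c : X ⟶ Y) [IsFinite c] [Etale c] (F : Sh (Scheme.etaleTopology.over X)),
    Lcf l F → Lcf l ((PF c).obj F)
  cw : ∀ (l : ℕ) [Fact l.Prime] (w : ℕ) {X Y : Scheme.{0}} (c : X ⟶ Y) [IsFinite c] [Etale c]
    (F : Sh (Scheme.etaleTopology.over X)), CW l w F → CW l w ((PF c).obj F)
  desc : ∀ (l : ℕ) [Fact l.Prime] (w : ℕ) {X Y : Scheme.{0}} (c : X ⟶ Y) [IsFinite c] [Etale c]
    [AlgebraicGeometry.Surjective c] (G : Sh (Scheme.etaleTopology.over Y)), Linv l Y → Tc l G → CW l w ((PB c).obj G) → CW l w G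

/-- Row FSPL: a finite push-forward that splits. -/
def FSPL_s : Prop :=
  ∀ (l : ℕ) {X Y S : Scheme.{0}} (c : X ⟶ Y) [IsFinite c] (b : S ⟶ Y) {I : Type} [Finite I]
    (σ : I → (S ⟶ X)) (F : Sh (Scheme.etaleTopology.over X)), Linv l S → Tc l F → (∀ i, σ i ≫ c = b) →
    (∀ (k : Type) [Field k] [IsAlgClosed k] (s : Spec (.of k) ⟶ S) (y : Spec (.of k) ⟶ X),
      y ≫ c = s ≫ b → ∃! i, y = s ≫ σ i) →
    Is ((PB b).obj ((PF c).obj F)) (⨁ fun i => (PB (σ i)).obj F)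

/-- Row STRIP: removing finitely many disjoint sections. -/
def STRIP_s : Prop :=
  ∀ (l : ℕ) [Fact l.Prime] (w : ℕ) {X Y : Scheme.{0}} (f : X ⟶ Y) (O : X.Opens) {I : Type}
    [Finite I] (σ : I → (Y ⟶ X)) (F : Sh (Scheme.etaleTopology.over X)), Linv l Y → Tc l F →
    (∀ i, IsClosedImmersion (σ i)) → (∀ i, σ i ≫ f = 𝟙 Y) → (∀ i y, σ i y ∉ O) →
    (∀ (k : Type) [Field k] [IsAlgClosed k] (x : Spec (.of k) ⟶ X), (∃ t, x t ∉ O) →
      ∃! i, x = (x ≫ f) ≫ σ i) →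
    (∀ i, CW l w ((PB (σ i)).obj F)) → (∀ b, CW l (w + b) ((Rq f b).obj ((ez O).obj F))) →
    ∀ b, CW l (w + b) ((Rq f b).obj F)

/-! ### Curves -/

section curve
variable {A : Type} [CommRing A] (L : PL (Spec (.of A))) (h : A[X])

/-- Extension by zero from `h ≠ 0` to the projective line. -/
noncomputable def js [IsOpenImmersion (L.u h)] :
    Sh (Scheme.etaleTopology.over (Spec (.of (Localization.Away h)))) ⥤ Sh (Scheme.etaleTopology.over L.P) :=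
  PF (L.u h) ⋙ ez (L.u h).opensRange

/-- Cohomology with compact supports of the fibres. -/
noncomputable def Rc [IsOpenImmersion (L.u h)] (b : ℕ) :
    Sh (Scheme.etaleTopology.over (Spec (.of (Localization.Away h)))) ⥤ Sh (Scheme.etaleTopology.over (Spec (.of A))) := js L h ⋙ Rq L.π b

/-- The structure map of `h ≠ 0`. -/
noncomputable abbrev gu : Spec (.of (Localization.Away h)) ⟶ Spec (.of A) :=
  spc ((algebraMap A[X] (Localization.Away h)).comp C)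

end curve

/-- Row JSH. -/
structure JSH_s : Prop where
  exa : ∀ {A : Type} [CommRing A] (L : PL (Spec (.of A))) (h : A[X]) [IsOpenImmersion (L.u h)],
    Exa (js L h)
  unit : ∀ {A : Type} [CommRing A] (L : PL (Spec (.of A))) (h : A[X]) [IsOpenImmersion (L.u h)],
    Is (js L h ⋙ PB (L.u h)) (𝟭 _)
  ez : ∀ {A : Type} [CommRing A] (L : PL (Spec (.of A))) (h : A[X]) [IsOpenImmersion (L.u h)]
    (F : Sh (Scheme.etaleTopology.over L.P)), Is ((ez (L.u h).opensRange).obj F) ((js L h).obj ((PB (L.u h)).obj F))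
  les : ∀ {A : Type} [CommRing A] (L : PL (Spec (.of A))) (h : A[X]) [IsOpenImmersion (L.u h)]
    {F G K : Sh (Scheme.etaleTopology.over (Spec (.of (Localization.Away h))))} (φ : F ⟶ G) (χ : G ⟶ K),
    Mono φ → Ex φ χ → Epi χ → ∀ n, Ex ((Rc L h n).map φ) ((Rc L h n).map χ) ∧
      ∃ δ : (Rc L h n).obj K ⟶ (Rc L h (n + 1)).obj F,
        Ex ((Rc L h n).map χ) δ ∧ Ex δ ((Rc L h (n + 1)).map φ)
  gd : ∀ (l : ℕ) {A : Type} [CommRing A] (L : PL (Spec (.of A))) (h : A[X])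
    [IsOpenImmersion (L.u h)] (G), Lcf l G → Gd l L h ((js L h).obj G)
  rat : ∀ (l : ℕ) [Fact l.Prime] {A : Type} [CommRing A] (L : PL (Spec (.of A))) (h : A[X])
    [IsOpenImmersion (L.u h)] (G), RatT l G → RatT l ((js L h).obj G)
  wt : ∀ (l : ℕ) [Fact l.Prime] (w : ℕ) {A : Type} [CommRing A] (L : PL (Spec (.of A))) (h : A[X])
    [IsOpenImmersion (L.u h)] (G), Wt l w G → Wt l w ((js L h).obj G)

/-- A nice base with `l` invertible and disjoint sections `a i`. -/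
structure CS (l : ℕ) {A : Type} [CommRing A] {r : ℕ} (a : Fin (r + 1) → A) : Prop where
  nice : Nice A
  unit : IsUnit (l : A)
  disj : ∀ i j, i ≠ j → IsUnit (a i - a j)

/-- Row RCL: what sections P, C, S, W give for `Rc`. -/
def RCL_s : Prop :=
  ∀ (l : ℕ) [Fact l.Prime] {A : Type} [CommRing A] (L : PL (Spec (.of A))) {r : ℕ}
    (a : Fin (r + 1) → A) [IsOpenImmersion (L.u (hp a))], CS l a →
    (∀ G, Lcf l G → (∀ b, Lcf l ((Rc L (hp a) b).obj G)) ∧ IsZero ((Rc L (hp a) 0).obj G) ∧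
      ∀ b, IsZero ((Rc L (hp a) (b + 3)).obj G)) ∧
    (∀ G, RatS l G → ∀ (k : Type) [Field k] [IsAlgClosed k] (t : Spec (.of k) ⟶ Spec (.of A))
      (Q : ℕ) (ψ : k →+* k) (e : Fr l t Q ψ),
      ∃ c : ℚ, trF ((Rc L (hp a) 2).obj G) e - trF ((Rc L (hp a) 1).obj G) e = c) ∧
    ∀ (w : ℕ) (G G₁ G' : Sh (Scheme.etaleTopology.over (Spec (.of (Localization.Away (hp a)))))) (i : G₁ ⟶ G')
      (p : G₁ ⟶ G), Mono i → Epi p → RatS l G' → Lcf l G₁ → Lcf l G → Wt l w G →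
      Wt l (w + 1) ((Rc L (hp a) 1).obj G)

/-- Row TWI: the top cohomology of a pull-back is a twist. -/
def TWI_s : Prop :=
  ∀ (l : ℕ) [Fact l.Prime] {A : Type} [CommRing A] (L : PL (Spec (.of A))) (h : A[X])
    [IsOpenImmersion (L.u h)] (W : Sh (Scheme.etaleTopology.over (Spec (.of A)))), IsUnit h.leadingCoeff → Lcf l W →
    ∀ (k : Type) [Field k] [IsAlgClosed k] (t : Spec (.of k) ⟶ Spec (.of A)), (l : k) ≠ 0 →
      rk l (sec ((Rc L h 2).obj ((PB (gu h)).obj W)) (Over.mk t)) = rk l (sec W (Over.mk t)) ∧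
      ∀ (Q : ℕ) (ψ : k →+* k) (e : Fr l t Q ψ),
        trF ((Rc L h 2).obj ((PB (gu h)).obj W)) e = Q * trF W e ∧
        ∀ (j : ℚ_[l] →+* ℂ) (B : ℝ), Ev j (Set.Iic B) (rsec (sph ψ e.fix) W) →
          Ev j (Set.Iic ((Q : ℝ) ^ 2 * B))
            (rsec (sph ψ e.fix) ((Rc L h 2).obj ((PB (gu h)).obj W)))

/-- Row TWC: the twist keeps `Cl`. -/
def TWC_s : Prop :=
  ∀ (l : ℕ) [Fact l.Prime] {A : Type} [CommRing A] (L : PL (Spec (.of A))) {r : ℕ}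
    (a : Fin (r + 1) → A) [IsOpenImmersion (L.u (hp a))], CS l a →
    ∀ W : Sh (Scheme.etaleTopology.over (Spec (.of A))),
      (Cl l W → Cl l ((Rc L (hp a) 2).obj ((PB (gu (hp a))).obj W))) ∧
      ∀ w, Lcf l W → Wt l w W → Wt l (w + 2) ((Rc L (hp a) 2).obj ((PB (gu (hp a))).obj W))

/-- Row COI: the largest quotient that comes from the base. -/
def COI_s : Prop :=
  ∀ (l : ℕ) {A : Type} [CommRing A] [IsDomain A] [IsIntegrallyClosed A] (h : A[X]) (a₁ : A)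
    (Ω Ω' : Type) [Field Ω] [IsAlgClosed Ω] [Algebra A Ω] [FaithfulSMul A Ω]
    [Algebra.IsAlgebraic A Ω] [Field Ω'] [IsAlgClosed Ω'] [Algebra (Localization.Away h) Ω']
    [FaithfulSMul (Localization.Away h) Ω'] [Algebra.IsAlgebraic (Localization.Away h) Ω']
    (ι : Ω →+* Ω'), ι.comp (algebraMap A Ω) =
      (algebraMap (Localization.Away h) Ω').comp ((algebraMap A[X] _).comp C) →
    IsUnit (l : A) → IsUnit (h.eval a₁) →
    ∀ G : Sh (Scheme.etaleTopology.over (Spec (.of (Localization.Away h)))), Lcf l G →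
      ∃ (K : Sh (Scheme.etaleTopology.over (Spec (.of (Localization.Away h))))) (W : Sh (Scheme.etaleTopology.over (Spec (.of A))))
        (i : K ⟶ G) (p : G ⟶ (PB (gu h)).obj W), Mono i ∧ Ex i p ∧ Epi p ∧ Lcf l K ∧ Lcf l W ∧
        (app i (ob (𝟙 _) Ω')).range = AddSubgroup.closure
          {n | ∃ (g : Ω' ≃ₐ[Localization.Away h] Ω') (m : sec G (ob (𝟙 _) Ω')),
            (∀ c, g (ι c) = ι c) ∧ n = E4.gal (𝟙 _) Ω' G.obj g m - m}

/-- Row R2: the top cohomology only sees that quotient. -/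
def R2_s : Prop :=
  ∀ (l : ℕ) [Fact l.Prime] {A : Type} [CommRing A] (L : PL (Spec (.of A))) {r : ℕ}
    (a : Fin (r + 1) → A) [IsOpenImmersion (L.u (hp a))] (a₁ : A), CS l a →
    (∀ i, IsUnit (a₁ - a i)) → ∀ G, Lcf l G →
      ∃ (K : Sh (Scheme.etaleTopology.over (Spec (.of (Localization.Away (hp a)))))) (W : Sh (Scheme.etaleTopology.over (Spec (.of A))))
        (i : K ⟶ G) (p : G ⟶ (PB (gu (hp a))).obj W), Mono i ∧ Ex i p ∧ Epi p ∧ Lcf l K ∧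
        Lcf l W ∧ Nul l (kernel ((Rc L (hp a) 2).map p))

/-- Row CM: the curve step. -/
def CM_s : Prop :=
  ∀ (l : ℕ) [Fact l.Prime] {A : Type} [CommRing A] (L : PL (Spec (.of A))) {r : ℕ}
    (a : Fin (r + 1) → A) [IsOpenImmersion (L.u (hp a))] (a₁ : A), CS l a →
    (∀ i, IsUnit (a₁ - a i)) → ∀ (w : ℕ) G, CW l w G → ∀ b, CW l (w + b) ((Rc L (hp a) b).obj G)

/-- Row CMS: the curve step with the boundary. -/
def CMS_s : Prop :=
  ∀ (l : ℕ) [Fact l.Prime] {A : Type} [CommRing A] (L : PL (Spec (.of A))) {r : ℕ}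
    (a : Fin (r + 1) → A) (a₁ : A), CS l a → (∀ i, IsUnit (a₁ - a i)) →
    ∀ (w : ℕ) (F : Sh (Scheme.etaleTopology.over L.P)), Tc l F → CW l w ((PB (L.u (hp a))).obj F) →
      (∀ i, CW l w ((PB (L.pnt (𝟙 _) (pt1 (a i)))).obj F)) →
      CW l w ((PB (L.pnt (𝟙 _) (pt2 (0 : A)))).obj F) → ∀ b, CW l (w + b) ((Rq L.π b).obj F)

/-! ### Good families and the devissage -/

/-- Row EVT. -/
structure EVT_s : Prop where
  mono : ∀ {A₀ Ω : Type} [CommRing A₀] [Field Ω] (ι : A₀ →+* Ω)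
    (P Q : ∀ (B : Type) [CommRing B], (A₀ →+* B) → Prop),
    (∀ (B : Type) [CommRing B] γ, P B γ → Q B γ) → Evt ι P → Evt ι Q
  all : ∀ {A₀ Ω : Type} [CommRing A₀] [Algebra.FiniteType ℤ A₀] [Field Ω] (ι : A₀ →+* Ω) {I : Type}
    [Finite I] (P : I → ∀ (B : Type) [CommRing B], (A₀ →+* B) → Prop),
    (∀ i, Evt ι (P i)) → Evt ι fun B _ γ => ∀ i, P i B γ
  and : ∀ {A₀ Ω : Type} [CommRing A₀] [Field Ω] (ι : A₀ →+* Ω)
    (P Q : ∀ (B : Type) [CommRing B], (A₀ →+* B) → Prop),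
    Evt ι P → Evt ι Q → Evt ι fun B _ γ => P B γ ∧ Q B γ
  trans : ∀ {A₀ A Ω : Type} [CommRing A₀] [CommRing A] [Field Ω] (α : A₀ →+* A) (ι : A →+* Ω)
    (P : ∀ (B : Type) [CommRing B], (A₀ →+* B) → Prop),
    (Evt ι fun B _ γ => P B (γ.comp α)) → Evt (ι.comp α) P
  nice : ∀ {A₀ Ω : Type} [CommRing A₀] [Field Ω] [CharZero Ω] (ι : A₀ →+* Ω) (LL : Set ℕ)
    (P Q : ∀ (l : ℕ) [Fact l.Prime] (B : Type) [CommRing B], (A₀ →+* B) → Prop),
    (∀ (l : ℕ) [Fact l.Prime] (B B' : Type) [CommRing B] [CommRing B'] γ (β : B →+* B'),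
      Q l B γ → Q l B' (β.comp γ)) →
    (∀ (l : ℕ) [Fact l.Prime] (B : Type) [CommRing B] γ, Nice B → IsUnit (l : B) → P l B γ →
      Q l B γ) →
    (Evt ι fun B _ γ => ∀ (l : ℕ) [Fact l.Prime], l ∈ LL → IsUnit (l : B) → P l B γ) →
    Evt ι fun B _ γ => ∀ (l : ℕ) [Fact l.Prime], l ∈ LL → IsUnit (l : B) → Q l B γ
  good : ∀ (LL : Set ℕ) (w : ℕ) {X : Scheme.{0}} (F : Fam X), Good LL w F ↔
    (∀ (l : ℕ) [Fact l.Prime], l ∈ LL → Tc l (F l)) ∧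
    ∀ (A₀ Ω : Type) [CommRing A₀] [Algebra.FiniteType ℤ A₀] [Field Ω] [IsAlgClosed Ω] [CharZero Ω]
      (ι : A₀ →+* Ω) (a : Spec (.of A₀) ⟶ X),
      Evt ι fun B _ γ => ∀ (l : ℕ) [Fact l.Prime], l ∈ LL → IsUnit (l : B) →
        CW l w ((PB (spc γ ≫ a)).obj (F l))

/-- The formal closure properties of a class of families. -/
structure Th0 (LL : Set ℕ) (P : ∀ X : Scheme.{0}, ℕ → Fam X → Prop) : Prop where
  tc : ∀ {X : Scheme.{0}} {w : ℕ} {F : Fam X}, P X w F →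
    ∀ (l : ℕ) [Fact l.Prime], l ∈ LL → Tc l (F l)
  mono : ∀ {X : Scheme.{0}} {w w' : ℕ} {F : Fam X}, w ≤ w' → P X w F → P X w' F
  pb : ∀ {X Y : Scheme.{0}} (g : Y ⟶ X) {w : ℕ} {F : Fam X}, P X w F →
    P Y w fun l _ => (PB g).obj (F l)
  five : ∀ {X : Scheme.{0}} {w w₁ w₅ : ℕ} (F₁ F₂ F₃ F₄ F₅ : Fam X),
    (∀ (l : ℕ) [Fact l.Prime], l ∈ LL → Ex5 (F₁ l) (F₂ l) (F₃ l) (F₄ l) (F₅ l)) →
    P X w₁ F₁ → P X w F₂ → P X w F₄ → P X w₅ F₅ → P X w F₃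
  zero : ∀ {X : Scheme.{0}} (w : ℕ) (F : Fam X),
    (∀ (l : ℕ) [Fact l.Prime], l ∈ LL → IsZero (F l)) → P X w F
  iso : ∀ {X : Scheme.{0}} {w : ℕ} {F G : Fam X},
    (∀ (l : ℕ) [Fact l.Prime], l ∈ LL → Is (F l) (G l)) → P X w F → P X w G
  loc : ∀ {X : Scheme.{0}} {w : ℕ} {F G : Fam X},
    (∀ (l : ℕ) [Fact l.Prime], l ∈ LL → LFP (G l).obj ∧ Tor l (G l).obj ∧
      ∀ (B : Type) [CommRing B] (b : Spec (.of B) ⟶ X), IsUnit (l : B) →
        Is ((PB b).obj (F l)) ((PB b).obj (G l))) → P X w F → P X w G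
  ez : ∀ {X : Scheme.{0}} (O : X.Opens) {w : ℕ} {F : Fam X}, P X w F →
    P X w fun l _ => (ez O).obj (F l)

/-- Finite push-forward. -/
def ThF (P : ∀ X : Scheme.{0}, ℕ → Fam X → Prop) : Prop :=
  ∀ {X Y : Scheme.{0}} (c : X ⟶ Y) [IsFinite c] {w : ℕ} {F : Fam X}, P X w F →
    P Y w fun l _ => (PF c).obj (F l)

/-- Push-forward along a projective line. -/
def ThP (P : ∀ X : Scheme.{0}, ℕ → Fam X → Prop) : Prop :=
  ∀ {Y : Scheme.{0}} (L : PL Y) {w : ℕ} {F : Fam L.P}, P L.P w F →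
    ∀ n, P Y (w + n) fun l _ => (Rq L.π n).obj (F l)

/-- All higher direct images along `p` keep the class. -/
def Psh (P : ∀ X : Scheme.{0}, ℕ → Fam X → Prop) {G S : Scheme.{0}} (p : G ⟶ S) : Prop :=
  ∀ (w : ℕ) (F : Fam G), P G w F → ∀ n, P S (w + n) fun l _ => (Rq p n).obj (F l)

/-- Row GC. -/
def GC_s : Prop := ∀ LL : Set ℕ, Th0 LL fun _ w F => Good LL w F

/-- Row FINP. -/
def FINP_s : Prop := ∀ LL : Set ℕ, ThF fun _ w F => Good LL w F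

/-- Row UP. -/
def UP_s : Prop := ∀ LL : Set ℕ, ThP fun _ w F => Good LL w F

/-- The class of families of `Tc` sheaves. -/
def TcF (LL : Set ℕ) (X : Scheme.{0}) (_ : ℕ) (F : Fam X) : Prop :=
  ∀ (l : ℕ) [Fact l.Prime], l ∈ LL → Tc l (F l)

/-- Row TCT. -/
def TCT_s : Prop := ∀ LL : Set ℕ, Th0 LL (TcF LL) ∧ ThF (TcF LL) ∧ ThP (TcF LL)

/-- Row LERS: the Leray filtration for sheaves. -/
structure LERS_s : Prop where
  fil : ∀ {X Y Z : Scheme.{0}} (p : X ⟶ Y) (f : Y ⟶ Z) (F : Sh (Scheme.etaleTopology.over X)),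
    ∃ D : ℕ → ℕ → Sh (Scheme.etaleTopology.over Z), (∀ a, Is (D 0 a) ((Rq f a).obj ((Rq p 0).obj F))) ∧
      (∀ n, Is (D n 0) ((Rq (p ≫ f) n).obj F)) ∧
      (∀ b (N : Sh (Scheme.etaleTopology.over Z)), IsZero N →
        Ex5 N (D b 1) (D (b + 1) 0) ((Rq f 0).obj ((Rq p (b + 1)).obj F)) (D b 2)) ∧
      ∀ b a, Ex5 ((Rq f a).obj ((Rq p (b + 1)).obj F)) (D b (a + 2)) (D (b + 1) (a + 1))
        ((Rq f (a + 1)).obj ((Rq p (b + 1)).obj F)) (D b (a + 3))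
  deg : ∀ {X Y Z : Scheme.{0}} (p : X ⟶ Y) (f : Y ⟶ Z) (F : Sh (Scheme.etaleTopology.over X)),
    (∀ q, IsZero ((Rq p (q + 1)).obj F)) →
    ∀ n, Is ((Rq f n).obj ((PF p).obj F)) ((Rq (p ≫ f) n).obj F)

/-- Row PUSH. -/
def PUSH_s : Prop :=
  ∀ (LL : Set ℕ) (P : ∀ X : Scheme.{0}, ℕ → Fam X → Prop), Th0 LL P → ThF P → ThP P →
    ∀ {G S : Scheme.{0}} (p : G ⟶ S), FT p → Psh P p

/-- Row CMP: comparison along a modification. -/
def CMP_s : Prop :=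
  ∀ (l : ℕ) {G X S : Scheme.{0}} (p : G ⟶ X) (f : X ⟶ S) (W : Set X) (F : Sh (Scheme.etaleTopology.over X)),
    (∀ (k : Type) [Field k] (x : Spec (.of k) ⟶ X), (∀ t, x t ∈ W) → IsIso (pullback.fst x p)) →
    Tc l F → Van l W F → (∀ n, Tc l ((Rq p n).obj ((PB p).obj F))) →
    ∀ (n : ℕ) (S' : Scheme.{0}) (b : S' ⟶ S), Linv l S' →
      Is ((PB b).obj ((Rq (p ≫ f) n).obj ((PB p).obj F))) ((PB b).obj ((Rq f n).obj F))

/-- Row GXA: the noetherian induction. -/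
def GXA_s : Prop :=
  ∀ (LL : Set ℕ) (P : ∀ X : Scheme.{0}, ℕ → Fam X → Prop), Th0 LL P → ThF P → ThP P →
    ∀ (R : Type) [CommRing R] [IsNoetherianRing R] (X₀ X T : Scheme.{0}) (f₀ : X₀ ⟶ Spec (.of R))
      [IsProper f₀] (f : X ⟶ T) (a : X ⟶ X₀) (b : T ⟶ Spec (.of R)), IsPullback a f f₀ b → Psh P f

/-- The fibres of `p` have cohomological dimension less than `N`. -/
def CD {G S : Scheme.{0}} (p : G ⟶ S) (N : ℕ) : Prop :=
  ∀ {G' S' : Scheme.{0}} {p' : G' ⟶ S'} {a : S' ⟶ S} {b : G' ⟶ G}, IsPullback b p' p a →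
    ∀ (l : ℕ) [Fact l.Prime], Linv l S' → ∀ F : Sh (Scheme.etaleTopology.over G'), Tc l F → ∀ q, N ≤ q →
      IsZero ((Rq p' q).obj F)

/-- Row CDT. -/
def CDT_s : Prop := ∀ {G S : Scheme.{0}} (p : G ⟶ S), FT p → ∃ N, CD p N

theorem pbcx (h1 : GXA_s) (h2 : TCT_s) : PBCX_s := by
  intro l _ R _ _ X₀ X T f₀ _ f a b h F q hF
  obtain ⟨t0, t1, t2⟩ := h2 {l}
  exact h1 {l} _ t0 t1 t2 R X₀ X T f₀ f a b h 0 (fun _ _ => F)
    (fun l' _ hl => by obtain rfl : l' = l := hl; exact hF) q l rfl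

theorem gx (h1 : GXA_s) (h2 : GC_s) (h3 : FINP_s) (h4 : UP_s) : GX_s := by
  intro LL R _ _ X f _ w n F hF
  have : IsNoetherianRing R := Algebra.FiniteType.isNoetherianRing ℤ R
  exact h1 LL _ (h2 LL) (h3 LL) (h4 LL) R X X _ f f (𝟙 _) (𝟙 _) (IsPullback.of_horiz_isIso ⟨by simp⟩)
    w F hF n

end Pool.Agent.MP_855f4c_ag.E.U

end

section

set_option autoImplicit false
set_option backward.isDefEq.respectTransparency false

open CategoryTheory Limits Abelian Opposite AlgebraicGeometry Polynomial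

namespace Pool.Agent.MP_855f4c_ag.E.U

open E3 E4 Function USq

theorem CM.sec {A : Type} [CommRing A] {r : ℕ} (a : Fin r → A) (a₁ : A)
    (h : ∀ i, IsUnit (a₁ - a i)) :
    ∃ s : Spec (.of A) ⟶ Spec (.of (Localization.Away (hp a))), s ≫ gu (hp a) = 𝟙 _ := by
  have hu : IsUnit (evalRingHom a₁ (hp a)) := by
    rw [hp, map_prod]
    exact IsUnit.prod_univ_iff.2 fun i => by simpa using h i
  refine ⟨spc (IsLocalization.Away.lift (hp a) hu), ?_⟩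
  rw [← Spec.map_comp, ← CommRingCat.ofHom_comp, ← RingHom.comp_assoc,
    IsLocalization.Away.lift_comp, ← Spec.map_id]
  congr 2
  ext x; simp

theorem CM.ker {𝒜 : Type*} [Category* 𝒜] [Abelian 𝒜] {X Y : 𝒜} (f : X ⟶ Y) :
    Ex (kernel.ι f) f := ⟨kernel.condition f, ShortComplex.exact_kernel f⟩

theorem CM.map {X Y : Scheme.{0}} {T : Sh (Scheme.etaleTopology.over X) ⥤ Sh (Scheme.etaleTopology.over Y)} (hT : Exa T) {F G K : Sh (Scheme.etaleTopology.over X)}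
    {i : F ⟶ G} {p : G ⟶ K} (hi : Mono i) (h : Ex i p) (hp : Epi p) :
    Mono (T.map i) ∧ Ex (T.map i) (T.map p) ∧ Epi (T.map p) := by
  obtain ⟨_, _, _⟩ := hT
  exact ⟨inferInstance, ⟨_, h.2.map T⟩, inferInstance⟩

theorem cm (SQ : SQ_s.{1, 2}) (GE : GE_s) (JS : JSH_s) (RC : RCL_s) (TI : TWI_s) (TC : TWC_s)
    (R2 : R2_s) (NR : NRQ_s) : CM_s := by
  intro l _ A _ L r a _ a₁ cs hu w
  obtain ⟨s, hs⟩ := CM.sec a a₁ hu
  obtain ⟨rc, rt, rw1⟩ := RC l L a cs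
  have hm : IsUnit (hp a).leadingCoeff := by
    have : (hp a).Monic := monic_prod_of_monic _ _ fun i _ => monic_X_sub_C (a i)
    rw [this.leadingCoeff]
    exact isUnit_one
  have iso (W : Sh (Scheme.etaleTopology.over (Spec (.of A)))) : Is ((PB s).obj ((PB (gu (hp a))).obj W)) W := by
    obtain ⟨e⟩ := pb_comp s (gu (hp a)) W
    rw [hs] at e
    exact ⟨e ≪≫ (pb_id W).some⟩
  have top (G) (hG : Lcf l G) : (Cl l G → Cl l ((Rc L (hp a) 2).obj G)) ∧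
      (Wt l w G → Wt l (w + 2) ((Rc L (hp a) 2).obj G)) ∧ ∃ K, Lcf l K ∧
      ∀ (k : Type) [Field k] [IsAlgClosed k] (t : Spec (.of k) ⟶ Spec (.of A)) (Q : ℕ)
        (ψ : k →+* k) (e : Fr l t Q ψ), trF ((Rc L (hp a) 2).obj G) e +
          Q * trF ((PB s).obj K) e = Q * trF ((PB s).obj G) e := by
    obtain ⟨K, W, i, p, hi, hx, hp', hK, hW, hN⟩ := R2 l L a a₁ cs hu G hG
    obtain ⟨-, δ, h1, -⟩ := JS.les L _ i p hi hx hp' 2
    have e2 := epi_of_zero h1 ((rc K hK).2.2 0)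
    obtain ⟨m1, m2, m3⟩ := CM.map (NR.exa s) hi hx hp'
    obtain ⟨e⟩ := iso W
    have hq : Epi ((PB s).map p ≫ e.hom) := epi_comp _ _
    have hsG := GE.lcfPb l s G hG
    obtain ⟨-, hc, h0⟩ := GE.nul l (w + 2) _ hN
    refine ⟨fun h => GE.clMid l _ _ (CM.ker _) hc.1
      ((TC l L a cs W).1 (GE.clQuo l _ hq (GE.clPb l s G h) hW)) ((rc G hG).1 2),
      fun h => GE.wtMid l _ _ _ (CM.ker _) hN.1.2.2 hc.2
        ((TC l L a cs W).2 w hW (GE.wtQuo l w _ hq hsG.2.2 (GE.wtPb l w s G h))),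
      K, hK, fun k _ _ t Q ψ f => ?_⟩
    rw [(GE.add l _ _ inferInstance (CM.ker _) e2 ((rc G hG).1 2).2.2 k t).2 Q ψ f, h0,
      ((TI l L _ W hm hW k t f.ne).2 Q ψ f).1, (GE.add l _ _ m1 m2 m3 hsG.2.2 k t).2 Q ψ f,
      (GE.trIso l ⟨e⟩ k t).2 Q ψ f]
    ring
  have one (G) (hG : RatS l G) : Cl l ((Rc L (hp a) 1).obj G) := by
    obtain ⟨-, -, K, hK, h⟩ := top G hG.1
    have h1 := (rc G hG.1).1 1
    have hsK := GE.lcfPb l s K hK
    have h2 := (SQ _ _ (GE.thick l _)).2.1 _ _ h1 ((rc _ (GE.lcfPb l (gu (hp a)) _ hsK)).1 2)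
    refine GE.clSub l biprod.inl inferInstance (.rat ⟨h2, fun k _ _ t Q ψ f => ?_⟩) h1
    obtain ⟨c, hc⟩ := rt G hG k t Q ψ f
    obtain ⟨d, hd⟩ := GE.ratPb l s G hG.2 k t Q ψ f
    refine ⟨Q * d - c, ((GE.add l biprod.inl biprod.snd inferInstance
      ⟨_, (ShortComplex.Splitting.ofHasBinaryBiproduct _ _).exact⟩ inferInstance h2.2.2 k t).2
        Q ψ f).trans ?_⟩
    rw [((TI l L _ _ hm hsK k t f.ne).2 Q ψ f).1]
    push_cast
    rw [← hc, ← hd]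
    linear_combination h k t Q ψ f
  have zero (v) (F : Sh (Scheme.etaleTopology.over (Spec (.of A)))) (h : IsZero F) : CW l v F :=
    (GE.nul l v F (GE.zero l F h)).2.1
  intro G hG
  refine (SQ _ _ (GE.thick l _)).2.2 (RatS l) (Wt l w)
    (fun G => ∀ b, CW l (w + b) ((Rc L (hp a) b).obj G)) (fun _ h => h.1)
    (fun f hf _ _ h => GE.wtSub l w f hf h) (fun f hf h _ h' => GE.wtQuo l w f hf h.2.2 h')
    (fun {S Y Y'} i p hi hp' hY' hS hY hw b => ?_) (fun S hS h1 h2 _ p1 p3 b => ?_) G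
    ((GE.clG l G).1 hG.1) hG.2
  · have cS := GE.clSub l i hi (.rat hY') hS
    match b with
    | 0 => exact zero _ _ (rc Y hY).2.1
    | 1 =>
      refine ⟨?_, rw1 w Y S Y' i p hi hp' hY' hS hY hw⟩
      obtain ⟨-, δ, -, h1⟩ := JS.les L _ i _ hi (ex_coker i) inferInstance 0
      obtain ⟨-, δ', h2, -⟩ := JS.les L _ _ p inferInstance (CM.ker p) hp' 1
      have hk := (GE.thick l _).ker p hS hY
      exact GE.clMid l _ _ h2 (GE.clSub l _
        (mono_of_zero h1 (rc _ ((GE.thick l _).coker i hS hY'.1)).2.1) (one Y' hY')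
        ((rc S hS).1 1)) ((top _ hk).1 (GE.clSub l (kernel.ι p) inferInstance cS hk))
        ((rc Y hY).1 1)
    | 2 => exact ⟨(top Y hY).1 (GE.clQuo l p hp' cS hY), (top Y hY).2.1 hw⟩
    | b + 3 => exact zero _ _ ((rc Y hY).2.2 b)
  · have h := (JS.les L _ S.f S.g hS.mono_f ⟨S.zero, hS.exact⟩ hS.epi_g b).1
    exact ⟨GE.clMid l _ _ h (p1 b).1 (p3 b).1 ((rc _ h2).1 b),
      GE.wtMid l _ _ _ h ((rc _ h1).1 b).2.2 (p1 b).2 (p3 b).2⟩

end Pool.Agent.MP_855f4c_ag.E.U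

end

section

set_option autoImplicit false
set_option backward.isDefEq.respectTransparency false

open CategoryTheory Limits Abelian Opposite AlgebraicGeometry ZeroObject

namespace Pool.Agent.MP_855f4c_ag.E.U

open Function

lemma push_iso {𝒜 : Type 2} [Category.{1} 𝒜] [Abelian 𝒜] {X₁ X₂ X₃ X₄ X₅ : 𝒜}
    (h : Ex5 X₁ X₂ X₃ X₄ X₅) (h1 : IsZero X₁) (h4 : IsZero X₄) : Is X₂ X₃ := by
  obtain ⟨a, b, c, d, e1, e2, -⟩ := h
  have := USq.mono_of_zero e1 h1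
  have := USq.epi_of_zero e2 h4
  have := isIso_of_mono_of_epi b
  exact ⟨asIso b⟩

lemma push_deg {𝒞 : Type 2} [Category.{1} 𝒞] [Abelian 𝒞] (D E : ℕ → ℕ → 𝒞)
    (hE : ∀ a b, IsZero (E a b))
    (h1 : ∀ b (N : 𝒞), IsZero N → Ex5 N (D b 1) (D (b + 1) 0) (E 0 b) (D b 2))
    (h2 : ∀ b a, Ex5 (E a b) (D b (a + 2)) (D (b + 1) (a + 1)) (E (a + 1) b) (D b (a + 3)))
    (b a : ℕ) : Is (D 0 (a + b)) (D b a) := by
  induction b generalizing a with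
  | zero => exact ⟨Iso.refl _⟩
  | succ b ih =>
    obtain ⟨e⟩ := ih (a + 1)
    rw [show a + (b + 1) = a + 1 + b by omega]
    obtain _ | a := a
    · exact (push_iso (h1 b 0 (isZero_zero _)) (isZero_zero _) (hE _ _)).map e.trans
    · exact (push_iso (h2 b a) (hE _ _) (hE _ _)).map e.trans

theorem lers (h1 : NRQ_s) (h2 : LERA_s.{1, 2}) : LERS_s := by
  have fil {X Y Z : Scheme.{0}} (p : X ⟶ Y) (f : Y ⟶ Z) (F : Sh (Scheme.etaleTopology.over X)) :=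
    h2 _ _ _ (Rq p) (Rq f) (Rq (p ≫ f)) (h1.df p) (h1.df f) (h1.df _)
      (by
        obtain ⟨a⟩ := h1.zero p
        obtain ⟨b⟩ := h1.zero f
        obtain ⟨c⟩ := h1.zero (p ≫ f)
        obtain ⟨d⟩ := h1.comp p f
        exact ⟨Functor.isoWhiskerRight a _ ≪≫ Functor.isoWhiskerLeft _ b ≪≫ d ≪≫ c.symm⟩)
      (fun I hI => by
        obtain ⟨a⟩ := h1.zero p
        exact Injective.of_iso (a.app I).symm (h1.inj p I hI)) F
  refine ⟨fil, fun p f F h n => ?_⟩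
  obtain ⟨D, d0, d1, d2, d3⟩ := fil p f F
  obtain ⟨a⟩ := h1.zero p
  obtain ⟨b⟩ := d0 n
  obtain ⟨c⟩ := d1 n
  obtain ⟨d⟩ := push_deg D (fun a b => (Rq f a).obj ((Rq p (b + 1)).obj F))
    (fun a b => have := (h1.df f).add a; (Rq f a).map_isZero (h b)) d2 d3 n 0
  rw [zero_add] at d
  exact ⟨(Rq f n).mapIso (a.app F).symm ≪≫ b.symm ≪≫ d ≪≫ c⟩

variable {LL : Set ℕ} {P : ∀ X : Scheme.{0}, ℕ → Fam X → Prop}

lemma push_fin (h1 : NRQ_s) (t : Th0 LL P) (tf : ThF P) {X Y : Scheme.{0}} (c : X ⟶ Y)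
    [IsFinite c] : Psh P c := by
  rintro w F hF (_ | n)
  · exact t.iso (fun l _ _ => (h1.zero c).map fun e => (e.app _).symm) (tf c hF)
  · exact t.zero _ _ fun l _ _ => h1.int c inferInstance _ n

lemma push_comp (h2 : LERS_s) (t : Th0 LL P) {X Y Z : Scheme.{0}} {p : X ⟶ Y} {f : Y ⟶ Z}
    (hp : Psh P p) (hf : Psh P f) : Psh P (p ≫ f) := by
  intro w F hF n
  choose D d0 d1 d2 d3 using fun (l : ℕ) (_ : Fact l.Prime) => h2.fil p f (F l)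
  have key (b a : ℕ) : P Z (w + (a + b)) fun l i => D l i b a := by
    induction b generalizing a with
    | zero => exact t.iso (fun l _ _ => (d0 l _ a).map Iso.symm) (hf _ _ (hp w F hF 0) a)
    | succ b ih =>
      obtain _ | a := a
      · exact t.five (fun _ _ => 0) _ _ _ _ (fun l _ _ => d2 l _ b 0 (isZero_zero _))
          (t.zero 0 _ fun _ _ _ => isZero_zero _) (t.mono (by omega) (ih 1))
          (t.mono (by omega) (hf _ _ (hp w F hF (b + 1)) 0)) (ih 2)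
      · exact t.five _ _ _ _ _ (fun l _ _ => d3 l _ b a) (hf _ _ (hp w F hF (b + 1)) a)
          (t.mono (by omega) (ih (a + 2)))
          (t.mono (by omega) (hf _ _ (hp w F hF (b + 1)) (a + 1))) (ih (a + 3))
  exact t.iso (fun l _ _ => d1 l _ n) (t.mono (by omega) (key n 0))

theorem push (h1 : NRQ_s) (h2 : LERS_s) : PUSH_s := by
  rintro LL P t tf tp G S _ ⟨Y, c, g, hc, hg, rfl⟩
  refine push_comp h2 t (push_fin h1 t tf c) ?_
  clear hc c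
  induction hg with
  | iso g _ => exact push_fin h1 t tf g
  | step L g _ ih => exact push_comp h2 t (fun _ _ hF n => tp L hF n) ih

end Pool.Agent.MP_855f4c_ag.E.U

end

section

set_option autoImplicit false
set_option backward.isDefEq.respectTransparency false

open CategoryTheory Limits Abelian Opposite AlgebraicGeometry Polynomial

namespace Pool.Agent.MP_855f4c_ag.E.U

open E3 E4 Function USq

theorem twc_ker {𝒜 : Type*} [Category* 𝒜] [Abelian 𝒜] {X Y : 𝒜} (f : X ⟶ Y) :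
    Ex (kernel.ι f) f := ⟨kernel.condition f, ShortComplex.exact_kernel f⟩

theorem twc_epi {𝒜 : Type*} [Category* 𝒜] [Abelian 𝒜] {X Y Z : 𝒜} {f : X ⟶ Y} {g : Y ⟶ Z}
    (h : Ex f g) : ∃ j : X ⟶ kernel g, Epi j :=
  ⟨_, (ShortComplex.exact_iff_epi_kernel_lift _).1 h.2⟩

theorem twc (RC : RCL_s) (TI : TWI_s) (JS : JSH_s) (GE : GE_s) (NR : NRQ_s) : TWC_s := by
  intro l _ A _ L r a _ cs W
  have rc := (RC l L a cs).1
  have hm : IsUnit (hp a).leadingCoeff := by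
    have : (hp a).Monic := monic_prod_of_monic _ _ fun i _ => monic_X_sub_C (a i)
    rw [this.leadingCoeff]
    exact isUnit_one
  refine ⟨fun hW => ?_, fun w hW hw k _ _ x Q ψ h j => ?_⟩
  swap
  · have := ((TI l L _ W hm hW k x h.ne).2 Q ψ h).2 j _ (hw k x Q ψ h j)
    rwa [← pow_add, add_comm 2 w] at this
  have th := GE.thick l (Spec (.of A))
  have lc (F) (hF : Lcf l F) := (rc _ (GE.lcfPb l (gu (hp a)) F hF)).1 2
  have ex {F G K : Sh (Scheme.etaleTopology.over (Spec (.of A)))} (i : F ⟶ G) (p : G ⟶ K) (hi : Mono i) (h : Ex i p)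
      (hp' : Epi p) (hF : Lcf l F) :
      Ex ((Rc L (hp a) 2).map ((PB (gu (hp a))).map i))
        ((Rc L (hp a) 2).map ((PB (gu (hp a))).map p)) ∧
      Epi ((Rc L (hp a) 2).map ((PB (gu (hp a))).map p)) := by
    obtain ⟨_, _, _⟩ := NR.exa (gu (hp a))
    obtain ⟨h1, δ, h2, -⟩ := JS.les L _ ((PB (gu (hp a))).map i) ((PB (gu (hp a))).map p)
      inferInstance ⟨_, h.2.map (PB (gu (hp a)))⟩ inferInstance 2
    exact ⟨h1, epi_of_zero h2 ((rc _ (GE.lcfPb l _ F hF)).2.2 0)⟩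
  refine (sq.{1, 2} _ _ th).2.2 (RatS l) (fun _ => True)
    (fun F => Cl l ((Rc L (hp a) 2).obj ((PB (gu (hp a))).obj F))) (fun _ h => h.1)
    (fun _ _ _ _ _ => trivial) (fun _ _ _ _ _ => trivial)
    (fun {S Y Y'} i p hi hp' hY' hS hY _ => ?_) (fun S hS h1 h2 _ p1 p3 => ?_) W
    ((GE.clG l W).1 hW) trivial
  · refine GE.clQuo l _ (ex _ p inferInstance (twc_ker p) hp' (th.ker p hS hY)).2 ?_ (lc Y hY)
    have hC := th.coker i hS hY'.1
    obtain ⟨e1, e2⟩ := ex i _ hi (ex_coker i) inferInstance hS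
    obtain ⟨j, hj⟩ := twc_epi e1
    have hI := th.ker ((Rc L (hp a) 2).map ((PB (gu (hp a))).map (cokernel.π i))) (lc _ hY'.1)
      (lc _ hC)
    have c' : Cl l ((Rc L (hp a) 2).obj ((PB (gu (hp a))).obj Y')) :=
      .rat ⟨lc _ hY'.1, fun k _ _ x Q ψ h => by
        obtain ⟨c, hc⟩ := hY'.2 k x Q ψ h
        exact ⟨Q * c, ((TI l L _ Y' hm hY'.1 k x h.ne).2 Q ψ h).1.trans
          ((congrArg ((Q : ℚ_[l]) * ·) hc).trans (by push_cast; rfl))⟩⟩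
    refine GE.clMid l _ j (twc_ker j)
      (GE.nul l 0 _ ⟨th.ker j (lc S hS) hI, fun k _ _ x hl => ?_⟩).2.1.1
      (GE.clSub l (kernel.ι _) inferInstance c' hI) (lc S hS)
    have a1 := (GE.add l _ j inferInstance (twc_ker j) hj (lc S hS).2.2 k x).1 hl
    have a2 := (GE.add l _ _ inferInstance (twc_ker _) e2 (lc _ hY'.1).2.2 k x).1 hl
    have a3 := (GE.add l i _ hi (ex_coker i) inferInstance hY'.1.2.2 k x).1 hl
    have b1 := (TI l L _ S hm hS k x hl).1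
    have b2 := (TI l L _ Y' hm hY'.1 k x hl).1
    have b3 := (TI l L _ _ hm hC k x hl).1
    omega
  · exact GE.clMid l _ _ (ex S.f S.g hS.mono_f ⟨S.zero, hS.exact⟩ hS.epi_g h1).1 p1 p3 (lc _ h2)

end Pool.Agent.MP_855f4c_ag.E.U

end
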