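import Pool.Agent.MP_855f4c_ag.EC.Ua
import Pool.Agent.MP_855f4c_ag.EC.Uc
import Pool.Agent.MP_855f4c_ag.EC.Xa
import Pool.Agent.MP_855f4c_ag.EC.F2e
import Pool.Agent.MP_855f4c_ag.EC.F2c
import Pool.Agent.MP_855f4c_ag.EC.F2b
import Pool.Agent.MP_855f4c_ag.EC.Pa
import Pool.Agent.MP_855f4c_ag.EC.E4a

section

set_option autoImplicit false

open CategoryTheory Limits AlgebraicGeometry TopologicalSpace

namespace Pool.Agent.MP_855f4c_ag.E.U

/-- The image of a quasi-compact morphism with reduced source is reduced. -/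
lemma chow_isReduced_image {X Y : Scheme.{0}} (f : X ⟶ Y) [QuasiCompact f] [IsReduced X] :
    IsReduced f.image := by
  have (x : f.image) : _root_.IsReduced (f.image.presheaf.stalk x) := by
    obtain ⟨_, ⟨U, hU, rfl⟩, hx, -⟩ :=
      Y.isBasis_affineOpens.exists_subset_of_mem_open (Set.mem_univ (f.imageι x)) isOpen_univ
    have hW : IsAffineOpen (f.imageι ⁻¹ᵁ U) := hU.preimage _
    have : _root_.IsReduced Γ(f.image, f.imageι ⁻¹ᵁ U) :=
      isReduced_of_injective _ (f.toImage_app_injective ⟨U, hU⟩)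
    obtain ⟨y, rfl⟩ : x ∈ Set.range hW.fromSpec := by
      rw [hW.range_fromSpec]; exact hx
    exact isReduced_of_injective _
      (asIso <| hW.fromSpec.stalkMap y).commRingCatIsoToRingEquiv.injective
  exact isReduced_of_isReduced_stalk _

/-- A generic point of a closed set, with an open set that meets only its closure. -/
lemma chow_gen {X : Type} [TopologicalSpace X] [NoetherianSpace X] [QuasiSober X] (Z : Set X)
    (hZ : IsClosed Z) (hne : Z.Nonempty) :
    ∃ (η : X) (O : Set X), IsOpen O ∧ η ∈ O ∧ closure {η} ⊆ Z ∧ O ∩ Z ⊆ closure {η} := by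
  obtain ⟨S, hSf, hSc, hSi, hS⟩ := NoetherianSpace.exists_finite_set_isClosed_irreducible hZ
  have hSne : S.Nonempty := by
    obtain ⟨x, hx⟩ := hne
    rw [hS] at hx
    obtain ⟨t, ht, -⟩ := hx
    exact ⟨t, ht⟩
  obtain ⟨Z1, hZ1⟩ := hSf.exists_maximal hSne
  have hη : closure {(hSi Z1 hZ1.1).genericPoint} = Z1 := by
    have := (hSi Z1 hZ1.1).isGenericPoint_genericPoint (hSc Z1 hZ1.1)
    exact this
  set η := (hSi Z1 hZ1.1).genericPoint
  refine ⟨η, (⋃₀ {t ∈ S | η ∉ t})ᶜ, ?_, ?_, ?_, ?_⟩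
  · rw [isOpen_compl_iff]
    rw [Set.sUnion_eq_biUnion]
    exact Set.Finite.isClosed_biUnion (hSf.subset (Set.sep_subset _ _)) fun t ht => hSc t ht.1
  · rintro ⟨t, ht, h⟩
    exact ht.2 h
  · rw [hη, hS]
    exact Set.subset_sUnion_of_mem hZ1.1
  · rintro x ⟨hx, hxZ⟩
    rw [hS] at hxZ
    obtain ⟨t, ht, hxt⟩ := hxZ
    have hηt : η ∈ t := by
      by_contra h
      exact hx ⟨t, ⟨ht, h⟩, hxt⟩
    have h1 : Z1 ⊆ t := by
      rw [← hη]
      exact (hSc t ht).closure_subset_iff.mpr (Set.singleton_subset_iff.mpr hηt)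
    rw [hη]
    exact hZ1.2 ht h1 hxt

/-- Finite fibre products of towers. -/
lemma chow_prod (h1 : TW_s) {S : Scheme.{0}} (n : ℕ) :
    ∀ (P : Fin n → Scheme.{0}) (g : ∀ i, P i ⟶ S), (∀ i, Tw (g i)) →
      ∃ (Q : Scheme.{0}) (k : Q ⟶ S) (pr : ∀ i, Q ⟶ P i), Tw k ∧ (∀ i, pr i ≫ g i = k) ∧
        (∀ (T : Scheme.{0}) (a : T ⟶ S) (b : ∀ i, T ⟶ P i), (∀ i, b i ≫ g i = a) →
          ∃ l : T ⟶ Q, l ≫ k = a ∧ ∀ i, l ≫ pr i = b i) ∧
        ∀ (T : Scheme.{0}) (u v : T ⟶ Q), u ≫ k = v ≫ k → (∀ i, u ≫ pr i = v ≫ pr i) →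
          u = v := by
  induction n with
  | zero =>
    intro P g _
    refine ⟨S, 𝟙 S, fun i => i.elim0, Tw.iso _ inferInstance, fun i => i.elim0, ?_, ?_⟩
    · intro T a b _
      exact ⟨a, by simp, fun i => i.elim0⟩
    · intro T u v h _
      simpa using h
  | succ n ih =>
    intro P g hg
    obtain ⟨Q, k, pr, hk, hpr, hl, hext⟩ :=
      ih (fun i => P i.succ) (fun i => g i.succ) (fun i => hg i.succ)
    refine ⟨pullback (g 0) k, pullback.snd (g 0) k ≫ k,
      fun i => Fin.cases (pullback.fst (g 0) k) (fun j => pullback.snd (g 0) k ≫ pr j) i,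
      h1.2.2.1 _ _ (h1.2.1 (IsPullback.of_hasPullback (g 0) k) (hg 0)) hk, ?_, ?_, ?_⟩
    · intro i
      refine Fin.cases ?_ (fun j => ?_) i
      · simpa using pullback.condition
      · simp [hpr j]
    · intro T a b hb
      obtain ⟨l, hl1, hl2⟩ := hl T a (fun i => b i.succ) (fun i => hb i.succ)
      refine ⟨pullback.lift (b 0) l (by rw [hb 0, hl1]),
        by rw [pullback.lift_snd_assoc, hl1], fun i => ?_⟩
      refine Fin.cases ?_ (fun j => ?_) i
      · simp [pullback.lift_fst]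
      · simp [pullback.lift_snd_assoc, hl2 j]
    · intro T u v h hp
      apply pullback.hom_ext
      · simpa using hp 0
      · apply hext
        · simpa using h
        · intro j
          simpa using hp j.succ

/-- Two maps that agree at a dense point agree over the chart. -/
lemma chow_F {S X G A P K : Scheme.{0}} (f : X ⟶ S) (g : P ⟶ S) [IsSeparated g] (j : A ⟶ X)
    [IsOpenImmersion j] (e : A ⟶ P) (he : e ≫ g = j ≫ f) [IsReduced G] (p : G ⟶ X) (r : G ⟶ P)
    (hr : r ≫ g = p ≫ f) (s : K ⟶ G) [IsDominant s] (ξ : K ⟶ A) (h1 : ξ ≫ j = s ≫ p)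
    (h2 : ξ ≫ e = s ≫ r) {T : Scheme.{0}} (a : T ⟶ G) (u : T ⟶ A) (h : u ≫ j = a ≫ p) :
    a ≫ r = u ≫ e := by
  have : IsReduced (pullback p j) := isReduced_of_isOpenImmersion (pullback.fst p j)
  have hd : IsDominant (pullback.lift s ξ h1.symm ≫ pullback.fst p j) := by
    rw [pullback.lift_fst]; infer_instance
  have : IsDominant (pullback.lift s ξ h1.symm) :=
    IsDominant.of_comp_of_isOpenImmersion _ (pullback.fst p j)
  have key : pullback.fst p j ≫ r = pullback.snd p j ≫ e := by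
    refine ext_of_isDominant_of_isSeparated g ?_ (pullback.lift s ξ h1.symm) ?_
    · rw [Category.assoc, Category.assoc, hr, he, pullback.condition_assoc]
    · rw [pullback.lift_fst_assoc, pullback.lift_snd_assoc, h2]
  have := congrArg (fun z => pullback.lift a u h.symm ≫ z) key
  simpa [pullback.lift_fst_assoc, pullback.lift_snd_assoc] using this

/-- Points whose image lies in the open part come from the chart. -/
lemma chow_G {S X G A P V K : Scheme.{0}} (f : X ⟶ S) [IsSeparated f] (g : P ⟶ S) (j : A ⟶ X)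
    (v : V ⟶ P) [IsOpenImmersion v] (e : A ⟶ V) [IsClosedImmersion e]
    (he : e ≫ v ≫ g = j ≫ f) (p : G ⟶ X) (r : G ⟶ P) (hr : r ≫ g = p ≫ f) (s : K ⟶ G)
    [IsDominant s] (ξ : K ⟶ A) (h1 : ξ ≫ j = s ≫ p) (h2 : ξ ≫ e ≫ v = s ≫ r) (y : G)
    (hy : r y ∈ Set.range v) : p y ∈ Set.range j := by
  let δ : A ⟶ pullback f (v ≫ g) := pullback.lift j e he.symm
  have hδ : IsClosedImmersion (δ ≫ pullback.snd f (v ≫ g)) := by
    rw [pullback.lift_snd]; infer_instance
  have : IsClosedImmersion δ := IsClosedImmersion.of_comp δ (pullback.snd f (v ≫ g))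
  let m : pullback r v ⟶ pullback f (v ≫ g) :=
    pullback.lift (pullback.fst r v ≫ p) (pullback.snd r v) (by
      rw [Category.assoc, ← hr, pullback.condition_assoc])
  let s' : K ⟶ pullback r v := pullback.lift s (ξ ≫ e) (by rw [Category.assoc, h2])
  have hd : IsDominant (s' ≫ pullback.fst r v) := by
    rw [pullback.lift_fst]; infer_instance
  have : IsDominant s' := IsDominant.of_comp_of_isOpenImmersion _ (pullback.fst r v)
  have hsm : s' ≫ m = ξ ≫ δ := by
    apply pullback.hom_ext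
    · simp [s', m, δ, h1, pullback.lift_fst, pullback.lift_fst_assoc]
    · simp [s', m, δ, pullback.lift_snd]
  have hc : IsClosed (m ⁻¹' Set.range δ) :=
    δ.isClosedEmbedding.isClosed_range.preimage m.continuous
  have hall : ∀ z, z ∈ m ⁻¹' Set.range δ := by
    have hsub : Set.range s' ⊆ m ⁻¹' Set.range δ := by
      rintro _ ⟨t, rfl⟩
      exact ⟨ξ t, by rw [← Scheme.Hom.comp_apply, ← hsm, Scheme.Hom.comp_apply]⟩
    intro z
    exact hc.closure_subset_iff.mpr hsub (s'.denseRange z)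
  obtain ⟨z, rfl⟩ : y ∈ Set.range (pullback.fst r v) := by
    rw [Scheme.Pullback.range_fst]; exact hy
  obtain ⟨w, hw⟩ := hall z
  refine ⟨w, ?_⟩
  have h3 := congrArg (pullback.fst f (v ≫ g)) hw
  rw [← Scheme.Hom.comp_apply, ← Scheme.Hom.comp_apply, pullback.lift_fst, pullback.lift_fst,
    Scheme.Hom.comp_apply] at h3
  exact h3

/-- The abstract form of the lemma of Chow. -/
lemma chow_main (h1 : TW_s) {S X K : Scheme.{0}} (f : X ⟶ S) [IsProper f] [IsReduced K]
    (ξ : K ⟶ X) [QuasiCompact ξ] (n : ℕ) (A P V : Fin n → Scheme.{0}) (j : ∀ i, A i ⟶ X)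
    [∀ i, IsOpenImmersion (j i)] (g : ∀ i, P i ⟶ S) (hg : ∀ i, Tw (g i)) (v : ∀ i, V i ⟶ P i)
    [∀ i, IsOpenImmersion (v i)] (e : ∀ i, A i ⟶ V i) [∀ i, IsClosedImmersion (e i)]
    (he : ∀ i, e i ≫ v i ≫ g i = j i ≫ f) (hξ : ∀ i, Set.range ξ ⊆ Set.range (j i))
    (hcov : ∀ x ∈ closure (Set.range ξ), ∃ i, x ∈ Set.range (j i)) :
    ∃ (G : Scheme.{0}) (p : G ⟶ X), FT p ∧ FT (p ≫ f) ∧ (∀ y : G, p y ∈ closure (Set.range ξ)) ∧
      ∀ (k : Type) [Field k] (x : Spec (.of k) ⟶ X),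
        (∀ t, (∀ i, x t ∈ Set.range (j i)) ∧ x t ∈ closure (Set.range ξ)) →
        IsIso (pullback.fst x p) := by
  obtain ⟨Q, k, pr, hk, hpr, hl, hext⟩ := chow_prod h1 n P g hg
  have : IsProper k := h1.1 k hk
  have : ∀ i, IsProper (g i) := fun i => h1.1 _ (hg i)
  let ξ' : ∀ i, K ⟶ A i := fun i => IsOpenImmersion.lift (j i) ξ (hξ i)
  have hξ' : ∀ i, ξ' i ≫ j i = ξ := fun i => IsOpenImmersion.lift_fac _ _ _
  obtain ⟨l, hl1, hl2⟩ := hl K (ξ ≫ f) (fun i => ξ' i ≫ e i ≫ v i) (fun i => by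
    rw [Category.assoc, Category.assoc, he i, ← Category.assoc, hξ' i])
  let γ : K ⟶ pullback f k := pullback.lift ξ l hl1.symm
  have hγ : QuasiCompact (γ ≫ pullback.fst f k) := by
    rw [pullback.lift_fst]; infer_instance
  have : QuasiCompact γ := QuasiCompact.of_comp γ (pullback.fst f k)
  have : IsReduced γ.image := chow_isReduced_image γ
  let p : γ.image ⟶ X := γ.imageι ≫ pullback.fst f k
  let q : γ.image ⟶ Q := γ.imageι ≫ pullback.snd f k
  have hqk : q ≫ k = p ≫ f := by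
    simp only [p, q, Category.assoc, pullback.condition]
  have hsp : γ.toImage ≫ p = ξ := by
    simp only [p, γ, Scheme.Hom.toImage_imageι_assoc, pullback.lift_fst]
  have hsq : γ.toImage ≫ q = l := by
    simp only [q, γ, Scheme.Hom.toImage_imageι_assoc, pullback.lift_snd]
  have hr : ∀ i, (q ≫ pr i) ≫ g i = p ≫ f := fun i => by rw [Category.assoc, hpr i, hqk]
  have h2 : ∀ i, ξ' i ≫ e i ≫ v i = γ.toImage ≫ q ≫ pr i := fun i => by
    rw [← Category.assoc γ.toImage, hsq, hl2 i]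
  have hF : ∀ i {T : Scheme.{0}} (a : T ⟶ γ.image) (u : T ⟶ A i), u ≫ j i = a ≫ p →
      a ≫ q ≫ pr i = u ≫ e i ≫ v i := fun i _ a u h =>
    chow_F f (g i) (j i) (e i ≫ v i) (by rw [Category.assoc, he i]) p (q ≫ pr i) (hr i)
      γ.toImage (ξ' i) (by rw [hξ' i, hsp]) (h2 i) a u h
  have hG : ∀ i (y : γ.image), (q ≫ pr i) y ∈ Set.range (v i) → p y ∈ Set.range (j i) :=
    fun i y hy => chow_G f (g i) (j i) (v i) (e i) (he i) p (q ≫ pr i) (hr i) γ.toImage (ξ' i)
      (by rw [hξ' i, hsp]) (h2 i) y hy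
  have hF' : ∀ i (y : γ.image), p y ∈ Set.range (j i) → (q ≫ pr i) y ∈ Set.range (v i) := by
    intro i y hy
    obtain ⟨z, rfl⟩ : y ∈ Set.range (pullback.fst p (j i)) := by
      rw [Scheme.Pullback.range_fst]; exact hy
    have h := hF i (pullback.fst p (j i)) (pullback.snd p (j i)) pullback.condition.symm
    rw [← Scheme.Hom.comp_apply, h, ← Category.assoc, Scheme.Hom.comp_apply]
    exact ⟨_, rfl⟩
  have hZ : ∀ y : γ.image, p y ∈ closure (Set.range ξ) := by
    intro y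
    have hsub : Set.range γ.toImage ⊆ p ⁻¹' closure (Set.range ξ) := by
      rintro _ ⟨t, rfl⟩
      exact subset_closure ⟨t, by rw [← Scheme.Hom.comp_apply, hsp]⟩
    exact (isClosed_closure.preimage p.continuous).closure_subset_iff.mpr hsub
      (γ.toImage.denseRange y)
  have hmono : Mono q := by
    refine ⟨fun {T} a b hab => ?_⟩
    have hp : a ≫ p = b ≫ p := by
      refine Scheme.hom_ext_of_forall _ _ fun t => ?_
      obtain ⟨i, hi⟩ := hcov _ (hZ (a t))
      refine ⟨(a ≫ q ≫ pr i) ⁻¹ᵁ (v i).opensRange, ?_, ?_⟩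
      · have := hF' i _ hi
        rw [← Scheme.Hom.comp_apply] at this
        exact this
      · set W : T.Opens := (a ≫ q ≫ pr i) ⁻¹ᵁ (v i).opensRange
        have hab' : a ≫ q ≫ pr i = b ≫ q ≫ pr i := by rw [← Category.assoc, hab, Category.assoc]
        have hW : ∀ w : W, (a ≫ q ≫ pr i) (W.ι w) ∈ Set.range (v i) := fun w => w.2
        have ha : Set.range ((W.ι ≫ a) ≫ p) ⊆ Set.range (j i) := by
          rintro _ ⟨w, rfl⟩
          rw [Scheme.Hom.comp_apply]
          apply hG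
          have := hW w
          rwa [Scheme.Hom.comp_apply, ← Scheme.Hom.comp_apply W.ι] at this
        have hb : Set.range ((W.ι ≫ b) ≫ p) ⊆ Set.range (j i) := by
          rintro _ ⟨w, rfl⟩
          rw [Scheme.Hom.comp_apply]
          apply hG
          have := hW w
          rwa [hab', Scheme.Hom.comp_apply, ← Scheme.Hom.comp_apply W.ι] at this
        have e1 := hF i _ _ (IsOpenImmersion.lift_fac (j i) _ ha)
        have e2 := hF i _ _ (IsOpenImmersion.lift_fac (j i) _ hb)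
        rw [Category.assoc, hab', ← Category.assoc, e2, cancel_mono] at e1
        rw [← Category.assoc W.ι a, ← Category.assoc W.ι b, ← IsOpenImmersion.lift_fac (j i) _ ha,
          ← IsOpenImmersion.lift_fac (j i) _ hb, e1]
    rw [← cancel_mono γ.imageι]
    apply pullback.hom_ext
    · simpa only [p, Category.assoc] using hp
    · simpa only [q, Category.assoc] using hab
  have hqp : IsProper q := inferInstanceAs (IsProper (γ.imageι ≫ pullback.snd f k))
  have : IsClosedImmersion q := (IsClosedImmersion.iff_isProper_and_mono q).mpr ⟨hqp, hmono⟩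
  have hpp : IsProper p := inferInstanceAs (IsProper (γ.imageι ≫ pullback.fst f k))
  refine ⟨γ.image, p, ⟨_, γ.imageι, pullback.fst f k, inferInstance,
    h1.2.1 (IsPullback.of_hasPullback f k).flip hk, rfl⟩, ⟨Q, q, k, inferInstance, hk, hqk⟩,
    hZ, ?_⟩
  intro k' _ x hx
  have hxi : ∀ i, Set.range x ⊆ Set.range (j i) := by
    rintro i _ ⟨t, rfl⟩
    exact (hx t).1 i
  have hm : Mono (pullback.fst x p) := by
    refine ⟨fun {T} a b hab => ?_⟩
    apply pullback.hom_ext hab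
    rw [← cancel_mono q]
    apply hext
    · rw [Category.assoc _ q, Category.assoc _ q, hqk, Category.assoc a, Category.assoc b,
        ← pullback.condition_assoc, ← Category.assoc a, hab, Category.assoc b]
    · intro i
      have e1 := hF i (a ≫ pullback.snd x p)
        (a ≫ pullback.fst x p ≫ IsOpenImmersion.lift (j i) x (hxi i)) (by
          rw [Category.assoc, Category.assoc, IsOpenImmersion.lift_fac, pullback.condition,
            Category.assoc])
      have e2 := hF i (b ≫ pullback.snd x p)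
        (b ≫ pullback.fst x p ≫ IsOpenImmersion.lift (j i) x (hxi i)) (by
          rw [Category.assoc, Category.assoc, IsOpenImmersion.lift_fac, pullback.condition,
            Category.assoc])
      rw [Category.assoc _ q, Category.assoc _ q, e1, e2, ← Category.assoc a, hab, Category.assoc b]
  have : IsClosedImmersion (pullback.fst x p) :=
    (IsClosedImmersion.iff_isProper_and_mono _).mpr ⟨inferInstance, hm⟩
  have : Surjective (pullback.fst x p) := by
    refine ⟨fun t => ?_⟩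
    change t ∈ Set.range (pullback.fst x p)
    rw [Scheme.Pullback.range_fst]
    have hsub : Set.range ξ ⊆ Set.range p := by
      rintro _ ⟨w, rfl⟩
      exact ⟨γ.toImage w, by rw [← Scheme.Hom.comp_apply, hsp]⟩
    exact p.isClosedMap.isClosed_range.closure_subset_iff.mpr hsub (hx t).2
  exact isIso_of_isClosedImmersion_of_surjective _

/-- An affine open of a scheme of finite type is closed in an open part of a tower. -/
lemma chow_emb (h2 : EMBT_s) {R : Type} [CommRing R] {X : Scheme.{0}} (f : X ⟶ Spec (.of R))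
    [LocallyOfFiniteType f] (U : X.Opens) (hU : IsAffineOpen U) :
    ∃ (P V : Scheme.{0}) (g : P ⟶ Spec (.of R)) (v : V ⟶ P) (e : Spec Γ(X, U) ⟶ V),
      Tw g ∧ IsOpenImmersion v ∧ IsClosedImmersion e ∧ e ≫ v ≫ g = hU.fromSpec ≫ f := by
  let φ : CommRingCat.of R ⟶ Γ(X, U) := Spec.preimage (hU.fromSpec ≫ f)
  have hφ : Spec.map φ = hU.fromSpec ≫ f := Spec.map_preimage _
  have hft : φ.hom.FiniteType := by
    rw [← HasRingHomProperty.Spec_iff (P := @LocallyOfFiniteType), hφ]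
    infer_instance
  let _ : Algebra R Γ(X, U) := φ.hom.toAlgebra
  have : Algebra.FiniteType R Γ(X, U) := hft
  obtain ⟨P, g, V, i, hg, hi, hc⟩ := h2 R Γ(X, U)
  exact ⟨P, V, g, V.ι, i, hg, inferInstance, hi, hc.trans hφ⟩

/-- Row CHOW. -/
theorem chow (h1 : TW_s) (h2 : EMBT_s) : CHOW_s := by
  intro R _ _ X f _ Z hZ hne
  have : IsLocallyNoetherian X := LocallyOfFiniteType.isLocallyNoetherian f
  have : CompactSpace X := QuasiCompact.compactSpace_of_compactSpace f
  have : IsNoetherian X := {}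
  obtain ⟨η, O1, hO1, hηO, hηZ, hOZ⟩ := chow_gen Z hZ hne
  have hloc : ∀ x : X, ∃ U : X.Opens, IsAffineOpen U ∧ x ∈ U := fun x => by
    obtain ⟨_, ⟨U, hU, rfl⟩, hx, -⟩ :=
      X.isBasis_affineOpens.exists_subset_of_mem_open (Set.mem_univ x) isOpen_univ
    exact ⟨U, hU, hx⟩
  choose U hU hxU using hloc
  obtain ⟨t, ht, hcov⟩ := (isClosed_closure (s := ({η} : Set X))).isCompact.elim_nhds_subcover
    (fun x => (U x : Set X)) (fun x _ => (U x).isOpen.mem_nhds (hxU x))
  let c : Fin t.card → X := fun i => (t.equivFin.symm i : X)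
  have hηU : ∀ i, η ∈ U (c i) := fun i => by
    have h := ht _ (t.equivFin.symm i).2
    obtain ⟨y, hy1, hy2⟩ := mem_closure_iff.mp h _ (U (c i)).isOpen (hxU _)
    rw [Set.mem_singleton_iff.mp hy2] at hy1
    exact hy1
  choose P V g v e hg hv he hc using fun i => chow_emb h2 f (U (c i)) (hU (c i))
  have hrange : Set.range (X.fromSpecResidueField η) = {η} := X.range_fromSpecResidueField η
  obtain ⟨G, p, hp1, hp2, hp3, hp4⟩ := chow_main h1 f (X.fromSpecResidueField η) t.card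
    (fun i => Spec Γ(X, U (c i))) P V (fun i => (hU (c i)).fromSpec) g hg v e hc
    (fun i => by
      rw [hrange, (hU (c i)).range_fromSpec]
      exact Set.singleton_subset_iff.mpr (hηU i))
    (fun x hx => by
      rw [hrange] at hx
      obtain ⟨y, hy, hxy⟩ := Set.mem_iUnion₂.mp (hcov hx)
      refine ⟨t.equivFin ⟨y, hy⟩, ?_⟩
      rw [(hU _).range_fromSpec]
      simpa [c] using hxy)
  rw [hrange] at hp3 hp4
  refine ⟨⟨O1 ∩ ⋂ i, (U (c i) : Set X), hO1.inter (isOpen_iInter_of_finite fun i => (U _).isOpen)⟩,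
    ⟨η, ⟨hηO, Set.mem_iInter.mpr hηU⟩, hηZ (subset_closure rfl)⟩,
    G, p, hp1, hp2, fun y => hηZ (hp3 y), fun k _ x hx => hp4 k x fun s => ⟨fun i => ?_, ?_⟩⟩
  · rw [(hU _).range_fromSpec]
    exact Set.mem_iInter.mp (hx s).1.2 i
  · exact hOZ ⟨(hx s).1.1, (hx s).2⟩

end Pool.Agent.MP_855f4c_ag.E.U

end

section

set_option autoImplicit false

open CategoryTheory Limits AlgebraicGeometry

namespace Pool.Agent.MP_855f4c_ag.E.U

namespace Nn

open MvPolynomial Function

lemma ftr {A B : Type} [CommRing A] [CommRing B] [Algebra A B] (h : Algebra.FiniteType ℤ A)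
    (h' : Algebra.FiniteType A B) : Algebra.FiniteType ℤ B := .trans h h'

lemma core0 (P : Type) [CommRing P] [IsIntegrallyClosed P] (hP : Algebra.FiniteType ℤ P) (Ω : Type)
    [Field Ω] [CharZero Ω] (s : Finset Ω) (φ : P →+* Ω) (hi : Injective φ)
    (hs : ∀ x ∈ s, φ.IsIntegralElem x) :
    ∃ C : Subring Ω, (s : Set Ω) ⊆ C ∧ IsIntegrallyClosed C ∧ Algebra.FiniteType ℤ C ∧
      ∃ ψ : P →+* C, Injective ψ ∧ ψ.IsIntegral := by
  have : IsDomain P := hi.isDomain φ
  have : IsNoetherianRing P := Algebra.FiniteType.isNoetherianRing ℤ _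
  let := φ.toAlgebra
  have : FaithfulSMul P Ω := (faithfulSMul_iff_algebraMap_injective _ _).2 hi
  let := FractionRing.liftAlgebra P Ω
  let L := IntermediateField.adjoin (FractionRing P) (s : Set Ω)
  have : FiniteDimensional (FractionRing P) L := IntermediateField.finiteDimensional_adjoin
    fun x hx => IsIntegral.tower_top (R := P) (hs x hx)
  have : CharZero (FractionRing P) := (algebraMap (FractionRing P) Ω).charZero
  have : Module.Finite P (integralClosure P L) := IsIntegralClosure.finite P (FractionRing P) L _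
  have h2 : IsIntegrallyClosed (integralClosure P L).toSubring :=
    integralClosure.isIntegrallyClosedOfFiniteExtension (FractionRing P)
  have h3 : Algebra.FiniteType ℤ (integralClosure P L).toSubring :=
    (.trans (S := P) inferInstance inferInstance : Algebra.FiniteType ℤ (integralClosure P L))
  have : IsScalarTower P L Ω := .of_algebraMap_eq' rfl
  let e := (integralClosure P L).toSubring.equivMapOfInjective _ (algebraMap L Ω).injective
  refine ⟨(integralClosure P L).toSubring.map (algebraMap L Ω), fun x hx => ⟨⟨x,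
    IntermediateField.subset_adjoin _ _ hx⟩, (isIntegral_algebraMap_iff (algebraMap L Ω).injective).1 (hs x hx), rfl⟩, .of_equiv e,
    h3.of_surjective e.toRingHom.toIntAlgHom e.surjective,
    e.toRingHom.comp (algebraMap P (integralClosure P L)), Injective.of_comp (f := Subtype.val) hi,
    RingHom.IsIntegral.trans _ _ (fun x => Algebra.IsIntegral.isIntegral (R := P) x)
      (RingHom.isIntegral_of_surjective _ e.surjective)⟩

/-- The inclusion of the integral polynomials. -/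
noncomputable abbrev inc (n : ℕ) (S : Type) [CommRing S] :
    MvPolynomial (Fin n) ℤ →+* MvPolynomial (Fin n) S := MvPolynomial.map (algebraMap ℤ S)

lemma loc (N : ℕ) :
    @IsLocalization.Away ℤ _ (N : ℤ) (Localization.Away (N : ℤ)) _ (Ring.toIntAlgebra _) := by
  convert (inferInstance : IsLocalization.Away (N : ℤ) (Localization.Away (N : ℤ)))
  exact Subsingleton.elim _ _

lemma mult {A S : Type} [CommRing A] [CommRing S] {n : ℕ} (M : Submonoid ℤ) [IsLocalization M S]
    (φ : MvPolynomial (Fin n) S →+* A) (x : A) (hx : φ.IsIntegralElem x) :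
    ∃ m ∈ M, (φ.comp (inc n S)).IsIntegralElem ((m : A) * x) := by
  let := MvPolynomial.algebraMvPolynomial (σ := Fin n) (R := ℤ) (S := S)
  let := φ.toAlgebra
  let := (φ.comp (inc n S)).toAlgebra
  have : IsScalarTower (MvPolynomial (Fin n) ℤ) (MvPolynomial (Fin n) S) A :=
    .of_algebraMap_eq' rfl
  obtain ⟨⟨_, m, hm, rfl⟩, h⟩ := IsIntegral.exists_multiple_integral_of_isLocalization
    (M.map (C (σ := Fin n))) x hx
  refine ⟨m, hm, ?_⟩
  have h' : IsIntegral (MvPolynomial (Fin n) ℤ) ((C m : MvPolynomial (Fin n) ℤ) • x) := h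
  rw [Algebra.smul_def, eq_intCast, map_intCast] at h'
  exact h'

section
variable (n N : ℕ) (S : Type) [CommRing S] [IsLocalization.Away (N : ℤ) S]

lemma lift {A : Type} [CommRing A] (ψ : MvPolynomial (Fin n) ℤ →+* A)
    (hN : IsUnit (N : A)) (hψ : Injective ψ) :
    ∃ φ : MvPolynomial (Fin n) S →+* A, Injective φ ∧ φ.comp (inc n S) = ψ := by
  let := MvPolynomial.algebraMvPolynomial (σ := Fin n) (R := ℤ) (S := S)
  have hu : ∀ y : (Submonoid.powers (N : ℤ)).map (C (σ := Fin n)), IsUnit (ψ y) := by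
    rintro ⟨_, _, ⟨k, rfl⟩, rfl⟩
    simpa using hN.pow k
  refine ⟨IsLocalization.lift hu, ?_, IsLocalization.lift_comp hu⟩
  refine IsLocalization.injective_of_map_algebraMap_zero
    (M := (Submonoid.powers (N : ℤ)).map (C (σ := Fin n))) _ _ fun x hx => ?_
  rw [IsLocalization.lift_eq] at hx
  rw [hψ (hx.trans (map_zero ψ).symm), map_zero]

lemma unit : IsUnit (N : MvPolynomial (Fin n) S) := by
  simpa using (IsLocalization.Away.algebraMap_isUnit (S := S) (N : ℤ)).map (C (σ := Fin n))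

lemma elem {A : Type} [CommRing A] (φ : MvPolynomial (Fin n) S →+* A) (x : A) (k : ℕ)
    (h : (φ.comp (inc n S)).IsIntegralElem ((N : A) ^ k * x)) : φ.IsIntegralElem x := by
  obtain ⟨u, hu⟩ := ((unit n N S).pow k).exists_left_inv
  have h2 := (φ.isIntegralElem_map (x := u)).mul φ h.of_comp
  rwa [← mul_assoc, ← map_natCast φ, ← map_pow, ← map_mul, hu, map_one, one_mul] at h2

lemma inc_inj (hN : N ≠ 0) : Injective (inc n S) :=
  MvPolynomial.map_injective _ (IsLocalization.injective (M := Submonoid.powers (N : ℤ)) _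
    (powers_le_nonZeroDivisors_of_noZeroDivisors (Int.natCast_ne_zero.2 hN)))

lemma core (Ω : Type) [Field Ω] [CharZero Ω] (s : Finset Ω) (hN : N ≠ 0)
    (φ : MvPolynomial (Fin n) S →+* Ω) (hi : Injective φ) (hs : ∀ x ∈ s, φ.IsIntegralElem x) :
    ∃ C : Subring Ω, (s : Set Ω) ⊆ C ∧ IsIntegrallyClosed C ∧ Algebra.FiniteType ℤ C ∧
      ∃ ψ : MvPolynomial (Fin n) S →+* C, Injective ψ ∧ ψ.IsIntegral := by
  have : IsIntegrallyClosed (MvPolynomial (Fin n) S) := by
    let := MvPolynomial.algebraMvPolynomial (σ := Fin n) (R := ℤ) (S := S)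
    refine isIntegrallyClosed_of_isLocalization _
      ((Submonoid.powers (N : ℤ)).map (C (σ := Fin n))) ?_
    rintro _ ⟨_, ⟨k, rfl⟩, rfl⟩
    exact mem_nonZeroDivisors_of_ne_zero (C_ne_zero.2 (pow_ne_zero k (Int.natCast_ne_zero.2 hN)))
  have : Algebra.FiniteType ℤ S :=
    IsLocalization.finiteType_of_monoid_fg (Submonoid.powers (N : ℤ)) _
  exact core0 _ (ftr this inferInstance) Ω s φ hi hs

end

lemma away (A : Type) [CommRing A] (l : ℕ) (hl : l ≠ 0) (h : Nice A) :
    Nice (Localization.Away (l : A)) := by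
  obtain ⟨h1, h2, h3, n, N, φ, hN, hi, hI⟩ := h
  have i1 := loc N
  have i2 := loc (N * l)
  have hψ : Injective (φ.comp (inc n _)) := hi.comp (inc_inj n N _ hN)
  have hl0 : (l : A) ≠ 0 := fun e => by
    have := hψ (a₁ := l) (a₂ := 0) (by rw [map_natCast, e, map_zero])
    exact hl (Nat.cast_eq_zero.1 this)
  have hS : Submonoid.powers (l : A) ≤ nonZeroDivisors A :=
    powers_le_nonZeroDivisors_of_noZeroDivisors hl0
  let a := algebraMap A (Localization.Away (l : A))
  have hNu : IsUnit ((N * l : ℕ) : Localization.Away (l : A)) := by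
    rw [Nat.cast_mul]
    refine IsUnit.mul ?_ ?_
    · simpa using ((unit n N _).map φ).map a
    · simpa using IsLocalization.Away.algebraMap_isUnit (S := Localization.Away (l : A)) (l : A)
  obtain ⟨φ', hi', e⟩ := lift n (N * l) (Localization.Away ((N * l : ℕ) : ℤ))
    (a.comp (φ.comp (inc n _))) hNu ((IsLocalization.injective _ hS).comp hψ)
  have : Algebra.FiniteType A (Localization.Away (l : A)) :=
    IsLocalization.finiteType_of_monoid_fg (Submonoid.powers (l : A)) _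
  refine ⟨IsLocalization.isDomain_localization hS, isIntegrallyClosed_of_isLocalization _ _ hS,
    ftr h3 this, n, N * l, φ', mul_ne_zero hN hl, hi', fun x => ?_⟩
  obtain ⟨j, y, hy⟩ := IsLocalization.Away.surj (l : A) x
  obtain ⟨_, ⟨k, rfl⟩, hk⟩ := mult (Submonoid.powers (N : ℤ)) φ y (hI y)
  refine elem n (N * l) _ φ' x (k + j) ?_
  rw [e]
  have h4 := ((a.comp (φ.comp (inc n _))).isIntegralElem_map (x := (N : _) ^ j * (l : _) ^ k)).mul _
    (hk.map a)
  convert h4 using 1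
  simp only [map_mul, map_pow, map_natCast, Int.cast_pow, Int.cast_natCast, Nat.cast_mul, a, ← hy]
  ring

lemma fin (Ω : Type) [Field Ω] [CharZero Ω] (s : Finset Ω) :
    ∃ C : Subring Ω, (s : Set Ω) ⊆ C ∧ Nice C := by
  let R : Subalgebra ℚ Ω := Algebra.adjoin ℚ (s : Set Ω)
  have : Algebra.FiniteType ℚ R := (Subalgebra.fg_iff_finiteType R).1 ⟨s, rfl⟩
  obtain ⟨n, g, hi, hI⟩ := exists_integral_inj_algHom_of_fg ℚ R
  let g' : MvPolynomial (Fin n) ℚ →+* Ω := R.val.toRingHom.comp g.toRingHom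
  have key : ∀ x : s, ∃ m ∈ nonZeroDivisors ℤ, (g'.comp (inc n ℚ)).IsIntegralElem ((m : Ω) * x) :=
    fun x => mult _ g' x.1 ((hI ⟨x.1, Algebra.subset_adjoin x.2⟩).map R.val.toRingHom)
  choose m hm hx using key
  have hN : (∏ x : s, (m x).natAbs) ≠ 0 :=
    Finset.prod_ne_zero_iff.2 fun x _ => Int.natAbs_ne_zero.2 (nonZeroDivisors.ne_zero (hm x))
  have i1 := loc (∏ x : s, (m x).natAbs)
  obtain ⟨φ, hφ, e⟩ := lift n (∏ x : s, (m x).natAbs)
    (Localization.Away ((∏ x : s, (m x).natAbs : ℕ) : ℤ)) (g'.comp (inc n ℚ))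
    (Nat.cast_ne_zero.2 hN).isUnit ((Subtype.val_injective.comp hi).comp
      (MvPolynomial.map_injective _ (algebraMap ℤ ℚ).injective_int))
  suffices h : ∀ x ∈ s, φ.IsIntegralElem x by
    obtain ⟨C, h1, h2, h3, ψ, h4, h5⟩ := core n _ _ Ω s hN φ hφ h
    exact ⟨C, h1, inferInstance, h2, h3, n, _, ψ, hN, h4, h5⟩
  refine fun x hxs => elem n (∏ x : s, (m x).natAbs) _ φ x 1 ?_
  obtain ⟨c, hc⟩ : m ⟨x, hxs⟩ ∣ ((∏ x : s, (m x).natAbs : ℕ) : ℤ) :=
    Int.natAbs_dvd.1 (Int.natCast_dvd_natCast.2 (Finset.dvd_prod_of_mem _ (Finset.mem_univ _)))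
  have h4 := ((g'.comp (inc n ℚ)).isIntegralElem_map (x := (c : _))).mul _ (hx ⟨x, hxs⟩)
  rw [e, pow_one, ← Int.cast_natCast, hc]
  convert h4 using 1
  rw [map_intCast, Int.cast_mul]
  ring

lemma gens {Ω : Type} [Field Ω] (A : Subring Ω) (h : Algebra.FiniteType ℤ A) :
    ∃ s : Finset Ω, ∀ C : Subring Ω, (s : Set Ω) ⊆ C → A ≤ C := by
  classical
  obtain ⟨s, hs⟩ := h.out
  refine ⟨s.image Subtype.val, fun C h1 x hx => ?_⟩
  have hx' : (⟨x, hx⟩ : A) ∈ Algebra.adjoin ℤ (s : Set A) := hs ▸ Algebra.mem_top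
  rw [Algebra.adjoin_int] at hx'
  exact (Subring.closure_le (t := C.comap A.subtype)).mpr
    (fun y hy => h1 (Finset.mem_image_of_mem _ hy)) hx'

end Nn

theorem nn : NN_s where
  ex Ω _ _ A h := by
    obtain ⟨s, hs⟩ := Nn.gens A h
    obtain ⟨C, h1, h2⟩ := Nn.fin Ω s
    exact ⟨C, hs C h1, h2⟩
  away := Nn.away

lemma evt_up {A₀ Ω : Type} [CommRing A₀] [Field Ω] {ι : A₀ →+* Ω} {A A' : Subring Ω} (h : A ≤ A')
    {α : A₀ →+* A} (e : A.subtype.comp α = ι) {α' : A₀ →+* A'} (e' : A'.subtype.comp α' = ι)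
    {B : Type} [CommRing B] (β : A' →+* B) :
    (β.comp (Subring.inclusion h)).comp α = β.comp α' := by
  ext x
  exact congrArg β (Subtype.ext ((RingHom.congr_fun e x).trans (RingHom.congr_fun e' x).symm))

theorem evt (h1 : SPF_s) (h2 : NN_s) : EVT_s where
  mono ι P Q h := fun ⟨A, i, α, e, H⟩ => ⟨A, i, α, e, fun B _ β => h B _ (H B β)⟩
  all {A₀ Ω} _ _ _ ι I _ P h := by
    choose A i α e H using h
    obtain ⟨A', i', hA, -⟩ := h1.1 Ω (Option I) (fun o => o.elim ι.range A) ∅ (by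
      rintro (_ | o)
      · exact Algebra.FiniteType.of_surjective ι.rangeRestrict.toIntAlgHom
          ι.rangeRestrict_surjective
      · exact i o)
    refine ⟨A', i', ι.codRestrict A' fun x => hA none ⟨x, rfl⟩, rfl, fun B _ β o => ?_⟩
    rw [← evt_up (hA (some o)) (e o) rfl β]
    exact H o B _
  and {A₀ Ω} _ _ ι P Q := fun ⟨A, i, α, e, H⟩ ⟨A₁, i₁, α₁, e₁, H₁⟩ => by
    obtain ⟨A', i', hA, -⟩ := h1.1 Ω Bool (fun o => cond o A A₁) ∅ (by
      rintro (_ | _)
      · exact i₁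
      · exact i)
    have e' : A'.subtype.comp ((Subring.inclusion (hA true)).comp α) = ι := e
    refine ⟨A', i', _, e', fun B _ β => ⟨H B (β.comp (Subring.inclusion (hA true))), ?_⟩⟩
    rw [← evt_up (hA false) e₁ e' β]
    exact H₁ B _
  trans α ι P := fun ⟨A, i, α', e, H⟩ => ⟨A, i, α'.comp α, e ▸ rfl, fun B _ β => H B β⟩
  nice {A₀ Ω} _ _ _ ι LL P Q hQ hP := fun ⟨A, i, α, e, H⟩ => by
    obtain ⟨A', hA, hN⟩ := h2.ex Ω A i
    refine ⟨A', hN.ft, (Subring.inclusion hA).comp α, e, fun B _ β l hp hl hu => ?_⟩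
    have hu' : IsUnit (l : Localization.Away (l : A')) := by
      simpa using IsLocalization.Away.algebraMap_isUnit (S := Localization.Away (l : A')) (l : A')
    have hb : IsUnit (β (l : A')) := by rwa [map_natCast]
    have h3 := hQ l _ B _ (IsLocalization.Away.lift (l : A') hb)
      (hP l _ _ (h2.away A' l hp.out.ne_zero hN) hu'
        (H _ ((algebraMap A' (Localization.Away (l : A'))).comp (Subring.inclusion hA)) l hl hu'))
    rwa [← RingHom.comp_assoc, ← RingHom.comp_assoc, IsLocalization.Away.lift_comp] at h3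
  good LL w X F := by
    refine and_congr_right fun _ => ⟨fun h A₀ Ω _ _ _ _ _ ι a => ?_, fun h A₀ Ω _ _ _ _ _ _ a => ?_⟩
    · let := ι.toAlgebra
      obtain ⟨A, hA, H⟩ := h A₀ Ω a
      exact ⟨A.toSubring, Nn.ftr (B := A) inferInstance ((Subalgebra.fg_iff_finiteType A).1 hA),
        algebraMap A₀ A, rfl, fun B _ β l _ hl hu => H l hl B β hu⟩
    · obtain ⟨A, i, α, e, H⟩ := h A₀ Ω (algebraMap A₀ Ω) a
      let A' : Subalgebra A₀ Ω :=
        { A.toSubsemiring with algebraMap_mem' := fun r => RingHom.congr_fun e r ▸ (α r).2 }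
      have : Algebra.FiniteType ℤ A' := i
      have e' : α = algebraMap A₀ A' := RingHom.ext fun r => Subtype.ext (RingHom.congr_fun e r)
      refine ⟨A', (Subalgebra.fg_iff_finiteType A').mpr (.of_restrictScalars_finiteType ℤ A₀ A'),
        fun l _ hl B _ β hu => ?_⟩
      rw [← e']
      exact H B β l hl hu

end Pool.Agent.MP_855f4c_ag.E.U

end

section

set_option backward.isDefEq.respectTransparency false

open CategoryTheory Limits Abelian Opposite AlgebraicGeometry Polynomial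

namespace Pool.Agent.MP_855f4c_ag.E

open E3 E4

namespace G0

variable {X Y : Scheme.{0}} (g : Y ⟶ X) (M : Ab.{1})

/-- Constant sections of the pull-back of a constant sheaf. -/
noncomputable def ι (T : Over Y) :
    M →+ sec ((pb (J := Scheme.etaleTopology) g).obj ((cst X).obj M)) T :=
  (cstι M ((Over.map g).obj T)).hom

lemma ι_res {T' T : Over Y} (y : T' ⟶ T) (m : M) : rsec y _ (ι g M T m) = ι g M T' m :=
  cstι_res M ((Over.map g).map y) m

lemma ι_bij (T : Over Y) [h : ConnectedSpace T.left] : Function.Bijective (ι g M T) :=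
  @cstι_connected X M ((Over.map g).obj T) h

lemma res_bij {T' T : Over Y} [ConnectedSpace T'.left] [ConnectedSpace T.left] (y : T' ⟶ T) :
    Function.Bijective (rsec y ((pb (J := Scheme.etaleTopology) g).obj ((cst X).obj M))) := by
  have h := ι_bij g M T'
  rw [show (ι g M T' : M → _) = rsec y _ ∘ ι g M T from funext fun m => (ι_res g M y m).symm] at h
  exact (Function.Bijective.of_comp_iff _ (ι_bij g M T)).1 h

lemma res_id {T : Over Y} [ConnectedSpace T.left] (y : T ⟶ T) :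
    rsec y ((pb (J := Scheme.etaleTopology) g).obj ((cst X).obj M)) = AddMonoidHom.id _ :=
  AddMonoidHom.ext fun s => by
    obtain ⟨m, rfl⟩ := (ι_bij g M T).2 s
    exact ι_res g M y m

instance {A : Type} [CommRing A] [IsDomain A] (a : Spec (.of A) ⟶ Y) :
    ConnectedSpace (Over.mk a).left :=
  inferInstanceAs (ConnectedSpace (PrimeSpectrum A))

variable (l : ℕ) [Fact l.Prime]

lemma cof_ulift : Cof l (ULift.{1} (QZ l)) := by
  obtain ⟨h1, h2⟩ := cof_QZ (l := l)
  refine ⟨fun m => (h1 m.down).imp fun n hn => ULift.ext _ _ hn, ?_⟩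
  exact (h2.image ULift.up).subset fun m hm => ⟨m.down, congrArg ULift.down hm, rfl⟩

lemma linf_Tc (X : Scheme.{0}) : Tc l (Linf l X) := cst_Tc _ (cof_ulift l).1

lemma linf_cofS : CofS l ((pb (J := Scheme.etaleTopology) g).obj (Linf l X)) :=
  fun _ _ _ x _ => Cof.quo (cof_ulift l) (ι g (.of (ULift.{1} (QZ l))) (Over.mk x)) (ι_bij g _ _).2

lemma linf_lcf : Lcf l ((pb (J := Scheme.etaleTopology) g).obj (Linf l X)) :=
  ⟨(linf_Tc l X).pb g, fun _ _ _ _ _ _ _ _ _ _ h _ _ _ => res_bij g _ (sph _ h), linf_cofS g l⟩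

lemma linf_ratS : RatS l ((pb (J := Scheme.etaleTopology) g).obj (Linf l X)) := by
  refine ⟨linf_lcf g l, fun k _ _ x Q ψ h => ?_⟩
  have := (linf_cofS g l k x h.ne).finiteDimensional
  have e : rsec (sph ψ h.fix) ((pb (J := Scheme.etaleTopology) g).obj (Linf l X)) =
    AddMonoidHom.id _ := res_id g _ _
  rw [e, tr, Vm_id, LinearMap.trace_id]
  exact ⟨_, (Rat.cast_natCast _).symm⟩

lemma linf_wt : Wt l 0 ((pb (J := Scheme.etaleTopology) g).obj (Linf l X)) := by
  intro k _ _ x Q ψ h j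
  have e : rsec (sph ψ h.fix) ((pb (J := Scheme.etaleTopology) g).obj (Linf l X)) =
    AddMonoidHom.id _ := res_id g _ _
  rw [e]
  refine ⟨Polynomial.X - C 1, X_sub_C_ne_zero 1, ?_, fun z hz => ?_⟩
  · rw [Vm_id, map_sub, aeval_X, aeval_C, map_one]
    exact sub_self _
  · rw [eval₂_sub, eval₂_X, eval₂_C, map_one, sub_eq_zero] at hz
    simp [hz]

end G0

theorem g0 : G0_s := fun _ X =>
  ⟨fun l _ _ => G0.linf_Tc l X, fun _ _ _ _ _ _ _ _ _ => ⟨⊥, Subalgebra.fg_bot,
    fun l _ _ _ _ _ _ => ⟨.rat (G0.linf_ratS _ l), G0.linf_wt _ l⟩⟩⟩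

end Pool.Agent.MP_855f4c_ag.E

end

section

set_option autoImplicit false
set_option backward.isDefEq.respectTransparency false

open CategoryTheory Limits Abelian Opposite AlgebraicGeometry Polynomial

namespace Pool.Agent.MP_855f4c_ag.E.U

open E3 E4 Function

/-- Over the open part the extension by zero has the sections of the sheaf itself. -/
theorem twi_pt (hJ : JSH_s) {A : Type} [CommRing A] (L : PL (Spec (.of A))) (h : A[X])
    [IsOpenImmersion (L.u h)] :
    ∃ e : ∀ (G : Sh (Scheme.etaleTopology.over (Spec (.of (Localization.Away h))))) {T : Scheme.{0}}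
      (b : T ⟶ Spec (.of (Localization.Away h))) (x : T ⟶ L.P), b ≫ L.u h = x →
        sec ((js L h).obj G) (Over.mk x) →+ sec G (Over.mk b),
      (∀ G T (b : T ⟶ _) x hx, Bijective (e G b x hx)) ∧
      (∀ G T T' (b : T ⟶ _) (b' : T' ⟶ _) x x' hx hx' (g : Over.mk x' ⟶ Over.mk x)
        (g' : Over.mk b' ⟶ Over.mk b), g.left = g'.left → ∀ s,
          e G b' x' hx' (rsec g _ s) = rsec g' G (e G b x hx s)) ∧
      ∀ G G' (φ : G ⟶ G') T (b : T ⟶ _) x hx s,
        e G' b x hx (app ((js L h).map φ) _ s) = app φ _ (e G b x hx s) := by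
  obtain ⟨η⟩ := hJ.unit L h
  let i : ∀ {T : Scheme.{0}} (b : T ⟶ Spec (.of (Localization.Away h))) (x : T ⟶ L.P),
      b ≫ L.u h = x → ((Over.map (L.u h)).obj (Over.mk b) ⟶ Over.mk x) := fun {T} b x hx =>
    Over.homMk (𝟙 T) ((Category.id_comp _).trans hx.symm)
  refine ⟨fun G T b x hx => (app (η.hom.app G) (Over.mk b)).comp (rsec (i b x hx) _), ?_, ?_, ?_⟩
  · intro G T b x hx
    have h1 : IsIso (i b x hx) := isIso_homMk _ (inferInstanceAs (IsIso (𝟙 T)))
    have h2 : IsIso ((η.hom.app G).hom.app (op (Over.mk b))) :=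
      inferInstanceAs (IsIso (((sheafToPresheaf _ _).map (η.hom.app G)).app _))
    exact (ConcreteCategory.bijective_of_isIso ((η.hom.app G).hom.app (op (Over.mk b)))).comp
      (ConcreteCategory.bijective_of_isIso (((js L h).obj G).obj.map (i b x hx).op))
  · intro G T T' b b' x x' hx hx' g g' hg s
    refine Eq.trans ?_ (nat (η.hom.app G).hom g' _)
    refine congrArg ((η.hom.app G).hom.app (op (Over.mk b'))) ?_
    refine (res_res _ _ _ _).trans (Eq.trans ?_
      (res_res ((js L h).obj G).obj ((Over.map (L.u h)).map g') (i b x hx) s).symm)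
    refine congrArg (fun q => ((js L h).obj G).obj.map (Quiver.Hom.op q) s)
      (Over.OverMorphism.ext ?_)
    simp [i, hg]
  · intro G G' φ T b x hx s
    have h1 := congr($(η.hom.naturality φ).hom.app (op (Over.mk b))
      (rsec (i b x hx) ((js L h).obj G) s))
    refine Eq.trans ?_ h1
    exact congrArg ((η.hom.app G').hom.app (op (Over.mk b)))
      (nat ((js L h).map φ).hom (i b x hx) s).symm

/-- An algebraic closure of the function field of the line. -/
theorem twi_alg (k : Type) [Field k] (p : k[X]) (hp : p ≠ 0) :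
    ∃ (Ω : Type) (_ : Field Ω) (_ : IsAlgClosed Ω) (_ : Algebra (Localization.Away p) Ω)
      (_ : FaithfulSMul (Localization.Away p) Ω) (_ : Algebra.IsAlgebraic (Localization.Away p) Ω),
      ∀ ψ : k →+* k, Bijective ψ → ∃ g : Ω ≃+* Ω, ∀ q : k[X],
        g (algebraMap _ Ω (algebraMap k[X] (Localization.Away p) q)) =
          algebraMap _ Ω (algebraMap k[X] (Localization.Away p) (q.map ψ)) := by
  let Ω := AlgebraicClosure (FractionRing k[X])
  have hi : Injective (algebraMap k[X] Ω) := by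
    rw [IsScalarTower.algebraMap_eq k[X] (FractionRing k[X]) Ω]
    exact (algebraMap (FractionRing k[X]) Ω).injective.comp (IsFractionRing.injective _ _)
  have : FaithfulSMul k[X] Ω := (faithfulSMul_iff_algebraMap_injective _ _).2 hi
  have hu : IsUnit (algebraMap k[X] Ω p) :=
    isUnit_iff_ne_zero.2 fun e => hp (hi (e.trans (map_zero _).symm))
  let _ : Algebra (Localization.Away p) Ω := (IsLocalization.Away.lift p hu).toAlgebra
  have ht : ∀ q, algebraMap _ Ω (algebraMap k[X] (Localization.Away p) q) = algebraMap k[X] Ω q :=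
    IsLocalization.Away.lift_eq p hu
  have : IsScalarTower k[X] (Localization.Away p) Ω := .of_algebraMap_eq fun q => (ht q).symm
  have hB : Injective (algebraMap k[X] (Localization.Away p)) :=
    IsLocalization.injective _ (powers_le_nonZeroDivisors_of_noZeroDivisors hp)
  have : Algebra.IsAlgebraic k[X] Ω :=
    (IsFractionRing.comap_isAlgebraic_iff (K := FractionRing k[X])).2 inferInstance
  have : IsAlgClosure k[X] Ω := ⟨inferInstance, this⟩
  refine ⟨Ω, inferInstance, inferInstance, inferInstance, ?_,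
    Algebra.IsAlgebraic.extendScalars hB, fun ψ hψ => ?_⟩
  · rw [faithfulSMul_iff_algebraMap_injective]
    exact (IsLocalization.injective_iff_map_algebraMap_eq (Submonoid.powers p) _).2 fun a b =>
      ⟨fun e => congrArg _ e, fun e => congrArg _ (hi ((ht a).symm.trans (e.trans (ht b))))⟩
  · refine ⟨IsAlgClosure.equivOfEquiv Ω Ω (mapEquiv (RingEquiv.ofBijective ψ hψ)), fun q => ?_⟩
    rw [ht, ht, IsAlgClosure.equivOfEquiv_algebraMap]
    rfl

theorem twi_root {k Ω : Type} [Field k] [IsAlgClosed k] [Field Ω] (ι : k →+* Ω) {m : ℕ}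
    (hm : 0 < m) {ζ : Ω} (hζ : ζ ^ m = 1) : ∃ z, ι z = ζ := by
  let _ := ι.toAlgebra
  have : IsIntegral k ζ := IsIntegral.of_pow hm (hζ ▸ isIntegral_one)
  exact minpoly.mem_range_of_degree_eq_one k ζ
    (IsAlgClosed.degree_eq_one_of_irreducible k (minpoly.irreducible this))

theorem twi_spc {A B D : Type} [CommRing A] [CommRing B] [CommRing D] (φ : A →+* B) (χ : B →+* D) :
    spc χ ≫ spc φ = spc (χ.comp φ) := by
  rw [← Spec.map_comp, ← CommRingCat.ofHom_comp]

/-- The geometric generic point of the fibre lies over the open part. -/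
theorem twi_gen {A k : Type} [CommRing A] [CommRing k] (L : PL (Spec (.of A))) (h : A[X])
    (τ : A →+* k) (B Ω : Type) [CommRing B] [Algebra k[X] B] [IsLocalization.Away (h.map τ) B]
    [Field Ω] [Algebra B Ω] :
    ∃ β : Localization.Away h →+* Ω, (∀ q, β (algebraMap A[X] _ q) =
      algebraMap B Ω (algebraMap k[X] B (q.map τ))) ∧
      spc β ≫ L.u h = (ob (uk L τ B) Ω).hom := by
  have hu : IsUnit (((algebraMap B Ω).comp ((algebraMap k[X] B).comp (mapRingHom τ))) h) :=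
    (IsLocalization.Away.algebraMap_isUnit (S := B) (h.map τ)).map (algebraMap B Ω)
  have hβ := IsLocalization.Away.lift_eq (S := Localization.Away h) h hu
  refine ⟨IsLocalization.Away.lift h hu, hβ, ?_⟩
  change _ = spc (algebraMap B Ω) ≫ L.pnt _ _
  rw [PL.u, PL.comp_pnt, PL.comp_pnt, map_pt1, map_pt1, twi_spc, twi_spc, hβ]
  congr 2
  · ext a
    simp [hβ]
  · simp

theorem twi (hD : DU2_s) (hC : GdCof_s) (hJ : JSH_s) (hN : NTC_s) (hG : GE_s) (hA : ALG_s) :
    TWI_s := by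
  intro l _ A _ L h _ W hh hW k _ _ t hl
  obtain ⟨τ, rfl⟩ : ∃ τ : A →+* k, spc τ = t := ⟨(Spec.preimage t).hom, by simp [spc]⟩
  have hp : h.map τ ≠ 0 := fun e => (hh.map τ).ne_zero (by
    rw [← coeff_natDegree, ← coeff_map, e, coeff_zero])
  obtain ⟨Ω, _, _, _, _, _, hΩ⟩ := twi_alg k (h.map τ) hp
  set B := Localization.Away (h.map τ)
  set G := (PB (gu h)).obj W
  set F := (js L h).obj G
  have hF : Gd l L h F := hJ.gd l L h G (hG.lcfPb l _ W hW)
  obtain ⟨e, e1, e2, e3⟩ := hD l A L h F hh hF k B Ω τ hl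
  obtain ⟨β, hβ, hx⟩ := twi_gen L h τ B Ω
  obtain ⟨P, P1, P2, -⟩ := twi_pt hJ L h
  let ι : k →+* Ω := (algebraMap B Ω).comp ((algebraMap k[X] B).comp C)
  have hlΩ : (l : Ω) ≠ 0 := fun e => hl (ι.injective (by rw [map_natCast, e, map_zero]))
  have hι : spc ι ≫ spc τ = spc β ≫ gu h := by
    rw [twi_spc, twi_spc]
    exact congrArg spc (RingHom.ext fun a => by simp [ι, hβ])
  let pe : sec F (ob (uk L τ B) Ω) →+ sec W (Over.mk (spc β ≫ gu h)) := P G (spc β) _ hx
  have pe1 : Bijective pe := P1 G _ _ _ hx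
  let ρ := rsec (sph ι hι) W
  have ρ1 : Bijective ρ := hW.1.1.2 k Ω ι _ _ hι (isUnit_iff_ne_zero.2 hl)
  have key : ∀ (g : Ω →+* Ω) (ψ : k →+* k) (hψ : spc ψ ≫ spc τ = spc τ),
      (∀ q : k[X], g (algebraMap B Ω (algebraMap k[X] B q)) =
        algebraMap B Ω (algebraMap k[X] B (q.map ψ))) →
      ∃ (hg : spc g ≫ (ob (uk L τ B) Ω).hom = (ob (uk L τ B) Ω).hom)
        (χ : sec W (Over.mk (spc β ≫ gu h)) →+ sec W (Over.mk (spc β ≫ gu h))),
        (∀ m, pe (rsec (sph g hg) F m) = χ (pe m)) ∧ ∀ w, ρ (rsec (sph ψ hψ) W w) = χ (ρ w) := by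
    intro g ψ hψ hg
    have h1 : ψ.comp τ = τ := by
      rw [twi_spc] at hψ
      exact congrArg CommRingCat.Hom.hom (Spec.map_injective hψ)
    have h2 : spc g ≫ spc β = spc β := by
      rw [twi_spc]
      refine congrArg spc
        (IsLocalization.ringHom_ext (Submonoid.powers h) (RingHom.ext fun q => ?_))
      simp only [RingHom.comp_apply, hβ, hg, Polynomial.map_map, h1]
    have h3 : spc g ≫ spc β ≫ gu h = spc β ≫ gu h := by rw [← Category.assoc, h2]
    refine ⟨by rw [← hx, ← Category.assoc, h2], rsec (sph g h3) W,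
      fun m => P2 G _ _ _ _ _ _ hx hx _ (sph g h2) rfl m, fun w => ?_⟩
    refine (res_res _ _ _ _).trans (Eq.trans ?_ (res_res _ _ _ _).symm)
    refine congrArg (fun q => W.obj.map (Quiver.Hom.op q) w) (Over.OverMorphism.ext ?_)
    change spc ι ≫ spc ψ = spc g ≫ spc ι
    rw [twi_spc, twi_spc]
    exact congrArg spc (RingHom.ext fun a => by simp [ι, hg])
  have eb : Bijective e := ⟨e1, fun a => (e2 a).2 fun σ m => by
    have hid : spc (RingHom.id k) ≫ spc τ = spc τ := by rw [twi_spc, RingHom.id_comp]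
    obtain ⟨hg, χ, k1, k2⟩ := key (σ : Ω →+* Ω) (RingHom.id k) hid fun q => by
      rw [Polynomial.map_id]; exact σ.commutes _
    refine congrArg a (pe1.1 ((k1 m).trans ?_))
    obtain ⟨w, hw⟩ := ρ1.2 (pe m)
    rw [← hw, ← k2]
    refine congrArg ρ (Eq.trans ?_ (res_id W.obj w))
    exact congrArg (fun q => W.obj.map (Quiver.Hom.op q) w)
      (Over.OverMorphism.ext (Spec.map_id _))⟩
  obtain ⟨d1, d2⟩ := hA.dual l Ω hlΩ ((hC l A L h F hh hF k _ hl).2 2) (hF.2.1 Ω _ hlΩ) e eb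
  have sb := hN.stk L.π F 2 k (spc τ)
  refine ⟨?_, fun Q ψ hψ => ?_⟩
  · exact (hA.iso l _ (AddMonoidHom.id _) (AddMonoidHom.id _) sb fun _ => rfl).2.1.symm.trans
      (d1.trans ((hA.iso l pe (AddMonoidHom.id _) (AddMonoidHom.id _) pe1 fun _ => rfl).2.1.trans
        (hA.iso l ρ (AddMonoidHom.id _) (AddMonoidHom.id _) ρ1 fun _ => rfl).2.1.symm))
  · have hb : Bijective ψ := ⟨ψ.injective, fun z => ⟨z ^ Q, by rw [map_pow, hψ.pow]⟩⟩
    obtain ⟨g, hg⟩ := hΩ ψ hb
    obtain ⟨hg', χ, k1, k2⟩ := key (g : Ω →+* Ω) ψ hψ.fix hg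
    have hc : ∀ c, g (ι c) = ι (ψ c) := fun c => (hg (C c)).trans (by rw [map_C]; rfl)
    obtain ⟨t1, t2⟩ := d2 _ _ (g : Ω →+* Ω) Q (zero_lt_one.trans hψ.lt)
      (fun ζ n hζ => by
        obtain ⟨z, rfl⟩ := twi_root ι (pow_pos (Fact.out : l.Prime).pos n) hζ
        change g (ι z) ^ Q = _
        rw [hc, ← map_pow, hψ.pow])
      (e3 g hg' ψ hψ.fix hb hc)
    obtain ⟨a1, -, a2⟩ := hA.iso l _ _ _ sb (stk_res L.π F 2 (sph ψ hψ.fix))
    obtain ⟨b1, -, b2⟩ := hA.iso l pe _ χ pe1 k1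
    obtain ⟨c1, -, c2⟩ := hA.iso l ρ _ χ ρ1 k2
    exact ⟨a1.symm.trans (t1.trans (congrArg _ (b1.trans c1.symm))),
      fun j D hD => (a2 j _).1 (t2 j D ((b2 j _).2 ((c2 j _).1 hD)))⟩

end Pool.Agent.MP_855f4c_ag.E.U

end

section

set_option autoImplicit false
set_option backward.isDefEq.respectTransparency false

open CategoryTheory Limits Abelian Opposite AlgebraicGeometry Polynomial

namespace Pool.Agent.MP_855f4c_ag.E.U

open E3 E4 Function

/-- The geometric generic point of the generic fibre is a geometric generic point. -/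
theorem r2_alg {A k B B' Ω : Type} [CommRing A] [Field k] [Algebra A k] [FaithfulSMul A k]
    [Algebra.IsAlgebraic A k] (h : A[X]) [CommRing B] [Algebra A[X] B] [IsLocalization.Away h B]
    [CommRing B'] [Algebra k[X] B'] [IsLocalization.Away (h.map (algebraMap A k)) B'] [Field Ω]
    [Algebra B' Ω] [FaithfulSMul B' Ω] [Algebra.IsAlgebraic B' Ω] [Algebra B Ω]
    (hh : h.map (algebraMap A k) ≠ 0) (hβ : ∀ q, algebraMap B Ω (algebraMap A[X] B q) =
      algebraMap B' Ω (algebraMap k[X] B' (q.map (algebraMap A k)))) :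
    FaithfulSMul B Ω ∧ Algebra.IsAlgebraic B Ω := by
  have hA := FaithfulSMul.algebraMap_injective A k
  have hB' := FaithfulSMul.algebraMap_injective B' Ω
  have := hA.isDomain
  have := hB'.isDomain
  let _ : Algebra A[X] k[X] := Polynomial.algebra A k
  let _ : Algebra k[X] Ω := ((algebraMap B' Ω).comp (algebraMap k[X] B')).toAlgebra
  let _ : Algebra A[X] Ω := ((algebraMap B Ω).comp (algebraMap A[X] B)).toAlgebra
  have : IsScalarTower k[X] B' Ω := .of_algebraMap_eq fun _ => rfl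
  have : IsScalarTower A[X] B Ω := .of_algebraMap_eq fun _ => rfl
  have : IsScalarTower A[X] k[X] Ω := .of_algebraMap_eq hβ
  have : Algebra.IsAlgebraic k[X] B' :=
    IsLocalization.isAlgebraic _ (Submonoid.powers (h.map (algebraMap A k)))
  have : Algebra.IsAlgebraic k[X] Ω := .trans k[X] B' Ω
  have : Algebra.IsAlgebraic A[X] Ω := .trans A[X] k[X] Ω
  have hi : ∀ a b : A[X], algebraMap B Ω (algebraMap A[X] B a) =
      algebraMap B Ω (algebraMap A[X] B b) → a = b := fun a b e =>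
    Polynomial.map_injective _ hA (IsLocalization.injective B'
      (powers_le_nonZeroDivisors_of_noZeroDivisors hh) (hB' (by rw [← hβ, ← hβ, e])))
  refine ⟨(faithfulSMul_iff_algebraMap_injective _ _).2
    ((IsLocalization.injective_iff_map_algebraMap_eq (Submonoid.powers h) _).2 fun a b =>
      ⟨fun e => congrArg _ e, fun e => congrArg _ (hi a b e)⟩),
    Algebra.IsAlgebraic.extendScalars (R := A[X]) fun a b e => hi a b (congrArg _ e)⟩

/-- The rank of the top cohomology of a fibre is the rank of the coinvariants. -/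
theorem r2_rank (hD : DU2_s) (hC : GdCof_s) (hJ : JSH_s) (hN : NTC_s) (hA : ALG_s) (l : ℕ)
    [Fact l.Prime] {A k B Ω : Type} [CommRing A] (L : PL (Spec (.of A))) (h : A[X])
    [IsOpenImmersion (L.u h)] [Field k] [IsAlgClosed k] (τ : A →+* k) [CommRing B] [Algebra k[X] B]
    [IsLocalization.Away (h.map τ) B] [Field Ω] [IsAlgClosed Ω] [Algebra B Ω] [FaithfulSMul B Ω]
    [Algebra.IsAlgebraic B Ω] [Algebra (Localization.Away h) Ω] (hh : IsUnit h.leadingCoeff)
    (hl : (l : k) ≠ 0) (hlΩ : (l : Ω) ≠ 0)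
    (hβ : ∀ q, algebraMap (Localization.Away h) Ω (algebraMap A[X] _ q) =
      algebraMap B Ω (algebraMap k[X] B (q.map τ)))
    (hx : spc (algebraMap (Localization.Away h) Ω) ≫ L.u h = (ob (uk L τ B) Ω).hom)
    (G : Sh (Scheme.etaleTopology.over (Spec (.of (Localization.Away h))))) (hG : Lcf l G) {M : Type 1} [AddCommGroup M]
    (π : sec G (ob (𝟙 _) Ω) →+ M) (hM : Cof l M) (h1 : Surjective π)
    (h2 : π.ker = AddSubgroup.closure
      {n | ∃ (g : Ω ≃ₐ[Localization.Away h] Ω) (m : sec G (ob (𝟙 _) Ω)),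
        (∀ c, g (((algebraMap B Ω).comp ((algebraMap k[X] B).comp C)) c) =
          ((algebraMap B Ω).comp ((algebraMap k[X] B).comp C)) c) ∧
        n = E4.gal (𝟙 _) Ω G.obj g m - m}) :
    rk l (sec ((Rc L h 2).obj G) (Over.mk (spc τ))) = rk l M := by
  set F := (js L h).obj G
  have hF : Gd l L h F := hJ.gd l L h G hG
  obtain ⟨e, e1, e2, -⟩ := hD l A L h F hh hF k B Ω τ hl
  obtain ⟨P, P1, P2, -⟩ := twi_pt hJ L h
  have hy : (spc (algebraMap (Localization.Away h) Ω) ≫ 𝟙 _) ≫ L.u h = (ob (uk L τ B) Ω).hom := by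
    rw [Category.comp_id, hx]
  let pe : sec F (ob (uk L τ B) Ω) →+ sec G (ob (𝟙 _) Ω) := P G _ _ hy
  have pe1 : Bijective pe := P1 G _ _ _ hy
  have pe2 (σ : Ω ≃ₐ[B] Ω) (g : Ω ≃ₐ[Localization.Away h] Ω) (hg : ∀ z, σ z = g z) (m) :
      pe (E4.gal (uk L τ B) Ω F.obj σ m) = E4.gal (𝟙 _) Ω G.obj g (pe m) :=
    P2 G _ _ _ _ _ _ hy hy (act _ Ω σ) (act _ Ω g) (congrArg spc (RingHom.ext hg)) m
  have q1 : Surjective (π.comp pe) := h1.comp pe1.2
  let c : (M →+ MuI l Ω) →+ sec F (ob (uk L τ B) Ω) →+ MuI l Ω :=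
    AddMonoidHom.compHom' (π.comp pe)
  have c1 : Injective c := fun a b hab => AddMonoidHom.ext fun m => by
    obtain ⟨m, rfl⟩ := q1 m
    exact DFunLike.congr_fun hab m
  have hr : e.range = c.range := AddSubgroup.ext fun a => (e2 a).trans ⟨fun ha => ?_, ?_⟩
  · let e' := ((AddMonoidHom.ofInjective e1).trans (AddEquiv.addSubgroupCongr hr)).trans
      (AddMonoidHom.ofInjective c1).symm
    exact (hA.iso l _ (AddMonoidHom.id _) (AddMonoidHom.id _) (hN.stk L.π F 2 k (spc τ))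
      fun _ => rfl).2.1.symm.trans
      (hA.dual l Ω hlΩ ((hC l A L h F hh hF k _ hl).2 2) hM e'.toAddMonoidHom e'.bijective).1
  · have hk : (π.comp pe).ker ≤ a.ker := fun m hm => by
      have : π.ker ≤ a.ker.map pe := h2.trans_le <| (AddSubgroup.closure_le _).2 <| by
        rintro _ ⟨g, n, hg, rfl⟩
        obtain ⟨n, rfl⟩ := pe1.2 n
        have hb : (g : Ω →+* Ω).comp (algebraMap B Ω) = algebraMap B Ω :=
          IsLocalization.ringHom_ext (Submonoid.powers (h.map τ)) <|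
            Polynomial.ringHom_ext hg <| by
              have := g.commutes (algebraMap A[X] _ Polynomial.X)
              rwa [hβ, map_X] at this
        let σ : Ω ≃ₐ[B] Ω := AlgEquiv.ofRingEquiv (f := g.toRingEquiv) (RingHom.congr_fun hb)
        exact ⟨E4.gal (uk L τ B) Ω F.obj σ n - n, (map_sub a _ _).trans (sub_eq_zero.2 (ha σ n)),
          (map_sub pe _ _).trans (congrArg (· - pe n) (pe2 σ g (fun _ => rfl) n))⟩
      obtain ⟨n, hn, hnm⟩ := this hm
      exact pe1.1 hnm ▸ hn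
    exact ⟨(π.comp pe).liftOfSurjective q1 ⟨a, hk⟩,
      AddMonoidHom.liftOfRightInverse_comp _ _ (rightInverse_surjInv q1) ⟨a, hk⟩⟩
  · rintro ⟨b, rfl⟩ σ m
    have hb : (σ : Ω →+* Ω).comp (algebraMap (Localization.Away h) Ω) = algebraMap _ Ω :=
      IsLocalization.ringHom_ext (Submonoid.powers h) <| RingHom.ext fun q => by
        have := σ.commutes (algebraMap k[X] B (q.map τ))
        rwa [← hβ] at this
    let g : Ω ≃ₐ[Localization.Away h] Ω :=
      AlgEquiv.ofRingEquiv (f := σ.toRingEquiv) (RingHom.congr_fun hb)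
    have : _ ∈ π.ker := h2.ge (AddSubgroup.subset_closure ⟨g, pe m, fun _ => σ.commutes _, rfl⟩)
    exact congrArg b ((congrArg π (pe2 σ g (fun _ => rfl) m)).trans
      (sub_eq_zero.1 ((map_sub π _ _).symm.trans this)))

theorem r2 (hO : COI_s) (hD : DU2_s) (hC : GdCof_s) (hR : RCL_s) (hJ : JSH_s) (hS : SUB_s)
    (hG : GE_s) (hA : ALG_s) (hN : NTC_s) : R2_s := by
  intro l _ A _ L r a _ a₁ hs h₁ G hG'
  have := hs.nice.dom
  have := hs.nice.nor
  let k := AlgebraicClosure (FractionRing A)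
  have : FaithfulSMul A k := (faithfulSMul_iff_algebraMap_injective _ _).2 <| by
    rw [IsScalarTower.algebraMap_eq A (FractionRing A) k]
    exact (algebraMap (FractionRing A) k).injective.comp (IsFractionRing.injective _ _)
  have : Algebra.IsAlgebraic A k :=
    (IsFractionRing.comap_isAlgebraic_iff (K := FractionRing A)).2 inferInstance
  have hm : (hp a).Monic := monic_prod_of_monic _ _ fun i _ => monic_X_sub_C (a i)
  have hh : IsUnit (hp a).leadingCoeff := hm.leadingCoeff ▸ isUnit_one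
  have h0 := (hm.map (algebraMap A k)).ne_zero
  obtain ⟨Ω, _, _, _, _, _, -⟩ := twi_alg k _ h0
  set B := Localization.Away ((hp a).map (algebraMap A k))
  obtain ⟨β, hβ, hx⟩ := twi_gen L (hp a) (algebraMap A k) B Ω
  let _ := β.toAlgebra
  obtain ⟨_, _⟩ := r2_alg (B := Localization.Away (hp a)) (B' := B) (Ω := Ω) (hp a) h0 hβ
  let ι : k →+* Ω := (algebraMap B Ω).comp ((algebraMap k[X] B).comp C)
  have hl : (l : k) ≠ 0 := map_natCast (algebraMap A k) l ▸ (hs.unit.map _).ne_zero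
  have hlΩ : (l : Ω) ≠ 0 := fun e => hl (ι.injective (by rw [map_natCast, e, map_zero]))
  obtain ⟨K, W, i, p, hi, hip, hp', hK, hW, hr⟩ := hO l (hp a) a₁ k Ω ι
    (RingHom.ext fun c => ((hβ (C c)).trans (by rw [map_C]; rfl)).symm) hs.unit
    (by simpa [hp, eval_prod, IsUnit.prod_univ_iff] using h₁) G hG'
  refine ⟨K, W, i, p, hi, hip, hp', hK, hW, ?_⟩
  have hPW := hG.lcfPb l (gu (hp a)) W hW
  have hk := (hN.ex i p hip Ω _).addMonoidHom_ker_eq.trans hr
  have hon := hN.epi p hp' Ω (spc β ≫ 𝟙 _)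
  have r₁ := r2_rank hD hC hJ hN hA l L (hp a) _ hh hl hlΩ hβ hx G hG' _ (hPW.2.2 Ω _ hlΩ) hon hk
  have r₂ := r2_rank hD hC hJ hN hA l L (hp a) _ hh hl hlΩ hβ hx _ hPW (AddMonoidHom.id _)
    (hPW.2.2 Ω _ hlΩ) surjective_id <| le_antisymm
      (fun m hm => (show m = 0 from hm) ▸ zero_mem _) <| (AddSubgroup.closure_le _).2 <| by
        rintro _ ⟨g, m, hg, rfl⟩
        obtain ⟨m, rfl⟩ := hon m
        have := hk.ge (AddSubgroup.subset_closure ⟨g, m, hg, rfl⟩)
        rw [AddMonoidHom.mem_ker, map_sub] at this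
        exact (congrArg (· - _) (nat p.hom (act _ Ω g) m)).symm.trans this
  obtain ⟨-, δ, ⟨w, hδ⟩, -⟩ := hJ.les L _ i p hi hip hp' 2
  have he : Epi ((Rc L (hp a) 2).map p) :=
    hδ.epi_f ((((hR l L a hs).1 K hK).2.2 0).eq_of_tgt _ _)
  have l₁ := ((hR l L a hs).1 G hG').1 2
  have l₀ := (hG.thick l _).ker ((Rc L (hp a) 2).map p) l₁ (((hR l L a hs).1 _ hPW).1 2)
  have (x) (e : x = spc (algebraMap A k)) :
      rk l (sec (kernel ((Rc L (hp a) 2).map p)) (Over.mk x)) = 0 := by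
    have := (hG.add l (kernel.ι _) _ inferInstance ⟨_, ShortComplex.exact_kernel _⟩ he l₁.2.2 k
      (spc (algebraMap A k))).1 hl
    rw [r₁, r₂] at this
    rw [e]
    exact Nat.add_right_cancel (this.symm.trans (zero_add _).symm)
  exact hS.nul l A k _ hs.unit l₀ (this _ (Category.comp_id _))

end Pool.Agent.MP_855f4c_ag.E.U

end

section

set_option autoImplicit false
set_option backward.isDefEq.respectTransparency false

open CategoryTheory Limits Abelian Opposite AlgebraicGeometry Polynomial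

namespace Pool.Agent.MP_855f4c_ag.E.U

open E3 E4 Function

lemma rcl_cof {l : ℕ} {M N : Type 1} [AddCommGroup M] [AddCommGroup N] (e : M →+ N)
    (he : Bijective e) (h : Cof l M) : Cof l N := by
  refine ⟨fun n => ?_, (h.2.image e).subset fun n (hn : l • n = 0) => ?_⟩
  · obtain ⟨m, rfl⟩ := he.2 n
    exact (h.1 m).imp fun k hk => by rw [← map_nsmul, hk, map_zero]
  · obtain ⟨m, rfl⟩ := he.2 n
    exact ⟨m, he.1 (by rw [map_nsmul, hn, map_zero]), rfl⟩

lemma rcl_lc {A : Type} [CommRing A] {r : ℕ} (a : Fin r → A) : IsUnit (hp a).leadingCoeff := by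
  rw [show (hp a).leadingCoeff = 1 from monic_prod_of_monic _ _ fun i _ => monic_X_sub_C (a i)]
  exact isUnit_one

lemma rcl_eval₂ {A C : Type} [CommRing A] [CommRing C] {r : ℕ} (a : Fin r → A) (φ : A →+* C)
    (c : C) : eval₂ φ c (hp a) = ∏ i, (c - φ (a i)) := by
  simp [hp, eval₂_finsetProd]

lemma rcl_eval {A : Type} [CommRing A] {r : ℕ} (a : Fin r → A) (i : Fin r) :
    (hp a).eval (a i) = 0 :=
  (rcl_eval₂ a (RingHom.id A) _).trans (Finset.prod_eq_zero (Finset.mem_univ i) (sub_self _))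

theorem rcl (hP : PBC_s) (hGL : GL_s) (hC : GdCof_s) (hD : CD3_s) (hTF : TF_s) (hCT : CT_s)
    (hJ : JSH_s) (hN : NTC_s) (hA : ALG_s) : RCL_s := by
  intro l _ A _ L r a _ hs
  have hl : Linv l (Spec (.of A)) := Linv.spec hs.unit
  refine ⟨fun G hG => ?_, fun G hG k _ _ t Q ψ e => ?_,
    fun w G G₁ G' i p _ _ hG' hG₁ hG hw k _ _ t Q ψ e j => ?_⟩
  · have g := hJ.gd l L _ G hG
    refine ⟨fun b => ⟨hP l _ L _ b g.1, hGL l A L _ a _ hs.nice hs.unit hs.disj g b,
      fun k _ _ x hk => rcl_cof _ (hN.stk L.π _ b k x) ((hC l A L _ _ (rcl_lc a) g k x hk).2 b)⟩,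
      hN.ptz l _ hl (hP l _ L _ 0 g.1) fun k _ _ x s => ?_,
      fun b => hN.ptz l _ hl (hP l _ L _ _ g.1) fun k _ _ x s => ?_⟩
    · obtain ⟨s, rfl⟩ := (hN.stk L.π _ 0 k x).2 s
      rw [(hC l A L _ _ (rcl_lc a) g k x (hl k x)).1 s, map_zero]
    · obtain ⟨s, rfl⟩ := (hN.stk L.π _ (b + 3) k x).2 s
      rw [hD l _ L _ g.1 k x (hl k x) b s, map_zero]
  · have h (b) := (hA.iso l _ (Hact L.π ((js L (hp a)).obj G) b ψ e.fix) (rsec (sph ψ e.fix) _)
      (hN.stk L.π _ b k t) (stk_res L.π _ b _)).1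
    have h0 := hTF l A L _ _ _ (rcl_lc a) (rcl_eval a 0) (hJ.gd l L _ G hG.1) k t Q ψ e
    rw [h, h] at h0
    refine Exists.imp (fun c hc => h0.symm.trans hc) ?_
    refine finsum_induction (fun z : ℚ_[l] => ∃ c : ℚ, z = c) ⟨0, Rat.cast_zero.symm⟩ ?_
      fun x => hJ.rat l L _ G hG.2 k x.1 Q ψ ⟨e.ne, e.lt, e.pow, e.alg, x.2.2⟩
    rintro _ _ ⟨c, rfl⟩ ⟨d, rfl⟩
    exact ⟨c + d, (Rat.cast_add c d).symm⟩
  · obtain ⟨_, _, _⟩ := hJ.exa L (hp a)
    exact ((hA.iso l _ (Hact L.π ((js L (hp a)).obj G) 1 ψ e.fix) (rsec (sph ψ e.fix) _)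
      (hN.stk L.π _ 1 k t) (stk_res L.π _ 1 _)).2.2 j _).1
      (hCT l A L _ _ _ _ _ ((js L (hp a)).map i) ((js L (hp a)).map p) w (rcl_lc a) (rcl_eval a 0)
        (hJ.gd l L _ G hG) (hJ.gd l L _ G₁ hG₁) (hJ.gd l L _ G' hG'.1) (hJ.rat l L _ G' hG'.2)
        (hJ.wt l w L _ G hw) k t Q ψ e j)

theorem cms (hM : CM_s) (hJ : JSH_s) (hS : STRIP_s) (hG : GE_s) : CMS_s := by
  intro l _ A _ L r a a₁ hs h₁ w F hF hu ha hi
  let z : Option (Fin (r + 1)) → (Spec (.of A) ⟶ P1) := fun i => i.elim (pt2 0) fun i => pt1 (a i)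
  refine hS l w L.π (L.u (hp a)).opensRange (fun i => L.pnt (𝟙 _) (z i)) F (Linv.spec hs.unit) hF
    (fun i => inferInstance) (fun i => L.pnt_π _ _) (fun i y => ?_) (fun k _ _ x ⟨t, ht⟩ => ?_)
    (fun i => ?_) fun b => ?_
  · cases i with
    | none => exact L.pt2_zero_notMem_u _ _ y
    | some i =>
      have := L.pt1_mem_u (hp a) (RingHom.id A) (a i) y
      rw [CommRingCat.ofHom_id, Spec.map_id] at this
      exact fun h => this.1 h ((congrArg (· ∈ y.asIdeal) (rcl_eval a i)).mpr (zero_mem _))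
  · obtain ⟨φ, hφ⟩ := Spec.map_surjective (x ≫ L.π)
    have h0 : x = (x ≫ L.π) ≫ L.pnt (𝟙 _) (z none) ↔ x ≫ L.q = pt2 0 := by
      rw [L.comp_pnt, Category.comp_id]
      nth_rewrite 1 [← L.pnt_eta x]
      rw [L.pnt_inj, and_iff_right rfl, ← hφ]
      exact Eq.congr_right ((map_pt2 φ.hom 0).trans (congrArg _ (map_zero _)))
    have h1 (i) : x = (x ≫ L.π) ≫ L.pnt (𝟙 _) (z (some i)) ↔ x ≫ L.q = pt1 (φ.hom (a i)) := by
      rw [L.comp_pnt, Category.comp_id]
      nth_rewrite 1 [← L.pnt_eta x]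
      rw [L.pnt_inj, and_iff_right rfl, ← hφ]
      exact Eq.congr_right (map_pt1 φ.hom _)
    obtain ⟨c, hc⟩ | hc := pt_field (x ≫ L.q)
    · have h2 : eval₂ φ.hom c (hp a) ∈ t.asIdeal := by
        by_contra h
        refine ht ?_
        rw [← L.pnt_eta x, ← hφ, hc]
        exact (L.pt1_mem_u _ φ.hom c t).2 h
      rw [(eq_bot_or_eq_top t.asIdeal).resolve_right t.isPrime.ne_top, Ideal.mem_bot, rcl_eval₂,
        Finset.prod_eq_zero_iff] at h2
      obtain ⟨i, -, h2⟩ := h2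
      rw [sub_eq_zero] at h2
      refine ⟨some i, (h1 i).2 (h2 ▸ hc), fun j hj => ?_⟩
      cases j with
      | none => exact (pt1_ne_pt2_zero c (hc.symm.trans (h0.1 hj))).elim
      | some j =>
        refine congrArg _ (by_contra fun h => ((hs.disj j i h).map φ.hom).ne_zero ?_)
        rw [map_sub, ← h2, ← pt1_inj.1 (hc.symm.trans ((h1 j).1 hj)), sub_self]
    · refine ⟨none, h0.2 hc, fun j hj => ?_⟩
      cases j with
      | none => rfl
      | some j => exact (pt1_ne_pt2_zero _ (((h1 j).1 hj).symm.trans hc)).elim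
  · cases i with
    | none => exact hi
    | some i => exact ha i
  · obtain ⟨e⟩ := hJ.ez L (hp a) F
    exact hG.cwIso l _ ⟨((Rq L.π b).mapIso e).symm⟩ (hM l L a a₁ hs h₁ w _ hu b)

end Pool.Agent.MP_855f4c_ag.E.U

end

section

set_option autoImplicit false

open CategoryTheory Limits AlgebraicGeometry Polynomial TensorProduct

namespace Pool.Agent.MP_855f4c_ag.E.U

namespace Spf

lemma ft_closure {Ω : Type} [Field Ω] (t : Set Ω) (ht : t.Finite) :
    Algebra.FiniteType ℤ (Subring.closure t) := by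
  have := ht.to_subtype
  let f : MvPolynomial t ℤ →ₐ[ℤ] Subring.closure t :=
    MvPolynomial.aeval fun x => ⟨x, Subring.subset_closure x.2⟩
  refine Algebra.FiniteType.of_surjective f ?_
  rintro ⟨x, hx⟩
  induction hx using Subring.closure_induction with
  | mem x hx => exact ⟨MvPolynomial.X ⟨x, hx⟩, by simp [f]⟩
  | zero => exact ⟨0, map_zero f⟩
  | one => exact ⟨1, map_one f⟩
  | add x y _ _ h1 h2 =>
    obtain ⟨a, ha⟩ := h1
    obtain ⟨b, hb⟩ := h2
    exact ⟨a + b, by rw [map_add, ha, hb]; rfl⟩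
  | neg x _ h1 =>
    obtain ⟨a, ha⟩ := h1
    exact ⟨-a, by rw [map_neg, ha]; rfl⟩
  | mul x y _ _ h1 h2 =>
    obtain ⟨a, ha⟩ := h1
    obtain ⟨b, hb⟩ := h2
    exact ⟨a * b, by rw [map_mul, ha, hb]; rfl⟩

lemma gens {Ω : Type} [Field Ω] (A : Subring Ω) (h : Algebra.FiniteType ℤ A) :
    ∃ t : Set Ω, t.Finite ∧ A ≤ Subring.closure t := by
  obtain ⟨t, ht⟩ := h.out
  refine ⟨Subtype.val '' (t : Set A), t.finite_toSet.image _, fun x hx => ?_⟩
  have key : ∀ y : A, y ∈ Algebra.adjoin ℤ (t : Set A) →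
      (y : Ω) ∈ Subring.closure (Subtype.val '' (t : Set A)) := by
    intro y hy
    induction hy using Algebra.adjoin_induction with
    | mem y hy => exact Subring.subset_closure ⟨y, hy, rfl⟩
    | algebraMap r => simp
    | add x y _ _ h1 h2 => exact add_mem h1 h2
    | mul x y _ _ h1 h2 => exact mul_mem h1 h2
  exact key ⟨x, hx⟩ (ht ▸ Algebra.mem_top)

lemma big (Ω : Type) [Field Ω] (I : Type) [Finite I] (A : I → Subring Ω) (s : Set Ω)
    (hs : s.Finite) (h : ∀ i, Algebra.FiniteType ℤ (A i)) :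
    ∃ A' : Subring Ω, Algebra.FiniteType ℤ A' ∧ (∀ i, A i ≤ A') ∧ ∀ x ∈ s, x ∈ A' ∧ x⁻¹ ∈ A' := by
  choose t ht hA using fun i => gens (A i) (h i)
  refine ⟨Subring.closure ((⋃ i, t i) ∪ (s ∪ (fun x => x⁻¹) '' s)),
    ft_closure _ ((Set.finite_iUnion ht).union (hs.union (hs.image _))), fun i => (hA i).trans
      (Subring.closure_mono fun x hx => Or.inl (Set.mem_iUnion.2 ⟨i, hx⟩)), fun x hx =>
    ⟨Subring.subset_closure (Or.inr (Or.inl hx)),
      Subring.subset_closure (Or.inr (Or.inr ⟨x, hx, rfl⟩))⟩⟩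

lemma ft_range {R Ω : Type} [CommRing R] [Algebra.FiniteType ℤ R] [Field Ω] (f : R →+* Ω) :
    Algebra.FiniteType ℤ f.range :=
  Algebra.FiniteType.of_surjective f.rangeRestrict.toIntAlgHom f.rangeRestrict_surjective

lemma unit_of {Ω : Type} [Field Ω] {A : Subring Ω} {x : A} (h0 : (x : Ω) ≠ 0)
    (h : (x : Ω)⁻¹ ∈ A) : IsUnit x :=
  IsUnit.of_mul_eq_one (⟨_, h⟩ : A) (Subtype.ext (mul_inv_cancel₀ h0))

lemma ext_span {A₀ C k : Type} [CommRing A₀] [CommRing C] [Algebra A₀ C] [CommRing k]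
    {s : Set C} (hs : Submodule.span A₀ s = ⊤) {f g : C →+* k}
    (h0 : f.comp (algebraMap A₀ C) = g.comp (algebraMap A₀ C)) (h : ∀ c ∈ s, f c = g c) :
    f = g := by
  ext c
  have hc : c ∈ Submodule.span A₀ s := hs ▸ Submodule.mem_top
  induction hc using Submodule.span_induction with
  | mem c hc => exact h c hc
  | zero => simp
  | add x y _ _ h1 h2 => rw [map_add, map_add, h1, h2]
  | smul a x _ h1 =>
    rw [Algebra.smul_def, map_mul, map_mul, h1]
    exact congrArg (· * g x) (RingHom.congr_fun h0 a)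

lemma fin_pts {A₀ C Ω : Type} [CommRing A₀] [CommRing C] [Algebra A₀ C] [Module.Finite A₀ C]
    [Field Ω] (ι : A₀ →+* Ω) : Finite {τ : C →+* Ω // τ.comp (algebraMap A₀ C) = ι} := by
  classical
  obtain ⟨s, hs⟩ := Module.Finite.fg_top (R := A₀) (M := C)
  choose p hp hp0 using fun c : C => (Algebra.IsIntegral.isIntegral (R := A₀) c)
  let F : {τ : C →+* Ω // τ.comp (algebraMap A₀ C) = ι} →
      ∀ c : s, ((p c).map ι).roots.toFinset := fun τ c => ⟨τ.1 c, by
    rw [Multiset.mem_toFinset, mem_roots ((hp c).map ι).ne_zero, IsRoot.def, Polynomial.eval_map]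
    have h := hom_eval₂ (p c) (algebraMap A₀ C) τ.1 c
    rw [τ.2, hp0, map_zero] at h
    exact h.symm⟩
  refine Finite.of_injective F fun τ σ h => Subtype.ext (ext_span hs (τ.2.trans σ.2.symm) ?_)
  intro c hc
  exact congrArg Subtype.val (congrFun h ⟨c, hc⟩)

/-- An element of a finite algebra that vanishes at all `Ω`-points is generically nilpotent. -/
lemma gen_nil {Ω D : Type} [Field Ω] [IsAlgClosed Ω] (A : Subring Ω) [CommRing D] [Algebra A D]
    [Algebra.IsIntegral A D] (x : D) (hx : ∀ σ : D →ₐ[A] Ω, σ x = 0) :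
    ∃ a : A, a ≠ 0 ∧ ∃ N : ℕ, algebraMap A D a * x ^ N = 0 := by
  by_contra hne
  push Not at hne
  let S : Submonoid D :=
    { carrier := {y | ∃ a : A, a ≠ 0 ∧ ∃ N : ℕ, y = algebraMap A D a * x ^ N}
      one_mem' := ⟨1, one_ne_zero, 0, by simp⟩
      mul_mem' := by
        rintro _ _ ⟨a, ha, N, rfl⟩ ⟨b, hb, M, rfl⟩
        exact ⟨a * b, mul_ne_zero ha hb, N + M, by rw [map_mul, pow_add]; ring⟩ }
  obtain ⟨P, hP, -, hd⟩ := Ideal.exists_le_prime_disjoint (⊥ : Ideal D) S (by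
    rw [Set.disjoint_left]
    rintro y hy ⟨a, ha, N, rfl⟩
    exact hne a ha N hy)
  rw [Set.disjoint_left] at hd
  have hinj : Function.Injective (algebraMap A (D ⧸ P)) := by
    rw [injective_iff_map_eq_zero]
    intro a ha
    by_contra h0
    refine hd (a := algebraMap A D a) (Ideal.Quotient.eq_zero_iff_mem.1 ha) ⟨a, h0, 0, by simp⟩
  have : FaithfulSMul A (D ⧸ P) := (faithfulSMul_iff_algebraMap_injective _ _).2 hinj
  have : Algebra.IsIntegral A (D ⧸ P) :=
    Algebra.IsIntegral.of_surjective (Ideal.Quotient.mkₐ A P) Ideal.Quotient.mk_surjective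
  let σ : (D ⧸ P) →ₐ[A] Ω := IsAlgClosed.lift
  have hk : RingHom.ker σ = ⊥ := by
    refine Ideal.eq_bot_of_comap_eq_bot (R := A) ?_
    rw [eq_bot_iff]
    intro a ha
    have h1 : σ (algebraMap A _ a) = 0 := ha
    rw [σ.commutes] at h1
    exact Subtype.ext h1
  have h1 : Ideal.Quotient.mk P x ∈ RingHom.ker σ := hx (σ.comp (Ideal.Quotient.mkₐ A P))
  rw [hk, Ideal.mem_bot, Ideal.Quotient.eq_zero_iff_mem] at h1
  exact hd h1 ⟨1, one_ne_zero, 1, by simp⟩

end Spf

open Spf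

theorem spf : SPF_s := by
  refine ⟨fun Ω _ I _ A s h => big Ω I A s s.finite_toSet h, ?_⟩
  intro A₀ C Ω _ _ _ _ _ _ _ ι
  classical
  have := fin_pts (C := C) ι
  obtain ⟨n, ⟨e⟩⟩ := Finite.exists_equiv_fin {τ : C →+* Ω // τ.comp (algebraMap A₀ C) = ι}
  obtain ⟨s, hs⟩ := Module.Finite.fg_top (R := A₀) (M := C)
  have hC : Algebra.FiniteType ℤ C := Algebra.FiniteType.trans (S := A₀) inferInstance inferInstance
  let t : Fin n → (C →+* Ω) := fun i => (e.symm i).1
  have ht : ∀ i, (t i).comp (algebraMap A₀ C) = ι := fun i => (e.symm i).2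
  obtain ⟨A₁, hA₁, hle, -⟩ := big Ω (Option (Fin n))
    (fun o => o.elim ι.range fun i => (t i).range) ∅ Set.finite_empty
    (by rintro (_ | i); exacts [ft_range ι, ft_range (t i)])
  let α₁ : A₀ →+* A₁ := ι.codRestrict A₁ fun a => hle none ⟨a, rfl⟩
  let t₁ : Fin n → (C →+* A₁) := fun i => (t i).codRestrict A₁ fun c => hle (some i) ⟨c, rfl⟩
  let _ : Algebra A₀ A₁ := α₁.toAlgebra
  let x : (Fin n → s) → A₁ ⊗[A₀] C := fun κ =>
    ∏ i, ((1 : A₁) ⊗ₜ[A₀] (κ i : C) - t₁ i (κ i) ⊗ₜ[A₀] (1 : C))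
  have hx : ∀ κ, ∃ a : A₁, a ≠ 0 ∧ ∃ N : ℕ, algebraMap A₁ (A₁ ⊗[A₀] C) a * x κ ^ N = 0 := by
    intro κ
    refine gen_nil A₁ (x κ) fun σ => ?_
    let τ : C →+* Ω := σ.toRingHom.comp Algebra.TensorProduct.includeRight.toRingHom
    have hτ : τ.comp (algebraMap A₀ C) = ι := by
      ext a
      have h1 : (1 : A₁) ⊗ₜ[A₀] (algebraMap A₀ C a) = algebraMap A₁ (A₁ ⊗[A₀] C) (α₁ a) := by
        rw [Algebra.TensorProduct.algebraMap_apply, ← Algebra.TensorProduct.algebraMap_apply']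
        rfl
      change σ ((1 : A₁) ⊗ₜ[A₀] (algebraMap A₀ C a)) = _
      rw [h1, σ.commutes]
      rfl
    have hi : t (e ⟨τ, hτ⟩) = τ := by simp [t]
    rw [map_prod]
    refine Finset.prod_eq_zero (Finset.mem_univ (e ⟨τ, hτ⟩)) ?_
    have h2 : σ (t₁ (e ⟨τ, hτ⟩) (κ (e ⟨τ, hτ⟩)) ⊗ₜ[A₀] (1 : C)) = τ (κ (e ⟨τ, hτ⟩)) :=
      (σ.commutes _).trans (RingHom.congr_fun hi _)
    rw [map_sub, h2]
    exact sub_self _
  choose a ha N hN using hx
  obtain ⟨A, hA, hle2, hinv⟩ := big Ω Unit (fun _ => A₁)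
    (Set.range (fun κ => (a κ : Ω)) ∪
      Set.range fun z : Fin n × Fin n × s => t z.1 z.2.2 - t z.2.1 z.2.2)
    ((Set.finite_range _).union (Set.finite_range _)) fun _ => hA₁
  let j : A₁ →+* A := Subring.inclusion (hle2 ())
  have hτ : ∀ i, (j.comp (t₁ i)).comp (algebraMap A₀ C) = j.comp α₁ := fun i => by
    ext b
    exact RingHom.congr_fun (ht i) b
  refine ⟨A, hA, j.comp α₁, n, fun i => j.comp (t₁ i), by ext b; rfl, hτ, ?_⟩
  intro k _ φ ψ h
  have hψ : ∀ i, (ψ.comp (j.comp (t₁ i))).comp (algebraMap A₀ C) = φ.comp (algebraMap A₀ C) :=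
    fun i => by rw [RingHom.comp_assoc, hτ, h]
  refine existsUnique_of_exists_of_unique ?_ ?_
  · by_contra hne
    push Not at hne
    have h1 : ∀ i, ∃ c : s, φ c ≠ ψ (j (t₁ i c)) := fun i => by
      by_contra h2
      push Not at h2
      exact hne i (ext_span hs (hψ i).symm fun c hc => h2 ⟨c, hc⟩)
    choose κ hκ using h1
    let _ : Algebra A₀ k := (φ.comp (algebraMap A₀ C)).toAlgebra
    let φ' : C →ₐ[A₀] k := ⟨φ, fun _ => rfl⟩
    let ψ' : A₁ →ₐ[A₀] k := ⟨ψ.comp j, fun b => (RingHom.congr_fun h b).symm⟩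
    let χ : A₁ ⊗[A₀] C →ₐ[A₀] k :=
      Algebra.TensorProduct.lift ψ' φ' fun _ _ => Commute.all _ _
    have h3 := congrArg χ (hN κ)
    rw [map_mul, map_pow, map_zero, Algebra.TensorProduct.algebraMap_apply,
      Algebra.TensorProduct.lift_tmul, map_one, mul_one, map_prod] at h3
    have hu : IsUnit (j (a κ)) :=
      unit_of (fun h0 => ha κ (Subtype.ext h0)) (hinv _ (Or.inl ⟨κ, rfl⟩)).2
    rcases mul_eq_zero.1 h3 with h4 | h4
    · exact (hu.map ψ).ne_zero h4
    · obtain ⟨i, -, hi⟩ := Finset.prod_eq_zero_iff.1 (eq_zero_of_pow_eq_zero h4)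
      rw [map_sub, Algebra.TensorProduct.lift_tmul, Algebra.TensorProduct.lift_tmul, map_one,
        map_one, one_mul, mul_one, sub_eq_zero] at hi
      exact hκ i hi
  · intro i i' hi hi'
    by_contra hne
    have h1 : ∃ c : s, t i c ≠ t i' c := by
      by_contra h2
      push Not at h2
      exact hne (e.symm.injective (Subtype.ext
        (ext_span hs ((ht i).trans (ht i').symm) fun c hc => h2 ⟨c, hc⟩)))
    obtain ⟨c, hc⟩ := h1
    have hu : IsUnit (j (t₁ i c) - j (t₁ i' c)) :=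
      unit_of (sub_ne_zero.2 hc) (hinv _ (Or.inr ⟨(i, i', c), rfl⟩)).2
    refine (hu.map ψ).ne_zero ?_
    rw [map_sub, sub_eq_zero]
    exact (RingHom.congr_fun hi c).symm.trans (RingHom.congr_fun hi' c)

theorem spo : SPO_s := by
  intro A₀ Ω _ _ _ ι X a₀ O
  let p : PrimeSpectrum A₀ := ⟨RingHom.ker ι, RingHom.ker_isPrime ι⟩
  let U : Set (PrimeSpectrum A₀) := {q | a₀ q ∈ O}
  have hU : IsOpen U := (a₀ ⁻¹ᵁ O).isOpen
  by_cases hp : p ∈ U
  · left
    obtain ⟨_, ⟨f, rfl⟩, hf, hfU⟩ :=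
      PrimeSpectrum.isTopologicalBasis_basic_opens.exists_subset_of_mem_open hp hU
    obtain ⟨A, hA, hle, hinv⟩ := big Ω Unit (fun _ => ι.range) {ι f} (Set.finite_singleton _)
      fun _ => ft_range ι
    let α : A₀ →+* A := ι.codRestrict A fun b => hle () ⟨b, rfl⟩
    refine ⟨A, hA, α, by ext b; rfl, fun B _ β t => ?_⟩
    have hu : IsUnit (α f) := unit_of hf (hinv _ rfl).2
    have h1 : PrimeSpectrum.comap (β.comp α) t ∈ U :=
      hfU fun h => t.isPrime.ne_top (Ideal.eq_top_of_isUnit_mem _ h (hu.map β))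
    exact h1
  · right
    refine ⟨ι.range, ft_range ι, ι.rangeRestrict, by ext b; rfl, fun B _ β t h => hp ?_⟩
    have h1 : PrimeSpectrum.comap (β.comp ι.rangeRestrict) t ∈ U := h
    refine Specializes.mem_open ((PrimeSpectrum.le_iff_specializes _ _).1 ?_) hU h1
    intro b hb
    have h2 : ι.rangeRestrict b = 0 := Subtype.ext hb
    change β (ι.rangeRestrict b) ∈ t.asIdeal
    rw [h2, map_zero]
    exact zero_mem _

end Pool.Agent.MP_855f4c_ag.E.U

end

section

set_option autoImplicit false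
set_option backward.isDefEq.respectTransparency false

open CategoryTheory Limits Abelian Opposite AlgebraicGeometry Polynomial

namespace Pool.Agent.MP_855f4c_ag.E.U

open E3 E4 Function

lemma up_comp {A B C : Type} [CommRing A] [CommRing B] [CommRing C] (φ : A →+* B)
    (ψ : B →+* C) : spc ψ ≫ spc φ = spc (ψ.comp φ) := by
  rw [← Spec.map_comp, ← CommRingCat.ofHom_comp]

lemma up_bc {Y S : Scheme.{0}} (L : PL Y) (t : S ⟶ Y) :
    ∃ (L' : PL S) (p : L'.P ⟶ L.P), IsPullback p L'.π L.π t ∧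
      ∀ (T : Scheme.{0}) (s : T ⟶ S) (z : T ⟶ P1), L'.pnt s z ≫ p = L.pnt (s ≫ t) z :=
  ⟨L.bc (Over.mk t), L.bcp _, (L.bc_isPullback _).flip, fun _ s z => L.bc_pnt (Over.mk t) s z⟩

lemma up_pt {Y : Scheme.{0}} (L : PL Y) {A B : Type} [CommRing A] [CommRing B] (γ : A →+* B)
    {A₀ : Type} [CommRing A₀] (α : A₀ →+* A) (a : Spec (.of A₀) ⟶ Y) (z : Spec (.of A) ⟶ P1) :
    spc γ ≫ L.pnt (spc α ≫ a) z = L.pnt (spc (γ.comp α) ≫ a) (spc γ ≫ z) := by
  rw [PL.comp_pnt, ← Category.assoc, up_comp]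

lemma up_two (hG : GE_s) (l : ℕ) [Fact l.Prime] (w : ℕ) {X Y Z : Scheme.{0}} (f : X ⟶ Y)
    (g : Y ⟶ Z) (F : Sh (Scheme.etaleTopology.over Z)) {e : X ⟶ Z} (he : f ≫ g = e) (h : CW l w ((PB e).obj F)) :
    CW l w ((PB f).obj ((PB g).obj F)) := by
  subst he
  obtain ⟨u⟩ := pb_comp f g F
  exact hG.cwIso l w ⟨u.symm⟩ h

lemma up_gen (hR : RATP_s) (hG : GE_s) (hT : NTC_s) (l : ℕ) [Fact l.Prime] (w : ℕ) {B : Type}
    [CommRing B] (L : PL (Spec (.of B))) (q : B[X]) (D : Type) [CommRing D]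
    [Algebra (Localization.Away q) D] (hf : Module.Finite (Localization.Away q) D)
    (he : Algebra.Etale (Localization.Away q) D)
    (hs : Function.Surjective (PrimeSpectrum.comap (algebraMap (Localization.Away q) D)))
    (hu : IsUnit (l : B)) (F : Sh (Scheme.etaleTopology.over L.P)) (ht : Tc l F)
    (h : IsUnit (l : D) → CW l w ((PB (L.pnt
      (spc ((algebraMap (Localization.Away q) D).comp ((algebraMap B[X] _).comp C)))
      (pt1 (algebraMap (Localization.Away q) D (algebraMap B[X] _ X))))).obj F)) :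
    CW l w ((PB (L.u q)).obj F) := by
  have hu' : IsUnit (l : Localization.Away q) := by
    simpa using hu.map ((algebraMap B[X] (Localization.Away q)).comp C)
  have hu'' : IsUnit (l : D) := by simpa using hu'.map (algebraMap _ D)
  have : IsFinite (spc (algebraMap (Localization.Away q) D)) :=
    (IsFinite.SpecMap_iff _).2 (RingHom.finite_algebraMap.2 hf)
  have : Etale (spc (algebraMap (Localization.Away q) D)) :=
    (HasRingHomProperty.Spec_iff (P := @Etale)).2 (RingHom.etale_algebraMap.2 he)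
  have : AlgebraicGeometry.Surjective (spc (algebraMap (Localization.Away q) D)) := ⟨hs⟩
  refine hR.desc l w (spc (algebraMap (Localization.Away q) D)) _ (Linv.spec hu')
    (hT.pb l _ _ ht) (up_two hG l w _ _ _ ?_ (h hu''))
  rw [PL.u, PL.comp_pnt, map_pt1, up_comp]

theorem up (hE : EVT_s) (hS : SPG_s) (hC : CMS_s) (hR : RATP_s) (hG : GE_s) (hN : NRQ_s)
    (hT : NTC_s) (hP : PBC_s) : UP_s := by
  intro LL Y L w F h n
  obtain ⟨htc, hev⟩ := (hE.good LL w F).1 h
  refine (hE.good LL (w + n) _).2 ⟨fun l _ hl => hP l Y L (F l) n (htc l hl), ?_⟩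
  intro A₀ K _ _ _ _ _ ι a
  have : CharZero (AlgebraicClosure (FractionRing K[X])) :=
    charZero_of_injective_ringHom (f := (algebraMap K[X] _).comp C) (RingHom.injective _)
  have : Algebra.IsAlgebraic K[X] (AlgebraicClosure (FractionRing K[X])) :=
    (IsFractionRing.comap_isAlgebraic_iff (K := FractionRing K[X])).2 inferInstance
  have : FaithfulSMul K[X] (AlgebraicClosure (FractionRing K[X])) := by
    rw [faithfulSMul_iff_algebraMap_injective,
      IsScalarTower.algebraMap_eq K[X] (FractionRing K[X]) (AlgebraicClosure (FractionRing K[X]))]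
    exact (algebraMap (FractionRing K[X]) _).injective.comp
      (IsFractionRing.injective K[X] (FractionRing K[X]))
  have : Algebra.FiniteType ℤ A₀[X] := Algebra.FiniteType.trans (S := A₀) inferInstance inferInstance
  obtain ⟨A', _, α', hα', hA'⟩ := hev A₀[X] (AlgebraicClosure (FractionRing K[X]))
    ((algebraMap K[X] _).comp (mapRingHom ι)) (L.pnt (spc C ≫ a) (pt1 X))
  obtain ⟨A, _, α, r, b, b₁, rfl, hb, hb₁, hD⟩ := hS A₀ K _ ι A' α' hα'
  refine hE.trans α A.subtype _ (hE.nice A.subtype LL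
    (fun l _ B _ γ => l ∈ LL ∧
      (∀ i, CW l w ((PB (spc γ ≫ L.pnt (spc α ≫ a) (pt1 (b i)))).obj (F l))) ∧
      CW l w ((PB (spc γ ≫ L.pnt (spc α ≫ a) (pt2 (0 : A)))).obj (F l)))
    (fun l _ B _ γ => CW l (w + n) ((PB (spc (γ.comp α) ≫ a)).obj ((Rq L.π n).obj (F l))))
    ?_ ?_ ?_)
  · intro l _ B B' _ _ γ β hQ
    rw [RingHom.comp_assoc, ← up_comp (γ.comp α) β, Category.assoc]
    exact hG.cwIso l _ (pb_comp _ _ _) ⟨hG.clPb l _ _ hQ.1, hG.wtPb l _ _ _ hQ.2⟩
  · rintro l _ B _ γ hB hu ⟨hl, h1, h2⟩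
    obtain ⟨L', p, hp', hpt⟩ := up_bc L (spc (γ.comp α) ≫ a)
    obtain ⟨u⟩ := hN.bc hp' (F l) n
    have ht := hT.pb l p _ (htc l hl)
    refine hG.cwIso l _ ⟨u.symm⟩ (hC l L' (fun i => γ (b i)) (γ b₁)
      ⟨hB, hu, fun i j hij => by rw [← map_sub]; exact (hb i j hij).map γ⟩
      (fun i => by rw [← map_sub]; exact (hb₁ i).map γ) w _ ht ?_ (fun i => ?_) ?_ n)
    · obtain ⟨D, _, _, hf, he, hs, β', hβ'⟩ := hD B γ
      refine up_gen hR hG hT l w L' _ D hf he hs hu _ ht fun hu' =>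
        up_two hG l w _ _ _ ?_ (hA' D β' l hl hu')
      rw [hpt, up_pt, map_pt1, hβ', ← Category.assoc, up_comp]
      congr 2
      · congr 1
        ext x
        simp
      · simp
    · refine up_two hG l w _ _ _ ?_ (h1 i)
      rw [hpt, up_pt, map_pt1, Category.id_comp]
    · refine up_two hG l w _ _ _ ?_ h2
      rw [hpt, up_pt, map_pt2, Category.id_comp, map_zero]
  · refine hE.mono _ _ _ ?_ (hE.and _ _ _
      (hE.all A.subtype _ fun i => hev A K A.subtype (L.pnt (spc α ≫ a) (pt1 (b i))))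
      (hev A K A.subtype (L.pnt (spc α ≫ a) (pt2 (0 : A)))))
    rintro B _ γ ⟨h1, h2⟩ l _ hl hu
    exact ⟨hl, fun i => h1 i l hl hu, h2 l hl hu⟩

end Pool.Agent.MP_855f4c_ag.E.U

end
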