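import Pool.Agent.MP_855f4c_ag.EC.Xa
import Pool.Agent.MP_855f4c_ag.EC.F1b
import Pool.Agent.MP_855f4c_ag.EC.Pa
import Pool.Agent.MP_855f4c_ag.EC.E4b
import Pool.Agent.MP_855f4c_ag.EC.F2d

section

set_option backward.isDefEq.respectTransparency false

open CategoryTheory Limits Abelian Opposite AlgebraicGeometry Polynomial

namespace Pool.Agent.MP_855f4c_ag.E

open E3 E4

section generic
variable {C : Type 1} [Category.{0} C] {J : GrothendieckTopology C}

/-- `d` is a cocycle attached to the extension class `x`. -/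
def Cx {A G : Sh J} (W : C) {Γ : Type} (a : Γ → (W ⟶ W)) (x : Ext A G 1)
    (d : Γ → A.obj.obj (op W) →+ G.obj.obj (op W)) : Prop :=
  ∃ (E : Sh J) (i : G ⟶ E) (p : E ⟶ A) (w : i ≫ p = 0)
    (hS : (ShortComplex.mk i p w).ShortExact) (y : A.obj.obj (op W) →+ E.obj.obj (op W)),
    (∀ m, p.hom.app _ (y m) = m) ∧ hS.extClass = x ∧
    ∀ g m, i.hom.app _ (d g m) = E.obj.map (a g).op (y m) - y (A.obj.map (a g).op m)

end generic

section
variable (l : ℕ) {Y : Scheme.{0}} {B : Type} [CommRing B] (u : Spec (.of B) ⟶ Y)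

/-- Lisse on the open part. -/
def Lu (G : Sh (Scheme.etaleTopology.over Y)) : Prop := Cc l G ∧ Lis l G.obj (ob u B)

/-- Lisse on the open part and zero outside. -/
def Gu (A : Sh (Scheme.etaleTopology.over Y)) : Prop := Lu l u A ∧ Van l (Set.range u) A

end

/-- Formal properties of `Cx`. -/
def CX_s : Prop := ∀ (C : Type 1) [Category.{0} C] (J : GrothendieckTopology C) (A G : Sh J) (W : C)
  (Γ : Type) (a : Γ → (W ⟶ W)),
    ((∀ ⦃E Q : Sh J⦄ (p : E ⟶ Q) [Epi p], Function.Surjective (p.hom.app (op W))) →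
      (∀ n : ℕ, n ≠ 0 → ∀ s : G.obj.obj (op W), ∃ s', n • s' = s) →
      ∀ x : Ext A G 1, ∃ d, Cx W a x d) ∧
    (∀ (x x' : Ext A G 1) d d', Cx W a x d → Cx W a x' d' → Cx W a (x - x') (d - d')) ∧
    (∀ d, Cx W a (0 : Ext A G 1) d ↔ ∃ α : A.obj.obj (op W) →+ G.obj.obj (op W),
      ∀ g m, d g m = G.obj.map (a g).op (α m) - α (A.obj.map (a g).op m)) ∧
    (∀ (x : Ext A G 1) d (A' G' : Sh J) (φ : A' ⟶ A) (ψ : G ⟶ G')
      (d' : Γ → A'.obj.obj (op W) →+ G'.obj.obj (op W)), Cx W a x d →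
      (∀ g m, d' g m = ψ.hom.app _ (d g (φ.hom.app _ m))) →
      Cx W a (pre φ G' 1 (post A ψ 1 x)) d')

/-- The generic stalk is fully faithful. -/
def FULL_s : Prop := ∀ (l : ℕ) (Y : Scheme.{0}) (B Ω : Type) [CommRing B] [IsDomain B]
  [IsIntegrallyClosed B] [Field Ω] [IsAlgClosed Ω] [Algebra B Ω] [FaithfulSMul B Ω]
  [Algebra.IsAlgebraic B Ω] (u : Spec (.of B) ⟶ Y) [IsOpenImmersion u], Linv l Y →
    ∀ A G : Sh (Scheme.etaleTopology.over Y), Gu l u A → Lu l u G →
      (∀ x : A ⟶ G, (∀ m, x.hom.app (op (ob u Ω)) m = 0) → x = 0) ∧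
      ∀ φ : sec A (ob u Ω) →+ sec G (ob u Ω),
        (∀ σ m, φ (E4.gal u Ω A.obj σ m) = E4.gal u Ω G.obj σ (φ m)) →
        ∃ x : A ⟶ G, ∀ m, x.hom.app (op (ob u Ω)) m = φ m

/-- Every discrete unramified module is a generic stalk. -/
def OBJ_s : Prop := ∀ (l : ℕ) (Y : Scheme.{0}) (B Ω : Type) [CommRing B] [IsDomain B]
  [IsIntegrallyClosed B] [Field Ω] [IsAlgClosed Ω] [Algebra B Ω] [FaithfulSMul B Ω]
  [Algebra.IsAlgebraic B Ω] (u : Spec (.of B) ⟶ Y) [IsOpenImmersion u], Linv l Y →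
    ∀ (M : Type 1) [AddCommGroup M] (ρ : (Ω ≃ₐ[B] Ω) →* AddMonoid.End M),
      (∀ m, Opn fun g => ρ g m = m) → (∀ m, Unr fun g => ρ g m = m) →
      ∃ (K : Sh (Scheme.etaleTopology.over Y)) (e : sec K (ob u Ω) ≃+ M), Gu l u K ∧
        ∀ σ s, e (E4.gal u Ω K.obj σ s) = ρ σ (e s)

/-- Exactness is tested at the generic stalk. -/
def EXG_s : Prop := ∀ (l : ℕ) (Y : Scheme.{0}) (B Ω : Type) [CommRing B] [IsDomain B]
  [IsIntegrallyClosed B] [Field Ω] [IsAlgClosed Ω] [Algebra B Ω] [FaithfulSMul B Ω]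
  [Algebra.IsAlgebraic B Ω] (u : Spec (.of B) ⟶ Y) [IsOpenImmersion u], Linv l Y →
    ∀ S : ShortComplex (Sh (Scheme.etaleTopology.over Y)), Gu l u S.X₁ → Gu l u S.X₂ → Gu l u S.X₃ →
      Function.Injective (S.f.hom.app (op (ob u Ω))) →
      Function.Exact (S.f.hom.app (op (ob u Ω))) (S.g.hom.app (op (ob u Ω))) →
      Function.Surjective (S.g.hom.app (op (ob u Ω))) → S.ShortExact

/-- Extension classes and continuous unramified cocycles. -/
def EXT1_s : Prop := ∀ (l : ℕ) (Y : Scheme.{0}) (B Ω : Type) [CommRing B] [IsDomain B]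
  [IsIntegrallyClosed B] [Field Ω] [IsAlgClosed Ω] [Algebra B Ω] [FaithfulSMul B Ω]
  [Algebra.IsAlgebraic B Ω] (u : Spec (.of B) ⟶ Y) [IsOpenImmersion u], Linv l Y →
    ∀ A G : Sh (Scheme.etaleTopology.over Y), Gu l u A → Lu l u G →
      (∀ x : Ext A G 1, Cx (ob u Ω) (act u Ω) x 0 → x = 0) ∧
      ∀ d : (Ω ≃ₐ[B] Ω) → sec A (ob u Ω) →+ sec G (ob u Ω),
        (∃ x : Ext A G 1, Cx (ob u Ω) (act u Ω) x d) ↔
          (∀ σ τ m, d (σ * τ) m = E4.gal u Ω G.obj σ (d τ m) + d σ (E4.gal u Ω A.obj τ m)) ∧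
          ∀ m, (Opn fun σ => d σ m = 0) ∧ Unr fun σ => d σ m = 0

/-- The sheaf of roots of unity of `l`-power order. -/
def MUI_s : Prop := ∀ (l : ℕ) [Fact l.Prime] (X : Scheme.{0}), Linv l X →
  ∃ (G : Sh (Scheme.etaleTopology.over X))
    (ev : ∀ (Ω : Type) [Field Ω] (x : Spec (.of Ω) ⟶ X), sec G (Over.mk x) ≃+ MuI l Ω),
    (∀ (Ω Ω' : Type) [Field Ω] [Field Ω'] (g : Ω →+* Ω') (x : Spec (.of Ω) ⟶ X)
      (x' : Spec (.of Ω') ⟶ X) (h : spc g ≫ x = x') (s : sec G (Over.mk x)),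
      ev Ω' x' (rsec (sph g h) G s) = MuI.map l g (ev Ω x s)) ∧
    (∀ (k : Type) [Field k] [IsAlgClosed k] (Y : Scheme.{0}) (r : Y ⟶ X) (_ : Y ⟶ Spec (.of k)),
      (l : k) ≠ 0 → Nonempty ((pb (J := Scheme.etaleTopology) r).obj G ≅ Linf l Y)) ∧
    ∀ (T : Over X) [CompactSpace T.left] [T.left.IsSeparated] (q : ℕ) (y : H T G q),
      ∃ (n : ℕ) (ι : mu X (l ^ n) ⟶ G) (y' : H T (mu X (l ^ n)) q), Hmap ι T q y' = y

/-- Semilinear maps of the projective line fix `H²(μ)`. -/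
def INV_s : Prop := ∀ (l : ℕ) [Fact l.Prime] (n : ℕ) (X : Scheme.{0}), Linv l X →
  ∀ (k : Type) [Field k] [IsAlgClosed k] (L : PL (Spec (.of k))) (r : L.P ⟶ X) (Φ : L.P ⟶ L.P)
    (hr : Φ ≫ r = r) (ψ : k →+* k), Φ ≫ L.q = L.q → Φ ≫ L.π = L.π ≫ spc ψ →
    ∀ y : H (Over.mk r) (mu X (l ^ n)) 2,
      res (Over.homMk Φ hr : Over.mk r ⟶ Over.mk r) _ 2 y = y

/-- Kummer classes over a principal ideal domain. -/
def KP_s : Prop := ∀ (n : ℕ) (X : Scheme.{0}) (hn : Linv n X) (B : Type) [CommRing B] [IsDomain B]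
  [IsPrincipalIdealRing B] (u : Spec (.of B) ⟶ X), Function.Surjective (kappa hn (Over.mk u))

/-- `H²(𝔸¹, μ) = 0`. -/
def A2_s : Prop := ∀ (l : ℕ) [Fact l.Prime] (n : ℕ) (Z : Scheme.{0}), Linv l Z →
  ∀ (k : Type) [Field k] [IsAlgClosed k] (u : Spec (.of k[X]) ⟶ Z)
    (y : H (Over.mk u) (mu Z (l ^ n)) 2), y = 0

section
variable {A k : Type} [CommRing A] [CommRing k] (L : PL (Spec (.of A))) (τ : A →+* k)

/-- The fibre of the projective line. -/
noncomputable abbrev LY : PL (Spec (.of k)) := L.bc (Over.mk (spc τ))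

/-- The fibre maps to the family. -/
noncomputable abbrev fY : (LY L τ).P ⟶ L.P := (fbr L.π (spc τ)).hom

/-- The open part of the fibre. -/
noncomputable abbrev uY (B : Type) [CommRing B] [Algebra k[X] B] : Spec (.of B) ⟶ (LY L τ).P :=
  (LY L τ).pnt (spc ((algebraMap k[X] B).comp C)) (pt1 (algebraMap k[X] B X))

/-- The semilinear map of the fibre. -/
noncomputable abbrev ΦY (ψ : k →+* k) (hψ : spc ψ ≫ spc τ = spc τ) : (LY L τ).P ⟶ (LY L τ).P :=
  ((Over.pullback L.π).map (sph ψ hψ)).left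

end

/-- Geometry of the fibre. -/
def GEO_s : Prop := ∀ (l : ℕ) [Fact l.Prime] (A : Type) [CommRing A] (L : PL (Spec (.of A)))
  (h : A[X]) (F : Sh (Scheme.etaleTopology.over L.P)), Gd l L h F →
    ∀ (k B Ω : Type) [Field k] [IsAlgClosed k] (τ : A →+* k) [CommRing B] [Algebra k[X] B]
      [IsLocalization.Away (h.map τ) B] [Field Ω] [Algebra B Ω] [FaithfulSMul B Ω], (l : k) ≠ 0 →
      IsDomain B ∧ IsIntegrallyClosed B ∧ IsOpenImmersion (uY L τ B) ∧
      uY L τ B ≫ fY L τ = uk L τ B ∧ Linv l (LY L τ).P ∧ CompactSpace (LY L τ).P ∧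
      (LY L τ).P.IsSeparated ∧
      Gu l (uY L τ B) ((pb (J := Scheme.etaleTopology) (fY L τ)).obj F) ∧
      ∀ (g : Ω ≃+* Ω) (ψ : k →+* k) (hψ : spc ψ ≫ spc τ = spc τ),
        spc (g : Ω →+* Ω) ≫ (ob (uk L τ B) Ω).hom = (ob (uk L τ B) Ω).hom →
        (∀ c, g (algebraMap B Ω (algebraMap k[X] B (C c))) =
          algebraMap B Ω (algebraMap k[X] B (C (ψ c)))) →
        spc (g : Ω →+* Ω) ≫ (ob (uY L τ B) Ω).hom = (ob (uY L τ B) Ω).hom ≫ ΦY L τ ψ hψ ∧
        ΦY L τ ψ hψ ≫ (LY L τ).q = (LY L τ).q ∧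
        ΦY L τ ψ hψ ≫ (LY L τ).π = (LY L τ).π ≫ spc ψ ∧
        ∀ σ' : Ω ≃ₐ[B] Ω, ∃ σ : Ω ≃ₐ[B] Ω, ∀ z, σ' (g z) = g (σ z)

/-- Duality on the projective line. -/
def D1_s : Prop := ∀ (l : ℕ) [Fact l.Prime] (k : Type) [Field k] [IsAlgClosed k]
  (L : PL (Spec (.of k))), (l : k) ≠ 0 →
    ∃ t : H (top L.P) (Linf l L.P) 2 →+ QZ l, ∀ A : Sh (Scheme.etaleTopology.over L.P), Tc l A →
      ∀ (i j : ℕ) (h : j + i = 2), Function.Bijective fun x : Ext A (Linf l L.P) i =>
        t.comp (x.postcomp ((fr (Scheme.etaleTopology.over L.P)).obj (top L.P)) h)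

end Pool.Agent.MP_855f4c_ag.E

end

section

set_option backward.isDefEq.respectTransparency false

open CategoryTheory Limits Abelian Opposite AlgebraicGeometry Function

namespace Pool.Agent.MP_855f4c_ag.E.DU

open E E3 E4

attribute [local irreducible] Ext.comp Ext.mk₀ Ext.mapExactFunctor ShortComplex.ShortExact.extClass

section natx
universe w v₁ v₂ v₃ u₁ u₂ u₃
variable {A : Type u₁} [Category.{v₁} A] [Abelian A] [HasExt.{w} A] [EnoughInjectives A]
  {B : Type u₂} [Category.{v₂} B] [Abelian B] [HasExt.{w} B]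
  {C : Type u₃} [Category.{v₃} C] [Abelian C] [HasExt.{w} C]
  (P : A ⥤ B) [P.Additive] [PreservesFiniteLimits P] [PreservesFiniteColimits P]
  (Q : B ⥤ C) [Q.Additive] [PreservesFiniteLimits Q] [PreservesFiniteColimits Q]
  (R : A ⥤ C) [R.Additive] [PreservesFiniteLimits R] [PreservesFiniteColimits R]
  (η : ∀ F, Q.obj (P.obj F) ⟶ R.obj F)
  (hη : ∀ ⦃F G : A⦄ (φ : F ⟶ G), Q.map (P.map φ) ≫ η G = η F ≫ R.map φ)

include hη in
theorem natx {M : A} (n : ℕ) : ∀ {F : A} (x : Ext.{w} M F n),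
    post _ (η F) n ((x.mapExactFunctor P).mapExactFunctor Q) =
      pre (η M) _ n (x.mapExactFunctor R) := by
  induction n with
  | zero =>
    intro F x
    obtain ⟨φ, rfl⟩ := (Ext.mk₀_bijective _ _).2 x
    simp only [Ext.mapExactFunctor_mk₀, post_apply, pre_apply, Ext.mk₀_comp_mk₀, hη]
  | succ n ih =>
    intro F x
    let S := ShortComplex.mk _ _ (cokernel.condition (Injective.ι F))
    have hS : S.ShortExact := { exact := ShortComplex.exact_cokernel _ }
    obtain ⟨y, rfl⟩ := ((cov_les M hS).e₁ n x).1 (Ext.eq_zero_of_injective _)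
    let φ : (S.map P).map Q ⟶ S.map R := ⟨η _, η _, η _, (hη _).symm, (hη _).symm⟩
    rw [map_dl P hS, map_dl Q (hS.map_of_exact P), map_dl R hS]
    exact (post_dl _ (hS.map_of_exact R) φ _).trans ((congrArg _ (ih y)).trans
      (pre_dl (η M) (hS.map_of_exact R) _).symm)
end natx

section push
variable {C D E : Type 1} [Category.{0} C] [Category.{0} D] [Category.{0} E]
  (J : GrothendieckTopology C) (K : GrothendieckTopology D) (N : GrothendieckTopology E)
  (G₁ : D ⥤ C) [G₁.IsContinuous K J] (G₂ : E ⥤ D) [G₂.IsContinuous N K]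
  (G : E ⥤ C) [G.IsContinuous N J] (η : G ⟶ G₂ ⋙ G₁)

/-- The map of direct images attached to `η`. -/
def pn (F : Sh J) : (push K N G₂).obj ((push J K G₁).obj F) ⟶ (push J N G).obj F :=
  ⟨Functor.whiskerRight (NatTrans.op η) F.obj⟩

lemma pn_app (F : Sh J) (T : E) (s) :
    (pn J K N G₁ G₂ G η F).hom.app (op T) s = F.obj.map (η.app T).op s := rfl

lemma pn_nat ⦃F F' : Sh J⦄ (φ : F ⟶ F') :
    (push K N G₂).map ((push J K G₁).map φ) ≫ pn J K N G₁ G₂ G η F' =
      pn J K N G₁ G₂ G η F ≫ (push J N G).map φ := by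
  ext T s
  exact (nat φ.hom (η.app T.unop) s).symm

instance [IsIso η] (F : Sh J) : IsIso (pn J K N G₁ G₂ G η F) :=
  have : IsIso ((sheafToPresheaf N _).map (pn J K N G₁ G₂ G η F)) :=
    inferInstanceAs (IsIso (Functor.whiskerRight (NatTrans.op η) F.obj))
  isIso_of_reflects_iso _ (sheafToPresheaf N _)

variable [PreservesFiniteColimits (push J K G₁)] [PreservesFiniteColimits (push K N G₂)]
  [PreservesFiniteColimits (push J N G)]

lemma univ_univ (T : E) {F : Sh J} {q : ℕ} (y : H (G₁.obj (G₂.obj T)) F q) :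
    post _ (pn J K N G₁ G₂ G η F) q (univ N G₂ T _ q (univ K G₁ (G₂.obj T) F q y)) =
      univ N G T F q (res (η.app T) F q y) := by
  have h : taut K N G₂ T ≫ (push K N G₂).map (taut J K G₁ (G₂.obj T)) ≫
      pn J K N G₁ G₂ G η _ = taut J N G T ≫ (push J N G).map ((fr J).map (η.app T)) := by
    refine (frEquiv T _).injective ?_
    rw [frEquiv_taut, ← Category.assoc, frEquiv_post, frEquiv_taut, pn_app, taut,
      AddEquiv.apply_symm_apply]
    exact (frEquiv_pre (η.app T) (𝟙 _)).symm.trans (congrArg _ (Category.comp_id _))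
  rw [univ_apply, univ_apply, univ_apply, map_pre, map_pre, pre_pre, pre_pre, ← pre_post,
    natx _ _ _ _ (pn_nat J K N G₁ G₂ G η), pre_pre, Category.assoc, h]
  rfl
end push

variable {X X₀ Y : Scheme.{0}}

/-- `f^*`. -/
abbrev ps (f : Y ⟶ X) : Sh (Scheme.etaleTopology.over X) ⥤ Sh (Scheme.etaleTopology.over Y) := push (Scheme.etaleTopology.over X) (Scheme.etaleTopology.over Y) (Over.map f)

instance (f : Y ⟶ X) : PreservesFiniteColimits (ps f) :=
  push_colim (Scheme.etaleTopology.over Y) (Scheme.etaleTopology.over X) (Over.mapPullbackAdj f)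

/-- `Y` over `X`. -/
def ιt (f : Y ⟶ X) : (Over.map f).obj (top Y) ⟶ Over.mk f := Over.homMk (𝟙 Y) rfl

instance (f : Y ⟶ X) : IsIso (ιt f) := isIso_homMk _ (inferInstanceAs (IsIso (𝟙 Y)))

/-- Cohomology of `Y` computed over `X` and over `Y`. -/
noncomputable def slH (f : Y ⟶ X) (F : Sh (Scheme.etaleTopology.over X)) (q : ℕ) :
    H (Over.mk f) F q →+ H (top Y) ((ps f).obj F) q :=
  (univ (Scheme.etaleTopology.over Y) (Over.map f) (top Y) F q).comp (res (ιt f) F q)

/-- A Cech nerve over `Y` is one over `X`. -/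
def cechMap (f : Y ⟶ X) {V U : Over Y} {p : V ⟶ U} (N : Cech p) : Cech ((Over.map f).map p) where
  X n := (Over.map f).obj (N.X n)
  b n := (Over.map f).map (N.b n)
  π n j := (Over.map f).map (N.π n j)
  w n j := by rw [← Functor.map_comp, N.w]
  ex n T u a h := by
    obtain ⟨x, h1, h2⟩ := N.ex n (T := Over.mk (u.left ≫ U.hom)) (Over.homMk u.left rfl)
      (fun j => Over.homMk (a j).left (by
        rw [← h j, ← Over.w p]; exact (Category.assoc _ _ _).symm))
      fun j => Over.OverMorphism.ext (congrArg (·.left) (h j))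
    refine ⟨Over.homMk x.left ?_, Over.OverMorphism.ext (congrArg (·.left) h1),
      fun j => Over.OverMorphism.ext (congrArg (·.left) (h2 j))⟩
    exact ((Category.assoc _ _ _).symm.trans (congrArg (· ≫ f) (Over.w x))).trans
      ((Category.assoc _ _ _).trans (Over.w u))
  ext n T x y h1 h2 := by
    have e1 : x.left ≫ (N.b n).left = y.left ≫ (N.b n).left := congrArg (·.left) h1
    have := N.ext n (T := Over.mk (x.left ≫ (N.X n).hom)) (Over.homMk x.left rfl)
      (Over.homMk y.left (by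
        rw [← Over.w (N.b n)]
        exact ((Category.assoc _ _ _).symm.trans (congrArg (· ≫ U.hom) e1.symm)).trans
          (Category.assoc _ _ _)))
      (Over.OverMorphism.ext e1) fun j => Over.OverMorphism.ext (congrArg (·.left) (h2 j))
    exact Over.OverMorphism.ext (congrArg (·.left) this)

lemma cechMap_face (f : Y ⟶ X) {V U : Over Y} {p : V ⟶ U} (N : Cech p) (n i) :
    (cechMap f N).face n i = (Over.map f).map (N.face n i) :=
  (cechMap f N).ext _ _ _ (by
    rw [Cech.face_b]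
    exact (((Over.map f).map_comp _ _).symm.trans (congrArg _ (N.face_b n i))).symm)
    fun j => by
      rw [Cech.face_π]
      exact (((Over.map f).map_comp _ _).symm.trans (congrArg _ (N.face_π n i j))).symm

theorem slH_bij (f : Y ⟶ X) (F : Sh (Scheme.etaleTopology.over X)) (q : ℕ) : Bijective (slH f F q) := by
  refine (univ_bij (Scheme.etaleTopology.over Y) (Over.map f) (top Y) (fun I _ n y => ?_) F q).comp (pre_bij _ F q)
  refine cartan_et (fun _ => True) (fun _ _ _ _ _ => trivial) _ (fun V U p _ _ _ N m s hs => ?_)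
    trivial n y
  have := (cechMap f N).acy_inj I m s
  simp only [Cech.cd, cechMap_face] at this
  exact this hs

variable {Φ : Y ⟶ Y} {f : Y ⟶ X} (h : Φ ≫ f = f)

/-- The comparison of slice functors. -/
def ηI : Over.map f ≅ Over.map Φ ⋙ Over.map f :=
  NatIso.ofComponents (fun T => Over.isoMk (Iso.refl _) (by simp [h])) (by intros; ext; simp)

/-- `Φ^* f^* F ⟶ f^* F`. -/
def θ (F : Sh (Scheme.etaleTopology.over X)) : (ps Φ).obj ((ps f).obj F) ⟶ (ps f).obj F :=
  pn _ _ _ _ _ _ (ηI h).hom F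

instance (F : Sh (Scheme.etaleTopology.over X)) : IsIso (θ h F) := inferInstanceAs (IsIso (pn _ _ _ _ _ _ (ηI h).hom F))

/-- Pull-back along `Φ`. -/
noncomputable def W (Φ : Y ⟶ Y) (A : Sh (Scheme.etaleTopology.over Y)) (q : ℕ) :
    H (top Y) A q →+ H (top Y) ((ps Φ).obj A) q :=
  (univ (Scheme.etaleTopology.over Y) (Over.map Φ) (top Y) A q).comp
    (res (Over.homMk Φ (by simp) : (Over.map Φ).obj (top Y) ⟶ top Y) A q)

lemma slH_res {F : Sh (Scheme.etaleTopology.over X)} {q : ℕ} (y : H (Over.mk f) F q) :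
    post _ (θ h F) q (W Φ _ q (slH f F q y)) =
      slH f F q (res (Over.homMk Φ h : Over.mk f ⟶ Over.mk f) F q y) := by
  simp only [W, slH, AddMonoidHom.comp_apply]
  rw [← univ_res, θ, univ_univ]
  congr 1
  rw [pre_pre, pre_pre]
  refine (pre_pre _ _ _).trans ?_
  rw [← Functor.map_comp, ← Functor.map_comp, ← Functor.map_comp]
  congr 3

lemma W_comp {A G : Sh (Scheme.etaleTopology.over Y)} {i j n : ℕ} (e : j + i = n) (z : H (top Y) A j) (x : Ext A G i) :
    W Φ G n (z.comp x e) = (W Φ A j z).comp (x.mapExactFunctor (ps Φ)) e := by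
  simp only [W, AddMonoidHom.comp_apply, univ]
  rw [← cmp_comp]
  congr 1
  exact (Ext.comp_assoc _ _ _ (zero_add j) e (by omega)).symm

theorem pair_tw {r : Y ⟶ X₀} (hr : Φ ≫ r = r) {F : Sh (Scheme.etaleTopology.over X)} {G : Sh (Scheme.etaleTopology.over X₀)} {i j n : ℕ}
    (e : j + i = n) (hs : Surjective (slH r G n))
    (hi : ∀ z, res (Over.homMk Φ hr : Over.mk r ⟶ Over.mk r) G n z = z)
    (x : Ext ((ps f).obj F) ((ps r).obj G) i) (y : H (Over.mk f) F j) :
    (slH f F j (res (Over.homMk Φ h : Over.mk f ⟶ Over.mk f) F j y)).comp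
      (pre (inv (θ h F)) _ i (post _ (θ hr G) i (x.mapExactFunctor (ps Φ)))) e =
      (slH f F j y).comp x e := by
  obtain ⟨z, hz⟩ := hs ((slH f F j y).comp x e)
  rw [← slH_res, post_apply, Ext.comp_assoc _ _ _ (add_zero j) (zero_add i) (by omega),
    ← pre_apply, pre_pre, IsIso.hom_inv_id, pre_id, post_apply,
    ← Ext.comp_assoc _ _ _ e (add_zero i) (by omega), ← W_comp, ← hz, ← post_apply, slH_res, hi]

lemma Cx.map (Φ : Y ⟶ Y) {A G : Sh (Scheme.etaleTopology.over Y)} {T : Over Y} {Γ : Type} {a : Γ → (T ⟶ T)}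
    {x : Ext A G 1} {d} (hx : Cx ((Over.map Φ).obj T) (fun g => (Over.map Φ).map (a g)) x d) :
    Cx T a (x.mapExactFunctor (ps Φ)) d := by
  obtain ⟨E, i, p, w, hS, y, h1, rfl, h2⟩ := hx
  exact ⟨_, (ps Φ).map i, (ps Φ).map p, by rw [← Functor.map_comp, w, Functor.map_zero],
    hS.map_of_exact (ps Φ), y, h1, (Ext.mapExactFunctor_extClass (ps Φ) hS).symm, h2⟩

lemma Cx.move {C : Type 1} [Category.{0} C] {J : GrothendieckTopology C} {A G : Sh J} {T T' : C}
    (γ : T' ≅ T) {Γ Γ' : Type} {a : Γ → (T ⟶ T)} {a' : Γ' → (T' ⟶ T')} (s : Γ' → Γ)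
    (hs : ∀ g, a' g ≫ γ.hom = γ.hom ≫ a (s g)) {x : Ext A G 1} {d} (hx : Cx T a x d) :
    Cx T' a' x fun g => ((G.obj.map γ.hom.op).hom.comp (d (s g))).comp
      (A.obj.map γ.inv.op).hom := by
  obtain ⟨E, i, p, w, hS, y, h1, rfl, h2⟩ := hx
  refine ⟨E, i, p, w, hS, ((E.obj.map γ.hom.op).hom.comp y).comp (A.obj.map γ.inv.op).hom,
    fun m => ?_, rfl, fun g m => ?_⟩
  · change p.hom.app _ (E.obj.map γ.hom.op (y (A.obj.map γ.inv.op m))) = m
    rw [nat, h1, res_res, γ.hom_inv_id, res_id]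
  · change i.hom.app _ (G.obj.map γ.hom.op (d (s g) (A.obj.map γ.inv.op m))) =
      E.obj.map (a' g).op (E.obj.map γ.hom.op (y (A.obj.map γ.inv.op m))) -
      E.obj.map γ.hom.op (y (A.obj.map γ.inv.op (A.obj.map (a' g).op m)))
    have e : a (s g) ≫ γ.inv = γ.inv ≫ a' g := by
      rw [Iso.comp_inv_eq, Category.assoc, hs, Iso.inv_hom_id_assoc]
    rw [nat, h2, map_sub, res_res, res_res, res_res, res_res, hs, e]

section mu
variable (l : ℕ) [Fact l.Prime] {k Ω : Type} [Field k] [Field Ω]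

lemma mu_fix [IsAlgClosed k] (κ : k →+* Ω) (σ : Ω →+* Ω) (h : ∀ c, σ (κ c) = κ c) (ζ : MuI l Ω) :
    MuI.map l σ ζ = ζ := by
  let := κ.toAlgebra
  obtain ⟨n, hn⟩ := ζ.toMul.2
  have h1 : ((ζ.toMul : Ωˣ) : Ω) ^ l ^ n = 1 := by
    rw [← Units.val_pow_eq_pow_val, hn, Units.val_one]
  have h2 : IsIntegral k ((ζ.toMul : Ωˣ) : Ω) :=
    IsIntegral.of_pow (pow_pos (Fact.out : l.Prime).pos n) (h1 ▸ isIntegral_one)
  obtain ⟨c, hc⟩ := minpoly.mem_range_of_degree_eq_one k _
    (IsAlgClosed.degree_eq_one_of_irreducible k (minpoly.irreducible h2))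
  refine Additive.toMul.injective (Subtype.ext (Units.ext ?_))
  change σ ((ζ.toMul : Ωˣ) : Ω) = _
  rw [← hc]
  exact h c

lemma mu_div [IsAlgClosed Ω] (n : ℕ) (hn : n ≠ 0) (s : MuI l Ω) : ∃ s', n • s' = s := by
  have hl : l.Prime := Fact.out
  obtain ⟨a, n', hn', rfl⟩ := Nat.exists_eq_pow_mul_and_not_dvd hn l hl.ne_one
  obtain ⟨m, hm⟩ := s.toMul.2
  obtain ⟨b, hb⟩ := exists_pow_eq_self_of_coprime (x := (s.toMul : Ωˣ)) (n := n')
    (((Nat.Coprime.pow_left m ((hl.coprime_iff_not_dvd).2 hn')).symm).coprime_dvd_right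
      (orderOf_dvd_of_pow_eq_one hm))
  obtain ⟨z, hz⟩ := IsAlgClosed.exists_pow_nat_eq (((s.toMul : Ωˣ) ^ b : Ωˣ) : Ω) (pow_pos hl.pos a)
  have h0 : z ≠ 0 := by
    rintro rfl
    rw [zero_pow (pow_pos hl.pos a).ne'] at hz
    exact Units.ne_zero _ hz.symm
  have hz' : Units.mk0 z h0 ^ l ^ a = (s.toMul : Ωˣ) ^ b := Units.ext (by simpa using hz)
  refine ⟨Additive.ofMul ⟨Units.mk0 z h0, a + m, ?_⟩, ?_⟩
  · rw [pow_add, pow_mul, hz', ← pow_mul, mul_comm, pow_mul, hm, one_pow]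
  · refine Additive.toMul.injective (Subtype.ext ?_)
    change Units.mk0 z h0 ^ (l ^ a * n') = _
    rw [pow_mul, hz', ← pow_mul, mul_comm, pow_mul, hb]
end mu

end Pool.Agent.MP_855f4c_ag.E.DU

end

section

set_option autoImplicit false
set_option backward.isDefEq.respectTransparency false

open CategoryTheory Limits Abelian Opposite

namespace Pool.Agent.MP_855f4c_ag.E

namespace DUcx

variable {C : Type 1} [Category.{0} C] {J : GrothendieckTopology C}

theorem sx {S : ShortComplex (Sh J)} (hS : S.ShortExact) (T : C) :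
    Function.Injective (S.f.hom.app (op T)) ∧
      ∀ y, S.g.hom.app (op T) y = 0 ↔ ∃ x, S.f.hom.app (op T) x = y := by
  have := hS.mono_f
  refine ⟨fun x x' e => ?_, fun y => ⟨fun hy => ?_, ?_⟩⟩
  · obtain ⟨x, rfl⟩ := (frEquiv T _).surjective x
    obtain ⟨x', rfl⟩ := (frEquiv T _).surjective x'
    rw [← frEquiv_post, ← frEquiv_post, (frEquiv T _).injective.eq_iff, cancel_mono] at e
    rw [e]
  · obtain ⟨y, rfl⟩ := (frEquiv T _).surjective y
    rw [← frEquiv_post, map_eq_zero_iff _ (frEquiv T _).injective] at hy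
    obtain ⟨x, hx⟩ := hS.exact.lift' y hy
    exact ⟨frEquiv T _ x, by rw [← frEquiv_post, hx]⟩
  · rintro ⟨x, rfl⟩
    obtain ⟨x, rfl⟩ := (frEquiv T _).surjective x
    rw [← frEquiv_post, ← frEquiv_post, Category.assoc, S.zero, comp_zero, map_zero]

lemma app_app {F G K : Sh J} (φ : F ⟶ G) (ψ : G ⟶ K) (T : C) (s : F.obj.obj (op T)) :
    ψ.hom.app _ (φ.hom.app _ s) = (φ ≫ ψ).hom.app _ s := rfl

lemma pb_ext {E A Q : Sh J} (p : E ⟶ Q) (z : A ⟶ Q) (T : C) {s t : (pullback p z).obj.obj (op T)}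
    (h1 : (pullback.fst p z).hom.app _ s = (pullback.fst p z).hom.app _ t)
    (h2 : (pullback.snd p z).hom.app _ s = (pullback.snd p z).hom.app _ t) : s = t := by
  obtain ⟨s, rfl⟩ := (frEquiv T _).surjective s
  obtain ⟨t, rfl⟩ := (frEquiv T _).surjective t
  rw [← frEquiv_post, ← frEquiv_post, (frEquiv T _).injective.eq_iff] at h1 h2
  rw [pullback.hom_ext h1 h2]

lemma pb_lift {E A Q : Sh J} (p : E ⟶ Q) (z : A ⟶ Q) (T : C) (e : E.obj.obj (op T))
    (m : A.obj.obj (op T)) (h : p.hom.app _ e = z.hom.app _ m) :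
    ∃ s : (pullback p z).obj.obj (op T),
      (pullback.fst p z).hom.app _ s = e ∧ (pullback.snd p z).hom.app _ s = m := by
  obtain ⟨e, rfl⟩ := (frEquiv T _).surjective e
  obtain ⟨m, rfl⟩ := (frEquiv T _).surjective m
  rw [← frEquiv_post, ← frEquiv_post, (frEquiv T _).injective.eq_iff] at h
  exact ⟨frEquiv T _ (pullback.lift e m h), by rw [← frEquiv_post, pullback.lift_fst],
    by rw [← frEquiv_post, pullback.lift_snd]⟩

variable {A G : Sh J} {W : C} {Γ : Type} {a : Γ → (W ⟶ W)}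

theorem mk' {E Q : Sh J} {i : G ⟶ E} {p : E ⟶ Q} {w : i ≫ p = 0}
    (hS : (ShortComplex.mk i p w).ShortExact) (z : A ⟶ Q)
    (y : A.obj.obj (op W) →+ E.obj.obj (op W)) (hy : ∀ m, p.hom.app _ (y m) = z.hom.app _ m)
    {d : Γ → A.obj.obj (op W) →+ G.obj.obj (op W)}
    (hd : ∀ g m, i.hom.app _ (d g m) = E.obj.map (a g).op (y m) - y (A.obj.map (a g).op m)) :
    Cx W a ((Ext.mk₀ z).comp hS.extClass (zero_add 1)) d := by
  have : Mono i := hS.mono_f
  have : Epi p := hS.epi_g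
  let i' : G ⟶ pullback p z := pullback.lift i 0 (by rw [w, zero_comp])
  have hi : i' ≫ pullback.fst p z = i := pullback.lift_fst _ _ _
  have w' : i' ≫ pullback.snd p z = 0 := pullback.lift_snd _ _ _
  have : Mono i' := mono_of_mono_fac hi
  have hS' : (ShortComplex.mk i' (pullback.snd p z) w').ShortExact :=
    { exact := (ShortComplex.exact_iff_exact_up_to_refinements _).2 fun T k hk => by
        obtain ⟨l, hl⟩ := hS.exact.lift' (k ≫ pullback.fst p z) (by
          change k ≫ pullback.snd p z = 0 at hk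
          change (k ≫ _) ≫ p = 0
          rw [Category.assoc, pullback.condition, reassoc_of% hk, zero_comp])
        refine ⟨T, 𝟙 T, inferInstance, l, pullback.hom_ext ?_ ?_⟩
        · rw [Category.id_comp, Category.assoc]
          erw [hi]
          exact hl.symm
        · rw [Category.id_comp, Category.assoc]
          erw [w']
          rw [comp_zero]
          exact hk }
  choose s h1 h2 using fun m => pb_lift p z W (y m) m (hy m)
  let y' : A.obj.obj (op W) →+ (pullback p z).obj.obj (op W) := AddMonoidHom.mk' s fun m m' =>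
    pb_ext p z W (by rw [map_add, h1, h1, h1, map_add]) (by rw [map_add, h2, h2, h2])
  refine ⟨_, i', _, w', hS', y', h2, ?_, fun g m => pb_ext p z W ?_ ?_⟩
  · let φ : ShortComplex.mk i' (pullback.snd p z) w' ⟶ ShortComplex.mk i p w :=
      ⟨𝟙 G, pullback.fst p z, z, by simp [hi], pullback.condition⟩
    have := hS'.extClass_naturality hS φ
    rw [← this]
    exact (Ext.comp_mk₀_id _).symm
  · rw [app_app, hi, hd, map_sub, nat]
    exact congrArg₂ (· - ·) (congrArg _ (h1 m).symm) (h1 _).symm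
  · rw [app_app, w', map_sub, nat]
    change 0 = A.obj.map (a g).op ((pullback.snd p z).hom.app _ (s m)) -
      (pullback.snd p z).hom.app _ (s _)
    rw [h2, h2, sub_self]

theorem push {x : Ext A G 1} {d : Γ → A.obj.obj (op W) →+ G.obj.obj (op W)} (h : Cx W a x d)
    {G' I Q : Sh J} {i : G' ⟶ I} {p : I ⟶ Q} {w : i ≫ p = 0}
    (hS : (ShortComplex.mk i p w).ShortExact) [Injective I] (ψ : G ⟶ G') :
    ∃ (z : A ⟶ Q) (y : A.obj.obj (op W) →+ I.obj.obj (op W)),
      (∀ m, p.hom.app _ (y m) = z.hom.app _ m) ∧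
      (Ext.mk₀ z).comp hS.extClass (zero_add 1) = post A ψ 1 x ∧
      ∀ g m, i.hom.app _ (ψ.hom.app _ (d g m)) =
        I.obj.map (a g).op (y m) - y (A.obj.map (a g).op m) := by
  obtain ⟨E, j, q, v, hE, y, h1, rfl, h3⟩ := h
  have : Mono j := hE.mono_f
  have : Epi q := hE.epi_g
  obtain ⟨e, he⟩ := Injective.factors (ψ ≫ i) j
  obtain ⟨z, hz⟩ := hE.exact.desc' (e ≫ p)
    (by rw [← Category.assoc]; erw [he]; rw [Category.assoc, w, comp_zero])
  let φ : ShortComplex.mk j q v ⟶ ShortComplex.mk i p w := ⟨ψ, e, z, he.symm, hz.symm⟩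
  refine ⟨z, (e.hom.app (op W)).hom.comp y, fun m => ?_, (hE.extClass_naturality hS φ).symm,
    fun g m => ?_⟩
  · change p.hom.app _ (e.hom.app _ (y m)) = _
    rw [app_app, ← hz]
    exact congrArg (z.hom.app _) (h1 m)
  · change _ = I.obj.map (a g).op (e.hom.app _ (y m)) - e.hom.app _ (y _)
    rw [← nat, ← map_sub, ← h3, app_app, app_app, he]

lemma pres (F : Sh J) : ∃ (I Q : Sh J) (i : F ⟶ I) (p : I ⟶ Q) (w : i ≫ p = 0),
    Injective I ∧ (ShortComplex.mk i p w).ShortExact :=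
  let P : InjectivePresentation F := Classical.arbitrary _
  ⟨_, _, P.f, _, cokernel.condition P.f, P.injective, { exact := ShortComplex.exact_cokernel P.f }⟩

lemma split {M N Q : Type 1} [AddCommGroup M] [AddCommGroup N] [AddCommGroup Q] (i : M →+ N)
    (p : N →+ Q) (hi : Function.Injective i) (hp : Function.Surjective p)
    (he : ∀ y, p y = 0 ↔ ∃ x, i x = y) (hd : ∀ n : ℕ, n ≠ 0 → ∀ s : M, ∃ s', n • s' = s) :
    ∃ σ : Q →+ N, ∀ q, p (σ q) = q := by
  let : DivisibleBy M ℕ := divisibleByOfSMulRightSurj M ℕ fun hn s => hd _ hn s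
  let : DivisibleBy M ℤ := AddGroup.divisibleByIntOfDivisibleByNat M
  obtain ⟨r, hr⟩ := (Module.Baer.of_divisible M).extension_property_addMonoidHom i hi
    (AddMonoidHom.id M)
  have hr' : ∀ x, r (i x) = x := fun x => DFunLike.congr_fun hr x
  choose e he' using hp
  refine ⟨AddMonoidHom.mk' (fun q => e q - i (r (e q))) fun q q' => ?_, fun q => ?_⟩
  · obtain ⟨x, hx⟩ := (he (e (q + q') - (e q + e q'))).1 (by
      rw [map_sub, map_add, he', he', he', sub_self])
    have : e (q + q') = i x + (e q + e q') := by rw [hx, sub_add_cancel]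
    rw [this]
    simp only [map_add, hr']
    abel
  · change p (e q - i _) = q
    rw [map_sub, he', (he _).2 ⟨_, rfl⟩, sub_zero]

end DUcx

open DUcx

theorem cx : CX_s := by
  intro C _ J A G W Γ a
  refine ⟨fun hW hd x => ?_, fun x x' d d' h h' => ?_, fun d => ⟨fun h => ?_, fun ⟨α, hα⟩ => ?_⟩,
    fun x d A' G' φ ψ d' h hd => ?_⟩
  · obtain ⟨I, Q, i, p, w, _, hS⟩ := pres G
    obtain ⟨z, rfl⟩ := Ext.covariant_sequence_exact₁ _ hS x (Ext.eq_zero_of_injective _) rfl
    obtain ⟨z, rfl⟩ := (Ext.mk₀_bijective _ _).2 z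
    have : Epi p := hS.epi_g
    obtain ⟨hi, he⟩ := sx hS W
    obtain ⟨σ, hσ⟩ := split (i.hom.app (op W)).hom (p.hom.app (op W)).hom hi (hW p) he hd
    let y : A.obj.obj (op W) →+ I.obj.obj (op W) := σ.comp (z.hom.app (op W)).hom
    have hy : ∀ m, p.hom.app _ (y m) = z.hom.app _ m := fun m => hσ _
    have h : ∀ g m, ∃ t, i.hom.app _ t = I.obj.map (a g).op (y m) - y (A.obj.map (a g).op m) :=
      fun g m => (he _).1 (by
        change p.hom.app _ _ = 0
        rw [map_sub, nat, hy, hy, nat, sub_self])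
    choose t ht using h
    refine ⟨fun g => AddMonoidHom.mk' (t g) fun m m' => hi ?_, mk' hS z y hy ht⟩
    change i.hom.app _ _ = i.hom.app _ _
    rw [map_add, ht, ht, ht]
    simp only [map_add]
    abel
  · obtain ⟨I, Q, i, p, w, _, hS⟩ := pres G
    obtain ⟨z, y, h1, h2, h3⟩ := DUcx.push h hS (𝟙 G)
    obtain ⟨z', y', h1', h2', h3'⟩ := DUcx.push h' hS (𝟙 G)
    rw [post_id] at h2 h2'
    have := mk' (a := a) hS (z - z') (y - y') (fun m => by
      rw [AddMonoidHom.sub_apply, map_sub, h1, h1']; rfl) (d := d - d') (fun g m => by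
      have e : i.hom.app _ (d g m) = _ := h3 g m
      have e' : i.hom.app _ (d' g m) = _ := h3' g m
      rw [Pi.sub_apply, AddMonoidHom.sub_apply, map_sub, e, e', AddMonoidHom.sub_apply,
        AddMonoidHom.sub_apply, map_sub]
      abel)
    rwa [sub_eq_add_neg, Ext.mk₀_add, Ext.mk₀_neg, Ext.add_comp, Ext.neg_comp, h2, h2',
      ← sub_eq_add_neg] at this
  · obtain ⟨E, i, p, w, hE, y, h1, h2, h3⟩ := h
    obtain ⟨s, hs⟩ := Ext.covariant_sequence_exact₃ _ hE (Ext.mk₀ (𝟙 A)) rfl (by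
      rw [h2, Ext.comp_zero])
    obtain ⟨s, rfl⟩ := (Ext.mk₀_bijective _ _).2 s
    rw [Ext.mk₀_comp_mk₀] at hs
    have hs' : s ≫ p = 𝟙 A := (Ext.mk₀_bijective _ _).1 hs
    obtain ⟨hi, he⟩ := sx hE W
    have h : ∀ m, ∃ t, i.hom.app (op W) t = y m - s.hom.app _ m := fun m => (he _).1 (by
      change p.hom.app _ _ = 0
      rw [map_sub, h1, app_app, hs']
      exact sub_self _)
    choose t ht using h
    refine ⟨AddMonoidHom.mk' t fun m m' => hi ?_, fun g m => hi ?_⟩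
    · change i.hom.app _ _ = i.hom.app _ _
      rw [map_add, ht, ht, ht, map_add, map_add]
      abel
    · change i.hom.app _ _ = i.hom.app _ (G.obj.map (a g).op (t m) - t _)
      rw [h3, map_sub, nat, ht, ht, map_sub, nat]
      abel
  · obtain ⟨I, Q, i, p, w, _, hS⟩ := pres G
    have := mk' (a := a) hS (0 : A ⟶ Q) ((i.hom.app (op W)).hom.comp α)
      (fun m => ((sx hS W).2 _).2 ⟨α m, rfl⟩) (d := d) (fun g m => by
        rw [hα, map_sub, nat]; rfl)
    rwa [Ext.mk₀_zero, Ext.zero_comp] at this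
  · obtain ⟨I, Q, i, p, w, _, hS⟩ := pres G'
    obtain ⟨z, y, h1, h2, h3⟩ := DUcx.push h hS ψ
    have := mk' (a := a) hS (φ ≫ z) (y.comp (φ.hom.app (op W)).hom) (fun m => h1 _) (d := d')
      (fun g m => by
        rw [hd, h3]
        exact congrArg (fun t => _ - y t) (nat φ.hom (a g) m).symm)
    rwa [← Ext.mk₀_comp_mk₀_assoc, h2] at this

end Pool.Agent.MP_855f4c_ag.E

end

section

set_option autoImplicit false
set_option backward.isDefEq.respectTransparency false

open CategoryTheory Limits Abelian Opposite AlgebraicGeometry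

namespace Pool.Agent.MP_855f4c_ag.E

open E3 E4 Function

section generic
variable {C : Type 1} [Category.{0} C] (J : GrothendieckTopology C) (l : ℕ) (P : Cᵒᵖ ⥤ Ab.{1})

/-- Arrows along which `s` becomes `l`-primary torsion. -/
def muiSieve {T : C} (s : P.obj (op T)) : Sieve T where
  arrows Y y := ∃ n : ℕ, l ^ n • P.map y.op s = 0
  downward_closed {Y Z y} h g := h.imp fun n h => by rw [← res_res, ← map_nsmul, h, map_zero]

/-- Sections that are locally `l`-primary torsion. -/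
def muiSub (T : C) : AddSubgroup (P.obj (op T)) where
  carrier := {s | muiSieve l P s ∈ J T}
  zero_mem' := J.superset_covering (fun _ _ _ => ⟨0, by simp⟩) (J.top_mem T)
  add_mem' {a b} ha hb := J.superset_covering (S := muiSieve l P a ⊓ muiSieve l P b)
    (fun _ y ⟨⟨n, h1⟩, ⟨m, h2⟩⟩ => ⟨n + m, by
      rw [map_add, smul_add, pow_add, mul_smul, mul_smul, h2, smul_comm, h1]; simp⟩)
    (J.intersection_covering ha hb)
  neg_mem' {a} ha := J.superset_covering (S := muiSieve l P a)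
    (fun _ y h => h.imp fun n h1 => by rw [map_neg, smul_neg, h1, neg_zero]) ha

variable {J l P} in
lemma muiSub_of {T : C} {s : P.obj (op T)} (n : ℕ) (h : l ^ n • s ∈ muiSub J l P T) :
    s ∈ muiSub J l P T :=
  J.superset_covering (S := muiSieve l P (l ^ n • s))
    (fun _ y ⟨m, h⟩ => ⟨m + n, by rwa [pow_add, mul_smul, ← map_nsmul]⟩) h

variable {J l P} in
lemma muiSub_tor {T : C} {s : P.obj (op T)} (n : ℕ) (h : l ^ n • s = 0) : s ∈ muiSub J l P T :=
  muiSub_of n (h ▸ zero_mem _)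

/-- The subpresheaf of such sections. -/
def muiP : Cᵒᵖ ⥤ Ab.{1} where
  obj T := AddCommGrpCat.of (muiSub J l P T.unop)
  map g := AddCommGrpCat.ofHom (((P.map g).hom.comp (AddSubgroup.subtype _)).codRestrict _
    fun s => J.superset_covering (S := (muiSieve l P s.1).pullback g.unop)
      (fun _ y h => h.imp fun _ h1 => (congrArg _ (res_res P y g.unop s.1)).trans h1)
      (J.pullback_stable g.unop s.2))
  map_id T := by ext s; exact res_id P s.1
  map_comp f g := by ext s; exact (res_res P g.unop f.unop s.1).symm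

lemma muiP_isSheaf (hP : Presheaf.IsSheaf J P) : Presheaf.IsSheaf J (muiP J l P) := by
  refine isSheaf_of_type fun T S hS x hx => ?_
  obtain ⟨t, ht, ht'⟩ := isSheaf_type hP S hS (fun Y y hy => (x y hy).1)
    (fun Y₁ Y₂ Z g₁ g₂ f₁ f₂ h₁ h₂ e => congrArg Subtype.val (hx g₁ g₂ h₁ h₂ e))
  refine ⟨⟨t, J.transitive hS _ fun Y y hy => J.superset_covering (S := muiSieve l P (x y hy).1)
    (fun Z z h => h.imp fun n h1 => ?_) (x y hy).2⟩, fun Y y hy => Subtype.ext (ht y hy),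
      fun u hu => Subtype.ext (ht' _ fun Y y hy => congrArg Subtype.val (hu y hy))⟩
  rw [← res_res, ← h1]
  exact congrArg (fun s => l ^ n • P.map z.op s) (ht y hy)

end generic

variable {X : Scheme.{0}}

/-- On a quasi-compact scheme, locally torsion sections are torsion. -/
lemma mui_tor {l : ℕ} (F : Sh (Scheme.etaleTopology.over X)) {T : Over X} [CompactSpace T.left] {s : F.obj.obj (op T)}
    (h : s ∈ muiSub (Scheme.etaleTopology.over X) l F.obj T) : ∃ n : ℕ, l ^ n • s = 0 := by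
  choose V v _ h2 h3 h4 using exists_of_mem_Jov h
  choose n hn using h3
  obtain ⟨A, hA⟩ := isCompact_univ.elim_finite_subcover (fun t => Set.range (v t).left)
    (fun t => (v t).left.isOpenMap.isOpen_range) fun t _ => Set.mem_iUnion.2 ⟨t, h4 t⟩
  refine ⟨A.sup n, sepP F.property _ ⟨fun Y y => F.obj.map y.op (l ^ A.sup n • s) = 0,
    fun {Y Z y} h g => by rw [← res_res, h, map_zero]⟩ (mem_Jov_of _ fun t => ?_) fun _ _ h => h⟩
  obtain ⟨a, ha, ht⟩ := Set.mem_iUnion₂.1 (hA (Set.mem_univ t))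
  obtain ⟨m, hm⟩ := Nat.exists_eq_add_of_le' (Finset.le_sup (f := n) ha)
  refine ⟨V a, v a, h2 a, ?_, ht⟩
  change F.obj.map (v a).op (l ^ A.sup n • s) = 0
  rw [hm, map_nsmul, pow_add, mul_smul, hn, smul_zero]

/-- Roots of unity of `l`-power order. -/
noncomputable def muiS (l : ℕ) (X : Scheme.{0}) : Sh (Scheme.etaleTopology.over X) :=
  ⟨muiP (Scheme.etaleTopology.over X) l (Gm X).obj, muiP_isSheaf _ _ _ (Gm X).property⟩

/-- The inclusion into `Gm`. -/
noncomputable def muiI (l : ℕ) (X : Scheme.{0}) : muiS l X ⟶ Gm X :=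
  ⟨{ app T := AddCommGrpCat.ofHom (AddSubgroup.subtype _) }⟩

instance (l : ℕ) : Mono (muiI l X) :=
  Sheaf.mono_of_injective _ fun _ => Subtype.val_injective

/-- The inclusion of `mu (l ^ n)`. -/
noncomputable def muiJ (l n : ℕ) (X : Scheme.{0}) : mu X (l ^ n) ⟶ muiS l X :=
  ⟨{ app T := AddCommGrpCat.ofHom (((muι X (l ^ n)).hom.app T).hom.codRestrict _ fun s =>
        muiSub_tor n ((muι_range _ _ _).2 ⟨s, rfl⟩))
     naturality T T' g := by ext s; exact Subtype.ext (nat (muι X (l ^ n)).hom g.unop s) }⟩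

lemma mui_epi {l : ℕ} (hl : Linv l X) (n : ℕ) : Epi (((l ^ n : ℕ) : ℤ) • 𝟙 (muiS l X)) := by
  have := (kummer (X := X) (n := l ^ n) fun k _ x => by simpa using pow_ne_zero n (hl k x)).epi_g
  refine epi_of_loc _ fun R _ u s p hp => ?_
  have := hp.isPrime
  obtain ⟨E, h1, t, ht⟩ := loc_lift u (kumS X (l ^ n)).g s.1 p
  exact ⟨E, h1, ⟨t, muiSub_of n (((natCast_zsmul _ _).symm.trans ht).symm ▸
    (rs u (muiS l X).obj E.ι s).2)⟩, Subtype.ext ht⟩

variable (l : ℕ) [Fact l.Prime]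

lemma mui_alg (k : Type) [Field k] [IsAlgClosed k] (hl : (l : k) ≠ 0) :
    ∃ f : QZ l →+ Additive kˣ, Injective f ∧
      ∀ n, ∃ c, IsPrimitiveRoot ((f c).toMul : k) (l ^ n) := by
  obtain ⟨e⟩ := exMu (l := l) k hl
  refine ⟨(Subgroup.subtype _).toAdditive.comp e.symm.toAddMonoidHom,
    fun a b h => e.symm.injective (Additive.toMul.injective
      (Subtype.ext (congrArg Additive.toMul h))), fun n => ?_⟩
  have : NeZero ((l ^ n : ℕ) : k) := ⟨by simpa using pow_ne_zero n hl⟩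
  obtain ⟨ω, hω⟩ := HasEnoughRootsOfUnity.exists_primitiveRoot k (l ^ n)
  refine ⟨e (Additive.ofMul ⟨(hω.isUnit (pow_ne_zero n (Fact.out : l.Prime).ne_zero)).unit,
    n, Units.ext hω.pow_eq_one⟩), ?_⟩
  simpa using hω

/-- Sections over a field. -/
noncomputable def muiEv (Ω : Type) [Field Ω] (x : Spec (.of Ω) ⟶ X) :
    sec (muiS l X) (Over.mk x) ≃+ MuI l Ω where
  toFun s := Additive.ofMul ⟨(GmEquiv x s.1).toMul,
    have : CompactSpace (Over.mk x).left := inferInstanceAs (CompactSpace (Spec _))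
    (mui_tor _ s.2).imp fun _ h => (mu_pow _ x _).2 h⟩
  invFun z := ⟨(GmEquiv x).symm (Additive.ofMul z.toMul.1), z.toMul.2.elim fun n h =>
    muiSub_tor n ((mu_pow _ x _).1 (by rw [AddEquiv.apply_symm_apply]; exact h))⟩
  left_inv s := Subtype.ext ((GmEquiv x).symm_apply_apply s.1)
  right_inv z := Additive.toMul.injective (Subtype.ext
    (congrArg Additive.toMul ((GmEquiv x).apply_symm_apply _)))
  map_add' s t := Additive.toMul.injective (Subtype.ext
    (congrArg Additive.toMul (map_add (GmEquiv x) s.1 t.1)))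

theorem mui_iso (k : Type) [Field k] [IsAlgClosed k] (Y : Scheme.{0}) (r : Y ⟶ X)
    (y : Y ⟶ Spec (.of k)) (hl : (l : k) ≠ 0) :
    Nonempty ((pb (J := Scheme.etaleTopology) r).obj (muiS l X) ≅ Linf l Y) := by
  obtain ⟨f, hf, hp⟩ := mui_alg l k hl
  let G := (pb (J := Scheme.etaleTopology) r).obj (muiS l X)
  let κ (T : Over Y) : k →+* Γ(T.left, ⊤) :=
    ((Scheme.ΓSpecIso (.of k)).inv ≫ (T.hom ≫ y).appTop).hom
  have hκ {T T' : Over Y} (g : T' ⟶ T) (c : k) : g.left.appTop (κ T c) = κ T' c := by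
    simp only [κ, ← Over.w g, Category.assoc, Scheme.Hom.comp_appTop g.left]
    rfl
  let ψ (T : Over Y) : ULift.{1} (QZ l) →+ (Gm X).obj.obj (op ((Over.map r).obj T)) :=
    (GmTop _).symm.toAddMonoidHom.comp ((Units.map (κ T).toMonoidHom).toAdditive.comp
      (f.comp AddEquiv.ulift.toAddMonoidHom))
  let φ : (Functor.const _).obj (AddCommGrpCat.of (ULift.{1} (QZ l))) ⟶ G.obj :=
    { app T := AddCommGrpCat.ofHom ((ψ T.unop).codRestrict _ fun c => (cof_QZ.1 c.down).elim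
        fun n h => muiSub_tor n ((map_nsmul (ψ T.unop) _ c).symm.trans
          ((congrArg _ (ULift.ext _ _ h)).trans (map_zero _))))
      naturality T T' g := by ext c; exact Subtype.ext (Gm_ext (hκ g.unop _).symm) }
  let e : (cst Y).obj (AddCommGrpCat.of (ULift.{1} (QZ l))) ⟶ G := ⟨sheafifyLift _ φ G.property⟩
  have he : toSheafify (Scheme.etaleTopology.over Y) _ ≫ e.hom = φ := toSheafify_sheafifyLift _ _ _
  have : Presheaf.IsLocallyInjective (Scheme.etaleTopology.over Y) φ := ⟨fun {T} a b h => mem_Jov_of _ fun t => by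
    obtain rfl : a = b := by
      have : Nonempty (⊤ : T.unop.left.Opens) := ⟨⟨t, trivial⟩⟩
      exact ULift.ext _ _ (hf (Additive.toMul.injective (Units.ext ((κ T.unop).injective
        (congrArg (fun s : G.obj.obj T => ((GmTop ((Over.map r).obj T.unop) s.1).toMul).val) h)))))
    exact ⟨_, 𝟙 _, (inferInstance : Etale (𝟙 _)), rfl, t, by simp⟩⟩
  have : Sheaf.IsLocallyInjective e :=
    Presheaf.isLocallyInjective_of_isLocallyInjective_of_isLocallySurjective_fac _ φ he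
  have := Sheaf.mono_of_isLocallyInjective e
  have : Epi e := epi_of_loc _ fun R _ u s m hm => by
    let := Ideal.Quotient.field m
    have : CompactSpace ((Over.map r).obj (ob u R)).left := inferInstanceAs (CompactSpace (Spec _))
    obtain ⟨n, hn⟩ := mui_tor (T := (Over.map r).obj (ob u R)) _ s.2
    obtain ⟨c, hc⟩ := hp n
    have : NeZero (l ^ n) := ⟨pow_ne_zero n (Fact.out : l.Prime).ne_zero⟩
    let ν : k →+* R := (Scheme.ΓSpecIso (.of R)).hom.hom.comp (κ (ob u R))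
    obtain ⟨i, E, -, h2, h3⟩ := root_loc (n := l ^ n) (ζ := ν (f c).toMul)
      (σ := (GmEquiv ((ob u R).hom ≫ r) s.1).toMul) (by rw [← map_pow, hc.pow_eq_one, map_one])
      (congrArg Units.val ((mu_pow _ _ _).2 hn)) m
      (hc.map_of_injective ((Ideal.Quotient.mk m).comp ν).injective)
    refine ⟨E, h2, (toSheafify (Scheme.etaleTopology.over Y) ((Functor.const _).obj (AddCommGrpCat.of
      (ULift.{1} (QZ l))))).app (op (ob u E.E)) (ULift.up (i • c)),
      Eq.trans congr(($he).app _ (ULift.up (i • c))) (Subtype.ext (Gm_ext ?_))⟩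
    refine (ConcreteCategory.bijective_of_isIso (Scheme.ΓSpecIso (.of E.E)).hom).1 ?_
    have h4 (z : Γ(Spec (.of R), ⊤)) : (Scheme.ΓSpecIso (.of E.E)).hom
        ((E4.hm u E.ι).left.appTop z) = E.ι ((Scheme.ΓSpecIso (.of R)).hom z) :=
      ConcreteCategory.congr_hom (Scheme.ΓSpecIso_naturality (CommRingCat.ofHom E.ι.toRingHom)) z
    refine Eq.trans ?_ (h3.trans (h4 _).symm)
    change (Scheme.ΓSpecIso (.of E.E)).hom (κ (ob u E.E) (f (i • c)).toMul) = _
    rw [← hκ (E4.hm u E.ι), h4, map_nsmul, toMul_nsmul, Units.val_pow_eq_pow_val, map_pow, map_pow,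
      map_pow]
    rfl
  have := isIso_of_mono_of_epi e
  exact ⟨(asIso e).symm⟩

theorem mui : MUI_s := fun l _ X hl => by
  refine ⟨muiS l X, muiEv l, fun Ω Ω' _ _ g x x' h s => Additive.toMul.injective
    (Subtype.ext (Units.ext (GmEquiv_sph g h s.1))), fun k _ _ Y r y => mui_iso l k Y r y,
    fun T _ _ q y => ?_⟩
  obtain ⟨n, hn⟩ := H_tor (l := l) T (F := muiS l X)
    (fun T _ s => (mui_tor _ s.2).imp fun _ h => Subtype.ext h) q y
  have := mui_epi hl n
  let S := ShortComplex.mk _ _ (kernel.condition (((l ^ n : ℕ) : ℤ) • 𝟙 (muiS l X)))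
  have hS : S.ShortExact := { exact := ShortComplex.exact_kernel _ }
  obtain ⟨z, hz⟩ := Ext.covariant_sequence_exact₂ _ hS y (by
    rw [← hn]
    change y.comp (Ext.mk₀ (((l ^ n : ℕ) : ℤ) • 𝟙 (muiS l X))) (add_zero q) = _
    rw [natCast_zsmul]
    induction l ^ n with
    | zero => simp
    | succ m ih => rw [succ_nsmul, succ_nsmul, Ext.mk₀_add, Ext.comp_add, ih, Ext.comp_mk₀_id])
  let a : S.X₁ ⟶ mu X (l ^ n) := kernel.lift _ (S.f ≫ muiI l X) (by
    have := kernel.condition (((l ^ n : ℕ) : ℤ) • 𝟙 (muiS l X)) =≫ muiI l X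
    rw [Category.assoc, Preadditive.zsmul_comp, Category.id_comp, zero_comp] at this
    rwa [Category.assoc, Preadditive.comp_zsmul, Category.comp_id])
  have ha : a ≫ muiJ l n X = S.f := by
    rw [← cancel_mono (muiI l X), Category.assoc]
    exact kernel.lift_ι _ _ _
  refine ⟨n, muiJ l n X, z.comp (Ext.mk₀ a) (add_zero q), ?_⟩
  rw [← hz, ← ha, ← Ext.mk₀_comp_mk₀]
  exact Ext.comp_assoc_of_second_deg_zero _ _ _ _

end Pool.Agent.MP_855f4c_ag.E

end
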