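import Pool.Agent.MP_855f4c_ag.EC.Cb
import Pool.Agent.MP_855f4c_ag.EC.F1b
import Pool.Agent.MP_855f4c_ag.EC.Pa
import Pool.Agent.MP_855f4c_ag.EC.E4a

section

/-! h86e section D (duality): definitions and statements. -/

set_option autoImplicit false
set_option backward.isDefEq.respectTransparency false

open CategoryTheory Limits Abelian Opposite AlgebraicGeometry

namespace Pool.Agent.MP_855f4c_ag.E.D

open E3 E4
open CV (Ln Lm)

variable {X Y S : Scheme.{0}}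

/-- Affine and etale over `X`. -/
def Aet (W : Over X) : Prop := Etale W.hom ∧ IsAffine W.left

/-- The structure map. -/
noncomputable def tot (W : Over X) : W ⟶ top X := Over.homMk W.hom (Category.comp_id _)

/-- The tautological section of `Ln n W`. -/
noncomputable def tau (n : ℕ) (W : Over X) : sec (Ln n W) W := frEquiv W _ (cokernel.π _)

/-- `n` is a power of `l`. -/
def Lp (l n : ℕ) : Prop := ∃ e, n = l ^ e

/-- Noetherian, separated, `l` invertible. -/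
def Ns (l : ℕ) (X : Scheme.{0}) : Prop := IsNoetherian X ∧ X.IsSeparated ∧ Linv l X

/-- `F` vanishes at the dense points. -/
def GZr (F : Sh (Scheme.etaleTopology.over X)) : Prop :=
  ∀ (k : Type) [Field k] [IsAlgClosed k] (x : Spec (.of k) ⟶ X),
    (∀ z, Dense ({x z} : Set X)) → ∀ s : sec F (Over.mk x), s = 0

section
variable (l : ℕ) (X : Scheme.{0}) (N : ℕ)

/-- Cohomological dimension at most `N`. -/
def CD : Prop := ∀ F : Sh (Scheme.etaleTopology.over X), Tc l F → ∀ q, N < q → ∀ x : H (top X) F q, x = 0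

/-- Cohomological dimension at most `N - 2` for sheaves that vanish at the dense points. -/
def CDZ : Prop := ∀ F : Sh (Scheme.etaleTopology.over X), Tc l F → GZr F → ∀ q, N ≤ q + 1 → ∀ x : H (top X) F q, x = 0

/-- The top cohomology is cyclic. -/
def CYC : Prop := ∀ n, Lp l n → Nonempty (H (top X) (Ln n (top X)) N ≃+ ZMod n)

/-- The trace maps are onto. -/
def NZ : Prop := ∀ W : Over X, Aet W → Nonempty W.left →
  Function.Surjective (Hmap (Lm l (tot W)) (top X) N)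

/-- The kernel of the trace is effaceable. -/
def TRC : Prop := ∀ W : Over X, Aet W → ∀ w : W.left, ∃ (W' : Over X) (h : W' ⟶ W), Aet W' ∧
  w ∈ Set.range h.left ∧ ∀ x : H (top X) (Ln l W') N, Hmap (Lm l (tot W')) _ N x = 0 →
    Hmap (Lm l h) _ N x = 0

/-- The lower cohomology with compact supports is effaceable. -/
def EFF : Prop := ∀ W : Over X, Aet W → ∀ (w : W.left) (j : ℕ), j < N →
  ∃ (W' : Over X) (h : W' ⟶ W), Aet W' ∧ w ∈ Set.range h.left ∧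
    ∀ x : H (top X) (Ln l W') j, Hmap (Lm l h) _ j x = 0

end

section
variable (l : ℕ) [Fact l.Prime]

/-- The duality map. -/
noncomputable abbrev phi {N : ℕ} (t : H (top X) (Linf l X) N →+ QZ l) (A : Sh (Scheme.etaleTopology.over X)) {i j : ℕ}
    (h : j + i = N) (x : Ext A (Linf l X) i) : H (top X) A j →+ QZ l :=
  t.comp (x.postcomp ((fr (Scheme.etaleTopology.over X)).obj (top X)) h)

/-- Duality for the trace `t`. -/
def PDt {N : ℕ} (t : H (top X) (Linf l X) N →+ QZ l) : Prop :=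
  ∀ A : Sh (Scheme.etaleTopology.over X), Tc l A → ∀ (i j : ℕ) (h : j + i = N), Function.Bijective (phi l t A h)

/-- Duality in dimension `N`. -/
def PD (X : Scheme.{0}) (N : ℕ) : Prop := ∃ t : H (top X) (Linf l X) N →+ QZ l, PDt l t

end

/-- Towers of `d` projective lines. -/
inductive TwN : ℕ → ∀ {Y S : Scheme.{0}}, (Y ⟶ S) → Prop
  | iso {Y S : Scheme.{0}} (g : Y ⟶ S) (h : IsIso g) : TwN 0 g
  | step {d : ℕ} {Y S : Scheme.{0}} (L : PL Y) (g : Y ⟶ S) : TwN d g → TwN (d + 1) (L.π ≫ g)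

/-- Affine open charts that are etale over towers of height `d`. -/
def Chart (d : ℕ) (f : X ⟶ S) : Prop :=
  ∀ x : X, ∃ (W P : Scheme.{0}) (u : W ⟶ X) (g : P ⟶ S) (v : W ⟶ P), IsAffine W ∧
    IsOpenImmersion u ∧ TwN d g ∧ Etale v ∧ u ≫ f = v ≫ g ∧ x ∈ Set.range u

/-! ### Block 1: abstract duality on a site -/

def GENB_s : Prop := ∀ (l : ℕ) [Fact l.Prime] (X : Scheme.{0}) (n : ℕ) (A : Sh (Scheme.etaleTopology.over X))
  (B : ∀ W : Over X, (Ln n W ⟶ A) → Prop), Lp l n → Linv l X → Tc l A → n • 𝟙 A = 0 →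
    (∀ W, Aet W → ∀ (a : Ln n W ⟶ A) (w : W.left), ∃ (W' : Over X) (h : W' ⟶ W), Aet W' ∧
      w ∈ Set.range h.left ∧ B W' (Lm _ h ≫ a)) →
    ∃ (ι : Type 1) (W : ι → Over X) (a : ∀ i, Ln n (W i) ⟶ A),
      (∀ i, Aet (W i) ∧ B (W i) (a i)) ∧ Epi (Sigma.desc a) ∧
        Tc l (∐ fun i => Ln n (W i)) ∧ n • 𝟙 (∐ fun i => Ln n (W i)) = 0

def LNM_s : Prop := ∀ (X : Scheme.{0}) (n : ℕ),
  (∀ (l : ℕ) [Fact l.Prime] (W : Over X), Lp l n → Etale W.hom → Tc l (Ln n W)) ∧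
  Nonempty (Ln n (top X) ≅ (con X).obj (.of (ZMod n))) ∧
  (∀ (a b : ℕ) (W : Over X), n = a * b → n ≠ 0 → ∃ (i : Ln a W ⟶ Ln n W) (p : Ln n W ⟶ Ln b W)
    (w : i ≫ p = 0), (ShortComplex.mk i p w).ShortExact) ∧
  (∀ (W' W : Over X) (h : W' ⟶ W), Mono h → Mono (Lm n h)) ∧
  ∀ (k : Type) [Field k] [IsAlgClosed k] (x : Spec (.of k) ⟶ X),
    ∃ e : ∀ W : Over X, sec (Ln n W) (Over.mk x) ≃+ ((Over.mk x ⟶ W) →₀ ZMod n),
      (∀ (W : Over X) (y : Over.mk x ⟶ W), e W (rsec y _ (tau _ W)) = Finsupp.single y 1) ∧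
      ∀ (W' W : Over X) (g : W' ⟶ W) s,
        e W ((Lm _ g).hom.app _ s) = Finsupp.mapDomain (· ≫ g) (e W' s)

def SUMH_s : Prop := ∀ (X : Scheme.{0}) (T : Over X) [CompactSpace T.left] [T.left.IsSeparated]
  (ι : Type 1) (F : ι → Sh (Scheme.etaleTopology.over X)) (q : ℕ) (x : H T (∐ F) q),
    ∃ (s : Finset ι) (y : ∀ i, H T (F i) q), x = ∑ i ∈ s, Hmap (Sigma.ι F i) T q (y i)

def COEF_s : Prop := ∀ (l : ℕ) [Fact l.Prime] (X : Scheme.{0}) (n : ℕ) (W : Over X), n ≠ 0 →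
  Aet W → ∀ (i : ℕ) (x : Ext (Ln n W) (Linf l X) (i + 1)) (w : W.left),
    ∃ (W' : Over X) (h : W' ⟶ W), Aet W' ∧ w ∈ Set.range h.left ∧ pre (Lm n h) _ _ x = 0

def EMBQ_s : Prop := ∀ (l : ℕ) [Fact l.Prime] (X : Scheme.{0}) (N : ℕ), Ns l X → CD l X N →
  CYC l X N → ∃ (t : H (top X) (Linf l X) N →+ QZ l) (a : Ln l (top X) ⟶ Linf l X),
    Function.Injective (t.comp (Hmap a (top X) N)) ∧ Nontrivial (H (top X) (Ln l (top X)) N) ∧
    ∀ W : Over X, Aet W → ∀ (b : Ln l W ⟶ Linf l X) (w : W.left),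
      ∃ (W' : Over X) (h : W' ⟶ W) (c : ℤ), Aet W' ∧ w ∈ Set.range h.left ∧
        Lm l h ≫ b = c • (Lm l (tot W') ≫ a)

def DSET_s : Prop := ∀ (l : ℕ) [Fact l.Prime] (X : Scheme.{0}) (N : ℕ), Ns l X → CD l X N →
  CYC l X N → NZ l X N → TRC l X N → ∃ t : H (top X) (Linf l X) N →+ QZ l,
    (∀ A : Sh (Scheme.etaleTopology.over X), Tc l A → l • 𝟙 A = 0 → ∀ (j : ℕ) (h : j + 1 = N),
      Function.Injective (phi l t A h)) ∧ (EFF l X N → PDt l t)

def CONN_s : Prop := ∀ (l : ℕ) [Fact l.Prime] (X : Scheme.{0}) (N n : ℕ), Lp l n → PD l X N →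
  ∀ W : Over X, Etale W.hom → ConnectedSpace W.left →
    Function.Injective (Hmap (Lm n (tot W)) (top X) N)

def DENSE_s : Prop := ∀ (l : ℕ) [Fact l.Prime] (X : Scheme.{0}) (N n : ℕ), Lp l n → CD l X N →
  CDZ l X N → ∀ (W' W : Over X) (h : W' ⟶ W), Etale W'.hom → Etale W.hom →
    IrreducibleSpace W.left → Nonempty W'.left →
      Function.Surjective (Hmap (Lm n h) (top X) N) ∧
      (Mono h → Function.Injective (Hmap (Lm n h) (top X) N) ∧
        ∀ q, q + 1 = N → Function.Surjective (Hmap (Lm n h) (top X) q))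

/-! ### Block 2: slices and products -/

def SLW_s : Prop := ∀ (X : Scheme.{0}) (n q : ℕ) (T : Over X),
  ∃ s : ∀ W : Over X, H T (Ln n W) q ≃+ H (top T.left) (Ln n ((Over.pullback T.hom).obj W)) q,
    ∀ (W' W : Over X) (h : W' ⟶ W) x,
      s W (Hmap (Lm n h) T q x) = Hmap (Lm n ((Over.pullback T.hom).map h)) _ q (s W' x)

/-- Multiplication of a class with coefficients `ℤ/n` by an `n`-torsion section. -/
structure Smul (X : Scheme.{0}) (n q : ℕ) where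
  m : ∀ (U : Over X) (F : Sh (Scheme.etaleTopology.over X)) (s : sec F U), n • s = 0 → H U (Ln n (top X)) q →+ H U F q
  res : ∀ {U' U : Over X} (g : U' ⟶ U) (F : Sh (Scheme.etaleTopology.over X)) (s : sec F U) hs hs' x,
    E.res g F q (m U F s hs x) = m U' F (rsec g F s) hs' (E.res g _ q x)
  map : ∀ (U : Over X) {F G : Sh (Scheme.etaleTopology.over X)} (φ : F ⟶ G) (s : sec F U) hs hs' x,
    Hmap φ U q (m U F s hs x) = m U G (φ.hom.app _ s) hs' x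
  add : ∀ (U : Over X) (F : Sh (Scheme.etaleTopology.over X)) (s s' : sec F U) hs hs' h x,
    m U F (s + s') h x = m U F s hs x + m U F s' hs' x
  one : ∀ (U : Over X) hs x, m U _ (rsec (tot U) _ (tau n (top X))) hs x = x
  bij : ∀ (l : ℕ) [Fact l.Prime] (U : Over X) (F : Sh (Scheme.etaleTopology.over X)) (ι : Type) [Fintype ι]
    (s : ι → sec F U) (hs : ∀ i, n • s i = 0), Lp l n → Tc l F → Linv l U.left →
    (∀ (k : Type) [Field k] [IsAlgClosed k] (x : Spec (.of k) ⟶ X) (y : Over.mk x ⟶ U),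
      (∀ z, ∃ c : ι → ℤ, z = ∑ i, c i • rsec y F (s i)) ∧
        ∀ c : ι → ℤ, ∑ i, c i • rsec y F (s i) = 0 → ∀ i, (n : ℤ) ∣ c i) →
    Function.Bijective fun x : ι → H U (Ln n (top X)) q => ∑ i, m U F (s i) (hs i) (x i)

def SMUL_s : Prop := ∀ (X : Scheme.{0}) (n q : ℕ), Nonempty (Smul X n q)

def PAIR_s : Prop := ∀ (l : ℕ) [Fact l.Prime] (X : Scheme.{0}) (T : Over X) (N : ℕ),
  PD l T.left N → ∃ t : H T (Linf l X) N →+ QZ l, ∀ (m i j : ℕ), j + i = N →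
    ∃ b : Ext (Ln (l ^ m) T) (Linf l X) i →+ H T (Zl X l m) j →+ H T (Linf l X) N,
      (∀ x, (∀ y, t (b x y) = 0) → x = 0) ∧
      ∀ (g : T ⟶ T) x y, b (pre (Lm _ g) _ i x) (res g _ j y) = res g _ N (b x y)

/-! ### Block 3: independence of the compactification -/

def IND_s : Prop := ∀ (l : ℕ) [Fact l.Prime] (X Y : Scheme.{0}) (p : Y ⟶ X) [IsProper p]
  [IsLocallyNoetherian X] (n q : ℕ), Lp l n → Linv l X →
    ∃ e : ∀ (W : Over Y), Aet W → Etale (W.hom ≫ p) → ∀ T : Over X,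
        H T (Ln n ((Over.map p).obj W)) q ≃+ H ((Over.pullback p).obj T) (Ln n W) q,
      (∀ (W' W : Over Y) (h : W' ⟶ W) a' b' a b T x,
        e W a b T (Hmap (Lm _ ((Over.map p).map h)) T q x) = Hmap (Lm _ h) _ q (e W' a' b' T x)) ∧
      ∀ W a b (T' T : Over X) (g : T' ⟶ T) x,
        e W a b T' (res g _ q x) = res ((Over.pullback p).map g) _ q (e W a b T x)

def IND2_s : Prop := ∀ (l : ℕ) [Fact l.Prime] (K : Type) [Field K] (X P W₀ : Scheme.{0})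
  (f : X ⟶ Spec (.of K)) (g : P ⟶ Spec (.of K)) [IsProper f] [IsProper g] [IsAffine W₀]
  (u : W₀ ⟶ X) (v : W₀ ⟶ P) [IsOpenImmersion u] [Etale v] (n q : ℕ), Lp l n → (l : K) ≠ 0 →
    u ≫ f = v ≫ g →
    ∃ e : ∀ (W : Over W₀), Aet W → ∀ T : Over (Spec (.of K)),
        H ((Over.pullback f).obj T) (Ln n ((Over.map u).obj W)) q ≃+
          H ((Over.pullback g).obj T) (Ln n ((Over.map v).obj W)) q,
      (∀ (W' W : Over W₀) (h : W' ⟶ W) a' a T x,
        e W a T (Hmap (Lm _ ((Over.map u).map h)) _ q x) =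
          Hmap (Lm _ ((Over.map v).map h)) _ q (e W' a' T x)) ∧
      ∀ W a (T' T : Over (Spec (.of K))) (c : T' ⟶ T) x,
        e W a T' (res ((Over.pullback f).map c) _ q x) =
          res ((Over.pullback g).map c) _ q (e W a T x)

/-! ### Block 4: towers -/

def KILL_s : Prop := ∀ (l : ℕ) [Fact l.Prime] (S : Scheme.{0}) (L : PL S) (W : Over L.P),
  Ns l S → (∀ n, n ≠ 0 → Linv n S) → Aet W → ∀ w : W.left,
    ∃ (V : Over S) (W' : Over L.P) (h : W' ⟶ W) (r : W' ⟶ (Over.pullback L.π).obj V),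
      Aet V ∧ Aet W' ∧ w ∈ Set.range h.left ∧
      AlgebraicGeometry.Surjective (r.left ≫ pullback.fst V.hom L.π) ∧
      ∀ (k : Type) [Field k] [IsAlgClosed k] (t : Spec (.of k) ⟶ S),
        (∀ x : H (fbr L.π t) (Ln l W') 1, Hmap (Lm l h) _ 1 x = 0) ∧
        ∀ x : H (fbr L.π t) (Ln l W') 2, Hmap (Lm l r) _ 2 x = 0 → Hmap (Lm l h) _ 2 x = 0

def TOW_s : Prop := ∀ (l : ℕ) [Fact l.Prime] (Ω : Type) [Field Ω] [IsAlgClosed Ω] [CharZero Ω]
  (d : ℕ) (P : Scheme.{0}) (g : P ⟶ Spec (.of Ω)), TwN d g →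
    CD l P (2 * d) ∧ CDZ l P (2 * d) ∧ EFF l P (2 * d) ∧ TRC l P (2 * d)

def TWS_s : Prop := ∀ (l : ℕ) [Fact l.Prime] (Ω : Type) [Field Ω] [IsAlgClosed Ω] (d n : ℕ)
  (P S : Scheme.{0}) (g : P ⟶ S) (t : Spec (.of Ω) ⟶ S), Lp l n → TwN d g → Linv l S →
    Nonempty (H (fbr g t) (Ln n (top P)) (2 * d) ≃+ ZMod n) ∧
    ∀ (ψ : Ω →+* Ω) (hψ : spc ψ ≫ t = t) (Q : ℕ), (∀ ζ : Ω, ζ ^ n = 1 → ψ ζ ^ Q = ζ) →
      ∀ x, Hact g (Ln n (top P)) (2 * d) ψ hψ x = Q ^ d • x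

/-! ### Block 5: geometry -/

def TWF_s : Prop :=
  (∀ (d : ℕ) (P S : Scheme.{0}) (g : P ⟶ S), TwN d g → IsProper g ∧ Smooth g ∧
    (IrreducibleSpace S → IrreducibleSpace P) ∧
    ∀ (P' S' : Scheme.{0}) (g' : P' ⟶ S') (a : S' ⟶ S) (b : P' ⟶ P), IsPullback b g' g a →
      TwN d g') ∧
  (∀ (d : ℕ) (K : Type) [CommRing K], ∃ (P : Scheme.{0}) (g : P ⟶ Spec (.of K))
    (j : Spec (.of (MvPolynomial (Fin d) K)) ⟶ P), TwN d g ∧ IsOpenImmersion j ∧
      j ≫ g = spc (algebraMap K _)) ∧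
  ∀ (d : ℕ) (X S X' S' : Scheme.{0}) (f : X ⟶ S) (f' : X' ⟶ S') (a : S' ⟶ S) (b : X' ⟶ X),
    IsPullback b f' f a → IsAffineHom a → Chart d f → Chart d f'

def INTB_s : Prop := ∀ (K : Type) [Field K] (X : Scheme.{0}) (f : X ⟶ Spec (.of K)) [Smooth f]
  (x : X), ∃ U : X.Opens, x ∈ U ∧ IsAffineOpen U ∧ IsIntegral U

def CHT_s : Prop := ∀ (K : Type) [Field K] (X : Scheme.{0}) (f : X ⟶ Spec (.of K)) [Smooth f]
  [IrreducibleSpace X], ∃ d, Chart d f

def COMP_s : Prop := ∀ (R Ω : Type) [CommRing R] [Field Ω] [IsAlgClosed Ω] (τ : R →+* Ω)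
  (X : Scheme.{0}) (f : X ⟶ Spec (.of R)) [Smooth f] [IsProper f], ∃ E : Finset Ω,
    ∀ (K : Subfield Ω) (τ' : R →+* K), K.subtype.comp τ' = τ → (∀ e ∈ E, e ∈ K) →
      ∃ (ι : Type) (_ : Finite ι) (Z : ι → Scheme.{0}) (u : ∀ a, Z a ⟶ X)
        (g : ∀ a, Z a ⟶ Spec (.of K))
        (c : ∀ a, (Over.map (u a)).obj (fbr (g a) (spc K.subtype)) ⟶ fbr f (spc τ)),
        (∀ a, Smooth (g a) ∧ IsProper (g a) ∧ IrreducibleSpace (Z a) ∧
          IrreducibleSpace (fbr (g a) (spc K.subtype)).left ∧ IsOpenImmersion (c a).left ∧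
          IsClosed (Set.range (c a).left) ∧
          (c a).left ≫ pullback.fst _ _ = pullback.fst _ _) ∧
        ∀ z, ∃ a, z ∈ Set.range (c a).left

def CLOP_s : Prop := ∀ (X : Scheme.{0}) (T : Over X) (F : Sh (Scheme.etaleTopology.over X)) (q : ℕ),
  (∀ (T' : Over X) (c : T' ⟶ T), IsOpenImmersion c.left → IsClosed (Set.range c.left) →
    Function.Surjective (res c F q)) ∧
  ∀ (ι : Type) [Finite ι] (T' : ι → Over X) (c : ∀ a, T' a ⟶ T),
    (∀ a, IsOpenImmersion (c a).left ∧ IsClosed (Set.range (c a).left)) →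
    (∀ z, ∃ a, z ∈ Set.range (c a).left) → ∀ x, (∀ a, res (c a) F q x = 0) → x = 0

/-! ### Block 6: smooth proper varieties -/

def CDG_s : Prop := ∀ (l : ℕ) [Fact l.Prime] (Ω : Type) [Field Ω] [IsAlgClosed Ω] [CharZero Ω]
  (X : Scheme.{0}) (f : X ⟶ Spec (.of Ω)) [Smooth f] [IsProper f] [IrreducibleSpace X] (d : ℕ),
    Chart d f → CD l X (2 * d) ∧ CDZ l X (2 * d)

def PDT_s : Prop := ∀ (l : ℕ) [Fact l.Prime] (Ω : Type) [Field Ω] [IsAlgClosed Ω] [CharZero Ω]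
  (d : ℕ) (P : Scheme.{0}) (g : P ⟶ Spec (.of Ω)), TwN d g → PD l P (2 * d)

def PDX_s : Prop := ∀ (l : ℕ) [Fact l.Prime] (Ω : Type) [Field Ω] [IsAlgClosed Ω] [CharZero Ω]
  (X : Scheme.{0}) (f : X ⟶ Spec (.of Ω)) [Smooth f] [IsProper f] [IrreducibleSpace X] (d : ℕ),
    Chart d f → PD l X (2 * d)

def TOPQ_s : Prop := ∀ (l : ℕ) [Fact l.Prime] (K Ω : Type) [Field K] [Field Ω] [IsAlgClosed Ω]
  [CharZero Ω] (τ : K →+* Ω) (X : Scheme.{0}) (f : X ⟶ Spec (.of K)) [Smooth f] [IsProper f]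
  (d : ℕ), Chart d f → IrreducibleSpace (fbr f (spc τ)).left →
    ∀ (ψ : Ω →+* Ω) (hψ : spc ψ ≫ spc τ = spc τ) (Q : ℕ),
      (∀ (ζ : Ω) (n : ℕ), ζ ^ l ^ n = 1 → ψ ζ ^ Q = ζ) →
      ∀ x, Hact f (Linf l X) (2 * d) ψ hψ x = Q ^ d • x

def DALG_s : Prop := ∀ (l : ℕ) [Fact l.Prime] (M N₁ N₂ : Type 1) [AddCommGroup M]
  [AddCommGroup N₁] [AddCommGroup N₂] (φ : M →+ M) (φ₁ : N₁ →+ N₁) (φ₂ : N₂ →+ N₂)
  (j : ℚ_[l] →+* ℂ) (c : ℕ) (B : ℝ), 0 < c → Cof l M → Cof l N₁ → Cof l N₂ →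
    Ev j (Set.Iic B) φ₁ → Ev j (Set.Iic B) φ₂ →
    (∀ m : ℕ, ∃ (E G : Type 1) (_ : AddCommGroup E) (_ : AddCommGroup G) (e : E →+ E) (h : G →+ G)
      (p : E →+ M) (a₁ : N₁ →+ G) (a₂ : G →+ N₂) (b : E →+ G →+ QZ l),
      (∀ y : G, l ^ m • y = 0) ∧ (∀ z : M, l ^ m • z = 0 → ∃ x, p x = z) ∧
      (∀ x, p (e x) = φ (p x)) ∧ (∀ y, a₁ (φ₁ y) = h (a₁ y)) ∧ (∀ y, a₂ (h y) = φ₂ (a₂ y)) ∧
      (∀ y, a₂ y = 0 → ∃ z, a₁ z = y) ∧ Function.Surjective h ∧ (∀ x, (∀ y, b x y = 0) → x = 0) ∧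
      ∀ x y, b (e x) (h y) = c • b x y) →
    Ev j {r | (c : ℝ) ^ 2 ≤ r * B} φ

def DWK_s : Prop := ∀ (K Ω : Type) [Field K] [Field Ω] [IsAlgClosed Ω] [CharZero Ω] (τ : K →+* Ω)
  (X : Scheme.{0}) (f : X ⟶ Spec (.of K)) [Smooth f] [IsProper f] (d : ℕ), Chart d f →
    IrreducibleSpace (fbr f (spc τ)).left → ∀ (l : ℕ) [Fact l.Prime] (ψ : Ω ≃+* Ω)
      (hψ : spc (ψ : Ω →+* Ω) ≫ spc τ = spc τ) (Q : ℕ) (j : ℚ_[l] →+* ℂ),
      0 < Q → (∀ (ζ : Ω) (n : ℕ), ζ ^ l ^ n = 1 → ψ ζ ^ Q = ζ) →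
      (∀ i, Cof l (H (fbr f (spc τ)) (Linf l X) i)) →
      (∀ i, Ev j (Set.Iic ((Q : ℝ) ^ i)) (Hact f (Linf l X) i (ψ : Ω →+* Ω) hψ)) →
      ∀ i, Ev j {(Q : ℝ) ^ i} (Hact f (Linf l X) i (ψ : Ω →+* Ω) hψ)

end Pool.Agent.MP_855f4c_ag.E.D

end

section

/-! Formal duality in an abelian category. -/

set_option autoImplicit false
set_option backward.isDefEq.respectTransparency false

open CategoryTheory Limits Abelian Abelian.Ext Function

namespace Pool.Agent.MP_855f4c_ag.E.DA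

universe w v u

variable {C : Type u} [Category.{v} C] [Abelian C] [HasExt.{w} C] {J : Type} [AddCommGroup J]

/-- `J` is an injective group. -/
def Inj (J : Type) [AddCommGroup J] : Prop :=
  ∀ (M N : Type w) [AddCommGroup M] [AddCommGroup N] (f : M →+ N) (g : M →+ J),
    (∀ x, f x = 0 → g x = 0) → ∃ e : N →+ J, ∀ x, e (f x) = g x

variable {L ω : C} {N : ℕ} (t : Ext.{w} L ω N →+ J)

/-- The pairing given by Yoneda composition followed by `t`. -/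
noncomputable def ph (A : C) {i j : ℕ} (h : j + i = N) : Ext.{w} A ω i →+ Ext.{w} L A j →+ J where
  toFun x := t.comp (x.postcomp L h)
  map_zero' := by ext y; simp
  map_add' x x' := by ext y; simp

lemma ph_apply (A : C) {i j : ℕ} (h : j + i = N) (x : Ext.{w} A ω i) (y : Ext.{w} L A j) :
    ph t A h x y = t (y.comp x h) := rfl

lemma ph_pre {A B : C} (f : A ⟶ B) {i j : ℕ} (h : j + i = N) (x : Ext.{w} B ω i)
    (y : Ext.{w} L A j) : ph t A h (pre f ω i x) y = ph t B h x (post L f j y) := by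
  rw [ph_apply, ph_apply, pre_apply, post_apply,
    comp_assoc _ _ _ (add_zero j) (zero_add i) (by omega)]

lemma ph_dr {S : ShortComplex C} (hS : S.ShortExact) {i j : ℕ} (h : j + 1 + i = N)
    (h' : j + (i + 1) = N) (x : Ext.{w} S.X₁ ω i) (y : Ext.{w} L S.X₃ j) :
    ph t S.X₃ h' (dr hS ω i x) y = ph t S.X₁ h x (dl L hS j y) := by
  rw [ph_apply, ph_apply, dr_apply, dl_apply, comp_assoc _ _ _ rfl (add_comm 1 i) (by omega)]

omit [HasExt.{w} C] in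
lemma ses {P A : C} (p : P ⟶ A) [Epi p] : (ShortComplex.mk _ _ (kernel.condition p)).ShortExact :=
  { exact := ShortComplex.exact_kernel _ }

/-- A class in `Ext` from a coproduct is determined by its components. -/
lemma sigma_inj [EnoughInjectives C] {ι : Type*} (Q : ι → C) [HasCoproduct Q] (n : ℕ) :
    ∀ (Y : C) (x : Ext.{w} (∐ Q) Y n), (∀ i, pre (Sigma.ι Q i) Y n x = 0) → x = 0 := by
  induction n with
  | zero =>
    intro Y x hx
    obtain ⟨f, rfl⟩ := (mk₀_bijective _ _).2 x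
    rw [mk₀_eq_zero_iff]
    refine Sigma.hom_ext _ _ fun i => ?_
    have := hx i
    rwa [pre_apply, mk₀_comp_mk₀, mk₀_eq_zero_iff, ← comp_zero (f := Sigma.ι Q i)] at this
  | succ n ih =>
    intro Y x hx
    let S := ShortComplex.mk _ _ (cokernel.condition (Injective.ι Y))
    have hS : S.ShortExact := { exact := ShortComplex.exact_cokernel _ }
    have : Injective S.X₂ := Injective.injective_under Y
    obtain ⟨y, rfl⟩ := ((cov_les _ hS).e₁ n x).1 (eq_zero_of_injective _)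
    have h1 (i) := ((cov_les (Q i) hS).e₃ n (pre (Sigma.ι Q i) _ n y)).1
      ((pre_dl _ hS y).symm.trans (hx i))
    choose z hz using h1
    cases n with
    | succ n =>
      rw [ih _ y fun i => by rw [← hz, eq_zero_of_injective (z i), map_zero], map_zero]
    | zero =>
      choose g hg using fun i => (mk₀_bijective _ _).2 (z i)
      have : y = post _ S.g 0 (mk₀ (Sigma.desc g)) := sub_eq_zero.1 (ih _ _ fun i => by
        rw [map_sub, pre_post, ← hz, ← hg, pre_apply, mk₀_comp_mk₀, Sigma.ι_desc, sub_self])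
      rw [this]
      exact ((cov_les _ hS).e₃ 0).apply_apply_eq_zero _

variable (hJ : Inj.{w} J) {S : ShortComplex C} (hS : S.ShortExact)
include hJ hS

lemma step_inj {i j : ℕ} (h : j + 1 + i = N) (h' : j + (i + 1) = N)
    (h₁ : Injective (ph t S.X₁ h)) (h₂ : Surjective (ph t S.X₂ h)) (x : Ext.{w} S.X₃ ω (i + 1))
    (hx0 : pre S.g ω _ x = 0) (hx : ph t S.X₃ h' x = 0) : x = 0 := by
  obtain ⟨y, rfl⟩ := ((con_les hS ω).e₁ i x).1 hx0
  obtain ⟨e, he⟩ := hJ _ _ (post L S.f (j + 1)) (ph t _ h y) fun z hz => by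
    obtain ⟨z', rfl⟩ := ((cov_les L hS).e₁ j z).1 hz
    rw [← ph_dr t hS h h', hx, AddMonoidHom.zero_apply]
  obtain ⟨y', rfl⟩ := h₂ e
  rw [h₁ (AddMonoidHom.ext fun z => by rw [ph_pre, he] : ph t _ h y = ph t _ h (pre S.f ω i y'))]
  exact ((con_les hS ω).e₃ i).apply_apply_eq_zero _

lemma step_van (h₁ : Injective (ph t S.X₁ (zero_add N))) (h₂ : Surjective (ph t S.X₂ (zero_add N)))
    (x : Ext.{w} S.X₃ ω (N + 1)) (hx0 : pre S.g ω _ x = 0) : x = 0 := by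
  obtain ⟨y, rfl⟩ := ((con_les hS ω).e₁ N x).1 hx0
  obtain ⟨e, he⟩ := hJ _ _ (post L S.f 0) (ph t _ (zero_add N) y) fun z hz => by
    rw [(cov_les L hS).inj (hz.trans (map_zero _).symm), map_zero]
  obtain ⟨y', rfl⟩ := h₂ e
  rw [h₁ (AddMonoidHom.ext fun z => by rw [ph_pre, he] :
    ph t _ (zero_add N) y = ph t _ (zero_add N) (pre S.f ω N y'))]
  exact ((con_les hS ω).e₃ N).apply_apply_eq_zero _

lemma step_surj {i j : ℕ} (h : j + 1 + i = N) (h' : j + (i + 1) = N)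
    (h₁ : Surjective (ph t S.X₁ h)) (c : Ext.{w} L S.X₃ j →+ J)
    (hc : ∀ z, c (post L S.g j z) = 0) : ∃ x, ph t S.X₃ h' x = c := by
  obtain ⟨e, he⟩ := hJ _ _ (dl L hS j) c fun z hz => by
    obtain ⟨z', rfl⟩ := ((cov_les L hS).e₃ j z).1 hz
    exact hc z'
  obtain ⟨y, rfl⟩ := h₁ e
  exact ⟨dr hS ω i y, AddMonoidHom.ext fun z => by rw [ph_dr t hS h h', he]⟩

omit hJ hS in
/-- Duality holds for `A`. -/
def Du (A : C) : Prop :=
  (∀ (i j : ℕ) (h : j + i = N), Bijective (ph t A h)) ∧ ∀ x : Ext.{w} A ω (N + 1), x = 0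

/-- Five lemma. -/
lemma Du.X₂ (cd : ∀ z : Ext.{w} L S.X₁ (N + 1), z = 0) (h₁ : Du t S.X₁) (h₃ : Du t S.X₃) :
    Du t S.X₂ := by
  have key : ∀ (i j : ℕ) (h : j + i = N) (c : Ext.{w} L S.X₃ j →+ J),
      ∃ y, ∀ z, ph t _ h (pre S.g ω i y) z = c (post L S.g j z) := fun i j h c => by
    obtain ⟨y, rfl⟩ := (h₃.1 i j h).2 c
    exact ⟨y, fun z => ph_pre t _ h y z⟩
  refine ⟨fun i j h => ⟨(injective_iff_map_eq_zero _).2 fun x hx => ?_, fun c => ?_⟩, fun x => ?_⟩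
  · obtain ⟨y, rfl⟩ := ((con_les hS ω).e₂ i x).1 ((h₁.1 i j h).1 (AddMonoidHom.ext fun z => by
      rw [ph_pre, hx, map_zero]; rfl))
    have hy : ∀ z, ph t _ h y (post L S.g j z) = 0 := fun z => by rw [← ph_pre, hx]; rfl
    cases i with
    | zero =>
      obtain rfl : j = N := by omega
      rw [(h₃.1 0 j h).1 (AddMonoidHom.ext fun z => by
        obtain ⟨z, rfl⟩ := ((cov_les L hS).e₃ j z).1 (cd _)
        rw [hy, map_zero]; rfl : ph t _ h y = ph t _ h 0), map_zero]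
    | succ i =>
      obtain ⟨e, he⟩ := hJ _ _ (dl L hS j) (ph t _ h y) fun z hz => by
        obtain ⟨z', rfl⟩ := ((cov_les L hS).e₃ j z).1 hz
        exact hy z'
      obtain ⟨z, rfl⟩ := (h₁.1 i (j + 1) (by omega)).2 e
      rw [(h₃.1 _ j h).1 (AddMonoidHom.ext fun a => by rw [ph_dr t hS (by omega) h, he] :
        ph t _ h y = ph t _ h (dr hS ω i z))]
      exact ((con_les hS ω).e₁ i).apply_apply_eq_zero _
  · obtain ⟨x', hx'⟩ := (h₁.1 i j h).2 (c.comp (post L S.f j))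
    obtain ⟨x, rfl⟩ := ((con_les hS ω).e₃ i x').1 (by
      cases j with
      | zero =>
        obtain rfl : i = N := by omega
        exact h₃.2 _
      | succ j =>
        refine (h₃.1 (i + 1) j (by omega)).1 (AddMonoidHom.ext fun z => ?_)
        rw [ph_dr t hS h, hx', AddMonoidHom.comp_apply,
          ((cov_les L hS).e₁ j).apply_apply_eq_zero, map_zero, map_zero]
        rfl)
    obtain ⟨e, he⟩ := hJ _ _ (post L S.g j) (c - ph t _ h x) fun z hz => by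
      obtain ⟨z', rfl⟩ := ((cov_les L hS).e₂ j z).1 hz
      rw [AddMonoidHom.sub_apply, ← ph_pre, hx', AddMonoidHom.comp_apply, sub_self]
    obtain ⟨y, hy⟩ := key i j h e
    exact ⟨x + pre S.g ω i y, AddMonoidHom.ext fun z => by
      rw [map_add, AddMonoidHom.add_apply, hy, he, AddMonoidHom.sub_apply, add_sub_cancel]⟩
  · obtain ⟨y, rfl⟩ := ((con_les hS ω).e₂ _ x).1 (h₁.2 _)
    rw [h₃.2 y, map_zero]

omit hJ hS

variable [HasCoproducts.{w} C]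

/-- `A` is a quotient of a sum in `T` of objects with property `R`. -/
def Cv (T : C → Prop) (A : C) (R : ∀ Q : C, (Q ⟶ A) → Prop) : Prop :=
  ∃ (ι : Type w) (Q : ι → C) (a : ∀ i, Q i ⟶ A), (∀ i, R (Q i) (a i)) ∧ Epi (Sigma.desc a) ∧
    T (∐ Q)

/-- Cohomology of a sum is spanned by the summands. -/
def Sm (L : C) : Prop :=
  ∀ (ι : Type w) (Q : ι → C) (q : ℕ) (x : Ext.{w} L (∐ Q) q),
    ∃ (s : Finset ι) (y : ∀ i, Ext.{w} L (Q i) q), x = ∑ i ∈ s, post L (Sigma.ι Q i) q (y i)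

lemma Sm.ext (hs : Sm.{w} L) {ι : Type w} {Q : ι → C} {q : ℕ} {a b : Ext.{w} L (∐ Q) q →+ J}
    (h : ∀ i y, a (post L (Sigma.ι Q i) q y) = b (post L (Sigma.ι Q i) q y)) : a = b :=
  AddMonoidHom.ext fun x => by
    obtain ⟨s, y, rfl⟩ := hs ι Q q x
    simp only [map_sum, h]

variable [EnoughInjectives C] {T : C → Prop} (hJ : Inj.{w} J) (hs : Sm.{w} L)
  (hk : ∀ {P A : C} (p : P ⟶ A), T P → T A → T (kernel p))
  (cd : ∀ A, T A → ∀ z : Ext.{w} L A (N + 1), z = 0)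
  (h0 : ∀ A, T A → ∀ f : A ⟶ ω, ph t A (add_zero N) (mk₀ f) = 0 → Cv.{w} T A fun _ a => a ≫ f = 0)
  (h1 : ∀ A, T A → ∀ c : Ext.{w} L A N →+ J, Cv.{w} T A fun Q a =>
    ∃ f : Q ⟶ ω, ∀ z, ph t Q (add_zero N) (mk₀ f) z = c (post L a N z))
  (h2 : ∀ A, T A → ∀ (i : ℕ) (x : Ext.{w} A ω (i + 1)), Cv.{w} T A fun _ a => pre a ω _ x = 0)

omit [EnoughInjectives C] in
include h0 in
lemma zero_inj (A : C) (hA : T A) : Injective (ph t A (add_zero N)) := by
  refine (injective_iff_map_eq_zero _).2 fun x hx => ?_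
  obtain ⟨f, rfl⟩ := (mk₀_bijective _ _).2 x
  obtain ⟨ι, Q, a, ha, he, -⟩ := h0 A hA f hx
  rw [mk₀_eq_zero_iff, ← cancel_epi (Sigma.desc a), Limits.comp_zero]
  exact Sigma.hom_ext _ _ fun i => by rw [Sigma.ι_desc_assoc, ha, Limits.comp_zero]

omit [EnoughInjectives C] in
include hs hk cd h0 h1 in
lemma zero_bij (A : C) (hA : T A) : Bijective (ph t A (add_zero N)) := by
  refine ⟨zero_inj t h0 A hA, fun c => ?_⟩
  obtain ⟨ι, Q, a, ha, he, hT⟩ := h1 A hA c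
  choose f hf using ha
  have e1 : ph t _ (add_zero N) (mk₀ (Sigma.desc f)) = c.comp (post L (Sigma.desc a) N) :=
    hs.ext fun i y => by
      rw [← ph_pre, pre_apply, mk₀_comp_mk₀, Sigma.ι_desc, hf, AddMonoidHom.comp_apply, post_post,
        Sigma.ι_desc]
  have hS := ses (Sigma.desc a)
  have e2 : kernel.ι (Sigma.desc a) ≫ Sigma.desc f = 0 := by
    rw [← mk₀_eq_zero_iff]
    refine zero_inj t h0 _ (hk _ hT hA) (AddMonoidHom.ext fun z => ?_)
    rw [← mk₀_comp_mk₀, ← pre_apply, ph_pre, e1, AddMonoidHom.comp_apply,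
      ((cov_les L hS).e₂ N).apply_apply_eq_zero, map_zero, map_zero]
    rfl
  obtain ⟨g, hg⟩ := hS.exact.desc' _ e2
  refine ⟨mk₀ g, AddMonoidHom.ext fun z => ?_⟩
  obtain ⟨z, rfl⟩ := ((cov_les L hS).e₃ N z).1 (cd _ (hk _ hT hA) _)
  rw [← ph_pre, pre_apply, mk₀_comp_mk₀, hg, e1]
  rfl

include hJ hk h2 in
lemma succ_inj {i j : ℕ} (h : j + 1 + i = N) (h' : j + (i + 1) = N)
    (hb : ∀ A, T A → Bijective (ph t A h)) (A : C) (hA : T A) : Injective (ph t A h') := by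
  refine (injective_iff_map_eq_zero _).2 fun x hx => ?_
  obtain ⟨ι, Q, a, ha, he, hT⟩ := h2 A hA i x
  exact step_inj t hJ (ses (Sigma.desc a)) h h' (hb _ (hk _ hT hA)).1 (hb _ hT).2 x
    (sigma_inj Q _ _ _ fun i => by rw [pre_pre, Sigma.ι_desc, ha]) hx

include hJ hs hk cd h0 h1 h2 in
theorem dual (h3 : ∀ A, T A → ∀ j < N, ∀ c : Ext.{w} L A j →+ J,
    Cv.{w} T A fun _ a => ∀ z, c (post L a j z) = 0) (A : C) (hA : T A) : Du t A := by
  have key : ∀ (i j : ℕ) (h : j + i = N) (A : C), T A → Bijective (ph t A h) := by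
    intro i
    induction i with
    | zero => intro j h; obtain rfl : j = N := h; exact zero_bij t hs hk cd h0 h1
    | succ i ih =>
      intro j h A hA
      have h' : j + 1 + i = N := by omega
      refine ⟨succ_inj t hJ hk h2 h' h (ih _ h') A hA, fun c => ?_⟩
      obtain ⟨ι, Q, a, ha, he, hT⟩ := h3 A hA j (by omega) c
      refine step_surj t hJ (ses (Sigma.desc a)) h' h (ih _ h' _ (hk _ hT hA)).2 c fun z => ?_
      exact DFunLike.congr_fun (hs.ext (a := c.comp (post L (Sigma.desc a) j)) (b := 0)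
        fun i y => by
          rw [AddMonoidHom.comp_apply, post_post, Sigma.ι_desc, ha, AddMonoidHom.zero_apply]) z
  refine ⟨fun i j h => key i j h A hA, fun x => ?_⟩
  obtain ⟨ι, Q, a, ha, he, hT⟩ := h2 A hA N x
  exact step_van t hJ (ses (Sigma.desc a)) (key _ _ _ _ (hk _ hT hA)).1 (key _ _ _ _ hT).2 x
    (sigma_inj Q _ _ _ fun i => by rw [pre_pre, Sigma.ι_desc, ha])

end Pool.Agent.MP_855f4c_ag.E.DA

end

section

/-! h86e section D: statements for `KILL_s`. -/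

set_option autoImplicit false
set_option backward.isDefEq.respectTransparency false

open CategoryTheory Limits Abelian Opposite AlgebraicGeometry Polynomial

namespace Pool.Agent.MP_855f4c_ag.E.D

open E3 E4
open CV (Ln Lm)

variable {S : Scheme.{0}} {L : PL S}

/-- The fibre `W_t`, as a scheme over the line. -/
noncomputable def fb (W : Over L.P) {T : Scheme.{0}} (t : T ⟶ S) : Over L.P :=
  Over.mk (pullback.snd t (W.hom ≫ L.π) ≫ W.hom)

/-- Functoriality of `fb` in `W`. -/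
noncomputable def fbm {W' W : Over L.P} (h : W' ⟶ W) {T : Scheme.{0}} (t : T ⟶ S) :
    fb W' t ⟶ fb W t :=
  Over.homMk (pullback.map _ _ _ _ (𝟙 _) h.left (𝟙 _) (by simp) (by simp)) (by simp [fb])

/-- An etale neighbourhood of `w` together with an etale neighbourhood of its image in `S`. -/
structure Nb (W : Over L.P) (w : W.left) where
  V : Over S
  W' : Over L.P
  h : W' ⟶ W
  r : W' ⟶ (Over.pullback L.π).obj V
  aV : Aet V
  aW : Aet W'
  mem : w ∈ Set.range h.left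

/-- `N'` refines `N`. -/
def Nb.Le {W : Over L.P} {w : W.left} (N' N : Nb W w) : Prop :=
  ∃ (a : N'.W' ⟶ N.W') (b : N'.V ⟶ N.V), a ≫ N.h = N'.h ∧
    a ≫ N.r = N'.r ≫ (Over.pullback L.π).map b

/-- The conclusion of `KILL_s` at the point `t`. -/
def Nb.Ok {W : Over L.P} {w : W.left} (N : Nb W w) (l : ℕ) {T : Scheme.{0}} (t : T ⟶ S) : Prop :=
  (∀ x : H (fbr L.π t) (Ln l N.W') 1, Hmap (Lm l N.h) _ 1 x = 0) ∧
    ∀ x : H (fbr L.π t) (Ln l N.W') 2, Hmap (Lm l N.r) _ 2 x = 0 → Hmap (Lm l N.h) _ 2 x = 0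

/-- `φ` vanishes on the sections over `t`. -/
def Zer {G' G : Sh (Scheme.etaleTopology.over S)} (φ : G' ⟶ G) {T : Scheme.{0}} (t : T ⟶ S) : Prop :=
  ∀ s : sec G' (Over.mk t), φ.hom.app _ s = 0

/-- Maps into `G` that vanish at a point vanish near the generic point of its closure. -/
def Spz (l : ℕ) (G : Sh (Scheme.etaleTopology.over S)) : Prop :=
  ∀ (k : Type) [Field k] [IsAlgClosed k] (t : Spec (.of k) ⟶ S) (z : Spec (.of k)),
    Cof l (sec G (Over.mk t)) ∧ ∃ U : S.Opens, t z ∈ U ∧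
      ∀ (k' : Type) [Field k'] [IsAlgClosed k'] (t' : Spec (.of k') ⟶ S),
        (∀ z', t' z' ∈ U ∧ t z ⤳ t' z') →
          ∀ (G' : Sh (Scheme.etaleTopology.over S)) (φ : G' ⟶ G), Cc l G' → Zer φ t → Zer φ t'

/-- Refinements: a neighbourhood exists, common refinements exist, `Ok` is inherited, and `V` can
be shrunk to the image of `W'`. -/
def REF_s : Prop := ∀ (S : Scheme.{0}) (L : PL S) (W : Over L.P) (w : W.left), S.IsSeparated →
  Aet W → Nonempty (Nb W w) ∧ (∀ N₁ N₂ : Nb W w, ∃ N : Nb W w, N.Le N₁ ∧ N.Le N₂) ∧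
    (∀ N₁ N₂ N₃ : Nb W w, N₁.Le N₂ → N₂.Le N₃ → N₁.Le N₃) ∧
    (∀ (N' N : Nb W w) (l : ℕ) (T : Scheme.{0}) (t : T ⟶ S), N'.Le N → N.Ok l t → N'.Ok l t) ∧
    ∀ N : Nb W w, ∃ N' : Nb W w, N'.Le N ∧
      AlgebraicGeometry.Surjective (N'.r.left ≫ pullback.fst N'.V.hom L.π)

def K1_s : Prop := ∀ (l : ℕ) [Fact l.Prime] (S : Scheme.{0}) (L : PL S) (k : Type) [Field k]
  [IsAlgClosed k] (t : Spec (.of k) ⟶ S) (W : Over L.P), (l : k) ≠ 0 → S.IsSeparated → Aet W →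
    (Finite (H (fbr L.π t) (Ln l W) 1) → {y : H (fb W t) (Linf l L.P) 1 | l • y = 0}.Finite) ∧
    ∀ (W' : Over L.P) (h : W' ⟶ W), Aet W' →
      (∀ y : H (fb W t) (Linf l L.P) 1, l • y = 0 → res (fbm h t) _ 1 y = 0) →
      ∀ x : H (fbr L.π t) (Ln l W') 1, Hmap (Lm l h) _ 1 x = 0

def K2_s : Prop := ∀ (l : ℕ) [Fact l.Prime] (S : Scheme.{0}) (L : PL S) (k : Type) [Field k]
  [IsAlgClosed k] (t : Spec (.of k) ⟶ S) (W : Over L.P), (l : k) ≠ 0 → Etale W.hom →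
    (Finite (H (fbr L.π t) (Ln l W) 2) → {s : sec (Linf l L.P) (fb W t) | l • s = 0}.Finite) ∧
    ∀ (W' Z : Over L.P) (h : W' ⟶ W) (r : W' ⟶ Z), Etale W'.hom → Etale Z.hom →
      (∀ s : sec (Linf l L.P) (fb W t), l • s = 0 → ∃ s' : sec (Linf l L.P) (fb Z t),
        l • s' = 0 ∧ rsec (fbm h t) _ s = rsec (fbm r t) _ s') →
      ∀ x : H (fbr L.π t) (Ln l W') 2, Hmap (Lm l r) _ 2 x = 0 → Hmap (Lm l h) _ 2 x = 0

/-- `W` lies in one of the two charts. -/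
def InC {R : Type} [CommRing R] (L : PL (Spec (.of R))) (W : Over L.P) : Prop :=
  (∃ a, a ≫ L.c₁ = W.hom) ∨ ∃ a, a ≫ L.c₂ = W.hom

/-- Local acyclicity of `W → Spec R` at `w`. -/
def LOCK_s : Prop := ∀ (l : ℕ) [Fact l.Prime] (R : Type) [CommRing R] (L : PL (Spec (.of R)))
  (W : Over L.P) (w : W.left), IsUnit (l : R) → Aet W → InC L W → ∀ p : Spec (.of R),
    ∃ (k : Type) (_ : Field k) (_ : IsAlgClosed k) (t : Spec (.of k) ⟶ Spec (.of R)),
      p ∈ Set.range t ∧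
      (∀ y : H (fb W t) (Linf l L.P) 1, ∃ N : Nb W w, res (fbm N.h t) _ 1 y = 0) ∧
      ∀ s : sec (Linf l L.P) (fb W t), l • s = 0 → ∃ (N : Nb W w)
        (s' : sec (Linf l L.P) (fb ((Over.pullback L.π).obj N.V) t)),
        l • s' = 0 ∧ rsec (fbm N.h t) _ s = rsec (fbm N.r t) _ s'

def DESC_s : Prop := ∀ (R : Type) [CommRing R] (L : PL (Spec (.of R))) (W : Over L.P), Aet W →
  InC L W → ∃ (R₀ : Type) (_ : CommRing R₀) (_ : Algebra.FiniteType ℤ R₀) (α : R₀ →+* R)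
    (L₀ : PL (Spec (.of R₀))) (a : L.P ⟶ L₀.P) (W₀ : Over L₀.P),
    IsPullback a L.π L₀.π (spc α) ∧ Aet W₀ ∧ Nonempty (W ≅ (Over.pullback a).obj W₀)

def SPZ_s : Prop := ∀ (l : ℕ) [Fact l.Prime] (R₀ R : Type) [CommRing R₀] [Algebra.FiniteType ℤ R₀]
  [CommRing R] (α : R₀ →+* R) (G : ∀ (l : ℕ) [Fact l.Prime], Sh (Scheme.etaleTopology.over (Spec (.of R₀)))) (w : ℕ),
    (∀ n : ℕ, n ≠ 0 → IsUnit (n : R)) → Good {l} w G →
      Spz l ((pb (J := Scheme.etaleTopology) (spc α)).obj (G l))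

def SPR_s : Prop := ∀ (l : ℕ) [Fact l.Prime] (R : Type) [CommRing R] (L : PL (Spec (.of R)))
  (W : Over L.P) (b : ℕ), (∀ n : ℕ, n ≠ 0 → IsUnit (n : R)) → Aet W → InC L W →
    Spz l ((Rq L.π b).obj (Ln l W))

def NIND_s : Prop := ∀ (Z : Type) [TopologicalSpace Z] [TopologicalSpace.NoetherianSpace Z]
  [QuasiSober Z] (I : Type 1) [Nonempty I] (le : I → I → Prop) (ok : I → Z → Prop),
    (∀ a b, ∃ c, le c a ∧ le c b) → (∀ a b z, le a b → ok b z → ok a z) →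
    (∀ p, ∃ (a : I) (U : Set Z), IsOpen U ∧ p ∈ U ∧ ∀ q ∈ U, p ⤳ q → ok a q) →
    ∃ a, ∀ z, ok a z

def KILLA_s : Prop := ∀ (l : ℕ) [Fact l.Prime] (R : Type) [CommRing R] [IsNoetherianRing R]
  (L : PL (Spec (.of R))) (W : Over L.P) (w : W.left), (∀ n : ℕ, n ≠ 0 → IsUnit (n : R)) →
    Aet W → InC L W → ∃ N : Nb W w,
      ∀ (k : Type) [Field k] [IsAlgClosed k] (t : Spec (.of k) ⟶ Spec (.of R)), N.Ok l t

end Pool.Agent.MP_855f4c_ag.E.D

end

section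

/-! h86e section D: statements for `TOW_s` and `TWS_s`. -/

set_option autoImplicit false
set_option backward.isDefEq.respectTransparency false

open CategoryTheory Limits Abelian Opposite AlgebraicGeometry

namespace Pool.Agent.MP_855f4c_ag.E.D

open E3 E4
open CV (Ln Lm)

/-- Cohomological dimension of an object of the site. -/
def CDT (l : ℕ) {S : Scheme.{0}} (T : Over S) (N : ℕ) : Prop :=
  ∀ F : Sh (Scheme.etaleTopology.over S), Tc l F → ∀ q, N < q → ∀ x : H T F q, x = 0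

/-- The Leray spectral sequence of the projective line. -/
def LERP_s : Prop := ∀ (l : ℕ) [Fact l.Prime] (S : Scheme.{0}) (L : PL S) (T : Over S), Linv l S →
  (∀ N, CDT l T N → CDT l ((Over.pullback L.π).obj T) (N + 2)) ∧
  (∀ (F₃ F₂ F₁ F₀ : Sh (Scheme.etaleTopology.over L.P)) (u₂ : F₃ ⟶ F₂) (u₁ : F₂ ⟶ F₁) (u₀ : F₁ ⟶ F₀) (n : ℕ), Tc l F₃ →
    (∀ a, a + 2 = n → ∀ y, Hmap ((Rq L.π 2).map u₂) T a y = 0) →
    (∀ a, a + 1 = n → ∀ y, Hmap ((Rq L.π 1).map u₁) T a y = 0) →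
    (∀ y, Hmap ((Rq L.π 0).map u₀) T n y = 0) →
    ∀ x, Hmap (u₂ ≫ u₁ ≫ u₀) ((Over.pullback L.π).obj T) n x = 0) ∧
  ∀ (N : ℕ) (F : Sh (Scheme.etaleTopology.over L.P)), CDT l T N → Tc l F →
    Nonempty (H ((Over.pullback L.π).obj T) F (N + 2) ≃+ H T ((Rq L.π 2).obj F) N) ∧
    ∀ (g : T ⟶ T) (c : ℤ), (∀ y : H T ((Rq L.π 2).obj F) N, res g _ N y = c • y) →
      ∀ x, res ((Over.pullback L.π).map g) F (N + 2) x = c • x

def CDZS_s : Prop := ∀ (l : ℕ) [Fact l.Prime] (S : Scheme.{0}) (L : PL S) (N : ℕ), Linv l S →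
  CD l S N → CDZ l S N → CD l L.P (N + 2) ∧ CDZ l L.P (N + 2)

def K0_s : Prop := ∀ (l : ℕ) [Fact l.Prime] (S : Scheme.{0}) (L : PL S) (W : Over L.P),
  S.IsSeparated → Linv l S → Aet W → IsZero ((Rq L.π 0).obj (Ln l W))

/-- A generator of `H^2` of the fibres. -/
def GAM_s : Prop := ∀ (l : ℕ) [Fact l.Prime] (n : ℕ) (Ω : Type) [Field Ω] [IsAlgClosed Ω]
  (S : Scheme.{0}) (L : PL S) (T : Over S) (s : T.left ⟶ Spec (.of Ω)), Lp l n → Linv l S →
    (l : Ω) ≠ 0 → ∃ γ : H ((Over.pullback L.π).obj T) (Ln n (top L.P)) 2,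
      (∀ (k : Type) [Field k] [IsAlgClosed k] (x : Spec (.of k) ⟶ S) (y : Over.mk x ⟶ T),
        (∀ z, ∃ c : ℤ, z = c • res ((Over.pullback L.π).map y) _ 2 γ) ∧
        ∀ c : ℤ, c • res ((Over.pullback L.π).map y) _ 2 γ = 0 → (n : ℤ) ∣ c) ∧
      ∀ (g : T ⟶ T) (ψ : Ω →+* Ω) (Q : ℕ), g.left ≫ s = s ≫ spc ψ →
        (∀ ζ : Ω, ζ ^ n = 1 → ψ ζ ^ Q = ζ) → res ((Over.pullback L.π).map g) _ 2 γ = Q • γ

def IOTA_s : Prop := ∀ (l : ℕ) [Fact l.Prime] (Ω : Type) [Field Ω] [IsAlgClosed Ω]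
  (S : Scheme.{0}) (L : PL S) (_ : S ⟶ Spec (.of Ω)), (l : Ω) ≠ 0 →
    ∃ ι : ∀ V : Over S, Ln l V ⟶ (Rq L.π 2).obj (Ln l ((Over.pullback L.π).obj V)),
      (∀ (V' V : Over S) (b : V' ⟶ V),
        Lm l b ≫ ι V = ι V' ≫ (Rq L.π 2).map (Lm l ((Over.pullback L.π).map b))) ∧
      ∀ V : Over S, Etale V.hom → QuasiCompact V.hom → IsIso (ι V)

def EPI2_s : Prop := ∀ (l : ℕ) [Fact l.Prime] (S : Scheme.{0}) (L : PL S) (V : Over S)
  (W : Over L.P) (r : W ⟶ (Over.pullback L.π).obj V), Linv l S → Etale V.hom → Etale W.hom →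
    AlgebraicGeometry.Surjective (r.left ≫ pullback.fst V.hom L.π) →
    Epi ((Rq L.π 2).map (Lm l r))

def STEP_s : Prop := ∀ (l : ℕ) [Fact l.Prime] (Ω : Type) [Field Ω] [IsAlgClosed Ω] [CharZero Ω]
  (S : Scheme.{0}) (L : PL S) (_ : S ⟶ Spec (.of Ω)) (N : ℕ), Ns l S → IrreducibleSpace L.P →
    CD l S N → CDZ l L.P (N + 2) →
      (EFF l S N → EFF l L.P (N + 2)) ∧ (TRC l S N → TRC l L.P (N + 2))

end Pool.Agent.MP_855f4c_ag.E.D

end

section

set_option autoImplicit false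
set_option backward.isDefEq.respectTransparency false

open CategoryTheory Limits Abelian Opposite AlgebraicGeometry Polynomial

namespace Pool.Agent.MP_855f4c_ag.E.D

open E3 E4
open CV (Ln Lm)

namespace KRED

variable {X : Scheme.{0}}

lemma Lm_comp (n : ℕ) {A B C : Over X} (f : A ⟶ B) (g : B ⟶ C) :
    Lm n f ≫ Lm n g = Lm n (f ≫ g) := coequalizer.hom_ext (by simp [Lm, Ln])

lemma Lm_id (n : ℕ) (A : Over X) : Lm n (𝟙 A) = 𝟙 _ := coequalizer.hom_ext (by simp [Lm, Ln])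

lemma Lm_iso (n : ℕ) {A B : Over X} (f : A ⟶ B) [IsIso f] : IsIso (Lm n f) :=
  ⟨Lm n (inv f), by rw [Lm_comp, IsIso.hom_inv_id, Lm_id], by rw [Lm_comp, IsIso.inv_hom_id, Lm_id]⟩

lemma Hmap_bij (n q : ℕ) {A B : Over X} (f : A ⟶ B) [IsIso f] (T : Over X) :
    Function.Bijective (Hmap (Lm n f) T q) :=
  have := Lm_iso n f
  post_bij _ _ q

lemma Hmap_Lm (n q : ℕ) {A B C : Over X} (f : A ⟶ B) (g : B ⟶ C) (T : Over X)
    (x : H T (Ln n A) q) : Hmap (Lm n g) T q (Hmap (Lm n f) T q x) = Hmap (Lm n (f ≫ g)) T q x := by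
  rw [← Lm_comp]
  exact post_post _ _ x

lemma zero_of_empty (n q : ℕ) (Z T : Over X) [IsEmpty Z.left] (x : H T (Ln n Z) q) : x = 0 := by
  have h1 : 𝟙 ((fr (Scheme.etaleTopology.over X)).obj Z) = 0 :=
    (frEquiv Z _).injective ((zero_of_isEmpty _ Z _).trans (map_zero _).symm)
  have h2 : 𝟙 (Ln n Z) = 0 :=
    (((IsZero.iff_id_eq_zero _).2 h1).of_epi (cokernel.π _)).eq_of_src _ _
  rw [← Ext.comp_mk₀_id x, h2, Ext.mk₀_zero, Ext.comp_zero]

lemma res_eqv {T' T : Over X} (c : T' ⟶ T) [IsIso c] (q : ℕ) : ∃ r : ∀ F, H T F q ≃+ H T' F q,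
    ∀ {F G} (φ : F ⟶ G) x, r G (Hmap φ _ q x) = Hmap φ _ q (r F x) :=
  ⟨fun F => AddEquiv.ofBijective (res c F q) (pre_bij _ _ q), fun φ x => (Hmap_res c φ q x).symm⟩

lemma Lm_eqv (n q : ℕ) (T : Over X) {ι : Type 1} {A B : ι → Over X} (κ : ∀ i, A i ⟶ B i)
    (h : ∀ i, IsIso (κ i)) : ∃ k : ∀ i, H T (Ln n (A i)) q ≃+ H T (Ln n (B i)) q,
      ∀ i j (f : A i ⟶ A j) (g : B i ⟶ B j), f ≫ κ j = κ i ≫ g → ∀ x,
        k j (Hmap (Lm n f) T q x) = Hmap (Lm n g) T q (k i x) :=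
  ⟨fun i => AddEquiv.ofBijective _ (Hmap_bij n q (κ i) T), fun _ _ f g e x =>
    (Hmap_Lm n q f _ T x).trans ((congrArg (fun u => Hmap (Lm n u) T q x) e).trans
      (Hmap_Lm n q _ g T x).symm)⟩

lemma sq_zero {A A' B B' C C' : Type 1} [AddCommGroup A] [AddCommGroup A'] [AddCommGroup B]
    [AddCommGroup B'] [AddCommGroup C] [AddCommGroup C'] {f : A' →+ A} {g : B' →+ B} {h : C' →+ C}
    {a : A ≃+ B} {a' : A' ≃+ B'} {c : C ≃+ B} {c' : C' ≃+ B'} (h1 : ∀ x, a (f x) = g (a' x))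
    (h2 : ∀ x, c (h x) = g (c' x)) (x : A') : f x = 0 ↔ h (c'.symm (a' x)) = 0 := by
  rw [← c.map_eq_zero_iff, h2, c'.apply_symm_apply, ← h1, a.map_eq_zero_iff]

/-- Transport along a monomorphism of the base. -/
theorem tr (h3 : SLW_s) {X' : Scheme.{0}} (a : X' ⟶ X) [Mono a] (n q : ℕ) (T' : Over X')
    (T : Over X) (c : (Over.map a).obj T' ⟶ T) [IsIso c] :
    ∃ e : ∀ W : Over X', H T (Ln n ((Over.map a).obj W)) q → H T' (Ln n W) q,
      ∀ (W' W : Over X') (h : W' ⟶ W) x,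
        Hmap (Lm n ((Over.map a).map h)) T q x = 0 ↔ Hmap (Lm n h) T' q (e W' x) = 0 := by
  obtain ⟨s, hs⟩ := h3 X n q ((Over.map a).obj T')
  obtain ⟨s', hs'⟩ := h3 X' n q T'
  have : (Over.map a).Full := ⟨fun {U V} f => ⟨Over.homMk f.left (by
    rw [← cancel_mono a, Category.assoc]; exact Over.w f), rfl⟩⟩
  have : (Over.map a).Faithful := ⟨fun h => Over.OverMorphism.ext (congrArg (·.left) h)⟩
  obtain ⟨κ, hκ, κ1⟩ : ∃ κ : ∀ W : Over X', (Over.pullback T'.hom).obj W ⟶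
      (Over.pullback ((Over.map a).obj T').hom).obj ((Over.map a).obj W), (∀ W, IsIso (κ W)) ∧
      ∀ (W' W : Over X') (g : W' ⟶ W), (Over.pullback T'.hom).map g ≫ κ W =
        κ W' ≫ (Over.pullback ((Over.map a).obj T').hom).map ((Over.map a).map g) :=
    let i := Functor.isoWhiskerRight (asIso (Over.mapPullbackAdj a).unit) (Over.pullback T'.hom) ≪≫
      Functor.isoWhiskerLeft (Over.map a) (Over.pullbackComp T'.hom a).symm
    ⟨i.hom.app, fun _ => inferInstance, fun _ _ g => i.hom.naturality g⟩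
  obtain ⟨k, hk⟩ := Lm_eqv n q (top T'.left) κ hκ
  obtain ⟨r, hr⟩ := res_eqv c q
  exact ⟨fun W x => ((s' W).trans (k W)).symm (((r _).trans (s _)) x), fun W' W h =>
    sq_zero (a := (r _).trans (s _)) (c := (s' W).trans (k W))
      (fun x => (congrArg (s _) (hr _ x)).trans (hs _ _ _ _))
      fun x => (congrArg (k W) (hs' _ _ h x)).trans (hk _ _ _ _ (κ1 _ _ h) _)⟩

variable {S S' : Scheme.{0}} (L : PL S) (j : S' ⟶ S)

/-- Base change in two steps. -/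
noncomputable def io (V : Over S') :
    (Over.map (L.bcp (Over.mk j))).obj ((Over.pullback (L.bc (Over.mk j)).π).obj V) ≅
      (Over.pullback L.π).obj ((Over.map j).obj V) :=
  Over.isoMk (pullbackRightPullbackFstIso j L.π V.hom) (pullbackRightPullbackFstIso_hom_snd _ _ _)

variable [IsOpenImmersion j]

instance : IsOpenImmersion (L.bcp (Over.mk j)) :=
  MorphismProperty.of_isPullback (L.bc_isPullback (Over.mk j)) ‹_›

variable {L j} {W : Over L.P} {W₁ : Over (L.bc (Over.mk j)).P}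
  (i : (Over.map (L.bcp (Over.mk j))).obj W₁ ⟶ W) {w₁ : W₁.left}

/-- A neighbourhood over an open part of the base is a neighbourhood. -/
noncomputable def push (N : Nb W₁ w₁) : Nb W (i.left w₁) where
  V := (Over.map j).obj N.V
  W' := (Over.map (L.bcp (Over.mk j))).obj N.W'
  h := (Over.map _).map N.h ≫ i
  r := (Over.map _).map N.r ≫ (io L j N.V).hom
  aV := have := N.aV.1; ⟨(inferInstance : Etale (N.V.hom ≫ j)), N.aV.2⟩
  aW := have := N.aW.1; ⟨(inferInstance : Etale (N.W'.hom ≫ L.bcp (Over.mk j))), N.aW.2⟩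
  mem := N.mem.imp fun _ hz => (Scheme.Hom.comp_apply _ _ _).trans (congrArg i.left hz)

theorem push_in (h3 : SLW_s) (N : Nb W₁ w₁) (l : ℕ) {T : Scheme.{0}} (t : T ⟶ S')
    (h : N.Ok l t) : (push i N).Ok l (t ≫ j) := by
  constructor
  · obtain ⟨e, he⟩ := tr h3 (L.bcp (Over.mk j)) l 1 _ _ (io L j (Over.mk t)).hom
    intro x
    exact (Hmap_Lm l 1 _ i _ x).symm.trans
      ((congrArg _ ((he _ _ N.h x).2 (h.1 _))).trans (map_zero _))
  · obtain ⟨e, he⟩ := tr h3 (L.bcp (Over.mk j)) l 2 _ _ (io L j (Over.mk t)).hom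
    intro x hx
    have h1 := (map_eq_zero_iff _ (Hmap_bij l 2 (io L j N.V).hom _).1).1
      ((Hmap_Lm l 2 _ _ _ x).trans hx)
    exact (Hmap_Lm l 2 _ i _ x).symm.trans
      ((congrArg _ ((he _ _ N.h x).2 (h.2 _ ((he _ _ N.r x).1 h1)))).trans (map_zero _))

theorem push_out (h3 : SLW_s) (N : Nb W₁ w₁) (l : ℕ) {T : Scheme.{0}} (t : T ⟶ S)
    (h : ∀ z, t z ∉ Set.range j) : (push i N).Ok l t := by
  have key : ∀ (q : ℕ) (x : H (fbr L.π t) (Ln l (push i N).W') q), x = 0 := fun q x => by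
    obtain ⟨s, -⟩ := h3 L.P l q (fbr L.π t)
    have : IsEmpty ((Over.pullback (fbr L.π t).hom).obj (push i N).W').left := ⟨fun z => by
      have e : pullback.snd (push i N).W'.hom (fbr L.π t).hom ≫ pullback.fst t L.π ≫ t =
          (pullback.fst _ _ ≫ N.W'.hom ≫ (L.bc (Over.mk j)).π) ≫ j := by
        rw [pullback.condition, ← Category.assoc]
        refine (congrArg (· ≫ L.π) pullback.condition.symm).trans ?_
        simp only [Category.assoc]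
        exact congrArg _ ((Category.assoc _ _ _).trans
          (congrArg _ (L.bc_isPullback (Over.mk j)).w.symm))
      have e' := congrArg (fun f => f z) e
      simp only [Scheme.Hom.comp_apply] at e'
      exact h _ ⟨_, e'.symm⟩⟩
    exact (s _).map_eq_zero_iff.1 (zero_of_empty l q _ _ _)
  exact ⟨fun x => by rw [key 1 x, map_zero], fun x _ => by rw [key 2 x, map_zero]⟩

end KRED

open KRED in
theorem kill (h1 : KILLA_s) (h2 : REF_s) (h3 : SLW_s) : KILL_s := by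
  intro l _ S L W hS hn hW w
  have := hS.1
  have := hW.1
  suffices H : ∃ N : Nb W w, ∀ (k : Type) [Field k] [IsAlgClosed k] (t : Spec (.of k) ⟶ S),
      N.Ok l t by
    obtain ⟨N, hN⟩ := H
    obtain ⟨-, -, -, r1, r2⟩ := h2 S L W w hS.2.1 hW
    obtain ⟨N', le, su⟩ := r2 N
    exact ⟨N'.V, N'.W', N'.h, N'.r, N'.aV, N'.aW, N'.mem, su,
      fun k _ _ t => r1 N' N l _ t le (hN k t)⟩
  obtain ⟨R, j, _, hj, -⟩ := Scheme.exists_affine_mem_range_and_range_subset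
    (x := L.π (W.hom w)) (U := ⊤) trivial
  have : IsNoetherianRing R :=
    isLocallyNoetherian_Spec.mp (isLocallyNoetherian_of_isOpenImmersion j)
  let L' : PL (Spec (.of R)) := L.bc (Over.mk j)
  obtain ⟨y, hy⟩ := (pb_mem_range (L.bc_isPullback (Over.mk j)) (W.hom w)).2 hj
  obtain ⟨c, _, ⟨y, rfl⟩, hc⟩ : ∃ c : Spec (.of R[X]) ⟶ L'.P, IsOpenImmersion c ∧
      y ∈ Set.range c ∧ (c = L'.c₁ ∨ c = L'.c₂) :=
    (L'.cover y).elim (fun h => ⟨_, inferInstance, h, .inl rfl⟩)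
      fun h => ⟨_, inferInstance, h, .inr rfl⟩
  obtain ⟨B, i, _, ⟨w₁, rfl⟩, hi⟩ := Scheme.exists_affine_mem_range_and_range_subset (x := w)
    (U := W.hom ⁻¹ᵁ (c ≫ L.bcp (Over.mk j)).opensRange)
    ⟨y, (Scheme.Hom.comp_apply _ _ _).trans hy⟩
  have hr : Set.range (i ≫ W.hom) ⊆ Set.range (c ≫ L.bcp (Over.mk j)) := by
    rintro _ ⟨z, rfl⟩
    rw [Scheme.Hom.comp_apply]
    exact hi ⟨z, rfl⟩
  let g := IsOpenImmersion.lift _ _ hr
  have hg : (g ≫ c) ≫ L.bcp (Over.mk j) = i ≫ W.hom := by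
    rw [Category.assoc]; exact IsOpenImmersion.lift_fac _ _ hr
  have : Etale ((g ≫ c) ≫ L.bcp (Over.mk j)) := by rw [hg]; infer_instance
  obtain ⟨N, hN⟩ := h1 l R L' (Over.mk (g ≫ c)) w₁ (fun n h => (hn n h).isUnit j)
    ⟨Etale.of_comp (g ≫ c) (L.bcp (Over.mk j)), inferInstanceAs (IsAffine (Spec B))⟩
    (Or.imp (fun h => ⟨g, congrArg (g ≫ ·) h.symm⟩) (fun h => ⟨g, congrArg (g ≫ ·) h.symm⟩) hc)
  let i' : (Over.map (L.bcp (Over.mk j))).obj (Over.mk (g ≫ c)) ⟶ W := Over.homMk i hg.symm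
  refine ⟨KRED.push i' N, fun k _ _ t => ?_⟩
  by_cases ht : ∀ z, t z ∉ Set.range j
  · exact push_out _ h3 N l t ht
  · have hr : Set.range t ⊆ Set.range j := by
      rintro _ ⟨z, rfl⟩
      by_contra hz
      exact ht fun z' => by rwa [Subsingleton.elim z' z]
    rw [← IsOpenImmersion.lift_fac j t hr]
    exact push_in _ h3 N l _ (hN k _)

end Pool.Agent.MP_855f4c_ag.E.D

end
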