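import Pool.Agent.MP_855f4c_ag.EC.Pa
import Pool.Agent.MP_855f4c_ag.EC.F2a
import Pool.Agent.MP_855f4c_ag.EC.F1b
import Pool.Agent.MP_855f4c_ag.EC.Sa
import Pool.Agent.MP_855f4c_ag.EC.E3a
import Pool.Agent.MP_855f4c_ag.EC.Xa

section

set_option autoImplicit false
set_option backward.isDefEq.respectTransparency false

open CategoryTheory Limits Abelian Opposite AlgebraicGeometry IsLocalRing

namespace Pool.Agent.MP_855f4c_ag.E.PB

open E3

/-- Restriction along `g` is bijective on all cohomology groups of `F`. -/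
def HB {X : Scheme.{0}} {T' T : Over X} (g : T' ⟶ T) (F : Sh (Scheme.etaleTopology.over X)) : Prop :=
  ExtBij.{1} ((fr (Scheme.etaleTopology.over X)).map g) F

/-- The structure arrow `T ⟶ X` in `Over X`. -/
noncomputable def top {X T : Scheme.{0}} (j : T ⟶ X) : Over.mk j ⟶ Over.mk (𝟙 X) := Over.homMk j

/-- `Ext^q(A,-)` commutes with filtered colimits. -/
def ExtFin {X : Scheme.{0}} (A : Sh (Scheme.etaleTopology.over X)) : Prop :=
  ∀ (D : Type 1) [SmallCategory D] [IsFiltered D] (G : D ⥤ Sh (Scheme.etaleTopology.over X)) (c : Cocone G),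
    IsColimit c → ∀ n : ℕ,
      (∀ y : Ext.{1} A c.pt n, ∃ d, ∃ x : Ext.{1} A (G.obj d) n, post A (c.ι.app d) n x = y) ∧
      ∀ d (x : Ext.{1} A (G.obj d) n), post A (c.ι.app d) n x = 0 →
        ∃ e, ∃ f : d ⟶ e, post A (G.map f) n x = 0

/-- The sections of `L` over `T` are the locally constant functions on the preimage of `Z`. -/
def LcSh {X : Scheme.{0}} (Z : Set X) (M : Type) [AddCommGroup M] (L : Sh (Scheme.etaleTopology.over X)) : Prop :=
  ∃ ev : ∀ T : Over X, L.obj.obj (op T) →+ (T.left → M),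
    (∀ T s, LC (T.hom ⁻¹' Z) (ev T s)) ∧
    (∀ T s, (∀ t, T.hom t ∈ Z → ev T s t = 0) → s = 0) ∧
    (∀ (T : Over X) (c : T.left → M), LC (T.hom ⁻¹' Z) c →
      ∃ s, ∀ t, T.hom t ∈ Z → ev T s t = c t) ∧
    ∀ (T' T : Over X) (g : T' ⟶ T) (s : L.obj.obj (op T)) (t : T'.left), T'.hom t ∈ Z →
      ev T' (L.obj.map g.op s) t = ev T s (g.left t)

/-! ### Statements taken from sections F1, F2, F4 -/

/-- Mayer-Vietoris, injectivity form. -/
def NMV_s : Prop :=
  ∀ (X : Scheme.{0}) (T U V W : Over X) (u : U ⟶ T) (v : V ⟶ T) (p : W ⟶ U) (r : W ⟶ V),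
    IsPullback p.left r.left u.left v.left → IsOpenImmersion u.left → IsOpenImmersion v.left →
    (∀ t : T.left, t ∈ Set.range u.left ∨ t ∈ Set.range v.left) →
    ∀ (F : Sh (Scheme.etaleTopology.over X)) (q : ℕ),
      (∀ y : H W F q, ∃ y₁ y₂, y = res p F q y₁ - res r F q y₂) →
      ∀ x : H T F (q + 1), res u F _ x = 0 → res v F _ x = 0 → x = 0

/-- `fr` keeps monomorphisms. -/
def NMONO_s : Prop :=
  ∀ (X : Scheme.{0}) (T' T : Over X) (g : T' ⟶ T), Mono g → Mono ((fr (Scheme.etaleTopology.over X)).map g)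

/-- Passing to a slice. -/
def NSL_s : Prop :=
  ∀ (X Y : Scheme.{0}) (f : X ⟶ Y) (T' T : Over X) (g : T' ⟶ T) (F : Sh (Scheme.etaleTopology.over Y)),
    HB g ((pb (J := Scheme.etaleTopology) f).obj F) ↔ HB ((Over.map f).map g) F

/-- Sections over algebraically closed fields. -/
def NGEO_s : Prop :=
  ∀ (X : Scheme.{0}) (k : Type) [Field k] [IsAlgClosed k] (b : Spec (.of k) ⟶ X),
    Projective ((fr (Scheme.etaleTopology.over X)).obj (Over.mk b)) ∧
    ∀ P : PSh X, Function.Surjective ((toSheafify (Scheme.etaleTopology.over X) P).app (op (Over.mk b)))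

/-- Geometric points detect zero objects of `Cc`. -/
def NPT_s : Prop :=
  ∀ (X : Scheme.{0}) (l : ℕ), Linv l X → ∀ F : Sh (Scheme.etaleTopology.over X), Cc l F →
    (∀ (k : Type) [Field k] [IsAlgClosed k] (b : Spec (.of k) ⟶ X)
      (s : F.obj.obj (op (Over.mk b))), s = 0) → IsZero F

/-- Closure properties of `Cc` and `Tc`. -/
def NCLO_s : Prop :=
  ∀ (X : Scheme.{0}) (l : ℕ),
    (∀ (F G : Sh (Scheme.etaleTopology.over X)) (φ : F ⟶ G), Cc l F → Cc l G → Cc l (kernel φ) ∧ Cc l (cokernel φ)) ∧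
    (∀ (F G : Sh (Scheme.etaleTopology.over X)) (φ : F ⟶ G), Tc l F → Tc l G → Tc l (cokernel φ)) ∧
    (∀ (D : Type 1) [SmallCategory D] [IsFiltered D] (G : D ⥤ Sh (Scheme.etaleTopology.over X)) (c : Cocone G),
      IsColimit c → (∀ d, Cc l (G.obj d)) → Cc l c.pt) ∧
    (∀ V : X.Opens, IsAffineOpen V → Cc l ((fr (Scheme.etaleTopology.over X)).obj (Over.mk V.ι))) ∧
    ∀ (Y : Scheme.{0}) (f : Y ⟶ X) (F : Sh (Scheme.etaleTopology.over X)), Tc l F →
      Tc l ((pb (J := Scheme.etaleTopology) f).obj F)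

/-- The constant sheaf. -/
def NCST_s : Prop :=
  ∀ (X : Scheme.{0}) (l : ℕ) [Fact l.Prime], ∃ L : Sh (Scheme.etaleTopology.over X), Tc l L ∧ LcSh Set.univ (ZMod l) L

/-- Cohomology commutes with filtered colimits. -/
def NCOL_s : Prop :=
  ∀ (X : Scheme.{0}) (T : Over X), CompactSpace T.left → T.left.IsSeparated →
    ExtFin ((fr (Scheme.etaleTopology.over X)).obj T)

/-- Integral push-forward. -/
def NINT_s : Prop :=
  ∀ (X Y : Scheme.{0}) (ρ : Y ⟶ X) [IsIntegralHom ρ] (l : ℕ) (G : Sh (Scheme.etaleTopology.over Y)), Tc l G →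
    Tc l ((pf (J := Scheme.etaleTopology) ρ).obj G) ∧
    ∀ (T' T : Over X) (g : T' ⟶ T), HB ((Over.pullback ρ).map g) G →
      HB g ((pf (J := Scheme.etaleTopology) ρ).obj G)

/-- Universal homeomorphisms. -/
def NUH_s : Prop :=
  ∀ (X : Scheme.{0}) (l : ℕ) (T' T : Over X) (g : T' ⟶ T), IsIntegralHom g.left → Linv l T.left →
    (∀ (k : Type) [Field k] [IsAlgClosed k] (y : Spec (.of k) ⟶ T.left),
      ∃! y' : Spec (.of k) ⟶ T'.left, y' ≫ g.left = y) →
    ∀ F : Sh (Scheme.etaleTopology.over X), Tc l F → HB g F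

/-! ### Rows of section P -/

/-- The sheaf of locally constant functions on a closed subset. -/
def LZ_s : Prop :=
  ∀ (X : Scheme.{0}) (l : ℕ) [Fact l.Prime] (Z : Set X), IsClosed Z →
    ∃ L : Sh (Scheme.etaleTopology.over X), Tc l L ∧ LcSh Z (ZMod l) L

/-- Vanishing over aic rings. -/
def AFFV_s : Prop :=
  ∀ (X : Scheme.{0}) (l : ℕ) [Fact l.Prime] (Z : Set X), IsClosed Z → ∀ L : Sh (Scheme.etaleTopology.over X),
    LcSh Z (ZMod l) L → ∀ T : Over X, IsAffine T.left → Aic Γ(T.left, ⊤) → Linv l T.left →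
      ∀ (q : ℕ) (x : H T L (q + 1)), x = 0

/-- A scheme over `A` with two aic charts. -/
structure SCh (A : Type) [CommRing A] {W : Scheme.{0}} (a : W ⟶ Spec (.of A)) where
  B₁ : Type
  B₂ : Type
  C : Type
  [r₁ : CommRing B₁]
  [r₂ : CommRing B₂]
  [r₃ : CommRing C]
  [g₁ : Algebra A B₁]
  [g₂ : Algebra A B₂]
  [g₃ : Algebra B₁ C]
  [g₄ : Algebra B₂ C]
  t : B₁
  s : B₂
  ch : Charts A B₁ B₂ C t s
  ι₁ : Spec (.of B₁) ⟶ W
  ι₂ : Spec (.of B₂) ⟶ W
  o₁ : IsOpenImmersion ι₁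
  o₂ : IsOpenImmersion ι₂
  cov : ∀ z : W, z ∈ Set.range ι₁ ∨ z ∈ Set.range ι₂
  glue : IsPullback (Spec.map (CommRingCat.ofHom (algebraMap B₁ C)))
    (Spec.map (CommRingCat.ofHom (algebraMap B₂ C))) ι₁ ι₂
  a₁ : ι₁ ≫ a = Spec.map (CommRingCat.ofHom (algebraMap A B₁))
  a₂ : ι₂ ≫ a = Spec.map (CommRingCat.ofHom (algebraMap A B₂))

attribute [instance] SCh.r₁ SCh.r₂ SCh.r₃ SCh.g₁ SCh.g₂ SCh.g₃ SCh.g₄

/-- `j` is a closed immersion onto the fibre of `a` over the closed point. -/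
def Fib {A : Type} [CommRing A] [IsLocalRing A] {W W₀ : Scheme.{0}} (a : W ⟶ Spec (.of A))
    (j : W₀ ⟶ W) : Prop :=
  IsClosedImmersion j ∧ ∀ z : W, z ∈ Set.range j ↔ (a z).asIdeal = maximalIdeal A

/-- The case of an irreducible closed subset. -/
def RELZ_s : Prop :=
  ∀ (A : Type) [CommRing A] [SHL A] (l : ℕ) [Fact l.Prime], IsUnit (l : A) →
    ∀ (W W₀ : Scheme.{0}) (a : W ⟶ Spec (.of A)) (_ : SCh A a) (j : W₀ ⟶ W), Fib a j →
      ∀ Z : Set W, IsIrreducible Z → IsClosed Z → ∀ L : Sh (Scheme.etaleTopology.over W), LcSh Z (ZMod l) L →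
        HB (top j) L

/-- Stalks on a scheme that is covered by aic affine opens. -/
def DEVI_s : Prop :=
  ∀ (W : Scheme.{0}) (l : ℕ) [Fact l.Prime], Linv l W →
    (∀ w : W, ∃ (R : Type) (_ : CommRing R) (ι : Spec (.of R) ⟶ W), Aic R ∧ IsOpenImmersion ι ∧
      w ∈ Set.range ι) →
    ∃ D : Dev (Sh (Scheme.etaleTopology.over W)) W, (∀ G, D.C G ↔ Cc l G) ∧ (∀ G, Tc l G → D.T l G) ∧
      ∀ (Z : Set W) (L : Sh (Scheme.etaleTopology.over W)), LcSh Z (ZMod l) L → ∀ V ∈ D.B, ∃ u : D.fV.obj V ⟶ L,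
        ∀ (w : W) (h : w ∈ V), (w ∉ Z → D.e V w h ≫ u = 0) ∧
          (w ∈ Z → ∀ n : ℤ, n • (D.e V w h ≫ u) = 0 ↔ (l : ℤ) ∣ n)

/-- Unions of chains, and cokernels of monomorphisms. -/
def DU_s : Prop :=
  ∀ (X : Scheme.{0}) (l : ℕ),
    (∀ (A' A : Sh (Scheme.etaleTopology.over X)) (a : A' ⟶ A), Mono a → ExtFin A' → ExtFin A → ExtFin (cokernel a)) ∧
    ∀ A : Sh (Scheme.etaleTopology.over X), ExtFin A → ∀ G : Sh (Scheme.etaleTopology.over X), ∀ c : Set (Subobject G), c.Nonempty →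
      IsChain (· ≤ ·) c → (∀ K ∈ c, Cc l (K : Sh (Scheme.etaleTopology.over X))) →
      ∃ K : Subobject G, Cc l (K : Sh (Scheme.etaleTopology.over X)) ∧ (∀ K' ∈ c, K' ≤ K) ∧
        ∀ (q : ℕ) (x : Ext.{1} A (K : Sh (Scheme.etaleTopology.over X)) q), ∃ K' ∈ c,
          ∃ x' : Ext.{1} A (K' : Sh (Scheme.etaleTopology.over X)) q,
          x'.comp (Ext.mk₀ K'.arrow) (add_zero q) = x.comp (Ext.mk₀ K.arrow) (add_zero q)

/-- Base change on the aic cover. -/
def REL_s : Prop :=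
  ∀ (A : Type) [CommRing A] [SHL A] (l : ℕ) [Fact l.Prime], IsUnit (l : A) →
    ∀ (W W₀ : Scheme.{0}) (a : W ⟶ Spec (.of A)) (_ : SCh A a) (j : W₀ ⟶ W), Fib a j →
      W.IsSeparated → ∀ G : Sh (Scheme.etaleTopology.over W), Tc l G → HB (top j) G

/-- The aic cover of a projective line. -/
def COV_s : Prop :=
  ∀ (A : Type) [CommRing A] (L : PL (Spec (.of A))), ∃ (W : Scheme.{0}) (ρ : W ⟶ L.P),
    IsIntegralHom ρ ∧ Surjective ρ ∧ W.IsSeparated ∧ Nonempty (SCh A (ρ ≫ L.π))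

/-- Base change to the closed fibre. -/
def PBC0_s : Prop :=
  ∀ (A : Type) [CommRing A] [SHL A] (l : ℕ) [Fact l.Prime], IsUnit (l : A) →
    ∀ (L : PL (Spec (.of A))) (P₀ : Scheme.{0}) (j : P₀ ⟶ L.P), Fib L.π j →
      ∀ F : Sh (Scheme.etaleTopology.over L.P), Tc l F → HB (top j) F

/-- Base change to an algebraic closure of the residue field. -/
def PBC1_s : Prop :=
  ∀ (Y : Scheme.{0}) (L : PL Y) (l : ℕ) [Fact l.Prime] (F : Sh (Scheme.etaleTopology.over L.P)), Tc l F →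
    ∀ (A k : Type) [CommRing A] [SHL A] [Field k] [IsAlgClosed k] (φ : A →+* k) [IsLocalHom φ]
      (a : Spec (.of A) ⟶ Y) (b : Spec (.of k) ⟶ Y)
      (h : Spec.map (CommRingCat.ofHom φ) ≫ a = b), IsUnit (l : A) → φ.IsIntegral →
      HB ((Over.pullback L.π).map (sph φ h)) F

end Pool.Agent.MP_855f4c_ag.E.PB

end

section

set_option autoImplicit false
set_option backward.isDefEq.respectTransparency false

open CategoryTheory Limits Abelian Opposite AlgebraicGeometry Topology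

namespace Pool.Agent.MP_855f4c_ag.E.PB

namespace LZ

/-- Extension by zero along an injective map, as an additive map. -/
noncomputable def xt {A B M : Type} [AddCommGroup M] {p : A → B} (hp : Function.Injective p) :
    (A → M) →+ (B → M) where
  toFun c := Function.extend p c 0
  map_zero' := funext fun b => by
    by_cases h : ∃ a, p a = b
    · obtain ⟨a, rfl⟩ := h
      rw [hp.extend_apply]; rfl
    · rw [Function.extend_apply' _ _ _ h]
  map_add' c d := funext fun b => by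
    by_cases h : ∃ a, p a = b
    · obtain ⟨a, rfl⟩ := h
      simp only [Pi.add_apply, hp.extend_apply]
    · simp only [Pi.add_apply, Function.extend_apply' _ _ _ h, Pi.zero_apply, add_zero]

lemma xt_apply {A B M : Type} [AddCommGroup M] {p : A → B} (hp : Function.Injective p)
    (c : A → M) (a : A) : xt hp c (p a) = c a := hp.extend_apply _ _ _

theorem push {X Y : Scheme.{0}} (i : Y ⟶ X) [IsClosedImmersion i] {M : Type} [AddCommGroup M]
    {L : Sh (Scheme.etaleTopology.over Y)} (h : LcSh Set.univ M L) :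
    LcSh (Set.range i) M ((pf (J := Scheme.etaleTopology) i).obj L) := by
  obtain ⟨ev, e1, e2, e3, e4⟩ := h
  have hp (T : Over X) : IsEmbedding (pullback.fst T.hom i) :=
    (pullback.fst T.hom i).isClosedEmbedding.isEmbedding
  have hr (T : Over X) (t : T.left) (ht : T.hom t ∈ Set.range i) :
      ∃ z, pullback.fst T.hom i z = t := by
    rwa [← Set.mem_preimage, ← Scheme.Pullback.range_fst] at ht
  refine ⟨fun T => (xt (hp T).injective).comp (ev ((Over.pullback i).obj T)), fun T s => ?_,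
    fun T s hs => e2 ((Over.pullback i).obj T) s fun z _ => ?_, fun T c hc => ?_,
    fun T' T g s t ht => ?_⟩
  · refine (KEY.lc_iff _ _).2 fun t ht => ?_
    obtain ⟨z, rfl⟩ := hr T t ht
    rw [← Scheme.Pullback.range_fst, ← Set.image_univ, ← (hp T).isInducing.map_nhdsWithin_eq,
      Filter.eventually_map]
    simp only [AddMonoidHom.comp_apply, xt_apply]
    exact (KEY.lc_iff _ _).1 (e1 ((Over.pullback i).obj T) s) z trivial
  · rw [← hs (pullback.fst T.hom i z) ((Scheme.Pullback.range_fst T.hom i).le ⟨z, rfl⟩)]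
    exact (xt_apply (hp _).injective _ _).symm
  · obtain ⟨s, hs⟩ := e3 ((Over.pullback i).obj T) (c ∘ pullback.fst T.hom i)
      (KEY.lc_comp (hp T).continuous hc fun z _ => (Scheme.Pullback.range_fst T.hom i).le ⟨z, rfl⟩)
    refine ⟨s, fun t ht => ?_⟩
    obtain ⟨z, rfl⟩ := hr T t ht
    exact (xt_apply (hp _).injective _ _).trans (hs z trivial)
  · obtain ⟨z, rfl⟩ := hr T' t ht
    have e : g.left (pullback.fst T'.hom i z) =
        pullback.fst T.hom i (((Over.pullback i).map g).left z) := by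
      have e0 : ((Over.pullback i).map g).left ≫ pullback.fst T.hom i =
        pullback.fst T'.hom i ≫ g.left := pullback.lift_fst _ _ _
      exact (Scheme.Hom.comp_apply _ _ z).symm.trans
        ((congrArg (fun φ => φ z) e0.symm).trans (Scheme.Hom.comp_apply _ _ z))
    rw [e]
    exact (xt_apply (hp _).injective _ _).trans ((e4 _ _ ((Over.pullback i).map g) s z trivial).trans
      (xt_apply (hp _).injective _ _).symm)

end LZ

theorem lz (h1 : NCST_s) (h2 : NINT_s) : LZ_s := by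
  intro X l _ Z hZ
  let I := Scheme.IdealSheafData.vanishingIdeal (X := X) ⟨Z, hZ⟩
  obtain ⟨L, hL, hc⟩ := h1 I.subscheme l
  refine ⟨_, (h2 _ _ I.subschemeι l L hL).1, ?_⟩
  have := LZ.push I.subschemeι hc
  rwa [Scheme.IdealSheafData.range_subschemeι,
    Scheme.IdealSheafData.coe_support_vanishingIdeal] at this

end Pool.Agent.MP_855f4c_ag.E.PB

end

section

set_option autoImplicit false
set_option backward.isDefEq.respectTransparency false

open CategoryTheory Limits Abelian Opposite AlgebraicGeometry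

namespace Pool.Agent.MP_855f4c_ag.E.PB

open E3

namespace AFFV

variable {X : Scheme.{0}}

lemma res_res' {T'' T' T : Over X} (g : T'' ⟶ T') (f : T' ⟶ T) (F : Sh (Scheme.etaleTopology.over X)) (q : ℕ)
    (x : H T F q) : res g F q (res f F q x) = res (g ≫ f) F q x := by
  have := pre_pre ((fr (Scheme.etaleTopology.over X)).map g) ((fr (Scheme.etaleTopology.over X)).map f) x
  rwa [← Functor.map_comp] at this

lemma res_id' {T : Over X} (F : Sh (Scheme.etaleTopology.over X)) (q : ℕ) (x : H T F q) : res (𝟙 T) F q x = x := by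
  have := pre_id x
  rwa [← (fr (Scheme.etaleTopology.over X)).map_id] at this

/-- Cohomology of the empty scheme. -/
lemma van_empty (T : Over X) [IsEmpty T.left] (F : Sh (Scheme.etaleTopology.over X)) (q : ℕ) (x : H T F (q + 1)) :
    x = 0 := by
  obtain ⟨_, h⟩ := loc_van (ι := Unit) (V := fun _ => T) (fun _ => 𝟙 T) (fun G G' φ _ s =>
    ⟨(), 0, sep G' (mem_Jov_of ⊥ fun t => isEmptyElim t) fun _ _ h => h.elim⟩) q F x
  rwa [res_id'] at h

lemma lc_pull {Y Y' M : Type*} [TopologicalSpace Y] [TopologicalSpace Y'] {S : Set Y}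
    {S' : Set Y'} {c : Y → M} (h : LC S c) {ι : Y' → Y} (hι : Continuous ι)
    (hS : ∀ y ∈ S', ι y ∈ S) : LC S' (c ∘ ι) :=
  IsLocallyConstant.comp_continuous (f := fun y : S' => (⟨ι y, hS y y.2⟩ : S))
    (g := S.domRestrict c) h ((hι.comp continuous_subtype_val).subtype_mk _)

lemma lc_push {Y Y' M : Type*} [TopologicalSpace Y] [TopologicalSpace Y'] [Zero M] {S : Set Y}
    {S' : Set Y'} {ι : Y' → Y} (hι : Topology.IsEmbedding ι) (hS : S ⊆ Set.range ι)
    (hS' : ∀ y, ι y ∈ S → y ∈ S') {c : Y' → M} (h : LC S' c) :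
    ∃ d : Y → M, LC S d ∧ ∀ y, d (ι y) = c y := by
  refine ⟨Function.extend ι c 0, ?_, hι.injective.extend_apply _ _⟩
  let k : S → Y' := fun y => hι.toHomeomorph.symm ⟨y, hS y.2⟩
  have hk : ∀ y : S, ι (k y) = y := fun y =>
    congrArg Subtype.val (hι.toHomeomorph.apply_symm_apply ⟨y, hS y.2⟩)
  have hc : Continuous k := hι.toHomeomorph.symm.continuous.comp (continuous_inclusion hS)
  have : S.domRestrict (Function.extend ι c 0) =
      S'.domRestrict c ∘ fun y : S => (⟨k y, hS' _ (hk y ▸ y.2)⟩ : S') := by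
    ext y
    exact (congrArg _ (hk y).symm).trans (hι.injective.extend_apply _ _ _)
  rw [LC, this]
  exact IsLocallyConstant.comp_continuous h (hc.subtype_mk _)

/-- Sections over an overlap are differences. -/
lemma surj0 {M : Type} [AddCommGroup M] {Z : Set X} {L : Sh (Scheme.etaleTopology.over X)} (hL : LcSh Z M L)
    {T U V W : Over X} (u : U ⟶ T) (v : V ⟶ T) (p : W ⟶ U) (r : W ⟶ V) (w : p ≫ u = r ≫ v)
    (he : Topology.IsEmbedding (p ≫ u).left)
    (hr : Set.range u.left ∩ Set.range v.left ⊆ Set.range (p ≫ u).left)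
    (hs : Split M (T.hom ⁻¹' Z) (Set.range u.left) (Set.range v.left)) (y : H W L 0) :
    ∃ y₁ y₂, y = res p L 0 y₁ - res r L 0 y₂ := by
  obtain ⟨ev, e1, e2, e3, e4⟩ := hL
  obtain ⟨y, rfl⟩ := (Ext.mk₀_bijective _ _).2 y
  have ov : ∀ {A B : Over X} (g : A ⟶ B) (t : A.left), B.hom (g.left t) = A.hom t := fun g t => by
    rw [← Over.w g]; rfl
  obtain ⟨c, hc, hc'⟩ := lc_push (S := T.hom ⁻¹' Z ∩ Set.range u.left ∩ Set.range v.left) he
    (fun t ht => hr ⟨ht.1.2, ht.2⟩) (fun t ht => by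
      have := ht.1.1
      rwa [Set.mem_preimage, ov] at this) (e1 W (frEquiv W L y))
  obtain ⟨c₁, c₂, h₁, h₂, h⟩ := hs c hc
  obtain ⟨s₁, k₁⟩ := e3 U (c₁ ∘ u.left) (lc_pull h₁ u.left.continuous fun t ht =>
    ⟨by rwa [Set.mem_preimage, ov], t, rfl⟩)
  obtain ⟨s₂, k₂⟩ := e3 V (c₂ ∘ v.left) (lc_pull h₂ v.left.continuous fun t ht =>
    ⟨by rwa [Set.mem_preimage, ov], t, rfl⟩)
  obtain ⟨y₁, rfl⟩ := (frEquiv U L).surjective s₁
  obtain ⟨y₂, rfl⟩ := (frEquiv V L).surjective s₂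
  refine ⟨Ext.mk₀ y₁, Ext.mk₀ y₂, ?_⟩
  have : y = (fr (Scheme.etaleTopology.over X)).map p ≫ y₁ - (fr (Scheme.etaleTopology.over X)).map r ≫ y₂ := by
    refine (frEquiv W L).injective (sub_eq_zero.1 (e2 W _ fun t ht => ?_))
    have e5 : (p ≫ u).left t = u.left (p.left t) := rfl
    have e6 : (p ≫ u).left t = v.left (r.left t) := by rw [w]; rfl
    rw [map_sub, map_sub, map_sub, frEquiv_pre, frEquiv_pre, Pi.sub_apply, Pi.sub_apply,
      e4 _ _ _ _ _ ht, e4 _ _ _ _ _ ht, k₁ _ (by rwa [ov]), k₂ _ (by rwa [ov]), ← hc',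
      h _ ⟨⟨by rwa [Set.mem_preimage, ov], _, e5.symm⟩, _, e6.symm⟩, Function.comp_apply,
      Function.comp_apply, ← e5, ← e6, sub_self]
  change _ = (Ext.mk₀ _).comp _ (zero_add 0) - (Ext.mk₀ _).comp _ (zero_add 0)
  rw [Ext.mk₀_comp_mk₀, Ext.mk₀_comp_mk₀, this, sub_eq_add_neg, sub_eq_add_neg, Ext.mk₀_add,
    Ext.mk₀_neg]

lemma sph_sph {A B C : Type} [CommRing A] [CommRing B] [CommRing C] (φ : A →+* B) (ψ : B →+* C)
    {a : Spec (.of A) ⟶ X} {b : Spec (.of B) ⟶ X} {c : Spec (.of C) ⟶ X}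
    (h : Spec.map (CommRingCat.ofHom φ) ≫ a = b) (h' : Spec.map (CommRingCat.ofHom ψ) ≫ b = c)
    (χ : A →+* C) (e : ψ.comp φ = χ) :
    ∃ h'' : Spec.map (CommRingCat.ofHom χ) ≫ a = c, sph ψ h' ≫ sph φ h = sph χ h'' := by
  subst e
  have : Spec.map (CommRingCat.ofHom ψ) ≫ Spec.map (CommRingCat.ofHom φ) =
      Spec.map (CommRingCat.ofHom (ψ.comp φ)) := by rw [← Spec.map_comp]; rfl
  exact ⟨by rw [← this, Category.assoc, h, h'], Over.OverMorphism.ext this⟩

variable {L : Sh (Scheme.etaleTopology.over X)} {n : ℕ}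

/-- `x` dies wherever `f` is invertible. -/
def Dies {R : Type} [CommRing R] {a : Spec (.of R) ⟶ X} (x : H (Over.mk a) L n) (f : R) : Prop :=
  ∀ (S : Type) [CommRing S] (φ : R →+* S) (b : Spec (.of S) ⟶ X)
    (h : Spec.map (CommRingCat.ofHom φ) ≫ a = b), IsUnit (φ f) → res (sph φ h) L n x = 0

variable {R : Type} [CommRing R] {a : Spec (.of R) ⟶ X}

lemma Dies.map {x : H (Over.mk a) L n} {f : R} (h : Dies x f) {S : Type} [CommRing S]
    (φ : R →+* S) {b : Spec (.of S) ⟶ X} (e : Spec.map (CommRingCat.ofHom φ) ≫ a = b) :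
    Dies (res (sph φ e) L n x) (φ f) := fun S' _ ψ c e' hu => by
  obtain ⟨e'', k⟩ := sph_sph φ ψ e e' _ rfl
  rw [res_res', k]
  exact h S' _ c e'' hu

lemma Dies.of_away {x : H (Over.mk a) L n} {f : R}
    (h : res (sph (algebraMap R (Localization.Away f)) (a := a) rfl) L n x = 0) : Dies x f :=
  fun S _ φ b e hu => by
    have k0 := IsLocalization.Away.lift_comp (S := Localization.Away f) f hu
    obtain ⟨e1, -⟩ := sph_sph (algebraMap R (Localization.Away f)) (IsLocalization.Away.lift f hu)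
      (a := a) rfl rfl φ k0
    obtain ⟨e2, k⟩ := sph_sph (algebraMap R (Localization.Away f)) (IsLocalization.Away.lift f hu)
      (a := a) rfl (e1.symm.trans e) φ k0
    rw [← k, ← res_res', h, map_zero]

lemma range_away (f : R) (S : Type) [CommRing S] [Algebra R S] [IsLocalization.Away f S] :
    Set.range (Spec.map (CommRingCat.ofHom (algebraMap R S))) =
      (PrimeSpectrum.basicOpen f : Set (PrimeSpectrum R)) :=
  PrimeSpectrum.localization_away_comap_range S f

/-- The Mayer-Vietoris step. -/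
lemma mv (h2 : NMV_s) (h3 : SPL_s) {l : ℕ} [Fact l.Prime] {Z : Set X} (hZ : IsClosed Z)
    (hL : LcSh Z (ZMod l) L) (hR : Aic R) (hl : IsUnit (l : R)) {q : ℕ}
    (ih : ∀ m, q = m + 1 → ∀ (S : Type) [CommRing S] (b : Spec (.of S) ⟶ X), Aic S →
      IsUnit (l : S) → ∀ y : H (Over.mk b) L (m + 1), y = 0)
    {f g : R} (hfg : IsCoprime f g) (x : H (Over.mk a) L (q + 1)) (hf : Dies x f) (hg : Dies x g) :
    x = 0 := by
  let A := Localization.Away f
  let B := Localization.Away g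
  let C := Localization.Away (algebraMap R B f)
  have hu : IsUnit (((algebraMap B C).comp (algebraMap R B)) f) :=
    IsLocalization.Away.algebraMap_isUnit (algebraMap R B f)
  let ψ : A →+* C := IsLocalization.Away.lift f hu
  have hψ : ψ.comp (algebraMap R A) = (algebraMap B C).comp (algebraMap R B) :=
    IsLocalization.Away.lift_comp f hu
  have : IsLocalization ((Submonoid.powers f).map (algebraMap R B)) C := by
    rw [Submonoid.map_powers]; infer_instance
  have sq := isPullback_SpecMap_of_isPushout _ _ _ _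
    (CommRingCat.isPushout_of_isLocalization (algebraMap R B) ψ hψ (Submonoid.powers f)).flip
  have oA : IsOpenImmersion (Spec.map (CommRingCat.ofHom (algebraMap R A))) := .of_isLocalization f
  have oB : IsOpenImmersion (Spec.map (CommRingCat.ofHom (algebraMap R B))) := .of_isLocalization g
  have oC : IsOpenImmersion (Spec.map (CommRingCat.ofHom (algebraMap B C))) :=
    .of_isLocalization (algebraMap R B f)
  let u := sph (algebraMap R A) (a := a) rfl
  let v := sph (algebraMap R B) (a := a) rfl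
  let r := sph (algebraMap B C) (a := Spec.map (CommRingCat.ofHom (algebraMap R B)) ≫ a) rfl
  let p := sph ψ (a := Spec.map (CommRingCat.ofHom (algebraMap R A)) ≫ a)
    (b := Spec.map (CommRingCat.ofHom (algebraMap B C)) ≫
      Spec.map (CommRingCat.ofHom (algebraMap R B)) ≫ a) (by rw [sq.w_assoc])
  have ru : Set.range u.left = (PrimeSpectrum.basicOpen f : Set (PrimeSpectrum R)) := range_away f A
  have rv : Set.range v.left = (PrimeSpectrum.basicOpen g : Set (PrimeSpectrum R)) := range_away g B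
  refine h2 X _ _ _ _ u v p r sq oA oB (fun t => ?_) L q (fun y => ?_) x
    (hf A _ _ rfl (IsLocalization.Away.algebraMap_isUnit f))
    (hg B _ _ rfl (IsLocalization.Away.algebraMap_isUnit g))
  · rw [ru, rv]
    by_contra hn
    obtain ⟨c, d, e⟩ := hfg
    have k1 : f ∈ PrimeSpectrum.asIdeal t := not_not.1 (not_or.1 hn).1
    have k2 : g ∈ PrimeSpectrum.asIdeal t := not_not.1 (not_or.1 hn).2
    exact (PrimeSpectrum.isPrime t).ne_top ((Ideal.eq_top_iff_one _).2
      (e ▸ add_mem (Ideal.mul_mem_left _ _ k1) (Ideal.mul_mem_left _ _ k2)))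
  · cases q with
    | zero =>
      have w : p ≫ u = r ≫ v := Over.OverMorphism.ext sq.w
      refine surj0 hL u v p r w ?_ ?_ ?_ y
      · rw [w]
        exact (@IsOpenImmersion.comp _ _ _ _ _ oC oB).base_open.isEmbedding
      · rintro _ ⟨⟨s, rfl⟩, t, e⟩
        obtain ⟨z, hz, -⟩ := Scheme.exists_preimage_of_isPullback sq s t e.symm
        exact ⟨z, congrArg u.left hz⟩
      · rw [ru, rv]
        exact h3 R hR l hl _ (hZ.preimage a.continuous) f g hfg
    | succ m =>
      refine ⟨0, 0, ?_⟩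
      rw [map_zero, map_zero, sub_zero]
      exact ih m rfl C _ ((hR.of_isLocalization (S := B) (Submonoid.powers g)).of_isLocalization
        (Submonoid.powers (algebraMap R B f)))
        (by simpa using hl.map ((algebraMap B C).comp (algebraMap R B))) y

/-- Local vanishing. -/
lemma loc (h1 : ZSEC_s) (hR : Aic R) {q : ℕ} (x : H (Over.mk a) L (q + 1)) (t : PrimeSpectrum R) :
    ∃ f ∉ t.asIdeal, Dies x f := by
  obtain ⟨⟨f, hf⟩, h⟩ := loc_van (ι := {f : R // f ∉ t.asIdeal})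
    (fun f => sph (algebraMap R (Localization.Away f.1)) (a := a) rfl) (fun G G' φ _ s => by
      have : Sheaf.IsLocallySurjective φ := (Sheaf.isLocallySurjective_iff_epi' _ φ).2 ‹_›
      obtain ⟨V, v, -, hv, ⟨s', hs⟩, y, hy⟩ :=
        exists_of_mem_Jov (Presheaf.imageSieve_mem (Scheme.etaleTopology.over X) φ.hom s) t
      obtain ⟨f, hf, σ, hσ⟩ := @h1 (.of R) hR V.left v.left hv y
      let σ' : Over.mk (Spec.map (CommRingCat.ofHom (algebraMap R (Localization.Away f))) ≫ a) ⟶ V :=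
        Over.homMk σ (by
          change σ ≫ V.hom = _ ≫ a
          rw [← Over.w v, ← hσ, Category.assoc]
          rfl)
      refine ⟨⟨f, hy ▸ hf⟩, G.obj.map σ'.op s', ?_⟩
      rw [nat, hs, res_res]
      exact congrArg (fun k => G'.obj.map (Quiver.Hom.op k) s) (Over.OverMorphism.ext hσ)) q L x
  exact ⟨f, hf, .of_away h⟩

theorem spec (h1 : ZSEC_s) (h2 : NMV_s) (h3 : SPL_s) {l : ℕ} [Fact l.Prime] {Z : Set X}
    (hZ : IsClosed Z) (hL : LcSh Z (ZMod l) L) (q : ℕ) :
    ∀ (R : Type) [CommRing R] (a : Spec (.of R) ⟶ X), Aic R → IsUnit (l : R) →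
      ∀ x : H (Over.mk a) L (q + 1), x = 0 := by
  induction q using Nat.strong_induction_on with
  | _ q ih =>
  intro R _ a hR hl x
  let I : Ideal R :=
    { carrier := {f | Dies x f}
      zero_mem' := fun S _ φ b e hu => by
        have : Subsingleton S := subsingleton_of_zero_eq_one (isUnit_zero_iff.1 (by simpa using hu))
        have : IsEmpty (Over.mk b).left := inferInstanceAs (IsEmpty (PrimeSpectrum S))
        exact van_empty _ _ _ _
      add_mem' := fun {f g} hf hg => .of_away (by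
        obtain ⟨w, hw⟩ := (IsLocalization.Away.algebraMap_isUnit
          (S := Localization.Away (f + g)) (f + g)).exists_left_inv
        exact mv h2 h3 hZ hL (hR.of_isLocalization (Submonoid.powers (f + g)))
          (by simpa using hl.map (algebraMap R (Localization.Away (f + g))))
          (fun m e => ih m (by omega)) ⟨w, w, by rw [← mul_add, ← map_add, hw]⟩ _
          (Dies.map hf _ rfl) (Dies.map hg _ rfl))
      smul_mem' := fun c f hf S _ φ b e hu =>
        hf S φ b e (isUnit_of_mul_isUnit_right (by simpa using hu)) }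
  have hI : I = ⊤ := by
    by_contra hn
    obtain ⟨m, hm, hle⟩ := Ideal.exists_le_maximal I hn
    obtain ⟨f, hf, h⟩ := loc h1 hR x ⟨m, hm.isPrime⟩
    exact hf (hle h)
  have h : Dies x 1 := (Ideal.eq_top_iff_one I).1 hI
  have e : Spec.map (CommRingCat.ofHom (RingHom.id R)) ≫ a = a := by simp
  have k : sph (RingHom.id R) e = 𝟙 _ := Over.OverMorphism.ext (by simp [sph])
  have := h R (RingHom.id R) a e (by simp)
  rwa [k, res_id'] at this

end AFFV

theorem affv (h1 : ZSEC_s) (h2 : NMV_s) (h3 : SPL_s) : AFFV_s := by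
  intro X l _ Z hZ L hL T _ hT hl q x
  let a : Spec (.of Γ(T.left, ⊤)) ⟶ X := T.left.isoSpec.inv ≫ T.hom
  let e : Over.mk a ≅ T := Over.isoMk T.left.isoSpec.symm
  refine (pre_bij ((fr (Scheme.etaleTopology.over X)).map e.hom) L (q + 1)).1 ?_
  rw [map_zero]
  exact AFFV.spec h1 h2 h3 hZ hL q _ a hT (hl.isUnit T.left.isoSpec.inv) _

end Pool.Agent.MP_855f4c_ag.E.PB

end

section

set_option autoImplicit false
set_option backward.isDefEq.respectTransparency false

open CategoryTheory Limits Abelian Opposite AlgebraicGeometry IsLocalRing Topology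

namespace Pool.Agent.MP_855f4c_ag.E.PB

open E3 KEY

namespace RELZ

section
variable {X Y M : Type*} [TopologicalSpace X] [TopologicalSpace Y]

lemma const {S : Set X} (hS : IsPreconnected S) {c : X → M} (h : LC S c) {x y : X} (hx : x ∈ S)
    (hy : y ∈ S) : c x = c y :=
  have := Subtype.preconnectedSpace hS
  IsLocallyConstant.apply_eq_of_preconnectedSpace h ⟨x, hx⟩ ⟨y, hy⟩

variable [AddCommGroup M]

lemma split_irr {Z U V : Set X} (hZ : IsPreirreducible Z) (hU : IsOpen U) (hV : IsOpen V) :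
    Split M Z U V := by
  intro c hc
  have : IsPreirreducible (Z ∩ U ∩ V) := by
    rintro A B hA hB ⟨a, ha⟩ ⟨b, hb⟩
    obtain ⟨z, hz⟩ := hZ _ _ ((hU.inter hV).inter hA) hB ⟨a, ha.1.1.1, ⟨ha.1.1.2, ha.1.2⟩, ha.2⟩
      ⟨b, hb.1.1.1, hb.2⟩
    exact ⟨z, ⟨⟨hz.1, hz.2.1.1.1⟩, hz.2.1.1.2⟩, hz.2.1.2, hz.2.2⟩
  rcases (Z ∩ U ∩ V).eq_empty_or_nonempty with h | ⟨z, hz⟩
  · exact ⟨0, 0, IsLocallyConstant.const 0, IsLocallyConstant.const 0, fun y hy => (h.le hy).elim⟩
  · exact ⟨fun _ => c z, 0, IsLocallyConstant.const _, IsLocallyConstant.const 0, fun y hy => by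
      simpa using const this.isPreconnected hc hy hz⟩

lemma split_pre {j : X → Y} (hj : IsEmbedding j) {Z U V : Set Y}
    (h : Split M (Z ∩ Set.range j) U V) : Split M (j ⁻¹' Z) (j ⁻¹' U) (j ⁻¹' V) := by
  intro c hc
  obtain ⟨d, hd, e⟩ := lc_ext hj (S := Z ∩ U ∩ V) hc
  obtain ⟨c₁, c₂, l₁, l₂, H⟩ := h d (lc_comp continuous_id hd fun y hy =>
    ⟨⟨⟨hy.1.1.1, hy.1.2⟩, hy.2⟩, hy.1.1.2⟩)
  exact ⟨_, _, lc_comp hj.continuous l₁ fun y hy => ⟨⟨hy.1, y, rfl⟩, hy.2⟩,
    lc_comp hj.continuous l₂ fun y hy => ⟨⟨hy.1, y, rfl⟩, hy.2⟩,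
    fun y hy => (e y).symm.trans (H _ ⟨⟨⟨hy.1.1, y, rfl⟩, hy.1.2⟩, hy.2⟩)⟩

end

variable {X : Scheme.{0}}

/-- Sections as `H^0`. -/
noncomputable def h0 (T : Over X) (F : Sh (Scheme.etaleTopology.over X)) : F.obj.obj (op T) ≃+ H T F 0 :=
  (frEquiv T F).symm.trans Ext.addEquiv₀.symm

lemma res_h0 {T' T : Over X} (g : T' ⟶ T) (F : Sh (Scheme.etaleTopology.over X)) (s : F.obj.obj (op T)) :
    res g F 0 (h0 T F s) = h0 T' F (F.obj.map g.op s) := by
  obtain ⟨a, rfl⟩ := (frEquiv T F).surjective s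
  rw [← frEquiv_pre]
  simp only [h0, AddEquiv.trans_apply, AddEquiv.symm_apply_apply]
  exact Ext.mk₀_comp_mk₀ _ _

lemma mem {T' T : Over X} (g : T' ⟶ T) (Z : Set X) (t : T'.left) :
    T.hom (g.left t) ∈ Z ↔ T'.hom t ∈ Z := by
  rw [← Over.w g]; rfl

lemma aic_closed {P : Scheme.{0}} {B : Type} [CommRing B] (hB : Aic B) (g : P ⟶ Spec (.of B))
    [IsClosedImmersion g] : IsAffine P ∧ Aic Γ(P, ⊤) :=
  have h := IsClosedImmersion.isAffine_surjective_of_isAffine g
  ⟨h.1, hB.of_surjective ((Scheme.ΓSpecIso (.of B)).inv ≫ g.appTop).hom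
    (h.2.comp (ConcreteCategory.bijective_of_isIso (Scheme.ΓSpecIso (.of B)).inv).2)⟩

lemma mv0 (h3 : NMV_s) {M : Type} [AddCommGroup M] {Z : Set X} {L : Sh (Scheme.etaleTopology.over X)} (hL : LcSh Z M L)
    {T U V W : Over X} {u : U ⟶ T} {v : V ⟶ T} {p : W ⟶ U} {r : W ⟶ V}
    (K : IsPullback p.left r.left u.left v.left) (o₁ : IsOpenImmersion u.left)
    (o₂ : IsOpenImmersion v.left)
    (hc : ∀ t : T.left, t ∈ Set.range u.left ∨ t ∈ Set.range v.left)
    (hU : ∀ q (x : H U L (q + 1)), x = 0) (hV : ∀ q (x : H V L (q + 1)), x = 0)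
    (hW : ∀ q (x : H W L (q + 1)), x = 0)
    (hs : Split M (T.hom ⁻¹' Z) (Set.range u.left) (Set.range v.left)) (q : ℕ)
    (x : H T L (q + 1)) : x = 0 := by
  refine h3 X T U V W u v p r K ‹_› ‹_› hc L q (fun y => ?_) x (hU _ _) (hV _ _)
  cases q with
  | succ q => exact ⟨0, 0, by rw [hW _ y, map_zero, map_zero, sub_zero]⟩
  | zero =>
    obtain ⟨ev, e1, e2, e3, e4⟩ := hL
    obtain ⟨s, rfl⟩ := (h0 W L).surjective y
    have : IsOpenImmersion p.left := MorphismProperty.of_isPullback K.flip ‹_›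
    have w (t : W.left) : u.left (p.left t) = v.left (r.left t) := congr($(K.w) t)
    obtain ⟨d, hd, e⟩ := lc_ext (p.left ≫ u.left).isOpenEmbedding.isEmbedding (S := T.hom ⁻¹' Z)
      (lc_comp continuous_id (e1 W s) fun t ht => (mem (p ≫ u) Z t).1 ht)
    obtain ⟨c₁, c₂, l₁, l₂, H⟩ := hs d (lc_comp continuous_id hd (by
      rintro _ ⟨⟨h, a, rfl⟩, b, hb⟩
      obtain ⟨t, rfl, -⟩ := Scheme.exists_preimage_of_isPullback K a b hb.symm
      exact ⟨h, t, rfl⟩))
    obtain ⟨s₁, k₁⟩ := e3 U _ (lc_comp u.left.continuous l₁ fun t ht =>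
      ⟨(mem u Z t).2 ht, t, rfl⟩)
    obtain ⟨s₂, k₂⟩ := e3 V _ (lc_comp v.left.continuous l₂ fun t ht =>
      ⟨(mem v Z t).2 ht, t, rfl⟩)
    refine ⟨h0 U L s₁, h0 V L s₂, ?_⟩
    rw [res_h0, res_h0, ← map_sub]
    refine congrArg _ (sub_eq_zero.1 (e2 W _ fun t ht => ?_))
    rw [map_sub, map_sub, Pi.sub_apply, Pi.sub_apply, e4 _ _ _ _ _ ht, e4 _ _ _ _ _ ht,
      k₁ _ ((mem p Z t).2 ht), k₂ _ ((mem r Z t).2 ht), Function.comp_apply,
      Function.comp_apply, ← w]
    exact sub_eq_zero.2 ((e t).symm.trans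
      (H _ ⟨⟨(mem (p ≫ u) Z t).2 ht, _, rfl⟩, _, (w t).symm⟩))

lemma van (h2 : AFFV_s) (h3 : NMV_s) {A : Type} [CommRing A] {l : ℕ} [Fact l.Prime]
    (hl : IsUnit (l : A)) {W W₀ : Scheme.{0}} {a : W ⟶ Spec (.of A)} (S : SCh A a) (j : W₀ ⟶ W)
    [IsClosedImmersion j] {Z : Set W} (hZ : IsClosed Z) {L : Sh (Scheme.etaleTopology.over W)} (hL : LcSh Z (ZMod l) L)
    (hs : Split (ZMod l) (Z ∩ Set.range j) (Set.range S.ι₁) (Set.range S.ι₂)) (q : ℕ)
    (x : H (Over.mk j) L (q + 1)) : x = 0 := by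
  have := S.o₁
  have := S.o₂
  have hv {B : Type} [CommRing B] (hB : Aic B) (ι : Spec (.of B) ⟶ W) (q : ℕ)
      (x : H (Over.mk (pullback.fst j ι ≫ j)) L (q + 1)) : x = 0 :=
    h2 W l Z hZ L hL _ (aic_closed hB (pullback.snd j ι)).1 (aic_closed hB (pullback.snd j ι)).2
      ((Linv.spec hl).of_hom (pullback.fst j ι ≫ j ≫ a)) q x
  let k₁ := Spec.map (CommRingCat.ofHom (algebraMap S.B₁ S.C))
  let k₂ := Spec.map (CommRingCat.ofHom (algebraMap S.B₂ S.C))
  have w : k₁ ≫ S.ι₁ = k₂ ≫ S.ι₂ := S.glue.w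
  let p : pullback j (k₁ ≫ S.ι₁) ⟶ pullback j S.ι₁ :=
    pullback.lift (pullback.fst _ _) (pullback.snd _ _ ≫ k₁) (by simp [pullback.condition])
  let r : pullback j (k₁ ≫ S.ι₁) ⟶ pullback j S.ι₂ :=
    pullback.lift (pullback.fst _ _) (pullback.snd _ _ ≫ k₂) (by simp [pullback.condition, w])
  have K : IsPullback p r (pullback.fst j S.ι₁) (pullback.fst j S.ι₂) := by
    refine ⟨⟨by simp [p, r]⟩, ⟨PullbackCone.IsLimit.mk _ (fun s => pullback.lift
      (s.fst ≫ pullback.fst _ _) (S.glue.lift (s.fst ≫ pullback.snd _ _) (s.snd ≫ pullback.snd _ _)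
        (by simp only [Category.assoc, ← pullback.condition, s.condition_assoc])) (by
          rw [← Category.assoc _ k₁, S.glue.lift_fst]
          simp [pullback.condition])) (fun s => ?_) (fun s => ?_) fun s m h h' => pullback.hom_ext ?_ ?_⟩⟩
    · rw [← cancel_mono (pullback.fst j S.ι₁)]
      simp [p]
    · rw [← cancel_mono (pullback.fst j S.ι₂)]
      simp [r, s.condition]
    · simp [← h, p]
    · rw [pullback.lift_snd]
      refine S.glue.hom_ext (by simp [← h, p, k₁]) (by simp [← h', r, k₂])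
  have := S.ch.loc₁
  refine mv0 h3 hL (T := Over.mk j) (U := Over.mk (pullback.fst j S.ι₁ ≫ j))
    (V := Over.mk (pullback.fst j S.ι₂ ≫ j)) (W := Over.mk (pullback.fst j (k₁ ≫ S.ι₁) ≫ j))
    (u := Over.homMk (pullback.fst j S.ι₁)) (v := Over.homMk (pullback.fst j S.ι₂))
    (p := Over.homMk p (by simp [p])) (r := Over.homMk r (by simp [r])) K
    (inferInstance : IsOpenImmersion (pullback.fst j S.ι₁))
    (inferInstance : IsOpenImmersion (pullback.fst j S.ι₂)) (fun t => ?_) (hv S.ch.aic₁ S.ι₁) (hv S.ch.aic₂ S.ι₂)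
    (hv (S.ch.aic₁.of_isLocalization (S := S.C) (.powers S.t)) (k₁ ≫ S.ι₁)) ?_ q x
  · change t ∈ Set.range (pullback.fst j S.ι₁) ∨ t ∈ Set.range (pullback.fst j S.ι₂)
    rw [Scheme.Pullback.range_fst, Scheme.Pullback.range_fst]
    exact S.cov _
  · change Split _ (j ⁻¹' Z) (Set.range (pullback.fst j S.ι₁)) (Set.range (pullback.fst j S.ι₂))
    rw [Scheme.Pullback.range_fst, Scheme.Pullback.range_fst]
    exact split_pre j.isClosedEmbedding.isEmbedding hs

lemma fibre {A B : Type} [CommRing A] [IsLocalRing A] [CommRing B] [Algebra A B]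
    {W W₀ : Scheme.{0}} {a : W ⟶ Spec (.of A)} {j : W₀ ⟶ W} (hj : Fib a j) {ι : Spec (.of B) ⟶ W}
    (h : ι ≫ a = Spec.map (CommRingCat.ofHom (algebraMap A B))) :
    ι ⁻¹' Set.range j = PrimeSpectrum.zeroLocus ((maximalIdeal A).map (algebraMap A B)) := by
  ext x
  have : a (ι x) = PrimeSpectrum.comap (algebraMap A B) x := congr($h x)
  refine (hj.2 _).trans (Iff.trans ?_ (Ideal.map_le_iff_le_comap (K := x.asIdeal)).symm)
  rw [this]
  exact ⟨fun h => h.ge, fun h =>
    ((maximalIdeal.isMaximal A).eq_of_le (Ideal.IsPrime.ne_top inferInstance) h).symm⟩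

end RELZ

open RELZ

theorem relz (h1 : KEY_s) (h2 : AFFV_s) (h3 : NMV_s) : RELZ_s := by
  intro A _ _ l _ hl W W₀ a S j hj Z hZ hZ' L hL q
  have := hj.1
  have := S.o₁
  have := S.o₂
  obtain ⟨hc, hs⟩ := h1 A S.B₁ S.B₂ S.C S.t S.s S.ch l hl W S.ι₁ S.ι₂ S.ι₁.isOpenEmbedding
    S.ι₂.isOpenEmbedding (Set.eq_univ_of_forall S.cov) (fun x => congr($(S.glue.w) x))
    (fun x y h => by
      obtain ⟨z, rfl, -⟩ := Scheme.exists_preimage_of_isPullback S.glue x y h
      exact fun ht => z.isPrime.ne_top (z.asIdeal.eq_top_of_isUnit_mem ht (.of_mul_eq_one _ S.ch.ts)))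
    _ (fibre hj S.a₁) (fibre hj S.a₂) Z hZ hZ'
  cases q with
  | succ q =>
    have a := van h2 h3 hl S (𝟙 W) hZ' hL (by
      simpa using split_irr hZ.2 S.ι₁.isOpenEmbedding.isOpen_range
        S.ι₂.isOpenEmbedding.isOpen_range) q
    have b := van h2 h3 hl S j hZ' hL hs q
    exact ⟨fun x y _ => (a x).trans (a y).symm, fun y => ⟨0, (b _).trans (b y).symm⟩⟩
  | zero =>
    obtain ⟨ev, e1, e2, e3, e4⟩ := hL
    obtain ⟨_, hz, z, rfl⟩ := hc.1
    refine ⟨(injective_iff_map_eq_zero _).2 fun x hx => ?_, fun y => ?_⟩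
    · obtain ⟨s, rfl⟩ := (RELZ.h0 _ L).surjective x
      have hs : L.obj.map (top j).op s = 0 :=
        (RELZ.h0 _ L).injective ((res_h0 _ _ _).symm.trans (hx.trans (map_zero _).symm))
      rw [e2 _ s fun t ht => ?_, map_zero]
      have := e4 _ _ (top j) s z hz
      rw [hs, map_zero] at this
      exact (const (S := (𝟙 W : W ⟶ W) ⁻¹' Z) hZ.2.isPreconnected (e1 _ s) ht hz).trans this.symm
    · obtain ⟨s, rfl⟩ := (RELZ.h0 _ L).surjective y
      obtain ⟨t, ht⟩ := e3 (Over.mk (𝟙 W)) (fun _ => ev _ s z) (IsLocallyConstant.const _)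
      obtain ⟨d, hd, e⟩ := lc_ext j.isClosedEmbedding.isEmbedding (S := Z) (e1 _ s)
      refine ⟨RELZ.h0 _ L t, (res_h0 _ _ _).trans (congrArg _ (sub_eq_zero.1 (e2 _ _ fun x hx => ?_)))⟩
      rw [map_sub, Pi.sub_apply, e4 _ _ _ _ _ hx, sub_eq_zero]
      exact (ht _ hx).trans ((e z).symm.trans
        ((const hc.2 hd ⟨hz, z, rfl⟩ ⟨hx, x, rfl⟩).trans (e x)))

end Pool.Agent.MP_855f4c_ag.E.PB

end

section

set_option autoImplicit false
set_option backward.isDefEq.respectTransparency false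

open CategoryTheory Limits Abelian Opposite AlgebraicGeometry IsLocalRing TopologicalSpace

namespace Pool.Agent.MP_855f4c_ag.E.PB

open E3

namespace DEVI

variable {W : Scheme.{0}}

/-- A map whose image lies in every neighbourhood of `w` factors through the local ring. -/
lemma exists_lift (w : W) {T : Scheme.{0}} (t : T ⟶ W)
    (h : ∀ U : W.Opens, w ∈ U → ⊤ ≤ t ⁻¹ᵁ U) :
    ∃ u : T ⟶ Spec (W.presheaf.stalk w), u ≫ W.fromSpecStalk w = t := by
  let ψ : W.presheaf.stalk w ⟶ Γ(T, ⊤) :=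
    colimit.desc ((OpenNhds.inclusion w).op ⋙ W.presheaf)
      ⟨Γ(T, ⊤), { app U := t.appLE U.unop.1 ⊤ (h _ U.unop.2)
                  naturality U V i :=
                    (t.map_appLE (h _ V.unop.2) ((OpenNhds.inclusion w).op.map i)).trans
                      (Category.comp_id _).symm }⟩
  have hψ (U : W.Opens) (hU : w ∈ U) : W.presheaf.germ U w hU ≫ ψ = t.appLE U ⊤ (h U hU) :=
    colimit.ι_desc _ _
  obtain ⟨_, ⟨U, hU, rfl⟩, hw, -⟩ := W.isBasis_affineOpens.exists_subset_of_mem_open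
    (Set.mem_univ w) isOpen_univ
  refine ⟨T.topIso.inv ≫ (⊤ : T.Opens).toSpecΓ ≫ Spec.map ψ, ?_⟩
  rw [← hU.fromSpecStalk_eq_fromSpecStalk hw, IsAffineOpen.fromSpecStalk]
  simp only [Category.assoc]
  rw [← Spec.map_comp_assoc, hψ, Scheme.Opens.toSpecΓ_SpecMap_appLE_assoc, hU.toSpecΓ_fromSpec,
    Scheme.Hom.resLE_comp_ι]
  simp

/-- Open subschemes as objects over `W`. -/
noncomputable def OV (W : Scheme.{0}) : W.Opens ⥤ Over W where
  obj V := Over.mk V.ι
  map i := Over.homMk (W.homOfLE (leOfHom i)) (W.homOfLE_ι _)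

instance (T : Over W) (V : W.Opens) : Subsingleton (T ⟶ (OV W).obj V) :=
  ⟨fun a b => Over.OverMorphism.ext ((cancel_mono V.ι).1 ((Over.w a).trans (Over.w b).symm))⟩

/-- Affine open neighbourhoods. -/
abbrev Nb (w : W) : Type := {V : W.Opens // IsAffineOpen V ∧ w ∈ V}

lemma exists_nb {w : W} {U : W.Opens} (h : w ∈ U) : ∃ V : Nb w, V.1 ≤ U := by
  obtain ⟨V, hV, hw, hU⟩ := Opens.isBasis_iff_nbhd.1 W.isBasis_affineOpens h
  exact ⟨⟨V, hV, hw⟩, hU⟩

instance (w : W) : Nonempty (Nb w) := ⟨(exists_nb (U := ⊤) trivial).choose⟩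

instance (w : W) : IsCodirectedOrder (Nb w) := ⟨fun a b => by
  obtain ⟨V, hV⟩ := exists_nb (U := a.1 ⊓ b.1) ⟨a.2.2, b.2.2⟩
  exact ⟨V, hV.trans inf_le_left, hV.trans inf_le_right⟩⟩

/-- The system of affine open neighbourhoods. -/
noncomputable def DN (w : W) : Nb w ⥤ Over W :=
  (show Monotone (fun V : Nb w => V.1) from fun _ _ h => h).functor ⋙ OV W

instance (w : W) (T : Over W) (V : Nb w) : Subsingleton (T ⟶ (DN w).obj V) :=
  inferInstanceAs (Subsingleton (T ⟶ (OV W).obj V.1))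

/-- The local scheme at `w`. -/
noncomputable abbrev loc (w : W) : Over W :=
  Over.mk (Y := Spec (.of (W.presheaf.stalk w))) (W.fromSpecStalk w)

/-- The local scheme maps to every neighbourhood. -/
noncomputable def toV (V : W.Opens) (w : W) (h : w ∈ V) : loc w ⟶ (OV W).obj V :=
  Over.homMk (V.fromSpecStalkOfMem w h) (V.fromSpecStalkOfMem_ι w h)

/-- The cone with vertex the local scheme. -/
noncomputable def cN (w : W) : Cone (DN w) where
  pt := loc w
  π := { app V := toV V.1 w V.2.2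
         naturality _ V _ := Subsingleton.elim (α := _ ⟶ (DN w).obj V) _ _ }

lemma cN_lift (w : W) (s : Cone (DN w)) :
    ∃ u : s.pt.left ⟶ Spec (W.presheaf.stalk w), u ≫ W.fromSpecStalk w = s.pt.hom :=
  exists_lift w _ fun U hU x _ => by
    obtain ⟨V, hV⟩ := exists_nb hU
    have : (pr s V).left ≫ V.1.ι = s.pt.hom := Over.w (pr s V)
    refine hV ?_
    rw [← this]
    exact ((pr s V).left x).2

/-- The local scheme is the limit of the affine neighbourhoods. -/
noncomputable def isLim (w : W) : IsLimit (cN w) where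
  lift s := Over.homMk (cN_lift w s).choose (cN_lift w s).choose_spec
  fac _ V := Subsingleton.elim (α := _ ⟶ (DN w).obj V) _ _
  uniq s m _ := Over.OverMorphism.ext ((cancel_mono (W.fromSpecStalk w)).1
    ((Over.w m).trans (cN_lift w s).choose_spec.symm))

lemma colimAt {P : PSh W} (hP : LFP P) (w : W) : ColimAt P (cN w) :=
  hP _ (DN w) (cN w) (fun V => V.2.1) (isLim w)

/-- The residue field. -/
abbrev kap (w : W) : Type := ResidueField (W.presheaf.stalk w)

/-- The point `w` as a morphism. -/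
noncomputable def bw (w : W) : Spec (.of (kap w)) ⟶ W :=
  Spec.map (CommRingCat.ofHom (residue _)) ≫ W.fromSpecStalk w

lemma bw_apply (w : W) (t : Spec (.of (kap w))) : bw w t = w := by
  have : t = closedPoint (kap w) := Subsingleton.elim (α := PrimeSpectrum (kap w)) _ _
  rw [this, bw, Scheme.Hom.comp_apply]
  exact (congrArg _ (comap_closedPoint (residue (W.presheaf.stalk w)))).trans
    Scheme.fromSpecStalk_closedPoint

/-- The closed point of the local scheme. -/
noncomputable def cp (w : W) : Over.mk (bw w) ⟶ loc w := sph (residue _) rfl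

/-- The point `w` of an open `V`. -/
noncomputable def ew (V : W.Opens) (w : W) (h : w ∈ V) : Over.mk (bw w) ⟶ (OV W).obj V :=
  cp w ≫ toV V w h

lemma mem_of_hom {V : W.Opens} {w : W} (y : Over.mk (bw w) ⟶ (OV W).obj V) : w ∈ V := by
  have : y.left ≫ V.ι = bw w := Over.w y
  rw [← bw_apply w (closedPoint (kap w)), ← this]
  exact (y.left _).2

lemma aic_stalk {R : Type} [CommRing R] (ι : Spec (.of R) ⟶ W) (hR : Aic R) [IsOpenImmersion ι]
    (p : Spec (.of R)) : Aic (W.presheaf.stalk (ι p)) := by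
  let : Algebra R ((Spec (.of R)).presheaf.stalk p) := StructureSheaf.stalkAlgebra R p
  have : IsLocalization.AtPrime ((Spec (.of R)).presheaf.stalk p) p.asIdeal :=
    StructureSheaf.IsLocalization.to_stalk R p
  exact (hR.of_isLocalization p.asIdeal.primeCompl).of_surjective (inv (ι.stalkMap p)).hom
    (ConcreteCategory.bijective_of_isIso (inv (ι.stalkMap p))).2

lemma cc_iso {l : ℕ} {F G : Sh (Scheme.etaleTopology.over W)} (e : F ≅ G) (h : Cc l F) : Cc l G := by
  have a (T) (s : G.obj.obj T) : e.hom.hom.app T (e.inv.hom.app T s) = s :=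
    congr(($(e.inv_hom_id)).hom.app T s)
  have b (T) (s : F.obj.obj T) : e.inv.hom.app T (e.hom.hom.app T s) = s :=
    congr(($(e.hom_inv_id)).hom.app T s)
  refine ⟨fun I _ _ D c hD hc => ⟨fun s => ?_, fun i t ht => ?_⟩, ?_⟩
  · obtain ⟨i, t, ht⟩ := (h.1 I D c hD hc).1 (e.inv.hom.app _ s)
    exact ⟨i, e.hom.hom.app _ t, by rw [← nat, ht, a]⟩
  · obtain ⟨j, f, hf⟩ := (h.1 I D c hD hc).2 i (e.inv.hom.app _ t) (by rw [← nat, ht, map_zero])
    exact ⟨j, f, by rw [← a _ t, ← nat, hf, map_zero]⟩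
  · intro A k _ _ _ _ φ _ x y hxy hl
    have := h.2 A k φ x y hxy hl
    refine ⟨fun s t hst => ?_, fun s => ?_⟩
    · rw [← a _ s, ← a _ t]
      exact congrArg _ (this.1 (by rw [← nat, ← nat, hst]))
    · obtain ⟨t, ht⟩ := this.2 (e.inv.hom.app _ s)
      exact ⟨e.hom.hom.app _ t, by rw [← nat, ht, a]⟩

lemma rig_cp {l : ℕ} (hl : Linv l W) {w : W} (hw : Aic (W.presheaf.stalk w)) {P : PSh W}
    (hP : Rig l P) : Function.Bijective (P.map (cp w).op) :=
  have := hw.shl
  have := hw.isAlgClosed_residue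
  hP _ _ (residue _) _ _ rfl (hl.isUnit (W.fromSpecStalk w))

lemma fr_e (V : W.Opens) (w : W) (h : w ∈ V) :
    frEquiv _ _ ((fr (Scheme.etaleTopology.over W)).map (ew V w h)) =
      (toSheafify (Scheme.etaleTopology.over W) (frP.obj ((OV W).obj V))).app _ (bas (ew V w h)) := by
  rw [← Category.comp_id ((fr (Scheme.etaleTopology.over W)).map (ew V w h)), frEquiv_pre]
  have := nat (toSheafify (Scheme.etaleTopology.over W) (frP.obj ((OV W).obj V))) (ew V w h) (bas (𝟙 _))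
  rw [map_bas, Category.comp_id] at this
  exact this.symm

lemma gen' (h1 : NGEO_s) {w : W} (hw : Aic (W.presheaf.stalk w)) (V : W.Opens)
    (x : (fr (Scheme.etaleTopology.over W)).obj (Over.mk (bw w)) ⟶ (fr (Scheme.etaleTopology.over W)).obj ((OV W).obj V)) :
    x = 0 ∨ ∃ (h : w ∈ V) (n : ℤ), x = n • (fr (Scheme.etaleTopology.over W)).map (ew V w h) := by
  have := hw.isAlgClosed_residue
  obtain ⟨z, hz⟩ := (h1 W _ (bw w)).2 (frP.obj ((OV W).obj V))
    (frEquiv _ ((fr (Scheme.etaleTopology.over W)).obj ((OV W).obj V)) x)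
  by_cases hw : w ∈ V
  · have hz' : ∃ n : ℤ, z = n • bas (ew V w hw) := by
      refine ⟨DFunLike.coe (F := _ →₀ ℤ) z ⟨ew V w hw⟩, Finsupp.ext fun y => ?_⟩
      obtain rfl : y = ⟨ew V w hw⟩ := congrArg ULift.up (Subsingleton.elim y.down _)
      exact ((Finsupp.smul_apply _ _ _).trans (by simp [bas])).symm
    obtain ⟨n, rfl⟩ := hz'
    refine .inr ⟨hw, n, (frEquiv _ _).injective (hz.symm.trans ?_)⟩
    rw [map_zsmul, map_zsmul, fr_e]
  · refine .inl ((frEquiv _ _).injective (hz.symm.trans ?_))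
    have : z = 0 := Finsupp.ext fun y => (hw (mem_of_hom y.down)).elim
    rw [this, map_zero, map_zero]

/-- The stalk data. -/
noncomputable def dev (h1 : NGEO_s) (h2 : NPT_s) (h3 : NCLO_s) (l : ℕ) (hl : Linv l W)
    (hW : ∀ w : W, Aic (W.presheaf.stalk w)) : Dev (Sh (Scheme.etaleTopology.over W)) W where
  C := Cc l
  P w := (fr (Scheme.etaleTopology.over W)).obj (Over.mk (bw w))
  fV := OV W ⋙ fr (Scheme.etaleTopology.over W)
  B := W.affineOpens
  e V w h := (fr (Scheme.etaleTopology.over W)).map (ew V w h)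
  basis := W.isBasis_affineOpens
  proj w := have := (hW w).isAlgClosed_residue; (h1 W _ (bw w)).1
  e_map i w h h' := ((fr (Scheme.etaleTopology.over W)).map_comp _ _).symm.trans (congrArg _ (Subsingleton.elim _ _))
  gen V w x := gen' h1 (hW w) V x
  C_fV V hV := (h3 W l).2.2.2.1 V hV
  C_iso := cc_iso
  C_ker f a b := ((h3 W l).1 _ _ f a b).1
  C_coker f a b := ((h3 W l).1 _ _ f a b).2
  pt F hF h := h2 W l hl F hF fun k _ _ b s => by
    have := (hW (b (closedPoint k))).shl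
    obtain ⟨t, rfl⟩ := (hF.2 _ k (Scheme.stalkClosedPointTo b).hom (W.fromSpecStalk _) b
      (Scheme.Spec_stalkClosedPointTo_fromSpecStalk b) (hl.isUnit (W.fromSpecStalk _))).2 s
    have : t = 0 := (rig_cp hl (hW _) hF.2).1 (by
      rw [map_zero, ← (frEquiv _ F).apply_symm_apply (F.obj.map _ t), h _ ((frEquiv _ F).symm _),
        map_zero])
    rw [this, map_zero]
  germ G hG w x := by
    obtain ⟨y, hy⟩ := (rig_cp hl (hW w) hG.2).2 (frEquiv _ G x)
    obtain ⟨V, t, rfl⟩ := (colimAt hG.1 w).1 y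
    refine ⟨V.1, V.2.1, V.2.2, (frEquiv _ G).symm t, (frEquiv _ G).injective ?_⟩
    erw [frEquiv_pre]
    rw [AddEquiv.apply_symm_apply, ← hy]
    exact (res_res G.obj (cp w) (toV V.1 w V.2.2) t).symm
  germ0 G hG V hV s w h hs := by
    have h0 : G.obj.map (cp w).op (G.obj.map (pr (cN w) ⟨V, hV, h⟩).op (frEquiv _ G s)) = 0 := by
      refine (res_res G.obj (cp w) (toV V w h) _).trans ?_
      exact (frEquiv_pre (ew V w h) s).symm.trans (by erw [hs]; rw [map_zero])
    obtain ⟨V', f, hf⟩ := (colimAt hG.1 w).2 ⟨V, hV, h⟩ (frEquiv _ G s)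
      ((rig_cp hl (hW w) hG.2).1 (h0.trans (map_zero _).symm))
    refine ⟨V'.1, V'.2.2, fun w' h' h'' => (frEquiv _ G).injective ?_⟩
    erw [frEquiv_pre]
    rw [Subsingleton.elim (ew V w' h') (ew V'.1 w' h'' ≫ (DN w).map f), ← res_res]
    erw [hf]
    rw [map_zero, map_zero]

end DEVI

open DEVI in
theorem devi (h1 : NGEO_s) (h2 : NPT_s) (h3 : NCLO_s) : DEVI_s := by
  intro W l _ hl hW
  have hW' (w : W) : Aic (W.presheaf.stalk w) := by
    obtain ⟨R, _, ι, hR, _, p, rfl⟩ := hW w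
    exact aic_stalk ι hR p
  refine ⟨dev h1 h2 h3 l hl hW', fun _ => Iff.rfl, fun G hG => ⟨hG.1, fun w x => ?_⟩, ?_⟩
  · obtain ⟨n, hn⟩ := hG.2 (Over.mk (bw w)) (inferInstanceAs (IsAffine (Spec _))) (frEquiv _ G x)
    refine ⟨n, (frEquiv _ G).injective ?_⟩
    rw [← Nat.cast_pow, natCast_zsmul]
    erw [map_nsmul, map_zero]
    exact hn
  · rintro Z L ⟨ev, -, e2, e3, e4⟩ V -
    obtain ⟨s, hs⟩ := e3 ((OV W).obj V) (fun _ => 1) (IsLocallyConstant.const _)
    refine ⟨(frEquiv _ L).symm s, fun w h => ?_⟩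
    have key : frEquiv _ L ((fr (Scheme.etaleTopology.over W)).map (ew V w h) ≫ (frEquiv _ L).symm s) =
        L.obj.map (ew V w h).op s := by rw [frEquiv_pre, AddEquiv.apply_symm_apply]
    refine ⟨fun hw => (frEquiv _ L).injective (key.trans ((e2 _ _ fun t ht => ?_).trans
      (map_zero _).symm)), fun hw n => ?_⟩
    · exact (hw (bw_apply w t ▸ ht)).elim
    · have hv (t : Spec (.of (DEVI.kap w))) :
          ev (Over.mk (bw w)) (n • L.obj.map (ew V w h).op s) t = (n : ZMod l) := by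
        have ht : (Over.mk (bw w)).hom t ∈ Z := (bw_apply w t).symm ▸ hw
        rw [map_zsmul, Pi.smul_apply, e4 _ _ _ _ _ ht, hs, zsmul_one]
        rw [← Over.w (ew V w h)] at ht
        exact ht
      rw [← ZMod.intCast_zmod_eq_zero_iff_dvd, ← (frEquiv _ L).map_eq_zero_iff]
      erw [map_zsmul, key]
      exact ⟨fun h0 => by rw [← hv (closedPoint (DEVI.kap w)), h0, map_zero]; rfl,
        fun h0 => e2 _ _ fun t _ => (hv t).trans h0⟩

end Pool.Agent.MP_855f4c_ag.E.PB

end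

section

set_option autoImplicit false
set_option backward.isDefEq.respectTransparency false

open CategoryTheory Limits Abelian Opposite AlgebraicGeometry

namespace Pool.Agent.MP_855f4c_ag.E.PB

namespace DU

universe w v u

variable {𝒜 : Type u} [Category.{v} 𝒜] [Abelian 𝒜] [HasExt.{w} 𝒜]

/-- the legs of a cocone -/
def leg {D : Type w} [SmallCategory D] {G : D ⥤ 𝒜} (c : Cocone G) (d : D) : G.obj d ⟶ c.pt :=
  c.ι.app d

/-- `Ext^q(A,-)` sends the cocone `c` to a colimit -/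
def EF (A : 𝒜) {D : Type w} [SmallCategory D] {G : D ⥤ 𝒜} (c : Cocone G) : Prop :=
  ∀ n : ℕ,
    (∀ y : Ext.{w} A c.pt n, ∃ d, ∃ x : Ext.{w} A (G.obj d) n, post A (leg c d) n x = y) ∧
    ∀ d (x : Ext.{w} A (G.obj d) n), post A (leg c d) n x = 0 →
      ∃ e, ∃ f : d ⟶ e, post A (G.map f) n x = 0

section
variable {D : Type w} [SmallCategory D] {G : D ⥤ 𝒜} (c : Cocone G)

lemma up (A : 𝒜) {d e : D} (f : d ⟶ e) {n : ℕ} (x : Ext.{w} A (G.obj d) n) :
    post A (leg c e) n (post A (G.map f) n x) = post A (leg c d) n x := by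
  rw [post_post]
  exact congrArg (fun φ => post A φ n x) (c.w f)

omit c in
lemma up2 (A : 𝒜) {d e k : D} (f : d ⟶ e) (g : e ⟶ k) {n : ℕ} (x : Ext.{w} A (G.obj d) n) :
    post A (G.map g) n (post A (G.map f) n x) = post A (G.map (f ≫ g)) n x := by
  rw [post_post, G.map_comp]

lemma ef_X₃ [IsFiltered D] {S : ShortComplex 𝒜} (hS : S.ShortExact) (h₁ : EF S.X₁ c)
    (h₂ : EF S.X₂ c) : EF S.X₃ c := by
  intro n
  constructor
  · intro y
    obtain ⟨d, x, hx⟩ := (h₂ n).1 (pre S.g _ n y)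
    obtain ⟨e, f, hf⟩ := (h₁ n).2 d (pre S.f _ n x) (by
      rw [← pre_post, hx]; exact ((con_les hS c.pt).e₂ n).apply_apply_eq_zero y)
    obtain ⟨z, hz⟩ := ((con_les hS (G.obj e)).e₂ n (post S.X₂ (G.map f) n x)).1 (by
      rw [pre_post, hf])
    have h0 : pre S.g _ n (y - post S.X₃ (leg c e) n z) = 0 := by
      rw [map_sub, pre_post, hz, up, hx, sub_self]
    cases n with
    | zero =>
      exact ⟨e, z, (sub_eq_zero.1 ((con_les hS c.pt).inj (h0.trans (map_zero _).symm))).symm⟩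
    | succ m =>
      obtain ⟨t, ht⟩ := ((con_les hS c.pt).e₁ m _).1 h0
      obtain ⟨d', t', rfl⟩ := (h₁ m).1 t
      refine ⟨IsFiltered.max e d', post _ (G.map (IsFiltered.leftToMax e d')) _ z +
        post _ (G.map (IsFiltered.rightToMax e d')) _ (dr hS _ m t'), ?_⟩
      rw [map_add, up, up, post_dr]
      exact (add_comm _ _).trans (eq_sub_iff_add_eq.1 ht)
  · intro d x hx
    obtain ⟨e, f, hf⟩ := (h₂ n).2 d (pre S.g _ n x) (by rw [← pre_post, hx, map_zero])
    rw [← pre_post] at hf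
    cases n with
    | zero => exact ⟨e, f, (con_les hS (G.obj e)).inj (hf.trans (map_zero _).symm)⟩
    | succ m =>
      obtain ⟨t, ht⟩ := ((con_les hS (G.obj e)).e₁ m _).1 hf
      obtain ⟨s, hs⟩ := ((con_les hS c.pt).e₃ m (post _ (leg c e) m t)).1 (by
        have := post_dr (leg c e) hS t
        rw [ht, up, hx] at this
        exact this.symm)
      obtain ⟨d', s', rfl⟩ := (h₂ m).1 s
      obtain ⟨k, g, hg⟩ := (h₁ m).2 (IsFiltered.max e d')
        (post _ (G.map (IsFiltered.leftToMax e d')) _ t -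
          post _ (G.map (IsFiltered.rightToMax e d')) _ (pre S.f _ m s')) (by
          rw [map_sub, up, up, ← pre_post]
          exact sub_eq_zero.2 hs.symm)
      refine ⟨k, f ≫ IsFiltered.leftToMax e d' ≫ g, ?_⟩
      rw [map_sub, sub_eq_zero, up2, up2, ← pre_post] at hg
      rw [← up2, ← ht, post_dr, hg]
      exact ((con_les hS (G.obj k)).e₃ m).apply_apply_eq_zero _
end

attribute [local instance] IsFiltered.isConnected in
lemma directed [IsGrothendieckAbelian.{w} 𝒜] (P : 𝒜 → Prop) (A : 𝒜)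
    (hP : ∀ (D : Type w) [SmallCategory D] [IsFiltered D] (G : D ⥤ 𝒜) (c : Cocone G),
      IsColimit c → (∀ d, P (G.obj d)) → P c.pt)
    (hA : ∀ (D : Type w) [SmallCategory D] [IsFiltered D] (G : D ⥤ 𝒜) (c : Cocone G),
      IsColimit c → EF A c)
    (G : 𝒜) (D : Type w) [Preorder D] [Nonempty D] [IsDirectedOrder D] (e : D → Subobject G)
    (hm : Monotone e) (hK : ∀ d, P (e d : 𝒜)) :
    ∃ K : Subobject G, P (K : 𝒜) ∧ (∀ d, e d ≤ K) ∧
      ∀ (q : ℕ) (x : Ext.{w} A (K : 𝒜) q), ∃ d, ∃ x' : Ext.{w} A (e d : 𝒜) q,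
        x'.comp (Ext.mk₀ (e d).arrow) (add_zero q) = x.comp (Ext.mk₀ K.arrow) (add_zero q) := by
  let F : D ⥤ 𝒜 :=
    { obj := fun d => (e d : 𝒜)
      map := fun f => Subobject.ofLE _ _ (hm (leOfHom f))
      map_id := fun d => Subobject.ofLE_refl _
      map_comp := fun f g => (Subobject.ofLE_comp_ofLE _ _ _ _ _).symm }
  let α : F ⟶ (Functor.const _).obj G :=
    { app := fun d => (e d).arrow
      naturality := fun d d' f => by
        dsimp [F]
        rw [Category.comp_id]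
        exact Subobject.ofLE_arrow _ }
  have _ : ∀ d, Mono (α.app d) := fun d => inferInstanceAs (Mono (e d).arrow)
  have _ := NatTrans.mono_of_mono_app α
  let m : colimit F ⟶ G := colimit.desc F ⟨G, α⟩
  have hmι : ∀ d, colimit.ι F d ≫ m = (e d).arrow := fun d => colimit.ι_desc _ d
  have _ : Mono m := colim.map_mono' α (colimit.isColimit F) (isColimitConstCocone _ G) m
    (fun d => by simpa using hmι d)
  let c' : Cocone F := (colimit.cocone F).extend (Subobject.underlyingIso m).inv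
  have hc' : IsColimit c' := (colimit.isColimit F).extendIso _
  have hι : ∀ d, leg c' d ≫ (Subobject.mk m).arrow = (e d).arrow := fun d => by
    change (colimit.ι F d ≫ (Subobject.underlyingIso m).inv) ≫ _ = _
    rw [Category.assoc, Subobject.underlyingIso_arrow, hmι]
  refine ⟨Subobject.mk m, hP _ F c' hc' hK, fun d => Subobject.le_of_comm (leg c' d) (hι d),
    fun q x => ?_⟩
  obtain ⟨d, x', rfl⟩ := (hA _ F c' hc' q).1 x
  refine ⟨d, x', ?_⟩
  exact ((post_post (leg c' d) (Subobject.mk m).arrow x').trans (by rw [hι]; rfl)).symm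

lemma chain [IsGrothendieckAbelian.{w} 𝒜] (P : 𝒜 → Prop) (A : 𝒜)
    (hP : ∀ (D : Type w) [SmallCategory D] [IsFiltered D] (G : D ⥤ 𝒜) (c : Cocone G),
      IsColimit c → (∀ d, P (G.obj d)) → P c.pt)
    (hA : ∀ (D : Type w) [SmallCategory D] [IsFiltered D] (G : D ⥤ 𝒜) (c : Cocone G),
      IsColimit c → EF A c)
    (G : 𝒜) (c : Set (Subobject G)) (hne : c.Nonempty) (hc : IsChain (· ≤ ·) c)
    (hK : ∀ K ∈ c, P (K : 𝒜)) :
    ∃ K : Subobject G, P (K : 𝒜) ∧ (∀ K' ∈ c, K' ≤ K) ∧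
      ∀ (q : ℕ) (x : Ext.{w} A (K : 𝒜) q), ∃ K' ∈ c, ∃ x' : Ext.{w} A (K' : 𝒜) q,
        x'.comp (Ext.mk₀ K'.arrow) (add_zero q) = x.comp (Ext.mk₀ K.arrow) (add_zero q) := by
  have _ : Small.{w} c := inferInstance
  let e : Shrink.{w} c → Subobject G := fun d => ((equivShrink c).symm d).1
  have he : ∀ d, e d ∈ c := fun d => ((equivShrink c).symm d).2
  have hes : ∀ K ∈ c, ∃ d, e d = K := fun K h => ⟨equivShrink c ⟨K, h⟩, by simp [e]⟩
  let pr : Preorder (Shrink.{w} c) := Preorder.lift e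
  have hn : Nonempty (Shrink.{w} c) := by
    obtain ⟨K, h⟩ := hne
    exact ⟨equivShrink c ⟨K, h⟩⟩
  have hd : @IsDirectedOrder (Shrink.{w} c) pr.toLE := ⟨fun a b => by
    rcases hc.total (he a) (he b) with h | h
    · exact ⟨b, h, le_refl (e b)⟩
    · exact ⟨a, le_refl (e a), h⟩⟩
  obtain ⟨K, h1, h2, h3⟩ := @directed 𝒜 _ _ _ _ P A hP hA G (Shrink.{w} c) pr hn hd e
    (fun _ _ h => h) fun d => hK _ (he d)
  refine ⟨K, h1, fun K' h => ?_, fun q x => ?_⟩
  · obtain ⟨d, rfl⟩ := hes K' h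
    exact h2 d
  · obtain ⟨d, x', hx⟩ := h3 q x
    exact ⟨e d, he d, x', hx⟩

end DU

theorem du (h : NCLO_s) : DU_s := by
  intro X l
  refine ⟨fun A' A a ha h' hA D _ _ G c hc => ?_, fun A hA G c hne hc hK => ?_⟩
  · exact DU.ef_X₃ c (S := ShortComplex.mk a (cokernel.π a) (cokernel.condition a))
      { exact := ShortComplex.exact_cokernel a } (h' D G c hc) (hA D G c hc)
  · exact DU.chain (Cc l) A (h X l).2.2.1 hA G c hne hc hK

end Pool.Agent.MP_855f4c_ag.E.PB

end

section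

set_option autoImplicit false
set_option backward.isDefEq.respectTransparency false

open CategoryTheory Limits Abelian Opposite AlgebraicGeometry IsLocalRing

namespace Pool.Agent.MP_855f4c_ag.E.PB

open E3

namespace REL

universe w v u

lemma bij_iff {C : Type u} [Category.{v} C] [Abelian C] [HasExt.{w} C] {A' A : C} (a : A' ⟶ A)
    [Mono a] (F : C) : ExtBij.{w} a F ↔ ∀ (q : ℕ) (x : Ext.{w} (cokernel a) F q), x = 0 := by
  have hS : (ShortComplex.mk _ _ (cokernel.condition a)).ShortExact :=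
    { exact := ShortComplex.exact_cokernel a }
  have h := con_les.{w} hS F
  constructor
  · intro hb q x
    have h1 : pre.{w} (cokernel.π a) F q x = 0 :=
      (hb q).1 (((h.e₂ q).apply_apply_eq_zero x).trans (map_zero _).symm)
    cases q with
    | zero => exact h.inj (h1.trans (map_zero _).symm)
    | succ q =>
      obtain ⟨y, rfl⟩ := (h.e₁ q x).1 h1
      obtain ⟨z, rfl⟩ := (hb q).2 y
      exact (h.e₃ q).apply_apply_eq_zero z
  · intro h0 q
    refine ⟨(injective_iff_map_eq_zero _).2 fun x hx => ?_, fun y => (h.e₃ q y).1 (h0 _ _)⟩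
    obtain ⟨y, rfl⟩ := (h.e₂ q x).1 hx
    rw [h0 q y, map_zero]

lemma compact {A : Type} [CommRing A] {W : Scheme.{0}} {a : W ⟶ Spec (.of A)} (c : SCh A a) :
    CompactSpace W := by
  refine ⟨?_⟩
  have : (Set.univ : Set W) = Set.range c.ι₁ ∪ Set.range c.ι₂ :=
    (Set.eq_univ_of_forall c.cov).symm
  rw [this]
  exact (isCompact_range c.ι₁.continuous).union (isCompact_range c.ι₂.continuous)

end REL

theorem rel (h1 : DEVZ_s.{1, 1, 2}) (h2 : DEVI_s) (h3 : DU_s) (h4 : LZ_s) (h5 : RELZ_s)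
    (h6 : NMONO_s) (h7 : NCOL_s) : REL_s := by
  intro A _ _ l _ hl W W₀ a c j hj hs G hG
  have := hj.1
  have : Mono (top j) :=
    (Over.forget W).mono_of_mono_map (inferInstanceAs (Mono j))
  have := h6 W _ _ (top j) this
  have hW := REL.compact c
  have hs' : W₀.IsSeparated :=
    ⟨by rw [← terminal.comp_from j]; have := hs.1; infer_instance⟩
  have hfin : ExtFin (cokernel ((fr (Scheme.etaleTopology.over W)).map (top j))) :=
    (h3 W l).1 _ _ _ this
      (h7 W (Over.mk j) j.isClosedEmbedding.compactSpace hs')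
      (h7 W (Over.mk (𝟙 W)) hW hs)
  obtain ⟨D, hC, hT, hL⟩ := h2 W l ((Linv.spec hl).of_hom a) fun w => (c.cov w).elim
    (fun h => ⟨c.B₁, _, c.ι₁, c.ch.aic₁, c.o₁, h⟩) fun h => ⟨c.B₂, _, c.ι₂, c.ch.aic₂, c.o₂, h⟩
  refine (REL.bij_iff _ G).2 fun q => h1 _ W D l Fact.out _ (fun G _ s hs hc hK => ?_)
    (fun Z hZ hZ' => ?_) q G (hT G hG)
  · obtain ⟨K, hK, h⟩ := (h3 W l).2 _ hfin G s hs hc fun K h => (hC _).1 (hK K h)
    exact ⟨K, (hC _).2 hK, h⟩
  · obtain ⟨L, hL1, hL2⟩ := h4 W l Z hZ'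
    exact ⟨L, hT L hL1, (REL.bij_iff _ L).1 (h5 A l hl W W₀ a c j hj Z hZ hZ' L hL2), hL Z L hL2⟩

end Pool.Agent.MP_855f4c_ag.E.PB

end

section

set_option autoImplicit false
set_option backward.isDefEq.respectTransparency false

open CategoryTheory Limits AlgebraicGeometry Polynomial

namespace Pool.Agent.MP_855f4c_ag.E.PB

open E3

namespace COV

theorem chart {W P : Scheme.{0}} (ρ : W ⟶ P) [IsIntegralHom ρ] {R : Type} [CommRing R]
    (c : Spec (.of R) ⟶ P) [IsOpenImmersion c] (hA : Aic Γ(W, ρ ⁻¹ᵁ c.opensRange)) :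
    ∃ (B : Type) (_ : CommRing B) (φ : R →+* B) (ι : Spec (.of B) ⟶ W), Aic B ∧ φ.IsIntegral ∧
      IsOpenImmersion ι ∧ IsPullback (Spec.map (CommRingCat.ofHom φ)) ι c ρ := by
  have hV := (isAffineOpen_opensRange c).preimage ρ
  have H : Set.range (hV.fromSpec ≫ ρ) ⊆ Set.range c := by
    rintro _ ⟨x, rfl⟩
    have : hV.fromSpec x ∈ Set.range hV.fromSpec := ⟨x, rfl⟩
    rw [hV.range_fromSpec] at this
    rw [Scheme.Hom.comp_apply]
    exact this
  obtain ⟨ψ, hψ⟩ := Spec.map_surjective (IsOpenImmersion.lift _ _ H)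
  have hp : IsPullback (Spec.map ψ) hV.fromSpec c ρ :=
    IsOpenImmersion.isPullback _ _ _ _ (by rw [hψ, IsOpenImmersion.lift_fac])
      hV.opensRange_fromSpec.symm
  have : IsIntegralHom (Spec.map ψ) := MorphismProperty.of_isPullback hp.flip inferInstance
  exact ⟨Γ(W, ρ ⁻¹ᵁ c.opensRange), inferInstance, ψ.hom, hV.fromSpec, hA,
    IsIntegralHom.SpecMap_iff.1 this, inferInstanceAs (IsOpenImmersion hV.fromSpec), hp⟩

theorem away {B C : Type} [CommRing B] [CommRing C] [Algebra B C] (s : B)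
    [IsOpenImmersion (Spec.map (CommRingCat.ofHom (algebraMap B C)))]
    (h : ∀ x, x ∈ Set.range (Spec.map (CommRingCat.ofHom (algebraMap B C))) ↔ s ∉ x.asIdeal) :
    IsLocalization.Away s C := by
  let e := IsOpenImmersion.isoOfRangeEq (Spec.map (CommRingCat.ofHom (algebraMap B C)))
    (Spec.map (CommRingCat.ofHom (algebraMap B (Localization.Away s))))
    (Set.ext fun x => (h x).trans (mem_range_away s x).symm)
  obtain ⟨ψ, hψ⟩ := Spec.map_surjective e.hom
  have : IsIso (Scheme.Spec.map ψ.op) := by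
    change IsIso (Spec.map ψ)
    rw [hψ]; infer_instance
  have : IsIso ψ.op := isIso_of_reflects_iso _ Scheme.Spec
  have : IsIso ψ := isIso_of_op ψ
  have h1 : CommRingCat.ofHom (algebraMap B (Localization.Away s)) ≫ ψ =
      CommRingCat.ofHom (algebraMap B C) := Spec.map_injective (by
    rw [Spec.map_comp, hψ, IsOpenImmersion.isoOfRangeEq_hom_fac])
  exact IsLocalization.isLocalization_of_algEquiv (Submonoid.powers s)
    (AlgEquiv.ofRingEquiv (f := (asIso ψ).commRingCatIsoToRingEquiv) fun b =>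
      congr(($h1).hom b))

theorem int {A B : Type} [CommRing A] [CommRing B] [Algebra A B] (φ : A[X] →+* B)
    (h : φ.IsIntegral) (hc : ∀ a, algebraMap A B a = φ (C a)) (b : B) :
    IsIntegral (Algebra.adjoin A {φ X}) b := by
  obtain ⟨p, hp, hb⟩ := h b
  let θ : A[X] →+* Algebra.adjoin A {φ X} :=
    eval₂RingHom (algebraMap A _) ⟨φ X, Algebra.self_mem_adjoin_singleton A _⟩
  have e : (algebraMap _ B).comp θ = φ :=
    Polynomial.ringHom_ext (fun a => by simp [θ, hc]) (by simp [θ])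
  exact ⟨p.map θ, hp.map θ, by rw [eval₂_map, e, hb]⟩

theorem dense {A : Type} [CommRing A] (L : PL (Spec (.of A))) : Dense (Set.range L.c₁) := by
  intro y
  rcases L.cover y with h | ⟨x, rfl⟩
  · exact subset_closure h
  have hd : DenseRange (PrimeSpectrum.comap (algebraMap A[X] (LaurentPolynomial A))) :=
    (PrimeSpectrum.denseRange_comap_iff_ker_le_nilRadical _).2
      (((RingHom.injective_iff_ker_eq_bot _).1 (toLaurent_injective (R := A))).le.trans bot_le)
  refine map_mem_closure L.c₂.continuous (hd x) fun z hz => (L.c₂_mem_c₁ z).2 ?_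
  exact (mem_range_away (S := LaurentPolynomial A) X z).1 hz

end COV

theorem cov (h : WEX_s) : COV_s := by
  intro A _ L
  have hs : L.P.IsSeparated := ⟨by rw [← terminal.comp_from L.π]; infer_instance⟩
  obtain ⟨W, ρ, hi, hsu, hA⟩ := h L.P (L.c₁ ''ᵁ ⊤)
    (by rw [Scheme.Hom.image_top_eq_opensRange]; exact isAffineOpen_opensRange _)
    (by rw [Scheme.Hom.image_top_eq_opensRange]; exact COV.dense L)
  obtain ⟨B₁, _, φ₁, ι₁, a₁, i₁, o₁, p₁⟩ := COV.chart ρ L.c₁ (hA _ (isAffineOpen_opensRange _)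
    ⟨1, by rw [Scheme.basicOpen_one, Scheme.Hom.image_top_eq_opensRange, inf_idem]⟩)
  obtain ⟨B₂, _, φ₂, ι₂, a₂, i₂, o₂, p₂⟩ := COV.chart ρ L.c₂ (hA _ (isAffineOpen_opensRange _)
    ⟨(L.c₁.appIso ⊤).inv ((Scheme.ΓSpecIso (.of A[X])).inv X), by
      rw [← Scheme.image_basicOpen, basicOpen_eq_of_affine]
      ext y
      constructor
      · rintro ⟨x, hx, rfl⟩
        exact ⟨⟨x, trivial, rfl⟩, (L.c₁_mem_c₂ x).2 hx⟩
      · rintro ⟨⟨x, -, rfl⟩, hx⟩
        exact ⟨x, (L.c₁_mem_c₂ x).1 hx, rfl⟩⟩)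
  have m₁ : ∀ x, ι₁ x ∈ Set.range ι₂ ↔ φ₁ X ∉ x.asIdeal := fun x => by
    rw [pb_mem_range p₂, ← Scheme.Hom.comp_apply, ← p₁.w, Scheme.Hom.comp_apply, L.c₁_mem_c₂]
    rfl
  have m₂ : ∀ x, ι₂ x ∈ Set.range ι₁ ↔ φ₂ X ∉ x.asIdeal := fun x => by
    rw [pb_mem_range p₁, ← Scheme.Hom.comp_apply, ← p₂.w, Scheme.Hom.comp_apply, L.c₂_mem_c₁]
    rfl
  let D := Localization.Away (φ₁ X)
  have H : Set.range (Spec.map (CommRingCat.ofHom (algebraMap B₁ D)) ≫ ι₁) ⊆ Set.range ι₂ := by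
    rintro _ ⟨x, rfl⟩
    rw [Scheme.Hom.comp_apply, m₁]
    exact (mem_range_away (S := D) _ _).1 ⟨x, rfl⟩
  obtain ⟨ψ, hψ⟩ := Spec.map_surjective (IsOpenImmersion.lift _ _ H)
  let := ψ.hom.toAlgebra
  have w : Spec.map (CommRingCat.ofHom (algebraMap B₁ D)) ≫ ι₁ =
      Spec.map (CommRingCat.ofHom (algebraMap B₂ D)) ≫ ι₂ := by
    change _ = Spec.map ψ ≫ ι₂
    rw [hψ, IsOpenImmersion.lift_fac]
  have g : IsPullback (Spec.map (CommRingCat.ofHom (algebraMap B₁ D)))
      (Spec.map (CommRingCat.ofHom (algebraMap B₂ D))) ι₁ ι₂ :=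
    (IsOpenImmersion.isPullback _ _ _ _ w (TopologicalSpace.Opens.ext (Set.ext fun x =>
      (m₁ x).trans (mem_range_away (S := D) _ x).symm))).flip
  have : IsOpenImmersion (Spec.map (CommRingCat.ofHom (algebraMap B₂ D))) :=
    MorphismProperty.of_isPullback g o₁
  have w' := w =≫ ρ
  rw [Category.assoc, Category.assoc, ← p₁.w, ← p₂.w, ← Spec.map_comp_assoc,
    ← Spec.map_comp_assoc, ← CommRingCat.ofHom_comp, ← CommRingCat.ofHom_comp, L.map_c₁, L.map_c₂,
    L.pnt_inj, pt1_eq_pt2] at w'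
  let := (φ₁.comp C).toAlgebra
  let := (φ₂.comp C).toAlgebra
  refine ⟨W, ρ, hi, hsu, ⟨by rw [← terminal.comp_from ρ]; infer_instance⟩, ⟨{
    B₁ := B₁, B₂ := B₂, C := D, t := φ₁ X, s := φ₂ X, ι₁ := ι₁, ι₂ := ι₂, o₁ := o₁, o₂ := o₂
    glue := g
    ch := ⟨fun a => congr(($(Spec.map_injective w'.1)).hom a), inferInstance,
      COV.away _ fun x => (pb_mem_range g x).trans (m₂ x), w'.2, a₁, a₂,
      COV.int φ₁ i₁ fun _ => rfl, COV.int φ₂ i₂ fun _ => rfl⟩
    cov := fun z => (L.cover (ρ z)).imp (pb_mem_range p₁ z).2 (pb_mem_range p₂ z).2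
    a₁ := by
      rw [← p₁.w_assoc, PL.pnt_π, ← Spec.map_comp]; rfl
    a₂ := by
      rw [← p₂.w_assoc, PL.pnt_π, ← Spec.map_comp]; rfl }⟩⟩

end Pool.Agent.MP_855f4c_ag.E.PB

end

section

set_option autoImplicit false
set_option backward.isDefEq.respectTransparency false

open CategoryTheory Limits Abelian Opposite AlgebraicGeometry IsLocalRing

namespace Pool.Agent.MP_855f4c_ag.E.PB

open E3

namespace PBC0

variable {X W : Scheme.{0}} (ρ : W ⟶ X)

/-- The unit `F ⟶ ρ_* ρ^* F`. -/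
noncomputable def unit (F : Sh (Scheme.etaleTopology.over X)) :
    F ⟶ (pf (J := Scheme.etaleTopology) ρ).obj ((pb (J := Scheme.etaleTopology) ρ).obj F) :=
  ⟨{ app T := F.obj.map ((Over.mapPullbackAdj ρ).counit.app T.unop).op
     naturality T T' g := by
      change F.obj.map _ ≫ F.obj.map _ = F.obj.map _ ≫ F.obj.map _
      rw [← F.obj.map_comp, ← F.obj.map_comp]
      exact congrArg (fun a => F.obj.map (Quiver.Hom.op a))
        ((Over.mapPullbackAdj ρ).counit.naturality g.unop).symm }⟩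

lemma shl_field (k : Type) [Field k] [IsAlgClosed k] : SHL k :=
  SHL.of_point k fun _ _ _ _ φ => ⟨φ, fun _ => rfl⟩

lemma unit_inj [Surjective ρ] {l : ℕ} (hl : Linv l X) {F : Sh (Scheme.etaleTopology.over X)} (hF : Cc l F)
    (k : Type) [Field k] [IsAlgClosed k] (b : Spec (.of k) ⟶ X) :
    Function.Injective ((unit ρ F).hom.app (op (Over.mk b))) := by
  obtain ⟨z, -⟩ := (pullback.fst b ρ).surjective (closedPoint k)
  let k' := AlgebraicClosure ((pullback b ρ).residueField z)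
  let y : Spec (.of k') ⟶ pullback b ρ :=
    Spec.map (CommRingCat.ofHom (algebraMap ((pullback b ρ).residueField z) k')) ≫
      (pullback b ρ).fromSpecResidueField z
  obtain ⟨φ, hφ⟩ := Spec.map_surjective (y ≫ pullback.fst b ρ)
  have := shl_field k
  have h := (hF.2 k k' φ.hom b (Spec.map φ ≫ b) rfl (hl.isUnit b)).1
  let g : Over.mk (Spec.map φ ≫ b) ⟶ (Over.map ρ).obj ((Over.pullback ρ).obj (Over.mk b)) :=
    Over.homMk y (by
      change y ≫ pullback.snd b ρ ≫ ρ = Spec.map φ ≫ b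
      rw [hφ, ← pullback.condition, Category.assoc y])
  have e : sph φ.hom (rfl : Spec.map (CommRingCat.ofHom φ.hom) ≫ b = Spec.map φ ≫ b) =
      g ≫ (Over.mapPullbackAdj ρ).counit.app (Over.mk b) := by
    ext
    simp [g, sph, hφ]
  intro s t hst
  apply h
  rw [e, op_comp, F.obj.map_comp, ConcreteCategory.comp_apply, ConcreteCategory.comp_apply]
  exact congrArg _ hst

lemma unit_mono [Surjective ρ] (h4 : NPT_s) (h5 : NCLO_s) {l : ℕ} (hl : Linv l X)
    {F : Sh (Scheme.etaleTopology.over X)} (hF : Cc l F) (hG : Cc l ((pf (J := Scheme.etaleTopology) ρ).obj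
      ((pb (J := Scheme.etaleTopology) ρ).obj F))) : Mono (unit ρ F) := by
  refine Preadditive.mono_of_isZero_kernel _ (h4 X l hl _ ((h5 X l).1 _ _ _ hF hG).1 ?_)
  intro k _ _ b s
  have hm : Mono ((sheafToPresheaf _ _).map (kernel.ι (unit ρ F))) := inferInstance
  have hi : Function.Injective ((kernel.ι (unit ρ F)).hom.app (op (Over.mk b))) :=
    (AddCommGrpCat.mono_iff_injective _).1
      (inferInstanceAs (Mono (((sheafToPresheaf _ _).map (kernel.ι (unit ρ F))).app _)))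
  apply hi
  apply unit_inj ρ hl hF k b
  rw [map_zero, map_zero]
  exact congrArg (fun a => a.hom.app (op (Over.mk b)) s) (kernel.condition (unit ρ F))

lemma hb_pull {P₀ : Scheme.{0}} (j : P₀ ⟶ X) (G : Sh (Scheme.etaleTopology.over W))
    (h : HB (top (pullback.snd j ρ)) G) : HB ((Over.pullback ρ).map (top j)) G := by
  intro q
  let e : (Over.pullback ρ).obj (Over.mk (𝟙 X)) ⟶ Over.mk (𝟙 W) := top (pullback.snd (𝟙 X) ρ)
  have : IsIso e.left := inferInstanceAs (IsIso (pullback.snd (𝟙 X) ρ))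
  have : IsIso ((Over.forget W).map e) := this
  have : IsIso e := isIso_of_reflects_iso e (Over.forget W)
  have he : top (pullback.snd j ρ) = (Over.pullback ρ).map (top j) ≫ e :=
    Over.OverMorphism.ext (pullback.lift_snd _ _ _).symm
  have h1 := h q
  rw [he, Functor.map_comp] at h1
  refine (Function.Bijective.of_comp_iff _ (pre_bij ((fr (Scheme.etaleTopology.over W)).map e) G q)).1 ?_
  rwa [show pre ((fr (Scheme.etaleTopology.over W)).map ((Over.pullback ρ).map (top j))) G q ∘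
      pre ((fr (Scheme.etaleTopology.over W)).map e) G q = _ from funext fun x => pre_pre _ _ x]

end PBC0

open PBC0 in
theorem pbc0 (h1 : COV_s) (h2 : REL_s) (h3 : NINT_s) (h4 : NPT_s) (h5 : NCLO_s) : PBC0_s := by
  intro A _ _ l _ hl L P₀ j hj F hF
  obtain ⟨W, ρ, _, _, hsep, ⟨ch⟩⟩ := h1 A L
  have hL : Linv l L.P := (Linv.spec hl).of_hom L.π
  refine emb _ (Tc l) (fun F hF => ?_) F hF
  have hG := (h5 L.P l).2.2.2.2 W ρ F hF
  obtain ⟨hT, hB⟩ := h3 L.P W ρ l _ hG
  have := unit_mono ρ h4 h5 hL hF.1 hT.1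
  refine ⟨ShortComplex.mk _ _ (cokernel.condition (unit ρ F)),
    { exact := ShortComplex.exact_cokernel _ }, ⟨Iso.refl _⟩, hB _ _ _ (hb_pull ρ j _ ?_),
    (h5 L.P l).2.1 _ _ _ hF hT⟩
  have := hj.1
  refine h2 A l hl W _ _ ch _ ⟨inferInstance, fun z => ?_⟩ hsep _ hG
  rw [Scheme.Pullback.range_snd, Set.mem_preimage, hj.2, Scheme.Hom.comp_apply]

end Pool.Agent.MP_855f4c_ag.E.PB

end

section

set_option autoImplicit false
set_option backward.isDefEq.respectTransparency false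

open CategoryTheory Limits Abelian Opposite AlgebraicGeometry IsLocalRing

namespace Pool.Agent.MP_855f4c_ag.E.PB

open E3

namespace PBC1

variable {X Y : Scheme.{0}}

lemma hb_comp {T'' T' T : Over X} {g' : T'' ⟶ T'} {g : T' ⟶ T} {F : Sh (Scheme.etaleTopology.over X)} (h' : HB g' F)
    (h : HB g F) : HB (g' ≫ g) F := fun q => by
  have e : ⇑(pre.{1} ((fr (Scheme.etaleTopology.over X)).map (g' ≫ g)) F q) =
      pre.{1} ((fr (Scheme.etaleTopology.over X)).map g') F q ∘ pre.{1} ((fr (Scheme.etaleTopology.over X)).map g) F q :=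
    funext fun x => by rw [Function.comp_apply, pre_pre, Functor.map_comp]
  rw [e]
  exact (h' q).comp (h q)

lemma hb_iso {T' T : Over X} (g : T' ⟶ T) [IsIso g] (F : Sh (Scheme.etaleTopology.over X)) : HB g F :=
  fun q => pre_bij _ F q

lemma hb_of_top {T' T : Over X} (g : T' ⟶ T) {F : Sh (Scheme.etaleTopology.over X)}
    (h : HB ((Over.map T.hom).map (top g.left)) F) : HB g F := by
  let e' : T' ≅ (Over.map T.hom).obj (Over.mk g.left) :=
    Over.isoMk (Iso.refl _) ((Category.id_comp _).trans (Over.w g))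
  let e : (Over.map T.hom).obj (Over.mk (𝟙 T.left)) ≅ T := Over.isoMk (Iso.refl _) rfl
  have : g = e'.hom ≫ (Over.map T.hom).map (top g.left) ≫ e.hom :=
    Over.OverMorphism.ext (by
      change g.left = 𝟙 _ ≫ g.left ≫ 𝟙 _
      rw [Category.id_comp, Category.comp_id])
  rw [this]
  exact hb_comp (hb_iso _ F) (hb_comp h (hb_iso _ F))

lemma sq (π : X ⟶ Y) {T' T : Over Y} (g : T' ⟶ T) :
    IsPullback ((Over.pullback π).map g).left (pullback.fst T'.hom π) (pullback.fst T.hom π)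
      g.left := by
  refine IsPullback.of_right ?_ (pullback.lift_fst _ _ _) (IsPullback.of_hasPullback T.hom π).flip
  have e : ((Over.pullback π).map g).left ≫ pullback.snd T.hom π = pullback.snd T'.hom π :=
    pullback.lift_snd _ _ _
  rw [e, Over.w g]
  exact (IsPullback.of_hasPullback T'.hom π).flip

lemma uniq_bc {P' P S' S Z : Scheme.{0}} {m : P' ⟶ P} {p' : P' ⟶ S'} {p : P ⟶ S} {g : S' ⟶ S}
    (H : IsPullback m p' p g) (h : ∀ y : Z ⟶ S, ∃! y' : Z ⟶ S', y' ≫ g = y) (y : Z ⟶ P) :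
    ∃! y' : Z ⟶ P', y' ≫ m = y := by
  obtain ⟨z, hz, hu⟩ := h (y ≫ p)
  refine ⟨H.lift y z hz.symm, H.lift_fst _ _ _, fun w hw => H.hom_ext ?_ ?_⟩
  · exact hw.trans (H.lift_fst _ _ _).symm
  · have hw' : w ≫ m = y := hw
    have : (w ≫ p') ≫ g = y ≫ p := by rw [Category.assoc, ← H.w, ← Category.assoc, hw']
    exact (hu _ this).trans (H.lift_snd _ _ _).symm

lemma uniq_field {k₀ k : Type} [Field k₀] [IsSepClosed k₀] [Field k] (ψ : k₀ →+* k)
    (hψ : ψ.IsIntegral) (K : Type) [Field K] [IsAlgClosed K] (y : Spec (.of K) ⟶ Spec (.of k₀)) :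
    ∃! y' : Spec (.of K) ⟶ Spec (.of k), y' ≫ Spec.map (CommRingCat.ofHom ψ) = y := by
  let := ψ.toAlgebra
  have : Algebra.IsIntegral k₀ k := ⟨hψ⟩
  obtain ⟨y, rfl⟩ := Spec.map_surjective y
  obtain ⟨z, hz, hu⟩ := (IsPurelyInseparable.bijective_comp_algebraMap k₀ k K).existsUnique y.hom
  refine ⟨Spec.map (CommRingCat.ofHom z), ?_, fun w hw => ?_⟩
  · exact (Spec.map_comp _ _).symm.trans (congrArg Spec.map (CommRingCat.hom_ext hz))
  · obtain ⟨w, rfl⟩ := Spec.map_surjective w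
    exact congrArg Spec.map (CommRingCat.hom_ext (hu w.hom
      (congrArg CommRingCat.Hom.hom (Spec.map_injective ((Spec.map_comp _ _).trans hw)))))

lemma fib_bc {A : Type} [CommRing A] [IsLocalRing A] {P₀ P : Scheme.{0}} {j : P₀ ⟶ P}
    {p₀ : P₀ ⟶ Spec (.of (ResidueField A))} {p : P ⟶ Spec (.of A)}
    (H : IsPullback j p₀ p (Spec.map (CommRingCat.ofHom (residue A)))) : Fib p j := by
  have hc : IsClosedImmersion (Spec.map (CommRingCat.ofHom (residue A))) :=
    IsClosedImmersion.spec_of_surjective _ residue_surjective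
  refine ⟨MorphismProperty.of_isPullback H.flip hc, fun z => ?_⟩
  have hk : ∀ x : Spec (.of (ResidueField A)),
      (Spec.map (CommRingCat.ofHom (residue A)) x).asIdeal = maximalIdeal A := fun x => by
    change Ideal.comap (residue A) x.asIdeal = _
    rw [Ideal.eq_bot_of_prime x.asIdeal]
    exact ker_residue
  constructor
  · rintro ⟨x, rfl⟩
    rw [← Scheme.Hom.comp_apply, H.w, Scheme.Hom.comp_apply]
    exact hk _
  · intro hz
    obtain ⟨w, hw, -⟩ := Scheme.exists_preimage_of_isPullback H z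
      (⟨⊥, Ideal.isPrime_bot⟩ : PrimeSpectrum (ResidueField A))
      (PrimeSpectrum.ext (hz.trans (hk _).symm))
    exact ⟨w, hw⟩

end PBC1

open PBC1 in
theorem pbc1 (h1 : PBC0_s) (h2 : NSL_s) (h3 : NUH_s) (h4 : NCLO_s) : PBC1_s := by
  intro Y L l _ F hF A k _ _ _ _ φ _ a b h hl hφ
  have := SHL.isSepClosed (A := A)
  let ψ : ResidueField A →+* k := ResidueField.lift φ
  have hc : ψ.comp (residue A) = φ := ResidueField.lift_comp_residue φ
  have hψ : ψ.IsIntegral := RingHom.IsIntegral.tower_top (residue A) ψ (by rwa [hc])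
  let a₀ : Spec (.of (ResidueField A)) ⟶ Y := Spec.map (CommRingCat.ofHom (residue A)) ≫ a
  have e : Spec.map (CommRingCat.ofHom ψ) ≫ Spec.map (CommRingCat.ofHom (residue A)) =
      Spec.map (CommRingCat.ofHom φ) := by
    rw [← Spec.map_comp, ← CommRingCat.ofHom_comp, hc]
  have h0 : Spec.map (CommRingCat.ofHom ψ) ≫ a₀ = b := by rw [← Category.assoc, e, h]
  have e' : sph φ h = sph ψ h0 ≫ sph (residue A) (rfl : _ = a₀) := Over.OverMorphism.ext e.symm
  rw [e', Functor.map_comp]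
  refine hb_comp (h3 _ l _ _ _ ?_ ?_ (fun K _ _ => ?_) F hF) (hb_of_top _ ((h2 _ _ _ _ _ _ F).1 ?_))
  · exact MorphismProperty.of_isPullback (sq L.π (sph ψ h0)).flip
      (IsIntegralHom.SpecMap_iff.2 hψ)
  · exact (Linv.spec hl).of_hom
      (pullback.fst a₀ L.π ≫ Spec.map (CommRingCat.ofHom (residue A)))
  · exact uniq_bc (sq L.π (sph ψ h0)) (uniq_field ψ hψ K)
  · exact h1 A l hl (L.bc (Over.mk a)) _ _ (fib_bc (sq L.π (sph (residue A) (rfl : _ = a₀)))) _
      ((h4 _ l).2.2.2.2 _ _ F hF)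

end Pool.Agent.MP_855f4c_ag.E.PB

end

section

set_option autoImplicit false
set_option backward.isDefEq.respectTransparency false

open CategoryTheory Limits Abelian Opposite AlgebraicGeometry IsLocalRing

namespace Pool.Agent.MP_855f4c_ag.E.PB

open E3

/-- Sheafification does not change sections over strictly henselian rings. -/
def NSTK_s : Prop :=
  ∀ (X : Scheme.{0}) (P : PSh X) (A : Type) [CommRing A] [SHL A] (a : Spec (.of A) ⟶ X),
    Function.Bijective ((toSheafify (Scheme.etaleTopology.over X) P).app (op (Over.mk a)))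

/-- Rigidity can be tested on algebraic closures of residue fields. -/
def NRIG_s : Prop :=
  ∀ (X : Scheme.{0}) (l : ℕ) (P : PSh X), LFP P →
    (∀ (A k : Type) [CommRing A] [SHL A] [Field k] [IsAlgClosed k] (φ : A →+* k) [IsLocalHom φ]
      (a : Spec (.of A) ⟶ X) (b : Spec (.of k) ⟶ X)
      (h : Spec.map (CommRingCat.ofHom φ) ≫ a = b), IsUnit (l : A) → φ.IsIntegral →
      Function.Bijective (P.map (sph φ h).op)) → Rig l P

/-- Higher direct images keep `LFP` and `Tor`. -/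
def NRQ_s : Prop :=
  ∀ (X Y : Scheme.{0}) (f : X ⟶ Y) [QuasiCompact f] [IsSeparated f] (F : Sh (Scheme.etaleTopology.over X)) (q : ℕ),
    (LFP F.obj → LFP ((Rq f q).obj F).obj) ∧
    ∀ l : ℕ, Tor l F.obj → Tor l ((Rq f q).obj F).obj

end Pool.Agent.MP_855f4c_ag.E.PB

end

section

set_option autoImplicit false
set_option backward.isDefEq.respectTransparency false

open CategoryTheory Limits Abelian Opposite AlgebraicGeometry IsLocalRing

namespace Pool.Agent.MP_855f4c_ag.E.PB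

open E3

theorem pbc (h1 : PBC1_s) (h2 : NSTK_s) (h3 : NRIG_s) (h4 : NRQ_s) : PBC_s := by
  intro l _ S L F q hF
  have : IsProper L.π := MorphismProperty.of_isPullback (P := @IsProper) L.sq P1D.prop
  have h5 := h4 _ _ L.π F q
  refine ⟨⟨h5.1 hF.1.1, h3 S l _ (h5.1 hF.1.1) fun A k _ _ _ _ φ _ a b h hl hφ => ?_⟩, h5.2 l hF.2⟩
  have : SHL k := Aic.shl fun p _ hd => IsAlgClosed.exists_root p fun h =>
    hd (Polynomial.natDegree_eq_zero_iff_degree_le_zero.2 h.le)
  let P : PSh S := (Over.pullback L.π).op ⋙ (HPF q).obj F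
  have e : ((Rq L.π q).obj F).obj.map (sph φ h).op ∘ (toSheafify (Scheme.etaleTopology.over S) P).app (op (Over.mk a)) =
      (toSheafify (Scheme.etaleTopology.over S) P).app (op (Over.mk b)) ∘ P.map (sph φ h).op :=
    funext fun s => (nat (toSheafify (Scheme.etaleTopology.over S) P) (sph φ h) s).symm
  rw [← Function.Bijective.of_comp_iff _ (h2 S P A a), e]
  exact (h2 S P k b).comp (h1 S L l F hF A k φ a b h hl hφ q)

end Pool.Agent.MP_855f4c_ag.E.PB

end
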