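import Pool.Agent.MP_855f4c_ag.EC.E65a
import Pool.Agent.MP_855f4c_ag.EC.E3a
import Pool.Agent.MP_855f4c_ag.LP.Lisse
import Pool.Agent.MP_855f4c_ag.LP.Transfer

section

/-! Section Z, pure algebra: unramified Galois representations give lisse systems. -/

set_option autoImplicit false

namespace Pool.Agent.MP_855f4c_ag.EZ

open Polynomial TensorProduct

/-- A finite group action without inertia is a finite unramified extension of the invariants. -/
theorem chr {Γ B C : Type} [Group Γ] [Finite Γ] [CommRing B] [CommRing C] [Algebra B C]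
    [MulSemiringAction Γ C] [SMulCommClass Γ B C]
    (hinv : ∀ c : C, (∀ σ : Γ, σ • c = c) → ∃ r, algebraMap B C r = c)
    (hI : ∀ σ : Γ, σ ≠ 1 → Ideal.span (Set.range fun c : C => c - σ • c) = ⊤) :
    Module.Finite B C ∧ Algebra.FormallyUnramified B C := by
  classical
  let _ := Fintype.ofFinite Γ
  let μ : Γ → (C ⊗[B] C →ₐ[B] C) := fun τ =>
    Algebra.TensorProduct.productMap (AlgHom.id B C) (MulSemiringAction.toAlgHom B C τ)
  have hμ : ∀ τ a b, μ τ (a ⊗ₜ b) = a * τ • b := fun τ a b => by simp [μ]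
  have h1 : ∀ σ : Γ, σ ≠ 1 → ∃ w, μ 1 w = 1 ∧ μ σ w = 0 := fun σ hσ => by
    have h : (1 : C) ∈ Ideal.span (Set.range fun c : C => c - σ • c) := by
      rw [hI σ hσ]; trivial
    suffices ∀ x ∈ Ideal.span (Set.range fun c : C => c - σ • c), ∃ w, μ 1 w = x ∧ μ σ w = 0 from
      this 1 h
    intro x hx
    induction hx using Submodule.span_induction with
    | mem x hx =>
      obtain ⟨c, rfl⟩ := hx
      exact ⟨1 ⊗ₜ c - (σ • c) ⊗ₜ 1, by simp [hμ], by simp [hμ]⟩
    | zero => exact ⟨0, by simp, by simp⟩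
    | add x y _ _ hx hy =>
      obtain ⟨u, u1, u2⟩ := hx
      obtain ⟨v, v1, v2⟩ := hy
      exact ⟨u + v, by rw [map_add, u1, v1], by rw [map_add, u2, v2, add_zero]⟩
    | smul a x _ hx =>
      obtain ⟨u, u1, u2⟩ := hx
      exact ⟨(a ⊗ₜ 1) * u, by rw [map_mul, u1, hμ]; simp, by rw [map_mul, u2, mul_zero]⟩
  choose! w w1 w2 using h1
  let e : C ⊗[B] C := ∏ σ ∈ Finset.univ.erase 1, w σ
  have e1 : μ 1 e = 1 := by
    rw [map_prod]
    exact Finset.prod_eq_one fun σ hσ => w1 σ (Finset.ne_of_mem_erase hσ)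
  have e2 : ∀ τ, τ ≠ 1 → μ τ e = 0 := fun τ hτ => by
    rw [map_prod]
    exact Finset.prod_eq_zero (Finset.mem_erase.2 ⟨hτ, Finset.mem_univ _⟩) (w2 τ hτ)
  have htr : ∀ c : C, ∃ r, algebraMap B C r = ∑ τ : Γ, τ • c := fun c => hinv _ fun σ => by
    rw [Finset.smul_sum]
    exact Fintype.sum_equiv (Equiv.mulLeft σ) _ _ fun τ => (mul_smul σ τ c).symm
  obtain ⟨s, hs⟩ := TensorProduct.exists_finset e
  have key : ∀ c : C, ∑ i ∈ s, i.1 * ∑ τ : Γ, τ • (i.2 * c) = c := fun c => by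
    have : ∀ τ : Γ, ∑ i ∈ s, i.1 * τ • (i.2 * c) = μ τ e * τ • c := fun τ => by
      rw [hs, map_sum, Finset.sum_mul]
      exact Finset.sum_congr rfl fun i _ => by rw [hμ, smul_mul', mul_assoc]
    simp only [Finset.mul_sum]
    rw [Finset.sum_comm, Finset.sum_congr rfl fun τ _ => this τ,
      Finset.sum_eq_single 1 (fun τ _ hτ => by rw [e2 τ hτ, zero_mul]) (by simp), e1]
    simp
  have hfin : Module.Finite B C := by
    refine ⟨⟨s.image Prod.fst, eq_top_iff.2 fun c _ => ?_⟩⟩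
    rw [← key c]
    refine Submodule.sum_mem _ fun i hi => ?_
    obtain ⟨r, hr⟩ := htr (i.2 * c)
    rw [← hr, mul_comm, ← Algebra.smul_def]
    exact Submodule.smul_mem _ _ (Submodule.subset_span (by
      rw [Finset.coe_image]; exact ⟨i, hi, rfl⟩))
  refine ⟨hfin, (Algebra.FormallyUnramified.iff_exists_tensorProduct (R := B) (S := C)).2
    ⟨e, fun c => ?_, ?_⟩⟩
  · have hz : ∀ u : C ⊗[B] C, u = ∑ i ∈ s, ∑ τ : Γ, (μ τ u * τ • i.2) ⊗ₜ[B] i.1 := fun u => by
      induction u using TensorProduct.induction_on with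
      | zero => simp
      | add x y hx hy =>
        simp only [map_add, add_mul, add_tmul, Finset.sum_add_distrib]
        rw [← hx, ← hy]
      | tmul a b =>
        conv_lhs => rw [← key b, tmul_sum]
        refine Finset.sum_congr rfl fun i _ => ?_
        obtain ⟨r, hr⟩ := htr (i.2 * b)
        rw [← hr, mul_comm, ← Algebra.smul_def, ← smul_tmul, Algebra.smul_def, hr, ← sum_tmul,
          Finset.sum_mul]
        congr 1
        exact Finset.sum_congr rfl fun τ _ => by rw [hμ, smul_mul']; ring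
    rw [hz (_ * e)]
    refine Finset.sum_eq_zero fun i _ => Finset.sum_eq_zero fun τ _ => ?_
    by_cases hτ : τ = 1
    · subst hτ
      simp [hμ]
    · rw [map_mul, e2 τ hτ]
      simp
  · have : Algebra.TensorProduct.lmul' B (S := C) = μ 1 := by
      ext <;> simp [hμ]
    rw [this, e1]

end Pool.Agent.MP_855f4c_ag.EZ

end

section

/-! Section Z: an open normal subgroup without inertia comes from a finite etale cover. -/

set_option autoImplicit false

namespace Pool.Agent.MP_855f4c_ag.EZ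

open Polynomial CategoryTheory CommAlgCat LP

/-- An element that fixes the invariants of `H` moves `z` inside its `H`-orbit. -/
theorem zb_orbit {G P : Type} [Group G] [CommRing P] [IsDomain P] [MulSemiringAction G P]
    (H : Subgroup G) (z : P) (hz : (MulAction.orbit H z).Finite) (g : G)
    (hg : ∀ c : P, (∀ h : H, h • c = c) → g • c = c) : ∃ h : H, g • z = h • z := by
  classical
  let q : P[X] := ∏ y ∈ hz.toFinset, (X - C y)
  have h1 : ∀ h : H, q.map (MulSemiringAction.toRingHom H P h) = q := fun h => by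
    rw [Polynomial.map_prod]
    refine Finset.prod_equiv (MulAction.toPerm h) (fun y => ?_) fun y _ => by simp
    simp only [Set.Finite.mem_toFinset, MulAction.toPerm_apply]
    exact ⟨fun hy => MulAction.mem_orbit_of_mem_orbit h hy, fun hy => by
      simpa using MulAction.mem_orbit_of_mem_orbit h⁻¹ hy⟩
  have h2 : q.map (MulSemiringAction.toRingHom G P g) = q := Polynomial.ext fun n => by
    rw [coeff_map]
    exact hg _ fun h => (coeff_map _ n).symm.trans (congrArg (coeff · n) (h1 h))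
  have h3 : q.eval z = 0 := by
    rw [eval_prod]
    exact Finset.prod_eq_zero (hz.mem_toFinset.2 (MulAction.mem_orbit_self z)) (by simp)
  have h4 : q.eval (g • z) = 0 := by
    have := eval₂_hom (p := q) (MulSemiringAction.toRingHom G P g) z
    rw [← Polynomial.eval_map, h2, h3, map_zero] at this
    exact this
  rw [eval_prod, Finset.prod_eq_zero_iff] at h4
  obtain ⟨y, hy, e⟩ := h4
  obtain ⟨h, rfl⟩ := hz.mem_toFinset.1 hy
  exact ⟨h, by simpa [sub_eq_zero] using e⟩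

section

variable {B P Ω : Type} [CommRing B] [CommRing P] [Field Ω] [Algebra B Ω] [Algebra B P]
  [Algebra P Ω] [IsScalarTower B P Ω] [IsIntegralClosure P B Ω] [IsDomain B]
  [IsIntegrallyClosed B] [IsAlgClosed Ω] [FaithfulSMul B Ω] [Algebra.IsAlgebraic B Ω]

/-- In characteristic zero the invariants of the integral closure are the base. -/
theorem zb_inv [CharZero Ω] (z : P)
    (hz : ∀ g : Ω ≃ₐ[B] Ω, g (algebraMap P Ω z) = algebraMap P Ω z) : ∃ r, algebraMap B P r = z := by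
  let := FractionRing.liftAlgebra B Ω
  have := FractionRing.isScalarTower_liftAlgebra B Ω
  have : Algebra.IsAlgebraic (FractionRing B) Ω := (IsFractionRing.comap_isAlgebraic_iff (A := B)).1 ‹_›
  have : CharZero (FractionRing B) := RingHom.charZero (algebraMap (FractionRing B) Ω)
  have : IsAlgClosure (FractionRing B) Ω := ⟨‹_›, ‹_›⟩
  obtain ⟨x, hx⟩ := (InfiniteGalois.mem_range_algebraMap_iff_fixed (k := FractionRing B)
    (algebraMap P Ω z)).2 fun σ => hz (σ.restrictScalars B)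
  have hi : IsIntegral B x := by
    rw [← isIntegral_algebraMap_iff (algebraMap (FractionRing B) Ω).injective, hx]
    exact IsIntegralClosure.isIntegral_iff.2 ⟨z, rfl⟩
  obtain ⟨r, rfl⟩ := IsIntegrallyClosed.algebraMap_eq_of_integral hi
  refine ⟨r, IsIntegralClosure.algebraMap_injective P B Ω ?_⟩
  rw [← hx, ← IsScalarTower.algebraMap_apply, ← IsScalarTower.algebraMap_apply]

/-- ROW Z1. An open normal subgroup that contains all inertia groups contains the group of a
finite etale cover. -/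
theorem cover [CharZero Ω] (H : Subgroup (Ω ≃ₐ[B] Ω)) [H.Normal]
    (ho : ∃ E : Finset Ω, ∀ g : Ω ≃ₐ[B] Ω, (∀ e ∈ E, g e = e) → g ∈ H)
    (hI : ∀ a : Ideal P, a.IsMaximal → ∀ g : Ω ≃ₐ[B] Ω,
      (∀ z w : P, algebraMap P Ω w = g (algebraMap P Ω z) → w - z ∈ a) → g ∈ H) :
    ∃ C : Subalgebra B P, Module.Finite B C ∧ Algebra.Etale B C ∧
      ∀ g : Ω ≃ₐ[B] Ω, (∀ z ∈ C, g (algebraMap P Ω z) = algebraMap P Ω z) → g ∈ H := by
  classical
  have inj := IsIntegralClosure.algebraMap_injective P B Ω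
  have := IsIntegralClosure.isIntegral_algebra B Ω (A := P)
  have : IsDomain P := inj.isDomain _
  let _ := E65.icAct B P Ω
  have hs : ∀ (g : Ω ≃ₐ[B] Ω) (z : P), algebraMap P Ω (g • z) = g (algebraMap P Ω z) :=
    fun g z => IsIntegralClosure.algebraMap_mk' _ _ _
  have : SMulCommClass (Ω ≃ₐ[B] Ω) B P := ⟨fun g r z => inj (by
    simp only [Algebra.smul_def, map_mul, hs, ← IsScalarTower.algebraMap_apply, AlgEquiv.commutes])⟩
  have horb : ∀ z : P, (MulAction.orbit (Ω ≃ₐ[B] Ω) z).Finite := fun z => by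
    obtain ⟨f, hf, h0⟩ := Algebra.IsIntegral.isIntegral (R := B) z
    refine (f.rootSet_finite P).subset ?_
    rintro _ ⟨g, rfl⟩
    refine (hf.mem_rootSet).2 (inj ?_)
    have h1 : aeval z f = 0 := h0
    rw [← aeval_algebraMap_apply, hs, aeval_algHom_apply, aeval_algebraMap_apply, h1]
    simp
  obtain ⟨z₀, hz₀⟩ := E65.ram_sep (algebraMap P Ω) H ho fun g hg => by
    obtain ⟨a, ha⟩ := Ideal.exists_maximal P
    exact hI a ha g fun z w h => by rw [inj (hg z w h), sub_self]; exact a.zero_mem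
  have hst : MulAction.stabilizer (Ω ≃ₐ[B] Ω) z₀ ≤ H := fun g hg =>
    (hz₀ g z₀ ((congrArg _ (hg : g • z₀ = z₀).symm).trans (hs g z₀)) rfl).2
  have : (MulAction.stabilizer (Ω ≃ₐ[B] Ω) z₀).FiniteIndex := ⟨by
    rw [MulAction.index_stabilizer]
    exact ((Set.ncard_pos (horb z₀)).2 ⟨z₀, MulAction.mem_orbit_self _⟩).ne'⟩
  have : H.FiniteIndex := Subgroup.finiteIndex_of_le hst
  let C := FixedPoints.subalgebra B P H
  have hC : ∀ z : P, z ∈ C ↔ ∀ g ∈ (H : Set (Ω ≃ₐ[B] Ω)),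
      g (algebraMap P Ω z) = algebraMap P Ω z := fun z =>
    ⟨fun h g hg => (hs g z).symm.trans (congrArg _ (h ⟨g, hg⟩)),
      fun h g => inj ((hs g z).trans (h g g.2))⟩
  have hfix : ∀ g : Ω ≃ₐ[B] Ω, (∀ z ∈ C, g (algebraMap P Ω z) = algebraMap P Ω z) → g ∈ H :=
    fun g hg => by
      obtain ⟨h, e⟩ := zb_orbit H z₀ ((horb z₀).subset (MulAction.orbit_subgroup_subset _ _)) g
        fun c hc => inj ((hs g c).trans (hg c hc))
      have h1 : (h : Ω ≃ₐ[B] Ω)⁻¹ * g ∈ H := hst (by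
        rw [MulAction.mem_stabilizer_iff, mul_smul, e]; exact inv_smul_smul _ _)
      simpa using H.mul_mem h.2 h1
  have := E65.fix_normal _ C hC
  have : IsScalarTower B C Ω := .of_algebraMap_eq fun r => IsScalarTower.algebraMap_apply B P Ω r
  have : FaithfulSMul C Ω :=
    (faithfulSMul_iff_algebraMap_injective _ _).2 (inj.comp Subtype.val_injective)
  have hBC : Function.Injective (algebraMap B C) := by
    have := FaithfulSMul.algebraMap_injective B Ω
    rw [IsScalarTower.algebraMap_eq B C Ω, RingHom.coe_comp] at this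
    exact this.of_comp
  have : Algebra.IsAlgebraic C Ω := Algebra.IsAlgebraic.extendScalars (R := B) hBC
  have : Algebra.IsIntegral B C := ⟨fun x => (isIntegral_algHom_iff C.val
    Subtype.val_injective).1 (Algebra.IsIntegral.isIntegral _)⟩
  have : IsIntegralClosure P C Ω := IsIntegralClosure.tower_top (R := B)
  have : Algebra.IsIntegral C P := IsIntegralClosure.isIntegral_algebra C Ω
  obtain ⟨h1, h2⟩ := chr (Γ := (Ω ≃ₐ[B] Ω) ⧸ H) (B := B) (C := C) (fun c hc => by
    obtain ⟨r, hr⟩ := zb_inv (B := B) (Ω := Ω) (c : P) fun g =>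
      (hs g c).symm.trans (congrArg (fun c : C => algebraMap P Ω c) (hc (g : _ ⧸ H)))
    exact ⟨r, Subtype.ext hr⟩) fun σ hσ => by
      obtain ⟨g, rfl⟩ := QuotientGroup.mk_surjective σ
      by_contra hne
      obtain ⟨m, hm, hle⟩ := Ideal.exists_le_maximal _ hne
      obtain ⟨a, ha, rfl⟩ := Ideal.exists_ideal_over_maximal_of_isIntegral (S := P) m (by
        rw [(RingHom.injective_iff_ker_eq_bot _).1 Subtype.val_injective]; exact bot_le)
      obtain ⟨h, hh⟩ := E65.trans (B := C) (Ω := Ω)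
        ((Ideal.Quotient.mk a).comp (MulSemiringAction.toRingHom (Ω ≃ₐ[B] Ω) P g))
        (Ideal.Quotient.mk a) fun r => by
          have := hle (Ideal.subset_span ⟨r, rfl⟩)
          exact ((Ideal.Quotient.eq (I := a)).2 this).symm
      have h2 : h.restrictScalars B ∈ H := hfix _ fun z hz => h.commutes ⟨z, hz⟩
      have h3 : g * h.restrictScalars B ∈ H := hI a ha _ fun z w hw => by
        obtain rfl : w = g • h.restrictScalars B • z := inj (by rw [hw, hs, hs]; rfl)
        exact Ideal.Quotient.eq.1 (hh z _ (hs _ _))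
      exact hσ ((QuotientGroup.eq_one_iff g).2 (by simpa using H.mul_mem h3 (H.inv_mem h2)))
  have : FaithfulSMul B C := (faithfulSMul_iff_algebraMap_injective _ _).2 hBC
  have : Algebra.Unramified B C := ⟨h2, inferInstance⟩
  exact ⟨C, h1, E3.etale_of_unramified B C, hfix⟩

end

end Pool.Agent.MP_855f4c_ag.EZ

end

section

/-! Section Z: automorphisms of the generic fibre functor come from the Galois group. -/

set_option autoImplicit false

namespace Pool.Agent.MP_855f4c_ag.EZ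

open Polynomial CategoryTheory CommAlgCat LP

/-- An injective map to an algebraically closed field extends to algebraic extensions. -/
lemma ext_alg {R S M : Type} [CommRing R] [IsDomain R] [CommRing S] [IsDomain S] [Algebra R S]
    [FaithfulSMul R S] [Algebra.IsAlgebraic R S] [Field M] [IsAlgClosed M] (g : R →+* M)
    (hg : Function.Injective g) : ∃ y : S →+* M, ∀ r, y (algebraMap R S r) = g r := by
  let _ := g.toAlgebra
  have : FaithfulSMul R M := (faithfulSMul_iff_algebraMap_injective _ _).2 hg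
  exact ⟨(IsAlgClosed.lift (R := R) (S := S) (M := M)).toRingHom,
    fun r => (IsAlgClosed.lift (R := R) (S := S) (M := M)).commutes r⟩

section

variable {B P Ω : Type} [CommRing B] [CommRing P] [Field Ω] [Algebra B Ω] [Algebra B P]
  [Algebra P Ω] [IsScalarTower B P Ω] [IsIntegralClosure P B Ω] [IsDomain B]
  [IsIntegrallyClosed B] [IsAlgClosed Ω] [FaithfulSMul B Ω] [Algebra.IsAlgebraic B Ω]

/-- ROW Z2 (file E/ZC.lean, imports E.ZA). Every automorphism of the fibre functor at the generic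
point comes from the Galois group. -/
theorem act_surj (α : FiniteEtale.fiber.{0} B Ω ≅ FiniteEtale.fiber.{0} B Ω) :
    ∃ g : Ω ≃ₐ[B] Ω, act g = α := by
  classical
  have injB := FaithfulSMul.algebraMap_injective B Ω
  have het : ∀ D : Subalgebra B Ω, Module.Finite B D → Algebra.FormallyUnramified B D →
      Algebra.Etale B D := fun D h1 h2 => by
    have : FaithfulSMul B D := (faithfulSMul_iff_algebraMap_injective _ _).2
      fun x y e => injB (congrArg Subtype.val e)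
    have : Algebra.Unramified B D := ⟨h2, inferInstance⟩
    exact E3.etale_of_unramified B D
  let a : ∀ (T : Type) [CommRing T] [Algebra B T] [Module.Finite B T] [Algebra.Etale B T],
      (T →ₐ[B] Ω) → (T →ₐ[B] Ω) := fun T _ _ _ _ t =>
    α.hom.app (Opposite.op (FiniteEtale.of B T)) t
  have nat : ∀ (S T : Type) [CommRing S] [Algebra B S] [Module.Finite B S] [Algebra.Etale B S]
      [CommRing T] [Algebra B T] [Module.Finite B T] [Algebra.Etale B T] (q : S →ₐ[B] T)
      (t : T →ₐ[B] Ω), a S (t.comp q) = (a T t).comp q := fun S T _ _ _ _ _ _ _ _ q t =>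
    ConcreteCategory.congr_hom (α.hom.naturality (FiniteEtale.ofHom q).op) t
  have ex : ∀ c : gp_max B Ω, ∃ z : Ω, ∀ (D : Subalgebra B Ω) (h1 : Module.Finite B D)
      (h2 : Algebra.Etale B D) (hc : c.1 ∈ D), a D D.val ⟨c.1, hc⟩ = z := fun c => by
    obtain ⟨c, D, d1, d2, hD⟩ := c
    have := het D d1 d2
    refine ⟨a D D.val ⟨c, hD⟩, fun E e1 e2 hE => ?_⟩
    obtain ⟨s1, s2⟩ := unr_sup D E
    have := het _ s1 s2
    have h1 := DFunLike.congr_fun
      (nat D (D ⊔ E :) (Subalgebra.inclusion le_sup_left) (D ⊔ E).val) ⟨c, hD⟩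
    have h2 := DFunLike.congr_fun
      (nat E (D ⊔ E :) (Subalgebra.inclusion le_sup_right) (D ⊔ E).val) ⟨c, hE⟩
    exact h2.trans h1.symm
  choose z hz using ex
  have two : ∀ x y : gp_max B Ω, ∃ (D : Subalgebra B Ω) (_ : Module.Finite B D)
      (_ : Algebra.Etale B D), x.1 ∈ D ∧ y.1 ∈ D := fun ⟨x, D, d1, d2, hx⟩ ⟨y, E, e1, e2, hy⟩ =>
    ⟨D ⊔ E, (unr_sup D E).1, het _ (unr_sup D E).1 (unr_sup D E).2,
      le_sup_left (a := D) hx, le_sup_right (a := D) hy⟩
  have hB : ∀ r : B, z (algebraMap B _ r) = algebraMap B Ω r := fun r => by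
    obtain ⟨D, d1, d2, hx, -⟩ := two (algebraMap B _ r) 0
    rw [← hz _ D d1 d2 hx]
    exact (a D D.val).commutes r
  let g0 : gp_max B Ω →+* Ω :=
    { toFun := z
      map_one' := by simpa using hB 1
      map_zero' := by simpa using hB 0
      map_mul' := fun x y => by
        obtain ⟨D, d1, d2, hx, hy⟩ := two x y
        rw [← hz x D d1 d2 hx, ← hz y D d1 d2 hy, ← hz (x * y) D d1 d2 (mul_mem hx hy), ← map_mul]
        rfl
      map_add' := fun x y => by
        obtain ⟨D, d1, d2, hx, hy⟩ := two x y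
        rw [← hz x D d1 d2 hx, ← hz y D d1 d2 hy, ← hz (x + y) D d1 d2 (add_mem hx hy), ← map_add]
        rfl }
  have hint : Algebra.IsIntegral B (gp_max B Ω) := ⟨fun ⟨x, D, d1, d2, hx⟩ =>
    (isIntegral_algHom_iff (gp_max B Ω).val Subtype.val_injective).1
      ((Algebra.IsIntegral.isIntegral (R := B) (⟨x, hx⟩ : D)).map D.val)⟩
  have hinj : Function.Injective g0 := by
    rw [RingHom.injective_iff_ker_eq_bot]
    refine Ideal.eq_bot_of_comap_eq_bot (R := B) (eq_bot_iff.2 fun r hr => ?_)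
    have h : z (algebraMap B _ r) = 0 := hr
    rw [hB] at h
    exact (Submodule.mem_bot B).2 (injB (h.trans (map_zero _).symm))
  have : Algebra.IsAlgebraic (gp_max B Ω) Ω :=
    Algebra.IsAlgebraic.extendScalars (R := B) fun x y e => injB (congrArg Subtype.val e)
  obtain ⟨y, hy⟩ := ext_alg (S := Ω) g0 hinj
  let y' : Ω →ₐ[B] Ω := { y with commutes' := fun r => (hy (algebraMap B _ r)).trans (hB r) }
  refine ⟨AlgEquiv.ofBijective y' (Algebra.IsAlgebraic.algHom_bijective y'), ?_⟩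
  refine Iso.ext (NatTrans.ext (funext fun T => ?_))
  refine ConcreteCategory.hom_ext _ _ fun t => ?_
  change T.unop →ₐ[B] Ω at t
  have d1 : Module.Finite B t.range :=
    Module.Finite.of_surjective t.rangeRestrict.toLinearMap t.rangeRestrict_surjective
  have d2 : Algebra.FormallyUnramified B t.range :=
    Algebra.FormallyUnramified.of_surjective t.rangeRestrict t.rangeRestrict_surjective
  have d3 := het _ d1 d2
  have h1 : a T.unop t = (a t.range t.range.val).comp t.rangeRestrict :=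
    nat T.unop t.range t.rangeRestrict t.range.val
  change _ = a T.unop t
  rw [h1]
  refine AlgHom.ext fun w => ?_
  exact (hy ⟨t w, t.range, d1, d2, w, rfl⟩).trans
    (hz ⟨t w, t.range, d1, d2, w, rfl⟩ t.range d1 d3 ⟨w, rfl⟩).symm

end

end Pool.Agent.MP_855f4c_ag.EZ

end

section

/-! Section Z: a continuous unramified representation comes from a lisse system. -/

set_option autoImplicit false

namespace Pool.Agent.MP_855f4c_ag.EZ

open Polynomial CategoryTheory CommAlgCat LP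

/-- An anti-representation of the automorphisms of one object extends to all isomorphisms. -/
lemma zd_ext {𝒞 : Type*} [Category 𝒞] {M : Type*} [Monoid M] (X₀ : 𝒞) (rt : (X₀ ≅ X₀) → M)
    (h1 : rt (Iso.refl _) = 1) (h2 : ∀ α β, rt (α ≪≫ β) = rt β * rt α) :
    ∃ m : ∀ {X Y : 𝒞}, (X ≅ Y) → M, (∀ X, m (Iso.refl X) = 1) ∧
      (∀ {X Y Z : 𝒞} (f : X ≅ Y) (g : Y ≅ Z), m (f ≪≫ g) = m g * m f) ∧
      (∀ X, Nonempty (X₀ ≅ X) → ∃ e : X₀ ≅ X, ∀ g : X ≅ X, m g = rt (e ≪≫ g ≪≫ e.symm)) ∧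
      ∀ X, ¬ Nonempty (X₀ ≅ X) → ∀ g : X ≅ X, m g = 1 := by
  classical
  refine ⟨fun {X Y} f => if h : Nonempty (X₀ ≅ X) then
    rt (h.some ≪≫ f ≪≫ (Nonempty.some ⟨h.some ≪≫ f⟩ : X₀ ≅ Y).symm) else 1,
    fun X => ?_, fun {X Y Z} f g => ?_, fun X h => ⟨h.some, fun g => dif_pos h⟩,
    fun X h g => dif_neg h⟩
  · beta_reduce
    split_ifs with h
    · rw [← h1]
      congr 1
      ext
      simp
    · rfl
  · beta_reduce
    by_cases h : Nonempty (X₀ ≅ X)
    · have h' : Nonempty (X₀ ≅ Y) := ⟨h.some ≪≫ f⟩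
      rw [dif_pos h, dif_pos h, dif_pos h', ← h2]
      congr 1
      ext
      simp
    · have h' : ¬ Nonempty (X₀ ≅ Y) := fun ⟨e⟩ => h ⟨e ≪≫ f.symm⟩
      rw [dif_neg h, dif_neg h, dif_neg h', mul_one]

lemma zd_mul {A Ω : Type} [CommRing A] [Field Ω] [Algebra A Ω] (g h : Ω ≃ₐ[A] Ω) :
    act (g * h) = act h ≪≫ act g := by
  ext S s
  rfl

lemma zd_one {A Ω : Type} [CommRing A] [Field Ω] [Algebra A Ω] :
    act (1 : Ω ≃ₐ[A] Ω) = Iso.refl _ := by
  ext S s
  rfl

section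

variable {B P Ω : Type} [CommRing B] [CommRing P] [Field Ω] [Algebra B Ω] [Algebra B P]
  [Algebra P Ω] [IsScalarTower B P Ω] [IsIntegralClosure P B Ω] [IsDomain B]
  [IsIntegrallyClosed B] [IsAlgClosed Ω] [FaithfulSMul B Ω] [Algebra.IsAlgebraic B Ω]

/-- The covers that trivialise `ρ` modulo `l ^ n`. -/
lemma zd_cov [CharZero Ω] {l d : ℕ} [Fact l.Prime]
    (ρ : (Ω ≃ₐ[B] Ω) →* Matrix (Fin d) (Fin d) ℤ_[l])
    (hc : ∀ n : ℕ, ∃ E : Finset Ω, ∀ g : Ω ≃ₐ[B] Ω, (∀ e ∈ E, g e = e) →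
      ∀ a b, (l : ℤ_[l]) ^ n ∣ (ρ g - 1) a b)
    (hI : ∀ a : Ideal P, a.IsMaximal → ∀ g : Ω ≃ₐ[B] Ω,
      (∀ z w : P, algebraMap P Ω w = g (algebraMap P Ω z) → w - z ∈ a) → ρ g = 1) (n : ℕ) :
    ∃ S : (FiniteEtale.{0} B)ᵒᵖ, ∀ g : Ω ≃ₐ[B] Ω, NatTrans.app (act g).hom S = 𝟙 _ →
      ∀ a b, (l : ℤ_[l]) ^ n ∣ (ρ g - 1) a b := by
  let I : Ideal ℤ_[l] := Ideal.span {(l : ℤ_[l]) ^ n}
  let τ : (Ω ≃ₐ[B] Ω) →* Matrix (Fin d) (Fin d) (ℤ_[l] ⧸ I) :=
    ((Ideal.Quotient.mk I).mapMatrix : Matrix (Fin d) (Fin d) ℤ_[l] →+* _).toMonoidHom.comp ρ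
  have hτ : ∀ g, g ∈ τ.ker ↔ ∀ a b, (l : ℤ_[l]) ^ n ∣ (ρ g - 1) a b := fun g => by
    have e : τ g = 1 ↔ (Ideal.Quotient.mk I).mapMatrix (ρ g - 1) = 0 := by
      rw [map_sub, map_one, sub_eq_zero]
      rfl
    rw [MonoidHom.mem_ker, e, ← Matrix.ext_iff]
    refine forall₂_congr fun a b => ?_
    rw [← Ideal.mem_span_singleton, ← Ideal.Quotient.eq_zero_iff_mem]
    rfl
  obtain ⟨C, h1, h2, h3⟩ := cover (P := P) τ.ker
    ((hc n).imp fun E hE g hg => (hτ g).2 (hE g hg))
    fun a ha g hg => (hτ g).2 fun a' b' => by rw [hI a ha g hg, sub_self]; exact dvd_zero _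
  refine ⟨.op (FiniteEtale.of B C), fun g hg => (hτ g).1 (h3 g fun z hz => ?_)⟩
  have e := congrArg (fun f => f ((IsScalarTower.toAlgHom B P Ω).comp C.val)) hg
  exact DFunLike.congr_fun (F := C →ₐ[B] Ω) e ⟨z, hz⟩

/-- ROW Z3. A continuous unramified representation comes from a lisse system. -/
theorem exists_locSys [CharZero Ω] {l d : ℕ} [Fact l.Prime]
    (ρ : (Ω ≃ₐ[B] Ω) →* Matrix (Fin d) (Fin d) ℤ_[l])
    (hc : ∀ n : ℕ, ∃ E : Finset Ω, ∀ g : Ω ≃ₐ[B] Ω, (∀ e ∈ E, g e = e) →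
      ∀ a b, (l : ℤ_[l]) ^ n ∣ (ρ g - 1) a b)
    (hI : ∀ a : Ideal P, a.IsMaximal → ∀ g : Ω ≃ₐ[B] Ω,
      (∀ z w : P, algebraMap P Ω w = g (algebraMap P Ω z) → w - z ∈ a) → ρ g = 1) :
    ∃ L : LocSys B ℚ_[l], Lisse L ∧ ∀ (k : Type) [Field k] [Algebra B k] (b : P →ₐ[B] k),
      ∃ E : (Fin d → ℚ_[l]) ≃ₗ[ℚ_[l]] L.obj ⟨FiniteEtale.fiber.{0} B k⟩,
        ∀ (g : Ω ≃ₐ[B] Ω) (ψ : k ≃ₐ[B] k),
          (∀ z w : P, algebraMap P Ω w = g (algebraMap P Ω z) → b w = ψ (b z)) →
          ∀ v, E (Matrix.toLin' ((ρ g).map (algebraMap ℤ_[l] ℚ_[l])) v) = rho L ψ (E v) := by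
  choose S hS using zd_cov (P := P) ρ hc hI
  have hker : ∀ g : Ω ≃ₐ[B] Ω, act g = Iso.refl _ → ρ g = 1 := fun g hg => by
    rw [← sub_eq_zero]
    ext a b : 1
    have h : ∀ n : ℕ, (l : ℤ_[l]) ^ n ∣ (ρ g - 1) a b := fun n => hS n g (by rw [hg]; rfl) a b
    by_contra h0
    have := (PadicInt.mem_span_pow_iff_le_valuation _ h0 _).1
      (Ideal.mem_span_singleton.2 (h (((ρ g - 1) a b).valuation + 1)))
    omega
  have hwd : ∀ g g' : Ω ≃ₐ[B] Ω, act g = act g' → ρ g = ρ g' := fun g g' h => by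
    have h1 : ρ (g⁻¹ * g') = 1 := hker _ (by rw [zd_mul, ← h, ← zd_mul, inv_mul_cancel, zd_one])
    rw [← mul_inv_cancel_left g g', map_mul, h1, mul_one]
  choose σ hσ using act_surj (B := B) (Ω := Ω)
  have hrt : ∀ g, ρ (σ (act g)) = ρ g := fun g => hwd _ _ (hσ _)
  have hrt2 : ∀ α β, ρ (σ (α ≪≫ β)) = ρ (σ β) * ρ (σ α) := fun α β => by
    rw [← map_mul]
    exact hwd _ _ (by rw [zd_mul, hσ, hσ, hσ])
  have hrt1 : ρ (σ (Iso.refl _)) = 1 := hker _ (hσ _)
  obtain ⟨m, m1, m2, m3, m4⟩ := zd_ext (FiniteEtale.fiber.{0} B Ω) (fun α => ρ (σ α)) hrt1 hrt2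
  let T : Matrix (Fin d) (Fin d) ℤ_[l] → (Fin d → ℚ_[l]) →ₗ[ℚ_[l]] (Fin d → ℚ_[l]) := fun M =>
    Matrix.toLin' (M.map (algebraMap ℤ_[l] ℚ_[l]))
  have T1 : T 1 = LinearMap.id := by
    simp only [T]
    rw [Matrix.map_one _ (map_zero _) (map_one _), Matrix.toLin'_one]
  have T2 : ∀ M N, T (M * N) = (T M).comp (T N) := fun M N => by
    simp only [T]
    rw [Matrix.map_mul, Matrix.toLin'_mul]
  let L : LocSys B ℚ_[l] :=
    { obj := fun _ => ModuleCat.of ℚ_[l] (Fin d → ℚ_[l])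
      map := fun f => ModuleCat.ofHom (T (m f.iso))
      map_id := fun X => by
        have : m (CoreHom.iso (𝟙 X)) = 1 := m1 _
        rw [this, T1]
        rfl
      map_comp := fun f g => by
        have : m (CoreHom.iso (f ≫ g)) = m g.iso * m f.iso := m2 _ _
        rw [this, T2]
        rfl }
  have hT : ∀ M, LinearMap.toMatrix (Pi.basisFun ℚ_[l] (Fin d)) (Pi.basisFun ℚ_[l] (Fin d)) (T M) =
      M.map (algebraMap ℤ_[l] ℚ_[l]) := fun M => by
    rw [LinearMap.toMatrix_eq_toMatrix', LinearMap.toMatrix'_toLin']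
  refine ⟨L, ⟨fun _ => d, fun _ => Pi.basisFun ℚ_[l] (Fin d), fun Φ g a b => ?_, fun n =>
    ⟨S n, fun Φ g hg a b => ?_⟩⟩, fun k _ _ b => ?_⟩
  · have e := hT (m g)
    exact (congrArg (fun M : Matrix _ _ ℚ_[l] => ‖M a b‖) e).trans_le (m g a b).2
  · have h : (l : ℤ_[l]) ^ n ∣ (m g - 1) a b := by
      by_cases h : Nonempty (FiniteEtale.fiber.{0} B Ω ≅ Φ)
      · obtain ⟨e, he⟩ := m3 Φ h
        rw [he]
        refine hS n _ ?_ a b
        rw [hσ]
        simp [hg]
      · rw [m4 Φ h, sub_self]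
        exact dvd_zero _
    obtain ⟨c, hc⟩ := h
    have e : (m g).map (algebraMap ℤ_[l] ℚ_[l]) - 1 = (m g - 1).map (algebraMap ℤ_[l] ℚ_[l]) := by
      rw [Matrix.map_sub _ (map_sub _), Matrix.map_one _ (map_zero _) (map_one _)]
    refine (congrArg (fun M : Matrix _ _ ℚ_[l] => ‖(M - 1) a b‖) (hT (m g))).trans_le ?_
    beta_reduce
    rw [e, Matrix.map_apply, hc, map_mul, map_pow, map_natCast, norm_mul]
    exact mul_le_of_le_one_right (norm_nonneg _) c.2
  · have hsp := E65.ic_splits (B := B) (P := P) (Ω := Ω)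
    have : IsDomain P := (IsIntegralClosure.algebraMap_injective P B Ω).isDomain _
    let a := IsScalarTower.toAlgHom B P Ω
    obtain ⟨α, hα⟩ := pa_path hsp a b
    obtain ⟨e, he⟩ := m3 _ ⟨α⟩
    let β := α ≪≫ e.symm
    refine ⟨LinearEquiv.ofLinearMap (T (ρ (σ β))) (T (ρ (σ β.symm)))
      (by rw [← T2, ← hrt2, Iso.symm_self_id, hrt1, T1])
      (by rw [← T2, ← hrt2, Iso.self_symm_id, hrt1, T1]), fun g ψ h v => ?_⟩
    have key : act g ≪≫ α = α ≪≫ act ψ := by
      ext S t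
      obtain ⟨s, rfl⟩ := (pa_bij hsp a S.unop).2 t
      obtain ⟨s', hs'⟩ := (pa_bij hsp a S.unop).2 ((g : Ω →ₐ[B] Ω).comp (a.comp s))
      refine (congrArg (α.hom.app S) hs'.symm).trans ((hα S _).trans ?_)
      exact (AlgHom.ext fun z => h (s z) (s' z) (DFunLike.congr_fun hs' z)).trans
        (congrArg (ψ : k →ₐ[B] k).comp (hα S s).symm)
    have h2 : ρ (σ β) * ρ g = m (act ψ) * ρ (σ β) := by
      rw [he, ← hrt g, ← hrt2, ← hrt2]
      congr 2
      rw [← Iso.trans_assoc, key]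
      ext1
      simp [β]
    have h3 := congrArg (fun M => T M v) h2
    simp only [T2] at h3
    exact h3

end

end Pool.Agent.MP_855f4c_ag.EZ

end
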