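import Pool.Agent.MP_855f4c_ag.EC.Da
import Pool.Agent.MP_855f4c_ag.EC.F2d
import Pool.Agent.MP_855f4c_ag.EC.F2e
import Pool.Agent.MP_855f4c_ag.EC.F2b
import Pool.Agent.MP_855f4c_ag.EC.M3a
import Pool.Agent.MP_855f4c_ag.EC.E4d
import Pool.Agent.MP_855f4c_ag.WD.Glue
import Pool.Agent.MP_855f4c_ag.EC.Za
import Pool.Agent.MP_855f4c_ag.EC.Xa
import Pool.Agent.MP_855f4c_ag.EC.F2c
import Pool.Agent.MP_855f4c_ag.EC.E4c

section

set_option autoImplicit false
set_option backward.isDefEq.respectTransparency false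

open CategoryTheory Limits Abelian Opposite AlgebraicGeometry

namespace Pool.Agent.MP_855f4c_ag.E.D

open E3 E4 EZ Function
open CV (Ln Lm)

lemma embq_alg {l : ℕ} [Fact l.Prime] {M D : Type 1} {A : ℕ → Type 1} [AddCommGroup M]
    [AddCommGroup D] [∀ n, AddCommGroup (A n)] (δ : ∀ n, M →+ A n) (j : ∀ n, A n →+ D)
    (h1 : ∀ n, Exact (δ n) (j n)) (h2 : ∀ n y, δ n y = 0 ↔ ∃ z, l ^ n • z = y)
    (h3 : ∀ d : D, l ^ 1 • d = 0 → ∃ a, j 1 a = d) (hM : ∀ y : M, ∃ m, l ^ m • y = 0)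
    (hD : ∀ d : D, ∃ m, l ^ m • d = 0) (e : ∀ n, Nonempty (A n ≃+ ZMod (l ^ n))) :
    Injective (j 1) := by
  have hp : l.Prime := Fact.out
  refine (injective_iff_map_eq_zero _).2 fun x hx => by_contra fun h0 => ?_
  have gen (a : A 1) : ∃ c : ℤ, c • x = a := mem_zmultiples_of_prime_card (p := l)
    ((e 1).elim fun e => (Nat.card_congr e.toEquiv).trans (by simp)) h0
  have D0 (d : D) : d = 0 := by
    obtain ⟨m, hm⟩ := hD d
    induction m with
    | zero => simpa using hm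
    | succ m ih =>
      obtain ⟨a, ha⟩ := h3 (l ^ m • d) (by rwa [smul_smul, pow_one, ← pow_succ'])
      obtain ⟨c, rfl⟩ := gen a
      exact ih (by rw [← ha, map_zsmul, hx, smul_zero])
  obtain ⟨y, rfl⟩ := (h1 1 x).1 hx
  have gen2 (n : ℕ) (z : M) : ∃ (c : ℤ) (w : M), z = c • y + l ^ n • w := by
    induction n with
    | zero => exact ⟨0, z, by simp⟩
    | succ n ih =>
      obtain ⟨c, w, rfl⟩ := ih
      obtain ⟨c', hc⟩ := gen (δ 1 w)
      obtain ⟨w', hw⟩ := (h2 1 (w - c' • y)).1 (by rw [map_sub, map_zsmul, hc, sub_self])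
      refine ⟨c + l ^ n * c', w', ?_⟩
      rw [pow_succ, mul_smul, ← pow_one l, hw, pow_one, smul_sub, add_smul, mul_smul,
        ← Nat.cast_pow, natCast_zsmul]
      abel
  obtain ⟨m, hm⟩ := hM y
  obtain ⟨f⟩ := e (m + 1)
  obtain ⟨z, hz⟩ := (h1 (m + 1) (f.symm 1)).1 (D0 _)
  obtain ⟨c, w, rfl⟩ := gen2 (m + 1) z
  rw [map_add, (h2 _ _).2 ⟨w, rfl⟩, add_zero, eq_comm, f.symm_apply_eq] at hz
  have h4 : ((l ^ m : ℕ) : ZMod (l ^ (m + 1))) = 0 := by
    rw [← nsmul_one, hz, ← map_nsmul, ← map_nsmul, smul_comm, hm]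
    simp
  exact (Nat.pow_lt_pow_right hp.one_lt m.lt_succ_self).not_ge
    (Nat.le_of_dvd (pow_pos hp.pos m) ((ZMod.natCast_eq_zero_iff _ _).1 h4))

variable {X : Scheme.{0}}

lemma embq_ext {n : ℕ} {W : Over X} {F : Sh (Scheme.etaleTopology.over X)} {a b : Ln n W ⟶ F}
    (h : a.hom.app _ (tau n W) = b.hom.app _ (tau n W)) : a = b :=
  (cancel_epi (cokernel.π _)).1 ((frEquiv W F).injective h)

lemma embq_tau (n : ℕ) {W' W : Over X} (h : W' ⟶ W) :
    (Lm n h).hom.app _ (tau n W') = rsec h _ (tau n W) :=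
  (congrArg (frEquiv W' _) (cokernel.π_desc _ _ _)).trans (frEquiv_pre h _)

/-- Sections of `Ln n X` are locally multiples of the tautological one. -/
lemma embq_loc (n : ℕ) (W : Over X) (s : sec (Ln n (top X)) W) (w : W.left) :
    ∃ (V : Over X) (v : V ⟶ W) (c : ℤ), IsAffine V.left ∧ Etale v.left ∧ w ∈ Set.range v.left ∧
      rsec v _ s = c • rsec (tot V) _ (tau n (top X)) := by
  let p : (fr (Scheme.etaleTopology.over X)).obj (top X) ⟶ Ln n (top X) := cokernel.π _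
  have : Presheaf.IsLocallySurjective (Scheme.etaleTopology.over X) p.hom :=
    (Sheaf.isLocallySurjective_iff_epi' _ p).2 (inferInstanceAs (Epi (cokernel.π _)))
  have : Presheaf.IsLocallySurjective (Scheme.etaleTopology.over X) (toSheafify (Scheme.etaleTopology.over X) (frP.obj (top X)) ≫ p.hom) :=
    Presheaf.isLocallySurjective_comp _ _ _
  obtain ⟨V, v, h1, h2, ⟨z, hz⟩, h4⟩ := exists_of_mem_Jov (Presheaf.imageSieve_mem (Scheme.etaleTopology.over X)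
    (toSheafify (Scheme.etaleTopology.over X) (frP.obj (top X)) ≫ p.hom) s) w
  let _ : Unique (ULift.{1} (V ⟶ top X)) :=
    ⟨⟨⟨tot V⟩⟩, fun a => ULift.ext _ _ (Over.mkIdTerminal.hom_ext _ _)⟩
  obtain ⟨c, rfl⟩ : ∃ c : ℤ, z = c • bas (tot V) :=
    ⟨_, (Finsupp.unique_single z).trans (Finsupp.smul_single_one _ _).symm⟩
  refine ⟨V, v, c, h1, h2, h4, hz.symm.trans ((map_zsmul _ _ _).trans (congrArg _ ?_))⟩
  have := nat (toSheafify (Scheme.etaleTopology.over X) (frP.obj (top X)) ≫ p.hom) (tot V) (bas (𝟙 _))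
  rwa [map_bas, Category.comp_id] at this

lemma embq_les0 {C : Type 2} [Category.{1} C] [Abelian C] [HasExt.{1} C] {F G K : C} {f : F ⟶ G}
    {g : G ⟶ K} {w : f ≫ g = 0} (hS : (ShortComplex.mk f g w).ShortExact) (T : C) :
    ∃ d, IsLES (post T f) (post _ g) d := ⟨_, cov_les _ hS⟩

lemma embq_les {F G K : Sh (Scheme.etaleTopology.over X)} {f : F ⟶ G} {g : G ⟶ K} {w : f ≫ g = 0}
    (hS : (ShortComplex.mk f g w).ShortExact) (T : Over X) :
    ∃ d, IsLES (Hmap f T) (Hmap g T) d := embq_les0 hS _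

variable {l : ℕ} [Fact l.Prime]

lemma embq_inj (T : Over X) [CompactSpace T.left] [T.left.IsSeparated] (N : ℕ)
    (e : ∀ m, Nonempty (H T (Zl X l m) N ≃+ ZMod (l ^ m))) : Injective (Hmap (Zj l X 1) T N) := by
  have tor (q : ℕ) := H_tor (l := l) T (F := Linf l X) (cst_Tc (.of (ULift.{1} (QZ l)))
    fun m => (cof_QZ.1 m.down).imp fun _ h => ULift.ext _ _ h).2 q
  choose d hd using fun n => embq_les (Zj_exact l X n) T
  cases N with
  | zero => exact (hd 1).inj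
  | succ q =>
    exact embq_alg (fun n => d n q) (fun n => Hmap (Zj l X n) T (q + 1)) (fun n => (hd n).e₁ q)
      (fun n y => ((hd n).e₃ q y).trans (exists_congr fun z => by rw [Hmap_nsmul]))
      (fun y h => ((hd 1).e₂ _ y).1 ((Hmap_nsmul _ _ _ _ y).trans h)) (tor q) (tor _) e

lemma embq_fac (a : Ln l (top X) ≅ Zl X l 1) (W : Over X) (hW : Aet W) (β : Ln l W ⟶ Linf l X)
    (w : W.left) : ∃ (W' : Over X) (h : W' ⟶ W) (c : ℤ), Aet W' ∧ w ∈ Set.range h.left ∧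
      Lm l h ≫ β = c • (Lm l (tot W') ≫ a.hom ≫ Zj l X 1) := by
  have := (Zj_exact l X 1).mono_f
  obtain ⟨γ, hγ⟩ := (Zj_exact l X 1).exact.lift' β (by
    rw [← cancel_epi (cokernel.π _), comp_zero]
    simpa using cokernel.condition ((l : ℤ) • 𝟙 ((fr (Scheme.etaleTopology.over X)).obj W)) =≫ β)
  obtain ⟨V, v, c, h1, h2, h3, h4⟩ := embq_loc l W ((γ ≫ a.inv).hom.app _ (tau l W)) w
  have := hW.1
  refine ⟨V, v, c, ⟨Over.w v ▸ inferInstance, h1⟩, h3, ?_⟩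
  have h5 : Lm l v ≫ γ ≫ a.inv = c • Lm l (tot V) := embq_ext (by
    refine Eq.trans ?_ (h4.trans (congrArg _ (embq_tau l (tot V)).symm))
    exact (congrArg ((γ ≫ a.inv).hom.app _) (embq_tau l v)).trans (nat _ v _))
  rw [← Preadditive.zsmul_comp, ← h5, ← hγ, Category.assoc, Category.assoc, a.inv_hom_id_assoc]

theorem embq (hL : LNM_s) : EMBQ_s := by
  intro l _ X N ⟨_, hs, _⟩ _ hc
  have : CompactSpace (top X).left := inferInstanceAs (CompactSpace X)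
  have : (top X).left.IsSeparated := hs
  have e (n m : ℕ) (h : n = l ^ m) : Nonempty (Ln n (top X) ≅ Zl X l m) := h ▸ (hL X _).2.1
  have e' (m : ℕ) : Nonempty (H (top X) (Zl X l m) N ≃+ ZMod (l ^ m)) := by
    obtain ⟨a⟩ := e _ m rfl
    obtain ⟨b⟩ := hc _ ⟨m, rfl⟩
    exact ⟨(AddEquiv.ofBijective _ (post_bij _ a.hom N)).symm.trans b⟩
  obtain ⟨a⟩ := e l 1 (pow_one l).symm
  obtain ⟨b⟩ := e' 1
  obtain ⟨t, ht⟩ := QZ.extend _ (embq_inj _ N e') ((qj l 1).comp b.toAddMonoidHom)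
  refine ⟨t, a.hom ≫ Zj l X 1, fun x y h => (post_bij _ a.hom N).1 (b.injective (qj_inj l 1 ?_)),
    (hc l ⟨1, (pow_one l).symm⟩).elim fun c => c.toEquiv.nontrivial, embq_fac a⟩
  rw [AddMonoidHom.comp_apply, AddMonoidHom.comp_apply, Hmap_comp, Hmap_comp] at h
  exact (DFunLike.congr_fun ht _).symm.trans (h.trans (DFunLike.congr_fun ht _))

end Pool.Agent.MP_855f4c_ag.E.D

end

section

set_option autoImplicit false
set_option backward.isDefEq.respectTransparency false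

open CategoryTheory Limits Abelian Opposite AlgebraicGeometry

namespace Pool.Agent.MP_855f4c_ag.E.D

open E3 E4 Function Polynomial
open CV (Ln Lm)

namespace DWK

variable {l : ℕ} [Fact l.Prime]

lemma inter {M : Type 1} [AddCommGroup M] {j : ℚ_[l] →+* ℂ} {S S' : Set ℝ} {φ : M →+ M}
    (h : Ev j S φ) (h' : Ev j S' φ) : Ev j (S ∩ S') φ := by
  classical
  obtain ⟨P, a, b, c⟩ := h
  obtain ⟨R, -, b', c'⟩ := h'
  refine ⟨EuclideanDomain.gcd P R, fun h => a (EuclideanDomain.gcd_eq_zero_iff.1 h).1, ?_,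
    fun z hz => ⟨c z ?_, c' z ?_⟩⟩
  · rw [EuclideanDomain.gcd_eq_gcd_ab, map_add, mul_comm P, mul_comm R, map_mul, map_mul, b, b',
      mul_zero, mul_zero, add_zero]
  · exact eval₂_eq_zero_of_dvd_of_eval₂_eq_zero _ _ (EuclideanDomain.gcd_dvd_left P R) hz
  · exact eval₂_eq_zero_of_dvd_of_eval₂_eq_zero _ _ (EuclideanDomain.gcd_dvd_right P R) hz

lemma low' {C : Type 2} [Category.{1} C] [Abelian C] [HasExt.{1} C] {A F G : C} {u : F ⟶ G}
    {v : G ⟶ G} {w : u ≫ v = 0} (hS : (ShortComplex.mk u v w).ShortExact) (g : A ⟶ A) (j : ℕ) :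
    ∃ (i : ℕ) (a : Ext A G i →+ Ext A F j), i = j - 1 ∧
      (∀ y, a (pre g _ _ y) = pre g _ _ (a y)) ∧ ∀ y, post A u j y = 0 → ∃ z, a z = y := by
  cases j with
  | zero => exact ⟨0, 0, rfl, fun _ => (map_zero _).symm,
      fun y hy => ⟨0, (cov_les A hS).inj ((map_zero _).trans (Eq.symm hy))⟩⟩
  | succ j => exact ⟨j, dl A hS j, rfl, fun y => (pre_dl g hS y).symm,
      fun y hy => ((cov_les A hS).e₁ j y).1 hy⟩

variable {X : Scheme.{0}} (T : Over X)

/-- The projection. -/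
noncomputable def prj (n : ℕ) : (fr (Scheme.etaleTopology.over X)).obj T ⟶ Ln n T := cokernel.π _

lemma prj_lm (n : ℕ) (g : T ⟶ T) : prj T n ≫ Lm n g = (fr _).map g ≫ prj T n :=
  cokernel.π_desc _ _ _

lemma pre_smul {A F : Sh (Scheme.etaleTopology.over X)} (n i : ℕ) (z : Ext A F i) :
    pre ((n : ℤ) • 𝟙 A) F i z = n • z := by
  rw [natCast_zsmul, pre_apply]
  induction n with
  | zero => rw [zero_nsmul, zero_nsmul, Ext.mk₀_zero, Ext.zero_comp]
  | succ m ih => rw [succ_nsmul, succ_nsmul, Ext.mk₀_add, Ext.add_comp, ih, Ext.mk₀_id_comp]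

lemma lift {n : ℕ} (hn : n ≠ 0) (F : Sh (Scheme.etaleTopology.over X)) (i : ℕ) (z : H T F i) (hz : n • z = 0) :
    ∃ x : Ext (Ln n T) F i, pre (prj T n) F i x = z :=
  have : NeZero (n : ℤ) := ⟨Int.natCast_ne_zero.2 hn⟩
  have : Epi (prj T n) := coequalizer.π_epi
  have hS : (ShortComplex.mk ((n : ℤ) • 𝟙 _) (prj T n) (cokernel.condition _)).ShortExact :=
    { exact := ShortComplex.exact_cokernel _ }
  Ext.contravariant_sequence_exact₂ hS F z ((pre_smul n i z).trans hz)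

lemma low (g : T ⟶ T) (m j : ℕ) : ∃ (i : ℕ) (a : H T (Linf l X) i →+ H T (Zl X l m) j), i = j - 1 ∧
    (∀ y, a (res g _ _ y) = res g _ _ (a y)) ∧
      ∀ y, Hmap (EZ.Zj l X m) T j y = 0 → ∃ z, a z = y :=
  low' (EZ.Zj_exact l X m) ((fr _).map g) j

lemma tc : Tc l (Linf l X) :=
  cst_Tc (.of (ULift.{1} (QZ l))) fun m =>
    ((cof_QZ (l := l)).1 m.down).imp fun _ hn => ULift.ext _ _ hn

lemma van1 {F : Sh (Scheme.etaleTopology.over X)} {i : ℕ} (h : ∀ y : H (top T.left) ((pb T.hom).obj F) i, y = 0)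
    (x : H ((Over.map T.hom).obj (top T.left)) F i) : x = 0 :=
  (slH_bij T.hom (top _) F i).1 ((h _).trans (h _).symm)

lemma van2 {F : Sh (Scheme.etaleTopology.over X)} {i : ℕ} {T' : Over X} (c : T' ≅ T) (h : ∀ y : H T' F i, y = 0)
    (x : H T F i) : x = 0 :=
  (pre_bij ((fr _).map c.hom) F i).1 ((h _).trans (h _).symm)

lemma van {N : ℕ} (h : CD l T.left N) {i : ℕ} (hi : N < i) (x : H T (Linf l X) i) : x = 0 :=
  van2 T (T' := (Over.map T.hom).obj (top T.left)) (Over.isoMk (Iso.refl _) (by simp))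
    (van1 T (h _ (pb_tc _ tc) i hi)) x

lemma tor (m k : ℕ) (y : H T (Zl X l m) k) : l ^ m • y = 0 := by
  have := (EZ.Zj_exact l X m).mono_f
  have h : l ^ m • 𝟙 (Zl X l m) = 0 := by
    rw [← cancel_mono (EZ.Zj l X m), Limits.zero_comp, ← EZ.Zj_w, Preadditive.nsmul_comp,
      Preadditive.comp_nsmul, Category.id_comp, Category.comp_id]
  rw [← EZ.Hmap_nsmul, h]
  change y.comp (Ext.mk₀ 0) (add_zero k) = 0
  rw [Ext.mk₀_zero, Ext.comp_zero]

end DWK

open DWK in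
theorem dwk (h1 : PDX_s) (h2 : CDG_s) (h3 : PAIR_s) (h4 : TOPQ_s) (h5 : DALG_s) (h6 : TWF_s) :
    DWK_s := by
  intro K Ω _ _ _ _ τ X f _ _ d hC hI l _ ψ hψ Q j hQ hζ hc he i
  have hC' : Chart d (pullback.fst (spc τ) f) :=
    h6.2.2 d X _ _ _ f _ (spc τ) _ (IsPullback.of_hasPullback (spc τ) f).flip inferInstance hC
  have : IrreducibleSpace (pullback (spc τ) f : Scheme.{0}) := hI
  by_cases hi : 2 * d < i
  · exact ev_of_bdd 0 (fun m => by
      rw [van (fbr f (spc τ)) (h2 l Ω _ _ d hC').1 hi m, smul_zero]) _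
  obtain ⟨k, hk⟩ := Nat.exists_eq_add_of_le' (not_lt.1 hi)
  obtain ⟨t, ht⟩ := h3 l X (fbr f (spc τ)) (2 * d) (h1 l Ω _ _ d hC')
  have hQ1 : (1 : ℝ) ≤ Q := Nat.one_le_cast.2 hQ
  let g := (Over.pullback f).map (sph (ψ : Ω →+* Ω) hψ)
  have hψ' : spc (ψ.symm : Ω →+* Ω) ≫ spc τ = spc τ := by
    conv_lhs => rw [← hψ]
    rw [← Category.assoc, ← Spec.map_comp, ← CommRingCat.ofHom_comp]
    simp
  have hg : g ≫ (Over.pullback f).map (sph (ψ.symm : Ω →+* Ω) hψ') = 𝟙 _ := by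
    rw [← Functor.map_comp, ← CategoryTheory.Functor.map_id]
    congr 1
    refine Over.OverMorphism.ext ?_
    change spc _ ≫ spc _ = 𝟙 _
    rw [← Spec.map_comp, ← CommRingCat.ofHom_comp]
    simp
  have H := h5 l _ _ _ (res g _ i) (res g _ (k - 1)) (res g _ k) j (Q ^ d) ((Q : ℝ) ^ k)
    (pow_pos hQ d) (hc i) (hc _) (hc k)
    ((he _).mono (Set.Iic_subset_Iic.2 (pow_le_pow_right₀ hQ1 (Nat.sub_le k 1)))) (he k) fun m => by
      obtain ⟨b, b1, b2⟩ := ht m i k hk.symm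
      obtain ⟨_, a, rfl, a1, a2⟩ := low (l := l) _ g m k
      refine ⟨_, _, _, _, pre (Lm _ g) _ i, res g _ k, pre (prj _ _) _ i, a,
        Hmap (EZ.Zj l X m) _ k, b.compr₂ t, tor _ m k,
        lift _ (pow_ne_zero m (Fact.out : l.Prime).ne_zero) _ i, fun x => ?_, a1,
        Hmap_res g _ k, a2, fun y => ⟨res ((Over.pullback f).map (sph _ hψ')) _ k y, ?_⟩, b1,
        fun x y => ?_⟩
      · rw [pre_pre, pre_pre, prj_lm]
      · rw [pre_pre, ← Functor.map_comp, hg, CategoryTheory.Functor.map_id, pre_id]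
      · change t (b _ _) = _ • t (b x y)
        rw [b2, ← map_nsmul]
        exact congrArg t (h4 l K Ω τ X f d hC hI _ hψ Q hζ _)
  refine (inter (he i) H).mono fun r hr => le_antisymm hr.1 ?_
  have h : ((Q ^ d : ℕ) : ℝ) ^ 2 ≤ r * (Q : ℝ) ^ k := hr.2
  rw [Nat.cast_pow, ← pow_mul, mul_comm d, hk, pow_add, mul_comm] at h
  exact le_of_mul_le_mul_right h (by positivity)

end Pool.Agent.MP_855f4c_ag.E.D

end

section

/-! h86e section D, row TOPQ: the Galois action on the top cohomology. -/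

set_option autoImplicit false
set_option backward.isDefEq.respectTransparency false

open CategoryTheory Limits Abelian Opposite AlgebraicGeometry

namespace Pool.Agent.MP_855f4c_ag.E.D

open E3 E4
open CV (Ln Lm)

namespace TOPQ

lemma Lm_comp {X : Scheme.{0}} (n : ℕ) {A B C : Over X} (g : A ⟶ B) (h : B ⟶ C) :
    Lm n (g ≫ h) = Lm n g ≫ Lm n h := by
  refine (cancel_epi (cokernel.π _)).1 ?_
  simp [Lm]

lemma linf_tor (l : ℕ) [Fact l.Prime] (X : Scheme.{0}) : Tor l (Linf l X).obj :=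
  (cst_Tc (X := X) (l := l) (AddCommGrpCat.uliftFunctor.{1}.obj (.of (QZ l))) fun m =>
    ((cof_QZ (l := l)).1 m.down).imp fun _ hn => ULift.ext _ _ hn).2

/-- The fibres of one chart, seen from its two sides, are isomorphic. -/
lemma conn {S S' X P W : Scheme.{0}} (t : S' ⟶ S) (f : X ⟶ S) (g : P ⟶ S) (u : W ⟶ X)
    (v : W ⟶ P) [IsOpenImmersion u] (w : u ≫ f = v ≫ g) [IrreducibleSpace ↥(pullback t f)]
    [Nonempty ↥(pullback u (pullback.snd t f))] :
    ConnectedSpace ↥(pullback v (pullback.snd t g)) := by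
  have h1 : IsPullback (pullback.fst u (pullback.snd t f))
      (pullback.snd u (pullback.snd t f) ≫ pullback.fst t f) (u ≫ f) t :=
    (IsPullback.of_hasPullback u (pullback.snd t f)).paste_vert
      (IsPullback.of_hasPullback t f).flip
  have h2 : IsPullback (pullback.fst v (pullback.snd t g))
      (pullback.snd v (pullback.snd t g) ≫ pullback.fst t g) (u ≫ f) t :=
    w ▸ (IsPullback.of_hasPullback v (pullback.snd t g)).paste_vert
      (IsPullback.of_hasPullback t g).flip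
  have : IrreducibleSpace ↥(pullback u (pullback.snd t f)) :=
    (pullback.snd u (pullback.snd t f)).isOpenEmbedding.irreducibleSpace
  let e := h1.isoIsPullback _ _ h2
  have : IrreducibleSpace ↥(pullback v (pullback.snd t g)) :=
    e.hom.surjective.irreducibleSpace e.hom.continuous
  infer_instance

end TOPQ

open TOPQ EZ

theorem topq (hCDG : CDG_s) (hPDT : PDT_s) (hCONN : CONN_s) (hDENSE : DENSE_s) (hIND2 : IND2_s)
    (hTWS : TWS_s) (hTWF : TWF_s) (hSLW : SLW_s) (hLNM : LNM_s) : TOPQ_s := by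
  intro l _ K Ω _ _ _ _ τ X f _ _ d hch hirr ψ hψ Q hQ x
  have hlK : (l : K) ≠ 0 := fun h => by
    have := congrArg τ h
    rw [map_natCast, map_zero] at this
    exact (Nat.cast_ne_zero.2 (Fact.out : l.Prime).ne_zero) this
  have hirr' : IrreducibleSpace ↥(pullback (spc τ) f) := hirr
  have : CompactSpace (fbr f (spc τ)).left :=
    QuasiCompact.compactSpace_of_compactSpace (pullback.fst (spc τ) f)
  have : (fbr f (spc τ)).left.IsSeparated := by
    have : IsSeparated (terminal.from (pullback (spc τ) f)) := by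
      rw [← terminal.comp_from (pullback.fst (spc τ) f)]
      infer_instance
    exact ⟨this⟩
  obtain ⟨m, hm⟩ := H_tor (fbr f (spc τ)) (linf_tor l X) _ x
  obtain ⟨a, rfl⟩ : ∃ a, Hmap (Zj l X m) (fbr f (spc τ)) (2 * d) a = x :=
    Ext.covariant_sequence_exact₂ _ (Zj_exact l X m) x ((Hmap_nsmul _ _ _ _ x).trans hm)
  obtain ⟨e⟩ := (hLNM X (l ^ m)).2.1
  obtain ⟨y, rfl⟩ : ∃ y, Hmap e.hom (fbr f (spc τ)) (2 * d) y = a :=
    ⟨Hmap e.inv _ _ a, by rw [← Hmap_comp, e.inv_hom_id, Hmap_id]⟩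
  have hn : Lp l (l ^ m) := ⟨m, rfl⟩
  obtain ⟨z⟩ : Nonempty ↥(pullback (spc τ) f) := inferInstance
  obtain ⟨W, P, u, g, v, hW, hu, hg, hv, w, p, hp⟩ := hch (pullback.snd (spc τ) f z)
  obtain ⟨hg1, hg2, -, hg3⟩ := hTWF.1 d _ _ g hg
  have hne : Nonempty ↥(pullback (𝟙 W ≫ u) (pullback.snd (spc τ) f)) := by
    obtain ⟨c, -⟩ := Scheme.Pullback.exists_preimage_pullback (f := 𝟙 W ≫ u)
      (g := pullback.snd (spc τ) f) p z (by simpa using hp)
    exact ⟨c⟩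
  obtain ⟨h1, h2⟩ := hCDG l Ω _ (pullback.fst (spc τ) f) d
    (hTWF.2.2 d _ _ _ _ f _ (spc τ) _ (IsPullback.of_hasPullback (spc τ) f).flip inferInstance hch)
  -- surjectivity on the side of `X`
  have hA : Function.Surjective (Hmap (Lm (l ^ m) (tot ((Over.map u).obj (top W))))
      (fbr f (spc τ)) (2 * d)) := by
    obtain ⟨s, hs⟩ := hSLW X (l ^ m) (2 * d) (fbr f (spc τ))
    have h3 := (hDENSE l _ (2 * d) _ hn h1 h2 _ _
      ((Over.pullback (fbr f (spc τ)).hom).map (tot ((Over.map u).obj (top W))))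
      (inferInstanceAs (Etale (pullback.snd (𝟙 W ≫ u) (pullback.snd (spc τ) f))))
      (inferInstanceAs (Etale (pullback.snd (𝟙 X) (pullback.snd (spc τ) f))))
      ((inv (pullback.snd (𝟙 X) (pullback.snd (spc τ) f))).surjective.irreducibleSpace
        (inv (pullback.snd (𝟙 X) (pullback.snd (spc τ) f))).continuous) hne).1
    intro b
    obtain ⟨c, hc⟩ := h3 (s _ b)
    obtain ⟨c, rfl⟩ := (s _).surjective c
    exact ⟨c, (s _).injective ((hs _ _ _ c).trans hc)⟩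
  -- injectivity on the side of the tower
  have hB : Function.Injective (Hmap (Lm (l ^ m) (tot ((Over.map v).obj (top W))))
      (fbr g (spc τ)) (2 * d)) := by
    obtain ⟨s, hs⟩ := hSLW P (l ^ m) (2 * d) (fbr g (spc τ))
    have h3 := hCONN l _ (2 * d) _ hn (hPDT l Ω d _ (pullback.fst (spc τ) g)
      (hg3 _ _ _ (spc τ) _ (IsPullback.of_hasPullback (spc τ) g).flip))
      ((Over.pullback (fbr g (spc τ)).hom).obj ((Over.map v).obj (top W)))
      (inferInstanceAs (Etale (pullback.snd (𝟙 W ≫ v) (pullback.snd (spc τ) g))))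
      (conn (spc τ) f g (𝟙 W ≫ u) (𝟙 W ≫ v) (by simpa using w))
    have h4 : tot ((Over.pullback (fbr g (spc τ)).hom).obj ((Over.map v).obj (top W))) =
        (Over.pullback (fbr g (spc τ)).hom).map (tot ((Over.map v).obj (top W))) ≫ tot _ :=
      Over.OverMorphism.ext (Over.w ((Over.pullback (fbr g (spc τ)).hom).map
        (tot ((Over.map v).obj (top W))))).symm
    intro b c h
    refine (s _).injective (h3 ?_)
    rw [h4, Lm_comp, Hmap_comp, Hmap_comp]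
    exact congrArg _ ((hs _ _ _ b).symm.trans ((congrArg _ h).trans (hs _ _ _ c)))
  obtain ⟨y, rfl⟩ := hA y
  obtain ⟨i, -, hi⟩ := hIND2 l K X P W f g u v (l ^ m) (2 * d) hn hlK w
  have key : res ((Over.pullback f).map (sph ψ hψ)) _ (2 * d) y = Q ^ d • y := by
    refine (i (top W) ⟨inferInstanceAs (Etale (𝟙 W)), hW⟩ (Over.mk (spc τ))).injective (hB ?_)
    rw [hi, Hmap_res, map_nsmul, map_nsmul]
    exact (hTWS l Ω d _ P _ g (spc τ) hn hg (Linv.spec (isUnit_iff_ne_zero.2 hlK))).2 ψ hψ Q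
      (fun ζ h => hQ ζ m h) _
  have up : ∀ {F G : Sh (Scheme.etaleTopology.over X)} (φ : F ⟶ G) (b : H (fbr f (spc τ)) F (2 * d)),
      Hact f F (2 * d) ψ hψ b = Q ^ d • b →
        Hact f G (2 * d) ψ hψ (Hmap φ _ _ b) = Q ^ d • Hmap φ _ _ b := fun φ b h =>
    (Hmap_res _ φ _ b).symm.trans ((congrArg _ h).trans (map_nsmul _ _ _))
  exact up _ _ (up _ _ (up _ _ key))

end Pool.Agent.MP_855f4c_ag.E.D

end

section

/-! Section Z, pure algebra: purity from two bounds, powers of Frobenius lifts. -/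

set_option autoImplicit false

namespace Pool.Agent.MP_855f4c_ag.EZ

open Polynomial CategoryTheory CommAlgCat LP

lemma ze_ms {t : ℝ} (s : Multiset ℂ) (h : ∀ β ∈ s, ∀ σ : ℂ →+* ℂ, ‖σ β‖ ^ 2 = t) :
    ∃ c : ℚ[X], c ≠ 0 ∧ (∀ z : ℂ, aeval z c = 0 → ‖z‖ ^ 2 = t) ∧
      (s.map fun β => X - C β).prod ∣ c.map (algebraMap ℚ ℂ) := by
  induction s using Multiset.induction_on with
  | empty => exact ⟨1, one_ne_zero, fun z hz => by simp at hz, by simp⟩
  | cons β s ih =>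
    obtain ⟨c, c0, c1, c2⟩ := ih fun b hb => h b (Multiset.mem_cons_of_mem hb)
    obtain ⟨P, p0, p1, p2⟩ := Wt.weil_of (h β (Multiset.mem_cons_self _ _))
    refine ⟨P * c, mul_ne_zero p0 c0, fun z hz => ?_, ?_⟩
    · rw [map_mul, mul_eq_zero] at hz
      exact hz.elim (p2 z) (c1 z)
    · rw [Multiset.map_cons, Multiset.prod_cons, Polynomial.map_mul]
      exact mul_dvd_mul (dvd_iff_isRoot.2 (by rw [IsRoot, eval_map_algebraMap, p1])) c2

/-- ROW Z4a (file E/ZE.lean, imports WD.Glue). Upper and lower bounds give purity. -/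
theorem zpure {l : ℕ} [Fact l.Prime] {H : Type*} [AddCommGroup H] [Module ℚ_[l] H]
    (φ : Module.End ℚ_[l] H) (t : ℝ)
    (h1 : ∀ j : ℚ_[l] →+* ℂ, ∃ c : ℚ_[l][X], c ≠ 0 ∧ aeval φ c = 0 ∧
      ∀ z : ℂ, (c.map j).IsRoot z → ‖z‖ ^ 2 ≤ t)
    (h2 : ∀ j : ℚ_[l] →+* ℂ, ∃ c : ℚ_[l][X], c ≠ 0 ∧ aeval φ c = 0 ∧
      ∀ z : ℂ, (c.map j).IsRoot z → t ≤ ‖z‖ ^ 2) :
    ∃ c : ℚ[X], c ≠ 0 ∧ (∀ z : ℂ, aeval z c = 0 → ‖z‖ ^ 2 = t) ∧
      aeval φ (c.map (algebraMap ℚ ℚ_[l])) = 0 := by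
  obtain ⟨j0⟩ := Wt.exists_emb l
  have hi : IsIntegral ℚ_[l] φ := by
    obtain ⟨c, c0, c1, -⟩ := h1 j0
    exact IsAlgebraic.isIntegral ⟨c, c0, c1⟩
  have hm := minpoly.monic hi
  have hr : ∀ (j : ℚ_[l] →+* ℂ) (z : ℂ), ((minpoly ℚ_[l] φ).map j).IsRoot z → ‖z‖ ^ 2 = t := by
    intro j z hz
    obtain ⟨c, -, c1, c2⟩ := h1 j
    obtain ⟨d, -, d1, d2⟩ := h2 j
    exact le_antisymm (c2 z (hz.dvd (Polynomial.map_dvd j (minpoly.dvd _ _ c1))))
      (d2 z (hz.dvd (Polynomial.map_dvd j (minpoly.dvd _ _ d1))))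
  obtain ⟨c, c0, c1, c2⟩ := ze_ms (t := t) ((minpoly ℚ_[l] φ).map j0).roots fun β hβ σ => by
    refine hr (σ.comp j0) _ ?_
    rw [← Polynomial.map_map]
    exact (isRoot_of_mem_roots hβ).map
  refine ⟨c, c0, c1, ?_⟩
  rw [← (IsAlgClosed.splits _).eq_prod_roots_of_monic (hm.map j0)] at c2
  have e : algebraMap ℚ ℂ = j0.comp (algebraMap ℚ ℚ_[l]) := Subsingleton.elim _ _
  rw [e, ← Polynomial.map_map, map_dvd_map' j0] at c2
  obtain ⟨g, hg⟩ := c2
  rw [hg, map_mul, minpoly.aeval, zero_mul]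

lemma ze_coe {K : Type} [Field K] (φ : K ≃+* K) (m : ℕ) (z : K) :
    (φ ^ m) z = (φ.toRingHom)^[m] z := by
  induction m with
  | zero => rfl
  | succ m ih => rw [pow_succ', Function.iterate_succ_apply', ← ih]; rfl

lemma ze_small {p : ℕ} [Fact p.Prime] {w : PadicAlgCl p} (hw : ‖w‖ < 1) : Small ℤ_[p] w := by
  have hp : ‖(p : ℤ_[p])‖ < 1 := Padic.norm_p_lt_one
  have h0 : (p : ℤ_[p]) ≠ 0 := Nat.cast_ne_zero.2 (Fact.out : p.Prime).ne_zero
  have hn : 0 < ‖algebraMap ℤ_[p] (PadicAlgCl p) p‖ := by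
    rw [f0_norm_alg]; exact norm_pos_iff.2 h0
  obtain ⟨n, hn'⟩ := exists_pow_lt_of_lt_one hn hw
  refine ⟨n, p, w ^ n / algebraMap ℤ_[p] (PadicAlgCl p) p, PadicInt.not_isUnit_iff.2 hp,
    (norm_le_iff _).1 ?_, (mul_div_cancel₀ _ (norm_pos_iff.1 hn)).symm⟩
  rw [norm_div, norm_pow, div_le_one hn]
  exact hn'.le

/-- ROW Z4b (file E/ZE.lean). Powers of a Frobenius lift. -/
theorem frob_pow {p : ℕ} [Fact p.Prime] {Q : ℕ} (φ : PadicAlgCl p ≃+* PadicAlgCl p)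
    (h : Frob ℤ_[p] Q φ) (m : ℕ) : Frob ℤ_[p] (Q ^ m) (φ ^ m :) := by
  refine ⟨fun o => ?_, fun z hz => ze_small ?_⟩
  · rw [ze_coe]
    exact Function.iterate_fixed (h.1 o) m
  · rw [ze_coe]
    exact Fr0.iterate φ.toRingHom h.1 h.fr0 m z ((norm_le_iff z).2 hz)

/-- ROW Z4c (file E/ZE.lean). Powers of a tame generator. -/
theorem move_pow {p l : ℕ} [Fact p.Prime] [Fact l.Prime] (hlp : l ≠ p)
    (u : PadicAlgCl p ≃+* PadicAlgCl p) (hu : Frob ℤ_[p] 1 u) (m : ℕ) (hm : m ≠ 0)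
    (h : ∃ (n : ℕ) (r : PadicAlgCl p) (o : ℤ_[p]), r ^ l ^ n = algebraMap _ _ o ∧ u r ≠ r) :
    ∃ (n : ℕ) (r : PadicAlgCl p) (o : ℤ_[p]), r ^ l ^ n = algebraMap _ _ o ∧ (u ^ m) r ≠ r := by
  have h0 : (p : ℤ_[p]) ≠ 0 := Nat.cast_ne_zero.2 (Fact.out : p.Prime).ne_zero
  obtain ⟨n, r, h1, h2⟩ := mv l Fact.out hlp u.toRingHom hu.1 hu.fr0 m hm
    (algebraMap ℤ_[p] (PadicAlgCl p) p)
    (norm_pos_iff.1 (by rw [f0_norm_alg]; exact norm_pos_iff.2 h0))
    (by rw [f0_norm_alg]; exact Padic.norm_p_lt_one) (Function.iterate_fixed (hu.1 _) m) h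
  exact ⟨n, r, p, h1, by rwa [ze_coe]⟩

/-- ROW Z4d (file E/ZE.lean). A power fixes a finitely generated ring. -/
theorem fix_fg {p : ℕ} [Fact p.Prime] {B : Type} [CommRing B] [Algebra.FiniteType ℤ B]
    (b : B →+* PadicAlgCl p) (φ u : PadicAlgCl p ≃+* PadicAlgCl p)
    (hφ : ∀ o : ℤ_[p], φ (algebraMap _ _ o) = algebraMap _ _ o)
    (hu : ∀ o : ℤ_[p], u (algebraMap _ _ o) = algebraMap _ _ o) :
    ∃ m : ℕ, m ≠ 0 ∧ ∀ z, (φ ^ m) (b z) = b z ∧ (u ^ m) (b z) = b z := by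
  obtain ⟨s, hs⟩ := Algebra.FiniteType.out (R := ℤ) (A := B)
  choose a a0 a1 using f0_per φ.toRingHom hφ
  choose c c0 c1 using f0_per u.toRingHom hu
  have key : ∀ (g : PadicAlgCl p ≃+* PadicAlgCl p) (e : PadicAlgCl p → ℕ) (m : ℕ),
      (∀ z, (g.toRingHom)^[e z] z = z) → (∀ z ∈ s, e (b z) ∣ m) → ∀ z, (g ^ m) (b z) = b z := by
    intro g e m he hd z
    have hz : z ∈ Algebra.adjoin ℤ (s : Set B) := hs ▸ Algebra.mem_top
    induction hz using Algebra.adjoin_induction with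
    | mem x hx =>
      obtain ⟨k, rfl⟩ := hd x hx
      rw [ze_coe, Function.iterate_mul]
      exact Function.iterate_fixed (he _) k
    | algebraMap r => simp
    | add x y _ _ hx hy => rw [map_add, map_add, hx, hy]
    | mul x y _ _ hx hy => rw [map_mul, map_mul, hx, hy]
  refine ⟨∏ z ∈ s, a (b z) * c (b z),
    Finset.prod_ne_zero_iff.2 fun z _ => mul_ne_zero (a0 _) (c0 _), fun z => ⟨?_, ?_⟩⟩
  · exact key φ a _ a1 (fun z hz => (dvd_mul_right _ _).trans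
      (Finset.dvd_prod_of_mem (fun z => a (b z) * c (b z)) hz)) z
  · exact key u c _ c1 (fun z hz => (dvd_mul_left _ _).trans
      (Finset.dvd_prod_of_mem (fun z => a (b z) * c (b z)) hz)) z

end Pool.Agent.MP_855f4c_ag.EZ

end

section

/-! Section Z, pure algebra: the matrix form of `lp_pure`. -/

set_option autoImplicit false

namespace Pool.Agent.MP_855f4c_ag.EZ

open Polynomial CategoryTheory CommAlgCat LP

lemma zg_aeval {F H H' : Type} [Field F] [AddCommGroup H] [Module F H] [AddCommGroup H']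
    [Module F H'] (E : H ≃ₗ[F] H') {φ : Module.End F H} {φ' : Module.End F H'}
    (h : ∀ v, E (φ v) = φ' (E v)) (c : F[X]) (hc : aeval φ c = 0) : aeval φ' c = 0 := by
  have e : φ' = E.conjAlgEquiv F φ := LinearMap.ext fun w => by
    rw [← E.apply_symm_apply w, ← h]
    simp [LinearEquiv.conjAlgEquiv_apply]
  rw [e, aeval_algHom_apply, hc, map_zero]

lemma zg_lift {B P Ω : Type} [CommRing B] [CommRing P] [Field Ω] [Algebra B Ω] [Algebra B P]
    [Algebra P Ω] [IsScalarTower B P Ω] [IsIntegralClosure P B Ω] [IsDomain B]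
    [IsIntegrallyClosed B] [IsAlgClosed Ω] [FaithfulSMul B Ω] [Algebra.IsAlgebraic B Ω]
    {k : Type} [Field k] [Algebra B k] (b : P →ₐ[B] k) (ψ : k ≃ₐ[B] k) :
    ∃ g : Ω ≃ₐ[B] Ω, ∀ z w : P, algebraMap P Ω w = g (algebraMap P Ω z) → b w = ψ (b z) :=
  E65.trans (B := B) (b : P →+* k) ((ψ : k →+* k).comp (b : P →+* k)) fun r => by simp

/-- ROW Z6 (file E/ZG.lean, imports E.ZD, E.ZE). The matrix form of `lp_pure`. -/
theorem zcore (A : Type) [CommRing A] [Algebra.FiniteType ℤ A] :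
    ∃ M : ℕ, M ≠ 0 ∧ ∀ (p l : ℕ) [Fact p.Prime] [Fact l.Prime], ¬ p ∣ M → l ≠ p →
      ∀ (B P Ω : Type) [CommRing B] [CommRing P] [Field Ω] [Algebra B Ω] [Algebra B P]
        [Algebra P Ω] [IsScalarTower B P Ω] [IsIntegralClosure P B Ω] [IsDomain B]
        [IsIntegrallyClosed B] [IsAlgClosed Ω] [FaithfulSMul B Ω] [Algebra.IsAlgebraic B Ω]
        [CharZero Ω] [Algebra A B] [IsLocalization.Away (l : A) B] (d : ℕ)
        (ρ : (Ω ≃ₐ[B] Ω) →* Matrix (Fin d) (Fin d) ℤ_[l]) (i : ℤ),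
        (∀ n : ℕ, ∃ E : Finset Ω, ∀ g : Ω ≃ₐ[B] Ω, (∀ e ∈ E, g e = e) →
          ∀ a b, (l : ℤ_[l]) ^ n ∣ (ρ g - 1) a b) →
        (∀ a : Ideal P, a.IsMaximal → ∀ g : Ω ≃ₐ[B] Ω,
          (∀ z w : P, algebraMap P Ω w = g (algebraMap P Ω z) → w - z ∈ a) → ρ g = 1) →
        (∀ (b : P →+* AlgebraicClosure (ZMod p))
          (ψ : AlgebraicClosure (ZMod p) →+* AlgebraicClosure (ZMod p)) (g : Ω ≃ₐ[B] Ω) (Q : ℕ),
          1 < Q → (∀ z, ψ z ^ Q = z) →
          (∀ z w : P, algebraMap P Ω w = g (algebraMap P Ω z) → b w = ψ (b z)) →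
          ∃ c : ℚ[X], c ≠ 0 ∧ (∀ z : ℂ, aeval z c = 0 → ‖z‖ ^ 2 = (Q : ℝ) ^ i) ∧
            aeval (Matrix.toLin' ((ρ g).map (algebraMap ℤ_[l] ℚ_[l])))
              (c.map (algebraMap ℚ ℚ_[l])) = 0) →
        ∀ (b : P →+* PadicAlgCl p) (φ u : PadicAlgCl p ≃+* PadicAlgCl p) (Q : ℕ), 1 < Q →
          Frob ℤ_[p] Q φ → Frob ℤ_[p] 1 u →
          (∃ (n : ℕ) (r : PadicAlgCl p) (o : ℤ_[p]), r ^ l ^ n = algebraMap _ _ o ∧ u r ≠ r) →
          ∃ m : ℕ, m ≠ 0 ∧ ∃ g h : Ω ≃ₐ[B] Ω,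
            (∀ z w : P, algebraMap P Ω w = g (algebraMap P Ω z) → b w = (φ ^ m) (b z)) ∧
            (∀ z w : P, algebraMap P Ω w = h (algebraMap P Ω z) → b w = (u ^ m) (b z)) ∧
            MwPure (Q ^ m) i (Matrix.toLin' ((ρ g).map (algebraMap ℤ_[l] ℚ_[l])))
              (Matrix.toLin' ((ρ h).map (algebraMap ℤ_[l] ℚ_[l]))) := by
  obtain ⟨M, hM, h⟩ := lp_pure A
  refine ⟨M, hM, fun p l _ _ hp hlp B P Ω _ _ _ _ _ _ _ _ _ _ _ _ _ _ _ _ d ρ i hc hI hP b φ u Q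
    hQ hφ hu hr => ?_⟩
  obtain ⟨L, hL, hE⟩ := exists_locSys ρ hc hI
  have hinj : Function.Injective (algebraMap B P) := Function.Injective.of_comp
    (f := algebraMap P Ω) (by
      rw [← RingHom.coe_comp, ← IsScalarTower.algebraMap_eq]
      exact FaithfulSMul.algebraMap_injective B Ω)
  have hint : Algebra.IsIntegral B P := IsIntegralClosure.isIntegral_algebra B Ω
  have pure : ∀ [Algebra B (AlgebraicClosure (ZMod p))],
      Pure L i (AlgebraicClosure (ZMod p)) := by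
    intro _ ψ Q' hQ' hψ
    obtain ⟨y, hy⟩ := ext_int (algebraMap B P) (algebraMap_isIntegral_iff.2 hint)
      (algebraMap B (AlgebraicClosure (ZMod p))) (by
        rw [(RingHom.injective_iff_ker_eq_bot _).1 hinj]; exact bot_le)
    let y' : P →ₐ[B] AlgebraicClosure (ZMod p) := ⟨y, hy⟩
    obtain ⟨E, hE⟩ := hE _ y'
    obtain ⟨g, hg⟩ := zg_lift (Ω := Ω) y' ψ
    obtain ⟨c, c0, c1, c2⟩ := hP y ψ g Q' hQ' hψ hg
    exact ⟨c, c0, c1, zg_aeval E (hE g ψ hg) _ c2⟩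
  let _ : Algebra B (PadicAlgCl p) := (b.comp (algebraMap B P)).toAlgebra
  have : Algebra.FiniteType A B :=
    IsLocalization.finiteType_of_monoid_fg (Submonoid.powers (l : A)) B
  have : Algebra.FiniteType ℤ B := Algebra.FiniteType.trans (S := A) inferInstance inferInstance
  obtain ⟨m, hm, hfix⟩ := fix_fg (b.comp (algebraMap B P)) φ u hφ.1 hu.1
  let φ' : PadicAlgCl p ≃ₐ[B] PadicAlgCl p := { (φ ^ m :) with commutes' := fun r => (hfix r).1 }
  let u' : PadicAlgCl p ≃ₐ[B] PadicAlgCl p := { (u ^ m :) with commutes' := fun r => (hfix r).2 }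
  let b' : P →ₐ[B] PadicAlgCl p := ⟨b, fun _ => rfl⟩
  obtain ⟨E, hE⟩ := hE _ b'
  obtain ⟨g, hg⟩ := zg_lift (Ω := Ω) b' φ'
  obtain ⟨g', hg'⟩ := zg_lift (Ω := Ω) b' u'
  have hu' := frob_pow u hu m
  rw [one_pow] at hu'
  exact ⟨m, hm, g, g', hg, hg', pa_tr E (hE g φ' hg) (hE g' u' hg')
    (h p l hp hlp B L i hL pure φ' u' (Q ^ m) (Nat.one_lt_pow hm hQ) (frob_pow φ hφ m) hu'
      (move_pow hlp u hu m hm hr))⟩

end Pool.Agent.MP_855f4c_ag.EZ

end

section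

/-! Section Z: transport of weights and of mw purity between stalks. -/

set_option autoImplicit false
set_option backward.isDefEq.respectTransparency false

namespace Pool.Agent.MP_855f4c_ag.EZ

open E E4 CategoryTheory Limits Opposite AlgebraicGeometry Polynomial

variable {l : ℕ} [Fact l.Prime]

lemma aeval_tr {F H H' : Type*} [Field F] [AddCommGroup H] [Module F H] [AddCommGroup H']
    [Module F H'] (E : H ≃ₗ[F] H') {φ : Module.End F H} {φ' : Module.End F H'}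
    (h : ∀ v, E (φ v) = φ' (E v)) (c : F[X]) (hc : aeval φ' c = 0) : aeval φ c = 0 := by
  have e : φ = E.symm.conjAlgEquiv F φ' := LinearMap.ext fun w => by
    simp [LinearEquiv.conjAlgEquiv_apply, ← h]
  rw [e, aeval_algHom_apply, hc, map_zero]

section
variable {M N : Type 1} [AddCommGroup M] [AddCommGroup N]

lemma ev_tr (e : M ≃+ N) {φ : M →+ M} {φ' : N →+ N} (h : ∀ m, e (φ m) = φ' (e m))
    {j : ℚ_[l] →+* ℂ} {S : Set ℝ} (H : Ev j S φ') : Ev j S φ := by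
  obtain ⟨P, h0, h1, h2⟩ := H
  exact ⟨P, h0, aeval_tr (Ve l e) (fun v => V.ext fun x => h _) P h1, h2⟩

lemma ev_zero (h : ∀ m : M, m = 0) (φ : M →+ M) (j : ℚ_[l] →+* ℂ) (S : Set ℝ) : Ev j S φ :=
  ⟨1, one_ne_zero, LinearMap.ext fun _ => V.ext fun _ => (h _).trans (h _).symm,
    fun z hz => by simp at hz⟩

omit [Fact l.Prime] in
lemma cof_tr (e : M ≃+ N) (H : Cof l N) : Cof l M :=
  ⟨fun m => (H.1 (e m)).imp fun n hn => e.injective (by rw [map_nsmul, hn, map_zero]),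
    Set.Finite.of_finite_image (f := e) (H.2.subset (by
      rintro _ ⟨m, hm, rfl⟩
      exact (map_nsmul e l m).symm.trans ((congrArg e hm).trans (map_zero e))))
      e.injective.injOn⟩

omit [Fact l.Prime] in
lemma cof_zero (h : ∀ m : M, m = 0) : Cof l M :=
  ⟨fun _ => ⟨0, h _⟩, (Set.finite_singleton 0).subset fun m _ => h m⟩

end

lemma mw_zero {W : Type 1} [AddCommGroup W] [Module ℚ W] (h : ∀ w : W, w = 0) (q : ℕ) (i : ℤ)
    (φ u : Module.End ℚ W) : Mw q i φ u :=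
  ⟨1, one_pos, fun _ => ⊤, monotone_const, ⟨0, eq_bot_iff.2 fun w _ => h w⟩, ⟨0, rfl⟩,
    fun _ _ _ => trivial, fun _ => ⟨fun _ _ _ => trivial, fun _ _ => ⟨0, trivial, trivial⟩⟩,
    fun _ => ⟨fun _ _ => trivial, 1, one_ne_zero, fun z hz => by simp at hz,
      fun _ _ => trivial⟩⟩

lemma cl_lcf {X : Scheme.{0}} {F : Sh (Scheme.etaleTopology.over X)} (h : Cl l F) : Lcf l F := by
  cases h with
  | rat h => exact h.1
  | ext _ _ _ _ h => exact h

section stk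
variable {X Y : Scheme.{0}} (f : X ⟶ Y) (G : Sh (Scheme.etaleTopology.over X)) (q : ℕ)

/-- The stalk of a higher direct image at a geometric point. -/
noncomputable def stk {k : Type} [Field k] [IsAlgClosed k] (t : Spec (.of k) ⟶ Y) :
    H (fbr f t) G q ≃+ sec ((Rq f q).obj G) (Over.mk t) :=
  AddEquiv.ofBijective
    ((toSheafify (Scheme.etaleTopology.over Y) ((Over.pullback f).op ⋙ HP G q)).app (op (Over.mk t))).hom
    ⟨shl_inj t _, shl_surj t _⟩

lemma stk_act {k : Type} [Field k] [IsAlgClosed k] {t : Spec (.of k) ⟶ Y} (ψ : k →+* k)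
    (h : spc ψ ≫ t = t) (x : H (fbr f t) G q) :
    stk f G q t (Hact f G q ψ h x) = rsec (sph ψ h) _ (stk f G q t x) :=
  map_nat (toSheafify (Scheme.etaleTopology.over Y) ((Over.pullback f).op ⋙ HP G q)) (sph ψ h) x

end stk

section pow
variable {Y : Scheme.{0}} {k : Type} [CommRing k] {t : Spec (.of k) ⟶ Y} (ψ : k ≃+* k)

lemma spc_pow (h : spc (ψ : k →+* k) ≫ t = t) (m : ℕ) :
    spc ((ψ ^ m : k ≃+* k) : k →+* k) ≫ t = t := by
  induction m with
  | zero =>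
    change Spec.map (𝟙 _) ≫ t = t
    simp
  | succ m ih =>
    change Spec.map (CommRingCat.ofHom (ψ : k →+* k) ≫
      CommRingCat.ofHom ((ψ ^ m : k ≃+* k) : k →+* k)) ≫ t = t
    rw [Spec.map_comp, Category.assoc, h, ih]

lemma rsec_pow (h : spc (ψ : k →+* k) ≫ t = t) (F : Sh (Scheme.etaleTopology.over Y)) (m : ℕ) :
    Vm l (rsec (sph _ (spc_pow ψ h m)) F) = Vm l (rsec (sph _ h) F) ^ m := by
  induction m with
  | zero =>
    have : sph _ (spc_pow ψ h 0) = 𝟙 _ := Over.OverMorphism.ext (Spec.map_id _)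
    rw [this]
    exact LinearMap.ext fun v => V.ext fun x => res_id _ _
  | succ m ih =>
    have : sph _ (spc_pow ψ h (m + 1)) = sph _ (spc_pow ψ h m) ≫ sph _ h :=
      Over.OverMorphism.ext (Spec.map_comp (CommRingCat.ofHom (ψ : k →+* k))
        (CommRingCat.ofHom ((ψ ^ m : k ≃+* k) : k →+* k)))
    rw [this, pow_succ, ← ih]
    exact LinearMap.ext fun v => V.ext fun x => (res_res _ _ _ _).symm

end pow

lemma frob_alg {p : ℕ} [Fact p.Prime] (ψ : AlgebraicClosure (ZMod p) →+* AlgebraicClosure (ZMod p))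
    {Q : ℕ} (h : ∀ z, ψ z ^ Q = z) (z : AlgebraicClosure (ZMod p)) :
    ∃ n, 0 < n ∧ z ^ Q ^ n = z := by
  have hz : IsIntegral (ZMod p) z := (Algebra.IsAlgebraic.isAlgebraic z).isIntegral
  let ψ' : AlgebraicClosure (ZMod p) →ₐ[ZMod p] AlgebraicClosure (ZMod p) :=
    ⟨ψ, fun r => DFunLike.congr_fun (RingHom.ext_zmod (ψ.comp (algebraMap _ _)) (algebraMap _ _)) r⟩
  have hm : ∀ k : ℕ, ψ^[k] z ∈ (minpoly (ZMod p) z).rootSet (AlgebraicClosure (ZMod p)) := by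
    intro k
    rw [Polynomial.mem_rootSet]
    refine ⟨minpoly.ne_zero hz, ?_⟩
    induction k with
    | zero => exact minpoly.aeval _ _
    | succ k ih =>
      rw [Function.iterate_succ_apply']
      have := Polynomial.aeval_algHom_apply ψ' (ψ^[k] z) (minpoly (ZMod p) z)
      rw [ih, map_zero] at this
      exact this
  obtain ⟨a, b, hab, e⟩ := Set.Finite.exists_lt_map_eq_of_forall_mem hm
    (Polynomial.rootSet_finite _ _)
  obtain ⟨c, rfl⟩ := Nat.exists_eq_add_of_lt hab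
  rw [add_assoc, Function.iterate_add_apply] at e
  have e1 := (ψ.injective.iterate a) e
  have e2 : ∀ n, ψ^[n] z ^ Q ^ n = z := fun n => by
    induction n with
    | zero => simp
    | succ n ih => rw [Function.iterate_succ_apply', pow_succ', pow_mul, h, ih]
  exact ⟨c + 1, c.succ_pos, by simpa only [← e1] using e2 (c + 1)⟩

lemma root_eq {P k : Type} [CommRing P] [IsDomain P] [Field k] (b : P →+* k) {n : ℕ}
    (hn : (n : k) ≠ 0) {x y : P} (hx : x ^ n = 1) (hy : y ^ n = 1) (h : b x = b y) : x = y := by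
  by_contra hne
  have h1 := Commute.geom_sum₂_mul (Commute.all x y) n
  rw [hx, hy, sub_self, mul_eq_zero, sub_eq_zero, or_iff_left hne] at h1
  have h2 := congrArg b h1
  have h0 : b y ≠ 0 := fun h0 => by
    have := congrArg b hy
    rw [map_pow, h0, map_one, zero_pow (by rintro rfl; simp at hn)] at this
    exact zero_ne_one this
  simp only [map_sum, map_mul, map_pow, h, map_zero] at h2
  rw [Finset.sum_congr rfl fun i hi => by
    rw [← pow_add, show i + (n - 1 - i) = n - 1 by have := Finset.mem_range.1 hi; omega]] at h2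
  simp [hn, h0] at h2

section normal
variable {Y : Scheme.{0}} {B : Type} [CommRing B] (u : Spec (.of B) ⟶ Y) {Ω : Type} [Field Ω]
  [IsAlgClosed Ω] [Algebra B Ω] [FaithfulSMul B Ω] [Algebra.IsAlgebraic B Ω] {G : Sh (Scheme.etaleTopology.over Y)}
  (hG : Cc l G) (hL : Lcf l ((pb u).obj G)) (hl : IsUnit (l : B))

omit [Fact l.Prime] in
include hL in
lemma lis_ob : Lis l G.obj (ob u B) :=
  ((Lis.map_iff u G.obj (top _)).1 hL.2.1).mono (Over.homMk (𝟙 _) (by simp))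

omit [Fact l.Prime] in
/-- The specialisation map attached to a point of the integral closure. -/
lemma spec_of {k : Type} [Field k] [IsAlgClosed k] (b : integralClosure B Ω →+* k)
    (t : Spec (.of k) ⟶ Y) (ht : spc (b.comp (algebraMap B _)) ≫ u = t) (hG : Cc l G)
    (hL : Lcf l ((pb u).obj G)) (hl : IsUnit (l : B)) :
    ∃ e : sec G (ob u Ω) ≃+ sec G (Over.mk t), ∀ (g : Ω ≃ₐ[B] Ω) (ψ : k →+* k)
      (h : spc ψ ≫ t = t), (∀ z w : integralClosure B Ω, (w : Ω) = g z → b w = ψ (b z)) →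
      ∀ m, e (gal u Ω G.obj g m) = rsec (sph ψ h) G (e m) := by
  subst ht
  let _ : Algebra B k := (b.comp (algebraMap B _)).toAlgebra
  refine ⟨spec u hG (lis_ob u hL) hl ⟨b, fun _ => rfl⟩, fun g ψ h hg m => ?_⟩
  exact spec_gal u hG (lis_ob u hL) hl ⟨b, fun _ => rfl⟩ ⟨b, fun _ => rfl⟩
    ⟨ψ, fun r => (hg _ _ (g.commutes r).symm).symm⟩ g hg m

include hG hL hl in
/-- Upper bounds at the generic point. -/
lemma up {w : ℕ} (hW : Wt l w ((pb u).obj G)) {p : ℕ} [Fact p.Prime]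
    (b : integralClosure B Ω →+* AlgebraicClosure (ZMod p))
    (ψ : AlgebraicClosure (ZMod p) →+* AlgebraicClosure (ZMod p)) (g : Ω ≃ₐ[B] Ω) {Q : ℕ}
    (hQ : 1 < Q) (hψ : ∀ z, ψ z ^ Q = z)
    (hg : ∀ z w : integralClosure B Ω, (w : Ω) = g z → b w = ψ (b z)) (j : ℚ_[l] →+* ℂ) :
    Ev j (Set.Iic ((Q : ℝ) ^ w)) (gal u Ω G.obj g) := by
  have hfr : Fr l (spc (b.comp (algebraMap B _))) Q ψ :=
    ⟨by simpa using (hl.map (b.comp (algebraMap B _))).ne_zero, hQ, hψ, frob_alg ψ hψ, by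
      rw [← Spec.map_comp, ← CommRingCat.ofHom_comp]
      congr 2
      exact RingHom.ext fun r => (hg _ _ (g.commutes r).symm).symm⟩
  obtain ⟨e, he⟩ := spec_of u b _ rfl hG hL hl
  exact ev_tr e (he g ψ (by rw [← Category.assoc, hfr.fix]) hg) (hW _ _ Q ψ hfr j)

include hG hL hl in
/-- The Galois representation on the generic stalk. -/
lemma rep [CharZero Ω] : ∃ (d : ℕ) (E : (Fin d → ℚ_[l]) ≃ₗ[ℚ_[l]] V l (sec G (ob u Ω)))
    (ρ : (Ω ≃ₐ[B] Ω) →* Matrix (Fin d) (Fin d) ℤ_[l]),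
    (∀ g v, E (Matrix.toLin' ((ρ g).map (algebraMap ℤ_[l] ℚ_[l])) v) =
      Vm l (gal u Ω G.obj g) (E v)) ∧
    (∀ n : ℕ, ∃ S : Finset Ω, ∀ g : Ω ≃ₐ[B] Ω, (∀ e ∈ S, g e = e) →
      ∀ a b, (l : ℤ_[l]) ^ n ∣ (ρ g - 1) a b) ∧
    ∀ a : Ideal (integralClosure B Ω), a.IsMaximal → ∀ g : Ω ≃ₐ[B] Ω, Ine a g → ρ g = 1 := by
  classical
  have hc : Cof l (sec G (ob u Ω)) := hL.2.2 Ω (spc (algebraMap B Ω)) (Nat.cast_ne_zero.2 (Fact.out : l.Prime).ne_zero)
  obtain ⟨d, E, mat, -, h1, h2⟩ := hc.lat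
  refine ⟨d, E, mat.toMonoidHom.comp (gal u Ω G.obj), fun g v => h1 _ v, fun n => ?_,
    fun a ha g hg => ?_⟩
  · choose S hS using fun m => gal_opn (Ω := Ω) u hG.1 m
    refine ⟨(hc.fin n).toFinset.biUnion S, fun g hg a b => ?_⟩
    have := h2 (gal u Ω G.obj g - 1) n (fun m hm => sub_eq_zero.2 (hS m g fun e he =>
      hg e (Finset.mem_biUnion.2 ⟨m, (hc.fin n).mem_toFinset.2 hm, he⟩))) a b
    rwa [map_sub, map_one] at this
  · have : gal u Ω G.obj g = 1 := AddMonoidHom.ext fun m =>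
      gal_unr u hG (lis_ob u hL) hl m a g hg
    rw [MonoidHom.comp_apply, this, map_one]

end normal

end Pool.Agent.MP_855f4c_ag.EZ

end

section

/-! Section Z: the end of the proof. -/

set_option autoImplicit false
set_option backward.isDefEq.respectTransparency false

namespace Pool.Agent.MP_855f4c_ag.EZ

open E E4 CategoryTheory Limits Opposite AlgebraicGeometry Polynomial

/-- mw purity at the point `t`. -/
def At {X Y : Scheme.{0}} (f : X ⟶ Y) (p l : ℕ) [Fact p.Prime]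
    (t : Spec (.of (PadicAlgCl p)) ⟶ Y) : Prop :=
  ∀ (i : ℕ) (φ u : PadicAlgCl p ≃+* PadicAlgCl p) (hφ : spc (φ : _ →+* _) ≫ t = t)
    (hu : spc (u : _ →+* _) ≫ t = t) (Q : ℕ), 1 < Q → LP.Frob ℤ_[p] Q φ → LP.Frob ℤ_[p] 1 u →
    (∃ (n : ℕ) (r : PadicAlgCl p) (o : ℤ_[p]), r ^ l ^ n = algebraMap _ _ o ∧ u r ≠ r) →
    Mw Q i (Hl.res l i ((Over.pullback f).map (sph _ hφ)))
      (Hl.res l i ((Over.pullback f).map (sph _ hu)))

section aux
variable {Y : Scheme.{0}} {l : ℕ} [Fact l.Prime] {B : Type} [CommRing B] (u : Spec (.of B) ⟶ Y)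
  (G : Sh (Scheme.etaleTopology.over Y))

omit [Fact l.Prime] in
lemma lcf_cof (h : Lcf l ((pb u).obj G)) {k : Type} [Field k] [IsAlgClosed k] (β : B →+* k)
    (h0 : (l : k) ≠ 0) : Cof l (sec G (Over.mk (spc β ≫ u))) :=
  h.2.2 k (spc β) h0

lemma lcf_wt {v : Spec (.of B) ⟶ Y} (h : u ≫ 𝟙 _ = v) {i : ℕ}
    (H : Cl l ((pb (u ≫ 𝟙 _)).obj G) ∧ Wt l (0 + i) ((pb (u ≫ 𝟙 _)).obj G)) :
    Lcf l ((pb v).obj G) ∧ Wt l i ((pb v).obj G) := by
  rw [h, zero_add] at H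
  exact ⟨cl_lcf H.1, H.2⟩

lemma ev_gal {Ω : Type} [Field Ω] [Algebra B Ω] (g : Ω ≃ₐ[B] Ω)
    (h : spc (g.toRingEquiv : Ω →+* Ω) ≫ spc (algebraMap B Ω) ≫ u = spc (algebraMap B Ω) ≫ u)
    (j : ℚ_[l] →+* ℂ) (S : Set ℝ) :
    Ev j S (gal u Ω G.obj g) ↔ Ev j S (rsec (sph (g.toRingEquiv : Ω →+* Ω) h) G) := Iff.rfl

lemma ev_tr_iff {M N : Type 1} [AddCommGroup M] [AddCommGroup N] (e : M ≃+ N) {φ : M →+ M}
    {φ' : N →+ N} (h : ∀ m, e (φ m) = φ' (e m)) (j : ℚ_[l] →+* ℂ) (S : Set ℝ) :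
    Ev j S φ ↔ Ev j S φ' :=
  ⟨ev_tr e.symm fun m => e.symm_apply_eq.2
    ((h _).trans (congrArg _ (e.apply_symm_apply m))).symm, ev_tr e h⟩

lemma ev_stk {X : Scheme.{0}} (f : X ⟶ Y) (F : Sh (Scheme.etaleTopology.over X)) (q : ℕ) {k : Type} [Field k]
    [IsAlgClosed k] {t : Spec (.of k) ⟶ Y} (ψ : k →+* k) (h : spc ψ ≫ t = t) (j : ℚ_[l] →+* ℂ)
    (S : Set ℝ) : Ev j S (Hact f F q ψ h) ↔ Ev j S (rsec (sph ψ h) ((Rq f q).obj F)) :=
  ev_tr_iff (stk f F q t) (stk_act f F q ψ h) j S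

lemma conj_pow {M N : Type 1} [AddCommGroup M] [AddCommGroup N] {d : ℕ}
    (E : (Fin d → ℚ_[l]) ≃ₗ[ℚ_[l]] V l M) (e : M ≃+ N) (A : Module.End ℚ_[l] (Fin d → ℚ_[l]))
    (φ : M →+ M) (φ' χ : N →+ N) (m : ℕ) (h1 : ∀ v, E (A v) = Vm l φ (E v))
    (h2 : ∀ x, e (φ x) = χ (e x)) (h3 : Vm l χ = Vm l φ' ^ m) :
    A = (E.trans (Ve l e)).symm.conjAlgEquiv ℚ_[l] (Vm l φ') ^ m := by
  rw [← map_pow, ← h3]
  refine LinearMap.ext fun w => (E.trans (Ve l e)).injective ?_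
  rw [LinearEquiv.conjAlgEquiv_apply]
  simp only [LinearEquiv.symm_symm, LinearMap.comp_apply, LinearEquiv.coe_coe,
    LinearEquiv.apply_symm_apply]
  change Ve l e (E _) = _
  rw [h1]
  exact V.ext fun _ => h2 _

lemma conj_tr {W M N : Type 1} [AddCommGroup W] [AddCommGroup M] [AddCommGroup N] {d : ℕ}
    (Θ : W ≃+ V l M) (s : M ≃+ N) (E : (Fin d → ℚ_[l]) ≃ₗ[ℚ_[l]] V l N) (φ : M →+ M)
    (φ' : N →+ N) (hs : ∀ x, s (φ x) = φ' (s x)) (w w' : W) (h : Θ w' = Vm l φ (Θ w)) :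
    ((Θ.trans (Ve l s).toAddEquiv).trans E.symm.toAddEquiv) w' =
      E.symm.conjAlgEquiv ℚ_[l] (Vm l φ')
        (((Θ.trans (Ve l s).toAddEquiv).trans E.symm.toAddEquiv) w) := by
  rw [LinearEquiv.conjAlgEquiv_apply]
  change E.symm (Ve l _ (Θ _)) = E.symm (Vm l _ (E (E.symm (Ve l _ (Θ w)))))
  rw [h, E.apply_symm_apply]
  exact congrArg _ (V.ext fun _ => hs _)

end aux

section
variable {X Y : Scheme.{0}} (f : X ⟶ Y) {l : ℕ} [Fact l.Prime] {N : ℕ}
  (hN : ∀ (k : Type) [Field k] [IsAlgClosed k] (t : Spec (.of k) ⟶ Y), (l : k) ≠ 0 →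
    ∀ q, N ≤ q → ∀ x : H (fbr f t) (Linf l X) q, x = 0)
  {B : Type} [CommRing B] (u : Spec (.of B) ⟶ Y) (hl : IsUnit (l : B))
  (hL : ∀ i < N, Cc l ((Rq f i).obj (Linf l X)) ∧ Lcf l ((pb u).obj ((Rq f i).obj (Linf l X))) ∧
    Wt l i ((pb u).obj ((Rq f i).obj (Linf l X))))

include hN hl hL

lemma cof_all {k : Type} [Field k] [IsAlgClosed k] (β : B →+* k) (i : ℕ) :
    Cof l (H (fbr f (spc β ≫ u)) (Linf l X) i) := by
  have h0 : (l : k) ≠ 0 := by simpa using (hl.map β).ne_zero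
  by_cases hi : i < N
  · exact cof_tr (stk f _ i _) (lcf_cof u _ (hL i hi).2.1 β h0)
  · exact cof_zero (hN k _ h0 i (not_lt.1 hi))

variable {Ω : Type} [Field Ω] [IsAlgClosed Ω] [Algebra B Ω] [FaithfulSMul B Ω]
  [Algebra.IsAlgebraic B Ω]

/-- Purity at the generic point. -/
lemma pure_gen (t : Spec (.of Ω) ⟶ Y) (ht : spc (algebraMap B Ω) ≫ u = t)
    (hD : ∀ (ψ : Ω ≃+* Ω) (hψ : spc (ψ : Ω →+* Ω) ≫ t = t) (Q : ℕ) (j : ℚ_[l] →+* ℂ),
      (∀ r, ψ (algebraMap B Ω r) = algebraMap B Ω r) → 0 < Q →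
      (∀ (ζ : Ω) (n : ℕ), ζ ^ l ^ n = 1 → ψ ζ ^ Q = ζ) →
      (∀ i, Cof l (H (fbr f t) (Linf l X) i)) →
      (∀ i, Ev j (Set.Iic ((Q : ℝ) ^ i)) (Hact f (Linf l X) i (ψ : Ω →+* Ω) hψ)) →
      ∀ i, Ev j {(Q : ℝ) ^ i} (Hact f (Linf l X) i (ψ : Ω →+* Ω) hψ))
    {p : ℕ} [Fact p.Prime] (b : integralClosure B Ω →+* AlgebraicClosure (ZMod p))
    (ψ : AlgebraicClosure (ZMod p) →+* AlgebraicClosure (ZMod p)) (g : Ω ≃ₐ[B] Ω) {Q : ℕ}
    (hQ : 1 < Q) (hψ : ∀ z, ψ z ^ Q = z)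
    (hg : ∀ z w : integralClosure B Ω, (w : Ω) = g z → b w = ψ (b z)) (i : ℕ)
    (j : ℚ_[l] →+* ℂ) :
    Ev j {(Q : ℝ) ^ i} (gal u Ω ((Rq f i).obj (Linf l X)).obj g) := by
  subst ht
  have h0 : (l : Ω) ≠ 0 := by simpa using (hl.map (algebraMap B Ω)).ne_zero
  have h1 : (l : AlgebraicClosure (ZMod p)) ≠ 0 := by
    simpa using (hl.map (b.comp (algebraMap B _))).ne_zero
  have hfix : spc (g.toRingEquiv : Ω →+* Ω) ≫ spc (algebraMap B Ω) ≫ u =
      spc (algebraMap B Ω) ≫ u := Over.w (act u Ω g)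
  refine (ev_gal u _ g hfix j _).2 ((ev_stk f _ i _ hfix j _).1
    (hD g.toRingEquiv hfix Q j g.commutes (by omega) (fun ζ n hζ => ?_)
      (cof_all f hN u hl hL _) (fun i => ?_) i))
  · have hn : l ^ n ≠ 0 := pow_ne_zero n (Fact.out : l.Prime).ne_zero
    have hi : IsIntegral B ζ := IsIntegral.of_pow (Nat.pos_of_ne_zero hn) (hζ ▸ isIntegral_one)
    have := root_eq b (n := l ^ n) (by simpa using fun h => (h1 h).elim)
      (x := (⟨g ζ, hi.map g⟩ : integralClosure B Ω) ^ Q) (y := ⟨ζ, hi⟩)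
      (Subtype.ext (by
        change (g ζ ^ Q) ^ l ^ n = 1
        rw [← pow_mul, mul_comm, pow_mul, ← map_pow, hζ, map_one, one_pow]))
      (Subtype.ext hζ) (by rw [map_pow, hg ⟨ζ, hi⟩ _ rfl, hψ])
    exact congrArg Subtype.val this
  · by_cases hi : i < N
    · exact (ev_stk f _ i _ hfix j _).2 ((ev_gal u _ g hfix j _).1
        (up u (hL i hi).1 (hL i hi).2.1 hl (hL i hi).2.2 b ψ g hQ hψ hg j))
    · exact ev_zero (hN Ω _ h0 i (not_lt.1 hi)) _ _ _

end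

/-- An opaque localisation away from `a`, inside `Ω`. -/
lemma exists_away (A Ω : Type) [CommRing A] [IsDomain A] [IsIntegrallyClosed A] [Field Ω]
    [Algebra A Ω] (inj : Function.Injective (algebraMap A Ω)) [Algebra.IsAlgebraic A Ω] (a : A)
    (ha : a ≠ 0) :
    ∃ (B : Type) (_ : CommRing B) (_ : Algebra A B) (_ : Algebra B Ω), IsLocalization.Away a B ∧
      IsScalarTower A B Ω ∧ IsDomain B ∧ IsIntegrallyClosed B ∧ FaithfulSMul B Ω ∧
      Algebra.IsAlgebraic B Ω ∧ FaithfulSMul B (integralClosure B Ω) := by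
  let B := Localization.Away a
  have hpw := powers_le_nonZeroDivisors_of_noZeroDivisors ha
  have hunit : IsUnit (algebraMap A Ω a) := IsUnit.mk0 _ ((map_ne_zero_iff _ inj).2 ha)
  let _ : Algebra B Ω := (IsLocalization.Away.lift a hunit).toAlgebra
  have h1 : IsScalarTower A B Ω :=
    .of_algebraMap_eq fun r => (IsLocalization.Away.lift_eq a hunit r).symm
  have h2 : Function.Injective (algebraMap B Ω) :=
    (IsLocalization.lift_injective_iff _).2 fun r s =>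
      (IsLocalization.injective B hpw).eq_iff.trans inj.eq_iff.symm
  exact ⟨B, inferInstance, inferInstance, inferInstance, inferInstance, h1,
    IsLocalization.isDomain_localization hpw, isIntegrallyClosed_of_isLocalization B _ hpw,
    (faithfulSMul_iff_algebraMap_injective _ _).2 h2,
    Algebra.IsAlgebraic.extendScalars (R := A) (IsLocalization.injective B hpw),
    (faithfulSMul_iff_algebraMap_injective _ _).2 fun _ _ h => h2 (congrArg Subtype.val h)⟩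

lemma good_eq {X : Scheme.{0}} {w : ℕ} {F : ∀ (l : ℕ) [Fact l.Prime], Sh (Scheme.etaleTopology.over X)}
    (h : Good Set.univ w F) (A₀ Ω : Type) [CommRing A₀] [Algebra.FiniteType ℤ A₀] [Field Ω]
    [IsAlgClosed Ω] [CharZero Ω] [Algebra A₀ Ω] (a : Spec (.of A₀) ⟶ X) :
    ∃ A : Subalgebra A₀ Ω, A.FG ∧ ∀ (l : ℕ) [Fact l.Prime] (G : Sh (Scheme.etaleTopology.over X)), F l = G →
      ∀ (B : Type) [CommRing B] (β : A →+* B), IsUnit (l : B) → Cc l G ∧
        Cl l ((pb (spc (β.comp (algebraMap A₀ A)) ≫ a)).obj G) ∧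
        Wt l w ((pb (spc (β.comp (algebraMap A₀ A)) ≫ a)).obj G) := by
  obtain ⟨A, hA, H⟩ := h.2 A₀ Ω a
  refine ⟨A, hA, fun l _ G e B _ β hl => ?_⟩
  subst e
  exact ⟨(h.1 l trivial).1, H l trivial B β hl⟩

lemma gx_eq (hG : GX_s) (R : Type) [CommRing R] [Algebra.FiniteType ℤ R] (X : Scheme.{0})
    (f : X ⟶ Spec (.of R)) [IsProper f] {F : ∀ (l : ℕ) [Fact l.Prime], Sh (Scheme.etaleTopology.over X)}
    (h : Good Set.univ 0 F) (Ω : Type) [Field Ω] [IsAlgClosed Ω] [CharZero Ω] [Algebra R Ω]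
    (n : ℕ) :
    ∃ A : Subalgebra R Ω, A.FG ∧ ∀ (l : ℕ) [Fact l.Prime] (G : Sh (Scheme.etaleTopology.over X)), F l = G →
      ∀ (B : Type) [CommRing B] (β : A →+* B) (v : Spec (.of B) ⟶ Spec (.of R)),
        spc (β.comp (algebraMap R A)) = v → IsUnit (l : B) → Cc l ((Rq f n).obj G) ∧
        Lcf l ((pb v).obj ((Rq f n).obj G)) ∧ Wt l n ((pb v).obj ((Rq f n).obj G)) := by
  obtain ⟨A, hA, H⟩ := good_eq (hG Set.univ R X f 0 n F h) R Ω (𝟙 _)
  refine ⟨A, hA, fun l _ G e B _ β v hv hl => ?_⟩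
  have := H l _ (congrArg (Rq f n).obj e) B β hl
  exact ⟨this.1, lcf_wt _ _ ((Category.comp_id _).trans hv) this.2⟩

/-- The generic step. -/
theorem gen (hG : GX_s) (h0 : G0_s) (hD : DW_s) (hC : CDX_s) (R : Type) [CommRing R]
    [Algebra.FiniteType ℤ R] (X : Scheme.{0}) (f : X ⟶ Spec (.of R)) [Smooth f] [IsProper f]
    (Ω : Type) [Field Ω] [IsAlgClosed Ω] [CharZero Ω] [Algebra R Ω]
    [Algebra.IsAlgebraic (algebraMap R Ω).range Ω] :
    ∃ a : R, algebraMap R Ω a ≠ 0 ∧ ∃ M : ℕ, M ≠ 0 ∧ ∀ (p : ℕ) [Fact p.Prime], ¬ p ∣ M →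
      ∀ x : R →+* PadicAlgCl p, (∀ r, algebraMap R Ω r = 0 → x r = 0) → x a ≠ 0 →
        ∀ (l : ℕ) [Fact l.Prime], l ≠ p → At f p l (spc x) := by
  classical
  have : IsNoetherianRing R := Algebra.FiniteType.isNoetherianRing ℤ R
  obtain ⟨N, hN⟩ := hC R X f
  obtain ⟨S, hS⟩ := hD R Ω (algebraMap R Ω) X f
  choose A hA hA' using gx_eq hG R X f (h0 Set.univ X) Ω
  obtain ⟨A', hle, hfg, hn⟩ := nnz R Ω ((Finset.range N).sup A ⊔ Algebra.adjoin R S)
    (Subalgebra.FG.sup (Finset.sup_induction Subalgebra.fg_bot (fun _ h _ h' => h.sup h')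
      fun n _ => hA n) ⟨S, rfl⟩)
  have : Algebra.FiniteType R A' := ⟨(Subalgebra.fg_top A').2 hfg⟩
  have : Algebra.FiniteType ℤ A' := Algebra.FiniteType.trans (S := R) inferInstance inferInstance
  obtain ⟨a, ha, hx⟩ := zext R A' Ω
  obtain ⟨M, hM, hz⟩ := zcore A'
  refine ⟨a, ha, M, hM, fun p _ hp x x0 xa l _ hlp i φ u hφ hu Q hQ f1 f2 hr => ?_⟩
  have hl0 : l ≠ 0 := (Fact.out : l.Prime).ne_zero
  have hlA : (l : A') ≠ 0 := Nat.cast_ne_zero.2 hl0
  have : Algebra.IsAlgebraic A' Ω := ⟨fun z => by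
    let _ : Algebra (algebraMap R Ω).range A' := (Subring.inclusion (S := (algebraMap R Ω).range)
      (T := A'.toSubring) (by rintro _ ⟨r, rfl⟩; exact A'.algebraMap_mem r)).toAlgebra
    have : IsScalarTower (algebraMap R Ω).range A' Ω := .of_algebraMap_eq fun _ => rfl
    exact (Algebra.IsAlgebraic.isAlgebraic (R := (algebraMap R Ω).range) z).extendScalars
      (Subring.inclusion_injective _)⟩
  obtain ⟨B, _, _, _, _, _, _, _, _, _, _⟩ := exists_away A' Ω Subtype.val_injective (l : A') hlA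
  have hl : IsUnit (l : B) := by
    simpa using IsLocalization.Away.algebraMap_isUnit (S := B) (l : A')
  let v : Spec (.of B) ⟶ Spec (.of R) := spc ((algebraMap A' B).comp (algebraMap R A'))
  have hv : ∀ {k : Type} [CommRing k] (β : B →+* k) (y : R →+* k),
      (∀ r, β (algebraMap A' B (algebraMap R A' r)) = y r) → spc β ≫ v = spc y := fun β y h => by
    rw [← Spec.map_comp, ← CommRingCat.ofHom_comp]
    congr 2
    exact RingHom.ext h
  have hL : ∀ i < N, Cc l ((Rq f i).obj (Linf l X)) ∧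
      Lcf l ((pb v).obj ((Rq f i).obj (Linf l X))) ∧
      Wt l i ((pb v).obj ((Rq f i).obj (Linf l X))) := fun i hi => by
    have h1 : A i ≤ A' :=
      ((Finset.le_sup (f := A) (Finset.mem_range.2 hi)).trans le_sup_left).trans hle
    exact hA' i l _ rfl B ((algebraMap A' B).comp (Subalgebra.inclusion h1 : A i →+* A')) v rfl hl
  have hN' := fun (k : Type) [Field k] [IsAlgClosed k] => hN l _ ((h0 Set.univ X).1 l trivial) k
  have hlk : (l : PadicAlgCl p) ≠ 0 := Nat.cast_ne_zero.2 hl0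
  obtain ⟨b, hb⟩ := hx _ x x0 xa l hlk B (integralClosure B Ω)
  have ht : spc (b.comp (algebraMap B _)) ≫ v = spc x := hv _ _ hb
  obtain ⟨Θ, hΘ⟩ := hl_V l (fbr f (spc x)) i fun j _ => ht ▸ cof_all f hN' v hl hL _ j
  by_cases hi : i < N
  swap
  · exact mw_zero (fun w => Θ.injective (V.ext fun _ =>
      (hN' _ _ hlk i (not_lt.1 hi) _).trans (hN' _ _ hlk i (not_lt.1 hi) _).symm)) _ _ _ _
  obtain ⟨d, E, ρ, e1, e2, e3⟩ := rep (Ω := Ω) v (hL i hi).1 (hL i hi).2.1 hl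
  obtain ⟨m, hm, g, h, hg, hh, hw⟩ := hz p l hp hlp B (integralClosure B Ω) Ω d ρ i e2 e3
    (fun b ψ g Q hQ hψ hg => by
      have key := pure_gen f hN' v hl hL (spc (algebraMap R Ω))
        (hv _ _ fun r => (IsScalarTower.algebraMap_apply A' B Ω _).symm)
        (fun ψ hψ Q j h => hS l ψ hψ Q j fun e he => by
          have := h (algebraMap A' B ⟨e, hle (le_sup_right (α := Subalgebra R Ω)
            (Algebra.subset_adjoin he))⟩)
          rwa [← IsScalarTower.algebraMap_apply] at this) b ψ g hQ hψ hg i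
      obtain ⟨c, c0, c1, c2⟩ := zpure (Vm l (gal v Ω ((Rq f i).obj (Linf l X)).obj g))
        ((Q : ℝ) ^ i)
        (fun j => (key j).imp fun c hc => ⟨hc.1, hc.2.1, fun z hz =>
          (hc.2.2 z (by rwa [IsRoot, Polynomial.eval_map] at hz)).le⟩)
        (fun j => (key j).imp fun c hc => ⟨hc.1, hc.2.1, fun z hz =>
          (hc.2.2 z (by rwa [IsRoot, Polynomial.eval_map] at hz)).ge⟩)
      exact ⟨c, c0, fun z hz => (c1 z hz).trans (zpow_natCast _ _).symm,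
        aeval_tr E (e1 g) _ c2⟩) b φ u Q hQ f1 f2 hr
  obtain ⟨e, he⟩ := spec_of v b _ ht (hL i hi).1 (hL i hi).2.1 hl
  rw [conj_pow E e _ _ _ _ m (e1 g) (he g _ (spc_pow φ hφ m) hg) (rsec_pow φ hφ _ m),
    conj_pow E e _ _ _ _ m (e1 h) (he h _ (spc_pow u hu m) hh) (rsec_pow u hu _ m)] at hw
  exact mw_tr _
    (fun w => conj_tr Θ (stk f (Linf l X) i _) _ _ _ (stk_act f _ i _ hφ) w _ (hΘ _ w))
    (fun w => conj_tr Θ (stk f (Linf l X) i _) _ _ _ (stk_act f _ i _ hu) w _ (hΘ _ w))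
    (LP.MwPure.of_pow Q hQ i _ _ m hm hw)

lemma exists_omega (D : Type) [CommRing D] [IsDomain D] :
    ∃ (Ω : Type) (_ : Field Ω) (_ : Algebra D Ω), IsAlgClosed Ω ∧
      Function.Injective (algebraMap D Ω) ∧ Algebra.IsAlgebraic D Ω := by
  refine ⟨AlgebraicClosure (FractionRing D), inferInstance, inferInstance, inferInstance, ?_,
    (IsFractionRing.comap_isAlgebraic_iff (K := FractionRing D)).2 inferInstance⟩
  rw [IsScalarTower.algebraMap_eq D (FractionRing D)]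
  exact (algebraMap (FractionRing D) _).injective.comp
    (IsFractionRing.injective D (FractionRing D))

/-- The main theorem from the geometric inputs. -/
theorem main (hG : GX_s) (h0 : G0_s) (hD : DW_s) (hC : CDX_s) : Main_s := by
  intro R _ _ X f _ _
  have : IsNoetherianRing R := Algebra.FiniteType.isNoetherianRing ℤ R
  obtain ⟨M, hM, h⟩ := zind R
    (fun p _ x => ∀ (l : ℕ) [Fact l.Prime], l ≠ p → At f p l (spc x)) fun J hJ hc => by
      obtain ⟨Ω, _, _, _, inj, _⟩ := exists_omega (R ⧸ J)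
      let _ : Algebra R Ω := ((algebraMap (R ⧸ J) Ω).comp (Ideal.Quotient.mk J)).toAlgebra
      have hk : ∀ r, algebraMap R Ω r = 0 ↔ r ∈ J := fun r =>
        (map_eq_zero_iff _ inj).trans Ideal.Quotient.eq_zero_iff_mem
      have : CharZero Ω := charZero_of_inj_zero fun n hn =>
        hc n ((hk _).1 ((map_natCast _ n).trans hn))
      have : Algebra.IsAlgebraic (algebraMap R Ω).range Ω := ⟨fun z => by
        let _ : Algebra (R ⧸ J) (algebraMap R Ω).range :=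
          ((algebraMap (R ⧸ J) Ω).codRestrict _ fun r => by
            obtain ⟨r, rfl⟩ := Ideal.Quotient.mk_surjective r
            exact ⟨r, rfl⟩).toAlgebra
        have : IsScalarTower (R ⧸ J) (algebraMap R Ω).range Ω := .of_algebraMap_eq fun _ => rfl
        exact (Algebra.IsAlgebraic.isAlgebraic (R := R ⧸ J) z).extendScalars
          fun a b h => inj (congrArg Subtype.val h)⟩
      obtain ⟨a, ha, M, hM, h⟩ := gen hG h0 hD hC R X f Ω
      exact ⟨a, fun h => ha ((hk a).2 h), M, hM, fun p _ hp x hx =>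
        h p hp x fun r hr => hx r ((hk r).1 hr)⟩
  refine ⟨M, hM, fun p l _ _ hp hl _ i φ u Q => ?_⟩
  have H : At f p l (Spec.map (CommRingCat.ofHom (algebraMap R (PadicAlgCl p)))) :=
    h p hp (algebraMap _ _) l hl
  exact H i φ.toRingEquiv u.toRingEquiv _ _ Q

end Pool.Agent.MP_855f4c_ag.EZ

end
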