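import Pool.Agent.MP_855f4c_ag.WD.D
import Pool.Agent.MP_855f4c_ag.EC.F2b
import Pool.Agent.MP_855f4c_ag.WD.T
import Pool.Agent.MP_855f4c_ag.EC.Pa

section

/-! Orbits of transcendental elements, exchange of independent elements. -/

namespace Pool.Agent.MP_855f4c_ag.E.C

namespace ORB

lemma aut_of_basis {R L ι : Type} [CommRing R] [Field L] [Algebra R L] [IsAlgClosed L]
    {x y : ι → L} (hx : IsTranscendenceBasis R x) (hy : IsTranscendenceBasis R y) :
    ∃ s : L ≃+* L, (∀ r, s (algebraMap R L r) = algebraMap R L r) ∧ ∀ i, s (x i) = y i := by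
  have := IsAlgClosed.isAlgClosure_of_transcendence_basis x hx
  have := IsAlgClosed.isAlgClosure_of_transcendence_basis y hy
  have h : ∀ p, IsAlgClosure.equivOfEquiv L L
      (hx.1.aevalEquiv.symm.trans hy.1.aevalEquiv).toRingEquiv (MvPolynomial.aeval x p) =
      MvPolynomial.aeval y p := fun p => by
    rw [← hx.1.algebraMap_aevalEquiv, IsAlgClosure.equivOfEquiv_algebraMap,
      ← hy.1.algebraMap_aevalEquiv]
    exact congrArg (fun q => algebraMap _ L (hy.1.aevalEquiv q))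
      (hx.1.aevalEquiv.symm_apply_apply p)
  exact ⟨_, fun r => by simpa using h (MvPolynomial.C r), fun i => by
    simpa using h (MvPolynomial.X i)⟩

lemma aut_of_trans {R L : Type} [CommRing R] [Nontrivial R] [Field L] [Algebra R L] [IsAlgClosed L]
    {a b : L} (ha : Transcendental R a) (hb : Transcendental R b) :
    ∃ s : L ≃+* L, (∀ r, s (algebraMap R L r) = algebraMap R L r) ∧ s a = b := by
  classical
  have h1 : ∀ c : L, Transcendental R c → ∃ t : Set L, c ∈ t ∧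
      IsTranscendenceBasis R ((↑) : t → L) := fun c hc => by
    obtain ⟨t, ht, h⟩ := exists_isTranscendenceBasis_superset (R := R) (s := {c})
      ((algebraicIndependent_singleton_iff (⟨c, rfl⟩ : ({c} : Set L))).2 hc)
    exact ⟨t, ht rfl, h⟩
  obtain ⟨t, hat, ht⟩ := h1 a ha
  obtain ⟨u, hbu, hu⟩ := h1 b hb
  obtain ⟨e⟩ := Cardinal.eq.1 (ht.cardinalMk_eq hu)
  obtain ⟨s, hs, hs'⟩ := aut_of_basis ht
    ((isTranscendenceBasis_equiv (e.trans (Equiv.swap (e ⟨a, hat⟩) ⟨b, hbu⟩))).2 hu)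
  exact ⟨s, hs, by simpa using hs' ⟨a, hat⟩⟩

end ORB

variable {k L : Type} [Field k] [Field L] [Algebra k L]

theorem orbit_infinite [IsAlgClosed L] (S : Set L) (a : L)
    (ha : Transcendental (Algebra.adjoin k S) a) :
    {b : L | ∃ s : L ≃ₐ[k] L, (∀ z ∈ S, s z = z) ∧ s a = b}.Infinite := by
  refine Set.infinite_of_injective_forall_mem (f := fun j : ℕ => a ^ (j + 1)) (fun i j h => ?_)
    fun j => ?_
  · have h1 := transcendental_iff_injective.1 ha (a₁ := Polynomial.X ^ (i + 1))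
      (a₂ := Polynomial.X ^ (j + 1)) (by simpa using h)
    simpa using congrArg Polynomial.natDegree h1
  · obtain ⟨s, hs, hs'⟩ := ORB.aut_of_trans ha (ha.pow j.succ_pos)
    exact ⟨AlgEquiv.ofRingEquiv (f := s) fun c => hs (algebraMap k _ c),
      fun z hz => hs ⟨z, Algebra.subset_adjoin hz⟩, hs'⟩

theorem exists_indep {N g : ℕ} (x : Fin N → L) (hx : AlgebraicIndependent k x) (z : Fin g → L)
    (hz : ¬ AlgebraicIndependent k z) (hg : g ≤ N) :
    ∃ e : Fin (N + 1 - g) → Fin N, Function.Injective e ∧ ∀ j, Transcendental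
      (Algebra.adjoin k (Set.range z ∪ (x ∘ e) '' {i | i < j})) (x (e j)) := by
  classical
  let M := AlgebraicIndependent.matroid k L
  have hcard : ∀ {m : ℕ} (w : Fin m → L), (Set.range w).encard ≤ m := fun {m} w => by
    rw [← Set.image_univ]
    exact (Set.encard_image_le _ _).trans (by simp)
  have h1 : M.eRk (Set.range z) < g := by
    by_cases hi : Function.Injective z
    · exact (Matroid.eRk_lt_encard_of_dep_of_finite (Set.finite_range z)
        ⟨fun h => hz (AlgebraicIndependent.of_subtype_range hi h), Set.subset_univ _⟩).trans_le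
        (hcard z)
    · refine (M.eRk_le_encard _).trans_lt (lt_of_le_of_ne (hcard z) fun h => hi ?_)
      rw [← Set.image_univ] at h
      exact Set.injOn_univ.1 (Set.Finite.injOn_of_encard_image_eq Set.finite_univ (by simpa using h))
  have h2 : M.eRk (Set.range x) = N := by
    rw [Matroid.Indep.eRk_eq_encard (M := M) hx.to_subtype_range, ← Set.image_univ,
      hx.injective.encard_image]
    simp
  have hN : 0 < N := by
    have : (0 : ℕ∞) < g := lt_of_le_of_lt bot_le h1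
    have : 0 < g := by exact_mod_cast this
    omega
  have h3 : ∀ r, r ≤ N + 1 - g → ∃ e : ℕ → Fin N, ∀ j < r, Transcendental
      (Algebra.adjoin k (Set.range z ∪ (x ∘ e) '' {i | i < j})) (x (e j)) := by
    intro r
    induction r with
    | zero => exact fun _ => ⟨fun _ => ⟨0, hN⟩, fun j hj => absurd hj (Nat.not_lt_zero j)⟩
    | succ r ih =>
      intro hr
      obtain ⟨e, he⟩ := ih (by omega)
      obtain ⟨i0, hi0⟩ : ∃ i0, Transcendental
          (Algebra.adjoin k (Set.range z ∪ (x ∘ e) '' {i | i < r})) (x i0) := by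
        by_contra hn
        push Not at hn
        have h4 : Set.range x ⊆ M.closure (Set.range z ∪ (x ∘ e) '' {i | i < r}) := by
          rintro _ ⟨i, rfl⟩
          rw [AlgebraicIndependent.matroid_closure_eq]
          exact not_not.1 (hn i)
        have h5 := M.eRk_mono h4
        rw [h2, Matroid.eRk_closure_eq] at h5
        have h6 : ((x ∘ e) '' {i | i < r}).encard ≤ r :=
          (Set.encard_image_le _ _).trans (by
            rw [show {i | i < r} = ((Finset.range r : Finset ℕ) : Set ℕ) by ext; simp,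
              Set.encard_coe_eq_coe_finsetCard, Finset.card_range])
        have h7 := (h5.trans (M.eRk_union_le_eRk_add_encard _ _)).trans (add_le_add le_rfl h6)
        obtain ⟨m, hm⟩ := ENat.ne_top_iff_exists.1 (ne_top_of_lt h1)
        rw [← hm] at h1 h7
        have h8 : m < g := by exact_mod_cast h1
        have h9 : N ≤ m + r := by exact_mod_cast h7
        omega
      have h4 : ∀ j ≤ r, (x ∘ Function.update e r i0) '' {i | i < j} = (x ∘ e) '' {i | i < j} :=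
        fun j hj => Set.image_congr fun i hi => by
          rw [Function.comp_apply, Function.update_of_ne (lt_of_lt_of_le hi hj).ne]; rfl
      refine ⟨Function.update e r i0, fun j hj => ?_⟩
      rw [h4 j (by omega)]
      rcases (Nat.lt_succ_iff.1 hj).eq_or_lt with rfl | h5
      · rwa [Function.update_self]
      · rw [Function.update_of_ne h5.ne]; exact he j h5
  obtain ⟨e, he⟩ := h3 _ le_rfl
  have h4 : ∀ i j : Fin (N + 1 - g), i < j → e i ≠ e j := fun i j hij h => he j j.2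
    (isAlgebraic_algebraMap (⟨x (e j), Algebra.subset_adjoin (.inr ⟨i, hij, congrArg x h⟩)⟩ :
      Algebra.adjoin k (Set.range z ∪ (x ∘ e) '' {i | i < (j : ℕ)})))
  refine ⟨fun j => e j, fun i j h => ?_, fun j => ?_⟩
  · rcases lt_trichotomy i j with h5 | h5 | h5
    exacts [absurd h (h4 i j h5), h5, absurd h.symm (h4 j i h5)]
  · have h5 : (x ∘ fun j : Fin (N + 1 - g) => e j) '' {i | i < j} = (x ∘ e) '' {i | i < (j : ℕ)} := by
      ext w
      constructor
      · rintro ⟨i, hi, rfl⟩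
        exact ⟨i, hi, rfl⟩
      · rintro ⟨i, hi, rfl⟩
        exact ⟨⟨i, lt_trans hi j.2⟩, hi, rfl⟩
    rw [h5]
    exact he j j.2

theorem exists_big (k : Type) [Field k] : ∃ (L : Type) (_ : Field L) (_ : Algebra k L)
    (_ : IsAlgClosed L) (x : ℕ → L), AlgebraicIndependent k x :=
  ⟨AlgebraicClosure (FractionRing (MvPolynomial ℕ k)), inferInstance, inferInstance, inferInstance,
    _, (MvPolynomial.algebraicIndependent_X ℕ k).map'
      (f := IsScalarTower.toAlgHom k (MvPolynomial ℕ k) _)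
      ((algebraMap (FractionRing (MvPolynomial ℕ k)) _).injective.comp
        (IsFractionRing.injective (MvPolynomial ℕ k) _))⟩

theorem trans_of_indep {g : ℕ} (z : Fin (g+1) → L) (hz : AlgebraicIndependent k z) :
    Transcendental (Algebra.adjoin k (Set.range fun j : Fin g => z j.succ)) (z 0) := by
  have h := hz.transcendental_adjoin (s := Set.range Fin.succ) (i := 0)
    fun ⟨j, hj⟩ => Fin.succ_ne_zero j hj
  rwa [← Set.range_comp] at h

end Pool.Agent.MP_855f4c_ag.E.C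

end

section

/-! Divisibility of the classes of degree zero over every algebraically closed field. -/

namespace Pool.Agent.MP_855f4c_ag.E.C

open WD WD.Tor

namespace PIC

section grp

variable {Γ G : Type} [Group Γ] [Group G] (ρ : Γ →* G)

/-- The orbit under a subgroup. -/
def Orb {X : Type} [MulAction G X] (A : Subgroup Γ) (x : X) : Set X := {y | ∃ s ∈ A, ρ s • x = y}

/-- The elements that fix a set pointwise. -/
def Fix {X : Type} [MulAction G X] (Z : Set X) : Subgroup Γ where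
  carrier := {s | ∀ z ∈ Z, ρ s • z = z}
  one_mem' z _ := by rw [map_one, one_smul]
  mul_mem' {a b} ha hb z hz := by rw [map_mul, mul_smul, hb z hz, ha z hz]
  inv_mem' {a} ha z hz := by rw [map_inv, inv_smul_eq_iff, ha z hz]

variable {ρ}

lemma mem_Fix {X : Type} [MulAction G X] {Z : Set X} {s : Γ} :
    s ∈ Fix ρ Z ↔ ∀ z ∈ Z, ρ s • z = z := Iff.rfl

lemma Orb_mono {X : Type} [MulAction G X] {A B : Subgroup Γ} (h : A ≤ B) (x : X) :
    Orb ρ A x ⊆ Orb ρ B x := fun _ ⟨s, hs, e⟩ => ⟨s, h hs, e⟩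

lemma step {X Y : Type} [MulAction G X] [MulAction G Y] (A : Subgroup Γ) (x : X) (P : Y)
    (hx : (Orb ρ A x).Finite) (hP : (Orb ρ (A ⊓ Fix ρ {x}) P).Finite) : (Orb ρ A P).Finite := by
  have h1 : ∀ y : Orb ρ A x, ∃ s ∈ A, ρ s • x = y := fun y => y.2
  choose r hr hr' using h1
  have := hx.to_subtype
  refine (Set.finite_iUnion fun y : Orb ρ A x => hP.image fun Q => ρ (r y) • Q).subset ?_
  rintro _ ⟨s, hs, rfl⟩
  refine Set.mem_iUnion.2 ⟨⟨_, s, hs, rfl⟩, ρ ((r ⟨_, s, hs, rfl⟩)⁻¹ * s) • P,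
    ⟨_, Subgroup.mem_inf.2 ⟨A.mul_mem (A.inv_mem (hr _)) hs, ?_⟩, rfl⟩, ?_⟩
  · rintro _ rfl
    rw [map_mul, mul_smul, map_inv, inv_smul_eq_iff, hr']
  · simp only [map_mul, map_inv, mul_smul, smul_inv_smul]

lemma steps {X Y : Type} [MulAction G X] [MulAction G Y] (P : Y) (Z : Set X) (hZ : Z.Finite) :
    ∀ A : Subgroup Γ, (∀ z ∈ Z, (Orb ρ A z).Finite) → (Orb ρ (A ⊓ Fix ρ Z) P).Finite →
      (Orb ρ A P).Finite := by
  induction Z, hZ using Set.Finite.induction_on with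
  | empty => exact fun A _ h => h.subset (Orb_mono (le_inf le_rfl fun s _ _ h => h.elim) P)
  | @insert a Z _ _ ih =>
    intro A h1 h2
    refine step A a P (h1 a (Set.mem_insert _ _)) (ih _ (fun z hz =>
      (h1 z (Set.mem_insert_of_mem _ hz)).subset (Orb_mono inf_le_left z)) (h2.subset
        (Orb_mono ?_ P)))
    rintro s ⟨⟨h3, h4⟩, h5⟩
    refine ⟨h3, ?_⟩
    rintro z (rfl | hz)
    exacts [h4 _ rfl, h5 z hz]

end grp

section curve

variable {L M : Type} [Field L] [Field M] [Algebra L M] [FF L M]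

lemma fib_fin {T : M} (hT : T ∉ Set.range (algebraMap L M)) (a : L) :
    {P : Place L M | P.val T = a}.Finite := by
  refine ((finite_ord (k := L) T).union (finite_ord (T - algebraMap L M a))).subset fun P hP => ?_
  by_contra h
  simp only [Set.mem_union, Function.mem_support, not_or, not_not] at h
  refine Place.val_ne_zero.2 ⟨sub_ne_zero.2 fun e => hT ⟨a, e.symm⟩, h.2⟩ ?_
  rw [Place.val_sub h.1.ge (by simp), Place.val_const, sub_eq_zero]
  exact hP

lemma fib_ne {T : M} (hT : T ∉ Set.range (algebraMap L M)) (a : L) :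
    ∃ P : Place L M, P.val T = a := by
  obtain ⟨P, hP⟩ := exists_zero (k := L) (f := T - algebraMap L M a) fun ⟨d, hd⟩ =>
    hT ⟨d + a, by rw [map_add, hd, sub_add_cancel]⟩
  exact ⟨P, (Place.val_eq (Place.v_lt_one.2 (.inr hP))).2⟩

omit [FF L M] in
lemma eff_sum : ∀ (g : ℕ) (D : Div L M), 0 ≤ D → deg D = g →
    ∃ z : Fin g → Place L M, D = ∑ j, Finsupp.single (z j) 1
  | 0, D, h, hd => ⟨Fin.elim0, by
      rw [← eq_of_le_of_deg h (by rw [hd]; simp)]; simp⟩
  | g + 1, D, h, hd => by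
    classical
    obtain ⟨x, hx⟩ : ∃ x, D x ≠ 0 := by
      by_contra h0
      push Not at h0
      rw [show D = 0 from Finsupp.ext h0, map_zero] at hd
      omega
    obtain ⟨z, hz⟩ := eff_sum g (D - Finsupp.single x 1) (fun y => by
      have h3 : (0 : ℤ) ≤ D y := h y
      by_cases hy : y = x
      · subst hy; simp; omega
      · simpa [hy] using h3) (by rw [map_sub, hd, deg_single]; push_cast; ring)
    refine ⟨Fin.cons x z, ?_⟩
    rw [Fin.sum_univ_succ]
    simp only [Fin.cons_zero, Fin.cons_succ]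
    rw [← hz, add_sub_cancel]

lemma ex_eff {D : Div L M} (h : 0 < ell D) : ∃ f : M, f ≠ 0 ∧ 0 ≤ dv L f + D := by
  by_contra hn
  push Not at hn
  have : LL D = ⊥ := (Submodule.eq_bot_iff _).2 fun f hf => by
    by_contra h0
    exact hn f h0 ((mem_LL'.1 hf).resolve_left h0)
  rw [ell, this, finrank_bot] at h
  omega

lemma ell_pos {D : Div L M} (h : 0 ≤ D) : 0 < ell D := by
  have h1 : ell (0 : Div L M) ≤ ell D := Submodule.finrank_mono (LL_mono h)
  rw [ell_zero] at h1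
  exact h1

variable {Γ : Type} [Group Γ] (ρ : Γ →* SA L M)

lemma drop (W : Div L M) (hW : 0 ≤ W) (x : Place L M) (H : Subgroup Γ)
    (hH : ∀ s ∈ H, cls (ρ s • W) = cls W) (hx : (Orb ρ H x).Infinite) :
    ell (W - Finsupp.single x 1) < ell W := by
  by_contra hn
  have hle : LL (W - Finsupp.single x 1) ≤ LL W :=
    LL_mono (sub_le_self _ (Finsupp.single_nonneg.2 zero_le_one))
  have he : LL (W - Finsupp.single x 1) = LL W :=
    Submodule.eq_of_le_of_finrank_le hle (not_lt.1 hn)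
  refine hx (W.support.finite_toSet.subset ?_)
  rintro _ ⟨s, hs, rfl⟩
  obtain ⟨f, f0, e⟩ := cls_eq.1 (hH _ (inv_mem hs))
  have h1 : f ∈ LL W := mem_LL'.2 (.inr (by rw [add_comm, ← e]; exact SA.act_nonneg _ hW))
  rw [← he] at h1
  have h2 := (mem_LL.1 h1).resolve_left f0 x
  have h3 := congrArg (fun D : Div L M => D x) e
  simp only [SA.div_apply, map_inv, inv_inv, Finsupp.add_apply, dv_apply] at h3
  rw [Finsupp.sub_apply, Finsupp.single_eq_same] at h2
  refine Finset.mem_coe.2 (Finsupp.mem_support_iff.2 ?_)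
  omega

omit [FF L M] in
lemma act_sum {ι : Type} (S : Finset ι) (z : ι → Place L M) (σ : SA L M)
    (h : ∀ i ∈ S, σ • z i = z i) :
    σ • (∑ i ∈ S, Finsupp.single (z i) 1 : Div L M) = ∑ i ∈ S, Finsupp.single (z i) 1 := by
  rw [Finset.smul_sum]
  exact Finset.sum_congr rfl fun i hi => by rw [SA.act_single, h i hi]

lemma orb_cls {n : ℕ} (hn : (n : L) ≠ 0) (A : Subgroup Γ) (c : Pic L M)
    (h : ∀ s ∈ A, n • (ρ s • c) = n • c) : (Orb ρ A c).Finite := by
  have := jn_finite (K := M) n hn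
  refine ((Set.toFinite (JJ L M n : Set (Pic L M))).image fun d => d + c).subset ?_
  rintro _ ⟨s, hs, rfl⟩
  exact ⟨ρ s • c - c, AddSubgroup.torsionBy.nsmul_iff.2 (by rw [nsmul_sub, h s hs, sub_self]),
    sub_add_cancel _ _⟩

lemma dv_trans {n : ℕ} {P Q z : Place L M} (hP : Dv n P z) (hQ : Dv n Q z) : Dv n P Q := by
  obtain ⟨c, hc⟩ := hP
  obtain ⟨d, hd⟩ := hQ
  exact ⟨c - d, by rw [nsmul_sub, ← hc, ← hd]; abel⟩

lemma dv_of_inf {n : ℕ} (hn : n ≠ 0) {z : Place L M} (h : {P | Dv n P z}.Infinite)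
    (P : Place L M) : Dv n P z := by
  refine dv_desc (AlgebraicClosure M) hn (dv_cst _ ?_ (dv_gen _ hn h) P)
  obtain ⟨a, ha⟩ := FF.exists_not_const L M
  refine ⟨algebraMap M _ a, ?_⟩
  rintro ⟨c, hc⟩
  rw [IsScalarTower.algebraMap_apply L M] at hc
  exact ha ⟨c, (algebraMap M _).injective hc⟩

end curve

section main

variable {k L M : Type} [Field k] [Field L] [Algebra k L] [Field M] [Algebra L M] [FF L M]
  {ρ : (L ≃ₐ[k] L) →* SA L M} {T : M}

omit [FF L M] in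
lemma val_rho (hc : ∀ s c, SA.cst (ρ s) c = s c) (hρ : ∀ s, (ρ s).1 T = T) (s : L ≃ₐ[k] L)
    (P : Place L M) : (ρ s • P).val T = s (P.val T) := by
  conv_lhs => rw [← hρ s, SA.val_act, hc]

lemma inf0 (hc : ∀ s c, SA.cst (ρ s) c = s c) (hρ : ∀ s, (ρ s).1 T = T)
    (hT : T ∉ Set.range (algebraMap L M)) (Z : Set (Place L M)) (hZ : Z.Finite) (S : Set L)
    (hS : ∀ z ∈ Z, z.val T ∈ S) (P : Place L M)
    (hP : Transcendental (Algebra.adjoin k S) (P.val T)) : (Orb ρ (Fix ρ Z) P).Infinite := by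
  have : IsAlgClosed L := FF.closed M
  intro hfin
  have h1 := steps (ρ := ρ) P Z hZ (Fix (MonoidHom.id (L ≃ₐ[k] L)) S) (fun z hz =>
    (fib_fin hT (z.val T)).subset (by
      rintro _ ⟨s, hs, rfl⟩
      exact (val_rho hc hρ s z).trans (hs _ (hS z hz)))) (hfin.subset (Orb_mono inf_le_right P))
  refine orbit_infinite S _ hP ((h1.image fun Q => Q.val T).subset ?_)
  rintro _ ⟨s, hs, rfl⟩
  exact ⟨_, ⟨s, hs, rfl⟩, val_rho hc hρ s P⟩

theorem inf_dv (hc : ∀ s c, SA.cst (ρ s) c = s c) (hρ : ∀ s, (ρ s).1 T = T)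
    (hT : T ∉ Set.range (algebraMap L M)) (o : Place L M) (ho : ∀ s, ρ s • o = o)
    (ξ : ℕ → L) (hξ : AlgebraicIndependent k ξ) {n : ℕ} (hn : (n : L) ≠ 0) :
    ∃ z : Place L M, {P | Dv n P z}.Infinite := by
  classical
  obtain ⟨g, c, hg, hgc⟩ := riemann L M
  obtain ⟨N, hN1, hN2⟩ : ∃ N : ℕ, c ≤ N ∧ g ≤ N := ⟨c + g, by omega, by omega⟩
  choose x hx using fun i : Fin N => fib_ne hT (ξ i)
  let E0 : Div L M := ∑ i, Finsupp.single (x i) 1
  have hE0 : deg E0 = N := by simp [E0, map_sum]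
  let m : ℤ := (n : ℤ) * N - g
  have hD : deg (n • E0 - m • Finsupp.single o 1) = g := by
    rw [map_sub, map_nsmul, map_zsmul, hE0, deg_single]; simp [m]
  obtain ⟨f, f0, hf⟩ := ex_eff (D := n • E0 - m • Finsupp.single o 1) (by
    have := hg (n • E0 - m • Finsupp.single o 1)
    omega)
  obtain ⟨z, hz⟩ := eff_sum g _ hf (by rw [map_add, deg_dv, zero_add, hD])
  have hcl : ∀ s, n • (ρ s • cls E0) - n • cls E0 =
      cls (ρ s • ∑ j, Finsupp.single (z j) 1) - cls (∑ j, Finsupp.single (z j) 1) := fun s => by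
    rw [← hz, smul_add, smul_sub, ← SA.dv_act, SA.act_nsmul, SA.act_zsmul, SA.act_single, ho,
      SA.act_cls]
    simp only [map_add, map_sub, cls_dv, map_nsmul]
    abel
  by_cases hind : AlgebraicIndependent k fun j => (z j).val T
  · cases g with
    | zero =>
      refine ⟨o, Set.infinite_univ.mono fun P _ => ⟨0, ?_⟩⟩
      have h0 : deg (Finsupp.single P 1 - Finsupp.single o 1 : Div L M) = 0 := by simp
      obtain ⟨u, u0, hu⟩ := ex_eff (D := Finsupp.single P 1 - Finsupp.single o 1) (by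
        have := hg (Finsupp.single P 1 - Finsupp.single o 1)
        omega)
      have h1 := congrArg cls (eq_of_le_of_deg hu (by rw [map_add, deg_dv, h0]; simp))
      rw [map_zero, map_add, cls_dv, zero_add, map_sub] at h1
      rw [← h1, smul_zero]
    | succ g =>
      refine ⟨z 0, (inf0 hc hρ hT (Set.range fun j : Fin g => z j.succ) (Set.finite_range _) _
        ?_ (z 0) (trans_of_indep _ hind)).mono ?_⟩
      · rintro _ ⟨j, rfl⟩
        exact ⟨j, rfl⟩
      rintro _ ⟨s, hs, rfl⟩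
      refine ⟨ρ s • cls E0 - cls E0, ?_⟩
      rw [nsmul_sub, hcl, Fin.sum_univ_succ, smul_add, SA.act_single,
        act_sum _ _ _ fun j _ => hs _ ⟨j, rfl⟩, map_add, map_add]
      abel
  exfalso
  have hxi : AlgebraicIndependent k fun i : Fin N => (x i).val T := by
    simp only [hx]
    exact hξ.comp _ Fin.val_injective
  obtain ⟨e, he, ht⟩ := exists_indep _ hxi _ hind hN2
  let X : ℕ → Div L M := fun j =>
    ∑ i ∈ Finset.univ.filter fun i : Fin (N + 1 - g) => (i : ℕ) < j, Finsupp.single (x (e i)) 1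
  have hX : ∀ j, 0 ≤ E0 - X j := fun j => by
    rw [sub_nonneg]
    calc X j = ∑ i ∈ (Finset.univ.filter fun i : Fin (N + 1 - g) => (i : ℕ) < j).image e,
          Finsupp.single (x i) 1 := by rw [Finset.sum_image fun a _ b _ h => he h]
      _ ≤ E0 := Finset.sum_le_sum_of_subset_of_nonneg (Finset.subset_univ _)
          fun i _ _ => Finsupp.single_nonneg.2 zero_le_one
  have key : ∀ j, j ≤ N + 1 - g → ell (E0 - X j) + j ≤ ell E0 := by
    intro j
    induction j with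
    | zero => intro _; simp [X]
    | succ j ih =>
      intro hj
      have h1 : X (j + 1) = X j + Finsupp.single (x (e ⟨j, hj⟩)) 1 := by
        have : (Finset.univ.filter fun i : Fin (N + 1 - g) => (i : ℕ) < j + 1) =
            insert ⟨j, hj⟩ (Finset.univ.filter fun i : Fin (N + 1 - g) => (i : ℕ) < j) := by
          ext i
          simp only [Finset.mem_filter, Finset.mem_univ, true_and, Finset.mem_insert, Fin.ext_iff]
          omega
        simp only [X]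
        rw [this, Finset.sum_insert (by simp), add_comm]
      let Z : Set (Place L M) := Set.range z ∪ (fun i => x (e i)) '' {i | i < ⟨j, hj⟩}
      have h2 := inf0 hc hρ hT Z ((Set.finite_range _).union (Set.toFinite _)) _ (by
        rintro _ (⟨i, rfl⟩ | ⟨i, hi, rfl⟩)
        exacts [.inl ⟨i, rfl⟩, .inr ⟨i, hi, rfl⟩]) (x (e ⟨j, hj⟩)) (ht ⟨j, hj⟩)
      have h3 := drop ρ (E0 - X j) (hX j) (x (e ⟨j, hj⟩)) (Fix ρ Z ⊓ Fix ρ {cls E0})
        (fun s hs => by
          rw [smul_sub, map_sub, map_sub, ← SA.act_cls, hs.2 _ rfl,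
            show ρ s • X j = X j from act_sum _ _ _ fun i hi =>
              hs.1 _ (.inr ⟨i, (Finset.mem_filter.1 hi).2, rfl⟩)])
        fun hfin => h2 (step _ _ _ (orb_cls ρ hn _ _ fun s hs => by
          rw [← sub_eq_zero, hcl, act_sum _ _ _ fun i _ => hs _ (.inl ⟨i, rfl⟩), sub_self]) hfin)
      have h4 := ih (by omega)
      rw [h1, ← sub_sub]
      omega
  have h1 := key _ le_rfl
  have h2 := ell_pos (hX (N + 1 - g))
  have h3 := hgc E0 (by rw [hE0]; exact_mod_cast hN1)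
  omega

end main

end PIC

theorem pic_div_all {k K : Type} [Field k] [Field K] [Algebra k K] [FF k K] (n : ℕ)
    (hn : (n : k) ≠ 0) (E : Div k K) (hE : deg E = 0) : ∃ B : Div k K, E - n • B ∈ prin k K := by
  have hn0 : n ≠ 0 := by rintro rfl; simp at hn
  obtain ⟨L, _, _, _, ξ, hξ⟩ := exists_big k
  obtain ⟨o⟩ : Nonempty (Place k K) := inferInstance
  obtain ⟨t, -, ht⟩ := o.exists_ord 1
  obtain ⟨z, hz⟩ := PIC.inf_dv (ρ := gal K) (T := iK L t) (n := n)
    (fun s c => SA.cst_eq _ _ _ (gal_alg s c)) (fun s => gal_iK s t)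
    ((WD.cst L o).not_const (by rw [ord_cst, ht]; exact one_ne_zero)) (WD.cst L o)
    (fun s => gal_cst s o) ξ hξ (by
      rw [← map_natCast (algebraMap k L)]; exact (map_ne_zero _).2 hn)
  obtain ⟨c, hc⟩ := dv_all (o := o) E fun x _ => dv_desc L hn0
    (PIC.dv_trans (PIC.dv_of_inf hn0 hz _) (PIC.dv_of_inf hn0 hz _))
  obtain ⟨B, rfl⟩ := cls_surj c
  exact ⟨B, cls_eq_zero.1 (by
    rw [map_sub, map_nsmul, ← hc, hE]; simp only [zero_zsmul, sub_zero, sub_self])⟩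

end Pool.Agent.MP_855f4c_ag.E.C

end

section

/-! Finiteness of the Kummer classes unramified outside a finite set. -/

namespace Pool.Agent.MP_855f4c_ag.E.C

open WD

variable {k K : Type} [Field k] [Field K] [Algebra k K] [FF k K]

lemma fin_kummer0 (n : ℕ) (hn : (n : k) ≠ 0) : ∃ T : Set K, T.Finite ∧ ∀ f : K, f ≠ 0 →
    (∀ x : Place k K, (n : ℤ) ∣ x.ord f) → ∃ g ∈ T, ∃ h : K, h ≠ 0 ∧ f = g * h ^ n := by
  have : IsAlgClosed k := FF.closed K
  have hn0 : 0 < n := Nat.pos_of_ne_zero (by rintro rfl; simp at hn)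
  have := Tor.jn_finite (K := K) n hn
  choose A hA using fun c : JJ k K n => cls_surj (c : Pic k K)
  choose g hg0 hg using fun c : JJ k K n => cls_mem_JJ.1 (hA c ▸ c.2)
  refine ⟨Set.range g, Set.finite_range g, fun f hf h => ?_⟩
  let B : Div k K := (dv k f).mapRange (fun m => m / n) (by simp)
  have hB : dv k f = n • B := by
    ext x
    simp only [B, dv_apply, Finsupp.smul_apply, Finsupp.mapRange_apply, nsmul_eq_mul]
    exact (Int.mul_ediv_cancel' (h x)).symm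
  let c : JJ k K n := ⟨cls B, cls_mem_JJ.2 ⟨f, hf, hB⟩⟩
  obtain ⟨u, u0, hu⟩ := cls_eq.1 (hA c).symm
  obtain ⟨d, d0, hd⟩ := eq_smul_of_dv (k := k) hf (mul_ne_zero (hg0 c) (pow_ne_zero n u0)) (by
    rw [hB, dv_mul (hg0 c) (pow_ne_zero n u0), hg, dv_pow, ← nsmul_add, ← hu])
  obtain ⟨e, rfl⟩ := IsAlgClosed.exists_pow_nat_eq d hn0
  have e0 : e ≠ 0 := fun h0 => d0 (by rw [h0, zero_pow hn0.ne'])
  refine ⟨g c, ⟨c, rfl⟩, algebraMap k K e * u, mul_ne_zero ((map_ne_zero _).2 e0) u0, ?_⟩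
  conv_lhs => rw [hd]
  rw [Algebra.smul_def, map_pow]
  ring

theorem fin_kummer {k K : Type} [Field k] [Field K] [Algebra k K] [FF k K] (n : ℕ)
    (hn : (n : k) ≠ 0) (S : Set (Place k K)) (hS : S.Finite) : ∃ T : Set K, T.Finite ∧
      ∀ f : K, f ≠ 0 → (∀ x ∉ S, (n : ℤ) ∣ x.ord f) →
        ∃ g ∈ T, ∃ h : K, h ≠ 0 ∧ f = g * h ^ n := by
  have : NeZero n := ⟨by rintro rfl; simp at hn⟩
  have := hS.to_subtype
  obtain ⟨T, hT, H⟩ := fin_kummer0 (K := K) n hn
  have h1 : ∀ r : S → ZMod n, ∃ u : K, ∀ f : K, f ≠ 0 → (∀ x ∉ S, (n : ℤ) ∣ x.ord f) →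
      (∀ x : S, ((x.1.ord f : ℤ) : ZMod n) = r x) → u ≠ 0 ∧ ∀ x : Place k K,
        (n : ℤ) ∣ x.ord f - x.ord u := fun r => by
    by_cases h : ∃ u : K, u ≠ 0 ∧ (∀ x ∉ S, (n : ℤ) ∣ x.ord u) ∧
      ∀ x : S, ((x.1.ord u : ℤ) : ZMod n) = r x
    · obtain ⟨u, u0, h2, h3⟩ := h
      refine ⟨u, fun f _ h4 h5 => ⟨u0, fun x => ?_⟩⟩
      by_cases hx : x ∈ S
      · exact (ZMod.intCast_eq_intCast_iff_dvd_sub _ _ _).1 ((h3 ⟨x, hx⟩).trans (h5 ⟨x, hx⟩).symm)
      · exact dvd_sub (h4 x hx) (h2 x hx)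
    · exact ⟨0, fun f f0 h4 h5 => absurd ⟨f, f0, h4, h5⟩ h⟩
  choose u hu using h1
  refine ⟨Set.image2 (· * ·) (Set.range u) T, (Set.finite_range u).image2 _ hT, fun f f0 hf => ?_⟩
  obtain ⟨u0, h2⟩ := hu _ f f0 hf fun _ => rfl
  obtain ⟨g, hg, h, h0, e⟩ := H (f / u _) (div_ne_zero f0 u0) fun x => by
    rw [Place.ord_div f0 u0]; exact h2 x
  rw [div_eq_iff u0] at e
  exact ⟨_, ⟨_, ⟨_, rfl⟩, g, hg, rfl⟩, h, h0, e.trans ((mul_right_comm _ _ _).trans
    (congrArg (· * h ^ n) (mul_comm _ _)))⟩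

end Pool.Agent.MP_855f4c_ag.E.C

end

section

/-! h86e section C: cohomological dimension one in cocycle form (abstract group part). -/

namespace Pool.Agent.MP_855f4c_ag.E.C

universe u v

/-- A filter of subgroups of finite index with a basis of normal subgroups. -/
structure Opn (G : Type*) [Group G] where
  op : Subgroup G → Prop
  top : op ⊤
  inf : ∀ {M N : Subgroup G}, op M → op N → op (M ⊓ N)
  up : ∀ {M N : Subgroup G}, op M → M ≤ N → op N
  fin : ∀ {M : Subgroup G}, op M → M.FiniteIndex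
  norm : ∀ {M : Subgroup G}, op M → ∃ N : Subgroup G, N ≤ M ∧ N.Normal ∧ op N

variable {G : Type*} [Group G]

/-- `c` vanishes on the part of an open subgroup that lies in `P`. -/
def Opn.Cont (O : Opn G) (P : Subgroup G) {A : Type*} [Zero A] (c : G → A) : Prop :=
  ∃ M, O.op M ∧ ∀ g ∈ P, g ∈ M → c g = 0

/-- `c` is a cocycle on `P`. -/
def Coc (P : Subgroup G) {A : Type*} [AddCommGroup A] (ρ : Representation ℤ G A) (c : G → A) :
    Prop := ∀ g ∈ P, ∀ h ∈ P, c (g * h) = c g + ρ g (c h)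

/-- `χ` is additive on `P`. -/
def Adt (P : Subgroup G) {A : Type*} [Add A] (χ : G → A) : Prop :=
  ∀ g ∈ P, ∀ h ∈ P, χ (g * h) = χ g + χ h

/-- Characters of an open subgroup are norms from the cyclic cover given by `ψ`. -/
def Opn.TS (O : Opn G) (l : ℕ) [NeZero l] : Prop :=
  ∀ P, O.op P → ∀ ψ χ : G → ZMod l, Adt P ψ → Adt P χ → O.Cont P ψ → O.Cont P χ →
    (∃ g ∈ P, ψ g ≠ 0) → ∃ d : G → ZMod l → ZMod l,
      (∀ g ∈ P, ∀ h ∈ P, ∀ x, d (g * h) x = d g x + d h (x - ψ g)) ∧ O.Cont P d ∧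
      ∀ g ∈ P, ∑ x, d g x = χ g

lemma Opn.fsInf (O : Opn G) {ι : Type*} (s : Finset ι) (M : ι → Subgroup G)
    (h : ∀ i ∈ s, O.op (M i)) : ∃ N, O.op N ∧ N.Normal ∧ ∀ i ∈ s, N ≤ M i := by
  classical
  induction s using Finset.induction_on with
  | empty => exact ⟨⊤, O.top, inferInstance, by simp⟩
  | insert a s _ ih =>
    obtain ⟨N, h1, -, h3⟩ := ih fun i hi => h i (Finset.mem_insert_of_mem hi)
    obtain ⟨N', g1, g2, g3⟩ := O.norm (O.inf h1 (h a (Finset.mem_insert_self _ _)))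
    refine ⟨N', g3, g2, fun i hi => ?_⟩
    rcases Finset.mem_insert.1 hi with rfl | hi
    · exact g1.trans inf_le_right
    · exact (g1.trans inf_le_left).trans (h3 i hi)

variable {A : Type u} {B : Type v} [AddCommGroup A] [AddCommGroup B]
  {ρ : Representation ℤ G A} {σ : Representation ℤ G B}

lemma Coc.one {P : Subgroup G} {c : G → A} (h : Coc P ρ c) : c 1 = 0 := by
  have := h 1 P.one_mem 1 P.one_mem
  simpa using this

/-- The stabiliser of a vector. -/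
def stab (ρ : Representation ℤ G A) (a : A) : Subgroup G where
  carrier := {g | ρ g a = a}
  one_mem' := by simp
  mul_mem' {g h} hg hh := by
    simp only [Set.mem_ofPred_eq] at *
    rw [map_mul, Module.End.mul_apply, hh, hg]
  inv_mem' {g} hg := by
    simp only [Set.mem_ofPred_eq] at *
    conv_lhs => rw [← hg]
    rw [← Module.End.mul_apply, ← map_mul, inv_mul_cancel, map_one, Module.End.one_apply]

/-- Shapiro's formula. -/
lemma shapiro (O : Opn G) {P H : Subgroup G} (hHP : H ≤ P) (π : A →+ B)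
    (hπ : ∀ g a, π (ρ g a) = σ g (π a)) (hd : ∀ a, O.op (stab ρ a)) {c : G → B} (hc : Coc P σ c)
    (hr : ∀ g ∈ P, ∃ a, π a = c g) {e : G → A} (he : Coc H ρ e) (he' : O.Cont H e)
    (hec : ∀ g ∈ H, π (e g) = c g) {X : Type*} [Finite X] (τ : G → X → X) (s : X → G)
    (hs : ∀ x, s x ∈ P) (hτ : ∀ g ∈ P, ∀ h ∈ P, ∀ x, τ (g * h) x = τ h (τ g x))
    (hH : ∀ g ∈ P, ∀ x, (s x)⁻¹ * g * s (τ g x) ∈ H)
    (h0 : ∃ M, O.op M ∧ ∀ g ∈ P, g ∈ M → ∀ x, τ g x = x) :
    ∃ C : G → X → A, (∀ g ∈ P, ∀ h ∈ P, ∀ x, C (g * h) x = C g x + ρ g (C h (τ g x))) ∧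
      O.Cont P C ∧ ∀ g ∈ P, ∀ x, π (C g x) = c g := by
  have := Fintype.ofFinite X
  choose a ha using fun x => hr (s x) (hs x)
  have hm : ∀ g h (y : A), ρ (g * h) y = ρ g (ρ h y) := fun g h y => by
    rw [map_mul, Module.End.mul_apply]
  refine ⟨fun g x => ρ (s x) (e ((s x)⁻¹ * g * s (τ g x))) - (ρ g (a (τ g x)) - a x),
    fun g hg h hh x => ?_, ?_, fun g hg x => ?_⟩
  · have h1 : (s x)⁻¹ * (g * h) * s (τ (g * h) x) =
        ((s x)⁻¹ * g * s (τ g x)) * ((s (τ g x))⁻¹ * h * s (τ h (τ g x))) := by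
      rw [hτ g hg h hh]; group
    have h2 : s x * ((s x)⁻¹ * g * s (τ g x)) = g * s (τ g x) := by group
    simp only []
    rw [h1, he _ (hH g hg x) _ (hH h hh _), map_add, ← hm, h2, hτ g hg h hh, hm, hm, map_sub,
      map_sub]
    abel
  · obtain ⟨M1, g1, g2⟩ := he'
    obtain ⟨M2, g3, g4⟩ := h0
    obtain ⟨M3, g5, -, g6⟩ := O.fsInf Finset.univ (fun x => stab ρ (a x)) fun x _ => hd _
    obtain ⟨M, g7, g8, g9⟩ := O.norm (O.inf g1 (O.inf g3 g5))
    refine ⟨M, g9, fun g hg hM => funext fun x => ?_⟩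
    have k1 := hH g hg x
    have k2 := g4 g hg (g7 hM).2.1 x
    rw [k2] at k1
    have k3 : (s x)⁻¹ * g * s x ∈ M := by simpa using g8.conj_mem g hM (s x)⁻¹
    have k4 : ρ g (a x) = a x := g6 x (Finset.mem_univ _) (g7 hM).2.2
    simp only [k2, g2 _ k1 (g7 k3).1, k4, map_zero, sub_self, Pi.zero_apply]
  · have h2 : s x * ((s x)⁻¹ * g * s (τ g x)) = g * s (τ g x) := by group
    have h3 := hc _ (hs x) _ (hHP (hH g hg x))
    rw [h2, hc g hg _ (hs _)] at h3
    simp only [map_sub, hπ, hec _ (hH g hg x), ha]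
    rw [eq_sub_of_add_eq' h3.symm]
    abel

section W

variable {l : ℕ} [hl : Fact l.Prime]

/-- The difference operator on functions on `ZMod l`. -/
def dif (l : ℕ) (A : Type*) [AddCommGroup A] : AddMonoid.End (ZMod l → A) where
  toFun f x := f (x - 1) - f x
  map_zero' := by ext; simp
  map_add' f g := by ext; simp only [Pi.add_apply]; abel

lemma emul {M : Type*} [AddCommGroup M] (f g : AddMonoid.End M) (x : M) : (f * g) x = f (g x) := rfl

lemma dif_apply (f : ZMod l → A) (x : ZMod l) : dif l A f x = f (x - 1) - f x := rfl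

lemma dif_pow_map (φ : A →+ B) (y : ZMod l) (j : ℕ) (f : ZMod l → A) :
    (dif l B ^ j) (fun x => φ (f (x - y))) = fun x => φ ((dif l A ^ j) f (x - y)) := by
  induction j with
  | zero => rfl
  | succ j ih =>
    funext x
    rw [pow_succ', pow_succ', emul, emul, ih, dif_apply,
      dif_apply, map_sub, sub_right_comm]

lemma dif_const {f : ZMod l → A} (h : dif l A f = 0) (x : ZMod l) : f x = f 0 := by
  obtain ⟨n, rfl⟩ := ZMod.natCast_zmod_surjective x
  induction n with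
  | zero => simp
  | succ n ih =>
    have := congrFun h ((n + 1 : ℕ) : ZMod l)
    rw [dif_apply, Pi.zero_apply, sub_eq_zero] at this
    rw [← this, ← ih]; simp

open Polynomial in
lemma dif_top (f : ZMod l → ZMod l) (x : ZMod l) :
    (dif l (ZMod l) ^ (l - 1)) f x = ∑ y, f y := by
  let S : Module.End (ZMod l) (ZMod l → ZMod l) :=
    { toFun := fun f x => f (x - 1), map_add' := fun _ _ => rfl, map_smul' := fun _ _ => rfl }
  have h1 : (X - 1 : (ZMod l)[X]) ^ (l - 1) = ∑ i ∈ Finset.range l, X ^ i := by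
    have h0 : (X - 1 : (ZMod l)[X]) ≠ 0 := by simpa using X_sub_C_ne_zero (1 : ZMod l)
    refine mul_right_cancel₀ h0 ?_
    rw [← pow_succ, Nat.sub_add_cancel hl.out.one_le, geom_sum_mul, sub_pow_char, one_pow]
  have h2 : (S - 1) ^ (l - 1) = ∑ i ∈ Finset.range l, S ^ i := by
    simpa [map_sum] using congrArg (aeval S) h1
  have h3 : ∀ j (f : ZMod l → ZMod l), (dif l (ZMod l) ^ j) f = ((S - 1) ^ j) f := by
    intro j
    induction j with
    | zero => exact fun _ => rfl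
    | succ j ih =>
      intro f
      rw [pow_succ, pow_succ, emul, Module.End.mul_apply, ih]; rfl
  have h4 : ∀ (i : ℕ) (x : ZMod l), (S ^ i) f x = f (x - i) := by
    intro i
    induction i with
    | zero => simp
    | succ i ih =>
      intro x
      rw [pow_succ', Module.End.mul_apply]
      change (S ^ i) f (x - 1) = _
      rw [ih]; congr 1; push_cast; ring
  rw [h3, h2, LinearMap.sum_apply, Finset.sum_apply]
  simp only [h4]
  rw [← (Equiv.subLeft x).sum_comp f]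
  refine Finset.sum_bij (fun i _ => (i : ZMod l)) (fun _ _ => Finset.mem_univ _)
    (fun i hi j hj h => ?_) (fun y _ => ⟨y.val, Finset.mem_range.2 y.val_lt, by simp⟩)
    fun _ _ => rfl
  rw [← ZMod.val_cast_of_lt (Finset.mem_range.1 hi), h, ZMod.val_cast_of_lt (Finset.mem_range.1 hj)]

/-- From the induced module back to `A`. -/
lemma descend (O : Opn G) (hT : O.TS l) {P : Subgroup G} (hP : O.op P) (π : A →+ B)
    (ι : ZMod l →+ A) (hι : Function.Injective ι) (hk : ∀ a, π a = 0 ↔ ∃ x, ι x = a)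
    (hf : ∀ g ∈ P, ∀ x, ρ g (ι x) = ι x) {c : G → B} {ψ : G → ZMod l} (h1 : Adt P ψ)
    (h2 : O.Cont P ψ) (h3 : ∃ g ∈ P, ψ g ≠ 0) (C : G → ZMod l → A)
    (c1 : ∀ g ∈ P, ∀ h ∈ P, ∀ x, C (g * h) x = C g x + ρ g (C h (x - ψ g))) (c2 : O.Cont P C)
    (c3 : ∀ g ∈ P, ∀ x, π (C g x) = c g) :
    ∃ e : G → A, Coc P ρ e ∧ O.Cont P e ∧ ∀ g ∈ P, π (e g) = c g := by
  let L : ℕ → Prop := fun j => ∃ C : G → ZMod l → A,
    (∀ g ∈ P, ∀ h ∈ P, ∀ x, C (g * h) x = C g x + ρ g (C h (x - ψ g))) ∧ O.Cont P C ∧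
      (∀ g ∈ P, ∀ x, π (C g x) = c g) ∧ ∀ g ∈ P, (dif l A ^ (j + 1)) (C g) = 0
  have hi : ∀ j (v : ZMod l → ZMod l), (dif l A ^ j) (fun x => ι (v x)) =
      fun x => ι ((dif l (ZMod l) ^ j) v x) := fun j v => by
    simpa only [sub_zero] using dif_pow_map ι 0 j v
  have hv : ∀ f : ZMod l → A, (∀ x y, π (f x) = π (f y)) →
      ∃ v : ZMod l → ZMod l, dif l A f = fun x => ι (v x) := fun f h => by
    choose v hv using fun x => (hk (dif l A f x)).1 (by rw [dif_apply, map_sub, h, sub_self])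
    exact ⟨v, funext fun x => (hv x).symm⟩
  have top : L (l - 1) := by
    refine ⟨C, c1, c2, c3, fun g hg => ?_⟩
    obtain ⟨v, hv⟩ := hv (C g) fun x y => by rw [c3 g hg, c3 g hg]
    funext x
    rw [pow_succ, emul, hv, hi]
    simp only [dif_top, map_sum, Pi.zero_apply]
    refine (Finset.sum_congr rfl fun y _ => (congrFun hv y).symm.trans (dif_apply _ y)).trans ?_
    rw [Finset.sum_sub_distrib]
    exact sub_eq_zero.2 (Equiv.sum_comp (Equiv.subRight (1 : ZMod l)) (C g))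
  have step : ∀ j, j + 1 ≤ l - 1 → L (j + 1) → L j := by
    rintro j hj ⟨C, c1, ⟨M, c2, c2'⟩, c3, c4⟩
    have k1 : ∀ g ∈ P, ∀ x, (dif l A ^ (j + 1)) (C g) x = (dif l A ^ (j + 1)) (C g) 0 :=
      fun g hg => dif_const (by rw [← emul, ← pow_succ']; exact c4 g hg)
    have k2 : ∀ g, ∃ y, g ∈ P → ι y = (dif l A ^ (j + 1)) (C g) 0 := fun g => by
      by_cases hg : g ∈ P
      · obtain ⟨v, hv⟩ := hv (C g) fun x y => by rw [c3 g hg, c3 g hg]
        exact ⟨_, fun _ => by rw [pow_succ, emul, hv, hi]⟩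
      · exact ⟨0, fun h => absurd h hg⟩
    choose χ hχ using k2
    have k3 : Adt P χ := fun g hg h hh => hι (by
      have : C (g * h) = C g + fun x => (ρ g).toAddMonoidHom (C h (x - ψ g)) :=
        funext (c1 g hg h hh)
      rw [map_add, hχ _ (P.mul_mem hg hh), this, map_add, dif_pow_map, Pi.add_apply, k1 h hh,
        ← hχ g hg, ← hχ h hh]
      exact congrArg _ (hf g hg _))
    obtain ⟨d, d1, ⟨M', d2, d2'⟩, d3⟩ := hT P hP ψ χ h1 k3 h2
      ⟨M, c2, fun g hg hM => hι (by rw [hχ g hg, c2' g hg hM, map_zero, map_zero]; rfl)⟩ h3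
    refine ⟨fun g => C g - fun x => ι ((dif l (ZMod l) ^ (l - 1 - (j + 1))) (d g) x),
      fun g hg h hh x => ?_, ⟨M ⊓ M', O.inf c2 d2, fun g hg hM => ?_⟩, fun g hg x => ?_,
      fun g hg => ?_⟩
    · have : d (g * h) = d g + fun x => AddMonoidHom.id _ (d h (x - ψ g)) :=
        funext (d1 g hg h hh)
      simp only [Pi.sub_apply]
      rw [this, map_add, dif_pow_map]
      simp only [c1 g hg h hh, map_add, Pi.add_apply, map_sub, hf g hg, AddMonoidHom.id_apply]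
      abel
    · funext x
      simp [c2' g hg hM.1, d2' g hg hM.2]
    · simp only [Pi.sub_apply]
      rw [map_sub, c3 g hg, (hk _).2 ⟨_, rfl⟩, sub_zero]
    · funext x
      rw [map_sub, hi, Pi.sub_apply, k1 g hg, ← hχ g hg, ← emul, ← pow_add,
        Nat.add_sub_cancel' hj, dif_top, d3 g hg, sub_self, Pi.zero_apply]
  have all : ∀ i, i ≤ l - 1 → L (l - 1 - i) := by
    intro i
    induction i with
    | zero => exact fun _ => top
    | succ i ih =>
      intro hi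
      refine step _ (by omega) ?_
      have : l - 1 - (i + 1) + 1 = l - 1 - i := by omega
      rw [this]; exact ih (by omega)
  obtain ⟨C, c1, ⟨M, c2, c2'⟩, c3, c4⟩ := all (l - 1) le_rfl
  rw [Nat.sub_self, zero_add, pow_one] at c4
  exact ⟨fun g => C g 0, fun g hg h hh => by
    simp only [c1 g hg h hh, dif_const (c4 h hh) (0 - ψ g)],
    ⟨M, c2, fun g hg hM => by simp only [c2' g hg hM, Pi.zero_apply]⟩, fun g hg => c3 g hg 0⟩

/-- A non-trivial finite `l`-group has a non-trivial character. -/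
lemma exists_char {Q : Type*} [Group Q] [Finite Q] [Nontrivial Q] (h : IsPGroup l Q) :
    ∃ f : Q →* Multiplicative (ZMod l), ∃ g, f g ≠ 1 := by
  obtain ⟨n, hn⟩ := h.exists_card_eq
  obtain ⟨m, rfl⟩ : ∃ m, n = m + 1 := Nat.exists_eq_succ_of_ne_zero (by
    rintro rfl
    exact (Finite.one_lt_card (α := Q)).ne' (by simpa using hn))
  obtain ⟨H, hH⟩ := Sylow.exists_subgroup_card_pow_prime (G := Q) l (n := m)
    (hn ▸ pow_dvd_pow l m.le_succ)
  have hi : H.index = l := by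
    have := H.card_mul_index
    rw [hH, hn, pow_succ] at this
    exact Nat.eq_of_mul_eq_mul_left (pow_pos hl.out.pos m) this
  have : H.Normal := Subgroup.normal_of_index_eq_minFac_card (by
    rw [hi, hn, hl.out.pow_minFac m.succ_ne_zero])
  let e : Q ⧸ H ≃* Multiplicative (ZMod l) := mulEquivOfPrimeCardEq (p := l) hi (by simp)
  obtain ⟨y, hy⟩ := exists_ne (1 : Multiplicative (ZMod l))
  obtain ⟨g, hg⟩ := QuotientGroup.mk'_surjective H (e.symm y)
  exact ⟨e.toMonoidHom.comp (QuotientGroup.mk' H), g, by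
    rwa [MonoidHom.comp_apply, hg, MulEquiv.coe_toMonoidHom, e.apply_symm_apply]⟩

/-- Central extensions by `ZMod l` over an `l`-group. -/
lemma central (O : Opn G) (hT : O.TS l) (π : A →+ B) (hπ : ∀ g a, π (ρ g a) = σ g (π a))
    (hd : ∀ a, O.op (stab ρ a)) (ι : ZMod l →+ A) (hι : Function.Injective ι)
    (hk : ∀ a, π a = 0 ↔ ∃ x, ι x = a) (hf : ∀ g x, ρ g (ι x) = ι x) {c : G → B}
    (hc : Coc ⊤ σ c) (hr : ∀ g, ∃ a, π a = c g) {N : Subgroup G} [N.Normal] (hN : O.op N)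
    (hp : ∀ g, ∃ m, g ^ l ^ m ∈ N) (h0 : ∀ g ∈ N, c g = 0) (P : Subgroup G) (hP : O.op P) :
    ∃ e : G → A, Coc P ρ e ∧ O.Cont P e ∧ ∀ g ∈ P, π (e g) = c g := by
  classical
  have := O.fin hN
  induction hn : Nat.card (P.map (QuotientGroup.mk' N)) using Nat.strong_induction_on
    generalizing P with
  | _ n ih =>
  by_cases hPN : P ≤ N
  · exact ⟨0, fun _ _ _ _ => by simp, ⟨⊤, O.top, fun _ _ _ => rfl⟩,
      fun g hg => by simp [h0 g (hPN hg)]⟩
  have : Nontrivial (P.map (QuotientGroup.mk' N)) := by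
    rw [Subgroup.nontrivial_iff_ne_bot]
    intro h
    rw [Subgroup.map_eq_bot_iff, QuotientGroup.ker_mk'] at h
    exact hPN h
  have hq : IsPGroup l (G ⧸ N) := fun y => by
    obtain ⟨g, rfl⟩ := QuotientGroup.mk'_surjective N y
    obtain ⟨m, hm⟩ := hp g
    exact ⟨m, by rw [← map_pow]; exact (QuotientGroup.eq_one_iff _).2 hm⟩
  obtain ⟨f, y0, hy0⟩ := exists_char (hq.to_subgroup (P.map (QuotientGroup.mk' N)))
  let f' : P →* Multiplicative (ZMod l) := f.comp ((QuotientGroup.mk' N).subgroupMap P)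
  let ψ : G → ZMod l := fun g => if h : g ∈ P then (f' ⟨g, h⟩).toAdd else 0
  have hψ : ∀ g (h : g ∈ P), ψ g = (f' ⟨g, h⟩).toAdd := fun g h => dif_pos h
  have h1 : Adt P ψ := fun g hg h hh => by
    rw [hψ g hg, hψ h hh, hψ _ (P.mul_mem hg hh), ← toAdd_mul, ← map_mul]; rfl
  have h2 : ∀ g ∈ P, g ∈ N → ψ g = 0 := fun g hg hN => by
    have : (QuotientGroup.mk' N).subgroupMap P ⟨g, hg⟩ = 1 :=
      Subtype.ext ((QuotientGroup.eq_one_iff _).2 hN)
    rw [hψ g hg, MonoidHom.comp_apply, this, map_one, toAdd_one]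
  obtain ⟨g0, rfl⟩ := (QuotientGroup.mk' N).subgroupMap_surjective P y0
  have h3 : ψ g0 ≠ 0 := by rw [hψ _ g0.2]; exact hy0
  let H : Subgroup G := f'.ker.map P.subtype
  have hH : ∀ g, g ∈ H ↔ g ∈ P ∧ ψ g = 0 := fun g => by
    constructor
    · rintro ⟨x, hx, rfl⟩
      exact ⟨x.2, (hψ _ x.2).trans (congrArg Multiplicative.toAdd hx)⟩
    · rintro ⟨hg, h⟩
      exact ⟨⟨g, hg⟩, (hψ g hg).symm.trans h, rfl⟩
  have hHP : H ≤ P := fun g hg => ((hH g).1 hg).1
  have hHo : O.op H := O.up (O.inf hP hN) fun g hg => (hH g).2 ⟨hg.1, h2 g hg.1 hg.2⟩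
  have hlt : H.map (QuotientGroup.mk' N) < P.map (QuotientGroup.mk' N) := by
    refine lt_of_le_of_ne (Subgroup.map_mono hHP) fun h => h3 ?_
    obtain ⟨g, hg, hg'⟩ : QuotientGroup.mk' N g0 ∈ H.map (QuotientGroup.mk' N) :=
      h ▸ Subgroup.mem_map_of_mem _ g0.2
    have k1 : g⁻¹ * g0 ∈ N := QuotientGroup.eq.1 hg'
    have k2 := h1 g (hHP hg) _ (P.mul_mem (P.inv_mem (hHP hg)) g0.2)
    rw [mul_inv_cancel_left, ((hH g).1 hg).2, h2 _ (P.mul_mem (P.inv_mem (hHP hg)) g0.2) k1] at k2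
    simpa using k2
  obtain ⟨e, e1, e2, e3⟩ := ih _ (hn ▸ Set.Finite.card_lt_card (Set.toFinite _) hlt) H hHo rfl
  have hs : ∀ x : ZMod l, ∃ g ∈ P, ψ g = x := fun x => by
    refine ⟨g0 ^ (x / ψ g0).val, P.pow_mem g0.2 _, ?_⟩
    have : ψ (g0 ^ (x / ψ g0).val) = (x / ψ g0).val • ψ g0 := by
      rw [hψ _ (P.pow_mem g0.2 _), hψ _ g0.2, ← toAdd_pow, ← map_pow]; rfl
    rw [this, nsmul_eq_mul, ZMod.natCast_zmod_val, div_mul_cancel₀ _ h3]
  choose s hs1 hs2 using hs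
  obtain ⟨C, c1, c2, c3⟩ := shapiro O hHP π hπ hd (fun g _ h _ => hc g trivial h trivial)
    (fun g _ => hr g) e1 e2 e3 (fun g x => x - ψ g) s hs1
    (fun g hg h hh x => by rw [h1 g hg h hh, sub_add_eq_sub_sub]) (fun g hg x => by
      have k1 := P.mul_mem (P.inv_mem (hs1 x)) hg
      have k2 := h1 _ (hs1 x) _ k1
      rw [mul_inv_cancel_left, hs2] at k2
      exact (hH _).2 ⟨P.mul_mem k1 (hs1 _), by rw [h1 _ k1 _ (hs1 _), hs2, k2]; ring⟩)
    ⟨N, hN, fun g hg h x => by rw [h2 g hg h, sub_zero]⟩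
  exact descend O hT hP π ι hι hk (fun g _ => hf g) h1 ⟨N, hN, h2⟩ ⟨g0, g0.2, h3⟩ C c1 c2 c3

/-- Finite kernel over an `l`-group. -/
lemma finker (O : Opn G) (hT : O.TS l) {c : G → B} (hc : Coc ⊤ σ c) {N : Subgroup G} [N.Normal]
    (hN : O.op N) (hp : ∀ g, ∃ m, g ^ l ^ m ∈ N) (h0 : ∀ g ∈ N, c g = 0) (n : ℕ) :
    ∀ (A : Type u) [AddCommGroup A] [Finite A] (ρ : Representation ℤ G A) (π : A →+ B),
      Nat.card π.ker = n → (∀ g a, π (ρ g a) = σ g (π a)) → (∀ g ∈ N, ∀ a, ρ g a = a) →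
      (∀ a : A, ∃ m, l ^ m • a = 0) → (∀ g, ∃ a, π a = c g) →
      ∃ e : G → A, Coc ⊤ ρ e ∧ O.Cont ⊤ e ∧ ∀ g, π (e g) = c g := by
  induction n using Nat.strong_induction_on with
  | _ n ih =>
  intro A _ _ ρ π hn hπ hρ ht hr
  by_cases hi : Function.Injective π
  · choose e he using hr
    exact ⟨e, fun g _ h _ => hi (by rw [map_add, hπ, he, he, he, hc g trivial h trivial]),
      ⟨N, hN, fun g _ hg => hi (by rw [he, h0 g hg, map_zero])⟩, he⟩
  obtain ⟨a, a1, a2, a3, a4⟩ : ∃ a, π a = 0 ∧ a ≠ 0 ∧ l • a = 0 ∧ ∀ g, ρ g a = a := by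
    let act : MulAction G π.ker :=
      { smul := fun g a => ⟨ρ g a, by rw [AddMonoidHom.mem_ker, hπ, a.2, map_zero]⟩
        one_smul := fun a => Subtype.ext (show ρ 1 a = a by simp)
        mul_smul := fun g h a => Subtype.ext (show ρ (g * h) a = ρ g (ρ h a) by simp) }
    let φ := MulAction.toPermHom G π.ker
    have hφ : IsPGroup l φ.range := by
      rintro ⟨_, g, rfl⟩
      obtain ⟨m, hm⟩ := hp g
      refine ⟨m, Subtype.ext ?_⟩
      change φ g ^ l ^ m = 1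
      rw [← map_pow]
      exact Equiv.ext fun a => Subtype.ext (hρ _ hm a)
    have key : ∀ b : A, b ≠ 0 → ∃ j, l ^ j • b ≠ 0 ∧ l • l ^ j • b = 0 := fun b hb => by
      classical
      have h1 := Nat.find_spec (ht b)
      obtain ⟨j, hj⟩ : ∃ j, Nat.find (ht b) = j + 1 :=
        Nat.exists_eq_succ_of_ne_zero fun h => hb (by simpa [h] using h1)
      exact ⟨j, Nat.find_min (ht b) (by omega), by rwa [hj, pow_succ', mul_smul] at h1⟩
    have hdv : l ∣ Nat.card π.ker := by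
      rw [injective_iff_map_eq_zero] at hi
      push Not at hi
      obtain ⟨b, b1, b2⟩ := hi
      obtain ⟨j, j1, j2⟩ := key b b2
      let b' : π.ker := ⟨l ^ j • b, π.ker.nsmul_mem b1 _⟩
      have : addOrderOf b' = l :=
        addOrderOf_eq_prime (Subtype.ext j2) fun h => j1 (congrArg Subtype.val h)
      exact this ▸ addOrderOf_dvd_natCard b'
    obtain ⟨b, b1, b2⟩ := hφ.exists_fixed_point_of_prime_dvd_card_of_fixed_point π.ker hdv (a := 0)
      (by rintro ⟨_, g, rfl⟩; exact Subtype.ext (map_zero (ρ g)))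
    obtain ⟨j, j1, j2⟩ := key b fun h => b2 (Subtype.ext h.symm)
    refine ⟨l ^ j • b, π.ker.nsmul_mem b.2 _, j1, j2, fun g => ?_⟩
    rw [map_nsmul]
    exact congrArg (fun x : π.ker => l ^ j • (x : A)) (b1 ⟨φ g, g, rfl⟩)
  let ι : ZMod l →+ A := ZMod.lift l ⟨zmultiplesHom A a, by simpa using a3⟩
  have hι : ∀ m : ℤ, ι m = m • a := fun m => ZMod.lift_coe _ _ _
  have hinj : Function.Injective ι := (ZMod.lift_injective _).2 fun m hm => by
    rw [ZMod.intCast_zmod_eq_zero_iff_dvd, ← addOrderOf_eq_prime a3 a2]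
    exact addOrderOf_dvd_iff_zsmul_eq_zero.2 hm
  let K : Submodule ℤ A := Submodule.span ℤ {a}
  have hK : ∀ g, K ≤ K.comap (ρ g) := fun g => Submodule.span_le.2 (by
    rintro _ rfl
    change ρ g _ ∈ K
    rw [a4]; exact Submodule.mem_span_singleton_self _)
  let π' : (A ⧸ K) →ₗ[ℤ] B := K.liftQ π.toIntLinearMap (Submodule.span_le.2 (by
    rintro _ rfl; exact a1))
  have hq : ∀ g x, K.mkQ (ρ g x) = ρ.quotient K hK g (K.mkQ x) := fun _ _ => rfl
  have hfin : Finite (A ⧸ K) := Finite.of_surjective _ K.mkQ_surjective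
  have hlt : Nat.card π'.toAddMonoidHom.ker < n := by
    let q : π.ker → π'.toAddMonoidHom.ker := fun x => ⟨K.mkQ x, x.2⟩
    have q1 : Function.Surjective q := by
      rintro ⟨y, hy⟩
      obtain ⟨x, rfl⟩ := K.mkQ_surjective y
      exact ⟨⟨x, hy⟩, rfl⟩
    refine hn ▸ lt_of_le_of_ne (Nat.card_le_card_of_surjective q q1) fun h => a2 ?_
    have q2 := (Nat.bijective_iff_surjective_and_card q).2 ⟨q1, h.symm⟩
    refine congrArg Subtype.val (q2.1 (a₁ := ⟨a, a1⟩) (a₂ := 0) (Subtype.ext ?_))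
    exact ((Submodule.Quotient.mk_eq_zero K).2 (Submodule.mem_span_singleton_self _)).trans
      (map_zero K.mkQ).symm
  have hρ' : ∀ g ∈ N, ∀ y, ρ.quotient K hK g y = y := fun g hg y => by
    obtain ⟨x, rfl⟩ := K.mkQ_surjective y
    rw [← hq, hρ g hg]
  have ht' : ∀ y : A ⧸ K, ∃ m, l ^ m • y = 0 := fun y => by
    obtain ⟨x, rfl⟩ := K.mkQ_surjective y
    obtain ⟨m, hm⟩ := ht x
    exact ⟨m, by rw [← map_nsmul, hm, map_zero]⟩
  obtain ⟨e, e1, ⟨M, e2, e2'⟩, e3⟩ := ih _ hlt (A ⧸ K) (ρ.quotient K hK) π'.toAddMonoidHom rfl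
    (fun g y => by obtain ⟨x, rfl⟩ := K.mkQ_surjective y; exact hπ g x) hρ' ht'
    fun g => (hr g).imp' K.mkQ fun _ h => h
  have ea : ∀ g ∈ N, ∀ h, e (g * h) = e g + e h := fun g hg h => by
    rw [e1 g trivial h trivial, hρ' g hg]
  let N' : Subgroup G :=
    { carrier := {g | g ∈ N ∧ e g = 0}
      one_mem' := ⟨N.one_mem, e1.one⟩
      mul_mem' := fun {g h} hg hh => ⟨N.mul_mem hg.1 hh.1, by rw [ea g hg.1, hg.2, hh.2, add_zero]⟩
      inv_mem' := fun {g} hg => ⟨N.inv_mem hg.1, by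
        have := ea g hg.1 g⁻¹
        rwa [mul_inv_cancel, e1.one, hg.2, zero_add, eq_comm] at this⟩ }
  have : N'.Normal := ⟨fun x hx g => ⟨Subgroup.Normal.conj_mem inferInstance x hx.1 g, by
    have := e1 g trivial g⁻¹ trivial
    rw [mul_inv_cancel, e1.one] at this
    rw [mul_assoc, e1 g trivial _ trivial, ea x hx.1, hx.2, zero_add, ← this]⟩⟩
  obtain ⟨d, d1, d2, d3⟩ := central (N := N') O hT K.mkQ.toAddMonoidHom hq
    (fun x => O.up hN fun g hg => hρ g hg x) ι hinj (fun x => by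
      refine (Submodule.Quotient.mk_eq_zero K).trans (Submodule.mem_span_singleton.trans ?_)
      exact ⟨fun ⟨m, hm⟩ => ⟨m, (hι m).trans hm⟩, fun ⟨y, hy⟩ => by
        obtain ⟨m, rfl⟩ := ZMod.intCast_surjective y
        exact ⟨m, (hι m).symm.trans hy⟩⟩)
    (fun g y => by
      obtain ⟨m, rfl⟩ := ZMod.intCast_surjective y
      rw [hι, map_zsmul, a4]) e1 (fun g => K.mkQ_surjective _)
    (O.up (O.inf hN e2) fun g hg => ⟨hg.1, e2' g trivial hg.2⟩) (fun g => by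
      obtain ⟨m, hm⟩ := hp g
      obtain ⟨m', hm'⟩ := ht' (e (g ^ l ^ m))
      have : ∀ j : ℕ, e ((g ^ l ^ m) ^ j) = j • e (g ^ l ^ m) := fun j => by
        induction j with
        | zero => simpa using e1.one
        | succ j ih => rw [pow_succ', ea _ hm, ih, succ_nsmul']
      refine ⟨m + m', ?_⟩
      rw [pow_add, pow_mul]
      exact ⟨N.pow_mem hm _, (this _).trans hm'⟩) (fun g hg => hg.2) ⊤ O.top
  exact ⟨d, d1, d2, fun g => (congrArg π' (d3 g trivial)).trans (e3 g)⟩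

/-- Restriction of the filter to an open subgroup. -/
def Opn.res (O : Opn G) {P : Subgroup G} (hP : O.op P) : Opn P where
  op M := O.op (M.map P.subtype)
  top := by rwa [← MonoidHom.range_eq_map, P.range_subtype]
  inf hM hN := by rw [Subgroup.map_inf _ _ _ P.subtype_injective]; exact O.inf hM hN
  up hM h := O.up hM (Subgroup.map_mono h)
  fin {M} hM := by
    have := O.fin hM
    rw [← Subgroup.comap_map_eq_self_of_injective P.subtype_injective M]
    exact Subgroup.instFiniteIndex_subgroupOf _ _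
  norm {M} hM := by
    obtain ⟨N, h1, h2, h3⟩ := O.norm hM
    refine ⟨N.comap P.subtype, fun g hg => ?_, inferInstance, O.up (O.inf hP h3) fun g hg =>
      ⟨⟨g, hg.1⟩, hg.2, rfl⟩⟩
    obtain ⟨x, hx, h⟩ := h1 hg
    exact Subtype.ext h ▸ hx

open Classical in
/-- Extension by zero. -/
noncomputable def ext0 (P : Subgroup G) {X : Type*} [Zero X] (f : P → X) (g : G) : X :=
  if h : g ∈ P then f ⟨g, h⟩ else 0

lemma ext0_coe {P : Subgroup G} {X : Type*} [Zero X] (f : P → X) (g : P) : ext0 P f g = f g :=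
  dif_pos g.2

lemma Opn.TS.res {O : Opn G} (hT : O.TS l) {P : Subgroup G} (hP : O.op P) : (O.res hP).TS l := by
  intro Q hQ ψ χ h1 h2 h3 h4 ⟨g0, h5, h6⟩
  have ha : ∀ χ : P → ZMod l, Adt Q χ → Adt (Q.map P.subtype) (ext0 P χ) := by
    rintro χ h _ ⟨g, hg, rfl⟩ _ ⟨g', hg', rfl⟩
    exact (ext0_coe χ (g * g')).trans ((h g hg g' hg').trans
      (congrArg₂ _ (ext0_coe χ g).symm (ext0_coe χ g').symm))
  have hb : ∀ χ : P → ZMod l, (O.res hP).Cont Q χ → O.Cont (Q.map P.subtype) (ext0 P χ) := by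
    rintro χ ⟨M, k1, k2⟩
    refine ⟨_, k1, ?_⟩
    rintro _ ⟨g, hg, rfl⟩ ⟨x, hx, h⟩
    exact (ext0_coe χ g).trans (k2 g hg (Subtype.ext h ▸ hx))
  obtain ⟨d, d1, ⟨M, d2, d2'⟩, d3⟩ := hT _ hQ _ _ (ha ψ h1) (ha χ h2) (hb ψ h3) (hb χ h4)
    ⟨g0, ⟨g0, h5, rfl⟩, by rwa [ext0_coe]⟩
  refine ⟨fun g => d g, fun g hg h hh x => ?_, ⟨M.comap P.subtype, O.up (O.inf hP d2) fun g hg =>
    ⟨⟨g, hg.1⟩, hg.2, rfl⟩, fun g hg hM => d2' g ⟨g, hg, rfl⟩ hM⟩,
    fun g hg => (d3 g ⟨g, hg, rfl⟩).trans (ext0_coe χ g)⟩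
  rw [← ext0_coe ψ g]
  exact d1 g ⟨g, hg, rfl⟩ h ⟨h, hh, rfl⟩ x

/-- The case of a finite module. -/
lemma lift_fin (O : Opn G) (hT : O.TS l) [Finite A] (π : A →+ B)
    (hπ : ∀ g a, π (ρ g a) = σ g (π a)) (hd : ∀ a, O.op (stab ρ a))
    (ht : ∀ a : A, ∃ m, l ^ m • a = 0) {c : G → B} (hc : Coc ⊤ σ c) (hc' : O.Cont ⊤ c)
    (hr : ∀ g, ∃ a, π a = c g) : ∃ e : G → A, Coc ⊤ ρ e ∧ O.Cont ⊤ e ∧ ∀ g, π (e g) = c g := by
  classical
  have := Fintype.ofFinite A
  obtain ⟨M, m1, m2⟩ := hc'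
  obtain ⟨M', m3, -, m4⟩ := O.fsInf Finset.univ (stab ρ) fun a _ => hd a
  obtain ⟨N, n1, n2, n3⟩ := O.norm (O.inf m1 m3)
  have := O.fin n3
  obtain ⟨Q⟩ : Nonempty (Sylow l (G ⧸ N)) := inferInstance
  let P : Subgroup G := (Q : Subgroup (G ⧸ N)).comap (QuotientGroup.mk' N)
  have hNP : N ≤ P := fun g hg => by
    change QuotientGroup.mk' N g ∈ (Q : Subgroup (G ⧸ N))
    rw [(QuotientGroup.eq_one_iff g).2 hg |> (show QuotientGroup.mk' N g = 1 from ·)]
    exact one_mem _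
  have hP : O.op P := O.up n3 hNP
  have := O.fin hP
  have hi : ¬ l ∣ P.index := by
    rw [Subgroup.index_comap_of_surjective _ (QuotientGroup.mk'_surjective N)]
    exact Q.not_dvd_index
  obtain ⟨e, e1, ⟨M2, e2, e2'⟩, e3⟩ := finker (σ := σ.comp P.subtype) (c := fun g => c g)
    (N := N.comap P.subtype) (O.res hP) (hT.res hP) (fun g _ h _ => hc g trivial h trivial)
    (O.up n3 fun g hg => ⟨⟨g, hNP hg⟩, hg, rfl⟩) (fun g => by
      obtain ⟨m, hm⟩ := Q.isPGroup' ⟨_, g.2⟩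
      refine ⟨m, (QuotientGroup.eq_one_iff ((g : G) ^ l ^ m)).1 ?_⟩
      exact (map_pow (QuotientGroup.mk' N) (g : G) _).trans (congrArg Subtype.val hm))
    (fun g hg => m2 g trivial (n1 hg).1) _ A (ρ.comp P.subtype) π rfl (fun g => hπ g)
    (fun g hg a => m4 a (Finset.mem_univ _) (n1 hg).2) ht fun g => hr g
  have := Fintype.ofFinite (G ⧸ P)
  obtain ⟨C, c1, ⟨M3, c2, c2'⟩, c3⟩ := shapiro (P := ⊤) (H := P) (e := ext0 P e) O le_top π hπ hd
    hc (fun g _ => hr g) (fun g hg h hh => (ext0_coe e (⟨g, hg⟩ * ⟨h, hh⟩)).trans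
      ((e1 _ trivial _ trivial).trans (congrArg₂ _ (ext0_coe e ⟨g, hg⟩).symm
        (congrArg _ (ext0_coe e ⟨h, hh⟩).symm))))
    ⟨_, e2, by
      rintro g hg ⟨x, hx, rfl⟩
      exact (ext0_coe e x).trans (e2' x trivial hx)⟩
    (fun g hg => (congrArg π (ext0_coe e ⟨g, hg⟩)).trans (e3 _))
    (fun g (x : G ⧸ P) => g⁻¹ • x) Quotient.out (fun _ => trivial)
    (fun g _ h _ x => by rw [mul_inv_rev, mul_smul]) (fun g _ x => by
      rw [mul_assoc, ← QuotientGroup.eq, QuotientGroup.out_eq', ← smul_eq_mul,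
        ← MulAction.Quotient.smul_coe, QuotientGroup.out_eq', smul_inv_smul])
    ⟨N, n3, fun g _ hg x => by
      obtain ⟨y, rfl⟩ := QuotientGroup.mk_surjective x
      rw [MulAction.Quotient.smul_coe, QuotientGroup.eq]
      simpa [mul_assoc] using hNP (n2.conj_mem g hg y⁻¹)⟩
  obtain ⟨m, hm⟩ : ∃ m, ∀ a : A, l ^ m • a = 0 := by
    choose m hm using ht
    refine ⟨Finset.univ.sup m, fun a => ?_⟩
    obtain ⟨j, hj⟩ := Nat.exists_eq_add_of_le (Finset.le_sup (f := m) (Finset.mem_univ a))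
    rw [hj, pow_add, mul_comm, mul_smul, hm, smul_zero]
  obtain ⟨r, s, hrs⟩ : IsCoprime (P.index : ℤ) ((l ^ m : ℕ) : ℤ) :=
    Nat.isCoprime_iff_coprime.2 (((Nat.Prime.coprime_iff_not_dvd hl.out).2 hi).symm.pow_right m)
  refine ⟨fun g => r • ∑ x, C g x, fun g _ h _ => ?_, ⟨M3, c2, fun g _ hg => by
    simp [c2' g trivial hg]⟩, fun g => ?_⟩
  · simp only [c1 g trivial h trivial, Finset.sum_add_distrib, map_zsmul, smul_add, map_sum]
    exact congrArg (fun y => _ + r • y) (Equiv.sum_comp (MulAction.toPerm g⁻¹) fun x => ρ g (C h x))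
  · obtain ⟨a, ha⟩ := hr g
    have h1 : ((l ^ m : ℕ) : ℤ) • c g = 0 := by rw [natCast_zsmul, ← ha, ← map_nsmul, hm, map_zero]
    simp only [map_zsmul, map_sum, c3 g trivial, Finset.sum_const, Finset.card_univ]
    rw [← Nat.card_eq_fintype_card, ← P.index_eq_card, ← natCast_zsmul, ← mul_smul,
      eq_sub_of_add_eq hrs, sub_smul, one_smul, mul_smul, h1, smul_zero, sub_zero]

/-- Continuous cocycles lift along maps of discrete `l`-primary modules. -/
theorem lift (O : Opn G) (hT : O.TS l) (π : A →+ B)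
    (hπ : ∀ g a, π (ρ g a) = σ g (π a)) (hd : ∀ a, O.op (stab ρ a))
    (ht : ∀ a : A, ∃ m, l ^ m • a = 0) {c : G → B} (hc : Coc ⊤ σ c) (hc' : O.Cont ⊤ c)
    (hr : ∀ g, ∃ a, π a = c g) : ∃ e : G → A, Coc ⊤ ρ e ∧ O.Cont ⊤ e ∧ ∀ g, π (e g) = c g := by
  obtain ⟨M, m1, m2⟩ := hc'
  have := O.fin m1
  choose a ha using hr
  let S : Set A := ⋃ x : G ⧸ M, Set.range fun g => ρ g (a x.out)
  have hS : S.Finite := Set.finite_iUnion fun x => by
    have := O.fin (hd (a x.out))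
    refine (Set.finite_range fun y : G ⧸ stab ρ (a x.out) => ρ y.out (a x.out)).subset ?_
    rintro _ ⟨g, rfl⟩
    obtain ⟨h, hh⟩ := QuotientGroup.mk_out_eq_mul (stab ρ (a x.out)) g
    exact ⟨g, by simp only [hh, map_mul, Module.End.mul_apply]; exact congrArg _ h.2⟩
  let K : Submodule ℤ A := Submodule.span ℤ S
  have hK : ∀ g, K ≤ K.comap (ρ g) := fun g => Submodule.span_le.2 fun y hy => by
    obtain ⟨x, h, rfl⟩ := Set.mem_iUnion.1 hy
    exact Submodule.subset_span (Set.mem_iUnion.2 ⟨x, g * h, by simp⟩)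
  have : Module.Finite ℤ K := Module.Finite.span_of_finite ℤ hS
  have ht' : ∀ y : K, ∃ m, l ^ m • y = 0 := fun y => (ht y).imp fun m hm => Subtype.ext hm
  have : Finite K := Module.finite_of_fg_torsion K fun y => by
    obtain ⟨m, hm⟩ := ht' y
    exact ⟨⟨((l ^ m : ℕ) : ℤ), mem_nonZeroDivisors_of_ne_zero
      (by exact_mod_cast pow_ne_zero m hl.out.ne_zero)⟩, (natCast_zsmul _ _).trans hm⟩
  obtain ⟨e, e1, ⟨N, e2, e2'⟩, e3⟩ := lift_fin (ρ := ρ.subrepresentation K hK) O hT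
    (π.comp K.subtype.toAddMonoidHom) (fun g y => hπ g y)
    (fun y => O.up (hd y) fun g hg => Subtype.ext hg) ht' hc ⟨M, m1, m2⟩ fun g => by
      obtain ⟨h, hh⟩ := QuotientGroup.mk_out_eq_mul M g
      refine ⟨⟨a (g : G ⧸ M).out, Submodule.subset_span (Set.mem_iUnion.2 ⟨g, 1, by simp⟩)⟩, ?_⟩
      change π (a _) = _
      rw [ha, hh, hc g trivial h trivial, m2 h trivial h.2, map_zero, add_zero]
  exact ⟨fun g => e g, fun g _ h _ => congrArg Subtype.val (e1 g trivial h trivial),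
    ⟨N, e2, fun g _ hg => congrArg Subtype.val (e2' g trivial hg)⟩, e3⟩

end W

end Pool.Agent.MP_855f4c_ag.E.C

end

section

/-! h86e section C: Hilbert 90, Kummer theory and Tsen's theorem for `Aut(Ω/K)`. -/

namespace Pool.Agent.MP_855f4c_ag.E.C

open scoped IntermediateField
open Polynomial

universe u v

variable {k K Ω : Type} [Field k] [Field K] [Field Ω] [Algebra K Ω]

/-- The pointwise stabiliser of a set. -/
def fixer (K : Type) [Field K] [Algebra K Ω] (S : Set Ω) : Subgroup (Ω ≃ₐ[K] Ω) where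
  carrier := {g | ∀ z ∈ S, g z = z}
  one_mem' _ _ := rfl
  mul_mem' {g h} hg hh z hz := by rw [AlgEquiv.mul_apply, hh z hz, hg z hz]
  inv_mem' {g} hg z hz := by
    conv_lhs => rw [← hg z hz]
    exact g.symm_apply_apply z

variable [Algebra.IsAlgebraic K Ω]

lemma orbit_finite (z : Ω) : (Set.range fun g : Ω ≃ₐ[K] Ω => g z).Finite := by
  refine ((minpoly K z).rootSet_finite Ω).subset ?_
  rintro _ ⟨g, rfl⟩
  rw [mem_rootSet_of_ne (minpoly.ne_zero (Algebra.IsIntegral.isIntegral z))]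
  exact (aeval_algHom_apply g z _).trans (by rw [minpoly.aeval, map_zero])

lemma stable_hull {S : Set Ω} (hS : S.Finite) : ∃ S' : Set Ω, S'.Finite ∧ S ⊆ S' ∧
    (fixer K S').Normal ∧ ∀ g : Ω ≃ₐ[K] Ω, ∀ z ∈ S', g z ∈ S' := by
  have h : ∀ g : Ω ≃ₐ[K] Ω, ∀ z ∈ ⋃ y ∈ S, Set.range fun g : Ω ≃ₐ[K] Ω => g y,
      g z ∈ ⋃ y ∈ S, Set.range fun g : Ω ≃ₐ[K] Ω => g y := fun g z hz => by
    obtain ⟨y, hy, h, rfl⟩ := Set.mem_iUnion₂.1 hz
    exact Set.mem_iUnion₂.2 ⟨y, hy, g * h, rfl⟩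
  refine ⟨_, hS.biUnion fun z _ => orbit_finite z, fun z hz => Set.mem_iUnion₂.2 ⟨z, hz, 1, rfl⟩,
    ⟨fun n hn g z hz => ?_⟩, h⟩
  rw [AlgEquiv.mul_apply, AlgEquiv.mul_apply, hn _ (h _ z hz)]
  exact g.apply_symm_apply z

lemma fixer_fin {S : Set Ω} (hS : S.Finite) : (fixer K S).FiniteIndex := by
  have := hS.to_subtype
  have h : ∀ z : S, (MulAction.stabilizer (Ω ≃ₐ[K] Ω) (z : Ω)).FiniteIndex := fun z =>
    ⟨by rw [MulAction.index_stabilizer]
        exact ((Set.ncard_pos (orbit_finite (z : Ω))).2 ⟨_, 1, rfl⟩).ne'⟩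
  have := Subgroup.finiteIndex_iInf h
  exact Subgroup.finiteIndex_of_le (H := ⨅ z : S, MulAction.stabilizer _ (z : Ω))
    fun g hg z hz => Subgroup.mem_iInf.1 hg ⟨z, hz⟩

variable (K Ω) in
/-- Open subgroups of `Aut(Ω/K)`. -/
def galO : Opn (Ω ≃ₐ[K] Ω) where
  op M := ∃ S : Set Ω, S.Finite ∧ fixer K S ≤ M
  top := ⟨∅, Set.finite_empty, le_top⟩
  inf := fun ⟨S, h1, h2⟩ ⟨T, h3, h4⟩ => ⟨S ∪ T, h1.union h3, fun _ hg =>
    ⟨h2 fun z hz => hg z (.inl hz), h4 fun z hz => hg z (.inr hz)⟩⟩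
  up := fun ⟨S, h1, h2⟩ h => ⟨S, h1, h2.trans h⟩
  fin := fun ⟨_, h1, h2⟩ => have := fixer_fin (K := K) h1; Subgroup.finiteIndex_of_le h2
  norm := fun ⟨_, h1, h2⟩ => by
    obtain ⟨S', g1, g2, g3, -⟩ := stable_hull (K := K) h1
    exact ⟨fixer K S', fun g hg => h2 fun z hz => hg z (g2 hz), g3, S', g1, le_rfl⟩

/-- Hilbert 90 for continuous cocycles on a subgroup. -/
theorem h90 (P : Subgroup (Ω ≃ₐ[K] Ω)) (f : (Ω ≃ₐ[K] Ω) → Ω) (h0 : ∀ g ∈ P, f g ≠ 0)
    (h1 : ∀ g ∈ P, ∀ h ∈ P, f (g * h) = f g * g (f h)) {S : Set Ω} (hS : S.Finite)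
    (h2 : ∀ g ∈ P, g ∈ fixer K S → f g = 1) : ∃ α : Ω, α ≠ 0 ∧ ∀ g ∈ P, g α = f g * α := by
  obtain ⟨S', g1, g2, g3, g4⟩ := stable_hull (K := K) hS
  have := fixer_fin (K := K) g1
  let N := (fixer K S').subgroupOf P
  have := Fintype.ofFinite (P ⧸ N)
  let L := Submonoid.closure S'
  have hL : ∀ n ∈ fixer K S', ∀ z ∈ L, n z = z := fun n hn z hz =>
    Submonoid.closure_induction (fun z hz => hn z hz) (map_one n)
      (fun a b _ _ ha hb => by rw [map_mul, ha, hb]) hz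
  let φ : P ⧸ N → L →* Ω := fun x => ((x.out : P) : Ω ≃ₐ[K] Ω).toMonoidHom.comp L.subtype
  have hφ : Function.Injective φ := fun x y h => by
    rw [← QuotientGroup.out_eq' x, ← QuotientGroup.out_eq' y, QuotientGroup.eq]
    intro z hz
    have := DFunLike.congr_fun h ⟨z, Submonoid.subset_closure hz⟩
    exact (AlgEquiv.symm_apply_eq _).2 this.symm
  have hli := (linearIndependent_monoidHom L Ω).comp φ hφ
  obtain ⟨z, hz⟩ : ∃ z : L, ∑ x : P ⧸ N, f x.out * φ x z ≠ 0 := by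
    by_contra h
    push Not at h
    exact h0 _ (Quotient.out ((1 : P) : P ⧸ N)).2 (Fintype.linearIndependent_iff.1 hli
      (fun x => f x.out) (funext fun z => by simpa using h z) ((1 : P) : P ⧸ N))
  refine ⟨_, inv_ne_zero hz, fun g hg => ?_⟩
  rw [map_inv₀, ← div_eq_mul_inv, inv_eq_one_div, div_eq_div_iff ((map_ne_zero g).2 hz) hz, one_mul,
    map_sum, Finset.mul_sum, ← Equiv.sum_comp (MulAction.toPerm (⟨g, hg⟩ : P))]
  refine Finset.sum_congr rfl fun x _ => ?_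
  obtain ⟨n, hn⟩ := QuotientGroup.mk_out_eq_mul N (⟨g, hg⟩ * x.out)
  have e1 : (MulAction.toPerm (⟨g, hg⟩ : P) x) = ((⟨g, hg⟩ * x.out : P) : P ⧸ N) := by
    conv_lhs => rw [← QuotientGroup.out_eq' x]
    rfl
  have e2 : f (n : P) = 1 := h2 _ (n : P).2 fun z hz => n.2 z (g2 hz)
  change f (Quotient.out _ : P) * ((Quotient.out _ : P) : Ω ≃ₐ[K] Ω) z =
    f g * g (f x.out * ((x.out : P) : Ω ≃ₐ[K] Ω) z)
  rw [e1, hn, Subgroup.coe_mul, Subgroup.coe_mul, h1 _ (P.mul_mem hg x.out.2) _ (n : P).2, e2,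
    map_one, mul_one, h1 g hg _ x.out.2, AlgEquiv.mul_apply, hL (n : P) n.2 _ z.2, AlgEquiv.mul_apply,
    map_mul, mul_assoc]

/-- An element fixed by all automorphisms is purely inseparable. -/
lemma pow_mem_of_fixed [IsAlgClosed Ω] {u : Ω} (h : ∀ g : Ω ≃ₐ[K] Ω, g u = u) :
    ∃ e : ℕ, u ^ ringExpChar K ^ e ∈ (algebraMap K Ω).range := by
  classical
  have : IsAlgClosure K Ω := ⟨inferInstance, inferInstance⟩
  have hu := Algebra.IsAlgebraic.isAlgebraic (R := K) u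
  rw [← minpoly.natSepDegree_eq_one_iff_pow_mem, natSepDegree_eq_of_isAlgClosed Ω,
    Finset.card_eq_one]
  refine ⟨u, Finset.ext fun z => ?_⟩
  rw [Multiset.mem_toFinset, mem_aroots, Finset.mem_singleton]
  refine ⟨fun hz => ?_, fun hz => ⟨minpoly.ne_zero hu.isIntegral, hz ▸ minpoly.aeval _ _⟩⟩
  obtain ⟨g, hg⟩ := minpoly.exists_algEquiv_of_root' hu hz.2
  rw [← hg, h]

/-- Kummer theory: continuous cocycles with values in `μ_n`. -/
theorem kummer [IsAlgClosed Ω] {n : ℕ} (hn : (n : K) ≠ 0) (f : (Ω ≃ₐ[K] Ω) → Ω)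
    (h0 : ∀ g, f g ^ n = 1) (h1 : ∀ g h, f (g * h) = f g * g (f h)) {S : Set Ω} (hS : S.Finite)
    (h2 : ∀ g ∈ fixer K S, f g = 1) :
    ∃ (a : K) (α : Ω), a ≠ 0 ∧ α ^ n = algebraMap K Ω a ∧ ∀ g : Ω ≃ₐ[K] Ω, g α = f g * α := by
  have hn0 : n ≠ 0 := by rintro rfl; simp at hn
  obtain ⟨α, a1, a2⟩ := h90 ⊤ f (fun g _ h => by simpa [h, hn0] using h0 g)
    (fun g _ h _ => h1 g h) hS fun g _ => h2 g
  obtain ⟨e, b, hb⟩ := pow_mem_of_fixed (K := K) (u := α ^ n) fun g => by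
    rw [map_pow, a2 g trivial, mul_pow, h0, one_mul]
  have hc : (ringExpChar K ^ e).Coprime n := by
    refine Nat.Coprime.pow_left _ ?_
    obtain ⟨q, hq⟩ := ExpChar.exists K
    rw [ringExpChar.eq K q]
    cases hq with
    | zero => simp
    | prime hp =>
      exact (Nat.Prime.coprime_iff_not_dvd hp).2 fun h => hn ((CharP.cast_eq_zero_iff K q n).2 h)
  obtain ⟨r, hr⟩ : ∃ r, ringExpChar K ^ e * r ≡ 1 [MOD n] := by
    obtain ⟨r, hr⟩ := Nat.exists_mul_mod_eq_of_coprime 1 hc hn0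
    exact ⟨r, hr.2⟩
  refine ⟨b ^ r, α ^ (ringExpChar K ^ e * r), pow_ne_zero _ fun h => ?_, ?_, fun g => ?_⟩
  · rw [h, map_zero] at hb
    exact pow_ne_zero _ (pow_ne_zero _ a1) hb.symm
  · rw [map_pow, hb]; ring
  · rw [map_pow, a2 g trivial, mul_pow, pow_eq_pow_mod _ (h0 g), hr, ← pow_eq_pow_mod _ (h0 g),
      pow_one]

section TS

variable [Algebra k K] [Algebra k Ω] [IsScalarTower k K Ω] [IsAlgClosed k] [IsAlgClosed Ω]

omit [Algebra.IsAlgebraic K Ω] [IsAlgClosed k] [IsAlgClosed Ω] in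
lemma fix_const (g : Ω ≃ₐ[K] Ω) (c : k) : g (algebraMap k Ω c) = algebraMap k Ω c := by
  rw [IsScalarTower.algebraMap_apply k K Ω, g.commutes]

omit [Algebra K Ω] [Algebra.IsAlgebraic K Ω] [Algebra k K] [IsScalarTower k K Ω] [IsAlgClosed Ω] in
lemma ff_simple {t : Ω} (htr : Transcendental k t) : WD.FF k k⟮t⟯ := by
  refine ⟨inferInstance, IntermediateField.AdjoinSimple.gen k t,
    fun h => htr (h.algebraMap (A := Ω)), ?_⟩
  have : k⟮IntermediateField.AdjoinSimple.gen k t⟯ = ⊤ := by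
    apply IntermediateField.lift_injective
    rw [IntermediateField.lift_adjoin_simple, IntermediateField.lift_top]
    rfl
  rw [this]
  exact Module.Finite.of_surjective (Algebra.linearMap _ _) fun y => ⟨⟨y, trivial⟩, rfl⟩

omit [Algebra K Ω] [Algebra.IsAlgebraic K Ω] [Algebra k K] [IsScalarTower k K Ω] [Algebra k Ω]
  [IsAlgClosed k] in
lemma norm_aux {F E : Type} [Field F] [Algebra k F] [hF : WD.FF k F] [Algebra F Ω] [Field E]
    [Algebra F E] [FiniteDimensional F E] [Algebra.IsSeparable F E] {l : ℕ} [NeZero l]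
    (hl : Module.finrank F E ≤ l) (e : ZMod l → E →ₐ[F] Ω) (he : Function.Injective e) (a : F) :
    ∃ w : E, ∏ x, e x w = algebraMap F Ω a := by
  have := hF.closed
  obtain ⟨t0, h1, h2⟩ := hF.ex
  obtain ⟨w, hw⟩ := Tsen23.tsen_norm h1 E a
  refine ⟨w, Eq.trans ?_ (hw ▸ Algebra.norm_eq_prod_embeddings F Ω w).symm⟩
  refine Fintype.prod_bijective e ?_ _ _ fun x => rfl
  refine (Fintype.bijective_iff_injective_and_card _).2 ⟨he,
    le_antisymm (Fintype.card_le_of_injective _ he) ?_⟩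
  rwa [AlgHom.card, ZMod.card]

omit [Algebra K Ω] [Algebra.IsAlgebraic K Ω] [Algebra k K] [IsScalarTower k K Ω] [Algebra k Ω]
  [IsAlgClosed k] in
lemma norm_aux2 {F : Type} [Field F] [Algebra k F] [WD.FF k F] [Algebra F Ω] {l : ℕ} [NeZero l]
    (hl : (l : F) ≠ 0) {θ : Ω} (hθ : θ ≠ 0) {b : F} (hb : algebraMap F Ω b = θ ^ l)
    (e : ZMod l → Ω →ₐ[F] Ω) (he : Function.Injective fun x => e x θ) (a : F) :
    ∃ w : Ω, ∏ x, e x w = algebraMap F Ω a ∧ ∀ g h : Ω →ₐ[F] Ω, g θ = h θ → g w = h w := by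
  have hp : aeval θ (X ^ l - C b : F[X]) = 0 := by simp [hb]
  have hsep : IsSeparable F θ := (separable_X_pow_sub_C b hl fun h =>
    pow_ne_zero l hθ (by rw [← hb, h, map_zero])).of_dvd (minpoly.dvd _ _ hp)
  have hfd : FiniteDimensional F F⟮θ⟯ := IntermediateField.adjoin.finiteDimensional hsep.isIntegral
  have : Algebra.IsSeparable F F⟮θ⟯ :=
    (IntermediateField.isSeparable_adjoin_simple_iff_isSeparable _ _).2 hsep
  obtain ⟨w, hw⟩ := norm_aux (k := k) (l := l) (by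
    rw [IntermediateField.adjoin.finrank hsep.isIntegral]
    exact (natDegree_le_of_dvd (minpoly.dvd _ _ hp) (X_pow_sub_C_ne_zero (NeZero.pos l) b)).trans
      natDegree_X_pow_sub_C.le) (fun x => (e x).comp F⟮θ⟯.val)
    (fun x y h => he (DFunLike.congr_fun h (IntermediateField.AdjoinSimple.gen F θ))) a
  refine ⟨w, hw, fun g h e => ?_⟩
  exact DFunLike.congr_fun (IntermediateField.adjoin_algHom_ext F (s := {θ})
    (φ₁ := g.comp F⟮θ⟯.val) (φ₂ := h.comp F⟮θ⟯.val) (by rintro _ rfl; exact e)) w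

/-- Norms from a Kummer extension of prime degree. -/
lemma exists_norm (hK : TD1 k K) {l : ℕ} [hl : Fact l.Prime] (hlk : (l : k) ≠ 0)
    {P : Subgroup (Ω ≃ₐ[K] Ω)} {θ a : Ω} (hθ : θ ≠ 0) (ha : ∀ g ∈ P, g a = a)
    (hb : ∀ g ∈ P, g (θ ^ l) = θ ^ l) (s : ZMod l → Ω ≃ₐ[K] Ω) (hs : ∀ x, s x ∈ P)
    (hi : Function.Injective fun x => s x θ) :
    ∃ w : Ω, ∏ x, s x w = a ∧ ∀ g ∈ P, ∀ h ∈ P, g θ = h θ → g w = h w := by
  classical
  obtain ⟨t, ht⟩ := hK.ext (Ω := Ω)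
  have ht0 : ∀ g : Ω ≃ₐ[K] Ω, g (algebraMap K Ω t) = algebraMap K Ω t := fun g => g.commutes t
  generalize algebraMap K Ω t = t' at ht ht0
  have htr : Transcendental k t' := fun h => by
    have : Algebra.IsAlgebraic k k⟮t'⟯ := IntermediateField.isAlgebraic_adjoin_simple h.isIntegral
    have : Algebra.IsAlgebraic k Ω := .trans k k⟮t'⟯ Ω
    obtain ⟨c, rfl⟩ := (IsAlgClosed.algebraMap_bijective_of_isIntegral (k := k) (K := Ω)).2 θ
    exact zero_ne_one (hi (a₁ := 0) (a₂ := 1) ((fix_const _ c).trans (fix_const _ c).symm))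
  have hF := ff_simple htr
  obtain ⟨K0, hK0⟩ : ∃ K0 : IntermediateField k⟮t'⟯ Ω,
    K0 = IntermediateField.adjoin _ {a, θ ^ l} := ⟨_, rfl⟩
  have : FiniteDimensional k⟮t'⟯ K0 := hK0 ▸
    IntermediateField.finiteDimensional_adjoin fun x _ => Algebra.IsIntegral.isIntegral x
  have hF0 : WD.FF k K0 := WD.FF.of_finite k k⟮t'⟯ K0
  have hfix : ∀ g ∈ P, ∀ z ∈ K0, g z = z := fun g hg z hz => by
    rw [hK0] at hz
    refine IntermediateField.adjoin_induction _ (p := fun z _ => g z = z) ?_ (fun y => ?_)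
      (fun _ _ _ _ h1 h2 => by rw [map_add, h1, h2]) (fun _ _ h => by rw [map_inv₀, h])
      (fun _ _ _ _ h1 h2 => by rw [map_mul, h1, h2]) hz
    · rintro _ (rfl | rfl)
      exacts [ha g hg, hb g hg]
    · refine IntermediateField.adjoin_induction _ (p := fun z _ => g z = z) ?_ (fix_const g)
        (fun _ _ _ _ h1 h2 => by rw [map_add, h1, h2]) (fun _ _ h => by rw [map_inv₀, h])
        (fun _ _ _ _ h1 h2 => by rw [map_mul, h1, h2]) y.2
      rintro _ rfl
      exact ht0 g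
  have hlK : (l : K0) ≠ 0 := by
    rw [← map_natCast (algebraMap k K0)]; exact (_root_.map_ne_zero _).2 hlk
  let emb : ∀ g ∈ P, Ω →ₐ[K0] Ω := fun g hg =>
    { toRingHom := (g : Ω →+* Ω), commutes' := fun z => hfix g hg z z.2 }
  obtain ⟨w, h1, h2⟩ := norm_aux2 (k := k) hlK hθ
    (b := ⟨θ ^ l, hK0 ▸ IntermediateField.subset_adjoin _ _ (by simp)⟩) rfl
    (fun x => emb (s x) (hs x)) hi ⟨a, hK0 ▸ IntermediateField.subset_adjoin _ _ (by simp)⟩
  exact ⟨w, h1, fun g hg h hh e => h2 (emb g hg) (emb h hh) e⟩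

theorem ts (hK : TD1 k K) {l : ℕ} [hl : Fact l.Prime] (hlk : (l : k) ≠ 0) : (galO K Ω).TS l := by
  rintro P - ψ χ h1 h2 ⟨M1, ⟨S1, s1, s1'⟩, h3⟩ ⟨M2, ⟨S2, s2, s2'⟩, h4⟩ ⟨g0, h5, h6⟩
  have : NeZero (l : k) := ⟨hlk⟩
  obtain ⟨ζ0, hζ0⟩ := HasEnoughRootsOfUnity.exists_primitiveRoot k l
  have hζ := hζ0.map_of_injective (algebraMap k Ω).injective
  let e := AddChar.zmodChar l hζ.pow_eq_one
  have e1 : ∀ (g : Ω ≃ₐ[K] Ω) x, g (e x) = e x := fun g x => by
    change g (_ ^ _) = _ ^ _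
    rw [map_pow, fix_const]
  have e2 : Function.Injective e := fun x y h =>
    ZMod.val_injective l (hζ.pow_inj x.val_lt y.val_lt h)
  have e3 : ∀ x, e x ^ l = 1 := fun x => by
    rw [← AddChar.map_nsmul_eq_pow, nsmul_eq_mul, ZMod.natCast_self, zero_mul, AddChar.map_zero_eq_one]
  have e4 : ∀ x, e x ≠ 0 := fun x h => by simpa [h, hl.out.ne_zero] using e3 x
  have e5 : ∀ u v : Ω, v ≠ 0 → u ^ l = v ^ l → ∃ y, u = e y * v := fun u v hv h => by
    obtain ⟨i, -, hi⟩ := hζ.eq_pow_of_pow_eq_one (ξ := u / v)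
      (by rw [div_pow, h, div_self (pow_ne_zero _ hv)])
    exact ⟨i, by rw [AddChar.zmodChar_apply', hi, div_mul_cancel₀ _ hv]⟩
  have H : ∀ χ : (Ω ≃ₐ[K] Ω) → ZMod l, Adt P χ → ∀ S : Set Ω, S.Finite →
      (∀ g ∈ P, g ∈ fixer K S → χ g = 0) → ∃ α : Ω, α ≠ 0 ∧ ∀ g ∈ P, g α = e (χ g) * α :=
    fun χ h S hS h' => h90 P _ (fun g _ => e4 _)
      (fun g hg g' hg' => by rw [h g hg g' hg', AddChar.map_add_eq_mul, e1]) hS
      fun g hg hg' => by rw [h' g hg hg', AddChar.map_zero_eq_one]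
  obtain ⟨θ, t1, t2⟩ := H ψ h1 S1 s1 fun g hg h => h3 g hg (s1' h)
  obtain ⟨α, a1, a2⟩ := H χ h2 S2 s2 fun g hg h => h4 g hg (s2' h)
  have hs : ∀ x : ZMod l, ∃ g ∈ P, ψ g = x := fun x => by
    have : ∀ j : ℕ, ψ (g0 ^ j) = j * ψ g0 := fun j => by
      induction j with
      | zero => simpa using h1 1 P.one_mem 1 P.one_mem
      | succ j ih => rw [pow_succ, h1 _ (P.pow_mem h5 j) _ h5, ih]; push_cast; ring
    exact ⟨_, P.pow_mem h5 (x / ψ g0).val, by
      rw [this, ZMod.natCast_zmod_val, div_mul_cancel₀ _ h6]⟩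
  choose s hs1 hs2 using hs
  obtain ⟨w, w1, w2⟩ := exists_norm (P := P) (a := α ^ l) hK hlk t1
    (fun g hg => by rw [map_pow, a2 g hg, mul_pow, e3, one_mul])
    (fun g hg => by rw [map_pow, t2 g hg, mul_pow, e3, one_mul]) s hs1 fun x y h => by
      simp only [t2 _ (hs1 _), hs2] at h
      exact e2 (mul_right_cancel₀ t1 h)
  have w0 : ∀ x, s x w ≠ 0 := fun x h =>
    pow_ne_zero l a1 (w1 ▸ Finset.prod_eq_zero (Finset.mem_univ x) h)
  choose β hβ using fun x => IsAlgClosed.exists_pow_nat_eq (s x w) hl.out.pos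
  have b0 : ∀ x, β x ≠ 0 := fun x h => w0 x (by rw [← hβ, h, zero_pow hl.out.ne_zero])
  have hd : ∀ (g : Ω ≃ₐ[K] Ω) x, ∃ y, g ∈ P → g (β (x - ψ g)) = e y * β x := fun g x => by
    by_cases hg : g ∈ P
    · refine (e5 _ _ (b0 x) ?_).imp fun y hy _ => hy
      rw [← map_pow, hβ, hβ, ← AlgEquiv.mul_apply]
      refine w2 _ (P.mul_mem hg (hs1 _)) _ (hs1 _) ?_
      rw [t2 _ (P.mul_mem hg (hs1 _)), t2 _ (hs1 _), h1 g hg _ (hs1 _), hs2, hs2, add_sub_cancel]
    · exact ⟨0, fun h => absurd h hg⟩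
  choose d hd using hd
  refine ⟨d, fun g hg h hh x => e2 (mul_right_cancel₀ (b0 x) ?_),
    ⟨_, ⟨insert θ (Set.range β), (Set.finite_range β).insert θ, le_rfl⟩, fun g hg hM =>
      funext fun x => e2 (mul_right_cancel₀ (b0 x) ?_)⟩, fun g hg => e2 ?_⟩
  · rw [← hd _ x (P.mul_mem hg hh), h1 g hg h hh, ← sub_sub, AlgEquiv.mul_apply, hd h _ hh, map_mul,
      e1, hd g _ hg, AddChar.map_add_eq_mul]
    ring
  · have : ψ g = 0 := e2 (mul_right_cancel₀ t1 (by
      rw [← t2 g hg, hM θ (.inl rfl), AddChar.map_zero_eq_one, one_mul]))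
    rw [← hd g x hg, this, sub_zero, hM _ (.inr ⟨x, rfl⟩), Pi.zero_apply, AddChar.map_zero_eq_one,
      one_mul]
  · obtain ⟨y, hy⟩ := e5 (∏ x, β x) α a1 (by simp only [← Finset.prod_pow, hβ, w1])
    have k1 : g (∏ x, β x) = e (∑ x, d g x) * ∏ x, β x := by
      rw [← Equiv.prod_comp (Equiv.subRight (ψ g)) β, map_prod]
      simp only [Equiv.subRight_apply, hd g _ hg, Finset.prod_mul_distrib]
      rw [Equiv.prod_comp (Equiv.subRight (ψ g)) β |> (show ∏ x, β (x - ψ g) = _ from ·)]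
      congr 1
      exact (map_prod e.toMonoidHom (fun x => Multiplicative.ofAdd (d g x)) _).symm
    rw [hy, map_mul, e1, a2 g hg, mul_left_comm] at k1
    exact (mul_right_cancel₀ (mul_ne_zero (e4 y) a1) k1).symm

/-- Cohomological dimension one: continuous cocycles of `Aut(Ω/K)` lift. -/
theorem lift_gal (hK : TD1 k K) {l : ℕ} [Fact l.Prime] (hlk : (l : k) ≠ 0) {A : Type u} {B : Type v}
    [AddCommGroup A] [AddCommGroup B] (ρ : Representation ℤ (Ω ≃ₐ[K] Ω) A)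
    (σ : Representation ℤ (Ω ≃ₐ[K] Ω) B) (π : A →+ B) (hπ : ∀ g a, π (ρ g a) = σ g (π a))
    (hs : Function.Surjective π)
    (hd : ∀ a, ∃ S : Set Ω, S.Finite ∧ ∀ g : Ω ≃ₐ[K] Ω, (∀ z ∈ S, g z = z) → ρ g a = a)
    (ht : ∀ a : A, ∃ m, l ^ m • a = 0) (c : (Ω ≃ₐ[K] Ω) → B)
    (hc : ∀ g h, c (g * h) = c g + σ g (c h))
    (hc' : ∃ S : Set Ω, S.Finite ∧ ∀ g : Ω ≃ₐ[K] Ω, (∀ z ∈ S, g z = z) → c g = 0) :
    ∃ e : (Ω ≃ₐ[K] Ω) → A, (∀ g h, e (g * h) = e g + ρ g (e h)) ∧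
      (∃ S : Set Ω, S.Finite ∧ ∀ g : Ω ≃ₐ[K] Ω, (∀ z ∈ S, g z = z) → e g = 0) ∧
      ∀ g, π (e g) = c g := by
  obtain ⟨S, s1, s2⟩ := hc'
  obtain ⟨e, e1, ⟨M, ⟨T, t1, t2⟩, e2⟩, e3⟩ := lift (galO K Ω) (ts hK hlk) π hπ hd ht
    (fun g _ h _ => hc g h) ⟨_, ⟨S, s1, le_rfl⟩, fun g _ => s2 g⟩ fun g => hs _
  exact ⟨e, fun g h => e1 g trivial h trivial, ⟨T, t1, fun g hg => e2 g trivial (t2 hg)⟩, e3⟩

end TS

end Pool.Agent.MP_855f4c_ag.E.C

end

section

namespace Pool.Agent.MP_855f4c_ag.E.Planch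

open Finset

variable {k : Type} [Field k] [Fintype k] [DecidableEq k]

lemma sum_chars [Fintype (MulChar k ℂ)] (a : k) :
    ∑ χ : MulChar k ℂ, χ a = if a = 1 then (Fintype.card kˣ : ℂ) else 0 := by
  have : NeZero (Monoid.exponent kˣ) := ⟨Monoid.exponent_ne_zero_of_finite⟩
  split_ifs with h
  · subst h
    simp only [map_one, Finset.sum_const, Finset.card_univ, nsmul_eq_mul, mul_one]
    rw [← Nat.card_eq_fintype_card, MulChar.card_eq_card_units_of_hasEnoughRootsOfUnity k ℂ,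
      Nat.card_eq_fintype_card]
  · obtain ⟨χ0, h0⟩ := MulChar.exists_apply_ne_one_of_hasEnoughRootsOfUnity k ℂ h
    have e : ∑ χ : MulChar k ℂ, χ a = χ0 a * ∑ χ : MulChar k ℂ, χ a := by
      rw [Finset.mul_sum, ← Equiv.sum_comp (Equiv.mulLeft χ0)]
      simp only [Equiv.coe_mulLeft, MulChar.mul_apply]
    have : (1 - χ0 a) * ∑ χ : MulChar k ℂ, χ a = 0 := by linear_combination e
    exact (mul_eq_zero.1 this).resolve_left (sub_ne_zero.2 (Ne.symm h0))

open Classical in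
/-- The number of `n`-th roots as a character sum. -/
lemma card_roots [Fintype (MulChar k ℂ)] {n : ℕ} (hn : 0 < n) {a : k} (ha : a ≠ 0) :
    (Nat.card {y : k // y ^ n = a} : ℂ) =
      ∑ χ ∈ univ.filter fun χ : MulChar k ℂ => χ ^ n = 1, χ⁻¹ a := by
  have hc : (Fintype.card kˣ : ℂ) ≠ 0 := Nat.cast_ne_zero.2 Fintype.card_ne_zero
  apply mul_left_cancel₀ hc
  have e1 : ∑ y : k, ∑ χ : MulChar k ℂ, χ (y ^ n * a⁻¹) =
      Fintype.card kˣ * (Nat.card {y : k // y ^ n = a} : ℂ) := by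
    simp only [sum_chars, mul_inv_eq_one₀ ha]
    rw [← Finset.sum_filter, Finset.sum_const, nsmul_eq_mul, mul_comm, Nat.card_eq_fintype_card,
      Fintype.card_subtype]
  rw [← e1, Finset.sum_comm, Finset.sum_filter, Finset.mul_sum]
  refine Finset.sum_congr rfl fun χ _ => ?_
  have e2 : ∀ y : k, χ (y ^ n * a⁻¹) = (χ ^ n) y * χ⁻¹ a := fun y => by
    rw [map_mul, map_pow, MulChar.pow_apply' _ hn.ne', MulChar.inv_apply']
  simp only [e2]
  rw [← Finset.sum_mul]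
  split_ifs with h
  · rw [h, MulChar.sum_one_eq_card_units]
  · rw [MulChar.sum_eq_zero_of_ne_one h, zero_mul, mul_zero]

lemma card_roots_le {n : ℕ} (hn : 0 < n) (a : k) : Nat.card {y : k // y ^ n = a} ≤ n := by
  rw [Nat.card_eq_fintype_card, Fintype.card_subtype]
  refine le_trans (Finset.card_le_card (t := (Polynomial.nthRoots n a).toFinset) fun y hy => ?_)
    ((Multiset.toFinset_card_le _).trans (Polynomial.card_nthRoots n a))
  rw [Multiset.mem_toFinset, Polynomial.mem_nthRoots hn]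
  exact (Finset.mem_filter.1 hy).2

/-- L2 bound for the kernel `w (1 - s x)`, `w a` = number of `n`-th roots of `a` minus one. -/
theorem chi {n : ℕ} (hn : 0 < n) (f : k → ℂ) (W : Finset k) (hW : 0 ∉ W) (w : k → ℂ)
    (hw0 : w 0 = 0) (hw : ∀ a, a ≠ 0 → w a = (Nat.card {y : k // y ^ n = a} : ℂ) - 1) :
    ∑ s ∈ W, ‖∑ x, f x * w (1 - s * x)‖ ^ 2 ≤ n ^ 2 * Fintype.card k * ∑ x, ‖f x‖ ^ 2 := by
  classical
  have := Fintype.ofFinite (MulChar k ℂ)
  set X := univ.filter fun χ : MulChar k ℂ => χ ^ n = 1 with hX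
  have h1 : (1 : MulChar k ℂ) ∈ X := Finset.mem_filter.2 ⟨mem_univ _, one_pow n⟩
  have e : ∀ a, w a = ∑ χ ∈ X.erase 1, χ⁻¹ a := fun a => by
    by_cases ha : a = 0
    · rw [ha, hw0]; exact (Finset.sum_eq_zero fun χ _ => MulChar.map_zero _).symm
    · rw [hw a ha, card_roots hn ha, ← hX, ← Finset.add_sum_erase X _ h1, inv_one,
        MulChar.one_apply (IsUnit.mk0 a ha), add_sub_cancel_left]
  have hc : ((X.erase 1).card : ℝ) ≤ n := by
    have h2 := card_roots (k := k) hn one_ne_zero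
    simp only [map_one, Finset.sum_const, nsmul_eq_mul, mul_one, Nat.cast_inj] at h2
    exact_mod_cast Finset.card_erase_le.trans (h2.ge.trans (card_roots_le hn 1))
  have hS : 0 ≤ (Fintype.card k : ℝ) * ∑ x, ‖f x‖ ^ 2 := by positivity
  calc ∑ s ∈ W, ‖∑ x, f x * w (1 - s * x)‖ ^ 2
      ≤ ∑ s ∈ W, (X.erase 1).card * ∑ χ ∈ X.erase 1, ‖∑ x, f x * χ⁻¹ (1 - s * x)‖ ^ 2 := by
        refine Finset.sum_le_sum fun s _ => ?_
        simp only [e, Finset.mul_sum]
        rw [Finset.sum_comm, ← Finset.mul_sum]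
        exact (pow_le_pow_left₀ (norm_nonneg _) (norm_sum_le _ _) 2).trans sq_sum_le_card_mul_sum_sq
    _ = (X.erase 1).card * ∑ χ ∈ X.erase 1, ∑ s ∈ W, ‖∑ x, f x * χ⁻¹ (1 - s * x)‖ ^ 2 := by
        rw [← Finset.mul_sum, Finset.sum_comm]
    _ ≤ n * (n * (Fintype.card k * ∑ x, ‖f x‖ ^ 2)) := by
        refine mul_le_mul hc ((Finset.sum_le_card_nsmul _ _ _ fun χ hχ =>
          planch_le χ⁻¹ (inv_ne_one.2 (Finset.ne_of_mem_erase hχ)) f W hW).trans ?_)
          (by positivity) (by positivity)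
        rw [nsmul_eq_mul]
        exact mul_le_mul_of_nonneg_right hc hS
    _ = _ := by ring

/-- The same with the uniform formula for the kernel (it vanishes at `0`). -/
theorem chi' {n : ℕ} (hn : 0 < n) (f : k → ℂ) (W : Finset k) (hW : 0 ∉ W) :
    ∑ s ∈ W, ‖∑ x, f x * ((Nat.card {y : k // y ^ n = 1 - s * x} : ℂ) - 1)‖ ^ 2 ≤
      n ^ 2 * Fintype.card k * ∑ x, ‖f x‖ ^ 2 :=
  chi hn f W hW (fun a => (Nat.card {y : k // y ^ n = a} : ℂ) - 1) (by simp [hn.ne'])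
    fun _ _ => rfl

end Pool.Agent.MP_855f4c_ag.E.Planch

end
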