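import Pool.Agent.MP_855f4c_ag.EC.Cb
import Pool.Agent.MP_855f4c_ag.EC.F2c
import Pool.Agent.MP_855f4c_ag.EC.F1b
import Pool.Agent.MP_855f4c_ag.EC.F2e
import Pool.Agent.MP_855f4c_ag.EC.Pa
import Pool.Agent.MP_855f4c_ag.EC.E4d

section

/-! h86e section C, row CEN: places and their centres. -/

set_option backward.isDefEq.respectTransparency false

open CategoryTheory Limits AlgebraicGeometry IsLocalRing Polynomial WithZero

namespace Pool.Agent.MP_855f4c_ag.E.CV

namespace CEN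

variable {k K : Type} [Field k] [Field K] [Algebra k K]

lemma resid [IsAlgClosed k] (h : C.TD1 k K) (w : Valuation K ℤᵐ⁰)
    (hc : ∀ c : k, w (algebraMap k K c) ≤ 1) {t : K} (h0 : t ≠ 0) (ht : w t < 1) {f : K}
    (hf : w f ≤ 1) : ∃ c : k, w (f - algebraMap k K c) < 1 := by
  have tr : Transcendental k t := fun ha => by
    obtain ⟨c, rfl⟩ := minpoly.mem_range_of_degree_eq_one k t
      (IsAlgClosed.degree_eq_one_of_irreducible k (minpoly.irreducible ha.isIntegral))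
    exact ht.ne (WD.RR.w_const w hc fun e => h0 (by rw [e, map_zero]))
  obtain ⟨s, hs⟩ := h
  have h1 : ∀ z : K, IsAlgebraic (Algebra.adjoin k {s}) z := fun z =>
    IntermediateField.isAlgebraic_adjoin_iff.1 (hs.isAlgebraic z)
  have h2 : IsAlgebraic (Algebra.adjoin k {t}) s := by
    by_cases h3 : IsAlgebraic k s
    · exact h3.extendScalars (algebraMap k _).injective
    · exact .adjoin_singleton h3 tr (h1 t)
  obtain ⟨P, P0, hP⟩ : IsAlgebraic (Algebra.adjoin k {t}) f :=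
    (h1 f).adjoin_of_forall_isAlgebraic fun x hx => by obtain rfl : x = s := hx.1; exact h2
  have h3 : ∀ z : Algebra.adjoin k {t}, ∃ p : k[X], aeval t p = z := fun z =>
    (Algebra.adjoin_singleton_eq_range_aeval k t).le z.2
  choose p hp using h3
  obtain ⟨q, ⟨j, hj⟩, hq⟩ := WD.RR.prim (k := k) h0 (fun i : Fin (P.natDegree + 1) => f ^ (i : ℕ)) _
    (fun i => p (P.coeff i)) (Fin.last _) (fun e => leadingCoeff_ne_zero.2 P0 (Subtype.ext (by
      have := hp (P.coeff P.natDegree)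
      rw [show p (P.coeff P.natDegree) = 0 from e, map_zero] at this
      exact this.symm))) rfl (by
      rw [aeval_eq_sum_range, Finset.sum_range] at hP
      simp only [hp]
      exact hP)
  have e : ∑ i : Fin (P.natDegree + 1), algebraMap k K ((q i).coeff 0) * f ^ (i : ℕ) =
      t * ∑ i : Fin (P.natDegree + 1), aeval t (-divX (q i)) * f ^ (i : ℕ) := by
    rw [← sub_eq_zero, Finset.mul_sum, ← Finset.sum_sub_distrib, ← hq]
    refine Finset.sum_congr rfl fun j _ => ?_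
    conv_rhs => rw [← X_mul_divX_add (q j)]
    simp only [map_neg, map_add, map_mul, aeval_X, aeval_C]; ring
  have h4 := (WD.RR.w_dep w hc ht.le (fun i : Fin (P.natDegree + 1) => f ^ (i : ℕ))
    (fun i => by rw [map_pow]; exact pow_le_one' hf _) fun i => -divX (q i)).trans_lt ht
  rw [← e] at h4
  set R : k[X] := ∑ i : Fin (P.natDegree + 1), C ((q i).coeff 0) * X ^ (i : ℕ) with hR
  have h5 : R ≠ 0 := fun h => hj (by
    have := congrArg (fun p => p.coeff (j : ℕ)) h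
    simpa [hR, finsetSum_coeff, coeff_C_mul, coeff_X_pow, Fin.val_inj] using this)
  have h6 : w (aeval f R) < 1 := by
    simpa only [hR, map_sum, map_mul, aeval_C, map_pow, aeval_X] using h4
  by_contra hn
  push Not at hn
  rw [(IsAlgClosed.splits R).eq_prod_roots, map_mul, map_mul, aeval_C,
    WD.RR.w_const w hc (leadingCoeff_ne_zero.2 h5), one_mul, map_multiset_prod, map_multiset_prod,
    Multiset.map_map, Multiset.map_map] at h6
  refine h6.not_ge (Multiset.one_le_prod_of_one_le ?_)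
  intro x hx
  obtain ⟨a, -, rfl⟩ := Multiset.mem_map.1 hx
  simpa only [Function.comp_apply, aeval_sub, aeval_X, aeval_C] using hn a

variable {T : Scheme.{0}} {η : Spec (.of K) ⟶ T}

/-- The map from a chart to the valuation ring. -/
def toO (c : Chart k η) (x : WD.Place k K) (h : ∀ b : c.B, x.v (algebraMap c.B K b) ≤ 1) :
    c.B →+* x.v.valuationSubring := (algebraMap c.B K).codRestrict _ h

lemma cen_iff {c : Chart k η} {x : WD.Place k K} (h : ∀ b : c.B, x.v (algebraMap c.B K b) ≤ 1)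
    (p : Spec (.of c.B)) : c.Cen x p ↔ spc (toO c x h) (closedPoint x.v.valuationSubring) = p := by
  have h1 : ∀ b, b ∈ (spc (toO c x h) (closedPoint x.v.valuationSubring)).asIdeal ↔
      x.v (algebraMap c.B K b) < 1 := fun b =>
    Valuation.mem_maximalIdeal_iff (v := x.v) (a := toO c x h b)
  exact ⟨fun h2 => PrimeSpectrum.ext (Ideal.ext fun b => (h1 b).trans (h2.2 b).symm),
    fun h2 => ⟨h, h2 ▸ h1⟩⟩

lemma ex (x : WD.Place k K) {y : T} (h : Cen η x y) :
    ∃ s : Spec (.of x.v.valuationSubring) ⟶ T, spc (algebraMap _ K) ≫ s = η ∧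
      s (closedPoint x.v.valuationSubring) = y := by
  obtain ⟨c, p, rfl, h⟩ := h
  refine ⟨spc (toO c x h.1) ≫ c.ι, ?_, ?_⟩
  · rw [← Spec.map_comp_assoc]; exact c.w
  · rw [Scheme.Hom.comp_apply, (cen_iff h.1 p).1 h]

lemma two (x : WD.Place k K) (c : Chart k η) (p : Spec (.of c.B)) (h : Cen η x (c.ι p)) :
    c.Cen x p := by
  obtain ⟨s, h1, h2⟩ := ex x h
  have H : Set.range s ⊆ Set.range c.ι := Set.range_subset_iff.2 fun z =>
    ((specializes_closedPoint z).map s.continuous).mem_open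
      c.ι.isOpenEmbedding.isOpen_range ⟨p, h2.symm⟩
  obtain ⟨ψ, hψ⟩ := Spec.map_surjective (IsOpenImmersion.lift _ _ H)
  have h3 := IsOpenImmersion.lift_fac _ _ H
  rw [← hψ] at h3
  have h4 : ∀ b, (ψ.hom b : K) = algebraMap c.B K b := fun b => by
    have := h1.trans c.w.symm
    rw [← h3, ← Category.assoc, cancel_mono, ← Spec.map_comp] at this
    exact congr(($(Spec.map_injective this)).hom b)
  have h5 : ∀ b : c.B, x.v (algebraMap c.B K b) ≤ 1 := fun b => h4 b ▸ (ψ.hom b).2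
  refine (cen_iff h5 p).2 (c.ι.isOpenEmbedding.injective ?_)
  have h6 : spc (toO c x h5) = Spec.map ψ :=
    congrArg Spec.map (CommRingCat.hom_ext (RingHom.ext fun b => Subtype.ext (h4 b).symm))
  rw [← h2, ← h3, h6, Scheme.Hom.comp_apply]

lemma ne_bot {x : WD.Place k K} {c : Chart k η} {p : Spec (.of c.B)} (h : c.Cen x p) :
    p.asIdeal ≠ ⊥ := by
  intro e
  obtain ⟨t, ht⟩ := x.unif
  obtain ⟨a, b, hb, rfl⟩ := IsFractionRing.div_surjective (A := c.B) t
  have h1 : ∀ b : c.B, b ≠ 0 → x.v (algebraMap c.B K b) = 1 := fun b hb =>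
    le_antisymm (h.1 b) (not_lt.1 fun h2 => hb (by simpa [e] using (h.2 b).2 h2))
  by_cases ha : a = 0
  · simp [ha] at ht
    exact exp_ne_zero ht.symm
  · rw [map_div₀, h1 a ha, h1 b (nonZeroDivisors.ne_zero hb), div_one, eq_comm, exp_eq_one] at ht
    omega

lemma le {x x' : WD.Place k K} {c : Chart k η} {p : Spec (.of c.B)} (h : c.Cen x p)
    (h' : c.Cen x' p) (f : K) (hf : x.v f ≤ 1) : x'.v f ≤ 1 := by
  have h1 : ∀ {z : WD.Place k K}, c.Cen z p → ∀ b ∉ p.asIdeal, z.v (algebraMap c.B K b) = 1 :=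
    fun hz b hb => le_antisymm (hz.1 b) (not_lt.1 fun h2 => hb ((hz.2 b).2 h2))
  obtain ⟨n, d, e | e⟩ := IsDedekindDomain.HeightOneSpectrum.exists_primeCompl_mul_eq_or_mul_eq
    (K := K) (⟨p.asIdeal, p.isPrime, ne_bot h⟩ : IsDedekindDomain.HeightOneSpectrum c.B) f
  · have := congrArg x'.v e
    rw [map_mul, h1 h' d d.2, mul_one] at this
    exact this ▸ h'.1 n
  · have h2 : n ∉ p.asIdeal := fun hn => by
      have := congrArg x.v e
      rw [map_mul, h1 h d d.2] at this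
      exact ((mul_le_of_le_one_left' hf).trans_lt ((h.2 n).1 hn)).ne this
    have := congrArg x'.v e
    rw [map_mul, h1 h' d d.2, h1 h' n h2, mul_one] at this
    exact this.le

lemma gen_pt (c : Chart k η) (z : Spec (.of K)) : η z = c.ι ⟨⊥, Ideal.isPrime_bot⟩ := by
  refine (congrArg (fun φ : Spec (.of K) ⟶ T => φ z) c.w.symm).trans
    ((Scheme.Hom.comp_apply _ _ _).trans (congrArg _ (PrimeSpectrum.ext ?_)))
  change z.asIdeal.comap (algebraMap c.B K) = ⊥
  rw [Ideal.eq_bot_of_prime z.asIdeal (h := z.isPrime)]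
  exact Ideal.comap_bot_of_injective _ (IsFractionRing.injective c.B K)

end CEN

theorem cen : CEN_s := by
  intro k K _ _ _ _ T η hT
  refine ⟨fun y => ⟨fun hy => ?_, ?_⟩, CEN.two, fun x y y' h h' => ?_, fun x x' y h h' => ?_,
    fun x c h => ⟨_, (CEN.cen_iff h _).2 rfl⟩⟩
  · obtain ⟨c, p, rfl⟩ := hT.chart y
    have h0 : p.asIdeal ≠ ⊥ := fun e => hy ⟨⟨⊥, Ideal.isPrime_bot⟩, by
      rw [CEN.gen_pt c]; exact congrArg _ (PrimeSpectrum.ext e.symm)⟩
    let v : IsDedekindDomain.HeightOneSpectrum c.B := ⟨p.asIdeal, p.isPrime, h0⟩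
    have hc : ∀ a : k, v.valuation K (algebraMap k K a) ≤ 1 := fun a => by
      rw [IsScalarTower.algebraMap_apply k c.B K]; exact v.valuation_le_one _
    obtain ⟨t, ht⟩ := v.valuation_exists_uniformizer K
    have t0 : t ≠ 0 := fun e => by rw [e, map_zero] at ht; exact exp_ne_zero ht.symm
    have t1 : v.valuation K t < 1 := by rw [ht, ← exp_zero, exp_lt_exp]; omega
    exact ⟨⟨v.valuation K, ⟨t, ht⟩, hc, fun f hf => CEN.resid hT.td _ hc t0 t1 hf⟩, c, p, rfl,
      v.valuation_le_one, fun b => (v.valuation_lt_one_iff_mem b).symm⟩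
  · rintro ⟨x, c, p, rfl, h⟩ ⟨z, hz⟩
    rw [CEN.gen_pt c] at hz
    exact CEN.ne_bot h (by rw [← c.ι.isOpenEmbedding.injective hz])
  · obtain ⟨s, h1, rfl⟩ := CEN.ex x h
    obtain ⟨s', h2, rfl⟩ := CEN.ex x h'
    have := hT.sep
    have : IsDominant (spc (algebraMap x.v.valuationSubring K)) :=
      ⟨(PrimeSpectrum.denseRange_comap_iff_ker_le_nilRadical _).2 (by
        rw [(RingHom.injective_iff_ker_eq_bot _).1 Subtype.val_injective]; exact bot_le)⟩
    rw [ext_of_isDominant _ (h1.trans h2.symm)]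
  · obtain ⟨c, p, rfl, h⟩ := h
    have h2 := CEN.two x' c p h'
    exact WD.Place.ext_le fun f hf =>
      WD.Place.v_le_one.1 (CEN.le h h2 f (WD.Place.v_le_one.2 hf))

theorem cof : COF_s := by
  intro k K _ _ _ _ T η c hc
  constructor
  · obtain ⟨S, hS⟩ := hc.out
    refine (S.finite_toSet.biUnion fun b _ => WD.finite_ord (k := k) (algebraMap c.B K b)).subset
      fun x hx => by_contra fun hn => hx fun b => ?_
    simp only [Set.mem_iUnion, Function.mem_support, not_exists, not_not] at hn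
    have hb : b ∈ Algebra.adjoin k (S : Set c.B) := by rw [hS]; trivial
    exact Algebra.adjoin_le (S := x.O.comap (IsScalarTower.toAlgHom k c.B K))
      (fun z hz => WD.Place.mem_O'.2 (hn z hz).ge) hb
  · by_contra hn
    push Not at hn
    obtain ⟨t, ht⟩ := WD.FF.exists_not_const k K
    obtain ⟨a, b, -, rfl⟩ := IsFractionRing.div_surjective (A := c.B) t
    obtain ⟨a', ha⟩ := WD.const_of_reg fun x : WD.Place k K => WD.Place.v_le_one.1 (hn x a)
    obtain ⟨b', hb⟩ := WD.const_of_reg fun x : WD.Place k K => WD.Place.v_le_one.1 (hn x b)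
    exact ht ⟨a' / b', by rw [map_div₀, ha, hb]⟩

end Pool.Agent.MP_855f4c_ag.E.CV

end

section

set_option autoImplicit false
set_option backward.isDefEq.respectTransparency false

open CategoryTheory Limits Abelian Opposite AlgebraicGeometry IsLocalRing

namespace Pool.Agent.MP_855f4c_ag.E.CV

open E3 E4

namespace H12

variable {X : Scheme.{0}}

lemma rc {A B C : Over X} (f : A ⟶ B) (g : B ⟶ C) (F : Sh (Scheme.etaleTopology.over X)) (q : ℕ) (x : H C F q) :
    res f F q (res g F q x) = res (f ≫ g) F q x := by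
  change (Ext.mk₀ _).comp ((Ext.mk₀ _).comp x (zero_add q)) (zero_add q) =
    (Ext.mk₀ _).comp x (zero_add q)
  rw [Ext.mk₀_comp_mk₀_assoc, Functor.map_comp]

lemma rid {A : Over X} (F : Sh (Scheme.etaleTopology.over X)) (q : ℕ) (x : H A F q) : res (𝟙 A) F q x = x := by
  change (Ext.mk₀ _).comp x (zero_add q) = x
  rw [CategoryTheory.Functor.map_id, Ext.mk₀_id_comp]

variable {T : Over X} {k K : Type} [Field k] [Field K] [Algebra k K]
  {η : Spec (.of K) ⟶ T.left}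

lemma s_mem {x : WD.Place k K} {y : T.left} (p : Loc η x y) {U : T.left.Opens} (hy : y ∈ U) (z) :
    p.s z ∈ U :=
  ((specializes_closedPoint (R := p.O) z).map p.s.continuous).mem_open U.isOpen
    ((congrArg (· ∈ U) p.cl).mpr hy)

lemma j_rU {x : WD.Place k K} {y : T.left} (p : Loc η x y) {U : T.left.Opens} (hy : y ∈ U)
    (h : ∀ z, η z ∈ U) : p.j ≫ rU T p.s U (s_mem p hy) = rU T p.t U (p.t_mem h) := by
  rw [← cancel_mono (opι T U), Category.assoc, rU_ι, rU_ι]
  exact Over.OverMorphism.ext p.w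

lemma step [IsAlgClosed k] (hCEN : CEN_s) (hLOCX : LOCX_s) (hC : Crv k η) {W : T.left.Opens}
    (hW : ∀ z, η z ∈ W) {y : T.left} (hy : y ∉ W) :
    ∃ x : WD.Place k K, Cen η x y ∧ Nonempty (Loc η x y) := by
  obtain ⟨x, hx⟩ := ((hCEN k K _ η hC).1 y).1 (by rintro ⟨z, rfl⟩; exact hy (hW z))
  exact ⟨x, hx, hLOCX k K _ η x y hx⟩

lemma chart_ext (hKAP : KAP_s) {n : ℕ} (hn : Linv n X) (c : Chart k η) (u : c.Bˣ) (f : Kˣ)
    (hu : algebraMap c.B K u = f) (h : ∀ z, η z ∈ c.ι.opensRange) :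
    ∃ a, res (rU T η c.ι.opensRange h) (mu X n) 1 a = kap hn (η ≫ T.hom) f := by
  let j : opn T c.ι.opensRange ⟶ ov T c.ι :=
    Over.homMk (IsOpenImmersion.lift c.ι c.ι.opensRange.ι (by
      rintro _ ⟨z, rfl⟩; exact z.2)) (by simp [← Category.assoc])
  have w : spc (algebraMap c.B K) ≫ c.ι ≫ T.hom = η ≫ T.hom := by rw [← Category.assoc, c.w]
  have e : rU T η c.ι.opensRange h ≫ j = sph (algebraMap c.B K) w := by
    refine Over.OverMorphism.ext ?_
    rw [← cancel_mono c.ι]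
    refine Eq.trans ?_ c.w.symm
    refine (Category.assoc _ _ _).trans ?_
    refine (congrArg (_ ≫ ·) (IsOpenImmersion.lift_fac _ _ _)).trans ?_
    exact IsOpenImmersion.lift_fac _ _ _
  refine ⟨res j _ 1 (kap hn (c.ι ≫ T.hom) u), ?_⟩
  rw [rc, e, (hKAP X n hn c.B (c.ι ≫ T.hom)).2.2.2 K _ _ w u]
  exact congrArg _ (Units.ext hu)

end H12

open H12

theorem h1 (hKAP : KAP_s) (hGEO : GEO_s) (hCEN : CEN_s) (hLOCX : LOCX_s) (hLES : LES_s)
    (hGEN : GEN_s) (hLOCK : LOCK_s) : H1_s := by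
  intro k K _ _ _ _ X T η hC n hn U hU
  obtain ⟨-, -, -, g4, g5⟩ := hGEO k K _ η hC
  refine ⟨?_, fun f => ⟨?_, fun hf => ?_⟩⟩
  · rw [injective_iff_map_eq_zero]
    intro z hz
    obtain ⟨V, hV, hηV, h0⟩ := hGEN k K X T η hC U hU _ (mu_lfp X n) 1 z hz
    have := g5 (fun W => ∀ h : W ≤ U, res (rO T h) (mu X n) 1 z = 0) V U hV hηV (fun _ => h0)
      (fun W W' y h1 h2 h3 hy he hP h => by
        have hW := fun z => h1 (hηV z)
        obtain ⟨x, -, ⟨p⟩⟩ := step hCEN hLOCX hC hW hy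
        obtain ⟨d, d1, d2, -, -⟩ := hLES k K X T η hC x y p W W' h2 hW hy he _ (mu_lfp X n)
        obtain ⟨w, hw⟩ := (d1 0 (res (rO T h) _ 1 z)).1 (by rw [rc, rO_rO]; exact hP _)
        obtain ⟨b, rfl⟩ := (hLOCK k K X T η x y p n hn).1 w
        rw [← hw, d2]) le_rfl
    rwa [rO_id, rid] at this
  · rintro ⟨z, hz⟩ x y hy hx
    obtain ⟨p⟩ := hLOCX k K _ η x y hx
    obtain ⟨e, he⟩ := (hLOCK k K X T η x y p n hn).2
    rw [← ZMod.intCast_zmod_eq_zero_iff_dvd, ← he, ← hz, rc, p.i_rU, ← j_rU p hy hU, ← rc,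
      wc_H (SHL.wc p.O) _ _ 0 (res (rU T p.s U (s_mem p hy)) _ 1 z), map_zero, map_zero]
  · obtain ⟨c, hc, u, hu⟩ := g4 U hU f f.ne_zero
    have hηV : ∀ z, η z ∈ c.ι.opensRange := fun z =>
      ⟨spc (algebraMap c.B K) z, by rw [← Scheme.Hom.comp_apply, c.w]⟩
    exact g5 (fun W => ∀ h : ∀ z, η z ∈ W, ∃ a, res (rU T η W h) (mu X n) 1 a =
      kap hn (η ≫ T.hom) f) c.ι.opensRange U (by rintro _ ⟨p, rfl⟩; exact hc p) hηV
      (chart_ext hKAP hn c u f hu) (fun W W' y h1 h2 h3 hy he hP h => by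
        have hW := fun z => h1 (hηV z)
        obtain ⟨x, hx, ⟨p⟩⟩ := step hCEN hLOCX hC hW hy
        obtain ⟨d, -, -, -, d4⟩ := hLES k K X T η hC x y p W W' h2 hW hy he _ (mu_lfp X n)
        obtain ⟨e, he'⟩ := (hLOCK k K X T η x y p n hn).2
        obtain ⟨a, ha⟩ := hP hW
        have hyU : y ∈ U := h3 (show y ∈ (W' : Set T.left) from he ▸ Set.mem_insert _ _)
        obtain ⟨z, rfl⟩ := (d4 0 a).1 (e.injective (by
          rw [← p.i_rU hW, ← rc, ha, he', map_zero, ZMod.intCast_zmod_eq_zero_iff_dvd]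
          exact hf x y hyU hx))
        exact ⟨z, by rw [← ha, rc, rU_rO]⟩) hU

theorem h2 (hCDF : CDF_s) (_hKAP : KAP_s) (hGEO : GEO_s) (hCEN : CEN_s) (hLOCX : LOCX_s)
    (hLES : LES_s) (hGEN : GEN_s) (hLOCK : LOCK_s) (hH1 : H1_s) : H2_s := by
  intro l _ k K _ _ _ _ hl X T η hC n m hnm hn U hU hD z
  obtain ⟨-, -, -, -, g5⟩ := hGEO k K _ η hC
  obtain ⟨V, hV, hηV, h0⟩ := hGEN k K X T η hC U hU _ (mu_lfp X n) 2 z
    (hCDF l k K hC.td hl X _ _ (mu_tc' hnm) 0 _)
  have := g5 (fun W => ∀ h : W ≤ U, res (rO T h) (mu X n) 2 z = 0) V U hV hηV (fun _ => h0)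
    (fun W W' y h1 h2 h3 hy he hP h => by
      have hW := fun z => h1 (hηV z)
      obtain ⟨x, hx, ⟨p⟩⟩ := step hCEN hLOCX hC hW hy
      obtain ⟨d, d1, -, d3, -⟩ := hLES k K X T η hC x y p W W' h2 hW hy he _ (mu_lfp X n)
      obtain ⟨e, he'⟩ := (hLOCK k K X T η x y p n hn).2
      have hyU : y ∈ U := h3 (show y ∈ (W' : Set T.left) from he ▸ Set.mem_insert _ _)
      obtain ⟨f, hf, hf1, hf2⟩ := hD x y hyU hx
      obtain ⟨a, ha⟩ := ((hH1 k K X T η hC n hn W hW).2 (Units.mk0 f hf)).2 fun x' y' hy' hx' =>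
        hf2 x' y' (h3 (h2 hy')) hx' fun e => hy (e ▸ hy')
      obtain ⟨w, hw⟩ := (d1 1 (res (rO T h) _ 2 z)).1 (by rw [rc, rO_rO]; exact hP _)
      obtain ⟨j, hj⟩ := ZMod.intCast_surjective (e w)
      have h5 : (x.ord f : ZMod n) = 1 := by
        rw [← sub_eq_zero, ← Int.cast_one, ← Int.cast_sub, ZMod.intCast_zmod_eq_zero_iff_dvd]
        exact hf1
      rw [← hw]
      refine (d3 0 w).2 ⟨j • a, e.injective ?_⟩
      rw [map_zsmul, map_zsmul, ← p.i_rU hW, ← rc, ha, he', Units.val_mk0, h5, ← hj,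
        zsmul_eq_mul, mul_one]) le_rfl
  rwa [rO_id, rid] at this

end Pool.Agent.MP_855f4c_ag.E.CV

end

section

/-! Section C: cohomology of curves of finite type with coefficients in roots of unity. -/

set_option autoImplicit false
set_option backward.isDefEq.respectTransparency false

open CategoryTheory Limits Abelian Opposite AlgebraicGeometry IsLocalRing

namespace Pool.Agent.MP_855f4c_ag.E.CV

open E3 E4

namespace CRV

lemma rr {X : Scheme.{0}} {T'' T' T : Over X} (f : T'' ⟶ T') (g : T' ⟶ T) (F : Sh (Scheme.etaleTopology.over X)) (q : ℕ)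
    (x : H T F q) : res f F q (res g F q x) = res (f ≫ g) F q x :=
  (pre_pre _ _ x).trans (congrArg (fun a => pre a F q x) ((fr (Scheme.etaleTopology.over X)).map_comp f g).symm)

lemma card_ses {A B C : Type 1} [AddCommGroup A] [AddCommGroup B] [AddCommGroup C] (i : A →+ B)
    (r : B →+ C) (hi : Function.Injective i) (hr : Function.Surjective r)
    (h : ∀ b, r b = 0 ↔ ∃ a, i a = b) : Nat.card B = Nat.card C * Nat.card A := by
  have h1 : r.ker = i.range := AddSubgroup.ext fun b => h b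
  rw [AddSubgroup.card_eq_card_quotient_mul_card_addSubgroup r.ker,
    Nat.card_congr (QuotientAddGroup.quotientKerEquivOfSurjective r hr).toEquiv, h1,
    ← Nat.card_congr (AddMonoidHom.ofInjective hi).toEquiv]

section
variable {l : ℕ} [Fact l.Prime] {k K : Type} [Field k] [IsAlgClosed k] [Field K] [Algebra k K]
  [WD.FF k K] (hl : (l : k) ≠ 0) {X : Scheme.{0}} {T : Over X} {η : Spec (.of K) ⟶ T.left}
  (hc : Crv k η) {n m : ℕ} (hm : n ∣ l ^ m) (hn : Linv n X)

omit [Fact l.Prime] [IsAlgClosed k] in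
include hl hm in
lemma nne : (n : k) ≠ 0 := fun h => by
  obtain ⟨t, ht⟩ := hm
  apply pow_ne_zero m hl
  rw [← Nat.cast_pow, ht, Nat.cast_mul, h, zero_mul]

include hl hc hm hn in
lemma one (pic : PIC_s) (cen : CEN_s) (h2 : H2_s) (U : T.left.Opens) (hU : ∀ z, η z ∈ U)
    (z : WD.Place k K) (hz : ∀ y ∈ U, ¬ Cen η z y) (ξ : H (opn T U) (mu X n) 2) : ξ = 0 := by
  refine h2 l k K hl X T η hc n m hm hn U hU (fun x y hy hx => ?_) ξ
  obtain ⟨f, h0, h1, h3⟩ := pic k K n (nne hl hm) x z fun e => hz y hy (e ▸ hx)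
  exact ⟨f, h0, h1, fun x' y' hy' hx' hne => h3 x'
    (fun e => hne ((cen k K _ η hc).2.2.1 x y' y (e ▸ hx') hx)) fun e => hz y' hy' (e ▸ hx')⟩

include hl hc hm hn in
lemma two (pic : PIC_s) (geo : GEO_s) (cen : CEN_s) (cof : COF_s) (lx : LOCX_s) (les : LES_s)
    (lk : LOCK_s) (h2 : H2_s) (c : Chart k η) (hf : Algebra.FiniteType k c.B)
    (U : T.left.Opens) (hU : ∀ z, η z ∈ U) :
    ∃ e : ZMod n →+ H (opn T U) (mu X n) 2, Function.Surjective e := by
  obtain ⟨-, g2, g3, -⟩ := geo k K _ η hc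
  obtain ⟨c1, -, c3, -⟩ := cen k K _ η hc
  by_cases hy : ∃ y ∈ U, y ∉ Set.range η
  · obtain ⟨y, hyU, hy⟩ := hy
    obtain ⟨x, hx⟩ := (c1 y).1 hy
    have h0 : ∀ z, η z ∈ (U : Set T.left) \ {y} := fun z => ⟨hU z, fun e => hy ⟨z, e⟩⟩
    let V : T.left.Opens := ⟨(U : Set T.left) \ {y}, g3 _ h0 (by
      rw [Set.compl_sdiff]
      exact (Set.finite_singleton y).union (g2 U hU).1)⟩
    obtain ⟨p⟩ := lx k K _ η x y hx
    obtain ⟨d, d1, -⟩ := les k K X T η hc x y p V U (fun _ h => h.1) h0 (fun h => h.2 rfl)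
      (by rw [show (V : Set T.left) = (U : Set T.left) \ {y} from rfl, Set.insert_sdiff_singleton,
        Set.insert_eq_of_mem hyU]) (mu X n) (mu_lfp X n)
    obtain ⟨-, e, -⟩ := lk k K X T η x y p n hn
    refine ⟨(d 1).comp e.symm.toAddMonoidHom, fun z => ?_⟩
    obtain ⟨w, hw⟩ := (d1 1 z).1
      (one hl hc hm hn pic cen h2 V h0 x (fun y' h' hx' => h'.2 (c3 x y' y hx' hx)) _)
    exact ⟨e w, by simpa using hw⟩
  · obtain ⟨z, -⟩ := (cof k K _ η c hf).2
    exact ⟨0, fun ξ => ⟨0, (one hl hc hm hn pic cen h2 U hU z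
      (fun y hyU hz => hy ⟨y, hyU, (c1 y).2 ⟨z, hz⟩⟩) ξ).symm⟩⟩

omit [Fact l.Prime] in
include hl hc hm hn in
lemma three (fk : FINK_s) (kp : KAP_s) (kf : KUMF_s) (geo : GEO_s) (cen : CEN_s) (cof : COF_s)
    (h1 : H1_s) (c : Chart k η) (hf : Algebra.FiniteType k c.B)
    (U : T.left.Opens) (hU : ∀ z, η z ∈ U) : Finite (H (opn T U) (mu X n) 1) := by
  classical
  obtain ⟨-, g2, -⟩ := geo k K _ η hc
  obtain ⟨-, -, -, c4, c5⟩ := cen k K _ η hc
  obtain ⟨hi, hr⟩ := h1 k K X T η hc n hn U hU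
  obtain ⟨k1, -, k3, -⟩ := kp X n hn K (η ≫ T.hom)
  have hS : {x : WD.Place k K | ∀ y ∈ U, ¬ Cen η x y}.Finite := by
    refine ((cof k K _ η c hf).1.union ((g2 U hU).1.biUnion (t := fun y => {x | Cen η x y})
      fun y _ => Set.Subsingleton.finite fun x hx x' hx' => c4 x x' y hx hx')).subset
      fun x hx => ?_
    by_cases h : ∀ b : c.B, x.v (algebraMap c.B K b) ≤ 1
    · obtain ⟨p, hp⟩ := c5 x c h
      exact .inr (Set.mem_biUnion (x := c.ι p) (fun hU' => hx _ hU' ⟨c, p, rfl, hp⟩)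
        ⟨c, p, rfl, hp⟩)
    · exact .inl h
  obtain ⟨E, hE, h⟩ := fk k K n (nne hl hm) _ hS
  have hfin : (Set.range (res (rU T η U hU) (mu X n) 1)).Finite := by
    refine (hE.image fun g => if hg : g = 0 then 0 else
      kap hn (η ≫ T.hom) (Units.mk0 g hg)).subset ?_
    rintro _ ⟨z, rfl⟩
    obtain ⟨f, hf⟩ := kf X n hn K (η ≫ T.hom) (res (rU T η U hU) (mu X n) 1 z)
    obtain ⟨g, hg, t, ht, e⟩ := h f f.ne_zero fun x hx => by
      by_contra hd
      exact hx fun y hy hxy => hd ((hr f).1 ⟨z, hf.symm⟩ x y hy hxy)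
    have hg0 : g ≠ 0 := fun h0 => f.ne_zero (by rw [e, h0, zero_mul])
    refine ⟨g, hg, ?_⟩
    have e' : f = Units.mk0 g hg0 * Units.mk0 t ht ^ n := Units.ext (by simpa using e)
    simp only [dif_neg hg0]
    rw [← hf, e', k1, (k3 _).2 ⟨_, rfl⟩, add_zero]
  exact (Set.finite_range_iff hi).1 hfin

omit [WD.FF k K] in
include hc hn in
lemma inj (h1 : H1_s) {W W' : T.left.Opens} (h : W ≤ W') (hW : ∀ z, η z ∈ W) :
    Function.Injective (res (rO T h) (mu X n) 1) := fun a b e =>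
  (h1 k K X T η hc n hn W' fun z => h (hW z)).1 (by
    rw [← rU_rO T η hW h, ← rr, ← rr, e])

end

end CRV

theorem crv (pic : PIC_s) (fk : FINK_s) (kp : KAP_s) (kf : KUMF_s) (geo : GEO_s) (cen : CEN_s)
    (cof : COF_s) (lx : LOCX_s) (les : LES_s) (lk : LOCK_s) (h1 : H1_s) (h2 : H2_s) : CRV_s := by
  intro l _ k K _ _ _ _ _ hl X T η hc c hf n m hm hn U hU
  have fin := CRV.three hl hc hm hn fk kp kf geo cen cof h1 c hf
  refine ⟨CRV.one hl hc hm hn pic cen h2 U hU,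
    CRV.two hl hc hm hn pic geo cen cof lx les lk h2 c hf U hU, fin U hU, ?_⟩
  obtain ⟨-, g2, g3, -, g5⟩ := geo k K _ η hc
  obtain ⟨c1, -, c3, -⟩ := cen k K _ η hc
  have top_le : ∀ W : T.left.Opens, (∀ z, η z ∈ W) →
      Nat.card (H T (mu X n) 1) ≤ Nat.card (H (opn T W) (mu X n) 1) := fun W hW => by
    have := fin W hW
    exact Nat.card_le_card_of_injective _ ((CRV.inj hc hn h1 (le_top : W ≤ ⊤) hW).comp
      (pre_bij ((fr (Scheme.etaleTopology.over X)).map (opι T ⊤)) (mu X n) 1).1)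
  rcases ((U : Set T.left)ᶜ).eq_empty_or_nonempty with h0 | ⟨y₀, hy₀⟩
  · rw [h0, Set.ncard_empty, Nat.zero_sub, pow_zero, one_mul]
    exact top_le U hU
  obtain ⟨x₀, hx₀⟩ := (c1 y₀).1 (by rintro ⟨z, rfl⟩; exact hy₀ (hU z))
  have h₁ : ∀ z, η z ∈ ({y₀}ᶜ : Set T.left) := fun z e => hy₀ (e ▸ hU z)
  let U₁ : T.left.Opens := ⟨{y₀}ᶜ, g3 _ h₁ (by rw [compl_compl]; exact Set.finite_singleton _)⟩
  have key := g5 (fun W => n ^ ((W : Set T.left) \ U).ncard * Nat.card (H (opn T W) (mu X n) 1) ≤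
    Nat.card (H (opn T U) (mu X n) 1)) U U₁ (fun y hy e => hy₀ (e ▸ hy)) hU (by simp)
    fun W W' y hUW hWW hW₁ hy hW' hP => by
      have hW : ∀ z, η z ∈ W := fun z => hUW (hU z)
      obtain ⟨x, hx⟩ := (c1 y).1 (by rintro ⟨z, rfl⟩; exact hy (hW z))
      obtain ⟨p⟩ := lx k K _ η x y hx
      obtain ⟨d, -, -, d3, d4⟩ := les k K X T η hc x y p W W' hWW hW hy hW' (mu X n) (mu_lfp X n)
      obtain ⟨-, e, -⟩ := lk k K X T η x y p n hn
      have hcard := CRV.card_ses _ _ (CRV.inj hc hn h1 hWW hW) (fun w => (d3 0 w).1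
        (CRV.one hl hc hm hn pic cen h2 W' (fun z => hWW (hW z)) x₀
          (fun y' h' hx' => hW₁ h' (c3 x₀ y' y₀ hx' hx₀)) _)) (d4 0)
      rw [Nat.card_congr e.toEquiv, Nat.card_zmod] at hcard
      have hn' : ((W' : Set T.left) \ U).ncard = ((W : Set T.left) \ U).ncard + 1 := by
        rw [hW', Set.insert_sdiff_of_notMem _ fun h => hy (hUW h),
          Set.ncard_insert_of_notMem (fun h => hy h.1) ((g2 U hU).1.subset fun _ h => h.2)]
      rw [hn', pow_succ, mul_assoc, ← hcard]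
      exact hP
  have h₂ : ((U₁ : Set T.left) \ U).ncard = ((U : Set T.left)ᶜ).ncard - 1 := by
    rw [← Set.ncard_sdiff_singleton_of_mem hy₀]
    congr 1
    ext y
    exact and_comm
  rw [h₂] at key
  exact (Nat.mul_le_mul_left _ (top_le U₁ h₁)).trans key

end Pool.Agent.MP_855f4c_ag.E.CV

end

section

set_option autoImplicit false
set_option backward.isDefEq.respectTransparency false

open CategoryTheory Limits Abelian Opposite AlgebraicGeometry IsLocalRing

namespace Pool.Agent.MP_855f4c_ag.E.CV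

open E3 E4

namespace PID

section alg
variable {k B K : Type} [Field k] [CommRing B] [IsDomain B] [IsPrincipalIdealRing B] [Field K]
  [Algebra B K] [Algebra k K] [IsFractionRing B K]

lemma ne {b : B} (hb : b ≠ 0) : algebraMap B K b ≠ 0 :=
  (map_ne_zero_iff _ (IsFractionRing.injective B K)).2 hb

section
variable (x : WD.Place k K) (h1 : ∀ b : B, x.v (algebraMap B K b) ≤ 1) {π : B}
  (h2 : ∀ b : B, π ∣ b ↔ x.v (algebraMap B K b) < 1)
include h1 h2

lemma ord_zero {b : B} (hb : ¬ π ∣ b) : x.ord (algebraMap B K b) = 0 :=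
  (x.v_eq_one.1 (le_antisymm (h1 b) (not_lt.1 fun h => hb ((h2 b).2 h)))).2

lemma ord_gen : x.ord (algebraMap B K π) = 1 := by
  have hu : ¬ IsUnit π := fun h => by simpa using (h2 1).1 h.dvd
  have key : ∀ b : B, b ≠ 0 → x.ord (algebraMap B K π) ∣ x.ord (algebraMap B K b) := fun b => by
    induction b using (wellFounded_dvdNotUnit (α := B)).induction with
    | _ b ih =>
      intro hb
      by_cases h : π ∣ b
      · obtain ⟨c, rfl⟩ := h
        have hc := right_ne_zero_of_mul hb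
        rw [map_mul, x.ord_mul (ne (left_ne_zero_of_mul hb)) (ne hc)]
        exact dvd_add dvd_rfl (ih c ⟨hc, π, hu, mul_comm _ _⟩ hc)
      · rw [ord_zero x h1 h2 h]; exact dvd_zero _
  obtain ⟨t, ht, h⟩ := x.exists_ord 1
  obtain ⟨a, b, hb, rfl⟩ := IsFractionRing.div_surjective (A := B) t
  have hb' := nonZeroDivisors.ne_zero hb
  have ha : a ≠ 0 := by rintro rfl; simp at ht
  rw [x.ord_div (ne ha) (ne hb')] at h
  exact Int.eq_one_of_dvd_one (x.v_le_one.1 (h1 π)) (h ▸ dvd_sub (key a ha) (key b hb'))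

lemma pow_dvd (j : ℕ) : ∀ c : B, c ≠ 0 → (j : ℤ) ≤ x.ord (algebraMap B K c) → π ^ j ∣ c := by
  induction j with
  | zero => intro c _ _; simp
  | succ j ih =>
    intro c hc h
    obtain ⟨d, rfl⟩ := (h2 c).2 (x.v_lt_one.2 (.inr (by omega)))
    rw [map_mul, x.ord_mul (ne (left_ne_zero_of_mul hc)) (ne (right_ne_zero_of_mul hc)),
      ord_gen x h1 h2] at h
    rw [pow_succ']
    exact mul_dvd_mul_left _ (ih d (right_ne_zero_of_mul hc) (by omega))

end

lemma root (hex : ∀ π : B, Prime π → ∃ x : WD.Place k K, (∀ b : B, x.v (algebraMap B K b) ≤ 1) ∧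
      ∀ b : B, π ∣ b ↔ x.v (algebraMap B K b) < 1) {n : ℕ} (hn : n ≠ 0) {f : K} (hf : f ≠ 0)
    (h : ∀ x : WD.Place k K, (∀ b : B, x.v (algebraMap B K b) ≤ 1) → (n : ℤ) ∣ x.ord f) :
    ∃ (u : Bˣ) (g : K), g ≠ 0 ∧ f = algebraMap B K u * g ^ n := by
  have key : ∀ c : B, c ≠ 0 → (∀ x : WD.Place k K, (∀ b : B, x.v (algebraMap B K b) ≤ 1) →
      (n : ℤ) ∣ x.ord (algebraMap B K c)) → ∃ (u : Bˣ) (g : B), c = u * g ^ n := fun c => by
    induction c using (wellFounded_dvdNotUnit (α := B)).induction with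
    | _ c ih =>
      intro hc H
      by_cases hu : IsUnit c
      · exact ⟨hu.unit, 1, by simp⟩
      obtain ⟨π, hπ, hd⟩ := WfDvdMonoid.exists_irreducible_factor hu hc
      obtain ⟨x, h1, h2⟩ := hex π hπ.prime
      obtain ⟨d, rfl⟩ := pow_dvd x h1 h2 n c hc (Int.le_of_dvd
        ((x.v_lt_one.1 ((h2 c).1 hd)).resolve_left (ne hc)) (H x h1))
      have hd' := right_ne_zero_of_mul hc
      obtain ⟨u, g, rfl⟩ := ih d ⟨hd', π ^ n, fun h => hπ.not_isUnit (isUnit_pow_iff hn |>.1 h),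
        mul_comm _ _⟩ hd' fun y hy => by
          have := H y hy
          rwa [map_mul, y.ord_mul (ne (left_ne_zero_of_mul hc)) (ne hd'), map_pow, y.ord_pow,
            dvd_add_right (dvd_mul_right _ _)] at this
      exact ⟨u, π * g, by ring⟩
  obtain ⟨a, b, hb, rfl⟩ := IsFractionRing.div_surjective (A := B) f
  have hb' := ne (K := K) (nonZeroDivisors.ne_zero hb)
  have ha : a ≠ 0 := by rintro rfl; simp at hf
  obtain ⟨m, rfl⟩ := Nat.exists_eq_succ_of_ne_zero hn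
  have e : algebraMap B K (a * b ^ m) =
      algebraMap B K a / algebraMap B K b * algebraMap B K b ^ (m + 1) := by
    rw [map_mul, map_pow]; field_simp; ring
  have h0 : a * b ^ m ≠ 0 := mul_ne_zero ha (pow_ne_zero _ (nonZeroDivisors.ne_zero hb))
  obtain ⟨u, g, hg⟩ := key (a * b ^ m) h0 fun x hx => by
    rw [e, x.ord_mul hf (pow_ne_zero _ hb'), x.ord_pow]
    exact dvd_add (h x hx) (dvd_mul_right _ _)
  have hg0 : g ≠ 0 := by rintro rfl; simp [h0] at hg
  refine ⟨u, algebraMap B K g / algebraMap B K b, div_ne_zero (ne hg0) hb', ?_⟩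
  rw [div_pow, ← mul_div_assoc, ← map_pow, ← map_mul, ← hg, eq_div_iff (pow_ne_zero _ hb'), e]

end alg

lemma td1 (L B K : Type) [Field L] [CommRing B] [IsDomain B] [Algebra L B]
    [Algebra (Polynomial L) B] [IsScalarTower L (Polynomial L) B] [FaithfulSMul (Polynomial L) B]
    [Algebra.IsAlgebraic (Polynomial L) B] [Field K] [Algebra B K] [Algebra L K]
    [IsScalarTower L B K] [IsFractionRing B K] : C.TD1 L K := by
  let : Algebra (Polynomial L) K := ((algebraMap B K).comp (algebraMap (Polynomial L) B)).toAlgebra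
  have : IsScalarTower (Polynomial L) B K := .of_algebraMap_eq fun _ => rfl
  have : Algebra.IsAlgebraic B K := IsLocalization.isAlgebraic K (nonZeroDivisors B)
  have : Algebra.IsAlgebraic (Polynomial L) K := .trans _ B K
  let t := algebraMap (Polynomial L) K Polynomial.X
  let φ := Polynomial.aeval (R := L) (IntermediateField.AdjoinSimple.gen L t)
  have e : (algebraMap (IntermediateField.adjoin L {t}) K).comp φ.toRingHom =
      algebraMap (Polynomial L) K := by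
    refine Polynomial.ringHom_ext (fun a => ?_) (by simp [φ, t])
    have : algebraMap (Polynomial L) K (Polynomial.C a) = algebraMap L K a := by
      rw [IsScalarTower.algebraMap_apply L B K, IsScalarTower.algebraMap_apply L (Polynomial L) B]
      rfl
    rw [this]
    simp [φ]
  refine ⟨t, Algebra.IsAlgebraic.ringHom_of_comp_eq (R := Polynomial L) (A := K) φ.toRingHom
    (RingHom.id K) (Function.Injective.of_comp (f := algebraMap _ K) ?_) Function.surjective_id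
    (e.trans (RingHom.id_comp _).symm)⟩
  rw [← RingHom.coe_comp, e]
  exact (IsFractionRing.injective B K).comp (FaithfulSMul.algebraMap_injective _ B)

end PID

open PID in
theorem pid (h1 : KAP_s) (h2 : KUMF_s) (h3 : CEN_s) (h4 : H1_s) (h5 : H2_s) (h6 : VAN_s) :
    PID_s := by
  intro l _ k B K _ _ _ _ _ _ _ _ _ _ _ td hl X a n m hnm hn
  let T : Over X := Over.mk a
  let η : Spec (.of K) ⟶ T.left := spc (algebraMap B K)
  let c : Chart k η := { B := B, ι := 𝟙 _, w := Category.comp_id _ }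
  have hC : Crv k η := ⟨inferInstanceAs (CompactSpace (Spec (.of B))),
    inferInstanceAs (Spec (.of B)).IsSeparated, td, fun y => ⟨c, y, rfl⟩⟩
  obtain ⟨c1, c2, -, -, c5⟩ := h3 k K _ η hC
  have hn0 : n ≠ 0 := by
    rintro rfl
    exact (Fact.out : l.Prime).ne_zero (pow_eq_zero_iff'.1 (zero_dvd_iff.1 hnm)).1
  have htop := fun q => pre_bij ((fr (Scheme.etaleTopology.over X)).map (opι T ⊤)) (mu X n) q
  refine ⟨fun z => ?_, fun q z => ?_⟩
  · obtain ⟨i1, i2⟩ := h4 k K X T η hC n hn ⊤ fun _ => trivial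
    have e : ∀ w, res (rU T η ⊤ fun _ => trivial) (mu X n) 1 (res (opι T ⊤) _ 1 w) =
        res (sph (algebraMap B K) (a := a) rfl) _ 1 w := fun w => by
      rw [pre_pre, ← Functor.map_comp, rU_ι]; rfl
    obtain ⟨f, hf⟩ := h2 X n hn K (η ≫ T.hom) (res (sph (algebraMap B K) (a := a) rfl) _ 1 z)
    obtain ⟨u, g, hg, hu⟩ := root (k := k) (B := B) (fun π hπ => by
      let y : Spec (.of B) := ⟨Ideal.span {π}, (Ideal.span_singleton_prime hπ.ne_zero).2 hπ⟩
      obtain ⟨x, hx⟩ := (c1 y).1 (by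
        rintro ⟨w, hw⟩
        have : π ∈ (η w).asIdeal := hw ▸ Ideal.mem_span_singleton_self π
        exact w.2.ne_top (Ideal.eq_top_of_isUnit_mem _ this (ne (K := K) hπ.ne_zero).isUnit))
      obtain ⟨p1, p2⟩ := c2 x c y hx
      exact ⟨x, p1, fun b => Ideal.mem_span_singleton.symm.trans (p2 b)⟩) hn0 f.ne_zero
      fun x hx => by
        obtain ⟨p, hp⟩ := c5 x c hx
        exact (i2 f).1 ⟨_, (e z).trans hf.symm⟩ x _ trivial ⟨c, p, rfl, hp⟩
    refine ⟨u, (htop 1).1 (i1 ((e _).trans (Eq.trans ?_ (hf.trans (e z).symm))))⟩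
    obtain ⟨k1, -, k3, -⟩ := h1 X n hn K (η ≫ T.hom)
    have : f = Units.map (algebraMap B K : B →* K) u * Units.mk0 g hg ^ n := Units.ext hu
    rw [this, k1, (k3 _).2 ⟨_, rfl⟩, add_zero]
    exact (h1 X n hn B a).2.2.2 K _ _ rfl u
  · cases q with
    | succ q => exact (h6 l k K hl X T η hC _ (mu_tc' hnm)).1 q z
    | zero =>
      refine (htop 2).1 ((h5 l k K hl X T η hC n m hnm hn ⊤ (fun _ => trivial)
        (fun x y _ hx => ?_) _).trans (map_zero _).symm)
      obtain ⟨p1, p2⟩ := c2 x c y hx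
      obtain ⟨π, hπ⟩ := (IsPrincipalIdealRing.principal (R := B) y.asIdeal).principal
      have p3 : ∀ b : B, π ∣ b ↔ x.v (algebraMap B K b) < 1 := fun b =>
        Ideal.mem_span_singleton.symm.trans ((by rw [hπ] : _ ↔ b ∈ y.asIdeal).trans (p2 b))
      have h0 := ord_gen x p1 p3
      have hπ0 : π ≠ 0 := by rintro rfl; simp at h0
      refine ⟨algebraMap B K π, ne hπ0, by rw [h0]; exact dvd_zero _, fun x' y' _ hx' hy => ?_⟩
      obtain ⟨q1, q2⟩ := c2 x' c y' hx'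
      have hm : y.asIdeal.IsMaximal := y.2.isMaximal (by
        rw [hπ]; exact fun h => hπ0 (Ideal.span_singleton_eq_bot.1 h))
      have : ¬ x'.v (algebraMap B K π) < 1 := fun h => hy (PrimeSpectrum.ext
        (hm.eq_of_le y'.2.ne_top (by
          rw [hπ]; exact (Ideal.span_singleton_le_iff_mem _).2 ((q2 π).2 h))).symm)
      rw [(x'.v_eq_one.1 (le_antisymm (q1 π) (not_lt.1 this))).2]
      exact dvd_zero _

end Pool.Agent.MP_855f4c_ag.E.CV

end

section

/-! Section C: compact supports on a curve. -/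

set_option autoImplicit false
set_option backward.isDefEq.respectTransparency false

open CategoryTheory Limits Abelian Opposite AlgebraicGeometry IsLocalRing Function

namespace Pool.Agent.MP_855f4c_ag.E.CV

open E3 E4

namespace CSUP

lemma card_hom {A B : Type 1} [AddCommGroup A] [AddCommGroup B] (r : A →+ B) :
    Nat.card A = Nat.card r.range * Nat.card r.ker := by
  rw [AddSubgroup.card_eq_card_quotient_mul_card_addSubgroup r.ker,
    Nat.card_congr (QuotientAddGroup.quotientKerEquivRange r).toEquiv]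

lemma cnt {X₁ X₂ X₃ : ℕ → Type 1} [∀ q, AddCommGroup (X₁ q)] [∀ q, AddCommGroup (X₂ q)]
    [∀ q, AddCommGroup (X₃ q)] {f : ∀ q, X₁ q →+ X₂ q} {g : ∀ q, X₂ q →+ X₃ q}
    {d : ∀ q, X₃ q →+ X₁ (q + 1)} (h : IsLES f g d) (h0 : ∀ z : X₁ 0, z = 0) [Finite (X₃ 0)]
    [Finite (X₂ 1)] : Finite (X₁ 1) ∧
      Nat.card (X₂ 0) * Nat.card (X₁ 1) ≤ Nat.card (X₃ 0) * Nat.card (X₂ 1) := by
  have hg : Injective (g 0) := (injective_iff_map_eq_zero _).2 fun a ha => by
    obtain ⟨z, rfl⟩ := (h.e₂ 0 a).1 ha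
    rw [h0 z, map_zero]
  have e1 : (f 1).ker = (d 0).range := AddSubgroup.ext fun a => h.e₁ 0 a
  have e3 : (d 0).ker = (g 0).range := AddSubgroup.ext fun a => h.e₃ 0 a
  have c1 := card_hom (f 1)
  have c3 := card_hom (d 0)
  rw [e1] at c1
  rw [e3, ← Nat.card_congr (AddMonoidHom.ofInjective hg).toEquiv] at c3
  have : Finite (d 0).range := Finite.of_surjective _ (d 0).rangeRestrict_surjective
  refine ⟨Nat.finite_of_card_ne_zero (by
    rw [c1]; exact mul_ne_zero Nat.card_pos.ne' Nat.card_pos.ne'), ?_⟩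
  rw [c1, c3, mul_comm (Nat.card (f 1).range), ← mul_assoc, mul_comm (Nat.card (X₂ 0))]
  exact Nat.mul_le_mul_left _ (Nat.card_le_card_of_injective _ Subtype.val_injective)

lemma inj0 {C : Type 2} [Category.{1} C] [Abelian C] [HasExt.{1} C] {A F G K : C} {f : F ⟶ G}
    {g : G ⟶ K} {w} (hS : (ShortComplex.mk f g w).ShortExact) (q : ℕ)
    (h : ∀ z : Ext.{1} A K q, z = 0) (a : Ext.{1} A F (q + 1)) (ha : post A f (q + 1) a = 0) :
    a = 0 := by
  obtain ⟨w, rfl⟩ := ((cov_les A hS).e₁ q a).1 ha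
  rw [h w, map_zero]

variable {l : ℕ} [Fact l.Prime] {Y : Scheme.{0}}

/-- The structure arrow. -/
noncomputable abbrev tp (W : Over Y) : W ⟶ top Y := Over.homMk W.hom

lemma stk (ln : LN_s) (W : Over Y) [IsOpenImmersion W.hom] (κ : Type) [Field κ] [IsAlgClosed κ]
    (x : Spec (.of κ) ⟶ Y) :
    Injective ((Lm l (tp W)).hom.app (op (Over.mk x))) ∧
    ((∀ z, x z ∈ Set.range W.hom) → ∀ s : sec (cokernel (Lm l (tp W))) (Over.mk x), s = 0) ∧
    ((∀ z, x z ∉ Set.range W.hom) → ∀ s : sec (Ln l W) (Over.mk x), s = 0) := by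
  obtain ⟨e, he⟩ := (ln l Y).2.2.2 κ x
  have : Mono (tp W) := Over.mono_of_mono_left _ (hk := inferInstanceAs (Mono W.hom))
  refine ⟨fun a b h => (e W).injective (Finsupp.mapDomain_injective
    (fun u v h' => (cancel_mono (tp W)).1 h') (by rw [← he, ← he, h])), fun hx s => ?_,
    fun hx s => (e W).injective ?_⟩
  · obtain ⟨b, rfl⟩ := shl_surj x (cokernel.π (Lm l (tp W))).hom s
    have H := Set.range_subset_iff.2 hx
    obtain ⟨c, hc⟩ := Finsupp.mapDomain_surjective (M := ZMod l)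
      (f := fun u : Over.mk x ⟶ W => u ≫ tp W) (fun v => ⟨Over.homMk (IsOpenImmersion.lift _ _ H)
        (IsOpenImmersion.lift_fac _ _ H), Over.mkIdTerminal.hom_ext _ _⟩) (e _ b)
    obtain ⟨a, rfl⟩ := (e W).surjective c
    rw [← he, (e _).injective.eq_iff] at hc
    rw [← hc]
    exact congr(($(cokernel.condition (Lm l (tp W)))).hom.app (op (Over.mk x)) a)
  · refine Finsupp.ext fun u => (hx (closedPoint κ) ⟨u.left (closedPoint κ), ?_⟩).elim
    rw [← Scheme.Hom.comp_apply, Over.w u]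
    rfl

lemma app_bij {F G : Sh (Scheme.etaleTopology.over Y)} (i : F ≅ G) (T : Over Y) : Bijective (i.hom.hom.app (op T)) :=
  ConcreteCategory.bijective_of_isIso (((sheafToPresheaf _ _).map i.hom).app (op T))

lemma card_top (ln : LN_s) (T : Over Y) [ConnectedSpace T.left] :
    Nat.card (sec (Ln l (top Y)) T) = l := by
  obtain ⟨i⟩ := (ln l Y).2.1
  rw [Nat.card_eq_of_bijective _ (app_bij i T),
    ← Nat.card_eq_of_bijective _ (cstι_connected _ T)]
  exact (Nat.card_ulift _).trans (Nat.card_zmod l)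

lemma res_inj (ln : LN_s) {T' T : Over Y} [ConnectedSpace T'.left] [ConnectedSpace T.left]
    (v : T' ⟶ T) (t : sec (Ln l (top Y)) T) (h : (Ln l (top Y)).obj.map v.op t = 0) : t = 0 := by
  obtain ⟨i⟩ := (ln l Y).2.1
  obtain ⟨c, hc⟩ := (cstι_connected _ T).2 (i.hom.hom.app (op T) t)
  have h1 : cstι _ T' c = cstι _ T' 0 := by
    rw [← cstι_res _ v, hc, ← nat, h, map_zero, map_zero]
  rw [(cstι_connected _ T').1 h1, map_zero] at hc
  exact (app_bij i T).1 (by rw [← hc, map_zero])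

lemma bound (ln : LN_s) (hL : Linv l Y) (W : Over Y) [IsOpenImmersion W.hom]
    (hf : (Set.range W.hom)ᶜ.Finite) (hQ : Cc l (cokernel (Lm l (tp W)))) :
    Finite (sec (cokernel (Lm l (tp W))) (top Y)) ∧
      Nat.card (sec (cokernel (Lm l (tp W))) (top Y)) ≤ l ^ (Set.range W.hom)ᶜ.ncard := by
  choose κ hF hA x hx using stk_geom Y
  have := hf.fintype
  have hs := fun t => shl_surj (x t) (cokernel.π (Lm l (tp W))).hom
  have hc := fun t => @card_top l _ _ ln (Over.mk (x t))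
    (inferInstanceAs (ConnectedSpace (Spec (.of (κ t)))))
  have h1 : ∀ t, Finite (sec (Ln l (top Y)) (Over.mk (x t))) := fun t =>
    Nat.finite_of_card_ne_zero (by rw [hc]; exact (Fact.out : l.Prime).ne_zero)
  have h2 : ∀ t, Finite (sec (cokernel (Lm l (tp W))) (Over.mk (x t))) := fun t =>
    Finite.of_surjective _ (hs t)
  have hi : Injective fun (s : sec (cokernel (Lm l (tp W))) (top Y))
      (t : ↥(Set.range W.hom)ᶜ) => rsec (tp (Over.mk (x t))) _ s := fun a b h =>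
    sub_eq_zero.1 (E.pt_sec hQ _ fun t => ⟨κ t, hF t, hA t, x t, tp _, hL _ (x t),
      ⟨closedPoint _, hx t _⟩, by
        by_cases ht : t ∈ Set.range W.hom
        · exact (stk ln W (κ t) (x t)).2.1 (fun z => by rw [hx]; exact ht) _
        · rw [map_sub]
          exact sub_eq_zero.2 (congrFun h ⟨t, ht⟩)⟩)
  refine ⟨Finite.of_injective _ hi, (Nat.card_le_card_of_injective _ hi).trans ?_⟩
  rw [Nat.card_pi, ← Nat.card_coe_set_eq, Nat.card_eq_fintype_card, ← Finset.card_univ]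
  exact Finset.prod_le_pow_card _ _ _ fun t _ =>
    (Nat.card_le_card_of_surjective _ (hs t)).trans (hc t).le

end CSUP

theorem csup (geo : GEO_s) (van : VAN_s) (ln : LN_s) : CSUP_s := by
  intro l _ k K _ _ _ _ hl Y η hc hL W _ hW hne hfin
  obtain ⟨g1, g2, -⟩ := geo k K Y η hc
  have tA : Tc l (Ln l W) := (ln l Y).1 W inferInstance
  have tB : Tc l (Ln l (top Y)) := (ln l Y).1 _ (inferInstanceAs (Etale (𝟙 Y)))
  have tQ := Tc.coker (Lm l (CSUP.tp W)) tA.1 tB
  have : Mono (Lm l (CSUP.tp W)) := pt_mono hL tA.1 tB.1 _ fun t => by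
    obtain ⟨κ, _, _, x, hx⟩ := stk_geom Y t
    exact ⟨κ, _, ‹_›, x, ⟨closedPoint _, hx _⟩, (CSUP.stk ln W κ x).1⟩
  have hS : (ShortComplex.mk _ _ (cokernel.condition (Lm l (CSUP.tp W)))).ShortExact :=
    { exact := ShortComplex.exact_cokernel _ }
  have les := cov_les ((fr (Scheme.etaleTopology.over Y)).obj (top Y)) hS
  have hv := (van l k K hl Y (top Y) η hc _ tQ).2 (AlgebraicClosure K) (algebraMap K _)
    ((CSUP.stk ln W _ _).2.1 fun z => by
      rw [Scheme.Hom.comp_apply, Scheme.Hom.comp_apply]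
      exact hW _)
  obtain ⟨y, hy⟩ := hne
  have : Nonempty Y := ⟨y⟩
  have : PreirreducibleSpace Y := ⟨fun u v hu hv ⟨a, ha⟩ ⟨b, hb⟩ =>
    ⟨η (closedPoint K), trivial, g1 ⟨u, hu⟩ ⟨a, ha.2⟩ _, g1 ⟨v, hv⟩ ⟨b, hb.2⟩ _⟩⟩
  have hY : ConnectedSpace Y := ⟨‹_›⟩
  have : ConnectedSpace (top Y).left := hY
  have hf : (Set.range W.hom)ᶜ.Finite := (g2 W.hom.opensRange hW).1
  have z0 : ∀ z : H (top Y) (Ln l W) 0, z = 0 := fun z => by
    obtain ⟨s, rfl⟩ := (h0 (top Y) _).surjective z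
    obtain ⟨κ, _, _, x, hx⟩ := stk_geom Y y
    have : ConnectedSpace (Over.mk x).left := inferInstanceAs (ConnectedSpace (Spec (.of κ)))
    refine les.inj (((h0_post _ s).symm.trans ?_).trans (map_zero _).symm)
    rw [CSUP.res_inj ln (CSUP.tp (Over.mk x)) ((Lm l (CSUP.tp W)).hom.app _ s) (by
      rw [← nat, (CSUP.stk ln W κ x).2.2 (fun z => by rw [hx]; exact hy)
        ((Ln l W).obj.map _ s), map_zero]), map_zero]
  obtain ⟨b1, b2⟩ := CSUP.bound ln hL W hf tQ.1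
  have : Finite (H (top Y) (cokernel (Lm l (CSUP.tp W))) 0) :=
    Finite.of_surjective _ (h0 (top Y) _).surjective
  obtain ⟨c1, c2⟩ := CSUP.cnt les z0
  refine ⟨z0, c1, ?_, ⟨AddEquiv.ofBijective (post _ (Lm l (CSUP.tp W)) 2)
    ⟨(injective_iff_map_eq_zero _).2 fun a ha => ?_, fun b => (les.e₂ 2 b).1 (hv 1 _)⟩⟩⟩
  · rw [← Nat.card_congr (h0 (top Y) _).toEquiv, ← Nat.card_congr (h0 (top Y) _).toEquiv] at c2
    have c3 := c2.trans (Nat.mul_le_mul_right _ b2)
    have hpos : 0 < (Set.range W.hom)ᶜ.ncard := (Set.ncard_pos hf).2 ⟨y, hy⟩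
    rw [CSUP.card_top ln (top Y), ← Nat.sub_add_cancel hpos, pow_succ', mul_assoc] at c3
    exact Nat.le_of_mul_le_mul_left c3 (Fact.out : l.Prime).pos
  · exact CSUP.inj0 hS 1 (hv 0) a ha

end Pool.Agent.MP_855f4c_ag.E.CV

end

section

/-! h86e section C, row CURVE. -/

set_option autoImplicit false
set_option backward.isDefEq.respectTransparency false

open CategoryTheory Limits Abelian Opposite AlgebraicGeometry IsLocalRing

namespace Pool.Agent.MP_855f4c_ag.E.CV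

open E3 E4

namespace CURVE

variable {X : Scheme.{0}}

/-- Isomorphic objects and coefficients have the same cohomology. -/
noncomputable def eqv {T' T : Over X} (g : T' ⟶ T) [IsIso g] {F G : Sh (Scheme.etaleTopology.over X)} (φ : F ⟶ G)
    [IsIso φ] (q : ℕ) : H T F q ≃+ H T' G q :=
  (AddEquiv.ofBijective _ (pre_bij ((fr (Scheme.etaleTopology.over X)).map g) F q)).trans
    (AddEquiv.ofBijective _ (post_bij _ φ q))

instance (l : ℕ) {T' T : Over X} (g : T' ⟶ T) [IsIso g] : IsIso (Lm l g) := by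
  unfold Lm; infer_instance

lemma zero_of {A B : Type 1} [AddCommGroup A] [AddCommGroup B] (e : A ≃+ B) (h : ∀ z : B, z = 0)
    (z : A) : z = 0 := e.injective ((h _).trans (map_zero e).symm)

lemma post_surj (A : Sh (Scheme.etaleTopology.over X)) {F G : Sh (Scheme.etaleTopology.over X)} (φ : F ⟶ G) (q : ℕ)
    (h1 : ∀ z : Ext A (kernel φ) (q + 1), z = 0) (h2 : ∀ z : Ext A (cokernel φ) q, z = 0) :
    Function.Surjective (post A φ q) := by
  intro y
  have s2 : (ShortComplex.mk (Abelian.image.ι φ) (cokernel.π φ) (kernel.condition _)).ShortExact :=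
    { exact := ShortComplex.exact_kernel _ }
  have w : kernel.ι φ ≫ Abelian.factorThruImage φ = 0 := by
    rw [← cancel_mono (Abelian.image.ι φ), Category.assoc, Abelian.image.fac, kernel.condition,
      zero_comp]
  have s1 : (ShortComplex.mk _ _ w).ShortExact :=
    { exact := ShortComplex.exact_of_f_is_kernel _ (KernelFork.IsLimit.ofι' _ w fun t ht =>
        ⟨kernel.lift φ t (by rw [← Abelian.image.fac φ, reassoc_of% ht, zero_comp]),
          kernel.lift_ι _ _ _⟩) }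
  obtain ⟨a, rfl⟩ := ((cov_les A s2).e₂ q y).1 (h2 _)
  obtain ⟨b, rfl⟩ := ((cov_les A s1).e₃ q a).1 (h1 _)
  exact ⟨b, ((post_post _ _ b).trans (congrArg (post A · q b) (Abelian.image.fac φ))).symm⟩

lemma card_cyc {A : Type 1} [AddCommGroup A] (γ : A) (n : ℕ) (h1 : ∀ z, ∃ j : ℤ, z = j • γ)
    (h2 : ∀ j : ℤ, j • γ = 0 ↔ (n : ℤ) ∣ j) : Nat.card A = n := by
  have e : AddSubgroup.zmultiples γ = ⊤ :=
    eq_top_iff.2 fun z _ => (h1 z).imp fun _ h => h.symm
  rw [← AddSubgroup.card_top, ← e, Nat.card_zmultiples]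
  refine Nat.dvd_antisymm (addOrderOf_dvd_of_nsmul_eq_zero ?_) ?_
  · rw [← natCast_zsmul]; exact (h2 n).2 dvd_rfl
  · exact Int.natCast_dvd_natCast.1 ((h2 _).1 (by rw [natCast_zsmul, addOrderOf_nsmul_eq_zero]))

lemma coker_zero {l : ℕ} [Fact l.Prime] (hLN : LN_s) {W : Over X} (g : W ⟶ top X) {Ω : Type}
    [Field Ω] [IsAlgClosed Ω] (x : Spec (.of Ω) ⟶ X) (y : Over.mk x ⟶ W)
    (s : sec (cokernel (Lm l g)) (Over.mk x)) : s = 0 := by
  obtain ⟨e, he⟩ := (hLN l X).2.2.2 Ω x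
  obtain ⟨t, rfl⟩ := wc_surj (SHL.wc Ω) x (cokernel.π (Lm l g)) s
  obtain ⟨u, hu⟩ := Finsupp.mapDomain_surjective (M := ZMod l)
    (f := fun a : Over.mk x ⟶ W => a ≫ g)
    (fun b => ⟨y, Over.mkIdTerminal.hom_ext _ _⟩) (e _ t)
  obtain ⟨u, rfl⟩ := (e W).surjective u
  obtain rfl := (e _).injective ((he _ _ g u).trans hu)
  exact congr(($(cokernel.condition (Lm l g))).hom.app (op (Over.mk x)) u)

lemma trans₃ {A B C D : Type 1} [AddCommGroup A] [AddCommGroup B] [AddCommGroup C]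
    [AddCommGroup D] (e : A ≃+ B) {f : B →+ C} (hf : Function.Bijective f) (e' : C ≃+ D) :
    Nonempty (A ≃+ D) := ⟨e.trans ((AddEquiv.ofBijective f hf).trans e')⟩

end CURVE

open CURVE

theorem curve (_ : NSL_s) (_ : GEO_s) (hCEN : CEN_s) (hCOF : COF_s) (hVAN : VAN_s) (hCRV : CRV_s)
    (hP1C : P1C_s) (hP1MU : P1MU_s) (hNORM : NORM_s) (hETC : ETC_s) (hLN : LN_s)
    (hGRAPH : GRAPH_s) (hCSUP : CSUP_s) : CURVE_s := by
  intro l _ k _ _ hl L W _ _ _ g
  have hP : Linv l L.P := (Linv.spec (IsUnit.mk0 _ hl)).of_hom L.π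
  obtain ⟨B, _, _, ⟨e⟩⟩ : ∃ (B : Type) (_ : CommRing B) (_ : IsDomain B),
      Nonempty (Spec (.of B) ≅ W.left) :=
    ⟨Γ(W.left, ⊤), inferInstance, inferInstance, ⟨W.left.isoSpec.symm⟩⟩
  obtain ⟨_, K, _, _, _, _, _, _, _, hD, hFT, hFD, hsep, hFF, hw⟩ := hETC k L B (e.hom ≫ W.hom)
  obtain ⟨Y, ρ, c, _, _, hc, hY, hcen⟩ := hNORM k B K L (e.hom ≫ W.hom) hw
  have : Etale (c ≫ ρ) := hc ▸ inferInstance
  have hlY : Linv l Y := hP.of_hom ρ
  let η : Spec (.of K) ⟶ Y := spc (algebraMap B K) ≫ c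
  let ch : Chart k η := { B := B, ι := c, w := rfl }
  obtain ⟨x, hx⟩ := (hCOF k K Y η ch hFT).2
  have hxc : ∀ y ∈ Set.range c, ¬ Cen η x y := by
    rintro _ ⟨p, rfl⟩ h
    exact hx ((hCEN k K Y η hY).2.1 x ch p h).1
  have hη : ∀ z, η z ∈ Set.range c := fun z => ⟨_, (Scheme.Hom.comp_apply _ _ z).symm⟩
  have crv := hCRV l k K hl Y (top Y) η hY ch hFT l 1 (by simp) hlY
  obtain ⟨mP⟩ := (hLN l L.P).2.2.1 k L.π hl
  obtain ⟨mY⟩ := (hLN l Y).2.2.1 k (ρ ≫ L.π) hl
  obtain ⟨gr⟩ := hGRAPH l L.P Y _ ρ c hP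
  let i : Over.mk (c ≫ ρ) ≅ W := Over.isoMk e hc.symm
  let a : (Over.pullback ρ).obj (top L.P) ⟶ top Y := Over.homMk (pullback.snd (𝟙 _) ρ)
  have : IsIso a := isIso_homMk _ (inferInstanceAs (IsIso (pullback.snd (𝟙 _) ρ)))
  have E1 (q : ℕ) : H (top L.P) (Ln l W) q ≃+ H (top Y) (Ln l (Over.mk c)) q :=
    (trans₃ (eqv a (𝟙 _) q) (intH_bij ρ (top L.P) _ q)
      (eqv (𝟙 _) (Lm l i.inv ≫ gr.hom) q).symm).some.symm
  let b : (Over.map ρ).obj (opn (top Y) c.opensRange) ≅ W :=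
    Over.isoMk (c.isoOpensRange.symm ≪≫ e) (by
      change (c.isoOpensRange.inv ≫ e.hom) ≫ W.hom = (c.opensRange.ι ≫ 𝟙 Y) ≫ ρ
      rw [Category.assoc, ← hc, Scheme.Hom.isoOpensRange_inv_comp_assoc, Category.comp_id])
  have E2 (q : ℕ) : H W (Ln l (top L.P)) q ≃+ H (opn (top Y) c.opensRange) (mu Y l) q :=
    (trans₃ (eqv b.hom mP.hom q) (slH_bij ρ _ _ q) (eqv (𝟙 _) (pbMu ρ l).hom q)).some
  have E3 (q : ℕ) : H (top Y) (Ln l (top Y)) q ≃+ H (opn (top Y) ⊤) (mu Y l) q :=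
    eqv (opι (top Y) ⊤) mY.hom q
  have E4 (q : ℕ) : H (top Y) (Ln l (top Y)) q ≃+ H (top Y) (mu Y l) q := eqv (𝟙 _) mY.hom q
  obtain ⟨-, ⟨z2, hz2⟩, f1, -⟩ := crv ⊤ fun _ => trivial
  obtain ⟨u1, -, u3, u4⟩ := crv c.opensRange hη
  have : IsOpenImmersion (Over.mk c).hom := ‹_›
  obtain ⟨c1, c2, c3, ⟨c4⟩⟩ := hCSUP l k K hl Y η hY hlY (Over.mk c) hη
    ((hcen x).imp fun y hy h => hxc y h hy) (Finite.of_equiv _ (E3 1).symm.toEquiv)
  have hcard : Nat.card (H (top L.P) (Ln l (top L.P)) 2) = l := by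
    obtain ⟨γ, hγ⟩ := hP1MU _ L l hP
    let a' : fbr L.π (𝟙 _) ⟶ top L.P := Over.homMk (pullback.snd (𝟙 _) L.π)
    have : IsIso a' := isIso_homMk _ (inferInstanceAs (IsIso (pullback.snd (𝟙 _) L.π)))
    obtain ⟨-, h1, h2⟩ := hγ l 1 (by simp) k (𝟙 _) a' hl
    exact (Nat.card_congr (eqv a' mP.hom 2).toEquiv).trans (card_cyc _ l h1 h2)
  have tT : Tc l (Ln l (top L.P)) := (hLN l L.P).1 _ (inferInstanceAs (Etale (𝟙 _)))
  have tW : Tc l (Ln l W) := (hLN l L.P).1 _ ‹_›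
  refine ⟨zero_of (E1 0) c1, Finite.of_equiv _ (E1 1).symm.toEquiv,
    Finite.of_equiv _ (E2 1).symm.toEquiv, ?_, ?_, hcard, ?_, fun q => ?_⟩
  · rw [Nat.card_congr (E1 1).toEquiv, Nat.card_congr (E2 1).toEquiv]
    rw [Nat.card_congr (E4 1).toEquiv] at c3
    exact c3.trans u4
  · have van := hVAN l k (RatFunc k) hl L.P (top L.P) _ (hP1C k L)
    have E5 := ((E1 2).trans c4).trans (E3 2)
    have : NeZero l := ⟨(Fact.out : l.Prime).ne_zero⟩
    have : Finite (H (top L.P) (Ln l W) 2) :=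
      have := Finite.of_surjective _ hz2
      Finite.of_equiv _ E5.symm.toEquiv
    refine Function.Surjective.bijective_of_nat_card_le (post_surj _ _ 2
      ((van _ (Tc.ker _ tW tT.1)).1 0) ((van _ (Tc.coker _ tW.1 tT)).2 (AlgebraicClosure K)
        ((algebraMap K _).comp (algebraMap (RatFunc k) K)) (coker_zero hLN g _ (Over.homMk
          (spc (algebraMap K _) ≫ spc (algebraMap B K) ≫ e.hom) ?_)) 1)) ?_
    · change (_ ≫ _ ≫ e.hom) ≫ W.hom = _ ≫ gen L RatFunc.X ≫ 𝟙 _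
      rw [Category.assoc, Category.assoc, hw, Category.comp_id, PL.comp_pnt, PL.comp_pnt, map_pt1,
        map_pt1, ← Spec.map_comp, ← Spec.map_comp, ← CommRingCat.ofHom_comp,
        ← CommRingCat.ofHom_comp, IsScalarTower.algebraMap_eq k (RatFunc k) K]
      rfl
    · rw [hcard, Nat.card_congr E5.toEquiv]
      exact (Nat.card_le_card_of_surjective _ hz2).trans_eq (Nat.card_zmod l)
  · obtain ⟨m⟩ := (hLN l L.P).2.1
    rw [Nat.card_congr (eqv (𝟙 W) m.hom 0).toEquiv, Nat.card_congr (Ext.addEquiv₀.trans (frEquiv W _)).toEquiv,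
      ← Nat.card_congr (Equiv.ofBijective _ (cstι_connected _ W))]
    exact (Nat.card_ulift _).trans (Nat.card_zmod l)
  · rcases q with _ | q
    · exact zero_of (E2 2) (u1 x hxc)
    · refine zero_of (eqv i.hom (𝟙 _) _) ((hVAN l k K hl L.P (Over.mk (c ≫ ρ))
        (spc (algebraMap B K)) ⟨inferInstanceAs (CompactSpace (Spec (.of B))),
          inferInstanceAs (Spec (.of B)).IsSeparated, hY.td, fun y =>
            ⟨{ B := B, ι := 𝟙 _, w := Category.comp_id _ }, y, rfl⟩⟩ _ tT).1 q)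

end Pool.Agent.MP_855f4c_ag.E.CV

end
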