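import Pool.Agent.MP_855f4c_ag.EC.Cb
import Pool.Agent.MP_855f4c_ag.EC.F2e
import Pool.Agent.MP_855f4c_ag.EC.F2c
import Pool.Agent.MP_855f4c_ag.EC.E4d

section

set_option autoImplicit false
set_option backward.isDefEq.respectTransparency false

open CategoryTheory Limits Abelian Opposite AlgebraicGeometry IsLocalRing

namespace Pool.Agent.MP_855f4c_ag.E.CV

open E3 E4 Function

namespace LN

lemma exists_equiv {M N P : Type*} [AddCommGroup M] [AddCommGroup N] [AddCommGroup P]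
    (f : M →+ N) (g : M →+ P) (hf : Surjective f) (hg : Surjective g)
    (h : ∀ m, f m = 0 ↔ g m = 0) : ∃ e : N ≃+ P, ∀ m, e (f m) = g m :=
  ⟨(QuotientAddGroup.quotientKerEquivOfSurjective f hf).symm.trans
    ((QuotientAddGroup.quotientAddEquivOfEq (AddSubgroup.ext h)).trans
      (QuotientAddGroup.quotientKerEquivOfSurjective g hg)), fun m => by
    rw [AddEquiv.trans_apply, (AddEquiv.symm_apply_eq _).2
      (show f m = QuotientAddGroup.quotientKerEquivOfSurjective f hf m from rfl)]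
    rfl⟩

variable {X : Scheme.{0}} (l : ℕ)

/-- The projection. -/
noncomputable abbrev prj (W : Over X) : (fr (Scheme.etaleTopology.over X)).obj W ⟶ Ln l W := cokernel.π _

/-- From formal sums of points to sections. -/
noncomputable def pτ (W T : Over X) : (frP.obj W).obj (op T) →+ sec (Ln l W) T :=
  ((prj l W).hom.app (op T)).hom.comp ((toSheafify (Scheme.etaleTopology.over X) (frP.obj W)).app (op T)).hom

/-- The tautological section. -/
noncomputable def gen (W : Over X) : sec (Ln l W) W := pτ l W W (bas (𝟙 W))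

lemma pτ_bas {W T : Over X} (y : T ⟶ W) : pτ l W T (bas y) = rsec y _ (gen l W) := by
  refine Eq.trans ?_ ((congrArg ((prj l W).hom.app (op T))
    (nat (toSheafify (Scheme.etaleTopology.over X) (frP.obj W)) y (bas (𝟙 W)))).trans (nat (prj l W).hom y _))
  rw [map_bas, Category.comp_id]
  rfl

lemma lm_pτ {W' W : Over X} (g : W' ⟶ W) (T : Over X) (m : (frP.obj W').obj (op T)) :
    (Lm l g).hom.app _ (pτ l W' T m) = pτ l W T ((frP.map g).app _ m) := by
  have h1 : prj l W' ≫ Lm l g = (fr _).map g ≫ prj l W := cokernel.π_desc _ _ _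
  have h2 := ConcreteCategory.congr_hom
    (congr_app (toSheafify_naturality (Scheme.etaleTopology.over X) (frP.map g)) (op T)) m
  exact (congrArg (fun z => z.hom.app (op T) ((toSheafify (Scheme.etaleTopology.over X) (frP.obj W')).app _ m)) h1).trans
    (congrArg ((prj l W).hom.app (op T)) h2.symm)

lemma lsm (W T : Over X) (s : sec (Ln l W) T) : l • s = 0 := by
  obtain ⟨a, rfl⟩ := (frEquiv T (Ln l W)).surjective s
  have h : (l : ℤ) • 𝟙 (Ln l W) = 0 := by
    rw [← cancel_epi (prj l W), Preadditive.comp_zsmul, Category.comp_id, comp_zero,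
      ← Category.id_comp (prj l W), ← Preadditive.zsmul_comp]
    exact cokernel.condition _
  rw [← map_nsmul, ← natCast_zsmul, ← Category.comp_id a, ← Preadditive.comp_zsmul, h, comp_zero,
    map_zero]

lemma exists_hom {W : Over X} {F : Sh (Scheme.etaleTopology.over X)} (s : sec F W) (hs : l • s = 0) :
    ∃ φ : Ln l W ⟶ F, ∀ (T : Over X) (y : T ⟶ W), φ.hom.app _ (pτ l W T (bas y)) = rsec y F s := by
  obtain ⟨a, rfl⟩ := (frEquiv W F).surjective s
  refine ⟨cokernel.desc _ a ?_, fun T y => ?_⟩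
  · rw [Preadditive.zsmul_comp, Category.id_comp, natCast_zsmul]
    exact (frEquiv W F).injective (by rw [map_nsmul, hs, map_zero])
  · rw [pτ_bas]
    refine (nat _ y _).trans (congrArg _ ?_)
    exact congrArg (frEquiv W F) (cokernel.π_desc _ a _)

/-- Reduction of the coefficients. -/
noncomputable def red (W T : Over X) : (frP.obj W).obj (op T) →+ ((T ⟶ W) →₀ ZMod l) :=
  (Finsupp.domCongr Equiv.ulift).toAddMonoidHom.comp
    (Finsupp.mapRange.addMonoidHom (Int.castAddHom (ZMod l)))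

lemma red_apply {W T : Over X} (m : ULift.{1} (T ⟶ W) →₀ ℤ) (y : T ⟶ W) :
    red l W T m y = (m ⟨y⟩ : ZMod l) := rfl

lemma red_bas {W T : Over X} (y : T ⟶ W) : red l W T (bas y) = Finsupp.single y 1 := by
  classical
  refine Finsupp.ext fun z => (red_apply l (Finsupp.single ⟨y⟩ 1) z).trans ?_
  simp [Finsupp.single_apply]

lemma red_surj (W T : Over X) : Surjective (red l W T) :=
  (Finsupp.domCongr Equiv.ulift).surjective.comp
    (Finsupp.mapRange_surjective _ (map_zero (Int.castAddHom (ZMod l))) ZMod.intCast_surjective)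

lemma red_zero {W T : Over X} (m : (frP.obj W).obj (op T)) :
    red l W T m = 0 ↔ ∃ m', l • m' = m := by
  constructor
  · intro h
    refine ⟨Finsupp.mapRange (· / (l : ℤ)) (Int.zero_ediv _) (m : ULift.{1} (T ⟶ W) →₀ ℤ),
      Finsupp.ext fun z => ?_⟩
    have := (ZMod.intCast_zmod_eq_zero_iff_dvd _ l).1
      ((red_apply l m z.down).symm.trans (DFunLike.congr_fun h z.down))
    exact (nsmul_eq_mul _ _).trans (Int.mul_ediv_cancel' this)
  · rintro ⟨m, rfl⟩
    rw [map_nsmul]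
    exact Finsupp.ext fun z => by simp

section shl
variable {A : Type} [CommRing A] [SHL A] (a : Spec (.of A) ⟶ X) (W : Over X)

lemma pτ_surj : Surjective (pτ l W (Over.mk a)) :=
  (shl_surj a (prj l W).hom).comp (shl_surj a (toSheafify (Scheme.etaleTopology.over X) (frP.obj W)))

lemma pτ_zero (m : (frP.obj W).obj (op (Over.mk a))) :
    pτ l W (Over.mk a) m = 0 ↔ ∃ m', l • m' = m := by
  refine ⟨fun h => ?_, fun ⟨m', h⟩ => by rw [← h, map_nsmul, lsm]⟩
  have hS := ShortComplex.exact_cokernel ((l : ℤ) • 𝟙 ((fr (Scheme.etaleTopology.over X)).obj W))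
  have := (ShortComplex.exact_iff_epi_kernel_lift _).1 hS
  obtain ⟨y, hy⟩ := ((exact_sec (ShortComplex.exact_kernel (prj l W)) (Over.mk a)).2 _).1 h
  obtain ⟨z, rfl⟩ := shl_surj a (kernel.lift (prj l W) _ (cokernel.condition _)).hom y
  obtain ⟨m', rfl⟩ := shl_surj a (toSheafify (Scheme.etaleTopology.over X) (frP.obj W)) z
  refine ⟨m', shl_inj a (toSheafify (Scheme.etaleTopology.over X) (frP.obj W)) (Eq.trans ?_ hy)⟩
  have e := congrArg (fun φ => φ.hom.app (op (Over.mk a))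
    ((toSheafify (Scheme.etaleTopology.over X) (frP.obj W)).app _ m')) (kernel.lift_ι (prj l W) _ (cokernel.condition _))
  exact (map_nsmul _ _ _).trans ((natCast_zsmul _ _).symm.trans e.symm)

lemma stalk : ∃ e : sec (Ln l W) (Over.mk a) ≃+ ((Over.mk a ⟶ W) →₀ ZMod l),
    ∀ m, e (pτ l W _ m) = red l W _ m :=
  exists_equiv _ _ (pτ_surj l a W) (red_surj l W _) fun m =>
    (pτ_zero l a W m).trans (red_zero l m).symm

end shl

lemma cc (l' : ℕ) (W : Over X) [Etale W.hom] : Cc l' (Ln l W) :=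
  Cc.coker _ (fr_Cc l' W) (fr_Cc l' W)

lemma cst_iso : Nonempty (Ln l (top X) ≅ (cst X).obj (.of (ULift.{1} (ZMod l)))) := by
  obtain ⟨φ, hφ⟩ := exists_hom l (F := (cst X).obj (.of (ULift.{1} (ZMod l))))
    (cstι _ (top X) (ULift.up (1 : ZMod l))) (by
      rw [← map_nsmul]
      exact (congrArg _ (ULift.ext _ _ (by simp))).trans (map_zero _))
  have : Etale (top X).hom := inferInstanceAs (Etale (𝟙 X))
  have key (A : Type) [CommRing A] [SHL A] (a : Spec (.of A) ⟶ X) :
      Bijective (φ.hom.app (op (Over.mk a))) := by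
    obtain ⟨e, he⟩ := stalk l a (top X)
    let _ : Unique (Over.mk a ⟶ top X) := Limits.isTerminalEquivUnique _ _ Over.mkIdTerminal _
    let ε : ((Over.mk a ⟶ top X) →₀ ZMod l) ≃+ ULift.{1} (ZMod l) :=
      (Finsupp.uniqueAddEquiv default).trans AddEquiv.ulift.symm
    have h : (φ.hom.app (op (Over.mk a))).hom.comp (pτ l _ _) =
        (cstι (.of (ULift.{1} (ZMod l))) (Over.mk a)).hom.comp
          (ε.toAddMonoidHom.comp (red l _ _)) := bas_ext fun y => by
      refine ((hφ _ y).trans (cstι_res _ y _)).trans (congrArg _ (congrArg ULift.up ?_))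
      rw [red_bas, Subsingleton.elim y default]
      exact Finsupp.single_eq_same.symm
    have h' : ⇑(φ.hom.app (op (Over.mk a))) = cstι _ (Over.mk a) ∘ ε ∘ e := funext fun s => by
      obtain ⟨m, rfl⟩ := pτ_surj l a _ s
      exact (DFunLike.congr_fun h m).trans (congrArg _ (congrArg ε (he m).symm))
    rw [h']
    exact (cstι_shl _ a).comp (ε.bijective.comp e.bijective)
  have := lfp_mono (cc l l (top X)).1 φ fun A _ _ a => (key A a).1
  have := lfp_epi (cc l l (top X)).1 (cst_Cc l _).1 φ fun A _ _ a => (key A a).2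
  have := isIso_of_mono_of_epi φ
  exact ⟨asIso φ⟩

lemma mu_iso [NeZero l] (k : Type) [Field k] [IsAlgClosed k] (f : X ⟶ Spec (.of k))
    (hl : (l : k) ≠ 0) : Nonempty ((cst X).obj (.of (ULift.{1} (ZMod l))) ≅ mu X l) := by
  have : NeZero (l : k) := ⟨hl⟩
  obtain ⟨ζ, hζ⟩ := HasEnoughRootsOfUnity.exists_primitiveRoot k l
  obtain ⟨e, -⟩ := cst_mu (n := l) (f.appTop ((Scheme.ΓSpecIso (.of k)).inv ζ))
    (by rw [← map_pow, ← map_pow, hζ.pow_eq_one, map_one, map_one]) fun K _ x =>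
      hζ.map_of_injective (f := ((Scheme.ΓSpecIso (.of k)).inv ≫ f.appTop ≫ x.appTop ≫
        (Scheme.ΓSpecIso (.of K)).hom).hom) (RingHom.injective _)
  exact ⟨e⟩

section graph
variable {Y W : Scheme.{0}} (ρ : Y ⟶ X) (c : W ⟶ Y)

/-- The graph. -/
noncomputable def gr : Over.mk c ⟶ (Over.pullback ρ).obj (Over.mk (c ≫ ρ)) :=
  toPb ρ (T := Over.mk (c ≫ ρ)) (T' := Over.mk c) (𝟙 W) (Category.id_comp _)

lemma gr_fst : (gr ρ c).left ≫ pullback.fst (c ≫ ρ) ρ = 𝟙 W := pullback.lift_fst _ _ _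

variable [IsFinite ρ] [IsOpenImmersion c] [Etale (c ≫ ρ)]

instance : IsClosedImmersion (gr ρ c).left :=
  have : IsClosedImmersion ((gr ρ c).left ≫ pullback.fst (c ≫ ρ) ρ) := by
    rw [gr_fst]; exact (inferInstance : IsClosedImmersion (𝟙 W))
  .of_comp _ (pullback.fst (c ≫ ρ) ρ)

instance : IsOpenImmersion (gr ρ c).left :=
  have : Etale ((gr ρ c).left ≫ pullback.snd (c ≫ ρ) ρ) := by
    rw [show (gr ρ c).left ≫ pullback.snd (c ≫ ρ) ρ = c from pullback.lift_snd _ _ _]
    infer_instance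
  have : Etale (gr ρ c).left := Etale.of_comp _ (pullback.snd (c ≫ ρ) ρ)
  .of_flat_of_mono _

omit [IsFinite ρ] [Etale (c ≫ ρ)] in
lemma hom_eq {V : Over Y} (a b : V ⟶ Over.mk c) : a = b :=
  Over.OverMorphism.ext ((cancel_mono c).1 ((Over.w a).trans (Over.w b).symm))

lemma exists_sec : ∃ s : sec (Ln l (Over.mk c)) ((Over.pullback ρ).obj (Over.mk (c ≫ ρ))),
    (∀ (V : Over Y) (a : V ⟶ Over.mk c), rsec (a ≫ gr ρ c) _ s = pτ l _ V (bas a)) ∧
    ∀ (V : Over Y) (z : V ⟶ _), (∀ t, z.left t ∉ Set.range (gr ρ c).left) → rsec z _ s = 0 := by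
  let R : ∀ ⦃V : Over Y⦄, (V ⟶ (Over.pullback ρ).obj (Over.mk (c ≫ ρ))) →
      sec (Ln l (Over.mk c)) V → Prop := fun V z x =>
    (∃ a, a ≫ gr ρ c = z ∧ x = pτ l _ V (bas a)) ∨
      ((∀ t, z.left t ∉ Set.range (gr ρ c).left) ∧ x = 0)
  have h2 : ∀ ⦃Z V⦄ (g : Z ⟶ V) z x, R z x → R (g ≫ z) (rsec g _ x) := by
    rintro Z V g _ _ (⟨a, rfl, rfl⟩ | ⟨h, rfl⟩)
    · exact .inl ⟨g ≫ a, Category.assoc _ _ _, by rw [pτ_bas, pτ_bas]; exact res_res _ _ _ _⟩
    · exact .inr ⟨fun t => h (g.left t), map_zero _⟩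
  have h0 : ∀ {V : Over Y} (a : V ⟶ Over.mk c), (∀ t, (a ≫ gr ρ c).left t ∉
      Set.range (gr ρ c).left) → ∀ x : sec (Ln l (Over.mk c)) V, x = 0 := fun a h x =>
    sepP (Ln l (Over.mk c)).property x ⊥
      (mem_Jov_of _ fun t => (h t ⟨_, (Scheme.Hom.comp_apply _ _ t).symm⟩).elim) fun _ _ h => h.elim
  obtain ⟨s, hs⟩ := glue (Ln l (Over.mk c)).property R
    ⟨fun _ z => ∃ x, R z x, fun ⟨_, h⟩ g => ⟨_, h2 g _ _ h⟩⟩ (mem_Jov_of _ fun t => by
      by_cases ht : t ∈ Set.range (gr ρ c).left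
      · exact ⟨_, gr ρ c, inferInstance, ⟨_, .inl ⟨𝟙 _, Category.id_comp _, rfl⟩⟩, ht⟩
      · let O : Scheme.Opens _ := ⟨(Set.range (gr ρ c).left)ᶜ,
          (gr ρ c).left.isClosedEmbedding.isClosed_range.isOpen_compl⟩
        exact ⟨_, opι _ O, (inferInstance : Etale O.ι), ⟨0, .inr ⟨fun t => t.2, rfl⟩⟩, ⟨t, ht⟩, rfl⟩)
    (fun _ _ h => h) h2 (by
      rintro V _ _ _ (⟨a, rfl, rfl⟩ | ⟨h, rfl⟩) (⟨a', h', rfl⟩ | ⟨h', rfl⟩)
      · rw [hom_eq c a a']
      · exact h0 a h' _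
      · exact (h0 a' (h' ▸ h) _).symm
      · rfl)
  exact ⟨s, fun V a => hs _ _ (.inl ⟨a, rfl, rfl⟩), fun V z h => hs _ _ (.inr ⟨h, rfl⟩)⟩

variable {ρ c} {T : Scheme.{0}} {x : T ⟶ X}

/-- The point of `W` over `X`. -/
def dn {y : Over.mk x ⟶ Over.mk ρ} (a : Over.mk y.left ⟶ Over.mk c) :
    Over.mk x ⟶ Over.mk (c ≫ ρ) :=
  Over.homMk a.left ((Category.assoc _ _ _).symm.trans
    ((congrArg (· ≫ ρ) (Over.w a)).trans (Over.w y)))

/-- The point of `Y`. -/
def upy (w : Over.mk x ⟶ Over.mk (c ≫ ρ)) : Over.mk x ⟶ Over.mk ρ :=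
  Over.homMk (w.left ≫ c) ((Category.assoc _ _ _).trans (Over.w w))

/-- The point of `W` over `Y`. -/
def upa (w : Over.mk x ⟶ Over.mk (c ≫ ρ)) : Over.mk (upy w).left ⟶ Over.mk c :=
  Over.homMk w.left rfl

end graph

theorem graph {Y W : Scheme.{0}} (ρ : Y ⟶ X) [IsFinite ρ] (c : W ⟶ Y) [IsOpenImmersion c]
    [Etale (c ≫ ρ)] (hl : Linv l X) : Nonempty (Ln l (Over.mk (c ≫ ρ)) ≅
      (pf (J := Scheme.etaleTopology) ρ).obj (Ln l (Over.mk c))) := by
  classical
  obtain ⟨s, h1, h2⟩ := exists_sec l ρ c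
  obtain ⟨φ, hφ⟩ := exists_hom l (W := Over.mk (c ≫ ρ))
    (F := (pf (J := Scheme.etaleTopology) ρ).obj (Ln l (Over.mk c))) s (lsm l _ _ s)
  have : Etale (Over.mk (c ≫ ρ)).hom := ‹_›
  have : Etale (Over.mk c).hom := (inferInstance : Etale c)
  have := pt_iso hl (cc l l _) (pf_cc ρ (cc l l _)) φ fun t => ?_
  · exact ⟨asIso φ⟩
  obtain ⟨k, _, _, x, hx⟩ := stk_geom X t
  refine ⟨k, _, inferInstance, x, ⟨closedPoint k, hx _⟩, ?_⟩
  obtain ⟨e, he⟩ := stalk l x (Over.mk (c ≫ ρ))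
  choose e' he' using fun y : Over.mk x ⟶ Over.mk ρ => stalk l y.left (Over.mk c)
  have key : ∀ (y : Over.mk x ⟶ Over.mk ρ) (a : Over.mk y.left ⟶ Over.mk c) z,
      e' y (atLift ρ _ y (φ.hom.app _ z)) a = e z (dn a) := fun y a z => by
    obtain ⟨m, rfl⟩ := pτ_surj l x _ z
    refine DFunLike.congr_fun (bas_ext (a := (Finsupp.applyAddHom a).comp
      ((e' y).toAddMonoidHom.comp ((atLift ρ _ y).comp ((φ.hom.app _).hom.comp (pτ l _ _)))))
      (b := (Finsupp.applyAddHom (dn a)).comp (e.toAddMonoidHom.comp (pτ l _ _))) fun w => ?_) m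
    change e' y (atLift ρ _ y (φ.hom.app _ (pτ l _ _ (bas w)))) a = e (pτ l _ _ (bas w)) (dn a)
    rw [hφ, he, red_bas]
    let z := toPb ρ (T := Over.mk x) (T' := Over.mk y.left) (𝟙 _)
      ((Category.id_comp _).trans (Over.w y).symm) ≫ (Over.pullback ρ).map w
    have hz : atLift ρ _ y (rsec w ((pf (J := Scheme.etaleTopology) ρ).obj (Ln l (Over.mk c))) s) =
      rsec z _ s := res_res (Ln l (Over.mk c)).obj _ _ s
    have z1 : z.left ≫ pullback.fst (c ≫ ρ) ρ = w.left :=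
      (Category.assoc _ _ _).trans ((congrArg _ (pullback.lift_fst _ _ _)).trans
        ((pullback.lift_fst_assoc _ _ _ _).trans (Category.id_comp _)))
    have z2 (b : Over.mk y.left ⟶ Over.mk c) : b ≫ gr ρ c = z ↔ w = dn b := by
      have b1 : (b ≫ gr ρ c).left ≫ pullback.fst (c ≫ ρ) ρ = b.left :=
        (Category.assoc _ _ _).trans ((congrArg _ (gr_fst ρ c)).trans (Category.comp_id _))
      refine ⟨fun h => Over.OverMorphism.ext (z1.symm.trans (h ▸ b1)), fun h =>
        Over.OverMorphism.ext (pullback.hom_ext (b1.trans (z1.trans ?_).symm)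
          ((Over.w _).trans (Over.w z).symm))⟩
      rw [h]; rfl
    rw [hz]
    by_cases h : w = dn a
    · rw [← (z2 a).2 h, h1, he', red_bas, h, Finsupp.single_eq_same, Finsupp.single_eq_same]
    · rw [h2 _ z fun t ht => ?_, map_zero, Finsupp.single_eq_of_ne' h]
      · rfl
      · have : Subsingleton (Spec (.of k)) := inferInstanceAs (Subsingleton (PrimeSpectrum k))
        have H : Set.range z.left ⊆ Set.range (gr ρ c).left :=
          Set.range_subset_iff.2 fun t' => Subsingleton.elim (α := Spec (.of k)) t t' ▸ ht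
        have H' := IsOpenImmersion.lift_fac _ _ H
        let b : Over.mk y.left ⟶ Over.mk c := Over.homMk (IsOpenImmersion.lift _ _ H) (by
          rw [← Over.w (gr ρ c), ← Category.assoc, H']; exact Over.w z)
        exact h (hom_eq c b a ▸ (z2 b).1 (Over.OverMorphism.ext H'))
  have hb := stalk_bij ρ (cc l l (Over.mk c)) (hl k x) x
  refine ⟨fun z z' h => e.injective (Finsupp.ext fun w => ?_), fun u => ?_⟩
  · exact (key _ (upa w) z).symm.trans (h ▸ key _ (upa w) z')
  · have := finite_lifts ρ x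
    have : Finite (Over.mk x ⟶ Over.mk (c ≫ ρ)) := Finite.of_injective upy fun w w' h =>
      Over.OverMorphism.ext ((cancel_mono c).1 (congrArg (·.left) h))
    refine ⟨e.symm (Finsupp.equivFunOnFinite.symm fun w =>
      e' (upy w) (atLift ρ _ (upy w) u) (upa w)), hb.1 (funext fun y =>
        (e' y).injective (Finsupp.ext fun a => (key y a _).trans ?_))⟩
    have H : ∀ (y y' : Over.mk x ⟶ Over.mk ρ) (_ : y = y') a a',
        e' y (atLift ρ _ y u) a = e' y' (atLift ρ _ y' u) a' := by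
      rintro y _ rfl a a'
      rw [hom_eq c a a']
    rw [e.apply_symm_apply]
    exact H _ _ (Over.OverMorphism.ext (Over.w a)) _ _

end LN

open LN in
theorem ln : LN_s := fun l _ X => by
  refine ⟨fun W _ => ⟨cc l l W, fun T _ s => ⟨1, by rw [pow_one]; exact lsm l W T s⟩⟩, cst_iso l,
    fun k _ _ f hl => ⟨(cst_iso l).some ≪≫ (mu_iso l k f hl).some⟩, fun k _ _ x => ?_⟩
  choose e he using stalk l x
  refine ⟨e, fun W' W g s => ?_⟩
  obtain ⟨m, rfl⟩ := pτ_surj l x W' s
  rw [lm_pτ, he, he]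
  refine DFunLike.congr_fun (bas_ext (a := (red l W _).comp ((frP.map g).app _).hom)
    (b := (Finsupp.mapDomain.addMonoidHom (· ≫ g)).comp (red l W' _)) fun y => ?_) m
  change red l W _ ((frP.map g).app _ (bas y)) = Finsupp.mapDomain _ (red l W' _ (bas y))
  rw [app_bas, red_bas, red_bas, Finsupp.mapDomain_single]

theorem graph (_h : LN_s) : GRAPH_s := fun l _ _ _ _ ρ _ c _ _ hl => LN.graph l ρ c hl

end Pool.Agent.MP_855f4c_ag.E.CV

end
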