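import Pool.Agent.MP_855f4c_ag.EC.Cb
import Pool.Agent.MP_855f4c_ag.EC.Pa
import Pool.Agent.MP_855f4c_ag.EC.E3a
import Pool.Agent.MP_855f4c_ag.EC.F2c
import Pool.Agent.MP_855f4c_ag.EC.F1b
import Pool.Agent.MP_855f4c_ag.EC.E4c
import Pool.Agent.MP_855f4c_ag.EC.F2b
import Pool.Agent.MP_855f4c_ag.EC.F2d

section

set_option autoImplicit false
set_option backward.isDefEq.respectTransparency false

open CategoryTheory Limits Abelian Opposite AlgebraicGeometry IsLocalRing

namespace Pool.Agent.MP_855f4c_ag.E.CV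

open E3 E4

lemma VAN.rc {X : Scheme.{0}} {A B C : Over X} (f : A ⟶ B) (g : B ⟶ C) (F : Sh (Scheme.etaleTopology.over X)) (q : ℕ)
    (x : H C F q) : res f F q (res g F q x) = res (f ≫ g) F q x :=
  (pre_pre _ _ _).trans (by rw [← Functor.map_comp])

lemma VAN.core (h3 : GEO_s) (h4 : CEN_s) (h5 : LOCX_s) (h6 : LES_s) (h7 : GEN_s) {k K : Type}
    [Field k] [IsAlgClosed k] [Field K] [Algebra k K] {X : Scheme.{0}} {T : Over X}
    {η : Spec (.of K) ⟶ T.left} (hC : Crv k η) {G : Sh (Scheme.etaleTopology.over X)} (hG : LFP G.obj) (q : ℕ)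
    (a : ∀ z : H (ov T η) G (q + 1), z = 0)
    (b : ∀ (x : WD.Place k K) (y : T.left) (p : Loc η x y) (w : H (ov T p.t) G q), w = 0)
    (z : H T G (q + 1)) : z = 0 := by
  refine (pre_bij ((fr (Scheme.etaleTopology.over X)).map (opι T ⊤)) G _).1 (Eq.trans ?_ (map_zero _).symm)
  generalize pre ((fr (Scheme.etaleTopology.over X)).map (opι T ⊤)) G _ z = z
  obtain ⟨V, hV, hη, h0⟩ := h7 k K X T η hC ⊤ (fun _ => trivial) G hG _ z (a _)
  have := (h3 k K _ η hC).2.2.2.2 (fun W => res (rO T (le_top : W ≤ ⊤)) G _ z = 0) V ⊤ hV hη h0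
    fun W W' y e1 e2 _ hy e3 h => by
      obtain ⟨x, hx⟩ := ((h4 k K _ η hC).1 y).1 (by rintro ⟨u, rfl⟩; exact hy (e1 (hη u)))
      obtain ⟨p⟩ := h5 k K _ η x y hx
      obtain ⟨d, d1, -⟩ := h6 k K X T η hC x y p W W' e2 (fun u => e1 (hη u)) hy e3 G hG
      obtain ⟨w, hw⟩ := (d1 q (res (rO T le_top) G _ z)).1 (by rw [VAN.rc, rO_rO]; exact h)
      rw [← hw, b x y p w, map_zero]
  rw [rO_id] at this
  exact ((congrArg (pre · G _ z) ((fr _).map_id _)).trans (pre_id z)).symm.trans this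

theorem van (h1 : CDF_s) (h2 : ZF_s) (h3 : GEO_s) (h4 : CEN_s) (h5 : LOCX_s) (h6 : LES_s)
    (h7 : GEN_s) : VAN_s := by
  intro l _ k K _ _ _ _ hl X T η hC G hG
  refine ⟨fun q => VAN.core h3 h4 h5 h6 h7 hC hG.1.1 _ (h1 l k K hC.td hl X _ G hG (q + 1))
    fun x y p => h1 l k p.L hC.td.of_alg hl X _ G hG q, fun Ω _ _ φ h q => ?_⟩
  have hK : (l : K) ≠ 0 := by
    rw [← map_natCast (algebraMap k K)]; exact (map_ne_zero _).2 hl
  exact VAN.core h3 h4 h5 h6 h7 hC hG.1.1 _ (h2 l K Ω φ hK X _ G hG.1 h _ (𝟙 _) _)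
    fun x y p => h2 l K Ω φ hK X _ G hG.1 h _ p.i _

theorem cd3 (h1 : VAN_s) (h2 : P1C_s) : CD3_s := fun l _ _ L F hF k _ _ t hl =>
  (h1 l k (RatFunc k) hl L.P (fbr L.π t) _ (h2 k (L.bc (Over.mk t))) F hF).1

theorem gz (h1 : VAN_s) (h2 : P1C_s) : GZ_s := by
  intro l _ S L F hF k _ _ t hl h
  let Ω := AlgebraicClosure (RatFunc k)
  refine (h1 l k (RatFunc k) hl L.P (fbr L.π t) _ (h2 k (L.bc (Over.mk t))) F hF).2 Ω
    (algebraMap _ _) ?_
  have e : spc (algebraMap (RatFunc k) Ω) ≫ gen (L.bc (Over.mk t)) (RatFunc.X : RatFunc k) ≫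
      (fbr L.π t).hom = L.pnt (spc (algebraMap k Ω) ≫ t) 
        (pt1 (algebraMap (RatFunc k) Ω RatFunc.X)) := by
    refine (congrArg (_ ≫ ·) (L.bc_pnt (Over.mk t) _ _)).trans ?_
    rw [PL.comp_pnt, map_pt1, ← Spec.map_comp_assoc]
    rfl
  rw [e]
  exact h Ω _ ((transcendental_algebraMap_iff (algebraMap (RatFunc k) Ω).injective).2
    RatFunc.transcendental_X)

end Pool.Agent.MP_855f4c_ag.E.CV

end

section

set_option autoImplicit false
set_option backward.isDefEq.respectTransparency false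

open CategoryTheory Limits Abelian Opposite AlgebraicGeometry IsLocalRing Polynomial

namespace Pool.Agent.MP_855f4c_ag.E.CV

open E3 E4

namespace P1L

variable {k : Type} [Field k]

lemma td : C.TD1 k (RatFunc k) :=
  ⟨RatFunc.X, by
    rw [RatFunc.adjoin_X]
    exact ⟨fun x => isAlgebraic_algebraMap (⟨x, trivial⟩ : (⊤ : IntermediateField k (RatFunc k)))⟩⟩

/-- The coordinate at infinity. -/
noncomputable def inf (k : Type) [Field k] : k[X] →ₐ[k] RatFunc k := aeval (RatFunc.X : RatFunc k)⁻¹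

lemma inf_inj : Function.Injective (inf k) := by
  have h : Transcendental k (RatFunc.X : RatFunc k)⁻¹ := fun h =>
    RatFunc.transcendental_X (IsAlgebraic.inv_iff.1 h)
  exact transcendental_iff_injective.1 h

lemma inf_frac : @IsFractionRing k[X] _ (RatFunc k) _ (inf k).toRingHom.toAlgebra := by
  let _ : Algebra k[X] (RatFunc k) := (inf k).toRingHom.toAlgebra
  refine @IsFractionRing.of_field _ _ _ _ _
    ((faithfulSMul_iff_algebraMap_injective _ _).2 inf_inj) fun z => ?_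
  let S : IntermediateField k (RatFunc k) :=
    { carrier := {z | ∃ x y : k[X], y ≠ 0 ∧ z = inf k x / inf k y}
      mul_mem' := by
        rintro _ _ ⟨a, b, hb, rfl⟩ ⟨c, d, hd, rfl⟩
        exact ⟨a * c, b * d, mul_ne_zero hb hd, by rw [map_mul, map_mul, div_mul_div_comm]⟩
      add_mem' := by
        rintro _ _ ⟨a, b, hb, rfl⟩ ⟨c, d, hd, rfl⟩
        exact ⟨a * d + b * c, b * d, mul_ne_zero hb hd, by
          rw [map_add, map_mul, map_mul, map_mul, div_add_div _ _
            ((map_ne_zero_iff _ inf_inj).2 hb) ((map_ne_zero_iff _ inf_inj).2 hd)]⟩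
      algebraMap_mem' := fun r => ⟨Polynomial.C r, 1, one_ne_zero, by simp [inf]⟩
      inv_mem' := by
        rintro _ ⟨a, b, hb, rfl⟩
        by_cases ha : a = 0
        · exact ⟨0, 1, one_ne_zero, by simp [ha]⟩
        · exact ⟨b, a, ha, inv_div _ _⟩ }
  have hS : (⊤ : IntermediateField k (RatFunc k)) ≤ S := by
    rw [← RatFunc.adjoin_X, IntermediateField.adjoin_simple_le_iff]
    exact ⟨1, X, X_ne_zero, by simp [inf]⟩
  obtain ⟨x, y, -, h⟩ := hS (x := z) trivial
  exact ⟨x, y, h⟩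

open LaurentPolynomial in
lemma unit_laurent (u : k[T;T⁻¹]) (hu : IsUnit u) :
    ∃ (c : k) (j : ℤ), c ≠ 0 ∧ u = LaurentPolynomial.C c * T j := by
  obtain ⟨v, hv⟩ := hu.exists_right_inv
  obtain ⟨a, p, hp⟩ := exists_T_pow u
  obtain ⟨b, q, hq⟩ := exists_T_pow v
  have h : p * q = X ^ (a + b) := toLaurent_injective (by
    rw [map_mul, hp, hq, toLaurent_X_pow, mul_mul_mul_comm, hv, one_mul, ← T_add, Nat.cast_add])
  obtain ⟨i, -, w, hw⟩ := (dvd_prime_pow prime_X _).1 ⟨q, h.symm⟩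
  obtain ⟨c, hc, e⟩ := Polynomial.isUnit_iff.1 w⁻¹.isUnit
  refine ⟨c, i - a, hc.ne_zero, ?_⟩
  have : p = Polynomial.C c * X ^ i := by rw [e, ← hw, mul_comm p, Units.inv_mul_cancel_left]
  rw [this, toLaurent_C_mul_X_pow] at hp
  rw [sub_eq_add_neg, T_add, ← mul_assoc, hp, mul_T_assoc, add_neg_cancel, T_zero, mul_one]

open LaurentPolynomial in
lemma pid_laurent : IsPrincipalIdealRing k[T;T⁻¹] := ⟨fun I => by
  obtain ⟨π, hπ⟩ := (IsPrincipalIdealRing.principal
    (Ideal.under k[X] I)).principal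
  rw [← IsLocalization.map_under (Submonoid.powers (X : k[X])) k[T;T⁻¹] I, hπ,
    Ideal.submodule_span_eq, Ideal.map_span, Set.image_singleton]
  exact ⟨⟨_, rfl⟩⟩⟩

lemma unit_poly {n : ℕ} [IsAlgClosed k] (hn : n ≠ 0) (u : k[X]ˣ) : ∃ v : k[X]ˣ, v ^ n = u := by
  obtain ⟨c, hc, e⟩ := Polynomial.isUnit_iff.1 u.isUnit
  obtain ⟨r, rfl⟩ := IsAlgClosed.exists_pow_nat_eq c hn.bot_lt
  exact ⟨(((isUnit_pow_iff hn).1 hc).map Polynomial.C).unit, Units.ext (by simp [← e])⟩

open LaurentPolynomial in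
/-- The coordinate as a unit. -/
noncomputable def xu (k : Type) [Field k] : k[T;T⁻¹]ˣ := (isUnit_T 1).unit

open LaurentPolynomial in
lemma xu_zpow (j : ℤ) : ((xu k ^ j : k[T;T⁻¹]ˣ) : k[T;T⁻¹]) = T j := by
  rw [← eval₂_T LaurentPolynomial.C (xu k) j]
  have : LaurentPolynomial.eval₂ LaurentPolynomial.C (xu k) = RingHom.id _ :=
    IsLocalization.ringHom_ext (Submonoid.powers (X : k[X])) (Polynomial.ringHom_ext
      (fun a => by simp [algebraMap_eq_toLaurent]) (by
        simp only [RingHom.comp_apply, algebraMap_eq_toLaurent, toLaurent_X, eval₂_T, zpow_one]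
        rfl))
  rw [this]
  rfl

open LaurentPolynomial in
lemma unit_dec {n : ℕ} [IsAlgClosed k] (hn : n ≠ 0) (u : k[T;T⁻¹]ˣ) :
    ∃ (v : k[T;T⁻¹]ˣ) (j : ℤ), u = v ^ n * xu k ^ j := by
  obtain ⟨c, j, hc, e⟩ := unit_laurent _ u.isUnit
  obtain ⟨r, rfl⟩ := IsAlgClosed.exists_pow_nat_eq c hn.bot_lt
  exact ⟨(((isUnit_pow_iff hn).1 hc.isUnit).map LaurentPolynomial.C).unit, j,
    Units.ext (by simp [e, xu_zpow])⟩

open LaurentPolynomial in
lemma pow_eq_T {n : ℕ} {j : ℤ} {v : k[T;T⁻¹]} (hv : IsUnit v) (h : v ^ n = T j) :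
    ∃ (c : k) (i : ℤ), j = n * i ∧ v = LaurentPolynomial.C c * T i := by
  obtain ⟨c, i, hc, e⟩ := unit_laurent _ hv
  refine ⟨c, i, ?_, e⟩
  rw [e, mul_pow, ← map_pow, T_pow] at h
  have := congrArg LaurentPolynomial.degree h
  rw [degree_C_mul_T _ _ (pow_ne_zero _ hc), degree_T] at this
  exact (WithBot.coe_injective this).symm

lemma res0 {X : Scheme.{0}} {T T' : Over X} (g : T' ⟶ T) (F : Sh (Scheme.etaleTopology.over X))
    (h : Function.Surjective (F.obj.map g.op)) : Function.Surjective (res g F 0) := fun z => by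
  obtain ⟨z, rfl⟩ := (Ext.mk₀_bijective _ _).2 z
  obtain ⟨s, hs⟩ := h (frEquiv T' F z)
  obtain ⟨a, rfl⟩ := (frEquiv T F).surjective s
  rw [← frEquiv_pre] at hs
  exact ⟨Ext.mk₀ a, (Ext.mk₀_comp_mk₀ _ _).trans (congrArg _ ((frEquiv T' F).injective hs))⟩

section fibre
open LaurentPolynomial
variable {Y : Scheme.{0}} (L : PL (Spec (.of k))) (f : L.P ⟶ Y)

/-- The second inclusion. -/
noncomputable abbrev toL' (k : Type) [Field k] : k[X] →+* k[T;T⁻¹] :=
  (invert (R := k)).toRingEquiv.toRingHom.comp toLaurent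

lemma sq : IsPullback (sph (a := L.c₁ ≫ f) (toLaurent : k[X] →+* k[T;T⁻¹]) rfl)
    (sph (a := L.c₂ ≫ f) (toL' k) (by rw [← L.isPullback_laurent.w_assoc]))
    (Over.homMk L.c₁ : _ ⟶ Over.mk f) (Over.homMk L.c₂) :=
  IsPullback.of_map_of_faithful (Over.forget Y) L.isPullback_laurent

lemma mv : (mvS (Scheme.etaleTopology.over Y) (sq L f).w).ShortExact :=
  @mv_open _ _ _ _ _ _ _ _ _ (sq L f) (inferInstanceAs (IsOpenImmersion L.c₁))
    (inferInstanceAs (IsOpenImmersion L.c₂)) L.cover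

lemma les {X₁ X₂ X₃ : ℕ → Type 1} [∀ q, AddCommGroup (X₁ q)] [∀ q, AddCommGroup (X₂ q)]
    [∀ q, AddCommGroup (X₃ q)] {f : ∀ q, X₁ q →+ X₂ q} {g : ∀ q, X₂ q →+ X₃ q}
    {d : ∀ q, X₃ q →+ X₁ (q + 1)} (E : IsLES f g d) (h0 : Function.Surjective (g 0))
    (h1 : ∀ z : X₂ 1, z = 0) (h2 : ∀ z : X₂ 2, z = 0) (x : X₃ 1) (n : ℤ)
    (hx : ∀ w, ∃ j : ℤ, w = j • x) (hn : ∀ j : ℤ, j • x = 0 ↔ n ∣ j) :
    (∀ z : X₁ 1, z = 0) ∧ (∀ z, ∃ j : ℤ, z = j • d 1 x) ∧ ∀ j : ℤ, j • d 1 x = 0 ↔ n ∣ j := by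
  refine ⟨fun z => ?_, fun z => ?_, fun j => ?_⟩
  · obtain ⟨w, rfl⟩ := (E.e₁ 0 z).1 (h1 _)
    exact (E.e₃ 0 w).2 (h0 w)
  · obtain ⟨w, rfl⟩ := (E.e₁ 1 z).1 (h2 _)
    obtain ⟨j, rfl⟩ := hx w
    exact ⟨j, map_zsmul _ _ _⟩
  · rw [← map_zsmul, ← hn, E.e₃ 1]
    exact ⟨fun ⟨a, e⟩ => by rw [← e, h1 a, map_zero], fun e => ⟨0, by rw [e, map_zero]⟩⟩

lemma cop {A B D : Type 1} [AddCommGroup A] [AddCommGroup B] [AddCommGroup D] {a : A →+ D}
    (b : B →+ D) (h : Function.Surjective a) : Function.Surjective (a.coprod b) := fun z =>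
  (h z).elim fun w e => ⟨(w, 0), by simpa using e⟩

lemma torus (hK : KAP_s) (hP : PID_s) [IsAlgClosed k] {n l m : ℕ} [Fact l.Prime] (h : n ∣ l ^ m)
    (n0 : n ≠ 0) (hl : (l : k) ≠ 0) (hn : Linv n Y) (a : Spec (.of k[T;T⁻¹]) ⟶ Y) :
    (∀ w, ∃ j : ℤ, w = j • kap hn a (xu k)) ∧ ∀ j : ℤ, j • kap hn a (xu k) = 0 ↔ (n : ℤ) ∣ j := by
  have hu : IsUnit (algebraMap k[X] (RatFunc k) X) := by simpa using RatFunc.X_ne_zero
  let _ : Algebra k[T;T⁻¹] (RatFunc k) := (IsLocalization.Away.lift X hu).toAlgebra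
  have : IsScalarTower k[X] k[T;T⁻¹] (RatFunc k) :=
    IsScalarTower.of_algebraMap_eq fun b => (IsLocalization.Away.lift_eq X hu b).symm
  have : IsScalarTower k k[T;T⁻¹] (RatFunc k) := IsScalarTower.of_algebraMap_eq fun c => by
    rw [IsScalarTower.algebraMap_apply k k[X] (RatFunc k),
      IsScalarTower.algebraMap_apply k[X] k[T;T⁻¹] (RatFunc k)]
    simp [algebraMap_eq_toLaurent]
  have : IsFractionRing k[T;T⁻¹] (RatFunc k) := IsFractionRing.isFractionRing_of_isLocalization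
    (Submonoid.powers (X : k[X])) _ _ (powers_le_nonZeroDivisors_of_noZeroDivisors X_ne_zero)
  have := pid_laurent (k := k)
  obtain ⟨k1, k2, k3, -⟩ := hK Y n hn _ a
  refine ⟨fun w => ?_, fun j => ?_⟩
  · obtain ⟨u, rfl⟩ := (hP l k k[T;T⁻¹] (RatFunc k) td hl Y a n m h hn).1 w
    obtain ⟨v, j, rfl⟩ := unit_dec n0 u
    exact ⟨j, by rw [k1, (k3 _).2 ⟨v, rfl⟩, zero_add, k2]⟩
  · rw [← k2, k3]
    refine ⟨fun ⟨v, hv⟩ => ?_, fun ⟨i, e⟩ => ⟨xu k ^ i, by rw [e, zpow_mul', zpow_natCast]⟩⟩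
    obtain ⟨c, i, hi, -⟩ := pow_eq_T (n := n) (j := j) v.isUnit (by
      rw [← xu_zpow, ← hv, Units.val_pow_eq_pow_val])
    exact ⟨i, hi⟩

lemma roots {n : ℕ} (n0 : n ≠ 0) (ω : k[T;T⁻¹]) (e : ω ^ n = 1) :
    ∃ ζ : k[X], ζ ^ n = 1 ∧ toLaurent ζ = ω := by
  obtain ⟨c, i, hi, rfl⟩ := pow_eq_T (j := 0) (IsUnit.of_pow_eq_one e n0) e
  obtain rfl : i = 0 := by simpa [n0] using hi
  refine ⟨Polynomial.C c, toLaurent_injective ?_, by simp⟩
  simpa using e

lemma fibre (hK : KAP_s) (hP : PID_s) [IsAlgClosed k] {n l m : ℕ} [Fact l.Prime] (h : n ∣ l ^ m)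
    (hl : (l : k) ≠ 0) (hn : Linv n Y) (δ : H (Over.mk f) (mu Y n) 2)
    (hδ : δ = dr (mv L f) (mu Y n) 1 (kap hn _ (xu k))) :
    (∀ z : H (Over.mk f) (mu Y n) 1, z = 0) ∧ (∀ z, ∃ j : ℤ, z = j • δ) ∧
      ∀ j : ℤ, j • δ = 0 ↔ (n : ℤ) ∣ j := by
  have n0 : n ≠ 0 := ne_zero_of_dvd_ne_zero (pow_ne_zero _ (Fact.out : l.Prime).ne_zero) h
  have P := fun a : Spec (.of k[X]) ⟶ Y => hP l k k[X] (RatFunc k) td hl Y a n m h hn
  have v1 : ∀ (a : Spec (.of k[X]) ⟶ Y) (z : H (Over.mk a) (mu Y n) 1), z = 0 := fun a z => by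
    obtain ⟨u, rfl⟩ := (P a).1 z
    exact ((hK Y n hn _ a).2.2.1 u).2 (unit_poly n0 u)
  subst hδ
  exact les (mv_les (mv L f) (mu Y n)) (cop _ (res0 _ _ (mu_bij n n0 _ _
    (fun ζ _ e => toLaurent_injective (e.trans (map_one _).symm)) (roots n0)).2))
    (fun _ => Prod.ext (v1 _ _) (v1 _ _)) (fun _ => Prod.ext ((P _).2 0 _) ((P _).2 0 _)) _ _
    (torus hK hP h n0 hl hn _).1 (torus hK hP h n0 hl hn _).2

end fibre

section base
variable {Y : Scheme.{0}} (q : Y ⟶ P1)

/-- The preimage of a chart. -/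
noncomputable def ch {A : Scheme.{0}} (ι : A ⟶ P1) : Over.mk (pullback.fst q ι) ⟶ top Y :=
  Over.homMk (pullback.fst q ι)

lemma gmv : (mvS (Scheme.etaleTopology.over Y) (IsPullback.of_hasPullback (ch q P1D.ι₁) (ch q P1D.ι₂)).w).ShortExact :=
  @mv_open _ _ _ _ _ _ _ _ _ (IsPullback.of_hasPullback (ch q P1D.ι₁) (ch q P1D.ι₂))
    (inferInstanceAs (IsOpenImmersion (pullback.fst q P1D.ι₁)))
    (inferInstanceAs (IsOpenImmersion (pullback.fst q P1D.ι₂))) fun t => (P1D.cov (q t)).imp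
      (pb_mem_range (IsPullback.of_hasPullback q _).flip t).2
      (pb_mem_range (IsPullback.of_hasPullback q _).flip t).2

/-- The coordinate on the overlap. -/
noncomputable def co : (pullback (ch q P1D.ι₁) (ch q P1D.ι₂)).left ⟶ Spec (.of ℤ[X]) :=
  (pullback.fst (ch q P1D.ι₁) (ch q P1D.ι₂)).left ≫ pullback.snd q P1D.ι₁

lemma co_unit : IsUnit ((co q).appTop ((Scheme.ΓSpecIso (.of ℤ[X])).inv X)) := by
  have e : co q ≫ P1D.ι₁ =
      ((pullback.snd (ch q P1D.ι₁) (ch q P1D.ι₂)).left ≫ pullback.snd q P1D.ι₂) ≫ P1D.ι₂ := by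
    rw [co, Category.assoc, Category.assoc, ← pullback.condition, ← pullback.condition]
    exact (Category.assoc _ _ _).symm.trans ((congrArg (fun z => Over.Hom.left z ≫ q)
      (pullback.condition (f := ch q P1D.ι₁) (g := ch q P1D.ι₂))).trans (Category.assoc _ _ _))
  rw [← P1D.glue.lift_fst _ _ e, Scheme.Hom.comp_appTop, CommRingCat.comp_apply]
  refine IsUnit.map _ ?_
  rw [← CommRingCat.comp_apply, ← Scheme.ΓSpecIso_inv_naturality, CommRingCat.comp_apply]
  refine IsUnit.map _ ?_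
  change IsUnit (toLaurent X)
  rw [toLaurent_X]
  exact LaurentPolynomial.isUnit_T 1

/-- The generator. -/
noncomputable def gam {n : ℕ} (hn : Linv n Y) : H (top Y) (mu Y n) 2 :=
  dr (gmv q) (mu Y n) 1 (kappa hn _ ((GmTop _).symm (Additive.ofMul (co_unit q).unit)))

lemma res_gam {n : ℕ} (hn : Linv n Y) (L : PL (Spec (.of k))) (f : L.P ⟶ Y) (hq : f ≫ q = L.q)
    (g : Over.mk f ⟶ top Y) :
    res g _ 2 (gam q hn) = dr (mv L f) (mu Y n) 1 (kap hn _ (xu k)) := by
  let ev := spc (eval₂RingHom (Int.castRingHom k[X]) X)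
  let u₁ : Over.mk (L.c₁ ≫ f) ⟶ Over.mk (pullback.fst q P1D.ι₁) := Over.homMk
    (pullback.lift (L.c₁ ≫ f) ev (by rw [Category.assoc, hq, L.isPullback_c₁.w]))
    (pullback.lift_fst _ _ _)
  let u₂ : Over.mk (L.c₂ ≫ f) ⟶ Over.mk (pullback.fst q P1D.ι₂) := Over.homMk
    (pullback.lift (L.c₂ ≫ f) ev (by rw [Category.assoc, hq, L.isPullback_c₂.w]))
    (pullback.lift_fst _ _ _)
  have t : ∀ {T : Over Y} (a b : T ⟶ top Y), a = b := fun a b => Over.mkIdTerminal.hom_ext a b
  let w := pullback.lift (f := ch q P1D.ι₁) (g := ch q P1D.ι₂)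
    (sph (a := L.c₁ ≫ f) (toLaurent : k[X] →+* LaurentPolynomial k) rfl ≫ u₁)
    (sph (a := L.c₂ ≫ f) (toL' k) (by rw [← L.isPullback_laurent.w_assoc]) ≫ u₂) (t _ _)
  refine (pre_dr (mv L f) (gmv q) (mvMap (Scheme.etaleTopology.over Y) _ _ w u₁ u₂ g (pullback.lift_fst _ _ _).symm
    (pullback.lift_snd _ _ _).symm (t _ _) (t _ _)) _).trans (congrArg _ ?_)
  refine (kappa_res hn w _).trans (congrArg _ ?_)
  rw [AddEquiv.eq_symm_apply]
  refine Additive.toMul.injective (Units.ext ?_)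
  have e : w.left ≫ co q = spc toLaurent ≫ ev := by
    refine (Category.assoc _ _ _).symm.trans ((congrArg (fun z => Over.Hom.left z ≫ pullback.snd q _)
      (pullback.lift_fst (f := ch q P1D.ι₁) _ _ _)).trans ((Category.assoc _ _ _).trans ?_))
    exact congrArg _ (pullback.lift_snd _ _ _)
  rw [GmEquiv_val, GmTop_res, AddEquiv.apply_symm_apply]
  change (Scheme.ΓSpecIso _).hom ((w.left ≫ co q).appTop ((Scheme.ΓSpecIso (.of ℤ[X])).inv X)) = _
  rw [e, ← Category.comp_id ev]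
  refine (spec_top _ _ _).trans ((congrArg _ (spec_top _ _ _)).trans ?_)
  simp [xu]

end base

end P1L

open P1L

theorem p1c : P1C_s := by
  intro k _ L
  have hX : (RatFunc.X : RatFunc k) * RatFunc.X⁻¹ = 1 := mul_inv_cancel₀ RatFunc.X_ne_zero
  refine ⟨?_, ?_, td, fun y => (L.cover y).elim (fun h => ⟨{ B := k[X], ι := L.c₁, w := ?_ }, h⟩)
    fun h => ⟨{ B := k[X], aK := (inf k).toRingHom.toAlgebra, st := ?_, fr := inf_frac
                ι := L.c₂, w := ?_ }, h⟩⟩
  · exact QuasiCompact.compactSpace_of_compactSpace L.π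
  · exact ⟨by rw [← terminal.comp_from L.π]; infer_instance⟩
  · rw [L.map_c₁]
    rfl
  · exact @IsScalarTower.of_algebraMap_eq _ _ _ _ _ _ _ (inf k).toRingHom.toAlgebra _
      fun c => ((inf k).commutes c).symm
  · rw [L.map_c₂, gen, pt1_eq_pt2.2 hX]
    congr 2
    · exact congrArg _ (RingHom.ext fun c => (inf k).commutes c)
    · exact aeval_X _

theorem p1mu (hK : KAP_s) (_ : H1_s) (hP : PID_s) (_ : P1C_s) : P1MU_s :=
  fun _ L _ hn => ⟨gam L.q hn, fun _ _ _ h _ _ _ t g hl =>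
    fibre (L.bc (Over.mk t)) (L.bcp _) hK hP h hl hn _
      (res_gam L.q hn (L.bc (Over.mk t)) (L.bcp _) rfl g)⟩

theorem gen2 (h : P1MU_s) (l m : ℕ) [Fact l.Prime] (S : Scheme.{0}) (L : PL S) (hl : Linv l S) :
    ∃ γ : H (top L.P) (mu L.P (l ^ m)) 2, ∀ (k : Type) [Field k] [IsAlgClosed k]
      (t : Spec (.of k) ⟶ S), Function.Bijective fun c : ZMod (l ^ m) =>
        c.val • res (Over.homMk (fbr L.π t).hom : fbr L.π t ⟶ top L.P) _ 2 γ := by
  have : NeZero (l ^ m) := ⟨pow_ne_zero _ (Fact.out : l.Prime).ne_zero⟩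
  obtain ⟨γ, hγ⟩ := h S L (l ^ m) fun k _ x => by simpa using pow_ne_zero m (hl k (x ≫ L.π))
  refine ⟨γ, fun k _ _ t => ?_⟩
  obtain ⟨-, h1, h2⟩ := hγ l m dvd_rfl k t (Over.homMk (fbr L.π t).hom) (hl k t)
  refine ⟨fun a b e => ?_, fun z => ?_⟩
  · have := (h2 (a.val - b.val)).1 (by
      rw [sub_smul, natCast_zsmul, natCast_zsmul]
      exact sub_eq_zero.2 e)
    rw [← ZMod.intCast_zmod_eq_zero_iff_dvd] at this
    simpa [sub_eq_zero] using this
  · obtain ⟨j, rfl⟩ := h1 z
    refine ⟨j, ?_⟩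
    beta_reduce
    rw [← sub_eq_zero, ← natCast_zsmul, ← sub_smul, h2, ← ZMod.intCast_zmod_eq_zero_iff_dvd]
    simp

end Pool.Agent.MP_855f4c_ag.E.CV

end

section

set_option autoImplicit false
set_option backward.isDefEq.respectTransparency false

open CategoryTheory Limits AlgebraicGeometry Polynomial

namespace Pool.Agent.MP_855f4c_ag.E.CV

namespace NORM

/-- The normalisation over an affine chart. -/
lemma chart0 {P : Scheme.{0}} {B R : Type} [CommRing B] [CommRing R] (w : Spec (.of B) ⟶ P)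
    [IsAffineHom w] (ι : Spec (.of R) ⟶ P) [IsOpenImmersion ι] :
    ∃ (A B' : Type) (_ : CommRing A) (_ : CommRing B') (α : R →+* A) (v : A →+* B') (ψ : B →+* B')
      (j : Spec (.of A) ⟶ w.normalization), IsOpenImmersion j ∧ IsOpenImmersion (spc ψ) ∧
      (∀ y, w.fromNormalization y ∈ Set.range ι → y ∈ Set.range j) ∧
      (∀ y, w y ∈ Set.range ι → y ∈ Set.range (spc ψ)) ∧
      j ≫ w.fromNormalization = spc α ≫ ι ∧ spc ψ ≫ w.toNormalization = spc v ≫ j ∧
      Function.Injective v ∧ ∀ b, (∃ a, v a = b) ↔ (v.comp α).IsIntegralElem b := by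
  have hU : IsAffineOpen ι.opensRange := isAffineOpen_opensRange ι
  have hV := hU.preimage w
  let e := IsOpenImmersion.isoOfRangeEq hU.fromSpec ι hU.range_fromSpec
  obtain ⟨φ, hφ⟩ := Spec.map_surjective e.hom
  have hb : Function.Bijective φ.hom := isIso_SpecMap_iff.1 (hφ ▸ inferInstance)
  obtain ⟨ψ, hψ⟩ := Spec.map_surjective hV.fromSpec
  let := (w.app ι.opensRange).hom.toAlgebra
  let A := integralClosure Γ(P, ι.opensRange) Γ(Spec (.of B), w ⁻¹ᵁ ι.opensRange)
  refine ⟨A, _, inferInstance, inferInstance, (algebraMap _ A).comp φ.hom, A.val.toRingHom, ψ.hom,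
    w.normalizationOpenCover.f ⟨_, hU⟩, inferInstance, ?_, fun y hy => ?_, fun y hy => ?_, ?_, ?_,
    Subtype.val_injective, fun b => ?_⟩
  · exact (hψ ▸ inferInstance : IsOpenImmersion (Spec.map ψ))
  · exact (SetLike.ext_iff.1 (w.fromNormalization_preimage ⟨_, hU⟩) y).1 hy
  · change y ∈ Set.range (Spec.map ψ)
    rw [hψ, hV.range_fromSpec]
    exact hy
  · refine (w.ι_fromNormalization ⟨_, hU⟩).trans ?_
    rw [← IsOpenImmersion.isoOfRangeEq_hom_fac hU.fromSpec ι hU.range_fromSpec]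
    change _ ≫ e.hom ≫ ι = _
    rw [← hφ, ← Spec.map_comp_assoc]
    rfl
  · change Spec.map ψ ≫ _ = _
    rw [hψ, ← hV.isoSpec_inv_ι, Category.assoc, w.ι_toNormalization ⟨_, hU⟩, ← hV.isoSpec_hom,
      Iso.inv_hom_id_assoc]
  · refine ⟨?_, fun h => ⟨⟨b, RingHom.IsIntegralElem.of_comp (f := φ.hom) (g := algebraMap _ _) h⟩, rfl⟩⟩
    rintro ⟨⟨b, p, hp, h⟩, rfl⟩
    obtain ⟨q, rfl, -, hq⟩ := lifts_and_natDegree_eq_and_monic (map_surjective _ hb.2 p) hp
    exact ⟨q, hq, (eval₂_map φ.hom _ b).symm.trans h⟩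

/-- A normal domain stays normal on open parts. -/
lemma normal {B B' K : Type} [CommRing B] [IsDomain B] [IsIntegrallyClosed B] [CommRing B']
    [Field K] [Algebra B K] [IsFractionRing B K] (ψ : B →+* B') [IsOpenImmersion (spc ψ)]
    (χ : B' →+* K) (h : χ.comp ψ = algebraMap B K) :
    Function.Injective χ ∧ ∀ x, χ.IsIntegralElem x → ∃ b, χ b = x := by
  have hs : ψ.SurjectiveOnStalks :=
    (SurjectiveOnStalks.Spec_iff (φ := CommRingCat.ofHom ψ)).1 inferInstance
  have h' : ∀ b, χ (ψ b) = algebraMap B K b := RingHom.congr_fun h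
  have := χ.domain_nontrivial
  have : IsIntegral (Spec (.of B')) := isIntegral_of_isOpenImmersion (spc ψ)
  have : IsDomain B' := (affine_isIntegral_iff (.of B')).1 this
  have hi : Function.Injective χ := (injective_iff_map_eq_zero _).2 fun s h0 => by
    have := RingHom.ker_isPrime χ
    obtain ⟨x, r, c, hc, hr, e⟩ := (RingHom.surjective_localRingHom_iff _).1
      (hs _ this) s
    have h1 := congrArg χ e
    rw [map_mul, h0, mul_zero, map_mul, h', eq_comm, mul_eq_zero, or_iff_right (show χ c ≠ 0 from hc),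
      FaithfulSMul.algebraMap_eq_zero_iff] at h1
    rw [h1, map_zero, mul_zero, mul_eq_zero, mul_eq_zero] at e
    exact e.resolve_left (not_or.2 ⟨fun h => hc (h ▸ zero_mem _), fun h => hr (h ▸ zero_mem _)⟩)
  refine ⟨hi, fun x hx => ?_⟩
  let I : Ideal B' :=
    { carrier := {b | ∃ c, χ c = χ b * x}
      add_mem' := fun ⟨c, hc⟩ ⟨d, hd⟩ => ⟨c + d, by rw [map_add, map_add, hc, hd, add_mul]⟩
      zero_mem' := ⟨0, by simp⟩
      smul_mem' := fun a b ⟨c, hc⟩ => ⟨a * c, by rw [smul_eq_mul, map_mul, map_mul, hc, mul_assoc]⟩ }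
  suffices I = ⊤ by simpa using (show ∃ c, χ c = χ 1 * x from (Ideal.eq_top_iff_one I).1 this)
  by_contra hI
  obtain ⟨q, hq, hIq⟩ := I.exists_le_maximal hI
  let p := q.comap ψ
  let S := Localization.subalgebra.ofField K p.primeCompl p.primeCompl_le_nonZeroDivisors
  have : IsIntegrallyClosed S :=
    isIntegrallyClosed_of_isLocalization S _ p.primeCompl_le_nonZeroDivisors
  have hS : ∀ s, χ s ∈ S := fun s => by
    obtain ⟨x, r, c, hc, hr, e⟩ := (RingHom.surjective_localRingHom_iff _).1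
      (hs _ hq.isPrime) s
    have h0 : ∀ {c}, c ∉ q → χ c ≠ 0 := fun hc h =>
      hc (((injective_iff_map_eq_zero _).1 hi _ h) ▸ zero_mem _)
    have h1 := congrArg χ e
    rw [map_mul, map_mul, map_mul, mul_assoc, mul_right_inj' (h0 hc)] at h1
    exact ⟨x, r, hr, by rw [← h', ← h', ← h1, mul_comm, inv_mul_cancel_left₀ (h0 hr)]⟩
  obtain ⟨⟨_, a, s, hs, rfl⟩, rfl⟩ := (isIntegrallyClosed_iff (R := S) K).1 this (x := x)
    (RingHom.IsIntegralElem.of_comp (f := χ.codRestrict S hS) (g := algebraMap S K) hx)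
  refine hs (hIq ⟨ψ a, ?_⟩)
  rw [h', h']
  exact ((mul_left_comm _ _ _).trans ((congrArg _ (mul_inv_cancel₀
    ((FaithfulSMul.algebraMap_eq_zero_iff B K).not.2 fun h : s = 0 =>
      hs (h ▸ p.zero_mem)))).trans (mul_one _))).symm

lemma lqf {X Y : Scheme.{0}} (w : X ⟶ Y) [Etale w] : LocallyQuasiFinite w :=
  ⟨fun {U} hU V hV e => by
    have := w.etale_appLE hU hV e
    algebraize [(w.appLE _ _ e).hom]
    exact (inferInstance : Algebra.QuasiFinite Γ(Y, U) Γ(X, V))⟩

lemma chart {k B F K : Type} [Field k] [CommRing B] [Field F] [Field K] [Algebra B K]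
    [Algebra k K] [IsDomain B] [IsIntegrallyClosed B] [IsFractionRing B K] [Algebra k F]
    [Algebra F K] [IsScalarTower k F K] [FiniteDimensional F K] [Algebra.IsSeparable F K]
    (s : F) (hs : Transcendental k s) (hs' : IntermediateField.adjoin k {s} = ⊤) {P : Scheme.{0}}
    (w : Spec (.of B) ⟶ P) [IsAffineHom w] (ι : Spec (.of k[X]) ⟶ P) [IsOpenImmersion ι]
    (h : spc (algebraMap B K) ≫ w =
      spc (eval₂RingHom (algebraMap k K) (algebraMap F K s)) ≫ ι) :
    ∃ c : Chart k (spc (algebraMap B K) ≫ w.toNormalization),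
      (∀ y, w.fromNormalization y ∈ Set.range ι → y ∈ Set.range c.ι) ∧
      LocallyOfFiniteType (c.ι ≫ w.fromNormalization) ∧
      ∀ x : WD.Place k K, x.v (algebraMap F K s) ≤ 1 → ∀ b, x.v (algebraMap c.B K b) ≤ 1 := by
  obtain ⟨A, B', _, _, α, v, ψ, j, _, _, h1, h2, h3, h4, h5, h6⟩ := chart0 w ι
  have H : Set.range (spc (algebraMap B K)) ⊆ Set.range (spc ψ) := by
    rintro _ ⟨z, rfl⟩
    exact h2 _ ⟨_, by rw [← Scheme.Hom.comp_apply, ← h, Scheme.Hom.comp_apply]⟩
  obtain ⟨χ, hχ⟩ := Spec.map_surjective (IsOpenImmersion.lift _ _ H)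
  have e0 : Spec.map χ ≫ spc ψ = spc (algebraMap B K) := hχ ▸ IsOpenImmersion.lift_fac _ _ H
  obtain ⟨h7, h8⟩ := normal ψ χ.hom
    congr(($(Spec.map_injective ((Spec.map_comp _ _).trans e0))).hom)
  have e1 : spc (χ.hom.comp v) ≫ j = spc (algebraMap B K) ≫ w.toNormalization := by
    rw [← e0, Category.assoc, h4, ← Spec.map_comp_assoc]
    rfl
  have e2 : (χ.hom.comp v).comp α = eval₂RingHom (algebraMap k K) (algebraMap F K s) := by
    have := e1 =≫ w.fromNormalization
    rw [Category.assoc, h3, Category.assoc, w.toNormalization_fromNormalization, h,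
      ← Spec.map_comp_assoc, cancel_mono] at this
    exact congr(($(Spec.map_injective this)).hom)
  let := α.toAlgebra
  let := (χ.hom.comp v).toAlgebra
  let := (α.comp C).toAlgebra
  let : Algebra k[X] F := (aeval s : k[X] →ₐ[k] F).toRingHom.toAlgebra
  let : Algebra k[X] K := ((χ.hom.comp v).comp α).toAlgebra
  have : IsScalarTower k[X] A K := .of_algebraMap_eq fun _ => rfl
  have : IsScalarTower k[X] F K := .of_algebraMap_eq fun p =>
    (RingHom.congr_fun e2 p).trans (aeval_algebraMap_apply K s p)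
  have : IsScalarTower k A K := .of_algebraMap_eq fun a =>
    ((RingHom.congr_fun e2 (C a)).trans (eval₂_C _ _)).symm
  have : FaithfulSMul k[X] F := (faithfulSMul_iff_algebraMap_injective _ _).2
    (transcendental_iff_injective.1 hs)
  have : IsFractionRing k[X] F := .of_field _ _ fun z =>
    (IntermediateField.mem_adjoin_simple_iff k z).1 (hs'.ge trivial)
  have : IsIntegralClosure A k[X] K := ⟨h7.comp h5, fun {x} => ⟨fun hx => by
    obtain ⟨b, rfl⟩ := h8 x (RingHom.IsIntegralElem.of_comp (f := v.comp α) (g := χ.hom) hx)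
    obtain ⟨p, hp, h0⟩ := hx
    obtain ⟨a, rfl⟩ := (h6 b).2 ⟨p, hp, h7 ((hom_eval₂ _ _ _ _).trans (h0.trans (map_zero _).symm))⟩
    exact ⟨a, rfl⟩, by
    rintro ⟨a, rfl⟩
    exact ((h6 _).1 ⟨a, rfl⟩).map χ.hom⟩⟩
  have := (h7.comp h5).isDomain (χ.hom.comp v)
  have := IsIntegralClosure.isDedekindDomain k[X] F K A
  have := IsIntegralClosure.isFractionRing_of_finite_extension k[X] F K A
  have := IsIntegralClosure.finite k[X] F K A
  refine ⟨{ B := A, ι := j, w := e1 }, h1, ?_, fun x hx b => ?_⟩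
  · have : IsFinite (spc α) := (IsFinite.SpecMap_iff _).2 this
    change LocallyOfFiniteType (j ≫ _)
    rw [h3]
    infer_instance
  · have hp : ∀ p : k[X], algebraMap k[X] K p ∈ x.v.integer := fun p => by
      rw [show algebraMap k[X] K p = _ from RingHom.congr_fun e2 p]
      exact (Algebra.adjoin_le (S := x.O)
        (Set.singleton_subset_iff.2 hx)) (aeval_mem_adjoin_singleton k _)
    exact (Valuation.integer.integers x.v).mem_of_integral
      (RingHom.IsIntegralElem.of_comp (f := (algebraMap k[X] K).codRestrict _ hp)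
        (g := algebraMap _ K) (IsIntegralClosure.isIntegral_iff.2 ⟨b, rfl⟩ : IsIntegral k[X] _))

end NORM

open NORM in
theorem norm (h : CEN_s) : NORM_s := by
  intro k B K _ _ _ _ _ _ _ _ _ _ _ _ _ _ L w _ hw
  have : IsAffineHom w := .of_comp w L.π
  have := lqf w
  have ht := RatFunc.transcendental_X (K := k)
  have h0 : algebraMap (RatFunc k) K RatFunc.X ≠ 0 := by simpa using RatFunc.X_ne_zero
  obtain ⟨c₁, a1, a2, a3⟩ := chart RatFunc.X ht RatFunc.adjoin_X w L.c₁
    (hw.trans (L.pnt_pt1 _ _))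
  obtain ⟨c₂, b1, b2, b3⟩ := chart (RatFunc.X : RatFunc k)⁻¹ (mt IsAlgebraic.inv_iff.1 ht)
    (top_unique (RatFunc.adjoin_X.symm.trans_le (IntermediateField.adjoin_simple_le_iff.2
      (inv_mem_iff.1 (IntermediateField.mem_adjoin_simple_self _ _))))) w L.c₂
    (hw.trans (by rw [← L.pnt_pt2, gen, map_inv₀, pt1_eq_pt2.2 (mul_inv_cancel₀ h0)]))
  have hc : ∀ y, ∃ c : Chart k (spc (algebraMap B K) ≫ w.toNormalization), y ∈ Set.range c.ι ∧
      LocallyOfFiniteType (c.ι ≫ w.fromNormalization) := fun y =>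
    (L.cover _).elim (fun h => ⟨c₁, a1 y h, a2⟩) fun h => ⟨c₂, b1 y h, b2⟩
  have hC : Crv k (spc (algebraMap B K) ≫ w.toNormalization) :=
    ⟨QuasiCompact.compactSpace_of_compactSpace (w.fromNormalization ≫ L.π),
      ⟨by rw [← terminal.comp_from (w.fromNormalization ≫ L.π)]; infer_instance⟩,
      C.TD1.of_alg (K := RatFunc k) ⟨RatFunc.X, ⟨fun z => isAlgebraic_algebraMap
        (⟨z, RatFunc.adjoin_X.ge trivial⟩ : IntermediateField.adjoin k {RatFunc.X})⟩⟩,
      fun y => (hc y).imp fun _ h => h.1⟩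
  refine ⟨_, w.fromNormalization, w.toNormalization, ?_, inferInstance,
    w.toNormalization_fromNormalization, hC, fun x => ?_⟩
  · choose c h1 h2 using hc
    exact (IsFinite.iff_isIntegralHom_and_locallyOfFiniteType _).2 ⟨inferInstance,
      IsZariskiLocalAtSource.of_openCover (P := @LocallyOfFiniteType)
        (Scheme.Cover.mkOfCovers _ _ (fun y => (c y).ι) fun y => ⟨y, h1 y⟩) h2⟩
  · have : ∃ c : Chart k (spc (algebraMap B K) ≫ w.toNormalization),
        ∀ b, x.v (algebraMap c.B K b) ≤ 1 := (x.v.val_le_one_or_val_inv_le_one _).elim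
      (fun h => ⟨c₁, a3 x h⟩) fun h => ⟨c₂, b3 x (by rwa [map_inv₀])⟩
    obtain ⟨c, hc⟩ := this
    obtain ⟨p, hp⟩ := (h k K _ _ hC).2.2.2.2 x c hc
    exact ⟨_, c, p, rfl, hp⟩

end Pool.Agent.MP_855f4c_ag.E.CV

end

section

set_option autoImplicit false
set_option backward.isDefEq.respectTransparency false

open CategoryTheory Limits Opposite AlgebraicGeometry IsLocalRing Polynomial IntermediateField

namespace Pool.Agent.MP_855f4c_ag.E.CV

open E3 E4

namespace ETC

lemma spc_comp {A B C : Type} [CommRing A] [CommRing B] [CommRing C] (φ : A →+* B)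
    (ψ : B →+* C) : spc ψ ≫ spc φ = spc (ψ.comp φ) := by
  rw [← Spec.map_comp, ← CommRingCat.ofHom_comp]

/-- A localisation whose closed part maps into a chart is ind-etale over the chart. -/
lemma chart {P : Scheme.{0}} {R B : Type} [CommRing R] [CommRing B] (c : Spec (.of R) ⟶ P)
    [IsOpenImmersion c] (w : Spec (.of B) ⟶ P) [Etale w] (p : Spec (.of B))
    (hp : w p ∈ Set.range c) (D : Type) [CommRing D] [Algebra B D] (M : Submonoid B)
    [IsLocalization M D] (hM : ∀ g, g ∉ p.asIdeal → g ∈ M) :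
    ∃ _ : Algebra R D, IndEt R D ∧ spc (algebraMap B D) ≫ w = spc (algebraMap R D) ≫ c := by
  have ho : IsOpen (w ⁻¹' Set.range c) := c.isOpenEmbedding.isOpen_range.preimage w.continuous
  obtain ⟨_, ⟨g, rfl⟩, hg, hsub⟩ :=
    PrimeSpectrum.isTopologicalBasis_basic_opens.exists_subset_of_mem_open hp ho
  have hg' : g ∉ p.asIdeal := hg
  let S := Localization.Away g
  have H : Set.range (spc (algebraMap B S) ≫ w) ⊆ Set.range c := by
    rintro _ ⟨z, rfl⟩
    rw [Scheme.Hom.comp_apply]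
    exact hsub ((mem_range_away (S := S) g _).1 ⟨z, rfl⟩)
  obtain ⟨ψ, hψ⟩ := Spec.map_surjective (IsOpenImmersion.lift c _ H)
  have e : Spec.map ψ ≫ c = spc (algebraMap B S) ≫ w := by rw [hψ, IsOpenImmersion.lift_fac]
  have : IsOpenImmersion (spc (algebraMap B S)) := IsOpenImmersion.of_isLocalization g
  have : Etale (Spec.map ψ ≫ c) := by rw [e]; infer_instance
  have h1 : Etale (Spec.map ψ) := Etale.of_comp _ c
  have h2 : ψ.hom.Etale := (HasRingHomProperty.Spec_iff (P := @Etale)).1 h1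
  let _ : Algebra R S := ψ.hom.toAlgebra
  have : Algebra.Etale R S := h2
  have hu : IsUnit (algebraMap B D g) := IsLocalization.map_units D ⟨g, hM g hg'⟩
  let _ : Algebra S D := (IsLocalization.Away.lift g hu).toAlgebra
  have : IsScalarTower B S D :=
    IsScalarTower.of_algebraMap_eq fun b => (IsLocalization.Away.lift_eq g hu b).symm
  have := IsLocalization.isLocalization_of_submonoid_le S D (Submonoid.powers g) M
    (Submonoid.powers_le.2 (hM g hg'))
  let a : Algebra R D := ((algebraMap S D).comp (algebraMap R S)).toAlgebra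
  have : IsScalarTower R S D := IsScalarTower.of_algebraMap_eq fun _ => rfl
  refine ⟨a, (IndEt.of_etale (R := R) (C := S)).comp
    (IndEt.of_isLocalization (M.map (algebraMap B S))), ?_⟩
  rw [IsScalarTower.algebraMap_eq B S D, IsScalarTower.algebraMap_eq R S D, ← spc_comp, ← spc_comp,
    Category.assoc, Category.assoc, ← e]
  rfl

lemma dedekind {k : Type} [Field k] (L : PL (Spec (.of k))) {B : Type} [CommRing B] [IsDomain B]
    [IsNoetherianRing B] (w : Spec (.of B) ⟶ L.P) [Etale w] : IsDedekindDomain B := by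
  have : IsDedekindDomainDvr B := by
    refine { is_dvr_at_nonzero_prime := fun P hP _ => ?_ }
    have key : ∀ (c : Spec (.of k[X]) ⟶ L.P) [IsOpenImmersion c],
        w ⟨P, inferInstance⟩ ∈ Set.range c → IsDiscreteValuationRing (Localization.AtPrime P) := by
      intro c _ h
      obtain ⟨_, H, -⟩ := chart c w _ h (Localization.AtPrime P) P.primeCompl fun _ hg => hg
      have h1 : (maximalIdeal (Localization.AtPrime P)).IsPrincipal := by
        rw [← H.map_maximalIdeal]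
        obtain ⟨π, hπ⟩ := (IsPrincipalIdealRing.principal
          ((maximalIdeal (Localization.AtPrime P)).comap (algebraMap k[X] _))).principal
        rw [hπ, Ideal.submodule_span_eq, Ideal.map_span, Set.image_singleton]
        exact ⟨⟨_, rfl⟩⟩
      exact ((IsDiscreteValuationRing.TFAE _
        (IsLocalization.AtPrime.not_isField B hP (Localization.AtPrime P))).out 0 4).2 h1
    exact (L.cover _).elim (key L.c₁) (key L.c₂)
  infer_instance

lemma generic {k : Type} [Field k] (L : PL (Spec (.of k))) {B : Type} [CommRing B] [IsDomain B]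
    (w : Spec (.of B) ⟶ L.P) [Etale w] (K : Type) [Field K] [Algebra B K] [IsFractionRing B K] :
    ∃ _ : Algebra k[X] K, IndEt k[X] K ∧
      spc (algebraMap B K) ≫ w = spc (algebraMap k[X] K) ≫ L.c₁ := by
  let z : Spec (.of K) := closedPoint K
  have hM : ∀ g, g ∉ (spc (algebraMap B K) z).asIdeal → g ∈ nonZeroDivisors B := fun g hg =>
    mem_nonZeroDivisors_of_ne_zero fun h => hg (h ▸ Ideal.zero_mem _)
  refine chart L.c₁ w (spc (algebraMap B K) z) ?_ K _ hM
  refine (L.cover _).elim id fun h => ?_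
  obtain ⟨_, H, e⟩ := chart L.c₂ w _ h K _ hM
  rw [← Scheme.Hom.comp_apply, e, Scheme.Hom.comp_apply, L.c₂_mem_c₁]
  intro hX
  have h1 : algebraMap k[X] K X ∈ maximalIdeal K := hX
  rw [maximalIdeal_eq_bot, Ideal.mem_bot] at h1
  exact X_ne_zero (H.injective (h1.trans (map_zero _).symm))

end ETC

theorem etc : ETC_s := by
  intro k _ _ L B _ _ w _
  obtain ⟨φ, hφ⟩ := Spec.map_surjective (w ≫ L.π)
  let aB : Algebra k B := φ.hom.toAlgebra
  have hft : Algebra.FiniteType k B := by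
    have h1 : LocallyOfFiniteType (Spec.map φ) := by rw [hφ]; infer_instance
    exact (HasRingHomProperty.Spec_iff (P := @LocallyOfFiniteType)).1 h1
  have : IsNoetherianRing B := Algebra.FiniteType.isNoetherianRing k B
  let K := FractionRing B
  obtain ⟨aX, H, e⟩ := ETC.generic L w K
  have hinj := H.injective
  have hC : (algebraMap k[X] K).comp C = algebraMap k K := by
    have h1 := e =≫ L.π
    rw [Category.assoc, Category.assoc, L.pnt_π, ← hφ] at h1
    have h2 : spc ((algebraMap B K).comp φ.hom) = spc ((algebraMap k[X] K).comp C) := by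
      rw [← ETC.spc_comp, ← ETC.spc_comp]; exact h1
    exact (congrArg CommRingCat.Hom.hom (Spec.map_injective h2)).symm
  have tX : IsScalarTower k k[X] K := IsScalarTower.of_algebraMap_eq' hC.symm
  let aR : Algebra (RatFunc k) K := (IsFractionRing.lift hinj).toAlgebra
  have tR : IsScalarTower k[X] (RatFunc k) K :=
    IsScalarTower.of_algebraMap_eq fun p => (IsFractionRing.lift_algebraMap hinj p).symm
  have tk : IsScalarTower k (RatFunc k) K := IsScalarTower.of_algebraMap_eq fun a => by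
    rw [IsScalarTower.algebraMap_apply k k[X] (RatFunc k), ← IsScalarTower.algebraMap_apply k[X],
      ← IsScalarTower.algebraMap_apply]
  have hsep : Algebra.IsSeparable (RatFunc k) K :=
    ⟨fun x => H.isSeparable (RatFunc k) (AlgHom.id _ _) x⟩
  have hess : Algebra.EssFiniteType k K := .comp k B K
  have hX : algebraMap (RatFunc k) K RatFunc.X = algebraMap k[X] K X := by
    rw [← RatFunc.algebraMap_X, ← IsScalarTower.algebraMap_apply]
  have hev : ∀ p : k[X], aeval (algebraMap k[X] K X) p = algebraMap k[X] K p := fun p => by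
    simpa using aeval_algHom_apply (IsScalarTower.toAlgHom k k[X] K) X p
  refine ⟨aB, K, inferInstance, inferInstance, inferInstance, inferInstance, inferInstance, aR, tk,
    ETC.dedekind L w, hft, ?_, hsep, ⟨inferInstance, algebraMap k[X] K X, ?_, ?_⟩, ?_⟩
  · have : Algebra.EssFiniteType (RatFunc k) K := .of_comp k _ _
    exact Algebra.finite_of_essFiniteType_of_isAlgebraic
  · rw [transcendental_iff_injective]
    intro p q h
    exact hinj ((hev p).symm.trans (h.trans (hev q)))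
  · have : Algebra.EssFiniteType k⟮algebraMap k[X] K X⟯ K := .of_comp k _ _
    let _ : Algebra k[X] k⟮algebraMap k[X] K X⟯ :=
      (aeval (AdjoinSimple.gen k (algebraMap k[X] K X))).toRingHom.toAlgebra
    have : IsScalarTower k[X] k⟮algebraMap k[X] K X⟯ K := IsScalarTower.of_algebraMap_eq fun p => by
      rw [← hev]
      exact aeval_algebraMap_apply K (AdjoinSimple.gen k (algebraMap k[X] K X)) p
    have hi : Function.Injective (algebraMap k[X] k⟮algebraMap k[X] K X⟯) := by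
      rw [IsScalarTower.algebraMap_eq k[X] k⟮algebraMap k[X] K X⟯ K, RingHom.coe_comp] at hinj
      exact hinj.of_comp
    have : Algebra.IsAlgebraic k⟮algebraMap k[X] K X⟯ K := ⟨fun x =>
      ((IsFractionRing.isAlgebraic_iff k[X] (RatFunc k) K).2
        (Algebra.IsAlgebraic.isAlgebraic x)).extendScalars hi⟩
    exact Algebra.finite_of_essFiniteType_of_isAlgebraic
  · rw [e, L.map_c₁, hC, hX]

end Pool.Agent.MP_855f4c_ag.E.CV

end

section

set_option autoImplicit false
set_option backward.isDefEq.respectTransparency false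

open CategoryTheory Limits Abelian Opposite AlgebraicGeometry TensorProduct Polynomial

namespace Pool.Agent.MP_855f4c_ag.E.CV

open E3 E4

namespace FING

section alg
variable {B E Ω : Type} [CommRing B] [CommRing E] [Algebra B E] [Algebra.Etale B E] [Field Ω]
  [Algebra B Ω]

lemma fin_alg : Finite (E →ₐ[B] Ω) := by
  have : Module.Finite Ω (Ω ⊗[B] E) := Algebra.FormallyUnramified.finite_of_free Ω _
  exact Finite.of_injective (β := Ω ⊗[B] E →ₐ[Ω] Ω)
    (fun e => Algebra.TensorProduct.lift (AlgHom.id Ω Ω) e fun _ _ => .all _ _)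
    fun e e' h => AlgHom.ext fun x => by simpa using congr($h (1 ⊗ₜ x))

lemma fin_hom {X : Scheme.{0}} (u : Spec (.of B) ⟶ X) [Mono u] : Finite (ob u Ω ⟶ ob u E) := by
  have := fin_alg (B := B) (E := E) (Ω := Ω)
  refine Finite.of_surjective (hm u (A := E) (B := Ω)) fun g => ?_
  obtain ⟨φ, hφ⟩ := Spec.map_surjective g.left
  have : CommRingCat.ofHom (algebraMap B E) ≫ φ = CommRingCat.ofHom (algebraMap B Ω) := by
    apply Spec.map_injective
    rw [← cancel_mono u, Spec.map_comp, hφ, Category.assoc]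
    exact Over.w g
  exact ⟨⟨φ.hom, fun r => congr($this r)⟩, Over.OverMorphism.ext hφ⟩

variable [IsAlgClosed Ω] [FaithfulSMul B Ω]

lemma sep_pts (y : E) (h : ∀ e : E →ₐ[B] Ω, e y = 0) : y = 0 := by
  have : IsReduced (Ω ⊗[B] E) := Algebra.FormallyUnramified.isReduced_of_field Ω _
  refine Algebra.TensorProduct.includeRight_injective (A := Ω)
    (FaithfulSMul.algebraMap_injective B Ω) ?_
  rw [map_zero]
  refine IsNilpotent.eq_zero (nilpotent_iff_mem_prime.2 fun q hq => ?_)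
  obtain ⟨φ, rfl⟩ := E3.exists_point (R := Ω) Ω q (((q.comap _).eq_bot_of_prime).trans
    ((RingHom.injective_iff_ker_eq_bot _).1 (algebraMap Ω Ω).injective).symm)
  exact h ((φ.restrictScalars B).comp Algebra.TensorProduct.includeRight)

/-- An etale neighbourhood of a generic point shrinks to an integral one. -/
lemma exists_dom [IsDomain B] [IsIntegrallyClosed B] (σ : E →ₐ[B] Ω) :
    ∃ (D : Type) (_ : CommRing D) (_ : IsDomain D) (_ : Algebra B D) (_ : Algebra.Etale B D)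
      (j : E →ₐ[B] D) (τ : D →ₐ[B] Ω), τ.comp j = σ := by
  obtain ⟨ε, h1, h2⟩ := exists_component σ
  have h3 (x : E) (hx : σ x = 0) : ε * x = 0 := sep_pts (B := B) (Ω := Ω) _ fun e => by
    by_cases he : e ε = 0
    · rw [map_mul, he, zero_mul]
    · have : x ∈ RingHom.ker e := h2 e he ▸ hx
      rw [map_mul, show e x = 0 from this, mul_zero]
  have : Algebra.Etale E (Localization.Away ε) := .of_isLocalizationAway ε
  obtain ⟨τ, hτ⟩ : ∃ τ : Localization.Away ε →+* Ω, ∀ x, τ (algebraMap E _ x) = σ x :=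
    have hu : IsUnit ((σ : E →+* Ω) ε) := by simp [h1]
    ⟨IsLocalization.Away.lift ε hu, IsLocalization.Away.lift_eq ε hu⟩
  have hi : Function.Injective τ := (injective_iff_map_eq_zero _).2 fun z hz => by
    obtain ⟨n, x, hx⟩ := IsLocalization.Away.surj ε z
    have h4 := congrArg (algebraMap E (Localization.Away ε))
      (h3 x (by rw [← hτ, ← hx, map_mul, hz, zero_mul]))
    have hu := IsLocalization.Away.algebraMap_isUnit (S := Localization.Away ε) ε
    rw [map_mul, map_zero, hu.mul_right_eq_zero, ← hx, (hu.pow n).mul_left_eq_zero] at h4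
    exact h4
  exact ⟨Localization.Away ε, inferInstance, hi.isDomain _, inferInstance,
    Algebra.Etale.comp B E _, IsScalarTower.toAlgHom B E _,
    ⟨τ, fun r => (hτ (algebraMap B E r)).trans (σ.commutes r)⟩, AlgHom.ext hτ⟩

end alg

lemma fin_mid {A B C : Type*} [AddCommGroup A] [AddCommGroup B] [AddCommGroup C] {f : A →+ B}
    {g : B →+ C} (h : Function.Exact f g) (_ : Finite A) (_ : Finite C) : Finite B :=
  g.finite_iff_finite_ker_range.2 ⟨by
    rw [h.addMonoidHom_ker_eq]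
    exact Finite.of_surjective _ f.rangeRestrict_surjective, inferInstance⟩

variable {X : Scheme.{0}} (l : ℕ) (T x : Over X)

/-- `Tc`, killed by `l`, finite at `x`. -/
structure Cls (N : Sh (Scheme.etaleTopology.over X)) : Prop where
  tc : Tc l N
  kill : (l : ℤ) • 𝟙 N = 0
  fin : Finite (sec N x)

variable {l T x}

lemma Cls.ker {M N : Sh (Scheme.etaleTopology.over X)} (φ : M ⟶ N) (hM : Cls l x M) (hN : Cc l N) :
    Cls l x (kernel φ) :=
  have := hM.fin
  ⟨hM.tc.ker φ hN, by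
    rw [← cancel_mono (kernel.ι φ), Preadditive.zsmul_comp, Category.id_comp, Limits.zero_comp,
      ← Category.comp_id (kernel.ι φ), ← Preadditive.comp_zsmul, hM.kill, Limits.comp_zero],
    Finite.of_injective _ (mono_sec (kernel.ι φ) x)⟩

lemma ses {M N : Sh (Scheme.etaleTopology.over X)} (p : M ⟶ N) [Epi p] :
    (ShortComplex.mk _ _ (kernel.condition p)).ShortExact :=
  { exact := ShortComplex.exact_kernel p }

lemma step (b : ℕ)
    (hx : ∀ {M N : Sh (Scheme.etaleTopology.over X)} (p : M ⟶ N) [Epi p], Function.Surjective (p.hom.app (op x)))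
    (h0 : ∀ N, Tc l N → (∀ s : sec N x, s = 0) → ∀ z : H T N b, z = 0)
    (h1 : ∀ N, Cls l x N → ∀ s : sec N x, ∃ (M : Sh (Scheme.etaleTopology.over X)) (φ : M ⟶ N), Cls l x M ∧
      Finite (H T M b) ∧ ∃ t, φ.hom.app _ t = s)
    (h2 : ∀ N, Cls l x N → Finite (H T N (b + 1))) (N : Sh (Scheme.etaleTopology.over X)) (hN : Cls l x N) :
    Finite (H T N b) := by
  induction hn : Nat.card (sec N x) using Nat.strong_induction_on generalizing N with | _ n ih
  by_cases hs : ∀ s : sec N x, s = 0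
  · have : Subsingleton (H T N b) := ⟨fun y z => (h0 N hN.tc hs y).trans (h0 N hN.tc hs z).symm⟩
    infer_instance
  obtain ⟨s, hs⟩ := not_forall.1 hs
  obtain ⟨M, φ, hM, h3, t, rfl⟩ := h1 N hN s
  have := hN.fin
  have h4 := hx (cokernel.π φ)
  have hQ : Cls l x (cokernel φ) := ⟨Tc.coker φ hM.tc.1 hN.tc, by
    rw [← cancel_epi (cokernel.π φ), Preadditive.comp_zsmul, Category.comp_id, Limits.comp_zero,
      ← Category.id_comp (cokernel.π φ), ← Preadditive.zsmul_comp, hN.kill, Limits.zero_comp],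
    Finite.of_surjective _ h4⟩
  have := hQ.fin
  refine fin_mid ((cov_les _ (ses (cokernel.π φ))).e₂ b)
    (fin_mid ((cov_les _ (ses (Abelian.factorThruImage φ))).e₃ b) h3
      (h2 _ (hM.ker _ (Cc.image φ hM.tc.1 hN.tc.1)))) (ih _ ?_ _ hQ rfl)
  have := Fintype.ofFinite (sec N x)
  have := Fintype.ofFinite (sec (cokernel φ) x)
  rw [← hn, Nat.card_eq_fintype_card, Nat.card_eq_fintype_card]
  refine Fintype.card_lt_of_surjective_not_injective _ h4 fun hi => hs (hi ?_)
  obtain ⟨t, rfl⟩ := (frEquiv x M).surjective t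
  rw [← frEquiv_post, ← frEquiv_post, Category.assoc, cokernel.condition, Limits.comp_zero, map_zero,
    map_zero]

lemma line (h2 : VAN_s) (h3 : P1C_s) (h4 : LN_s) (h5 : CURVE_s) (l : ℕ) [Fact l.Prime] (k : Type)
    [Field k] [IsAlgClosed k] (hl : (l : k) ≠ 0) (L : PL (Spec (.of k))) (Ω : Type) [Field Ω]
    [IsAlgClosed Ω] [Algebra k[X] Ω] [Algebra (RatFunc k) Ω] [IsScalarTower k[X] (RatFunc k) Ω]
    (b : ℕ) (N : Sh (Scheme.etaleTopology.over L.P)) (hN : Cls l (ob L.c₁ Ω) N) : Finite (H (top L.P) N (b + 1)) := by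
  have : FaithfulSMul k[X] Ω := (faithfulSMul_iff_algebraMap_injective _ _).2 (by
    rw [IsScalarTower.algebraMap_eq k[X] (RatFunc k) Ω]
    exact (algebraMap (RatFunc k) Ω).injective.comp (IsFractionRing.injective _ _))
  have e : spc (algebraMap (RatFunc k) Ω) ≫ gen L (RatFunc.X : RatFunc k) ≫ (top L.P).hom =
      (ob L.c₁ Ω).hom := by
    refine Eq.trans ?_ (L.map_c₁ _).symm
    refine (congrArg (_ ≫ ·) (Category.comp_id _)).trans ?_
    rw [PL.comp_pnt, map_pt1, ← Spec.map_comp,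
      ← CommRingCat.ofHom_comp, IsScalarTower.algebraMap_eq k[X] (RatFunc k) Ω]
    rfl
  have hV := fun G => h2 l k (RatFunc k) hl L.P (top L.P) _ (h3 k L) G
  have h0 (q : ℕ) (N) (hN : Tc l N) (hs : ∀ s : sec N (ob L.c₁ Ω), s = 0) :
      ∀ z : H (top L.P) N (q + 1), z = 0 :=
    (hV N hN).2 Ω (algebraMap (RatFunc k) Ω) (by rw [e]; exact hs) q
  have h6 (q : ℕ) (N) (hN : Cls l (ob L.c₁ Ω) N) : Finite (H (top L.P) N (q + 3)) :=
    have : Subsingleton (H (top L.P) N (q + 3)) :=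
      ⟨fun y z => ((hV N hN.tc).1 q y).trans ((hV N hN.tc).1 q z).symm⟩
    inferInstance
  have h1 (N) (hN : Cls l (ob L.c₁ Ω) N) (s : sec N (ob L.c₁ Ω)) :
      ∃ (M : Sh (Scheme.etaleTopology.over L.P)) (φ : M ⟶ N), Cls l (ob L.c₁ Ω) M ∧
        (Finite (H (top L.P) M 1) ∧ Finite (H (top L.P) M 2)) ∧ ∃ t, φ.hom.app _ t = s := by
    obtain ⟨E, σ, t, -, rfl⟩ := germ_surj L.c₁ hN.tc.1 (A := k[X])
      (by simpa using hl.isUnit.map (algebraMap k k[X])) (Algebra.ofId _ Ω) s
    have := E.etale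
    obtain ⟨D, _, _, _, _, j, τ, rfl⟩ := exists_dom σ
    have : Etale (spc (algebraMap k[X] D)) :=
      (HasRingHomProperty.Spec_iff (P := @Etale)).2 (RingHom.etale_algebraMap.2 ‹_›)
    have hW : Etale (ob L.c₁ D).hom := inferInstanceAs (Etale (spc (algebraMap k[X] D) ≫ L.c₁))
    have : IsAffine (ob L.c₁ D).left := inferInstanceAs (IsAffine (Spec _))
    have : IsIntegral (ob L.c₁ D).left := inferInstanceAs (IsIntegral (Spec (.of D)))
    obtain ⟨-, c1, -, -, c2, c3, -⟩ := h5 l k hl L (ob L.c₁ D) (Over.homMk (ob L.c₁ D).hom)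
    obtain ⟨e, -⟩ := (h4 l L.P).2.2.2 Ω (ob L.c₁ Ω).hom
    have : Finite (Over.mk (ob L.c₁ Ω).hom ⟶ ob L.c₁ D) := fin_hom L.c₁
    have : NeZero l := ⟨(Fact.out : l.Prime).ne_zero⟩
    have : Finite (H (top L.P) (Ln l (top L.P)) 2) :=
      Nat.finite_of_card_ne_zero (c3.trans_ne (NeZero.ne l))
    refine ⟨Ln l (ob L.c₁ D), cokernel.desc _ ((frEquiv _ N).symm (rs L.c₁ N.obj j t)) (by
        rw [Preadditive.zsmul_comp, Category.id_comp, ← Category.comp_id ((frEquiv _ N).symm _),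
          ← Preadditive.comp_zsmul, hN.kill, Limits.comp_zero]),
      ⟨(h4 l L.P).1 _ hW, ?_, Finite.of_injective _ (DFunLike.coe_injective.comp (e _).injective)⟩,
      ⟨c1, Finite.of_injective _ c2.1⟩,
      frEquiv _ _ ((fr _).map (hm L.c₁ τ) ≫ cokernel.π _), ?_⟩
    · rw [Ln, ← cancel_epi (cokernel.π _), Preadditive.comp_zsmul, Category.comp_id, Limits.comp_zero,
        ← Category.id_comp (cokernel.π _), ← Preadditive.zsmul_comp, cokernel.condition]
    · rw [← frEquiv_post, Category.assoc, cokernel.π_desc, frEquiv_pre, AddEquiv.apply_symm_apply]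
      exact rs_rs _ _ _ _ _
  have hx {M N : Sh (Scheme.etaleTopology.over L.P)} (p : M ⟶ N) [Epi p] := E4.shl_lift (A := Ω) L.c₁ p
  have h7 := step 2 hx (h0 1) (fun N hN s => (h1 N hN s).imp fun _ h => h.imp fun _ h =>
    ⟨h.1, h.2.1.2, h.2.2⟩) (h6 0)
  match b with
  | 0 => exact step 1 hx (h0 0) (fun N hN s => (h1 N hN s).imp fun _ h => h.imp fun _ h =>
      ⟨h.1, h.2.1.1, h.2.2⟩) h7 N hN
  | 1 => exact h7 N hN
  | b + 2 => exact h6 b N hN

end FING

theorem fing (h1 : NSL_s) (h2 : VAN_s) (h3 : P1C_s) (h4 : LN_s) (h5 : CURVE_s) : FING_s := by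
  intro l _ S L F hF hk hf k _ _ t hl b
  obtain ⟨e, -⟩ := h1 _ _ (L.bcp (Over.mk t))
  have hΩ : (l : AlgebraicClosure (RatFunc k)) ≠ 0 := by
    simpa using (map_ne_zero (algebraMap k (AlgebraicClosure (RatFunc k)))).2 hl
  have := FING.line h2 h3 h4 h5 l k hl (L.bc (Over.mk t)) (AlgebraicClosure (RatFunc k)) b
    ((pb (J := Scheme.etaleTopology) (L.bcp (Over.mk t))).obj F)
    ⟨hF.pb _, congrArg (pb (J := Scheme.etaleTopology) (L.bcp (Over.mk t))).map hk, hf _ _ hΩ⟩
  have := Finite.of_surjective _ (e (top _) F (b + 1)).surjective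
  let i : (Over.map (L.bcp (Over.mk t))).obj (top _) ≅ fbr L.π t :=
    Over.isoMk (Iso.refl _) ((Category.id_comp _).trans (Category.id_comp _).symm)
  exact Finite.of_injective _ (pre_bij ((fr _).map i.hom) F (b + 1)).1

end Pool.Agent.MP_855f4c_ag.E.CV

end

section

set_option autoImplicit false
set_option backward.isDefEq.respectTransparency false

open CategoryTheory Limits Abelian Opposite AlgebraicGeometry IsLocalRing Polynomial

namespace Pool.Agent.MP_855f4c_ag.E.CV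

open E3 E4

namespace GD

lemma ex_hom {R S M : Type} [CommRing R] [IsDomain R] [Field S] [Algebra R S] [FaithfulSMul R S]
    [Algebra.IsAlgebraic R S] [Field M] [IsAlgClosed M] (f : R →+* M) (hf : Function.Injective f) :
    ∃ ψ : S →+* M, ψ.comp (algebraMap R S) = f := by
  let := f.toAlgebra
  have : FaithfulSMul R M := (faithfulSMul_iff_algebraMap_injective _ _).2 hf
  exact ⟨(IsAlgClosed.lift : S →ₐ[R] M), AlgHom.comp_algebraMap _⟩

lemma path {Y : Scheme.{0}} {B : Type} [CommRing B] (u : Spec (.of B) ⟶ Y) {l : ℕ} (Ω : Type)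
    [Field Ω] [IsAlgClosed Ω] [Algebra B Ω] [FaithfulSMul B Ω] [Algebra.IsAlgebraic B Ω]
    {F : Sh (Scheme.etaleTopology.over Y)} (hF : Cc l F) {U : Scheme.{0}} (j : U ⟶ Y) [IsOpenImmersion j]
    (hL : Lis l F.obj (Over.mk j)) (hV : Van l (Set.range j) F) (hl : IsUnit (l : B))
    (s : sec F (ob u B)) (q : Spec (.of B)) :
    (u q ∉ Set.range j → rs u F.obj (Algebra.ofId B Ω) s = 0) ∧
    (rs u F.obj (Algebra.ofId B Ω) s = 0 → ∃ (k : Type) (_ : Field k) (_ : IsAlgClosed k)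
      (_ : Algebra B k), (l : k) ≠ 0 ∧ q ∈ Set.range (spc (algebraMap B k)) ∧
        rs u F.obj (Algebra.ofId B k) s = 0) := by
  obtain ⟨C, _, _, _, φ, k, _, _, _, r, σ, h1, h2, h3, h4⟩ :=
    exists_path (B := B) (Ω := Ω) (D := B) q.asIdeal
  have := h1.shl
  have hC : IsUnit (l : C) := by simpa using hl.map (algebraMap B C)
  have hk : (l : k) ≠ 0 := by simpa using (hl.map (algebraMap B k)).ne_zero
  have e1 : rs u F.obj φ (rs u F.obj σ s) = rs u F.obj (Algebra.ofId B Ω) s :=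
    (rs_rs ..).trans (rs_congr u _ (Subsingleton.elim _ _) s)
  have e2 : rs u F.obj r (rs u F.obj σ s) = rs u F.obj (Algebra.ofId B k) s :=
    (rs_rs ..).trans (rs_congr u _ (Subsingleton.elim _ _) s)
  have hq (z) : spc (algebraMap B k) z = q := PrimeSpectrum.ext (by
    rw [← h4, Subsingleton.elim z (closedPoint k), Subsingleton.elim (r.comp σ) (Algebra.ofId B k)]
    change (maximalIdeal k).comap _ = _
    rw [maximalIdeal_eq_bot]; rfl)
  have h0 (h : u q ∉ Set.range j) : rs u F.obj (Algebra.ofId B k) s = 0 :=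
    hV k _ hk (fun z => by rwa [Scheme.Hom.comp_apply, hq]) _
  refine ⟨fun h => ?_, fun h => ⟨k, _, inferInstance, _, hk, ⟨closedPoint k, hq _⟩, ?_⟩⟩
  · rw [← e1, (rig u hF.2 r h3 hC).1 (e2.trans ((h0 h).trans (map_zero _).symm)), map_zero]
  by_cases hu : u q ∈ Set.range j
  swap
  · exact h0 hu
  have hr : Set.range (ob u C).hom ⊆ Set.range j := by
    rintro _ ⟨z, rfl⟩
    refine ((specializes_closedPoint (R := C) z).map (ob u C).hom.continuous).mem_open
      j.isOpenEmbedding.isOpen_range ?_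
    have := isLocalHom_of_ker r h3
    rw [← comap_closedPoint (r : C →+* k), ← hq (closedPoint k)] at *
    convert hu using 1
    exact congr($(Over.w (hm u r)) (closedPoint k))
  have : IsDomain C := h2.isDomain φ
  have h5 : Function.Bijective (rs u F.obj (up B C (FractionRing C))) :=
    hL C (FractionRing C) (ob u C).hom (ob u (FractionRing C)).hom
      (Over.w (hm u (up B C (FractionRing C))))
      ⟨Over.homMk (IsOpenImmersion.lift j _ hr) (IsOpenImmersion.lift_fac _ _ _)⟩ h1 hC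
  have := aic_frac h1 (FractionRing C)
  let ψ : FractionRing C →ₐ[B] Ω := IsFractionRing.liftAlgHom h2
  have h6 := ((field_rig u hF.2 ψ (by simpa using hC.map (algebraMap C (FractionRing C)))).comp
    h5).1 (a₁ := rs u F.obj σ s) (a₂ := 0) (by
      simp only [Function.comp_apply, map_zero, rs_rs]
      exact (rs_congr u _ (Subsingleton.elim _ _) s).trans h)
  rw [← e2, h6, map_zero]

lemma fin_set {A B C D : Type*} [AddCommGroup A] [AddCommGroup B] [AddCommGroup C] [AddCommGroup D]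
    {g : A →+ B} {f : B →+ C} (h : Function.Exact g f) (d : D →+ C) [Finite A] [Finite D] :
    {x : B | f x ∈ Set.range d}.Finite :=
  (Set.finite_range d).preimage' fun c _ => by
    by_cases hc : ∃ y, f y = c
    · obtain ⟨y, rfl⟩ := hc
      refine (Set.finite_range fun a => y + g a).subset fun x hx => ?_
      obtain ⟨a, ha⟩ := (h (x - y)).1 (by rw [map_sub, show f x = f y from hx, sub_self])
      exact ⟨a, by simp [ha]⟩
    · exact Set.finite_empty.subset fun x hx => hc ⟨x, hx⟩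

lemma ses {Y : Scheme.{0}} {M N : Sh (Scheme.etaleTopology.over Y)} (p : M ⟶ N) [Epi p] :
    (ShortComplex.mk _ _ (kernel.condition p)).ShortExact :=
  { exact := ShortComplex.exact_kernel p }

lemma fin_tors {C : Type 2} [Category.{1} C] [Abelian C] [HasExt.{1} C] (A F : C) (l b : ℕ)
    (f1 : Finite (Ext.{1} A (kernel (Abelian.factorThruImage ((l : ℤ) • 𝟙 F))) (b + 1)))
    (f2 : Finite (Ext.{1} A (cokernel ((l : ℤ) • 𝟙 F)) b)) :
    {z : Ext.{1} A F (b + 1) | l • z = 0}.Finite := by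
  let m := (l : ℤ) • 𝟙 F
  have s1 : (ShortComplex.mk _ _ (kernel.condition (Abelian.factorThruImage m))).ShortExact :=
    { exact := ShortComplex.exact_kernel _ }
  have s2 : (ShortComplex.mk _ _ (kernel.condition (cokernel.π m))).ShortExact :=
    { exact := ShortComplex.exact_kernel _ }
  refine (fin_set ((cov_les _ s1).e₂ (b + 1)) (dl _ s2 b)).subset fun z hz => ?_
  refine ((cov_les _ s2).e₁ b _).1 ((post_post _ _ _).trans ?_)
  erw [Abelian.image.fac]
  have e : Ext.mk₀ m = l • Ext.mk₀ (𝟙 F) :=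
    (congrArg Ext.mk₀ (natCast_zsmul _ _)).trans (map_nsmul Ext.addEquiv₀.symm _ _)
  rw [post_apply, e]
  exact (map_nsmul (Ext.bilinearComp _ _ _ _ _ _ (add_zero _) z) _ _).trans
    ((congrArg (l • ·) (post_id z)).trans hz)

end GD

open GD

theorem gd0 : GD0_s := by
  intro l A _ L h F _ hF hL hV k _ _ t hl z
  obtain ⟨z, rfl⟩ := Ext.addEquiv₀.symm.surjective z
  obtain ⟨s, rfl⟩ := (frEquiv _ F).symm.surjective z
  suffices s = 0 by rw [this, map_zero, map_zero]
  let L' := L.bc (Over.mk t)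
  let Ω := AlgebraicClosure (RatFunc k)
  have : FaithfulSMul k[X] Ω := (faithfulSMul_iff_algebraMap_injective _ _).2 (by
    rw [IsScalarTower.algebraMap_eq k[X] (RatFunc k) Ω]
    exact (algebraMap (RatFunc k) Ω).injective.comp (IsFractionRing.injective _ _))
  have : Algebra.IsAlgebraic k[X] Ω :=
    have := IsLocalization.isAlgebraic (RatFunc k) (nonZeroDivisors k[X])
    .trans _ (RatFunc k) Ω
  have hu : IsUnit (l : k[X]) := by simpa using hl.isUnit.map (algebraMap k k[X])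
  let g (c : Spec (.of k[X]) ⟶ L'.P) (D : Type) [CommRing D] [Algebra k[X] D] :
      ob (c ≫ L.bcp (Over.mk t)) D ⟶ fbr L.π t := Over.homMk (spc (algebraMap k[X] D) ≫ c)
  have hg (c : Spec (.of k[X]) ⟶ L'.P) (D : Type) [CommRing D] [Algebra k[X] D] :
      rs _ F.obj (Algebra.ofId k[X] D) (F.obj.map (g c k[X]).op s) = F.obj.map (g c D).op s := by
    rw [rs_apply, res_res]
    refine congrArg (fun a : ob _ D ⟶ _ => F.obj.map a.op s) (Over.OverMorphism.ext ?_)
    exact (Spec.map_comp_assoc _ _ _).symm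
  have P (c : Spec (.of k[X]) ⟶ L'.P) := path (c ≫ L.bcp (Over.mk t)) Ω hF (L.u h) hL hV hu
    (F.obj.map (g c k[X]).op s)
  have h2 : F.obj.map (g L'.c₂ Ω).op s = 0 := by
    rw [← hg]
    refine (P L'.c₂ ⟨Ideal.span {X}, (Ideal.span_singleton_prime X_ne_zero).2 prime_X⟩).1
      fun hx => ?_
    rw [L.bc_pnt] at hx
    exact (L.pt2_mem_c₁ _ _ _).1 (L.range_u_subset h hx) (Ideal.mem_span_singleton_self _)
  have h1 : F.obj.map (g L'.c₁ Ω).op s = 0 := by
    let x : Ω := algebraMap k[X] Ω X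
    have hx : Transcendental k x := by
      rw [transcendental_iff_injective]
      intro p q e
      refine FaithfulSMul.algebraMap_injective k[X] Ω ?_
      simpa [x, aeval_algebraMap_apply] using e
    have hx0 : x ≠ 0 := fun e => hx (e ▸ isAlgebraic_zero)
    obtain ⟨ψ, hψ⟩ := ex_hom (S := Ω) (aeval (R := k) x⁻¹ : k[X] →+* Ω)
      (transcendental_iff_injective.1 fun e => hx (IsAlgebraic.inv_iff.1 e))
    have e : spc ψ ≫ spc (algebraMap k[X] Ω) ≫ L'.c₁ = spc (algebraMap k[X] Ω) ≫ L'.c₂ := by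
      rw [← Spec.map_comp_assoc, ← CommRingCat.ofHom_comp, hψ, L'.map_c₁, L'.map_c₂]
      congr 1
      · congr 2
        ext a
        simp
        rfl
      · exact pt1_eq_pt2.2 (by simpa using inv_mul_cancel₀ hx0)
    have w : spc ψ ≫ (ob (L'.c₁ ≫ L.bcp (Over.mk t)) Ω).hom =
        (ob (L'.c₂ ≫ L.bcp (Over.mk t)) Ω).hom := by
      simpa using e =≫ L.bcp (Over.mk t)
    refine (hF.2 Ω Ω ψ _ _ w (map_natCast (algebraMap k[X] Ω) l ▸ hu.map _)).1 ?_
    refine (res_res _ _ _ _).trans (Eq.trans ?_ (h2.trans (map_zero _).symm))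
    exact congrArg (fun a : ob _ Ω ⟶ _ => F.obj.map a.op s) (Over.OverMorphism.ext e)
  refine pt_sec hF s fun y => ?_
  have key (c : Spec (.of k[X]) ⟶ L'.P) (hc : F.obj.map (g c Ω).op s = 0) (q) :
      ∃ (k' : Type) (_ : Field k') (_ : IsAlgClosed k') (x : Spec (.of k') ⟶ L.P)
        (y : Over.mk x ⟶ fbr L.π t), (l : k') ≠ 0 ∧ c q ∈ Set.range y.left ∧
          F.obj.map y.op s = 0 := by
    obtain ⟨k', _, _, _, a1, ⟨w, rfl⟩, a3⟩ := (P c q).2 ((hg c Ω).trans hc)
    exact ⟨k', _, inferInstance, _, g c k', a1, ⟨w, Scheme.Hom.comp_apply _ _ _⟩,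
      (hg c k').symm.trans a3⟩
  rcases L'.cover y with ⟨q, rfl⟩ | ⟨q, rfl⟩
  exacts [key _ h1 q, key _ h2 q]

theorem gdcof (h1 : GD0_s) (h2 : FING_s) : GdCof_s := by
  intro l _ A _ L h F hh ⟨hT, hC, hL, hV⟩ k _ _ t hl
  have h0 := h1 l A L h F hh hT.1 hL hV k t hl
  let L' : PL (Spec (.of k)) := L.bc (Over.mk t)
  have : CompactSpace (fbr L.π t).left := QuasiCompact.compactSpace_of_compactSpace L'.π
  have : (fbr L.π t).left.IsSeparated := show L'.P.IsSeparated from ⟨by
    rw [← terminal.comp_from L'.π]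
    infer_instance⟩
  refine ⟨h0, fun b => ⟨H_tor _ hT.2 b, ?_⟩⟩
  cases b with
  | zero => exact (Set.finite_singleton 0).subset fun z _ => h0 z
  | succ b =>
  let m := (l : ℤ) • 𝟙 F
  have hm (T : Over L.P) (s : sec F T) : m.hom.app (op T) s = l • s := by
    obtain ⟨s, rfl⟩ := (frEquiv T F).surjective s
    rw [← frEquiv_post, Preadditive.comp_zsmul, Category.comp_id, natCast_zsmul, map_nsmul]
  have hs (Ω : Type) [Field Ω] [IsAlgClosed Ω] (x : Spec (.of Ω) ⟶ L.P) :
      Function.Surjective ((cokernel.π m).hom.app (op (Over.mk x))) :=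
    have : Sheaf.IsLocallySurjective (cokernel.π m) :=
      (Sheaf.isLocallySurjective_iff_epi' _ _).2 inferInstance
    shl_surj x _
  have hQ : Tc l (cokernel m) := Tc.coker m hT.1 hT
  have f1 : Finite (H (fbr L.π t) (kernel (Abelian.factorThruImage m)) (b + 1)) := by
    have e : kernel.ι (Abelian.factorThruImage m) ≫ m = 0 :=
      (congrArg (_ ≫ ·) (Abelian.image.fac m).symm).trans (by
        rw [kernel.condition_assoc, Limits.zero_comp])
    refine h2 l _ L _ (hT.ker _ (hT.image m hT.1).1) ?_ (fun Ω _ _ x hx => ?_) k t hl b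
    · rw [← cancel_mono (kernel.ι _), Preadditive.zsmul_comp, Category.id_comp, Limits.zero_comp,
        ← e, Preadditive.comp_zsmul, Category.comp_id]
    · have := (hC Ω x hx).2.to_subtype
      refine Finite.of_injective (β := {s : sec F (Over.mk x) | l • s = 0})
        (fun s => ⟨(kernel.ι (Abelian.factorThruImage m)).hom.app _ s, ?_⟩) fun s s' e =>
          (exact_sec (ses (Abelian.factorThruImage m)).exact _).1 (congrArg Subtype.val e)
      obtain ⟨s, rfl⟩ := (frEquiv _ _).surjective s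
      rw [Set.mem_ofPred_eq, ← hm, ← frEquiv_post, ← frEquiv_post, Category.assoc, e,
        Limits.comp_zero, map_zero]
  have f2 : Finite (H (fbr L.π t) (cokernel m) b) := by
    cases b with
    | zero =>
      have : Subsingleton (H (fbr L.π t) (cokernel m) 0) := subsingleton_of_forall_eq 0
        (h1 l A L h _ hh hQ.1 (Lis.cokernel m hL hL) (fun Ω _ _ x hx hx' s => by
          obtain ⟨s, rfl⟩ := hs Ω x s
          rw [hV Ω x hx hx' s, map_zero]) k t hl)
      infer_instance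
    | succ b =>
      refine h2 l _ L _ hQ ?_ (fun Ω _ _ x hx => ?_) k t hl b
      · rw [← cancel_epi (cokernel.π m), Preadditive.comp_zsmul, Category.comp_id,
          Limits.comp_zero, ← cokernel.condition m, Preadditive.zsmul_comp, Category.id_comp]
      · obtain ⟨c, hc⟩ := (hC Ω x hx).div
        refine Set.finite_univ_iff.1 ((((hC Ω x hx).fin c).image
          ((cokernel.π m).hom.app _)).subset fun s _ => ?_)
        obtain ⟨s, rfl⟩ := hs Ω x s
        obtain ⟨s', h'⟩ := hc (c + 1) s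
        refine ⟨s - l • s', by rw [Set.mem_ofPred_eq, smul_sub, h', smul_smul, pow_succ, sub_self],
          ?_⟩
        obtain ⟨s', rfl⟩ := (frEquiv _ _).surjective s'
        rw [map_sub, ← hm, ← frEquiv_post, ← frEquiv_post, Category.assoc, cokernel.condition,
          Limits.comp_zero, map_zero, sub_zero]
  exact fin_tors _ F l b f1 f2

end Pool.Agent.MP_855f4c_ag.E.CV

end
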