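import Pool.Agent.MP_855f4c_ag.EC.E4e
import Pool.Agent.MP_855f4c_ag.EC.F1b
import Pool.Agent.MP_855f4c_ag.EC.E4d
import Pool.Agent.MP_855f4c_ag.EC.E4c

section

/-! `H^1` of a lisse sheaf on a normal affine scheme through Galois cocycles. -/

set_option autoImplicit false
set_option backward.isDefEq.respectTransparency false

open CategoryTheory Limits Abelian Opposite AlgebraicGeometry

namespace Pool.Agent.MP_855f4c_ag.E4

open E E3

section generic
variable {C : Type 1} [Category.{0} C] {J : GrothendieckTopology C}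

/-- The class of a Cech `1`-cocycle. -/
theorem Coc.of_cech {F : Sh J} {T W V : C} {p : V ⟶ T} (hp : Cov J p) (N : Cech p) (σ : W ⟶ V)
    {G : Type} (a : G → (W ⟶ W)) (s : F.obj.obj (op (N.X 2))) (hs : N.cd F.obj 2 s = 0)
    (k : G → (W ⟶ N.X 2)) (k0 : ∀ g, k g ≫ N.π 2 0 = σ) (k1 : ∀ g, k g ≫ N.π 2 1 = a g ≫ σ) :
    ∃ ξ : H T F 1, Coc (σ ≫ p) a ξ fun g => F.obj.map (k g).op s := by
  obtain ⟨s, rfl⟩ := (frEquiv _ F).surjective s
  rw [← N.frEquiv_d, map_eq_zero_iff _ (frEquiv _ F).injective] at hs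
  obtain ⟨f, hf⟩ := (N.d_e_exact J 0).desc' s hs
  let x : W ⟶ N.X 1 := σ ≫ inv (N.π 1 0)
  have h := Coc.mk (ω := σ ≫ p) (a := a) (N.S0_exact hp) ((fr J).map (inv (N.b 0)))
    (frEquiv W _ ((fr J).map x)) (by
      rw [← frEquiv_post, ← frEquiv_pre]
      refine congrArg _ ((cancel_mono ((fr J).map (N.b 0))).1 ?_)
      erw [Category.assoc, N.d0]
      simp [x, ← Functor.map_comp])
    (c := fun g => frEquiv W _ ((fr J).map (k g) ≫ N.e J 0)) (fun g => by
      rw [← frEquiv_post, ← frEquiv_pre, ← map_sub]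
      refine congrArg _ ?_
      have e0 : k g ≫ N.face 1 0 = a g ≫ x := by
        rw [← cancel_mono (N.π 1 0)]; simpa [x] using k1 g
      have e1 : k g ≫ N.face 1 1 = x := by
        rw [← cancel_mono (N.π 1 0)]; simpa [x] using k0 g
      erw [Category.assoc, N.e_ι]
      simp [Cech.d_eq, Fin.sum_univ_two, ← Functor.map_comp, e0, e1, sub_eq_add_neg])
  refine ⟨_, (h.post f).congr rfl fun g => ?_⟩
  rw [← frEquiv_post, ← frEquiv_pre, Category.assoc]
  exact congrArg (fun t => frEquiv W F ((fr J).map (k g) ≫ t)) hf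

end generic

section ring
variable {X : Scheme.{0}} {B : Type} [CommRing B] (u : Spec (.of B) ⟶ X) {Ω : Type} [Field Ω]
  [Algebra B Ω]

/-- `ob u B` is `u` itself. -/
noncomputable def obIso : ob u B ≅ Over.mk u := Over.isoMk (Iso.refl _) (by simp)

/-- Morphisms over `Spec B` come from algebra maps. -/
theorem hm_surj {C D : Type} [CommRing C] [Algebra B C] [CommRing D] [Algebra B D]
    (τ : ob u C ⟶ ob u D) (h : τ ≫ hm u (Algebra.ofId B D) = hm u (Algebra.ofId B C)) :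
    ∃ φ : D →ₐ[B] C, hm u φ = τ := by
  obtain ⟨φ, hφ⟩ := Spec.map_surjective τ.left
  have h' := congrArg (·.left) h
  simp only [Over.comp_left, hm_left] at h'
  rw [← hφ, ← Spec.map_comp, Spec.map_inj] at h'
  exact ⟨⟨φ.hom, fun r => congr($(congrArg CommRingCat.Hom.hom h') r)⟩, Over.OverMorphism.ext hφ⟩

/-- An affine etale scheme over `Spec B` is the spectrum of an etale algebra. -/
theorem exists_et {Y : Over X} [IsAffine Y.left] (b : Y ⟶ ob u B) [Etale b.left] :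
    ∃ (D : Type) (_ : CommRing D) (_ : Algebra B D) (_ : Algebra.Etale B D) (e : ob u D ≅ Y),
      e.hom ≫ b = hm u (Algebra.ofId B D) := by
  obtain ⟨φ, hφ⟩ := Spec.map_surjective (Y.left.isoSpec.inv ≫ b.left)
  let _ : Algebra B Γ(Y.left, ⊤) := φ.hom.toAlgebra
  have : Algebra.Etale B Γ(Y.left, ⊤) := by
    have : Etale (Spec.map φ) := by rw [hφ]; infer_instance
    exact (HasRingHomProperty.Spec_iff (P := @Etale)).1 this
  have e : (hm u (Algebra.ofId B Γ(Y.left, ⊤))).left = Y.left.isoSpec.inv ≫ b.left := hφ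
  exact ⟨Γ(Y.left, ⊤), _, _, this, Over.isoMk Y.left.isoSpec.symm (by
    rw [← Over.w b, Iso.symm_hom, ← Category.assoc, ← e]; exact Over.w _),
    Over.OverMorphism.ext e.symm⟩

theorem Unr.conj {p : (Ω ≃ₐ[B] Ω) → Prop} (hp : Unr p) : Unr fun g => ∀ k, p (k * g * k⁻¹) := by
  intro a _ g hg k
  let r := (k.symm : Ω →ₐ[B] Ω).mapIntegralClosure
  refine hp (a.comap r) _ fun z w h => ?_
  rw [Ideal.mem_comap, map_sub]
  refine hg _ _ ?_
  change k.symm w = g (k.symm z)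
  rw [h]
  exact k.symm_apply_apply _

theorem Opn.conj [FaithfulSMul B Ω] [Algebra.IsAlgebraic B Ω] {p : (Ω ≃ₐ[B] Ω) → Prop}
    (hp : Opn p) : Opn fun g => ∀ k, p (k * g * k⁻¹) := by
  classical
  have : IsDomain B := (FaithfulSMul.algebraMap_injective B Ω).isDomain _
  obtain ⟨E, hE⟩ := hp
  choose q hq hq' using fun e : Ω => Algebra.IsAlgebraic.isAlgebraic (R := B) e
  refine ⟨E.biUnion fun e => ((q e).aroots Ω).toFinset, fun g hg k => hE _ fun e he => ?_⟩
  have : g (k.symm e) = k.symm e := hg _ (Finset.mem_biUnion.2 ⟨e, he, by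
    rw [Multiset.mem_toFinset, Polynomial.mem_aroots, Polynomial.aeval_algHom_apply, hq', map_zero]
    exact ⟨hq e, rfl⟩⟩)
  change k (g (k.symm e)) = e
  rw [this, k.apply_symm_apply]

/-- Over a field the inertia groups are trivial. -/
theorem unr_field {K : Type} [Field K] [Algebra K Ω] [Algebra.IsAlgebraic K Ω]
    {p : (Ω ≃ₐ[K] Ω) → Prop} (h : p 1) : Unr p := by
  intro a _ g hg
  have ha : a = ⊥ := Ideal.eq_bot_of_comap_eq_bot (R := K)
    ((eq_bot_or_eq_top _).resolve_right (Ideal.comap_isPrime _ a).ne_top)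
  obtain rfl : g = 1 := AlgEquiv.ext fun z => by
    have := hg ⟨z, Algebra.IsIntegral.isIntegral z⟩ ⟨g z, Algebra.IsIntegral.isIntegral _⟩ rfl
    rw [ha, Ideal.mem_bot, sub_eq_zero] at this
    exact congrArg Subtype.val this
  exact h

theorem coc_one {M : Type*} [AddCommGroup M] {ρ : (Ω ≃ₐ[B] Ω) →* AddMonoid.End M}
    {c : (Ω ≃ₐ[B] Ω) → M} (h : ∀ g g', c (g * g') = c g + ρ g (c g')) : c 1 = 0 := by
  simpa using h 1 1

variable [IsAlgClosed Ω] [FaithfulSMul B Ω] [Algebra.IsAlgebraic B Ω] {F : Sh (Scheme.etaleTopology.over X)}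
  [IsIntegrallyClosed B] {l : ℕ} (hF : Cc l F) (hL : Lis l F.obj (ob u B)) (hl : IsUnit (l : B))
include hF hL hl

omit [IsIntegrallyClosed B] in
theorem lis_inj' {Y : Over X} [IsAffine Y.left] (b : Y ⟶ ob u B) [Etale b.left]
    (s : F.obj.obj (op Y))
    (h : ∀ τ : ob u Ω ⟶ Y, τ ≫ b = pt u Ω → F.obj.map τ.op s = 0) : s = 0 := by
  obtain ⟨D, _, _, _, e, he⟩ := exists_et u b
  have := lis_inj u hF hL hl (Ω := Ω) (F.obj.map e.hom.op s) fun τ => by
    rw [rs_apply, res_res]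
    refine h _ ?_
    rw [Category.assoc, he, ← hm_comp]
    exact congrArg _ (Subsingleton.elim _ _)
  rw [← res_id F.obj s, ← e.inv_hom_id, ← res_res, this, map_zero]

theorem lis_surj' {Y : Over X} [IsAffine Y.left] (b : Y ⟶ ob u B) [Etale b.left]
    (y : (ob u Ω ⟶ Y) → F.obj.obj (op (ob u Ω)))
    (hg : ∀ (g : Ω ≃ₐ[B] Ω) (τ : ob u Ω ⟶ Y), τ ≫ b = pt u Ω →
      y (act u Ω g ≫ τ) = gal u Ω F.obj g (y τ)) :
    ∃ x : F.obj.obj (op Y), ∀ τ : ob u Ω ⟶ Y, τ ≫ b = pt u Ω → F.obj.map τ.op x = y τ := by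
  obtain ⟨D, _, _, _, e, he⟩ := exists_et u b
  obtain ⟨x, hx⟩ := lis_surj u hF hL hl (fun τ : D →ₐ[B] Ω => y (hm u τ ≫ e.hom)) fun g τ => by
    rw [hm_comp, Category.assoc]
    refine hg g _ ?_
    rw [Category.assoc, he, ← hm_comp]
    exact congrArg _ (Subsingleton.elim _ _)
  refine ⟨F.obj.map e.inv.op x, fun τ hτ => ?_⟩
  obtain ⟨φ, hφ⟩ := hm_surj u (τ ≫ e.inv) (by rw [← he, Category.assoc, e.inv_hom_id_assoc, hτ])
  rw [res_res, ← hφ, ← rs_apply, hx, hφ, Category.assoc, e.inv_hom_id, Category.comp_id]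

/-- Every admissible cocycle comes from a class. -/
theorem coc_surj {c : (Ω ≃ₐ[B] Ω) → F.obj.obj (op (ob u Ω))} (hc : c ∈ Z1 (gal u Ω F.obj)) :
    ∃ ξ : H (ob u B) F 1, Coc (pt u Ω) (act u Ω) ξ c := by
  have : IsDomain B := (FaithfulSMul.algebraMap_injective B Ω).isDomain _
  obtain ⟨h1, h2, h3⟩ := hc
  have h0 := coc_one h1
  let K : Subgroup (Ω ≃ₐ[B] Ω) :=
    { carrier := {g | c g = 0}
      one_mem' := h0
      mul_mem' := fun {g g'} (e : c g = 0) (e' : c g' = 0) => show c _ = 0 by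
        rw [h1, e, e', map_zero, add_zero]
      inv_mem' := fun {g} (e : c g = 0) => show c _ = 0 by
        have := h1 g⁻¹ g
        rwa [inv_mul_cancel, h0, e, map_zero, add_zero, eq_comm] at this }
  obtain ⟨D, _, _, -, hD, -⟩ := finet K.normalCore h2.conj h3.conj
  let p := hm u (Algebra.ofId B D)
  have : Etale p.left :=
    (HasRingHomProperty.Spec_iff (P := @Etale)).2 (RingHom.etale_algebraMap.2 ‹_›)
  have : FaithfulSMul B D := (faithfulSMul_iff_algebraMap_injective _ _).2 fun x y h =>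
    FaithfulSMul.algebraMap_injective B Ω (congrArg Subtype.val h)
  have : Surjective p.left := ⟨Algebra.IsIntegral.comap_surjective B D⟩
  have hker (τ : D →ₐ[B] Ω) : RingHom.ker τ = ⊥ := Ideal.eq_bot_of_comap_eq_bot (R := B) (by
    rw [eq_bot_iff]
    intro x hx
    exact FaithfulSMul.algebraMap_injective B Ω (((τ.commutes x).symm.trans hx).trans
      (map_zero _).symm))
  have hp : hm u D.val ≫ p = pt u Ω := by
    rw [← hm_comp]; exact congrArg _ (Subsingleton.elim _ _)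
  have hκ (τ : ob u Ω ⟶ ob u D) : ∃ m, ∀ g, act u Ω g ≫ hm u D.val = τ → c g = m := by
    by_cases h : ∃ g, act u Ω g ≫ hm u D.val = τ
    · obtain ⟨g, rfl⟩ := h
      refine ⟨c g, fun g' e => ?_⟩
      rw [← hm_comp, ← hm_comp] at e
      have e' := congrArg CommRingCat.Hom.hom (Spec.map_inj.1 (congrArg (·.left) e))
      have : c (g⁻¹ * g') = 0 := K.normalCore_le ((hD _).1 fun z hz => by
        have : g' z = g z := congr($e' ⟨z, hz⟩)
        change g.symm (g' z) = z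
        rw [this, g.symm_apply_apply])
      rw [← mul_inv_cancel_left g g', h1, this, map_zero, add_zero]
    · exact ⟨0, fun g e => (h ⟨g, e⟩).elim⟩
  choose κ hκ using hκ
  have hκ' (g : Ω ≃ₐ[B] Ω) (τ : ob u Ω ⟶ ob u D) (h : τ ≫ p = pt u Ω) :
      κ (act u Ω g ≫ τ) = c g + gal u Ω F.obj g (κ τ) := by
    obtain ⟨φ, rfl⟩ := hm_surj u τ h
    obtain ⟨k, hk⟩ := conj_of_ker D.val φ ((hker _).trans (hker _).symm)
    have e : act u Ω k ≫ hm u D.val = hm u φ := by
      rw [← hm_comp]; exact congrArg _ (AlgHom.ext hk)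
    rw [← hκ _ k e, ← h1, hκ _ (g * k) (by rw [act_mul, Category.assoc, e])]
  let N := Cech.ofWide p
  have (n : ℕ) : Etale (N.b n).left := N.etale_b n
  have : IsAffine (ob u D).left := inferInstanceAs (IsAffine (Spec _))
  have : IsAffine (ob u B).left := inferInstanceAs (IsAffine (Spec _))
  have (n : ℕ) : IsAffine (N.X n).left := N.isAffine n
  obtain ⟨s, hs⟩ := lis_surj' u hF hL hl (N.b 2) (fun τ => κ (τ ≫ N.π 2 1) - κ (τ ≫ N.π 2 0))
    fun g τ hτ => by
      simp only [Category.assoc]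
      rw [hκ' _ _ (by rw [Category.assoc, N.w, hτ]), hκ' _ _ (by rw [Category.assoc, N.w, hτ]),
        map_sub]
      abel
  have hs0 : N.cd F.obj 2 s = 0 := lis_inj' u hF hL hl (Ω := Ω) (N.b 3) _ fun τ hτ => by
    simp only [Cech.cd, map_sum, map_zsmul, res_res]
    rw [Fin.sum_univ_three, hs _ (by simpa using hτ), hs _ (by simpa using hτ),
      hs _ (by simpa using hτ)]
    simp only [Category.assoc, Cech.face_π]
    change (-1 : ℤ) ^ 0 • (κ (τ ≫ N.π 3 2) - κ (τ ≫ N.π 3 1)) +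
      (-1 : ℤ) ^ 1 • (κ (τ ≫ N.π 3 2) - κ (τ ≫ N.π 3 0)) +
      (-1 : ℤ) ^ 2 • (κ (τ ≫ N.π 3 1) - κ (τ ≫ N.π 3 0)) = 0
    simp
  let k (g : Ω ≃ₐ[B] Ω) : ob u Ω ⟶ N.X 2 :=
    N.lift 2 (pt u Ω) ![hm u D.val, act u Ω g ≫ hm u D.val] fun j => by
      fin_cases j
      · exact hp
      · exact (Category.assoc _ _ _).trans (by rw [hp, act_pt])
  obtain ⟨ξ, hξ⟩ := Coc.of_cech (cov_et p) N (hm u D.val) (act u Ω) s hs0 k
    (fun g => N.lift_π _ _ _ _ 0) fun g => N.lift_π _ _ _ _ 1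
  rw [hp] at hξ
  refine ⟨ξ, hξ.congr rfl fun g => ?_⟩
  rw [hs _ (N.lift_b _ _ _ _), N.lift_π, N.lift_π]
  change κ (act u Ω g ≫ hm u D.val) - κ (hm u D.val) = c g
  rw [← hκ _ g rfl, ← hκ (hm u D.val) 1 ((congrArg (· ≫ _) (hm_id u)).trans (Category.id_comp _)),
    h0, sub_zero]

/-- The class of an admissible cocycle. -/
noncomputable def cls : Z1 (gal u Ω F.obj) →+ H (ob u B) F 1 :=
  AddMonoidHom.mk' (fun c => (coc_surj u hF hL hl c.2).choose) fun c c' =>
    coc_ext u hF hL hl (coc_surj u hF hL hl (c + c').2).choose_spec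
      ((coc_surj u hF hL hl c.2).choose_spec.add (coc_surj u hF hL hl c'.2).choose_spec)

theorem cls_coc (c : Z1 (gal u Ω F.obj)) : Coc (pt u Ω) (act u Ω) (cls u hF hL hl c) c.1 :=
  (coc_surj u hF hL hl c.2).choose_spec

theorem cls_eq_iff (c : Z1 (gal u Ω F.obj)) (ξ : H (ob u B) F 1) :
    cls u hF hL hl c = ξ ↔ Coc (pt u Ω) (act u Ω) ξ c.1 :=
  ⟨fun h => h ▸ cls_coc u hF hL hl c, coc_ext u hF hL hl (cls_coc u hF hL hl c)⟩

theorem cls_surj : Function.Surjective (cls (Ω := Ω) u hF hL hl) := fun ξ => by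
  obtain ⟨c, hc⟩ := coc_exists (Ω := Ω) u ξ
  exact ⟨⟨c, coc_mem u hF hL hl hc⟩, (cls_eq_iff u hF hL hl _ _).2 hc⟩

theorem cls_eq_zero (c : Z1 (gal u Ω F.obj)) :
    cls u hF hL hl c = 0 ↔ c.1 ∈ B1 (gal u Ω F.obj) :=
  ⟨fun h => ((cls_eq_iff u hF hL hl _ _).1 h).of_zero (act_pt u),
    coc_inj u hF hL hl (cls_coc u hF hL hl c)⟩

theorem B1_le : B1 (gal u Ω F.obj) ≤ Z1 (gal u Ω F.obj) := fun _ ⟨m, hm⟩ =>
  coc_mem u hF hL hl ((Coc.cob0 (pt u Ω) (act u Ω) m).congr rfl fun g => (hm g).symm)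

/-- `H^1 = Z^1 / B^1`. -/
noncomputable def h1Equiv :
    (Z1 (gal u Ω F.obj) ⧸ (B1 (gal u Ω F.obj)).addSubgroupOf (Z1 (gal u Ω F.obj))) ≃+
      H (ob u B) F 1 :=
  QuotientAddGroup.liftEquiv _ (cls_surj u hF hL hl)
    (AddSubgroup.ext fun c => (cls_eq_zero u hF hL hl c).symm)

theorem h1Equiv_mk (c : Z1 (gal u Ω F.obj)) :
    h1Equiv u hF hL hl (QuotientAddGroup.mk c) = cls u hF hL hl c := rfl

section iso
variable {T : Over X} (e : ob u B ≅ T)

/-- The class map on an object isomorphic to `Spec B`. -/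
noncomputable def clsT : Z1 (gal u Ω F.obj) →+ H T F 1 := (res e.inv F 1).comp (cls u hF hL hl)

omit hF hL hl in
theorem res_iso {T T' : Over X} (e : T ≅ T') (q : ℕ) (x : H T F q) :
    res e.hom F q (res e.inv F q x) = x := by
  refine (pre_pre _ _ _).trans ?_
  rw [← Functor.map_comp, e.hom_inv_id, CategoryTheory.Functor.map_id, pre_id]

theorem clsT_eq_iff (c : Z1 (gal u Ω F.obj)) (ξ : H T F 1) :
    clsT u hF hL hl e c = ξ ↔ Coc (pt u Ω ≫ e.hom) (act u Ω) ξ c.1 := by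
  rw [Coc.iso, ← cls_eq_iff u hF hL hl]
  exact ⟨fun h => h ▸ (res_iso e 1 _).symm, fun h =>
    (congrArg (res e.inv F 1) h).trans (res_iso e.symm 1 ξ)⟩

theorem clsT_coc (c : Z1 (gal u Ω F.obj)) :
    Coc (pt u Ω ≫ e.hom) (act u Ω) (clsT u hF hL hl e c) c.1 := (clsT_eq_iff u hF hL hl e c _).1 rfl

theorem clsT_surj : Function.Surjective (clsT (Ω := Ω) u hF hL hl e) := fun ξ => by
  obtain ⟨c, hc⟩ := cls_surj (Ω := Ω) u hF hL hl (res e.hom F 1 ξ)
  exact ⟨c, (congrArg (res e.inv F 1) hc).trans (res_iso e.symm 1 ξ)⟩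

theorem clsT_eq_zero (c : Z1 (gal u Ω F.obj)) :
    clsT u hF hL hl e c = 0 ↔ c.1 ∈ B1 (gal u Ω F.obj) := by
  rw [← cls_eq_zero u hF hL hl]
  exact ⟨fun h => (res_iso e 1 _).symm.trans ((congrArg (res e.hom F 1) h).trans (map_zero _)),
    fun h => (congrArg (res e.inv F 1) h).trans (map_zero _)⟩

theorem cocT_mem {ξ : H T F 1} {c} (h : Coc (pt u Ω ≫ e.hom) (act u Ω) ξ c) :
    c ∈ Z1 (gal u Ω F.obj) := coc_mem u hF hL hl ((Coc.iso e).1 h)

end iso

end ring

section field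
variable {X : Scheme.{0}} {K : Type} [Field K] (u : Spec (.of K) ⟶ X) {Ω : Type} [Field Ω]
  [Algebra K Ω] [Algebra.IsAlgebraic K Ω]

theorem mem_Z1_field {M : Type*} [AddCommGroup M] {ρ : (Ω ≃ₐ[K] Ω) →* AddMonoid.End M}
    {c : (Ω ≃ₐ[K] Ω) → M} :
    c ∈ Z1 ρ ↔ (∀ g h, c (g * h) = c g + ρ g (c h)) ∧ Opn fun g => c g = 0 :=
  ⟨fun h => ⟨h.1, h.2.1⟩, fun h => ⟨h.1, h.2, unr_field (coc_one h.1)⟩⟩

variable [IsAlgClosed Ω] {F : Sh (Scheme.etaleTopology.over X)} {l : ℕ} (hF : Cc l F) (hl : (l : K) ≠ 0)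
include hF hl

theorem field_surj {c : (Ω ≃ₐ[K] Ω) → F.obj.obj (op (ob u Ω))}
    (hc : ∀ g h, c (g * h) = c g + gal u Ω F.obj g (c h)) (ho : Opn fun g => c g = 0) :
    ∃ ξ : H (ob u K) F 1, Coc (pt u Ω) (act u Ω) ξ c :=
  coc_surj u hF (lis_field u hF) hl.isUnit (mem_Z1_field.2 ⟨hc, ho⟩)

theorem field_inj {ξ : H (ob u K) F 1} {c : (Ω ≃ₐ[K] Ω) → F.obj.obj (op (ob u Ω))}
    (h : Coc (pt u Ω) (act u Ω) ξ c) (hc : ∃ m, ∀ g, c g = gal u Ω F.obj g m - m) : ξ = 0 :=
  coc_inj u hF (lis_field u hF) hl.isUnit h hc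

/-- `H^1` of a field vanishes as soon as continuous cocycles are coboundaries. -/
theorem field_van (h : ∀ c : (Ω ≃ₐ[K] Ω) → F.obj.obj (op (ob u Ω)),
    (∀ g h, c (g * h) = c g + gal u Ω F.obj g (c h)) → (Opn fun g => c g = 0) →
      ∃ m, ∀ g, c g = gal u Ω F.obj g m - m) (ξ : H (ob u K) F 1) : ξ = 0 := by
  obtain ⟨c, hc⟩ := coc_exists (Ω := Ω) u ξ
  exact field_inj u hF hl hc (h c (coc_mul u hc) (coc_opn u hF.1 hc))

end field

end Pool.Agent.MP_855f4c_ag.E4

end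

section

set_option autoImplicit false
set_option backward.isDefEq.respectTransparency false

open CategoryTheory Limits Opposite AlgebraicGeometry IsLocalRing

namespace Pool.Agent.MP_855f4c_ag.E4

open E E3

section val
variable {X : Scheme.{0}}

/-- A geometric point in the image of an etale map lifts. -/
theorem lift_geom {V W : Over X} (e : V ⟶ W) [Etale e.left] {k : Type} [Field k] [IsAlgClosed k]
    {x : Spec (.of k) ⟶ X} (w : Over.mk x ⟶ W) (z : Spec (.of k))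
    (h : w.left z ∈ Set.range e.left) : ∃ w' : Over.mk x ⟶ V, w' ≫ e = w := by
  let i : ob x k ≅ Over.mk x := Over.isoMk (Iso.refl _) (by simp)
  have H := isPullback_left (IsPullback.of_hasPullback (i.hom ≫ w) e)
  have hS : (⟨fun Z g => ∃ a : Z ⟶ V, a ≫ e = g ≫ i.hom ≫ w, fun ⟨a, ha⟩ g =>
      ⟨g ≫ a, by rw [Category.assoc, ha, Category.assoc]⟩⟩ : Sieve (ob x k)) ∈ Scheme.etaleTopology.over X _ := by
    refine mem_Jov_of _ fun t => ⟨_, pullback.fst (i.hom ≫ w) e,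
      MorphismProperty.of_isPullback H.flip ‹_›, ⟨_, pullback.condition.symm⟩, ?_⟩
    obtain ⟨v, hv⟩ := h
    obtain rfl : t = z := Subsingleton.elim (α := PrimeSpectrum k) _ _
    obtain ⟨p, hp, -⟩ := Scheme.exists_preimage_of_isPullback H t v hv.symm
    exact ⟨p, hp⟩
  obtain ⟨E, hE, a, ha⟩ := of_mem_cov x hS (maximalIdeal k)
  obtain ⟨σ, hσ⟩ := E.sec hE
  refine ⟨i.inv ≫ hm x σ ≫ a, ?_⟩
  rw [Category.assoc, Category.assoc, ha, ← Category.assoc (hm x σ), ← hm_comp, hσ, hm_id,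
    Category.id_comp, Iso.inv_hom_id_assoc]

theorem exists_geom_pt (W : Over X) (t : W.left) :
    ∃ (k : Type) (_ : Field k) (_ : IsAlgClosed k) (x : Spec (.of k) ⟶ X) (w : Over.mk x ⟶ W)
      (z : Spec (.of k)), w.left z = t := by
  let k := AlgebraicClosure (W.left.residueField t)
  let w : Spec (.of k) ⟶ W.left := Spec.map (CommRingCat.ofHom
    (algebraMap (W.left.residueField t) k)) ≫ W.left.fromSpecResidueField t
  exact ⟨k, _, inferInstance, w ≫ W.hom, Over.homMk w, closedPoint k,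
    (Scheme.Hom.comp_apply _ _ _).trans (Scheme.fromSpecResidueField_apply _ _)⟩

variable (F : Sh (Scheme.etaleTopology.over X)) {Y W : Over X} (y : W ⟶ Y) (s : F.obj.obj (op W))

/-- At the point `t` the section `s` has the value `n`. -/
def ValAt (t : W.left) (n : F.obj.obj (op Y)) : Prop :=
  ∀ (k : Type) [Field k] [IsAlgClosed k] (x : Spec (.of k) ⟶ X) (w : Over.mk x ⟶ W)
    (z : Spec (.of k)), w.left z = t → F.obj.map (w ≫ y).op n = F.obj.map w.op s

variable {F y s}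
  (hY : ∀ (k : Type) [Field k] [IsAlgClosed k] (x : Spec (.of k) ⟶ X) (w : Over.mk x ⟶ Y),
    Function.Bijective (F.obj.map w.op))
include hY

theorem ValAt.ext {t : W.left} {n n' : F.obj.obj (op Y)} (h : ValAt F y s t n)
    {k : Type} [Field k] [IsAlgClosed k] {x : Spec (.of k) ⟶ X} (w : Over.mk x ⟶ W)
    (z : Spec (.of k)) (hz : w.left z = t) (h' : F.obj.map (w ≫ y).op n' = F.obj.map w.op s) :
    n = n' := (hY k x _).1 ((h k x w z hz).trans h'.symm)

theorem exists_val {l : ℕ} (hF : Cc l F) (hl : Linv l W.left) (y : W ⟶ Y)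
    (s : F.obj.obj (op W)) :
    ∃ f : LocallyConstant W.left (F.obj.obj (op Y)), ∀ t, ValAt F y s t (f t) := by
  have key (t : W.left) : ∃ n, ∃ U : Set W.left, IsOpen U ∧ t ∈ U ∧ ∀ t' ∈ U, ValAt F y s t' n := by
    obtain ⟨V, v, _, _, -, p, rfl⟩ := exists_of_mem_Jov ((Scheme.etaleTopology.over X).top_mem W) t
    obtain ⟨R, _, u, ⟨e⟩⟩ := exists_ob V
    let q : PrimeSpectrum R := e.inv.left p
    obtain ⟨k, _, _, _, hk⟩ := exists_geom q.asIdeal
    obtain ⟨n, hn⟩ := (hY k _ (hm u (Algebra.ofId R k) ≫ e.hom ≫ v ≫ y)).2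
      (F.obj.map (hm u (Algebra.ofId R k) ≫ e.hom ≫ v).op s)
    obtain ⟨E, σ, h1, h2⟩ := germ_zero u hF (hl.isUnit (e.hom ≫ v).left) (Algebra.ofId R k)
      (F.obj.map (e.hom ≫ v ≫ y).op n - F.obj.map (e.hom ≫ v).op s) (by
        rw [map_sub, rs_apply, rs_apply, res_res, res_res, hn, sub_self])
    rw [map_sub, rs_apply, rs_apply, res_res, res_res, sub_eq_zero] at h2
    have : Etale (hm u E.ι ≫ e.hom ≫ v).left := by
      rw [Over.comp_left, Over.comp_left]; infer_instance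
    refine ⟨n, Set.range (hm u E.ι ≫ e.hom ≫ v).left, (Scheme.Hom.isOpenMap _).isOpen_range, ?_,
      fun t' ht' k' _ _ x w z hz => ?_⟩
    · obtain ⟨r, hr, hr'⟩ := E.hits_ker σ h1
      have h3 : (hm u E.ι).left ⟨r, hr⟩ = e.inv.left p := PrimeSpectrum.ext (hr'.trans hk)
      refine ⟨⟨r, hr⟩, ?_⟩
      rw [Over.comp_left, Scheme.Hom.comp_apply, h3, ← Scheme.Hom.comp_apply, ← Over.comp_left,
        Iso.inv_hom_id_assoc]
    · obtain ⟨w', rfl⟩ := lift_geom (hm u E.ι ≫ e.hom ≫ v) w z (hz ▸ ht')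
      rw [← res_res F.obj w', ← h2, res_res]
      simp only [Category.assoc]
  choose n U h1 h2 h3 using key
  refine ⟨⟨n, (IsLocallyConstant.iff_exists_open _).2 fun t => ⟨U t, h1 t, h2 t, fun t' ht' => ?_⟩⟩,
    fun t => h3 t t (h2 t)⟩
  obtain ⟨k, _, _, x, w, z, hz⟩ := exists_geom_pt W t'
  exact (h3 t' t' (h2 t')).ext hY w z hz (h3 t t' ht' k x w z hz)

end val

variable {B : Type} [CommRing B] {Ω : Type} [Field Ω] [IsAlgClosed Ω] [Algebra B Ω]
  [FaithfulSMul B Ω] [Algebra.IsAlgebraic B Ω] {l : ℕ}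

theorem plus_pts {X : Scheme.{0}} (u : Spec (.of B) ⟶ X) {F : Sh (Scheme.etaleTopology.over X)} (hF : Cc l F)
    (hL : Lis l F.obj (ob u B)) (hl : IsUnit (l : B)) (k : Type) [Field k] [IsAlgClosed k]
    (x : Spec (.of k) ⟶ X) (w : Over.mk x ⟶ ob u (integralClosure B Ω)) :
    Function.Bijective (F.obj.map w.op) := by
  obtain ⟨φ, hφ⟩ := Spec.map_surjective w.left
  let _ : Algebra B k := (φ.hom.comp (algebraMap B (integralClosure B Ω))).toAlgebra
  let b : integralClosure B Ω →ₐ[B] k := ⟨φ.hom, fun _ => rfl⟩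
  obtain rfl : (ob u k).hom = x := (Over.w (hm u b)).symm.trans (by
    rw [← show w.left ≫ _ = x from Over.w w, ← hφ]; rfl)
  obtain rfl : hm u b = w := Over.OverMorphism.ext hφ
  exact plus_bij u hF hL hl b

omit [IsAlgClosed Ω] [FaithfulSMul B Ω] [Algebra.IsAlgebraic B Ω] in
theorem disc_gal {X : Scheme.{0}} (u : Spec (.of B) ⟶ X) {F : Sh (Scheme.etaleTopology.over X)} (hF : Cc l F) :
    Disc (gal u Ω F.obj) := gal_opn u hF.1

theorem unram_gal {X : Scheme.{0}} (u : Spec (.of B) ⟶ X) {F : Sh (Scheme.etaleTopology.over X)} (hF : Cc l F)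
    (hL : Lis l F.obj (ob u B)) (hl : IsUnit (l : B)) : Unram (gal u Ω F.obj) :=
  gal_unr u hF hL hl

variable {F G : Sh (Scheme.etaleTopology.over (Spec (.of B)))} (hF : Cc l F) (hL : Lis l F.obj (ob (uB B) B))
  (hl : IsUnit (l : B))

variable (Ω) in
/-- The values of a section. -/
noncomputable def lgv (T : Over (Spec (.of B))) (s : F.obj.obj (op T)) :
    LocallyConstant (T ⨯ ob (uB B) (integralClosure B Ω)).left
      (F.obj.obj (op (ob (uB B) (integralClosure B Ω)))) :=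
  (exists_val (plus_pts (uB B) hF hL hl) hF ((Linv.spec hl).of_hom (Over.hom _)) prod.snd
    (F.obj.map (prod.fst : T ⨯ _ ⟶ T).op s)).choose

theorem lgv_spec (T : Over (Spec (.of B))) (s : F.obj.obj (op T)) (t) :
    ValAt F prod.snd (F.obj.map (prod.fst : T ⨯ _ ⟶ T).op s) t (lgv Ω hF hL hl T s t) :=
  (exists_val (plus_pts (uB B) hF hL hl) hF ((Linv.spec hl).of_hom (Over.hom _)) prod.snd
    (F.obj.map (prod.fst : T ⨯ _ ⟶ T).op s)).choose_spec t

theorem lgv_eq {T : Over (Spec (.of B))} {s : F.obj.obj (op T)} {t} {n}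
    (h : ValAt F prod.snd (F.obj.map (prod.fst : T ⨯ _ ⟶ T).op s) t n) :
    lgv Ω hF hL hl T s t = n := by
  obtain ⟨k, _, _, x, w, z, hz⟩ := exists_geom_pt _ t
  exact (lgv_spec hF hL hl T s t).ext (plus_pts (uB B) hF hL hl) w z hz (h k x w z hz)

theorem lgv_map {T T' : Over (Spec (.of B))} (a : T' ⟶ T)
    (c : ob (uB B) (integralClosure B Ω) ⟶ ob (uB B) (integralClosure B Ω))
    (s : F.obj.obj (op T)) (t) : lgv Ω hF hL hl T' (F.obj.map a.op s) t =
      F.obj.map c.op (lgv Ω hF hL hl T s ((prod.map a c).left t)) := by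
  refine lgv_eq hF hL hl fun k _ _ x w z hz => ?_
  have := lgv_spec hF hL hl T s _ k x (w ≫ prod.map a c) z (by
    rw [Over.comp_left, Scheme.Hom.comp_apply, hz])
  simpa only [res_res, Category.assoc, prod.map_fst, prod.map_snd] using this

variable (Ω) in
/-- The comparison map with the sheaf of the generic stalk. -/
noncomputable def lg : F ⟶ gsh (gal (uB B) Ω F.obj) :=
  ⟨{ app T := AddCommGrpCat.ofHom (AddMonoidHom.mk' (fun s =>
        ⟨(lgv Ω hF hL hl T.unop s).map (rs (uB B) F.obj (integralClosure B Ω).val), fun g t => by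
          have := lgv_map hF hL hl (𝟙 T.unop) (hm (uB B) (icm g)) s t
          rw [res_id] at this
          refine Eq.trans ?_ (congrArg (rs (uB B) F.obj (integralClosure B Ω).val) this.symm)
          exact (rs_rs _ _ _ _ _).trans (rs_rs _ _ (icm g) (integralClosure B Ω).val _).symm⟩)
        fun s s' => Subtype.ext (LocallyConstant.ext fun t => by
          refine Eq.trans (congrArg (rs (uB B) F.obj (integralClosure B Ω).val) ?_) (map_add _ _ _)
          refine lgv_eq hF hL hl fun k _ _ x w z hz => ?_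
          rw [map_add, map_add, map_add, lgv_spec hF hL hl _ s t k x w z hz,
            lgv_spec hF hL hl _ s' t k x w z hz]))
     naturality T T' a := AddCommGrpCat.hom_ext (AddMonoidHom.ext fun s =>
        Subtype.ext (LocallyConstant.ext fun t =>
          congrArg (rs (uB B) F.obj (integralClosure B Ω).val)
            ((lgv_map hF hL hl a.unop (𝟙 _) s t).trans (res_id _ _)))) }⟩

theorem spec_ev_lg {k : Type} [Field k] [IsAlgClosed k] [Algebra B k]
    (b : integralClosure B Ω →ₐ[B] k) (s : F.obj.obj (op (ob (uB B) k))) :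
    spec (uB B) hF hL hl b (ev _ b ((lg Ω hF hL hl).hom.app _ s)) = s := by
  have := lgv_spec (Ω := Ω) hF hL hl _ s _ k _ (prod.lift (𝟙 (ob (uB B) k)) (hm (uB B) b))
    (⊥ : PrimeSpectrum k) rfl
  rw [res_res, prod.lift_fst, prod.lift_snd, res_id] at this
  exact (spec_rs _ hF hL hl b _).trans this

theorem spec_val {X : Scheme.{0}} (u : Spec (.of B) ⟶ X) {F : Sh (Scheme.etaleTopology.over X)} (hF : Cc l F)
    (hL : Lis l F.obj (ob u B)) (hl : IsUnit (l : B)) (m : F.obj.obj (op (ob u Ω))) :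
    spec u hF hL hl (integralClosure B Ω).val m = m := by
  obtain ⟨s, rfl⟩ := (plus_bij u hF hL hl (integralClosure B Ω).val).2 m
  exact spec_rs u hF hL hl _ s

theorem spec_nat {X : Scheme.{0}} (u : Spec (.of B) ⟶ X) {F G : Sh (Scheme.etaleTopology.over X)} (hF : Cc l F)
    (hL : Lis l F.obj (ob u B)) (hG : Cc l G) (hM : Lis l G.obj (ob u B)) (hl : IsUnit (l : B))
    (x : F ⟶ G) {k : Type} [Field k] [IsAlgClosed k] [Algebra B k]
    (b : integralClosure B Ω →ₐ[B] k) (m : F.obj.obj (op (ob u Ω))) :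
    spec u hG hM hl b (x.hom.app _ m) = x.hom.app _ (spec u hF hL hl b m) := by
  obtain ⟨s, rfl⟩ := (plus_bij u hF hL hl (integralClosure B Ω).val).2 m
  rw [rs_nat, spec_rs, spec_rs, rs_nat]

theorem ev_lg (m : F.obj.obj (op (ob (uB B) Ω))) :
    ev _ (integralClosure B Ω).val ((lg Ω hF hL hl).hom.app _ m) = m :=
  (spec_val _ hF hL hl _).symm.trans (spec_ev_lg hF hL hl (integralClosure B Ω).val m)

omit [IsAlgClosed Ω] [Algebra.IsAlgebraic B Ω] in
theorem exists_plus (k : Type) [Field k] [IsAlgClosed k] [Algebra B k] :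
    Nonempty (integralClosure B Ω →ₐ[B] k) := by
  have := RingHom.ker_isPrime (algebraMap B k)
  obtain ⟨a, -, _, ha⟩ := Ideal.exists_ideal_over_prime_of_isIntegral (S := integralClosure B Ω)
    (RingHom.ker (algebraMap B k)) ⊥ (by
      rw [Ideal.comap_bot_of_injective _ fun x y h =>
        FaithfulSMul.algebraMap_injective B Ω (congrArg Subtype.val h)]
      exact bot_le)
  exact ⟨(exists_point a ha).choose⟩

omit [FaithfulSMul B Ω] in
/-- A statement on the geometric points of `Spec B` can be checked on `B`-algebras. -/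
theorem pts_ind {p : Over (Spec (.of B)) → Prop}
    (h : ∀ (k : Type) [Field k] [IsAlgClosed k] [Algebra B k], p (ob (uB B) k))
    (k : Type) [Field k] [IsAlgClosed k] (x : Spec (.of k) ⟶ Spec (.of B)) : p (Over.mk x) := by
  obtain ⟨φ, rfl⟩ := Spec.map_surjective x
  let _ : Algebra B k := φ.hom.toAlgebra
  have := h k
  rwa [ob, Category.comp_id] at this

section
variable (hG : Cc l G) (hM : Lis l G.obj (ob (uB B) B))
include hF hL hG hM hl

/-- The generic stalk is faithful. -/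
theorem lis_hom_ext (x : F ⟶ G) (h : ∀ m, x.hom.app (op (ob (uB B) Ω)) m = 0) : x = 0 := by
  have key := pts_ind (p := fun T => ∀ s, x.hom.app (op T) s = 0) fun k _ _ _ s => by
    obtain ⟨b⟩ := exists_plus (B := B) (Ω := Ω) k
    obtain ⟨m, rfl⟩ := (spec (uB B) hF hL hl b).surjective s
    rw [← spec_nat _ hF hL hG hM hl, h, map_zero]
  refine Sheaf.hom_ext (NatTrans.ext (funext fun T => AddCommGrpCat.hom_ext
    (AddMonoidHom.ext fun s => ?_)))
  refine pt_sec hG ((Linv.spec hl).of_hom T.unop.hom) _ fun k _ _ z v => ?_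
  exact (map_nat x.hom v s).symm.trans (key k z _)

theorem lis_mono (x : F ⟶ G) (h : Function.Injective (x.hom.app (op (ob (uB B) Ω)))) : Mono x :=
  mono_of_pts x hF (Linv.spec hl) (pts_ind
    (p := fun T => Function.Injective (x.hom.app (op T))) fun k _ _ _ s t e => by
      obtain ⟨b⟩ := exists_plus (B := B) (Ω := Ω) k
      obtain ⟨s, rfl⟩ := (spec (uB B) hF hL hl b).surjective s
      obtain ⟨t, rfl⟩ := (spec (uB B) hF hL hl b).surjective t
      rw [← spec_nat _ hF hL hG hM hl, ← spec_nat _ hF hL hG hM hl] at e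
      rw [h ((spec (uB B) hG hM hl b).injective e)])

theorem lis_epi (x : F ⟶ G) (h : Function.Surjective (x.hom.app (op (ob (uB B) Ω)))) : Epi x :=
  epi_of_pts x hF hG (Linv.spec hl) (pts_ind
    (p := fun T => Function.Surjective (x.hom.app (op T))) fun k _ _ _ s => by
      obtain ⟨b⟩ := exists_plus (B := B) (Ω := Ω) k
      obtain ⟨s, rfl⟩ := (spec (uB B) hG hM hl b).surjective s
      obtain ⟨m, rfl⟩ := h s
      exact ⟨_, (spec_nat _ hF hL hG hM hl x b m).symm⟩)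

theorem lis_isIso (x : F ⟶ G) (h : Function.Bijective (x.hom.app (op (ob (uB B) Ω)))) :
    IsIso x :=
  have := lis_mono hF hL hl hG hM x h.1
  have := lis_epi hF hL hl hG hM x h.2
  isIso_of_mono_of_epi x
end

variable [IsDomain B] [IsIntegrallyClosed B]

/-- **LG**. -/
instance isIso_lg : IsIso (lg Ω hF hL hl) := by
  have h := pts_ind (p := fun T => Function.Bijective ((lg Ω hF hL hl).hom.app (op T)))
    fun k _ _ _ => by
      obtain ⟨b⟩ := exists_plus (B := B) (Ω := Ω) k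
      rw [← Function.Bijective.of_comp_iff' ((spec (uB B) hF hL hl b).bijective.comp
        (ev_bij b (disc_gal _ hF) (unram_gal _ hF hL hl)))]
      convert Function.bijective_id using 1
      exact funext (spec_ev_lg hF hL hl b)
  have := mono_of_pts _ hF (Linv.spec hl) fun k _ _ x => (h k x).1
  have := epi_of_pts _ hF (gsh_cc (disc_gal _ hF) l) (Linv.spec hl) fun k _ _ x => (h k x).2
  exact isIso_of_mono_of_epi _

theorem lg_inv (y) : (lg Ω hF hL hl).hom.app (op (ob (uB B) Ω))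
    ((inv (lg Ω hF hL hl)).hom.app _ y) = y :=
  congrArg (fun a : gsh (gal (uB B) Ω F.obj) ⟶ gsh (gal (uB B) Ω F.obj) =>
    a.hom.app (op (ob (uB B) Ω)) y) (IsIso.inv_hom_id (lg Ω hF hL hl))

theorem inv_lg_app (y) : (inv (lg Ω hF hL hl)).hom.app (op (ob (uB B) Ω)) y =
    ev _ (integralClosure B Ω).val y :=
  (ev_lg hF hL hl _).symm.trans (congrArg _ (lg_inv hF hL hl y))

include hF hL hl in
/-- Maps from the sheaf of a module. -/
theorem gsh_full {M : Type 1} [AddCommGroup M] (ρ : (Ω ≃ₐ[B] Ω) →* AddMonoid.End M)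
    (φ : M →+ F.obj.obj (op (ob (uB B) Ω))) (h : ∀ g m, φ (ρ g m) = gal (uB B) Ω F.obj g (φ m)) :
    ∃ x : gsh ρ ⟶ F, (Function.Injective φ → Mono x) ∧
      ∀ y, x.hom.app (op (ob (uB B) Ω)) y = φ (ev ρ (integralClosure B Ω).val y) :=
  ⟨gshMap φ h ≫ inv (lg Ω hF hL hl), fun hi => have := gshMap_mono φ h hi; inferInstance,
    fun _ => (inv_lg_app hF hL hl _).trans (ev_gshMap φ h _ _)⟩

include hF hL hl in
/-- **FULL**: the generic stalk is full. -/
theorem lis_full (hG : Cc l G) (hM : Lis l G.obj (ob (uB B) B))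
    (φ : F.obj.obj (op (ob (uB B) Ω)) →+ G.obj.obj (op (ob (uB B) Ω)))
    (h : ∀ g m, φ (gal (uB B) Ω F.obj g m) = gal (uB B) Ω G.obj g (φ m)) :
    ∃ x : F ⟶ G, ∀ m, x.hom.app (op (ob (uB B) Ω)) m = φ m := by
  obtain ⟨x, -, hx⟩ := gsh_full hG hM hl _ φ h
  exact ⟨lg Ω hF hL hl ≫ x, fun m => (hx _).trans (congrArg φ (ev_lg hF hL hl m))⟩

include hF hL hl in
/-- **SUB**: a stable subgroup of the generic stalk is the stalk of a lisse subsheaf. -/
theorem lis_sub (N : AddSubgroup (F.obj.obj (op (ob (uB B) Ω))))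
    (hN : ∀ g : Ω ≃ₐ[B] Ω, ∀ m ∈ N, gal (uB B) Ω F.obj g m ∈ N) :
    ∃ (K : Sh (Scheme.etaleTopology.over (Spec (.of B)))) (i : K ⟶ F), Mono i ∧ Cc l K ∧ (∀ T, Lis l K.obj T) ∧
      ∀ m, (∃ y, i.hom.app (op (ob (uB B) Ω)) y = m) ↔ m ∈ N := by
  let ρ : (Ω ≃ₐ[B] Ω) →* AddMonoid.End N :=
    { toFun g := ((gal (uB B) Ω F.obj g : _ →+ _).comp N.subtype).codRestrict N
        fun m => hN g m m.2
      map_one' := AddMonoidHom.ext fun m => Subtype.ext
        congr($(map_one (gal (uB B) Ω F.obj)) m.1)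
      map_mul' g g' := AddMonoidHom.ext fun m => Subtype.ext
        congr($(map_mul (gal (uB B) Ω F.obj) g g') m.1) }
  have hD : Disc ρ := fun m => Exists.imp (fun E hE g hg => Subtype.ext (hE g hg))
    (disc_gal (Ω := Ω) _ hF m.1)
  have hU : Unram ρ := fun m a _ g hg => Subtype.ext (unram_gal (Ω := Ω) _ hF hL hl m.1 a g hg)
  obtain ⟨x, h1, h2⟩ := gsh_full hF hL hl ρ N.subtype fun _ _ => rfl
  refine ⟨gsh ρ, x, h1 Subtype.val_injective, gsh_cc hD l, gsh_lis hD hU l,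
    fun m => ⟨?_, fun hm => ?_⟩⟩
  · rintro ⟨y, rfl⟩
    rw [h2]
    exact Subtype.property _
  · obtain ⟨y, hy⟩ := (ev_val_bij hD).2 ⟨m, hm⟩
    exact ⟨y, by rw [h2, hy]; rfl⟩

/-- **LGfin**: a lisse sheaf with finite stalk is trivialised by a finite etale Galois cover. -/
theorem lg_fin {X : Scheme.{0}} (u : Spec (.of B) ⟶ X) {F : Sh (Scheme.etaleTopology.over X)} (hF : Cc l F)
    (hL : Lis l F.obj (ob u B)) (hl : IsUnit (l : B)) [Finite (F.obj.obj (op (ob u Ω)))] :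
    ∃ D : Subalgebra B Ω, Module.Finite B D ∧ Algebra.Etale B D ∧ IsIntegrallyClosed D ∧
      (∀ g : Ω ≃ₐ[B] Ω, (∀ z ∈ D, g z = z) ↔ ∀ m, gal u Ω F.obj g m = m) ∧
      (∀ g : Ω ≃ₐ[B] Ω, ∀ z ∈ D, g z ∈ D) ∧ Function.Bijective (rs u F.obj D.val) := by
  classical
  have := Fintype.ofFinite (F.obj.obj (op (ob u Ω)))
  have hk (g : Ω ≃ₐ[B] Ω) : g ∈ (gal u Ω F.obj).ker ↔ ∀ m, gal u Ω F.obj g m = m :=
    ⟨fun h m => congr($(MonoidHom.mem_ker.1 h) m), fun h => AddMonoidHom.ext h⟩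
  choose E hE using gal_opn u (Ω := Ω) hF.1
  obtain ⟨D, h1, h2, h3, h4, h5⟩ := finet (gal u Ω F.obj).ker
    ⟨Finset.univ.biUnion E, fun g hg => (hk g).2 fun m => hE m g fun e he =>
      hg e (Finset.mem_biUnion.2 ⟨m, Finset.mem_univ _, he⟩)⟩
    fun a _ g hg => (hk g).2 fun m => gal_unr u hF hL hl m a g hg
  exact ⟨D, h1, h2, h3, fun g => (h4 g).trans (hk g), h5,
    sub_bij u hF hL hl D fun g hg => (hk g).1 ((h4 g).1 fun z hz => hg ⟨z, hz⟩)⟩

end Pool.Agent.MP_855f4c_ag.E4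

end
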