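import Pool.Agent.MP_855f4c_ag.EC.Cb
import Pool.Agent.MP_855f4c_ag.EC.Ca
import Pool.Agent.MP_855f4c_ag.EC.E4d
import Pool.Agent.MP_855f4c_ag.EC.F2c
import Pool.Agent.MP_855f4c_ag.EC.E4f
import Pool.Agent.MP_855f4c_ag.EC.F2f
import Pool.Agent.MP_855f4c_ag.EC.F1b
import Pool.Agent.MP_855f4c_ag.EC.E3a
import Pool.Agent.MP_855f4c_ag.EC.Cc
import Pool.Agent.MP_855f4c_ag.EC.Ce
import Pool.Agent.MP_855f4c_ag.EC.Cd

section

/-! h86e section C, row ALG: slices, divisibility of points, finiteness of Kummer classes. -/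

set_option backward.isDefEq.respectTransparency false

open CategoryTheory Limits Abelian Opposite AlgebraicGeometry

namespace Pool.Agent.MP_855f4c_ag.E.CV

open E3 E4

theorem nsl : NSL_s := by
  intro X Y f
  refine ⟨fun T F q => (AddEquiv.ofBijective _ (slH_bij f T F q)).symm, fun T' T g F q z => ?_,
    fun T F F' φ q z => ?_⟩
  · obtain ⟨x, rfl⟩ := (AddEquiv.ofBijective _ (slH_bij f T F q)).surjective z
    rw [AddEquiv.symm_apply_apply, AddEquiv.symm_apply_eq]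
    exact (slH_res f g F q x).symm
  · obtain ⟨x, rfl⟩ := (AddEquiv.ofBijective _ (slH_bij f T F q)).surjective z
    rw [AddEquiv.symm_apply_apply, AddEquiv.symm_apply_eq]
    refine Eq.symm ((cmp_comp _ _ x (Ext.mk₀ φ) (add_zero q)).trans ?_)
    rw [Ext.mapExactFunctor_mk₀]
    rfl

theorem pic : PIC_s := by
  intro k K _ _ _ _ n hn x z hxz
  obtain ⟨B, f, f0, hf⟩ := C.pic_div_all n hn
    (Finsupp.single x 1 - Finsupp.single z 1 : WD.Div k K) (by simp)
  have h : ∀ w : WD.Place k K, w.ord f =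
      (Finsupp.single x 1 - Finsupp.single z 1 : WD.Div k K) w - n * B w := fun w => by
    rw [← WD.dv_apply, hf, Finsupp.sub_apply, Finsupp.smul_apply, nsmul_eq_mul]
  refine ⟨f, f0, ⟨-B x, ?_⟩, fun w h1 h2 => ⟨-B w, ?_⟩⟩
  · rw [h, Finsupp.sub_apply, Finsupp.single_eq_same, Finsupp.single_eq_of_ne hxz]; ring
  · rw [h, Finsupp.sub_apply, Finsupp.single_eq_of_ne h1, Finsupp.single_eq_of_ne h2]; ring

theorem fink : FINK_s := fun _ _ _ _ _ _ n hn S hS => C.fin_kummer n hn S hS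

end Pool.Agent.MP_855f4c_ag.E.CV

end

section

namespace Pool.Agent.MP_855f4c_ag.E.CV

/-- An additive action as a representation over `ℤ`. -/
def GAL.rep {G A : Type*} [Group G] [AddCommGroup A] (ρ : G →* AddMonoid.End A) :
    Representation ℤ G A where
  toFun g := (ρ g : A →+ A).toIntLinearMap
  map_one' := LinearMap.ext fun a => DFunLike.congr_fun ρ.map_one a
  map_mul' g h := LinearMap.ext fun a => DFunLike.congr_fun (ρ.map_mul g h) a

theorem lift : LIFT_s := by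
  intro l _ k K Ω _ _ _ _ _ _ _ _ hK hl A B _ _ ρ σ π h1 h2 h3 h4 c h5 ⟨E, hE⟩
  let _ : Algebra k Ω := ((algebraMap K Ω).comp (algebraMap k K)).toAlgebra
  have : IsScalarTower k K Ω := .of_algebraMap_eq fun _ => rfl
  obtain ⟨e, e1, ⟨S, s1, s2⟩, e3⟩ := C.lift_gal hK hl (GAL.rep ρ) (GAL.rep σ) π h1 h2
    (fun a => (h3 a).elim fun E hE => ⟨E, E.finite_toSet, hE⟩) h4 c h5 ⟨E, E.finite_toSet, hE⟩
  exact ⟨e, e1, ⟨s1.toFinset, fun g hg => s2 g fun z hz => hg z (s1.mem_toFinset.2 hz)⟩, e3⟩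

theorem kumg : KUMG_s := fun _ _ _ _ _ _ _ _ hn f h0 h1 ⟨E, hE⟩ =>
  C.kummer hn f h0 h1 E.finite_toSet hE

end Pool.Agent.MP_855f4c_ag.E.CV

end

section

set_option autoImplicit false
set_option backward.isDefEq.respectTransparency false

open CategoryTheory Limits Abelian Opposite AlgebraicGeometry IsLocalRing

namespace Pool.Agent.MP_855f4c_ag.E.CV

open E3 E4

namespace CDF

variable {K : Type} [Field K] (Ω : Type) [Field Ω] [IsAlgClosed Ω] [Algebra K Ω]
  [Algebra.IsAlgebraic K Ω]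

omit [IsAlgClosed Ω] in
lemma integral : IsIntegralHom (spc (algebraMap K Ω)) :=
  IsIntegralHom.SpecMap_iff.2 (algebraMap_isIntegral_iff.2 Algebra.IsAlgebraic.isIntegral)

lemma gsurj : GSurj (spc (algebraMap K Ω)) := fun k _ _ x => by
  obtain ⟨φ, rfl⟩ := Spec.map_surjective x
  let _ : Algebra K k := φ.hom.toAlgebra
  refine ⟨spc ((IsAlgClosed.lift : Ω →ₐ[K] k) : Ω →+* k), ?_⟩
  rw [← Spec.map_comp, ← CommRingCat.ofHom_comp, AlgHom.comp_algebraMap]
  rfl

lemma pf_van (G : Sh (Scheme.etaleTopology.over (Spec (.of Ω)))) (q : ℕ)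
    (z : H (ob (𝟙 (Spec (.of K))) K)
      ((pf (J := Scheme.etaleTopology) (spc (algebraMap K Ω))).obj G) (q + 1)) : z = 0 := by
  have := integral (K := K) Ω
  obtain ⟨y, rfl⟩ := (intH_bij _ _ G _).2 z
  have e : (ob (𝟙 (Spec (.of K))) K).hom = 𝟙 _ := by simp
  have : IsIso (ob (𝟙 (Spec (.of K))) K).hom := by rw [e]; infer_instance
  have : IsIso (Over.mk (𝟙 (Spec (.of Ω)))).hom := inferInstanceAs (IsIso (𝟙 _))
  have h : IsPullback (spc (algebraMap K Ω)) (Over.mk (𝟙 (Spec (.of Ω)))).hom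
      (ob (𝟙 (Spec (.of K))) K).hom (spc (algebraMap K Ω)) :=
    IsPullback.of_vert_isIso ⟨by rw [e]; simp⟩
  have := isIso_toPb (T := ob (𝟙 (Spec (.of K))) K) (T' := Over.mk (𝟙 (Spec (.of Ω)))) _ h
  rw [(pre_bij ((fr _).map (toPb (T := ob (𝟙 (Spec (.of K))) K)
      (T' := Over.mk (𝟙 (Spec (.of Ω)))) _ _ h.w)) G (q + 1)).1 (a₁ := y) (a₂ := 0)
    ((wc_H (SHL.wc Ω) _ G q _).trans (map_zero _).symm), map_zero]

include Ω in
lemma h1_quot (h2 : LIFT_s) {l : ℕ} [Fact l.Prime] {k : Type} [Field k] [IsAlgClosed k]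
    [Algebra k K] (hK : C.TD1 k K) (hl : (l : k) ≠ 0) {X : Scheme.{0}} (u : Spec (.of K) ⟶ X)
    {E Q : Sh (Scheme.etaleTopology.over X)} (p : E ⟶ Q) [Epi p] (hE : Tc l E) (hQ : Cc l Q)
    (h : ∀ z : H (ob u K) E 1, z = 0) (ξ : H (ob u K) Q 1) : ξ = 0 := by
  have hl' : (l : K) ≠ 0 := by simpa using (map_ne_zero (algebraMap k K)).2 hl
  obtain ⟨c, hc⟩ := coc_exists (Ω := Ω) u ξ
  obtain ⟨e, e1, e2, e3⟩ := h2 l k K Ω hK hl _ _ (E4.gal u Ω E.obj) (E4.gal u Ω Q.obj)
    (p.hom.app (op (ob u Ω))).hom (fun g a => nat p.hom _ a) (E4.shl_lift u p)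
    (gal_opn u hE.1.1) (hE.2 _ (inferInstanceAs (IsAffine (Spec _)))) c (coc_mul u hc)
    (coc_opn u hQ.1 hc)
  obtain ⟨ζ, hζ⟩ := field_surj u hE.1 hl' e1 e2
  exact coc_ext u hQ (lis_field u hQ) hl'.isUnit hc
    ((hζ.post p).congr (by rw [h ζ, map_zero]) e3)

end CDF

open CDF in
theorem cdf (_h1 : NSL_s) (h2 : LIFT_s) : CDF_s := by
  intro l _ k K _ _ _ _ hK hl X a G hG q z
  have hl' : (l : K) ≠ 0 := by simpa using (map_ne_zero (algebraMap k K)).2 hl
  have hL : Linv l (Spec (.of K)) := fun k' _ x => by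
    obtain ⟨φ, -⟩ := Spec.map_surjective x
    simpa using (map_ne_zero φ.hom).2 hl'
  have key : ∀ (q : ℕ) (G : Sh (Scheme.etaleTopology.over (Spec (.of K)))), Tc l G →
      ∀ z : H (ob (𝟙 (Spec (.of K))) K) G (q + 2), z = 0 := by
    let Ω := AlgebraicClosure K
    have := integral (K := K) Ω
    have st (q : ℕ) (G : Sh (Scheme.etaleTopology.over (Spec (.of K)))) (hG : Tc l G)
        (h : ∀ (E Q : Sh (Scheme.etaleTopology.over (Spec (.of K)))) (p : E ⟶ Q) [Epi p], Tc l E → Tc l Q →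
          (∀ z : H (ob (𝟙 (Spec (.of K))) K) E 1, z = 0) →
          ∀ z : H (ob (𝟙 (Spec (.of K))) K) Q (q + 1), z = 0)
        (z : H (ob (𝟙 (Spec (.of K))) K) G (q + 2)) : z = 0 := by
      have := unit_mono (spc (algebraMap K Ω)) hG.1 hL (gsurj Ω)
      have hS : (ShortComplex.mk _ _
          (cokernel.condition ((pbpf (spc (algebraMap K Ω))).unit.app G))).ShortExact :=
        { exact := ShortComplex.exact_cokernel _ }
      have hE := pf_tc (spc (algebraMap K Ω)) (pb_tc (spc (algebraMap K Ω)) hG)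
      obtain ⟨y, rfl⟩ := Ext.covariant_sequence_exact₁ _ hS z (pf_van Ω _ _ _) rfl
      rw [h _ _ (cokernel.π _) hE (Tc.coker _ hG.1 hE) (pf_van Ω _ 0) y, Ext.zero_comp]
    intro q
    induction q with
    | zero => exact fun G hG => st 0 G hG fun E Q p _ hE hQ h => h1_quot Ω h2 hK hl _ p hE hQ.1 h
    | succ q ih => exact fun G hG => st (q + 1) G hG fun E Q p _ hE hQ _ => ih Q hQ
  let b : (Over.map a).obj (ob (𝟙 (Spec (.of K))) K) ⟶ Over.mk a := Over.homMk (𝟙 _) (by simp)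
  have : IsIso b := isIso_homMk _ (inferInstanceAs (IsIso (𝟙 _)))
  refine (pre_bij ((fr _).map b) G _).1 ((slH_bij a _ G _).1 ?_)
  exact (key q _ (pb_tc a hG) _).trans (key q _ (pb_tc a hG) _).symm

end Pool.Agent.MP_855f4c_ag.E.CV

end

section

/-! h86e section C: fields and Kummer classes. -/

set_option autoImplicit false
set_option backward.isDefEq.respectTransparency false

open CategoryTheory Limits Abelian Opposite AlgebraicGeometry IsLocalRing

namespace Pool.Agent.MP_855f4c_ag.E.CV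

open E3 E4

theorem zf (h : NSL_s) : ZF_s := by
  intro l K Ω _ _ _ φ hl X a G hG h0 V g q z
  obtain ⟨e, -, -⟩ := h X _ a
  have hz : IsZero ((pb (J := Scheme.etaleTopology) a).obj G) :=
    pt_isZero (Linv.spec hl.isUnit) (hG.pb a) fun t =>
      ⟨Ω, _, ‹_›, spc φ, ⟨closedPoint Ω, Subsingleton.elim (α := PrimeSpectrum K) _ _⟩, h0⟩
  let i : V ≅ (Over.map a).obj (Over.mk g.left) := Over.isoMk (Iso.refl _) (by simpa using Over.w g)
  obtain ⟨w, hw⟩ := (e (Over.mk g.left) G q).surjective (res i.inv G q z)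
  have hw0 : w = 0 := by
    rw [← Ext.comp_mk₀_id w, hz.eq_of_src (𝟙 _) 0, Ext.mk₀_zero, Ext.comp_zero]
  rw [← res_iso i q z, ← hw, hw0, map_zero, map_zero]

theorem kapR : KAP_s := by
  intro X n hn A _ a
  refine ⟨fun u v => ?_, fun u j => ?_, fun u => ?_, fun B _ φ b h u => ?_⟩
  · rw [kap, ofMul_mul, map_add, map_add]; rfl
  · rw [kap, ofMul_zpow, map_zsmul, map_zsmul]; rfl
  · rw [kap, kappa_eq_zero]
    constructor
    · rintro ⟨t, ht⟩
      exact ⟨(GmEquiv a t).toMul, by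
        rw [← toMul_nsmul, ← map_nsmul, ht, AddEquiv.apply_symm_apply]; rfl⟩
    · rintro ⟨v, rfl⟩
      exact ⟨(GmEquiv a).symm (Additive.ofMul v), by rw [ofMul_pow, map_nsmul]⟩
  · rw [kap, kappa_res, kap]
    refine congrArg _ ((GmEquiv b).injective (Additive.toMul.injective (Units.ext ?_)))
    rw [GmEquiv_sph, AddEquiv.apply_symm_apply, AddEquiv.apply_symm_apply]; rfl

theorem kumf (h : KUMG_s) : KUMF_s := by
  intro X n hn K _ u ξ
  let Ω := AlgebraicClosure K
  have hK : (n : K) ≠ 0 := hn K u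
  have hF : Cc n (mu X n) := (mu_tc' (m := 1) (by simp)).1
  obtain ⟨c, hc⟩ := coc_exists (Ω := Ω) u (res (obIso u).hom _ 1 ξ)
  obtain ⟨a, α, ha, h1, h2⟩ := h K Ω n hK (fun g => (((muEquiv n _ (c g)).toMul : Ωˣ) : Ω))
    (fun g => mu_val_pow n _ _) (fun g g' => by
      rw [coc_mul u hc, map_add, gal_rs]
      exact congrArg (_ * ·) (muEquiv_rs n u (g : Ω →ₐ[K] Ω) (c g')))
    ((coc_opn u (mu_lfp X n) hc).imp fun g e => by rw [e, map_zero]; rfl)
  have hα : α ≠ 0 := fun e => ha ((algebraMap K Ω).injective (by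
    rw [← h1, e, zero_pow (by rintro rfl; simp at hK), map_zero]))
  obtain ⟨y, hy⟩ := (GmEquiv (ob u Ω).hom).surjective (Additive.ofMul (Units.mk0 α hα))
  obtain ⟨z, hz⟩ := (frEquiv _ (Gm X)).surjective
    ((GmEquiv u).symm (Additive.ofMul (Units.mk0 a ha)))
  have hc' := Coc.mk (ω := pt u Ω ≫ (obIso u).hom) (a := act u Ω) (kummer hn) z y (by
    refine (GmEquiv _).injective (Additive.toMul.injective (Units.ext ?_))
    have e : pt u Ω ≫ (obIso u).hom = sph (algebraMap K Ω) rfl :=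
      Over.OverMorphism.ext (Category.comp_id _)
    rw [e]
    refine Eq.trans ?_ (GmEquiv_sph (algebraMap K Ω) rfl _).symm
    change ((GmEquiv (ob u Ω).hom ((n : ℤ) • y)).toMul : Ω) = _
    rw [natCast_zsmul, map_nsmul, hy]
    erw [hz]
    rw [AddEquiv.apply_symm_apply]
    exact h1) (c := c) fun g => by
      refine eq_sub_iff_add_eq.2 ((GmEquiv _).injective (Additive.toMul.injective (Units.ext ?_)))
      refine Eq.trans ?_ (GmEquiv_rs u (g : Ω →ₐ[K] Ω) y).symm
      rw [map_add]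
      erw [hy]
      exact (h2 g).symm
  refine ⟨Units.mk0 a ha, ?_⟩
  have := coc_ext u hF (lis_field u hF) hK.isUnit ((Coc.iso (obIso u)).1 hc') hc
  rw [kap, ← hz, kappa_fr, ← res_iso (obIso u).symm 1 ξ]
  exact (res_iso (obIso u).symm 1 _).symm.trans (congrArg _ this)

end Pool.Agent.MP_855f4c_ag.E.CV

end

section

/-! h86e row C-GEO: points and opens of a regular curve. -/

set_option autoImplicit false
set_option backward.isDefEq.respectTransparency false

open CategoryTheory Limits Abelian Opposite AlgebraicGeometry IsLocalRing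

namespace Pool.Agent.MP_855f4c_ag.E.CV

open E3 E4

namespace GEO

section ring
variable {B : Type} [CommRing B] [IsDedekindDomain B]

lemma basic (U : Set (PrimeSpectrum B)) (hU : IsOpen U) (h0 : (⊥ : PrimeSpectrum B) ∈ U) :
    ∃ g : B, g ≠ 0 ∧ ∀ p : PrimeSpectrum B, g ∉ p.asIdeal → p ∈ U := by
  obtain ⟨_, ⟨g, rfl⟩, hg, hs⟩ :=
    PrimeSpectrum.isTopologicalBasis_basic_opens.exists_subset_of_mem_open h0 hU
  refine ⟨g, ?_, fun p hp => hs hp⟩
  rintro rfl
  exact hg (Ideal.zero_mem _)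

lemma fin_compl (U : Set (PrimeSpectrum B)) (hU : IsOpen U) (h0 : (⊥ : PrimeSpectrum B) ∈ U) :
    Uᶜ.Finite := by
  obtain ⟨g, hg0, hs⟩ := basic U hU h0
  have h1 : Ideal.span {g} ≠ 0 := by simpa using hg0
  refine ((Ideal.finite_factors h1).image fun v => (⟨v.asIdeal, v.isPrime⟩ : PrimeSpectrum B)).subset
    fun p hp => ?_
  have hgp : g ∈ p.asIdeal := by
    by_contra h
    exact hp (hs p h)
  refine ⟨⟨p.asIdeal, p.isPrime, fun h => hg0 (by simpa [h] using hgp)⟩, ?_, rfl⟩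
  simpa [Ideal.dvd_iff_le] using hgp

lemma open_of (s : Set (PrimeSpectrum B)) (h0 : (⊥ : PrimeSpectrum B) ∈ s) (hs : sᶜ.Finite) :
    IsOpen s := by
  rw [← isClosed_compl_iff, ← Set.biUnion_of_singleton sᶜ]
  refine hs.isClosed_biUnion fun p hp => ?_
  rw [PrimeSpectrum.isClosed_singleton_iff_isMaximal]
  refine p.isPrime.isMaximal fun h => hp ?_
  have : p = ⊥ := PrimeSpectrum.ext h
  exact this ▸ h0

end ring

variable {k K : Type} [Field k] [Field K] [Algebra k K] {T : Scheme.{0}} {η : Spec (.of K) ⟶ T}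

lemma eta_eq (c : Chart k η) (z : Spec (.of K)) : η z = c.ι (⊥ : PrimeSpectrum c.B) := by
  refine (congrArg (fun f : Spec (.of K) ⟶ T => f z) c.w.symm).trans
    ((Scheme.Hom.comp_apply _ _ _).trans (congrArg c.ι (PrimeSpectrum.ext ?_)))
  change Ideal.comap (algebraMap c.B K) (PrimeSpectrum.asIdeal z) = ⊥
  rw [Ideal.eq_bot_of_prime (PrimeSpectrum.asIdeal z)]
  exact Ideal.comap_bot_of_injective _ (IsFractionRing.injective c.B K)

/-- The subring `B[1/g]` of `K`. -/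
noncomputable abbrev aw (c : Chart k η) (g : c.B) (hg : g ≠ 0) : Subalgebra c.B K :=
  Localization.subalgebra.ofField K (Submonoid.powers g)
    (powers_le_nonZeroDivisors_of_noZeroDivisors hg)

/-- The chart `B[1/g]`. -/
noncomputable def loc (c : Chart k η) (g : c.B) (hg : g ≠ 0) : Chart k η where
  B := aw c g hg
  st := IsScalarTower.of_algebraMap_eq fun _ => rfl
  dd := IsLocalization.isDedekindDomain c.B (powers_le_nonZeroDivisors_of_noZeroDivisors hg) _
  ι := spc (algebraMap c.B (aw c g hg)) ≫ c.ι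
  oi := have := IsOpenImmersion.of_isLocalization (S := aw c g hg) g
    inferInstance
  w := by
    rw [← Category.assoc, ← Spec.map_comp]
    exact c.w

lemma loc_mem (c : Chart k η) (g : c.B) (hg : g ≠ 0) (p : Spec (.of (loc c g hg).B)) :
    ∃ q : PrimeSpectrum c.B, g ∉ q.asIdeal ∧ (loc c g hg).ι p = c.ι q := by
  refine ⟨spc (algebraMap c.B (aw c g hg)) p, ?_, Scheme.Hom.comp_apply _ _ _⟩
  exact (PrimeSpectrum.localization_away_comap_range (aw c g hg) g).le ⟨p, rfl⟩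

lemma item1 (h : Crv k η) (U : T.Opens) (hU : (U : Set T).Nonempty) (z) : η z ∈ U := by
  obtain ⟨y, hy⟩ := hU
  obtain ⟨c, p, rfl⟩ := h.chart y
  rw [eta_eq c]
  have : (⊥ : PrimeSpectrum c.B) ⤳ p := (PrimeSpectrum.le_iff_specializes _ _).1 bot_le
  exact (this.map c.ι.continuous).mem_open U.isOpen hy

lemma item2 (h : Crv k η) (U : T.Opens) (hU : ∀ z, η z ∈ U) :
    (U : Set T)ᶜ.Finite ∧ IsCompact (U : Set T) := by
  have := h.cpt
  choose c hc using h.chart
  obtain ⟨t, ht⟩ := CompactSpace.elim_nhds_subcover (fun y => Set.range (c y).ι)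
    fun y => (c y).ι.isOpenEmbedding.isOpen_range.mem_nhds (hc y)
  have cov (s : Set T) : s = ⋃ y ∈ t, (c y).ι '' ((c y).ι ⁻¹' s) := by
    simp only [Set.image_preimage_eq_inter_range, ← Set.inter_iUnion₂, ht, Set.top_eq_univ,
      Set.inter_univ]
  constructor
  · rw [cov (U : Set T)ᶜ]
    refine t.finite_toSet.biUnion fun y _ => Set.Finite.image _ ?_
    refine fin_compl (B := (c y).B) _ (U.isOpen.preimage (c y).ι.continuous) ?_
    have := hU (closedPoint K)
    rwa [eta_eq (c y)] at this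
  · rw [cov (U : Set T)]
    refine t.finite_toSet.isCompact_biUnion fun y _ => IsCompact.image ?_ (c y).ι.continuous
    exact TopologicalSpace.NoetherianSpace.isCompact (α := PrimeSpectrum (c y).B) _

lemma item3 (h : Crv k η) (s : Set T) (hs : ∀ z, η z ∈ s) (hf : sᶜ.Finite) : IsOpen s := by
  refine isOpen_iff_forall_mem_open.2 fun y hy => ?_
  obtain ⟨c, p, rfl⟩ := h.chart y
  refine ⟨c.ι '' (c.ι ⁻¹' s), Set.image_preimage_subset _ _, c.ι.isOpenEmbedding.isOpenMap _ ?_,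
    p, hy, rfl⟩
  refine open_of (B := c.B) _ ?_ (hf.preimage c.ι.isOpenEmbedding.injective.injOn)
  have := hs (closedPoint K)
  rwa [eta_eq c] at this

lemma item4 (h : Crv k η) (U : T.Opens) (hU : ∀ z, η z ∈ U) (f : K) (hf : f ≠ 0) :
    ∃ c : Chart k η, (∀ p, c.ι p ∈ U) ∧ ∃ u : c.Bˣ, algebraMap c.B K u = f := by
  obtain ⟨c, -⟩ := h.chart (η (closedPoint K))
  obtain ⟨g, hg, hs⟩ := basic (B := c.B) _ (U.isOpen.preimage c.ι.continuous) (by
    have := hU (closedPoint K)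
    rwa [eta_eq c] at this)
  obtain ⟨a, b, hb, rfl⟩ := IsFractionRing.div_surjective (A := c.B) f
  have hb0 := nonZeroDivisors.ne_zero hb
  have ha : a ≠ 0 := by
    rintro rfl
    simp at hf
  have h0 : a * b * g ≠ 0 := mul_ne_zero (mul_ne_zero ha hb0) hg
  refine ⟨loc c _ h0, fun p => ?_, ?_⟩
  · obtain ⟨q, h1, h2⟩ := loc_mem c _ h0 p
    rw [h2]
    exact hs q fun h3 => h1 (q.asIdeal.mul_mem_left _ h3)
  · obtain ⟨u, hu⟩ := IsLocalization.Away.isUnit_of_dvd (S := aw c _ h0) (a * b * g)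
      (r := a) ⟨b * g, by ring⟩
    obtain ⟨v, hv⟩ := IsLocalization.Away.isUnit_of_dvd (S := aw c _ h0) (a * b * g)
      (r := b) ⟨a * g, by ring⟩
    refine ⟨u * v⁻¹, ?_⟩
    change algebraMap (aw c _ h0) K ((u * v⁻¹ : (aw c _ h0)ˣ) : aw c _ h0) = _
    rw [Units.val_mul, map_mul, map_units_inv, hu, hv, div_eq_mul_inv]
    rfl

lemma item5 (h : Crv k η) (P : T.Opens → Prop) (V U : T.Opens) (hVU : V ≤ U) (hV : ∀ z, η z ∈ V)
    (h0 : P V) (st : ∀ (W W' : T.Opens) (y : T), V ≤ W → W ≤ W' → W' ≤ U → y ∉ W →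
      (W' : Set T) = insert y (W : Set T) → P W → P W') : P U := by
  have hf := (item2 h V hV).1
  have key (s : Set T) (hs : s.Finite) :
      s ⊆ U → ∀ W : T.Opens, (W : Set T) = (V : Set T) ∪ s → P W := by
    induction s, hs using Set.Finite.induction_on with
    | empty =>
      intro _ W hW
      obtain rfl : W = V := TopologicalSpace.Opens.ext (by simpa using hW)
      exact h0
    | @insert y s _ _ ih =>
      intro hs W' hW'
      let W : T.Opens := ⟨(V : Set T) ∪ s, item3 h _ (fun z => .inl (hV z))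
        (hf.subset (Set.compl_subset_compl.2 Set.subset_union_left))⟩
      have hW := ih ((Set.subset_insert _ _).trans hs) W rfl
      have e : (W' : Set T) = insert y (W : Set T) := hW'.trans Set.union_insert
      by_cases hy : y ∈ W
      · obtain rfl : W' = W := TopologicalSpace.Opens.ext (e.trans (Set.insert_eq_of_mem hy))
        exact hW
      · refine st W W' y (fun _ h => .inl h) (fun x hx => ?_) (fun x hx => ?_) hy e hW
        · change x ∈ (W' : Set T)
          rw [e]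
          exact .inr hx
        · have : x ∈ (V : Set T) ∪ insert y s := hW' ▸ hx
          exact this.elim (fun h => hVU h) fun h => hs h
  exact key ((U : Set T) \ V) (hf.subset fun _ h => h.2) Set.sdiff_subset U
    (Set.union_sdiff_cancel hVU).symm

end GEO

theorem geo : GEO_s := fun _ _ _ _ _ _ _ h =>
  ⟨GEO.item1 h, GEO.item2 h, GEO.item3 h, GEO.item4 h, GEO.item5 h⟩

theorem gen0 : GEN_s := by
  intro k K _ _ _ X T η h U hU G hG q z hz
  have rr {A B C : Over X} (g : A ⟶ B) (f : B ⟶ C) (x : H C G q) :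
      res g G q (res f G q x) = res (g ≫ f) G q x := res_res (HP G q) g f x
  obtain ⟨c, hc, -⟩ := GEO.item4 h U hU 1 one_ne_zero
  have hw : spc (algebraMap c.B K) ≫ c.ι ≫ T.hom = η ≫ T.hom := by rw [← Category.assoc, c.w]
  have : Nonempty {g : c.B // g ≠ 0} := ⟨⟨1, one_ne_zero⟩⟩
  have up (g g' : c.B) (hg : g ≠ 0) (hg' : g' ≠ 0) :
      GEO.aw c g hg ≤ GEO.aw c (g * g') (mul_ne_zero hg hg') := by
    rintro _ ⟨a, _, ⟨n, rfl⟩, rfl⟩
    refine ⟨a * g' ^ n, (g * g') ^ n, ⟨n, rfl⟩, ?_⟩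
    have h1 : algebraMap c.B K g' ≠ 0 := (map_ne_zero_iff _ (IsFractionRing.injective c.B K)).2 hg'
    simp only [map_mul, map_pow, mul_pow, mul_inv]
    rw [mul_comm ((algebraMap c.B K g) ^ n)⁻¹, ← mul_assoc, mul_inv_cancel_right₀ (pow_ne_zero n h1)]
  obtain ⟨⟨g, hg⟩, e, he, h0⟩ := (lim_aff hG q).union_zero
    (fun g : {g : c.B // g ≠ 0} => GEO.aw c g.1 g.2)
    (fun g g' => ⟨⟨g.1 * g'.1, mul_ne_zero g.2 g'.2⟩, up _ _ g.2 g'.2, by
      simpa only [mul_comm g.1] using up g'.1 g.1 g'.2 g.2⟩)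
    (fun x => by
      obtain ⟨a, b, hb, rfl⟩ := IsFractionRing.div_surjective (A := c.B) x
      exact ⟨⟨b, nonZeroDivisors.ne_zero hb⟩, a, b, Submonoid.mem_powers b, div_eq_mul_inv _ _⟩)
    hw (res (rU T c.ι U hc) G q z) (by
      refine (rr (sph _ hw) _ z).trans (Eq.trans (congrArg (fun f => res f G q z) ?_) hz)
      rw [← cancel_mono (opι T U), Category.assoc, rU_ι, rU_ι]
      exact Over.OverMorphism.ext c.w)
  let c' := GEO.loc c g hg
  obtain rfl : e = c'.ι ≫ T.hom := he.symm.trans (Category.assoc _ _ _).symm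
  have hV : c'.ι.opensRange ≤ U := by
    rintro _ ⟨p, rfl⟩
    obtain ⟨p', -, h2⟩ := GEO.loc_mem c g hg p
    exact h2 ▸ hc p'
  have hm (p) : c'.ι p ∈ c'.ι.opensRange := ⟨p, rfl⟩
  have : IsIso (rU T c'.ι _ hm) := isIso_homMk _
    (inferInstanceAs (IsIso (IsOpenImmersion.isoOfRangeEq c'.ι c'.ι.opensRange.ι (by simp)).hom))
  refine ⟨c'.ι.opensRange, hV, fun y => ⟨_, (GEO.eta_eq c' y).symm⟩,
    (pre_bij ((fr _).map (rU T c'.ι _ hm)) G q).1 ?_⟩
  refine (rr _ _ z).trans (Eq.trans (congrArg (fun f => res f G q z) ?_)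
    (((rr (sph _ he) _ z).symm.trans h0).trans (map_zero _).symm))
  rw [← cancel_mono (opι T U), rU_rO, Category.assoc, rU_ι, rU_ι]
  exact Over.OverMorphism.ext rfl

end Pool.Agent.MP_855f4c_ag.E.CV

end

section

set_option autoImplicit false
set_option backward.isDefEq.respectTransparency false

open CategoryTheory Opposite AlgebraicGeometry IsLocalRing Polynomial

namespace Pool.Agent.MP_855f4c_ag.E.CV

open E3 E4 WD.Place

namespace LOCX

variable {k K : Type} [Field k] [Field K] [Algebra k K] {T : Scheme.{0}} {η : Spec (.of K) ⟶ T}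
  {x : WD.Place k K}

lemma exists_ev {B : Type} [CommRing B] [Algebra k B] [Algebra B K] [IsScalarTower k B K]
    (h : ∀ b : B, x.v (algebraMap B K b) ≤ 1) :
    ∃ e : B →ₐ[k] k, ∀ b, e b = 0 ↔ x.v (algebraMap B K b) < 1 :=
  ⟨x.valHom.comp ((IsScalarTower.toAlgHom k B K).codRestrict x.O h), fun b =>
    (val_eq_zero (v_le_one.1 (h b))).trans v_lt_one.symm⟩

lemma ord_out {c : Chart k η} {p : Spec (.of c.B)} (h : c.Cen x p) {b : c.B} (hb : b ∉ p.asIdeal) :
    algebraMap c.B K b ≠ 0 ∧ x.ord (algebraMap c.B K b) = 0 :=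
  v_eq_one.1 ((h.1 b).antisymm (not_lt.1 (mt (h.2 b).2 hb)))

lemma ne_bot {c : Chart k η} {p : Spec (.of c.B)} (h : c.Cen x p) : p.asIdeal ≠ ⊥ := fun e => by
  obtain ⟨t, t0, ht⟩ := x.exists_ord 1
  obtain ⟨a, b, hb, rfl⟩ := IsFractionRing.div_surjective (A := c.B) t
  have h1 := ord_out h (b := a) (by rw [e]; rintro rfl; simp at t0)
  have h2 := ord_out h (b := b) (by rw [e]; exact nonZeroDivisors.ne_zero hb)
  rw [ord_div h1.1 h2.1] at ht
  omega

lemma shrink {c : Chart k η} {p : Spec (.of c.B)} (h : c.Cen x p) :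
    ∃ (c' : Chart k η) (p' : Spec (.of c'.B)) (π : c'.B), c'.ι p' = c.ι p ∧ c'.Cen x p' ∧
      p'.asIdeal = Ideal.span {π} := by
  obtain ⟨π, h1, h2⟩ := p.asIdeal.exists_mem_pow_notMem_pow_succ (ne_bot h) p.2.ne_top 1
  rw [pow_one] at h1
  obtain ⟨I, hI⟩ := Ideal.dvd_iff_le.2 ((Ideal.span_singleton_le_iff_mem _).2 h1)
  obtain ⟨g, g1, g2⟩ := SetLike.not_le_iff_exists.1 (show ¬ I ≤ p.asIdeal from fun e => h2 (by
    rw [← Ideal.span_singleton_le_iff_mem, hI, pow_succ, pow_one]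
    exact Ideal.mul_mono_right e))
  have hg := ord_out h g2
  have hS : Submonoid.powers g ≤ nonZeroDivisors c.B :=
    powers_le_nonZeroDivisors_of_noZeroDivisors fun e => g2 (e ▸ zero_mem _)
  let B := Localization.subalgebra.ofField K _ hS
  have hv : ∀ b : B, ∃ (a : c.B) (n : ℕ), b * algebraMap c.B B g ^ n = algebraMap c.B B a ∧
      x.v (algebraMap B K b) = x.v (algebraMap c.B K a) := fun b => by
    obtain ⟨n, a, e⟩ := IsLocalization.Away.surj g b
    refine ⟨a, n, e, ?_⟩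
    have := congrArg (fun z => x.v (algebraMap B K z)) e
    simpa only [map_mul, map_pow, ← IsScalarTower.algebraMap_apply, v_eq_one.2 hg, one_pow,
      mul_one] using this
  have hle : ∀ b : B, x.v (algebraMap B K b) ≤ 1 := fun b => by
    obtain ⟨a, n, -, e⟩ := hv b
    exact e ▸ h.1 a
  have : IsScalarTower k B K := IsScalarTower.of_algebraMap_eq fun _ => rfl
  obtain ⟨e, he⟩ := exists_ev hle
  have := IsLocalization.isDedekindDomain c.B hS B
  have : IsOpenImmersion (spc (algebraMap c.B B)) := IsOpenImmersion.of_isLocalization g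
  refine ⟨{ B := B, ι := spc (algebraMap c.B B) ≫ c.ι, w := ?_ },
    ⟨RingHom.ker e, RingHom.ker_isPrime e⟩, algebraMap c.B B π, congrArg c.ι (PrimeSpectrum.ext
      (Ideal.ext fun a => (he _).trans (h.2 a).symm)), ⟨hle, he⟩, le_antisymm (fun b hb => ?_)
      ((Ideal.span_singleton_le_iff_mem _).2 ((he _).2 ((h.2 π).1 h1)))⟩
  · rw [← Spec.map_comp_assoc]
    exact c.w
  · obtain ⟨a, n, e1, e2⟩ := hv b
    have h3 : a * g ∈ Ideal.span {π} := hI ▸ Ideal.mul_mem_mul ((h.2 a).2 (e2 ▸ (he b).1 hb)) g1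
    have h4 := Ideal.mem_map_of_mem (algebraMap c.B B) h3
    rw [Ideal.map_span, Set.image_singleton, map_mul, ← e1, mul_assoc, ← pow_succ] at h4
    exact (Ideal.mul_unit_mem_iff_mem _ ((IsLocalization.Away.algebraMap_isUnit g).pow _)).1 h4

lemma core [IsAlgClosed k] {c : Chart k η} {p : Spec (.of c.B)} (h : c.Cen x p) {π : c.B}
    (hπ : p.asIdeal = Ideal.span {π}) : Nonempty (Loc η x (c.ι p)) := by
  obtain ⟨e, he⟩ := exists_ev h.1
  let _ := (e : c.B →+* k).toAlgebra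
  obtain ⟨O, _, _, _, _, _, H, _⟩ := exists_SH c.B k
  have hm : ∀ o : O, o ∈ maximalIdeal O ↔ algebraMap O k o = 0 := fun o => by
    rw [← ker_eq_max (algebraMap O k), RingHom.mem_ker]
  have hp : (maximalIdeal O).comap (algebraMap c.B O) = p.asIdeal := Ideal.ext fun b => by
    rw [Ideal.mem_comap, hm, ← IsScalarTower.algebraMap_apply, h.2, ← he]; rfl
  have := H.isDomain
  have π0 : π ≠ 0 := fun e => ne_bot h (by rw [hπ, e, Ideal.span_singleton_zero])
  have h1 := H.map_maximalIdeal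
  rw [hp, hπ, Ideal.map_span, Set.image_singleton] at h1
  have irr : Irreducible (algebraMap c.B O π) := ((Ideal.span_singleton_prime
    ((map_ne_zero_iff _ H.injective).2 π0)).1 (h1 ▸ inferInstance)).irreducible
  have : IsDiscreteValuationRing O :=
    IsDiscreteValuationRing.ofHasUnitMulPowIrreducibleFactorization ⟨_, irr, fun {x} hx => by
      obtain ⟨n, u, hu, rfl⟩ := H.pow_mul_unit (hp.trans hπ) hx
      exact ⟨n, associated_mul_unit_right _ _ hu⟩⟩
  let L := FractionRing O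
  have hi : Function.Injective (algebraMap c.B L) := (IsFractionRing.injective O L).comp H.injective
  let _ : Algebra K L := (IsFractionRing.lift hi).toAlgebra
  have hs : ∀ b, algebraMap K L (algebraMap c.B K b) = algebraMap O L (algebraMap c.B O b) :=
    IsFractionRing.lift_algebraMap hi
  have : IsScalarTower c.B K L := IsScalarTower.of_algebraMap_eq fun b => (hs b).symm
  let _ : Algebra k L := ((algebraMap K L).comp (algebraMap k K)).toAlgebra
  have : IsScalarTower k K L := IsScalarTower.of_algebraMap_eq fun _ => rfl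
  have := (faithfulSMul_iff_algebraMap_injective _ _).2 hi
  have := (IsFractionRing.isAlgebraic_iff' c.B O L).1 H.isAlgebraic
  have : Algebra.IsAlgebraic K L := .extendScalars (IsFractionRing.injective c.B K)
  have hK := (map_ne_zero_iff _ (IsFractionRing.injective c.B K)).2 π0
  have k1 : ∀ b : c.B, b ≠ 0 → ∃ (n : ℕ) (u : Oˣ),
      x.ord (algebraMap c.B K b) = n * x.ord (algebraMap c.B K π) ∧ algebraMap K L
        (algebraMap c.B K b) = algebraMap K L (algebraMap c.B K π) ^ n * algebraMap O L u :=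
    fun b hb => by
      obtain ⟨n, a, ha, rfl⟩ := WfDvdMonoid.max_power_factor' hb
        (fun hu => irr.not_isUnit (hu.map _))
      rw [← Ideal.mem_span_singleton, ← hπ] at ha
      obtain ⟨u, hu⟩ := notMem_maximalIdeal.1 (fun e => ha (hp.le e))
      refine ⟨n, u, ?_, by rw [map_mul, map_mul, map_pow, map_pow, hu, hs a]⟩
      rw [map_mul, map_pow, ord_mul (pow_ne_zero _ hK) (ord_out h ha).1, ord_pow, (ord_out h ha).2,
        add_zero]
  have k2 : ∀ f : K, f ≠ 0 → ∃ (j : ℤ) (u : Oˣ), x.ord f = j * x.ord (algebraMap c.B K π) ∧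
      algebraMap K L f = algebraMap K L (algebraMap c.B K π) ^ j * algebraMap O L u :=
    fun f hf => by
      obtain ⟨a, b, hb, rfl⟩ := IsFractionRing.div_surjective (A := c.B) f
      obtain ⟨a0, b0⟩ := div_ne_zero_iff.1 hf
      obtain ⟨n, u, e1, e2⟩ := k1 a fun e => a0 (by rw [e, map_zero])
      obtain ⟨m, v, e3, e4⟩ := k1 b fun e => b0 (by rw [e, map_zero])
      refine ⟨n - m, u * v⁻¹, by rw [ord_div a0 b0, e1, e3, sub_mul], ?_⟩
      rw [map_div₀, e2, e4, zpow_sub₀ ((_root_.map_ne_zero _).2 hK), Units.val_mul, map_mul,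
        map_units_inv, zpow_natCast, zpow_natCast, mul_div_mul_comm, div_eq_mul_inv (algebraMap O L _)]
  have k3 : x.ord (algebraMap c.B K π) = 1 := by
    obtain ⟨t, t0, ht⟩ := x.exists_ord 1
    obtain ⟨j, -, e, -⟩ := k2 t t0
    exact Int.eq_one_of_mul_eq_one_left (v_le_one.1 (h.1 π)) (e.symm.trans ht)
  exact ⟨{ c := c, O := O, L := L, sq := fun b => (hs b).symm, ind := H, π := π, irr := irr
           gen := hp.trans hπ
           resid := fun o => ⟨algebraMap O k o, (hm _).2 (by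
             rw [map_sub, ← IsScalarTower.algebraMap_apply]
             exact sub_eq_zero.2 (e.commutes _).symm)⟩
           cl := congrArg c.ι (PrimeSpectrum.ext hp)
           ord := fun f hf => by
             obtain ⟨j, u, e1, e2⟩ := k2 f hf
             exact ⟨u, by rw [e1, k3, mul_one, e2]⟩ }⟩

lemma unit_pow {O : Type} [CommRing O] [SHL O] {n : ℕ} (hn : IsUnit (n : O)) (u : Oˣ) :
    ∃ v : Oˣ, v ^ n = u := by
  have := SHL.isSepClosed (A := O)
  have h1 : (n : ResidueField O) ≠ 0 := by simpa using (hn.map (residue O)).ne_zero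
  have h0 : n ≠ 0 := by rintro rfl; simp at h1
  have : NeZero (n : ResidueField O) := ⟨h1⟩
  obtain ⟨z, hz⟩ := IsSepClosed.exists_pow_nat_eq (algebraMap O (ResidueField O) u) n
  have z0 : z ≠ 0 := by
    rintro rfl
    exact (u.isUnit.map _).ne_zero (hz.symm.trans (zero_pow h0))
  obtain ⟨a, ha, -⟩ := SHL.root (K := ResidueField O) ker_residue (X ^ n - C u.1)
    (monic_X_pow_sub_C _ h0) z (by simp [hz]) (by simp [derivative_X_pow, h1, z0])
  have h2 : a ^ n = u := by simpa [sub_eq_zero] using ha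
  obtain ⟨v, rfl⟩ := (isUnit_pow_iff h0).1 (h2 ▸ u.isUnit)
  exact ⟨v, Units.ext h2⟩

lemma zpow_unit {O L : Type} [CommRing O] [Field L] [Algebra O L] [IsFractionRing O L] {π : O}
    (hπ : Irreducible π) {j : ℤ} {u : Oˣ} (h : algebraMap O L π ^ j = algebraMap O L u) : j = 0 := by
  have key : ∀ (m : ℕ) (u : Oˣ), algebraMap O L π ^ m = algebraMap O L u → m = 0 := fun m u h => by
    by_contra hm
    rw [← map_pow, (IsFractionRing.injective O L).eq_iff] at h
    exact hπ.not_isUnit ((isUnit_pow_iff hm).1 (h ▸ u.isUnit))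
  obtain ⟨m, rfl | rfl⟩ := j.eq_nat_or_neg
  · exact congrArg Nat.cast (key m u (by rw [← h, zpow_natCast]))
  · rw [key m u⁻¹ (by rw [map_units_inv, ← h, zpow_neg, inv_inv, zpow_natCast])]; rfl

end LOCX

open LOCX

theorem locx : LOCX_s := by
  rintro k K _ _ _ _ T η x _ ⟨c, p, rfl, h⟩
  obtain ⟨c', p', π, e, h1, h2⟩ := shrink h
  exact e ▸ core h1 h2

theorem lock (h1 : KAP_s) (h2 : KUMF_s) : LOCK_s := by
  intro k K _ _ _ X T η x y p n hn
  have hu := hn.isUnit (p.s ≫ T.hom)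
  have n0 : n ≠ 0 := by rintro rfl; simp at hu
  have hi := IsFractionRing.injective p.O p.L
  refine ⟨fun z => ?_, ?_⟩
  · obtain ⟨z, rfl⟩ := (h0 _ _).surjective z
    obtain ⟨w, rfl⟩ : ∃ w, (mu X n).obj.map p.j.op w = z := (mu_bij n n0 (algebraMap p.O p.L) _
      (fun ζ _ h => hi (h.trans (map_one _).symm)) fun ω h => by
        obtain ⟨ζ, rfl⟩ := IsIntegrallyClosed.isIntegral_iff.1
          (IsIntegral.of_pow n0.bot_lt (h ▸ isIntegral_one) : IsIntegral p.O ω)
        exact ⟨ζ, hi (by rw [map_pow, h, map_one]), rfl⟩).2 z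
    exact ⟨_, (h0_res _ w).symm⟩
  obtain ⟨a1, a2, a3, -⟩ := h1 X n hn p.L (p.t ≫ T.hom)
  let π : p.Lˣ := Units.mk0 (algebraMap p.O p.L (algebraMap p.c.B p.O p.π))
    ((map_ne_zero_iff _ hi).2 p.irr.ne_zero)
  have b1 : ∀ (z : p.Lˣ) (j : ℤ) (u : p.Oˣ), z.1 = π.1 ^ j * algebraMap p.O p.L u →
      kap hn (p.t ≫ T.hom) z = j • kap hn (p.t ≫ T.hom) π := fun z j u e => by
    obtain ⟨v, rfl⟩ := unit_pow hu u
    rw [show z = π ^ j * Units.map (algebraMap p.O p.L : p.O →* p.L) v ^ n from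
      Units.ext (by simpa using e), a1, a2, (a3 _).2 ⟨_, rfl⟩, add_zero]
  have b2 : ∀ z : p.Lˣ, ∃ (j : ℤ) (u : p.Oˣ), z.1 = π.1 ^ j * algebraMap p.O p.L u := fun z => by
    obtain ⟨j, u, e⟩ := IsDiscreteValuationRing.exists_units_eq_smul_zpow_of_irreducible p.irr
      z.ne_zero
    exact ⟨j, u, by rw [e, Units.smul_def, Algebra.smul_def, mul_comm]; rfl⟩
  let ε : ZMod n →+ H (ov T p.t) (mu X n) 1 := ZMod.lift n ⟨zmultiplesHom _ (kap hn _ π), by
    rw [zmultiplesHom_apply, ← a2, a3]; exact ⟨π, (zpow_natCast _ _).symm⟩⟩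
  have b3 : ∀ j : ℤ, ε j = j • kap hn (p.t ≫ T.hom) π := fun j => ZMod.lift_coe n _ j
  have b4 : Function.Bijective ε := ⟨(injective_iff_map_eq_zero _).2 fun j hj => by
    obtain ⟨j, rfl⟩ := ZMod.intCast_surjective j
    rw [b3, ← a2, a3] at hj
    obtain ⟨v, hv⟩ := hj
    obtain ⟨i, u, e⟩ := b2 v
    have e2 := congrArg Units.val hv
    rw [Units.val_pow_eq_pow_val, e, mul_pow, ← zpow_natCast, ← zpow_mul, Units.val_zpow_eq_zpow_val,
      ← eq_inv_mul_iff_mul_eq₀ (zpow_ne_zero _ π.ne_zero), ← zpow_neg, ← zpow_add₀ π.ne_zero,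
      ← map_pow, ← Units.val_pow_eq_pow_val] at e2
    rw [ZMod.intCast_zmod_eq_zero_iff_dvd]
    exact ⟨i, by linarith [zpow_unit p.irr e2.symm]⟩, fun z => by
    obtain ⟨z, rfl⟩ := h2 X n hn p.L (p.t ≫ T.hom) z
    obtain ⟨j, u, e⟩ := b2 z
    exact ⟨j, (b3 j).trans (b1 z j u e).symm⟩⟩
  refine ⟨(AddEquiv.ofBijective ε b4).symm, fun f => (AddEquiv.symm_apply_eq _).2 ?_⟩
  obtain ⟨u, e⟩ := p.ord f f.ne_zero
  rw [← p.sq] at e
  exact ((h1 X n hn K _).2.2.2 _ _ _ _ f).trans ((b1 _ _ u e).trans (b3 _).symm)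

end Pool.Agent.MP_855f4c_ag.E.CV

end

section

set_option autoImplicit false
set_option backward.isDefEq.respectTransparency false

open CategoryTheory Limits Abelian Opposite AlgebraicGeometry IsLocalRing

namespace Pool.Agent.MP_855f4c_ag.E.CV

open E3 E4

namespace LES

theorem bw0 {X₁ X₂ X₃ Y₁ Y₂ Y₃ : ℕ → Type 1} [∀ q, AddCommGroup (X₁ q)] [∀ q, AddCommGroup (X₂ q)]
    [∀ q, AddCommGroup (X₃ q)] [∀ q, AddCommGroup (Y₁ q)] [∀ q, AddCommGroup (Y₂ q)]
    [∀ q, AddCommGroup (Y₃ q)]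
    {f : ∀ q, X₁ q →+ X₂ q} {g : ∀ q, X₂ q →+ X₃ q} {d : ∀ q, X₃ q →+ X₁ (q + 1)}
    {f' : ∀ q, Y₁ q →+ Y₂ q} {g' : ∀ q, Y₂ q →+ Y₃ q} {d' : ∀ q, Y₃ q →+ Y₁ (q + 1)}
    (L : IsLES f g d) (L' : IsLES f' g' d')
    (a : ∀ q, X₁ q →+ Y₁ q) (b : ∀ q, X₂ q →+ Y₂ q) (c : ∀ q, X₃ q →+ Y₃ q)
    (hg : ∀ q x, g' q (b q x) = c q (g q x)) (hd : ∀ q x, d' q (c q x) = a (q + 1) (d q x))
    (h : ∀ q, Function.Bijective (a q)) (h0 : ∀ q (x : Y₂ (q + 1)), x = 0) :
    ∃ D : ∀ q, Y₃ q →+ X₂ (q + 1),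
      (∀ q z, g (q + 1) z = 0 ↔ ∃ w, D q w = z) ∧ (∀ w, D 0 (g' 0 w) = 0) ∧
      (∀ q w, D (q + 1) w = 0 ↔ ∃ x, c (q + 1) x = w) ∧
      ∀ q x, c (q + 1) x = 0 ↔ ∃ z, g (q + 1) z = x := by
  let e (q : ℕ) := AddEquiv.ofBijective _ (h q)
  have n (q) (x) : (e (q + 1)).symm (d' q (c q x)) = d q x := (e _).symm_apply_eq.2 (hd q x)
  refine ⟨fun q => (f _).comp ((e (q + 1)).symm.toAddMonoidHom.comp (d' q)),
    fun q z => ⟨fun hz => ?_, ?_⟩, fun w => ?_, fun q w => ⟨fun hw => ?_, ?_⟩,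
    fun q x => ⟨fun hx => ?_, ?_⟩⟩
  · obtain ⟨m, rfl⟩ := (L.e₂ _ z).1 hz
    obtain ⟨w, hw⟩ := (L'.e₁ q (e _ m)).1 (h0 _ _)
    exact ⟨w, congrArg (f _) ((e _).symm_apply_eq.2 hw)⟩
  · rintro ⟨w, rfl⟩
    exact (L.e₂ _).apply_apply_eq_zero _
  · change f _ ((e _).symm (d' 0 _)) = 0
    rw [(L'.e₃ 0).apply_apply_eq_zero, map_zero, map_zero]
  · obtain ⟨x, hx⟩ := (L.e₁ _ _).1 hw
    obtain ⟨o, ho⟩ := (L'.e₃ _ (w - c _ x)).1 (by
      rw [map_sub, sub_eq_zero]
      exact (e _).symm.injective (hx.symm.trans (n _ x).symm))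
    rw [h0 _ o, map_zero, eq_comm, sub_eq_zero] at ho
    exact ⟨x, ho.symm⟩
  · rintro ⟨x, rfl⟩
    change f _ ((e _).symm (d' _ _)) = 0
    rw [n, (L.e₁ _).apply_apply_eq_zero]
  · exact (L.e₃ _ x).1 (by rw [← n, hx, map_zero, map_zero])
  · rintro ⟨z, rfl⟩
    rw [← hg, h0 _ (b _ z), map_zero]

theorem bw {C : Type 2} [Category.{1} C] [Abelian C] [HasExt.{1} C] {S S' : ShortComplex C}
    (hS : S.ShortExact) (hS' : S'.ShortExact) (φ : S ⟶ S') (F : C) (h : ExtBij.{1} φ.τ₃ F)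
    (h0 : ∀ q (x : Ext.{1} S.X₂ F (q + 1)), x = 0) :
    ∃ d : ∀ q, Ext.{1} S.X₁ F q →+ Ext.{1} S'.X₂ F (q + 1),
      (∀ q z, pre S'.f F (q + 1) z = 0 ↔ ∃ w, d q w = z) ∧ (∀ w, d 0 (pre S.f F 0 w) = 0) ∧
      (∀ q w, d (q + 1) w = 0 ↔ ∃ a, pre φ.τ₁ F (q + 1) a = w) ∧
      ∀ q a, pre φ.τ₁ F (q + 1) a = 0 ↔ ∃ z, pre S'.f F (q + 1) z = a :=
  bw0 (con_les hS' F) (con_les hS F) (pre φ.τ₃ F) (pre φ.τ₂ F) (pre φ.τ₁ F)
    (fun _ x => by rw [pre_pre, pre_pre, φ.comm₁₂]) (fun _ x => (pre_dr hS hS' φ x).symm) h h0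

variable {X : Scheme.{0}} {T T' W W' : Over X} {g : T' ⟶ T} {u : W ⟶ T} {u' : W' ⟶ T'}

lemma pb [IsOpenImmersion u.left] [IsOpenImmersion u'.left]
    (h : ∀ t, g.left t ∈ Set.range u.left ↔ t ∈ Set.range u'.left) :
    ∃ g', IsPullback u' g' g u := by
  obtain ⟨g', e⟩ := exc_fac u (u' ≫ g) fun z => (h _).2 ⟨z, rfl⟩
  exact ⟨g', IsPullback.of_map (Over.forget X) e.symm (IsOpenImmersion.isPullback g'.left u'.left
    u.left g.left (congrArg (·.left) e.symm) (TopologicalSpace.Opens.ext (Set.ext h))).flip⟩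

lemma gb [IsOpenImmersion g.left] (h : ∀ t, t ∉ Set.range u.left → t ∈ Set.range g.left) :
    GeomBij g u := fun _ _ _ y hy =>
  existsUnique_of_exists_of_unique ⟨_, IsOpenImmersion.lift_fac g.left y (by
    rintro _ ⟨z, rfl⟩; exact h _ (hy z))⟩ fun _ _ ha hb => (cancel_mono g.left).1 (ha.trans hb.symm)

lemma away {O L : Type} [CommRing O] [IsDomain O] [IsDiscreteValuationRing O] [Field L]
    [Algebra O L] [IsFractionRing O L] {π : O} (h : Irreducible π) : IsLocalization.Away π L :=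
  (IsLocalization.iff_of_le_of_exists_dvd (Submonoid.powers π) (nonZeroDivisors O)
    (powers_le_nonZeroDivisors_of_noZeroDivisors h.ne_zero) fun a ha => by
      obtain ⟨n, hn⟩ := IsDiscreteValuationRing.associated_pow_irreducible
        (nonZeroDivisors.ne_zero ha) h
      exact ⟨_, ⟨n, rfl⟩, hn.dvd⟩).2 inferInstance

lemma lift {B O K : Type} [CommRing B] [CommRing O] [IsLocalRing O] [Field K] (α : B →+* O)
    {π : B} (h1 : maximalIdeal O = Ideal.span {α π}) (h2 : ∀ o, ∃ b, o - α b ∈ maximalIdeal O)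
    (φ : B →+* K) (h3 : RingHom.ker φ = (maximalIdeal O).comap α) :
    ∃! ψ : O →+* K, ψ.comp α = φ := by
  have s : Function.Surjective ((residue O).comp α) := fun o => by
    obtain ⟨o, rfl⟩ := residue_surjective o
    obtain ⟨b, hb⟩ := h2 o
    exact ⟨b, (Ideal.Quotient.eq.2 hb).symm⟩
  have k : ∀ ψ : O →+* K, ψ.comp α = φ → ∀ o b, o - α b ∈ maximalIdeal O → ψ o = φ b := by
    rintro ψ rfl o b hb
    have : α π ∈ RingHom.ker ψ := h3.ge (h1.ge (Ideal.mem_span_singleton_self _))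
    have : ψ (o - α b) = 0 := (Ideal.span_singleton_le_iff_mem _).2 this (h1.le hb)
    rwa [map_sub, sub_eq_zero] at this
  refine existsUnique_of_exists_of_unique ⟨(RingHom.liftOfSurjective _ s ⟨φ, fun b hb =>
    h3.ge ((residue_eq_zero_iff _).1 hb)⟩).comp (residue O), ?_⟩ fun a b ha hb => ?_
  · rw [RingHom.comp_assoc, RingHom.liftOfSurjective_comp]
  · ext o
    obtain ⟨c, hc⟩ := h2 o
    rw [k a ha o c hc, k b hb o c hc]

end LES

theorem les (h : GEO_s) : LES_s := by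
  intro k K _ _ _ _ X T η hC x y p U U' hUU hU hy hU' G hG
  have yU' : y ∈ U' := hU'.ge (Set.mem_insert _ _)
  let T0 : T.left.Opens := ⟨{y}ᶜ, (h k K _ η hC).2.2.1 _ (fun z e => hy (e ▸ hU z)) (by simp)⟩
  have cl : p.s (closedPoint p.O) = y := p.cl
  have hs : ∀ z, p.s z ∈ U' := fun z =>
    ((specializes_closedPoint z).map p.s.continuous).mem_open U'.2 (by rw [cl]; exact yU')
  have r0 (V : T.left.Opens) (t : T.left) : t ∈ Set.range (opι T V).left ↔ t ∈ V :=
    ⟨fun ⟨z, e⟩ => e ▸ z.2, fun e => ⟨⟨t, e⟩, rfl⟩⟩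
  have o1 (V : T.left.Opens) : IsOpenImmersion (opι T V).left :=
    inferInstanceAs (IsOpenImmersion V.ι)
  have o2 : IsOpenImmersion (rO T hUU).left := by
    have : IsOpenImmersion ((rO T hUU).left ≫ (opι T U').left) := by
      rw [← Over.comp_left, rO_ι]; exact o1 U
    exact .of_comp _ (opι T U').left
  have o3 : IsOpenImmersion (ovι T p.c.ι).left := p.c.oi
  have := LES.away (L := p.L) p.irr
  have o4 : IsOpenImmersion p.j.left := IsOpenImmersion.of_isLocalization (algebraMap _ p.O p.π)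
  obtain ⟨g1, h1⟩ := LES.pb (g := opι T U') (u := opι T T0) (u' := rO T hUU) fun t => by
    rw [r0]
    have e0 (z) : (opι T U').left ((rO T hUU).left z) = z.1 := by rw [← exc_app, rO_ι]; rfl
    refine ⟨fun e => ⟨⟨t.1, (hU'.le t.2).resolve_left e⟩, (opι T U').left.isOpenEmbedding.injective
      (e0 _)⟩, ?_⟩
    rintro ⟨z, rfl⟩ e
    exact hy ((e.symm.trans (e0 z)).symm ▸ z.2)
  have i1 := exc0 h1 (LES.gb fun t e => (r0 _ _).2 ((not_not.1 (mt (r0 T0 t).2 e) : t = y) ▸ yU'))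
  have h2 := IsPullback.of_hasPullback (ovι T p.c.ι) (opι T T0)
  have i2 := exc0 h2 (LES.gb fun t e => ⟨_, cl.trans (not_not.1 (mt (r0 T0 t).2 e) : t = y).symm⟩)
  have o5 : IsOpenImmersion (pullback.fst (ovι T p.c.ι) (opι T T0)).left :=
    MorphismProperty.of_isPullback (isPullback_left h2).flip (o1 T0)
  have r2 (t) : t ∈ Set.range (pullback.fst (ovι T p.c.ι) (opι T T0)).left ↔ p.c.ι t ≠ y := by
    refine ⟨?_, fun e => ?_⟩
    · rintro ⟨z, rfl⟩
      exact (r0 T0 _).1 ⟨_, (congr($(h2.w).left z)).symm⟩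
    · obtain ⟨z, e, -⟩ := exc_pt h2 t ⟨_, e⟩ rfl
      exact ⟨z, e⟩
  have hab : spc (algebraMap p.c.B p.O) ≫ p.c.ι ≫ T.hom = p.s ≫ T.hom := (Category.assoc ..).symm
  have key (t : Spec (.of p.c.B)) :
      p.c.ι t = y ↔ t.asIdeal = (maximalIdeal p.O).comap (algebraMap p.c.B p.O) :=
    ⟨fun e => congrArg PrimeSpectrum.asIdeal (p.c.ι.isOpenEmbedding.injective (e.trans cl.symm)),
      fun e => (congrArg p.c.ι (PrimeSpectrum.ext e)).trans cl⟩
  obtain ⟨g3, h3⟩ := LES.pb (g := sph _ hab) (u := pullback.fst (ovι T p.c.ι) (opι T T0))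
      (u' := p.j) fun t => by
    rw [r2]
    refine Iff.trans ?_ (Set.ext_iff.1
      (PrimeSpectrum.localization_away_comap_range p.L (algebraMap _ p.O p.π)) t).symm
    refine not_congr ((key _).trans ⟨fun e => e.ge (p.gen.ge (Ideal.mem_span_singleton_self _)),
      fun e => congrArg (Ideal.comap (algebraMap p.c.B p.O))
        (((maximalIdeal.isMaximal p.O).eq_of_le t.2.ne_top ?_).symm)⟩)
    rw [p.irr.maximalIdeal_eq, Ideal.span_singleton_le_iff_mem]
    exact e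
  have : TopologicalSpace.NoetherianSpace (pullback (ovι T p.c.ι) (opι T T0)).left :=
    have : TopologicalSpace.NoetherianSpace (ov T p.c.ι).left :=
      inferInstanceAs (TopologicalSpace.NoetherianSpace (PrimeSpectrum p.c.B))
    (pullback.fst (ovι T p.c.ι) (opι T T0)).left.isOpenEmbedding.isInducing.noetherianSpace
  have i3 : ExtBij.{1} (prM h3.w) G := exc p.ind hab h3 (fun k' _ _ z hz => by
    obtain ⟨φ, rfl⟩ := Spec.map_surjective z
    obtain ⟨ψ, e, he⟩ := LES.lift (algebraMap p.c.B p.O) p.irr.maximalIdeal_eq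
      (fun o => (p.resid o).elim fun a ha => ⟨_, ha⟩) φ.hom (by
        rw [← (key _).1 (not_not.1 (mt (r2 _).2 (hz (closedPoint k'))))]
        change _ = (maximalIdeal k').comap φ.hom
        rw [maximalIdeal_eq_bot]; rfl)
    refine ⟨spc ψ, (Spec.map_comp _ _).symm.trans (congrArg Spec.map (CommRingCat.hom_ext e)),
      fun w hw => ?_⟩
    obtain ⟨w, rfl⟩ := Spec.map_surjective w
    exact congrArg Spec.map (CommRingCat.hom_ext (he w.hom (congrArg CommRingCat.Hom.hom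
      (Spec.map_injective ((Spec.map_comp _ _).trans hw)))))) hG
  have w : p.j ≫ rU T p.s U' hs = rU T p.t U (p.t_mem hU) ≫ rO T hUU := by
    rw [← cancel_mono (opι T U'), Category.assoc, Category.assoc, rU_ι, rO_ι, rU_ι]
    exact Over.OverMorphism.ext p.w
  have := exc_mono p.j
  have := exc_mono (rO T hUU)
  refine LES.bw (pair_exact _ p.j) (pair_exact _ (rO T hUU)) (pairMap _ _ _ w) G (fun q => ?_)
    fun q => wc_H (SHL.wc p.O) _ G q
  have e : prM w ≫ prM h1.w = prM h3.w ≫ prM h2.w :=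
    (exc_comp w h1.w (h3.paste_vert h2).w ((rU_ι ..).trans (Over.OverMorphism.ext rfl))).trans
      (exc_comp h3.w h2.w _ rfl).symm
  refine (Function.Bijective.of_comp_iff _ (pre_bij (prM h1.w) G q)).1 ?_
  have e' : pre (prM w) G q ∘ pre (prM h1.w) G q = pre (prM h3.w) G q ∘ pre (prM h2.w) G q :=
    funext fun z => (pre_pre ..).trans (e ▸ (pre_pre ..).symm)
  exact (congrArg Function.Bijective e').mpr ((i3 q).comp (pre_bij _ G q))

end Pool.Agent.MP_855f4c_ag.E.CV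

end

section

/-! h86e section C: assembly. -/

namespace Pool.Agent.MP_855f4c_ag.E.CV

theorem cdfA : CDF_s := cdf nsl lift

theorem kumfA : KUMF_s := kumf kumg

theorem lesA : LES_s := les geo

theorem lockA : LOCK_s := lock kapR kumfA

theorem vanA : VAN_s := van cdfA (zf nsl) geo cen locx lesA gen0

theorem h1A : H1_s := h1 kapR geo cen locx lesA gen0 lockA

theorem h2A : H2_s := h2 cdfA kapR geo cen locx lesA gen0 lockA h1A

theorem crvA : CRV_s := crv pic fink kapR kumfA geo cen cof locx lesA lockA h1A h2A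

theorem pidA : PID_s := pid kapR kumfA cen h1A h2A vanA

theorem p1muA : P1MU_s := p1mu kapR h1A pidA p1c

theorem graphA : GRAPH_s := graph ln

theorem curveA : CURVE_s :=
  curve nsl geo cen cof vanA crvA p1c p1muA (norm cen) etc ln graphA (csup geo vanA ln)

theorem fingA : FING_s := fing nsl vanA p1c ln curveA

theorem cd3A : CD3_s := cd3 vanA p1c

theorem gzA : GZ_s := gz vanA p1c

theorem gdcofA : GdCof_s := gdcof gd0 fingA

end Pool.Agent.MP_855f4c_ag.E.CV

end
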