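import Pool.Agent.MP_855f4c_ag.EC.Xa
import Pool.Agent.MP_855f4c_ag.EC.F2b
import Pool.Agent.MP_855f4c_ag.EC.F1b
import Pool.Agent.MP_855f4c_ag.EC.E4b

section

/-! h86e section C (curves): definitions and statements. -/

set_option autoImplicit false
set_option backward.isDefEq.respectTransparency false

open CategoryTheory Limits Abelian Opposite AlgebraicGeometry IsLocalRing

namespace Pool.Agent.MP_855f4c_ag.E.CV

open E3 E4

section slices
variable {X : Scheme.{0}} (T : Over X) {Y : Scheme.{0}}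

/-- A scheme over `T.left` as a scheme over `X`; `opn T U` is `ov T U.ι`. -/
noncomputable abbrev ov (g : Y ⟶ T.left) : Over X := Over.mk (g ≫ T.hom)

/-- The structure map. -/
noncomputable def ovι (g : Y ⟶ T.left) : ov T g ⟶ T := Over.homMk g

/-- The factorisation through an open subscheme. -/
noncomputable def rU (g : Y ⟶ T.left) (U : T.left.Opens) (h : ∀ z, g z ∈ U) : ov T g ⟶ opn T U :=
  Over.homMk (IsOpenImmersion.lift U.ι g (by rintro _ ⟨z, rfl⟩; simpa using h z)) (by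
    simp [← Category.assoc])

/-- The inclusion of opens. -/
noncomputable def rO {U U' : T.left.Opens} (h : U ≤ U') : opn T U ⟶ opn T U' :=
  rU T U.ι U' fun z => h z.2

instance (U : T.left.Opens) : Mono (opι T U) :=
  Over.mono_of_mono_left _ (hk := inferInstanceAs (Mono U.ι))

@[reassoc] lemma rU_ι (g : Y ⟶ T.left) (U : T.left.Opens) (h : ∀ z, g z ∈ U) :
    rU T g U h ≫ opι T U = ovι T g := Over.OverMorphism.ext (IsOpenImmersion.lift_fac _ _ _)

@[reassoc] lemma rO_ι {U U' : T.left.Opens} (h : U ≤ U') : rO T h ≫ opι T U' = opι T U :=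
  rU_ι _ _ _ _

@[reassoc] lemma rU_rO (g : Y ⟶ T.left) {U U' : T.left.Opens} (h : ∀ z, g z ∈ U) (h' : U ≤ U') :
    rU T g U h ≫ rO T h' = rU T g U' fun z => h' (h z) := by
  rw [← cancel_mono (opι T U'), Category.assoc, rO_ι, rU_ι, rU_ι]

@[reassoc] lemma rO_rO {U U' U'' : T.left.Opens} (h : U ≤ U') (h' : U' ≤ U'') :
    rO T h ≫ rO T h' = rO T (h.trans h') := rU_rO _ _ _ _

lemma rO_id (U : T.left.Opens) : rO T (le_refl U) = 𝟙 _ := by
  rw [← cancel_mono (opι T U), rO_ι, Category.id_comp]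

instance : IsIso (opι T ⊤) := isIso_homMk _ (inferInstanceAs (IsIso T.left.topIso.hom))

/-- The Kummer class of a unit. -/
noncomputable def kap {n : ℕ} (hn : Linv n X) {A : Type} [CommRing A] (a : Spec (.of A) ⟶ X)
    (u : Aˣ) : H (Over.mk a) (mu X n) 1 := kappa hn _ ((GmEquiv a).symm (Additive.ofMul u))

/-- `ℤ[T] / l`. -/
noncomputable def Ln (l : ℕ) (T : Over X) : Sh (Scheme.etaleTopology.over X) :=
  cokernel ((l : ℤ) • 𝟙 ((fr (Scheme.etaleTopology.over X)).obj T))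

/-- Functoriality of `Ln`. -/
noncomputable def Lm (l : ℕ) {T' T : Over X} (g : T' ⟶ T) : Ln l T' ⟶ Ln l T :=
  cokernel.map _ _ ((fr _).map g) ((fr _).map g) (by simp)

end slices

section curve
variable (k : Type) {K : Type} [Field k] [Field K] [Algebra k K] {T : Scheme.{0}}
  (η : Spec (.of K) ⟶ T)

/-- A Dedekind chart around the generic point `η`. -/
structure Chart where
  B : Type
  [cr : CommRing B]
  [ak : Algebra k B]
  [aK : Algebra B K]
  [st : IsScalarTower k B K]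
  [dd : IsDedekindDomain B]
  [fr : IsFractionRing B K]
  ι : Spec (.of B) ⟶ T
  [oi : IsOpenImmersion ι]
  w : spc (algebraMap B K) ≫ ι = η

attribute [instance] Chart.cr Chart.ak Chart.aK Chart.st Chart.dd Chart.fr Chart.oi

/-- `T` is a regular curve over `k` with generic point `η`. -/
structure Crv : Prop where
  cpt : CompactSpace T
  sep : T.IsSeparated
  td : C.TD1 k K
  chart : ∀ y : T, ∃ c : Chart k η, y ∈ Set.range c.ι

variable {k η}

/-- The place `x` has centre `p` on the chart `c`. -/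
def Chart.Cen (c : Chart k η) (x : WD.Place k K) (p : Spec (.of c.B)) : Prop :=
  (∀ b : c.B, x.v (algebraMap c.B K b) ≤ 1) ∧
    ∀ b : c.B, b ∈ p.asIdeal ↔ x.v (algebraMap c.B K b) < 1

variable (η)

/-- The place `x` has centre `y`. -/
def Cen (x : WD.Place k K) (y : T) : Prop :=
  ∃ (c : Chart k η) (p : Spec (.of c.B)), c.ι p = y ∧ c.Cen x p

/-- The strict henselisation `O` at the centre `y` of `x`, with fraction field `L`. -/
structure Loc (x : WD.Place k K) (y : T) where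
  c : Chart k η
  O : Type
  L : Type
  [r₁ : CommRing O]
  [r₂ : SHL O]
  [r₃ : IsDomain O]
  [r₄ : IsDiscreteValuationRing O]
  [r₅ : Field L]
  [a₁ : Algebra c.B O]
  [a₂ : Algebra O L]
  [a₃ : Algebra K L]
  [a₄ : Algebra k L]
  [t₁ : IsFractionRing O L]
  [t₂ : IsScalarTower k K L]
  [t₃ : Algebra.IsAlgebraic K L]
  sq : ∀ b : c.B, algebraMap O L (algebraMap c.B O b) = algebraMap K L (algebraMap c.B K b)
  ind : IndEt c.B O
  π : c.B
  irr : Irreducible (algebraMap c.B O π)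
  gen : (maximalIdeal O).comap (algebraMap c.B O) = Ideal.span {π}
  resid : ∀ o : O, ∃ a : k, o - algebraMap c.B O (algebraMap k c.B a) ∈ maximalIdeal O
  cl : (spc (algebraMap c.B O) ≫ c.ι) (closedPoint O) = y
  ord : ∀ f : K, f ≠ 0 → ∃ u : Oˣ, algebraMap K L f =
    algebraMap K L (algebraMap c.B K π) ^ x.ord f * algebraMap O L u

attribute [instance] Loc.r₁ Loc.r₂ Loc.r₃ Loc.r₄ Loc.r₅ Loc.a₁ Loc.a₂ Loc.a₃ Loc.a₄ Loc.t₁ Loc.t₂
  Loc.t₃

variable {η} {x : WD.Place k K} {y : T}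

/-- `Spec O ⟶ T`. -/
noncomputable def Loc.s (p : Loc η x y) : Spec (.of p.O) ⟶ T := spc (algebraMap p.c.B p.O) ≫ p.c.ι

/-- `Spec L ⟶ T`. -/
noncomputable def Loc.t (p : Loc η x y) : Spec (.of p.L) ⟶ T := spc (algebraMap K p.L) ≫ η

lemma Loc.w (p : Loc η x y) : spc (algebraMap p.O p.L) ≫ p.s = p.t := by
  refine Eq.trans ?_ (congrArg (spc (algebraMap K p.L) ≫ ·) p.c.w)
  rw [Loc.s, ← Spec.map_comp_assoc, ← Spec.map_comp_assoc]
  congr 2
  exact CommRingCat.hom_ext (RingHom.ext p.sq)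

lemma Loc.t_mem (p : Loc η x y) {U : T.Opens} (h : ∀ z, η z ∈ U) (z) : p.t z ∈ U := by
  rw [Loc.t, Scheme.Hom.comp_apply]; exact h _

end curve

section curve
variable {X : Scheme.{0}} {T : Over X} {k K : Type} [Field k] [Field K] [Algebra k K]
  {η : Spec (.of K) ⟶ T.left} {x : WD.Place k K} {y : T.left}

/-- `Spec L ⟶ Spec O` over `X`. -/
noncomputable def Loc.j (p : Loc η x y) : ov T p.t ⟶ ov T p.s :=
  sph (algebraMap p.O p.L) (by rw [← p.w, Category.assoc])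

/-- `Spec L ⟶ Spec K` over `X`. -/
noncomputable def Loc.i (p : Loc η x y) : ov T p.t ⟶ ov T η :=
  sph (algebraMap K p.L) (by rw [Loc.t, Category.assoc])

lemma Loc.i_rU (p : Loc η x y) {U : T.left.Opens} (h : ∀ z, η z ∈ U) :
    p.i ≫ rU T η U h = rU T p.t U (p.t_mem h) := by
  rw [← cancel_mono (opι T U), Category.assoc, rU_ι, rU_ι]
  exact Over.OverMorphism.ext rfl

end curve

/-! ### Taken from F1 and from Galois theory -/

/-- Passing to a slice. -/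
def NSL_s : Prop := ∀ (X Y : Scheme.{0}) (f : Y ⟶ X),
  ∃ e : ∀ (T : Over Y) (F : Sh (Scheme.etaleTopology.over X)) (q : ℕ),
      H T ((pb (J := Scheme.etaleTopology) f).obj F) q ≃+ H ((Over.map f).obj T) F q,
    (∀ (T' T : Over Y) (g : T' ⟶ T) F q z,
      e T' F q (res g _ q z) = res ((Over.map f).map g) F q (e T F q z)) ∧
    ∀ (T : Over Y) (F F' : Sh (Scheme.etaleTopology.over X)) (φ : F ⟶ F') q z,
      e T F' q (post _ ((pb (J := Scheme.etaleTopology) f).map φ) q z) = post _ φ q (e T F q z)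

/-- Continuous cocycles lift (Tsen). -/
def LIFT_s : Prop := ∀ (l : ℕ) [Fact l.Prime] (k K Ω : Type) [Field k] [IsAlgClosed k] [Field K]
  [Algebra k K] [Field Ω] [IsAlgClosed Ω] [Algebra K Ω] [Algebra.IsAlgebraic K Ω], C.TD1 k K →
  (l : k) ≠ 0 → ∀ (A B : Type 1) [AddCommGroup A] [AddCommGroup B]
    (ρ : (Ω ≃ₐ[K] Ω) →* AddMonoid.End A) (σ : (Ω ≃ₐ[K] Ω) →* AddMonoid.End B) (π : A →+ B),
    (∀ g a, π (ρ g a) = σ g (π a)) → Function.Surjective π → (∀ a, Opn fun g => ρ g a = a) →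
    (∀ a : A, ∃ m, l ^ m • a = 0) → ∀ c : (Ω ≃ₐ[K] Ω) → B,
      (∀ g h, c (g * h) = c g + σ g (c h)) → (Opn fun g => c g = 0) →
      ∃ e : (Ω ≃ₐ[K] Ω) → A, (∀ g h, e (g * h) = e g + ρ g (e h)) ∧ (Opn fun g => e g = 0) ∧
        ∀ g, π (e g) = c g

/-- Kummer theory for cocycles. -/
def KUMG_s : Prop := ∀ (K Ω : Type) [Field K] [Field Ω] [IsAlgClosed Ω] [Algebra K Ω]
  [Algebra.IsAlgebraic K Ω] (n : ℕ), (n : K) ≠ 0 → ∀ f : (Ω ≃ₐ[K] Ω) → Ω, (∀ g, f g ^ n = 1) →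
    (∀ g h, f (g * h) = f g * g (f h)) → (Opn fun g => f g = 1) →
    ∃ (a : K) (α : Ω), a ≠ 0 ∧ α ^ n = algebraMap K Ω a ∧ ∀ g : Ω ≃ₐ[K] Ω, g α = f g * α

/-- Divisibility of `Pic⁰`, away from a place `z`. -/
def PIC_s : Prop := ∀ (k K : Type) [Field k] [Field K] [Algebra k K] [WD.FF k K] (n : ℕ),
  (n : k) ≠ 0 → ∀ x z : WD.Place k K, x ≠ z → ∃ f : K, f ≠ 0 ∧ (n : ℤ) ∣ x.ord f - 1 ∧
    ∀ w : WD.Place k K, w ≠ x → w ≠ z → (n : ℤ) ∣ w.ord f

/-- Finiteness of the unramified Kummer classes. -/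
def FINK_s : Prop := ∀ (k K : Type) [Field k] [Field K] [Algebra k K] [WD.FF k K] (n : ℕ),
  (n : k) ≠ 0 → ∀ S : Set (WD.Place k K), S.Finite → ∃ E : Set K, E.Finite ∧ ∀ f : K, f ≠ 0 →
    (∀ x ∉ S, (n : ℤ) ∣ x.ord f) → ∃ g ∈ E, ∃ h : K, h ≠ 0 ∧ f = g * h ^ n

/-! ### Fields -/

/-- Cohomological dimension one. -/
def CDF_s : Prop := ∀ (l : ℕ) [Fact l.Prime] (k K : Type) [Field k] [IsAlgClosed k] [Field K]
  [Algebra k K], C.TD1 k K → (l : k) ≠ 0 → ∀ (X : Scheme.{0}) (a : Spec (.of K) ⟶ X)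
    (G : Sh (Scheme.etaleTopology.over X)), Tc l G → ∀ (q : ℕ) (z : H (Over.mk a) G (q + 2)), z = 0

/-- A zero geometric stalk kills everything over the field. -/
def ZF_s : Prop := ∀ (l : ℕ) (K Ω : Type) [Field K] [Field Ω] [IsAlgClosed Ω] (φ : K →+* Ω),
  (l : K) ≠ 0 → ∀ (X : Scheme.{0}) (a : Spec (.of K) ⟶ X) (G : Sh (Scheme.etaleTopology.over X)), Cc l G →
    (∀ s : sec G (Over.mk (spc φ ≫ a)), s = 0) →
    ∀ (V : Over X) (_ : V ⟶ Over.mk a) (q : ℕ) (z : H V G q), z = 0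

/-- Rules for `kap`. -/
def KAP_s : Prop := ∀ (X : Scheme.{0}) (n : ℕ) (hn : Linv n X) (A : Type) [CommRing A]
  (a : Spec (.of A) ⟶ X),
    (∀ u v : Aˣ, kap hn a (u * v) = kap hn a u + kap hn a v) ∧
    (∀ (u : Aˣ) (j : ℤ), kap hn a (u ^ j) = j • kap hn a u) ∧
    (∀ u : Aˣ, kap hn a u = 0 ↔ ∃ v : Aˣ, v ^ n = u) ∧
    ∀ (B : Type) [CommRing B] (φ : A →+* B) (b : Spec (.of B) ⟶ X) (h : spc φ ≫ a = b) (u : Aˣ),
      res (sph φ h) _ 1 (kap hn a u) = kap hn b (Units.map (φ : A →* B) u)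

/-- Kummer theory of fields. -/
def KUMF_s : Prop := ∀ (X : Scheme.{0}) (n : ℕ) (hn : Linv n X) (K : Type) [Field K]
  (a : Spec (.of K) ⟶ X), Function.Surjective (kap hn a)

/-! ### Geometry of curves -/

/-- Points and opens. -/
def GEO_s : Prop := ∀ (k K : Type) [Field k] [Field K] [Algebra k K] (T : Scheme.{0})
  (η : Spec (.of K) ⟶ T), Crv k η →
    (∀ U : T.Opens, (U : Set T).Nonempty → ∀ z, η z ∈ U) ∧
    (∀ U : T.Opens, (∀ z, η z ∈ U) → (U : Set T)ᶜ.Finite ∧ IsCompact (U : Set T)) ∧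
    (∀ s : Set T, (∀ z, η z ∈ s) → sᶜ.Finite → IsOpen s) ∧
    (∀ U : T.Opens, (∀ z, η z ∈ U) → ∀ f : K, f ≠ 0 → ∃ c : Chart k η,
      (∀ p, c.ι p ∈ U) ∧ ∃ u : c.Bˣ, algebraMap c.B K u = f) ∧
    ∀ (P : T.Opens → Prop) (V U : T.Opens), V ≤ U → (∀ z, η z ∈ V) → P V →
      (∀ (W W' : T.Opens) (y : T), V ≤ W → W ≤ W' → W' ≤ U → y ∉ W →
        (W' : Set T) = insert y (W : Set T) → P W → P W') → P U

/-- Places and centres. -/
def CEN_s : Prop := ∀ (k K : Type) [Field k] [IsAlgClosed k] [Field K] [Algebra k K]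
  (T : Scheme.{0}) (η : Spec (.of K) ⟶ T), Crv k η →
    (∀ y : T, y ∉ Set.range η ↔ ∃ x : WD.Place k K, Cen η x y) ∧
    (∀ (x : WD.Place k K) (c : Chart k η) (p : Spec (.of c.B)), Cen η x (c.ι p) → c.Cen x p) ∧
    (∀ (x : WD.Place k K) (y y' : T), Cen η x y → Cen η x y' → y = y') ∧
    (∀ (x x' : WD.Place k K) (y : T), Cen η x y → Cen η x' y → x = x') ∧
    ∀ (x : WD.Place k K) (c : Chart k η), (∀ b : c.B, x.v (algebraMap c.B K b) ≤ 1) →
      ∃ p, c.Cen x p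

/-- Charts of finite type. -/
def COF_s : Prop := ∀ (k K : Type) [Field k] [Field K] [Algebra k K] [WD.FF k K]
  (T : Scheme.{0}) (η : Spec (.of K) ⟶ T) (c : Chart k η), Algebra.FiniteType k c.B →
    {x : WD.Place k K | ¬ ∀ b : c.B, x.v (algebraMap c.B K b) ≤ 1}.Finite ∧
    ∃ x : WD.Place k K, ¬ ∀ b : c.B, x.v (algebraMap c.B K b) ≤ 1

/-- Existence of local data. -/
def LOCX_s : Prop := ∀ (k K : Type) [Field k] [IsAlgClosed k] [Field K] [Algebra k K]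
  (T : Scheme.{0}) (η : Spec (.of K) ⟶ T) (x : WD.Place k K) (y : T),
    Cen η x y → Nonempty (Loc η x y)

/-- The sequence of a point. -/
def LES_s : Prop := ∀ (k K : Type) [Field k] [IsAlgClosed k] [Field K] [Algebra k K]
  (X : Scheme.{0}) (T : Over X) (η : Spec (.of K) ⟶ T.left), Crv k η →
  ∀ (x : WD.Place k K) (y : T.left) (p : Loc η x y) (U U' : T.left.Opens) (h : U ≤ U')
    (hU : ∀ z, η z ∈ U), y ∉ U → (U' : Set T.left) = insert y (U : Set T.left) →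
    ∀ G : Sh (Scheme.etaleTopology.over X), LFP G.obj →
      ∃ d : ∀ q, H (ov T p.t) G q →+ H (opn T U') G (q + 1),
        (∀ q z, res (rO T h) G (q + 1) z = 0 ↔ ∃ w, d q w = z) ∧
        (∀ w, d 0 (res p.j G 0 w) = 0) ∧
        (∀ q w, d (q + 1) w = 0 ↔ ∃ a, res (rU T p.t U (p.t_mem hU)) G (q + 1) a = w) ∧
        ∀ q a, res (rU T p.t U (p.t_mem hU)) G (q + 1) a = 0 ↔ ∃ z, res (rO T h) G (q + 1) z = a

/-- A class that dies at the generic point dies on a dense open. -/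
def GEN_s : Prop := ∀ (k K : Type) [Field k] [Field K] [Algebra k K] (X : Scheme.{0}) (T : Over X)
  (η : Spec (.of K) ⟶ T.left), Crv k η → ∀ (U : T.left.Opens) (hU : ∀ z, η z ∈ U)
    (G : Sh (Scheme.etaleTopology.over X)), LFP G.obj → ∀ (q : ℕ) (z : H (opn T U) G q), res (rU T η U hU) G q z = 0 →
      ∃ (V : T.left.Opens) (h : V ≤ U), (∀ z, η z ∈ V) ∧ res (rO T h) G q z = 0

/-- Local Kummer theory. -/
def LOCK_s : Prop := ∀ (k K : Type) [Field k] [Field K] [Algebra k K] (X : Scheme.{0})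
  (T : Over X) (η : Spec (.of K) ⟶ T.left) (x : WD.Place k K) (y : T.left) (p : Loc η x y)
  (n : ℕ) (hn : Linv n X),
    Function.Surjective (res p.j (mu X n) 0) ∧
    ∃ e : H (ov T p.t) (mu X n) 1 ≃+ ZMod n,
      ∀ f : Kˣ, e (res p.i _ 1 (kap hn (η ≫ T.hom) f)) = (x.ord (f : K) : ZMod n)

/-! ### Cohomology of curves -/

/-- Vanishing for general coefficients. -/
def VAN_s : Prop := ∀ (l : ℕ) [Fact l.Prime] (k K : Type) [Field k] [IsAlgClosed k] [Field K]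
  [Algebra k K], (l : k) ≠ 0 → ∀ (X : Scheme.{0}) (T : Over X) (η : Spec (.of K) ⟶ T.left),
  Crv k η → ∀ G : Sh (Scheme.etaleTopology.over X), Tc l G →
    (∀ (q : ℕ) (z : H T G (q + 3)), z = 0) ∧
    ∀ (Ω : Type) [Field Ω] [IsAlgClosed Ω] (φ : K →+* Ω),
      (∀ s : sec G (Over.mk (spc φ ≫ η ≫ T.hom)), s = 0) → ∀ (q : ℕ) (z : H T G (q + 1)), z = 0

/-- `H¹(U, μ_n)` inside `Kˣ / n`. -/
def H1_s : Prop := ∀ (k K : Type) [Field k] [IsAlgClosed k] [Field K] [Algebra k K]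
  (X : Scheme.{0}) (T : Over X) (η : Spec (.of K) ⟶ T.left), Crv k η → ∀ (n : ℕ) (hn : Linv n X)
  (U : T.left.Opens) (hU : ∀ z, η z ∈ U), Function.Injective (res (rU T η U hU) (mu X n) 1) ∧
    ∀ f : Kˣ, (∃ z, res (rU T η U hU) (mu X n) 1 z = kap hn (η ≫ T.hom) f) ↔
      ∀ (x : WD.Place k K), ∀ y ∈ U, Cen η x y → (n : ℤ) ∣ x.ord (f : K)

/-- Every point of `U` is a principal divisor on `U` modulo `n`. -/
def Dv (k : Type) {K : Type} [Field k] [Field K] [Algebra k K] {T : Scheme.{0}}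
    (η : Spec (.of K) ⟶ T) (n : ℕ) (U : T.Opens) : Prop :=
  ∀ (x : WD.Place k K), ∀ y ∈ U, Cen η x y → ∃ f : K, f ≠ 0 ∧ (n : ℤ) ∣ x.ord f - 1 ∧
    ∀ (x' : WD.Place k K), ∀ y' ∈ U, Cen η x' y' → y' ≠ y → (n : ℤ) ∣ x'.ord f

/-- Vanishing of `H²`. -/
def H2_s : Prop := ∀ (l : ℕ) [Fact l.Prime] (k K : Type) [Field k] [IsAlgClosed k] [Field K]
  [Algebra k K], (l : k) ≠ 0 → ∀ (X : Scheme.{0}) (T : Over X) (η : Spec (.of K) ⟶ T.left),
  Crv k η → ∀ (n m : ℕ), n ∣ l ^ m → Linv n X → ∀ U : T.left.Opens, (∀ z, η z ∈ U) →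
    Dv k η n U → ∀ z : H (opn T U) (mu X n) 2, z = 0

/-- Curves of finite type: `H²` of an incomplete curve, cyclic `H²`, finite `H¹`, and the count. -/
def CRV_s : Prop := ∀ (l : ℕ) [Fact l.Prime] (k K : Type) [Field k] [IsAlgClosed k] [Field K]
  [Algebra k K] [WD.FF k K], (l : k) ≠ 0 → ∀ (X : Scheme.{0}) (T : Over X)
  (η : Spec (.of K) ⟶ T.left), Crv k η → ∀ c : Chart k η, Algebra.FiniteType k c.B →
  ∀ (n m : ℕ), n ∣ l ^ m → Linv n X → ∀ U : T.left.Opens, (∀ z, η z ∈ U) →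
    (∀ z : WD.Place k K, (∀ y ∈ U, ¬ Cen η z y) → ∀ ξ : H (opn T U) (mu X n) 2, ξ = 0) ∧
    (∃ e : ZMod n →+ H (opn T U) (mu X n) 2, Function.Surjective e) ∧
    Finite (H (opn T U) (mu X n) 1) ∧
    n ^ ((U : Set T.left)ᶜ.ncard - 1) * Nat.card (H T (mu X n) 1) ≤
      Nat.card (H (opn T U) (mu X n) 1)

/-- Export to S: principal ideal domains. -/
def PID_s : Prop := ∀ (l : ℕ) [Fact l.Prime] (k B K : Type) [Field k] [IsAlgClosed k] [CommRing B]
  [IsDomain B] [IsPrincipalIdealRing B] [Field K] [Algebra k B] [Algebra B K] [Algebra k K]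
  [IsScalarTower k B K] [IsFractionRing B K], C.TD1 k K → (l : k) ≠ 0 →
  ∀ (X : Scheme.{0}) (a : Spec (.of B) ⟶ X) (n m : ℕ), n ∣ l ^ m → ∀ hn : Linv n X,
    Function.Surjective (kap hn a) ∧ ∀ (q : ℕ) (z : H (Over.mk a) (mu X n) (q + 2)), z = 0

/-! ### The projective line and its covers -/

/-- The generic point of a projective line over a field. -/
noncomputable abbrev gen {k : Type} [Field k] (L : PL (Spec (.of k))) {K : Type} [Field K]
    [Algebra k K] (t : K) : Spec (.of K) ⟶ L.P := L.pnt (spc (algebraMap k K)) (pt1 t)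

/-- The projective line is a curve. -/
def P1C_s : Prop := ∀ (k : Type) [Field k] (L : PL (Spec (.of k))),
  Crv k (gen L (RatFunc.X : RatFunc k))

/-- Export to D: `H^*(P¹, μ_n)`, with a generator that is defined over the base. -/
def P1MU_s : Prop := ∀ (S : Scheme.{0}) (L : PL S) (n : ℕ), Linv n L.P →
  ∃ γ : H (top L.P) (mu L.P n) 2, ∀ (l m : ℕ) [Fact l.Prime], n ∣ l ^ m →
    ∀ (k : Type) [Field k] [IsAlgClosed k] (t : Spec (.of k) ⟶ S) (g : fbr L.π t ⟶ top L.P),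
      (l : k) ≠ 0 → (∀ z : H (fbr L.π t) (mu L.P n) 1, z = 0) ∧
        (∀ z, ∃ j : ℤ, z = j • res g _ 2 γ) ∧ ∀ j : ℤ, j • res g _ 2 γ = 0 ↔ (n : ℤ) ∣ j

/-- The normalisation of the line in an etale chart. -/
def NORM_s : Prop := ∀ (k B K : Type) [Field k] [IsAlgClosed k] [CommRing B] [Field K] [Algebra k B]
  [Algebra B K] [Algebra k K] [IsScalarTower k B K] [IsDedekindDomain B] [IsFractionRing B K]
  [Algebra (RatFunc k) K] [IsScalarTower k (RatFunc k) K] [FiniteDimensional (RatFunc k) K]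
  [Algebra.IsSeparable (RatFunc k) K] (L : PL (Spec (.of k))) (w : Spec (.of B) ⟶ L.P) [Etale w],
    spc (algebraMap B K) ≫ w = gen L (algebraMap (RatFunc k) K RatFunc.X) →
    ∃ (Y : Scheme.{0}) (ρ : Y ⟶ L.P) (c : Spec (.of B) ⟶ Y), IsFinite ρ ∧ IsOpenImmersion c ∧
      c ≫ ρ = w ∧ Crv k (spc (algebraMap B K) ≫ c) ∧
      ∀ x : WD.Place k K, ∃ y, Cen (spc (algebraMap B K) ≫ c) x y

/-- An integral affine etale scheme over the line is a Dedekind chart. -/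
def ETC_s : Prop := ∀ (k : Type) [Field k] [IsAlgClosed k] (L : PL (Spec (.of k))) (B : Type)
  [CommRing B] [IsDomain B] (w : Spec (.of B) ⟶ L.P) [Etale w],
    ∃ (_ : Algebra k B) (K : Type) (_ : Field K) (_ : Algebra k K) (_ : Algebra B K)
      (_ : IsScalarTower k B K) (_ : IsFractionRing B K) (_ : Algebra (RatFunc k) K)
      (_ : IsScalarTower k (RatFunc k) K), IsDedekindDomain B ∧ Algebra.FiniteType k B ∧
      FiniteDimensional (RatFunc k) K ∧ Algebra.IsSeparable (RatFunc k) K ∧ WD.FF k K ∧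
      spc (algebraMap B K) ≫ w = gen L (algebraMap (RatFunc k) K RatFunc.X)

/-- The sheaves `Ln`. -/
def LN_s : Prop := ∀ (l : ℕ) [Fact l.Prime] (X : Scheme.{0}),
  (∀ W : Over X, Etale W.hom → Tc l (Ln l W)) ∧
  Nonempty (Ln l (top X) ≅ (cst X).obj (.of (ULift.{1} (ZMod l)))) ∧
  (∀ (k : Type) [Field k] [IsAlgClosed k] (_ : X ⟶ Spec (.of k)), (l : k) ≠ 0 →
    Nonempty (Ln l (top X) ≅ mu X l)) ∧
  ∀ (k : Type) [Field k] [IsAlgClosed k] (x : Spec (.of k) ⟶ X),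
    ∃ e : ∀ W : Over X, sec (Ln l W) (Over.mk x) ≃+ ((Over.mk x ⟶ W) →₀ ZMod l),
      ∀ (W' W : Over X) (g : W' ⟶ W) s,
        e W ((Lm l g).hom.app _ s) = Finsupp.mapDomain (· ≫ g) (e W' s)

/-- `j_!` of an open part of a finite cover. -/
def GRAPH_s : Prop := ∀ (l : ℕ) [Fact l.Prime] (X Y W : Scheme.{0}) (ρ : Y ⟶ X) [IsFinite ρ]
  (c : W ⟶ Y) [IsOpenImmersion c] [Etale (c ≫ ρ)], Linv l X →
    Nonempty (Ln l (Over.mk (c ≫ ρ)) ≅
      (pf (J := Scheme.etaleTopology) ρ).obj (Ln l (Over.mk c)))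

/-- Compact supports on a curve: `W` is a proper dense open of `Y`. -/
def CSUP_s : Prop := ∀ (l : ℕ) [Fact l.Prime] (k K : Type) [Field k] [IsAlgClosed k] [Field K]
  [Algebra k K], (l : k) ≠ 0 → ∀ (Y : Scheme.{0}) (η : Spec (.of K) ⟶ Y), Crv k η →
  Linv l Y → ∀ (W : Over Y) [IsOpenImmersion W.hom], (∀ z, η z ∈ Set.range W.hom) →
    (Set.range W.hom)ᶜ.Nonempty → Finite (H (top Y) (Ln l (top Y)) 1) →
      (∀ z : H (top Y) (Ln l W) 0, z = 0) ∧ Finite (H (top Y) (Ln l W) 1) ∧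
      Nat.card (H (top Y) (Ln l W) 1) ≤
        l ^ ((Set.range W.hom)ᶜ.ncard - 1) * Nat.card (H (top Y) (Ln l (top Y)) 1) ∧
      Nonempty (H (top Y) (Ln l W) 2 ≃+ H (top Y) (Ln l (top Y)) 2)

/-- Export to D. -/
def CURVE_s : Prop := ∀ (l : ℕ) [Fact l.Prime] (k : Type) [Field k] [IsAlgClosed k], (l : k) ≠ 0 →
  ∀ (L : PL (Spec (.of k))) (W : Over L.P) [Etale W.hom] [IsAffine W.left] [IsIntegral W.left]
    (g : W ⟶ top L.P),
    (∀ z : H (top L.P) (Ln l W) 0, z = 0) ∧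
    Finite (H (top L.P) (Ln l W) 1) ∧ Finite (H W (Ln l (top L.P)) 1) ∧
    Nat.card (H (top L.P) (Ln l W) 1) ≤ Nat.card (H W (Ln l (top L.P)) 1) ∧
    Function.Bijective (post ((fr (Scheme.etaleTopology.over L.P)).obj (top L.P)) (Lm l g) 2) ∧
    Nat.card (H (top L.P) (Ln l (top L.P)) 2) = l ∧ Nat.card (H W (Ln l (top L.P)) 0) = l ∧
    ∀ (q : ℕ) (z : H W (Ln l (top L.P)) (q + 2)), z = 0

/-- Finiteness for finite coefficients killed by `l`. -/
def FING_s : Prop := ∀ (l : ℕ) [Fact l.Prime] (S : Scheme.{0}) (L : PL S) (F : Sh (Scheme.etaleTopology.over L.P)),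
  Tc l F → (l : ℤ) • 𝟙 F = 0 →
    (∀ (Ω : Type) [Field Ω] [IsAlgClosed Ω] (x : Spec (.of Ω) ⟶ L.P), (l : Ω) ≠ 0 →
      Finite (sec F (Over.mk x))) →
    ∀ (k : Type) [Field k] [IsAlgClosed k] (t : Spec (.of k) ⟶ S), (l : k) ≠ 0 →
      ∀ b, Finite (H (fbr L.π t) F (b + 1))

/-- No sections with compact support. -/
def GD0_s : Prop := ∀ (l : ℕ) (A : Type) [CommRing A] (L : PL (Spec (.of A))) (h : Polynomial A)
  (F : Sh (Scheme.etaleTopology.over L.P)), IsUnit h.leadingCoeff → Cc l F → Lis l F.obj (Over.mk (L.u h)) →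
    Van l (Set.range (L.u h)) F →
    ∀ (k : Type) [Field k] [IsAlgClosed k] (t : Spec (.of k) ⟶ Spec (.of A)), (l : k) ≠ 0 →
      ∀ z : H (fbr L.π t) F 0, z = 0

end Pool.Agent.MP_855f4c_ag.E.CV

end
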