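import Pool.Agent.MP_855f4c_ag.EC.E4c
import Pool.Agent.MP_855f4c_ag.EC.F1b
import Pool.Agent.MP_855f4c_ag.EC.E3a
import Pool.Agent.MP_855f4c_ag.EC.E4a
import Pool.Agent.MP_855f4c_ag.EC.E65a
import Pool.Agent.MP_855f4c_ag.EC.Za
import Pool.Agent.MP_855f4c_ag.EC.E4b

section

/-! Cocycles attached to classes in `H^1`. -/

set_option autoImplicit false
set_option backward.isDefEq.respectTransparency false

open CategoryTheory Limits Abelian Opposite AlgebraicGeometry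

namespace Pool.Agent.MP_855f4c_ag.E4

open E E3

section generic
variable {C : Type 1} [Category.{0} C] {J : GrothendieckTopology C}

/-- Left exactness on sections, on any site. -/
theorem sec_ex {S : ShortComplex (Sh J)} (hS : S.ShortExact) (T : C) :
    Function.Injective (S.f.hom.app (op T)) ∧
      ∀ y, S.g.hom.app (op T) y = 0 ↔ ∃ x, S.f.hom.app (op T) x = y := by
  have := hS.mono_f
  refine ⟨fun x x' e => ?_, fun y => ⟨fun hy => ?_, ?_⟩⟩
  · obtain ⟨x, rfl⟩ := (frEquiv T _).surjective x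
    obtain ⟨x', rfl⟩ := (frEquiv T _).surjective x'
    rw [← frEquiv_post, ← frEquiv_post, (frEquiv T _).injective.eq_iff, cancel_mono] at e
    rw [e]
  · obtain ⟨y, rfl⟩ := (frEquiv T _).surjective y
    rw [← frEquiv_post, map_eq_zero_iff _ (frEquiv T _).injective] at hy
    obtain ⟨x, hx⟩ := hS.exact.lift' y hy
    exact ⟨frEquiv T _ x, by rw [← frEquiv_post, hx]⟩
  · rintro ⟨x, rfl⟩
    obtain ⟨x, rfl⟩ := (frEquiv T _).surjective x
    rw [← frEquiv_post, ← frEquiv_post, Category.assoc, S.zero, comp_zero, map_zero]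

lemma app_app {F G K : Sh J} (φ : F ⟶ G) (ψ : G ⟶ K) (T : C) (s : F.obj.obj (op T)) :
    ψ.hom.app _ (φ.hom.app _ s) = (φ ≫ ψ).hom.app _ s := rfl

variable {F F' : Sh J} {T W : C} {ω : W ⟶ T} {G : Type} {a : G → (W ⟶ W)} {ξ ξ' : H T F 1}
  {c c' : G → F.obj.obj (op W)}

theorem Coc.mk {S : ShortComplex (Sh J)} (hS : S.ShortExact) (z : (fr J).obj T ⟶ S.X₃)
    (y : S.X₂.obj.obj (op W)) (hy : S.g.hom.app _ y = S.X₃.obj.map ω.op (frEquiv T _ z))
    {c : G → S.X₁.obj.obj (op W)} (hc : ∀ g, S.f.hom.app _ (c g) = S.X₂.obj.map (a g).op y - y) :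
    Coc ω a ((Ext.mk₀ z).comp hS.extClass rfl) c :=
  ⟨S.X₂, S.X₃, S.f, S.g, S.zero, hS, z, y, hy, rfl, hc⟩

/-- The cocycle of a lift `y` of a section `z`. -/
theorem Coc.mk' (ha : ∀ g, a g ≫ ω = ω) {S : ShortComplex (Sh J)} (hS : S.ShortExact)
    (z : (fr J).obj T ⟶ S.X₃) (y : S.X₂.obj.obj (op W))
    (hy : S.g.hom.app _ y = S.X₃.obj.map ω.op (frEquiv T _ z)) :
    ∃ c : G → S.X₁.obj.obj (op W), (∀ g, S.f.hom.app _ (c g) = S.X₂.obj.map (a g).op y - y) ∧
      Coc ω a ((Ext.mk₀ z).comp hS.extClass rfl) c := by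
  have h : ∀ g, ∃ x, S.f.hom.app _ x = S.X₂.obj.map (a g).op y - y := fun g =>
    ((sec_ex hS W).2 _).1 (by rw [map_sub, nat, hy, res_res, ha, sub_self])
  choose c hc using h
  exact ⟨c, hc, Coc.mk hS z y hy hc⟩

theorem Coc.congr (h : Coc ω a ξ c) (e : ξ = ξ') (e' : ∀ g, c g = c' g) : Coc ω a ξ' c' := by
  rw [← e, ← funext e']; exact h

/-- Push a cocycle into a given injective presentation. -/
theorem Coc.push (h : Coc ω a ξ c) {S : ShortComplex (Sh J)} (hS : S.ShortExact)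
    [Injective S.X₂] (φ : F ⟶ S.X₁) :
    ∃ (z : (fr J).obj T ⟶ S.X₃) (y : S.X₂.obj.obj (op W)),
      S.g.hom.app _ y = S.X₃.obj.map ω.op (frEquiv T _ z) ∧
      (Ext.mk₀ z).comp hS.extClass rfl = post _ φ 1 ξ ∧
      ∀ g, S.f.hom.app _ (φ.hom.app _ (c g)) = S.X₂.obj.map (a g).op y - y := by
  obtain ⟨E, Q, i, p, w, hE, z, y, h1, rfl, h3⟩ := h
  have : Mono i := hE.mono_f
  have : Epi p := hE.epi_g
  obtain ⟨e, he⟩ := Injective.factors (φ ≫ S.f) i
  obtain ⟨q, hq⟩ := hE.exact.desc' (e ≫ S.g)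
    (by rw [← Category.assoc]; erw [he]; rw [Category.assoc, S.zero, comp_zero])
  let ψ : ShortComplex.mk i p w ⟶ S := ⟨φ, e, q, he.symm, hq.symm⟩
  refine ⟨z ≫ q, e.hom.app _ y, ?_, ?_, fun g => ?_⟩
  · rw [frEquiv_post, ← nat, ← h1, app_app, app_app]
    exact congrArg (fun t : E ⟶ S.X₃ => t.hom.app _ y) hq.symm
  · have := post_dl hE hS ψ (Ext.mk₀ z)
    rw [post_apply (q := 0), Ext.mk₀_comp_mk₀] at this
    exact this.symm
  · rw [← nat, ← map_sub, ← h3, app_app, app_app, he]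

/-- The standard injective presentation. -/
lemma exists_pres (F : Sh J) : ∃ (I Q : Sh J) (i : F ⟶ I) (p : I ⟶ Q) (w : i ≫ p = 0),
    Injective I ∧ (ShortComplex.mk i p w).ShortExact :=
  let P : InjectivePresentation F := Classical.arbitrary _
  ⟨_, _, P.f, _, cokernel.condition P.f, P.injective, { exact := ShortComplex.exact_cokernel P.f }⟩

theorem Coc.post (h : Coc ω a ξ c) (φ : F ⟶ F') :
    Coc ω a (post _ φ 1 ξ) fun g => φ.hom.app _ (c g) := by
  obtain ⟨I, Q, i, p, w, _, hS⟩ := exists_pres F'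
  obtain ⟨z, y, h1, h2, h3⟩ := h.push hS φ
  exact ⟨I, Q, i, p, w, hS, z, y, h1, h2, h3⟩

/-- Move a cocycle into a given injective presentation. -/
theorem Coc.move (h : Coc ω a ξ c) {I Q : Sh J} {i : F ⟶ I} {p : I ⟶ Q} {w : i ≫ p = 0}
    (hS : (ShortComplex.mk i p w).ShortExact) [Injective I] :
    ∃ (z : (fr J).obj T ⟶ Q) (y : I.obj.obj (op W)),
      p.hom.app _ y = Q.obj.map ω.op (frEquiv T _ z) ∧
      (Ext.mk₀ z).comp hS.extClass rfl = ξ ∧
      ∀ g, i.hom.app _ (c g) = I.obj.map (a g).op y - y := by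
  obtain ⟨z, y, h1, h2, h3⟩ := h.push hS (𝟙 F)
  exact ⟨z, y, h1, h2.trans (post_id _), h3⟩

/-- Semilinear equivariance. -/
theorem Coc.res (h : Coc ω a ξ c) {T' W' : C} {ω' : W' ⟶ T'} {G' : Type} {a' : G' → (W' ⟶ W')}
    (t : T' ⟶ T) (w : W' ⟶ W) (hw : w ≫ ω = ω' ≫ t) (θ : G' → G)
    (hθ : ∀ g, a' g ≫ w = w ≫ a (θ g)) :
    Coc ω' a' (res t F 1 ξ) fun g => F.obj.map w.op (c (θ g)) := by
  obtain ⟨E, Q, i, p, v, hE, z, y, h1, rfl, h3⟩ := h
  refine ⟨E, Q, i, p, v, hE, (fr J).map t ≫ z, E.obj.map w.op y, ?_, ?_, fun g => ?_⟩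
  · rw [nat, h1, frEquiv_pre, res_res, res_res, hw]
  · rw [← Ext.mk₀_comp_mk₀]
    exact Ext.comp_assoc _ _ _ (zero_add 0) rfl (by omega)
  · rw [nat, h3, map_sub, res_res, res_res, hθ]

theorem Coc.add (h : Coc ω a ξ c) (h' : Coc ω a ξ' c') :
    Coc ω a (ξ + ξ') fun g => c g + c' g := by
  obtain ⟨I, Q, i, p, w, _, hS⟩ := exists_pres F
  obtain ⟨z, y, h1, rfl, h3⟩ := h.move hS
  obtain ⟨z', y', h1', rfl, h3'⟩ := h'.move hS
  refine ⟨I, Q, i, p, w, hS, z + z', y + y', ?_, ?_, fun g => ?_⟩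
  · rw [map_add, map_add, map_add, h1, h1']
  · rw [Ext.mk₀_add, Ext.add_comp]
  · rw [map_add, map_add, h3, h3']; abel

theorem Coc.neg (h : Coc ω a ξ c) : Coc ω a (-ξ) fun g => -c g := by
  obtain ⟨E, Q, i, p, v, hE, z, y, h1, rfl, h3⟩ := h
  refine ⟨E, Q, i, p, v, hE, -z, -y, ?_, ?_, fun g => ?_⟩
  · rw [map_neg, map_neg, map_neg, h1]
  · rw [Ext.mk₀_neg, Ext.neg_comp]
  · rw [map_neg, map_neg, h3]; abel

theorem Coc.sub (h : Coc ω a ξ c) (h' : Coc ω a ξ' c') :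
    Coc ω a (ξ - ξ') fun g => c g - c' g :=
  (h.add h'.neg).congr (sub_eq_add_neg _ _).symm fun _ => (sub_eq_add_neg _ _).symm

variable (ω a) in
/-- Coboundaries belong to the zero class. -/
theorem Coc.cob0 (m : F.obj.obj (op W)) :
    Coc ω a (0 : H T F 1) fun g => F.obj.map (a g).op m - m := by
  obtain ⟨I, Q, i, p, w, _, hS⟩ := exists_pres F
  refine ⟨I, Q, i, p, w, hS, 0, i.hom.app _ m, ?_, ?_, fun g => ?_⟩
  · rw [map_zero, map_zero]
    exact ((sec_ex hS W).2 _).2 ⟨m, rfl⟩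
  · rw [Ext.mk₀_zero, Ext.zero_comp]
  · rw [map_sub, nat]

variable (ω a) in
theorem Coc.zero : Coc ω a (0 : H T F 1) fun _ => 0 :=
  (Coc.cob0 ω a 0).congr rfl fun _ => by rw [map_zero, sub_zero]

theorem Coc.cob (h : Coc ω a ξ c) (m : F.obj.obj (op W)) :
    Coc ω a ξ fun g => c g + (F.obj.map (a g).op m - m) :=
  (h.add (Coc.cob0 ω a m)).congr (add_zero _) fun _ => rfl

theorem Coc.nsmul (h : Coc ω a ξ c) (n : ℕ) : Coc ω a (n • ξ) fun g => n • c g := by
  induction n with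
  | zero => exact (Coc.zero ω a).congr (zero_smul _ _).symm fun _ => (zero_smul _ _).symm
  | succ n ih => exact (ih.add h).congr (succ_nsmul _ _).symm fun _ => (succ_nsmul _ _).symm

/-- A cocycle of the zero class is a coboundary. -/
theorem Coc.of_zero (ha : ∀ g, a g ≫ ω = ω) (h : Coc ω a (0 : H T F 1) c) :
    ∃ m, ∀ g, c g = F.obj.map (a g).op m - m := by
  obtain ⟨E, Q, i, p, v, hE, z, y, h1, h2, h3⟩ := h
  obtain ⟨x, hx⟩ := Ext.covariant_sequence_exact₃ _ hE (Ext.mk₀ z) rfl h2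
  obtain ⟨x, rfl⟩ := (Ext.mk₀_bijective _ _).2 x
  rw [Ext.mk₀_comp_mk₀] at hx
  obtain rfl := (Ext.mk₀_bijective _ _).1 hx
  obtain ⟨m, hm⟩ := ((sec_ex hE W).2 (y - E.obj.map ω.op (frEquiv T _ x))).1 (by
    change p.hom.app _ _ = 0
    rw [map_sub, h1, nat, frEquiv_post, sub_self])
  refine ⟨m, fun g => (sec_ex hE W).1 ?_⟩
  change i.hom.app _ _ = _ at hm
  change i.hom.app _ _ = i.hom.app _ _
  rw [h3, map_sub, nat, hm, map_sub, res_res, ha]; abel

theorem Coc.unique (ha : ∀ g, a g ≫ ω = ω) (h : Coc ω a ξ c) (h' : Coc ω a ξ c') :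
    ∃ m, ∀ g, c' g = c g + (F.obj.map (a g).op m - m) := by
  obtain ⟨m, hm⟩ := ((h'.sub h).congr (sub_self _) fun _ => rfl).of_zero ha
  exact ⟨m, fun g => by rw [← hm]; abel⟩

theorem Coc.cocycle (h : Coc ω a ξ c) {g g' k : G} (hk : a k = a g ≫ a g') :
    c k = c g + F.obj.map (a g).op (c g') := by
  obtain ⟨E, Q, i, p, v, hE, z, y, -, -, h3⟩ := h
  refine (sec_ex hE W).1 ?_
  change i.hom.app _ _ = i.hom.app _ _
  rw [map_add, nat, h3, h3, h3, map_sub, res_res, hk]; abel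

theorem Coc.exists (ha : ∀ g, a g ≫ ω = ω)
    (hW : ∀ ⦃E Q : Sh J⦄ (p : E ⟶ Q) [Epi p], Function.Surjective (p.hom.app (op W)))
    (ξ : H T F 1) : ∃ c, Coc ω a ξ c := by
  obtain ⟨I, Q, i, p, w, _, hS⟩ := exists_pres F
  obtain ⟨z, rfl⟩ := Ext.covariant_sequence_exact₁ _ hS ξ (Ext.eq_zero_of_injective _) rfl
  obtain ⟨z, rfl⟩ := (Ext.mk₀_bijective _ _).2 z
  have : Epi p := hS.epi_g
  obtain ⟨y, hy⟩ := hW p (Q.obj.map ω.op (frEquiv T _ z))
  obtain ⟨c, -, hc⟩ := Coc.mk' ha hS z y hy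
  exact ⟨c, hc⟩

/-- Transport along an isomorphism of the base object. -/
theorem Coc.iso {T' : C} (e : T ≅ T') {η : H T' F 1} :
    Coc (ω ≫ e.hom) a η c ↔ Coc ω a (E.res e.hom F 1 η) c := by
  refine ⟨fun h => (h.res e.hom (𝟙 W) (Category.id_comp _) id fun g => by simp).congr rfl
    fun g => res_id _ _, fun h => (h.res e.inv (𝟙 W) (by simp) id fun g => by simp).congr ?_
      fun g => res_id _ _⟩
  refine (pre_pre _ _ _).trans ?_
  rw [← Functor.map_comp, e.inv_hom_id, CategoryTheory.Functor.map_id, pre_id]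

section functor
variable {C' : Type 1} [Category.{0} C'] {J' : GrothendieckTopology C'} (Φ : Sh J ⥤ Sh J')
  [Φ.Additive] [PreservesFiniteLimits Φ] [PreservesFiniteColimits Φ] {T' W' : C'} {ω' : W' ⟶ T'}
  {a' : G → (W' ⟶ W')} (α : (fr J').obj T' ⟶ Φ.obj ((fr J).obj T))
  (e : ∀ K : Sh J, K.obj.obj (op W) →+ (Φ.obj K).obj.obj (op W'))
  (he : ∀ ⦃K K' : Sh J⦄ (φ : K ⟶ K') s, (Φ.map φ).hom.app _ (e K s) = e K' (φ.hom.app _ s))
  (hea : ∀ K g s, (Φ.obj K).obj.map (a' g).op (e K s) = e K (K.obj.map (a g).op s))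
  (heω : ∀ K (z : (fr J).obj T ⟶ K), (Φ.obj K).obj.map ω'.op (frEquiv T' _ (α ≫ Φ.map z)) =
    e K (K.obj.map ω.op (frEquiv T K z)))
include he hea heω

/-- Cocycles under an exact functor. -/
theorem Coc.functor (h : Coc ω a ξ c) : Coc ω' a' (cmp Φ α F 1 ξ) fun g => e F (c g) := by
  obtain ⟨E, Q, i, p, v, hE, z, y, h1, rfl, h3⟩ := h
  refine (Coc.mk (hE.map_of_exact Φ) (α ≫ Φ.map z) (e E y) ?_ (c := fun g => e F (c g))
    fun g => ?_).congr ?_ fun _ => rfl
  · exact (he p y).trans ((congrArg _ h1).trans (heω Q z).symm)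
  · exact (he i _).trans (by rw [h3, map_sub, ← hea]; rfl)
  · rw [cmp_comp, cmp_mk₀, Ext.mapExactFunctor_extClass]

theorem Coc.of_functor (ha : ∀ g, a g ≫ ω = ω) (ha' : ∀ g, a' g ≫ ω' = ω')
    (hW : ∀ ⦃E Q : Sh J⦄ (p : E ⟶ Q) [Epi p], Function.Surjective (p.hom.app (op W)))
    (hb : Function.Bijective (e F)) (h : Coc ω' a' (cmp Φ α F 1 ξ) fun g => e F (c g)) :
    Coc ω a ξ c := by
  obtain ⟨c₀, h₀⟩ := Coc.exists ha hW ξ
  obtain ⟨m, hm⟩ := (h₀.functor Φ α e he hea heω).unique ha' h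
  obtain ⟨m, rfl⟩ := hb.2 m
  exact (h₀.cob m).congr rfl fun g => hb.1 (by rw [hm, hea, map_add, map_sub])

end functor

end generic

section ring
variable {X : Scheme.{0}} {B : Type} [CommRing B] (u : Spec (.of B) ⟶ X) {Ω : Type} [Field Ω]
  [Algebra B Ω]

theorem Opn.and {p q : (Ω ≃ₐ[B] Ω) → Prop} (hp : Opn p) (hq : Opn q) : Opn fun g => p g ∧ q g := by
  classical
  obtain ⟨E, hE⟩ := hp
  obtain ⟨E', hE'⟩ := hq
  exact ⟨E ∪ E', fun g h => ⟨hE g fun e he => h e (Finset.mem_union_left _ he),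
    hE' g fun e he => h e (Finset.mem_union_right _ he)⟩⟩

theorem Opn.imp {p q : (Ω ≃ₐ[B] Ω) → Prop} (hp : Opn p) (h : ∀ g, p g → q g) : Opn q :=
  Exists.imp (fun _ hE g hg => h g (hE g hg)) hp

/-- The stabiliser of a point of a finitely generated algebra is open. -/
theorem opn_fix {D : Type} [CommRing D] [Algebra B D] [Algebra.FiniteType B D] (σ : D →ₐ[B] Ω) :
    Opn fun g : Ω ≃ₐ[B] Ω => (g : Ω →ₐ[B] Ω).comp σ = σ := by
  classical
  obtain ⟨s, hs⟩ := Algebra.FiniteType.out (R := B) (A := D)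
  exact ⟨s.image σ, fun g h => AlgHom.ext_of_adjoin_eq_top hs fun x hx =>
    h _ (Finset.mem_image_of_mem _ hx)⟩

/-- Admissible cocycles. -/
def Z1 {M : Type*} [AddCommGroup M] (ρ : (Ω ≃ₐ[B] Ω) →* AddMonoid.End M) :
    AddSubgroup ((Ω ≃ₐ[B] Ω) → M) where
  carrier := {c | (∀ g h, c (g * h) = c g + ρ g (c h)) ∧ (Opn fun g => c g = 0) ∧
    Unr fun g => c g = 0}
  zero_mem' := ⟨fun g h => by simp, ⟨∅, fun _ _ => rfl⟩, fun _ _ _ _ => rfl⟩
  add_mem' {c c'} h h' := ⟨fun g k => by simp only [Pi.add_apply, h.1, h'.1, map_add]; abel,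
    (h.2.1.and h'.2.1).imp fun g e => by rw [Pi.add_apply, e.1, e.2, add_zero],
    fun a _ g hg => show c g + c' g = 0 by rw [h.2.2 a g hg, h'.2.2 a g hg, add_zero]⟩
  neg_mem' {c} h := ⟨fun g k => by simp only [Pi.neg_apply, h.1, map_neg]; abel,
    h.2.1.imp fun g e => by rw [Pi.neg_apply, e, neg_zero],
    fun a _ g hg => show -c g = 0 by rw [h.2.2 a g hg, neg_zero]⟩

/-- Coboundaries. -/
def B1 {M : Type*} [AddCommGroup M] (ρ : (Ω ≃ₐ[B] Ω) →* AddMonoid.End M) :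
    AddSubgroup ((Ω ≃ₐ[B] Ω) → M) where
  carrier := {c | ∃ m, ∀ g, c g = ρ g m - m}
  zero_mem' := ⟨0, fun g => by simp⟩
  add_mem' := fun ⟨m, h⟩ ⟨m', h'⟩ => ⟨m + m', fun g => by
    rw [Pi.add_apply, h, h', map_add]; abel⟩
  neg_mem' := fun ⟨m, h⟩ => ⟨-m, fun g => by rw [Pi.neg_apply, h, map_neg]; abel⟩

lemma act_pt (g : Ω ≃ₐ[B] Ω) : act u Ω g ≫ pt u Ω = pt u Ω := by
  rw [← hm_comp]
  exact congrArg _ (Subsingleton.elim _ _)

lemma act_mul (g h : Ω ≃ₐ[B] Ω) : act u Ω (g * h) = act u Ω g ≫ act u Ω h :=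
  hm_comp u (h : Ω →ₐ[B] Ω) (g : Ω →ₐ[B] Ω)

lemma gal_act (P : PSh X) (g : Ω ≃ₐ[B] Ω) (m) :
    gal u Ω P g m = P.map (act u Ω g).op m := rfl

variable {F : Sh (Scheme.etaleTopology.over X)} {T : Over X} {ω : ob u Ω ⟶ T}

theorem coc_mul {ξ : H T F 1} {c} (h : Coc ω (act u Ω) ξ c) (g g' : Ω ≃ₐ[B] Ω) :
    c (g * g') = c g + gal u Ω F.obj g (c g') := h.cocycle (act_mul u g g')

variable [IsAlgClosed Ω]

theorem coc_exists' (ha : ∀ g, act u Ω g ≫ ω = ω) (ξ : H T F 1) :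
    ∃ c, Coc ω (act u Ω) ξ c :=
  Coc.exists ha (fun _ _ p _ => shl_lift u p) ξ

theorem coc_exists (ξ : H (ob u B) F 1) : ∃ c, Coc (pt u Ω) (act u Ω) ξ c :=
  coc_exists' u (act_pt u) ξ

variable {ξ : H (ob u B) F 1} {c : (Ω ≃ₐ[B] Ω) → F.obj.obj (op (ob u Ω))}

omit [IsAlgClosed Ω] in
theorem coc_unique {c'} (h : Coc (pt u Ω) (act u Ω) ξ c) (h' : Coc (pt u Ω) (act u Ω) ξ c') :
    ∃ m, ∀ g, c' g = c g + (gal u Ω F.obj g m - m) := h.unique (act_pt u) h'

omit [IsAlgClosed Ω] in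
/-- Near a prime, a cocycle is a coboundary on the stabiliser of a point of an etale
neighbourhood. -/
theorem coc_loc (h : Coc (pt u Ω) (act u Ω) ξ c) (q : Ideal B) [q.IsPrime] :
    ∃ (D : Type) (_ : CommRing D) (_ : Algebra B D) (_ : Algebra.Etale B D) (q' : Ideal D),
      q'.IsPrime ∧ q'.comap (algebraMap B D) = q ∧ ∀ σ : D →ₐ[B] Ω, ∃ m, ∀ g : Ω ≃ₐ[B] Ω,
      (g : Ω →ₐ[B] Ω).comp σ = σ → c g = gal u Ω F.obj g m - m := by
  obtain ⟨E, Q, i, p, v, hE, z, y, h1, -, h3⟩ := h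
  have : Epi p := hE.epi_g
  obtain ⟨@⟨D, _, aA, aR, tw, et⟩, ⟨q', hq, hq'⟩, t, ht⟩ := loc_lift u p (frEquiv _ _ z) q
  obtain rfl : aA = aR := Algebra.algebra_ext _ _ fun r =>
    (@IsScalarTower.algebraMap_apply B B D _ _ _ _ aA aR tw r).symm
  refine ⟨D, _, aA, et, q', hq, hq', fun σ => ?_⟩
  obtain ⟨m, hm⟩ := ((sec_ex hE (ob u Ω)).2 (y - rs u E.obj σ t)).1 (by
    change p.hom.app _ _ = 0
    rw [map_sub, h1, rs_nat, ht, rs_rs, sub_eq_zero]
    exact rs_congr u Q.obj (Subsingleton.elim (Algebra.ofId B Ω) _) _)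
  refine ⟨m, fun g hg => (sec_ex hE _).1 ?_⟩
  change i.hom.app _ _ = _ at hm
  change i.hom.app _ _ = i.hom.app _ _
  have e : E.obj.map (act u Ω g).op (rs u E.obj σ t) = rs u E.obj σ t :=
    (rs_rs u E.obj σ _ t).trans (rs_congr u _ hg t)
  rw [h3, map_sub, gal_act, nat, hm, map_sub, e]; abel

variable [FaithfulSMul B Ω] [Algebra.IsAlgebraic B Ω]

theorem coc_opn (hF : LFP F.obj) (h : Coc (pt u Ω) (act u Ω) ξ c) : Opn fun g => c g = 0 := by
  have := RingHom.ker_isPrime (algebraMap B Ω)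
  obtain ⟨D, _, _, _, q, hq, hq', hD⟩ := coc_loc u h (RingHom.ker (algebraMap B Ω))
  obtain ⟨σ, -⟩ := E3.exists_point Ω q hq'
  obtain ⟨m, hm⟩ := hD σ
  exact ((opn_fix σ).and (gal_opn u hF m)).imp fun g e => by rw [hm g e.1, e.2, sub_self]

variable [IsIntegrallyClosed B] {l : ℕ} (hF : Cc l F) (hL : Lis l F.obj (ob u B))
  (hl : IsUnit (l : B))

/-- An etale neighbourhood of the prime under `a` has a point fixed by the inertia group of `a`. -/
theorem ine_fix (a : Ideal (integralClosure B Ω)) [a.IsPrime] {D : Type} [CommRing D]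
    [Algebra B D] [Algebra.Etale B D] (q : Ideal D) [q.IsPrime]
    (hq : q.comap (algebraMap B D) = a.comap (algebraMap B _)) :
    ∃ σ : D →ₐ[B] Ω, ∀ g : Ω ≃ₐ[B] Ω, Ine a g → (g : Ω →ₐ[B] Ω).comp σ = σ := by
  have : IsDomain B := (FaithfulSMul.algebraMap_injective B Ω).isDomain _
  let P := integralClosure B Ω
  let C := Localization.AtPrime a
  have hu : ∀ y : a.primeCompl, IsUnit (algebraMap P Ω y) := fun y =>
    IsUnit.mk0 _ fun h => y.2 ((Subtype.ext h : y.1 = 0) ▸ a.zero_mem)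
  let : Algebra C Ω := (IsLocalization.lift hu).toAlgebra
  have : IsScalarTower P C Ω := .of_algebraMap_eq fun x => (IsLocalization.lift_eq hu x).symm
  have : IsScalarTower B C Ω := .of_algebraMap_eq fun x => by
    rw [IsScalarTower.algebraMap_apply B P C, ← IsScalarTower.algebraMap_apply P C Ω]; rfl
  have : SHL C := (loc_aic (B := B) (Ω := Ω) a.primeCompl C).shl
  have := SHL.isSepClosed (A := C)
  let k := IsLocalRing.ResidueField C
  obtain ⟨φ, -⟩ := E3.exists_point (R := B) k q (by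
    rw [hq]
    ext x
    rw [RingHom.mem_ker, IsScalarTower.algebraMap_apply B C k, IsLocalRing.ResidueField.algebraMap_eq,
      IsLocalRing.residue_eq_zero_iff, IsScalarTower.algebraMap_apply B P C,
      IsLocalization.AtPrime.to_map_mem_maximal_iff C a]
    rfl)
  have : IsLocalHom (IsScalarTower.toAlgHom B C k) :=
    ⟨fun x hx => isUnit_of_map_unit (IsLocalRing.residue C) x hx⟩
  obtain ⟨s, -⟩ := SHL.lift_etale (IsScalarTower.toAlgHom B C k) φ
  exact ⟨(IsScalarTower.toAlgHom B C Ω).comp s, fun g hg => AlgHom.ext fun x =>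
    (shSub_fix_iff (P := P) a C g).2 hg _ (mem_shSub s x)⟩

include hF hL hl

theorem coc_unr (h : Coc (pt u Ω) (act u Ω) ξ c) : Unr fun g => c g = 0 := by
  intro a _ g hg
  obtain ⟨D, _, _, _, q, hq, hq', hc⟩ := coc_loc u h (a.comap (algebraMap B _))
  obtain ⟨σ, hσ⟩ := ine_fix a q hq'
  obtain ⟨m, hm⟩ := hc σ
  beta_reduce
  rw [hm g (hσ g hg), gal_unr u hF hL hl m a g hg, sub_self]

theorem coc_mem (h : Coc (pt u Ω) (act u Ω) ξ c) : c ∈ Z1 (gal u Ω F.obj) :=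
  ⟨coc_mul u h, coc_opn u hF.1 h, coc_unr u hF hL hl h⟩

/-- A class with zero cocycle is zero. -/
theorem coc_inj0 (h : Coc (pt u Ω) (act u Ω) ξ fun _ : Ω ≃ₐ[B] Ω => 0) : ξ = 0 := by
  obtain ⟨E, Q, i, p, v, hE, z, y, h1, rfl, h3⟩ := h
  obtain ⟨x, hx, -⟩ := torsor u hF hL hl hE (D := B) (frEquiv _ _ z) (fun _ : B →ₐ[B] Ω => y)
    (fun τ => h1.trans (rs_congr u Q.obj (Subsingleton.elim (Algebra.ofId B Ω) _) _))
    fun g _ => (sub_eq_zero.1 ((h3 g).symm.trans (map_zero _))).symm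
  obtain ⟨x, rfl⟩ := (frEquiv _ _).surjective x
  rw [← frEquiv_post, (frEquiv _ _).injective.eq_iff] at hx
  rw [← hx, ← Ext.mk₀_comp_mk₀, Ext.comp_assoc _ _ _ (zero_add 0) (zero_add 1) (by omega)]
  erw [hE.comp_extClass]
  simp

/-- A class whose cocycle is a coboundary is zero. -/
theorem coc_inj (h : Coc (pt u Ω) (act u Ω) ξ c) (hc : c ∈ B1 (gal u Ω F.obj)) : ξ = 0 := by
  obtain ⟨m, hm⟩ := hc
  exact coc_inj0 u hF hL hl ((h.cob (-m)).congr rfl fun g => by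
    rw [hm, map_neg, gal_act]; abel)

theorem coc_ext {ξ' : H (ob u B) F 1} (h : Coc (pt u Ω) (act u Ω) ξ c)
    (h' : Coc (pt u Ω) (act u Ω) ξ' c) : ξ = ξ' :=
  sub_eq_zero.1 (coc_inj0 u hF hL hl ((h.sub h').congr rfl fun _ => sub_self _))

end ring

end Pool.Agent.MP_855f4c_ag.E4

end

section

set_option autoImplicit false

namespace Pool.Agent.MP_855f4c_ag.E4

open Polynomial

namespace Finet

/-- A separable element fixed by all automorphisms lies in the base field. -/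
lemma sep_fix {K Ω : Type} [Field K] [Field Ω] [Algebra K Ω] [Normal K Ω] {z : Ω}
    (hs : IsSeparable K z) (h : ∀ σ : Ω ≃ₐ[K] Ω, σ z = z) : ∃ x, algebraMap K Ω x = z := by
  have hi := hs.isIntegral
  have e : (minpoly K z).rootSet Ω = {z} := by
    ext y
    rw [(minpoly.monic hi).mem_rootSet, Set.mem_singleton_iff]
    refine ⟨fun hy => ?_, fun hy => hy ▸ minpoly.aeval K y⟩
    obtain ⟨σ, hσ⟩ := minpoly.exists_algEquiv_of_root' hi.isAlgebraic hy
    exact hσ.symm.trans (h σ)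
  have := card_rootSet_eq_natDegree (K := Ω) hs (Normal.splits inferInstance z)
  simp only [e, Fintype.card_unique] at this
  exact minpoly.natDegree_eq_one_iff.1 this.symm

variable {B P Ω : Type} [CommRing B] [CommRing P] [Field Ω] [Algebra B Ω] [Algebra B P]
  [Algebra P Ω] [IsScalarTower B P Ω] [IsIntegralClosure P B Ω] [IsDomain B]
  [IsIntegrallyClosed B] [IsAlgClosed Ω] [FaithfulSMul B Ω] [Algebra.IsAlgebraic B Ω]

omit [IsIntegrallyClosed B] in
/-- The invariants of `H` in the integral closure separate the cosets at every prime. -/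
lemma inv (H : Subgroup (Ω ≃ₐ[B] Ω))
    (ho : ∃ E : Finset Ω, ∀ g : Ω ≃ₐ[B] Ω, (∀ e ∈ E, g e = e) → g ∈ H)
    (hI : ∀ a : Ideal P, a.IsPrime → ∀ g : Ω ≃ₐ[B] Ω,
      (∀ z w : P, algebraMap P Ω w = g (algebraMap P Ω z) → w - z ∈ a) → g ∈ H) :
    H.FiniteIndex ∧ ∀ a : Ideal P, a.IsPrime → ∀ g : Ω ≃ₐ[B] Ω,
      (∀ z w : P, (∀ h ∈ H, h (algebraMap P Ω z) = algebraMap P Ω z) →
        algebraMap P Ω w = g (algebraMap P Ω z) → w - z ∈ a) → g ∈ H := by
  classical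
  have inj := IsIntegralClosure.algebraMap_injective P B Ω
  have := IsIntegralClosure.isIntegral_algebra B Ω (A := P)
  have : IsDomain P := inj.isDomain _
  let _ := E65.icAct B P Ω
  have hs : ∀ (g : Ω ≃ₐ[B] Ω) (z : P), algebraMap P Ω (g • z) = g (algebraMap P Ω z) :=
    fun g z => IsIntegralClosure.algebraMap_mk' _ _ _
  have : SMulCommClass (Ω ≃ₐ[B] Ω) B P := ⟨fun g r z => inj (by
    simp only [Algebra.smul_def, map_mul, hs, ← IsScalarTower.algebraMap_apply, AlgEquiv.commutes])⟩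
  have horb : ∀ z : P, (MulAction.orbit (Ω ≃ₐ[B] Ω) z).Finite := fun z => by
    obtain ⟨f, hf, h0⟩ := Algebra.IsIntegral.isIntegral (R := B) z
    refine (f.rootSet_finite P).subset ?_
    rintro _ ⟨g, rfl⟩
    refine (hf.mem_rootSet).2 (inj ?_)
    have h1 : aeval z f = 0 := h0
    rw [← aeval_algebraMap_apply, hs, aeval_algHom_apply, aeval_algebraMap_apply, h1]
    simp
  obtain ⟨z₀, hz₀⟩ := E65.ram_sep (algebraMap P Ω) H ho fun g hg =>
    hI ⊥ inferInstance g fun z w h => by rw [inj (hg z w h), sub_self]; exact zero_mem _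
  have hst : MulAction.stabilizer (Ω ≃ₐ[B] Ω) z₀ ≤ H := fun g hg =>
    (hz₀ g z₀ ((congrArg _ (hg : g • z₀ = z₀).symm).trans (hs g z₀)) rfl).2
  have : (MulAction.stabilizer (Ω ≃ₐ[B] Ω) z₀).FiniteIndex := ⟨by
    rw [MulAction.index_stabilizer]
    exact ((Set.ncard_pos (horb z₀)).2 ⟨z₀, MulAction.mem_orbit_self _⟩).ne'⟩
  refine ⟨Subgroup.finiteIndex_of_le hst, fun a ha g hg => ?_⟩
  let C := FixedPoints.subalgebra B P H
  have hC : ∀ z : P, z ∈ C ↔ ∀ g ∈ (H : Set (Ω ≃ₐ[B] Ω)),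
      g (algebraMap P Ω z) = algebraMap P Ω z := fun z =>
    ⟨fun h g hg => (hs g z).symm.trans (congrArg _ (h ⟨g, hg⟩)),
      fun h g => inj ((hs g z).trans (h g g.2))⟩
  have hfix : ∀ g : Ω ≃ₐ[B] Ω, (∀ z ∈ C, g (algebraMap P Ω z) = algebraMap P Ω z) → g ∈ H :=
    fun g hg => by
      obtain ⟨h, e⟩ := EZ.zb_orbit H z₀ ((horb z₀).subset (MulAction.orbit_subgroup_subset _ _)) g
        fun c hc => inj ((hs g c).trans (hg c hc))
      have h1 : (h : Ω ≃ₐ[B] Ω)⁻¹ * g ∈ H := hst (by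
        rw [MulAction.mem_stabilizer_iff, mul_smul, e]; exact inv_smul_smul _ _)
      simpa using H.mul_mem h.2 h1
  have := E65.fix_normal _ C hC
  have : IsScalarTower B C Ω := .of_algebraMap_eq fun r => IsScalarTower.algebraMap_apply B P Ω r
  have : FaithfulSMul C Ω :=
    (faithfulSMul_iff_algebraMap_injective _ _).2 (inj.comp Subtype.val_injective)
  have hBC : Function.Injective (algebraMap B C) := by
    have := FaithfulSMul.algebraMap_injective B Ω
    rw [IsScalarTower.algebraMap_eq B C Ω, RingHom.coe_comp] at this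
    exact this.of_comp
  have : Algebra.IsAlgebraic C Ω := Algebra.IsAlgebraic.extendScalars (R := B) hBC
  have : Algebra.IsIntegral B C := ⟨fun x => (isIntegral_algHom_iff C.val
    Subtype.val_injective).1 (Algebra.IsIntegral.isIntegral _)⟩
  have : IsIntegralClosure P C Ω := IsIntegralClosure.tower_top (R := B)
  obtain ⟨h, hh⟩ := E65.trans (B := C) (Ω := Ω)
    ((Ideal.Quotient.mk a).comp (MulSemiringAction.toRingHom (Ω ≃ₐ[B] Ω) P g))
    (Ideal.Quotient.mk a) fun r =>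
      (Ideal.Quotient.eq (I := a)).2 (hg r _ ((hC _).1 r.2) (hs g r))
  have h2 : h.restrictScalars B ∈ H := hfix _ fun z hz => h.commutes ⟨z, hz⟩
  have h3 : g * h.restrictScalars B ∈ H := hI a ha _ fun z w hw => by
    obtain rfl : w = g • h.restrictScalars B • z := inj (by rw [hw, hs, hs]; rfl)
    exact Ideal.Quotient.eq.1 (hh z _ (hs _ _))
  simpa using H.mul_mem h3 (H.inv_mem h2)

end Finet

open Finet in
/-- An open normal subgroup that contains all inertia groups is cut out by a finite etale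
algebra. -/
theorem finet {B Ω : Type} [CommRing B] [IsDomain B] [IsIntegrallyClosed B] [Field Ω]
    [IsAlgClosed Ω] [Algebra B Ω] [FaithfulSMul B Ω] [Algebra.IsAlgebraic B Ω]
    (H : Subgroup (Ω ≃ₐ[B] Ω)) [H.Normal] (ho : Opn (· ∈ H)) (hu : Unr (· ∈ H)) :
    ∃ D : Subalgebra B Ω, Module.Finite B D ∧ Algebra.Etale B D ∧ IsIntegrallyClosed D ∧
      (∀ g : Ω ≃ₐ[B] Ω, (∀ z ∈ D, g z = z) ↔ g ∈ H) ∧ ∀ g : Ω ≃ₐ[B] Ω, ∀ z ∈ D, g z ∈ D := by
  classical
  obtain ⟨hfi, hH⟩ := inv (P := integralClosure B Ω) H ho fun a _ g hg => hu a g hg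
  let K := FractionRing B
  let := FractionRing.liftAlgebra B Ω
  have := FractionRing.isScalarTower_liftAlgebra B Ω
  have : Algebra.IsAlgebraic K Ω := (IsFractionRing.comap_isAlgebraic_iff (A := B)).1 ‹_›
  have : IsAlgClosure K Ω := ⟨‹_›, ‹_›⟩
  let D : Subalgebra B Ω :=
    { carrier := {z | IsIntegral B z ∧ z ∈ separableClosure K Ω ∧ ∀ h ∈ H, h z = z}
      mul_mem' := fun ha hb => ⟨ha.1.mul hb.1, mul_mem ha.2.1 hb.2.1, fun h hh => by
        rw [map_mul, ha.2.2 h hh, hb.2.2 h hh]⟩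
      add_mem' := fun ha hb => ⟨ha.1.add hb.1, add_mem ha.2.1 hb.2.1, fun h hh => by
        rw [map_add, ha.2.2 h hh, hb.2.2 h hh]⟩
      algebraMap_mem' := fun r => ⟨isIntegral_algebraMap, by
        rw [IsScalarTower.algebraMap_apply B K Ω]; exact IntermediateField.algebraMap_mem _ _,
        fun h _ => h.commutes r⟩ }
  have hst : ∀ g : Ω ≃ₐ[B] Ω, ∀ z ∈ D, g z ∈ D := fun g z hz =>
    ⟨hz.1.map g, mem_separableClosure_iff.2 ((AlgEquiv.isSeparable_iff
      (g.extendScalarsOfIsLocalization K (nonZeroDivisors B))).2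
        (mem_separableClosure_iff.1 hz.2.1)), fun h hh => by
      have := hz.2.2 _ (‹H.Normal›.conj_mem' h hh g)
      rw [AlgEquiv.mul_apply, AlgEquiv.mul_apply] at this
      exact (g.apply_symm_apply _).symm.trans (congrArg g this)⟩
  obtain ⟨q, hq⟩ := ExpChar.exists K
  have : ExpChar Ω q := expChar_of_injective_algebraMap (algebraMap K Ω).injective q
  have hq0 : ∀ n : ℕ, q ^ n ≠ 0 := fun n => (expChar_pow_pos K q n).ne'
  have hpow : ∀ z : Ω, IsIntegral B z → (∀ h ∈ H, h z = z) → ∃ n : ℕ, z ^ q ^ n ∈ D :=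
    fun z h1 h2 => by
      have : ExpChar (separableClosure K Ω) q :=
        expChar_of_injective_algebraMap (algebraMap K _).injective q
      obtain ⟨n, y, hy⟩ := IsPurelyInseparable.pow_mem (separableClosure K Ω) q z
      exact ⟨n, h1.pow _, hy ▸ y.2, fun h hh => by rw [map_pow, h2 h hh]⟩
  have hint : Algebra.IsIntegral B D :=
    ⟨fun x => (isIntegral_algHom_iff D.val Subtype.val_injective).1 x.2.1⟩
  let ι : D →ₐ[B] integralClosure B Ω := D.val.codRestrict _ fun x => x.2.1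
  have key : ∀ a : Ideal (integralClosure B Ω), a.IsPrime → ∀ g : Ω ≃ₐ[B] Ω,
      (∀ z : D, ι ⟨g z, hst g z z.2⟩ - ι z ∈ a) → g ∈ H := fun a ha g hg =>
    hH a ha g fun z w hz hw => by
      obtain ⟨n, hn⟩ := hpow z z.2 hz
      refine ha.mem_of_pow_mem (q ^ n) ?_
      convert hg ⟨_, hn⟩ using 1
      refine Subtype.ext ?_
      change ((w : Ω) - z) ^ q ^ n = g ((z : Ω) ^ q ^ n) - z ^ q ^ n
      rw [sub_pow_expChar_pow, map_pow, show (w : Ω) = g z from hw]
  let _ : MulSemiringAction (Ω ≃ₐ[B] Ω) D :=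
    { smul := fun g z => ⟨g z, hst g z z.2⟩
      one_smul := fun _ => rfl
      mul_smul := fun _ _ _ => rfl
      smul_zero := fun g => Subtype.ext (map_zero g)
      smul_add := fun g x y => Subtype.ext (map_add g _ _)
      smul_one := fun g => Subtype.ext (map_one g)
      smul_mul := fun g x y => Subtype.ext (map_mul g _ _) }
  have : SMulCommClass (Ω ≃ₐ[B] Ω) B D := ⟨fun g r z => Subtype.ext (map_smul g r (z : Ω))⟩
  let ρ := MulSemiringAction.toAlgAut (Ω ≃ₐ[B] Ω) B D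
  have hker : H ≤ ρ.ker := fun h hh => AlgEquiv.ext fun z => Subtype.ext (z.2.2.2 h hh)
  have : ρ.ker.FiniteIndex := Subgroup.finiteIndex_of_le hker
  have : Finite ρ.range := Finite.of_equiv _ (QuotientGroup.quotientKerEquivRange ρ).toEquiv
  have hBD : Function.Injective (algebraMap B D) := fun x y e =>
    FaithfulSMul.algebraMap_injective B Ω (congrArg Subtype.val e)
  obtain ⟨h1, h2⟩ := EZ.chr (Γ := ρ.range) (B := B) (C := D) (fun c hc => by
    obtain ⟨x, hx⟩ := sep_fix (mem_separableClosure_iff.1 c.2.2.1) fun σ =>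
      congrArg Subtype.val (hc ⟨_, σ.restrictScalars B, rfl⟩)
    have hi : IsIntegral B x := by
      rw [← isIntegral_algebraMap_iff (algebraMap K Ω).injective, hx]
      exact c.2.1
    obtain ⟨r, rfl⟩ := IsIntegrallyClosed.algebraMap_eq_of_integral hi
    exact ⟨r, Subtype.ext ((IsScalarTower.algebraMap_apply B K Ω r).trans hx)⟩) fun σ hσ => by
      obtain ⟨_, g, rfl⟩ := σ
      by_contra hne
      obtain ⟨m, hm, hle⟩ := Ideal.exists_le_maximal _ hne
      let _ := ι.toRingHom.toAlgebra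
      have : IsScalarTower B D (integralClosure B Ω) := .of_algebraMap_eq fun r => rfl
      have : Algebra.IsIntegral D (integralClosure B Ω) := Algebra.IsIntegral.tower_top B
      obtain ⟨a, ha, rfl⟩ := Ideal.exists_ideal_over_maximal_of_isIntegral
        (S := integralClosure B Ω) m (by
          intro x hx
          rw [show x = 0 from Subtype.ext (congrArg (fun t : integralClosure B Ω => (t : Ω)) hx)]
          exact zero_mem _)
      refine hσ (Subtype.ext (hker (key a ha.isPrime g fun z => ?_)))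
      have := a.neg_mem (hle (Ideal.subset_span ⟨z, rfl⟩))
      rwa [map_sub, neg_sub] at this
  have : FaithfulSMul B D := (faithfulSMul_iff_algebraMap_injective _ _).2 hBD
  have : Algebra.Unramified B D := ⟨h2, inferInstance⟩
  refine ⟨D, h1, E3.etale_of_unramified B D, ?_, fun g => ⟨fun hg => key ⊥ inferInstance g
    fun z => sub_eq_zero.2 (congrArg ι (Subtype.ext (hg z z.2))), fun hg z hz => hz.2.2 g hg⟩, hst⟩
  refine (isIntegrallyClosed_iff (FractionRing D)).2 fun {x} hx => ?_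
  have hj : Function.Injective D.val.toRingHom := Subtype.val_injective
  let f : FractionRing D →+* Ω := IsFractionRing.lift hj
  have hf : ∀ c : D, f (algebraMap D _ c) = c := IsFractionRing.lift_algebraMap hj
  have h3 : IsIntegral D (f x) :=
    IsIntegral.map_of_comp_eq (RingHom.id D) f (RingHom.ext fun c => (hf c).symm) hx
  obtain ⟨a, c, -, rfl⟩ := IsFractionRing.div_surjective (A := D) x
  refine ⟨⟨_, isIntegral_trans (R := B) _ h3, ?_, fun h hh => ?_⟩, f.injective (hf _)⟩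
  · rw [map_div₀, hf, hf]
    exact div_mem a.2.2.1 c.2.2.1
  · rw [map_div₀, hf, hf, map_div₀, a.2.2.2 h hh, c.2.2.2 h hh]

end Pool.Agent.MP_855f4c_ag.E4

end

section

set_option autoImplicit false
set_option backward.isDefEq.respectTransparency false

open CategoryTheory Limits Opposite AlgebraicGeometry

namespace Pool.Agent.MP_855f4c_ag.E4

open E E3 TensorProduct

/-- The identity of `Spec B`. -/
noncomputable abbrev uB (B : Type) [CommRing B] : Spec (.of B) ⟶ Spec (.of B) := 𝟙 _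

namespace Gs

lemma comp_left_apply {X : Scheme.{0}} {T U V : Over X} (f : T ⟶ U) (g : U ⟶ V) (x : T.left) :
    g.left (f.left x) = (f ≫ g).left x := by
  rw [Over.comp_left, Scheme.Hom.comp_apply]

section key
variable {M : Type 1} {A D k : Type} [CommRing A] [CommRing D] [Algebra A D]
  [Algebra.IsIntegral A D] [Field k] [IsAlgClosed k] [Algebra A k]

/-- The kernel as a point. -/
def kp {D k F : Type} [CommRing D] [CommRing k] [IsDomain k] [FunLike F D k] [RingHomClass F D k]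
    (τ : F) : PrimeSpectrum D := ⟨RingHom.ker τ, RingHom.ker_isPrime τ⟩

lemma exists_kp [IsLocalRing A] (hk : RingHom.ker (algebraMap A k) = IsLocalRing.maximalIdeal A)
    (x : PrimeSpectrum D) : ∃ τ : D →ₐ[A] k, x ≤ kp τ := by
  obtain ⟨m, hm, h⟩ := x.asIdeal.exists_le_maximal x.isPrime.ne_top
  obtain ⟨τ, hτ⟩ := exists_point (R := A) (M := k) m (hk ▸ IsLocalRing.eq_maximalIdeal
    (Ideal.isMaximal_comap_of_isIntegral_of_isMaximal m))
  exact ⟨τ, h.trans_eq hτ.symm⟩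

lemma lc_of_kp [SHL A] (hk : RingHom.ker (algebraMap A k) = IsLocalRing.maximalIdeal A)
    (F : (D →ₐ[A] k) → M)
    (hF : ∀ τ, ∃ s : Finset D, ∀ τ' : D →ₐ[A] k, (∀ a ∈ s, τ' a = τ a) → F τ' = F τ) :
    ∃ f : LocallyConstant (PrimeSpectrum D) M, ∀ τ, f (kp τ) = F τ := by
  choose t ht using exists_kp (D := D) hk
  have key : ∀ τ : D →ₐ[A] k, ∃ e : D, e ∉ (kp τ).asIdeal ∧
      ∀ y : PrimeSpectrum D, e ∉ y.asIdeal → F (t y) = F τ := fun τ => by
    obtain ⟨s, hs⟩ := hF τ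
    obtain ⟨e, he, h1, h2⟩ := idem hk s τ
    refine ⟨e, fun h => one_ne_zero (h1.symm.trans h), fun y hy => hs _ (h2 _ fun h => ?_)⟩
    have h3 : t y (1 - e) = 0 := ht y ((y.isPrime.mem_or_mem
      (he.one_sub_mul_self ▸ y.asIdeal.zero_mem : (1 - e) * e ∈ y.asIdeal)).resolve_right hy)
    simp [h] at h3
  refine ⟨⟨fun x => F (t x), (IsLocallyConstant.iff_exists_open _).2 fun x => ?_⟩, fun τ => ?_⟩
  · obtain ⟨e, h1, h2⟩ := key (t x)
    exact ⟨_, (PrimeSpectrum.basicOpen e).2, fun h => h1 (ht x h), h2⟩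
  · obtain ⟨e, h1, h2⟩ := key τ
    exact h2 _ h1

end key

lemma prod_pb {X : Scheme.{0}} (T Y : Over X) :
    IsPullback (prod.fst : T ⨯ Y ⟶ T).left (prod.snd : T ⨯ Y ⟶ Y).left T.hom Y.hom :=
  Over.isPullback_of_binaryFan_isLimit (BinaryFan.mk prod.fst prod.snd) (prodIsProd T Y)

instance affProd {X : Scheme.{0}} [IsAffine X] (T Y : Over X) [IsAffine T.left] [IsAffine Y.left] :
    IsAffine (T ⨯ Y).left := .of_isIso (prod_pb T Y).isoPullback.hom

instance affOb {X : Scheme.{0}} {R A : Type} [CommRing R] (u : Spec (.of R) ⟶ X) [CommRing A]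
    [Algebra R A] : IsAffine (ob u A).left := inferInstanceAs (IsAffine (Spec _))

/-- Composition of etale algebras. -/
def etc {R A : Type} [CommRing R] [CommRing A] [Algebra R A] (E : EtA R A) (E' : EtA R E.E) :
    EtA R A :=
  letI : Algebra A E'.E := ((algebraMap E.E E'.E).comp (algebraMap A E.E)).toAlgebra
  haveI : IsScalarTower A E.E E'.E := .of_algebraMap_eq fun _ => rfl
  haveI : IsScalarTower R A E'.E := .of_algebraMap_eq fun r =>
    (IsScalarTower.algebraMap_apply R E.E E'.E r).trans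
      (congrArg _ (IsScalarTower.algebraMap_apply R A E.E r))
  haveI : Algebra.Etale A E'.E := .comp A E.E E'.E
  ⟨E'.E⟩

section rY
variable {X : Scheme.{0}} {M : Type 1} [AddCommGroup M] {Y T T' T'' : Over X}

/-- Restriction of functions on products. -/
noncomputable def rY (v : T' ⟶ T) :
    LocallyConstant (T ⨯ Y).left M →+ LocallyConstant (T' ⨯ Y).left M :=
  LocallyConstant.comapAddMonoidHom (cm (prod.map v (𝟙 Y)))

lemma rY_rY (w : T'' ⟶ T') (v : T' ⟶ T) (t : LocallyConstant (T ⨯ Y).left M) :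
    rY w (rY v t) = rY (w ≫ v) t :=
  (res_res (lcP X M) (prod.map w (𝟙 Y)) (prod.map v (𝟙 Y)) t).trans
    (by rw [← prod.map_comp_id]; rfl)

lemma lcY_lfp [IsAffine X] (Y : Over X) [IsAffine Y.left] {I : Type} [SmallCategory I]
    [IsCofiltered I] {D : I ⥤ Over X} {c : Cone D} (hA : ∀ i, IsAffine (D.obj i).left)
    (hc : IsLimit c) :
    (∀ s : LocallyConstant (c.pt ⨯ Y).left M, ∃ i t, rY (pr c i) t = s) ∧
      ∀ i (t : LocallyConstant (D.obj i ⨯ Y).left M), rY (pr c i) t = 0 →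
        ∃ (j : I) (f : j ⟶ i), rY (D.map f) t = 0 := by
  have := IsCofiltered.isConnected I
  have := prod_preservesConnectedLimits (J := I) Y
  have : PreservesLimitsOfShape I (prod.functor.flip.obj Y) :=
    preservesLimitsOfShape_of_natIso (F := prod.functor.obj Y)
      (NatIso.ofComponents fun T => prod.braiding Y T)
  exact lc_lfp _ M I (D ⋙ prod.functor.flip.obj Y) _
    (fun i => (inferInstance : IsAffine (D.obj i ⨯ Y).left)) (isLimitOfPreserves _ hc)

end rY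

section tw
variable {M : Type 1} [AddCommGroup M] {B : Type} [CommRing B] (A P : Type) [CommRing A]
  [Algebra B A] [CommRing P] [Algebra B P] {k : Type} [CommRing k] [IsDomain k] [Algebra B k]

/-- The spectrum of the tensor product is the product. -/
noncomputable def tw : ob (uB B) (A ⊗[B] P) ⟶ ob (uB B) A ⨯ ob (uB B) P :=
  prod.lift (hm _ Algebra.TensorProduct.includeLeft) (hm _ Algebra.TensorProduct.includeRight)

instance twIso : IsIso (tw (B := B) A P) := by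
  refine isIso_homMk _ ?_
  have h1 := prod_pb (ob (uB B) A) (ob (uB B) P)
  have h2 := isPullback_SpecMap_of_isPushout _ _ _ _ (CommRingCat.isPushout_tensorProduct B A P)
  simp only [Over.mk_hom, Category.comp_id] at h1
  have : (tw (B := B) A P).left = (h2.isoIsPullback _ _ h1).hom := h1.hom_ext
    ((congrArg Over.Hom.left (prod.lift_fst _ _)).trans (h2.isoIsPullback_hom_fst _ _ h1).symm)
    ((congrArg Over.Hom.left (prod.lift_snd _ _)).trans (h2.isoIsPullback_hom_snd _ _ h1).symm)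
  rw [this]
  infer_instance

lemma iso_surj {X : Scheme.{0}} {T U : Over X} (f : T ⟶ U) [IsIso f] (x : U.left) :
    ∃ y, f.left y = x := ⟨(inv f).left x, by rw [comp_left_apply]; simp⟩

variable {A P}

/-- The point of the product attached to a pair of points. -/
noncomputable def pnt {T : Over (Spec (.of B))} (t : ob (uB B) k ⟶ T) (b : P →ₐ[B] k) :
    (T ⨯ ob (uB B) P).left := (prod.lift t (hm (uB B) b)).left (⊥ : PrimeSpectrum k)

lemma map_pnt {T T' : Over (Spec (.of B))} (t : ob (uB B) k ⟶ T) (b : P →ₐ[B] k) (s : T ⟶ T')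
    (g : P →ₐ[B] P) : (prod.map s (hm (uB B) g)).left (pnt t b) = pnt (t ≫ s) (b.comp g) := by
  rw [pnt, comp_left_apply, prod.lift_map, ← hm_comp, pnt]

lemma map_pnt' {T T' : Over (Spec (.of B))} (t : ob (uB B) k ⟶ T) (b : P →ₐ[B] k) (s : T ⟶ T') :
    (prod.map s (𝟙 _)).left (pnt t b) = pnt (t ≫ s) b := by
  rw [← hm_id, map_pnt, AlgHom.comp_id]

lemma tw_kp (τ : A ⊗[B] P →ₐ[B] k) : (tw A P).left (kp τ) =
    pnt (hm (uB B) (τ.comp Algebra.TensorProduct.includeLeft))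
      (τ.comp Algebra.TensorProduct.includeRight) := by
  rw [pnt, hm_comp, hm_comp, ← prod.comp_lift, ← comp_left_apply]
  rfl

/-- The map out of the tensor product. -/
noncomputable abbrev tl (a : A →ₐ[B] k) (b : P →ₐ[B] k) : A ⊗[B] P →ₐ[B] k :=
  Algebra.TensorProduct.lift a b fun _ _ => .all _ _

lemma tw_tl (a : A →ₐ[B] k) (b : P →ₐ[B] k) :
    (tw A P).left (kp (tl a b)) = pnt (hm (uB B) a) b := by
  rw [tw_kp, Algebra.TensorProduct.lift_comp_includeLeft,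
    Algebra.TensorProduct.lift_comp_includeRight']

lemma exists_obB (T : Over (Spec (.of B))) [IsAffine T.left] :
    ∃ (A : Type) (_ : CommRing A) (_ : Algebra B A), Nonempty (ob (uB B) A ≅ T) := by
  obtain ⟨φ, hφ⟩ := Spec.map_surjective (T.left.isoSpec.inv ≫ T.hom)
  let := φ.hom.toAlgebra
  exact ⟨Γ(T.left, ⊤), inferInstance, inferInstance, ⟨Over.isoMk T.left.isoSpec.symm
    (hφ.symm.trans (Category.comp_id _).symm)⟩⟩

lemma hm_surj {C : Type} [CommRing C] [Algebra B C] (t : ob (uB B) C ⟶ ob (uB B) A) :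
    ∃ a : A →ₐ[B] C, hm (uB B) a = t := by
  obtain ⟨φ, hφ⟩ := Spec.map_surjective t.left
  have h := Over.w t
  simp only [Over.mk_hom, Category.comp_id, ← hφ, ← Spec.map_comp] at h
  exact ⟨⟨φ.hom, fun x => congr(($(Spec.map_injective h)).hom x)⟩, Over.OverMorphism.ext hφ⟩

/-- Every point of the product is attached to a pair of points. -/
lemma pnt_surj {T : Over (Spec (.of B))} [IsAffine T.left] (x : (T ⨯ ob (uB B) P).left) :
    ∃ (k : Type) (_ : CommRing k) (_ : IsDomain k) (_ : Algebra B k) (t : ob (uB B) k ⟶ T)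
      (b : P →ₐ[B] k), pnt t b = x := by
  obtain ⟨A, _, _, ⟨e⟩⟩ := exists_obB T
  obtain ⟨y, rfl⟩ := iso_surj (tw A P ≫ prod.map e.hom (𝟙 _)) x
  let y' : PrimeSpectrum (A ⊗[B] P) := y
  have : kp (Ideal.Quotient.mkₐ B y'.asIdeal) = y := PrimeSpectrum.ext Ideal.mk_ker
  exact ⟨_, _, inferInstance, _, _, _, by rw [← comp_left_apply, ← this, tw_kp, map_pnt']⟩

/-- A locally constant function depends on finitely many coordinates. -/
lemma lc_fin {T : Over (Spec (.of B))} [IsAffine T.left]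
    (f : LocallyConstant (T ⨯ ob (uB B) P).left M) :
    ∃ s : Finset P, ∀ (k : Type) [CommRing k] [IsDomain k] [Algebra B k] (t : ob (uB B) k ⟶ T)
      (b b' : P →ₐ[B] k), (∀ z ∈ s, b' z = b z) → f (pnt t b') = f (pnt t b) := by
  classical
  obtain ⟨A, _, _, ⟨e⟩⟩ := exists_obB T
  let w := tw A P ≫ prod.map e.hom (𝟙 _)
  have hw : ∀ (k : Type) [CommRing k] [IsDomain k] [Algebra B k] (a : A →ₐ[B] k) (b : P →ₐ[B] k),
      w.left (kp (tl a b)) = pnt (hm _ a ≫ e.hom) b := fun k _ _ _ a b => by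
    rw [← comp_left_apply, tw_tl, map_pnt']
  suffices ∃ s : Finset P, ∀ (k : Type) [CommRing k] [IsDomain k] [Algebra B k] (a : A →ₐ[B] k)
      (b b' : P →ₐ[B] k), (∀ z ∈ s, b' z = b z) →
      f.comap (cm w) (kp (tl a b')) = f.comap (cm w) (kp (tl a b)) by
    obtain ⟨s, hs⟩ := this
    refine ⟨s, fun k _ _ _ t b b' h => ?_⟩
    obtain ⟨a, ha⟩ := hm_surj (t ≫ e.inv)
    have := hs k a b b' h
    change f (w.left _) = f (w.left _) at this
    rwa [hw, hw, ha, Category.assoc, e.inv_hom_id, Category.comp_id] at this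
  generalize f.comap (cm w) = f
  refine lc_ind (Z := PrimeSpectrum (A ⊗[B] P)) f (fun f => ∃ s : Finset P, ∀ (k : Type)
    [CommRing k] [IsDomain k] [Algebra B k] (a : A →ₐ[B] k) (b b' : P →ₐ[B] k),
    (∀ z ∈ s, b' z = b z) → f (kp (tl a b')) = f (kp (tl a b))) ⟨∅, fun _ _ _ _ _ _ _ _ => rfl⟩
    ?_ fun z => ?_
  · rintro f g ⟨s, hs⟩ ⟨s', hs'⟩
    exact ⟨s ∪ s', fun k _ _ _ a b b' h => congrArg₂ (· + ·)
      (hs k a b b' fun z hz => h z (by simp [hz])) (hs' k a b b' fun z hz => h z (by simp [hz]))⟩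
  · obtain ⟨ε, -, hε⟩ := PrimeSpectrum.isClopen_iff.1 (f.isLocallyConstant.isClopen_fiber (f z))
    obtain ⟨S, rfl⟩ := TensorProduct.exists_finset ε
    refine ⟨S.image Prod.snd, fun k _ _ _ a b b' h => ?_⟩
    have : tl a b' (∑ i ∈ S, i.1 ⊗ₜ i.2) = tl a b (∑ i ∈ S, i.1 ⊗ₜ i.2) := by
      rw [map_sum, map_sum]
      exact Finset.sum_congr rfl fun i hi => by simp [h i.2 (Finset.mem_image_of_mem _ hi)]
    exact if_congr ((Set.ext_iff.1 hε _).trans (Iff.trans (congrArg (· ≠ 0) this).to_iff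
      (Set.ext_iff.1 hε (kp (tl a b))).symm)) rfl rfl

variable [Algebra.IsIntegral B P] {k : Type} [Field k] [IsAlgClosed k] [Algebra B k]
  (a : A →ₐ[B] k)

lemma lc_zero [IsLocalRing A] (ha : RingHom.ker a = IsLocalRing.maximalIdeal A)
    (f : LocallyConstant (ob (uB B) A ⨯ ob (uB B) P).left M) (h : ∀ b, f (pnt (hm _ a) b) = 0) :
    f = 0 := LocallyConstant.ext fun x => by
  let := a.toRingHom.toAlgebra
  have : IsScalarTower B A k := .of_algebraMap_eq fun x => (a.commutes x).symm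
  obtain ⟨y, rfl⟩ := iso_surj (tw A P) x
  obtain ⟨τ, hτ⟩ := exists_kp (A := A) (k := k) ha y
  have e : (τ.restrictScalars B).comp Algebra.TensorProduct.includeLeft = a :=
    AlgHom.ext τ.commutes
  refine (lc_spec (f.comap (cm (tw A P))) ((PrimeSpectrum.le_iff_specializes _ _).1 hτ)).trans ?_
  exact (congrArg f (tw_kp (τ.restrictScalars B))).trans (e ▸ h _)

omit [AddCommGroup M] in
lemma lc_ex [SHL A] (ha : RingHom.ker a = IsLocalRing.maximalIdeal A) (F : (P →ₐ[B] k) → M)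
    (hF : ∀ b, ∃ s : Finset P, ∀ b' : P →ₐ[B] k, (∀ z ∈ s, b' z = b z) → F b' = F b) :
    ∃ f : LocallyConstant (ob (uB B) A ⨯ ob (uB B) P).left M, ∀ b, f (pnt (hm _ a) b) = F b := by
  classical
  let := a.toRingHom.toAlgebra
  have : IsScalarTower B A k := .of_algebraMap_eq fun x => (a.commutes x).symm
  obtain ⟨f, hf⟩ := lc_of_kp (A := A) (D := A ⊗[B] P) (k := k) ha
    (fun τ => F ((τ.restrictScalars B).comp Algebra.TensorProduct.includeRight)) fun τ => by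
      obtain ⟨s, hs⟩ := hF ((τ.restrictScalars B).comp Algebra.TensorProduct.includeRight)
      exact ⟨s.image (1 ⊗ₜ ·), fun τ' h => hs _ fun z hz => h _ (Finset.mem_image_of_mem _ hz)⟩
  refine ⟨f.comap (cm (inv (tw A P))), fun b => ?_⟩
  have := hf (Algebra.TensorProduct.lift (Algebra.ofId A k) b fun _ _ => .all _ _)
  rw [Algebra.TensorProduct.lift_comp_includeRight] at this
  rw [← this, ← tw_tl]
  change f ((inv (tw A P)).left _) = _
  rw [comp_left_apply, IsIso.hom_inv_id]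
  rfl

end tw

end Gs

open Gs

theorem gsh_isSheaf {X : Scheme.{0}} {M : Type 1} [AddCommGroup M] (Y : Over X) {G : Type}
    (a : G → (Y ⟶ Y)) (ρ : G → M →+ M) : Presheaf.IsSheaf (Scheme.etaleTopology.over X) (gshP Y a ρ) := by
  refine isSheaf_of_type fun T S hS x hx => ?_
  let x' : ∀ {Z : Over X} (y : Z ⟶ T), S y → gshSub Y a ρ Z := fun y hy => x y hy
  have key : ∀ {Z Z' : Over X} (y : Z ⟶ T) (y' : Z' ⟶ T) (hy : S y) (hy' : S y') {W : Over X}
      (p : W ⟶ Z ⨯ Y) (p' : W ⟶ Z' ⨯ Y), p ≫ prod.fst ≫ y = p' ≫ prod.fst ≫ y' →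
      p ≫ prod.snd = p' ≫ prod.snd → ∀ w, (x' y hy).1 (p.left w) = (x' y' hy').1 (p'.left w) := by
    intro Z Z' y y' hy hy' W p p' h1 h2 w
    have := LocallyConstant.congr_fun (congrArg Subtype.val (hx (p ≫ prod.fst) (p' ≫ prod.fst)
      hy hy' (by simpa using h1))) ((prod.lift (𝟙 W) (p ≫ prod.snd)).left w)
    change (x' y hy).1 ((prod.map (p ≫ prod.fst) (𝟙 Y)).left _) =
      (x' _ hy').1 ((prod.map (p' ≫ prod.fst) (𝟙 Y)).left _) at this
    rwa [comp_left_apply, comp_left_apply, show _ ≫ prod.map (p ≫ _) _ = p by ext1 <;> simp,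
      show _ ≫ prod.map (p' ≫ _) _ = p' by ext1 <;> simp [h2]] at this
  obtain ⟨t, ht⟩ := glue (lc_isSheaf X M) (U := T ⨯ Y)
    (fun Z y s => ∃ h : S (y ≫ prod.fst),
      s = (x' _ h).1.comap (cm (prod.lift (𝟙 Z) (y ≫ prod.snd))))
    (S.pullback prod.fst) ((Scheme.etaleTopology.over X).pullback_stable _ hS) (fun Z y hy => ⟨_, hy, rfl⟩)
    (by
      rintro W Z g y _ ⟨h, rfl⟩
      refine ⟨by rw [Category.assoc]; exact S.downward_closed h g, LocallyConstant.ext fun w => ?_⟩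
      change (x' _ h).1 ((prod.lift (𝟙 Z) (y ≫ prod.snd)).left (g.left w)) = _
      rw [comp_left_apply]
      exact key _ _ _ _ _ _ (by simp) (by simp) w)
    (by rintro Z y _ _ ⟨h, rfl⟩ ⟨h', rfl⟩; rfl)
  let t' : LocallyConstant (T ⨯ Y).left M := t
  have ht' : ∀ {Z : Over X} (y : Z ⟶ T) (hy : S y) w,
      t' ((prod.map y (𝟙 Y)).left w) = (x' y hy).1 w := fun {Z} y hy w => by
    have h : S (prod.map y (𝟙 Y) ≫ prod.fst) := by
      rw [prod.map_fst]; exact S.downward_closed hy _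
    refine (LocallyConstant.congr_fun (ht _ _ ⟨h, rfl⟩) w).trans
      ((key _ y h hy _ (𝟙 _) (by simp) (by simp) w).trans ?_)
    simp
  have loc : ∀ w : (T ⨯ Y).left, ∃ (Z : Over X) (y : Z ⟶ T) (_ : S y) (z : (Z ⨯ Y).left),
      (prod.map y (𝟙 Y)).left z = w := fun w => by
    obtain ⟨V, v, -, -, hv, z, rfl⟩ :=
      exists_of_mem_Jov ((Scheme.etaleTopology.over X).pullback_stable (prod.fst : T ⨯ Y ⟶ T) hS) w
    refine ⟨V, _, hv, (prod.lift (𝟙 V) (v ≫ prod.snd)).left z, ?_⟩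
    rw [comp_left_apply, show _ ≫ prod.map _ _ = v by ext1 <;> simp]
  refine ⟨⟨t', fun g w => ?_⟩, fun Z y hy => Subtype.ext (LocallyConstant.ext (ht' y hy)),
    fun f hf => Subtype.ext (LocallyConstant.ext fun w => ?_)⟩
  · obtain ⟨Z, y, hy, z, rfl⟩ := loc w
    rw [ht' y hy, ← (x' y hy).2 g z, ← ht' y hy, comp_left_apply, comp_left_apply]
    simp
  · obtain ⟨Z, y, hy, z, rfl⟩ := loc w
    exact (LocallyConstant.congr_fun (congrArg Subtype.val (hf y hy)) z).trans (ht' y hy z).symm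

variable {B : Type} [CommRing B] {Ω : Type} [Field Ω] [Algebra B Ω]
  {M M' M'' : Type 1} [AddCommGroup M] [AddCommGroup M'] [AddCommGroup M'']

/-- The action on the integral closure. -/
noncomputable abbrev icm (g : Ω ≃ₐ[B] Ω) : integralClosure B Ω →ₐ[B] integralClosure B Ω :=
  (g : Ω →ₐ[B] Ω).mapIntegralClosure

variable (ρ : (Ω ≃ₐ[B] Ω) →* AddMonoid.End M) (ρ' : (Ω ≃ₐ[B] Ω) →* AddMonoid.End M')
  (ρ'' : (Ω ≃ₐ[B] Ω) →* AddMonoid.End M'')

/-- The sheaf attached to a Galois module. -/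
noncomputable def gsh : Sh (Scheme.etaleTopology.over (Spec (.of B))) :=
  ⟨gshP (ob (uB B) (integralClosure B Ω)) (fun g => hm (uB B) (icm g)) (fun g => ρ g),
    gsh_isSheaf _ _ _⟩

/-- Discrete modules. -/
def Disc : Prop := ∀ m, Opn fun g => ρ g m = m

/-- Unramified modules. -/
def Unram : Prop := ∀ m, Unr fun g => ρ g m = m

/-- The value of a section at a point of the integral closure. -/
noncomputable def ev {C : Type} [CommRing C] [IsDomain C] [Algebra B C]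
    (b : integralClosure B Ω →ₐ[B] C) : (gsh ρ).obj.obj (op (ob (uB B) C)) →+ M where
  toFun f := f.1 ((prod.lift (𝟙 (ob (uB B) C)) (hm (uB B) b)).left (⊥ : PrimeSpectrum C))
  map_zero' := rfl
  map_add' _ _ := rfl

section G3
variable {C C' : Type} [CommRing C] [IsDomain C] [Algebra B C] [CommRing C'] [IsDomain C']
  [Algebra B C'] (b : integralClosure B Ω →ₐ[B] C)

theorem ev_rs (ψ : C →ₐ[B] C') (f) :
    ev ρ (ψ.comp b) (rs (uB B) (gsh ρ).obj ψ f) = ev ρ b f := by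
  change f.1 ((prod.map (hm _ ψ) (𝟙 _)).left (pnt (𝟙 _) _)) = _
  rw [map_pnt', pnt, hm_comp, Category.id_comp, ← Category.comp_id (hm _ ψ), Category.assoc,
    Category.id_comp, ← prod.comp_lift, ← comp_left_apply]
  exact (lc_spec (Z := PrimeSpectrum C) (f.1.comap (cm (prod.lift (𝟙 _) (hm (uB B) b))))
    ((PrimeSpectrum.le_iff_specializes _ _).1 bot_le)).symm

lemma gsh_pnt {T : Over (Spec (.of B))} (f : (gsh ρ).obj.obj (op T)) (t : ob (uB B) C ⟶ T)
    (g : Ω ≃ₐ[B] Ω) : ρ g (f.1 (pnt t (b.comp (icm g)))) = f.1 (pnt t b) := by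
  have := f.2 g (pnt t b)
  rwa [map_pnt, Category.comp_id] at this

lemma Gs.rs_pnt {A : Type} [CommRing A] [Algebra B A] (a : A →ₐ[B] C) (f) :
    ev ρ b (rs (uB B) (gsh ρ).obj a f) = f.1 (pnt (hm _ a) b) :=
  congrArg f.1 ((map_pnt' (𝟙 _) b (hm _ a)).trans (by rw [Category.id_comp]))

theorem ev_icm (g : Ω ≃ₐ[B] Ω) (f) : ρ g (ev ρ (b.comp (icm g)) f) = ev ρ b f :=
  gsh_pnt ρ b f _ g

theorem ev_gal (g : Ω ≃ₐ[B] Ω) (f) :
    ev ρ (integralClosure B Ω).val (gal (uB B) Ω (gsh ρ).obj g f) =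
      ρ g (ev ρ (integralClosure B Ω).val f) := by
  rw [← ev_icm ρ _ g, ← ev_rs ρ _ (g : Ω →ₐ[B] Ω) f]
  rfl
end G3

section G4
variable {ρ ρ' ρ''}

/-- Functoriality in the module. -/
noncomputable def gshMap (φ : M →+ M') (hφ : ∀ g m, φ (ρ g m) = ρ' g (φ m)) : gsh ρ ⟶ gsh ρ' :=
  ⟨{ app T := AddCommGrpCat.ofHom (((lcPost _ φ).comp (AddSubgroup.subtype _)).codRestrict _
      fun f g x => (hφ g _).symm.trans (congrArg φ (f.2 g x))) }⟩

theorem gshMap_id (h) : gshMap (ρ := ρ) (AddMonoidHom.id M) h = 𝟙 _ := rfl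

theorem gshMap_comp (φ : M →+ M') (hφ : ∀ g m, φ (ρ g m) = ρ' g (φ m)) (ψ : M' →+ M'')
    (hψ : ∀ g m, ψ (ρ' g m) = ρ'' g (ψ m)) (h) :
    gshMap φ hφ ≫ gshMap ψ hψ = gshMap (ψ.comp φ) h := rfl

theorem gshMap_add (φ ψ : M →+ M') (hφ : ∀ g m, φ (ρ g m) = ρ' g (φ m))
    (hψ : ∀ g m, ψ (ρ g m) = ρ' g (ψ m)) (h) :
    gshMap φ hφ + gshMap ψ hψ = gshMap (φ + ψ) h := rfl

theorem gshMap_zero (h) : gshMap (ρ := ρ) (ρ' := ρ') 0 h = 0 := rfl

theorem ev_gshMap (φ : M →+ M') (hφ : ∀ g m, φ (ρ g m) = ρ' g (φ m)) {C : Type} [CommRing C]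
    [IsDomain C] [Algebra B C] (b : integralClosure B Ω →ₐ[B] C) (f) :
    ev ρ' b ((gshMap φ hφ).hom.app _ f) = φ (ev ρ b f) := rfl

theorem gshMap_mono (φ : M →+ M') (hφ : ∀ g m, φ (ρ g m) = ρ' g (φ m))
    (h : Function.Injective φ) : Mono (gshMap φ hφ) := by
  have : ∀ T, Mono ((gshMap φ hφ).hom.app T) := fun T =>
    (AddCommGrpCat.mono_iff_injective _).2 fun f f' e => Subtype.ext (LocallyConstant.ext fun x =>
      h (LocallyConstant.congr_fun (congrArg Subtype.val e) x))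
  have : Mono ((sheafToPresheaf _ _).map (gshMap φ hφ)) := NatTrans.mono_of_mono_app
    (gshMap φ hφ).hom
  exact (sheafToPresheaf _ _).mono_of_mono_map this

theorem gshMap_exact (φ : M →+ M') (hφ : ∀ g m, φ (ρ g m) = ρ' g (φ m)) (ψ : M' →+ M'')
    (hψ : ∀ g m, ψ (ρ' g m) = ρ'' g (ψ m)) (h : Function.Injective φ) (he : Function.Exact φ ψ)
    (w : gshMap φ hφ ≫ gshMap ψ hψ = 0) : (ShortComplex.mk _ _ w).Exact := by
  refine (sheafToPresheaf _ _).reflects_exact_of_faithful _ (exact_psh _ fun T y hy => ?_)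
  have h1 : ∀ x, φ (Function.invFun φ (y.1 x)) = y.1 x := fun x => Function.invFun_eq
    ((he _).1 (LocallyConstant.congr_fun (congrArg Subtype.val hy) x))
  exact ⟨⟨y.1.map (Function.invFun φ), fun g x => h ((hφ _ _).trans
    ((congrArg (ρ' g) (h1 _)).trans ((y.2 g x).trans (h1 x).symm)))⟩,
    Subtype.ext (LocallyConstant.ext h1)⟩

theorem gshMap_w (φ : M →+ M') (hφ : ∀ g m, φ (ρ g m) = ρ' g (φ m)) (ψ : M' →+ M'')
    (hψ : ∀ g m, ψ (ρ' g m) = ρ'' g (ψ m)) (he : Function.Exact φ ψ) :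
    gshMap φ hφ ≫ gshMap ψ hψ = 0 := by
  ext T f
  exact Subtype.ext (LocallyConstant.ext fun x => he.apply_apply_eq_zero _)
end G4

theorem gsh_tor (l : ℕ) (h : ∀ m : M, ∃ n : ℕ, l ^ n • m = 0) : Tor l (gsh ρ).obj :=
  fun T _ s => (lc_tors (Z := (T ⨯ ob (uB B) (integralClosure B Ω)).left) h s.1).imp
    fun _ => Subtype.ext

/-- G7. -/
theorem ev_base_inj : Function.Injective fun f => ev ρ (integralClosure B Ω).val
    (rs (uB B) (gsh ρ).obj (Algebra.ofId B Ω) f) := by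
  refine (injective_iff_map_eq_zero ((ev ρ _).comp (rs (uB B) (gsh ρ).obj _))).2 fun f h =>
    Subtype.ext (LocallyConstant.ext fun x => ?_)
  obtain ⟨k, _, _, _, t, b, rfl⟩ := pnt_surj (T := ob (uB B) B) x
  obtain ⟨a, rfl⟩ := hm_surj t
  have h1 := ev_rs ρ (AlgHom.id B _) (integralClosure B Ω).val
    (rs (uB B) (gsh ρ).obj (Algebra.ofId B _) f)
  have h2 := ev_rs ρ (AlgHom.id B _) b (rs (uB B) (gsh ρ).obj (Algebra.ofId B _) f)
  rw [rs_rs, AlgHom.comp_id] at h1 h2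
  rw [Subsingleton.elim (b.comp _) a, rs_pnt, ← h1, Subsingleton.elim (AlgHom.comp _ _)
    (Algebra.ofId B Ω)] at h2
  exact h2.trans h

theorem ev_base_range (m : M) : (∃ f, ev ρ (integralClosure B Ω).val
    (rs (uB B) (gsh ρ).obj (Algebra.ofId B Ω) f) = m) ↔ ∀ g, ρ g m = m := by
  refine ⟨?_, fun h => ⟨⟨LocallyConstant.const _ m, fun g _ => h g⟩, rfl⟩⟩
  rintro ⟨f, rfl⟩ g
  rw [← ev_gal]
  exact congrArg _ ((rs_rs _ _ _ _ f).trans (rs_congr _ _ (Subsingleton.elim _ _) f))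

lemma Gs.rho_mul (g g' : Ω ≃ₐ[B] Ω) (m : M) : ρ (g * g') m = ρ g (ρ g' m) := by
  rw [map_mul]; rfl

lemma Gs.rho_one (m : M) : ρ 1 m = m := by rw [map_one]; rfl

section rig
variable {A k : Type} [CommRing A] [Algebra B A] [Field k] [IsAlgClosed k] [Algebra B k]
  (a : A →ₐ[B] k)

lemma gsh_ex [SHL A] (ha : RingHom.ker a = IsLocalRing.maximalIdeal A)
    (F : (integralClosure B Ω →ₐ[B] k) → M)
    (hF : ∀ b, ∃ s : Finset (integralClosure B Ω), ∀ b' : integralClosure B Ω →ₐ[B] k,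
      (∀ z ∈ s, b' z = b z) → F b' = F b) (hg : ∀ g b, ρ g (F (b.comp (icm g))) = F b) :
    ∃ f : (gsh ρ).obj.obj (op (ob (uB B) A)), ∀ b, f.1 (pnt (hm _ a) b) = F b := by
  obtain ⟨f, hf⟩ := lc_ex a ha F hF
  refine ⟨⟨f, fun g x => sub_eq_zero.1 (LocallyConstant.congr_fun (lc_zero a ha
    ((f.comap (cm (prod.map (𝟙 _) (hm _ (icm g))))).map (ρ g) - f) fun b => sub_eq_zero.2 ?_) x)⟩,
    hf⟩
  change ρ g (f ((prod.map (𝟙 _) (hm _ (icm g))).left _)) = _
  rw [map_pnt, Category.comp_id, hf, hf, hg]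

lemma Gs.aic_field (k : Type) [Field k] [IsAlgClosed k] : Aic k :=
  fun p _ h => IsAlgClosed.exists_root p fun h' =>
    h (Polynomial.natDegree_eq_zero_iff_degree_le_zero.2 h'.le)

lemma Gs.shl_field (k : Type) [Field k] [IsAlgClosed k] : SHL k := (aic_field k).shl

lemma Gs.ker_id : RingHom.ker (AlgHom.id B k) = IsLocalRing.maximalIdeal k :=
  (IsLocalRing.maximalIdeal_eq_bot (R := k)).symm

lemma gsh_ext (f : (gsh ρ).obj.obj (op (ob (uB B) k))) (h : ∀ b, ev ρ b f = 0) : f = 0 :=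
  Subtype.ext (lc_zero (AlgHom.id B k) ker_id f.1 fun b => hm_id (A := k) (uB B) ▸ h b)

lemma Gs.hom_spec {A : Type} [CommRing A] (a : Spec (.of A) ⟶ Spec (.of B)) :
    ∃ φ : B →+* A, a = Spec.map (CommRingCat.ofHom φ) ≫ uB B := by
  obtain ⟨φ, rfl⟩ := Spec.map_surjective a
  exact ⟨φ.hom, (Category.comp_id _).symm⟩

lemma gsh_rig (l : ℕ) : Rig l (gsh ρ).obj := by
  intro A k _ _ _ _ φ _ a b h _
  obtain ⟨a, rfl⟩ := hom_spec a
  obtain ⟨b, rfl⟩ := hom_spec b
  let := a.toAlgebra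
  let := b.toAlgebra
  obtain ⟨a, ha⟩ := hm_surj (B := B) (A := A) (C := k) (sph φ h)
  have h1 : (a : A →+* k) = φ := congr(($(Spec.map_injective (congrArg Over.Hom.left ha))).hom)
  have h2 : RingHom.ker a = IsLocalRing.maximalIdeal A := (congrArg RingHom.ker h1).trans (ker_eq_max φ)
  rw [← ha]
  refine ⟨(injective_iff_map_eq_zero (rs (uB B) (gsh ρ).obj a)).2 fun f hf => Subtype.ext
    (lc_zero a h2 f.1 fun b => by rw [← rs_pnt, hf, map_zero]), fun f => ?_⟩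
  obtain ⟨s, hs⟩ := lc_fin (T := ob (uB B) k) f.1
  obtain ⟨f', hf'⟩ := gsh_ex ρ a h2 (fun b => ev ρ b f) (fun b => ⟨s, fun b' => hs k _ b b'⟩)
    fun g b => ev_icm ρ b g f
  refine ⟨f', sub_eq_zero.1 (gsh_ext ρ _ fun b => ?_)⟩
  rw [map_sub, ← hf', ← rs_pnt]
  exact sub_self _

end rig

variable [IsDomain B] [FaithfulSMul B Ω] [Algebra.IsAlgebraic B Ω]

omit [IsDomain B] in
lemma Gs.fin_restr (E : Finset Ω) :
    (Set.range fun (g : Ω ≃ₐ[B] Ω) (e : E) => g e).Finite := by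
  choose p hp hp' using fun e : E => (Algebra.IsAlgebraic.isAlgebraic (R := B) (e : Ω))
  refine (Set.Finite.pi' fun e => (p e).rootSet_finite Ω).subset ?_
  rintro _ ⟨g, rfl⟩ e
  exact (Polynomial.mem_rootSet_of_injective (FaithfulSMul.algebraMap_injective B Ω) (hp e)).2
    (by rw [Polynomial.aeval_algHom_apply, hp', map_zero])

/-- The defect of equivariance. -/
noncomputable def Gs.dfc {T : Over (Spec (.of B))}
    (t : LocallyConstant (T ⨯ ob (uB B) (integralClosure B Ω)).left M) (g : Ω ≃ₐ[B] Ω) :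
    LocallyConstant (T ⨯ ob (uB B) (integralClosure B Ω)).left M :=
  (t.comap (cm (prod.map (𝟙 _) (hm _ (icm g))))).map (ρ g) - t

omit [IsDomain B] [FaithfulSMul B Ω] [Algebra.IsAlgebraic B Ω] in
lemma Gs.dfc_res {T T' : Over (Spec (.of B))} (v : T' ⟶ T) (t) (g : Ω ≃ₐ[B] Ω) :
    rY v (dfc ρ t g) = dfc ρ (rY v t) g := LocallyConstant.ext fun x => by
  change ρ g (t ((prod.map (𝟙 T) (hm _ (icm g))).left ((prod.map v (𝟙 _)).left x))) - _ =
    ρ g (t ((prod.map v (𝟙 _)).left ((prod.map (𝟙 T') (hm _ (icm g))).left x))) - _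
  rw [comp_left_apply, comp_left_apply, prod.map_swap]
  rfl

variable {ρ} in
omit [IsDomain B] [FaithfulSMul B Ω] [Algebra.IsAlgebraic B Ω] in
lemma Gs.dfc_fin (hD : Disc ρ) {T : Over (Spec (.of B))} [IsAffine T.left] (t) :
    ∃ E : Finset Ω, ∀ g h : Ω ≃ₐ[B] Ω, (∀ e ∈ E, g e = h e) →
      dfc ρ (T := T) t g = dfc ρ t h := by
  classical
  obtain ⟨z, hz⟩ := lc_fin t
  choose E hE using hD
  refine ⟨z.image Subtype.val ∪ t.range_finite.toFinset.biUnion E, fun g h e =>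
    LocallyConstant.ext fun x => ?_⟩
  obtain ⟨k, _, _, _, a, b, rfl⟩ := pnt_surj x
  change ρ g (t ((prod.map (𝟙 T) (hm _ (icm g))).left _)) - _ =
    ρ h (t ((prod.map (𝟙 T) (hm _ (icm h))).left _)) - _
  rw [map_pnt, map_pnt, hz k _ (b.comp (icm h)) (b.comp (icm g)) fun y hy => congrArg b
    (Subtype.ext (e _ (Finset.mem_union_left _ (Finset.mem_image_of_mem _ hy)))),
    ← mul_inv_cancel_left h g, map_mul ρ h]
  refine congrArg (ρ h · - _) (hE _ _ fun y hy => h.symm_apply_eq.2 (e _ ?_))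
  exact Finset.mem_union_right _ (Finset.mem_biUnion.2 ⟨_, by simp, hy⟩)

variable {ρ} in
omit [IsDomain B] in
lemma gsh_lfp (hD : Disc ρ) : LFP (gsh ρ).obj := by
  intro I _ _ D c hA hc
  obtain ⟨h1, h2⟩ := lcY_lfp (M := M) (ob (uB B) (integralClosure B Ω)) hA hc
  refine ⟨fun s => ?_, fun i t ht => (h2 i t.1 (congrArg Subtype.val ht)).imp fun j =>
    Exists.imp fun f => Subtype.ext⟩
  obtain ⟨i, t, ht⟩ := h1 s.1
  have : IsAffine (D.obj i).left := hA i
  obtain ⟨E, hE⟩ := dfc_fin hD t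
  have := (fin_restr (B := B) E).to_subtype
  obtain ⟨j, f, hf⟩ := common (ι := Set.range fun (g : Ω ≃ₐ[B] Ω) (e : E) => g e) i
    (fun l j f => rY (D.map f) (dfc ρ t l.2.choose) = 0)
    (fun l j k f g h => by rw [D.map_comp, ← rY_rY, h, map_zero])
    fun l => h2 i _ (by
      rw [dfc_res, ht]
      exact LocallyConstant.ext fun x => sub_eq_zero.2 (s.2 _ x))
  refine ⟨j, ⟨rY (D.map f) t, fun g x => ?_⟩, Subtype.ext ?_⟩
  · have h := hf ⟨_, g, rfl⟩
    rw [hE _ g fun e he => congr_fun (Exists.choose_spec (Set.mem_range_self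
      (f := fun (g : Ω ≃ₐ[B] Ω) (e : E) => g e) g)) ⟨e, he⟩, dfc_res] at h
    exact sub_eq_zero.1 (LocallyConstant.congr_fun h x)
  · exact (rY_rY (pr c j) _ t).trans (by rw [pr_w, ht])

variable {ρ} in
/-- G1. -/
theorem gsh_cc (hD : Disc ρ) (l : ℕ) : Cc l (gsh ρ) := ⟨gsh_lfp hD, gsh_rig ρ l⟩

variable [IsIntegrallyClosed B] [IsAlgClosed Ω]

section G2
variable {k : Type} [Field k] [IsAlgClosed k] [Algebra B k] (b : integralClosure B Ω →ₐ[B] k)

omit [IsAlgClosed k] in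
lemma Gs.orbit (b' : integralClosure B Ω →ₐ[B] k) : ∃ g, b.comp (icm g) = b' := by
  obtain ⟨g, hg⟩ := E65.trans (B := B) (P := integralClosure B Ω) (Ω := Ω) (b : _ →+* k) b'
    fun r => (b.commutes r).trans (b'.commutes r).symm
  exact ⟨g, AlgHom.ext fun z => hg z _ rfl⟩

theorem ev_inj : Function.Injective (ev ρ b) := by
  refine (injective_iff_map_eq_zero _).2 fun f h => gsh_ext ρ f fun b' => ?_
  obtain ⟨g, rfl⟩ := orbit b b'
  rw [← ev_icm ρ b g] at h
  have := congrArg (ρ g⁻¹) h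
  rwa [← rho_mul, inv_mul_cancel, rho_one, map_zero] at this

variable {ρ}

theorem ev_range (hD : Disc ρ) (m : M) :
    (∃ f, ev ρ b f = m) ↔ ∀ g, Ine (RingHom.ker b) g → ρ g m = m := by
  refine ⟨?_, fun h => ?_⟩
  · rintro ⟨f, rfl⟩ g hg
    have e : b.comp (icm g) = b := AlgHom.ext fun z =>
      sub_eq_zero.1 ((map_sub b _ _).symm.trans (hg z _ rfl))
    have := ev_icm ρ b g f
    rwa [e] at this
  have mul := rho_mul ρ
  have one := rho_one ρ
  let H : Subgroup (Ω ≃ₐ[B] Ω) :=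
    { carrier := {g | ρ g m = m}
      one_mem' := one m
      mul_mem' := fun {g g'} h h' => (mul _ _ _).trans ((congrArg (ρ g) h').trans h)
      inv_mem' := fun {g} h => by
        rw [Set.mem_ofPred_eq, ← (congrArg (ρ g⁻¹) h :), ← mul, inv_mul_cancel, one] }
  obtain ⟨z, hz⟩ := E65.ram_sep (B := B) (P := integralClosure B Ω) (b : _ →+* k) H (hD m)
    fun g hg => h g fun z w e => (map_sub b _ _).trans (sub_eq_zero.2 (hg z w e))
  have key : ∀ g g' : Ω ≃ₐ[B] Ω, b (icm g (icm g'⁻¹ z)) = b (icm g' (icm g'⁻¹ z)) →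
      ρ g⁻¹ m = ρ g'⁻¹ m := fun g g' e => by
    have h1 : ρ (g * g'⁻¹) m = m := (hz (g * g'⁻¹) _ rfl
      (e.trans (congrArg b (Subtype.ext (g'.apply_symm_apply z))))).2
    rw [← h1, ← mul, inv_mul_cancel_left, h1]
  choose γ hγ using orbit b
  have hF : ∀ g, ρ (γ (b.comp (icm g)))⁻¹ m = ρ g⁻¹ m := fun g =>
    key _ _ (DFunLike.congr_fun (hγ _) _)
  have := shl_field k
  obtain ⟨f, hf⟩ := gsh_ex ρ (AlgHom.id B k) ker_id (fun b' => ρ (γ b')⁻¹ m)
    (fun b' => ⟨{icm (γ b')⁻¹ z}, fun b'' e => key _ _ ((DFunLike.congr_fun (hγ b'') _).trans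
      ((e _ (Finset.mem_singleton_self _)).trans (DFunLike.congr_fun (hγ b') _).symm))⟩)
    fun g b' => by
      obtain ⟨g', rfl⟩ := orbit b b'
      rw [hF g', show (b.comp (icm g')).comp (icm g) = b.comp (icm (g' * g)) from rfl, hF, ← mul,
        mul_inv_rev, mul_inv_cancel_left]
  refine ⟨f, ?_⟩
  have h1 := hf (b.comp (icm 1))
  rw [hF, inv_one, one, hm_id] at h1
  exact h1

theorem ev_bij (hD : Disc ρ) (hU : Unram ρ) : Function.Bijective (ev ρ b) :=
  have := RingHom.ker_isPrime b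
  ⟨ev_inj ρ b, fun m => (ev_range b hD m).2 (hU m _)⟩
end G2

variable {ρ ρ' ρ''}

theorem ev_val_bij (hD : Disc ρ) : Function.Bijective (ev ρ (integralClosure B Ω).val) := by
  refine ⟨ev_inj ρ _, fun m => (ev_range _ hD m).2 fun g hg => ?_⟩
  have : g = 1 := AlgEquiv.ext fun x => by
    obtain ⟨y, hy, h⟩ := (Algebra.IsAlgebraic.isAlgebraic (R := B) x).exists_integral_multiple
    have h1 : g (y • x) = y • x := sub_eq_zero.1 (hg ⟨_, h⟩ (icm g ⟨_, h⟩) rfl)
    rw [map_smul, Algebra.smul_def, Algebra.smul_def] at h1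
    exact mul_left_cancel₀ ((map_ne_zero_iff _ (FaithfulSMul.algebraMap_injective B Ω)).2 hy) h1
  rw [this, rho_one]

/-- The generic stalk. -/
noncomputable def evΩ (hD : Disc ρ) : (gsh ρ).obj.obj (op (ob (uB B) Ω)) ≃+ M :=
  AddEquiv.ofBijective (ev ρ (integralClosure B Ω).val) (ev_val_bij hD)

theorem evΩ_apply (hD : Disc ρ) (f) : evΩ hD f = ev ρ (integralClosure B Ω).val f := rfl

theorem evΩ_gal (hD : Disc ρ) (g : Ω ≃ₐ[B] Ω) (f) :
    evΩ hD (gal (uB B) Ω (gsh ρ).obj g f) = ρ g (evΩ hD f) := ev_gal ρ g f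

omit [IsIntegrallyClosed B] [IsAlgClosed Ω] [IsDomain B] [Algebra.IsAlgebraic B Ω] in
lemma Gs.exists_b {C : Type} [CommRing C] [IsDomain C] [Algebra B C] (hC : Aic C) :
    Nonempty (integralClosure B Ω →ₐ[B] C) := by
  have := RingHom.ker_isPrime (algebraMap B C)
  obtain ⟨P, -, _, h⟩ := Ideal.exists_ideal_over_prime_of_isIntegral (S := integralClosure B Ω)
    (RingHom.ker (algebraMap B C)) ⊥ fun x hx => by
      rw [FaithfulSMul.algebraMap_injective B Ω (congrArg Subtype.val hx |>.trans (map_zero _).symm)]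
      exact zero_mem _
  exact ⟨(exists_lift hC P h).choose⟩

lemma gshMap_surj (ψ : M' →+ M'') (hψ : ∀ g m, ψ (ρ' g m) = ρ'' g (ψ m)) (hD : Disc ρ')
    (hU : Unram ρ') (hs : Function.Surjective ψ) {k : Type} [Field k] [IsAlgClosed k]
    (x : Spec (.of k) ⟶ Spec (.of B)) :
    Function.Surjective ((gshMap ψ hψ).hom.app (op (Over.mk x))) := fun s => by
  obtain ⟨a, rfl⟩ := hom_spec x
  let := a.toAlgebra
  obtain ⟨b⟩ := exists_b (B := B) (Ω := Ω) (aic_field k)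
  obtain ⟨m, hm⟩ := hs (ev ρ'' b s)
  obtain ⟨t, rfl⟩ := (ev_bij b hD hU).2 m
  exact ⟨t, ev_inj ρ'' b hm⟩

/-- G5. -/
theorem gshMap_epi (ψ : M' →+ M'') (hψ : ∀ g m, ψ (ρ' g m) = ρ'' g (ψ m)) (hD : Disc ρ')
    (hU : Unram ρ') (hs : Function.Surjective ψ) : Epi (gshMap ψ hψ) := by
  have hD' : Disc ρ'' := fun m => by
    obtain ⟨m, rfl⟩ := hs m
    exact Exists.imp (fun E h g hg => (hψ g m).symm.trans (congrArg ψ (h g hg))) (hD m)
  refine epi_of_loc _ fun R _ u s m hm => ?_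
  let := Ideal.Quotient.field m
  let k := AlgebraicClosure (R ⧸ m)
  have hk : RingHom.ker (Algebra.ofId R k) = m :=
    (RingHom.ker_comp_of_injective _ (algebraMap (R ⧸ m) k).injective).trans Ideal.mk_ker
  obtain ⟨y, hy⟩ := gshMap_surj ψ hψ hD hU hs _ (rs u (gsh ρ'').obj (Algebra.ofId R k) s)
  obtain ⟨E, σ, t, h1, rfl⟩ := germ_surj u (gsh_cc hD 1) (by simp) (Algebra.ofId R k) y
  obtain ⟨E', σ', h2, h3⟩ := germ_zero u (gsh_cc hD' 1) (by simp) σ
    ((gshMap ψ hψ).hom.app _ t - rs u _ E.ι s) (by rw [map_sub, ← rs_nat, hy, rs_rs, h1, sub_self])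
  refine ⟨etc E E', hk ▸ EtA.hits_ker _ σ' (Subsingleton.elim _ _), rs u _ E'.ι t, ?_⟩
  rw [map_sub, sub_eq_zero, ← rs_nat, rs_rs] at h3
  exact h3

theorem gsh_shortExact (φ : M →+ M') (hφ : ∀ g m, φ (ρ g m) = ρ' g (φ m)) (ψ : M' →+ M'')
    (hψ : ∀ g m, ψ (ρ' g m) = ρ'' g (ψ m)) (hD : Disc ρ') (hU : Unram ρ')
    (hi : Function.Injective φ) (he : Function.Exact φ ψ) (hs : Function.Surjective ψ)
    (w : gshMap φ hφ ≫ gshMap ψ hψ = 0) : (ShortComplex.mk _ _ w).ShortExact :=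
  { exact := gshMap_exact φ hφ ψ hψ hi he w
    mono_f := gshMap_mono φ hφ hi
    epi_g := gshMap_epi ψ hψ hD hU hs }

/-- G6. -/
theorem gsh_lis (hD : Disc ρ) (hU : Unram ρ) (l : ℕ) (T : Over (Spec (.of B))) :
    Lis l (gsh ρ).obj T := by
  intro C K _ _ _ _ _ _ a b h _ hC _
  obtain ⟨a, rfl⟩ := hom_spec a
  obtain ⟨b, rfl⟩ := hom_spec b
  let := a.toAlgebra
  let := b.toAlgebra
  obtain ⟨ι, hι⟩ := hm_surj (B := B) (A := C) (C := K) (sph _ h)
  obtain ⟨b⟩ := exists_b (B := B) (Ω := Ω) hC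
  have := hC.shl
  have := aic_frac hC K
  let k := AlgebraicClosure (IsLocalRing.ResidueField C)
  let r := IsScalarTower.toAlgHom B C k
  have hr : RingHom.ker r = IsLocalRing.maximalIdeal C := (RingHom.ker_comp_of_injective _
    (algebraMap (IsLocalRing.ResidueField C) k).injective).trans IsLocalRing.ker_residue
  have h1 := (ev_bij (r.comp b) hD hU).comp (rig (uB B) (gsh_rig ρ 1) r hr (by simp))
  rw [show _ ∘ _ = ev ρ b from funext (ev_rs ρ b r), ← show _ ∘ _ = ev ρ b from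
    funext (ev_rs ρ b ι), (ev_bij (ι.comp b) hD hU).of_comp_iff'] at h1
  exact hι ▸ h1

end Pool.Agent.MP_855f4c_ag.E4

end
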