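import Pool.Agent.MP_855f4c_ag.EC.DUa
import Pool.Agent.MP_855f4c_ag.EC.E4e
import Pool.Agent.MP_855f4c_ag.EC.Cb
import Pool.Agent.MP_855f4c_ag.EC.F2c
import Pool.Agent.MP_855f4c_ag.EC.E4c
import Pool.Agent.MP_855f4c_ag.EC.E4b
import Pool.Agent.MP_855f4c_ag.EC.F2d
import Pool.Agent.MP_855f4c_ag.EC.E4d

section

set_option backward.isDefEq.respectTransparency false

open CategoryTheory Limits Abelian Opposite AlgebraicGeometry Function

namespace Pool.Agent.MP_855f4c_ag.E.DU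

open E E3 E4

attribute [local irreducible] Ext.comp Ext.mk₀ Ext.mapExactFunctor ShortComplex.ShortExact.extClass

variable {l : ℕ} [Fact l.Prime] {X X₀ Y : Scheme.{0}} {f : Y ⟶ X} {r : Y ⟶ X₀}
  {B : Type} (Ω : Type) [CommRing B] [Field Ω] [Algebra B Ω] {u' : Spec (.of B) ⟶ Y}
  {u : Spec (.of B) ⟶ X} (hu : u' ≫ f = u) (F : Sh (Scheme.etaleTopology.over X)) {G : Sh (Scheme.etaleTopology.over X₀)}

/-- The generic point over `X`. -/
noncomputable def ιu : (Over.map f).obj (ob u' Ω) ≅ ob u Ω :=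
  Over.isoMk (Iso.refl _) (by simp [← hu])

/-- The generic stalk of the pull-back. -/
noncomputable def eF : sec F (ob u Ω) ≃+ sec ((ps f).obj F) (ob u' Ω) :=
  AddEquiv.ofBijective (rsec (ιu Ω hu).hom F) (ConcreteCategory.bijective_of_isIso
    (F.obj.map (ιu Ω hu).hom.op))

lemma eF_apply (m) : eF Ω hu F m = F.obj.map (ιu Ω hu).hom.op m := rfl

variable {Ω}

lemma eF_gal (σ : Ω ≃ₐ[B] Ω) (m) :
    eF Ω hu F (E4.gal u Ω F.obj σ m) = E4.gal u' Ω ((ps f).obj F).obj σ (eF Ω hu F m) := by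
  change F.obj.map _ (F.obj.map (act u Ω σ).op m) =
    F.obj.map ((Over.map f).map (act u' Ω σ)).op (F.obj.map _ m)
  rw [res_res, res_res]
  congr 3

/-- The duality pairing. -/
noncomputable def DD {N : Type} [AddCommGroup N] (t : H (top Y) ((ps r).obj G) 2 →+ N) {i j : ℕ}
    (e : j + i = 2) : Ext ((ps f).obj F) ((ps r).obj G) i →+ H (Over.mk f) F j →+ N :=
  AddMonoidHom.mk' (fun x => (t.comp (x.postcomp _ e)).comp (slH f F j)) fun x y => by
    ext z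
    exact (congrArg t (Ext.comp_add _ x y e)).trans (map_add t _ _)

lemma DD_apply {N : Type} [AddCommGroup N] (t : H (top Y) ((ps r).obj G) 2 →+ N) {i j : ℕ}
    (e : j + i = 2) (x y) : DD F t e x y = t ((slH f F j y).comp x e) := rfl

variable (ev : sec ((ps r).obj G) (ob u' Ω) ≃+ MuI l Ω)

/-- The cocycle on the fibre attached to `c`. -/
noncomputable def dOf (c : (Ω ≃ₐ[B] Ω) → sec F (ob u Ω) →+ MuI l Ω) (σ : Ω ≃ₐ[B] Ω) :
    sec ((ps f).obj F) (ob u' Ω) →+ sec ((ps r).obj G) (ob u' Ω) :=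
  ev.symm.toAddMonoidHom.comp (((c σ).comp (E4.gal u Ω F.obj σ)).comp
    (eF Ω hu F).symm.toAddMonoidHom)

omit [Fact l.Prime] in
lemma dOf_apply (c σ m) : ev (dOf hu F ev c σ (eF Ω hu F m)) = c σ (E4.gal u Ω F.obj σ m) :=
  (ev.apply_symm_apply _).trans
    (congrArg (fun m => c σ (E4.gal u Ω F.obj σ m)) ((eF Ω hu F).symm_apply_apply m))

lemma gal_mul {M : Type 1} [AddCommGroup M] (ρ : (Ω ≃ₐ[B] Ω) →* AddMonoid.End M) (σ τ m) :
    ρ (σ * τ) m = ρ σ (ρ τ m) := DFunLike.congr_fun (map_mul ρ σ τ) m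

lemma gal_inv {M : Type 1} [AddCommGroup M] (ρ : (Ω ≃ₐ[B] Ω) →* AddMonoid.End M) (σ m) :
    ρ σ⁻¹ (ρ σ m) = m := by
  rw [← gal_mul, inv_mul_cancel, map_one]; rfl

lemma gal_act (P : PSh Y) (σ : Ω ≃ₐ[B] Ω) (m) :
    P.map (act u' Ω σ).op m = E4.gal u' Ω P σ m := rfl

lemma gal_inv' {M : Type 1} [AddCommGroup M] (ρ : (Ω ≃ₐ[B] Ω) →* AddMonoid.End M) (σ m) :
    ρ σ (ρ σ⁻¹ m) = m := by simpa using gal_inv ρ σ⁻¹ m

variable [IsDomain B] [IsIntegrallyClosed B] [IsAlgClosed Ω] [FaithfulSMul B Ω]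
  [Algebra.IsAlgebraic B Ω] [IsOpenImmersion u'] (hY : Linv l Y) (hA : Gu l u' ((ps f).obj F))
  (hG : Lu l u' ((ps r).obj G)) (hev : ∀ σ s, ev (E4.gal u' Ω ((ps r).obj G).obj σ s) = ev s)
  {N : Type} [AddCommGroup N] (t : H (top Y) ((ps r).obj G) 2 →+ N)
include hY hA hG hev

omit [Fact l.Prime] in
theorem dua2 (h : FULL_s) (hD : Bijective (DD (f := f) F t (add_zero 2))) :
    ∃ e : (H (Over.mk f) F 2 →+ N) →+ sec F (ob u Ω) →+ MuI l Ω, Injective e ∧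
      (∀ a, a ∈ e.range ↔ ∀ σ m, a (E4.gal u Ω F.obj σ m) = a m) ∧
      ∀ (x : (ps f).obj F ⟶ (ps r).obj G) m,
        e (DD F t (add_zero 2) (Ext.mk₀ x)) m = ev (x.hom.app _ (eF Ω hu F m)) := by
  obtain ⟨h1, h2⟩ := h l Y B Ω u' hY _ _ hA hG
  let D := Ext.addEquiv₀.symm.trans (AddEquiv.ofBijective _ hD)
  let V : ((ps f).obj F ⟶ (ps r).obj G) →+ sec F (ob u Ω) →+ MuI l Ω :=
    AddMonoidHom.mk' (fun x => (ev.toAddMonoidHom.comp (x.hom.app _).hom).comp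
      (eF Ω hu F).toAddMonoidHom) fun x y => AddMonoidHom.ext fun m => map_add ev _ _
  have hV (x m) : V x m = ev (x.hom.app _ (eF Ω hu F m)) := rfl
  refine ⟨V.comp D.symm.toAddMonoidHom, ?_, fun a => ⟨?_, fun ha => ?_⟩, fun x m => ?_⟩
  · refine Injective.comp (g := V) ((injective_iff_map_eq_zero V).2 fun x hx => h1 x fun m => ?_)
      D.symm.injective
    obtain ⟨m, rfl⟩ := (eF Ω hu F).surjective m
    exact ev.map_eq_zero_iff.1 ((hV x m).symm.trans (DFunLike.congr_fun hx m))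
  · rintro ⟨φ, rfl⟩ σ m
    exact (hV _ _).trans ((congrArg (fun z => ev ((D.symm φ).hom.app _ z)) (eF_gal hu F σ m)).trans
      ((congrArg ev (rs_nat u' _ _ _)).trans (hev σ _)))
  · obtain ⟨x, hx⟩ := h2 (ev.symm.toAddMonoidHom.comp (a.comp (eF Ω hu F).symm.toAddMonoidHom))
      fun σ m => by
        obtain ⟨m, rfl⟩ := (eF Ω hu F).surjective m
        refine ev.injective ?_
        rw [hev, ← eF_gal]
        simp [ha]
    refine ⟨D x, AddMonoidHom.ext fun m => ?_⟩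
    change V (D.symm (D x)) m = _
    rw [D.symm_apply_apply, hV, hx]
    simp
  · exact DFunLike.congr_fun (congrArg V (D.symm_apply_apply x)) m

theorem dua1 (h : CX_s) (h' : EXT1_s) (hD : Bijective (DD (f := f) F t (rfl : 1 + 1 = 2))) :
    ∃ e : Z1 l (E4.gal u Ω F.obj) →+ H (Over.mk f) F 1 →+ N, Surjective e ∧
      (∀ c, e c = 0 ↔ ∃ a : sec F (ob u Ω) →+ MuI l Ω,
        ∀ σ m, c.1 σ m = a (E4.gal u Ω F.obj σ⁻¹ m) - a m) ∧
      (∀ c : Z1 l (E4.gal u Ω F.obj), ∃ x, Cx (ob u' Ω) (act u' Ω) x (dOf hu F ev c.1)) ∧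
      ∀ c x, Cx (ob u' Ω) (act u' Ω) x (dOf hu F ev c.1) → e c = DD F t rfl x := by
  obtain ⟨c1, c2, c3, -⟩ := h _ _ ((ps f).obj F) ((ps r).obj G) (ob u' Ω) _ (act u' Ω)
  obtain ⟨e1, e2⟩ := h' l Y B Ω u' hY _ _ hA hG
  have hl : IsUnit (l : B) := hY.isUnit u'
  have fix (m) : (Opn fun σ => E4.gal u Ω F.obj σ m = m) ∧ Unr fun σ => E4.gal u Ω F.obj σ m = m :=
    ⟨(gal_opn u' hA.1.1.1 (eF Ω hu F m)).imp fun σ hσ =>
      (eF Ω hu F).injective ((eF_gal hu F σ m).trans hσ), fun a _ σ hσ =>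
      (eF Ω hu F).injective ((eF_gal hu F σ m).trans (gal_unr u' hA.1.1 hA.1.2 hl _ a σ hσ))⟩
  have ex (c : Z1 l (E4.gal u Ω F.obj)) : ∃ x, Cx (ob u' Ω) (act u' Ω) x (dOf hu F ev c.1) := by
    refine (e2 _).2 ⟨fun σ τ m => ?_, fun m => ?_⟩ <;>
      obtain ⟨m, rfl⟩ := (eF Ω hu F).surjective m
    · refine ev.injective ?_
      rw [map_add, hev, ← eF_gal, dOf_apply, dOf_apply, dOf_apply, c.2.1, gal_mul, gal_inv,
        add_comm]
    · have k (σ) (h1 : E4.gal u Ω F.obj σ m = m) (h2 : c.1 σ m = 0) :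
          dOf hu F ev c.1 σ (eF Ω hu F m) = 0 :=
        ev.map_eq_zero_iff.1 (by rw [dOf_apply, h1, h2])
      exact ⟨((fix m).1.and (c.2.2 m).1).imp fun σ hσ => k σ hσ.1 hσ.2,
        fun a _ σ hσ => k σ ((fix m).2 a σ hσ) ((c.2.2 m).2 a σ hσ)⟩
  have un {x x' d} (a : Cx (ob u' Ω) (act u' Ω) x d) (b : Cx (ob u' Ω) (act u' Ω) x' d) :
      x = x' := sub_eq_zero.1 (e1 _ (sub_self d ▸ c2 _ _ _ _ a b))
  choose Xc hX using ex
  let E : Z1 l (E4.gal u Ω F.obj) →+ Ext ((ps f).obj F) ((ps r).obj G) 1 :=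
    AddMonoidHom.ofMapSub Xc fun c c' => un (hX _) (by
      convert c2 _ _ _ _ (hX c) (hX c') using 1
      funext σ
      exact AddMonoidHom.ext fun m => map_sub ev.symm _ _)
  refine ⟨(DD F t rfl).comp E, hD.2.comp fun x => ?_, fun c => ?_, fun c => ⟨_, hX c⟩,
    fun c x hx => congrArg (DD F t rfl) (un (hX c) hx)⟩
  · have := (aic_field Ω).shl
    obtain ⟨d, hd⟩ := c1 (fun _ _ p _ => E4.shl_lift u' p) (fun n hn s => by
      obtain ⟨s', hs⟩ := mu_div l n hn (ev s)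
      exact ⟨ev.symm s', ev.injective (by rw [map_nsmul, ev.apply_symm_apply, hs])⟩) x
    obtain ⟨d1, d2⟩ := (e2 d).1 ⟨x, hd⟩
    let c : (Ω ≃ₐ[B] Ω) → sec F (ob u Ω) →+ MuI l Ω := fun σ => ev.toAddMonoidHom.comp
      (((d σ).comp (eF Ω hu F).toAddMonoidHom).comp (E4.gal u Ω F.obj σ⁻¹))
    have hc (σ m) : c σ m = ev (d σ (eF Ω hu F (E4.gal u Ω F.obj σ⁻¹ m))) := rfl
    have k (m σ) (h1 : E4.gal u Ω F.obj σ m = m) (h2 : d σ (eF Ω hu F m) = 0) : c σ m = 0 := by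
      rw [hc, ← h1, gal_inv, h2, map_zero]
    refine ⟨⟨c, fun σ τ m => ?_, fun m => ⟨((fix m).1.and (d2 _).1).imp fun σ hσ =>
      k m σ hσ.1 hσ.2, fun a _ σ hσ => k m σ ((fix m).2 a σ hσ) ((d2 _).2 a σ hσ)⟩⟩,
      un (hX _) ?_⟩
    · rw [hc, hc, hc, d1, map_add, hev, ← eF_gal, mul_inv_rev, gal_mul, gal_inv', add_comm]
    · convert hd using 1
      funext σ
      refine AddMonoidHom.ext fun m => ?_
      obtain ⟨m, rfl⟩ := (eF Ω hu F).surjective m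
      exact ev.injective (by rw [dOf_apply, hc, gal_inv])
  · refine (map_eq_zero_iff (DD F t rfl) hD.1).trans ⟨fun h0 => ?_, fun ⟨a, ha⟩ => ?_⟩
    · obtain ⟨α, hα⟩ := (c3 _).1 ((show Xc c = 0 from h0) ▸ hX c)
      refine ⟨ev.toAddMonoidHom.comp (α.comp (eF Ω hu F).toAddMonoidHom), fun σ m => ?_⟩
      have := congrArg ev (hα σ (eF Ω hu F (E4.gal u Ω F.obj σ⁻¹ m)))
      rwa [dOf_apply, map_sub, gal_act, gal_act, hev, ← eF_gal, gal_inv'] at this
    · refine un (hX c) ((c3 _).2 ⟨ev.symm.toAddMonoidHom.comp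
        (a.comp (eF Ω hu F).symm.toAddMonoidHom), fun σ m => ?_⟩)
      obtain ⟨m, rfl⟩ := (eF Ω hu F).surjective m
      refine ev.injective ?_
      rw [dOf_apply, map_sub, gal_act, gal_act, hev, ← eF_gal, ha, gal_inv]
      simp

end Pool.Agent.MP_855f4c_ag.E.DU

end

section

set_option backward.isDefEq.respectTransparency false

open CategoryTheory Limits Abelian Opposite AlgebraicGeometry Function Polynomial

namespace Pool.Agent.MP_855f4c_ag.E.DU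

open E E3 E4

attribute [local irreducible] Ext.comp Ext.mk₀ Ext.mapExactFunctor ShortComplex.ShortExact.extClass

section twist
variable {l : ℕ} [Fact l.Prime] {X X₀ Y : Scheme.{0}} {f : Y ⟶ X} {r : Y ⟶ X₀}
  {B Ω : Type} [CommRing B] [Field Ω] [Algebra B Ω] {u' : Spec (.of B) ⟶ Y}
  {u : Spec (.of B) ⟶ X} (hu : u' ≫ f = u) (F : Sh (Scheme.etaleTopology.over X)) {G : Sh (Scheme.etaleTopology.over X₀)}
  {Φ : Y ⟶ Y} (h : Φ ≫ f = f) (hr : Φ ≫ r = r) (g : Ω ≃+* Ω)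
  (hg : spc (g : Ω →+* Ω) ≫ (ob u Ω).hom = (ob u Ω).hom)
  (hγ : spc (g : Ω →+* Ω) ≫ (ob u' Ω).hom = (ob u' Ω).hom ≫ Φ)

/-- The generic point moved by `g`. -/
noncomputable def γ : (Over.map Φ).obj (ob u' Ω) ≅ ob u' Ω :=
  Over.isoMk (Scheme.Spec.mapIso g.toCommRingCatIso.op) hγ

lemma γ_left : (γ g hγ).hom.left = spc (g : Ω →+* Ω) := rfl

lemma θ_eF (m) : (θ h F).hom.app (op (ob u' Ω))
    (((ps f).obj F).obj.map (γ g hγ).hom.op (eF Ω hu F m)) = eF Ω hu F (rsec (sph _ hg) F m) := by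
  refine ((congrArg (F.obj.map ((ηI h).hom.app (ob u' Ω)).op) (res_res F.obj
    ((Over.map f).map (γ g hγ).hom) (ιu Ω hu).hom m)).trans (res_res F.obj _ _ m)).trans
    (Eq.trans ?_ (res_res F.obj (ιu Ω hu).hom (sph _ hg) m).symm)
  refine congrArg (fun a => F.obj.map (Quiver.Hom.op a) m) (Over.OverMorphism.ext ?_)
  change 𝟙 _ ≫ spc _ ≫ 𝟙 _ = 𝟙 _ ≫ spc _
  rw [Category.comp_id]

lemma inv_θ (m) : (inv (θ h F)).hom.app (op (ob u' Ω)) (eF Ω hu F (rsec (sph _ hg) F m)) =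
    ((ps f).obj F).obj.map (γ g hγ).hom.op (eF Ω hu F m) := by
  rw [← θ_eF hu F h g hg hγ, app_app, IsIso.hom_inv_id]
  rfl

variable (ev : sec ((ps r).obj G) (ob u' Ω) ≃+ MuI l Ω)
  (hev : ∀ (g : Ω →+* Ω) (a : (Over.map r).obj (ob u' Ω) ⟶ (Over.map r).obj (ob u' Ω)),
    a.left = spc g → ∀ s, ev (G.obj.map a.op s) = MuI.map l g (ev s))
include hev

omit [Fact l.Prime] in
lemma ev_θ (s) : ev ((θ hr G).hom.app (op (ob u' Ω)) (((ps r).obj G).obj.map (γ g hγ).hom.op s)) =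
    MuI.map l (g : Ω →+* Ω) (ev s) :=
  (congrArg ev (res_res G.obj ((ηI hr).hom.app (ob u' Ω)) ((Over.map r).map (γ g hγ).hom) s)).trans
    (hev _ _ (Category.id_comp _) s)

include hγ

omit [Fact l.Prime] in
lemma tw0 (x : (ps f).obj F ⟶ (ps r).obj G) (m) :
    ev ((inv (θ h F) ≫ (ps Φ).map x ≫ θ hr G).hom.app (op (ob u' Ω))
      (eF Ω hu F (rsec (sph _ hg) F m))) =
      MuI.map l (g : Ω →+* Ω) (ev (x.hom.app _ (eF Ω hu F m))) := by
  rw [← app_app, ← app_app, inv_θ hu F h g hg hγ, ← ev_θ hr g hγ ev hev]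
  exact congrArg (fun s => ev ((θ hr G).hom.app (op (ob u' Ω)) s)) (nat x.hom _ _)

omit [Fact l.Prime] in
lemma tw1 (hC : CX_s) (hs : ∀ σ' : Ω ≃ₐ[B] Ω, ∃ σ : Ω ≃ₐ[B] Ω, ∀ z, σ' (g z) = g (σ z))
    (c c' : (Ω ≃ₐ[B] Ω) → sec F (ob u Ω) →+ MuI l Ω)
    (hc : ∀ σ σ' : Ω ≃ₐ[B] Ω, (∀ z, σ' (g z) = g (σ z)) → ∀ m,
      MuI.map l (g : Ω →+* Ω) (c' σ m) = c σ' (rsec (sph (g : Ω →+* Ω) hg) F m))
    {x : Ext ((ps f).obj F) ((ps r).obj G) 1}
    (hx : Cx (ob u' Ω) (act u' Ω) x (dOf hu F ev c')) :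
    Cx (ob u' Ω) (act u' Ω) (pre (inv (θ h F)) _ 1 (post _ (θ hr G) 1 (x.mapExactFunctor (ps Φ))))
      (dOf hu F ev c) := by
  choose s hs using hs
  have e (σ' : Ω ≃ₐ[B] Ω) : spc (σ' : Ω →+* Ω) ≫ spc (g : Ω →+* Ω) =
      spc (g : Ω →+* Ω) ≫ spc (s σ' : Ω →+* Ω) := by
    rw [← Spec.map_comp, ← Spec.map_comp]
    exact congrArg (fun φ => Spec.map (CommRingCat.ofHom φ)) (RingHom.ext (hs σ'))
  have e' (σ' : Ω ≃ₐ[B] Ω) : (Over.map Φ).map (act u' Ω σ') ≫ (γ g hγ).hom =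
      (γ g hγ).hom ≫ act u' Ω (s σ') := Over.OverMorphism.ext (e σ')
  refine (hC _ _ _ _ _ _ _).2.2.2 _ _ _ _ _ _ _ (Cx.map Φ (Cx.move (γ g hγ) s e' hx))
    fun σ' n => ?_
  obtain ⟨m, rfl⟩ : ∃ m, eF Ω hu F (rsec (sph _ hg) F m) = n := by
    obtain ⟨n, rfl⟩ := (ConcreteCategory.bijective_of_isIso
      (((sheafToPresheaf _ _).map (θ h F)).app (op (ob u' Ω)))).2 n
    obtain ⟨n, rfl⟩ := (ConcreteCategory.bijective_of_isIso
      (((ps f).obj F).obj.map (γ g hγ).hom.op)).2 n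
    obtain ⟨m, rfl⟩ := (eF Ω hu F).surjective n
    exact ⟨m, (θ_eF hu F h g hg hγ m).symm⟩
  refine ev.injective ?_
  rw [dOf_apply, inv_θ hu F h g hg hγ]
  refine Eq.trans ?_ (ev_θ hr g hγ ev hev (dOf hu F ev c' (s σ')
    (((ps f).obj F).obj.map (γ g hγ).inv.op
      (((ps f).obj F).obj.map (γ g hγ).hom.op (eF Ω hu F m))))).symm
  rw [res_res, Iso.inv_hom_id, res_id, dOf_apply, hc _ _ (hs σ')]
  congr 1
  exact (res_res F.obj (act u Ω σ') (sph _ hg) m).trans ((congrArg (fun a => F.obj.map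
    (Quiver.Hom.op a) m) (Over.OverMorphism.ext (e σ'))).trans
    (res_res F.obj (sph _ hg) (act u Ω (s σ')) m).symm)
end twist

theorem inv2 (hP : CV.P1MU_s) (l : ℕ) [Fact l.Prime] (n : ℕ) {S : Scheme.{0}} (L₀ : PL S)
    (hl : Linv l L₀.P) {k : Type} [Field k] [IsAlgClosed k] (hk : (l : k) ≠ 0)
    (L : PL (Spec (.of k))) (t : Spec (.of k) ⟶ S)
    (Φ : Over.mk (L₀.pnt (L.π ≫ t) L.q) ⟶ Over.mk (L₀.pnt (L.π ≫ t) L.q))
    (y : H (Over.mk (L₀.pnt (L.π ≫ t) L.q)) (mu L₀.P (l ^ n)) 2) : res Φ _ 2 y = y := by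
  obtain ⟨c, hc⟩ := hP S L₀ (l ^ n) fun K _ x => by
    rw [Nat.cast_pow]; exact pow_ne_zero _ (hl K x)
  have hp : IsPullback (L₀.pnt (L.π ≫ t) L.q) L.π L₀.π t :=
    .of_right (by simpa using L.sq) (by simp) L₀.sq
  let e : Over.mk (L₀.pnt (L.π ≫ t) L.q) ≅ fbr L₀.π t :=
    Over.isoMk hp.flip.isoPullback hp.flip.isoPullback_hom_snd
  obtain ⟨y, rfl⟩ := (pre_bij ((fr _).map e.hom) _ 2).2 y
  obtain ⟨j, rfl⟩ := (hc l n dvd_rfl k t (Over.mkIdTerminal.from _) hk).2.1 y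
  simp only [map_zsmul, pre_pre, ← Functor.map_comp]
  rw [Over.mkIdTerminal.hom_ext (Φ ≫ e.hom ≫ _) (e.hom ≫ Over.mkIdTerminal.from _)]

theorem setup (hD : D1_s) (hP : CV.P1MU_s) (hM : MUI_s) (l : ℕ) [Fact l.Prime] {k : Type} [Field k]
    [IsAlgClosed k] (hk : (l : k) ≠ 0) (L : PL (Spec (.of k))) [CompactSpace L.P]
    [L.P.IsSeparated] (Ω : Type) [Field Ω] :
    ∃ (X₀ : Scheme.{0}) (r : L.P ⟶ X₀) (G : Sh (Scheme.etaleTopology.over X₀))
      (ev : ∀ x : Spec (.of Ω) ⟶ L.P, sec ((ps r).obj G) (Over.mk x) ≃+ MuI l Ω)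
      (t : H (top L.P) ((ps r).obj G) 2 →+ QZ l),
      (∀ (x : Spec (.of Ω) ⟶ L.P) (g : Ω →+* Ω)
        (a : (Over.map r).obj (Over.mk x) ⟶ (Over.map r).obj (Over.mk x)), a.left = spc g →
        ∀ s, ev x (G.obj.map a.op s) = MuI.map l g (ev x s)) ∧
      Cc l ((ps r).obj G) ∧ (∀ T, Lis l ((ps r).obj G).obj T) ∧
      (∀ (X : Scheme.{0}) (f : L.P ⟶ X) (F : Sh (Scheme.etaleTopology.over X)), Tc l F → ∀ i j (e : j + i = 2),
        Bijective (DD (f := f) F t e)) ∧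
      (∀ (Φ : Over.mk r ⟶ Over.mk r) z, res Φ G 2 z = z) ∧
      ∀ (Φ : L.P ⟶ L.P) (ψ : k →+* k), Φ ≫ L.q = L.q → Φ ≫ L.π = L.π ≫ spc ψ → Φ ≫ r = r := by
  let R := Localization.Away (l : ℤ)
  let τ : R →+* k := IsLocalization.Away.lift (l : ℤ) (g := Int.castRingHom k) (by simpa using hk)
  let L₀ := PL.std (Spec (.of R))
  have hl : Linv l L₀.P := (Linv.spec (by
    simpa using IsLocalization.Away.algebraMap_isUnit (S := R) (l : ℤ))).of_hom L₀.π
  obtain ⟨G, ev, h1, h2, h3⟩ := hM l _ hl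
  obtain ⟨t, ht⟩ := hD l k L hk
  let r := L₀.pnt (L.π ≫ spc τ) L.q
  obtain ⟨i⟩ := h2 k L.P r L.π hk
  let i' := i ≪≫ (cstIso L.P).app _
  refine ⟨_, r, G, fun x => ev Ω (x ≫ r), t.comp (post _ i.hom 2), fun x g a e s => ?_,
    .of_iso i'.symm (lc_cc _ _ l),
    fun T => .of_iso ((sheafToPresheaf _ _).mapIso i'.symm) (lc_lis _ _ l T),
    fun X f F hF a j e => ?_, fun Φ z => ?_, fun Φ ψ e1 e2 => ?_⟩
  · have e' : spc g ≫ x ≫ r = x ≫ r := e ▸ Over.w a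
    exact (congrArg (fun b => ev Ω (x ≫ r) (G.obj.map (Quiver.Hom.op b) s))
      (Over.OverMorphism.ext e : a = sph g e')).trans (h1 Ω Ω g _ _ e' s)
  · have b := ((AddEquiv.ofBijective _ (slH_bij f F j)).symm.addMonoidHomCongrLeft
      (N := QZ l)).bijective.comp ((ht _ (hF.pb f) a j e).comp (post_bij _ i.hom a))
    convert b using 1
    funext x
    exact AddMonoidHom.ext fun y => congrArg t (Ext.comp_assoc _ _ _ e (add_zero a) (by omega))
  · have : CompactSpace (Over.mk r).left := ‹_›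
    have : (Over.mk r).left.IsSeparated := ‹_›
    obtain ⟨n, ι, y, rfl⟩ := h3 (Over.mk r) 2 z
    rw [← Hmap_res, inv2 hP l n L₀ hl hk L (spc τ)]
  · have : ψ.comp τ = τ := IsLocalization.ringHom_ext (Submonoid.powers (l : ℤ))
      (RingHom.ext_int _ _)
    rw [L₀.comp_pnt, e1, reassoc_of% e2, ← Spec.map_comp, ← CommRingCat.ofHom_comp, this]

end Pool.Agent.MP_855f4c_ag.E.DU

end

section

set_option backward.isDefEq.respectTransparency false

open CategoryTheory Limits Abelian Opposite AlgebraicGeometry Function Polynomial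

namespace Pool.Agent.MP_855f4c_ag.E.DU

open E E3 E4

attribute [local irreducible] Ext.comp Ext.mk₀ Ext.mapExactFunctor ShortComplex.ShortExact.extClass

lemma DD_tw {X X₀ Y : Scheme.{0}} {Φ : Y ⟶ Y} {f : Y ⟶ X} (h : Φ ≫ f = f) {r : Y ⟶ X₀}
    (hr : Φ ≫ r = r) {F : Sh (Scheme.etaleTopology.over X)} {G : Sh (Scheme.etaleTopology.over X₀)} {N : Type} [AddCommGroup N]
    (t : H (top Y) ((ps r).obj G) 2 →+ N) {i j : ℕ} (e : j + i = 2)
    (hi : ∀ z, res (Over.homMk Φ hr : Over.mk r ⟶ Over.mk r) G 2 z = z)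
    (x : Ext ((ps f).obj F) ((ps r).obj G) i) :
    (DD F t e (pre (inv (θ h F)) _ i (post _ (θ hr G) i (x.mapExactFunctor (ps Φ))))).comp
      (res (Over.homMk Φ h : Over.mk f ⟶ Over.mk f) F j) = DD F t e x :=
  AddMonoidHom.ext fun y => congrArg t (pair_tw h hr e (slH_bij r G 2).2 hi x y)

variable {A k : Type} [CommRing A] [Field k] (L : PL (Spec (.of A))) (τ : A →+* k)

lemma Hact_eq (F : Sh (Scheme.etaleTopology.over L.P)) (q : ℕ) (ψ : k →+* k) (hψ : spc ψ ≫ spc τ = spc τ) :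
    ∃ h : ΦY L τ ψ hψ ≫ fY L τ = fY L τ, Hact L.π F q ψ hψ =
      res (Over.homMk (ΦY L τ ψ hψ) h : Over.mk (fY L τ) ⟶ Over.mk (fY L τ)) F q :=
  ⟨Over.w ((Over.pullback L.π).map (sph ψ hψ)), rfl⟩

lemma Hact_surj (F : Sh (Scheme.etaleTopology.over L.P)) (q : ℕ) (ψ : k →+* k) (hψ : spc ψ ≫ spc τ = spc τ)
    (h : Bijective ψ) : Surjective (Hact L.π F q ψ hψ) :=
  have : IsIso (CommRingCat.ofHom ψ) := (ConcreteCategory.isIso_iff_bijective _).2 h
  have : IsIso (sph ψ hψ) := isIso_homMk _ (inferInstanceAs (IsIso (Spec.map _)))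
  (pre_bij ((fr _).map ((Over.pullback L.π).map (sph ψ hψ))) F q).2

lemma ev_fix {l : ℕ} [Fact l.Prime] [IsAlgClosed k] {B Ω : Type} [CommRing B] [Algebra k[X] B]
    [Field Ω] [Algebra B Ω] (σ : Ω ≃ₐ[B] Ω) (ζ : MuI l Ω) : MuI.map l (σ : Ω →+* Ω) ζ = ζ :=
  mu_fix l ((algebraMap B Ω).comp ((algebraMap k[X] B).comp C)) _ (fun _ => σ.commutes _) ζ

theorem du2' (hD : D1_s) (hP : CV.P1MU_s) (hM : MUI_s) (hG : GEO_s) (hF : FULL_s) : DU2_s := by
  intro l _ A _ L h F _ hd k B Ω _ _ τ _ _ _ _ _ _ _ _ hk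
  obtain ⟨_, _, _, hu, hY, _, _, hA, hg⟩ := hG l A L h F hd k B Ω τ hk
  obtain ⟨X₀, r, G, ev, t, h1, h2, h3, h4, h5, h6⟩ := setup hD hP hM l hk (LY L τ) Ω
  have hb := h4 _ (fY L τ) F hd.1 0 2 (add_zero 2)
  obtain ⟨e, e1, e2, e3⟩ := dua2 hu F (ev _) hY hA ⟨h2, h3 _⟩
    (fun σ s => (h1 _ σ ((Over.map r).map (act (uY L τ B) Ω σ)) rfl s).trans
      (ev_fix (k := k) σ _)) t hF hb
  refine ⟨e, e1, e2, fun g hg' ψ hψ hb' hc φ m => ?_⟩
  obtain ⟨g1, g2, g3, -⟩ := hg g ψ hψ hg' hc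
  obtain ⟨h0, hH⟩ := Hact_eq L τ F 2 ψ hψ
  have hr := h6 _ ψ g2 g3
  obtain ⟨x, hx⟩ := hb.2 (φ.comp (Hact L.π F 2 ψ hψ))
  obtain ⟨x, rfl⟩ := (Ext.mk₀_bijective _ _).2 x
  have : DD F t (add_zero 2) (Ext.mk₀ (inv (θ h0 F) ≫ (ps _).map x ≫ θ hr G)) = φ := by
    refine AddMonoidHom.ext fun y => ?_
    obtain ⟨y, rfl⟩ := Hact_surj L τ F 2 ψ hψ hb' y
    refine Eq.trans ?_ (DFunLike.congr_fun hx y)
    rw [DD_apply, DD_apply, ← pair_tw h0 hr (add_zero 2) (slH_bij r G 2).2 (h5 _) _ y, hH,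
      Ext.mapExactFunctor_mk₀, post_apply, Ext.mk₀_comp_mk₀, pre_apply (inv (θ h0 F)),
      Ext.mk₀_comp_mk₀]
    rfl
  subst this
  exact ((congrArg (fun a => MuI.map l (g : Ω →+* Ω) (e a m)) hx.symm).trans
    (congrArg _ (e3 x m))).trans
    ((tw0 hu F h0 hr g hg' g1 (ev _) (h1 _) x m).symm.trans (e3 _ _).symm)

theorem du1' (hD : D1_s) (hP : CV.P1MU_s) (hM : MUI_s) (hG : GEO_s) (hC : CX_s) (hE : EXT1_s) :
    DU1_s := by
  intro l _ A _ L h F _ hd k B Ω _ _ τ _ _ _ _ _ _ _ _ hk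
  obtain ⟨_, _, _, hu, hY, _, _, hA, hg⟩ := hG l A L h F hd k B Ω τ hk
  obtain ⟨X₀, r, G, ev, t, h1, h2, h3, h4, h5, h6⟩ := setup hD hP hM l hk (LY L τ) Ω
  obtain ⟨e, e1, e2, e3, e4⟩ := dua1 hu F (ev _) hY hA ⟨h2, h3 _⟩
    (fun σ s => (h1 _ σ ((Over.map r).map (act (uY L τ B) Ω σ)) rfl s).trans
      (ev_fix (k := k) σ _)) t hC hE (h4 _ (fY L τ) F hd.1 1 1 rfl)
  refine ⟨e, e1, e2, fun g hg' ψ hψ _ hc c c' hcc => ?_⟩
  obtain ⟨g1, g2, g3, g4⟩ := hg g ψ hψ hg' hc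
  obtain ⟨h0, hH⟩ := Hact_eq L τ F 1 ψ hψ
  have hr := h6 _ ψ g2 g3
  obtain ⟨x, hx⟩ := e3 c'
  have k1 := e4 c _ (tw1 hu F h0 hr g hg' g1 (ev _) (h1 _) hC g4 c.1 c'.1 hcc hx)
  have k2 := DD_tw h0 hr t rfl (h5 _) x
  exact (e4 c' x hx).trans (k2.symm.trans (congrArg₂ AddMonoidHom.comp k1.symm hH.symm))

end Pool.Agent.MP_855f4c_ag.E.DU

end

section

set_option backward.isDefEq.respectTransparency false

open CategoryTheory Limits Abelian Opposite AlgebraicGeometry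

namespace Pool.Agent.MP_855f4c_ag.E

open E3 E4

namespace FULL

variable {l : ℕ} {Y : Scheme.{0}} {B : Type} [CommRing B] (u : Spec (.of B) ⟶ Y)

lemma rr {Z V T : Over Y} (g : Z ⟶ V) (f : V ⟶ T) (F : Sh (Scheme.etaleTopology.over Y)) (s : sec F T) :
    rsec g F (rsec f F s) = rsec (g ≫ f) F s := res_res F.obj g f s

/-- Etale over the open part. -/
def EU (V : Over Y) : Prop := Etale V.hom ∧ ∀ t, V.hom t ∈ Set.range u

variable {u} in
lemma EU.up {V V' : Over Y} (h : EU u V) (v : V' ⟶ V) (hv : Etale v.left) : EU u V' := by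
  have := h.1
  rw [EU, ← Over.w v]
  exact ⟨inferInstance, fun t => h.2 (v.left t)⟩

/-- The product over `Y`. -/
noncomputable abbrev pd (V W : Over Y) : Over Y := Over.mk (pullback.fst V.hom W.hom ≫ V.hom)

/-- First projection. -/
noncomputable def p1 (V W : Over Y) : pd V W ⟶ V := Over.homMk (pullback.fst _ _)

/-- Second projection. -/
noncomputable def p2 (V W : Over Y) : pd V W ⟶ W :=
  Over.homMk (pullback.snd _ _) pullback.condition.symm

lemma p1_etale (V W : Over Y) (h : Etale W.hom) : Etale (p1 V W).left :=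
  MorphismProperty.pullback_fst _ _ h

lemma pd_lift {Z V W : Over Y} (a : Z ⟶ V) (b : Z ⟶ W) :
    ∃ c : Z ⟶ pd V W, c ≫ p1 V W = a ∧ c ≫ p2 V W = b :=
  ⟨Over.homMk (pullback.lift a.left b.left ((Over.w a).trans (Over.w b).symm))
      ((pullback.lift_fst_assoc _ _ _ _).trans (Over.w a)),
    Over.OverMorphism.ext (pullback.lift_fst _ _ _), Over.OverMorphism.ext (pullback.lift_snd _ _ _)⟩

variable [IsOpenImmersion u]

lemma eu_top : EU u (Over.mk u) := ⟨(inferInstance : Etale u), fun t => ⟨t, rfl⟩⟩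

lemma pt_cases {k : Type} [Field k] (x : Spec (.of k) ⟶ Y) :
    (∀ z, x z ∉ Set.range u) ∨ Nonempty (Over.mk x ⟶ Over.mk u) := by
  by_cases h : ∀ z, x z ∉ Set.range u
  · exact .inl h
  · obtain ⟨z, hz⟩ := not_forall.1 h
    have : Subsingleton (Spec (.of k)) := inferInstanceAs (Subsingleton (PrimeSpectrum k))
    have H : Set.range x ⊆ Set.range u :=
      Set.range_subset_iff.2 fun w => Subsingleton.elim z w ▸ not_not.1 hz
    exact .inr ⟨Over.homMk _ (IsOpenImmersion.lift_fac u x H)⟩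

variable {u}

lemma EU.ring {V : Over Y} (h : EU u V) (hV : Aff Y V) : ∃ (D : Type) (_ : CommRing D)
    (_ : Algebra B D) (_ : Algebra.Etale B D), Nonempty (ob u D ≅ V) := by
  have : IsAffine V.left := hV
  have := h.1
  obtain ⟨a, ha⟩ : ∃ a, a ≫ u = V.hom :=
    ⟨_, IsOpenImmersion.lift_fac u V.hom (Set.range_subset_iff.2 h.2)⟩
  have : Etale (a ≫ u) := by rwa [ha]
  have : Etale a := Etale.of_comp a u
  obtain ⟨φ, hφ⟩ := Spec.map_surjective (V.left.isoSpec.inv ≫ a)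
  let _ : Algebra B Γ(V.left, ⊤) := φ.hom.toAlgebra
  refine ⟨Γ(V.left, ⊤), inferInstance, inferInstance, ?_, ⟨Over.isoMk V.left.isoSpec.symm ?_⟩⟩
  · have : Etale (Spec.map φ) := by rw [hφ]; infer_instance
    exact (HasRingHomProperty.Spec_iff (P := @Etale)).1 this
  · change V.left.isoSpec.inv ≫ V.hom = Spec.map φ ≫ u
    rw [hφ, Category.assoc, ha]

lemma exists_hm {D C : Type} [CommRing D] [Algebra B D] [CommRing C] [Algebra B C]
    (p : ob u C ⟶ ob u D) : ∃ τ : D →ₐ[B] C, hm u τ = p := by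
  obtain ⟨ψ, hψ⟩ := Spec.map_surjective p.left
  have h : Spec.map ψ ≫ Spec.map (CommRingCat.ofHom (algebraMap B D)) =
      Spec.map (CommRingCat.ofHom (algebraMap B C)) := by
    rw [← cancel_mono u, Category.assoc, hψ]
    exact Over.w p
  have h' := Spec.map_injective ((Spec.map_comp _ _).trans h)
  exact ⟨⟨ψ.hom, fun b => congr($h' b)⟩, Over.OverMorphism.ext hψ⟩

variable {Ω : Type} [Field Ω] [IsAlgClosed Ω] [Algebra B Ω] [FaithfulSMul B Ω]
  {A G : Sh (Scheme.etaleTopology.over Y)} (hl : Linv l Y) (hA : Gu l u A) (hG : Lu l u G)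

include hl hG in
lemma inj {V : Over Y} (h : EU u V) (hV : Aff Y V) (s : sec G V)
    (hs : ∀ p : ob u Ω ⟶ V, rsec p G s = 0) : s = 0 := by
  obtain ⟨D, _, _, _, ⟨e⟩⟩ := h.ring hV
  have := lis_inj u (Ω := Ω) hG.1 hG.2 (hl.isUnit u) (rsec e.hom G s) fun τ =>
    (rr _ _ G s).trans (hs _)
  rw [← res_id G.obj s, ← e.inv_hom_id]
  exact (rr _ _ G s).symm.trans ((congrArg _ this).trans (map_zero _))

variable (φ : sec A (ob u Ω) →+ sec G (ob u Ω))

/-- `t'` is the image of `t` at all generic points. -/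
def Good {V : Over Y} (t : sec A V) (t' : sec G V) : Prop :=
  ∀ p : ob u Ω ⟶ V, rsec p G t' = φ (rsec p A t)

/-- The relation at a geometric point. -/
def Pt {k : Type} [Field k] (x : Spec (.of k) ⟶ Y) (a : sec A (Over.mk x))
    (b : sec G (Over.mk x)) : Prop :=
  ((∀ z, x z ∉ Set.range u) ∧ b = 0) ∨ ∃ (V : Over Y) (y : Over.mk x ⟶ V) (t : sec A V)
    (t' : sec G V), EU u V ∧ Good φ t t' ∧ rsec y A t = a ∧ rsec y G t' = b

/-- The relation on sections. -/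
def Rel {W : Over Y} (s : sec A W) (s' : sec G W) : Prop :=
  ∀ (k : Type) [Field k] [IsAlgClosed k] (x : Spec (.of k) ⟶ Y) (z : Over.mk x ⟶ W),
    Pt φ x (rsec z A s) (rsec z G s')

variable {φ}

omit [IsOpenImmersion u] [IsAlgClosed Ω] [FaithfulSMul B Ω]

lemma not_out {k : Type} [Field k] {x : Spec (.of k) ⟶ Y} {V : Over Y} (y : Over.mk x ⟶ V)
    (h : EU u V) (hx : ∀ z, x z ∉ Set.range u) : False := by
  refine hx (IsLocalRing.closedPoint k) ?_
  have e : y.left ≫ V.hom = x := Over.w y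
  rw [← e]
  exact h.2 _

lemma Pt.sub {k : Type} [Field k] {x : Spec (.of k) ⟶ Y} {a a' : sec A (Over.mk x)}
    {b b' : sec G (Over.mk x)} (h : Pt φ x a b) (h' : Pt φ x a' b') :
    Pt φ x (a - a') (b - b') := by
  rcases h with ⟨h, rfl⟩ | ⟨V, y, t, s, h1, h2, rfl, rfl⟩ <;>
    rcases h' with ⟨h', rfl⟩ | ⟨V', y', t', s', h1', h2', rfl, rfl⟩
  · exact .inl ⟨h, sub_self _⟩
  · exact (not_out y' h1' h).elim
  · exact (not_out y h1 h').elim
  · obtain ⟨c, rfl, rfl⟩ := pd_lift y y'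
    refine .inr ⟨pd V V', c, rsec (p1 V V') A t - rsec (p2 V V') A t',
      rsec (p1 V V') G s - rsec (p2 V V') G s', h1.up _ (p1_etale V V' h1'.1), fun p => ?_, ?_, ?_⟩
    · rw [map_sub, map_sub, map_sub, rr, rr, rr, rr, h2, h2']
    · rw [map_sub, rr, rr]
    · rw [map_sub, rr, rr]

lemma Rel.res {W W' : Over Y} {s : sec A W} {s' : sec G W} (h : Rel φ s s') (g : W' ⟶ W) :
    Rel φ (rsec g A s) (rsec g G s') := fun k _ _ x z => by
  rw [rr, rr]
  exact h k x _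

lemma Rel.sub {W : Over Y} {s t : sec A W} {s' t' : sec G W} (h : Rel φ s s') (h' : Rel φ t t') :
    Rel φ (s - t) (s' - t') := fun k _ _ x z => by
  rw [map_sub, map_sub]
  exact (h k x z).sub (h' k x z)

lemma Good.rel {V : Over Y} {t : sec A V} {t' : sec G V} (h : Good φ t t') (hV : EU u V) :
    Rel φ t t' := fun _ _ _ _ z => .inr ⟨V, z, t, t', hV, h, rfl, rfl⟩

variable [IsOpenImmersion u]

lemma rel_zero (W : Over Y) : Rel φ (0 : sec A W) 0 := fun k _ _ x z => by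
  rw [map_zero, map_zero]
  rcases pt_cases u x with h | ⟨⟨y⟩⟩
  · exact .inl ⟨h, rfl⟩
  · exact .inr ⟨_, y, 0, 0, eu_top u, fun p => by rw [map_zero, map_zero, map_zero],
      map_zero _, map_zero _⟩

variable [IsAlgClosed Ω] [FaithfulSMul B Ω]
include hl hA hG

lemma Pt.zero {k : Type} [Field k] [IsAlgClosed k] {x : Spec (.of k) ⟶ Y}
    {b : sec G (Over.mk x)} (h : Pt φ x 0 b) : b = 0 := by
  rcases h with ⟨-, h⟩ | ⟨V, y, t, t', h1, h2, h3, rfl⟩
  · exact h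
  · obtain ⟨V', v, y', h4, h5, rfl, h6⟩ := stalk_zero hA.1.1.1 hA.1.1.2 (hl k x) y t h3
    have h7 : rsec v A t = 0 := h6
    rw [← rr, inj (Ω := Ω) hl hG (h1.up v h5) h4 (rsec v G t') fun p => by
      rw [rr, h2, ← rr, h7, map_zero, map_zero], map_zero]

lemma Rel.uniq {W : Over Y} {s : sec A W} {s' s'' : sec G W} (h : Rel φ s s') (h' : Rel φ s s'') :
    s' = s'' := by
  refine sub_eq_zero.1 (pt_sec hG.1 _ fun t => ?_)
  obtain ⟨k, _, _, x, z, hz⟩ := exists_geom W t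
  have := h.sub h' k x z
  rw [sub_self, map_zero] at this
  exact ⟨k, _, inferInstance, x, z, hl k x, hz, this.zero hl hA hG⟩

lemma eq_zero (x : A ⟶ G) (hx : ∀ m, x.hom.app (op (ob u Ω)) m = 0) : x = 0 := by
  refine ObjectProperty.hom_ext _ (NatTrans.ext (funext fun W => AddCommGrpCat.hom_ext
    (AddMonoidHom.ext fun s => pt_sec hG.1 (T := W.unop) _ fun t => ?_)))
  obtain ⟨k, _, _, y, z, hz⟩ := exists_geom W.unop t
  refine ⟨k, _, inferInstance, y, z, hl k y, hz, (nat x.hom z s).symm.trans ?_⟩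
  rcases pt_cases u y with h | ⟨⟨y₀⟩⟩
  · rw [hA.2 k y (hl k y) h (A.obj.map z.op s), map_zero]
  · obtain ⟨V, v, y', t, h1, h2, -, h3⟩ :=
      stalk_surj hA.1.1.1 hA.1.1.2 (hl k y) y₀ (A.obj.map z.op s)
    rw [← h3, nat, inj (Ω := Ω) hl hG ((eu_top u).up v h2) h1 (x.hom.app _ t) fun p =>
      (nat x.hom p t).symm.trans (hx _), map_zero]

variable [IsIntegrallyClosed B] [Algebra.IsAlgebraic B Ω]
  (hφ : ∀ σ m, φ (E4.gal u Ω A.obj σ m) = E4.gal u Ω G.obj σ (φ m))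
include hφ

omit hA in
lemma surj {V : Over Y} (h : EU u V) (hV : Aff Y V) (t : sec A V) : ∃ t', Good φ t t' := by
  obtain ⟨D, _, _, _, ⟨e⟩⟩ := h.ring hV
  obtain ⟨x, hx⟩ := lis_surj u (Ω := Ω) hG.1 hG.2 (hl.isUnit u)
    (fun τ : D →ₐ[B] Ω => φ (rs u A.obj τ (rsec e.hom A t))) fun g τ => by
      rw [← hφ, gal_rs, rs_rs]
  refine ⟨rsec e.inv G x, fun p => ?_⟩
  obtain ⟨τ, hτ⟩ := exists_hm (p ≫ e.inv)
  rw [rr, ← hτ]
  refine (hx τ).trans (congrArg φ ((rr _ _ A t).trans ?_))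
  rw [hτ, Category.assoc, e.inv_hom_id, Category.comp_id]

lemma loc {W : Over Y} (s : sec A W) {k : Type} [Field k] [IsAlgClosed k] {x : Spec (.of k) ⟶ Y}
    (z : Over.mk x ⟶ W) : ∃ (V : Over Y) (v : V ⟶ W) (z' : Over.mk x ⟶ V) (s' : sec G V),
      Etale v.left ∧ z' ≫ v = z ∧ Rel φ (rsec v A s) s' := by
  rcases pt_cases u x with h | ⟨⟨y₀⟩⟩
  · obtain ⟨V, v, z', -, h1, h2, h3⟩ :=
      stalk_zero hA.1.1.1 hA.1.1.2 (hl k x) z s (hA.2 k x (hl k x) h _)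
    have h4 : rsec v A s = 0 := h3
    exact ⟨V, v, z', 0, h1, h2, h4 ▸ rel_zero V⟩
  · obtain ⟨V₀, v₀, y, t, h1, h2, -, h3⟩ :=
      stalk_surj hA.1.1.1 hA.1.1.2 (hl k x) y₀ (rsec z A s)
    have hV := (eu_top u).up v₀ h2
    obtain ⟨t', ht⟩ := surj hl hG hφ hV h1 t
    obtain ⟨c, rfl, rfl⟩ := pd_lift z y
    obtain ⟨V, v, z', -, h4, rfl, h5⟩ := stalk_zero hA.1.1.1 hA.1.1.2 (hl k x) c
      (rsec (p1 W V₀) A s - rsec (p2 W V₀) A t)
      ((map_sub (rsec c A) _ _).trans (by rw [rr, rr]; exact sub_eq_zero.2 h3.symm))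
    have h6 : rsec (v ≫ p1 W V₀) A s = rsec (v ≫ p2 W V₀) A t := by
      rw [← rr, ← rr]
      exact sub_eq_zero.1 ((map_sub (rsec v A) _ _).symm.trans h5)
    have := p1_etale W V₀ hV.1
    exact ⟨V, v ≫ p1 W V₀, z', _, (inferInstance : Etale (v.left ≫ (p1 W V₀).left)),
      (Category.assoc _ _ _).symm, h6 ▸ (ht.rel hV).res _⟩

lemma ex {W : Over Y} (s : sec A W) : ∃ s', Rel φ s s' := by
  obtain ⟨s', hs⟩ := glue G.property (fun V (v : V ⟶ W) x => Rel φ (rsec v A s) x)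
    ⟨fun V v => ∃ x, Rel φ (rsec v A s) x, fun ⟨_, hx⟩ g => ⟨_, rr g _ A s ▸ hx.res g⟩⟩
    (mem_Jov_of _ fun t => by
      obtain ⟨k, _, _, x, z, hz⟩ := exists_geom W t
      obtain ⟨V, v, z', s', h1, rfl, h2⟩ := loc hl hA hG hφ s z
      exact ⟨V, v, h1, ⟨s', h2⟩, stk_range z' v hz⟩)
    (fun _ _ h => h) (fun _ _ g y _ hx => rr g y A s ▸ hx.res g)
    fun _ _ _ _ h h' => h.uniq hl hA hG h'
  refine ⟨s', fun k _ _ x z => ?_⟩
  obtain ⟨V, v, z', s'', -, rfl, h2⟩ := loc hl hA hG hφ s z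
  have e : rsec v G s' = s'' := hs v s'' h2
  rw [← rr, ← rr, e]
  exact h2 k x z'

lemma exists_hom : ∃ x : A ⟶ G, ∀ m, x.hom.app (op (ob u Ω)) m = φ m := by
  choose f hf using fun (W : Over Y) (s : sec A W) => ex hl hA hG hφ s
  refine ⟨⟨{ app W := AddCommGrpCat.ofHom (AddMonoidHom.ofMapSub (f W.unop) fun a b =>
                (hf _ _).uniq hl hA hG ((hf _ a).sub (hf _ b)))
             naturality W W' g := AddCommGrpCat.hom_ext (AddMonoidHom.ext fun s =>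
                (hf _ _).uniq hl hA hG ((hf _ s).res g.unop)) }⟩, fun m => ?_⟩
  rcases hf (ob u Ω) m Ω _ (𝟙 _) with ⟨h, -⟩ | ⟨V, y, t, t', -, h2, h3, h4⟩
  · exact (h (IsLocalRing.closedPoint Ω) ⟨_, (Scheme.Hom.comp_apply _ _ _).symm⟩).elim
  · exact ((res_id G.obj _).symm.trans h4.symm).trans
      ((h2 y).trans (congrArg φ (h3.trans (res_id A.obj m))))

end FULL

theorem full : FULL_s := fun _ _ _ _ _ _ _ _ _ _ _ _ _ _ hl _ _ hA hG =>
  ⟨FULL.eq_zero hl hA hG, fun _ hφ => FULL.exists_hom hl hA hG hφ⟩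

end Pool.Agent.MP_855f4c_ag.E

end

section

set_option autoImplicit false
set_option backward.isDefEq.respectTransparency false

open CategoryTheory Limits Abelian Opposite AlgebraicGeometry Polynomial

namespace Pool.Agent.MP_855f4c_ag.E

open E3 E4

lemma obj_unit {Y Z : Scheme.{0}} (u : Z ⟶ Y) [Mono u] (T : Over Z) :
    IsIso ((Over.mapPullbackAdj u).unit.app T) := by
  have h1 : ((Over.mapPullbackAdj u).unit.app T).left ≫ pullback.fst (T.hom ≫ u) u = 𝟙 _ := by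
    simp
  have h2 : IsIso (((Over.mapPullbackAdj u).unit.app T).left ≫ pullback.fst (T.hom ≫ u) u) := by
    rw [h1]; infer_instance
  have h3 : IsIso ((Over.mapPullbackAdj u).unit.app T).left :=
    IsIso.of_isIso_comp_right _ (pullback.fst (T.hom ≫ u) u)
  have h4 : IsIso ((Over.forget Z).map ((Over.mapPullbackAdj u).unit.app T)) := h3
  exact isIso_of_reflects_iso _ (Over.forget Z)

lemma obj_counit {Y Z : Scheme.{0}} (u : Z ⟶ Y) [Mono u] (G : Sh (Scheme.etaleTopology.over Z)) :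
    IsIso ((pbpf u).counit.app G) :=
  Ez.isIso_of_bij _ fun T =>
    have := obj_unit u T
    ConcreteCategory.bijective_of_isIso (G.obj.map ((Over.mapPullbackAdj u).unit.app T).op)

/-- Extension by zero along an open immersion. -/
lemma obj_ext (l : ℕ) {Y Z : Scheme.{0}} (u : Z ⟶ Y) [IsOpenImmersion u] (G : Sh (Scheme.etaleTopology.over Z))
    (hG : Cc l G) : ∃ K : Sh (Scheme.etaleTopology.over Y), Cc l K ∧ Van l (Set.range u) K ∧
      Nonempty ((pb (J := Scheme.etaleTopology) u).obj K ≅ G) := by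
  have := obj_counit u G
  let P : Sh (Scheme.etaleTopology.over Y) := (pf (J := Scheme.etaleTopology) u).obj G
  have h1 : Cc l ((pb (J := Scheme.etaleTopology) (u.isoOpensRange.inv ≫ u)).obj P) :=
    ((hG.of_iso (asIso ((pbpf u).counit.app G)).symm).pb u.isoOpensRange.inv).of_iso
      ((Scheme.etaleTopology.overMapPullbackComp Ab.{1} u.isoOpensRange.inv u).app P)
  rw [Scheme.Hom.isoOpensRange_inv_comp] at h1
  have h2 : IsIso ((pb (J := Scheme.etaleTopology) u).map ((ezι u.opensRange).app P)) :=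
    Ez.isIso_of_bij _ fun T => ezι_bij _ P fun t => ⟨T.hom t, (Scheme.Hom.comp_apply _ _ _).symm⟩
  refine ⟨(ez u.opensRange).obj P, ⟨ez_LFP _ h1.1, ez_Rig _ h1.2⟩, fun k _ _ x _ hx s => ?_,
    ⟨asIso ((pb (J := Scheme.etaleTopology) u).map ((ezι u.opensRange).app P)) ≪≫
      asIso ((pbpf u).counit.app G)⟩⟩
  have := Gs.shl_field k
  exact ez_shl_zero _ P x (hx _) s

theorem obj : OBJ_s := by
  intro l Y B Ω _ _ _ _ _ _ _ _ u _ _ M _ ρ hD hU
  obtain ⟨K, h1, h2, ⟨c⟩⟩ := obj_ext l u (gsh ρ) (gsh_cc hD l)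
  let c' := (sheafToPresheaf _ _).mapIso c
  let T : Over (Spec (.of B)) := Over.mk (Spec.map (CommRingCat.ofHom (algebraMap B Ω)))
  let i : ob (uB B) Ω ≅ T := Over.isoMk (Iso.refl _) (by simp [T])
  let e₁ : sec K (ob u Ω) ≃+ sec (gsh ρ) T := (c'.app (op T)).addCommGroupIsoToAddEquiv
  let e₂ : sec (gsh ρ) T ≃+ sec (gsh ρ) (ob (uB B) Ω) :=
    ((gsh ρ).obj.mapIso i.op).addCommGroupIsoToAddEquiv
  refine ⟨K, (e₁.trans e₂).trans (evΩ hD), ⟨⟨h1, ?_⟩, h2⟩, fun σ s => ?_⟩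
  · exact (Lis.map_iff u K.obj (Over.mk (Spec.map (CommRingCat.ofHom (algebraMap B B))))).1
      ((gsh_lis hD hU l _).of_iso c'.symm)
  · let a : T ⟶ T := i.inv ≫ hm (uB B) (σ : Ω →ₐ[B] Ω) ≫ i.hom
    have ha : hm u (σ : Ω →ₐ[B] Ω) = (Over.map u).map a := by
      ext; simp [a, i]
    have e1 : e₁ (E4.gal u Ω K.obj σ s) = (gsh ρ).obj.map a.op (e₁ s) := by
      change c'.hom.app (op T) (K.obj.map (hm u (σ : Ω →ₐ[B] Ω)).op s) = _
      rw [ha]
      exact map_nat c'.hom a s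
    have e2 : ∀ x, e₂ ((gsh ρ).obj.map a.op x) = E4.gal (uB B) Ω (gsh ρ).obj σ (e₂ x) := fun x => by
      change (gsh ρ).obj.map i.hom.op _ = (gsh ρ).obj.map (hm (uB B) (σ : Ω →ₐ[B] Ω)).op
        ((gsh ρ).obj.map i.hom.op x)
      rw [res_res, res_res, Iso.hom_inv_id_assoc]
    simp only [AddEquiv.trans_apply]
    rw [e1, e2, evΩ_gal]

end Pool.Agent.MP_855f4c_ag.E

end

section

set_option backward.isDefEq.respectTransparency false

open CategoryTheory Limits Abelian Opposite AlgebraicGeometry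

namespace Pool.Agent.MP_855f4c_ag.E

open E3 E4

section
variable {l : ℕ} {Y : Scheme.{0}} {B : Type} [CommRing B] {u : Spec (.of B) ⟶ Y}

/-- Epimorphisms are onto at geometric points. -/
theorem EXG.epi_pt {G G' : Sh (Scheme.etaleTopology.over Y)} (φ : G ⟶ G') [Epi φ] (k : Type) [Field k] [IsAlgClosed k]
    (x : Spec (.of k) ⟶ Y) : Function.Surjective (φ.hom.app (op (Over.mk x))) :=
  shl_surj x φ.hom

theorem EXG.comp_app {F G K : Sh (Scheme.etaleTopology.over Y)} (φ : F ⟶ G) (ψ : G ⟶ K) (T : Over Y) (s : sec F T) :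
    (φ ≫ ψ).hom.app (op T) s = ψ.hom.app (op T) (φ.hom.app (op T) s) := rfl

theorem Van.of_mono {U : Set Y} {F G : Sh (Scheme.etaleTopology.over Y)} (φ : F ⟶ G) [Mono φ] (h : Van l U G) :
    Van l U F := fun k _ _ x hl hx _ =>
  mono_sec φ _ ((h k x hl hx _).trans (map_zero _).symm)

theorem Van.of_epi {U : Set Y} {F G : Sh (Scheme.etaleTopology.over Y)} (φ : F ⟶ G) [Epi φ] (h : Van l U F) :
    Van l U G := fun k _ _ x hl hx s => by
  obtain ⟨t, rfl⟩ := EXG.epi_pt φ k x s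
  rw [h k x hl hx t, map_zero]

theorem Gu.ker {F G : Sh (Scheme.etaleTopology.over Y)} (φ : F ⟶ G) (hF : Gu l u F) (hG : Lu l u G) :
    Gu l u (kernel φ) :=
  ⟨⟨Cc.ker φ hF.1.1 hG.1, Lis.kernel φ hF.1.2 hG.2⟩, hF.2.of_mono (kernel.ι φ)⟩

theorem Gu.coker {F G : Sh (Scheme.etaleTopology.over Y)} (φ : F ⟶ G) (hF : Lu l u F) (hG : Gu l u G) :
    Gu l u (cokernel φ) :=
  ⟨⟨Cc.coker φ hF.1 hG.1.1, Lis.cokernel φ hF.2 hG.1.2⟩, hG.2.of_epi (cokernel.π φ)⟩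

end

section
variable (h : FULL_s) {l : ℕ} {Y : Scheme.{0}} {B : Type} (Ω : Type) [CommRing B] [IsDomain B]
  [IsIntegrallyClosed B] [Field Ω] [IsAlgClosed Ω] [Algebra B Ω] [FaithfulSMul B Ω]
  [Algebra.IsAlgebraic B Ω] {u : Spec (.of B) ⟶ Y} [IsOpenImmersion u] (hl : Linv l Y)
include h hl

/-- A sheaf with zero generic stalk is zero. -/
theorem EXG.isZero {K : Sh (Scheme.etaleTopology.over Y)} (hK : Gu l u K) (h0 : ∀ m : sec K (ob u Ω), m = 0) :
    IsZero K :=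
  (IsZero.iff_id_eq_zero K).2 ((h l Y B Ω u hl K K hK hK.1).1 _ fun _ => h0 _)

theorem EXG.mono {F G : Sh (Scheme.etaleTopology.over Y)} (φ : F ⟶ G) (hF : Gu l u F) (hG : Lu l u G)
    (hφ : Function.Injective (φ.hom.app (op (ob u Ω)))) : Mono φ :=
  Preadditive.mono_of_isZero_kernel φ (EXG.isZero h Ω hl (Gu.ker φ hF hG) fun m =>
    mono_sec (kernel.ι φ) _ (hφ (by
      rw [← EXG.comp_app, kernel.condition, map_zero, map_zero]; rfl)))

theorem EXG.epi {F G : Sh (Scheme.etaleTopology.over Y)} (φ : F ⟶ G) (hF : Lu l u F) (hG : Gu l u G)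
    (hφ : Function.Surjective (φ.hom.app (op (ob u Ω)))) : Epi φ :=
  Preadditive.epi_of_isZero_cokernel φ (EXG.isZero h Ω hl (Gu.coker φ hF hG) fun m => by
    obtain ⟨t, rfl⟩ := EXG.epi_pt (cokernel.π φ) Ω _ m
    obtain ⟨s, rfl⟩ := hφ t
    rw [← EXG.comp_app, cokernel.condition]; rfl)

end

theorem exg (h : FULL_s) : EXG_s := by
  intro l Y B Ω _ _ _ _ _ _ _ _ u _ hl S h1 h2 h3 hf he hg
  have := EXG.mono h Ω hl S.f h1 h2.1 hf
  have := EXG.epi h Ω hl S.g h2.1 h3 hg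
  refine ⟨S.exact_iff_epi_kernel_lift.2
    (EXG.epi h Ω hl _ h1.1 (Gu.ker S.g h2 h3.1) fun m => ?_)⟩
  obtain ⟨s, hs⟩ := (he ((kernel.ι S.g).hom.app _ m)).1 (by
    rw [← EXG.comp_app, kernel.condition]; rfl)
  exact ⟨s, mono_sec (kernel.ι S.g) _ (by rw [← EXG.comp_app, kernel.lift_ι, hs])⟩

end Pool.Agent.MP_855f4c_ag.E

end

section

set_option backward.isDefEq.respectTransparency false

open CategoryTheory Limits Abelian Opposite AlgebraicGeometry Polynomial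

namespace Pool.Agent.MP_855f4c_ag.E

open E3 E4

namespace EXT1

variable {Γ N M : Type*} [Monoid Γ] [AddCommGroup N] [AddCommGroup M]

/-- The action on the extension that is given by a cocycle. -/
def tw (a : Γ →* AddMonoid.End N) (b : Γ →* AddMonoid.End M) (d : Γ → M →+ N)
    (h : ∀ σ τ m, d (σ * τ) m = a σ (d τ m) + d σ (b τ m)) : Γ →* AddMonoid.End (N × M) where
  toFun σ := AddMonoidHom.prod (AddMonoidHom.coprod (a σ) (d σ))
    (AddMonoidHom.comp (b σ) (AddMonoidHom.snd N M))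
  map_one' := by
    refine AddMonoidHom.ext fun z => ?_
    have h1 := h 1 1 z.2
    rw [mul_one, map_one, map_one] at h1
    have h2 : d 1 z.2 = 0 := left_eq_add.1 h1
    change (a 1 z.1 + d 1 z.2, b 1 z.2) = z
    rw [h2, map_one, map_one, add_zero]
    rfl
  map_mul' σ τ := by
    refine AddMonoidHom.ext fun z => ?_
    change (a (σ * τ) z.1 + d (σ * τ) z.2, b (σ * τ) z.2) =
      (a σ (a τ z.1 + d τ z.2) + d σ (b τ z.2), b σ (b τ z.2))
    rw [h, map_mul, map_mul, map_add, add_assoc]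
    rfl

lemma tw_apply (a : Γ →* AddMonoid.End N) (b : Γ →* AddMonoid.End M) (d : Γ → M →+ N) (h) (σ : Γ)
    (n : N) (m : M) : tw a b d h σ (n, m) = (a σ n + d σ m, b σ m) := rfl

variable {Y : Scheme.{0}} {B Ω : Type} [CommRing B] [Field Ω] [Algebra B Ω]
  (u : Spec (.of B) ⟶ Y)

lemma app_gal {F G : Sh (Scheme.etaleTopology.over Y)} (x : F ⟶ G) (σ : Ω ≃ₐ[B] Ω) (m : sec F (ob u Ω)) :
    x.hom.app _ (E4.gal u Ω F.obj σ m) = E4.gal u Ω G.obj σ (x.hom.app _ m) :=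
  nat x.hom (act u Ω σ) m

end EXT1

open EXT1

theorem ext1 (h1 : CX_s) (h2 : FULL_s) (h3 : OBJ_s) (h4 : EXG_s) : EXT1_s := by
  intro l Y B Ω _ _ _ _ _ _ _ _ u _ hY A G hA hG
  have hl : IsUnit (l : B) := hY.isUnit u
  have full := h2 l Y B Ω u hY
  refine ⟨?_, fun d => ⟨?_, ?_⟩⟩
  · rintro x ⟨E, i, p, w, hS, y, hp, rfl, hd⟩
    have hE : Lu l u E := ⟨Cc.X₂ hS hG.1 hA.1.1, Lis.X₂ hS hG.2 hA.1.2⟩
    obtain ⟨s, hs⟩ := (full A E hA hE).2 y fun σ m => by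
      have h := hd σ m
      rw [Pi.zero_apply, AddMonoidHom.zero_apply, map_zero] at h
      exact (sub_eq_zero.1 h.symm).symm
    have hsp : s ≫ p - 𝟙 A = 0 := (full A A hA hA.1).1 _ fun m => by
      change p.hom.app _ (s.hom.app _ m) - m = 0
      rw [hs, hp, sub_self]
    have h0 := hS.comp_extClass
    rw [← Ext.mk₀_id_comp hS.extClass]
    change (Ext.mk₀ (𝟙 A)).comp _ _ = 0
    rw [← sub_eq_zero.1 hsp, ← Ext.mk₀_comp_mk₀_assoc]
    exact (congrArg (fun z => (Ext.mk₀ s).comp z (zero_add 1)) h0).trans (Ext.comp_zero _ _ _ _ _)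
  · rintro ⟨x, E, i, p, w, hS, y, hp, -, hd⟩
    have hE : Lu l u E := ⟨Cc.X₂ hS hG.1 hA.1.1, Lis.X₂ hS hG.2 hA.1.2⟩
    have hi : Function.Injective (i.hom.app (op (ob u Ω))) := (sec_ex hS (ob u Ω)).1
    have hd' : ∀ g m, i.hom.app _ (d g m) =
        E4.gal u Ω E.obj g (y m) - y (E4.gal u Ω A.obj g m) := hd
    have h0 : ∀ g m, E4.gal u Ω E.obj g (y m) = y m → E4.gal u Ω A.obj g m = m → d g m = 0 :=
      fun g m a b => hi (by rw [hd', a, b, sub_self, map_zero])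
    refine ⟨fun σ τ m => hi ?_, fun m => ⟨?_, fun a _ g hg => ?_⟩⟩
    · rw [map_add, app_gal, hd', hd', hd', map_mul, map_mul, map_sub]
      exact (sub_add_sub_cancel _ _ _).symm
    · exact ((gal_opn u hE.1.1 (y m)).and (gal_opn u hA.1.1.1 m)).imp fun g hg =>
        h0 g m hg.1 hg.2
    · exact h0 g m (gal_unr u hE.1 hE.2 hl (y m) a g hg) (gal_unr u hA.1.1 hA.1.2 hl m a g hg)
  · rintro ⟨hc, hou⟩
    obtain ⟨K₁, e₁, hK₁, he₁⟩ := h3 l Y B Ω u hY (sec G (ob u Ω)) (E4.gal u Ω G.obj)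
      (gal_opn u hG.1.1) (gal_unr u hG.1 hG.2 hl)
    obtain ⟨K₂, e₂, hK₂, he₂⟩ := h3 l Y B Ω u hY (sec G (ob u Ω) × sec A (ob u Ω))
      (tw (E4.gal u Ω G.obj) (E4.gal u Ω A.obj) d hc)
      (fun z => (((gal_opn u hG.1.1 z.1).and (gal_opn u hA.1.1.1 z.2)).and (hou z.2).1).imp
        fun g hg => by rw [tw_apply, hg.1.1, hg.1.2, hg.2, add_zero])
      (fun z a _ g hg => by
        beta_reduce
        rw [tw_apply, gal_unr u hG.1 hG.2 hl z.1 a g hg, gal_unr u hA.1.1 hA.1.2 hl z.2 a g hg,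
          (hou z.2).2 a g hg, add_zero])
    have he₂' : ∀ σ n m, E4.gal u Ω K₂.obj σ (e₂.symm (n, m)) =
        e₂.symm (E4.gal u Ω G.obj σ n + d σ m, E4.gal u Ω A.obj σ m) := fun σ n m =>
      e₂.injective (by rw [he₂, e₂.apply_symm_apply, e₂.apply_symm_apply, tw_apply])
    obtain ⟨i, hi⟩ := (full K₁ K₂ hK₁ hK₂.1).2
      (e₂.symm.toAddMonoidHom.comp ((AddMonoidHom.inl _ _).comp e₁.toAddMonoidHom)) fun σ m => by
        change e₂.symm (e₁ _, 0) = E4.gal u Ω K₂.obj σ (e₂.symm (e₁ m, 0))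
        rw [he₂', he₁, map_zero, map_zero, add_zero]
    obtain ⟨p, hp⟩ := (full K₂ A hK₂ hA.1).2
      ((AddMonoidHom.snd _ _).comp e₂.toAddMonoidHom) fun σ m => congrArg Prod.snd (he₂ σ m)
    obtain ⟨b, hb⟩ := (full K₁ G hK₁ hG).2 e₁.toAddMonoidHom he₁
    have hi' : ∀ m, i.hom.app (op (ob u Ω)) m = e₂.symm (e₁ m, 0) := hi
    have hp' : ∀ m, p.hom.app (op (ob u Ω)) m = (e₂ m).2 := hp
    have w : i ≫ p = 0 := (full K₁ A hK₁ hA.1).1 _ fun m => by
      change p.hom.app _ (i.hom.app _ m) = 0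
      rw [hi', hp', e₂.apply_symm_apply]
    have hS : (ShortComplex.mk i p w).ShortExact := by
      refine h4 l Y B Ω u hY _ hK₁ hK₂ hA (fun m m' h => ?_) (fun m => ⟨fun h => ?_, ?_⟩)
        fun m => ⟨e₂.symm (0, m), ?_⟩
      · have h' : i.hom.app _ m = i.hom.app _ m' := h
        rw [hi', hi'] at h'
        exact e₁.injective (congrArg Prod.fst (e₂.symm.injective h'))
      · have h' : p.hom.app _ m = 0 := h
        rw [hp'] at h'
        refine ⟨e₁.symm (e₂ m).1, (hi' _).trans ?_⟩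
        rw [e₁.apply_symm_apply, ← h']
        exact e₂.symm_apply_apply m
      · rintro ⟨m', rfl⟩
        refine (hp' _).trans ?_
        have h' : (ShortComplex.mk i p w).f.hom.app _ m' = _ := hi' m'
        rw [h', e₂.apply_symm_apply]
      · exact (hp' _).trans (by rw [e₂.apply_symm_apply])
    have hC : Cx (ob u Ω) (act u Ω) hS.extClass
        fun g => e₁.symm.toAddMonoidHom.comp (d g) := by
      refine ⟨K₂, i, p, w, hS, e₂.symm.toAddMonoidHom.comp (AddMonoidHom.inr _ _), fun m => ?_,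
        rfl, fun g m => ?_⟩
      · change p.hom.app _ (e₂.symm (0, m)) = m
        rw [hp', e₂.apply_symm_apply]
      · change i.hom.app _ (e₁.symm (d g m)) = E4.gal u Ω K₂.obj g (e₂.symm (0, m)) -
          e₂.symm (0, E4.gal u Ω A.obj g m)
        rw [hi', he₂', ← map_sub, e₁.apply_symm_apply, map_zero, zero_add, Prod.mk_sub_mk,
          sub_zero, sub_self]
    exact ⟨_, (h1 _ _ A K₁ _ _ (act u Ω)).2.2.2 _ _ A G (𝟙 A) b d hC fun g m =>
      ((hb _).trans (e₁.apply_symm_apply _)).symm⟩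

end Pool.Agent.MP_855f4c_ag.E

end

section

set_option backward.isDefEq.respectTransparency false

open CategoryTheory Limits Abelian Opposite AlgebraicGeometry Polynomial

namespace Pool.Agent.MP_855f4c_ag.E

open E3 E4

namespace DUgeo

lemma spc_comp {A B C : Type} [CommRing A] [CommRing B] [CommRing C] (φ : A →+* B) (ψ : B →+* C) :
    spc ψ ≫ spc φ = spc (ψ.comp φ) := by
  rw [← Spec.map_comp, ← CommRingCat.ofHom_comp]

lemma spc_inj {A B : Type} [CommRing A] [CommRing B] {φ ψ : A →+* B} (h : spc φ = spc ψ) :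
    φ = ψ := congr(($(Spec.map_injective h)).hom)

variable {A k : Type} [CommRing A] [CommRing k] (L : PL (Spec (.of A))) (τ : A →+* k)

lemma pnt_fY {T : Scheme.{0}} (t : T ⟶ Spec (.of k)) (z : T ⟶ P1) :
    (LY L τ).pnt t z ≫ fY L τ = L.pnt (t ≫ spc τ) z := L.bc_pnt (Over.mk (spc τ)) t z

variable (B : Type) [CommRing B] [Algebra k[X] B]

lemma uY_eq : uY L τ B = spc (algebraMap k[X] B) ≫ (LY L τ).c₁ := ((LY L τ).map_c₁ _).symm

lemma uY_fY : uY L τ B ≫ fY L τ = uk L τ B := by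
  rw [pnt_fY, spc_comp, RingHom.comp_assoc]

variable (ψ : k →+* k) (hψ : spc ψ ≫ spc τ = spc τ)

lemma Φ_π : ΦY L τ ψ hψ ≫ (LY L τ).π = (LY L τ).π ≫ spc ψ := pullback.lift_fst _ _ _

lemma Φ_q : ΦY L τ ψ hψ ≫ (LY L τ).q = (LY L τ).q := by
  have := Over.w ((Over.pullback L.π).map (sph ψ hψ))
  exact (Category.assoc _ _ _).symm.trans (this =≫ L.q)

lemma ev_map (h : A[X]) :
    eval₂ ((algebraMap k[X] B).comp (C.comp τ)) (algebraMap k[X] B X) h =
      algebraMap k[X] B (h.map τ) := by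
  rw [← hom_eval₂, ← eval₂_map, eval₂_C_X]

end DUgeo

open DUgeo in
theorem geo : GEO_s := by
  intro l _ A _ L h F hF k B Ω _ _ τ _ _ _ _ _ _ hl
  have inj := FaithfulSMul.algebraMap_injective B Ω
  have hD : IsDomain B := inj.isDomain _
  have hu : IsUnit (algebraMap k[X] B (h.map τ)) := IsLocalization.Away.algebraMap_isUnit _
  have h0 : h.map τ ≠ 0 := fun e => hu.ne_zero (by rw [e, map_zero])
  have hle : Submonoid.powers (h.map τ) ≤ nonZeroDivisors k[X] :=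
    powers_le_nonZeroDivisors_of_noZeroDivisors h0
  have ho : IsOpenImmersion (uY L τ B) := by
    have := IsOpenImmersion.of_isLocalization (S := B) (h.map τ)
    rw [uY_eq]; infer_instance
  refine ⟨hD, isIntegrallyClosed_of_isLocalization B _ hle, ho, uY_fY L τ B,
    (Linv.spec hl.isUnit).of_hom (LY L τ).π, ?_, ?_, ⟨⟨hF.1.1.pb _, ?_⟩, ?_⟩, ?_⟩
  · exact QuasiCompact.compactSpace_of_compactSpace (LY L τ).π
  · exact ⟨by rw [← terminal.comp_from (LY L τ).π]; infer_instance⟩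
  · refine (Lis.map_iff (fY L τ) F.obj _).2 (hF.2.2.1.mono ?_)
    have H : Set.range (uk L τ B) ⊆ Set.range (L.u h) :=
      (L.pt1_range_u h _ _).2 (by rw [ev_map]; exact hu)
    refine Over.homMk (spc (algebraMap B B) ≫ IsOpenImmersion.lift _ _ H) ?_
    simp only [Over.mk_hom, Over.map_obj_hom, Category.assoc, IsOpenImmersion.lift_fac]
    rw [uY_fY]
  · intro K _ _ x hK hx
    refine hF.2.2.2 K (x ≫ fY L τ) hK fun z hz => ?_
    obtain ⟨φ, hφ⟩ := Spec.map_surjective (x ≫ (LY L τ).π)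
    rcases (LY L τ).pnt_field x with ⟨a, e⟩ | e
    · rw [← hφ] at e
      have e' : x = spc (eval₂RingHom φ.hom a) ≫ (LY L τ).c₁ := e.trans ((LY L τ).pnt_pt1 φ.hom a)
      rw [e, pnt_fY] at hz
      have hz' := (L.pt1_mem_u h (φ.hom.comp τ) a z).1 (by
        rw [show Spec.map (CommRingCat.ofHom (φ.hom.comp τ)) = Spec.map φ ≫ spc τ from
          (spc_comp τ φ.hom).symm]
        exact hz)
      obtain ⟨y, hy⟩ := (mem_range_away (S := B) (h.map τ) (spc (eval₂RingHom φ.hom a) z)).2 (by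
        change eval₂ φ.hom a (h.map τ) ∉ z.asIdeal
        rwa [eval₂_map])
      exact hx z ⟨y, by rw [uY_eq, e', Scheme.Hom.comp_apply, Scheme.Hom.comp_apply, hy]⟩
    · rw [e, pnt_fY] at hz
      exact L.pt2_zero_notMem_u h _ z hz
  · intro g ψ hψ hg hc
    simp only [Over.mk_hom, PL.comp_pnt, map_pt1] at hg
    have hX : g (algebraMap B Ω (algebraMap k[X] B X)) = algebraMap B Ω (algebraMap k[X] B X) :=
      pt1_inj.1 (L.pnt_inj.1 hg).2
    have hτ : ψ.comp τ = τ := spc_inj ((spc_comp τ ψ).symm.trans hψ)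
    have hp : ∀ p : k[X], g (algebraMap B Ω (algebraMap k[X] B p)) =
        algebraMap B Ω (algebraMap k[X] B (p.map ψ)) := fun p =>
      RingHom.congr_fun (f := ((g : Ω →+* Ω).comp (algebraMap B Ω)).comp (algebraMap k[X] B))
        (g := ((algebraMap B Ω).comp (algebraMap k[X] B)).comp (mapRingHom ψ))
        (Polynomial.ringHom_ext (fun c => by simpa using hc c) (by simpa using hX)) p
    refine ⟨(LY L τ).pnt_ext ?_ ?_, Φ_q L τ ψ hψ, Φ_π L τ ψ hψ, fun σ' => ?_⟩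
    · simp only [Over.mk_hom, Category.assoc, Φ_π, PL.pnt_π, PL.pnt_π_assoc, spc_comp]
      exact congrArg spc (RingHom.ext hc)
    · simp only [Over.mk_hom, Category.assoc, Φ_q, PL.pnt_q, map_pt1]
      exact congrArg pt1 hX
    · refine ⟨AlgEquiv.ofRingEquiv (f := (g.trans σ'.toRingEquiv).trans g.symm) fun b => ?_,
        fun z => by simp⟩
      obtain ⟨n, a, e⟩ := IsLocalization.Away.surj (S := B) (h.map τ) b
      have e1 := congrArg (fun y => g (algebraMap B Ω y)) e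
      simp only [map_mul, map_pow, hp, Polynomial.map_map, hτ] at e1
      have e2 := congrArg σ' e1
      simp only [map_mul, map_pow, AlgEquiv.commutes] at e2
      have hn : algebraMap B Ω (algebraMap k[X] B (h.map τ)) ≠ 0 := (hu.map _).ne_zero
      have := mul_right_cancel₀ (pow_ne_zero n hn) (e2.trans e1.symm)
      simp [this]

end Pool.Agent.MP_855f4c_ag.E

end

section

namespace Pool.Agent.MP_855f4c_ag.E

theorem du1 (hD : D1_s) (hP : CV.P1MU_s) : DU1_s :=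
  DU.du1' hD hP mui geo cx (ext1 cx full obj (exg full))

theorem du2 (hD : D1_s) (hP : CV.P1MU_s) : DU2_s := DU.du2' hD hP mui geo full

end Pool.Agent.MP_855f4c_ag.E

end
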