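import Pool.Agent.MP_855f4c_ag.EC.Da
import Pool.Agent.MP_855f4c_ag.EC.E3a
import Pool.Agent.MP_855f4c_ag.EC.F2c
import Pool.Agent.MP_855f4c_ag.EC.F2d
import Pool.Agent.MP_855f4c_ag.EC.E4c

section

set_option autoImplicit false
set_option backward.isDefEq.respectTransparency false

open CategoryTheory Limits Opposite AlgebraicGeometry

namespace Pool.Agent.MP_855f4c_ag.E.D

open E3

lemma intb_card {K D : Type} [Field K] [CommRing D] [Nontrivial D] {n m : ℕ}
    (g : MvPolynomial (Fin n) K →+* D) (g' : MvPolynomial (Fin m) K →+* D) (hg : g.Etale)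
    (hg' : g'.Etale) (h : g.comp MvPolynomial.C = g'.comp MvPolynomial.C) : n = m := by
  let _ : Algebra K D := (g.comp MvPolynomial.C).toAlgebra
  have key : ∀ (r : ℕ) (e : MvPolynomial (Fin r) K →+* D), e.Etale →
      e.comp MvPolynomial.C = g.comp MvPolynomial.C →
      Module.finrank D (KaehlerDifferential K D) = r := by
    intro r e he hc
    let _ : Algebra (MvPolynomial (Fin r) K) D := e.toAlgebra
    have : IsScalarTower K (MvPolynomial (Fin r) K) D := .of_algebraMap_eq' hc.symm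
    have : Algebra.Etale (MvPolynomial (Fin r) K) D := he
    have b := ((KaehlerDifferential.mvPolynomialBasis K (Fin r)).baseChange D).map
      (KaehlerDifferential.tensorKaehlerEquivOfFormallyEtale K (MvPolynomial (Fin r) K) D)
    rw [Module.finrank_eq_card_basis b, Fintype.card_fin]
  exact (key n g hg rfl).symm.trans (key m g' hg' h.symm)

lemma intb_dom {R C : Type} [CommRing R] [IsDomain R] [IsIntegrallyClosed R] [CommRing C]
    [IsNoetherianRing C] [Algebra R C] [Algebra.Etale R C] (p : Ideal C) [p.IsPrime] :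
    ∃ h ∉ p, IsDomain (Localization.Away h) := by
  classical
  have hd : IsDomain (Localization.AtPrime p) :=
    ((IndEt.of_etale (R := R) (C := C)).comp
      (IndEt.of_isLocalization (C := Localization.AtPrime p) p.primeCompl)).isDomain
  obtain ⟨s, hs⟩ := IsNoetherian.noetherian (RingHom.ker (algebraMap C (Localization.AtPrime p)))
  have h1 : ∀ b ∈ s, ∃ t : p.primeCompl, (t : C) * b = 0 := fun b hb =>
    (IsLocalization.map_eq_zero_iff p.primeCompl (Localization.AtPrime p) b).1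
      (hs.le (Submodule.subset_span hb))
  choose! t ht using h1
  have hh : ((∏ b ∈ s, t b : p.primeCompl) : C) ∉ p := (∏ b ∈ s, t b).2
  refine ⟨_, hh, ?_⟩
  set h : C := ((∏ b ∈ s, t b : p.primeCompl) : C) with hdef
  have hk : ∀ b, algebraMap C (Localization.AtPrime p) b = 0 → h * b = 0 := by
    intro b hb
    have hb' : b ∈ Submodule.span C (s : Set C) := hs.ge hb
    clear hb
    induction hb' using Submodule.span_induction with
    | mem x hx =>
      rw [hdef, ← Finset.prod_erase_mul s t hx, Submonoid.coe_mul, mul_assoc, ht x hx, mul_zero]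
    | zero => simp
    | add x y _ _ hx hy => rw [mul_add, hx, hy, add_zero]
    | smul a x _ hx => rw [smul_eq_mul, mul_left_comm, hx, mul_zero]
  have hu : IsUnit (algebraMap C (Localization.AtPrime p) h) :=
    IsLocalization.map_units _ (⟨h, hh⟩ : p.primeCompl)
  refine Function.Injective.isDomain (IsLocalization.Away.lift (S := Localization.Away h) h hu)
    ((injective_iff_map_eq_zero _).2 fun z hz => ?_)
  obtain ⟨⟨b, c⟩, rfl⟩ := IsLocalization.mk'_surjective (Submonoid.powers h) z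
  have h2 := congrArg (IsLocalization.Away.lift (S := Localization.Away h) h hu)
    (IsLocalization.mk'_spec (Localization.Away h) b c)
  rw [map_mul, hz, zero_mul, IsLocalization.Away.lift_eq] at h2
  exact (IsLocalization.mk'_eq_zero_iff _ _).2 ⟨⟨h, Submonoid.mem_powers h⟩, hk b h2.symm⟩

lemma intb_loc {K : Type} [Field K] {X : Scheme.{0}} (f : X ⟶ Spec (.of K)) [Smooth f] (x : X) :
    ∃ (n : ℕ) (C : Type) (_ : CommRing C) (g : MvPolynomial (Fin n) K →+* C)
      (u : Spec (.of C) ⟶ X), g.Etale ∧ IsOpenImmersion u ∧ x ∈ Set.range u ∧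
      u ≫ f = Spec.map (CommRingCat.ofHom (g.comp MvPolynomial.C)) := by
  obtain ⟨A, u, _, p, rfl⟩ := X.exists_Spec_apply_eq x
  obtain ⟨φ, hφ⟩ := Spec.map_surjective (u ≫ f)
  have h1 : Smooth (Spec.map φ) := by rw [hφ]; infer_instance
  let _ : Algebra K A := φ.hom.toAlgebra
  have : Algebra.Smooth K A := (HasRingHomProperty.Spec_iff (P := @Smooth)).1 h1
  have : Algebra.IsSmoothAt K p.asIdeal :=
    Algebra.FormallySmooth.comp K A (Localization.AtPrime p.asIdeal)
  obtain ⟨h, hh, n, _, _, _⟩ := Algebra.IsSmoothAt.exists_isStandardEtale_mvPolynomial (R := K)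
    (p := p.asIdeal)
  refine ⟨n, Localization.Away h, inferInstance, algebraMap _ _,
    Spec.map (CommRingCat.ofHom (algebraMap A (Localization.Away h))) ≫ u,
    RingHom.etale_algebraMap.2 inferInstance, inferInstance, ?_, ?_⟩
  · obtain ⟨y, hy⟩ := (Set.ext_iff.1 (PrimeSpectrum.localization_away_comap_range
      (Localization.Away h) h) p).2 hh
    exact ⟨y, by rw [Scheme.Hom.comp_apply]; exact congrArg u hy⟩
  · rw [Category.assoc, ← hφ, ← Spec.map_comp]
    congr 1
    ext k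
    exact (IsScalarTower.algebraMap_apply K A (Localization.Away h) k).symm.trans
      (IsScalarTower.algebraMap_apply K (MvPolynomial (Fin n) K) (Localization.Away h) k)

theorem intb : INTB_s := by
  intro K _ X f _ x
  obtain ⟨n, C, _, g, u, hg, _, ⟨p, rfl⟩, -⟩ := intb_loc f x
  have : IsIntegrallyClosed (MvPolynomial (Fin n) K) :=
    UniqueFactorizationMonoid.instIsIntegrallyClosed
  let _ : Algebra (MvPolynomial (Fin n) K) C := g.toAlgebra
  have : Algebra.Etale (MvPolynomial (Fin n) K) C := hg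
  have : IsNoetherianRing C := Algebra.FiniteType.isNoetherianRing (MvPolynomial (Fin n) K) C
  obtain ⟨h, hh, _⟩ := intb_dom (R := MvPolynomial (Fin n) K) p.asIdeal
  let v := Spec.map (CommRingCat.ofHom (algebraMap C (Localization.Away h))) ≫ u
  refine ⟨v.opensRange, ?_, isAffineOpen_opensRange v, IsIntegral.of_isIso v.isoOpensRange.hom⟩
  obtain ⟨y, hy⟩ := (Set.ext_iff.1 (PrimeSpectrum.localization_away_comap_range
    (Localization.Away h) h) p).2 hh
  exact ⟨y, by rw [Scheme.Hom.comp_apply]; exact congrArg u hy⟩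

theorem cht (hT : TWF_s) : CHT_s := by
  intro K _ X f _ _
  obtain ⟨x₀⟩ : Nonempty X := inferInstance
  obtain ⟨d, C₀, _, g₀, u₀, hg₀, _, hx₀, hu₀⟩ := intb_loc f x₀
  refine ⟨d, fun x => ?_⟩
  obtain ⟨n, C, _, g, u, hg, _, hx, hu⟩ := intb_loc f x
  obtain rfl : n = d := by
    obtain ⟨z, ⟨y, rfl⟩, y₀, hy⟩ := nonempty_preirreducible_inter u.isOpenEmbedding.isOpen_range
      u₀.isOpenEmbedding.isOpen_range ⟨x, hx⟩ ⟨x₀, hx₀⟩
    obtain ⟨t, -, -⟩ := Scheme.Pullback.exists_preimage_pullback y y₀ hy.symm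
    obtain ⟨D, w, _, q, -⟩ := (pullback u u₀).exists_Spec_apply_eq t
    obtain ⟨a, ha⟩ := Spec.map_surjective (w ≫ pullback.fst u u₀)
    obtain ⟨a₀, ha₀⟩ := Spec.map_surjective (w ≫ pullback.snd u u₀)
    have : Nontrivial D := PrimeSpectrum.nonempty_iff_nontrivial.1 ⟨q⟩
    have h1 : Etale (Spec.map a) := by rw [ha]; infer_instance
    have h2 : Etale (Spec.map a₀) := by rw [ha₀]; infer_instance
    refine intb_card (a.hom.comp g) (a₀.hom.comp g₀)
      (RingHom.Etale.stableUnderComposition _ _ hg ((HasRingHomProperty.Spec_iff (P := @Etale)).1 h1))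
      (RingHom.Etale.stableUnderComposition _ _ hg₀
        ((HasRingHomProperty.Spec_iff (P := @Etale)).1 h2)) ?_
    have h3 : Spec.map (CommRingCat.ofHom (g.comp MvPolynomial.C) ≫ a) =
        Spec.map (CommRingCat.ofHom (g₀.comp MvPolynomial.C) ≫ a₀) := by
      rw [Spec.map_comp, Spec.map_comp, ha, ha₀, ← hu, ← hu₀, Category.assoc, Category.assoc,
        pullback.condition_assoc]
    exact congrArg CommRingCat.Hom.hom (Spec.map_injective h3)
  obtain ⟨P, p, j, hp, _, hj⟩ := hT.2.1 n K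
  have : Etale (spc g) := (HasRingHomProperty.Spec_iff (P := @Etale)).2 hg
  refine ⟨_, P, u, p, spc g ≫ j, inferInstance, inferInstance, hp, inferInstance, ?_, hx⟩
  rw [hu, Category.assoc, hj, ← Spec.map_comp]
  rfl

end Pool.Agent.MP_855f4c_ag.E.D

end

section

set_option autoImplicit false
set_option backward.isDefEq.respectTransparency false

open CategoryTheory Limits Abelian Opposite AlgebraicGeometry

namespace Pool.Agent.MP_855f4c_ag.E.D

open E3 E4

section
variable {R Ω : Type} [CommRing R] [CommRing Ω] {τ : R →+* Ω} {X : Scheme.{0}}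
  (f : X ⟶ Spec (.of R))

theorem COMP.tri {A : Type} [CommRing A] {σ : A →+* Ω} {τ' : R →+* A} (e : σ.comp τ' = τ) :
    spc σ ≫ spc τ' = spc τ := by
  rw [← e, ← Spec.map_comp]; rfl

/-- The projection between fibres. -/
noncomputable def COMP.prj {A : Type} [CommRing A] {σ : A →+* Ω} {τ' : R →+* A}
    (e : σ.comp τ' = τ) : pullback (spc τ) f ⟶ pullback (spc τ') f :=
  ((Over.pullback f).map (sph σ (COMP.tri e))).left

theorem COMP.sq {A : Type} [CommRing A] {σ : A →+* Ω} {τ' : R →+* A} (e : σ.comp τ' = τ) :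
    IsPullback (COMP.prj f e) (pullback.fst (spc τ) f) (pullback.fst (spc τ') f) (spc σ) := by
  refine IsPullback.of_right (h₁₂ := pullback.snd (spc τ') f) (v₁₃ := f) (h₂₂ := spc τ') ?_
    (pullback.lift_fst _ _ _) (IsPullback.of_hasPullback _ _).flip
  rw [COMP.tri e, show COMP.prj f e ≫ pullback.snd (spc τ') f = pullback.snd (spc τ) f from
    pullback.lift_snd _ _ _]
  exact (IsPullback.of_hasPullback _ _).flip

end

/-- Compact opens of the geometric fibre are defined over finitely many elements. -/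
theorem COMP.desc {R Ω : Type} [CommRing R] [Field Ω] {τ : R →+* Ω} {X : Scheme.{0}}
    (f : X ⟶ Spec (.of R)) (U : (pullback (spc τ) f).Opens)
    (hU : IsCompact (U : Set ↥(pullback (spc τ) f))) :
    ∃ E : Finset Ω, ∀ (K : Subfield Ω) (τ' : R →+* K) (e : K.subtype.comp τ' = τ),
      (∀ x ∈ E, x ∈ K) → ∃ V : (pullback (spc τ') f).Opens, COMP.prj f e ⁻¹ᵁ V = U := by
  classical
  let _ := τ.toAlgebra
  have H := Stage.fac_fp (R := R) (C := Ω)
  have := H.isFiltered
  have tri {A B : Type} [CommRing A] [CommRing B] [Algebra R A] [Algebra R B] (g : A →ₐ[R] B) :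
      spc (g : A →+* B) ≫ spc (algebraMap R A) = spc (algebraMap R B) := by
    rw [← g.comp_algebraMap, ← Spec.map_comp]; rfl
  have hc := FIN.sysL (Stage.diag R Ω _) (fun k => spc (algebraMap R k.E)) (fun f => tri f.1)
    (Stage.cocone R Ω _) (spc τ) (fun k => tri k.φ) H.isColimit.some
  let D := FIN.sysD (Stage.diag R Ω fun _ _ _ => True) (fun k => spc (algebraMap R k.E))
    (fun f => tri f.1)
  have {i j} (g : i ⟶ j) : IsAffineHom (((D ⋙ Over.pullback f) ⋙ Over.forget X).map g) := by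
    have : IsAffine (D.obj i).left := inferInstanceAs (IsAffine (Spec _))
    have : IsAffine (D.obj j).left := inferInstanceAs (IsAffine (Spec _))
    exact MorphismProperty.overPullbackMap f (D.map g) (isAffineHom_of_isAffine (D.map g).left)
  obtain ⟨⟨a⟩, V, -, hV⟩ := exists_preimage_eq _ _
    (limForget (isLimitOfPreserves (Over.pullback f) hc)) U hU
  refine ⟨Finset.univ.image fun i => a.φ (Ideal.Quotient.mk _ (MvPolynomial.X i)),
    fun K τ' e hK => ?_⟩
  have hm (x : a.E) : a.φ x ∈ K := by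
    obtain ⟨p, rfl⟩ := Ideal.Quotient.mk_surjective x
    induction p using MvPolynomial.induction_on with
    | C r =>
      rw [show a.φ (Ideal.Quotient.mk _ (MvPolynomial.C r)) = τ r from a.φ.commutes r, ← e]
      exact (τ' r).2
    | add p q hp hq => rw [map_add, map_add]; exact K.add_mem hp hq
    | mul_X p i hp =>
      rw [map_mul, map_mul]
      exact K.mul_mem hp (hK _ (Finset.mem_image_of_mem _ (Finset.mem_univ i)))
  let φ : a.E →+* K := (a.φ : a.E →+* Ω).codRestrict K hm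
  have e' : φ.comp (algebraMap R a.E) = τ' :=
    RingHom.ext fun r => Subtype.ext ((a.φ.commutes r).trans (congr($e r)).symm)
  refine ⟨COMP.prj f e' ⁻¹ᵁ V, ?_⟩
  rw [← hV, ← Scheme.Hom.comp_preimage]
  refine congrArg (fun p : pullback (spc τ) f ⟶ _ => p ⁻¹ᵁ V) ?_
  change ((Over.pullback f).map (sph K.subtype (COMP.tri e)) ≫
    (Over.pullback f).map (sph φ (COMP.tri e'))).left = _
  rw [← Functor.map_comp]
  exact congrArg (fun g => ((Over.pullback f).map g).left)
    (Over.OverMorphism.ext (Spec.map_comp _ _).symm)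

theorem COMP.opn {Y : Type} [TopologicalSpace Y]
    (h : ∀ y : Y, ∃ U : Set Y, y ∈ U ∧ IsOpen U ∧ IsPreirreducible U) (x : Y) :
    IsOpen (irreducibleComponent x) := by
  refine isOpen_iff_forall_mem_open.2 fun y hy => ?_
  obtain ⟨U, hyU, ho, hi⟩ := h y
  refine ⟨U, ?_, ho, hyU⟩
  rw [← eq_irreducibleComponent hi.closure
    (subset_closure_inter_of_isPreirreducible_of_isOpen isIrreducible_irreducibleComponent.2 ho
      ⟨y, hy, hyU⟩ |>.trans (closure_mono Set.inter_subset_right))]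
  exact subset_closure

theorem comp (IB : INTB_s) : COMP_s := by
  intro R Ω _ _ _ τ X f _ _
  classical
  have : CompactSpace ↥(pullback (spc τ) f) :=
    QuasiCompact.compactSpace_of_compactSpace (pullback.fst (spc τ) f)
  have ho := COMP.opn (Y := ↥(pullback (spc τ) f)) fun y => by
    obtain ⟨U, h1, -, h2⟩ := IB Ω _ (pullback.fst (spc τ) f) y
    exact ⟨U, h1, U.2, (isIrreducible_iff_irreducibleSpace.2
      (inferInstanceAs (IrreducibleSpace U.toScheme))).2⟩
  obtain ⟨t, ht⟩ := isCompact_univ.elim_finite_subcover _ ho fun x _ =>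
    Set.mem_iUnion.2 ⟨x, mem_irreducibleComponent⟩
  choose E hE using fun x => COMP.desc f ⟨_, ho x⟩ isClosed_irreducibleComponent.isCompact
  choose E' hE' using fun x => COMP.desc f
    ⟨_, (isClosed_irreducibleComponent (x := x)).isOpen_compl⟩ (ho x).isClosed_compl.isCompact
  refine ⟨t.biUnion fun x => E x ∪ E' x, fun K τ' e hK => ?_⟩
  choose V hV using fun x : t => hE x K τ' e fun y hy =>
    hK y (Finset.mem_biUnion.2 ⟨x, x.2, Finset.mem_union_left _ hy⟩)
  choose V' hV' using fun x : t => hE' x K τ' e fun y hy =>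
    hK y (Finset.mem_biUnion.2 ⟨x, x.2, Finset.mem_union_right _ hy⟩)
  have s0 : AlgebraicGeometry.Surjective (spc K.subtype) :=
    ⟨fun x => ⟨default, Subsingleton.elim _ _⟩⟩
  have s1 : AlgebraicGeometry.Surjective (COMP.prj f e) :=
    MorphismProperty.of_isPullback (COMP.sq f e).flip s0
  let g (a : t) : (V a).toScheme ⟶ Spec (.of K) := (V a).ι ≫ pullback.fst (spc τ') f
  let u (a : t) : (V a).toScheme ⟶ X := (V a).ι ≫ pullback.snd (spc τ') f
  let c (a : t) : pullback (spc K.subtype) (g a) ⟶ pullback (spc τ) f :=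
    pullback.lift (pullback.fst _ _) (pullback.snd _ _ ≫ u a) (by
      rw [← COMP.tri e, pullback.condition_assoc, Category.assoc, Category.assoc, Category.assoc,
        pullback.condition])
  have c1 (a : t) : c a ≫ pullback.fst _ _ = pullback.fst _ _ := pullback.lift_fst _ _ _
  have c2 (a : t) : c a ≫ pullback.snd _ _ = pullback.snd _ _ ≫ u a := pullback.lift_snd _ _ _
  have pb (a : t) : IsPullback (c a) (pullback.snd (spc K.subtype) (g a)) (COMP.prj f e)
      (V a).ι := by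
    refine IsPullback.of_right ?_ ?_ (COMP.sq f e).flip
    · rw [c1]; exact IsPullback.of_hasPullback _ _
    · refine pullback.hom_ext ?_ ?_
      · rw [Category.assoc, (COMP.sq f e).w, ← Category.assoc, c1, pullback.condition,
          Category.assoc]
      · rw [Category.assoc, Category.assoc, show COMP.prj f e ≫ pullback.snd (spc τ') f =
          pullback.snd (spc τ) f from pullback.lift_snd _ _ _, c2]
  have rg (a : t) : Set.range (c a) = irreducibleComponent a.1 := by
    refine Eq.trans ?_ (congrArg SetLike.coe (hV a))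
    ext z
    refine ⟨?_, fun hz => ?_⟩
    · rintro ⟨y, rfl⟩
      change (c a ≫ COMP.prj f e) y ∈ V a
      rw [(pb a).w]
      exact (pullback.snd (spc K.subtype) (g a) y).2
    · obtain ⟨y, h, -⟩ := Scheme.exists_preimage_of_isPullback (pb a) z ⟨_, hz⟩ rfl
      exact ⟨y, h⟩
  refine ⟨t, inferInstance, _, u, g, fun a => Over.homMk (c a) (c2 a), fun a => ?_, fun z => ?_⟩
  · have oi : IsOpenImmersion (c a) := MorphismProperty.of_isPullback (pb a).flip inferInstance
    have hc : (V a : Set ↥(pullback (spc τ') f)) = (V' a : Set ↥(pullback (spc τ') f))ᶜ := by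
      ext z
      obtain ⟨y, rfl⟩ := (COMP.prj f e).surjective z
      change y ∈ COMP.prj f e ⁻¹ᵁ V a ↔ ¬ y ∈ COMP.prj f e ⁻¹ᵁ V' a
      rw [hV, hV']
      exact not_not.symm
    have : IsClosedImmersion (V a).ι := .of_isPreimmersion _ (by
      rw [Scheme.Opens.range_ι, hc]
      exact (V' a).2.isClosed_compl)
    have ir : IrreducibleSpace ↥(pullback (spc K.subtype) (g a)) := by
      obtain ⟨y, -⟩ : a.1 ∈ Set.range (c a) := rg a ▸ mem_irreducibleComponent
      have := (isIrreducible_irreducibleComponent (x := a.1)).2.preimage (c a).isOpenEmbedding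
      rw [← rg a, Set.preimage_range] at this
      exact { toPreirreducibleSpace := ⟨this⟩, toNonempty := ⟨y⟩ }
    have s2 : AlgebraicGeometry.Surjective (pullback.snd (spc K.subtype) (g a)) :=
      MorphismProperty.pullback_snd _ _ s0
    exact ⟨inferInstance, inferInstance,
      (pullback.snd (spc K.subtype) (g a)).surjective.irreducibleSpace
        (pullback.snd (spc K.subtype) (g a)).continuous, ir, oi,
      (rg a ▸ isClosed_irreducibleComponent : IsClosed (Set.range (c a))), c1 a⟩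
  · obtain ⟨x, hx, hz⟩ := Set.mem_iUnion₂.1 (ht (Set.mem_univ z))
    exact ⟨⟨x, hx⟩, (rg ⟨x, hx⟩).ge hz⟩

end Pool.Agent.MP_855f4c_ag.E.D

end

section

set_option autoImplicit false
set_option backward.isDefEq.respectTransparency false

open CategoryTheory Limits Abelian Opposite AlgebraicGeometry Function

namespace Pool.Agent.MP_855f4c_ag.E.D

open E3 E4
open CV (Ln Lm)

namespace PDX

variable {X : Scheme.{0}}

lemma hm_hm (n q : ℕ) (T : Over X) {W'' W' W : Over X} (a : W'' ⟶ W') (b : W' ⟶ W) (x) :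
    Hmap (Lm n b) T q (Hmap (Lm n a) T q x) = Hmap (Lm n (a ≫ b)) T q x := by
  have : Lm n a ≫ Lm n b = Lm n (a ≫ b) := by
    rw [← cancel_epi (cokernel.π _)]
    simp [Lm]
  exact (post_post _ _ x).trans (by rw [this]; rfl)

lemma top_ext {W : Over X} (a b : W ⟶ top X) : a = b :=
  Over.OverMorphism.ext (by simpa using (Over.w a).trans (Over.w b).symm)

lemma hm_tot (n q : ℕ) {W' W : Over X} (a : W' ⟶ W) :
    Hmap (Lm n (tot W)) (top X) q ∘ Hmap (Lm n a) (top X) q = Hmap (Lm n (tot W')) (top X) q :=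
  funext fun x => (hm_hm n q _ a _ x).trans (by rw [top_ext (a ≫ tot W)])

/-- The fibre over the identity. -/
noncomputable def rI {S : Scheme.{0}} (f : X ⟶ S) (F : Sh (Scheme.etaleTopology.over X)) (q : ℕ) :
    H (top X) F q ≃+ H (fbr f (𝟙 S)) F q :=
  have : IsIso (tot (fbr f (𝟙 S))) := isIso_homMk _ (inferInstanceAs (IsIso (pullback.snd (𝟙 S) f)))
  AddEquiv.ofBijective (res (tot (fbr f (𝟙 S))) F q) (pre_bij _ F q)

lemma rI_map {S : Scheme.{0}} (f : X ⟶ S) {F G : Sh (Scheme.etaleTopology.over X)} (φ : F ⟶ G) (q : ℕ) (x) :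
    rI f G q (Hmap φ _ q x) = Hmap φ _ q (rI f F q x) := (Hmap_res _ φ q x).symm

lemma ind0 (h : IND2_s) (l : ℕ) [Fact l.Prime] {K : Type} [Field K] {P W₀ : Scheme.{0}}
    (f : X ⟶ Spec (.of K)) (g : P ⟶ Spec (.of K)) [IsProper f] [IsProper g] [IsAffine W₀]
    (u : W₀ ⟶ X) (v : W₀ ⟶ P) [IsOpenImmersion u] [Etale v] (n q : ℕ) (hn : Lp l n)
    (hl : (l : K) ≠ 0) (w : u ≫ f = v ≫ g) : ∃ e : ∀ (W : Over W₀), Aet W →
      H (top X) (Ln n ((Over.map u).obj W)) q ≃+ H (top P) (Ln n ((Over.map v).obj W)) q,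
      ∀ (W' W : Over W₀) (h : W' ⟶ W) a' a x,
        e W a (Hmap (Lm _ ((Over.map u).map h)) _ q x) =
          Hmap (Lm _ ((Over.map v).map h)) _ q (e W' a' x) := by
  obtain ⟨e, he, -⟩ := h l K X P W₀ f g u v n q hn hl w
  refine ⟨fun W a => ((rI f _ q).trans (e W a (top _))).trans (rI g _ q).symm,
    fun W' W h a' a x => (rI g _ q).injective ?_⟩
  rw [rI_map]
  simp only [AddEquiv.trans_apply, AddEquiv.apply_symm_apply]
  rw [rI_map]
  exact he W' W h a' a _ _

lemma aet_top (W : Scheme.{0}) [IsAffine W] : Aet (top W) :=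
  ⟨inferInstanceAs (Etale (𝟙 W)), inferInstanceAs (IsAffine W)⟩

lemma aet_map {W₀ : Scheme.{0}} (u : W₀ ⟶ X) [Etale u] {W : Over W₀} (h : Aet W) :
    Aet ((Over.map u).obj W) :=
  have := h.1
  ⟨inferInstanceAs (Etale (W.hom ≫ u)), h.2⟩

lemma aet_pb {W₀ : Scheme.{0}} (u : W₀ ⟶ X) [IsAffineHom u] {W : Over X} (h : Aet W) :
    Aet ((Over.pullback u).obj W) :=
  have := h.1
  have := h.2
  ⟨inferInstanceAs (Etale (pullback.snd _ _)), inferInstanceAs (IsAffine (pullback _ _))⟩

/-- The projection. -/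
noncomputable def prj {W₀ : Scheme.{0}} (u : W₀ ⟶ X) (W : Over X) :
    (Over.map u).obj ((Over.pullback u).obj W) ⟶ W :=
  Over.homMk (pullback.fst _ _) pullback.condition

end PDX

open PDX in
theorem pdx (cdg : CDG_s) (pdt : PDT_s) (conn : CONN_s) (dense : DENSE_s) (ind2 : IND2_s)
    (tow : TOW_s) (tws : TWS_s) (twf : TWF_s) (dset : DSET_s) (intb : INTB_s) : PDX_s := by
  intro l _ Ω _ _ _ X f _ _ _ d hc
  have hl : (l : Ω) ≠ 0 := Nat.cast_ne_zero.2 (Fact.out : l.Prime).ne_zero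
  have hL : Linv l (Spec (.of Ω)) := .spec hl.isUnit
  have hll : Lp l l := ⟨1, (pow_one l).symm⟩
  obtain ⟨c1, c2⟩ := cdg l Ω X f d hc
  have hX : Etale (top X).hom := inferInstanceAs (Etale (𝟙 X))
  have hI : IrreducibleSpace (top X).left := inferInstanceAs (IrreducibleSpace X)
  obtain ⟨W₀, P, u, g, v, _, _, hg, _, w, x₀, -⟩ := hc (Classical.arbitrary X)
  have : Nonempty W₀ := ⟨x₀⟩
  have := u.isOpenEmbedding.irreducibleSpace
  obtain ⟨_, -, hP, -⟩ := twf.1 d P _ g hg
  have hP := hP inferInstance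
  obtain ⟨p1, p2, -, -⟩ := tow l Ω d P g hg
  have : IsAffineHom u := .of_comp u f
  have b0 : ∀ n, Lp l n → Bijective (Hmap (Lm n (tot ((Over.map u).obj (top W₀)))) _ (2 * d)) :=
    fun n hn => by
      obtain ⟨h1, h2⟩ := dense l X _ n hn c1 c2 _ _ (tot ((Over.map u).obj (top W₀)))
        (aet_map u (aet_top W₀)).1 hX hI ‹_›
      exact ⟨(h2 (Over.mono_of_mono_left _ (hk := inferInstanceAs (Mono (𝟙 _ ≫ u))))).1, h1⟩
  have cP : ∀ n, Lp l n → ∀ W : Over W₀, Aet W → ConnectedSpace W.left →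
      Injective (Hmap (Lm n (tot ((Over.map v).obj W))) _ (2 * d)) := fun n hn W a h =>
    conn l P _ n hn (pdt l Ω d P g hg) _ (aet_map v a).1 h
  have inj : ∀ W : Over W₀, Aet W → ConnectedSpace W.left →
      Injective (Hmap (Lm l (tot ((Over.map u).obj W))) _ (2 * d)) := fun W a h => by
    obtain ⟨e, he⟩ := ind0 ind2 l f g u v l (2 * d) hll hl w
    have h1 := cP l hll W a h
    rw [← hm_tot l _ ((Over.map v).map (tot W))] at h1
    rw [← hm_tot l _ ((Over.map u).map (tot W))]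
    refine (b0 l hll).1.comp fun x y hxy => (e W a).injective (h1.of_comp ?_)
    rw [← he W _ _ a (aet_top W₀), ← he W _ _ a (aet_top W₀), hxy]
  obtain ⟨t, -, ht⟩ := dset l X (2 * d)
    ⟨{ LocallyOfFiniteType.isLocallyNoetherian f, QuasiCompact.compactSpace_of_compactSpace f with },
      ⟨by rw [← terminal.comp_from f]; infer_instance⟩, hL.of_hom f⟩ c1
    (fun n hn => by
      obtain ⟨e, -⟩ := ind0 ind2 l f g u v n (2 * d) hn hl w
      obtain ⟨⟨e'⟩, -⟩ := tws l Ω d n P _ g (𝟙 _) hn hg hL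
      exact ⟨((((AddEquiv.ofBijective _ (b0 n hn)).symm.trans (e _ (aet_top W₀))).trans
        (AddEquiv.ofBijective _ ⟨cP n hn _ (aet_top W₀) (inferInstanceAs (ConnectedSpace W₀)),
          (dense l P _ n hn p1 p2 _ _ _ (aet_map v (aet_top W₀)).1 (inferInstanceAs (Etale (𝟙 P)))
            hP ‹_›).1⟩)).trans (rI g _ _)).trans e'⟩)
    (fun W a h => (dense l X _ l hll c1 c2 _ _ _ a.1 hX hI h).1)
    fun W a z => by
      have := a.1
      obtain ⟨U, hz, hU, _⟩ := intb Ω W.left (W.hom ≫ f) z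
      have a' : Aet (opn W U) := ⟨inferInstanceAs (Etale (U.ι ≫ W.hom)), hU⟩
      have := a'.1
      have i1 : IrreducibleSpace (opn W U).left := inferInstanceAs (IrreducibleSpace U.toScheme)
      have hne : Nonempty ((Over.pullback u).obj (opn W U)).left := by
        obtain ⟨_, ⟨y, rfl⟩, y', h⟩ := nonempty_preirreducible_inter
          (opn W U).hom.isOpenMap.isOpen_range u.isOpenEmbedding.isOpen_range
          (Set.range_nonempty _) (Set.range_nonempty _)
        exact ⟨(Scheme.Pullback.exists_preimage_pullback y y' h.symm).choose⟩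
      have i2 : IrreducibleSpace ((Over.pullback u).obj (opn W U)).left :=
        have : Nonempty ↥(pullback (opn W U).hom u) := hne
        (pullback.fst (opn W U).hom u).isOpenEmbedding.irreducibleSpace
      have h1 := inj _ (aet_pb u a') inferInstance
      rw [← hm_tot l _ (prj u (opn W U))] at h1
      refine ⟨opn W U, opι W U, a', ⟨⟨z, hz⟩, rfl⟩, fun x hx => ?_⟩
      rw [(injective_iff_map_eq_zero _).1 (h1.of_comp_right (dense l X _ l hll c1 c2 _ _ _
        (aet_map u (aet_pb u a')).1 a'.1 i1 hne).1) x hx, map_zero]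
  refine ⟨t, ht fun W a z j hj => ?_⟩
  clear inj cP b0 p1 p2 hP w hg
  obtain ⟨W₁, P, u, g, v, _, _, hg, _, w, x₁, hx⟩ := hc (W.hom z)
  obtain ⟨_, -⟩ := twf.1 d P _ g hg
  have : IsAffineHom u := .of_comp u f
  have a₁ := aet_pb u a
  obtain ⟨z₁, hz₁, -⟩ := Scheme.Pullback.exists_preimage_pullback z x₁ hx.symm
  obtain ⟨W₂, h₂, a₂, ⟨z₂, hz₂⟩, H₂⟩ := (tow l Ω d P g hg).2.2.1 _ (aet_map v a₁) z₁ j hj
  let W₃ : Over W₁ := Over.mk (h₂.left ≫ ((Over.pullback u).obj W).hom)
  have e₃ : W₃.hom ≫ v = W₂.hom := (Category.assoc _ _ _).trans (Over.w h₂)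
  have a₃ : Aet W₃ := ⟨have : Etale (W₃.hom ≫ v) := e₃ ▸ a₂.1; .of_comp _ v, a₂.2⟩
  let h₃ : W₃ ⟶ (Over.pullback u).obj W := Over.homMk h₂.left
  obtain ⟨e, he⟩ := ind0 ind2 l f g u v l j hll hl w
  refine ⟨_, (Over.map u).map h₃ ≫ prj u W, aet_map u a₃,
    ⟨z₂, (Scheme.Hom.comp_apply _ _ _).trans (hz₂ ▸ hz₁)⟩, fun x => ?_⟩
  have h0 : Hmap (Lm l ((Over.map u).map h₃)) _ j x = 0 := by
    rw [← (e _ a₁).map_eq_zero_iff, he _ _ _ a₃, show (Over.map v).map h₃ =
      (Over.homMk (𝟙 W₂.left) ((Category.id_comp _).trans e₃.symm) :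
        (Over.map v).obj W₃ ⟶ W₂) ≫ h₂ from
      Over.OverMorphism.ext (Category.id_comp h₂.left).symm, ← hm_hm, H₂]
  rw [← hm_hm, h0, map_zero]

end Pool.Agent.MP_855f4c_ag.E.D

end

section

set_option autoImplicit false
set_option backward.isDefEq.respectTransparency false

open CategoryTheory Limits Abelian Opposite AlgebraicGeometry

namespace Pool.Agent.MP_855f4c_ag.E.D

open E3 E4
open CV (Ln Lm)

namespace CDG

section gen
variable {C : Type 2} [Category.{1} C] [Abelian C] [HasExt.{1} C] (T : C)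

lemma van₃ {G F : C} (p : G ⟶ F) [Epi p] (q : ℕ) (h1 : ∀ x : Ext.{1} T (kernel p) (q + 1), x = 0)
    (h2 : ∀ x : Ext.{1} T G q, x = 0) (x : Ext.{1} T F q) : x = 0 := by
  obtain ⟨y, rfl⟩ := ((cov_les T (S := ShortComplex.mk _ _ (kernel.condition p))
    { exact := ShortComplex.exact_kernel p }).e₃ q x).1 (h1 _)
  rw [h2 y, map_zero]

lemma van₄ {A B : C} (i : A ⟶ B) [Mono i] (q : ℕ) (h1 : Function.Surjective (post T i q))
    (h2 : Function.Injective (post T i (q + 1))) (x : Ext.{1} T (cokernel i) q) : x = 0 := by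
  have L := cov_les T (S := ShortComplex.mk _ _ (cokernel.condition i))
    { exact := ShortComplex.exact_cokernel i }
  obtain ⟨y, rfl⟩ := (L.e₃ q x).1 (h2 (((L.e₁ q).apply_apply_eq_zero x).trans (map_zero _).symm))
  obtain ⟨y, rfl⟩ := h1 y
  exact (L.e₂ q).apply_apply_eq_zero y

omit [HasExt.{1} C] in
lemma ker_kill (F : C) (n : ℕ) : n • 𝟙 (kernel (n • 𝟙 F)) = 0 := by
  rw [← cancel_mono (kernel.ι _), Preadditive.nsmul_comp, Category.id_comp, zero_comp,
    ← Category.comp_id (kernel.ι _), ← Preadditive.comp_nsmul, kernel.condition]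

end gen

variable {X : Scheme.{0}} {l n : ℕ}

lemma ses {M N : Sh (Scheme.etaleTopology.over X)} (p : M ⟶ N) [Epi p] :
    (ShortComplex.mk _ _ (kernel.condition p)).ShortExact :=
  { exact := ShortComplex.exact_kernel p }

/-- Descending induction on the degree. -/
lemma desc (T : Over X) (C : Sh (Scheme.etaleTopology.over X) → Prop) (Q : ℕ → Prop) (hQ : ∀ q, Q q → Q (q + 1))
    (M : ℕ) (h0 : ∀ F, C F → ∀ q, M ≤ q → ∀ x : H T F q, x = 0)
    (h1 : ∀ F, C F → ∃ (G : Sh (Scheme.etaleTopology.over X)) (p : G ⟶ F) (_ : Epi p), C (kernel p) ∧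
      ∀ q, Q q → ∀ x : H T G q, x = 0) (q : ℕ) :
    Q q → ∀ F, C F → ∀ x : H T F q, x = 0 := by
  induction hk : M - q generalizing q with
  | zero => exact fun _ F hF => h0 F hF q (by omega)
  | succ k ih =>
    intro hq F hF x
    obtain ⟨G, p, _, h2, h3⟩ := h1 F hF
    exact van₃ _ p q (ih (q + 1) (by omega) (hQ q hq) _ h2) (h3 q hq) x

lemma kill_mono {M N : Sh (Scheme.etaleTopology.over X)} (i : M ⟶ N) [Mono i] (h : n • 𝟙 N = 0) : n • 𝟙 M = 0 := by
  rw [← cancel_mono i, Preadditive.nsmul_comp, Category.id_comp, zero_comp, ← Category.comp_id i,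
    ← Preadditive.comp_nsmul, h, comp_zero]

lemma kill_epi {M N : Sh (Scheme.etaleTopology.over X)} (p : M ⟶ N) [Epi p] (h : n • 𝟙 M = 0) : n • 𝟙 N = 0 := by
  rw [← cancel_epi p, Preadditive.comp_nsmul, Category.comp_id, comp_zero, ← Category.id_comp p,
    ← Preadditive.nsmul_comp, h, zero_comp]

/-- A class comes from a subsheaf killed by a power of `l`. -/
lemma tor_lift (T : Over X) [CompactSpace T.left] [T.left.IsSeparated] {F : Sh (Scheme.etaleTopology.over X)}
    (hF : Tor l F.obj) (q : ℕ) (h : ∀ (m : ℕ) (y : H T (kernel (l ^ m • 𝟙 F)) q), y = 0)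
    (x : H T F q) : x = 0 := by
  have key : ∀ {A : Sh (Scheme.etaleTopology.over X)} (a : A ⟶ F) (m k : ℕ), a ≫ (l ^ m • 𝟙 F) = 0 →
      a ≫ (l ^ (k + m) • 𝟙 F) = 0 := fun a m k h => by
    rw [pow_add, mul_smul, Preadditive.comp_nsmul, h, smul_zero]
  obtain ⟨m, y, rfl⟩ := union_van T F (fun m : ULift.{1} ℕ => kernelSubobject (l ^ m.down • 𝟙 F))
    (fun a b => ⟨⟨a.down + b.down⟩,
      le_kernelSubobject _ _ (add_comm a.down _ ▸ key _ _ _ (kernelSubobject_arrow_comp _)),
      le_kernelSubobject _ _ (key _ _ _ (kernelSubobject_arrow_comp _))⟩)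
    (fun W hW => by
      have : Epi W.arrow := Abelian.epi_of_cokernel_π_eq_zero _ (by
        ext U s
        refine CLM.sec_ext _ fun t => ?_
        obtain ⟨V, v, h1, h2, -, h3⟩ := exists_of_mem_Jov ((Scheme.etaleTopology.over X).top_mem U.unop) t
        refine ⟨V, v, h2, ?_, h3⟩
        obtain ⟨m, hm⟩ := hF V h1 (F.obj.map v.op s)
        obtain ⟨a, ha⟩ := (frEquiv V F).surjective (F.obj.map v.op s)
        rw [← ha, ← map_nsmul, map_eq_zero_iff _ (frEquiv V F).injective] at hm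
        obtain ⟨b, rfl⟩ := (Subobject.factors_iff _ _).1 (Subobject.factors_of_le a (hW ⟨m⟩)
          (kernelSubobject_factors _ a (by rw [Preadditive.comp_nsmul, Category.comp_id, hm])))
        have e : b ≫ W.arrow ≫ cokernel.π W.arrow = 0 := by rw [cokernel.condition, comp_zero]
        exact ((nat (cokernel.π W.arrow).hom v s).symm.trans ((congrArg _ ha.symm).trans
          ((congrArg (frEquiv V _) e).trans (map_zero _)))).trans (map_zero _).symm)
      have := isIso_of_mono_of_epi W.arrow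
      exact Subobject.eq_top_of_isIso_arrow W) q x
  rw [(post_bij _ (kernelSubobjectIso _).hom q).1 (a₁ := y) ((h _ _).trans (map_zero _).symm),
    Ext.zero_comp]

lemma gz_mono {M N : Sh (Scheme.etaleTopology.over X)} (i : M ⟶ N) [Mono i] (h : GZr N) : GZr M :=
  fun k _ _ x hx _ => mono_sec i _ ((h k x hx _).trans (map_zero _).symm)

lemma gz_sigma {ι : Type 1} (F : ι → Sh (Scheme.etaleTopology.over X)) (h : ∀ i, GZr (F i)) : GZr (∐ F) := by
  intro k _ _ x hx s
  obtain ⟨s, rfl⟩ := (frEquiv _ _).surjective s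
  have : CompactSpace (Over.mk x).left := inferInstanceAs (CompactSpace (Spec (.of k)))
  have : (Over.mk x).left.IsSeparated := inferInstanceAs (Spec (.of k)).IsSeparated
  rw [Ext.addEquiv₀.symm.injective (a₁ := s) ((sigma_van (Over.mk x) F 0 (fun i y =>
    Ext.addEquiv₀.injective ((frEquiv _ _).injective ((h i k x hx _).trans (h i k x hx _).symm)))
      _).trans (map_zero _).symm), map_zero]

lemma gz_coker (h5 : LNM_s) {W' W : Over X} (h : W' ⟶ W) [IsOpenImmersion h.left] [Etale W.hom]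
    [IrreducibleSpace W.left] [Nonempty W'.left] : GZr (cokernel (Lm n h)) := by
  intro k _ _ x hx s
  obtain ⟨e, -, he⟩ := (h5 X n).2.2.2.2 k x
  obtain ⟨s, rfl⟩ := pt_shl x (cokernel.π (Lm n h)) s
  have : LocallyQuasiFinite W.hom := ⟨fun {U} hU V hV e => by
    have := W.hom.etale_appLE hU hV e
    algebraize [(W.hom.appLE _ _ e).hom]
    exact (inferInstance : Algebra.QuasiFinite Γ(X, U) Γ(W.left, V))⟩
  obtain ⟨t, ht⟩ := Finsupp.mapDomain_surjective (M := ZMod n)
    (f := fun y : Over.mk x ⟶ W' => y ≫ h) (fun y => by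
      have hr : Set.range y.left ⊆ Set.range h.left := by
        rintro _ ⟨z, rfl⟩
        have h1 := genericPoint_specializes (y.left z)
        have h2 : W.hom (y.left z) = x z := by rw [← Scheme.Hom.comp_apply, Over.w y]; rfl
        have h3 : W.hom (genericPoint W.left) = x z :=
          ((h2 ▸ h1.map W.hom.continuous).antisymm
            (specializes_iff_mem_closure.2 (hx z _))).eq
        have := (W.hom.isDiscrete_preimage_singleton (x z)).to_subtype
        have h4 : (⟨_, h3⟩ : W.hom ⁻¹' {x z}) = ⟨_, h2⟩ :=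
          ((subtype_specializes_iff _ _).2 h1).eq
        rw [← Subtype.mk.inj h4]
        exact (genericPoint_spec _).mem_open_set_iff h.left.isOpenMap.isOpen_range |>.2
          (by simpa using Set.range_nonempty _)
      exact ⟨Over.homMk (IsOpenImmersion.lift h.left y.left hr) (by
        rw [← Over.w h, IsOpenImmersion.lift_fac_assoc, Over.w y]),
        Over.OverMorphism.ext (IsOpenImmersion.lift_fac _ _ _)⟩) (e W s)
  obtain ⟨t, rfl⟩ := (e W').surjective t
  rw [← (e W).injective ((he _ _ h t).trans ht)]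
  exact congr(($(cokernel.condition (Lm n h))).hom.app _ t)

lemma aff_in {Y : Scheme.{0}} [IsIntegral Y] (j : Y ⟶ X) [IsOpenImmersion j] {y : Y} {U : X.Opens}
    (h : j y ∈ U) : ∃ (Z : Scheme.{0}) (i : Z ⟶ X), IsAffine Z ∧ IsOpenImmersion i ∧ IsIntegral Z ∧
      j y ∈ Set.range i ∧ Set.range i ⊆ U := by
  obtain ⟨R, i, _, ⟨z, rfl⟩, h2⟩ :=
    Scheme.exists_affine_mem_range_and_range_subset (U := j ⁻¹ᵁ U) h
  have : Nonempty (Spec R) := ⟨z⟩
  exact ⟨_, i ≫ j, inferInstance, inferInstance, isIntegral_of_isOpenImmersion i, ⟨z, rfl⟩,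
    by rintro _ ⟨w, rfl⟩; exact h2 ⟨w, rfl⟩⟩

lemma tot_bij {S : Scheme.{0}} (f : X ⟶ S) (F : Sh (Scheme.etaleTopology.over X)) (q : ℕ) :
    Function.Bijective (res (tot ((Over.pullback f).obj (top S))) F q) :=
  have : IsIso ((Over.forget X).map (tot ((Over.pullback f).obj (top S)))) :=
    inferInstanceAs (IsIso (pullback.snd (𝟙 S) f))
  have := isIso_of_reflects_iso (tot ((Over.pullback f).obj (top S))) (Over.forget X)
  pre_bij _ _ _

lemma tot_eqv {S : Scheme.{0}} (f : X ⟶ S) (q : ℕ) :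
    ∃ r : ∀ F, H (top X) F q ≃+ H ((Over.pullback f).obj (top S)) F q,
      ∀ {F G} (φ : F ⟶ G) x, r G (Hmap φ _ q x) = Hmap φ _ q (r F x) :=
  ⟨fun F => AddEquiv.ofBijective _ (tot_bij f F q), fun φ x => (Hmap_res _ φ q x).symm⟩

lemma coker_van (T : Over X) {A B : Sh (Scheme.etaleTopology.over X)} (i : A ⟶ B) [Mono i] (q : ℕ)
    (h1 : Function.Surjective (Hmap i T q)) (h2 : Function.Injective (Hmap i T (q + 1)))
    (x : H T (cokernel i) q) : x = 0 := van₄ _ i q h1 h2 x

/-- Good objects over a chart. -/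
def Gd (n N : ℕ) {W₀ : Scheme.{0}} (u : W₀ ⟶ X) (W : Over W₀) : Prop :=
  (∀ q, N < q → ∀ x : H (top X) (Ln n ((Over.map u).obj W)) q, x = 0) ∧
    ∀ (W' : Over W₀) (h : W' ⟶ W), Aet W' → Nonempty W'.left → IsOpenImmersion h.left →
      ∀ q, N ≤ q + 1 → ∀ x : H (top X) (cokernel (Lm n ((Over.map u).map h))) q, x = 0

variable [Fact l.Prime] {Ω : Type} [Field Ω] [IsAlgClosed Ω] [CharZero Ω] {d : ℕ}

lemma good (h2 : IND2_s) (h3 : TOW_s) (h5 : LNM_s) (h7 : DENSE_s) (h8 : TWF_s) (hn : Lp l n)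
    {P W₀ : Scheme.{0}} (f : X ⟶ Spec (.of Ω)) [IsProper f] (g : P ⟶ Spec (.of Ω)) [IsAffine W₀]
    (u : W₀ ⟶ X) (v : W₀ ⟶ P) [IsOpenImmersion u] [Etale v] (hg : TwN d g) (e : u ≫ f = v ≫ g)
    (W : Over W₀) (hW : Aet W) [IrreducibleSpace W.left] : Gd n (2 * d) u W := by
  have := (h8.1 d _ _ g hg).1
  obtain ⟨c1, c2, -⟩ := h3 l Ω d P g hg
  have et {Y : Scheme.{0}} (a : W₀ ⟶ Y) [Etale a] (W : Over W₀) (hW : Aet W) :
      Etale ((Over.map a).obj W).hom := have := hW.1; inferInstanceAs (Etale (W.hom ≫ a))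
  have key (q : ℕ) : ∃ e : ∀ W : Over W₀, Aet W →
      H (top X) (Ln n ((Over.map u).obj W)) q ≃+ H (top P) (Ln n ((Over.map v).obj W)) q,
      ∀ (W' W : Over W₀) (h : W' ⟶ W) a' a x, e W a (Hmap (Lm _ ((Over.map u).map h)) _ q x) =
        Hmap (Lm _ ((Over.map v).map h)) _ q (e W' a' x) := by
    obtain ⟨e, he, -⟩ := h2 l Ω X P W₀ f g u v n q hn
      (Nat.cast_ne_zero.2 (Fact.out : l.Prime).ne_zero) e
    obtain ⟨r, hr⟩ := tot_eqv f q
    obtain ⟨t, ht⟩ := tot_eqv g q
    refine ⟨fun W a => (r _).trans ((e W a _).trans (t _).symm), fun W' W h a' a x =>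
      (t _).injective ?_⟩
    simp only [AddEquiv.trans_apply, AddEquiv.apply_symm_apply, hr, ht, he _ _ h a' a]
  choose e he using key
  have hz (W : Over W₀) (hW : Aet W) (q : ℕ) (hq : 2 * d < q)
      (x : H (top X) (Ln n ((Over.map u).obj W)) q) : x = 0 :=
    (e q W hW).injective ((c1 _ ((h5 P n).1 l _ hn (et v W hW)) q hq _).trans (map_zero _).symm)
  refine ⟨hz W hW, fun W' h hW' hne ho q hq => ?_⟩
  have mo {Y : Scheme.{0}} (a : W₀ ⟶ Y) : Mono ((Over.map a).map h) :=
    have : Mono ((Over.map a).map h).left := inferInstanceAs (Mono h.left)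
    Over.mono_of_mono_left _
  have := (h5 X n).2.2.2.1 _ _ _ (mo u)
  obtain ⟨d1, d2⟩ := h7 l P (2 * d) n hn c1 c2 _ _ ((Over.map v).map h) (et v W' hW') (et v W hW)
    ‹_› hne
  have hs (q : ℕ) (H : Function.Surjective (Hmap (Lm n ((Over.map v).map h)) (top P) q)) :
      Function.Surjective (Hmap (Lm n ((Over.map u).map h)) (top X) q) := fun y => by
    obtain ⟨x, hx⟩ := H (e q W hW y)
    obtain ⟨x, rfl⟩ := (e q W' hW').surjective x
    exact ⟨x, (e q W hW).injective ((he q _ _ h hW' hW x).trans hx)⟩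
  refine coker_van _ _ q ?_ ?_
  · rcases lt_trichotomy q (2 * d) with h1 | rfl | h1
    · exact hs q ((d2 (mo v)).2 q (by omega))
    · exact hs _ d1
    · exact fun y => ⟨0, (map_zero _).trans (hz W hW q h1 y).symm⟩
  · rcases hq.eq_or_lt with h1 | h1
    · rw [← h1]
      exact fun x y hxy => (e _ W' hW').injective ((d2 (mo v)).1 (by rw [← he, ← he, hxy]; exact hW))
    · exact fun x y _ => (hz W' hW' _ h1 x).trans (hz W' hW' _ h1 y).symm

lemma near (h2 : IND2_s) (h3 : TOW_s) (h5 : LNM_s) (h6 : INTB_s) (h7 : DENSE_s) (h8 : TWF_s)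
    (hn : Lp l n) (f : X ⟶ Spec (.of Ω)) [Smooth f] [IsProper f] (hc : Chart d f) (W : Over X)
    (hW : Aet W) (w : W.left) : ∃ (W₀ : Scheme.{0}) (u : W₀ ⟶ X) (V : Over W₀)
      (h : (Over.map u).obj V ⟶ W), IsOpenImmersion u ∧ Aet V ∧ IsIntegral V.left ∧
        w ∈ Set.range h.left ∧ Gd n (2 * d) u V := by
  obtain ⟨W₀, P, u, g, v, _, _, hg, _, e, hw⟩ := hc (W.hom w)
  have := hW.1
  obtain ⟨U, hU, -, _⟩ := h6 Ω W.left (W.hom ≫ f) w
  obtain ⟨Z, i, _, _, _, h1, h4⟩ := aff_in U.ι (y := ⟨w, hU⟩) (U := W.hom ⁻¹ᵁ u.opensRange) hw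
  have hr : Set.range (i ≫ W.hom) ⊆ Set.range u := by rintro _ ⟨z, rfl⟩; exact h4 ⟨z, rfl⟩
  have e1 := IsOpenImmersion.lift_fac u _ hr
  have hV : Aet (Over.mk (IsOpenImmersion.lift u _ hr)) :=
    have : Etale (IsOpenImmersion.lift u _ hr ≫ u) := by rw [e1]; infer_instance
    ⟨Etale.of_comp (IsOpenImmersion.lift u _ hr) u, ‹_›⟩
  have : IrreducibleSpace (Over.mk (IsOpenImmersion.lift u _ hr)).left :=
    inferInstanceAs (IrreducibleSpace Z)
  exact ⟨W₀, u, Over.mk (IsOpenImmersion.lift u _ hr), Over.homMk i e1.symm, ‹_›, hV, ‹_›, h1,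
    good h2 h3 h5 h7 h8 hn f g u v hg e _ hV⟩

omit [Fact l.Prime] in
/-- A section of a generically zero sheaf dies on a nonempty open set. -/
lemma dies [IrreducibleSpace X] (hl : Linv l X) {F : Sh (Scheme.etaleTopology.over X)} (hF : Cc l F) (hz : GZr F)
    {W : Over X} [Etale W.hom] [IsIntegral W.left] (a : Ln n W ⟶ F) :
    ∃ (Z : Scheme.{0}) (i : Z ⟶ W.left), IsAffine Z ∧ IsOpenImmersion i ∧ Nonempty Z ∧
      Lm n (Over.homMk i : Over.mk (i ≫ W.hom) ⟶ W) ≫ a = 0 := by
  obtain ⟨k, _, _, y, hy⟩ := stk_geom W.left (genericPoint _)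
  obtain ⟨V, v, y', -, _, h1, h2⟩ := stalk_zero hF.1 hF.2 (hl k (y ≫ W.hom))
    (Over.homMk y : Over.mk (y ≫ W.hom) ⟶ W) (frEquiv _ _ (cokernel.π _ ≫ a))
    (hz k _ (fun z => by
      rw [Scheme.Hom.comp_apply, hy]
      refine Dense.of_closure (Dense.mono ?_
        (W.hom.isOpenMap.isOpen_range.dense (Set.range_nonempty _)))
      rintro _ ⟨t, rfl⟩
      exact specializes_iff_mem_closure.1 ((genericPoint_specializes t).map W.hom.continuous)) _)
  obtain ⟨Z, i, _, _, -, ⟨z, -⟩, h3⟩ := aff_in (𝟙 W.left) (y := genericPoint _)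
    (U := ⟨_, v.left.isOpenMap.isOpen_range⟩)
    (stk_range y' v (h1 ▸ ⟨IsLocalRing.closedPoint k, hy _⟩))
  refine ⟨Z, i, ‹_›, ‹_›, ⟨z⟩, ?_⟩
  rw [← cancel_epi (cokernel.π _), Lm, cokernel.π_desc_assoc, comp_zero, Category.assoc,
    ← map_eq_zero_iff _ (frEquiv _ F).injective, frEquiv_pre]
  refine CLM.sec_ext _ fun t => ?_
  have q := isPullback_left (IsPullback.of_hasPullback (Over.homMk i : Over.mk (i ≫ W.hom) ⟶ W) v)
  obtain ⟨s, hs⟩ := h3 ⟨t, rfl⟩
  obtain ⟨r, hr, -⟩ := Scheme.exists_preimage_of_isPullback q t s hs.symm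
  refine ⟨_, pullback.fst _ v, MorphismProperty.of_isPullback q.flip ‹_›, ?_, r, hr⟩
  rw [res_res, pullback.condition, ← res_res, h2, map_zero, map_zero]

end CDG

open CDG in
theorem cdg (h1 : CDX_s) (h2 : IND2_s) (h3 : TOW_s) (h4 : GENB_s) (h5 : LNM_s) (h6 : INTB_s)
    (h7 : DENSE_s) (h8 : TWF_s) : CDG_s := by
  intro l _ Ω _ _ _ X f _ _ _ d hc
  have hl : Linv l X := fun k _ x => by
    obtain ⟨φ, -⟩ := Spec.map_surjective (x ≫ f)
    have := φ.hom.charZero_iff φ.hom.injective |>.1 ‹_›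
    exact Nat.cast_ne_zero.2 (Fact.out : l.Prime).ne_zero
  have : CompactSpace (top X).left := QuasiCompact.compactSpace_of_compactSpace f
  have : (top X).left.IsSeparated :=
    ⟨terminal.comp_from f ▸ (inferInstance : IsSeparated (f ≫ terminal.from _))⟩
  obtain ⟨M, hM⟩ := h1 Ω X f
  have h0 (F : Sh (Scheme.etaleTopology.over X)) (hF : Tc l F) (q : ℕ) (hq : M ≤ q) (x : H (top X) F q) : x = 0 :=
    have ⟨r, _⟩ := tot_eqv f q
    (r F).map_eq_zero_iff.1
      (hM l F hF Ω (𝟙 _) (Nat.cast_ne_zero.2 (Fact.out : l.Prime).ne_zero) q hq _)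
  have hk (F : Sh (Scheme.etaleTopology.over X)) (m : ℕ) : l ^ m • 𝟙 (kernel (l ^ m • 𝟙 F)) = 0 := ker_kill F _
  refine ⟨fun F hF q hq => tor_lift _ hF.2 q fun m => desc _ (fun F => Tc l F ∧ l ^ m • 𝟙 F = 0)
      (2 * d < ·) (fun _ => Nat.lt_succ_of_lt) M (fun F hF => h0 F hF.1) (fun F hF => ?_) q hq _
      ⟨hF.ker _ hF.1, hk F m⟩,
    fun F hF hz q hq => tor_lift _ hF.2 q fun m => desc _
      (fun F => Tc l F ∧ l ^ m • 𝟙 F = 0 ∧ GZr F) (fun q => 2 * d ≤ q + 1)
      (fun _ => Nat.le_succ_of_le) M (fun F hF => h0 F hF.1) (fun F hF => ?_) q hq _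
      ⟨hF.ker _ hF.1, hk F m, gz_mono (kernel.ι _) hz⟩⟩
  · obtain ⟨ι, W, a, b1, _, b2, b3⟩ := h4 l X _ F
      (fun W _ => ∀ q, 2 * d < q → ∀ x : H (top X) (Ln (l ^ m) W) q, x = 0) ⟨m, rfl⟩ hl hF.1 hF.2
      fun W hW _ w => by
        obtain ⟨W₀, u, V, h, _, c1, -, c2, c3⟩ := near (l := l) h2 h3 h5 h6 h7 h8 ⟨m, rfl⟩ f hc W hW w
        have := c1.1
        exact ⟨_, h, ⟨inferInstanceAs (Etale (V.hom ≫ u)), c1.2⟩, c2, c3.1⟩
    exact ⟨_, Sigma.desc a, ‹_›, ⟨b2.ker _ hF.1.1, kill_mono (kernel.ι _) b3⟩,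
      fun q hq => sigma_van _ _ q fun i => (b1 i).2 q hq⟩
  · obtain ⟨ι, W, a, b1, _, b2, b3⟩ := h4 l X _ F
      (fun W a => ∃ (W' : Over X) (h : W' ⟶ W), Etale W'.hom ∧ Lm _ h ≫ a = 0 ∧
        GZr (cokernel (Lm (l ^ m) h)) ∧
        ∀ q, 2 * d ≤ q + 1 → ∀ x : H (top X) (cokernel (Lm (l ^ m) h)) q, x = 0)
      ⟨m, rfl⟩ hl hF.1 hF.2.1 fun W hW a w => by
        obtain ⟨W₀, u, V, h, _, c1, _, c2, c3⟩ := near (l := l) h2 h3 h5 h6 h7 h8 ⟨m, rfl⟩ f hc W hW w
        have := c1.1
        have : Etale ((Over.map u).obj V).hom := inferInstanceAs (Etale (V.hom ≫ u))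
        have : IsIntegral ((Over.map u).obj V).left := ‹_›
        obtain ⟨Z, i, _, _, _, c4⟩ := dies hl hF.1.1 hF.2.2 (Lm _ h ≫ a)
        let j : Over.mk (i ≫ V.hom) ⟶ V := Over.homMk i
        have : IsOpenImmersion ((Over.map u).map j).left := ‹_›
        have : Nonempty ((Over.map u).obj (Over.mk (i ≫ V.hom))).left := ‹_›
        exact ⟨_, h, ⟨‹_›, c1.2⟩, c2, _, (Over.map u).map j,
          inferInstanceAs (Etale ((i ≫ V.hom) ≫ u)), c4, gz_coker h5 _,
          c3.2 _ j ⟨inferInstanceAs (Etale (i ≫ V.hom)), ‹_›⟩ ‹_› ‹_›⟩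
    choose b0 W' h c1 c2 c3 c4 using b1
    have e : Limits.Sigma.map (fun i => cokernel.π (Lm _ (h i))) ≫
        Sigma.desc (fun i => cokernel.desc _ (a i) (c2 i)) = Sigma.desc a :=
      Sigma.hom_ext _ _ fun i => by simp
    have : Epi (Sigma.desc fun i => cokernel.desc _ (a i) (c2 i)) := epi_of_epi_fac e
    refine ⟨_, Sigma.desc fun i => cokernel.desc _ (a i) (c2 i), ‹_›,
      ⟨(Tc.sigma _ fun i => Tc.coker _ ((h5 X _).1 l _ ⟨m, rfl⟩ (c1 i)).1
        ((h5 X _).1 l _ ⟨m, rfl⟩ (b0 i).1)).ker _ hF.1.1, kill_mono (kernel.ι _) (kill_epi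
          (Limits.Sigma.map fun i => cokernel.π (Lm _ (h i))) b3),
        gz_mono (kernel.ι _) (gz_sigma _ c3)⟩, fun q hq => sigma_van _ _ q fun i => c4 i q hq⟩

end Pool.Agent.MP_855f4c_ag.E.D

end

section

set_option autoImplicit false
set_option backward.isDefEq.respectTransparency false

open CategoryTheory Limits Abelian Opposite AlgebraicGeometry

namespace Pool.Agent.MP_855f4c_ag.E.D

open E3 E4 Function

namespace SPZ

section ring
variable {R Ω C : Type} [CommRing R] [Field Ω] [Algebra R Ω] [CommRing C] [IsDomain C]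
  [Algebra R C] (hC : Aic C) (h : RingHom.ker (algebraMap R Ω) ≤ RingHom.ker (algebraMap R C))
include hC h

theorem ext : Nonempty (integralClosure R Ω →ₐ[R] C) := by
  have := RingHom.ker_isPrime (algebraMap R C)
  obtain ⟨P, -, _, hP⟩ := Ideal.exists_ideal_over_prime_of_isIntegral
    (S := integralClosure R Ω) (RingHom.ker (algebraMap R C)) ⊥
    fun x hx => h (congrArg Subtype.val (Ideal.mem_bot.1 hx))
  exact ⟨(E4.exists_lift hC P hP).choose⟩

theorem loc (f : R) (hf : algebraMap R Ω f ≠ 0) (hu : IsUnit (algebraMap R C f)) :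
    ∃ (S : Subalgebra R Ω) (_ : S →ₐ[R] C), ∀ x, IsIntegral R (f • x) → x ∈ S := by
  obtain ⟨b⟩ := ext hC h
  let f' := algebraMap R (integralClosure R Ω) f
  let e : Localization.Away f' →ₐ[R] Ω := IsLocalization.liftAlgHom (M := .powers f')
    (f := (integralClosure R Ω).val) (by
      rintro ⟨_, n, rfl⟩
      rw [map_pow]
      exact (isUnit_iff_ne_zero.2 hf).pow n)
  let e' : Localization.Away f' →ₐ[R] C := IsLocalization.liftAlgHom (M := .powers f') (f := b) (by
    rintro ⟨_, n, rfl⟩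
    rw [map_pow, b.commutes]
    exact hu.pow n)
  have he (x : integralClosure R Ω) : e (algebraMap _ _ x) = x := IsLocalization.lift_eq _ _
  have hi : Injective e := (IsLocalization.lift_injective_iff _).2 fun x y =>
    ⟨fun h => (he x).symm.trans ((congrArg e h).trans (he y)), fun h => congrArg _ (Subtype.ext h)⟩
  refine ⟨e.range, e'.comp (AlgEquiv.ofInjective e hi).symm, fun x hx =>
    ⟨algebraMap _ _ (⟨_, hx⟩ : integralClosure R Ω) * IsLocalization.Away.invSelf f', ?_⟩⟩
  have h1 := congrArg e (IsLocalization.Away.mul_invSelf (S := Localization.Away f') f')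
  rw [map_mul, he, map_one] at h1
  change e _ = x
  rw [map_mul, he]
  change f • x * _ = x
  rw [Algebra.smul_def, mul_right_comm]
  exact (congrArg (· * x) h1).trans (one_mul x)
end ring

theorem mult {R : Type} [CommRing R] (p : Ideal R) [p.IsPrime]
    (s : Finset (AlgebraicClosure p.ResidueField)) : ∃ f ∉ p, ∀ x ∈ s, IsIntegral R (f • x) := by
  classical
  have H (x : AlgebraicClosure p.ResidueField) : ∃ f ∉ p, IsIntegral R (f • x) := by
    have : IsAlgebraic (R ⧸ p) x :=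
      (IsFractionRing.isAlgebraic_iff (R ⧸ p) p.ResidueField _).2 (Algebra.IsAlgebraic.isAlgebraic x)
    obtain ⟨y, hy, h⟩ := this.exists_integral_multiple
    obtain ⟨f, rfl⟩ := Ideal.Quotient.mk_surjective y
    refine ⟨f, fun h => hy (Ideal.Quotient.eq_zero_iff_mem.2 h), ?_⟩
    have := isIntegral_trans (R := R) _ h
    rwa [← Ideal.Quotient.algebraMap_eq, algebraMap_smul] at this
  choose f h1 h2 using H
  refine ⟨∏ x ∈ s, f x, fun h => ?_, fun x hx => ?_⟩
  · obtain ⟨x, -, hx⟩ := Ideal.IsPrime.prod_mem_iff.1 h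
    exact h1 x hx
  · rw [← Finset.prod_erase_mul s f hx, mul_smul]
    exact (h2 x).smul _

theorem lcf {X : Scheme.{0}} {l : ℕ} [Fact l.Prime] {F : Sh (Scheme.etaleTopology.over X)} (h : Cl l F) : Lcf l F := by
  induction h with
  | rat h => exact h.1
  | ext _ _ _ _ h => exact h

end SPZ

theorem spz : SPZ_s := by
  intro l _ R₀ R _ _ _ α G w h0 ⟨G1, G2⟩ k _ _ t z
  obtain ⟨⟨τ⟩, rfl⟩ := Spec.map_surjective t
  change R →+* k at τ
  let _ := α.toAlgebra
  let _ := τ.toAlgebra
  let p := RingHom.ker τ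
  have : p.IsPrime := RingHom.ker_isPrime τ
  have hk : RingHom.ker (algebraMap R (AlgebraicClosure p.ResidueField)) = p := by
    rw [IsScalarTower.algebraMap_eq R p.ResidueField, ← RingHom.comap_ker,
      (RingHom.injective_iff_ker_eq_bot _).1 (algebraMap p.ResidueField _).injective,
      ← RingHom.ker_eq_comap_bot, Ideal.ker_algebraMap_residueField]
  have un {A : Type} [CommRing A] (χ : R →+* A) : IsUnit (l : A) := by
    simpa using (h0 l (Fact.out : l.Prime).ne_zero).map χ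
  have : CharZero (AlgebraicClosure p.ResidueField) := charZero_of_inj_zero fun n hn => by
    by_contra h
    exact ((h0 n h).map (algebraMap R _)).ne_zero ((map_natCast _ n).trans hn)
  obtain ⟨A, ⟨s, hs⟩, hA⟩ := G2 R₀ (AlgebraicClosure p.ResidueField) (𝟙 _)
  obtain ⟨f, hf, hi⟩ := SPZ.mult p s
  have tri {B A C : Type} [CommRing B] [CommRing A] [CommRing C] (χ : A →+* C) {a : B →+* A}
      {b : B →+* C} (e : χ.comp a = b) : spc χ ≫ spc a = spc b := by
    rw [← e, ← Spec.map_comp]; rfl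
  have H (C : Type) [CommRing C] [IsDomain C] [Algebra R C] (hC : Aic C)
      (hp : p ≤ RingHom.ker (algebraMap R C)) (hu : IsUnit (algebraMap R C f)) :
      Lcf l ((pb (J := Scheme.etaleTopology) (spc (algebraMap R C) ≫ spc α)).obj (G l)) := by
    obtain ⟨S, β, hS⟩ := SPZ.loc hC (hk.le.trans hp) f (fun h => hf (hk.le h)) hu
    have hle : A ≤ S.restrictScalars R₀ := hs ▸ Algebra.adjoin_le fun x hx => hS x (hi x hx)
    let γ : A →+* C := (β : S →+* C).comp (A.val.toRingHom.codRestrict S fun x => hle x.2)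
    have := SPZ.lcf (hA l rfl C γ (un (algebraMap R C))).1
    have e : (algebraMap R C).comp α = γ.comp (algebraMap R₀ A) := RingHom.ext fun x =>
      (β.commutes (α x)).symm.trans (congrArg β (Subtype.ext
        (IsScalarTower.algebraMap_apply R₀ R (AlgebraicClosure p.ResidueField) x).symm))
    rw [tri _ e]
    rwa [Category.comp_id] at this
  have hz (x : R) : x ∈ (spc τ z).asIdeal ↔ τ x = 0 := by
    change τ x ∈ z.asIdeal ↔ _
    rw [Ideal.eq_bot_of_prime z.asIdeal, Ideal.mem_bot]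
  refine ⟨?_, PrimeSpectrum.basicOpen f, fun h => hf ((hz f).1 h),
    fun k' _ _ t' ht G' u hG hu s => ?_⟩
  · have := (H k (aic_field k) le_rfl (isUnit_iff_ne_zero.2 hf)).2.2 k (𝟙 _) (un τ).ne_zero
    change Cof l (sec (G l) (Over.mk (𝟙 _ ≫ spc τ ≫ spc α))) at this
    rwa [Category.id_comp] at this
  obtain ⟨⟨τ'⟩, rfl⟩ := Spec.map_surjective t'
  change R →+* k' at τ'
  let _ := τ'.toAlgebra
  have hz' (x : R) (h : x ∈ (spc τ' default).asIdeal) : τ' x = 0 := by
    change τ' x ∈ (default : Spec (.of k')).asIdeal at h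
    rwa [Ideal.eq_bot_of_prime (default : Spec (.of k')).asIdeal, Ideal.mem_bot] at h
  have hp : p ≤ RingHom.ker τ' := fun x hx =>
    hz' x ((PrimeSpectrum.le_iff_specializes _ _).2 (ht default).2 ((hz x).2 hx))
  have hf' : τ' f ≠ 0 := fun h => (ht default).1
    (show τ' f ∈ (default : Spec (.of k')).asIdeal from h ▸ zero_mem _)
  obtain ⟨β⟩ := SPZ.ext (Ω := k) (aic_field k') hp
  have := RingHom.ker_isPrime β
  obtain ⟨C, _, _, _, j, φ, h1, h2, -, -, h5⟩ := exists_loc (RingHom.ker β)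
  obtain ⟨r, -, h7⟩ := h5 k' β rfl
  have := h1.shl
  have : IsDomain C := h2.isDomain _
  have := aic_frac h1 (FractionRing C)
  have := isLocalHom_of_ker r h7
  have : IsLocalHom (r : C →+* k') := ⟨fun a ha => IsLocalHom.map_nonunit (f := r) a ha⟩
  obtain ⟨s, rfl⟩ := (hG.2 C k' r _ _ (tri _ r.comp_algebraMap) (un (algebraMap R C))).2 s
  refine (nat u.hom _ s).trans ((congrArg _ ?_).trans (map_zero _))
  let ψ : FractionRing C →+* k := IsFractionRing.lift (g := (φ : C →+* k)) h2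
  have e : ψ.comp ((algebraMap C _).comp (algebraMap R C)) = τ :=
    RingHom.ext fun x =>
      (IsFractionRing.lift_algebraMap (g := (φ : C →+* k)) h2 _).trans (φ.commutes x)
  have hL : Lis l ((pb (J := Scheme.etaleTopology) (spc α)).obj (G l)).obj
      (Over.mk (spc (algebraMap R C))) :=
    (Lis.map_iff _ _ _).2 (((Lis.map_iff _ _ _).1 (H C h1 (fun x hx => h2 ((φ.commutes x).trans
      (hx.trans (map_zero φ).symm))) (IsLocalHom.map_nonunit (f := r) _
        (by rw [r.commutes]; exact isUnit_iff_ne_zero.2 hf'))).2.1).mono (Over.homMk (𝟙 _)))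
  refine (injective_iff_map_eq_zero _).1
    (hL C (FractionRing C) _ _ (tri _ rfl) ⟨𝟙 _⟩ h1 (un (algebraMap R C))).1 _ ?_
  refine (injective_iff_map_eq_zero _).1 (((G1 l rfl).pb (spc α)).1.2 _ k ψ _ _ (tri _ e)
    (un ((algebraMap C _).comp (algebraMap R C)))).1 _ ?_
  exact (congrArg _ (nat u.hom _ s).symm).trans ((nat u.hom _ _).symm.trans (hu _))

end Pool.Agent.MP_855f4c_ag.E.D

end
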