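import Pool.Agent.MP_855f4c_ag.EC.Da
import Pool.Agent.MP_855f4c_ag.EC.F2b
import Pool.Agent.MP_855f4c_ag.EC.F2e
import Pool.Agent.MP_855f4c_ag.EC.Cd
import Pool.Agent.MP_855f4c_ag.EC.F2c
import Pool.Agent.MP_855f4c_ag.EC.Sa
import Pool.Agent.MP_855f4c_ag.EC.Ub

section

set_option autoImplicit false
set_option backward.isDefEq.respectTransparency false

open CategoryTheory Limits Abelian Opposite AlgebraicGeometry Function

namespace Pool.Agent.MP_855f4c_ag.E.D

open E3 E4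
open CV (Ln Lm)

namespace CONN

variable {X : Scheme.{0}}

/-- Characters separate the points of `l`-power order. -/
lemma chr {l : ℕ} [Fact l.Prime] {M : Type 1} [AddCommGroup M] (y : M) (e : ℕ)
    (hy : l ^ e • y = 0) (h : ∀ f : M →+ QZ l, f y = 0) : y = 0 := by
  obtain ⟨c, -, hc⟩ := (Nat.dvd_prime_pow Fact.out).1 (addOrderOf_dvd_of_nsmul_eq_zero hy)
  let q : QZ l := QuotientAddGroup.mk ((l : ℚ_[l]) ^ c)⁻¹
  have hq : ∀ a : ℤ, a • q = 0 ↔ a • y = 0 := fun a => by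
    rw [← QuotientAddGroup.mk_zsmul, QZ.mk_zero, zsmul_eq_mul, norm_mul, norm_inv,
      Padic.norm_p_pow, ← div_eq_mul_inv, div_le_one (zpow_pos (zero_lt_one.trans l_gt) _),
      Padic.norm_int_le_pow_iff_dvd, ← addOrderOf_dvd_iff_zsmul_eq_zero, hc, Nat.cast_pow]
  let φ := (zmultiplesHom M y).rangeRestrict
  have hφ := (zmultiplesHom M y).rangeRestrict_surjective
  obtain ⟨g, hg⟩ := QZ.extend (AddSubgroup.subtype _) Subtype.val_injective
    (φ.liftOfSurjective hφ ⟨zmultiplesHom _ q, fun a ha => (hq a).2 (congrArg Subtype.val ha)⟩)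
  exact (one_zsmul y).symm.trans ((hq 1).1 (((φ.liftOfRightInverse_comp_apply _ _ _ 1).symm.trans
    (DFunLike.congr_fun hg _).symm).trans ((congrArg g (one_zsmul y)).trans (h g))))

lemma ln_tor (n : ℕ) (W : Over X) : n • 𝟙 (Ln n W) = 0 := by
  unfold Ln
  rw [← cancel_epi (cokernel.π _), Preadditive.comp_nsmul, Category.comp_id, comp_zero]
  simpa using cokernel.condition ((n : ℤ) • 𝟙 ((fr (Scheme.etaleTopology.over X)).obj W))

lemma h_tor {n q : ℕ} {T W : Over X} (x : H T (Ln n W) q) : n • x = 0 := by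
  have h : ∀ m : ℕ, post _ (m • 𝟙 (Ln n W)) q x = m • x := fun m => by
    induction m with
    | zero => simp
    | succ m ih =>
      rw [succ_nsmul x, ← ih]
      simp [succ_nsmul, Ext.mk₀_add]
  rw [← h, ln_tor]
  simp

/-- Maps to a constant sheaf from a connected `W` come from `X`. -/
lemma fac (n : ℕ) (M : Ab.{1}) (W : Over X) [ConnectedSpace W.left] (a : Ln n W ⟶ (cst X).obj M) :
    ∃ a' : Ln n (top X) ⟶ (cst X).obj M, Lm n (tot W) ≫ a' = a := by
  obtain ⟨m, hm⟩ := (cstι_connected M W).2 (frEquiv W _ (cokernel.π _ ≫ a))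
  have h0 : (n : ℤ) • m = 0 := (cstι_connected M W).1 (by
    rw [map_zsmul, hm, ← map_zsmul, map_zero, ← Preadditive.zsmul_comp, ← Category.id_comp (cokernel.π _),
      ← Preadditive.zsmul_comp, cokernel.condition, zero_comp, map_zero])
  refine ⟨cokernel.desc _ ((frEquiv (top X) _).symm (cstι M _ m)) ?_, ?_⟩
  · rw [Preadditive.zsmul_comp, Category.id_comp, ← map_zsmul, ← map_zsmul, h0, map_zero, map_zero]
  · rw [← cancel_epi (cokernel.π _), Lm, cokernel.π_desc_assoc, Category.assoc, cokernel.π_desc]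
    refine (frEquiv W _).injective ?_
    rw [frEquiv_pre, AddEquiv.apply_symm_apply, cstι_res, hm]

end CONN

open CONN in
theorem conn (lnm : LNM_s) : CONN_s := by
  rintro l _ X N n hn ⟨t, ht⟩ W hW hc
  refine (injective_iff_map_eq_zero _).2 fun x hx => ?_
  obtain ⟨e, rfl⟩ := id hn
  refine chr (l := l) x e (h_tor x) fun f => ?_
  obtain ⟨y, rfl⟩ := (ht _ ((lnm X _).1 l W hn hW) 0 N rfl).2 f
  obtain ⟨a, rfl⟩ := (Ext.mk₀_bijective _ _).2 y
  obtain ⟨a', rfl⟩ := fac _ _ W a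
  change t (post _ (Lm _ (tot W) ≫ a') N x) = 0
  rw [← post_post]
  exact (congrArg (fun z => t (post _ a' N z)) hx).trans (by rw [map_zero, map_zero])

theorem pdt (tow : TOW_s) (tws : TWS_s) (twf : TWF_s) (dense : DENSE_s) (dset : DSET_s) :
    PDT_s := by
  intro l _ Ω _ _ _ d P g hg
  have hL : Linv l (Spec (.of Ω)) :=
    .spec (Nat.cast_ne_zero.2 (Fact.out : l.Prime).ne_zero : (l : Ω) ≠ 0).isUnit
  obtain ⟨_, -, hP, -⟩ := twf.1 d P _ g hg
  obtain ⟨p1, p2, p3, p4⟩ := tow l Ω d P g hg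
  obtain ⟨t, -, ht⟩ := dset l P (2 * d)
    ⟨{ LocallyOfFiniteType.isLocallyNoetherian g, QuasiCompact.compactSpace_of_compactSpace g with },
      ⟨by rw [← terminal.comp_from g]; infer_instance⟩, hL.of_hom g⟩ p1
    (fun n hn => by
      obtain ⟨⟨e⟩, -⟩ := tws l Ω d n P _ g (𝟙 _) hn hg hL
      have : IsIso (tot (fbr g (𝟙 _))) :=
        isIso_homMk _ (inferInstanceAs (IsIso (pullback.snd (𝟙 _) g)))
      exact ⟨(AddEquiv.ofBijective (res (tot (fbr g (𝟙 _))) _ _) (pre_bij _ _ _)).trans e⟩)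
    (fun W a h => (dense l P _ l ⟨1, (pow_one l).symm⟩ p1 p2 _ _ _ a.1
      (inferInstanceAs (Etale (𝟙 P))) (hP inferInstance) h).1) p4
  exact ⟨t, ht p3⟩

end Pool.Agent.MP_855f4c_ag.E.D

end

section

set_option autoImplicit false
set_option backward.isDefEq.respectTransparency false

open CategoryTheory Limits Abelian Opposite AlgebraicGeometry

namespace Pool.Agent.MP_855f4c_ag.E.D

open E3 E4 Function
open CV (Ln Lm)
open CV.LN

namespace GSP

variable {X : Scheme.{0}}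

section sys
variable (R Ω : Type) [CommRing R] [CommRing Ω] [Algebra R Ω]

/-- Finitely generated subalgebras. -/
abbrev I : Type := {A : Subalgebra R Ω // A.FG}

instance : Nonempty (I R Ω) := ⟨⟨⊥, Subalgebra.fg_bot⟩⟩

instance : IsDirectedOrder (I R Ω) :=
  ⟨fun a b => ⟨⟨a.1 ⊔ b.1, a.2.sup b.2⟩, (le_sup_left : a.1 ≤ _), (le_sup_right : b.1 ≤ _)⟩⟩

/-- The diagram. -/
def G : I R Ω ⥤ CommRingCat.{0} where
  obj A := .of A.1
  map h := CommRingCat.ofHom (Subalgebra.inclusion h.le : _ →+* _)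

/-- The cocone. -/
def co : Cocone (G R Ω) where
  pt := .of Ω
  ι := { app A := CommRingCat.ofHom (A.1.val : _ →+* _) }

theorem col : Nonempty (IsColimit (co R Ω)) := by
  have : ReflectsColimit (G R Ω) (forget CommRingCat) := reflectsColimit_of_reflectsIsomorphisms _ _
  exact ⟨isColimitOfReflects (forget CommRingCat) (Types.FilteredColimit.isColimitOf' _ _
    (fun (x : Ω) => ⟨⟨_, Subalgebra.fg_adjoin_finset {x}⟩,
      ⟨x, Algebra.subset_adjoin (by simp)⟩, rfl⟩)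
    fun i x y h => ⟨i, 𝟙 _, congrArg _ (Subtype.ext h)⟩)⟩
end sys

theorem cover {Ω : Type} [Field Ω] [IsAlgClosed Ω] {Y : Scheme.{0}} (p : Y ⟶ Spec (.of Ω))
    [Etale p] (y : Y) : ∃ σ : Spec (.of Ω) ⟶ Y, σ ≫ p = 𝟙 _ ∧ y ∈ Set.range σ := by
  have := (aic_of_isAlgClosed Ω).shl
  obtain ⟨k, _, _, z, hz⟩ := stk_geom Y y
  obtain ⟨φ, hφ⟩ := Spec.map_surjective (z ≫ p)
  obtain ⟨σ, h1, h2⟩ := shl_lift φ.hom p (𝟙 _) z (hφ.symm.trans (Category.comp_id _).symm)
  exact ⟨σ, h1, _, (Scheme.Hom.comp_apply _ _ default).symm.trans (h2 ▸ hz _)⟩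

theorem opn {T Y : Scheme.{0}} {p : Y ⟶ T} [Etale p] {σ : T ⟶ Y} (h : σ ≫ p = 𝟙 _) :
    IsOpenImmersion σ := by
  have : Etale (σ ≫ p) := h ▸ inferInstance
  have : Etale σ := .of_comp σ p
  have : Mono σ := mono_of_mono_fac h
  exact IsOpenImmersion.of_flat_of_mono σ

/-- An etale scheme splits over a finitely generated subalgebra. -/
theorem split (W : Over X) [Etale W.hom] [QuasiCompact W.hom] (R Ω : Type) [CommRing R] [Field Ω]
    [IsAlgClosed Ω] [Algebra R Ω] (a : Spec (.of R) ⟶ X) :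
    ∃ (A : Subalgebra R Ω) (_ : A.FG) (ι : Type) (_ : Finite ι)
      (s : ι → (Over.mk (spc (algebraMap R A) ≫ a) ⟶ W)),
      ∀ (K : Type) [Field K] (x : Spec (.of K) ⟶ X)
        (c : Over.mk x ⟶ Over.mk (spc (algebraMap R A) ≫ a)) (y : Over.mk x ⟶ W),
        ∃ i, y = c ≫ s i := by
  let D := FIN.sysD (G R Ω) (fun k => spc (algebraMap R k.1) ≫ a)
    fun f => FIN.alg_tri (Subalgebra.inclusion f.le) a
  let c : Cone D := FIN.sysC (G R Ω) _ _ (co R Ω) (spc (algebraMap R Ω) ≫ a)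
    fun k => FIN.alg_tri k.1.val a
  have hc : IsLimit c := FIN.sysL _ _ _ _ _ _ (col R Ω).some
  have hD (i) : IsAffine (D.obj i).left := inferInstanceAs (IsAffine (Spec _))
  have cp (T : Over X) [IsAffine T.left] : CompactSpace ↥(pullback T.hom W.hom) :=
    QuasiCompact.compactSpace_of_compactSpace (pullback.fst _ _)
  have : IsAffine c.pt.left := inferInstanceAs (IsAffine (Spec _))
  have := cp c.pt
  choose σ h1 h2 using cover (Ω := Ω) (pullback.fst c.pt.hom W.hom)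
  obtain ⟨t, ht⟩ := isCompact_univ.elim_finite_subcover (fun y => Set.range (σ y))
    (fun y => have := opn (h1 y); (σ y).isOpenEmbedding.isOpen_range)
    fun y _ => Set.mem_iUnion.2 ⟨y, h2 y⟩
  let τ (y : t) : c.pt ⟶ W := Over.homMk (σ y ≫ pullback.snd _ _) (by
    rw [Category.assoc, ← pullback.condition, ← Category.assoc, h1]; exact Category.id_comp _)
  obtain ⟨i, -, hi⟩ := common (Classical.arbitrary (I R Ω)ᵒᵖ)
    (fun (y : t) j _ => ∃ s : D.obj j ⟶ W, pr c j ≫ s = τ y)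
    (fun y j k f g ⟨s, h⟩ => ⟨D.map g ≫ s, by rw [pr_w_assoc, h]⟩) fun y => by
      obtain ⟨j, s, h⟩ := hom_surj hD hc W (τ y)
      exact ⟨_, IsCofiltered.minToRight j _, D.map (IsCofiltered.minToLeft _ _) ≫ s, by
        rw [pr_w_assoc, h]⟩
  choose s hs using hi
  let s' (y : t) : (D.obj i).left ⟶ pullback (D.obj i).hom W.hom :=
    pullback.lift (𝟙 _) (s y).left ((Category.id_comp _).trans (Over.w (s y)).symm)
  have o (y : t) : IsOpenImmersion (s' y) := opn (pullback.lift_fst _ _ _)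
  obtain ⟨j, f, hf⟩ := open_desc (D := D ⋙ Over.pullback W.hom)
    (fun {i j} g => MorphismProperty.overPullbackMap W.hom (D.map g)
      (have := hD i; have := hD j; isAffineHom_of_isAffine (D.map g).left))
    (fun i => have := hD i; cp (D.obj i)) (isLimitOfPreserves (Over.pullback W.hom) hc) i
    (⨆ y, (s' y).opensRange) fun z => by
      obtain ⟨y, hy, w, rfl⟩ := Set.mem_iUnion₂.1 (ht (Set.mem_univ z))
      refine TopologicalSpace.Opens.mem_iSup.2 ⟨⟨y, hy⟩, (pr c i).left w, ?_⟩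
      have e : (pr c i).left ≫ s' ⟨y, hy⟩ = σ y ≫ ((Over.pullback W.hom).map (pr c i)).left := by
        refine pullback.hom_ext ?_ ?_
        · rw [Category.assoc, Category.assoc, pullback.lift_fst, Category.comp_id,
            show ((Over.pullback W.hom).map (pr c i)).left ≫ pullback.fst _ _ =
              pullback.fst _ _ ≫ (pr c i).left from pullback.lift_fst _ _ _, ← Category.assoc, h1]
          exact (Category.id_comp _).symm
        · rw [Category.assoc, Category.assoc, pullback.lift_snd,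
            show ((Over.pullback W.hom).map (pr c i)).left ≫ pullback.snd _ _ =
              pullback.snd _ _ from pullback.lift_snd _ _ _]
          exact congrArg (·.left) (hs ⟨y, hy⟩)
      exact (Scheme.Hom.comp_apply _ _ _).symm.trans (e ▸ Scheme.Hom.comp_apply _ _ _)
  refine ⟨j.unop.1, j.unop.2, t, inferInstance, fun y => D.map f ≫ s y, fun K _ x c y => ?_⟩
  let z : Spec (.of K) ⟶ pullback (D.obj j).hom W.hom :=
    pullback.lift c.left y.left ((Over.w c).trans (Over.w y).symm)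
  let m : pullback (D.obj j).hom W.hom ⟶ pullback (D.obj i).hom W.hom :=
    ((Over.pullback W.hom).map (D.map f)).left
  obtain ⟨u, hu⟩ := TopologicalSpace.Opens.mem_iSup.1 (hf (z default))
  have e := IsOpenImmersion.lift_fac (s' u) (z ≫ m) (by
    rintro _ ⟨w, rfl⟩
    rw [Subsingleton.elim w default]
    exact hu)
  have e1 := congrArg (· ≫ pullback.fst _ _) e
  have e2 := congrArg (· ≫ pullback.snd _ _) e
  simp only [Category.assoc] at e1 e2
  rw [pullback.lift_fst, Category.comp_id, show m ≫ pullback.fst _ _ =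
    pullback.fst _ _ ≫ (D.map f).left from pullback.lift_fst _ _ _, pullback.lift_fst_assoc] at e1
  rw [pullback.lift_snd, show m ≫ pullback.snd _ _ = pullback.snd _ _ from pullback.lift_snd _ _ _,
    pullback.lift_snd, e1] at e2
  exact ⟨u, Over.OverMorphism.ext (e2.symm.trans (Category.assoc _ _ _))⟩

theorem res_bij (l : ℕ) (W : Over X) {A B : Type} [CommRing A] [SHL A] [CommRing B] [SHL B]
    {a : Spec (.of A) ⟶ X} {b : Spec (.of B) ⟶ X} (g : Over.mk b ⟶ Over.mk a)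
    (h : Bijective fun y : Over.mk a ⟶ W => g ≫ y) : Bijective (rsec g (Ln l W)) := by
  obtain ⟨e, he⟩ := stalk l a W
  obtain ⟨e', he'⟩ := stalk l b W
  have H : e' ∘ rsec g (Ln l W) = Finsupp.mapDomain (fun y => g ≫ y) ∘ e := by
    funext s
    obtain ⟨m, rfl⟩ := pτ_surj l a W s
    refine DFunLike.congr_fun (bas_ext
      (a := e'.toAddMonoidHom.comp ((rsec g (Ln l W)).comp (pτ l W _)))
      (b := (Finsupp.mapDomain.addMonoidHom fun y => g ≫ y).comp
        (e.toAddMonoidHom.comp (pτ l W _))) fun y => ?_) m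
    change e' (rsec g _ (pτ l W _ (bas y))) = Finsupp.mapDomain _ (e (pτ l W _ (bas y)))
    rw [he, red_bas, Finsupp.mapDomain_single, ← red_bas, ← he', pτ_bas, pτ_bas]
    exact congrArg e' (res_res _ _ _ _)
  rw [← Bijective.of_comp_iff' e'.bijective, H]
  exact Bijective.comp ⟨Finsupp.mapDomain_injective h.1, Finsupp.mapDomain_surjective h.2⟩
    e.bijective

theorem sub {l : ℕ} [Fact l.Prime] {M : Type 1} [AddCommGroup M] (h : ∀ m : M, l • m = 0) :
    Subsingleton (V l M) := by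
  refine subsingleton_of_forall_eq 0 fun f => Subtype.ext (AddMonoidHom.ext fun x => ?_)
  have hl : (l : ℚ_[l]) ≠ 0 := Nat.cast_ne_zero.2 (Fact.out : l.Prime).ne_zero
  let g : ℚ_[l] →+ M := f.1
  change g x = 0
  rw [← mul_div_cancel₀ x hl, ← nsmul_eq_mul, map_nsmul, h]

end GSP

theorem gsplit (l : ℕ) [Fact l.Prime] (X : Scheme.{0}) (W : Over X) [Etale W.hom]
    [QuasiCompact W.hom] [IsSeparated W.hom] : Good {l} 0 fun _ _ => Ln l W := by
  have tc : Tc l (Ln l W) := ⟨cc l l W, fun T _ s => ⟨1, by rw [pow_one]; exact lsm l W T s⟩⟩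
  refine ⟨fun l' _ hl => by obtain rfl : l' = l := hl; exact tc, fun R Ω _ _ _ _ _ _ a => ?_⟩
  obtain ⟨A, hA, ι, _, s, hs⟩ := GSP.split W R Ω a
  refine ⟨A, hA, fun l' _ hl B _ β _ => ?_⟩
  obtain rfl : l' = l := hl
  let g := spc (β.comp (algebraMap R A)) ≫ a
  let c {T : Scheme.{0}} (x : T ⟶ Spec (.of B)) :
      Over.mk (x ≫ g) ⟶ Over.mk (spc (algebraMap R A) ≫ a) := Over.homMk (x ≫ spc β) (by
    change (x ≫ spc β) ≫ spc (algebraMap R A) ≫ a = x ≫ g
    rw [Category.assoc, ← Spec.map_comp_assoc]; rfl)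
  have sb (T : Over (Spec (.of B))) :=
    GSP.sub (M := sec ((pb (J := Scheme.etaleTopology) g).obj (Ln l' W)) T) (lsm l' W _)
  refine ⟨.rat ⟨⟨tc.pb g, fun C K _ _ _ _ _ _ x y h _ hC _ => ?_, fun k _ _ x _ =>
    ⟨fun m => ⟨1, by rw [pow_one]; exact lsm l' W _ m⟩, ?_⟩⟩, fun k _ _ x Q ψ h => ⟨0, ?_⟩⟩,
    fun k _ _ x Q ψ h j => ⟨1, one_ne_zero, ?_, fun z hz => ?_⟩⟩
  · have := hC.shl
    have := hC.isAlgClosed K
    have := (aic_of_isAlgClosed K).shl
    have : IsDominant (spc (algebraMap C K)) :=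
      ⟨(PrimeSpectrum.denseRange_comap_iff_ker_le_nilRadical _).2
        (((RingHom.injective_iff_ker_eq_bot _).1 (IsFractionRing.injective C K)).le.trans bot_le)⟩
    refine GSP.res_bij l' W (a := x ≫ g) (b := y ≫ g) ((Over.map g).map (sph _ h))
      ⟨fun u v e => Over.OverMorphism.ext (ext_of_isDominant_of_isSeparated (X := Spec (.of C)) W.hom
        ((Over.w u).trans (Over.w v).symm) (spc (algebraMap C K)) (congrArg (·.left) e)),
      fun z => ?_⟩
    obtain ⟨i, hi⟩ := hs K _ ((Over.map g).map (sph _ h) ≫ c x) z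
    exact ⟨c x ≫ s i, (Category.assoc _ _ _).symm.trans hi.symm⟩
  · have := (aic_of_isAlgClosed k).shl
    obtain ⟨e, -⟩ := stalk l' (x ≫ g) W
    have : Finite (Over.mk (x ≫ g) ⟶ W) := .of_surjective (fun i => c x ≫ s i) fun z =>
      (hs k _ (c x) z).imp fun _ => Eq.symm
    have : NeZero l' := ⟨(Fact.out : l'.Prime).ne_zero⟩
    have : Finite (sec ((pb (J := Scheme.etaleTopology) g).obj (Ln l' W)) (Over.mk x)) :=
      .of_injective _ ((DFunLike.coe_injective (F := _ →₀ ZMod l')).comp e.injective)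
    exact Set.toFinite _
  · have := sb (Over.mk x)
    rw [tr, Subsingleton.elim (Vm _ _) 0, map_zero, Rat.cast_zero]
  · have := sb (Over.mk x)
    exact Subsingleton.elim _ _
  · rw [Polynomial.eval₂_one] at hz
    exact absurd hz one_ne_zero

end Pool.Agent.MP_855f4c_ag.E.D

end

section

/-! h86e section D, rows DESC and SPR. -/

set_option autoImplicit false
set_option backward.isDefEq.respectTransparency false

open CategoryTheory Limits Abelian Opposite AlgebraicGeometry Polynomial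

namespace Pool.Agent.MP_855f4c_ag.E.D

open E3 E4
open CV (Ln Lm)

namespace DESC

lemma line {R : Type} [CommRing R] {V : Scheme.{0}} [IsAffine V] (b : V ⟶ Spec (.of R[X]))
    [Etale b] : ∃ (R₀ : Type) (_ : CommRing R₀) (_ : Algebra.FiniteType ℤ R₀) (α : R₀ →+* R)
      (V₀ : Scheme.{0}) (v₀ : V₀ ⟶ Spec (.of R₀[X])) (m : V ⟶ V₀),
      IsAffine V₀ ∧ Etale v₀ ∧ IsPullback m b v₀ (spc (mapRingHom α)) := by
  classical
  obtain ⟨V₀, A₀, _, v₀, t, m, _, _, _, H⟩ := FIN.et_model b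
  obtain ⟨φ, rfl⟩ := Spec.map_surjective t
  obtain ⟨s, hs⟩ := Algebra.FiniteType.out (R := ℤ) (A := A₀)
  let R₀ := Algebra.adjoin ℤ ((s.biUnion fun a => (φ.hom a).coeffs : Finset R) : Set R)
  let α : R₀ →+* R := R₀.val
  have h1 : ∀ a, φ.hom a ∈ (mapRingHom α).range := fun a => by
    have ha : a ∈ Algebra.adjoin ℤ (s : Set A₀) := hs.ge trivial
    induction ha using Algebra.adjoin_induction with
    | mem a ha =>
      exact (lifts_iff_coeffs_subset_range (f := α) _).2 fun c hc =>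
        ⟨⟨c, Algebra.subset_adjoin (Finset.mem_biUnion.2 ⟨a, ha, hc⟩)⟩, rfl⟩
    | algebraMap n => rw [eq_intCast, map_intCast]; exact intCast_mem _ n
    | add x y _ _ hx hy => rw [map_add]; exact add_mem hx hy
    | mul x y _ _ hx hy => rw [map_mul]; exact mul_mem hx hy
  let e := RingEquiv.ofBijective (mapRingHom α).rangeRestrict
    ⟨fun _ _ h => map_injective α Subtype.val_injective (congrArg Subtype.val h),
      (mapRingHom α).rangeRestrict_surjective⟩
  let φ₀ : A₀ →+* R₀[X] := e.symm.toRingHom.comp (φ.hom.codRestrict _ h1)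
  have h2 : spc (mapRingHom α) ≫ spc φ₀ = Spec.map φ := by
    rw [← Spec.map_comp]
    exact congrArg Spec.map (CommRingCat.hom_ext (RingHom.ext fun a =>
      congrArg Subtype.val (e.apply_symm_apply ⟨_, h1 a⟩)))
  have w : (b ≫ spc (mapRingHom α)) ≫ spc φ₀ = m ≫ v₀ := by rw [Category.assoc, h2, H.w]
  refine ⟨R₀, inferInstance, ⟨R₀.fg_top.2 (Subalgebra.fg_adjoin_finset _)⟩, α, _,
    pullback.fst (spc φ₀) v₀, pullback.lift _ _ w, inferInstance, inferInstance,
    IsPullback.of_right ?_ (pullback.lift_fst _ _ w) (IsPullback.of_hasPullback _ _).flip⟩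
  rw [pullback.lift_snd, h2]
  exact H.flip

lemma spz_iso {S : Scheme.{0}} {l : ℕ} [Fact l.Prime] {G G₁ : Sh (Scheme.etaleTopology.over S)} (e : G ≅ G₁)
    (h : Spz l G) : Spz l G₁ := fun k _ _ t z => by
  obtain ⟨h1, U, h2, h3⟩ := h k t z
  have hi : ∀ T s, e.hom.hom.app T (e.inv.hom.app T s) = s := fun T s =>
    congr($(e.inv_hom_id).hom.app T s)
  refine ⟨h1.quo (e.hom.hom.app _).hom fun s => ⟨_, hi _ s⟩, U, h2,
    fun k' _ _ t' h4 G' φ h5 h6 s => ?_⟩
  have := h3 k' t' h4 G' (φ ≫ e.inv) h5 (fun s => by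
    change e.inv.hom.app _ (φ.hom.app _ s) = 0
    rw [h6, map_zero]) s
  rw [← hi _ (φ.hom.app _ s)]
  exact (congrArg _ this).trans (map_zero _)

lemma pb_ln {X Y : Scheme.{0}} (a : Y ⟶ X) (n : ℕ) (W : Over X) :
    Nonempty ((pb (J := Scheme.etaleTopology) a).obj (Ln n W) ≅ Ln n ((Over.pullback a).obj W)) :=
  have := push_colim (Scheme.etaleTopology.over Y) (Scheme.etaleTopology.over X) (Over.mapPullbackAdj a)
  let e := asIso (frPb (Scheme.etaleTopology.over Y) (Scheme.etaleTopology.over X) (Over.mapPullbackAdj a) W)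
  ⟨PreservesCokernel.iso (push (Scheme.etaleTopology.over X) (Scheme.etaleTopology.over Y) (Over.map a)) _ ≪≫
    cokernel.mapIso _ _ e.symm e.symm (by simp)⟩

lemma ln_iso {X : Scheme.{0}} (n : ℕ) {W W' : Over X} (e : W ≅ W') :
    Nonempty (Ln n W ≅ Ln n W') :=
  ⟨cokernel.mapIso _ _ ((fr _).mapIso e) ((fr _).mapIso e) (by simp)⟩

end DESC

open DESC

theorem desc : DESC_s := fun R _ L W hW hc => by
  have := hW.1
  have := hW.2
  have key : ∀ (c : ∀ {A : Type} [CommRing A] (L : PL (Spec (.of A))), Spec (.of A[X]) ⟶ L.P)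
      (ι : Spec (.of ℤ[X]) ⟶ P1) [IsOpenImmersion ι],
      (∀ (A : Type) [CommRing A] (L : PL (Spec (.of A))), c L ≫ L.π = spc C ∧
        IsPullback (spc (eval₂RingHom (Int.castRingHom A[X]) X)) (c L) ι L.q) →
      (∃ b, b ≫ c L = W.hom) → ∃ (R₀ : Type) (_ : CommRing R₀) (_ : Algebra.FiniteType ℤ R₀)
        (α : R₀ →+* R) (L₀ : PL (Spec (.of R₀))) (a : L.P ⟶ L₀.P) (W₀ : Over L₀.P),
        IsPullback a L.π L₀.π (spc α) ∧ Aet W₀ ∧ Nonempty (W ≅ (Over.pullback a).obj W₀) := by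
    rintro c ι _ h ⟨b, hb⟩
    have : IsOpenImmersion (c L) := MorphismProperty.of_isPullback (h R L).2 ‹_›
    have : Etale (b ≫ c L) := hb ▸ hW.1
    have := Etale.of_comp b (c L)
    obtain ⟨R₀, _, _, α, V₀, v₀, m, _, _, H⟩ := line b
    let L₀ := PL.std (Spec (.of R₀))
    have : IsOpenImmersion (c L₀) := MorphismProperty.of_isPullback (h R₀ L₀).2 ‹_›
    have e : spc (mapRingHom α) ≫ spc (eval₂RingHom (Int.castRingHom R₀[X]) X) =
        spc (eval₂RingHom (Int.castRingHom R[X]) X) := by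
      rw [← Spec.map_comp, ← CommRingCat.ofHom_comp]
      exact congrArg spc (Polynomial.ringHom_ext' (Subsingleton.elim _ _) (by simp))
    have H' : IsPullback (spc (mapRingHom α)) (c L) (c L₀) (L₀.pnt (L.π ≫ spc α) L.q) := by
      refine IsPullback.of_right ?_ (L₀.pnt_ext ?_ ?_) (h R₀ L₀).2
      · rw [e, L₀.pnt_q]; exact (h R L).2
      · rw [Category.assoc, Category.assoc, L₀.pnt_π, (h R₀ L₀).1, reassoc_of% (h R L).1,
          ← Spec.map_comp, ← Spec.map_comp, ← CommRingCat.ofHom_comp, ← CommRingCat.ofHom_comp,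
          mapRingHom_comp_C]
      · rw [Category.assoc, Category.assoc, L₀.pnt_q, ← (h R₀ L₀).2.w, reassoc_of% e, (h R L).2.w]
    have H'' := H.paste_vert H'
    rw [hb] at H''
    refine ⟨R₀, inferInstance, inferInstance, α, L₀, L₀.pnt (L.π ≫ spc α) L.q, Over.mk (v₀ ≫ c L₀),
      IsPullback.of_right ?_ (L₀.pnt_π _ _) L₀.sq, ⟨inferInstanceAs (Etale (v₀ ≫ c L₀)), ‹_›⟩,
      ⟨Over.isoMk H''.isoPullback H''.isoPullback_hom_snd⟩⟩
    rw [L₀.pnt_q, terminal.comp_from]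
    exact L.sq
  have := P1D.o₁
  have := P1D.o₂
  exact hc.elim (key (fun L => L.c₁) P1D.ι₁ fun A _ L => ⟨L.pnt_π _ _, L.isPullback_c₁⟩)
    (key (fun L => L.c₂) P1D.ι₂ fun A _ L => ⟨L.pnt_π _ _, L.isPullback_c₂⟩)

theorem spr (h1 : DESC_s) (h2 : SPZ_s) (h3 : GX_s) : SPR_s := fun l _ R _ L W b hn hW hc => by
  obtain ⟨R₀, _, _, α, L₀, a, W₀, H, ⟨_, _⟩, ⟨e⟩⟩ := h1 R L W hW hc
  have : IsAffineHom W₀.hom := IsAffineHom.of_comp _ L₀.π
  obtain ⟨e₁⟩ := pb_ln a l W₀
  obtain ⟨e₂⟩ := ln_iso l e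
  exact spz_iso ((rqBC H b).app _ ≪≫ (Rq L.π b).mapIso (e₁ ≪≫ e₂.symm))
    (h2 l R₀ R α _ _ hn (h3 {l} R₀ _ L₀.π 0 b _ (gsplit l _ W₀)))

end Pool.Agent.MP_855f4c_ag.E.D

end

section

set_option autoImplicit false
set_option backward.isDefEq.respectTransparency false

open CategoryTheory Limits Abelian Opposite AlgebraicGeometry Function

namespace Pool.Agent.MP_855f4c_ag.E.D

open E3 E4
open CV (Ln Lm)

namespace KILLA

lemma fin_ref {I α : Type 1} [Nonempty I] {le : I → I → Prop} (hd : ∀ a b, ∃ c, le c a ∧ le c b)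
    {s : Set α} (hs : s.Finite) (P : I → α → Prop) (hP : ∀ a b x, le a b → P b x → P a x)
    (h : ∀ x ∈ s, ∃ a, P a x) : ∃ a, ∀ x ∈ s, P a x := by
  induction s, hs using Set.Finite.induction_on with
  | empty => exact ⟨Classical.arbitrary I, fun _ h => h.elim⟩
  | insert _ _ ih =>
    obtain ⟨a, ha⟩ := h _ (Set.mem_insert _ _)
    obtain ⟨b, hb⟩ := ih fun x hx => h x (Set.mem_insert_of_mem _ hx)
    obtain ⟨c, h1, h2⟩ := hd a b
    exact ⟨c, fun x hx => hx.elim (fun e => e ▸ hP _ _ _ h1 ha) fun hx => hP _ _ _ h2 (hb x hx)⟩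

variable {X S : Scheme.{0}}

lemma fbm_comp {L : PL S} {W'' W' W : Over L.P} (a : W'' ⟶ W') (h : W' ⟶ W) {T : Scheme.{0}}
    (t : T ⟶ S) : fbm a t ≫ fbm h t = fbm (a ≫ h) t :=
  Over.OverMorphism.ext (by apply pullback.hom_ext <;> simp [fbm])

variable (f : X ⟶ S) (q : ℕ) {k : Type} [Field k] [IsAlgClosed k] (t : Spec (.of k) ⟶ S)
  {F G Z : Sh (Scheme.etaleTopology.over X)}

lemma rq_zero (φ : F ⟶ G) (x : H (fbr f t) F q) :
    ((Rq f q).map φ).hom.app _ (toRq f F q (Over.mk t) x) = 0 ↔ Hmap φ _ q x = 0 := by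
  rw [← toRq_map, map_eq_zero_iff _ (toRq_bij f G q t).1]

lemma zer_iff (φ : F ⟶ G) : Zer ((Rq f q).map φ) t ↔ ∀ x, Hmap φ (fbr f t) q x = 0 :=
  (toRq_bij f F q t).2.forall.trans (forall_congr' (rq_zero f q t φ))

lemma zer_ker (ρ : F ⟶ Z) (φ : F ⟶ G) : Zer (kernel.ι ((Rq f q).map ρ) ≫ (Rq f q).map φ) t ↔
    ∀ x, Hmap ρ (fbr f t) q x = 0 → Hmap φ (fbr f t) q x = 0 := by
  have h := (exact_sec (ShortComplex.exact_kernel ((Rq f q).map ρ)) (Over.mk t)).2
  refine ⟨fun hz x hx => ?_, fun hz s => ?_⟩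
  · obtain ⟨s, hs⟩ := (h _).1 ((rq_zero f q t ρ x).2 hx)
    exact (rq_zero f q t φ x).1 ((congrArg _ hs.symm).trans (hz s))
  · obtain ⟨x, hx⟩ := (toRq_bij f F q t).2 ((kernel.ι ((Rq f q).map ρ)).hom.app _ s)
    exact (congrArg _ hx.symm).trans ((rq_zero f q t φ x).2 (hz x ((rq_zero f q t ρ x).1
      ((congrArg _ hx).trans ((h _).2 ⟨s, rfl⟩)))))

lemma fin_H {l : ℕ} (W : Over X) (h : Cof l (sec ((Rq f q).obj (Ln l W)) (Over.mk t))) :
    Finite (H (fbr f t) (Ln l W) q) :=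
  Set.finite_univ_iff.1 ((h.2.preimage (toRq_bij f _ q t).1.injOn).subset fun x _ =>
    (map_nsmul _ l x).symm.trans ((congrArg _ (CONN.h_tor x)).trans (map_zero _)))

end KILLA

open KILLA in
theorem killa (ref : REF_s) (k1 : K1_s) (k2 : K2_s) (lock : LOCK_s) (spr : SPR_s) (nind : NIND_s)
    (pbc : PBC_s) (lnm : LNM_s) : KILLA_s := by
  intro l _ R _ _ L W w hn hW hc
  have hl := hn l (Fact.out : l.Prime).ne_zero
  have sep : (Spec (.of R)).IsSeparated := inferInstance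
  obtain ⟨_, r1, -, r2, -⟩ := ref _ L W w sep hW
  have eV : ∀ N : Nb W w, Etale ((Over.pullback L.π).obj N.V).hom := fun N =>
    have := N.aV.1
    inferInstanceAs (Etale (pullback.snd _ _))
  have cc : ∀ (q : ℕ) (Z : Over L.P), Etale Z.hom → Cc l ((Rq L.π q).obj (Ln l Z)) := fun q Z h =>
    (pbc l _ L _ q ((lnm _ l).1 l Z ⟨1, (pow_one l).symm⟩ h)).1
  obtain ⟨N, hN⟩ := nind (Spec (.of R)) (Nb W w) Nb.Le
    (fun N z => ∀ (k : Type) [Field k] [IsAlgClosed k] (t : Spec (.of k) ⟶ Spec (.of R)),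
      z ∈ Set.range t → N.Ok l t) r1 (fun a b z h hb k _ _ t hz => r2 a b l _ t h (hb k t hz))
    fun p => by
      obtain ⟨k, _, _, t, ⟨z, rfl⟩, l1, l2⟩ := lock l R L W w hl hW hc p
      have hk : (l : k) ≠ 0 := Linv.spec hl k t
      obtain ⟨c1, U₁, u1, s1⟩ := spr l R L W 1 hn hW hc k t z
      obtain ⟨c2, U₂, u2, s2⟩ := spr l R L W 2 hn hW hc k t z
      obtain ⟨f1, g1⟩ := k1 l _ L k t W hk sep hW
      obtain ⟨f2, g2⟩ := k2 l _ L k t W hk hW.1
      let P₁ (N : Nb W w) (y : H (fb W t) (Linf l L.P) 1) := res (fbm N.h t) _ 1 y = 0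
      let P₂ (N : Nb W w) (s : sec (Linf l L.P) (fb W t)) :=
        ∃ s' : sec (Linf l L.P) (fb ((Over.pullback L.π).obj N.V) t),
          l • s' = 0 ∧ rsec (fbm N.h t) _ s = rsec (fbm N.r t) _ s'
      have m1 : ∀ a b y, a.Le b → P₁ b y → P₁ a y := by
        rintro a b y ⟨α, β, e, -⟩ h
        change res _ _ _ _ = 0
        rw [← e, ← fbm_comp, res, Functor.map_comp]
        exact (pre_pre _ _ y).symm.trans ((congrArg _ h).trans (map_zero _))
      have m2 : ∀ a b s, a.Le b → P₂ b s → P₂ a s := by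
        rintro a b s ⟨α, β, e, e'⟩ ⟨s', h, h'⟩
        refine ⟨rsec (fbm ((Over.pullback L.π).map β) t) _ s',
          (map_nsmul _ l s').symm.trans ((congrArg _ h).trans (map_zero _)), ?_⟩
        rw [res_res, fbm_comp, ← e', ← e, ← fbm_comp, ← fbm_comp, ← res_res, ← res_res]
        exact congrArg _ h'
      obtain ⟨N₁, h1⟩ := fin_ref r1 (f1 (fin_H _ _ t W c1)) P₁ m1 fun y _ => l1 y
      obtain ⟨N₂, h2⟩ := fin_ref r1 (f2 (fin_H _ _ t W c2)) P₂ m2 l2
      obtain ⟨N, n1, n2⟩ := r1 N₁ N₂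
      refine ⟨N, U₁ ⊓ U₂, (U₁ ⊓ U₂).isOpen, ⟨u1, u2⟩, ?_⟩
      rintro _ hq hs k' _ _ t' ⟨z', rfl⟩
      have e : ∀ y, t' y = t' z' := fun y => congrArg _ (Subsingleton.elim _ _)
      exact ⟨(zer_iff _ _ t' _).1 (s1 k' t' (fun y => e y ▸ ⟨hq.1, hs⟩) _ _ (cc 1 _ N.aW.1)
          ((zer_iff _ _ t _).2 (g1 _ N.h N.aW fun y hy => m1 _ _ y n1 (h1 y hy)))),
        (zer_ker _ _ t' _ _).1 (s2 k' t' (fun y => e y ▸ ⟨hq.2, hs⟩) _ _
          (.ker _ (cc 2 _ N.aW.1) (cc 2 _ (eV N))) ((zer_ker _ _ t _ _).2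
            (g2 _ _ N.h N.r N.aW.1 (eV N) fun s hs => m2 _ _ s n2 (h2 s hs))))⟩
  exact ⟨N, fun k _ _ t => hN (t (Classical.arbitrary _)) k t ⟨_, rfl⟩⟩

end Pool.Agent.MP_855f4c_ag.E.D

end

section

/-! h86e section D, row IOTA: the comparison map is an isomorphism. -/

set_option autoImplicit false
set_option backward.isDefEq.respectTransparency false

open CategoryTheory Limits Abelian Opposite AlgebraicGeometry Function

namespace Pool.Agent.MP_855f4c_ag.E.D

open E3 E4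
open CV (Ln Lm)

namespace IOB

variable {X : Scheme.{0}} {k k' : Type} [Field k] [IsAlgClosed k] [Field k']

lemma fin (V : Over X) [Etale V.hom] [QuasiCompact V.hom] (x : Spec (.of k) ⟶ X) :
    Finite (Over.mk x ⟶ V) := by
  obtain ⟨A, -, ι, _, s, hs⟩ := GSP.split V k k x
  let c : Over.mk x ⟶ Over.mk (spc (algebraMap k A) ≫ x) := Over.homMk (spc (A.val : A →+* k)) (by
    change _ ≫ _ ≫ x = x
    rw [← Spec.map_comp_assoc]
    exact (congrArg (· ≫ x) (Spec.map_id _)).trans (Category.id_comp x))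
  exact .of_surjective (fun i => c ≫ s i) fun z => (hs k _ c z).imp fun _ => Eq.symm

lemma lifts (V : Over X) [Etale V.hom] {x : Spec (.of k) ⟶ X} {x' : Spec (.of k') ⟶ X}
    (c : Over.mk x' ⟶ Over.mk x) : Bijective fun y : Over.mk x ⟶ V => c ≫ y := by
  obtain ⟨φ, hφ⟩ := Spec.map_surjective (R := .of k) (S := .of k') c.left
  have : Flat (Spec.map φ) := (HasRingHomProperty.Spec_iff (P := @Flat)).2 (by
    let _ := φ.hom.toAlgebra
    exact (inferInstance : Module.Flat k k'))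
  have : AlgebraicGeometry.Surjective (Spec.map φ) := ⟨fun _ => ⟨default, Subsingleton.elim _ _⟩⟩
  have := Flat.epi_of_flat_of_surjective (Spec.map φ)
  have := (aic_of_isAlgClosed k).shl
  refine ⟨fun a b h => Over.OverMorphism.ext ((cancel_epi (Spec.map φ)).1
    (hφ ▸ congrArg (·.left) h)), fun y => ?_⟩
  obtain ⟨a, h1, h2⟩ := E.shl_lift φ.hom V.hom x y.left
    ((Over.w y).trans ((Over.w c).symm.trans (congrArg (· ≫ x) hφ.symm)))
  exact ⟨Over.homMk a h1, Over.OverMorphism.ext ((congrArg (· ≫ a) hφ.symm).trans h2)⟩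

lemma basis (hN : LNM_s) (n : ℕ) (W : Over X) (x : Spec (.of k) ⟶ X) {ι : Type} [Fintype ι]
    (y : ι → (Over.mk x ⟶ W)) (hy : Bijective y) :
    (∀ z, ∃ c : ι → ℤ, z = ∑ i, c i • rsec (y i) _ (tau n W)) ∧
      ∀ c : ι → ℤ, ∑ i, c i • rsec (y i) _ (tau n W) = 0 ↔ ∀ i, (n : ℤ) ∣ c i := by
  classical
  obtain ⟨e, he, -⟩ := (hN X n).2.2.2.2 k x
  have h : ∀ (c : ι → ℤ) j, e W (∑ i, c i • rsec (y i) _ (tau n W)) (y j) = c j := fun c j => by
    rw [map_sum, Finsupp.finsetSum_apply, Finset.sum_eq_single j (fun i _ hi => by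
      rw [map_zsmul, he, Finsupp.smul_apply, Finsupp.single_eq_of_ne' (hy.1.ne hi), smul_zero])
      (fun h => absurd (Finset.mem_univ j) h), map_zsmul, he, Finsupp.smul_apply,
      Finsupp.single_eq_same, zsmul_one]
  refine ⟨fun z => ?_, fun c => ⟨fun h0 i => (ZMod.intCast_zmod_eq_zero_iff_dvd _ _).1 (by
    rw [← h, h0, map_zero, Finsupp.zero_apply]), fun h0 => (e W).injective (Finsupp.ext fun j => ?_)⟩⟩
  · choose c hc using fun i => ZMod.intCast_surjective (e W z (y i))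
    refine ⟨c, (e W).injective (Finsupp.ext fun j => ?_)⟩
    obtain ⟨j, rfl⟩ := hy.2 j
    rw [h, hc]
  · obtain ⟨j, rfl⟩ := hy.2 j
    rw [h, map_zero, Finsupp.zero_apply, (ZMod.intCast_zmod_eq_zero_iff_dvd _ _).2 (h0 j)]

end IOB

open IOB in
theorem iota_iso (hP : PBC_s) (hN : LNM_s) {l : ℕ} [Fact l.Prime] {S : Scheme.{0}} (L : PL S)
    (hl : Linv l S) (m : Smul L.P l 2) (γ : H ((Over.pullback L.π).obj (top S)) (Ln l (top L.P)) 2)
    (hγ : ∀ (k : Type) [Field k] [IsAlgClosed k] (x : Spec (.of k) ⟶ S) (y : Over.mk x ⟶ top S),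
      (∀ z, ∃ c : ℤ, z = c • res ((Over.pullback L.π).map y) _ 2 γ) ∧
      ∀ c : ℤ, c • res ((Over.pullback L.π).map y) _ 2 γ = 0 → (l : ℤ) ∣ c)
    (V : Over S) [Etale V.hom] [QuasiCompact V.hom]
    (ι : Ln l V ⟶ (Rq L.π 2).obj (Ln l ((Over.pullback L.π).obj V))) (hs)
    (hι : ι.hom.app _ (tau l V) = toRq L.π _ 2 V (m.m _ _ (tau l ((Over.pullback L.π).obj V)) hs
      (res ((Over.pullback L.π).map (tot V)) _ 2 γ))) : IsIso ι := by
  have lp : Lp l l := ⟨1, (pow_one l).symm⟩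
  have tc := (hN _ l).1 l ((Over.pullback L.π).obj V) lp (inferInstanceAs (Etale (pullback.snd _ _)))
  refine pt_iso hl ((hN _ l).1 l V lp inferInstance).1 (hP l S L _ 2 tc).1 ι fun t => ?_
  obtain ⟨k, _, _, x, hx⟩ := stk_geom S t
  refine ⟨k, inferInstance, inferInstance, x, ⟨default, hx _⟩, ?_⟩
  have := (aic_of_isAlgClosed k).shl
  have := fin V x
  have := Fintype.ofFinite (Over.mk x ⟶ V)
  obtain ⟨g1, g2⟩ := hγ k x (tot _)
  obtain ⟨b1, b2⟩ := basis hN l V x id bijective_id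
  have hs' : ∀ y : Over.mk x ⟶ V, l • rsec ((Over.pullback L.π).map y) _ (tau l _) = 0 :=
    fun y => by rw [← map_nsmul, hs, map_zero]
  have hb := m.bij l (fbr L.π x) _ _ _ hs' lp tc (hl.of_hom ((fbr L.π x).hom ≫ L.π))
    fun k' _ _ x' y' => by
      obtain ⟨c, rfl⟩ := ((Over.mapPullbackAdj L.π).homEquiv _ _).surjective y'
      have h1 := basis hN l ((Over.pullback L.π).obj V) x' _
        (((Over.mapPullbackAdj L.π).homEquiv _ _).bijective.comp (lifts V (x' := x' ≫ L.π) c))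
      simp only [Function.comp_apply, Adjunction.homEquiv_naturality_right] at h1
      have h2 : ∀ y : Over.mk x ⟶ V, rsec ((Over.mapPullbackAdj L.π).homEquiv _ _ c) _
          (rsec ((Over.pullback L.π).map y) _ (tau l _)) = rsec ((Over.mapPullbackAdj L.π).homEquiv
            _ _ c ≫ (Over.pullback L.π).map y) _ (tau l _) := fun y => res_res _ _ _ _
      simp only [h2]
      exact ⟨h1.1, fun c => (h1.2 c).1⟩
  have key : ∀ c : (Over.mk x ⟶ V) → ℤ, ι.hom.app _ (∑ y, c y • rsec y _ (tau l V)) =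
      toRq L.π _ 2 _ (∑ y, m.m _ _ _ (hs' y)
        (c y • res ((Over.pullback L.π).map (tot (Over.mk x))) _ 2 γ)) := fun c => by
    rw [map_sum, map_sum]
    refine Finset.sum_congr rfl fun y _ => ?_
    rw [map_zsmul, map_zsmul, map_zsmul]
    refine congrArg (c y • ·) ((map_nat ι.hom y _).trans ?_)
    rw [hι]
    refine (toRq_res L.π y _).symm.trans (congrArg _ ?_)
    rw [m.res _ _ _ hs (hs' y), pre_pre, ← Functor.map_comp, ← Functor.map_comp,
      show y ≫ tot V = tot _ from Over.OverMorphism.ext (Over.w y)]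
  refine ⟨(injective_iff_map_eq_zero _).2 fun z hz => ?_, fun z => ?_⟩
  · obtain ⟨c, rfl⟩ := b1 z
    refine (b2 c).2 fun y => g2 _ (congrFun (hb.1 (a₂ := 0) (a₁ := fun y => c y •
      res ((Over.pullback L.π).map (tot (Over.mk x))) _ 2 γ) ((toRq_bij L.π _ 2 x).1 ?_)) y)
    refine ((key c).symm.trans hz).trans ?_
    simp only [Pi.zero_apply, map_zero, Finset.sum_const_zero]
  · obtain ⟨z, rfl⟩ := (toRq_bij L.π _ 2 x).2 z
    obtain ⟨w, rfl⟩ := hb.2 z
    choose c hc using fun y => g1 (w y)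
    exact ⟨_, (key c).trans (congrArg _ (Finset.sum_congr rfl fun y _ => congrArg _ (hc y).symm))⟩

end Pool.Agent.MP_855f4c_ag.E.D

end

section

/-! h86e section D, row IOTA. -/

set_option autoImplicit false
set_option backward.isDefEq.respectTransparency false

open CategoryTheory Limits Abelian Opposite AlgebraicGeometry Function

namespace Pool.Agent.MP_855f4c_ag.E.D

open E3 E4
open CV (Ln Lm)

namespace IOC

variable {X : Scheme.{0}} {n : ℕ}

lemma ex {W : Over X} {F : Sh (Scheme.etaleTopology.over X)} (s : sec F W) (hs : n • s = 0) :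
    ∃ φ : Ln n W ⟶ F, φ.hom.app _ (tau n W) = s := by
  obtain ⟨a, rfl⟩ := (frEquiv W F).surjective s
  refine ⟨cokernel.desc _ a ?_, (frEquiv_post _ _).symm.trans (congrArg _ (cokernel.π_desc _ a _))⟩
  rw [Preadditive.zsmul_comp, Category.id_comp, natCast_zsmul]
  exact (frEquiv W F).injective (by rw [map_nsmul, hs, map_zero])

lemma ext {W : Over X} {F : Sh (Scheme.etaleTopology.over X)} {φ ψ : Ln n W ⟶ F}
    (h : φ.hom.app _ (tau n W) = ψ.hom.app _ (tau n W)) : φ = ψ :=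
  (cancel_epi (cokernel.π _)).1 ((frEquiv W F).injective
    ((frEquiv_post _ _).trans (h.trans (frEquiv_post _ _).symm)))

lemma lm {W' W : Over X} (h : W' ⟶ W) : (Lm n h).hom.app _ (tau n W') = rsec h _ (tau n W) :=
  (frEquiv_post _ _).symm.trans ((congrArg _ (cokernel.π_desc _ _ _)).trans (frEquiv_pre _ _))

lemma tor {W T : Over X} {q : ℕ} (x : H T (Ln n W) q) : n • x = 0 := by
  have h : n • 𝟙 (Ln n W) = 0 := ext (CV.LN.lsm n W W _)
  have h1 : n • Ext.mk₀ (𝟙 (Ln n W)) = 0 := by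
    rw [← Ext.addEquiv₀_symm_apply, ← map_nsmul, h, map_zero]
  rw [← Ext.comp_mk₀_id x]
  exact (map_nsmul (x.precomp _ (add_zero q)) n _).symm.trans ((congrArg _ h1).trans (map_zero _))

lemma comp_app {F G K : Sh (Scheme.etaleTopology.over X)} (a : F ⟶ G) (b : G ⟶ K) (T : Over X) (s : sec F T) :
    (a ≫ b).hom.app (op T) s = b.hom.app (op T) (a.hom.app (op T) s) := rfl

lemma nat_ext {V' V : Over X} (b : V' ⟶ V) {A B : Sh (Scheme.etaleTopology.over X)} {i : Ln n V ⟶ B} {i' : Ln n V' ⟶ A}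
    {u : A ⟶ B} {s : sec B V} {s' : sec A V'} (h : i.hom.app _ (tau n V) = s)
    (h' : i'.hom.app _ (tau n V') = s') (e : rsec b B s = u.hom.app _ s') :
    Lm n b ≫ i = i' ≫ u := ext (by
  rw [comp_app, comp_app, lm, h', ← e, ← h]
  exact map_nat i.hom b _)

lemma m_nat {q : ℕ} (m : Smul X n q) {W' W : Over X} (g : W' ⟶ W) (hs hs')
    {y : H W (Ln n (top X)) q} {y' : H W' (Ln n (top X)) q} (h : res g _ q y = y') :
    res g _ q (m.m W _ (tau n W) hs y) = Hmap (Lm n g) W' q (m.m W' _ (tau n W') hs' y') := by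
  rw [m.res _ _ _ _ (CV.LN.lsm n _ _ _), m.map _ _ _ _ (CV.LN.lsm n _ _ _), h]
  simp only [lm]

lemma res_tot {S : Scheme.{0}} (f : X ⟶ S) {V' V : Over S} (b : V' ⟶ V) {F : Sh (Scheme.etaleTopology.over X)} {q : ℕ}
    (y : H ((Over.pullback f).obj (top S)) F q) : res ((Over.pullback f).map b) F q
      (res ((Over.pullback f).map (tot V)) F q y) = res ((Over.pullback f).map (tot V')) F q y := by
  rw [pre_pre, ← Functor.map_comp, ← Functor.map_comp,
    show b ≫ tot V = tot _ from Over.OverMorphism.ext (Over.w b)]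

end IOC

theorem iota (h1 : GAM_s) (h2 : SMUL_s) (hP : PBC_s) (hN : LNM_s) : IOTA_s := by
  intro l _ Ω _ _ S L s hΩ
  suffices h : ∀ P : Over S ⥤ Over L.P, P = Over.pullback L.π →
      ∃ ι : ∀ V : Over S, Ln l V ⟶ (Rq L.π 2).obj (Ln l (P.obj V)),
        (∀ (V' V : Over S) (b : V' ⟶ V), Lm l b ≫ ι V = ι V' ≫ (Rq L.π 2).map (Lm l (P.map b))) ∧
        ∀ V : Over S, Etale V.hom → QuasiCompact V.hom → IsIso (ι V) from h _ rfl
  rintro _ rfl
  have hl : Linv l S := (Linv.spec (IsUnit.mk0 _ hΩ)).of_hom s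
  obtain ⟨m⟩ := h2 L.P l 2
  obtain ⟨γ, hγ, -⟩ := h1 l l Ω S L (top S) s ⟨1, (pow_one l).symm⟩ hl hΩ
  have hs : ∀ (W T : Over L.P) (z : sec (Ln l W) T), l • z = 0 := CV.LN.lsm l
  choose ι hι using fun V : Over S => IOC.ex (n := l) (toRq L.π _ 2 V (m.m _ _
    (tau l ((Over.pullback L.π).obj V)) (hs _ _ _) (res ((Over.pullback L.π).map (tot V)) _ 2 γ)))
      (by rw [← map_nsmul, IOC.tor, map_zero])
  exact ⟨ι, fun V' V b => IOC.nat_ext b (hι V) (hι V') ((toRq_res L.π b _).symm.trans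
      ((congrArg _ (IOC.m_nat m _ _ _ (IOC.res_tot L.π b γ))).trans (toRq_map L.π _ _))),
    fun V _ _ => iota_iso hP hN L hl m γ hγ V _ _ (hι V)⟩

end Pool.Agent.MP_855f4c_ag.E.D

end
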