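import Pool.Agent.MP_855f4c_ag.EC.Da
import Pool.Agent.MP_855f4c_ag.EC.F1b
import Pool.Agent.MP_855f4c_ag.EC.F2c
import Pool.Agent.MP_855f4c_ag.EC.F2e
import Pool.Agent.MP_855f4c_ag.EC.E4d
import Pool.Agent.MP_855f4c_ag.EC.DUa

section

set_option autoImplicit false
set_option backward.isDefEq.respectTransparency false

open CategoryTheory Limits Abelian Opposite AlgebraicGeometry

namespace Pool.Agent.MP_855f4c_ag.E.D

open E3 E4
open CV (Ln Lm)

namespace LNM

variable {X : Scheme.{0}} {M N Q : Type} [AddCommGroup M] [AddCommGroup N] [AddCommGroup Q]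

/-- The presheaf `T ↦ M[Hom(T,W)]`. -/
noncomputable def LP (M : Type) [AddCommGroup M] : Over X ⥤ PSh X where
  obj W :=
    { obj T := AddCommGrpCat.of (ULift.{1} (T.unop ⟶ W) →₀ M)
      map g := AddCommGrpCat.ofHom (Finsupp.mapDomain.addMonoidHom fun x => ⟨g.unop ≫ x.down⟩)
      map_id T := by ext; simp
      map_comp f g := by ext; simp }
  map f :=
    { app T := AddCommGrpCat.ofHom (Finsupp.mapDomain.addMonoidHom fun x => ⟨x.down ≫ f⟩)
      naturality T T' g := by ext; simp }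
  map_id X := by ext; simp
  map_comp f g := by ext; simp

/-- Change of coefficients. -/
noncomputable def cf (f : M →+ N) (W : Over X) : (LP M).obj W ⟶ (LP N).obj W where
  app T := AddCommGrpCat.ofHom (Finsupp.mapRange.addMonoidHom f)
  naturality _ _ _ := AddCommGrpCat.hom_ext (Finsupp.mapDomain.addMonoidHom_comp_mapRange _ f).symm

lemma cf_nat (f : M →+ N) {W' W : Over X} (g : W' ⟶ W) :
    (LP M).map g ≫ cf f W = cf f W' ≫ (LP N).map g :=
  NatTrans.ext (funext fun _ =>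
    AddCommGrpCat.hom_ext (Finsupp.mapDomain.addMonoidHom_comp_mapRange _ f).symm)

lemma cf_w {f : M →+ N} {g : N →+ Q} (h : Function.Exact f g) (W : Over X) :
    cf f W ≫ cf g W = 0 :=
  NatTrans.ext (funext fun _ => AddCommGrpCat.hom_ext (AddMonoidHom.ext fun _ =>
    Finsupp.ext fun _ => h.apply_apply_eq_zero _))

lemma cf_exact {f : M →+ N} {g : N →+ Q} (h : Function.Exact f g) (W : Over X) :
    (ShortComplex.mk _ _ (cf_w h W)).Exact :=
  exact_psh _ fun T y hy =>
    (Set.ext_iff.1 (Finsupp.range_mapRange (α := ULift.{1} (T.unop ⟶ W)) f f.map_zero) y).2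
      fun i => (h _).1 (DFunLike.congr_fun (F := ULift.{1} (T.unop ⟶ W) →₀ Q) hy i)

lemma cf_mono {f : M →+ N} (h : Function.Injective f) (W : Over X) : Mono (cf f W) :=
  have (T : (Over X)ᵒᵖ) : Mono ((cf f W).app T) :=
    (AddCommGrpCat.mono_iff_injective _).2 (Finsupp.mapRange_injective f f.map_zero h)
  NatTrans.mono_of_mono_app _

lemma cf_epi {f : M →+ N} (h : Function.Surjective f) (W : Over X) : Epi (cf f W) :=
  have (T : (Over X)ᵒᵖ) : Epi ((cf f W).app T) :=
    (AddCommGrpCat.epi_iff_surjective _).2 (Finsupp.mapRange_surjective f f.map_zero h)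
  NatTrans.epi_of_epi_app _

/-- Sheafification. -/
noncomputable abbrev sf : PSh X ⥤ Sh (Scheme.etaleTopology.over X) := presheafToSheaf (Scheme.etaleTopology.over X) Ab.{1}

variable (n : ℕ)

lemma red_exact : Function.Exact ((n : ℤ) • AddMonoidHom.id ℤ) (Int.castAddHom (ZMod n)) :=
  fun c => (ZMod.intCast_zmod_eq_zero_iff_dvd c n).trans
    ⟨fun ⟨d, h⟩ => ⟨d, h.symm⟩, fun ⟨d, h⟩ => ⟨d, h.symm⟩⟩

lemma smul_eq (W : Over X) :
    (n : ℤ) • 𝟙 ((fr (Scheme.etaleTopology.over X)).obj W) = sf.map (cf ((n : ℤ) • AddMonoidHom.id ℤ) W) := by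
  have : cf ((n : ℤ) • AddMonoidHom.id ℤ) W = (n : ℤ) • 𝟙 ((LP ℤ).obj W) :=
    NatTrans.ext (funext fun _ => AddCommGrpCat.hom_ext (AddMonoidHom.ext fun _ =>
      Finsupp.ext fun _ => rfl))
  rw [this, Functor.map_zsmul, CategoryTheory.Functor.map_id]
  rfl

/-- Reduction modulo `n`. -/
noncomputable def red (W : Over X) : (fr (Scheme.etaleTopology.over X)).obj W ⟶ sf.obj ((LP (ZMod n)).obj W) :=
  sf.map (cf (Int.castAddHom (ZMod n)) W)

lemma red_w (W : Over X) : ((n : ℤ) • 𝟙 ((fr (Scheme.etaleTopology.over X)).obj W)) ≫ red n W = 0 := by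
  rw [smul_eq]
  exact (sf.map_comp _ _).symm.trans (by rw [cf_w (red_exact n), Functor.map_zero])

/-- `Ln n W` is the sheafification of `T ↦ (ℤ/n)[Hom(T,W)]`. -/
noncomputable def φ (W : Over X) : Ln n W ⟶ sf.obj ((LP (ZMod n)).obj W) :=
  cokernel.desc _ (red n W) (red_w n W)

/-- The projection. -/
noncomputable def pj (W : Over X) : (fr (Scheme.etaleTopology.over X)).obj W ⟶ Ln n W := cokernel.π _

instance (W : Over X) : Epi (pj n W) := inferInstanceAs (Epi (cokernel.π _))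

lemma π_φ (W : Over X) : pj n W ≫ φ n W = red n W := cokernel.π_desc _ _ _

lemma mono_desc {C : Type*} [Category* C] [Abelian C] {S : ShortComplex C} (h : S.Exact)
    {f : S.X₁ ⟶ S.X₂} (e : f = S.f) (w : f ≫ S.g = 0) : Mono (cokernel.desc f S.g w) := by
  subst e
  exact h.mono_cokernelDesc

instance (W : Over X) : IsIso (φ n W) := by
  have : Mono (φ n W) := mono_desc ((cf_exact (red_exact n) W).map sf) (smul_eq n W) (red_w n W)
  have := cf_epi (f := Int.castAddHom (ZMod n)) (ZMod.intCast_surjective) W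
  have : Epi (red n W) := sf.map_epi (cf (Int.castAddHom (ZMod n)) W)
  have : Epi (φ n W) := epi_of_epi_fac (π_φ n W)
  exact isIso_of_mono_of_epi _

lemma π_Lm {W' W : Over X} (g : W' ⟶ W) :
    pj n W' ≫ Lm n g = (fr (Scheme.etaleTopology.over X)).map g ≫ pj n W := cokernel.π_desc _ _ _

lemma φ_nat {W' W : Over X} (g : W' ⟶ W) :
    Lm n g ≫ φ n W = φ n W' ≫ sf.map ((LP (ZMod n)).map g) := by
  refine (cancel_epi (pj n W')).1 ?_
  rw [← Category.assoc, π_Lm, Category.assoc, π_φ, ← Category.assoc, π_φ]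
  exact (sf.map_comp _ _).symm.trans ((congrArg sf.map (cf_nat _ g)).trans (sf.map_comp _ _))

lemma smul_zero' (W : Over X) (T : Over X) (s : sec (Ln n W) T) : n • s = 0 := by
  have : (n : ℤ) • 𝟙 (Ln n W) = 0 := by
    have h : ((n : ℤ) • 𝟙 _) ≫ pj n W = 0 := cokernel.condition _
    refine (cancel_epi (pj n W)).1 ?_
    rwa [Preadditive.comp_zsmul, Category.comp_id, comp_zero, ← Category.id_comp (pj n W),
      ← Preadditive.zsmul_comp]
  exact (natCast_zsmul s n).symm.trans congr(($this).hom.app (op T) s)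

/-- The coefficients on the final object. -/
noncomputable def topIso : (LP M).obj (top X) ≅ (Functor.const _).obj (.of (ULift.{1} M)) :=
  have (T : Over X) : Unique (ULift.{1} (T ⟶ top X)) :=
    ⟨⟨⟨tot T⟩⟩, fun _ => ULift.ext _ _ (Over.mkIdTerminal.hom_ext _ _)⟩
  NatIso.ofComponents (fun T => ((Finsupp.uniqueAddEquiv (default : ULift.{1} (T.unop ⟶ top X))).trans
    AddEquiv.ulift.symm).toAddCommGrpIso) fun {T T'} g => by
      refine AddCommGrpCat.hom_ext (Finsupp.addHom_ext fun a m => ULift.ext _ _ ?_)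
      show Finsupp.mapDomain _ (Finsupp.single a m) default = Finsupp.single a m default
      rw [Finsupp.mapDomain_single, Subsingleton.elim a default, Finsupp.single_eq_same]
      exact (congrArg (Finsupp.single · m default) (Subsingleton.elim _ _)).trans
        Finsupp.single_eq_same

lemma zmod_ses {a b : ℕ} (h : n = a * b) (hn : n ≠ 0) :
    ∃ (i : ZMod a →+ ZMod n) (p : ZMod n →+ ZMod b),
      Function.Injective i ∧ Function.Exact i p ∧ Function.Surjective p := by
  have hb : (b : ℤ) ≠ 0 := by rintro hb; apply hn; rw [h, Int.natCast_eq_zero.1 hb, mul_zero]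
  let i : ZMod a →+ ZMod n := ZMod.lift a ⟨(Int.castAddHom (ZMod n)).comp (AddMonoidHom.mulRight b),
    (ZMod.intCast_zmod_eq_zero_iff_dvd _ n).2 (by simp [h])⟩
  have hi (c : ℤ) : i c = ((c * b : ℤ) : ZMod n) := ZMod.lift_coe a _ c
  have hd : b ∣ n := h ▸ dvd_mul_left b a
  let p := ZMod.castHom hd (ZMod b)
  refine ⟨i, p, (injective_iff_map_eq_zero _).2 fun x hx => ?_, fun y => ?_,
    ZMod.castHom_surjective hd⟩
  · obtain ⟨c, rfl⟩ := ZMod.intCast_surjective x
    rw [hi, ZMod.intCast_zmod_eq_zero_iff_dvd, h, Nat.cast_mul, mul_dvd_mul_iff_right hb] at hx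
    exact (ZMod.intCast_zmod_eq_zero_iff_dvd _ a).2 hx
  · obtain ⟨c, rfl⟩ := ZMod.intCast_surjective y
    refine Iff.trans (b := p c = 0) Iff.rfl ?_
    rw [map_intCast, ZMod.intCast_zmod_eq_zero_iff_dvd]
    constructor
    · rintro ⟨d, rfl⟩
      exact ⟨d, by rw [hi, mul_comm]⟩
    · rintro ⟨x, hx⟩
      obtain ⟨d, rfl⟩ := ZMod.intCast_surjective x
      rw [hi, ZMod.intCast_eq_intCast_iff_dvd_sub, h, Nat.cast_mul] at hx
      exact (dvd_sub_left (dvd_mul_left _ d)).1 ((dvd_mul_left _ _).trans hx)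

/-- Formal sums of points as sections. -/
noncomputable def jj (T W : Over X) : ((T ⟶ W) →₀ ZMod n) →+ sec (Ln n W) T :=
  ((inv (φ n W)).hom.app (op T)).hom.comp
    (((toSheafify (Scheme.etaleTopology.over X) ((LP (ZMod n)).obj W)).app (op T)).hom.comp
      (Finsupp.domCongr Equiv.ulift.{1}.symm).toAddMonoidHom)

lemma app_bij {F G : Sh (Scheme.etaleTopology.over X)} (u : F ⟶ G) [IsIso u] (T : Over X) :
    Function.Bijective (u.hom.app (op T)) :=
  have : IsIso u.hom := inferInstanceAs (IsIso ((sheafToPresheaf _ _).map u))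
  ConcreteCategory.bijective_of_isIso _

lemma φ_jj (T W : Over X) (t : (T ⟶ W) →₀ ZMod n) : (φ n W).hom.app (op T) (jj n T W t) =
    (toSheafify (Scheme.etaleTopology.over X) ((LP (ZMod n)).obj W)).app (op T) (t.mapDomain ULift.up) :=
  congr(($(IsIso.inv_hom_id (φ n W))).hom.app (op T) _).trans
    (congrArg ((toSheafify (Scheme.etaleTopology.over X) ((LP (ZMod n)).obj W)).app (op T))
      (Finsupp.equivMapDomain_eq_mapDomain Equiv.ulift.{1}.symm t))

lemma jj_single (T W : Over X) (y : T ⟶ W) :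
    jj n T W (Finsupp.single y 1) = rsec y _ (tau n W) := by
  refine (app_bij (φ n W) T).1 ?_
  have h1 : (φ n W).hom.app (op W) (tau n W) =
      (toSheafify (Scheme.etaleTopology.over X) ((LP (ZMod n)).obj W)).app (op W) (Finsupp.single ⟨𝟙 W⟩ 1) := by
    refine (frEquiv_post (pj n W) _).symm.trans ?_
    rw [π_φ]
    refine congr(($(toSheafify_naturality (Scheme.etaleTopology.over X) (cf (Int.castAddHom (ZMod n)) W))).app (op W)
      (bas (𝟙 W))).symm.trans
      (congrArg ((toSheafify (Scheme.etaleTopology.over X) ((LP (ZMod n)).obj W)).app (op W)) ?_)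
    exact (Finsupp.mapRange_single (f := Int.castAddHom (ZMod n)) (hf := map_zero _)).trans
      (congrArg (Finsupp.single _) Int.cast_one)
  rw [φ_jj, Finsupp.mapDomain_single]
  refine Eq.trans ?_ (nat (φ n W).hom y _).symm
  rw [h1, ← nat]
  refine congrArg _ (Eq.trans ?_ Finsupp.mapDomain_single.symm)
  rw [Quiver.Hom.unop_op, Category.comp_id]

lemma jj_nat (T : Over X) {W' W : Over X} (g : W' ⟶ W) (t : (T ⟶ W') →₀ ZMod n) :
    jj n T W (t.mapDomain (· ≫ g)) = (Lm n g).hom.app _ (jj n T W' t) := by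
  refine (app_bij (φ n W) T).1 (Eq.trans ?_ congr(($(φ_nat n g)).hom.app (op T) _).symm)
  refine (φ_jj n T W _).trans (Eq.trans ?_ (congrArg _ (φ_jj n T W' t)).symm)
  refine Eq.trans (congrArg _ ?_)
    congr(($(toSheafify_naturality (Scheme.etaleTopology.over X) ((LP (ZMod n)).map g))).app (op T) _)
  exact Finsupp.mapDomain_comp.symm.trans (Finsupp.mapDomain_comp (f := ULift.up)
    (g := fun x : ULift.{1} (T ⟶ W') => (⟨x.down ≫ g⟩ : ULift.{1} (T ⟶ W))))

variable {Y : Scheme.{0}} (ρ : Y ⟶ X)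

/-- `ℤ[W_Y] ⟶ ρ^* ℤ[W]`. -/
noncomputable abbrev fp (W : Over X) : (fr (Scheme.etaleTopology.over Y)).obj ((Over.pullback ρ).obj W) ⟶
    (pb (J := Scheme.etaleTopology) ρ).obj ((fr (Scheme.etaleTopology.over X)).obj W) :=
  frPb (Scheme.etaleTopology.over Y) (Scheme.etaleTopology.over X) (Over.mapPullbackAdj ρ) W

/-- `Ln` commutes with base change. -/
noncomputable def ψ (W : Over X) :
    Ln n ((Over.pullback ρ).obj W) ⟶ (pb (J := Scheme.etaleTopology) ρ).obj (Ln n W) :=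
  cokernel.map _ ((pb (J := Scheme.etaleTopology) ρ).map ((n : ℤ) • 𝟙 _)) (fp ρ W) (fp ρ W)
    (by rw [Functor.map_zsmul, CategoryTheory.Functor.map_id, Preadditive.zsmul_comp,
      Preadditive.comp_zsmul, Category.id_comp, Category.comp_id]) ≫ cokernelComparison _ _

instance (W : Over X) : IsIso (ψ n ρ W) :=
  have : IsIso (fp ρ W) := inferInstance
  inferInstanceAs (IsIso (cokernel.map _ _ _ _ _ ≫ cokernelComparison _ _))

lemma π_ψ (W : Over X) : pj n _ ≫ ψ n ρ W =
    fp ρ W ≫ (pb (J := Scheme.etaleTopology) ρ).map (pj n W) :=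
  (cokernel.π_desc_assoc _ _ _ _).trans
    ((Category.assoc _ _ _).trans (congrArg _ (π_comp_cokernelComparison _ _)))

lemma ψ_nat {W' W : Over X} (h : W' ⟶ W) : Lm n ((Over.pullback ρ).map h) ≫ ψ n ρ W =
    ψ n ρ W' ≫ (pb (J := Scheme.etaleTopology) ρ).map (Lm n h) := by
  refine (cancel_epi (pj n _)).1 ?_
  rw [← Category.assoc, π_Lm, Category.assoc, π_ψ, ← Category.assoc, ← Category.assoc, π_ψ,
    frPb_nat, Category.assoc, Category.assoc, ← Functor.map_comp, ← Functor.map_comp, π_Lm]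

lemma ln_top : Nonempty (Ln n (top X) ≅ (con X).obj (.of (ZMod n))) :=
  have e : sf.obj ((LP (ZMod n)).obj (top X)) ≅ (cst X).obj (.of (ULift.{1} (ZMod n))) :=
    sf.mapIso topIso
  ⟨asIso (φ n _) ≪≫ e⟩

lemma ln_ses {a b : ℕ} (W : Over X) (h : n = a * b) (hn : n ≠ 0) :
    ∃ (i : Ln a W ⟶ Ln n W) (p : Ln n W ⟶ Ln b W) (w : i ≫ p = 0),
      (ShortComplex.mk i p w).ShortExact := by
  obtain ⟨i, p, h1, h2, h3⟩ := zmod_ses n h hn
  have := cf_mono h1 W
  have := cf_epi h3 W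
  have H := (ShortComplex.ShortExact.mk (cf_exact h2 W)).map_of_exact (sf (X := X))
  refine ⟨φ a W ≫ sf.map (cf i W) ≫ inv (φ n W), φ n W ≫ sf.map (cf p W) ≫ inv (φ b W), ?_, ?_⟩
  · rw [Category.assoc, Category.assoc, IsIso.inv_hom_id_assoc, ← sf.map_comp_assoc, cf_w h2,
      Functor.map_zero, zero_comp, comp_zero]
  · refine ShortComplex.shortExact_of_iso (ShortComplex.isoMk (asIso (φ a W)).symm
      (asIso (φ n W)).symm (asIso (φ b W)).symm ?_ ?_) H
    · exact IsIso.inv_hom_id_assoc (φ a W) _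
    · exact IsIso.inv_hom_id_assoc (φ n W) _

lemma ln_mono {W' W : Over X} (h : W' ⟶ W) [Mono h] : Mono (Lm n h) := by
  have (T : (Over X)ᵒᵖ) : Mono (((LP (ZMod n)).map h).app T) :=
    (AddCommGrpCat.mono_iff_injective _).2 (Finsupp.mapDomain_injective
      fun _ _ e => ULift.ext _ _ ((cancel_mono h).1 (congrArg ULift.down e)))
  have : Mono ((LP (ZMod n)).map h) := NatTrans.mono_of_mono_app _
  have : Mono (sf.map ((LP (ZMod n)).map h)) := sf.map_mono _
  exact mono_of_mono_fac (φ_nat n h)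

lemma jj_bij {A : Type} [CommRing A] [SHL A] (x : Spec (.of A) ⟶ X) (W : Over X) :
    Function.Bijective (jj n (Over.mk x) W) :=
  have h : Function.Bijective ((toSheafify (Scheme.etaleTopology.over X) ((LP (ZMod n)).obj W)).app (op (Over.mk x))) :=
    ⟨shl_inj x _, shl_surj x _⟩
  (app_bij (inv (φ n W)) _).comp (h.comp (Finsupp.domCongr Equiv.ulift.{1}.symm).bijective)

lemma sl_post (U : Over Y) {F G : Sh (Scheme.etaleTopology.over X)} (u : F ⟶ G) (q : ℕ)
    (x : H ((Over.map ρ).obj U) F q) : slH ρ U G q (post _ u q x) =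
      post _ ((pb (J := Scheme.etaleTopology) ρ).map u) q (slH ρ U F q x) :=
  (cmp_comp _ _ x (Ext.mk₀ u) (add_zero q)).trans (by rw [Ext.mapExactFunctor_mk₀]; rfl)

end LNM

open LNM in
theorem lnm : LNM_s := by
  intro X n
  refine ⟨fun l _ W ⟨e, he⟩ hW => ⟨Cc.coker _ (fr_Cc l W) (fr_Cc l W),
      fun T _ s => ⟨e, he ▸ smul_zero' n W T s⟩⟩, ln_top n, fun a b W => ln_ses n W,
    fun W' W h _ => ln_mono n h,
    fun k _ _ x => ⟨fun W => (AddEquiv.ofBijective _ (jj_bij n x W)).symm,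
      fun W y => (AddEquiv.symm_apply_eq _).2 (jj_single n _ W y).symm,
      fun W' W g s => (AddEquiv.symm_apply_eq _).2 ?_⟩⟩
  exact ((jj_nat n _ g _).trans (congrArg ((Lm n g).hom.app (op (Over.mk x)))
    ((AddEquiv.ofBijective _ (jj_bij n x W')).apply_symm_apply s))).symm

open LNM in
theorem slw : SLW_s := by
  intro X n q T
  let i : (Over.map T.hom).obj (top T.left) ≅ T := Over.isoMk (Iso.refl _) rfl
  refine ⟨fun W => AddEquiv.ofBijective ((post _ (inv (ψ n T.hom W)) q).comp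
    ((slH T.hom (top _) (Ln n W) q).comp (pre ((fr (Scheme.etaleTopology.over X)).map i.hom) _ q)))
    ((post_bij _ (inv (ψ n T.hom W)) q).comp ((slH_bij T.hom (top _) (Ln n W) q).comp
      (pre_bij ((fr (Scheme.etaleTopology.over X)).map i.hom) _ q))), fun W' W h x => ?_⟩
  have e : (pb (J := Scheme.etaleTopology) T.hom).map (Lm n h) ≫ inv (ψ n T.hom W) =
      inv (ψ n T.hom W') ≫ Lm n ((Over.pullback T.hom).map h) := by
    rw [IsIso.comp_inv_eq, Category.assoc, ψ_nat, IsIso.inv_hom_id_assoc]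
  refine (congrArg (post _ (inv (ψ n T.hom W)) q) ((congrArg (slH T.hom (top _) (Ln n W) q)
    (pre_post _ (Lm n h) x)).trans (sl_post T.hom _ _ q _))).trans ?_
  rw [post_post, e]
  exact (post_post _ _ _).symm

end Pool.Agent.MP_855f4c_ag.E.D

end

section

/-! h86e section D, row SMUL. -/

set_option autoImplicit false
set_option backward.isDefEq.respectTransparency false

open CategoryTheory Limits Abelian Opposite AlgebraicGeometry Function

namespace Pool.Agent.MP_855f4c_ag.E.D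

open E3 E4
open CV (Ln Lm)
open DU (ps ιt pn pn_app univ_univ)

namespace SM

attribute [local irreducible] Ext.comp Ext.mk₀ Ext.mapExactFunctor ShortComplex.ShortExact.extClass

variable {X Y Y' : Scheme.{0}} (f : Y ⟶ X) (n : ℕ)

lemma tot_eq {W : Over X} (a : W ⟶ top X) : a = tot W := Over.mkIdTerminal.hom_ext _ _

/-- The unit section over `W`. -/
noncomputable def un (W : Over X) : sec (Ln n (top X)) W := rsec (tot W) _ (tau n (top X))

lemma un_res {W' W : Over X} (g : W' ⟶ W) : rsec g _ (un n W) = un n W' :=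
  (res_res _ _ _ _).trans (by rw [tot_eq (g ≫ tot W)]; rfl)

/-- The projection `ℤ[X] ⟶ ℤ/n`. -/
noncomputable def pL (X : Scheme.{0}) : (fr (Scheme.etaleTopology.over X)).obj (top X) ⟶ Ln n (top X) := cokernel.π _

instance : Epi (pL n X) := inferInstanceAs (Epi (cokernel.π _))

lemma pL_w : ((n : ℤ) • 𝟙 _) ≫ pL n X = 0 := cokernel.condition _

lemma un_tors (W : Over X) : n • un n W = 0 := by
  have h := pL_w (X := X) n
  rw [Preadditive.zsmul_comp, Category.id_comp] at h
  have e : n • frEquiv _ _ (pL n X) = 0 := by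
    rw [← natCast_zsmul, ← map_zsmul, h, map_zero]
  exact (map_nsmul (rsec (tot W) _) n _).symm.trans ((congrArg _ e).trans (map_zero _))

lemma un_gen {k : Type} [Field k] [IsAlgClosed k] (x : Spec (.of k) ⟶ X)
    (z : sec (Ln n (top X)) (Over.mk x)) : ∃ c : ℤ, z = c • un n (Over.mk x) := by
  have : Sheaf.IsLocallySurjective (pL n X) :=
    (Sheaf.isLocallySurjective_iff_epi' Ab.{1} _).2 inferInstance
  obtain ⟨z, rfl⟩ := shl_surj x (toSheafify (Scheme.etaleTopology.over X) (frP.obj (top X)) ≫ (pL n X).hom) z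
  have e : (toSheafify (Scheme.etaleTopology.over X) (frP.obj (top X)) ≫ (pL n X).hom).app _ (bas (tot (Over.mk x))) =
      un n (Over.mk x) := by
    rw [← Category.comp_id (tot (Over.mk x)), ← map_bas, nat]
    rfl
  have h (w : ULift.{1} (Over.mk x ⟶ top X) →₀ ℤ) :
      w = w ⟨tot _⟩ • Finsupp.single ⟨tot _⟩ 1 := Finsupp.ext fun ⟨a⟩ => by
    rw [tot_eq a]
    simp
  exact ⟨_, (congrArg _ (h z)).trans ((map_zsmul _ _ _).trans (congrArg _ e))⟩

/-- `ℤ[Y] ⟶ f^* ℤ[X]`. -/
noncomputable def e0 : (fr (Scheme.etaleTopology.over Y)).obj (top Y) ⟶ (ps f).obj ((fr (Scheme.etaleTopology.over X)).obj (top X)) :=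
  taut (Scheme.etaleTopology.over X) (Scheme.etaleTopology.over Y) (Over.map f) (top Y) ≫ (ps f).map ((fr _).map (tot _))

instance : IsIso (e0 f) := by
  let j : top Y ⟶ (Over.pullback f).obj (top X) := (Over.mapPullbackAdj f).homEquiv _ _ (tot _)
  have : IsIso j := isIso_of_isTerminal Over.mkIdTerminal
    (Over.mkIdTerminal.isTerminalObj (Over.pullback f) _) j
  have h : e0 f = (fr _).map j ≫ frPb (Scheme.etaleTopology.over Y) (Scheme.etaleTopology.over X) (Over.mapPullbackAdj f) (top X) := by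
    rw [frPb, ← Category.assoc, taut_nat, Category.assoc, ← Functor.map_comp, ← Functor.map_comp,
      tot_eq (_ ≫ _), e0]
  rw [h]
  infer_instance

/-- The unit section of `f^* ℤ/n`. -/
noncomputable abbrev u0 : sec ((ps f).obj (Ln n (top X))) (top Y) := un n ((Over.map f).obj (top Y))

lemma e0_u0 : frEquiv _ _ (e0 f ≫ (ps f).map (pL n X)) = u0 f n := by
  rw [e0, Category.assoc, ← Functor.map_comp, frEquiv_taut, frEquiv_pre]
  rfl

lemma uniq {G : Sh (Scheme.etaleTopology.over Y)} {a b : (ps f).obj (Ln n (top X)) ⟶ G}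
    (h : a.hom.app _ (u0 f n) = b.hom.app _ (u0 f n)) : a = b := by
  rw [← cancel_epi (e0 f ≫ (ps f).map (pL n X))]
  refine (frEquiv _ _).injective ?_
  rw [frEquiv_post, frEquiv_post _ b, e0_u0, h]

lemma ex {G : Sh (Scheme.etaleTopology.over Y)} (t : sec G (top Y)) (ht : n • t = 0) :
    ∃ a : (ps f).obj (Ln n (top X)) ⟶ G, a.hom.app _ (u0 f n) = t := by
  obtain ⟨t, rfl⟩ := (frEquiv _ _).surjective t
  have h0 : (n : ℤ) • t = 0 := (frEquiv _ _).injective (by
    rw [map_zsmul, natCast_zsmul, ht, map_zero])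
  have hS : ((ShortComplex.mk _ _ (pL_w (X := X) n)).map (ps f)).Exact :=
    (ShortComplex.exact_cokernel _).map (ps f)
  have : Epi ((ShortComplex.mk _ _ (pL_w (X := X) n)).map (ps f)).g :=
    inferInstanceAs (Epi ((ps f).map (pL n X)))
  have h1 : (ps f).map ((n : ℤ) • 𝟙 _) ≫ inv (e0 f) ≫ t = 0 := by
    rw [Functor.map_zsmul, CategoryTheory.Functor.map_id, Preadditive.zsmul_comp, Category.id_comp,
      ← Preadditive.comp_zsmul, h0, comp_zero]
  obtain ⟨a, ha⟩ : ∃ a, (ps f).map (pL n X) ≫ a = inv (e0 f) ≫ t := hS.desc' _ h1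
  refine ⟨a, ?_⟩
  rw [← e0_u0, ← frEquiv_post, Category.assoc, ha, IsIso.hom_inv_id_assoc]

variable {f n}

lemma ex' {F : Sh (Scheme.etaleTopology.over X)} (s : sec F (Over.mk f)) (hs : n • s = 0) :
    ∃ a : (ps f).obj (Ln n (top X)) ⟶ (ps f).obj F, a.hom.app _ (u0 f n) = rsec (ιt f) F s :=
  ex f n _ ((map_nsmul (rsec (ιt f) F) n s).symm.trans ((congrArg _ hs).trans (map_zero _)))

/-- The map `f^* ℤ/n ⟶ f^* F` of a torsion section. -/
noncomputable def σ {F : Sh (Scheme.etaleTopology.over X)} (s : sec F (Over.mk f)) (hs : n • s = 0) :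
    (ps f).obj (Ln n (top X)) ⟶ (ps f).obj F := (ex' s hs).choose

lemma σ_u0 {F : Sh (Scheme.etaleTopology.over X)} (s : sec F (Over.mk f)) (hs : n • s = 0) :
    (σ s hs).hom.app _ (u0 f n) = rsec (ιt f) F s := (ex' s hs).choose_spec

lemma σ_un {F : Sh (Scheme.etaleTopology.over X)} (s : sec F (Over.mk f)) (hs : n • s = 0) (T : Over Y) :
    (σ s hs).hom.app (op T) (un n ((Over.map f).obj T)) =
      rsec ((Over.map f).map (tot T) ≫ ιt f) F s := by
  rw [← un_res n ((Over.map f).map (tot T))]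
  refine (nat (σ s hs).hom (tot T) (u0 f n)).trans ?_
  rw [σ_u0]
  exact res_res F.obj _ _ s

lemma slH_post {F G : Sh (Scheme.etaleTopology.over X)} (φ : F ⟶ G) {q : ℕ} (y : H (Over.mk f) F q) :
    DU.slH f G q (post _ φ q y) = post _ ((ps f).map φ) q (DU.slH f F q y) := by
  simp only [DU.slH, AddMonoidHom.comp_apply]
  rewrite [pre_post]
  exact univ_post _ _ φ _

section
variable {Φ : Y' ⟶ Y} {f' : Y' ⟶ X} (h : Φ ≫ f = f')

/-- The comparison of slice functors. -/
def ηI : Over.map f' ≅ Over.map Φ ⋙ Over.map f :=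
  NatIso.ofComponents (fun T => Over.isoMk (Iso.refl _) (by simp [← h])) (by intros; ext; simp)

/-- `Φ^* f^* F ⟶ f'^* F`. -/
def θ (F : Sh (Scheme.etaleTopology.over X)) : (ps Φ).obj ((ps f).obj F) ⟶ (ps f').obj F :=
  pn _ _ _ _ _ _ (ηI h).hom F

instance (F : Sh (Scheme.etaleTopology.over X)) : IsIso (θ h F) := inferInstanceAs (IsIso (pn _ _ _ _ _ _ (ηI h).hom F))

/-- Pull-back along `Φ`. -/
noncomputable def W (Φ : Y' ⟶ Y) (A : Sh (Scheme.etaleTopology.over Y)) (q : ℕ) :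
    H (top Y) A q →+ H (top Y') ((ps Φ).obj A) q :=
  (univ (Scheme.etaleTopology.over Y') (Over.map Φ) (top Y') A q).comp (res (tot _) A q)

lemma W_post {A B : Sh (Scheme.etaleTopology.over Y)} (φ : A ⟶ B) {q : ℕ} (y : H (top Y) A q) :
    W Φ B q (post _ φ q y) = post _ ((ps Φ).map φ) q (W Φ A q y) := by
  simp only [W, AddMonoidHom.comp_apply]
  rewrite [pre_post]
  exact univ_post _ _ φ _

lemma slH_res {F : Sh (Scheme.etaleTopology.over X)} {q : ℕ} (y : H (Over.mk f) F q) :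
    post _ (θ h F) q (W Φ _ q (DU.slH f F q y)) =
      DU.slH f' F q (res (Over.homMk Φ h : Over.mk f' ⟶ Over.mk f) F q y) := by
  simp only [W, DU.slH, AddMonoidHom.comp_apply]
  rw [← univ_res, θ, univ_univ]
  congr 1
  rw [pre_pre, pre_pre]
  refine (pre_pre _ _ _).trans ?_
  rw [← Functor.map_comp, ← Functor.map_comp, ← Functor.map_comp]
  congr 3

lemma σ_θ {F : Sh (Scheme.etaleTopology.over X)} (s : sec F (Over.mk f)) (hs : n • s = 0) (hs') :
    (ps Φ).map (σ s hs) ≫ θ h F =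
      θ h _ ≫ σ (n := n) (rsec (Over.homMk Φ h : Over.mk f' ⟶ Over.mk f) F s) hs' := by
  rw [← IsIso.inv_comp_eq]
  refine uniq f' n ?_
  have e : (θ h (Ln n (top X))).hom.app (op (top Y')) (un n _) = u0 f' n := un_res n _
  have e' : (inv (θ h (Ln n (top X)))).hom.app (op (top Y')) (u0 f' n) = un n _ := by
    rw [← e]
    exact congr(($(IsIso.hom_inv_id (θ h (Ln n (top X))))).hom.app (op (top Y')) (un n _))
  rw [σ_u0]
  change (θ h F).hom.app _ ((σ s hs).hom.app (op ((Over.map Φ).obj (top Y')))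
    ((inv (θ h (Ln n (top X)))).hom.app (op (top Y')) (u0 f' n))) = _
  rw [e']
  refine (congrArg _ (σ_un s hs ((Over.map Φ).obj (top Y')))).trans ?_
  refine (res_res F.obj _ _ s).trans (Eq.trans ?_ (res_res F.obj _ _ s).symm)
  congr 3

end

/-- The slice isomorphism. -/
noncomputable def sE (f : Y ⟶ X) (F : Sh (Scheme.etaleTopology.over X)) (q : ℕ) :
    H (Over.mk f) F q ≃+ H (top Y) ((ps f).obj F) q := AddEquiv.ofBijective _ (DU.slH_bij f F q)

/-- The product. -/
noncomputable def mul {F : Sh (Scheme.etaleTopology.over X)} (s : sec F (Over.mk f)) (hs : n • s = 0) (q : ℕ) :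
    H (Over.mk f) (Ln n (top X)) q →+ H (Over.mk f) F q :=
  (sE f F q).symm.toAddMonoidHom.comp ((post _ (σ s hs) q).comp (DU.slH f _ q))

lemma slH_mul {F : Sh (Scheme.etaleTopology.over X)} (s : sec F (Over.mk f)) (hs : n • s = 0) {q : ℕ} (x) :
    DU.slH f F q (mul s hs q x) = post _ (σ s hs) q (DU.slH f _ q x) :=
  (sE f F q).apply_symm_apply _

lemma app_sum {ι : Type} [Fintype ι] {A B : Sh (Scheme.etaleTopology.over Y)} (a : ι → (A ⟶ B)) (T : Over Y)
    (z : sec A T) : (∑ i, a i).hom.app (op T) z = ∑ i, (a i).hom.app (op T) z := by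
  obtain ⟨z, rfl⟩ := (frEquiv _ _).surjective z
  simp only [← frEquiv_post, Preadditive.comp_sum, map_sum]

theorem sum_iso (l : ℕ) {F : Sh (Scheme.etaleTopology.over X)} {ι : Type} [Fintype ι] (s : ι → sec F (Over.mk f))
    (hs : ∀ i, n • s i = 0) (hF : Cc l F) (hl : Linv l Y)
    (h : ∀ (k : Type) [Field k] [IsAlgClosed k] (x : Spec (.of k) ⟶ X) (y : Over.mk x ⟶ Over.mk f),
      (∀ z, ∃ c : ι → ℤ, z = ∑ i, c i • rsec y F (s i)) ∧
        ∀ c : ι → ℤ, ∑ i, c i • rsec y F (s i) = 0 → ∀ i, (n : ℤ) ∣ c i) :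
    IsIso (biproduct.desc fun i => σ (s i) (hs i)) := by
  classical
  have : Etale (top X).hom := inferInstanceAs (Etale (𝟙 X))
  have hL : Cc l (Ln n (top X)) := Cc.coker _ (fr_Cc l _) (fr_Cc l _)
  let A : ι → Sh (Scheme.etaleTopology.over Y) := fun _ => (ps f).obj (Ln n (top X))
  refine pt_iso hl (Cc.colim (biproduct.isColimit A) fun _ => hL.pb f) (hF.pb f) _ fun t => ?_
  obtain ⟨k, _, _, x, hx⟩ := stk_geom Y t
  refine ⟨k, inferInstance, inferInstance, x, ⟨IsLocalRing.closedPoint k, hx _⟩, ?_⟩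
  obtain ⟨h1, h2⟩ := h k (x ≫ f) ((Over.map f).map (tot (Over.mk x)) ≫ ιt f)
  have key (c : ι → ℤ) : (biproduct.desc fun i => σ (s i) (hs i)).hom.app (op (Over.mk x))
      (∑ i, c i • (biproduct.ι A i).hom.app (op (Over.mk x)) (un n (Over.mk (x ≫ f)))) =
      ∑ i, c i • rsec ((Over.map f).map (tot (Over.mk x)) ≫ ιt f) F (s i) := by
    rw [map_sum]
    refine Finset.sum_congr rfl fun i _ => (map_zsmul _ _ _).trans (congrArg _ ?_)
    exact (congr(($(biproduct.ι_desc (fun i => σ (s i) (hs i)) i)).hom.app (op (Over.mk x))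
      (un n (Over.mk (x ≫ f))))).trans (σ_un (s i) (hs i) (Over.mk x))
  refine ⟨(injective_iff_map_eq_zero _).2 fun z hz => ?_, fun z => ?_⟩
  · choose c hc using fun i => un_gen n (x ≫ f) ((biproduct.π A i).hom.app (op (Over.mk x)) z)
    have e : z = ∑ i, c i • (biproduct.ι A i).hom.app (op (Over.mk x))
        (un n (Over.mk (x ≫ f))) := by
      refine (congr(($(biproduct.total (f := A))).hom.app (op (Over.mk x)) z)).symm.trans
        ((app_sum _ _ z).trans (Finset.sum_congr rfl fun i _ => ?_))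
      exact (congrArg ((biproduct.ι A i).hom.app (op (Over.mk x))) (hc i)).trans (map_zsmul _ _ _)
    rw [e] at hz ⊢
    refine Finset.sum_eq_zero fun i _ => ?_
    obtain ⟨d, hd⟩ := h2 c ((key c).symm.trans hz) i
    rw [hd, mul_comm, mul_smul, natCast_zsmul, ← map_nsmul]
    erw [un_tors]
    rw [map_zero, smul_zero]
  · obtain ⟨c, rfl⟩ := h1 z
    exact ⟨_, key c⟩

variable {F G : Sh (Scheme.etaleTopology.over X)} (s s' : sec F (Over.mk f)) (hs : n • s = 0) {q : ℕ}
  (x : H (Over.mk f) (Ln n (top X)) q)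

lemma mul_res {Φ : Y' ⟶ Y} {f' : Y' ⟶ X} (h : Φ ≫ f = f') (hs') :
    res (Over.homMk Φ h : Over.mk f' ⟶ Over.mk f) F q (mul s hs q x) =
      mul (rsec (Over.homMk Φ h : Over.mk f' ⟶ Over.mk f) F s) hs' q
        (res (Over.homMk Φ h : Over.mk f' ⟶ Over.mk f) _ q x) :=
  (DU.slH_bij f' F q).1 (by
    rw [← slH_res h, slH_mul, slH_mul, ← slH_res h, W_post, post_post, post_post, σ_θ])

lemma mul_map (φ : F ⟶ G) (hs') : post _ φ q (mul s hs q x) = mul (φ.hom.app _ s) hs' q x :=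
  (DU.slH_bij f G q).1 (by
    have e : σ s hs ≫ (ps f).map φ = σ (φ.hom.app _ s) hs' := uniq f n
      (((congrArg (φ.hom.app _) (σ_u0 s hs)).trans (nat φ.hom _ s)).trans (σ_u0 _ hs').symm)
    rw [slH_post, slH_mul, slH_mul, post_post, e])

lemma mul_add (hs' h) : mul (s + s') h q x = mul s hs q x + mul s' hs' q x :=
  (DU.slH_bij f F q).1 (by
    have e : σ (s + s') h = σ s hs + σ s' hs' := uniq f n (by
      rw [σ_u0, map_add, ← σ_u0 s hs, ← σ_u0 s' hs']
      rfl)
    rw [map_add, slH_mul, slH_mul, slH_mul, e, post_apply, Ext.mk₀_add, Ext.comp_add]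
    rfl)

lemma mul_one (hs) : mul (un n (Over.mk f)) hs q x = x :=
  (DU.slH_bij f _ q).1 (by
    have e : σ (un n (Over.mk f)) hs = 𝟙 _ := uniq f n ((σ_u0 _ _).trans (un_res n _))
    rw [slH_mul, e, post_id])

lemma bij_ext {C : Type 2} [Category.{1} C] [Abelian C] [HasExt.{1} C] [HasFiniteBiproducts C]
    (T : C) {A F : C} {ι : Type}
    [Fintype ι] (σ : ι → (A ⟶ F)) [IsIso (biproduct.desc σ)] (q : ℕ) :
    Bijective fun x : ι → Ext.{1} T A q => ∑ i, post T (σ i) q (x i) := by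
  refine Eq.mpr (congrArg _ (funext fun x => ?_)) ((post_bij T (biproduct.desc σ) q).comp
    (Ext.addEquivBiproduct _ (biproduct.isBilimit fun _ : ι => A) q).symm.bijective)
  change _ = post _ _ q (∑ i, post _ (biproduct.ι (fun _ : ι => A) i) q (x i))
  rw [map_sum]
  refine Finset.sum_congr rfl fun i _ => ?_
  rw [post_post, biproduct.ι_desc]

lemma bij_grp {M N M' N' : Type 1} [AddCommGroup M] [AddCommGroup N] [AddCommGroup M']
    [AddCommGroup N'] {ι : Type} [Fintype ι] {a : M →+ M'} {b : N →+ N'} (ha : Bijective a)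
    (hb : Bijective b) {m : ι → M →+ N} {p : ι → M' →+ N'} (h : ∀ i x, b (m i x) = p i (a x))
    (hp : Bijective fun x : ι → M' => ∑ i, p i (x i)) :
    Bijective fun x : ι → M => ∑ i, m i (x i) :=
  (Bijective.of_comp_iff' hb _).1 (Eq.mpr (congrArg _ (funext fun _ => (map_sum _ _ _).trans
    (Finset.sum_congr rfl fun i _ => h i _))) (hp.comp (Bijective.piMap fun _ : ι => ha)))

lemma mul_bij {ι : Type} [Fintype ι] (s : ι → sec F (Over.mk f)) (hs : ∀ i, n • s i = 0)
    [IsIso (biproduct.desc fun i => σ (s i) (hs i))] (q : ℕ) :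
    Bijective fun x : ι → H (Over.mk f) (Ln n (top X)) q => ∑ i, mul (s i) (hs i) q (x i) :=
  bij_grp (DU.slH_bij f _ q) (DU.slH_bij f F q) (fun i x => slH_mul (s i) (hs i) x)
    (bij_ext _ (fun i => σ (s i) (hs i)) q)

end SM

open SM in
theorem smul : SMUL_s := fun X n q => by
  obtain ⟨m, hm⟩ : ∃ m : ∀ (U : Over X) (F : Sh (Scheme.etaleTopology.over X)) (s : sec F U), n • s = 0 →
      H U (Ln n (top X)) q →+ H U F q, ∀ {Y} (f : Y ⟶ X) F s hs,
        m (Over.mk f) F s hs = mul s hs q :=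
    ⟨fun U _ s hs => mul (f := U.hom) s hs q, fun _ _ _ _ => rfl⟩
  refine ⟨⟨m, fun {U' U} g _ s hs hs' x => ?_, fun U _ _ φ s hs hs' x => ?_,
    fun U _ s s' hs hs' h x => ?_, fun U hs x => ?_, fun l _ U _ _ _ s hs _ hF hl h => ?_⟩⟩ <;>
    obtain ⟨_, f, rfl⟩ := U.mk_surjective
  · obtain ⟨_, f', rfl⟩ := U'.mk_surjective
    obtain ⟨Φ, h, rfl⟩ := Over.homMk_surjective g
    rewrite [hm, hm]
    exact mul_res s hs x h hs'
  · rewrite [hm, hm]
    exact mul_map s hs x φ hs'
  · rewrite [hm, hm, hm]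
    exact mul_add s s' hs x hs' h
  · rewrite [hm]
    exact mul_one x hs
  · have := sum_iso l s hs hF.1 hl h
    simp only [hm]
    exact mul_bij s hs q

end Pool.Agent.MP_855f4c_ag.E.D

end

section

/-! h86e section D, row LOCK: the clause on sections. -/

set_option autoImplicit false
set_option backward.isDefEq.respectTransparency false

open CategoryTheory Limits Abelian Opposite AlgebraicGeometry

namespace Pool.Agent.MP_855f4c_ag.E.D

open E3 E4

variable {S S' T : Scheme.{0}} {L : PL S} {κ : T ⟶ S'} {ρ : S' ⟶ S} {t : T ⟶ S}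

/-- Functoriality of `fb` in the point. -/
noncomputable def fbk (W : Over L.P) (e : κ ≫ ρ = t) : fb W t ⟶ fb W ρ :=
  Over.homMk (pullback.map _ _ _ _ κ (𝟙 _) (𝟙 _) (by simp [e]) (by simp)) (by simp [fb])

lemma fbk_fbm {W' W : Over L.P} (h : W' ⟶ W) (e : κ ≫ ρ = t) :
    fbk W' e ≫ fbm h ρ = fbm h t ≫ fbk W e := by
  ext1
  apply pullback.hom_ext <;> simp [fbk, fbm]

namespace LKb

/-- The comparison of the two fibre products. -/
noncomputable def ψ (e : κ ≫ ρ = t) {X : Over L.P} {U : Over S} (m : (Over.map L.π).obj X ⟶ U) :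
    (Over.map L.π).obj (fb X t) ⟶ (Over.map ρ).obj ((Over.pullback ρ).obj U) :=
  Over.homMk (pullback.lift (pullback.snd t (X.hom ≫ L.π) ≫ m.left)
    (pullback.fst t (X.hom ≫ L.π) ≫ κ) (by
      have := Over.w m
      simp only [Over.map_obj_hom] at this
      simp [this, e, pullback.condition])) (by simp [fb, e, pullback.condition])

lemma ψ_fbm (e : κ ≫ ρ = t) {X' X : Over L.P} (h : X' ⟶ X) {U : Over S}
    (m : (Over.map L.π).obj X ⟶ U) :
    (Over.map L.π).map (fbm h t) ≫ ψ e m = ψ e ((Over.map L.π).map h ≫ m) := by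
  ext1
  apply pullback.hom_ext <;> simp [ψ, fbm]

lemma ψ_map (e : κ ≫ ρ = t) {X : Over L.P} {U U' : Over S} (m : (Over.map L.π).obj X ⟶ U)
    (b : U ⟶ U') :
    ψ e m ≫ (Over.map ρ).map ((Over.pullback ρ).map b) = ψ e (m ≫ b) := by
  ext1
  apply pullback.hom_ext <;> simp [ψ]

lemma ψ_fbk (e : κ ≫ ρ = t) (X : Over L.P) :
    (Over.map L.π).map (fbk X e) ≫ ψ (Category.id_comp ρ) (𝟙 _) = ψ e (𝟙 _) := by
  ext1
  apply pullback.hom_ext <;> simp [ψ, fbk]

lemma ψ_iso (ρ : S' ⟶ S) (X : Over L.P) :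
    IsIso (ψ (Category.id_comp ρ) (𝟙 ((Over.map L.π).obj X))) := by
  have : (ψ (Category.id_comp ρ) (𝟙 ((Over.map L.π).obj X))).left =
      (pullbackSymmetry ρ (X.hom ≫ L.π)).hom := by
    apply pullback.hom_ext <;> simp [ψ]
  have : IsIso ((Over.forget S).map (ψ (Category.id_comp ρ) (𝟙 ((Over.map L.π).obj X)))) := by
    rw [Over.forget_map, this]; infer_instance
  exact isIso_of_reflects_iso _ (Over.forget S)

/-- The projection. -/
noncomputable def ε (L : PL S) (V : Over S) :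
    (Over.map L.π).obj ((Over.pullback L.π).obj V) ⟶ V :=
  Over.homMk (pullback.fst _ _) pullback.condition

lemma rc {P : PSh S} {A B : Over S} {a b : A ⟶ B} (h : a = b) (s : P.obj (op B)) :
    P.map a.op s = P.map b.op s := h ▸ rfl

lemma core (l : ℕ) (P : PSh S) (W : Over L.P) (w : W.left) (hl : Linv l S) (hW : Aet W)
    (h1 : LFP P) (h2 : Rig l P) (f : P.obj (op ((Over.map L.π).obj W))) (hf : l • f = 0) :
    ∃ (N : Nb W w) (g : P.obj (op N.V)), l • g = 0 ∧
      P.map ((Over.map L.π).map N.h).op f =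
        P.map ((Over.map L.π).map N.r ≫ ε L N.V).op g := by
  obtain ⟨k, _, _, x, y, hy⟩ := exists_geom ((Over.map L.π).obj W) w
  obtain ⟨V₁, v₁, y₁, g₁, -, e₁, -, hg⟩ := stalk_surj h1 h2 (hl k x) (tot (Over.mk x))
    (P.map y.op f)
  obtain ⟨V, v₂, y₂, a₂, e₂, rfl, hz⟩ := stalk_zero h1 h2 (hl k x) y₁ (l • g₁) (by
    rw [map_nsmul, hg, ← map_nsmul, hf, map_zero])
  have eV : Etale V.hom := by
    rw [← Over.w v₂, ← Over.w v₁]
    exact inferInstanceAs (Etale (v₂.left ≫ v₁.left ≫ 𝟙 _))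
  have := hW.1
  let Z : Over S := Over.mk (pullback.fst (W.hom ≫ L.π) V.hom ≫ W.hom ≫ L.π)
  let p₁ : Z ⟶ (Over.map L.π).obj W := Over.homMk (pullback.fst _ _) rfl
  let p₂ : Z ⟶ V := Over.homMk (pullback.snd _ _) pullback.condition.symm
  let y₃ : Over.mk x ⟶ Z := Over.homMk
    (pullback.lift y.left y₂.left ((Over.w y).trans (Over.w y₂).symm))
    ((pullback.lift_fst_assoc _ _ _ _).trans (Over.w y))
  have q₁ : y₃ ≫ p₁ = y := Over.OverMorphism.ext (pullback.lift_fst _ _ _)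
  have q₂ : y₃ ≫ p₂ = y₂ := Over.OverMorphism.ext (pullback.lift_snd _ _ _)
  obtain ⟨V', v', y', a', e', hy', hd⟩ := stalk_zero h1 h2 (hl k x) y₃
    (P.map p₁.op f - P.map p₂.op (P.map v₂.op g₁)) (by
      rw [map_sub, res_res, res_res, res_res, q₁, q₂, hg, sub_self])
  let W' : Over L.P := Over.mk (v'.left ≫ pullback.fst (W.hom ≫ L.π) V.hom ≫ W.hom)
  let i : (Over.map L.π).obj W' ⟶ V' := Over.homMk (𝟙 _) (by
    simp [W', ← Over.w v', Z])
  refine ⟨⟨V, W', Over.homMk (v'.left ≫ pullback.fst _ _) (Category.assoc _ _ _),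
    Over.homMk (pullback.lift (v'.left ≫ pullback.snd _ _) W'.hom (by
      simp [W', pullback.condition])) (pullback.lift_snd _ _ _), ⟨eV, a₂⟩,
    ⟨inferInstanceAs (Etale (v'.left ≫ _ ≫ _)), a'⟩, ?_⟩, P.map v₂.op g₁,
    by rw [← map_nsmul, hz], ?_⟩
  · obtain ⟨z, rfl⟩ := hy
    refine ⟨y'.left z, ?_⟩
    rw [← q₁, ← hy']
    rfl
  · have := congrArg (P.map i.op) hd
    rw [map_zero, map_sub, map_sub, sub_eq_zero, res_res, res_res, res_res P i, res_res] at this
    refine (rc ?_ _).trans (this.trans (rc ?_ _))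
    · ext1; simp [i, p₁]
    · ext1; simp [i, p₂, ε]

lemma main (l : ℕ) (F₀ : Sh (Scheme.etaleTopology.over S)) (hF : Cc l F₀) (W : Over L.P) (w : W.left) (hl : Linv l S)
    (hW : Aet W) [IsIntegralHom ρ] (e : κ ≫ ρ = t)
    (hb : Function.Bijective (rsec ((Over.map L.π).map (fbk W e)) F₀))
    (s : sec F₀ ((Over.map L.π).obj (fb W t))) (hs : l • s = 0) :
    ∃ (N : Nb W w) (s' : sec F₀ ((Over.map L.π).obj (fb ((Over.pullback L.π).obj N.V) t))),
      l • s' = 0 ∧ rsec ((Over.map L.π).map (fbm N.h t)) _ s =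
        rsec ((Over.map L.π).map (fbm N.r t)) _ s' := by
  have hG := pf_cc ρ (hF.pb ρ)
  have := ψ_iso ρ W
  have hψ : Function.Bijective (rsec (ψ e (𝟙 ((Over.map L.π).obj W))) F₀) := by
    rw [← ψ_fbk, rsec, op_comp, Functor.map_comp]
    exact hb.comp (ConcreteCategory.bijective_of_isIso (F₀.obj.map (ψ _ (𝟙 _)).op))
  obtain ⟨f, rfl⟩ := hψ.2 s
  obtain ⟨N, g, hg, h⟩ := core l _ W w hl hW hG.1 hG.2 f (hψ.1 (by rw [map_nsmul, hs, map_zero]))
  refine ⟨N, rsec (ψ e (ε L N.V)) F₀ g,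
    (map_nsmul _ _ _).symm.trans ((congrArg _ hg).trans (map_zero _)), ?_⟩
  have k := congrArg (F₀.obj.map (ψ e (𝟙 ((Over.map L.π).obj N.W'))).op) h
  refine (res_res _ _ _ _).trans (.trans ?_ (res_res _ _ _ _).symm)
  rw [ψ_fbm, ψ_fbm]
  exact (rc ((ψ_map e _ _).trans (by rw [Category.id_comp, Category.comp_id]; rfl)).symm _).trans
    ((res_res _ _ _ _).symm.trans (k.trans ((res_res _ _ _ _).trans
      (rc ((ψ_map e _ _).trans (by rw [Category.id_comp]; rfl)) _))))

end LKb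

open LKb in
theorem lockb (l : ℕ) [Fact l.Prime] (W : Over L.P) (w : W.left) (hl : Linv l S) (hW : Aet W)
    [IsIntegralHom ρ] (e : κ ≫ ρ = t) (hb : Function.Bijective (res (fbk W e) (Linf l L.P) 0))
    (s : sec (Linf l L.P) (fb W t)) (hs : l • s = 0) :
    ∃ (N : Nb W w) (s' : sec (Linf l L.P) (fb ((Over.pullback L.π).obj N.V) t)),
      l • s' = 0 ∧ rsec (fbm N.h t) _ s = rsec (fbm N.r t) _ s' := by
  let M : Ab.{1} := AddCommGrpCat.uliftFunctor.{1}.obj (.of (QZ l))
  let a : Linf l L.P ≅ lc L.P M := (cstIso L.P).app M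
  have ha (U : Over L.P) : Function.Bijective (a.hom.hom.app (op U)) :=
    ConcreteCategory.bijective_of_isIso (((sheafToPresheaf _ _).mapIso a).hom.app (op U))
  have h0' : Function.Bijective (rsec (fbk W e) (Linf l L.P)) := by
    rw [← (h0 _ _).bijective.of_comp_iff']
    exact (congrArg _ (funext fun x => h0_res (fbk W e) x)).mpr (hb.comp (h0 _ _).bijective)
  have hb' : Function.Bijective (rsec (fbk W e) (lc L.P M)) := by
    rw [← Function.Bijective.of_comp_iff _ (ha _)]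
    exact (congrArg _ (funext fun x => nat a.hom.hom (fbk W e) x)).mp ((ha _).comp h0')
  obtain ⟨N, s', h1, h2⟩ := main l (lc S M) (lc_cc S M l) W w hl hW e hb'
    (a.hom.hom.app (op (fb W t)) s) ((map_nsmul (a.hom.hom.app (op (fb W t))).hom _ _).symm.trans
      ((congrArg _ hs).trans (map_zero _)))
  obtain ⟨s', rfl⟩ := (ha (fb ((Over.pullback L.π).obj N.V) t)).2 s'
  exact ⟨N, s', (ha _).1 ((map_nsmul (a.hom.hom.app _).hom _ _).trans (h1.trans (map_zero _).symm)),
    (ha _).1 ((nat a.hom.hom _ _).trans (h2.trans (nat a.hom.hom _ _).symm))⟩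

end Pool.Agent.MP_855f4c_ag.E.D

end
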