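import Pool.Agent.MP_855f4c_ag.EC.Da
import Pool.Agent.MP_855f4c_ag.EC.DUa
import Pool.Agent.MP_855f4c_ag.EC.M3a
import Pool.Agent.MP_855f4c_ag.EC.F2c
import Pool.Agent.MP_855f4c_ag.EC.F2b
import Pool.Agent.MP_855f4c_ag.EC.Ub

section

set_option autoImplicit false
set_option backward.isDefEq.respectTransparency false

open CategoryTheory Limits Abelian Opposite AlgebraicGeometry Function

namespace Pool.Agent.MP_855f4c_ag.E.D

open E3 E4
open CV (Ln Lm)

namespace D1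

section alg
variable (l : ℕ) [Fact l.Prime]

lemma card_dual (K : Type) (V : Type 1) [Field K] [Finite K] [AddCommGroup V] [Module K V]
    [Finite V] : Finite (V →ₗ[K] K) ∧ Nat.card (V →ₗ[K] K) = Nat.card V :=
  ⟨.of_injective _ DFunLike.coe_injective, by
    rw [Module.natCard_eq_pow_finrank (K := K), Module.natCard_eq_pow_finrank (K := K) (V := V)]
    exact congrArg _ Subspace.dual_finrank_eq⟩

lemma card_hom (N : Type 1) [AddCommGroup N] [Finite N] (hN : ∀ x : N, l • x = 0) :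
    Finite (N →+ QZ l) ∧ Nat.card (N →+ QZ l) ≤ Nat.card N := by
  have : NeZero l := ⟨(Fact.out : l.Prime).ne_zero⟩
  obtain ⟨_⟩ : Nonempty (Module (ZMod l) N) := ⟨AddCommGroup.zmodModule hN⟩
  let e := ZMod.ringEquivCongr (pow_one l).symm
  let q : ZMod l →+ QZ l := (EZ.qj l 1).comp e.toAddMonoidHom
  have hq : Injective q := (EZ.qj_inj l 1).comp e.injective
  have hs : Surjective fun f : N →ₗ[ZMod l] ZMod l => q.comp f.toAddMonoidHom := fun g => by
    have h (x : N) : g x ∈ q.range := by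
      obtain ⟨z, hz⟩ := (EZ.qj_ex l 1 (g x)).1 (by rw [pow_one, ← map_nsmul, hN, map_zero])
      obtain ⟨z, rfl⟩ := e.surjective z
      exact ⟨z, hz⟩
    refine ⟨((AddMonoidHom.ofInjective hq).symm.toAddMonoidHom.comp
      (g.codRestrict _ h)).toZModLinearMap l, AddMonoidHom.ext fun x => ?_⟩
    exact AddMonoidHom.apply_ofInjective_symm hq ⟨g x, h x⟩
  obtain ⟨h1, h2⟩ := card_dual (ZMod l) N
  exact ⟨@Finite.of_surjective _ _ h1 _ hs, (@Nat.card_le_card_of_surjective _ _ h1 _ hs).trans_eq h2⟩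

lemma right_ker {M E : Type 1} [AddCommGroup M] [Finite M] (hM : ∀ x : M, l • x = 0)
    (φ : E → M →+ QZ l) (hφ : Injective φ) (hc : Nat.card M ≤ Nat.card E) (y : M)
    (hy : ∀ e, φ e y = 0) : y = 0 := by
  let Y := AddSubgroup.zmultiples y
  obtain ⟨_, h⟩ := card_hom l (M ⧸ Y) fun x => by
    obtain ⟨x, rfl⟩ := QuotientAddGroup.mk_surjective x
    rw [← QuotientAddGroup.mk_nsmul, hM, QuotientAddGroup.mk_zero]
  have h1 := Nat.card_le_card_of_injective (fun e => QuotientAddGroup.lift Y (φ e)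
    (AddSubgroup.zmultiples_le_of_mem (hy e))) fun e e' h => hφ (AddMonoidHom.ext fun x =>
      DFunLike.congr_fun h (x : M ⧸ Y))
  have h2 := AddSubgroup.card_eq_card_quotient_mul_card_addSubgroup Y
  have h3 : 0 < Nat.card (M ⧸ Y) := Nat.card_pos
  have h4 : Nat.card Y ≤ 1 := by nlinarith
  exact AddSubgroup.zmultiples_eq_bot.1 ((AddSubgroup.card_le_one_iff_eq_bot _).1 h4)

end alg

lemma card_les {D D' E G K : Type 1} [AddCommGroup D] [AddCommGroup D'] [AddCommGroup E]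
    [AddCommGroup G] [AddCommGroup K] {K' : Type 1} [AddCommGroup K'] {a : D' →+ D} {b : K →+ K'}
    {d : D →+ E} {p : E →+ K} {d' : D →+ G} {p' : G →+ K} (h1 : Exact a d) (h2 : Exact d p)
    (h3 : Exact p b) (h1' : Exact a d') (h2' : Exact d' p') (h3' : Exact p' b) :
    Nat.card E = Nat.card G := by
  rw [← p.ker.card_mul_index, ← p'.ker.card_mul_index, AddSubgroup.index_ker,
    AddSubgroup.index_ker, h2.addMonoidHom_ker_eq, h2'.addMonoidHom_ker_eq,
    ← h3.addMonoidHom_ker_eq, ← h3'.addMonoidHom_ker_eq, ← AddSubgroup.index_ker,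
    ← AddSubgroup.index_ker, h1.addMonoidHom_ker_eq, h1'.addMonoidHom_ker_eq]

variable {X : Scheme.{0}}

lemma lm_comp (n : ℕ) {W'' W' W : Over X} (a : W'' ⟶ W') (b : W' ⟶ W) :
    Lm n a ≫ Lm n b = Lm n (a ≫ b) := by
  rw [← cancel_epi (cokernel.π _)]
  simp [Lm]

lemma hm_hm (n q : ℕ) (T : Over X) {W'' W' W : Over X} (a : W'' ⟶ W') (b : W' ⟶ W) (x) :
    Hmap (Lm n (a ≫ b)) T q x = Hmap (Lm n b) T q (Hmap (Lm n a) T q x) := by
  rw [← lm_comp, EZ.Hmap_comp]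

lemma ln_tors (n : ℕ) (W : Over X) : n • 𝟙 (Ln n W) = 0 := by
  let p : (fr (Scheme.etaleTopology.over X)).obj W ⟶ Ln n W := cokernel.π _
  have : Epi p := (inferInstance : Epi (cokernel.π _))
  rw [← cancel_epi p, Preadditive.comp_nsmul, Category.comp_id, comp_zero,
    ← Category.id_comp p, ← Preadditive.nsmul_comp, ← natCast_zsmul]
  exact cokernel.condition _

lemma pre_smul {A F : Sh (Scheme.etaleTopology.over X)} (n q : ℕ) :
    pre ((n : ℤ) • 𝟙 A) F q = post A (n • 𝟙 F) q := AddMonoidHom.ext fun x => by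
  rw [natCast_zsmul, pre_apply, post_apply]
  induction n with
  | zero => simp
  | succ m ih => rw [succ_nsmul, succ_nsmul, Ext.mk₀_add, Ext.mk₀_add, Ext.comp_add, Ext.add_comp,
      ih, Ext.comp_mk₀_id, Ext.mk₀_id_comp]

lemma card_ext₀ {C : Type 2} [Category.{1} C] [Abelian C] [HasExt.{1} C] {A P F G : C} {a : A ⟶ A} {p : A ⟶ P} {w}
    (hS : (ShortComplex.mk a p w).ShortExact) {i : G ⟶ F} {b : F ⟶ F} {w'}
    (hT : (ShortComplex.mk i b w').ShortExact) (e : ∀ q, pre.{1} a F q = post A b q) :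
    Nat.card (Ext.{1} P F 1) = Nat.card (Ext.{1} A G 1) := by
  have h := con_les.{1} hS F
  have h' := cov_les.{1} A hT
  have h1 : Exact (post A b 0) _ := h'.e₃ 0
  have h2 : Exact _ (post A b 1) := h'.e₂ 1
  rw [← e] at h1 h2
  exact card_les (h.e₃ 0) (h.e₁ 0) (h.e₂ 1) h1 (h'.e₁ 0) h2

lemma card_ext (l : ℕ) [Fact l.Prime] (n e : ℕ) (hn : n = l ^ e) (W : Over X) :
    Nat.card (Ext (Ln n W) (Linf l X) 1) = Nat.card (H W ((con X).obj (.of (ZMod n))) 1) := by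
  subst hn
  have : NeZero ((l ^ e : ℕ) : ℤ) := ⟨by exact_mod_cast pow_ne_zero e (Fact.out : l.Prime).ne_zero⟩
  have hS : (ShortComplex.mk _ _ (cokernel.condition
      (((l ^ e : ℕ) : ℤ) • 𝟙 ((fr (Scheme.etaleTopology.over X)).obj W)))).ShortExact :=
    { exact := ShortComplex.exact_cokernel _ }
  exact card_ext₀ hS (EZ.Zj_exact l X e) (pre_smul _)

lemma kil (hC : COEF_s) (l : ℕ) [Fact l.Prime] (W : Over X) (hW : Aet W) (w : W.left)
    (s : Finset (Ext (Ln l W) (Linf l X) 1)) : ∃ (W' : Over X) (h : W' ⟶ W), Aet W' ∧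
      w ∈ Set.range h.left ∧ ∀ x ∈ s, pre (Lm l h) _ _ x = 0 := by
  classical
  induction s using Finset.induction_on with
  | empty => exact ⟨W, 𝟙 W, hW, ⟨w, rfl⟩, by simp⟩
  | insert x s _ ih =>
    obtain ⟨W', h, a, ⟨w', rfl⟩, ih⟩ := ih
    obtain ⟨W'', h', a', ⟨w'', rfl⟩, e⟩ := hC l X l W' (Fact.out : l.Prime).ne_zero a 0
      (pre (Lm l h) _ _ x) w'
    refine ⟨W'', h' ≫ h, a', ⟨w'', rfl⟩, fun y hy => ?_⟩
    rw [← lm_comp, ← pre_pre]
    rcases Finset.mem_insert.1 hy with rfl | hy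
    · exact e
    · rw [ih y hy, map_zero]

lemma int_nhd (hI : INTB_s) {k : Type} [Field k] (f : X ⟶ Spec (.of k)) [Smooth f] (W : Over X)
    (hW : Aet W) (w : W.left) : ∃ (W' : Over X) (h : W' ⟶ W), Aet W' ∧ IsIntegral W'.left ∧
      w ∈ Set.range h.left := by
  have := hW.1
  obtain ⟨U, h1, h2, h3⟩ := hI k W.left (W.hom ≫ f) w
  exact ⟨Over.mk (U.ι ≫ W.hom), Over.homMk U.ι rfl, ⟨(inferInstance : Etale (U.ι ≫ W.hom)), h2⟩, h3,
    ⟨⟨w, h1⟩, rfl⟩⟩

lemma mu_iso (n : ℕ) [NeZero n] (k : Type) [Field k] [IsAlgClosed k] (f : X ⟶ Spec (.of k))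
    (hl : (n : k) ≠ 0) : Nonempty ((con X).obj (.of (ZMod n)) ≅ mu X n) := by
  have : NeZero (n : k) := ⟨hl⟩
  obtain ⟨ζ, hζ⟩ := HasEnoughRootsOfUnity.exists_primitiveRoot k n
  obtain ⟨e, -⟩ := cst_mu (n := n) (f.appTop ((Scheme.ΓSpecIso (.of k)).inv ζ))
    (by rw [← map_pow, ← map_pow, hζ.pow_eq_one, map_one, map_one]) fun K _ x =>
      hζ.map_of_injective (f := ((Scheme.ΓSpecIso (.of k)).inv ≫ f.appTop ≫ x.appTop ≫
        (Scheme.ΓSpecIso (.of K)).hom).hom) (RingHom.injective _)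
  exact ⟨e⟩

lemma cyc {M : Type 1} [AddCommGroup M] (γ : M) (n : ℕ) (h1 : ∀ z, ∃ j : ℤ, z = j • γ)
    (h2 : ∀ j : ℤ, j • γ = 0 ↔ (n : ℤ) ∣ j) : Nonempty (M ≃+ ZMod n) := by
  refine ⟨(AddEquiv.ofBijective (ZMod.lift n ⟨zmultiplesHom _ γ, (h2 _).2 dvd_rfl⟩)
    ⟨(injective_iff_map_eq_zero _).2 fun x hx => ?_, fun z => ?_⟩).symm⟩
  · obtain ⟨a, rfl⟩ := ZMod.intCast_surjective x
    rw [ZMod.lift_coe] at hx
    exact (ZMod.intCast_zmod_eq_zero_iff_dvd _ _).2 ((h2 a).1 hx)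
  · obtain ⟨j, rfl⟩ := h1 z
    exact ⟨j, ZMod.lift_coe _ _ j⟩

end D1

open D1 in
theorem d1 (hD : DSET_s) (hC : CV.CURVE_s) (hM : CV.P1MU_s) (h3 : CD3_s) (hI : INTB_s)
    (hT : TWF_s) (hK : COEF_s) (hL : LNM_s) : D1_s := by
  intro l _ k _ _ L hl
  have l0 : l ≠ 0 := (Fact.out : l.Prime).ne_zero
  have hs := (hT.1 1 _ _ _ (.step L (𝟙 _) (.iso _ inferInstance))).2.1
  rw [Category.comp_id] at hs
  have hv (n : ℕ) (hn : (n : k) ≠ 0) : Linv n L.P :=
    (Linv.spec (Ne.isUnit hn)).of_hom L.π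
  have hi : IsIso (tot (fbr L.π (𝟙 _))) :=
    isIso_homMk _ (inferInstance : IsIso (pullback.snd (𝟙 _) L.π))
  have hr (F : Sh (Scheme.etaleTopology.over L.P)) (q : ℕ) : Bijective (res (tot (fbr L.π (𝟙 _))) F q) := pre_bij _ F q
  have tt {W' W : Over L.P} (h : W' ⟶ W) : h ≫ tot W = tot W' :=
    Over.OverMorphism.ext (Over.w h)
  refine (hD l L.P 2 ⟨?_, ?_, hv l hl⟩ (fun F hF q hq x => ?_) (fun n ⟨e, hn⟩ => ?_)
    (fun W hW ⟨w⟩ => ?_) (fun W hW w => ?_)).imp fun t ⟨ht, ht'⟩ => ht' fun W hW w j hj => ?_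
  rotate_right
  · obtain ⟨W', h, a, _, w', rfl⟩ := int_nhd hI L.π W hW w
    have := a.1
    have := a.2
    obtain ⟨c0, c1, -, c2, -⟩ := hC l k hl L W' (tot W')
    obtain rfl | rfl : j = 0 ∨ j = 1 := by omega
    · exact ⟨W', h, a, ⟨w', rfl⟩, fun x => by rw [c0 x, map_zero]⟩
    have hj := ht _ (((hL L.P l).1 l W' ⟨1, (pow_one l).symm⟩ a.1)) (ln_tors l W') 1 rfl
    have hq (x : H (top L.P) (Ln l W') 1) : l • x = 0 := by
      rw [← EZ.Hmap_nsmul, ln_tors]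
      exact (congrArg (x.comp · (add_zero 1)) (Ext.mk₀_zero _ _)).trans (Ext.comp_zero _ _ _ _ _)
    have := (card_hom l _ hq).1
    have := Finite.of_injective _ hj
    have := Fintype.ofFinite (Ext (Ln l W') (Linf l L.P) 1)
    obtain ⟨W'', h', a', ⟨w'', rfl⟩, hk⟩ := kil hK l W' a w' Finset.univ
    obtain ⟨m⟩ := (hL L.P l).2.1
    refine ⟨W'', h' ≫ h, a', ⟨w'', rfl⟩, fun x => ?_⟩
    rw [hm_hm, right_ker l hq _ hj (c2.trans_eq ?_) (Hmap (Lm l h') _ 1 x) fun e => ?_, map_zero]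
    · rw [card_ext l l 1 (pow_one l).symm]
      exact Nat.card_congr (Equiv.ofBijective _ (post_bij _ m.hom 1))
    · refine (congrArg t ((Ext.comp_assoc_of_second_deg_zero x _ e rfl).trans ?_)).trans
        (map_zero t)
      rw [← pre_apply, hk e (Finset.mem_univ _), Ext.comp_zero]
  · have := LocallyOfFiniteType.isLocallyNoetherian L.π
    have := QuasiCompact.compactSpace_of_compactSpace L.π
    exact {}
  · exact ⟨terminal.comp_from L.π ▸ (inferInstance : IsSeparated (L.π ≫ terminal.from _))⟩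
  · obtain ⟨q, rfl⟩ : ∃ q', q = q' + 3 := ⟨q - 3, by omega⟩
    exact (hr F _).1 ((h3 l _ L F hF k (𝟙 _) hl q _).trans (map_zero _).symm)
  · have hn' : (n : k) ≠ 0 := by rw [hn, Nat.cast_pow]; exact pow_ne_zero _ hl
    have : NeZero n := ⟨hn ▸ pow_ne_zero _ l0⟩
    obtain ⟨γ, hγ⟩ := hM _ L n (hv n hn')
    obtain ⟨-, h1, h2⟩ := hγ l e hn.dvd k (𝟙 _) (tot _) hl
    obtain ⟨c⟩ := cyc _ n h1 h2
    obtain ⟨m⟩ := (hL L.P n).2.1
    obtain ⟨m'⟩ := mu_iso n k L.π hn'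
    exact ⟨((AddEquiv.ofBijective _ (post_bij _ (m.hom ≫ m'.hom) 2)).trans
      (AddEquiv.ofBijective _ (hr _ 2))).trans c⟩
  · obtain ⟨W', h, a, _, -⟩ := int_nhd hI L.π W hW w
    have := a.1
    have := a.2
    intro y
    obtain ⟨x, rfl⟩ := (hC l k hl L W' (tot W')).2.2.2.2.1.2 y
    exact ⟨Hmap (Lm l h) _ 2 x, by rw [← hm_hm, tt]; rfl⟩
  · obtain ⟨W', h, a, _, hw⟩ := int_nhd hI L.π W hW w
    have := a.1
    have := a.2
    refine ⟨W', h, a, hw, fun x hx => ?_⟩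
    rw [(hC l k hl L W' (tot W')).2.2.2.2.1.1 (hx.trans (map_zero _).symm), map_zero]

end Pool.Agent.MP_855f4c_ag.E.D

end

section

set_option autoImplicit false
set_option backward.isDefEq.respectTransparency false

open CategoryTheory Limits Abelian Opposite AlgebraicGeometry

namespace Pool.Agent.MP_855f4c_ag.E.D

open E3 E4 DA
open CV (Ln Lm)

namespace DSET

variable {l : ℕ} [Fact l.Prime] {X : Scheme.{0}}

lemma inj_QZ : Inj.{1} (QZ l) := fun M N _ _ f g h => by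
  obtain ⟨e, he⟩ := QZ.extend (QuotientAddGroup.kerLift f) (QuotientAddGroup.kerLift_injective f)
    (QuotientAddGroup.lift f.ker g h)
  exact ⟨e, fun x => DFunLike.congr_fun he (QuotientAddGroup.mk x)⟩

lemma cyc_QZ {u v : QZ l} (hu : u ≠ 0) (h1 : l • u = 0) (h2 : l • v = 0) : ∃ c : ℤ, v = c • u := by
  obtain ⟨a, rfl⟩ := (EZ.qj_ex l 1 u).1 (by rwa [pow_one])
  obtain ⟨b, rfl⟩ := (EZ.qj_ex l 1 v).1 (by rwa [pow_one])
  obtain ⟨a, rfl⟩ := ZMod.intCast_surjective a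
  obtain ⟨b, rfl⟩ := ZMod.intCast_surjective b
  rw [EZ.qj_int] at hu ⊢
  rw [EZ.qj_int]
  rw [Ne, EZ.qe_smul, pow_one] at hu
  obtain ⟨x, y, hxy⟩ :=
    (Nat.prime_iff_prime_int.1 (Fact.out : l.Prime)).irreducible.coprime_iff_not_dvd.2 hu
  refine ⟨b * y, ?_⟩
  rw [smul_smul, ← sub_eq_zero, ← sub_smul, EZ.qe_smul, pow_one]
  exact ⟨b * x, by linear_combination (-b) * hxy⟩

omit [Fact l.Prime] in
lemma ln_tors (n : ℕ) (W : Over X) : n • 𝟙 (Ln n W) = 0 := by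
  rw [← cancel_epi (cokernel.π ((n : ℤ) • 𝟙 ((fr (Scheme.etaleTopology.over X)).obj W))), comp_zero]
  refine Eq.trans ?_ (cokernel.condition _)
  rw [Preadditive.comp_nsmul, Preadditive.zsmul_comp, Category.id_comp]
  exact (congrArg _ (Category.comp_id _)).trans (natCast_zsmul _ _).symm

omit [Fact l.Prime] in
lemma smul_H {A F : Sh (Scheme.etaleTopology.over X)} {n q : ℕ} (h : n • 𝟙 F = 0) (x : Ext.{1} A F q) : n • x = 0 := by
  have key : ∀ m : ℕ, post A (m • 𝟙 F) q x = m • x := fun m => by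
    induction m with
    | zero => rw [zero_smul, zero_smul, post_apply, Ext.mk₀_zero, Ext.comp_zero]
    | succ m ih =>
      rw [succ_nsmul, succ_nsmul, ← ih, post_apply, Ext.mk₀_add, Ext.comp_add, Ext.comp_mk₀_id]
      rfl
  rw [← key, h, post_apply, Ext.mk₀_zero, Ext.comp_zero]

omit [Fact l.Prime] in
lemma tor_ext {A Z : Sh (Scheme.etaleTopology.over X)} (hA : Tor l A.obj) (u : A ⟶ Z)
    (h : ∀ m : ℕ, kernel.ι (l ^ m • 𝟙 A) ≫ u = 0) : u = 0 := by
  refine Sheaf.hom_ext (NatTrans.ext (funext fun T => AddCommGrpCat.hom_ext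
    (AddMonoidHom.ext fun s => ?_)))
  refine sepP Z.property (U := T.unop) _ ⟨fun V v => Z.obj.map v.op (u.hom.app T s) = 0,
    fun {V W v} hv g => by rw [← res_res, hv, map_zero]⟩ (mem_Jov_of _ fun t => ?_) fun _ _ hy => hy
  obtain ⟨V, v, hV, he, -, ht⟩ := exists_of_mem_Jov ((Scheme.etaleTopology.over X).top_mem T.unop) t
  refine ⟨V, v, he, ?_, ht⟩
  obtain ⟨m, hm⟩ := hA V hV (A.obj.map v.op s)
  obtain ⟨a, ha⟩ := (frEquiv V A).surjective (A.obj.map v.op s)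
  have h1 : a ≫ (l ^ m • 𝟙 A) = 0 := (frEquiv V A).injective (by
    rw [Preadditive.comp_nsmul, Category.comp_id, map_nsmul, ha, hm, map_zero])
  change Z.obj.map v.op (u.hom.app (op T.unop) s) = 0
  rw [← nat, ← ha, ← frEquiv_post, ← kernel.lift_ι _ a h1, Category.assoc, h, comp_zero, map_zero]

/-- A property that holds after an etale localisation. -/
def Loc (n : ℕ) (A : Sh (Scheme.etaleTopology.over X)) (R : ∀ Q : Sh (Scheme.etaleTopology.over X), (Q ⟶ A) → Prop) : Prop :=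
  ∀ W, Aet W → ∀ (a : Ln n W ⟶ A) (w : W.left), ∃ (W' : Over X) (h : W' ⟶ W), Aet W' ∧
    w ∈ Set.range h.left ∧ R (Ln n W') (Lm n h ≫ a)

lemma cv1 (hG : GENB_s) (hl : Linv l X) {A : Sh (Scheme.etaleTopology.over X)} (hA : Tc l A ∧ l • 𝟙 A = 0) {R}
    (h : Loc l A R) : Cv.{1} (fun A => Tc l A ∧ l • 𝟙 A = 0) A R := by
  obtain ⟨ι, W, a, h1, h2, h3⟩ := hG l X l A (fun W a => R _ a) ⟨1, (pow_one l).symm⟩ hl hA.1 hA.2 h
  exact ⟨ι, _, a, fun i => (h1 i).2, h2, h3⟩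

lemma cv2 (hG : GENB_s) (hL : LNM_s) (hl : Linv l X) {A : Sh (Scheme.etaleTopology.over X)} (hA : Tc l A) {R}
    (h : ∀ m, Loc (l ^ m) A R) : Cv.{1} (Tc l) A R := by
  have (m : ℕ) := hG l X (l ^ m) (kernel (l ^ m • 𝟙 A))
    (fun W a => R _ (a ≫ kernel.ι _)) ⟨m, rfl⟩ hl (Tc.ker _ hA hA.1) (by
      rw [← cancel_mono (kernel.ι _), zero_comp, Preadditive.nsmul_comp, Category.id_comp]
      refine Eq.trans ?_ (kernel.condition _)
      rw [Preadditive.comp_nsmul, Category.comp_id]) fun W hW a w => by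
      simpa only [Category.assoc] using h m W hW (a ≫ kernel.ι _) w
  choose ι W a h1 h2 _ using this
  refine ⟨Σ m, ι m, fun x => Ln (l ^ x.1) (W x.1 x.2), fun x => a x.1 x.2 ≫ kernel.ι _,
    fun x => (h1 _ _).2, Preadditive.epi_of_cancel_zero _ fun u hu => tor_ext hA.2 u fun m => ?_,
    Tc.sigma _ fun x => (hL X _).1 l _ ⟨_, rfl⟩ (h1 _ _).1.1⟩
  have := h2 m
  rw [← cancel_epi (Sigma.desc (a m)), comp_zero]
  refine Sigma.hom_ext _ _ fun i => ?_
  have := Sigma.ι (fun x : Σ m, ι m => Ln (l ^ x.1) (W x.1 x.2)) ⟨m, i⟩ ≫= hu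
  rw [Sigma.ι_desc_assoc, comp_zero, Category.assoc] at this
  rw [Sigma.ι_desc_assoc, comp_zero, this]

lemma coef (hC : COEF_s) {n : ℕ} (hn : n ≠ 0) {A : Sh (Scheme.etaleTopology.over X)} {i : ℕ}
    (x : Ext.{1} A (Linf l X) (i + 1)) : Loc n A fun _ a => pre a _ _ x = 0 := fun W hW a w => by
  obtain ⟨W', h, h1, h2, h3⟩ := hC l X n W hn hW i (pre a _ _ x) w
  exact ⟨W', h, h1, h2, (pre_pre _ _ _).symm.trans h3⟩

end DSET

open DSET in
theorem dset (hG : GENB_s) (hL : LNM_s) (hS : SUMH_s) (hC : COEF_s) (hE : EMBQ_s) : DSET_s := by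
  intro l _ X N hX hcd hcy hnz htr
  obtain ⟨t, a₀, ht, hnt, hloc⟩ := hE l X N hX hcd hcy
  have hl0 : l ≠ 0 := (Fact.out : l.Prime).ne_zero
  have := hX.1
  have := hX.2.1
  have hs : Sm.{1} ((fr (Scheme.etaleTopology.over X)).obj (top X)) := fun ι Q q x =>
    have : CompactSpace (top X).left := inferInstanceAs (CompactSpace X)
    have : (top X).left.IsSeparated := hX.2.1
    hS X (top X) ι Q q x
  have hk : ∀ {P A : Sh (Scheme.etaleTopology.over X)} (p : P ⟶ A), (Tc l P ∧ l • 𝟙 P = 0) → (Tc l A ∧ l • 𝟙 A = 0) →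
      Tc l (kernel p) ∧ l • 𝟙 (kernel p) = 0 := fun p hP hA => ⟨Tc.ker p hP.1 hA.1.1, by
    rw [← cancel_mono (kernel.ι p), zero_comp, Preadditive.nsmul_comp, Category.id_comp,
      ← Category.comp_id (kernel.ι p), ← Preadditive.comp_nsmul, hP.2, comp_zero]⟩
  have cd : ∀ A : Sh (Scheme.etaleTopology.over X), Tc l A → ∀ z : H (top X) A (N + 1), z = 0 :=
    fun A hA => hcd A hA _ (Nat.lt_succ_self N)
  have can : ∀ (W : Over X) (c : ℤ) z, ph t _ (add_zero N) (Ext.mk₀ (c • (Lm l (tot W) ≫ a₀))) z =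
      c • t (Hmap a₀ _ N (Hmap (Lm l (tot W)) _ N z)) := fun W c z => by
    have : Ext.mk₀ (c • (Lm l (tot W) ≫ a₀)) = c • Ext.mk₀ (Lm l (tot W) ≫ a₀) :=
      map_zsmul Ext.addEquiv₀.symm _ _
    rw [this, map_zsmul, AddMonoidHom.zsmul_apply, ph_apply]
    exact congrArg (fun y => c • t y) (post_post _ _ z).symm
  have tl : ∀ y : H (top X) (Ln l (top X)) N, l • y = 0 := smul_H (ln_tors l _)
  have h0 : ∀ A : Sh (Scheme.etaleTopology.over X), (Tc l A ∧ l • 𝟙 A = 0) → ∀ f : A ⟶ Linf l X,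
      ph t A (add_zero N) (Ext.mk₀ f) = 0 →
      Cv.{1} (fun A => Tc l A ∧ l • 𝟙 A = 0) A fun _ a => a ≫ f = 0 := fun A hA f hf =>
    cv1 hG hX.2.2 hA fun W hW a w => by
      obtain ⟨W', h, c, h1, ⟨w', h2⟩, h3⟩ := hloc W hW (a ≫ f) w
      refine ⟨W', h, h1, ⟨w', h2⟩, ?_⟩
      obtain ⟨y, hy⟩ := exists_ne (0 : H (top X) (Ln l (top X)) N)
      obtain ⟨z, rfl⟩ := hnz W' h1 ⟨w'⟩ y
      have h4 : c • Hmap (Lm l (tot W')) _ N z = 0 := ht (by
        rw [map_zsmul, map_zero, AddMonoidHom.comp_apply, ← can, ← h3, ← Category.assoc,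
          ← Ext.mk₀_comp_mk₀, ← pre_apply, ph_pre, hf, AddMonoidHom.zero_apply])
      have h5 : (l : ℤ) ∣ c := by
        by_contra hc
        obtain ⟨p, q, hpq⟩ :=
          (Nat.prime_iff_prime_int.1 (Fact.out : l.Prime)).irreducible.coprime_iff_not_dvd.2 hc
        refine hy ?_
        rw [← one_zsmul (Hmap _ _ N z), ← hpq, add_smul, mul_smul, mul_smul, h4, natCast_zsmul, tl,
          smul_zero, smul_zero, add_zero]
      obtain ⟨e, rfl⟩ := h5
      rw [Category.assoc, h3, mul_comm, mul_smul, natCast_zsmul, ← Category.id_comp (Lm l _ ≫ a₀),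
        ← Preadditive.nsmul_comp, ln_tors, zero_comp, smul_zero]
  have h1 : ∀ A : Sh (Scheme.etaleTopology.over X), (Tc l A ∧ l • 𝟙 A = 0) → ∀ c : H (top X) A N →+ QZ l,
      Cv.{1} (fun A => Tc l A ∧ l • 𝟙 A = 0) A fun Q a => ∃ f : Q ⟶ Linf l X,
        ∀ z, ph t Q (add_zero N) (Ext.mk₀ f) z = c (post _ a N z) := fun A hA c =>
    cv1 hG hX.2.2 hA fun W hW a w => by
      obtain ⟨W', h, h1, h2, h3⟩ := htr W hW w
      refine ⟨W', h, h1, h2, ?_⟩
      obtain ⟨e, he⟩ := inj_QZ _ _ (Hmap (Lm l (tot W')) (top X) N)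
        (c.comp (post _ (Lm l h ≫ a) N)) fun z hz => by
          rw [AddMonoidHom.comp_apply, ← post_post]
          exact (congrArg (fun y => c (post _ a N y)) (h3 z hz)).trans (by rw [map_zero, map_zero])
      obtain ⟨i⟩ := hcy l ⟨1, (pow_one l).symm⟩
      obtain ⟨k, hk⟩ := cyc_QZ (u := t (Hmap a₀ _ N (i.symm 1))) (v := e (i.symm 1))
        (fun h0 => by
          have := ht (h0.trans (map_zero _).symm)
          exact one_ne_zero (i.symm.injective (this.trans (map_zero _).symm)))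
        (by rw [← map_nsmul, ← map_nsmul, tl, map_zero, map_zero]) (by rw [← map_nsmul, tl, map_zero])
      refine ⟨k • (Lm l (tot W') ≫ a₀), fun z => ?_⟩
      rw [can]
      refine Eq.trans ?_ (he z)
      obtain ⟨y, hy⟩ := i.symm.surjective (Hmap (Lm l (tot W')) _ N z)
      obtain ⟨y, rfl⟩ := ZMod.intCast_surjective y
      rw [← hy, ← zsmul_one y, map_zsmul, map_zsmul, map_zsmul, map_zsmul, hk, smul_comm]
  have h2 : ∀ A : Sh (Scheme.etaleTopology.over X), (Tc l A ∧ l • 𝟙 A = 0) → ∀ (i : ℕ) (x : Ext.{1} A (Linf l X) (i + 1)),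
      Cv.{1} (fun A => Tc l A ∧ l • 𝟙 A = 0) A fun _ a => pre a _ _ x = 0 := fun A hA i x =>
    cv1 hG hX.2.2 hA (coef hC hl0 x)
  refine ⟨t, fun A hA hA' j h => succ_inj t inj_QZ hk h2 (i := 0) h h (fun A hA => ?_) A ⟨hA, hA'⟩,
    fun hef => ?_⟩
  · subst h
    exact zero_bij t hs hk (fun A hA => cd A hA.1) h0 h1 A hA
  have d1 := dual t inj_QZ hs hk (fun A hA => cd A hA.1) h0 h1 h2 fun A hA j hj c =>
    cv1 hG hX.2.2 hA fun W hW a w => by
      obtain ⟨W', h, h1, h2, h3⟩ := hef W hW w j hj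
      refine ⟨W', h, h1, h2, fun z => ?_⟩
      rw [← post_post]
      exact (congrArg (fun y => c (post _ a j y)) (h3 z)).trans (by rw [map_zero, map_zero])
  have d2 : ∀ (m : ℕ) (W : Over X), Aet W → Du t (Ln (l ^ m) W) := fun m W hW => by
    have tl : Tc l (Ln l W) := (hL X l).1 l W ⟨1, (pow_one l).symm⟩ hW.1
    induction m with
    | zero =>
      refine d1 _ ⟨(hL X _).1 l W ⟨0, rfl⟩ hW.1, ?_⟩
      have := ln_tors (l ^ 0) W
      rw [pow_zero, one_smul] at this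
      rw [pow_zero, this, smul_zero]
    | succ m ih =>
      obtain ⟨i, p, w, hS⟩ := (hL X (l ^ (m + 1))).2.2.1 l (l ^ m) W (pow_succ' l m)
        (pow_ne_zero _ hl0)
      exact Du.X₂ t inj_QZ hS (cd _ tl) (d1 _ ⟨tl, ln_tors l W⟩) ih
  intro A hA i j h
  refine (dual t inj_QZ hs (T := Tc l) (fun p hP hA => Tc.ker p hP hA.1) cd
    (fun A hA f hf => cv2 hG hL hX.2.2 hA fun m W hW a w => ⟨W, 𝟙 W, hW, ⟨w, rfl⟩, ?_⟩)
    (fun A hA c => cv2 hG hL hX.2.2 hA fun m W hW a w => ⟨W, 𝟙 W, hW, ⟨w, rfl⟩, ?_⟩)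
    (fun A hA i x => cv2 hG hL hX.2.2 hA fun m => coef hC (pow_ne_zero _ hl0) x)
    (fun A hA j hj c => cv2 hG hL hX.2.2 hA fun m W hW a w => ?_) A hA).1 i j h
  · rw [← Ext.mk₀_eq_zero_iff]
    refine ((d2 m W hW).1 0 N (add_zero N)).1 (AddMonoidHom.ext fun z => ?_)
    rw [← Ext.mk₀_comp_mk₀, ← pre_apply, ph_pre, hf, map_zero]
    rfl
  · obtain ⟨x, hx⟩ := ((d2 m W hW).1 0 N (add_zero N)).2 (c.comp (post _ (Lm _ (𝟙 W) ≫ a) N))
    obtain ⟨f, rfl⟩ := (Ext.mk₀_bijective _ _).2 x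
    exact ⟨f, DFunLike.congr_fun hx⟩
  · obtain ⟨i, rfl⟩ : ∃ i, N = j + (i + 1) := ⟨N - j - 1, by omega⟩
    obtain ⟨x, hx⟩ := ((d2 m W hW).1 (i + 1) j rfl).2 (c.comp (post _ a j))
    obtain ⟨W', h, h1, h2, h3⟩ := hC l X _ W (pow_ne_zero m hl0) hW i x w
    refine ⟨W', h, h1, h2, fun z => ?_⟩
    rw [← post_post, ← AddMonoidHom.comp_apply c, ← hx, ← ph_pre, h3, map_zero]
    rfl

end Pool.Agent.MP_855f4c_ag.E.D

end

section

/-! h86e section D, row LERP. -/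

set_option autoImplicit false
set_option backward.isDefEq.respectTransparency false

open CategoryTheory Limits Abelian Opposite AlgebraicGeometry

namespace Pool.Agent.MP_855f4c_ag.E.D

open E3 E4

lemma LPz.hz {S : Scheme.{0}} (T : Over S) {G : Sh (Scheme.etaleTopology.over S)} (h : IsZero G) (a : ℕ)
    (y : H T G a) : y = 0 := by
  rw [← Hmap_one y, h.eq_of_src (𝟙 _) 0]
  exact (congrArg (fun z => y.comp z (add_zero a)) (Ext.mk₀_zero _ _)).trans
    (Ext.comp_zero _ _ _ _ _)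

lemma LPz.iz (h1 : PBC_s) (h2 : CD3_s) (l : ℕ) [Fact l.Prime] {S : Scheme.{0}} (L : PL S)
    (hl : Linv l S) {F : Sh (Scheme.etaleTopology.over L.P)} (hF : Tc l F) (b : ℕ) :
    IsZero ((Rq L.π (b + 3)).obj F) := pt_isZero hl (h1 l S L F _ hF).1 fun t => by
  obtain ⟨k, _, _, x, y, z, hz⟩ := exists_geom (top S) t
  refine ⟨k, _, ‹_›, x, ⟨z, (congr($((Over.w y).symm.trans (Category.comp_id _)) z)).trans hz⟩,
    fun s => ?_⟩
  obtain ⟨s, rfl⟩ := (toRq_bij L.π F (b + 3) x).2 s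
  rw [h2 l S L F hF k x (hl k x) b s, map_zero]

lemma LPz.van (h1 : PBC_s) (h2 : CD3_s) (l : ℕ) [Fact l.Prime] {S : Scheme.{0}} (L : PL S)
    (hl : Linv l S) (T : Over S) {F : Sh (Scheme.etaleTopology.over L.P)} (hF : Tc l F) (a b : ℕ) (hb : 3 ≤ b)
    (y : H T ((Rq L.π b).obj F) a) : y = 0 := by
  obtain ⟨b, rfl⟩ : ∃ r, b = r + 3 := ⟨b - 3, by omega⟩
  exact LPz.hz T (LPz.iz h1 h2 l L hl hF b) a y

theorem lerp' (h1 : PBC_s) (h2 : CD3_s) : LERP_s := by
  intro l _ S L T hl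
  have v {N : ℕ} (h : CDT l T N) {F : Sh (Scheme.etaleTopology.over L.P)} (hF : Tc l F) (a b : ℕ) (e : N < a ∨ 3 ≤ b)
      (y : H T ((Rq L.π b).obj F) a) : y = 0 :=
    e.elim (fun e => h _ (h1 l S L F b hF) a e y) fun e => LPz.van h1 h2 l L hl T hF a b e y
  refine ⟨fun N h F hF q hq => leray_zero L.π F fun a b e => v h hF a b (by omega),
    fun F₃ F₂ F₁ F₀ u₂ u₁ u₀ n hF k₂ k₁ k₀ => fil3 L.π u₂ u₁ u₀
      (fun a b hb _ => LPz.van h1 h2 l L hl T hF a b hb) k₂ k₁ k₀, fun N F h hF =>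
    ⟨leray_one L.π T F rfl (fun b a _ _ => v h hF a b (by omega))
      fun b a _ _ => v h hF a b (by omega), fun g c hg =>
      leray_scalar L.π F g c rfl (fun a b _ _ => v h hF a b (by omega)) hg⟩⟩

end Pool.Agent.MP_855f4c_ag.E.D

end

section

set_option autoImplicit false
set_option backward.isDefEq.respectTransparency false

open CategoryTheory Limits Abelian Opposite AlgebraicGeometry

namespace Pool.Agent.MP_855f4c_ag.E.D

open E3 E4
open CV (Ln Lm)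

namespace TWS

variable {P : Scheme.{0}}

theorem rr {T T' T'' : Over P} (a : T'' ⟶ T') (b : T' ⟶ T) (F : Sh (Scheme.etaleTopology.over P)) (q : ℕ)
    (x : H T F q) : res a F q (res b F q x) = res (a ≫ b) F q x :=
  (pre_pre _ _ x).trans (congrArg (fun a => pre a F q x) (Functor.map_comp _ _ _).symm)

theorem rid {T : Over P} (F : Sh (Scheme.etaleTopology.over P)) (q : ℕ) (x : H T F q) : res (𝟙 T) F q x = x :=
  (congrArg (fun a => pre a F q x) (CategoryTheory.Functor.map_id _ _)).trans (pre_id x)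

theorem tors (n : ℕ) (W : Over P) : n • 𝟙 (Ln n W) = 0 := by
  rw [← cancel_epi (cokernel.π ((n : ℤ) • 𝟙 ((fr (Scheme.etaleTopology.over P)).obj W))), Preadditive.comp_nsmul,
    comp_zero]
  have := cokernel.condition ((n : ℤ) • 𝟙 ((fr (Scheme.etaleTopology.over P)).obj W))
  rw [Preadditive.zsmul_comp, Category.id_comp] at this
  exact (congrArg (n • ·) (Category.comp_id _)).trans ((natCast_zsmul _ _).symm.trans this)

theorem ext_tors {n : ℕ} {A F : Sh (Scheme.etaleTopology.over P)} (h : n • 𝟙 F = 0) {q : ℕ} (x : Ext A F q) :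
    n • x = 0 := by
  have e : Ext.mk₀ (n • 𝟙 F) = n • Ext.mk₀ (𝟙 F) := map_nsmul Ext.addEquiv₀.symm n _
  have := map_nsmul (x.precomp F (add_zero q)) n (Ext.mk₀ (𝟙 F))
  rw [← e, h, Ext.mk₀_zero, map_zero] at this
  exact (congrArg (n • ·) (Ext.comp_mk₀_id x).symm).trans this.symm

theorem sec_tors {n : ℕ} {F : Sh (Scheme.etaleTopology.over P)} (h : n • 𝟙 F = 0) {T : Over P} (s : sec F T) :
    n • s = 0 := by
  obtain ⟨a, rfl⟩ := (frEquiv T F).surjective s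
  rw [← map_nsmul, ← Category.comp_id a, ← Preadditive.comp_nsmul, h, comp_zero, map_zero]

theorem m_nsmul {n q : ℕ} (M : Smul P n q) (U : Over P) (F : Sh (Scheme.etaleTopology.over P)) (s : sec F U)
    (hs : n • s = 0) (c : ℕ) (s' : sec F U) (hs' : n • s' = 0) (e : s' = c • s) (x) :
    M.m U F s' hs' x = c • M.m U F s hs x := by
  subst e
  induction c with
  | zero =>
    have h := M.add U F (0 • s) (0 • s) hs' hs' (by rw [smul_add, hs', add_zero]) x
    have e : M.m U F (0 • s + 0 • s) (by rw [smul_add, hs', add_zero]) x =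
        M.m U F (0 • s) hs' x := by congr 2; rw [zero_nsmul, add_zero]
    rw [e] at h
    rw [zero_nsmul (M.m U F s hs x)]
    exact left_eq_add.1 h
  | succ c ih =>
    have hc : n • c • s = 0 := by rw [smul_comm, hs, smul_zero]
    rw [succ_nsmul (M.m U F s hs x), ← ih hc,
      ← M.add U F _ _ hc hs (by rw [smul_add, hc, hs, add_zero])]
    congr 2
    exact succ_nsmul _ _

/-- `z` is a free generator over `ℤ/n`. -/
def Fg (n : ℕ) {M : Type 1} [AddCommGroup M] (z : M) : Prop :=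
  (∀ w, ∃ c : ℤ, w = c • z) ∧ ∀ c : ℤ, c • z = 0 → (n : ℤ) ∣ c

theorem Fg.map {n : ℕ} {M N : Type 1} [AddCommGroup M] [AddCommGroup N] {z : M} (h : Fg n z)
    (β : M →+ N) (hβ : Function.Bijective β) : Fg n (β z) :=
  ⟨fun w => by
    obtain ⟨w, rfl⟩ := hβ.2 w
    obtain ⟨c, rfl⟩ := h.1 w
    exact ⟨c, map_zsmul _ _ _⟩,
  fun c hc => h.2 c (hβ.1 (by rw [map_zsmul, hc, map_zero]))⟩

theorem Fg.equiv {n : ℕ} {M : Type 1} [AddCommGroup M] {z : M} (h : Fg n z) (hz : n • z = 0) :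
    Nonempty (M ≃+ ZMod n) := by
  have h1 : Function.Surjective (zmultiplesHom M z) := fun w => (h.1 w).imp fun _ e => e.symm
  have h2 : (zmultiplesHom M z).ker = (Int.castAddHom (ZMod n)).ker := by
    ext c
    refine Iff.trans ⟨h.2 c, ?_⟩ (ZMod.intCast_zmod_eq_zero_iff_dvd c n).symm
    rintro ⟨k, rfl⟩
    change (n * k : ℤ) • z = 0
    rw [mul_comm, mul_smul, natCast_zsmul, hz, smul_zero]
  exact ⟨(QuotientAddGroup.quotientKerEquivOfSurjective _ h1).symm.trans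
    ((QuotientAddGroup.quotientAddEquivOfEq h2).trans
      (QuotientAddGroup.quotientKerEquivOfSurjective _ ZMod.intCast_surjective))⟩

/-- `σ` generates the stalks freely. -/
def Gen (n : ℕ) {T : Over P} {F : Sh (Scheme.etaleTopology.over P)} (σ : sec F T) : Prop :=
  ∀ (k : Type) [Field k] [IsAlgClosed k] (x : Spec (.of k) ⟶ P) (y : Over.mk x ⟶ T),
    Fg n (rsec y F σ)

theorem Gen.res {n : ℕ} {T' T : Over P} {F : Sh (Scheme.etaleTopology.over P)} {σ : sec F T} (h : Gen n σ)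
    (g : T' ⟶ T) : Gen n (rsec g F σ) := fun k _ _ x y =>
  (congrArg (Fg n) (res_res F.obj y g σ)).mpr (h k x (y ≫ g))

variable (l n : ℕ) {Ω : Type} [Field Ω] {S : Scheme.{0}} (t : Spec (.of Ω) ⟶ S)

/-- The statement proved by induction. -/
def St (N d : ℕ) (T : Over P) (s : T.left ⟶ Spec (.of Ω)) : Prop :=
  CDT l T N ∧ ∀ F : Sh (Scheme.etaleTopology.over P), Tc l F → ∀ σ : sec F T, n • σ = 0 → Gen n σ →
    Nonempty (H T F N ≃+ ZMod n) ∧ ∀ (φ : T ⟶ T) (ψ : Ω →+* Ω) (Q c : ℕ), spc ψ ≫ t = t →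
      φ.left ≫ s = s ≫ spc ψ → (∀ ζ : Ω, ζ ^ n = 1 → ψ ζ ^ Q = ζ) → rsec φ F σ = c • σ →
        ∀ x, res φ F N x = (c * Q ^ d) • x

variable {l n t}

theorem St.iso {N d : ℕ} {T' T : Over P} {s : T.left ⟶ Spec (.of Ω)}
    {s' : T'.left ⟶ Spec (.of Ω)} (e : T' ≅ T) (he : e.hom.left ≫ s = s')
    (h : St l n t N d T s) : St l n t N d T' s' := by
  have hx : ∀ F q (x : H T' F q), res e.hom F q (res e.inv F q x) = x := fun F q x => by
    rw [rr, e.hom_inv_id, rid]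
  refine ⟨fun F hF q hq x => by rw [← hx F q x, h.1 F hF q hq (res _ _ _ x), map_zero],
    fun F hF σ hσ hg => ?_⟩
  obtain ⟨⟨a⟩, h2⟩ := h.2 F hF (rsec e.inv F σ) (by rw [← map_nsmul, hσ, map_zero]) (hg.res _)
  refine ⟨⟨(AddEquiv.ofBijective (res e.hom F N) (pre_bij _ F N)).symm.trans a⟩,
    fun φ ψ Q c h3 h4 h5 h6 x => ?_⟩
  have := h2 (e.inv ≫ φ ≫ e.hom) ψ Q c h3 (by
    rw [Over.comp_left, Over.comp_left, Category.assoc, Category.assoc, he, h4, ← he,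
      ← Category.assoc, ← Category.assoc, ← Over.comp_left, e.inv_hom_id, Over.id_left,
      Category.id_comp]) h5 (by
    refine (res_res F.obj _ _ σ).trans ?_
    rw [Category.assoc, Category.assoc, e.hom_inv_id, Category.comp_id, ← map_nsmul, ← h6]
    exact (res_res F.obj _ _ σ).symm) (res e.inv F N x)
  have h7 := congrArg (res e.hom F N) this
  rwa [map_nsmul, hx, rr, rr, e.hom_inv_id_assoc, Category.assoc, e.hom_inv_id,
    Category.comp_id] at h7

theorem St.base [IsAlgClosed Ω] (x : Spec (.of Ω) ⟶ P) : St l n t 0 0 (Over.mk x) (𝟙 _) := by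
  refine ⟨fun F _ q hq y => ?_, fun F _ σ hσ hg => ?_⟩
  · obtain ⟨q, rfl⟩ := Nat.exists_eq_add_one.2 hq
    exact wc_H (SHL.wc Ω) x F q y
  have h := (congrArg (Fg n) (res_id F.obj σ)).mp (hg Ω x (𝟙 _))
  refine ⟨(h.equiv hσ).map fun a => (h0 _ F).symm.trans a, fun φ ψ Q c _ _ _ h6 y => ?_⟩
  obtain ⟨y, rfl⟩ := (h0 _ F).surjective y
  obtain ⟨k, rfl⟩ := h.1 y
  rw [← h0_res, pow_zero, mul_one, ← map_nsmul, smul_comm, ← h6, map_zsmul]

theorem St.step (h1 : LERP_s) (h2 : GAM_s) (h3 : SMUL_s) (h4 : PBC_s) [Fact l.Prime]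
    [IsAlgClosed Ω] (hn : Lp l n) (hΩ : (l : Ω) ≠ 0) {Y : Scheme.{0}} (L : PL Y) (g : Y ⟶ S)
    (hl : Linv l Y) {N d : ℕ} (h : St l n t N d (fbr g t) (pullback.fst t g)) :
    St l n t (N + 2) (d + 1) ((Over.pullback L.π).obj (fbr g t))
      (pullback.fst _ _ ≫ pullback.fst t g) := by
  obtain ⟨a1, -, a3⟩ := h1 l Y L (fbr g t) hl
  refine ⟨a1 N h.1, fun F hF σ hσ hg => ?_⟩
  obtain ⟨⟨b1⟩, b2⟩ := a3 N F h.1 hF
  obtain ⟨γ, c1, c2⟩ := h2 l n Ω Y L (fbr g t) (pullback.fst t g) hn hl hΩ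
  obtain ⟨M⟩ := h3 L.P n 2
  have hr : ∀ {U : Over L.P} (y : U ⟶ _), n • rsec y F σ = 0 := fun y => by
    rw [← map_nsmul, hσ, map_zero]
  obtain ⟨⟨d1⟩, d2⟩ := h.2 _ (h4 l Y L F 2 hF) (toRq L.π F 2 _ (M.m _ F σ hσ γ))
    (by rw [← map_nsmul, ← map_nsmul, ext_tors (tors n _), map_zero, map_zero])
    fun k _ _ x y => by
      rw [← toRq_res, M.res _ F σ hσ (hr _)]
      have hb := M.bij l _ F Unit (fun _ => rsec ((Over.pullback L.π).map y) F σ)
        (fun _ => hr _) hn hF (hl.of_hom (((Over.pullback L.π).obj (Over.mk x)).hom ≫ L.π))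
        fun k _ _ x' y' => by
          obtain ⟨e1, e2⟩ := hg.res ((Over.pullback L.π).map y) k x' y'
          simp only [Fintype.sum_unique]
          exact ⟨fun z => (e1 z).elim fun c hc => ⟨fun _ => c, hc⟩, fun c hc _ => e2 _ hc⟩
      simp only [Fintype.sum_unique] at hb
      exact (Fg.map (c1 k x y) _ ((Function.Bijective.of_comp_iff _
        (Equiv.funUnique Unit _).bijective).1 hb)).map _ (toRq_bij L.π F 2 x)
  refine ⟨⟨b1.trans d1⟩, fun φ ψ Q c e1 e2 e3 e4 x => ?_⟩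
  have e5 : ((Over.pullback g).map (sph ψ e1)).left ≫ pullback.fst t g =
      pullback.fst t g ≫ spc ψ := pullback.lift_fst _ _ _
  have e6 : φ = (Over.pullback L.π).map ((Over.pullback g).map (sph ψ e1)) := by
    refine Over.OverMorphism.ext (pullback.hom_ext (pullback.hom_ext ?_ ?_) ?_)
    · refine (Category.assoc _ _ _).trans (e2.trans ?_)
      simp [sph]
    · simp only [Category.assoc]
      erw [pullback.condition (f := (fbr g t).hom) (g := L.π)]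
      rw [← Category.assoc, ← Category.assoc]
      exact congrArg (· ≫ L.π) ((Over.w φ).trans (Over.w _).symm)
    · exact (Over.w φ).trans (Over.w _).symm
  subst e6
  have := b2 _ ((c * Q * Q ^ d : ℕ) : ℤ) (fun y => by
    rw [natCast_zsmul]
    refine d2 _ ψ Q (c * Q) e1 e5 e3 ?_ y
    rw [← toRq_res, M.res _ F σ hσ (hr _), c2 _ ψ Q e5 e3, map_nsmul,
      m_nsmul M _ F σ hσ c _ _ e4, map_nsmul, map_nsmul, smul_smul, mul_comm]) x
  rwa [natCast_zsmul, mul_assoc, ← pow_succ'] at this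

theorem St.tower (h1 : LERP_s) (h2 : GAM_s) (h3 : SMUL_s) (h4 : PBC_s) [Fact l.Prime]
    [IsAlgClosed Ω] (hn : Lp l n) {d : ℕ} {g : P ⟶ S} (hg : TwN d g) (hl : Linv l S)
    (t : Spec (.of Ω) ⟶ S) : St l n t (2 * d) d (fbr g t) (pullback.fst t g) := by
  induction hg with
  | iso g h =>
    let e : fbr g t ≅ Over.mk (t ≫ inv g) :=
      Over.isoMk (g := Over.mk (t ≫ inv g)) (asIso (pullback.fst t g)) (by
        simp [pullback.condition_assoc])
    exact (St.base (t ≫ inv g)).iso e (Category.comp_id _)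
  | step L g _ ih =>
    refine (St.step h1 h2 h3 h4 hn (hl Ω t) L g (hl.of_hom g) (ih hl t)).iso
      (Over.isoMk ((IsPullback.of_hasPullback t (L.π ≫ g)).isoIsPullback _ _
        ((IsPullback.of_hasPullback (pullback.snd t g) L.π).paste_horiz
          (IsPullback.of_hasPullback t g))) ?_) ?_
    · exact IsPullback.isoIsPullback_hom_snd _ _ _ _
    · exact IsPullback.isoIsPullback_hom_fst _ _ _ _

end TWS

open TWS in
theorem tws (h1 : LERP_s) (h2 : GAM_s) (h3 : SMUL_s) (h4 : PBC_s) (h5 : LNM_s) : TWS_s := by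
  intro l _ Ω _ _ d n P S g t hn hg hl
  obtain ⟨a1, -, -, -, a5⟩ := h5 P n
  have hu : ∀ {U : Over P} (a b : U ⟶ top P), a = b := Over.mkIdTerminal.hom_ext
  obtain ⟨b1, b2⟩ := (St.tower h1 h2 h3 h4 hn hg hl t).2 _
    (a1 l (top P) hn (inferInstanceAs (Etale (𝟙 P))))
    (rsec (tot _) _ (tau n (top P))) (sec_tors (tors n _) _) fun k _ _ x y => by
      obtain ⟨e, he, -⟩ := a5 k x
      have e1 : e _ (rsec y _ (rsec (tot (fbr g t)) _ (tau n (top P)))) =
          Finsupp.single (y ≫ tot _) 1 := (congrArg _ (res_res _ _ _ _)).trans (he _ _)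
      refine ⟨fun z => ?_, fun c hc => ?_⟩
      · obtain ⟨c, hc⟩ := ZMod.intCast_surjective (e _ z (y ≫ tot _))
        refine ⟨c, (e _).injective (Finsupp.ext fun a => ?_)⟩
        rw [hu a (y ≫ tot _), map_zsmul, e1, ← hc]
        simp
      · have := congrArg (fun z => e _ z (y ≫ tot _)) hc
        simp only [map_zsmul, e1, map_zero] at this
        exact (ZMod.intCast_zmod_eq_zero_iff_dvd c n).1 (by simpa using this)
  refine ⟨b1, fun ψ hψ Q hQ x => ?_⟩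
  have := b2 ((Over.pullback g).map (sph ψ hψ)) ψ Q 1 hψ (pullback.lift_fst _ _ _) hQ (by
    rw [one_nsmul]
    exact (res_res _ _ _ _).trans (by rw [hu (_ ≫ _) (tot _)])) x
  rwa [one_mul] at this

end Pool.Agent.MP_855f4c_ag.E.D

end
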