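import Pool.Agent.MP_855f4c_ag.EC.Db
import Pool.Agent.MP_855f4c_ag.EC.Ub
import Pool.Agent.MP_855f4c_ag.EC.F2f
import Pool.Agent.MP_855f4c_ag.EC.F2c
import Pool.Agent.MP_855f4c_ag.EC.E4d
import Pool.Agent.MP_855f4c_ag.EC.Da
import Pool.Agent.MP_855f4c_ag.EC.Dc

section

set_option autoImplicit false
set_option backward.isDefEq.respectTransparency false

open CategoryTheory Limits Abelian Opposite AlgebraicGeometry Function

namespace Pool.Agent.MP_855f4c_ag.E.D

open E3 E4
open CV (Ln Lm)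

namespace IND
variable {X Y : Scheme.{0}} (p : Y ⟶ X)

/-- Proper base change over a locally noetherian base. -/
theorem rq_cc (hP : PBCX_s) (l : ℕ) [Fact l.Prime] [IsProper p] [IsLocallyNoetherian X]
    {F : Sh (Scheme.etaleTopology.over Y)} (hF : Tc l F) (q : ℕ) : Cc l ((Rq p q).obj F) := by
  refine ⟨LFP.of_locBij (F := (Rq p q).obj F)
    (toSheafify (Scheme.etaleTopology.over X) ((Over.pullback p).op ⋙ HP F q)) (lim_pb p hF.1.1 q), ?_⟩
  intro A k _ _ _ _ φ _ a b h hl
  obtain ⟨R, _, j, ψ, _, -, rfl⟩ := stk_loc a ⊤ trivial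
  have : IsNoetherianRing R :=
    (isLocallyNoetherian_Spec (R := .of R)).1 (isLocallyNoetherian_of_isOpenImmersion j)
  have h1 := hP l R _ _ _ (pullback.snd p j) (pullback.snd p j) (𝟙 _) (𝟙 _)
    (IsPullback.of_horiz_isIso ⟨by simp⟩) ((pb (pullback.fst p j)).obj F) q (pb_tc _ hF)
  have h2 := (h1.1.of_iso ((rqBC (IsPullback.of_hasPullback p j) q).app F).symm).2 A k φ
    (Spec.map (CommRingCat.ofHom ψ)) _ rfl hl
  obtain rfl : b = (Spec.map (CommRingCat.ofHom φ) ≫ Spec.map (CommRingCat.ofHom ψ)) ≫ j := by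
    rw [← h, Category.assoc]
  exact h2

lemma clopen {A B : Scheme.{0}} (c : A ⟶ B) (r : B ⟶ A) [IsSeparated r] (h : c ≫ r = 𝟙 A)
    [Etale c] : IsOpenImmersion c ∧ IsClosed (Set.range c) := by
  have : Mono c := ⟨fun a b e => by simpa [h] using congrArg (· ≫ r) e⟩
  have : IsClosedImmersion (c ≫ r) := by rw [h]; infer_instance
  have := IsClosedImmersion.of_comp c r
  exact ⟨IsOpenImmersion.of_flat_of_mono c, c.isClosedEmbedding.isClosed_range⟩

lemma fin_lifts {k : Type} [Field k] (x : Spec (.of k) ⟶ X) (W : Over X) [Etale W.hom]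
    [CompactSpace W.left] : Finite (Over.mk x ⟶ W) := by
  have : QuasiCompact x := quasiCompact_of_noetherianSpace_source x
  have : CompactSpace ↥(pullback x W.hom) :=
    QuasiCompact.compactSpace_of_compactSpace (pullback.snd x W.hom)
  have : LocallyQuasiFinite (pullback.fst x W.hom) := ⟨fun hU _ hV e => by
    have := (pullback.fst x W.hom).etale_appLE hU hV e
    algebraize [((pullback.fst x W.hom).appLE _ _ e).hom]
    exact inferInstanceAs (Algebra.QuasiFinite _ _)⟩
  have := IsFinite.of_locallyQuasiFinite (pullback.fst x W.hom)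
  have := finite_lifts (pullback.fst x W.hom) (𝟙 _)
  refine Finite.of_injective (β := Over.mk (𝟙 _) ⟶ Over.mk (pullback.fst x W.hom))
    (fun y => Over.homMk (pullback.lift (𝟙 _) y.left (by simp))
      (pullback.lift_fst _ _ _)) fun y y' e => Over.OverMorphism.ext ?_
  simpa using congrArg (fun z => z.left ≫ pullback.snd x W.hom) e

lemma Ln_ext {n : ℕ} {V : Over X} {F : Sh (Scheme.etaleTopology.over X)} {a b : Ln n V ⟶ F}
    (h : a.hom.app _ (tau n V) = b.hom.app _ (tau n V)) : a = b :=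
  (cancel_epi (cokernel.π _)).1 ((frEquiv V F).injective
    ((frEquiv_post _ a).trans (h.trans (frEquiv_post _ b).symm)))

lemma Lm_tau {n : ℕ} {V' V : Over X} (h : V' ⟶ V) :
    (Lm n h).hom.app _ (tau n V') = rsec h _ (tau n V) :=
  (frEquiv_post _ (Lm n h)).symm.trans
    ((congrArg _ (cokernel.π_desc _ _ _)).trans (frEquiv_pre h _))

lemma rr {Z V T : Over X} (g : Z ⟶ V) (f : V ⟶ T) (F : Sh (Scheme.etaleTopology.over X)) (s : sec F T) :
    rsec g F (rsec f F s) = rsec (g ≫ f) F s := res_res F.obj g f s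

/-- `W ×_X Y` over `Y`. -/
noncomputable abbrev WY (W : Over Y) : Over Y := (Over.pullback p).obj ((Over.map p).obj W)

/-- The graph. -/
noncomputable def gr (W : Over Y) : W ⟶ WY p W :=
  Over.homMk (pullback.lift (𝟙 _) W.hom (Category.id_comp _)) (pullback.lift_snd _ _ _)

/-- The first projection. -/
noncomputable def fs (W : Over Y) : (WY p W).left ⟶ W.left := pullback.fst (W.hom ≫ p) p

@[reassoc] lemma gr_fs (W : Over Y) : (gr p W).left ≫ fs p W = 𝟙 _ := pullback.lift_fst _ _ _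

lemma wy_ext {W Z : Over Y} {a b : Z ⟶ WY p W} (h : a.left ≫ fs p W = b.left ≫ fs p W) : a = b :=
  Over.OverMorphism.ext (pullback.hom_ext h ((Over.w a).trans (Over.w b).symm))

@[reassoc] lemma map_fs {V : Over X} {W : Over Y} (y : V ⟶ (Over.map p).obj W) :
    ((Over.pullback p).map y).left ≫ fs p W = pullback.fst V.hom p ≫ y.left :=
  pullback.lift_fst _ _ _

lemma fac {W Z : Over Y} (y : Z ⟶ WY p W) (h : (y.left ≫ fs p W) ≫ W.hom = Z.hom) :
    Over.homMk (y.left ≫ fs p W) h ≫ gr p W = y :=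
  wy_ext p (by simp [gr_fs])

/-- The defining properties of the comparison map. -/
def IsTh (n : ℕ) (W : Over Y) (θ : Ln n ((Over.map p).obj W) ⟶ (pf p).obj (Ln n W)) : Prop :=
  rsec (gr p W) (Ln n W) (θ.hom.app _ (tau n _)) = tau n W ∧
  ∀ (k : Type) [Field k] (u : Spec (.of k) ⟶ Y) (y : Over.mk u ⟶ WY p W),
    (y.left ≫ fs p W) ≫ W.hom ≠ u → rsec y (Ln n W) (θ.hom.app _ (tau n _)) = 0

lemma ex_th [IsSeparated p] (n : ℕ) (W : Over Y) [Etale W.hom] [Etale (W.hom ≫ p)] :
    ∃ θ, IsTh p n W θ := by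
  have : Etale ((gr p W).left ≫ pullback.snd (W.hom ≫ p) p) := by
    rw [show (gr p W).left ≫ pullback.snd (W.hom ≫ p) p = W.hom from Over.w _]; infer_instance
  have := Etale.of_comp (gr p W).left (pullback.snd (W.hom ≫ p) p)
  have : IsSeparated (fs p W) := inferInstanceAs (IsSeparated (pullback.fst _ _))
  obtain ⟨_, hc⟩ := clopen _ _ (gr_fs p W)
  obtain ⟨t, h1, h2⟩ := CLOP.ext0 (gr p W) hc (Ln n W) (tau n W)
  let θ₀ := (frEquiv ((Over.map p).obj W) ((pf p).obj (Ln n W))).symm t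
  have hn : (n : ℤ) • 𝟙 (cokernel ((n : ℤ) • 𝟙 ((fr (Scheme.etaleTopology.over Y)).obj W))) = 0 := by
    rw [← cancel_epi (cokernel.π _), Preadditive.comp_zsmul, Category.comp_id, comp_zero]
    rw [← Category.id_comp (cokernel.π _), ← Preadditive.zsmul_comp, cokernel.condition]
  have h0 : ((n : ℤ) • 𝟙 _) ≫ θ₀ = 0 := by
    rw [Preadditive.zsmul_comp, Category.id_comp, ← Category.comp_id θ₀, ← Preadditive.comp_zsmul,
      ← CategoryTheory.Functor.map_id, ← Functor.map_zsmul,
      show (n : ℤ) • 𝟙 (Ln n W) = 0 from hn, Functor.map_zero, comp_zero]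
  have ht : (cokernel.desc _ θ₀ h0 : Ln n _ ⟶ _).hom.app _ (tau n _) = t :=
    (frEquiv_post _ _).symm.trans
      ((congrArg _ (cokernel.π_desc _ _ _)).trans (AddEquiv.apply_symm_apply _ _))
  refine ⟨cokernel.desc _ θ₀ h0, ht ▸ h1, fun k _ u y hy => ht ▸ h2 _ y fun z hz => hy ?_⟩
  have e := IsOpenImmersion.lift_fac (gr p W).left y.left (by
    rintro _ ⟨w, rfl⟩; rwa [Subsingleton.elim (α := PrimeSpectrum k) w z])
  rw [← e, Category.assoc, Category.assoc, gr_fs_assoc]
  exact (congrArg (_ ≫ ·) (Over.w (gr p W)).symm).trans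
    ((Category.assoc _ _ _).symm.trans ((congrArg (· ≫ _) e).trans (Over.w y)))

variable {p} {l n : ℕ}

lemma IsTh.nat (hl : Linv l Y) {W' W : Over Y} (hc : Cc l (Ln n W)) (h : W' ⟶ W) {θ' θ}
    (h' : IsTh p n W' θ') (hθ : IsTh p n W θ) :
    Lm n ((Over.map p).map h) ≫ θ = θ' ≫ (pf p).map (Lm n h) := by
  refine Ln_ext (sub_eq_zero.1 (E.pt_sec (T := WY p W') hc _ fun t => ?_))
  obtain ⟨k, _, _, u, y, hy⟩ := E.exists_geom _ t
  refine ⟨k, _, ‹_›, u, y, hl k u, hy, ?_⟩
  have e1 : (Lm n ((Over.map p).map h) ≫ θ).hom.app _ (tau n _) =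
      rsec ((Over.pullback p).map ((Over.map p).map h)) (Ln n W) (θ.hom.app _ (tau n _)) :=
    (congrArg (θ.hom.app _) (Lm_tau _)).trans (E.nat θ.hom _ _)
  have e2 : rsec y (Ln n W) ((θ' ≫ (pf p).map (Lm n h)).hom.app _ (tau n _)) =
      (Lm n h).hom.app _ (rsec y (Ln n W') (θ'.hom.app _ (tau n _))) := (E.nat (Lm n h).hom y _).symm
  have e3 : (y ≫ (Over.pullback p).map ((Over.map p).map h)).left ≫ fs p W =
      (y.left ≫ fs p W') ≫ h.left := by
    rw [Over.comp_left, Category.assoc, map_fs, Category.assoc]; rfl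
  change rsec y (Ln n W) (_ - _) = 0
  rw [map_sub, e2, e1, rr, sub_eq_zero]
  by_cases hy : (y.left ≫ fs p W') ≫ W'.hom = u
  · have e4 : y ≫ (Over.pullback p).map ((Over.map p).map h) =
        (Over.homMk (y.left ≫ fs p W') hy ≫ h) ≫ gr p W := wy_ext p (e3.trans (by simp [gr_fs]))
    rw [e4, ← rr, hθ.1, ← rr, ← Lm_tau]
    conv_rhs => rw [← fac p y hy, ← rr, h'.1]
    exact (E.nat (Lm n h).hom _ _).symm
  · rw [h'.2 k u y hy, map_zero, hθ.2 k u _ (by rwa [e3, Category.assoc, Over.w h])]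

section pt
variable {k : Type} [Field k] [IsAlgClosed k] (x : Spec (.of k) ⟶ X)

/-- A rational point of the fibre. -/
noncomputable def cp (a : Spec (.of k) ⟶ Y) (ha : a ≫ p = x) : Over.mk a ⟶ fbr p x :=
  Over.homMk (pullback.lift (𝟙 _) a (by simpa using ha.symm)) (pullback.lift_snd _ _ _)

omit [IsAlgClosed k] in
@[reassoc] lemma cp_fst (a : Spec (.of k) ⟶ Y) (ha : a ≫ p = x) :
    (cp x a ha).left ≫ pullback.fst x p = 𝟙 _ := pullback.lift_fst _ _ _

/-- Geometric points of the fibre that lift to `W` come from rational points. -/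
lemma lift_pt {W : Over Y} [Etale (W.hom ≫ p)] {K : Type} [Field K] {u : Spec (.of K) ⟶ Y}
    (y : Over.mk u ⟶ fbr p x) (v : Over.mk u ⟶ W) :
    ∃ (w : Over.mk x ⟶ (Over.map p).obj W) (z : Over.mk u ⟶ Over.mk (w.left ≫ W.hom)),
      z ≫ cp x _ ((Category.assoc _ _ _).trans (Over.w w)) = y := by
  obtain ⟨φ, hφ⟩ := Spec.map_surjective (R := .of k) (S := .of K) (y.left ≫ pullback.fst x p)
  have : IsLocalHom φ.hom := ⟨fun a ha => by
    rcases eq_or_ne a 0 with rfl | h
    · simp at ha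
    · exact h.isUnit⟩
  have hv : v.left ≫ W.hom = u := Over.w v
  have hy : y.left ≫ pullback.snd x p = u := Over.w y
  obtain ⟨w, hw, hw'⟩ := shl_lift φ.hom (W.hom ≫ p) x v.left (by
    rw [← Category.assoc, hv, CommRingCat.ofHom_hom, hφ, Category.assoc, pullback.condition,
      ← Category.assoc, hy])
  rw [CommRingCat.ofHom_hom] at hw'
  refine ⟨Over.homMk w hw, Over.homMk (Spec.map φ) (by
    change Spec.map φ ≫ w ≫ W.hom = u
    rw [← Category.assoc, hw', hv]), Over.OverMorphism.ext (pullback.hom_ext ?_ ?_)⟩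
  · exact (Category.assoc _ _ _).trans ((congrArg (_ ≫ ·) (cp_fst x _ _)).trans
      ((Category.comp_id _).trans hφ))
  · exact (Over.w (_ ≫ cp x _ _)).trans hy.symm

variable {W : Over Y} [Etale W.hom] [Etale (W.hom ≫ p)]

omit [IsAlgClosed k] in
lemma cp_clopen [IsSeparated p] (w : Over.mk x ⟶ (Over.map p).obj W)
    (ha : (w.left ≫ W.hom) ≫ p = x) :
    IsOpenImmersion (cp x (w.left ≫ W.hom) ha).left ∧
      IsClosed (Set.range (cp x (w.left ≫ W.hom) ha).left) := by
  let σ : Spec (.of k) ⟶ pullback x (W.hom ≫ p) :=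
    pullback.lift (𝟙 _) w.left ((Category.id_comp _).trans (Over.w w).symm)
  have : Etale (σ ≫ pullback.fst _ _) := by rw [pullback.lift_fst]; infer_instance
  have := Etale.of_comp σ (pullback.fst x (W.hom ≫ p))
  have h := MorphismProperty.pullbackMap (P := @Etale) (f := x) (g := W.hom ≫ p) (f' := x) (g' := p)
    (i₁ := 𝟙 _) (i₂ := W.hom) inferInstance inferInstance (Category.id_comp _).symm rfl
  have e : (cp x (w.left ≫ W.hom) ha).left = σ ≫ pullback.map x (W.hom ≫ p) x p (𝟙 _) W.hom (𝟙 _)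
      ((Category.comp_id _).trans (Category.id_comp _).symm) (Category.comp_id _) :=
    pullback.hom_ext (by simp [σ, cp]) (by simp [σ, cp])
  have : Etale (cp x (w.left ≫ W.hom) ha).left := by rw [e]; infer_instance
  exact clopen _ (pullback.fst x p) (cp_fst x _ ha)

end pt

lemma stalk0 (h2 : LNM_s) {K : Type} [Field K] [IsAlgClosed K] {u : Spec (.of K) ⟶ Y} {W : Over Y}
    (h : IsEmpty (Over.mk u ⟶ W)) (s : sec (Ln n W) (Over.mk u)) : s = 0 := by
  obtain ⟨e, -⟩ := (h2 Y n).2.2.2.2 K u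
  exact (e W).injective (Subsingleton.elim _ _)

variable [Fact l.Prime] [IsProper p] (h2 : LNM_s) (hn : Lp l n) (hl : Linv l X) {W : Over Y}
  [Etale W.hom] [Etale (W.hom ≫ p)] [CompactSpace W.left]
  {k : Type} [Field k] [IsAlgClosed k] (x : Spec (.of k) ⟶ X)
include h2 hn hl

lemma fib_H (q : ℕ) (s : H (fbr p x) (Ln n W) (q + 1)) : s = 0 := by
  have : Etale ((Over.map p).obj W).hom := ‹Etale (W.hom ≫ p)›
  have : CompactSpace ((Over.map p).obj W).left := ‹CompactSpace W.left›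
  have := fin_lifts x ((Over.map p).obj W)
  let c (w : Over.mk x ⟶ (Over.map p).obj W) :=
    cp x (w.left ≫ W.hom) ((Category.assoc _ _ _).trans (Over.w w))
  have hc w := cp_clopen (p := p) (W := W) x w ((Category.assoc _ _ _).trans (Over.w w))
  let O : (fbr p x).left.Opens := ⟨(⋃ w, Set.range (c w).left)ᶜ,
    (isClosed_iUnion_of_finite fun w => (hc w).2).isOpen_compl⟩
  let ρ := O.ι ≫ (fbr p x).hom
  have hz : IsZero ((pb ρ).obj (Ln n W)) := by
    refine pt_isZero ((hl.of_hom p).of_hom ρ) (pb_cc ρ ((h2 Y n).1 l W hn ‹_›).1) fun t => ?_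
    obtain ⟨K, _, _, z, hz⟩ := stk_geom _ t
    refine ⟨K, _, ‹_›, z, ⟨default, hz _⟩, stalk0 h2 (u := z ≫ ρ) ⟨fun v => ?_⟩⟩
    obtain ⟨w, y, e⟩ := lift_pt x (Over.homMk (z ≫ O.ι) (Category.assoc _ _ _)) v
    refine (z default).2 (Set.mem_iUnion.2 ⟨w, y.left (default : Spec (.of K)), ?_⟩)
    exact (Scheme.Hom.comp_apply _ _ _).symm.trans
      ((congrArg (fun a => a.left (default : Spec (.of K))) e).trans (Scheme.Hom.comp_apply _ _ _))
  refine (clop Y (fbr p x) (Ln n W) (q + 1)).2 (Option (Over.mk x ⟶ (Over.map p).obj W))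
    (fun a => a.elim ((Over.map ρ).obj (top _)) fun w => Over.mk (w.left ≫ W.hom))
    (fun a => match a with
      | none => Over.homMk O.ι (Category.id_comp _).symm
      | some w => c w) ?_ (fun z => ?_) s ?_
  · rintro (_ | w)
    · refine ⟨inferInstanceAs (IsOpenImmersion O.ι), ?_⟩
      change IsClosed (Set.range O.ι)
      rw [Scheme.Opens.range_ι]
      exact (isOpen_iUnion fun w => have := (hc w).1
        (c w).left.isOpenEmbedding.isOpen_range).isClosed_compl
    · exact hc w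
  · by_cases hz : z ∈ O
    · exact ⟨none, ⟨z, hz⟩, rfl⟩
    · obtain ⟨w, hw⟩ := Set.mem_iUnion.1 (not_not.1 hz)
      exact ⟨some w, hw⟩
  · rintro (_ | w)
    · have := hz.injective
      exact (slH_bij ρ (top _) _ _).1 ((Ext.eq_zero_of_injective _).trans (map_zero _).symm)
    · exact wc_H (SHL.wc k) _ _ _ _

omit [CompactSpace W.left] [Etale W.hom] [IsProper p] in
lemma fib_sec (hW : Etale W.hom) (s : sec (Ln n W) (fbr p x))
    (h : ∀ a ha, rsec (cp x a ha) _ s = 0) : s = 0 := by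
  refine E.pt_sec ((h2 Y n).1 l W hn hW).1 s fun t => ?_
  obtain ⟨K, _, _, u, y, hy⟩ := E.exists_geom _ t
  refine ⟨K, _, ‹_›, u, y, hl.of_hom p K u, hy, ?_⟩
  rcases isEmpty_or_nonempty (Over.mk u ⟶ W) with he | ⟨⟨v⟩⟩
  · exact stalk0 h2 he _
  · obtain ⟨w, z, rfl⟩ := lift_pt x y v
    exact (rr _ _ _ s).symm.trans ((congrArg _ (h _ _)).trans (map_zero _))

omit [IsProper p] in
lemma IsTh.bij {θ} (hθ : IsTh p n W θ) : Bijective (θ.hom.app (op (Over.mk x))) := by
  have : Etale ((Over.map p).obj W).hom := ‹Etale (W.hom ≫ p)›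
  have : CompactSpace ((Over.map p).obj W).left := ‹CompactSpace W.left›
  have := fin_lifts x ((Over.map p).obj W)
  choose e he _ using (h2 Y n).2.2.2.2 k
  obtain ⟨e', he', -⟩ := (h2 X n).2.2.2.2 k x
  let φ (a : Spec (.of k) ⟶ Y) (ha : a ≫ p = x) (v : Over.mk a ⟶ W) :
      sec (Ln n W) (fbr p x) →+ ZMod n :=
    (Finsupp.applyAddHom v).comp ((e a W).toAddMonoidHom.comp (rsec (cp x a ha) _))
  let yv (a : Spec (.of k) ⟶ Y) (ha : a ≫ p = x) (v : Over.mk a ⟶ W) :
      Over.mk x ⟶ (Over.map p).obj W :=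
    Over.homMk v.left ((Category.assoc _ _ _).symm.trans ((congrArg (· ≫ p) (Over.w v)).trans ha))
  have key a ha v s : φ a ha v (θ.hom.app (op (Over.mk x)) s) = e' _ s (yv a ha v) := by
    obtain ⟨f, rfl⟩ := (e' _).symm.surjective s
    refine DFunLike.congr_fun (Finsupp.addHom_ext (f := (φ a ha v).comp
      ((θ.hom.app _).hom.comp (e' _).symm.toAddMonoidHom)) (g := (Finsupp.applyAddHom _).comp
        ((e' _).toAddMonoidHom.comp (e' _).symm.toAddMonoidHom)) fun y c => ?_) f
    obtain ⟨c, rfl⟩ := ZMod.intCast_surjective c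
    rw [show Finsupp.single y (c : ZMod n) = c • Finsupp.single y 1 by simp, map_zsmul, map_zsmul]
    congr 1
    have e1 : (cp x a ha ≫ (Over.pullback p).map y).left ≫ fs p W = y.left := by
      rw [Over.comp_left, Category.assoc, map_fs]
      exact (cp_fst_assoc x a ha _)
    have e2 : φ a ha v (θ.hom.app _ ((e' _).symm (Finsupp.single y 1))) =
        e a W (rsec (cp x a ha ≫ (Over.pullback p).map y) _ (θ.hom.app _ (tau n _))) v := by
      rw [← he', AddEquiv.symm_apply_apply, ← rr]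
      exact congrArg (φ a ha v) (E.nat θ.hom y _)
    refine e2.trans (Eq.trans ?_ (congrArg (· (yv a ha v)) ((e' _).apply_symm_apply _)).symm)
    classical
    by_cases hy : y.left ≫ W.hom = a
    · rw [← fac p (cp x a ha ≫ (Over.pullback p).map y) (e1.symm ▸ hy), ← rr, hθ.1, he,
        Finsupp.single_apply, Finsupp.single_apply]
      exact if_congr ⟨fun h => Over.OverMorphism.ext (e1.symm.trans (congrArg (·.left) h)),
        fun h => Over.OverMorphism.ext (e1.trans (congrArg (·.left) h))⟩ rfl rfl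
    · rw [hθ.2 k a _ (e1.symm ▸ hy), map_zero, Finsupp.single_eq_of_ne' fun h => hy ?_]
      · rfl
      · exact h ▸ Over.w v
  refine ⟨(injective_iff_map_eq_zero (θ.hom.app _).hom).2 fun s hs => (e' _).injective
    (Finsupp.ext fun w => ?_), fun t => ?_⟩
  · have := key _ ((Category.assoc _ _ _).trans (Over.w w)) (Over.homMk w.left rfl) s
    rw [show θ.hom.app _ s = 0 from hs, map_zero] at this
    rw [map_zero]
    exact this.symm
  · refine ⟨(e' _).symm (Finsupp.equivFunOnFinite.symm fun w =>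
      φ _ ((Category.assoc _ _ _).trans (Over.w w)) (Over.homMk w.left rfl) t),
      sub_eq_zero.1 (fib_sec (W := W) h2 hn hl x ‹_› _ fun a ha => (e a W).injective
        (Finsupp.ext fun v => ?_))⟩
    rw [map_zero]
    change φ a ha v _ = 0
    rw [map_sub, key, AddEquiv.apply_symm_apply, sub_eq_zero]
    obtain ⟨v, rfl, rfl⟩ : ∃ (v₀ : Spec (.of k) ⟶ W.left) (h : v₀ ≫ W.hom = a),
      v = Over.homMk v₀ h := ⟨v.left, Over.w v, rfl⟩
    rfl

end IND

open IND in
theorem ind (h1 : PBCX_s) (h2 : LNM_s) : IND_s := by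
  intro l _ X Y p _ _ n q hn hl
  let θ (W : Over Y) (a : Aet W) (b : Etale (W.hom ≫ p)) := (@ex_th _ _ p _ n W a.1 b).choose
  have hθ W a b : IsTh p n W (θ W a b) := (@ex_th _ _ p _ n W a.1 b).choose_spec
  have hb W a b T : Bijective ((ledge p T (Ln n W) q).comp (Hmap (θ W a b) T q)) := by
    have := a.1
    have := a.2
    have := b
    have hT := (h2 Y n).1 l W hn a.1
    have : IsIso (θ W a b) := pt_iso hl ((h2 X n).1 l _ hn b).1
      ((rq_cc p h1 l hT 0).of_iso ((rq0 p).app _).symm) _ fun t => by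
        obtain ⟨k, _, _, x, hx⟩ := stk_geom X t
        exact ⟨k, _, ‹_›, x, ⟨default, hx _⟩, (hθ W a b).bij h2 hn hl x⟩
    refine (ledge_bij p T (Ln n W) (fun i j y => ?_) q).comp (post_bij _ (θ W a b) q)
    have hz := pt_isZero hl (rq_cc p h1 l hT (j + 1)) fun t => by
      obtain ⟨k, _, _, x, hx⟩ := stk_geom X t
      refine ⟨k, _, ‹_›, x, ⟨default, hx _⟩, fun s => ?_⟩
      obtain ⟨s, rfl⟩ := (toRq_bij p _ _ x).2 s
      rw [fib_H h2 hn hl x j s, map_zero]
    rw [← Ext.comp_mk₀_id y, hz.eq_of_src (𝟙 _) 0, Ext.mk₀_zero, Ext.comp_zero]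
  refine ⟨fun W a b T => AddEquiv.ofBijective _ (hb W a b T), fun W' W h a' b' a b T x => ?_,
    fun W a b T' T g x => ?_⟩
  · change ledge p T _ q (Hmap _ T q (Hmap _ T q x)) = Hmap _ _ q (ledge p T _ q (Hmap _ T q x))
    rw [← ledge_map]
    exact congrArg _ ((post_post _ _ x).trans ((congrArg (post _ · q x) ((hθ W' a' b').nat
      (hl.of_hom p) ((h2 Y n).1 l W hn a.1).1 h (hθ W a b))).trans (post_post _ _ x).symm))
  · change ledge p T' _ q (Hmap _ T' q (res g _ q x)) = res _ _ q (ledge p T _ q (Hmap _ T q x))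
    rw [← ledge_res, Hmap_res]

end Pool.Agent.MP_855f4c_ag.E.D

end

section

set_option autoImplicit false
set_option backward.isDefEq.respectTransparency false

open CategoryTheory Limits Abelian Opposite AlgebraicGeometry

namespace Pool.Agent.MP_855f4c_ag.E.D

open E3 E4
open CV (Ln Lm)

namespace K0

/-- A locally integral scheme is covered by integral clopen parts. -/
lemma comp {W : Scheme.{0}} (h : ∀ x : W, ∃ U : W.Opens, x ∈ U ∧ IsAffineOpen U ∧ IsIntegral U)
    (x : W) : ∃ C : W.Opens, x ∈ C ∧ IsClosed (C : Set W) ∧ IsIntegral C := by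
  have hi (U : W.Opens) (_ : IsIntegral U) : IsIrreducible (U : Set W) :=
    isIrreducible_iff_irreducibleSpace.2 (inferInstanceAs (IrreducibleSpace U.toScheme))
  have : IsReduced W := by
    choose U h1 _ h3 using h
    exact (IsReduced.iff_of_openCover _ (W.openCoverOfIsOpenCover U
      (eq_top_iff.2 fun x _ => TopologicalSpace.Opens.mem_iSup.2 ⟨x, h1 x⟩))).2 fun i =>
        have := h3 i
        inferInstanceAs (IsReduced (U i).toScheme)
  obtain ⟨U, hU, -, h1⟩ := h x
  let C : W.Opens := ⟨closure U, isOpen_iff_forall_mem_open.2 fun y hy => by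
    obtain ⟨V, hV, -, h2⟩ := h y
    exact ⟨V, (subset_closure_inter_of_isPreirreducible_of_isOpen (hi V h2).2 U.2
      (mem_closure_iff.1 hy V V.2 hV)).trans (closure_mono Set.inter_subset_right), V.2, hV⟩⟩
  have : IrreducibleSpace C.toScheme := Subtype.irreducibleSpace (hi U h1).closure
  exact ⟨C, subset_closure hU, isClosed_closure, isIntegral_of_irreducibleSpace_of_isReduced _⟩

variable {X : Scheme.{0}} {l n : ℕ}

/-- A section of `Ln n W` vanishes if its components on the clopen parts do. -/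
lemma van (h5 : LNM_s) (hl : Linv l X) {W T : Over X} (hW : Cc l (Ln n W))
    (h : ∀ w : W.left, ∃ (C : Over X) (c : C ⟶ W), IsOpenImmersion c.left ∧
      IsClosed (Set.range c.left) ∧ w ∈ Set.range c.left ∧ ∀ z : H T (Ln n C) 0, z = 0)
    (z : H T (Ln n W) 0) : z = 0 := by
  classical
  obtain ⟨a, rfl⟩ := Ext.addEquiv₀.symm.surjective z
  suffices a = 0 by rw [this, map_zero]
  refine (frEquiv _ _).injective ((pt_sec hW _ fun t => ?_).trans (map_zero _).symm)
  obtain ⟨k, _, _, x, y, ht⟩ := exists_geom T t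
  refine ⟨k, _, ‹_›, x, y, hl k x, ht, ?_⟩
  obtain ⟨e, he, -⟩ := (h5 X n).2.2.2.2 k x
  refine (e W).injective (Finsupp.ext fun w => ?_)
  obtain ⟨C, c, _, h1, h2, h3⟩ := h (w.left (IsLocalRing.closedPoint k))
  obtain ⟨r, r1, r2⟩ := CLOP.split c h1
  let p : Ln n W ⟶ Ln n C := cokernel.map _ _ r r (by simp)
  have h4 : a ≫ p = 0 := Ext.addEquiv₀.symm.injective ((h3 _).trans (map_zero _).symm)
  obtain ⟨π, hπ, e0⟩ : ∃ π : (fr (Scheme.etaleTopology.over X)).obj W ⟶ Ln n W, frEquiv _ _ π = tau n W ∧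
      π ≫ p ≫ Lm n c = r ≫ (fr _).map c ≫ π := ⟨cokernel.π _, rfl, by simp [p, Lm]⟩
  have key (f : (Over.mk x ⟶ W) →₀ ZMod n) :
      e W ((p ≫ Lm n c).hom.app _ ((e W).symm f)) w = f w := by
    induction f using Finsupp.induction_linear with
    | zero => rw [map_zero, map_zero, map_zero]
    | add f g hf hg => rw [map_add, map_add, map_add, Finsupp.add_apply, hf, hg, Finsupp.add_apply]
    | single v m =>
      obtain ⟨m, rfl⟩ := ZMod.intCast_surjective m
      have e1 : (e W).symm (Finsupp.single v 1) = frEquiv _ _ ((fr _).map v ≫ π) :=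
        (e W).symm_apply_eq.2 (by rw [frEquiv_pre, hπ, he])
      rw [← zsmul_one, ← Finsupp.smul_single, map_zsmul, map_zsmul, map_zsmul, Finsupp.smul_apply,
        Finsupp.smul_apply, e1, ← frEquiv_post, Category.assoc, e0]
      congr 1
      by_cases hv : v.left (IsLocalRing.closedPoint k) ∈ Set.range c.left
      · have hr : Set.range v.left ⊆ Set.range c.left := by
          rintro _ ⟨z, rfl⟩
          rwa [Subsingleton.elim (α := PrimeSpectrum k) z (IsLocalRing.closedPoint k)]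
        obtain ⟨u, rfl⟩ : ∃ u : Over.mk x ⟶ C, u ≫ c = v :=
          ⟨Over.homMk (IsOpenImmersion.lift c.left v.left hr) (by
            rw [← Over.w c, IsOpenImmersion.lift_fac_assoc, Over.w v]),
            Over.OverMorphism.ext (IsOpenImmersion.lift_fac _ _ _)⟩
        rw [Functor.map_comp, Category.assoc, reassoc_of% r1, ← Functor.map_comp_assoc, ← e1,
          AddEquiv.apply_symm_apply]
      · rw [reassoc_of% (r2 _ v fun z => by
          rwa [Subsingleton.elim (α := PrimeSpectrum k) z (IsLocalRing.closedPoint k)]),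
          zero_comp, map_zero, map_zero, Finsupp.zero_apply,
          Finsupp.single_eq_of_ne (fun h : w = v => hv (h ▸ h2))]
  rw [← key, AddEquiv.symm_apply_apply, ← frEquiv_pre, ← frEquiv_post, Category.assoc,
    reassoc_of% h4, zero_comp, comp_zero, map_zero, map_zero]

end K0

theorem k0 (h1 : PBC_s) (h2 : SLW_s) (h3 : CV.CURVE_s) (h4 : INTB_s) (h5 : LNM_s) : K0_s := by
  intro l _ S L W hS hl hW
  have hp : Lp l l := ⟨1, (pow_one l).symm⟩
  refine pt_isZero hl (h1 l S L _ 0 ((h5 _ l).1 l W hp hW.1)).1 fun s => ?_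
  obtain ⟨k, _, _, t, ht⟩ := stk_geom S s
  refine ⟨k, _, ‹_›, t, ⟨IsLocalRing.closedPoint k, ht _⟩, fun z => ?_⟩
  obtain ⟨z, rfl⟩ := (rqη_bij L.π _ 0 t).2 z
  obtain ⟨e, -⟩ := h2 L.P l 0 (fbr L.π t)
  let L' : PL (Spec (.of k)) := L.bc (Over.mk t)
  let W' : Over L'.P := (Over.pullback (fbr L.π t).hom).obj W
  have := hW.1
  have := hW.2
  have := hS.1
  have : IsAffineHom (t ≫ terminal.from S) := by rw [terminal.comp_from]; infer_instance
  have : IsAffineHom t := .of_comp t (terminal.from S)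
  have : Etale W'.hom := inferInstanceAs (Etale (pullback.snd W.hom (pullback.snd t L.π)))
  have : IsAffineHom (pullback.snd t L.π) := MorphismProperty.pullback_snd _ _ ‹_›
  have : IsAffineHom (pullback.fst W.hom (pullback.snd t L.π)) :=
    MorphismProperty.pullback_fst _ _ ‹_›
  have : IsAffine W'.left := isAffine_of_isAffineHom (pullback.fst W.hom (pullback.snd t L.π))
  have := TWF.pl_smooth L'
  have h6 : e W z = 0 := K0.van h5 (hl.of_hom (L'.π ≫ t)) (W := W') ((h5 _ l).1 l W' hp ‹_›).1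
    (fun w => by
      obtain ⟨C, c1, c2, _⟩ := K0.comp (h4 k _ (W'.hom ≫ L'.π)) w
      have hc : IsClosed (Set.range C.ι) := by rwa [Scheme.Opens.range_ι]
      have : IsClosedImmersion C.ι := .of_isPreimmersion _ hc
      have : Etale (Over.mk (C.ι ≫ W'.hom)).hom := inferInstanceAs (Etale (C.ι ≫ W'.hom))
      have : IsAffine (Over.mk (C.ι ≫ W'.hom)).left := isAffine_of_isAffineHom C.ι
      have : IsIntegral (Over.mk (C.ι ≫ W'.hom)).left := ‹_›
      exact ⟨Over.mk (C.ι ≫ W'.hom), Over.homMk C.ι rfl, inferInstanceAs (IsOpenImmersion C.ι), hc,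
        ⟨⟨w, c1⟩, rfl⟩, (h3 l k (hl k t) L' _ (tot _)).1⟩) _
  rw [(e W).injective (h6.trans (map_zero _).symm)]
  exact map_zero _

end Pool.Agent.MP_855f4c_ag.E.D

end

section

/-! h86e section D, row CDZS: cohomological dimension of the projective line over a base. -/

set_option autoImplicit false
set_option backward.isDefEq.respectTransparency false

open CategoryTheory Limits Abelian Opposite AlgebraicGeometry

namespace Pool.Agent.MP_855f4c_ag.E.D

open E3 E4

namespace CDZS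

/-- A transcendental point of the fibre over a dense point is dense. -/
lemma dense {S : Scheme.{0}} (L : PL S) {k Ω : Type} [Field k] [Field Ω] [Algebra k Ω]
    (t : Spec (.of k) ⟶ S) (ht : ∀ z, Dense ({t z} : Set S)) {x : Ω} (hx : Transcendental k x)
    (z : Spec (.of Ω)) :
    Dense ({L.pnt (spc (algebraMap k Ω) ≫ t) (pt1 x) z} : Set L.P) := by
  have := TWF.pl_smooth L
  refine dense_iff_inter_open.2 fun U hU hne => ⟨_, ?_, rfl⟩
  obtain ⟨_, ⟨u, hu, rfl⟩, h1⟩ := dense_iff_inter_open.1 (ht (IsLocalRing.closedPoint k)) _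
    (L.π.isOpenMap U hU) (hne.image _)
  obtain ⟨w, rfl⟩ := (pb_mem_range (L.bc_isPullback (Over.mk t)) u).2 ⟨_, h1.symm⟩
  have h2 := EPI2.gen (L.bc (Over.mk t)) hx z (hU.preimage (L.bcp (Over.mk t)).continuous) ⟨w, hu⟩
  rwa [Set.mem_preimage, ← Scheme.Hom.comp_apply, PL.bc_pnt] at h2

lemma gzr (h3 : GZ_s) (l : ℕ) [Fact l.Prime] {S : Scheme.{0}} (L : PL S) (hl : Linv l S)
    (F : Sh (Scheme.etaleTopology.over L.P)) (hF : Tc l F) (hz : GZr F) (b : ℕ) : GZr ((Rq L.π (b + 1)).obj F) := by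
  intro k _ _ x hx s
  obtain ⟨a, rfl⟩ := shl_surj x
    (toSheafify (Scheme.etaleTopology.over S) ((Over.pullback L.π).op ⋙ (HPF (b + 1)).obj F)) s
  rw [h3 l S L F hF k x (hl k x) (fun Ω _ _ _ ξ hξ => hz Ω _ (dense L x hx hξ)) b a]
  exact map_zero _

end CDZS

open CDZS

theorem cdzs (h0 : LERP_s) (h1 : PBC_s) (h3 : GZ_s) : CDZS_s := by
  intro l _ S L N hl c1 c2
  obtain ⟨ha, hb, -⟩ := h0 l S L (top S) hl
  refine ⟨fun F hF q hq x => (CDG.tot_bij L.π F q).1
      ((ha N c1 F hF q hq _).trans (map_zero _).symm),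
    fun F hF hz q hq x => (CDG.tot_bij L.π F q).1 (Eq.trans ?_ (map_zero _).symm)⟩
  have := hb F F F F (𝟙 F) (𝟙 F) (𝟙 F) q hF
    (fun a e y => c2 _ (h1 l S L F 2 hF) (gzr h3 l L hl F hF hz 1) a (by omega) _)
    (fun a e y => c2 _ (h1 l S L F 1 hF) (gzr h3 l L hl F hF hz 0) a (by omega) _)
    (fun y => c1 _ (h1 l S L F 0 hF) q (by omega) _)
    (res (tot ((Over.pullback L.π).obj (top S))) F q x)
  rw [Category.id_comp, Category.id_comp] at this
  exact (Ext.comp_mk₀_id _).symm.trans this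

end Pool.Agent.MP_855f4c_ag.E.D

end
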