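import Pool.Agent.MP_855f4c_ag.EC.Da
import Pool.Agent.MP_855f4c_ag.EC.DUa
import Pool.Agent.MP_855f4c_ag.EC.Db
import Pool.Agent.MP_855f4c_ag.EC.Dd
import Pool.Agent.MP_855f4c_ag.EC.E4d
import Pool.Agent.MP_855f4c_ag.EC.Zb
import Pool.Agent.MP_855f4c_ag.EC.Xb
import Pool.Agent.MP_855f4c_ag.EC.De
import Pool.Agent.MP_855f4c_ag.EC.Sa
import Pool.Agent.MP_855f4c_ag.EC.F2b

section

/-! h86e section D, row K1: `H¹_c` of a fibre is dual to the `l`-torsion of `H¹`. -/

set_option autoImplicit false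
set_option backward.isDefEq.respectTransparency false

open CategoryTheory Limits Abelian Opposite AlgebraicGeometry Function

namespace Pool.Agent.MP_855f4c_ag.E.D

open E3 E4
open CV (Ln Lm)

attribute [local irreducible] Ext.comp Ext.mk₀ Ext.mapExactFunctor ShortComplex.ShortExact.extClass

namespace K1

variable {X Y : Scheme.{0}} {l : ℕ} [Fact l.Prime]

lemma pre_smul {C : Type 2} [Category.{1} C] [Abelian C] [HasExt.{1} C] {A F : C} (n q : ℕ)
    (x : Ext.{1} A F q) : pre ((n : ℤ) • 𝟙 A) F q x = n • x := by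
  rw [natCast_zsmul, pre_apply]
  induction n with
  | zero => simp
  | succ m ih => rw [succ_nsmul, succ_nsmul, Ext.mk₀_add, Ext.add_comp, ih, Ext.mk₀_id_comp]

/-- Sections of `ℚ_l / ℤ_l` are divisible. -/
lemma linf_div (T : Over X) (s : sec (Linf l X) T) : ∃ s', l • s' = s := by
  let M : Ab.{1} := .of (ULift.{1} (QZ l))
  have h1 : Bijective (((cstIso X).hom.app M).hom.app (op T)) :=
    ConcreteCategory.bijective_of_isIso
      (((sheafToPresheaf _ _).map ((cstIso X).hom.app M)).app (op T))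
  have hd (m : M) : ∃ m', l • m' = m := by
    obtain ⟨x, hx⟩ := QuotientAddGroup.mk_surjective m.down
    refine ⟨⟨(QuotientAddGroup.mk (x / l) : QZ l)⟩, ULift.ext _ _ (Eq.trans ?_ hx)⟩
    change l • (QuotientAddGroup.mk (x / l) : QZ l) = _
    rw [← QuotientAddGroup.mk_nsmul, nsmul_eq_mul,
      mul_div_cancel₀ _ (Nat.cast_ne_zero.2 (Fact.out : l.Prime).ne_zero)]
  choose d hd using hd
  obtain ⟨s', hs⟩ := h1.2 (LocallyConstant.map d (((cstIso X).hom.app M).hom.app (op T) s))
  exact ⟨s', h1.1 ((map_nsmul _ _ _).trans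
    ((congrArg (l • ·) hs).trans (LocallyConstant.ext fun z => hd _)))⟩

lemma tau_inj (U : Over X) (x : Ext (Ln l U) (Linf l X) 1) (hx : pre (lnS l U).g _ 1 x = 0) :
    x = 0 := by
  have h := con_les (lnS_exact (Fact.out : l.Prime).ne_zero U) (Linf l X)
  obtain ⟨y, rfl⟩ := (h.e₁ 0 x).1 hx
  obtain ⟨φ, rfl⟩ := (Ext.mk₀_bijective _ _).2 y
  obtain ⟨s, hs⟩ := linf_div U (frEquiv U _ φ)
  obtain ⟨s, rfl⟩ := (frEquiv U _).surjective s
  obtain rfl : l • s = φ := (frEquiv U _).injective ((map_nsmul _ _ _).trans hs)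
  exact (h.e₃ 0 _).2 ⟨Ext.mk₀ s, (pre_smul l 0 _).trans (map_nsmul Ext.addEquiv₀.symm l s).symm⟩

lemma tau_tor (U : Over X) (y : H U (Linf l X) 1) :
    l • y = 0 ↔ ∃ x, pre (lnS l U).g _ 1 x = y :=
  Iff.trans (by rw [← pre_smul]; rfl)
    ((con_les (lnS_exact (Fact.out : l.Prime).ne_zero U) (Linf l X)).e₂ 1 y)

lemma core {t : H (top X) (Linf l X) 2 →+ QZ l} (ht : PDt l t) (U : Over X)
    (hU : Tc l (Ln l U)) :
    (Finite (H (top X) (Ln l U) 1) → {y : H U (Linf l X) 1 | l • y = 0}.Finite) ∧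
    ∀ (U' : Over X) (g : U' ⟶ U), (∀ y : H U (Linf l X) 1, l • y = 0 → res g _ 1 y = 0) →
      ∀ x : H (top X) (Ln l U') 1, Hmap (Lm l g) _ 1 x = 0 := by
  have hb := ht _ hU 1 1 rfl
  refine ⟨fun _ => ?_, fun U' g hg x => ?_⟩
  · have := (cof_QZ (l := l)).2.to_subtype
    have : Finite (H (top X) (Ln l U) 1 →+ QZ l) := .of_injective
      (fun f z => (⟨f z, (map_nsmul f l z).symm.trans (by rw [CONN.h_tor, map_zero])⟩ :
        {m : QZ l | l • m = 0})) fun f f' e =>
          AddMonoidHom.ext fun z => congrArg Subtype.val (congrFun e z)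
    have : Finite (Ext (lnS l U).X₃ (Linf l X) 1) := Finite.of_injective _ hb.1
    exact (Set.finite_range _).subset fun y hy => (tau_tor U y).1 hy
  · refine CONN.chr (l := l) _ 1 (by rw [pow_one, CONN.h_tor]) fun f => ?_
    obtain ⟨e, rfl⟩ := hb.2 f
    have he : pre (Lm l g) _ 1 e = 0 := tau_inj U' _ (by
      refine (pre_pre (lnS l U').g (lnM l g).τ₃ e).trans ?_
      rw [← (lnM l g).comm₂₃, ← pre_pre]
      exact hg _ ((tau_tor U _).2 ⟨e, rfl⟩))
    change t ((x.comp (Ext.mk₀ (Lm l g)) (add_zero 1)).comp e rfl) = 0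
    rw [Ext.comp_assoc _ _ _ (add_zero 1) (zero_add 1) (by omega), ← pre_apply, he, Ext.comp_zero,
      map_zero]

variable {S T : Scheme.{0}} (L : PL S) (t : T ⟶ S)

/-- The two descriptions of the fibre of `W`. -/
noncomputable def cm (W : Over L.P) :
    (Over.map (fbr L.π t).hom).obj ((Over.pullback (fbr L.π t).hom).obj W) ⟶ fb W t :=
  Over.homMk (pullback.lift (pullback.snd W.hom (pullback.snd t L.π) ≫ pullback.fst t L.π)
    (pullback.fst W.hom (pullback.snd t L.π)) (by
      rw [Category.assoc, pullback.condition, ← Category.assoc, ← pullback.condition,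
        Category.assoc]))
    ((pullback.lift_snd_assoc _ _ _ _).trans pullback.condition)

instance (W : Over L.P) : IsIso (cm L t W) :=
  isIso_homMk _ (((IsPullback.of_hasPullback W.hom (pullback.snd t L.π)).paste_vert
    (IsPullback.of_hasPullback t L.π).flip).flip.isoPullback.isIso_hom)

lemma cm_nat {W' W : Over L.P} (h : W' ⟶ W) : cm L t W' ≫ fbm h t =
    (Over.map (fbr L.π t).hom).map ((Over.pullback (fbr L.π t).hom).map h) ≫ cm L t W := by
  refine Over.OverMorphism.ext (pullback.hom_ext ?_ ?_) <;> simp [cm, fbm]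

lemma slc (ρ : Y ⟶ X) (q : ℕ) :
    ∃ σ : ∀ U : Over Y, H ((Over.map ρ).obj U) (Linf l X) q ≃+ H U (Linf l Y) q,
      ∀ (U' U : Over Y) (g : U' ⟶ U) x, σ U' (res ((Over.map ρ).map g) _ q x) = res g _ q (σ U x) := by
  obtain ⟨G, e, ι⟩ : ∃ (G : Sh (Scheme.etaleTopology.over Y)) (_ : G = (pb (J := Scheme.etaleTopology) ρ).obj (Linf l X)),
      Nonempty (G ≅ Linf l Y) :=
    ⟨_, rfl, ⟨(pb (J := Scheme.etaleTopology) ρ).mapIso ((cstIso _).app _) ≪≫
      (Iso.refl _ : (pb (J := Scheme.etaleTopology) ρ).obj (lc _ _) ≅ lc _ _) ≪≫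
        ((cstIso _).app _).symm⟩⟩
  obtain ⟨ι⟩ := ι
  obtain ⟨a, h1, h2⟩ : ∃ a : ∀ U : Over Y, H ((Over.map ρ).obj U) (Linf l X) q →+ H U G q,
      (∀ U, Bijective (a U)) ∧ ∀ (U' U : Over Y) (g : U' ⟶ U) x,
        a U' (res ((Over.map ρ).map g) _ q x) = res g _ q (a U x) := by
    subst e
    exact ⟨fun U => slH ρ U _ q, fun U => slH_bij ρ U _ q, fun _ _ g => slH_res ρ g _ q⟩
  exact ⟨fun U => .ofBijective ((post _ ι.hom q).comp (a U)) ((post_bij _ ι.hom q).comp (h1 U)),
    fun U' U g x => (congrArg (post _ ι.hom q) (h2 U' U g x)).trans (pre_post _ ι.hom _).symm⟩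

lemma pd (hD : D1_s) {k : Type} [Field k] [IsAlgClosed k] (L : PL (Spec (.of k)))
    (hl : (l : k) ≠ 0) : PD l L.P 2 := hD l k L hl

lemma fib {W' W : Over L.P} (h : W' ⟶ W) (F : Sh (Scheme.etaleTopology.over L.P)) (q : ℕ) (y : H (fb W t) F q)
    (hy : res (fbm h t) F q y = 0) :
    res ((Over.map (fbr L.π t).hom).map ((Over.pullback (fbr L.π t).hom).map h)) F q
      (res (cm L t W) F q y) = 0 := by
  rw [pre_pre, ← Functor.map_comp, ← cm_nat, Functor.map_comp, ← pre_pre]
  exact (congrArg _ hy).trans (map_zero _)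

lemma gen (hS : SLW_s) (hL : LNM_s) (T : Over X) (hP : PD l T.left 2) (W : Over X)
    (hW : Etale W.hom) {Z : Over X} (c : (Over.map T.hom).obj ((Over.pullback T.hom).obj W) ⟶ Z)
    [IsIso c] : (Finite (H T (Ln l W) 1) → {y : H Z (Linf l X) 1 | l • y = 0}.Finite) ∧
    ∀ (W' : Over X) (h : W' ⟶ W), (∀ y : H Z (Linf l X) 1, l • y = 0 →
      res ((Over.map T.hom).map ((Over.pullback T.hom).map h)) _ 1 (res c _ 1 y) = 0) →
      ∀ x : H T (Ln l W') 1, Hmap (Lm l h) _ 1 x = 0 := by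
  obtain ⟨τ, hτ⟩ := hP
  obtain ⟨s, hs⟩ := hS X l 1 T
  obtain ⟨a, ha⟩ := slc (l := l) T.hom 1
  let σ := (AddEquiv.ofBijective (res c (Linf l X) 1) (pre_bij _ _ 1)).trans (a _)
  obtain ⟨h1, h2⟩ := core hτ ((Over.pullback T.hom).obj W)
    ((hL _ l).1 l _ ⟨1, (pow_one l).symm⟩ (inferInstanceAs (Etale (pullback.snd W.hom T.hom))))
  refine ⟨fun _ => ((h1 (.of_equiv _ (s W).toEquiv)).preimage σ.injective.injOn).subset
    fun y hy => (map_nsmul σ l y).symm.trans ((congrArg _ hy).trans (map_zero _)),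
    fun W' h hh x => (s W).injective ((hs W' W h x).trans ((h2 _ _ (fun y hy => ?_) _).trans
      (map_zero _).symm))⟩
  obtain ⟨y, rfl⟩ := σ.surjective y
  exact (ha _ _ _ _).symm.trans ((congrArg _ (hh y (σ.injective
    ((map_nsmul _ _ _).trans (hy.trans (map_zero _).symm))))).trans (map_zero _))

end K1

open K1 in
theorem k1 (hD : D1_s) (hS : SLW_s) (hL : LNM_s) : K1_s := by
  intro l _ S L k _ _ t W hl _ hW
  obtain ⟨h1, h2⟩ := gen hS hL (fbr L.π t) (pd hD (L.bc (Over.mk t)) hl) W hW.1 (cm L t W)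
  exact ⟨h1, fun W' h _ hh => h2 W' h fun y hy => fib L t h _ 1 y (hh y hy)⟩

end Pool.Agent.MP_855f4c_ag.E.D

end

section

set_option autoImplicit false
set_option backward.isDefEq.respectTransparency false

open CategoryTheory Limits Abelian Opposite AlgebraicGeometry

namespace Pool.Agent.MP_855f4c_ag.E.D

open E3 E4 Function
open CV (Ln Lm)

namespace K2

section slice

variable {S T : Scheme.{0}} {L : PL S} (t : T ⟶ S)

/-- The fibre of `W` over the fibre of the line. -/
noncomputable abbrev sl (W : Over L.P) : Over (fbr L.π t).left :=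
  (Over.pullback (fbr L.π t).hom).obj W

lemma sq (W : Over L.P) : IsPullback ((sl t W).hom ≫ pullback.fst t L.π)
    (pullback.fst W.hom (fbr L.π t).hom) t (W.hom ≫ L.π) :=
  ((IsPullback.of_hasPullback W.hom (fbr L.π t).hom).flip.paste_horiz
    (IsPullback.of_hasPullback t L.π))

/-- The two descriptions of the fibre agree. -/
noncomputable def th (W : Over L.P) : (Over.map (fbr L.π t).hom).obj (sl t W) ⟶ fb W t :=
  Over.homMk (sq t W).isoPullback.hom
    (((sq t W).isoPullback_hom_snd_assoc _).trans pullback.condition)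

instance (W : Over L.P) : IsIso (th t W) :=
  isIso_homMk _ (inferInstanceAs (IsIso (sq t W).isoPullback.hom))

lemma th_nat {W' W : Over L.P} (h : W' ⟶ W) : th t W' ≫ fbm h t =
    (Over.map _).map ((Over.pullback (fbr L.π t).hom).map h) ≫ th t W := by
  refine Over.OverMorphism.ext (pullback.hom_ext ?_ ?_) <;> simp [th, fbm]

variable {F : Sh (Scheme.etaleTopology.over L.P)} {G : Sh (Scheme.etaleTopology.over (fbr L.π t).left)}
  (c : (pb (J := Scheme.etaleTopology) (fbr L.π t).hom).obj F ⟶ G)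

/-- Sections over the fibre. -/
noncomputable def se (W : Over L.P) : sec F (fb W t) →+ sec G (sl t W) :=
  (c.hom.app (op (sl t W))).hom.comp (rsec (th t W) F)

lemma se_bij [IsIso c] (W : Over L.P) : Bijective (se t c W) :=
  (ConcreteCategory.bijective_of_isIso (((sheafToPresheaf _ _).map c).app (op (sl t W)))).comp
    (ConcreteCategory.bijective_of_isIso (F.obj.map (th t W).op))

lemma se_nat {W' W : Over L.P} (h : W' ⟶ W) (s) : se t c W' (rsec (fbm h t) F s) =
    rsec ((Over.pullback _).map h) G (se t c W s) := by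
  refine Eq.trans (congrArg (c.hom.app (op (sl t W'))) ?_)
    (nat c.hom ((Over.pullback _).map h) (rsec (th t W) F s))
  change (F.obj.map (fbm h t).op ≫ F.obj.map (th t W').op) s =
    (F.obj.map (th t W).op ≫ F.obj.map ((Over.map _).map ((Over.pullback _).map h)).op) s
  rw [← Functor.map_comp, ← Functor.map_comp, ← op_comp, th_nat, op_comp]

end slice

variable {X : Scheme.{0}} {n : ℕ}

lemma tau_tor (U : Over X) {F : Sh (Scheme.etaleTopology.over X)} (β : Ln n U ⟶ F) : n • β.hom.app _ (tau n U) = 0 := by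
  refine (congrArg (n • ·) (frEquiv_post _ _).symm).trans ?_
  rw [← map_nsmul, ← Preadditive.comp_nsmul, ← Category.id_comp β, ← Preadditive.nsmul_comp,
    CONN.ln_tor, zero_comp, comp_zero, map_zero]

lemma ex_hom (U : Over X) {F : Sh (Scheme.etaleTopology.over X)} (s : sec F U) (hs : n • s = 0) :
    ∃ β : Ln n U ⟶ F, β.hom.app _ (tau n U) = s := by
  refine ⟨cokernel.desc _ ((frEquiv U F).symm s) ?_, ?_⟩
  · rw [Preadditive.zsmul_comp, Category.id_comp, ← map_zsmul, natCast_zsmul, hs, map_zero]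
  · exact (frEquiv_post _ _).symm.trans ((congrArg _ (cokernel.π_desc _ _ _)).trans
      (AddEquiv.apply_symm_apply _ _))

lemma fin_hom {l : ℕ} [Fact l.Prime] {M : Type 1} [AddCommGroup M] [Finite M]
    (h : ∀ x : M, l • x = 0) : Finite (M →+ QZ l) := by
  have := (cof_QZ (l := l)).2.to_subtype
  exact Finite.of_injective (fun (f : M →+ QZ l) (x : M) =>
    (⟨f x, by rw [Set.mem_ofPred_eq, ← map_nsmul, h, map_zero]⟩ : {m : QZ l | l • m = 0}))
    fun f g e => AddMonoidHom.ext fun x => congrArg Subtype.val (congrFun e x)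

lemma pd1 (hD : D1_s) (l : ℕ) [Fact l.Prime] (k : Type) [Field k] [IsAlgClosed k]
    (L : PL (Spec (.of k))) (hl : (l : k) ≠ 0) : PD l L.P 2 := hD l k L hl

variable {l : ℕ} [Fact l.Prime] {N : ℕ} (hP : PD l X N) {U : Over X} (hT : Tc l (Ln l U))
include hP hT

lemma core1 [Finite (H (top X) (Ln l U) N)] : {s : sec (Linf l X) U | l • s = 0}.Finite := by
  obtain ⟨τ, hτ⟩ := hP
  have := @Finite.of_injective _ _ (@Finite.of_injective _ _
    (fin_hom CONN.h_tor) _ (hτ _ hT 0 N rfl).1) _ (Ext.mk₀_bijective _ _).1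
  exact (Set.finite_range fun β : Ln l U ⟶ Linf l X => β.hom.app _ (tau l U)).subset
    fun y hy => ex_hom _ _ hy

lemma core2 {U' Z : Over X} (h : U' ⟶ U) (r : U' ⟶ Z)
    (hH : ∀ s : sec (Linf l X) U, l • s = 0 → ∃ s' : sec (Linf l X) Z, l • s' = 0 ∧
      rsec h _ s = rsec r _ s') (x : H (top X) (Ln l U') N) (hx : Hmap (Lm l r) _ N x = 0) :
    Hmap (Lm l h) _ N x = 0 := by
  obtain ⟨τ, hτ⟩ := hP
  refine CONN.chr (l := l) _ 1 (by rw [pow_one]; exact CONN.h_tor _) fun f => ?_
  obtain ⟨y, rfl⟩ := (hτ _ hT 0 N rfl).2 f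
  obtain ⟨β, rfl⟩ := (Ext.mk₀_bijective _ _).2 y
  obtain ⟨a', h1, h2⟩ := hH _ (tau_tor U β)
  obtain ⟨β', hβ⟩ := ex_hom _ a' h1
  have e : Lm l h ≫ β = Lm l r ≫ β' := embq_ext (by
    refine ((congrArg (β.hom.app _) (embq_tau l _)).trans (nat _ _ _)).trans
      (Eq.trans ?_ ((congrArg (β'.hom.app _) (embq_tau l _)).trans (nat _ _ _)).symm)
    rw [hβ]
    exact h2)
  change τ (post _ β N (post _ _ N x)) = 0
  rw [post_post, e, ← post_post]
  exact (congrArg (fun z => τ (post _ β' N z)) hx).trans (by rw [map_zero, map_zero])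

end K2

open K2 in
theorem k2 (hD : D1_s) (hS : SLW_s) (hL : LNM_s) : K2_s := by
  intro l _ S L k _ _ t W hl hW
  have hP : PD l (fbr L.π t).left 2 := pd1 hD l k (L.bc (Over.mk t)) hl
  obtain ⟨s, hs⟩ := hS L.P l 2 (fbr L.π t)
  let c : (pb (J := Scheme.etaleTopology) (fbr L.π t).hom).obj (Linf l L.P) ⟶ Linf l _ :=
    (M2.cstPb _).hom.app _
  have : IsIso c := ((M2.cstPb _).app _).isIso_hom
  have hT : Tc l (Ln l (sl t W)) := (hL _ _).1 l _ ⟨1, (pow_one l).symm⟩
    (inferInstanceAs (Etale (pullback.snd W.hom _)))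
  refine ⟨fun hf => ?_, fun W' Z h r _ _ hH x hx => ?_⟩
  · have : Finite (H (top _) (Ln l (sl t W)) 2) := Finite.of_equiv _ (s W).toEquiv
    refine ((core1 hP hT).preimage (se_bij t c W).1.injOn).subset fun y hy => ?_
    exact (map_nsmul _ _ _).symm.trans ((congrArg _ hy).trans (map_zero _))
  · refine (s W).injective ((hs _ _ h x).trans (Eq.trans ?_ (map_zero _).symm))
    refine core2 hP hT _ ((Over.pullback _).map r) (fun b hb => ?_) _
      ((hs _ _ r x).symm.trans (by rw [hx, map_zero]))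
    obtain ⟨a, rfl⟩ := (se_bij t c W).2 b
    obtain ⟨a', h1, h2⟩ := hH a ((se_bij t c W).1 (by rw [map_nsmul, hb, map_zero]))
    exact ⟨se t c Z a', by rw [← map_nsmul, h1, map_zero],
      (se_nat t c h a).symm.trans ((congrArg _ h2).trans (se_nat t c r a'))⟩

end Pool.Agent.MP_855f4c_ag.E.D

end

section

/-! h86e section D, row LOCK: local acyclicity on a chart and the assembly. -/

set_option autoImplicit false
set_option backward.isDefEq.respectTransparency false

open CategoryTheory Limits Abelian Opposite AlgebraicGeometry Polynomial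

namespace Pool.Agent.MP_855f4c_ag.E.D

open E3 E4

namespace LKz

lemma sq_bij {X : Scheme.{0}} {T' T S' S : Over X} (f : T' ⟶ T) (g : S' ⟶ S) (a : T' ⟶ S')
    (b : T ⟶ S) (ha : IsIso a.left) (hb : IsIso b.left) (h : a ≫ g = f ≫ b) (F : Sh (Scheme.etaleTopology.over X)) (q : ℕ)
    (hf : Function.Bijective (res f F q)) : Function.Bijective (res g F q) := by
  have i {A B : Over X} (c : A ⟶ B) [IsIso c.left] : Function.Bijective (res c F q) :=
    have : IsIso ((Over.forget X).map c) := ‹_›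
    have := isIso_of_reflects_iso c (Over.forget X)
    pre_bij _ F q
  rw [← (i a).of_comp_iff']
  exact (congrArg _ (_root_.funext fun x => by
    rw [Function.comp_apply, Function.comp_apply, res_res', res_res', h])).mpr (hf.comp (i b))

attribute [local instance] Polynomial.algebra in
lemma hb (h : LA_s) (l : ℕ) [Fact l.Prime] {R C k : Type} [CommRing R] [CommRing C] [IsDomain C]
    [Field k] [Algebra R C] [Algebra C k] [IsFractionRing C k] (hC : Aic C) (hl : IsUnit (l : C))
    {L : PL (Spec (.of R))} (W : Over L.P) [IsAffine W.left] (a : W.left ⟶ Spec (.of R[X]))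
    [Etale a] (ha : a ≫ spc Polynomial.C = W.hom ≫ L.π) {t : Spec (.of k) ⟶ Spec (.of R)}
    (e : spc (algebraMap C k) ≫ spc (algebraMap R C) = t) (q : ℕ) :
    Function.Bijective (res (fbk W e) (Linf l L.P) q) := by
  have s0 : IsPullback (spc (Polynomial.C : C →+* C[X])) (spc (algebraMap R[X] C[X]))
      (spc (algebraMap R C)) (spc (Polynomial.C : R →+* R[X])) :=
    isPullback_SpecMap_of_isPushout _ _ _ _ (CommRingCat.isPushout_of_isPushout R C R[X] C[X])
  let Z := pullback (spc (algebraMap R C)) (W.hom ≫ L.π)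
  have w : pullback.fst (spc (algebraMap R C)) (W.hom ≫ L.π) ≫ spc (algebraMap R C) =
      (pullback.snd _ _ ≫ a) ≫ spc Polynomial.C := by
    rw [Category.assoc, ha, pullback.condition]
  have s1 : IsPullback (s0.lift _ _ w) (pullback.snd _ _) (spc (algebraMap R[X] C[X])) a :=
    IsPullback.of_right (by
      rw [s0.lift_fst, ha]; exact IsPullback.of_hasPullback _ _) (s0.lift_snd _ _ _) s0
  have : Etale (s0.lift _ _ w) := MorphismProperty.of_isPullback s1.flip ‹_›
  obtain ⟨φ, hφ⟩ := Spec.map_surjective (Z.isoSpec.inv ≫ s0.lift _ _ w)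
  have hφ' : φ.hom.Etale := by
    rw [← HasRingHomProperty.Spec_iff (P := @Etale), hφ]; infer_instance
  let O : Type := Γ(Z, ⊤)
  let _ : Algebra C[X] O := φ.hom.toAlgebra
  let _ : Algebra C O := (φ.hom.comp Polynomial.C).toAlgebra
  have : IsScalarTower C C[X] O := .of_algebraMap_eq fun _ => rfl
  have : Algebra.Etale C[X] O := hφ'
  let O' := Localization (Algebra.algebraMapSubmonoid O (nonZeroDivisors C))
  have : IsLocalization ((nonZeroDivisors C).map (algebraMap C O)) O' := Localization.isLocalization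
  have s2 := isPullback_SpecMap_of_isPushout _ _ _ _ (CommRingCat.isPushout_of_isLocalization
    (algebraMap C O) (IsLocalization.map O' (algebraMap C O)
      (Submonoid.le_comap_map (nonZeroDivisors C)) : k →+* O') (IsLocalization.map_comp _)
    (nonZeroDivisors C))
  have e1 : spc (algebraMap C O) = Z.isoSpec.inv ≫ pullback.fst _ _ := by
    rw [← s0.lift_fst _ _ w, ← Category.assoc, ← hφ, ← Spec.map_comp]; rfl
  have s3 : IsPullback (fbk W e).left (pullback.fst t (W.hom ≫ L.π)) (pullback.fst _ _)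
      (spc (algebraMap C k)) :=
    IsPullback.of_right (by
      rw [e, show (fbk W e).left ≫ pullback.snd _ _ = pullback.snd _ _ by simp [fbk]]
      exact (IsPullback.of_hasPullback _ _).flip) (by simp [fbk])
      (IsPullback.of_hasPullback (spc (algebraMap R C)) (W.hom ≫ L.π)).flip
  have s4 := s2.of_iso (Iso.refl _) Z.isoSpec.symm (Iso.refl _) (Iso.refl _)
    (Category.id_comp _).symm ((Category.comp_id _).trans (Category.id_comp _).symm)
    ((Category.comp_id _).trans e1) ((Category.comp_id _).trans (Category.id_comp _).symm)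
  have j := s4.isoIsPullback_hom_fst _ _ s3
  refine sq_bij (sph (algebraMap O O') (a := Z.isoSpec.inv ≫ (fb W _).hom) rfl) (fbk W e)
    (Over.homMk (s4.isoIsPullback _ _ s3).hom (by
      rw [← Over.w (fbk W e)]
      exact (Category.assoc _ _ _).symm.trans ((congrArg (· ≫ _) j).trans (Category.assoc _ _ _))))
    (Over.homMk Z.isoSpec.inv rfl) (Iso.isIso_hom _) (Iso.isIso_inv _) (Over.OverMorphism.ext j) _ q
    ?_
  exact h l L.P C O O' _ (.of (ULift.{1} (QZ l))) hC hl IndEt.of_etale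
    (fun m => ((cof_QZ (l := l)).1 m.down).imp fun n hn => ULift.ext _ _ hn) q

lemma exC (R : Type) [CommRing R] (p : Spec (.of R)) :
    ∃ (k C : Type) (_ : Field k) (_ : IsAlgClosed k) (_ : CommRing C) (_ : IsDomain C)
      (_ : Algebra R C) (_ : Algebra C k) (_ : IsFractionRing C k), Aic C ∧
      Algebra.IsIntegral R C ∧ p ∈ Set.range (spc (algebraMap C k) ≫ spc (algebraMap R C)) := by
  let B := R ⧸ p.asIdeal
  let k := AlgebraicClosure (FractionRing B)
  have : Algebra.IsAlgebraic B k :=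
    (IsFractionRing.comap_isAlgebraic_iff (K := FractionRing B)).2 inferInstance
  have hi : Function.Injective (algebraMap B k) :=
    (algebraMap (FractionRing B) k).injective.comp (IsFractionRing.injective B _)
  refine ⟨k, integralClosure B k, inferInstance, inferInstance, inferInstance, inferInstance,
    inferInstance, inferInstance, integralClosure.isFractionRing_of_algebraic fun x hx => ?_,
    (aic_of_isAlgClosed k).integralClosure B, Algebra.IsIntegral.trans B, IsLocalRing.closedPoint k,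
    PrimeSpectrum.ext (Ideal.ext fun x => ?_)⟩
  · exact (map_eq_zero_iff _ hi).1 hx
  · change algebraMap B k (Ideal.Quotient.mk _ x) ∈ IsLocalRing.maximalIdeal k ↔ _
    rw [IsLocalRing.maximalIdeal_eq_bot, Ideal.mem_bot, map_eq_zero_iff _ hi,
      Ideal.Quotient.eq_zero_iff_mem]

end LKz

open LKz in
theorem lock' (h : LA_s) : LOCK_s := by
  intro l _ R _ L W w hl hW hc p
  obtain ⟨k, C, _, _, _, _, _, _, _, hC, hi, hp⟩ := exC R p
  have := hW.1
  have := hW.2
  obtain ⟨a, _, ha⟩ : ∃ (a : W.left ⟶ Spec (.of R[X])) (_ : Etale a),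
      a ≫ spc Polynomial.C = W.hom ≫ L.π := by
    obtain ⟨a, e⟩ | ⟨a, e⟩ := hc
    · have : Etale (a ≫ L.c₁) := e ▸ hW.1
      exact ⟨a, Etale.of_comp a L.c₁, by rw [← e, Category.assoc, PL.pnt_π]⟩
    · have : Etale (a ≫ L.c₂) := e ▸ hW.1
      exact ⟨a, Etale.of_comp a L.c₂, by rw [← e, Category.assoc, PL.pnt_π]⟩
  have : IsIntegralHom (spc (algebraMap R C)) := IsIntegralHom.SpecMap_iff.2 hi.isIntegral
  have H := hb h l hC (by simpa using hl.map (algebraMap R C)) W a ha (k := k) rfl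
  refine ⟨k, inferInstance, inferInstance, _, hp, fun y => ?_,
    lockb l W w (Linv.spec hl) hW rfl (H 0)⟩
  obtain ⟨y, rfl⟩ := (H 1).2 y
  obtain ⟨N, hN⟩ := lock1 L W w hW _ _ 0 y
  exact ⟨N, by rw [res_res', ← fbk_fbm, ← res_res', hN, map_zero]⟩

end Pool.Agent.MP_855f4c_ag.E.D

end

section

/-! h86e section D, row TOW: induction over a tower of projective lines. -/

set_option autoImplicit false
set_option backward.isDefEq.respectTransparency false

open CategoryTheory Limits Abelian Opposite AlgebraicGeometry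

namespace Pool.Agent.MP_855f4c_ag.E.D

open E3 E4
open CV (Ln Lm)

namespace TOW

variable {Ω : Type} [Field Ω] {Y : Scheme.{0}}

lemma Lm_comp (n : ℕ) {A B C : Over Y} (f : A ⟶ B) (g : B ⟶ C) :
    Lm n f ≫ Lm n g = Lm n (f ≫ g) := coequalizer.hom_ext (by simp [Lm, Ln])

lemma Lm_id (n : ℕ) (A : Over Y) : Lm n (𝟙 A) = 𝟙 _ := coequalizer.hom_ext (by simp [Lm, Ln])

lemma tot_iso (W : Over Y) [IsIso W.hom] : IsIso (tot W) :=
  have : IsIso ((Over.forget Y).map (tot W)) := ‹_›
  isIso_of_reflects_iso _ (Over.forget Y)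

lemma van (W : Over Y) [IsIso W.hom] (F : Sh (Scheme.etaleTopology.over Y)) (q : ℕ) (h : ∀ x : H W F q, x = 0)
    (x : H (top Y) F q) : x = 0 := by
  have := tot_iso W
  refine (pre_bij ((fr (Scheme.etaleTopology.over Y)).map (tot W)) F q).1 ((h _).trans (map_zero _).symm)

lemma base (l : ℕ) [IsAlgClosed Ω] (φ : Y ⟶ Spec (.of Ω)) [IsIso φ] :
    CD l Y 0 ∧ CDZ l Y 0 ∧ EFF l Y 0 ∧ TRC l Y 0 := by
  have := (aic_of_isAlgClosed Ω).shl
  have i0 : IsIso (Over.mk (inv φ)).hom := inferInstanceAs (IsIso (inv φ))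
  have pos (F : Sh (Scheme.etaleTopology.over Y)) (q : ℕ) (x : H (top Y) F (q + 1)) : x = 0 :=
    van (Over.mk (inv φ)) F _ (wc_H (SHL.wc Ω) _ F q) x
  refine ⟨fun F _ q hq => ?_, fun F _ hz q _ => ?_, fun W _ w j hj => absurd hj (Nat.not_lt_zero j),
    fun W hW w => ?_⟩
  · obtain ⟨q, rfl⟩ := Nat.exists_eq_succ_of_ne_zero hq.ne'
    exact pos F q
  · rcases q with _ | q
    · refine van (Over.mk (inv φ)) F 0 fun x => ?_
      obtain ⟨s, rfl⟩ := ((frEquiv _ F).symm.trans Ext.addEquiv₀.symm).surjective x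
      have : Subsingleton Y := φ.homeomorph.injective.subsingleton
      rw [hz Ω (inv φ) (fun z y => subset_closure (Subsingleton.elim _ _)) s, map_zero]
    · exact pos F q
  · have := hW.1
    obtain ⟨σ, h1, h2⟩ := GSP.cover (W.hom ≫ φ) w
    refine ⟨Over.mk (inv φ), Over.homMk σ ?_, ⟨inferInstance, inferInstanceAs (IsAffine (Spec _))⟩,
      h2, fun x hx => ?_⟩
    · exact IsIso.eq_inv_of_inv_hom_id ((Category.assoc _ _ _).trans h1)
    · have := tot_iso (Over.mk (inv φ))
      have : IsIso (Lm l (tot (Over.mk (inv φ)))) := ⟨Lm l (inv (tot _)),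
        by rw [Lm_comp, IsIso.hom_inv_id, Lm_id], by rw [Lm_comp, IsIso.inv_hom_id, Lm_id]⟩
      rw [(post_bij _ (Lm l (tot (Over.mk (inv φ)))) 0).1 (hx.trans (map_zero _).symm), map_zero]

lemma ns (l : ℕ) [hl : Fact l.Prime] [CharZero Ω] (f : Y ⟶ Spec (.of Ω)) [IsProper f] :
    Ns l Y := by
  have := LocallyOfFiniteType.isLocallyNoetherian f
  have := QuasiCompact.compactSpace_of_compactSpace f
  refine ⟨{}, ⟨?_⟩, (Linv.spec (Nat.cast_ne_zero.2 hl.out.ne_zero).isUnit).of_hom f⟩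
  rw [← terminal.comp_from f]
  infer_instance

lemma main (h1 : STEP_s) (h2 : CDZS_s) (h3 : TWF_s) (l : ℕ) [Fact l.Prime] [IsAlgClosed Ω]
    [CharZero Ω] {d : ℕ} {P S : Scheme.{0}} {g : P ⟶ S} (h : TwN d g) :
    ∀ (e : S ⟶ Spec (.of Ω)) [IsIso e],
      CD l P (2 * d) ∧ CDZ l P (2 * d) ∧ EFF l P (2 * d) ∧ TRC l P (2 * d) := by
  induction h with
  | iso g h => exact fun e _ => base l (g ≫ e)
  | step L g hg ih =>
    intro e _
    obtain ⟨a, b, c, t⟩ := ih e
    have := (h3.1 _ _ _ g hg).1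
    have n := ns l (g ≫ e)
    obtain ⟨a', b'⟩ := h2 l _ L _ n.2.2 a b
    obtain ⟨c', t'⟩ := h1 l Ω _ L (g ≫ e) _ n ((h3.1 _ _ _ _ (.step L g hg)).2.2.1
      (e.homeomorph.irreducibleSpace_iff.2 inferInstance)) a b'
    exact ⟨a', b', c' c, t' t⟩

end TOW

theorem tow (h1 : STEP_s) (h2 : CDZS_s) (h3 : TWF_s) : TOW_s :=
  fun l _ _ _ _ _ _ _ _ h => TOW.main h1 h2 h3 l h (𝟙 _)

end Pool.Agent.MP_855f4c_ag.E.D

end
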