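import Pool.Agent.MP_855f4c_ag.EC.Sf
import Pool.Agent.MP_855f4c_ag.EC.De
import Pool.Agent.MP_855f4c_ag.EC.Db
import Pool.Agent.MP_855f4c_ag.EC.Dc
import Pool.Agent.MP_855f4c_ag.EC.Zb
import Pool.Agent.MP_855f4c_ag.EC.Df
import Pool.Agent.MP_855f4c_ag.EC.DUb
import Pool.Agent.MP_855f4c_ag.EC.Dg
import Pool.Agent.MP_855f4c_ag.EC.Dd
import Pool.Agent.MP_855f4c_ag.EC.Dh
import Pool.Agent.MP_855f4c_ag.EC.Dj
import Pool.Agent.MP_855f4c_ag.EC.Da
import Pool.Agent.MP_855f4c_ag.EC.Di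

section

/-! h86e section D: duality on the projective line. -/

namespace Pool.Agent.MP_855f4c_ag.E.D

theorem dsetAll : DSET_s := dset (genb lnm) lnm sumh coef (embq lnm)

theorem d1All (hC : CV.CURVE_s) (hM : CV.P1MU_s) (h3 : CD3_s) : D1_s :=
  d1 dsetAll hC hM h3 intb twf coef lnm

theorem du1All (hC : CV.CURVE_s) (hM : CV.P1MU_s) (h3 : CD3_s) : DU1_s :=
  du1 (d1All hC hM h3) hM

theorem du2All (hC : CV.CURVE_s) (hM : CV.P1MU_s) (h3 : CD3_s) : DU2_s :=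
  du2 (d1All hC hM h3) hM

end Pool.Agent.MP_855f4c_ag.E.D

end

section

/-! h86e section D: duality for smooth proper varieties. -/

namespace Pool.Agent.MP_855f4c_ag.E.D

theorem killAll (hD : D1_s) (hP : PBC_s) (hG : GX_s) (hA : LA_s) : KILL_s :=
  kill (killa ref (k1 hD slw lnm) (k2 hD slw lnm) (lock' hA) (spr desc spz hG) nind hP lnm) ref slw

theorem stepAll (hK : KILL_s) (hP : PBC_s) (h3 : CD3_s) (hZ : GZ_s) (hC : CV.CURVE_s)
    (hM : CV.P1MU_s) : STEP_s := fun l _ Ω _ _ _ S L s N hS hi c z =>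
  have i := iota (gam hM smul) smul hP lnm
  have e := epi2 hP h3 hZ lnm
  ⟨step_eff hK (lerp' hP h3) (k0 hP slw hC intb lnm) i e hP lnm l Ω S L s N hS,
    step_trc hK (lerp' hP h3) i e hP lnm l Ω S L s N hS hi c z⟩

theorem dwOf (hX : PBCX_s) (hC : CDX_s) (tow : TOW_s) (tws : TWS_s) : DW_s :=
  have i2 := ind2 (ind hX lnm)
  have c := cdg hC i2 tow (genb lnm) lnm intb (dense lnm) twf
  have p := pdt tow tws twf (dense lnm) dsetAll
  dw (comp intb) (cht twf) clop <|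
    dwk (pdx c p (conn lnm) (dense lnm) i2 tow tws twf dsetAll intb) c (pair lnm)
      (topq c p (conn lnm) (dense lnm) i2 tws twf slw lnm) dalg twf

theorem dwAll (hP : PBC_s) (hA : LA_s) (h3 : CD3_s) (hZ : GZ_s) (hC : CV.CURVE_s)
    (hM : CV.P1MU_s) (hX : PBCX_s) (hG : GX_s) (hD : CDX_s) : DW_s :=
  dwOf hX hD
    (tow (stepAll (killAll (d1All hC hM h3) hP hG hA) hP h3 hZ hC hM) (cdzs (lerp' hP h3) hP hZ) twf)
    (tws (lerp' hP h3) (gam hM smul) smul hP lnm)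

end Pool.Agent.MP_855f4c_ag.E.D

end
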