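import Pool.Agent.MP_855f4c_ag.EC.Sc
import Pool.Agent.MP_855f4c_ag.EC.E4e
import Pool.Agent.MP_855f4c_ag.EC.E65a
import Pool.Agent.MP_855f4c_ag.EC.Cc
import Pool.Agent.MP_855f4c_ag.EC.Sb
import Pool.Agent.MP_855f4c_ag.EC.E4b
import Pool.Agent.MP_855f4c_ag.EC.Da
import Pool.Agent.MP_855f4c_ag.EC.F2d
import Pool.Agent.MP_855f4c_ag.EC.F2c
import Pool.Agent.MP_855f4c_ag.EC.E4f
import Pool.Agent.MP_855f4c_ag.EC.DUa

section

/-! Section S: boundary points over a trait, and boundary points in degree zero. -/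

set_option autoImplicit false
set_option backward.isDefEq.respectTransparency false

open CategoryTheory Limits Abelian Opposite AlgebraicGeometry Polynomial IsLocalRing TensorProduct
open Function

namespace Pool.Agent.MP_855f4c_ag.E.SA

open E3 E4

variable {X : Scheme.{0}} {l : ℕ} {F : Sh (Scheme.etaleTopology.over X)}

theorem bnd_fs (A : Type) [CommRing A] [IsDomain A] :
    FaithfulSMul A (AlgebraicClosure (FractionRing A)) :=
  (faithfulSMul_iff_algebraMap_injective _ _).2 <| by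
    rw [IsScalarTower.algebraMap_eq A (FractionRing A) (AlgebraicClosure (FractionRing A))]
    exact (algebraMap (FractionRing A) _).injective.comp (IsFractionRing.injective A _)

theorem bnd_al (A : Type) [CommRing A] [IsDomain A] :
    Algebra.IsAlgebraic A (AlgebraicClosure (FractionRing A)) :=
  (IsFractionRing.comap_isAlgebraic_iff (A := A) (K := FractionRing A)).2 inferInstance

theorem bnd_bij {B C K : Type} [CommRing B] (u : Spec (.of B) ⟶ X) (hF : Cc l F)
    [CommRing C] [IsLocalRing C] [Algebra B C] [Field K] [IsAlgClosed K] [Algebra B K]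
    (h : Lis l F.obj (ob u C)) (hC : Aic C) (hl : IsUnit (l : C)) (φ : C →ₐ[B] K)
    (hφ : Injective φ) : Bijective (rs u F.obj φ) := by
  have : IsDomain C := hφ.isDomain _
  have := aic_frac hC (FractionRing C)
  have h1 : Bijective (rs u F.obj (up B C (FractionRing C))) :=
    h C (FractionRing C) (ob u C).hom (ob u (FractionRing C)).hom
      (Over.w (hm u (up B C (FractionRing C)))) ⟨𝟙 _⟩ hC hl
  let ψ : FractionRing C →ₐ[B] K := IsFractionRing.liftAlgHom hφ
  have h2 := (field_rig u hF.2 ψ (by simpa using hl.map (algebraMap C (FractionRing C)))).comp h1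
  have e : ⇑(rs u F.obj φ) = rs u F.obj ψ ∘ rs u F.obj (up B C (FractionRing C)) := by
    funext s
    rw [comp_apply, rs_rs]
    exact rs_congr u _ (AlgHom.ext fun x => (IsFractionRing.lift_algebraMap hφ x).symm) s
  rw [e]
  exact h2

/-- Over a domain that meets `g = 0` there are no sections. -/
theorem bnd_van {A : Type} [CommRing A] [IsDomain A] (u : Spec (.of A) ⟶ X) {g : A}
    (h : Loc l F u g) (hl : IsUnit (l : A)) (hg : ¬ IsUnit g) (s : sec F (ob u A)) : s = 0 := by
  let Ω := AlgebraicClosure (FractionRing A)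
  have : FaithfulSMul A Ω := bnd_fs A
  have : Algebra.IsAlgebraic A Ω := bnd_al A
  have h0 : rs u F.obj (Algebra.ofId A Ω) s = 0 := by
    obtain ⟨Q, hQ, hgQ⟩ := exists_max_ideal_of_mem_nonunits (mem_nonunits_iff.2 hg)
    obtain ⟨C, _, _, _, φ, k, _, _, _, r, σ, hC, -, hr, hq⟩ :=
      exists_path (B := A) (Ω := Ω) (D := A) Q
    have := hC.shl
    have hk : algebraMap A k g = 0 := by
      rw [← hq] at hgQ
      exact ((r.comp σ).commutes g).symm.trans hgQ
    have h1 : rs u F.obj σ s = 0 := by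
      refine (rig u h.1.1.2 r hr (by simpa using hl.map (algebraMap A C))).1 ?_
      rw [map_zero]
      exact h.2.1 k hk _
    rw [← rs_congr u F.obj (Subsingleton.elim (φ.comp σ) (Algebra.ofId A Ω)), ← rs_rs, h1, map_zero]
  refine pt_ring u h.1.1 hl s fun m hm => ?_
  obtain ⟨C, _, _, _, φ, k, _, _, _, r, σ, hC, hφ, hr, hq⟩ :=
    exists_path (B := A) (Ω := Ω) (D := A) m
  refine ⟨k, inferInstance, inferInstance, inferInstance, r.comp σ, hq, ?_⟩
  by_cases hk : algebraMap A k g = 0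
  · exact h.2.1 k hk _
  have hu : IsUnit (algebraMap A C g) := by
    by_contra hu
    have : algebraMap A C g ∈ RingHom.ker r := hr ▸ (mem_maximalIdeal _).2 hu
    exact hk ((r.commutes g).symm.trans this)
  have h1 : rs u F.obj σ s = 0 := by
    refine (bnd_bij u h.1.1 (h.lis u C hu) hC (by simpa using hl.map (algebraMap A C)) φ hφ).1 ?_
    rw [map_zero, rs_rs, rs_congr u F.obj (Subsingleton.elim (φ.comp σ) (Algebra.ofId A Ω)), h0]
  rw [← rs_rs, h1, map_zero]

theorem dg : DG_s := by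
  intro l X C O O' _ _ _ _ _ _ _ _ x g u F hC hl hx hxg h
  obtain ⟨_, _, hG, rfl⟩ := hx.exists
  obtain ⟨_, -, hi⟩ := hG.dom hC
  have := hG.shl
  have hlO : IsUnit (l : O) := by simpa using hl.map (algebraMap C O)
  have hle : Algebra.algebraMapSubmonoid O (nonZeroDivisors C) ≤ nonZeroDivisors O := by
    rintro _ ⟨c, hc, rfl⟩
    refine mem_nonZeroDivisors_of_ne_zero fun e => nonZeroDivisors.ne_zero hc ?_
    rw [IsScalarTower.algebraMap_apply C C[X] O, map_eq_zero_iff _ hi] at e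
    exact Polynomial.C_injective (e.trans (map_zero _).symm)
  have : IsDomain O' := IsLocalization.isDomain_of_le_nonZeroDivisors O' hle
  have hg' : ¬ IsUnit (algebraMap O O' g) := fun hu => by
    obtain ⟨ψ, hψ⟩ := hG.exists_sec hC (zero_mem _)
    let ρ : O →+* FractionRing C := (algebraMap C (FractionRing C)).comp ψ.toRingHom
    have hρ : ∀ y : Algebra.algebraMapSubmonoid O (nonZeroDivisors C), IsUnit (ρ y) := by
      rintro ⟨_, c, hc, rfl⟩
      have e : ρ (algebraMap C O c) = algebraMap C (FractionRing C) c :=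
        congrArg (algebraMap C (FractionRing C)) (ψ.commutes c)
      exact e ▸ IsLocalization.map_units (FractionRing C) (⟨c, hc⟩ : nonZeroDivisors C)
    have h1 := hu.map (IsLocalization.lift (S := O') hρ)
    rw [IsLocalization.lift_eq] at h1
    have h2 : g ∈ RingHom.ker ψ := by
      rw [hψ, Ideal.mem_span_singleton]
      simpa using hxg
    refine h1.ne_zero ?_
    change algebraMap C (FractionRing C) (ψ g) = 0
    rw [(RingHom.mem_ker).1 h2, map_zero]
  have hg : ¬ IsUnit g := fun hu => hg' (hu.map _)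
  refine ⟨fun q hq => ?_, fun a b _ => (shl_H _ F 0 a).trans (shl_H _ F 0 b).symm⟩
  obtain rfl : q = 0 := by omega
  refine ⟨(res0_inj _).2 fun a b _ => (bnd_van u h hlO hg a).trans (bnd_van u h hlO hg b).symm,
    (res0_surj _).2 fun s => ⟨0, ?_⟩⟩
  rw [map_zero]
  refine (ConcreteCategory.bijective_of_isIso (F.obj.map (tw u O' O').hom.op)).1 ?_
  rw [map_zero]
  exact (bnd_van _ (h.base u O') (by simpa using hlO.map (algebraMap O O')) hg' _).symm

theorem bnd_fin {M : Type 1} [AddCommGroup M] (h : {m : M | l • m = 0}.Finite) (n : ℕ) :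
    {m : M | l ^ n • m = 0}.Finite := by
  induction n with
  | zero => simp
  | succ n ih =>
    refine Set.Finite.of_finite_fibers (fun m => l • m) (ih.subset ?_) ?_
    · rintro _ ⟨m, hm, rfl⟩
      simpa [pow_succ, mul_smul] using hm
    · rintro _ ⟨m, -, rfl⟩
      refine (h.image (· + m)).subset fun z hz => ⟨z - m, ?_, by simp⟩
      have := hz.2
      simp only [Set.mem_preimage, Set.mem_singleton_iff] at this
      simp [smul_sub, this]

theorem bnd (h1 : BND1_s) (h2 : TORS_s) : BND_s := by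
  intro l _ X V O O' _ _ _ _ _ _ _ _ _ x u F hV hT hl hx h hc
  refine (h2 l X _ _ _ (inferInstanceAs (IsAffine (Spec _))) (inferInstanceAs (IsAffine (Spec _)))).2
    F h.1.2 fun n => ?_
  set G := kernel ((l ^ n) • 𝟙 F) with hGdef
  have hL : Loc l G u x := ⟨Tc.ker _ h.1 h.1.1, fun k _ _ _ hk s =>
    mono_sec (kernel.ι _) _ ((h.2.1 k hk _).trans (map_zero _).symm), Lis.kernel _ h.2.2 h.2.2⟩
  have hx' := hx
  obtain ⟨_, _, hG, rfl⟩ := hx'.exists
  obtain ⟨_, _, hi⟩ := hG.dom hV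
  have := hV.isIntegrallyClosed
  let Ω := AlgebraicClosure (FractionRing O)
  have : FaithfulSMul O Ω := bnd_fs O
  have : Algebra.IsAlgebraic O Ω := bnd_al O
  have hiΩ : Injective (algebraMap O Ω) := FaithfulSMul.algebraMap_injective O Ω
  have hx0 : algebraMap V[X] O Polynomial.X ≠ 0 := fun e =>
    X_ne_zero ((map_eq_zero_iff _ hi).1 e)
  have hle : Submonoid.powers (algebraMap V[X] O Polynomial.X) ≤ nonZeroDivisors O :=
    powers_le_nonZeroDivisors_of_noZeroDivisors hx0
  let O₁ := Localization.Away (algebraMap V[X] O Polynomial.X)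
  have hxu : IsUnit (algebraMap O Ω (algebraMap V[X] O Polynomial.X)) :=
    ((map_ne_zero_iff _ hiΩ).2 hx0).isUnit
  let _ : Algebra O₁ Ω := (IsLocalization.Away.lift _ hxu).toAlgebra
  have : IsScalarTower O O₁ Ω :=
    IsScalarTower.of_algebraMap_eq fun z => (IsLocalization.Away.lift_eq _ hxu z).symm
  have : IsDomain O₁ := IsLocalization.isDomain_of_le_nonZeroDivisors O₁ hle
  have : IsIntegrallyClosed O₁ := isIntegrallyClosed_of_isLocalization O₁ _ hle
  have : FaithfulSMul O₁ Ω := (faithfulSMul_iff_algebraMap_injective _ _).2 <| by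
    rw [injective_iff_map_eq_zero]
    intro z hz
    obtain ⟨a, b, rfl⟩ := IsLocalization.exists_mk'_eq
      (Submonoid.powers (algebraMap V[X] O Polynomial.X)) z
    have e := congrArg (algebraMap O₁ Ω) (IsLocalization.mk'_spec O₁ a b)
    rw [map_mul, hz, zero_mul, ← IsScalarTower.algebraMap_apply, eq_comm,
      map_eq_zero_iff _ hiΩ] at e
    rw [e, IsLocalization.mk'_zero]
  have : Algebra.IsAlgebraic O₁ Ω := Algebra.IsAlgebraic.extendScalars (R := O)
    (IsLocalization.injective O₁ hle)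
  have hlO : IsUnit (l : O) := by simpa using hl.map (algebraMap V O)
  have hl₁ : IsUnit (l : O₁) := by simpa using hlO.map (algebraMap O O₁)
  have hfin : Finite (sec G (ob (ob u O₁).hom Ω)) := by
    have hf := bnd_fin (hc Ω (ob (ob u O₁).hom Ω).hom
      (by simpa using (hlO.map (algebraMap O Ω)).ne_zero)).2 n
    refine Set.finite_univ_iff.1 (Set.Finite.of_finite_image (hf.subset ?_)
      (mono_sec (kernel.ι ((l ^ n) • 𝟙 F)) _).injOn)
    rintro _ ⟨s, -, rfl⟩
    exact ((exact_sec (ShortComplex.exact_kernel ((l ^ n) • 𝟙 F)) _).2 _).2 ⟨s, rfl⟩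
  have hL₁ : Lis l G.obj (ob (ob u O₁).hom O₁) := hL.2.2.mono (tw u O₁ O₁).hom
  have hker : ∀ g, g ∈ (E4.gal (ob u O₁).hom Ω G.obj).ker ↔
      ∀ m, E4.gal (ob u O₁).hom Ω G.obj g m = m := fun g =>
    ⟨fun e m => DFunLike.congr_fun (MonoidHom.mem_ker.1 e) m,
      fun e => MonoidHom.mem_ker.2 (AddMonoidHom.ext e)⟩
  obtain ⟨D, _, _, -, hD, -⟩ := finet (E4.gal (ob u O₁).hom Ω G.obj).ker (by
    classical
    choose E hE using fun m => gal_opn (Ω := Ω) (ob u O₁).hom hL.1.1.1 m
    have := Fintype.ofFinite (sec G (ob (ob u O₁).hom Ω))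
    exact ⟨Finset.univ.biUnion E, fun g hg => (hker g).2 fun m => hE m g fun e he =>
      hg e (Finset.mem_biUnion.2 ⟨m, Finset.mem_univ _, he⟩)⟩)
    fun a _ g hg => (hker g).2 fun m => gal_unr (ob u O₁).hom hL.1.1 hL₁ hl₁ m a g hg
  obtain ⟨e, y, -, he, hy, hr⟩ := abh (O₁ := O₁) hV hT hG hiΩ D.val
  refine h1 l X V O O' Ω _ e y u G hV hl hx he hy hL fun g hg m => ?_
  let g₁ : Ω ≃ₐ[O₁] Ω := { g with
    commutes' := fun z => DFunLike.congr_fun (IsLocalization.ringHom_ext
      (Submonoid.powers (algebraMap V[X] O Polynomial.X))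
      (j := (g : Ω →+* Ω).comp (algebraMap O₁ Ω)) (k := algebraMap O₁ Ω) (by
        ext z
        simp only [RingHom.comp_apply, ← IsScalarTower.algebraMap_apply]
        exact g.commutes z)) z }
  have hg₁ : g₁ ∈ (E4.gal (ob u O₁).hom Ω G.obj).ker := (hD g₁).1 fun z hz => by
    have hz' : z ∈ Algebra.adjoin O₁ {y} := hr ⟨⟨z, hz⟩, rfl⟩
    have : Algebra.adjoin O₁ {y} ≤ AlgHom.equalizer (g₁ : Ω →ₐ[O₁] Ω) (AlgHom.id O₁ Ω) :=
      Algebra.adjoin_le (Set.singleton_subset_iff.2 hg)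
    exact this hz'
  refine (ConcreteCategory.bijective_of_isIso (G.obj.map (tw u O₁ Ω).hom.op)).1 ?_
  exact (tw_rs u G.obj (g₁ : Ω →ₐ[O₁] Ω) m).trans ((hker g₁).1 hg₁ _)

end Pool.Agent.MP_855f4c_ag.E.SA

end

section

set_option autoImplicit false
set_option backward.isDefEq.respectTransparency false

open CategoryTheory Limits Abelian Opposite AlgebraicGeometry IsLocalRing

namespace Pool.Agent.MP_855f4c_ag.E.CV

open E3 E4

theorem pidv (h1 : NSL_s) (h2 : KAP_s) (h3 : PID_s) : SA.PIDV_s := by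
  intro l _ X L B _ _ _ _ _ _ _ _ _ _ t hl _ hv q x
  have hn : Linv l (Spec (.of B)) := Linv.spec (by simpa using hl.isUnit.map (algebraMap L B))
  obtain ⟨p1, p2⟩ := h3 l L B (FractionRing B) (PID.td1 L B _) hl _ (𝟙 _) l 1 (by simp) hn
  have hmu : ∀ z : H (top (Spec (.of B))) (mu _ l) (q + 1), z = 0 := fun z => by
    cases q with
    | succ q => exact p2 q z
    | zero =>
      obtain ⟨u, rfl⟩ := p1 z
      obtain ⟨w, hw⟩ := hv u u.isUnit
      exact ((h2 _ l hn B _).2.2.1 u).2 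
        ⟨Units.ofPow u w (Fact.out : l.Prime).ne_zero hw, Units.ext hw⟩
  have : NeZero (l : L) := ⟨hl⟩
  obtain ⟨ζ, hζ⟩ := HasEnoughRootsOfUnity.exists_primitiveRoot L l
  obtain ⟨e1, -⟩ := cst_mu (X := Spec (.of B)) (n := l)
    ((Scheme.ΓSpecIso (.of B)).inv (algebraMap L B ζ))
    (by rw [← map_pow, ← map_pow, hζ.pow_eq_one, map_one, map_one]) fun F _ y => by
      obtain ⟨φ, rfl⟩ := Spec.map_surjective y
      have : (Scheme.ΓSpecIso (.of F)).hom ((Spec.map φ).appTop
          ((Scheme.ΓSpecIso (.of B)).inv (algebraMap L B ζ))) = φ (algebraMap L B ζ) :=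
        (ConcreteCategory.congr_hom (Scheme.ΓSpecIso_naturality φ) _).trans
          (congrArg φ ((Scheme.ΓSpecIso (.of B)).inv_hom_id_apply _))
      rw [this]
      exact hζ.map_of_injective (f := φ.hom.comp (algebraMap L B)) (RingHom.injective _)
  let e2 : (pb (J := Scheme.etaleTopology) t).obj ((cst X).obj (SA.ZM l)) ≅ mu _ l :=
    (pb (J := Scheme.etaleTopology) t).mapIso ((cstIso X).app _) ≪≫
      (Iso.refl _ : (pb (J := Scheme.etaleTopology) t).obj (lc X _) ≅ lc _ _) ≪≫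
        ((cstIso _).app _).symm ≪≫ e1
  obtain ⟨e, -⟩ := h1 X _ t
  let i : (Over.map t).obj (top _) ≅ Over.mk t := Over.isoMk (Iso.refl _) rfl
  refine (pre_bij ((fr (Scheme.etaleTopology.over X)).map i.hom) _ _).1 (Eq.trans ?_ (map_zero _).symm)
  obtain ⟨w, hw⟩ := (e (top _) _ _).surjective (res i.hom _ _ x)
  have : w = 0 := (post_bij _ e2.hom _).1 ((hmu _).trans (map_zero _).symm)
  exact hw.symm.trans (this ▸ map_zero _)

end Pool.Agent.MP_855f4c_ag.E.CV

end

section

set_option autoImplicit false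
set_option backward.isDefEq.respectTransparency false

open CategoryTheory Limits Abelian Opposite AlgebraicGeometry

namespace Pool.Agent.MP_855f4c_ag.E.D

open E3 E4
open CV (Ln Lm)

variable {X : Scheme.{0}}

theorem GENB.tors (n : ℕ) (W : Over X) : n • 𝟙 (Ln n W) = 0 := by
  rw [← cancel_epi (cokernel.π ((n : ℤ) • 𝟙 ((fr (Scheme.etaleTopology.over X)).obj W))), Preadditive.comp_nsmul,
    comp_zero]
  have := cokernel.condition ((n : ℤ) • 𝟙 ((fr (Scheme.etaleTopology.over X)).obj W))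
  rw [Preadditive.zsmul_comp, Category.id_comp] at this
  exact (congrArg (n • ·) (Category.comp_id _)).trans ((natCast_zsmul _ _).symm.trans this)

theorem GENB.π_Lm (n : ℕ) {W' W : Over X} (g : W' ⟶ W) :
    cokernel.π _ ≫ Lm n g = (fr (Scheme.etaleTopology.over X)).map g ≫ cokernel.π _ := cokernel.π_desc _ _ _

theorem genb (h : LNM_s) : GENB_s := by
  intro l _ X n A B hn hl hA hnA hB
  let ι : Type 1 := {p : Σ W : Over X, (Ln n W ⟶ A) // Aet p.1 ∧ B p.1 p.2}
  have hT : Tc l (∐ fun i : ι => Ln n i.1.1) := Tc.sigma _ fun i => (h X n).1 l _ hn i.2.1.1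
  refine ⟨ι, fun i => i.1.1, fun i => i.1.2, fun i => i.2,
    epi_of_pts _ hT.1 hA.1 hl fun k _ _ x s => ?_, hT, Sigma.hom_ext _ _ fun i => by
      rw [Preadditive.comp_nsmul, Category.comp_id, comp_zero,
        ← Category.id_comp (Sigma.ι (fun i : ι => Ln n i.1.1) i), ← Preadditive.nsmul_comp,
        GENB.tors, zero_comp]⟩
  obtain ⟨V, v, y, t, hV, hv, -, rfl⟩ := stalk_surj hA.1.1 hA.1.2 (hl k x) (tot (Over.mk x)) s
  have hV' : Aet V := ⟨by
    have e : v.left = V.hom := (Category.comp_id _).symm.trans (Over.w v)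
    rwa [← e], hV⟩
  obtain ⟨b, rfl⟩ := (frEquiv V A).surjective t
  let a : Ln n V ⟶ A := cokernel.desc _ b (by
    rw [Preadditive.zsmul_comp, Category.id_comp, natCast_zsmul, ← Category.comp_id b,
      ← Preadditive.comp_nsmul, hnA, comp_zero])
  obtain ⟨W, g, hW, hw, hb⟩ := hB V hV' a (y.left (default : PrimeSpectrum k))
  have : Etale g.left := by
    have h1 := hV'.1
    have h2 : Etale (g.left ≫ V.hom) := by rw [Over.w g]; exact hW.1
    exact Etale.of_comp g.left V.hom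
  obtain ⟨y', rfl⟩ := lift_geom g y _ hw
  refine ⟨frEquiv _ _ ((fr (Scheme.etaleTopology.over X)).map y' ≫ cokernel.π _ ≫
    Sigma.ι (fun i : ι => Ln n i.1.1) ⟨⟨W, Lm n g ≫ a⟩, hW, hb⟩), ?_⟩
  rw [← frEquiv_post, ← frEquiv_pre, Category.assoc, Category.assoc, Sigma.ι_desc]
  erw [reassoc_of% (GENB.π_Lm n g), cokernel.π_desc]
  rw [Functor.map_comp, Category.assoc]

theorem sumh : SUMH_s := by
  intro X T _ _ ι F q x
  classical
  obtain ⟨s, y, rfl⟩ := (colim_qcs T _
    (CoproductsFromFiniteFiltered.isColimitFiniteSubproductsCocone F) q).1 x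
  let G : s → Sh (Scheme.etaleTopology.over X) := fun j => F j.1.as
  let p : ∀ j, ∐ G ⟶ G j := fun j => (biproduct.isoCoproduct G).inv ≫ biproduct.π G j
  have e : (Sigma.desc fun j : s => Sigma.ι F j.1.as) = ∑ j : s, p j ≫ Sigma.ι F j.1.as := by
    rw [← cancel_epi (biproduct.isoCoproduct G).hom, Preadditive.comp_sum]
    simp only [p, Category.assoc, Iso.hom_inv_id_assoc]
    refine biproduct.hom_ext' _ _ fun j => ?_
    rw [Preadditive.comp_sum, Finset.sum_eq_single j (fun b _ hb => by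
      rw [biproduct.ι_π_ne_assoc _ hb.symm, zero_comp]) (by simp), biproduct.ι_π_self_assoc]
    simp [G]
  refine ⟨Finset.univ.image fun j : s => j.1.as,
    fun i => if hi : ⟨i⟩ ∈ s then post _ (p ⟨⟨i⟩, hi⟩) q y else 0, ?_⟩
  rw [Finset.sum_image fun a _ b _ hab => Subtype.ext (Discrete.ext hab)]
  refine (congrArg (fun a : ∐ G ⟶ ∐ F => Ext.comp (show H T (∐ G) q from y) (Ext.mk₀ a)
    (add_zero q)) e).trans ?_
  rw [Ext.mk₀_sum, Ext.comp_sum]
  refine Finset.sum_congr rfl fun j _ => ?_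
  beta_reduce
  rw [dif_pos j.2]
  exact (post_post _ _ y).symm

end Pool.Agent.MP_855f4c_ag.E.D

end

section

/-! h86e section D: the duality pairing on a slice. -/

set_option autoImplicit false
set_option backward.isDefEq.respectTransparency false

open CategoryTheory Limits Abelian Opposite AlgebraicGeometry Function

namespace Pool.Agent.MP_855f4c_ag.E.D

open E3 E4
open CV (Ln Lm)
open DU (ps ιt θ W)

attribute [local irreducible] Ext.comp Ext.mk₀ Ext.mapExactFunctor ShortComplex.ShortExact.extClass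

section abs
variable {C D : Type 2} [Category.{1} C] [Abelian C] [Category.{1} D] [Abelian D] [HasExt.{1} C]
  [HasExt.{1} D] (P : C ⥤ D) [P.Additive] [PreservesFiniteLimits P] [PreservesFiniteColimits P]

lemma cmp_eq {A : C} {B : D} (a : B ⟶ P.obj A) {F : C} {q : ℕ} (x : Ext A F q) :
    cmp P a F q x = pre a _ q (x.mapExactFunctor P) := rfl

lemma cmp_τ₃ {T : ShortComplex C} (hT : T.ShortExact) {S : ShortComplex D} (hS : S.ShortExact)
    (φ : S ⟶ T.map P) (F : C) (h₁ : ∀ q, Bijective (cmp P (A := T.X₁) φ.τ₁ F q))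
    (h₂ : ∀ q, Bijective (cmp P (A := T.X₂) φ.τ₂ F q)) (q : ℕ) :
    Bijective (cmp P (A := T.X₃) φ.τ₃ F q) :=
  (con_les hT F).bij₁ (con_les hS (P.obj F)) (cmp P (A := T.X₃) φ.τ₃ F) (cmp P (A := T.X₂) φ.τ₂ F)
    (cmp P (A := T.X₁) φ.τ₁ F)
    (fun _ x => by rw [cmp_eq, cmp_eq, map_pre, pre_pre, pre_pre, ← φ.comm₂₃]; rfl)
    (fun _ x => by rw [cmp_eq, cmp_eq, map_pre, pre_pre, pre_pre, ← φ.comm₁₂]; rfl)
    (fun _ x => by
      rw [cmp_eq, cmp_eq, map_dr]
      exact (pre_dr hS (hT.map_of_exact P) φ _).symm) h₂ h₁ q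

/-- The composition pairing after an exact functor. -/
noncomputable def pr {A F : C} {B Z : D} (a : B ⟶ P.obj A) {i j N : ℕ} (h : j + i = N) :
    Ext A F i →+ Ext Z B j →+ Ext Z (P.obj F) N :=
  (Ext.bilinearComp Z B (P.obj F) j i N h).flip.comp (cmp P a F i)

lemma pr_apply {A F : C} {B Z : D} (a : B ⟶ P.obj A) {i j N : ℕ} (h : j + i = N) (x : Ext A F i)
    (z : Ext Z B j) : pr P a h x z = z.comp (cmp P a F i x) h := rfl

end abs

variable {X Y : Scheme.{0}} (f : Y ⟶ X)

/-- The tautological map. -/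
noncomputable def tt {U : Over X} (v : (Over.map f).obj (top Y) ⟶ U) :
    (fr (Scheme.etaleTopology.over Y)).obj (top Y) ⟶ (ps f).obj ((fr (Scheme.etaleTopology.over X)).obj U) :=
  taut (Scheme.etaleTopology.over X) (Scheme.etaleTopology.over Y) (Over.map f) (top Y) ≫ (ps f).map ((fr _).map v)

lemma tt_iso (v : (Over.map f).obj (top Y) ⟶ top X) : IsIso (tt f v) := by
  have hX : IsTerminal (top X) := Over.mkIdTerminal
  have hY : IsTerminal (top Y) := Over.mkIdTerminal
  have := (Over.mapPullbackAdj f).rightAdjoint_preservesLimits.{0, 0}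
  let e := hY.uniqueUpToIso (hX.isTerminalObj (Over.pullback f))
  have h : tt f v = (fr _).map e.hom ≫ frPb (Scheme.etaleTopology.over Y) (Scheme.etaleTopology.over X) (Over.mapPullbackAdj f) (top X) := by
    rw [frPb, ← Category.assoc, taut_nat, Category.assoc, ← Functor.map_comp, ← Functor.map_comp,
      tt, hX.hom_ext v]
  rw [h]
  infer_instance

lemma slH_eq (F : Sh (Scheme.etaleTopology.over X)) (q : ℕ) (y : H (Over.mk f) F q) :
    DU.slH f F q y = cmp (ps f) (tt f (ιt f)) F q y := cmp_pre _ _ _ y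

variable {f} {Φ : Y ⟶ Y} (h : Φ ≫ f = f)

lemma key {F : Sh (Scheme.etaleTopology.over X)} (φ : (fr (Scheme.etaleTopology.over X)).obj (Over.mk f) ⟶ F) :
    tt Φ (Over.homMk Φ (by simp) : _ ⟶ top Y) ≫ (ps Φ).map (tt f (ιt f) ≫ (ps f).map φ) ≫ θ h F =
      tt f (ιt f) ≫ (ps f).map ((fr _).map (Over.homMk Φ h : Over.mk f ⟶ Over.mk f) ≫ φ) := by
  have := DU.slH_res h (F := F) (Ext.mk₀ φ)
  rw [slH_eq, slH_eq, cmp_mk₀, pre_apply, Ext.mk₀_comp_mk₀, cmp_mk₀] at this
  have e (A : Sh (Scheme.etaleTopology.over Y)) (ψ : (fr (Scheme.etaleTopology.over Y)).obj (top Y) ⟶ A) : W Φ A 0 (Ext.mk₀ ψ) =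
      Ext.mk₀ (tt Φ (Over.homMk Φ (by simp) : _ ⟶ top Y) ≫ (ps Φ).map ψ) :=
    (cmp_pre _ _ _ _).trans (cmp_mk₀ _ _ _)
  rw [e, post_apply, Ext.mk₀_comp_mk₀, Category.assoc] at this
  exact (Ext.mk₀_bijective _ _).1 this

theorem pair (hL : LNM_s) : PAIR_s := by
  rintro l _ X ⟨Y, ⟨⟨⟩⟩, f⟩ N ⟨t, ht⟩
  change Y ⟶ X at f
  obtain ⟨ι⟩ : Nonempty ((ps f).obj (Linf l X) ≅ Linf l Y) := SA.pb_cst f _
  let T : Over X := Over.mk f
  let σ (F : Sh (Scheme.etaleTopology.over X)) (q : ℕ) := AddEquiv.ofBijective _ (DU.slH_bij f F q)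
  refine ⟨t.comp ((post _ ι.hom N).comp (DU.slH f _ N)), fun m i j hN => ?_⟩
  obtain ⟨hT, ⟨e : _ ≅ Zl X l m⟩, -⟩ := hL X (l ^ m)
  have : NeZero ((l ^ m : ℕ) : ℤ) :=
    ⟨Int.natCast_ne_zero.2 (pow_ne_zero _ (Fact.out : l.Prime).ne_zero)⟩
  let S (U : Over X) := ShortComplex.mk _ _
    (cokernel.condition (((l ^ m : ℕ) : ℤ) • 𝟙 ((fr (Scheme.etaleTopology.over X)).obj U)))
  have hS (U : Over X) : (S U).ShortExact := { exact := ShortComplex.exact_cokernel _ }
  have h0 := (hS (top X)).map_of_exact (ps f)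
  let c := tt f (ιt f) ≫ (ps f).map ((fr _).map (tot T))
  have : IsIso c := by
    have := tt_iso f (ιt f ≫ tot T)
    rwa [tt, Functor.map_comp, Functor.map_comp, ← Category.assoc] at this
  let a₀ := inv c ≫ tt f (ιt f)
  have w₀ : ((S (top X)).map (ps f)).f ≫ a₀ = a₀ ≫ ((S T).map (ps f)).f := by
    simp only [S, ShortComplex.map_f, Functor.map_zsmul, CategoryTheory.Functor.map_id,
      Preadditive.zsmul_comp, Preadditive.comp_zsmul]
    exact congrArg _ ((Category.id_comp _).trans (Category.comp_id _).symm)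
  have := h0.epi_g
  let a₁ : (ps f).obj (Ln (l ^ m) (top X)) ⟶ (ps f).obj (Ln (l ^ m) T) :=
    h0.exact.desc (a₀ ≫ ((S T).map (ps f)).g) (by
      rw [← Category.assoc, w₀, Category.assoc, ShortComplex.zero, comp_zero])
  have w₁ : ((S (top X)).map (ps f)).g ≫ a₁ = a₀ ≫ ((S T).map (ps f)).g := h0.exact.g_desc _ _
  have b₀ (q : ℕ) : Bijective (cmp (ps f) a₀ (Linf l X) q) := by
    have : ⇑(cmp (ps f) a₀ (Linf l X) q) = pre (inv c) _ q ∘ DU.slH f _ q := funext fun y => by
      rw [Function.comp_apply, slH_eq, cmp_eq, cmp_eq, pre_pre]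
    rw [this]
    exact (pre_bij _ _ q).comp (DU.slH_bij f _ q)
  have b₁ : Bijective (cmp (ps f) a₁ (Linf l X) i) :=
    cmp_τ₃ (ps f) (hS T) h0 ⟨a₀, a₀, a₁, w₀.symm, w₁.symm⟩ _ b₀ b₀ i
  let a : (ps f).obj (Zl X l m) ⟶ (ps f).obj (Ln (l ^ m) T) := (ps f).map e.inv ≫ a₁
  refine ⟨(pr (ps f) a hN).compr₂ (σ _ N).symm.toAddMonoidHom |>.flip.comp (DU.slH f _ j) |>.flip,
    fun x hx => ?_, fun g x y => ?_⟩
  · have hA : Tc l ((ps f).obj (Zl X l m)) :=
      pb_tc f (Tc.of_iso e (hT l (top X) ⟨m, rfl⟩ (inferInstanceAs (Etale (𝟙 X)))))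
    have h1 : post _ ι.hom i (cmp (ps f) a _ i x) = 0 := (ht _ hA i j hN).1 (by
      ext z
      obtain ⟨y, rfl⟩ := (DU.slH_bij f _ j).2 z
      have := hx y
      change t (post _ ι.hom N (σ _ N ((σ _ N).symm _))) = 0 at this
      rw [AddEquiv.apply_symm_apply] at this
      change t (Ext.comp _ _ hN) = t (Ext.comp _ 0 hN)
      rw [Ext.comp_zero, map_zero, ← this, post_apply, post_apply,
        ← Ext.comp_assoc _ _ _ hN (add_zero i) (by omega)]
      rfl)
    have h2 := (post_bij _ ι.hom i).1 (h1.trans (map_zero _).symm)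
    rw [cmp_eq, ← pre_pre] at h2
    exact b₁.1 (((pre_bij _ _ i).1 (h2.trans (map_zero _).symm)).trans (map_zero _).symm)
  · obtain ⟨Φ, h, rfl⟩ : ∃ (Φ : Y ⟶ Y) (h : Φ ≫ f = f), g = (Over.homMk Φ h : T ⟶ T) :=
      ⟨g.left, Over.w g, rfl⟩
    let g : T ⟶ T := Over.homMk Φ h
    let π (U : Over X) : (fr (Scheme.etaleTopology.over X)).obj U ⟶ Ln (l ^ m) U := cokernel.π _
    let φ := (fr _).map (tot T) ≫ π (top X) ≫ e.hom
    have hφ : (tt f (ιt f) ≫ (ps f).map φ) ≫ a = tt f (ιt f) ≫ (ps f).map (π T) := by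
      have : c ≫ (ps f).map (π (top X)) ≫ a₁ = c ≫ (inv c ≫ tt f (ιt f)) ≫ (ps f).map (π T) :=
        congrArg _ w₁
      rw [Category.assoc (inv c), IsIso.hom_inv_id_assoc] at this
      rw [← this, Functor.map_comp, Functor.map_comp]
      simp only [a, c, Category.assoc, Iso.map_hom_inv_id_assoc]
    have : Epi (tt f (ιt f) ≫ (ps f).map φ) := by
      have : Epi ((ps f).map (π (top X))) := h0.epi_g
      rw [Functor.map_comp, Functor.map_comp, ← Category.assoc]
      exact epi_comp c _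
    have := tt_iso Φ (Over.homMk Φ (by simp) : _ ⟶ top Y)
    have hk : (ps Φ).map a ≫ θ h _ = θ h _ ≫ a ≫ (ps f).map (Lm _ g) := by
      rw [← cancel_epi ((ps Φ).map (tt f (ιt f) ≫ (ps f).map φ)),
        ← cancel_epi (tt Φ (Over.homMk Φ (by simp) : _ ⟶ top Y)), ← Functor.map_comp_assoc, hφ, key,
        reassoc_of% (key h φ)]
      have h1 : (fr _).map g ≫ φ = φ := by
        rw [← Functor.map_comp_assoc, Over.mkIdTerminal.hom_ext (g ≫ tot T) (tot T)]
      have h2 : π T ≫ Lm _ g = (fr _).map g ≫ π T := cokernel.π_desc _ _ _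
      rw [h1, ← h2, Functor.map_comp, ← Category.assoc, ← hφ]
      simp only [Category.assoc]
    refine (σ _ N).injective ?_
    change σ _ N ((σ _ N).symm (pr (ps f) a hN (pre (Lm _ g) _ i x)
      (DU.slH f _ j (res g _ j y)))) =
      DU.slH f _ N (res g _ N ((σ _ N).symm (pr (ps f) a hN x (DU.slH f _ j y))))
    rw [AddEquiv.apply_symm_apply, ← DU.slH_res h, ← DU.slH_res h]
    change _ = post _ _ N (W Φ _ N (σ _ N ((σ _ N).symm _)))
    rw [AddEquiv.apply_symm_apply, pr_apply, pr_apply, DU.W_comp, post_apply, post_apply,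
      Ext.comp_assoc _ _ _ (add_zero j) (zero_add i) (by omega),
      Ext.comp_assoc _ _ _ hN (add_zero i) (by omega), ← pre_apply, ← post_apply, cmp_eq, cmp_eq,
      map_pre (ps Φ), map_pre (ps f) (Lm _ g), ← pre_post, DU.natx (ps f) (ps Φ) (ps f) (θ h) (DU.pn_nat _ _ _ _ _ _ _),
      pre_pre, pre_pre, pre_pre, hk, Category.assoc]

end Pool.Agent.MP_855f4c_ag.E.D

end
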