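import Pool.Agent.MP_855f4c_ag.EC.Sc
import Pool.Agent.MP_855f4c_ag.EC.F2c
import Pool.Agent.MP_855f4c_ag.EC.Pa
import Pool.Agent.MP_855f4c_ag.EC.F2f

section

/-! Section S: the blow-up over a localisation of the base. -/

set_option autoImplicit false
set_option backward.isDefEq.respectTransparency false

open CategoryTheory Limits Abelian Opposite AlgebraicGeometry Polynomial IsLocalRing TensorProduct
open Function

namespace Pool.Agent.MP_855f4c_ag.E.SA

open E3 E4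

theorem blp_key (h : AFFV_s) (l : ℕ) [Fact l.Prime] {B D : Type} [CommRing B] [IsDomain B]
    [CommRing D] [IsDomain D] (hB : Aic B) (hD : Aic D) (hl : IsUnit (l : B)) (φ : B →+* D)
    (hφ : Injective φ) (P : Ideal B) [P.IsPrime] {U : Scheme.{0}}
    (u : U ⟶ Spec (.of (Localization.AtPrime P))) (v : U ⟶ Spec (.of D))
    (hU : IsPullback u v (spc (algebraMap B (Localization.AtPrime P))) (spc φ)) :
    AB (ZM l) u := by
  let : Algebra B D := φ.toAlgebra
  let S : Submonoid D := Algebra.algebraMapSubmonoid D P.primeCompl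
  have hS : S ≤ nonZeroDivisors D := by
    rintro _ ⟨b, hb, rfl⟩
    refine mem_nonZeroDivisors_of_ne_zero fun h0 => hb ?_
    have : b = 0 := hφ (h0.trans (map_zero φ).symm)
    rw [this]
    exact P.zero_mem
  let D' : Type := Localization S
  have : IsDomain D' := IsLocalization.isDomain_localization hS
  let : Algebra (Localization.AtPrime P) D' := localizationAlgebra P.primeCompl D
  have : IsScalarTower B (Localization.AtPrime P) D' := isScalarTower_localizationAlgebra _ _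
  have : Algebra.IsPushout B (Localization.AtPrime P) D D' :=
    (Algebra.isPushout_of_isLocalization P.primeCompl (Localization.AtPrime P) D D').symm
  have hp := isPullback_SpecMap_of_isPushout _ _ _ _
    (CommRingCat.isPushout_of_isPushout B (Localization.AtPrime P) D D')
  have hR : Aic (Localization.AtPrime P) := hB.of_isLocalization P.primeCompl
  have hD' : Aic D' := hD.of_isLocalization S
  have hl' : IsUnit (l : Localization.AtPrime P) := by
    simpa using hl.map (algebraMap B (Localization.AtPrime P))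
  have ha := aicb h l (algebraMap (Localization.AtPrime P) D') hR hD' hl'
  let e := hU.isoIsPullback _ _ hp
  have he : e.hom ≫ spc (algebraMap (Localization.AtPrime P) D') = u :=
    hU.isoIsPullback_hom_fst _ _ hp
  let a : Over.mk u ≅ Over.mk (spc (algebraMap (Localization.AtPrime P) D')) := Over.isoMk e he
  exact (hb_of_sq (tp u) (tp _) a.hom (𝟙 _) (Over.OverMorphism.ext
    (he.trans (Category.comp_id u).symm))).2 ha

theorem blp_geo {W Y R SB S₁ S₂ S₀ : Scheme.{0}} (y : Y ⟶ SB) (ι₁ : S₁ ⟶ Y) (ι₂ : S₂ ⟶ Y)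
    (c₁ : S₀ ⟶ S₁) (c₂ : S₀ ⟶ S₂) (glue : IsPullback c₁ c₂ ι₁ ι₂) (p : W ⟶ R) (w : W ⟶ Y)
    (r : R ⟶ SB) (hW : IsPullback p w r y) :
    ∃ v, IsPullback (pullback.fst (pullback.fst w ι₁) (pullback.fst w ι₂) ≫ pullback.fst w ι₁ ≫ p)
      v r (c₁ ≫ ι₁ ≫ y) := by
  have A := (IsPullback.of_hasPullback (pullback.fst w ι₁) (pullback.fst w ι₂)).paste_vert
    (IsPullback.of_hasPullback w ι₂)
  rw [pullback.condition] at A
  let v := glue.lift (pullback.fst (pullback.fst w ι₁) (pullback.fst w ι₂) ≫ pullback.snd w ι₁)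
    (pullback.snd _ _ ≫ pullback.snd w ι₂) (by simpa using A.w)
  have B : IsPullback (pullback.fst (pullback.fst w ι₁) (pullback.fst w ι₂)) v
      (pullback.snd w ι₁) c₁ :=
    IsPullback.of_bot (by rwa [glue.lift_snd]) (glue.lift_fst _ _ _).symm glue
  exact ⟨v, B.paste_horiz ((IsPullback.of_hasPullback w ι₁).paste_horiz hW)⟩

/-- Mayer-Vietoris for the structure arrows of two opens. -/
theorem blp_mv (M : Ab.{1}) {W R U₁ U₂ U₀ : Scheme.{0}} (p : W ⟶ R) (j₁ : U₁ ⟶ W) (j₂ : U₂ ⟶ W)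
    (a₁ : U₀ ⟶ U₁) (a₂ : U₀ ⟶ U₂) [IsOpenImmersion j₁] [IsOpenImmersion j₂]
    (sq : IsPullback a₁ a₂ j₁ j₂) (cov : ∀ t : W, t ∈ Set.range j₁ ∨ t ∈ Set.range j₂)
    (h₀ : AB M (a₁ ≫ j₁ ≫ p)) (h₁ : AB M (j₁ ≫ p)) (h₂ : AB M (j₂ ≫ p)) : AB M p := by
  let b₁ : Over.mk (a₁ ≫ j₁ ≫ p) ⟶ Over.mk (j₁ ≫ p) := Over.homMk a₁
  let b₂ : Over.mk (a₁ ≫ j₁ ≫ p) ⟶ Over.mk (j₂ ≫ p) := Over.homMk a₂ (sq.w_assoc p).symm
  let k₁ : Over.mk (j₁ ≫ p) ⟶ Over.mk p := Over.homMk j₁
  let k₂ : Over.mk (j₂ ≫ p) ⟶ Over.mk p := Over.homMk j₂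
  have hs : IsPullback b₁ b₂ k₁ k₂ :=
    IsPullback.of_map (Over.forget R) (Over.OverMorphism.ext sq.w) sq
  have : IsOpenImmersion k₁.left := inferInstanceAs (IsOpenImmersion j₁)
  have : IsOpenImmersion k₂.left := inferInstanceAs (IsOpenImmersion j₂)
  have : IsOpenImmersion (𝟙 (top R) : top R ⟶ top R).left := inferInstanceAs (IsOpenImmersion (𝟙 R))
  refine hb_of_con fun N => ?_
  exact mv_con (IsPullback.id_horiz (𝟙 (top R))) (fun t => Or.inl ⟨t, rfl⟩) hs cov (tp _) (tp _)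
    (tp _) (tp p) (Over.OverMorphism.ext (Category.comp_id _).symm)
    (Over.OverMorphism.ext ((sq.w_assoc p).symm.trans (Category.comp_id _).symm))
    (Over.OverMorphism.ext (Category.comp_id _).symm)
    (Over.OverMorphism.ext (Category.comp_id _).symm) (h₀.con _) (h₁.con _) (h₂.con _)

theorem blp (h : AFFV_s) : BLP_s := by
  intro l _ B B₁ B₂ C _ _ _ _ _ _ _ _ _ _ _ _ hB h₁ h₂ hC hl hi Y y ι₁ ι₂ hT P _ W p w hW
  obtain ⟨o₁, o₂, cov, glue, e₁, e₂⟩ := hT
  have ec : ∀ {A A' A'' : Type} [CommRing A] [CommRing A'] [CommRing A''] (f : A →+* A')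
      (g : A' →+* A''), spc g ≫ spc f = spc (g.comp f) := fun f g => by
    rw [← Spec.map_comp]; rfl
  have hc : (algebraMap B₁ C).comp (algebraMap B B₁) =
      (algebraMap B₂ C).comp (algebraMap B B₂) := by
    have := glue.w_assoc y
    rw [e₁, e₂, ec, ec] at this
    exact congrArg CommRingCat.Hom.hom (Spec.map_injective this)
  have i₁ : Injective (algebraMap B B₁) := Injective.of_comp (f := algebraMap B₁ C) hi
  rw [hc] at hi
  have i₂ : Injective (algebraMap B B₂) := Injective.of_comp (f := algebraMap B₂ C) hi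
  rw [← hc] at hi
  have s₁ := (IsPullback.of_hasPullback w ι₁).paste_horiz hW
  have s₂ := (IsPullback.of_hasPullback w ι₂).paste_horiz hW
  obtain ⟨v, s₀⟩ := blp_geo y ι₁ ι₂ _ _ glue p w _ hW
  rw [e₁, ec] at s₀
  rw [e₁] at s₁
  rw [e₂] at s₂
  refine blp_mv _ p _ _ _ _ (IsPullback.of_hasPullback (pullback.fst w ι₁) (pullback.fst w ι₂))
    (fun t => ?_) (blp_key h l hB hC hl _ hi P _ _ s₀) (blp_key h l hB h₁ hl _ i₁ P _ _ s₁)
    (blp_key h l hB h₂ hl _ i₂ P _ _ s₂)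
  rw [Scheme.Pullback.range_fst, Scheme.Pullback.range_fst]
  exact cov (w t)

end Pool.Agent.MP_855f4c_ag.E.SA

end

section

set_option autoImplicit false
set_option backward.isDefEq.respectTransparency false

open CategoryTheory Limits Abelian Opposite AlgebraicGeometry Polynomial IsLocalRing TensorProduct
open Function

namespace Pool.Agent.MP_855f4c_ag.E.SA

open E3 E4

namespace BL

section ab
variable {M : Ab.{1}} {T'' T' T : Scheme.{0}} {f : T'' ⟶ T'} {g : T' ⟶ T}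

/-- `f` as a morphism over `T`. -/
noncomputable def up1 (f : T'' ⟶ T') (g : T' ⟶ T) : Over.mk (f ≫ g) ⟶ Over.mk g := Over.homMk f

lemma up1_tp : up1 f g ≫ tp g = tp (f ≫ g) := Over.OverMorphism.ext rfl

lemma ab_comp (hf : AB M f) (hg : AB M g) : AB M (f ≫ g) := by
  have := HB.comp ((hb_cst_iff (up1 f g) M).2 hf) hg
  rwa [up1_tp] at this

lemma ab_left (h : AB M (f ≫ g)) (hf : AB M f) : AB M g :=
  HB.of_comp_left (f := up1 f g) (by rw [up1_tp]; exact h) ((hb_cst_iff (up1 f g) M).2 hf)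

lemma ab_right (h : AB M (f ≫ g)) (hg : AB M g) : AB M f :=
  (hb_cst_iff (up1 f g) M).1 (HB.of_comp_right (by rw [up1_tp]; exact h) hg)

end ab

section fib
variable {S P Y : Scheme.{0}} (π : P ⟶ S) (ρ : Y ⟶ P)

/-- The fibre product of `T` and `Y` over `S`. -/
noncomputable abbrev Φ : Over S ⥤ Over Y := Over.pullback π ⋙ Over.pullback ρ

/-- Its first projection. -/
noncomputable def prj (T : Over S) : ((Φ π ρ).obj T).left ⟶ T.left :=
  pullback.fst (pullback.snd T.hom π) ρ ≫ pullback.fst T.hom π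

lemma sq (T : Over S) : IsPullback (prj π ρ T) ((Φ π ρ).obj T).hom T.hom (ρ ≫ π) :=
  ((IsPullback.of_hasPullback (pullback.snd T.hom π) ρ).flip.paste_vert
    (IsPullback.of_hasPullback T.hom π).flip).flip

lemma nat {T' T : Over S} (g : T' ⟶ T) :
    ((Φ π ρ).map g).left ≫ prj π ρ T = prj π ρ T' ≫ g.left := by
  simp [prj]

end fib

variable {l : ℕ} [Fact l.Prime] {S Y : Scheme.{0}} (L : PL S) (ρ : Y ⟶ L.P) [IsIntegralHom ρ]

/-- Proper base change for `ρ ≫ π` at a strictly henselian ring. -/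
lemma rig (h2 : PBC_s) {A k : Type} [CommRing A] [SHL A] [Field k] [IsAlgClosed k] (φ : A →+* k)
    [IsLocalHom φ] (a : Spec (.of A) ⟶ S) (b : Spec (.of k) ⟶ S) (h : spc φ ≫ a = b)
    (hl : IsUnit (l : A)) : AB (ZM l) ((Φ L.π ρ).map (sph φ h)).left := by
  have hT : Tc l ((pf (J := Scheme.etaleTopology) ρ).obj ((cst Y).obj (ZM l))) :=
    pf_tc ρ (cst_Tc _ fun m => ⟨1, ULift.ext _ _ (by
      show l ^ 1 • m.down = 0
      rw [pow_one, nsmul_eq_mul, ZMod.natCast_self, zero_mul])⟩)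
  refine (hb_cst_iff _ _).1 ((hb_pf ρ _ _).1 fun q => ?_)
  exact (Rig.of_locBij (toSheafify (Scheme.etaleTopology.over S) ((Over.pullback L.π).op ⋙ HP _ q))).2
    (h2 l S L _ q hT).1.2 A k φ a b h hl

/-- The fibre over a strictly henselian ring and over a geometric point of its closed point. -/
lemma ab_iff (h2 : PBC_s) {A k : Type} [CommRing A] [SHL A] [Field k] [IsAlgClosed k]
    (φ : A →+* k) [IsLocalHom φ] (a : Spec (.of A) ⟶ S) (b : Spec (.of k) ⟶ S)
    (h : spc φ ≫ a = b) (hl : IsUnit (l : A)) :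
    AB (ZM l) (prj L.π ρ (Over.mk a)) ↔ AB (ZM l) (prj L.π ρ (Over.mk b)) := by
  have e := nat L.π ρ (sph φ h)
  have h1 := rig L ρ h2 φ a b h hl
  have h3 : AB (ZM l) (sph φ h).left := ab_shl _ φ
  constructor
  · intro H
    have := ab_comp h1 H
    rw [e] at this
    exact ab_right this h3
  · intro H
    have := ab_comp H h3
    rw [← e] at this
    exact ab_left this h1

end BL

open BL in
theorem bl (h1 : LTG_s) (h2 : PBC_s) : BL_s := by
  intro l _ B _ hB hl L Y ρ _ hP A _ _ W p w hW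
  have : IsProper L.π := MorphismProperty.of_isPullback (P := @IsProper) L.sq P1D.prop
  have : QuasiCompact p := MorphismProperty.of_isPullback hW.flip inferInstance
  have : IsSeparated p := MorphismProperty.of_isPullback hW.flip inferInstance
  have hsep : W.IsSeparated := ⟨by rw [← terminal.comp_from p]; infer_instance⟩
  let u : Spec (.of A) ⟶ Spec (.of A) := 𝟙 _
  let p' : Over.mk (p ≫ (ob u A).hom) ⟶ ob u A := Over.homMk p
  refine (hb_cst_iff p' _).1 (hb_of_con fun N => h1 _ _ (cst_Cc l _).1 A u _ p'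
    (QuasiCompact.compactSpace_of_compactSpace p) hsep N fun E _ _ _ I hI => ?_)
  obtain ⟨m, hm', hIm⟩ := I.exists_le_maximal hI
  let := Ideal.Quotient.field m
  let k := AlgebraicClosure (E ⧸ m)
  obtain ⟨O, _, _, _, _, _, hO, hk⟩ := exists_SH E k
  let : Algebra A O := ((algebraMap E O).comp (algebraMap A E)).toAlgebra
  let ψ : B →+* O := (algebraMap A O).comp (algebraMap B A)
  let χ : B →+* k := (algebraMap O k).comp ψ
  have : (RingHom.ker χ).IsPrime := RingHom.ker_isPrime χ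
  let C := Localization.AtPrime (RingHom.ker χ)
  have : SHL C := (hB.of_isLocalization (RingHom.ker χ).primeCompl).shl
  let r : C →+* k := IsLocalization.lift (M := (RingHom.ker χ).primeCompl) (g := χ)
    fun y => isUnit_iff_ne_zero.2 y.2
  have : IsLocalHom r := ⟨fun x hx => by
    obtain ⟨⟨y, z⟩, rfl⟩ := IsLocalization.mk'_surjective (RingHom.ker χ).primeCompl x
    refine (IsLocalization.AtPrime.isUnit_mk'_iff C _ y z).2 fun hy => hx.ne_zero ?_
    exact (IsLocalization.lift_mk'_spec _ _ _ _).2 (by rw [mul_zero]; exact hy)⟩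
  have hC := (ab_iff L ρ h2 r (spc (algebraMap B C)) (spc χ)
    (by rw [← Spec.map_comp, ← CommRingCat.ofHom_comp, IsLocalization.lift_comp])
    (by simpa using hl.map (algebraMap B C))).1 (hP _ _ _ _ (sq L.π ρ (Over.mk _)))
  have hA := (ab_iff L ρ h2 (algebraMap O k) (spc ψ) (spc χ)
    (by rw [← Spec.map_comp, ← CommRingCat.ofHom_comp]) (by simpa using hl.map ψ)).2 hC
  have hs := sq L.π ρ (Over.mk (spc ψ))
  have e : spc (algebraMap A O) ≫ spc (algebraMap B A) = spc ψ := by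
    rw [← Spec.map_comp, ← CommRingCat.ofHom_comp]
  let v := hW.lift (prj L.π ρ (Over.mk (spc ψ)) ≫ spc (algebraMap A O)) _
    (by rw [Category.assoc, e]; exact hs.w)
  have hv : IsPullback (prj L.π ρ (Over.mk (spc ψ))) v (spc (algebraMap A O)) p :=
    IsPullback.of_bot (by rw [e, hW.lift_snd]; exact hs) (hW.lift_fst ..).symm hW
  let w₁ : Over.mk (prj L.π ρ (Over.mk (spc ψ)) ≫ (ob u O).hom) ⟶ ob u O := Over.homMk _
  refine ⟨O, _, _, _, IsScalarTower.of_algebraMap_eq fun _ => rfl, inferInstance, hO,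
    fun z hz hu => (hu.map (algebraMap O k)).ne_zero ?_, _, w₁,
    Over.homMk v ?_, ?_, ((hb_cst_iff w₁ _).2 hA).con _⟩
  · rw [← IsScalarTower.algebraMap_apply, IsScalarTower.algebraMap_apply E (E ⧸ m) k,
      Ideal.Quotient.algebraMap_eq, Ideal.Quotient.eq_zero_iff_mem.2 (hIm hz), map_zero]
  · show v ≫ p ≫ _ = _ ≫ _
    rw [← Category.assoc, ← hv.w, Category.assoc]
    exact congrArg _ (Over.w (hm u (Algebra.ofId A O)))
  · exact IsPullback.of_map_of_faithful (Over.forget _) hv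

end Pool.Agent.MP_855f4c_ag.E.SA

end

section

set_option autoImplicit false
set_option backward.isDefEq.respectTransparency false

open CategoryTheory Limits Abelian Opposite AlgebraicGeometry Polynomial IsLocalRing TensorProduct
open Function

namespace Pool.Agent.MP_855f4c_ag.E.SA

open E3 E4

namespace ZMV

lemma mv3 {X : Scheme.{0}} {F : Sh (Scheme.etaleTopology.over X)} {T W U₁ U₂ U₀ : Over X} {p : W ⟶ T} (hp : HB p F)
    {i₁ : U₁ ⟶ W} {i₂ : U₂ ⟶ W} {a₁ : U₀ ⟶ U₁} {a₂ : U₀ ⟶ U₂} (h : IsPullback a₁ a₂ i₁ i₂)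
    [IsOpenImmersion i₁.left] [IsOpenImmersion i₂.left]
    (hc : ∀ t : W.left, t ∈ Set.range i₁.left ∨ t ∈ Set.range i₂.left)
    {r₁ : U₁ ⟶ T} {r₂ : U₂ ⟶ T} (e₁ : i₁ ≫ p = r₁) (e₂ : i₂ ≫ p = r₂) :
    (∀ x, res r₁ F 0 x = 0 → res r₂ F 0 x = 0 → x = 0) ∧
    (∀ q z₀ z₁, res a₁ F q z₀ = res a₂ F q z₁ → ∃ z, res r₁ F q z = z₀ ∧ res r₂ F q z = z₁) ∧
    ∀ q, Surjective (res a₁ F q) →
      ∀ x, res r₁ F (q + 1) x = 0 → res r₂ F (q + 1) x = 0 → x = 0 := by
  subst e₁ e₂
  have L := mv_les (mv_open h hc) F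
  refine ⟨fun x h1 h2 => ?_, fun q z₀ z₁ e => ?_, fun q hs x h1 h2 => ?_⟩
  · refine (injective_iff_map_eq_zero _).1 (hp 0).1 x
      ((injective_iff_map_eq_zero _).1 L.inj _ (Prod.ext ?_ ?_))
    · exact (res_comp _ _ _ x).trans h1
    · exact (res_comp _ _ _ x).trans h2
  · obtain ⟨w, hw⟩ := (L.e₂ q (z₀, z₁)).1 (by
      change res a₁ F q z₀ + -(res a₂ F q z₁) = 0
      rw [e, add_neg_cancel])
    obtain ⟨z, rfl⟩ := (hp q).2 w
    exact ⟨z, (res_comp _ _ _ z).symm.trans (congrArg Prod.fst hw),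
      (res_comp _ _ _ z).symm.trans (congrArg Prod.snd hw)⟩
  · refine (injective_iff_map_eq_zero _).1 (hp _).1 x ?_
    obtain ⟨s, hs'⟩ := (L.e₁ q (res p F _ x)).1 (Prod.ext ((res_comp _ _ _ x).trans h1)
      ((res_comp _ _ _ x).trans h2))
    obtain ⟨s', rfl⟩ := hs s
    rw [← hs']
    refine (L.e₃ q _).2 ⟨(s', 0), ?_⟩
    change res a₁ F q s' + -(res a₂ F q 0) = _
    rw [map_zero, neg_zero, add_zero]

lemma geo {S T Y Z₁ Z₂ Z₀ V₁ V₂ V₀ : Scheme.{0}} (τ : T ⟶ S) (y : Y ⟶ S) {ι₁ : Z₁ ⟶ Y}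
    {ι₂ : Z₂ ⟶ Y} {j₁ : Z₀ ⟶ Z₁} {j₂ : Z₀ ⟶ Z₂} (hj : IsPullback j₁ j₂ ι₁ ι₂) {r₁ : V₁ ⟶ T}
    {z₁ : V₁ ⟶ Z₁} (h₁ : IsPullback r₁ z₁ τ (ι₁ ≫ y)) {r₂ : V₂ ⟶ T} {z₂ : V₂ ⟶ Z₂}
    (h₂ : IsPullback r₂ z₂ τ (ι₂ ≫ y)) {a₁ : V₀ ⟶ V₁} {a₂ : V₀ ⟶ V₂} {z₀ : V₀ ⟶ Z₀}
    (h₀ : IsPullback a₁ z₀ z₁ j₁) (e₂ : a₂ ≫ z₂ = z₀ ≫ j₂) (e : a₁ ≫ r₁ = a₂ ≫ r₂) :
    ∃ (i₁ : V₁ ⟶ pullback τ y) (i₂ : V₂ ⟶ pullback τ y), i₁ ≫ pullback.fst τ y = r₁ ∧
      i₂ ≫ pullback.fst τ y = r₂ ∧ IsPullback a₁ a₂ i₁ i₂ ∧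
      IsPullback i₁ z₁ (pullback.snd τ y) ι₁ ∧ IsPullback i₂ z₂ (pullback.snd τ y) ι₂ := by
  let i₁ : V₁ ⟶ pullback τ y := pullback.lift r₁ (z₁ ≫ ι₁) (by rw [h₁.w, Category.assoc])
  let i₂ : V₂ ⟶ pullback τ y := pullback.lift r₂ (z₂ ≫ ι₂) (by rw [h₂.w, Category.assoc])
  have f₁ : i₁ ≫ pullback.fst τ y = r₁ := pullback.lift_fst _ _ _
  have f₂ : i₂ ≫ pullback.fst τ y = r₂ := pullback.lift_fst _ _ _
  have s₁ : i₁ ≫ pullback.snd τ y = z₁ ≫ ι₁ := pullback.lift_snd _ _ _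
  have s₂ : i₂ ≫ pullback.snd τ y = z₂ ≫ ι₂ := pullback.lift_snd _ _ _
  have q₁ : IsPullback i₁ z₁ (pullback.snd τ y) ι₁ :=
    IsPullback.of_right (by rw [f₁]; exact h₁) s₁ (IsPullback.of_hasPullback τ y)
  have q₂ : IsPullback i₂ z₂ (pullback.snd τ y) ι₂ :=
    IsPullback.of_right (by rw [f₂]; exact h₂) s₂ (IsPullback.of_hasPullback τ y)
  refine ⟨i₁, i₂, f₁, f₂, ?_, q₁, q₂⟩
  have big := h₀.paste_vert hj
  rw [← e₂, ← s₁] at big
  refine IsPullback.of_bot big (pullback.hom_ext ?_ ?_) q₂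
  · rw [Category.assoc, Category.assoc, f₁, f₂, e]
  · rw [Category.assoc, Category.assoc, s₁, s₂, reassoc_of% h₀.w, reassoc_of% e₂, hj.w]

lemma int_of_range {R S L : Type} [CommRing R] [CommRing S] [Field L] (g : R →+* L) (f : S →+* L)
    (h : ∀ r, ∃ s, f s = g r) {x : L} (hx : g.IsIntegralElem x) : f.IsIntegralElem x := by
  obtain ⟨p, hp, hx⟩ := hx
  obtain ⟨q, hq, -, hm⟩ := lifts_and_natDegree_eq_and_monic (f := f) (p := p.map g)
    ((lifts_iff_coeff_lifts _).2 fun n => by rw [coeff_map]; exact h _) (hp.map g)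
  exact ⟨q, hm, by rw [eval₂_eq_eval_map, hq, ← eval₂_eq_eval_map, hx]⟩

variable {C : Type} (A : Type) {L : Type} [CommRing C] [CommRing A] [Algebra C A] [Field L]
  [Algebra C L]

lemma mem_sub {B : Subring L} (h : (algebraMap C L).range ≤ B) {x : L} : x ∈ sub C B ↔ x ∈ B :=
  ⟨fun hx => (Algebra.adjoin_le (S := { B with algebraMap_mem' := fun c => h ⟨c, rfl⟩ })
    fun _ hy => hy) hx, fun hx => Algebra.subset_adjoin hx⟩

lemma aic_sub [IsAlgClosed L] {S : Subalgebra C L}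
    (h : ∀ x : L, S.val.toRingHom.IsIntegralElem x → x ∈ S) : Aic S := by
  intro p hp hd
  have hi : Injective S.val.toRingHom := Subtype.val_injective
  obtain ⟨x, hx⟩ := aic_of_isAlgClosed L (p.map S.val.toRingHom) (hp.map _)
    (by rwa [natDegree_map_eq_of_injective hi])
  rw [← eval₂_eq_eval_map] at hx
  refine ⟨⟨x, h x ⟨p, hp, hx⟩⟩, hi ?_⟩
  rw [map_zero, ← eval₂_at_apply]
  exact hx

/-- The inclusion. -/
def inc {S S' : Subalgebra C L} (h : S ≤ S') : S →+* S' := (Subalgebra.inclusion h : S →ₐ[C] S')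

/-- The second factor. -/
noncomputable def iR (S : Subalgebra C L) : S →+* A ⊗[C] S :=
  (Algebra.TensorProduct.includeRight : S →ₐ[C] A ⊗[C] S)

/-- The transition maps. -/
noncomputable abbrev rS {S S' : Subalgebra C L} (h : S ≤ S') : A ⊗[C] S →ₐ[A] A ⊗[C] S' :=
  Algebra.TensorProduct.map (AlgHom.id A A) (Subalgebra.inclusion h)

lemma spc_comp {R S T : Type} [CommRing R] [CommRing S] [CommRing T] (f : R →+* S) (g : S →+* T) :
    spc g ≫ spc f = spc (g.comp f) := by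
  rw [← Spec.map_comp, ← CommRingCat.ofHom_comp]

variable {S S' S'' S₁ S₂ S₀ : Subalgebra C L}

lemma sq0 (S : Subalgebra C L) : IsPullback (spc (algebraMap A (A ⊗[C] S))) (spc (iR A S))
    (spc (algebraMap C A)) (spc (algebraMap C S)) :=
  isPullback_SpecMap_of_isPushout _ _ _ _ (CommRingCat.isPushout_tensorProduct C A S)

lemma sq (h : S ≤ S') : IsPullback (spc (rS A h : A ⊗[C] S →+* A ⊗[C] S')) (spc (iR A S'))
    (spc (iR A S)) (spc (inc h)) := by
  refine IsPullback.of_right ?_ (by rw [spc_comp, spc_comp]; rfl) (sq0 A S)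
  rw [spc_comp, spc_comp, AlgHom.comp_algebraMap]
  exact sq0 A S'

lemma rS_comp (h : S ≤ S') (h' : S' ≤ S'') :
    (rS A h' : A ⊗[C] S' →+* A ⊗[C] S'').comp (rS A h : A ⊗[C] S →+* A ⊗[C] S') =
      (rS A (h.trans h') : A ⊗[C] S →+* A ⊗[C] S'') := by
  have : (rS A h').comp (rS A h) = rS A (h.trans h') := by
    rw [← Algebra.TensorProduct.map_comp]; rfl
  rw [← this]; rfl

lemma away (h : S ≤ S') (t : S) (ht : t.1 ≠ 0) (hi : t.1⁻¹ ∈ S')
    (hz : ∀ z ∈ S', ∃ n : ℕ, t.1 ^ n * z ∈ S) :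
    @IsLocalization.Away _ _ t S' _ (inc h).toAlgebra := by
  let _ := (inc h).toAlgebra
  refine IsLocalization.Away.mk _ ?_ (fun z => ?_) fun a b e => ⟨0, ?_⟩
  · exact IsUnit.of_mul_eq_one ⟨_, hi⟩ (Subtype.ext (mul_inv_cancel₀ ht))
  · obtain ⟨n, hn⟩ := hz z.1 z.2
    exact ⟨n, ⟨_, hn⟩, Subtype.ext (mul_comm z.1 (t.1 ^ n))⟩
  · rw [show a = b from Subtype.ext (congrArg Subtype.val e :)]

lemma integral (h : S ≤ S') (t : S')
    (hz : ∀ z ∈ S', IsIntegral (Subring.closure ((S : Set L) ∪ {t.1})) z) (b : S') :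
    letI := (inc h).toAlgebra
    IsIntegral (Algebra.adjoin S {t}) b := by
  let _ := (inc h).toAlgebra
  let f : Algebra.adjoin S {t} →+* L := S'.val.toRingHom.comp (algebraMap _ _)
  have h1 : Subring.closure ((S : Set L) ∪ {t.1}) ≤ f.range := Subring.closure_le.2 fun x hx =>
    hx.elim (fun hx => ⟨algebraMap S _ ⟨x, hx⟩, rfl⟩) fun hx =>
      ⟨⟨t, Algebra.self_mem_adjoin_singleton _ _⟩, hx.symm⟩
  obtain ⟨q, hq, hx⟩ := int_of_range (Subring.closure ((S : Set L) ∪ {t.1})).subtype f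
    (fun r => h1 r.2) (hz b.1 b.2)
  refine ⟨q, hq, Subtype.val_injective ?_⟩
  exact (hom_eval₂ q _ S'.val.toRingHom b).trans hx

lemma fin {X : Scheme.{0}} (u : Spec (.of A) ⟶ X) (M : Ab.{1})
    (h₁ : S ≤ S₁) (h₂ : S ≤ S₂) (k₁ : S₁ ≤ S₀) (k₂ : S₂ ≤ S₀) {Y : Scheme.{0}}
    {y : Y ⟶ Spec (.of S)} {ι₁ : Spec (.of S₁) ⟶ Y}
    {ι₂ : Spec (.of S₂) ⟶ Y} (o₁ : IsOpenImmersion ι₁) (o₂ : IsOpenImmersion ι₂)
    (hc : ∀ z : Y, z ∈ Set.range ι₁ ∨ z ∈ Set.range ι₂)
    (hj : IsPullback (spc (inc k₁)) (spc (inc k₂)) ι₁ ι₂) (y₁ : ι₁ ≫ y = spc (inc h₁))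
    (y₂ : ι₂ ≫ y = spc (inc h₂)) (hAB : AB M (pullback.fst (spc (iR A S)) y)) :
    ∃ (W : Over X) (p : W ⟶ ob u (A ⊗[C] S)) (I₁ : ob u (A ⊗[C] S₁) ⟶ W)
      (I₂ : ob u (A ⊗[C] S₂) ⟶ W), HB p ((cst X).obj M) ∧
      IsPullback (hm u (rS A k₁)) (hm u (rS A k₂)) I₁ I₂ ∧ IsOpenImmersion I₁.left ∧
      IsOpenImmersion I₂.left ∧ (∀ t : W.left, t ∈ Set.range I₁.left ∨ t ∈ Set.range I₂.left) ∧
      I₁ ≫ p = hm u (rS A h₁) ∧ I₂ ≫ p = hm u (rS A h₂) := by
  obtain ⟨i₁, i₂, f₁, f₂, hi, q₁, q₂⟩ := geo (spc (iR A S)) y hj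
    (by rw [y₁]; exact sq A h₁) (by rw [y₂]; exact sq A h₂)
    (sq A k₁) (sq A k₂).w (by rw [spc_comp, spc_comp, rS_comp, rS_comp])
  let W : Over X := Over.mk (pullback.fst (spc (iR A S)) y ≫ (ob u (A ⊗[C] S)).hom)
  let p : W ⟶ ob u (A ⊗[C] S) := Over.homMk (pullback.fst _ _)
  let I₁ : ob u (A ⊗[C] S₁) ⟶ W := Over.homMk i₁ (by
    change i₁ ≫ _ ≫ _ = _
    rw [reassoc_of% f₁]; exact Over.w (hm u (rS A h₁)))
  let I₂ : ob u (A ⊗[C] S₂) ⟶ W := Over.homMk i₂ (by
    change i₂ ≫ _ ≫ _ = _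
    rw [reassoc_of% f₂]; exact Over.w (hm u (rS A h₂)))
  exact ⟨W, p, I₁, I₂, (hb_cst_iff p _).2 hAB,
    IsPullback.of_map (Over.forget X) (by ext; exact hi.w) hi,
    MorphismProperty.of_isPullback q₁.flip o₁, MorphismProperty.of_isPullback q₂.flip o₂,
    fun w => (hc (pullback.snd (spc (iR A S)) y w)).imp
      (pb_mem_range q₁.flip w).2 (pb_mem_range q₂.flip w).2, by ext; exact f₁, by ext; exact f₂⟩

lemma blow (h1 : BLG_s) (h2 : BLP_s) (h3 : BL_s) (l : ℕ) [Fact l.Prime]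
    (hl : IsUnit (l : C)) (g : Aic S) (g₁ : Aic S₁) (g₂ : Aic S₂) (g₀ : Aic S₀)
    (h₁ : S ≤ S₁) (h₂ : S ≤ S₂) (k₁ : S₁ ≤ S₀) (k₂ : S₂ ≤ S₀) {t : L} (ht : t ≠ 0) (m₁ : t ∈ S₁)
    (m₂ : t⁻¹ ∈ S₂) (a₁ : ∀ z ∈ S₀, ∃ n : ℕ, t ^ n * z ∈ S₁)
    (a₂ : ∀ z ∈ S₀, ∃ n : ℕ, t⁻¹ ^ n * z ∈ S₂)
    (n₁ : ∀ z ∈ S₁, IsIntegral (Subring.closure ((S : Set L) ∪ {t})) z)
    (n₂ : ∀ z ∈ S₂, IsIntegral (Subring.closure ((S : Set L) ∪ {t⁻¹})) z) :
    ∃ (Y : Scheme.{0}) (y : Y ⟶ Spec (.of S)) (ι₁ : Spec (.of S₁) ⟶ Y)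
      (ι₂ : Spec (.of S₂) ⟶ Y), IsOpenImmersion ι₁ ∧ IsOpenImmersion ι₂ ∧
      (∀ z : Y, z ∈ Set.range ι₁ ∨ z ∈ Set.range ι₂) ∧
      IsPullback (spc (inc k₁)) (spc (inc k₂)) ι₁ ι₂ ∧ ι₁ ≫ y = spc (inc h₁) ∧
      ι₂ ≫ y = spc (inc h₂) ∧ AB (ZM l) (pullback.fst (spc (iR A S)) y) := by
  let _ := (inc h₁).toAlgebra
  let _ := (inc h₂).toAlgebra
  let _ := (inc k₁).toAlgebra
  let _ := (inc k₂).toAlgebra
  let _ := (iR A S).toAlgebra
  let t₁ : S₁ := ⟨t, m₁⟩
  let t₂ : S₂ := ⟨t⁻¹, m₂⟩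
  have := away k₁ t₁ ht (k₂ m₂) a₁
  have := away k₂ t₂ (inv_ne_zero ht) (by rw [inv_inv]; exact k₁ m₁) a₂
  have hl' : IsUnit (l : S) := by simpa using hl.map (algebraMap C S)
  obtain ⟨Y, ρ, ι₁, ι₂, hρ, hT⟩ := h1 S S₁ S₂ S₀ t₁ t₂
    (fun _ => rfl) (Subtype.ext (mul_inv_cancel₀ ht))
    (integral h₁ t₁ n₁) (integral h₂ t₂ n₂) (PL.std _)
  have hAB := h3 l S g hl' (PL.std _) Y ρ hρ
    (h2 l _ _ _ _ g g₁ g₂ g₀ hl'
      (fun a b e => Subtype.ext (congrArg Subtype.val e :)) Y _ ι₁ ι₂ hT)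
    (A ⊗[C] S) _ _ _ (IsPullback.of_hasPullback (spc (iR A S)) (ρ ≫ (PL.std _).π))
  obtain ⟨o₁, o₂, hc, hj, y₁, y₂⟩ := hT
  exact ⟨Y, _, ι₁, ι₂, o₁, o₂, hc, hj, y₁, y₂, hAB⟩

lemma aic_of_mem [IsAlgClosed L] {B : Subring L} (h : ∀ x : L, IsIntegral B x → x ∈ B)
    (e : ∀ x, x ∈ S ↔ x ∈ B) : Aic S :=
  aic_sub fun x hx => (e x).2 (h x (int_of_range S.val.toRingHom B.subtype
    (fun r => ⟨⟨r.1, (e _).1 r.2⟩, rfl⟩) hx))

end ZMV

open ZMV in
theorem zmv (h1 : BLG_s) (h2 : BLP_s) (h3 : BL_s) : ZMV_s := by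
  intro l _ X C A L _ _ _ _ _ _ u hl B hB t ht
  have g (T : Set L) := icl_good hB.1 T
  have e : (sub C B : Set L) = B := Set.ext fun _ => mem_sub hB.1
  have k := blow A h1 h2 h3 l hl
    (aic_of_mem hB.2 fun _ => mem_sub hB.1) (aic_of_mem (g {t}).2 fun _ => mem_sub (g _).1)
    (aic_of_mem (g {t⁻¹}).2 fun _ => mem_sub (g _).1)
    (aic_of_mem (g {t, t⁻¹}).2 fun _ => mem_sub (g _).1)
    (Algebra.adjoin_mono (le_icl B _)) (Algebra.adjoin_mono (le_icl B _))
    (Algebra.adjoin_mono (icl_l B t)) (Algebra.adjoin_mono (icl_r B t)) ht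
    (Algebra.subset_adjoin (subset_icl B _ rfl)) (Algebra.subset_adjoin (subset_icl B _ rfl))
    (fun _ hz => (icl_away ht ((mem_sub (g _).1).1 hz)).imp fun _ => (mem_sub (g _).1).2)
    (fun _ hz => (icl_away (inv_ne_zero ht) (by
      rw [inv_inv, Set.pair_comm]; exact (mem_sub (g _).1).1 hz)).imp fun _ => (mem_sub (g _).1).2)
    (fun _ hz => by rw [e]; exact mem_icl.1 ((mem_sub (g _).1).1 hz))
    (fun _ hz => by rw [e]; exact mem_icl.1 ((mem_sub (g _).1).1 hz))
  have k' := k.elim fun _ k => k.elim fun _ k => k.elim fun _ k => k.elim fun _ k =>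
    fin A u _ _ _ _ _ k.1 k.2.1 k.2.2.1 k.2.2.2.1 k.2.2.2.2.1 k.2.2.2.2.2.1 k.2.2.2.2.2.2
  refine k'.elim fun W k => k.elim fun p k => k.elim fun I₁ k => k.elim fun I₂ k => ?_
  refine @mv3 X _ _ W _ _ _ ?_ ?_ ?_ ?_ _ _ ?_ ?_ ?_ ?_ _ _ ?_ ?_
  exacts [p, k.1, I₁, I₂, k.2.1, k.2.2.1, k.2.2.2.1, k.2.2.2.2.1, k.2.2.2.2.2.1, k.2.2.2.2.2.2]

end Pool.Agent.MP_855f4c_ag.E.SA

end

section

/-! Section S: local acyclicity for ind-etale algebras and torsion coefficients. -/

set_option autoImplicit false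
set_option backward.isDefEq.respectTransparency false

open CategoryTheory Limits Abelian Opposite AlgebraicGeometry Polynomial IsLocalRing TensorProduct
open Function

namespace Pool.Agent.MP_855f4c_ag.E.SA

open E3 E4

theorem la_ind {X : Scheme.{0}} {R O : Type} [CommRing R] [CommRing O] [Algebra R O]
    (u : Spec (.of R) ⟶ X) {P Q : PSh X} (hP : LFP P) (hQ : LFP Q) (η : P ⟶ Q) (H : IndEt R O)
    (h : ∀ (E : Type) [CommRing E] [Algebra R E] [Algebra.Etale R E],
      Bijective (η.app (op (ob u E)))) : Bijective (η.app (op (ob u O))) := by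
  have nt : ∀ {A B : Type} [CommRing A] [CommRing B] [Algebra R A] [Algebra R B] (φ : A →ₐ[R] B)
      (t : P.obj (op (ob u A))), η.app _ (rs u P φ t) = rs u Q φ (η.app _ t) :=
    fun φ t => ConcreteCategory.congr_hom (η.naturality (hm u φ).op) t
  refine ⟨(injective_iff_map_eq_zero _).2 fun s hs => ?_, fun s => ?_⟩
  · obtain ⟨a, t, rfl⟩ := (lfp_fac u hP (Stage.fac_etale H)).1 s
    obtain ⟨b, f, hf⟩ := (lfp_fac u hQ (Stage.fac_etale H)).2 a (η.app _ t) ((nt _ t).symm.trans hs)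
    have := b.prop
    have h0 : rs u P (f.1.restrictScalars R) t = 0 :=
      (h b.E).1 (((nt _ t).trans hf).trans (map_zero _).symm)
    have e : a.φ.restrictScalars R = (b.φ.restrictScalars R).comp (f.1.restrictScalars R) :=
      AlgHom.ext fun x => (congr($(f.2) x)).symm
    rw [e, ← rs_rs, h0, map_zero]
  · obtain ⟨a, t, rfl⟩ := (lfp_fac u hQ (Stage.fac_etale H)).1 s
    have := a.prop
    obtain ⟨t, rfl⟩ := (h a.E).2 t
    exact ⟨_, nt _ t⟩

theorem la_iso (M : Ab.{1}) {U' U T : Scheme.{0}} (e : U' ≅ U) (g : U ⟶ T) (g' : U' ⟶ T)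
    (he : e.hom ≫ g = g') : AB M g' ↔ AB M g :=
  hb_of_sq (tp g') (tp g) (Over.isoMk e he : Over.mk g' ≅ Over.mk g).hom (𝟙 _)
    (Over.OverMorphism.ext (he.trans (Category.comp_id g').symm))

theorem la_gen (M : Ab.{1}) (C R R' D D' : Type) [CommRing C] [CommRing R] [CommRing R']
    [CommRing D] [CommRing D'] [Algebra C R] [Algebra R R'] [Gen C R R'] [Algebra C D] [Algebra R D]
    [IsScalarTower C R D] [Algebra D D'] [Gen C D D'] :
    HB ((Over.mapPullbackAdj (spc (algebraMap R R'))).counit.app (ob (𝟙 _) D))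
      ((cst _).obj M) ↔ AB M (spc (algebraMap D D')) := by
  let S : Submonoid R := Algebra.algebraMapSubmonoid R (nonZeroDivisors C)
  have : IsLocalization (Algebra.algebraMapSubmonoid D S) D' := by
    rw [Algebra.algebraMapSubmonoid_map_map]
    infer_instance
  let : Algebra R D' := ((algebraMap D D').comp (algebraMap R D)).toAlgebra
  have : IsScalarTower R D D' := .of_algebraMap_eq fun _ => rfl
  let : Algebra R' D' := localizationAlgebra S D
  have : IsScalarTower R R' D' := isScalarTower_localizationAlgebra _ _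
  have : Algebra.IsPushout R D R' D' := Algebra.isPushout_of_isLocalization S R' D D'
  have hp := isPullback_SpecMap_of_isPushout _ _ _ _
    (CommRingCat.isPushout_of_isPushout R D R' D')
  rw [← Category.comp_id (Spec.map (CommRingCat.ofHom (algebraMap R D)))] at hp
  refine (hb_cst_iff _ M).trans (la_iso M hp.isoPullback _ _ ?_).symm
  exact hp.isoPullback_hom_fst

theorem la_psh {X Y : Scheme.{0}} (f : Y ⟶ X) [IsAffineHom f] (P : PSh X) (hP : LFP P) :
    ∃ (Q : PSh X) (η : P ⟶ Q), LFP Q ∧ ∀ T, Bijective (η.app (op T)) ↔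
      Bijective (P.map ((Over.mapPullbackAdj f).counit.app T).op) :=
  ⟨_, Functor.whiskerRight (NatTrans.op (Over.mapPullbackAdj f).counit) P,
    (hP.restrict f).push f, fun _ => Iff.rfl⟩

theorem la_hp {X : Scheme.{0}} {T' T : Over X} (g : T' ⟶ T) (F : Sh (Scheme.etaleTopology.over X)) (q : ℕ) :
    Bijective ((HP F q).map g.op) ↔ Bijective (res g F q) :=
  iff_of_eq (congrArg _ (funext (HP_map g q)))

theorem la_nat {X Y : Scheme.{0}} (f : Y ⟶ X) [IsAffineHom f] (F : Sh (Scheme.etaleTopology.over X)) (hF : LFP F.obj)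
    (q : ℕ) : ∃ (Q : PSh X) (η : HP F q ⟶ Q), LFP Q ∧ ∀ T, Bijective (η.app (op T)) ↔
      Bijective (res ((Over.mapPullbackAdj f).counit.app T) F q) := by
  obtain ⟨Q, η, hQ, e⟩ := la_psh f _ (lim_aff hF q)
  exact ⟨Q, η, hQ, fun T => (e T).trans (la_hp _ F q)⟩

theorem la_z (h1 : LA0_s) (l : ℕ) [Fact l.Prime] (C O O' : Type) [CommRing C] [IsDomain C]
    [CommRing O] [CommRing O'] [Algebra C O] [Algebra C[X] O] [IsScalarTower C C[X] O]
    [Algebra O O'] [Gen C O O'] (hC : Aic C) (hl : IsUnit (l : C)) (H : IndEt C[X] O) :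
    AB (ZM l) (spc (algebraMap O O')) := by
  let R' : Type := Localization (Algebra.algebraMapSubmonoid C[X] (nonZeroDivisors C))
  refine (la_gen (ZM l) C C[X] R' O O').1 fun q => ?_
  obtain ⟨Q, η, hQ, e⟩ := la_nat (spc (algebraMap C[X] R')) ((cst _).obj (ZM l)) (cst_Cc l _).1 q
  refine (e _).1 (la_ind (𝟙 _) (lim_aff (cst_Cc l _).1 q) hQ η H fun E _ _ _ => (e _).2 ?_)
  let : Algebra C E := ((algebraMap C[X] E).comp (algebraMap C C[X])).toAlgebra
  have : IsScalarTower C C[X] E := .of_algebraMap_eq fun _ => rfl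
  exact (la_gen (ZM l) C C[X] R' E
    (Localization (Algebra.algebraMapSubmonoid E (nonZeroDivisors C)))).2 (h1 l C E _ hC hl) q

theorem la (h1 : LA0_s) (h2 : TORS_s) : LA_s := by
  intro l _ X C O O' _ _ _ _ _ _ _ _ _ t M hC hl H hM
  exact (h2 l X _ _ (sph (algebraMap O O') (a := t) rfl) (inferInstanceAs (IsAffine (Spec _)))
    (inferInstanceAs (IsAffine (Spec _)))).1 ((hb_cst_iff _ _).2 (la_z h1 l C O O' hC hl H)) M hM

end Pool.Agent.MP_855f4c_ag.E.SA

end

section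

/-! Section S: lisse sheaves with trivial monodromy are constant; interior points. -/

set_option autoImplicit false
set_option backward.isDefEq.respectTransparency false

open CategoryTheory Limits Abelian Opposite AlgebraicGeometry Polynomial IsLocalRing TensorProduct
open Function

namespace Pool.Agent.MP_855f4c_ag.E.SA

open E3 E4

section
variable {X : Scheme.{0}} {B : Type} [CommRing B] (u : Spec (.of B) ⟶ X) {l : ℕ}
  {F : Sh (Scheme.etaleTopology.over X)}

/-- A geometric point over `q` that sees the same sections as the generic one. -/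
theorem const_path (Ω : Type) [Field Ω] [IsAlgClosed Ω] [Algebra B Ω] [FaithfulSMul B Ω]
    (hF : Cc l F) (hl : IsUnit (l : B)) (hL : Lis l F.obj (ob u B)) (q : Ideal B) [q.IsPrime] :
    ∃ (k : Type) (_ : Field k) (_ : IsAlgClosed k) (_ : Algebra B k),
      RingHom.ker (Algebra.ofId B k) = q ∧ (Bijective (rs u F.obj (Algebra.ofId B k)) ↔
        Bijective (rs u F.obj (Algebra.ofId B Ω))) := by
  obtain ⟨C, _, _, _, φ, k, _, _, _, r, σ, h1, h2, h3, h4⟩ := exists_path (B := B) (Ω := Ω) q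
  have := h1.shl
  have hC : IsUnit (l : C) := by simpa using hl.map (algebraMap B C)
  have e1 : rs u F.obj (Algebra.ofId B k) = rs u F.obj r ∘ rs u F.obj σ :=
    funext fun s => (rs_congr u _ (Subsingleton.elim _ _) s).trans (rs_rs u _ σ r s).symm
  have e2 : rs u F.obj (Algebra.ofId B Ω) = rs u F.obj φ ∘ rs u F.obj σ :=
    funext fun s => (rs_congr u _ (Subsingleton.elim _ _) s).trans (rs_rs u _ σ φ s).symm
  refine ⟨k, inferInstance, inferInstance, inferInstance, ?_, ?_⟩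
  · rw [← h4, Subsingleton.elim (Algebra.ofId B k) (r.comp σ)]
  · rw [e1, e2, Bijective.of_comp_iff' (rig u hF.2 r h3 hC),
      Bijective.of_comp_iff' (hL.bij u hF h1 hC φ h2)]

/-- The structure map to `Spec B`. -/
noncomputable def constA (T : Over (Spec (CommRingCat.of B))) : (Over.map u).obj T ⟶ ob u B :=
  Over.homMk T.hom (by simp)

/-- Restriction of global sections. -/
noncomputable def constP (F : Sh (Scheme.etaleTopology.over X)) :
    (Functor.const _).obj (F.obj.obj (op (ob u B))) ⟶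
      ((pb (J := Scheme.etaleTopology) u).obj F).obj where
  app T := F.obj.map (constA u T.unop).op
  naturality T T' g := by
    refine (Category.id_comp _).trans (Eq.trans ?_ (F.obj.map_comp _ _))
    exact congrArg (fun z => F.obj.map (Quiver.Hom.op z))
      (Over.OverMorphism.ext (Over.w g.unop).symm)

end

theorem const : CONST_s := by
  intro l X B Ω _ _ _ _ _ _ u F hF hl hL hs
  let G := (pb (J := Scheme.etaleTopology) u).obj F
  let φ : (cst _).obj (F.obj.obj (op (ob u B))) ⟶ G :=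
    ⟨sheafifyLift (Scheme.etaleTopology.over _) (constP u F) G.property⟩
  have hΩ : Bijective (rs u F.obj (Algebra.ofId B Ω)) :=
    ⟨(injective_iff_map_eq_zero _).2 fun s h => lis_inj u (Ω := Ω) hF hL hl s fun τ =>
      (rs_congr u _ (Subsingleton.elim _ _) s).trans h, hs⟩
  have : IsIso φ := by
    refine pt_iso (Linv.spec hl) (cst_Cc l _) (hF.pb u) φ fun (t : PrimeSpectrum B) => ?_
    obtain ⟨k, _, _, _, h1, h2⟩ := const_path u Ω hF hl hL t.asIdeal
    refine ⟨k, inferInstance, inferInstance, spc (algebraMap B k),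
      ⟨closedPoint k, PrimeSpectrum.ext ?_⟩, ?_⟩
    · rw [← h1]
      ext x
      exact (mem_maximalIdeal _).trans ((not_congr isUnit_iff_ne_zero).trans not_not)
    · refine (Bijective.of_comp_iff _
        (cstι_shl (F.obj.obj (op (ob u B))) (spc (algebraMap B k)))).1 ?_
      have e := toSheafify_sheafifyLift (Scheme.etaleTopology.over _) (constP u F) G.property
      have e' : φ.hom.app (op (Over.mk (spc (algebraMap B k)))) ∘
          cstι (F.obj.obj (op (ob u B))) (Over.mk (spc (algebraMap B k))) =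
            rs u F.obj (Algebra.ofId B k) := funext fun s =>
        ConcreteCategory.congr_hom (congr_app e (op (Over.mk (spc (algebraMap B k))))) s
      exact e' ▸ h2.2 hΩ
  exact ⟨(asIso φ).symm⟩

lemma const_sph {X : Scheme.{0}} {A B : Type} [CommRing A] [CommRing B] (φ : A →+* B)
    {a : Spec (.of A) ⟶ X} {b : Spec (.of B) ⟶ X} (h : Spec.map (CommRingCat.ofHom φ) ≫ a = b)
    {G : Sh (Scheme.etaleTopology.over X)} (H : HB (sph φ (a := a) rfl) G) : HB (sph φ h) G := by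
  subst h
  exact H

lemma const_hb {X : Scheme.{0}} {O O' : Type} [CommRing O] [CommRing O'] [Algebra O O']
    (u : Spec (.of O) ⟶ X) {G : Sh (Scheme.etaleTopology.over X)}
    (h : HB (sph (algebraMap O O') (a := spc (algebraMap O O) ≫ u) rfl) G) :
    HB (hm u (Algebra.ofId O O')) G :=
  const_sph (algebraMap O O') (Over.w (hm u (Algebra.ofId O O'))) h

theorem intr (h1 : CONST_s) (h2 : LA_s) : INTR_s := by
  intro l _ X C O O' _ _ _ _ _ _ _ _ x u F hC hl hx hF hL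
  obtain ⟨_, _, hG, -⟩ := hx.exists
  have := hG.shl
  have := (hG.dom hC).1
  have hO : IsUnit (l : O) := by simpa using hl.map (algebraMap C O)
  let Ω := AlgebraicClosure (FractionRing O)
  have : Algebra.IsAlgebraic O Ω := (IsFractionRing.comap_isAlgebraic_iff (K := FractionRing O)).2
    inferInstance
  have : FaithfulSMul O Ω := (faithfulSMul_iff_algebraMap_injective _ _).2
    ((algebraMap (FractionRing O) Ω).injective.comp (IsFractionRing.injective O (FractionRing O)))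
  obtain ⟨k, _, _, _, h3, h4⟩ := const_path u Ω hF.1 hO hL (maximalIdeal O)
  obtain ⟨e⟩ := h1 l X O Ω u F hF.1 hO hL (h4.1 (rig u hF.1.2 _ h3 hO)).2
  refine hb_of_con fun N => (con_hm_pb u _).1 (HB.con (HB.of_iso ?_ e.symm) _)
  exact const_hb _
    (h2 l _ C O O' _ _ hC hl hG.ind (hF.2 _ (inferInstanceAs (IsAffine (Spec _)))))

end Pool.Agent.MP_855f4c_ag.E.SA

end

section

/-! Row BE: boundary points with trivial monodromy. -/

set_option autoImplicit false
set_option backward.isDefEq.respectTransparency false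

open CategoryTheory Limits Abelian Opposite AlgebraicGeometry Polynomial IsLocalRing TensorProduct
open Function

namespace Pool.Agent.MP_855f4c_ag.E.SA

open E3 E4

/-- The short exact sequence of an open-closed decomposition. -/
theorem oc_exact (h2 : EXT0_s) {l : ℕ} {S Y Z : Scheme.{0}} (hl : Linv l S) (j : Y ⟶ S)
    [IsOpenImmersion j] (i : Z ⟶ S) [IsIntegralHom i] [Mono i]
    (hx : ∀ (k : Type) [Field k] (x : Spec (.of k) ⟶ S),
      ((∃ y, y ≫ j = x) ∧ IsEmpty (pullback x i : Scheme.{0})) ∨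
        ((∃ z, z ≫ i = x) ∧ ∀ p, x p ∉ Set.range j))
    (G K : Sh (Scheme.etaleTopology.over S)) (hG : Cc l G) (hK : Cc l K) (hV : Van l (Set.range j) G)
    (e : (pb (J := Scheme.etaleTopology) j).obj G ≅ (pb j).obj K) :
    ∃ (f : G ⟶ K) (w : f ≫ (pbpf i).unit.app K = 0), (ShortComplex.mk _ _ w).ShortExact := by
  obtain ⟨f, hf⟩ := (h2 l S hl).1 Y j G K hG hV e.hom
  have h3 : Cc l ((pf (J := Scheme.etaleTopology) i).obj ((pb i).obj K)) := pf_cc i (hK.pb i)
  have z3 : ∀ (k : Type) [Field k] (x : Spec (.of k) ⟶ S), IsEmpty (pullback x i : Scheme.{0}) →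
      ∀ s : sec ((pf (J := Scheme.etaleTopology) i).obj ((pb i).obj K)) (Over.mk x), s = 0 :=
    fun k _ x h s => @zero_of_isEmpty _ K ((Over.map i).obj ((Over.pullback i).obj (Over.mk x))) h s
  have w : f ≫ (pbpf i).unit.app K = 0 := by
    refine pt_hom_ext hl hG h3 _ _ fun t => ?_
    obtain ⟨k, _, _, x, y, ht⟩ := exists_geom (top S) t
    have hy : y.left = x := (Category.comp_id _).symm.trans (Over.w y)
    refine ⟨k, _, ‹_›, x, hy ▸ ht, ?_⟩
    ext s
    rcases hx k x with ⟨-, h⟩ | ⟨-, h⟩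
    · exact (z3 k x h _).trans (z3 k x h _).symm
    · rw [hV k x (hl k x) h s, map_zero, map_zero]
  refine ⟨f, w, (h2 l S hl).2 _ hG hK h3 fun k _ _ x => ?_⟩
  rcases hx k x with ⟨⟨y, rfl⟩, h⟩ | ⟨⟨z, rfl⟩, h⟩
  · have hb : Bijective (f.hom.app (op (Over.mk (y ≫ j)))) := by
      have := ConcreteCategory.bijective_of_isIso
        (((sheafToPresheaf _ _).map e.hom).app (op (Over.mk y)))
      rw [← hf] at this
      exact this
    exact ⟨hb.1, fun s => iff_of_true (z3 k _ h _) (hb.2 s), fun s => ⟨0, (z3 k _ h _).trans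
      (z3 k _ h _).symm⟩⟩
  · have h0 := hV k _ (hl k (z ≫ i)) h
    have : IsIso ((Over.mapPullbackAdj i).counit.app (Over.mk (z ≫ i))) := by
      have : IsIso ((Over.forget _).map
          ((Over.mapPullbackAdj i).counit.app (Over.mk (z ≫ i)))) := by
        change IsIso (pullback.fst (z ≫ i) i)
        infer_instance
      exact isIso_of_reflects_iso _ (Over.forget _)
    have hb : Bijective (((pbpf i).unit.app K).hom.app (op (Over.mk (z ≫ i)))) :=
      ConcreteCategory.bijective_of_isIso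
        (K.obj.map ((Over.mapPullbackAdj i).counit.app (Over.mk (z ≫ i))).op)
    refine ⟨fun a b _ => (h0 a).trans (h0 b).symm, fun s => ⟨fun hs => ⟨0, ?_⟩, ?_⟩, hb.2⟩
    · exact (map_zero _).trans (hb.1 (hs.trans (map_zero _).symm)).symm
    · rintro ⟨a, rfl⟩
      rw [h0 a]
      exact (congrArg _ (map_zero _)).trans (map_zero _)

theorem hb_x₁ {X : Scheme.{0}} {T' T : Over X} (g : T' ⟶ T) {A B D : Sh (Scheme.etaleTopology.over X)} {f : A ⟶ B}
    {f' : B ⟶ D} {w : f ≫ f' = 0} (hS : (ShortComplex.mk f f' w).ShortExact) (h₂ : HB g B)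
    (h₃ : HB g D) : HB g A := by
  have h := ExtBij.X₁.{1} (a := (fr (Scheme.etaleTopology.over X)).map g) hS
  dsimp only at h
  exact hb_iff_extBij.2 (h (hb_iff_extBij.1 h₂) (hb_iff_extBij.1 h₃))

theorem hb_tp_pull {S T Z W : Scheme.{0}} {w : W ⟶ T} {p : W ⟶ Z} {g : T ⟶ S} {i : Z ⟶ S}
    (h : IsPullback w p g i) (G : Sh (Scheme.etaleTopology.over Z)) :
    HB ((Over.pullback i).map (tp g)) G ↔ HB (tp p) G :=
  hb_of_sq _ _ (Over.isoMk h.isoPullback.symm h.isoPullback_inv_snd :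
      (Over.pullback i).obj (Over.mk g) ≅ Over.mk p).hom
    (Over.isoMk (asIso (pullback.snd (𝟙 S) i)) (Category.comp_id _) :
      (Over.pullback i).obj (top S) ≅ top Z).hom (Over.mkIdTerminal.hom_ext _ _)

theorem hb_hm_tp {X : Scheme.{0}} {O : Type} [CommRing O] (u : Spec (.of O) ⟶ X) (O' : Type)
    [CommRing O'] [Algebra O O'] (F : Sh (Scheme.etaleTopology.over X)) : HB (hm u (Algebra.ofId O O')) F ↔
      HB (tp (spc (algebraMap O O'))) ((pb (J := Scheme.etaleTopology) u).obj F) := by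
  let a : ob u O' ≅ (Over.map u).obj (Over.mk (spc (algebraMap O O'))) :=
    Over.isoMk (Iso.refl _) (Category.id_comp _)
  let b : ob u O ≅ (Over.map u).obj (top (Spec (.of O))) := Over.isoMk (Iso.refl _) (by simp)
  exact (hb_of_sq _ _ a.hom b.hom (Over.OverMorphism.ext
    ((Category.id_comp _).trans (Category.comp_id _).symm))).trans
      (hb_pb u (tp (spc (algebraMap O O')))).symm

/-- Geometric points of `Spec O` lie on `x ≠ 0` or on the section `x = 0`. -/
theorem pt_cases {C O : Type} [CommRing C] [CommRing O] [Algebra C O] (x : O) (ψ : O →ₐ[C] C)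
    (hψ : RingHom.ker ψ = Ideal.span {x}) (k : Type) [Field k] (φ : O →+* k) :
    (φ x ≠ 0 ∧ (∃ y, y ≫ spc (algebraMap O (Localization.Away x)) = spc φ) ∧
      IsEmpty (pullback (spc φ) (spc (ψ : O →+* C)) : Scheme.{0})) ∨
    (φ x = 0 ∧ (∃ z, z ≫ spc (ψ : O →+* C) = spc φ) ∧
      ∀ p, spc φ p ∉ Set.range (spc (algebraMap O (Localization.Away x)))) := by
  have hx : ψ x = 0 := (hψ ▸ Ideal.mem_span_singleton_self x : x ∈ RingHom.ker ψ)
  by_cases h : φ x = 0
  · refine .inr ⟨h, ⟨spc (φ.comp (algebraMap C O)), ?_⟩, fun p ⟨q, hq⟩ => ?_⟩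
    · rw [← Spec.map_comp, ← CommRingCat.ofHom_comp]
      congr 2
      ext o
      have : o - algebraMap C O (ψ o) ∈ Ideal.span {x} := by
        rw [← hψ, RingHom.mem_ker, map_sub, AlgHom.commutes]; exact sub_self _
      obtain ⟨c, hc⟩ := Ideal.mem_span_singleton'.1 this
      have := congrArg φ hc
      rw [map_mul, h, mul_zero, map_sub] at this
      exact (sub_eq_zero.1 this.symm).symm
    · have h1 : x ∈ (spc φ p).asIdeal := by
        change φ x ∈ p.asIdeal
        rw [h]; exact zero_mem _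
      rw [← hq] at h1
      exact q.2.ne_top (Ideal.eq_top_of_isUnit_mem _ h1
        (IsLocalization.Away.algebraMap_isUnit (S := Localization.Away x) x))
  · refine .inl ⟨h, ⟨spc (IsLocalization.Away.lift x (Ne.isUnit h)), ?_⟩, ⟨fun t => ?_⟩⟩
    · rw [← Spec.map_comp, ← CommRingCat.ofHom_comp, IsLocalization.Away.lift_comp]
    · have e : spc φ (pullback.fst (spc φ) (spc (ψ : O →+* C)) t) =
          spc (ψ : O →+* C) (pullback.snd (spc φ) (spc (ψ : O →+* C)) t) := by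
        rw [← Scheme.Hom.comp_apply, pullback.condition, Scheme.Hom.comp_apply]
      have h1 : x ∈ (spc (ψ : O →+* C) (pullback.snd (spc φ) (spc (ψ : O →+* C)) t)).asIdeal := by
        change ψ x ∈ (pullback.snd (spc φ) (spc (ψ : O →+* C)) t).asIdeal
        rw [hx]; exact zero_mem _
      rw [← e] at h1
      exact (pullback.fst (spc φ) (spc (ψ : O →+* C)) t).2.ne_top
        (Ideal.eq_top_of_isUnit_mem _ h1 (Ne.isUnit h))

theorem be (h1 : CONST_s) (h2 : EXT0_s) (h3 : LA_s) : BE_s := by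
  intro l _ X C O O' Ω _ _ _ _ _ _ _ _ _ _ _ _ _ x u F hC hl hG hL hg
  obtain ⟨_, _, hG, hx⟩ := hG.exists
  obtain ⟨_, _, hi⟩ := hG.dom hC
  obtain ⟨ψ, hψ⟩ := hG.exists_sec hC (zero_mem _)
  rw [map_zero, sub_zero, hx] at hψ
  have hx0 : x ≠ 0 := fun e => X_ne_zero (hi (hx.trans (e.trans (map_zero _).symm)))
  have hO := FaithfulSMul.algebraMap_injective O Ω
  have hu : IsUnit (algebraMap O Ω x) := Ne.isUnit fun e => hx0 (hO (e.trans (map_zero _).symm))
  have hM : Submonoid.powers x ≤ nonZeroDivisors O := powers_le_nonZeroDivisors_of_noZeroDivisors hx0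
  let O1 := Localization.Away x
  let : Algebra O1 Ω := (IsLocalization.Away.lift x hu).toAlgebra
  have : IsScalarTower O O1 Ω :=
    .of_algebraMap_eq fun o => (IsLocalization.Away.lift_eq x hu o).symm
  have : IsDomain O1 := IsLocalization.isDomain_localization hM
  have : IsIntegrallyClosed O1 := isIntegrallyClosed_of_isLocalization O1 _ hM
  have : FaithfulSMul O1 Ω := (faithfulSMul_iff_algebraMap_injective _ _).2
    ((IsLocalization.lift_injective_iff _).2 fun a b =>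
      ⟨fun e => congrArg _ (IsLocalization.injective O1 hM e), fun e => congrArg _ (hO e)⟩)
  have : Algebra.IsAlgebraic O1 Ω := .extendScalars (R := O) (IsLocalization.injective O1 hM)
  have hlO : IsUnit (l : O) := by simpa using hl.map (algebraMap C O)
  have hl1 : IsUnit (l : O1) := by simpa using hlO.map (algebraMap O O1)
  have hL1 : Lis l F.obj (ob (ob u O1).hom O1) := hL.2.2.mono (tw u O1 O1).hom
  obtain ⟨e1⟩ := h1 l X O1 Ω (ob u O1).hom F hL.1.1 hl1 hL1 fun m =>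
    (lis_inv _ hL.1.1 hL1 hl1 m).2 fun g => by
      obtain ⟨m, rfl⟩ := (ConcreteCategory.bijective_of_isIso (F.obj.map (tw u O1 Ω).hom.op)).2 m
      rw [gal_rs, ← tw_rs]
      exact congrArg _ (hg (g.restrictScalars O) m)
  have hT := hL.1.2 (ob (ob u O1).hom O1) (inferInstanceAs (IsAffine (Spec _)))
  generalize F.obj.obj (op (ob (ob u O1).hom O1)) = M at e1 hT
  have hs : Surjective (ψ : O →+* C) := fun c => ⟨_, ψ.commutes c⟩
  have : IsClosedImmersion (spc (ψ : O →+* C)) := IsClosedImmersion.spec_of_surjective _ hs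
  obtain ⟨e2⟩ := pb_cst (spc (algebraMap O O1)) M
  obtain ⟨e3⟩ := pb_cst (spc (ψ : O →+* C)) M
  obtain ⟨f, w, hS⟩ := oc_exact h2 (Linv.spec hlO) (spc (algebraMap O O1)) (spc (ψ : O →+* C))
    (fun k _ t => by
      obtain ⟨φ, rfl⟩ := Spec.map_surjective t
      exact (pt_cases x ψ hψ k φ.hom).imp And.right And.right)
    ((pb (J := Scheme.etaleTopology) u).obj F) ((cst _).obj M) (hL.1.1.pb u) (cst_Tc M hT).1
    (fun k _ _ t _ ht s => by
      obtain ⟨φ, rfl⟩ := Spec.map_surjective t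
      rcases pt_cases x ψ hψ k φ.hom with ⟨-, ⟨y, hy⟩, -⟩ | ⟨h, -⟩
      · exact (ht (closedPoint k) ⟨y (closedPoint k), by
          rw [← Scheme.Hom.comp_apply, hy]; rfl⟩).elim
      · let := φ.hom.toAlgebra
        exact hL.2.1 k h s)
    ((Scheme.etaleTopology.overMapPullbackComp Ab.{1} _ u).app F ≪≫ e1 ≪≫ e2.symm)
  refine (hb_hm_tp u O' F).2 (hb_x₁ _ hS ?_ ?_)
  · have hA : AB M (spc (algebraMap O O')) :=
      (hb_cst_iff (sph (algebraMap O O') (a := 𝟙 _) rfl) M).1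
        (h3 l _ C O O' (𝟙 _) M hC hl hG.ind hT)
    exact hA
  · let K := FractionRing C
    let N := Algebra.algebraMapSubmonoid O (nonZeroDivisors C)
    have := hC.shl
    have := aic_algClosed hC K
    have hm : N.map (ψ : O →+* C) = nonZeroDivisors C := by
      ext c
      exact ⟨by rintro ⟨_, ⟨d, hd, rfl⟩, rfl⟩; simpa using hd,
        fun hc => ⟨_, ⟨c, hc, rfl⟩, ψ.commutes c⟩⟩
    have : IsLocalization (N.map (ψ : O →+* C)) K := by
      rw [hm]; exact (inferInstance : IsFractionRing C K)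
    have hp := isPullback_SpecMap_of_isPushout _ _ _ _ (CommRingCat.isPushout_of_isLocalization
      (ψ : O →+* C) (IsLocalization.map K (ψ : O →+* C) N.le_comap_map : O' →+* K)
      (IsLocalization.map_comp _) N)
    exact (hb_pf _ _ _).2 ((hb_tp_pull hp.flip _).2
      (HB.of_iso (ab_shl M (algebraMap C K)) e3.symm))

end Pool.Agent.MP_855f4c_ag.E.SA

end

section

set_option autoImplicit false
set_option backward.isDefEq.respectTransparency false

open CategoryTheory Limits Abelian Opposite AlgebraicGeometry Polynomial IsLocalRing TensorProduct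
open Function

namespace Pool.Agent.MP_855f4c_ag.E.SA

open E3 E4

namespace CH

section
variable {C C' D O : Type} [CommRing C] [CommRing C'] [CommRing D] [CommRing O] [Algebra C D]
  [Algebra C[X] D] [IsScalarTower C C[X] D] [Algebra D O] [Algebra C' O] (φ : C →+* C')
  (hc : ∀ c : C, algebraMap D O (algebraMap C D c) = algebraMap C' O (φ c))
include hc

lemma img (h : C[X]) : algebraMap D O (algebraMap C[X] D h) =
    aeval (algebraMap D O (algebraMap C[X] D X)) (h.map φ) := by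
  have : (algebraMap D O).comp (algebraMap C[X] D) =
      (aeval (R := C') (algebraMap D O (algebraMap C[X] D X))).toRingHom.comp (mapRingHom φ) := by
    refine Polynomial.ringHom_ext (fun c => ?_) (by simp)
    have := hc c
    rw [IsScalarTower.algebraMap_apply C C[X] D] at this
    simpa using this
  exact congr($this h)
end

variable {V O : Type} [CommRing V] [CommRing O] [Algebra V O]

lemma dvd_sub (x : O) (a : V) (g : V[X]) :
    x ∣ aeval (x + algebraMap V O a) g - algebraMap V O (g.eval a) := by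
  have := sub_dvd_eval_sub (x + algebraMap V O a) (algebraMap V O a) (g.map (algebraMap V O))
  rwa [add_sub_cancel_right, eval_map_algebraMap, eval_map_algebraMap,
    aeval_algebraMap_apply_eq_algebraMap_eval] at this

lemma unit_of [IsLocalRing V] {x : O} (hx : GermAt V x) (a : V) (g : V[X])
    (hg : IsUnit (g.eval a)) : IsUnit (aeval (x + algebraMap V O a) g) := by
  obtain ⟨_, _, hG, e⟩ := hx.exists
  have := hG.shl
  obtain ⟨w, hw⟩ := dvd_sub x a g
  by_contra hn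
  have h1 : x * w ∈ maximalIdeal O := Ideal.mul_mem_right _ _ (e ▸ hG.orig)
  have h2 : algebraMap V O (g.eval a) ∈ maximalIdeal O := by
    rw [show algebraMap V O (g.eval a) = aeval (x + algebraMap V O a) g - x * w by
      rw [← hw, sub_sub_cancel]]
    exact sub_mem hn h1
  exact h2 (hg.map _)

end CH

open CH in
theorem chd (h1 : GLT_s) (h2 : INTR_s) (h3 : DG_s) : CHD_s := by
  intro l _ X C D D' _ _ _ _ _ _ _ _ _ _ h u F hC hl hS hL
  refine h1 X F hL.1.1.1 C D D' u 0 hC fun P _ O O' _ _ _ _ _ _ x a hx hc hX => ?_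
  have hP : Aic (Localization.AtPrime P) := hC.of_isLocalization P.primeCompl
  have hl' : IsUnit (l : Localization.AtPrime P) := by
    simpa using hl.map (algebraMap C (Localization.AtPrime P))
  have hL' := hL.base u O
  rw [img (algebraMap C (Localization.AtPrime P)) hc, hX] at hL'
  by_cases hu : IsUnit (h.eval₂ (algebraMap C (Localization.AtPrime P)) a)
  · refine (h2 l X _ O O' x _ F hP hl' hx hL.1 (hL'.lis _ O ?_)).con 1
    exact unit_of hx a _ (by rwa [← eval₂_eq_eval_map])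
  · obtain ⟨a', h0, ha⟩ := hS _ (algebraMap C (Localization.AtPrime P)) hP a hu
    refine h3 l X _ O O' _ _ _ F hP hl' (hx.shift ha) ?_ hL'
    have := dvd_sub (x + algebraMap _ O (a - a')) a' (h.map (algebraMap C (Localization.AtPrime P)))
    rwa [← eval₂_eq_eval_map, h0, map_zero, sub_zero, add_assoc, ← map_add, sub_add_cancel] at this

open CH in
theorem chs (h1 : GLT_s) (h2 : INTR_s) (h3 : BND_s) : CHS_s := by
  intro l _ X V D D' _ _ _ _ _ _ _ _ _ _ _ _ h u F hV hT hl hS hL hF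
  refine hb_of_con fun N => h1 X F hL.1.1.1 V D D' u N hV
    fun P _ O O' _ _ _ _ _ hG x a hx hc hX => HB.con ?_ _
  rcases hT.prime P with rfl | rfl
  · have hb : Bijective (algebraMap O O') := (IsLocalization.atUnits O
      (Algebra.algebraMapSubmonoid O (nonZeroDivisors (Localization.AtPrime (⊥ : Ideal V))))
      (S := O') (by
        rintro _ ⟨c, hc, rfl⟩
        refine IsUnit.map _ (by_contra fun hn => nonZeroDivisors.ne_zero hc ?_)
        have : c ∈ maximalIdeal _ := hn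
        rwa [← Localization.AtPrime.map_eq_maximalIdeal, Ideal.map_bot, Ideal.mem_bot] at this)
      ).bijective
    have : IsIso (CommRingCat.ofHom (algebraMap O O')) :=
      (ConcreteCategory.isIso_iff_bijective _).2 hb
    have := isIso_homMk (hm (spc (algebraMap D O) ≫ u) (Algebra.ofId O O'))
      (inferInstanceAs (IsIso (Spec.map (CommRingCat.ofHom (algebraMap O O')))))
    exact hb_of_isIso _ _
  · have hb : Bijective (algebraMap V (Localization.AtPrime (maximalIdeal V))) :=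
      (IsLocalization.atUnits V (maximalIdeal V).primeCompl
        (S := Localization.AtPrime (maximalIdeal V)) fun c hc => by_contra hc).bijective
    let _ : Algebra V O := ((algebraMap (Localization.AtPrime (maximalIdeal V)) O).comp
      (algebraMap V _)).toAlgebra
    have : IsScalarTower V (Localization.AtPrime (maximalIdeal V)) O := .of_algebraMap_eq' rfl
    have hx' := hx.of_bijective V hb
    have e : Algebra.algebraMapSubmonoid O (nonZeroDivisors V) = Algebra.algebraMapSubmonoid O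
        (nonZeroDivisors (Localization.AtPrime (maximalIdeal V))) := by
      ext z
      refine ⟨?_, ?_⟩
      · rintro ⟨c, hc, rfl⟩
        exact ⟨_, mem_nonZeroDivisors_of_ne_zero
          ((map_ne_zero_iff _ hb.1).2 (nonZeroDivisors.ne_zero hc)), rfl⟩
      · rintro ⟨c, hc, rfl⟩
        obtain ⟨c, rfl⟩ := hb.2 c
        exact ⟨c, mem_nonZeroDivisors_of_ne_zero
          ((map_ne_zero_iff _ hb.1).1 (nonZeroDivisors.ne_zero hc)), rfl⟩
    have : Gen V O O' := by
      unfold Gen at hG ⊢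
      rwa [e]
    obtain ⟨a, rfl⟩ := hb.2 a
    have hL' := hL.base u O
    rw [img (C' := V) (RingHom.id V) hc, hX, Polynomial.map_id,
      ← IsScalarTower.algebraMap_apply] at hL'
    by_cases hu : IsUnit (h.eval a)
    · exact h2 l X V O O' x _ F hV hl hx' hL.1 (hL'.lis _ O (unit_of hx' a _ hu))
    · obtain ⟨a', g, rfl, hg, ha⟩ := hS a hu
      have hx'' := hx'.shift ha
      refine h3 l X V O O' _ _ F hV hT hl hx'' (hL'.of_associated _ ?_) hF
      have hg' := unit_of hx'' a' g hg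
      rw [add_assoc, ← map_add, sub_add_cancel] at hg'
      rw [map_mul, map_sub, aeval_X, aeval_C, map_sub, add_sub_assoc]
      exact associated_mul_unit_left _ _ hg'

end Pool.Agent.MP_855f4c_ag.E.SA

end

section

set_option autoImplicit false
set_option backward.isDefEq.respectTransparency false

open CategoryTheory Limits Abelian Opposite AlgebraicGeometry Polynomial IsLocalRing TensorProduct
open Function

namespace Pool.Agent.MP_855f4c_ag.E.SA

open E3 E4

namespace P1C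

/-- Mayer-Vietoris comparison along a base change. -/
theorem mv_bc {X : Scheme.{0}} {F : Sh (Scheme.etaleTopology.over X)} {N : ℕ} {T T' W U₁ U₂ W' U₁' U₂' : Over X}
    {a₁ : W ⟶ U₁} {a₂ : W ⟶ U₂} {i₁ : U₁ ⟶ T} {i₂ : U₂ ⟶ T} (h : IsPullback a₁ a₂ i₁ i₂)
    [IsOpenImmersion i₁.left] [IsOpenImmersion i₂.left]
    (hc : ∀ t : T.left, t ∈ Set.range i₁.left ∨ t ∈ Set.range i₂.left)
    {t : T' ⟶ T} {w : W' ⟶ W} {v₁ : U₁' ⟶ U₁} {v₂ : U₂' ⟶ U₂} {i₁' : U₁' ⟶ T'} {i₂' : U₂' ⟶ T'}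
    {j : W' ⟶ T'} (p₁ : IsPullback v₁ i₁' i₁ t) (p₂ : IsPullback v₂ i₂' i₂ t)
    (p : IsPullback w j (a₁ ≫ i₁) t) (hw : Con w F N) (h₁ : Con v₁ F N) (h₂ : Con v₂ F N) :
    Con t F N := by
  let a₁' := p₁.lift (w ≫ a₁) j (by rw [Category.assoc, p.w])
  let a₂' := p₂.lift (w ≫ a₂) j (by rw [Category.assoc, ← h.w, p.w])
  have e₁ : a₁' ≫ v₁ = w ≫ a₁ := p₁.lift_fst _ _ _
  have e₂ : a₂' ≫ v₂ = w ≫ a₂ := p₂.lift_fst _ _ _
  have f₁ : a₁' ≫ i₁' = j := p₁.lift_snd _ _ _
  have f₂ : a₂' ≫ i₂' = j := p₂.lift_snd _ _ _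
  have q₁ : IsPullback w a₁' a₁ v₁ := IsPullback.of_bot (f₁ ▸ p) e₁.symm p₁
  have q := q₁.flip.paste_vert h
  rw [← e₂, p₁.w] at q
  have : IsOpenImmersion i₁'.left := MorphismProperty.of_isPullback (isPullback_left p₁) ‹_›
  have : IsOpenImmersion i₂'.left := MorphismProperty.of_isPullback (isPullback_left p₂) ‹_›
  exact mv_con h hc (IsPullback.of_bot q (f₁.trans f₂.symm) p₂.flip)
    (fun z => (hc (t.left z)).imp (pb_mem_range (isPullback_left p₁) z).2
      (pb_mem_range (isPullback_left p₂) z).2) w v₁ v₂ t e₁ e₂ p₁.w.symm p₂.w.symm hw h₁ h₂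

section lf
variable {Y P : Scheme.{0}} (π : P ⟶ Y)

/-- The map to a fibre. -/
noncomputable def lf (S : Over Y) (U : Over P) (s : U.left ⟶ S.left)
    (h : s ≫ S.hom = U.hom ≫ π) : U ⟶ (Over.pullback π).obj S :=
  Over.homMk (pullback.lift s U.hom h) (pullback.lift_snd _ _ _)

theorem lf_pb {S S' : Over Y} {U U' : Over P} (g : S' ⟶ S) (v : U' ⟶ U) {s : U.left ⟶ S.left}
    {s' : U'.left ⟶ S'.left} (h : s ≫ S.hom = U.hom ≫ π) (h' : s' ≫ S'.hom = U'.hom ≫ π)
    (q : IsPullback v.left s' s g.left) :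
    IsPullback v (lf π S' U' s' h') (lf π S U s h) ((Over.pullback π).map g) := by
  have e : v ≫ lf π S U s h = lf π S' U' s' h' ≫ (Over.pullback π).map g :=
    Over.OverMorphism.ext (pullback.hom_ext (by simp [lf, q.w]) (by simp [lf]))
  have q₀ : IsPullback ((Over.pullback π).map g).left (pullback.fst _ _) (pullback.fst _ _)
      g.left := IsPullback.of_right (h₁₂ := pullback.snd _ _) (v₁₃ := π) (h₂₂ := S.hom)
    (by simpa using (IsPullback.of_hasPullback S'.hom π).flip) (by simp)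
    (IsPullback.of_hasPullback S.hom π).flip
  refine IsPullback.of_map (Over.forget P) e
    (IsPullback.of_bot ?_ (congrArg (·.left) e) q₀)
  simpa [lf] using q

end lf

section chart
variable {A C : Type} [CommRing A] [CommRing C] (L : PL (Spec (.of A))) (φ : A →+* C)
  (D : Type) [CommRing D] [Algebra C D] (u : Spec (.of D) ⟶ L.P)
  (hu : u ≫ L.π = spc (algebraMap C D) ≫ spc φ)

lemma ob_hom : (ob u D).hom = u := by simp

/-- A chart of the fibre over `C`. -/
noncomputable def ch : ob u D ⟶ (Over.pullback L.π).obj (Over.mk (spc φ)) :=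
  lf L.π _ _ (spc (algebraMap C D)) (by rw [ob_hom, hu]; rfl)

lemma ch_left (z : Spec (.of D) ⟶ P1) (hz : u ≫ L.q = z) :
    (ch L φ D u hu).left = (L.bc (Over.mk (spc φ))).pnt (spc (algebraMap C D)) z := by
  refine (L.bc (Over.mk (spc φ))).pnt_ext ?_ ?_
  · rw [PL.pnt_π]
    exact pullback.lift_fst _ _ _
  · rw [PL.pnt_q, ← hz]
    exact (pullback.lift_snd_assoc _ _ _ _).trans (congrArg (· ≫ L.q) (ob_hom L D u))

lemma ch_pb (K : Type) [CommRing K] [Algebra C K] (b : Spec (.of K) ⟶ Spec (.of A))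
    (e : spc (algebraMap C K) ≫ spc φ = b) : ∃ j, IsPullback (hm u (Algebra.ofId D (D ⊗[C] K))) j
      (ch L φ D u hu) ((Over.pullback L.π).map (sph (algebraMap C K) e)) := by
  have q := isPullback_SpecMap_of_isPushout _ _ _ _ (CommRingCat.isPushout_tensorProduct C D K)
  refine ⟨_, lf_pb L.π (sph (algebraMap C K) e) _ _ ?_ q⟩
  subst e
  simp only [Over.mk_hom, Category.assoc, hu]
  exact (q.w_assoc _).symm

end chart

section u
variable {A C : Type} [CommRing A] [CommRing C] (L : PL (Spec (.of A))) (φ : A →+* C)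
  (D : Type) [CommRing D] [Algebra C D] [Algebra C[X] D] [IsScalarTower C C[X] D]

lemma spc_eq : spc ((algebraMap C[X] D).comp (Polynomial.C.comp φ)) =
    spc (algebraMap C D) ≫ spc φ := by
  rw [← Spec.map_comp, ← CommRingCat.ofHom_comp, IsScalarTower.algebraMap_eq C C[X] D]
  rfl

lemma hu₁ : u₁ L φ D ≫ L.π = spc (algebraMap C D) ≫ spc φ := (L.pnt_π _ _).trans (spc_eq φ D)

lemma hu₂ : u₂ L φ D ≫ L.π = spc (algebraMap C D) ≫ spc φ := (L.pnt_π _ _).trans (spc_eq φ D)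

end u

end P1C

open P1C in
theorem p1c : P1C_s := by
  intro A _ L F C K _ _ _ _ _ φ b e N h
  let R := Localization.Away (X : C[X])
  let ψ : C[X] →+* R := eval₂RingHom (algebraMap C R) (IsLocalization.Away.invSelf (X : C[X]))
  have hψ : ψ.comp Polynomial.C = (algebraMap C[X] R).comp Polynomial.C :=
    eval₂RingHom_comp_C _ _
  have hX : algebraMap C[X] R X * ψ X = 1 := by
    simp only [ψ, coe_eval₂RingHom, eval₂_X]
    exact IsLocalization.Away.mul_invSelf _
  have e₁ : (ch L φ C[X] _ (hu₁ L φ _)).left = (L.bc (Over.mk (spc φ))).c₁ :=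
    ch_left L φ _ _ _ _ (L.pnt_q _ _)
  have e₂ : (ch L φ C[X] _ (hu₂ L φ _)).left = (L.bc (Over.mk (spc φ))).c₂ :=
    ch_left L φ _ _ _ _ (L.pnt_q _ _)
  let a₁ : ob (u₁ L φ R) R ⟶ ob (u₁ L φ C[X]) C[X] := Over.homMk (spc (algebraMap C[X] R)) (by
    rw [ob_hom, ob_hom, PL.comp_pnt, map_pt1, ← Spec.map_comp]; rfl)
  let a₂ : ob (u₁ L φ R) R ⟶ ob (u₂ L φ C[X]) C[X] := Over.homMk (spc ψ) (by
    rw [ob_hom, ob_hom, PL.comp_pnt, map_pt2, ← Spec.map_comp, ← CommRingCat.ofHom_comp,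
      PL.pnt_inj]
    exact ⟨congrArg (fun f => spc (RingHom.comp f φ)) hψ, (pt1_eq_pt2.2 hX).symm⟩)
  have q := (L.bc (Over.mk (spc φ))).isPullback_away ψ hψ hX
  rw [← e₁, ← e₂] at q
  have q' : IsPullback a₁ a₂ (ch L φ C[X] _ (hu₁ L φ _)) (ch L φ C[X] _ (hu₂ L φ _)) :=
    IsPullback.of_map (Over.forget _) (Over.OverMorphism.ext q.w) q
  have : IsOpenImmersion (ch L φ C[X] _ (hu₁ L φ _)).left := by rw [e₁]; infer_instance
  have : IsOpenImmersion (ch L φ C[X] _ (hu₂ L φ _)).left := by rw [e₂]; infer_instance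
  obtain ⟨j₁, p₁⟩ := ch_pb L φ C[X] _ (hu₁ L φ _) K b e
  obtain ⟨j₂, p₂⟩ := ch_pb L φ C[X] _ (hu₂ L φ _) K b e
  obtain ⟨j, p⟩ := ch_pb L φ R _ (hu₁ L φ _) K b e
  have e₃ : ch L φ R _ (hu₁ L φ _) = a₁ ≫ ch L φ C[X] _ (hu₁ L φ _) := by
    refine Over.OverMorphism.ext ?_
    rw [Over.comp_left, e₁, ch_left L φ _ _ _ _ (L.pnt_q _ _)]
    exact ((L.bc (Over.mk (spc φ))).map_c₁ (algebraMap C[X] R)).symm
  rw [e₃] at p
  have : Algebra.Etale C[X] R := Algebra.Etale.of_isLocalizationAway (X : C[X])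
  refine mv_bc q' (fun t => ?_) p₁ p₂ p (h R _).1 (h C[X] _).1 (h C[X] _).2
  rw [e₁, e₂]
  exact (L.bc (Over.mk (spc φ))).cover t

theorem deg (h1 : P1C_s) (h2 : LOC_s) (h3 : CHD_s) (h4 : POL_s) : DEG_s := by
  intro l _ A _ L h F hh hF C K _ _ _ _ _ _ a b e hC hl
  obtain ⟨φ, rfl⟩ := Spec.map_surjective a
  have hφ : IsUnit (h.map φ.hom).leadingCoeff := by
    rw [leadingCoeff_map_of_leadingCoeff_ne_zero _ (hh.map φ.hom).ne_zero]
    exact hh.map φ.hom
  refine (h1 A L F C K φ.hom b e 1 fun D D' _ _ _ _ _ _ _ _ => ?_).2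
  obtain ⟨k1, k2⟩ := h2 l A L h F hh hF C D φ.hom hl
  obtain ⟨s1, s2⟩ := h4.1 C _ hφ
  exact ⟨h3 l _ C D D' _ _ F hC hl s1 k1, h3 l _ C D D' _ _ F hC hl s2 k2⟩

theorem sbc (h1 : P1C_s) (h2 : LOC_s) (h3 : CHS_s) (h4 : POL_s) : SBC_s := by
  intro l _ A _ L m a F ha hF V K _ _ _ _ _ _ _ φ b e hV ht hl
  have hh : IsUnit (∏ i, (X - Polynomial.C (a i))).leadingCoeff := by
    rw [(monic_prod_of_monic _ _ fun i _ => monic_X_sub_C (a i)).leadingCoeff]
    exact isUnit_one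
  have hm : (∏ i, (X - Polynomial.C (a i))).map φ = ∏ i, (X - Polynomial.C (φ (a i))) := by
    simp [Polynomial.map_prod]
  refine hb_of_con fun N => h1 A L F V K φ b e _ fun D D' _ _ _ _ _ _ _ _ => ?_
  obtain ⟨k1, k2⟩ := h2 l A L _ F hh hF V D φ hl
  obtain ⟨s1, s2⟩ := h4.2 V m (fun i => φ (a i)) fun i j hij => by
    rw [← map_sub]; exact (ha i j hij).map φ
  rw [hm] at k1 k2
  exact ⟨(h3 l _ V D D' _ _ F hV ht hl s1 k1 hF.2.1).con _,
    (h3 l _ V D D' _ _ F hV ht hl s2 k2 hF.2.1).con _⟩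

end Pool.Agent.MP_855f4c_ag.E.SA

end
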