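import Pool.Agent.MP_855f4c_ag.WD.F
import Pool.Agent.MP_855f4c_ag.EC.F1a

section

namespace Pool.Agent.MP_855f4c_ag.E.RK

open Module LinearMap Polynomial

/-- power sum -/
noncomputable def ps (M : Multiset ℂ) (n : ℕ) : ℂ := (M.map (· ^ n)).sum

lemma ps_add (M N : Multiset ℂ) (n : ℕ) : ps (M + N) n = ps M n + ps N n := by simp [ps]

lemma ps_zero (M : Multiset ℂ) : ps M 0 = M.card := by simp [ps]

lemma ps_eq_sum (B : Multiset ℂ) (Z : Finset ℂ) (hB : ∀ z ∈ B, z ∈ Z) (n : ℕ) :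
    ps B n = ∑ z ∈ Z, (B.count z : ℂ) * z ^ n := by
  classical
  rw [ps, Finset.sum_multiset_map_count]
  simp only [nsmul_eq_mul]
  refine Finset.sum_subset (fun z hz => hB z (by simpa using hz)) fun z _ hz => ?_
  rw [Multiset.count_eq_zero_of_notMem (by simpa using hz)]
  simp

lemma ps_inj {M N : Multiset ℂ} (h : ∀ n, ps M n = ps N n) : M = N := by
  classical
  set Z : Finset ℂ := insert 0 (M.toFinset ∪ N.toFinset) with hZ
  have hM : ∀ z ∈ M, z ∈ Z := fun z hz => by simp [hZ, hz]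
  have hN : ∀ z ∈ N, z ∈ Z := fun z hz => by simp [hZ, hz]
  have h1 : ∀ n, ∑ z ∈ Z, ((M.count z : ℂ) - N.count z) * z ^ n = 0 := fun n => by
    simp only [sub_mul, Finset.sum_sub_distrib, ← ps_eq_sum M Z hM, ← ps_eq_sum N Z hN, h n,
      sub_self]
  have h2 : ∀ z ∈ Z, z ≠ 0 → (M.count z : ℂ) - N.count z = 0 := fun z hz h0 =>
    NoCancel.coeff_zero 0 le_rfl z (norm_pos_iff.2 h0) (Z.erase z)
      (fun z => (M.count z : ℂ) - N.count z) 0 (Finset.notMem_erase z Z) fun n _ => by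
        rw [Finset.add_sum_erase Z (fun z => ((M.count z : ℂ) - N.count z) * z ^ n) hz, h1]
        simp
  have h3 : ((M.count 0 : ℂ) - N.count 0) = 0 := by
    have := h1 0
    rw [Finset.sum_eq_single 0 (fun z hz h0 => by rw [h2 z hz h0, zero_mul])
      (fun h => absurd (Finset.mem_insert_self _ _) h)] at this
    simpa using this
  ext z
  by_cases hz : z ∈ Z
  · by_cases h0 : z = 0
    · subst h0; exact_mod_cast sub_eq_zero.1 h3
    · exact_mod_cast sub_eq_zero.1 (h2 z hz h0)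
  · rw [Multiset.count_eq_zero_of_notMem fun h => hz (hM z h),
      Multiset.count_eq_zero_of_notMem fun h => hz (hN z h)]

lemma ps_norm_le {M : Multiset ℂ} {R : ℝ} (h : ∀ z ∈ M, ‖z‖ ≤ R) (n : ℕ) :
    ‖ps M n‖ ≤ M.card * R ^ n := by
  induction M using Multiset.induction_on with
  | empty => simp [ps]
  | cons a M ih =>
    have h1 := ih fun z hz => h z (Multiset.mem_cons_of_mem hz)
    have h2 : ‖a ^ n‖ ≤ R ^ n := by
      rw [norm_pow]; exact pow_le_pow_left₀ (norm_nonneg _) (h a (Multiset.mem_cons_self _ _)) n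
    have : ps (a ::ₘ M) n = a ^ n + ps M n := by simp [ps]
    rw [this, Multiset.card_cons]
    refine (norm_add_le _ _).trans ?_
    push_cast; linarith

section ev
variable {V W U : Type} [AddCommGroup V] [Module ℂ V] [FiniteDimensional ℂ V]
  [AddCommGroup W] [Module ℂ W] [FiniteDimensional ℂ W]
  [AddCommGroup U] [Module ℂ U] [FiniteDimensional ℂ U]

/-- eigenvalues with multiplicity -/
noncomputable def ev (g : End ℂ V) : Multiset ℂ := g.charpoly.roots

lemma mem_ev {g : End ℂ V} {μ : ℂ} : μ ∈ ev g ↔ g.HasEigenvalue μ := by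
  rw [ev, mem_roots g.charpoly_monic.ne_zero, End.hasEigenvalue_iff_isRoot_charpoly]

lemma card_ev (g : End ℂ V) : (ev g).card = finrank ℂ V := by
  rw [ev, splits_iff_card_roots.1 (IsAlgClosed.splits _), g.charpoly_natDegree]

lemma charpoly_eq (g : End ℂ V) : g.charpoly = ((ev g).map fun a => X - C a).prod :=
  (prod_multiset_X_sub_C_of_monic_of_roots_card_eq g.charpoly_monic
    (splits_iff_card_roots.1 (IsAlgClosed.splits _))).symm

lemma tr_pow (g : End ℂ V) (k : ℕ) : trace ℂ V (g ^ k) = ps (ev g) k := by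
  classical
  have hds := DirectSum.isInternal_submodule_of_iSupIndep_of_iSup_eq_top
    g.independent_maxGenEigenspace g.iSup_maxGenEigenspace_eq_top
  have hfin : {μ | g.maxGenEigenspace μ ≠ ⊥}.Finite :=
    WellFoundedGT.finite_ne_bot_of_iSupIndep g.independent_maxGenEigenspace
  have hm : ∀ (k : ℕ) μ, Set.MapsTo (g ^ k) (g.maxGenEigenspace μ) (g.maxGenEigenspace μ) :=
    fun k μ => g.mapsTo_maxGenEigenspace_of_comm ((Commute.refl g).pow_right k) μ
  rw [LinearMap.trace_eq_sum_trace_restrict' hds hfin (hm k), ps_eq_sum _ hfin.toFinset]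
  · refine Finset.sum_congr rfl fun μ _ => ?_
    have h1 := g.mapsTo_maxGenEigenspace_of_comm (Commute.refl _) μ
    have h2 : IsNilpotent (g.restrict h1 - algebraMap ℂ _ μ) :=
      g.isNilpotent_restrict_maxGenEigenspace_sub_algebraMap μ
    have h3 : ∀ k : ℕ, LinearMap.trace ℂ _ (g.restrict h1 ^ k) =
        (Module.finrank ℂ (g.maxGenEigenspace μ) : ℂ) * μ ^ k := by
      intro k
      induction k with
      | zero => rw [pow_zero, pow_zero, mul_one, LinearMap.trace_one]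
      | succ k ih =>
        rw [pow_succ, Module.End.mul_eq_comp, LinearMap.trace_comp_eq_mul_of_commute_of_isNilpotent
          μ ((Commute.refl _).pow_left k) h2, ih]; ring
    rw [ev, count_roots, ← finrank_maxGenEigenspace_eq, ← h3]
    exact congrArg _ (Module.End.pow_restrict k h1 (hm k μ)).symm
  · intro μ hμ
    rw [Set.Finite.mem_toFinset]
    exact (Module.End.hasUnifEigenvalue_iff_hasUnifEigenvalue_one (k := ⊤) (by simp)).2
      (mem_ev.1 hμ)

lemma ev_eq {g : End ℂ V} {M : Multiset ℂ} (h : ∀ n, trace ℂ V (g ^ n) = ps M n) : ev g = M :=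
  ps_inj fun n => by rw [← tr_pow, h]

lemma ev_pow (g : End ℂ V) (k : ℕ) : ev (g ^ k) = (ev g).map (· ^ k) :=
  ev_eq fun n => by
    rw [← pow_mul, tr_pow, ps, ps, Multiset.map_map]
    simp only [Function.comp, pow_mul]

lemma ev_ses (i : W →ₗ[ℂ] V) (p : V →ₗ[ℂ] U) (hi : Function.Injective i)
    (hp : Function.Surjective p) (hex : Function.Exact i p) {a : End ℂ W} {b : End ℂ V}
    {c : End ℂ U} (hab : b ∘ₗ i = i ∘ₗ a) (hbc : p ∘ₗ b = c ∘ₗ p) : ev b = ev a + ev c :=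
  ev_eq fun n => by
    rw [ps_add, ← tr_pow, ← tr_pow]
    exact Fx.trace_ses i p hi hp hex _ _ _ (Module.End.commute_pow_left_of_commute hab n)
      (Module.End.commute_pow_left_of_commute hbc.symm n).symm

lemma ev_sub (i : W →ₗ[ℂ] V) (hi : Function.Injective i) {a : End ℂ W} {b : End ℂ V}
    (hab : b ∘ₗ i = i ∘ₗ a) : ev a ≤ ev b := by
  have hr : LinearMap.range i ≤ (LinearMap.range i).comap b := by
    rintro _ ⟨w, rfl⟩; exact ⟨a w, (LinearMap.congr_fun hab w).symm⟩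
  rw [ev_ses i (LinearMap.range i).mkQ hi (Submodule.mkQ_surjective _)
    (by rw [LinearMap.exact_iff]; simp) hab (c := (LinearMap.range i).mapQ _ b hr) (by ext; rfl)]
  exact Multiset.le_add_right _ _

lemma ev_quo (p : V →ₗ[ℂ] U) (hp : Function.Surjective p) {b : End ℂ V} {c : End ℂ U}
    (hbc : p ∘ₗ b = c ∘ₗ p) : ev c ≤ ev b := by
  have hk : ∀ x ∈ LinearMap.ker p, b x ∈ LinearMap.ker p := fun x hx => by
    have := LinearMap.congr_fun hbc x
    simp only [LinearMap.comp_apply, LinearMap.mem_ker.1 hx, map_zero] at this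
    exact this
  rw [ev_ses (LinearMap.ker p).subtype p Subtype.val_injective hp
    (by rw [LinearMap.exact_iff]; simp) (a := b.restrict hk) (by ext; rfl) hbc]
  exact Multiset.le_add_left _ _

lemma ev_dual (g : End ℂ V) : ev (Module.Dual.transpose (R := ℂ) g : End ℂ (Dual ℂ V)) = ev g :=
  ev_eq fun n => by
    rw [← tr_pow, ← trace_transpose' (g ^ n)]
    congr 1
    induction n with
    | zero => ext; rfl
    | succ n ih => rw [pow_succ, ih, pow_succ']; ext; rfl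

lemma ev_smul (c : ℂ) (g : End ℂ V) : ev (c • g) = (ev g).map (c * ·) :=
  ev_eq fun n => by
    rw [_root_.smul_pow, map_smul, tr_pow, ps, ps, Multiset.map_map, smul_eq_mul,
      ← Multiset.sum_map_mul_left]
    simp only [Function.comp, mul_pow]

lemma tr_aeval (g : End ℂ V) (p : ℂ[X]) :
    trace ℂ V (aeval g p) = ((ev g).map fun z => p.eval z).sum := by
  induction p using Polynomial.induction_on' with
  | add p q hp hq => simp only [map_add, hp, hq, eval_add, Multiset.sum_map_add]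
  | monomial n a =>
    rw [aeval_monomial, ← Algebra.smul_def, map_smul, tr_pow, ps, smul_eq_mul,
      ← Multiset.sum_map_mul_left]
    simp only [eval_monomial]

lemma ev_inv {g h : End ℂ V} (hg : h * g = 1) : ev h = (ev g).map (·⁻¹) := by
  have h0 : g.charpoly.coeff 0 ≠ 0 := by
    rw [coeff_zero_eq_eval_zero]
    intro h0
    obtain ⟨v, hv⟩ := ((End.hasEigenvalue_iff_isRoot_charpoly g 0).2 h0).exists_hasEigenvector
    have := LinearMap.congr_fun hg v
    rw [Module.End.mul_apply, hv.apply_eq_smul, zero_smul, map_zero] at this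
    exact hv.2 this.symm
  set p : ℂ[X] := C (-(g.charpoly.coeff 0)⁻¹) * g.charpoly.divX with hp
  have hX := X_mul_divX_add g.charpoly
  have h1 : g * aeval g p = 1 := by
    have := g.aeval_self_charpoly
    rw [← hX, map_add, map_mul, aeval_X, aeval_C] at this
    rw [hp, map_mul, aeval_C, ← Algebra.smul_def, mul_smul_comm, eq_neg_of_add_eq_zero_left this,
      Algebra.algebraMap_eq_smul_one, smul_neg, smul_smul, neg_mul, inv_mul_cancel₀ h0]
    simp
  have h2 : h = aeval g p := by rw [← mul_one h, ← h1, ← mul_assoc, hg, one_mul]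
  refine ev_eq fun n => ?_
  rw [h2, ← map_pow, tr_aeval, ps, Multiset.map_map]
  refine congrArg _ (Multiset.map_congr rfl fun z hz => ?_)
  have h3 : g.charpoly.eval z = 0 := (End.hasEigenvalue_iff_isRoot_charpoly g z).1 (mem_ev.1 hz)
  rw [← hX, eval_add, eval_mul, eval_X, eval_C] at h3
  have h4 : z * p.eval z = 1 := by
    rw [hp, eval_mul, eval_C, mul_left_comm, eq_neg_of_add_eq_zero_left h3]
    field_simp
  simp only [Function.comp, eval_pow, eq_inv_of_mul_eq_one_right h4]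

lemma ev_ne_zero {g h : End ℂ V} (hg : h * g = 1) {z : ℂ} (hz : z ∈ ev g) : z ≠ 0 := by
  rintro rfl
  obtain ⟨v, hv⟩ := (mem_ev.1 hz).exists_hasEigenvector
  have := LinearMap.congr_fun hg v
  rw [Module.End.mul_apply, hv.apply_eq_smul, zero_smul, map_zero] at this
  exact hv.2 this.symm

/-- all eigenvalues have modulus at most `R` -/
def Bd (g : End ℂ V) (R : ℝ) : Prop := ∀ z ∈ ev g, ‖z‖ ≤ R

lemma Bd.tr {g : End ℂ V} {R : ℝ} (h : Bd g R) (n : ℕ) :
    ‖trace ℂ V (g ^ n)‖ ≤ finrank ℂ V * R ^ n := by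
  rw [tr_pow, ← card_ev g]; exact ps_norm_le h n

lemma bd_of {g : End ℂ V} {R K : ℝ} (hR : 0 ≤ R)
    (h : ∀ n, 0 < n → ‖trace ℂ V (g ^ n)‖ ≤ K * R ^ n) : Bd g R :=
  fun _ hz => Fx.eig_le g hR h (mem_ev.1 hz)

lemma Bd.mono {g : End ℂ V} {R S : ℝ} (h : Bd g R) (hRS : R ≤ S) : Bd g S :=
  fun z hz => (h z hz).trans hRS

lemma tr_tprod (g : End ℂ V) (h : End ℂ W) (n : ℕ) :
    trace ℂ _ (TensorProduct.map g h ^ n) = trace ℂ V (g ^ n) * trace ℂ W (h ^ n) := by
  rw [TensorProduct.map_pow, trace_tensorProduct']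

lemma Bd.tprod {g : End ℂ V} {h : End ℂ W} {R S : ℝ} (hR : 0 ≤ R) (hS : 0 ≤ S) (h1 : Bd g R)
    (h2 : Bd h S) : Bd (TensorProduct.map g h) (R * S) :=
  bd_of (K := finrank ℂ V * finrank ℂ W) (mul_nonneg hR hS) fun n _ => by
    rw [tr_tprod, norm_mul, mul_pow]
    calc _ ≤ (finrank ℂ V * R ^ n) * (finrank ℂ W * S ^ n) :=
          mul_le_mul (h1.tr n) (h2.tr n) (norm_nonneg _) (by positivity)
      _ = _ := by ring

lemma Bd.of_sq {g : End ℂ V} {R : ℝ} (hR : 0 ≤ R) (h : Bd (TensorProduct.map g g) (R ^ 2)) :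
    Bd g R :=
  bd_of (K := finrank ℂ V) hR fun n _ => by
    have := h.tr n
    rw [tr_tprod, norm_mul, finrank_tensorProduct] at this
    refine abs_le_of_sq_le_sq' ?_ (by positivity) |>.2
    push_cast at this
    calc _ = ‖trace ℂ V (g ^ n)‖ * ‖trace ℂ V (g ^ n)‖ := by ring
      _ ≤ _ := this
      _ = _ := by ring

lemma ev_conj {g : End ℂ V} (h : ∀ n, 0 < n → (trace ℂ V (g ^ n)).im = 0) :
    (ev g).map (starRingEnd ℂ) = ev g :=
  ps_inj fun n => by
    have h1 : ps ((ev g).map (starRingEnd ℂ)) n = starRingEnd ℂ (ps (ev g) n) := by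
      rw [ps, ps, map_multiset_sum, Multiset.map_map, Multiset.map_map]
      simp only [Function.comp, map_pow]
    rw [h1, Complex.conj_eq_iff_im]
    rcases n.eq_zero_or_pos with rfl | hn
    · rw [ps_zero]; simp
    · rw [← tr_pow]; exact h n hn

end ev

end Pool.Agent.MP_855f4c_ag.E.RK

end

section

namespace Pool.Agent.MP_855f4c_ag.E.RK

open Module LinearMap Polynomial TensorProduct

variable {V W : Type} [AddCommGroup V] [Module ℂ V] [FiniteDimensional ℂ V]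
  [AddCommGroup W] [Module ℂ W] [FiniteDimensional ℂ W]

namespace X

omit [FiniteDimensional ℂ V] [FiniteDimensional ℂ W] in
lemma coe_map (f : V →ₗ[ℂ] W) (j : ℕ) (ω : ⋀[ℂ]^j V) :
    ((exteriorPower.map j f ω : ⋀[ℂ]^j W) : ExteriorAlgebra ℂ W)
      = ExteriorAlgebra.map f (ω : ExteriorAlgebra ℂ V) := by
  have : (⋀[ℂ]^j W).subtype ∘ₗ exteriorPower.map j f
      = (ExteriorAlgebra.map f).toLinearMap ∘ₗ (⋀[ℂ]^j V).subtype := by
    refine exteriorPower.linearMap_ext ?_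
    ext v
    simp
  exact LinearMap.congr_fun this ω

omit [FiniteDimensional ℂ V] in
lemma map_pow (g : End ℂ V) (j k : ℕ) :
    (exteriorPower.map j g : End ℂ (⋀[ℂ]^j V)) ^ k = exteriorPower.map j (g ^ k) := by
  induction k with
  | zero => rw [pow_zero, pow_zero]; exact exteriorPower.map_id.symm
  | succ k ih =>
    rw [pow_succ, pow_succ, ih]
    exact (exteriorPower.map_comp g (g ^ k)).symm

lemma trace_ext (g : End ℂ V) (j : ℕ) :
    trace ℂ _ (exteriorPower.map j g : End ℂ (⋀[ℂ]^j V)) = (ev g).esymm j := by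
  classical
  let b := Module.finBasis ℂ V
  let M := LinearMap.toMatrix b b g
  have h1 : trace ℂ _ (exteriorPower.map j g : End ℂ (⋀[ℂ]^j V))
      = ∑ s ∈ Finset.univ.powersetCard j,
        (M.submatrix (Subtype.val : s → _) (Subtype.val : s → _)).det := by
    rw [trace_eq_matrix_trace ℂ (b.exteriorPower j), Matrix.trace]
    rw [Finset.sum_subtype (p := fun s => s ∈ Set.powersetCard (Fin (finrank ℂ V)) j)
      (Finset.univ.powersetCard j) (by intro s; simp [Finset.mem_powersetCard])]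
    refine Finset.sum_congr rfl fun s _ => ?_
    rw [Matrix.diag_apply, LinearMap.toMatrix_apply, exteriorPower.basis_apply,
      exteriorPower.map_apply_ιMulti_family, exteriorPower.basis_repr_apply,
      exteriorPower.ιMulti_family, exteriorPower.ιMultiDual_apply_ιMulti,
      ← Matrix.det_submatrix_equiv_self (Set.powersetCard.orderIsoOfFin s).toEquiv,
      ← Matrix.det_transpose]
    congr 1
    ext i k
    simp only [M, LinearMap.toMatrix_apply, Matrix.submatrix_apply, Matrix.transpose_apply,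
      Matrix.of_apply, Basis.coord_apply, Function.comp]
    rfl
  rw [h1]
  by_cases hj : j ≤ finrank ℂ V
  · have h2 := Matrix.charpoly_coeff_eq_sum_minors M j (by simpa using hj)
    have h3 : M.charpoly = g.charpoly := LinearMap.charpoly_toMatrix g b
    rw [h3, coeff_eq_esymm_roots_of_splits (IsAlgClosed.splits _)
      (by rw [g.charpoly_natDegree]; simp), g.charpoly_monic.leadingCoeff, one_mul,
      g.charpoly_natDegree, Fintype.card_fin, Nat.sub_sub_self hj] at h2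
    exact (mul_left_cancel₀ (pow_ne_zero j (neg_ne_zero.2 one_ne_zero)) h2).symm
  · rw [Finset.powersetCard_eq_empty.2 (by simpa using hj), Finset.sum_empty, Multiset.esymm,
      Multiset.powersetCard_eq_empty _ (by rw [card_ev]; omega)]
    simp

/-- left multiplication by a vector -/
noncomputable def wedge (V : Type) [AddCommGroup V] [Module ℂ V] (j : ℕ) :
    V →ₗ[ℂ] (⋀[ℂ]^j V) →ₗ[ℂ] ⋀[ℂ]^(j + 1) V :=
  LinearMap.mk₂ ℂ (fun v ω => ⟨ExteriorAlgebra.ι ℂ v * ω, by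
      rw [ExteriorAlgebra.exteriorPower, pow_succ']
      exact Submodule.mul_mem_mul (LinearMap.mem_range_self _ v) ω.2⟩)
    (fun _ _ _ => Subtype.ext (by simp [add_mul]))
    (fun _ _ _ => Subtype.ext (by simp))
    (fun _ _ _ => Subtype.ext (by simp [mul_add]))
    (fun _ _ _ => Subtype.ext (by simp))

omit [FiniteDimensional ℂ V] in
lemma coe_wedge (j : ℕ) (v : V) (ω : ⋀[ℂ]^j V) :
    ((wedge V j v ω : ⋀[ℂ]^(j + 1) V) : ExteriorAlgebra ℂ V) = ExteriorAlgebra.ι ℂ v * ω := rfl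

omit [FiniteDimensional ℂ V] in
lemma wedge_ιMulti (j : ℕ) (v : V) (u : Fin j → V) :
    wedge V j v (exteriorPower.ιMulti ℂ j u) = exteriorPower.ιMulti ℂ (j + 1) (Fin.cons v u) := by
  apply Subtype.ext
  rw [coe_wedge, exteriorPower.ιMulti_apply_coe, exteriorPower.ιMulti_apply_coe,
    ExteriorAlgebra.ιMulti_succ_apply]
  rfl

omit [FiniteDimensional ℂ V] [FiniteDimensional ℂ W] in
lemma map_wedge (f : V →ₗ[ℂ] W) (j : ℕ) (v : V) (ω : ⋀[ℂ]^j V) :
    exteriorPower.map (j + 1) f (wedge V j v ω) = wedge W j (f v) (exteriorPower.map j f ω) := by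
  apply Subtype.ext
  rw [coe_map, coe_wedge, coe_wedge, coe_map, map_mul, ExteriorAlgebra.map_apply_ι]

omit [FiniteDimensional ℂ V] in
lemma ιMulti_ne_zero {j : ℕ} {u : Fin j → V} (hu : LinearIndependent ℂ u) :
    exteriorPower.ιMulti ℂ j u ≠ 0 := by
  have h := (exteriorPower.ιMulti_family_linearIndependent_field j hu).ne_zero
    (Set.powersetCard.ofFinEmbEquiv (OrderIso.refl (Fin j)).toOrderEmbedding)
  rw [exteriorPower.ιMulti_family, Equiv.symm_apply_apply] at h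
  exact h

end X

/-- X1 -/
lemma ev_ext (g : End ℂ V) (j : ℕ) :
    ev (exteriorPower.map j g : End ℂ (⋀[ℂ]^j V)) = ((ev g).powersetCard j).map Multiset.prod :=
  ev_eq fun n => by
    rw [X.map_pow, X.trace_ext, ev_pow, Multiset.esymm, Multiset.powersetCard_map, ps,
      Multiset.map_map, Multiset.map_map]
    refine congrArg _ (Multiset.map_congr rfl fun s _ => ?_)
    simp only [Function.comp]
    rw [Multiset.prod_map_pow, Multiset.map_id']

omit [FiniteDimensional ℂ V] in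
/-- X2 -/
lemma exists_wedge (j : ℕ) : ∃ m : V ⊗[ℂ] (⋀[ℂ]^j V) →ₗ[ℂ] ⋀[ℂ]^(j + 1) V,
    Function.Surjective m ∧ ∀ g : End ℂ V,
      m ∘ₗ TensorProduct.map g (exteriorPower.map j g) = exteriorPower.map (j + 1) g ∘ₗ m := by
  refine ⟨TensorProduct.lift (X.wedge V j), ?_, fun g => ?_⟩
  · rw [← LinearMap.range_eq_top, eq_top_iff, ← exteriorPower.ιMulti_span, Submodule.span_le]
    rintro _ ⟨u, rfl⟩
    refine ⟨u 0 ⊗ₜ exteriorPower.ιMulti ℂ j (Fin.tail u), ?_⟩
    rw [TensorProduct.lift.tmul, X.wedge_ιMulti, Fin.cons_self_tail]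
  · refine TensorProduct.ext' fun v ω => ?_
    simp only [LinearMap.comp_apply, TensorProduct.map_tmul, TensorProduct.lift.tmul, X.map_wedge]

/-- X3: a nonzero `ω` determines a subspace `ann ω`, natural under automorphisms, equal to `S` when
`ω` comes from the top exterior power of `S`. -/
lemma exists_ann (j : ℕ) : ∃ ann : (⋀[ℂ]^j V) → Submodule ℂ V,
    (∀ (g : End ℂ V) (ω : ⋀[ℂ]^j V) (c : ℂ), c ≠ 0 → exteriorPower.map j g ω = c • ω →
      ∀ v ∈ ann ω, g v ∈ ann ω) ∧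
    ∀ (S : Submodule ℂ V), finrank ℂ S = j → ∀ η : ⋀[ℂ]^j S,
      exteriorPower.map j S.subtype η ≠ 0 → ann (exteriorPower.map j S.subtype η) = S := by
  refine ⟨fun ω => LinearMap.ker ((X.wedge V j).flip ω), ?_, ?_⟩
  · intro g ω c hc hω v hv
    rw [LinearMap.mem_ker, LinearMap.flip_apply] at hv ⊢
    have h := X.map_wedge g j v ω
    rw [hv, map_zero, hω, map_smul] at h
    exact (smul_eq_zero.1 h.symm).resolve_left hc
  · intro S hS η hη
    let b : Basis (Fin j) ℂ S := Module.finBasisOfFinrankEq ℂ S hS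
    have h1 : finrank ℂ (⋀[ℂ]^j S) = 1 := by
      rw [exteriorPower.finrank_eq, hS, Nat.choose_self]
    obtain ⟨c, rfl⟩ := (finrank_eq_one_iff_of_nonzero' _
      (X.ιMulti_ne_zero b.linearIndependent)).1 h1 η
    have hc : c ≠ 0 := by rintro rfl; simp at hη
    have hli : LinearIndependent ℂ (S.subtype ∘ b) :=
      b.linearIndependent.map' _ S.ker_subtype
    have hsp : Submodule.span ℂ (Set.range (S.subtype ∘ b)) = S := by
      rw [Set.range_comp, Submodule.span_image, b.span_eq, Submodule.map_subtype_top]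
    ext v
    rw [LinearMap.mem_ker, LinearMap.flip_apply, map_smul, exteriorPower.map_apply_ιMulti,
      map_smul, X.wedge_ιMulti, smul_eq_zero, or_iff_right hc]
    constructor
    · intro h
      by_contra hv
      exact X.ιMulti_ne_zero (linearIndependent_finCons.2 ⟨hli, by rwa [hsp]⟩) h
    · intro hv
      refine AlternatingMap.map_linearDependent _ _ fun h => ?_
      exact (linearIndependent_finCons.1 h).2 (by rwa [hsp])

end Pool.Agent.MP_855f4c_ag.E.RK

end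

section

namespace Pool.Agent.MP_855f4c_ag.E.RK

open Module LinearMap Polynomial TensorProduct

variable {V W : Type} [AddCommGroup V] [Module ℂ V] [FiniteDimensional ℂ V]
  [AddCommGroup W] [Module ℂ W] [FiniteDimensional ℂ W]

open Classical in
/-- the sum of the generalised eigenspaces for eigenvalues with `p` -/
noncomputable def Top (p : ℂ → Prop) (g : End ℂ V) : Submodule ℂ V :=
  LinearMap.ker (aeval g (((ev g).filter p).map fun a => X - C a).prod)

omit [FiniteDimensional ℂ V] [FiniteDimensional ℂ W] in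
lemma aeval_inter {g : End ℂ V} {a : End ℂ W} (i : W →ₗ[ℂ] V) (hi : g ∘ₗ i = i ∘ₗ a) (q : ℂ[X])
    (w : W) : aeval g q (i w) = i (aeval a q w) := by
  induction q using Polynomial.induction_on' with
  | add p q hp hq => simp only [map_add, LinearMap.add_apply, hp, hq]
  | monomial n c =>
    have := LinearMap.congr_fun (Module.End.commute_pow_left_of_commute hi n) w
    simp only [LinearMap.comp_apply] at this
    simp only [aeval_monomial, ← Algebra.smul_def, LinearMap.smul_apply, this, map_smul]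

lemma top_stable (p : ℂ → Prop) (g : End ℂ V) : ∀ v ∈ Top p g, g v ∈ Top p g := by
  intro v hv
  rw [Top, LinearMap.mem_ker] at hv ⊢
  rw [aeval_inter g rfl, hv, map_zero]

lemma cop {M N : Multiset ℂ} (h : ∀ a ∈ M, ∀ b ∈ N, a ≠ b) :
    IsCoprime (M.map fun a => X - C a : Multiset ℂ[X]).prod (N.map fun a => X - C a).prod := by
  induction M using Multiset.induction_on with
  | empty => simpa using isCoprime_one_left
  | cons a M ih =>
    rw [Multiset.map_cons, Multiset.prod_cons]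
    refine IsCoprime.mul_left ?_ (ih fun x hx => h x (Multiset.mem_cons_of_mem hx))
    have ha := h a (Multiset.mem_cons_self _ _)
    clear h ih
    induction N using Multiset.induction_on with
    | empty => simpa using isCoprime_one_right
    | cons b N ihN =>
      rw [Multiset.map_cons, Multiset.prod_cons]
      exact IsCoprime.mul_right
        (isCoprime_X_sub_C_of_isUnit_sub (sub_ne_zero.2 (ha b (Multiset.mem_cons_self _ _))).isUnit)
        (ihN fun x hx => ha x (Multiset.mem_cons_of_mem hx))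

/-- a vector killed by any product of linear factors with `p` lies in `Top p` -/
lemma mem_top_of (p : ℂ → Prop) (g : End ℂ V) (M : Multiset ℂ) (hM : ∀ a ∈ M, p a) (v : V)
    (hv : aeval g (M.map fun a => X - C a : Multiset ℂ[X]).prod v = 0) : v ∈ Top p g := by
  classical
  rw [Top, LinearMap.mem_ker]
  set f : ℂ[X] := (((ev g).filter p).map fun a => X - C a).prod
  set h : ℂ[X] := (((ev g).filter fun a => ¬ p a).map fun a => X - C a).prod
  have hfh : h * f = g.charpoly := by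
    rw [charpoly_eq, mul_comm, ← Multiset.prod_add, ← Multiset.map_add, Multiset.filter_add_not]
  obtain ⟨s, t, hst⟩ := cop (M := M) (N := (ev g).filter fun a => ¬ p a) fun a ha b hb hab =>
    (Multiset.mem_filter.1 hb).2 (hab ▸ hM a ha)
  have h1 : f = (s * f) * (M.map fun a => X - C a).prod + t * g.charpoly := by
    rw [← hfh]; linear_combination (-f) * hst
  have h2 : aeval g f = aeval g ((s * f) * (M.map fun a => X - C a).prod + t * g.charpoly) :=
    congrArg _ h1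
  convert (show aeval g f v = 0 from by
    rw [h2, map_add, map_mul, map_mul (aeval g) t, g.aeval_self_charpoly]
    simp [hv])

lemma top_ev (p : ℂ → Prop) (g : End ℂ V) : ∀ z ∈ ev (g.restrict (top_stable p g)), p z := by
  classical
  intro z hz
  obtain ⟨v, hv⟩ := (mem_ev.1 hz).exists_hasEigenvector
  have h1 : g v.1 = z • v.1 := congrArg Subtype.val hv.apply_eq_smul
  have h2 : v.1 ∈ LinearMap.ker (aeval g (((ev g).filter p).map fun a => X - C a).prod) := v.2
  rw [LinearMap.mem_ker, Module.End.aeval_apply_of_mem_apply_eq_smul h1, smul_eq_zero] at h2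
  rcases h2 with h2 | h2
  · rw [eval_multiset_prod, Multiset.prod_eq_zero_iff] at h2
    simp only [Multiset.map_map, Multiset.mem_map, Function.comp, eval_sub, eval_X, eval_C] at h2
    obtain ⟨a, ha, h3⟩ := h2
    rw [sub_eq_zero.1 h3]
    exact (Multiset.mem_filter.1 ha).2
  · exact absurd (Subtype.ext h2) hv.2

lemma top_sup (p : ℂ → Prop) (g : End ℂ V) (v : V) :
    ∃ a ∈ Top p g, ∃ b ∈ Top (fun z => ¬ p z) g, v = a + b := by
  classical
  set f : ℂ[X] := (((ev g).filter p).map fun a => X - C a).prod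
  set h : ℂ[X] := (((ev g).filter fun a => ¬ p a).map fun a => X - C a).prod
  have hfh : h * f = g.charpoly := by
    rw [charpoly_eq, mul_comm, ← Multiset.prod_add, ← Multiset.map_add, Multiset.filter_add_not]
  obtain ⟨s, t, hst⟩ := cop (M := (ev g).filter p) (N := (ev g).filter fun a => ¬ p a)
    fun a ha b hb hab => (Multiset.mem_filter.1 hb).2 (hab ▸ (Multiset.mem_filter.1 ha).2)
  refine ⟨aeval g (t * h) v,
    mem_top_of p g ((ev g).filter p) (fun a ha => (Multiset.mem_filter.1 ha).2) _ ?_,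
    aeval g (s * f) v, mem_top_of _ g ((ev g).filter fun a => ¬ p a)
      (fun a ha => (Multiset.mem_filter.1 ha).2) _ ?_, ?_⟩
  · rw [← Module.End.mul_apply, ← map_mul, show f * (t * h) = t * g.charpoly by rw [← hfh]; ring,
      map_mul, g.aeval_self_charpoly]
    simp
  · rw [← Module.End.mul_apply, ← map_mul, show h * (s * f) = s * g.charpoly by rw [← hfh]; ring,
      map_mul, g.aeval_self_charpoly]
    simp
  · rw [← LinearMap.add_apply, ← map_add, add_comm, hst]; simp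

open Classical in
/-- T1 -/
lemma ev_top (p : ℂ → Prop) (g : End ℂ V) :
    ev (g.restrict (top_stable p g)) = (ev g).filter p := by
  have hle : ∀ q : ℂ → Prop, ev (g.restrict (top_stable q g)) ≤ (ev g).filter q := fun q =>
    Multiset.le_filter.2 ⟨ev_sub (Top q g).subtype Subtype.val_injective (by ext; rfl), top_ev q g⟩
  refine Multiset.eq_of_le_of_card_le (hle p) ?_
  have h1 := Multiset.card_le_card (hle fun z => ¬ p z)
  have h2 : ((ev g).filter p).card + ((ev g).filter fun z => ¬ p z).card = finrank ℂ V := by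
    rw [← Multiset.card_add, Multiset.filter_add_not, card_ev]
  have h3 : Top p g ⊔ Top (fun z => ¬ p z) g = ⊤ := by
    rw [eq_top_iff]
    intro v _
    obtain ⟨a, ha, b, hb, rfl⟩ := top_sup p g v
    exact Submodule.add_mem_sup ha hb
  have h4 := Submodule.finrank_sup_add_finrank_inf_eq (Top p g) (Top (fun z => ¬ p z) g)
  rw [h3, finrank_top] at h4
  rw [card_ev] at h1 ⊢
  have h5 : ((ev g).filter fun z => ¬ p z).card =
      (@Multiset.filter _ (fun z => ¬ p z) (fun a => propDecidable _) (ev g)).card := by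
    congr
  omega

/-- T2: maximality -/
lemma le_top (p : ℂ → Prop) {g : End ℂ V} {a : End ℂ W} (i : W →ₗ[ℂ] V) (hi : g ∘ₗ i = i ∘ₗ a)
    (ha : ∀ z ∈ ev a, p z) : LinearMap.range i ≤ Top p g := by
  rintro _ ⟨w, rfl⟩
  refine mem_top_of p g (ev a) ha _ ?_
  rw [aeval_inter i hi, ← charpoly_eq, a.aeval_self_charpoly]
  simp

lemma map_top (p : ℂ → Prop) {g : End ℂ V} {a : End ℂ W} (i : W →ₗ[ℂ] V) (hi : g ∘ₗ i = i ∘ₗ a)
    (w : W) (hw : w ∈ Top p a) : i w ∈ Top p g := by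
  classical
  rw [Top, LinearMap.mem_ker] at hw
  refine mem_top_of p g ((ev a).filter p) (fun z hz => (Multiset.mem_filter.1 hz).2) _
    ((aeval_inter i hi _ w).trans ?_)
  rw [hw, map_zero]

/-- T3 -/
lemma top_comap (p : ℂ → Prop) {g : End ℂ V} {a : End ℂ W} (i : W →ₗ[ℂ] V)
    (hinj : Function.Injective i) (hi : g ∘ₗ i = i ∘ₗ a) : Top p a = (Top p g).comap i := by
  classical
  refine le_antisymm (fun w hw => map_top p i hi w hw) fun w hw => ?_
  rw [Submodule.mem_comap, Top, LinearMap.mem_ker, aeval_inter i hi, map_eq_zero_iff _ hinj] at hw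
  exact mem_top_of p a _ (fun z hz => (Multiset.mem_filter.1 hz).2) _ hw

lemma top_inf (p : ℂ → Prop) (g : End ℂ V) (v : V) (h1 : v ∈ Top p g)
    (h2 : v ∈ Top (fun z => ¬ p z) g) : v = 0 := by
  classical
  rw [Top, LinearMap.mem_ker] at h1 h2
  obtain ⟨s, t, hst⟩ := cop (M := @Multiset.filter _ p (fun _ => Classical.propDecidable _) (ev g))
    (N := @Multiset.filter _ (fun z => ¬ p z) (fun _ => Classical.propDecidable _) (ev g))
    fun a ha b hb hab =>
      ((@Multiset.mem_filter _ _ (fun _ => Classical.propDecidable _) _ _).1 hb).2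
        (hab ▸ (Multiset.mem_filter.1 ha).2)
  have := congrArg (fun q : ℂ[X] => aeval g q v) hst
  simp only [map_add, map_mul, LinearMap.add_apply, Module.End.mul_apply, h1, h2, map_zero,
    add_zero, map_one, Module.End.one_apply] at this
  exact this.symm

/-- T4 -/
lemma top_map (p : ℂ → Prop) {g : End ℂ V} {c : End ℂ W} (π : V →ₗ[ℂ] W)
    (hs : Function.Surjective π) (hπ : π ∘ₗ g = c ∘ₗ π) : Top p c = (Top p g).map π := by
  refine le_antisymm (fun w hw => ?_) ?_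
  · obtain ⟨v, rfl⟩ := hs w
    obtain ⟨a, ha, b, hb, rfl⟩ := top_sup p g v
    have h1 := map_top p π hπ.symm a ha
    have h2 : π b ∈ Top p c := by
      have := (Top p c).sub_mem hw h1
      rwa [map_add, add_sub_cancel_left] at this
    rw [map_add, top_inf p c _ h2 (map_top _ π hπ.symm b hb), add_zero]
    exact ⟨a, ha, rfl⟩
  · rintro _ ⟨v, hv, rfl⟩
    exact map_top p π hπ.symm v hv

end Pool.Agent.MP_855f4c_ag.E.RK

end

section

namespace Pool.Agent.MP_855f4c_ag.E.RK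

open Module LinearMap Polynomial TensorProduct

/-- A Weil group with Frobenius elements and a class `T` of complex representations for which the
trace formula holds. -/
structure Sys (G : Type) [Group G] where
  q : ℝ
  P : Subgroup G
  φ : G
  U : ℕ → Type
  fin : ∀ k, Fintype (U k)
  F : ∀ k, U k → G
  T : ∀ (V : Type) [AddCommGroup V] [Module ℂ V] [FiniteDimensional ℂ V],
    Representation ℂ G V → Prop
  hq : 0 < q
  gen : ∀ g : G, ∃ (n : ℤ), ∃ p ∈ P, g = φ ^ n * p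
  mem : ∀ k x, ∃ p ∈ P, F k x = φ ^ k * p
  ne : ∃ k, 0 < k ∧ Nonempty (U k)
  pow : ∀ k m, 0 < k → 0 < m → ∀ x : U k, ∃ y : U (k * m),
    ∀ (V : Type) [AddCommGroup V] [Module ℂ V] [FiniteDimensional ℂ V] (ρ : Representation ℂ G V),
      T V ρ → trace ℂ V (ρ (F (k * m) y)) = trace ℂ V (ρ (F k x) ^ m)
  one : T ℂ (Representation.trivial ℂ G ℂ)
  tprod : ∀ {V W : Type} [AddCommGroup V] [Module ℂ V] [FiniteDimensional ℂ V] [AddCommGroup W]
    [Module ℂ W] [FiniteDimensional ℂ W] {ρ : Representation ℂ G V} {σ : Representation ℂ G W},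
      T V ρ → T W σ → T (V ⊗[ℂ] W) (ρ.tprod σ)
  dual : ∀ {V : Type} [AddCommGroup V] [Module ℂ V] [FiniteDimensional ℂ V]
    {ρ : Representation ℂ G V}, T V ρ → T (Dual ℂ V) ρ.dual
  sub : ∀ {V W : Type} [AddCommGroup V] [Module ℂ V] [FiniteDimensional ℂ V] [AddCommGroup W]
    [Module ℂ W] [FiniteDimensional ℂ W] {ρ : Representation ℂ G V} {σ : Representation ℂ G W}
    (i : W →ₗ[ℂ] V), Function.Injective i → (∀ g, ρ g ∘ₗ i = i ∘ₗ σ g) → T V ρ → T W σ
  quo : ∀ {V W : Type} [AddCommGroup V] [Module ℂ V] [FiniteDimensional ℂ V] [AddCommGroup W]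
    [Module ℂ W] [FiniteDimensional ℂ W] {ρ : Representation ℂ G V} {σ : Representation ℂ G W}
    (π : V →ₗ[ℂ] W), Function.Surjective π → (∀ g, π ∘ₗ ρ g = σ g ∘ₗ π) → T V ρ → T W σ
  tf : ∀ {V : Type} [AddCommGroup V] [Module ℂ V] [FiniteDimensional ℂ V]
    {ρ : Representation ℂ G V}, T V ρ → ∃ A Γ : Multiset ℂ,
      (∀ α ∈ A, ∃ v : V, v ≠ 0 ∧ (∀ p ∈ P, ρ p v = v) ∧ ρ φ v = α • v) ∧
      ∀ k, 0 < k → ∑ x : U k, trace ℂ V (ρ (F k x)) = (q : ℂ) ^ k * ps A k - ps Γ k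

attribute [instance] Sys.fin

variable {G : Type} [Group G] (S : Sys G)
  {V W : Type} [AddCommGroup V] [Module ℂ V] [FiniteDimensional ℂ V]
  [AddCommGroup W] [Module ℂ W] [FiniteDimensional ℂ W]

/-- real traces of the Frobenius elements -/
def Sys.Real (ρ : Representation ℂ G V) : Prop :=
  ∀ k, 0 < k → ∀ x : S.U k, (trace ℂ V (ρ (S.F k x))).im = 0

/-- finitely many weights, and one stable filtration that is the filtration by the moduli of the
eigenvalues for every Frobenius element -/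
def Sys.Fil (ρ : Representation ℂ G V) : Prop :=
  (∃ 𝒜 : Finset ℝ, (∀ a ∈ 𝒜, 0 < a) ∧
    ∀ k, 0 < k → ∀ x : S.U k, ∀ z ∈ ev (ρ (S.F k x)), ∃ a ∈ 𝒜, ‖z‖ = a ^ k) ∧
  ∀ a : ℝ, 0 < a → ∃ N : Submodule ℂ V, (∀ g, N ≤ N.comap (ρ g)) ∧
    ∀ k, 0 < k → ∀ x : S.U k, N = Top (fun z => a ^ k ≤ ‖z‖) (ρ (S.F k x))

variable {S}

lemma prb {C A : Multiset ℂ} {s : ℕ → ℝ} (hs : ∀ n, 1 ≤ n → (s n : ℂ) = ps C n - ps A n)
    (h0 : ∀ n, 1 ≤ n → 0 ≤ s n) {R : ℝ} (hR : 0 ≤ R) (hC : ∀ c ∈ C, ‖c‖ ≤ R) :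
    ∃ K : ℝ, 0 ≤ K ∧ ∀ n, 1 ≤ n → s n ≤ K * R ^ n := by
  classical
  set Z : Finset ℂ := C.toFinset ∪ A.toFinset with hZ
  have hb : ∀ z, C.count z ≠ A.count z → ‖z‖ ≤ R := by
    by_contra! hh
    obtain ⟨z1, h1, h2⟩ := hh
    have hmem : ∀ z, C.count z ≠ A.count z → z ∈ Z := fun z hz => by
      by_contra h
      rw [hZ, Finset.mem_union, not_or, Multiset.mem_toFinset, Multiset.mem_toFinset] at h
      rw [Multiset.count_eq_zero_of_notMem h.1, Multiset.count_eq_zero_of_notMem h.2] at hz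
      exact hz rfl
    obtain ⟨z0, hz0, hmax⟩ := (Z.filter fun z => C.count z ≠ A.count z).exists_max_image (‖·‖)
      ⟨z1, Finset.mem_filter.2 ⟨hmem z1 h1, h1⟩⟩
    have h3 : R < ‖z0‖ := h2.trans_le (hmax z1 (Finset.mem_filter.2 ⟨hmem z1 h1, h1⟩))
    have h4 := NoCancel.pring_multiset C A s hs h0 z0 (norm_pos_iff.1 (hR.trans_lt h3))
      (Finset.mem_filter.1 hz0).2 fun z hz => hmax z (Finset.mem_filter.2 ⟨hmem z hz, hz⟩)
    have h5 := hC _ (Multiset.count_pos.1 ((Nat.zero_le _).trans_lt h4))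
    rw [Complex.norm_real, norm_norm] at h5
    exact absurd h5 (not_le.2 h3)
  refine ⟨∑ z ∈ Z, ‖(C.count z : ℂ) - A.count z‖, by positivity, fun n hn => ?_⟩
  have h1 := hs n hn
  rw [ps_eq_sum C Z (fun z hz => by simp [hZ, hz]), ps_eq_sum A Z (fun z hz => by simp [hZ, hz]),
    ← Finset.sum_sub_distrib] at h1
  calc s n ≤ ‖(s n : ℂ)‖ := by rw [Complex.norm_real]; exact le_abs_self _
    _ ≤ _ := by
      rw [h1, Finset.sum_mul]
      refine (norm_sum_le _ _).trans (Finset.sum_le_sum fun z _ => ?_)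
      rw [← sub_mul, norm_mul, norm_pow]
      by_cases h : C.count z = A.count z
      · simp [h]
      · exact mul_le_mul_of_nonneg_left (pow_le_pow_left₀ (norm_nonneg _) (hb z h) n)
          (norm_nonneg _)

omit [FiniteDimensional ℂ V] in
lemma rep_inv (ρ : Representation ℂ G V) (g : G) : ρ g⁻¹ * ρ g = 1 := by
  rw [← map_mul, inv_mul_cancel, map_one]

omit [FiniteDimensional ℂ V] in
lemma pow_eig {g : End ℂ V} {v : V} {α : ℂ} (h : g v = α • v)
    (k : ℕ) : (g ^ k) v = α ^ k • v := by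
  induction k with
  | zero => simp
  | succ k ih => rw [pow_succ, Module.End.mul_apply, h, map_smul, ih, smul_smul, pow_succ']

/-- an invariant eigenvector is an eigenvector of every Frobenius element -/
lemma inv_eig {ρ : Representation ℂ G V} {v : V} {α : ℂ} (h1 : ∀ p ∈ S.P, ρ p v = v)
    (h2 : ρ S.φ v = α • v) (k : ℕ) (x : S.U k) : ρ (S.F k x) v = α ^ k • v := by
  obtain ⟨p, hp, h⟩ := S.mem k x
  rw [h, map_mul, Module.End.mul_apply, h1 p hp, map_pow]
  exact pow_eig h2 k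

/-- the trace formula with the factor `q` absorbed -/
lemma tf' {ρ : Representation ℂ G V} (hT : S.T V ρ) : ∃ C Γ : Multiset ℂ,
    (∀ c ∈ C, ∃ (α : ℂ) (v : V), c = S.q * α ∧ v ≠ 0 ∧ (∀ p ∈ S.P, ρ p v = v) ∧ ρ S.φ v = α • v) ∧
    ∀ k, 1 ≤ k → ∑ x : S.U k, trace ℂ V (ρ (S.F k x)) = ps C k - ps Γ k := by
  obtain ⟨A, Γ, h1, h2⟩ := S.tf hT
  refine ⟨A.map ((S.q : ℂ) * ·), Γ, fun c hc => ?_, fun k hk => ?_⟩
  · obtain ⟨α, hα, rfl⟩ := Multiset.mem_map.1 hc
    obtain ⟨v, hv⟩ := h1 α hα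
    exact ⟨α, v, rfl, hv⟩
  · rw [h2 k hk, ps, ps, ps, Multiset.map_map, ← Multiset.sum_map_mul_left]
    simp only [Function.comp, mul_pow]

theorem Sys.Fil.sub {ρ : Representation ℂ G V} {σ : Representation ℂ G W} (i : W →ₗ[ℂ] V)
    (hi : Function.Injective i) (h : ∀ g, ρ g ∘ₗ i = i ∘ₗ σ g) (H : S.Fil ρ) : S.Fil σ := by
  obtain ⟨⟨𝒜, h1, h2⟩, h3⟩ := H
  refine ⟨⟨𝒜, h1, fun k hk x z hz => h2 k hk x z (Multiset.mem_of_le (ev_sub i hi (h _)) hz)⟩,
    fun a ha => ?_⟩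
  obtain ⟨N, h4, h5⟩ := h3 a ha
  refine ⟨N.comap i, fun g w hw => ?_, fun k hk x => ?_⟩
  · have := LinearMap.congr_fun (h g) w
    simp only [comp_apply] at this
    simp only [Submodule.mem_comap] at hw ⊢
    rw [← this]; exact h4 g hw
  · rw [top_comap _ i hi (h _), ← h5 k hk x]

theorem Sys.Fil.quo {ρ : Representation ℂ G V} {σ : Representation ℂ G W} (π : V →ₗ[ℂ] W)
    (hπ : Function.Surjective π) (h : ∀ g, π ∘ₗ ρ g = σ g ∘ₗ π) (H : S.Fil ρ) : S.Fil σ := by
  obtain ⟨⟨𝒜, h1, h2⟩, h3⟩ := H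
  refine ⟨⟨𝒜, h1, fun k hk x z hz => h2 k hk x z (Multiset.mem_of_le (ev_quo π hπ (h _)) hz)⟩,
    fun a ha => ?_⟩
  obtain ⟨N, h4, h5⟩ := h3 a ha
  refine ⟨N.map π, ?_, fun k hk x => ?_⟩
  · rintro g _ ⟨v, hv, rfl⟩
    exact ⟨ρ g v, h4 g hv, LinearMap.congr_fun (h g) v⟩
  · rw [top_map _ π hπ (h _), ← h5 k hk x]

lemma mem_ev_of {g : End ℂ V} {v : V} {α : ℂ} (hv : v ≠ 0) (h : g v = α • v) : α ∈ ev g :=
  mem_ev.2 (Module.End.hasEigenvalue_of_hasEigenvector ⟨Module.End.mem_eigenspace_iff.2 h, hv⟩)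

lemma tr_rep_tprod (ρ : Representation ℂ G V) (σ : Representation ℂ G W) (g : G) :
    trace ℂ _ (ρ.tprod σ g) = trace ℂ V (ρ g) * trace ℂ W (σ g) := by
  rw [Representation.tprod_apply, trace_tensorProduct']

lemma Sys.Real.sq {ρ : Representation ℂ G V} (hr : S.Real ρ) : S.Real (ρ.tprod ρ) :=
  fun k hk x => by rw [tr_rep_tprod, Complex.mul_im, hr k hk x]; simp

lemma Sys.Real.pow {ρ : Representation ℂ G V} (hT : S.T V ρ) (hr : S.Real ρ) {k : ℕ} (hk : 0 < k)
    (x : S.U k) (n : ℕ) (hn : 0 < n) : (trace ℂ V (ρ (S.F k x) ^ n)).im = 0 := by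
  obtain ⟨y, hy⟩ := S.pow k n hk hn x
  rw [← hy V ρ hT]; exact hr _ (Nat.mul_pos hk hn) y

/-- the sum of the squares of the traces of a real representation -/
lemma Sys.Real.sum_sq {ρ : Representation ℂ G V} (hr : S.Real ρ) {k : ℕ} (hk : 0 < k) :
    ((∑ x : S.U k, ‖trace ℂ V (ρ (S.F k x))‖ ^ 2 : ℝ) : ℂ) =
      ∑ x : S.U k, trace ℂ _ (ρ.tprod ρ (S.F k x)) := by
  rw [Complex.ofReal_sum]
  refine Finset.sum_congr rfl fun x _ => ?_
  rw [tr_rep_tprod, ← Complex.normSq_eq_norm_sq, Complex.normSq_eq_conj_mul_self,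
    Complex.conj_eq_iff_im.2 (hr k hk x)]

/-- an `L²` bound gives a pointwise bound with the loss of the number of points -/
lemma bd_of_sum {ρ : Representation ℂ G V} (hT : S.T V ρ) {K R : ℝ} (hR : 0 ≤ R)
    (h : ∀ k, 1 ≤ k → ∑ x : S.U k, ‖trace ℂ V (ρ (S.F k x))‖ ^ 2 ≤ K * (R ^ 2) ^ k) {k : ℕ}
    (hk : 0 < k) (x : S.U k) : Bd (ρ (S.F k x)) (R ^ k) :=
  bd_of (K := √K) (by positivity) fun n hn => by
    obtain ⟨y, hy⟩ := S.pow k n hk hn x
    rw [← hy V ρ hT]
    have h1 := (Finset.single_le_sum (f := fun x => ‖trace ℂ V (ρ (S.F (k * n) x))‖ ^ 2)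
      (fun _ _ => by positivity) (Finset.mem_univ y)).trans (h _ (Nat.mul_pos hk hn))
    refine (Real.le_sqrt_of_sq_le h1).trans_eq ?_
    rw [Real.sqrt_mul' _ (by positivity), show (R ^ 2) ^ (k * n) = ((R ^ k) ^ n) ^ 2 by ring,
      Real.sqrt_sq (by positivity)]

/-- Rankin's bound with a constant `c` -/
def Sys.Rad (S : Sys G) (c : ℝ) : Prop :=
  ∀ (V : Type) [AddCommGroup V] [Module ℂ V] [FiniteDimensional ℂ V] (ρ : Representation ℂ G V),
    S.T V ρ → S.Real ρ → ∀ (R : ℝ) (m k : ℕ) (y : S.U m) (x : S.U k), 0 ≤ R → 0 < m → 0 < k →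
      Bd (ρ (S.F m y)) (R ^ m) → Bd (ρ (S.F k x)) ((c * R) ^ k)

lemma rad_base : S.Rad √S.q := by
  intro V _ _ _ ρ hT hr R m k y x hR hm hk h
  obtain ⟨C, Γ, h1, h2⟩ := tf' (S.tprod hT hT)
  have hq := S.hq
  obtain ⟨K, -, hK⟩ := prb (C := C) (A := Γ)
    (s := fun k => ∑ x : S.U k, ‖trace ℂ V (ρ (S.F k x))‖ ^ 2)
    (fun n hn => by rw [hr.sum_sq hn, h2 n hn]) (fun _ _ => by positivity)
    (R := (√S.q * R) ^ 2) (by positivity) fun c hc => by
      obtain ⟨α, v, rfl, hv, h3, h4⟩ := h1 c hc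
      have h5 := (h.tprod (by positivity) (by positivity) h) _ (mem_ev_of hv (inv_eig h3 h4 m y))
      rw [norm_pow, ← mul_pow] at h5
      have h6 := le_of_pow_le_pow_left₀ hm.ne' (by positivity) h5
      rw [norm_mul, Complex.norm_real, Real.norm_of_nonneg hq.le, mul_pow, Real.sq_sqrt hq.le, sq]
      exact mul_le_mul_of_nonneg_left h6 hq.le
  exact bd_of_sum hT (by positivity) hK hk x

lemma rad_step {c : ℝ} (hc : 0 ≤ c) (H : S.Rad c) : S.Rad √c := by
  intro V _ _ _ ρ hT hr R m k y x hR hm hk h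
  refine Bd.of_sq (by positivity) ?_
  have := H _ (ρ.tprod ρ) (S.tprod hT hT) hr.sq (R * R) m k y x (by positivity) hm hk
    (by rw [mul_pow]; exact h.tprod (by positivity) (by positivity) h)
  rw [← pow_mul, mul_comm k 2, pow_mul, mul_pow √c, Real.sq_sqrt hc, sq R]
  exact this

/-- all Frobenius elements have the same normalised spectral radius on a real representation -/
lemma rad {ρ : Representation ℂ G V} (hT : S.T V ρ) (hr : S.Real ρ) {R : ℝ} {m k : ℕ} {y : S.U m}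
    (x : S.U k) (hR : 0 ≤ R) (hm : 0 < m) (hk : 0 < k) (h : Bd (ρ (S.F m y)) (R ^ m)) :
    Bd (ρ (S.F k x)) (R ^ k) := by
  have hq := S.hq
  have H : ∀ j : ℕ, S.Rad (S.q ^ ((1 / 2 : ℝ) ^ (j + 1))) := fun j => by
    induction j with
    | zero => simpa [← Real.sqrt_eq_rpow, Real.sqrt_eq_rpow] using rad_base (S := S)
    | succ j ih =>
      have := rad_step (by positivity) ih
      rwa [Real.sqrt_eq_rpow, ← Real.rpow_mul hq.le, ← pow_succ] at this
  intro z hz
  have h1 : Filter.Tendsto (fun j : ℕ => (S.q ^ ((1 / 2 : ℝ) ^ (j + 1)) * R) ^ k) Filter.atTop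
      (nhds ((S.q ^ (0 : ℝ) * R) ^ k)) :=
    ((((Real.continuous_const_rpow hq.ne').tendsto 0).comp ((Filter.tendsto_add_atTop_iff_nat 1).2
      (tendsto_pow_atTop_nhds_zero_of_lt_one (by norm_num) (by norm_num)))).mul_const R).pow k
  rw [Real.rpow_zero, one_mul] at h1
  exact ge_of_tendsto' h1 fun j => H j V ρ hT hr R m k y x hR hm hk h z hz

lemma num_tf : ∃ C Γ : Multiset ℂ, (∀ c ∈ C, ‖c‖ = S.q) ∧
    ∀ k, 1 ≤ k → ((Fintype.card (S.U k) : ℝ) : ℂ) = ps C k - ps Γ k := by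
  obtain ⟨C, Γ, h1, h2⟩ := tf' S.one
  refine ⟨C, Γ, fun c hc => ?_, fun k hk => ?_⟩
  · obtain ⟨α, v, rfl, hv, -, h4⟩ := h1 c hc
    have : α = 1 := by
      refine (mul_right_cancel₀ hv ?_).symm
      simpa using h4
    simp [this, abs_of_pos S.hq]
  · rw [← h2 k hk]; simp

lemma num_le : ∃ K : ℝ, 0 ≤ K ∧ ∀ k, 1 ≤ k → (Fintype.card (S.U k) : ℝ) ≤ K * S.q ^ k := by
  obtain ⟨C, Γ, h1, h2⟩ := num_tf (S := S)
  exact prb h2 (fun _ _ => by positivity) S.hq.le fun c hc => (h1 c hc).le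

lemma num_ge {K r : ℝ} {n : ℕ} (h0 : 0 < r) (hr : r < S.q)
    (h : ∀ k, n ≤ k → 1 ≤ k → (Fintype.card (S.U k) : ℝ) ≤ K * r ^ k) : False := by
  obtain ⟨C, Γ, h1, h2⟩ := num_tf (S := S)
  obtain ⟨k, hk, ⟨x⟩⟩ := S.ne
  have := NoCancel.nocancel C Γ r
    (|K| + ∑ i ∈ Finset.range n, (Fintype.card (S.U i) : ℝ) / r ^ i) h0.le
    (fun c hc => (h1 c hc).symm ▸ hr) _ h2 (fun _ _ => by positivity) (fun i hi => ?_) k hk
  · exact absurd this (by exact_mod_cast (Fintype.card_pos_iff.2 ⟨x⟩).ne')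
  · have hs : 0 ≤ ∑ i ∈ Finset.range n, (Fintype.card (S.U i) : ℝ) / r ^ i := by positivity
    have hp : 0 < r ^ i := by positivity
    rcases le_or_gt n i with h3 | h3
    · exact (h i h3 hi).trans (mul_le_mul_of_nonneg_right (by linarith [le_abs_self K]) hp.le)
    · rw [← div_le_iff₀ hp]
      have := Finset.single_le_sum (f := fun i => (Fintype.card (S.U i) : ℝ) / r ^ i)
        (fun _ _ => by positivity) (Finset.mem_range.2 h3)
      linarith [abs_nonneg K]

end Pool.Agent.MP_855f4c_ag.E.RK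

end

section

namespace Pool.Agent.MP_855f4c_ag.E.TFC

open Pool.Agent.MP_855f4c_ag.Fx Matrix

variable {P : Type} [Group P] {A : Adm P} {l : ℕ} {G : Type} [Group G] {ι : P →* G}

/-- The part of `Fx.Ctx` that does not mention a Frobenius. -/
structure Ctx0 (A : Adm P) (l : ℕ) : Prop where
  free : ∀ N, A.Lev l N → ∀ n m : ℕ, 0 < m → n = l ^ m →
    Module.Free (ZMod n) (A.Hm N (ZMod n)) ∧ Module.Finite (ZMod n) (A.Hm N (ZMod n))
  tr0 : ∀ N, A.Lev l N → ∀ n m : ℕ, 0 < m → n = l ^ m → ∀ h : P, h ∉ N →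
    ∀ T, A.IsAct N (ZMod n) id h T → LinearMap.trace (ZMod n) _ T = 1

/-- `N` is stable under conjugation by `G`. -/
def Nrm (ι : P →* G) (N : Subgroup P) : Prop :=
  ∀ (g : G) (a b : P), g * ι b = ι a * g → a ∈ N → b ∈ N

/-- `Ctx0` on the levels that are stable under conjugation by `G`. -/
structure Ctx1 (A : Adm P) (l : ℕ) (ι : P →* G) : Prop where
  free : ∀ N, A.Lev l N → Nrm ι N → ∀ n m : ℕ, 0 < m → n = l ^ m →
    Module.Free (ZMod n) (A.Hm N (ZMod n)) ∧ Module.Finite (ZMod n) (A.Hm N (ZMod n))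
  tr0 : ∀ N, A.Lev l N → Nrm ι N → ∀ n m : ℕ, 0 < m → n = l ^ m → ∀ h : P, h ∉ N →
    ∀ T, A.IsAct N (ZMod n) id h T → LinearMap.trace (ZMod n) _ T = 1

lemma Ctx0.one (H : Ctx0 A l) (ι : P →* G) : Ctx1 A l ι :=
  ⟨fun N h _ => H.free N h, fun N h _ => H.tr0 N h⟩

lemma nrm_top (ι : P →* G) : Nrm ι ⊤ := fun _ _ _ _ _ => trivial

/-- The trace formula with constant coefficients on all levels, for one Frobenius. -/
structure TrF (A : Adm P) (l Q : ℕ) (ι : P →* G) (β : P →* P) {U : Type} [Fintype U]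
    (f : U → P) : Prop where
  comap : ∀ M, A.adm M → A.adm (M.comap β)
  tr : ∀ N, A.Lev l N → Nrm ι N → ∀ n m : ℕ, 0 < m → n = l ^ m →
    ∀ (h : P) T, A.IsAct N (ZMod n) β h T →
      (Q : ZMod n) * LinearMap.trace (ZMod n) _ T = Q - ∑ x : U, (cnt N β h (f x) : ZMod n)

section
variable {q : ℕ} {α : P →* P} {u : P} {U : ℕ → Type} [∀ k, Fintype (U k)] {f : ∀ k, U k → P}

lemma ctx0 (H : Ctx A l q α u U f) : Ctx0 A l := ⟨H.free, H.tr0⟩

lemma trF (H : Ctx A l q α u U f) {φ : G} (hα : ∀ g, φ * ι (α g) = ι g * φ) {k : ℕ}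
    (hk : 0 < k) : TrF A l (q ^ k) ι (itr α k) (f k) :=
  ⟨itr_comap H k, fun N hN hs n m hm hn h T hT => by
    rw [Nat.cast_pow, itr_coe]
    exact H.tr N hN (fun a ha => hs φ a _ (hα a) ha) n m hm hn k hk h T (itr_coe α k ▸ hT)⟩

end

variable [Fact l.Prime]

lemma rank_indep (H : Ctx1 A l ι) {N : Subgroup P} (hN : A.Lev l N) (hn : Nrm ι N) {m : ℕ}
    (hm : 0 < m) :
    Module.finrank (ZMod (l ^ m)) (A.Hm N (ZMod (l ^ m))) =
      Module.finrank (ZMod l) (A.Hm N (ZMod l)) := by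
  have hl : l.Prime := Fact.out
  obtain ⟨h1, h2⟩ := H.free N hN hn _ m hm rfl
  obtain ⟨_, h4⟩ := H.free N hN hn l 1 one_pos (pow_one l).symm
  have := zmod_nontriv (l := l) hm
  have : NeZero (l ^ m) := ⟨(pow_pos hl.pos m).ne'⟩
  let T : AddSubgroup (ZMod (l ^ m)) := (nsmulAddMonoidHom l).ker
  have hT : Nat.card T = l := by
    rw [IsAddCyclic.card_nsmulAddMonoidHom_ker, Nat.card_zmod]
    exact Nat.gcd_eq_right (dvd_pow_self l hm.ne')
  let e : ZMod l ≃+ T := addEquivOfPrimeCardEq (Nat.card_zmod l) hT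
  have hmem : ∀ x : ZMod (l ^ m), x ∈ T ↔ l • x = 0 := fun x => Iff.rfl
  let e1 : A.Hm N (ZMod l) ≃ {χ : A.Hm N (ZMod (l ^ m)) // ∀ a, χ.1 a ∈ T} :=
    { toFun := fun χ => ⟨⟨fun a => e (χ.1 a), fun a b => by
          beta_reduce; rw [χ.2.1, map_add]; rfl, by
        obtain ⟨M, hM, h⟩ := χ.2.2
        exact ⟨M, hM, fun a ha => by simp only [h a ha, map_zero]; rfl⟩⟩, fun a => (e (χ.1 a)).2⟩
      invFun := fun χ => ⟨fun a => e.symm ⟨χ.1.1 a, χ.2 a⟩, fun a b => by
        beta_reduce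
        rw [← map_add]; exact congrArg e.symm (Subtype.ext (χ.1.2.1 a b)), by
        obtain ⟨M, hM, h⟩ := χ.1.2.2
        refine ⟨M, hM, fun a ha => ?_⟩
        beta_reduce
        rw [← map_zero e.symm]; exact congrArg e.symm (Subtype.ext (h a ha))⟩
      left_inv := fun χ => by ext a; simp
      right_inv := fun χ => by ext a; simp }
  let b := (Module.finBasis (ZMod (l ^ m)) (A.Hm N (ZMod (l ^ m)))).equivFun
  let e2 : {χ : A.Hm N (ZMod (l ^ m)) // ∀ a, χ.1 a ∈ T} ≃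
      {x : Fin (Module.finrank (ZMod (l ^ m)) (A.Hm N (ZMod (l ^ m)))) → ZMod (l ^ m) //
        ∀ i, x i ∈ T} := b.toEquiv.subtypeEquiv fun χ => by
    have h5 : (∀ a, χ.1 a ∈ T) ↔ l • χ = 0 := by
      simp only [hmem]
      exact ⟨fun h => Subtype.ext (funext h), fun h a => congr_fun (congrArg Subtype.val h) a⟩
    rw [h5, ← b.map_eq_zero_iff, map_nsmul]
    exact ⟨fun h i => congr_fun h i, fun h => funext h⟩
  have h6 := Nat.card_congr ((e1.trans e2).trans Equiv.subtypePiEquivPi)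
  rw [Module.natCard_eq_pow_finrank (K := ZMod l), Nat.card_zmod, Nat.card_pi] at h6
  simp only [Finset.prod_const, Finset.card_univ, Fintype.card_fin] at h6
  rw [show Nat.card {x // x ∈ T} = l from hT] at h6
  exact (Nat.pow_right_injective hl.two_le h6).symm

lemma rank_formula (H : Ctx1 A l ι) {N : Subgroup P} (hN : A.Lev l N) (hn : Nrm ι N)
    [Fintype (P ⧸ N)] :
    Module.finrank (ZMod l) (A.Hm N (ZMod l)) + Fintype.card (P ⧸ N) =
      Fintype.card (P ⧸ N) * Module.finrank (ZMod l) (A.Hm ⊤ (ZMod l)) + 1 := by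
  classical
  refine nat_eq_of_zmod (Fact.out : l.Prime).one_lt fun m hm => ?_
  obtain ⟨h1, h2⟩ := H.free N hN hn _ m hm rfl
  obtain ⟨h3, h4⟩ := H.free ⊤ (lev_top A l) (nrm_top ι) _ m hm rfl
  have := zmod_nontriv (l := l) hm
  have h5 := LinearMap.trace_comp_comm' (Fx.res A N (ZMod (l ^ m))) (cor hN.normal hN.adm)
  rw [cor_res, res_cor, map_smul, LinearMap.trace_id, map_sum,
    rank_indep H (lev_top A l) (nrm_top ι) hm,
    ← Finset.add_sum_erase _ _ (Finset.mem_univ ((1 : P) : P ⧸ N)), act_of_mem hN.normal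
      (by have := QuotientGroup.eq.1 (QuotientGroup.out_eq' ((1 : P) : P ⧸ N)).symm
          simpa using this), LinearMap.trace_id, rank_indep H hN hn hm,
    Finset.sum_congr rfl fun y hy => H.tr0 N hN hn _ m hm rfl y.out (fun h => by
      apply (Finset.mem_erase.1 hy).1
      rw [← QuotientGroup.out_eq' y, QuotientGroup.eq]; simpa using h) _
      (act_isAct hN.normal (MonoidHom.id P) _ _ y.out)] at h5
  rw [Finset.sum_const, Finset.card_erase_of_mem (Finset.mem_univ _), Finset.card_univ,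
    nsmul_eq_mul, mul_one, Nat.cast_sub Fintype.card_pos, smul_eq_mul] at h5
  push_cast at h5 ⊢
  linear_combination -h5

lemma exists_gen1 (H : Ctx1 A l ι) : ∃ b : Set P, b.Finite ∧
    Nat.card b = Module.finrank (ZMod l) (A.Hm ⊤ (ZMod l)) ∧ Gen A l (fun g : b => (g : P)) := by
  obtain ⟨_, h4⟩ := H.free ⊤ (lev_top A l) (nrm_top ι) l 1 one_pos (pow_one l).symm
  let v : P → Module.Dual (ZMod l) (A.Hm ⊤ (ZMod l)) := fun g =>
    LinearMap.proj (⟨g, trivial⟩ : (⊤ : Subgroup P)) ∘ₗ (A.Hm ⊤ (ZMod l)).subtype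
  have hv : ∀ χ, (∀ g, v g χ = 0) → χ = 0 := fun χ hχ => Subtype.ext (funext fun a => hχ a)
  obtain ⟨b, h1, h3, h5⟩ : ∃ b : Set P, b.Finite ∧
      Nat.card b = Module.finrank (ZMod l) (A.Hm ⊤ (ZMod l)) ∧
      ∀ χ, (∀ g ∈ b, v g χ = 0) → χ = 0 := by
    by_cases hu : ∃ u, v u ≠ 0
    · obtain ⟨u, hu⟩ := hu
      obtain ⟨b, h1, -, h3, h5⟩ := exists_gens v hv u hu
      exact ⟨b, h1, h3, h5⟩
    · push Not at hu
      have h0 : ∀ χ : A.Hm ⊤ (ZMod l), χ = 0 := fun χ => hv χ fun g => by rw [hu g]; rfl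
      have : Subsingleton (A.Hm ⊤ (ZMod l)) := ⟨fun a b => by rw [h0 a, h0 b]⟩
      exact ⟨∅, Set.finite_empty, by simp [Module.finrank_zero_of_subsingleton],
        fun χ _ => h0 χ⟩
  refine ⟨b, h1, h3, fun K hK hγ => ?_⟩
  by_contra hne
  have := A.fin hK.adm
  have hp : IsPGroup l (P ⧸ K.normalCore) := fun y => by
    obtain ⟨g, rfl⟩ := QuotientGroup.mk_surjective y
    obtain ⟨a, ha⟩ := hK.pow g
    exact ⟨a, by rw [← QuotientGroup.mk_pow, QuotientGroup.eq_one_iff]; exact ha⟩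
  obtain ⟨χ, hχ1, hχ2⟩ := pgroup_char hp (K.map (QuotientGroup.mk' _)) (fun h => hne (by
    have h6 := congrArg (Subgroup.comap (QuotientGroup.mk' K.normalCore)) h
    rwa [Subgroup.comap_map_eq, QuotientGroup.ker_mk', Subgroup.comap_top,
      sup_eq_left.2 K.normalCore_le] at h6))
  let ψ : A.Hm ⊤ (ZMod l) := ⟨fun g => (χ ((g : P) : P ⧸ K.normalCore)).toAdd, fun a b => by
    simp, K.normalCore, hK.adm, fun a ha => by
    beta_reduce
    rw [(QuotientGroup.eq_one_iff _).2 ha, map_one, toAdd_one]⟩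
  have h7 := h5 ψ fun g hg => by
    show (χ (g : P ⧸ K.normalCore)).toAdd = 0
    rw [hχ2 (g : P ⧸ K.normalCore) ⟨g, hγ ⟨g, hg⟩, rfl⟩, toAdd_one]
  apply hχ1
  ext g
  exact congr_fun (congrArg Subtype.val h7) ⟨g, trivial⟩

lemma exists_gen (H : Ctx0 A l) : ∃ b : Set P, b.Finite ∧
    Nat.card b = Module.finrank (ZMod l) (A.Hm ⊤ (ZMod l)) ∧ Gen A l (fun g : b => (g : P)) :=
  exists_gen1 (H.one (MonoidHom.id P))

lemma ev_surj (H : Ctx1 A l ι) {N : Subgroup P} (hN : A.Lev l N) (hn : Nrm ι N) [Fintype (P ⧸ N)]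
    {I : Type} [Fintype I] {γ : I → P} (hγ : Gen A l γ)
    (hI : Fintype.card I = Module.finrank (ZMod l) (A.Hm ⊤ (ZMod l))) {m : ℕ} (hm : 0 < m) :
    Function.Surjective (ev A N (ZMod (l ^ m)) γ) := by
  have hl : l.Prime := Fact.out
  obtain ⟨h1, h2⟩ := H.free N hN hn _ m hm rfl
  have := zmod_nontriv (l := l) hm
  have : NeZero (l ^ m) := ⟨(pow_pos hl.pos m).ne'⟩
  have h3 := card_ses _ _ (yi_inj (A := A) (N := N) (R := ZMod (l ^ m))) yi_exact
  rw [LinearMap.range_eq_top.2 yp_surj, card_ses _ _ yc_inj (yc_exact hN hγ),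
    Nat.card_congr Submodule.topEquiv.toEquiv, card_free (l ^ m) (A.Hm N _), rank_indep H hN hn hm,
    Nat.card_fun, Nat.card_zmod, Nat.card_eq_fintype_card (α := P ⧸ N), ← pow_add, add_comm,
    rank_formula H hN hn, pow_succ'] at h3
  have h4 := Nat.eq_of_mul_eq_mul_left (pow_pos hl.pos m) h3
  rw [← LinearMap.range_eq_top, ← Submodule.toAddSubgroup_inj, Submodule.top_toAddSubgroup]
  refine AddSubgroup.eq_top_of_card_eq _ ?_
  rw [Nat.card_fun, Nat.card_zmod, Nat.card_eq_fintype_card (α := I × _), Fintype.card_prod, hI,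
    mul_comm]
  exact h4

lemma fox_level (H : Ctx1 A l ι) {N : Subgroup P} (hN : A.Lev l N) (hn : Nrm ι N) [Fintype (P ⧸ N)]
    {I : Type} [Fintype I] [DecidableEq I] [DecidableEq (P ⧸ N)] {γ : I → P} (hγ : Gen A l γ)
    (hI : Fintype.card I = Module.finrank (ZMod l) (A.Hm ⊤ (ZMod l))) {m : ℕ} (hm : 0 < m) :
    ∃ c : I → A.Y N (ZMod (l ^ m)),
      (∀ i j x, dd (c j) (γ i) x = if i = j ∧ (x : P ⧸ N) = (1 : P) then 1 else 0) ∧
      ∀ (β : P →* P) (hβ : ∀ a ∈ N, β a ∈ N) (hc : ∀ M, A.adm M → A.adm (M.comap β)) (h : P),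
        1 + ∑ y : P ⧸ N, ∑ i, dd (c i) (β (γ i)) (β y.out * h * y.out⁻¹) =
          (cnt N β 1 h : ZMod (l ^ m)) +
            LinearMap.trace _ _ (act (R := ZMod (l ^ m)) hN.normal β hβ hc h) := by
  obtain ⟨h1, h2⟩ := H.free N hN hn _ m hm rfl
  have := zmod_nontriv (l := l) hm
  choose c hc using fun j => ev_surj H hN hn hγ hI hm (Pi.single (j, ((1 : P) : P ⧸ N)) 1)
  have hd : ∀ i j x, dd (c j) (γ i) x = if i = j ∧ (x : P ⧸ N) = (1 : P) then 1 else 0 := by
    intro i j x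
    rw [dd_congr _ _ (QuotientGroup.out_eq' (x : P ⧸ N)).symm]
    have := congr_fun (hc j) (i, x)
    simpa only [ev, LinearMap.coe_mk, AddHom.coe_mk, Pi.single_apply, Prod.mk.injEq] using this
  refine ⟨c, hd, fun β hβ hcm h => ?_⟩
  let c' : I × (P ⧸ N) → A.Y N (ZMod (l ^ m)) := fun t =>
    yT hN.normal (MonoidHom.id P) (fun _ h => h) (fun M h => by simpa using h) t.2.out⁻¹ (c t.1)
  let s := (Pi.basisFun (ZMod (l ^ m)) (I × (P ⧸ N))).constr (ZMod (l ^ m)) c'
  have hs : ∀ t, s (Pi.single t 1) = c' t := fun t => by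
    rw [← Pi.basisFun_apply]; exact Module.Basis.constr_basis _ _ _ t
  rw [← trace_yT, trace_split (yc A N _) (ev A N _ γ) s yc_inj (yc_exact hN hγ) ?_ LinearMap.id
    _ (by ext; rfl), LinearMap.trace_id, Module.finrank_self, Nat.cast_one, trace_pi,
    Fintype.sum_prod_type, Finset.sum_comm]
  · congr 1
    refine Finset.sum_congr rfl fun i _ => Finset.sum_congr rfl fun y _ => ?_
    rw [LinearMap.comp_apply, LinearMap.comp_apply, hs]
    show _ = (c i).1 (β ((γ i)⁻¹ * y.out) * h * y.out⁻¹) - (c i).1 (β y.out * h * y.out⁻¹)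
    simp only [dd, map_mul, map_inv, mul_assoc]
  · refine (Pi.basisFun _ _).ext fun t => funext fun t' => ?_
    rw [Pi.basisFun_apply, LinearMap.comp_apply, hs, LinearMap.id_apply, Pi.single_apply]
    have h3 := hd t'.1 t.1 (t'.2.out * t.2.out⁻¹)
    have h4 : ((t'.2.out * t.2.out⁻¹ : P) : P ⧸ N) = (1 : P) ↔ t'.2 = t.2 := by
      have := hN.normal
      rw [QuotientGroup.mk_mul, QuotientGroup.mk_inv, QuotientGroup.out_eq', QuotientGroup.out_eq',
        QuotientGroup.mk_one, mul_inv_eq_one]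
    simp only [h4, ← Prod.ext_iff] at h3
    rw [← h3]
    show (c t.1).1 ((γ t'.1)⁻¹ * t'.2.out * t.2.out⁻¹) - (c t.1).1 (t'.2.out * t.2.out⁻¹) = _
    simp only [dd, mul_assoc]

omit [Fact l.Prime] in
lemma level_trace {q : ℕ} {α : P →* P} {U : Type} [Fintype U] {f : U → P}
    (H : TrF A l q ι α f) {N : Subgroup P} (hN : A.Lev l N) [Fintype (P ⧸ N)] (hn : Nrm ι N)
    (hs : ∀ a ∈ N, α a ∈ N) {m : ℕ} (hm : 0 < m) (a τ : P → ZMod (l ^ m))
    (ha : ∀ x x' : P, (x : P ⧸ N) = x' → a x = a x')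
    (hτ : ∀ x x' : P, (x : P ⧸ N) = x' → τ x = τ x')
    (hτ' : ∀ x y, τ (α y * x * y⁻¹) = τ x)
    (h : ∀ h : P, 1 + ∑ y : P ⧸ N, a (α y.out * h * y.out⁻¹) =
      (cnt N α 1 h : ZMod (l ^ m)) + LinearMap.trace _ _
        (act (R := ZMod (l ^ m)) hN.normal α hs H.comap h)) :
    (Fintype.card (P ⧸ N) : ZMod (l ^ m)) * (q * ∑ x : P ⧸ N, τ x.out * a x.out -
      (q * τ 1 - ∑ x : U, τ (f x))) = 0 := by
  classical
  have := hN.normal
  let β : P ⧸ N → P ⧸ N := fun y => (α y.out : P)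
  have hmk : ∀ x y : P ⧸ N, ((α y.out * x.out * y.out⁻¹ : P) : P ⧸ N) = β y * x * y⁻¹ := by
    intro x y
    rw [QuotientGroup.mk_mul, QuotientGroup.mk_mul, QuotientGroup.mk_inv, QuotientGroup.out_eq',
      QuotientGroup.out_eq']
  have hτ2 : ∀ x y : P ⧸ N, τ (β y * x * y⁻¹).out = τ x.out := fun x y => by
    rw [← hτ' x.out y.out]
    exact hτ _ _ (by rw [QuotientGroup.out_eq', hmk])
  have h1 : ∀ x : P ⧸ N, (q : ZMod (l ^ m)) * ∑ y, a (β y * x * y⁻¹).out =
      q * ∑ y, (if β y * x * y⁻¹ = 1 then 1 else 0) -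
        ∑ t : U, ∑ y, if β y * (f t : P) * y⁻¹ = x then 1 else 0 := by
    intro x
    have h2 := H.tr N hN hn _ m hm rfl x.out _ (act_isAct hN.normal α hs H.comap x.out)
    have h3 := h x.out
    rw [cnt_eq, QuotientGroup.out_eq', QuotientGroup.mk_one] at h3
    simp only [cnt_eq, QuotientGroup.out_eq'] at h2
    rw [Finset.sum_congr rfl fun y _ => ha _ (β y * x * y⁻¹).out
      (by rw [QuotientGroup.out_eq', hmk])] at h3
    linear_combination (q : ZMod (l ^ m)) * h3 + h2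
  have h4 := cls β (fun x => τ x.out) (fun x => a x.out) hτ2
  have h5 := cls β (fun x => τ x.out) (fun x => if x = 1 then 1 else 0) hτ2
  have h6 : ∑ x : P ⧸ N, τ x.out * ∑ t : U, ∑ y, (if β y * (f t : P) * y⁻¹ = x then 1 else 0) =
      Fintype.card (P ⧸ N) * ∑ t : U, τ (f t) := by
    simp only [Finset.mul_sum]
    rw [Finset.sum_comm]
    refine Finset.sum_congr rfl fun t _ => ?_
    rw [Finset.sum_comm]
    simp only [mul_ite, mul_one, mul_zero, Finset.sum_ite_eq, Finset.mem_univ, if_true, hτ2,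
      Finset.sum_const, Finset.card_univ, nsmul_eq_mul]
    rw [hτ _ (f t) (QuotientGroup.out_eq' _)]
  simp only [mul_ite, mul_one, mul_zero, Finset.sum_ite_eq', Finset.mem_univ, if_true] at h5
  rw [hτ (1 : P ⧸ N).out 1 (QuotientGroup.out_eq' _)] at h5
  have h7 : (q : ZMod (l ^ m)) * ∑ x : P ⧸ N, τ x.out * ∑ y, a (β y * x * y⁻¹).out =
      q * ∑ x : P ⧸ N, τ x.out * ∑ y, (if β y * x * y⁻¹ = 1 then 1 else 0) -
        ∑ x : P ⧸ N, τ x.out * ∑ t : U, ∑ y, if β y * (f t : P) * y⁻¹ = x then 1 else 0 := by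
    rw [Finset.mul_sum, Finset.mul_sum, ← Finset.sum_sub_distrib]
    refine Finset.sum_congr rfl fun x _ => ?_
    linear_combination τ x.out * h1 x
  rw [h4, h5, h6] at h7
  linear_combination h7

variable {I : Type} [Fintype I] [DecidableEq I] {γ : I → P} {d : Type} [Fintype d] [DecidableEq d]

/-- Finite level: the Fox identity for every class functional. -/
lemma fox_fin (H : Ctx1 A l ι) (hγ : Gen A l γ)
    (hI : Fintype.card I = Module.finrank (ZMod l) (A.Hm ⊤ (ZMod l)))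
    (n : ℕ) (ρ : G →* Matrix d d (ZMod (l ^ n)))
    (hN : A.Lev l (ρ.comp ι).ker) : ∃ E : I → P → Matrix d d (ZMod (l ^ n)),
      (∀ j g g', E j (g * g') = E j g + ρ (ι g) * E j g') ∧
      (∀ i j, E j (γ i) = if i = j then 1 else 0) ∧ (∀ j, ∃ M, A.adm M ∧ ∀ g ∈ M, E j g = 0) ∧
      (∀ T : Matrix d d (ZMod (l ^ n)), (∀ g, (T * ρ (ι g)).trace = 0) →
        ∀ j g, (T * E j g).trace = 0) ∧
      ∀ T : Matrix d d (ZMod (l ^ n)), (∀ g h, (T * ρ (g * h)).trace = (T * ρ (h * g)).trace) →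
        ∀ (ψ : G) (β : P →* P) (Q : ℕ) (U : Type) [Fintype U] (f : U → P),
        (∀ g, ψ * ι (β g) = ι g * ψ) → TrF A l Q ι β f →
        (Q : ZMod (l ^ n)) * ∑ i, (T * (ρ ψ * E i (β (γ i)))).trace =
        Q * (T * ρ ψ).trace - ∑ x : U, (T * ρ (ψ * ι (f x))).trace := by
  classical
  set N := (ρ.comp ι).ker with hNd
  have hl : l.Prime := Fact.out
  have := A.fin hN.adm
  have := hN.normal
  have : Fintype (P ⧸ N) := Fintype.ofFinite _
  have : NeZero (l ^ n) := ⟨(pow_pos hl.pos n).ne'⟩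
  have hmem : ∀ g, g ∈ N ↔ ρ (ι g) = 1 := fun g => Iff.rfl
  have hcg : ∀ x x' : P, (x : P ⧸ N) = x' → ρ (ι x) = ρ (ι x') := fun x x' h => by
    rw [← mul_inv_cancel_left x x', map_mul ι x, map_mul, (hmem _).1 (QuotientGroup.eq.1 h),
      mul_one]
  have hs : Nrm ι N := fun g a b hab ha => by
    rw [hmem, ← inv_mul_cancel_left g (ι b), hab, map_mul, map_mul, (hmem a).1 ha, one_mul,
      ← map_mul, inv_mul_cancel, map_one]
  have hp : IsPGroup l (P ⧸ N) := fun y => by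
    obtain ⟨g, rfl⟩ := QuotientGroup.mk_surjective y
    obtain ⟨a, ha⟩ := hN.pow g
    exact ⟨a, by rw [← QuotientGroup.mk_pow, QuotientGroup.eq_one_iff]; exact ha⟩
  obtain ⟨v, hv⟩ := hp.exists_card_eq
  have hm : 0 < n + v + 1 := Nat.succ_pos _
  have hd : l ^ n ∣ l ^ (n + v + 1) := pow_dvd_pow l (by omega)
  obtain ⟨c, hc1, hc2⟩ := fox_level H hN hs hγ hI hm
  let κ := ZMod.castHom hd (ZMod (l ^ n))
  refine ⟨fun j g => ∑ y : P ⧸ N, κ (dd (c j) g y.out) • ρ (ι y.out), fun j g g' => ?_,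
    fun i j => ?_, fun j => ?_, fun T hT j g => ?_, fun T hT ψ β Q U _ f hψ hF => ?_⟩
  · simp only [dd_mul, map_add, add_smul, Finset.sum_add_distrib, Finset.mul_sum]
    congr 1
    rw [← Equiv.sum_comp (MulAction.toPerm g)]
    refine Finset.sum_congr rfl fun y _ => ?_
    have h1 : ((g • y).out : P ⧸ N) = (g * y.out : P) := QuotientGroup.eq.2 (out_smul_mem g y)
    rw [MulAction.toPerm_apply, hcg _ _ h1, map_mul, map_mul, Matrix.mul_smul,
      dd_congr (c j) g' (x' := y.out)]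
    rw [QuotientGroup.mk_mul, h1, ← QuotientGroup.mk_mul, inv_mul_cancel_left]
  · simp only [hc1, QuotientGroup.out_eq']
    by_cases hij : i = j
    · simp only [hij, true_and, apply_ite κ, map_one, map_zero, ite_smul, one_smul, zero_smul,
        if_true]
      rw [Finset.sum_eq_single ((1 : P) : P ⧸ N) (fun y _ hy => if_neg hy) (by simp), if_pos rfl,
        hcg _ 1 (QuotientGroup.out_eq' _), map_one, map_one]
    · simp [hij]
  · obtain ⟨M, h1, h2⟩ := dd_adm hN.adm (c j)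
    exact ⟨M, h1, fun g hg => by simp [h2 g hg]⟩
  · simp only [Finset.mul_sum, Matrix.mul_smul, Matrix.trace_sum, Matrix.trace_smul, hT, smul_zero,
      Finset.sum_const_zero]
  · let τ : P → ZMod (l ^ n) := fun h => (T * ρ (ψ * ι h)).trace
    have hκ : ∀ x : ZMod (l ^ n), κ (x.val : ZMod (l ^ (n + v + 1))) = x := fun x => by
      rw [map_natCast, ZMod.natCast_zmod_val]
    have h1 := level_trace hF hN hs (fun a => hs ψ a _ (hψ a)) hm
      (fun x => ∑ i, dd (c i) (β (γ i)) x)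
      (fun h => ((τ h).val : ZMod (l ^ (n + v + 1))))
      (fun x x' h => Finset.sum_congr rfl fun i _ => dd_congr _ _ h)
      (fun x x' h => by simp only [τ, map_mul, hcg x x' h])
      (fun x y => by
        congr 2
        show (T * ρ (ψ * ι (β y * x * y⁻¹))).trace = (T * ρ (ψ * ι x)).trace
        rw [map_mul ι, map_mul ι, ← mul_assoc ψ, ← mul_assoc ψ, hψ, hT,
          map_inv, mul_assoc (ι y), inv_mul_cancel_left])
      (hc2 _ _ _)
    rw [← Nat.card_eq_fintype_card, hv] at h1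
    have h2 := cast_eq_zero_of_mul hl.pos (by omega) hd _ h1
    simp only [map_sub, map_mul, map_natCast κ Q, map_sum, hκ, κ] at h2
    simp only [τ, map_one, mul_one] at h2
    rw [← sub_eq_zero.1 h2]
    congr 1
    simp only [Finset.mul_sum, Matrix.mul_smul, Matrix.trace_sum, Matrix.trace_smul, smul_eq_mul,
      map_mul]
    rw [Finset.sum_comm]
    exact Finset.sum_congr rfl fun y _ => Finset.sum_congr rfl fun i _ => mul_comm _ _

variable {ρ : G →* Matrix d d ℤ_[l]}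

/-- The Fox identity over `ℤ_[l]`, for every class functional and every Frobenius. -/
theorem fox_lim1 (H : Ctx1 A l ι) (hγ : Gen A l γ)
    (hI : Fintype.card I = Module.finrank (ZMod l) (A.Hm ⊤ (ZMod l)))
    (hρ : Rep A l (ρ.comp ι)) :
    ∃ D : I → P → Matrix d d ℤ_[l], (∀ j, Coc A (fun g => ρ (ι g)) (D j)) ∧
      (∀ i j, D j (γ i) = if i = j then 1 else 0) ∧
      (∀ T : Matrix d d ℤ_[l], (∀ g, (T * ρ (ι g)).trace = 0) → ∀ j g, (T * D j g).trace = 0) ∧
      ∀ T : Matrix d d ℤ_[l], (∀ g h, (T * ρ (g * h)).trace = (T * ρ (h * g)).trace) →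
        ∀ (ψ : G) (β : P →* P) (Q : ℕ) (U : Type) [Fintype U] (f : U → P),
        (∀ g, ψ * ι (β g) = ι g * ψ) → TrF A l Q ι β f →
        (Q : ℤ_[l]) * ∑ i, (T * (ρ ψ * D i (β (γ i)))).trace =
        Q * (T * ρ ψ).trace - ∑ x : U, (T * ρ (ψ * ι (f x))).trace := by
  choose E h1 h2 h3 h4 h4' using fun n => fox_fin H hγ hI n _ (rep_lev hρ n)
  have h5 : ∀ n j g, (ZMod.castHom (pow_dvd_pow l n.le_succ) (ZMod (l ^ n))).mapMatrix
      (E (n + 1) j g) = E n j g := by
    intro n j g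
    set κ := (ZMod.castHom (pow_dvd_pow l n.le_succ) (ZMod (l ^ n))).mapMatrix (m := d)
    have hκ : ∀ x : Matrix d d ℤ_[l], κ (red (n + 1) x) = red n x := fun x => by
      ext a b; exact PadicInt.cast_toZModPow n (n + 1) n.le_succ _
    obtain ⟨K, h6, h7⟩ := mat_lev _ (rep_lev hρ n) (fun g => κ (E (n + 1) j g) - E n j g)
      (fun g g' => by
        rw [h1, h1, map_add, map_mul, mul_sub]
        have := hκ (ρ (ι g))
        simp only [MonoidHom.comp_apply, RingHom.toMonoidHom_eq_coe, MonoidHom.coe_coe, this]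
        abel)
      (by obtain ⟨M, h8, h9⟩ := h3 n j
          obtain ⟨M', h10, h11⟩ := h3 (n + 1) j
          exact ⟨M ⊓ M', A.inf h8 h10, fun g hg => by rw [h9 g hg.1, h11 g hg.2]; simp⟩)
    rw [← sub_eq_zero]
    refine (h6 g).1 (hγ K h7 (fun i => (h6 _).2 ?_) ▸ trivial)
    rw [h2, h2]
    split_ifs <;> simp only [Nat.succ_eq_add_one, map_one, sub_self, map_zero]
  choose D hD using fun j g a b => padic_lim (fun n => E n j g a b)
    fun n => congr_fun (congr_fun (h5 n j g) a) b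
  have hD' : ∀ n j g, red n (Matrix.of (D j g)) = E n j g := fun n j g => by
    ext a b; exact hD j g a b n
  refine ⟨fun j g => Matrix.of (D j g), fun j => ⟨fun g g' => red_ext fun n => ?_, fun n => ?_⟩,
    fun i j => red_ext fun n => ?_, fun T hT j g => PadicInt.ext_of_toZModPow.1 fun n => ?_,
    fun T hT ψ β Q U _ f hψ hF => PadicInt.ext_of_toZModPow.1 fun n => ?_⟩
  · rw [map_add, map_mul, hD', hD', hD', h1]; rfl
  · simpa only [hD'] using h3 n j
  · rw [hD', h2]; split_ifs <;> simp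
  · rw [red_trace, map_mul, hD', map_zero]
    refine h4 n (red n T) (fun g => ?_) j g
    have := congrArg (PadicInt.toZModPow n) (hT g)
    rwa [red_trace, map_mul, map_zero] at this
  · simp only [map_mul (PadicInt.toZModPow n), map_sub, map_sum, map_natCast, red_trace,
      map_mul (red n), hD']
    refine h4' n (red n T) (fun g h => ?_) ψ β Q U f hψ hF
    have := congrArg (PadicInt.toZModPow n) (hT g h)
    rwa [red_trace, red_trace, map_mul (red n), map_mul (red n)] at this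

theorem fox_lim (H : Ctx0 A l) (hγ : Gen A l γ)
    (hI : Fintype.card I = Module.finrank (ZMod l) (A.Hm ⊤ (ZMod l)))
    (hρ : Rep A l (ρ.comp ι)) :
    ∃ D : I → P → Matrix d d ℤ_[l], (∀ j, Coc A (fun g => ρ (ι g)) (D j)) ∧
      (∀ i j, D j (γ i) = if i = j then 1 else 0) ∧
      (∀ T : Matrix d d ℤ_[l], (∀ g, (T * ρ (ι g)).trace = 0) → ∀ j g, (T * D j g).trace = 0) ∧
      ∀ T : Matrix d d ℤ_[l], (∀ g h, (T * ρ (g * h)).trace = (T * ρ (h * g)).trace) →
        ∀ (ψ : G) (β : P →* P) (Q : ℕ) (U : Type) [Fintype U] (f : U → P),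
        (∀ g, ψ * ι (β g) = ι g * ψ) → TrF A l Q ι β f →
        (Q : ℤ_[l]) * ∑ i, (T * (ρ ψ * D i (β (γ i)))).trace =
        Q * (T * ρ ψ).trace - ∑ x : U, (T * ρ (ψ * ι (f x))).trace :=
  fox_lim1 (H.one ι) hγ hI hρ

/-- complexification of matrices -/
noncomputable def J (j : ℚ_[l] →+* ℂ) : Matrix d d ℤ_[l] →+* Matrix d d ℂ :=
  (j.comp (algebraMap ℤ_[l] ℚ_[l])).mapMatrix

lemma J_apply (j : ℚ_[l] →+* ℂ) (x : Matrix d d ℤ_[l]) (a b : d) :
    J j x a b = j (algebraMap ℤ_[l] ℚ_[l] (x a b)) := rfl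

lemma mem_span_J (j : ℚ_[l] →+* ℂ) (B : Set (Matrix d d ℤ_[l])) (x : Matrix d d ℤ_[l])
    (h : ∀ T : Matrix d d ℤ_[l], (∀ b ∈ B, (T * b).trace = 0) → (T * x).trace = 0) :
    J j x ∈ Submodule.span ℂ (J j '' B) := by
  by_contra hx
  obtain ⟨F, h1, h2⟩ := Submodule.exists_dual_map_eq_bot_of_notMem hx inferInstance
  apply h1
  let : Algebra ℚ_[l] ℂ := j.toAlgebra
  rw [← Module.forall_dual_apply_eq_zero_iff ℚ_[l]]
  intro lam
  obtain ⟨c, hc⟩ := IsLocalization.exist_integer_multiples_of_finite (nonZeroDivisors ℤ_[l])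
    (fun ab : d × d => lam (F (Matrix.single ab.2 ab.1 1)))
  choose T hT using hc
  have key : ∀ y : Matrix d d ℤ_[l],
      algebraMap ℤ_[l] ℚ_[l] (Matrix.of (fun a b => T (a, b)) * y).trace
        = algebraMap ℤ_[l] ℚ_[l] c * lam (F (J j y)) := by
    intro y
    conv_rhs => rw [Matrix.matrix_eq_sum_single (J j y)]
    simp only [Matrix.trace, Matrix.diag_apply, Matrix.mul_apply, Matrix.of_apply, map_sum,
      map_mul, hT, Finset.mul_sum]
    rw [Finset.sum_comm]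
    refine Finset.sum_congr rfl fun a _ => Finset.sum_congr rfl fun b _ => ?_
    have e : Matrix.single a b (J j y a b)
        = J j y a b • Matrix.single a b (1 : ℂ) := by simp
    have e2 : J j y a b • F (Matrix.single a b (1 : ℂ))
        = algebraMap ℤ_[l] ℚ_[l] (y a b) • F (Matrix.single a b (1 : ℂ)) := rfl
    rw [e, map_smul, e2, map_smul, Algebra.smul_def, smul_eq_mul]
    ring
  have hinj : Function.Injective (algebraMap ℤ_[l] ℚ_[l]) := IsFractionRing.injective _ _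
  have h3 := h (Matrix.of fun a b => T (a, b)) fun b hb => hinj (by
    have : F (J j b) = 0 := by
      rw [← Submodule.mem_bot ℂ, ← h2]
      exact Submodule.mem_map_of_mem (Submodule.subset_span ⟨b, hb, rfl⟩)
    rw [key, this, map_zero, mul_zero, map_zero])
  have h4 := key x
  rw [h3, map_zero] at h4
  exact (mul_eq_zero.1 h4.symm).resolve_left
    ((map_ne_zero_iff _ hinj).2 (nonZeroDivisors.coe_ne_zero c))

/-! ### the class of complex modules over the algebra of a lattice representation -/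

section Cls

open Module TensorProduct Kronecker

variable {V W : Type} [AddCommGroup V] [Module ℂ V] [AddCommGroup W] [Module ℂ W]

/-- `σ` factors linearly through the complexification of `ρ`. -/
def Fac (j : ℚ_[l] →+* ℂ) (ρ : G →* Matrix d d ℤ_[l]) (σ : Representation ℂ G V) : Prop :=
  ∃ θ : Matrix d d ℂ →ₗ[ℂ] End ℂ V, ∀ g, θ (J j (ρ g)) = σ g

/-- The class of representations for which the trace formula is proved. -/
def Cls (A : Adm P) (ι : P →* G) (j : ℚ_[l] →+* ℂ) (σ : Representation ℂ G V) : Prop :=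
  ∃ (d : Type) (_ : Fintype d) (_ : DecidableEq d) (ρ : G →* Matrix d d ℤ_[l]),
    Rep A l (ρ.comp ι) ∧ Fac j ρ σ

variable {j : ℚ_[l] →+* ℂ} {σ : Representation ℂ G V} {σ' : Representation ℂ G W}

/-- the complexification itself -/
noncomputable def cx (j : ℚ_[l] →+* ℂ) (ρ : G →* Matrix d d ℤ_[l]) :
    Representation ℂ G (d → ℂ) :=
  (Matrix.toLinAlgEquiv' : Matrix d d ℂ ≃ₐ[ℂ] _).toMonoidHom.comp ((J j).toMonoidHom.comp ρ)

lemma cx_apply (j : ℚ_[l] →+* ℂ) (ρ : G →* Matrix d d ℤ_[l]) (g : G) :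
    cx j ρ g = Matrix.toLin' (J j (ρ g)) := rfl

lemma cls_cx (hρ : Rep A l (ρ.comp ι)) : Cls A ι j (cx j ρ) :=
  ⟨d, inferInstance, inferInstance, ρ, hρ, Matrix.toLin'.toLinearMap, fun _ => rfl⟩

lemma Fac.of (h : Fac j ρ σ) (i : W →ₗ[ℂ] V) (r : V →ₗ[ℂ] W)
    (hir : ∀ g, r ∘ₗ σ g ∘ₗ i = σ' g) : Fac j ρ σ' := by
  obtain ⟨θ, hθ⟩ := h
  refine ⟨(LinearMap.llcomp ℂ W V W r ∘ₗ (LinearMap.llcomp ℂ W V V).flip i) ∘ₗ θ, fun g => ?_⟩
  rw [← hir g, ← hθ g]; rfl

lemma Cls.sub (i : W →ₗ[ℂ] V) (hi : Function.Injective i) (h : ∀ g, σ g ∘ₗ i = i ∘ₗ σ' g)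
    (H : Cls A ι j σ) : Cls A ι j σ' := by
  obtain ⟨d, _, _, ρ, h1, h2⟩ := H
  obtain ⟨r, hr⟩ := i.exists_leftInverse_of_injective (LinearMap.ker_eq_bot.2 hi)
  exact ⟨d, _, _, ρ, h1, h2.of i r fun g => by
    rw [h, ← LinearMap.comp_assoc, hr, LinearMap.id_comp]⟩

lemma Cls.quo (π : V →ₗ[ℂ] W) (hπ : Function.Surjective π) (h : ∀ g, π ∘ₗ σ g = σ' g ∘ₗ π)
    (H : Cls A ι j σ) : Cls A ι j σ' := by
  obtain ⟨d, _, _, ρ, h1, h2⟩ := H
  obtain ⟨s, hs⟩ := π.exists_rightInverse_of_surjective (LinearMap.range_eq_top.2 hπ)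
  exact ⟨d, _, _, ρ, h1, h2.of s π fun g => by
    rw [← LinearMap.comp_assoc, h, LinearMap.comp_assoc, hs, LinearMap.comp_id]⟩

lemma Cls.one : Cls A ι j (Representation.trivial ℂ G ℂ) := by
  refine ⟨Unit, inferInstance, inferInstance, 1, ⟨fun g a b => by simp,
    fun n => ⟨⊤, A.top, fun g _ a b => by simp⟩⟩,
    (Matrix.traceLinearMap Unit ℂ ℂ).smulRight 1, fun g => ?_⟩
  simp [Representation.trivial]

lemma dvd_iff_red (n : ℕ) (x : Matrix d d ℤ_[l]) :
    (∀ a b, (l : ℤ_[l]) ^ n ∣ (x - 1) a b) ↔ red n x = 1 := by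
  rw [← red_eq_zero, map_sub, map_one, sub_eq_zero]

lemma rep_iff {σ : P →* Matrix d d ℤ_[l]} : Rep A l σ ↔ (∀ g, red 1 (σ g) = 1) ∧
    ∀ n, ∃ M, A.adm M ∧ ∀ g ∈ M, red n (σ g) = 1 := by
  simp only [← dvd_iff_red, pow_one]
  exact ⟨fun h => ⟨h.one, h.adm⟩, fun h => ⟨h.1, h.2⟩⟩

lemma Cls.tprod (H : Cls A ι j σ) (H' : Cls A ι j σ') : Cls A ι j (σ.tprod σ') := by
  obtain ⟨d, _, _, ρ, h1, θ, h2⟩ := H
  obtain ⟨d', _, _, ρ', h1', θ', h2'⟩ := H'
  let τ : G →* Matrix (d × d') (d × d') ℤ_[l] :=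
    { toFun := fun g => ρ g ⊗ₖ ρ' g
      map_one' := by rw [map_one, map_one, Matrix.one_kronecker_one]
      map_mul' := fun g h => by rw [map_mul, map_mul, Matrix.mul_kronecker_mul] }
  have hred : ∀ n (x : Matrix d d ℤ_[l]) (y : Matrix d' d' ℤ_[l]),
      red n (x ⊗ₖ y) = red n x ⊗ₖ red n y := fun n x y => by
    ext a b; simp [red]
  have hJ : ∀ (x : Matrix d d ℤ_[l]) (y : Matrix d' d' ℤ_[l]),
      J j (x ⊗ₖ y) = J j x ⊗ₖ J j y := fun x y => by
    ext a b; simp [J_apply]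
  rw [rep_iff] at h1 h1'
  refine ⟨d × d', inferInstance, inferInstance, τ, rep_iff.2 ⟨fun g => ?_, fun n => ?_⟩,
    TensorProduct.homTensorHomMap (RingHom.id ℂ) V W V W ∘ₗ TensorProduct.map θ θ' ∘ₗ
      (kroneckerLinearEquiv d d d' d' ℂ).symm.toLinearMap, fun g => ?_⟩
  · show red 1 (ρ (ι g) ⊗ₖ ρ' (ι g)) = 1
    rw [hred, show red 1 (ρ (ι g)) = 1 from h1.1 g, show red 1 (ρ' (ι g)) = 1 from h1'.1 g,
      Matrix.one_kronecker_one]
  · obtain ⟨M, h3, h4⟩ := h1.2 n
    obtain ⟨M', h3', h4'⟩ := h1'.2 n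
    refine ⟨M ⊓ M', A.inf h3 h3', fun g hg => ?_⟩
    show red n (ρ (ι g) ⊗ₖ ρ' (ι g)) = 1
    rw [hred, show red n (ρ (ι g)) = 1 from h4 g hg.1, show red n (ρ' (ι g)) = 1 from h4' g hg.2,
      Matrix.one_kronecker_one]
  · show TensorProduct.homTensorHomMap (RingHom.id ℂ) V W V W (TensorProduct.map θ θ'
      ((kroneckerLinearEquiv d d d' d' ℂ).symm (J j (ρ g ⊗ₖ ρ' g)))) = _
    rw [hJ, kroneckerLinearEquiv_symm_kronecker, TensorProduct.map_tmul, h2, h2',
      TensorProduct.homTensorHomMap_apply, Representation.tprod_apply]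

lemma Cls.dual (H : Cls A ι j σ) : Cls A ι j σ.dual := by
  obtain ⟨d, _, _, ρ, h1, θ, h2⟩ := H
  let τ : G →* Matrix d d ℤ_[l] :=
    { toFun := fun g => (ρ g⁻¹)ᵀ
      map_one' := by rw [inv_one, map_one, Matrix.transpose_one]
      map_mul' := fun g h => by rw [_root_.mul_inv_rev, map_mul, Matrix.transpose_mul] }
  have hred : ∀ n (x : Matrix d d ℤ_[l]), red n xᵀ = (red n x)ᵀ := fun n x => rfl
  rw [rep_iff] at h1
  refine ⟨d, inferInstance, inferInstance, τ, rep_iff.2 ⟨fun g => ?_, fun n => ?_⟩,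
    Module.Dual.transpose ∘ₗ θ ∘ₗ (Matrix.transposeLinearEquiv d d ℂ ℂ).toLinearMap, fun g => ?_⟩
  · show red 1 (ρ (ι g)⁻¹)ᵀ = 1
    rw [hred, ← map_inv, show red 1 (ρ (ι g⁻¹)) = 1 from h1.1 g⁻¹, Matrix.transpose_one]
  · obtain ⟨M, h3, h4⟩ := h1.2 n
    refine ⟨M, h3, fun g hg => ?_⟩
    show red n (ρ (ι g)⁻¹)ᵀ = 1
    rw [hred, ← map_inv, show red n (ρ (ι g⁻¹)) = 1 from h4 g⁻¹ (M.inv_mem hg),
      Matrix.transpose_one]
  · rw [Representation.dual_apply, ← h2]; rfl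

lemma trace_vec [FiniteDimensional ℂ V] (M : Matrix I I (End ℂ V)) :
    LinearMap.trace ℂ _ ((endVecAlgEquivMatrixEnd I ℂ ℂ V).symm M)
      = ∑ i, LinearMap.trace ℂ V (M i i) := by
  set Ψ : End ℂ (I → V) := (endVecAlgEquivMatrixEnd I ℂ ℂ V).symm M with hΨ
  have e : Ψ = ∑ i, (Ψ ∘ₗ LinearMap.single ℂ (fun _ => V) i) ∘ₗ LinearMap.proj i := by
    refine LinearMap.ext fun z => ?_
    simp only [LinearMap.sum_apply, LinearMap.comp_apply, LinearMap.proj_apply,
      LinearMap.single_apply, ← map_sum, Finset.univ_sum_single]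
  rw [e, map_sum]
  refine Finset.sum_congr rfl fun i _ => ?_
  rw [LinearMap.trace_comp_comm']
  congr 1
  refine LinearMap.ext fun v => ?_
  simp [hΨ, Pi.single_apply, apply_ite]

/-- Fox derivatives with values in `End V`. -/
structure FoxC [FiniteDimensional ℂ V] (A : Adm P) (l : ℕ) (ι : P →* G) (γ : I → P)
    (σ : Representation ℂ G V) (D : I → P → End ℂ V) : Prop where
  mul : ∀ t g g', D t (g * g') = D t g + σ (ι g) * D t g'
  dual : ∀ i t, D t (γ i) = if i = t then 1 else 0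
  one : ∀ p, σ (ι p) - 1 = ∑ t, D t p * (σ (ι (γ t)) - 1)
  univ : ∀ (ψ : G) (β : P →* P), (∀ g, ψ * ι (β g) = ι g * ψ) →
    (∀ M, A.adm M → A.adm (M.comap β)) →
    ∀ t g, σ ψ * D t (β g) = ∑ s, D s g * (σ ψ * D t (β (γ s)))
  tr : ∀ (ψ : G) (β : P →* P) (Q : ℕ) (U : Type) [Fintype U] (f : U → P),
    (∀ g, ψ * ι (β g) = ι g * ψ) → TrF A l Q ι β f →
    ∑ x : U, LinearMap.trace ℂ V (σ (ψ * ι (f x))) =
      (Q : ℂ) * (LinearMap.trace ℂ V (σ ψ) - ∑ i, LinearMap.trace ℂ V (σ ψ * D i (β (γ i))))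

/-- Transport of the integral Fox derivatives `D` along `θ`. -/
theorem foxC_of [FiniteDimensional ℂ V] (hγ : Gen A l γ) (hρ : Rep A l (ρ.comp ι))
    (θ : Matrix d d ℂ →ₗ[ℂ] End ℂ V) (hθ : ∀ g, θ (J j (ρ g)) = σ g)
    {D : I → P → Matrix d d ℤ_[l]} (hD : ∀ j, Coc A (fun g => ρ (ι g)) (D j))
    (hd : ∀ i j, D j (γ i) = if i = j then 1 else 0)
    (ha : ∀ T : Matrix d d ℤ_[l], (∀ g, (T * ρ (ι g)).trace = 0) → ∀ j g, (T * D j g).trace = 0)
    (hb : ∀ T : Matrix d d ℤ_[l], (∀ g h, (T * ρ (g * h)).trace = (T * ρ (h * g)).trace) →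
        ∀ (ψ : G) (β : P →* P) (Q : ℕ) (U : Type) [Fintype U] (f : U → P),
        (∀ g, ψ * ι (β g) = ι g * ψ) → TrF A l Q ι β f →
        (Q : ℤ_[l]) * ∑ i, (T * (ρ ψ * D i (β (γ i)))).trace =
        Q * (T * ρ ψ).trace - ∑ x : U, (T * ρ (ψ * ι (f x))).trace) :
    FoxC A l ι γ σ fun t g => θ (J j (D t g)) := by
  have hd' : ∀ i (x : I → Matrix d d ℤ_[l]), ∑ t, D t (γ i) * x t = x i := fun i x => by
    simp only [hd, ite_mul, one_mul, zero_mul, Finset.sum_ite_eq, Finset.mem_univ, ↓reduceIte]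
  let S : Submodule ℂ (Matrix d d ℂ) := Submodule.span ℂ (Set.range fun g => J j (ρ g))
  have hS : ∀ g, J j (ρ g) ∈ S := fun g => Submodule.subset_span ⟨g, rfl⟩
  have hDS : ∀ t g, J j (D t g) ∈ S := fun t g =>
    Submodule.span_mono (by rintro _ ⟨_, ⟨h, rfl⟩, rfl⟩; exact ⟨ι h, rfl⟩)
      (mem_span_J j (Set.range fun h => ρ (ι h)) (D t g)
        fun T hT => ha T (fun h => hT _ ⟨h, rfl⟩) t g)
  have hmul : ∀ x ∈ S, ∀ y ∈ S, x * y ∈ S ∧ θ (x * y) = θ x * θ y := by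
    intro x hx y hy
    induction hx, hy using Submodule.span_induction₂ with
    | mem_mem x y hx hy =>
      obtain ⟨g, rfl⟩ := hx
      obtain ⟨h, rfl⟩ := hy
      simp only [← map_mul, hθ]
      exact ⟨hS _, trivial⟩
    | zero_left y _ => simp
    | zero_right x _ => simp
    | add_left x y z _ _ _ h1 h2 =>
      rw [add_mul, map_add, map_add, add_mul, h1.2, h2.2]; exact ⟨S.add_mem h1.1 h2.1, rfl⟩
    | add_right x y z _ _ _ h1 h2 =>
      rw [mul_add, map_add, map_add, mul_add, h1.2, h2.2]; exact ⟨S.add_mem h1.1 h2.1, rfl⟩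
    | smul_left r x y _ _ h1 =>
      rw [smul_mul_assoc, map_smul, map_smul, smul_mul_assoc, h1.2]
      exact ⟨S.smul_mem r h1.1, rfl⟩
    | smul_right r x y _ _ h1 =>
      rw [mul_smul_comm, map_smul, map_smul, mul_smul_comm, h1.2]
      exact ⟨S.smul_mem r h1.1, rfl⟩
  have hθ1 : θ 1 = 1 := by have := hθ 1; rwa [map_one ρ, map_one (J j), map_one σ] at this
  have hc : Coc A (fun g => ρ (ι g)) (fun g => ρ (ι g) - 1) :=
    ⟨fun g g' => by rw [map_mul, map_mul]; noncomm_ring, fun n => by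
      obtain ⟨M, h3, h4⟩ := hρ.adm n
      exact ⟨M, h3, fun g hg => (red_eq_zero n _).2 (h4 g hg)⟩⟩
  have hρD : ∀ g t p, J j (ρ g * D t p) ∈ S := fun g t p => by
    rw [map_mul]; exact (hmul _ (hS g) _ (hDS t p)).1
  have hρθ : ∀ g t p, θ (J j (ρ g * D t p)) = σ g * θ (J j (D t p)) := fun g t p => by
    rw [map_mul, (hmul _ (hS _) _ (hDS _ _)).2, hθ]
  refine ⟨fun t g g' => ?_, fun i t => ?_, fun p => ?_, fun ψ β hψ hβ t g => ?_,
    fun ψ β Q U _ f hψ hF => ?_⟩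
  · rw [(hD t).mul, map_add, map_add, hρθ]
  · rw [hd]
    split_ifs
    · rw [map_one, hθ1]
    · rw [map_zero, map_zero]
  · have h1 := congrArg (fun x => θ (J j x)) (Coc.univ hρ hγ hD hd' hc p)
    simp only [map_sub, map_one, hθ, hθ1, map_sum, map_mul (J j)] at h1
    rw [h1]
    refine Finset.sum_congr rfl fun t _ => ?_
    rw [(hmul _ (hDS t p) _ (S.sub_mem (hS _) (by simpa using hS 1))).2, map_sub, hθ, hθ1]
  · have hE : Coc A (fun g => ρ (ι g)) (fun g => ρ ψ * D t (β g)) :=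
      ⟨fun g g' => by
        rw [map_mul, (hD t).mul, mul_add, ← mul_assoc, ← mul_assoc, ← map_mul, ← map_mul, hψ],
      fun n => by
        obtain ⟨M, h3, h4⟩ := (hD t).adm n
        exact ⟨_, hβ M h3, fun g hg => by rw [map_mul, h4 _ hg, mul_zero]⟩⟩
    rw [← hρθ, Coc.univ hρ hγ hD hd' hE g, map_sum, map_sum]
    refine Finset.sum_congr rfl fun s _ => ?_
    rw [map_mul (J j) (D s g), (hmul _ (hDS _ _) _ (hρD _ _ _)).2, hρθ]
  · have h1 := mem_span_J j (Set.range fun gh : G × G => ρ (gh.1 * gh.2) - ρ (gh.2 * gh.1))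
      ((Q : ℤ_[l]) • ∑ i, ρ ψ * D i (β (γ i)) -
        ((Q : ℤ_[l]) • ρ ψ - ∑ x : U, ρ (ψ * ι (f x)))) fun T hT => by
      simp only [mul_sub, Matrix.trace_sub, Matrix.mul_smul, Matrix.trace_smul, Finset.mul_sum,
        Matrix.trace_sum, smul_eq_mul, sub_eq_zero]
      rw [← Finset.mul_sum]
      refine hb T (fun g h => ?_) ψ β Q U f hψ hF
      have := hT _ ⟨(g, h), rfl⟩
      rwa [mul_sub, Matrix.trace_sub, sub_eq_zero] at this
    have h2 : Submodule.span ℂ (J j '' Set.range fun gh : G × G =>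
        ρ (gh.1 * gh.2) - ρ (gh.2 * gh.1)) ≤ LinearMap.ker (LinearMap.trace ℂ V ∘ₗ θ) := by
      rw [Submodule.span_le]
      rintro _ ⟨_, ⟨gh, rfl⟩, rfl⟩
      show LinearMap.trace ℂ V (θ (J j (ρ (gh.1 * gh.2) - ρ (gh.2 * gh.1)))) = 0
      rw [map_sub, map_sub, hθ, hθ, map_sub, map_mul σ, map_mul σ, LinearMap.trace_mul_comm,
        sub_self]
    have h3 : LinearMap.trace ℂ V (θ (J j _)) = 0 := h2 h1
    have hq : ∀ x : Matrix d d ℤ_[l], J j ((Q : ℤ_[l]) • x) = (Q : ℂ) • J j x := fun x => by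
      ext a b; simp [J_apply]
    simp only [map_sub, hq, map_smul, map_sum, hθ, hρθ, smul_eq_mul] at h3
    linear_combination h3

theorem exists_foxC [FiniteDimensional ℂ V] (H : Ctx0 A l) (hγ : Gen A l γ)
    (hI : Fintype.card I = Module.finrank (ZMod l) (A.Hm ⊤ (ZMod l))) (hσ : Cls A ι j σ) :
    ∃ D : I → P → End ℂ V, FoxC A l ι γ σ D := by
  obtain ⟨d, _, _, ρ, hρ, θ, hθ⟩ := hσ
  obtain ⟨D, h1, h2, h3, h4⟩ := fox_lim H hγ hI hρ
  exact ⟨_, foxC_of hγ hρ θ hθ h1 h2 h3 h4⟩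

/-- The action of `ψ` on cocycles, read on the values at the generators. -/
noncomputable def Psi (σ : Representation ℂ G V) (γ : I → P) (D : I → P → End ℂ V) (ψ : G)
    (β : P →* P) : End ℂ (I → V) :=
  (endVecAlgEquivMatrixEnd I ℂ ℂ V).symm (Matrix.of fun i t => σ ψ * D t (β (γ i)))

/-- The coboundary. -/
noncomputable def Del (σ : Representation ℂ G V) (ι : P →* G) (γ : I → P) : V →ₗ[ℂ] I → V :=
  LinearMap.pi fun i => σ (ι (γ i)) - 1

omit [Fintype I] [DecidableEq I] in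
lemma Del_apply (v : V) (i : I) : Del σ ι γ v i = σ (ι (γ i)) v - v := rfl

lemma Psi_apply (D : I → P → End ℂ V) (ψ : G) (β : P →* P) (z : I → V) (i : I) :
    Psi σ γ D ψ β z i = σ ψ (∑ t, D t (β (γ i)) (z t)) := by
  rw [map_sum]; rfl

variable [FiniteDimensional ℂ V] {D : I → P → End ℂ V}

omit [Fact l.Prime] in
lemma FoxC.psi_del (h : FoxC A l ι γ σ D) {ψ : G} {β : P →* P}
    (hψ : ∀ g, ψ * ι (β g) = ι g * ψ) : Psi σ γ D ψ β ∘ₗ Del σ ι γ = Del σ ι γ ∘ₗ σ ψ := by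
  refine LinearMap.ext fun v => funext fun i => ?_
  have h1 : (σ (ι (γ i)) - 1) * σ ψ = ∑ t, σ ψ * D t (β (γ i)) * (σ (ι (γ t)) - 1) := by
    rw [sub_mul, ← map_mul, ← hψ, map_mul, one_mul, ← mul_sub_one, h.one, Finset.mul_sum]
    simp only [mul_assoc]
  have h2 := LinearMap.congr_fun h1 v
  rw [LinearMap.sum_apply] at h2
  exact h2.symm

omit [Fact l.Prime] in
lemma FoxC.inv (h : FoxC A l ι γ σ D) {v : V} (hv : Del σ ι γ v = 0) (p : P) : σ (ι p) v = v := by
  have h1 := LinearMap.congr_fun (h.one p) v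
  rw [LinearMap.sum_apply, Finset.sum_eq_zero fun t _ => by
    rw [Module.End.mul_apply, show (σ (ι (γ t)) - 1) v = 0 from congrFun hv t, map_zero]] at h1
  exact sub_eq_zero.1 h1

omit [Fact l.Prime] in
lemma FoxC.psi_one (h : FoxC A l ι γ σ D) : Psi σ γ D 1 (MonoidHom.id P) = 1 := by
  rw [Psi, ← map_one (endVecAlgEquivMatrixEnd I ℂ ℂ V).symm]
  congr 1
  ext1 i t
  rw [Matrix.of_apply, map_one, one_mul, MonoidHom.id_apply, h.dual, Matrix.one_apply]

omit [Fact l.Prime] in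
lemma FoxC.psi_mul (h : FoxC A l ι γ σ D) (ψ : G) (β : P →* P) {ψ' : G} {β' : P →* P}
    (hψ : ∀ g, ψ' * ι (β' g) = ι g * ψ') (hβ : ∀ M, A.adm M → A.adm (M.comap β')) :
    Psi σ γ D (ψ * ψ') (β'.comp β) = Psi σ γ D ψ β * Psi σ γ D ψ' β' := by
  rw [Psi, Psi, Psi, ← map_mul]
  congr 1
  ext1 i t
  simp only [Matrix.of_apply, Matrix.mul_apply]
  rw [map_mul, mul_assoc, MonoidHom.comp_apply, h.univ ψ' β' hψ hβ, Finset.mul_sum]
  simp only [mul_assoc]

omit [Fact l.Prime] in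
lemma FoxC.psi_pow (h : FoxC A l ι γ σ D) {φ : G} {α : P →* P}
    (hα : ∀ g, φ * ι (α g) = ι g * φ) (hc : ∀ M, A.adm M → A.adm (M.comap α)) (k : ℕ) :
    Psi σ γ D (φ ^ k) (itr α k) = Psi σ γ D φ α ^ k := by
  have hk : ∀ k, ∀ M, A.adm M → A.adm (M.comap (itr α k)) := fun k => by
    induction k with
    | zero => exact fun M h => h
    | succ k ih =>
      intro M h
      rw [itr_succ, ← Subgroup.comap_comap]
      exact hc _ (ih M h)
  induction k with
  | zero => rw [pow_zero, pow_zero]; exact h.psi_one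
  | succ k ih => rw [pow_succ', pow_succ', itr_succ, h.psi_mul φ α (itr_conj hα k) (hk k), ih]

omit [Fact l.Prime] in
/-- The trace formula on the Fox complex, one Frobenius. -/
theorem FoxC.tr' (h : FoxC A l ι γ σ D) {ψ : G} {β : P →* P} {Q : ℕ} {U : Type} [Fintype U]
    {f : U → P} (hψ : ∀ g, ψ * ι (β g) = ι g * ψ) (hF : TrF A l Q ι β f) :
    ∑ x : U, LinearMap.trace ℂ V (σ (ψ * ι (f x))) =
      (Q : ℂ) * (LinearMap.trace ℂ V (σ ψ) - LinearMap.trace ℂ _ (Psi σ γ D ψ β)) := by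
  rw [h.tr ψ β Q U f hψ hF, Psi, trace_vec]; rfl

variable {q : ℕ} {α : P →* P} {φ : G} {U : ℕ → Type} [∀ k, Fintype (U k)] {f : ∀ k, U k → P}

open RK in
/-- The trace formula in the form of `RK.Sys.tf`. -/
theorem Cls.tf (H : Ctx0 A l) (hα : ∀ g, φ * ι (α g) = ι g * φ)
    (hc : ∀ M, A.adm M → A.adm (M.comap α))
    (hF : ∀ k, 0 < k → TrF A l (q ^ k) ι (itr α k) (f k)) (hσ : Cls A ι j σ) :
    ∃ B Γ : Multiset ℂ,
      (∀ a ∈ B, ∃ v : V, v ≠ 0 ∧ (∀ p ∈ ι.range, σ p v = v) ∧ σ φ v = a • v) ∧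
      ∀ k, 0 < k → ∑ x : U k, LinearMap.trace ℂ V (σ (φ ^ k * ι (f k x))) =
        (q : ℂ) ^ k * ps B k - ps Γ k := by
  classical
  obtain ⟨b, hb, hI, hγ⟩ := exists_gen H
  have := hb.fintype
  rw [Nat.card_eq_fintype_card] at hI
  obtain ⟨D, hD⟩ := exists_foxC H hγ hI hσ
  have hΔ := hD.psi_del hα
  have hP := fun v => hD.inv (v := v)
  have htr := fun k hk => hD.tr' (itr_conj hα k) (hF k hk)
  simp only [hD.psi_pow hα hc, map_pow σ φ, Nat.cast_pow] at htr
  generalize Psi σ (fun g : b => (g : P)) D φ α = Ψ at hΔ htr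
  generalize Del σ ι (fun g : b => (g : P)) = Δ at hΔ hP
  have hΔ' : ∀ w, Ψ (Δ w) = Δ (σ φ w) := fun w => LinearMap.congr_fun hΔ w
  have hk : ∀ w ∈ LinearMap.ker Δ, σ φ w ∈ LinearMap.ker Δ := fun w hw => by
    rw [LinearMap.mem_ker, ← hΔ', LinearMap.mem_ker.1 hw, map_zero]
  have hr : ∀ z ∈ LinearMap.range Δ, Ψ z ∈ LinearMap.range Δ := by
    rintro _ ⟨w, rfl⟩; exact ⟨σ φ w, (hΔ' w).symm⟩
  let ΨQ : End ℂ ((b → V) ⧸ LinearMap.range Δ) := (LinearMap.range Δ).mapQ _ Ψ hr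
  have h3 := ev_ses (LinearMap.ker Δ).subtype Δ.rangeRestrict Subtype.val_injective
    Δ.surjective_rangeRestrict (by rw [LinearMap.exact_iff]; simp) (a := (σ φ).restrict hk)
    (b := σ φ) (c := Ψ.restrict hr) (by ext; rfl) (by ext w; exact congrFun (hΔ' w).symm _)
  have h4 := ev_ses (LinearMap.range Δ).subtype (LinearMap.range Δ).mkQ Subtype.val_injective
    (Submodule.mkQ_surjective _) (LinearMap.exact_subtype_mkQ _) (a := Ψ.restrict hr) (b := Ψ)
    (c := ΨQ) (by ext; rfl) (LinearMap.ext fun _ => rfl)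
  refine ⟨RK.ev ((σ φ).restrict hk), RK.ev ((q : ℂ) • ΨQ), fun a ha => ?_, fun k hk0 => ?_⟩
  · obtain ⟨w, hw⟩ := (mem_ev.1 ha).exists_hasEigenvector
    refine ⟨w, fun h => hw.2 (Subtype.ext h), ?_, congrArg Subtype.val hw.apply_eq_smul⟩
    rintro _ ⟨p, rfl⟩
    exact hP w w.2 p
  · rw [htr k hk0, ← tr_pow ((q : ℂ) • ΨQ), _root_.smul_pow, map_smul, tr_pow, tr_pow, tr_pow, h3,
      h4, ps_add, ps_add, smul_eq_mul]
    ring

end Cls

/-- The abstract Weil system attached to the curve context. -/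
noncomputable def sys {q : ℕ} {α : P →* P} {φ : G} {U : ℕ → Type} [∀ k, Fintype (U k)]
    {f : ∀ k, U k → P} (H : Ctx0 A l) (hq : 0 < q) (hα : ∀ g, φ * ι (α g) = ι g * φ)
    (hc : ∀ M, A.adm M → A.adm (M.comap α))
    (hF : ∀ k, 0 < k → TrF A l (q ^ k) ι (itr α k) (f k))
    (j : ℚ_[l] →+* ℂ) (gen : ∀ g : G, ∃ (n : ℤ) (p : P), g = φ ^ n * ι p)
    (ne : ∃ k, 0 < k ∧ Nonempty (U k))
    (pow : ∀ k m, 0 < k → 0 < m → ∀ x : U k, ∃ y : U (k * m),
      ∀ (V : Type) [AddCommGroup V] [Module ℂ V] [FiniteDimensional ℂ V]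
        (σ : Representation ℂ G V), Cls A ι j σ →
        LinearMap.trace ℂ V (σ (φ ^ (k * m) * ι (f (k * m) y))) =
          LinearMap.trace ℂ V (σ (φ ^ k * ι (f k x)) ^ m)) : RK.Sys G where
  q := q
  P := ι.range
  φ := φ
  U := U
  fin := inferInstance
  F := fun k x => φ ^ k * ι (f k x)
  T := fun _ _ _ _ σ => Cls A ι j σ
  hq := Nat.cast_pos.2 hq
  gen := fun g => by
    obtain ⟨n, p, h⟩ := gen g
    exact ⟨n, ι p, ⟨p, rfl⟩, h⟩
  mem := fun k x => ⟨_, ⟨_, rfl⟩, rfl⟩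
  ne := ne
  pow := pow
  one := Cls.one
  tprod := Cls.tprod
  dual := Cls.dual
  sub := Cls.sub
  quo := Cls.quo
  tf := fun h => by simpa only [Complex.ofReal_natCast] using h.tf H hα hc hF

end Pool.Agent.MP_855f4c_ag.E.TFC

end
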