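import Pool.Agent.MP_855f4c_ag.EC.Wa
import Pool.Agent.MP_855f4c_ag.EC.F2b

section

namespace Pool.Agent.MP_855f4c_ag.E.TFH

open Pool.Agent.MP_855f4c_ag.Fx Matrix TFC

variable {P : Type} [Group P] {A : Adm P} {l : ℕ} {G : Type} [Group G] {ι : P →* G}

/-- What the base curve provides for one Frobenius `al`. -/
structure Cx (A : Adm P) (l Q : ℕ) (al : P →* P) (U : Type) [Fintype U] (f : U → P) : Prop where
  comap : ∀ M, A.adm M → A.adm (M.comap al)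
  free : ∀ N : Subgroup P, N.Normal → A.adm N → ∀ n m : ℕ, 0 < m → n = l ^ m →
    Module.Free (ZMod n) (A.Hm N (ZMod n)) ∧ Module.Finite (ZMod n) (A.Hm N (ZMod n))
  tr0 : ∀ N : Subgroup P, N.Normal → A.adm N → ∀ n m : ℕ, 0 < m → n = l ^ m →
    ∀ h : P, h ∉ N → (∃ a : ℕ, h ^ l ^ a ∈ N) →
      ∀ T, A.IsAct N (ZMod n) id h T → LinearMap.trace (ZMod n) _ T = 1
  tr : ∀ N : Subgroup P, N.Normal → A.adm N → (∀ a ∈ N, al a ∈ N) → ∀ n m : ℕ, 0 < m →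
    n = l ^ m → ∀ (h : P) T, A.IsAct N (ZMod n) al h T →
      (Q : ZMod n) * LinearMap.trace (ZMod n) _ T = Q - ∑ x : U, (cnt N al h (f x) : ZMod n)

/-- Admissible subgroups of a subgroup. -/
def sub (A : Adm P) (K : Subgroup P) : Adm K where
  adm M := ∃ M', A.adm M' ∧ ∀ g : K, (g : P) ∈ M' → g ∈ M
  top := ⟨⊤, A.top, fun _ _ => trivial⟩
  inf := fun ⟨M, h1, h2⟩ ⟨N, h3, h4⟩ => ⟨M ⊓ N, A.inf h1 h3, fun g hg => ⟨h2 g hg.1, h4 g hg.2⟩⟩
  up := fun ⟨M, h1, h2⟩ h => ⟨M, h1, fun g hg => h (h2 g hg)⟩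
  fin := fun {M} ⟨M', h1, h2⟩ => by
    have := A.fin h1
    exact Subgroup.finiteIndex_of_le (H := M'.subgroupOf K) h2
  norm := fun ⟨M', h1, h2⟩ => by
    obtain ⟨N, h3, h4, h5⟩ := A.norm h1
    exact ⟨N.subgroupOf K, fun g hg => h2 g (h3 hg), inferInstance, N, h5, fun _ h => h⟩

variable {K N : Subgroup P}

/-- Characters of `N` seen inside `K` and inside `P`. -/
def hmE (A : Adm P) (h : N ≤ K) (R : Type) [CommRing R] :
    (sub A K).Hm (N.subgroupOf K) R ≃ₗ[R] A.Hm N R where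
  toFun χ := ⟨fun a => χ.1 ⟨⟨a, h a.2⟩, a.2⟩, fun a b => χ.2.1 ⟨⟨a, h a.2⟩, a.2⟩ ⟨⟨b, h b.2⟩, b.2⟩,
    by obtain ⟨M, ⟨M', h1, h2⟩, h3⟩ := χ.2.2
       exact ⟨M', h1, fun a ha => h3 _ (h2 _ ha)⟩⟩
  invFun χ := ⟨fun a => χ.1 ⟨a.1, a.2⟩, fun a b => χ.2.1 ⟨a.1, a.2⟩ ⟨b.1, b.2⟩,
    by obtain ⟨M, h1, h3⟩ := χ.2.2
       exact ⟨M.subgroupOf K, ⟨M, h1, fun _ h => h⟩, fun a ha => h3 _ ha⟩⟩
  map_add' _ _ := rfl
  map_smul' _ _ := rfl
  left_inv _ := rfl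
  right_inv _ := rfl

lemma isAct_conj (h : N ≤ K) {R : Type} [CommRing R] {al : P → P} {β : K → K}
    {g : P} (hβ : ∀ a : K, (β a : P) = g⁻¹ * al a * g) {k : K} {T}
    (hT : (sub A K).IsAct (N.subgroupOf K) R β k T) :
    A.IsAct N R al (g * k) ((hmE A h R).conj T) := fun χ a b hb =>
  hT ((hmE A h R).symm χ) ⟨⟨a, h a.2⟩, a.2⟩ ⟨⟨b, h b.2⟩, b.2⟩ (Subtype.ext (by
    simp only [Subgroup.coe_mul, Subgroup.coe_inv, hβ, hb]; group))

lemma lev_lift (hK : A.adm K) (hn : K.Normal) {N' : Subgroup K} (h1 : (sub A K).adm N')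
    (h2 : Nrm (ι.comp K.subtype) N') :
    ∃ N : Subgroup P, N ≤ K ∧ N.Normal ∧ A.adm N ∧ N' = N.subgroupOf K := by
  obtain ⟨M, h3, h4⟩ := h1
  refine ⟨N'.map K.subtype, Subgroup.map_subtype_le _, ⟨?_⟩,
    A.up (A.inf h3 hK) fun g hg => ⟨⟨g, hg.2⟩, h4 _ hg.1, rfl⟩,
    (Subgroup.comap_map_eq_self_of_injective K.subtype_injective _).symm⟩
  rintro _ ⟨a, ha, rfl⟩ g
  refine ⟨⟨g * a * g⁻¹, hn.conj_mem _ a.2 g⟩, h2 (ι g⁻¹) a _ ?_ ha, rfl⟩
  simp only [MonoidHom.comp_apply, Subgroup.coe_subtype, ← map_mul]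
  congr 1; group

variable {Q : ℕ} {al : P →* P} {U : Type} [Fintype U] {f : U → P}

lemma Cx.ctx1 (H : Cx A l Q al U f) (hK : A.adm K) (hn : K.Normal) :
    Ctx1 (sub A K) l (ι.comp K.subtype) := by
  refine ⟨fun N' h1 h2 n m hm hl => ?_, fun N' h1 h2 n m hm hl h hh T hT => ?_⟩
  · obtain ⟨N, h3, h4, h5, rfl⟩ := lev_lift hK hn h1.adm h2
    obtain ⟨h6, h7⟩ := H.free N h4 h5 n m hm hl
    exact ⟨Module.Free.of_equiv (hmE A h3 _).symm, Module.Finite.equiv (hmE A h3 _).symm⟩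
  · obtain ⟨N, h3, h4, h5, rfl⟩ := lev_lift hK hn h1.adm h2
    rw [← LinearMap.trace_conj' T (hmE A h3 _)]
    have := isAct_conj h3 (al := id) (g := 1) (by simp) hT
    rw [one_mul] at this
    exact H.tr0 N h4 h5 n m hm hl h hh (h1.pow h) _ this

/-- The twisted Frobenius on the normal subgroup. -/
def tw (al : P →* P) (hn : K.Normal) (hs : ∀ a ∈ K, al a ∈ K) (g : P) : K →* K where
  toFun a := ⟨g⁻¹ * al a * g, conj_mem' hn (hs _ a.2) g⟩
  map_one' := Subtype.ext (by simp)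
  map_mul' a b := Subtype.ext (by simp only [Subgroup.coe_mul, map_mul]; group)

lemma cnt_split [hn : K.Normal] [hN : N.Normal] [N.FiniteIndex] (h : N ≤ K)
    (hs : ∀ a ∈ K, al a ∈ K) (hs' : ∀ a ∈ N, al a ∈ N) (g b : P) (k : K)
    [Fintype {y : P ⧸ K // g⁻¹ * al y.out * b * y.out⁻¹ ∈ K}] :
    cnt N al (g * k) b = ∑ y : {y : P ⧸ K // g⁻¹ * al y.out * b * y.out⁻¹ ∈ K},
      cnt (N.subgroupOf K) (tw al hn hs g) k ⟨_, y.2⟩ := by
  have key : ∀ (n : K) (y : P) (hy : g⁻¹ * al y * b * y⁻¹ ∈ K),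
      (k * n)⁻¹ * (tw al hn hs g n * ⟨_, hy⟩) ∈ N.subgroupOf K ↔
        (g * k * (n * y))⁻¹ * (al (n * y) * b) ∈ N := fun n y hy => by
    rw [Subgroup.mem_subgroupOf, ← mul_inv_cancel_right (Subtype.val _) y, hN.mem_comm_iff]
    apply Iff.of_eq
    congr 1
    simp only [tw, Subgroup.coe_mul, Subgroup.coe_inv, MonoidHom.coe_mk, OneHom.coe_mk, map_mul]
    group
  have inv : ∀ y y' : P, (y : P ⧸ N) = y' → (g * k * y)⁻¹ * (al y * b) ∈ N →
      (g * k * y')⁻¹ * (al y' * b) ∈ N := fun y y' h1 h2 => by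
    rw [← QuotientGroup.eq] at h2 ⊢
    have h3 : ((al y : P) : P ⧸ N) = al y' := by
      rw [QuotientGroup.eq, ← map_inv, ← map_mul]; exact hs' _ (QuotientGroup.eq.1 h1)
    simp only [QuotientGroup.mk_mul, h1, h3] at h2 ⊢
    exact h2
  simp only [cnt]
  rw [← Nat.card_sigma]
  refine (Nat.card_eq_of_bijective (fun t => ⟨((t.2.1.out * t.1.1.out : P) : P ⧸ N),
    inv _ _ (QuotientGroup.out_eq' _).symm ((key _ _ t.1.2).1 t.2.2)⟩) ⟨?_, ?_⟩).symm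
  · rintro ⟨⟨y, hy⟩, n, hn1⟩ ⟨⟨y', hy'⟩, n', hn1'⟩ e
    have e1 := QuotientGroup.eq.1 (congrArg Subtype.val e)
    obtain rfl : y = y' := by
      have e2 := QuotientGroup.eq.2 (h e1)
      rwa [QuotientGroup.mk_mul, QuotientGroup.mk_mul, (QuotientGroup.eq_one_iff _).2 n.out.2,
        (QuotientGroup.eq_one_iff _).2 n'.out.2, one_mul, one_mul, QuotientGroup.out_eq',
        QuotientGroup.out_eq'] at e2
    obtain rfl : n = n' := by
      rw [← QuotientGroup.out_eq' n, ← QuotientGroup.out_eq' n', QuotientGroup.eq,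
        Subgroup.mem_subgroupOf]
      have e2 := hN.conj_mem _ e1 y.out
      simpa [mul_assoc] using e2
    rfl
  · rintro ⟨z, hz⟩
    have h1 : z.out * (z.out : P ⧸ K).out⁻¹ ∈ K := by
      rw [← QuotientGroup.eq_one_iff, QuotientGroup.mk_mul, QuotientGroup.mk_inv,
        QuotientGroup.out_eq', mul_inv_cancel]
    have h2 : (((((⟨_, h1⟩ : K) : K ⧸ N.subgroupOf K).out : K) * (z.out : P ⧸ K).out : P) :
        P ⧸ N) = z := by
      have e := QuotientGroup.eq.2 (Subgroup.mem_subgroupOf.1 (QuotientGroup.eq.1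
        (QuotientGroup.out_eq' ((⟨_, h1⟩ : K) : K ⧸ N.subgroupOf K))))
      rw [QuotientGroup.mk_mul, e, ← QuotientGroup.mk_mul, inv_mul_cancel_right,
        QuotientGroup.out_eq']
    have h3 : g⁻¹ * al (z.out : P ⧸ K).out * b * (z.out : P ⧸ K).out⁻¹ ∈ K := by
      have e := QuotientGroup.eq.2 (h hz)
      have e2 : ((al (z.out : P ⧸ K).out : P) : P ⧸ K) = al z.out := by
        rw [QuotientGroup.eq, ← map_inv, ← map_mul]; exact hs _ (out_mem _)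
      rw [← QuotientGroup.eq_one_iff]
      simp only [QuotientGroup.mk_mul, QuotientGroup.mk_inv, QuotientGroup.out_eq', e2,
        (QuotientGroup.eq_one_iff _).2 k.2, mul_one] at e ⊢
      rw [mul_assoc _ _ (b : P ⧸ K), ← e]; group
    exact ⟨⟨⟨_, h3⟩, _, (key _ _ h3).2 (inv _ _ ((QuotientGroup.out_eq' z).trans h2.symm) hz)⟩,
      Subtype.ext h2⟩

/-- The points of the twisted Frobenius on the cover. -/
abbrev Pt (K : Subgroup P) (al : P →* P) (f : U → P) (g : P) : Type :=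
  Σ x : U, {y : P ⧸ K // g⁻¹ * al y.out * f x * y.out⁻¹ ∈ K}

lemma Cx.trF (H : Cx A l Q al U f) (hK : A.adm K) [hn : K.Normal] (hs : ∀ a ∈ K, al a ∈ K)
    {ψ : G} (hψ : ∀ g, ψ * ι (al g) = ι g * ψ) (g : P)
    [∀ x, Fintype {y : P ⧸ K // g⁻¹ * al y.out * f x * y.out⁻¹ ∈ K}] :
    TrF (sub A K) l Q (ι.comp K.subtype) (tw al hn hs g)
      (fun t : Pt K al f g => (⟨_, t.2.2⟩ : K)) := by
  refine ⟨?_, fun N' h1 h2 n m hm hl h T hT => ?_⟩
  · rintro M ⟨M', h1, h2⟩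
    obtain ⟨N, h3, h4, h5⟩ := A.norm h1
    exact ⟨N.comap al, H.comap N h5, fun a ha => h2 _ (h3 (conj_mem' h4 ha g))⟩
  · obtain ⟨N, h3, h4, h5, rfl⟩ := lev_lift hK hn h1.adm h2
    have hs' : ∀ a ∈ N, al a ∈ N := fun a ha =>
      h2 ψ ⟨a, h3 ha⟩ ⟨al a, hs a (h3 ha)⟩ (hψ a) ha
    have := A.fin h5
    rw [← LinearMap.trace_conj' T (hmE A h3 _), H.tr N h4 h5 hs' n m hm hl _ _
      (isAct_conj h3 (fun _ => rfl) hT), Fintype.sum_sigma]
    simp only [cnt_split h3 hs hs', Nat.cast_sum]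

lemma tr_into {F W E : Type} [Field F] [AddCommGroup W] [Module F W] [AddCommGroup E] [Module F E]
    [FiniteDimensional F W] [FiniteDimensional F E] (j : E →ₗ[F] W) (hj : Function.Injective j)
    (S : Module.End F W) (Φ : Module.End F E) (h : ∀ w, ∃ e, j e = S w)
    (h' : ∀ e, S (j e) = j (Φ e)) : LinearMap.trace F W S = LinearMap.trace F E Φ := by
  obtain ⟨r, hr⟩ := j.exists_leftInverse_of_injective (LinearMap.ker_eq_bot.2 hj)
  have hr' : ∀ e, r (j e) = e := LinearMap.congr_fun hr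
  have h1 : S = j ∘ₗ (r ∘ₗ S) := LinearMap.ext fun w => by
    obtain ⟨e, he⟩ := h w
    simp only [LinearMap.comp_apply, ← he, hr']
  rw [h1, LinearMap.trace_comp_comm']
  congr 1
  exact LinearMap.ext fun e => by simp only [LinearMap.comp_apply, h', hr']

lemma euler {F V Z E E0 : Type} [Field F] [AddCommGroup V] [Module F V] [AddCommGroup Z]
    [Module F Z] [AddCommGroup E] [Module F E] [AddCommGroup E0] [Module F E0]
    [FiniteDimensional F V] [FiniteDimensional F Z] [FiniteDimensional F E]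
    [FiniteDimensional F E0] (Δ : V →ₗ[F] Z) (a : Module.End F V) (b : Module.End F Z)
    (hab : ∀ v, b (Δ v) = Δ (a v)) (j : E0 →ₗ[F] V) (hj : Function.Injective j)
    (Φ0 : Module.End F E0) (h1 : ∀ e, Δ (j e) = 0) (h2 : ∀ v, Δ v = 0 → ∃ e, j e = a v)
    (h3 : ∀ e, a (j e) = j (Φ0 e)) (r : Z →ₗ[F] E) (hr : Function.Surjective r)
    (Φ : Module.End F E) (h4 : ∀ v, r (Δ v) = 0) (h5 : ∀ z, r z = 0 → ∃ v, Δ v = b z)
    (h6 : ∀ z, r (b z) = Φ (r z)) :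
    LinearMap.trace F V a - LinearMap.trace F Z b =
      LinearMap.trace F E0 Φ0 - LinearMap.trace F E Φ := by
  have hk : ∀ w ∈ LinearMap.ker Δ, a w ∈ LinearMap.ker Δ := fun w hw => by
    rw [LinearMap.mem_ker, ← hab, LinearMap.mem_ker.1 hw, map_zero]
  have hR : ∀ z ∈ LinearMap.range Δ, b z ∈ LinearMap.range Δ := by
    rintro _ ⟨w, rfl⟩; exact ⟨a w, (hab w).symm⟩
  have hk' : ∀ z ∈ LinearMap.ker r, b z ∈ LinearMap.ker r := fun z hz => by
    rw [LinearMap.mem_ker, h6, LinearMap.mem_ker.1 hz, map_zero]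
  have hle : LinearMap.range Δ ≤ LinearMap.ker r := by rintro _ ⟨w, rfl⟩; exact h4 w
  rw [Fx.trace_ses (LinearMap.ker Δ).subtype Δ.rangeRestrict Subtype.val_injective
    Δ.surjective_rangeRestrict (by rw [LinearMap.exact_iff]; simp) (a.restrict hk) a
    (b.restrict hR) (by ext; rfl) (LinearMap.ext fun w => Subtype.ext (hab w).symm),
    Fx.trace_ses (LinearMap.ker r).subtype r Subtype.val_injective hr
    (LinearMap.exact_subtype_ker_map r) (b.restrict hk') b Φ (by ext; rfl) (LinearMap.ext h6),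
    tr_into (j.codRestrict _ h1) (fun x y h => hj (congrArg Subtype.val h)) (a.restrict hk) Φ0
      (fun w => (h2 w w.2).imp fun e he => Subtype.ext he) (fun e => Subtype.ext (h3 e)),
    tr_into (Submodule.inclusion hle) (Submodule.inclusion_injective hle) (b.restrict hk')
      (b.restrict hR) (fun z => ⟨⟨b z, h5 z z.2⟩, rfl⟩) (fun e => rfl)]
  ring

variable [Fact l.Prime] {d : Type} [Fintype d] [DecidableEq d] {ρ : G →* Matrix d d ℤ_[l]}

/-- Continuous admissible cocycles with values in the lattice. -/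
def Zc (A : Adm P) (ι : P →* G) (ρ : G →* Matrix d d ℤ_[l]) : Submodule ℤ_[l] (P → d → ℤ_[l]) where
  carrier := {c | (∀ g h, c (g * h) = c g + ρ (ι g) *ᵥ c h) ∧
    ∀ n : ℕ, ∃ M, A.adm M ∧ ∀ g ∈ M, ∀ a, (l : ℤ_[l]) ^ n ∣ c g a}
  zero_mem' := ⟨fun g h => by simp, fun n => ⟨⊤, A.top, fun g _ a => dvd_zero _⟩⟩
  add_mem' := by
    rintro c c' ⟨h1, h2⟩ ⟨h3, h4⟩
    refine ⟨fun g h => ?_, fun n => ?_⟩
    · simp only [Pi.add_apply, h1, h3, Matrix.mulVec_add]; abel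
    · obtain ⟨M, h5, h6⟩ := h2 n
      obtain ⟨M', h7, h8⟩ := h4 n
      exact ⟨M ⊓ M', A.inf h5 h7, fun g hg a => dvd_add (h6 g hg.1 a) (h8 g hg.2 a)⟩
  smul_mem' := by
    rintro a c ⟨h1, h2⟩
    refine ⟨fun g h => ?_, fun n => ?_⟩
    · simp only [Pi.smul_apply, h1, smul_add, Matrix.mulVec_smul]
    · obtain ⟨M, h5, h6⟩ := h2 n
      exact ⟨M, h5, fun g hg b => Dvd.dvd.mul_left (h6 g hg b) a⟩

omit [DecidableEq d] in
lemma dvd_mulVec {c : ℤ_[l]} (x : Matrix d d ℤ_[l]) {v : d → ℤ_[l]} (h : ∀ a, c ∣ v a) (a : d) :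
    c ∣ (x *ᵥ v) a := Finset.dvd_sum fun b _ => Dvd.dvd.mul_left (h b) _

omit [DecidableEq d] in
lemma dvd_mulVec' {c : ℤ_[l]} {x : Matrix d d ℤ_[l]} (h : ∀ a b, c ∣ x a b) (v : d → ℤ_[l])
    (a : d) : c ∣ (x *ᵥ v) a := Finset.dvd_sum fun b _ => Dvd.dvd.mul_right (h a b) _

/-- The admissibility half of `Fx.Rep`. -/
def RepA (A : Adm P) (ι : P →* G) (ρ : G →* Matrix d d ℤ_[l]) : Prop :=
  ∀ n : ℕ, ∃ M, A.adm M ∧ ∀ g ∈ M, ∀ a b, (l : ℤ_[l]) ^ n ∣ (ρ (ι g) - 1) a b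

lemma bd_mem (hρ : RepA A ι ρ) (w : d → ℤ_[l]) : (fun g => ρ (ι g) *ᵥ w - w) ∈ Zc A ι ρ := by
  refine ⟨fun g h => ?_, fun n => ?_⟩
  · simp only [map_mul, Matrix.mulVec_sub, Matrix.mulVec_mulVec]; abel
  · obtain ⟨M, h1, h2⟩ := hρ n
    refine ⟨M, h1, fun g hg a => ?_⟩
    have := dvd_mulVec' (h2 g hg) w a
    rwa [Matrix.sub_mulVec, Matrix.one_mulVec] at this

lemma fr_mem (hc : ∀ M, A.adm M → A.adm (M.comap al)) {ψ : G}
    (hψ : ∀ g, ψ * ι (al g) = ι g * ψ) (c : Zc A ι ρ) :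
    (fun g => ρ ψ *ᵥ c.1 (al g)) ∈ Zc A ι ρ := by
  refine ⟨fun g h => ?_, fun n => ?_⟩
  · simp only [map_mul, c.2.1, Matrix.mulVec_add, Matrix.mulVec_mulVec]
    rw [← map_mul, hψ, map_mul]
  · obtain ⟨M, h1, h2⟩ := c.2.2 n
    exact ⟨M.comap al, hc M h1, fun g hg => dvd_mulVec _ (h2 _ hg)⟩

/-- Restriction of cocycles. -/
def resZ (A : Adm P) (ι : P →* G) (ρ : G →* Matrix d d ℤ_[l]) (K : Subgroup P) (c : Zc A ι ρ) :
    Zc (sub A K) (ι.comp K.subtype) ρ :=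
  ⟨fun g => c.1 g, fun g h => c.2.1 g h, fun n => by
    obtain ⟨M, h1, h2⟩ := c.2.2 n
    exact ⟨M.subgroupOf K, ⟨M, h1, fun _ h => h⟩, fun g hg => h2 g hg⟩⟩

/-- Corestriction of cocycles. -/
noncomputable def corZ (ι : P →* G) (ρ : G →* Matrix d d ℤ_[l]) (hK : A.adm K) (hn : K.Normal)
    [Fintype (P ⧸ K)] : Zc (sub A K) (ι.comp K.subtype) ρ →ₗ[ℤ_[l]] Zc A ι ρ where
  toFun c := ⟨fun g => ∑ y : P ⧸ K, ρ (ι (g • y).out) *ᵥ c.1 ⟨_, out_smul_mem g y⟩, fun g h => by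
      beta_reduce
      rw [← Equiv.sum_comp (MulAction.toPerm h)
        (fun y : P ⧸ K => ρ (ι (g • y).out) *ᵥ c.1 ⟨_, out_smul_mem g y⟩), Matrix.mulVec_sum,
        ← Finset.sum_add_distrib]
      refine Finset.sum_congr rfl fun y _ => ?_
      have e : (⟨_, out_smul_mem (g * h) y⟩ : K) =
          ⟨_, out_smul_mem g (h • y)⟩ * ⟨_, out_smul_mem h y⟩ :=
        Subtype.ext (by simp only [Subgroup.coe_mul, mul_smul]; group)
      rw [e, c.2.1, Matrix.mulVec_add, Matrix.mulVec_mulVec, Matrix.mulVec_mulVec, mul_smul]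
      simp only [MulAction.toPerm_apply, MonoidHom.comp_apply, Subgroup.coe_subtype, ← map_mul,
        mul_inv_cancel_left], fun n => by
    obtain ⟨M, ⟨M', h1, h2⟩, h3⟩ := c.2.2 n
    obtain ⟨N, h4, h5, h6⟩ := A.norm h1
    refine ⟨N ⊓ K, A.inf h6 hK, fun g hg a => ?_⟩
    beta_reduce
    rw [Finset.sum_apply]
    refine Finset.dvd_sum fun y _ => dvd_mulVec _ (h3 _ (h2 _ (h4 ?_))) a
    show _ * _ ∈ N
    rw [smul_of_mem hn hg.2, ← mul_assoc]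
    exact conj_mem' h5 hg.1 _⟩
  map_add' c c' := Subtype.ext (funext fun g => by
    simp only [Submodule.coe_add, Pi.add_apply, Matrix.mulVec_add, Finset.sum_add_distrib])
  map_smul' a c := Subtype.ext (funext fun g => by
    simp only [Submodule.coe_smul, Pi.smul_apply, Matrix.mulVec_smul, RingHom.id_apply,
      Finset.smul_sum])

lemma cor_res (hρ : RepA A ι ρ) (hK : A.adm K) (hn : K.Normal) [Fintype (P ⧸ K)] (c : Zc A ι ρ) :
    corZ ι ρ hK hn (resZ A ι ρ K c) =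
      (Fintype.card (P ⧸ K) : ℤ_[l]) • c + ⟨_, bd_mem hρ (∑ y : P ⧸ K, c.1 y.out)⟩ := by
  refine Subtype.ext (funext fun g => ?_)
  show ∑ y : P ⧸ K, ρ (ι (g • y).out) *ᵥ c.1 ((g • y).out⁻¹ * (g * y.out)) =
    (Fintype.card (P ⧸ K) : ℤ_[l]) • c.1 g + (ρ (ι g) *ᵥ ∑ y : P ⧸ K, c.1 y.out - _)
  have h1 : ∀ y : P ⧸ K, ρ (ι (g • y).out) *ᵥ c.1 ((g • y).out⁻¹ * (g * y.out)) =
      c.1 g + (ρ (ι g) *ᵥ c.1 y.out - c.1 (g • y).out) := fun y => by
    have := c.2.1 (g • y).out ((g • y).out⁻¹ * (g * y.out))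
    rw [mul_inv_cancel_left, c.2.1] at this
    rw [← add_sub_assoc, this, add_sub_cancel_left]
  have h2 := Equiv.sum_comp (MulAction.toPerm g) (fun y : P ⧸ K => c.1 y.out)
  simp only [MulAction.toPerm_apply] at h2
  simp only [h1, Finset.sum_add_distrib, Finset.sum_sub_distrib, Finset.sum_const,
    Finset.card_univ, Matrix.mulVec_sum, h2, Nat.cast_smul_eq_nsmul]

lemma cor_bd (hρ : RepA A ι ρ) (hK : A.adm K) (hn : K.Normal) [Fintype (P ⧸ K)] (w : d → ℤ_[l]) :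
    corZ ι ρ hK hn (resZ A ι ρ K ⟨_, bd_mem hρ w⟩) =
      ⟨_, bd_mem hρ (∑ y : P ⧸ K, ρ (ι y.out) *ᵥ w)⟩ := by
  rw [cor_res hρ]
  refine Subtype.ext (funext fun g => ?_)
  simp only [Submodule.coe_add, Submodule.coe_smul, Pi.add_apply, Pi.smul_apply,
    Finset.sum_sub_distrib, Finset.sum_const, Finset.card_univ, Matrix.mulVec_sub,
    ← Nat.cast_smul_eq_nsmul ℤ_[l], Matrix.mulVec_smul, smul_sub]
  abel

lemma res_cor (hK : A.adm K) (hn : K.Normal) [Fintype (P ⧸ K)]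
    (c : Zc (sub A K) (ι.comp K.subtype) ρ) {g : P} (hg : g ∈ K) : (corZ ι ρ hK hn c).1 g =
      ∑ y : P ⧸ K, ρ (ι y.out) *ᵥ c.1 ⟨_, conj_mem' hn hg y.out⟩ := by
  refine Finset.sum_congr rfl fun y _ => ?_
  have e := smul_of_mem hn hg y
  rw [show (⟨_, out_smul_mem g y⟩ : K) = ⟨_, conj_mem' hn hg y.out⟩ from
    Subtype.ext (by show _ * _ = _ * _; rw [e, mul_assoc]), e]

variable {I : Type} [Fintype I] {γ : I → P} {D : I → P → Matrix d d ℤ_[l]}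

/-- The cocycle with given values on the generators. -/
noncomputable def foxZ (hD : ∀ j, Coc A (fun g => ρ (ι g)) (D j)) :
    (I × d → ℤ_[l]) →ₗ[ℤ_[l]] Zc A ι ρ where
  toFun z := ∑ t, ⟨fun g => D t g *ᵥ fun a => z (t, a), fun g h => by
    simp only [(hD t).mul, Matrix.add_mulVec, Matrix.mulVec_mulVec], fun n => by
    obtain ⟨M, h1, h2⟩ := (hD t).adm n
    exact ⟨M, h1, fun g hg => dvd_mulVec' ((red_eq_zero n _).1 (h2 g hg)) _⟩⟩
  map_add' z z' := by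
    rw [← Finset.sum_add_distrib]
    exact Finset.sum_congr rfl fun t _ => Subtype.ext (funext fun g => Matrix.mulVec_add _ _ _)
  map_smul' a z := by
    rw [Finset.smul_sum]
    exact Finset.sum_congr rfl fun t _ => Subtype.ext (funext fun g => Matrix.mulVec_smul _ _ _)

lemma foxZ_apply (hD : ∀ j, Coc A (fun g => ρ (ι g)) (D j)) (z : I × d → ℤ_[l]) (g : P) :
    (foxZ hD z).1 g = ∑ t, D t g *ᵥ fun a => z (t, a) := by
  simp only [foxZ, LinearMap.coe_mk, AddHom.coe_mk, AddSubmonoidClass.coe_finsetSum,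
    Finset.sum_apply]

lemma foxZ_ev [DecidableEq I] (hρ : Rep A l (ρ.comp ι)) (hγ : Gen A l γ)
    (hD : ∀ j, Coc A (fun g => ρ (ι g)) (D j)) (hd : ∀ i j, D j (γ i) = if i = j then 1 else 0)
    (c : Zc A ι ρ) : foxZ hD (fun s => c.1 (γ s.1) s.2) = c := by
  refine Subtype.ext (funext fun g => funext fun a => ?_)
  have h1 := Coc.univ hρ hγ hD (fun i x => by simp [hd]) (E := fun g => Matrix.of fun a _ => c.1 g a)
    ⟨fun g h => by ext a b; rw [c.2.1]; rfl, fun n => by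
      obtain ⟨M, h1, h2⟩ := c.2.2 n
      exact ⟨M, h1, fun g hg => (red_eq_zero n _).2 fun a _ => h2 g hg a⟩⟩ g
  have h2 := congr_fun (congr_fun h1 a) a
  rw [Matrix.sum_apply] at h2
  rw [foxZ_apply, Finset.sum_apply]
  exact h2.symm

lemma scale {X : Type} [Finite X] (z : X → ℚ_[l]) :
    ∃ (c : ℚ_[l]) (w : X → ℤ_[l]), c ≠ 0 ∧ z = c • (algebraMap ℤ_[l] ℚ_[l] ∘ w) := by
  obtain ⟨c, hc⟩ := IsLocalization.exist_integer_multiples_of_finite (nonZeroDivisors ℤ_[l]) z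
  choose w hw using hc
  have h : algebraMap ℤ_[l] ℚ_[l] c ≠ 0 :=
    (map_ne_zero_iff _ (IsFractionRing.injective _ _)).2 (nonZeroDivisors.coe_ne_zero c)
  refine ⟨(algebraMap ℤ_[l] ℚ_[l] c)⁻¹, w, inv_ne_zero h, funext fun x => ?_⟩
  rw [Pi.smul_apply, Function.comp_apply, hw, Algebra.smul_def, Algebra.smul_def]
  exact (inv_mul_cancel_left₀ h _).symm

lemma cast_mulVec {X Y : Type} [Fintype Y] (M : Matrix X Y ℤ_[l]) (w : Y → ℤ_[l]) :
    M.map (algebraMap ℤ_[l] ℚ_[l]) *ᵥ (algebraMap ℤ_[l] ℚ_[l] ∘ w) =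
      algebraMap ℤ_[l] ℚ_[l] ∘ (M *ᵥ w) := funext fun x => (RingHom.map_mulVec _ M w x).symm

lemma sum_pt [hn : K.Normal] [Fintype (P ⧸ K)] {ψ : G} (hψ : ∀ g, ψ * ι (al g) = ι g * ψ)
    [∀ g x, Fintype {y : P ⧸ K // g⁻¹ * al y.out * f x * y.out⁻¹ ∈ K}] :
    ∑ g : P ⧸ K, ∑ t : Pt K al f g.out,
      (ρ (ψ * ι g.out * ι (g.out⁻¹ * al t.2.1.out * f t.1 * t.2.1.out⁻¹))).trace =
      (Fintype.card (P ⧸ K) : ℤ_[l]) * ∑ x, (ρ (ψ * ι (f x))).trace := by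
  classical
  have h1 : ∀ g y b : P, (ρ (ψ * ι g * ι (g⁻¹ * al y * b * y⁻¹))).trace = (ρ (ψ * ι b)).trace := by
    intro g y b
    have : ψ * ι g * ι (g⁻¹ * al y * b * y⁻¹) = ι y * (ψ * ι b * (ι y)⁻¹) := by
      rw [← mul_assoc, ← mul_assoc, ← hψ]; simp only [map_mul, map_inv]; group
    rw [this, map_mul, Matrix.trace_mul_comm, ← map_mul, inv_mul_cancel_right]
  simp only [h1, Fintype.sum_sigma, Finset.sum_const, Finset.card_univ, nsmul_eq_mul]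
  rw [Finset.sum_comm, Finset.mul_sum]
  refine Finset.sum_congr rfl fun x _ => ?_
  rw [← Finset.sum_mul]
  congr 1
  have h2 : ∀ g y : P ⧸ K, g.out⁻¹ * al y.out * f x * y.out⁻¹ ∈ K ↔
      g = (al y.out * f x * y.out⁻¹ : P) := fun g y => by
    rw [mul_assoc _ _ (f x), mul_assoc g.out⁻¹, ← QuotientGroup.eq, QuotientGroup.out_eq']
  simp only [Fintype.card_subtype, Finset.card_filter, h2, Nat.cast_sum]
  rw [Finset.sum_comm]
  simp

theorem tf_sub (H : Cx A l Q al U f) (hK : A.adm K) [hn : K.Normal] (hs : ∀ a ∈ K, al a ∈ K)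
    {ψ : G} (hψ : ∀ g, ψ * ι (al g) = ι g * ψ) (hρ : RepA A ι ρ)
    (h1 : ∀ g ∈ K, ∀ a b, (l : ℤ_[l]) ∣ (ρ (ι g) - 1) a b)
    {E : Type} [AddCommGroup E] [Module ℚ_[l] E] [FiniteDimensional ℚ_[l] E]
    (Φ : Module.End ℚ_[l] E) (Θ : Zc A ι ρ →+ E)
    (hΘ : ∀ (a : ℤ_[l]) c, Θ (a • c) = (a : ℚ_[l]) • Θ c)
    (hsp : Submodule.span ℚ_[l] (Set.range Θ) = ⊤)
    (hker : ∀ c, Θ c = 0 ↔ ∃ (n : ℕ) (w : d → ℤ_[l]), ∀ g,
      (l : ℤ_[l]) ^ n • c.1 g = ρ (ι g) *ᵥ w - w)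
    (hΦ : ∀ c c' : Zc A ι ρ, (∀ g, c'.1 g = ρ ψ *ᵥ c.1 (al g)) → Θ c' = Φ (Θ c))
    {E0 : Type} [AddCommGroup E0] [Module ℚ_[l] E0] [FiniteDimensional ℚ_[l] E0]
    (Φ0 : Module.End ℚ_[l] E0) (inj : E0 →ₗ[ℚ_[l]] (d → ℚ_[l])) (hinj : Function.Injective inj)
    (hinv : ∀ v, (∃ e, inj e = v) ↔ ∀ g, (ρ (ι g)).map (algebraMap ℤ_[l] ℚ_[l]) *ᵥ v = v)
    (hΦ0 : ∀ e, inj (Φ0 e) = (ρ ψ).map (algebraMap ℤ_[l] ℚ_[l]) *ᵥ inj e) :
    ∑ x : U, ((ρ (ψ * ι (f x))).trace : ℚ_[l]) =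
      Q * (LinearMap.trace ℚ_[l] E0 Φ0 - LinearMap.trace ℚ_[l] E Φ) := by
  classical
  have := A.fin hK
  have : Fintype (P ⧸ K) := Fintype.ofFinite _
  obtain ⟨I, _, γ, hI, hγ⟩ : ∃ (I : Type) (_ : Fintype I) (γ : I → K),
      Fintype.card I = Module.finrank (ZMod l) ((sub A K).Hm ⊤ (ZMod l)) ∧ Gen (sub A K) l γ := by
    obtain ⟨I, hb, hI, hγ⟩ := exists_gen1 (H.ctx1 (ι := ι) hK hn)
    have := hb.fintype
    exact ⟨I, this, _, by rw [← hI, Nat.card_eq_fintype_card], hγ⟩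
  have hρ' : Rep (sub A K) l (ρ.comp (ι.comp K.subtype)) := ⟨fun g => h1 g g.2, fun n => by
    obtain ⟨M, h2, h3⟩ := hρ n
    exact ⟨M.subgroupOf K, ⟨M, h2, fun _ h => h⟩, fun g hg => h3 g hg⟩⟩
  obtain ⟨D, hD, hd, -, htr⟩ := fox_lim1 (H.ctx1 hK hn) hγ hI hρ'
  set κ := algebraMap ℤ_[l] ℚ_[l] with hκ
  have hκi : Function.Injective κ := IsFractionRing.injective _ _
  set m := Fintype.card (P ⧸ K)
  have hm : (m : ℚ_[l]) ≠ 0 := Nat.cast_ne_zero.2 Fintype.card_ne_zero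
  let C := corZ ι ρ hK hn ∘ₗ foxZ hD
  let Δ : Matrix (I × d) d ℤ_[l] := Matrix.of fun s a => (ρ (ι (γ s.1)) - 1) s.2 a
  let a : Matrix d d ℤ_[l] := ∑ y : P ⧸ K, ρ (ψ * ι y.out)
  let b : Matrix (I × d) (I × d) ℤ_[l] := Matrix.of fun s t =>
    ∑ y : P ⧸ K, (ρ (ψ * ι y.out) * D t.1 (tw al hn hs y.out (γ s.1))) s.2 t.2
  have hΔ : ∀ w, Δ *ᵥ w = fun s => (ρ (ι (γ s.1)) *ᵥ w - w) s.2 := fun w => funext fun s => by
    show ((ρ (ι (γ s.1)) - 1) *ᵥ w) s.2 = _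
    rw [Matrix.sub_mulVec, Matrix.one_mulVec]
  have ha : ∀ w, a *ᵥ w = ρ ψ *ᵥ ∑ y : P ⧸ K, ρ (ι y.out) *ᵥ w := fun w => by
    simp only [a, Matrix.sum_mulVec, Matrix.mulVec_sum, Matrix.mulVec_mulVec, map_mul]
  have hb : ∀ z, b *ᵥ z = fun s => (ρ ψ *ᵥ (C z).1 (al (γ s.1))) s.2 := fun z => funext fun s => by
    rw [LinearMap.comp_apply, res_cor hK hn _ (hs _ (γ s.1).2)]
    simp only [foxZ_apply, Matrix.mulVec_sum, Matrix.mulVec_mulVec, Finset.sum_apply, ← mul_assoc,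
      ← map_mul]
    show ∑ t, (∑ y : P ⧸ K, _) * z t = _
    simp only [Finset.sum_mul]
    rw [Finset.sum_comm]
    exact Finset.sum_congr rfl fun y _ => Fintype.sum_prod_type _
  have hbd : ∀ w, Θ ⟨_, bd_mem hρ w⟩ = 0 := fun w => (hker _).2 ⟨0, w, fun g => by simp⟩
  have hev : ∀ c : Zc A ι ρ, C (fun s => c.1 (γ s.1) s.2) = corZ ι ρ hK hn (resZ A ι ρ K c) :=
    fun c => congrArg (corZ ι ρ hK hn) (foxZ_ev hρ' hγ hD hd (resZ A ι ρ K c))
  have hC : ∀ c : Zc A ι ρ, Θ (C fun s => c.1 (γ s.1) s.2) = (m : ℚ_[l]) • Θ c := fun c => by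
    rw [hev, cor_res hρ, map_add, hbd, add_zero, hΘ, PadicInt.coe_natCast]
  have hCΔ : ∀ w, C (Δ *ᵥ w) = ⟨_, bd_mem hρ (∑ y : P ⧸ K, ρ (ι y.out) *ᵥ w)⟩ := fun w => by
    rw [hΔ, ← cor_bd hρ hK hn, ← hev]
  have hfr : ∀ (w : d → ℤ_[l]) g, ρ ψ *ᵥ (ρ (ι (al g)) *ᵥ w - w) =
      ρ (ι g) *ᵥ (ρ ψ *ᵥ w) - ρ ψ *ᵥ w := fun w g => by
    simp only [Matrix.mulVec_sub, Matrix.mulVec_mulVec, ← map_mul, hψ]
  let r : (I × d → ℚ_[l]) →ₗ[ℚ_[l]] E :=
    (Pi.basisFun ℚ_[l] (I × d)).constr ℚ_[l] fun s => Θ (C (Pi.single s 1))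
  have hr : ∀ z, r (κ ∘ z) = Θ (C z) := fun z => by
    conv_rhs => rw [← Finset.univ_sum_single z]
    simp only [r, Module.Basis.constr_apply_fintype, Pi.basisFun_equivFun, LinearEquiv.refl_apply,
      map_sum, Function.comp_apply]
    refine Finset.sum_congr rfl fun s _ => ?_
    rw [show Pi.single s (z s) = z s • (Pi.single s 1 : I × d → ℤ_[l]) by
      rw [← Pi.single_smul', smul_eq_mul, mul_one], map_smul, hΘ]
    rfl
  have key := euler (Δ.map κ).mulVecLin (a.map κ).mulVecLin (b.map κ).mulVecLin (fun v => ?_)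
    inj hinj ((m : ℚ_[l]) • Φ0) (fun e => ?_) (fun v hv => ?_) (fun e => ?_) r ?_
    ((m : ℚ_[l]) • Φ) (fun v => ?_) (fun z hz => ?_) (fun z => ?_)
  · have h2 := fun y : P ⧸ K => htr 1 (fun g h => by
      rw [one_mul, one_mul, map_mul, map_mul, Matrix.trace_mul_comm]) (ψ * ι y.out)
      (tw al hn hs y.out) Q _ _ (fun g => by
        show ψ * ι y.out * ι (y.out⁻¹ * al g * y.out) = ι g * (ψ * ι y.out)
        rw [← mul_assoc, ← hψ]; simp only [map_mul, map_inv]; group) (H.trF hK hs hψ y.out)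
    have h3 := Finset.sum_congr rfl fun y (_ : y ∈ Finset.univ) => h2 y
    simp only [one_mul, MonoidHom.comp_apply, Subgroup.coe_subtype] at h3
    rw [Finset.sum_sub_distrib, sum_pt hψ, ← Finset.mul_sum, ← Finset.mul_sum,
      ← Matrix.trace_sum] at h3
    have h4 : b.trace = ∑ y : P ⧸ K, ∑ i,
        (ρ (ψ * ι y.out) * D i (tw al hn hs y.out (γ i))).trace := by
      simp only [b, Matrix.trace, Matrix.diag_apply, Matrix.of_apply]
      rw [Finset.sum_comm]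
      exact Finset.sum_congr rfl fun y _ => Fintype.sum_prod_type _
    have h5 := congrArg κ (h4 ▸ h3)
    rw [← Matrix.toLin'_apply', ← Matrix.toLin'_apply', Matrix.trace_toLin'_eq,
      Matrix.trace_toLin'_eq, ← AddMonoidHom.map_trace, ← AddMonoidHom.map_trace, map_smul,
      map_smul, smul_eq_mul, smul_eq_mul] at key
    simp only [map_mul κ, map_sub, map_natCast, map_sum κ] at h5
    refine mul_left_cancel₀ hm ?_
    show (m : ℚ_[l]) * ∑ x, κ _ = _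
    linear_combination h5 + (Q : ℚ_[l]) * key
  · obtain ⟨c, w, -, rfl⟩ := scale v
    simp only [map_smul, Matrix.mulVecLin_apply, cast_mulVec, hκ]
    rw [hb, hCΔ, hΔ, ha]
    simp only [hfr]
  · funext s
    show ((ρ (ι (γ s.1)) - 1).map κ *ᵥ inj e) s.2 = 0
    rw [Matrix.map_sub _ (map_sub κ), Matrix.map_one _ (map_zero κ) (map_one κ), Matrix.sub_mulVec,
      Matrix.one_mulVec, (hinv _).1 ⟨e, rfl⟩, sub_self, Pi.zero_apply]
  · obtain ⟨c, w, hc, rfl⟩ := scale v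
    simp only [map_smul, Matrix.mulVecLin_apply, cast_mulVec, hκ] at hv ⊢
    have h2 : Δ *ᵥ w = 0 := funext fun s => hκi (by
      rw [Pi.zero_apply, map_zero]; exact congr_fun ((smul_eq_zero.1 hv).resolve_left hc) s)
    have h3 := hCΔ w
    rw [h2, map_zero] at h3
    obtain ⟨e, he⟩ := (hinv (κ ∘ ∑ y : P ⧸ K, ρ (ι y.out) *ᵥ w)).2 fun g => by
      rw [cast_mulVec, sub_eq_zero.1 (congr_fun (congrArg Subtype.val h3) g).symm]
    exact ⟨c • Φ0 e, by rw [map_smul, hΦ0, he, cast_mulVec, ha]⟩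
  · have h2 : a.map κ = ∑ y : P ⧸ K, (ρ ψ).map κ * (ρ (ι y.out)).map κ := by
      simp only [a, map_mul ρ, ← Matrix.map_mul]
      exact map_sum κ.mapMatrix _ _
    rw [Matrix.mulVecLin_apply, h2, LinearMap.smul_apply, map_smul, hΦ0]
    simp only [Matrix.sum_mulVec, ← Matrix.mulVec_mulVec, (hinv _).1 ⟨e, rfl⟩, Finset.sum_const,
      Finset.card_univ, Nat.cast_smul_eq_nsmul, m]
  · rw [← LinearMap.range_eq_top, eq_top_iff, ← hsp, Submodule.span_le]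
    rintro _ ⟨c, rfl⟩
    exact ⟨(m : ℚ_[l])⁻¹ • (κ ∘ fun s => c.1 (γ s.1) s.2), by
      rw [map_smul, hr, hC, inv_smul_smul₀ hm]⟩
  · obtain ⟨c, w, -, rfl⟩ := scale v
    rw [map_smul, map_smul, Matrix.mulVecLin_apply, cast_mulVec, hr, hCΔ, hbd, smul_zero]
  · obtain ⟨c, w, hc, rfl⟩ := scale z
    rw [map_smul, hr] at hz
    obtain ⟨n, v, hv⟩ := (hker _).1 ((smul_eq_zero.1 hz).resolve_left hc)
    have h2 : Δ *ᵥ (ρ ψ *ᵥ v) = (l : ℤ_[l]) ^ n • (b *ᵥ w) := by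
      rw [hΔ, hb]
      funext s
      rw [← hfr, ← hv, Matrix.mulVec_smul]; rfl
    have h3 : (l : ℚ_[l]) ^ n ≠ 0 := pow_ne_zero _ (Nat.cast_ne_zero.2 (Fact.out : l.Prime).ne_zero)
    refine ⟨c • ((l : ℚ_[l]) ^ n)⁻¹ • (κ ∘ (ρ ψ *ᵥ v)), ?_⟩
    simp only [map_smul, Matrix.mulVecLin_apply, cast_mulVec, hκ, h2]
    congr 1
    funext s
    simp only [Pi.smul_apply, Function.comp_apply, smul_eq_mul, map_mul, map_pow, map_natCast]
    exact inv_mul_cancel_left₀ h3 _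
  · obtain ⟨c, w, -, rfl⟩ := scale z
    rw [map_smul, map_smul, map_smul, map_smul, Matrix.mulVecLin_apply, cast_mulVec, hr, hr, hb,
      hC ⟨_, fr_mem H.comap hψ (C w)⟩, hΦ (C w) _ fun _ => rfl, LinearMap.smul_apply]

/-- The trace formula on the base curve, for a lattice representation with admissible congruence
kernels: `E0` are the invariants and `E` is the first cohomology. -/
theorem tf (H : Cx A l Q al U f) {ψ : G} (hψ : ∀ g, ψ * ι (al g) = ι g * ψ) (hρ : RepA A ι ρ)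
    {E : Type} [AddCommGroup E] [Module ℚ_[l] E] [FiniteDimensional ℚ_[l] E]
    (Φ : Module.End ℚ_[l] E) (Θ : Zc A ι ρ →+ E)
    (hΘ : ∀ (a : ℤ_[l]) c, Θ (a • c) = (a : ℚ_[l]) • Θ c)
    (hsp : Submodule.span ℚ_[l] (Set.range Θ) = ⊤)
    (hker : ∀ c, Θ c = 0 ↔ ∃ (n : ℕ) (w : d → ℤ_[l]), ∀ g,
      (l : ℤ_[l]) ^ n • c.1 g = ρ (ι g) *ᵥ w - w)
    (hΦ : ∀ c c' : Zc A ι ρ, (∀ g, c'.1 g = ρ ψ *ᵥ c.1 (al g)) → Θ c' = Φ (Θ c))
    {E0 : Type} [AddCommGroup E0] [Module ℚ_[l] E0] [FiniteDimensional ℚ_[l] E0]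
    (Φ0 : Module.End ℚ_[l] E0) (inj : E0 →ₗ[ℚ_[l]] (d → ℚ_[l])) (hinj : Function.Injective inj)
    (hinv : ∀ v, (∃ e, inj e = v) ↔ ∀ g, (ρ (ι g)).map (algebraMap ℤ_[l] ℚ_[l]) *ᵥ v = v)
    (hΦ0 : ∀ e, inj (Φ0 e) = (ρ ψ).map (algebraMap ℤ_[l] ℚ_[l]) *ᵥ inj e) :
    ∑ x : U, ((ρ (ψ * ι (f x))).trace : ℚ_[l]) =
      Q * (LinearMap.trace ℚ_[l] E0 Φ0 - LinearMap.trace ℚ_[l] E Φ) := by
  have hmem : ∀ g, g ∈ (((red 1).toMonoidHom.comp ρ).comp ι).ker ↔ red 1 (ρ (ι g)) = 1 :=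
    fun g => Iff.rfl
  obtain ⟨M, h1, h2⟩ := hρ 1
  refine tf_sub (K := (((red 1).toMonoidHom.comp ρ).comp ι).ker) H
    (A.up h1 fun g hg => (hmem g).2 ((dvd_iff_red 1 _).1 (h2 g hg))) (fun a ha => ?_) hψ hρ
    (fun g hg => by simpa only [pow_one] using (dvd_iff_red 1 _).2 ((hmem g).1 hg))
    Φ Θ hΘ hsp hker hΦ Φ0 inj hinj hinv hΦ0
  rw [hmem, ← inv_mul_cancel_left ψ (ι (al a)), hψ, map_mul, map_mul, map_mul, map_mul,
    (hmem a).1 ha, one_mul, ← map_mul, ← map_mul, inv_mul_cancel, map_one, map_one]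

end Pool.Agent.MP_855f4c_ag.E.TFH

end

section

namespace Pool.Agent.MP_855f4c_ag.E.TFD

open Pool.Agent.MP_855f4c_ag.Fx Matrix TFH

universe u v

variable {l : ℕ} [Fact l.Prime]

/-- Integral coordinates on `V M` and on the characters of `M`. -/
structure Lat (l : ℕ) [Fact l.Prime] (M : Type u) [AddCommGroup M] where
  d : ℕ
  c : ℕ
  B : (Fin d → ℚ_[l]) ≃ₗ[ℚ_[l]] V l M
  mat : AddMonoid.End M →+* Matrix (Fin d) (Fin d) ℤ_[l]
  ch : (M →+ QZ l) →+ Fin d → ℤ_[l]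
  sec : (Fin d → ℤ_[l]) →+ M →+ QZ l
  ev_B : ∀ x, ev l M (B x) = 0 ↔ ∀ i, ‖x i‖ ≤ 1
  B_mat : ∀ (g : AddMonoid.End M) v,
    B ((mat g).map (algebraMap ℤ_[l] ℚ_[l]) *ᵥ v) = Vm l g (B v)
  dvd : ∀ (g : AddMonoid.End M) (n : ℕ), (∀ m, l ^ n • m = 0 → g m = 0) →
    ∀ a b, (l : ℤ_[l]) ^ n ∣ mat g a b
  ch_spec : ∀ f i, (ch f i : ℚ_[l]) = kap l M f (B (Pi.single i 1))
  surj : Function.Surjective ch
  sec_ch : ∀ f, sec (ch f) = l ^ c • f

variable {M : Type u} [AddCommGroup M]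

theorem exLat (h : Cof l M) : Nonempty (Lat l M) := by
  obtain ⟨d, E, mat, h1, h2, h3⟩ := h.lat
  obtain ⟨c, hc⟩ := h.kap_ker
  have hb : ∀ b, ev l M (E (Pi.single b 1)) = 0 := fun b => (h1 _).2 fun i => by
    rw [Pi.single_apply]; split_ifs <;> simp
  let ch : (M →+ QZ l) →+ Fin d → ℤ_[l] := AddMonoidHom.mk'
    (fun f i => ⟨kap l M f (E (Pi.single i 1)), (kap_range _).1 ⟨f, rfl⟩ _ (hb i)⟩)
    fun f g => funext fun i => Subtype.ext (LinearMap.congr_fun (map_add (kap l M) f g) _)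
  have hs : Function.Surjective ch := fun w => by
    obtain ⟨f, hf⟩ := (kap_range (((Pi.basisFun ℚ_[l] (Fin d)).constr ℚ_[l]
      fun i => (w i : ℚ_[l])) ∘ₗ E.symm.toLinearMap)).2 fun v hv => by
        obtain ⟨x, rfl⟩ := E.surjective v
        simp only [LinearMap.comp_apply, LinearEquiv.coe_coe, LinearEquiv.symm_apply_apply,
          Module.Basis.constr_apply_fintype, Pi.basisFun_equivFun, LinearEquiv.refl_apply]
        refine IsUltrametricDist.norm_sum_le_of_forall_le_of_nonneg zero_le_one fun i _ => ?_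
        rw [smul_eq_mul, norm_mul]
        exact mul_le_one₀ ((h1 x).1 hv i) (norm_nonneg _) (w i).2
    refine ⟨f, funext fun i => Subtype.ext ?_⟩
    show kap l M f (E (Pi.single i 1)) = w i
    rw [hf, LinearMap.comp_apply, LinearEquiv.coe_coe, LinearEquiv.symm_apply_apply,
      ← Pi.basisFun_apply, Module.Basis.constr_basis]
  have hk : ∀ f g, ch f = ch g → l ^ c • f = l ^ c • g := fun f g e => by
    refine sub_eq_zero.1 ((nsmul_sub f g _).symm.trans (hc _ ?_))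
    refine ((Pi.basisFun ℚ_[l] (Fin d)).map E).ext fun i => ?_
    rw [Module.Basis.map_apply, Pi.basisFun_apply, map_sub]
    exact sub_eq_zero.2 (congrArg Subtype.val (congr_fun e i))
  choose s hs' using hs
  exact ⟨⟨d, c, E, mat, ch, AddMonoidHom.mk' (fun w => l ^ c • s w) fun w w' =>
    (hk _ (s w + s w') (by rw [map_add ch, hs', hs', hs'])).trans (nsmul_add (s w) (s w') (l ^ c)), h1, h2, h3, fun _ _ => rfl,
    fun w => ⟨_, hs' w⟩, fun f => hk _ _ (hs' _)⟩⟩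

namespace Lat

variable (L : Lat l M)

lemma tr_mat (g : AddMonoid.End M) : ((L.mat g).trace : ℚ_[l]) = tr l g := by
  show _ = LinearMap.trace ℚ_[l] (V l M) (Vm l g)
  rw [← LinearMap.trace_conj' (Vm l g) L.B.symm]
  have : L.B.symm.conj (Vm l g) = Matrix.toLin' ((L.mat g).map (algebraMap ℤ_[l] ℚ_[l])) :=
    LinearMap.ext fun v => L.B.injective (by
      rw [Matrix.toLin'_apply, L.B_mat]; simp)
  rw [this, Matrix.trace_toLin'_eq, ← AddMonoidHom.map_trace]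
  rfl

lemma kap_B (f : M →+ QZ l) (x : Fin L.d → ℚ_[l]) :
    kap l M f (L.B x) = ∑ i, x i * L.ch f i := by
  conv_lhs => rw [pi_eq_sum_univ' x]
  simp only [map_sum, map_smul, L.ch_spec, smul_eq_mul]

lemma ch_comp (f : M →+ QZ l) (g : AddMonoid.End M) :
    L.ch (f.comp g) = (L.mat g)ᵀ *ᵥ L.ch f := funext fun i => Subtype.ext (by
  rw [L.ch_spec]
  show kap l M f (Vm l g _) = _
  rw [← L.B_mat, L.kap_B, Matrix.mulVec_single_one]
  exact (map_sum (algebraMap ℤ_[l] ℚ_[l]) (fun j => L.mat g j i * L.ch f j) _).symm)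

lemma ch_mul (a : ℤ_[l]) (f : M →+ QZ l) : L.ch ((QZ.mul l a).comp f) = a • L.ch f :=
  funext fun i => Subtype.ext (by
    rw [L.ch_spec, kap_mul, LinearMap.smul_apply, ← L.ch_spec]; rfl)

lemma ch_sec (w : Fin L.d → ℤ_[l]) : L.ch (L.sec w) = l ^ L.c • w := by
  obtain ⟨f, rfl⟩ := L.surj w
  rw [L.sec_ch]; exact map_nsmul L.ch _ f

lemma sec_mat (g : AddMonoid.End M) (w : Fin L.d → ℤ_[l]) :
    L.sec ((L.mat g)ᵀ *ᵥ w) = (L.sec w).comp g := by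
  obtain ⟨f, rfl⟩ := L.surj w
  rw [← L.ch_comp, L.sec_ch, L.sec_ch]; rfl

lemma ch_ker {f : M →+ QZ l} (h : L.ch f = 0) : l ^ L.c • f = 0 := by
  rw [← L.sec_ch, h, map_zero]

lemma sec_dvd {n : ℕ} {w : Fin L.d → ℤ_[l]} (h : ∀ i, (l : ℤ_[l]) ^ n ∣ w i) {m : M}
    (hm : l ^ n • m = 0) : L.sec w m = 0 := by
  choose w' hw using h
  have : w = l ^ n • w' := funext fun i => by
    rw [hw, Pi.smul_apply, nsmul_eq_mul, Nat.cast_pow]
  rw [this, map_nsmul, AddMonoidHom.nsmul_apply, ← map_nsmul, hm, map_zero]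

lemma dvd_ch {n : ℕ} {f : M →+ QZ l} (h : ∀ m, l ^ n • m = 0 → f m = 0) (i : Fin L.d) :
    (l : ℤ_[l]) ^ n ∣ L.ch f i := by
  have hb : ev l M (L.B (Pi.single i 1)) = 0 := (L.ev_B _).2 fun j => by
    rw [Pi.single_apply]; split_ifs <;> simp
  have h1 := h _ ((V.pow_smul (L.B (Pi.single i 1)) n 1).trans hb)
  rw [kap_spec, QZ.mk_zero, one_mul, mul_comm, ← L.ch_spec] at h1
  obtain ⟨z, hz⟩ := norm_inv_pow n h1
  exact ⟨z, Subtype.ext (by simpa using hz)⟩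

variable {G : Type} [Group G]

/-- The lattice representation on the dual of `V M`. -/
noncomputable def rho (σ : G →* AddMonoid.End M) : G →* Matrix (Fin L.d) (Fin L.d) ℤ_[l] where
  toFun g := (L.mat (σ g⁻¹))ᵀ
  map_one' := by rw [inv_one, map_one, map_one, Matrix.transpose_one]
  map_mul' g h := by rw [_root_.mul_inv_rev, map_mul, map_mul, Matrix.transpose_mul]

lemma rho_apply (σ : G →* AddMonoid.End M) (g : G) : L.rho σ g = (L.mat (σ g⁻¹))ᵀ := rfl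

lemma tr_rho (σ : G →* AddMonoid.End M) (g : G) :
    ((L.rho σ g).trace : ℚ_[l]) = tr l (σ g⁻¹) := by
  rw [rho_apply, Matrix.trace_transpose, L.tr_mat]

end Lat

variable {P : Type} [Group P] {A : Adm P} {G : Type} [Group G] {ι : P →* G}

omit [Fact l.Prime] in
lemma adm_fin {X : Type u} {S : Set X} (hS : S.Finite) (p : P → X → Prop)
    (h : ∀ m, ∃ N, A.adm N ∧ ∀ g ∈ N, p g m) : ∃ N, A.adm N ∧ ∀ g ∈ N, ∀ m ∈ S, p g m := by
  induction S, hS using Set.Finite.induction_on with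
  | empty => exact ⟨⊤, A.top, fun _ _ _ h => h.elim⟩
  | @insert a s _ _ ih =>
    obtain ⟨N, h1, h2⟩ := ih
    obtain ⟨N', h3, h4⟩ := h a
    refine ⟨N ⊓ N', A.inf h1 h3, fun g hg m hm => ?_⟩
    rcases hm with rfl | hm
    · exact h4 g hg.2
    · exact h2 g hg.1 m hm

lemma Lat.repA (L : Lat l M) (hM : Cof l M) {σ : G →* AddMonoid.End M}
    (hσ : ∀ m, ∃ N, A.adm N ∧ ∀ g ∈ N, σ (ι g) m = m) : RepA A ι (L.rho σ) := fun n => by
  obtain ⟨N, h1, h2⟩ := adm_fin (hM.fin n) _ hσ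
  refine ⟨N, h1, fun g hg a b => ?_⟩
  have := L.dvd (σ (ι g⁻¹) - 1) n (fun m hm => sub_eq_zero.2 (h2 _ (N.inv_mem hg) m hm)) b a
  rw [map_sub, map_one, map_inv] at this
  rw [Lat.rho_apply, ← Matrix.transpose_one, ← Matrix.transpose_sub]
  exact this

/-- Additive maps into characters of a torsion group are `ℤ_l`-linear. -/
lemma lin_of_add {X : Type} [AddCommGroup X] [Module ℤ_[l] X] (hM : ∀ m : M, ∃ n, l ^ n • m = 0)
    (F : X →+ M →+ QZ l) (a : ℤ_[l]) (x : X) : F (a • x) = (QZ.mul l a).comp (F x) := by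
  ext m
  obtain ⟨n, hn⟩ := hM m
  obtain ⟨b, hb⟩ := Ideal.mem_span_singleton.1 (PadicInt.appr_spec n a)
  have h1 : ∀ y, l ^ n • F y m = 0 := fun y => by rw [← map_nsmul, hn, map_zero]
  have h2 : ∀ (k : ℕ) (z : QZ l), QZ.mul l k z = k • z := fun k z => by
    obtain ⟨y, rfl⟩ := QuotientAddGroup.mk_surjective z
    rw [QZ.mul_mk, ← QuotientAddGroup.mk_nsmul, nsmul_eq_mul, PadicInt.coe_natCast]
  have h3 : ∀ (a b c : ℤ_[l]) (z : QZ l), QZ.mul l (a + b * c) z =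
      QZ.mul l a z + QZ.mul l c (QZ.mul l b z) := fun a b c z => by
    obtain ⟨y, rfl⟩ := QuotientAddGroup.mk_surjective z
    simp only [QZ.mul_mk, ← QuotientAddGroup.mk_add, PadicInt.coe_add, PadicInt.coe_mul]
    congr 1; ring
  rw [AddMonoidHom.comp_apply, sub_eq_iff_eq_add'.1 hb, ← Nat.cast_pow, h3, h2, h2, h1, map_zero,
    add_smul, mul_smul, Nat.cast_smul_eq_nsmul, Nat.cast_smul_eq_nsmul, map_add, map_nsmul,
    map_nsmul, AddMonoidHom.add_apply, AddMonoidHom.nsmul_apply, AddMonoidHom.nsmul_apply, h1]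

lemma cast_inj {X : Type} {w w' : X → ℤ_[l]}
    (h : algebraMap ℤ_[l] ℚ_[l] ∘ w = algebraMap ℤ_[l] ℚ_[l] ∘ w') : w = w' :=
  funext fun x => Subtype.ext (congr_fun h x)

lemma cast_nsmul {X : Type} (n : ℕ) (w : X → ℤ_[l]) :
    algebraMap ℤ_[l] ℚ_[l] ∘ (n • w) = (n : ℚ_[l]) • (algebraMap ℤ_[l] ℚ_[l] ∘ w) :=
  funext fun x => by simp

lemma nsmul_zero_iff {X : Type} {n : ℕ} {w : X → ℤ_[l]} : l ^ n • w = 0 ↔ w = 0 :=
  ⟨fun h => (smul_eq_zero.1 h).resolve_left (pow_ne_zero _ (Fact.out : l.Prime).ne_zero),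
    fun h => by rw [h, smul_zero]⟩

variable {Mu : Type} [AddCommGroup Mu] {H : Type u} [AddCommGroup H] {σ : G →* AddMonoid.End M}
  {φ : G} {al : P →* P} {Q : ℕ}

/-- The second cohomology as the invariants of the dual. -/
theorem exists_inj (hM : Cof l M) (L : Lat l M) (L2 : Lat l H) (μ : Mu ≃+ QZ l) (s : Mu →+ Mu)
    (hs : ∀ y, Q • s y = y) (F : H →+ H) (e : (H →+ QZ l) →+ M →+ Mu) (he : Function.Injective e)
    (hr : ∀ a, a ∈ e.range ↔ ∀ p m, a (σ (ι p) m) = a m)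
    (hF : ∀ f m, s (e (f.comp F) m) = e f (σ φ⁻¹ m)) :
    ∃ inj : (Fin L2.d → ℚ_[l]) →ₗ[ℚ_[l]] Fin L.d → ℚ_[l], Function.Injective inj ∧
      (∀ v, (∃ x, inj x = v) ↔ ∀ p, (L.rho σ (ι p)).map (algebraMap ℤ_[l] ℚ_[l]) *ᵥ v = v) ∧
      ∀ x, inj ((L2.mat F)ᵀ.map (algebraMap ℤ_[l] ℚ_[l]) *ᵥ x) =
        (Q : ℚ_[l]) • (L.rho σ φ).map (algebraMap ℤ_[l] ℚ_[l]) *ᵥ inj x := by
  let e' : (H →+ QZ l) →+ M →+ QZ l := (AddMonoidHom.compHom μ.toAddMonoidHom).comp e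
  have he' : ∀ f m, e' f m = μ (e f m) := fun _ _ => rfl
  let T : (Fin L2.d → ℤ_[l]) →ₗ[ℤ_[l]] Fin L.d → ℤ_[l] :=
    { toFun := fun w => L.ch ((e'.comp L2.sec) w)
      map_add' := fun w w' => by rw [map_add, map_add]
      map_smul' := fun a w => by rw [lin_of_add hM.1, L.ch_mul]; rfl }
  have hT : ∀ w, LinearMap.toMatrix' T *ᵥ w = L.ch (e' (L2.sec w)) := fun w =>
    LinearMap.toMatrix'_mulVec T w
  have hρ : ∀ g f, L.rho σ g *ᵥ L.ch f = L.ch (f.comp (σ g⁻¹)) := fun g f => (L.ch_comp f _).symm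
  refine ⟨((LinearMap.toMatrix' T).map (algebraMap ℤ_[l] ℚ_[l])).mulVecLin,
    (injective_iff_map_eq_zero _).2 fun x hx => ?_, fun v => ⟨?_, fun hv => ?_⟩, fun x => ?_⟩
  · obtain ⟨c, w, hc, rfl⟩ := scale x
    rw [map_smul, Matrix.mulVecLin_apply, cast_mulVec, hT] at hx
    have h1 := L.ch_ker (cast_inj (w' := 0) (((smul_eq_zero.1 hx).resolve_left hc).trans
      (funext fun _ => (map_zero _).symm)))
    have h2 : l ^ L.c • L2.sec w = 0 := he (AddMonoidHom.ext fun m => μ.injective (by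
      rw [map_zero, ← he']
      exact (DFunLike.congr_fun ((map_nsmul e' _ _).trans h1) m).trans (map_zero μ).symm))
    have h3 := ((map_nsmul L2.ch _ _).symm.trans (congrArg L2.ch h2)).trans (map_zero _)
    rw [L2.ch_sec, nsmul_zero_iff, nsmul_zero_iff] at h3
    rw [h3]; ext i; simp
  · rintro ⟨x, rfl⟩ p
    obtain ⟨c, w, -, rfl⟩ := scale x
    rw [map_smul, Matrix.mulVecLin_apply, cast_mulVec, Matrix.mulVec_smul, cast_mulVec, hT, hρ]
    congr 3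
    ext m
    exact congrArg μ (map_inv ι p ▸ (hr _).1 ⟨_, rfl⟩ p⁻¹ m)
  · obtain ⟨c, w, hc, rfl⟩ := scale v
    obtain ⟨f, hf⟩ := (hr (μ.symm.toAddMonoidHom.comp (L.sec w))).2 fun p m => by
      have h1 := hv p⁻¹
      rw [Matrix.mulVec_smul, cast_mulVec] at h1
      have h2 := congrArg L.sec (cast_inj (smul_right_injective _ hc h1))
      rw [Lat.rho_apply, L.sec_mat, map_inv ι, inv_inv] at h2
      exact congrArg μ.symm (DFunLike.congr_fun h2 m)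
    have h3 : e' f = L.sec w := AddMonoidHom.ext fun m => by
      rw [he', hf]; exact μ.apply_symm_apply _
    have h4 : L.ch (e' (L2.sec (L2.ch f))) = l ^ (L2.c + L.c) • w := by
      rw [L2.sec_ch, pow_add, mul_smul, ← L.ch_sec, ← h3]
      exact (congrArg L.ch (map_nsmul e' _ f)).trans (map_nsmul L.ch _ _)
    refine ⟨c • ((l : ℚ_[l]) ^ (L2.c + L.c))⁻¹ • (algebraMap ℤ_[l] ℚ_[l] ∘ L2.ch f), ?_⟩
    rw [map_smul, map_smul, Matrix.mulVecLin_apply, cast_mulVec, hT, h4, cast_nsmul, Nat.cast_pow,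
      inv_smul_smul₀ (pow_ne_zero _ l_ne)]
  · obtain ⟨c, w, -, rfl⟩ := scale x
    simp only [Matrix.mulVec_smul, map_smul, Matrix.mulVecLin_apply, cast_mulVec, hT]
    rw [smul_comm, hρ, L2.sec_mat F, ← cast_nsmul]
    congr 2
    refine Eq.trans (congrArg L.ch (AddMonoidHom.ext fun m => ?_)) (map_nsmul L.ch Q _)
    show μ _ = Q • μ _
    rw [← map_nsmul]
    exact congrArg μ ((hs _).symm.trans (congrArg (Q • ·) (hF _ m)))

/-- The first cohomology through lattice cocycles. -/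
theorem exists_theta (hM : Cof l M) (hH : Cof l H) (L : Lat l M) (L1 : Lat l H) (μ : Mu ≃+ QZ l)
    (s : Mu →+ Mu) (hs : ∀ y, Q • s y = y) (F : H →+ H) (Z : AddSubgroup (P → M →+ Mu))
    (hZ : ∀ c, c ∈ Z ↔ (∀ g h m, c (g * h) m = c g m + c h (σ (ι g⁻¹) m)) ∧
      ∀ m, ∃ N, A.adm N ∧ ∀ g ∈ N, c g m = 0)
    (e : Z →+ H →+ QZ l) (he : Function.Surjective e)
    (hk : ∀ c, e c = 0 ↔ ∃ a : M →+ Mu, ∀ g m, c.1 g m = a (σ (ι g⁻¹) m) - a m)
    (hF : ∀ c c' : Z, (∀ p m, s (c'.1 p m) = c.1 (al p) (σ φ⁻¹ m)) → e c' = (e c).comp F) :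
    ∃ Θ : Zc A ι (L.rho σ) →+ Fin L1.d → ℚ_[l],
      (∀ (a : ℤ_[l]) c, Θ (a • c) = (a : ℚ_[l]) • Θ c) ∧
      Submodule.span ℚ_[l] (Set.range Θ) = ⊤ ∧
      (∀ c, Θ c = 0 ↔ ∃ (n : ℕ) (w : Fin L.d → ℤ_[l]), ∀ g,
        (l : ℤ_[l]) ^ n • c.1 g = L.rho σ (ι g) *ᵥ w - w) ∧
      ∀ c c' : Zc A ι (L.rho σ), (∀ g, c'.1 g = L.rho σ φ *ᵥ c.1 (al g)) →
        (Q : ℚ_[l]) • Θ c' = (L1.mat F)ᵀ.map (algebraMap ℤ_[l] ℚ_[l]) *ᵥ Θ c := by
  have hρ : ∀ g f, L.rho σ (ι g) *ᵥ L.ch f = L.ch (f.comp (σ (ι g⁻¹))) := fun g f => by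
    rw [map_inv]; exact (L.ch_comp f _).symm
  have hσ : ∀ g w m, L.sec (L.rho σ g *ᵥ w) m = L.sec w (σ g⁻¹ m) := fun g w m =>
    DFunLike.congr_fun (L.sec_mat _ w) m
  let lift : Zc A ι (L.rho σ) →+ Z := AddMonoidHom.mk'
    (fun c => ⟨fun g => μ.symm.toAddMonoidHom.comp (L.sec (c.1 g)), (hZ _).2 ⟨fun g h m => by
      show μ.symm _ = μ.symm _ + μ.symm _
      rw [c.2.1, map_add, AddMonoidHom.add_apply, hσ, map_add, map_inv ι], fun m => by
      obtain ⟨n, hn⟩ := hM.1 m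
      obtain ⟨N, h1, h2⟩ := c.2.2 n
      exact ⟨N, h1, fun g hg => (congrArg μ.symm (L.sec_dvd (h2 g hg) hn)).trans (map_zero _)⟩⟩⟩)
    fun c c' => Subtype.ext (funext fun g => AddMonoidHom.ext fun m => by
      show μ.symm (L.sec (c.1 g + c'.1 g) m) = μ.symm _ + μ.symm _
      rw [map_add, AddMonoidHom.add_apply, map_add])
  have hl : ∀ c g m, μ ((lift c).1 g m) = L.sec (c.1 g) m := fun c g m => μ.apply_symm_apply _
  let κ : (Fin L1.d → ℤ_[l]) →+ Fin L1.d → ℚ_[l] :=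
    (algebraMap ℤ_[l] ℚ_[l]).toAddMonoidHom.compLeft _
  have hκ : ∀ w, κ w = algebraMap ℤ_[l] ℚ_[l] ∘ w := fun _ => rfl
  refine ⟨κ.comp (L1.ch.comp (e.comp lift)), fun a c => ?_, ?_, fun c => ⟨fun h => ?_, ?_⟩,
    fun c c' h => ?_⟩
  · show κ (L1.ch ((e.comp lift) (a • c))) = _
    rw [lin_of_add hH.1, L1.ch_mul]
    exact funext fun i => map_mul (algebraMap ℤ_[l] ℚ_[l]) _ _
  · rw [eq_top_iff]
    rintro x -
    obtain ⟨c, w, -, rfl⟩ := scale x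
    obtain ⟨f, rfl⟩ := L1.surj w
    obtain ⟨z, rfl⟩ := he f
    obtain ⟨h1, h2⟩ := (hZ z).1 z.2
    let y : Zc A ι (L.rho σ) := ⟨fun g => L.ch (μ.toAddMonoidHom.comp (z.1 g)), fun g h => by
      beta_reduce
      rw [hρ, ← map_add]
      exact congrArg L.ch (AddMonoidHom.ext fun m => (congrArg μ (h1 g h m)).trans (map_add μ _ _)),
      fun n => by
        obtain ⟨N, h3, h4⟩ := adm_fin (hM.fin n) _ h2
        exact ⟨N, h3, fun g hg => L.dvd_ch fun m hm =>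
          (congrArg μ (h4 g hg m hm)).trans (map_zero μ)⟩⟩
    have h3 : lift y = l ^ L.c • z := Subtype.ext (funext fun g => AddMonoidHom.ext fun m =>
      μ.injective ((hl y g m).trans ((DFunLike.congr_fun (L.sec_ch _) m).trans
        (map_nsmul μ _ _).symm)))
    have h4 : κ (L1.ch (e (lift y))) = (l : ℚ_[l]) ^ L.c • κ (L1.ch (e z)) := by
      rw [h3, ← Nat.cast_pow, hκ, hκ, ← cast_nsmul]
      exact congrArg _ ((congrArg L1.ch (map_nsmul e _ z)).trans (map_nsmul L1.ch _ _))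
    refine Submodule.smul_mem _ _ ?_
    rw [← hκ, ← inv_smul_smul₀ (pow_ne_zero L.c (l_ne (l := l))) (κ _), ← h4]
    exact Submodule.smul_mem _ _ (Submodule.subset_span ⟨y, rfl⟩)
  · have h1 := L1.ch_ker (f := e (lift c)) (cast_inj (w' := 0)
      (h.trans (funext fun _ => (map_zero _).symm)))
    obtain ⟨a, ha⟩ := (hk _).1 ((map_nsmul e _ _).trans h1)
    refine ⟨L1.c + L.c, L.ch (μ.toAddMonoidHom.comp a), fun g => ?_⟩
    rw [hρ, ← map_sub, ← Nat.cast_pow, Nat.cast_smul_eq_nsmul, pow_add, mul_smul, ← L.ch_sec]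
    refine (map_nsmul L.ch _ _).symm.trans (congrArg L.ch (AddMonoidHom.ext fun m => ?_))
    show l ^ L1.c • L.sec (c.1 g) m = μ _ - μ _
    rw [← hl, ← map_sub]
    exact (map_nsmul μ _ _).symm.trans (congrArg μ (ha g m))
  · rintro ⟨n, w, h⟩
    have h1 : e (lift ((l : ℤ_[l]) ^ n • c)) = 0 :=
      (hk _).2 ⟨μ.symm.toAddMonoidHom.comp (L.sec w), fun g m => by
        show μ.symm (L.sec ((l : ℤ_[l]) ^ n • c.1 g) m) = μ.symm _ - μ.symm _
        rw [h, map_sub, AddMonoidHom.sub_apply, hσ, map_sub, map_inv ι]⟩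
    have h2 := lin_of_add hH.1 (e.comp lift) ((l : ℤ_[l]) ^ n) c
    have h3 := congrArg L1.ch (h2.symm.trans h1)
    rw [L1.ch_mul, map_zero, ← Nat.cast_pow, Nat.cast_smul_eq_nsmul, nsmul_zero_iff] at h3
    exact (congrArg κ h3).trans (map_zero κ)
  · have h1 := hF (lift c) (Q • lift c') fun p m => μ.injective (by
      show μ (s (Q • (lift c').1 p m)) = _
      rw [map_nsmul s, hs, hl, hl, h, hσ])
    show (Q : ℚ_[l]) • κ (L1.ch (e (lift c'))) = _ *ᵥ κ (L1.ch (e (lift c)))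
    rw [hκ, hκ, cast_mulVec, ← L1.ch_comp _ F, ← cast_nsmul]
    exact congrArg _ ((map_nsmul L1.ch _ _).symm.trans
      (congrArg L1.ch ((map_nsmul e _ _).symm.trans h1)))

/-- The trace formula on the curve from the two duality statements. -/
theorem tfd {U : Type} [Fintype U] {f : U → P} (hC : Cx A l Q al U f) (hQ : Q ≠ 0)
    (hφ : ∀ g, φ * ι (al g) = ι g * φ) (hM : Cof l M)
    (hσ : ∀ m, ∃ N, A.adm N ∧ ∀ g ∈ N, σ (ι g) m = m)
    (μ : Mu ≃+ QZ l) (s : Mu →+ Mu) (hs : ∀ y, Q • s y = y)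
    {H1 H2 : Type u} [AddCommGroup H1] [AddCommGroup H2] (h1 : Cof l H1) (h2 : Cof l H2)
    (F1 : H1 →+ H1) (F2 : H2 →+ H2)
    (e2 : (H2 →+ QZ l) →+ M →+ Mu) (he2 : Function.Injective e2)
    (hr2 : ∀ a, a ∈ e2.range ↔ ∀ p m, a (σ (ι p) m) = a m)
    (hF2 : ∀ f m, s (e2 (f.comp F2) m) = e2 f (σ φ⁻¹ m))
    (Z : AddSubgroup (P → M →+ Mu))
    (hZ : ∀ c, c ∈ Z ↔ (∀ g h m, c (g * h) m = c g m + c h (σ (ι g⁻¹) m)) ∧
      ∀ m, ∃ N, A.adm N ∧ ∀ g ∈ N, c g m = 0)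
    (e1 : Z →+ H1 →+ QZ l) (he1 : Function.Surjective e1)
    (hk1 : ∀ c, e1 c = 0 ↔ ∃ a : M →+ Mu, ∀ g m, c.1 g m = a (σ (ι g⁻¹) m) - a m)
    (hF1 : ∀ c c' : Z, (∀ p m, s (c'.1 p m) = c.1 (al p) (σ φ⁻¹ m)) → e1 c' = (e1 c).comp F1) :
    ∑ x : U, tr l (σ (φ * ι (f x))⁻¹) = tr l F2 - tr l F1 := by
  obtain ⟨L⟩ := exLat hM
  obtain ⟨L1⟩ := exLat h1
  obtain ⟨L2⟩ := exLat h2
  have hQ' : (Q : ℚ_[l]) ≠ 0 := Nat.cast_ne_zero.2 hQ
  obtain ⟨inj, a1, a2, a3⟩ := exists_inj hM L L2 μ s hs F2 e2 he2 hr2 hF2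
  obtain ⟨Θ, b1, b2, b3, b4⟩ := exists_theta hM h1 L L1 μ s hs F1 Z hZ e1 he1 hk1 hF1
  have := tf hC hφ (L.repA hM hσ)
    ((Q : ℚ_[l])⁻¹ • Matrix.toLin' ((L1.mat F1)ᵀ.map (algebraMap ℤ_[l] ℚ_[l]))) Θ b1 b2 b3
    (fun c c' h => by
      rw [LinearMap.smul_apply, Matrix.toLin'_apply, ← b4 c c' h, inv_smul_smul₀ hQ'])
    ((Q : ℚ_[l])⁻¹ • Matrix.toLin' ((L2.mat F2)ᵀ.map (algebraMap ℤ_[l] ℚ_[l]))) inj a1 a2
    (fun x => by
      rw [LinearMap.smul_apply, Matrix.toLin'_apply, map_smul, a3, inv_smul_smul₀ hQ'])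
  simp only [L.tr_rho, map_smul, Matrix.trace_toLin'_eq, ← AddMonoidHom.map_trace,
    Matrix.trace_transpose, smul_eq_mul] at this
  rw [this, ← mul_sub, mul_inv_cancel_left₀ hQ']
  exact congrArg₂ _ (L2.tr_mat F2) (L1.tr_mat F1)

end Pool.Agent.MP_855f4c_ag.E.TFD

end

section

namespace Pool.Agent.MP_855f4c_ag.E.RK

open Module LinearMap Polynomial TensorProduct

variable {G : Type} [Group G] {S : Sys G}
  {V W : Type} [AddCommGroup V] [Module ℂ V] [FiniteDimensional ℂ V]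
  [AddCommGroup W] [Module ℂ W] [FiniteDimensional ℂ W]

lemma ev_tprod (g : End ℂ V) (h : End ℂ W) :
    ev (TensorProduct.map g h) = (ev g).bind fun a => (ev h).map (a * ·) :=
  ev_eq fun n => by
    rw [tr_tprod, tr_pow, tr_pow, ps, ps, ps, Multiset.map_bind, Multiset.sum_bind,
      ← Multiset.sum_map_mul_right]
    refine congrArg _ (Multiset.map_congr rfl fun a _ => ?_)
    rw [Multiset.map_map, ← Multiset.sum_map_mul_left]
    simp only [Function.comp, mul_pow]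

lemma tr_eq (g : End ℂ V) : trace ℂ V g = (ev g).sum := by
  have := tr_pow g 1
  simpa [ps] using this

lemma sum_norm_le {M : Multiset ℂ} {R : ℝ} (h : ∀ z ∈ M, ‖z‖ ≤ R) : ‖M.sum‖ ≤ M.card * R := by
  simpa [ps] using ps_norm_le h 1

lemma ev_rep_dual (ρ : Representation ℂ G V) (g : G) : ev (ρ.dual g) = (ev (ρ g)).map (·⁻¹) := by
  rw [Representation.dual_apply, ev_dual, ev_inv (rep_inv ρ g)]

lemma sub_T {ρ : Representation ℂ G V} (hT : S.T V ρ) {N : Submodule ℂ V}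
    (h : ∀ g, N ≤ N.comap (ρ g)) : S.T N (ρ.subrepresentation N h) :=
  S.sub N.subtype Subtype.val_injective (fun _ => by ext; rfl) hT

lemma quo_T {ρ : Representation ℂ G V} (hT : S.T V ρ) {N : Submodule ℂ V}
    (h : ∀ g, N ≤ N.comap (ρ g)) : S.T (V ⧸ N) (ρ.quotient N h) :=
  S.quo N.mkQ (Submodule.mkQ_surjective N) (fun _ => by ext; rfl) hT

open Classical in
lemma ev_sub_top {ρ : Representation ℂ G V} {N : Submodule ℂ V} (h : ∀ g, N ≤ N.comap (ρ g))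
    {p : ℂ → Prop} {g : G} (hN : N = Top p (ρ g)) :
    ev (ρ.subrepresentation N h g) = (ev (ρ g)).filter p := by
  subst hN; exact ev_top p (ρ g)

/-- a pure representation with a small `L²` norm is zero -/
lemma pure_l2 {ρ : Representation ℂ G V} (hT : S.T V ρ) {a b K : ℝ} (hb : 0 ≤ b) (hab : b < a)
    (hp : ∀ k, 0 < k → ∀ x : S.U k, ∀ z ∈ ev (ρ (S.F k x)), ‖z‖ = a ^ k) (h : ∀ k, 0 < k →
      ∑ x : S.U k, ‖trace ℂ V (ρ (S.F k x))‖ ^ 2 ≤ K * (S.q * b ^ 2) ^ k) {k : ℕ} (hk : 0 < k)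
    (x : S.U k) : ev (ρ (S.F k x)) = 0 := by
  have ha := hb.trans_lt hab
  have hq := S.hq
  obtain ⟨C, Γ, h1, h2⟩ := tf' (S.tprod hT (S.dual hT))
  have h3 : ∀ n, 1 ≤ n → ∀ x : S.U n, trace ℂ _ (ρ.tprod ρ.dual (S.F n x)) =
      ((‖trace ℂ V (ρ (S.F n x))‖ ^ 2 / (a ^ 2) ^ n : ℝ) : ℂ) := fun n hn x => by
    have h4 : trace ℂ _ (ρ.dual (S.F n x)) =
        starRingEnd ℂ (trace ℂ V (ρ (S.F n x))) * (((a ^ 2) ^ n : ℝ) : ℂ)⁻¹ := by
      rw [tr_eq, tr_eq, ev_rep_dual, map_multiset_sum, ← Multiset.sum_map_mul_right]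
      refine congrArg _ (Multiset.map_congr rfl fun z hz => ?_)
      rw [Complex.inv_def, Complex.normSq_eq_norm_sq, hp n hn x z hz, ← pow_mul, ← pow_mul,
        mul_comm n 2, Complex.ofReal_inv]
    rw [tr_rep_tprod, h4, ← mul_assoc, Complex.mul_conj, Complex.normSq_eq_norm_sq,
      Complex.ofReal_div, div_eq_mul_inv]
  have h5 := NoCancel.nocancel C Γ (S.q * b ^ 2 / a ^ 2) K (by positivity) (fun c hc => ?_)
    (fun n => ∑ x : S.U n, ‖trace ℂ V (ρ (S.F n x))‖ ^ 2 / (a ^ 2) ^ n)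
    (fun n hn => by
      rw [Complex.ofReal_sum, ← Finset.sum_congr rfl fun x _ => h3 n hn x]; exact h2 n hn)
    (fun _ _ => by positivity) fun n hn => by
      rw [← Finset.sum_div, div_pow, ← mul_div_assoc]
      exact div_le_div_of_nonneg_right (h n hn) (by positivity)
  · have h6 : Bd (ρ (S.F k x)) 0 := bd_of (K := 0) le_rfl fun n hn => by
      obtain ⟨y, hy⟩ := S.pow k n hk hn x
      have := (Finset.sum_eq_zero_iff_of_nonneg fun _ _ => by positivity).1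
        (h5 _ (Nat.mul_pos hk hn)) y (Finset.mem_univ y)
      rw [div_eq_zero_iff, or_iff_left (by positivity), pow_eq_zero_iff two_ne_zero] at this
      rw [← hy V ρ hT, this, zero_mul]
    refine Multiset.eq_zero_of_forall_notMem fun z hz => ?_
    exact absurd ((hp k hk x z hz).symm.trans_le (h6 z hz)) (not_le.2 (by positivity))
  · obtain ⟨α, v, rfl, hv, h6, h7⟩ := h1 c hc
    have h8 := mem_ev_of hv (inv_eig h6 h7 k x)
    rw [Representation.tprod_apply, ev_tprod, Multiset.mem_bind] at h8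
    obtain ⟨z, hz, h8⟩ := h8
    obtain ⟨w', hw', h8⟩ := Multiset.mem_map.1 h8
    rw [ev_rep_dual] at hw'
    obtain ⟨w, hw, rfl⟩ := Multiset.mem_map.1 hw'
    have h9 : ‖α‖ ^ k = 1 := by
      rw [← norm_pow, ← h8, norm_mul, norm_inv, hp k hk x z hz, hp k hk x w hw,
        mul_inv_cancel₀ (by positivity)]
    rw [norm_mul, (pow_eq_one_iff_of_nonneg (norm_nonneg _) hk.ne').1 h9, mul_one,
      Complex.norm_real, Real.norm_of_nonneg hq.le, mul_div_assoc]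
    exact mul_lt_of_lt_one_right hq ((div_lt_one (by positivity)).2 (by gcongr))

/-- An `L²` bound gives a pointwise bound. -/
theorem Sys.bd_of_l2 {ρ : Representation ℂ G V} (hT : S.T V ρ) (hF : S.Fil ρ) {B K : ℝ}
    (hB : 0 < B) (h : ∀ k, 0 < k →
      ∑ x : S.U k, ‖trace ℂ V (ρ (S.F k x))‖ ^ 2 ≤ K * (S.q * B ^ 2) ^ k) :
    ∀ k, 0 < k → ∀ x : S.U k, Bd (ρ (S.F k x)) (B ^ k) := by
  classical
  obtain ⟨⟨𝒜, h1, h2⟩, h3⟩ := hF
  have hq := S.hq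
  by_contra! hc
  obtain ⟨k1, hk1, x1, hc⟩ := hc
  obtain ⟨z1, hz1, hc⟩ : ∃ z ∈ ev (ρ (S.F k1 x1)), B ^ k1 < ‖z‖ := by
    simpa only [Bd, not_forall, not_le, exists_prop] using hc
  obtain ⟨a1, ha1, e1⟩ := h2 k1 hk1 x1 z1 hz1
  obtain ⟨a, ha, hmax⟩ := (𝒜.filter fun a => ∃ k, 0 < k ∧ ∃ x : S.U k,
    ∃ z ∈ ev (ρ (S.F k x)), ‖z‖ = a ^ k).exists_max_image id
      ⟨a1, Finset.mem_filter.2 ⟨ha1, k1, hk1, x1, z1, hz1, e1⟩⟩
  obtain ⟨ha, k0, hk0, x0, z0, hz0, e0⟩ := Finset.mem_filter.1 ha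
  have hBa : B < a := (lt_of_pow_lt_pow_left₀ k1 (h1 a1 ha1).le (e1 ▸ hc)).trans_le
    (hmax a1 (Finset.mem_filter.2 ⟨ha1, k1, hk1, x1, z1, hz1, e1⟩))
  obtain ⟨b, hb, hbmax⟩ := (insert B (𝒜.filter (· < a))).exists_max_image id
    (Finset.insert_nonempty _ _)
  have hba : b < a := by
    rcases Finset.mem_insert.1 hb with rfl | hb
    exacts [hBa, (Finset.mem_filter.1 hb).2]
  have hBb : B ≤ b := hbmax B (Finset.mem_insert_self _ _)
  obtain ⟨N, h4, h5⟩ := h3 a (h1 a ha)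
  obtain ⟨K', hK', h6⟩ := num_le (S := S)
  have h7 := pure_l2 (sub_T hT h4) (K := 2 * |K| + 2 * finrank ℂ V ^ 2 * K') (hB.le.trans hBb) hba
    (fun k hk x z hz => ?_) (fun k hk => ?_) hk0 x0
  · rw [ev_sub_top h4 (h5 k0 hk0 x0)] at h7
    exact Multiset.notMem_zero z0 (h7 ▸ Multiset.mem_filter.2 ⟨hz0, e0.ge⟩)
  · rw [ev_sub_top h4 (h5 k hk x), Multiset.mem_filter] at hz
    obtain ⟨c, hc, e⟩ := h2 k hk x z hz.1
    refine le_antisymm (e ▸ pow_le_pow_left₀ (h1 c hc).le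
      (hmax c (Finset.mem_filter.2 ⟨hc, k, hk, x, z, hz.1, e⟩)) k) hz.2
  · have hb0 : 0 < b := hB.trans_le hBb
    have h8 : ∀ x : S.U k, ‖trace ℂ N (ρ.subrepresentation N h4 (S.F k x))‖ ^ 2 ≤
        2 * ‖trace ℂ V (ρ (S.F k x))‖ ^ 2 + 2 * (finrank ℂ V * b ^ k) ^ 2 := fun x => by
      have e := congrArg Multiset.sum
        (Multiset.filter_add_not (fun z : ℂ => a ^ k ≤ ‖z‖) (ev (ρ (S.F k x))))
      rw [Multiset.sum_add, ← tr_eq] at e
      have h9 : ‖((ev (ρ (S.F k x))).filter fun z : ℂ => ¬a ^ k ≤ ‖z‖).sum‖ ≤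
          finrank ℂ V * b ^ k := by
        refine (sum_norm_le (R := b ^ k) fun z hz => ?_).trans (mul_le_mul_of_nonneg_right
          (by rw [← card_ev (ρ (S.F k x))]
              exact_mod_cast Multiset.card_le_card (Multiset.filter_le _ _)) (by positivity))
        rw [Multiset.mem_filter] at hz
        obtain ⟨c, hc, e⟩ := h2 k hk x z hz.1
        rw [e] at hz ⊢
        refine pow_le_pow_left₀ (h1 c hc).le (hbmax c (Finset.mem_insert_of_mem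
          (Finset.mem_filter.2 ⟨hc, lt_of_pow_lt_pow_left₀ k (h1 a ha).le (not_le.1 hz.2)⟩))) k
      rw [tr_eq, ev_sub_top h4 (h5 k hk x)]
      have h10 := (norm_sub_le _ _).trans (add_le_add_right h9 ‖trace ℂ V (ρ (S.F k x))‖)
      rw [← e, add_sub_cancel_right, e] at h10
      have h11 := pow_le_pow_left₀ (norm_nonneg _) h10 2
      convert h11.trans (add_sq_le.trans_eq (mul_add _ _ _))
    refine (Finset.sum_le_sum fun x _ => h8 x).trans ?_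
    rw [Finset.sum_add_distrib, ← Finset.mul_sum, Finset.sum_const, Finset.card_univ, nsmul_eq_mul,
      add_mul]
    refine add_le_add ?_ ?_
    · rw [mul_assoc]
      refine mul_le_mul_of_nonneg_left ((h k hk).trans ?_) zero_le_two
      gcongr
      exact le_abs_self K
    · refine (mul_le_mul_of_nonneg_right (h6 k hk) (by positivity)).trans_eq ?_
      ring

end Pool.Agent.MP_855f4c_ag.E.RK

end

section

namespace Pool.Agent.MP_855f4c_ag.E.RK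

open Module LinearMap Polynomial TensorProduct

variable {G : Type} [Group G] {S : Sys G}
  {V W : Type} [AddCommGroup V] [Module ℂ V] [FiniteDimensional ℂ V]
  [AddCommGroup W] [Module ℂ W] [FiniteDimensional ℂ W]

lemma prod_norm_le {s : Multiset ℂ} {A : ℝ} (hA : 0 ≤ A) (h : ∀ z ∈ s, ‖z‖ ≤ A) :
    ‖s.prod‖ ≤ A ^ s.card := by
  induction s using Multiset.induction_on with
  | empty => simp
  | cons a s ih =>
    rw [Multiset.prod_cons, norm_mul, Multiset.card_cons, pow_succ']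
    exact mul_le_mul (h a (Multiset.mem_cons_self _ _))
      (ih fun z hz => h z (Multiset.mem_cons_of_mem hz)) (norm_nonneg _) hA

lemma prod_norm_eq {s : Multiset ℂ} {A : ℝ} (h : ∀ z ∈ s, ‖z‖ = A) : ‖s.prod‖ = A ^ s.card := by
  induction s using Multiset.induction_on with
  | empty => simp
  | cons a s ih =>
    rw [Multiset.prod_cons, norm_mul, Multiset.card_cons, pow_succ', h a (Multiset.mem_cons_self _ _),
      ih fun z hz => h z (Multiset.mem_cons_of_mem hz)]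

lemma prod_norm_le' {s : Multiset ℂ} {A θ : ℝ} (hA : 0 ≤ A) (h : ∀ z ∈ s, ‖z‖ ≤ A) {w : ℂ}
    (hw : w ∈ s) (hθ : ‖w‖ ≤ θ * A) : ‖s.prod‖ ≤ θ * A ^ s.card := by
  obtain ⟨t, rfl⟩ := Multiset.exists_cons_of_mem hw
  rw [Multiset.prod_cons, norm_mul, Multiset.card_cons, pow_succ', ← mul_assoc]
  exact mul_le_mul hθ (prod_norm_le hA fun z hz => h z (Multiset.mem_cons_of_mem hz))
    (norm_nonneg _) ((norm_nonneg _).trans hθ)

lemma powerset_split (T R : Multiset ℂ) : ∃ M, (T + R).powersetCard T.card = T ::ₘ M ∧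
    ∀ s ∈ M, ∃ w ∈ s, w ∈ R := by
  induction R using Multiset.induction_on with
  | empty => exact ⟨0, by simp [Multiset.powersetCard_self], by simp⟩
  | cons a R ih =>
    obtain ⟨M, h1, h2⟩ := ih
    rcases h : T.card with _ | i
    · exact ⟨0, by simp [Multiset.card_eq_zero.1 h], by simp⟩
    · rw [h] at h1
      refine ⟨M + ((T + R).powersetCard i).map (a ::ₘ ·), ?_, fun s hs => ?_⟩
      · rw [Multiset.add_cons, Multiset.powersetCard_cons, h1, Multiset.cons_add]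
      · rcases Multiset.mem_add.1 hs with hs | hs
        · obtain ⟨w, h3, h4⟩ := h2 s hs
          exact ⟨w, h3, Multiset.mem_cons_of_mem h4⟩
        · obtain ⟨t, -, rfl⟩ := Multiset.mem_map.1 hs
          exact ⟨a, Multiset.mem_cons_self _ _, Multiset.mem_cons_self _ _⟩

lemma exists_lt {M : Multiset ℂ} {c : ℝ} {k : ℕ} (hc : 0 < c) (h : ∀ z ∈ M, ‖z‖ < c ^ k) :
    ∃ b, 0 < b ∧ b < c ∧ ∀ z ∈ M, ‖z‖ ≤ b ^ k := by
  have h1 : ∀ᶠ b in nhds c, ∀ z ∈ M.toFinset, ‖z‖ < b ^ k :=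
    (Finset.eventually_all _).2 fun z hz =>
      ((continuous_pow k).tendsto c).eventually (lt_mem_nhds (h z (Multiset.mem_toFinset.1 hz)))
  obtain ⟨b, ⟨h2, h3⟩, h4⟩ := (((h1.and (lt_mem_nhds hc)).filter_mono
    (nhdsWithin_le_nhds (s := Set.Iio c))).and self_mem_nhdsWithin).exists
  exact ⟨b, h3, h4, fun z hz => (h2 z (Multiset.mem_toFinset.2 hz)).le⟩

lemma im_sum {M : Multiset ℂ} (h : M.map (starRingEnd ℂ) = M) : M.sum.im = 0 := by
  rw [← Complex.conj_eq_iff_im, map_multiset_sum, h]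

/-- exterior power of a representation -/
noncomputable def ext (j : ℕ) (ρ : Representation ℂ G V) : Representation ℂ G (⋀[ℂ]^j V) where
  toFun g := exteriorPower.map j (ρ g)
  map_one' := by rw [map_one]; exact exteriorPower.map_id
  map_mul' g h := by rw [map_mul]; exact exteriorPower.map_comp _ _

lemma ext_T {ρ : Representation ℂ G V} (hT : S.T V ρ) (j : ℕ) : S.T _ (ext j ρ) := by
  induction j with
  | zero =>
    exact S.sub (exteriorPower.zeroEquiv ℂ V).toLinearMap (exteriorPower.zeroEquiv ℂ V).injective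
      (fun g => (exteriorPower.zeroEquiv_naturality (ρ g)).symm) S.one
  | succ j ih =>
    obtain ⟨m, h1, h2⟩ := exists_wedge (V := V) j
    exact S.quo m h1 (fun g => h2 (ρ g)) (S.tprod hT ih)

lemma ev_ext' (ρ : Representation ℂ G V) (j : ℕ) (g : G) :
    ev (ext j ρ g) = ((ev (ρ g)).powersetCard j).map Multiset.prod := ev_ext (ρ g) j

lemma ext_real {ρ : Representation ℂ G V} (hT : S.T V ρ) (hr : S.Real ρ) (j : ℕ) :
    S.Real (ext j ρ) := fun k hk x => by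
  rw [tr_eq, ev_ext']
  refine im_sum ?_
  conv_rhs => rw [← ev_conj (hr.pow hT hk x), Multiset.powersetCard_map]
  simp only [Multiset.map_map, Function.comp, map_multiset_prod]

lemma exists_con : ∃ κ : V ⊗[ℂ] V →ₗ[ℂ] Dual ℂ V →ₗ[ℂ] V, Function.Injective κ ∧
    ∀ (g : End ℂ V) t ℓ, κ (TensorProduct.map g g t) ℓ = g (κ t (ℓ ∘ₗ g)) := by
  refine ⟨((LinearEquiv.rTensor V (Module.evalEquiv ℂ V)).trans
    (dualTensorHomEquiv ℂ (Dual ℂ V) V)).toLinearMap, LinearEquiv.injective _, fun g t ℓ => ?_⟩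
  induction t using TensorProduct.induction_on with
  | zero => simp
  | tmul u v => simp [dualTensorHomEquiv]
  | add s t hs ht => simp only [map_add, LinearMap.add_apply, hs, ht]

omit [FiniteDimensional ℂ V] in
lemma all_eig {ρ : Representation ℂ G V} {v : V} {α : ℂ} (hv : v ≠ 0) (h1 : ∀ p ∈ S.P, ρ p v = v)
    (h2 : ρ S.φ v = α • v) (g : G) : ∃ χ : ℂ, ρ g v = χ • v := by
  let H : Subgroup G :=
    { carrier := {g | ∃ χ : ℂ, ρ g v = χ • v}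
      one_mem' := ⟨1, by simp⟩
      mul_mem' := by
        rintro a b ⟨s, hs⟩ ⟨t, ht⟩
        exact ⟨t * s, by rw [map_mul, Module.End.mul_apply, ht, map_smul, hs, smul_smul]⟩
      inv_mem' := by
        rintro a ⟨s, hs⟩
        have h := LinearMap.congr_fun (rep_inv ρ a) v
        rw [Module.End.mul_apply, hs, map_smul, Module.End.one_apply] at h
        have h0 : s ≠ 0 := by rintro rfl; exact hv (by rw [← h, zero_smul])
        exact ⟨s⁻¹, (eq_inv_smul_iff₀ h0).2 h⟩ }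
  obtain ⟨n, p, hp, rfl⟩ := S.gen g
  exact H.mul_mem (H.zpow_mem ⟨α, h2⟩ n) ⟨1, by rw [h1 p hp, one_smul]⟩

/-- a simple top eigenvalue with a uniform gap gives a stable subspace inside the top lines -/
lemma line {τ : Representation ℂ G V} (hT : S.T V τ) (hr : S.Real τ) {c θ : ℝ} (hc : 0 < c)
    (hθ0 : 0 ≤ θ) (hθ : θ < 1) (h : ∀ k, 0 < k → ∀ x : S.U k, ∃ μ M, ev (τ (S.F k x)) = μ ::ₘ M ∧
      ‖μ‖ = c ^ k ∧ ∀ z ∈ M, ‖z‖ ≤ θ ^ k * c ^ k) :
    ∃ I : Submodule ℂ V, I ≠ ⊥ ∧ (∀ g, I ≤ I.comap (τ g)) ∧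
      ∀ k, 0 < k → ∀ x : S.U k, I ≤ Top (fun z => c ^ k ≤ ‖z‖) (τ (S.F k x)) := by
  have hq := S.hq
  obtain ⟨C, Γ, h1, h2⟩ := tf' (S.tprod hT hT)
  have h3 : ∃ c' ∈ C, S.q * c ^ 2 ≤ ‖c'‖ := by
    by_contra! hh
    obtain ⟨r, hr0, hr1, hr2⟩ := exists_lt (M := C) (c := S.q * c ^ 2) (k := 1) (by positivity)
      (by simpa using hh)
    obtain ⟨K, -, hK⟩ := prb (C := C) (A := Γ)
      (s := fun k => ∑ x : S.U k, ‖trace ℂ V (τ (S.F k x))‖ ^ 2)
      (fun n hn => by rw [hr.sum_sq hn, h2 n hn]) (fun _ _ => by positivity) hr0.le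
      (by simpa using hr2)
    obtain ⟨n, hn⟩ := exists_pow_lt_of_lt_one
      (show (0 : ℝ) < 1 / (2 * (finrank ℂ V + 1)) by positivity) hθ
    refine num_ge (S := S) (K := 4 * K) (r := r / c ^ 2) (n := n) (by positivity)
      ((div_lt_iff₀ (by positivity)).2 hr1) fun k hnk hk => ?_
    have h4 : ∀ x : S.U k, (c ^ k / 2) ^ 2 ≤ ‖trace ℂ V (τ (S.F k x))‖ ^ 2 := fun x => by
      obtain ⟨μ, M, e, h5, h6⟩ := h k hk x
      have h7 : (M.card : ℝ) ≤ finrank ℂ V + 1 := by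
        rw [← card_ev (τ (S.F k x)), e, Multiset.card_cons]; push_cast; linarith
      have h8 := (pow_le_pow_of_le_one hθ0 hθ.le hnk).trans hn.le
      rw [le_div_iff₀ (by positivity)] at h8
      have h9 : ‖M.sum‖ ≤ c ^ k / 2 := by
        refine (sum_norm_le h6).trans ((mul_le_mul_of_nonneg_right h7 (by positivity)).trans ?_)
        have := mul_le_mul_of_nonneg_right h8 (show 0 ≤ c ^ k / 2 by positivity)
        linarith
      refine pow_le_pow_left₀ (by positivity) ?_ 2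
      rw [tr_eq, e, Multiset.sum_cons]
      have := norm_sub_le (μ + M.sum) M.sum
      rw [add_sub_cancel_right, h5] at this
      linarith
    have h5 := (Finset.sum_le_sum fun x (_ : x ∈ Finset.univ) => h4 x).trans (hK k hk)
    rw [Finset.sum_const, Finset.card_univ, nsmul_eq_mul] at h5
    rw [div_pow, ← mul_div_assoc, le_div_iff₀ (by positivity), show (c ^ 2) ^ k = (c ^ k) ^ 2 by ring]
    linarith
  obtain ⟨c', hc', h3⟩ := h3
  obtain ⟨α, t, rfl, ht, h4, h5⟩ := h1 c' hc'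
  rw [norm_mul, Complex.norm_real, Real.norm_of_nonneg hq.le, mul_le_mul_iff_right₀ hq] at h3
  obtain ⟨κ, hκ, h6⟩ := exists_con (V := V)
  have h7 : ∀ (g : G) (χ : ℂ), τ.tprod τ g t = χ • t → τ g ∘ₗ κ t = κ t ∘ₗ (χ • τ.dual g) :=
    fun g χ hχ => LinearMap.ext fun ℓ => by
      have := h6 (τ g) t (τ.dual g ℓ)
      rw [← Representation.tprod_apply, hχ, map_smul, LinearMap.smul_apply] at this
      rw [comp_apply, comp_apply, LinearMap.smul_apply, map_smul, this]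
      congr 2
      exact (congrArg (ℓ ∘ₗ ·) (rep_inv τ g)).symm
  refine ⟨range (κ t), fun h0 => ht (hκ (by rw [map_zero]; exact range_eq_bot.1 h0)), ?_,
    fun k hk x => le_top _ (κ t) (h7 _ _ (inv_eig h4 h5 k x)) fun z hz => ?_⟩
  · rintro g _ ⟨ℓ, rfl⟩
    obtain ⟨χ, hχ⟩ := all_eig ht h4 h5 g
    exact ⟨_, (LinearMap.congr_fun (h7 g χ hχ) ℓ).symm⟩
  · rw [ev_smul, ev_rep_dual, Multiset.map_map] at hz
    obtain ⟨w, hw, rfl⟩ := Multiset.mem_map.1 hz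
    have h8 : ‖w‖ ≤ c ^ k := by
      obtain ⟨μ, M, e, h9, h10⟩ := h k hk x
      rcases Multiset.mem_cons.1 (e ▸ hw) with rfl | hw
      · exact h9.le
      · exact (h10 w hw).trans (mul_le_of_le_one_left (by positivity) (pow_le_one₀ hθ0 hθ.le))
    have h9 := norm_pos_iff.2 (ev_ne_zero (rep_inv τ _) hw)
    rw [Function.comp, norm_mul, norm_inv, norm_pow, ← div_eq_mul_inv, le_div_iff₀ h9]
    calc c ^ k * ‖w‖ ≤ c ^ k * c ^ k := by gcongr
      _ = (c ^ 2) ^ k := by ring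
      _ ≤ _ := by gcongr

end Pool.Agent.MP_855f4c_ag.E.RK

end

section

namespace Pool.Agent.MP_855f4c_ag.E.RK

open Module LinearMap Polynomial TensorProduct

variable {G : Type} [Group G] {S : Sys G}
  {V : Type} [AddCommGroup V] [Module ℂ V] [FiniteDimensional ℂ V]

open Classical in
lemma finrank_top' (p : ℂ → Prop) (g : End ℂ V) :
    finrank ℂ (Top p g) = ((ev g).filter p).card := by
  rw [← ev_top, card_ev]

open Classical in
/-- few eigenvalues of top modulus at one Frobenius element bound the exterior power at all -/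
lemma cnt {ρ : Representation ℂ G V} (hT : S.T V ρ) (hr : S.Real ρ) {a : ℝ} (ha : 0 < a) {i m : ℕ}
    (hm : 0 < m) (y : S.U m) (hb : Bd (ρ (S.F m y)) (a ^ m))
    (h : ((ev (ρ (S.F m y))).filter fun z : ℂ => a ^ m ≤ ‖z‖).card < i) :
    ∃ b, 0 < b ∧ b < a ^ i ∧ ∀ k, 0 < k → ∀ x : S.U k, ∀ s ≤ ev (ρ (S.F k x)), s.card = i →
      ‖s.prod‖ ≤ b ^ k := by
  obtain ⟨b, h1, h2, h3⟩ := exists_lt (M := ev (ext i ρ (S.F m y))) (c := a ^ i) (k := m)
    (by positivity) fun z hz => by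
      rw [ev_ext'] at hz
      obtain ⟨s, hs, rfl⟩ := Multiset.mem_map.1 hz
      obtain ⟨h1, rfl⟩ := Multiset.mem_powersetCard.1 hs
      obtain ⟨w, hw, h2⟩ : ∃ w ∈ s, ‖w‖ < a ^ m := by
        by_contra! hh
        exact absurd (Multiset.card_le_card (Multiset.le_filter.2 ⟨h1, hh⟩)) (not_le.2 h)
      refine (prod_norm_le' (A := a ^ m) (θ := ‖w‖ / a ^ m) (by positivity)
        (fun z hz => hb z (Multiset.mem_of_le h1 hz)) hw
        (div_mul_cancel₀ _ (by positivity)).ge).trans_lt ?_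
      rw [← pow_mul, ← pow_mul, mul_comm s.card]
      exact mul_lt_of_lt_one_left (by positivity) ((div_lt_one (by positivity)).2 h2)
  refine ⟨b, h1, h2, fun k hk x s hs hi => rad (ext_T hT i) (ext_real hT hr i) x h1.le hm hk h3 _ ?_⟩
  rw [ev_ext']
  exact Multiset.mem_map_of_mem _ (Multiset.mem_powersetCard.2 ⟨hs, hi⟩)

/-- the top step of the filtration -/
lemma top_step {ρ : Representation ℂ G V} (hT : S.T V ρ) (hr : S.Real ρ) (hV : 0 < finrank ℂ V) :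
    ∃ a : ℝ, 0 < a ∧ ∃ N : Submodule ℂ V, 0 < finrank ℂ N ∧ (∀ g, N ≤ N.comap (ρ g)) ∧
      ∀ k, 0 < k → ∀ x : S.U k, Bd (ρ (S.F k x)) (a ^ k) ∧
        N = Top (fun z => a ^ k ≤ ‖z‖) (ρ (S.F k x)) := by
  classical
  obtain ⟨m, hm, ⟨y⟩⟩ := S.ne
  obtain ⟨z0, hz0, hmax⟩ := (ev (ρ (S.F m y))).toFinset.exists_max_image (‖·‖)
    (Multiset.toFinset_nonempty.2 (Multiset.card_pos.1 (by rwa [card_ev])))
  rw [Multiset.mem_toFinset] at hz0
  obtain ⟨a, ha, e0⟩ : ∃ a : ℝ, 0 < a ∧ a ^ m = ‖z0‖ :=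
    ⟨‖z0‖ ^ (m⁻¹ : ℝ), Real.rpow_pos_of_pos (norm_pos_iff.2 (ev_ne_zero (rep_inv ρ _) hz0)) _,
      Real.rpow_inv_natCast_pow (norm_nonneg _) hm.ne'⟩
  have hb : ∀ k, 0 < k → ∀ x : S.U k, Bd (ρ (S.F k x)) (a ^ k) := fun k hk x =>
    rad hT hr (y := y) x ha.le hm hk fun z hz => e0 ▸ hmax z (Multiset.mem_toFinset.2 hz)
  obtain ⟨tp, htp⟩ : ∃ tp : ∀ k, S.U k → Multiset ℂ,
    ∀ k x, tp k x = (ev (ρ (S.F k x))).filter fun z : ℂ => a ^ k ≤ ‖z‖ := ⟨_, fun _ _ => rfl⟩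
  have h1 : ∀ k, 0 < k → ∀ x, ∀ z ∈ tp k x, ‖z‖ = a ^ k := fun k hk x z hz => by
    rw [htp, Multiset.mem_filter] at hz
    exact le_antisymm (hb k hk x z hz.1) hz.2
  have h1' : ∀ k x, tp k x ≤ ev (ρ (S.F k x)) := fun k x => htp k x ▸ Multiset.filter_le _ _
  have h2 : ∀ k, 0 < k → ∀ x, ∀ l, 0 < l → ∀ w, (tp k x).card ≤ (tp l w).card := by
    intro k hk x l hl w
    by_contra! hh
    obtain ⟨b, h3, h4, h5⟩ := cnt hT hr ha hl w (hb l hl w) (by rw [htp] at hh; convert hh using 2)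
    have := h5 k hk x _ (h1' k x) rfl
    rw [prod_norm_eq (h1 k hk x), ← pow_mul, mul_comm, pow_mul] at this
    exact absurd this (not_le.2 (pow_lt_pow_left₀ h4 h3.le hk.ne'))
  obtain ⟨j, hj⟩ : ∃ j, ∀ k, 0 < k → ∀ x, (tp k x).card = j :=
    ⟨_, fun k hk x => le_antisymm (h2 k hk x m hm y) (h2 m hm y k hk x)⟩
  obtain ⟨b, h3, h4, h5⟩ := cnt (i := j + 1) hT hr ha hm y (hb m hm y)
    (by have := (hj m hm y).trans_lt j.lt_succ_self; rw [htp] at this; convert this using 2)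
  have h6 : ∀ k, 0 < k → ∀ x : S.U k, ∃ μ M, ev (ext j ρ (S.F k x)) = μ ::ₘ M ∧
      ‖μ‖ = (a ^ j) ^ k ∧ ∀ z ∈ M, ‖z‖ ≤ (b / a ^ (j + 1)) ^ k * (a ^ j) ^ k := fun k hk x => by
    obtain ⟨R, hR⟩ := Multiset.le_iff_exists_add.1 (h1' k x)
    obtain ⟨M, h6, h7⟩ := powerset_split (tp k x) R
    rw [hj k hk x, ← hR] at h6
    have e : (a ^ j) ^ k = (a ^ k) ^ j := by ring
    refine ⟨(tp k x).prod, M.map Multiset.prod, by rw [ev_ext', h6, Multiset.map_cons],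
      by rw [prod_norm_eq (h1 k hk x), hj k hk x, e], fun z hz => ?_⟩
    obtain ⟨s, hs, rfl⟩ := Multiset.mem_map.1 hz
    obtain ⟨w, hw, hwR⟩ := h7 s hs
    obtain ⟨h8, h9⟩ := Multiset.mem_powersetCard.1 (h6 ▸ Multiset.mem_cons_of_mem hs)
    refine (prod_norm_le' (A := a ^ k) (θ := (b / a ^ (j + 1)) ^ k) (by positivity)
      (fun z hz => hb k hk x z (Multiset.mem_of_le h8 hz)) hw ?_).trans_eq (by rw [e, h9])
    have h10 := h5 k hk x (w ::ₘ tp k x) (by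
      rw [hR, ← Multiset.singleton_add, add_comm]
      exact Multiset.add_le_add_left (Multiset.singleton_le.2 hwR))
      (by rw [Multiset.card_cons, hj k hk x])
    rw [Multiset.prod_cons, norm_mul, prod_norm_eq (h1 k hk x), hj k hk x] at h10
    rw [div_pow, div_mul_eq_mul_div, le_div_iff₀ (by positivity),
      show ‖w‖ * (a ^ (j + 1)) ^ k = ‖w‖ * (a ^ k) ^ j * a ^ k by ring]
    gcongr
  obtain ⟨I, hI, h7, h8⟩ := line (ext_T hT j) (ext_real hT hr j) (by positivity) (by positivity)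
    ((div_lt_one (by positivity)).2 h4) h6
  obtain ⟨ω, hω, hω0⟩ := (Submodule.ne_bot_iff I).1 hI
  have h9 : ∀ k, 0 < k → ∀ x : S.U k, ∀ v ∈ Top (fun z => (a ^ j) ^ k ≤ ‖z‖) (ext j ρ (S.F k x)),
      v ≠ 0 → ∀ w ∈ Top (fun z => (a ^ j) ^ k ≤ ‖z‖) (ext j ρ (S.F k x)), ∃ c : ℂ, c • v = w := by
    intro k hk x v hv hv0 w hw
    obtain ⟨μ, M, e, h9, h10⟩ := h6 k hk x
    have h11 : finrank ℂ (Top (fun z => (a ^ j) ^ k ≤ ‖z‖) (ext j ρ (S.F k x))) = 1 := by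
      rw [finrank_top', e, Multiset.filter_cons_of_pos _ (by exact h9.ge), Multiset.filter_eq_nil.2,
        Multiset.card_cons, Multiset.card_zero]
      refine fun z hz => not_le.2 ((h10 z hz).trans_lt (mul_lt_of_lt_one_left (by positivity)
        (pow_lt_one₀ (by positivity) ((div_lt_one (by positivity)).2 h4) hk.ne')))
    obtain ⟨c, hc⟩ := (finrank_eq_one_iff_of_nonzero' (⟨v, hv⟩ : Top _ _)
      fun h => hv0 (congrArg Subtype.val h)).1 h11 ⟨w, hw⟩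
    exact ⟨c, congrArg Subtype.val hc⟩
  obtain ⟨ann, h10, h11⟩ := exists_ann (V := V) j
  have h12 : ∀ k, 0 < k → ∀ x : S.U k, ann ω = Top (fun z => a ^ k ≤ ‖z‖) (ρ (S.F k x)) ∧
      finrank ℂ (Top (fun z => a ^ k ≤ ‖z‖) (ρ (S.F k x))) = j := fun k hk x => by
    have hd : finrank ℂ (Top (fun z => a ^ k ≤ ‖z‖) (ρ (S.F k x))) = j := by
      rw [finrank_top']; convert hj k hk x; rw [htp]
    refine ⟨?_, hd⟩
    have hn : Nontrivial (⋀[ℂ]^j (Top (fun z => a ^ k ≤ ‖z‖) (ρ (S.F k x)))) :=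
      Module.finrank_pos_iff.1 (by rw [exteriorPower.finrank_eq, hd, Nat.choose_self]; exact one_pos)
    obtain ⟨η, hη⟩ := exists_ne (0 : ⋀[ℂ]^j (Top (fun z => a ^ k ≤ ‖z‖) (ρ (S.F k x))))
    have h13 := le_top (fun z => (a ^ j) ^ k ≤ ‖z‖) (g := ext j ρ (S.F k x))
      (a := exteriorPower.map j ((ρ (S.F k x)).restrict (top_stable (fun z => a ^ k ≤ ‖z‖) _)))
      (exteriorPower.map j (Submodule.subtype _))
      (by rw [← exteriorPower.map_comp]; exact (exteriorPower.map_comp _ _).symm) (fun z hz => by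
        rw [ev_ext, ev_top] at hz
        obtain ⟨s, hs, rfl⟩ := Multiset.mem_map.1 hz
        obtain ⟨h13, h14⟩ := Multiset.mem_powersetCard.1 hs
        rw [prod_norm_eq fun z hz => h1 k hk x z (by
          rw [htp]; convert Multiset.mem_of_le h13 hz), h14]
        exact le_of_eq (by ring)) ⟨η, rfl⟩
    obtain ⟨c, hc⟩ := h9 k hk x _ h13 (fun h => hη (exteriorPower.map_injective_field
      (Submodule.subtype_injective _) (h.trans (map_zero _).symm))) ω (h8 k hk x hω)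
    rw [← map_smul] at hc
    rw [← hc]
    exact h11 _ hd _ (hc ▸ hω0)
  refine ⟨a, ha, ann ω, ?_, fun g => ?_, fun k hk x => ⟨hb k hk x, (h12 k hk x).1⟩⟩
  · rw [(h12 m hm y).1, (h12 m hm y).2, ← hj m hm y, htp]
    exact Multiset.card_pos_iff_exists_mem.2 ⟨z0, Multiset.mem_filter.2 ⟨hz0, e0.le⟩⟩
  · obtain ⟨c, hc⟩ := h9 m hm y ω (h8 m hm y hω) hω0 _ (h8 m hm y (h7 g hω))
    refine h10 (ρ g) ω c (fun h => hω0 ?_) hc.symm
    rw [h, zero_smul] at hc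
    have := LinearMap.congr_fun (rep_inv (ext j ρ) g) ω
    rw [Module.End.mul_apply, ← hc, map_zero] at this
    exact this.symm

theorem fil_aux (n : ℕ) : ∀ (V : Type) [AddCommGroup V] [Module ℂ V] [FiniteDimensional ℂ V]
    (ρ : Representation ℂ G V), finrank ℂ V ≤ n → S.T V ρ → S.Real ρ → S.Fil ρ := by
  classical
  induction n using Nat.strong_induction_on with
  | _ n ih =>
  intro V _ _ _ ρ hn hT hr
  rcases (finrank ℂ V).eq_zero_or_pos with h0 | h0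
  · have := Module.finrank_zero_iff.1 h0
    refine ⟨⟨∅, by simp, fun k _ x z hz => ?_⟩, fun a _ =>
      ⟨⊥, fun _ => bot_le, fun _ _ _ => Subsingleton.elim _ _⟩⟩
    rw [Multiset.card_eq_zero.1 ((card_ev _).trans h0)] at hz
    exact absurd hz (Multiset.notMem_zero z)
  obtain ⟨a, ha, N, h1, h2, h3⟩ := top_step hT hr h0
  have h4 : ∀ k, 0 < k → ∀ x : S.U k, ev (ρ.quotient N h2 (S.F k x)) =
      (ev (ρ (S.F k x))).filter fun z : ℂ => ¬a ^ k ≤ ‖z‖ := fun k hk x => by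
    have := ev_ses N.subtype N.mkQ Subtype.val_injective N.mkQ_surjective
      (LinearMap.exact_subtype_mkQ N) (a := ρ.subrepresentation N h2 (S.F k x)) (b := ρ (S.F k x))
      (c := ρ.quotient N h2 (S.F k x)) (by ext; rfl) (by ext; rfl)
    rw [ev_sub_top h2 (h3 k hk x).2] at this
    refine add_left_cancel (this.symm.trans ?_)
    convert (Multiset.filter_add_not _ _).symm
  obtain ⟨⟨𝒜, h5, h6⟩, h7⟩ := ih (finrank ℂ (V ⧸ N))
    (by have := N.finrank_quotient_add_finrank; omega) _ (ρ.quotient N h2) le_rfl (quo_T hT h2)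
    fun k hk x => by
      rw [tr_eq, h4 k hk x]
      refine im_sum ?_
      conv_rhs => rw [← ev_conj (hr.pow hT hk x), Multiset.filter_map]
      simp only [Function.comp_def, Complex.norm_conj]
  refine ⟨⟨insert a 𝒜, by simpa [ha] using h5, fun k hk x z hz => ?_⟩, fun b hb => ?_⟩
  · by_cases h : a ^ k ≤ ‖z‖
    · exact ⟨a, Finset.mem_insert_self _ _, le_antisymm ((h3 k hk x).1 z hz) h⟩
    · obtain ⟨c, hc, e⟩ := h6 k hk x z (by rw [h4 k hk x]; exact Multiset.mem_filter.2 ⟨hz, h⟩)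
      exact ⟨c, Finset.mem_insert_of_mem hc, e⟩
  · rcases lt_or_ge a b with h | h
    · refine ⟨⊥, fun _ => bot_le, fun k hk x => (Submodule.finrank_eq_zero.1 ?_).symm⟩
      rw [finrank_top', Multiset.card_eq_zero, Multiset.filter_eq_nil]
      exact fun z hz => not_le.2 (((h3 k hk x).1 z hz).trans_lt (pow_lt_pow_left₀ h ha.le hk.ne'))
    · obtain ⟨N', h8, h9⟩ := h7 b hb
      refine ⟨N'.comap N.mkQ, fun g v hv => h8 g hv, fun k hk x => ?_⟩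
      rw [h9 k hk x, top_map _ N.mkQ N.mkQ_surjective (g := ρ (S.F k x)) (by ext; rfl),
        Submodule.comap_map_mkQ, sup_eq_right]
      have := le_top (fun z => b ^ k ≤ ‖z‖) (g := ρ (S.F k x))
        (a := ρ.subrepresentation N h2 (S.F k x)) N.subtype (by ext; rfl) fun z hz => by
          rw [ev_sub_top h2 (h3 k hk x).2] at hz
          exact (pow_le_pow_left₀ hb.le h k).trans (Multiset.mem_filter.1 hz).2
      rwa [Submodule.range_subtype] at this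

/-- Rankin: Weil II 1.5.1 in filtration form. -/
theorem Sys.fil_of_real {ρ : Representation ℂ G V} (hT : S.T V ρ) (hr : S.Real ρ) : S.Fil ρ :=
  fil_aux _ V ρ le_rfl hT hr

end Pool.Agent.MP_855f4c_ag.E.RK

end

section

namespace Pool.Agent.MP_855f4c_ag.E.WEnd

open Pool.Agent.MP_855f4c_ag.Fx Module TFC RK
open Matrix hiding J

variable {P : Type} [Group P] {A : Adm P} {l q : ℕ} [Fact l.Prime] {α : P →* P} {u : P}
  {U : ℕ → Type} [∀ k, Fintype (U k)] {f : ∀ k, U k → P} {G : Type} [Group G] {ι : P →* G}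
  {φ : G} {d e : Type} [Fintype d] [DecidableEq d] [Fintype e] [DecidableEq e]

lemma root_ev (M : Matrix e e ℂ) (μ : ℂ) (h : M.charpoly.IsRoot μ) : μ ∈ RK.ev (Matrix.toLin' M) := by
  rw [mem_ev, Module.End.hasEigenvalue_iff_isRoot_charpoly, Matrix.charpoly_toLin']
  exact h

/-- Weil II 1.8.1: a pointwise bound passes to the `u`-invariant eigenfunctionals. -/
theorem b181 (H : Ctx A l q α u U f) (hq : 0 < q) (hα : ∀ g, φ * ι (α g) = ι g * φ)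
    (j : ℚ_[l] →+* ℂ) {C : ℝ} (hC : ∀ k, 0 < k → (Fintype.card (U k) : ℝ) ≤ C * q ^ k)
    (hne : ∃ k, 0 < k ∧ Nonempty (U k)) (τ : G →* Matrix e e ℤ_[l]) (hτ : Rep A l (τ.comp ι))
    {R : ℝ} (hR : 0 ≤ R) (hw : ∀ k, 0 < k → ∀ x : U k, Bd (cx j τ (φ ^ k * ι (f k x))) (R ^ k))
    (lam : e → ℂ) (a : ℂ) (h0 : lam ≠ 0) (h1 : lam ᵥ* J j (τ (ι u)) = lam)
    (h2 : lam ᵥ* J j (τ φ) = a • lam) : ‖a‖ ≤ R := by
  have hq0 : (0 : ℝ) < q := Nat.cast_pos.2 hq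
  let Fr : ℕ → G → Prop := fun k g => 0 < k ∧ ∃ x, g = φ ^ k * ι (f k x)
  have hFB : Wt.FB A l ι φ (ι u) Fr (j.comp (algebraMap ℤ_[l] ℚ_[l])) 1 := Wt.FB.one hq0
    fun e _ _ τ hτ R hR hw lam a h0 h1 h2 => Fx.fox_bound H hq ι φ hα τ hτ _ R C hR hC hne
      (fun k hk x => hw k _ ⟨hk, x, rfl⟩) lam h0 a h1 h2
  have := hFB e τ hτ R hR (by
    rintro k _ ⟨hk, x, rfl⟩ μ hμ
    exact hw k hk x μ (root_ev _ μ hμ)) lam a h0 h1 h2
  rwa [one_mul] at this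

/-- `(φ ^ k * a) ^ m = φ ^ (k * m) * nrm α k a m`. -/
def nrm (α : P →* P) (k : ℕ) (a : P) : ℕ → P
  | 0 => 1
  | m + 1 => itr α k (nrm α k a m) * a

lemma nrm_spec (hα : ∀ g, φ * ι (α g) = ι g * φ) (k : ℕ) (a : P) (m : ℕ) :
    (φ ^ k * ι a) ^ m = φ ^ (k * m) * ι (nrm α k a m) := by
  induction m with
  | zero => simp [nrm]
  | succ m ih =>
    rw [pow_succ, ih, nrm, map_mul, Nat.mul_succ, pow_add, mul_assoc, mul_assoc, ← mul_assoc (φ ^ k),
      itr_conj hα, mul_assoc]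

/-- Powers of Frobenius elements are Frobenius elements, up to conjugation and inertia. -/
def PowOK (A : Adm P) (α : P →* P) (U : ℕ → Type) (f : ∀ k, U k → P) : Prop :=
  ∀ k m, 0 < k → 0 < m → ∀ x : U k, ∃ (y : U (k * m)) (g i : P), (∀ M, A.adm M → i ∈ M) ∧
    f (k * m) y = itr α (k * m) g⁻¹ * nrm α k (f k x) m * g * i

variable {V W : Type} [AddCommGroup V] [Module ℂ V] [AddCommGroup W] [Module ℂ W]

lemma rep_triv {σ : P →* Matrix d d ℤ_[l]} (h : Rep A l σ) {i : P} (hi : ∀ M, A.adm M → i ∈ M) :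
    σ i = 1 := by
  rw [← sub_eq_zero]
  refine red_ext fun n => ?_
  obtain ⟨M, h1, h2⟩ := h.adm n
  rw [map_zero]
  exact (red_eq_zero n _).2 (h2 i (hi M h1))

lemma cls_triv {j : ℚ_[l] →+* ℂ} {σ : Representation ℂ G V} (h : Cls (l := l) A ι j σ) {i : P}
    (hi : ∀ M, A.adm M → i ∈ M) : σ (ι i) = 1 := by
  obtain ⟨d, _, _, ρ, h1, θ, h2⟩ := h
  have h3 : ρ (ι i) = ρ 1 := (rep_triv h1 hi).trans ρ.map_one.symm
  rw [← h2, h3, h2, map_one]

omit [∀ k, Fintype (U k)] in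
lemma pow_of (hα : ∀ g, φ * ι (α g) = ι g * φ) (h : PowOK A α U f) (j : ℚ_[l] →+* ℂ) :
    ∀ k m, 0 < k → 0 < m → ∀ x : U k, ∃ y : U (k * m),
      ∀ (V : Type) [AddCommGroup V] [Module ℂ V] [FiniteDimensional ℂ V]
        (σ : Representation ℂ G V), Cls (l := l) A ι j σ →
        LinearMap.trace ℂ V (σ (φ ^ (k * m) * ι (f (k * m) y))) =
          LinearMap.trace ℂ V (σ (φ ^ k * ι (f k x)) ^ m) := by
  intro k m hk hm x
  obtain ⟨y, g, i, hi, hy⟩ := h k m hk hm x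
  refine ⟨y, fun V _ _ _ σ hσ => ?_⟩
  have e1 : φ ^ (k * m) * ι (f (k * m) y) = ι g⁻¹ * ((φ ^ k * ι (f k x)) ^ m * ι g) * ι i := by
    rw [hy, nrm_spec hα, map_mul, map_mul, map_mul, ← mul_assoc, ← mul_assoc, ← mul_assoc,
      itr_conj hα]
    simp only [mul_assoc]
  rw [e1, map_mul, cls_triv hσ hi, mul_one, map_mul, LinearMap.trace_mul_comm, ← map_mul, mul_assoc,
    ← map_mul, mul_inv_cancel, map_one, mul_one, map_pow]

lemma comm_zpow (hα : ∀ g, φ * ι (α g) = ι g * φ) (hs : Function.Surjective α) (n : ℤ) (p : P) :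
    ∃ p', ι p * φ ^ n = φ ^ n * ι p' := by
  obtain ⟨m, rfl | rfl⟩ := n.eq_nat_or_neg
  · exact ⟨itr α m p, by rw [zpow_natCast, itr_conj hα]⟩
  · obtain ⟨p', rfl⟩ : ∃ p', itr α m p' = p := by
      rw [itr_coe]; exact hs.iterate m p
    refine ⟨p', ?_⟩
    rw [_root_.zpow_neg, zpow_natCast, eq_inv_mul_iff_mul_eq, ← mul_assoc, itr_conj hα,
      mul_inv_cancel_right]

/-- The subgroup generated by `φ` and the image of `P`. -/
def weil (hα : ∀ g, φ * ι (α g) = ι g * φ) (hs : Function.Surjective α) : Subgroup G where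
  carrier := {g | ∃ (n : ℤ) (p : P), g = φ ^ n * ι p}
  one_mem' := ⟨0, 1, by simp⟩
  mul_mem' := by
    rintro _ _ ⟨n, p, rfl⟩ ⟨m, p', rfl⟩
    obtain ⟨r, hr⟩ := comm_zpow hα hs m p
    exact ⟨n + m, r * p', by
      rw [mul_assoc, ← mul_assoc (ι p), hr, _root_.zpow_add, map_mul]; simp only [mul_assoc]⟩
  inv_mem' := by
    rintro _ ⟨n, p, rfl⟩
    obtain ⟨r, hr⟩ := comm_zpow hα hs (-n) p⁻¹
    exact ⟨-n, r, by rw [← hr, _root_.mul_inv_rev, map_inv, _root_.zpow_neg]⟩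

/-- Pointwise bound: `τ` is a complex subquotient of a representation with real traces and
satisfies an `L²` bound. -/
theorem pointwise [FiniteDimensional ℂ V] [FiniteDimensional ℂ W] {X : Type} [AddCommGroup X]
    [Module ℂ X] [FiniteDimensional ℂ X] (H : Ctx A l q α u U f) (hq : 0 < q)
    (hα : ∀ g, φ * ι (α g) = ι g * φ) (hs : Function.Surjective α) (hp : PowOK A α U f)
    (hne : ∃ k, 0 < k ∧ Nonempty (U k)) (j : ℚ_[l] →+* ℂ) {ρ : Representation ℂ G V}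
    (hρ : Cls (l := l) A ι j ρ)
    (hre : ∀ k, 0 < k → ∀ x : U k, (LinearMap.trace ℂ V (ρ (φ ^ k * ι (f k x)))).im = 0)
    {σ : Representation ℂ G W} {τ : Representation ℂ G X} (i : W →ₗ[ℂ] V)
    (hi : Function.Injective i) (hi' : ∀ g, ρ g ∘ₗ i = i ∘ₗ σ g) (π : W →ₗ[ℂ] X)
    (hπ : Function.Surjective π) (hπ' : ∀ g, π ∘ₗ σ g = τ g ∘ₗ π) {B K : ℝ} (hB : 0 < B)
    (h2 : ∀ k, 0 < k → ∑ x : U k, ‖LinearMap.trace ℂ X (τ (φ ^ k * ι (f k x)))‖ ^ 2 ≤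
      K * (q * B ^ 2) ^ k) :
    ∀ k, 0 < k → ∀ x : U k, Bd (τ (φ ^ k * ι (f k x))) (B ^ k) := by
  let G' := weil hα hs
  let ι' : P →* G' := ι.codRestrict G' fun p => ⟨0, p, by simp⟩
  let φ' : G' := ⟨φ, 1, 1, by simp⟩
  have hα' : ∀ g, φ' * ι' (α g) = ι' g * φ' := fun g => Subtype.ext (hα g)
  let S : Sys G' := sys (ctx0 H) hq hα' H.comap (fun k hk => trF H hα' hk) j (fun g => by
    obtain ⟨g, n, p, rfl⟩ := g
    exact ⟨n, p, Subtype.ext (by rw [Subgroup.coe_mul, Subgroup.coe_zpow]; rfl)⟩) hne (pow_of hα' hp j)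
  have hρ' : Cls (l := l) A ι' j (ρ.comp G'.subtype : Representation ℂ G' V) := by
    obtain ⟨d, _, _, r, h1, θ, h3⟩ := hρ
    exact ⟨d, inferInstance, inferInstance, r.comp G'.subtype, h1, θ, fun g => h3 g⟩
  have hF : S.Fil (τ.comp G'.subtype : Representation ℂ G' X) :=
    Sys.Fil.quo (ρ := (σ.comp G'.subtype : Representation ℂ G' W)) π hπ (fun g => hπ' g)
      (Sys.Fil.sub i hi (fun g => hi' g) (Sys.fil_of_real (S := S) hρ' hre))
  have hT : S.T X (τ.comp G'.subtype : Representation ℂ G' X) :=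
    Cls.quo (σ := (σ.comp G'.subtype : Representation ℂ G' W)) π hπ (fun g => hπ' g)
      (Cls.sub i hi (fun g => hi' g) hρ')
  exact Sys.bd_of_l2 (S := S) hT hF hB h2

/-- The end of the weight argument, complex form. -/
theorem wend [FiniteDimensional ℂ W] (H : Ctx A l q α u U f) (hq : 0 < q)
    (hα : ∀ g, φ * ι (α g) = ι g * φ) (hs : Function.Surjective α) (hp : PowOK A α U f)
    {C : ℝ} (hC : ∀ k, 0 < k → (Fintype.card (U k) : ℝ) ≤ C * q ^ k)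
    (hne : ∃ k, 0 < k ∧ Nonempty (U k)) (j : ℚ_[l] →+* ℂ) (ρ : G →* Matrix d d ℤ_[l])
    (hρ : Rep A l (ρ.comp ι))
    (hre : ∀ k, 0 < k → ∀ x : U k, (J j (ρ (φ ^ k * ι (f k x)))).trace.im = 0)
    (τ : G →* Matrix e e ℤ_[l]) (hτ : Rep A l (τ.comp ι)) {σ : Representation ℂ G W}
    (i : W →ₗ[ℂ] d → ℂ) (hi : Function.Injective i) (hi' : ∀ g, cx j ρ g ∘ₗ i = i ∘ₗ σ g)
    (π : W →ₗ[ℂ] e → ℂ) (hπ : Function.Surjective π) (hπ' : ∀ g, π ∘ₗ σ g = cx j τ g ∘ₗ π)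
    {B K : ℝ} (hB : 0 < B)
    (h2 : ∀ k, 0 < k → ∑ x : U k, ‖(J j (τ (φ ^ k * ι (f k x)))).trace‖ ^ 2 ≤ K * (q * B ^ 2) ^ k)
    (lam : e → ℂ) (a : ℂ) (h0 : lam ≠ 0) (hu : lam ᵥ* J j (τ (ι u)) = lam)
    (ha : lam ᵥ* J j (τ φ) = a • lam) : ‖a‖ ≤ B :=
  b181 H hq hα j hC hne τ hτ hB.le (pointwise H hq hα hs hp hne j (cls_cx hρ)
    (fun k hk x => by rw [cx_apply, Matrix.trace_toLin'_eq]; exact hre k hk x) i hi hi' π hπ hπ' hB
    (K := K) fun k hk => by simp only [cx_apply, Matrix.trace_toLin'_eq]; exact h2 k hk)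
    lam a h0 hu ha

/-- The same with the hypotheses `gen`, `pow` of `TFC.sys`. -/
theorem wend0 [FiniteDimensional ℂ W] (H : Ctx A l q α u U f) (hq : 0 < q)
    (hα : ∀ g, φ * ι (α g) = ι g * φ) (j : ℚ_[l] →+* ℂ)
    (gen : ∀ g : G, ∃ (n : ℤ) (p : P), g = φ ^ n * ι p) (hne : ∃ k, 0 < k ∧ Nonempty (U k))
    (pow : ∀ k m, 0 < k → 0 < m → ∀ x : U k, ∃ y : U (k * m),
      ∀ (V : Type) [AddCommGroup V] [Module ℂ V] [FiniteDimensional ℂ V]
        (σ : Representation ℂ G V), Cls (l := l) A ι j σ →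
        LinearMap.trace ℂ V (σ (φ ^ (k * m) * ι (f (k * m) y))) =
          LinearMap.trace ℂ V (σ (φ ^ k * ι (f k x)) ^ m))
    {C : ℝ} (hC : ∀ k, 0 < k → (Fintype.card (U k) : ℝ) ≤ C * q ^ k) (ρ : G →* Matrix d d ℤ_[l])
    (hρ : Rep A l (ρ.comp ι))
    (hre : ∀ k, 0 < k → ∀ x : U k, (LinearMap.trace ℂ _ (cx j ρ (φ ^ k * ι (f k x)))).im = 0)
    (τ : G →* Matrix e e ℤ_[l]) (hτ : Rep A l (τ.comp ι)) {σ : Representation ℂ G W}
    (i : W →ₗ[ℂ] d → ℂ) (hi : Function.Injective i) (hi' : ∀ g, cx j ρ g ∘ₗ i = i ∘ₗ σ g)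
    (π : W →ₗ[ℂ] e → ℂ) (hπ : Function.Surjective π) (hπ' : ∀ g, π ∘ₗ σ g = cx j τ g ∘ₗ π)
    {B K : ℝ} (hB : 0 < B) (h2 : ∀ k, 0 < k →
      ∑ x : U k, ‖LinearMap.trace ℂ _ (cx j τ (φ ^ k * ι (f k x)))‖ ^ 2 ≤ K * (q * B ^ 2) ^ k)
    (lam : e → ℂ) (a : ℂ) (h0 : lam ≠ 0) (hu : lam ᵥ* J j (τ (ι u)) = lam)
    (ha : lam ᵥ* J j (τ φ) = a • lam) : ‖a‖ ≤ B := by
  let S : Sys G := sys (ctx0 H) hq hα H.comap (fun k hk => trF H hα hk) j gen hne pow
  exact b181 H hq hα j hC hne τ hτ hB.le (Sys.bd_of_l2 (S := S) (cls_cx hτ)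
    (Sys.Fil.quo π hπ hπ' (Sys.Fil.sub i hi hi' (Sys.fil_of_real (S := S) (cls_cx hρ) hre))) hB h2)
    lam a h0 hu ha

/-- The rational representation of a lattice representation. -/
noncomputable def qx (ρ : G →* Matrix d d ℤ_[l]) (g : G) : End ℚ_[l] (d → ℚ_[l]) :=
  Matrix.toLin' ((ρ g).map (algebraMap ℤ_[l] ℚ_[l]))

lemma J_eq (j : ℚ_[l] →+* ℂ) (x : Matrix d d ℤ_[l]) :
    J j x = (x.map (algebraMap ℤ_[l] ℚ_[l])).map j := rfl

lemma J_trace (j : ℚ_[l] →+* ℂ) (x : Matrix d d ℤ_[l]) :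
    (J j x).trace = j (algebraMap ℤ_[l] ℚ_[l] x.trace) := by
  simp only [Matrix.trace, Matrix.diag_apply, map_sum, J_apply]

/-- From eigenfunctionals to the characteristic polynomial on a quotient of the `u`-coinvariants. -/
lemma quot_roots (j : ℚ_[l] →+* ℂ) (τ : G →* Matrix e e ℤ_[l]) (u φ : G) {B : ℝ}
    (h : ∀ (lam : e → ℂ) (a : ℂ), lam ≠ 0 → lam ᵥ* J j (τ u) = lam →
      lam ᵥ* J j (τ φ) = a • lam → ‖a‖ ≤ B)
    {Y : Type} [AddCommGroup Y] [Module ℚ_[l] Y] [FiniteDimensional ℚ_[l] Y] (Φ : End ℚ_[l] Y)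
    (c : (e → ℚ_[l]) →ₗ[ℚ_[l]] Y) (hc : Function.Surjective c) (hu : c ∘ₗ qx τ u = c)
    (hφ : c ∘ₗ qx τ φ = Φ ∘ₗ c) (z : ℂ) (hz : (Φ.charpoly.map j).IsRoot z) : ‖z‖ ≤ B := by
  let b := Module.finBasis ℚ_[l] Y
  let b0 := Pi.basisFun ℚ_[l] e
  obtain ⟨s, hs⟩ := c.exists_rightInverse_of_surjective (LinearMap.range_eq_top.2 hc)
  let Cm := LinearMap.toMatrix b0 b c
  have hq : ∀ g, LinearMap.toMatrix b0 b0 (qx τ g) = (τ g).map (algebraMap ℤ_[l] ℚ_[l]) :=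
    fun g => by rw [qx, LinearMap.toMatrix_eq_toMatrix', LinearMap.toMatrix'_toLin']
  have e1 : Cm * LinearMap.toMatrix b b0 s = 1 := by
    rw [← LinearMap.toMatrix_comp b b0 b, hs, LinearMap.toMatrix_id]
  have e2 : Cm * (τ u).map (algebraMap ℤ_[l] ℚ_[l]) = Cm := by
    rw [← hq, ← LinearMap.toMatrix_comp b0 b0 b, hu]
  have e3 : Cm * (τ φ).map (algebraMap ℤ_[l] ℚ_[l]) = LinearMap.toMatrix b b Φ * Cm := by
    rw [← hq, ← LinearMap.toMatrix_comp b0 b0 b, hφ, LinearMap.toMatrix_comp b0 b b]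
  rw [← LinearMap.charpoly_toMatrix Φ b, ← Matrix.charpoly_map] at hz
  obtain ⟨v, v0, hv⟩ := Wt.root_iff.1 hz
  refine h (v ᵥ* Cm.map j) z (fun e0 => v0 ?_) ?_ ?_
  · have := congrArg (· ᵥ* (LinearMap.toMatrix b b0 s).map j) e0
    simp only [Matrix.vecMul_vecMul, Matrix.zero_vecMul] at this
    rwa [← Matrix.map_mul, e1, Matrix.map_one _ (map_zero j) (map_one j), Matrix.vecMul_one] at this
  · rw [Matrix.vecMul_vecMul, J_eq, ← Matrix.map_mul, e2]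
  · rw [Matrix.vecMul_vecMul, J_eq, ← Matrix.map_mul, e3, Matrix.map_mul, ← Matrix.vecMul_vecMul, hv,
      Matrix.smul_vecMul]

/-- The end of the weight argument over `ℚ_[l]`. -/
theorem wendQ (H : Ctx A l q α u U f) (hq : 0 < q)
    (hα : ∀ g, φ * ι (α g) = ι g * φ) (hs : Function.Surjective α) (hp : PowOK A α U f)
    {C : ℝ} (hC : ∀ k, 0 < k → (Fintype.card (U k) : ℝ) ≤ C * q ^ k)
    (hne : ∃ k, 0 < k ∧ Nonempty (U k)) (j : ℚ_[l] →+* ℂ) (ρ : G →* Matrix d d ℤ_[l])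
    (hρ : Rep A l (ρ.comp ι)) (hre : ∀ k, 0 < k → ∀ x : U k,
      (j (algebraMap ℤ_[l] ℚ_[l] (ρ (φ ^ k * ι (f k x))).trace)).im = 0)
    (τ : G →* Matrix e e ℤ_[l]) (hτ : Rep A l (τ.comp ι)) {N : Type} [AddCommGroup N]
    [Module ℚ_[l] N] (σ : Representation ℚ_[l] G N)
    (i : N →ₗ[ℚ_[l]] d → ℚ_[l]) (hi : Function.Injective i) (hi' : ∀ g, qx ρ g ∘ₗ i = i ∘ₗ σ g)
    (π : N →ₗ[ℚ_[l]] e → ℚ_[l]) (hπ : Function.Surjective π) (hπ' : ∀ g, π ∘ₗ σ g = qx τ g ∘ₗ π)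
    {B K : ℝ} (hB : 0 < B) (h2 : ∀ k, 0 < k → ∑ x : U k,
      ‖j (algebraMap ℤ_[l] ℚ_[l] (τ (φ ^ k * ι (f k x))).trace)‖ ^ 2 ≤ K * (q * B ^ 2) ^ k)
    {Y : Type} [AddCommGroup Y] [Module ℚ_[l] Y] [FiniteDimensional ℚ_[l] Y] (Φ : End ℚ_[l] Y)
    (c : (e → ℚ_[l]) →ₗ[ℚ_[l]] Y) (hc : Function.Surjective c) (hu : c ∘ₗ qx τ (ι u) = c)
    (hφ : c ∘ₗ qx τ φ = Φ ∘ₗ c) (z : ℂ) (hz : (Φ.charpoly.map j).IsRoot z) : ‖z‖ ≤ B := by
  have := Module.Finite.of_injective i hi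
  let b := Module.finBasis ℚ_[l] N
  let bd := Pi.basisFun ℚ_[l] d
  let be := Pi.basisFun ℚ_[l] e
  let σ' : Representation ℂ G (Fin (finrank ℚ_[l] N) → ℂ) :=
    (Matrix.toLinAlgEquiv' : Matrix _ _ ℂ ≃ₐ[ℂ] _).toMonoidHom.comp
      (j.mapMatrix.toMonoidHom.comp ((LinearMap.toMatrixAlgEquiv b).toMonoidHom.comp σ))
  have hσ : ∀ g, σ' g = Matrix.toLin' ((LinearMap.toMatrix b b (σ g)).map j) := fun _ => rfl
  have hd : ∀ g, LinearMap.toMatrix bd bd (qx ρ g) = (ρ g).map (algebraMap ℤ_[l] ℚ_[l]) :=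
    fun g => by rw [qx, LinearMap.toMatrix_eq_toMatrix', LinearMap.toMatrix'_toLin']
  have he : ∀ g, LinearMap.toMatrix be be (qx τ g) = (τ g).map (algebraMap ℤ_[l] ℚ_[l]) :=
    fun g => by rw [qx, LinearMap.toMatrix_eq_toMatrix', LinearMap.toMatrix'_toLin']
  obtain ⟨r, hr⟩ := i.exists_leftInverse_of_injective (LinearMap.ker_eq_bot.2 hi)
  obtain ⟨s, hs'⟩ := π.exists_rightInverse_of_surjective (LinearMap.range_eq_top.2 hπ)
  refine quot_roots j τ (ι u) φ (wend H hq hα hs hp hC hne j ρ hρ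
    (fun k hk x => by rw [J_trace]; exact hre k hk x) τ hτ (σ := σ')
    (Matrix.toLin' ((LinearMap.toMatrix b bd i).map j)) ?_ (fun g => ?_)
    (Matrix.toLin' ((LinearMap.toMatrix b be π).map j)) ?_ (fun g => ?_) hB (K := K)
    fun k hk => by simp only [J_trace]; exact h2 k hk) Φ c hc hu hφ z hz
  · refine Function.LeftInverse.injective
      (g := Matrix.toLin' ((LinearMap.toMatrix bd b r).map j)) fun v => ?_
    rw [← LinearMap.comp_apply, ← Matrix.toLin'_mul, ← Matrix.map_mul,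
      ← LinearMap.toMatrix_comp b bd b, hr, LinearMap.toMatrix_id,
      Matrix.map_one _ (map_zero j) (map_one j), Matrix.toLin'_one, LinearMap.id_apply]
  · rw [cx_apply, hσ, J_eq, ← Matrix.toLin'_mul, ← Matrix.toLin'_mul, ← Matrix.map_mul,
      ← Matrix.map_mul, ← hd, ← LinearMap.toMatrix_comp b bd bd, hi',
      LinearMap.toMatrix_comp b b bd]
  · refine Function.RightInverse.surjective
      (g := Matrix.toLin' ((LinearMap.toMatrix be b s).map j)) fun v => ?_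
    rw [← LinearMap.comp_apply, ← Matrix.toLin'_mul, ← Matrix.map_mul,
      ← LinearMap.toMatrix_comp be b be, hs', LinearMap.toMatrix_id,
      Matrix.map_one _ (map_zero j) (map_one j), Matrix.toLin'_one, LinearMap.id_apply]
  · rw [cx_apply, hσ, J_eq, ← Matrix.toLin'_mul, ← Matrix.toLin'_mul, ← Matrix.map_mul,
      ← Matrix.map_mul, ← he, ← LinearMap.toMatrix_comp b be be, ← hπ',
      LinearMap.toMatrix_comp b b be]

/-- Direct sum of two lattice representations. -/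
noncomputable def dsum (τ : G →* Matrix e e ℤ_[l]) (ζ : G →* Matrix d d ℤ_[l]) :
    G →* Matrix (e ⊕ d) (e ⊕ d) ℤ_[l] where
  toFun g := Matrix.fromBlocks (τ g) 0 0 (ζ g)
  map_one' := by rw [map_one, map_one, Matrix.fromBlocks_one]
  map_mul' g h := by simp [Matrix.fromBlocks_multiply]

lemma dsum_rep {τ : G →* Matrix e e ℤ_[l]} {ζ : G →* Matrix d d ℤ_[l]} (hτ : Rep A l (τ.comp ι))
    (hζ : Rep A l (ζ.comp ι)) : Rep A l ((dsum τ ζ).comp ι) := by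
  have key : ∀ (c : ℤ_[l]) g, (∀ a b, c ∣ (τ g - 1) a b) → (∀ a b, c ∣ (ζ g - 1) a b) →
      ∀ a b, c ∣ (dsum τ ζ g - 1) a b := fun c g h1 h2 a b => by
    have : dsum τ ζ g - 1 = Matrix.fromBlocks (τ g - 1) 0 0 (ζ g - 1) := by
      rw [← Matrix.fromBlocks_one, sub_eq_iff_eq_add, Matrix.fromBlocks_add]
      simp [dsum]
    rw [this]
    rcases a with a | a <;> rcases b with b | b
    · exact h1 a b
    · exact dvd_zero c
    · exact dvd_zero c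
    · exact h2 a b
  refine ⟨fun g => key _ _ (hτ.one g) (hζ.one g), fun n => ?_⟩
  obtain ⟨M, h1, h2⟩ := hτ.adm n
  obtain ⟨M', h3, h4⟩ := hζ.adm n
  exact ⟨M ⊓ M', A.inf h1 h3, fun g hg => key _ _ (h2 g hg.1) (h4 g hg.2)⟩

/-- The end of the weight argument when `τ ⊕ ζ` has real traces. -/
theorem wendS (H : Ctx A l q α u U f) (hq : 0 < q)
    (hα : ∀ g, φ * ι (α g) = ι g * φ) (hs : Function.Surjective α) (hp : PowOK A α U f)
    {C : ℝ} (hC : ∀ k, 0 < k → (Fintype.card (U k) : ℝ) ≤ C * q ^ k)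
    (hne : ∃ k, 0 < k ∧ Nonempty (U k)) (j : ℚ_[l] →+* ℂ) (τ : G →* Matrix e e ℤ_[l])
    (hτ : Rep A l (τ.comp ι)) (ζ : G →* Matrix d d ℤ_[l]) (hζ : Rep A l (ζ.comp ι))
    (hre : ∀ k, 0 < k → ∀ x : U k, (j (algebraMap ℤ_[l] ℚ_[l]
      ((τ (φ ^ k * ι (f k x))).trace + (ζ (φ ^ k * ι (f k x))).trace))).im = 0)
    {B K : ℝ} (hB : 0 < B) (h2 : ∀ k, 0 < k → ∑ x : U k,
      ‖j (algebraMap ℤ_[l] ℚ_[l] (τ (φ ^ k * ι (f k x))).trace)‖ ^ 2 ≤ K * (q * B ^ 2) ^ k)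
    {Y : Type} [AddCommGroup Y] [Module ℚ_[l] Y] [FiniteDimensional ℚ_[l] Y] (Φ : End ℚ_[l] Y)
    (c : (e → ℚ_[l]) →ₗ[ℚ_[l]] Y) (hc : Function.Surjective c) (hu : c ∘ₗ qx τ (ι u) = c)
    (hφ : c ∘ₗ qx τ φ = Φ ∘ₗ c) (z : ℂ) (hz : (Φ.charpoly.map j).IsRoot z) : ‖z‖ ≤ B := by
  refine quot_roots j τ (ι u) φ (wend H hq hα hs hp hC hne j (dsum τ ζ) (dsum_rep hτ hζ)
    (fun k hk x => ?_) τ hτ (σ := cx j (dsum τ ζ)) LinearMap.id Function.injective_id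
    (fun _ => rfl) (LinearMap.funLeft ℂ ℂ Sum.inl)
    (LinearMap.funLeft_surjective_of_injective _ _ _ Sum.inl_injective) (fun g => ?_) hB (K := K)
    fun k hk => by simp only [J_trace]; exact h2 k hk) Φ c hc hu hφ z hz
  · rw [J_trace]
    convert hre k hk x using 4
    simp [dsum, Matrix.trace]
  · refine LinearMap.ext fun v => funext fun a => ?_
    simp [cx_apply, dsum, LinearMap.funLeft, Matrix.mulVec, dotProduct, J_apply]

end Pool.Agent.MP_855f4c_ag.E.WEnd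

end
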