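import Pool.Agent.MP_855f4c_ag.WD.Glue
import Pool.Agent.MP_855f4c_ag.EC.Wa
import Pool.Agent.MP_855f4c_ag.EC.Wb

section

namespace Pool.Agent.MP_855f4c_ag.E.W

open Polynomial IntermediateField H7

variable {k Ω : Type} [Field k] [Field Ω] [Algebra k Ω]

/-- `V` is a place of `Ω` above the point `ξ = x`. -/
def At (ξ : Ω) (x : k) (V : ValuationSubring Ω) : Prop :=
  (∀ c : k, algebraMap k Ω c ∈ V) ∧ ξ - algebraMap k Ω x ∈ V.nonunits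

lemma At.ne_top {ξ : Ω} (hξ : Transcendental k ξ) {x : k} {V : ValuationSubring Ω}
    (h : At ξ x V) : V ≠ ⊤ := fun e =>
  nu_not (a := ξ - algebraMap k Ω x) (fun e => hξ (sub_eq_zero.1 e ▸ isAlgebraic_algebraMap x))
    (e.ge trivial) h.2

lemma At.uniq {ξ : Ω} {x y : k} {V : ValuationSubring Ω} (h : At ξ x V) (h' : At ξ y V) : x = y :=
  (sub_eq_zero.1 (nu_const h.1 (by simpa using nu_sub h.2 h'.2))).symm

lemma exists_at {ξ : Ω} (hξ : Transcendental k ξ) (x : k) : ∃ V, At ξ x V := by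
  let B := Algebra.adjoin k {ξ}
  let e := algEquivOfTranscendental k ξ hξ
  have h1 : RingHom.ker ((aeval x).comp e.symm.toAlgHom) ≠ ⊤ := RingHom.ker_ne_top _
  obtain ⟨V, h3, h4⟩ := Ideal.image_subset_nonunits_valuationSubring (A := B.toSubring) _ h1
  refine ⟨V, fun c => h3 (B.algebraMap_mem c), h4 ⟨e (X - C x), ?_, ?_⟩⟩
  · change aeval x (e.symm (e _)) = 0
    simp
  · simp [e]; rfl

lemma conj0 [IsAlgClosed Ω] {ξ : Ω} (hξ : Transcendental k ξ)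
    (ha : ∀ z : Ω, IsAlgebraic (Algebra.adjoin k {ξ}) z) {x : k} {V V' : ValuationSubring Ω}
    (h : At ξ x V) (h' : At ξ x V') :
    ∃ g : Ω ≃ₐ[k⟮ξ⟯] Ω, ∀ z, g z ∈ V ↔ z ∈ V' := by
  let O := Algebra.adjoin k {ξ}
  have hO : ∀ o : O, ∃ f : k[X], algebraMap O Ω o = aeval ξ f := by
    rintro ⟨o, ho⟩
    obtain ⟨f, rfl⟩ := (Algebra.adjoin_singleton_eq_range_aeval k _).le ho
    exact ⟨f, rfl⟩
  have : IsPrincipalIdealRing O := IsPrincipalIdealRing.of_surjective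
    (algEquivOfTranscendental k _ hξ) (AlgEquiv.surjective _)
  have : Algebra.IsAlgebraic O Ω := ⟨ha⟩
  obtain ⟨g, hg⟩ := val_conj' (O := O) Subtype.val_injective V V'
    (fun o => by obtain ⟨f, e⟩ := hO o; exact e ▸ (nu_aeval h.1 h.2 f).1)
    (fun o => by obtain ⟨f, e⟩ := hO o; exact e ▸ (nu_aeval h'.1 h'.2 f).1)
    (fun o => by obtain ⟨f, e⟩ := hO o; rw [e, (nu_aeval h.1 h.2 f).2, (nu_aeval h'.1 h'.2 f).2])
  have h3 : ∀ f : k[X], g (aeval ξ f) = aeval ξ f := fun f =>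
    g.commutes ⟨_, aeval_mem_adjoin_singleton _ _⟩
  refine ⟨{ g.toRingEquiv with commutes' := ?_ }, hg⟩
  rintro ⟨a, ha⟩
  obtain ⟨r, s, rfl⟩ := (mem_adjoin_simple_iff k _).1 ha
  change g (_ / _) = _ / _
  rw [map_div₀, h3, h3]

/-- The curve `X ≠ 0, h(X) ≠ 0` over the closure of a finite field. -/
structure Gr (p l : ℕ) (k Ω : Type) [Field k] [Field Ω] [Algebra k Ω] where
  hp : p.Prime
  hl : l.Prime
  hlp : l ≠ p
  char : CharP k p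
  closed : IsAlgClosed k
  alg : ∀ c : k, ∃ n, n ≠ 0 ∧ c ^ p ^ n = c
  closedΩ : IsAlgClosed Ω
  X : Ω
  tr : Transcendental k X
  algΩ : Algebra.IsAlgebraic k⟮X⟯ Ω
  h : k[X]
  h0 : h ≠ 0

namespace Gr

variable {p l : ℕ} (Γ : Gr p l k Ω)

/-- points of the curve -/
def Pnt (x : k) : Prop := x ≠ 0 ∧ Γ.h.eval x ≠ 0

/-- `ψ` is an arithmetic Frobenius relative to `Q`. -/
structure Fr (Q : ℕ) (ψ : Ω ≃+* Ω) : Prop where
  X : ψ Γ.X = Γ.X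
  h : ψ (aeval Γ.X Γ.h) = aeval Γ.X Γ.h
  c : ∀ c : k, ψ (algebraMap k Ω c) = algebraMap k Ω c ^ Q

/-- open subgroups that contain the inertia groups -/
def adm {K : Type} [Field K] [Algebra K Ω] (M : Subgroup (Ω ≃ₐ[K] Ω)) : Prop :=
  (∃ E : Finset Ω, ∀ g : Ω ≃ₐ[K] Ω, (∀ z ∈ E, g z = z) → g ∈ M) ∧
    ∀ x V, Γ.Pnt x → At Γ.X x V → ∀ g : Ω ≃ₐ[K] Ω, Stab g V → g ∈ M

lemma algX (z : Ω) : IsAlgebraic (Algebra.adjoin k {Γ.X}) z :=
  isAlgebraic_adjoin_iff.1 (Γ.algΩ.isAlgebraic z)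

lemma conj {x : k} {V V' : ValuationSubring Ω} (h : At Γ.X x V) (h' : At Γ.X x V') :
    ∃ g : Ω ≃ₐ[k⟮Γ.X⟯] Ω, ∀ z, g z ∈ V ↔ z ∈ V' :=
  have := Γ.closedΩ
  conj0 Γ.tr Γ.algX h h'

lemma X_ne : Γ.X ≠ 0 := fun e => Γ.tr (e ▸ isAlgebraic_zero)

include Γ in
lemma l_ne : (l : k) ≠ 0 := fun h => by
  have := Γ.char
  exact Γ.hlp ((Nat.prime_dvd_prime_iff_eq Γ.hp Γ.hl).1 ((CharP.cast_eq_zero_iff k p l).1 h)).symm

variable {Γ}

lemma Fr.at {Q : ℕ} {ψ : Ω ≃+* Ω} (hψ : Γ.Fr Q ψ) {x : k} {V : ValuationSubring Ω}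
    (h : At Γ.X (x ^ Q) V) : At Γ.X x (V.comap (ψ : Ω →+* Ω)) :=
  ⟨fun c => by
    change ψ _ ∈ V
    rw [hψ.c, ← map_pow]; exact h.1 _, (nu_map (ψ : Ω →+* Ω) (fun _ => Iff.rfl) _).1 (by
    rw [RingHom.coe_coe, map_sub, hψ.X, hψ.c, ← map_pow]; exact h.2)⟩

lemma Fr.fix {Q : ℕ} {ψ : Ω ≃+* Ω} (hψ : Γ.Fr Q ψ) {x : k} {V : ValuationSubring Ω}
    (h : At Γ.X x V) (hs : Stab ψ V) : x ^ Q = x := by
  have h2 := (nu_map (ψ : Ω →+* Ω) hs _).2 h.2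
  rw [RingHom.coe_coe, map_sub, hψ.X, hψ.c, ← map_pow] at h2
  exact At.uniq ⟨h.1, h2⟩ h

lemma fix_aeval (g : Ω ≃ₐ[k⟮Γ.X⟯] Ω) (f : k[X]) : g (aeval Γ.X f) = aeval Γ.X f :=
  g.commutes ⟨_, algebra_adjoin_le_adjoin k _ (aeval_mem_adjoin_singleton _ _)⟩

lemma Fr.mul {Q : ℕ} {ψ : Ω ≃+* Ω} (hψ : Γ.Fr Q ψ) (g : Ω ≃ₐ[k⟮Γ.X⟯] Ω) :
    Γ.Fr Q (ψ * g.toRingEquiv) :=
  ⟨by change ψ (g _) = _; rw [show g Γ.X = Γ.X by simpa using fix_aeval g Polynomial.X, hψ.X],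
    by change ψ (g _) = _; rw [fix_aeval, hψ.h],
    fun c => by change ψ (g _) = _; rw [fix_const, hψ.c]⟩

lemma Fr.pow {Q : ℕ} {ψ : Ω ≃+* Ω} (hψ : Γ.Fr Q ψ) (m : ℕ) : Γ.Fr (Q ^ m) (ψ ^ m) := by
  induction m with
  | zero => exact ⟨rfl, rfl, fun c => by simp⟩
  | succ m ih =>
    rw [pow_succ ψ]
    exact ⟨(congrArg (ψ ^ m :) hψ.X).trans ih.X, (congrArg (ψ ^ m :) hψ.h).trans ih.h, fun c =>
      (congrArg (ψ ^ m :) (hψ.c c)).trans (by rw [map_pow, ih.c, ← pow_mul, ← pow_succ])⟩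

/-- a Frobenius can be moved into the decomposition group of a rational point -/
lemma Fr.stab {Q : ℕ} {ψ : Ω ≃+* Ω} (hψ : Γ.Fr Q ψ) {x : k} (hx : x ^ Q = x)
    {V : ValuationSubring Ω} (h : At Γ.X x V) :
    ∃ g : Ω ≃ₐ[k⟮Γ.X⟯] Ω, Stab (ψ * g.toRingEquiv) V :=
  Γ.conj (hψ.at (hx.symm ▸ h)) h

variable (Γ) {q : ℕ} {K : Type} [Field K] [Algebra k K] [Algebra K Ω] [IsScalarTower k K Ω]

lemma exists_u {V : ValuationSubring Ω} (h : At Γ.X (0 : k) V) :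
    ∃ (u : Ω ≃ₐ[k⟮Γ.X⟯] Ω) (r : Ω), Stab u V ∧ r ^ l = Γ.X ∧ u r ≠ r := by
  have := Γ.closed
  have := Γ.closedΩ
  have : NeZero (l : k) := ⟨Γ.l_ne⟩
  have : NeZero l := ⟨Γ.hl.ne_zero⟩
  obtain ⟨ζ, hζ⟩ := HasEnoughRootsOfUnity.exists_primitiveRoot k l
  obtain ⟨r, hr⟩ := IsAlgClosed.exists_pow_nat_eq Γ.X Γ.hl.pos
  have hrt : Transcendental k r := fun e => Γ.tr (hr ▸ e.pow l)
  have hra : ∀ z : Ω, IsAlgebraic (Algebra.adjoin k {r}) z := fun z =>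
    IsAlgebraic.adjoin_of_forall_isAlgebraic (fun x hx => hx.1 ▸ hr ▸ isAlgebraic_algebraMap
      (⟨r ^ l, pow_mem (Algebra.self_mem_adjoin_singleton k r) l⟩ : Algebra.adjoin k {r}))
      (Γ.algX z)
  have hV : At r (0 : k) V := ⟨h.1, by
    have := h.2
    rw [map_zero, sub_zero] at this ⊢
    exact nu_pow (hr ▸ this)⟩
  have ζ0 : ζ ≠ 0 := hζ.ne_zero Γ.hl.ne_zero
  let e := algEquivOfTranscendental k r hrt
  let _ := invertibleOfNonzero ζ0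
  let γ := (e.symm.trans (algEquivCMulXAddC ζ 0)).trans e
  have : Algebra.IsAlgebraic (Algebra.adjoin k {r}) Ω := ⟨hra⟩
  have : IsAlgClosure (Algebra.adjoin k {r}) Ω := ⟨inferInstance, inferInstance⟩
  let τ := IsAlgClosure.equivOfEquiv Ω Ω γ.toRingEquiv
  have hτ : ∀ f : k[X], τ (aeval r f) = aeval r (f.comp (C ζ * Polynomial.X + C 0)) := fun f => by
    have := IsAlgClosure.equivOfEquiv_algebraMap Ω Ω γ.toRingEquiv (e f)
    simpa [e, γ, τ, comp_eq_aeval] using this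
  have h1 : τ r = algebraMap k Ω ζ * r := by simpa using hτ Polynomial.X
  have h2 : ∀ c, τ (algebraMap k Ω c) = algebraMap k Ω c := fun c => by simpa using hτ (C c)
  obtain ⟨g, hg⟩ := conj0 hrt hra (V := V.comap (τ : Ω →+* Ω)) (x := 0) ⟨fun c => by
    change τ _ ∈ V
    rw [h2]; exact h.1 c, (nu_map (τ : Ω →+* Ω) (fun _ => Iff.rfl) _).1 (by
      have := hV.2
      rw [map_zero, sub_zero] at this ⊢
      rw [RingHom.coe_coe, h1, mul_comm]; exact nu_mul this (h.1 ζ))⟩ hV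
  have h3 : g r = r := g.commutes ⟨r, mem_adjoin_simple_self k r⟩
  have h4 : ∀ f : k[X], τ (g (aeval Γ.X f)) = aeval Γ.X f := fun f => by
    induction f using Polynomial.induction_on' with
    | add a b ha hb => simp only [map_add, ha, hb]
    | monomial n c =>
      rw [aeval_monomial, ← hr]
      simp only [map_mul, map_pow, fix_const, h2, h3, h1, mul_pow]
      rw [← map_pow, hζ.pow_eq_one, map_one, one_pow, one_mul]
  refine ⟨{ g.toRingEquiv.trans τ with commutes' := ?_ }, r, hg, hr, fun e => ?_⟩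
  · rintro ⟨a, ha⟩
    obtain ⟨r, s, rfl⟩ := (mem_adjoin_simple_iff k _).1 ha
    change τ (g (_ / _)) = _ / _
    rw [map_div₀, map_div₀, h4, h4]
  · change τ (g r) = r at e
    rw [h3, h1, mul_eq_right₀ (fun e : r = 0 => hrt (e ▸ isAlgebraic_zero)), map_eq_one_iff _
      (algebraMap k Ω).injective] at e
    exact hζ.ne_one Γ.hl.one_lt e

lemma h_ne : aeval Γ.X Γ.h ≠ 0 := fun e => Γ.tr ⟨_, Γ.h0, e⟩

lemma res {V : ValuationSubring Ω} (D : Cv p q l k K Ω) (hX : algebraMap K Ω D.X = Γ.X)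
    (h : Pt k D.T V) : ∃ x : k, At Γ.X x V := by
  obtain ⟨x, hx⟩ := D.res V h.ne h.const _ (h.reg _ D.hX)
  exact ⟨x, h.const, hX ▸ hx⟩

/-- `D` is a curve over `Γ`. -/
structure Ov (D : Cv p q l k K Ω) : Prop where
  X : algebraMap K Ω D.X = Γ.X
  pt : ∀ V : ValuationSubring Ω, Pt k D.T V ↔ ∃ x : k, Γ.Pnt x ∧ At Γ.X x V

lemma Ov.adm {Γ : Gr p l k Ω} {D : Cv p q l k K Ω} (h : Γ.Ov D) (M : Subgroup (Ω ≃ₐ[K] Ω)) :
    D.A.adm M ↔ Γ.adm M :=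
  and_congr_right fun _ => ⟨fun H x V h1 h2 => H V ((h.pt V).2 ⟨x, h1, h2⟩), fun H V hV => by
    obtain ⟨x, h1, h2⟩ := (h.pt V).1 hV
    exact H x V h1 h2⟩

lemma exists_cv (hq : ∃ e, e ≠ 0 ∧ q = p ^ e) {ψ : Ω ≃+* Ω} (hψ : Γ.Fr q ψ)
    (K : IntermediateField k Ω) (hK : K.FG) (hX : Γ.X ∈ K) (hs : ∀ z, ψ z ∈ K ↔ z ∈ K)
    {V : ValuationSubring Ω} (hV : At Γ.X (0 : k) V) (hψV : Stab ψ V) (u : Ω ≃ₐ[K] Ω)
    (hu : Stab u V) (r : Ω) (j : ℕ) (hr : r ^ l ∈ K) (hj : (r ^ l) ^ l ^ j = Γ.X) (hur : u r ≠ r) :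
    ∃ D : Cv p q l k K Ω, Γ.Ov D ∧ D.φ = ψ ∧ D.u = u := by
  classical
  let XK : K := ⟨Γ.X, hX⟩
  have hle : k⟮Γ.X⟯ ≤ K := adjoin_simple_le_iff.2 hX
  have hF : Algebra.IsAlgebraic k⟮XK⟯ Ω := ⟨fun z => by
    have := Γ.algΩ.isAlgebraic z
    rw [isAlgebraic_adjoin_iff] at this ⊢
    refine this.ringHom_of_comp_eq (RingHom.codRestrict ((inclusion hle).toRingHom.comp
      (Subalgebra.inclusion (algebra_adjoin_le_adjoin k _)).toRingHom)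
      (Algebra.adjoin k {XK}).toSubring ?_) (RingHom.id Ω) (fun a b h => Subtype.ext
        (congrArg (fun z : Algebra.adjoin k {XK} => (z.1 : Ω)) h)) rfl
    rintro ⟨a, ha⟩
    obtain ⟨f, rfl⟩ := (Algebra.adjoin_singleton_eq_range_aeval k _).le ha
    have e : (inclusion hle ⟨aeval Γ.X f, algebra_adjoin_le_adjoin k _ ha⟩ : K) = aeval XK f :=
      Subtype.ext (aeval_algebraMap_apply Ω XK f)
    exact (e ▸ aeval_mem_adjoin_singleton k XK :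
      (inclusion hle ⟨aeval Γ.X f, algebra_adjoin_le_adjoin k _ ha⟩ : K) ∈ Algebra.adjoin k {XK})⟩
  have hh : algebraMap K Ω (aeval XK Γ.h) = aeval Γ.X Γ.h := (aeval_algebraMap_apply Ω XK _).symm
  have hh' : algebraMap K Ω (aeval XK Γ.h)⁻¹ = (aeval Γ.X Γ.h)⁻¹ := by rw [map_inv₀, hh]
  let D : Cv p q l k K Ω :=
    { hp := Γ.hp, hl := Γ.hl, hlp := Γ.hlp, char := Γ.char, closed := Γ.closed, alg := Γ.alg
      closedΩ := Γ.closedΩ
      algΩ := Algebra.IsAlgebraic.tower_top (K := k⟮XK⟯) K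
      hq := hq
      X := XK
      tr := (transcendental_algebraMap_iff (algebraMap K Ω).injective).1 Γ.tr
      fd := by
        have : Algebra.EssFiniteType k K := essFiniteType_iff.2 hK
        have := Algebra.EssFiniteType.of_comp k k⟮XK⟯ K
        have : Algebra.IsAlgebraic k⟮XK⟯ K := Algebra.IsAlgebraic.tower_bot k⟮XK⟯ K Ω
        exact Algebra.finite_of_essFiniteType_of_isAlgebraic
      T := {XK, XK⁻¹, (aeval XK Γ.h)⁻¹}
      hX := by simp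
      hX' := by simp
      φ := ψ
      σ :=
        { toFun := fun z => ⟨ψ z, (hs _).2 z.2⟩
          invFun := fun z => ⟨ψ.symm z, (hs _).1 (by simp)⟩
          left_inv := fun z => Subtype.ext (ψ.symm_apply_apply z)
          right_inv := fun z => Subtype.ext (ψ.apply_symm_apply z)
          map_mul' := fun a b => Subtype.ext (map_mul ψ a.1 b.1)
          map_add' := fun a b => Subtype.ext (map_add ψ a.1 b.1) }
      hφ := fun _ => rfl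
      hk := fun c => Subtype.ext (hψ.c c)
      hT := fun f hf => Subtype.ext (by
        change ψ f = f
        simp only [Finset.mem_insert, Finset.mem_singleton] at hf
        rcases hf with rfl | rfl | rfl
        · exact hψ.X
        · exact (map_inv₀ ψ Γ.X).trans (congrArg _ hψ.X)
        · exact ((congrArg ψ hh').trans (by rw [map_inv₀, hψ.h])).trans hh'.symm)
      u := u, V0 := V, V0ne := hV.ne_top Γ.tr, V0k := hV.1, V0φ := hψV, V0u := hu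
      t := ⟨r ^ l, hr⟩
      ht := ⟨j, Subtype.ext hj⟩
      r := r
      hr := rfl
      hur := hur }
  have hT : D.T = {XK, XK⁻¹, (aeval XK Γ.h)⁻¹} := rfl
  refine ⟨D, ⟨rfl, fun W => ?_⟩, rfl, rfl⟩
  constructor
  · intro h
    obtain ⟨x, hx⟩ := Γ.res D rfl h
    rw [hT] at h
    refine ⟨x, ⟨fun e => ?_, fun e => ?_⟩, hx⟩
    · have := hx.2
      rw [e, map_zero, sub_zero] at this
      exact nu_not Γ.X_ne (h.reg XK⁻¹ (by simp)) this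
    · exact nu_not Γ.h_ne (hh' ▸ h.reg (aeval XK Γ.h)⁻¹ (by simp)) ((nu_aeval hx.1 hx.2 _).2.2 e)
  · rintro ⟨x, ⟨h1, h2⟩, hx⟩
    refine ⟨hx.ne_top Γ.tr, hx.1, fun f hf => ?_⟩
    simp only [hT, Finset.mem_insert, Finset.mem_singleton] at hf
    have h3 := nu_aeval hx.1 hx.2 Polynomial.X
    rw [aeval_X, eval_X] at h3
    rcases hf with rfl | rfl | rfl
    · exact h3.1
    · exact (nu_inv (mt h3.2.1 h1)).2
    · exact hh' ▸ (nu_inv (mt (nu_aeval hx.1 hx.2 _).2.1 h2)).2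

variable {Γ}

lemma Fr.stabX {Q : ℕ} (hQ : 0 < Q) {ψ : Ω ≃+* Ω} (hψ : Γ.Fr Q ψ) (S : Set Ω) (hS : ∀ z ∈ S, ψ z ∈ adjoin k S)
    (hS' : ∀ z ∈ S, ψ.symm z ∈ adjoin k S) (z : Ω) : ψ z ∈ adjoin k S ↔ z ∈ adjoin k S := by
  have := Γ.closed
  have key : ∀ g : Ω ≃+* Ω, (∀ z ∈ S, g z ∈ adjoin k S) →
      (∀ c, ∃ c', g (algebraMap k Ω c) = algebraMap k Ω c') → ∀ z ∈ adjoin k S, g z ∈ adjoin k S := by
    intro g h1 h2 z hz
    induction hz using IntermediateField.adjoin_induction with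
    | mem z hz => exact h1 z hz
    | algebraMap c => obtain ⟨c', e⟩ := h2 c; exact e ▸ IntermediateField.algebraMap_mem _ c'
    | add x y _ _ hx hy => rw [map_add]; exact add_mem hx hy
    | inv x _ hx => rw [map_inv₀]; exact inv_mem hx
    | mul x y _ _ hx hy => rw [map_mul]; exact mul_mem hx hy
  refine ⟨fun h => ψ.symm_apply_apply z ▸ key ψ.symm hS' (fun c => ?_) _ h,
    key ψ hS (fun c => ⟨c ^ Q, by rw [hψ.c, map_pow]⟩) z⟩
  obtain ⟨c, rfl⟩ := IsAlgClosed.exists_pow_nat_eq c hQ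
  exact ⟨c, ψ.symm_apply_eq.2 (by rw [hψ.c, map_pow])⟩

/-- the base curve -/
lemma exists_base (hq : ∃ e, e ≠ 0 ∧ q = p ^ e) {ψ : Ω ≃+* Ω} (hψ : Γ.Fr q ψ)
    {V : ValuationSubring Ω} (hV : At Γ.X (0 : k) V) (hψV : Stab ψ V) :
    ∃ D : Cv p q l k k⟮Γ.X⟯ Ω, Γ.Ov D ∧ D.φ = ψ := by
  obtain ⟨u, r, h1, h2, h3⟩ := Γ.exists_u hV
  have hq0 : 0 < q := by obtain ⟨e, -, rfl⟩ := hq; exact pow_pos Γ.hp.pos e
  have hX := mem_adjoin_simple_self k Γ.X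
  obtain ⟨D, h4, h5, -⟩ := Γ.exists_cv hq hψ k⟮Γ.X⟯ (fg_adjoin_of_finite (Set.finite_singleton _))
    hX (hψ.stabX hq0 _ (by rintro _ rfl; rwa [hψ.X])
      (by rintro _ rfl; rwa [ψ.symm_apply_eq.2 hψ.X.symm])) hV hψV u h1 r 0 (h2 ▸ hX)
    (by rw [pow_zero, pow_one, h2]) h3
  exact ⟨D, h4, h5⟩

lemma per_of_fin (g : Ω ≃+* Ω) {z : Ω} {s : Set Ω} (hs : s.Finite) (h : ∀ n : ℕ, (g ^ n) z ∈ s) :
    ∃ m, m ≠ 0 ∧ (g ^ m) z = z := by
  obtain ⟨i, j, hij, e⟩ := hs.exists_lt_map_eq_of_forall_mem h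
  obtain ⟨d, rfl⟩ := Nat.exists_eq_add_of_lt hij
  refine ⟨d + 1, d.succ_ne_zero, (g ^ i).injective ?_⟩
  rw [e, add_assoc, pow_add g i]; rfl

/-- the level cover -/
lemma exists_level (hq : ∃ e, e ≠ 0 ∧ q = p ^ e) {ψ : Ω ≃+* Ω} (hψ : Γ.Fr q ψ)
    {V : ValuationSubring Ω} (hV : At Γ.X (0 : k) V) (hψV : Stab ψ V) (E : Finset Ω) :
    ∃ (K : IntermediateField k Ω) (D : Cv p q l k K Ω), Γ.X ∈ K ∧ (∀ z ∈ E, z ∈ K) ∧ Γ.Ov D ∧
      D.φ = ψ ∧ Stab D.u V := by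
  classical
  have hl := Γ.hl
  have := Γ.closed
  have := Γ.closedΩ
  have := Γ.algΩ
  have hq0 : 0 < q := by obtain ⟨e, -, rfl⟩ := hq; exact pow_pos Γ.hp.pos e
  obtain ⟨D0, -, hD0⟩ := exists_base hq hψ hV hψV
  obtain ⟨u, x, huV, hx, hux⟩ := Γ.exists_u hV
  choose so hso hso' using D0.φ_orb
  rw [hD0] at hso'
  let E' : Set Ω := ⋃ z ∈ E, Set.range fun n : ℕ => (ψ ^ n) z
  have hE' : E'.Finite := E.finite_toSet.biUnion fun z _ => (hso z).subset (by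
    rintro _ ⟨n, rfl⟩; exact hso' z n)
  have hpow : ∀ (g : Ω ≃ₐ[k⟮Γ.X⟯] Ω) z, g z = z → ∀ m : ℕ, (g ^ m) z = z := fun g z hz m => by
    induction m with
    | zero => rfl
    | succ m ih => rw [pow_succ, AlgEquiv.mul_apply, hz, ih]
  obtain ⟨m, hm, hmE⟩ : ∃ m, m ≠ 0 ∧ ∀ z ∈ E', (u ^ m) z = z := by
    have h1 : ∀ z, ∃ m, m ≠ 0 ∧ (u ^ m) z = z := fun z => by
      obtain ⟨i, j, hij, e⟩ := (orb_fin (E := k⟮Γ.X⟯) z).exists_lt_map_eq_of_forall_mem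
        (f := fun n : ℕ => (u ^ n) z) fun n => MulAction.mem_orbit z (u ^ n)
      obtain ⟨d, rfl⟩ := Nat.exists_eq_add_of_lt hij
      refine ⟨d + 1, d.succ_ne_zero, (u ^ i).injective ?_⟩
      rw [← AlgEquiv.mul_apply, ← pow_add, ← add_assoc]; exact e.symm
    choose n hn hn' using h1
    refine ⟨∏ z ∈ hE'.toFinset, n z, Finset.prod_ne_zero_iff.2 fun z _ => hn z, fun z hz => ?_⟩
    obtain ⟨d, hd⟩ := Finset.dvd_prod_of_mem n (hE'.mem_toFinset.2 hz)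
    rw [hd, pow_mul]; exact hpow _ _ (hn' z) d
  have huX : u Γ.X = Γ.X := by simpa using fix_aeval u Polynomial.X
  have hk5 : ∀ (z : Ω) (N : ℕ), N ≠ 0 → z ^ N = 1 → ∃ c : k, algebraMap k Ω c = z := fun z N hN h =>
    minpoly.mem_range_of_degree_eq_one k z (IsAlgClosed.degree_eq_one_of_irreducible k
      (minpoly.irreducible (IsIntegral.of_pow (Nat.pos_of_ne_zero hN) (h ▸ isIntegral_one))))
  have hex : ∃ n, ¬ ∀ r, r ^ l ^ n = Γ.X → (u ^ m) r = r := by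
    refine ⟨m + 1, fun h => hux ?_⟩
    obtain ⟨r, hr⟩ := IsAlgClosed.exists_pow_nat_eq x (pow_pos hl.pos m)
    have h3 : r ^ l ^ (m + 1) = Γ.X := by rw [pow_succ, pow_mul, hr, hx]
    have r0 : r ≠ 0 := fun e => Γ.X_ne (by rw [← h3, e, zero_pow (pow_pos hl.pos _).ne'])
    have h4 : (u r / r) ^ l ^ (m + 1) = 1 := by rw [div_pow, ← map_pow, h3, huX, div_self Γ.X_ne]
    obtain ⟨c, hc⟩ := hk5 _ _ (pow_pos hl.pos _).ne' h4
    have h5 : ∀ a : ℕ, (u ^ a) r = (u r / r) ^ a * r := fun a => by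
      induction a with
      | zero => simp
      | succ a ih =>
        rw [pow_succ', AlgEquiv.mul_apply, ih, map_mul, map_pow, ← hc, fix_const, hc, pow_succ,
          mul_assoc, div_mul_cancel₀ _ r0]
    have h6 : (u r / r) ^ m = 1 :=
      mul_right_cancel₀ r0 ((h5 m).symm.trans ((h r h3).trans (one_mul r).symm))
    obtain ⟨a, -, ha⟩ := (Nat.dvd_prime_pow hl).1 (orderOf_dvd_of_pow_eq_one h4)
    have h7 : a ≤ m := (Nat.lt_pow_self hl.one_lt).le.trans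
      (Nat.le_of_dvd (Nat.pos_of_ne_zero hm) (ha ▸ orderOf_dvd_of_pow_eq_one h6))
    have h8 : (u r / r) ^ l ^ m = 1 := orderOf_dvd_iff_pow_eq_one.1 (ha ▸ pow_dvd_pow l h7)
    rw [div_pow, ← map_pow, hr, div_eq_one_iff_eq (hr ▸ pow_ne_zero _ r0)] at h8
    exact h8
  obtain ⟨j, hj⟩ := Nat.exists_eq_succ_of_ne_zero (n := Nat.find hex) fun e =>
    Nat.find_spec hex fun r hr => by
      rw [e, pow_zero, pow_one] at hr
      exact hr ▸ hpow _ _ huX m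
  have h3 := Nat.find_spec hex
  have h4 := not_not.1 (Nat.find_min hex (m := j) (by omega))
  rw [hj] at h3
  push Not at h3
  obtain ⟨r, hr, hur⟩ := h3
  have ht : (r ^ l) ^ l ^ j = Γ.X := by rw [← pow_mul, ← pow_succ', hr]
  have t0 : r ^ l ≠ 0 := fun e => Γ.X_ne (by rw [← ht, e, zero_pow (pow_pos hl.pos _).ne'])
  let S0 : Set Ω := insert (r ^ l) E'
  have hK : ∀ z ∈ S0, z ∈ adjoin k S0 := fun z hz => subset_adjoin k S0 hz
  have htK := hK _ (Set.mem_insert _ _)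
  have hXK : Γ.X ∈ adjoin k S0 := ht ▸ pow_mem htK _
  have hst : ∀ g : Ω ≃+* Ω, g Γ.X = Γ.X → g (r ^ l) ∈ adjoin k S0 := fun g hg => by
    obtain ⟨c, hc⟩ := hk5 (g (r ^ l) / r ^ l) _ (pow_pos hl.pos j).ne' (by
      rw [div_pow, ← map_pow, ht, hg, div_self Γ.X_ne])
    rw [← div_mul_cancel₀ (g _) t0, ← hc]
    exact mul_mem (IntermediateField.algebraMap_mem _ c) htK
  have hE1 : ∀ (n : ℕ), ∀ z ∈ E', (ψ ^ n) z ∈ E' := fun n z hz => by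
    obtain ⟨w, hw, a, rfl⟩ := Set.mem_iUnion₂.1 hz
    exact Set.mem_biUnion hw ⟨n + a, by simp only [pow_add]; rfl⟩
  have hfK : ∀ z ∈ adjoin k S0, (u ^ m) z = z := fun z hz => by
    induction hz using IntermediateField.adjoin_induction with
    | mem z hz =>
      rcases hz with rfl | hz
      exacts [h4 _ ht, hmE z hz]
    | algebraMap c => exact fix_const _ c
    | add x y _ _ hx hy => rw [map_add, hx, hy]
    | inv x _ hx => rw [map_inv₀, hx]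
    | mul x y _ _ hx hy => rw [map_mul, hx, hy]
  have hpV : ∀ (m : ℕ) z, (u ^ m) z ∈ V ↔ z ∈ V := fun m z => by
    induction m with
    | zero => rfl
    | succ m ih => rw [pow_succ', AlgEquiv.mul_apply, huV, ih]
  obtain ⟨D, h5, h6, h7⟩ := Γ.exists_cv hq hψ (adjoin k S0) (fg_adjoin_of_finite (hE'.insert _)) hXK
    (hψ.stabX hq0 _ (by
      rintro z (rfl | hz)
      exacts [hst ψ hψ.X, hK _ (Or.inr (hE1 1 z hz))]) (by
      rintro z (rfl | hz)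
      · exact hst ψ.symm (ψ.symm_apply_eq.2 hψ.X.symm)
      · obtain ⟨a, ha, e⟩ := per_of_fin ψ hE' fun n => hE1 n z hz
        obtain ⟨a, rfl⟩ := Nat.exists_eq_succ_of_ne_zero ha
        rw [ψ.symm_apply_eq.2 (e.symm.trans (by rw [pow_succ']; rfl) : z = ψ ((ψ ^ a) z))]
        exact hK _ (Or.inr (hE1 a z hz)))) hV hψV
    { (u ^ m).toRingEquiv with commutes' := fun f => hfK f f.2 } (hpV m) r j htK ht hur
  exact ⟨_, D, hXK, fun z hz => hK _ (Or.inr (Set.mem_biUnion hz ⟨0, rfl⟩)), h5, h6, h7 ▸ hpV m⟩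

end Gr

section Cx

open WD H47

variable {p q l : ℕ} {K : Type} [Field K] [Algebra k K] [Algebra K Ω] [IsScalarTower k K Ω]
  (D : Cv p q l k K Ω)

/-- The equivariant trace formula on every admissible normal level. -/
lemma cv_cx (N : Subgroup (Ω ≃ₐ[K] Ω)) (hN : N.Normal) (ha : D.A.adm N) (n m : ℕ) (hm : 0 < m)
    (hn : n = l ^ m) :
    (Module.Free (ZMod n) (D.A.Hm N (ZMod n)) ∧ Module.Finite (ZMod n) (D.A.Hm N (ZMod n))) ∧
    (∀ h, h ∉ N → (∃ a, h ^ l ^ a ∈ N) →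
      ∀ T, D.A.IsAct N (ZMod n) id h T → LinearMap.trace (ZMod n) _ T = 1) ∧
    ((∀ a ∈ N, D.α a ∈ N) → ∀ h T, D.A.IsAct N (ZMod n) D.α h T →
      (q : ZMod n) * LinearMap.trace (ZMod n) _ T =
        (q : ZMod n) - ∑ x : D.U 1, (Fx.cnt N D.α h (D.f 1 x) : ZMod n)) := by
  have := D.char
  have hI := inp (k := k) D.hp D.hl D.hlp D.alg
  have := D.closed
  have := D.closedΩ
  have := D.algΩ
  have : FF k K := ⟨D.closed, D.X, D.tr, D.fd⟩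
  obtain ⟨E, hE⟩ := ha.1
  obtain ⟨L, _, _, hL⟩ := level N E hE
  obtain ⟨h1, h2, h3⟩ := main D L hL hI ha n m hm hn
  refine ⟨⟨h1, h2⟩, fun h hh ⟨a, hp⟩ T hT => ?_, fun hα h T hT => ?_⟩
  · have hL' : ∀ g, g ∈ N ↔ rs k L g = 1 := fun g => (hL g).trans (rs_eq_one' L g).symm
    have hc : SA.cst (rs k L h) = 1 := SA.cst_ofGal _
    have hne : rs k L h ≠ 1 := mt (hL' h).2 hh
    have h4 := h3 h.toRingEquiv (rs k L h) 1 T (rs_spec h) (fun f _ => rs_alg h f)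
      (fun c => by rw [hc, pow_one]; rfl)
      (fun a => ⟨⟨h⁻¹ * a * h, hN.conj_mem' _ a.2 h⟩, fun y => by simp, fun χ => hT χ _ _ rfl⟩)
      (SA.finite_fixed _ hc hne)
      (by
        rw [hI.tr0 L m n hm hn _ hc hne ⟨a, by rw [← map_pow, ← hL']; exact hp⟩]
        norm_num only [])
    have : IsEmpty {y : {y // y ∉ SS k L D.T} // rs k L h • y.1 = y.1} :=
      ⟨fun y => hh (free_act D ha (fun g => (hL' g).2) y.1.2 h y.2)⟩
    simpa only [Nat.cast_one, one_mul, Nat.card_of_isEmpty, Nat.cast_zero, sub_zero] using h4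
  · have := D.A.fin ha
    obtain ⟨e, he, hq⟩ := D.hq
    have hq0 : 0 < q := hq ▸ pow_pos D.hp.pos e
    obtain ⟨s, hs, hc⟩ := exists_SA L (D.φ ^ 1) (stable D L hL hα 1) (pow_pos hq0 1) (pow_k D 1)
    have hc' : ∀ c, SA.cst (s * rs k L h) c = c ^ q ^ 1 := fun c => by
      rw [map_mul, show SA.cst (rs k L h) = 1 from SA.cst_ofGal _, mul_one, hc]
    obtain ⟨h5, h6⟩ := hI.tr L m n hm hn (s * rs k L h) (e * 1) (mul_ne_zero he one_ne_zero)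
      (by rw [pow_mul, ← hq]; exact hc')
    rw [pow_mul, ← hq] at h6
    have h4 := h3 (D.φ ^ 1 * h.toRingEquiv) (s * rs k L h) (q ^ 1) T
      (fun f => by rw [SA.mul_apply, ← hs, ← rs_spec]; rfl)
      (fun f hf => (algebraMap L Ω).injective (by
        rw [SA.mul_apply, rs_alg, ← hs]
        exact (pow_φ D 1 f).trans (by rw [pow_T D 1 f hf]; rfl))) hc'
      (fun a => ⟨⟨h⁻¹ * D.α^[1] a * h, hN.conj_mem' _ (hα _ a.2) h⟩, fun y => by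
        change a.1 ((D.φ ^ 1) (h y)) = (D.φ ^ 1) (h (h.symm (D.α^[1] a (h y))))
        rw [AlgEquiv.apply_symm_apply, pow_α], fun χ => hT χ _ _ rfl⟩) h5 h6
    rw [count D L hL ha 1 one_pos s hs h] at h4
    simpa only [Nat.cast_pow, Nat.cast_sum, pow_one, Function.iterate_one] using h4

end Cx

namespace Gr

variable {p q l : ℕ} {Γ : Gr p l k Ω} {K : Type} [Field K] [Algebra k K] [Algebra K Ω]
  [IsScalarTower k K Ω] {D : Cv p q l k K Ω}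

/-- the point below a rational point of a cover -/
lemma Ov.spec (h : Γ.Ov D) (hψ : Γ.Fr q D.φ) (m : ℕ) (y : D.U m) : ∃ (x : k) (V : ValuationSubring Ω),
    Γ.Pnt x ∧ x ^ q ^ m = x ∧ At Γ.X x V ∧ (∀ a : K, algebraMap K Ω a ∈ V ↔ a ∈ y.1) ∧
      Stab (fun z => (D.φ ^ m) (D.f m y z)) V := by
  obtain ⟨V, h1, h2, h3⟩ := D.f_spec m y
  obtain ⟨x, h4, h5⟩ := (h.pt V).1 h1
  refine ⟨x, V, h4, ?_, h5, h2, h3⟩
  have h6 := (nu_map (((D.φ ^ m : Ω ≃+* Ω) : Ω →+* Ω).comp (D.f m y : Ω →+* Ω)) h3 _).2 h5.2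
  rw [map_sub] at h6
  change (D.φ ^ m) (D.f m y _) - (D.φ ^ m) (D.f m y _) ∈ _ at h6
  rw [← h.X, AlgEquiv.commutes, fix_const, h.X, (hψ.pow m).X, (hψ.pow m).c, ← map_pow] at h6
  exact At.uniq ⟨h5.1, h6⟩ h5

open Classical in
/-- sums over the points of a cover are bounded by sums over the points of the base -/
lemma Ov.sum_le (h : Γ.Ov D) : ∃ C : ℝ, ∀ (m : ℕ) (S : Finset k) (a : D.U m → ℝ) (t : k → ℝ),
    (∀ x, 0 ≤ t x) → (∀ y, ∃ x ∈ S, a y ≤ t x ∧ ∃ V, At Γ.X x V ∧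
      ∀ a : K, algebraMap K Ω a ∈ V ↔ a ∈ y.1) → ∑ y, a y ≤ C * ∑ x ∈ S, t x := by
  have := D.fd
  choose W hW using D.fib
  refine ⟨Nat.card (K →ₐ[k⟮D.X⟯] Ω), fun m S a t ht H => ?_⟩
  choose x hx ha V hV hy using H
  have h1 : ∀ y : D.U m, ∃ g : K →ₐ[k⟮D.X⟯] Ω, ∀ a, a ∈ y.1 ↔ g a ∈ W (x y) := fun y =>
    hW (x y) y.1 y.2.2.1.const ((nu_map (algebraMap K Ω) (hy y) _).1 (by
      rw [map_sub, h.X, ← IsScalarTower.algebraMap_apply]; exact (hV y).2))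
  choose g hg using h1
  refine (Finset.sum_le_sum fun y _ => ha y).trans ?_
  rw [← Finset.sum_fiberwise_of_maps_to (s := Finset.univ) (fun y _ => hx y), Finset.mul_sum]
  refine Finset.sum_le_sum fun c _ => ?_
  rw [Finset.sum_congr rfl (g := fun _ => t c) fun y hy => by rw [(Finset.mem_filter.1 hy).2],
    Finset.sum_const, nsmul_eq_mul]
  refine mul_le_mul_of_nonneg_right ?_ (ht c)
  rw [Nat.cast_le, ← Nat.card_eq_finsetCard]
  refine Nat.card_le_card_of_injective (fun y => g y.1) fun y y' e => Subtype.ext (Subtype.ext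
    (ValuationSubring.ext _ _ fun f => ?_))
  have e' : g y.1 = g y'.1 := e
  rw [hg, hg, e', (Finset.mem_filter.1 y.2).2, (Finset.mem_filter.1 y'.2).2]

/-- sums over the points of the base curve -/
lemma Ov.sum_eq {D : Cv p q l k k⟮Γ.X⟯ Ω} (h : Γ.Ov D) (hψ : Γ.Fr q D.φ) {R : Type}
    [AddCommMonoid R] (S : Finset k) (hS : ∀ x, x ∈ S ↔ Γ.Pnt x ∧ x ^ q = x) (a : D.U 1 → R)
    (t : k → R) (H : ∀ y, ∀ x ∈ S, ∀ V, At Γ.X x V → Stab (D.φ * (D.f 1 y).toRingEquiv) V →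
      a y = t x) : ∑ y, a y = ∑ x ∈ S, t x := by
  choose x V h1 h2 h3 h4 h5 using h.spec hψ 1
  simp only [pow_one] at h2 h5
  have key : ∀ {c : k} {V V' : ValuationSubring Ω}, At Γ.X c V → At Γ.X c V' →
      ∀ f : k⟮Γ.X⟯, algebraMap _ Ω f ∈ V ↔ algebraMap _ Ω f ∈ V' := fun a1 a2 f => by
    obtain ⟨g, hg⟩ := Γ.conj a1 a2
    rw [← hg, g.commutes]
  refine Finset.sum_bij (fun y _ => x y) (fun y _ => (hS _).2 ⟨h1 y, h2 y⟩)
    (fun y _ y' _ e => Subtype.ext (ValuationSubring.ext _ _ fun f => by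
      rw [← h4, ← h4]; exact key (h3 y) (e ▸ h3 y') f)) (fun c hc => ?_)
    fun y _ => H y _ ((hS _).2 ⟨h1 y, h2 y⟩) _ (h3 y) (h5 y)
  obtain ⟨W, hW⟩ := exists_at Γ.tr c
  obtain ⟨a1, a2⟩ := (hS c).1 hc
  have a3 := (h.pt W).2 ⟨c, a1, hW⟩
  have a4 := key (hψ.at (a2.symm ▸ hW)) hW
  have a5 : ∀ f : k⟮Γ.X⟯, f ∈ W.comap (algebraMap _ Ω) ↔ algebraMap _ Ω f ∈ W := fun _ => Iff.rfl
  have a6 : D.X - algebraMap k _ c ∈ (W.comap (algebraMap k⟮Γ.X⟯ Ω)).nonunits :=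
    (nu_map (algebraMap _ Ω) (fun f => (a5 f).symm) _).1 (by rw [map_sub, h.X]; exact hW.2)
  let y : D.U 1 := ⟨W.comap (algebraMap _ Ω), one_pos, ⟨fun e => nu_not
    (a := D.X - algebraMap k _ c) (fun e => D.tr (sub_eq_zero.1 e ▸ isAlgebraic_algebraMap c))
    (e.ge trivial) a6, hW.1, a3.reg⟩,
    fun f => by rw [pow_one, a5, a5, ← D.hφ]; exact a4 f⟩
  refine ⟨y, Finset.mem_univ _, (h3 y).uniq ⟨(h3 y).1, ?_⟩⟩
  have := (nu_map (algebraMap _ Ω) (h4 y) _).2 a6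
  rwa [map_sub, h.X] at this

end Gr

end Pool.Agent.MP_855f4c_ag.E.W

end

section

namespace Pool.Agent.MP_855f4c_ag.H7

open Pool.Agent.MP_855f4c_ag.Fx Pool.Agent.MP_855f4c_ag.E Module Matrix

variable {p q l : ℕ} {k K Ω : Type} [Field k] [Field K] [Field Ω] [Algebra k K] [Algebra K Ω]
  [Algebra k Ω] [IsScalarTower k K Ω]

lemma Cv.α_surj (D : Cv p q l k K Ω) : Function.Surjective D.α := fun g =>
  ⟨{ (D.φ.symm.trans g.toRingEquiv).trans D.φ with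
    commutes' := fun f => by
      change D.φ (g (D.φ.symm (algebraMap K Ω f))) = _
      obtain ⟨f, rfl⟩ := D.σ.surjective f
      rw [← D.hφ, RingEquiv.symm_apply_apply, g.commutes] }, AlgEquiv.ext fun z => by
    change D.φ.symm (D.φ (g (D.φ.symm (D.φ z)))) = g z
    rw [RingEquiv.symm_apply_apply, RingEquiv.symm_apply_apply]⟩

/-- The inclusion into the group of all ring automorphisms. -/
def ι0 (K Ω : Type) [Field K] [Field Ω] [Algebra K Ω] : (Ω ≃ₐ[K] Ω) →* (Ω ≃+* Ω) where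
  toFun g := g.toRingEquiv
  map_one' := rfl
  map_mul' _ _ := rfl

lemma Cv.hα0 (D : Cv p q l k K Ω) (g : Ω ≃ₐ[K] Ω) : D.φ * ι0 K Ω (D.α g) = ι0 K Ω g * D.φ :=
  RingEquiv.ext fun _ => D.φ.apply_symm_apply _

lemma stab_pow {E : Type} [Field E] {g : E ≃+* E} {V : ValuationSubring E} (h : Stab g V) (m : ℕ) :
    Stab (g ^ m) V := by
  induction m with
  | zero => exact fun _ => Iff.rfl
  | succ m ih => intro z; rw [pow_succ']; exact (h _).trans (ih z)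

lemma Cv.powOK (D : Cv p q l k K Ω) : WEnd.PowOK D.A D.α D.U D.f := by
  have := D.closedΩ
  have := D.algΩ
  intro n m hn hm x
  let y : D.U (n * m) := ⟨x.1, Nat.mul_pos hn hm, x.2.2.1, by
    rw [pow_mul]; exact stab_pow x.2.2.2 m⟩
  obtain ⟨V, -, h1, h2⟩ := D.f_spec n x
  obtain ⟨V', hV', h3, h4⟩ := D.f_spec (n * m) y
  obtain ⟨g, hg⟩ := val_conj (E := K) V V' fun a => (h1 a).trans (h3 a).symm
  set N := itr D.α (n * m) g⁻¹ * WEnd.nrm D.α n (D.f n x) m * g with hN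
  refine ⟨y, g, N⁻¹ * D.f (n * m) y, fun M hM => hM.2 V' hV' _ ?_, by rw [mul_inv_cancel_left]⟩
  have e1 : D.φ ^ (n * m) * ι0 K Ω N =
      ι0 K Ω g⁻¹ * (D.φ ^ n * ι0 K Ω (D.f n x)) ^ m * ι0 K Ω g := by
    rw [hN, WEnd.nrm_spec D.hα0, map_mul, map_mul, ← mul_assoc, ← mul_assoc, itr_conj D.hα0,
      mul_assoc (ι0 K Ω g⁻¹)]
  have h5 : Stab ((D.φ ^ n * ι0 K Ω (D.f n x)) ^ m : Ω ≃+* Ω) V := stab_pow h2 m
  have h6 : ∀ z, (D.φ ^ (n * m)) (N z) ∈ V' ↔ z ∈ V' := fun z => by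
    change (D.φ ^ (n * m) * ι0 K Ω N) z ∈ V' ↔ _
    rw [e1, ← hg, ← hg z, ← h5 (g z)]
    exact Iff.of_eq (congrArg (· ∈ V) (g.apply_symm_apply _))
  intro z
  rw [← h6, ← h4 z, ← AlgEquiv.mul_apply, mul_inv_cancel_left]

variable [Fact l.Prime] {G : Type} [Group G] {d e : Type} [Fintype d] [DecidableEq d] [Fintype e]
  [DecidableEq e]

/-- The end of the weight argument on a curve: `τ` is a subquotient of `ρ` with real traces. -/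
theorem Cv.wendQ (D : Cv p q l k K Ω) (ι : (Ω ≃ₐ[K] Ω) →* G) (φ : G)
    (hα : ∀ g, φ * ι (D.α g) = ι g * φ) (j : ℚ_[l] →+* ℂ) (ρ : G →* Matrix d d ℤ_[l])
    (hρ : Rep D.A l (ρ.comp ι)) (hre : ∀ m, 0 < m → ∀ x : D.U m,
      (j (algebraMap ℤ_[l] ℚ_[l] (ρ (φ ^ m * ι (D.f m x))).trace)).im = 0)
    (τ : G →* Matrix e e ℤ_[l]) (hτ : Rep D.A l (τ.comp ι)) {N : Type} [AddCommGroup N]
    [Module ℚ_[l] N] (σ : Representation ℚ_[l] G N) (i : N →ₗ[ℚ_[l]] d → ℚ_[l])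
    (hi : Function.Injective i) (hi' : ∀ g, WEnd.qx ρ g ∘ₗ i = i ∘ₗ σ g)
    (π : N →ₗ[ℚ_[l]] e → ℚ_[l]) (hπ : Function.Surjective π)
    (hπ' : ∀ g, π ∘ₗ σ g = WEnd.qx τ g ∘ₗ π) {B C : ℝ} (hB : 0 < B)
    (h2 : ∀ m, 0 < m → ∑ x : D.U m,
      ‖j (algebraMap ℤ_[l] ℚ_[l] (τ (φ ^ m * ι (D.f m x))).trace)‖ ^ 2 ≤ C * (q * B ^ 2) ^ m)
    {Y : Type} [AddCommGroup Y] [Module ℚ_[l] Y] [FiniteDimensional ℚ_[l] Y] (Φ : End ℚ_[l] Y)
    (c : (e → ℚ_[l]) →ₗ[ℚ_[l]] Y) (hc : Function.Surjective c) (hu : c ∘ₗ WEnd.qx τ (ι D.u) = c)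
    (hφ : c ∘ₗ WEnd.qx τ φ = Φ ∘ₗ c) (z : ℂ) (hz : (Φ.charpoly.map j).IsRoot z) : ‖z‖ ≤ B := by
  obtain ⟨C0, hC⟩ := D.card_U
  exact WEnd.wendQ (D.ctx (H47.kum D)) (zero_lt_one.trans D.one_lt) hα D.α_surj D.powOK (C := C0)
    (fun m _ => by rw [← Nat.card_eq_fintype_card]; exact_mod_cast (hC m).2) D.ne_U j ρ hρ hre τ hτ
    σ i hi hi' π hπ hπ' hB h2 Φ c hc hu hφ z hz

/-- The end of the weight argument on a curve: `τ ⊕ ζ` has real traces. -/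
theorem Cv.wendS (D : Cv p q l k K Ω) (ι : (Ω ≃ₐ[K] Ω) →* G) (φ : G)
    (hα : ∀ g, φ * ι (D.α g) = ι g * φ) (j : ℚ_[l] →+* ℂ) (τ : G →* Matrix e e ℤ_[l])
    (hτ : Rep D.A l (τ.comp ι)) (ζ : G →* Matrix d d ℤ_[l]) (hζ : Rep D.A l (ζ.comp ι))
    (hre : ∀ m, 0 < m → ∀ x : D.U m, (j (algebraMap ℤ_[l] ℚ_[l]
      ((τ (φ ^ m * ι (D.f m x))).trace + (ζ (φ ^ m * ι (D.f m x))).trace))).im = 0)
    {B C : ℝ} (hB : 0 < B) (h2 : ∀ m, 0 < m → ∑ x : D.U m,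
      ‖j (algebraMap ℤ_[l] ℚ_[l] (τ (φ ^ m * ι (D.f m x))).trace)‖ ^ 2 ≤ C * (q * B ^ 2) ^ m)
    {Y : Type} [AddCommGroup Y] [Module ℚ_[l] Y] [FiniteDimensional ℚ_[l] Y] (Φ : End ℚ_[l] Y)
    (c : (e → ℚ_[l]) →ₗ[ℚ_[l]] Y) (hc : Function.Surjective c) (hu : c ∘ₗ WEnd.qx τ (ι D.u) = c)
    (hφ : c ∘ₗ WEnd.qx τ φ = Φ ∘ₗ c) (z : ℂ) (hz : (Φ.charpoly.map j).IsRoot z) : ‖z‖ ≤ B := by
  obtain ⟨C0, hC⟩ := D.card_U
  exact WEnd.wendS (D.ctx (H47.kum D)) (zero_lt_one.trans D.one_lt) hα D.α_surj D.powOK (C := C0)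
    (fun m _ => by rw [← Nat.card_eq_fintype_card]; exact_mod_cast (hC m).2) D.ne_U j τ hτ ζ hζ hre
    hB h2 Φ c hc hu hφ z hz

/-- Weil II 1.8.1 on a curve, over `ℚ_[l]`. -/
theorem Cv.b181 (D : Cv p q l k K Ω) (ι : (Ω ≃ₐ[K] Ω) →* G) (φ : G)
    (hα : ∀ g, φ * ι (D.α g) = ι g * φ) (j : ℚ_[l] →+* ℂ) (τ : G →* Matrix e e ℤ_[l])
    (hτ : Rep D.A l (τ.comp ι)) {R : ℝ} (hR : 0 ≤ R)
    (hw : ∀ m, 0 < m → ∀ x : D.U m, RK.Bd (TFC.cx j τ (φ ^ m * ι (D.f m x))) (R ^ m))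
    {Y : Type} [AddCommGroup Y] [Module ℚ_[l] Y] [FiniteDimensional ℚ_[l] Y] (Φ : End ℚ_[l] Y)
    (c : (e → ℚ_[l]) →ₗ[ℚ_[l]] Y) (hc : Function.Surjective c) (hu : c ∘ₗ WEnd.qx τ (ι D.u) = c)
    (hφ : c ∘ₗ WEnd.qx τ φ = Φ ∘ₗ c) (z : ℂ) (hz : (Φ.charpoly.map j).IsRoot z) : ‖z‖ ≤ R := by
  obtain ⟨C0, hC⟩ := D.card_U
  exact WEnd.quot_roots j τ (ι D.u) φ (WEnd.b181 (D.ctx (H47.kum D)) (zero_lt_one.trans D.one_lt) hα
    j (C := C0) (fun m _ => by rw [← Nat.card_eq_fintype_card]; exact_mod_cast (hC m).2) D.ne_U τ hτ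
    hR hw) Φ c hc hu hφ z hz

end Pool.Agent.MP_855f4c_ag.H7

end
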