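import Pool.Agent.MP_855f4c_ag.EC.Xa
import Pool.Agent.MP_855f4c_ag.EC.Wc
import Pool.Agent.MP_855f4c_ag.EC.F2b
import Pool.Agent.MP_855f4c_ag.EC.F1b
import Pool.Agent.MP_855f4c_ag.EC.Pa
import Pool.Agent.MP_855f4c_ag.EC.E4a

section

set_option backward.isDefEq.respectTransparency false

open CategoryTheory Limits Abelian Opposite AlgebraicGeometry Polynomial
open scoped IntermediateField

namespace Pool.Agent.MP_855f4c_ag.E.W

open E3 E4 H7

section defs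
variable {X : Scheme.{0}}

/-- Automorphisms of `Ω` that fix the point `ω`. -/
def Fix {Ω : Type} [Field Ω] (ω : Spec (.of Ω) ⟶ X) : Subgroup (Ω ≃+* Ω) where
  carrier := {g | spc (g : Ω →+* Ω) ≫ ω = ω}
  one_mem' := by
    change Spec.map (𝟙 _) ≫ ω = ω
    rw [Spec.map_id, Category.id_comp]
  mul_mem' {a b} ha hb := by
    change Spec.map (CommRingCat.ofHom (b : Ω →+* Ω) ≫ CommRingCat.ofHom (a : Ω →+* Ω)) ≫ ω = ω
    rw [Spec.map_comp, Category.assoc, hb, ha]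
  inv_mem' {a} ha := by
    have e : spc ((a⁻¹ : Ω ≃+* Ω) : Ω →+* Ω) ≫ spc (a : Ω →+* Ω) = 𝟙 _ := by
      rw [← Spec.map_comp, ← Spec.map_id]
      exact congrArg Spec.map (CommRingCat.hom_ext (RingHom.ext a.symm_apply_apply))
    change spc _ ≫ ω = ω
    conv_lhs => rw [← ha, ← Category.assoc, e, Category.id_comp]

/-- The action of an endomorphism of the ring of a point on the value of a presheaf. -/
noncomputable abbrev pa (P : PSh X) {k : Type} [CommRing k] {z : Spec (.of k) ⟶ X} (ψ : k →+* k)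
    (e : spc ψ ≫ z = z) : P.obj (op (Over.mk z)) →+ P.obj (op (Over.mk z)) :=
  (P.map (sph ψ e).op).hom

/-- The action of `Fix ω`. -/
noncomputable def actP (P : PSh X) {Ω : Type} [Field Ω] (ω : Spec (.of Ω) ⟶ X) :
    Fix ω →* AddMonoid.End (P.obj (op (Over.mk ω))) where
  toFun g := pa P (g.1 : Ω →+* Ω) g.2
  map_one' := AddMonoidHom.ext fun s => by
    have : sph ((1 : Fix ω).1 : Ω →+* Ω) (1 : Fix ω).2 = 𝟙 _ :=
      Over.OverMorphism.ext (Spec.map_id _)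
    change P.map (sph _ _).op s = s
    rw [this]; exact res_id P s
  map_mul' g h := AddMonoidHom.ext fun s => by
    have : sph ((g * h).1 : Ω →+* Ω) (g * h).2 = sph _ g.2 ≫ sph _ h.2 :=
      Over.OverMorphism.ext (Spec.map_comp (CommRingCat.ofHom (h.1 : Ω →+* Ω))
        (CommRingCat.ofHom (g.1 : Ω →+* Ω)))
    change P.map (sph _ _).op s = _
    rw [this]; exact (res_res P _ _ s).symm

/-- `T ↦ H^q(X_T, F)`. -/
noncomputable def HB {Y : Scheme.{0}} (f : X ⟶ Y) (F : Sh (Scheme.etaleTopology.over X)) (q : ℕ) : PSh Y :=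
  (Over.pullback f).op ⋙ HP F q

open Classical in
/-- The trace of `ψ` on the value of `P` at `z`. -/
noncomputable def trP (l : ℕ) [Fact l.Prime] (P : PSh X) {k : Type} [CommRing k] (ψ : k →+* k)
    (z : Spec (.of k) ⟶ X) : ℚ_[l] := if e : spc ψ ≫ z = z then tr l (pa P ψ e) else 0

/-- The point `x` of the fibre at `τ`. -/
noncomputable abbrev px {A K : Type} [CommRing A] [CommRing K] (L : PL (Spec (.of A)))
    (τ : A →+* K) (x : K) : Spec (.of K) ⟶ L.P := L.pnt (spc τ) (pt1 x)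

/-- The roots of `y ^ n * c = d`. -/
abbrev Rt (n : ℕ) {K : Type} [Field K] (c d : K) : Type := {y : K // y ^ n * c = d}

/-- `h(x) (x - a - s)`. -/
noncomputable def hc {A R : Type} [CommRing A] [CommRing R] (h : A[X]) (a : A) (β : A →+* R)
    (s : R) : R[X] := h.map β * (Polynomial.X - C (β a + s))

/-- The convolution with the Kummer cover `y ^ n (x - a) = x - a - s`. -/
structure Conv (l n : ℕ) {A R : Type} [CommRing A] [CommRing R] (L : PL (Spec (.of A))) (h : A[X])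
    (a : A) (β : A →+* R) (s : R) (L' : PL (Spec (.of R))) (E : Sh (Scheme.etaleTopology.over L.P) ⥤ Sh (Scheme.etaleTopology.over L'.P)) :
    Prop where
  gd : ∀ F, Gd l L h F → Gd l L' (hc h a β s) (E.obj F)
  mono : ∀ {F F'} (i : F ⟶ F') [Mono i], Gd l L h F → Gd l L h F' → Mono (E.map i)
  epi : ∀ {F F'} (i : F ⟶ F') [Epi i], Gd l L h F → Gd l L h F' → Epi (E.map i)
  stk : ∀ (F : Sh (Scheme.etaleTopology.over L.P)) (K : Type) [Field K] [IsAlgClosed K] (τ : R →+* K) (x : K)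
    (z₀ : Spec (.of K) ⟶ L.P) (z : Spec (.of K) ⟶ L'.P), z₀ = px L (τ.comp β) x → z = px L' τ x →
    (hc h a β s).eval₂ τ x ≠ 0 →
    ∃ θ : (Rt n (x - τ (β a)) (x - τ (β a) - τ s) → sec F (Over.mk z₀)) →+
        sec (E.obj F) (Over.mk z),
      Function.Surjective θ ∧ (∀ f, θ f = 0 ↔ ∃ m, ∀ y, f y = m) ∧
      ∀ (g : K →+* K) (e₀ : spc g ≫ z₀ = z₀) (e : spc g ≫ z = z) f f',
        (∀ y y' : Rt n (x - τ (β a)) (x - τ (β a) - τ s), y'.1 = g y.1 →
          f' y' = pa F.obj g e₀ (f y)) → θ f' = pa (E.obj F).obj g e (θ f)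

/-- `Ω` is an algebraic closure of `k(ξ)`. -/
structure Gen (k : Type) {Ω : Type} [Field k] [Field Ω] [Algebra k Ω] (ξ : Ω) : Prop where
  ck : IsAlgClosed k
  cl : IsAlgClosed Ω
  tr : Transcendental k ξ
  alg : ∀ z : Ω, IsAlgebraic (Algebra.adjoin k {ξ}) z

/-- A cofinite module with a continuous action that is unramified at the points of `Γ`. -/
structure GM {p l : ℕ} {k Ω : Type} [Field k] [Field Ω] [Algebra k Ω] (Γ : Gr p l k Ω)
    {G : Subgroup (Ω ≃+* Ω)} {M : Type 1} [AddCommGroup M] (σ : G →* AddMonoid.End M) : Prop where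
  cof : Cof l M
  opn : ∀ m, ∃ S : Finset Ω, ∀ g : G, (∀ z ∈ S, g.1 z = z) → σ g m = m
  unr : ∀ (x : k) (V : ValuationSubring Ω) (g : G), Γ.Pnt x → At Γ.X x V → Stab g.1 V →
    (∀ c : k, g.1 (algebraMap k Ω c) = algebraMap k Ω c) → ∀ m, σ g m = m

end defs

/-- Row GDAB. -/
def GDAB_s : Prop := ∀ (l : ℕ) [Fact l.Prime] (A : Type) [CommRing A] (L : PL (Spec (.of A)))
  (h : A[X]) (F F' : Sh (Scheme.etaleTopology.over L.P)) (φ : F ⟶ F'), Gd l L h F → Gd l L h F' →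
    Gd l L h (kernel φ) ∧ Gd l L h (cokernel φ) ∧ Gd l L h (Abelian.image φ)

/-- Row CONV. -/
def CONV_s : Prop := ∀ (l n : ℕ) [Fact l.Prime] (A R : Type) [CommRing A] [CommRing R]
  (L : PL (Spec (.of A))) (h : A[X]) (a : A) (β : A →+* R) (s : R) (L' : PL (Spec (.of R))),
    IsUnit (l : R) → IsUnit (n : R) → 0 < n → h.eval a = 0 → ∃ E, Conv l n L h a β s L' E

/-- Row SPEC: cospecialisation along a place. -/
def SPEC_s : Prop := ∀ (l : ℕ) (k Ω : Type) [Field k] [Field Ω] [Algebra k Ω] (ξ : Ω) (x : k)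
  (V : ValuationSubring Ω), Gen k ξ → At ξ x V → (l : k) ≠ 0 →
    ∀ (R : Type) [CommRing R] (τ : R →+* k) (τΩ : R →+* Ω),
      (∀ r, τΩ r - algebraMap k Ω (τ r) ∈ V.nonunits) →
      Aic V ∧ IsUnit (l : V) ∧ ∃ (τV : R →+* V) (red : V →+* k), IsLocalHom red ∧
        (algebraMap V Ω).comp τV = τΩ ∧ red.comp τV = τ ∧
        ∀ (X : Scheme.{0}) (u : Spec (.of R) ⟶ X) [Mono u] (P : PSh X) (z : Spec (.of k) ⟶ X)
          (v : Spec (.of V) ⟶ X) (ω : Spec (.of Ω) ⟶ X) (e : spc (algebraMap V Ω) ≫ v = ω),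
          Rig l P → z = spc τ ≫ u → v = spc τV ≫ u →
          ∃ c : P.obj (op (Over.mk z)) →+ P.obj (op (Over.mk ω)),
            (Function.Injective (P.map (sph _ e).op) → Function.Injective c) ∧
            (Function.Surjective (P.map (sph _ e).op) → Function.Surjective c) ∧
            ∀ (g : Ω ≃+* Ω) (hg : spc (g : Ω →+* Ω) ≫ ω = ω) (ψ : k →+* k) (hψ : spc ψ ≫ z = z),
              Stab g V → (∀ a, g (algebraMap k Ω a) = algebraMap k Ω (ψ a)) →
              ∀ y, c (pa P ψ hψ y) = pa P (g : Ω →+* Ω) hg (c y)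

/-- Row LIM: sections at the generic point are fixed by open subgroups and extend to almost all
places. -/
def LIM_s : Prop := ∀ (k Ω : Type) [Field k] [Field Ω] [Algebra k Ω] (ξ : Ω), Gen k ξ →
  ∀ (R : Type) [CommRing R] (τΩ : R →+* Ω) (X : Scheme.{0}) (u : Spec (.of R) ⟶ X) [Mono u]
    (P : PSh X) (ω : Spec (.of Ω) ⟶ X), LFP P → ω = spc τΩ ≫ u → ∀ m : P.obj (op (Over.mk ω)),
      (∃ S : Finset Ω, ∀ (g : Ω ≃+* Ω) (hg : spc (g : Ω →+* Ω) ≫ ω = ω), (∀ z ∈ S, g z = z) →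
        pa P (g : Ω →+* Ω) hg m = m) ∧
      ∃ h₁ : k[X], h₁ ≠ 0 ∧ ∀ (x : k) (V : ValuationSubring Ω) (τV : R →+* V)
        (v : Spec (.of V) ⟶ X) (e : spc (algebraMap V Ω) ≫ v = ω), At ξ x V → h₁.eval x ≠ 0 →
          (algebraMap V Ω).comp τV = τΩ → v = spc τV ≫ u → ∃ y, P.map (sph _ e).op y = m

/-- Row GL0: the step from `l`-torsion to all of `H¹`. -/
def GL0_s : Prop := ∀ (l : ℕ) [Fact l.Prime] (R : Type) [CommRing R] (L : PL (Spec (.of R)))
  (h : R[X]) (E : Sh (Scheme.etaleTopology.over L.P)), IsUnit h.leadingCoeff → Gd l L h E →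
    ∀ (C K : Type) [CommRing C] [IsDomain C] [IsLocalRing C] [Field K] [IsAlgClosed K] [Algebra C K]
      [IsFractionRing C K] (a : Spec (.of C) ⟶ Spec (.of R)) (b : Spec (.of K) ⟶ Spec (.of R))
      (e : spc (algebraMap C K) ≫ a = b), Aic C → IsUnit (l : C) →
      (∀ x : H (fbr L.π a) (kernel ((l : ℤ) • 𝟙 E)) 2, x = 0) →
      Function.Surjective ((HB L.π (kernel ((l : ℤ) • 𝟙 E)) 1).map (sph _ e).op) →
      Function.Surjective ((HB L.π E 1).map (sph _ e).op)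

/-- Row FAM: `H¹` in a family over the line. -/
def FAM_s : Prop := ∀ (l : ℕ) [Fact l.Prime] (R : Type) [CommRing R] (L : PL (Spec (.of R)))
  (h : R[X]) (E : Sh (Scheme.etaleTopology.over L.P)), IsUnit h.leadingCoeff → Gd l L h E →
    ∀ (k Ω : Type) [Field k] [Field Ω] [Algebra k Ω] (ξ : Ω), Gen k ξ → (l : k) ≠ 0 →
    ∀ (τ : k → R →+* k) (τΩ : R →+* Ω) (h₀ : k[X]), h₀ ≠ 0 →
      (∀ x V, At ξ x V → ∀ r, τΩ r - algebraMap k Ω (τ x r) ∈ V.nonunits) →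
      (∀ x, h₀.eval x ≠ 0 → ∀ y : H (fbr L.π (spc (τ x))) (kernel ((l : ℤ) • 𝟙 E)) 2, y = 0) →
      (∀ m, ∃ S : Finset Ω, ∀ g : Fix (spc τΩ), (∀ z ∈ S, g.1 z = z) →
        actP (HB L.π E 1) (spc τΩ) g m = m) ∧
      ∃ h₁ : k[X], h₁ ≠ 0 ∧ ∀ x V, At ξ x V →
        ∃ c : (HB L.π E 1).obj (op (Over.mk (spc (τ x)))) →+
            (HB L.π E 1).obj (op (Over.mk (spc τΩ))),
          Function.Injective c ∧ (h₁.eval x ≠ 0 → Function.Surjective c) ∧
          ∀ (g : Fix (spc τΩ)) (ψ : k →+* k) (hψ : spc ψ ≫ spc (τ x) = spc (τ x)), Stab g.1 V →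
            (∀ a, g.1 (algebraMap k Ω a) = algebraMap k Ω (ψ a)) →
            ∀ y, c (pa (HB L.π E 1) ψ hψ y) = actP (HB L.π E 1) (spc τΩ) g (c y)

/-- Row H2V: no `H²` on the fibres where the Kummer cover ramifies inside `h ≠ 0`. -/
def H2V_s : Prop := ∀ (l n : ℕ) [Fact l.Prime] (A R : Type) [CommRing A] [CommRing R]
  (L : PL (Spec (.of A))) (h : A[X]) (a : A) (β : A →+* R) (s : R) (L' : PL (Spec (.of R)))
  (E : Sh (Scheme.etaleTopology.over L.P) ⥤ Sh (Scheme.etaleTopology.over L'.P)), Conv l n L h a β s L' E → n.Prime → n ≠ l →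
    IsUnit h.leadingCoeff → h.eval a = 0 → ∀ (F : Sh (Scheme.etaleTopology.over L.P)) (E' : Sh (Scheme.etaleTopology.over L'.P))
      (i : E' ⟶ E.obj F) [Mono i], Gd l L h F → Gd l L' (hc h a β s) E' →
      ∀ (K : Type) [Field K] [IsAlgClosed K] (τ : R →+* K), (l : K) ≠ 0 → (n : K) ≠ 0 →
        h.eval₂ (τ.comp β) (τ (β a + s)) ≠ 0 → ∀ y : H (fbr L'.π (spc τ)) E' 2, y = 0

/-- Row ZER: at `s = 0` the cohomology of `F` sits in that of the convolution. -/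
def ZER_s : Prop := ∀ (l n : ℕ) [Fact l.Prime] (A R : Type) [CommRing A] [CommRing R]
  (L : PL (Spec (.of A))) (h : A[X]) (a : A) (β : A →+* R) (s : R) (L' : PL (Spec (.of R)))
  (E : Sh (Scheme.etaleTopology.over L.P) ⥤ Sh (Scheme.etaleTopology.over L'.P)), Conv l n L h a β s L' E → 1 < n →
    IsUnit h.leadingCoeff → h.eval a = 0 → ∀ F : Sh (Scheme.etaleTopology.over L.P), Gd l L h F →
      ∀ (k : Type) [Field k] [IsAlgClosed k] (τ : R →+* k) (ψ : k →+* k)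
        (e : spc ψ ≫ spc (τ.comp β) = spc (τ.comp β)) (e' : spc ψ ≫ spc τ = spc τ),
        (l : k) ≠ 0 → (n : k) ≠ 0 → τ s = 0 → Function.Bijective ψ →
        ∀ (j : ℚ_[l] →+* ℂ) (S : Set ℝ),
          Ev j S (Hact L'.π (E.obj F) 1 ψ e') → Ev j S (Hact L.π F 1 ψ e)

/-- Row TFP: the trace formula with a sum over `k`. -/
def TFP_s : Prop := ∀ (l : ℕ) [Fact l.Prime] (A : Type) [CommRing A] (L : PL (Spec (.of A)))
  (h : A[X]) (a : A) (F : Sh (Scheme.etaleTopology.over L.P)), IsUnit h.leadingCoeff → h.eval a = 0 → Gd l L h F →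
    ∀ (k : Type) [Field k] [IsAlgClosed k] (τ : A →+* k) (Q : ℕ) (ψ : k →+* k),
      Fr l (spc τ) Q ψ → ∀ S : Finset k, (∀ x, x ∈ S ↔ h.eval₂ τ x ≠ 0 ∧ x ^ Q = x) →
      ∑ x ∈ S, trP l F.obj ψ (px L τ x) =
        trP l (HB L.π F 2) ψ (spc τ) - trP l (HB L.π F 1) ψ (spc τ)

/-- Row FORM: the trace on `H¹` of the convolution. -/
def FORM_s : Prop := ∀ (l n : ℕ) [Fact l.Prime] (A R : Type) [CommRing A] [CommRing R]
  (L : PL (Spec (.of A))) (h : A[X]) (a : A) (β : A →+* R) (s : R) (L' : PL (Spec (.of R)))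
  (E : Sh (Scheme.etaleTopology.over L.P) ⥤ Sh (Scheme.etaleTopology.over L'.P)), Conv l n L h a β s L' E → n.Prime → n ≠ l →
    IsUnit h.leadingCoeff → h.eval a = 0 → ∀ F : Sh (Scheme.etaleTopology.over L.P), Gd l L h F →
      ∀ (k : Type) [Field k] [IsAlgClosed k] (τ : R →+* k) (Q : ℕ) (ψ : k →+* k),
        Fr l (spc τ) Q ψ → (n : k) ≠ 0 → h.eval₂ (τ.comp β) (τ (β a + s)) ≠ 0 →
        ∀ S : Finset k, (∀ x, x ∈ S ↔ (hc h a β s).eval₂ τ x ≠ 0 ∧ x ^ Q = x) →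
        trP l (HB L'.π (E.obj F) 1) ψ (spc τ) = -∑ x ∈ S,
          ((Nat.card {y : k // y ^ n * (x - τ (β a)) = x - τ (β a) - τ s ∧ y ^ Q = y} : ℚ_[l]) - 1) *
            trP l F.obj ψ (px L (τ.comp β) x)

/-- Row LOC: a uniform bound for the local traces. -/
def LOC_s : Prop := ∀ (l : ℕ) [Fact l.Prime] (A : Type) [CommRing A] (L : PL (Spec (.of A)))
  (h : A[X]) (F : Sh (Scheme.etaleTopology.over L.P)) (w : ℕ), IsUnit h.leadingCoeff → Gd l L h F → Wt l w F →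
    ∀ (k : Type) [Field k] [IsAlgClosed k] (τ : A →+* k) (j : ℚ_[l] →+* ℂ), (l : k) ≠ 0 →
      ∃ C : ℝ, ∀ (Q : ℕ) (ψ : k →+* k) (x : k), Fr l (spc τ) Q ψ → h.eval₂ τ x ≠ 0 → x ^ Q = x →
        ‖j (trP l F.obj ψ (px L τ x))‖ ^ 2 ≤ C * (Q : ℝ) ^ w

/-- Row LTWO: the mean square of a Kummer convolution (no sheaves). -/
def LTWO_s : Prop := ∀ (k : Type) [Field k] [IsAlgClosed k] (p e n : ℕ) [CharP k p], p.Prime →
  e ≠ 0 → 0 < n → ∀ (h : k[X]) (a : k), h.eval a = 0 → a ^ p ^ e = a → ∀ (t : k → ℂ) (B : ℝ),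
    0 ≤ B → (∀ x, h.eval x ≠ 0 → x ^ p ^ e = x → ‖t x‖ ^ 2 ≤ B) →
    ∀ (W : Finset k) (S : k → Finset k), (∀ s ∈ W, s ≠ 0 ∧ s ^ p ^ e = s) →
      (∀ s ∈ W, ∀ x, x ∈ S s ↔ (h.eval x ≠ 0 ∧ x ≠ a + s) ∧ x ^ p ^ e = x) →
      ∑ s ∈ W, ‖∑ x ∈ S s,
        ((Nat.card {y : k // y ^ n * (x - a) = x - a - s ∧ y ^ p ^ e = y} : ℂ) - 1) * t x‖ ^ 2 ≤
          (n : ℝ) ^ 2 * ((p ^ e : ℕ) : ℝ) ^ 2 * B

/-- Row CORE: the weight bound at the puncture (no sheaves). -/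
def CORE_s : Prop := ∀ (p l e : ℕ) [Fact l.Prime] (k Ω : Type) [Field k] [Field Ω] [Algebra k Ω]
  (Γ : Gr p l k Ω) (G : Subgroup (Ω ≃+* Ω)), e ≠ 0 →
    (∀ g : Ω ≃ₐ[k⟮Γ.X⟯] Ω, g.toRingEquiv ∈ G) →
    ∀ (M M₁ M' N : Type 1) [AddCommGroup M] [AddCommGroup M₁] [AddCommGroup M'] [AddCommGroup N]
      (σ : G →* AddMonoid.End M) (σ₁ : G →* AddMonoid.End M₁) (σ' : G →* AddMonoid.End M')
      (i : M₁ →+ M') (π : M₁ →+ M), GM Γ σ → GM Γ σ' → Function.Injective i →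
      Function.Surjective π → (∀ g m, i (σ₁ g m) = σ' g (i m)) → (∀ g m, π (σ₁ g m) = σ g (π m)) →
    ∀ (φ : G) (V₀ : ValuationSubring Ω), Γ.Fr (p ^ e) φ.1 → At Γ.X (0 : k) V₀ → Stab φ.1 V₀ →
    ∀ (j : ℚ_[l] →+* ℂ) (t : ℕ → k → ℂ) (B C : ℝ), 0 < B →
      (∀ (m : ℕ) (x : k) (V : ValuationSubring Ω) (g : G), 0 < m → Γ.Fr ((p ^ e) ^ m) g.1 →
        Γ.Pnt x → At Γ.X x V → Stab g.1 V →
          (j (tr l (σ' g⁻¹ : M' →+ M'))).im = 0 ∧ j (tr l (σ g⁻¹ : M →+ M)) = t m x) →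
      (∀ (m : ℕ) (S : Finset k), 0 < m → (∀ x ∈ S, Γ.Pnt x ∧ x ^ (p ^ e) ^ m = x) →
        ∑ x ∈ S, ‖t m x‖ ^ 2 ≤ C * (((p ^ e : ℕ) : ℝ) * B) ^ m) →
    ∀ (c : N →+ M) (Φ : N →+ N), Function.Injective c → (∀ y, c (Φ y) = σ φ⁻¹ (c y)) →
      (∀ g : G, Stab g.1 V₀ → (∀ a : k, g.1 (algebraMap k Ω a) = algebraMap k Ω a) →
        ∀ y, σ g (c y) = c y) → Ev j (Set.Iic B) Φ

/-- Row DICT: open and unramified in the two languages. -/
def DICT_s : Prop := ∀ (p l : ℕ) (k Ω B : Type) [Field k] [Field Ω] [Algebra k Ω] (Γ : Gr p l k Ω)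
  (h : k[X]) (a : k) [CommRing B] [Algebra k[X] B] [IsLocalization.Away h B] [Algebra B Ω],
    (∀ c, algebraMap B Ω (algebraMap k[X] B (C c)) = algebraMap k Ω c) →
    algebraMap B Ω (algebraMap k[X] B X) = Γ.X + algebraMap k Ω a →
    (∀ x, Γ.Pnt x ↔ h.eval (x + a) ≠ 0) →
    ∃ e : (Ω ≃ₐ[k⟮Γ.X⟯] Ω) ≃* (Ω ≃ₐ[B] Ω), (∀ g z, e g z = g z) ∧
      ∀ M : Subgroup (Ω ≃ₐ[k⟮Γ.X⟯] Ω), Γ.adm M ↔
        Opn (fun g : Ω ≃ₐ[B] Ω => e.symm g ∈ M) ∧ Unr fun g : Ω ≃ₐ[B] Ω => e.symm g ∈ M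

end Pool.Agent.MP_855f4c_ag.E.W

end

section

set_option backward.isDefEq.respectTransparency false

open CategoryTheory Limits Abelian Opposite AlgebraicGeometry Polynomial
open scoped IntermediateField

namespace Pool.Agent.MP_855f4c_ag.E.W

open E3 E4 H7

section basic
variable {X : Scheme.{0}}

lemma spc_inj {A B : Type} [CommRing A] [CommRing B] {φ ψ : A →+* B} (h : spc φ = spc ψ) :
    φ = ψ := congrArg CommRingCat.Hom.hom (Spec.map_injective h)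

lemma spc_comp {A B C : Type} [CommRing A] [CommRing B] [CommRing C] (φ : A →+* B) (ψ : B →+* C) :
    spc ψ ≫ spc φ = spc (ψ.comp φ) := (Spec.map_comp _ _).symm

lemma spc_fix {A k : Type} [CommRing A] [CommRing k] {τ : A →+* k} {ψ : k →+* k} :
    spc ψ ≫ spc τ = spc τ ↔ ∀ a, ψ (τ a) = τ a := by
  rw [spc_comp]
  exact ⟨fun h a => RingHom.congr_fun (spc_inj h) a, fun h => congrArg spc (RingHom.ext h)⟩

lemma fix_pow {k : Type} [CommRing k] {z : Spec (.of k) ⟶ X} {ψ : k →+* k} (e : spc ψ ≫ z = z) :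
    ∀ n : ℕ, spc (ψ ^ n) ≫ z = z
  | 0 => by
    change Spec.map (𝟙 _) ≫ z = z
    rw [Spec.map_id, Category.id_comp]
  | n + 1 => by
    rw [pow_succ, RingHom.mul_def, ← spc_comp, Category.assoc, e, fix_pow e n]

lemma pa_id (P : PSh X) {k : Type} [CommRing k] {z : Spec (.of k) ⟶ X}
    (e : spc (RingHom.id k) ≫ z = z) (y) : pa P (RingHom.id k) e y = y := by
  have : sph (RingHom.id k) e = 𝟙 _ := Over.OverMorphism.ext (Spec.map_id _)
  change P.map (sph _ _).op y = y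
  rw [this]; exact res_id P y

lemma pa_pow (P : PSh X) {k : Type} [CommRing k] {z : Spec (.of k) ⟶ X} {ψ : k →+* k}
    (e : spc ψ ≫ z = z) (φ : AddMonoid.End (P.obj (op (Over.mk z)))) (hφ : ∀ y, φ y = pa P ψ e y)
    (n : ℕ) (y) : pa P (ψ ^ n) (fix_pow e n) y = (φ ^ n) y := by
  induction n generalizing y with
  | zero => exact pa_id P (fix_pow e 0) y
  | succ n ih =>
    have : sph (ψ ^ (n + 1)) (fix_pow e _) = sph _ (fix_pow e n) ≫ sph _ e :=
      Over.OverMorphism.ext (by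
        change spc (ψ ^ (n + 1)) = spc (ψ ^ n) ≫ spc ψ
        rw [spc_comp, pow_succ, RingHom.mul_def])
    rw [pow_succ φ, AddMonoid.End.coe_mul, Function.comp_apply, ← ih, hφ]
    change P.map (sph _ _).op y = _
    rw [this]; exact (res_res P _ _ y).symm

lemma trP_eq (l : ℕ) [Fact l.Prime] (P : PSh X) {k : Type} [CommRing k] {ψ : k →+* k}
    {z : Spec (.of k) ⟶ X} (e : spc ψ ≫ z = z) : trP l P ψ z = tr l (pa P ψ e) := dif_pos e

lemma fr_pow {l Q : ℕ} {k : Type} [Field k] {Y : Scheme.{0}}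
    {x : Spec (.of k) ⟶ X} {y : Spec (.of k) ⟶ Y} {ψ : k →+* k} (h : Fr l x Q ψ)
    {n : ℕ} (hn : n ≠ 0) (e : spc (ψ ^ n) ≫ y = y) : Fr l y (Q ^ n) (ψ ^ n) where
  ne := h.ne
  lt := Nat.one_lt_pow hn h.lt
  pow z := by
    clear e hn
    induction n generalizing z with
    | zero => simp
    | succ n ih => rw [pow_succ' ψ, RingHom.mul_def, RingHom.comp_apply, pow_succ' Q, pow_mul,
        h.pow, ih]
  alg z := by
    obtain ⟨m, hm, e'⟩ := h.alg z
    refine ⟨m, hm, ?_⟩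
    rw [← pow_mul, mul_comm, pow_mul]
    clear hn e
    induction n with
    | zero => simp
    | succ n ih => rw [pow_succ, pow_mul, ih, e']
  fix := e

end basic

section fields
variable {k Ω : Type} [Field k] [Field Ω] [Algebra k Ω] {ξ : Ω}

lemma exists_gen (k : Type) [Field k] [IsAlgClosed k] :
    ∃ (Ω : Type) (_ : Field Ω) (_ : Algebra k Ω) (ξ : Ω), Gen k ξ := by
  let Ω := AlgebraicClosure (FractionRing k[X])
  have hi : Function.Injective (algebraMap k[X] Ω) :=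
    (algebraMap (FractionRing k[X]) Ω).injective.comp (IsFractionRing.injective k[X] _)
  have e : ∀ f : k[X], aeval (algebraMap k[X] Ω Polynomial.X) f = algebraMap k[X] Ω f := fun f => by
    rw [aeval_algebraMap_apply, aeval_X_left_apply]
  refine ⟨Ω, inferInstance, inferInstance, algebraMap k[X] Ω Polynomial.X, inferInstance,
    inferInstance, fun ⟨f, h0, hf⟩ => h0 (hi (by rw [← e, hf, map_zero])), fun z => ?_⟩
  have : Algebra.IsAlgebraic k[X] (FractionRing k[X]) :=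
    IsLocalization.isAlgebraic _ (nonZeroDivisors k[X])
  have : Algebra.IsAlgebraic k[X] Ω := .trans k[X] (FractionRing k[X]) Ω
  let γ : k[X] →+* Algebra.adjoin k {algebraMap k[X] Ω Polynomial.X} :=
    (algebraMap k[X] Ω).codRestrict _ fun f => e f ▸ aeval_mem_adjoin_singleton k _
  exact (this.1 z).ringHom_of_comp_eq γ (RingHom.id Ω) (fun a b h => hi (congrArg Subtype.val h))
    rfl

lemma Gen.frx (h : Gen k ξ) (ψ : k ≃+* k) : ∃ g : Ω ≃+* Ω, g ξ = ξ ∧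
    ∀ c, g (algebraMap k Ω c) = algebraMap k Ω (ψ c) := by
  have := h.cl
  let e := (algEquivOfTranscendental k ξ h.tr).toRingEquiv
  have : Algebra.IsAlgebraic (Algebra.adjoin k {ξ}) Ω := ⟨h.alg⟩
  have : IsAlgClosure (Algebra.adjoin k {ξ}) Ω := ⟨inferInstance, inferInstance⟩
  let γ := (e.symm.trans (mapEquiv ψ)).trans e
  have H : ∀ f : k[X], IsAlgClosure.equivOfEquiv Ω Ω γ (aeval ξ f) =
      aeval ξ (f.map (ψ : k →+* k)) := fun f => by
    simpa [e, γ] using IsAlgClosure.equivOfEquiv_algebraMap Ω Ω γ (e f)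
  exact ⟨_, by simpa using H Polynomial.X, fun c => by simpa using H (C c)⟩

lemma Gen.algK (h : Gen k ξ) : Algebra.IsAlgebraic k⟮ξ⟯ Ω := ⟨fun z =>
  (h.alg z).ringHom_of_comp_eq
    (Subalgebra.inclusion (IntermediateField.algebra_adjoin_le_adjoin k {ξ})).toRingHom
    (RingHom.id Ω) (Subalgebra.inclusion_injective _) rfl⟩

lemma exists_fin (k : Type) [Field k] {Q : ℕ} (hQ : 1 < Q) (p : k → Prop) :
    ∃ S : Finset k, ∀ x, x ∈ S ↔ p x ∧ x ^ Q = x := by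
  classical
  have h0 : (Polynomial.X ^ Q - Polynomial.X : k[X]) ≠ 0 := FiniteField.X_pow_card_sub_X_ne_zero k hQ
  refine ⟨(Polynomial.X ^ Q - Polynomial.X : k[X]).roots.toFinset.filter p, fun x => ?_⟩
  simp [h0, sub_eq_zero, and_comm]

end fields

end Pool.Agent.MP_855f4c_ag.E.W

end

section

set_option backward.isDefEq.respectTransparency false

open CategoryTheory Limits Abelian Opposite AlgebraicGeometry Polynomial
open scoped IntermediateField

namespace Pool.Agent.MP_855f4c_ag.E.W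

open E3 E4 H7

lemma h1_inj₀ {𝒞 : Type*} [Category 𝒞] [Abelian 𝒞] [HasExt.{1} 𝒞] (A : 𝒞) {F G Q : 𝒞} (φ : F ⟶ G)
    (π : G ⟶ Q) (w : φ ≫ π = 0) (hS : (ShortComplex.mk φ π w).ShortExact)
    (h : ∀ x : Ext.{1} A Q 0, x = 0) : Function.Injective (post.{1} A φ 1) := by
  refine (injective_iff_map_eq_zero _).2 fun x hx => ?_
  obtain ⟨y, rfl⟩ := ((cov_les _ hS).e₁ 0 x).1 hx
  rw [h y, map_zero]

lemma pa_succ {X : Scheme.{0}} (P : PSh X) {k : Type} [CommRing k] {z : Spec (.of k) ⟶ X}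
    {ψ : k →+* k} (e : spc ψ ≫ z = z) (n : ℕ) (y) :
    pa P (ψ ^ (n + 1)) (fix_pow e (n + 1)) y = pa P (ψ ^ n) (fix_pow e n) (pa P ψ e y) := by
  rw [pa_pow P e (pa P ψ e) fun _ => rfl, pa_pow P e (pa P ψ e) fun _ => rfl, pow_succ]
  rfl

lemma pa_zero {X : Scheme.{0}} (P : PSh X) {k : Type} [CommRing k] {z : Spec (.of k) ⟶ X}
    {ψ : k →+* k} (e : spc ψ ≫ z = z) (y) : pa P (ψ ^ 0) (fix_pow e 0) y = y := pa_id P _ y

lemma end_pow {M : Type*} [AddCommGroup M] (φ : AddMonoid.End M) (a : ℕ → M →+ M)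
    (h0 : ∀ y, a 0 y = y) (hs : ∀ n y, a (n + 1) y = a n (φ y)) (n : ℕ) :
    (φ ^ n : AddMonoid.End M) = a n := by
  induction n with
  | zero => exact AddMonoidHom.ext fun y => (h0 y).symm
  | succ n ih => exact AddMonoidHom.ext fun y => by rw [hs, ← ih, pow_succ]; rfl

section hact
variable {X Y : Scheme.{0}} (f : X ⟶ Y) (F : Sh (Scheme.etaleTopology.over X)) (q : ℕ) {k : Type} [CommRing k]
  {t : Spec (.of k) ⟶ Y} {ψ : k →+* k} (e : spc ψ ≫ t = t)

lemma hact_zero (y) : Hact f F q (ψ ^ 0) (fix_pow e 0) y = y := pa_zero (HB f F q) e y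

lemma hact_succ (n y) : Hact f F q (ψ ^ (n + 1)) (fix_pow e (n + 1)) y =
    Hact f F q (ψ ^ n) (fix_pow e n) (Hact f F q ψ e y) := pa_succ (HB f F q) e n y

lemma ev_hact {l : ℕ} [Fact l.Prime] (j : ℚ_[l] →+* ℂ) {n : ℕ} (hn : n ≠ 0) {B : ℝ} (hB : 0 ≤ B)
    (h : Ev j (Set.Iic (B ^ n)) (Hact f F q (ψ ^ n) (fix_pow e n))) :
    Ev j (Set.Iic B) (Hact f F q ψ e) := by
  refine Ev.of_pow (φ := Hact f F q ψ e) hn hB ?_
  rw [end_pow (Hact f F q ψ e) (fun n => Hact f F q (ψ ^ n) (fix_pow e n)) (hact_zero f F q e)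
    (hact_succ f F q e) n]
  exact h

end hact

section les
variable {X : Scheme.{0}} {F G : Sh (Scheme.etaleTopology.over X)} (T : Over X) (φ : F ⟶ G)

lemma h1_inj [Mono φ] (h : ∀ x : H T (cokernel φ) 0, x = 0) :
    Function.Injective (post ((fr (Scheme.etaleTopology.over X)).obj T) φ 1) :=
  h1_inj₀ _ φ _ (cokernel.condition φ) { exact := ShortComplex.exact_cokernel φ } h

lemma h1_surj [Epi φ] (h : ∀ x : H T (kernel φ) 2, x = 0) :
    Function.Surjective (post ((fr (Scheme.etaleTopology.over X)).obj T) φ 1) := by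
  have hS : (ShortComplex.mk _ φ (kernel.condition φ)).ShortExact :=
    { exact := ShortComplex.exact_kernel φ }
  exact fun x => ((cov_les _ hS).e₃ 1 x).1 (h _)

end les

/-- The data of the family over the `s`-line. -/
structure Fam (l n p e : ℕ) {A R k Ω : Type} [CommRing A] [CommRing R] [Field k] [Field Ω]
    [Algebra k Ω] (h : A[X]) (a : A) (β : A →+* R) (s : R) (τ : A →+* k) (ψ : k →+* k) (ξ : Ω)
    (τs : k → R →+* k) (τΩ : R →+* Ω) : Prop where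
  gen : Gen k ξ
  fr : Fr l (spc τ) (p ^ e) ψ
  hp : p.Prime
  char : CharP k p
  he : e ≠ 0
  bij : Function.Bijective ψ
  hn : n.Prime
  nl : n ≠ l
  nk : (n : k) ≠ 0
  lc : IsUnit h.leadingCoeff
  root : h.eval a = 0
  sβ : ∀ x, (τs x).comp β = τ
  ss : ∀ x, τs x s = x
  sfix : ∀ (x : k) (χ : k →+* k), χ x = x → (∀ c, ψ c = c → χ c = c) → ∀ r, χ (τs x r) = τs x r
  Ωβ : τΩ.comp β = (algebraMap k Ω).comp τ
  Ωs : τΩ s = ξ
  Ωfix : ∀ g : Ω ≃+* Ω, g ξ = ξ → (∀ c, ψ c = c → g (algebraMap k Ω c) = algebraMap k Ω c) →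
    ∀ r, g (τΩ r) = τΩ r
  cong : ∀ x V, At ξ x V → ∀ r, τΩ r - algebraMap k Ω (τs x r) ∈ V.nonunits

lemma exists_fam {l Q : ℕ} {A k : Type} [Fact l.Prime] [CommRing A] [Field k] [IsAlgClosed k]
    {h : A[X]} {a : A} {τ : A →+* k} {ψ : k →+* k} (lc : IsUnit h.leadingCoeff)
    (root : h.eval a = 0) (fr : Fr l (spc τ) Q ψ) :
    ∃ (n p e : ℕ) (R Ω : Type) (_ : CommRing R) (_ : Field Ω) (_ : Algebra k Ω) (β : A →+* R)
      (s : R) (ξ : Ω) (τs : k → R →+* k) (τΩ : R →+* Ω), Q = p ^ e ∧ IsUnit (l : R) ∧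
      IsUnit (n : R) ∧ Fam l n p e h a β s τ ψ ξ τs τΩ := by
  obtain ⟨p, e, hp, hc, he, rfl, hb⟩ := frq fr.lt ψ fr.pow
  obtain ⟨Ω, _, _, ξ, hξ⟩ := exists_gen k
  obtain ⟨n, hn, hn'⟩ := Nat.exists_infinite_primes (max l p + 1)
  have nk : (n : k) ≠ 0 := fun h0 => by
    have := (Nat.prime_dvd_prime_iff_eq hp hn').1 ((CharP.cast_eq_zero_iff k p n).1 h0)
    omega
  let k₀ := RingHom.eqLocusField ψ (RingHom.id k)
  have U : ∀ m : ℕ, (m : k) ≠ 0 → IsUnit (m : k₀[X]) := fun m hm => by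
    have : (m : k₀) ≠ 0 := fun h0 => hm (by simpa using congrArg k₀.subtype h0)
    simpa using (IsUnit.mk0 _ this).map (C : k₀ →+* k₀[X])
  refine ⟨n, p, e, k₀[X], Ω, inferInstance, inferInstance, inferInstance,
    C.comp (τ.codRestrict k₀ (spc_fix.1 fr.fix)), Polynomial.X, ξ,
    fun x => eval₂RingHom k₀.subtype x, eval₂RingHom ((algebraMap k Ω).comp k₀.subtype) ξ, rfl,
    U l fr.ne, U n nk, hξ, fr, hp, hc, he, hb, hn', by omega, nk, lc, root,
    fun x => RingHom.ext fun b => by simp, fun x => by simp, fun x χ h1 h2 r => ?_,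
    RingHom.ext fun b => by simp, by simp, fun g h1 h2 r => ?_, fun x V hV r => ?_⟩
  · induction r using Polynomial.induction_on' with
    | add u v hu hv => simp only [map_add, hu, hv]
    | monomial m c => simp [h1, h2 c c.2]
  · induction r using Polynomial.induction_on' with
    | add u v hu hv => simp only [map_add, hu, hv]
    | monomial m c => simp [h1, h2 c c.2]
  · have := (nu_aeval hV.1 hV.2 (r.map k₀.subtype - C (r.eval₂ k₀.subtype x))).2.2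
      (by rw [eval_sub, Polynomial.eval_map, eval_C, sub_self])
    simpa [aeval_def, eval₂_map] using this

variable {l n p e : ℕ} [Fact l.Prime] {A R k Ω : Type} [CommRing A] [CommRing R] [Field k]
  [IsAlgClosed k] [Field Ω] [Algebra k Ω] {h : A[X]} {a : A} {β : A →+* R} {s : R} {τ : A →+* k}
  {ψ : k →+* k} {ξ : Ω} {τs : k → R →+* k} {τΩ : R →+* Ω}
  (D : Fam l n p e h a β s τ ψ ξ τs τΩ) {L : PL (Spec (.of A))} {L' : PL (Spec (.of R))}
  {E : Sh (Scheme.etaleTopology.over L.P) ⥤ Sh (Scheme.etaleTopology.over L'.P)} (hE : Conv l n L h a β s L' E)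

/-- `h(a + s)`. -/
noncomputable def h0 (h : A[X]) (a : A) (τ : A →+* k) : k[X] :=
  (h.map τ).comp (C (τ a) + Polynomial.X)

omit [IsAlgClosed k] in
lemma h0_eval (x : k) : (h0 h a τ).eval x = h.eval₂ τ (τ a + x) := by
  simp [h0, eval_comp, Polynomial.eval_map]

namespace Fam
include D

omit [Fact l.Prime] [IsAlgClosed k] in
lemma h0_ne : h0 h a τ ≠ 0 := fun e0 => by
  rcases comp_eq_zero_iff.1 e0 with h1 | ⟨-, h1⟩
  · have := (D.lc.map τ).ne_zero
    exact this (by rw [leadingCoeff, ← coeff_map, h1, coeff_zero])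
  · simpa using congrArg (coeff · 1) h1

omit [Fact l.Prime] [IsAlgClosed k] in
lemma lc' : IsUnit (hc h a β s).leadingCoeff := by
  rw [hc, leadingCoeff_mul_monic (monic_X_sub_C _)]
  nontriviality R
  have := D.lc.map β
  rwa [leadingCoeff_map_of_leadingCoeff_ne_zero _ this.ne_zero]

omit [Fact l.Prime] [IsAlgClosed k] in
lemma βa (x : k) (b : A) : τs x (β b) = τ b := RingHom.congr_fun (D.sβ x) b

omit [Fact l.Prime] [IsAlgClosed k] in
lemma good {x : k} (hx : (h0 h a τ).eval x ≠ 0) :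
    h.eval₂ ((τs x).comp β) (τs x (β a + s)) ≠ 0 := by
  rwa [D.sβ, map_add, D.βa, D.ss, ← h0_eval]

omit [Fact l.Prime] [IsAlgClosed k] in
lemma goodΩ : h.eval₂ (τΩ.comp β) (τΩ (β a + s)) ≠ 0 := fun e0 => by
  refine D.gen.tr ⟨_, D.h0_ne, ?_⟩
  rw [← e0, map_add, D.Ωs, ← RingHom.comp_apply, D.Ωβ, h0, aeval_comp, aeval_def, aeval_def,
    eval₂_map]
  simp

omit [Fact l.Prime] [IsAlgClosed k] in
lemma fix_iff (N : ℕ) (x : k) : (ψ ^ N) x = x ↔ x ^ (p ^ e) ^ N = x := by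
  have hψ : ∀ z, (ψ ^ N) z ^ (p ^ e) ^ N = z := by
    rcases N.eq_zero_or_pos with rfl | hN
    · simp
    · exact (fr_pow D.fr hN.ne' (fix_pow D.fr.fix N)).pow
  refine ⟨fun h1 => by simpa only [h1] using hψ x, fun h1 => ?_⟩
  have := hψ (x ^ (p ^ e) ^ N)
  rw [map_pow, hψ] at this
  have h2 := hψ x
  rw [← map_pow, h1] at h2
  exact h2

omit [Fact l.Prime] [IsAlgClosed k] in
lemma sfix' (N : ℕ) {x : k} (hx : x ^ (p ^ e) ^ N = x) :
    spc (ψ ^ N) ≫ spc (τs x) = spc (τs x) :=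
  spc_fix.2 (D.sfix x _ ((D.fix_iff N x).2 hx) fun c hc => by
    rw [RingHom.coe_pow]; exact Function.iterate_fixed hc N)

omit [Fact l.Prime] [IsAlgClosed k] in
lemma inv_spec {N : ℕ} {g : Ω ≃+* Ω}
    (hg : ∀ c, g (algebraMap k Ω c) = algebraMap k Ω c ^ (p ^ e) ^ N) (c : k) :
    g⁻¹ (algebraMap k Ω c) = algebraMap k Ω ((ψ ^ N) c) := by
  refine g.symm_apply_eq.2 ?_
  rw [hg, ← map_pow]
  rcases N.eq_zero_or_pos with rfl | hN
  · simp
  · rw [(fr_pow D.fr hN.ne' (fix_pow D.fr.fix N)).pow]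

include hE

/-- The Galois module `H¹` of the generic fibre. -/
lemma mod (gc : GdCof_s) (ga : GDAB_s) (fa : FAM_s) (h2 : H2V_s) {F : Sh (Scheme.etaleTopology.over L.P)}
    (hF : Gd l L h F) : ∃ h₁ : k[X], h₁ ≠ 0 ∧
      (∀ Γ : Gr p l k Ω, Γ.X = ξ → (∀ x, Γ.Pnt x → h₁.eval x ≠ 0) →
        GM Γ (actP (HB L'.π (E.obj F) 1) (spc τΩ)) ∧
        ∀ (N : ℕ) (x : k) (V : ValuationSubring Ω) (g : Fix (spc τΩ)), Γ.Fr ((p ^ e) ^ N) g.1 →
          Γ.Pnt x → At Γ.X x V → Stab g.1 V →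
          tr l (actP (HB L'.π (E.obj F) 1) (spc τΩ) g⁻¹ :) =
            trP l (HB L'.π (E.obj F) 1) (ψ ^ N) (spc (τs x))) ∧
      ∀ V, At ξ (0 : k) V → ∃ c : (HB L'.π (E.obj F) 1).obj (op (Over.mk (spc (τs 0)))) →+
            (HB L'.π (E.obj F) 1).obj (op (Over.mk (spc τΩ))), Function.Injective c ∧
          ∀ (g : Fix (spc τΩ)) (χ : k →+* k) (hχ : spc χ ≫ spc (τs 0) = spc (τs 0)), Stab g.1 V →
            (∀ a, g.1 (algebraMap k Ω a) = algebraMap k Ω (χ a)) →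
            ∀ y, c (pa (HB L'.π (E.obj F) 1) χ hχ y) =
              actP (HB L'.π (E.obj F) 1) (spc τΩ) g (c y) := by
  have hG := hE.gd F hF
  have := D.gen.cl
  obtain ⟨ho, h₁, h1, H⟩ := fa l R L' _ _ D.lc' hG k Ω ξ D.gen D.fr.ne τs τΩ _ D.h0_ne D.cong
    fun x hx => h2 l n A R L h a β s L' E hE D.hn D.nl D.lc D.root F _ (kernel.ι _) hF
      (ga l R L' _ _ _ _ hG hG).1 k (τs x) D.fr.ne D.nk (D.good hx)
  refine ⟨h₁, h1, fun Γ hX hΓ => ⟨⟨(gc l R L' _ _ D.lc' hG Ω (spc τΩ) ?_).2 1, ho,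
    fun x V g hx hV hs hg m => ?_⟩, fun N x V g hg hx hV hs => ?_⟩, fun V hV => ?_⟩
  · simpa using (algebraMap k Ω).injective.ne D.fr.ne
  · obtain ⟨c, -, h3, h4⟩ := H x V (hX ▸ hV)
    obtain ⟨y, rfl⟩ := h3 (hΓ x hx) m
    rw [← h4 g (RingHom.id k) (spc_fix.2 fun _ => rfl) hs hg, pa_id]
  · obtain ⟨c, h2, h3, h4⟩ := H x V (hX ▸ hV)
    have hx' := D.sfix' N (hg.fix hV hs)
    rw [trP_eq l _ hx']
    refine tr_equiv (AddEquiv.ofBijective c ⟨h2, h3 (hΓ x hx)⟩) fun m =>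
      (h4 g⁻¹ _ hx' (fun z => ?_) (D.inv_spec hg.c) m).symm
    have := hs (g.1.symm z)
    rw [RingEquiv.apply_symm_apply] at this
    exact this.symm
  · obtain ⟨c, h2, -, h4⟩ := H 0 V hV
    exact ⟨c, h2, h4⟩

/-- The trace on `H¹` of a good fibre. -/
lemma form (fo : FORM_s) {F : Sh (Scheme.etaleTopology.over L.P)} (hF : Gd l L h F) {N : ℕ} (hN : N ≠ 0) {x : k}
    (hx : (h0 h a τ).eval x ≠ 0) (hx' : x ^ (p ^ e) ^ N = x) (S : Finset k)
    (hS : ∀ z, z ∈ S ↔ ((h.map τ).eval z ≠ 0 ∧ z ≠ τ a + x) ∧ z ^ (p ^ e) ^ N = z) :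
    trP l (HB L'.π (E.obj F) 1) (ψ ^ N) (spc (τs x)) = -∑ z ∈ S,
      ((Nat.card {y : k // y ^ n * (z - τ a) = z - τ a - x ∧ y ^ (p ^ e) ^ N = y} : ℚ_[l]) - 1) *
        trP l F.obj (ψ ^ N) (px L τ z) := by
  have := fo l n A R L h a β s L' E hE D.hn D.nl D.lc D.root F hF k (τs x) _ _
    (fr_pow D.fr hN (D.sfix' N hx')) D.nk (D.good hx) S fun z => by
      rw [hS, hc, eval₂_mul, eval₂_map, D.sβ, eval₂_sub, eval₂_X, eval₂_C, map_add, D.βa, D.ss,
        Polynomial.eval_map, mul_ne_zero_iff, sub_ne_zero]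
  rwa [D.sβ, D.βa, D.ss] at this

lemma real (fo : FORM_s) {F : Sh (Scheme.etaleTopology.over L.P)} (hF : Gd l L h F) (hr : RatT l F) {N : ℕ}
    (hN : N ≠ 0) {x : k} (hx : (h0 h a τ).eval x ≠ 0) (hx' : x ^ (p ^ e) ^ N = x)
    (j : ℚ_[l] →+* ℂ) : (j (trP l (HB L'.π (E.obj F) 1) (ψ ^ N) (spc (τs x)))).im = 0 := by
  obtain ⟨S, hS⟩ := exists_fin k (Nat.one_lt_pow hN D.fr.lt)
    fun z => (h.map τ).eval z ≠ 0 ∧ z ≠ τ a + x
  rw [D.form hE fo hF hN hx hx' S hS, map_neg, map_sum, Complex.neg_im, Complex.im_sum,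
    Finset.sum_eq_zero, neg_zero]
  intro z _
  by_cases hz : spc (ψ ^ N) ≫ px L τ z = px L τ z
  · obtain ⟨r, hr⟩ := hr k _ _ _ (fr_pow D.fr hN hz)
    rw [trP_eq l _ hz, hr]
    simp
  · rw [trP, dif_neg hz]
    simp

lemma two (fo : FORM_s) (lo : LOC_s) (lt : LTWO_s) {F : Sh (Scheme.etaleTopology.over L.P)} (hF : Gd l L h F) {w : ℕ}
    (hw : Wt l w F) (j : ℚ_[l] →+* ℂ) : ∃ C : ℝ, ∀ (N : ℕ) (W : Finset k), N ≠ 0 →
      (∀ x ∈ W, x ≠ 0 ∧ (h0 h a τ).eval x ≠ 0 ∧ x ^ (p ^ e) ^ N = x) →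
      ∑ x ∈ W, ‖j (trP l (HB L'.π (E.obj F) 1) (ψ ^ N) (spc (τs x)))‖ ^ 2 ≤
        C * ((p ^ e : ℕ) ^ N : ℝ) ^ (w + 2) := by
  obtain ⟨C, hC⟩ := lo l A L h F w D.lc hF hw k τ j D.fr.ne
  refine ⟨n ^ 2 * |C|, fun N W hN hW => ?_⟩
  choose S hS using fun x : k => exists_fin k (Nat.one_lt_pow hN D.fr.lt)
    fun z => (h.map τ).eval z ≠ 0 ∧ z ≠ τ a + x
  have := D.char
  have hf := fix_pow D.fr.fix N
  have := lt k p (e * N) n D.hp (mul_ne_zero D.he hN) D.hn.pos (h.map τ) (τ a)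
    (by rw [Polynomial.eval_map, eval₂_at_apply, D.root, map_zero])
    (by rw [pow_mul]; exact (D.fix_iff N _).1 (spc_fix.1 hf a))
    (fun z => j (trP l F.obj (ψ ^ N) (px L τ z))) (|C| * ((p ^ e : ℕ) ^ N : ℝ) ^ w) (by positivity)
    (fun z h1 h2 => (hC _ _ z (fr_pow D.fr hN hf) (by rwa [← Polynomial.eval_map])
      (by rwa [← pow_mul])).trans (by push_cast; gcongr; exact le_abs_self C)) W S
    (fun x hx => ⟨(hW x hx).1, by rw [pow_mul]; exact (hW x hx).2.2⟩)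
    (fun x _ z => by rw [pow_mul]; exact hS x z)
  refine le_of_eq_of_le (Finset.sum_congr rfl fun x hx => ?_) (this.trans_eq ?_)
  · rw [D.form hE fo hF hN (hW x hx).2.1 (hW x hx).2.2 _ (hS x), map_neg, norm_neg, map_sum]
    simp only [map_mul, map_sub, map_natCast, map_one, pow_mul]
  · push_cast; rw [pow_mul]; ring

end Fam

theorem ct (gc : GdCof_s) (ga : GDAB_s) (co : CONV_s) (fa : FAM_s) (h2 : H2V_s) (ze : ZER_s)
    (fo : FORM_s) (lo : LOC_s) (lt : LTWO_s) (cr : CORE_s) : CT_s := by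
  intro l _ A _ L h a F F₁ F' i π _ _ w lc root hF hF₁ hF' hr hw k _ _ t Q ψ hψ j
  obtain ⟨τ, rfl⟩ : ∃ τ : A →+* k, spc τ = t := by
    obtain ⟨τ, rfl⟩ := Spec.map_surjective t
    exact ⟨τ.hom, rfl⟩
  obtain ⟨n, p, e, R, Ω, _, _, _, β, s, ξ, τs, τΩ, rfl, ul, un, D⟩ := exists_fam lc root hψ
  let L' := PL.std (Spec (.of R))
  obtain ⟨E, hE⟩ := co l n A R L h a β s L' ul un D.hn.pos root
  obtain ⟨h₁, h1, H1, H0⟩ := D.mod hE gc ga fa h2 hF
  obtain ⟨h₂, h1', H2, -⟩ := D.mod hE gc ga fa h2 hF'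
  have := D.char
  have := D.gen.cl
  have hlΩ : (l : Ω) ≠ 0 := by simpa using (algebraMap k Ω).injective.ne D.fr.ne
  have hnΩ : (n : Ω) ≠ 0 := by simpa using (algebraMap k Ω).injective.ne D.nk
  let Γ : Gr p l k Ω :=
    { hp := D.hp, hl := Fact.out, char := D.char, closed := inferInstance, closedΩ := D.gen.cl
      hlp := fun e0 => D.fr.ne (e0 ▸ CharP.cast_eq_zero k p)
      alg := fun c => by
        obtain ⟨m, hm, hc⟩ := D.fr.alg c
        exact ⟨e * m, mul_ne_zero D.he hm.ne', by rwa [pow_mul]⟩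
      X := ξ, tr := D.gen.tr, algΩ := D.gen.algK, h := h0 h a τ * h₁ * h₂
      h0 := mul_ne_zero (mul_ne_zero D.h0_ne h1) h1' }
  have P : ∀ x, Γ.Pnt x → ((h0 h a τ).eval x ≠ 0 ∧ h₁.eval x ≠ 0) ∧ h₂.eval x ≠ 0 := fun x hx => by
    simpa only [Γ, eval_mul, mul_ne_zero_iff] using hx.2
  obtain ⟨G1, T1⟩ := H1 Γ rfl fun x hx => (P x hx).1.2
  obtain ⟨G2, T2⟩ := H2 Γ rfl fun x hx => (P x hx).2
  obtain ⟨m, hm, hmc⟩ : ∃ m, m ≠ 0 ∧ Γ.h.map (ψ ^ m) = Γ.h := by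
    choose r hr hr' using D.fr.alg
    refine ⟨∏ i ∈ Γ.h.support, r (Γ.h.coeff i),
      Finset.prod_ne_zero_iff.2 fun i _ => (hr _).ne', Polynomial.ext fun i => ?_⟩
    by_cases hi : i ∈ Γ.h.support
    · obtain ⟨c, hc⟩ := Finset.dvd_prod_of_mem (fun i => r (Γ.h.coeff i)) hi
      rw [coeff_map, hc, pow_mul, RingHom.coe_pow]
      exact Function.iterate_fixed ((D.fix_iff _ _).2 (hr' _)) c
    · rw [coeff_map, notMem_support_iff.1 hi, map_zero]
  have hf := fix_pow D.fr.fix m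
  have fm := fr_pow D.fr hm hf
  obtain ⟨g₀, g1, g2⟩ := D.gen.frx (RingEquiv.ofBijective (ψ ^ m)
    (by rw [RingHom.coe_pow]; exact D.bij.iterate m))
  have f0 : Γ.Fr ((p ^ e) ^ m) g₀⁻¹ := ⟨g₀.symm_apply_eq.2 g1.symm, g₀.symm_apply_eq.2 (by
    conv_lhs => rw [← hmc]
    rw [aeval_def, aeval_def, eval₂_map]
    refine .symm ((hom_eval₂ _ _ (g₀ : Ω →+* Ω) _).trans ?_)
    congr 1
    exact RingHom.ext g2), fun c => g₀.symm_apply_eq.2 (by
      rw [← map_pow, g2]; exact congrArg _ ((fm.pow c).symm.trans (map_pow _ _ _).symm))⟩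
  obtain ⟨V₀, hV⟩ := exists_at D.gen.tr (0 : k)
  obtain ⟨g, hg⟩ := f0.stab (zero_pow fm.lt.ne_bot) hV
  have f1 := f0.mul g
  have hφ : g₀⁻¹ * g.toRingEquiv ∈ Fix (spc τΩ) := spc_fix.2 (D.Ωfix _ f1.X fun c hc => by
    rw [f1.c, ← map_pow, (D.fix_iff m c).1 (by
      rw [RingHom.coe_pow]; exact Function.iterate_fixed hc m)])
  obtain ⟨c, c1, c2⟩ := H0 V₀ hV
  obtain ⟨C, hC⟩ := D.two hE fo lo lt hF hw j
  have := hE.mono i hF₁ hF'
  have := hE.epi π hF₁ hF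
  have hz := D.sfix' m (zero_pow fm.lt.ne_bot)
  have hq : (0 : ℝ) < (p ^ e : ℕ) := Nat.cast_pos.2 (pow_pos D.hp.pos e)
  have key := cr p l (e * m) k Ω Γ (Fix (spc τΩ)) (mul_ne_zero D.he hm)
    (fun g => spc_fix.2 (D.Ωfix _ (by simpa using Gr.fix_aeval g Polynomial.X)
      fun c _ => by simpa using Gr.fix_aeval g (Polynomial.C c)))
    _ _ _ _ _ (actP (HB L'.π (E.obj F₁) 1) (spc τΩ)) _
    (post ((fr _).obj (fbr L'.π (spc τΩ))) (E.map i) 1)
    (post ((fr _).obj (fbr L'.π (spc τΩ))) (E.map π) 1) G1 G2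
    (fun _ _ h' => h1_inj _ _ (gc l R L' _ _ D.lc'
      (ga l R L' _ _ _ (E.map i) (hE.gd _ hF₁) (hE.gd _ hF')).2.1 Ω _ hlΩ).1 h')
    (fun y => (h1_surj _ _ (h2 l n A R L h a β s L' E hE D.hn D.nl lc root F₁ _ (kernel.ι _) hF₁
      (ga l R L' _ _ _ (E.map π) (hE.gd _ hF₁) (hE.gd _ hF)).1 Ω τΩ hlΩ hnΩ D.goodΩ) y).elim
        fun x hx => ⟨x, hx⟩)
    (fun g y => (pre_post _ _ y).symm) (fun g y => (pre_post _ _ y).symm) ⟨_, hφ⟩ V₀
    (by rwa [pow_mul]) hV hg j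
    (fun N x => j (trP l (HB L'.π (E.obj F) 1) (ψ ^ (m * N)) (spc (τs x))))
    ((((p ^ e : ℕ) : ℝ) ^ (w + 1)) ^ m) C (by positivity)
    (fun N x V g hN h3 h4 h5 h6 => by
      rw [pow_mul p, ← pow_mul] at h3
      exact ⟨(congrArg (fun t => (j t).im) (T2 _ x V g h3 h4 h5 h6)).trans
        (D.real hE fo hF' hr (mul_ne_zero hm hN.ne') (P x h4).1.1 (h3.fix h5 h6) j),
        congrArg j (T1 _ x V g h3 h4 h5 h6)⟩)
    (fun N S hN hS => (hC (m * N) S (mul_ne_zero hm hN.ne') fun x hx =>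
      ⟨(hS x hx).1.1, (P x (hS x hx).1).1.1, by
        simpa only [← pow_mul, mul_assoc] using (hS x hx).2⟩).trans_eq (by push_cast; ring))
    c _ c1
    (c2 (⟨_, hφ⟩ : Fix (spc τΩ))⁻¹ _ hz (fun z => by
      have := hg ((g₀⁻¹ * g.toRingEquiv).symm z)
      rw [RingEquiv.apply_symm_apply] at this
      exact this.symm) (D.inv_spec f1.c))
    fun g h3 h4 y => (c2 g (RingHom.id k) (spc_fix.2 fun _ => rfl) h3 h4 y).symm.trans
      (congrArg c (pa_id _ _ y))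
  have key' : ∀ (σ : A →+* k) (_ : σ = τ) (h3 : spc (ψ ^ m) ≫ spc σ = spc σ),
      Ev j (Set.Iic ((((p ^ e : ℕ) : ℝ) ^ (w + 1)) ^ m)) (Hact L.π F 1 (ψ ^ m) h3) →
      Ev j (Set.Iic ((((p ^ e : ℕ) : ℝ) ^ (w + 1)) ^ m))
        (Hact L.π F 1 (ψ ^ m) (fix_pow hψ.fix m)) := by
    rintro _ rfl h3 h4
    obtain rfl : h3 = fix_pow hψ.fix m := rfl
    exact h4
  have := key' _ (D.sβ 0) _ (ze l n A R L h a β s L' E hE D.hn.one_lt lc root F hF k (τs 0) (ψ ^ m)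
    (by rw [D.sβ]; exact hf) hz D.fr.ne D.nk (D.ss 0)
    (by rw [RingHom.coe_pow]; exact D.bij.iterate m) j _ key)
  exact ev_hact L.π F 1 hψ.fix j hm (by positivity) this

end Pool.Agent.MP_855f4c_ag.E.W

end

section

set_option backward.isDefEq.respectTransparency false

open CategoryTheory Limits Opposite AlgebraicGeometry Polynomial IntermediateField

namespace Pool.Agent.MP_855f4c_ag.E.W

open E3 E4 H7

namespace H2V

section fld
variable {k Ω : Type} [Field k] [Field Ω] [Algebra k Ω]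

/-- An inertia element that multiplies a generator `r` by `ζ`. -/
lemma ex0 [IsAlgClosed Ω] {r : Ω} (hrt : Transcendental k r)
    (hra : ∀ z : Ω, IsAlgebraic (Algebra.adjoin k {r}) z) {V : ValuationSubring Ω}
    (hV : At r (0 : k) V) {ζ : k} (ζ0 : ζ ≠ 0) : ∃ u : Ω ≃+* Ω, Stab u V ∧
      (∀ c, u (algebraMap k Ω c) = algebraMap k Ω c) ∧ u r = algebraMap k Ω ζ * r := by
  let e := algEquivOfTranscendental k r hrt
  let _ := invertibleOfNonzero ζ0
  let γ := (e.symm.trans (algEquivCMulXAddC ζ 0)).trans e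
  have : Algebra.IsAlgebraic (Algebra.adjoin k {r}) Ω := ⟨hra⟩
  have : IsAlgClosure (Algebra.adjoin k {r}) Ω := ⟨inferInstance, inferInstance⟩
  let τ := IsAlgClosure.equivOfEquiv Ω Ω γ.toRingEquiv
  have hτ : ∀ f : k[X], τ (aeval r f) = aeval r (f.comp (C ζ * Polynomial.X + C 0)) := fun f => by
    have := IsAlgClosure.equivOfEquiv_algebraMap Ω Ω γ.toRingEquiv (e f)
    simpa [e, γ, τ, comp_eq_aeval] using this
  have h1 : τ r = algebraMap k Ω ζ * r := by simpa using hτ Polynomial.X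
  have h2 : ∀ c, τ (algebraMap k Ω c) = algebraMap k Ω c := fun c => by simpa using hτ (C c)
  obtain ⟨g, hg⟩ := conj0 hrt hra (V := V.comap (τ : Ω →+* Ω)) (x := 0) ⟨fun c => by
    change τ _ ∈ V
    rw [h2]; exact hV.1 c, (nu_map (τ : Ω →+* Ω) (fun _ => Iff.rfl) _).1 (by
      have := hV.2
      rw [map_zero, sub_zero] at this ⊢
      rw [RingHom.coe_coe, h1, mul_comm]; exact nu_mul this (hV.1 ζ))⟩ hV
  have h3 : g r = r := g.commutes ⟨r, mem_adjoin_simple_self k r⟩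
  refine ⟨g.toRingEquiv.trans τ, hg, fun c => ?_, ?_⟩
  · change τ (g _) = _
    rw [fix_const, h2]
  · change τ (g _) = _
    rw [h3, h1]

/-- An inertia element at `ξ = a + s` that rotates the roots of `y ^ n (ξ - a) = ξ - a - s`. -/
lemma exu {ξ : Ω} (G : Gen k ξ) {n : ℕ} (hn : 0 < n) (a s : k) (hs : s ≠ 0) {ζ : k}
    (hζ : IsPrimitiveRoot ζ n) : ∃ (u : Ω ≃+* Ω) (V : ValuationSubring Ω), At ξ (a + s) V ∧
      Stab u V ∧ (∀ c, u (algebraMap k Ω c) = algebraMap k Ω c) ∧ u ξ = ξ ∧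
      ∀ y, y ^ n * (ξ - algebraMap k Ω a) = ξ - algebraMap k Ω a - algebraMap k Ω s →
        u y = algebraMap k Ω ζ * y := by
  have := G.cl
  have hne : ∀ c : k, ξ - algebraMap k Ω c ≠ 0 := fun c e =>
    G.tr (sub_eq_zero.1 e ▸ isAlgebraic_algebraMap c)
  have hs' : algebraMap k Ω s ≠ 0 := (_root_.map_ne_zero _).2 hs
  obtain ⟨V, hV⟩ := exists_at G.tr (a + s)
  obtain ⟨r, hr⟩ := IsAlgClosed.exists_pow_nat_eq
    ((ξ - algebraMap k Ω (a + s)) / (ξ - algebraMap k Ω a)) hn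
  have h1 : (1 - r ^ n) * (ξ - algebraMap k Ω a) = algebraMap k Ω s := by
    rw [sub_mul, hr, div_mul_cancel₀ _ (hne a), map_add]; ring
  have h2 : 1 - r ^ n ≠ 0 := fun e => hs' (by rw [← h1, e, zero_mul])
  have h3 : ξ = algebraMap k Ω a + algebraMap k Ω s / (1 - r ^ n) := by
    rw [← h1, mul_div_cancel_left₀ _ h2]; ring
  have h4 : ξ ∈ k⟮r⟯ := h3 ▸ add_mem (IntermediateField.algebraMap_mem _ _) (div_mem
    (IntermediateField.algebraMap_mem _ _) (sub_mem (one_mem _)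
      (pow_mem (mem_adjoin_simple_self k r) n)))
  have hra : ∀ z : Ω, IsAlgebraic (Algebra.adjoin k {r}) z := fun z =>
    IsAlgebraic.adjoin_of_forall_isAlgebraic (fun x hx => hx.1 ▸ isAlgebraic_adjoin_iff.1
      (isAlgebraic_algebraMap (⟨ξ, h4⟩ : k⟮r⟯))) (G.alg z)
  have hrt : Transcendental k r := fun e => G.tr (h3 ▸ (isAlgebraic_algebraMap a).add
    (div_eq_mul_inv (_ : Ω) _ ▸ (isAlgebraic_algebraMap s).mul (isAlgebraic_one.sub (e.pow n)).inv))
  have h5 : ξ - algebraMap k Ω a ∉ V.nonunits := fun e => hs (by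
    have := (nu_aeval hV.1 hV.2 (Polynomial.X - C a)).2.1 (by simpa using e)
    rwa [eval_sub, eval_X, eval_C, add_sub_cancel_left] at this)
  obtain ⟨u, hu, hc, hur⟩ := ex0 hrt hra (V := V) ⟨hV.1, by
    rw [map_zero, sub_zero]
    exact nu_pow (n := n) (by rw [hr, div_eq_mul_inv]; exact nu_mul hV.2 (nu_inv h5).2)⟩
    (hζ.ne_zero hn.ne')
  refine ⟨u, V, hV, hu, hc, ?_, fun y hy => ?_⟩
  · conv_lhs => rw [h3]
    rw [map_add, map_div₀, map_sub, map_one, map_pow, hc, hc, hur, mul_pow, ← map_pow,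
      hζ.pow_eq_one, map_one, one_mul, ← h3]
  · have r0 : r ≠ 0 := fun e => hrt (e ▸ isAlgebraic_zero)
    have : NeZero n := ⟨hn.ne'⟩
    obtain ⟨j, -, hj⟩ := (hζ.map_of_injective (algebraMap k Ω).injective).eq_pow_of_pow_eq_one
      (ξ := y / r) (by
        rw [div_pow, div_eq_one_iff_eq (pow_ne_zero n r0)]
        exact mul_right_cancel₀ (hne a) (by linear_combination hy + h1))
    rw [(eq_div_iff r0).1 hj |>.symm, map_mul, map_pow, hc, hur]
    ring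

end fld

/-- The norm of a rotation kills the functions modulo constants. -/
lemma sum0 {ι : Type} {M N : Type 1} [AddCommGroup M] [AddCommGroup N] (θ : (ι → M) →+ N)
    (hs : Function.Surjective θ) (h0 : ∀ f, (∃ m, ∀ y, f y = m) → θ f = 0) (σ : ι → ι) (n : ℕ)
    (hn : ∀ y, σ^[n] y = y) (y₀ : ι) (ht : ∀ y, ∃ j, y = σ^[j] y₀) (u : N → N)
    (hu : ∀ f, θ (f ∘ σ) = u (θ f)) (x : N) : ∑ i ∈ Finset.range n, u^[i] x = 0 := by
  obtain ⟨f, rfl⟩ := hs x
  have h1 : ∀ i, u^[i] (θ f) = θ (f ∘ σ^[i]) := fun i => by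
    induction i with
    | zero => rfl
    | succ i ih => rw [Function.iterate_succ_apply', ih, ← hu]; rfl
  have h2 : ∀ y, ∑ i ∈ Finset.range n, f (σ^[i] (σ y)) = ∑ i ∈ Finset.range n, f (σ^[i] y) :=
    fun y => add_right_cancel (b := f y) (((Finset.sum_range_succ' (fun i => f (σ^[i] y)) n).symm.trans
      (Finset.sum_range_succ _ n)).trans (by rw [hn]))
  simp only [h1, ← map_sum]
  refine h0 _ ⟨∑ i ∈ Finset.range n, f (σ^[i] y₀), fun y => ?_⟩
  obtain ⟨j, rfl⟩ := ht y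
  rw [Finset.sum_apply]
  induction j with
  | zero => rfl
  | succ j ih => rw [Function.iterate_succ_apply', ← ih]; exact h2 _

/-- A torsion group without characters is zero. -/
lemma zero_of {l : ℕ} [Fact l.Prime] {M : Type 1} [AddCommGroup M]
    (ht : ∀ m : M, ∃ n : ℕ, l ^ n • m = 0) (h : ∀ f : M →+ QZ l, f = 0) (y : M) : y = 0 := by
  obtain ⟨n, hn⟩ := ht y
  obtain ⟨c, -, hc⟩ := (Nat.dvd_prime_pow Fact.out).1 (addOrderOf_dvd_of_nsmul_eq_zero hn)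
  let q : QZ l := QuotientAddGroup.mk ((l : ℚ_[l]) ^ c)⁻¹
  have hq : ∀ a : ℤ, a • q = 0 ↔ a • y = 0 := fun a => by
    rw [← QuotientAddGroup.mk_zsmul, QZ.mk_zero, zsmul_eq_mul, norm_mul, norm_inv,
      Padic.norm_p_pow, ← div_eq_mul_inv, div_le_one (zpow_pos (zero_lt_one.trans l_gt) _),
      Padic.norm_int_le_pow_iff_dvd, ← addOrderOf_dvd_iff_zsmul_eq_zero, hc, Nat.cast_pow]
  let φ := (zmultiplesHom M y).rangeRestrict
  have hφ := (zmultiplesHom M y).rangeRestrict_surjective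
  obtain ⟨g, hg⟩ := QZ.extend (AddSubgroup.subtype _) Subtype.val_injective
    (φ.liftOfSurjective hφ ⟨zmultiplesHom _ q, fun a ha => (hq a).2 (congrArg Subtype.val ha)⟩)
  exact (one_zsmul y).symm.trans ((hq 1).1 (((φ.liftOfRightInverse_comp_apply _ _ _ 1).symm.trans
    (DFunLike.congr_fun hg _).symm).trans (DFunLike.congr_fun (h g) _)))

/-- Inertia at a point where `h ≠ 0` acts trivially. -/
lemma triv (sp : SPEC_s) {l : ℕ} {A : Type} [CommRing A] {L : PL (Spec (.of A))} {h : A[X]}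
    {F : Sh (Scheme.etaleTopology.over L.P)} (hF : Gd l L h F) {k Ω : Type} [Field k] [Field Ω] [Algebra k Ω] {ξ : Ω}
    (G : Gen k ξ) (hl : (l : k) ≠ 0) (τ : A →+* k) {x : k} {V : ValuationSubring Ω} (hV : At ξ x V)
    (hx : h.eval₂ τ x ≠ 0) (g : Ω ≃+* Ω) (hg : Stab g V)
    (hc : ∀ c, g (algebraMap k Ω c) = algebraMap k Ω c)
    (e : spc (g : Ω →+* Ω) ≫ px L ((algebraMap k Ω).comp τ) ξ = px L ((algebraMap k Ω).comp τ) ξ)
    (m) : pa F.obj (g : Ω →+* Ω) e m = m := by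
  obtain ⟨h1, h2, τV, red, h3, h4, h5, H⟩ := sp l k Ω ξ x V G hV hl A[X] (eval₂RingHom τ x)
    (eval₂RingHom ((algebraMap k Ω).comp τ) ξ) fun p => by
      have := (nu_aeval hV.1 hV.2 (p.map τ - C (p.eval₂ τ x))).2.2 (by
        rw [eval_sub, eval_C, Polynomial.eval_map, sub_self])
      rwa [map_sub, aeval_C, aeval_def, eval₂_map] at this
  have e' : spc (algebraMap V Ω) ≫ spc τV ≫ L.c₁ = px L ((algebraMap k Ω).comp τ) ξ := by
    rw [← Spec.map_comp_assoc, ← CommRingCat.ofHom_comp, h4, ← L.pnt_pt1]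
  obtain ⟨c, -, hs, hcg⟩ := H _ L.c₁ F.obj _ _ _ e' hF.1.1.2 rfl rfl
  have hu : IsUnit (τV h) := IsUnit.of_map red _ (IsUnit.mk0 _ fun e0 =>
    hx ((RingHom.congr_fun h5 h).symm.trans e0))
  obtain ⟨y, rfl⟩ := hs (hF.2.2.1 V Ω _ _ e' ⟨Over.homMk (spc (IsLocalization.Away.lift h hu)) (by
    change _ ≫ L.u h = _ ≫ _
    rw [L.u_eq, ← Spec.map_comp_assoc, ← CommRingCat.ofHom_comp, IsLocalization.Away.lift_comp])⟩
    h1 h2).2 m
  have e1 : spc (RingHom.id k) ≫ spc (eval₂RingHom τ x) ≫ L.c₁ = spc (eval₂RingHom τ x) ≫ L.c₁ := by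
    change Spec.map (𝟙 _) ≫ _ = _
    rw [Spec.map_id, Category.id_comp]
  rw [← hcg g e (RingHom.id k) e1 hg hc]
  have : sph (RingHom.id k) e1 = 𝟙 _ := Over.OverMorphism.ext (Spec.map_id _)
  refine congrArg c ?_
  change F.obj.map (sph _ _).op y = y
  rw [this]; exact res_id _ y

lemma gen {K B Ω : Type} [Field K] (p : K[X]) (hp : p ≠ 0) [CommRing B] [Algebra K[X] B]
    [IsLocalization.Away p B] [Field Ω] [IsAlgClosed K] [IsAlgClosed Ω] [Algebra B Ω]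
    [FaithfulSMul B Ω] [Algebra.IsAlgebraic B Ω] [Algebra K Ω] {ξ : Ω}
    (h : ∀ f, algebraMap B Ω (algebraMap K[X] B f) = aeval ξ f) : Gen K ξ := by
  have h0 := powers_le_nonZeroDivisors_of_noZeroDivisors hp
  have h1 := IsLocalization.injective B h0
  have := IsLocalization.isDomain_of_le_nonZeroDivisors B h0
  have ht : Transcendental K ξ := transcendental_iff_injective.2 fun f g e =>
    h1 (FaithfulSMul.algebraMap_injective B Ω (by rw [h, h]; exact e))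
  let _ : Algebra K[X] Ω := ((algebraMap B Ω).comp (algebraMap K[X] B)).toAlgebra
  have : IsScalarTower K[X] B Ω := IsScalarTower.of_algebraMap_eq fun _ => rfl
  have : Algebra.IsAlgebraic K[X] B := IsLocalization.isAlgebraic B (Submonoid.powers p)
  have := Algebra.IsAlgebraic.trans K[X] B Ω
  exact ⟨inferInstance, inferInstance, ht, fun z => (this.isAlgebraic z).ringHom_of_comp_eq
    (algEquivOfTranscendental K ξ ht : K[X] →+* Algebra.adjoin K {ξ}) (RingHom.id Ω)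
    (AlgEquiv.injective _) (RingHom.ext fun f => Eq.trans (by simp) (h f).symm)⟩

end H2V

open H2V in
theorem h2v (d2 : DU2_s) (gc : GdCof_s) (sp : SPEC_s) : H2V_s := by
  intro l n _ A R _ _ L h a β s L' E hE hn hnl hu ha F E' i _ hF hE' K _ _ τ hl hk hx
  have := τ.domain_nontrivial
  have hu' : IsUnit (hc h a β s).leadingCoeff := by
    rw [hc, leadingCoeff_mul_monic (monic_X_sub_C _), leadingCoeff_map_eq_of_isUnit_leadingCoeff _ hu]
    exact hu.map β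
  have hp : (hc h a β s).map τ ≠ 0 := fun e => (hu'.map τ).ne_zero (by
    rw [← leadingCoeff_map_eq_of_isUnit_leadingCoeff _ hu', e, leadingCoeff_zero])
  let B := Localization.Away ((hc h a β s).map τ)
  have : IsDomain B :=
    IsLocalization.isDomain_localization (powers_le_nonZeroDivisors_of_noZeroDivisors hp)
  obtain ⟨Ω, _, _, _, _, _⟩ : ∃ (Ω : Type) (_ : Field Ω) (_ : IsAlgClosed Ω) (_ : Algebra B Ω),
      FaithfulSMul B Ω ∧ Algebra.IsAlgebraic B Ω :=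
    have := IsLocalization.isAlgebraic (FractionRing B) (nonZeroDivisors B)
    ⟨AlgebraicClosure (FractionRing B), inferInstance, inferInstance, inferInstance,
      FaithfulSMul.trans B (FractionRing B) _, Algebra.IsAlgebraic.trans B (FractionRing B) _⟩
  let _ : Algebra K Ω := ((algebraMap B Ω).comp ((algebraMap K[X] B).comp C)).toAlgebra
  let ξ := algebraMap B Ω (algebraMap K[X] B X)
  have hξ : ∀ f, algebraMap B Ω (algebraMap K[X] B f) = aeval ξ f := fun f => RingHom.congr_fun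
    (Polynomial.ringHom_ext (f := (algebraMap B Ω).comp (algebraMap K[X] B))
      (g := (aeval ξ : K[X] →ₐ[K] Ω)) (fun c => (aeval_C ξ c).symm) (aeval_X ξ).symm) f
  have G := gen _ hp hξ
  have hs : τ s ≠ 0 := fun e => hx (by
    rw [map_add, e, add_zero, ← RingHom.comp_apply, eval₂_at_apply, ha, map_zero])
  have : NeZero (n : K) := ⟨hk⟩
  have : NeZero n := ⟨hn.ne_zero⟩
  obtain ⟨ζ, hζ⟩ := HasEnoughRootsOfUnity.exists_primitiveRoot K n
  obtain ⟨u, V, hV, hst, hc', huξ, hy⟩ := exu G hn.pos (τ (β a)) (τ s) hs hζ.inv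
  have hne : ∀ c : K, ξ - algebraMap K Ω c ≠ 0 := fun c e =>
    G.tr (sub_eq_zero.1 e ▸ isAlgebraic_algebraMap c)
  have hζ' := hζ.map_of_injective (algebraMap K Ω).injective
  have huf : ∀ f : K[X], u (aeval ξ f) = aeval ξ f := fun f => by
    induction f using Polynomial.induction_on' with
    | add a b ha hb => simp only [map_add, ha, hb]
    | monomial n c => rw [aeval_monomial, map_mul, map_pow, hc', huξ]
  have huB : (u : Ω →+* Ω).comp (algebraMap B Ω) = algebraMap B Ω :=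
    IsLocalization.ringHom_ext (Submonoid.powers ((hc h a β s).map τ)) (RingHom.ext fun f => by
      simp only [RingHom.comp_apply, hξ]; exact huf f)
  have e : spc (u : Ω →+* Ω) ≫ spc (algebraMap B Ω) ≫ uk L' τ B =
      spc (algebraMap B Ω) ≫ uk L' τ B := by
    rw [← Spec.map_comp_assoc, ← CommRingCat.ofHom_comp, huB]
  have e₀ : spc (u : Ω →+* Ω) ≫ px L ((algebraMap K Ω).comp (τ.comp β)) ξ =
      px L ((algebraMap K Ω).comp (τ.comp β)) ξ := by
    rw [L.comp_pnt, map_pt1, ← Spec.map_comp, ← CommRingCat.ofHom_comp, RingHom.coe_coe, huξ,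
      show (u : Ω →+* Ω).comp _ = (algebraMap K Ω).comp (τ.comp β) from RingHom.ext fun _ => hc' _]
  obtain ⟨θ, h1, h2, h3⟩ := hE.stk F Ω ((algebraMap K Ω).comp τ) ξ
    (px L ((algebraMap K Ω).comp (τ.comp β)) ξ) (spc (algebraMap B Ω) ≫ uk L' τ B) rfl
    (by rw [L'.comp_pnt, map_pt1, ← Spec.map_comp]; rfl)
    fun e => G.tr ⟨_, hp, by rw [aeval_def, eval₂_map, e]⟩
  let σ : Rt n (ξ - algebraMap K Ω (τ (β a))) (ξ - algebraMap K Ω (τ (β a)) - algebraMap K Ω (τ s)) →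
      Rt n _ _ := fun y => ⟨algebraMap K Ω ζ * y.1, by rw [mul_pow, hζ'.pow_eq_one, one_mul, y.2]⟩
  have hσ : ∀ j y, (σ^[j] y).1 = algebraMap K Ω ζ ^ j * y.1 := fun j y => by
    induction j with
    | zero => rw [pow_zero, one_mul]; rfl
    | succ j ih => rw [Function.iterate_succ_apply', pow_succ', mul_assoc, ← ih]
  obtain ⟨r, hr⟩ := IsAlgClosed.exists_pow_nat_eq ((ξ - algebraMap K Ω (τ (β a)) -
    algebraMap K Ω (τ s)) / (ξ - algebraMap K Ω (τ (β a)))) hn.pos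
  replace hr := (eq_div_iff (hne _)).1 hr
  have r0 : r ≠ 0 := fun e => hne (τ (β a) + τ s) (by
    rw [map_add, ← sub_sub, ← hr, e, zero_pow hn.ne_zero, zero_mul])
  have h4 := sum0 θ h1 (fun f => (h2 f).2) σ n
    (fun y => Subtype.ext (by rw [hσ, hζ'.pow_eq_one, one_mul])) ⟨r, hr⟩ (fun y => by
      obtain ⟨j, -, hj⟩ := hζ'.eq_pow_of_pow_eq_one (ξ := y.1 / r) (by
        rw [div_pow, div_eq_one_iff_eq (pow_ne_zero n r0)]
        exact mul_right_cancel₀ (hne _) (y.2.trans hr.symm))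
      exact ⟨j, Subtype.ext (by rw [hσ, hj, div_mul_cancel₀ _ r0])⟩)
    (pa (E.obj F).obj (u : Ω →+* Ω) e) fun f => h3 _ e₀ e _ _ fun y y' hy' => by
      rw [triv sp hF G hl (τ.comp β) hV (map_add τ _ _ ▸ hx) u hst hc']
      refine congrArg f (Subtype.ext ?_)
      change _ * y'.1 = _
      rw [hy', RingHom.coe_coe, hy _ y.2, map_inv₀,
        mul_inv_cancel_left₀ (hζ'.ne_zero hn.ne_zero)]
  have h5 : ∀ m, ∑ j ∈ Finset.range n, (pa E'.obj (u : Ω →+* Ω) e)^[j] m = 0 := fun m =>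
    (sec_exact (ShortComplex.exact_cokernel i) _).1 (by
      rw [map_zero, map_sum, ← h4 (i.hom.app _ m)]
      exact Finset.sum_congr rfl fun j _ => Function.Semiconj.iterate_right
        (f := i.hom.app _) (fun m => map_nat i.hom (sph _ e) m) j m)
  obtain ⟨d, h6, h7, -⟩ := d2 l R L' _ E' hu' hE' K B Ω τ hl
  refine zero_of ((gc l R L' _ E' hu' hE' K _ hl).2 2).1 fun f => h6 (AddMonoidHom.ext fun m => ?_)
  have h8 : ∀ j m, d f ((pa E'.obj (u : Ω →+* Ω) e)^[j] m) = d f m := fun j m => by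
    induction j with
    | zero => rfl
    | succ j ih =>
      rw [Function.iterate_succ_apply', ← ih]
      exact (h7 _).1 ⟨f, rfl⟩ { u with commutes' := RingHom.congr_fun huB } _
  have h9 : n • d f m = 0 := by
    have := congrArg (d f) (h5 m)
    rwa [map_sum, Finset.sum_congr rfl fun j _ => h8 j m, Finset.sum_const, Finset.card_range,
      map_zero] at this
  obtain ⟨c, hc⟩ := (d f m).toMul.2
  rw [map_zero, AddMonoidHom.zero_apply, ← AddMonoid.addOrderOf_eq_one_iff]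
  exact Nat.eq_one_of_dvd_coprimes (((Nat.coprime_primes hn Fact.out).2 hnl).pow_right c)
    (addOrderOf_dvd_of_nsmul_eq_zero h9) (addOrderOf_dvd_of_nsmul_eq_zero (Subtype.ext hc))

end Pool.Agent.MP_855f4c_ag.E.W

end

section

set_option backward.isDefEq.respectTransparency false
set_option linter.unusedSectionVars false

open CategoryTheory Limits Abelian Opposite AlgebraicGeometry Polynomial

namespace Pool.Agent.MP_855f4c_ag.E.W

open E3 E4 H7

namespace ZER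

variable {l : ℕ} [Fact l.Prime]

lemma mul_split (u : ℤ_[l]) (n : ℕ) : ∃ (a : ℕ) (b : ℤ_[l]), ∀ x : QZ l,
    QZ.mul l u x = a • x + l ^ n • QZ.mul l b x := by
  obtain ⟨b, hb⟩ := Ideal.mem_span_singleton'.1 (PadicInt.appr_spec n u)
  refine ⟨u.appr n, b, fun x => ?_⟩
  obtain ⟨x, rfl⟩ := QuotientAddGroup.mk_surjective x
  have h : (u : ℚ_[l]) = (u.appr n : ℚ_[l]) + (l : ℚ_[l]) ^ n * b := by
    have : u = (u.appr n : ℤ_[l]) + (l : ℤ_[l]) ^ n * b := by linear_combination -hb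
    conv_lhs => rw [this]
    push_cast; rfl
  rw [QZ.mul_mk, QZ.mul_mk, ← QuotientAddGroup.mk_nsmul, ← QuotientAddGroup.mk_nsmul,
    ← QuotientAddGroup.mk_add, h, nsmul_eq_mul, nsmul_eq_mul]
  congr 1
  push_cast; ring

lemma exists_int (x : ℚ_[l]) : ∃ (k : ℕ) (u : ℤ_[l]), (u : ℚ_[l]) = (l : ℚ_[l]) ^ k * x := by
  obtain ⟨n, hn⟩ := exists_pow_lt_of_lt_one (inv_pos.2 (by positivity : 0 < ‖x‖ + 1))
    (Padic.norm_p_lt_one (p := l))
  refine ⟨n, ⟨(l : ℚ_[l]) ^ n * x, ?_⟩, rfl⟩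
  rw [norm_mul, norm_pow]
  exact (mul_le_mul hn.le (le_add_of_nonneg_right zero_le_one) (norm_nonneg _)
    (by positivity)).trans (inv_mul_cancel₀ (by positivity)).le

lemma core {Z Z' H H' : Type 1} [AddCommGroup Z] [AddCommGroup Z'] [AddCommGroup H]
    [AddCommGroup H'] (e : Z →+ H →+ QZ l) (e' : Z' →+ H' →+ QZ l) (r : Z →+ Z') (i : Z' →+ Z)
    (he : Function.Surjective e) (hr : ∀ c, e c = 0 → e' (r c) = 0)
    (hi : ∀ c, e' c = 0 → e (i c) = 0) {N : ℕ} (hN : N ≠ 0) (hir : ∀ c, i (r c) = N • c)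
    (a : H →+ H) (a' : H' →+ H')
    (hc : ∀ c, ∃ c', e c' = (e c).comp a ∧ e' (r c') = (e' (r c)).comp a') (hH : Cof l H)
    (hH' : Cof l H') {j : ℚ_[l] →+* ℂ} {S : Set ℝ} (h : Ev j S a') : Ev j S a := by
  have hl : ∀ m : ℕ, (l : ℚ_[l]) ^ m ≠ 0 := fun m => pow_ne_zero _ l_ne
  have hm : ∀ (u : ℤ_[l]) (c : Z), ∃ c₁, e c₁ = (QZ.mul l u).comp (e c) ∧
      e' (r c₁) = (QZ.mul l u).comp (e' (r c)) := fun u c => by
    obtain ⟨c₁, h1⟩ := he ((QZ.mul l u).comp (e c))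
    refine ⟨c₁, h1, AddMonoidHom.ext fun x => ?_⟩
    obtain ⟨n, hn⟩ := hH'.1 x
    obtain ⟨s, b, hb⟩ := mul_split u n
    obtain ⟨c₂, h2⟩ := he ((QZ.mul l b).comp (e c))
    have h3 : e (c₁ - (s • c + l ^ n • c₂)) = 0 := AddMonoidHom.ext fun y => by
      rw [map_sub, map_add, map_nsmul, map_nsmul, h1, h2]
      exact sub_eq_zero.2 (hb _)
    have h4 := DFunLike.congr_fun (hr _ h3) x
    rw [map_sub, map_add, map_nsmul, map_nsmul, map_sub, map_add, map_nsmul, map_nsmul] at h4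
    have h5 : e' (r c₁) x = s • e' (r c) x + l ^ n • e' (r c₂) x := sub_eq_zero.1 h4
    rw [h5, AddMonoidHom.comp_apply, hb, ← map_nsmul (e' (r c₂)), ← map_nsmul (QZ.mul l b),
      ← map_nsmul (e' (r c)) (l ^ n), hn, map_zero, map_zero, map_zero]
  let W : Submodule ℚ_[l] (Module.Dual ℚ_[l] (V l H) × Module.Dual ℚ_[l] (V l H')) :=
    { carrier := {p | ∃ (m : ℕ) (c : Z), kap l H (e c) = (l : ℚ_[l]) ^ m • p.1 ∧
        kap l H' (e' (r c)) = (l : ℚ_[l]) ^ m • p.2}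
      zero_mem' := ⟨0, 0, by simp, by simp⟩
      add_mem' := by
        rintro p q ⟨m, c, h1, h2⟩ ⟨n, d, h3, h4⟩
        refine ⟨m + n, l ^ n • c + l ^ m • d, ?_, ?_⟩
        · simp only [map_add, map_nsmul, h1, h3, Prod.fst_add, ← Nat.cast_smul_eq_nsmul ℚ_[l],
            Nat.cast_pow, smul_smul, smul_add, pow_add, mul_comm]
        · simp only [map_add, map_nsmul, h2, h4, Prod.snd_add, ← Nat.cast_smul_eq_nsmul ℚ_[l],
            Nat.cast_pow, smul_smul, smul_add, pow_add, mul_comm]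
      smul_mem' := by
        rintro x p ⟨m, c, h1, h2⟩
        obtain ⟨k, u, hu⟩ := exists_int x
        obtain ⟨c₁, h3, h4⟩ := hm u c
        refine ⟨m + k, c₁, ?_, ?_⟩
        · rw [h3, kap_mul, h1, hu, Prod.smul_fst, smul_smul, smul_smul]
          congr 1; ring
        · rw [h4, kap_mul, h2, hu, Prod.smul_snd, smul_smul, smul_smul]
          congr 1; ring }
  have hW : ∀ p ∈ W, LinearMap.prodMap (Vm l a).dualMap (Vm l a').dualMap p ∈ W := by
    rintro p ⟨m, c, h1, h2⟩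
    obtain ⟨c', h3, h4⟩ := hc c
    refine ⟨m, c', ?_, ?_⟩
    · rw [h3, kap_comp, h1]; rfl
    · rw [h4, kap_comp, h2]; rfl
  have := hH.finiteDimensional
  refine EvL.of_dual (EvL.quo (a := (LinearMap.prodMap (Vm l a).dualMap
    (Vm l a').dualMap).restrict hW) (EvL.sub (EvL.dual h) ((LinearMap.snd _ _ _).comp W.subtype)
      ?_ rfl) ((LinearMap.fst _ _ _).comp W.subtype) (fun lam => ?_) rfl)
  · rw [injective_iff_map_eq_zero]
    rintro ⟨p, m, c, h1, h2⟩ h0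
    have h3 : p.2 = 0 := h0
    obtain ⟨d, hd⟩ := hH'.kap_ker
    have h4 : e' (r (l ^ d • c)) = 0 := by
      rw [map_nsmul, map_nsmul]
      exact hd _ (by rw [h2, h3, smul_zero])
    have h5 := congrArg (kap l H) (hi _ h4)
    rw [hir, map_nsmul, map_nsmul, map_nsmul, map_nsmul, h1, map_zero,
      ← Nat.cast_smul_eq_nsmul ℚ_[l], ← Nat.cast_smul_eq_nsmul ℚ_[l], Nat.cast_pow, smul_smul,
      smul_smul] at h5
    exact Subtype.ext (Prod.ext ((smul_eq_zero.1 h5).resolve_left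
      (mul_ne_zero (mul_ne_zero (Nat.cast_ne_zero.2 hN) (hl _)) (hl _))) h3)
  · obtain ⟨n, f, hf⟩ := hH.kap_surj lam
    obtain ⟨c, rfl⟩ := he f
    exact ⟨⟨(lam, ((l : ℚ_[l]) ^ n)⁻¹ • kap l H' (e' (r c))), n, c, hf,
      by rw [smul_smul, mul_inv_cancel₀ (hl n), one_smul]⟩, rfl⟩

section coc
variable {B Ω : Type} [CommRing B] [Field Ω] [Algebra B Ω] {M N : Type 1} [AddCommGroup M]
  [AddCommGroup N] {ρ : (Ω ≃ₐ[B] Ω) →* AddMonoid.End M} {ρ' : (Ω ≃ₐ[B] Ω) →* AddMonoid.End N}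

/-- Functoriality of cocycles. -/
def zmap (l : ℕ) [Fact l.Prime] (t : N →+ M) (ht : ∀ σ m, t (ρ' σ m) = ρ σ (t m)) :
    Z1 l ρ →+ Z1 l ρ' :=
  AddMonoidHom.mk' (fun c => ⟨fun σ => (c.1 σ).comp t, fun σ τ m => by
    simp only [AddMonoidHom.comp_apply, c.2.1 σ τ, ht], fun m => c.2.2 (t m)⟩) fun _ _ => rfl

lemma mu_inv (g : Ω ≃+* Ω) (x : MuI l Ω) :
    MuI.map l (g : Ω →+* Ω) (MuI.map l (g.symm : Ω →+* Ω) x) = x :=
  Additive.toMul.injective (Subtype.ext (Units.ext (g.apply_symm_apply _)))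

variable (γ : B ≃+* B) (g : Ω ≃+* Ω) (hg : ∀ b, g (algebraMap B Ω b) = algebraMap B Ω (γ b))

/-- Conjugation. -/
def cj (σ : Ω ≃ₐ[B] Ω) : Ω ≃ₐ[B] Ω :=
  { (g.symm.trans σ.toRingEquiv).trans g with
    commutes' := fun b => by
      obtain ⟨b, rfl⟩ := γ.surjective b
      change g (σ (g.symm _)) = _
      rw [← hg, g.symm_apply_apply, σ.commutes] }

lemma cj_apply (σ : Ω ≃ₐ[B] Ω) (z : Ω) : cj γ g hg σ z = g (σ (g.symm z)) := rfl

lemma cj_mul (σ τ : Ω ≃ₐ[B] Ω) : cj γ g hg (σ * τ) = cj γ g hg σ * cj γ g hg τ :=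
  AlgEquiv.ext fun z => by simp only [cj_apply, AlgEquiv.mul_apply, g.symm_apply_apply]

lemma cj_inv (σ : Ω ≃ₐ[B] Ω) : cj γ g hg σ⁻¹ = (cj γ g hg σ)⁻¹ := rfl

include hg in
lemma int_g (z : integralClosure B Ω) : g z ∈ integralClosure B Ω :=
  IsIntegral.map_of_comp_eq (γ : B →+* B) (g : Ω →+* Ω) (RingHom.ext fun b => (hg b).symm) z.2

include hg in
lemma hg_symm (b : B) : g.symm (algebraMap B Ω b) = algebraMap B Ω (γ.symm b) :=
  g.injective (by rw [g.apply_symm_apply, hg, γ.apply_symm_apply])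

lemma exists_tr (φ : M →+ M) (hφ : ∀ σ m, φ (ρ σ m) = ρ (cj γ g hg σ) (φ m)) (c : Z1 l ρ) :
    ∃ c' : Z1 l ρ, ∀ σ σ' : Ω ≃ₐ[B] Ω, (∀ z, σ' (g z) = g (σ z)) → ∀ m,
      MuI.map l (g : Ω →+* Ω) (c'.1 σ m) = c.1 σ' (φ m) := by
  classical
  refine ⟨⟨fun σ => ((MuI.map l (g.symm : Ω →+* Ω)).comp (c.1 (cj γ g hg σ))).comp φ,
    fun σ τ m => ?_, fun m => ⟨?_, fun a _ σ hσ => ?_⟩⟩, fun σ σ' h m => ?_⟩
  · simp only [AddMonoidHom.comp_apply, cj_mul, c.2.1, map_add, hφ, cj_inv]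
  · obtain ⟨E, hE⟩ := (c.2.2 (φ m)).1
    refine ⟨E.image g.symm, fun σ hσ => ?_⟩
    have := hE (cj γ g hg σ) fun e he => by
      rw [cj_apply, hσ _ (Finset.mem_image_of_mem _ he), g.apply_symm_apply]
    simp only [AddMonoidHom.comp_apply, this, map_zero]
  · let k : integralClosure B Ω →+* integralClosure B Ω :=
      ((g.symm : Ω →+* Ω).comp (integralClosure B Ω).val.toRingHom).codRestrict
        (integralClosure B Ω).toSubring (int_g γ.symm g.symm (hg_symm γ g hg))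
    have := (c.2.2 (φ m)).2 (a.comap k) (cj γ g hg σ) fun z w h => by
      rw [Ideal.mem_comap, map_sub]
      refine hσ _ _ ?_
      change g.symm w = σ (g.symm z)
      rw [h, cj_apply, g.symm_apply_apply]
    simp only [AddMonoidHom.comp_apply, this, map_zero]
  · have : σ' = cj γ g hg σ := AlgEquiv.ext fun z => by rw [cj_apply, ← h, g.apply_symm_apply]
    rw [this]
    exact mu_inv g _

end coc

section root
variable {ι : Type} [Fintype ι] [DecidableEq ι] {M N : Type 1} [AddCommGroup M] [AddCommGroup N]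

lemma exists_r (o : ι) (θ : (ι → M) →+ N) (hs : Function.Surjective θ)
    (hk : ∀ f, θ f = 0 → ∃ m, ∀ y, f y = m) :
    ∃ r : N →+ M, ∀ f, r (θ f) = Fintype.card ι • f o - ∑ y, f y := by
  let t : (ι → M) →+ M := AddMonoidHom.mk' (fun f => Fintype.card ι • f o - ∑ y, f y)
    fun f f' => by simp only [Pi.add_apply, smul_add, Finset.sum_add_distrib]; abel
  refine ⟨θ.liftOfSurjective hs ⟨t, fun f hf => ?_⟩, fun f =>
    θ.liftOfRightInverse_comp_apply _ _ _ f⟩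
  obtain ⟨m, hm⟩ := hk f hf
  change Fintype.card ι • f o - ∑ y, f y = 0
  simp [hm]

lemma r_i (o : ι) {θ : (ι → M) →+ N} {r : N →+ M}
    (hr : ∀ f, r (θ f) = Fintype.card ι • f o - ∑ y, f y) (m : M) :
    r (θ (Pi.single o m)) = (Fintype.card ι - 1) • m := by
  have : 1 ≤ Fintype.card ι := Fintype.card_pos_iff.2 ⟨o⟩
  rw [hr, Pi.single_eq_same, Finset.sum_pi_single', if_pos (Finset.mem_univ _),
    sub_eq_iff_eq_add, ← succ_nsmul, Nat.sub_add_cancel this]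

lemma equi (o : ι) {θ : (ι → M) →+ N} (hs : Function.Surjective θ) {r : N →+ M}
    (hr : ∀ f, r (θ f) = Fintype.card ι • f o - ∑ y, f y) (π : ι → ι) (hπ : Function.Injective π)
    (ho : π o = o) (φ : M →+ M) (φ' : N →+ N)
    (h : ∀ f f' : ι → M, (∀ y, f' (π y) = φ (f y)) → θ f' = φ' (θ f)) :
    (∀ m, θ (Pi.single o (φ m)) = φ' (θ (Pi.single o m))) ∧ ∀ z, r (φ' z) = φ (r z) := by
  refine ⟨fun m => h _ _ fun y => ?_, fun z => ?_⟩
  · by_cases hy : y = o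
    · rw [hy, ho, Pi.single_eq_same, Pi.single_eq_same]
    · rw [Pi.single_eq_of_ne hy, Pi.single_eq_of_ne (fun e => hy (hπ (e.trans ho.symm))), map_zero]
  · obtain ⟨f, rfl⟩ := hs z
    let p : ι ≃ ι := Equiv.ofBijective π (Finite.injective_iff_bijective.1 hπ)
    have h1 : ∀ y, (fun y => φ (f (p.symm y))) (π y) = φ (f y) := fun y =>
      congrArg (fun t => φ (f t)) (p.symm_apply_apply y)
    rw [← h f (fun y => φ (f (p.symm y))) h1, hr, hr, map_sub, map_nsmul, map_sum, ← h1 o, ho]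
    congr 1
    exact Equiv.sum_comp p.symm fun y => φ (f y)

end root

section geo
variable {A k B Ω : Type} [CommRing A] [Field k] [CommRing B] [Algebra k[X] B] [Field Ω]
  [Algebra B Ω] (L : PL (Spec (.of A))) (τ : A →+* k)

lemma ob_eq : (ob (uk L τ B) Ω).hom =
    px L ((algebraMap B Ω).comp ((algebraMap k[X] B).comp (C.comp τ)))
      (algebraMap B Ω (algebraMap k[X] B Polynomial.X)) :=
  (L.comp_pnt _ _ _).trans (congrArg₂ L.pnt (spc_comp _ _) (map_pt1 _ _))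

lemma fix_ob (g : Ω →+* Ω)
    (h1 : ∀ c, g (algebraMap B Ω (algebraMap k[X] B (C (τ c)))) =
      algebraMap B Ω (algebraMap k[X] B (C (τ c))))
    (h2 : g (algebraMap B Ω (algebraMap k[X] B Polynomial.X)) =
      algebraMap B Ω (algebraMap k[X] B Polynomial.X)) :
    spc g ≫ (ob (uk L τ B) Ω).hom = (ob (uk L τ B) Ω).hom := by
  rw [ob_eq]
  exact (L.comp_pnt _ _ _).trans (congrArg₂ L.pnt (spc_fix.2 h1) ((map_pt1 _ _).trans (by rw [h2])))

lemma gal_cj {Y : Scheme.{0}} (u : Spec (.of B) ⟶ Y) (P : PSh Y) (γ : B ≃+* B) (g : Ω ≃+* Ω)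
    (hg : ∀ b, g (algebraMap B Ω b) = algebraMap B Ω (γ b))
    (e : spc (g : Ω →+* Ω) ≫ (ob u Ω).hom = (ob u Ω).hom) (σ : Ω ≃ₐ[B] Ω) (m) :
    pa P (g : Ω →+* Ω) e (E4.gal u Ω P σ m) =
      E4.gal u Ω P (cj γ g hg σ) (pa P (g : Ω →+* Ω) e m) := by
  have : sph (g : Ω →+* Ω) e ≫ hm u (σ : Ω →ₐ[B] Ω) =
      hm u (cj γ g hg σ : Ω →ₐ[B] Ω) ≫ sph (g : Ω →+* Ω) e :=
    Over.OverMorphism.ext ((spc_comp _ _).trans ((congrArg spc (RingHom.ext fun z =>
      congrArg (fun t => g (σ t)) (g.symm_apply_apply z).symm)).trans (spc_comp _ _).symm))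
  exact (res_res P _ _ m).trans ((congrArg (fun t => P.map (Quiver.Hom.op t) m) this).trans
    (res_res P _ _ m).symm)

lemma gal_fix {Y : Scheme.{0}} (u : Spec (.of B) ⟶ Y) (σ : Ω ≃ₐ[B] Ω) :
    spc ((σ : Ω →ₐ[B] Ω) : Ω →+* Ω) ≫ (ob u Ω).hom = (ob u Ω).hom := Over.w (hm u (σ : Ω →ₐ[B] Ω))

end geo

lemma hc_lc {A R : Type} [CommRing A] [CommRing R] {h : A[X]} (a : A) (β : A →+* R) (s : R)
    (hu : IsUnit h.leadingCoeff) : IsUnit (hc h a β s).leadingCoeff := by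
  rw [hc, leadingCoeff_mul_monic (monic_X_sub_C _)]
  nontriviality R
  rw [leadingCoeff_map_of_leadingCoeff_ne_zero _ (hu.map β).ne_zero]
  exact hu.map β

lemma exists_BO {k : Type} [Field k] {p : k[X]} (h0 : p ≠ 0) (ψ : k →+* k)
    (hψ : Function.Bijective ψ) (hp : p.map ψ = p) :
    ∃ (B Ω : Type) (_ : CommRing B) (_ : Algebra k[X] B) (_ : IsLocalization.Away p B) (_ : Field Ω)
      (_ : IsAlgClosed Ω) (_ : Algebra B Ω) (_ : FaithfulSMul B Ω) (_ : Algebra.IsAlgebraic B Ω)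
      (γ : B ≃+* B) (g : Ω ≃+* Ω), (∀ b, g (algebraMap B Ω b) = algebraMap B Ω (γ b)) ∧
        ∀ q, γ (algebraMap k[X] B q) = algebraMap k[X] B (q.map ψ) := by
  let B := Localization.Away p
  have : IsDomain B :=
    IsLocalization.isDomain_localization (powers_le_nonZeroDivisors_of_noZeroDivisors h0)
  let Ω := AlgebraicClosure (FractionRing B)
  have h1 : FaithfulSMul B Ω := (faithfulSMul_iff_algebraMap_injective B Ω).2 (by
    rw [IsScalarTower.algebraMap_eq B (FractionRing B) Ω]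
    exact (algebraMap (FractionRing B) Ω).injective.comp (IsFractionRing.injective B _))
  have h2 : Algebra.IsAlgebraic B Ω :=
    (IsFractionRing.comap_isAlgebraic_iff (K := FractionRing B)).2 inferInstance
  have : IsAlgClosure B Ω := ⟨inferInstance, inferInstance⟩
  let γ : B ≃+* B := IsLocalization.ringEquivOfRingEquiv (M := .powers p) (T := .powers p) B B
    (Polynomial.mapEquiv (RingEquiv.ofBijective ψ hψ))
    (by rw [Submonoid.map_powers]; exact congrArg _ hp)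
  exact ⟨B, Ω, _, _, inferInstance, _, inferInstance, _, h1, h2, γ, IsAlgClosure.equivOfEquiv Ω Ω γ,
    IsAlgClosure.equivOfEquiv_algebraMap Ω Ω γ, fun q =>
      IsLocalization.ringEquivOfRingEquiv_eq _ q⟩

end ZER

open ZER in
theorem zer (d1 : DU1_s) (gc : GdCof_s) : ZER_s := by
  intro l n _ A R _ _ L h a β s L' E cv hn hu ha F hF k _ _ τ ψ e e' hl hnk hs hψ j S hev
  classical
  have hψτ := spc_fix.1 e'
  have h0 : h.map (τ.comp β) ≠ 0 := fun h0 => (hu.map (τ.comp β)).ne_zero (by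
    rw [leadingCoeff, ← coeff_map, h0, coeff_zero])
  have hcm : (hc h a β s).map τ = h.map (τ.comp β) * (Polynomial.X - C (τ (β a))) := by
    rw [hc, Polynomial.map_mul, map_map, Polynomial.map_sub, map_X, map_C, map_add, hs, add_zero]
  have hdv : Polynomial.X - C (τ (β a)) ∣ h.map (τ.comp β) := by
    rw [dvd_iff_isRoot, IsRoot, Polynomial.eval_map]
    exact (eval₂_at_apply (τ.comp β) a).trans (by rw [ha, map_zero])
  obtain ⟨B, Ω, _, _, _, _, _, _, _, _, γ, g, hg, hγ⟩ := exists_BO h0 ψ hψ (by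
    rw [map_map]
    exact congrArg h.map (RingHom.ext fun c => hψτ _))
  have hle : Submonoid.powers (h.map (τ.comp β)) ≤ nonZeroDivisors k[X] :=
    powers_le_nonZeroDivisors_of_noZeroDivisors h0
  have : IsLocalization.Away ((hc h a β s).map τ) B := by
    rw [hcm]
    exact IsLocalization.Away.mul_of_isUnit _ _
      (isUnit_of_dvd_unit (map_dvd _ hdv) (IsLocalization.Away.algebraMap_isUnit _))
  have hgc : ∀ c, g (algebraMap B Ω (algebraMap k[X] B (C c))) =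
      algebraMap B Ω (algebraMap k[X] B (C (ψ c))) := fun c => by rw [hg, hγ, map_C]
  have hgx : g (algebraMap B Ω (algebraMap k[X] B Polynomial.X)) =
      algebraMap B Ω (algebraMap k[X] B Polynomial.X) := by rw [hg, hγ, map_X]
  have e₀ := fix_ob (B := B) L (τ.comp β) (g : Ω →+* Ω) (fun c => (hgc _).trans (by
    rw [RingHom.comp_apply, hψτ])) hgx
  have e₁ := fix_ob (B := B) L' τ (g : Ω →+* Ω) (fun c => (hgc _).trans (by rw [hψτ])) hgx
  obtain ⟨d, hd1, hd2, hd3⟩ := d1 l A L h F hu hF k B Ω (τ.comp β) hl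
  obtain ⟨d', -, hd2', hd3'⟩ := d1 l R L' (hc h a β s) (E.obj F) (hc_lc a β s hu) (cv.gd F hF)
    k B Ω τ hl
  let ι : k[X] →+* Ω := (algebraMap B Ω).comp (algebraMap k[X] B)
  let τΩ : R →+* Ω := (algebraMap B Ω).comp ((algebraMap k[X] B).comp (C.comp τ))
  have hι : Function.Injective ι :=
    (FaithfulSMul.algebraMap_injective B Ω).comp (IsLocalization.injective B hle)
  have hne : (hc h a β s).eval₂ τΩ (ι Polynomial.X) ≠ 0 := by
    have h1 : (hc h a β s).eval₂ τΩ (ι Polynomial.X) = ι ((hc h a β s).map τ) := by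
      rw [← eval₂_C_X (p := (hc h a β s).map τ), hom_eval₂, eval₂_map]; rfl
    rw [h1, hcm, map_ne_zero_iff _ hι]
    exact mul_ne_zero h0 (X_sub_C_ne_zero _)
  obtain ⟨θ, hs1, hs2, hs3⟩ := cv.stk F Ω τΩ (ι Polynomial.X) _ _
    (ob_eq (B := B) (Ω := Ω) L (τ.comp β)) (ob_eq (B := B) (Ω := Ω) L' τ) hne
  have hc0 : ι Polynomial.X - τΩ (β a) ≠ 0 := by
    have : ι Polynomial.X - τΩ (β a) = ι (Polynomial.X - C (τ (β a))) := (map_sub ι _ _).symm
    rw [this, map_ne_zero_iff _ hι]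
    exact X_sub_C_ne_zero _
  have hs0 : τΩ s = 0 := by
    change ι (C (τ s)) = 0
    rw [hs, map_zero, map_zero]
  have hrt : ∀ y : Ω, y ^ n * (ι Polynomial.X - τΩ (β a)) = ι Polynomial.X - τΩ (β a) - τΩ s ↔
      y ^ n = 1 := fun y => by rw [hs0, sub_zero, mul_eq_right₀ hc0]
  let T := Rt n (ι Polynomial.X - τΩ (β a)) (ι Polynomial.X - τΩ (β a) - τΩ s)
  have : Finite T := Finite.of_injective (fun y : T => (⟨y.1, by
    rw [Multiset.mem_toFinset, mem_nthRoots (by omega)]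
    exact (hrt _).1 y.2⟩ : (nthRoots n (1 : Ω)).toFinset)) fun y y' hy =>
      Subtype.ext (Subtype.mk.inj hy)
  let _ : Fintype T := Fintype.ofFinite T
  let o : T := ⟨1, (hrt 1).2 (one_pow n)⟩
  have hcard : Fintype.card T - 1 ≠ 0 := by
    have : NeZero (n : Ω) := ⟨fun h0 => hnk ((ι.comp C).injective (by
      rw [map_natCast, map_zero, h0]))⟩
    obtain ⟨ζ, hζ⟩ := HasEnoughRootsOfUnity.exists_primitiveRoot Ω n
    have : 1 < Fintype.card T := Fintype.one_lt_card_iff.2 ⟨⟨ζ, (hrt ζ).2 hζ.pow_eq_one⟩, o,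
      fun h => hζ.ne_one hn (congrArg Subtype.val h)⟩
    omega
  obtain ⟨r, hr⟩ := exists_r o θ hs1 fun f => (hs2 f).1
  let i := θ.comp (AddMonoidHom.single (fun _ : T => sec F (ob (uk L (τ.comp β) B) Ω)) o)
  have hq : ∀ (t : Ω →+* Ω) (e₀ e₁), (∀ m, i (pa F.obj t e₀ m) = pa (E.obj F).obj t e₁ (i m)) ∧
      ∀ z, r (pa (E.obj F).obj t e₁ z) = pa F.obj t e₀ (r z) := fun t e₀ e₁ =>
    equi o hs1 hr (fun y => ⟨t y.1, (hrt _).2 (by rw [← map_pow, (hrt _).1 y.2, map_one])⟩)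
      (fun y y' hy => Subtype.ext (t.injective (congrArg Subtype.val hy)))
      (Subtype.ext (map_one t)) _ _ fun f f' hf => hs3 t e₀ e₁ f f' fun y y' hy =>
        (congrArg f' (Subtype.ext hy)).trans (hf y)
  have hi : ∀ σ m, i (E4.gal (uk L (τ.comp β) B) Ω F.obj σ m) =
      E4.gal (uk L' τ B) Ω (E.obj F).obj σ (i m) := fun σ =>
    (hq _ (gal_fix _ σ) (gal_fix _ σ)).1
  have hr' : ∀ σ m, r (E4.gal (uk L' τ B) Ω (E.obj F).obj σ m) =
      E4.gal (uk L (τ.comp β) B) Ω F.obj σ (r m) := fun σ =>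
    (hq _ (gal_fix _ σ) (gal_fix _ σ)).2
  refine core d d' (zmap l r hr') (zmap l i hi) hd1 (fun c hc => ?_) (fun c hc => ?_) hcard
    (fun c => ?_) _ _ (fun c => ?_) ((gc l A L h F hu hF k _ hl).2 1)
    ((gc l R L' _ _ (hc_lc a β s hu) (cv.gd F hF) k _ hl).2 1) hev
  · obtain ⟨b, hb⟩ := (hd2 c).1 hc
    exact (hd2' _).2 ⟨b.comp r, fun σ m => (hb σ (r m)).trans
      (congrArg (fun t => b t - b (r m)) (hr' σ⁻¹ m).symm)⟩
  · obtain ⟨b, hb⟩ := (hd2' c).1 hc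
    exact (hd2 _).2 ⟨b.comp i, fun σ m => (hb σ (i m)).trans
      (congrArg (fun t => b t - b (i m)) (hi σ⁻¹ m).symm)⟩
  · refine Subtype.ext (funext fun σ => AddMonoidHom.ext fun m => ?_)
    exact (congrArg (c.1 σ) (r_i o hr m)).trans (map_nsmul _ _ _)
  · obtain ⟨c', hc'⟩ := exists_tr γ g hg (pa F.obj (g : Ω →+* Ω) e₀) (gal_cj _ _ γ g hg e₀) c
    exact ⟨c', hd3 g e₀ ψ e hψ hgc c c' hc', hd3' g e₁ ψ e' hψ hgc _ _ fun σ σ' hσ m =>
      (hc' σ σ' hσ (r m)).trans (congrArg (c.1 σ') ((hq _ e₀ e₁).2 m).symm)⟩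

end Pool.Agent.MP_855f4c_ag.E.W

end

section

set_option backward.isDefEq.respectTransparency false

open CategoryTheory Limits Abelian Opposite AlgebraicGeometry Polynomial

namespace Pool.Agent.MP_855f4c_ag.E.W

open E3 E4 H7

namespace FORM

section alg
variable {l : ℕ} [Fact l.Prime] {M N : Type 1} [AddCommGroup M] [AddCommGroup N]

lemma tr_perm {Y : Type} [Finite Y] (h : Cof l M) (φ : M →+ M) (σ : Y → Y)
    {G : (Y → M) →+ (Y → M)} (hG : ∀ f y, G f y = φ (f (σ y))) :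
    tr l G = (Nat.card {y // σ y = y} : ℚ_[l]) * tr l φ := by
  classical
  have := Fintype.ofFinite Y
  have := h.finiteDimensional
  have e : (Vpi l fun _ : Y => M).conj (Vm l G) =
      ∑ i, LinearMap.single ℚ_[l] (fun _ : Y => V l M) i ∘ₗ (Vm l φ ∘ₗ LinearMap.proj (σ i)) := by
    refine LinearMap.ext fun v => funext fun i => ?_
    obtain ⟨w, rfl⟩ := (Vpi l fun _ : Y => M).surjective v
    rw [LinearEquiv.conj_apply_apply, LinearEquiv.symm_apply_apply, LinearMap.sum_apply,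
      Finset.sum_apply, Finset.sum_eq_single i (fun b _ hb => Pi.single_eq_of_ne hb.symm _)
        fun hi => (hi (Finset.mem_univ i)).elim]
    rw [LinearMap.comp_apply, LinearMap.single_apply, Pi.single_eq_same]
    exact V.ext fun x => hG _ i
  have e2 : ∀ i : Y, LinearMap.trace ℚ_[l] _ (LinearMap.single ℚ_[l] (fun _ : Y => V l M) i ∘ₗ
      (Vm l φ ∘ₗ LinearMap.proj (σ i))) = if σ i = i then tr l φ else 0 := fun i => by
    rw [LinearMap.trace_comp_comm']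
    split_ifs with hi
    · rw [tr]
      congr 1
      refine LinearMap.ext fun v => ?_
      simp [hi]
    · rw [← map_zero (LinearMap.trace ℚ_[l] (V l M))]
      congr 1
      refine LinearMap.ext fun v => ?_
      simp [Pi.single_eq_of_ne hi]
  rw [tr, ← LinearMap.trace_conj' _ (Vpi l fun _ : Y => M), e, map_sum,
    Finset.sum_congr rfl fun i _ => e2 i, ← Finset.sum_filter, Finset.sum_const, nsmul_eq_mul,
    Nat.card_eq_fintype_card, Fintype.card_subtype]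

lemma tr_conv {Y : Type} [Finite Y] [Nonempty Y] (h : Cof l M) (φ : M →+ M) (σ : Y → Y)
    (θ : (Y → M) →+ N) (hs : Function.Surjective θ) (hk : ∀ f, θ f = 0 ↔ ∃ m, ∀ y, f y = m)
    (Φ : N →+ N) (hΦ : ∀ f, θ (fun y => φ (f (σ y))) = Φ (θ f)) :
    tr l Φ = ((Nat.card {y // σ y = y} : ℚ_[l]) - 1) * tr l φ := by
  let G : (Y → M) →+ (Y → M) :=
    AddMonoidHom.mk' (fun f y => φ (f (σ y))) fun f g => funext fun y => map_add φ _ _
  have h1 := tr_ses (cof_pi fun _ : Y => h) (a := φ) (b := G) (d := Φ)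
    (i := Pi.constAddMonoidHom Y M) (p := θ)
    (fun a b e => congrFun e (Classical.arbitrary Y))
    (fun f => (hk f).trans ⟨fun ⟨m, hm⟩ => ⟨m, funext fun y => (hm y).symm⟩,
      fun ⟨m, hm⟩ => ⟨m, fun y => (congrFun hm y).symm⟩⟩) hs (fun _ => rfl) fun f => (hΦ f).symm
  rw [tr_perm h φ σ (G := G) fun _ _ => rfl] at h1
  linear_combination -h1

lemma tr_le (h : Cof l M) {j : ℚ_[l] →+* ℂ} {B : ℝ} (hB : 0 ≤ B) {φ : M →+ M}
    (hφ : Ev j (Set.Iic B) φ) :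
    ‖j (tr l φ)‖ ^ 2 ≤ (Module.finrank ℚ_[l] (V l M) : ℝ) ^ 2 * B := by
  classical
  have := h.finiteDimensional
  have h1 := h.ev_iff.1 hφ
  let b := Module.finBasis ℚ_[l] (V l M)
  let A := (LinearMap.toMatrix b b (Vm l φ)).map j
  have h2 : j (tr l φ) = A.charpoly.roots.sum := by
    rw [← Matrix.trace_eq_sum_roots_charpoly, tr, LinearMap.trace_eq_matrix_trace _ b]
    exact AddMonoidHom.map_trace j.toAddMonoidHom _
  have h3 : A.charpoly = (Vm l φ).charpoly.map j := by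
    rw [Matrix.charpoly_map, LinearMap.charpoly_toMatrix]
  have h4 : ‖A.charpoly.roots.sum‖ ≤ (Module.finrank ℚ_[l] (V l M) : ℝ) * √B := by
    refine (norm_multiset_sum_le _).trans ((Multiset.sum_le_card_nsmul _ (√B) ?_).trans ?_)
    · intro x hx
      obtain ⟨z, hz, rfl⟩ := Multiset.mem_map.1 hx
      exact Real.le_sqrt_of_sq_le (h1 z (h3 ▸ isRoot_of_mem_roots hz))
    · rw [Multiset.card_map, nsmul_eq_mul]
      refine mul_le_mul_of_nonneg_right (Nat.cast_le.2 ((card_roots' _).trans ?_)) (Real.sqrt_nonneg _)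
      rw [Matrix.charpoly_natDegree_eq_dim, Fintype.card_fin]
  rw [h2]
  refine (pow_le_pow_left₀ (norm_nonneg _) h4 2).trans ?_
  rw [mul_pow, Real.sq_sqrt hB]

end alg

section geo
variable {A k : Type} [CommRing A] [Field k] {l Q : ℕ} {ψ : k →+* k}

lemma fix_iff {X : Scheme.{0}} {t : Spec (.of k) ⟶ X} (h : Fr l t Q ψ) (y : k) :
    ψ y = y ↔ y ^ Q = y :=
  ⟨fun e => by conv_lhs => rw [← e]
               exact h.pow y, fun e => by
    have h1 := h.pow y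
    rwa [← map_pow, e] at h1⟩

lemma fix_tau {τ : A →+* k} (h : spc ψ ≫ spc τ = spc τ) (a : A) : ψ (τ a) = τ a := by
  rw [← Spec.map_comp] at h
  exact RingHom.congr_fun (congrArg CommRingCat.Hom.hom (Spec.map_injective h)) a

lemma fix_spc {τ : A →+* k} (h : ∀ a, ψ (τ a) = τ a) : spc ψ ≫ spc τ = spc τ := by
  rw [← Spec.map_comp]
  exact congrArg Spec.map (CommRingCat.hom_ext (RingHom.ext h))

lemma px_fix (L : PL (Spec (.of A))) {τ : A →+* k} (h : spc ψ ≫ spc τ = spc τ) (x : k) :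
    spc ψ ≫ px L τ x = px L τ x ↔ ψ x = x := by
  rw [PL.comp_pnt, PL.pnt_inj, map_pt1, pt1_inj]
  exact and_iff_right h

lemma spc_u (L : PL (Spec (.of A))) (h : A[X]) {K : Type} [CommRing K] (τ : A →+* K) (x : K)
    (φ : Localization.Away h →+* K) (hφ : ∀ p, φ (algebraMap A[X] _ p) = p.eval₂ τ x) :
    spc φ ≫ L.u h = px L τ x := by
  rw [PL.u, PL.comp_pnt, map_pt1, hφ, eval₂_X, ← Spec.map_comp]
  congr 2
  exact CommRingCat.hom_ext (RingHom.ext fun a => (hφ _).trans (eval₂_C _ _))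

lemma ex_gen (k : Type) [Field k] [IsAlgClosed k] :
    ∃ (Ω : Type) (_ : Field Ω) (_ : Algebra k Ω) (ξ : Ω), Gen k ξ := by
  let Ω := AlgebraicClosure (RatFunc k)
  let f : k[X] →ₐ[k] Ω := IsScalarTower.toAlgHom k k[X] Ω
  have hf : Function.Injective f := (algebraMap (RatFunc k) Ω).injective.comp
    (IsFractionRing.injective k[X] (RatFunc k))
  have hX : ∀ p : k[X], aeval (f X) p = f p := fun p => by rw [aeval_algHom_apply, aeval_X_left_apply]
  refine ⟨Ω, inferInstance, inferInstance, f X, ‹_›, inferInstance, ?_, fun z => ?_⟩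
  · rintro ⟨p, hp, h0⟩
    exact hp (hf ((hX p).symm.trans (h0.trans (map_zero f).symm)))
  · have h1 : IsAlgebraic k[X] z :=
      (IsFractionRing.isAlgebraic_iff k[X] (RatFunc k) Ω).2 (Algebra.IsAlgebraic.isAlgebraic z)
    obtain ⟨P, hP, h0⟩ := h1
    let g : k[X] →+* Algebra.adjoin k {f X} := (f : k[X] →+* Ω).codRestrict _ fun p => by
      rw [Algebra.adjoin_singleton_eq_range_aeval]
      exact ⟨p, hX p⟩
    refine ⟨P.map g, (Polynomial.map_ne_zero_iff fun a b e => hf (congrArg Subtype.val e)).2 hP, ?_⟩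
    rw [aeval_def, eval₂_map]
    exact h0

variable {Ω : Type} [Field Ω] [Algebra k Ω] {V : ValuationSubring Ω} {ξ : Ω} {x : k}

lemma nu_mul' (hV : At ξ x V) {a b : Ω} {c d : k} (h1 : a - algebraMap k Ω c ∈ V.nonunits)
    (h2 : b - algebraMap k Ω d ∈ V.nonunits) : a * b - algebraMap k Ω (c * d) ∈ V.nonunits := by
  have hb : b ∈ V := by simpa using V.add_mem _ _ (V.nonunits_le h2) (hV.1 d)
  convert nu_add (nu_mul h1 hb) (nu_mul h2 (hV.1 c)) using 1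
  rw [map_mul]; ring

lemma nu_poly (hV : At ξ x V) (τ : A →+* k) (p : A[X]) :
    p.eval₂ ((algebraMap k Ω).comp τ) ξ - algebraMap k Ω (p.eval₂ τ x) ∈ V.nonunits := by
  induction p using Polynomial.induction_on with
  | C a => simp
  | add p q hp hq =>
    convert nu_add hp hq using 1
    rw [eval₂_add, eval₂_add, map_add]; ring
  | monomial n a h =>
    rw [pow_succ, ← mul_assoc, eval₂_mul_X, eval₂_mul_X]
    exact nu_mul' hV h hV.2

lemma nu_cancel (hV : At ξ x V) {a u : Ω} {c d : k} (hd : d ≠ 0)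
    (h1 : u - algebraMap k Ω d ∈ V.nonunits)
    (h2 : a * u - algebraMap k Ω (c * d) ∈ V.nonunits) : a - algebraMap k Ω c ∈ V.nonunits := by
  have hu : u ∉ V.nonunits := fun h =>
    nu_not ((_root_.map_ne_zero _).2 hd) (map_inv₀ (algebraMap k Ω) d ▸ hV.1 d⁻¹)
      (by simpa using nu_sub h h1)
  obtain ⟨h0, hi⟩ := nu_inv hu
  convert nu_mul (nu_sub h2 (nu_mul h1 (hV.1 c))) hi using 1
  rw [map_mul]; field_simp; ring

end geo

end FORM

open FORM

theorem form (tf : TFP_s) (h2 : H2V_s) : FORM_s := by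
  intro l n _ A R _ _ L h a β s L' E hE hn hnl hlc ha F hF k _ _ τ Q ψ hψ hnk hs S hS
  have := τ.domain_nontrivial
  have hlc' : IsUnit (hc h a β s).leadingCoeff := by
    rw [hc, leadingCoeff_mul_monic (monic_X_sub_C _),
      leadingCoeff_map_of_leadingCoeff_ne_zero β (hlc.map β).ne_zero]
    exact hlc.map β
  have ha' : (hc h a β s).eval (β a) = 0 := by
    rw [hc, eval_mul, Polynomial.eval_map, eval₂_hom, ha, map_zero, zero_mul]
  have h1 := tf l R L' _ (β a) _ hlc' ha' (hE.gd F hF) k τ Q ψ hψ S hS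
  have h3 : trP l (HB L'.π (E.obj F) 2) ψ (spc τ) = 0 := by
    rw [trP, dif_pos hψ.fix]
    exact tr_of_bdd 0 (fun m => (one_smul _ m).trans
      (h2 l n A R L h a β s L' E hE hn hnl hlc ha F _ (𝟙 _) hF (hE.gd F hF) k τ hψ.ne hnk hs m)) _
  rw [h3, zero_sub] at h1
  rw [← neg_eq_iff_eq_neg, ← h1]
  refine Finset.sum_congr rfl fun x hx => ?_
  obtain ⟨hx0, hxQ⟩ := (hS x).1 hx
  have hτ := fix_tau hψ.fix
  have hxψ := (fix_iff hψ x).2 hxQ
  have e : spc ψ ≫ px L' τ x = px L' τ x := (px_fix L' hψ.fix x).2 hxψ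
  have e₀ : spc ψ ≫ px L (τ.comp β) x = px L (τ.comp β) x :=
    (px_fix L (fix_spc fun b => hτ (β b)) x).2 hxψ
  obtain ⟨θ, hθ, hk, hc'⟩ := hE.stk F k τ x _ _ rfl rfl hx0
  have hc0 : x - τ (β a) ≠ 0 := fun h0 => hx0 (by
    rw [hc, eval₂_mul, eval₂_map, sub_eq_zero.1 h0]
    have : h.eval₂ (τ.comp β) (τ (β a)) = 0 :=
      (eval₂_hom (τ.comp β) a).trans (by rw [ha, map_zero])
    rw [this, zero_mul])
  have hfin : Finite (Rt n (x - τ (β a)) (x - τ (β a) - τ s)) := by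
    refine ((nthRoots n ((x - τ (β a) - τ s) / (x - τ (β a)))).finite_toSet.subset
      fun y hy => ?_ : Set.Finite {y : k | y ^ n * (x - τ (β a)) = x - τ (β a) - τ s})
    exact (mem_nthRoots hn.pos).2 (eq_div_of_mul_eq hc0 hy)
  have hne : Nonempty (Rt n (x - τ (β a)) (x - τ (β a) - τ s)) := by
    obtain ⟨y, hy⟩ := IsAlgClosed.exists_pow_nat_eq ((x - τ (β a) - τ s) / (x - τ (β a))) hn.pos
    exact ⟨y, by rw [hy, div_mul_cancel₀ _ hc0]⟩
  let π₀ : Rt n (x - τ (β a)) (x - τ (β a) - τ s) → Rt n (x - τ (β a)) (x - τ (β a) - τ s) :=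
    fun y => ⟨ψ y.1, by
      have := congrArg ψ y.2
      simpa only [map_mul, map_pow, map_sub, hxψ, hτ] using this⟩
  let π := Equiv.ofBijective π₀ (Finite.injective_iff_bijective.1 fun y y' e =>
    Subtype.ext (ψ.injective (congrArg Subtype.val e)))
  rw [trP, dif_pos e, trP, dif_pos e₀, tr_conv (hF.2.1 k _ hψ.ne) (pa F.obj ψ e₀) π.symm θ hθ hk _
    fun f => hc' ψ e₀ e f _ fun y y' hy => by
      rw [π.symm_apply_eq.2 (Subtype.ext hy : y' = π y)]]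
  congr 3
  refine Nat.card_congr ⟨fun y => ⟨y.1.1, y.1.2, (fix_iff hψ _).1 ?_⟩,
    fun y => ⟨⟨y.1, y.2.1⟩, π.symm_apply_eq.2 (Subtype.ext ((fix_iff hψ _).2 y.2.2).symm)⟩,
    fun _ => rfl, fun _ => rfl⟩
  exact (congrArg Subtype.val (π.symm_apply_eq.1 y.2)).symm

theorem tf (t : TFP_s) : TF_s := by
  intro l _ A _ L h a F hlc ha hF k _ _ t' Q ψ hψ
  classical
  obtain ⟨φ, rfl⟩ := Spec.map_surjective t'
  obtain ⟨τ, rfl⟩ : ∃ τ : A →+* k, φ = CommRingCat.ofHom τ := ⟨φ.hom, rfl⟩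
  have hfin : Set.Finite {x : k | h.eval₂ τ x ≠ 0 ∧ x ^ Q = x} := by
    refine ((X ^ Q - X : k[X]).roots.finite_toSet).subset fun x hx => ?_
    refine (mem_roots (FiniteField.X_pow_card_sub_X_ne_zero k hψ.lt)).2 ?_
    simpa [sub_eq_zero] using hx.2
  have h1 := t l A L h a F hlc ha hF k τ Q ψ hψ hfin.toFinset fun x => hfin.mem_toFinset
  rw [trP, dif_pos hψ.fix, trP, dif_pos hψ.fix] at h1
  refine Eq.trans ?_ h1
  have h2 : ∀ x : {x : Spec (.of k) ⟶ L.P // x ≫ L.π = spc τ ∧ spc ψ ≫ x = x},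
      tr l (rsec (sph ψ x.2.2) F) = trP l F.obj ψ x.1 := fun x => by
    rw [trP, dif_pos x.2.2]
  rw [finsum_congr h2, ← Finset.sum_image (g := px L τ) (f := trP l F.obj ψ) fun x _ y _ e =>
      pt1_inj.1 (L.pnt_inj.1 e).2]
  refine (finsum_set_coe_eq_finsum_mem (f := trP l F.obj ψ)
    {x | x ≫ L.π = spc τ ∧ spc ψ ≫ x = x}).trans (finsum_mem_eq_sum_of_inter_support_eq _
      (Set.ext fun z => and_congr_left fun hz => ?_))
  rw [Finset.mem_coe, Finset.mem_image]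
  constructor
  · rintro ⟨hz1, hz2⟩
    have hv : ¬ ∀ y, z y ∉ Set.range (L.u h) := fun hv => hz (by
      rw [trP, dif_pos hz2]
      exact tr_of_bdd 0 (fun m => (one_smul _ m).trans (hF.2.2.2 k z hψ.ne hv m)) _)
    rcases L.pnt_field z with ⟨x, hx⟩ | hx <;> rw [hz1] at hx
    · refine ⟨x, hfin.mem_toFinset.2 ⟨fun h0 => hv fun y hy => ?_, ?_⟩, hx.symm⟩
      · rw [hx, L.pt1_mem_u, h0] at hy
        exact hy (zero_mem _)
      · rw [hx] at hz2
        exact (fix_iff hψ x).1 ((px_fix L hψ.fix x).1 hz2)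
    · exact (hv fun y => hx ▸ L.pt2_zero_notMem_u h _ y).elim
  · rintro ⟨x, hx, rfl⟩
    exact ⟨L.pnt_π _ _, (px_fix L hψ.fix x).2 ((fix_iff hψ x).2 (hfin.mem_toFinset.1 hx).2)⟩

theorem loc (sp : SPEC_s) : LOC_s := by
  intro l _ A _ L h F w hlc hF hW k _ _ τ j hl
  obtain ⟨Ω, _, _, ξ, hξ⟩ := ex_gen k
  refine ⟨(Module.finrank ℚ_[l]
    (V l (sec F (Over.mk (px L ((algebraMap k Ω).comp τ) ξ)))) : ℝ) ^ 2, ?_⟩
  intro Q ψ x hψ hx hxQ
  have e : spc ψ ≫ px L τ x = px L τ x := (px_fix L hψ.fix x).2 ((fix_iff hψ x).2 hxQ)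
  rw [trP, dif_pos e]
  refine (tr_le (hF.2.1 k _ hl) (by positivity)
    (hW k _ Q ψ ⟨hψ.ne, hψ.lt, hψ.pow, hψ.alg, e⟩ j)).trans (le_of_eq ?_)
  obtain ⟨V₀, hV⟩ := exists_at hξ.tr x
  have hξ0 : h.eval₂ ((algebraMap k Ω).comp τ) ξ ≠ 0 := fun h0 =>
    nu_not ((_root_.map_ne_zero _).2 hx) (map_inv₀ (algebraMap k Ω) _ ▸ hV.1 _)
      (by simpa [h0] using nu_sub nu_zero (nu_poly hV τ h))
  let τx : Localization.Away h →+* k :=
    IsLocalization.Away.lift h (g := eval₂RingHom τ x) hx.isUnit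
  let τΩ : Localization.Away h →+* Ω :=
    IsLocalization.Away.lift h (g := eval₂RingHom ((algebraMap k Ω).comp τ) ξ) hξ0.isUnit
  have h1 : ∀ p, τx (algebraMap A[X] _ p) = p.eval₂ τ x := IsLocalization.Away.lift_eq h _
  have h2 : ∀ p, τΩ (algebraMap A[X] _ p) = p.eval₂ ((algebraMap k Ω).comp τ) ξ :=
    IsLocalization.Away.lift_eq h _
  obtain ⟨ha, hu, τV, red, -, h3, -, h4⟩ := sp l k Ω ξ x V₀ hξ hV hl _ τx τΩ fun r => by
    obtain ⟨n, p, hp⟩ := IsLocalization.Away.surj h r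
    rw [← map_pow] at hp
    refine nu_cancel hV (d := (h ^ n).eval₂ τ x) (by rw [eval₂_pow]; exact pow_ne_zero _ hx)
      (nu_poly hV τ _) ?_
    rw [← h1, ← h2, ← map_mul, ← map_mul, hp, h1, h2]
    exact nu_poly hV τ p
  have e' : spc (algebraMap V₀ Ω) ≫ spc τV ≫ L.u h = px L ((algebraMap k Ω).comp τ) ξ := by
    rw [← Category.assoc, ← Spec.map_comp, ← CommRingCat.ofHom_comp, h3]
    exact spc_u L h _ _ _ h2
  obtain ⟨c, hi, hs, -⟩ := h4 L.P (L.u h) F.obj _ _ _ e' hF.1.1.2 (spc_u L h τ x τx h1).symm rfl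
  have hb := hF.2.2.1 V₀ Ω _ _ e' ⟨Over.homMk (spc τV) rfl⟩ ha hu
  rw [(Ve l (AddEquiv.ofBijective c ⟨hi hb.1, hs hb.2⟩)).finrank_eq]

end Pool.Agent.MP_855f4c_ag.E.W

end
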