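import Pool.Agent.MP_855f4c_ag.EC.Wd
import Pool.Agent.MP_855f4c_ag.EC.Wb
import Pool.Agent.MP_855f4c_ag.EC.F2b
import Pool.Agent.MP_855f4c_ag.EC.Xa
import Pool.Agent.MP_855f4c_ag.EC.Pa
import Pool.Agent.MP_855f4c_ag.EC.E4c
import Pool.Agent.MP_855f4c_ag.EC.F1b
import Pool.Agent.MP_855f4c_ag.EC.F2c

section

set_option backward.isDefEq.respectTransparency false

open CategoryTheory Limits Abelian Opposite AlgebraicGeometry Polynomial
open scoped IntermediateField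

namespace Pool.Agent.MP_855f4c_ag.E.W

open E3 E4 H7

namespace TFP

section group

variable {P : Type} [Group P] {M : Type 1} [AddCommGroup M] {Mu : Type} [AddCommGroup Mu]

lemma fix_inv (ρ : P →* AddMonoid.End M) {g : P} {m : M} (h : ρ g m = m) : ρ g⁻¹ m = m := by
  have h1 : (ρ g⁻¹ * ρ g) m = m := by rw [← map_mul, inv_mul_cancel, map_one]; rfl
  exact (congrArg (ρ g⁻¹) h).symm.trans h1

/-- The elements that fix `m` and kill the cocycle at `m`. -/
def cocS (ρ : P →* AddMonoid.End M) (c : P → M →+ Mu)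
    (hc : ∀ g h m, c (g * h) m = c g m + c h (ρ g⁻¹ m)) (m : M) : Subgroup P where
  carrier := {g | ρ g m = m ∧ c g m = 0}
  one_mem' := by
    have h2 := hc 1 1 m
    rw [mul_one, inv_one, map_one] at h2
    exact ⟨by rw [map_one]; rfl, left_eq_add.1 h2⟩
  mul_mem' {g h} hg hh := ⟨by
    rw [map_mul]
    exact (congrArg (ρ g) hh.1).trans hg.1, by rw [hc, fix_inv ρ hg.1, hg.2, hh.2, add_zero]⟩
  inv_mem' {g} hg := by
    have h2 := hc 1 1 m
    rw [mul_one, inv_one, map_one] at h2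
    have h3 := hc g⁻¹ g m
    rw [inv_mul_cancel, inv_inv, hg.1, hg.2, add_zero] at h3
    exact ⟨fix_inv ρ hg.1, h3.symm.trans (left_eq_add.1 h2)⟩

theorem tfd' {l : ℕ} [Fact l.Prime] {A : Fx.Adm P} {Q : ℕ} {al : P →* P} {U : Type} [Fintype U]
    {f : U → P} (hC : TFH.Cx A l Q al U f) (hQ : Q ≠ 0) {G : Type} [Group G] {ι : P →* G} {φ : G}
    (hφ : ∀ g, φ * ι (al g) = ι g * φ) (hM : Cof l M) {σ : G →* AddMonoid.End M}
    {P' : Type} [Group P'] (e : P ≃* P') (ρ : P' →* AddMonoid.End M)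
    (hρ : ∀ g m, σ (ι g) m = ρ (e g) m) (O : (P' → Prop) → Prop)
    (O1 : ∀ p q, O p → (∀ g, p g → q g) → O q) (O2 : ∀ p q, O p → O q → O fun g => p g ∧ q g)
    (O3 : ∀ N, A.adm N ↔ O fun g => e.symm g ∈ N) (O4 : ∀ m, O fun g => ρ g m = m)
    (μ : Mu ≃+ QZ l) (s : Mu →+ Mu) (hs : ∀ y, Q • s y = y)
    {H1 H2 : Type 1} [AddCommGroup H1] [AddCommGroup H2] (h1 : Cof l H1) (h2 : Cof l H2)
    (F1 : H1 →+ H1) (F2 : H2 →+ H2)
    (e2 : (H2 →+ QZ l) →+ M →+ Mu) (he2 : Function.Injective e2)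
    (hr2 : ∀ a, a ∈ e2.range ↔ ∀ p m, a (ρ p m) = a m)
    (hF2 : ∀ f m, s (e2 (f.comp F2) m) = e2 f (σ φ⁻¹ m))
    (Z : AddSubgroup (P' → M →+ Mu))
    (hZ : ∀ c, c ∈ Z ↔ (∀ g h m, c (g * h) m = c g m + c h (ρ g⁻¹ m)) ∧
      ∀ m, O fun g => c g m = 0)
    (e1 : Z →+ H1 →+ QZ l) (he1 : Function.Surjective e1)
    (hk1 : ∀ c, e1 c = 0 ↔ ∃ a : M →+ Mu, ∀ g m, c.1 g m = a (ρ g⁻¹ m) - a m)
    (hF1 : ∀ c c' : Z, (∀ p m, s (c'.1 (e p) m) = c.1 (e (al p)) (σ φ⁻¹ m)) →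
      e1 c' = (e1 c).comp F1) :
    ∑ x : U, tr l (σ (φ * ι (f x))⁻¹) = tr l F2 - tr l F1 := by
  have key : ∀ c : P' → M →+ Mu, (∀ g h m, c (g * h) m = c g m + c h (ρ g⁻¹ m)) →
      ∀ m, (O fun g => c g m = 0) → ∃ N, A.adm N ∧ ∀ g ∈ N, ρ (e g) m = m ∧ c (e g) m = 0 :=
    fun c hc m hm => ⟨(cocS ρ c hc m).comap e.toMonoidHom, (O3 _).2 (O1 _ _ (O2 _ _ (O4 m) hm)
      fun g hg => by
        show e (e.symm g) ∈ cocS ρ c hc m
        rw [e.apply_symm_apply]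
        exact hg), fun _ h => h⟩
  let T : (P → M →+ Mu) →+ P' → M →+ Mu := AddMonoidHom.mk' (fun c g => c (e.symm g)) fun _ _ => rfl
  refine TFD.tfd hC hQ hφ hM (fun m => ?_) μ s hs h1 h2 F1 F2 e2 he2 (fun a => ?_) hF2 (Z.comap T)
    (fun c => ?_) (e1.comp ((T.comp (Z.comap T).subtype).codRestrict Z fun c => c.2)) (fun y => ?_)
    (fun c => ?_) fun c c' h => hF1 _ _ fun p m => ?_
  · obtain ⟨N, a1, a2⟩ := key 0 (fun _ _ _ => (add_zero _).symm) m (O1 _ _ (O4 m) fun _ _ => rfl)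
    exact ⟨N, a1, fun g hg => (hρ g m).trans (a2 g hg).1⟩
  · rw [hr2]
    exact ⟨fun h p m => by rw [hρ, h], fun h p m => by rw [← e.apply_symm_apply p, ← hρ, h]⟩
  · rw [AddSubgroup.mem_comap, hZ]
    refine ⟨fun ⟨a1, a2⟩ => ⟨fun g h m => ?_, fun m => ?_⟩, fun ⟨a1, a2⟩ => ⟨fun g h m => ?_,
      fun m => ?_⟩⟩
    · have := a1 (e g) (e h) m
      simp only [T, AddMonoidHom.mk'_apply, map_mul, e.symm_apply_apply] at this
      rw [this, hρ, map_inv e]
    · obtain ⟨N, a3, a4⟩ := key _ a1 m (a2 m)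
      exact ⟨N, a3, fun g hg => by
        simpa only [T, AddMonoidHom.mk'_apply, e.symm_apply_apply] using (a4 g hg).2⟩
    · simp only [T, AddMonoidHom.mk'_apply, map_mul]
      rw [a1, hρ, map_inv, e.apply_symm_apply]
    · obtain ⟨N, a3, a4⟩ := a2 m
      exact O1 _ _ ((O3 N).1 a3) fun g hg => a4 _ hg
  · obtain ⟨z, rfl⟩ := he1 y
    have : T (fun g => z.1 (e g)) = z.1 := funext fun g => congrArg z.1 (e.apply_symm_apply g)
    exact ⟨⟨fun g => z.1 (e g), by rw [AddSubgroup.mem_comap, this]; exact z.2⟩,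
      congrArg e1 (Subtype.ext this)⟩
  · refine (hk1 _).trans (exists_congr fun a => ⟨fun h g m => ?_, fun h g m => ?_⟩)
    · rw [hρ, map_inv, ← h, ← e.symm_apply_apply g, e.apply_symm_apply]; rfl
    · show c.1 (e.symm g) m = _
      rw [h, hρ, map_inv, e.apply_symm_apply]
  · show s (c'.1 (e.symm (e p)) m) = c.1 (e.symm (e (al p))) _
    rw [e.symm_apply_apply, e.symm_apply_apply, h]

end group

section field

variable {k B Ω : Type} [Field k] [CommRing B] [Field Ω] [Algebra k[X] B] [Algebra B Ω]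
  [Algebra k Ω]

lemma alg_eq (hk : ∀ c, algebraMap B Ω (algebraMap k[X] B (C c)) = algebraMap k Ω c) (f : k[X]) :
    algebraMap B Ω (algebraMap k[X] B f) = aeval (algebraMap B Ω (algebraMap k[X] B X)) f :=
  RingHom.congr_fun (f := (algebraMap B Ω).comp (algebraMap k[X] B))
    (g := (aeval (algebraMap B Ω (algebraMap k[X] B X)) : k[X] →ₐ[k] Ω))
    (Polynomial.ringHom_ext (fun c => (hk c).trans (by simp)) (by simp)) f

lemma gen [IsAlgClosed k] [IsAlgClosed Ω] [FaithfulSMul B Ω] [Algebra.IsAlgebraic B Ω] {h : k[X]}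
    (h0 : h ≠ 0) [IsLocalization.Away h B]
    (hk : ∀ c, algebraMap B Ω (algebraMap k[X] B (C c)) = algebraMap k Ω c) (a : k) :
    Gen k (algebraMap B Ω (algebraMap k[X] B X) - algebraMap k Ω a) := by
  set x := algebraMap B Ω (algebraMap k[X] B X) with hx
  have hi : Function.Injective (aeval x : k[X] →ₐ[k] Ω) := fun f g e =>
    IsLocalization.injective B (powers_le_nonZeroDivisors_of_noZeroDivisors h0)
      (FaithfulSMul.algebraMap_injective B Ω ((alg_eq hk f).trans (e.trans (alg_eq hk g).symm)))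
  have h1 : ∀ f : k[X], aeval (x - algebraMap k Ω a) (f.comp (X + C a)) = aeval x f := fun f => by
    rw [aeval_comp]; simp
  refine ⟨inferInstance, inferInstance, transcendental_iff_injective.2 fun f g e => ?_, fun z => ?_⟩
  · have h2 : ∀ f : k[X], aeval x (f.comp (X - C a)) = aeval (x - algebraMap k Ω a) f := fun f => by
      rw [aeval_comp]; simp
    have := congrArg (·.comp (X + C a)) (hi ((h2 f).trans (e.trans (h2 g).symm)))
    simpa [comp_assoc] using this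
  · let _ : Algebra k[X] Ω := ((algebraMap B Ω).comp (algebraMap k[X] B)).toAlgebra
    have : IsScalarTower k[X] B Ω := IsScalarTower.of_algebraMap_eq fun _ => rfl
    have : IsDomain B := (FaithfulSMul.algebraMap_injective B Ω).isDomain _
    have : Algebra.IsAlgebraic k[X] B := IsLocalization.isAlgebraic B (Submonoid.powers h)
    have h3 := (Algebra.IsAlgebraic.trans k[X] B Ω).isAlgebraic z
    refine h3.ringHom_of_comp_eq (RingHom.codRestrict (aeval x : k[X] →ₐ[k] Ω).toRingHom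
      (Algebra.adjoin k {x - algebraMap k Ω a}).toSubring fun f =>
        h1 f ▸ aeval_mem_adjoin_singleton _ _) (RingHom.id Ω)
      (fun f g e => hi (congrArg Subtype.val e)) (RingHom.ext fun f => (alg_eq hk f).symm)

omit [Algebra k[X] B] [Algebra B Ω] in
/-- An automorphism of the constants extends to `Ω` and fixes `ξ`. -/
lemma exists_ext {ξ : Ω} (H : Gen k ξ) (ψ : k ≃+* k) :
    ∃ φ : Ω ≃+* Ω, ∀ f : k[X], φ (aeval ξ f) = aeval ξ (f.map (ψ : k →+* k)) := by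
  have := H.cl
  let e := algEquivOfTranscendental k ξ H.tr
  let γ := (e.symm.toRingEquiv.trans (Polynomial.mapEquiv ψ)).trans e.toRingEquiv
  have : Algebra.IsAlgebraic (Algebra.adjoin k {ξ}) Ω := ⟨H.alg⟩
  have : IsAlgClosure (Algebra.adjoin k {ξ}) Ω := ⟨inferInstance, inferInstance⟩
  refine ⟨IsAlgClosure.equivOfEquiv Ω Ω γ, fun f => ?_⟩
  have := IsAlgClosure.equivOfEquiv_algebraMap Ω Ω γ (e f)
  simpa [e, γ] using this

end field

section line

variable {A C : Type} [CommRing A] [CommRing C] (L : PL (Spec (.of A))) (h : A[X])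

lemma exists_lift (τ : A →+* C) (y : C) (hy : IsUnit (h.eval₂ τ y)) :
    ∃ ρ : Localization.Away h →+* C, (∀ f, ρ (algebraMap A[X] _ f) = f.eval₂ τ y) ∧
      spc ρ ≫ L.u h = px L τ y := by
  refine ⟨IsLocalization.Away.lift (g := eval₂RingHom τ y) h hy,
    IsLocalization.Away.lift_eq h hy, ?_⟩
  rw [PL.u_eq, ← Category.assoc, ← Spec.map_comp, ← CommRingCat.ofHom_comp,
    IsLocalization.Away.lift_comp, px, PL.pnt_pt1]

lemma spc_px {D : Type} [CommRing D] (g : C →+* D) (τ : A →+* C) (y : C) :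
    spc g ≫ px L τ y = px L (g.comp τ) (g y) := by
  rw [px, PL.comp_pnt, map_pt1, ← Spec.map_comp, ← CommRingCat.ofHom_comp]

lemma fix_px {g : C →+* C} {τ : A →+* C} {y : C} (h1 : ∀ a, g (τ a) = τ a) (h2 : g y = y) :
    spc g ≫ px L τ y = px L τ y := by
  rw [spc_px, h2, show g.comp τ = τ from RingHom.ext h1]

end line

lemma near {k Ω A : Type} [Field k] [Field Ω] [Algebra k Ω] [CommRing A] {h : A[X]} {τ : A →+* k}
    {x : Ω} {x₀ : k} {V : ValuationSubring Ω} (hV : At x x₀ V) (h0 : h.eval₂ τ x₀ ≠ 0)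
    {ρ : Localization.Away h →+* k} (hρ : ∀ f, ρ (algebraMap A[X] _ f) = f.eval₂ τ x₀)
    {ρ' : Localization.Away h →+* Ω}
    (hρ' : ∀ f, ρ' (algebraMap A[X] _ f) = f.eval₂ ((algebraMap k Ω).comp τ) x) (r) :
    ρ' r - algebraMap k Ω (ρ r) ∈ V.nonunits := by
  obtain ⟨⟨f, _, n, rfl⟩, hr⟩ := IsLocalization.surj (Submonoid.powers h) r
  have e : ∀ f : A[X], f.eval₂ ((algebraMap k Ω).comp τ) x = aeval x (f.map τ) := fun f => by
    rw [aeval_def, eval₂_map]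
  have h1 := congrArg ρ hr
  have h2 := congrArg ρ' hr
  simp only [map_mul, hρ, hρ', e, eval₂_eq_eval_map] at h1 h2 h0
  have h3 := (nu_aeval hV.1 hV.2 (f.map τ - C (ρ r) * (h ^ n).map τ)).2.2 (by
    rw [eval_sub, eval_mul, eval_C, h1, sub_self])
  have h4 := nu_inv (mt (nu_aeval hV.1 hV.2 ((h ^ n).map τ)).2.1 (by
    rw [Polynomial.map_pow, eval_pow]; exact pow_ne_zero n h0))
  have := nu_mul h3 h4.2
  rwa [map_sub, map_mul, aeval_C, ← h2, ← sub_mul, mul_inv_cancel_right₀ h4.1] at this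

/-- The local trace at a rational point. -/
lemma loc_tr (sp : SPEC_s) {l : ℕ} [Fact l.Prime] {A : Type} [CommRing A] (L : PL (Spec (.of A)))
    {h : A[X]} {F : Sh (Scheme.etaleTopology.over L.P)} (hG : Gd l L h F) {k Ω : Type} [Field k] [Field Ω] [Algebra k Ω]
    (hl : (l : k) ≠ 0) {τ : A →+* k} {x : Ω} (hx : Gen k x) {x₀ : k} {V : ValuationSubring Ω}
    (hV : At x x₀ V) (h0 : h.eval₂ τ x₀ ≠ 0) (h1 : h.eval₂ ((algebraMap k Ω).comp τ) x ≠ 0)
    {ω : Spec (.of Ω) ⟶ L.P} (hω : ω = px L ((algebraMap k Ω).comp τ) x) (g : Fix ω)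
    (hg : Stab g.1 V) {ψ : k →+* k} (hψ : ∀ a, g.1 (algebraMap k Ω a) = algebraMap k Ω (ψ a))
    (hz : spc ψ ≫ px L τ x₀ = px L τ x₀) :
    tr l (actP F.obj ω g) = trP l F.obj ψ (px L τ x₀) := by
  obtain ⟨ρ, a1, a2⟩ := exists_lift L h τ x₀ h0.isUnit
  obtain ⟨ρ', a3, a4⟩ := exists_lift L h _ x h1.isUnit
  obtain ⟨b1, b2, τV, -, -, b3, -, b4⟩ := sp l k Ω x x₀ V hx hV hl _ ρ ρ' (near hV h0 a1 a3)
  have e : spc (algebraMap V Ω) ≫ spc τV ≫ L.u h = ω := by
    rw [hω, ← a4, ← b3, ← Category.assoc, ← Spec.map_comp]; rfl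
  obtain ⟨c, c1, c2, c3⟩ := b4 L.P (L.u h) F.obj _ _ ω e hG.1.1.2 a2.symm rfl
  have hb := hG.2.2.1 V Ω _ ω e ⟨Over.homMk (spc τV) rfl⟩ b1 b2
  rw [trP, dif_pos hz]
  exact tr_equiv (AddEquiv.ofBijective c ⟨c1 hb.1, c2 hb.2⟩) fun m =>
    (c3 g.1 g.2 ψ hz hg hψ m).symm

end TFP

open TFP in
theorem tfp (d1 : DU1_s) (d2 : DU2_s) (gc : GdCof_s) (sp : SPEC_s) (di : DICT_s) : TFP_s := by
  intro l _ A _ L h a F hu ha hG k _ _ τ Q ψ hψ S hS
  classical
  obtain ⟨p, e, hp, hc, he, rfl, hb⟩ := frq hψ.lt ψ hψ.pow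
  have hτ : ∀ r, ψ (τ r) = τ r := fun r => by
    have := hψ.fix
    rw [← Spec.map_comp] at this
    exact congr(($(Spec.map_injective this)).hom r)
  have h0 : h.map τ ≠ 0 := fun e => (hu.map τ).ne_zero (by
    rw [leadingCoeff, ← coeff_map, e, coeff_zero])
  let B := Localization.Away (h.map τ)
  have : IsDomain B :=
    IsLocalization.isDomain_localization (powers_le_nonZeroDivisors_of_noZeroDivisors h0)
  let Ω := AlgebraicClosure (FractionRing B)
  have : FaithfulSMul B Ω := (faithfulSMul_iff_algebraMap_injective _ _).2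
    ((algebraMap (FractionRing B) Ω).injective.comp (IsFractionRing.injective B _))
  have : Algebra.IsAlgebraic B Ω :=
    have := IsLocalization.isAlgebraic (FractionRing B) (nonZeroDivisors B)
    Algebra.IsAlgebraic.trans B (FractionRing B) Ω
  have hk : ∀ c, algebraMap B Ω (algebraMap k[X] B (C c)) = algebraMap k Ω c := fun _ => rfl
  set x := algebraMap B Ω (algebraMap k[X] B X) with hx
  have g0 : Gen k x := by simpa using gen h0 hk 0
  have g1 := gen h0 hk (τ a)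
  rw [← hx] at g1
  have hl : l.Prime := Fact.out
  let Γ : Gr p l k Ω :=
    { hp := hp, hl := hl, char := hc, closed := inferInstance, closedΩ := inferInstance
      hlp := fun e => hψ.ne (e ▸ CharP.cast_eq_zero k p)
      alg := fun c => by
        obtain ⟨n, h1, h2⟩ := hψ.alg c
        exact ⟨e * n, mul_ne_zero he h1.ne', by rw [pow_mul, h2]⟩
      X := x - algebraMap k Ω (τ a), tr := g1.tr
      algΩ := ⟨fun z => IntermediateField.isAlgebraic_adjoin_iff.2 (g1.alg z)⟩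
      h := (h.map τ).comp (X + C (τ a))
      h0 := fun e => h0 (by
        have := congrArg (·.comp (X - C (τ a))) e
        simpa [comp_assoc] using this) }
  have hP : ∀ y, Γ.Pnt y ↔ (h.map τ).eval (y + τ a) ≠ 0 := fun y => by
    have : Γ.h.eval y = (h.map τ).eval (y + τ a) := by simp [Γ, eval_comp]
    rw [Gr.Pnt, this, and_iff_right_iff_imp]
    rintro h1 rfl
    exact h1 (by rw [zero_add, Polynomial.eval_map, eval₂_at_apply, ha, map_zero])
  let ψe := RingEquiv.ofBijective ψ hb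
  have hψe : ∀ c, ψe.symm c = c ^ p ^ e := fun c =>
    ψe.symm_apply_eq.2 ((map_pow ψ c _).trans (hψ.pow c)).symm
  have hτ' : ∀ r, τ r ^ p ^ e = τ r := fun r => by rw [← hτ r, hψ.pow, hτ]
  obtain ⟨φ₀, hφ₀⟩ := exists_ext g1 ψe.symm
  have f0 : Γ.Fr (p ^ e) φ₀ := ⟨by simpa only [aeval_X, map_X] using hφ₀ X, (hφ₀ _).trans (by
      have : (ψe.symm : k →+* k).comp τ = τ := RingHom.ext fun r => (hψe _).trans (hτ' r)
      simp only [Γ, Polynomial.map_comp, Polynomial.map_map, this, Polynomial.map_add, map_X, map_C]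
      rw [show (ψe.symm : k →+* k) (τ a) = τ a from RingHom.congr_fun this a]),
    fun c => by simpa [hψe] using hφ₀ (C c)⟩
  obtain ⟨V₀, hV₀⟩ := exists_at Γ.tr (0 : k)
  obtain ⟨g₀, hg₀⟩ := f0.stab (zero_pow (pow_ne_zero e hp.ne_zero)) hV₀
  obtain ⟨D, hD, hφ⟩ := Gr.exists_base ⟨e, he, rfl⟩ (f0.mul g₀) hV₀ hg₀
  have f1 : Γ.Fr (p ^ e) D.φ := hφ ▸ f0.mul g₀
  obtain ⟨ε, hε, hadm⟩ := di p l k Ω B Γ (h.map τ) (τ a) hk (sub_add_cancel _ _).symm hP
  let ω := spc (algebraMap B Ω) ≫ uk L τ B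
  have hω : ω = px L ((algebraMap k Ω).comp τ) x := spc_px L _ _ _
  have hfix : ∀ g : Ω ≃+* Ω, (∀ r, g (algebraMap k Ω (τ r)) = algebraMap k Ω (τ r)) →
      g Γ.X = Γ.X → g ∈ Fix ω := fun g h1 h2 => by
    show spc _ ≫ ω = ω
    rw [hω]
    refine fix_px L h1 ?_
    have := h1 a
    rw [← sub_add_cancel x (algebraMap k Ω (τ a))]
    exact (map_add g _ _).trans (congrArg₂ _ h2 this)
  let φ : Fix ω := ⟨D.φ, hfix _ (fun r => by rw [f1.c, ← map_pow, hτ']) f1.X⟩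
  let ι : (Ω ≃ₐ[k⟮Γ.X⟯] Ω) →* Fix ω :=
    { toFun := fun g => ⟨g.toRingEquiv, hfix _ (fun r => fix_const g _)
        (g.commutes ⟨_, IntermediateField.mem_adjoin_simple_self k _⟩)⟩
      map_one' := rfl
      map_mul' := fun _ _ => rfl }
  have hinv : ∀ g : Ω ≃+* Ω, (∀ c, g (algebraMap k Ω c) = algebraMap k Ω c ^ p ^ e) →
      ∀ c, g⁻¹ (algebraMap k Ω c) = algebraMap k Ω (ψ c) := fun g hg c =>
    g.symm_apply_eq.2 (by rw [hg, ← map_pow, hψ.pow])
  obtain ⟨e2, a1, a2, a3⟩ := d2 l A L h F hu hG k B Ω τ hψ.ne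
  obtain ⟨e1, b1, b2, b3⟩ := d1 l A L h F hu hG k B Ω τ hψ.ne
  have hlΩ : (l : Ω) ≠ 0 := by simpa using (map_ne_zero (algebraMap k Ω)).2 hψ.ne
  obtain ⟨μ⟩ := exMu Ω hlΩ
  have hc := (gc l A L h F hu hG k (spc τ) hψ.ne).2
  have hhx : h.eval₂ ((algebraMap k Ω).comp τ) x ≠ 0 := fun e => g0.tr ⟨h.map τ, h0, by
    rwa [aeval_def, eval₂_map]⟩
  have hL : Lis l F.obj (ob (uk L τ B) B) := by
    obtain ⟨ρ, -, h2⟩ := exists_lift L h ((algebraMap k[X] B).comp (C.comp τ)) (algebraMap k[X] B X)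
      (by
        rw [← hom_eval₂, ← eval₂_map, eval₂_C_X]
        exact IsLocalization.Away.algebraMap_isUnit (S := B) (h.map τ))
    refine hG.2.2.1.mono (Over.homMk (spc ρ) (h2.trans ?_))
    show _ = Spec.map (𝟙 _) ≫ _
    rw [Spec.map_id, Category.id_comp]
  have hlB : IsUnit (l : B) := by simpa using hψ.ne.isUnit.map (algebraMap k B)
  have main := tfd' (A := D.A) (al := D.α) (f := D.f 1) (ι := ι) (φ := φ) (σ := actP F.obj ω)
    ⟨D.comap, fun N h1 h2 n m h3 h4 => (cv_cx D N h1 h2 n m h3 h4).1,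
      fun N h1 h2 n m h3 h4 => (cv_cx D N h1 h2 n m h3 h4).2.1,
      fun N h1 h2 h5 n m h3 h4 => (cv_cx D N h1 h2 n m h3 h4).2.2 h5⟩
    (pow_ne_zero e hp.ne_zero) (fun g => Subtype.ext (RingEquiv.ext fun _ => D.φ.apply_symm_apply _))
    (hG.2.1 Ω ω hlΩ) ε (E4.gal (uk L τ B) Ω F.obj)
    (fun g m => congrArg (fun t : Over.mk ω ⟶ Over.mk ω => F.obj.map t.op m)
      (Over.OverMorphism.ext (congrArg spc (RingHom.ext fun z => (hε g z).symm))))
    (fun q => Opn q ∧ Unr q)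
    (fun q q' h1 h2 => ⟨h1.1.imp fun E hE g hg => h2 g (hE g hg),
      fun I _ g hg => h2 g (h1.2 I g hg)⟩)
    (fun q q' ⟨⟨E, h1⟩, h2⟩ ⟨⟨E', h3⟩, h4⟩ => ⟨⟨E ∪ E', fun g hg =>
      ⟨h1 g fun z hz => hg z (Finset.mem_union_left _ hz),
        h3 g fun z hz => hg z (Finset.mem_union_right _ hz)⟩⟩,
      fun I _ g hg => ⟨h2 I g hg, h4 I g hg⟩⟩)
    (fun N => (hD.adm N).trans (hadm N))
    (fun m => ⟨gal_opn _ hG.1.1.1 m, gal_unr _ hG.1.1 hL hlB m⟩)
    μ (MuI.map l ((φ⁻¹).1 : Ω →+* Ω)) (fun y => ?_) (hc 1) (hc 2) (Hact L.π F 1 ψ hψ.fix)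
    (Hact L.π F 2 ψ hψ.fix) e2 a1 a2 (a3 (φ⁻¹).1 (φ⁻¹).2 ψ hψ.fix hb (hinv _ f1.c)) _
    (fun c => Iff.rfl) e1 b1 b2
    (fun c c' H => b3 (φ⁻¹).1 (φ⁻¹).2 ψ hψ.fix hb (hinv _ f1.c) c c' fun s s' hs m => ?_)
  · rw [trP, trP, dif_pos hψ.fix, dif_pos hψ.fix]
    refine Eq.trans ?_ main
    rw [hD.sum_eq f1 (S.map (Equiv.subRight (τ a)).toEmbedding) (fun y => ?_) _
      (fun y => trP l F.obj ψ (px L τ (y + τ a))) fun y x₀ hx₀ V hV hs => ?_, Finset.sum_map]
    · simp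
    · rw [Finset.mem_map_equiv, hS, hP, Polynomial.eval_map]
      refine and_congr_right fun _ => ?_
      have := Fact.mk hp
      rw [Equiv.subRight_symm_apply, add_pow_char_pow, hτ', add_left_inj]
    · obtain ⟨h1, h2⟩ := (hS _).1 (Finset.mem_map_equiv.1 hx₀)
      rw [Equiv.subRight_symm_apply] at h1 h2
      refine loc_tr sp L hG hψ.ne g0 (V := V) ⟨hV.1, ?_⟩ h1 hhx hω _ (fun z => ?_)
        (hinv _ (f1.mul _).c) (fix_px L hτ ?_)
      · have := hV.2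
        rwa [map_add, ← sub_sub, sub_right_comm]
      · rw [← hs]
        exact Iff.of_eq (congrArg (· ∈ V) ((φ * ι (D.f 1 y)).1.apply_symm_apply z))
      · rw [← h2, map_pow, hψ.pow, h2]
  · obtain ⟨n, hn⟩ := (Additive.toMul y).2
    obtain ⟨c, hc⟩ := aic_root (aic_field k) ((Additive.toMul y).1 : Ω)
      (IsIntegral.of_pow (pow_pos hl.pos n) (by
        rw [← Units.val_pow_eq_pow_val, hn]; exact isIntegral_one))
    refine Subtype.ext (Units.ext ?_)
    show D.φ⁻¹ ((Additive.toMul y).1 : Ω) ^ p ^ e = ((Additive.toMul y).1 : Ω)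
    rw [← hc, hinv _ f1.c, ← map_pow, hψ.pow]
  · obtain ⟨s, rfl⟩ := ε.surjective s
    obtain rfl : s' = ε (D.α s) := AlgEquiv.ext fun z => by
      have := hs (D.φ z)
      rw [hε] at this
      rw [hε, D.α_apply]
      exact (congrArg s' (D.φ.symm_apply_apply z)).symm.trans this
    exact H s m

end Pool.Agent.MP_855f4c_ag.E.W

end

section

set_option backward.isDefEq.respectTransparency false

open CategoryTheory Limits Abelian Opposite AlgebraicGeometry Polynomial Function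

namespace Pool.Agent.MP_855f4c_ag.E.W

open E3 E4

namespace GL0

universe w v u

variable {C : Type u} [Category.{v} C] [Abelian C]

lemma w₁ {E F : C} (φ : E ⟶ F) : kernel.ι φ ≫ Abelian.factorThruImage φ = 0 := by
  rw [← cancel_mono (Abelian.image.ι φ), Category.assoc, Abelian.image.fac, kernel.condition,
    Limits.zero_comp]

lemma se₁ {E F : C} (φ : E ⟶ F) : (ShortComplex.mk _ _ (w₁ φ)).ShortExact where
  exact := ShortComplex.exact_of_f_is_kernel _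
    (isKernelOfComp (Abelian.image.ι φ) φ (kernelIsKernel φ) (w₁ φ) (Abelian.image.fac φ))

lemma se₂ {E F : C} (φ : E ⟶ F) :
    (ShortComplex.mk _ _ (kernel.condition (cokernel.π φ))).ShortExact where
  exact := ShortComplex.exact_kernel _

variable [HasExt.{w} C]

lemma post_l (A E : C) (l : ℕ) {q : ℕ} (x : Ext A E q) : post A ((l : ℤ) • 𝟙 E) q x = l • x := by
  induction l with
  | zero => rw [Nat.cast_zero, zero_smul, zero_smul, post_apply, Ext.mk₀_zero, Ext.comp_zero]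
  | succ n ih =>
    rw [Nat.cast_succ, add_smul, one_smul, post_apply, Ext.mk₀_add, Ext.comp_add, succ_nsmul, ← ih,
      Ext.comp_mk₀_id]
    rfl

/-- The diagram chase. -/
lemma chase {A B E : C} (p : B ⟶ A) (l : ℕ) {φ : E ⟶ E} (hφ : φ = (l : ℤ) • 𝟙 E)
    (h2 : ∀ x : Ext A (kernel φ) 2, x = 0) (h1 : Surjective (pre p (kernel φ) 1))
    (hi : Injective (pre p (cokernel φ) 1)) (h0 : ∀ x : Ext B (cokernel φ) 0, x = 0)
    (r : ℕ) (m : Ext B E 1) (hm : l ^ r • m = 0) : ∃ n, pre p E 1 n = m := by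
  have hl (T : C) (x : Ext T E 1) : post T φ 1 x = l • x := hφ ▸ post_l T E l x
  have hf (T : C) (x : Ext T E 1) : post T (Abelian.image.ι φ) 1
      (post T (Abelian.factorThruImage φ) 1 x) = l • x := by
    rw [post_post, Abelian.image.fac, hl]
  induction r generalizing m with
  | zero => exact ⟨0, by rw [map_zero, ← hm, pow_zero, one_smul]⟩
  | succ r ih =>
    obtain ⟨n', hn'⟩ := ih (l • m) (by rw [← mul_smul, ← pow_succ, hm])
    obtain ⟨n'', rfl⟩ := ((cov_les A (se₂ φ)).e₂ 1 n').1 (hi (by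
      change pre p _ 1 (post A (cokernel.π φ) 1 n') = _
      rw [pre_post, hn', ← hl, post_post, cokernel.condition, map_zero, post_apply, Ext.mk₀_zero,
        Ext.comp_zero]))
    obtain ⟨n, rfl⟩ := ((cov_les A (se₁ φ)).e₃ 1 n'').1 (h2 _)
    have e1 : l • pre p E 1 n = l • m := by rw [← map_nsmul, ← hf]; exact hn'
    obtain ⟨z, hz⟩ := ((cov_les B (se₂ φ)).e₁ 0
      (post B (Abelian.factorThruImage φ) 1 (m - pre p E 1 n))).1
        ((hf B _).trans (by rw [smul_sub, e1, sub_self]))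
    rw [h0 z, map_zero] at hz
    obtain ⟨y, hy⟩ := ((cov_les B (se₁ φ)).e₂ 1 _).1 hz.symm
    obtain ⟨y, rfl⟩ := h1 y
    exact ⟨n + post A (kernel.ι φ) 1 y, by
      rw [map_add, pre_post, ← eq_sub_iff_add_eq']; exact hy⟩

lemma chase₁ {A B E K Q : C} (p : B ⟶ A) (l : ℕ) {φ : E ⟶ E} (hφ : φ = (l : ℤ) • 𝟙 E)
    (eK : K = kernel φ) (eQ : Q = cokernel φ)
    (h2 : ∀ x : Ext A K 2, x = 0) (h1 : Surjective (pre p K 1))
    (hi : Injective (pre p Q 1)) (h0 : ∀ x : Ext B Q 0, x = 0)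
    (ht : ∀ m : Ext B E 1, ∃ r, l ^ r • m = 0) : Surjective (pre p E 1) := by
  subst eK eQ
  exact fun m => (ht m).elim fun r hr => chase p l hφ h2 h1 hi h0 r m hr

lemma chase' {X : Scheme.{0}} {T' T : Over X} (g : T' ⟶ T) (E : Sh (Scheme.etaleTopology.over X)) (l : ℕ)
    (h2 : ∀ x : H T (kernel ((l : ℤ) • 𝟙 E)) 2, x = 0)
    (h1 : Surjective (res g (kernel ((l : ℤ) • 𝟙 E)) 1))
    (hi : Injective (res g (cokernel ((l : ℤ) • 𝟙 E)) 1))
    (h0 : ∀ x : H T' (cokernel ((l : ℤ) • 𝟙 E)) 0, x = 0)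
    (ht : ∀ m : H T' E 1, ∃ r, l ^ r • m = 0) : Surjective (res g E 1) :=
  chase₁ (K := kernel ((l : ℤ) • 𝟙 E)) (Q := cokernel ((l : ℤ) • 𝟙 E)) (φ := (l : ℤ) • 𝟙 E)
    ((fr (Scheme.etaleTopology.over X)).map g) l rfl rfl rfl h2 h1 hi h0 ht

end GL0

theorem gl0 (dg : DEG_s) (gc : GdCof_s) (ga : GDAB_s) : GL0_s := by
  intro l _ R _ L h E hh hE C K _ _ _ _ _ _ _ a b e hC hl h2 h1
  have hK : (l : K) ≠ 0 := by
    have := (hl.map (algebraMap C K)).ne_zero
    rwa [map_natCast] at this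
  have hQ := (ga l R L h E E ((l : ℤ) • 𝟙 E) hE hE).2.1
  exact fun m => GL0.chase' ((Over.pullback L.π).map (sph (algebraMap C K) e)) E l h2
    (fun y => (h1 y).elim fun x hx => ⟨x, hx⟩)
    (fun _ _ h' => dg l R L h _ hh hQ C K a b e hC hl h') (gc l R L h _ hh hQ K b hK).1
    ((gc l R L h E hh hE K b hK).2 1).1 m |>.elim fun x hx => ⟨x, hx⟩

theorem gdab : GDAB_s := by
  have k (l : ℕ) (A : Type) [CommRing A] (L : PL (Spec (.of A))) (h : A[X]) (F F' : Sh (Scheme.etaleTopology.over L.P))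
      (φ : F ⟶ F') (hF : Gd l L h F) (hF' : Gd l L h F') : Gd l L h (kernel φ) :=
    ⟨Tc.ker φ hF.1 hF'.1.1,
      fun k _ _ x hl => (hF.2.1 k x hl).sub ((kernel.ι φ).hom.app _).hom (mono_sec _ _),
      Lis.kernel φ hF.2.2.1 hF'.2.2.1,
      fun k _ _ x hl hx s => mono_sec (kernel.ι φ) _
        ((hF.2.2.2 k x hl hx _).trans (hF.2.2.2 k x hl hx _).symm)⟩
  intro l _ A _ L h F F' φ hF hF'
  have c : Gd l L h (cokernel φ) :=
    ⟨Tc.coker φ hF.1.1 hF'.1,
      fun k _ _ x hl => (hF'.2.1 k x hl).quo ((cokernel.π φ).hom.app _).hom (pt_shl x _),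
      Lis.cokernel φ hF.2.2.1 hF'.2.2.1, fun k _ _ x hl hx s => by
        obtain ⟨t, rfl⟩ := pt_shl x (cokernel.π φ) s
        rw [hF'.2.2.2 k x hl hx t, map_zero]⟩
  exact ⟨k l A L h F F' φ hF hF', c, k l A L h F' _ (cokernel.π φ) hF' c⟩

end Pool.Agent.MP_855f4c_ag.E.W

end
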