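import Pool.Agent.MP_855f4c_ag.EC.Pb
import Pool.Agent.MP_855f4c_ag.EC.F1b
import Pool.Agent.MP_855f4c_ag.EC.E4d
import Pool.Agent.MP_855f4c_ag.EC.E4b
import Pool.Agent.MP_855f4c_ag.EC.Sa
import Pool.Agent.MP_855f4c_ag.EC.F2d
import Pool.Agent.MP_855f4c_ag.EC.F2e
import Pool.Agent.MP_855f4c_ag.EC.F2f
import Pool.Agent.MP_855f4c_ag.EC.Pa
import Pool.Agent.MP_855f4c_ag.EC.Uc
import Pool.Agent.MP_855f4c_ag.EC.F2c

section

set_option autoImplicit false
set_option backward.isDefEq.respectTransparency false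

open CategoryTheory Limits Abelian Opposite AlgebraicGeometry IsLocalRing

namespace Pool.Agent.MP_855f4c_ag.E.PB

open E3

theorem nmono : NMONO_s := fun _ _ _ g _ => fr_mono _ g

theorem nmv : NMV_s := by
  intro X T U V W u v p r h _ _ hc F q hs x hu hv
  have h' : IsPullback p r u v :=
    IsPullback.of_map (Over.forget X) (Over.OverMorphism.ext h.w) h
  have L := mv_les (mv_open h' hc) F
  obtain ⟨y, rfl⟩ := (L.e₁ q x).1 (Prod.ext hu hv)
  obtain ⟨y₁, y₂, rfl⟩ := hs y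
  exact ((L.e₃ q) _).2 ⟨(y₁, y₂), by simp [sub_eq_add_neg]⟩

theorem nint : NINT_s := by
  intro X Y ρ _ l G hG
  refine ⟨E4.pf_tc ρ hG, fun T' T g h q => ?_⟩
  have e : res g _ q ∘ E4.intH ρ T G q = E4.intH ρ T' G q ∘ res ((Over.pullback ρ).map g) G q :=
    funext fun x => (E4.intH_res ρ g G q x).symm
  exact (Function.Bijective.of_comp_iff _ (E4.intH_bij ρ T G q)).1
    (e ▸ (E4.intH_bij ρ T' G q).comp (h q))

theorem nuh : NUH_s := fun _ _ _ _ g _ hl h _ hF q => E4.uh g h hF.1 hl q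

lemma lc_lcSh (X : Scheme.{0}) (M : Type) [AddCommGroup M] :
    LcSh Set.univ M (E4.lc X (ULift.{1} M)) := by
  have key : ∀ {Y : Type} [TopologicalSpace Y] (c : Y → M) {S : Set Y}, S = Set.univ →
      (LC S c ↔ IsLocallyConstant c) := by
    rintro Y _ c _ rfl
    exact ⟨fun h => h.comp_continuous (Homeomorph.Set.univ Y).symm.continuous,
      fun h => h.comp_continuous continuous_subtype_val⟩
  refine ⟨fun T => AddMonoidHom.mk'
    (fun (s : LocallyConstant T.left (ULift.{1} M)) t => (s t).down) fun _ _ => rfl,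
    fun T s => (key _ rfl).2 (s.isLocallyConstant.comp ULift.down), fun T s h => ?_,
    fun T c hc => ⟨⟨fun t => ⟨c t⟩, ((key _ rfl).1 hc).comp ULift.up⟩, fun _ _ => rfl⟩,
    fun _ _ _ _ _ _ => rfl⟩
  exact LocallyConstant.ext fun t => ULift.ext _ _ (h t trivial)

theorem ncst : NCST_s := fun X l _ =>
  ⟨E4.lc X (ULift.{1} (ZMod l)), ⟨E4.lc_cc X _ l, E4.lc_tor X _ l fun m =>
    ⟨1, ULift.ext _ _ (by simp)⟩⟩, lc_lcSh X _⟩

theorem affv' (h : PB.AFFV_s) : E.AFFV_s := by
  intro l _ X R _ t hR hl q x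
  let e : (con X).obj (.of (ZMod l)) ≅ E4.lc X (ULift.{1} (ZMod l)) := (E4.cstIso X).app _
  refine (post_bij _ e.hom (q + 1)).1 ((h X l Set.univ isClosed_univ _ (lc_lcSh X _) (Over.mk t)
    (inferInstanceAs (IsAffine (Spec _))) ?_ (Linv.spec hl) q _).trans (map_zero _).symm)
  let φ := (Scheme.ΓSpecIso (.of R)).commRingCatIsoToRingEquiv
  exact Aic.of_surjective hR φ.symm.toRingHom φ.symm.surjective

end Pool.Agent.MP_855f4c_ag.E.PB

end

section

set_option autoImplicit false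
set_option backward.isDefEq.respectTransparency false

open CategoryTheory Limits Abelian Opposite AlgebraicGeometry IsLocalRing

namespace Pool.Agent.MP_855f4c_ag.E.PB

open E3

theorem nstk : NSTK_s := fun _ _ _ _ _ a => ⟨shl_inj a _, shl_surj a _⟩

theorem ngeo : NGEO_s := fun _ k _ _ b => ⟨wc_projective (SHL.wc k) b, fun _ => shl_surj b _⟩

theorem npt : NPT_s := fun X _ hl _ hF h => pt_isZero hl hF fun t => by
  obtain ⟨k, _, _, x, y, hy⟩ := exists_geom (Over.mk (𝟙 X)) t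
  exact ⟨k, _, inferInstance, y.left, hy, h k _⟩

theorem nclo : NCLO_s := fun _ l =>
  ⟨fun _ _ φ hF hG => ⟨hF.ker φ hG, hF.coker φ hG⟩, fun _ _ φ hF hG => Tc.coker φ hF.1 hG,
    fun _ _ _ _ _ hc h => Cc.colim hc h,
    fun V _ => @fr_Cc _ l (Over.mk V.ι) (inferInstanceAs (Etale V.ι)),
    fun _ f _ h => h.pb f⟩

theorem ncol : NCOL_s := fun _ T _ _ _ _ _ _ c hc n => colim_qcs T c hc n

theorem nrig : NRIG_s := fun _ _ _ hP h => rig2 hP fun A _ _ a hl => by
  let k := AlgebraicClosure (ResidueField A)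
  let φ : A →+* k := (algebraMap (ResidueField A) k).comp (residue A)
  have hφ : φ.IsIntegral := RingHom.IsIntegral.trans _ _
    (RingHom.isIntegral_of_surjective _ residue_surjective) Algebra.IsIntegral.isIntegral
  exact ⟨k, _, inferInstance, φ, inferInstance, hφ, h A k φ a _ rfl hl hφ⟩

end Pool.Agent.MP_855f4c_ag.E.PB

end

section

set_option autoImplicit false
set_option backward.isDefEq.respectTransparency false

open CategoryTheory Limits Abelian Opposite AlgebraicGeometry IsLocalRing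

namespace Pool.Agent.MP_855f4c_ag.E.PB

open E3

lemma n3_extBij_res {C : Type 1} [Category.{0} C] (J : GrothendieckTopology C) {T' T : C}
    (g : T' ⟶ T) (F : Sh J) :
    ExtBij.{1} ((fr J).map g) F ↔ ∀ q, Function.Bijective (res g F q) := Iff.rfl

theorem nsl : NSL_s := fun X Y f _ _ g F =>
  (n3_extBij_res (Scheme.etaleTopology.over X) g _).trans
    ((forall_congr' fun q => (E4.res_map_bij f g F q).symm).trans (n3_extBij_res (Scheme.etaleTopology.over Y) _ _).symm)

lemma tor_sheafify {X : Scheme.{0}} {l : ℕ} {P : PSh X} (hP : Tor l P) :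
    Tor l ((presheafToSheaf (Scheme.etaleTopology.over X) Ab.{1}).obj P).obj := by
  intro T hT s
  obtain ⟨ι, _, V, v, hV, hv, h⟩ := (finSite X).fin hT _
    (Presheaf.imageSieve_mem (Scheme.etaleTopology.over X) (toSheafify (Scheme.etaleTopology.over X) P) s)
  choose t ht using h
  choose n hn using fun i => hP (V i) (hV i) (t i)
  obtain ⟨N, hN⟩ := (Set.finite_range n).bddAbove
  refine ⟨N, sepP ((presheafToSheaf (Scheme.etaleTopology.over X) Ab.{1}).obj P).property _ _ hv ?_⟩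
  rintro _ _ ⟨_, y, _, ⟨i⟩, rfl⟩
  obtain ⟨m, rfl⟩ := Nat.exists_eq_add_of_le' (hN ⟨i, rfl⟩)
  have e : (toSheafify (Scheme.etaleTopology.over X) P).app _ (t i) = _ := ht i
  rw [← res_res, map_nsmul]
  erw [← e]
  rw [← map_nsmul, pow_add, mul_smul, hn, smul_zero, map_zero, map_zero]

theorem nrq : NRQ_s := fun X Y f _ _ F q =>
  ⟨fun h => lfp_sheafify (lim_pb f h q), fun l h => tor_sheafify fun T hT s => by
    have : CompactSpace ((Over.pullback f).obj T).left :=
      QuasiCompact.compactSpace_of_compactSpace (pullback.fst T.hom f)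
    have : ((Over.pullback f).obj T).left.IsSeparated :=
      ⟨(terminal.comp_from (pullback.fst T.hom f)) ▸
        (inferInstance : IsSeparated (pullback.fst T.hom f ≫ terminal.from _))⟩
    exact H_tor ((Over.pullback f).obj T) h q s⟩

end Pool.Agent.MP_855f4c_ag.E.PB

end

section

namespace Pool.Agent.MP_855f4c_ag.E.PB

theorem affvP : PB.AFFV_s := affv zsec nmv (spl mu)

theorem affv_final : E.AFFV_s := affv' affvP

theorem relP : REL_s :=
  rel devz (devi ngeo npt nclo) (du nclo) (lz ncst nint) (relz (key (keya mu) keyb) affvP nmv)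
    nmono ncol

theorem pbc1P : PBC1_s := pbc1 (pbc0 (cov wex) relP nint npt nclo) nsl nuh nclo

theorem pbc_final : PBC_s := pbc pbc1P nstk nrig nrq

end Pool.Agent.MP_855f4c_ag.E.PB

end

section

set_option autoImplicit false
set_option backward.isDefEq.respectTransparency false

open CategoryTheory Limits Abelian Opposite AlgebraicGeometry Polynomial

namespace Pool.Agent.MP_855f4c_ag.E.U

open E3 E4 Function

namespace JSH

section alg
variable {l : ℕ} {M N : Type 1} [AddCommGroup M] [AddCommGroup N]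

lemma cof_of_inj (e : M →+ N) (he : Injective e) (h : Cof l N) : Cof l M :=
  ⟨fun m => (h.1 (e m)).imp fun n hn => he (by rw [map_nsmul, hn, map_zero]),
    (h.2.preimage he.injOn).subset fun m hm => by
      change l • e m = 0
      rw [← map_nsmul, hm, map_zero]⟩

lemma cof_zero (h : ∀ m : M, m = 0) : Cof l M :=
  ⟨fun _ => ⟨0, h _⟩, (Set.finite_singleton 0).subset fun m _ => h m⟩

lemma rk_zero [Fact l.Prime] (h : ∀ m : M, m = 0) : rk l M = 0 :=
  have : Subsingleton (V l M) :=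
    ⟨fun _ _ => Subtype.ext (DFunLike.ext _ _ fun _ => (h _).trans (h _).symm)⟩
  Module.finrank_zero_of_subsingleton

end alg

lemma les_gen {𝒜 ℬ 𝒞 : Type*} [Category* 𝒜] [Category* ℬ] [Category* 𝒞] [Abelian 𝒜] [Abelian ℬ]
    [Abelian 𝒞] (J : 𝒜 ⥤ ℬ) [J.PreservesZeroMorphisms] (T : ℕ → ℬ ⥤ 𝒞) (hT : DF T)
    (hJ : ∀ S : ShortComplex 𝒜, S.ShortExact → (S.map J).ShortExact) {F G K : 𝒜} (φ : F ⟶ G)
    (χ : G ⟶ K) (hm : Mono φ) (he : Ex φ χ) (hp : Epi χ) (n : ℕ) :
    Ex ((J ⋙ T n).map φ) ((J ⋙ T n).map χ) ∧ ∃ δ : (J ⋙ T n).obj K ⟶ (J ⋙ T (n + 1)).obj F,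
      Ex ((J ⋙ T n).map χ) δ ∧ Ex δ ((J ⋙ T (n + 1)).map φ) :=
  (hT.les _ (hJ _ (ShortComplex.ShortExact.mk' he.2 hm hp))).2 n

variable {W X : Scheme.{0}} (u : W ⟶ X) [IsOpenImmersion u]

/-- Extension by zero along an open immersion. -/
noncomputable def jz : Sh (Scheme.etaleTopology.over W) ⥤ Sh (Scheme.etaleTopology.over X) := PF u ⋙ ez u.opensRange

instance : (jz u).Additive := ⟨rfl⟩

instance (T : Over W) : IsIso ((Over.mapPullbackAdj u).unit.app T) := by
  have e : ((Over.mapPullbackAdj u).unit.app T).left ≫ pullback.fst (T.hom ≫ u) u = 𝟙 _ :=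
    pullback.lift_fst _ _ _
  have : IsIso ((Over.forget W).map ((Over.mapPullbackAdj u).unit.app T)) :=
    ⟨pullback.fst (T.hom ≫ u) u, e, by
      rw [← cancel_mono (pullback.fst (T.hom ≫ u) u)]
      exact (Category.assoc _ _ _).trans ((congrArg (pullback.fst (T.hom ≫ u) u ≫ ·) e).trans
        ((Category.comp_id _).trans (Category.id_comp _).symm))⟩
  exact isIso_of_reflects_iso _ (Over.forget W)

lemma mem_map (T : Over W) : (ovU u.opensRange).mem ((Over.map u).obj T) :=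
  fun t => ⟨T.hom t, (Scheme.Hom.comp_apply _ _ t).symm⟩

lemma fac {T : Scheme.{0}} (a : T ⟶ X) (h : ∀ t, a t ∈ u.opensRange) : ∃ a', a = a' ≫ u :=
  ⟨_, (IsOpenImmersion.lift_fac u a (Set.range_subset_iff.2 h)).symm⟩

lemma exists_lift {T : Over X} (h : (ovU u.opensRange).mem T) :
    ∃ T' : Over W, T = (Over.map u).obj T' := by
  obtain ⟨a, ha⟩ := fac u T.hom h
  exact ⟨Over.mk a, congrArg Over.mk ha⟩

lemma rsec_bij {T' T : Over X} (g : T' ⟶ T) [IsIso g] (F : Sh (Scheme.etaleTopology.over X)) : Bijective (rsec g F) :=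
  (ConcreteCategory.isIso_iff_bijective (F.obj.map g.op)).1 inferInstance

/-- Sections over schemes in the open part. -/
noncomputable def kap (G : Sh (Scheme.etaleTopology.over W)) (T : Over W) :
    sec ((jz u).obj G) ((Over.map u).obj T) →+ sec G T :=
  (rsec ((Over.mapPullbackAdj u).unit.app T) G).comp
    (app ((ezι u.opensRange).app ((PF u).obj G)) ((Over.map u).obj T))

lemma kap_bij (G : Sh (Scheme.etaleTopology.over W)) (T : Over W) : Bijective (kap u G T) :=
  (rsec_bij _ G).comp (ezι_bij _ _ (mem_map u T))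

lemma kap_res (G : Sh (Scheme.etaleTopology.over W)) {T' T : Over W} (g : T' ⟶ T)
    (s : sec ((jz u).obj G) ((Over.map u).obj T)) :
    kap u G T' (rsec ((Over.map u).map g) _ s) = rsec g G (kap u G T s) :=
  (res_res G.obj _ _ s.1).trans ((congrArg (fun z => G.obj.map (Quiver.Hom.op z) s.1)
    ((Over.mapPullbackAdj u).unit.naturality g).symm).trans (res_res G.obj _ _ s.1).symm)

lemma kap_app {G G' : Sh (Scheme.etaleTopology.over W)} (φ : G ⟶ G') (T : Over W)
    (s : sec ((jz u).obj G) ((Over.map u).obj T)) :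
    kap u G' T (app ((jz u).map φ) _ s) = app φ T (kap u G T s) := (nat φ.hom _ s.1).symm

lemma bij_of (G : Sh (Scheme.etaleTopology.over W)) {T' T : Over W} (g : T' ⟶ T) (h : Bijective (rsec g G)) :
    Bijective (rsec ((Over.map u).map g) ((jz u).obj G)) :=
  (Bijective.of_comp_iff' (kap_bij u G T') _).1
    ((funext (kap_res u G g) : _ ∘ _ = _ ∘ _) ▸ h.comp (kap_bij u G T))

/-- The comparison map. -/
noncomputable def kapN : jz u ⋙ PB u ⟶ 𝟭 _ where
  app G := ⟨{ app T := AddCommGrpCat.ofHom (kap u G T.unop)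
              naturality _ _ g := AddCommGrpCat.hom_ext (AddMonoidHom.ext (kap_res u G g.unop)) }⟩
  naturality _ _ φ := ObjectProperty.hom_ext _ (NatTrans.ext (funext fun T =>
    AddCommGrpCat.hom_ext (AddMonoidHom.ext (kap_app u φ T.unop))))

lemma unit : Is (jz u ⋙ PB u) (𝟭 _) :=
  have (G : Sh (Scheme.etaleTopology.over W)) : IsIso ((kapN u).app G) := Ez.isIso_of_bij _ (kap_bij u G)
  have := NatIso.isIso_of_isIso_app (kapN u)
  ⟨asIso (kapN u)⟩

lemma ezIso (F : Sh (Scheme.etaleTopology.over X)) : Is ((ez u.opensRange).obj F) ((jz u).obj ((PB u).obj F)) := by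
  let φ : F ⟶ (PF u).obj ((PB u).obj F) :=
    ⟨{ app T := F.obj.map ((Over.mapPullbackAdj u).counit.app T.unop).op
       naturality _ _ g := (F.obj.map_comp _ _).symm.trans ((congrArg
         (fun z => F.obj.map (Quiver.Hom.op z))
         ((Over.mapPullbackAdj u).counit.naturality g.unop).symm).trans (F.obj.map_comp _ _)) }⟩
  have := ez_map_isIso u.opensRange φ fun T hT => by
    obtain ⟨T', rfl⟩ := exists_lift u hT
    have : IsIso ((Over.mapPullbackAdj u).counit.app ((Over.map u).obj T')) :=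
      IsIso.of_isIso_fac_left ((Over.mapPullbackAdj u).left_triangle_components T')
    exact rsec_bij _ F
  exact ⟨asIso ((ez u.opensRange).map φ)⟩

lemma shortExact {S : ShortComplex (Sh (Scheme.etaleTopology.over W))} (hS : S.ShortExact) :
    (S.map (jz u)).ShortExact where
  mono_f := by
    have := hS.mono_f
    exact Ez.mono_of_inj _ fun T a b h =>
      Subtype.ext ((Ez.sec_exact hS.exact ((Over.pullback u).obj T)).1 (congrArg Subtype.val h))
  epi_g := by
    have := hS.epi_g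
    have h : Presheaf.IsLocallySurjective (Scheme.etaleTopology.over W) S.g.hom :=
      (Sheaf.isLocallySurjective_iff_epi' Ab.{1} S.g).2 inferInstance
    refine (Sheaf.isLocallySurjective_iff_epi' Ab.{1} _).1 ⟨fun {T} s => ?_⟩
    refine (Scheme.etaleTopology.over X).transitive s.2 _ fun Y y hy => ?_
    rcases hy with hy | hy
    · refine (Scheme.etaleTopology.over X).superset_covering (fun Z z _ => ⟨0, (map_zero _).trans (Subtype.ext ?_)⟩)
        ((Scheme.etaleTopology.over X).top_mem Y)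
      exact ((res_res ((PF u).obj S.X₃).obj z y s.1).symm.trans
        ((congrArg _ hy).trans (map_zero _))).symm
    · obtain ⟨Y', rfl⟩ := exists_lift u hy
      refine (Scheme.etaleTopology.over X).superset_covering ?_
        ((Scheme.etaleTopology.over_map_coverPreserving u).cover_preserve
          (Presheaf.imageSieve_mem (Scheme.etaleTopology.over W) S.g.hom (kap u _ Y' (rsec y _ s))))
      rintro Z _ ⟨Z', g, z, ⟨t, ht⟩, rfl⟩
      obtain ⟨t', rfl⟩ := (kap_bij u _ Z').2 t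
      refine ((Presheaf.imageSieve ((jz u).map S.g).hom s).pullback y).downward_closed
        (f := (Over.map u).map g) ⟨t', (kap_bij u _ Z').1 ?_⟩ z
      refine ((kap_app u S.g Z' t').trans ht).trans ((kap_res u _ g _).symm.trans ?_)
      exact congrArg _ (res_res ((jz u).obj S.X₃).obj _ y s)
  exact := by
    have := hS.mono_f
    refine (sheafToPresheaf (Scheme.etaleTopology.over X) _).reflects_exact_of_faithful _ (exact_psh _ fun T x hx => ?_)
    obtain ⟨y, hy⟩ := (Ez.sec_exact hS.exact ((Over.pullback u).obj T.unop)).2 x.1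
      (congrArg Subtype.val hx)
    refine ⟨⟨y, (Scheme.etaleTopology.over X).superset_covering (S := ezSieve _ ((PF u).obj S.X₂).obj x.1)
      (fun Z z h => h.imp_left fun h =>
        (Ez.sec_exact hS.exact ((Over.pullback u).obj Z)).1 ?_) x.2⟩, Subtype.ext hy⟩
    exact (nat S.f.hom _ y).trans ((congrArg _ hy).trans (h.trans (map_zero _).symm))

lemma les (h1 : NRQ_s) {Y : Scheme.{0}} (f : X ⟶ Y) {F G K : Sh (Scheme.etaleTopology.over W)} (φ : F ⟶ G) (χ : G ⟶ K)
    (hm : Mono φ) (he : Ex φ χ) (hp : Epi χ) (n : ℕ) :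
    Ex ((jz u ⋙ Rq f n).map φ) ((jz u ⋙ Rq f n).map χ) ∧
      ∃ δ : (jz u ⋙ Rq f n).obj K ⟶ (jz u ⋙ Rq f (n + 1)).obj F,
        Ex ((jz u ⋙ Rq f n).map χ) δ ∧ Ex δ ((jz u ⋙ Rq f (n + 1)).map φ) :=
  les_gen (jz u) (Rq f) (h1.df f) (fun _ => shortExact u) φ χ hm he hp n

lemma exa : Exa (jz u) :=
  ⟨inferInstance, ((Functor.exact_tfae (jz u)).out 0 3).1 fun _ hS => shortExact u hS⟩

variable (h3 : NEZ_s) {l : ℕ} {G : Sh (Scheme.etaleTopology.over W)}
include h3

lemma pt_cases {k : Type} [Field k] [IsAlgClosed k] (x : Spec (.of k) ⟶ X) :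
    (∃ x', x = x' ≫ u) ∨ ∀ (G : Sh (Scheme.etaleTopology.over W)) (s : sec ((jz u).obj G) (Over.mk x)), s = 0 := by
  by_cases h : ∀ t, x t ∈ u.opensRange
  · exact .inl (fac u x h)
  · exact .inr fun G => h3.outk _ _ k x (not_forall.1 h)

lemma tc [IsAffineHom u] (hG : Tc l G) : Tc l ((jz u).obj G) := by
  refine ⟨⟨h3.lfp _ _ (LFP.push u hG.1.1), fun A k _ _ _ _ φ _ a b e hl => ?_⟩,
    h3.tor l _ _ fun T hT => hG.2 ((Over.pullback u).obj T) ?_⟩
  · by_cases h : ∀ t, a t ∈ u.opensRange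
    · obtain ⟨a', rfl⟩ := fac u a h
      obtain rfl : b = (Spec.map (CommRingCat.ofHom φ) ≫ a') ≫ u := by rw [← e, Category.assoc]
      exact bij_of u G (sph φ rfl) (hG.1.2 A k φ a' _ rfl hl)
    · have hb : ∃ t, b t ∉ u.opensRange := ⟨IsLocalRing.closedPoint k, fun hb => h fun t => by
        have h1 : a (IsLocalRing.closedPoint A) ∈ u.opensRange := by
          rw [← e] at hb
          rw [← IsLocalRing.comap_closedPoint φ]
          exact hb
        exact ((IsLocalRing.specializes_closedPoint t).map a.continuous).mem_open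
          u.opensRange.2 h1⟩
      have z := h3.out _ ((PF u).obj G) A a (not_forall.1 h)
      exact ⟨fun x y _ => (z x).trans (z y).symm,
        fun y => ⟨0, (map_zero _).trans (h3.outk _ _ k b hb y).symm⟩⟩
  · have : IsAffine T.left := hT
    have : IsAffineHom (pullback.fst T.hom u) := MorphismProperty.pullback_fst _ _ inferInstance
    exact isAffine_of_isAffineHom (pullback.fst T.hom u)

lemma cofS (hG : CofS l G) : CofS l ((jz u).obj G) := fun k _ _ x hl => by
  rcases pt_cases u h3 x with ⟨x', rfl⟩ | h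
  · exact cof_of_inj _ (kap_bij u G (Over.mk x')).1 (hG k x' hl)
  · exact cof_zero (h G)

omit h3 in
lemma lis (hG : Lis l G.obj (top W)) : Lis l ((jz u).obj G).obj (Over.mk u) := by
  rintro C K _ _ _ _ _ _ a b e ⟨g⟩ hC hl
  obtain ⟨a', rfl⟩ : ∃ a', a = a' ≫ u := ⟨g.left, (Over.w g).symm⟩
  obtain rfl : b = (Spec.map (CommRingCat.ofHom (algebraMap C K)) ≫ a') ≫ u := by
    rw [← e, Category.assoc]
  exact bij_of u G (sph _ rfl) (hG C K a' _ rfl ⟨Over.homMk a'⟩ hC hl)

omit h3 in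
lemma fr {k : Type} [Field k] {x : Spec (.of k) ⟶ W} {Q : ℕ} {ψ : k →+* k}
    (h : Fr l (x ≫ u) Q ψ) : Fr l x Q ψ :=
  ⟨h.ne, h.lt, h.pow, h.alg, by rw [← cancel_mono u, Category.assoc, h.fix]⟩

variable [Fact l.Prime] (h4 : ALG_s)
include h4

lemma rat (hG : RatT l G) : RatT l ((jz u).obj G) := fun k _ _ x Q ψ e => by
  rcases pt_cases u h3 x with ⟨x', rfl⟩ | h
  · obtain ⟨r, hr⟩ := hG k x' Q ψ (fr u e)
    exact ⟨r, (h4.iso l _ _ _ (kap_bij u G (Over.mk x'))
      (kap_res u G (sph ψ (fr u e).fix))).1.trans hr⟩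
  · exact ⟨0, (h4.nul l _ (cof_zero (h G)) (rk_zero (h G))).1.trans Rat.cast_zero.symm⟩

lemma wt {w : ℕ} (hG : Wt l w G) : Wt l w ((jz u).obj G) := fun k _ _ x Q ψ e j => by
  rcases pt_cases u h3 x with ⟨x', rfl⟩ | h
  · exact ((h4.iso l _ _ _ (kap_bij u G (Over.mk x'))
      (kap_res u G (sph ψ (fr u e).fix))).2.2 j _).2 (hG k x' Q ψ (fr u e) j)
  · exact (h4.nul l _ (cof_zero (h G)) (rk_zero (h G))).2 j _

end JSH

lemma JSH.affine_u {A : Type} [CommRing A] (L : PL (Spec (.of A))) (h : A[X]) :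
    IsAffineHom (L.u h) := IsAffineHom.of_comp _ L.π

lemma JSH.js_eq {A : Type} [CommRing A] (L : PL (Spec (.of A))) (h : A[X])
    [IsOpenImmersion (L.u h)] : js L h = JSH.jz (L.u h) := rfl

lemma JSH.rc_eq {A : Type} [CommRing A] (L : PL (Spec (.of A))) (h : A[X])
    [IsOpenImmersion (L.u h)] (n : ℕ) : Rc L h n = JSH.jz (L.u h) ⋙ Rq L.π n := rfl

open JSH in
theorem jsh (h1 : NRQ_s) (h3 : NEZ_s) (h4 : ALG_s) : JSH_s where
  exa L h _ := by rw [js_eq]; exact exa (L.u h)
  unit L h _ := by rw [js_eq]; exact unit (L.u h)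
  ez L h _ := by rw [js_eq]; exact ezIso (L.u h)
  les L h _ _ _ _ φ χ hm he hp n := by
    have := les (L.u h) h1 L.π φ χ hm he hp n
    rwa [← rc_eq, ← rc_eq] at this
  gd l _ _ L h _ G hG := by
    have := affine_u L h
    rw [js_eq]
    exact ⟨tc _ h3 hG.1, cofS _ h3 hG.2.2, lis _ hG.2.1, fun k _ _ x _ hx =>
      h3.outk _ _ k x ⟨IsLocalRing.closedPoint k, hx _⟩⟩
  rat l _ _ _ L h _ G hG := by rw [js_eq]; exact rat _ h3 h4 hG
  wt l _ w _ _ L h _ G hG := by rw [js_eq]; exact wt _ h3 h4 hG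

end Pool.Agent.MP_855f4c_ag.E.U

end

section

set_option autoImplicit false
set_option backward.isDefEq.respectTransparency false

open CategoryTheory Limits Abelian Opposite AlgebraicGeometry

namespace Pool.Agent.MP_855f4c_ag.E.U

open E3 Function

variable {X : Scheme.{0}}

lemma ntc_geom (t : X) : ∃ (k : Type) (_ : Field k) (_ : IsAlgClosed k) (x : Spec (.of k) ⟶ X),
    t ∈ Set.range x := by
  obtain ⟨k, _, _, x, y, hy⟩ := exists_geom (Over.mk (𝟙 X)) t
  exact ⟨k, _, inferInstance, y.left, hy⟩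

lemma ntc_all {p : ∀ (k : Type) [Field k] [IsAlgClosed k], (Spec (.of k) ⟶ X) → Prop}
    (h : ∀ (k : Type) [Field k] [IsAlgClosed k] (x : Spec (.of k) ⟶ X), p k x) (t : X) :
    ∃ (k : Type) (_ : Field k) (_ : IsAlgClosed k) (x : Spec (.of k) ⟶ X),
      t ∈ Set.range x ∧ p k x := by
  obtain ⟨k, _, _, x, hx⟩ := ntc_geom t
  exact ⟨k, _, inferInstance, x, hx, h k x⟩

lemma ntc_zero (l : ℕ) (F : Sh (Scheme.etaleTopology.over X)) (h : IsZero F) : Tc l F := by
  have z : ∀ T (s : F.obj.obj T), s = 0 := fun T s =>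
    (AddCommGrpCat.subsingleton_of_isZero (((sheafToPresheaf _ _).map_isZero h).obj T)).elim _ _
  refine ⟨⟨fun I _ _ D c _ _ => ⟨fun s => ?_, fun i t _ => ⟨i, 𝟙 _, z _ _⟩⟩,
    fun _ _ _ _ _ _ _ _ _ _ _ _ => ⟨fun _ _ _ => (z _ _).trans (z _ _).symm,
      fun _ => ⟨0, (z _ _).trans (z _ _).symm⟩⟩⟩, fun _ _ _ => ⟨0, z _ _⟩⟩
  exact ⟨IsCofiltered.nonempty.some, 0, (z _ _).trans (z _ _).symm⟩

lemma ntc_ex {F G K : Sh (Scheme.etaleTopology.over X)} (φ : F ⟶ G) (χ : G ⟶ K) (h : Ex φ χ) (k : Type) [Field k]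
    [IsAlgClosed k] (x : Spec (.of k) ⟶ X) : Exact (app φ (Over.mk x)) (app χ (Over.mk x)) := by
  obtain ⟨w, h⟩ := h
  have := (ShortComplex.mk φ χ w).exact_iff_epi_kernel_lift.1 h
  intro s
  refine ⟨fun hs => ?_, ?_⟩
  · obtain ⟨y, rfl⟩ := ((exact_sec (ShortComplex.exact_kernel χ) (Over.mk x)).2 s).1 hs
    obtain ⟨z, rfl⟩ := wc_surj (SHL.wc k) x (kernel.lift χ φ w) y
    exact ⟨z, (congrArg (fun a : F ⟶ G => a.hom.app _ z) (kernel.lift_ι χ φ w)).symm⟩
  · rintro ⟨z, rfl⟩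
    exact congrArg (fun a : F ⟶ K => a.hom.app _ z) w

theorem ntc : NTC_s where
  stk _ _ _ _ _ _ t := ⟨shl_inj t _, shl_surj t _⟩
  lfp f _ _ F q := (PB.nrq _ _ f F q).1
  tor f _ _ F q := (PB.nrq _ _ f F q).2
  thick l _ := ⟨ntc_zero l, fun e h => h.of_iso e, fun φ h h' => h.ker φ h'.1,
    fun φ h h' => Tc.coker φ h.1 h', fun _ hS => Tc.X₂ hS⟩
  pb _ _ _ f _ h := h.pb f
  ex := ntc_ex
  mono φ _ T := mono_sec φ T
  epi φ _ k _ _ x := wc_surj (SHL.wc k) x φ
  ptz _ _ _ hl hF h := pt_isZero hl hF.1 (ntc_all h)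
  ptm _ _ _ _ φ hl hF hG h := pt_mono hl hF.1 hG.1 φ (ntc_all h)
  pte _ _ _ _ φ hl hF hG h := pt_epi hl hF.1 hG.1 φ (ntc_all h)
  pti _ _ _ _ φ hl hF hG h := pt_iso hl hF.1 hG.1 φ (ntc_all h)
  ptx l X F G K φ χ hl hF hG hK h := by
    have w : φ ≫ χ = 0 := pt_hom_ext hl hF.1 hK.1 _ _ (ntc_all fun k _ _ x =>
      AddCommGrpCat.hom_ext (AddMonoidHom.ext fun s => (h k x _).2 ⟨s, rfl⟩))
    refine ⟨w, (ShortComplex.mk φ χ w).exact_iff_epi_kernel_lift.2
      (pt_epi hl hF.1 (hG.1.ker χ hK.1) _ (ntc_all fun k _ _ x y => ?_))⟩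
    obtain ⟨z, hz⟩ := (h k x ((kernel.ι χ).hom.app _ y)).1
      (congrArg (fun a : kernel χ ⟶ K => a.hom.app _ y) (kernel.condition χ))
    exact ⟨z, mono_sec (kernel.ι χ) _
      ((congrArg (fun a : F ⟶ G => a.hom.app _ z) (kernel.lift_ι χ φ w)).trans hz)⟩

lemma nez_out (O : X.Opens) (F : Sh (Scheme.etaleTopology.over X)) (A : Type) [CommRing A] [SHL A]
    (a : Spec (.of A) ⟶ X) (h : ∃ t, a t ∉ O) (s : sec ((ez O).obj F) (Over.mk a)) : s = 0 := by
  have e : ezSieve (ovU O) F.obj s.1 = ⊤ := shl_sieve s.2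
  have h1 : (ezSieve (ovU O) F.obj s.1).arrows (𝟙 _) := by rw [e]; trivial
  obtain ⟨t, ht⟩ := h
  exact Subtype.ext ((res_id F.obj s.1).symm.trans (h1.resolve_right fun h2 => ht (h2 t)))

theorem nez : NEZ_s where
  lfp O _ h := ez_LFP O (h.restrict _)
  tor _ _ O _ h := ez_Tor O (h.restrict _)
  tc _ _ O _ h := ⟨⟨ez_LFP O (h.1.1.restrict _), ez_Rig O (h.1.2.restrict _)⟩,
    ez_Tor O (h.2.restrict _)⟩
  mono _ _ := inferInstance
  inn O F _ h := ezι_bij O F h
  out := nez_out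
  outk O F k _ _ := nez_out O F k
  pb g O F := ⟨(ez_pb O g).choose.app F⟩
  pin g O F h := by
    have (T : (Over _)ᵒᵖ) : IsIso (((PB g).map ((ezι O).app F)).hom.app T) :=
      (ConcreteCategory.isIso_iff_bijective _).2 (ezι_bij O F (T := (Over.map g).obj T.unop)
        fun t => by simpa using h (T.unop.hom t))
    have : IsIso ((sheafToPresheaf _ _).map ((PB g).map ((ezι O).app F))) :=
      NatIso.isIso_of_isIso_app ((PB g).map ((ezι O).app F)).hom
    have := isIso_of_reflects_iso ((PB g).map ((ezι O).app F)) (sheafToPresheaf _ _)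
    exact ⟨asIso ((PB g).map ((ezι O).app F))⟩
  pout g O F h := by
    refine (IsZero.iff_id_eq_zero _).2 (Sheaf.hom_ext (NatTrans.ext (funext fun T =>
      AddCommGrpCat.hom_ext (AddMonoidHom.ext fun s => Subtype.ext ?_))))
    obtain ⟨W, h1, h2⟩ := (mem_ezSub O F _ s.1).1 s.2
    obtain rfl : W = ⊤ := eq_top_iff.2 fun t _ =>
      (h1 t).resolve_right (by simpa using h (T.unop.hom t))
    have : IsIso (opι ((Over.map g).op.obj T).unop ⊤) :=
      E4.isIso_homMk _ (inferInstanceAs (IsIso (Scheme.topIso _).hom))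
    exact (ConcreteCategory.bijective_of_isIso (F.obj.map (opι _ ⊤).op)).1
      (h2.trans (map_zero _).symm)

end Pool.Agent.MP_855f4c_ag.E.U

end
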