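import Pool.Agent.MP_855f4c_ag.EC.Wd
import Pool.Agent.MP_855f4c_ag.EC.Pc
import Pool.Agent.MP_855f4c_ag.EC.Ua
import Pool.Agent.MP_855f4c_ag.EC.E4d
import Pool.Agent.MP_855f4c_ag.EC.E4c

section

set_option autoImplicit false
set_option backward.isDefEq.respectTransparency false

open CategoryTheory Limits Abelian Opposite AlgebraicGeometry Polynomial Function

namespace Pool.Agent.MP_855f4c_ag.E.W

open E3 E4 U U.JSH

namespace CONV

lemma cof_pi {l : ℕ} {M : Type 1} [AddCommGroup M] (h : Cof l M) (ι : Type) [Finite ι] :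
    Cof l (ι → M) := by
  refine ⟨fun f => ?_, (Set.Finite.pi' fun _ : ι => h.2).subset fun f hf i => congrFun hf i⟩
  choose n hn using fun i => h.1 (f i)
  obtain ⟨N, hN⟩ := (Set.finite_range n).bddAbove
  refine ⟨N, funext fun i => ?_⟩
  obtain ⟨c, rfl⟩ := Nat.exists_eq_add_of_le' (hN ⟨i, rfl⟩)
  rw [Pi.smul_apply, pow_add, mul_smul, hn, smul_zero, Pi.zero_apply]

section one
variable {W W' : Scheme.{0}} (ρ : W' ⟶ W)

/-- `ρ_* ρ^*`. -/
noncomputable abbrev PP : Sh (Scheme.etaleTopology.over W) ⥤ Sh (Scheme.etaleTopology.over W) := PB ρ ⋙ PF ρ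

/-- The sheet attached to a lift. -/
noncomputable def cy {T : Over W} (y : T ⟶ Over.mk ρ) :
    T ⟶ (Over.map ρ).obj ((Over.pullback ρ).obj T) :=
  Over.homMk (pullback.lift (𝟙 _) y.left ((Category.id_comp _).trans (Over.w y).symm)) (by
    change _ ≫ pullback.snd _ _ ≫ ρ = _
    rw [pullback.lift_snd_assoc]; exact Over.w y)

/-- The values at all lifts. -/
noncomputable def lam (G : Sh (Scheme.etaleTopology.over W)) (T : Over W) :
    sec ((PP ρ).obj G) T →+ (T ⟶ Over.mk ρ) → sec G T :=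
  AddMonoidHom.pi fun y => rsec (cy ρ y) G

lemma lam_unit (G : Sh (Scheme.etaleTopology.over W)) (T : Over W) (s : sec G T) (y : T ⟶ Over.mk ρ) :
    lam ρ G T (app ((pbpf ρ).unit.app G) T s) y = s := by
  have : cy ρ y ≫ (Over.mapPullbackAdj ρ).counit.app T = 𝟙 _ :=
    Over.OverMorphism.ext (by simp [cy])
  exact (res_res G.obj _ _ s).trans (this ▸ res_id G.obj s)

lemma lam_nat {G G' : Sh (Scheme.etaleTopology.over W)} (φ : G ⟶ G') (T : Over W) (s) (y : T ⟶ Over.mk ρ) :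
    lam ρ G' T (app ((PP ρ).map φ) T s) y = app φ T (lam ρ G T s y) := (nat φ.hom _ s).symm

lemma lam_res (G : Sh (Scheme.etaleTopology.over W)) {T' T : Over W} (g : T' ⟶ T) (s) (y : T ⟶ Over.mk ρ) :
    lam ρ G T' (rsec g _ s) (g ≫ y) = rsec g G (lam ρ G T s y) := by
  have : cy ρ (g ≫ y) ≫ (Over.map ρ).map ((Over.pullback ρ).map g) = g ≫ cy ρ y :=
    Over.OverMorphism.ext (pullback.hom_ext (by simp [cy]; exact Category.id_comp _)
      (by simp [cy]))
  exact (res_res G.obj _ _ s).trans (this ▸ (res_res G.obj _ _ s).symm)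

variable [IsFinite ρ] [Etale ρ] {l : ℕ}

lemma lam_bij (G : Sh (Scheme.etaleTopology.over W)) {k : Type} [Field k] [IsAlgClosed k]
    (x : Spec (.of k) ⟶ W) : Bijective (lam ρ G (Over.mk x)) := by
  obtain ⟨D, _, _, u', H⟩ := exists_fib ρ x
  have := fib_finite H
  have := fib_etale H
  obtain ⟨ι, _, ⟨ε⟩⟩ := split_etale k D
  let σ : ι → D →ₐ[k] k := fun i => (Pi.evalAlgHom k (fun _ => k) i).comp ε
  have hr : Bijective fun i => lf H (σ i) := by
    refine ⟨fun i j e => ?_, fun y => ?_⟩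
    · have e' := spc_inj (H.hom_ext ((spec_sec (σ i)).trans (spec_sec (σ j)).symm)
        (congrArg (·.left) e))
      classical
      have := congr($e' (ε.symm (Pi.single i 1)))
      by_contra h
      simp [σ, Ne.symm h] at this
    · obtain ⟨τ, rfl⟩ := lf_surj H y
      obtain ⟨i, hi⟩ := (τ.comp (ε.symm : (ι → k) →ₐ[k] D)).eq_piEvalAlgHom
      exact ⟨i, congrArg _ (by ext; simp [σ, ← hi])⟩
  let : ∀ i : ι, Algebra D (Cp k i) := fun i => (σ i : D →+* k).toAlgebra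
  let ε' : D ≃ₐ[D] ∀ i : ι, Cp k i := AlgEquiv.ofRingEquiv (f := ε.toRingEquiv) fun _ => rfl
  let a (i : ι) : Over.mk x ⟶ (Over.map ρ).obj (ob u' (Cp k i)) :=
    Over.homMk (𝟙 _) ((Category.id_comp _).trans (Over.w (lf H (σ i))))
  have : ∀ i, IsIso (a i) := fun _ => isIso_homMk _ (inferInstanceAs (IsIso (𝟙 (Spec (.of k)))))
  rw [← hr.comp_right.of_comp_iff']
  refine (congrArg Bijective (funext fun s => funext fun i => ?_)).mpr
    ((Bijective.piMap fun i => rsec_bij (a i) G).comp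
      (((pi_bij u' ((pb ρ).obj G) fun i : ι => Cp k i).comp (rs_equiv u' _ ε')).comp
        (rsec_bij (fb0 H) ((pb ρ).obj G))))
  refine Eq.trans ?_ ((congrArg _ ((congrArg _ (res_res G.obj _ _ s)).trans
    (res_res G.obj _ _ s))).trans (res_res G.obj _ _ s)).symm
  refine congrArg (fun z => G.obj.map (Quiver.Hom.op z) s) (Over.OverMorphism.ext
    (pullback.hom_ext ?_ ?_))
  · simp [cy, a, fb0, toPb]
    rw [← Category.assoc, spc_comp]
    exact (spec_sec (σ i)).symm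
  · simp [cy, a, fb0, toPb]
    rw [← Category.assoc, spc_comp]
    rfl

lemma lcf {G : Sh (Scheme.etaleTopology.over W)} (hG : Lcf l G) : Lcf l ((PP ρ).obj G) :=
  ⟨pf_tc ρ (pb_tc ρ hG.1), pf_lis ρ ((Lis.map_iff ρ G.obj _).2
    (hG.2.1.mono (Over.homMk (Over.hom _) (Category.comp_id _)))),
    fun k _ _ x hl => have := finite_lifts ρ x
      cof_of_inj _ (lam_bij ρ G x).1 (cof_pi (hG.2.2 k x hl) _)⟩

end one

section two
variable {W W' Y : Scheme.{0}} (ρ : W' ⟶ W) (u : W ⟶ Y) [IsOpenImmersion u]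

/-- The unit, extended by zero. -/
noncomputable abbrev et (G : Sh (Scheme.etaleTopology.over W)) : (jz u).obj G ⟶ (jz u).obj ((PP ρ).obj G) :=
  (jz u).map ((pbpf ρ).unit.app G)

/-- The cokernel of the unit. -/
noncomputable def EE : Sh (Scheme.etaleTopology.over W) ⥤ Sh (Scheme.etaleTopology.over Y) where
  obj G := cokernel (et ρ u G)
  map φ := cokernel.map _ _ ((jz u).map φ) ((jz u).map ((PP ρ).map φ)) (by
    rw [← Functor.map_comp, ← Functor.map_comp]
    exact congrArg _ ((pbpf ρ).unit.naturality φ).symm)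
  map_id _ := (cancel_epi (cokernel.π _)).1 (by
    rw [cokernel.π_desc, CategoryTheory.Functor.map_id, CategoryTheory.Functor.map_id,
      Category.id_comp, Category.comp_id])
  map_comp _ _ := (cancel_epi (cokernel.π _)).1 (by
    rw [cokernel.π_desc, cokernel.π_desc_assoc, Category.assoc, cokernel.π_desc, Functor.map_comp,
      Functor.map_comp, Category.assoc])

lemma π_map {G G' : Sh (Scheme.etaleTopology.over W)} (φ : G ⟶ G') : cokernel.π (et ρ u G) ≫ (EE ρ u).map φ =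
    (jz u).map ((PP ρ).map φ) ≫ cokernel.π (et ρ u G') := cokernel.π_desc _ _ _

lemma epi [IsFinite ρ] {G G' : Sh (Scheme.etaleTopology.over W)} (φ : G ⟶ G') [Epi φ] : Epi ((EE ρ u).map φ) := by
  have := (exa u).2.2
  have : Epi ((PP ρ).map φ) := by
    rw [Functor.comp_map]
    infer_instance
  exact epi_of_epi_fac (π_map ρ u φ)

/-- Values at all lifts. -/
noncomputable def psi (G : Sh (Scheme.etaleTopology.over W)) (T : Over W) :
    sec ((jz u).obj ((PP ρ).obj G)) ((Over.map u).obj T) →+ (T ⟶ Over.mk ρ) → sec G T :=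
  (lam ρ G T).comp (JSH.kap u _ T)

lemma psi_app {G G' : Sh (Scheme.etaleTopology.over W)} (φ : G ⟶ G') (T : Over W) (t) (y : T ⟶ Over.mk ρ) :
    psi ρ u G' T (app ((jz u).map ((PP ρ).map φ)) _ t) y = app φ T (psi ρ u G T t y) :=
  (congrArg (lam ρ G' T · y) (kap_app u ((PP ρ).map φ) T t)).trans (lam_nat ρ φ T _ y)

variable [IsFinite ρ] [Etale ρ] {G G' : Sh (Scheme.etaleTopology.over W)} {k : Type} [Field k] [IsAlgClosed k]

lemma psi_bij (G : Sh (Scheme.etaleTopology.over W)) (x : Spec (.of k) ⟶ W) :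
    Bijective (psi ρ u G (Over.mk x)) := (lam_bij ρ G x).comp (kap_bij u _ _)

lemma π_zero (G : Sh (Scheme.etaleTopology.over W)) (x : Spec (.of k) ⟶ W) (t) :
    app (cokernel.π (et ρ u G)) (Over.mk (x ≫ u)) t = 0 ↔
      ∃ m, ∀ y, psi ρ u G (Over.mk x) t y = m := by
  have e : ∀ s y, psi ρ u G (Over.mk x) (app (et ρ u G) _ s) y = JSH.kap u G (Over.mk x) s :=
    fun s y => (congrArg (lam ρ G _ · y) (kap_app u _ _ s)).trans (lam_unit ρ G _ _ y)
  refine ((pt_shl (x ≫ u)).exact (ShortComplex.exact_cokernel (et ρ u G)) t).trans ⟨?_, ?_⟩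
  · rintro ⟨s, rfl⟩
    exact ⟨_, e s⟩
  · rintro ⟨m, hm⟩
    obtain ⟨s, rfl⟩ := (kap_bij u G _).2 m
    exact ⟨s, (psi_bij ρ u G x).1 (funext fun y => (e s y).trans (hm y).symm)⟩

lemma inj (φ : G ⟶ G') [Mono φ]
    (x : Spec (.of k) ⟶ W) : Injective (app ((EE ρ u).map φ) (Over.mk (x ≫ u))) := by
  refine (injective_iff_map_eq_zero _).2 fun s hs => ?_
  obtain ⟨t, rfl⟩ := pt_shl (x ≫ u) (cokernel.π (et ρ u G)) s
  obtain ⟨m, hm⟩ := (π_zero ρ u G' x (app ((jz u).map ((PP ρ).map φ)) _ t)).1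
    (congr(app $(π_map ρ u φ) (Over.mk (x ≫ u)) t).symm.trans hs)
  have e : ∀ y, app φ _ (psi ρ u G (Over.mk x) t y) = m := fun y =>
    (psi_app ρ u φ (Over.mk x) t y).symm.trans (hm y)
  refine (π_zero ρ u G x t).2 ?_
  rcases isEmpty_or_nonempty (Over.mk x ⟶ Over.mk ρ) with h | ⟨⟨y₀⟩⟩
  · exact ⟨0, fun y => h.elim y⟩
  · exact ⟨_, fun y => (E4.sec_exact (ShortComplex.exact_cokernel φ) (Over.mk x)).1
      ((e y).trans (e y₀).symm)⟩

lemma stalk (G : Sh (Scheme.etaleTopology.over W)) (x : Spec (.of k) ⟶ W) {ι : Type}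
    (r : ι → (Over.mk x ⟶ Over.mk ρ)) (hr : Bijective r) :
    ∃ θ : (ι → sec G (Over.mk x)) →+ sec ((EE ρ u).obj G) (Over.mk (x ≫ u)),
      Surjective θ ∧ (∀ f, θ f = 0 ↔ ∃ m, ∀ y, f y = m) ∧
      ∀ (g : Over.mk x ⟶ Over.mk x) (σ : ι → ι), Surjective σ → (∀ y, r (σ y) = g ≫ r y) →
        ∀ f f', (∀ y, f' (σ y) = rsec g G (f y)) →
          θ f' = rsec ((Over.map u).map g) _ (θ f) := by
  let Ψ := AddEquiv.ofBijective (AddMonoidHom.pi fun i =>
    (Pi.evalAddMonoidHom _ (r i)).comp (psi ρ u G (Over.mk x)))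
    (hr.comp_right.comp (psi_bij ρ u G x))
  refine ⟨(app (cokernel.π (et ρ u G)) (Over.mk (x ≫ u))).comp Ψ.symm.toAddMonoidHom,
    (pt_shl (x ≫ u) (cokernel.π (et ρ u G))).comp Ψ.symm.surjective, fun f => ?_,
    fun g σ hσ hg f f' hf => ?_⟩
  · obtain ⟨t, rfl⟩ := Ψ.surjective f
    change app _ _ (Ψ.symm (Ψ t)) = 0 ↔ _
    rw [Ψ.symm_apply_apply]
    exact (π_zero ρ u G x t).trans (exists_congr fun m => hr.2.forall)
  · obtain ⟨t, rfl⟩ := Ψ.surjective f
    obtain rfl : f' = Ψ (rsec ((Over.map u).map g) _ t) := funext fun y => by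
      obtain ⟨y, rfl⟩ := hσ y
      refine (hf y).trans ((lam_res ρ G g _ _).symm.trans ?_)
      rw [← hg, ← kap_res]
      rfl
    change app _ _ (Ψ.symm (Ψ _)) = rsec _ _ (app _ _ (Ψ.symm (Ψ t)))
    rw [Ψ.symm_apply_apply, Ψ.symm_apply_apply]
    exact nat (cokernel.π (et ρ u G)).hom _ t

lemma mono {l : ℕ} (φ : G ⟶ G') [Mono φ] (hG : Cc l ((EE ρ u).obj G)) (hl : Linv l Y) :
    Mono ((EE ρ u).map φ) :=
  mono_of_pts _ hG hl fun k _ _ x => by
    obtain ⟨x, rfl⟩ | h := pt_cases u nez x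
    · exact inj ρ u φ x
    · refine (injective_iff_map_eq_zero (U.app ((EE ρ u).map φ) (Over.mk x))).2 fun s _ => ?_
      obtain ⟨t, rfl⟩ := pt_shl x (cokernel.π (et ρ u G)) s
      rw [h _ t, map_zero]

end two

section three
variable {B : Type} [CommRing B] (n : ℕ) (w : Bˣ)

/-- The Kummer cover. -/
noncomputable abbrev km : Spec (.of (AdjoinRoot (X ^ n - C (w : B)))) ⟶ Spec (.of B) :=
  spc (algebraMap B _)

lemma km_fin (hn : 0 < n) : IsFinite (km n w) :=
  (IsFinite.SpecMap_iff _).2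
    (RingHom.finite_algebraMap.2 (monic_X_pow_sub_C _ hn.ne').finite_adjoinRoot)

lemma km_et (hn : 0 < n) (h : IsUnit (n : B)) : Etale (km n w) :=
  (HasRingHomProperty.Spec_iff (P := @Etale)).2 (RingHom.etale_algebraMap.2
    (Spg.etale_adjoinRoot (monic_X_pow_sub_C _ hn.ne') (separable_X_pow_sub_C_unit w h)))

variable {K : Type} [Field K] (τ : B →+* K) {c d : K} (hc : c ≠ 0) (h : τ w * c = d)

/-- The lift attached to a root. -/
noncomputable def rt (y : Rt n c d) : Over.mk (spc τ) ⟶ Over.mk (km n w) :=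
  Over.homMk (spc (AdjoinRoot.lift τ y.1 (by
    simpa [sub_eq_zero] using mul_right_cancel₀ hc (y.2.trans h.symm))))
    ((spc_comp _ _).trans (congrArg spc (AdjoinRoot.lift_comp_of _)))

lemma rt_bij : Bijective (rt n w τ hc h) := by
  refine ⟨fun y y' e => Subtype.ext ?_, fun y => ?_⟩
  · simpa using congr($(spc_inj (congrArg (·.left) e)) (AdjoinRoot.root _))
  · obtain ⟨φ, hφ⟩ := Spec.map_surjective y.left
    have e : φ.hom.comp (AdjoinRoot.of _) = τ :=
      spc_inj ((spc_comp _ _).symm.trans ((congrArg (· ≫ _) hφ).trans (Over.w y)))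
    have e' := congrArg φ.hom (AdjoinRoot.eval₂_root (X ^ n - C (w : B)))
    rw [hom_eval₂, e, map_zero] at e'
    refine ⟨⟨φ.hom (AdjoinRoot.root _), ?_⟩, Over.OverMorphism.ext (Eq.trans (congrArg spc
      (AdjoinRoot.ringHom_ext ?_ ?_)) hφ)⟩
    · rw [← h]; congr 1; simpa [sub_eq_zero] using e'
    · exact (AdjoinRoot.lift_comp_of _).trans e.symm
    · exact AdjoinRoot.lift_root _

end three

lemma gz {l : ℕ} {R : Type} [CommRing R] (L : PL (Spec (.of R))) (h : R[X])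
    {G : Sh (Scheme.etaleTopology.over (Spec (.of (Localization.Away h))))} (hG : Lcf l G) :
    Gd l L h ((jz (L.u h)).obj G) :=
  have := affine_u L h
  ⟨JSH.tc _ nez hG.1, JSH.cofS _ nez hG.2.2, JSH.lis _ hG.2.1, fun k _ _ x _ hx =>
    nez.outk _ _ k x ⟨IsLocalRing.closedPoint k, hx _⟩⟩

end CONV

open CONV in
theorem conv (ga : GDAB_s) : CONV_s := by
  intro l n _ A R _ _ L h a β s L' hl hn hn0 ha
  let i := algebraMap R[X] (Localization.Away (hc h a β s))
  have hu : IsUnit (i (h.map β) * i (X - C (β a + s))) :=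
    map_mul i _ _ ▸ IsLocalization.Away.algebraMap_isUnit (hc h a β s)
  obtain ⟨d, hd⟩ := isUnit_of_mul_isUnit_right hu
  replace hu := isUnit_of_mul_isUnit_left hu
  obtain ⟨c, hc'⟩ : IsUnit (i (X - C (β a))) := isUnit_of_dvd_unit
    (map_dvd i (by simpa using Polynomial.map_dvd β (dvd_iff_isRoot.2 ha))) hu
  have := km_fin n (d * c⁻¹) hn0
  have := km_et n (d * c⁻¹) hn0 (by simpa using hn.map (i.comp C))
  let v := L.pnt (spc ((i.comp C).comp β)) (pt1 (i X))
  obtain ⟨v', hv⟩ := fac (L.u h) v fun t => (L.pt1_range_u h _ _).2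
    (by rwa [← eval₂_map, ← hom_eval₂, eval₂_C_X]) ⟨t, rfl⟩
  have gd : ∀ F, Gd l L h F → Gd l L' (hc h a β s)
      ((EE (km n (d * c⁻¹)) (L'.u (hc h a β s))).obj ((PB v).obj F)) := fun F hF =>
    have lc : Lcf l ((PB v).obj F) := ⟨pb_tc v hF.1, (Lis.map_iff v F.obj _).2
      (hF.2.2.1.mono (Over.homMk v' (hv.symm.trans (Category.id_comp _).symm))),
      fun k _ _ x => hF.2.1 k (x ≫ v)⟩
    (ga l R L' _ _ _ _ (gz L' _ lc) (gz L' _ (lcf _ lc))).2.1
  refine ⟨PB v ⋙ EE (km n (d * c⁻¹)) (L'.u _), gd, fun {F F'} φ _ hF _ => ?_,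
    fun {F F'} φ _ _ _ => ?_, fun F K _ _ τ x z₀ z h₀ hz hx => ?_⟩
  · rw [Functor.comp_map]
    exact CONV.mono _ _ ((PB v).map φ) (gd F hF).1.1 ((Linv.spec hl).of_hom L'.π)
  · rw [Functor.comp_map]
    exact CONV.epi _ _ ((PB v).map φ)
  obtain ⟨x', rfl⟩ := fac (L'.u (hc h a β s)) z fun t =>
    hz ▸ (L'.pt1_range_u _ τ x).2 (Ne.isUnit hx) ⟨t, rfl⟩
  obtain ⟨τ', rfl⟩ : ∃ τ', spc τ' = x' := let ⟨φ, e⟩ := Spec.map_surjective x'; ⟨φ.hom, e⟩
  rw [PL.u, PL.comp_pnt, map_pt1, spc_comp, PL.pnt_inj, pt1_inj] at hz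
  obtain ⟨h1, rfl⟩ := hz
  obtain rfl := spc_inj h1
  obtain rfl : z₀ = spc τ' ≫ v := by rw [h₀, PL.comp_pnt, map_pt1, spc_comp]; rfl
  have e1 : τ' c = τ' (i X) - τ' (i (C (β a))) := by rw [hc', map_sub, map_sub]
  have e2 : τ' d = τ' (i X) - τ' (i (C (β a))) - τ' (i (C s)) := by
    rw [hd, map_sub, map_sub, map_add, map_add, map_add, sub_sub]
  have hb := rt_bij n (d * c⁻¹) τ' (e1.symm.trans_ne (c.isUnit.map τ').ne_zero)
    (Eq.trans (by rw [← e1, ← map_mul, Units.val_mul, Units.inv_mul_cancel_right]) e2)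
  obtain ⟨θ, h2, h3, h4⟩ := stalk _ (L'.u (hc h a β s)) ((PB v).obj F) (spc τ') _ hb
  refine ⟨θ, fun y => (h2 y).elim fun a ha => ⟨a, ha⟩, h3, fun g e₀ e f f' hf => ?_⟩
  have e' : spc g ≫ spc τ' = spc τ' := (cancel_mono _).1 ((Category.assoc _ _ _).trans e)
  have hg := spc_fix.1 e'
  have := finite_lifts (km n (d * c⁻¹)) (spc τ')
  have := Finite.of_injective _ hb.1
  refine h4 (sph g e') (fun y => ⟨g y.1, by simpa [hg] using congrArg g y.2⟩)
    (Finite.injective_iff_surjective.1 fun y y' e => Subtype.ext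
      (g.injective (congrArg Subtype.val e))) (fun y => Over.OverMorphism.ext ?_) f f'
    fun y => hf y _ rfl
  refine Eq.trans (congrArg spc (AdjoinRoot.ringHom_ext ?_ ?_)) (spc_comp _ _).symm
  · ext1 b; simp [hg]
  · simp

end Pool.Agent.MP_855f4c_ag.E.W

end
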