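import Pool.Agent.MP_855f4c_ag.EC.Wd
import Pool.Agent.MP_855f4c_ag.EC.Wc
import Pool.Agent.MP_855f4c_ag.EC.Wb
import Pool.Agent.MP_855f4c_ag.EC.F2b
import Pool.Agent.MP_855f4c_ag.EC.F2c
import Pool.Agent.MP_855f4c_ag.EC.E3a
import Pool.Agent.MP_855f4c_ag.EC.F2f
import Pool.Agent.MP_855f4c_ag.EC.Ca

section

set_option backward.isDefEq.respectTransparency false

open Module Matrix
open scoped IntermediateField

namespace Pool.Agent.MP_855f4c_ag.E.W

open H7 Fx TFD

namespace CORE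

variable {p l : ℕ} {k Ω : Type} [Field k] [Field Ω] [Algebra k Ω] {Γ : Gr p l k Ω}
  {G : Subgroup (Ω ≃+* Ω)} {M : Type 1} [AddCommGroup M] {σ : G →* AddMonoid.End M}

lemma fixS (h : GM Γ σ) : ∃ S : Finset Ω, ∀ g : G, (∀ z ∈ S, g.1 z = z) →
    ∀ m, l ^ 1 • m = 0 → σ g m = m := by
  classical
  choose S hS using h.opn
  exact ⟨(h.cof.fin 1).toFinset.biUnion S, fun g hg m hm => hS m g fun z hz =>
    hg z (Finset.mem_biUnion.2 ⟨m, (Set.Finite.mem_toFinset _).2 hm, hz⟩)⟩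

variable [Fact l.Prime]

lemma rep (h : GM Γ σ) (L : Lat l M) {q : ℕ} {K : Type} [Field K] [Algebra k K] [Algebra K Ω]
    [IsScalarTower k K Ω] {D : Cv p q l k K Ω} (hO : Γ.Ov D) (ι : (Ω ≃ₐ[K] Ω) →* G)
    (hι : ∀ g, ⇑(ι g).1 = g) (h1 : ∀ g m, l ^ 1 • m = 0 → σ (ι g) m = m) :
    Rep D.A l ((L.rho σ).comp ι) := by
  refine ⟨fun g a b => ?_, L.repA h.cof fun m => ⟨
    { carrier := {g | σ (ι g) m = m}
      one_mem' := by simp
      mul_mem' := fun {a b} ha hb => by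
        change σ (ι (a * b)) m = m
        rw [map_mul, map_mul]
        exact (congrArg (σ (ι a)) hb).trans ha
      inv_mem' := fun {a} ha => by
        change σ (ι a⁻¹) m = m
        conv_lhs => rw [← ha]
        change (σ (ι a⁻¹) * σ (ι a)) m = m
        rw [← map_mul, ← map_mul, inv_mul_cancel, map_one, map_one]; rfl },
    (hO.adm _).2 ⟨?_, fun x V a1 a2 g hg =>
      h.unr x V (ι g) a1 a2 (hι g ▸ hg) (hι g ▸ fix_const g) m⟩, fun _ hg => hg⟩⟩
  · have := L.dvd (σ (ι g⁻¹) - 1) 1 (fun m hm => sub_eq_zero.2 (h1 _ m hm)) b a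
    rw [map_sub, map_one, map_inv, pow_one] at this
    rw [MonoidHom.comp_apply, Lat.rho_apply, ← Matrix.transpose_one, ← Matrix.transpose_sub]
    exact this
  · obtain ⟨S, hS⟩ := h.opn m
    exact ⟨S, fun g hg => hS (ι g) (hι g ▸ hg)⟩

/-- Coordinates on the dual. -/
noncomputable def du (L : Lat l M) : (Fin L.d → ℚ_[l]) ≃ₗ[ℚ_[l]] Dual ℚ_[l] (V l M) :=
  (dotProductEquiv ℚ_[l] (Fin L.d)).trans L.B.symm.dualMap

lemma du_qx (L : Lat l M) (g : G) (a : Fin L.d → ℚ_[l]) (w : V l M) :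
    du L (WEnd.qx (L.rho σ) g a) w = du L a (Vm l (σ g⁻¹) w) := by
  obtain ⟨v, rfl⟩ := L.B.surjective w
  rw [← L.B_mat]
  change (_ *ᵥ a) ⬝ᵥ L.B.symm _ = a ⬝ᵥ L.B.symm _
  rw [L.B.symm_apply_apply, L.B.symm_apply_apply, Lat.rho_apply, Matrix.transpose_map,
    Matrix.mulVec_transpose, Matrix.dotProduct_mulVec]

/-- The rational form of a lattice representation. -/
noncomputable def qr {H d : Type} [Group H] [Fintype d] [DecidableEq d]
    (ρ : H →* Matrix d d ℤ_[l]) : Representation ℚ_[l] H (d → ℚ_[l]) :=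
  (Matrix.toLinAlgEquiv' : Matrix d d ℚ_[l] ≃ₐ[ℚ_[l]] _).toMonoidHom.comp
    ((algebraMap ℤ_[l] ℚ_[l]).mapMatrix.toMonoidHom.comp ρ)

end CORE

open CORE in
theorem core : CORE_s := by
  classical
  intro p l e _ k Ω _ _ _ Γ G he hG M M₁ M' N _ _ _ _ σ σ₁ σ' i π hM hM' hi hπ hi' hπ' φ V₀ hφ hV
    hφV j t B C hB ht hS c Φ hc hΦ hu
  obtain ⟨S1, h1⟩ := fixS hM
  obtain ⟨S2, h2⟩ := fixS hM'
  obtain ⟨K, D, hX, hE, hO, hD, huV⟩ := Gr.exists_level ⟨e, he, rfl⟩ hφ hV hφV (S1 ∪ S2)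
  let rs : (Ω ≃ₐ[K] Ω) → Ω ≃ₐ[k⟮Γ.X⟯] Ω := fun g =>
    { g.toRingEquiv with
      commutes' := fun a => g.commutes ⟨a.1, IntermediateField.adjoin_simple_le_iff.2 hX a.2⟩ }
  let ι : (Ω ≃ₐ[K] Ω) →* G := (ι0 K Ω).codRestrict G fun g => hG (rs g)
  obtain ⟨L⟩ := exLat hM.cof
  obtain ⟨L'⟩ := exLat hM'.cof
  have hN := hM.cof.sub c hc
  obtain ⟨LN⟩ := exLat hN
  have := hN.finiteDimensional
  have inj : ∀ {A A' : Type 1} [AddCommGroup A] [AddCommGroup A'] {f : A →+ A'},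
      Function.Injective f → Function.Injective (Vm l f) := fun hf =>
    V_inj 0 fun m hm => by rw [hf (hm.trans (map_zero _).symm), smul_zero]
  have sur : Function.Surjective (Vm l π) := V_surj (hM'.cof.sub i hi) 0 fun _ => hπ _
  choose x W a1 a2 a3 a4 a5 using hO.spec (hD ▸ hφ)
  have key := fun m (hm : 0 < m) (y : D.U m) => ht m (x m y) (W m y) (φ ^ m * ι (D.f m y)) hm
    ((hφ.pow m).mul (rs (D.f m y))) (a1 m y) (a3 m y) (by have := a5 m y; rw [hD] at this; exact this)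
  obtain ⟨C0, hC0⟩ := hO.sum_le
  let P : Submodule ℚ_[l] ((Fin L'.d → ℚ_[l]) × (Fin L.d → ℚ_[l])) := LinearMap.eqLocus
    ((Vm l i).dualMap ∘ₗ (du L').toLinearMap ∘ₗ LinearMap.fst _ _ _)
    ((Vm l π).dualMap ∘ₗ (du L).toLinearMap ∘ₗ LinearMap.snd _ _ _)
  have hP : ∀ a, a ∈ P ↔ ∀ w, du L' a.1 (Vm l i w) = du L a.2 (Vm l π w) := fun a =>
    LinearMap.ext_iff
  let c' : (Fin L.d → ℚ_[l]) →ₗ[ℚ_[l]] Fin LN.d → ℚ_[l] :=
    (du LN).symm.toLinearMap ∘ₗ (Vm l c).dualMap ∘ₗ (du L).toLinearMap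
  have hc' : ∀ a w, du LN (c' a) w = du L a (Vm l c w) := fun a w =>
    LinearMap.congr_fun ((du LN).apply_symm_apply _) w
  have fin := D.wendQ ι φ (fun g => Subtype.ext (by have := D.hα0 g; rw [hD] at this; exact this)) j (L'.rho σ')
    (rep hM' L' hO ι (fun _ => rfl) fun g => h2 _ fun z hz =>
      g.commutes ⟨z, hE z (Finset.mem_union_right _ hz)⟩)
    (fun m hm y => (congrArg (fun a => (j a).im) (L'.tr_rho σ' _)).trans (key m hm y).1) (L.rho σ)
    (rep hM L hO ι (fun _ => rfl) fun g => h1 _ fun z hz =>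
      g.commutes ⟨z, hE z (Finset.mem_union_left _ hz)⟩)
    (((qr (L'.rho σ')).prod (qr (L.rho σ))).subrepresentation P fun g a ha => (hP _).2 fun w =>
      (du_qx L' g a.1 _).trans ((congrArg _ (LinearMap.congr_fun (Vm_inter fun m =>
        (hi' g⁻¹ m).symm) w)).trans (((hP a).1 ha _).trans ((congrArg _ (LinearMap.congr_fun
          (Vm_inter fun m => (hπ' g⁻¹ m).symm) w).symm).trans (du_qx L g a.2 _).symm))))
    (LinearMap.fst _ _ _ ∘ₗ P.subtype) ?_ (fun _ => rfl) (LinearMap.snd _ _ _ ∘ₗ P.subtype) ?_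
    (fun _ => rfl) (C := |C0| * C) (Real.sqrt_pos.2 hB) ?_
    ((du LN).symm.conj (Vm l Φ).dualMap) c' ?_ ?_ ?_
  · exact EvL.of_dual (EvL.quo (evL_iff.2 fun z hz =>
      (Real.le_sqrt (norm_nonneg z) hB.le).1 (fin z hz)) (du LN).toLinearMap (du LN).surjective
      (LinearMap.ext fun a => by simp))
  · intro a b h
    refine Subtype.ext (Prod.ext h ((du L).injective (LinearMap.ext fun w => ?_)))
    obtain ⟨w, rfl⟩ := sur w
    rw [← (hP _).1 a.2, ← (hP _).1 b.2]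
    exact congrArg (du L' · _) h
  · intro b
    obtain ⟨f, hf⟩ := LinearMap.dualMap_surjective_of_injective (inj hi) ((Vm l π).dualMap (du L b))
    obtain ⟨a, rfl⟩ := (du L').surjective f
    exact ⟨⟨(a, b), hf⟩, rfl⟩
  · intro m hm
    refine (hC0 m (Finset.univ.image (x m)) _ (fun y => ‖t m y‖ ^ 2) (fun _ => sq_nonneg _)
      fun y => ⟨x m y, Finset.mem_image_of_mem _ (Finset.mem_univ y), ?_, W m y, a3 m y,
        a4 m y⟩).trans ?_
    · exact (congrArg (‖·‖ ^ 2) ((congrArg j (L.tr_rho σ _)).trans (key m hm y).2)).le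
    · rw [Real.sq_sqrt hB.le, mul_assoc]
      refine (mul_le_mul_of_nonneg_right (le_abs_self _)
        (Finset.sum_nonneg fun _ _ => sq_nonneg _)).trans (mul_le_mul_of_nonneg_left
          (hS m _ hm fun y hy => ?_) (abs_nonneg _))
      obtain ⟨y, -, rfl⟩ := Finset.mem_image.1 hy
      exact ⟨a1 m y, a2 m y⟩
  · exact (du LN).symm.surjective.comp
      ((LinearMap.dualMap_surjective_of_injective (inj hc)).comp (du L).surjective)
  · refine LinearMap.ext fun a => (du LN).injective (LinearMap.ext fun w => ?_)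
    rw [LinearMap.comp_apply, hc', hc', du_qx]
    refine congrArg _ (V.ext fun y => ?_)
    change σ _ (c _) = c _
    conv_lhs => rw [← hu (ι D.u) huV (fix_const D.u)]
    change (σ _ * σ _) _ = _
    rw [← map_mul, inv_mul_cancel, map_one]; rfl
  · refine LinearMap.ext fun a => (du LN).injective (LinearMap.ext fun w => ?_)
    rw [LinearMap.comp_apply, hc', du_qx, LinearMap.comp_apply, LinearEquiv.conj_apply_apply,
      LinearEquiv.symm_symm, LinearEquiv.apply_symm_apply, LinearMap.dualMap_apply, hc']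
    exact congrArg _ (V.ext fun y => (hΦ _).symm)

end Pool.Agent.MP_855f4c_ag.E.W

end

section

set_option backward.isDefEq.respectTransparency false

open CategoryTheory Limits Opposite AlgebraicGeometry Polynomial

namespace Pool.Agent.MP_855f4c_ag.E.W

open E3 E4 H7 FIN

namespace SPEC

variable {k Ω : Type} [Field k] [Field Ω] [Algebra k Ω] {ξ : Ω}

lemma den {w : Ω} {z : Ω} (h : IsAlgebraic (Algebra.adjoin k {z}) w) :
    ∃ f : k[X], f ≠ 0 ∧ ∀ V : ValuationSubring Ω, (∀ c : k, algebraMap k Ω c ∈ V) → z ∈ V →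
      aeval z f ∉ V.nonunits → w ∈ V := by
  obtain ⟨⟨a, ha⟩, a0, hi⟩ := h.exists_integral_multiple
  obtain ⟨f, rfl⟩ := (Algebra.adjoin_singleton_eq_range_aeval k _).le ha
  refine ⟨f, fun e => a0 (Subtype.ext (by simp [e])), fun V hk hz hf => ?_⟩
  have h5 : aeval z f * w ∈ V := val_int (O := Algebra.adjoin k {z}) V
    (fun o => adjoin_mem hk (s := {z}) (fun _ hx => hx ▸ hz) o.2) hi
  have := V.mul_mem _ _ (nu_inv hf).2 h5
  rwa [inv_mul_cancel_left₀ (nu_inv hf).1] at this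

lemma res (G : Gen k ξ) {V : ValuationSubring Ω} (hV : V ≠ ⊤)
    (hk : ∀ c : k, algebraMap k Ω c ∈ V) (z : Ω) (hz : z ∈ V) :
    ∃ c : k, z - algebraMap k Ω c ∈ V.nonunits := by
  have := G.ck
  by_contra h
  push Not at h
  have h1 : ∀ f : k[X], f ≠ 0 → aeval z f ∉ V.nonunits := fun f hf => by
    rw [(IsAlgClosed.splits f).eq_prod_roots, map_mul, aeval_C]
    refine nu_prime (fun h => hf (leadingCoeff_eq_zero.1 (nu_const hk h))) ?_
    induction f.roots using Multiset.induction with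
    | empty => simpa only [Multiset.map_zero, Multiset.prod_zero, map_one] using nu_one
    | cons a s ih =>
      rw [Multiset.map_cons, Multiset.prod_cons, map_mul, map_sub, aeval_X, aeval_C]
      exact nu_prime (h a) ih
  have h3 := IsAlgebraic.adjoin_singleton G.tr (fun ⟨f, hf, e⟩ => h1 f hf (e ▸ nu_zero)) (G.alg z)
  refine hV (eq_top_iff.2 fun w _ => ?_)
  obtain ⟨f, f0, hf⟩ := den (z := z)
    (IsAlgebraic.adjoin_of_forall_isAlgebraic (fun x hx => hx.1 ▸ h3) (G.alg w))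
  exact hf V hk hz (h1 f f0)

lemma exists_red (G : Gen k ξ) {V : ValuationSubring Ω} (hV : V ≠ ⊤)
    (hk : ∀ c : k, algebraMap k Ω c ∈ V) :
    ∃ red : V →+* k, ∀ (z : V) (c : k), red z = c ↔ z.1 - algebraMap k Ω c ∈ V.nonunits := by
  let ι : k →+* V := (algebraMap k Ω).codRestrict V.toSubring hk
  have h1 : ∀ (z : V) (c : k), IsLocalRing.residue V z = IsLocalRing.residue V (ι c) ↔
      z.1 - algebraMap k Ω c ∈ V.nonunits := fun z c =>
    Ideal.Quotient.eq.trans (ValuationSubring.coe_mem_nonunits_iff (a := z - ι c)).symm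
  have h2 : Function.Bijective ((IsLocalRing.residue V).comp ι) := ⟨RingHom.injective _, fun y => by
    obtain ⟨z, rfl⟩ := IsLocalRing.residue_surjective y
    obtain ⟨c, hc⟩ := res G hV hk z.1 z.2
    exact ⟨c, ((h1 z c).2 hc).symm⟩⟩
  exact ⟨(RingEquiv.ofBijective _ h2).symm.toRingHom.comp (IsLocalRing.residue V), fun z c =>
    (RingEquiv.ofBijective _ h2).symm_apply_eq.trans (h1 z c)⟩

lemma aic [IsAlgClosed Ω] (V : ValuationSubring Ω) : Aic V := fun p hp hd => by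
  obtain ⟨z, hz⟩ := IsAlgClosed.exists_aeval_eq_zero_of_injective Ω (R := V)
    Subtype.val_injective p (fun h => hd (natDegree_eq_of_degree_eq_some h))
  obtain ⟨y, rfl⟩ := IsIntegrallyClosed.isIntegral_iff.1 (⟨p, hp, hz⟩ : IsIntegral V z)
  rw [aeval_algebraMap_apply, map_eq_zero_iff _ Subtype.val_injective] at hz
  exact ⟨y, hz⟩

lemma spc_spc {X : Scheme.{0}} {A B C : Type} [CommRing A] [CommRing B] [CommRing C] {φ : A →+* B}
    {ψ : B →+* C} {χ : A →+* C} (e : ψ.comp φ = χ) (u : Spec (.of A) ⟶ X) :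
    spc ψ ≫ spc φ ≫ u = spc χ ≫ u := by
  rw [← Category.assoc, ← Spec.map_comp, ← CommRingCat.ofHom_comp, e]

lemma fix {X : Scheme.{0}} {R : Type} [CommRing R] {τ : R →+* Ω} {u : Spec (.of R) ⟶ X} [Mono u]
    {g : Ω →+* Ω} (hg : spc g ≫ spc τ ≫ u = spc τ ≫ u) (r : R) : g (τ r) = τ r := by
  rw [spc_spc rfl, cancel_mono] at hg
  exact congrArg (fun f => f.hom r) (Spec.map_injective hg)

end SPEC

open SPEC

theorem spec : SPEC_s := by
  intro l k Ω _ _ _ ξ x V G hV hl R _ τ τΩ hτ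
  have := G.ck
  have := G.cl
  obtain ⟨red, hred⟩ := exists_red G (hV.ne_top G.tr) hV.1
  have hA := aic V
  have hlV : IsUnit (l : V) := by
    simpa using (IsUnit.mk0 _ hl).map ((algebraMap k Ω).codRestrict V.toSubring hV.1)
  have hm : ∀ r, τΩ r ∈ V := fun r => by
    simpa using V.add_mem _ _ (V.nonunits_subset (hτ r)) (hV.1 (τ r))
  let τV : R →+* V := τΩ.codRestrict V.toSubring hm
  have hloc : IsLocalHom red := ⟨fun a ha => by
    by_contra h
    exact ha.ne_zero ((hred a 0).2 (by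
      simpa using (ValuationSubring.coe_mem_nonunits_iff (a := a)).2 h))⟩
  have e2 : red.comp τV = τ := RingHom.ext fun r => (hred _ _).2 (hτ r)
  refine ⟨hA, hlV, τV, red, hloc, rfl, e2, ?_⟩
  rintro X u _ P _ _ _ rfl hP rfl rfl
  have := hA.shl
  have h := spc_spc e2 u
  let B := AddEquiv.ofBijective (P.map (sph red h).op).hom (hP V k red _ _ h hlV)
  refine ⟨(P.map (sph (algebraMap V Ω) rfl).op).hom.comp B.symm.toAddMonoidHom,
    fun H => H.comp B.symm.injective, fun H => H.comp B.symm.surjective, ?_⟩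
  intro g hg ψ hψ hs hk y
  obtain ⟨t, rfl⟩ := B.surjective y
  let g' : V →+* V := ((g : Ω →+* Ω).comp V.subtype).codRestrict V.toSubring fun a => (hs _).2 a.2
  have h0 := spc_spc (φ := τV) (ψ := algebraMap V Ω) (χ := τΩ) rfl u
  have h1 : spc g' ≫ spc τV ≫ u = spc τV ≫ u :=
    spc_spc (RingHom.ext fun r => Subtype.ext (fix (h0 ▸ hg) r)) u
  have h2 : red.comp g' = ψ.comp red := RingHom.ext fun a => (hred _ _).2 (by
    have := (nu_map (g : Ω →+* Ω) hs _).2 ((hred a _).1 rfl)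
    rwa [RingHom.coe_coe, map_sub, hk] at this)
  have h3 : spc (ψ.comp red) ≫ spc τV ≫ u = spc τ ≫ u :=
    ((spc_spc rfl _).symm.trans (congrArg _ h)).trans hψ
  have h4 : pa P ψ hψ (B t) = B (P.map (sph g' h1).op t) :=
    (sph_sph rfl h hψ h3 t).trans (sph_sph h2 h1 h h3 t).symm
  have h5 : spc ((g : Ω →+* Ω).comp (algebraMap V Ω)) ≫ spc τV ≫ u =
      spc (algebraMap V Ω) ≫ spc τV ≫ u := (spc_spc rfl _).symm.trans hg
  rw [h4]
  change P.map _ (B.symm (B _)) = pa P _ hg (P.map _ (B.symm (B _)))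
  rw [B.symm_apply_apply, B.symm_apply_apply]
  exact (sph_sph (φ := g') (ψ := algebraMap V Ω) (RingHom.ext fun _ => rfl) h1 rfl h5 t).trans
    (sph_sph (φ := algebraMap V Ω) rfl rfl hg h5 t).symm

theorem lim : LIM_s := by
  classical
  rintro k Ω _ _ _ ξ G R _ τΩ X u _ P _ hP rfl m
  let _ := τΩ.toAlgebra
  obtain ⟨S, _, rfl, hg, t, rfl⟩ := hP.union_surj
    (fun S : Finset Ω => Algebra.adjoin R (S : Set Ω))
    (Monotone.directed_le fun _ _ h => Algebra.adjoin_mono h)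
    (fun z => ⟨{z}, Algebra.subset_adjoin (Finset.mem_singleton_self z)⟩) (a := u) rfl m
  refine ⟨⟨S, fun g h1 h2 => sph_sph (RingHom.ext ?_) hg h1 hg t⟩, ?_⟩
  · rintro ⟨a, ha⟩
    change g a = a
    induction ha using Algebra.adjoin_induction with
    | mem z hz => exact h2 z hz
    | algebraMap r => exact fix h1 r
    | add x y _ _ hx hy => rw [map_add, hx, hy]
    | mul x y _ _ hx hy => rw [map_mul, hx, hy]
  · choose f f0 hf using fun z => den (G.alg z)
    refine ⟨∏ z ∈ S, f z, Finset.prod_ne_zero_iff.2 fun z _ => f0 z, ?_⟩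
    rintro x V τV _ e hV hx h1 rfl
    rw [eval_prod, Finset.prod_ne_zero_iff] at hx
    have h2 : ∀ a : Algebra.adjoin R (S : Set Ω), a.1 ∈ V := by
      rintro ⟨a, ha⟩
      change a ∈ V
      induction ha using Algebra.adjoin_induction with
      | mem z hz =>
        exact hf z V hV.1 (by simpa using (nu_aeval hV.1 hV.2 Polynomial.X).1)
          (mt (nu_aeval hV.1 hV.2 _).2.1 (hx z hz))
      | algebraMap r => exact (RingHom.congr_fun h1 r) ▸ (τV r).2
      | add x y _ _ hx hy => exact V.add_mem _ _ hx hy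
      | mul x y _ _ hx hy => exact V.mul_mem _ _ hx hy
    let φ : Algebra.adjoin R (S : Set Ω) →+* V :=
      (algebraMap _ Ω).codRestrict V.toSubring h2
    exact ⟨_, sph_sph (φ := φ) rfl (spc_spc (RingHom.ext fun r =>
      Subtype.ext (RingHom.congr_fun h1 r).symm) u) e hg t⟩

end Pool.Agent.MP_855f4c_ag.E.W

end

section

set_option backward.isDefEq.respectTransparency false

open CategoryTheory Limits Abelian Opposite AlgebraicGeometry Polynomial

namespace Pool.Agent.MP_855f4c_ag.E.W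

open E3 E4 H7

namespace FAM

variable {S : Scheme.{0}} (L : PL S)

lemma proper : IsProper L.π := MorphismProperty.of_isPullback (P := @IsProper) L.sq P1D.prop

lemma lfp {G : Sh (Scheme.etaleTopology.over L.P)} (hG : LFP G.obj) (q : ℕ) : LFP (HB L.π G q) :=
  have := proper L
  lim_pb L.π hG q

lemma rig (pb : PBC_s) {l : ℕ} [Fact l.Prime] {G : Sh (Scheme.etaleTopology.over L.P)} (hG : Tc l G) (q : ℕ) :
    Rig l (HB L.π G q) :=
  (Rig.of_locBij (toSheafify (Scheme.etaleTopology.over S) (HB L.π G q))).2 (pb l S L G q hG).1.2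

lemma tors {X : Scheme.{0}} (l : ℕ) (E : Sh (Scheme.etaleTopology.over X)) (T : Over X) (q : ℕ)
    (x : H T (kernel ((l : ℤ) • 𝟙 E)) q) : l • x = 0 := by
  have h : (l : ℤ) • 𝟙 (kernel ((l : ℤ) • 𝟙 E)) = 0 := by
    rw [← cancel_mono (kernel.ι _), Limits.zero_comp, Preadditive.zsmul_comp, Category.id_comp,
      ← kernel.condition ((l : ℤ) • 𝟙 E), Preadditive.comp_zsmul, Category.comp_id]
  let φ : (kernel ((l : ℤ) • 𝟙 E) ⟶ kernel ((l : ℤ) • 𝟙 E)) →+ H T (kernel ((l : ℤ) • 𝟙 E)) q :=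
    AddMonoidHom.mk' (fun a => x.comp (Ext.mk₀ a) (add_zero q)) fun a b => by
      rw [Ext.mk₀_add, Ext.comp_add]
  have h1 : φ (𝟙 _) = x := Ext.comp_mk₀_id x
  rw [← h1, ← natCast_zsmul, ← map_zsmul, h, map_zero]

end FAM

theorem fam (pb : PBC_s) (dg : DEG_s) (gc : GdCof_s) (ga : GDAB_s) (sp : SPEC_s) (li : LIM_s)
    (g0 : GL0_s) : FAM_s := by
  classical
  intro l _ R _ L h E hh hE k Ω _ _ _ ξ hξ hl τ τΩ h₀ hh₀ hτ h2
  have := hξ.ck
  have := hξ.cl
  have hK : Gd l L h (kernel ((l : ℤ) • 𝟙 E)) := (ga l R L h E E _ hE hE).1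
  refine ⟨fun m => ?_, ?_⟩
  · obtain ⟨S, hS⟩ := (li k Ω ξ hξ R τΩ _ (𝟙 _) (HB L.π E 1) (spc τΩ) (FAM.lfp L hE.1.1.1 1)
      (Category.comp_id _).symm m).1
    exact ⟨S, fun g hg => hS g.1 g.2 hg⟩
  have hlΩ : (l : Ω) ≠ 0 := by
    rw [← map_natCast (algebraMap k Ω)]
    exact (_root_.map_ne_zero _).2 hl
  have hfin : Finite (H (fbr L.π (spc τΩ)) (kernel ((l : ℤ) • 𝟙 E)) 1) :=
    Set.finite_univ_iff.1 (((gc l R L h _ hh hK Ω (spc τΩ) hlΩ).2 1).2.subset
      fun x _ => FAM.tors l E _ 1 x)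
  have := Fintype.ofFinite (H (fbr L.π (spc τΩ)) (kernel ((l : ℤ) • 𝟙 E)) 1)
  choose f hf hf' using fun m : H (fbr L.π (spc τΩ)) (kernel ((l : ℤ) • 𝟙 E)) 1 =>
    (li k Ω ξ hξ R τΩ _ (𝟙 _) (HB L.π (kernel ((l : ℤ) • 𝟙 E)) 1) (spc τΩ)
      (FAM.lfp L hK.1.1.1 1) (Category.comp_id _).symm m).2
  refine ⟨h₀ * ∏ m, f m, mul_ne_zero hh₀ (Finset.prod_ne_zero_iff.2 fun m _ => hf m),
    fun x V hV => ?_⟩
  obtain ⟨hA, hu, τV, red, _, e1, e2, hc⟩ := sp l k Ω ξ x V hξ hV hl R (τ x) τΩ (hτ x V hV)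
  have e : spc (algebraMap V Ω) ≫ spc τV = spc τΩ := by
    rw [← Spec.map_comp, ← CommRingCat.ofHom_comp, e1]
  have e' : spc red ≫ spc τV = spc (τ x) := by
    rw [← Spec.map_comp, ← CommRingCat.ofHom_comp, e2]
  obtain ⟨c, c1, c2, c3⟩ := hc _ (𝟙 _) (HB L.π E 1) _ _ _ e (FAM.rig L pb hE.1 1)
    (Category.comp_id _).symm (Category.comp_id _).symm
  refine ⟨c, c1 fun _ _ h' => dg l R L h E hh hE V Ω _ _ e hA hu h', fun hx => c2 ?_,
    fun g ψ hψ => c3 g.1 g.2 ψ hψ⟩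
  rw [eval_mul, eval_prod, mul_ne_zero_iff, Finset.prod_ne_zero_iff] at hx
  have := hA.shl
  refine fun m => (g0 l R L h E hh hE V Ω _ _ e hA hu (fun y => ?_) (fun m =>
    (hf' m x V τV _ e hV (hx.2 m (Finset.mem_univ _)) e1 (Category.comp_id _).symm).elim
      fun y hy => ⟨y, hy⟩) m).elim fun y hy => ⟨y, hy⟩
  exact (FAM.rig L pb hK.1 2 V k red _ _ e' hu).1 ((h2 x hx.1 _).trans (map_zero _).symm)

end Pool.Agent.MP_855f4c_ag.E.W

end

section

namespace Pool.Agent.MP_855f4c_ag.E.W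

namespace LTWO

variable {k : Type} [Field k]

lemma card_le (κ : Subfield k) {q : ℕ} (hq : 1 < q) (hκ : ∀ c, c ∈ κ ↔ c ^ q = c) :
    Finite κ ∧ Nat.card κ ≤ q := by
  classical
  have hP : (Polynomial.X ^ q - Polynomial.X : Polynomial k) ≠ 0 :=
    FiniteField.X_pow_card_sub_X_ne_zero k hq
  have hs : (κ : Set k) =
      ((Polynomial.X ^ q - Polynomial.X : Polynomial k).roots.toFinset : Set k) := by
    ext c
    simp [hκ, Polynomial.mem_roots hP, sub_eq_zero]
  have hf : (κ : Set k).Finite := hs ▸ Finset.finite_toSet _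
  refine ⟨hf, ?_⟩
  change Nat.card (κ : Set k) ≤ q
  rw [hs, Nat.card_coe_set_eq, Set.ncard_coe_finset]
  exact (Multiset.toFinset_card_le _).trans ((Polynomial.card_roots' _).trans
    (FiniteField.X_pow_card_sub_X_natDegree_eq k hq).le)

lemma card_eq (κ : Subfield k) {q : ℕ} (hκ : ∀ c, c ∈ κ ↔ c ^ q = c) (n : ℕ) (a : k) (s x : κ)
    (hx : x ≠ 0) :
    Nat.card {y : κ // y ^ n = 1 - s * x} =
      Nat.card {y : k // y ^ n * (a + (x : k)⁻¹ - a) = a + (x : k)⁻¹ - a - s ∧ y ^ q = y} := by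
  have hx' : (x : k) ≠ 0 := fun h => hx (Subtype.ext h)
  have key : ∀ y : k, y ^ n * (a + (x : k)⁻¹ - a) = a + (x : k)⁻¹ - a - s ↔ y ^ n = 1 - s * x := by
    intro y
    rw [add_sub_cancel_left, mul_inv_eq_iff_eq_mul₀ hx', sub_mul, inv_mul_cancel₀ hx']
  refine Nat.card_congr
    ⟨fun y => ⟨y.1, (key _).2 (by exact_mod_cast congrArg Subtype.val y.2), (hκ _).1 y.1.2⟩,
      fun y => ⟨⟨y.1, (hκ _).2 y.2.2⟩, Subtype.ext (by push_cast; exact (key _).1 y.2.1)⟩,
      fun _ => rfl, fun _ => rfl⟩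

end LTWO

theorem ltwo : LTWO_s := by
  intro k _ _ p e n _ hp he hn h a ha haq t B hB ht W S hW hS
  classical
  have := Fact.mk hp
  have hq : 1 < p ^ e := Nat.one_lt_pow he hp.one_lt
  obtain ⟨κ, hκ⟩ : ∃ κ : Subfield k, ∀ c, c ∈ κ ↔ c ^ p ^ e = c :=
    ⟨(iterateFrobenius k p e).eqLocusField (RingHom.id k), fun c => Iff.rfl⟩
  obtain ⟨hfin, hcard⟩ := LTWO.card_le κ hq hκ
  have := Fintype.ofFinite κ
  rw [Nat.card_eq_fintype_card] at hcard
  have hcard' : (Fintype.card κ : ℝ) ≤ ((p ^ e : ℕ) : ℝ) := by exact_mod_cast hcard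
  have hak : a ∈ κ := (hκ a).2 haq
  set f : κ → ℂ := fun x => if x ≠ 0 ∧ h.eval (a + (x : k)⁻¹) ≠ 0 then t (a + (x : k)⁻¹) else 0
    with hf
  have hfB : ∀ x, ‖f x‖ ^ 2 ≤ B := fun x => by
    simp only [hf]
    split_ifs with hx
    · exact ht _ hx.2 ((hκ _).1 (κ.add_mem hak (κ.inv_mem x.2)))
    · simpa using hB
  have h0 : (0 : κ) ∉ W.subtype (· ∈ κ) := fun h0 => (hW _ (Finset.mem_subtype.1 h0)).1 rfl
  have hc := Planch.chi' hn f (W.subtype (· ∈ κ)) h0
  have hin : ∀ s : κ, (s : k) ∈ W → ∑ x, f x * ((Nat.card {y : κ // y ^ n = 1 - s * x} : ℂ) - 1) =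
      ∑ x ∈ S s, ((Nat.card {y : k // y ^ n * (x - a) = x - a - s ∧ y ^ p ^ e = y} : ℂ) - 1) *
        t x := fun s hs => by
    rw [← Finset.sum_filter_of_ne
      (p := fun x : κ => (x ≠ 0 ∧ h.eval (a + (x : k)⁻¹) ≠ 0) ∧ 1 - s * x ≠ 0)]
    · refine Finset.sum_nbij (fun x => a + (x : k)⁻¹) (fun x hx => ?_) (fun x _ y _ hxy => ?_)
        (fun x hx => ?_) fun x hx => ?_
      · obtain ⟨⟨h1, h2⟩, h3⟩ := (Finset.mem_filter.1 hx).2
        refine (hS s hs _).2 ⟨⟨h2, fun h4 => h3 (Subtype.ext ?_)⟩,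
          (hκ _).1 (κ.add_mem hak (κ.inv_mem x.2))⟩
        have h5 : (x : k) ≠ 0 := fun h => h1 (Subtype.ext h)
        push_cast
        rw [← add_left_cancel h4, inv_mul_cancel₀ h5, sub_self]
      · exact Subtype.ext (inv_injective (add_left_cancel hxy))
      · obtain ⟨⟨h1, h2⟩, h3⟩ := (hS s hs x).1 hx
        have h4 : x - a ≠ 0 := sub_ne_zero.2 fun h => h1 (h ▸ ha)
        have h5 : a + (x - a)⁻¹⁻¹ = x := by rw [inv_inv, add_sub_cancel]
        refine ⟨⟨(x - a)⁻¹, κ.inv_mem (κ.sub_mem ((hκ x).2 h3) hak)⟩, ?_, h5⟩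
        refine Finset.mem_coe.2
          (Finset.mem_filter.2 ⟨Finset.mem_univ _, ⟨fun h => ?_, ?_⟩, fun h => ?_⟩)
        · exact inv_ne_zero h4 (congrArg Subtype.val h)
        · rwa [h5]
        · have h6 : (1 : k) - s * (x - a)⁻¹ = 0 := congrArg Subtype.val h
          rw [sub_eq_zero, eq_mul_inv_iff_mul_eq₀ h4, one_mul] at h6
          exact h2 (by rw [← h6, add_sub_cancel])
      · obtain ⟨h1, -⟩ := (Finset.mem_filter.1 hx).2
        rw [LTWO.card_eq κ hκ n a s x h1.1, mul_comm]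
        simp only [hf]
        rw [if_pos h1]
    · intro x _ hx
      refine ⟨by_contra fun h1 => hx ?_, fun h1 => hx ?_⟩
      · simp only [hf]
        rw [if_neg h1, zero_mul]
      · simp [h1, hn.ne']
  have hW' : ∀ s ∈ W, s ∈ κ := fun s hs => (hκ s).2 (hW s hs).2
  rw [← Finset.sum_subtype_of_mem _ hW']
  refine le_trans (le_of_eq (Finset.sum_congr rfl fun s hs => ?_)) (hc.trans ?_)
  · rw [hin s (Finset.mem_subtype.1 hs)]
  · have h1 : ∑ x, ‖f x‖ ^ 2 ≤ ((p ^ e : ℕ) : ℝ) * B :=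
      (Finset.sum_le_card_nsmul _ _ _ fun x _ => hfB x).trans (by
        rw [nsmul_eq_mul, Finset.card_univ]
        exact mul_le_mul_of_nonneg_right hcard' hB)
    calc (n : ℝ) ^ 2 * Fintype.card κ * ∑ x, ‖f x‖ ^ 2
        ≤ (n : ℝ) ^ 2 * ((p ^ e : ℕ) : ℝ) * (((p ^ e : ℕ) : ℝ) * B) := by gcongr
      _ = _ := by ring

end Pool.Agent.MP_855f4c_ag.E.W

end

section

set_option backward.isDefEq.respectTransparency false

open Polynomial
open scoped IntermediateField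

namespace Pool.Agent.MP_855f4c_ag.E.W

open E4 H7

lemma exists_cen {Ω : Type} [Field Ω] (C : Subring Ω) (a : Ideal C) [a.IsPrime] :
    ∃ V : ValuationSubring Ω, (∀ c : C, c.1 ∈ V) ∧ ∀ c : C, c.1 ∈ V.nonunits ↔ c ∈ a := by
  obtain ⟨V, hV⟩ := (LocalSubring.ofPrime C a).exists_le_valuationSubring
  have h1 := LocalSubring.le_ofPrime C a
  refine ⟨V, fun c => hV.1 (h1 c.2), fun c => ?_⟩
  have := hV.2
  rw [← IsLocalization.AtPrime.to_map_mem_maximal_iff (LocalSubring.ofPrime C a).toSubring a c,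
    IsLocalRing.mem_maximalIdeal, mem_nonunits_iff,
    ← isUnit_map_iff (Subring.inclusion hV.1), ← mem_nonunits_iff]
  exact V.coe_mem_nonunits_iff (a := ⟨c.1, hV.1 (h1 c.2)⟩)

theorem dict : DICT_s := by
  intro p l k Ω B _ _ _ Γ h a _ _ _ _ h1 h2 h3
  have := Γ.closed
  have := Γ.closedΩ
  have G : Gen k Γ.X := ⟨Γ.closed, Γ.closedΩ, Γ.tr, Γ.algX⟩
  have hγ : ∀ f : k[X], algebraMap B Ω (algebraMap k[X] B f) =
      aeval Γ.X (f.comp (X + C a)) := fun f => by
    induction f using Polynomial.induction_on' with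
    | add u v hu hv => simp only [map_add, add_comp, hu, hv]
    | monomial n c => rw [← C_mul_X_pow_eq_monomial]; simp [h1, h2]
  have hγ' : ∀ f : k[X], aeval Γ.X f = algebraMap B Ω (algebraMap k[X] B (f.comp (X - C a))) :=
    fun f => by simp [hγ, comp_assoc]
  have hu : algebraMap B Ω (algebraMap k[X] B h) ≠ 0 :=
    ((IsLocalization.Away.algebraMap_isUnit h).map (algebraMap B Ω)).ne_zero
  have hB : ∀ b : B, ∃ (n : ℕ) (f : k[X]), algebraMap B Ω b = algebraMap B Ω (algebraMap k[X] B f) *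
      (algebraMap B Ω (algebraMap k[X] B h))⁻¹ ^ n := fun b => by
    obtain ⟨n, f, e⟩ := IsLocalization.Away.surj h b
    exact ⟨n, f, by rw [← e, map_mul, map_pow, mul_assoc, ← mul_pow, mul_inv_cancel₀ hu, one_pow,
      mul_one]⟩
  let e : (Ω ≃ₐ[k⟮Γ.X⟯] Ω) ≃* (Ω ≃ₐ[B] Ω) :=
    { toFun g := { g.toRingEquiv with
        commutes' b := by
          obtain ⟨n, f, e⟩ := hB b
          change g _ = _
          rw [e, map_mul, map_pow, map_inv₀, hγ, hγ, Gr.fix_aeval, Gr.fix_aeval] }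
      invFun g := { g.toRingEquiv with
        commutes' := by
          rintro ⟨z, hz⟩
          obtain ⟨r, s, rfl⟩ := (IntermediateField.mem_adjoin_simple_iff k _).1 hz
          change g (_ / _) = _ / _
          rw [map_div₀, hγ', hγ', g.commutes, g.commutes] }
      left_inv _ := rfl
      right_inv _ := rfl
      map_mul' _ _ := rfl }
  refine ⟨e, fun _ _ => rfl, fun M => ⟨fun ⟨⟨E, hE⟩, hM⟩ => ⟨⟨E, fun g hg => hE _ hg⟩,
    fun P _ g hg => ?_⟩, fun ⟨⟨E, hE⟩, hM⟩ => ⟨⟨E, fun g hg => hE (e g) hg⟩,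
    fun x V hx hV g hg => ?_⟩⟩⟩
  · obtain ⟨V, v1, v2⟩ := exists_cen (integralClosure B Ω).toSubring P
    have vB : ∀ b, algebraMap B Ω b ∈ V := fun b => v1 ⟨_, isIntegral_algebraMap⟩
    have vk : ∀ c, algebraMap k Ω c ∈ V := fun c => h1 c ▸ vB _
    have hi : ∀ c, IsIntegral B c → g c - c ∈ V.nonunits := fun c hc =>
      (v2 _).2 (hg ⟨c, hc⟩ ⟨g c, hc.map g⟩ rfl)
    let _ : Algebra k[X] Ω := ((algebraMap B Ω).comp (algebraMap k[X] B)).toAlgebra
    have : IsScalarTower k[X] B Ω := .of_algebraMap_eq fun _ => rfl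
    have inj : Function.Injective (algebraMap k[X] Ω) := (injective_iff_map_eq_zero _).2 fun f hf =>
      by_contra fun h0 => Γ.tr ⟨_, fun e0 => h0 (by
        have := congrArg (·.comp (X - C a)) e0
        simp only [comp_assoc] at this
        simpa using this), (hγ f).symm.trans hf⟩
    have : Algebra.IsAlgebraic k[X] Ω := ⟨fun z => by
      obtain ⟨q, q0, hq⟩ := Γ.algX z
      let φ := (algEquivOfTranscendental k Γ.X Γ.tr).symm.trans (algEquivAevalXAddC (-a))
      refine ⟨q.map (φ : _ →+* k[X]), (Polynomial.map_ne_zero_iff φ.injective).2 q0, ?_⟩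
      rw [← hq, aeval_def, aeval_def, eval₂_map]
      congr 1
      refine RingHom.ext fun y => ?_
      obtain ⟨f, rfl⟩ := (algEquivOfTranscendental k Γ.X Γ.tr).surjective y
      change algebraMap B Ω (algebraMap k[X] B _) = _
      simp [φ, hγ', ← comp_eq_aeval, sub_eq_add_neg]⟩
    by_cases hV : V = ⊤
    · have : e.symm g = 1 := AlgEquiv.ext fun z => by
        obtain ⟨c, c0, hc⟩ := (Algebra.IsAlgebraic.isAlgebraic (R := k[X]) z).exists_integral_multiple
        have h4 := hi _ (hc.tower_top (A := B))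
        rw [hV, ValuationSubring.mem_nonunits_iff_or, Algebra.smul_def, map_mul] at h4
        have h5 : g (algebraMap k[X] Ω c) = algebraMap k[X] Ω c := g.commutes _
        rw [h5, ← mul_sub] at h4
        exact sub_eq_zero.1 ((mul_eq_zero.1 (h4.resolve_right fun h => h trivial)).resolve_left
          fun h => c0 (inj (h.trans (map_zero _).symm)))
      exact this ▸ M.one_mem
    · obtain ⟨x, hx⟩ := SPEC.res G hV vk Γ.X (by
        have := vB (algebraMap k[X] B (X - C a))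
        rw [hγ] at this
        simpa using this)
      refine hM x V ((h3 x).2 fun h0 => ?_) ⟨vk, hx⟩ _ fun z => ?_
      · obtain ⟨u, hu'⟩ := IsLocalization.Away.algebraMap_isUnit (S := B) h
        refine nu_one (V := V) ?_
        have := nu_mul ((nu_aeval vk hx (h.comp (X + C a))).2.2 (by simpa using h0)) (vB ↑u⁻¹)
        rwa [← hγ, ← hu', ← map_mul, Units.mul_inv, map_one] at this
      · have : V.comap (g : Ω →+* Ω) = V := val_eq inj _ _
          (fun o => by change g _ ∈ V; exact (g.commutes (algebraMap _ B o)).symm ▸ vB _)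
          (fun o => vB _) fun c hc => by
            rw [← nu_map (V := V) (g : Ω →+* Ω) (fun _ => Iff.rfl)]
            have h4 := hi c (hc.tower_top (A := B))
            exact ⟨fun h5 => by simpa using nu_sub h5 h4, fun h5 => by simpa using nu_add h4 h5⟩
        exact SetLike.ext_iff.1 this z
  · have vB : ∀ b, algebraMap B Ω b ∈ V := fun b => by
      obtain ⟨n, f, e⟩ := hB b
      rw [e, hγ, hγ]
      exact V.mul_mem _ _ (nu_aeval hV.1 hV.2 _).1 (pow_mem (nu_inv (mt (nu_aeval hV.1 hV.2 _).2.1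
        (by simpa using (h3 x).1 hx))).2 n)
    have := cen_prime (integralClosure B Ω).val.toRingHom V fun c => val_int V vB c.2
    refine hM (cen (integralClosure B Ω).val.toRingHom V fun c => val_int V vB c.2) (e g) fun z w hw => ?_
    obtain ⟨c, hc⟩ := SPEC.res G (hV.ne_top Γ.tr) hV.1 z (val_int V vB z.2)
    have h4 := (nu_map (g : Ω →+* Ω) hg _).2 hc
    rw [RingHom.coe_coe, map_sub, fix_const] at h4
    change (w : Ω) - z ∈ V.nonunits
    rw [hw]
    change g z - z ∈ V.nonunits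
    simpa using nu_sub h4 hc

end Pool.Agent.MP_855f4c_ag.E.W

end
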