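import Pool.Agent.MP_855f4c_ag.EC.Sd
import Pool.Agent.MP_855f4c_ag.EC.Sc
import Pool.Agent.MP_855f4c_ag.EC.Sb
import Pool.Agent.MP_855f4c_ag.EC.Se
import Pool.Agent.MP_855f4c_ag.EC.Sf
import Pool.Agent.MP_855f4c_ag.EC.Wd
import Pool.Agent.MP_855f4c_ag.EC.We
import Pool.Agent.MP_855f4c_ag.EC.Wf
import Pool.Agent.MP_855f4c_ag.EC.Wg

section

/-! Section S assembled: local acyclicity, degrees zero and one, base change along traits. -/

namespace Pool.Agent.MP_855f4c_ag.E.SA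

theorem la_all (h1 : PBC_s) (h2 : AFFV_s) (h3 : PIDV_s) : LA_s :=
  la (la0 zlim (zmv blg (blp h2) (bl ltg h1)) (zval (val (glt ltg) (acy h3 (glt ltg))))) tors

theorem deg_of_la (h : LA_s) : DEG_s := deg p1c loc (chd (glt ltg) (intr const h) dg) pol

theorem sbc_of_la (h : LA_s) : SBC_s :=
  sbc p1c loc (chs (glt ltg) (intr const h) (bnd (bnd1 (be const ext0 h)) tors)) pol

theorem gl_of_la (h : LA_s) (h1 : PBC_s) : GL_s := gl (sbc_of_la h) h1 trt

theorem deg_all (h1 : PBC_s) (h2 : AFFV_s) (h3 : PIDV_s) : DEG_s := deg_of_la (la_all h1 h2 h3)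

theorem gl_all (h1 : PBC_s) (h2 : AFFV_s) (h3 : PIDV_s) : GL_s := gl_of_la (la_all h1 h2 h3) h1

end Pool.Agent.MP_855f4c_ag.E.SA

end

section

namespace Pool.Agent.MP_855f4c_ag.E.W

theorem tf_final (gc : GdCof_s) (d1 : DU1_s) (d2 : DU2_s) : TF_s :=
  tf (tfp d1 d2 gc spec dict)

theorem ct_final (pb : PBC_s) (dg : DEG_s) (gc : GdCof_s) (d1 : DU1_s) (d2 : DU2_s) : CT_s :=
  ct gc gdab (conv gdab) (fam pb dg gc gdab spec lim (gl0 dg gc gdab)) (h2v d2 gc spec) (zer d1 gc)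
    (form (tfp d1 d2 gc spec dict) (h2v d2 gc spec)) (loc spec) ltwo core

end Pool.Agent.MP_855f4c_ag.E.W

end
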