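import Pool.Agent.MP_855f4c_ag.EC.Uc
import Pool.Agent.MP_855f4c_ag.EC.F2b
import Pool.Agent.MP_855f4c_ag.EC.E4d
import Pool.Agent.MP_855f4c_ag.EC.F1b

section

namespace Pool.Agent.MP_855f4c_ag.E.U

open Function Module

lemma alg_pi (l : ℕ) [Fact l.Prime] {I : Type} [Fintype I] [DecidableEq I] (M : I → Type 1)
    [∀ i, AddCommGroup (M i)] (Φ : (∀ i, M i) →+ ∀ i, M i) (h : ∀ i, Cof l (M i)) :
    tr l Φ = ∑ i, tr l ((Pi.evalAddMonoidHom M i).comp (Φ.comp (AddMonoidHom.single M i))) := by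
  have := fun i => (h i).finiteDimensional
  have := (cof_pi h).finiteDimensional
  have e : Vm l Φ = ∑ i, (Vm l Φ ∘ₗ Vm l (AddMonoidHom.single M i)) ∘ₗ
      Vm l (Pi.evalAddMonoidHom M i) := by
    have e1 : Φ = ∑ i, (Φ.comp (AddMonoidHom.single M i)).comp (Pi.evalAddMonoidHom M i) :=
      AddMonoidHom.ext fun m => by
        rw [AddMonoidHom.finsetSum_apply]
        conv_lhs => rw [← Finset.univ_sum_single m, map_sum]
        rfl
    conv_lhs => rw [e1]
    exact map_sum (VEnd l _) _ _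
  rw [tr, e, map_sum]
  exact Finset.sum_congr rfl fun i _ => LinearMap.trace_comp_comm' _ _

lemma alg_dual (l : ℕ) [Fact l.Prime] {M N : Type 1} [AddCommGroup M] [AddCommGroup N] (Ω : Type)
    [Field Ω] [IsAlgClosed Ω] (hl : (l : Ω) ≠ 0) (hM : Cof l M) (hN : Cof l N)
    (e : (M →+ QZ l) →+ N →+ MuI l Ω) (he : Bijective e) : rk l M = rk l N ∧
      ∀ (φ : M →+ M) (χ : N →+ N) (g : Ω →+* Ω) (Q : ℕ), 0 < Q →
        (∀ (ζ : Ω) (n : ℕ), ζ ^ l ^ n = 1 → g ζ ^ Q = ζ) →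
        (∀ f m, MuI.map l g (e (f.comp φ) m) = e f (χ m)) →
        tr l φ = Q * tr l χ ∧ ∀ (j : ℚ_[l] →+* ℂ) (B : ℝ),
          Ev j (Set.Iic B) χ → Ev j (Set.Iic ((Q : ℝ) ^ 2 * B)) φ := by
  have := hM.finiteDimensional
  have := hN.finiteDimensional
  obtain ⟨μ⟩ := mu_equiv l Ω hl
  obtain ⟨E, hE⟩ := kap_equiv hM hN
    ((AddEquiv.ofBijective e he).trans (AddEquiv.addMonoidHomCongrRight μ.symm))
  refine ⟨by simpa only [Subspace.dual_finrank_eq] using E.finrank_eq, fun φ χ g Q hQ hg h => ?_⟩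
  have h1 : ∀ y : MuI l Ω, Q • MuI.map l g y = y := fun y => by
    obtain ⟨n, hn⟩ := y.toMul.2
    refine Additive.toMul.injective (Subtype.ext (Units.ext (hg _ n ?_)))
    exact (Units.val_pow_eq_pow_val _ _).symm.trans (congrArg Units.val hn)
  have h2 : ((Q : ℚ_[l]) • (Vm l χ).dualMap) ∘ₗ E.toLinearMap = E.toLinearMap ∘ₗ (Vm l φ).dualMap :=
    kap_ext hM fun f => by
      change (Q : ℚ_[l]) • (E (kap l M f) ∘ₗ Vm l χ) = E (kap l M (f.comp φ))
      rw [hE, hE, ← kap_comp, Nat.cast_smul_eq_nsmul, ← AddMonoidHom.map_nsmul]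
      refine congrArg _ (AddMonoidHom.ext fun m => ?_)
      change Q • μ.symm (e f (χ m)) = μ.symm (e (f.comp φ) m)
      rw [← map_nsmul, ← h, h1]
  refine ⟨?_, fun j B hB => ?_⟩
  · rw [tr, tr, ← trace_dualMap, ← trace_dualMap (Vm l χ), ← smul_eq_mul, ← map_smul,
      ← trIm_inj E.injective h2, trIm_surj E.surjective h2]
  · refine EvL.of_dual (EvL.sub (EvL.smul (EvL.dual hB) (Nat.cast_ne_zero.2 hQ.ne') fun s hs => ?_)
      E.toLinearMap E.injective h2)
    rw [map_natCast, Complex.norm_natCast]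
    exact mul_le_mul_of_nonneg_left (Set.mem_Iic.1 hs) (by positivity)

theorem alg : ALG_s where
  mid l _ _ _ _ _ _ _ f g φ₁ φ₂ φ₃ he h1 h2 hM j S e1 e3 :=
    Ev.ext e1 e3 hM he (fun m => (h1 m).symm) fun m => (h2 m).symm
  add l _ M₁ M₂ M₃ _ _ _ f g φ₁ φ₂ φ₃ hf he hg h1 h2 hM := by
    refine ⟨tr_ses hM hf he hg (fun m => (h1 m).symm) fun m => (h2 m).symm, ?_⟩
    have := hM.finiteDimensional
    have := (hM.sub f hf).finiteDimensional
    have := (hM.quo g hg).finiteDimensional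
    have h3 := tr_ses (a := .id M₁) (b := .id M₂) (d := .id M₃) hM hf he hg (fun _ => rfl)
      fun _ => rfl
    simp only [tr, Vm_id, LinearMap.trace_id] at h3
    exact_mod_cast h3
  iso l _ M N _ _ e φ χ he h :=
    ⟨(tr_equiv (AddEquiv.ofBijective e he) fun m => (h m).symm).symm,
      (Ve l (AddEquiv.ofBijective e he)).finrank_eq, fun j S =>
      ⟨fun h1 => EvL.quo h1 (Vm l e) (Ve l (AddEquiv.ofBijective e he)).surjective
        (Vm_inter fun m => (h m).symm), fun h1 => h1.sub e he.1 fun m => (h m).symm⟩⟩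
  nul l _ M _ φ hM h := by
    have := hM.finiteDimensional
    have : Subsingleton (V l M) := Module.finrank_zero_iff.1 h
    exact ⟨by rw [tr, Subsingleton.elim (Vm l φ) 0, map_zero], fun j S => evL_of_subsingleton _⟩
  pow l _ M _ φ m B j hm hB h := Ev.of_pow hm.ne' hB h
  pi l _ _ _ _ M _ Φ h := alg_pi l M Φ h
  piEv l _ I _ M _ Φ φ h j S h1 :=
    evL_pi (fun i => Vm l (Pi.evalAddMonoidHom M i))
      (fun v hv => (Vpi l M).injective ((funext hv).trans (map_zero _).symm))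
      (fun i => Vm_inter fun m => (h m i).symm) h1
  dual l _ _ _ _ _ Ω _ _ hl hM hN e he := alg_dual l Ω hl hM hN e he

end Pool.Agent.MP_855f4c_ag.E.U

end

section

set_option autoImplicit false
set_option backward.isDefEq.respectTransparency false

open CategoryTheory Limits Abelian Opposite AlgebraicGeometry

namespace Pool.Agent.MP_855f4c_ag.E.U

open E3 E4 Function

lemma cdt_mid {𝒜 : Type*} [Category* 𝒜] [Abelian 𝒜] {X₁ X₂ X₃ X₄ X₅ : 𝒜}
    (h : Ex5 X₁ X₂ X₃ X₄ X₅) (h2 : IsZero X₂) (h4 : IsZero X₄) : IsZero X₃ := by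
  obtain ⟨_, b, c, _, -, ⟨w, e⟩, -⟩ := h
  exact e.isZero_X₂ (h2.eq_of_src _ _) (h4.eq_of_tgt _ _)

/-- The direct images keep `Tc` and vanish above `M`. -/
def cdtB {G Y : Scheme.{0}} (c : G ⟶ Y) (M : ℕ) : Prop :=
  ∀ (l : ℕ) [Fact l.Prime], Linv l Y → ∀ F : Sh (Scheme.etaleTopology.over G), Tc l F → ∀ q,
    Tc l ((Rq c q).obj F) ∧ (M < q → IsZero ((Rq c q).obj F))

/-- The same for all base changes. -/
def cdtA {G Y : Scheme.{0}} (c : G ⟶ Y) (M : ℕ) : Prop :=
  ∀ {G' Y' : Scheme.{0}} {c' : G' ⟶ Y'} {a : Y' ⟶ Y} {b : G' ⟶ G}, IsPullback b c' c a → cdtB c' M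

lemma cdt_comp (h1 : NRQ_s) (h2 : LERS_s) {G Y S : Scheme.{0}} {c : G ⟶ Y} {t : Y ⟶ S} {M N : ℕ}
    (hc : cdtA c M) (ht : CD t N) : CD (c ≫ t) (N + M) := by
  intro G' S' p' a b h l _ hl F hF n hn
  obtain ⟨c', e1, rfl⟩ : ∃ c' : G' ⟶ pullback t a, c' ≫ pullback.fst t a = b ≫ c ∧
      c' ≫ pullback.snd t a = p' :=
    ⟨pullback.lift (b ≫ c) p' (by simpa using h.w), pullback.lift_fst .., pullback.lift_snd ..⟩
  have H := IsPullback.of_hasPullback t a
  have A := hc (h.of_bot e1.symm H) l (hl.of_hom (pullback.snd t a)) F hF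
  obtain ⟨D, d0, dn, d1, d2⟩ := h2.fil c' (pullback.snd t a) F
  have z (i j : ℕ) (e : N + M ≤ i + j) :
      IsZero ((Rq (pullback.snd t a) i).obj ((Rq c' j).obj F)) := by
    by_cases hj : M < j
    · have := (h1.df (pullback.snd t a)).add i
      exact Functor.map_isZero _ ((A j).2 hj)
    · exact ht H l hl _ (A j).1 i (by omega)
  have key (j : ℕ) : ∀ i, N + M ≤ i + j → IsZero (D j i) := by
    induction j with
    | zero => exact fun i e => (z i 0 e).of_iso (d0 i).some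
    | succ j ih =>
      rintro (_ | i) e
      · exact cdt_mid (d1 j _ (isZero_zero _)) (ih 1 (by omega)) (z 0 _ e)
      · exact cdt_mid (d2 j i) (ih _ (by omega)) (z _ _ e)
  exact (key n 0 (by omega)).of_iso (dn n).some.symm

lemma cdt_fin (h1 : NRQ_s) (h3 : NTC_s) {G Y : Scheme.{0}} (c : G ⟶ Y) [IsFinite c] :
    cdtA c 0 := by
  intro G' Y' c' a b h l _ _ F hF q
  have : IsFinite c' := MorphismProperty.of_isPullback h ‹_›
  cases q with
  | zero => exact ⟨(h3.thick l _).iso ((h1.zero c').some.app F).symm (pf_tc c' hF), by simp⟩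
  | succ q =>
    exact ⟨(h3.thick l _).zero _ (h1.int c' inferInstance F q), fun _ => h1.int c' inferInstance F q⟩

lemma cdt_pl0 (h3 : NTC_s) (h4 : PBC_s) (h5 : CD3_s) {Y : Scheme.{0}} (L : PL Y) :
    cdtB L.π 2 := by
  intro l _ hl F hF q
  refine ⟨h4 l _ L F q hF, fun hq => h3.ptz l _ hl (h4 l _ L F q hF) fun k _ _ x s => ?_⟩
  obtain ⟨q, rfl⟩ : ∃ r, q = r + 3 := ⟨q - 3, by omega⟩
  obtain ⟨y, rfl⟩ := (h3.stk L.π F _ k x).2 s
  rw [h5 l _ L F hF k x (hl k x) q y, map_zero]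

lemma cdt_pl (h3 : NTC_s) (h4 : PBC_s) (h5 : CD3_s) {Y : Scheme.{0}} (L : PL Y) : cdtA L.π 2 :=
  fun {G' _ c' a b} h => cdt_pl0 h3 h4 h5 ⟨G', c', b ≫ L.q, by
    rw [← terminal.comp_from a]
    exact h.paste_horiz L.sq⟩

theorem cdt (h1 : NRQ_s) (h2 : LERS_s) (h3 : NTC_s) (h4 : PBC_s) (h5 : CD3_s) (_h6 : TW_s) :
    CDT_s := by
  have key {Y S : Scheme.{0}} (t : Y ⟶ S) (ht : Tw t) : ∃ N, CD t N := by
    induction ht with
    | iso g _ => exact ⟨1, fun h l _ hl F hF q hq => (cdt_fin h1 h3 g h l hl F hF q).2 hq⟩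
    | step L g _ ih => exact ih.elim fun N h => ⟨_, cdt_comp h1 h2 (cdt_pl h3 h4 h5 L) h⟩
  rintro G S _ ⟨Y, c, t, _, ht, rfl⟩
  exact (key t ht).elim fun N h => ⟨_, cdt_comp h1 h2 (cdt_fin h1 h3 c) h⟩

end Pool.Agent.MP_855f4c_ag.E.U

end

section

set_option autoImplicit false
set_option backward.isDefEq.respectTransparency false

open CategoryTheory Limits Abelian Opposite AlgebraicGeometry TopologicalSpace

namespace Pool.Agent.MP_855f4c_ag.E.U

open E3 E4 Function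

/-- A sheaf whose pull-back along `t` is zero has no sections over `t`. -/
theorem cdx_sec {T S : Scheme.{0}} (t : T ⟶ S) (G : Sh (Scheme.etaleTopology.over S)) (h : IsZero ((PB t).obj G))
    (s : sec G (Over.mk t)) : s = 0 := by
  have : ∀ s : sec G (Over.mk (𝟙 T ≫ t)), s = 0 := fun s =>
    congr($(h.eq_of_src (𝟙 _) 0).hom.app (op (top T)) s)
  rw [Category.id_comp] at this
  exact this s

/-- Sections of a pull-back. -/
theorem cdx_pb {Y T S : Scheme.{0}} (x : Y ⟶ T) (t : T ⟶ S) (G : Sh (Scheme.etaleTopology.over S))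
    (h : ∀ s : sec G (Over.mk (x ≫ t)), s = 0) (s : sec ((PB t).obj G) (Over.mk x)) : s = 0 := h s

/-- The middle term of an exact sequence with vanishing ends. -/
theorem cdx_mid {A B D : Type 1} [AddCommGroup A] [AddCommGroup B] [AddCommGroup D] {u : A →+ B}
    {v : B →+ D} (h : Exact u v) (hA : ∀ a : A, a = 0) (hD : ∀ d : D, d = 0) (b : B) : b = 0 := by
  obtain ⟨a, rfl⟩ := (h b).1 (hD _)
  rw [hA a, map_zero]

/-- The same for the sections of a cohomological functor. -/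
theorem cdx_les (hN : NTC_s) {T S : Scheme.{0}} {Φ : ℕ → Sh (Scheme.etaleTopology.over T) ⥤ Sh (Scheme.etaleTopology.over S)} (h : DF Φ)
    {A B D : Sh (Scheme.etaleTopology.over T)} {i : A ⟶ B} {p : B ⟶ D} {w : i ≫ p = 0}
    (hS : (ShortComplex.mk i p w).ShortExact) (q : ℕ) (k : Type) [Field k] [IsAlgClosed k]
    (t : Spec (.of k) ⟶ S) (hA : ∀ s : sec ((Φ q).obj A) (Over.mk t), s = 0)
    (hD : ∀ s : sec ((Φ q).obj D) (Over.mk t), s = 0) (s : sec ((Φ q).obj B) (Over.mk t)) : s = 0 :=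
  cdx_mid (hN.ex _ _ ((h.les _ hS).2 q).1 k t) hA hD s

theorem cdx (hC : CDT_s) (hP : PUSH_s) (hT : TCT_s) (hM : CMP_s) (hW : CHOW_s) (hQ : NRQ_s)
    (hN : NTC_s) (hE : NEZ_s) : CDX_s := by
  intro R _ _ X f _
  have : IsLocallyNoetherian X := LocallyOfFiniteType.isLocallyNoetherian f
  have : CompactSpace X := QuasiCompact.compactSpace_of_compactSpace f
  have : IsNoetherian X := {}
  have key (Z : Closeds X) : ∃ N : ℕ, ∀ (l : ℕ) [Fact l.Prime] (F : Sh (Scheme.etaleTopology.over X)), Tc l F →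
      Van l Z F → ∀ (k : Type) [Field k] [IsAlgClosed k] (t : Spec (.of k) ⟶ Spec (.of R)),
        (l : k) ≠ 0 → ∀ q, N ≤ q → ∀ s : sec ((Rq f q).obj F) (Over.mk t), s = 0 := by
    induction Z using WellFoundedLT.induction with | ind Z ih => ?_
    rcases (Z : Set X).eq_empty_or_nonempty with hZ | hZ
    · refine ⟨0, fun l _ F hF hV k _ _ t hl q _ => cdx_sec t _ ?_⟩
      have hL : Linv l (pullback f t) :=
        (Linv.spec (isUnit_iff_ne_zero.2 hl)).of_hom (pullback.snd f t)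
      obtain ⟨e⟩ := hQ.bc (IsPullback.of_hasPullback f t) F q
      have := (hQ.df (pullback.snd f t)).add q
      exact (Functor.map_isZero _ (hN.ptz l _ hL (hN.pb l _ F hF) fun K _ _ x =>
        cdx_pb x _ F (hV K _ (hL K x) fun z => by simp [hZ]))).of_iso e
    obtain ⟨O, ⟨z₀, hz₀⟩, G, p, hp, hpf, -, hi⟩ := hW R X f Z Z.isClosed hZ
    obtain ⟨N₁, h₁⟩ := ih ⟨Z \ O, Z.isClosed.sdiff O.isOpen⟩
      (lt_of_le_of_ne Set.sdiff_subset fun e => (e.ge hz₀.2).2 hz₀.1)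
    obtain ⟨N₂, h₂⟩ := hC _ hpf
    refine ⟨max N₁ N₂, fun l _ F hF hV k _ _ t hl q hq s => ?_⟩
    have hL : Linv l (Spec (.of k)) := Linv.spec (isUnit_iff_ne_zero.2 hl)
    let i : (ez O).obj F ⟶ F := (ezι O).app F
    have hm : Mono i := hE.mono O F
    have hO := hE.tc l O F hF
    have hw := ShortComplex.exact_cokernel i
    have hV₁ : Van l (Z \ O) (cokernel i) := fun K _ _ x hK hx s => by
      obtain ⟨s, rfl⟩ := hN.epi (cokernel.π i) inferInstance K x s
      by_cases h : ∀ z, x z ∈ O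
      · exact (hN.ex _ _ ⟨_, hw⟩ K x s).2 ((hE.inn O F (Over.mk x) h).2 s)
      · obtain ⟨z, hz⟩ := not_forall.1 h
        rw [hV K x hK (fun y hy => hx y ⟨hy, Subsingleton.elim z y ▸ hz⟩) s, map_zero]
    have hV₂ : Van l {z | z ∈ O ∧ z ∈ (Z : Set X)} ((ez O).obj F) := fun K _ _ x hK hx s => by
      by_cases h : ∀ z, x z ∈ O
      · exact hN.mono i hm _ ((hV K x hK (fun y hy => hx y ⟨h y, hy⟩) _).trans (map_zero _).symm)
      · exact hE.outk O F K x (not_forall.1 h) s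
    obtain ⟨t₀, t₁, t₂⟩ := hT {l}
    obtain ⟨e⟩ := hM l p f _ _ hi hO hV₂ (fun n => hP {l} _ t₀ t₁ t₂ p hp 0
      (fun _ _ => (PB p).obj ((ez O).obj F))
      (fun l' _ h => by obtain rfl : l' = l := h; exact hN.pb _ p _ hO) n l rfl) q _ t hL
    have sq := IsPullback.of_hasPullback (p ≫ f) t
    obtain ⟨e'⟩ := hQ.bc sq ((PB p).obj ((ez O).obj F)) q
    have hz := cdx_sec t _ ((h₂ sq l hL _ (hN.pb l _ _ (hN.pb l p _ hO)) q
      (le_of_max_le_right hq)).of_iso (e.symm ≪≫ e'))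
    exact cdx_les hN (hQ.df f) (B := F) (.mk' hw hm inferInstance) q k t hz
      (h₁ l _ ((hN.thick l X).coker i hO hF) hV₁ k t hl q (le_of_max_le_left hq)) s
  obtain ⟨N, hN'⟩ := key ⊤
  exact ⟨N, fun l _ F hF k _ _ t hl q hq x => (hN.stk f F q k t).1
    ((hN' l F hF (fun K _ _ y _ hy => (hy default trivial).elim) k t hl q hq _).trans
      (map_zero _).symm)⟩

end Pool.Agent.MP_855f4c_ag.E.U

end

section

set_option autoImplicit false
set_option backward.isDefEq.respectTransparency false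

open CategoryTheory Limits Abelian Opposite AlgebraicGeometry Polynomial

namespace Pool.Agent.MP_855f4c_ag.E.U

open E3 E4 Function

variable {G X : Scheme.{0}}

/-- The unit `F ⟶ p_* p^* F`. -/
noncomputable def cmpUnit (p : G ⟶ X) (F : Sh (Scheme.etaleTopology.over X)) : F ⟶ (PF p).obj ((PB p).obj F) :=
  ⟨{ app T := F.obj.map ((Over.mapPullbackAdj p).counit.app T.unop).op
     naturality T T' g := by
       have h := (Over.mapPullbackAdj p).counit.naturality g.unop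
       change F.obj.map g ≫ _ = _ ≫ F.obj.map ((Over.pullback p ⋙ Over.map p).map g.unop).op
       rw [← F.obj.map_comp, ← F.obj.map_comp, ← op_comp, h]
       rfl }⟩

lemma cmp_sec_zero {N : Sh (Scheme.etaleTopology.over X)} (h : IsZero N) (T : Over X) (s : sec N T) : s = 0 := by
  have h1 : IsZero (N.obj.obj (op T)) :=
    ((sheafToPresheaf (Scheme.etaleTopology.over X) Ab.{1} ⋙ (evaluation _ _).obj (op T))).map_isZero h
  have := AddCommGrpCat.subsingleton_of_isZero h1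
  exact Subsingleton.elim _ _

lemma cmp_pt_zero {T : Scheme.{0}} (y : T ⟶ X) {N : Sh (Scheme.etaleTopology.over X)} (h : IsZero ((PB y).obj N))
    (s : sec N (Over.mk y)) : s = 0 := by
  have h1 : ∀ s : sec N (Over.mk (𝟙 T ≫ y)), s = 0 := fun s => cmp_sec_zero h (top T) s
  rw [Category.id_comp] at h1
  exact h1 s

lemma cmp_out (h1 : NRQ_s) (h2 : NTC_s) {l : ℕ} (p : G ⟶ X) {W : Set X} {F : Sh (Scheme.etaleTopology.over X)}
    (hF : Tc l F) (hV : Van l W F) {k : Type} [Field k] (y : Spec (.of k) ⟶ X) (hl : (l : k) ≠ 0)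
    (hy : ∀ t, y t ∉ W) (q : ℕ) : IsZero ((PB y).obj ((Rq p q).obj ((PB p).obj F))) := by
  obtain ⟨e⟩ := h1.bc (IsPullback.of_hasPullback y p).flip ((PB p).obj F) q
  have hL : Linv l (pullback y p) := (Linv.spec (Ne.isUnit hl)).of_hom (pullback.fst y p)
  have hz : IsZero ((PB (pullback.snd y p)).obj ((PB p).obj F)) := by
    refine h2.ptz l _ hL (h2.pb l _ _ (h2.pb l _ _ hF)) fun k' _ _ z s => ?_
    refine hV k' ((z ≫ pullback.snd y p) ≫ p) (hL.isUnit z).ne_zero (fun t => ?_) s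
    rw [Category.assoc, ← pullback.condition, ← Category.assoc]
    exact hy _
  have := (h1.df (pullback.fst y p)).add q
  exact ((Rq (pullback.fst y p) q).map_isZero hz).of_iso e

theorem cmpr (h1 : NRQ_s) (h2 : NTC_s) (h3 : LERS_s) : CMP_s := by
  intro l G X S p f W F hW hF hV hR n S' b hb
  have hX : Linv l (pullback f b) := hb.of_hom (pullback.snd f b)
  set a := pullback.fst f b with ha
  have alt : ∀ (k : Type) [Field k] (y : Spec (.of k) ⟶ X), (∀ t, y t ∈ W) ∨ ∀ t, y t ∉ W := by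
    intro k _ y
    by_cases h : ∃ t, y t ∈ W
    · obtain ⟨t, ht⟩ := h
      have : Subsingleton (Spec (CommRingCat.of k)) := inferInstanceAs (Subsingleton (PrimeSpectrum k))
      exact .inl fun t' => Subsingleton.elim t t' ▸ ht
    · exact .inr fun t ht => h ⟨t, ht⟩
  have hz : ∀ q, IsZero ((PB a).obj ((Rq p (q + 1)).obj ((PB p).obj F))) := by
    intro q
    refine h2.ptz l _ hX (h2.pb l _ _ (hR _)) fun k _ _ x s => cmp_pt_zero (x ≫ a) ?_ s
    rcases alt k (x ≫ a) with h | h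
    · have := hW k _ h
      obtain ⟨e⟩ := h1.bc (IsPullback.of_hasPullback (x ≫ a) p).flip ((PB p).obj F) (q + 1)
      exact (h1.int _ inferInstance _ q).of_iso e
    · exact cmp_out h1 h2 p hF hV _ (hX.isUnit x).ne_zero h _
  obtain ⟨e0⟩ := h1.zero p
  have hu : IsIso ((PB a).map (cmpUnit p F)) := by
    refine h2.pti l _ hX (h2.pb l _ _ hF)
      (h2.pb l _ _ ((h2.thick l X).iso (e0.app _) (hR 0))) fun k _ _ x => ?_
    change Bijective (app (cmpUnit p F) (Over.mk (x ≫ a)))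
    rcases alt k (x ≫ a) with h | h
    · have := hW k _ h
      have h5 : IsIso ((Over.mapPullbackAdj p).counit.app (Over.mk (x ≫ a))).left := by
        simpa using this
      have h6 : IsIso ((Over.mapPullbackAdj p).counit.app (Over.mk (x ≫ a))) :=
        have : IsIso ((Over.forget X).map ((Over.mapPullbackAdj p).counit.app (Over.mk (x ≫ a)))) := h5
        isIso_of_reflects_iso _ (Over.forget X)
      exact ConcreteCategory.bijective_of_isIso
        (F.obj.map ((Over.mapPullbackAdj p).counit.app (Over.mk (x ≫ a))).op)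
    · have h5 := hV k _ (hX.isUnit x).ne_zero h
      have h6 := cmp_pt_zero (x ≫ a) ((cmp_out h1 h2 p hF hV _ (hX.isUnit x).ne_zero h 0).of_iso
        ((PB (x ≫ a)).mapIso (e0.app _).symm))
      exact ⟨fun s t _ => (h5 s).trans (h5 t).symm, fun t => ⟨0, (h6 _).trans (h6 t).symm⟩⟩
  have sq := IsPullback.of_hasPullback p a
  have sq' := IsPullback.of_hasPullback f b
  obtain ⟨e1⟩ := h1.bc (sq.paste_vert sq') ((PB p).obj F) n
  obtain ⟨e2⟩ := h1.bc sq' F n
  obtain ⟨e3⟩ := h3.deg (pullback.snd p a) (pullback.snd f b)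
    ((PB (pullback.fst p a)).obj ((PB p).obj F)) (fun q => by
      obtain ⟨e⟩ := h1.bc sq ((PB p).obj F) (q + 1)
      exact (hz q).of_iso e.symm) n
  obtain ⟨e4⟩ := h1.bc sq ((PB p).obj F) 0
  obtain ⟨e5⟩ := h1.zero (pullback.snd p a)
  exact ⟨e1 ≪≫ e3.symm ≪≫ (Rq (pullback.snd f b) n).mapIso
    (asIso ((PB a).map (cmpUnit p F)) ≪≫ (PB a).mapIso (e0.app _).symm ≪≫ e4 ≪≫ e5.app _).symm ≪≫
      e2.symm⟩

end Pool.Agent.MP_855f4c_ag.E.U

end

section

set_option autoImplicit false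
set_option backward.isDefEq.respectTransparency false

open CategoryTheory Limits Abelian Opposite AlgebraicGeometry Polynomial

namespace Pool.Agent.MP_855f4c_ag.E.U

open E3 E4 Function

lemma finp_comp {A B C : Type} [CommRing A] [CommRing B] [CommRing C] (φ : A →+* B)
    (ψ : B →+* C) : spc ψ ≫ spc φ = spc (ψ.comp φ) := by
  rw [← Spec.map_comp, ← CommRingCat.ofHom_comp]

lemma finp_surj {A B : Type} [CommRing A] [CommRing B] (s : Spec (.of B) ⟶ Spec (.of A)) :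
    ∃ φ : A →+* B, spc φ = s := by
  obtain ⟨φ, hφ⟩ := Spec.map_surjective s
  exact ⟨φ.hom, hφ⟩

lemma finp_inj {A B : Type} [CommRing A] [CommRing B] {φ ψ : A →+* B} (h : spc φ = spc ψ) :
    φ = ψ := congrArg CommRingCat.Hom.hom (Spec.map_injective h)

/-- The base change of a finite morphism to an affine scheme. -/
lemma finp_aff {X Y : Scheme.{0}} (c : X ⟶ Y) [IsFinite c] {A : Type} [CommRing A]
    (a : Spec (.of A) ⟶ Y) : ∃ (C : Type) (_ : CommRing C) (φ : A →+* C) (e : Spec (.of C) ⟶ X),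
      φ.Finite ∧ IsPullback e (spc φ) c a := by
  have : IsAffine (pullback c a) := isAffine_of_isAffineHom (pullback.snd c a)
  obtain ⟨φ, hφ⟩ := Spec.map_surjective ((pullback c a).isoSpec.inv ≫ pullback.snd c a)
  refine ⟨Γ(pullback c a, ⊤), inferInstance, φ.hom, (pullback c a).isoSpec.inv ≫ pullback.fst c a,
    ?_, ?_⟩
  · have : IsFinite (Spec.map φ) := by rw [hφ]; infer_instance
    exact (IsFinite.SpecMap_iff φ).1 this
  · have h1 : spc φ.hom = (pullback c a).isoSpec.inv ≫ pullback.snd c a := hφ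
    rw [h1]
    exact (IsPullback.of_hasPullback c a).of_iso (pullback c a).isoSpec (Iso.refl _) (Iso.refl _)
      (Iso.refl _) (by simp) (by simp) (by simp) (by simp)

theorem finp (hE : EVT_s) (hS : SPF_s) (hF : FSPL_s) (hG : GE_s) : FINP_s := by
  intro LL X Y c _ w F h
  obtain ⟨htc, hev⟩ := (hE.good LL w F).1 h
  refine (hE.good LL w _).2 ⟨fun l _ hl => E4.pf_tc c (htc l hl), ?_⟩
  intro A₀ Ω _ _ _ _ _ ι a
  obtain ⟨C, _, φ, e, hφ, hpb⟩ := finp_aff c a
  let _ : Algebra A₀ C := φ.toAlgebra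
  have : Module.Finite A₀ C := hφ
  obtain ⟨A, _, α, n, τ, rfl, hτ, huniq⟩ := hS.2 A₀ C Ω ι
  have hτ' : ∀ i, (τ i).comp φ = α := hτ
  refine hE.trans α A.subtype _ (hE.mono _ _ _ ?_
    (hE.all A.subtype _ fun i : Fin n => hev A Ω A.subtype (spc (τ i) ≫ e)))
  intro B _ γ hB l _ hl hu
  have hc : ∀ i, (spc γ ≫ spc (τ i) ≫ e) ≫ c = spc (γ.comp α) ≫ a := fun i => by
    rw [Category.assoc, Category.assoc, hpb.w, ← Category.assoc (spc (τ i)), finp_comp, hτ',
      ← Category.assoc, finp_comp]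
  obtain ⟨u⟩ := hF l c (spc (γ.comp α) ≫ a) (fun i => spc γ ≫ spc (τ i) ≫ e) (F l)
    (Linv.spec hu) (htc l hl) hc (by
      intro k _ _ s y hy
      obtain ⟨ψ, rfl⟩ := finp_surj s
      have hy' : y ≫ c = (spc ψ ≫ spc (γ.comp α)) ≫ a := by rw [hy, Category.assoc]
      obtain ⟨χ, hχ⟩ := finp_surj (hpb.lift y _ hy')
      have h1 : spc χ ≫ e = y := by rw [hχ, hpb.lift_fst]
      have h2 : χ.comp φ = (ψ.comp γ).comp α := finp_inj (by
        rw [← finp_comp, hχ, hpb.lift_snd, finp_comp, RingHom.comp_assoc])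
      have h3 : ∀ i, spc ψ ≫ spc γ ≫ spc (τ i) ≫ e = spc ((ψ.comp γ).comp (τ i)) ≫ e := fun i => by
        rw [← Category.assoc, finp_comp, ← Category.assoc, finp_comp]
      obtain ⟨i, hi, hi'⟩ := huniq k χ (ψ.comp γ) h2
      refine ⟨i, ?_, fun j hj => hi' j (finp_inj (hpb.hom_ext ?_ ?_))⟩
      · show y = spc ψ ≫ spc γ ≫ spc (τ i) ≫ e
        rw [h3, ← hi, h1]
      · have hj' : y = spc ψ ≫ spc γ ≫ spc (τ j) ≫ e := hj
        rw [h1, hj', h3]
      · rw [finp_comp, finp_comp, h2, RingHom.comp_assoc _ (τ j), hτ'])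
  exact hG.cwIso l w ⟨u.symm⟩ (hG.cwSum l w _ fun i => hB i l hl hu)

end Pool.Agent.MP_855f4c_ag.E.U

end

section

set_option autoImplicit false
set_option backward.isDefEq.respectTransparency false

open CategoryTheory Limits Abelian Opposite AlgebraicGeometry Polynomial

namespace Pool.Agent.MP_855f4c_ag.E.U

open E3 E4 Function

variable {X Y : Scheme.{0}}

lemma gc_symm {𝒜 : Type*} [Category* 𝒜] {F G : 𝒜} (h : Is F G) : Is G F := h.elim fun e => ⟨e.symm⟩

lemma gc_map {F G : Sh (Scheme.etaleTopology.over X)} (T : Sh (Scheme.etaleTopology.over X) ⥤ Sh (Scheme.etaleTopology.over Y)) (h : Is F G) :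
    Is (T.obj F) (T.obj G) := h.elim fun e => ⟨T.mapIso e⟩

lemma gc_ex {T : Sh (Scheme.etaleTopology.over X) ⥤ Sh (Scheme.etaleTopology.over Y)} (hT : Exa T) {F G K : Sh (Scheme.etaleTopology.over X)} {f : F ⟶ G}
    {g : G ⟶ K} (h : Ex f g) : Ex (T.map f) (T.map g) := by
  obtain ⟨h1, h2, h3⟩ := hT
  obtain ⟨w, e⟩ := h
  exact ⟨_, e.map T⟩

lemma gc_ex5 {T : Sh (Scheme.etaleTopology.over X) ⥤ Sh (Scheme.etaleTopology.over Y)} (hT : Exa T) {F₁ F₂ F₃ F₄ F₅ : Sh (Scheme.etaleTopology.over X)}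
    (h : Ex5 F₁ F₂ F₃ F₄ F₅) : Ex5 (T.obj F₁) (T.obj F₂) (T.obj F₃) (T.obj F₄) (T.obj F₅) := by
  obtain ⟨a, b, c, d, h1, h2, h3⟩ := h
  exact ⟨_, _, _, _, gc_ex hT h1, gc_ex hT h2, gc_ex hT h3⟩

lemma gc_zero {T : Sh (Scheme.etaleTopology.over X) ⥤ Sh (Scheme.etaleTopology.over Y)} (hT : Exa T) {F : Sh (Scheme.etaleTopology.over X)} (h : IsZero F) :
    IsZero (T.obj F) := by
  obtain ⟨h1, -, -⟩ := hT
  exact T.map_isZero h

/-- Rigidity can be tested after pull-back to affine schemes on which `l` is invertible. -/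
lemma tct_rig {l : ℕ} {G : Sh (Scheme.etaleTopology.over X)}
    (h : ∀ (B : Type) [CommRing B] (b : Spec (.of B) ⟶ X), IsUnit (l : B) →
      Rig l ((PB b).obj G).obj) : Rig l G.obj := by
  intro A k _ _ _ _ φ _ a b e hl
  have h1 := h A a hl A k φ (𝟙 _) (spc φ) (Category.comp_id _) hl
  let i : (Over.map a).obj (Over.mk (spc φ)) ≅ Over.mk b := Over.isoMk (Iso.refl _) (by
    simpa using e.symm)
  let j : (Over.map a).obj (Over.mk (𝟙 _)) ≅ Over.mk a := Over.isoMk (Iso.refl _) (by simp)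
  exact (bij_of_sq G.obj ((Over.map a).map (sph φ (Category.comp_id _))) (sph φ e) i.hom j.hom
    (Over.OverMorphism.ext (by simp [i, j, sph]))).1 h1

theorem tct (h1 : PBC_s) (h2 : NTC_s) (h3 : NEZ_s) (h4 : SQ_s.{1, 2}) : TCT_s := fun _ =>
  ⟨{ tc := fun h => h
     mono := fun _ h => h
     pb := fun g _ _ h l _ hl => h2.pb l g _ (h l hl)
     five := fun _ _ _ _ _ e a b c d l _ hl =>
      (h4 _ _ (h2.thick l _)).1 _ _ _ _ _ (e l hl) (a l hl) (b l hl) (c l hl) (d l hl)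
     zero := fun _ _ h l _ hl => (h2.thick l _).zero _ (h l hl)
     iso := fun e h l _ hl => (e l hl).elim fun i => (h2.thick l _).iso i (h l hl)
     loc := fun e h l _ hl => ⟨⟨(e l hl).1, tct_rig fun B _ b hb => ((e l hl).2.2 B b hb).elim
        fun i => ((h2.thick l _).iso i (h2.pb l b _ (h l hl))).1.2⟩, (e l hl).2.1⟩
     ez := fun O _ _ h l _ hl => h3.tc l O _ (h l hl) },
   fun c _ _ _ h l _ hl => pf_tc c (h l hl), fun L _ _ h n l _ hl => h1 l _ L _ n (h l hl)⟩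

theorem gc (h1 : TCT_s) (h2 : EVT_s) (h3 : GE_s) (h4 : NEZ_s) (h5 : NRQ_s) (h6 : SPO_s) :
    GC_s := fun LL => by
  have t := (h1 LL).1
  have nul : ∀ (l : ℕ) [Fact l.Prime] (w : ℕ) {X : Scheme.{0}} (F : Sh (Scheme.etaleTopology.over X)), IsZero F →
      CW l w F := fun l _ w _ F h => (h3.nul l w F (h3.zero l F h)).2.1
  refine ⟨fun h => h.1, fun {X w w' F} hw h => ?_, fun {X Y} g w F h => ?_,
    fun {X w w₁ w₅} F₁ F₂ F₃ F₄ F₅ e a b c d => ?_, fun {X} w F h => ?_,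
    fun {X w F G} e h => ?_, fun {X w F G} e h => ?_, fun {X} O w F h => ?_⟩
  · rw [h2.good] at h ⊢
    exact ⟨h.1, fun A₀ Ω _ _ _ _ _ ι a => h2.mono ι _ _
      (fun B _ γ p l _ hl hu => ⟨(p l hl hu).1, h3.wtMono l _ hw (p l hl hu).2⟩) (h.2 A₀ Ω ι a)⟩
  · rw [h2.good] at h ⊢
    refine ⟨t.pb g (w := w) h.1, fun A₀ Ω _ _ _ _ _ ι a => h2.mono ι _ _
      (fun B _ γ p l _ hl hu => h3.cwIso l w (gc_symm (pb_comp _ _ _)) ?_) (h.2 A₀ Ω ι (a ≫ g))⟩
    rw [Category.assoc]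
    exact p l hl hu
  · rw [h2.good] at a b c d ⊢
    refine ⟨t.five (w := w) (w₁ := w₁) (w₅ := w₅) F₁ F₂ F₃ F₄ F₅ e a.1 b.1 c.1 d.1,
      fun A₀ Ω _ _ _ _ _ ι x => h2.mono ι _ _ (fun B _ γ p l _ hl hu => ?_)
        (h2.and ι _ _ (h2.and ι _ _ (a.2 A₀ Ω ι x) (b.2 A₀ Ω ι x))
          (h2.and ι _ _ (c.2 A₀ Ω ι x) (d.2 A₀ Ω ι x)))⟩
    exact h3.cwFive l w _ _ _ _ _ (gc_ex5 (h5.exa _) (e l hl)) (h3.lcf l _ (p.1.1 l hl hu).1)
      (p.1.2 l hl hu) (p.2.1 l hl hu) (h3.lcf l _ (p.2.2 l hl hu).1)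
  · exact ⟨t.zero w F h, fun A₀ Ω _ _ _ _ _ _ a => ⟨⊥, Subalgebra.fg_bot,
      fun l _ hl B _ β _ => nul l w _ (gc_zero (h5.exa _) (h l hl))⟩⟩
  · rw [h2.good] at h ⊢
    exact ⟨t.iso (w := w) e h.1, fun A₀ Ω _ _ _ _ _ ι a => h2.mono ι _ _
      (fun B _ γ p l _ hl hu => h3.cwIso l w (gc_map _ (e l hl)) (p l hl hu)) (h.2 A₀ Ω ι a)⟩
  · rw [h2.good] at h ⊢
    exact ⟨t.loc (w := w) e h.1, fun A₀ Ω _ _ _ _ _ ι a => h2.mono ι _ _
      (fun B _ γ p l _ hl hu => h3.cwIso l w ((e l hl).2.2 B _ hu) (p l hl hu)) (h.2 A₀ Ω ι a)⟩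
  · rw [h2.good] at h ⊢
    refine ⟨t.ez O (w := w) h.1, fun A₀ Ω _ _ _ _ _ ι a => ?_⟩
    rcases h6 A₀ Ω ι X a O with s | s
    · exact h2.mono ι _ _ (fun B _ γ p l _ hl hu =>
        h3.cwIso l w (gc_symm (h4.pin _ O _ p.1)) (p.2 l hl hu)) (h2.and ι _ _ s (h.2 A₀ Ω ι a))
    · exact h2.mono ι _ _ (fun B _ γ p l _ _ _ => nul l w _ (h4.pout _ O _ p)) s

end Pool.Agent.MP_855f4c_ag.E.U

end

section

set_option autoImplicit false
set_option backward.isDefEq.respectTransparency false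

open CategoryTheory Limits Abelian Opposite AlgebraicGeometry TopologicalSpace ZeroObject

namespace Pool.Agent.MP_855f4c_ag.E.U

open E3 E4 Function

section ab
universe v u v' u'
variable {𝒜 : Type u} [Category.{v} 𝒜] [Abelian 𝒜]

lemma gxa_ex_mono {X Y Z : 𝒜} (g : Y ⟶ Z) [Mono g] : Ex (0 : X ⟶ Y) g :=
  ⟨zero_comp, ((ShortComplex.mk (0 : X ⟶ Y) g zero_comp).exact_iff_mono rfl).2 ‹_›⟩

lemma gxa_ex_epi {X Y Z : 𝒜} (f : X ⟶ Y) [Epi f] : Ex f (0 : Y ⟶ Z) :=
  ⟨comp_zero, ((ShortComplex.mk f (0 : Y ⟶ Z) comp_zero).exact_iff_epi rfl).2 ‹_›⟩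

/-- The quotient by a subobject and its long exact sequence. -/
lemma gxa_ses {ℬ : Type u'} [Category.{v'} ℬ] [Abelian ℬ] {T : ℕ → 𝒜 ⥤ ℬ} (hT : DF T)
    {A B : 𝒜} (i : A ⟶ B) (hi : Mono i) : ∃ (C : 𝒜) (π : B ⟶ C), Ex i π ∧ Epi π ∧
      (∀ Z : 𝒜, IsZero Z → Ex5 A B C Z Z) ∧
      (∀ Z : ℬ, Ex5 Z ((T 0).obj A) ((T 0).obj B) ((T 0).obj C) ((T 1).obj A)) ∧
      ∀ n, Ex5 ((T n).obj C) ((T (n + 1)).obj A) ((T (n + 1)).obj B) ((T (n + 1)).obj C)
        ((T (n + 1 + 1)).obj A) := by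
  have hx : Ex i (cokernel.π i) := ⟨cokernel.condition i, ShortComplex.exact_cokernel i⟩
  obtain ⟨hm, h⟩ := hT.les (ShortComplex.mk i (cokernel.π i) (cokernel.condition i))
    { exact := ShortComplex.exact_cokernel _ }
  refine ⟨cokernel i, cokernel.π i, hx, inferInstance, fun Z hZ => ?_, fun Z => ?_, fun n => ?_⟩
  · exact ⟨i, cokernel.π i, 0, 0, hx, gxa_ex_epi _,
      ⟨zero_comp, ShortComplex.exact_of_isZero_X₂ _ hZ⟩⟩
  · obtain ⟨h1, δ, h2, -⟩ := h 0
    exact ⟨0, _, _, δ, gxa_ex_mono _, h1, h2⟩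
  · obtain ⟨-, δ', -, h0⟩ := h n
    obtain ⟨h1, δ, h2, -⟩ := h (n + 1)
    exact ⟨δ', _, _, δ, h0, h1, h2⟩

end ab

/-- The support of the extension by zero. -/
lemma gxa_van_ez (hc : NTC_s) (he : NEZ_s) {l : ℕ} {X : Scheme.{0}} (O : X.Opens) (Z : Set X)
    (F : Sh (Scheme.etaleTopology.over X)) (h : Van l Z F) : Van l ((O : Set X) ∩ Z) ((ez O).obj F) := by
  intro k _ _ x hl hx s
  by_cases hO : ∃ t, x t ∉ O
  · exact he.outk O F k x hO s
  · push Not at hO
    have := he.mono O F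
    apply hc.mono ((ezι O).app F) this
    rw [map_zero]
    exact h k x hl (fun z hz => hx z ⟨hO z, hz⟩) _

/-- The support of the quotient by the extension by zero. -/
lemma gxa_van_coker (hc : NTC_s) (he : NEZ_s) {l : ℕ} {X : Scheme.{0}} (O : X.Opens) (Z : Set X)
    (F C : Sh (Scheme.etaleTopology.over X)) (π : F ⟶ C) (h1 : Ex (Y := F) ((ezι O).app F) π) (h2 : Epi π)
    (h : Van l Z F) : Van l (Z \ O) C := by
  intro k _ _ x hl hx s
  obtain ⟨s, rfl⟩ := hc.epi π h2 k x s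
  by_cases hZ : ∀ t, x t ∉ Z
  · rw [h k x hl hZ s, map_zero]
  · push Not at hZ
    obtain ⟨t₀, ht₀⟩ := hZ
    have hO : ∀ t, x t ∈ O := fun t => by
      obtain rfl : t = t₀ := Subsingleton.elim _ _
      by_contra h'
      exact hx t ⟨ht₀, h'⟩
    obtain ⟨s, rfl⟩ := (he.inn O F (Over.mk x) hO).2 s
    exact (hc.ex _ _ h1 k x).apply_apply_eq_zero s

/-- A sheaf with empty support has zero direct images where `l` is invertible. -/
lemma gxa_zero (hq : NRQ_s) (hc : NTC_s) {l : ℕ} {X T T' : Scheme.{0}} (f : X ⟶ T)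
    (F : Sh (Scheme.etaleTopology.over X)) (hF : Tc l F) (h : Van l ∅ F) (n : ℕ) (b : T' ⟶ T) (hl : Linv l T') :
    IsZero ((PB b).obj ((Rq f n).obj F)) := by
  obtain ⟨e⟩ := hq.bc (IsPullback.of_hasPullback f b) F n
  have hl' : Linv l (pullback f b) := hl.of_hom (pullback.snd f b)
  have hz : IsZero ((PB (pullback.fst f b)).obj F) :=
    hc.ptz l _ hl' (hc.pb l _ F hF) fun k _ _ x s =>
      h k (x ≫ pullback.fst f b) (hl' k x) (fun _ hz => hz) s
  have := (hq.df (pullback.snd f b)).add n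
  exact ((Rq (pullback.snd f b) n).map_isZero hz).of_iso e

/-- Row GXA. -/
theorem gxa (hpush : PUSH_s) (hcmp : CMP_s) (hchow : CHOW_s) (htw : TW_s) (hq : NRQ_s)
    (hc : NTC_s) (he : NEZ_s) : GXA_s := by
  intro LL P h0 hfin hp1 R _ _ X₀ X T f₀ _ f a b sq
  have : IsLocallyNoetherian X₀ := LocallyOfFiniteType.isLocallyNoetherian f₀
  have : CompactSpace X₀ := QuasiCompact.compactSpace_of_compactSpace f₀
  have : IsNoetherian X₀ := {}
  have : IsProper f := MorphismProperty.of_isPullback (P := @IsProper) sq inferInstance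
  have key : ∀ (Z : Closeds X₀) (w : ℕ) (F : Fam X), P X w F →
      (∀ (l : ℕ) [Fact l.Prime], l ∈ LL → Van l (a ⁻¹' Z) (F l)) →
      ∀ n, P T (w + n) fun l _ => (Rq f n).obj (F l) := by
    intro Z
    induction Z using WellFoundedLT.induction with
    | ind Z ih =>
    intro w F hF hV
    rcases (Z : Set X₀).eq_empty_or_nonempty with hZ | hZ
    · intro n
      refine h0.loc (F := fun _ _ => 0) (fun l _ hl => ?_)
        (h0.zero _ _ fun _ _ _ => isZero_zero _)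
      have ht := h0.tc hF l hl
      refine ⟨hc.lfp f _ n ht.1.1, hc.tor f _ n l ht.2, fun B _ c hB => ?_⟩
      have := (hq.exa c).1
      have hv := hV l hl
      rw [hZ, Set.preimage_empty] at hv
      exact ⟨((PB c).map_isZero (isZero_zero _)).iso
        (gxa_zero hq hc f _ ht hv n c (Linv.spec hB))⟩
    · obtain ⟨O, hO, hch⟩ := hchow R X₀ f₀ Z Z.isClosed hZ
      obtain ⟨G, p, hp, hpf, -, hiso⟩ := htw.2.2.2 sq O Z hch
      have hFO := h0.ez (a ⁻¹ᵁ O) hF
      choose C π e1 e2 e3 e4 e5 using fun (l : ℕ) (_ : Fact l.Prime) =>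
        gxa_ses (B := F l) (hq.df f) ((ezι (a ⁻¹ᵁ O)).app (F l)) (he.mono _ _)
      have hF' : P X w fun l i => C l i :=
        h0.five (fun l _ => (ez (a ⁻¹ᵁ O)).obj (F l)) F _ (fun _ _ => 0) (fun _ _ => 0)
          (fun l i _ => e3 l i _ (isZero_zero _)) hFO hF
          (h0.zero w _ fun _ _ _ => isZero_zero _) (h0.zero w _ fun _ _ _ => isZero_zero _)
      have hlt : (⟨(Z : Set X₀) \ O, Z.isClosed.sdiff O.isOpen⟩ : Closeds X₀) < Z := by
        refine lt_of_le_of_ne (fun x hx => hx.1) fun h => ?_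
        obtain ⟨x, hxO, hxZ⟩ := hO
        rw [← h] at hxZ
        exact hxZ.2 hxO
      have h3 := ih _ hlt w _ hF' fun l i hl =>
        gxa_van_coker hc he (a ⁻¹ᵁ O) _ _ _ _ (e1 l i) (e2 l i) (hV l hl)
      have hG := h0.pb p hFO
      have h1 : ∀ n, P T (w + n) fun l _ => (Rq f n).obj ((ez (a ⁻¹ᵁ O)).obj (F l)) := by
        intro n
        refine h0.loc (fun l _ hl => ?_) (hpush LL P h0 hfin hp1 (p ≫ f) hpf w _ hG n)
        have ht := h0.tc hFO l hl
        refine ⟨hc.lfp f _ n ht.1.1, hc.tor f _ n l ht.2, fun B _ c hB => ?_⟩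
        exact hcmp l p f (((a ⁻¹ᵁ O : X.Opens) : Set X) ∩ a ⁻¹' Z) _ hiso ht
          (gxa_van_ez hc he _ _ _ (hV l hl))
          (fun m => h0.tc (hpush LL P h0 hfin hp1 p hp w _ hG m) l hl) n _ c (Linv.spec hB)
      intro n
      cases n with
      | zero =>
        exact h0.five (fun _ _ => 0) _ _ _ _ (fun l i _ => e4 l i _)
          (h0.zero w _ fun _ _ _ => isZero_zero _) (h1 0) (h3 0) (h1 1)
      | succ n =>
        exact h0.five _ _ _ _ _ (fun l i _ => e5 l i n) (h3 n) (h1 (n + 1)) (h3 (n + 1))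
          (h1 (n + 1 + 1))
  intro w F hF n
  exact key ⊤ w F hF (fun l _ _ k _ _ x _ hx => (hx default trivial).elim) n

end Pool.Agent.MP_855f4c_ag.E.U

end

section

set_option autoImplicit false
set_option backward.isDefEq.respectTransparency false

open CategoryTheory Limits Abelian Opposite AlgebraicGeometry

namespace Pool.Agent.MP_855f4c_ag.E.U

open E3 Function

variable {X Y : Scheme.{0}}

lemma nrq_shf_zero {P : PSh X} (h : ∀ (T : Over X) (s : P.obj (op T)) (t : T.left),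
    ∃ (V : Over X) (v : V ⟶ T), Etale v.left ∧ P.map v.op s = 0 ∧ t ∈ Set.range v.left) :
    IsZero ((presheafToSheaf (Scheme.etaleTopology.over X) Ab.{1}).obj P) := by
  have z := isZero_zero (PSh X)
  have : Presheaf.IsLocallyInjective (Scheme.etaleTopology.over X) (z.from_ P) := ⟨fun {T} x y _ =>
    mem_Jov_of _ fun t => by
      obtain ⟨V, v, h1, h2, h3⟩ := h T.unop (x - y) t
      exact ⟨V, v, h1, sub_eq_zero.1 ((map_sub _ _ _).symm.trans h2), h3⟩⟩
  have : Epi (z.from_ P) := z.epi _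
  have : Presheaf.IsLocallySurjective (Scheme.etaleTopology.over X) (z.from_ P) :=
    Presheaf.isLocallySurjective_of_surjective _ _ fun T s =>
      ⟨0, (AddCommGrpCat.subsingleton_of_isZero (z.obj T)).elim _ _⟩
  have := ((Scheme.etaleTopology.over X).W_iff _).1 ((Scheme.etaleTopology.over X).W_of_isLocallyBijective (z.from_ P))
  exact ((presheafToSheaf (Scheme.etaleTopology.over X) Ab.{1}).map_isZero z).of_iso
    (asIso ((presheafToSheaf (Scheme.etaleTopology.over X) Ab.{1}).map (z.from_ P)))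

lemma nrq_loc (T : Over X) (F : Sh (Scheme.etaleTopology.over X)) (q : ℕ) (x : H T F (q + 1)) (t : T.left) :
    ∃ (V : Over X) (v : V ⟶ T), Etale v.left ∧ res v F _ x = 0 ∧ t ∈ Set.range v.left := by
  obtain ⟨⟨V, v, h1, h2⟩, h⟩ := loc_van
    (ι := Σ' (V : Over X) (v : V ⟶ T), Etale v.left ∧ t ∈ Set.range v.left) (fun i => i.2.1)
    (fun G G' φ _ s => by
      obtain ⟨V, v, -, h1, h2, h3⟩ := lifts_pt T φ s t
      exact ⟨⟨V, v, h1, h3⟩, h2⟩) q F x
  exact ⟨V, v, h1, h, h2⟩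

/-- The two ways round a cartesian square. -/
noncomputable def nrq_sq {X S X' S' : Scheme.{0}} {f : X ⟶ S} {f' : X' ⟶ S'} {a : S' ⟶ S}
    {b : X' ⟶ X} (h : IsPullback b f' f a) :
    Over.pullback f' ⋙ Over.map b ≅ Over.map a ⋙ Over.pullback f :=
  NatIso.ofComponents (fun T =>
    have := E4.isIso_toPb f (T := (Over.map a).obj T)
      (T' := (Over.map b).obj ((Over.pullback f').obj T))
      ((IsPullback.of_hasPullback T.hom f').paste_vert h.flip)
    asIso (E4.toPb f (T := (Over.map a).obj T) (T' := (Over.map b).obj ((Over.pullback f').obj T))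
      _ ((IsPullback.of_hasPullback T.hom f').paste_vert h.flip).w))
    fun _ => E4.toPb_nat f _ _ _ _ (pullback.lift_fst _ _ _)

lemma nrq_rb (f : X ⟶ Y) (n : ℕ) : Rq f n = Rb (Scheme.etaleTopology.over X) (Scheme.etaleTopology.over Y) (Over.pullback f) n := rfl

lemma nrq_obj (f : X ⟶ Y) (n : ℕ) (F : Sh (Scheme.etaleTopology.over X)) : (Rq f n).obj F =
    (presheafToSheaf (Scheme.etaleTopology.over Y) Ab.{1}).obj ((Over.pullback f).op ⋙ (HPF n).obj F) := rfl

lemma nrq_van (f : X ⟶ Y) (F : Sh (Scheme.etaleTopology.over X)) (q : ℕ)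
    (h : ∀ (T : Over Y) (s : H ((Over.pullback f).obj T) F q) (t : T.left),
      ∃ (V : Over Y) (v : V ⟶ T), Etale v.left ∧ res ((Over.pullback f).map v) F q s = 0 ∧
        t ∈ Set.range v.left) : IsZero ((Rq f q).obj F) := by
  rw [nrq_obj]; exact nrq_shf_zero h

lemma nrq_ex {C : Type 1} [Category.{0} C] {J : GrothendieckTopology C} {A B D : Sh J} {f : A ⟶ B}
    {g : B ⟶ D} (h : ∃ w, (ShortComplex.mk f g w).Exact) : Ex f g := h

lemma nrq_les {C D : Type 1} [Category.{0} C] [Category.{0} D] (J : GrothendieckTopology C)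
    (K : GrothendieckTopology D) (G : D ⥤ C) [G.IsContinuous K J] (S : ShortComplex (Sh J))
    (hS : S.ShortExact) : Mono ((Rb J K G 0).map S.f) ∧ ∀ n,
      Ex ((Rb J K G n).map S.f) ((Rb J K G n).map S.g) ∧
      ∃ δ : (Rb J K G n).obj S.X₃ ⟶ (Rb J K G (n + 1)).obj S.X₁,
        Ex ((Rb J K G n).map S.g) δ ∧ Ex δ ((Rb J K G (n + 1)).map S.f) := by
  refine ⟨?_, fun n => ?_⟩
  · have := hS.mono_f
    have e := (R0 J K G).hom.naturality S.f
    have : Mono ((Rb J K G 0).map S.f ≫ (R0 J K G).hom.app _) := by rw [e]; infer_instance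
    exact mono_of_mono _ ((R0 J K G).hom.app _)
  · have h1 := nrq_ex (Rb_exact₁ K G hS n)
    have h2 := nrq_ex (Rb_exact₂ K G hS n)
    have h3 := nrq_ex (Rb_exact₃ K G hS n)
    exact ⟨h2, _, h3, h1⟩

lemma nrq_of {𝒜 ℬ : Type 2} [Category.{1} 𝒜] [a : Abelian 𝒜] [Category.{1} ℬ] [Abelian ℬ]
    [z : HasZeroMorphisms 𝒜] (T : ℕ → 𝒜 ⥤ ℬ) (h1 : ∀ n, (T n).Additive)
    (h2 : ∀ S : ShortComplex 𝒜, S.ShortExact → Mono ((T 0).map S.f) ∧ ∀ n,
      Ex ((T n).map S.f) ((T n).map S.g) ∧ ∃ δ : (T n).obj S.X₃ ⟶ (T (n + 1)).obj S.X₁,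
        Ex ((T n).map S.g) δ ∧ Ex δ ((T (n + 1)).map S.f))
    (h3 : ∀ (I : 𝒜) (n : ℕ), Injective I → IsZero ((T (n + 1)).obj I)) : DF T := by
  obtain rfl : z = Preadditive.preadditiveHasZeroMorphisms := Subsingleton.elim _ _
  exact ⟨h1, h2, h3⟩

lemma nrq_df₀ {C D : Type 1} [Category.{0} C] [Category.{0} D] (J : GrothendieckTopology C)
    (K : GrothendieckTopology D) (G : D ⥤ C) [G.IsContinuous K J]
    (h : ∀ (I : Sh J) (n : ℕ), Injective I → IsZero ((Rb J K G (n + 1)).obj I)) :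
    DF (Rb J K G) := nrq_of _ (fun _ => inferInstance) (nrq_les J K G) h

lemma nrq_df (f : X ⟶ Y) : DF (Rq f) := by
  have h (I : Sh (Scheme.etaleTopology.over X)) (n : ℕ) (_ : Injective I) : IsZero ((Rq f (n + 1)).obj I) :=
    nrq_van f I _ fun T s t =>
      ⟨T, 𝟙 T, inferInstanceAs (Etale (𝟙 T.left)), Ext.eq_zero_of_injective _, t, rfl⟩
  rw [show Rq f = Rb (Scheme.etaleTopology.over X) (Scheme.etaleTopology.over Y) (Over.pullback f) from funext (nrq_rb f)] at h ⊢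
  exact nrq_df₀ _ _ _ h

lemma nrq_zero (f : X ⟶ Y) : Is (Rq f 0) (PF f) := by
  rw [nrq_rb]; exact ⟨R0 _ _ (Over.pullback f)⟩

lemma nrq_comp {Z : Scheme.{0}} (f : X ⟶ Y) (g : Y ⟶ Z) : Is (PF f ⋙ PF g) (PF (f ≫ g)) :=
  ⟨Functor.sheafPushforwardContinuousComp' (Over.pullbackComp f g).symm _ _ _ _⟩

lemma nrq_id (X : Scheme.{0}) : Is (PF (𝟙 X)) (𝟭 _) :=
  ⟨Functor.sheafPushforwardContinuousId' Over.pullbackId _ _⟩

/-- An isomorphism of presheaves from its components. -/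
noncomputable def nrq_iso (P Q : PSh X) (φ : ∀ U, P.obj (op U) →+ Q.obj (op U))
    (h : ∀ U, Bijective (φ U)) (e : ∀ (U V : Over X) (g : V ⟶ U) (x : P.obj (op U)),
      φ V ((P.map g.op).hom x) = (Q.map g.op).hom (φ U x)) : P ≅ Q :=
  NatIso.ofComponents (fun U => (AddEquiv.ofBijective _ (h U.unop)).toAddCommGrpIso) fun g =>
    AddCommGrpCat.hom_ext (AddMonoidHom.ext fun x => e _ _ g.unop x)

/-- Cohomology in a slice. -/
noncomputable def nrq_sl (b : X ⟶ Y) (F : Sh (Scheme.etaleTopology.over Y)) (n : ℕ) :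
    (Over.map b).op ⋙ (HPF n).obj F ≅ (HPF n).obj ((PB b).obj F) :=
  nrq_iso _ _ (fun U => E4.slH b U F n) (fun U => E4.slH_bij b U F n)
    fun _ _ g x => E4.slH_res b g F n x

lemma nrq_shf (a : X ⟶ Y) (P : PSh Y) :
    Is ((PB a).obj ((presheafToSheaf (Scheme.etaleTopology.over Y) Ab.{1}).obj P))
      ((presheafToSheaf (Scheme.etaleTopology.over X) Ab.{1}).obj ((Over.map a).op ⋙ P)) :=
  ⟨(((Over.map a).pushforwardContinuousSheafificationCompatibility Ab.{1} _ _).app P).symm⟩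

lemma nrq_bc₀ {X S X' S' : Scheme.{0}} {f : X ⟶ S} {f' : X' ⟶ S'} {a : S' ⟶ S} {b : X' ⟶ X}
    (h : IsPullback b f' f a) (P : PSh X) (P' : PSh X') (e : (Over.map b).op ⋙ P ≅ P') :
    Is ((PB a).obj ((presheafToSheaf (Scheme.etaleTopology.over S) Ab.{1}).obj ((Over.pullback f).op ⋙ P)))
      ((presheafToSheaf (Scheme.etaleTopology.over S') Ab.{1}).obj ((Over.pullback f').op ⋙ P')) :=
  (nrq_shf a _).map fun e' => e' ≪≫ (presheafToSheaf (Scheme.etaleTopology.over S') Ab.{1}).mapIso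
    (Functor.isoWhiskerRight (NatIso.op (nrq_sq h)) P ≪≫
      Functor.isoWhiskerLeft (Over.pullback f').op e)

lemma nrq_bc {X S X' S' : Scheme.{0}} {f : X ⟶ S} {f' : X' ⟶ S'} {a : S' ⟶ S} {b : X' ⟶ X}
    (h : IsPullback b f' f a) (F : Sh (Scheme.etaleTopology.over X)) (n : ℕ) :
    Is ((PB a).obj ((Rq f n).obj F)) ((Rq f' n).obj ((PB b).obj F)) := by
  rw [nrq_obj, nrq_obj]
  exact nrq_bc₀ h _ _ (nrq_sl b F n)

lemma nrq_int (ρ : X ⟶ Y) (_ : IsIntegralHom ρ) (G : Sh (Scheme.etaleTopology.over X)) (q : ℕ) :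
    IsZero ((Rq ρ (q + 1)).obj G) := nrq_van ρ G _ fun T s t => by
  obtain ⟨V, v, h1, h2, h3⟩ := nrq_loc T _ q (E4.intH ρ T G _ s) t
  rw [← E4.intH_res] at h2
  exact ⟨V, v, h1, (injective_iff_map_eq_zero _).1 (E4.intH_bij ρ V G _).1 _ h2, h3⟩

theorem nrq : NRQ_s :=
  ⟨nrq_df, nrq_zero, nrq_comp, nrq_id, fun f I _ => E4.pf_injective f I,
    fun _ => ⟨inferInstance, inferInstance, inferInstance⟩, nrq_bc, nrq_int⟩

end Pool.Agent.MP_855f4c_ag.E.U

end

section

set_option autoImplicit false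
set_option backward.isDefEq.respectTransparency false

open CategoryTheory Limits Abelian Opposite AlgebraicGeometry

namespace Pool.Agent.MP_855f4c_ag.E.U

open E3 E4 Function

/-- A thick class is closed under finite sums. -/
theorem strip_sum {𝒜 : Type*} [Category* 𝒜] [Abelian 𝒜] {L : 𝒜 → Prop} (hL : Thick L) {I : Type}
    [Finite I] (G : I → 𝒜) [HasBiproduct G] (h : ∀ i, L (G i)) : L (⨁ G) := by
  let P : ObjectProperty 𝒜 := L
  have : P.IsClosedUnderIsomorphisms := ⟨fun e h => hL.iso e h⟩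
  have : P.ContainsZero := ⟨⟨_, isZero_zero 𝒜, hL.zero _ (isZero_zero 𝒜)⟩⟩
  have : P.IsClosedUnderBinaryProducts := .mk' (by
    rintro _ ⟨F, hF⟩
    exact hL.iso (biprod.isoProd _ _ ≪≫ (HasLimit.isoOfNatIso (diagramIsoPair F)).symm)
      (hL.ext _ (ShortComplex.Splitting.ofHasBinaryBiproduct _ _).shortExact (hF _) (hF _)))
  have := ObjectProperty.IsClosedUnderFiniteProducts.mk' (P := P)
  exact P.prop_of_isLimit_fan (biproduct.isLimit G) h

/-- Five terms of the long exact sequence. -/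
theorem strip_les {𝒜 ℬ : Type*} [Category* 𝒜] [Abelian 𝒜] [Category* ℬ] [Abelian ℬ]
    {T : ℕ → 𝒜 ⥤ ℬ} (hT : DF T) {A B C : 𝒜} {f : A ⟶ B} {g : B ⟶ C} (h : Ex f g) (_ : Mono f)
    (_ : Epi g) (b : ℕ) : ∃ N, (IsZero N ∨ ∃ a, N = (T a).obj C) ∧
      Ex5 N ((T b).obj A) ((T b).obj B) ((T b).obj C) ((T (b + 1)).obj A) := by
  obtain ⟨m, les⟩ := hT.les (ShortComplex.mk _ _ h.1) { exact := h.2 }
  obtain ⟨e1, δ, e2, -⟩ := les b
  obtain _ | b := b
  · exact ⟨_, .inl (isZero_zero ℬ), 0, _, _, δ,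
      ⟨zero_comp, (ShortComplex.exact_iff_mono _ rfl).2 m⟩, e1, e2⟩
  · obtain ⟨-, δ', -, e3⟩ := les b
    exact ⟨_, .inr ⟨b, rfl⟩, δ', _, _, δ, e3, e1, e2⟩

section sec
variable {X Y S : Scheme.{0}}

/-- Evaluation of a morphism of sheaves at a section. -/
noncomputable def strip_ev {F : Sh (Scheme.etaleTopology.over X)} (G : Sh (Scheme.etaleTopology.over X)) {T : Over X} (s : sec F T) :
    (F ⟶ G) →+ sec G T where
  toFun φ := app φ T s
  map_zero' := rfl
  map_add' _ _ := rfl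

lemma strip_comp {F G K : Sh (Scheme.etaleTopology.over X)} (φ : F ⟶ G) (χ : G ⟶ K) (T : Over X) (s : sec F T) :
    app (φ ≫ χ) T s = app χ T (app φ T s) := rfl

/-- Sections of a finite sum. -/
theorem strip_pi {I : Type} [Finite I] (G : I → Sh (Scheme.etaleTopology.over X)) (T : Over X) :
    Bijective fun (s : sec (⨁ G) T) i => app (biproduct.π G i) T s := by
  classical
  have := Fintype.ofFinite I
  refine ⟨fun s t h => ?_, fun t => ⟨∑ i, app (biproduct.ι G i) T (t i), funext fun j => ?_⟩⟩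
  · have e (s : sec (⨁ G) T) :
        s = ∑ i, app (biproduct.ι G i) T (app (biproduct.π G i) T s) :=
      (congrArg (strip_ev (⨁ G) s) biproduct.total).symm.trans (map_sum _ _ _)
    rw [e s, e t]
    exact Finset.sum_congr rfl fun i _ => congrArg _ (congrFun h i)
  · dsimp only
    rw [map_sum, Finset.sum_eq_single j (fun i _ hi => ?_) (by simp), ← strip_comp,
      biproduct.ι_π_self]
    · rfl
    · rw [← strip_comp, biproduct.ι_π_ne _ hi]
      rfl

lemma strip_lift {I : Type} [Finite I] {F : Sh (Scheme.etaleTopology.over X)} {G : I → Sh (Scheme.etaleTopology.over X)} (φ : ∀ i, F ⟶ G i)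
    (T : Over X) (s : sec F T) (i : I) :
    app (biproduct.π G i) T (app (biproduct.lift φ) T s) = app (φ i) T s := by
  rw [← strip_comp, biproduct.lift_π]

/-- The value along a lift `σ` of `b`. -/
noncomputable def fspl_map (c : X ⟶ Y) {b : S ⟶ Y} {σ : S ⟶ X} (h : σ ≫ c = b) (F : Sh (Scheme.etaleTopology.over X)) :
    (PB b).obj ((PF c).obj F) ⟶ (PB σ).obj F :=
  ⟨{ app T := F.obj.map (toPb c (T := (Over.map b).obj T.unop) (T' := (Over.map σ).obj T.unop)
        (𝟙 T.unop.left) (by simp [h])).op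
     naturality T T' g := by
      refine (F.obj.map_comp _ _).symm.trans (.trans (congrArg _ ?_) (F.obj.map_comp _ _))
      refine congrArg Quiver.Hom.op (toPb_nat c _ _ ((Over.map b).map g.unop)
        ((Over.map σ).map g.unop) ?_).symm
      simp }⟩

/-- The unit `F ⟶ σ_* σ^* F`. -/
noncomputable def strip_unit (σ : Y ⟶ X) (F : Sh (Scheme.etaleTopology.over X)) : F ⟶ (PF σ).obj ((PB σ).obj F) :=
  ⟨{ app T := F.obj.map (Over.homMk (pullback.fst T.unop.hom σ) pullback.condition :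
        (Over.map σ).obj ((Over.pullback σ).obj T.unop) ⟶ T.unop).op
     naturality T T' g := by
      refine (F.obj.map_comp _ _).symm.trans (.trans (congrArg _ ?_) (F.obj.map_comp _ _))
      refine congrArg Quiver.Hom.op (Over.OverMorphism.ext ?_)
      exact (pullback.lift_fst _ _ _).symm }⟩

lemma strip_at (σ : Y ⟶ X) (F : Sh (Scheme.etaleTopology.over X)) {T : Over X} (y : T ⟶ Over.mk σ) :
    Bijective fun s => atLift σ ((PB σ).obj F) y (app (strip_unit σ F) T s) := by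
  let e : (Over.map σ).obj (Over.mk y.left) ≅ T := Over.isoMk (Iso.refl _) (by simpa using (Over.w y).symm)
  have : (fun s => atLift σ ((PB σ).obj F) y (app (strip_unit σ F) T s)) = F.obj.map e.hom.op := by
    funext s
    refine (res_res F.obj _ _ s).trans (congrArg (fun g => F.obj.map (Quiver.Hom.op g) s) ?_)
    exact Over.OverMorphism.ext (pullback.lift_fst _ _ _)
  rw [this]
  exact ConcreteCategory.bijective_of_isIso _

end sec

lemma strip_reidx {A I J : Type*} {M : J → Type*} {e : I → J} (he : Bijective e)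
    {g : A → ∀ j, M j} (hg : Bijective g) {g' : A → ∀ i, M (e i)} (h : ∀ a i, g' a i = g a (e i)) :
    Bijective g' := by
  obtain rfl : g' = fun a i => g a (e i) := funext fun a => funext (h a)
  exact (Equiv.piCongrLeft M (Equiv.ofBijective e he)).symm.bijective.comp hg

theorem fspl (h1 : NTC_s) : FSPL_s := by
  intro l X Y S c _ b I _ σ F hl hF hσ hu
  have : IsIso (biproduct.lift fun i => fspl_map c (hσ i) F) := by
    refine h1.pti l _ hl (h1.pb l b _ (pf_tc c hF))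
      (strip_sum (h1.thick l S) _ fun i => h1.pb l _ _ hF) fun k _ _ s => ?_
    have w (i : I) : (s ≫ σ i) ≫ c = s ≫ b := by rw [Category.assoc, hσ]
    have he : Bijective fun i => (Over.homMk (s ≫ σ i) (w i) : Over.mk (s ≫ b) ⟶ Over.mk c) :=
      ⟨fun i j h => (hu k s _ (w i)).unique rfl (congrArg CommaMorphism.left h), fun y => by
        obtain ⟨i, hi, -⟩ := hu k s y.left (Over.w y)
        exact ⟨i, Over.OverMorphism.ext hi.symm⟩⟩
    have h2 : Bijective fun t i => app (fspl_map c (hσ i) F) (Over.mk s) t :=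
      strip_reidx he (stalk_bij c hF.1 (hl k s) (s ≫ b)) fun _ _ => rfl
    rw [← (strip_pi _ (Over.mk s)).of_comp_iff']
    exact (congrArg Bijective (funext fun t => funext fun i =>
      strip_lift (fun i => fspl_map c (hσ i) F) (Over.mk s) t i)).mpr h2
  exact ⟨asIso (biproduct.lift fun i => fspl_map c (hσ i) F)⟩

/-- The exact sequence of the open part and the sections. -/
theorem strip_ses (h2 : NTC_s) (h3 : NEZ_s) {l : ℕ} {X Y : Scheme.{0}} (f : X ⟶ Y) (O : X.Opens)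
    {I : Type} [Finite I] (σ : I → (Y ⟶ X)) (F : Sh (Scheme.etaleTopology.over X)) (hX : Linv l X) (hF : Tc l F)
    [∀ i, IsClosedImmersion (σ i)] (hs : ∀ i, σ i ≫ f = 𝟙 Y) (ho : ∀ i y, σ i y ∉ O)
    (hu : ∀ (k : Type) [Field k] [IsAlgClosed k] (x : Spec (.of k) ⟶ X), (∃ t, x t ∉ O) →
      ∃! i, x = (x ≫ f) ≫ σ i) :
    Ex ((ezι O).app F) (biproduct.lift fun i => strip_unit (σ i) F) ∧
      Epi (biproduct.lift fun i => strip_unit (σ i) F) := by
  let G : I → Sh (Scheme.etaleTopology.over X) := fun i => (PF (σ i)).obj ((PB (σ i)).obj F)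
  let u : F ⟶ ⨁ G := biproduct.lift fun i => strip_unit (σ i) F
  have tG : Tc l (⨁ G) := strip_sum (h2.thick l X) _ fun i => pf_tc _ (h2.pb l _ _ hF)
  have inj (k : Type) [Field k] [IsAlgClosed k] (x : Spec (.of k) ⟶ X) (s t : sec (⨁ G) (Over.mk x))
      (h : ∀ i (y : Over.mk x ⟶ Over.mk (σ i)),
        atLift (σ i) _ y (app (biproduct.π G i) _ s) = atLift (σ i) _ y (app (biproduct.π G i) _ t)) :
      s = t :=
    (strip_pi G _).1 (funext fun i => stalk_inj (σ i) (h2.pb l _ _ hF).1 (hX k x) x (funext (h i)))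
  have inn (k : Type) [Field k] [IsAlgClosed k] (x : Spec (.of k) ⟶ X) (h : ∀ t, x t ∈ O)
      (s : sec (⨁ G) (Over.mk x)) : s = 0 :=
    inj k x _ _ fun i y => (ho i (y.left (IsLocalRing.closedPoint k)) (by
      have := h (IsLocalRing.closedPoint k)
      rwa [← show y.left ≫ σ i = x from Over.w y] at this)).elim
  have out (k : Type) [Field k] [IsAlgClosed k] (x : Spec (.of k) ⟶ X) (h : ∃ t, x t ∉ O) :
      Bijective (app u (Over.mk x)) := by
    obtain ⟨i, hi, hj⟩ := hu k x h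
    let y : Over.mk x ⟶ Over.mk (σ i) := Over.homMk (x ≫ f) hi.symm
    have b := strip_at (σ i) F y
    refine ⟨fun s t e => b.1 ?_, fun n => ?_⟩
    · exact congrArg (atLift (σ i) _ y) ((strip_lift _ _ s i).symm.trans
        ((congrArg (app (biproduct.π G i) _) e).trans (strip_lift _ _ t i)))
    · obtain ⟨s, hs'⟩ := b.2 (atLift (σ i) _ y (app (biproduct.π G i) _ n))
      refine ⟨s, inj k x _ _ fun j z => ?_⟩
      have e0 : z.left ≫ σ j = x := Over.w z
      have e : z.left = x ≫ f := .trans (by rw [Category.assoc, hs]; exact (Category.comp_id _).symm)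
        (congrArg (· ≫ f) e0)
      obtain rfl : j = i := hj j (e0.symm.trans (congrArg (· ≫ σ j) e))
      obtain rfl : z = y := Over.OverMorphism.ext e
      exact (congrArg _ (strip_lift _ _ s j)).trans hs'
  have ex : Ex ((ezι O).app F) u := h2.ptx l _ _ hX (h3.tc l O F hF) hF tG fun k _ _ x => by
    by_cases h : ∀ t, x t ∈ O
    · exact fun s => ⟨fun _ => (h3.inn O F _ h).2 s, fun _ => inn k x h _⟩
    · push Not at h
      refine fun s => ⟨fun e => ⟨0, ?_⟩, ?_⟩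
      · rw [map_zero, (out k x h).1 (e.trans (map_zero _).symm)]
      · rintro ⟨t, rfl⟩
        rw [h3.outk O F k x h t, map_zero, map_zero]
  have ep : Epi u := h2.pte l _ hX hF tG fun k _ _ x => by
    by_cases h : ∀ t, x t ∈ O
    · exact fun s => ⟨0, (inn k x h _).trans (inn k x h s).symm⟩
    · push Not at h
      exact (out k x h).2
  exact ⟨ex, ep⟩

theorem strip (h1 : NRQ_s) (h2 : NTC_s) (h3 : NEZ_s) (h4 : GE_s) (h5 : LERS_s) : STRIP_s := by
  intro l _ w X Y f O I _ σ F hl hF hc hs ho hu hw hO b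
  obtain ⟨ex, ep⟩ := strip_ses h2 h3 f O σ F (hl.of_hom f) hF hs ho hu
  have hG (i : I) (b : ℕ) : CW l (w + b) ((Rq f b).obj ((PF (σ i)).obj ((PB (σ i)).obj F))) := by
    obtain ⟨e⟩ := h5.deg (σ i) f ((PB (σ i)).obj F) (h1.int _ inferInstance _) b
    rw [hs] at e
    refine h4.cwIso l _ ⟨e.symm⟩ ?_
    obtain _ | b := b
    · obtain ⟨e1⟩ := h1.zero (𝟙 Y)
      obtain ⟨e2⟩ := h1.id Y
      exact h4.cwIso l _ ⟨((e1 ≪≫ e2).app _).symm⟩ (hw i)
    · exact (h4.nul l _ _ (h4.zero l _ (h1.int _ inferInstance _ b))).2.1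
  have hK (b : ℕ) :
      CW l (w + b) ((Rq f b).obj (⨁ fun i => (PF (σ i)).obj ((PB (σ i)).obj F))) :=
    have := (h1.df f).add b
    h4.cwIso l _ ⟨((Rq f b).mapBiproduct _).symm⟩ (h4.cwSum l _ _ fun i => hG i b)
  obtain ⟨N, hN, e⟩ := strip_les (h1.df f) ex (h3.mono O F) ep b
  refine h4.cwFive l _ _ _ _ _ _ e ?_ (hO b) (hK b) (h4.lcf l _ (hO (b + 1)).1)
  obtain hN | ⟨a, rfl⟩ := hN
  exacts [(h4.zero l _ hN).1, h4.lcf l _ (hK a).1]

end Pool.Agent.MP_855f4c_ag.E.U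

end
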