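import Pool.Agent.MP_855f4c_ag.EC.Uc
import Pool.Agent.MP_855f4c_ag.EC.E4c
import Pool.Agent.MP_855f4c_ag.EC.F2b
import Pool.Agent.MP_855f4c_ag.EC.E4d
import Pool.Agent.MP_855f4c_ag.EC.E4f
import Pool.Agent.MP_855f4c_ag.EC.Ud
import Pool.Agent.MP_855f4c_ag.EC.Ue
import Pool.Agent.MP_855f4c_ag.EC.Pc
import Pool.Agent.MP_855f4c_ag.EC.Ua

section

set_option autoImplicit false
set_option backward.isDefEq.respectTransparency false

open CategoryTheory Limits Abelian Opposite AlgebraicGeometry Polynomial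

namespace Pool.Agent.MP_855f4c_ag.E.U

open E3 E4 Function

section
variable {A B Ω Ω' : Type} [CommRing A] [CommRing B] [Algebra A B] [Field Ω] [IsAlgClosed Ω]
  [Algebra A Ω] [FaithfulSMul A Ω] [Algebra.IsAlgebraic A Ω] [Field Ω'] [Algebra B Ω']
  [Algebra A Ω'] [IsScalarTower A B Ω'] [Algebra Ω Ω'] [IsScalarTower A Ω Ω']

lemma coi_stab (A : Type) [CommRing A] [Algebra A B] [Algebra A Ω] [FaithfulSMul A Ω]
    [Algebra.IsAlgebraic A Ω] [Algebra A Ω'] [IsScalarTower A B Ω'] [IsScalarTower A Ω Ω']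
    (g : Ω' ≃ₐ[B] Ω') (c : Ω) : ∃ c', algebraMap Ω Ω' c' = g (algebraMap Ω Ω' c) ∧
      (IsIntegral A c → IsIntegral A c') := by
  have h1 : IsAlgebraic A (g (algebraMap Ω Ω' c)) :=
    (Algebra.IsAlgebraic.isAlgebraic c).algebraMap.algHom (g.restrictScalars A).toAlgHom
  obtain ⟨c', hc⟩ := aic_root (aic_field Ω) _
    (h1.extendScalars (FaithfulSMul.algebraMap_injective A Ω)).isIntegral
  refine ⟨c', hc, fun h => (isIntegral_algebraMap_iff (algebraMap Ω Ω').injective).1 ?_⟩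
  rw [hc]
  exact h.algebraMap.map (g.restrictScalars A).toAlgHom

lemma coi_alg [FaithfulSMul B Ω'] [Algebra B Ω] [IsScalarTower A B Ω]
    (hρ : ∀ r : B, ∃ a : A, algebraMap B Ω r = algebraMap A Ω a) :
    ∃ b : integralClosure B Ω' →ₐ[B] Ω, ∀ γ : Ω' ≃ₐ[B] Ω', ∃ ψ : Ω →ₐ[B] Ω,
      (∀ c, algebraMap Ω Ω' (ψ c) = γ (algebraMap Ω Ω' c)) ∧ ∀ g : Ω' ≃ₐ[B] Ω',
        (∀ z w : integralClosure B Ω', (w : Ω') = g z → b w = ψ (b z)) →
        ∀ c, g (algebraMap Ω Ω' c) = γ (algebraMap Ω Ω' c) := by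
  have inj := (algebraMap Ω Ω').injective
  have : IsDomain A := (FaithfulSMul.algebraMap_injective A Ω).isDomain _
  have := RingHom.ker_isPrime (algebraMap B Ω)
  obtain ⟨P, _, hP⟩ := Ideal.exists_ideal_over_prime_of_isIntegral_of_isDomain
    (S := integralClosure B Ω') (RingHom.ker (algebraMap B Ω)) fun x hx => by
      obtain rfl : x = 0 := FaithfulSMul.algebraMap_injective B Ω'
        ((congrArg Subtype.val hx).trans (map_zero _).symm)
      exact zero_mem _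
  obtain ⟨b, -⟩ := E4.exists_point P hP
  let j : integralClosure A Ω →ₐ[A] integralClosure B Ω' :=
    { toFun c := ⟨algebraMap Ω Ω' c, (IsIntegral.algebraMap c.2).tower_top⟩
      map_one' := Subtype.ext (map_one _)
      map_mul' _ _ := Subtype.ext (map_mul _ _ _)
      map_zero' := Subtype.ext (map_zero _)
      map_add' _ _ := Subtype.ext (map_add _ _ _)
      commutes' a := Subtype.ext (IsScalarTower.algebraMap_apply A Ω Ω' a).symm }
  have hk (e : integralClosure A Ω →ₐ[A] Ω) : RingHom.ker e = ⊥ :=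
    Ideal.eq_bot_of_comap_eq_bot (R := A) (eq_bot_iff.2 fun a ha =>
      FaithfulSMul.algebraMap_injective A Ω (((e.commutes a).symm.trans ha).trans (map_zero _).symm))
  obtain ⟨σ, hσ⟩ := conj_of_ker ((b.restrictScalars A).comp j) (integralClosure A Ω).val
    ((hk _).trans (hk _).symm)
  let σ' : Ω →ₐ[B] Ω := ⟨σ, fun r => by
    obtain ⟨a, ha⟩ := hρ r
    rw [ha]; exact σ.commutes a⟩
  refine ⟨σ'.comp b, fun γ => ?_⟩
  choose f hf _ using coi_stab (Ω := Ω) A γ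
  refine ⟨{ toFun := f
            map_one' := inj (by simp [hf])
            map_mul' _ _ := inj (by simp [hf])
            map_zero' := inj (by simp [hf])
            map_add' _ _ := inj (by simp [hf])
            commutes' r := inj ?_ }, hf, fun g hg c => ?_⟩
  · obtain ⟨a, ha⟩ := hρ r
    rw [hf, ha, ← IsScalarTower.algebraMap_apply, IsScalarTower.algebraMap_apply A B Ω',
      γ.commutes]
  · have H (c : Ω) (hc : IsIntegral A c) : g (algebraMap Ω Ω' c) = γ (algebraMap Ω Ω' c) := by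
      obtain ⟨c', h1, h2⟩ := coi_stab A g c
      have h3 : σ (b (j ⟨c', h2 hc⟩)) = f (σ (b (j ⟨c, hc⟩))) := hg (j ⟨c, hc⟩) (j ⟨c', h2 hc⟩) h1
      have h4 : σ (b (j ⟨c', h2 hc⟩)) = c' := hσ _
      have h5 : σ (b (j ⟨c, hc⟩)) = c := hσ _
      rw [← h1, ← hf, ← h4, h3, h5]
    obtain ⟨a, ha, hi⟩ := (Algebra.IsAlgebraic.isAlgebraic (R := A) c).exists_integral_multiple
    have h0 : algebraMap B Ω' (algebraMap A B a) ≠ 0 := by
      rw [← IsScalarTower.algebraMap_apply, IsScalarTower.algebraMap_apply A Ω Ω']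
      simpa using ha
    have := H _ hi
    rw [Algebra.smul_def, map_mul, ← IsScalarTower.algebraMap_apply,
      IsScalarTower.algebraMap_apply A B Ω', map_mul, map_mul, g.commutes, γ.commutes] at this
    exact mul_left_cancel₀ h0 this

lemma coi_gen (h1 : SUB_s) (h2 : GE_s) (h3 : NTC_s) (l : ℕ) [IsDomain B] [IsIntegrallyClosed B]
    [IsAlgClosed Ω'] [FaithfulSMul B Ω'] [Algebra.IsAlgebraic B Ω'] (ρ : B →ₐ[A] A)
    (hl : IsUnit (l : A)) (G : Sh (Scheme.etaleTopology.over (Spec (.of B)))) (hG : Lcf l G) :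
    ∃ (K : Sh (Scheme.etaleTopology.over (Spec (.of B)))) (W : Sh (Scheme.etaleTopology.over (Spec (.of A))))
      (i : K ⟶ G) (p : G ⟶ (PB (spc (algebraMap A B))).obj W), Mono i ∧ Ex i p ∧ Epi p ∧
      Lcf l K ∧ Lcf l W ∧ (app i (ob (𝟙 _) Ω')).range = AddSubgroup.closure
        {n | ∃ (g : Ω' ≃ₐ[B] Ω') (m : sec G (ob (𝟙 _) Ω')),
          (∀ c, g (algebraMap Ω Ω' c) = algebraMap Ω Ω' c) ∧
            n = E4.gal (𝟙 _) Ω' G.obj g m - m} := by
  have hB : IsUnit (l : B) := by simpa using hl.map (algebraMap A B)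
  have mul {P : PSh (Spec (.of B))} (g g' : Ω' ≃ₐ[B] Ω') (m) :
      E4.gal (𝟙 _) Ω' P (g * g') m = E4.gal (𝟙 _) Ω' P g (E4.gal (𝟙 _) Ω' P g' m) := by
    rw [map_mul]; rfl
  obtain ⟨K, i, _, hK, hi⟩ := h1.sub l B Ω' G hB hG (AddSubgroup.closure
    {n | ∃ (g : Ω' ≃ₐ[B] Ω') (m : sec G (ob (𝟙 _) Ω')),
      (∀ c, g (algebraMap Ω Ω' c) = algebraMap Ω Ω' c) ∧ n = E4.gal (𝟙 _) Ω' G.obj g m - m})
    fun γ m hm => by
      refine AddSubgroup.mem_comap.1 ((AddSubgroup.closure_le (K := AddSubgroup.comap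
        (E4.gal (𝟙 _) Ω' G.obj γ : _ →+ _) _)).2 ?_ hm)
      rintro _ ⟨g, m, hg, rfl⟩
      refine AddSubgroup.subset_closure ⟨γ * g * γ⁻¹, E4.gal (𝟙 _) Ω' G.obj γ m, fun c => ?_, ?_⟩
      · obtain ⟨c', hc, -⟩ := coi_stab A γ⁻¹ c
        rw [AlgEquiv.mul_apply, AlgEquiv.mul_apply, ← hc, hg, hc, ← AlgEquiv.mul_apply,
          mul_inv_cancel, AlgEquiv.one_apply]
      · rw [← mul, inv_mul_cancel_right, mul]
        exact map_sub _ _ _
  have hQ := (h2.thick l _).coker i hK hG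
  have hW := h2.lcfPb l (spc (ρ : B →+* A)) _ hQ
  have ex : Ex i (cokernel.π i) := ⟨cokernel.condition i,
    ShortComplex.exact_of_g_is_cokernel _ (cokernelIsCokernel i)⟩
  let _ : Algebra B Ω := ((algebraMap A Ω).comp (ρ : B →+* A)).toAlgebra
  have : IsScalarTower A B Ω := IsScalarTower.of_algebraMap_eq fun a =>
    congrArg (algebraMap A Ω) (ρ.commutes a).symm
  obtain ⟨b, hb⟩ := coi_alg (A := A) (Ω := Ω) (Ω' := Ω') (B := B) fun r => ⟨ρ r, rfl⟩
  have hL : Lis l (cokernel i).obj (ob (𝟙 _) B) := hQ.2.1.mono (Over.homMk (ob (𝟙 _) B).hom)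
  have e0 : Spec.map (CommRingCat.ofHom (algebraMap Ω Ω')) ≫ (ob (𝟙 (Spec (.of B))) Ω).hom =
      ((ob (𝟙 (Spec (.of B))) Ω').hom ≫ spc (algebraMap A B)) ≫ spc (ρ : B →+* A) := by
    simp only [Over.mk_hom, Category.comp_id, ← Spec.map_comp, ← CommRingCat.ofHom_comp]
    congr 2
    ext r
    exact (IsScalarTower.algebraMap_apply A Ω Ω' _).symm.trans
      (IsScalarTower.algebraMap_apply A B Ω' _)
  have hr := hQ.1.1.2 Ω Ω' (algebraMap Ω Ω') _ _ e0 (by simpa using hl.map (algebraMap A Ω))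
  obtain ⟨e⟩ := h1.full l B Ω' (cokernel i) _ hB hQ (h2.lcfPb l (spc (algebraMap A B)) _ hW)
    ((spec (𝟙 _) hQ.1.1 hL hB b).trans
      (AddEquiv.ofBijective ((cokernel i).obj.map (sph _ e0).op).hom hr)) fun γ m => by
      obtain ⟨ψ, h4, h5⟩ := hb γ
      obtain ⟨g, h6, h7⟩ := exists_spec_gal (𝟙 _) hQ.1.1 hL hB b b ψ
      have h8 : E4.gal (𝟙 _) Ω' (cokernel i).obj (γ⁻¹ * g) m = m := by
        obtain ⟨m, rfl⟩ := h3.epi (cokernel.π i) inferInstance Ω' _ m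
        have : E4.gal (𝟙 _) Ω' G.obj (γ⁻¹ * g) m - m ∈ (app i (ob (𝟙 _) Ω')).range := by
          rw [hi]
          refine AddSubgroup.subset_closure ⟨_, m, fun c => ?_, rfl⟩
          rw [AlgEquiv.mul_apply, h5 g h6, ← AlgEquiv.mul_apply, inv_mul_cancel, AlgEquiv.one_apply]
        have := (h3.ex i _ ex Ω' _ _).2 this
        rw [map_sub, sub_eq_zero] at this
        exact (rs_nat _ (cokernel.π i).hom _ m).symm.trans this
      have h9 : E4.gal (𝟙 _) Ω' (cokernel i).obj γ m = E4.gal (𝟙 _) Ω' (cokernel i).obj g m := by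
        rw [← mul_inv_cancel_left γ g, mul, h8]
      change (cokernel i).obj.map (sph _ e0).op (spec (𝟙 _) hQ.1.1 hL hB b _) =
        (cokernel i).obj.map ((Over.map (spc (ρ : B →+* A))).map ((Over.map
          (spc (algebraMap A B))).map (hm (𝟙 _) (γ : Ω' →ₐ[B] Ω')))).op
          ((cokernel i).obj.map (sph _ e0).op (spec (𝟙 _) hQ.1.1 hL hB b m))
      rw [h9, h7]
      refine (res_res _ _ _ _).trans (Eq.trans ?_ (res_res _ _ _ _).symm)
      congr 4
      refine Over.OverMorphism.ext ?_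
      change spc _ ≫ spc _ = spc _ ≫ spc _
      rw [← Spec.map_comp, ← Spec.map_comp, ← CommRingCat.ofHom_comp, ← CommRingCat.ofHom_comp]
      congr 2
      exact RingHom.ext h4
  refine ⟨K, _, i, cokernel.π i ≫ e.hom, ‹_›, ⟨by simp, ?_⟩, inferInstance, hK, hW, hi⟩
  exact ShortComplex.exact_of_iso
    (ShortComplex.isoMk (S₁ := ShortComplex.mk i (cokernel.π i) ex.1) (Iso.refl _) (Iso.refl _) e
      (by simp) (by simp)) ex.2

end

lemma coi_loc (h1 : SUB_s) (h2 : GE_s) (h3 : NTC_s) (l : ℕ) {A : Type} [CommRing A] [IsDomain A]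
    [IsIntegrallyClosed A] (h : A[X]) (a₁ : A) (B Ω Ω' : Type) [CommRing B] [Algebra A[X] B]
    [IsLocalization.Away h B] [Field Ω] [IsAlgClosed Ω] [Algebra A Ω] [FaithfulSMul A Ω]
    [Algebra.IsAlgebraic A Ω] [Field Ω'] [IsAlgClosed Ω'] [Algebra B Ω'] [FaithfulSMul B Ω']
    [Algebra.IsAlgebraic B Ω'] (ι : Ω →+* Ω')
    (hι : ι.comp (algebraMap A Ω) = (algebraMap B Ω').comp ((algebraMap A[X] B).comp C))
    (hl : IsUnit (l : A)) (hu : IsUnit (h.eval a₁)) (G : Sh (Scheme.etaleTopology.over (Spec (.of B)))) (hG : Lcf l G) :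
    ∃ (K : Sh (Scheme.etaleTopology.over (Spec (.of B)))) (W : Sh (Scheme.etaleTopology.over (Spec (.of A))))
      (i : K ⟶ G) (p : G ⟶ (PB (spc ((algebraMap A[X] B).comp C))).obj W), Mono i ∧ Ex i p ∧
      Epi p ∧ Lcf l K ∧ Lcf l W ∧ (app i (ob (𝟙 _) Ω')).range = AddSubgroup.closure
        {n | ∃ (g : Ω' ≃ₐ[B] Ω') (m : sec G (ob (𝟙 _) Ω')),
          (∀ c, g (ι c) = ι c) ∧ n = E4.gal (𝟙 _) Ω' G.obj g m - m} := by
  have h0 : Submonoid.powers h ≤ nonZeroDivisors A[X] :=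
    powers_le_nonZeroDivisors_of_noZeroDivisors (by rintro rfl; simp at hu)
  have : IsDomain B := (FaithfulSMul.algebraMap_injective B Ω').isDomain _
  have : IsIntegrallyClosed B := isIntegrallyClosed_of_isLocalization _ _ h0
  let _ : Algebra A B := ((algebraMap A[X] B).comp C).toAlgebra
  let _ : Algebra A Ω' := (ι.comp (algebraMap A Ω)).toAlgebra
  let _ : Algebra Ω Ω' := ι.toAlgebra
  have : IsScalarTower A Ω Ω' := IsScalarTower.of_algebraMap_eq fun _ => rfl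
  have : IsScalarTower A B Ω' := IsScalarTower.of_algebraMap_eq fun a => congr($hι a)
  obtain ⟨ρ, hρ⟩ : ∃ ρ : B →+* A, ∀ a, ρ (algebraMap A[X] B (C a)) = a :=
    ⟨IsLocalization.Away.lift (S := B) (g := evalRingHom a₁) h hu, fun a =>
      (IsLocalization.Away.lift_eq (S := B) (g := evalRingHom a₁) h hu (C a)).trans eval_C⟩
  exact coi_gen (Ω := Ω) (B := B) h1 h2 h3 l ⟨ρ, hρ⟩ hl G hG

theorem coi (h1 : SUB_s) (h2 : GE_s) (h3 : NTC_s) : COI_s :=
  fun l _ _ _ _ h a₁ Ω Ω' _ _ _ _ _ _ _ _ _ _ ι =>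
    coi_loc h1 h2 h3 l h a₁ (Localization.Away h) Ω Ω' ι

end Pool.Agent.MP_855f4c_ag.E.U

end

section

set_option autoImplicit false
set_option backward.isDefEq.respectTransparency false

open CategoryTheory Limits Abelian Opposite AlgebraicGeometry Polynomial

namespace Pool.Agent.MP_855f4c_ag.E.U

open E3 E4 Function ZeroObject

section cof
variable {l : ℕ} {M N R : Type 1} [AddCommGroup M] [AddCommGroup N] [AddCommGroup R]

lemma ge_quo (h : Cof l M) (φ : M →+ N) (hφ : Surjective φ) : Cof l N := by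
  refine ⟨fun n => ?_, ?_⟩
  · obtain ⟨m, rfl⟩ := hφ n
    exact (h.1 m).imp fun k hk => by rw [← map_nsmul, hk, map_zero]
  · obtain ⟨c, hc⟩ := (h.subgroup φ.ker).div
    refine ((h.fin (c + 1)).image φ).subset fun n hn => ?_
    obtain ⟨m, rfl⟩ := hφ n
    obtain ⟨y, hy⟩ := hc (c + 1) ⟨l • m, by rw [AddMonoidHom.mem_ker, map_nsmul]; exact hn⟩
    refine ⟨m - y, ?_, by rw [map_sub, show φ y = 0 from y.2, sub_zero]⟩
    change l ^ (c + 1) • (m - y) = 0
    rw [smul_sub, pow_succ, mul_smul, sub_eq_zero, ← pow_succ]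
    exact congrArg Subtype.val hy

lemma ge_ext (h1 : Cof l M) (h3 : Cof l R) {φ : M →+ N} {ψ : N →+ R} (he : Exact φ ψ) :
    Cof l N := by
  refine ⟨fun n => ?_, fin_fib ψ (fun a ha b hb => ?_) (h3.2.subset ?_) ?_⟩
  · obtain ⟨a, ha⟩ := h3.1 (ψ n)
    obtain ⟨m, hm⟩ := (he (l ^ a • n)).1 (by rw [map_nsmul, ha])
    obtain ⟨b, hb⟩ := h1.1 m
    exact ⟨b + a, by rw [pow_add, mul_smul, ← hm, ← map_nsmul, hb, map_zero]⟩
  · change l • (a - b) = 0
    rw [smul_sub, show l • a = 0 from ha, show l • b = 0 from hb, sub_self]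
  · rintro _ ⟨a, ha, rfl⟩
    change l • ψ a = 0
    rw [← map_nsmul, show l • a = 0 from ha, map_zero]
  · exact ((ge_quo h1 _ φ.rangeRestrict_surjective).2.image Subtype.val).subset fun a ha =>
      ⟨⟨a, (he a).1 ha.2⟩, Subtype.ext ha.1, rfl⟩

lemma ge_rk [Fact l.Prime] [Subsingleton M] : rk l M = 0 :=
  have : Subsingleton (V l M) := ⟨fun _ _ => V.ext fun _ => Subsingleton.elim _ _⟩
  Module.finrank_zero_of_subsingleton

end cof

section ab
variable {𝒜 : Type*} [Category* 𝒜] [Abelian 𝒜]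

lemma ge_exm {F G : 𝒜} (φ : F ⟶ G) (h : Mono φ) : Ex (0 : 0 ⟶ F) φ :=
  ⟨zero_comp, (ShortComplex.exact_iff_mono _ rfl).2 h⟩

lemma ge_exe {F G : 𝒜} (φ : F ⟶ G) (h : Epi φ) : Ex φ (0 : G ⟶ 0) :=
  ⟨comp_zero, (ShortComplex.exact_iff_epi _ rfl).2 h⟩

lemma ge_sum [HasFiniteBiproducts 𝒜] (P : 𝒜 → Prop) (h0 : ∀ F, IsZero F → P F)
    (h1 : ∀ F G, (F ≅ G) → P F → P G)
    (h2 : ∀ S : ShortComplex 𝒜, S.ShortExact → P S.X₁ → P S.X₃ → P S.X₂) (I : Type) [Finite I] :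
    ∀ G : I → 𝒜, (∀ i, P (G i)) → P (⨁ G) := by
  refine Finite.induction_empty_option
    (P := fun I => ∀ [Finite I] (G : I → 𝒜), (∀ i, P (G i)) → P (⨁ G))
    (fun e ih _ G hG => ?_) (fun G _ => h0 _ ((IsZero.iff_id_eq_zero _).2 (by ext ⟨⟩)))
    (fun ih _ G hG => ?_) I
  · have := Finite.of_equiv _ e.symm
    exact h1 _ _ (biproduct.reindex e G) (ih (G ∘ e) fun i => hG _)
  · let g : ⨁ G ⟶ ⨁ fun i => G (some i) := biproduct.lift fun i => biproduct.π G (some i)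
    have a : biproduct.ι G none ≫ g = 0 := by ext; simp [g]
    have b (i) : biproduct.ι G (some i) ≫ g = biproduct.ι (fun i => G (some i)) i := by
      ext j
      by_cases h : i = j
      · subst h; simp [g]
      · simp [g, h]
    let s : (ShortComplex.mk _ _ a).Splitting :=
      { r := biproduct.π G none
        s := biproduct.desc fun i => biproduct.ι G (some i)
        f_r := by simp
        s_g := biproduct.hom_ext' _ _ fun i => by simp [b]
        id := biproduct.hom_ext' _ _ fun i => by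
          cases i <;> simp [reassoc_of% a, reassoc_of% b] }
    exact h2 _ s.shortExact (hG none) (ih _ fun i => hG _)

end ab

variable {X Y : Scheme.{0}}

lemma ge_sub {F : Sh (Scheme.etaleTopology.over X)} (h : IsZero F) (T : Over X) : Subsingleton (sec F T) :=
  subsingleton_of_forall_eq 0 fun s => congrArg (fun φ => app φ T s) (h.eq_of_src (𝟙 F) 0)

lemma ge_bij {F G : Sh (Scheme.etaleTopology.over X)} (e : F ≅ G) (T : Over X) : Bijective (app e.hom T) :=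
  bijective_iff_has_inverse.2 ⟨app e.inv T, fun s => congrArg (fun φ => app φ T s) e.hom_inv_id,
    fun s => congrArg (fun φ => app φ T s) e.inv_hom_id⟩

lemma ge_nat {F G : Sh (Scheme.etaleTopology.over X)} (φ : F ⟶ G) {T T' : Over X} (g : T' ⟶ T) (s : sec F T) :
    app φ T' (rsec g F s) = rsec g G (app φ T s) := map_nat φ.hom g s

lemma ge_fr {l : ℕ} {k : Type} [Field k] {x : Spec (.of k) ⟶ Y} {Q : ℕ} {ψ : k →+* k}
    (h : Fr l x Q ψ) (g : Y ⟶ X) : Fr l (x ≫ g) Q ψ :=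
  ⟨h.ne, h.lt, h.pow, h.alg, by rw [← Category.assoc, h.fix]⟩

lemma ge_thick (h1 : NTC_s) (l : ℕ) (X : Scheme.{0}) : Thick (Lcf l : Sh (Scheme.etaleTopology.over X) → Prop) where
  zero F h := ⟨(h1.thick l X).zero F h, fun _ _ _ _ _ _ _ _ _ _ _ _ _ _ =>
    have := ge_sub h
    ⟨fun _ _ _ => Subsingleton.elim _ _, fun _ => ⟨0, Subsingleton.elim _ _⟩⟩, fun _ _ _ _ _ =>
    have := ge_sub h
    cof_fin fun _ => ⟨0, Subsingleton.elim _ _⟩⟩
  iso e h := ⟨(h1.thick l X).iso e h.1, h.2.1.of_iso ((sheafToPresheaf _ _).mapIso e),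
    fun k _ _ x hl => (h.2.2 k x hl).sub _ (ge_bij e.symm _).1⟩
  ker f h h' := ⟨(h1.thick l X).ker f h.1 h'.1, h.2.1.kernel f h'.2.1,
    fun k _ _ x hl => (h.2.2 k x hl).sub _ (h1.mono (kernel.ι f) inferInstance _)⟩
  coker f h h' := ⟨(h1.thick l X).coker f h.1 h'.1, h.2.1.cokernel f h'.2.1,
    fun k _ _ x hl => ge_quo (h'.2.2 k x hl) _ (h1.epi (cokernel.π f) inferInstance k x)⟩
  ext S hS h h' := ⟨(h1.thick l X).ext S hS h.1 h'.1, h.2.1.X₂ hS h'.2.1,
    fun k _ _ x hl => ge_ext (h.2.2 k x hl) (h'.2.2 k x hl) (h1.ex _ _ ⟨S.zero, hS.exact⟩ k x)⟩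

lemma ge_lcfPb (h1 : NTC_s) (l : ℕ) (g : Y ⟶ X) (F : Sh (Scheme.etaleTopology.over X)) (h : Lcf l F) :
    Lcf l ((PB g).obj F) :=
  ⟨h1.pb l g F h.1, (Lis.map_iff g F.obj (top Y)).2 (h.2.1.mono (Over.homMk (𝟙 Y ≫ g))),
    fun k _ _ x hl => h.2.2 k (x ≫ g) hl⟩

variable (l : ℕ) [Fact l.Prime]

lemma ge_lcf {F : Sh (Scheme.etaleTopology.over X)} (h : Cl l F) : Lcf l F := by
  cases h with
  | rat h => exact h.1
  | ext _ _ _ _ h => exact h

lemma ge_ratPb (g : Y ⟶ X) (F : Sh (Scheme.etaleTopology.over X)) (h : RatT l F) : RatT l ((PB g).obj F) :=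
  fun k _ _ x Q ψ e => h k (x ≫ g) Q ψ (ge_fr e g)

lemma ge_nul (h3 : ALG_s) (w : ℕ) (F : Sh (Scheme.etaleTopology.over X)) (h : Nul l F) :
    RatS l F ∧ CW l w F ∧ ∀ (k : Type) [Field k] [IsAlgClosed k] (x : Spec (.of k) ⟶ X) (Q : ℕ)
      (ψ : k →+* k) (h : Fr l x Q ψ), trF F h = 0 := by
  have H (k : Type) [Field k] [IsAlgClosed k] (x : Spec (.of k) ⟶ X) (Q : ℕ) (ψ : k →+* k)
      (e : Fr l x Q ψ) := h3.nul l (rsec (sph ψ e.fix) F) (h.1.2.2 k x e.ne) (h.2 k x e.ne)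
  have r : RatS l F := ⟨h.1, fun k _ _ x Q ψ e => ⟨0, (H k x Q ψ e).1.trans Rat.cast_zero.symm⟩⟩
  exact ⟨r, ⟨.rat r, fun k _ _ x Q ψ e j => (H k x Q ψ e).2 j _⟩, fun k _ _ x Q ψ e =>
    (H k x Q ψ e).1⟩

lemma ge_zero (h1 : NTC_s) (F : Sh (Scheme.etaleTopology.over X)) (h : IsZero F) : Nul l F :=
  ⟨(ge_thick h1 l X).zero F h, fun _ _ _ _ _ =>
    have := ge_sub h
    ge_rk⟩

lemma ge_wt (h1 : NTC_s) (h3 : ALG_s) (w : ℕ) {F G K : Sh (Scheme.etaleTopology.over X)} (φ : F ⟶ G) (χ : G ⟶ K)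
    (h : Ex φ χ) (hc : CofS l F) (hF : Wt l w F) (hK : Wt l w K) : Wt l w G :=
  fun k _ _ x Q ψ e j => h3.mid l _ _ _ _ _ (h1.ex φ χ h k x) (ge_nat φ _) (ge_nat χ _)
    (hc k x e.ne) j _ (hF k x Q ψ e j) (hK k x Q ψ e j)

lemma ge_cl {F G K : Sh (Scheme.etaleTopology.over X)} (φ : F ⟶ G) (χ : G ⟶ K) (h : Ex φ χ) (hF : Cl l F) (hK : Cl l K)
    (hG : Lcf l G) : Cl l G := Cl.ext (ShortComplex.mk φ χ h.1) h.2 hF hK hG

lemma ge_cw (h1 : NTC_s) (h3 : ALG_s) (w : ℕ) {F G K : Sh (Scheme.etaleTopology.over X)} (φ : F ⟶ G) (χ : G ⟶ K)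
    (h : Ex φ χ) (hF : CW l w F) (hK : CW l w K) (hG : Lcf l G) : CW l w G :=
  ⟨ge_cl l φ χ h hF.1 hK.1 hG, ge_wt l h1 h3 w φ χ h (ge_lcf l hF.1).2.2 hF.2 hK.2⟩

lemma ge_trIso (h3 : ALG_s) {F G : Sh (Scheme.etaleTopology.over X)} (e : F ≅ G) (k : Type) [Field k]
    (x : Spec (.of k) ⟶ X) : rk l (sec F (Over.mk x)) = rk l (sec G (Over.mk x)) ∧
      ∀ (Q : ℕ) (ψ : k →+* k) (h : Fr l x Q ψ), trF F h = trF G h :=
  ⟨(h3.iso l _ _ _ (ge_bij e _) (ge_nat e.hom (𝟙 _))).2.1,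
    fun _ _ _ => (h3.iso l _ _ _ (ge_bij e _) (ge_nat e.hom _)).1⟩

theorem ge (h1 : NTC_s) (h2 : NRQ_s) (h3 : ALG_s) (h4 : SQ_s.{1, 2}) : GE_s := by
  have z (l : ℕ) [Fact l.Prime] (w : ℕ) {X : Scheme.{0}} (F : Sh (Scheme.etaleTopology.over X)) (h : IsZero F) :
      CW l w F := (ge_nul l h3 w F (ge_zero l h1 F h)).2.1
  have iso (l : ℕ) [Fact l.Prime] (w : ℕ) {X : Scheme.{0}} {F G : Sh (Scheme.etaleTopology.over X)} (e : F ≅ G)
      (h : CW l w F) : CW l w G :=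
    ge_cw l h1 h3 w _ _ (ge_exe e.hom inferInstance) h (z l w _ (isZero_zero _))
      ((ge_thick h1 l X).iso e (ge_lcf l h.1))
  exact
  { thick := ge_thick h1
    lcfPb := fun l _ _ => ge_lcfPb h1 l
    clG := fun l _ _ F => ⟨fun h => by
      induction h with
      | rat h => exact .base _ h
      | ext S hS _ _ h a b => exact .mid S.f S.g ⟨S.zero, hS⟩ a b h, fun h => by
      induction h with
      | base _ h => exact .rat h
      | mid f g e _ _ h a b => exact ge_cl l f g e a b h⟩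
    lcf := fun l _ _ _ => ge_lcf l
    clMid := fun l _ _ _ _ _ => ge_cl l
    clSub := fun l _ _ _ _ φ m h => ge_cl l _ _ (ge_exm φ m) (z l 0 _ (isZero_zero _)).1 h
    clQuo := fun l _ _ _ _ φ m h => ge_cl l _ _ (ge_exe φ m) h (z l 0 _ (isZero_zero _)).1
    clPb := fun l _ _ _ g F h => by
      obtain ⟨_, _, _⟩ := h2.exa g
      induction h with
      | rat h => exact .rat ⟨ge_lcfPb h1 l g _ h.1, ge_ratPb l g _ h.2⟩
      | ext S hS _ _ h a b => exact .ext (S.map (PB g)) (hS.map _) a b (ge_lcfPb h1 l g _ h)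
    ratIso := fun l _ _ _ _ ⟨e⟩ h k _ _ x Q ψ f => (h k x Q ψ f).imp fun _ hr =>
      ((ge_trIso l h3 e k x).2 Q ψ f).symm.trans hr
    ratPb := fun l _ _ _ => ge_ratPb l
    wtMid := fun l _ w _ _ _ _ => ge_wt l h1 h3 w
    wtSub := fun l _ w _ _ _ φ m => ge_wt l h1 h3 w _ _ (ge_exm φ m)
      (ge_lcf l (z l w _ (isZero_zero _)).1).2.2 (z l w _ (isZero_zero _)).2
    wtQuo := fun l _ w _ _ _ φ m c h => ge_wt l h1 h3 w _ _ (ge_exe φ m) c h
      (z l w _ (isZero_zero _)).2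
    wtPb := fun l _ w _ _ g F h k _ _ x Q ψ e => h k (x ≫ g) Q ψ (ge_fr e g)
    wtMono := fun l _ _ _ _ F hw h k _ _ x Q ψ e j => (h k x Q ψ e j).imp fun _ H =>
      ⟨H.1, H.2.1, fun y hy => Set.mem_Iic.2 ((Set.mem_Iic.1 (H.2.2 y hy)).trans
        (pow_le_pow_right₀ (Nat.one_le_cast.2 e.lt.le) hw))⟩
    nul := fun l _ w _ => ge_nul l h3 w
    zero := fun l _ _ => ge_zero l h1
    add := fun l _ _ _ _ _ φ χ m e p c k _ _ x =>
      ⟨fun hl => (h3.add l _ _ _ _ _ (h1.mono φ m _) (h1.ex φ χ e k x) (h1.epi χ p k x)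
        (ge_nat φ (𝟙 _)) (ge_nat χ (𝟙 _)) (c k x hl)).2,
      fun _ _ f => (h3.add l _ _ _ _ _ (h1.mono φ m _) (h1.ex φ χ e k x) (h1.epi χ p k x)
        (ge_nat φ _) (ge_nat χ _) (c k x f.ne)).1⟩
    trIso := fun l _ _ _ _ ⟨e⟩ => ge_trIso l h3 e
    cwIso := fun l _ w _ _ _ ⟨e⟩ => iso l w e
    cwFive := fun l _ w X _ _ _ _ _ e a b c d => by
      have := (h4 _ _ (ge_thick h1 l X)).1 _ _ _ _ _ e a (ge_lcf l b.1) (ge_lcf l c.1) d
      obtain ⟨_, f, g, _, -, e, -⟩ := e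
      exact ge_cw l h1 h3 w f g e b c this
    cwSum := fun l _ w X I _ => ge_sum _ (z l w) (fun _ _ => iso l w) (fun S hS a b =>
      ge_cw l h1 h3 w _ _ ⟨S.zero, hS.exact⟩ a b
        ((ge_thick h1 l X).ext S hS (ge_lcf l a.1) (ge_lcf l b.1))) I }

end Pool.Agent.MP_855f4c_ag.E.U

end

section

set_option autoImplicit false
set_option backward.isDefEq.respectTransparency false

open CategoryTheory Limits Abelian Opposite AlgebraicGeometry Polynomial

namespace Pool.Agent.MP_855f4c_ag.E.U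

open E3 E4 Function

variable {X Y : Scheme.{0}} (c : X ⟶ Y)

lemma ratp_inj {l : ℕ} {M N : Type 1} [AddCommGroup M] [AddCommGroup N] (e : M →+ N)
    (he : Injective e) (h : Cof l N) : Cof l M := by
  refine ⟨fun m => (h.1 (e m)).imp fun n hn => he (by rw [map_nsmul, hn, map_zero]),
    (h.2.preimage he.injOn).subset fun m hm => ?_⟩
  change l • e m = 0
  rw [← map_nsmul, show l • m = 0 from hm, map_zero]

lemma ratp_pi {l : ℕ} {I : Type} [Finite I] (M : I → Type 1) [∀ i, AddCommGroup (M i)]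
    (h : ∀ i, Cof l (M i)) : Cof l (∀ i, M i) := by
  refine ⟨fun m => ?_, (Set.Finite.pi' fun i => (h i).2).subset fun m hm i => congrFun hm i⟩
  choose n hn using fun i => (h i).1 (m i)
  obtain ⟨N, hN⟩ := (Set.finite_range n).bddAbove
  refine ⟨N, funext fun i => ?_⟩
  obtain ⟨d, rfl⟩ := Nat.exists_eq_add_of_le' (hN ⟨i, rfl⟩)
  change l ^ (d + n i) • m i = 0
  rw [pow_add, mul_smul, hn, smul_zero]

lemma ratp_nat (F : Sh (Scheme.etaleTopology.over X)) {T T' : Over Y} (g : T' ⟶ T) (y : T ⟶ Over.mk c)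
    (y' : T' ⟶ Over.mk c) (u : Over.mk y'.left ⟶ Over.mk y.left) (hu : u.left = g.left)
    (s : sec ((PF c).obj F) T) :
    atLift c F y' (rsec g ((PF c).obj F) s) = rsec u F (atLift c F y s) :=
  (res_res F.obj _ ((Over.pullback c).map g) s).trans
    ((congrArg (fun a => F.obj.map (Quiver.Hom.op a) s) (toPb_nat c _ _ g u
      ((Category.comp_id _).trans (hu.trans (Category.id_comp _).symm))).symm).trans
      (res_res F.obj u _ s).symm)

/-- All values of a section at the lifts of a point. -/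
noncomputable def ratp_e (F : Sh (Scheme.etaleTopology.over X)) (T : Over Y) :
    sec ((PF c).obj F) T →+ ∀ y : T ⟶ Over.mk c, sec F (Over.mk y.left) :=
  AddMonoidHom.pi fun y => atLift c F y

theorem ratp_lcf (l : ℕ) [IsFinite c] [Etale c] (F : Sh (Scheme.etaleTopology.over X)) (h : Lcf l F) :
    Lcf l ((PF c).obj F) := by
  refine ⟨pf_tc c h.1, pf_lis c (h.2.1.mono (Over.homMk (Over.hom _) (Category.comp_id _))),
    fun k _ _ x hl => ?_⟩
  have := finite_lifts c x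
  exact ratp_inj (ratp_e c F _) (stalk_bij c h.1.1 hl x).1
    (ratp_pi _ fun y => h.2.2 k y.left hl)

section fr
variable {l : ℕ} {k : Type} [Field k] {x : Spec (.of k) ⟶ Y} {Q : ℕ} {ψ : k →+* k}

lemma ratp_iso (h : Fr l x Q ψ) : IsIso (sph ψ h.fix) := by
  have : IsIso (CommRingCat.ofHom ψ) := (ConcreteCategory.isIso_iff_bijective _).2
    ⟨ψ.injective, fun z => ⟨z ^ Q, (map_pow ψ z Q).trans (h.pow z)⟩⟩
  exact isIso_homMk _ (inferInstanceAs (IsIso (Spec.map (CommRingCat.ofHom ψ))))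

lemma ratp_succ (ψ : k →+* k) (m : ℕ) : Spec.map (CommRingCat.ofHom (ψ ^ (m + 1))) =
    Spec.map (CommRingCat.ofHom ψ) ≫ Spec.map (CommRingCat.ofHom (ψ ^ m)) := by
  rw [← Spec.map_comp, ← CommRingCat.ofHom_comp, pow_succ']
  rfl

lemma ratp_zero (ψ : k →+* k) : Spec.map (CommRingCat.ofHom (ψ ^ 0)) = 𝟙 _ := Spec.map_id _

lemma ratp_fix (h : Spec.map (CommRingCat.ofHom ψ) ≫ x = x) (m : ℕ) :
    Spec.map (CommRingCat.ofHom (ψ ^ m)) ≫ x = x := by
  induction m with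
  | zero => rw [ratp_zero, Category.id_comp]
  | succ m ih => rw [ratp_succ, Category.assoc, ih, h]

lemma ratp_sph (h : Spec.map (CommRingCat.ofHom ψ) ≫ x = x) (m : ℕ) :
    sph (ψ ^ (m + 1)) (ratp_fix h _) = sph ψ h ≫ sph (ψ ^ m) (ratp_fix h _) :=
  Over.OverMorphism.ext (ratp_succ ψ m)

lemma ratp_sph0 (h : Spec.map (CommRingCat.ofHom ψ) ≫ x = x) :
    sph (ψ ^ 0) (ratp_fix h _) = 𝟙 _ := Over.OverMorphism.ext (ratp_zero ψ)

lemma ratp_pow (h : Spec.map (CommRingCat.ofHom ψ) ≫ x = x) (G : Sh (Scheme.etaleTopology.over Y))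
    (φ : AddMonoid.End (sec G (Over.mk x))) (hφ : φ = rsec (sph ψ h) G) (m : ℕ) :
    ((φ ^ m : AddMonoid.End _) : _ →+ _) = rsec (sph (ψ ^ m) (ratp_fix h _)) G := by
  refine AddMonoidHom.ext fun s => ?_
  induction m with
  | zero =>
    rw [ratp_sph0 h]
    exact congr($((G.obj.map_id _).symm) s)
  | succ m ih =>
    rw [ratp_sph h, pow_succ']
    refine Eq.trans ?_ (res_res G.obj _ _ s)
    exact (congrArg φ ih).trans (by rw [hφ])

lemma ratp_fr (h : Fr l x Q ψ) {y : Spec (.of k) ⟶ X} {m : ℕ} (hm : 0 < m)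
    (hy : Spec.map (CommRingCat.ofHom (ψ ^ m)) ≫ y = y) : Fr l y (Q ^ m) (ψ ^ m) := by
  refine ⟨h.ne, Nat.one_lt_pow hm.ne' h.lt, fun z => ?_, fun z => ?_, hy⟩
  · clear hy hm
    induction m with
    | zero => simp
    | succ m ih =>
      rw [pow_succ' ψ, pow_succ' Q, pow_mul]
      exact (congrArg (· ^ Q ^ m) (h.pow _)).trans ih
  · obtain ⟨n, hn, hz⟩ := h.alg z
    refine ⟨n, hn, ?_⟩
    rw [pow_right_comm]
    clear hy hm
    induction m with
    | zero => simp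
    | succ m ih => rw [pow_succ, pow_mul, ih, hz]

lemma ratp_per [IsFinite c] (h : Fr l x Q ψ) : ∃ m, 0 < m ∧ ∀ y : Over.mk x ⟶ Over.mk c,
    Spec.map (CommRingCat.ofHom (ψ ^ m)) ≫ y.left = y.left := by
  have := finite_lifts c x
  have := ratp_iso h
  let p : Equiv.Perm (Over.mk x ⟶ Over.mk c) := (Iso.homCongr (asIso (sph ψ h.fix)).symm
    (Iso.refl _))
  have hp : ∀ m y, (p ^ m) y = sph (ψ ^ m) (ratp_fix h.fix _) ≫ y := fun m y => by
    induction m with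
    | zero => rw [ratp_sph0 h.fix, Category.id_comp]; rfl
    | succ m ih =>
      rw [ratp_sph h.fix, pow_succ', Equiv.Perm.mul_apply, ih]
      simp [p]
  obtain ⟨m, hm, e⟩ := (isOfFinOrder_of_finite p).exists_pow_eq_one
  refine ⟨m, hm, fun y => ?_⟩
  have := hp m y
  rw [e] at this
  exact (congrArg CommaMorphism.left this).symm

end fr

theorem ratp_rat (h3 : ALG_s) (l : ℕ) [Fact l.Prime] [IsFinite c] (F : Sh (Scheme.etaleTopology.over X))
    (h : RatS l F) : RatT l ((PF c).obj F) := by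
  intro k _ _ x Q ψ hf
  classical
  have := finite_lifts c x
  have := Fintype.ofFinite (Over.mk x ⟶ Over.mk c)
  have := ratp_iso hf
  let e := AddEquiv.ofBijective (ratp_e c F (Over.mk x)) (stalk_bij c h.1.1.1 hf.ne x)
  let Φ := (e.toAddMonoidHom.comp (rsec (sph ψ hf.fix) ((PF c).obj F))).comp
    e.symm.toAddMonoidHom
  have h1 := (h3.iso l e.toAddMonoidHom (rsec (sph ψ hf.fix) ((PF c).obj F)) Φ e.bijective
    fun m => by simp [Φ]).1
  have h2 : ∀ (i y : Over.mk x ⟶ Over.mk c) (u : Over.mk i.left ⟶ Over.mk y.left),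
      u.left = (sph ψ hf.fix).left → ∀ s, Φ s i = rsec u F (s y) := fun i y u hu s =>
    (ratp_nat c F _ y i u hu _).trans (congrArg _ (congrFun (e.apply_symm_apply s) y))
  have h4 : ∀ i : Over.mk x ⟶ Over.mk c, ∃ r : ℚ, tr l ((Pi.evalAddMonoidHom _ i).comp
      (Φ.comp (AddMonoidHom.single (fun y : Over.mk x ⟶ Over.mk c => sec F (Over.mk y.left)) i))) =
        r := fun i => by
    by_cases hi : inv (sph ψ hf.fix) ≫ i = i
    · have hy : Spec.map (CommRingCat.ofHom ψ) ≫ i.left = i.left :=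
        congrArg CommaMorphism.left ((IsIso.inv_comp_eq _).1 hi).symm
      obtain ⟨r, hr⟩ := h.2 k i.left Q ψ ⟨hf.ne, hf.lt, hf.pow, hf.alg, hy⟩
      refine ⟨r, Eq.trans (congrArg _ (AddMonoidHom.ext fun m => ?_)) hr⟩
      exact (h2 i i (sph ψ hy) rfl _).trans (congrArg _
        (Pi.single_eq_same (M := fun y : Over.mk x ⟶ Over.mk c => sec F (Over.mk y.left)) i m))
    · refine ⟨0, Eq.trans (congrArg (tr l) (AddMonoidHom.ext (g := 0) fun m => ?_)) ?_⟩
      · exact (h2 i (inv (sph ψ hf.fix) ≫ i) (Over.homMk (sph ψ hf.fix).left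
          (congrArg CommaMorphism.left (IsIso.hom_inv_id_assoc (sph ψ hf.fix) i))) rfl _).trans
          ((congrArg _ (Pi.single_eq_of_ne (M := fun y : Over.mk x ⟶ Over.mk c =>
            sec F (Over.mk y.left)) hi m)).trans (map_zero _))
      · exact (congrArg (LinearMap.trace ℚ_[l] _) (LinearMap.ext (g := 0) fun _ => rfl)).trans
          ((map_zero _).trans Rat.cast_zero.symm)
  choose r hr using h4
  exact ⟨∑ i, r i, by rw [h1, h3.pi l _ Φ fun y => h.1.2.2 k y.left hf.ne, Rat.cast_sum,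
    Finset.sum_congr rfl fun i _ => hr i]⟩

theorem ratp_wt (h3 : ALG_s) (l : ℕ) [Fact l.Prime] (w : ℕ) [IsFinite c] (F : Sh (Scheme.etaleTopology.over X))
    (hF : Cc l F) (h : Wt l w F) : Wt l w ((PF c).obj F) := by
  intro k _ _ x Q ψ hf j
  have := finite_lifts c x
  obtain ⟨m, hm, hy⟩ := ratp_per c hf
  refine h3.pow l (rsec (sph ψ hf.fix) ((PF c).obj F)) m _ j hm (by positivity) ?_
  rw [ratp_pow hf.fix _ _ rfl]
  let φ := fun y : Over.mk x ⟶ Over.mk c => rsec (sph (ψ ^ m) (hy y)) F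
  refine ((h3.iso l (ratp_e c F _) _ (AddMonoidHom.pi fun y => (φ y).comp
    (Pi.evalAddMonoidHom _ y)) (stalk_bij c hF hf.ne x) fun s => funext fun y =>
      ratp_nat c F _ y y (sph (ψ ^ m) (hy y)) rfl s).2.2 j _).2 ?_
  refine h3.piEv l _ _ φ (fun _ _ => rfl) j _ fun y => ?_
  have := h k y.left (Q ^ m) (ψ ^ m) (ratp_fr hf hm (hy y)) j
  rwa [Nat.cast_pow, pow_right_comm] at this

theorem ratp_cl (h3 : ALG_s) (l : ℕ) [Fact l.Prime] [IsFinite c] [Etale c] (F : Sh (Scheme.etaleTopology.over X))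
    (h : Cl l F) : Cl l ((PF c).obj F) := by
  induction h with
  | rat h => exact .rat ⟨ratp_lcf c l _ h.1, ratp_rat c h3 l _ h⟩
  | ext S hS _ _ hL i1 i3 =>
    exact .ext (S.map (PF c)) (hS.map (PF c)) i1 i3 (ratp_lcf c l _ hL)

theorem ratp (h1 : NTC_s) (h2 : GE_s) (h3 : ALG_s) : RATP_s := by
  have hcw : ∀ (l : ℕ) [Fact l.Prime] (w : ℕ) {X Y : Scheme.{0}} (c : X ⟶ Y) [IsFinite c]
      [Etale c] (F : Sh (Scheme.etaleTopology.over X)), CW l w F → CW l w ((PF c).obj F) := fun l _ w _ _ c _ _ F h =>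
    ⟨ratp_cl c h3 l F h.1, ratp_wt c h3 l w F (h2.lcf l F h.1).1.1 h.2⟩
  refine ⟨fun l _ _ c _ _ => ratp_lcf c l, hcw, fun l _ w X Y c _ _ _ G hl hG h => ?_⟩
  have hm := unit_mono c hG.1 hl (gsurj_of_surjective c)
  have hP := hcw l w c _ h
  let t : (Over.map c).obj (top X) ⟶ top Y := Over.homMk c (by simp)
  have : IsIntegralHom t.left := inferInstanceAs (IsIntegralHom c)
  have : AlgebraicGeometry.Surjective t.left := ‹_›
  refine ⟨h2.clSub l ((pbpf c).unit.app G) hm hP.1 ⟨hG, Lis.desc t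
    ((Lis.map_iff c G.obj (top X)).1 (h2.lcf l _ h.1).2.1), fun k _ _ x hk => ?_⟩,
    h2.wtSub l w ((pbpf c).unit.app G) hm hP.2⟩
  exact ratp_inj _ (h1.mono _ hm _) ((h2.lcf l _ hP.1).2.2 k x hk)

end Pool.Agent.MP_855f4c_ag.E.U

end

section

set_option autoImplicit false
set_option backward.isDefEq.respectTransparency false

open CategoryTheory Limits Abelian Opposite AlgebraicGeometry

namespace Pool.Agent.MP_855f4c_ag.E.U

open E3 E4 Function

variable {l : ℕ} {B Ω : Type} [CommRing B] [Field Ω] [IsAlgClosed Ω] [Algebra B Ω]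
  [FaithfulSMul B Ω] [Algebra.IsAlgebraic B Ω]

omit [IsAlgClosed Ω] [Algebra.IsAlgebraic B Ω] in
/-- Every geometric point lifts to the integral closure. -/
lemma sub_pt (Ω : Type) [Field Ω] [Algebra B Ω] [FaithfulSMul B Ω] {k : Type} [Field k]
    [IsAlgClosed k] (x : Spec (.of k) ⟶ Spec (.of B)) :
    ∃ (_ : Algebra B k) (_ : integralClosure B Ω →ₐ[B] k), Over.mk x = ob (𝟙 _) k := by
  obtain ⟨τ, rfl⟩ := Spec.map_surjective x
  let := τ.hom.toAlgebra
  have := RingHom.ker_isPrime (algebraMap B k)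
  have : FaithfulSMul B (integralClosure B Ω) := FaithfulSMul.tower_bot _ _ Ω
  obtain ⟨P, _, hP⟩ := Ideal.exists_ideal_over_prime_of_isIntegral_of_isDomain
    (S := integralClosure B Ω) (RingHom.ker (algebraMap B k)) (by
      rw [(RingHom.injective_iff_ker_eq_bot _).1 (FaithfulSMul.algebraMap_injective B _)]
      exact bot_le)
  obtain ⟨b, -⟩ := E4.exists_point (M := k) P hP
  exact ⟨_, b, congrArg Over.mk (Category.comp_id _).symm⟩

lemma sub_lis {F : Sh (Scheme.etaleTopology.over (Spec (.of B)))} (h : Lcf l F) : Lis l F.obj (ob (𝟙 _) B) :=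
  h.2.1.mono (Over.homMk (ob (𝟙 _) B).hom)

variable [IsDomain B] [IsIntegrallyClosed B]

theorem sub_lg {F : Sh (Scheme.etaleTopology.over (Spec (.of B)))} (hF : Cc l F) (hL : Lis l F.obj (ob (uB B) B))
    (hl : IsUnit (l : B)) : ∃ e : F ≅ gsh (E4.gal (uB B) Ω F.obj),
      ∀ s, E4.ev _ (integralClosure B Ω).val (e.hom.hom.app _ s) = s :=
  ⟨asIso (lg Ω hF hL hl), ev_lg hF hL hl⟩

theorem sub : SUB_s where
  sub l B Ω _ _ _ _ _ _ _ _ F hl hF N hN := by
    have hL := sub_lis hF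
    obtain ⟨e, he⟩ := sub_lg (Ω := Ω) hF.1.1 hL hl
    let ρ : (Ω ≃ₐ[B] Ω) →* AddMonoid.End N :=
      { toFun g := ((E4.gal (𝟙 _) Ω F.obj g).comp N.subtype).codRestrict N fun m => hN g _ m.2
        map_one' := AddMonoidHom.ext fun m => Subtype.ext congr($(map_one (E4.gal (𝟙 _) Ω F.obj)) m.1)
        map_mul' g h := AddMonoidHom.ext fun m =>
          Subtype.ext congr($(map_mul (E4.gal (𝟙 _) Ω F.obj) g h) m.1) }
    have hD : Disc ρ := fun m =>
      Exists.imp (fun E hE g hg => Subtype.ext (hE g hg)) (gal_opn (𝟙 _) hF.1.1.1 m.1)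
    have hU : Unram ρ := fun m a _ g hg => Subtype.ext (gal_unr (𝟙 _) hF.1.1 hL hl m.1 a g hg)
    have hC : Cof l N := (hF.2.2 Ω (ob (𝟙 _) Ω).hom (by
      simpa using (hl.map (algebraMap B Ω)).ne_zero)).subgroup N
    have := gshMap_mono (ρ := ρ) (ρ' := E4.gal (uB B) Ω F.obj) N.subtype (fun _ _ => rfl)
      Subtype.val_injective
    have hi (t) : e.inv.hom.app (op (ob (𝟙 _) Ω)) t = E4.ev _ (integralClosure B Ω).val t := by
      rw [← he (e.inv.hom.app _ t)]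
      exact congrArg _ congr(($(e.inv_hom_id)).hom.app _ t)
    refine ⟨gsh ρ, gshMap N.subtype (fun _ _ => rfl) ≫ e.inv, inferInstance,
      ⟨⟨gsh_cc hD l, gsh_tor ρ l hC.1⟩, gsh_lis hD hU l _, fun k _ _ x _ => ?_⟩, ?_⟩
    · obtain ⟨_, b, h⟩ := sub_pt Ω x
      rw [h]
      exact hC.sub (E4.ev ρ b) (ev_inj ρ b)
    · ext m
      constructor
      · rintro ⟨t, rfl⟩
        exact ((hi _).trans (ev_gshMap _ _ _ t)).symm ▸ (E4.ev ρ _ t).2
      · intro hm
        obtain ⟨t, ht⟩ := (ev_val_bij hD).2 ⟨m, hm⟩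
        exact ⟨t, ((hi _).trans (ev_gshMap _ _ _ t)).trans (congrArg Subtype.val ht)⟩
  full l B Ω _ _ _ _ _ _ _ _ F G hl hF hG e he := by
    obtain ⟨a, -⟩ := sub_lg (Ω := Ω) hF.1.1 (sub_lis hF) hl
    obtain ⟨b, -⟩ := sub_lg (Ω := Ω) hG.1.1 (sub_lis hG) hl
    have he' (g : Ω ≃ₐ[B] Ω) (m) : e.symm (E4.gal (𝟙 _) Ω G.obj g m) =
        E4.gal (𝟙 _) Ω F.obj g (e.symm m) := by
      rw [e.symm_apply_eq, he, e.apply_symm_apply]
    exact ⟨a ≪≫ ⟨gshMap e.toAddMonoidHom he, gshMap e.symm.toAddMonoidHom he',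
      (gshMap_comp _ _ _ _ fun g m => by simp).trans (by simpa using gshMap_id _),
      (gshMap_comp _ _ _ _ fun g m => by simp).trans (by simpa using gshMap_id _)⟩ ≪≫ b.symm⟩
  nul l _ B Ω _ _ _ _ _ _ _ F hl hF h := ⟨hF, fun k _ _ x _ => by
    obtain ⟨_, b, e⟩ := sub_pt Ω x
    rw [e, ← h]
    exact (Ve l (E4.spec (𝟙 _) hF.1.1 (sub_lis hF) hl b)).finrank_eq.symm⟩

end Pool.Agent.MP_855f4c_ag.E.U

end

section

namespace Pool.Agent.MP_855f4c_ag.E.U

theorem lers' : LERS_s := lers nrq lera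
theorem push' : PUSH_s := push nrq lers'
theorem cmp' : CMP_s := cmpr nrq ntc lers'
theorem chow' : CHOW_s := chow tw (embt tw)
theorem gxa' : GXA_s := gxa push' cmp' chow' tw nrq ntc nez
theorem ge' : GE_s := ge ntc nrq alg sq
theorem jsh' : JSH_s := jsh nrq nez alg
theorem evt' : EVT_s := evt spf nn

/-- Proper base change for every proper morphism, from the case of the projective line. -/
theorem pbcx_of (hP : PBC_s) : PBCX_s := pbcx gxa' (tct hP ntc nez sq)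

/-- The cohomological dimension of a proper scheme. -/
theorem cdx_of (hP : PBC_s) (hD : CD3_s) : CDX_s :=
  cdx (cdt nrq lers' ntc hP hD tw) push' (tct hP ntc nez sq) cmp' chow' nrq ntc nez

/-- The good class is stable under proper direct images. -/
theorem gx_of (hP : PBC_s) (hGL : GL_s) (hC : GdCof_s) (hD : CD3_s) (hU : DU2_s) (hTF : TF_s)
    (hCT : CT_s) : GX_s :=
  have rc := rcl hP hGL hC hD hTF hCT jsh' ntc alg
  have ti := twi hU hC jsh' ntc ge' alg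
  have st := strip nrq ntc nez ge' lers'
  have c := cm sq ge' jsh' rc ti (twc rc ti jsh' ge' nrq)
    (r2 (coi sub ge' ntc) hU hC rc jsh' sub ge' alg ntc) nrq
  gx gxa' (gc (tct hP ntc nez sq) evt' ge' nez nrq spo) (finp evt' spf (fspl ntc) ge')
    (up evt' spg (cms c jsh' st ge') (ratp ntc ge' alg) ge' nrq ntc hP)

end Pool.Agent.MP_855f4c_ag.E.U

end
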