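import Pool.Agent.MP_855f4c_ag.EC.Pc
import Pool.Agent.MP_855f4c_ag.EC.Cf
import Pool.Agent.MP_855f4c_ag.EC.Sg
import Pool.Agent.MP_855f4c_ag.EC.Sf
import Pool.Agent.MP_855f4c_ag.EC.Dk
import Pool.Agent.MP_855f4c_ag.EC.Uf
import Pool.Agent.MP_855f4c_ag.EC.Zb
import Pool.Agent.MP_855f4c_ag.EC.Dg
import Pool.Agent.MP_855f4c_ag.EC.M3a
import Pool.Agent.MP_855f4c_ag.EC.Xb

section

/-! Assembly of all sections. -/

namespace Pool.Agent.MP_855f4c_ag.E.All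

theorem pbc : PBC_s := PB.pbc_final

theorem la : LA_s := SA.la_all pbc PB.affv_final (CV.pidv CV.nsl CV.kapR CV.pidA)

theorem du1 : DU1_s := D.du1All CV.curveA CV.p1muA CV.cd3A

theorem du2 : DU2_s := D.du2All CV.curveA CV.p1muA CV.cd3A

theorem pbcx : PBCX_s := U.pbcx_of pbc

theorem cdx : CDX_s := U.cdx_of pbc CV.cd3A

theorem gx : GX_s :=
  U.gx_of pbc (SA.gl_of_la la pbc) CV.gdcofA CV.cd3A du2 (W.tf_final CV.gdcofA du1 du2)
    (W.ct_final pbc (SA.deg_of_la la) CV.gdcofA du1 du2)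

theorem dw : DW_s := D.dwAll pbc la CV.cd3A CV.gzA CV.curveA CV.p1muA pbcx gx cdx

theorem main : Main3_s :=
  main3 (main2 (EZ.main gx g0 dw cdx)) pbcx M3.emb M3.iso M3.ext M3.frb

end Pool.Agent.MP_855f4c_ag.E.All

end
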