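import Pool.Agent.MP_855f4c_ag.EC.Sb
import Pool.Agent.MP_855f4c_ag.EC.F1b
import Pool.Agent.MP_855f4c_ag.EC.F2d
import Pool.Agent.MP_855f4c_ag.EC.F2f
import Pool.Agent.MP_855f4c_ag.EC.E4d
import Pool.Agent.MP_855f4c_ag.EC.F2c
import Pool.Agent.MP_855f4c_ag.EC.Pa
import Pool.Agent.MP_855f4c_ag.EC.E4c

section

/-! Section S: local to global. -/

set_option autoImplicit false
set_option backward.isDefEq.respectTransparency false

open CategoryTheory Limits Abelian Opposite AlgebraicGeometry IsLocalRing Function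

namespace Pool.Agent.MP_855f4c_ag.E.SA

open E3 E4

namespace LTG

variable {X : Scheme.{0}}

lemma vanish {A : Type} [CommRing A] (G : Sh (Scheme.etaleTopology.over (Spec (.of A)))) (hG : LFP G.obj)
    (h : ∀ (E : Type) [CommRing E] [Algebra A E] [Algebra.Etale A E] (I : Ideal E), I ≠ ⊤ →
      ∃ (O : Type) (_ : CommRing O) (_ : Algebra A O) (_ : Algebra E O) (_ : IsScalarTower A E O),
        SHL O ∧ IndEt E O ∧ (∀ z ∈ I, ¬ IsUnit (algebraMap E O z)) ∧
        ∀ s : sec G (Over.mk (spc (algebraMap A O))), s = 0)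
    (U : Over (Spec (.of A))) (h1 : IsAffine U.left) (h2 : Etale U.hom) (s : sec G U) : s = 0 := by
  obtain ⟨φ, hφ⟩ := Spec.map_surjective (U.left.isoSpec.inv ≫ U.hom)
  let _ : Algebra A Γ(U.left, ⊤) := φ.hom.toAlgebra
  have : Algebra.Etale A Γ(U.left, ⊤) := by
    have : Etale (Spec.map φ) := by rw [hφ]; infer_instance
    exact (HasRingHomProperty.Spec_iff (P := @Etale)).1 this
  let e : ob (𝟙 _) Γ(U.left, ⊤) ≅ U :=
    Over.isoMk U.left.isoSpec.symm (hφ.symm.trans (Category.comp_id _).symm)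
  refine (ConcreteCategory.bijective_of_isIso (G.obj.map e.hom.op)).1 ?_
  rw [map_zero]
  refine sep_ring _ G _ fun m hm => ?_
  obtain ⟨O, _, _, _, _, _, hI, h3, h4⟩ := h _ m hm.ne_top
  have e : ob (𝟙 _) O = Over.mk (spc (algebraMap A O)) := congrArg Over.mk (Category.comp_id _)
  obtain ⟨E, g, hE⟩ := ind_zero (𝟙 _) hG hI (G.obj.map _ s) ((e ▸ h4 :
    ∀ s : sec G (ob (𝟙 _) O), s = 0) _)
  refine ⟨E, ⟨(maximalIdeal O).comap g, inferInstance, (hm.eq_of_le (Ideal.IsPrime.ne_top
    inferInstance) fun z hz => ?_).symm⟩, hE⟩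
  change g (algebraMap _ _ z) ∈ maximalIdeal O
  rw [g.commutes]
  exact h3 z hz

lemma post_bij_of {F G : Sh (Scheme.etaleTopology.over X)} (φ : F ⟶ G) (B : Sh (Scheme.etaleTopology.over X))
    (h1 : ∀ q (x : Ext.{1} B (kernel φ) q), x = 0) (h2 : ∀ q (x : Ext.{1} B (cokernel φ) q), x = 0)
    (q : ℕ) : Bijective (post.{1} B φ q) := by
  let S₁ := ShortComplex.mk (kernel.ι φ) (Abelian.coimage.π φ) (cokernel.condition _)
  let S₂ := ShortComplex.mk (Abelian.factorThruCoimage φ) (cokernel.π φ) (by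
    rw [← cancel_epi (Abelian.coimage.π φ), ← Category.assoc, Abelian.coimage.fac,
      cokernel.condition, comp_zero])
  have h₁ : S₁.ShortExact := { exact := ShortComplex.exact_cokernel _ }
  have h₂ : S₂.ShortExact :=
    { exact := (ShortComplex.exact_iff_of_epi_of_isIso_of_mono
        (S₁ := ShortComplex.mk _ _ (cokernel.condition φ)) (S₂ := S₂)
        ⟨Abelian.coimage.π φ, 𝟙 _, 𝟙 _, by simp [S₂], by simp [S₂]⟩).1
          (ShortComplex.exact_cokernel φ) }
  have e : ⇑(post.{1} B φ q) = post _ S₂.f q ∘ post _ S₁.g q := funext fun x => by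
    rw [comp_apply, post_post]
    exact congrArg (fun f => post B f q x) (Abelian.coimage.fac φ).symm
  exact e ▸ (Cart.post_f h₂ h2 q).comp (Cart.post_g h₁ h1 q)

/-- `Con` on any site (comparing two spellings of the topology is fast under this name). -/
def ConG {C : Type 1} [Category.{0} C] (J : GrothendieckTopology C) {T' T : C} (g : T' ⟶ T)
    (F : Sh J) (N : ℕ) : Prop := (∀ q < N, Bijective (res g F q)) ∧ Injective (res g F N)

lemma con_G {T' T : Over X} (g : T' ⟶ T) (F : Sh (Scheme.etaleTopology.over X)) (N : ℕ) : Con g F N ↔ ConG _ g F N :=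
  Iff.rfl

lemma conG_sq {C : Type 1} [Category.{0} C] {J : GrothendieckTopology C} {W' T' W T : C}
    (e : W' ≅ W) (e' : T' ≅ T) {g : W ⟶ T} {w : W' ⟶ T'} (sq : e.hom ≫ g = w ≫ e'.hom) (F : Sh J)
    (N : ℕ) : ConG J w F N ↔ ConG J g F N := by
  have b := pre_bij ((fr J).map e.hom) F
  have b' := pre_bij ((fr J).map e'.hom) F
  have c (q) : res e.hom F q ∘ res g F q = res w F q ∘ res e'.hom F q := funext fun x => by
    simp only [comp_apply]
    rw [pre_pre, pre_pre, ← Functor.map_comp, ← Functor.map_comp, sq]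
  refine and_congr (forall₂_congr fun q _ => ?_) ?_
  · rw [← (b q).of_comp_iff', c, Bijective.of_comp_iff _ (b' q)]
  · rw [← (b N).1.of_comp_iff, c, Injective.of_comp_iff' _ (b' N)]

lemma conG_pb {Y : Scheme.{0}} (f : Y ⟶ X) {U V : Over Y} (g : V ⟶ U) (F : Sh (Scheme.etaleTopology.over X)) (N : ℕ) :
    ConG _ ((Over.map f).map g) F N ↔ ConG _ g ((pb (J := Scheme.etaleTopology) f).obj F) N := by
  refine and_congr (forall₂_congr fun q _ => res_map_bij f g F q) ?_
  rw [← (slH_bij f V F N).1.of_comp_iff, ← Injective.of_comp_iff' _ (slH_bij f U F N)]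
  exact (congrArg Injective (funext (slH_res f g F N))).to_iff

lemma con_sl {Y : Scheme.{0}} (f : Y ⟶ X) {U' U : Over Y} (g : U' ⟶ U) {W' T' : Over X}
    (w : W' ⟶ T') (e : W' ≅ (Over.map f).obj U') (e' : T' ≅ (Over.map f).obj U)
    (sq : e.hom ≫ (Over.map f).map g = w ≫ e'.hom) (F : Sh (Scheme.etaleTopology.over X)) (N : ℕ) :
    Con w F N ↔ Con g ((pb (J := Scheme.etaleTopology) f).obj F) N :=
  (con_G _ _ _).trans ((conG_sq e e' sq F N).trans ((conG_pb f g F N).trans (con_G _ _ _).symm))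

/-- The projection `V ×_S W ⟶ V`. -/
noncomputable def cu {W S : Scheme.{0}} (f : W ⟶ S) (V : Over S) :
    (Over.map f).obj ((Over.pullback f).obj V) ⟶ V := (Over.mapPullbackAdj f).counit.app V

lemma con_iff {T W T' W' : Over X} {p : W ⟶ T} {w : W' ⟶ T'} {w' : W' ⟶ W} {a : T' ⟶ T}
    (h : IsPullback w w' a p) (F : Sh (Scheme.etaleTopology.over X)) (N : ℕ) :
    Con w F N ↔
      Con (cu p.left (Over.mk a.left)) ((pb (J := Scheme.etaleTopology) T.hom).obj F) N := by
  have h' := isPullback_left h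
  let e : W' ≅ (Over.map T.hom).obj ((Over.map p.left).obj
      ((Over.pullback p.left).obj (Over.mk a.left))) := Over.isoMk h'.isoPullback (by
    change h'.isoPullback.hom ≫ (pullback.snd _ _ ≫ p.left) ≫ T.hom = _
    rw [Category.assoc, h'.isoPullback_hom_snd_assoc, Over.w p, Over.w w'])
  let e' : T' ≅ (Over.map T.hom).obj (Over.mk a.left) := Over.isoMk (Iso.refl _)
    ((Category.id_comp _).trans (Over.w a))
  exact con_sl T.hom (cu p.left (Over.mk a.left)) w e e'
    (Over.OverMorphism.ext (h'.isoPullback_hom_fst.trans (Category.comp_id _).symm)) F N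

lemma res0 {T' T : Over X} (g : T' ⟶ T) (F : Sh (Scheme.etaleTopology.over X)) (h : Bijective (res g F 0)) :
    Bijective (F.obj.map g.op) := by
  have e : h0 T' F ∘ F.obj.map g.op = res g F 0 ∘ h0 T F := funext (h0_res g)
  exact (Bijective.of_comp_iff' (h0 T' F).bijective _).1 (e ▸ h.comp (h0 T F).bijective)

lemma pb_inj {Y : Scheme.{0}} (f : Y ⟶ X) (U : Over Y) (I : Sh (Scheme.etaleTopology.over X)) [CategoryTheory.Injective I]
    (n : ℕ) (y : H U ((pb (J := Scheme.etaleTopology) f).obj I) (n + 1)) : y = 0 := by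
  obtain ⟨x, rfl⟩ := (slH_bij f U I (n + 1)).2 y
  rw [Ext.eq_zero_of_injective x, map_zero]

lemma univ_pb {Y : Scheme.{0}} (f : Y ⟶ X) (U : Over Y) (F : Sh (Scheme.etaleTopology.over X)) (q : ℕ) :
    Bijective (univ (Scheme.etaleTopology.over Y) (Over.map f) U F q) :=
  univ_bij _ _ U (fun I _ n y => pb_inj f U I n y) F q

lemma zero_of_surj {A B : Type 1} [AddCommGroup A] [AddCommGroup B] (φ : A →+ B)
    (h : Surjective φ) (hA : ∀ x : A, x = 0) (y : B) : y = 0 := by
  obtain ⟨x, rfl⟩ := h y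
  rw [hA x, map_zero]

lemma hpg_zero {C D : Type 1} [Category.{0} C] [Category.{0} D] {J : GrothendieckTopology C}
    (G : D ⥤ C) (V : D) (F : Sh J) (b : ℕ) (h : ∀ y : H (G.obj V) F b, y = 0) {Q : Dᵒᵖ ⥤ Ab.{1}}
    (η : (HPG J G b).obj F ⟶ Q) (y : ((HPG J G b).obj F).obj (op V)) : η.app (op V) y = 0 :=
  (congrArg (η.app (op V)) (h y)).trans (map_zero _)

section
variable {W S : Scheme.{0}} (f : W ⟶ S) (F : Sh (Scheme.etaleTopology.over S))

/-- `f^* F`. -/
noncomputable abbrev up1 : Sh (Scheme.etaleTopology.over W) := (push (Scheme.etaleTopology.over S) (Scheme.etaleTopology.over W) (Over.map f)).obj F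

/-- `R^b f_* f^* F`. -/
noncomputable abbrev RR (b : ℕ) : Sh (Scheme.etaleTopology.over S) := (Rb (Scheme.etaleTopology.over W) (Scheme.etaleTopology.over S) (Over.pullback f) b).obj (up1 f F)

/-- The unit `F ⟶ f_* f^* F`. -/
noncomputable abbrev un : F ⟶ (push (Scheme.etaleTopology.over W) (Scheme.etaleTopology.over S) (Over.pullback f)).obj (up1 f F) :=
  uni (padj (Scheme.etaleTopology.over W) (Scheme.etaleTopology.over S) (Over.mapPullbackAdj f)) F

lemma lerc (U : Over S) (N : ℕ) (h1 : ∀ q (x : H U (kernel (un f F)) q), x = 0)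
    (h2 : ∀ q (x : H U (cokernel (un f F)) q), x = 0)
    (h3 : ∀ b, b + 1 < N → ∀ q (x : H U (RR f F (b + 1)) q), x = 0) : Con (cu f U) F N := by
  have hφ := post_bij_of (un f F) _ h1 h2
  have hE := fun n => edgeH_trunc (Scheme.etaleTopology.over S) (Over.mapPullbackAdj f) U (up1 f F) n N h3
  have e : ∀ n, edgeH (Scheme.etaleTopology.over S) (Over.mapPullbackAdj f) U (up1 f F) n ∘ post _ (un f F) n =
      univ (Scheme.etaleTopology.over W) (Over.map f) _ F n ∘ res (cu f U) F n :=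
    fun n => funext (edgeH_unit _ (Over.mapPullbackAdj f))
  refine ⟨fun q hq => (Bijective.of_comp_iff' (univ_pb f _ F q) _).1 ?_,
    Injective.of_comp (f := univ (Scheme.etaleTopology.over W) (Over.map f) _ F N) ?_⟩
  · rw [← e]
    exact Bijective.comp ⟨(hE q).1 hq.le, (hE q).2 hq⟩ (hφ q)
  · rw [← e]
    exact ((hE _).1 le_rfl).comp (hφ _).1

lemma lfp_RR [QuasiCompact f] [IsSeparated f] (h : LFP F.obj) (b : ℕ) : LFP (RR f F b).obj :=
  lfp_sheafify (lim_pb f (F := up1 f F) (pb_lfp f h) b)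

lemma lfp_pf [QuasiCompact f] [IsSeparated f] (h : LFP F.obj) :
    LFP ((push (Scheme.etaleTopology.over W) (Scheme.etaleTopology.over S) (Over.pullback f)).obj (up1 f F)).obj := by
  let e := (R0 (Scheme.etaleTopology.over W) (Scheme.etaleTopology.over S) (Over.pullback f)).app (up1 f F)
  have : IsIso e.hom.hom := inferInstanceAs (IsIso ((sheafToPresheaf _ _).map e.hom))
  exact LFP.of_locBij e.hom.hom (lfp_RR f F h 0)

lemma un_bij {V : Over S} {N : ℕ} (h : Con (cu f V) F (N + 1)) :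
    Bijective ((un f F).hom.app (op V)) := res0 _ F (h.1 0 N.succ_pos)

variable {O : Type} [CommRing O] [SHL O] (a : Spec (.of O) ⟶ S)

lemma RR_zero {N : ℕ} (h : Con (cu f (Over.mk a)) F N) (b : ℕ) (hb : b + 1 < N)
    (s : sec (RR f F (b + 1)) (Over.mk a)) : s = 0 := by
  obtain ⟨y, rfl⟩ := shl_surj a (toSheafify (Scheme.etaleTopology.over S)
    ((HPG (Scheme.etaleTopology.over W) (Over.pullback f) (b + 1)).obj (up1 f F))) s
  exact hpg_zero (Over.pullback f) _ _ _ (zero_of_surj _ (univ_pb f _ F (b + 1)).2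
    (zero_of_surj _ (h.1 _ hb).2 (wc_H (SHL.wc O) a F b))) _ y
end

lemma ker_zero {F G : Sh (Scheme.etaleTopology.over X)} (φ : F ⟶ G) {V : Over X} (h : Injective (φ.hom.app (op V)))
    (s : sec (kernel φ) V) : s = 0 := by
  refine (exact_sec (ShortComplex.exact_kernel φ) _).1 (h ?_)
  rw [map_zero, map_zero]
  exact congr(($(kernel.condition φ)).hom.app (op V) s)

lemma coker_zero {F G : Sh (Scheme.etaleTopology.over X)} (φ : F ⟶ G) {O : Type} [CommRing O] [SHL O]
    (a : Spec (.of O) ⟶ X) (h : Surjective (φ.hom.app (op (Over.mk a))))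
    (s : sec (cokernel φ) (Over.mk a)) : s = 0 := by
  obtain ⟨y, rfl⟩ := shl_surj a (cokernel.π φ).hom s
  obtain ⟨x, rfl⟩ := h y
  exact congr(($(cokernel.condition φ)).hom.app (op (Over.mk a)) x)

end LTG

open LTG

theorem ltg : LTG_s := by
  intro X F hF A _ u W p hW hW' N h
  let f : W.left ⟶ Spec (.of A) := p.left
  have : QuasiCompact f := HasAffineProperty.iff_of_isAffine.2 hW
  have : IsSeparated f := by
    have : IsSeparated (f ≫ terminal.from _) := by
      rw [terminal.comp_from]; exact hW'.isSeparated_terminal_from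
    exact IsSeparated.of_comp f (terminal.from _)
  let F₀ : Sh (Scheme.etaleTopology.over (Spec (.of A))) := (pb (J := Scheme.etaleTopology) (ob u A).hom).obj F
  have l0 : LFP F₀.obj := pb_lfp _ hF
  have key : ∀ G : Sh (Scheme.etaleTopology.over (Spec (.of A))), LFP G.obj →
      (∀ (O : Type) [CommRing O] [SHL O] (a : Spec (.of O) ⟶ Spec (.of A)),
        Con (cu f (Over.mk a)) F₀ (N + 1) → ∀ s : sec G (Over.mk a), s = 0) →
      ∀ q (x : H (top _) G q), x = 0 := fun G hG hz =>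
    have : Etale (top (Spec (.of A))).hom := inferInstanceAs (Etale (𝟙 _))
    sm_zero (vanish G hG fun E _ _ _ I hI => by
      obtain ⟨O, _, _, _, _, _, h1, h2, W', w, w', h3, h4⟩ := h E I hI
      exact ⟨O, _, _, _, ‹_›, ‹_›, h1, h2, hz O _ ((con_iff h3 F _).1 h4)⟩) _
  exact (con_iff (IsPullback.of_vert_isIso ⟨(Category.comp_id p).trans
    (Category.id_comp p).symm⟩) F _).2 (lerc f F₀ (top _) _
    (key _ (LFP.X₁ (ShortComplex.exact_kernel _) l0 (lfp_pf f F₀ l0)) fun O _ _ a ha =>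
      ker_zero _ (un_bij f F₀ ha).1)
    (key _ (LFP.X₃ (ShortComplex.exact_cokernel _) l0 (lfp_pf f F₀ l0)) fun O _ _ a ha =>
      coker_zero _ a (un_bij f F₀ ha).2)
    fun b hb => key _ (lfp_RR f F₀ l0 _) fun O _ _ a ha => RR_zero f F₀ a ha b hb)

end Pool.Agent.MP_855f4c_ag.E.SA

end

section

set_option autoImplicit false
set_option backward.isDefEq.respectTransparency false

open CategoryTheory Limits Abelian Opposite AlgebraicGeometry TensorProduct Function

namespace Pool.Agent.MP_855f4c_ag.E.SA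

open E3 E4

/-- A directed system of algebras with elementwise colimit `L`. -/
theorem ZLIM.dir {X : Scheme.{0}} {P : PSh X} (hP : LFP P) {R : Type} [CommRing R]
    (u : Spec (.of R) ⟶ X) {ι : Type} [Preorder ι] [IsDirectedOrder ι] [Nonempty ι] (T : ι → Type)
    [∀ i, CommRing (T i)] [∀ i, Algebra R (T i)] (f : ∀ {i j}, i ≤ j → T i →ₐ[R] T j)
    (f0 : ∀ i, f (le_refl i) = AlgHom.id _ _)
    (f1 : ∀ {i j k} (h : i ≤ j) (h' : j ≤ k), f (h.trans h') = (f h').comp (f h))
    {L : Type} [CommRing L] [Algebra R L] (g : ∀ i, T i →ₐ[R] L)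
    (hg : ∀ {i j} (h : i ≤ j), g i = (g j).comp (f h)) (h1 : ∀ x, ∃ i y, g i y = x)
    (h2 : ∀ i x, g i x = 0 → ∃ (j : ι) (h : i ≤ j), f h x = 0) :
    (∀ s, ∃ i t, rs u P (g i) t = s) ∧
      ∀ i t, rs u P (g i) t = 0 → ∃ (j : ι) (h : i ≤ j), rs u P (f h) t = 0 := by
  let G : ι ⥤ CommRingCat.{0} :=
    { obj i := .of (T i)
      map h := CommRingCat.ofHom (f h.le : _ →+* _)
      map_id i := by rw [f0]; rfl
      map_comp h h' := by rw [f1 h.le h'.le]; rfl }
  let s : Cocone G :=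
    { pt := .of L
      ι := { app i := CommRingCat.ofHom (g i : _ →+* _)
             naturality i j h := by ext x : 2; exact (congr($(hg h.le) x)).symm } }
  have : ReflectsColimit G (forget CommRingCat) := reflectsColimit_of_reflectsIsomorphisms _ _
  have hs : IsColimit s :=
    isColimitOfReflects (forget CommRingCat) (Types.FilteredColimit.isColimitOf' _ _
      (fun x => (h1 x).imp fun i h => h.imp fun y h => h.symm) fun i (x : T i) (y : T i) h => by
        obtain ⟨j, h', e⟩ := h2 i (x - y) (by rw [map_sub, sub_eq_zero]; exact h)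
        rw [map_sub, sub_eq_zero] at e
        exact ⟨j, homOfLE h', e⟩)
  obtain ⟨a, b⟩ := hP _ _ _ (fun _ => inferInstanceAs (IsAffine (Spec _)))
    (FIN.sysL G (fun i => (ob u (T i)).hom) (fun h => Over.w (hm u (f h.le))) s (ob u L).hom
      (fun i => Over.w (hm u (g i))) hs)
  refine ⟨fun s => ?_, fun i t ht => ?_⟩
  · obtain ⟨i, t, ht⟩ := a s
    exact ⟨i.unop, t, ht⟩
  · obtain ⟨j, h, e⟩ := b (op i) t ht
    exact ⟨j.unop, h.unop.le, e⟩

/-- A tensor that dies is killed by finitely many elements. -/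
theorem ZLIM.kill {C A M N : Type} [CommRing C] [AddCommGroup A] [Module C A] [AddCommGroup M]
    [Module C M] [AddCommGroup N] [Module C N] (ι : N →ₗ[C] M) (x : A ⊗[C] N)
    (hx : ι.lTensor A x = 0) : ∃ s : Finset M, ∀ (N' : Type) [AddCommGroup N'] [Module C N']
      (j : N →ₗ[C] N') (k : N' →ₗ[C] M), Injective k → k ∘ₗ j = ι → (∀ m ∈ s, ∃ n, k n = m) →
      j.lTensor A x = 0 := by
  obtain ⟨P, hP, t, ht⟩ := TensorProduct.exists_of_fg (TensorProduct.comm C A N x)
  obtain ⟨Q, hQ, ⟨s, hs⟩, h⟩ := TensorProduct.eq_zero_of_fg_of_subtype_eq_zero (hP.map ι)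
    (t := (ι.submoduleMap P).rTensor A t) (by
      rw [← LinearMap.comp_apply, ← LinearMap.rTensor_comp,
        show (P.map ι).subtype ∘ₗ ι.submoduleMap P = ι ∘ₗ P.subtype from rfl,
        LinearMap.rTensor_comp, LinearMap.comp_apply, ht, LinearMap.rTensor_comm, hx, map_zero])
  refine ⟨s, fun N' _ _ j k hk e hm => ?_⟩
  have hle : Q ≤ LinearMap.range k := hs ▸ Submodule.span_le.2 hm
  have : j ∘ₗ P.subtype = ((LinearEquiv.ofInjective k hk).symm.toLinearMap ∘ₗ
      Submodule.inclusion hle) ∘ₗ Submodule.inclusion hQ ∘ₗ ι.submoduleMap P :=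
    LinearMap.ext fun p => hk ((congr($e p)).trans
      (LinearEquiv.ofInjective_symm_apply k (h := hk) ⟨ι p, hle (hQ ⟨p, p.2, rfl⟩)⟩).symm)
  apply (TensorProduct.comm C A N').injective
  rw [← LinearMap.rTensor_comm, ← ht, ← LinearMap.comp_apply, ← LinearMap.rTensor_comp, this,
    LinearMap.rTensor_comp, LinearMap.comp_apply, LinearMap.rTensor_comp A (Submodule.inclusion hQ),
    LinearMap.comp_apply, h, map_zero, map_zero]

theorem ZLIM.mem {C L : Type} [CommRing C] [Field L] [Algebra C L] {𝒮 : Set (Subring L)}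
    (hd : DirectedOn (· ≤ ·) 𝒮) (hn : 𝒮.Nonempty) {z : L} (hz : z ∈ sub C (sSup 𝒮)) :
    ∃ B ∈ 𝒮, z ∈ sub C B := by
  have := hn.to_subtype
  have hd' : Directed (· ≤ ·) fun B : 𝒮 => sub C B.1 := fun a b => by
    obtain ⟨c, hc, h1, h2⟩ := hd a a.2 b b.2
    exact ⟨⟨c, hc⟩, Algebra.adjoin_mono h1, Algebra.adjoin_mono h2⟩
  have : sub C (sSup 𝒮) ≤ ⨆ B : 𝒮, sub C B.1 := Algebra.adjoin_le fun y hy => by
    obtain ⟨B, hB, hy⟩ := (Subring.mem_sSup_of_directedOn hn hd).1 hy
    exact le_iSup (fun B : 𝒮 => sub C B.1) ⟨B, hB⟩ (Algebra.subset_adjoin hy)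
  have h := this hz
  rw [← SetLike.mem_coe, Subalgebra.coe_iSup_of_directed hd'] at h
  obtain ⟨B, hB⟩ := Set.mem_iUnion.1 h
  exact ⟨B, B.2, hB⟩

theorem ZLIM.tm (C A : Type) {L : Type} [CommRing C] [CommRing A] [Algebra C A] [Field L]
    [Algebra C L] {B B' : Subring L} (h : B ≤ B') (a : A) (z : sub C B) :
    rB C A h (a ⊗ₜ z) = a ⊗ₜ ⟨z.1, Algebra.adjoin_mono h z.2⟩ :=
  Algebra.TensorProduct.map_tmul _ _ _ _

theorem ZLIM.rr (C A : Type) {L : Type} [CommRing C] [CommRing A] [Algebra C A] [Field L]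
    [Algebra C L] {B B' B'' : Subring L} (h : B ≤ B') (h' : B' ≤ B'') :
    rB C A (h.trans h') = (rB C A h').comp (rB C A h) := by
  refine AlgHom.ext fun x => ?_
  induction x using TensorProduct.induction_on with
  | zero => simp only [map_zero]
  | tmul a z => rw [AlgHom.comp_apply, ZLIM.tm, ZLIM.tm, ZLIM.tm]
  | add x y hx hy => simp only [map_add, hx, hy]

section
variable (C A : Type) {L : Type} [CommRing C] [CommRing A] [Algebra C A] [Field L] [Algebra C L]

theorem ZLIM.r0 (B : Subring L) : rB C A (le_refl B) = AlgHom.id _ _ := by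
  refine AlgHom.ext fun x => ?_
  induction x using TensorProduct.induction_on with
  | zero => simp only [map_zero]
  | tmul a z => rw [ZLIM.tm, AlgHom.id_apply]
  | add x y hx hy => simp only [map_add, hx, hy]

theorem ZLIM.mono {B B' : Subring L} (h : B ≤ B') : sub C B ≤ sub C B' := Algebra.adjoin_mono h

/-- The inclusion as a linear map. -/
def ZLIM.inc {B B' : Subring L} (h : B ≤ B') : sub C B →ₗ[C] sub C B' :=
  (Subalgebra.inclusion (ZLIM.mono C h)).toLinearMap

theorem ZLIM.val {B B' : Subring L} (h : B ≤ B') (z : sub C B) : (ZLIM.inc C h z).1 = z.1 :=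
  Subalgebra.coe_inclusion (ZLIM.mono C h) z

theorem ZLIM.lt {B B' : Subring L} (h : B ≤ B') (x : TB C A B) :
    rB C A h x = (ZLIM.inc C h).lTensor A x := by
  induction x using TensorProduct.induction_on with
  | zero => simp only [map_zero]
  | tmul a z => rw [ZLIM.tm, LinearMap.lTensor_tmul]; rfl
  | add x y hx hy => simp only [map_add, hx, hy]

variable {𝒮 : Set (Subring L)} (hd : DirectedOn (· ≤ ·) 𝒮) (hn : 𝒮.Nonempty)
include hd hn

theorem ZLIM.su (x : TB C A (sSup 𝒮)) : ∃ (B : 𝒮) (y : _), rB C A (le_sSup B.2) y = x := by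
  induction x using TensorProduct.induction_on with
  | zero => exact ⟨⟨_, hn.some_mem⟩, 0, map_zero _⟩
  | tmul a z =>
    obtain ⟨B, hB, hz⟩ := ZLIM.mem hd hn z.2
    exact ⟨⟨B, hB⟩, a ⊗ₜ ⟨z, hz⟩, ZLIM.tm C A _ _ _⟩
  | add x y hx hy =>
    obtain ⟨i, x, rfl⟩ := hx
    obtain ⟨j, y, rfl⟩ := hy
    obtain ⟨k, hk, hi, hj⟩ := hd i i.2 j j.2
    refine ⟨⟨k, hk⟩, rB C A hi x + rB C A hj y, ?_⟩
    rw [map_add, ZLIM.rr C A hi (le_sSup hk), ZLIM.rr C A hj (le_sSup hk), AlgHom.comp_apply,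
      AlgHom.comp_apply]

theorem ZLIM.ze (B : 𝒮) (x : TB C A B.1) (hx : rB C A (le_sSup B.2) x = 0) :
    ∃ (k : 𝒮) (h : B ≤ k), rB C A (show B.1 ≤ k.1 from h) x = 0 := by
  have := hn.to_subtype
  have : IsDirectedOrder 𝒮 := hd.isDirectedOrder
  rw [ZLIM.lt] at hx
  obtain ⟨s, hs⟩ := ZLIM.kill _ x hx
  choose b hb hz using fun z : sub C (sSup 𝒮) => ZLIM.mem hd hn z.2
  obtain ⟨k, hk⟩ := Finite.exists_le fun z : s => (⟨b z, hb z⟩ : 𝒮)
  obtain ⟨k', h1, h2⟩ := exists_ge_ge B k
  refine ⟨k', h1, ?_⟩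
  rw [ZLIM.lt]
  refine hs _ _ (ZLIM.inc C (le_sSup k'.2)) (fun _ _ e => Subtype.ext ?_)
    (LinearMap.ext fun _ => Subtype.ext ?_) fun m hm =>
      ⟨⟨m, ZLIM.mono C ((hk ⟨m, hm⟩).trans h2 :) (hz m)⟩, Subtype.ext ?_⟩
  · have := congrArg Subtype.val e
    rwa [ZLIM.val, ZLIM.val] at this
  · rw [LinearMap.comp_apply, ZLIM.val, ZLIM.val, ZLIM.val]
  · rw [ZLIM.val]
end

theorem zlim : ZLIM_s := by
  intro X F hF C A L _ _ _ _ _ u q 𝒮 hd
  have key (hn : 𝒮.Nonempty) :=
    have := hn.to_subtype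
    have : IsDirectedOrder 𝒮 := hd.isDirectedOrder
    ZLIM.dir (lim_aff hF q) u (ι := 𝒮) (fun B => TB C A B.1) (fun h => rB C A h)
      (fun B => ZLIM.r0 C A B.1) (fun h h' => ZLIM.rr C A h h')
      (fun B => rB C A (le_sSup B.2)) (fun h => ZLIM.rr C A h _) (ZLIM.su C A hd hn)
      (ZLIM.ze C A hd hn)
  refine ⟨fun hn y => ?_, fun B hB x hx => ?_⟩
  · obtain ⟨B, x, h⟩ := (key hn).1 y
    exact ⟨B, B.2, x, h⟩
  · obtain ⟨B', h, e⟩ := (key ⟨B, hB⟩).2 ⟨B, hB⟩ x hx
    exact ⟨B', B'.2, h, e⟩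

end Pool.Agent.MP_855f4c_ag.E.SA

end

section

set_option autoImplicit false
set_option backward.isDefEq.respectTransparency false

open CategoryTheory Limits Abelian Opposite AlgebraicGeometry
open Function

namespace Pool.Agent.MP_855f4c_ag.E.SA

open E3 E4

namespace TORS

variable {X : Scheme.{0}} {T' T : Over X} {p : T' ⟶ T}

lemma of_colim [IsAffine T'.left] [IsAffine T.left] {D : Type 1} [SmallCategory D] [IsFiltered D]
    {G : D ⥤ Sh (Scheme.etaleTopology.over X)} (c : Cocone G) (hc : IsColimit c) (h : ∀ d, HB p (G.obj d)) :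
    HB p c.pt := by
  intro q
  have H := colim_qcs T c hc q
  have H' := colim_qcs T' c hc q
  refine ⟨(injective_iff_map_eq_zero _).2 fun x hx => ?_, fun y => ?_⟩
  · obtain ⟨d, x, rfl⟩ := H.1 x
    obtain ⟨e, f, hf⟩ := H'.2 d (res p _ q x) ((pre_post _ (c.ι.app d) x).symm.trans hx)
    have h1 : post _ (G.map f) q x = 0 :=
      (h e q).1 (((pre_post _ (G.map f) x).trans hf).trans (map_zero _).symm)
    have h2 := post_post (G.map f) (c.ι.app e) x
    rw [h1, map_zero, c.w f] at h2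
    exact h2.symm
  · obtain ⟨d, y, rfl⟩ := H'.1 y
    obtain ⟨x, rfl⟩ := (h d q).2 y
    exact ⟨_, pre_post _ (c.ι.app d) x⟩

lemma of_union [IsAffine T'.left] [IsAffine T.left] {F : Sh (Scheme.etaleTopology.over X)} {ι : Type 1} [Nonempty ι]
    (S : ι → Subobject F) (hS : Directed (· ≤ ·) S)
    (hU : ∀ {Q : Sh (Scheme.etaleTopology.over X)} (π : F ⟶ Q), (∀ i, (S i).arrow ≫ π = 0) → π = 0)
    (h : ∀ i, HB p (S i : Sh (Scheme.etaleTopology.over X))) : HB p F := by
  let := Preorder.lift S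
  have : IsDirectedOrder ι := ⟨hS⟩
  let G : ι ⥤ Sh (Scheme.etaleTopology.over X) := Monotone.functor (f := S) (fun _ _ h => h) ⋙ Subobject.underlying
  let c : Cocone G := ⟨F, { app i := (S i).arrow
                            naturality i j f := by simp [G] }⟩
  have (i : ι) : Mono (c.ι.app i) := inferInstanceAs (Mono (S i).arrow)
  obtain ⟨hc⟩ := CLM.union_colim c fun W hW => by
    have : Epi W.arrow := Abelian.epi_of_cokernel_π_eq_zero _ (hU _ fun i => by
      rw [← Subobject.ofLE_arrow ((S i).mk_arrow.ge.trans (hW i)), Category.assoc,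
        cokernel.condition, comp_zero])
    have := isIso_of_mono_of_epi W.arrow
    exact Subobject.eq_top_of_isIso_arrow W
  exact of_colim c hc h

lemma of_isZero {F : Sh (Scheme.etaleTopology.over X)} (hF : IsZero F) : HB p F := by
  have key : ∀ (A : Sh (Scheme.etaleTopology.over X)) (q : ℕ) (x : Ext A F q), x = 0 := fun A q x => by
    rw [← post_id x, hF.eq_of_src (𝟙 F) 0, post_apply, Ext.mk₀_zero, Ext.comp_zero]
  exact fun q => ⟨fun x y _ => (key _ q x).trans (key _ q y).symm,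
    fun y => ⟨0, (key _ q _).trans (key _ q y).symm⟩⟩

instance : (cst X).Additive := by
  unfold cst constantSheaf
  infer_instance

instance : PreservesFiniteLimits (cst X) := by
  unfold cst constantSheaf
  infer_instance

instance : PreservesFiniteColimits (cst X) := by
  unfold cst constantSheaf
  infer_instance

lemma hb_iff {F : Sh (Scheme.etaleTopology.over X)} : HB p F ↔ ExtBij.{1} ((fr (Scheme.etaleTopology.over X)).map p) F := Iff.rfl

lemma ext1 {S : ShortComplex (Sh (Scheme.etaleTopology.over X))} (hS : S.ShortExact) (h1 : HB p S.X₁) (h3 : HB p S.X₃) :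
    HB p S.X₂ := hb_iff.2 (ExtBij.X₂ hS (hb_iff.1 h1) (hb_iff.1 h3))

lemma ext2 {S : ShortComplex Ab.{1}} (hS : S.ShortExact) (h1 : HB p ((cst X).obj S.X₁))
    (h3 : HB p ((cst X).obj S.X₃)) : HB p ((cst X).obj S.X₂) :=
  ext1 (S := S.map (cst X)) (hS.map_of_exact (cst X)) h1 h3

lemma step {l : ℕ} [Fact l.Prime] {M : Type 1} [AddCommGroup M] (N : AddSubgroup M) (m : M)
    (hm : m ∉ N) (hl : l • m ∈ N) : ∃ (N' : AddSubgroup M) (h : N ≤ N'), m ∈ N' ∧
      ∃ g : N' →+ ULift.{1} (ZMod l), Surjective g ∧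
        ∀ x, g x = 0 ↔ ∃ y, AddSubgroup.inclusion h y = x := by
  let φ : ZMod l →+ M ⧸ N := ZMod.lift l ⟨zmultiplesHom _ (m : M ⧸ N), by
    rw [zmultiplesHom_apply, natCast_zsmul, ← QuotientAddGroup.mk_nsmul,
      QuotientAddGroup.eq_zero_iff]
    exact hl⟩
  have h1 : φ 1 = m := by
    have := ZMod.lift_coe l ⟨zmultiplesHom _ (m : M ⧸ N), by
      rw [zmultiplesHom_apply, natCast_zsmul, ← QuotientAddGroup.mk_nsmul,
        QuotientAddGroup.eq_zero_iff]
      exact hl⟩ 1
    rw [Int.cast_one] at this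
    exact this.trans (one_zsmul _)
  have hφ : Injective φ := by
    have : Fact (Nat.card (ZMod l)).Prime := ⟨by rw [Nat.card_zmod]; exact Fact.out⟩
    rcases φ.ker.eq_bot_or_eq_top_of_prime_card with h | h
    · exact φ.ker_eq_bot_iff.1 h
    · have h2 : (1 : ZMod l) ∈ φ.ker := h ▸ AddSubgroup.mem_top _
      rw [AddMonoidHom.mem_ker, h1, QuotientAddGroup.eq_zero_iff] at h2
      exact (hm h2).elim
  let N' : AddSubgroup M := φ.range.comap (QuotientAddGroup.mk' N)
  have hN : N ≤ N' := fun x hx => ⟨0, (map_zero _).trans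
    ((QuotientAddGroup.eq_zero_iff x).2 hx).symm⟩
  let g₀ : N' →+ φ.range := ((QuotientAddGroup.mk' N).comp N'.subtype).codRestrict _ fun x => x.2
  let e : φ.range ≃+ ULift.{1} (ZMod l) :=
    (AddMonoidHom.ofInjective hφ).symm.trans AddEquiv.ulift.symm
  refine ⟨N', hN, ⟨1, h1⟩, e.toAddMonoidHom.comp g₀, e.surjective.comp fun z => ?_, fun x => ?_⟩
  · obtain ⟨x, hx⟩ := QuotientAddGroup.mk'_surjective N z.1
    exact ⟨⟨x, show QuotientAddGroup.mk' N x ∈ φ.range from hx ▸ z.2⟩, Subtype.ext hx⟩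
  · refine (map_eq_zero_iff e e.injective).trans ⟨fun h => ?_, ?_⟩
    · exact ⟨⟨x.1, (QuotientAddGroup.eq_zero_iff x.1).1 (congrArg Subtype.val h)⟩, rfl⟩
    · rintro ⟨y, rfl⟩
      exact Subtype.ext ((QuotientAddGroup.eq_zero_iff y.1).2 y.2)

lemma exists_step {l : ℕ} {M : Type 1} [AddCommGroup M] (N : AddSubgroup M) (n : ℕ) :
    ∀ m : M, m ∉ N → l ^ n • m = 0 → ∃ m', m' ∉ N ∧ l • m' ∈ N := by
  induction n with
  | zero => exact fun m hm h => (hm (by rw [pow_zero, one_smul] at h; exact h ▸ N.zero_mem)).elim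
  | succ n ih =>
    intro m hm h
    by_cases h1 : l • m ∈ N
    · exact ⟨m, hm, h1⟩
    · exact ih _ h1 (by rw [← mul_smul, ← pow_succ, h])

/-- the inclusion of constant sheaves -/
noncomputable def inc {M : Type 1} [AddCommGroup M] {N N' : AddSubgroup M} (h : N ≤ N') :
    (cst X).obj (.of N) ⟶ (cst X).obj (.of N') :=
  (cst X).map (AddCommGrpCat.ofHom (AddSubgroup.inclusion h))

instance {M : Type 1} [AddCommGroup M] {N N' : AddSubgroup M} (h : N ≤ N') :
    Mono (inc (X := X) h) :=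
  have : Mono (AddCommGrpCat.ofHom (AddSubgroup.inclusion h)) :=
    (AddCommGrpCat.mono_iff_injective _).2 (AddSubgroup.inclusion_injective h)
  (cst X).map_mono _

lemma chain [IsAffine T'.left] [IsAffine T.left] {M : Type 1} [AddCommGroup M]
    (c : Set (AddSubgroup M)) (hc : DirectedOn (· ≤ ·) c) (hne : c.Nonempty)
    (h : ∀ N ∈ c, HB p ((cst X).obj (.of N))) : HB p ((cst X).obj (.of (sSup c : AddSubgroup M))) := by
  have := hne.to_subtype
  have hle : ∀ {N N' : c}, N.1 ≤ N'.1 → Subobject.mk (inc (X := X) (le_sSup N.2)) ≤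
      Subobject.mk (inc (le_sSup N'.2)) := fun h =>
    Subobject.mk_le_mk_of_comm (inc h) ((cst X).map_comp _ _).symm
  refine of_union (fun N : c => Subobject.mk (inc (le_sSup N.2))) (fun a b => ?_)
    (fun {Q} π hπ => ?_) fun N => ExtBij.of_iso (h _ N.2) (Subobject.underlyingIso _).symm
  · obtain ⟨z, hz, h1, h2⟩ := hc _ a.2 _ b.2
    exact ⟨⟨z, hz⟩, hle h1, hle h2⟩
  · let adj := constantSheafAdj (Scheme.etaleTopology.over X) Ab.{1} Over.mkIdTerminal
    refine (adj.homEquiv _ _).injective ?_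
    ext x
    obtain ⟨N, hN, hx⟩ := (AddSubgroup.mem_sSup_of_directedOn hne hc).1 x.2
    have h1 : inc (le_sSup hN) ≫ π = inc (le_sSup hN) ≫ 0 := by
      have := hπ ⟨N, hN⟩
      rw [← Subobject.underlyingIso_hom_comp_eq_mk, Category.assoc,
        ← comp_zero (f := (Subobject.underlyingIso (inc (le_sSup hN))).hom), cancel_epi] at this
      rw [this, comp_zero]
    have h2 := congrArg (adj.homEquiv _ _) h1
    rw [inc, adj.homEquiv_naturality_left, adj.homEquiv_naturality_left] at h2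
    exact congr($h2 ⟨x.1, hx⟩)

end TORS

open TORS

theorem tors : TORS_s := by
  intro l _ X T' T p _ _
  refine ⟨fun h M hM => ?_, fun F hF h => ?_⟩
  · obtain ⟨N, -, hN⟩ := zorn_le_nonempty₀ {N : AddSubgroup M | HB p ((cst X).obj (.of N))}
      (fun c hc hch y hy => ⟨sSup c, chain c hch.directedOn ⟨y, hy⟩ hc, fun _ hz => le_sSup hz⟩)
      ⊥ (of_isZero ((cst X).map_isZero (AddCommGrpCat.isZero_of_subsingleton _)))
    have h1 : N = ⊤ := by
      by_contra hne
      obtain ⟨m, hm⟩ : ∃ m, m ∉ N := by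
        by_contra h2
        exact hne (eq_top_iff.2 fun m _ => not_not.1 fun h3 => h2 ⟨m, h3⟩)
      obtain ⟨n, hn⟩ := hM m
      obtain ⟨m, hm, hl⟩ := exists_step N n m hm hn
      obtain ⟨N', hle, hm', g, hg, hk⟩ := step N m hm hl
      let S : ShortComplex Ab.{1} := ShortComplex.mk
        (AddCommGrpCat.ofHom (AddSubgroup.inclusion hle)) (AddCommGrpCat.ofHom g)
        (by ext y; exact congrArg ULift.down ((hk _).2 ⟨y, rfl⟩))
      have hS : S.ShortExact :=
        { exact := S.ab_exact_iff.2 fun x hx => (hk x).1 hx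
          mono_f := (AddCommGrpCat.mono_iff_injective _).2 (AddSubgroup.inclusion_injective hle)
          epi_g := (AddCommGrpCat.epi_iff_surjective _).2 hg }
      have h0 : HB p ((cst X).obj S.X₁) := Set.mem_ofPred.1 hN.1
      have h3 : HB p ((cst X).obj S.X₃) := h
      have h4 := ext2 hS h0 h3
      exact hm (hN.2 (y := N') (Set.mem_ofPred.2 h4) hle hm')
    have h2 : HB p ((cst X).obj (.of N)) := hN.1
    subst h1
    exact ExtBij.of_iso h2 ((cst X).mapIso (AddSubgroup.topEquiv (G := M)).toAddCommGrpIso)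
  · have key : ∀ {A : Sh (Scheme.etaleTopology.over X)} (a : A ⟶ F) (m k : ℕ), a ≫ (l ^ m • 𝟙 F) = 0 →
        a ≫ (l ^ (k + m) • 𝟙 F) = 0 := fun a m k h => by
      rw [pow_add, mul_smul, Preadditive.comp_nsmul, h, smul_zero]
    refine of_union (fun m : ULift.{1} ℕ => kernelSubobject (l ^ m.down • 𝟙 F))
      (fun a b => ⟨⟨a.down + b.down⟩,
        le_kernelSubobject _ _ (add_comm a.down _ ▸ key _ _ _ (kernelSubobject_arrow_comp _)),
        le_kernelSubobject _ _ (key _ _ _ (kernelSubobject_arrow_comp _))⟩)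
      (fun {Q} π hπ => ?_) fun m => ExtBij.of_iso (h m.down) (kernelSubobjectIso _).symm
    ext U s
    refine CLM.sec_ext _ fun t => ?_
    obtain ⟨V, v, h1, h2, -, h3⟩ := exists_of_mem_Jov ((Scheme.etaleTopology.over X).top_mem U.unop) t
    refine ⟨V, v, h2, ?_, h3⟩
    obtain ⟨m, hm⟩ := hF V h1 (F.obj.map v.op s)
    obtain ⟨a, ha⟩ := (frEquiv V F).surjective (F.obj.map v.op s)
    rw [← ha, ← map_nsmul, map_eq_zero_iff _ (frEquiv V F).injective] at hm
    obtain ⟨b, rfl⟩ := (Subobject.factors_iff _ _).1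
      (kernelSubobject_factors (l ^ m • 𝟙 F) a (by rw [Preadditive.comp_nsmul, Category.comp_id, hm]))
    have e : b ≫ (kernelSubobject (l ^ m • 𝟙 F)).arrow ≫ π = 0 := by rw [hπ ⟨m⟩, comp_zero]
    exact ((nat π.hom v s).symm.trans ((congrArg _ ha.symm).trans
      ((congrArg (frEquiv V _) e).trans (map_zero _)))).trans (map_zero _).symm

end Pool.Agent.MP_855f4c_ag.E.SA

end

section

set_option autoImplicit false
set_option backward.isDefEq.respectTransparency false

open CategoryTheory Limits Abelian Opposite AlgebraicGeometry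
open Function

namespace Pool.Agent.MP_855f4c_ag.E.SA

open E3 E4 Ez

namespace EXT0

variable {X Y : Scheme.{0}} (j : Y ⟶ X) [IsOpenImmersion j]

lemma mem_map (T : Over Y) : (ovU j.opensRange).mem ((Over.map j).obj T) := fun t => ⟨T.hom t, rfl⟩

lemma exists_lift {T : Over X} (h : (ovU j.opensRange).mem T) :
    ∃ T' : Over Y, T = (Over.map j).obj T' := by
  have h1 : Set.range T.hom ⊆ Set.range j := by
    rintro _ ⟨t, rfl⟩
    exact h t
  exact ⟨Over.mk (IsOpenImmersion.lift j T.hom h1),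
    congrArg Over.mk (IsOpenImmersion.lift_fac j T.hom h1).symm⟩

lemma full {A B : Over Y} (g : (Over.map j).obj A ⟶ (Over.map j).obj B) :
    ∃ g' : A ⟶ B, (Over.map j).map g' = g :=
  ⟨Over.homMk g.left (by rw [← cancel_mono j, Category.assoc]; exact Over.w g), rfl⟩

lemma hom_surj (F G : Sh (Scheme.etaleTopology.over X)) (θ : (pb (J := Scheme.etaleTopology) j).obj
    ((ez j.opensRange).obj F) ⟶ (pb j).obj G) :
    ∃ ψ : (ez j.opensRange).obj F ⟶ G, (pb j).map ψ = θ := by
  classical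
  have hW := (Scheme.etaleTopology.over X).W_of_isLocallyBijective (zη (Scheme.etaleTopology.over X) (ovU j.opensRange) F.obj) G.obj G.property
  have key : ∀ T : Over X, ∃ t : (zP (ovU j.opensRange) F.obj).obj (op T) ⟶ G.obj.obj (op T),
      ∀ (A : Over Y) (a : (Over.map j).obj A ⟶ T) (s), G.obj.map a.op (t s) =
        θ.hom.app (op A) ((zη (Scheme.etaleTopology.over X) (ovU j.opensRange) F.obj).app _
          ((zP (ovU j.opensRange) F.obj).map a.op s)) := by
    intro T
    by_cases h : (ovU j.opensRange).mem T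
    · obtain ⟨T', rfl⟩ := exists_lift j h
      refine ⟨(zη (Scheme.etaleTopology.over X) (ovU j.opensRange) F.obj).app _ ≫ θ.hom.app (op T'), fun A a s => ?_⟩
      obtain ⟨a, rfl⟩ := full j a
      exact (nat θ.hom a _).symm
    · refine ⟨0, fun A a s => ?_⟩
      rw [show s = 0 from Subtype.ext (s.2.resolve_right h)]
      simp only [map_zero]
  choose t ht using key
  have ht' : ∀ (A : Over Y) (s), t _ s =
      θ.hom.app (op A) ((zη (Scheme.etaleTopology.over X) (ovU j.opensRange) F.obj).app _ s) := fun A s => by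
    have := ht _ A (𝟙 _) s
    rwa [res_id, res_id] at this
  obtain ⟨ψ, hψ⟩ := hW.2 ⟨fun T => t T.unop, fun T T' g => by
    ext s
    by_cases h : (ovU j.opensRange).mem T'.unop
    · obtain ⟨A, hA⟩ := exists_lift j h
      obtain rfl : T' = op ((Over.map j).obj A) := congrArg op hA
      exact (ht' A _).trans (ht _ A g.unop s).symm
    · rw [show s = 0 from Subtype.ext (s.2.resolve_right fun h' =>
        h ((ovU j.opensRange).down g.unop h')), map_zero, map_zero]⟩
  refine ⟨⟨ψ⟩, Sheaf.hom_ext ?_⟩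
  ext A s
  exact (congr(($hψ).app (op ((Over.map j).obj A.unop)) ⟨s.1, .inr (mem_map j _)⟩)).trans
    (ht' A.unop _)

omit j in
lemma geom (X : Scheme.{0}) (t : X) : ∃ (k : Type) (_ : Field k) (_ : IsAlgClosed k)
    (x : Spec (.of k) ⟶ X), t ∈ Set.range x := by
  obtain ⟨k, _, _, x, y, hy⟩ := exists_geom (top X) t
  have : y.left = x := (Category.comp_id _).symm.trans (Over.w y)
  exact ⟨k, _, inferInstance, x, this ▸ hy⟩

/-- A sheaf that vanishes outside `U` is its own extension by zero. -/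
lemma ezι_isIso {l : ℕ} (hl : Linv l X) (U : X.Opens) {F : Sh (Scheme.etaleTopology.over X)} (hF : Cc l F)
    (hv : Van l U F) : IsIso ((ezι U).app F) := by
  refine pt_iso hl ⟨ez_LFP U (hF.1.restrict _), ez_Rig U (hF.2.restrict _)⟩ hF _ fun t => ?_
  obtain ⟨k, _, _, x, hx⟩ := geom X t
  refine ⟨k, _, inferInstance, x, hx, ?_⟩
  by_cases h : (ovU U).mem (Over.mk x)
  · exact ezι_bij U F h
  · refine ⟨Subtype.val_injective, fun s => ⟨0, (map_zero _).trans (hv k x (hl k x) ?_ s).symm⟩⟩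
    exact fun z hz => h fun z' : Spec (.of k) => by rw [Subsingleton.elim z' z]; exact hz

end EXT0

open EXT0

theorem ext0 : EXT0_s := by
  intro l X hl
  refine ⟨fun Y j _ F G hF hv φ => ?_, fun S h1 h2 h3 h => ?_⟩
  · have := ezι_isIso hl j.opensRange hF hv
    obtain ⟨ψ, hψ⟩ := EXT0.hom_surj j F G ((pb j).map ((ezι j.opensRange).app F) ≫ φ)
    refine ⟨inv ((ezι j.opensRange).app F) ≫ ψ, ?_⟩
    rw [Functor.map_comp, hψ, ← Category.assoc, ← Functor.map_comp, IsIso.inv_hom_id]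
    exact (congrArg (· ≫ φ) ((pb j).map_id F)).trans (Category.id_comp φ)
  · have pt : ∀ Q : ∀ (k : Type) [Field k] [IsAlgClosed k], (Spec (.of k) ⟶ X) → Prop,
        (∀ (k : Type) [Field k] [IsAlgClosed k] (x : Spec (.of k) ⟶ X), Q k x) →
        ∀ t : X, ∃ (k : Type) (_ : Field k) (_ : IsAlgClosed k) (x : Spec (.of k) ⟶ X),
          t ∈ Set.range x ∧ Q k x := fun Q hQ t => by
      obtain ⟨k, _, _, x, hx⟩ := geom X t
      exact ⟨k, _, inferInstance, x, hx, hQ k x⟩
    have := pt_mono hl h1 h2 S.f (pt _ fun k _ _ x => (h k x).1)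
    have := pt_epi hl h2 h3 S.g (pt _ fun k _ _ x => (h k x).2.2)
    refine { exact := S.exact_iff_epi_kernel_lift.2 (pt_epi hl h1 (Cc.ker _ h2 h3) _
      (pt _ fun k _ _ x z => ?_)) }
    obtain ⟨y, hy⟩ := ((h k x).2.1 ((kernel.ι S.g).hom.app _ z)).1
      congr(($(kernel.condition S.g)).hom.app (op (Over.mk x)) z)
    refine ⟨y, (Ez.sec_exact (ShortComplex.exact_kernel S.g) (Over.mk x)).1 (Eq.trans ?_ hy)⟩
    exact congr(($(kernel.lift_ι S.g S.f S.zero)).hom.app (op (Over.mk x)) y)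

end Pool.Agent.MP_855f4c_ag.E.SA

end

section

/-! Section S: the local shape of a good sheaf. -/

set_option autoImplicit false
set_option backward.isDefEq.respectTransparency false

open CategoryTheory Limits Abelian Opposite AlgebraicGeometry Polynomial IsLocalRing TensorProduct
open Function

namespace Pool.Agent.MP_855f4c_ag.E.SA

open E3 E4

namespace LOC

lemma eval_rev {A V : Type} [CommRing A] [CommRing V] (φ : A →+* V) (h : A[X]) {b c : V}
    (e : c * b = 1) : h.eval₂ φ c = h.reverse.eval₂ φ b * c ^ h.natDegree := by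
  let _ : Invertible c := ⟨b, (mul_comm _ _).trans e, e⟩
  exact (eval₂_reverse_mul_pow φ c h).symm

section loc
variable {A B E : Type} [CommRing A] [CommRing B] [CommRing E] (L : PL (Spec (.of A))) (h : A[X])
  (φ : A →+* B) (θ : B[X] →+* E)

lemma ev₁ : eval₂ (θ.comp (C.comp φ)) (θ X) h = θ (h.map φ) := (hom_eval₂ h _ θ X).symm

lemma ev₂ {c : E} (e : c * θ X = 1) :
    eval₂ (θ.comp (C.comp φ)) c h = θ (h.map φ).reverse * c ^ (h.map φ).natDegree := by
  have h1 : θ (h.map φ).reverse = eval₂ (θ.comp C) (θ X) (h.map φ).reverse := by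
    rw [← hom_eval₂, eval₂_C_X]
  rw [h1, ← eval_rev _ _ e, eval₂_map]
  rfl

lemma mem₁ (z : Spec (.of E)) :
    L.pnt (spc (θ.comp (C.comp φ))) (pt1 (θ X)) z ∈ Set.range (L.u h) ↔
      θ (h.map φ) ∉ z.asIdeal := by
  rw [L.pt1_mem_u, ev₁]

lemma mem₂ {c : E} (e : c * θ X = 1) (z : Spec (.of E)) :
    L.pnt (spc (θ.comp (C.comp φ))) (pt2 (θ X)) z ∈ Set.range (L.u h) ↔
      θ (h.map φ).reverse * c ^ (h.map φ).natDegree ∉ z.asIdeal := by
  rw [← pt1_eq_pt2.2 e, L.pt1_mem_u, ev₂ h φ θ e]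

variable (D : Type) [CommRing D] [Algebra B[X] D] [Algebra D E]

lemma comp₁ : spc (algebraMap D E) ≫ u₁ L φ D =
    L.pnt (spc (((algebraMap D E).comp (algebraMap B[X] D)).comp (C.comp φ)))
      (pt1 (((algebraMap D E).comp (algebraMap B[X] D)) X)) := by
  rw [PL.comp_pnt, map_pt1, ← Spec.map_comp, ← CommRingCat.ofHom_comp]
  rfl

lemma comp₂ : spc (algebraMap D E) ≫ u₂ L φ D =
    L.pnt (spc (((algebraMap D E).comp (algebraMap B[X] D)).comp (C.comp φ)))
      (pt2 (((algebraMap D E).comp (algebraMap B[X] D)) X)) := by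
  rw [PL.comp_pnt, map_pt2, ← Spec.map_comp, ← CommRingCat.ofHom_comp]
  rfl

omit [Algebra D E] in
lemma loc_of {l : ℕ} {F : Sh (Scheme.etaleTopology.over L.P)} (hF : Gd l L h F) (hl : IsUnit (l : B))
    (u : Spec (.of D) ⟶ L.P) (g : D)
    (h₁ : ∀ (k : Type) [Field k] [Algebra D k], algebraMap D k g = 0 →
      ∀ z, (spc (algebraMap D k) ≫ u) z ∉ Set.range (L.u h))
    (h₂ : ∀ z, (spc (algebraMap D (Localization.Away g)) ≫ u) z ∈ Set.range (L.u h)) :
    Loc l F u g := by
  refine ⟨hF.1, fun k _ _ _ hk s => hF.2.2.2 k _ ?_ (h₁ k hk) s, ?_⟩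
  · have := hl.map (((algebraMap D k).comp (algebraMap B[X] D)).comp C)
    rw [map_natCast] at this
    exact this.ne_zero
  · have H := Set.range_subset_iff.2 h₂
    exact hF.2.2.1.mono (Over.homMk (IsOpenImmersion.lift _ _ H)
      (IsOpenImmersion.lift_fac _ _ H))

end loc

end LOC

theorem loc : LOC_s := by
  intro l A _ L h F _ hF B D _ _ _ φ hl
  refine ⟨LOC.loc_of L h D hF hl _ _ (fun k _ _ hk z => ?_) fun z => ?_,
    LOC.loc_of L h D hF hl _ _ (fun k _ _ hk z => ?_) fun z => ?_⟩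
  · rw [LOC.comp₁, LOC.mem₁, RingHom.comp_apply, hk]
    exact not_not.2 (zero_mem _)
  · rw [LOC.comp₁, LOC.mem₁, RingHom.comp_apply]
    exact (isUnit_iff_forall _).1 (IsLocalization.Away.algebraMap_isUnit _) z
  · rw [LOC.comp₂]
    rw [← RingHom.comp_apply, map_mul] at hk
    generalize (algebraMap D k).comp (algebraMap B[X] D) = θ at hk ⊢
    by_cases h0 : θ X = 0
    · rw [h0]
      exact L.pt2_zero_notMem_u h _ z
    · rw [LOC.mem₂ L h φ θ (inv_mul_cancel₀ h0), (mul_eq_zero.1 hk).resolve_left h0, zero_mul]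
      exact not_not.2 (zero_mem _)
  · rw [LOC.comp₂]
    have hk := IsLocalization.Away.algebraMap_isUnit
      (S := Localization.Away (algebraMap B[X] D (X * (h.map φ).reverse)))
      (algebraMap B[X] D (X * (h.map φ).reverse))
    rw [← RingHom.comp_apply] at hk
    generalize (algebraMap D (Localization.Away (algebraMap B[X] D (X * (h.map φ).reverse)))).comp
      (algebraMap B[X] D) = θ at hk ⊢
    replace hk : IsUnit (θ X * θ (h.map φ).reverse) := (map_mul θ _ _).subst (motive := IsUnit) hk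
    obtain ⟨c, hc⟩ := (isUnit_of_mul_isUnit_left hk).exists_left_inv
    rw [LOC.mem₂ L h φ θ hc]
    exact (isUnit_iff_forall _).1
      ((isUnit_of_mul_isUnit_right hk).mul ((IsUnit.of_mul_eq_one _ hc).pow _)) z

end Pool.Agent.MP_855f4c_ag.E.SA

end

section

set_option autoImplicit false
set_option backward.isDefEq.respectTransparency false

open CategoryTheory Limits Abelian Opposite AlgebraicGeometry Polynomial IsLocalRing
open Function

namespace Pool.Agent.MP_855f4c_ag.E.SA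

open E3 E4

namespace Glb

lemma charZero {A : Type} [CommRing A] (h : Nice A) : CharZero A := by
  obtain ⟨n, N, φ, hN, hφ, -⟩ := h.int
  have : CharZero (Localization.Away (N : ℤ)) := charZero_of_injective_ringHom
    (IsLocalization.injective (M := Submonoid.powers (N : ℤ)) (Localization.Away (N : ℤ))
      (powers_le_nonZeroDivisors_of_noZeroDivisors (by exact_mod_cast hN)))
  exact charZero_of_injective_ringHom hφ

lemma jacobson_int : IsJacobsonRing ℤ := isJacobsonRing_iff_prime_eq.2 fun P hP => by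
  rcases eq_or_ne P ⊥ with rfl | h
  · refine le_bot_iff.1 fun x hx => ?_
    have := Int.isUnit_iff.1 (Ideal.mem_jacobson_bot.1 hx x)
    change x = 0
    rcases this with h | h <;> nlinarith [mul_self_nonneg x]
  · have := Ring.DimensionLEOne.maximalOfPrime h hP
    exact Ideal.jacobson_eq_self_of_isMaximal

/-- Valuation rings of algebraically closed fields are aic. -/
lemma aic {Ω : Type} [Field Ω] [IsAlgClosed Ω] (V : ValuationSubring Ω) : Aic V := by
  intro p hp hd
  obtain ⟨x, hx⟩ := IsAlgClosed.exists_aeval_eq_zero Ω p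
    fun h => hd (natDegree_eq_zero_iff_degree_le_zero.2 h.le)
  obtain ⟨y, rfl⟩ := IsIntegrallyClosed.isIntegral_iff.1 (⟨p, hp, hx⟩ : IsIntegral V x)
  rw [aeval_algebraMap_apply, coe_aeval_eq_eval] at hx
  exact ⟨y, Subtype.ext hx⟩

lemma closure (A : Type) [CommRing A] [IsDomain A] : ∃ (Ω : Type) (_ : Field Ω)
    (_ : IsAlgClosed Ω) (_ : Algebra A Ω), Algebra.IsAlgebraic A Ω ∧ FaithfulSMul A Ω := by
  let Ω := AlgebraicClosure (FractionRing A)
  have : Algebra.IsAlgebraic A (FractionRing A) :=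
    IsLocalization.isAlgebraic (FractionRing A) (nonZeroDivisors A)
  refine ⟨Ω, _, inferInstance, _, Algebra.IsAlgebraic.trans A (FractionRing A) Ω,
    (faithfulSMul_iff_algebraMap_injective A Ω).2 ?_⟩
  rw [IsScalarTower.algebraMap_eq A (FractionRing A) Ω]
  exact (algebraMap (FractionRing A) Ω).injective.comp (IsFractionRing.injective A _)

lemma lis_top {l : ℕ} {A : Type} [CommRing A] {P : PSh (Spec (.of A))}
    (h : Lis l P (ob (𝟙 _) A)) : Lis l P (top _) := by
  have e : spc (algebraMap A A) ≫ 𝟙 _ = 𝟙 _ :=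
    (Category.comp_id _).trans (Spec.map_id (CommRingCat.of A))
  have (f : Spec (.of A) ⟶ Spec (.of A)) (e : f = 𝟙 _) (h : Lis l P (Over.mk f)) :
      Lis l P (top _) := by subst e; exact h
  exact this _ e h

lemma rs_bij {A V K : Type} [CommRing A] [CommRing V] [CommRing K] [Algebra A V] [Algebra A K]
    (P : PSh (Spec (.of A))) (φ : V →ₐ[A] K)
    (h : ∀ e : spc (φ : V →+* K) ≫ spc (algebraMap A V) = spc (algebraMap A K),
      Bijective (P.map (sph (φ : V →+* K) e).op)) : Bijective (rs (𝟙 _) P φ) := by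
  have (a : Spec (.of V) ⟶ Spec (.of A)) (b : Spec (.of K) ⟶ Spec (.of A))
      (ha : spc (algebraMap A V) = a) (hb : spc (algebraMap A K) = b)
      (e : spc (φ : V →+* K) ≫ a = b) : Bijective (P.map (sph (φ : V →+* K) e).op) := by
    subst ha hb; exact h e
  exact this _ _ (Category.comp_id _).symm (Category.comp_id _).symm _

/-- Stalks of higher direct images. -/
lemma rq_bij {X Y : Scheme.{0}} (f : X ⟶ Y) (F : Sh (Scheme.etaleTopology.over X)) (q : ℕ) {A B : Type} [CommRing A]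
    [CommRing B] [SHL A] [SHL B] {a : Spec (.of A) ⟶ Y} {b : Spec (.of B) ⟶ Y}
    (g : Over.mk b ⟶ Over.mk a) (h : Bijective (res ((Over.pullback f).map g) F q)) :
    Bijective (((Rq f q).obj F).obj.map g.op) := by
  let η := toSheafify (Scheme.etaleTopology.over Y) ((Over.pullback f).op ⋙ (HPF q).obj F)
  have e : ((Rq f q).obj F).obj.map g.op ∘ η.app (op (Over.mk a)) =
      η.app (op (Over.mk b)) ∘ res ((Over.pullback f).map g) F q :=
    funext fun s => (nat η g s).symm
  rw [← Bijective.of_comp_iff _ ⟨shl_inj a η, shl_surj a η⟩, e]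
  exact Bijective.comp ⟨shl_inj b η, shl_surj b η⟩ h

end Glb

theorem gl (h1 : SBC_s) (h2 : PBC_s) (h3 : TRT_s) : GL_s := by
  intro l _ A _ L m a F hA hl hs hG b
  have := hA.dom
  have := hA.ft
  have := Glb.charZero hA
  have := Glb.jacobson_int
  have : IsJacobsonRing A := isJacobsonRing_of_finiteType (A := ℤ)
  obtain ⟨Ω, _, _, _, _, _⟩ := Glb.closure A
  have : CharZero Ω := charZero_of_injective_algebraMap (FaithfulSMul.algebraMap_injective A Ω)
  have hc : Cc l ((Rq L.π b).obj F) := (h2 l _ L F b hG.1).1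
  refine Glb.lis_top (lis_of_test_max (𝟙 (Spec (.of A))) Ω hc fun P hP _ => ?_)
  obtain ⟨V, hV, h, hc⟩ := h3 A Ω hA P hP
  let β : integralClosure A Ω →+* V := (integralClosure A Ω).val.toRingHom.codRestrict V h
  let _ : Algebra A V := (β.comp (algebraMap A _)).toAlgebra
  have hV' := Glb.aic V
  have : SHL V := hV'.shl
  refine ⟨V, Ω, inferInstance, inferInstance, inferInstance, inferInstance, inferInstance,
    inferInstance, ⟨β, fun _ => rfl⟩, ⟨V.subtype, fun _ => rfl⟩,
    Ideal.ext fun z => (hc z).symm, Subtype.val_injective, ?_⟩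
  exact Glb.rs_bij _ _ fun e => Glb.rq_bij L.π F b _ (h1 l A L m a F hs hG V Ω (algebraMap A V) _ e
    hV' hV (by simpa using hl.map (algebraMap A V)) b)

end Pool.Agent.MP_855f4c_ag.E.SA

end
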