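import Pool.Agent.MP_855f4c_ag.EC.Da
import Pool.Agent.MP_855f4c_ag.EC.Dd
import Pool.Agent.MP_855f4c_ag.EC.Db
import Pool.Agent.MP_855f4c_ag.EC.Dc
import Pool.Agent.MP_855f4c_ag.EC.Ub

section

/-! h86e section D: the induction step for `EFF`. -/

set_option autoImplicit false
set_option backward.isDefEq.respectTransparency false

open CategoryTheory Limits Abelian Opposite AlgebraicGeometry

namespace Pool.Agent.MP_855f4c_ag.E.D

open E3 E4
open CV (Ln Lm)

attribute [local irreducible] Rq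

namespace STe

variable {S : Scheme.{0}} (L : PL S) (l : ℕ) [Fact l.Prime]

lemma et (V : Over S) (h : Etale V.hom) : Etale ((Over.pullback L.π).obj V).hom :=
  inferInstanceAs (Etale (pullback.snd _ _))

lemma fact (hK : KILL_s) (hE : EPI2_s) (hP : PBC_s) (hL : LNM_s) (hS : Ns l S)
    (hn : ∀ n, n ≠ 0 → Linv n S) (W : Over L.P) (hW : Aet W) (w : W.left) :
    ∃ (V : Over S) (W' : Over L.P) (h : W' ⟶ W) (r : W' ⟶ (Over.pullback L.π).obj V),
      Aet V ∧ Aet W' ∧ w ∈ Set.range h.left ∧ (Rq L.π 1).map (Lm l h) = 0 ∧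
      ∃ σ, (Rq L.π 2).map (Lm l h) = (Rq L.π 2).map (Lm l r) ≫ σ := by
  obtain ⟨V, W', h, r, aV, aW, m, s, k⟩ := hK l S L W hS hn hW w
  have tc (q : ℕ) (Z : Over L.P) (h : Etale Z.hom) : Tc l ((Rq L.π q).obj (Ln l Z)) :=
    hP l _ L _ q ((hL _ l).1 l Z ⟨1, (pow_one l).symm⟩ h)
  have z {G' G : Sh (Scheme.etaleTopology.over S)} (φ : G' ⟶ G) (c' : Cc l G') (c : Cc l G)
      (h : ∀ (k : Type) [Field k] [IsAlgClosed k] (t : Spec (.of k) ⟶ S), Zer φ t) : φ = 0 :=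
    pt_hom_ext hS.2.2 c' c φ 0 fun t => by
      obtain ⟨k, _, _, x, hx⟩ := stk_geom S t
      exact ⟨k, _, ‹_›, x, ⟨default, hx _⟩, by ext s; exact h k x s⟩
  have := hE l S L V W' r hS.2.2 aV.1 aW.1 s
  refine ⟨V, W', h, r, aV, aW, m, z _ (tc _ _ aW.1).1 (tc _ _ hW.1).1 fun k' _ _ t =>
    (KILLA.zer_iff _ _ t _).2 (k k' t).1, Abelian.epiDesc _ _ (z _
      (Cc.ker _ (tc _ _ aW.1).1 (tc _ _ (et L V aV.1)).1) (tc _ _ hW.1).1 fun k' _ _ t =>
        (KILLA.zer_ker _ _ t _ _).2 (k k' t).2), (Abelian.comp_epiDesc _ _ _).symm⟩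

lemma refine {V V' : Over S} {W : Over L.P} (r : W ⟶ (Over.pullback L.π).obj V) (b : V' ⟶ V)
    (aV : Aet V) (aV' : Aet V') (aW : Aet W) (w : W.left)
    (hw : (r.left ≫ pullback.fst V.hom L.π) w ∈ Set.range b.left) :
    ∃ (W' : Over L.P) (a : W' ⟶ W) (r' : W' ⟶ (Over.pullback L.π).obj V'), Aet W' ∧
      w ∈ Set.range a.left ∧ a ≫ r = r' ≫ (Over.pullback L.π).map b := by
  have := REF.etale b aV'.1 aV.1
  have := aV.2
  have := aV'.2
  have := aW.1
  have := aW.2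
  set ρ : W.left ⟶ V.left := r.left ≫ pullback.fst V.hom L.π with hρ
  have e : ρ ≫ V.hom = W.hom ≫ L.π := by
    rw [hρ, Category.assoc, pullback.condition, ← Over.w r, Category.assoc]
    rfl
  obtain ⟨v, hv⟩ := hw
  obtain ⟨z, hz, -⟩ := Scheme.exists_preimage_of_isPullback (IsPullback.of_hasPullback ρ b.left)
    w v hv.symm
  refine ⟨Over.mk (pullback.fst ρ b.left ≫ W.hom), Over.homMk (pullback.fst ρ b.left) rfl,
    Over.homMk (pullback.lift (pullback.snd ρ b.left) (pullback.fst ρ b.left ≫ W.hom) (by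
      rw [← Over.w b, ← pullback.condition_assoc, e, Category.assoc])) (pullback.lift_snd _ _ _),
    ⟨inferInstanceAs (Etale (pullback.fst ρ b.left ≫ W.hom)),
      inferInstanceAs (IsAffine (pullback ρ b.left))⟩, ⟨z, hz⟩,
    Over.OverMorphism.ext (pullback.hom_ext ?_ ?_)⟩
  · simpa [hρ] using pullback.condition (f := ρ) (g := b.left)
  · simpa using pullback.fst ρ b.left ≫= Over.w r

end STe

open STe in
theorem step_eff (hK : KILL_s) (hR : LERP_s) (h0 : K0_s) (hI : IOTA_s) (hE : EPI2_s) (hP : PBC_s)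
    (hL : LNM_s) (l : ℕ) [Fact l.Prime] (Ω : Type) [Field Ω] [IsAlgClosed Ω] [CharZero Ω]
    (S : Scheme.{0}) (L : PL S) (s : S ⟶ Spec (.of Ω)) (N : ℕ) (hS : Ns l S) (hF : EFF l S N) :
    EFF l L.P (N + 2) := by
  intro W hW w j hj
  have hn (n : ℕ) (hn : n ≠ 0) : Linv n S := fun k _ x h => by
    have := (Spec.preimage (x ≫ s)).hom.injective (a₁ := (n : Ω)) (a₂ := 0) (by simpa using h)
    exact hn (Nat.cast_eq_zero.1 this)
  obtain ⟨ι, nat, iso⟩ := hI l Ω S L s (Nat.cast_ne_zero.2 (Fact.out : l.Prime).ne_zero)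
  obtain ⟨-, W₁, h₁, -, -, a₁, ⟨w₁, rfl⟩, z₁, -⟩ := fact L l hK hE hP hL hS hn W hW w
  obtain ⟨V, W₂, h₂, r, aV, a₂, ⟨w₂, rfl⟩, -, σ, hσ⟩ := fact L l hK hE hP hL hS hn W₁ a₁ w₁
  obtain ⟨V', b, aV', m, hb⟩ : ∃ (V' : Over S) (b : V' ⟶ V), Aet V' ∧
      (r.left ≫ pullback.fst V.hom L.π) w₂ ∈ Set.range b.left ∧
      ∀ a, a + 2 = j → ∀ x : H (top S) (Ln l V') a, Hmap (Lm l b) _ a x = 0 := by
    by_cases h : j < 2
    · exact ⟨V, 𝟙 V, aV, ⟨_, rfl⟩, fun a ha => by omega⟩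
    · obtain ⟨V', b, h1, h2, h3⟩ := hF V aV _ (j - 2) (by omega)
      exact ⟨V', b, h1, h2, fun a ha => by obtain rfl : a = j - 2 := by omega
                                           exact h3⟩
  obtain ⟨W₃, a, r', a₃, ⟨w₃, rfl⟩, hr⟩ := refine L r b aV aV' a₂ w₂ m
  have := aV'.1
  have := aV'.2
  have := hS.2.1
  have := iso V' aV'.1 inferInstance
  have e : (Rq L.π 2).map (Lm l (a ≫ h₂)) =
      ((Rq L.π 2).map (Lm l r') ≫ inv (ι V')) ≫ Lm l b ≫ ι V ≫ σ := by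
    rw [reassoc_of% nat V' V b, Category.assoc, IsIso.inv_hom_id_assoc, ← Functor.map_comp_assoc,
      IND2.Lm_comp, ← hr, ← IND2.Lm_comp, ← IND2.Lm_comp, Functor.map_comp, Functor.map_comp, hσ,
      Category.assoc]
  refine ⟨W₃, (a ≫ h₂) ≫ h₁, a₃, ⟨w₃, by simp⟩, fun x => (CDG.tot_bij L.π _ j).1 ?_⟩
  rw [map_zero, ← Hmap_res, ← IND2.Lm_comp, ← Category.comp_id (Lm l h₁)]
  refine (hR l S L (top S) hS.2.2).2.1 _ _ _ _ _ _ _ j
    ((hL _ l).1 l _ ⟨1, (pow_one l).symm⟩ a₃.1) (fun i hi y => ?_) (fun i hi y => ?_)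
    (fun y => ?_) _
  · rw [e, ← Hmap_Hmap, ← Hmap_Hmap, hb i hi, map_zero]
  · rw [z₁]
    exact (congrArg (fun z => y.comp z (add_zero i)) (Ext.mk₀_zero _ _)).trans
      (Ext.comp_zero _ _ _ _ _)
  · rw [(h0 l S L W hS.2.1 hS.2.2 hW).eq_of_src ((Rq L.π 0).map _) 0]
    exact (congrArg (fun z => y.comp z (add_zero j)) (Ext.mk₀_zero _ _)).trans
      (Ext.comp_zero _ _ _ _ _)

end Pool.Agent.MP_855f4c_ag.E.D

end

section

/-! h86e section D, row STEP: the clause on the trace. -/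

set_option autoImplicit false
set_option backward.isDefEq.respectTransparency false

open CategoryTheory Limits Abelian Opposite AlgebraicGeometry

namespace Pool.Agent.MP_855f4c_ag.E.D

open E3 E4
open CV (Ln Lm)

namespace STt

lemma fac {A : Type*} [Category* A] [Abelian A] {X Y Z : A} (r : X ⟶ Y) [Epi r] (h : X ⟶ Z)
    (e : kernel.ι r ≫ h = 0) : ∃ σ : Y ⟶ Z, r ≫ σ = h :=
  ⟨Abelian.epiDesc r h e, Abelian.comp_epiDesc r h e⟩

lemma Hmap_zero {X : Scheme.{0}} {F G : Sh (Scheme.etaleTopology.over X)} (T : Over X) (q : ℕ) (y : H T F q) :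
    Hmap (0 : F ⟶ G) T q y = 0 :=
  (congrArg (fun z => y.comp z (add_zero q)) (Ext.mk₀_zero _ _)).trans (Ext.comp_zero _ _ _ _ _)

/-- A class that dies in `B` comes from the kernel. -/
lemma from_ker {X : Scheme.{0}} {A B : Sh (Scheme.etaleTopology.over X)} (φ : A ⟶ B) (T : Over X) (q : ℕ)
    (h : ∀ y : H T (cokernel φ) q, y = 0) (x : H T A (q + 1)) (hx : Hmap φ T (q + 1) x = 0) :
    ∃ y, Hmap (kernel.ι φ) T (q + 1) y = x := by
  have L1 := cov_les ((fr (Scheme.etaleTopology.over X)).obj T) (ShortComplex.ShortExact.mk'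
    (ShortComplex.exact_kernel (cokernel.π φ)) inferInstance inferInstance)
  have L2 := cov_les ((fr (Scheme.etaleTopology.over X)).obj T) (ShortComplex.ShortExact.mk'
    (ShortComplex.exact_kernel (Abelian.factorThruImage φ)) inferInstance inferInstance)
  obtain ⟨z, hz⟩ := (L1.e₁ q (Hmap (Abelian.factorThruImage φ) T (q + 1) x)).1
    ((Hmap_Hmap _ _ x).trans ((congrArg (fun a => Hmap a T (q + 1) x)
      (Abelian.image.fac φ)).trans hx))
  rw [h z, map_zero] at hz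
  obtain ⟨y, rfl⟩ := (L2.e₂ (q + 1) x).1 hz.symm
  have e : kernel.ι (Abelian.factorThruImage φ) ≫ φ = 0 :=
    (congrArg (_ ≫ ·) (Abelian.image.fac φ).symm).trans (by rw [kernel.condition_assoc, zero_comp])
  exact ⟨Hmap (kernel.lift φ _ e) T _ y, (Hmap_Hmap _ _ y).trans (by rw [kernel.lift_ι]; rfl)⟩

lemma qc {S : Scheme.{0}} (hS : S.IsSeparated) {V : Over S} (h : Aet V) : QuasiCompact V.hom := by
  have := h.2
  have := hS.isSeparated_terminal_from
  have : IsAffineHom (V.hom ≫ terminal.from S) := by rw [terminal.comp_from]; infer_instance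
  have : IsAffineHom V.hom := .of_comp _ (terminal.from S)
  infer_instance

end STt

open STt in
theorem step_trc (hK : KILL_s) (hL : LERP_s) (hI : IOTA_s) (hE : EPI2_s) (hP : PBC_s)
    (hN : LNM_s) (l : ℕ) [Fact l.Prime] (Ω : Type) [Field Ω] [IsAlgClosed Ω] [CharZero Ω]
    (S : Scheme.{0}) (L : PL S) (s : S ⟶ Spec (.of Ω)) (N : ℕ) (hS : Ns l S)
    (hi : IrreducibleSpace L.P) (h1 : CD l S N) (h2 : CDZ l L.P (N + 2)) (h3 : TRC l S N) :
    TRC l L.P (N + 2) := by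
  intro W hW w
  have hl := hS.2.2
  have lp : Lp l l := ⟨1, (pow_one l).symm⟩
  have tc {X : Scheme.{0}} (U : Over X) (h : Etale U.hom) : Tc l (Ln l U) := (hN X l).1 l U lp h
  obtain ⟨V, W', h, r, aV, aW, ⟨w', rfl⟩, sj, hk⟩ := hK l S L W hS (fun n hn =>
    (Linv.spec (Nat.cast_ne_zero.2 hn).isUnit).of_hom s) hW w
  obtain ⟨ι, n1, n2⟩ := hI l Ω S L s (Nat.cast_ne_zero.2 (Fact.out : l.Prime).ne_zero)
  have eP (U : Over S) (hU : Etale U.hom) : Etale ((Over.pullback L.π).obj U).hom :=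
    MorphismProperty.pullback_snd (P := @Etale) _ _ hU
  have := hE l S L V W' r hl aV.1 aW.1 sj
  obtain ⟨σ, hσ⟩ := fac ((Rq L.π 2).map (Lm l r)) ((Rq L.π 2).map (Lm l h))
    (pt_hom_ext hl (Cc.ker _ (hP l S L _ 2 (tc _ aW.1)).1 (hP l S L _ 2 (tc _ (eP V aV.1))).1)
      (hP l S L _ 2 (tc _ hW.1)).1 _ _ fun t => by
        obtain ⟨k, _, _, x, y, z, hz⟩ := exists_geom (top S) t
        exact ⟨k, _, ‹_›, x, ⟨z, (congr($((Over.w y).symm.trans (Category.comp_id _)) z)).trans hz⟩,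
          AddCommGrpCat.hom_ext (AddMonoidHom.ext ((KILLA.zer_ker L.π 2 x _ _).2 (hk k x).2))⟩)
  let ρ := r.left ≫ pullback.fst V.hom L.π
  obtain ⟨U, b, aU, ⟨u, hu⟩, hb⟩ := h3 V aV (ρ w')
  have := aV.1
  have := aV.2
  have := aW.1
  have := aW.2
  have := aU.2
  have : Etale (b.left ≫ V.hom) := by rw [Over.w]; exact aU.1
  have : Etale b.left := Etale.of_comp _ V.hom
  have hρ : ρ ≫ V.hom = W'.hom ≫ L.π := by
    rw [Category.assoc, pullback.condition, ← Category.assoc]; exact congrArg (· ≫ _) (Over.w r)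
  let Z : Over L.P := Over.mk (pullback.fst ρ b.left ≫ W'.hom)
  let a : Z ⟶ W' := Over.homMk (pullback.fst ρ b.left) rfl
  let c : Z ⟶ (Over.pullback L.π).obj U := Over.homMk (pullback.lift (pullback.snd ρ b.left) Z.hom
    (by rw [← Over.w b, ← pullback.condition_assoc, hρ]; exact (Category.assoc _ _ _).symm))
    (pullback.lift_snd _ _ _)
  have e1 : c ≫ (Over.pullback L.π).map b = a ≫ r := by
    ext1
    apply pullback.hom_ext
    · simp [c, a, ← pullback.condition, ρ]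
    · simp [c, a, Z, ← Over.w r]
  have eZ : Etale Z.hom := inferInstanceAs (Etale (pullback.fst ρ b.left ≫ W'.hom))
  obtain ⟨z, hz, -⟩ := Scheme.exists_preimage_of_isPullback (IsPullback.of_hasPullback ρ b.left)
    w' u hu.symm
  refine ⟨Z, a ≫ h, ⟨eZ, inferInstanceAs (IsAffine (pullback ρ b.left))⟩,
    ⟨z, congrArg h.left hz⟩, fun x hx => ?_⟩
  have e0 {X : Scheme.{0}} : Etale (top X).hom := inferInstanceAs (Etale (𝟙 X))
  have : Nonempty Z.left := ⟨z⟩
  have : IrreducibleSpace (top L.P).left := hi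
  have := e0 (X := L.P)
  obtain ⟨x, rfl⟩ := from_ker (Lm l (tot Z)) _ (N + 1) (h2 _ (Tc.coker _ (tc _ eZ).1 (tc _ e0))
    (dense_gz hN l (tot Z)) _ le_rfl) x hx
  have i1 := n2 U aU.1 (qc hS.2.1 aU)
  have i2 := n2 (top S) e0 (inferInstanceAs (QuasiCompact (𝟙 S)))
  rw [Hmap_Hmap, ← map_eq_zero_iff _ (CDG.tot_bij L.π _ _).1, ← Hmap_res]
  have k := (hL l S L (top S) hl).2.1 _ _ _ _ (kernel.ι (Lm l (tot Z)) ≫ Lm l (a ≫ h)) (𝟙 _) (𝟙 _)
    (N + 2) (Tc.ker _ (tc _ eZ) (tc _ e0).1) (fun i hi y => ?_)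
    (fun i hi y => h1 _ (hP l S L _ 1 (tc _ hW.1)) i (by omega) _)
    (fun y => h1 _ (hP l S L _ 0 (tc _ hW.1)) _ (by omega) _)
  · simpa only [Category.comp_id] using k _
  obtain rfl : i = N := by omega
  let m := (Rq L.π 2).map (kernel.ι (Lm l (tot Z)) ≫ Lm l c) ≫ inv (ι U)
  have e2 : (Rq L.π 2).map (kernel.ι (Lm l (tot Z)) ≫ Lm l (a ≫ h)) = m ≫ Lm l b ≫ ι V ≫ σ := by
    rw [reassoc_of% n1, Category.assoc, IsIso.inv_hom_id_assoc, ← Functor.map_comp_assoc,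
      Category.assoc, KRED.Lm_comp, e1, ← KRED.Lm_comp, ← KRED.Lm_comp, Functor.map_comp,
      Functor.map_comp, ← hσ]
    simp only [Functor.map_comp, Category.assoc]
  have e3 : m ≫ Lm l (tot U) = 0 := by
    let j : top L.P ⟶ (Over.pullback L.π).obj (top S) := Over.homMk
      (pullback.lift L.π (𝟙 _) ((Category.comp_id _).trans (Category.id_comp _).symm))
      (pullback.lift_snd _ _ _)
    have e4 : c ≫ (Over.pullback L.π).map (tot U) = tot Z ≫ j := by
      ext1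
      apply pullback.hom_ext
      · have := Over.w ((Over.map L.π).map c ≫ (Over.mapPullbackAdj L.π).counit.app U)
        simpa [c, j, tot] using this
      · simp [c, j, tot]
    rw [← cancel_mono (ι (top S)), Category.assoc, n1, Category.assoc, IsIso.inv_hom_id_assoc,
      ← Functor.map_comp, Category.assoc, KRED.Lm_comp, e4, ← KRED.Lm_comp, kernel.condition_assoc,
      zero_comp, zero_comp]
    have := (rq_df L.π).add 2
    exact Functor.map_zero _ _ _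
  rw [e2, ← Hmap_Hmap, ← Hmap_Hmap, hb _ (by rw [Hmap_Hmap, e3, Hmap_zero]), map_zero]

end Pool.Agent.MP_855f4c_ag.E.D

end
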